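import Mathlib
import Pool.Agent.Lib.MP_666dc0_nt.IG.Defs

section

/-!
# WL, K1: powers of numbers close to `1` in `ℚ̄_ℓ`, and finiteness of the radii of a compact set
-/

namespace Pool.Agent.Lib.MP_666dc0_nt.WL

variable {ℓ : ℕ} [Fact ℓ.Prime]

private theorem k1_norm_ell : ‖((ℓ : ℕ) : PadicAlgCl ℓ)‖ = (ℓ : ℝ)⁻¹ := by
  rw [← map_natCast (algebraMap ℚ_[ℓ] (PadicAlgCl ℓ)), PadicAlgCl.norm_extends]
  exact Padic.norm_p

private theorem k1_norm_nat (n : ℕ) : ‖((n : ℕ) : PadicAlgCl ℓ)‖ ≤ 1 := by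
  rw [← map_natCast (algebraMap ℚ_[ℓ] (PadicAlgCl ℓ)), PadicAlgCl.norm_extends]
  exact_mod_cast Padic.norm_int_le_one (p := ℓ) (n : ℤ)

/-- Proof: write `x = 1 + y`; `x ^ ℓ - 1 = ∑_{k=1}^{ℓ} (ℓ choose k) y ^ k`; for `0 < k < ℓ` the binomial
coefficient is divisible by `ℓ` (`Nat.Prime.dvd_choose_self`), so its norm is `≤ ‖ℓ‖ = ℓ⁻¹`
(`PadicAlgCl.norm_extends`), and `‖y ^ ℓ‖ = ‖y‖ ^ (ℓ - 1) ‖y‖ ≤ c ‖y‖`
(`IsUltrametricDist.norm_sum_le_of_forall_le_of_nonneg`). -/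
theorem norm_pow_sub_one_le {c : ℝ} (hc : c < 1) (hc' : (ℓ : ℝ)⁻¹ ≤ c) {x : PadicAlgCl ℓ}
    (hx : ‖x - 1‖ ≤ c) : ‖x ^ ℓ - 1‖ ≤ c * ‖x - 1‖ := by
  have hℓ : ℓ.Prime := Fact.out
  have hc0 : 0 ≤ c := le_trans (by positivity) hc'
  set y : PadicAlgCl ℓ := x - 1 with hy
  have hxy : x = y + 1 := by rw [hy]; ring
  have hexp : x ^ ℓ - 1 = ∑ k ∈ Finset.range ℓ, y ^ (k + 1) * ((ℓ.choose (k + 1) : ℕ) : PadicAlgCl ℓ) := by
    rw [hxy, add_pow, Finset.sum_range_succ']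
    simp
  rw [hexp]
  have hy0 : 0 ≤ ‖y‖ := norm_nonneg _
  have hy1 : ‖y‖ ≤ 1 := hx.trans hc.le
  apply IsUltrametricDist.norm_sum_le_of_forall_le_of_nonneg (mul_nonneg hc0 hy0)
  intro k hk
  rw [Finset.mem_range] at hk
  rw [norm_mul, norm_pow]
  by_cases hkl : k + 1 = ℓ
  · rw [hkl, Nat.choose_self, Nat.cast_one, norm_one, mul_one]
    obtain ⟨m, h2⟩ : ∃ m : ℕ, ℓ = m + 1 + 1 := ⟨ℓ - 2, by
      have := hℓ.two_le
      omega⟩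
    have h3 : ‖y‖ ^ ℓ = ‖y‖ ^ m * ‖y‖ * ‖y‖ := by
      rw [← pow_succ, ← pow_succ]
      exact congrArg (fun j : ℕ => ‖y‖ ^ j) h2
    rw [h3]
    apply mul_le_mul_of_nonneg_right _ hy0
    calc ‖y‖ ^ m * ‖y‖ ≤ 1 * ‖y‖ :=
          mul_le_mul_of_nonneg_right (pow_le_one₀ hy0 hy1) hy0
      _ ≤ c := by rw [one_mul]; exact hx
  · have hdvd : ℓ ∣ ℓ.choose (k + 1) :=
      hℓ.dvd_choose_self (Nat.succ_ne_zero k) (by omega)
    obtain ⟨m, hm⟩ := hdvd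
    have hn : ‖((ℓ.choose (k + 1) : ℕ) : PadicAlgCl ℓ)‖ ≤ c := by
      rw [hm, Nat.cast_mul, norm_mul, k1_norm_ell]
      calc (ℓ : ℝ)⁻¹ * ‖((m : ℕ) : PadicAlgCl ℓ)‖ ≤ (ℓ : ℝ)⁻¹ * 1 :=
            mul_le_mul_of_nonneg_left (k1_norm_nat m) (by positivity)
        _ ≤ c := by rw [mul_one]; exact hc'
    have hp : ‖y‖ ^ (k + 1) ≤ ‖y‖ := by
      rw [pow_succ]
      calc ‖y‖ ^ k * ‖y‖ ≤ 1 * ‖y‖ :=
            mul_le_mul_of_nonneg_right (pow_le_one₀ hy0 hy1) hy0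
        _ = ‖y‖ := one_mul _
    calc ‖y‖ ^ (k + 1) * ‖((ℓ.choose (k + 1) : ℕ) : PadicAlgCl ℓ)‖ ≤ ‖y‖ * c :=
          mul_le_mul hp hn (norm_nonneg _) hy0
      _ = c * ‖y‖ := mul_comm _ _

private theorem k1_iter {c : ℝ} (hc : c < 1) (hc' : (ℓ : ℝ)⁻¹ ≤ c) {x : PadicAlgCl ℓ}
    (hx : ‖x - 1‖ ≤ c) (s : ℕ) : ‖x ^ (ℓ ^ s) - 1‖ ≤ c ^ s * c := by
  have hc0 : 0 ≤ c := le_trans (by positivity) hc'
  induction s with
  | zero => simpa using hx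
  | succ s ih =>
    have h1 : ‖x ^ (ℓ ^ s) - 1‖ ≤ c := by
      refine ih.trans ?_
      calc c ^ s * c ≤ 1 * c := mul_le_mul_of_nonneg_right (pow_le_one₀ hc0 hc.le) hc0
        _ = c := one_mul _
    have h2 := norm_pow_sub_one_le hc hc' h1
    rw [← pow_mul, ← pow_succ] at h2
    refine h2.trans ?_
    calc c * ‖x ^ (ℓ ^ s) - 1‖ ≤ c * (c ^ s * c) := mul_le_mul_of_nonneg_left ih hc0
      _ = c ^ (s + 1) * c := by ring

/-- Proof: with `c' = max c ℓ⁻¹ < 1` one has `‖x ^ (ℓ ^ s) - 1‖ ≤ c' ^ s * c'` by induction on `s`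
(`norm_pow_sub_one_le`, `pow_succ`, `pow_mul`), which tends to `0`
(`exists_pow_lt_of_lt_one`); monotone in `s`. -/
theorem exists_pow_close {c η : ℝ} (hc : c < 1) (hη : 0 < η) :
    ∃ s₀ : ℕ, ∀ s ≥ s₀, ∀ x : PadicAlgCl ℓ, ‖x - 1‖ ≤ c → ‖x ^ (ℓ ^ s) - 1‖ ≤ η := by
  have hℓ : ℓ.Prime := Fact.out
  have hl1 : (ℓ : ℝ)⁻¹ < 1 := by
    apply inv_lt_one_of_one_lt₀
    exact_mod_cast hℓ.one_lt
  set c' : ℝ := max c (ℓ : ℝ)⁻¹ with hcd
  have hc1 : c' < 1 := max_lt hc hl1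
  have hc2 : (ℓ : ℝ)⁻¹ ≤ c' := le_max_right _ _
  have hc0 : 0 ≤ c' := le_trans (by positivity) hc2
  obtain ⟨s₀, hs₀⟩ := exists_pow_lt_of_lt_one hη hc1
  refine ⟨s₀, ?_⟩
  intro s hs x hx
  have h1 := k1_iter hc1 hc2 (hx.trans (le_max_left _ _)) s
  refine h1.trans ?_
  calc c' ^ s * c' ≤ c' ^ s * 1 := mul_le_mul_of_nonneg_left hc1.le (pow_nonneg hc0 _)
    _ = c' ^ s := mul_one _
    _ ≤ c' ^ s₀ := pow_le_pow_of_le_one hc0 hc1.le hs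
    _ ≤ η := hs₀.le

/-- Proof: `‖x ^ (ℓ ^ s)‖ ≤ c ^ (ℓ ^ s) ≤ c ^ s` (for `0 ≤ c < 1`, `s ≤ ℓ ^ s`: `Nat.lt_pow_self`). -/
theorem exists_pow_small {c η : ℝ} (hc : c < 1) (hη : 0 < η) :
    ∃ s₀ : ℕ, ∀ s ≥ s₀, ∀ x : PadicAlgCl ℓ, ‖x‖ ≤ c → ‖x ^ (ℓ ^ s)‖ ≤ η := by
  have hℓ : ℓ.Prime := Fact.out
  obtain ⟨s₀, hs₀⟩ := exists_pow_lt_of_lt_one hη hc
  refine ⟨s₀, ?_⟩
  intro s hs x hx
  have hc0 : 0 ≤ c := (norm_nonneg _).trans hx
  rw [norm_pow]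
  calc ‖x‖ ^ (ℓ ^ s) ≤ c ^ (ℓ ^ s) := pow_le_pow_left₀ (norm_nonneg _) hx _
    _ ≤ c ^ s := pow_le_pow_of_le_one hc0 hc.le (Nat.lt_pow_self hℓ.one_lt).le
    _ ≤ c ^ s₀ := pow_le_pow_of_le_one hc0 hc.le hs
    _ ≤ η := hs₀.le

/-- In an ultrametric field the norm takes only finitely many values `≥ r > 0` on a compact set.
Proof: `S ∩ {r ≤ ‖x‖}` is compact; around each of its points `x` the open ball of radius `‖x‖ > 0`
consists of elements of norm `‖x‖` (`IsUltrametricDist.norm_eq_of_norm_sub_lt_left/right` or so);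
finitely many of these balls cover. -/
theorem finite_radii {K : Type} [NormedField K] [IsUltrametricDist K] {S : Set K}
    (hS : IsCompact S) {r : ℝ} (hr : 0 < r) : {ρ : ℝ | r ≤ ρ ∧ ∃ x ∈ S, ‖x‖ = ρ}.Finite := by
  have hclosed : IsClosed {x : K | r ≤ ‖x‖} := isClosed_le continuous_const continuous_norm
  have hT : IsCompact (S ∩ {x : K | r ≤ ‖x‖}) := hS.inter_right hclosed
  obtain ⟨t, _, ht⟩ := hT.elim_nhds_subcover (fun x => Metric.ball x ‖x‖) (by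
    intro x hx
    apply Metric.ball_mem_nhds
    exact hr.trans_le hx.2)
  apply Set.Finite.subset (t.finite_toSet.image (fun x => ‖x‖))
  rintro ρ ⟨hρ, x, hxS, rfl⟩
  have hx : x ∈ ⋃ y ∈ t, Metric.ball y ‖y‖ := ht ⟨hxS, hρ⟩
  simp only [Set.mem_iUnion] at hx
  obtain ⟨y, hyt, hy⟩ := hx
  refine ⟨y, hyt, ?_⟩
  rw [Metric.mem_ball, dist_eq_norm] at hy
  have h1 : ‖x‖ = ‖y‖ := by
    have e : x = (x - y) + y := by ring
    rw [e]
    rw [IsUltrametricDist.norm_add_eq_max_of_norm_ne_norm hy.ne]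
    exact max_eq_right hy.le
  exact h1.symm

end Pool.Agent.Lib.MP_666dc0_nt.WL
end

section

end

section

open MvPolynomial

namespace Pool.Agent.Lib.MP_666dc0_nt.IG

variable {A B : Type} [CommRing A] [CommRing B] {n : ℕ} {s : Shape}

/-- Naturality of `act`. -/
theorem map_act (f : A →+* B) (k k' : Matrix (Fin n) (Fin n) A) (t : s.Ix n → A) (x : s.Ix n) :
    f (act k k' t x) = act (k.map f) (k'.map f) (fun y => f (t y)) x := by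
  simp only [act, map_sum, map_mul, map_prod, Matrix.map_apply]

theorem act_add (k k' : Matrix (Fin n) (Fin n) A) (t u : s.Ix n → A) :
    act k k' (t + u) = act k k' t + act k k' u := by
  funext x
  obtain ⟨b, c, I, J⟩ := x
  change ∑ L : Fin (s.p b) → Fin n, ∑ M : Fin (s.q b) → Fin n,
      (∏ i, k (I i) (L i)) * (∏ j, k' (M j) (J j)) * (t ⟨b, c, L, M⟩ + u ⟨b, c, L, M⟩) =
    (∑ L : Fin (s.p b) → Fin n, ∑ M : Fin (s.q b) → Fin n,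
      (∏ i, k (I i) (L i)) * (∏ j, k' (M j) (J j)) * t ⟨b, c, L, M⟩) +
    ∑ L : Fin (s.p b) → Fin n, ∑ M : Fin (s.q b) → Fin n,
      (∏ i, k (I i) (L i)) * (∏ j, k' (M j) (J j)) * u ⟨b, c, L, M⟩
  simp only [mul_add, Finset.sum_add_distrib]

theorem act_smul (k k' : Matrix (Fin n) (Fin n) A) (a : A) (t : s.Ix n → A) :
    act k k' (a • t) = a • act k k' t := by
  funext x
  obtain ⟨b, c, I, J⟩ := x
  change ∑ L : Fin (s.p b) → Fin n, ∑ M : Fin (s.q b) → Fin n,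
      (∏ i, k (I i) (L i)) * (∏ j, k' (M j) (J j)) * (a * t ⟨b, c, L, M⟩) =
    a * ∑ L : Fin (s.p b) → Fin n, ∑ M : Fin (s.q b) → Fin n,
      (∏ i, k (I i) (L i)) * (∏ j, k' (M j) (J j)) * t ⟨b, c, L, M⟩
  simp only [Finset.mul_sum]
  exact Finset.sum_congr rfl fun L _ => Finset.sum_congr rfl fun M _ => by ring

theorem act_zero (k k' : Matrix (Fin n) (Fin n) A) : act k k' (0 : s.Ix n → A) = 0 := by
  funext x
  obtain ⟨b, c, I, J⟩ := x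
  change ∑ L : Fin (s.p b) → Fin n, ∑ M : Fin (s.q b) → Fin n,
      (∏ i, k (I i) (L i)) * (∏ j, k' (M j) (J j)) * (0 : A) = 0
  simp only [mul_zero, Finset.sum_const_zero]

/-- Mixing tensors of the same type commutes with the action. -/
theorem act_mix [∀ b, Fintype (s.C b)] (k k' : Matrix (Fin n) (Fin n) A)
    (D : (b : s.β) → s.C b → s.C b → A) (t : s.Ix n → A) :
    act k k' (mix D t) = mix D (act k k' t) := by
  funext x
  obtain ⟨b, c, I, J⟩ := x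
  simp only [act, mix]
  simp only [Finset.mul_sum]
  calc ∑ L : Fin (s.p b) → Fin n, ∑ M : Fin (s.q b) → Fin n, ∑ c', _
      = ∑ L : Fin (s.p b) → Fin n, ∑ c', ∑ M : Fin (s.q b) → Fin n, _ :=
        Finset.sum_congr rfl fun L _ => Finset.sum_comm
    _ = ∑ c', ∑ L : Fin (s.p b) → Fin n, ∑ M : Fin (s.q b) → Fin n, _ := Finset.sum_comm
    _ = _ := by
      refine Finset.sum_congr rfl fun c' _ => Finset.sum_congr rfl fun L _ =>
        Finset.sum_congr rfl fun M _ => ?_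
      ring

end Pool.Agent.Lib.MP_666dc0_nt.IG
end
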