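import Pool.Agent.Lib.MP_666dc0_nt.IG.Defs
import Pool.Agent.Lib.MP_666dc0_nt.IG.Defs2
import Pool.Agent.Lib.MP_666dc0_nt.Mg.G013

section

open MvPolynomial

namespace Pool.Agent.Lib.MP_666dc0_nt.IG

variable {A B : Type} [CommRing A] [CommRing B] [Algebra ℚ A] [Algebra ℚ B] {n : ℕ}

/-- `IA` on monomials: `Basis.constr` on a basis vector, `monomial m a = a • monomial m 1`. -/
theorem IA_monomial (I : MvPolynomial (PV n) ℚ →ₗ[ℚ] ℚ) (m : PV n →₀ ℕ) (a : A) :
    IA I A (monomial m a) = a * algebraMap ℚ A (I (monomial m 1)) := by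
  have h : (monomial m a : MvPolynomial (PV n) A) = a • (MvPolynomial.basisMonomials (PV n) A) m := by
    rw [MvPolynomial.coe_basisMonomials, smul_monomial, smul_eq_mul, mul_one]
  rw [h, map_smul]
  unfold IA
  rw [Module.Basis.constr_basis, smul_eq_mul]

/-- Naturality in the ring of coefficients; both sides are additive in `p`, check on monomials
(`IA_monomial`; `f (algebraMap ℚ A q) = algebraMap ℚ B q` for every ring homomorphism: `map_ratCast`-like,
`RingHom.ext_rat` / `Subsingleton` of ring homomorphisms from `ℚ`). -/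
theorem map_IA (I : MvPolynomial (PV n) ℚ →ₗ[ℚ] ℚ) (f : A →+* B) (p : MvPolynomial (PV n) A) :
    f (IA I A p) = IA I B (MvPolynomial.map f p) := by
  induction p using MvPolynomial.induction_on' with
  | monomial m a =>
    rw [IA_monomial, map_monomial, IA_monomial, map_mul, RingHom.map_rat_algebraMap]
  | add p q hp hq => rw [map_add, map_add, hp, hq, map_add, map_add]

private theorem R1a_rat (I : MvPolynomial (PV n) ℚ →ₗ[ℚ] ℚ) (p : MvPolynomial (PV n) ℚ) :
    IA I ℚ p = I p := by
  induction p using MvPolynomial.induction_on' with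
  | monomial m a =>
    rw [IA_monomial]
    show a * I (monomial m 1) = I (monomial m a)
    have h : (monomial m a : MvPolynomial (PV n) ℚ) = a • monomial m 1 := by
      rw [smul_monomial, smul_eq_mul, mul_one]
    rw [h, map_smul, smul_eq_mul]
  | add p q hp hq => rw [map_add, map_add, hp, hq]

/-- `IA` extends `I`. -/
theorem IA_map_algebraMap (I : MvPolynomial (PV n) ℚ →ₗ[ℚ] ℚ) (p : MvPolynomial (PV n) ℚ) :
    IA I A (MvPolynomial.map (algebraMap ℚ A) p) = algebraMap ℚ A (I p) := by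
  rw [← map_IA, R1a_rat]

theorem IA_one (G : Red n) : IA G.I A 1 = 1 := by
  have h := IA_map_algebraMap (A := A) G.I 1
  have h1 : MvPolynomial.map (algebraMap ℚ A) (1 : MvPolynomial (PV n) ℚ) = 1 := map_one _
  rw [h1, G.I_one] at h
  rw [h]
  exact map_one _

theorem IA_C (G : Red n) (a : A) : IA G.I A (C a) = a := by
  have h : (C a : MvPolynomial (PV n) A) = a • 1 := by
    rw [smul_eq_C_mul, mul_one]
  rw [h, map_smul, IA_one, smul_eq_mul, mul_one]

end Pool.Agent.Lib.MP_666dc0_nt.IG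
end

section

open MvPolynomial

namespace Pool.Agent.Lib.MP_666dc0_nt.IG

variable {n : ℕ} {s : Shape} {A : Type} [CommRing A] [Algebra ℚ A]

theorem E1b_prod_entry {R : Type} [CommRing R] {p : ℕ} (h k : Matrix (Fin n) (Fin n) R)
    (I J : Fin p → Fin n) :
    ∏ i, (h * k) (I i) (J i) = ∑ L : Fin p → Fin n, (∏ i, h (I i) (L i)) * ∏ i, k (L i) (J i) := by
  simp only [Matrix.mul_apply, ← Finset.prod_mul_distrib]
  rw [Finset.prod_univ_sum, Fintype.piFinset_univ]

/-- The functional `IA` on the products which occur. -/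
theorem E1b_IA (G : Red n) {p q : ℕ} (j : Fin p → Fin n) (i : Fin q → Fin n) (L : Fin p → Fin n)
    (M : Fin q → Fin n) (a : A) :
    IA G.I A (C a * ((∏ b, gX' n A (L b) (j b)) * ∏ b, gX n A (i b) (M b))) =
      a * algebraMap ℚ A (avT G j i L M) := by
  have h1 : (∏ b, gX' n A (L b) (j b)) * ∏ b, gX n A (i b) (M b) =
      MvPolynomial.map (algebraMap ℚ A)
        ((∏ b, gX' n ℚ (L b) (j b)) * ∏ b, gX n ℚ (i b) (M b)) := by
    rw [map_mul, map_prod, map_prod]
    congr 1
    · refine Finset.prod_congr rfl fun b _ => ?_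
      simp only [gX', Matrix.of_apply, map_X]
    · refine Finset.prod_congr rfl fun b _ => ?_
      simp only [gX, Matrix.of_apply, map_X]
  rw [h1, ← MvPolynomial.smul_eq_C_mul, map_smul, IA_map_algebraMap, smul_eq_mul]
  rfl

/-- The tensor `avT G j i` is invariant under `G`: the left hand side is
`IA (φ (X h') (h X'))` for `φ = ∏ X'(L a, j a) ∏ X(i b, M b)` (expand the products of sums), and
`G.right_inv` for the pair `(h', h)` (`G.in_symm`). -/
theorem avT_inv (G : Red n) {p q : ℕ} (j : Fin p → Fin n) (i : Fin q → Fin n)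
    (h h' : Matrix (Fin n) (Fin n) A) (hh : G.In A h h') (L : Fin p → Fin n) (M : Fin q → Fin n) :
    ∑ L' : Fin p → Fin n, ∑ M' : Fin q → Fin n,
      (∏ a, h (L a) (L' a)) * (∏ b, h' (M' b) (M b)) * algebraMap ℚ A (avT G j i L' M') =
      algebraMap ℚ A (avT G j i L M) := by
  have h1 := G.right_inv A h' h (G.in_symm A h h' hh)
    ((∏ a, gX' n ℚ (L a) (j a)) * ∏ b, gX n ℚ (i b) (M b))
  have h2 : aeval (evp (gX n A * mC h') (mC h * gX' n A))
      ((∏ a, gX' n ℚ (L a) (j a)) * ∏ b, gX n ℚ (i b) (M b)) =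
      ∑ L' : Fin p → Fin n, ∑ M' : Fin q → Fin n,
        C ((∏ a, h (L a) (L' a)) * (∏ b, h' (M' b) (M b))) *
          ((∏ b, gX' n A (L' b) (j b)) * ∏ b, gX n A (i b) (M' b)) := by
    rw [map_mul, map_prod, map_prod]
    have h3 : ∀ a, aeval (evp (gX n A * mC h') (mC h * gX' n A)) (gX' n ℚ (L a) (j a)) =
        (mC h * gX' n A : Matrix (Fin n) (Fin n) (MvPolynomial (PV n) A)) (L a) (j a) := by
      intro a
      have h5 : (gX' n ℚ) (L a) (j a) = X (Sum.inr (L a, j a)) := rfl
      rw [h5, aeval_X]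
      rfl
    have h4 : ∀ b, aeval (evp (gX n A * mC h') (mC h * gX' n A)) (gX n ℚ (i b) (M b)) =
        (gX n A * mC h' : Matrix (Fin n) (Fin n) (MvPolynomial (PV n) A)) (i b) (M b) := by
      intro b
      have h5 : (gX n ℚ) (i b) (M b) = X (Sum.inl (i b, M b)) := rfl
      rw [h5, aeval_X]
      rfl
    simp only [h3, h4]
    rw [E1b_prod_entry, E1b_prod_entry, Finset.sum_mul_sum]
    refine Finset.sum_congr rfl fun L' _ => Finset.sum_congr rfl fun M' _ => ?_
    rw [map_mul, map_prod, map_prod]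
    simp only [mC, Matrix.map_apply]
    ring
  rw [h2, map_sum] at h1
  refine Eq.trans ?_ h1
  refine Finset.sum_congr rfl fun L' _ => ?_
  rw [map_sum]
  refine Finset.sum_congr rfl fun M' _ => ?_
  rw [E1b_IA]

end Pool.Agent.Lib.MP_666dc0_nt.IG
end

section

open MvPolynomial

namespace Pool.Agent.Lib.MP_666dc0_nt.IG

variable {n : ℕ} {s : Shape} {A : Type} [CommRing A] [Algebra ℚ A]

private theorem E1a_sum_one {B : Type} [AddCommMonoid B] (f : (Fin 1 → Fin n) → B) :
    ∑ L, f L = ∑ a, f (fun _ => a) :=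
  Fintype.sum_equiv (Equiv.funUnique (Fin 1) (Fin n)) _ _ fun L =>
    congrArg f (funext fun i => by rw [Subsingleton.elim i 0]; rfl)

private theorem E1a_sum_zero {B : Type} [AddCommMonoid B] (f : (Fin 0 → Fin n) → B)
    (L : Fin 0 → Fin n) : ∑ L, f L = f L :=
  (Fintype.sum_subsingleton f L)

private theorem E1a_true (k k' X' : Matrix (Fin n) (Fin n) A) (c : Fin n) (I : Fin 1 → Fin n)
    (J : Fin 0 → Fin n) : ∑ L : Fin 1 → Fin n, ∑ M : Fin 0 → Fin n, (∏ i, k (I i) (L i)) *
      (∏ j, k' (M j) (J j)) * X' (L 0) c = (k * X') (I 0) c := by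
  rw [E1a_sum_one, Matrix.mul_apply]
  refine Finset.sum_congr rfl fun a _ => ?_
  rw [E1a_sum_zero _ J, Fin.prod_univ_one, Fin.prod_univ_zero, mul_one]

private theorem E1a_false (k k' Y : Matrix (Fin n) (Fin n) A) (c : Fin n) (I : Fin 0 → Fin n)
    (J : Fin 1 → Fin n) : ∑ L : Fin 0 → Fin n, ∑ M : Fin 1 → Fin n, (∏ i, k (I i) (L i)) *
      (∏ j, k' (M j) (J j)) * Y c (M 0) = (Y * k') c (J 0) := by
  rw [E1a_sum_zero _ I, E1a_sum_one, Matrix.mul_apply]
  refine Finset.sum_congr rfl fun a _ => ?_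
  rw [Fin.prod_univ_one, Fin.prod_univ_zero, one_mul, mul_comm]

private theorem E1a_eq_one (I : Fin 1 → Fin n) : I = fun _ => I 0 :=
  funext fun i => by rw [Subsingleton.elim i 0]

private theorem E1a_eq_zero (J : Fin 0 → Fin n) : J = Fin.elim0 := funext fun j => Fin.elim0 j

theorem act_toPair (k k' X X' : Matrix (Fin n) (Fin n) A) :
    act k k' (toPair X X') = toPair (X * k') (k * X') := by
  funext x
  obtain ⟨b, c, I, J⟩ := x
  match b, c, I, J with
  | true, c, I, J => exact E1a_true k k' X' c I J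
  | false, c, I, J => exact E1a_false k k' X c I J

theorem exists_toPair (t : (pairS n).Ix n → A) :
    ∃ X X' : Matrix (Fin n) (Fin n) A, t = toPair X X' := by
  refine ⟨Matrix.of fun c b => t ⟨false, c, (Fin.elim0 : Fin 0 → Fin n), fun _ => b⟩,
    Matrix.of fun a c => t ⟨true, c, fun _ => a, (Fin.elim0 : Fin 0 → Fin n)⟩, ?_⟩
  funext x
  obtain ⟨b, c, I, J⟩ := x
  match b, c, I, J with
  | true, c, I, J =>
    exact congrArg₂ (fun (I : Fin 1 → Fin n) (J : Fin 0 → Fin n) => t ⟨true, c, I, J⟩)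
      (E1a_eq_one I) (E1a_eq_zero J)
  | false, c, I, J =>
    exact congrArg₂ (fun (I : Fin 0 → Fin n) (J : Fin 1 → Fin n) => t ⟨false, c, I, J⟩)
      (E1a_eq_zero I) (E1a_eq_one J)

/-- Polynomials in the entries of `(X, X')` in the two notations. -/
theorem exists_of_pair (q : MvPolynomial ((pairS n).Ix n) ℚ) : ∃ q' : MvPolynomial (PV n) ℚ,
    ∀ (B : Type) [CommRing B] [Algebra ℚ B] (X X' : Matrix (Fin n) (Fin n) B),
      aeval (evp X X') q' = aeval (toPair X X') q := by
  refine ⟨aeval (toPair (gX n ℚ) (gX' n ℚ)) q, ?_⟩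
  intro B _ _ X X'
  rw [← AlgHom.comp_apply, comp_aeval]
  congr 2
  funext x
  obtain ⟨b, c, I, J⟩ := x
  match b, c, I, J with
  | true, c, I, J => exact aeval_X (evp X X') (Sum.inr (I (0 : Fin 1), c))
  | false, c, I, J => exact aeval_X (evp X X') (Sum.inl (c, J (0 : Fin 1)))

theorem exists_to_pair (q' : MvPolynomial (PV n) ℚ) : ∃ q : MvPolynomial ((pairS n).Ix n) ℚ,
    ∀ (B : Type) [CommRing B] [Algebra ℚ B] (X X' : Matrix (Fin n) (Fin n) B),
      aeval (toPair X X') q = aeval (evp X X') q' := by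
  refine ⟨aeval (evp (Matrix.of fun c b => (X ⟨false, c, (Fin.elim0 : Fin 0 → Fin n), fun _ => b⟩ :
      MvPolynomial ((pairS n).Ix n) ℚ))
    (Matrix.of fun a c => (X ⟨true, c, fun _ => a, (Fin.elim0 : Fin 0 → Fin n)⟩ :
      MvPolynomial ((pairS n).Ix n) ℚ))) q', ?_⟩
  intro B _ _ X X'
  rw [← AlgHom.comp_apply, comp_aeval]
  congr 2
  funext x
  match x with
  | Sum.inl (i, j) =>
    exact aeval_X (toPair X X') ⟨false, i, (Fin.elim0 : Fin 0 → Fin n), fun _ => j⟩
  | Sum.inr (i, j) =>
    exact aeval_X (toPair X X') ⟨true, j, fun _ => i, (Fin.elim0 : Fin 0 → Fin n)⟩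

end Pool.Agent.Lib.MP_666dc0_nt.IG
end

section

open MvPolynomial

namespace Pool.Agent.Lib.MP_666dc0_nt.IG

variable {A B : Type} [CommRing A] [CommRing B] [Algebra ℚ A] [Algebra ℚ B] {n : ℕ} {s : Shape}

private theorem R2a_map {R S R' : Type} [CommRing R] [CommRing S] [CommRing R'] [Algebra R S]
    [Algebra R R'] (f : S →+* R') (hf : f.comp (algebraMap R S) = algebraMap R R')
    (u : s.Ix n → S) (v : s.Ix n → R') (hv : ∀ x, f (u x) = v x) (p : MvPolynomial (s.Ix n) R) :
    MvPolynomial.map f (aeval (act (gX n S) (gX' n S) (fun x => C (u x))) p) =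
      aeval (act (gX n R') (gX' n R') (fun x => C (v x))) p := by
  have hact : ∀ x : s.Ix n, MvPolynomial.map f (act (gX n S) (gX' n S) (fun x => C (u x)) x) =
      act (gX n R') (gX' n R') (fun x => C (v x)) x := by
    intro x
    rw [map_act]
    have h1 : (gX n S).map (MvPolynomial.map f) = gX n R' := by
      ext i j
      simp [gX]
    have h2 : (gX' n S).map (MvPolynomial.map f) = gX' n R' := by
      ext i j
      simp [gX']
    rw [h1, h2]
    simp only [map_C, hv]
  induction p using MvPolynomial.induction_on with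
  | C a =>
    rw [aeval_C, aeval_C, MvPolynomial.algebraMap_apply, MvPolynomial.algebraMap_apply, map_C, ← hf]
    rfl
  | add p q hp hq => rw [map_add, map_add, hp, hq, map_add]
  | mul_X p x hp => rw [map_mul, map_mul, hp, map_mul, aeval_X, aeval_X, hact]

/-- The value of the Reynolds operator at a point `t` (with values in an `A`-algebra `B`) is the average of
`p (k t)`. Apply `map_IA` to the ring homomorphism `aeval t : MvPolynomial (s.Ix n) A → B`; the image of
the polynomial inside `IA` is computed by `map_act`. -/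
theorem aeval_Rey [Algebra A B] (G : Red n) (p : MvPolynomial (s.Ix n) A) (t : s.Ix n → B) :
    aeval t (Rey G p) = IA G.I B (aeval (act (gX n B) (gX' n B) (fun x => C (t x))) p) := by
  unfold Rey
  have h := map_IA G.I ((aeval t : MvPolynomial (s.Ix n) A →ₐ[A] B) : MvPolynomial (s.Ix n) A →+* B)
    (aeval (act (gX n (MvPolynomial (s.Ix n) A)) (gX' n (MvPolynomial (s.Ix n) A))
      (fun x => C (X x))) p)
  refine h.trans (congrArg (IA G.I B) (R2a_map _ ?_ _ _ (fun x => aeval_X t x) p))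
  ext a
  exact (aeval t : MvPolynomial (s.Ix n) A →ₐ[A] B).commutes a

theorem Rey_add (G : Red n) (p q : MvPolynomial (s.Ix n) A) : Rey G (p + q) = Rey G p + Rey G q := by
  unfold Rey
  rw [map_add, map_add]

theorem Rey_C_mul (G : Red n) (a : A) (p : MvPolynomial (s.Ix n) A) :
    Rey G (C a * p) = C a * Rey G p := by
  unfold Rey
  rw [map_mul, aeval_C, MvPolynomial.algebraMap_apply, ← smul_eq_C_mul, map_smul, smul_eq_mul]
  rfl

theorem Rey_sum (G : Red n) {ι : Type} (u : Finset ι) (p : ι → MvPolynomial (s.Ix n) A) :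
    Rey G (∑ i ∈ u, p i) = ∑ i ∈ u, Rey G (p i) := by
  unfold Rey
  rw [map_sum, map_sum]

theorem Rey_one (G : Red n) : Rey G (1 : MvPolynomial (s.Ix n) A) = 1 := by
  unfold Rey
  have h : aeval (act (gX n (MvPolynomial (s.Ix n) A)) (gX' n (MvPolynomial (s.Ix n) A))
      (fun x => C (X x))) (1 : MvPolynomial (s.Ix n) A) = 1 := map_one _
  rw [h, IA_one]

theorem Rey_C (G : Red n) (a : A) : Rey G (C a : MvPolynomial (s.Ix n) A) = C a := by
  have h := Rey_C_mul (s := s) G a 1
  rwa [mul_one, Rey_one, mul_one] at h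

/-- Compatibility of the Reynolds operator with a change of coefficients. -/
theorem map_Rey (G : Red n) (f : A →+* B) (p : MvPolynomial (s.Ix n) A) :
    MvPolynomial.map f (Rey G p) = Rey G (MvPolynomial.map f p) := by
  unfold Rey
  rw [map_IA]
  congr 1
  have hact : ∀ x : s.Ix n, MvPolynomial.map (MvPolynomial.map f)
      (act (gX n (MvPolynomial (s.Ix n) A)) (gX' n (MvPolynomial (s.Ix n) A)) (fun x => C (X x)) x) =
      act (gX n (MvPolynomial (s.Ix n) B)) (gX' n (MvPolynomial (s.Ix n) B)) (fun x => C (X x)) x := by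
    intro x
    rw [map_act]
    have h1 : (gX n (MvPolynomial (s.Ix n) A)).map (MvPolynomial.map (MvPolynomial.map f)) =
        gX n (MvPolynomial (s.Ix n) B) := by
      ext1 i j
      simp [gX]
    have h2 : (gX' n (MvPolynomial (s.Ix n) A)).map (MvPolynomial.map (MvPolynomial.map f)) =
        gX' n (MvPolynomial (s.Ix n) B) := by
      ext1 i j
      simp [gX']
    rw [h1, h2]
    simp only [map_C, map_X]
  induction p using MvPolynomial.induction_on with
  | C a =>
    rw [aeval_C, map_C, aeval_C, MvPolynomial.algebraMap_apply, MvPolynomial.algebraMap_apply, map_C,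
      MvPolynomial.algebraMap_apply, MvPolynomial.algebraMap_apply, map_C]
    rfl
  | add p q hp hq => rw [map_add, map_add, hp, hq, map_add, map_add]
  | mul_X p x hp => rw [map_mul, map_mul, hp, map_mul, map_mul, aeval_X, map_X, aeval_X, hact]

end Pool.Agent.Lib.MP_666dc0_nt.IG
end

section

open MvPolynomial

namespace Pool.Agent.Lib.MP_666dc0_nt.IG

variable {n : ℕ} {s : Shape} {A : Type} [CommRing A] [Algebra ℚ A]

private theorem E1c_prod_entry {R : Type} [CommRing R] {p : ℕ} (h k : Matrix (Fin n) (Fin n) R)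
    (I J : Fin p → Fin n) :
    ∏ i, (h * k) (I i) (J i) = ∑ L : Fin p → Fin n, (∏ i, h (I i) (L i)) * ∏ i, k (L i) (J i) := by
  simp only [Matrix.mul_apply, ← Finset.prod_mul_distrib]
  rw [Finset.prod_univ_sum, Fintype.piFinset_univ]

private theorem E1c_IA (G : Red n) {p q : ℕ} (j : Fin p → Fin n) (i : Fin q → Fin n)
    (L : Fin p → Fin n) (M : Fin q → Fin n) (a : A) :
    IA G.I A (C a * ((∏ b, gX' n A (L b) (j b)) * ∏ b, gX n A (i b) (M b))) =
      a * algebraMap ℚ A (avT G j i L M) := by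
  have h1 : (∏ b, gX' n A (L b) (j b)) * ∏ b, gX n A (i b) (M b) =
      MvPolynomial.map (algebraMap ℚ A)
        ((∏ b, gX' n ℚ (L b) (j b)) * ∏ b, gX n ℚ (i b) (M b)) := by
    rw [map_mul, map_prod, map_prod]
    congr 1
    · refine Finset.prod_congr rfl fun b _ => ?_
      simp only [gX', Matrix.of_apply, map_X]
    · refine Finset.prod_congr rfl fun b _ => ?_
      simp only [gX, Matrix.of_apply, map_X]
  rw [h1, ← MvPolynomial.smul_eq_C_mul, map_smul, IA_map_algebraMap, smul_eq_mul]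
  rfl

private theorem E1c_toPair {B : Type} [CommRing B] (X X' : Matrix (Fin n) (Fin n) B) :
    (fun x => (C (toPair X X' x) : MvPolynomial (PV n) B)) =
      toPair (mC (τ := PV n) X) (mC (τ := PV n) X') := by
  funext x
  obtain ⟨b, c, I, J⟩ := x
  cases b <;> rfl

/-- The Reynolds operator on a monomial in the entries of `(X, X')`: for `i₁ j₁ : Fin p → Fin n`,
`i₂ j₂ : Fin q → Fin n`, the average of `∏ X(i₁ a, j₁ a) ∏ X'(i₂ b, j₂ b)` under `(X g', g X')` is
`∑_{L,M} ∏ X(i₁ a, L a) ∏ X'(M b, j₂ b) * avT j₁ i₂ L M`. -/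
theorem aeval_Rey_pair (G : Red n) {p q : ℕ} (i₁ j₁ : Fin p → Fin n) (i₂ j₂ : Fin q → Fin n)
    (X X' : Matrix (Fin n) (Fin n) A) (m : MvPolynomial ((pairS n).Ix n) ℚ)
    (hm : ∀ (B : Type) [CommRing B] [Algebra ℚ B] (Y Y' : Matrix (Fin n) (Fin n) B),
      aeval (toPair Y Y') m = (∏ a, Y (i₁ a) (j₁ a)) * ∏ b, Y' (i₂ b) (j₂ b)) :
    aeval (toPair X X') (Rey G m) = ∑ L : Fin p → Fin n, ∑ M : Fin q → Fin n,
      (∏ a, X (i₁ a) (L a)) * (∏ b, X' (M b) (j₂ b)) * algebraMap ℚ A (avT G j₁ i₂ L M) := by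
  rw [aeval_Rey, E1c_toPair, act_toPair, hm]
  have h2 : (∏ a, (mC X * gX' n A : Matrix (Fin n) (Fin n) (MvPolynomial (PV n) A))
      (i₁ a) (j₁ a)) * ∏ b, (gX n A * mC X' : Matrix (Fin n) (Fin n) (MvPolynomial (PV n) A))
        (i₂ b) (j₂ b) =
      ∑ L : Fin p → Fin n, ∑ M : Fin q → Fin n,
        C ((∏ a, X (i₁ a) (L a)) * (∏ b, X' (M b) (j₂ b))) *
          ((∏ b, gX' n A (L b) (j₁ b)) * ∏ b, gX n A (i₂ b) (M b)) := by
    rw [E1c_prod_entry, E1c_prod_entry, Finset.sum_mul_sum]
    refine Finset.sum_congr rfl fun L' _ => Finset.sum_congr rfl fun M' _ => ?_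
    rw [map_mul, map_prod, map_prod]
    simp only [mC, Matrix.map_apply]
    ring
  rw [h2, map_sum]
  refine Finset.sum_congr rfl fun L' _ => ?_
  rw [map_sum]
  refine Finset.sum_congr rfl fun M' _ => ?_
  rw [E1c_IA]

end Pool.Agent.Lib.MP_666dc0_nt.IG
end

section

open MvPolynomial

namespace Pool.Agent.Lib.MP_666dc0_nt.IG

variable {A B : Type} [CommRing A] [CommRing B] [Algebra ℚ A] [Algebra ℚ B] {n : ℕ}

/-- Right invariance for polynomials with coefficients in `A`: both sides are `A`-linear in `p`; for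
monomials with coefficient `1` this is `G.right_inv`. -/
theorem IA_right (G : Red n) (k k' : Matrix (Fin n) (Fin n) A) (hk : G.In A k k')
    (p : MvPolynomial (PV n) A) :
    IA G.I A (aeval (evp (gX n A * mC k) (mC k' * gX' n A)) p) = IA G.I A p := by
  induction p using MvPolynomial.induction_on' with
  | monomial m a =>
    have h : (monomial m a : MvPolynomial (PV n) A) =
        a • MvPolynomial.map (algebraMap ℚ A) (monomial m 1) := by
      rw [map_monomial, map_one, smul_monomial, smul_eq_mul, mul_one]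
    rw [h, map_smul, map_smul, map_smul, MvPolynomial.aeval_map_algebraMap, IA_map_algebraMap,
      G.right_inv A k k' hk]
  | add p q hp hq => rw [map_add, map_add, hp, hq, map_add]

end Pool.Agent.Lib.MP_666dc0_nt.IG
end
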