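import Mathlib
import Pool.Agent.Lib.MP_666dc0_nt.IG.Defs2
import Pool.Agent.Lib.MP_666dc0_nt.IG.Defs
import Pool.Agent.Lib.MP_666dc0_nt.Mg.G016

section

open MvPolynomial

namespace Pool.Agent.Lib.MP_666dc0_nt.IG

variable {n : ℕ} {s : Shape} {A : Type} [CommRing A] [Algebra ℚ A]

/-- A polynomial which is a product of entries. -/
private def E1d_P (m : MvPolynomial ((pairS n).Ix n) ℚ) : Prop :=
  ∃ (P Q : ℕ) (i₁ j₁ : Fin P → Fin n) (i₂ j₂ : Fin Q → Fin n),
    ∀ (B : Type) [CommRing B] [Algebra ℚ B] (Y Y' : Matrix (Fin n) (Fin n) B),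
      aeval (toPair Y Y') m = (∏ a, Y (i₁ a) (j₁ a)) * ∏ b, Y' (i₂ b) (j₂ b)

private theorem E1d_one : E1d_P (n := n) 1 := by
  refine ⟨0, 0, Fin.elim0, Fin.elim0, Fin.elim0, Fin.elim0, ?_⟩
  intro B _ _ Y Y'
  simp

private theorem E1d_mul {m : MvPolynomial ((pairS n).Ix n) ℚ} (hm : E1d_P m) (x : (pairS n).Ix n) :
    E1d_P (m * X x) := by
  obtain ⟨P, Q, i₁, j₁, i₂, j₂, h⟩ := hm
  obtain ⟨b, c, I, J⟩ := x
  cases b with
  | false =>
    refine ⟨P + 1, Q, Fin.cons c i₁, Fin.cons (J (0 : Fin 1)) j₁, i₂, j₂, ?_⟩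
    intro B _ _ Y Y'
    have hx : aeval (toPair Y Y') (X (⟨false, c, I, J⟩ : (pairS n).Ix n) :
        MvPolynomial ((pairS n).Ix n) ℚ) = Y c (J (0 : Fin 1)) := aeval_X (toPair Y Y') _
    rw [map_mul, h, Fin.prod_univ_succ]
    simp only [Fin.cons_zero, Fin.cons_succ]
    rw [mul_comm, mul_assoc]
    congr 1
  | true =>
    refine ⟨P, Q + 1, i₁, j₁, Fin.cons (I (0 : Fin 1)) i₂, Fin.cons c j₂, ?_⟩
    intro B _ _ Y Y'
    have hx : aeval (toPair Y Y') (X (⟨true, c, I, J⟩ : (pairS n).Ix n) :
        MvPolynomial ((pairS n).Ix n) ℚ) = Y' (I (0 : Fin 1)) c := aeval_X (toPair Y Y') _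
    rw [map_mul, h, Fin.prod_univ_succ (f := fun b : Fin (Q + 1) =>
      Y' ((Fin.cons (I (0 : Fin 1)) i₂ : Fin (Q + 1) → Fin n) b)
        ((Fin.cons c j₂ : Fin (Q + 1) → Fin n) b))]
    simp only [Fin.cons_zero, Fin.cons_succ]
    rw [mul_assoc, mul_comm (∏ b, Y' (i₂ b) (j₂ b))]
    congr 2

private theorem E1d_pow {m : MvPolynomial ((pairS n).Ix n) ℚ} (hm : E1d_P m)
    (x : (pairS n).Ix n) (k : ℕ) : E1d_P (m * X x ^ k) := by
  induction k with
  | zero => simpa using hm
  | succ k ih =>
    rw [pow_succ, ← mul_assoc]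
    exact E1d_mul ih x

private theorem E1d_monomial (e : (pairS n).Ix n →₀ ℕ) :
    E1d_P (monomial e (1 : ℚ)) := by
  induction e using Finsupp.induction with
  | zero => exact E1d_one
  | single_add a b f _ _ ih =>
    have h1 : monomial (Finsupp.single a b + f) (1 : ℚ) = monomial f 1 * X a ^ b := by
      rw [X_pow_eq_monomial, monomial_mul, one_mul, add_comm]
    rw [h1]
    exact E1d_pow ih a b

/-- Every polynomial is a combination of monomials of the form in `aeval_Rey_pair`: enumerate the factors. -/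
theorem pair_induction (q : MvPolynomial ((pairS n).Ix n) ℚ) :
    ∃ (κ : Type) (_ : Fintype κ) (c : κ → ℚ) (P Q : κ → ℕ) (i₁ j₁ : (k : κ) → Fin (P k) → Fin n)
      (i₂ j₂ : (k : κ) → Fin (Q k) → Fin n) (m : κ → MvPolynomial ((pairS n).Ix n) ℚ),
      (∀ (k : κ) (B : Type) [CommRing B] [Algebra ℚ B] (Y Y' : Matrix (Fin n) (Fin n) B),
        aeval (toPair Y Y') (m k) = (∏ a, Y (i₁ k a) (j₁ k a)) * ∏ b, Y' (i₂ k b) (j₂ k b)) ∧
      q = ∑ k, c k • m k := by
  have h0 : ∀ k : {e // e ∈ q.support}, E1d_P (monomial (k : (pairS n).Ix n →₀ ℕ) (1 : ℚ)) :=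
    fun k => E1d_monomial _
  choose P Q i₁ j₁ i₂ j₂ h using h0
  refine ⟨{e // e ∈ q.support}, inferInstance, fun k => coeff (k : (pairS n).Ix n →₀ ℕ) q, P, Q,
    i₁, j₁, i₂, j₂, fun k => monomial (k : (pairS n).Ix n →₀ ℕ) (1 : ℚ), h, ?_⟩
  conv_lhs => rw [← support_sum_monomial_coeff q]
  rw [← Finset.sum_coe_sort]
  refine Finset.sum_congr rfl fun k _ => ?_
  rw [smul_monomial, smul_eq_mul, mul_one]

end Pool.Agent.Lib.MP_666dc0_nt.IG
end

section

open MvPolynomial

namespace Pool.Agent.Lib.MP_666dc0_nt.IG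

variable {n : ℕ} {s : Shape}

/-- B1a.1. PROOF. `act` is a sum over indices `L, M` with the type `x.1` fixed; the factor
`c ^ w x.1` comes out of the sum (`Finset.mul_sum`, `ring`). -/
theorem act_scale (w : s.β → ℕ) {A : Type} [CommRing A] (k k' : Matrix (Fin n) (Fin n) A) (c : A)
    (t : s.Ix n → A) :
    act k k' (fun x => c ^ w x.1 * t x) = fun x => c ^ w x.1 * act k k' t x := by
  funext x
  simp only [act, Finset.mul_sum]
  refine Finset.sum_congr rfl fun L _ => Finset.sum_congr rfl fun M _ => ?_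
  ring

/-- B1a.2. PROOF. `φ` is a ring hom: `map_sum`, `map_mul`, `map_prod`. -/
theorem act_map {A B : Type} [CommRing A] [CommRing B] (φ : A →+* B)
    (k k' : Matrix (Fin n) (Fin n) A) (t : s.Ix n → A) :
    (fun x => φ (act k k' t x)) = act (k.map φ) (k'.map φ) (fun x => φ (t x)) := by
  funext x
  simp only [act, map_sum, map_mul, map_prod, Matrix.map_apply]

/-- B1a.3. Functoriality of the points. PROOF. `aeval (evp (k.map φ) (k'.map φ)) p =
φ (aeval (evp k k') p)` for `p` over `ℚ` (both sides are ring homs in `p` which agree on constants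
(`ℚ`-algebra structures: ring homs from `ℚ` are unique) and on variables). -/
theorem In_map (G : Red n) {A B : Type} [CommRing A] [CommRing B] [Algebra ℚ A] [Algebra ℚ B]
    (φ : A →+* B) (k k' : Matrix (Fin n) (Fin n) A) (h : G.In A k k') :
    G.In B (k.map φ) (k'.map φ) := by
  intro p hp
  have h1 := h p hp
  let ψ : A →ₐ[ℚ] B := φ.toRatAlgHom
  have h2 : evp (k.map φ) (k'.map φ) = fun i => ψ (evp k k' i) := by
    funext i
    cases i <;> rfl
  rw [h2, ← MvPolynomial.comp_aeval_apply, h1, map_zero]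

/-- B1a.4. PROOF. On a monomial `x^m` of weight `d`: `∏ (c^(w x) t x)^(m x) = c^(∑ m x w x) ∏ (t x)^(m x)`;
write `p` as the sum of its monomials (`MvPolynomial.aeval_def`, `eval₂_eq`), all of weight `d`
(`IsWeightedHomogeneous` unfolded). -/
theorem aeval_scale {σ : Type} (w : σ → ℕ) {A : Type} [CommRing A] [Algebra ℚ A] (c : A)
    (t : σ → A) (p : MvPolynomial σ ℚ) (d : ℕ) (hp : IsWeightedHomogeneous w p d) :
    aeval (fun x => c ^ w x * t x) p = c ^ d * aeval t p := by
  rw [aeval_def, aeval_def, eval₂_eq, eval₂_eq, Finset.mul_sum]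
  refine Finset.sum_congr rfl fun m hm => ?_
  have h1 : ∑ i ∈ m.support, w i * m i = d := by
    rw [← hp (mem_support_iff.1 hm), Finsupp.weight_apply, Finsupp.sum]
    refine Finset.sum_congr rfl fun i _ => ?_
    rw [smul_eq_mul, mul_comm]
  have h2 : ∏ i ∈ m.support, (c ^ w i * t i) ^ m i = c ^ d * ∏ i ∈ m.support, t i ^ m i := by
    rw [← h1, ← Finset.prod_pow_eq_pow_sum, ← Finset.prod_mul_distrib]
    refine Finset.prod_congr rfl fun i _ => ?_
    rw [mul_pow, pow_mul]
  rw [h2]
  ring

private theorem B1a_sum {σ : Type} (w : σ → ℕ) (p : MvPolynomial σ ℚ) :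
    ∑ e ∈ p.support.image (fun m => Finsupp.weight w m), weightedHomogeneousComponent w e p = p := by
  classical
  have h := sum_weightedHomogeneousComponent w p
  rw [finsum_eq_sum_of_support_subset (s := p.support.image (fun m => Finsupp.weight w m))] at h
  · exact h
  · intro e he
    by_contra hcon
    apply he
    refine weightedHomogeneousComponent_eq_zero' e p fun m hm h1 => hcon ?_
    rw [Finset.coe_image]
    exact ⟨m, hm, h1⟩

/-- expansion of a polynomial at a scaled point -/
theorem B1a_expand {σ : Type} (w : σ → ℕ) {A : Type} [CommRing A] [Algebra ℚ A] (c : A)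
    (t : σ → A) (p : MvPolynomial σ ℚ) :
    aeval (fun x => c ^ w x * t x) p =
      ∑ e ∈ p.support.image (fun m => Finsupp.weight w m),
        c ^ e * aeval t (weightedHomogeneousComponent w e p) := by
  conv_lhs => rw [← B1a_sum w p]
  rw [map_sum]
  refine Finset.sum_congr rfl fun e _ => ?_
  exact aeval_scale w c t _ e (weightedHomogeneousComponent_isWeightedHomogeneous e p)

/-- B1a.5. Homogeneous components of invariants are invariants (uses B1a.1 - B1a.4).

PROOF. Let `(k, k')` be an `A`-point, `t : s.Ix n → A`. Over `B = Polynomial A` take the point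
`(k.map C, k'.map C)` (`In_map`) and `tT x = X ^ w x.1 * C (t x)`. Invariance gives
`aeval (act (k.map C) (k'.map C) tT) p = aeval tT p`. By `act_scale`, `act_map` the left family is
`x ↦ X ^ w x.1 * C (act k k' t x)`. Write `p = ∑_{e ∈ D} p_e` (finite set `D` of weights, `p_e` the weighted
homogeneous components: `sum_weightedHomogeneousComponent` /
`weightedHomogeneousComponent_eq_zero'`); `aeval_scale` turns both sides into
`∑_{e ∈ D} X ^ e * C (aeval _ p_e)` (`aeval` commutes with `C`). Compare the coefficients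
of `X ^ d`. -/
theorem IsInv_comp (G : Red n) (w : s.β → ℕ) (p : MvPolynomial (s.Ix n) ℚ) (hp : IsInv G p) (d : ℕ) :
    IsInv G (weightedHomogeneousComponent (fun x : s.Ix n => w x.1) d p) := by
  classical
  intro A _ _ k k' hk t
  by_cases hd : d ∈ p.support.image (fun m => Finsupp.weight (fun x : s.Ix n => w x.1) m)
  swap
  · have h0 : weightedHomogeneousComponent (fun x : s.Ix n => w x.1) d p = 0 := by
      refine weightedHomogeneousComponent_eq_zero' d p fun m hm h1 => hd ?_
      exact Finset.mem_image.2 ⟨m, hm, h1⟩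
    rw [h0, map_zero, map_zero]
  have hk2 : G.In (Polynomial A) (k.map Polynomial.C) (k'.map Polynomial.C) :=
    In_map G (Polynomial.C : A →+* Polynomial A) k k' hk
  have key := hp (Polynomial A) _ _ hk2
    (fun x => (Polynomial.X : Polynomial A) ^ w x.1 * Polynomial.C (t x))
  rw [act_scale, ← act_map (Polynomial.C : A →+* Polynomial A) k k' t] at key
  have e1 := B1a_expand (fun x : s.Ix n => w x.1) (Polynomial.X : Polynomial A)
    (fun x => Polynomial.C (act k k' t x)) p
  have e2 := B1a_expand (fun x : s.Ix n => w x.1) (Polynomial.X : Polynomial A)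
    (fun x => Polynomial.C (t x)) p
  have e3 := (e1.symm.trans key).trans e2
  let ψ : A →ₐ[ℚ] Polynomial A := (Polynomial.C : A →+* Polynomial A).toRatAlgHom
  have hψ : ∀ (u : s.Ix n → A) (q : MvPolynomial (s.Ix n) ℚ),
      aeval (fun x => Polynomial.C (u x)) q = Polynomial.C (aeval u q) := by
    intro u q
    exact (MvPolynomial.comp_aeval_apply u ψ q).symm
  simp only [hψ] at e3
  have e4 := congrArg (fun f : Polynomial A => f.coeff d) e3
  simp only [Polynomial.finsetSum_coeff, Polynomial.coeff_X_pow_mul', Polynomial.coeff_C] at e4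
  have e5 : ∀ F : ℕ → A, ∑ e ∈ p.support.image
      (fun m => Finsupp.weight (fun x : s.Ix n => w x.1) m),
      (if e ≤ d then (if d - e = 0 then F e else 0) else 0) = F d := by
    intro F
    rw [Finset.sum_eq_single d]
    · simp
    · intro e _ hne
      by_cases h1 : e ≤ d
      · rw [if_pos h1, if_neg (by omega)]
      · rw [if_neg h1]
    · intro h
      exact absurd hd h
  rw [e5 (fun e => aeval (act k k' t) (weightedHomogeneousComponent (fun x : s.Ix n => w x.1) e p)),
    e5 (fun e => aeval t (weightedHomogeneousComponent (fun x : s.Ix n => w x.1) e p))] at e4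
  exact e4

/-- The algebra of invariants. -/
def InvA (G : Red n) (s : Shape) : Subalgebra ℚ (MvPolynomial (s.Ix n) ℚ) where
  carrier := {p | IsInv G p}
  mul_mem' := by
    intro p q hp hq A _ _ k k' hk t
    rw [map_mul, map_mul, hp A k k' hk t, hq A k k' hk t]
  add_mem' := by
    intro p q hp hq A _ _ k k' hk t
    rw [map_add, map_add, hp A k k' hk t, hq A k k' hk t]
  algebraMap_mem' := by
    intro r A _ _ k k' hk t
    simp

theorem mem_InvA {G : Red n} {p : MvPolynomial (s.Ix n) ℚ} : p ∈ InvA G s ↔ IsInv G p := Iff.rfl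

end Pool.Agent.Lib.MP_666dc0_nt.IG
end

section

open MvPolynomial

namespace Pool.Agent.Lib.MP_666dc0_nt.IG

variable {A B : Type} [CommRing A] [CommRing B] [Algebra ℚ A] [Algebra ℚ B] {n : ℕ}

/-- `IA` kills the ideal generated by the equations of the group: every element of the ideal
`G.J.map (MvPolynomial.map (algebraMap ℚ A))` is an `A`-linear combination of products
`monomial * (rational element of J)`, i.e. an `A`-linear combination of images of elements of `J`. -/
theorem IA_J (G : Red n) (p : MvPolynomial (PV n) A)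
    (hp : p ∈ G.J.map (MvPolynomial.map (algebraMap ℚ A))) : IA G.I A p = 0 := by
  have key : ∀ r : MvPolynomial (PV n) A, IA G.I A (r * p) = 0 := by
    unfold Ideal.map at hp
    induction hp using Submodule.span_induction with
    | mem x hx =>
      obtain ⟨j, hj, rfl⟩ := hx
      intro r
      induction r using MvPolynomial.induction_on' with
      | monomial m a =>
        have h : (monomial m a : MvPolynomial (PV n) A) * MvPolynomial.map (algebraMap ℚ A) j =
            a • MvPolynomial.map (algebraMap ℚ A) (monomial m 1 * j) := by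
          rw [map_mul, map_monomial, map_one, ← smul_mul_assoc, smul_monomial, smul_eq_mul, mul_one]
        show IA G.I A ((monomial m a : MvPolynomial (PV n) A) * MvPolynomial.map (algebraMap ℚ A) j) = 0
        rw [h, map_smul, IA_map_algebraMap, G.I_J _ (Ideal.mul_mem_left _ _ hj), map_zero, smul_zero]
      | add p q hp hq => rw [add_mul, map_add, hp, hq, add_zero]
    | zero => intro r; rw [mul_zero, map_zero]
    | add x y _ _ hx hy => intro r; rw [mul_add, map_add, hx, hy, add_zero]
    | smul a x _ hx => intro r; rw [smul_eq_mul, ← mul_assoc]; exact hx _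
  have := key 1
  rwa [one_mul] at this

/-- If a polynomial over `A` vanishes at all points of the group `G` with values in `A`-algebras then
it is killed by `IA`: apply the hypothesis to the universal point over `A' := MvPolynomial (PV n) A ⧸ J A`
(`Ideal.Quotient.mkₐ`; `InJ` holds since the image of `p ∈ G.J` is in the ideal) and use `IA_J`. -/
theorem IA_vanish (G : Red n) (p : MvPolynomial (PV n) A)
    (hp : ∀ (A' : Type) [CommRing A'] [Algebra ℚ A'] [Algebra A A']
      (k k' : Matrix (Fin n) (Fin n) A'), G.In A' k k' → aeval (evp k k') p = 0) :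
    IA G.I A p = 0 := by
  apply IA_J
  let JA : Ideal (MvPolynomial (PV n) A) := G.J.map (MvPolynomial.map (algebraMap ℚ A))
  let k : Matrix (Fin n) (Fin n) (MvPolynomial (PV n) A ⧸ JA) :=
    Matrix.of fun i j => Ideal.Quotient.mk JA (X (Sum.inl (i, j)))
  let k' : Matrix (Fin n) (Fin n) (MvPolynomial (PV n) A ⧸ JA) :=
    Matrix.of fun i j => Ideal.Quotient.mk JA (X (Sum.inr (i, j)))
  have he : ∀ x, evp k k' x = Ideal.Quotient.mk JA (X x) := by
    rintro (⟨i, j⟩ | ⟨i, j⟩)
    · rfl
    · rfl
  have hIn : G.In (MvPolynomial (PV n) A ⧸ JA) k k' := by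
    intro q hq
    have h1 : aeval (evp k k') q = Ideal.Quotient.mk JA (MvPolynomial.map (algebraMap ℚ A) q) := by
      clear hq
      induction q using MvPolynomial.induction_on with
      | C a =>
        rw [aeval_C, map_C]
        rfl
      | add p q hp hq => rw [map_add, map_add, map_add, hp, hq]
      | mul_X p x hp => rw [map_mul, map_mul, map_mul, hp, aeval_X, map_X, he]
    rw [h1]
    exact Ideal.Quotient.eq_zero_iff_mem.mpr (Ideal.mem_map_of_mem _ hq)
  have h2 := hp (MvPolynomial (PV n) A ⧸ JA) k k' hIn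
  have h3 : aeval (evp k k') p = Ideal.Quotient.mk JA p := by
    clear h2 hp
    induction p using MvPolynomial.induction_on with
    | C a =>
      rw [aeval_C]
      rfl
    | add p q hp hq => rw [map_add, map_add, hp, hq]
    | mul_X p x hp => rw [map_mul, map_mul, hp, aeval_X, he]
  rw [h3] at h2
  exact Ideal.Quotient.eq_zero_iff_mem.mp h2

end Pool.Agent.Lib.MP_666dc0_nt.IG
end

section

open MvPolynomial

namespace Pool.Agent.Lib.MP_666dc0_nt.IG

private theorem B2a_sum {σ : Type} (w : σ → ℕ) (p : MvPolynomial σ ℚ) :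
    ∑ e ∈ p.support.image (fun m => Finsupp.weight w m), weightedHomogeneousComponent w e p = p := by
  classical
  have h := sum_weightedHomogeneousComponent w p
  rw [finsum_eq_sum_of_support_subset (s := p.support.image (fun m => Finsupp.weight w m))] at h
  · exact h
  · intro e he
    by_contra hcon
    apply he
    refine weightedHomogeneousComponent_eq_zero' e p fun m hm h1 => hcon ?_
    rw [Finset.coe_image]
    exact ⟨m, hm, h1⟩

private theorem B2a_expand {σ : Type} (w : σ → ℕ) {A : Type} [CommRing A] [Algebra ℚ A] (c : A)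
    (t : σ → A) (p : MvPolynomial σ ℚ) :
    aeval (fun x => c ^ w x * t x) p =
      ∑ e ∈ p.support.image (fun m => Finsupp.weight w m),
        c ^ e * aeval t (weightedHomogeneousComponent w e p) := by
  conv_lhs => rw [← B2a_sum w p]
  rw [map_sum]
  refine Finset.sum_congr rfl fun e _ => ?_
  exact aeval_scale w c t _ e (weightedHomogeneousComponent_isWeightedHomogeneous e p)

/-- B2a.1. The ideal of a set stable under scaling is homogeneous.

PROOF. For `t ∈ Z` and all `c : K`: `0 = aeval (fun x => c ^ w x.1 * t x) p = ∑_{e ∈ D} c^e aeval t p_e`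
(`aeval_scale`, `p = ∑_{e ∈ D} p_e`); a polynomial over the infinite field `K` with all values zero
is zero (`Polynomial.funext` / `Polynomial.eq_zero_of_infinite_isRoot`), so `aeval t p_d = 0`. -/
theorem vanishing_comp {n : ℕ} {s : Shape} (w : s.β → ℕ) (K : Type) [Field K] [CharZero K]
    (Z : Set (s.Ix n → K)) (hw : ∀ t ∈ Z, ∀ c : K, (fun x => c ^ w x.1 * t x) ∈ Z)
    (p : MvPolynomial (s.Ix n) ℚ) (hp : p ∈ vanishingIdeal ℚ Z) (d : ℕ) :
    weightedHomogeneousComponent (fun x : s.Ix n => w x.1) d p ∈ vanishingIdeal ℚ Z := by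
  classical
  rw [mem_vanishingIdeal_iff] at hp ⊢
  intro t ht
  by_cases hd : d ∈ p.support.image (fun m => Finsupp.weight (fun x : s.Ix n => w x.1) m)
  swap
  · have h0 : weightedHomogeneousComponent (fun x : s.Ix n => w x.1) d p = 0 := by
      refine weightedHomogeneousComponent_eq_zero' d p fun m hm h1 => hd ?_
      exact Finset.mem_image.2 ⟨m, hm, h1⟩
    rw [h0, map_zero]
  let F : Polynomial K := ∑ e ∈ p.support.image
    (fun m => Finsupp.weight (fun x : s.Ix n => w x.1) m),
    Polynomial.C (aeval t (weightedHomogeneousComponent (fun x : s.Ix n => w x.1) e p)) *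
      Polynomial.X ^ e
  have hF : F = 0 := by
    apply Polynomial.funext
    intro c
    have h1 := hp _ (hw t ht c)
    rw [B2a_expand (fun x : s.Ix n => w x.1) c t p] at h1
    rw [Polynomial.eval_zero, ← h1, Polynomial.eval_finsetSum]
    refine Finset.sum_congr rfl fun e _ => ?_
    rw [Polynomial.eval_mul, Polynomial.eval_C, Polynomial.eval_pow, Polynomial.eval_X, mul_comm]
  have h2 := congrArg (fun f : Polynomial K => f.coeff d) hF
  simp only [F, Polynomial.finsetSum_coeff, Polynomial.coeff_C_mul_X_pow,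
    Polynomial.coeff_zero] at h2
  rw [Finset.sum_eq_single d] at h2
  · simpa using h2
  · intro e _ hne
    rw [if_neg (Ne.symm hne)]
  · intro h
    exact absurd hd h

/-- B2a.2. A uniform exponent.

PROOF. Let `JK ⊂ MvPolynomial (PV n) K` be the ideal generated by the image of `G.J` under
`MvPolynomial.map (algebraMap ℚ K)`. The ring is Noetherian, so `JK.radical ^ M ≤ JK` for some `M`
(`Ideal.exists_radical_pow_le_of_fg`). Let `q` vanish on `Z`, `t ∈ Z`,
`f = aeval (act (gX n K) (gX' n K) (fun x => C (t x))) q ∈ MvPolynomial (PV n) K` (as a `ℚ`-algebra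
element). A `K`-point `x` of `JK` is `evp k k'` with `G.In K k k'` (`k i j = x (inl (i,j))`, ...),
and `aeval x f = aeval (act k k' t) q = 0` as `act k k' t ∈ Z`. By the Nullstellensatz
(`vanishingIdeal_zeroLocus_eq_radical`, `IsAlgClosed K`) `f ∈ JK.radical`, so `f ^ M ∈ JK`. For an
`A`-point `(k, k')` and `φ : K →+* A` the ring hom `eval₂ φ (evp k k')` kills `JK` and sends `f` to
`aeval (act k k' (φ ∘ t)) q`. -/
theorem exists_pow_orbit {n : ℕ} (G : Red n) (s : Shape) [s.Small] (K : Type) [Field K]
    [IsAlgClosed K] [CharZero K] (Z : Set (s.Ix n → K))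
    (hG : ∀ t ∈ Z, ∀ k k' : Matrix (Fin n) (Fin n) K, G.In K k k' → act k k' t ∈ Z) :
    ∃ M : ℕ, ∀ q ∈ vanishingIdeal ℚ Z, ∀ t ∈ Z, ∀ (A : Type) [CommRing A] [Algebra ℚ A]
      (φ : K →+* A) (k k' : Matrix (Fin n) (Fin n) A), G.In A k k' →
      (aeval (act k k' (fun x => φ (t x))) q) ^ M = 0 := by
  classical
  let JK : Ideal (MvPolynomial (PV n) K) :=
    Ideal.span ((MvPolynomial.map (algebraMap ℚ K)) '' (G.J : Set (MvPolynomial (PV n) ℚ)))
  obtain ⟨M, hM⟩ := Ideal.exists_radical_pow_le_of_fg JK (IsNoetherian.noetherian _)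
  refine ⟨M, fun q hq t ht A _ _ φ k k' hk => ?_⟩
  let f : MvPolynomial (PV n) K :=
    aeval (act (gX n K) (gX' n K) (fun x => (C (t x) : MvPolynomial (PV n) K))) q
  -- evaluation of `f` at a point
  have hev : ∀ (B : Type) [CommRing B] [Algebra ℚ B] (ψ : K →+* B)
      (h h' : Matrix (Fin n) (Fin n) B),
      (eval₂Hom ψ (evp h h')) f = aeval (act h h' (fun x => ψ (t x))) q := by
    intro B _ _ ψ h h'
    let ρ : MvPolynomial (PV n) K →ₐ[ℚ] B := (eval₂Hom ψ (evp h h')).toRatAlgHom
    have e1 : (eval₂Hom ψ (evp h h')) f = ρ f := rfl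
    rw [e1]
    show ρ (aeval _ q) = _
    rw [MvPolynomial.comp_aeval_apply]
    congr 2
    have e2 := act_map (s := s) (ρ : MvPolynomial (PV n) K →+* B) (gX n K) (gX' n K)
      (fun x => (C (t x) : MvPolynomial (PV n) K))
    have e3 : (gX n K).map (ρ : MvPolynomial (PV n) K →+* B) = h := by
      ext i j
      show ρ (X (Sum.inl (i, j))) = h i j
      show (eval₂Hom ψ (evp h h')) (X (Sum.inl (i, j))) = h i j
      rw [eval₂Hom_X']
      rfl
    have e4 : (gX' n K).map (ρ : MvPolynomial (PV n) K →+* B) = h' := by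
      ext i j
      show (eval₂Hom ψ (evp h h')) (X (Sum.inr (i, j))) = h' i j
      rw [eval₂Hom_X']
      rfl
    have e5 : (fun x => (ρ : MvPolynomial (PV n) K →+* B) (C (t x))) = fun x => ψ (t x) := by
      funext x
      show (eval₂Hom ψ (evp h h')) (C (t x)) = ψ (t x)
      rw [eval₂Hom_C]
    rw [e3, e4, e5] at e2
    exact e2
  -- points of the scheme kill `JK`
  have hkill : ∀ (B : Type) [CommRing B] [Algebra ℚ B] (ψ : K →+* B)
      (h h' : Matrix (Fin n) (Fin n) B), G.In B h h' → ∀ g ∈ JK, (eval₂Hom ψ (evp h h')) g = 0 := by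
    intro B _ _ ψ h h' hh g hg
    have hle : JK ≤ RingHom.ker (eval₂Hom ψ (evp h h')) := by
      refine Ideal.span_le.2 ?_
      rintro _ ⟨r, hr, rfl⟩
      show (eval₂Hom ψ (evp h h')) (MvPolynomial.map (algebraMap ℚ K) r) = 0
      have h1 := hh r hr
      rw [coe_eval₂Hom, eval₂_map]
      rw [aeval_def] at h1
      have h2 : ψ.comp (algebraMap ℚ K) = algebraMap ℚ B := RingHom.ext_rat _ _
      rw [h2]
      exact h1
    exact hle hg
  have hrad : f ∈ JK.radical := by
    rw [← vanishingIdeal_zeroLocus_eq_radical (K := K) JK, mem_vanishingIdeal_iff]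
    intro x hx
    let h : Matrix (Fin n) (Fin n) K := Matrix.of fun i j => x (Sum.inl (i, j))
    let h' : Matrix (Fin n) (Fin n) K := Matrix.of fun i j => x (Sum.inr (i, j))
    have hxe : x = evp h h' := by
      funext i
      rcases i with ⟨i, j⟩ | ⟨i, j⟩ <;> rfl
    have hin : G.In K h h' := by
      intro r hr
      have h1 := hx (MvPolynomial.map (algebraMap ℚ K) r) (Ideal.subset_span ⟨r, hr, rfl⟩)
      rw [hxe, aeval_map_algebraMap] at h1
      exact h1
    have h2 := hev K (RingHom.id K) h h'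
    have h3 : aeval x f = (eval₂Hom (RingHom.id K) (evp h h')) f := by
      rw [hxe]; rfl
    rw [h3, h2]
    exact hq _ (hG t ht h h' hin)
  have hfM : f ^ M ∈ JK := hM (Ideal.pow_mem_pow hrad M)
  have h4 := hkill A φ k k' hk _ hfM
  rw [map_pow, hev A φ k k'] at h4
  exact h4

end Pool.Agent.Lib.MP_666dc0_nt.IG
end
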