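import Pool.Agent.Lib.MP_666dc0_nt.BRep
import Pool.Agent.Lib.MP_666dc0_nt.IG.Defs
import Pool.Agent.Lib.MP_666dc0_nt.IG.Defs2
import Pool.Agent.Lib.MP_666dc0_nt.Mg.G013

section

open TensorProduct Coalgebra Polynomial
open scoped TensorProduct Matrix

namespace Pool.Agent.Lib.MP_666dc0_nt.OverB

set_option linter.unusedSectionVars false

section

variable {B O : Type} [CommRing B] [CommRing O] [HopfAlgebra B O] {Γ : Type*} [Group Γ]
  {A : HopfAction B Γ O} {K : Type} [Field K] [Algebra B K] {n : ℕ} (ρ : MatRepL A n)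

omit [Algebra B K] in
lemma aeval_transpose (M : Matrix (Fin n) (Fin n) K) (p : K[X]) :
    aeval Mᵀ p = (aeval M p)ᵀ := by
  induction p using Polynomial.induction_on' with
  | add p q hp hq => rw [map_add, map_add, hp, hq, Matrix.transpose_add]
  | monomial k a =>
    rw [aeval_monomial, aeval_monomial, Algebra.algebraMap_eq_smul_one, smul_one_mul, smul_one_mul,
      Matrix.transpose_smul, Matrix.transpose_pow]

/-- Semisimple elements act semisimply in matrix representations. -/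
lemma exists_squarefree_of_isSemisimpleElt {x : A.LGroup K} (hx : A.IsSemisimpleElt x) :
    ∃ p : K[X], Squarefree p ∧ aeval (ρ.ev K x) p = 0 := by
  have h1 : LinearMap.range (ρ.emb K) ∈ Module.End.invtSubmodule (A.transl x.left x.right) := by
    rw [Module.End.mem_invtSubmodule]
    rintro _ ⟨v, rfl⟩
    rw [Submodule.mem_comap, ρ.transl_emb]
    exact ⟨_, rfl⟩
  have h1' : ∀ z ∈ LinearMap.range (ρ.emb K), A.transl x.left x.right z ∈
    LinearMap.range (ρ.emb K) := h1
  have h2 : Module.End.IsSemisimple (LinearMap.restrict (A.transl x.left x.right) h1') :=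
    Module.End.IsSemisimple.restrict h1 hx
  have h3 : Module.End.IsSemisimple (Matrix.toLin' (ρ.ev K x)ᵀ) := by
    rw [LinearEquiv.isSemisimple_iff (Matrix.toLin' (ρ.ev K x)ᵀ) (LinearMap.restrict _ h1')
      (LinearEquiv.ofInjective (ρ.emb K) ρ.emb_injective)]
    · exact h2
    · refine LinearMap.ext fun v => Subtype.ext ?_
      simp only [LinearMap.comp_apply, LinearEquiv.coe_coe, LinearEquiv.ofInjective_apply,
        LinearMap.coe_restrict_apply, Matrix.toLin'_apply]
      rw [ρ.transl_emb]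
  refine ⟨minpoly K (Matrix.toLin' (ρ.ev K x)ᵀ), h3.minpoly_squarefree, ?_⟩
  have h4 := minpoly.aeval K (Matrix.toLin' (ρ.ev K x)ᵀ)
  have h5 : aeval (ρ.ev K x)ᵀ (minpoly K (Matrix.toLin' (ρ.ev K x)ᵀ)) = 0 := by
    apply (Matrix.toLinAlgEquiv' (R := K) (n := Fin n)).injective
    rw [map_zero, ← AlgEquiv.coe_toAlgHom, ← Polynomial.aeval_algHom_apply]
    exact h4
  rw [aeval_transpose, Matrix.transpose_eq_zero] at h5
  exact h5

/-- Elements acting semisimply in all matrix representations are semisimple. -/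
lemma isSemisimpleElt_of_squarefree [IsDomain B] [IsPrincipalIdealRing B] [Module.Free B O]
    (hst : ∀ Φ : Set O, Φ.Finite → ∃ Φ' : Set O, Φ'.Finite ∧ Φ ⊆ Φ' ∧ ∀ γ, ∀ f ∈ Φ', A.act γ f ∈ Φ')
    {x : A.LGroup K}
    (h : ∀ (n : ℕ) (ρ : MatRepL A n), ∃ p : K[X], Squarefree p ∧ aeval (ρ.ev K x) p = 0) :
    A.IsSemisimpleElt x := by
  classical
  have h1 : ∀ f : O, ∃ (n : ℕ) (ρ : MatRepL A n), f ∈ Submodule.span B (Set.range ρ.e) := by
    intro f
    obtain ⟨Φ', hΦ'1, hΦ'2, hΦ'3⟩ := hst {f} (Set.finite_singleton f)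
    obtain ⟨n, ρ, -, hρ⟩ := exists_matRepL A hΦ'1 hΦ'3
    exact ⟨n, ρ, hρ f (hΦ'2 rfl)⟩
  choose n ρ hρ using h1
  have hinv : ∀ f, LinearMap.range ((ρ f).emb K) ∈
      Module.End.invtSubmodule (A.transl x.left x.right) := by
    intro f
    rw [Module.End.mem_invtSubmodule]
    rintro _ ⟨v, rfl⟩
    rw [Submodule.mem_comap, (ρ f).transl_emb]
    exact ⟨_, rfl⟩
  have hinv' : ∀ f, ∀ z ∈ LinearMap.range ((ρ f).emb K), A.transl x.left x.right z ∈
    LinearMap.range ((ρ f).emb K) := hinv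
  have hss : ∀ f, Module.End.IsSemisimple
      (LinearMap.restrict (A.transl x.left x.right) (hinv' f)) := by
    intro f
    obtain ⟨p, hp1, hp2⟩ := h (n f) (ρ f)
    have h3 : Module.End.IsSemisimple (Matrix.toLin' ((ρ f).ev K x)ᵀ) := by
      refine Module.End.isSemisimple_of_squarefree_aeval_eq_zero hp1 ?_
      have h5 : aeval ((ρ f).ev K x)ᵀ p = 0 := by rw [aeval_transpose, hp2, Matrix.transpose_zero]
      have h6 := congrArg (Matrix.toLinAlgEquiv' (R := K) (n := Fin (n f))) h5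
      rw [map_zero, ← AlgEquiv.coe_toAlgHom, ← Polynomial.aeval_algHom_apply] at h6
      exact h6
    rw [LinearEquiv.isSemisimple_iff (Matrix.toLin' ((ρ f).ev K x)ᵀ) (LinearMap.restrict _ (hinv' f))
      (LinearEquiv.ofInjective ((ρ f).emb K) (ρ f).emb_injective)] at h3
    · exact h3
    · refine LinearMap.ext fun v => Subtype.ext ?_
      simp only [LinearMap.comp_apply, LinearEquiv.coe_coe, LinearEquiv.ofInjective_apply,
        LinearMap.coe_restrict_apply, Matrix.toLin'_apply]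
      rw [(ρ f).transl_emb]
  change IsSemisimpleModule K[X] (Module.AEval' (A.transl x.left x.right))
  let p : O → Submodule K[X] (Module.AEval' (A.transl x.left x.right)) := fun f =>
    Module.AEval.mapSubmodule K (K ⊗[B] O) (A.transl x.left x.right) ⟨_, hinv f⟩
  have hp : ∀ f, IsSemisimpleModule K[X] (p f) := by
    intro f
    let e : Module.AEval' (LinearMap.restrict (A.transl x.left x.right) (hinv' f)) ≃ₗ[K[X]] p f :=
      Module.AEval.restrict_equiv_mapSubmodule (A.transl x.left x.right)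
      (LinearMap.range ((ρ f).emb K)) (hinv f)
    have h4 : IsSemisimpleModule K[X]
      (Module.AEval' (LinearMap.restrict (A.transl x.left x.right) (hinv' f))) := hss f
    exact IsSemisimpleModule.congr (N := p f)
      (M := Module.AEval' (LinearMap.restrict (A.transl x.left x.right) (hinv' f))) e.symm
  refine isSemisimpleModule_of_isSemisimpleModule_submodule' hp ?_
  rw [eq_top_iff]
  intro z _
  obtain ⟨z, rfl⟩ := (Module.AEval'.of (A.transl x.left x.right)).surjective z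
  induction z using TensorProduct.induction_on with
  | zero => simp
  | add z w hz hw => rw [map_add]; exact add_mem (hz trivial) (hw trivial)
  | tmul c f =>
    refine Submodule.mem_iSup_of_mem f ?_
    rw [Module.AEval.mem_mapSubmodule_apply]
    change (Module.AEval'.of (A.transl x.left x.right)).symm _ ∈ LinearMap.range ((ρ f).emb K)
    rw [LinearEquiv.symm_apply_apply]
    have h5 := hρ f
    rw [Submodule.mem_span_range_iff_exists_fun] at h5
    obtain ⟨b, hb⟩ := h5
    refine ⟨fun j => c * algebraMap B K (b j), ?_⟩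
    have h6 : c ⊗ₜ[B] (∑ j, b j • (ρ f).e j) =
        ∑ j, (c * algebraMap B K (b j)) ⊗ₜ[B] (ρ f).e j := by
      rw [TensorProduct.tmul_sum]
      refine Finset.sum_congr rfl fun j _ => ?_
      rw [TensorProduct.tmul_smul, TensorProduct.smul_tmul', Algebra.smul_def, mul_comm]
    rw [MatRepL.emb_apply, ← h6, hb]

end

section Stable

variable {B O : Type} [CommRing B] [CommRing O] [HopfAlgebra B O] {Γ : Type*} [Group Γ]
  [TopologicalSpace Γ] [IsTopologicalGroup Γ] [CompactSpace Γ] {A : HopfAction B Γ O}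

lemma finite_range_act (hker : IsOpen (A.act.ker : Set Γ)) : (Set.range A.act).Finite := by
  have h1 : Finite (Γ ⧸ A.act.ker) := Subgroup.quotient_finite_of_isOpen _ hker
  have h2 : Finite A.act.range := Finite.of_equiv _ (QuotientGroup.quotientKerEquivRange A.act).toEquiv
  exact h2

lemma exists_stable (hker : IsOpen (A.act.ker : Set Γ)) {Φ : Set O} (hΦ : Φ.Finite) :
    ∃ Φ' : Set O, Φ'.Finite ∧ Φ ⊆ Φ' ∧ ∀ γ, ∀ f ∈ Φ', A.act γ f ∈ Φ' := by
  refine ⟨Set.image2 (fun (e : O ≃ₐ[B] O) f => e f) (Set.range A.act) Φ,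
    (finite_range_act hker).image2 _ hΦ, ?_, ?_⟩
  · intro f hf
    exact ⟨A.act 1, ⟨1, rfl⟩, f, hf, by change A.act 1 f = f; rw [map_one, AlgEquiv.one_apply]⟩
  · rintro γ _ ⟨_, ⟨δ, rfl⟩, f, hf, rfl⟩
    exact ⟨A.act (γ * δ), ⟨_, rfl⟩, f, hf, by
      change A.act (γ * δ) f = A.act γ (A.act δ f); rw [map_mul, AlgEquiv.mul_apply]⟩

end Stable

section CoRestrict

variable {B O : Type} [CommRing B] [CommRing O] [HopfAlgebra B O] {Γ : Type*} [Group Γ]
  (A : HopfAction B Γ O) {G : Type*} [Group G]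

lemma mapL_injective {R S : Type} [CommRing R] [Algebra B R] [CommRing S] [Algebra B S]
    {φ : R →ₐ[B] S} (hφ : Function.Injective φ) : Function.Injective (A.mapL φ) := by
  intro x y h
  have h1 := congrArg SemidirectProduct.left h
  have h2 := congrArg SemidirectProduct.right h
  ext f
  · rw [A.mapL_left, A.mapL_left] at h1
    have h3 := congrArg (fun g : Pts B O S => g.hom f) h1
    exact hφ h3
  · exact h2

lemma exists_corestrict {R S : Type} [CommRing R] [Algebra B R] [CommRing S] [Algebra B S]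
    (φ : R →ₐ[B] S) (hφ : Function.Injective φ) (r : G →* A.LGroup S)
    (h : ∀ γ f, (r γ).left.hom f ∈ φ.range) :
    ∃ r' : G →* A.LGroup R, ∀ γ, A.mapL φ (r' γ) = r γ := by
  classical
  have h1 : ∀ γ, ∃ x : A.LGroup R, A.mapL φ x = r γ := by
    intro γ
    let e : R ≃ₐ[B] φ.range := AlgEquiv.ofInjective φ hφ
    let g : O →ₐ[B] φ.range := (r γ).left.hom.codRestrict φ.range (h γ)
    refine ⟨⟨⟨e.symm.toAlgHom.comp g⟩, (r γ).right⟩, ?_⟩
    ext f
    · rw [A.mapL_left, Pts.map_hom_apply]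
      change φ (e.symm (g f)) = _
      have h2 : (e (e.symm (g f)) : S) = g f := by rw [e.apply_symm_apply]
      exact h2
    · rfl
  choose x hx using h1
  have hinj := mapL_injective A hφ
  refine ⟨{ toFun := x
            map_one' := hinj (by rw [hx, map_one, map_one])
            map_mul' := fun γ δ => hinj (by rw [hx, map_mul, map_mul, hx, hx]) }, hx⟩

end CoRestrict

end Pool.Agent.Lib.MP_666dc0_nt.OverB
end

section

open MvPolynomial

namespace Pool.Agent.Lib.MP_666dc0_nt.IG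

variable {A B : Type} [CommRing A] [CommRing B] {n : ℕ} {s : Shape}

private theorem T1a_sum_prod_mul {A : Type} [CommRing A] {n p : ℕ} (f g : Fin p → Fin n → A) :
    ∑ L : Fin p → Fin n, ∏ i, (f i (L i) * g i (L i)) = ∏ i, ∑ l, f i l * g i l := by
  rw [Finset.prod_univ_sum, Fintype.piFinset_univ]

private theorem T1a_prod_mul_entry {A : Type} [CommRing A] {n p : ℕ}
    (h k : Matrix (Fin n) (Fin n) A) (I J : Fin p → Fin n) :
    ∏ i, (h * k) (I i) (J i) = ∑ L : Fin p → Fin n, (∏ i, h (I i) (L i)) * ∏ i, k (L i) (J i) := by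
  simp only [Matrix.mul_apply, ← Finset.prod_mul_distrib]
  exact (T1a_sum_prod_mul (fun i l => h (I i) l) (fun i l => k l (J i))).symm

private theorem T1a_act_act (h h' k k' : Matrix (Fin n) (Fin n) A) (t : s.Ix n → A) :
    act h h' (act k k' t) = act (h * k) (k' * h') t := by
  funext x
  obtain ⟨b, c, I, J⟩ := x
  simp only [act]
  have h1 : ∀ (L' : Fin (s.p b) → Fin n) (M' : Fin (s.q b) → Fin n),
      (∏ i, (h * k) (I i) (L' i)) * (∏ j, (k' * h') (M' j) (J j)) * t ⟨b, c, L', M'⟩ =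
      ∑ L : Fin (s.p b) → Fin n, ∑ M : Fin (s.q b) → Fin n,
        ((∏ i, h (I i) (L i)) * (∏ i, k (L i) (L' i))) *
        ((∏ j, k' (M' j) (M j)) * (∏ j, h' (M j) (J j))) * t ⟨b, c, L', M'⟩ := by
    intro L' M'
    rw [T1a_prod_mul_entry, T1a_prod_mul_entry, Finset.sum_mul_sum, Finset.sum_mul]
    refine Finset.sum_congr rfl fun L _ => ?_
    rw [Finset.sum_mul]
  simp only [h1]
  have h2 : ∀ (L : Fin (s.p b) → Fin n) (M : Fin (s.q b) → Fin n),
      (∏ i, h (I i) (L i)) * (∏ j, h' (M j) (J j)) *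
        (∑ L' : Fin (s.p b) → Fin n, ∑ M' : Fin (s.q b) → Fin n,
          (∏ i, k (L i) (L' i)) * (∏ j, k' (M' j) (M j)) * t ⟨b, c, L', M'⟩) =
      ∑ L' : Fin (s.p b) → Fin n, ∑ M' : Fin (s.q b) → Fin n,
        ((∏ i, h (I i) (L i)) * (∏ i, k (L i) (L' i))) *
        ((∏ j, k' (M' j) (M j)) * (∏ j, h' (M j) (J j))) * t ⟨b, c, L', M'⟩ := by
    intro L M
    rw [Finset.mul_sum]
    refine Finset.sum_congr rfl fun L' _ => ?_
    rw [Finset.mul_sum]
    refine Finset.sum_congr rfl fun M' _ => ?_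
    ring
  refine (Finset.sum_congr rfl fun L _ => Finset.sum_congr rfl fun M _ => h2 L M).trans ?_
  calc ∑ L : Fin (s.p b) → Fin n, ∑ M : Fin (s.q b) → Fin n,
        ∑ L' : Fin (s.p b) → Fin n, ∑ M' : Fin (s.q b) → Fin n,
        ((∏ i, h (I i) (L i)) * (∏ i, k (L i) (L' i))) *
        ((∏ j, k' (M' j) (M j)) * (∏ j, h' (M j) (J j))) * t ⟨b, c, L', M'⟩
      = ∑ L : Fin (s.p b) → Fin n, ∑ L' : Fin (s.p b) → Fin n,
        ∑ M : Fin (s.q b) → Fin n, ∑ M' : Fin (s.q b) → Fin n,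
        ((∏ i, h (I i) (L i)) * (∏ i, k (L i) (L' i))) *
        ((∏ j, k' (M' j) (M j)) * (∏ j, h' (M j) (J j))) * t ⟨b, c, L', M'⟩ :=
        Finset.sum_congr rfl fun L _ => Finset.sum_comm
    _ = ∑ L' : Fin (s.p b) → Fin n, ∑ L : Fin (s.p b) → Fin n,
        ∑ M : Fin (s.q b) → Fin n, ∑ M' : Fin (s.q b) → Fin n,
        ((∏ i, h (I i) (L i)) * (∏ i, k (L i) (L' i))) *
        ((∏ j, k' (M' j) (M j)) * (∏ j, h' (M j) (J j))) * t ⟨b, c, L', M'⟩ := Finset.sum_comm
    _ = ∑ L' : Fin (s.p b) → Fin n, ∑ L : Fin (s.p b) → Fin n,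
        ∑ M' : Fin (s.q b) → Fin n, ∑ M : Fin (s.q b) → Fin n,
        ((∏ i, h (I i) (L i)) * (∏ i, k (L i) (L' i))) *
        ((∏ j, k' (M' j) (M j)) * (∏ j, h' (M j) (J j))) * t ⟨b, c, L', M'⟩ :=
        Finset.sum_congr rfl fun L' _ => Finset.sum_congr rfl fun L _ => Finset.sum_comm
    _ = ∑ L' : Fin (s.p b) → Fin n, ∑ M' : Fin (s.q b) → Fin n,
        ∑ L : Fin (s.p b) → Fin n, ∑ M : Fin (s.q b) → Fin n,
        ((∏ i, h (I i) (L i)) * (∏ i, k (L i) (L' i))) *
        ((∏ j, k' (M' j) (M j)) * (∏ j, h' (M j) (J j))) * t ⟨b, c, L', M'⟩ :=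
        Finset.sum_congr rfl fun L' _ => Finset.sum_comm

/-- The action of diagonal matrices. -/
private theorem T1a_act_diagonal (d d' : Fin n → A) (t : s.Ix n → A) (x : s.Ix n) :
    act (Matrix.diagonal d) (Matrix.diagonal d') t x =
      (∏ i, d (x.2.2.1 i)) * (∏ j, d' (x.2.2.2 j)) * t x := by
  obtain ⟨b, c, I, J⟩ := x
  simp only [act]
  rw [Finset.sum_eq_single I, Finset.sum_eq_single J]
  · simp
  · intro M _ hM
    obtain ⟨j, hj⟩ := Function.ne_iff.1 hM
    rw [Finset.prod_eq_zero (f := fun j => Matrix.diagonal d' (M j) (J j)) (Finset.mem_univ j)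
      (Matrix.diagonal_apply_ne _ hj), mul_zero, zero_mul]
  · simp
  · intro L _ hL
    obtain ⟨i, hi⟩ := Function.ne_iff.1 hL
    refine Finset.sum_eq_zero fun M _ => ?_
    rw [Finset.prod_eq_zero (f := fun i => Matrix.diagonal d (I i) (L i)) (Finset.mem_univ i)
      (Matrix.diagonal_apply_ne _ (Ne.symm hi)), zero_mul, zero_mul]
  · simp

/-- Unfold `act`; the product `∏ i, (1 : Matrix) (I i) (L i)` is `1` if `L = I` and `0` otherwise
(`Finset.prod_ite_zero`-like; `Matrix.one_apply`), so only `L = I`, `M = J` contributes. -/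
theorem act_one (t : s.Ix n → A) : act 1 1 t = t := by
  funext x
  rw [← Matrix.diagonal_one, T1a_act_diagonal]
  simp

/-- `act` is multiplicative: expand `∏ i, (k * h) (I i) (L i) = ∑ L', ∏ i, k (I i) (L' i) * h (L' i) (L i)`
(`Finset.prod_univ_sum` / `Fintype.piFinset`), similarly for `h' * k'`, and interchange sums. -/
theorem act_mul (k k' h h' : Matrix (Fin n) (Fin n) A) (t : s.Ix n → A) :
    act (k * h) (h' * k') t = act k k' (act h h' t) :=
  (T1a_act_act k k' h h' t).symm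

end Pool.Agent.Lib.MP_666dc0_nt.IG
end

section

open MvPolynomial

namespace Pool.Agent.Lib.MP_666dc0_nt.IG

variable {n : ℕ}

/-- the shape with one tensor for each element of a basis of `invT G p q`, `(p, q) ∈ Pi` -/
private noncomputable def E3a_sh (G : Red n) (Pi : Finset (ℕ × ℕ)) : Shape where
  β := {x : ℕ × ℕ // x ∈ Pi}
  p := fun b => b.1.1
  q := fun b => b.1.2
  C := fun b => Fin (Module.finrank ℚ (invT G b.1.1 b.1.2))

@[instance_reducible] private noncomputable def E3a_small (G : Red n) (Pi : Finset (ℕ × ℕ)) : (E3a_sh G Pi).Small where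
  fβ := inferInstanceAs (Fintype {x : ℕ × ℕ // x ∈ Pi})
  fC := fun b => inferInstanceAs (Fintype (Fin (Module.finrank ℚ (invT G b.1.1 b.1.2))))

private noncomputable def E3a_T (G : Red n) (Pi : Finset (ℕ × ℕ)) : (E3a_sh G Pi).Ix n → ℚ :=
  fun x => ((Module.finBasis ℚ (invT G x.1.1.1 x.1.1.2)) x.2.1).1 (x.2.2.1, x.2.2.2)

/-- a tensor of a given type as a family with one member -/
private def E3a_one (p q : ℕ) : Shape := ⟨Unit, fun _ => p, fun _ => q, fun _ => Unit⟩

private theorem E3a_fix (G : Red n) (Pi : Finset (ℕ × ℕ)) (A : Type) [CommRing A] [Algebra ℚ A]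
    (k k' : Matrix (Fin n) (Fin n) A) (hk : G.In A k k') :
    act k k' (inA A (E3a_T G Pi)) = inA A (E3a_T G Pi) := by
  funext x
  obtain ⟨b, e, I, J⟩ := x
  exact ((Module.finBasis ℚ (invT G b.1.1 b.1.2)) e).2 A k k' hk I J

/-- the action on tensors of one type -/
private def E3a_f (p q : ℕ) (P P' : Matrix (Fin n) (Fin n) ℚ) :
    ((Fin p → Fin n) × (Fin q → Fin n) → ℚ) →ₗ[ℚ] ((Fin p → Fin n) × (Fin q → Fin n) → ℚ) where
  toFun T := fun x => ∑ L : Fin p → Fin n, ∑ M : Fin q → Fin n,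
    (∏ i, P (x.1 i) (L i)) * (∏ j, P' (M j) (x.2 j)) * T (L, M)
  map_add' T U := by
    funext x
    simp only [Pi.add_apply, mul_add, Finset.sum_add_distrib]
  map_smul' c T := by
    funext x
    simp only [Pi.smul_apply, smul_eq_mul, RingHom.id_apply, Finset.mul_sum]
    refine Finset.sum_congr rfl fun L _ => Finset.sum_congr rfl fun M _ => ?_
    ring

private def E3a_fam (p q : ℕ) {A : Type} (T : (Fin p → Fin n) × (Fin q → Fin n) → A) :
    (E3a_one p q).Ix n → A := fun x => T (x.2.2.1, x.2.2.2)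

private theorem E3a_f_act (p q : ℕ) (P P' : Matrix (Fin n) (Fin n) ℚ)
    (T : (Fin p → Fin n) × (Fin q → Fin n) → ℚ) :
    E3a_fam p q (E3a_f p q P P' T) = act P P' (E3a_fam p q T) := rfl

private theorem E3a_fam_inj (p q : ℕ) {A : Type} {T U : (Fin p → Fin n) × (Fin q → Fin n) → A}
    (h : E3a_fam p q T = E3a_fam p q U) : T = U := by
  funext x
  exact congrFun h ⟨(), (), x.1, x.2⟩

private theorem E3a_f_comp (p q : ℕ) {P P' : Matrix (Fin n) (Fin n) ℚ} (h : P * P' = 1)
    (T : (Fin p → Fin n) × (Fin q → Fin n) → ℚ) :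
    E3a_f p q P P' (E3a_f p q P' P T) = T := by
  apply E3a_fam_inj
  rw [E3a_f_act, E3a_f_act, ← act_mul, h, act_one]

private theorem E3a_mem_iff (G : Red n) (p q : ℕ) (T : (Fin p → Fin n) × (Fin q → Fin n) → ℚ) :
    T ∈ invT G p q ↔ ∀ (A : Type) [CommRing A] [Algebra ℚ A] (h h' : Matrix (Fin n) (Fin n) A),
      G.In A h h' → act h h' (inA A (E3a_fam p q T)) = inA A (E3a_fam p q T) := by
  constructor
  · intro hT A _ _ h h' hh
    funext x
    exact hT A h h' hh x.2.2.1 x.2.2.2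
  · intro hT A _ _ h h' hh L M
    exact congrFun (hT A h h' hh) ⟨(), (), L, M⟩

private theorem E3a_inA_act {s : Shape} (A : Type) [CommRing A] [Algebra ℚ A]
    (P P' : Matrix (Fin n) (Fin n) ℚ) (T : s.Ix n → ℚ) :
    inA A (act P P' T) = act (P.map (algebraMap ℚ A)) (P'.map (algebraMap ℚ A)) (inA A T) := by
  funext x
  exact map_act (algebraMap ℚ A) P P' T x

private theorem E3a_map_one {A : Type} [CommRing A] [Algebra ℚ A]
    {P P' : Matrix (Fin n) (Fin n) ℚ} (h : P * P' = 1) :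
    P.map (algebraMap ℚ A) * P'.map (algebraMap ℚ A) = 1 := by
  rw [← Matrix.map_mul, h, Matrix.map_one _ (map_zero _) (map_one _)]

/-- `P⁻¹` preserves the invariant tensors if `P G P⁻¹ ⊆ G` -/
private theorem E3a_stable (G : Red n) (p q : ℕ) {P P' : Matrix (Fin n) (Fin n) ℚ}
    (h2 : P' * P = 1)
    (hN : ∀ (A : Type) [CommRing A] [Algebra ℚ A] (k k' : Matrix (Fin n) (Fin n) A), G.In A k k' →
      G.In A (P.map (algebraMap ℚ A) * k * P'.map (algebraMap ℚ A))
        (P.map (algebraMap ℚ A) * k' * P'.map (algebraMap ℚ A)))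
    {T : (Fin p → Fin n) × (Fin q → Fin n) → ℚ} (hT : T ∈ invT G p q) :
    E3a_f p q P' P T ∈ invT G p q := by
  rw [E3a_mem_iff] at hT ⊢
  intro A _ _ h h' hh
  have h3 := hT A _ _ (hN A h h' hh)
  have e1 : (P'.map (algebraMap ℚ A)) * (P.map (algebraMap ℚ A)) = 1 := E3a_map_one h2
  rw [E3a_f_act, E3a_inA_act, ← act_mul]
  conv_rhs => rw [← h3, ← act_mul]
  congr 1
  · rw [← mul_assoc, ← mul_assoc, e1, one_mul]
  · rw [mul_assoc, e1, mul_one]

/-- For a finite set `Π` of types `(p, q)`: the shape with one tensor for each element of a basis of each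
space `invT G p q`, `(p, q) ∈ Π`, and the family of all basis tensors. It is fixed by `G`, and every
tensor in `invT G p q` is a combination of them; normalising matrices act on the spaces `invT G p q`. -/
theorem exists_family (G : Red n) (Pi : Finset (ℕ × ℕ)) :
    ∃ (s : Shape) (_ : s.Small) (T₀ : s.Ix n → ℚ),
      (∀ (A : Type) [CommRing A] [Algebra ℚ A] (k k' : Matrix (Fin n) (Fin n) A), G.In A k k' →
        act k k' (inA A T₀) = inA A T₀) ∧
      (∀ pq ∈ Pi, ∀ T ∈ invT G pq.1 pq.2, ∃ (b : s.β) (hp : s.p b = pq.1) (hq : s.q b = pq.2)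
        (c : s.C b → ℚ), ∀ L M, T (L, M) =
          ∑ e, c e * T₀ ⟨b, e, fun i => L (Fin.cast hp i), fun j => M (Fin.cast hq j)⟩) ∧
      (∀ P P' : Matrix (Fin n) (Fin n) ℚ, P * P' = 1 → P' * P = 1 →
        (∀ (A : Type) [CommRing A] [Algebra ℚ A] (k k' : Matrix (Fin n) (Fin n) A), G.In A k k' →
          G.In A (P.map (algebraMap ℚ A) * k * P'.map (algebraMap ℚ A))
            (P.map (algebraMap ℚ A) * k' * P'.map (algebraMap ℚ A))) →
        ∃ D : (b : s.β) → s.C b → s.C b → ℚ, act P P' T₀ = mix D T₀) := by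
  refine ⟨E3a_sh G Pi, E3a_small G Pi, E3a_T G Pi, ?_, ?_, ?_⟩
  · intro A _ _ k k' hk
    exact E3a_fix G Pi A k k' hk
  · rintro pq hpq T hT
    refine ⟨(⟨pq, hpq⟩ : {x : ℕ × ℕ // x ∈ Pi}), rfl, rfl,
      fun e => (Module.finBasis ℚ (invT G pq.1 pq.2)).repr ⟨T, hT⟩ e, fun L M => ?_⟩
    have h1 := (Module.finBasis ℚ (invT G pq.1 pq.2)).sum_repr ⟨T, hT⟩
    have h2 := congrArg (fun U : invT G pq.1 pq.2 => U.1 (L, M)) h1
    refine h2.symm.trans ?_
    change (∑ i, (Module.finBasis ℚ (invT G pq.1 pq.2)).repr ⟨T, hT⟩ i •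
      (Module.finBasis ℚ (invT G pq.1 pq.2)) i : invT G pq.1 pq.2).1 (L, M) = _
    rw [Submodule.coe_sum, Finset.sum_apply]
    rfl
  · intro P P' h1 h2 hN
    have key : ∀ b : {x : ℕ × ℕ // x ∈ Pi},
        ∀ e : Fin (Module.finrank ℚ (invT G b.1.1 b.1.2)),
        E3a_f b.1.1 b.1.2 P P' ((Module.finBasis ℚ (invT G b.1.1 b.1.2)) e).1 ∈
          invT G b.1.1 b.1.2 := by
      intro b e
      let F : invT G b.1.1 b.1.2 →ₗ[ℚ] invT G b.1.1 b.1.2 := (E3a_f b.1.1 b.1.2 P' P).restrict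
        (fun T hT => E3a_stable G b.1.1 b.1.2 h2 hN hT)
      have hinj : Function.Injective F := by
        intro T U hTU
        apply Subtype.ext
        have h3 : E3a_f b.1.1 b.1.2 P' P T.1 = E3a_f b.1.1 b.1.2 P' P U.1 :=
          congrArg Subtype.val hTU
        have h4 := congrArg (E3a_f b.1.1 b.1.2 P P') h3
        rwa [E3a_f_comp _ _ h1, E3a_f_comp _ _ h1] at h4
      obtain ⟨U, hU⟩ := LinearMap.injective_iff_surjective.mp hinj
        ((Module.finBasis ℚ (invT G b.1.1 b.1.2)) e)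
      have h5 : E3a_f b.1.1 b.1.2 P' P U.1 =
          ((Module.finBasis ℚ (invT G b.1.1 b.1.2)) e).1 :=
        congrArg Subtype.val hU
      rw [← h5, E3a_f_comp _ _ h1]
      exact U.2
    refine ⟨fun b e c => (Module.finBasis ℚ (invT G b.1.1 b.1.2)).repr ⟨_, key b e⟩ c, ?_⟩
    funext x
    obtain ⟨b, e, I, J⟩ := x
    have h3 := (Module.finBasis ℚ (invT G b.1.1 b.1.2)).sum_repr ⟨_, key b e⟩
    have h4 := congrArg (fun U : invT G b.1.1 b.1.2 => U.1 (I, J)) h3
    refine Eq.trans h4.symm ?_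
    change (∑ i, (Module.finBasis ℚ (invT G b.1.1 b.1.2)).repr ⟨_, key b e⟩ i •
      (Module.finBasis ℚ (invT G b.1.1 b.1.2)) i : invT G b.1.1 b.1.2).1 (I, J) = _
    rw [Submodule.coe_sum, Finset.sum_apply]
    rfl

end Pool.Agent.Lib.MP_666dc0_nt.IG
end

section

open MvPolynomial

namespace Pool.Agent.Lib.MP_666dc0_nt.IG

variable {n : ℕ} {s : Shape}

/-- The set used in Theorem I is stable under `GL_n`, under scaling of the tensors and closed. -/
theorem ticond_act [s.Small] {K : Type} [Field K] [Algebra ℚ K] {M : Type}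
    (D : M → (b : s.β) → s.C b → s.C b → ℚ) (v : M ⊕ M → Matrix (Fin n) (Fin n) K)
    (T : s.Ix n → K) (hc : TICond s D v T) (k k' : Matrix (Fin n) (Fin n) K) (hk : k * k' = 1)
    (hk' : k' * k = 1) : TICond s D (fun m => k * v m * k') (act k k' T) := by
  have key : ∀ a b : Matrix (Fin n) (Fin n) K, a * b = 1 → k * a * k' * (k * b * k') = 1 := by
    intro a b hab
    calc k * a * k' * (k * b * k') = k * a * (k' * k) * b * k' := by
          simp only [Matrix.mul_assoc]
      _ = k * (a * b) * k' := by rw [hk', Matrix.mul_one]; simp only [Matrix.mul_assoc]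
      _ = 1 := by rw [hab, Matrix.mul_one, hk]
  intro m
  obtain ⟨h1, h2, h3⟩ := hc m
  refine ⟨key _ _ h1, key _ _ h2, ?_⟩
  have e1 : k * v (Sum.inl m) * k' * k = k * v (Sum.inl m) := by
    rw [Matrix.mul_assoc, hk', Matrix.mul_one]
  have e2 : k' * (k * v (Sum.inr m) * k') = v (Sum.inr m) * k' := by
    rw [← Matrix.mul_assoc, ← Matrix.mul_assoc, hk', Matrix.one_mul]
  rw [← act_mul, e1, e2, act_mul, h3, act_mix]

theorem ticond_smul [s.Small] {K : Type} [Field K] [Algebra ℚ K] {M : Type}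
    (D : M → (b : s.β) → s.C b → s.C b → ℚ) (v : M ⊕ M → Matrix (Fin n) (Fin n) K)
    (T : s.Ix n → K) (hc : TICond s D v T) (c : K) : TICond s D v (c • T) := by
  intro m
  obtain ⟨h1, h2, h3⟩ := hc m
  refine ⟨h1, h2, ?_⟩
  rw [act_smul, h3]
  funext x
  simp only [mix, Pi.smul_apply, smul_eq_mul, Finset.mul_sum]
  exact Finset.sum_congr rfl fun c' _ => mul_left_comm c _ _

end Pool.Agent.Lib.MP_666dc0_nt.IG
end
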