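import Pool.Agent.Lib.MP_666dc0_nt.Mg.G017
import Pool.Agent.Lib.MP_666dc0_nt.Mg.G016
import Pool.Agent.Lib.MP_666dc0_nt.IG.R3b
import Pool.Agent.Lib.MP_666dc0_nt.IG.R2b

section

open MvPolynomial

namespace Pool.Agent.Lib.MP_666dc0_nt.IG

variable {A B : Type} [CommRing A] [CommRing B] [Algebra ℚ A] [Algebra ℚ B] {n : ℕ} {s : Shape}

private theorem R2c_ev {R S S' : Type} [CommRing R] [CommRing S] [CommRing S'] [Algebra R S]
    [Algebra R S'] [Algebra S S'] (hf : (algebraMap S S').comp (algebraMap R S) = algebraMap R S')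
    (k k' : Matrix (Fin n) (Fin n) S') (u : s.Ix n → S) (p : MvPolynomial (s.Ix n) R) :
    aeval (R := S) (evp k k') (aeval (act (gX n S) (gX' n S) (fun x => C (u x))) p) =
      aeval (act k k' (fun x => algebraMap S S' (u x))) p := by
  have hact : ∀ x : s.Ix n, aeval (R := S) (evp k k') (act (gX n S) (gX' n S) (fun x => C (u x)) x) =
      act k k' (fun x => algebraMap S S' (u x)) x := by
    intro x
    have h := map_act ((aeval (R := S) (evp k k') : MvPolynomial (PV n) S →ₐ[S] S') :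
      MvPolynomial (PV n) S →+* S') (gX n S) (gX' n S) (fun x => C (u x)) x
    refine h.trans ?_
    have h1 : (gX n S).map ((aeval (R := S) (evp k k') : MvPolynomial (PV n) S →ₐ[S] S') :
      MvPolynomial (PV n) S →+* S') = k := by
      ext i j
      exact aeval_X _ _
    have h2 : (gX' n S).map ((aeval (R := S) (evp k k') : MvPolynomial (PV n) S →ₐ[S] S') :
      MvPolynomial (PV n) S →+* S') = k' := by
      ext i j
      exact aeval_X _ _
    rw [h1, h2]
    congr 1
    funext y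
    exact aeval_C _ _
  induction p using MvPolynomial.induction_on with
  | C a =>
    rw [aeval_C, aeval_C, MvPolynomial.algebraMap_apply, aeval_C, ← hf]
    rfl
  | add p q hp hq => rw [map_add, map_add, hp, hq, map_add]
  | mul_X p x hp => rw [map_mul, map_mul, hp, map_mul, aeval_X, aeval_X, hact]

/-- If `p` vanishes on the orbit of `t` then its average vanishes at `t` (`aeval_Rey` and `IA_vanish`,
`map_act`). -/
theorem aeval_Rey_eq_zero [Algebra A B] (G : Red n) (p : MvPolynomial (s.Ix n) A) (t : s.Ix n → B)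
    (hp : ∀ (B' : Type) [CommRing B'] [Algebra ℚ B'] [Algebra A B'] (f : B →ₐ[A] B')
      (k k' : Matrix (Fin n) (Fin n) B'), G.In B' k k' →
        aeval (act k k' (fun x => f (t x))) p = 0) :
    aeval t (Rey G p) = 0 := by
  rw [aeval_Rey]
  apply IA_vanish
  intro B' _ _ _ k k' hk
  letI : Algebra A B' := ((algebraMap B B').comp (algebraMap A B)).toAlgebra
  let f : B →ₐ[A] B' := { algebraMap B B' with commutes' := fun a => rfl }
  rw [R2c_ev rfl]
  exact hp B' f k k' hk

/-- If `p` has the constant value `a` on the orbit of `t` then `(Rey p)(t) = a`. -/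
theorem aeval_Rey_eq_const [Algebra A B] (G : Red n) (p : MvPolynomial (s.Ix n) A) (t : s.Ix n → B)
    (a : A) (hp : ∀ (B' : Type) [CommRing B'] [Algebra ℚ B'] [Algebra A B'] (f : B →ₐ[A] B')
      (k k' : Matrix (Fin n) (Fin n) B'), G.In B' k k' →
        aeval (act k k' (fun x => f (t x))) p = algebraMap A B' a) :
    aeval t (Rey G p) = algebraMap A B a := by
  have h := aeval_Rey_eq_zero G (p + C (-a)) t (by
    intro B' _ _ _ f k k' hk
    rw [map_add, hp B' f k k' hk, aeval_C, map_neg, add_neg_cancel])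
  rw [Rey_add, Rey_C, map_add, aeval_C, map_neg] at h
  rwa [add_neg_eq_zero] at h

end Pool.Agent.Lib.MP_666dc0_nt.IG
end

section

/-! Facts on the Reynolds operator used in part B. -/

open MvPolynomial

namespace Pool.Agent.Lib.MP_666dc0_nt.IG

variable {n : ℕ} {s : Shape}

theorem Rey_add' (G : Red n) (p q : MvPolynomial (s.Ix n) ℚ) : Rey G (p + q) = Rey G p + Rey G q :=
  Rey_add G p q

theorem Rey_isInv' (G : Red n) (p : MvPolynomial (s.Ix n) ℚ) : IsInv G (Rey G p) :=
  isInv_Rey G p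

theorem Rey_eq' (G : Red n) (p : MvPolynomial (s.Ix n) ℚ) (hp : IsInv G p) : Rey G p = p :=
  Rey_of_isInv G hp

theorem Rey_inv_mul' (G : Red n) (p q : MvPolynomial (s.Ix n) ℚ) (hp : IsInv G p) :
    Rey G (p * q) = p * Rey G q := by
  have h1 := Rey_mul_of_isInv (A := ℚ) G hp q
  have h2 : MvPolynomial.map (algebraMap ℚ ℚ) p = p := by
    rw [show algebraMap ℚ ℚ = RingHom.id ℚ from rfl, MvPolynomial.map_id]
  rwa [h2] at h1

theorem Rey_whom' (G : Red n) (w : s.β → ℕ) (p : MvPolynomial (s.Ix n) ℚ) (d : ℕ)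
    (hp : IsWeightedHomogeneous (fun x : s.Ix n => w x.1) p d) :
    IsWeightedHomogeneous (fun x : s.Ix n => w x.1) (Rey G p) d :=
  Rey_homog G w p d hp

theorem Rey_eval_zero' (G : Red n) {K : Type} [Field K] [CharZero K] (t : s.Ix n → K)
    (p : MvPolynomial (s.Ix n) ℚ)
    (h : ∀ (A : Type) [CommRing A] [Algebra ℚ A] (φ : K →+* A) (k k' : Matrix (Fin n) (Fin n) A),
      G.In A k k' → aeval (act k k' (fun x => φ (t x))) p = 0) :
    aeval t (Rey G p) = 0 := by
  refine aeval_Rey_eq_zero (A := ℚ) (B := K) G p t ?_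
  intro B' _ i1 i2 f k k' hk
  have h1 : i1 = i2 := Subsingleton.elim _ _
  subst h1
  exact h B' f.toRingHom k k' hk

end Pool.Agent.Lib.MP_666dc0_nt.IG
end

section

set_option linter.unusedSectionVars false

open MvPolynomial

namespace Pool.Agent.Lib.MP_666dc0_nt.IG

variable {n : ℕ}

section

variable {s : Shape} (G : Red n) {E : Type} [CommRing E] [Algebra ℚ E] {K : Type} [Field K]
    [Algebra ℚ K] (τ : s.Ix n → E) (B' : Subring E) (y : B' →+* K)
    (hB : ∀ p : MvPolynomial (s.Ix n) ℚ, IsInv G p → aeval τ p ∈ B')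

/-- the point of the ring of invariants -/
private noncomputable def E4a_chi : Inv G s →+* K :=
  y.comp (RingHom.codRestrict ((aeval τ : MvPolynomial (s.Ix n) ℚ →ₐ[ℚ] E).toRingHom.comp
    (Inv G s).val.toRingHom) B' (fun p => hB p.1 p.2))

private theorem E4a_chi_apply (p : Inv G s) :
    E4a_chi G τ B' y hB p = y ⟨aeval τ p.1, hB p.1 p.2⟩ := rfl

private noncomputable def E4a_lam (p : MvPolynomial (s.Ix n) ℚ) : K :=
  E4a_chi G τ B' y hB ⟨Rey G p, isInv_Rey G p⟩

private theorem E4a_lam_add (p q : MvPolynomial (s.Ix n) ℚ) :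
    E4a_lam G τ B' y hB (p + q) = E4a_lam G τ B' y hB p + E4a_lam G τ B' y hB q := by
  unfold E4a_lam
  rw [← map_add]
  congr 1
  exact Subtype.ext (Rey_add G p q)

private theorem E4a_lam_mul {p : MvPolynomial (s.Ix n) ℚ} (hp : IsInv G p)
    (q : MvPolynomial (s.Ix n) ℚ) :
    E4a_lam G τ B' y hB (p * q) = E4a_chi G τ B' y hB ⟨p, hp⟩ * E4a_lam G τ B' y hB q := by
  unfold E4a_lam
  rw [← map_mul]
  congr 1
  apply Subtype.ext
  have h := Rey_mul_of_isInv (A := ℚ) G hp q
  rw [Algebra.algebraMap_self, MvPolynomial.map_id] at h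
  exact h

private theorem E4a_lam_C (c : ℚ) (q : MvPolynomial (s.Ix n) ℚ) :
    E4a_lam G τ B' y hB (C c * q) = algebraMap ℚ K c * E4a_lam G τ B' y hB q := by
  have hC : IsInv G (C c : MvPolynomial (s.Ix n) ℚ) := (Inv G s).algebraMap_mem c
  rw [E4a_lam_mul G τ B' y hB hC]
  congr 1
  have h1 : Subsingleton (ℚ →+* K) := inferInstance
  exact RingHom.congr_fun (h1.elim ((E4a_chi G τ B' y hB).comp (algebraMap ℚ (Inv G s)))
    (algebraMap ℚ K)) c

private theorem E4a_lam_one : E4a_lam G τ B' y hB 1 = 1 := by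
  unfold E4a_lam
  rw [← map_one (E4a_chi G τ B' y hB)]
  congr 1
  exact Subtype.ext (Rey_one G)

/-- the linear functional -/
private noncomputable def E4a_L : MvPolynomial (s.Ix n) K →ₗ[K] K :=
  (MvPolynomial.basisMonomials (s.Ix n) K).constr K
    (fun m => E4a_lam G τ B' y hB (monomial m 1))

private theorem E4a_L_map (p : MvPolynomial (s.Ix n) ℚ) :
    E4a_L G τ B' y hB (MvPolynomial.map (algebraMap ℚ K) p) = E4a_lam G τ B' y hB p := by
  induction p using MvPolynomial.induction_on' with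
  | monomial m c =>
    rw [map_monomial]
    have h1 : monomial m (algebraMap ℚ K c) =
        algebraMap ℚ K c • (MvPolynomial.basisMonomials (s.Ix n) K) m := by
      rw [coe_basisMonomials, smul_monomial, smul_eq_mul, mul_one]
    have h2 : (monomial m c : MvPolynomial (s.Ix n) ℚ) = C c * monomial m 1 := by
      rw [C_mul_monomial, mul_one]
    rw [h1, map_smul, h2, E4a_lam_C]
    unfold E4a_L
    rw [Module.Basis.constr_basis]
    rfl
  | add p q hp hq => rw [map_add, map_add, hp, hq, E4a_lam_add]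

private theorem E4a_kill (a : MvPolynomial (s.Ix n) K)
    (ha : ∀ q : MvPolynomial (s.Ix n) ℚ,
      E4a_L G τ B' y hB (MvPolynomial.map (algebraMap ℚ K) q * a) = 0)
    (r : MvPolynomial (s.Ix n) K) : E4a_L G τ B' y hB (r * a) = 0 := by
  induction r using MvPolynomial.induction_on' with
  | monomial m c =>
    have h1 : monomial m c * a =
        c • (MvPolynomial.map (algebraMap ℚ K) (monomial m 1) * a) := by
      rw [map_monomial, map_one, ← smul_mul_assoc, smul_monomial, smul_eq_mul, mul_one]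
    rw [h1, map_smul, ha, smul_zero]
  | add p q hp hq => rw [add_mul, map_add, hp, hq, add_zero]

/-- the relations which hold on the orbit -/
private def E4a_rel (p : MvPolynomial (s.Ix n) ℚ) : Prop :=
  ∀ (E' : Type) [CommRing E'] [Algebra ℚ E'] [Algebra E E'] (k k' : Matrix (Fin n) (Fin n) E'),
    G.In E' k k' → aeval (act k k' (fun x => algebraMap E E' (τ x))) p = 0

private theorem E4a_rel_mul {p : MvPolynomial (s.Ix n) ℚ} (hp : E4a_rel G τ p)
    (q : MvPolynomial (s.Ix n) ℚ) : E4a_rel G τ (q * p) := by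
  intro E' _ _ _ k k' hk
  rw [map_mul, hp E' k k' hk, mul_zero]

private theorem E4a_lam_rel {p : MvPolynomial (s.Ix n) ℚ} (hp : E4a_rel G τ p) :
    E4a_lam G τ B' y hB p = 0 := by
  have h1 : aeval τ (Rey G p) = 0 := by
    refine aeval_Rey_eq_zero (A := ℚ) (B := E) G p τ ?_
    intro B₁ i1 i2 i3 f k k' hk
    have h3 : i2 = i3 := Subsingleton.elim _ _
    subst h3
    let _ : Algebra E B₁ := f.toRingHom.toAlgebra
    exact hp B₁ k k' hk
  unfold E4a_lam
  rw [E4a_chi_apply]
  have h2 : (⟨aeval τ (Rey G p), hB _ (isInv_Rey G p)⟩ : B') = 0 := Subtype.ext h1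
  rw [h2, map_zero]

private def E4a_S : Set (MvPolynomial (s.Ix n) K) :=
  {r | ∃ (p : MvPolynomial (s.Ix n) ℚ) (hp : IsInv G p),
    r = MvPolynomial.map (algebraMap ℚ K) p - C (E4a_chi G τ B' y hB ⟨p, hp⟩)} ∪
  {r | ∃ p : MvPolynomial (s.Ix n) ℚ, E4a_rel G τ p ∧ r = MvPolynomial.map (algebraMap ℚ K) p}

private theorem E4a_ne_top : Ideal.span (E4a_S G τ B' y hB) ≠ ⊤ := by
  have key : ∀ a ∈ Ideal.span (E4a_S G τ B' y hB), ∀ r, E4a_L G τ B' y hB (r * a) = 0 := by
    intro a ha
    induction ha using Submodule.span_induction with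
    | mem a ha =>
      apply E4a_kill
      intro q
      rcases ha with ⟨p, hp, rfl⟩ | ⟨p, hp, rfl⟩
      · rw [mul_sub, map_sub, ← map_mul, E4a_L_map, mul_comm q p, E4a_lam_mul G τ B' y hB hp,
          mul_comm _ (C _), ← smul_eq_C_mul, map_smul, E4a_L_map, smul_eq_mul, sub_self]
      · rw [← map_mul, E4a_L_map]
        exact E4a_lam_rel G τ B' y hB (E4a_rel_mul G τ hp q)
    | zero => intro r; rw [mul_zero, map_zero]
    | add a b _ _ ha hb => intro r; rw [mul_add, map_add, ha, hb, add_zero]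
    | smul c a _ ha => intro r; rw [smul_eq_mul, ← mul_assoc, ha]
  intro h
  have h1 : (1 : MvPolynomial (s.Ix n) K) ∈ Ideal.span (E4a_S G τ B' y hB) := by
    rw [h]
    trivial
  have h2 := key 1 h1 1
  have h3 : (1 : MvPolynomial (s.Ix n) K) * 1 = MvPolynomial.map (algebraMap ℚ K) 1 := by
    rw [map_one, mul_one]
  rw [h3, E4a_L_map, E4a_lam_one] at h2
  exact one_ne_zero h2

end

/-- F3 (lifting of points). `τ : s.Ix n → E` a family of tensors over a `ℚ`-algebra `E`, `B' ⊆ E` a subring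
containing all values `p(τ)`, `p` invariant, `y : B' → K` a ring homomorphism to a field. There is a field
`Ω ⊇ K` and `t : s.Ix n → Ω` with `p(t) = y(p(τ))` for all invariants `p`, and all rational relations which
hold on the orbit of `τ` hold at `t`.
Proof: `P := MvPolynomial (s.Ix n) ℚ`, `I := Inv G s`, `k ⊂ P` the ideal of all relations which hold on the
orbit of `τ` (`p` such that `aeval (act k k' (f ∘ τ)) p = 0` for all `E`-algebras and all points of `G`);
`χ : I → K`, `p ↦ y(aeval τ p)` a ring homomorphism making `K` an `I`-algebra. The additive map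
`(P ⧸ k) ⊗[I] K → K`, `p ⊗ c ↦ χ(Rey p) c` is well defined (`Rey` maps `k` to `k ∩ I` by
`aeval_Rey_eq_zero`, which `χ` kills; `Rey (i p) = i Rey p`), and maps `1 ⊗ 1` to `1`, so
`T := (P ⧸ k) ⊗[I] K` is not the zero ring. Take a maximal ideal `m` of `T` and `Ω := T ⧸ m`
(Alternatively avoid tensor products: the ideal of `MvPolynomial (s.Ix n) K` generated by the `p - χ(p)`
and `k` is proper, apply `Rey` to a representation of `1`.) -/
theorem lift_point {s : Shape} (G : Red n) {E : Type} [CommRing E] [Algebra ℚ E] {K : Type} [Field K]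
    [Algebra ℚ K] (τ : s.Ix n → E) (B' : Subring E) (y : B' →+* K)
    (hB : ∀ p : MvPolynomial (s.Ix n) ℚ, IsInv G p → aeval τ p ∈ B') :
    ∃ (Ω : Type) (_ : Field Ω) (_ : Algebra ℚ Ω) (_ : Algebra K Ω) (t : s.Ix n → Ω),
      (∀ (p : MvPolynomial (s.Ix n) ℚ) (hp : IsInv G p),
        aeval t p = algebraMap K Ω (y ⟨aeval τ p, hB p hp⟩)) ∧
      ∀ p : MvPolynomial (s.Ix n) ℚ,
        (∀ (E' : Type) [CommRing E'] [Algebra ℚ E'] [Algebra E E'] (k k' : Matrix (Fin n) (Fin n) E'),
          G.In E' k k' → aeval (act k k' (fun x => algebraMap E E' (τ x))) p = 0) →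
        aeval t p = 0 := by
  obtain ⟨m, hm, hle⟩ := Ideal.exists_le_maximal _ (E4a_ne_top G τ B' y hB)
  let _ : Field (MvPolynomial (s.Ix n) K ⧸ m) := Ideal.Quotient.field m
  have hev : ∀ p : MvPolynomial (s.Ix n) ℚ,
      aeval (fun x => Ideal.Quotient.mk m (X x)) p =
        Ideal.Quotient.mk m (MvPolynomial.map (algebraMap ℚ K) p) := by
    intro p
    have h1 : (aeval (fun x => Ideal.Quotient.mk m (X x)) :
        MvPolynomial (s.Ix n) ℚ →ₐ[ℚ] MvPolynomial (s.Ix n) K ⧸ m).toRingHom =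
        (Ideal.Quotient.mk m).comp (MvPolynomial.map (algebraMap ℚ K)) := by
      apply MvPolynomial.ringHom_ext
      · intro r
        have h1 : Subsingleton (ℚ →+* MvPolynomial (s.Ix n) K ⧸ m) := inferInstance
        exact RingHom.congr_fun (h1.elim ((aeval (fun x => Ideal.Quotient.mk m (X x)) :
          MvPolynomial (s.Ix n) ℚ →ₐ[ℚ] MvPolynomial (s.Ix n) K ⧸ m).toRingHom.comp C)
            (((Ideal.Quotient.mk m).comp (MvPolynomial.map (algebraMap ℚ K))).comp C)) r
      · intro x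
        simp
    exact RingHom.congr_fun h1 p
  refine ⟨MvPolynomial (s.Ix n) K ⧸ m, inferInstance, inferInstance, inferInstance,
    fun x => Ideal.Quotient.mk m (X x), ?_, ?_⟩
  · intro p hp
    rw [hev]
    have h1 : MvPolynomial.map (algebraMap ℚ K) p - C (E4a_chi G τ B' y hB ⟨p, hp⟩) ∈ m :=
      hle (Ideal.subset_span (Or.inl ⟨p, hp, rfl⟩))
    have h2 := Ideal.Quotient.eq.mpr h1
    exact h2
  · intro p hp
    rw [hev]
    exact Ideal.Quotient.eq_zero_iff_mem.mpr (hle (Ideal.subset_span (Or.inr ⟨p, hp, rfl⟩)))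

end Pool.Agent.Lib.MP_666dc0_nt.IG
end

section

open MvPolynomial

namespace Pool.Agent.Lib.MP_666dc0_nt.IG

variable {n : ℕ}

/-- invariants of pairs of matrices are functions of the tensors -/
private theorem E4d_inv (G : Red n) (TD : TensorData G) (q : MvPolynomial ((pairS n).Ix n) ℚ)
    (hq : IsInv G q) : ∃ f : MvPolynomial (TD.s.Ix n) ℚ, ∀ (A : Type) [CommRing A] [Algebra ℚ A]
      (k k' : Matrix (Fin n) (Fin n) A), k * k' = 1 → k' * k = 1 →
      aeval (act k k' (inA A TD.T₀)) f = aeval (toPair k k') q := by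
  obtain ⟨q', hq'⟩ := exists_of_pair q
  obtain ⟨f, hf⟩ := TD.gen Empty (rename Sum.inl q') (by
    intro A _ _ k k' g g' w h1 h2 hg
    rw [aeval_rename, aeval_rename, Sum.elim_comp_inl, Sum.elim_comp_inl, hq', hq',
      ← hq A g' g (G.in_symm A g g' hg) (toPair k k'), act_toPair])
  refine ⟨rename (Sum.elim id Empty.elim) f, ?_⟩
  intro A _ _ k k' h1 h2
  have h3 := hf A k k' Empty.elim h1 h2
  rw [aeval_rename (τ := Sum _ _), Sum.elim_comp_inl, hq'] at h3
  rw [aeval_rename, ← h3]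
  congr 2
  funext x
  rcases x with x | x
  · rfl
  · exact x.elim

/-- the ideal of inverse pairs -/
private noncomputable def E4d_I (n : ℕ) : Ideal (MvPolynomial (PV n) ℚ) :=
  Ideal.span ({q | ∃ i j, q = (gX n ℚ * gX' n ℚ - 1) i j} ∪
    {q | ∃ i j, q = (gX' n ℚ * gX n ℚ - 1) i j})

private theorem E4d_gX {A : Type} [CommRing A] [Algebra ℚ A] (k k' : Matrix (Fin n) (Fin n) A) :
    (gX n ℚ).map (aeval (evp k k') : MvPolynomial (PV n) ℚ →ₐ[ℚ] A).toRingHom = k := by
  ext i j
  simp [gX, evp]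

private theorem E4d_gX' {A : Type} [CommRing A] [Algebra ℚ A] (k k' : Matrix (Fin n) (Fin n) A) :
    (gX' n ℚ).map (aeval (evp k k') : MvPolynomial (PV n) ℚ →ₐ[ℚ] A).toRingHom = k' := by
  ext i j
  simp [gX', evp]

private theorem E4d_aeval_sub {A : Type} [CommRing A] [Algebra ℚ A]
    (k k' : Matrix (Fin n) (Fin n) A) (M N : Matrix (Fin n) (Fin n) (MvPolynomial (PV n) ℚ))
    (i j : Fin n) :
    aeval (evp k k') ((M * N - 1) i j) =
      (M.map (aeval (evp k k') : MvPolynomial (PV n) ℚ →ₐ[ℚ] A).toRingHom *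
        N.map (aeval (evp k k') : MvPolynomial (PV n) ℚ →ₐ[ℚ] A).toRingHom - 1) i j := by
  have h1 : (M * N - 1).map (aeval (evp k k') : MvPolynomial (PV n) ℚ →ₐ[ℚ] A).toRingHom =
      M.map (aeval (evp k k') : MvPolynomial (PV n) ℚ →ₐ[ℚ] A).toRingHom *
        N.map (aeval (evp k k') : MvPolynomial (PV n) ℚ →ₐ[ℚ] A).toRingHom - 1 := by
    rw [← Matrix.map_mul, Matrix.map_sub _ (map_sub _),
      Matrix.map_one _ (map_zero _) (map_one _)]
  exact congrFun (congrFun h1 i) j

private theorem E4d_mk_X :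
    (gX n ℚ).map (Ideal.Quotient.mk (E4d_I n)) * (gX' n ℚ).map (Ideal.Quotient.mk (E4d_I n)) =
      1 := by
  rw [← sub_eq_zero, ← Matrix.map_mul]
  ext i j
  have h1 : (gX n ℚ * gX' n ℚ - 1) i j ∈ E4d_I n := Ideal.subset_span (Or.inl ⟨i, j, rfl⟩)
  have h2 := Ideal.Quotient.eq_zero_iff_mem.mpr h1
  rw [Matrix.sub_apply, map_sub] at h2
  rw [Matrix.sub_apply, Matrix.map_apply, Matrix.zero_apply, ← h2]
  congr 1
  rw [Matrix.one_apply, Matrix.one_apply]
  split_ifs
  · rw [map_one]
  · rw [map_zero]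

private theorem E4d_mk_X' :
    (gX' n ℚ).map (Ideal.Quotient.mk (E4d_I n)) * (gX n ℚ).map (Ideal.Quotient.mk (E4d_I n)) =
      1 := by
  rw [← sub_eq_zero, ← Matrix.map_mul]
  ext i j
  have h1 : (gX' n ℚ * gX n ℚ - 1) i j ∈ E4d_I n := Ideal.subset_span (Or.inr ⟨i, j, rfl⟩)
  have h2 := Ideal.Quotient.eq_zero_iff_mem.mpr h1
  rw [Matrix.sub_apply, map_sub] at h2
  rw [Matrix.sub_apply, Matrix.map_apply, Matrix.zero_apply, ← h2]
  congr 1
  rw [Matrix.one_apply, Matrix.one_apply]
  split_ifs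
  · rw [map_one]
  · rw [map_zero]

/-- the universal property of the ring of functions on inverse pairs -/
private theorem E4d_lift {A : Type} [CommRing A] [Algebra ℚ A] (k k' : Matrix (Fin n) (Fin n) A)
    (h1 : k * k' = 1) (h2 : k' * k = 1) :
    ∃ φ : (MvPolynomial (PV n) ℚ ⧸ E4d_I n) →+* A,
      ((gX n ℚ).map (Ideal.Quotient.mk (E4d_I n))).map φ = k ∧
      ((gX' n ℚ).map (Ideal.Quotient.mk (E4d_I n))).map φ = k' := by
  have hk : ∀ a ∈ E4d_I n, (aeval (evp k k') : MvPolynomial (PV n) ℚ →ₐ[ℚ] A).toRingHom a = 0 := by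
    intro a ha
    have hle : E4d_I n ≤ RingHom.ker (aeval (evp k k') :
        MvPolynomial (PV n) ℚ →ₐ[ℚ] A).toRingHom := by
      unfold E4d_I
      rw [Ideal.span_le]
      rintro q (⟨i, j, rfl⟩ | ⟨i, j, rfl⟩)
      · rw [SetLike.mem_coe, RingHom.mem_ker]
        refine (E4d_aeval_sub k k' _ _ i j).trans ?_
        rw [E4d_gX, E4d_gX', h1, sub_self, Matrix.zero_apply]
      · rw [SetLike.mem_coe, RingHom.mem_ker]
        refine (E4d_aeval_sub k k' _ _ i j).trans ?_
        rw [E4d_gX, E4d_gX', h2, sub_self, Matrix.zero_apply]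
    exact hle ha
  refine ⟨Ideal.Quotient.lift (E4d_I n) _ hk, ?_, ?_⟩
  · refine Eq.trans ?_ (E4d_gX k k')
    ext i j
    rfl
  · refine Eq.trans ?_ (E4d_gX' k k')
    ext i j
    rfl

private theorem E4d_univ (n : ℕ) : ∃ (E : Type) (_ : CommRing E) (_ : Algebra ℚ E)
    (U U' : Matrix (Fin n) (Fin n) E), U * U' = 1 ∧ U' * U = 1 ∧
      ∀ (A : Type) [CommRing A] [Algebra ℚ A] (k k' : Matrix (Fin n) (Fin n) A),
        k * k' = 1 → k' * k = 1 → ∃ φ : E →+* A, U.map φ = k ∧ U'.map φ = k' :=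
  ⟨MvPolynomial (PV n) ℚ ⧸ E4d_I n, inferInstance, inferInstance, _, _, E4d_mk_X, E4d_mk_X',
    fun _ _ _ k k' h1 h2 => E4d_lift k k' h1 h2⟩

/-- the relations of inverse pairs in the other notation -/
private theorem E4d_rel (M N : Matrix (Fin n) (Fin n) (MvPolynomial (PV n) ℚ)) (i j : Fin n) :
    ∃ q : MvPolynomial ((pairS n).Ix n) ℚ, ∀ (B : Type) [CommRing B] [Algebra ℚ B]
      (Y Y' : Matrix (Fin n) (Fin n) B), aeval (toPair Y Y') q =
      (M.map (aeval (evp Y Y') : MvPolynomial (PV n) ℚ →ₐ[ℚ] B).toRingHom *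
        N.map (aeval (evp Y Y') : MvPolynomial (PV n) ℚ →ₐ[ℚ] B).toRingHom - 1) i j := by
  obtain ⟨q, hq⟩ := exists_to_pair ((M * N - 1) i j)
  exact ⟨q, fun B _ _ Y Y' => by rw [hq, E4d_aeval_sub]⟩

/-- the coordinates of `act X X' T₀` -/
private theorem E4d_coord {s : Shape} (T₀ : s.Ix n → ℚ) (x : s.Ix n) :
    ∃ q : MvPolynomial ((pairS n).Ix n) ℚ, ∀ (B : Type) [CommRing B] [Algebra ℚ B]
      (Y Y' : Matrix (Fin n) (Fin n) B), aeval (toPair Y Y') q = act Y Y' (inA B T₀) x := by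
  obtain ⟨q, hq⟩ := exists_to_pair
    (act (gX n ℚ) (gX' n ℚ) (fun y => C (T₀ y)) x : MvPolynomial (PV n) ℚ)
  refine ⟨q, fun B _ _ Y Y' => ?_⟩
  rw [hq]
  have h1 := map_act (aeval (evp Y Y') : MvPolynomial (PV n) ℚ →ₐ[ℚ] B).toRingHom
    (gX n ℚ) (gX' n ℚ) (fun y => C (T₀ y)) x
  rw [E4d_gX, E4d_gX'] at h1
  refine h1.trans ?_
  congr 1
  funext y
  exact aeval_C _ _

/-- E5. The orbit of `T₀` under `GL_n` is closed: a family `T'` over a field satisfying all rational
relations of the orbit is in the orbit over an extension field.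
`lift_point` for the shape `pairS n`, `E := MvPolynomial (PV n) ℚ ⧸ (entries of XX'-1, X'X-1)`,
`τ = toPair X X'`: an invariant `p` (under `(X g', g X')`) satisfies on inverse pairs
`p(k, k') = f(act k k' T₀)` (`gen`, `υ = Empty`), so `p(τ) = f(act X X' T₀)` in `E`; let `B'` be the subring
of all `f(act X X' T₀)` and `y(f(act X X' T₀)) := f(T')` (well defined by the hypothesis on `T'`). The point
`t = toPair k k'` over `Ω'` is an inverse pair (relations of the orbit of `τ`), and the coordinates of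
`act X X' T₀`, which are invariants, take the values `T'`. -/
theorem closed_orbit (G : Red n) (TD : TensorData G) {Ω : Type} [Field Ω] [Algebra ℚ Ω]
    (T' : TD.s.Ix n → Ω) (hT' : ∀ f : MvPolynomial (TD.s.Ix n) ℚ,
      (∀ (A : Type) [CommRing A] [Algebra ℚ A] (k k' : Matrix (Fin n) (Fin n) A),
        k * k' = 1 → k' * k = 1 → aeval (act k k' (inA A TD.T₀)) f = 0) → aeval T' f = 0) :
    ∃ (Ω' : Type) (_ : Field Ω') (_ : Algebra ℚ Ω') (_ : Algebra Ω Ω')
      (k k' : Matrix (Fin n) (Fin n) Ω'), k * k' = 1 ∧ k' * k = 1 ∧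
      act k k' (inA Ω' TD.T₀) = fun x => algebraMap Ω Ω' (T' x) := by
  obtain ⟨E, _, _, U, U', hUU, hUU', hlift⟩ := E4d_univ n
  let F : MvPolynomial (TD.s.Ix n) ℚ →+* E :=
    (aeval (act U U' (inA E TD.T₀)) : MvPolynomial (TD.s.Ix n) ℚ →ₐ[ℚ] E).toRingHom
  let H : MvPolynomial (TD.s.Ix n) ℚ →+* Ω :=
    (aeval T' : MvPolynomial (TD.s.Ix n) ℚ →ₐ[ℚ] Ω).toRingHom
  have hFH : ∀ f, F f = 0 → H f = 0 := by
    intro f hf
    apply hT' f
    intro A _ _ k k' h1 h2
    obtain ⟨φ, hφ, hφ'⟩ := hlift A k k' h1 h2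
    have h3 : φ (F f) = aeval (act k k' (inA A TD.T₀)) f := by
      have hQ : φ.comp (algebraMap ℚ E) = algebraMap ℚ A := Subsingleton.elim _ _
      change φ (aeval (act U U' (inA E TD.T₀)) f) = _
      rw [aeval_def, hom_eval₂, hQ, aeval_def]
      congr 1
      funext x
      rw [map_act, hφ, hφ']
      congr 1
      funext y
      exact RingHom.congr_fun hQ (TD.T₀ y)
    rw [← h3, hf, map_zero]
  have hker : RingHom.ker F.rangeRestrict ≤ RingHom.ker H := by
    intro f hf
    rw [RingHom.mem_ker] at hf ⊢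
    exact hFH f (congrArg Subtype.val hf)
  let y : F.range →+* Ω :=
    F.rangeRestrict.liftOfSurjective F.rangeRestrict_surjective ⟨H, hker⟩
  have hy : ∀ f, y (F.rangeRestrict f) = H f := fun f =>
    F.rangeRestrict.liftOfSurjective_comp_apply F.rangeRestrict_surjective ⟨H, hker⟩ f
  have hB : ∀ p : MvPolynomial ((pairS n).Ix n) ℚ, IsInv G p →
      aeval (toPair U U') p ∈ F.range := by
    intro p hp
    obtain ⟨f, hf⟩ := E4d_inv G TD p hp
    exact ⟨f, hf E U U' hUU hUU'⟩
  obtain ⟨Ω', _, _, _, t, ht1, ht2⟩ := lift_point G (toPair U U') F.range y hB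
  obtain ⟨k, k', rfl⟩ := exists_toPair t
  refine ⟨Ω', inferInstance, inferInstance, inferInstance, k, k', ?_, ?_, ?_⟩
  · rw [← sub_eq_zero]
    ext i j
    obtain ⟨q, hq⟩ := E4d_rel (gX n ℚ) (gX' n ℚ) i j
    have h3 := ht2 q (by
      intro E' _ _ _ g g' hg
      have e0 : (fun x => algebraMap E E' (toPair U U' x)) =
          toPair (U.map (algebraMap E E')) (U'.map (algebraMap E E')) := by
        funext x
        obtain ⟨b, c, I, J⟩ := x
        cases b <;> rfl
      have e1 : U.map (algebraMap E E') * U'.map (algebraMap E E') = 1 := by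
        rw [← Matrix.map_mul, hUU, Matrix.map_one _ (map_zero _) (map_one _)]
      rw [e0, act_toPair, hq, E4d_gX, E4d_gX', ← mul_assoc, mul_assoc _ g' g,
        (G.in_inv E' g g' hg).2, mul_one, e1, sub_self, Matrix.zero_apply])
    rw [hq, E4d_gX, E4d_gX'] at h3
    exact h3
  · rw [← sub_eq_zero]
    ext i j
    obtain ⟨q, hq⟩ := E4d_rel (gX' n ℚ) (gX n ℚ) i j
    have h3 := ht2 q (by
      intro E' _ _ _ g g' hg
      have e0 : (fun x => algebraMap E E' (toPair U U' x)) =
          toPair (U.map (algebraMap E E')) (U'.map (algebraMap E E')) := by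
        funext x
        obtain ⟨b, c, I, J⟩ := x
        cases b <;> rfl
      have e1 : U'.map (algebraMap E E') * U.map (algebraMap E E') = 1 := by
        rw [← Matrix.map_mul, hUU', Matrix.map_one _ (map_zero _) (map_one _)]
      rw [e0, act_toPair, hq, E4d_gX, E4d_gX', ← mul_assoc, mul_assoc g, e1, mul_one,
        (G.in_inv E' g g' hg).1, sub_self, Matrix.zero_apply])
    rw [hq, E4d_gX, E4d_gX'] at h3
    exact h3
  · funext x
    obtain ⟨q, hq⟩ := E4d_coord TD.T₀ x
    have hqi : IsInv G q := by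
      intro A _ _ g g' hg t
      obtain ⟨Y, Y', rfl⟩ := exists_toPair t
      rw [act_toPair, hq, hq, act_mul, TD.fix A g' g (G.in_symm A g g' hg)]
    have h3 := ht1 q hqi
    rw [hq] at h3
    rw [h3]
    congr 1
    have h4 : (⟨aeval (toPair U U') q, hB q hqi⟩ : F.range) = F.rangeRestrict (X x) := by
      apply Subtype.ext
      change aeval (toPair U U') q = aeval (act U U' (inA E TD.T₀)) (X x)
      rw [hq, aeval_X]
    rw [h4, hy]
    exact aeval_X _ _

end Pool.Agent.Lib.MP_666dc0_nt.IG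
end
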