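import Pool.Agent.Lib.MP_666dc0_nt.Mg.G051

section

open Filter Topology NumberField IsDedekindDomain
open scoped NumberField BigOperators Pointwise

namespace Pool.Agent.Lib.MP_666dc0_nt
section Dens
variable {K : Type*} [Field K] [NumberField K]

/-- Partial sum over the primes in `S`. -/
noncomputable def pSum (S : Set (HeightOneSpectrum (𝓞 K))) (s : ℝ) : ℝ :=
  ∑' v : HeightOneSpectrum (𝓞 K), S.indicator (nrm s) v

/-- `S` has logarithmic density `d`. -/
def HasDens (S : Set (HeightOneSpectrum (𝓞 K))) (d : ℝ) : Prop :=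
  Tendsto (fun s : ℝ => pSum S s / Real.log (1 / (s - 1))) (𝓝[>] 1) (𝓝 d)

lemma summable_ind {s : ℝ} (hs : 1 < s) (S : Set (HeightOneSpectrum (𝓞 K))) :
    Summable (S.indicator (nrm s)) := (summable_nrm hs).indicator S

lemma ind_nonneg (s : ℝ) (S : Set (HeightOneSpectrum (𝓞 K))) (v) : 0 ≤ S.indicator (nrm s) v :=
  Set.indicator_nonneg (fun v _ => (nrm_pos s v).le) v

lemma pSum_nonneg (s : ℝ) (S : Set (HeightOneSpectrum (𝓞 K))) : 0 ≤ pSum S s :=
  tsum_nonneg (ind_nonneg s S)

lemma hasDens_univ : HasDens (Set.univ : Set (HeightOneSpectrum (𝓞 K))) 1 := by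
  have := tendsto_primeSum_div_log (K := K)
  simpa [HasDens, pSum, primeSum] using this

lemma hasDens_zero_of_bdd {S : Set (HeightOneSpectrum (𝓞 K))} {C : ℝ}
    (h : ∀ s : ℝ, 1 < s → pSum S s ≤ C) : HasDens S 0 := by
  have hC : ∀ C : ℝ, Tendsto (fun s : ℝ => C / Real.log (1 / (s - 1))) (𝓝[>] 1) (𝓝 0) :=
      fun C => tendsto_const_nhds.div_atTop tendsto_log_atTop
  refine tendsto_of_tendsto_of_tendsto_of_le_of_le' (hC 0) (hC C) ?_ ?_
  · filter_upwards [self_mem_nhdsWithin, tendsto_log_atTop.eventually_gt_atTop 0] with s hs hl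
    have := pSum_nonneg s S
    gcongr
  · filter_upwards [self_mem_nhdsWithin, tendsto_log_atTop.eventually_gt_atTop 0] with s hs hl
    have := h s hs
    gcongr

lemma hasDens_finite {S : Set (HeightOneSpectrum (𝓞 K))} (hS : S.Finite) : HasDens S 0 := by
  refine hasDens_zero_of_bdd (C := ∑ v ∈ hS.toFinset, 1) fun s hs => ?_
  rw [pSum, tsum_eq_sum (s := hS.toFinset) (fun v hv => by
    rw [Set.indicator_of_notMem]; simpa using hv)]
  refine Finset.sum_le_sum fun v hv => ?_
  rw [Set.indicator_of_mem (by simpa using hv)]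
  linarith [nrm_le_half hs.le v]

lemma pSum_mono {S T : Set (HeightOneSpectrum (𝓞 K))} (h : S ⊆ T) {s : ℝ} (hs : 1 < s) :
    pSum S s ≤ pSum T s :=
  (summable_ind hs S).tsum_le_tsum
    (fun v => Set.indicator_le_indicator_of_subset h (fun v => (nrm_pos s v).le) v)
    (summable_ind hs T)

lemma HasDens.zero_mono {S T : Set (HeightOneSpectrum (𝓞 K))} (h : S ⊆ T) (hT : HasDens T 0) :
    HasDens S 0 := by
  refine tendsto_of_tendsto_of_tendsto_of_le_of_le' tendsto_const_nhds hT ?_ ?_
  · filter_upwards [self_mem_nhdsWithin, tendsto_log_atTop.eventually_gt_atTop 0] with s hs hl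
    exact div_nonneg (pSum_nonneg s S) hl.le
  · filter_upwards [self_mem_nhdsWithin, tendsto_log_atTop.eventually_gt_atTop 0] with s hs hl
    have := pSum_mono h hs
    gcongr

lemma pSum_union_add_inter (S T : Set (HeightOneSpectrum (𝓞 K))) {s : ℝ} (hs : 1 < s) :
    pSum (S ∪ T) s + pSum (S ∩ T) s = pSum S s + pSum T s := by
  rw [pSum, pSum, pSum, pSum, ← (summable_ind hs _).tsum_add (summable_ind hs _),
    ← (summable_ind hs _).tsum_add (summable_ind hs _)]
  refine tsum_congr fun v => ?_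
  exact congrFun (Set.indicator_union_add_inter (nrm s) S T) v

lemma HasDens.union_zero {S T : Set (HeightOneSpectrum (𝓞 K))} (hS : HasDens S 0)
    (hT : HasDens T 0) : HasDens (S ∪ T) 0 := by
  have h := Filter.Tendsto.add hS hT
  rw [add_zero] at h
  refine tendsto_of_tendsto_of_tendsto_of_le_of_le' tendsto_const_nhds h ?_ ?_
  · filter_upwards [self_mem_nhdsWithin, tendsto_log_atTop.eventually_gt_atTop 0] with s hs hl
    exact div_nonneg (pSum_nonneg s _) hl.le
  · filter_upwards [self_mem_nhdsWithin, tendsto_log_atTop.eventually_gt_atTop 0] with s hs hl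
    rw [← add_div]
    have := pSum_union_add_inter S T hs
    have := pSum_nonneg s (S ∩ T)
    gcongr
    linarith

lemma HasDens.diff_zero {S T : Set (HeightOneSpectrum (𝓞 K))} {d : ℝ} (hS : HasDens S d)
    (hT : HasDens T 0) : HasDens (S \ T) d := by
  have h1 : HasDens (S ∩ T) 0 := hT.zero_mono Set.inter_subset_right
  have h := Filter.Tendsto.sub hS h1
  rw [sub_zero] at h
  refine h.congr' ?_
  filter_upwards [self_mem_nhdsWithin] with s hs
  have h2 := pSum_union_add_inter (S \ T) (S ∩ T) (s := s) hs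
  rw [Set.sdiff_union_inter] at h2
  have h3 : (S \ T) ∩ (S ∩ T) = ∅ := by
    ext v; simp; tauto
  rw [h3] at h2
  have h4 : pSum (∅ : Set (HeightOneSpectrum (𝓞 K))) s = 0 := by simp [pSum]
  rw [h4, add_zero] at h2
  rw [← sub_div, h2, add_sub_cancel_right]

lemma HasDens.nonempty {S : Set (HeightOneSpectrum (𝓞 K))} {d : ℝ} (hS : HasDens S d)
    (hd : d ≠ 0) : S.Nonempty := by
  by_contra h
  rw [Set.not_nonempty_iff_eq_empty] at h
  subst h
  exact hd (tendsto_nhds_unique hS (hasDens_finite Set.finite_empty))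

end Dens

set_option linter.unusedSectionVars false
section Under
variable (K : Type*) [Field K] [NumberField K] {L : Type*} [Field L] [NumberField L] [Algebra K L]

/-- The prime below. -/
noncomputable def undr (w : HeightOneSpectrum (𝓞 L)) : HeightOneSpectrum (𝓞 K) where
  asIdeal := w.asIdeal.under (𝓞 K)
  isPrime := by have := w.isPrime; infer_instance
  ne_bot := by
    have := w.isPrime
    intro h
    exact w.ne_bot (Ideal.eq_bot_of_comap_eq_bot (R := 𝓞 K) h)

instance (w : HeightOneSpectrum (𝓞 L)) : w.asIdeal.LiesOver (undr K w).asIdeal := ⟨rfl⟩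

variable {K}

lemma absNorm_eq_pow (w : HeightOneSpectrum (𝓞 L)) :
    Ideal.absNorm w.asIdeal =
      Ideal.absNorm (undr K w).asIdeal ^ (w.asIdeal.inertiaDeg (𝓞 K)) := by
  have := w.isPrime
  exact (Ideal.absNorm_pow_inertiaDeg (undr K w).asIdeal w.asIdeal).symm

lemma nrm_eq_pow (s : ℝ) (w : HeightOneSpectrum (𝓞 L)) :
    nrm s w = nrm s (undr K w) ^ (w.asIdeal.inertiaDeg (𝓞 K)) := by
  rw [nrm, nrm, absNorm_eq_pow (K := K) w]
  push_cast
  rw [← Real.rpow_natCast, ← Real.rpow_natCast, ← Real.rpow_mul (by positivity),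
    ← Real.rpow_mul (by positivity), mul_comm]

lemma inertiaDeg_pos' (w : HeightOneSpectrum (𝓞 L)) : 0 < w.asIdeal.inertiaDeg (𝓞 K) := by
  have := w.isPrime
  exact Ideal.inertiaDeg_pos w.asIdeal (𝓞 K)

/-- The fibre of `undr` over `v`. -/
noncomputable def fibreEquiv (v : HeightOneSpectrum (𝓞 K)) :
    {w : HeightOneSpectrum (𝓞 L) // undr K w = v} ≃ v.asIdeal.primesOver (𝓞 L) where
  toFun w := ⟨w.1.asIdeal, w.1.isPrime, ⟨(congrArg HeightOneSpectrum.asIdeal w.2).symm⟩⟩
  invFun P := ⟨⟨P.1, P.2.1, Ideal.ne_bot_of_mem_primesOver v.ne_bot P.2⟩, by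
    apply HeightOneSpectrum.ext
    exact (P.2.2.over).symm⟩
  left_inv w := rfl
  right_inv P := rfl

instance finite_fibre (v : HeightOneSpectrum (𝓞 K)) :
    Finite {w : HeightOneSpectrum (𝓞 L) // undr K w = v} := by
  have := v.isMaximal
  exact Finite.of_equiv _ (fibreEquiv v).symm

lemma card_fibre (v : HeightOneSpectrum (𝓞 K)) :
    Nat.card {w : HeightOneSpectrum (𝓞 L) // undr K w = v} =
      (v.asIdeal.primesOver (𝓞 L)).ncard := by
  rw [Nat.card_congr (fibreEquiv v)]
  rfl

variable (L) in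
lemma ncard_primesOver_le (v : HeightOneSpectrum (𝓞 K)) :
    (v.asIdeal.primesOver (𝓞 L)).ncard ≤ Module.finrank K L := by
  classical
  have := v.isMaximal
  have hfin : Fintype (v.asIdeal.primesOver (𝓞 L)) :=
    (IsDedekindDomain.primesOver_finite v.asIdeal (𝓞 L)).fintype
  have h := Ideal.sum_ramification_inertia_eq_finrank v.asIdeal (S := 𝓞 L)
  have h2 : Module.finrank (𝓞 K) (𝓞 L) = Module.finrank K L :=
    (IsFractionRing.finrank_eq (𝓞 K) K (𝓞 L) L).symm
  rw [← h2, ← h, ← Set.fintypeCard_eq_ncard, ← Finset.card_univ, Finset.card_eq_sum_ones]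
  refine Finset.sum_le_sum fun P _ => ?_
  have := P.2.1
  have h3 := Ideal.inertiaDeg_pos P.1 (𝓞 K)
  have h4 := Ideal.ramificationIdx_pos P.1 (𝓞 K)
  exact Nat.mul_pos h4 h3

/-- Summation over fibres. -/
lemma pSum_fibre (A : Set (HeightOneSpectrum (𝓞 L))) {s : ℝ} (hs : 1 < s) :
    pSum A s = ∑' v : HeightOneSpectrum (𝓞 K),
      ∑' w : {w : HeightOneSpectrum (𝓞 L) // undr K w = v}, A.indicator (nrm s) w.1 := by
  rw [pSum, ← (Equiv.sigmaFiberEquiv (undr K (L := L))).tsum_eq, Summable.tsum_sigma]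
  · rfl
  · exact (Equiv.summable_iff (Equiv.sigmaFiberEquiv (undr K (L := L)))).mpr (summable_ind hs A)

lemma summable_fibre (A : Set (HeightOneSpectrum (𝓞 L))) {s : ℝ} (hs : 1 < s) :
    Summable fun v : HeightOneSpectrum (𝓞 K) =>
      ∑' w : {w : HeightOneSpectrum (𝓞 L) // undr K w = v}, A.indicator (nrm s) w.1 := by
  have h := (Equiv.summable_iff (Equiv.sigmaFiberEquiv (undr K (L := L)))).mpr (summable_ind hs A)
  exact h.sigma

variable (K) in
/-- The primes of residue degree at least two have density zero. -/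
lemma hasDens_inertiaDeg_ge_two :
    HasDens {w : HeightOneSpectrum (𝓞 L) | 2 ≤ w.asIdeal.inertiaDeg (𝓞 K)} 0 := by
  refine hasDens_zero_of_bdd (C := Module.finrank K L * primeSum K 2) fun s hs => ?_
  rw [pSum_fibre (K := K) _ hs, primeSum, ← tsum_mul_left]
  refine (summable_fibre _ hs).tsum_le_tsum (fun v => ?_) ((summable_nrm (by norm_num)).mul_left _)
  have : Fintype {w : HeightOneSpectrum (𝓞 L) // undr K w = v} := Fintype.ofFinite _
  rw [tsum_fintype]
  calc ∑ w : {w : HeightOneSpectrum (𝓞 L) // undr K w = v},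
        ({w : HeightOneSpectrum (𝓞 L) | 2 ≤ w.asIdeal.inertiaDeg (𝓞 K)}).indicator (nrm s) w.1
      ≤ ∑ w : {w : HeightOneSpectrum (𝓞 L) // undr K w = v}, nrm 2 v := by
        refine Finset.sum_le_sum fun w _ => ?_
        rw [Set.indicator_apply]
        split_ifs with h
        · rw [nrm_eq_pow (K := K), w.2]
          have h0 := nrm_pos s v
          have h1 := nrm_le_half hs.le v
          calc nrm s v ^ (w.1.asIdeal.inertiaDeg (𝓞 K)) ≤ nrm s v ^ 2 :=
                pow_le_pow_of_le_one h0.le (by linarith) h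
            _ = nrm (2 * s) v := nrm_sq s v
            _ ≤ nrm 2 v := nrm_anti (by linarith) v
        · exact (nrm_pos 2 v).le
    _ = (Nat.card {w : HeightOneSpectrum (𝓞 L) // undr K w = v} : ℝ) * nrm 2 v := by
        rw [Finset.sum_const, nsmul_eq_mul, Nat.card_eq_fintype_card, Finset.card_univ]
    _ ≤ Module.finrank K L * nrm 2 v := by
        have h1 : Nat.card {w : HeightOneSpectrum (𝓞 L) // undr K w = v} ≤
            Module.finrank K L := by
          rw [card_fibre]; exact ncard_primesOver_le L v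
        have h2 := (nrm_pos 2 v).le
        gcongr

end Under
section Split
set_option linter.unusedSectionVars false
variable (K : Type*) [Field K] [NumberField K] (L : Type*) [Field L] [NumberField L] [Algebra K L]

/-- The primes splitting completely. -/
def Spl : Set (HeightOneSpectrum (𝓞 K)) :=
  {v | (v.asIdeal.primesOver (𝓞 L)).ncard = Module.finrank K L}

variable {K L}

/-- The set of primes containing a given nonzero element is finite. -/
lemma finite_mem {a : 𝓞 L} (ha : a ≠ 0) : {w : HeightOneSpectrum (𝓞 L) | a ∈ w.asIdeal}.Finite := by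
  refine (Ideal.finite_factors (R := 𝓞 L) (I := Ideal.span {a}) (by simpa using ha)).subset ?_
  intro w hw
  simpa [Ideal.dvd_span_singleton] using hw

variable (K L) in
lemma finite_inertia [IsGalois K L] :
    {w : HeightOneSpectrum (𝓞 L) | w.asIdeal.inertia Gal(L/K) ≠ ⊥}.Finite := by
  classical
  have hfaith : ∀ τ : Gal(L/K), τ ≠ 1 → ∃ x : 𝓞 L, τ • x ≠ x := by
    intro τ hτ
    by_contra h
    push Not at h
    apply hτ
    have : FaithfulSMul Gal(L/K) (𝓞 L) := IsGaloisGroup.faithful (𝓞 K)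
    exact eq_of_smul_eq_smul (α := 𝓞 L) fun x => by rw [h x, one_smul]
  choose! x hx using hfaith
  have hfin : (⋃ τ ∈ {τ : Gal(L/K) | τ ≠ 1},
      {w : HeightOneSpectrum (𝓞 L) | τ • x τ - x τ ∈ w.asIdeal}).Finite := by
    refine Set.Finite.biUnion (Set.toFinite _) fun τ hτ => ?_
    exact finite_mem (sub_ne_zero.mpr (hx τ hτ))
  refine hfin.subset ?_
  intro w hw
  rw [Set.mem_ofPred_eq, Subgroup.ne_bot_iff_exists_ne_one] at hw
  obtain ⟨⟨τ, hτ⟩, hne⟩ := hw
  simp only [Set.mem_iUnion]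
  refine ⟨τ, ?_, ?_⟩
  · intro h
    apply hne
    exact Subtype.ext h
  · exact hτ (x τ)

lemma ef_of_mem_undr [IsGalois K L] (w : HeightOneSpectrum (𝓞 L)) :
    ((undr K w).asIdeal.primesOver (𝓞 L)).ncard * Nat.card (w.asIdeal.inertia Gal(L/K)) *
      w.asIdeal.inertiaDeg (𝓞 K) = Module.finrank K L := by
  have := w.isPrime
  have := (undr K w).isPrime
  rw [Ideal.ncard_primesOver_mul_card_inertia_mul_finrank (G := Gal(L/K)) (undr K w).asIdeal
    w.asIdeal]
  exact IsGalois.card_aut_eq_finrank K L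

lemma mem_spl_iff [IsGalois K L] (w : HeightOneSpectrum (𝓞 L)) :
    undr K w ∈ Spl K L ↔
      w.asIdeal.inertia Gal(L/K) = ⊥ ∧ w.asIdeal.inertiaDeg (𝓞 K) = 1 := by
  have h := ef_of_mem_undr (K := K) w
  have hn : 0 < Module.finrank K L := Module.finrank_pos
  constructor
  · intro hw
    have hw' : ((undr K w).asIdeal.primesOver (𝓞 L)).ncard = Module.finrank K L := hw
    rw [hw', mul_assoc] at h
    have h1 : Nat.card (w.asIdeal.inertia Gal(L/K)) * w.asIdeal.inertiaDeg (𝓞 K) = 1 := by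
      nlinarith
    obtain ⟨h2, h3⟩ := mul_eq_one.mp h1
    exact ⟨Subgroup.card_eq_one.mp h2, h3⟩
  · rintro ⟨h1, h2⟩
    rw [h1, h2, mul_one, Subgroup.card_bot, mul_one] at h
    exact h

/-- The primes splitting completely in a Galois extension of degree `n` have density `1 / n`. -/
theorem hasDens_spl [IsGalois K L] : HasDens (Spl K L) (1 / Module.finrank K L) := by
  let A : Set (HeightOneSpectrum (𝓞 L)) := (undr K) ⁻¹' (Spl K L)
  have hA : HasDens A 1 := by
    have h1 : HasDens ({w : HeightOneSpectrum (𝓞 L) | w.asIdeal.inertia Gal(L/K) ≠ ⊥} ∪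
        {w : HeightOneSpectrum (𝓞 L) | 2 ≤ w.asIdeal.inertiaDeg (𝓞 K)}) 0 :=
      (hasDens_finite (finite_inertia K L)).union_zero (hasDens_inertiaDeg_ge_two K)
    have h2 : HasDens Aᶜ 0 := by
      refine h1.zero_mono ?_
      intro w hw
      have hw' : ¬ (undr K w ∈ Spl K L) := hw
      rw [mem_spl_iff] at hw'
      by_cases h3 : w.asIdeal.inertia Gal(L/K) = ⊥
      · right
        have h4 := inertiaDeg_pos' (K := K) w
        have h5 : w.asIdeal.inertiaDeg (𝓞 K) ≠ 1 := fun h => hw' ⟨h3, h⟩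
        change 2 ≤ w.asIdeal.inertiaDeg (𝓞 K)
        omega
      · left; exact h3
    have h3 := hasDens_univ.diff_zero h2
    rwa [← Set.compl_eq_univ_sdiff, compl_compl] at h3
  have hn : (0 : ℝ) < Module.finrank K L := by exact_mod_cast Module.finrank_pos
  have hsum : ∀ s : ℝ, 1 < s → pSum A s = Module.finrank K L * pSum (Spl K L) s := by
    intro s hs
    rw [pSum_fibre (K := K) _ hs, pSum, ← tsum_mul_left]
    refine tsum_congr fun v => ?_
    have : Fintype {w : HeightOneSpectrum (𝓞 L) // undr K w = v} := Fintype.ofFinite _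
    rw [tsum_fintype]
    by_cases hv : v ∈ Spl K L
    · rw [Set.indicator_of_mem hv]
      have h1 : ∀ w : {w : HeightOneSpectrum (𝓞 L) // undr K w = v},
          A.indicator (nrm s) w.1 = nrm s v := by
        intro w
        have hw : undr K w.1 ∈ Spl K L := by rw [w.2]; exact hv
        rw [Set.indicator_of_mem (show w.1 ∈ A from hw), nrm_eq_pow (K := K), w.2,
          ((mem_spl_iff w.1).mp hw).2, pow_one]
      rw [Finset.sum_congr rfl fun w _ => h1 w, Finset.sum_const, nsmul_eq_mul, Finset.card_univ,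
        ← Nat.card_eq_fintype_card, card_fibre]
      have hv' : (v.asIdeal.primesOver (𝓞 L)).ncard = Module.finrank K L := hv
      rw [hv']
    · rw [Set.indicator_of_notMem hv, mul_zero]
      refine Finset.sum_eq_zero fun w _ => ?_
      rw [Set.indicator_of_notMem]
      intro hw
      apply hv
      have : undr K w.1 ∈ Spl K L := hw
      rwa [w.2] at this
  have h4 := Filter.Tendsto.const_mul (1 / (Module.finrank K L : ℝ)) hA
  rw [mul_one] at h4
  refine h4.congr' ?_
  filter_upwards [self_mem_nhdsWithin] with s hs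
  rw [hsum s hs]
  field_simp

end Split
section Frob
set_option linter.unusedSectionVars false
variable {K : Type*} [Field K] [NumberField K] {L : Type*} [Field L] [NumberField L] [Algebra K L]

lemma undr_undr (E : IntermediateField K L) (w : HeightOneSpectrum (𝓞 L)) :
    undr K (undr E w) = undr K w := by
  apply HeightOneSpectrum.ext
  exact Ideal.under_under (A := 𝓞 K) (B := 𝓞 E) w.asIdeal

lemma card_quot_eq_absNorm (v : HeightOneSpectrum (𝓞 K)) :
    Nat.card (𝓞 K ⧸ v.asIdeal) = Ideal.absNorm v.asIdeal := by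
  rw [Ideal.absNorm_apply]; rfl

lemma inertia_eq_bot_iff [IsGalois K L] (w : HeightOneSpectrum (𝓞 L)) :
    w.asIdeal.inertia Gal(L/K) = ⊥ ↔ w.asIdeal.ramificationIdx (𝓞 K) = 1 := by
  have := w.isPrime
  have := (undr K w).isPrime
  have h := Ideal.card_inertia_eq_ramificationIdxIn (G := Gal(L/K)) (undr K w).asIdeal w.asIdeal
  rw [Ideal.ramificationIdxIn_eq_ramificationIdx (undr K w).asIdeal w.asIdeal Gal(L/K)] at h
  rw [← h, Subgroup.card_eq_one]

/-- Every element of a finite field satisfying `x ^ q = x` for all `x` has at most `q` elements. -/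
lemma card_le_of_pow_eq {k : Type*} [Field k] [Finite k] {q : ℕ} (hq : 2 ≤ q)
    (h : ∀ x : k, x ^ q = x) : Nat.card k ≤ q := by
  have := Fintype.ofFinite k
  have h1 : ∀ x : kˣ, x ^ (q - 1) = 1 := by
    intro x
    have h2 := h x
    ext
    have h3 : (x : k) ^ (q - 1) * x = 1 * x := by
      rw [← pow_succ, one_mul, Nat.sub_add_cancel (by omega), h2]
    push_cast
    exact mul_right_cancel₀ x.ne_zero h3
  have h4 := (FiniteField.forall_pow_eq_one_iff k (q - 1)).mp h1
  have h5 := Nat.le_of_dvd (by omega) h4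
  rw [Nat.card_eq_fintype_card]
  omega

lemma undr_mem_spl_fixedField_iff [IsGalois K L] (H : Subgroup Gal(L/K)) [H.Normal]
    (w : HeightOneSpectrum (𝓞 L)) (hw : w.asIdeal.inertia Gal(L/K) = ⊥) (φ : Gal(L/K))
    (hφ : IsArithFrobAt (𝓞 K) φ w.asIdeal) :
    undr K w ∈ Spl K (IntermediateField.fixedField H) ↔ φ ∈ H := by
  set E := IntermediateField.fixedField H with hE
  have hGE : IsGalois K E := IsGalois.of_fixedField_normal_subgroup H
  set u := undr E w with hu
  have hw' := w.isPrime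
  have hu' := u.isPrime
  have huv : undr K u = undr K w := undr_undr E w
  rw [← huv, mem_spl_iff]
  have hLies : w.asIdeal.LiesOver u.asIdeal := ⟨rfl⟩
  have hiu : u.asIdeal.inertia Gal(E/K) = ⊥ := by
    rw [inertia_eq_bot_iff] at hw ⊢
    have := Ideal.ramificationIdx_below_dvd (R := 𝓞 K) u.asIdeal w.asIdeal
    rw [hw] at this
    exact Nat.dvd_one.mp this
  have hq : Nat.card (𝓞 K ⧸ w.asIdeal.under (𝓞 K)) = Ideal.absNorm (undr K w).asIdeal :=
    card_quot_eq_absNorm (undr K w)
  have hcomm : ∀ x : 𝓞 E, algebraMap (𝓞 E) (𝓞 L) (AlgEquiv.restrictNormalHom E φ • x) =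
      φ • algebraMap (𝓞 E) (𝓞 L) x := by
    intro x
    apply NumberField.RingOfIntegers.ext
    exact AlgEquiv.restrictNormal_commutes φ E (x : E)
  have hq2 : 2 ≤ Ideal.absNorm (undr K w).asIdeal := by
    exact_mod_cast two_le_absNorm (undr K w)
  constructor
  · rintro ⟨-, hf⟩
    have h1 : Ideal.absNorm u.asIdeal = Ideal.absNorm (undr K w).asIdeal := by
      rw [absNorm_eq_pow (K := K) u, hf, pow_one, huv]
    have h2 : AlgEquiv.restrictNormalHom E φ ∈ u.asIdeal.inertia Gal(E/K) := by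
      intro x
      have hmem : algebraMap (𝓞 E) (𝓞 L) (AlgEquiv.restrictNormalHom E φ • x - x) ∈ w.asIdeal := by
        rw [map_sub, hcomm]
        have h3 := hφ (algebraMap (𝓞 E) (𝓞 L) x)
        rw [hq] at h3
        have h4 : x ^ Ideal.absNorm (undr K w).asIdeal - x ∈ u.asIdeal := by
          have := u.isMaximal
          let _ := Ideal.Quotient.field u.asIdeal
          have hfin : Finite (𝓞 E ⧸ u.asIdeal) := by
            refine Nat.finite_of_card_ne_zero ?_
            rw [card_quot_eq_absNorm u, h1]; omega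
          have := Fintype.ofFinite (𝓞 E ⧸ u.asIdeal)
          rw [← Ideal.Quotient.eq_zero_iff_mem, map_sub, map_pow, ← h1, ← card_quot_eq_absNorm u,
            Nat.card_eq_fintype_card, FiniteField.pow_card, sub_self]
        have h5 : algebraMap (𝓞 E) (𝓞 L) (x ^ Ideal.absNorm (undr K w).asIdeal - x) ∈ w.asIdeal := h4
        rw [map_sub, map_pow] at h5
        have h6 := add_mem h3 h5
        simpa using h6
      exact hmem
    rw [hiu, Subgroup.mem_bot] at h2
    have h7 : φ ∈ E.fixingSubgroup := by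
      rw [IntermediateField.mem_fixingSubgroup_iff]
      intro x hx
      have h8 := AlgEquiv.restrictNormal_commutes φ E (⟨x, hx⟩ : E)
      have h9 : (AlgEquiv.restrictNormal φ E) = 1 := h2
      rw [h9] at h8
      exact h8.symm
    rwa [hE, IntermediateField.fixingSubgroup_fixedField] at h7
  · intro hφH
    refine ⟨hiu, ?_⟩
    have h1 : ∀ x : 𝓞 E, x ^ Ideal.absNorm (undr K w).asIdeal - x ∈ u.asIdeal := by
      intro x
      have h3 := hφ (algebraMap (𝓞 E) (𝓞 L) x)
      rw [hq] at h3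
      have h4 : φ • algebraMap (𝓞 E) (𝓞 L) x = algebraMap (𝓞 E) (𝓞 L) x := by
        apply NumberField.RingOfIntegers.ext
        exact (x : E).2 ⟨φ, hφH⟩
      have h5 : algebraMap (𝓞 E) (𝓞 L) (x ^ Ideal.absNorm (undr K w).asIdeal - x) ∈ w.asIdeal := by
        rw [map_sub, map_pow, ← neg_mem_iff, neg_sub]
        have h6 : algebraMap (𝓞 E) (𝓞 L) x - (algebraMap (𝓞 E) (𝓞 L) x) ^
          Ideal.absNorm (undr K w).asIdeal ∈ w.asIdeal := by
          change φ • algebraMap (𝓞 E) (𝓞 L) x - _ ∈ _ at h3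
          rwa [h4] at h3
        exact h6
      exact h5
    have := u.isMaximal
    let _ := Ideal.Quotient.field u.asIdeal
    have hu2 := two_le_absNorm u
    have hfin : Finite (𝓞 E ⧸ u.asIdeal) := by
      refine Nat.finite_of_card_ne_zero ?_
      rw [card_quot_eq_absNorm u]
      intro h0
      rw [h0] at hu2
      norm_num at hu2
    have h2 : Nat.card (𝓞 E ⧸ u.asIdeal) ≤ Ideal.absNorm (undr K w).asIdeal := by
      refine card_le_of_pow_eq hq2 fun x => ?_
      obtain ⟨x, rfl⟩ := Ideal.Quotient.mk_surjective x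
      rw [← map_pow, Ideal.Quotient.eq]
      exact h1 x
    rw [card_quot_eq_absNorm u, absNorm_eq_pow (K := K) u, huv] at h2
    have h3 := inertiaDeg_pos' (K := K) u
    by_contra hne
    have h4 : 2 ≤ u.asIdeal.inertiaDeg (𝓞 K) := by omega
    have h5 := Nat.pow_le_pow_right (show 0 < Ideal.absNorm (undr K w).asIdeal by omega) h4
    nlinarith

end Frob
section Cyclic
set_option linter.unusedSectionVars false
variable {K : Type*} [Field K] [NumberField K]

lemma pSum_dvd (U : Set (HeightOneSpectrum (𝓞 K))) (o : HeightOneSpectrum (𝓞 K) → ℕ) {k : ℕ}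
    (hk : k ≠ 0) {s : ℝ} (hs : 1 < s) :
    pSum {v | v ∈ U ∧ o v ∣ k} s = ∑ d ∈ k.divisors, pSum {v | v ∈ U ∧ o v = d} s := by
  simp only [pSum]
  rw [← Summable.tsum_finsetSum (fun d _ => summable_ind hs _)]
  refine tsum_congr fun v => ?_
  by_cases hv : v ∈ U ∧ o v ∣ k
  · rw [Set.indicator_of_mem (show v ∈ {v | v ∈ U ∧ o v ∣ k} from hv),
      Finset.sum_eq_single (o v)]
    · rw [Set.indicator_of_mem]
      exact ⟨hv.1, rfl⟩
    · intro d _ hd
      rw [Set.indicator_of_notMem]
      rintro ⟨-, h⟩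
      exact hd h.symm
    · intro h
      exact absurd (Nat.mem_divisors.mpr ⟨hv.2, hk⟩) h
  · rw [Set.indicator_of_notMem (show v ∉ {v | v ∈ U ∧ o v ∣ k} from hv)]
    symm
    refine Finset.sum_eq_zero fun d hd => ?_
    rw [Set.indicator_of_notMem]
    rintro ⟨h1, h2⟩
    exact hv ⟨h1, h2 ▸ (Nat.mem_divisors.mp hd).1⟩

lemma hasDens_order (U : Set (HeightOneSpectrum (𝓞 K))) (o : HeightOneSpectrum (𝓞 K) → ℕ) {n : ℕ}
    (hn : n ≠ 0) (h : ∀ k, k ∣ n → HasDens {v | v ∈ U ∧ o v ∣ k} (k / n)) :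
    ∀ k, k ∣ n → HasDens {v | v ∈ U ∧ o v = k} (k.totient / n) := by
  intro k
  induction k using Nat.strong_induction_on with
  | _ k ih =>
    intro hk
    have hk0 : k ≠ 0 := fun h0 => hn (by rw [h0] at hk; exact Nat.eq_zero_of_zero_dvd hk)
    have h1 : Tendsto (fun s : ℝ => ∑ d ∈ k.properDivisors,
        pSum {v | v ∈ U ∧ o v = d} s / Real.log (1 / (s - 1))) (𝓝[>] 1)
        (𝓝 (∑ d ∈ k.properDivisors, (d.totient : ℝ) / n)) := by
      refine tendsto_finsetSum _ fun d hd => ?_
      rw [Nat.mem_properDivisors] at hd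
      exact ih d hd.2 (hd.1.trans hk)
    have h2 := Filter.Tendsto.sub (h k hk) h1
    have h3 : (k : ℝ) / n - ∑ d ∈ k.properDivisors, (d.totient : ℝ) / n = k.totient / n := by
      have h4 := Nat.sum_totient k
      rw [← Nat.cons_self_properDivisors hk0, Finset.sum_cons] at h4
      rw [← Finset.sum_div, ← sub_div]
      congr 1
      rw [sub_eq_iff_eq_add]
      exact_mod_cast h4.symm
    rw [h3] at h2
    refine h2.congr' ?_
    filter_upwards [self_mem_nhdsWithin] with s hs
    rw [pSum_dvd U o hk0 hs, ← Nat.cons_self_properDivisors hk0, Finset.sum_cons,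
      ← Finset.sum_div, ← sub_div]
    congr 1
    ring

variable {L : Type*} [Field L] [NumberField L] [Algebra K L]

/-- In a cyclic extension, a positive proportion of the primes have a Frobenius element which
generates the Galois group. -/
theorem hasDens_generator [IsGalois K L] (γ : Gal(L/K)) (hγ : Subgroup.zpowers γ = ⊤) :
    ∃ (B : Set (HeightOneSpectrum (𝓞 K))) (d : ℝ), 0 < d ∧ HasDens B d ∧
      ∀ v ∈ B, ∃ w : HeightOneSpectrum (𝓞 L),
      undr K w = v ∧ w.asIdeal.inertia Gal(L/K) = ⊥ ∧ ∃ φ : Gal(L/K),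
        IsArithFrobAt (𝓞 K) φ w.asIdeal ∧ Subgroup.zpowers φ = ⊤ := by
  classical
  have hmem : ∀ x : Gal(L/K), x ∈ Subgroup.zpowers γ := fun x => by
    rw [hγ]; exact Subgroup.mem_top x
  have hex : ∀ v : HeightOneSpectrum (𝓞 K), ∃ w : HeightOneSpectrum (𝓞 L), undr K w = v := by
    intro v
    have := v.isMaximal
    obtain ⟨P⟩ := (inferInstance : Nonempty (v.asIdeal.primesOver (𝓞 L)))
    exact ⟨((fibreEquiv v).symm P).1, ((fibreEquiv v).symm P).2⟩
  choose w hw using hex
  have hfrob : ∀ v : HeightOneSpectrum (𝓞 K), ∃ φ : Gal(L/K),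
      IsArithFrobAt (𝓞 K) φ (w v).asIdeal := by
    intro v
    have := (w v).isPrime
    have : Finite (𝓞 L ⧸ (w v).asIdeal) := by
      refine Nat.finite_of_card_ne_zero ?_
      rw [card_quot_eq_absNorm (w v)]
      have := two_le_absNorm (w v)
      intro h0
      rw [h0] at this
      norm_num at this
    exact IsArithFrobAt.exists_of_isInvariant (𝓞 K) Gal(L/K) (w v).asIdeal
  choose φ hφ using hfrob
  let U : Set (HeightOneSpectrum (𝓞 K)) := {v | (w v).asIdeal.inertia Gal(L/K) = ⊥}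
  have hU : (Uᶜ).Finite := by
    refine Set.Finite.of_finite_image (f := w) ?_ ?_
    · refine (finite_inertia K L).subset ?_
      rintro _ ⟨v, hv, rfl⟩
      exact hv
    · intro v _ v' _ h
      have := congrArg (undr K) h
      rwa [hw, hw] at this
  set n := Nat.card Gal(L/K) with hn
  have hn0 : n ≠ 0 := Nat.card_pos.ne'
  have hdens : ∀ k, k ∣ n → HasDens {v | v ∈ U ∧ orderOf (φ v) ∣ k} (k / n) := by
    intro k hk
    obtain ⟨m, hm⟩ := hk
    have hm0 : m ≠ 0 := fun h => hn0 (by rw [hm, h, mul_zero])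
    have hk0 : k ≠ 0 := fun h => hn0 (by rw [hm, h, zero_mul])
    let H : Subgroup Gal(L/K) := Subgroup.zpowers (γ ^ m)
    have hcomm : ∀ a b : Gal(L/K), a * b = b * a := by
      intro a b
      obtain ⟨i, rfl⟩ := Subgroup.mem_zpowers_iff.mp (hmem a)
      obtain ⟨j, rfl⟩ := Subgroup.mem_zpowers_iff.mp (hmem b)
      rw [← zpow_add, ← zpow_add, add_comm]
    have hHn : H.Normal := ⟨fun a ha b => by rw [hcomm b a, mul_inv_cancel_right]; exact ha⟩
    have hord : orderOf γ = n := orderOf_eq_card_of_zpowers_eq_top hγ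
    have hHcard : Nat.card H = k := by
      rw [Nat.card_zpowers, orderOf_pow, hord, hm, Nat.gcd_eq_right (Dvd.intro_left k rfl)]
      exact Nat.mul_div_cancel _ (Nat.pos_of_ne_zero hm0)
    have hmemH : ∀ g : Gal(L/K), g ∈ H ↔ orderOf g ∣ k := by
      intro g
      constructor
      · intro hg
        rw [← hHcard]
        exact Subgroup.orderOf_dvd_natCard H hg
      · intro hg
        have hg' : g ∈ Subgroup.zpowers γ := by rw [hγ]; exact Subgroup.mem_top g
        obtain ⟨i, rfl⟩ := Subgroup.mem_zpowers_iff.mp hg'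
        rw [orderOf_dvd_iff_pow_eq_one, ← zpow_natCast, ← zpow_mul, ← orderOf_dvd_iff_zpow_eq_one,
          hord, hm] at hg
        push_cast at hg
        rw [mul_comm (k : ℤ) m] at hg
        have h2 : (m : ℤ) ∣ i := Int.dvd_of_mul_dvd_mul_right (by exact_mod_cast hk0) hg
        obtain ⟨j, rfl⟩ := h2
        rw [zpow_mul, zpow_natCast]
        exact Subgroup.zpow_mem_zpowers _ _
    have hGE : IsGalois K (IntermediateField.fixedField H) :=
      IsGalois.of_fixedField_normal_subgroup H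
    have hfin : Module.finrank K (IntermediateField.fixedField H) = m := by
      have h1 := Module.finrank_mul_finrank K (IntermediateField.fixedField H) L
      rw [IntermediateField.finrank_fixedField_eq_card, hHcard,
        ← IsGalois.card_aut_eq_finrank K L, ← hn, hm, mul_comm] at h1
      exact Nat.eq_of_mul_eq_mul_left (Nat.pos_of_ne_zero hk0) h1
    have h1 : HasDens (Spl K (IntermediateField.fixedField H)) (1 / m) := by
      have := hasDens_spl (K := K) (L := IntermediateField.fixedField H)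
      rwa [hfin] at this
    have h2 := h1.diff_zero (hasDens_finite hU)
    have h3 : Spl K (IntermediateField.fixedField H) \ Uᶜ =
        {v | v ∈ U ∧ orderOf (φ v) ∣ k} := by
      ext v
      simp only [Set.mem_sdiff, Set.mem_compl_iff, not_not, Set.mem_ofPred_eq]
      constructor
      · rintro ⟨h4, h5⟩
        refine ⟨h5, ?_⟩
        rw [← hmemH, ← undr_mem_spl_fixedField_iff H (w v) h5 (φ v) (hφ v), hw]
        exact h4
      · rintro ⟨h4, h5⟩
        refine ⟨?_, h4⟩
        rw [← hmemH, ← undr_mem_spl_fixedField_iff H (w v) h4 (φ v) (hφ v), hw] at h5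
        exact h5
    rw [h3] at h2
    have h4 : (1 : ℝ) / m = k / n := by
      rw [hm]; push_cast
      have : (m : ℝ) ≠ 0 := by exact_mod_cast hm0
      have : (k : ℝ) ≠ 0 := by exact_mod_cast hk0
      field_simp
    rwa [h4] at h2
  have hfinal := hasDens_order U (fun v => orderOf (φ v)) hn0 hdens n dvd_rfl
  refine ⟨_, _, ?_, hfinal, ?_⟩
  · have h1 : 0 < n.totient := Nat.totient_pos.mpr (Nat.pos_of_ne_zero hn0)
    have h2 : 0 < n := Nat.pos_of_ne_zero hn0
    positivity
  · rintro v ⟨hv1, hv2⟩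
    refine ⟨w v, hw v, hv1, φ v, hφ v, ?_⟩
    exact Subgroup.eq_top_of_card_eq _ (by rw [Nat.card_zpowers]; exact hv2)

end Cyclic
section FrobDensity
set_option linter.unusedSectionVars false
variable {F : Type*} [Field F] [NumberField F] {L : Type*} [Field L] [NumberField L] [Algebra F L]

/-- A weak form of the density theorem of Frobenius: every element of a Galois group is a power of
a Frobenius element at a prime outside a given finite set, unramified. -/
theorem exists_frob_zpowers [IsGalois F L] {S : Set (HeightOneSpectrum (𝓞 F))} (hS : S.Finite)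
    (γ : Gal(L/F)) : ∃ w : HeightOneSpectrum (𝓞 L), undr F w ∉ S ∧
      w.asIdeal.inertia Gal(L/F) = ⊥ ∧ ∃ φ : Gal(L/F),
        IsArithFrobAt (𝓞 F) φ w.asIdeal ∧ γ ∈ Subgroup.zpowers φ := by
  classical
  let K := IntermediateField.fixedField (Subgroup.zpowers γ)
  have hγfix : ∀ x : K, γ x = x := fun x => x.2 ⟨γ, Subgroup.mem_zpowers γ⟩
  let γ' : Gal(L/K) := AlgEquiv.ofRingEquiv (f := γ.toRingEquiv) (fun x => hγfix x)
  have hγ' : ∀ x : L, γ' x = γ x := fun x => rfl
  have hpow : ∀ (i : ℤ) (x : L), (γ' ^ i) x = (γ ^ i) x := by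
    have h1 : ∀ (i : ℕ) (x : L), (γ' ^ i) x = (γ ^ i) x := by
      intro i
      induction i with
      | zero => intro x; simp
      | succ i ih => intro x; rw [pow_succ, pow_succ, AlgEquiv.mul_apply, AlgEquiv.mul_apply, ih, hγ']
    intro i x
    obtain ⟨i, rfl | rfl⟩ := i.eq_nat_or_neg
    · rw [zpow_natCast, zpow_natCast, h1]
    · rw [zpow_neg, zpow_neg, zpow_natCast, zpow_natCast]
      apply (γ' ^ i).injective
      rw [← AlgEquiv.mul_apply, mul_inv_cancel, h1, ← AlgEquiv.mul_apply, mul_inv_cancel]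
      rfl
  have htop : Subgroup.zpowers γ' = ⊤ := by
    rw [eq_top_iff]
    intro τ _
    have h1 : (τ.restrictScalars F) ∈ K.fixingSubgroup := by
      rw [IntermediateField.mem_fixingSubgroup_iff]
      intro x hx
      exact τ.commutes ⟨x, hx⟩
    rw [IntermediateField.fixingSubgroup_fixedField] at h1
    obtain ⟨i, hi⟩ := Subgroup.mem_zpowers_iff.mp h1
    refine Subgroup.mem_zpowers_iff.mpr ⟨i, ?_⟩
    ext x
    rw [hpow, hi]
    rfl
  obtain ⟨B, d, hd, hB, hB2⟩ := hasDens_generator (K := K) (L := L) γ' htop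
  have h1 : HasDens {v : HeightOneSpectrum (𝓞 K) | 2 ≤ v.asIdeal.inertiaDeg (𝓞 F)} 0 :=
    hasDens_inertiaDeg_ge_two F
  have h2 : ((undr F (L := K)) ⁻¹' S).Finite := by
    refine hS.preimage' fun v _ => ?_
    have h3 : Finite {w : HeightOneSpectrum (𝓞 K) // undr F w = v} := finite_fibre v
    exact h3
  have h4 : ((undr K (L := L)) '' {w | w.asIdeal.inertia Gal(L/F) ≠ ⊥}).Finite :=
    (finite_inertia F L).image _
  have h5 := hB.diff_zero (h1.union_zero (hasDens_finite (h2.union h4)))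
  obtain ⟨v, hvB, hv⟩ := h5.nonempty hd.ne'
  simp only [Set.mem_union, not_or] at hv
  obtain ⟨hv1, hv2, hv3⟩ := hv
  obtain ⟨w, hwv, -, φ, hφ, hφtop⟩ := hB2 v hvB
  have hf : v.asIdeal.inertiaDeg (𝓞 F) = 1 := by
    have h6 := inertiaDeg_pos' (K := F) v
    have h7 : ¬ (2 ≤ v.asIdeal.inertiaDeg (𝓞 F)) := hv1
    omega
  have hund : undr F w = undr F v := by rw [← hwv, undr_undr]
  refine ⟨w, ?_, ?_, φ.restrictScalars F, ?_, ?_⟩
  · rw [hund]; exact hv2
  · by_contra h
    exact hv3 ⟨w, h, hwv⟩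
  · intro x
    have h8 := hφ x
    have h9 : Nat.card (𝓞 K ⧸ w.asIdeal.under (𝓞 K)) = Nat.card (𝓞 F ⧸ w.asIdeal.under (𝓞 F)) := by
      have h10 : Nat.card (𝓞 K ⧸ w.asIdeal.under (𝓞 K)) = Ideal.absNorm v.asIdeal := by
        rw [← card_quot_eq_absNorm, ← hwv]; rfl
      have h11 : Nat.card (𝓞 F ⧸ w.asIdeal.under (𝓞 F)) = Ideal.absNorm (undr F v).asIdeal := by
        rw [← card_quot_eq_absNorm, ← hund]; rfl
      rw [h10, h11, absNorm_eq_pow (K := F) v, hf, pow_one]
    rw [h9] at h8
    exact h8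
  · have h12 : γ' ∈ Subgroup.zpowers φ := by rw [hφtop]; exact Subgroup.mem_top _
    obtain ⟨i, hi⟩ := Subgroup.mem_zpowers_iff.mp h12
    refine Subgroup.mem_zpowers_iff.mpr ⟨i, ?_⟩
    have h13 : (φ ^ i).restrictScalars F = (φ.restrictScalars F) ^ i :=
      map_zpow (AlgEquiv.restrictScalarsHom F) φ i
    rw [← h13, hi]
    rfl

end FrobDensity

end Pool.Agent.Lib.MP_666dc0_nt
end

section

open Filter Topology NumberField IsDedekindDomain
open scoped NumberField BigOperators Pointwise nonZeroDivisors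

namespace Pool.Agent.Lib.MP_666dc0_nt
section Herm
set_option linter.unusedSectionVars false

/-- Divisibility of ideals can be tested on prime powers. -/
lemma dvd_of_forall_pow_dvd {R : Type*} [CommRing R] [IsDedekindDomain R] {I D : Ideal R}
    (hI : I ≠ ⊥) (hD : D ≠ ⊥)
    (h : ∀ (w : HeightOneSpectrum R) (j : ℕ), w.asIdeal ^ j ∣ I → w.asIdeal ^ j ∣ D) : I ∣ D := by
  classical
  rw [UniqueFactorizationMonoid.dvd_iff_normalizedFactors_le_normalizedFactors
    (by simpa using hI) (by simpa using hD), Multiset.le_iff_count]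
  intro P
  by_cases hP : P ∈ UniqueFactorizationMonoid.normalizedFactors I
  · have hprime : Prime P := UniqueFactorizationMonoid.prime_of_normalized_factor P hP
    have hPne : P ≠ ⊥ := hprime.ne_zero
    have hPp : P.IsPrime := Ideal.isPrime_of_prime hprime
    let w : HeightOneSpectrum R := ⟨P, hPp, hPne⟩
    have h1 : P ^ Multiset.count P (UniqueFactorizationMonoid.normalizedFactors I) ∣ I := by
      rw [UniqueFactorizationMonoid.dvd_iff_normalizedFactors_le_normalizedFactors
        (pow_ne_zero _ hprime.ne_zero) (by simpa using hI),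
        UniqueFactorizationMonoid.normalizedFactors_pow,
        UniqueFactorizationMonoid.normalizedFactors_irreducible hprime.irreducible, normalize_eq,
        Multiset.nsmul_singleton]
      rw [← Multiset.le_count_iff_replicate_le]
    have h3 := h w _ h1
    rw [UniqueFactorizationMonoid.dvd_iff_normalizedFactors_le_normalizedFactors
        (pow_ne_zero _ hprime.ne_zero) (by simpa using hD),
        UniqueFactorizationMonoid.normalizedFactors_pow,
        UniqueFactorizationMonoid.normalizedFactors_irreducible hprime.irreducible, normalize_eq,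
        Multiset.nsmul_singleton, ← Multiset.le_count_iff_replicate_le] at h3
    exact h3
  · rw [Multiset.count_eq_zero_of_notMem hP]
    exact Nat.zero_le _

variable {F : Type*} [Field F] [NumberField F] {K : Type*} [Field K] [NumberField K] [Algebra F K]

/-- `D` is contained in the integral ideal `I` iff the inverse of `I` has integral traces. -/
lemma differentIdeal_le_iff_trace {I : Ideal (𝓞 K)} (hI : I ≠ ⊥) :
    differentIdeal (𝓞 F) (𝓞 K) ≤ I ↔ ∀ x : K, (∀ y ∈ I, IsIntegral ℤ (x * (y : K))) →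
      IsIntegral ℤ (Algebra.trace F K x) := by
  have hI' : (I : FractionalIdeal (𝓞 K)⁰ K) ≠ 0 := by simpa using hI
  rw [differentialIdeal_le_iff (A := 𝓞 F) (K := F) (L := K) hI, Submodule.map_le_iff_le_comap]
  constructor
  · intro h x hx
    have h1 : x ∈ (((I⁻¹ : FractionalIdeal (𝓞 K)⁰ K) : Submodule (𝓞 K) K).restrictScalars (𝓞 F)) := by
      change x ∈ (I⁻¹ : FractionalIdeal (𝓞 K)⁰ K)
      rw [FractionalIdeal.mem_inv_iff hI']
      intro y hy
      obtain ⟨y, hy', rfl⟩ := (FractionalIdeal.mem_coeIdeal _).mp hy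
      rw [FractionalIdeal.mem_one_iff]
      exact ⟨⟨_, hx y hy'⟩, rfl⟩
    have h2 := h h1
    obtain ⟨z, hz⟩ := Submodule.mem_one.mp h2
    have h3 : Algebra.trace F K x = algebraMap (𝓞 F) F z := hz.symm
    rw [h3]
    exact z.isIntegral_coe
  · intro h x hx
    have hx' : x ∈ (I⁻¹ : FractionalIdeal (𝓞 K)⁰ K) := hx
    rw [FractionalIdeal.mem_inv_iff hI'] at hx'
    have h1 : ∀ y ∈ I, IsIntegral ℤ (x * (y : K)) := by
      intro y hy
      obtain ⟨z, hz⟩ := (FractionalIdeal.mem_one_iff _).mp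
        (hx' (algebraMap (𝓞 K) K y) (FractionalIdeal.mem_coeIdeal_of_mem _ hy))
      have h2 : x * (y : K) = algebraMap (𝓞 K) K z := hz.symm
      rw [h2]
      exact z.isIntegral_coe
    have h2 := h x h1
    change Algebra.trace F K x ∈ (1 : Submodule (𝓞 F) F)
    exact Submodule.mem_one.mpr ⟨⟨_, h2⟩, rfl⟩

end Herm
section Herm2
set_option linter.unusedSectionVars false

variable {F : Type*} [Field F] [NumberField F] {K : Type*} [Field K] [NumberField K] [Algebra F K]

lemma differentIdeal_ne_bot' : differentIdeal (𝓞 F) (𝓞 K) ≠ ⊥ := differentIdeal_ne_bot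

lemma smul_pow_dvd_differentIdeal (σ : Gal(K/F)) {P : Ideal (𝓞 K)} (hP : P ≠ ⊥) (k : ℕ)
    (h : P ^ k ∣ differentIdeal (𝓞 F) (𝓞 K)) :
    (σ • P) ^ k ∣ differentIdeal (𝓞 F) (𝓞 K) := by
  rw [← smul_pow'] 
  rw [Ideal.dvd_iff_le] at h ⊢
  have hPk : P ^ k ≠ ⊥ := pow_ne_zero k hP
  have hσPk : σ • (P ^ k) ≠ ⊥ := by
    intro h0
    apply hPk
    have := congrArg (fun I => σ⁻¹ • I) h0
    simpa using this
  rw [differentIdeal_le_iff_trace hPk] at h
  rw [differentIdeal_le_iff_trace hσPk]
  intro x hx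
  have h1 := h (σ.symm x) (fun y hy => by
    have h2 := hx (σ • y) (Ideal.smul_mem_pointwise_smul σ y _ hy)
    have h3 : IsIntegral ℤ (σ.symm (x * ((σ • y : 𝓞 K) : K))) := by
      have := IsIntegral.map (σ.symm.restrictScalars ℤ : K ≃ₐ[ℤ] K) h2
      exact this
    have h4 : σ.symm (x * ((σ • y : 𝓞 K) : K)) = σ.symm x * (y : K) := by
      rw [map_mul]
      congr 1
      exact σ.symm_apply_apply (y : K)
    rwa [h4] at h3)
  have h5 : Algebra.trace F K (σ.symm x) = Algebra.trace F K x :=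
    Algebra.trace_eq_of_algEquiv σ.symm x
  rwa [h5] at h1

/-- The key bound on the different of a Galois extension. -/
lemma dvd_of_pow_dvd_differentIdeal [IsGalois F K] (w : HeightOneSpectrum (𝓞 K)) (k : ℕ)
    (h : w.asIdeal ^ k ∣ differentIdeal (𝓞 F) (𝓞 K)) :
    w.asIdeal ^ k ∣ Ideal.map (algebraMap (𝓞 F) (𝓞 K))
      (Ideal.span {((Module.finrank F K : ℕ) : 𝓞 F)} * (undr F w).asIdeal) := by
  classical
  set v := undr F w with hv
  set D := differentIdeal (𝓞 F) (𝓞 K) with hD
  have hD0 : D ≠ ⊥ := differentIdeal_ne_bot'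
  have hinj := FaithfulSMul.algebraMap_injective (𝓞 F) (𝓞 K)
  have hn0 : ((Module.finrank F K : ℕ) : 𝓞 F) ≠ 0 := by
    exact_mod_cast (Module.finrank_pos (R := F) (M := K)).ne'
  -- if `v ^ c` divides `D` then `n ∈ v ^ c`
  have key : ∀ c : ℕ, Ideal.map (algebraMap (𝓞 F) (𝓞 K)) (v.asIdeal ^ c) ∣ D →
      ((Module.finrank F K : ℕ) : 𝓞 F) ∈ v.asIdeal ^ c := by
    intro c hc
    have hvc : v.asIdeal ^ c ≠ ⊥ := pow_ne_zero c v.ne_bot
    have hvc' : Ideal.map (algebraMap (𝓞 F) (𝓞 K)) (v.asIdeal ^ c) ≠ ⊥ := by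
      rwa [Ne, Ideal.map_eq_bot_iff_of_injective hinj]
    rw [Ideal.dvd_iff_le, differentIdeal_le_iff_trace hvc'] at hc
    have h1 : ∀ x : F, x ∈ ((v.asIdeal ^ c : Ideal (𝓞 F)) : FractionalIdeal (𝓞 F)⁰ F)⁻¹ →
        IsIntegral ℤ ((Module.finrank F K : F) * x) := by
      intro x hx
      rw [FractionalIdeal.mem_inv_iff (by simpa using hvc)] at hx
      have h2 := hc (algebraMap F K x) (fun y hy => by
        have hy' : y ∈ Submodule.span (𝓞 K) ((algebraMap (𝓞 F) (𝓞 K)) ''
          ((v.asIdeal ^ c : Ideal (𝓞 F)) : Set (𝓞 F))) := hy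
        induction hy' using Submodule.span_induction with
        | mem y hy1 =>
          obtain ⟨z, hz, rfl⟩ := hy1
          obtain ⟨t, ht⟩ := (FractionalIdeal.mem_one_iff _).mp
            (hx (algebraMap (𝓞 F) F z) (FractionalIdeal.mem_coeIdeal_of_mem _ hz))
          have h3 : algebraMap F K x * ((algebraMap (𝓞 F) (𝓞 K) z : 𝓞 K) : K) =
              algebraMap F K (t : F) := by
            have h4 : ((algebraMap (𝓞 F) (𝓞 K) z : 𝓞 K) : K) = algebraMap F K (z : F) := rfl
            rw [h4, ← map_mul]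
            congr 1
            exact ht.symm
          rw [h3]
          exact (IsIntegral.map (Algebra.ofId F K |>.restrictScalars ℤ) t.isIntegral_coe)
        | zero => simpa using isIntegral_zero
        | add a b ha1 hb1 ha hb =>
          push_cast
          rw [mul_add]
          exact (ha ha1).add (hb hb1)
        | smul a b hb1 hb =>
          have h5 : algebraMap F K x * ((a • b : 𝓞 K) : K) =
              (a : K) * (algebraMap F K x * (b : K)) := by
            rw [smul_eq_mul]; push_cast; ring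
          rw [h5]
          exact a.isIntegral_coe.mul (hb hb1))
      rwa [Algebra.trace_algebraMap, nsmul_eq_mul] at h2
    have h6 : (((Ideal.span {((Module.finrank F K : ℕ) : 𝓞 F)} : Ideal (𝓞 F)) :
        FractionalIdeal (𝓞 F)⁰ F)) * ((v.asIdeal ^ c : Ideal (𝓞 F)) : FractionalIdeal (𝓞 F)⁰ F)⁻¹ ≤ 1 := by
      rw [FractionalIdeal.coeIdeal_span_singleton, FractionalIdeal.mul_le]
      intro a ha b hb
      obtain ⟨t, rfl⟩ := (FractionalIdeal.mem_spanSingleton _).mp ha
      rw [FractionalIdeal.mem_one_iff]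
      have h7 := h1 b hb
      refine ⟨t * ⟨_, h7⟩, ?_⟩
      rw [map_mul, Algebra.smul_def]
      have h8 : algebraMap (𝓞 F) F ⟨(Module.finrank F K : F) * b, h7⟩ =
        (Module.finrank F K : F) * b := rfl
      rw [h8, map_natCast]
      ring
    have h9 : (((Ideal.span {((Module.finrank F K : ℕ) : 𝓞 F)} : Ideal (𝓞 F)) :
        FractionalIdeal (𝓞 F)⁰ F)) ≤ ((v.asIdeal ^ c : Ideal (𝓞 F)) : FractionalIdeal (𝓞 F)⁰ F) := by
      have h10 : ((v.asIdeal ^ c : Ideal (𝓞 F)) : FractionalIdeal (𝓞 F)⁰ F) ≠ 0 := by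
        simpa using hvc
      have h11 := mul_le_mul' (le_refl ((v.asIdeal ^ c : Ideal (𝓞 F)) :
        FractionalIdeal (𝓞 F)⁰ F)) h6
      rw [mul_left_comm, mul_inv_cancel₀ h10, mul_one, mul_one] at h11
      exact h11
    rw [FractionalIdeal.coeIdeal_le_coeIdeal] at h9
    exact h9 (Ideal.mem_span_singleton_self _)
  have hex : ∃ c : ℕ, ¬ Ideal.map (algebraMap (𝓞 F) (𝓞 K)) (v.asIdeal ^ (c + 1)) ∣ D := by
    have hfm : FiniteMultiplicity v.asIdeal (Ideal.span {((Module.finrank F K : ℕ) : 𝓞 F)}) := by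
      refine FiniteMultiplicity.of_not_isUnit ?_ ?_
      · rw [Ideal.isUnit_iff]; exact v.isPrime.ne_top
      · simpa using hn0
    obtain ⟨m, hm⟩ := hfm
    refine ⟨m, fun h1 => hm ?_⟩
    rw [Ideal.dvd_span_singleton]
    exact key _ h1
  let c := Nat.find hex
  have hc1 : ¬ Ideal.map (algebraMap (𝓞 F) (𝓞 K)) (v.asIdeal ^ (c + 1)) ∣ D := Nat.find_spec hex
  have hc2 : Ideal.map (algebraMap (𝓞 F) (𝓞 K)) (v.asIdeal ^ c) ∣ D := by
    rcases Nat.eq_zero_or_pos c with h0 | h0
    · rw [h0, pow_zero, Ideal.one_eq_top, Ideal.map_top, ← Ideal.one_eq_top]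
      exact one_dvd _
    · obtain ⟨c', hc'⟩ := Nat.exists_eq_succ_of_ne_zero h0.ne'
      have h1 := Nat.find_min hex (m := c') (by change c' < c; omega)
      rw [not_not] at h1
      rw [hc']
      exact h1
  have hn : v.asIdeal ^ c ∣ Ideal.span {((Module.finrank F K : ℕ) : 𝓞 F)} := by
    rw [Ideal.dvd_span_singleton]; exact key c hc2
  have hdvd : Ideal.map (algebraMap (𝓞 F) (𝓞 K)) (v.asIdeal ^ (c + 1)) ∣
      Ideal.map (algebraMap (𝓞 F) (𝓞 K))
        (Ideal.span {((Module.finrank F K : ℕ) : 𝓞 F)} * v.asIdeal) := by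
    rw [Ideal.dvd_iff_le]
    apply Ideal.map_mono
    rw [← Ideal.dvd_iff_le, pow_succ]
    exact mul_dvd_mul_right hn _
  by_contra hcon
  have hcon' : ¬ w.asIdeal ^ k ∣ Ideal.map (algebraMap (𝓞 F) (𝓞 K)) (v.asIdeal ^ (c + 1)) :=
    fun h1 => hcon (h1.trans hdvd)
  apply hc1
  have hvc : Ideal.map (algebraMap (𝓞 F) (𝓞 K)) (v.asIdeal ^ (c + 1)) ≠ ⊥ := by
    rw [Ne, Ideal.map_eq_bot_iff_of_injective hinj]
    exact pow_ne_zero _ v.ne_bot
  refine dvd_of_forall_pow_dvd hvc hD0 fun w' j hj => ?_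
  rcases Nat.eq_zero_or_pos j with h0 | h0
  · rw [h0, pow_zero]; exact one_dvd _
  have hw'v : undr F w' = v := by
    have h1 : w'.asIdeal ∣ Ideal.map (algebraMap (𝓞 F) (𝓞 K)) (v.asIdeal ^ (c + 1)) :=
      (dvd_pow_self _ h0.ne').trans hj
    rw [Ideal.dvd_iff_le, Ideal.map_le_iff_le_comap] at h1
    have h2 : v.asIdeal ≤ (undr F w').asIdeal := (undr F w').isPrime.le_of_pow_le h1
    apply HeightOneSpectrum.ext
    exact (v.isMaximal.eq_of_le (undr F w').isPrime.ne_top h2).symm
  have := w.isPrime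
  have := w'.isPrime
  have : w'.asIdeal.LiesOver v.asIdeal := ⟨(congrArg HeightOneSpectrum.asIdeal hw'v).symm⟩
  obtain ⟨σ, hσ⟩ := Ideal.exists_smul_eq_of_isGaloisGroup v.asIdeal w.asIdeal w'.asIdeal Gal(K/F)
  have hk : w'.asIdeal ^ k ∣ D := by
    rw [← hσ]; exact smul_pow_dvd_differentIdeal σ w.ne_bot k h
  have hjk : j ≤ k := by
    by_contra hlt
    push Not at hlt
    apply hcon'
    have h1 : w'.asIdeal ^ k ∣ Ideal.map (algebraMap (𝓞 F) (𝓞 K)) (v.asIdeal ^ (c + 1)) :=
      (pow_dvd_pow _ hlt.le).trans hj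
    rw [Ideal.dvd_iff_le, ← hσ, ← smul_pow'] at h1
    rw [Ideal.dvd_iff_le]
    intro x hx
    have h2 : σ • x ∈ Ideal.map (algebraMap (𝓞 F) (𝓞 K)) (v.asIdeal ^ (c + 1)) := by
      have h3 := Ideal.smul_mem_pointwise_smul σ x _ hx
      have h4 : σ • Ideal.map (algebraMap (𝓞 F) (𝓞 K)) (v.asIdeal ^ (c + 1)) =
          Ideal.map (algebraMap (𝓞 F) (𝓞 K)) (v.asIdeal ^ (c + 1)) := by
        rw [Ideal.pointwise_smul_def, Ideal.map_map]
        congr 1
        ext y
        exact smul_algebraMap σ y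
      rwa [h4] at h3
    have h5 := h1 h2
    exact (Ideal.smul_mem_pointwise_smul_iff).mp h5
  exact (pow_dvd_pow _ hjk).trans hk

end Herm2

section Herm3
set_option linter.unusedSectionVars false

variable {F : Type*} [Field F] [NumberField F]

lemma differentIdeal_dvd {K : Type*} [Field K] [NumberField K] [Algebra F K] [IsGalois F K]
    (S : Finset (HeightOneSpectrum (𝓞 F)))
    (hS : ∀ w : HeightOneSpectrum (𝓞 K), undr F w ∉ S → w.asIdeal.inertia Gal(K/F) = ⊥) :
    differentIdeal (𝓞 F) (𝓞 K) ∣ Ideal.map (algebraMap (𝓞 F) (𝓞 K))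
      (Ideal.span {((Module.finrank F K : ℕ) : 𝓞 F)} * ∏ v ∈ S, v.asIdeal) := by
  classical
  have hinj := FaithfulSMul.algebraMap_injective (𝓞 F) (𝓞 K)
  have hn0 : ((Module.finrank F K : ℕ) : 𝓞 F) ≠ 0 := by
    exact_mod_cast (Module.finrank_pos (R := F) (M := K)).ne'
  have hprod : Ideal.span {((Module.finrank F K : ℕ) : 𝓞 F)} * ∏ v ∈ S, v.asIdeal ≠ ⊥ := by
    apply mul_ne_zero
    · simpa using hn0
    · rw [Finset.prod_ne_zero_iff]
      exact fun v _ => v.ne_bot
  refine dvd_of_forall_pow_dvd differentIdeal_ne_bot' ?_ fun w j hj => ?_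
  · rwa [Ne, Ideal.map_eq_bot_iff_of_injective hinj]
  rcases Nat.eq_zero_or_pos j with h0 | h0
  · rw [h0, pow_zero]; exact one_dvd _
  have h1 : w.asIdeal ∣ differentIdeal (𝓞 F) (𝓞 K) := (dvd_pow_self _ h0.ne').trans hj
  have hw := w.isPrime
  rw [dvd_differentIdeal_iff] at h1
  have h2 : undr F w ∈ S := by
    by_contra h3
    have h4 := hS w h3
    rw [inertia_eq_bot_iff] at h4
    have hper : PerfectField (w.asIdeal.under (𝓞 F)).ResidueField := by
      have : (w.asIdeal.under (𝓞 F)).IsPrime := inferInstance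
      infer_instance
    exact h1 (Ideal.ramificationIdx_eq_one_iff.mp h4)
  refine (dvd_of_pow_dvd_differentIdeal w j hj).trans ?_
  rw [Ideal.dvd_iff_le]
  apply Ideal.map_mono
  rw [← Ideal.dvd_iff_le]
  exact mul_dvd_mul_left _ (Finset.dvd_prod_of_mem _ h2)

/-- A bound for the discriminant of Galois extensions of bounded degree and ramification. -/
lemma discr_le {K : Type*} [Field K] [NumberField K] [Algebra F K] [IsGalois F K]
    (S : Finset (HeightOneSpectrum (𝓞 F))) (N : ℕ)
    (hS : ∀ w : HeightOneSpectrum (𝓞 K), undr F w ∉ S → w.asIdeal.inertia Gal(K/F) = ⊥)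
    (hN : Module.finrank F K ≤ N) :
    |discr K| ≤ ((Ideal.absNorm (Ideal.span {((N.factorial : ℕ) : 𝓞 F)} * ∏ v ∈ S, v.asIdeal) ^ N *
      (discr F).natAbs ^ N : ℕ) : ℤ) := by
  classical
  have hinj := FaithfulSMul.algebraMap_injective (𝓞 F) (𝓞 K)
  have h1 : (discr K).natAbs = Ideal.absNorm (differentIdeal (𝓞 F) (𝓞 K)) *
      (discr F).natAbs ^ Module.finrank F K :=
    natAbs_discr_eq_absNorm_differentIdeal_mul_natAbs_discr_pow F (𝓞 F) K (𝓞 K)
  have hpos : 0 < Module.finrank F K := Module.finrank_pos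
  have h2 : differentIdeal (𝓞 F) (𝓞 K) ∣ Ideal.map (algebraMap (𝓞 F) (𝓞 K))
      (Ideal.span {((N.factorial : ℕ) : 𝓞 F)} * ∏ v ∈ S, v.asIdeal) := by
    refine (differentIdeal_dvd S hS).trans ?_
    rw [Ideal.dvd_iff_le]
    apply Ideal.map_mono
    rw [← Ideal.dvd_iff_le]
    refine mul_dvd_mul_right ?_ _
    rw [Ideal.dvd_iff_le, Ideal.span_singleton_le_span_singleton]
    exact Nat.cast_dvd_cast (Nat.dvd_factorial hpos hN)
  have h0 : Ideal.span {((N.factorial : ℕ) : 𝓞 F)} * ∏ v ∈ S, v.asIdeal ≠ ⊥ := by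
    apply mul_ne_zero
    · simp [Nat.factorial_ne_zero]
    · rw [Finset.prod_ne_zero_iff]
      exact fun v _ => v.ne_bot
  have h3 : Ideal.absNorm (differentIdeal (𝓞 F) (𝓞 K)) ≤
      Ideal.absNorm (Ideal.span {((N.factorial : ℕ) : 𝓞 F)} * ∏ v ∈ S, v.asIdeal) ^ N := by
    have h4 : Ideal.absNorm (differentIdeal (𝓞 F) (𝓞 K)) ∣
        Ideal.absNorm (Ideal.map (algebraMap (𝓞 F) (𝓞 K))
          (Ideal.span {((N.factorial : ℕ) : 𝓞 F)} * ∏ v ∈ S, v.asIdeal)) :=
      Ideal.absNorm_dvd_absNorm_of_le (Ideal.dvd_iff_le.mp h2)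
    rw [Ideal.absNorm_algebraMap] at h4
    have h5 : 0 < Ideal.absNorm (Ideal.span {((N.factorial : ℕ) : 𝓞 F)} * ∏ v ∈ S, v.asIdeal) := by
      rw [Nat.pos_iff_ne_zero, Ne, Ideal.absNorm_eq_zero_iff]
      exact h0
    refine (Nat.le_of_dvd (pow_pos h5 _) h4).trans ?_
    refine Nat.pow_le_pow_right h5 ?_
    convert hN using 1
    exact (IsFractionRing.finrank_eq (𝓞 F) F (𝓞 K) K).symm
  rw [Int.abs_eq_natAbs, h1]
  have h6 : 0 < (discr F).natAbs := Int.natAbs_pos.mpr (discr_ne_zero F)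
  exact_mod_cast Nat.mul_le_mul h3 (Nat.pow_le_pow_right h6 hN)

variable (F) in
/-- Hermite: finitely many Galois extensions of bounded degree unramified outside `S`. -/
theorem finite_galois_of_bounded (S : Finset (HeightOneSpectrum (𝓞 F))) (N : ℕ)
    (A : Type*) [Field A] [CharZero A] [Algebra F A] :
    {K : IntermediateField F A | ∃ _ : FiniteDimensional F K, ∃ _ : IsGalois F K,
      haveI : NumberField K := NumberField.of_module_finite F K
      Module.finrank F K ≤ N ∧
      ∀ w : HeightOneSpectrum (𝓞 K), undr F w ∉ S → w.asIdeal.inertia Gal(K/F) = ⊥}.Finite := by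
  classical
  let B : ℕ := Ideal.absNorm (Ideal.span {((N.factorial : ℕ) : 𝓞 F)} * ∏ v ∈ S, v.asIdeal) ^ N *
      (discr F).natAbs ^ N
  have hfin := NumberField.finite_of_discr_bdd A B
  have hfin2 : (Subtype.val '' {K : { F : IntermediateField ℚ A // FiniteDimensional ℚ F} |
      haveI :  NumberField K := @NumberField.mk _ _ inferInstance K.prop
      |discr K| ≤ B }).Finite := hfin.image _
  refine Set.Finite.of_finite_image (f := fun K : IntermediateField F A => K.restrictScalars ℚ)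
    (hfin2.subset ?_) (fun K _ K' _ h => IntermediateField.restrictScalars_injective ℚ h)
  rintro _ ⟨K, ⟨hK1, hK2, hK3, hK4⟩, rfl⟩
  have hNF : NumberField K := NumberField.of_module_finite F K
  have h1 := discr_le (F := F) (K := K) S N hK4 hK3
  have hfd : FiniteDimensional ℚ (K.restrictScalars ℚ) := by
    have : FiniteDimensional ℚ K := inferInstance
    exact this
  refine ⟨⟨K.restrictScalars ℚ, hfd⟩, ?_, rfl⟩
  exact h1

end Herm3
end Pool.Agent.Lib.MP_666dc0_nt
end
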