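import Mathlib
import Pool.Agent.Lib.MP_666dc0_nt.Mg.G017
import Pool.Agent.Lib.MP_666dc0_nt.Mg.G018
import Pool.Agent.Lib.MP_666dc0_nt.Mg.G052
import Pool.Agent.Lib.MP_666dc0_nt.Defs

section

open MvPolynomial

namespace Pool.Agent.Lib.MP_666dc0_nt.IG

private theorem B1b_sum {σ : Type} (w : σ → ℕ) (p : MvPolynomial σ ℚ) :
    ∑ e ∈ p.support.image (fun m => Finsupp.weight w m), weightedHomogeneousComponent w e p = p := by
  classical
  have h := sum_weightedHomogeneousComponent w p
  rw [finsum_eq_sum_of_support_subset (s := p.support.image (fun m => Finsupp.weight w m))] at h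
  · exact h
  · intro e he
    by_contra hcon
    apply he
    refine weightedHomogeneousComponent_eq_zero' e p fun m hm h1 => hcon ?_
    rw [Finset.coe_image]
    exact ⟨m, hm, h1⟩

private theorem B1b_comp_mul {σ : Type} (w : σ → ℕ) (h q : MvPolynomial σ ℚ) (e d : ℕ)
    (hq : IsWeightedHomogeneous w q e) :
    weightedHomogeneousComponent w d (h * q) =
      if e ≤ d then weightedHomogeneousComponent w (d - e) h * q else 0 := by
  classical
  conv_lhs => rw [← B1b_sum w h]
  rw [Finset.sum_mul, map_sum]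
  have ht : ∀ k, weightedHomogeneousComponent w d (weightedHomogeneousComponent w k h * q) =
      if k + e = d then weightedHomogeneousComponent w k h * q else 0 := by
    intro k
    have hm : IsWeightedHomogeneous w (weightedHomogeneousComponent w k h * q) (k + e) :=
      (weightedHomogeneousComponent_isWeightedHomogeneous k h).mul hq
    split_ifs with hk
    · subst hk
      exact hm.weightedHomogeneousComponent_same
    · exact hm.weightedHomogeneousComponent_ne d (Ne.symm hk)
  simp only [ht]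
  split_ifs with hed
  · rw [Finset.sum_eq_single (d - e)]
    · rw [if_pos (by omega)]
    · intro k _ hk
      rw [if_neg (by omega)]
    · intro hnot
      rw [if_pos (by omega), weightedHomogeneousComponent_eq_zero', zero_mul]
      intro m hm h1
      exact hnot (Finset.mem_image.2 ⟨m, hm, h1⟩)
  · exact Finset.sum_eq_zero fun k _ => if_neg (by omega)

private theorem B1b_finite (n : ℕ) (s : Shape) [s.Small] : Finite (s.Ix n) := by
  have : Finite (Σ b : s.β, s.C b × (Fin (s.p b) → Fin n) × (Fin (s.q b) → Fin n)) :=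
    inferInstance
  exact this

/-- B1b.1. Hilbert's finiteness theorem (statement as in Iface.lean).

PROOF. `P = MvPolynomial (s.Ix n) ℚ` is Noetherian (`s.Ix n` is finite). Let `w = 1`, `S₊` = the set of
invariants `p` which are homogeneous (weighted with `w = 1`) of some degree `> 0`; the ideal
`span S₊` is finitely generated by a finite subset `Q ⊂ S₊`
(`Submodule.fg_span_iff_fg_span_finset_subset` or similar). Claim: every homogeneous invariant `p` of
degree `d` is in `adjoin ℚ Q`; strong induction on `d`. `d = 0`: `p` is a constant. `d > 0`: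
`p ∈ span S₊ = span Q`, `p = ∑_{q ∈ Q} h_q q`; taking the component of degree `d`,
`p = ∑_{q ∈ Q} h'_q q` with `h'_q` the component of degree `d - deg q` of `h_q` (`0` if `deg q > d`)
(for `q = 0` nothing matters). Apply `Rey` (`Rey_eq'`, `Rey_add'`, `Rey_inv_mul'`):
`p = ∑ q * Rey h'_q`, where `Rey h'_q` is an invariant (`Rey_isInv'`), homogeneous of degree
`d - deg q < d` (`Rey_whom'`), so in `adjoin ℚ Q`. A general invariant is the sum of its homogeneous
components, which are invariants (`IsInv_comp`). -/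
theorem hilbert_finite' {n : ℕ} (G : Red n) (s : Shape) [s.Small] :
    ∃ Q : Finset (MvPolynomial (s.Ix n) ℚ), (∀ p ∈ Q, IsInv G p) ∧
      ∀ p : MvPolynomial (s.Ix n) ℚ, IsInv G p → p ∈ Algebra.adjoin ℚ (Q : Set _) := by
  classical
  haveI := B1b_finite n s
  let W : s.Ix n → ℕ := fun x => (fun _ : s.β => 1) x.1
  let Sp : Set (MvPolynomial (s.Ix n) ℚ) :=
    {p | IsInv G p ∧ ∃ d, 0 < d ∧ IsWeightedHomogeneous W p d}
  obtain ⟨Q, hQ1, hQ2⟩ := (Submodule.fg_span_iff_fg_span_finset_subset Sp).1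
    (IsNoetherian.noetherian (Ideal.span Sp))
  refine ⟨Q, fun p hp => (hQ1 hp).1, ?_⟩
  have he : ∀ q : MvPolynomial (s.Ix n) ℚ, ∃ e, q ∈ Q → 0 < e ∧ IsWeightedHomogeneous W q e := by
    intro q
    by_cases hq : q ∈ Q
    · obtain ⟨e, he1, he2⟩ := (hQ1 hq).2
      exact ⟨e, fun _ => ⟨he1, he2⟩⟩
    · exact ⟨0, fun h => absurd h hq⟩
  choose e he using he
  let RH : MvPolynomial (s.Ix n) ℚ →+ MvPolynomial (s.Ix n) ℚ :=
    AddMonoidHom.mk' (Rey G) (Rey_add' G)
  have hd : ∀ d : ℕ, ∀ p : MvPolynomial (s.Ix n) ℚ, IsInv G p → IsWeightedHomogeneous W p d →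
      p ∈ Algebra.adjoin ℚ (Q : Set (MvPolynomial (s.Ix n) ℚ)) := by
    intro d
    induction d using Nat.strong_induction_on with
    | _ d ih =>
      intro p hp hpd
      rcases Nat.eq_zero_or_pos d with h0 | hpos
      · subst h0
        have h1 : p.totalDegree = 0 := by
          have h2 : IsHomogeneous p 0 := hpd
          exact Nat.le_zero.1 h2.totalDegree_le
        rw [totalDegree_eq_zero_iff_eq_C] at h1
        rw [h1]
        exact Subalgebra.algebraMap_mem _ _
      · have hmem : p ∈ Submodule.span (MvPolynomial (s.Ix n) ℚ)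
            (Q : Set (MvPolynomial (s.Ix n) ℚ)) := by
          rw [← hQ2]
          exact Submodule.subset_span ⟨hp, d, hpos, hpd⟩
        obtain ⟨h, -, hh⟩ := Submodule.mem_span_finset.1 hmem
        have hh2 : p = ∑ q ∈ Q, (if e q ≤ d then weightedHomogeneousComponent W (d - e q) (h q)
            else 0) * q := by
          conv_lhs => rw [← hpd.weightedHomogeneousComponent_same, ← hh, map_sum]
          refine Finset.sum_congr rfl fun q hq => ?_
          rw [smul_eq_mul, B1b_comp_mul W (h q) q (e q) d (he q hq).2]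
          split_ifs
          · rfl
          · rw [zero_mul]
        have hh3 : p = ∑ q ∈ Q, q * Rey G
            (if e q ≤ d then weightedHomogeneousComponent W (d - e q) (h q) else 0) := by
          have h4 : RH p = p := Rey_eq' G p hp
          conv_lhs => rw [← h4, hh2, map_sum]
          refine Finset.sum_congr rfl fun q hq => ?_
          rw [mul_comm]
          exact Rey_inv_mul' G q _ (hQ1 hq).1
        rw [hh3]
        refine Subalgebra.sum_mem _ fun q hq => Subalgebra.mul_mem _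
          (Algebra.subset_adjoin hq) ?_
        refine ih (d - e q) (by have := (he q hq).1; omega) _ (Rey_isInv' G _) ?_
        refine Rey_whom' G (fun _ => 1) _ (d - e q) ?_
        split_ifs
        · exact weightedHomogeneousComponent_isWeightedHomogeneous _ _
        · exact isWeightedHomogeneous_zero _ _ _
  intro p hp
  rw [← B1b_sum W p]
  refine Subalgebra.sum_mem _ fun k _ => hd k _ ?_
    (weightedHomogeneousComponent_isWeightedHomogeneous _ _)
  exact IsInv_comp G (fun _ => 1) p hp k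

/-- B1b.2. Homogeneous generators. PROOF. Replace each generator `q` of `hilbert_finite'` by its
(finitely many nonzero) `w`-homogeneous components, invariant by `IsInv_comp`; `q` is their sum. -/
theorem hilbert_homogeneous {n : ℕ} (G : Red n) (s : Shape) [s.Small] (w : s.β → ℕ) :
    ∃ Q : Finset (MvPolynomial (s.Ix n) ℚ),
      (∀ p ∈ Q, IsInv G p ∧ ∃ d, IsWeightedHomogeneous (fun x : s.Ix n => w x.1) p d) ∧
      ∀ p : MvPolynomial (s.Ix n) ℚ, IsInv G p → p ∈ Algebra.adjoin ℚ (Q : Set _) := by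
  classical
  obtain ⟨Q, hQ1, hQ2⟩ := hilbert_finite' G s
  let W : s.Ix n → ℕ := fun x => w x.1
  refine ⟨Q.biUnion fun q => (q.support.image (fun m => Finsupp.weight W m)).image
    (fun e => weightedHomogeneousComponent W e q), ?_, ?_⟩
  · intro p hp
    obtain ⟨q, hq, hp⟩ := Finset.mem_biUnion.1 hp
    obtain ⟨e, -, rfl⟩ := Finset.mem_image.1 hp
    exact ⟨IsInv_comp G w q (hQ1 q hq) e, e, weightedHomogeneousComponent_isWeightedHomogeneous e q⟩
  · intro p hp
    refine Algebra.adjoin_le ?_ (hQ2 p hp)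
    intro q hq
    have h1 := B1b_sum W q
    rw [SetLike.mem_coe, ← h1]
    refine Subalgebra.sum_mem _ fun e he => Algebra.subset_adjoin ?_
    rw [Finset.mem_coe, Finset.mem_biUnion]
    exact ⟨q, hq, Finset.mem_image_of_mem _ he⟩

end Pool.Agent.Lib.MP_666dc0_nt.IG
end

section

open MvPolynomial

namespace Pool.Agent.Lib.MP_666dc0_nt.IG

/-- Part B1. Hilbert's finiteness theorem. -/
theorem hilbert_finite {n : ℕ} (G : Red n) (s : Shape) [s.Small] :
    ∃ Q : Finset (MvPolynomial (s.Ix n) ℚ), (∀ p ∈ Q, IsInv G p) ∧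
      ∀ p : MvPolynomial (s.Ix n) ℚ, IsInv G p → p ∈ Algebra.adjoin ℚ (Q : Set _) := by
  exact hilbert_finite' G s
end Pool.Agent.Lib.MP_666dc0_nt.IG
end

section

open NumberField IsDedekindDomain Topology
open scoped NumberField Pointwise

namespace Pool.Agent.Lib.MP_666dc0_nt
section Inert

variable {A : Type*} [Field A]

lemma smulCommInt (K : Type*) [Field K] [Algebra K A] :
    SMulCommClass Gal(A/K) (𝓞 K) (𝓞 A) := by
  refine ⟨fun g r s => ?_⟩
  apply RingOfIntegers.ext
  rw [Algebra.smul_def, Algebra.smul_def, smul_mul']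
  congr 2
  apply RingOfIntegers.ext
  change g (algebraMap K A (r : K)) = algebraMap K A (r : K)
  exact g.commutes _

lemma isInvariantInt (K : Type*) [Field K] [Algebra K A] [IsGalois K A] :
    Algebra.IsInvariant (𝓞 K) (𝓞 A) Gal(A/K) := by
  refine ⟨fun b hb => ?_⟩
  have h1 : ∀ f : Gal(A/K), f (b : A) = b := fun f => by
    have := congrArg (algebraMap (𝓞 A) A) (hb f)
    exact this
  rw [← InfiniteGalois.mem_range_algebraMap_iff_fixed] at h1
  obtain ⟨a, ha⟩ := h1
  have h2 : IsIntegral ℤ a := by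
    have : IsIntegral ℤ (algebraMap K A a) := by
      rw [ha]; exact b.2
    exact (isIntegral_algebraMap_iff (algebraMap K A).injective).mp this
  refine ⟨⟨a, h2⟩, ?_⟩
  apply RingOfIntegers.ext
  exact ha

lemma continuousSMul_int (K : Type*) [Field K] [Algebra K A] [IsGalois K A] :
    letI : TopologicalSpace (𝓞 A) := ⊥
    ContinuousSMul Gal(A/K) (𝓞 A) := by
  let : TopologicalSpace (𝓞 A) := ⊥
  have : DiscreteTopology (𝓞 A) := ⟨rfl⟩
  refine ⟨?_⟩
  rw [continuous_prod_of_discrete_right]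
  intro x
  refine continuous_def.mpr fun s _ => ?_
  rw [isOpen_iff_mem_nhds]
  intro g hg
  have h1 := stabilizer_isOpen_of_isIntegral (K := K) (L := A) (x : A)
  have h2 : IsOpen (g • (MulAction.stabilizer Gal(A/K) (x : A) : Set Gal(A/K))) := h1.smul g
  refine Filter.mem_of_superset (h2.mem_nhds ?_) ?_
  · rw [Set.mem_smul_set]
    exact ⟨1, one_mem _, by simp⟩
  · intro g' hg'
    rw [Set.mem_smul_set] at hg'
    obtain ⟨u, hu, rfl⟩ := hg'
    have h3 : u • x = x := by
      apply RingOfIntegers.ext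
      exact hu
    simpa [mul_smul, h3] using hg

lemma isIntegralInt (K : Type*) [Field K] [Algebra K A] : Algebra.IsIntegral (𝓞 K) (𝓞 A) := by
  have h : Algebra.IsIntegral ℤ (𝓞 A) := inferInstance
  exact Algebra.IsIntegral.tower_top (R := ℤ)

lemma exists_smul_eq_of_under (K : Type*) [Field K] [Algebra K A] [IsGalois K A]
    (P Q : Ideal (𝓞 A)) [P.IsPrime] [Q.IsPrime]
    (hPQ : P.under (𝓞 K) = Q.under (𝓞 K)) : ∃ g : Gal(A/K), Q = g • P := by
  have := isInvariantInt (A := A) K
  have := smulCommInt (A := A) K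
  let : TopologicalSpace (𝓞 A) := ⊥
  have : DiscreteTopology (𝓞 A) := ⟨rfl⟩
  have := continuousSMul_int (A := A) K
  exact Algebra.IsInvariant.exists_smul_of_under_eq_of_profinite P Q hPQ

/-- Lifting an automorphism of the residue field. -/
lemma exists_lift_residue (K : Type*) [Field K] [Algebra K A] [IsGalois K A]
    (P : Ideal (𝓞 A)) [P.IsPrime] (e : 𝓞 A ≃+* 𝓞 A) (he : P.map e = P)
    (hK : ∀ x : 𝓞 K, e (algebraMap (𝓞 K) (𝓞 A) x) - algebraMap (𝓞 K) (𝓞 A) x ∈ P) :
    ∃ g : Gal(A/K), ∀ x : 𝓞 A, g • x - e x ∈ P := by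
  have := isInvariantInt (A := A) K
  have := smulCommInt (A := A) K
  let : TopologicalSpace (𝓞 A) := ⊥
  have : DiscreteTopology (𝓞 A) := ⟨rfl⟩
  have := continuousSMul_int (A := A) K
  let σ : (𝓞 A ⧸ P) ≃ₐ[𝓞 K ⧸ P.under (𝓞 K)] (𝓞 A ⧸ P) :=
    { Ideal.quotientEquiv P P e he.symm with
      commutes' := by
        rintro ⟨x⟩
        change Ideal.quotientEquiv P P e he.symm (Ideal.Quotient.mk P (algebraMap (𝓞 K) (𝓞 A) x)) =
          Ideal.Quotient.mk P (algebraMap (𝓞 K) (𝓞 A) x)
        rw [Ideal.quotientEquiv_mk, Ideal.Quotient.eq]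
        exact hK x }
  obtain ⟨g, hg⟩ := Ideal.Quotient.stabilizerHom_surjective_of_profinite (G := Gal(A/K))
    (P.under (𝓞 K)) P σ
  refine ⟨g, fun x => ?_⟩
  have h1 := DFunLike.congr_fun hg (Ideal.Quotient.mk P x)
  rw [← Ideal.Quotient.eq]
  exact h1


variable {F : Type*} [Field F] [Algebra F A]

lemma algebraMap_restrict_smul (K : IntermediateField F A) [Normal F K] (g : Gal(A/F)) (x : 𝓞 K) :
    g • (algebraMap (𝓞 K) (𝓞 A) x) =
      algebraMap (𝓞 K) (𝓞 A) (AlgEquiv.restrictNormalHom K g • x) := by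
  apply RingOfIntegers.ext
  change g (algebraMap K A (x : K)) = algebraMap K A ((AlgEquiv.restrictNormalHom K g) (x : K))
  exact (AlgEquiv.restrictNormal_commutes g K (x : K)).symm

lemma mem_smul_ideal {G : Type*} [Group G] {B : Type*} [CommRing B] [MulSemiringAction G B]
    (P : Ideal B) (g : G) (x : B) : x ∈ g • P ↔ g⁻¹ • x ∈ P :=
  Ideal.mem_pointwise_smul_iff_inv_smul_mem

/-- The inertia group of a prime of the infinite extension surjects onto the inertia group at
finite level. -/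
theorem exists_inertia_lift [IsGalois F A] (K : IntermediateField F A) [IsGalois F K]
    (P : Ideal (𝓞 A)) [P.IsPrime] (τ : Gal(K/F)) (hτ : ∀ x : 𝓞 K, τ • x - x ∈ P.under (𝓞 K)) :
    ∃ g : Gal(A/F), (∀ x : 𝓞 A, g • x - x ∈ P) ∧ AlgEquiv.restrictNormalHom K g = τ := by
  obtain ⟨t, ht⟩ := AlgEquiv.restrictNormalHom_surjective (F := F) (K₁ := K) A τ
  have hstab : ∀ x : 𝓞 K, τ⁻¹ • x - x ∈ P.under (𝓞 K) := fun x => by
    have := hτ (τ⁻¹ • x)
    rw [smul_inv_smul] at this
    have h2 := neg_mem this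
    rwa [neg_sub] at h2
  have h1 : (t • P).under (𝓞 K) = P.under (𝓞 K) := by
    ext x
    change algebraMap (𝓞 K) (𝓞 A) x ∈ t • P ↔ algebraMap (𝓞 K) (𝓞 A) x ∈ P
    rw [mem_smul_ideal, algebraMap_restrict_smul, map_inv, ht]
    have h2 := hstab x
    change algebraMap (𝓞 K) (𝓞 A) (τ⁻¹ • x - x) ∈ P at h2
    rw [map_sub] at h2
    constructor
    · intro h3
      have := sub_mem h3 h2
      simpa using this
    · intro h3
      have := add_mem h2 h3
      simpa using this
  have hprime : (t • P).IsPrime := by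
    rw [Ideal.pointwise_smul_eq_comap]; infer_instance
  obtain ⟨ρ, hρ⟩ := exists_smul_eq_of_under (K : Type _) (t • P) P h1
  let ρ' : Gal(A/F) := ρ.restrictScalars F
  have hρ'K : AlgEquiv.restrictNormalHom K ρ' = 1 := by
    ext x
    have h2 : algebraMap K A ((AlgEquiv.restrictNormalHom K ρ') x) = ρ' (algebraMap K A x) :=
      AlgEquiv.restrictNormal_commutes ρ' K x
    have h3 : ρ' (algebraMap K A x) = algebraMap K A x := ρ.commutes x
    rw [h3] at h2
    simpa using h2
  let t' : Gal(A/F) := ρ' * t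
  have hsm : ∀ x : 𝓞 A, ρ' • x = ρ • x := fun x => rfl
  have ht'P : ∀ x : 𝓞 A, t' • x ∈ P ↔ x ∈ P := by
    intro x
    have h2 : (ρ * 1) • (t • x) ∈ P ↔ x ∈ P := by
      conv_lhs => rw [hρ]
      rw [mem_smul_ideal, mul_one, inv_smul_smul, mem_smul_ideal, inv_smul_smul]
    rw [mul_one] at h2
    rw [← h2]
    change (ρ' * t) • x ∈ P ↔ _
    rw [mul_smul, hsm]
  let e : 𝓞 A ≃+* 𝓞 A := MulSemiringAction.toRingEquiv Gal(A/F) (𝓞 A) t'
  have he : P.map e = P := by
    rw [← Ideal.comap_symm]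
    ext x
    rw [Ideal.mem_comap]
    change t'⁻¹ • x ∈ P ↔ _
    rw [← ht'P, smul_inv_smul]
  have hK : ∀ x : 𝓞 K, e (algebraMap (𝓞 K) (𝓞 A) x) - algebraMap (𝓞 K) (𝓞 A) x ∈ P := by
    intro x
    change t' • (algebraMap (𝓞 K) (𝓞 A) x) - _ ∈ P
    rw [algebraMap_restrict_smul]
    have h2 : AlgEquiv.restrictNormalHom K t' = τ := by
      rw [map_mul, hρ'K, one_mul, ht]
    rw [h2, ← map_sub]
    exact hτ x
  obtain ⟨g, hg⟩ := exists_lift_residue (K : Type _) P e he hK
  let g' : Gal(A/F) := g.restrictScalars F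
  have hg'K : AlgEquiv.restrictNormalHom K g' = 1 := by
    ext x
    have h2 : algebraMap K A ((AlgEquiv.restrictNormalHom K g') x) = g' (algebraMap K A x) :=
      AlgEquiv.restrictNormal_commutes g' K x
    have h3 : g' (algebraMap K A x) = algebraMap K A x := g.commutes x
    rw [h3] at h2
    simpa using h2
  have hsm' : ∀ x : 𝓞 A, g' • x = g • x := fun x => rfl
  refine ⟨g'⁻¹ * t', fun x => ?_, ?_⟩
  · have h2 := hg ((g'⁻¹ * t') • x)
    have h3 := hg x
    -- use stability of `P` under `g'`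
    have h4 : ∀ y : 𝓞 A, y ∈ P → g'⁻¹ • y ∈ P := by
      intro y hy
      have h5 := hg (g'⁻¹ • y)
      rw [← hsm', smul_inv_smul] at h5
      have h6 : e (g'⁻¹ • y) ∈ P := by
        have := sub_mem hy h5
        simpa using this
      exact (ht'P _).mp h6
    have h7 := h4 _ h3
    rw [smul_sub, ← hsm', inv_smul_smul] at h7
    rw [mul_smul]
    have h8 := neg_mem h7
    rw [neg_sub] at h8
    exact h8
  · rw [map_mul, map_inv, hg'K, inv_one, one_mul, map_mul, hρ'K, one_mul, ht]


lemma frob_conj [NumberField F] [IsGalois F A] (K : IntermediateField F A) [FiniteDimensional F K]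
    [IsGalois F K] [NumberField K] (w : HeightOneSpectrum (𝓞 K))
    (hw : w.asIdeal.inertia Gal(K/F) = ⊥) (φw : Gal(K/F)) (hφw : IsArithFrobAt (𝓞 F) φw w.asIdeal)
    (P : Ideal (𝓞 A)) (hP : IsOver (undr F w) P) (φ : Gal(A/F)) (hφ : IsFrob (undr F w) P φ) :
    ∃ δ : Gal(A/F), AlgEquiv.restrictNormalHom K (δ * φ * δ⁻¹) = φw := by
  have hPp : P.IsPrime := hP.1
  have hwp := w.isPrime
  have h1 : (P.under (𝓞 K)).under (𝓞 F) = w.asIdeal.under (𝓞 F) := by
    rw [Ideal.under_under]
    exact hP.2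
  have := isInvariantInt (A := K) F
  obtain ⟨g, hg⟩ := Algebra.IsInvariant.exists_smul_of_under_eq (𝓞 F) (𝓞 K) Gal(K/F)
    (P.under (𝓞 K)) w.asIdeal h1
  obtain ⟨δ, hδ⟩ := AlgEquiv.restrictNormalHom_surjective (F := F) (K₁ := K) A g
  refine ⟨δ, ?_⟩
  have h2 : IsArithFrobAt (𝓞 F) (AlgEquiv.restrictNormalHom K φ) (P.under (𝓞 K)) := by
    intro x
    change algebraMap (𝓞 K) (𝓞 A) (AlgEquiv.restrictNormalHom K φ • x -
      x ^ Nat.card (𝓞 F ⧸ (P.under (𝓞 K)).under (𝓞 F))) ∈ P
    rw [map_sub, ← algebraMap_restrict_smul, map_pow, h1]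
    exact hφ _
  have h3 := h2.conj g
  rw [← hg] at h3
  have h4 := h3.mul_inv_mem_inertia hφw
  rw [hw, Subgroup.mem_bot, mul_inv_eq_one] at h4
  rw [map_mul, map_mul, map_inv, hδ, h4]


lemma exists_finset_frob_field [NumberField F] [IsGalois F A] (S : Finset (HeightOneSpectrum (𝓞 F)))
    (K : IntermediateField F A) [FiniteDimensional F K] [IsGalois F K] :
    ∃ T : Finset (HeightOneSpectrum (𝓞 F)), (∀ v ∈ T, v ∉ S) ∧ ∀ τ : Gal(K/F), ∃ v ∈ T,
      ∀ (P : Ideal (𝓞 A)) (φ : Gal(A/F)), IsOver v P → IsFrob v P φ →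
        ∃ δ : Gal(A/F), ∃ k : ℕ, AlgEquiv.restrictNormalHom K (δ * φ ^ k * δ⁻¹) = τ := by
  classical
  have : NumberField K := NumberField.of_module_finite F K
  have h : ∀ τ : Gal(K/F), ∃ v : HeightOneSpectrum (𝓞 F), v ∉ S ∧
      ∀ (P : Ideal (𝓞 A)) (φ : Gal(A/F)), IsOver v P → IsFrob v P φ →
        ∃ δ : Gal(A/F), ∃ k : ℕ, AlgEquiv.restrictNormalHom K (δ * φ ^ k * δ⁻¹) = τ := by
    intro τ
    obtain ⟨w, hw1, hw2, φw, hφw, hτ⟩ := exists_frob_zpowers (F := F) (L := K) S.finite_toSet τ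
    refine ⟨undr F w, by simpa using hw1, fun P φ hP hφ => ?_⟩
    obtain ⟨δ, hδ⟩ := frob_conj K w hw2 φw hφw P hP φ hφ
    rw [← mem_powers_iff_mem_zpowers] at hτ
    obtain ⟨k, hk⟩ := hτ
    refine ⟨δ, k, ?_⟩
    have h1 : δ * φ ^ k * δ⁻¹ = (δ * φ * δ⁻¹) ^ k := by rw [conj_pow]
    rw [h1, map_pow, hδ]
    exact hk
  choose v hv1 hv2 using h
  refine ⟨Finset.univ.image v, ?_, fun τ => ⟨v τ, Finset.mem_image_of_mem _ (Finset.mem_univ _), hv2 τ⟩⟩
  intro v' hv'
  rw [Finset.mem_image] at hv'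
  obtain ⟨τ, _, rfl⟩ := hv'
  exact hv1 τ

/-- Uniform finite sets of Frobenius elements for open normal subgroups of bounded index. -/
theorem exists_finset_frob [NumberField F] [CharZero A] [IsGalois F A]
    (S : Finset (HeightOneSpectrum (𝓞 F))) (M : ℕ) :
    ∃ T : Finset (HeightOneSpectrum (𝓞 F)), (∀ v ∈ T, v ∉ S) ∧ ∀ U : Subgroup Gal(A/F),
      U.Normal → IsOpen (U : Set Gal(A/F)) → U.index ≤ M →
      (∀ v, v ∉ S → ∀ P : Ideal (𝓞 A), IsOver v P → ∀ u : Gal(A/F),
        (∀ x : 𝓞 A, u • x - x ∈ P) → u ∈ U) →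
      ∀ γ : Gal(A/F), ∃ v ∈ T, ∀ (P : Ideal (𝓞 A)) (φ : Gal(A/F)), IsOver v P → IsFrob v P φ →
        ∃ δ : Gal(A/F), ∃ k : ℕ, γ⁻¹ * (δ * φ ^ k * δ⁻¹) ∈ U := by
  classical
  have hfin := finite_galois_of_bounded F S M A
  have hT : ∀ K : IntermediateField F A, ∃ T : Finset (HeightOneSpectrum (𝓞 F)),
      (∀ v ∈ T, v ∉ S) ∧ ∀ (_ : FiniteDimensional F K) (_ : IsGalois F K), ∀ τ : Gal(K/F), ∃ v ∈ T,
      ∀ (P : Ideal (𝓞 A)) (φ : Gal(A/F)), IsOver v P → IsFrob v P φ →
        ∃ δ : Gal(A/F), ∃ k : ℕ, AlgEquiv.restrictNormalHom K (δ * φ ^ k * δ⁻¹) = τ := by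
    intro K
    by_cases h1 : FiniteDimensional F K
    · by_cases h2 : IsGalois F K
      · obtain ⟨T, hT1, hT2⟩ := exists_finset_frob_field S K
        exact ⟨T, hT1, fun _ _ => hT2⟩
      · exact ⟨∅, by simp, fun _ h3 => absurd h3 h2⟩
    · exact ⟨∅, by simp, fun h3 => absurd h3 h1⟩
  choose T hT1 hT2 using hT
  refine ⟨hfin.toFinset.biUnion T, ?_, ?_⟩
  · intro v hv
    rw [Finset.mem_biUnion] at hv
    obtain ⟨K, _, hK⟩ := hv
    exact hT1 K v hK
  · intro U hUn hUo hUi hUr γ
    have hUc : IsClosed (U : Set Gal(A/F)) := Subgroup.isClosed_of_isOpen U hUo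
    let Uc : ClosedSubgroup Gal(A/F) := ⟨U, hUc⟩
    let K : IntermediateField F A := IntermediateField.fixedField U
    have hKU : K.fixingSubgroup = U := InfiniteGalois.fixingSubgroup_fixedField Uc
    have hfd : FiniteDimensional F K := by
      rw [← InfiniteGalois.isOpen_iff_finite]
      rw [hKU]; exact hUo
    have hgal : IsGalois F K := by
      rw [← InfiniteGalois.normal_iff_isGalois]
      rw [hKU]; exact hUn
    have hker : (AlgEquiv.restrictNormalHom (F := F) (K₁ := A) K).ker = U := by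
      rw [IntermediateField.restrictNormalHom_ker, hKU]
    have hmem : K ∈ hfin.toFinset := by
      rw [Set.Finite.mem_toFinset]
      refine ⟨hfd, hgal, ?_, ?_⟩
      · have h1 : Nat.card Gal(K/F) = Module.finrank F K := IsGalois.card_aut_eq_finrank F K
        rw [← h1]
        have h2 : U.index = Nat.card Gal(K/F) := by
          rw [← hker, Subgroup.index_ker,
            MonoidHom.range_eq_top.mpr (AlgEquiv.restrictNormalHom_surjective A)]
          exact Nat.card_congr Subgroup.topEquiv.toEquiv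
        rw [← h2]; exact hUi
      · intro w hw
        have : NumberField K := NumberField.of_module_finite F K
        rw [eq_bot_iff]
        intro τ hτ
        have hint := isIntegralInt (A := A) K
        obtain ⟨P, -, hP1, hP2⟩ := Ideal.exists_ideal_over_prime_of_isIntegral
          (R := 𝓞 K) (S := 𝓞 A) w.asIdeal ⊥ (by
            rw [← RingHom.ker_eq_comap_bot, (RingHom.injective_iff_ker_eq_bot _).mp
              (RingOfIntegers.algebraMap.injective K A)]
            exact bot_le)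
        have hover : IsOver (undr F w) P := by
          refine ⟨hP1, ?_⟩
          change P.under (𝓞 F) = w.asIdeal.under (𝓞 F)
          rw [← hP2]
          exact (Ideal.under_under P (B := 𝓞 K)).symm
        obtain ⟨g, hg1, hg2⟩ := exists_inertia_lift K P τ (fun x => by
          change _ ∈ P.comap (algebraMap (𝓞 K) (𝓞 A))
          rw [hP2]; exact hτ x)
        have hgU : g ∈ U := hUr _ hw P hover g hg1
        rw [← hker, MonoidHom.mem_ker, hg2] at hgU
        rw [hgU]; exact one_mem _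
    obtain ⟨v, hv1, hv2⟩ := hT2 K hfd hgal (AlgEquiv.restrictNormalHom K γ)
    refine ⟨v, Finset.mem_biUnion.mpr ⟨K, hmem, hv1⟩, fun P φ hP hφ => ?_⟩
    obtain ⟨δ, k, hδ⟩ := hv2 P φ hP hφ
    refine ⟨δ, k, ?_⟩
    rw [← hker, MonoidHom.mem_ker, map_mul, map_inv, hδ, inv_mul_cancel]

end Inert
end Pool.Agent.Lib.MP_666dc0_nt
end

section

open NumberField IsDedekindDomain Topology
open scoped NumberField Pointwise

namespace Pool.Agent.Lib.MP_666dc0_nt

section FrobDensity
set_option linter.unusedSectionVars false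
variable {F : Type*} [Field F] [NumberField F] {L : Type*} [Field L] [NumberField L] [Algebra F L]

/-- A weak form of the density theorem of Frobenius: every cyclic subgroup of a Galois group is
generated by a Frobenius element at a prime outside a given finite set, unramified. -/
theorem exists_frob_zpowers_eq [IsGalois F L] {S : Set (HeightOneSpectrum (𝓞 F))} (hS : S.Finite)
    (γ : Gal(L/F)) : ∃ w : HeightOneSpectrum (𝓞 L), undr F w ∉ S ∧
      w.asIdeal.inertia Gal(L/F) = ⊥ ∧ ∃ φ : Gal(L/F),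
        IsArithFrobAt (𝓞 F) φ w.asIdeal ∧ γ ∈ Subgroup.zpowers φ ∧ φ ∈ Subgroup.zpowers γ := by
  classical
  let K := IntermediateField.fixedField (Subgroup.zpowers γ)
  have hγfix : ∀ x : K, γ x = x := fun x => x.2 ⟨γ, Subgroup.mem_zpowers γ⟩
  let γ' : Gal(L/K) := AlgEquiv.ofRingEquiv (f := γ.toRingEquiv) (fun x => hγfix x)
  have hγ' : ∀ x : L, γ' x = γ x := fun x => rfl
  have hpow : ∀ (i : ℤ) (x : L), (γ' ^ i) x = (γ ^ i) x := by
    have h1 : ∀ (i : ℕ) (x : L), (γ' ^ i) x = (γ ^ i) x := by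
      intro i
      induction i with
      | zero => intro x; simp
      | succ i ih => intro x; rw [pow_succ, pow_succ, AlgEquiv.mul_apply, AlgEquiv.mul_apply, ih, hγ']
    intro i x
    obtain ⟨i, rfl | rfl⟩ := i.eq_nat_or_neg
    · rw [zpow_natCast, zpow_natCast, h1]
    · rw [zpow_neg, zpow_neg, zpow_natCast, zpow_natCast]
      apply (γ' ^ i).injective
      rw [← AlgEquiv.mul_apply, mul_inv_cancel, h1, ← AlgEquiv.mul_apply, mul_inv_cancel]
      rfl
  have hfixed : ∀ τ : Gal(L/K), τ.restrictScalars F ∈ Subgroup.zpowers γ := by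
    intro τ
    have h1 : (τ.restrictScalars F) ∈ K.fixingSubgroup := by
      rw [IntermediateField.mem_fixingSubgroup_iff]
      intro x hx
      exact τ.commutes ⟨x, hx⟩
    rwa [IntermediateField.fixingSubgroup_fixedField] at h1
  have htop : Subgroup.zpowers γ' = ⊤ := by
    rw [eq_top_iff]
    intro τ _
    obtain ⟨i, hi⟩ := Subgroup.mem_zpowers_iff.mp (hfixed τ)
    refine Subgroup.mem_zpowers_iff.mpr ⟨i, ?_⟩
    ext x
    rw [hpow, hi]
    rfl
  obtain ⟨B, d, hd, hB, hB2⟩ := hasDens_generator (K := K) (L := L) γ' htop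
  have h1 : HasDens {v : HeightOneSpectrum (𝓞 K) | 2 ≤ v.asIdeal.inertiaDeg (𝓞 F)} 0 :=
    hasDens_inertiaDeg_ge_two F
  have h2 : ((undr F (L := K)) ⁻¹' S).Finite := by
    refine hS.preimage' fun v _ => ?_
    have h3 : Finite {w : HeightOneSpectrum (𝓞 K) // undr F w = v} := finite_fibre v
    exact h3
  have h4 : ((undr K (L := L)) '' {w | w.asIdeal.inertia Gal(L/F) ≠ ⊥}).Finite :=
    (finite_inertia F L).image _
  have h5 := hB.diff_zero (h1.union_zero (hasDens_finite (h2.union h4)))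
  obtain ⟨v, hvB, hv⟩ := h5.nonempty hd.ne'
  simp only [Set.mem_union, not_or] at hv
  obtain ⟨hv1, hv2, hv3⟩ := hv
  obtain ⟨w, hwv, -, φ, hφ, hφtop⟩ := hB2 v hvB
  have hf : v.asIdeal.inertiaDeg (𝓞 F) = 1 := by
    have h6 := inertiaDeg_pos' (K := F) v
    have h7 : ¬ (2 ≤ v.asIdeal.inertiaDeg (𝓞 F)) := hv1
    omega
  have hund : undr F w = undr F v := by rw [← hwv, undr_undr]
  refine ⟨w, ?_, ?_, φ.restrictScalars F, ?_, ?_, hfixed φ⟩
  · rw [hund]; exact hv2
  · by_contra h
    exact hv3 ⟨w, h, hwv⟩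
  · intro x
    have h8 := hφ x
    have h9 : Nat.card (𝓞 K ⧸ w.asIdeal.under (𝓞 K)) = Nat.card (𝓞 F ⧸ w.asIdeal.under (𝓞 F)) := by
      have h10 : Nat.card (𝓞 K ⧸ w.asIdeal.under (𝓞 K)) = Ideal.absNorm v.asIdeal := by
        rw [← card_quot_eq_absNorm, ← hwv]; rfl
      have h11 : Nat.card (𝓞 F ⧸ w.asIdeal.under (𝓞 F)) = Ideal.absNorm (undr F v).asIdeal := by
        rw [← card_quot_eq_absNorm, ← hund]; rfl
      rw [h10, h11, absNorm_eq_pow (K := F) v, hf, pow_one]
    rw [h9] at h8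
    exact h8
  · have h12 : γ' ∈ Subgroup.zpowers φ := by rw [hφtop]; exact Subgroup.mem_top _
    obtain ⟨i, hi⟩ := Subgroup.mem_zpowers_iff.mp h12
    refine Subgroup.mem_zpowers_iff.mpr ⟨i, ?_⟩
    have h13 : (φ ^ i).restrictScalars F = (φ.restrictScalars F) ^ i :=
      map_zpow (AlgEquiv.restrictScalarsHom F) φ i
    rw [← h13, hi]
    rfl

/-- At an unramified prime the decomposition group is generated by a Frobenius element. -/
lemma mem_zpowers_of_smul_eq [IsGalois F L] (w : HeightOneSpectrum (𝓞 L))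
    (hw : w.asIdeal.inertia Gal(L/F) = ⊥) (φ : Gal(L/F)) (hφ : IsArithFrobAt (𝓞 F) φ w.asIdeal)
    (g : Gal(L/F)) (hg : g • w.asIdeal = w.asIdeal) : g ∈ Subgroup.zpowers φ := by
  have hwp := w.isPrime
  have hvp := (undr F w).isPrime
  have h1 : Nat.card (MulAction.stabilizer Gal(L/F) w.asIdeal) = w.asIdeal.inertiaDeg (𝓞 F) := by
    rw [Ideal.card_stabilizer_eq_card_inertia_mul_finrank (undr F w).asIdeal w.asIdeal, hw,
      Subgroup.card_bot, one_mul]
  have hle : Subgroup.zpowers φ ≤ MulAction.stabilizer Gal(L/F) w.asIdeal := by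
    rw [Subgroup.zpowers_le]
    exact hφ.mem_stabilizer
  set q := Ideal.absNorm (undr F w).asIdeal with hq
  have hq2 : 2 ≤ q := by
    have := two_le_absNorm (undr F w)
    exact_mod_cast this
  have hNq : Nat.card (𝓞 F ⧸ w.asIdeal.under (𝓞 F)) = q := by
    rw [hq, ← card_quot_eq_absNorm]; rfl
  -- the action of powers of `φ` on the residue field
  have hpow : ∀ (j : ℕ) (x : 𝓞 L), (φ ^ j) • x - x ^ q ^ j ∈ w.asIdeal := by
    intro j
    induction j with
    | zero => intro x; simp
    | succ j ih =>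
      intro x
      have h2 := hφ ((φ ^ j) • x)
      rw [hNq] at h2
      have h3 : ((φ ^ j) • x) ^ q - (x ^ q ^ j) ^ q ∈ w.asIdeal := by
        rw [← Ideal.Quotient.eq, map_pow, map_pow]
        congr 1
        rw [Ideal.Quotient.eq]
        exact ih x
      have h4 := add_mem h2 h3
      have h5 : (MulSemiringAction.toAlgHom (𝓞 F) (𝓞 L) φ) ((φ ^ j) • x) = (φ ^ (j + 1)) • x := by
        rw [pow_succ', mul_smul]; rfl
      rw [h5, ← pow_mul, ← pow_succ] at h4
      simpa using h4
  have hord : w.asIdeal.inertiaDeg (𝓞 F) ≤ Nat.card (Subgroup.zpowers φ) := by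
    rw [Nat.card_zpowers]
    set j := orderOf φ with hj
    have hj0 : 0 < j := orderOf_pos φ
    have hmax : w.asIdeal.IsMaximal := w.isMaximal
    let : Field (𝓞 L ⧸ w.asIdeal) := Ideal.Quotient.field w.asIdeal
    have hfin : Finite (𝓞 L ⧸ w.asIdeal) := by
      refine Nat.finite_of_card_ne_zero ?_
      rw [card_quot_eq_absNorm w]
      have := two_le_absNorm w
      intro h0
      rw [h0] at this
      norm_num at this
    have h2 : Nat.card (𝓞 L ⧸ w.asIdeal) ≤ q ^ j := by
      refine card_le_of_pow_eq ?_ ?_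
      · calc 2 ≤ q := hq2
          _ = q ^ 1 := (pow_one q).symm
          _ ≤ q ^ j := Nat.pow_le_pow_right (by omega) hj0
      · intro x
        obtain ⟨x, rfl⟩ := Ideal.Quotient.mk_surjective x
        rw [← map_pow, Ideal.Quotient.eq]
        have h3 := hpow j x
        rw [hj, pow_orderOf_eq_one, one_smul] at h3
        have h4 := neg_mem h3
        rwa [neg_sub] at h4
    rw [card_quot_eq_absNorm, absNorm_eq_pow (K := F)] at h2
    exact (Nat.pow_le_pow_iff_right (by omega)).mp h2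
  have heq : Subgroup.zpowers φ = MulAction.stabilizer Gal(L/F) w.asIdeal :=
    Subgroup.eq_of_le_of_card_ge hle (by rw [h1]; exact hord)
  rw [heq]
  exact hg

end FrobDensity

section Split

variable {A : Type*} [Field A] [CharZero A] {F : Type*} [Field F] [NumberField F] [Algebra F A]
  [IsGalois F A]

lemma exists_prime_over (K : IntermediateField F A) [NumberField K] (w : HeightOneSpectrum (𝓞 K)) :
    ∃ P : Ideal (𝓞 A), P.IsPrime ∧ P.comap (algebraMap (𝓞 K) (𝓞 A)) = w.asIdeal := by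
  have hwp := w.isPrime
  have hint := isIntegralInt (A := A) K
  obtain ⟨P, -, hP1, hP2⟩ := Ideal.exists_ideal_over_prime_of_isIntegral
    (R := 𝓞 K) (S := 𝓞 A) w.asIdeal ⊥ (by
      rw [← RingHom.ker_eq_comap_bot, (RingHom.injective_iff_ker_eq_bot _).mp
        (RingOfIntegers.algebraMap.injective K A)]
      exact bot_le)
  exact ⟨P, hP1, hP2⟩

/-- Density of Frobenius elements at primes whose decomposition group lies in `V`. -/
theorem exists_split_frob (V : Subgroup Gal(A/F)) (hV : IsOpen (V : Set Gal(A/F)))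
    (U : Subgroup Gal(A/F)) (hU : IsOpen (U : Set Gal(A/F)))
    (S : Set (HeightOneSpectrum (𝓞 F))) (hS : S.Finite) (γ : Gal(A/F)) (hγ : γ ∈ V) :
    ∃ v, v ∉ S ∧ ∃ P : Ideal (𝓞 A), IsOver v P ∧ (∀ g : Gal(A/F), g • P = P → g ∈ V) ∧
      ∀ σ : Gal(A/F), (IsFrob v P σ ∨ IsFrob v P σ⁻¹) → ∃ k : ℕ, γ⁻¹ * σ ^ k ∈ U := by
  classical
  let W : Subgroup Gal(A/F) := V ⊓ U
  have hWo : IsOpen (W : Set Gal(A/F)) := hV.inter hU
  have hcompact : CompactSpace Gal(A/F) := inferInstance
  have hWfin : W.FiniteIndex := by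
    have := Subgroup.quotient_finite_of_isOpen W hWo
    exact Subgroup.finiteIndex_of_finite_quotient (H := W)
  let U₀ : Subgroup Gal(A/F) := W.normalCore
  have hU₀n : U₀.Normal := Subgroup.normalCore_normal W
  have hU₀c : IsClosed (U₀ : Set Gal(A/F)) :=
    Subgroup.normalCore_isClosed W (Subgroup.isClosed_of_isOpen W hWo)
  have hU₀o : IsOpen (U₀ : Set Gal(A/F)) := Subgroup.isOpen_of_isClosed_of_finiteIndex U₀ hU₀c
  have hU₀V : U₀ ≤ V := (Subgroup.normalCore_le W).trans inf_le_left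
  have hU₀U : U₀ ≤ U := (Subgroup.normalCore_le W).trans inf_le_right
  let Uc : ClosedSubgroup Gal(A/F) := ⟨U₀, hU₀c⟩
  let K : IntermediateField F A := IntermediateField.fixedField U₀
  have hKU : K.fixingSubgroup = U₀ := InfiniteGalois.fixingSubgroup_fixedField Uc
  have hfd : FiniteDimensional F K := by
    rw [← InfiniteGalois.isOpen_iff_finite, hKU]; exact hU₀o
  have hgal : IsGalois F K := by
    rw [← InfiniteGalois.normal_iff_isGalois, hKU]; exact hU₀n
  have hnf : NumberField K := NumberField.of_module_finite F K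
  have hker : (AlgEquiv.restrictNormalHom (F := F) (K₁ := A) K).ker = U₀ := by
    rw [IntermediateField.restrictNormalHom_ker, hKU]
  set τ := AlgEquiv.restrictNormalHom K γ with hτ
  obtain ⟨w, hw1, hw2, φw, hφw, hτ1, hτ2⟩ := exists_frob_zpowers_eq (F := F) (L := K) hS τ
  obtain ⟨P, hP1, hP2⟩ := exists_prime_over K w
  have hunder : P.under (𝓞 K) = w.asIdeal := hP2
  have hover : IsOver (undr F w) P := by
    refine ⟨hP1, ?_⟩
    change P.under (𝓞 F) = w.asIdeal.under (𝓞 F)
    rw [← hP2]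
    exact (Ideal.under_under P (B := 𝓞 K)).symm
  have hres : ∀ g : Gal(A/F), AlgEquiv.restrictNormalHom K g = 1 → g ∈ U₀ := fun g hg => by
    rw [← hker]; exact hg
  refine ⟨undr F w, hw1, P, hover, ?_, ?_⟩
  · intro g hg
    have h1 : (AlgEquiv.restrictNormalHom K g) • w.asIdeal = w.asIdeal := by
      ext x
      rw [mem_smul_ideal, ← hunder]
      change algebraMap (𝓞 K) (𝓞 A) ((AlgEquiv.restrictNormalHom K g)⁻¹ • x) ∈ P ↔
        algebraMap (𝓞 K) (𝓞 A) x ∈ P
      rw [← map_inv, ← algebraMap_restrict_smul, ← mem_smul_ideal, hg]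
    have h2 := mem_zpowers_of_smul_eq w hw2 φw hφw _ h1
    have h3 : AlgEquiv.restrictNormalHom K g ∈ Subgroup.zpowers τ := by
      have h4 : Subgroup.zpowers φw ≤ Subgroup.zpowers τ := by
        rw [Subgroup.zpowers_le]; exact hτ2
      exact h4 h2
    obtain ⟨i, hi⟩ := Subgroup.mem_zpowers_iff.mp h3
    have h5 : g * (γ ^ i)⁻¹ ∈ U₀ := by
      apply hres
      rw [map_mul, map_inv, map_zpow, ← hτ, hi, mul_inv_cancel]
    have h6 := V.mul_mem (hU₀V h5) (V.zpow_mem hγ i)
    simpa using h6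
  · intro σ hσ
    have hfrob : ∀ φ : Gal(A/F), IsFrob (undr F w) P φ → AlgEquiv.restrictNormalHom K φ = φw := by
      intro φ hφ
      have h2 : IsArithFrobAt (𝓞 F) (AlgEquiv.restrictNormalHom K φ) w.asIdeal := by
        intro x
        rw [← hunder]
        change algebraMap (𝓞 K) (𝓞 A) (AlgEquiv.restrictNormalHom K φ • x -
          x ^ Nat.card (𝓞 F ⧸ (P.under (𝓞 K)).under (𝓞 F))) ∈ P
        rw [map_sub, ← algebraMap_restrict_smul, map_pow, hunder]
        exact hφ _
      have h4 := h2.mul_inv_mem_inertia hφw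
      rwa [hw2, Subgroup.mem_bot, mul_inv_eq_one] at h4
    have h3 : τ ∈ Subgroup.zpowers (AlgEquiv.restrictNormalHom K σ) := by
      rcases hσ with h | h
      · rw [hfrob σ h]; exact hτ1
      · have h4 := hfrob _ h
        rw [map_inv] at h4
        rw [← Subgroup.zpowers_inv, h4]
        exact hτ1
    rw [← mem_powers_iff_mem_zpowers] at h3
    obtain ⟨k, hk⟩ := h3
    refine ⟨k, hU₀U (hres _ ?_)⟩
    have hk' : (AlgEquiv.restrictNormalHom K σ) ^ k = τ := hk
    rw [map_mul, map_inv, map_pow, hk', ← hτ, inv_mul_cancel]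

end Split

end Pool.Agent.Lib.MP_666dc0_nt
end
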