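import Pool.Agent.Lib.MP_666dc0_nt.EP.Defs
import Pool.Agent.Lib.MP_666dc0_nt.EP.RA0
import Pool.Agent.Lib.MP_666dc0_nt.EP.RA1
import Pool.Agent.Lib.MP_666dc0_nt.EP.C2a

section

/-!
# EP, C1a: equivariant maps
-/

namespace Pool.Agent.Lib.MP_666dc0_nt.EP

variable {R : Type} {A : Type} [CommRing R] [Group A] {W X Y Z : Type} [MulAction A W]
  [MulAction A X] [MulAction A Y] [MulAction A Z]

namespace Equi

theorem id : Equi A (LinearMap.id : (Y →₀ R) →ₗ[R] (Y →₀ R)) := by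
  intro a m
  rfl

theorem zero : Equi A (0 : (Y →₀ R) →ₗ[R] (Z →₀ R)) := by
  intro a m
  rw [LinearMap.zero_apply, LinearMap.zero_apply, Finsupp.mapDomain_zero]

theorem comp {c' : (Z →₀ R) →ₗ[R] (W →₀ R)} {c : (Y →₀ R) →ₗ[R] (Z →₀ R)} (hc' : Equi A c')
    (hc : Equi A c) : Equi A (c' ∘ₗ c) := by
  intro a m
  rw [LinearMap.comp_apply, hc a m, hc' a (c m), LinearMap.comp_apply]

theorem add {c c' : (Y →₀ R) →ₗ[R] (Z →₀ R)} (hc : Equi A c) (hc' : Equi A c') :
    Equi A (c + c') := by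
  intro a m
  rw [LinearMap.add_apply, LinearMap.add_apply, hc a m, hc' a m, Finsupp.mapDomain_add]

theorem sub {c c' : (Y →₀ R) →ₗ[R] (Z →₀ R)} (hc : Equi A c) (hc' : Equi A c') :
    Equi A (c - c') := by
  intro a m
  rw [LinearMap.sub_apply, LinearMap.sub_apply, hc a m, hc' a m]
  exact (map_sub (Finsupp.lmapDomain R R (fun z : Z => a • z)) (c m) (c' m)).symm

theorem smul (r : R) {c : (Y →₀ R) →ₗ[R] (Z →₀ R)} (hc : Equi A c) : Equi A (r • c) := by
  intro a m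
  rw [LinearMap.smul_apply, LinearMap.smul_apply, hc a m, Finsupp.mapDomain_smul]

/-- It is enough to check equivariance on basis vectors. -/
theorem of_single {c : (Y →₀ R) →ₗ[R] (Z →₀ R)}
    (h : ∀ (a : A) (y : Y), c (Finsupp.single (a • y) 1) =
      Finsupp.mapDomain (fun z => a • z) (c (Finsupp.single y 1))) : Equi A c := by
  intro a m
  induction m using Finsupp.induction_linear with
  | zero => rw [Finsupp.mapDomain_zero, map_zero, Finsupp.mapDomain_zero]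
  | add m m' hm hm' => rw [Finsupp.mapDomain_add, map_add, hm, hm', map_add, Finsupp.mapDomain_add]
  | single y r =>
    have h1 : ∀ y : Y, Finsupp.single y r = r • Finsupp.single y (1 : R) := fun y => by
      rw [Finsupp.smul_single, smul_eq_mul, mul_one]
    rw [Finsupp.mapDomain_single, h1, map_smul, h, h1 y, map_smul, Finsupp.mapDomain_smul]

theorem single {c : (Y →₀ R) →ₗ[R] (Z →₀ R)} (hc : Equi A c) (a : A) (y : Y) :
    c (Finsupp.single (a • y) 1) = Finsupp.mapDomain (fun z => a • z) (c (Finsupp.single y 1)) := by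
  rw [← hc a, Finsupp.mapDomain_single]

end Equi

end Pool.Agent.Lib.MP_666dc0_nt.EP
end

section

/-!
# EP, RA2: existence of a reduced basis: auxiliary results
-/

namespace Pool.Agent.Lib.MP_666dc0_nt.EP

open Matrix

/-- An integral matrix as a real matrix. -/
abbrev toR {N : ℕ} (g : Matrix (Fin N) (Fin N) ℤ) : Matrix (Fin N) (Fin N) ℝ :=
  g.map ((↑) : ℤ → ℝ)

/-- An integral vector as a real vector. -/
abbrev toRv {N : ℕ} (v : Fin N → ℤ) : Fin N → ℝ := fun i => (v i : ℝ)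

private theorem ra2_bound {N : ℕ} {Q : Matrix (Fin (N + 1)) (Fin (N + 1)) ℝ} (hQ : Q.PosDef) :
    ∃ c : ℝ, 0 < c ∧ ∀ x : Fin (N + 1) → ℝ, c * ‖x‖ ^ 2 ≤ x ⬝ᵥ Q.mulVec x := by
  have hcont : Continuous (fun x : Fin (N + 1) → ℝ => x ⬝ᵥ Q.mulVec x) := by
    unfold dotProduct mulVec dotProduct
    fun_prop
  have hne : (Metric.sphere (0 : Fin (N + 1) → ℝ) 1).Nonempty := by
    refine ⟨fun _ => 1, ?_⟩
    rw [mem_sphere_zero_iff_norm, pi_norm_const, norm_one]
  obtain ⟨x₀, hx₀, hmin⟩ := (isCompact_sphere (0 : Fin (N + 1) → ℝ) 1).exists_isMinOn hne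
    hcont.continuousOn
  have hx₀1 : ‖x₀‖ = 1 := mem_sphere_zero_iff_norm.1 hx₀
  have hx₀0 : x₀ ≠ 0 := by
    intro h
    rw [h, norm_zero] at hx₀1
    exact zero_ne_one hx₀1
  have hpos : 0 < x₀ ⬝ᵥ Q.mulVec x₀ := by
    have := hQ.dotProduct_mulVec_pos hx₀0
    rwa [star_trivial] at this
  refine ⟨x₀ ⬝ᵥ Q.mulVec x₀, hpos, fun x => ?_⟩
  by_cases hx : x = 0
  · rw [hx, norm_zero]
    simp
  · have hnx : 0 < ‖x‖ := norm_pos_iff.2 hx
    have hmem : ‖x‖⁻¹ • x ∈ Metric.sphere (0 : Fin (N + 1) → ℝ) 1 := by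
      rw [mem_sphere_zero_iff_norm, norm_smul, norm_inv, norm_norm, inv_mul_cancel₀ hnx.ne']
    have h1 : x₀ ⬝ᵥ Q.mulVec x₀ ≤ (‖x‖⁻¹ • x) ⬝ᵥ Q.mulVec (‖x‖⁻¹ • x) := hmin hmem
    rw [mulVec_smul, smul_dotProduct, dotProduct_smul, smul_eq_mul, smul_eq_mul] at h1
    have h2 := mul_le_mul_of_nonneg_right h1 (by positivity : 0 ≤ ‖x‖ ^ 2)
    refine h2.trans (le_of_eq ?_)
    field_simp

private theorem ra2_finite {N : ℕ} {Q : Matrix (Fin (N + 1)) (Fin (N + 1)) ℝ} (hQ : Q.PosDef)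
    (R : ℝ) : {v : Fin (N + 1) → ℤ | toRv v ⬝ᵥ Q.mulVec (toRv v) ≤ R}.Finite := by
  obtain ⟨c, hc, hb⟩ := ra2_bound hQ
  obtain ⟨K, hK⟩ := exists_nat_ge (R / c)
  refine (Set.Finite.pi' (fun _ : Fin (N + 1) => Set.finite_Icc (-(K : ℤ)) K)).subset
    fun v hv i => ?_
  have hv' : toRv v ⬝ᵥ Q.mulVec (toRv v) ≤ R := hv
  have h1 := hb (toRv v)
  have h2 : |(v i : ℝ)| ≤ ‖toRv v‖ := norm_le_pi_norm (toRv v) i
  have h3 : c * ‖toRv v‖ ^ 2 ≤ R := h1.trans hv'
  have h4 : ‖toRv v‖ ^ 2 ≤ K := by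
    have : ‖toRv v‖ ^ 2 ≤ R / c := by
      rw [le_div_iff₀ hc]
      linarith
    exact this.trans hK
  have h5 : |(v i : ℝ)| ^ 2 ≤ K :=
    (pow_le_pow_left₀ (abs_nonneg _) h2 2).trans h4
  have h6 : |v i| ^ 2 ≤ (K : ℤ) := by
    have h7 : ((|v i| ^ 2 : ℤ) : ℝ) ≤ ((K : ℤ) : ℝ) := by
      push_cast
      exact h5
    exact_mod_cast h7
  have h8 : |v i| ≤ (K : ℤ) := by
    rcases eq_or_ne (v i) 0 with h0 | h0
    · rw [h0, abs_zero]
      positivity
    · have h9 : 1 ≤ |v i| := Int.one_le_abs h0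
      nlinarith
  rw [Set.mem_Icc]
  exact abs_le.1 h8

/-- Existence of a shortest non-zero integral vector.
Proof: `vᵀ Q v ≥ c |v|²` with `c > 0` (compactness of the sphere, or the smallest eigenvalue), so only
finitely many integral vectors satisfy `vᵀ Q v ≤ Q 0 0`. -/
theorem exists_shortest_vector {N : ℕ} {Q : Matrix (Fin (N + 1)) (Fin (N + 1)) ℝ}
    (hQ : Q.PosDef) : ∃ v : Fin (N + 1) → ℤ, v ≠ 0 ∧
      ∀ w : Fin (N + 1) → ℤ, w ≠ 0 → toRv v ⬝ᵥ Q.mulVec (toRv v) ≤ toRv w ⬝ᵥ Q.mulVec (toRv w) := by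
  classical
  obtain ⟨w₀, hw₀⟩ : ∃ w₀ : Fin (N + 1) → ℤ, w₀ ≠ 0 :=
    ⟨fun _ => 1, fun h => one_ne_zero (congrFun h 0)⟩
  obtain ⟨v, hv, hmin⟩ := Set.exists_min_image
    {v : Fin (N + 1) → ℤ | toRv v ⬝ᵥ Q.mulVec (toRv v) ≤ toRv w₀ ⬝ᵥ Q.mulVec (toRv w₀) ∧ v ≠ 0}
    (fun v => toRv v ⬝ᵥ Q.mulVec (toRv v))
    ((ra2_finite hQ _).subset fun v hv => hv.1) ⟨w₀, le_rfl, hw₀⟩
  refine ⟨v, hv.2, fun w hw => ?_⟩
  by_cases h : toRv w ⬝ᵥ Q.mulVec (toRv w) ≤ toRv w₀ ⬝ᵥ Q.mulVec (toRv w₀)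
  · exact hmin w ⟨h, hw⟩
  · exact hv.1.trans (not_le.1 h).le

/-- Completion of a primitive vector to a unimodular matrix.
Proof: the Smith normal form of the submodule `ℤ v` of `ℤ^{N+1}` (`Submodule.smithNormalForm`) gives a
basis of `ℤ^{N+1}` and `v = a • (a basis vector)`, where `a = ± 1` by `hv`. Put this vector
first (permute the basis, change the sign). -/
theorem exists_unimodular {N : ℕ} (v : Fin (N + 1) → ℤ) (hv0 : v ≠ 0)
    (hv : ∀ (a : ℤ) (w : Fin (N + 1) → ℤ), v = a • w → IsUnit a) :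
    ∃ g : Matrix (Fin (N + 1)) (Fin (N + 1)) ℤ, IsUnit g.det ∧ ∀ i, g i 0 = v i := by
  classical
  obtain ⟨n, ⟨bM, bN, f, a, snf⟩⟩ := Submodule.smithNormalForm (Pi.basisFun ℤ (Fin (N + 1)))
    (Submodule.span ℤ {v})
  have hvN : v ∈ Submodule.span ℤ {v} := Submodule.mem_span_singleton_self v
  obtain ⟨vN, hvN'⟩ : ∃ vN : Submodule.span ℤ {v}, (vN : Fin (N + 1) → ℤ) = v := ⟨⟨v, hvN⟩, rfl⟩
  have hvN0 : vN ≠ 0 := by
    intro h
    rw [h] at hvN'
    exact hv0 hvN'.symm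
  have hrep : bN.repr vN ≠ 0 := by
    intro h
    exact hvN0 ((LinearEquiv.map_eq_zero_iff _).1 h)
  obtain ⟨i, hi⟩ := Finsupp.ne_iff.1 hrep
  rw [Finsupp.zero_apply] at hi
  obtain ⟨r, hr⟩ := Submodule.mem_span_singleton.1 (bN i).2
  have hr' : bN i = r • vN := by
    apply Subtype.ext
    rw [← hr, Submodule.coe_smul, hvN']
  have h1 : r * bN.repr vN i = 1 := by
    have h2 := congrArg (fun z => bN.repr z i) hr'
    simp only [Module.Basis.repr_self, Finsupp.single_eq_same, map_smul, Finsupp.smul_apply,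
      smul_eq_mul] at h2
    exact h2.symm
  obtain ⟨c, hc⟩ : ∃ c, c = bN.repr vN i := ⟨_, rfl⟩
  rw [← hc] at h1
  have hv1 : v = (c * a i) • bM (f i) := by
    rw [mul_smul, ← snf i, ← hr, ← mul_smul, mul_comm c r, h1, one_smul]
  obtain ⟨u, hu⟩ := hv _ _ hv1
  obtain ⟨b', hb'⟩ : ∃ b' : Module.Basis (Fin (N + 1)) ℤ (Fin (N + 1) → ℤ), b' 0 = v := by
    refine ⟨(bM.reindex (Equiv.swap (f i) 0)).unitsSMul (fun _ => u), ?_⟩
    rw [Module.Basis.unitsSMul_apply, Module.Basis.reindex_apply, Equiv.symm_swap,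
      Equiv.swap_apply_right, Units.smul_def, hu]
    exact hv1.symm
  refine ⟨(Pi.basisFun ℤ (Fin (N + 1))).toMatrix b', ?_, fun j => ?_⟩
  · have h2 := Module.Basis.isUnit_det (Pi.basisFun ℤ (Fin (N + 1))) b'
    rwa [Module.Basis.det_apply] at h2
  · rw [Module.Basis.toMatrix_apply, hb', Pi.basisFun_repr]

private theorem ra2_entry {n : ℕ} (G Q : Matrix (Fin n) (Fin n) ℝ) (i j : Fin n) :
    (Gᵀ * Q * G) i j = ∑ k, ∑ l, G k i * Q k l * G l j := by
  rw [Matrix.mul_apply]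
  simp only [Matrix.mul_apply, Matrix.transpose_apply, Finset.sum_mul]
  rw [Finset.sum_comm]

theorem posDef_conj {N : ℕ} {Q : Matrix (Fin N) (Fin N) ℝ} (hQ : Q.PosDef)
    {g : Matrix (Fin N) (Fin N) ℤ} (hg : IsUnit g.det) : ((toR g)ᵀ * Q * toR g).PosDef := by
  have h1 : IsUnit (toR g).det := by
    have h2 : (toR g).det = ((g.det : ℤ) : ℝ) := by
      have := RingHom.map_det (Int.castRingHom ℝ) g
      exact this.symm
    rw [h2]
    exact hg.map (Int.castRingHom ℝ)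
  have h3 : IsUnit (toR g) := (Matrix.isUnit_iff_isUnit_det _).2 h1
  have h4 := hQ.conjTranspose_mul_mul_same (Matrix.mulVec_injective_of_isUnit h3)
  rwa [conjTranspose_eq_transpose_of_trivial] at h4

/-- The block matrix `(1, x; 0, g)`. -/
def blockOf {N : ℕ} (x : Fin N → ℤ) (g : Matrix (Fin N) (Fin N) ℤ) :
    Matrix (Fin (N + 1)) (Fin (N + 1)) ℤ :=
  fun i j => Fin.cases (motive := fun _ => ℤ)
    (Fin.cases (motive := fun _ => ℤ) 1 (fun j' => x j') j)
    (fun i' => Fin.cases (motive := fun _ => ℤ) 0 (fun j' => g i' j') j) i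

theorem det_blockOf {N : ℕ} (x : Fin N → ℤ) (g : Matrix (Fin N) (Fin N) ℤ) :
    (blockOf x g).det = g.det := by
  rw [det_succ_column_zero, Fin.sum_univ_succ, Finset.sum_eq_zero (fun i _ => ?_), add_zero]
  · have h1 : blockOf x g 0 0 = 1 := rfl
    have h2 : (blockOf x g).submatrix (Fin.succAbove 0) Fin.succ = g := by
      ext i j
      rw [submatrix_apply, Fin.succAbove_zero]
      rfl
    rw [h1, h2]
    simp
  · have h1 : blockOf x g i.succ 0 = 0 := rfl
    rw [h1]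
    simp

theorem conj_blockOf_zero_zero {N : ℕ} (Q : Matrix (Fin (N + 1)) (Fin (N + 1)) ℝ) (x : Fin N → ℤ)
    (g : Matrix (Fin N) (Fin N) ℤ) :
    ((toR (blockOf x g))ᵀ * Q * toR (blockOf x g)) 0 0 = Q 0 0 := by
  rw [ra2_entry]
  simp only [Fin.sum_univ_succ]
  have h1 : toR (blockOf x g) 0 0 = 1 := by
    show ((blockOf x g 0 0 : ℤ) : ℝ) = 1
    exact Int.cast_one
  have h2 : ∀ i : Fin N, toR (blockOf x g) i.succ 0 = 0 := by
    intro i
    show ((blockOf x g i.succ 0 : ℤ) : ℝ) = 0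
    exact Int.cast_zero
  rw [h1]
  simp only [h2, zero_mul, mul_zero, Finset.sum_const_zero, add_zero, one_mul, mul_one]

theorem conj_blockOf_zero_succ {N : ℕ} (Q : Matrix (Fin (N + 1)) (Fin (N + 1)) ℝ) (x : Fin N → ℤ)
    (g : Matrix (Fin N) (Fin N) ℤ) (j : Fin N) :
    ((toR (blockOf x g))ᵀ * Q * toR (blockOf x g)) 0 j.succ =
      Q 0 0 * x j + ∑ i, Q 0 i.succ * g i j := by
  rw [ra2_entry]
  simp only [Fin.sum_univ_succ]
  have h1 : toR (blockOf x g) 0 0 = 1 := by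
    show ((blockOf x g 0 0 : ℤ) : ℝ) = 1
    exact Int.cast_one
  have h2 : ∀ i : Fin N, toR (blockOf x g) i.succ 0 = 0 := by
    intro i
    show ((blockOf x g i.succ 0 : ℤ) : ℝ) = 0
    exact Int.cast_zero
  have h3 : toR (blockOf x g) 0 j.succ = x j := rfl
  have h4 : ∀ i : Fin N, toR (blockOf x g) i.succ j.succ = g i j := fun i => rfl
  rw [h1, h3]
  simp only [h2, h4, zero_mul, Finset.sum_const_zero, add_zero, one_mul]

/-- The Schur complement does not see the first row `x`. -/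
theorem schur_conj_blockOf {N : ℕ} {Q : Matrix (Fin (N + 1)) (Fin (N + 1)) ℝ} (hQ : Q.PosDef)
    (x : Fin N → ℤ) (g : Matrix (Fin N) (Fin N) ℤ) :
    schur ((toR (blockOf x g))ᵀ * Q * toR (blockOf x g)) = (toR g)ᵀ * schur Q * toR g := by
  have hQ0 : Q 0 0 ≠ 0 := hQ.diag_pos.ne'
  have h2 : ∀ i : Fin N, toR (blockOf x g) i.succ 0 = 0 := by
    intro i
    show ((blockOf x g i.succ 0 : ℤ) : ℝ) = 0
    exact Int.cast_zero
  have h1 : toR (blockOf x g) 0 0 = 1 := by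
    show ((blockOf x g 0 0 : ℤ) : ℝ) = 1
    exact Int.cast_one
  have h3 : ∀ j : Fin N, toR (blockOf x g) 0 j.succ = x j := fun j => rfl
  have h4 : ∀ i j : Fin N, toR (blockOf x g) i.succ j.succ = g i j := fun i j => rfl
  ext i j
  have hR : ((toR g)ᵀ * schur Q * toR g) i j = ∑ k, ∑ l, (g k i : ℝ) * schur Q k l * g l j :=
    ra2_entry _ _ _ _
  have hS : (∑ k, ∑ l, (g k i : ℝ) * schur Q k l * g l j) =
      (∑ k, ∑ l, (g k i : ℝ) * Q k.succ l.succ * g l j) -
        (∑ k, (g k i : ℝ) * Q k.succ 0) * (∑ l, Q 0 l.succ * g l j) / Q 0 0 := by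
    rw [Finset.sum_mul_sum, Finset.sum_div, ← Finset.sum_sub_distrib]
    refine Finset.sum_congr rfl fun k _ => ?_
    rw [Finset.sum_div, ← Finset.sum_sub_distrib]
    refine Finset.sum_congr rfl fun l _ => ?_
    unfold schur
    ring
  have hij : ((toR (blockOf x g))ᵀ * Q * toR (blockOf x g)) i.succ j.succ =
      x i * Q 0 0 * x j + x i * (∑ l, Q 0 l.succ * g l j) + (∑ k, (g k i : ℝ) * Q k.succ 0) * x j +
        ∑ k, ∑ l, (g k i : ℝ) * Q k.succ l.succ * g l j := by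
    rw [ra2_entry]
    simp only [Fin.sum_univ_succ, h3, h4]
    rw [Finset.sum_add_distrib, Finset.sum_mul, Finset.mul_sum]
    simp only [mul_assoc]
    ring
  have hi0 : ((toR (blockOf x g))ᵀ * Q * toR (blockOf x g)) i.succ 0 =
      x i * Q 0 0 + ∑ k, (g k i : ℝ) * Q k.succ 0 := by
    rw [ra2_entry]
    simp only [Fin.sum_univ_succ, h1, h2, h3, h4, mul_one, mul_zero, Finset.sum_const_zero, add_zero]
  show ((toR (blockOf x g))ᵀ * Q * toR (blockOf x g)) i.succ j.succ -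
    ((toR (blockOf x g))ᵀ * Q * toR (blockOf x g)) i.succ 0 *
      ((toR (blockOf x g))ᵀ * Q * toR (blockOf x g)) 0 j.succ /
      ((toR (blockOf x g))ᵀ * Q * toR (blockOf x g)) 0 0 = _
  rw [hR, hS, hij, hi0, conj_blockOf_zero_zero, conj_blockOf_zero_succ]
  field_simp
  ring

end Pool.Agent.Lib.MP_666dc0_nt.EP
end

section

/-!
# EP, RA3: existence of a reduced basis
-/

namespace Pool.Agent.Lib.MP_666dc0_nt.EP

open Matrix

private theorem ra3_toR_mul {n : ℕ} (g h : Matrix (Fin n) (Fin n) ℤ) :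
    toR (g * h) = toR g * toR h := by
  ext i j
  show (((g * h) i j : ℤ) : ℝ) = (toR g * toR h) i j
  rw [Matrix.mul_apply, Matrix.mul_apply]
  push_cast
  rfl

private theorem ra3_toRv {n : ℕ} (g : Matrix (Fin n) (Fin n) ℤ) (w : Fin n → ℤ) :
    toRv (g.mulVec w) = (toR g).mulVec (toRv w) := by
  funext i
  show (((g.mulVec w) i : ℤ) : ℝ) = (toR g).mulVec (toRv w) i
  unfold mulVec dotProduct
  push_cast
  rfl

private theorem ra3_conj {n : ℕ} (Q : Matrix (Fin n) (Fin n) ℝ) (g : Matrix (Fin n) (Fin n) ℤ)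
    (w : Fin n → ℤ) :
    toRv w ⬝ᵥ ((toR g)ᵀ * Q * toR g).mulVec (toRv w) =
      toRv (g.mulVec w) ⬝ᵥ Q.mulVec (toRv (g.mulVec w)) := by
  rw [ra3_toRv, ← Matrix.mulVec_mulVec, ← Matrix.mulVec_mulVec, Matrix.dotProduct_mulVec,
    Matrix.vecMul_transpose]

private theorem ra3_single {n : ℕ} (Q : Matrix (Fin n) (Fin n) ℝ) (i : Fin n) :
    toRv (Pi.single i 1) ⬝ᵥ Q.mulVec (toRv (Pi.single i 1)) = Q i i := by
  have h1 : toRv (Pi.single i 1) = Pi.single i (1 : ℝ) := by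
    funext j
    show (((Pi.single i 1 : Fin n → ℤ) j : ℤ) : ℝ) = (Pi.single i (1 : ℝ) : Fin n → ℝ) j
    rcases eq_or_ne j i with h | h
    · rw [h, Pi.single_eq_same, Pi.single_eq_same, Int.cast_one]
    · rw [Pi.single_eq_of_ne h, Pi.single_eq_of_ne h, Int.cast_zero]
  rw [h1, Matrix.mulVec_single_one, single_dotProduct, one_mul]
  rfl

private theorem ra3_mulVec_ne {n : ℕ} {g : Matrix (Fin n) (Fin n) ℤ} (hg : IsUnit g.det)
    {w : Fin n → ℤ} (hw : w ≠ 0) : g.mulVec w ≠ 0 := by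
  intro h
  apply hw
  have h1 := Matrix.mulVec_injective_of_isUnit ((Matrix.isUnit_iff_isUnit_det _).2 hg)
  exact h1 (by rw [h, mulVec_zero])

private theorem ra3_pos {n : ℕ} {Q : Matrix (Fin n) (Fin n) ℝ} (hQ : Q.PosDef) {w : Fin n → ℤ}
    (hw : w ≠ 0) : 0 < toRv w ⬝ᵥ Q.mulVec (toRv w) := by
  have h1 : toRv w ≠ 0 := by
    intro h
    apply hw
    funext i
    have h2 : ((w i : ℤ) : ℝ) = 0 := congrFun h i
    exact_mod_cast h2
  have := hQ.dotProduct_mulVec_pos h1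
  rwa [star_trivial] at this

/-- **Existence of a reduced basis.** Every positive definite real matrix is equivalent under
`GL_N(ℤ)` to a `2`-reduced one.
Proof: induction on `N`. Let `v` be a shortest vector (`exists_shortest_vector`); it is primitive
(`v = a w` gives `wᵀQw = vᵀQv / a²`), so there is `g₁ ∈ GL_{N+1}(ℤ)` with first column `v`. Let
`Q₁ = g₁ᵀ Q g₁`, so `Q₁ 0 0` is the minimum of `wᵀ Q₁ w` over the non-zero integral vectors. Let `g'`
reduce `schur Q₁` (induction hypothesis), and `x j` the integer nearest to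
`- (∑ Q₁ 0 i.succ g' i j) / Q₁ 0 0`, `g₂ = blockOf x g'`, `Q₂ = g₂ᵀ Q₁ g₂`. Then `schur Q₂` is reduced
(`schur_conj_blockOf`), `|up Q₂ 0 j| ≤ 1/2`, and for `N ≥ 1` with `e₁` the second basis vector
`Q₂ 0 0 ≤ e₁ᵀ Q₂ e₁ = α_1² + (up Q₂ 0 1)² Q₂ 0 0 ≤ α_1² + Q₂ 0 0 / 4`, so `α_0² ≤ (4/3) α_1²`. -/
theorem exists_red : ∀ (N : ℕ) (Q : Matrix (Fin N) (Fin N) ℝ), Q.PosDef →
    ∃ g : Matrix (Fin N) (Fin N) ℤ, IsUnit g.det ∧ Red 2 ((toR g)ᵀ * Q * toR g) := by
  intro N
  induction N with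
  | zero =>
    intro Q _
    exact ⟨1, by rw [det_one]; exact isUnit_one, fun i => i.elim0, fun i => i.elim0⟩
  | succ N ih =>
    intro Q hQ
    obtain ⟨v, hv0, hmin⟩ := exists_shortest_vector hQ
    have hprim : ∀ (a : ℤ) (w : Fin (N + 1) → ℤ), v = a • w → IsUnit a := by
      intro a w haw
      have ha0 : a ≠ 0 := by
        rintro rfl
        rw [zero_smul] at haw
        exact hv0 haw
      have hw0 : w ≠ 0 := by
        rintro rfl
        rw [smul_zero] at haw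
        exact hv0 haw
      have h1 := hmin w hw0
      have h2 : toRv v = (a : ℝ) • toRv w := by
        funext i
        rw [haw]
        show (((a • w) i : ℤ) : ℝ) = (a : ℝ) * (w i : ℝ)
        rw [Pi.smul_apply, smul_eq_mul]
        push_cast
        rfl
      rw [h2, mulVec_smul, smul_dotProduct, dotProduct_smul, smul_eq_mul, smul_eq_mul] at h1
      have h3 := ra3_pos hQ hw0
      have h4 : (a : ℝ) * a ≤ 1 := by
        by_contra hcon
        have h5 := mul_lt_mul_of_pos_right (not_le.1 hcon) h3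
        linarith
      have h5 : a * a ≤ 1 := by exact_mod_cast h4
      rw [Int.isUnit_iff]
      have h6 : a ≤ 1 := by nlinarith
      have h7 : -1 ≤ a := by nlinarith
      omega
    obtain ⟨g₁, hg₁, hg₁v⟩ := exists_unimodular v hv0 hprim
    obtain ⟨Q₁, hQ₁⟩ : ∃ Q₁, Q₁ = (toR g₁)ᵀ * Q * toR g₁ := ⟨_, rfl⟩
    have hQ₁p : Q₁.PosDef := by
      rw [hQ₁]
      exact posDef_conj hQ hg₁
    obtain ⟨g', hg', hred⟩ := ih (schur Q₁) (posDef_schur hQ₁p)
    obtain ⟨x, hx⟩ : ∃ x : Fin N → ℤ,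
        x = fun j => round (-(∑ i : Fin N, Q₁ 0 i.succ * g' i j) / Q₁ 0 0) := ⟨_, rfl⟩
    have hg₂ : IsUnit (blockOf x g').det := by
      rw [det_blockOf]
      exact hg'
    have hg : IsUnit (g₁ * blockOf x g').det := by
      rw [det_mul]
      exact hg₁.mul hg₂
    obtain ⟨Q₂, hQ₂⟩ : ∃ Q₂, Q₂ = (toR (blockOf x g'))ᵀ * Q₁ * toR (blockOf x g') := ⟨_, rfl⟩
    have hQ₂' : (toR (g₁ * blockOf x g'))ᵀ * Q * toR (g₁ * blockOf x g') = Q₂ := by
      rw [hQ₂, hQ₁, ra3_toR_mul, transpose_mul]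
      simp only [Matrix.mul_assoc]
    have hQ₂p : Q₂.PosDef := by
      rw [hQ₂]
      exact posDef_conj hQ₁p hg₂
    have h00 : 0 < Q₁ 0 0 := hQ₁p.diag_pos
    have h200 : Q₂ 0 0 = Q₁ 0 0 := by rw [hQ₂, conj_blockOf_zero_zero]
    have hup : ∀ j : Fin N, |Q₂ 0 j.succ / Q₂ 0 0| ≤ 1 / 2 := by
      intro j
      have h1 : Q₂ 0 j.succ / Q₂ 0 0 =
          x j - -(∑ i : Fin N, Q₁ 0 i.succ * g' i j) / Q₁ 0 0 := by
        rw [h200, hQ₂, conj_blockOf_zero_succ]
        field_simp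
        ring
      rw [h1, hx, abs_sub_comm]
      exact abs_sub_round _
    have hschur : schur Q₂ = (toR g')ᵀ * schur Q₁ * toR g' := by
      rw [hQ₂]
      exact schur_conj_blockOf hQ₁p x g'
    have hv1 : Q₂ 0 0 = toRv v ⬝ᵥ Q.mulVec (toRv v) := by
      have h1 := ra3_conj Q g₁ (Pi.single 0 1)
      rw [← hQ₁, ra3_single] at h1
      have h2 : g₁.mulVec (Pi.single 0 1) = v := by
        funext i
        rw [Matrix.mulVec_single_one]
        exact hg₁v i
      rw [h2] at h1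
      rw [h200, h1]
    have hmin2 : ∀ i : Fin (N + 1), Q₂ 0 0 ≤ Q₂ i i := by
      intro i
      have h1 := ra3_conj Q (g₁ * blockOf x g') (Pi.single i 1)
      rw [hQ₂', ra3_single] at h1
      rw [h1, hv1]
      apply hmin
      apply ra3_mulVec_ne hg
      intro h
      have h2 := congrFun h i
      rw [Pi.single_eq_same] at h2
      exact one_ne_zero h2
    refine ⟨g₁ * blockOf x g', hg, ?_⟩
    rw [hQ₂']
    rw [← hschur] at hred
    constructor
    · intro i j hij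
      obtain ⟨j', rfl⟩ := Fin.exists_succ_eq.2 (Fin.ne_zero_of_lt hij)
      rcases Fin.eq_zero_or_eq_succ i with h | ⟨i', h⟩
      · rw [h, up_zero_succ]
        linarith [hup j']
      · rw [h, up_succ_succ]
        rw [h] at hij
        exact hred.1 i' j' (Fin.succ_lt_succ_iff.1 hij)
    · intro i j hij
      have hj0 : j ≠ 0 := by
        intro h
        rw [h] at hij
        simp at hij
      obtain ⟨j', rfl⟩ := Fin.exists_succ_eq.2 hj0
      rcases Fin.eq_zero_or_eq_succ i with h | ⟨i', h⟩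
      · rw [h] at hij ⊢
        rw [Fin.val_succ, Fin.val_zero] at hij
        have hN : ∃ M, N = M + 1 := Nat.exists_eq_succ_of_ne_zero (by
          have := j'.2
          omega)
        obtain ⟨M, rfl⟩ := hN
        have hj' : j' = 0 := Fin.ext (by rw [Fin.val_zero]; omega)
        rw [hj', al_succ, al_zero, al_zero]
        have h1 := hmin2 (Fin.succ 0)
        have h2 := hup 0
        have hsym : Q₂ (Fin.succ 0) 0 = Q₂ 0 (Fin.succ 0) := by
          have h3 := hQ₂p.isHermitian.apply 0 (Fin.succ 0)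
          rw [star_trivial] at h3
          exact h3
        have hp : 0 < Q₂ 0 0 := hQ₂p.diag_pos
        have h3 : schur Q₂ 0 0 = Q₂ (Fin.succ 0) (Fin.succ 0) -
            (Q₂ 0 (Fin.succ 0) / Q₂ 0 0) ^ 2 * Q₂ 0 0 := by
          unfold schur
          rw [hsym]
          field_simp
        obtain ⟨t, ht⟩ : ∃ t, t = Q₂ 0 (Fin.succ 0) / Q₂ 0 0 := ⟨_, rfl⟩
        rw [← ht] at h2 h3
        have h4 : t ^ 2 ≤ 1 / 4 := by
          have h5 := pow_le_pow_left₀ (abs_nonneg t) h2 2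
          rw [sq_abs] at h5
          linarith
        have h5 : t ^ 2 * Q₂ 0 0 ≤ 1 / 4 * Q₂ 0 0 := mul_le_mul_of_nonneg_right h4 hp.le
        have h6 : Q₂ 0 0 ≤ 2 ^ 2 * schur Q₂ 0 0 := by
          rw [h3]
          linarith
        calc Real.sqrt (Q₂ 0 0) ≤ Real.sqrt (2 ^ 2 * schur Q₂ 0 0) := Real.sqrt_le_sqrt h6
          _ = 2 * Real.sqrt (schur Q₂ 0 0) := by
            rw [Real.sqrt_mul (by norm_num), Real.sqrt_sq (by norm_num)]
      · rw [h, al_succ, al_succ]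
        rw [h, Fin.val_succ, Fin.val_succ] at hij
        exact hred.2 i' j' (by omega)

end Pool.Agent.Lib.MP_666dc0_nt.EP
end

section

/-!
# EP, C2b: the standard resolution, I
-/

namespace Pool.Agent.Lib.MP_666dc0_nt.EP

variable {R : Type} {A : Type} [CommRing R] [Group A] {E X : Type} [MulAction A E] [MulAction A X]

theorem equi_bd (n : ℕ) : Equi A (bd R E X n) := by
  apply Equi.of_single
  intro a s
  rw [bd_single, bd_single]
  have h : Finsupp.mapDomain (fun z : Simp E X n => a • z) (∑ i : Fin (n + 2),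
      Finsupp.single ((fun j => s.1 (i.succAbove j)), s.2) ((-1 : R) ^ (i : ℕ))) =
      ∑ i : Fin (n + 2), Finsupp.mapDomain (fun z : Simp E X n => a • z)
        (Finsupp.single ((fun j => s.1 (i.succAbove j)), s.2) ((-1 : R) ^ (i : ℕ))) :=
    map_sum (Finsupp.lmapDomain R R (fun z : Simp E X n => a • z)) _ _
  rw [h]
  refine Finset.sum_congr rfl fun i _ => ?_
  rw [Finsupp.mapDomain_single]
  rfl

theorem equi_aug : Equi A (aug R E X) := by
  apply Equi.of_single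
  intro a s
  unfold aug
  rw [Finsupp.lmapDomain_apply, Finsupp.lmapDomain_apply, Finsupp.mapDomain_single,
    Finsupp.mapDomain_single, Finsupp.mapDomain_single]
  rfl

theorem aug_surj [Nonempty E] : Function.Surjective (aug R E X) := by
  intro m
  obtain ⟨e⟩ := (inferInstance : Nonempty E)
  refine ⟨Finsupp.mapDomain (fun x => ((fun _ => e), x)) m, ?_⟩
  unfold aug
  rw [Finsupp.lmapDomain_apply, ← Finsupp.mapDomain_comp]
  exact Finsupp.mapDomain_id

theorem aug_comp_bd : aug R E X ∘ₗ bd R E X 0 = 0 := by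
  apply Finsupp.lhom_ext'
  intro s
  apply LinearMap.ext_ring
  change aug R E X (bd R E X 0 (Finsupp.single s 1)) = 0
  rw [bd_single, map_sum]
  unfold aug
  simp only [Finsupp.lmapDomain_apply, Finsupp.mapDomain_single]
  rw [Fin.sum_univ_two, ← Finsupp.single_add]
  simp

end Pool.Agent.Lib.MP_666dc0_nt.EP
end

section

/-!
# EP, C2g: endomorphisms of the standard resolution
-/

namespace Pool.Agent.Lib.MP_666dc0_nt.EP

variable {R : Type} {A : Type} [CommRing R] [Group A] {E X : Type} [MulAction A E] [MulAction A X]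

theorem ext_single (n : ℕ) (c : (X →₀ R) →ₗ[R] (X →₀ R)) (s : Simp E X n) :
    ext n c (Finsupp.single s 1) =
      Finsupp.mapDomain (fun x => (s.1, x)) (c (Finsupp.single s.2 1)) := by
  rw [ext, Finsupp.linearCombination_single, one_smul]

theorem equi_ext (n : ℕ) {c : (X →₀ R) →ₗ[R] (X →₀ R)} (hc : Equi A c) :
    Equi A (ext (E := E) n c) := by
  refine Equi.of_single fun a s => ?_
  rw [ext_single, ext_single]
  show Finsupp.mapDomain (fun x => (a • s.1, x)) (c (Finsupp.single (a • s.2) 1)) = _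
  rw [hc.single, ← Finsupp.mapDomain_comp, ← Finsupp.mapDomain_comp]
  rfl

private theorem c2g_bd (n : ℕ) (e : Fin (n + 2) → E) (m : X →₀ R) :
    bd R E X n (Finsupp.mapDomain (fun x => (e, x)) m) =
      ∑ i : Fin (n + 2), ((-1 : R) ^ (i : ℕ)) •
        Finsupp.mapDomain (fun x => ((fun j => e (i.succAbove j)), x)) m := by
  have h : bd R E X n ∘ₗ Finsupp.lmapDomain R R (fun x => (e, x)) =
      ∑ i : Fin (n + 2), ((-1 : R) ^ (i : ℕ)) •
        Finsupp.lmapDomain R R (fun x => ((fun j => e (i.succAbove j)), x)) := by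
    refine Finsupp.lhom_ext' fun x => LinearMap.ext_ring ?_
    show bd R E X n (Finsupp.lmapDomain R R (fun x => (e, x)) (Finsupp.single x 1)) =
      (∑ i : Fin (n + 2), ((-1 : R) ^ (i : ℕ)) •
        Finsupp.lmapDomain R R (fun x => ((fun j => e (i.succAbove j)), x))) (Finsupp.single x 1)
    rw [Finsupp.lmapDomain_apply, Finsupp.mapDomain_single, bd_single, LinearMap.sum_apply]
    refine Finset.sum_congr rfl fun i _ => ?_
    rw [LinearMap.smul_apply, Finsupp.lmapDomain_apply, Finsupp.mapDomain_single,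
      Finsupp.smul_single, smul_eq_mul, mul_one]
  have h2 := LinearMap.congr_fun h m
  rw [LinearMap.sum_apply] at h2
  exact h2

theorem bd_comp_ext (n : ℕ) (c : (X →₀ R) →ₗ[R] (X →₀ R)) :
    bd R E X n ∘ₗ ext (n + 1) c = ext n c ∘ₗ bd R E X n := by
  refine Finsupp.lhom_ext' fun s => LinearMap.ext_ring ?_
  show bd R E X n (ext (n + 1) c (Finsupp.single s 1)) = ext n c (bd R E X n (Finsupp.single s 1))
  rw [ext_single, c2g_bd, bd_single, map_sum]
  refine Finset.sum_congr rfl fun i _ => ?_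
  rw [← mul_one ((-1 : R) ^ (i : ℕ)), ← smul_eq_mul, ← Finsupp.smul_single, map_smul, ext_single,
    smul_eq_mul, mul_one]

theorem aug_comp_ext (c : (X →₀ R) →ₗ[R] (X →₀ R)) :
    aug R E X ∘ₗ ext 0 c = c ∘ₗ aug R E X := by
  refine Finsupp.lhom_ext' fun s => LinearMap.ext_ring ?_
  show aug R E X (ext 0 c (Finsupp.single s 1)) = c (aug R E X (Finsupp.single s 1))
  rw [ext_single, aug, Finsupp.lmapDomain_apply, Finsupp.lmapDomain_apply,
    Finsupp.mapDomain_single, ← Finsupp.mapDomain_comp]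
  exact Finsupp.mapDomain_id

end Pool.Agent.Lib.MP_666dc0_nt.EP
end
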