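import Pool.Agent.Lib.MP_666dc0_nt.EP.C3b
import Pool.Agent.Lib.MP_666dc0_nt.EP.C2f
import Pool.Agent.Lib.MP_666dc0_nt.Mg.G058
import Pool.Agent.Lib.MP_666dc0_nt.EP.C4a
import Pool.Agent.Lib.MP_666dc0_nt.EP.FD1

section

/-!
# EP, C3d: examples of lifts
-/

namespace Pool.Agent.Lib.MP_666dc0_nt.EP

variable {R : Type} {A : Type} [CommRing R] [Group A] {X : Type} [MulAction A X]

theorem IsLift.id (P : Res R A X) : IsLift P P LinearMap.id fun _ => LinearMap.id :=
  ⟨fun _ => Equi.id, rfl, fun _ => rfl⟩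

theorem IsLift.comp {P P' P'' : Res R A X} {c c' : (X →₀ R) →ₗ[R] (X →₀ R)}
    {f : ∀ n, (P.Y n →₀ R) →ₗ[R] (P'.Y n →₀ R)} {f' : ∀ n, (P'.Y n →₀ R) →ₗ[R] (P''.Y n →₀ R)}
    (hf' : IsLift P' P'' c' f') (hf : IsLift P P' c f) :
    IsLift P P'' (c' ∘ₗ c) fun n => f' n ∘ₗ f n := by
  refine ⟨fun n => (hf'.equi n).comp (hf.equi n), ?_, fun n => ?_⟩
  · rw [← LinearMap.comp_assoc, hf'.comm_ε, LinearMap.comp_assoc, hf.comm_ε, LinearMap.comp_assoc]
  · rw [← LinearMap.comp_assoc, hf'.comm_d, LinearMap.comp_assoc, hf.comm_d, LinearMap.comp_assoc]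

/-- The endomorphism `c` of `R[X]` acts on the standard resolution. -/
theorem isLift_ext {E : Type} [MulAction A E] [Nonempty E]
    (hfree : ∀ (a : A) (e : E) (x : X), a • e = e → a • x = x → a = 1)
    {c : (X →₀ R) →ₗ[R] (X →₀ R)} (hc : Equi A c) :
    IsLift (Res.std R A E X hfree) (Res.std R A E X hfree) c fun n => ext n c :=
  ⟨fun n => equi_ext n hc, aug_comp_ext c, fun n => bd_comp_ext n c⟩

end Pool.Agent.Lib.MP_666dc0_nt.EP
end

section

/-!
# EP, C3c: lifts are unique up to homotopy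
-/

namespace Pool.Agent.Lib.MP_666dc0_nt.EP

variable {R : Type} {A : Type} [CommRing R] [Group A] {X : Type} [MulAction A X]

/-- Two lifts of the same endomorphism are homotopic. -/
theorem exists_homotopy {P P' : Res R A X} {c : (X →₀ R) →ₗ[R] (X →₀ R)}
    {f g : ∀ n, (P.Y n →₀ R) →ₗ[R] (P'.Y n →₀ R)} (hf : IsLift P P' c f) (hg : IsLift P P' c g) :
    ∃ h : ∀ n, (P.Y n →₀ R) →ₗ[R] (P'.Y (n + 1) →₀ R), (∀ n, Equi A (h n)) ∧
      f 0 - g 0 = P'.d 0 ∘ₗ h 0 ∧
      ∀ n, f (n + 1) - g (n + 1) = P'.d (n + 1) ∘ₗ h (n + 1) + h n ∘ₗ P.d n := by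
  classical
  have base : ∃ h0 : (P.Y 0 →₀ R) →ₗ[R] (P'.Y 1 →₀ R), Equi A h0 ∧ P'.d 0 ∘ₗ h0 = f 0 - g 0 := by
    refine exists_lift_free (P.free 0) (P'.equi_d 0) ((hf.equi 0).sub (hg.equi 0)) fun m => ?_
    rw [← P'.exact_zero, LinearMap.mem_ker]
    have h1 := LinearMap.congr_fun hf.comm_ε m
    have h2 := LinearMap.congr_fun hg.comm_ε m
    simp only [LinearMap.comp_apply] at h1 h2
    rw [LinearMap.sub_apply, map_sub, h1, h2, sub_self]
  have step : ∀ (n : ℕ) (s : {h : (P.Y n →₀ R) →ₗ[R] (P'.Y (n + 1) →₀ R) //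
      Equi A h ∧ ∀ m, P'.d n (h (P.d n m)) = f n (P.d n m) - g n (P.d n m)}),
      ∃ s' : {h : (P.Y (n + 1) →₀ R) →ₗ[R] (P'.Y (n + 1 + 1) →₀ R) //
        Equi A h ∧ ∀ m, P'.d (n + 1) (h (P.d (n + 1) m)) =
          f (n + 1) (P.d (n + 1) m) - g (n + 1) (P.d (n + 1) m)},
        f (n + 1) - g (n + 1) = P'.d (n + 1) ∘ₗ s'.1 + s.1 ∘ₗ P.d n := by
    rintro n ⟨h, he, hq⟩
    have hlift : ∃ h' : (P.Y (n + 1) →₀ R) →ₗ[R] (P'.Y (n + 1 + 1) →₀ R), Equi A h' ∧
        P'.d (n + 1) ∘ₗ h' = f (n + 1) - g (n + 1) - h ∘ₗ P.d n := by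
      refine exists_lift_free (P.free (n + 1)) (P'.equi_d (n + 1))
        (((hf.equi (n + 1)).sub (hg.equi (n + 1))).sub (he.comp (P.equi_d n))) fun m => ?_
      rw [← P'.exact n, LinearMap.mem_ker]
      have h1 := LinearMap.congr_fun (hf.comm_d n) m
      have h2 := LinearMap.congr_fun (hg.comm_d n) m
      simp only [LinearMap.comp_apply] at h1 h2
      rw [LinearMap.sub_apply, LinearMap.sub_apply, map_sub, map_sub, h1, h2,
        LinearMap.comp_apply, hq, sub_self]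
    obtain ⟨h', he', hc'⟩ := hlift
    refine ⟨⟨h', he', fun m => ?_⟩, ?_⟩
    · have h1 := LinearMap.congr_fun hc' (P.d (n + 1) m)
      have h2 := LinearMap.congr_fun (P.d_comp_d n) m
      simp only [LinearMap.comp_apply, LinearMap.zero_apply] at h1 h2
      rw [h1, LinearMap.sub_apply, LinearMap.sub_apply, LinearMap.comp_apply, h2, map_zero,
        sub_zero]
    · change f (n + 1) - g (n + 1) = P'.d (n + 1) ∘ₗ h' + h ∘ₗ P.d n
      rw [hc']
      refine LinearMap.ext fun m => ?_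
      rw [LinearMap.add_apply, LinearMap.sub_apply _ (h ∘ₗ P.d n)]
      exact (sub_add_cancel _ _).symm
  obtain ⟨h0, he0, hc0⟩ := base
  choose next hnext using step
  let S : ∀ n : ℕ, {h : (P.Y n →₀ R) →ₗ[R] (P'.Y (n + 1) →₀ R) //
      Equi A h ∧ ∀ m, P'.d n (h (P.d n m)) = f n (P.d n m) - g n (P.d n m)} := fun n =>
    Nat.rec (motive := fun n => {h : (P.Y n →₀ R) →ₗ[R] (P'.Y (n + 1) →₀ R) //
      Equi A h ∧ ∀ m, P'.d n (h (P.d n m)) = f n (P.d n m) - g n (P.d n m)})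
      ⟨h0, he0, fun m => by
        have h1 := LinearMap.congr_fun hc0 (P.d 0 m)
        simpa only [LinearMap.comp_apply, LinearMap.sub_apply] using h1⟩
      (fun n s => next n s) n
  exact ⟨fun n => (S n).1, fun n => (S n).2.1, hc0.symm, fun n => hnext n (S n)⟩

end Pool.Agent.Lib.MP_666dc0_nt.EP
end

section

/-!
# EP, C4b: homotopic maps agree on cohomology
-/

namespace Pool.Agent.Lib.MP_666dc0_nt.EP

variable {R : Type} {A : Type} [CommRing R] [Group A] {X : Type} [MulAction A X]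
  {L V : Type} [Field L] [Algebra R L] [AddCommGroup V] [Module L V] (ρ : Representation L A V)

variable {P P' P'' : Res R A X} {c c' : (X →₀ R) →ₗ[R] (X →₀ R)}

/-- Homotopic chain maps induce the same map on cohomology. -/
theorem IsLift.onH_congr {f g : ∀ n, (P.Y n →₀ R) →ₗ[R] (P'.Y n →₀ R)} (hf : IsLift P P' c f)
    (hg : IsLift P P' c g) (n : ℕ) : hf.onH ρ n = hg.onH ρ n := by
  obtain ⟨h, hh, h0, hs⟩ := exists_homotopy hf hg
  refine Submodule.linearMap_qext _ (LinearMap.ext fun u => ?_)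
  show Submodule.Quotient.mk _ = Submodule.Quotient.mk _
  rw [Submodule.Quotient.eq]
  show pull L V (f n) u.1 - pull L V (g n) u.1 ∈ P.cobd ρ n
  have hu : pull L V (P'.d n) u.1 = 0 := u.2.2
  have key : ∀ k : (P.Y n →₀ R) →ₗ[R] (P'.Y (n + 1) →₀ R),
      pull L V (P'.d n ∘ₗ k) u.1 = 0 := by
    intro k
    rw [pull_comp]
    show pull L V k (pull L V (P'.d n) u.1) = 0
    rw [hu, map_zero]
  have hsub : pull L V (f n) u.1 - pull L V (g n) u.1 = pull L V (f n - g n) u.1 := by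
    rw [pull_sub]
    rfl
  rw [hsub]
  cases n with
  | zero =>
    rw [h0, key]
    exact Submodule.zero_mem _
  | succ n =>
    rw [hs n, pull_add, LinearMap.add_apply, key, zero_add]
    refine ⟨pull L V (h n) u.1, pull_mem_Fun ρ (hh n) u.2.1, ?_⟩
    rw [pull_comp]
    rfl

end Pool.Agent.Lib.MP_666dc0_nt.EP
end

section

/-!
# EP, FD2: existence of chain maps from a complex of free modules to a resolution
-/

namespace Pool.Agent.Lib.MP_666dc0_nt.EP

variable {R A X : Type} [CommRing R] [Group A] [MulAction A X]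

/-- Two consecutive terms of a chain map. -/
private def MapPair (C : Cx R A X) (P' : Res R A X) (n : ℕ) : Type :=
  {p : ((C.Y n →₀ R) →ₗ[R] (P'.Y n →₀ R)) × ((C.Y (n + 1) →₀ R) →ₗ[R] (P'.Y (n + 1) →₀ R)) //
    Equi A p.2 ∧ P'.d n ∘ₗ p.2 = p.1 ∘ₗ C.d n}

private theorem exists_step (C : Cx R A X) (hfree : ∀ n (a : A) (y : C.Y n), a • y = y → a = 1)
    (P' : Res R A X) (n : ℕ) (p : MapPair C P' n) :
    ∃ q : (C.Y (n + 2) →₀ R) →ₗ[R] (P'.Y (n + 2) →₀ R), Equi A q ∧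
      P'.d (n + 1) ∘ₗ q = p.1.2 ∘ₗ C.d (n + 1) := by
  refine exists_lift_free (hfree (n + 2)) (P'.equi_d (n + 1))
    (p.2.1.comp (C.equi_d (n + 1))) ?_
  intro m
  rw [← P'.exact n, LinearMap.mem_ker]
  have h1 := LinearMap.congr_fun p.2.2 (C.d (n + 1) m)
  have h2 := LinearMap.congr_fun (C.d_comp_d n) m
  simp only [LinearMap.comp_apply, LinearMap.zero_apply] at h1 h2 ⊢
  rw [h1, h2, map_zero]

/-- Same proof as `exists_isLift` (EP/C3b.lean: copy it; it only uses that the source is free with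
`ε d = 0`, `d d = 0` and that the target is exact). -/
theorem exists_isMap (C : Cx R A X) (hfree : ∀ n (a : A) (y : C.Y n), a • y = y → a = 1)
    (P : Res R A X) {c : (X →₀ R) →ₗ[R] (X →₀ R)} (hc : Equi A c) :
    ∃ f, IsMap C P.toCx c f := by
  obtain ⟨f0, hf0, hf0c⟩ := exists_lift_free (hfree 0) P.equi_ε (hc.comp C.equi_ε)
    (fun m => P.surj _)
  obtain ⟨f1, hf1, hf1c⟩ := exists_lift_free (hfree 1) (P.equi_d 0) (hf0.comp (C.equi_d 0)) (by
    intro m
    rw [← P.exact_zero, LinearMap.mem_ker]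
    have h1 := LinearMap.congr_fun hf0c (C.d 0 m)
    have h2 := LinearMap.congr_fun C.ε_comp_d m
    simp only [LinearMap.comp_apply, LinearMap.zero_apply] at h1 h2 ⊢
    rw [h1, h2, map_zero])
  let S : ∀ n, MapPair C P n := fun n => Nat.rec (motive := fun n => MapPair C P n)
    ⟨(f0, f1), hf1, hf1c⟩
    (fun n p => ⟨(p.1.2, (exists_step C hfree P n p).choose),
      (exists_step C hfree P n p).choose_spec⟩) n
  have hS : ∀ n, (S (n + 1)).1.1 = (S n).1.2 := fun n => rfl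
  refine ⟨fun n => (S n).1.1, ?_, hf0c, ?_⟩
  · intro n
    cases n with
    | zero => exact hf0
    | succ n => rw [hS n]; exact (S n).2.1
  · intro n
    rw [hS n]
    exact (S n).2.2

end Pool.Agent.Lib.MP_666dc0_nt.EP
end
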