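import Pool.Agent.Lib.MP_666dc0_nt.EP.SDefs
import Pool.Agent.Lib.MP_666dc0_nt.Mg.G069

section

/-!
# EP, T5: coefficients of weight zero
-/

open NumberField IsDedekindDomain
open scoped NumberField

namespace Pool.Agent.Lib.MP_666dc0_nt.EP

open WL

variable {F : Type} [Field F] [NumberField F] {n : ℕ} {D : Datum F n} {ℓ : ℕ} [Fact ℓ.Prime]
  {L : Level D ℓ} {ι : ℂ ≃+* PadicAlgCl ℓ}

/-- A representation of `K` over `ℚ̄_ℓ` with open kernel gives coefficients of weight zero.
Proof: `W = Fin e → ℂ`, `rho = 1`, `sig k = Matrix.toLin' ((σ k).map ι.symm)`. `alg`: constant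
functions are in `polyFun` (`Subalgebra.algebraMap_mem`). `smooth`: `sig k = 1` if and only if
`σ k = 1`. Trace: `Matrix.trace_toLin'_eq` / `LinearMap.trace_eq_matrix_trace`. -/
theorem exists_coeff {e : ℕ} (σ : L.K →* GL (Fin e) (PadicAlgCl ℓ))
    (hσ : IsOpen (σ.ker : Set L.K)) : ∃ C : Coeff L, C.rho = 1 ∧
      ∀ k, LinearMap.trace ℂ C.W (C.sig k) =
        ι.symm ((σ k : Matrix (Fin e) (Fin e) (PadicAlgCl ℓ)).trace) := by
  let sg : L.K →* ((Fin e → ℂ) →ₗ[ℂ] (Fin e → ℂ)) :=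
    ((Matrix.toLinAlgEquiv' : Matrix (Fin e) (Fin e) ℂ ≃ₐ[ℂ] _).toAlgHom.toRingHom.toMonoidHom).comp
      (((ι.symm : PadicAlgCl ℓ →+* ℂ).mapMatrix.toMonoidHom).comp ((Units.coeHom _).comp σ))
  have hsg : ∀ k, sg k = Matrix.toLin'
      ((σ k : Matrix (Fin e) (Fin e) (PadicAlgCl ℓ)).map (ι.symm : PadicAlgCl ℓ →+* ℂ)) :=
    fun k => rfl
  have h1 : ∀ k, sg k = 1 ↔ σ k = 1 := by
    intro k
    constructor
    · intro h
      rw [hsg] at h
      have h2 : (σ k : Matrix (Fin e) (Fin e) (PadicAlgCl ℓ)).map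
          (ι.symm : PadicAlgCl ℓ →+* ℂ) = 1 := by
        apply Matrix.toLin'.injective
        rw [h, Matrix.toLin'_one]
        rfl
      apply Units.ext
      ext i j
      have h3 := congrFun (congrFun h2 i) j
      rw [Matrix.map_apply] at h3
      rw [Units.val_one]
      apply ι.symm.injective
      rw [Matrix.one_apply] at h3 ⊢
      split_ifs at h3 ⊢ with hij
      · rw [map_one]; exact h3
      · rw [map_zero]; exact h3
    · intro h
      rw [hsg, h, Units.val_one]
      have : (1 : Matrix (Fin e) (Fin e) (PadicAlgCl ℓ)).map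
          (ι.symm : PadicAlgCl ℓ →+* ℂ) = 1 := by
        ext i j
        rw [Matrix.map_apply, Matrix.one_apply, Matrix.one_apply]
        split_ifs <;> simp
      rw [this, Matrix.toLin'_one]
      rfl
  refine ⟨{ W := Fin e → ℂ, rho := 1, sig := sg, alg := ?_, smooth := ?_, comm := ?_ }, rfl, ?_⟩
  · intro w ξ
    exact Subalgebra.algebraMap_mem (polyFun D) (ξ w)
  · have : {k : L.K | sg k = 1} = (σ.ker : Set L.K) := by
      ext k
      exact (h1 k).trans (MonoidHom.mem_ker).symm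
    rw [this]
    exact hσ
  · intro x k
    exact Commute.one_left _
  · intro k
    show LinearMap.trace ℂ (Fin e → ℂ) (sg k) = _
    rw [hsg, Matrix.trace_toLin'_eq, Matrix.trace, Matrix.trace, map_sum]
    rfl

end Pool.Agent.Lib.MP_666dc0_nt.EP
end

section

/-!
# EP, C4c: functoriality of cohomology
-/

namespace Pool.Agent.Lib.MP_666dc0_nt.EP

variable {R : Type} {A : Type} [CommRing R] [Group A] {X : Type} [MulAction A X]
  {L V : Type} [Field L] [Algebra R L] [AddCommGroup V] [Module L V] (ρ : Representation L A V)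

variable {P P' P'' : Res R A X} {c c' : (X →₀ R) →ₗ[R] (X →₀ R)}

/-- The map induced on cohomology by the endomorphism `c` of `R[X]`. -/
noncomputable def hmap (P P' : Res R A X) (hc : Equi A c) (n : ℕ) : P'.H ρ n →ₗ[L] P.H ρ n :=
  (exists_isLift P P' hc).choose_spec.onH ρ n

theorem hmap_eq (hc : Equi A c) {f : ∀ n, (P.Y n →₀ R) →ₗ[R] (P'.Y n →₀ R)}
    (hf : IsLift P P' c f) (n : ℕ) : hmap ρ P P' hc n = hf.onH ρ n :=
  IsLift.onH_congr ρ (exists_isLift P P' hc).choose_spec hf n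

private theorem onH_mk {f : ∀ n, (P.Y n →₀ R) →ₗ[R] (P'.Y n →₀ R)} (hf : IsLift P P' c f)
    (n : ℕ) (u : P'.cocyc ρ n) : hf.onH ρ n (Submodule.Quotient.mk u) =
      Submodule.Quotient.mk ⟨pull L V (f n) u, hf.pull_mem_cocyc ρ n u.2⟩ := rfl

theorem hmap_comp (P P' P'' : Res R A X) (hc : Equi A c) (hc' : Equi A c') (n : ℕ) :
    hmap ρ P P'' (hc'.comp hc) n = hmap ρ P P' hc n ∘ₗ hmap ρ P' P'' hc' n := by
  obtain ⟨f, hf⟩ := exists_isLift P P' hc
  obtain ⟨f', hf'⟩ := exists_isLift P' P'' hc'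
  rw [hmap_eq ρ (hc'.comp hc) (hf'.comp hf), hmap_eq ρ hc hf, hmap_eq ρ hc' hf']
  apply LinearMap.ext
  intro x
  obtain ⟨u, rfl⟩ := Submodule.Quotient.mk_surjective _ x
  rw [LinearMap.comp_apply, onH_mk, onH_mk, onH_mk]
  congr 1
  apply Subtype.ext
  show pull L V (f' n ∘ₗ f n) (u : P''.Y n → V) = pull L V (f n) (pull L V (f' n) u)
  rw [pull_comp, LinearMap.comp_apply]

theorem hmap_id (P : Res R A X) (n : ℕ) : hmap ρ P P Equi.id n = LinearMap.id := by
  rw [hmap_eq ρ Equi.id (IsLift.id P)]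
  apply LinearMap.ext
  intro x
  obtain ⟨u, rfl⟩ := Submodule.Quotient.mk_surjective _ x
  rw [onH_mk, LinearMap.id_apply]
  congr 1
  apply Subtype.ext
  show pull L V (LinearMap.id : (P.Y n →₀ R) →ₗ[R] (P.Y n →₀ R)) (u : P.Y n → V) = u
  rw [pull_id, LinearMap.id_apply]

theorem hmap_add (P P' : Res R A X) (hc : Equi A c) (hc' : Equi A c') (n : ℕ) :
    hmap ρ P P' (hc.add hc') n = hmap ρ P P' hc n + hmap ρ P P' hc' n := by
  obtain ⟨f, hf⟩ := exists_isLift P P' hc
  obtain ⟨g, hg⟩ := exists_isLift P P' hc'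
  have h : IsLift P P' (c + c') (fun n => f n + g n) :=
    { equi := fun n => (hf.equi n).add (hg.equi n)
      comm_ε := by
        rw [LinearMap.comp_add, LinearMap.add_comp, hf.comm_ε, hg.comm_ε]
      comm_d := fun n => by
        rw [LinearMap.comp_add, LinearMap.add_comp, hf.comm_d, hg.comm_d] }
  rw [hmap_eq ρ (hc.add hc') h, hmap_eq ρ hc hf, hmap_eq ρ hc' hg]
  apply LinearMap.ext
  intro x
  obtain ⟨u, rfl⟩ := Submodule.Quotient.mk_surjective _ x
  rw [LinearMap.add_apply, onH_mk, onH_mk, onH_mk, ← Submodule.Quotient.mk_add]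
  congr 1
  apply Subtype.ext
  show pull L V (f n + g n) (u : P'.Y n → V) = pull L V (f n) u + pull L V (g n) u
  rw [pull_add, LinearMap.add_apply]

theorem hmap_smul (P P' : Res R A X) (r : R) (hc : Equi A c) (n : ℕ) :
    hmap ρ P P' (hc.smul r) n = algebraMap R L r • hmap ρ P P' hc n := by
  obtain ⟨f, hf⟩ := exists_isLift P P' hc
  have h : IsLift P P' (r • c) (fun n => r • f n) :=
    { equi := fun n => (hf.equi n).smul r
      comm_ε := by
        rw [LinearMap.comp_smul, LinearMap.smul_comp, hf.comm_ε]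
      comm_d := fun n => by
        rw [LinearMap.comp_smul, LinearMap.smul_comp, hf.comm_d] }
  rw [hmap_eq ρ (hc.smul r) h, hmap_eq ρ hc hf]
  apply LinearMap.ext
  intro x
  obtain ⟨u, rfl⟩ := Submodule.Quotient.mk_surjective _ x
  rw [LinearMap.smul_apply, onH_mk, onH_mk, ← Submodule.Quotient.mk_smul]
  congr 1
  apply Subtype.ext
  show pull L V (r • f n) (u : P'.Y n → V) = algebraMap R L r • pull L V (f n) u
  rw [pull_smul, LinearMap.smul_apply]

end Pool.Agent.Lib.MP_666dc0_nt.EP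
end

section

/-!
# EP, C4d: independence of the resolution
-/

namespace Pool.Agent.Lib.MP_666dc0_nt.EP

variable {R : Type} {A : Type} [CommRing R] [Group A] {X : Type} [MulAction A X]
  {L V : Type} [Field L] [Algebra R L] [AddCommGroup V] [Module L V] (ρ : Representation L A V)

variable {P P' P'' : Res R A X} {c c' : (X →₀ R) →ₗ[R] (X →₀ R)}

/-- Cohomology does not depend on the resolution. -/
noncomputable def hEquiv (P P' : Res R A X) (n : ℕ) : P'.H ρ n ≃ₗ[L] P.H ρ n :=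
  LinearEquiv.ofLinear (hmap ρ P P' Equi.id n) (hmap ρ P' P Equi.id n)
    (by rw [← hmap_comp]; exact hmap_id ρ P n) (by rw [← hmap_comp]; exact hmap_id ρ P' n)

theorem hmap_conj (P P' : Res R A X) (hc : Equi A c) (n : ℕ) :
    hmap ρ P P hc n ∘ₗ (hEquiv ρ P P' n).toLinearMap =
      (hEquiv ρ P P' n).toLinearMap ∘ₗ hmap ρ P' P' hc n := by
  have h1 : (hEquiv ρ P P' n).toLinearMap = hmap ρ P P' Equi.id n := rfl
  rw [h1, ← hmap_comp, ← hmap_comp]

theorem trace_hmap (P P' : Res R A X) (hc : Equi A c) (n : ℕ) :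
    LinearMap.trace L _ (hmap ρ P P hc n) = LinearMap.trace L _ (hmap ρ P' P' hc n) := by
  have h1 : hmap ρ P P hc n = (hEquiv ρ P P' n).conj (hmap ρ P' P' hc n) := by
    rw [LinearEquiv.conj_apply, ← hmap_conj, LinearMap.comp_assoc, LinearEquiv.comp_coe,
      LinearEquiv.symm_trans_self]
    exact (LinearMap.comp_id _).symm
  rw [h1, LinearMap.trace_conj']

end Pool.Agent.Lib.MP_666dc0_nt.EP
end
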