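import Pool.Agent.Lib.MP_666dc0_nt.Mg.G100
import Pool.Agent.Lib.MP_666dc0_nt.Mg.G068
import Pool.Agent.Lib.MP_666dc0_nt.Mg.G069

section

/-!
# CL, P3: cohomology of a finitely dominated set
-/

namespace Pool.Agent.Lib.MP_666dc0_nt.CL

open FM EP

variable {R : Type} {A : Type} [CommRing R] [Group A] {E X : Type} [MulAction A E] [MulAction A X]
  {L V : Type} [Field L] [Algebra R L] [AddCommGroup V] [Module L V] (ρ : Representation L A V)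

/-- The map on the cohomology of a resolution induced by a lift of the multiplication by `m`. -/
theorem p3_onH_smul {P : Res R A X} {f : ∀ n, (P.Y n →₀ R) →ₗ[R] (P.Y n →₀ R)} {m : R}
    (hf : IsMap P.toCx P.toCx (m • LinearMap.id) f) (n : ℕ) (u : P.toCx.H ρ n) :
    hf.onH ρ n u = algebraMap R L m • u := by
  have hm : Equi A (m • LinearMap.id : (X →₀ R) →ₗ[R] (X →₀ R)) := Equi.smul m Equi.id
  have h1 : IsLift P P (m • LinearMap.id) f := hf.toLift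
  have h0 : IsLift P P (m • LinearMap.id) fun n => (m • LinearMap.id) := by
    refine ⟨fun n => Equi.smul m Equi.id, ?_, fun n => ?_⟩
    · apply LinearMap.ext
      intro x
      change P.ε (m • x) = m • P.ε x
      rw [map_smul]
    · apply LinearMap.ext
      intro x
      change P.d n (m • x) = m • P.d n x
      rw [map_smul]
  have h2 := h1.hToCx_onH ρ n u
  have h3 : h1.onH ρ n = h0.onH ρ n := by
    rw [← hmap_eq ρ hm h1, ← hmap_eq ρ hm h0]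
  have h4 : ∀ w : P.H ρ n, h0.onH ρ n w = algebraMap R L m • w := by
    intro w
    obtain ⟨w, rfl⟩ := Submodule.Quotient.mk_surjective _ w
    show Submodule.Quotient.mk _ = _
    rw [← Submodule.Quotient.mk_smul]
    refine congrArg _ (Subtype.ext ?_)
    show pull L V (m • LinearMap.id) w.1 = algebraMap R L m • w.1
    rw [pull_smul, pull_id]
    rfl
  rw [h3, h4, ← map_smul] at h2
  exact (P.hToCx ρ n).injective h2

/-- `i^* r^* = m`. -/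
theorem p3_onH_comp {P : Res R A X} {C : Cx R A X} {m : R}
    {i : ∀ n, (P.toCx.Y n →₀ R) →ₗ[R] (C.Y n →₀ R)} (hi : IsMap P.toCx C (m • LinearMap.id) i)
    {r : ∀ n, (C.Y n →₀ R) →ₗ[R] (P.toCx.Y n →₀ R)} (hr : IsMap C P.toCx LinearMap.id r) (n : ℕ)
    (u : P.toCx.H ρ n) : hi.onH ρ n (hr.onH ρ n u) = algebraMap R L m • u := by
  have h1 := LinearMap.congr_fun (IsMap.onH_comp ρ hr hi n) u
  have h2 := p3_onH_smul ρ (P := P) (hr.comp hi) n u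
  rw [← h2]
  exact h1.symm

/-- The identity of a resolution acts as the identity. -/
theorem p3_onH_one {P : Res R A X} {c : (X →₀ R) →ₗ[R] (X →₀ R)} (hc : c = LinearMap.id)
    {f : ∀ n, (P.Y n →₀ R) →ₗ[R] (P.Y n →₀ R)} (hf : IsLift P P c f) (n : ℕ)
    (u : P.toCx.H ρ n) : hf.toMap.onH ρ n u = u := by
  subst hc
  have h2 := hf.hToCx_onH ρ n u
  have h3 : hf.onH ρ n = LinearMap.id := by
    rw [← hmap_eq ρ Equi.id hf, hmap_id]
  rw [h3, LinearMap.id_apply] at h2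
  exact (P.hToCx ρ n).injective h2

/-- The comparison of the cohomology of the complex of equivariant cochains with that of a
resolution. -/
theorem p3_exists_equiv [Nonempty E]
    (hfree : ∀ (a : A) (e : E) (x : X), a • e = e → a • x = x → a = 1) (P : Res R A X) (n : ℕ) :
    ∃ K : EH R E X ρ n ≃ₗ[L] P.toCx.H ρ n, ∀ {c : (X →₀ R) →ₗ[R] (X →₀ R)} (hc : Equi A c)
      {f : ∀ n, (P.Y n →₀ R) →ₗ[R] (P.Y n →₀ R)} (hf : IsLift P P c f) (u : EH R E X ρ n),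
      hf.toMap.onH ρ n (K u) = K (EHop ρ hc n u) := by
  have hq : (cobd R ρ E X n).submoduleOf (cocyc R ρ E X n) =
      ((Res.std R A E X hfree).cobd ρ n).submoduleOf ((Res.std R A E X hfree).cocyc ρ n) := by
    rw [std_cobd hfree ρ n]
    rfl
  let K₀ : EH R E X ρ n ≃ₗ[L] (Res.std R A E X hfree).H ρ n := Submodule.quotEquivOfEq _ _ hq
  refine ⟨K₀.trans ((hEquiv ρ P (Res.std R A E X hfree) n).trans (P.hToCx ρ n).symm), ?_⟩
  intro c hc f hf u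
  have h0 : ∀ u, (isLift_ext (E := E) hfree hc).onH ρ n (K₀ u) = K₀ (EHop ρ hc n u) := by
    intro u
    obtain ⟨u, rfl⟩ := Submodule.Quotient.mk_surjective _ u
    rfl
  have h1 := LinearMap.congr_fun (hmap_conj ρ P (Res.std R A E X hfree) hc n) (K₀ u)
  rw [hmap_eq ρ hc hf, hmap_eq ρ hc (isLift_ext (E := E) hfree hc)] at h1
  simp only [LinearMap.comp_apply, LinearEquiv.coe_coe] at h1
  rw [h0] at h1
  apply (P.hToCx ρ n).injective
  rw [hf.hToCx_onH]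
  simp only [LinearEquiv.trans_apply, LinearEquiv.apply_symm_apply]
  exact h1

omit [Field L] [Algebra R L] [AddCommGroup V] [Module L V] [MulAction A E] in
/-- The transport of a homotopy. -/
theorem p3_htpy {Q C : Cx R A X} {c c' : (X →₀ R) →ₗ[R] (X →₀ R)}
    {i : ∀ n, (Q.Y n →₀ R) →ₗ[R] (C.Y n →₀ R)} (hi : IsMap Q C c i)
    {r : ∀ n, (C.Y n →₀ R) →ₗ[R] (Q.Y n →₀ R)} (hr : IsMap C Q c' r)
    {a b : ∀ n, (Q.Y n →₀ R) →ₗ[R] (Q.Y n →₀ R)} {h : ∀ n, (Q.Y n →₀ R) →ₗ[R] (Q.Y (n + 1) →₀ R)}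
    (hh : ∀ n, Equi A (h n))
    (h0 : a 0 ∘ₗ ((r 0 ∘ₗ i 0) ∘ₗ b 0) - b 0 ∘ₗ ((r 0 ∘ₗ i 0) ∘ₗ a 0) = Q.d 0 ∘ₗ h 0)
    (hs : ∀ n, a (n + 1) ∘ₗ ((r (n + 1) ∘ₗ i (n + 1)) ∘ₗ b (n + 1)) -
      b (n + 1) ∘ₗ ((r (n + 1) ∘ₗ i (n + 1)) ∘ₗ a (n + 1)) = Q.d (n + 1) ∘ₗ h (n + 1) + h n ∘ₗ Q.d n) :
    ∃ h : ∀ n, (C.Y n →₀ R) →ₗ[R] (C.Y (n + 1) →₀ R),
      (∀ n, Equi A (h n)) ∧
      (i 0 ∘ₗ (a 0 ∘ₗ r 0)) ∘ₗ (i 0 ∘ₗ (b 0 ∘ₗ r 0)) -
        (i 0 ∘ₗ (b 0 ∘ₗ r 0)) ∘ₗ (i 0 ∘ₗ (a 0 ∘ₗ r 0)) = C.d 0 ∘ₗ h 0 ∧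
      ∀ n, (i (n + 1) ∘ₗ (a (n + 1) ∘ₗ r (n + 1))) ∘ₗ (i (n + 1) ∘ₗ (b (n + 1) ∘ₗ r (n + 1))) -
        (i (n + 1) ∘ₗ (b (n + 1) ∘ₗ r (n + 1))) ∘ₗ (i (n + 1) ∘ₗ (a (n + 1) ∘ₗ r (n + 1))) =
          C.d (n + 1) ∘ₗ h (n + 1) + h n ∘ₗ C.d n := by
  refine ⟨fun n => i (n + 1) ∘ₗ (h n ∘ₗ r n),
    fun n => (hi.equi (n + 1)).comp ((hh n).comp (hr.equi n)), ?_, fun n => ?_⟩
  · refine LinearMap.ext fun x => ?_
    have h5 := LinearMap.congr_fun h0 (r 0 x)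
    have h6 := LinearMap.congr_fun (hi.comm_d 0) (h 0 (r 0 x))
    simp only [LinearMap.comp_apply, LinearMap.sub_apply] at h5 h6 ⊢
    rw [h6, ← map_sub, h5]
  · refine LinearMap.ext fun x => ?_
    have h5 := LinearMap.congr_fun (hs n) (r (n + 1) x)
    have h6 := LinearMap.congr_fun (hi.comm_d (n + 1)) (h (n + 1) (r (n + 1) x))
    have h7 := LinearMap.congr_fun (hr.comm_d n) x
    simp only [LinearMap.comp_apply, LinearMap.sub_apply, LinearMap.add_apply] at h5 h6 h7 ⊢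
    rw [h6, ← map_sub, ← h7, ← map_add, h5]

end Pool.Agent.Lib.MP_666dc0_nt.CL
end

section

/-!
# CL, P0: the complex of free modules (TASK II-A)

`(P, C, N, m, i)` from `IsFD`, `r : C → P.toCx` over the identity (`exists_isMap C hC.free P`), for `P' ∈ MvPolynomial I ℤ`
a lift `g P'` of `θ P'` to the resolution `P` (`exists_isLift`), and `G P' n = i n ∘ g P' n ∘ r n : R[C.Y n] → R[C.Y n]`.
Matrices: for `e : C.Y n ≃ FreeSet A r`, `e' : C.Y n' ≃ FreeSet A r'` and an equivariant `c : R[C.Y n] → R[C.Y n']` put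
`Mat c p q = ∑_{y ∈ supp (c (e⁻¹ (p, 1))), (e' y).i = q} c₀ (coefficient) * c₁ ((e' y).g)`; then
`funEquiv (pull c f) = mact (Mat c) (funEquiv f)` (as `funEquiv_pullFun`, C5a). Identities between matrices
follow from the identities between the actions on all members of the family (`MFam.eq_zero_of_mact`, FM/D0,
`hfam.one_lt`, `hfam.deep`): `Mat (c' ∘ c) = Mat c * Mat c'` etc.
`α` = matrix of `d (n-1)` (`A = Fin 0` for `n = 0`), `β` = matrix of `d n`, `mx P'` = matrix of `G P' n`, `mA`, `mC` the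
same in the degrees `n - 1`, `n + 1`. `htpy`: `g P' ∘ r ∘ i ∘ g P''` and `g P'' ∘ r ∘ i ∘ g P'` are lifts of
`m θ(P') θ(P'')` to the resolution, `exists_homotopy` (C3c) gives a homotopy on `P`; compose with `i` and `r`.
`f` = the map induced by `r` (`hEquiv`/`Res.hToCx`, `std_cocyc`, `std_cobd` of G1 to compare `EH` with the cohomology of `P`:
`hEquiv ρ (Res.std ..) P n`; Hecke: `hmap_conj`, `hmap_eq`, `isLift_ext`), `i^* r^* = m` (`onH_comp_onH`, private in FD5: copy).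
`op P' ∘ f = r^* g^* i^* r^* = m r^* g^*`; `op 1 = r^* i^*`.
-/

namespace Pool.Agent.Lib.MP_666dc0_nt.CL

open FM EP

theorem exists_mats {R A E X : Type} [CommRing R] [Group A] [MulAction A E] [MulAction A X]
    [Nonempty E] (hfree : ∀ (a : A) (e : E) (x : X), a • e = e → a • x = x → a = 1)
    (hFD : IsFD R A X) {𝒯 : RTow} {Ω : Type} [NormedField Ω] [CharZero Ω] [Algebra R Ω] {ℓ : ℕ}
    (fam : MFam 𝒯.Lim Ω ℓ) (hfam : FOk fam) (c₀ : R →+* 𝒯.Lim) (c₁ : A →* 𝒯.Lim)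
    (ρ : ∀ i, Representation Ω A (fam.W i))
    (h₀ : ∀ i r w, fam.act i (c₀ r) w = algebraMap R Ω r • w)
    (h₁ : ∀ i a w, fam.act i (c₁ a) w = ρ i a w)
    {I : Type} (θ : MvPolynomial I ℤ →+* Module.End R (X →₀ R)) (hθ : ∀ P, Equi A (θ P)) (n : ℕ) :
    ∃ (m : ℕ) (ℳ : Mats 𝒯 (MvPolynomial I ℤ)), 0 < m ∧
      (∀ i P, (ℳ.ch 1).op fam i * (ℳ.ch P).op fam i = (m : Ω) • (ℳ.ch P).op fam i) ∧
      (∀ i P, (ℳ.ch P).op fam i * (ℳ.ch 1).op fam i = (m : Ω) • (ℳ.ch P).op fam i) ∧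
      ∀ i, ∃ f : EH R E X (ρ i) n →ₗ[Ω] ℳ.H fam i, Function.Injective f ∧
        LinearMap.range f = LinearMap.range ((ℳ.ch 1).op fam i) ∧
        ∀ P u, (ℳ.ch P).op fam i (f u) = (m : Ω) • f (EHop (ρ i) (hθ P) n u) := by
  obtain ⟨P, C, N, m, i, hm0, hC, hi⟩ := hFD
  have hmΩ : (m : Ω) ≠ 0 := Nat.cast_ne_zero.2 hm0.ne'
  have hmR : algebraMap R Ω (m : R) = (m : Ω) := map_natCast _ _
  obtain ⟨r, hr⟩ := exists_isMap C hC.free P (Equi.id (A := A) (R := R) (Y := X))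
  choose g hg using fun P' : MvPolynomial I ℤ => exists_isLift P P (hθ P')
  have hG : ∀ P', IsMap C C (((m : R) • LinearMap.id) ∘ₗ (θ P' ∘ₗ LinearMap.id))
      (fun n => i n ∘ₗ (g P' n ∘ₗ r n)) := fun P' => hi.comp ((hg P').toMap.comp hr)
  have hh : ∀ j k : MvPolynomial I ℤ, ∃ h : ∀ n, (C.Y n →₀ R) →ₗ[R] (C.Y (n + 1) →₀ R),
      (∀ n, Equi A (h n)) ∧
      (i 0 ∘ₗ (g k 0 ∘ₗ r 0)) ∘ₗ (i 0 ∘ₗ (g j 0 ∘ₗ r 0)) -
        (i 0 ∘ₗ (g j 0 ∘ₗ r 0)) ∘ₗ (i 0 ∘ₗ (g k 0 ∘ₗ r 0)) = C.d 0 ∘ₗ h 0 ∧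
      ∀ n, (i (n + 1) ∘ₗ (g k (n + 1) ∘ₗ r (n + 1))) ∘ₗ (i (n + 1) ∘ₗ (g j (n + 1) ∘ₗ r (n + 1))) -
        (i (n + 1) ∘ₗ (g j (n + 1) ∘ₗ r (n + 1))) ∘ₗ (i (n + 1) ∘ₗ (g k (n + 1) ∘ₗ r (n + 1))) =
          C.d (n + 1) ∘ₗ h (n + 1) + h n ∘ₗ C.d n := by
    intro j k
    have h1 := (((hg k).toMap.comp ((hr.comp hi).comp (hg j).toMap))).toLift
    have h2 := (((hg j).toMap.comp ((hr.comp hi).comp (hg k).toMap))).toLift
    have h3 : θ j ∘ₗ ((LinearMap.id ∘ₗ ((m : R) • LinearMap.id)) ∘ₗ θ k) =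
        θ k ∘ₗ ((LinearMap.id ∘ₗ ((m : R) • LinearMap.id)) ∘ₗ θ j) := by
      have h4 : θ j ∘ₗ θ k = θ k ∘ₗ θ j := by
        have h5 : θ j * θ k = θ k * θ j := by rw [← map_mul, ← map_mul, mul_comm]
        exact h5
      rw [LinearMap.id_comp, LinearMap.smul_comp, LinearMap.smul_comp, LinearMap.id_comp,
        LinearMap.id_comp, LinearMap.comp_smul, LinearMap.comp_smul, h4]
    rw [h3] at h2
    obtain ⟨h, hh1, hh2, hh3⟩ := exists_homotopy h1 h2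
    exact p3_htpy (Q := P.toCx) hi hr hh1 hh2 hh3
  obtain ⟨ℳ, hℳ⟩ := exists_mats_cx fam hfam c₀ c₁ ρ h₀ h₁ hC hG hh n
  have hcomp : ∀ (i₀ : fam.ix) (j : MvPolynomial I ℤ) (u : C.H (ρ i₀) n),
      (hG j).onH (ρ i₀) n u =
        hr.onH (ρ i₀) n ((hg j).toMap.onH (ρ i₀) n (hi.onH (ρ i₀) n u)) := by
    intro i₀ j u
    have h4 := LinearMap.congr_fun (IsMap.onH_comp (ρ i₀) hi ((hg j).toMap.comp hr) n) u
    have h5 := LinearMap.congr_fun (IsMap.onH_comp (ρ i₀) (hg j).toMap hr n) (hi.onH (ρ i₀) n u)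
    rw [LinearMap.comp_apply] at h4 h5
    exact h4.trans h5
  have hir : ∀ (i₀ : fam.ix) (u : P.toCx.H (ρ i₀) n),
      hi.onH (ρ i₀) n (hr.onH (ρ i₀) n u) = (m : Ω) • u := by
    intro i₀ u
    rw [p3_onH_comp (ρ i₀) hi hr n u, hmR]
  have hone : ∀ (i₀ : fam.ix) (u : P.toCx.H (ρ i₀) n), (hg 1).toMap.onH (ρ i₀) n u = u :=
    fun i₀ u => p3_onH_one (ρ i₀) (map_one θ) (hg 1) n u
  refine ⟨m, ℳ, hm0, ?_, ?_, ?_⟩
  · intro i₀ j
    obtain ⟨ψ, hψ⟩ := hℳ i₀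
    refine LinearMap.ext fun v => ?_
    obtain ⟨u, rfl⟩ := ψ.surjective v
    rw [Module.End.mul_apply, LinearMap.smul_apply, hψ, hψ, hcomp i₀ 1, hcomp i₀ j, hir, hone,
      map_smul, map_smul]
  · intro i₀ j
    obtain ⟨ψ, hψ⟩ := hℳ i₀
    refine LinearMap.ext fun v => ?_
    obtain ⟨u, rfl⟩ := ψ.surjective v
    rw [Module.End.mul_apply, LinearMap.smul_apply, hψ, hψ, hψ, hcomp i₀ j, hcomp i₀ 1, hcomp i₀ j,
      hir, hone, map_smul, map_smul, map_smul]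
  · intro i₀
    obtain ⟨ψ, hψ⟩ := hℳ i₀
    obtain ⟨K, hK⟩ := p3_exists_equiv (ρ i₀) hfree P n
    refine ⟨ψ.toLinearMap ∘ₗ (hr.onH (ρ i₀) n ∘ₗ K.toLinearMap), ?_, ?_, ?_⟩
    · intro u v huv
      simp only [LinearMap.comp_apply, LinearEquiv.coe_coe] at huv
      have h1 := congrArg (hi.onH (ρ i₀) n) (ψ.injective huv)
      rw [hir, hir] at h1
      exact K.injective (smul_right_injective _ hmΩ h1)
    · ext v
      constructor
      · rintro ⟨u, rfl⟩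
        refine ⟨(m : Ω)⁻¹ • ψ (hr.onH (ρ i₀) n (K u)), ?_⟩
        rw [map_smul, hψ, hcomp i₀ 1, hone, hir, map_smul, map_smul, smul_smul,
          inv_mul_cancel₀ hmΩ, one_smul]
        rfl
      · rintro ⟨w, rfl⟩
        obtain ⟨u, rfl⟩ := ψ.surjective w
        refine ⟨K.symm (hi.onH (ρ i₀) n u), ?_⟩
        rw [hψ, hcomp i₀ 1, hone]
        simp only [LinearMap.comp_apply, LinearEquiv.coe_coe, LinearEquiv.apply_symm_apply]
    · intro j u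
      simp only [LinearMap.comp_apply, LinearEquiv.coe_coe]
      rw [hψ, hcomp i₀ j, hir, map_smul, map_smul, map_smul, hK (hθ j) (hg j) u]

end Pool.Agent.Lib.MP_666dc0_nt.CL
end
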