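import Pool.Agent.Lib.MP_666dc0_nt.Mg.G001
import Pool.Agent.Lib.MP_666dc0_nt.WL.Base

section

open NumberField IsDedekindDomain
open scoped NumberField

namespace Pool.Agent.Lib.MP_666dc0_nt.WL

variable {Λ : Type} [AddCommGroup Λ] {Q : Λ →+ Λ →+ ℚ} {k : ℕ} {δ : ℚ}

/-- The quotient by a shortest vector is free of rank one less.
Proof: finite generation is clear; torsion-free by `mem_zmultiples_of_smul` (then
`Module.free_of_finite_type_torsion_free'` or `Module.free_iff_noZeroSMulDivisors`/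
`Module.IsTorsionFree`); the rank: `Submodule.finrank_quotient_add_finrank` for the submodule
`span ℤ {b}`, of rank one (`b` has infinite order since `Q (m • b) (m • b) = m² Q b b`). Beware of
`Λ ⧸ AddSubgroup.zmultiples b` versus the quotient by a submodule (`Submodule.Quotient`,
use `AddSubgroup.toIntSubmodule` and a linear equivalence). -/
theorem free_quotient [Module.Free ℤ Λ] [Module.Finite ℤ Λ] (h : IsLat Q k δ) {b : Λ}
    (hb : IsShortest Q b) : Module.Free ℤ (Λ ⧸ AddSubgroup.zmultiples b) ∧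
      Module.Finite ℤ (Λ ⧸ AddSubgroup.zmultiples b) ∧
      Module.finrank ℤ (Λ ⧸ AddSubgroup.zmultiples b) + 1 = Module.finrank ℤ Λ := by
  let f : Λ →ₗ[ℤ] (Λ ⧸ AddSubgroup.zmultiples b) :=
    (QuotientAddGroup.mk' (AddSubgroup.zmultiples b)).toIntLinearMap
  have hf : Function.Surjective f := QuotientAddGroup.mk'_surjective _
  have hker : ∀ x : Λ, f x = 0 ↔ x ∈ AddSubgroup.zmultiples b := fun x =>
    QuotientAddGroup.eq_zero_iff x
  have hfin : Module.Finite ℤ (Λ ⧸ AddSubgroup.zmultiples b) := Module.Finite.of_surjective f hf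
  have htf : Module.IsTorsionFree ℤ (Λ ⧸ AddSubgroup.zmultiples b) := by
    constructor
    intro r hr x y hxy
    have hr0 : r ≠ 0 := hr.ne_zero
    obtain ⟨x', rfl⟩ := hf x
    obtain ⟨y', rfl⟩ := hf y
    have h1 : f (r • (x' - y')) = 0 := by
      rw [map_smul, map_sub, smul_sub]
      exact sub_eq_zero.2 hxy
    have h2 := mem_zmultiples_of_smul h hb hr0 ((hker _).1 h1)
    have h3 := (hker _).2 h2
    rw [map_sub] at h3
    exact sub_eq_zero.1 h3
  have hfree : Module.Free ℤ (Λ ⧸ AddSubgroup.zmultiples b) :=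
    Module.free_of_finite_type_torsion_free'
  refine ⟨hfree, hfin, ?_⟩
  have e1 : LinearMap.ker f = Submodule.span ℤ {b} := by
    ext x
    rw [LinearMap.mem_ker, hker, Submodule.mem_span_singleton, AddSubgroup.mem_zmultiples_iff]
  have e2 : Module.finrank ℤ (Submodule.span ℤ {b} : Submodule ℤ Λ) = 1 := by
    rw [← (LinearEquiv.toSpanNonzeroSingleton ℤ Λ b hb.ne).finrank_eq, Module.finrank_self]
  have e3 := (LinearMap.ker f).finrank_quotient_add_finrank
  have e4 := (f.quotKerEquivOfSurjective hf).finrank_eq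
  rw [e4] at e3
  have e5 : Module.finrank ℤ (LinearMap.ker f) = 1 := by rw [e1, e2]
  rw [e5] at e3
  exact e3

/-- Rank one.
Proof: `Λ ≃ ℤ` with generator `e`; `b = c • e`, `c ≠ 0`; minimality gives `|c| = 1`
(`Q b b = c² Q e e ≤ Q e e`). So `b` generates and the coordinate `f` with `f b = 1` satisfies
`(f x)² = Q x x / Q b b` (as `x = f x • b`), so `δ ≤ 1 / Q b b`. -/
theorem rank_one [Module.Free ℤ Λ] [Module.Finite ℤ Λ] (h : IsLat Q k δ) (hδ : 0 < δ) {b : Λ}
    (hb : IsShortest Q b) (h1 : Module.finrank ℤ Λ = 1) :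
    AddSubgroup.closure ({b} : Set Λ) = ⊤ ∧ Q b b ≤ 1 / δ := by
  let B := Module.finBasisOfFinrankEq ℤ Λ h1
  have hB : ∀ x : Λ, x = B.repr x 0 • B 0 := by
    intro x
    conv_lhs => rw [← B.sum_repr x]
    rw [Fin.sum_univ_one]
  obtain ⟨e, he⟩ : ∃ e, e = B 0 := ⟨_, rfl⟩
  obtain ⟨c, hc⟩ : ∃ c, c = B.repr b 0 := ⟨_, rfl⟩
  have hbc : b = c • e := by rw [hc, he]; exact hB b
  have hQ : ∀ (m : ℤ) (x : Λ), Q (m • x) (m • x) = (m : ℚ) ^ 2 * Q x x := by
    intro m x
    rw [map_zsmul, map_zsmul, AddMonoidHom.zsmul_apply, zsmul_eq_mul, zsmul_eq_mul]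
    ring
  have hbb : 0 < Q b b := h.pos b hb.ne
  have he0 : e ≠ 0 := by
    intro h0
    apply hb.ne
    rw [hbc, h0, smul_zero]
  have hee : 0 < Q e e := h.pos e he0
  have hle := hb.le e he0
  have hc2 : c ^ 2 = 1 := by
    have h2 : (c : ℚ) ^ 2 * Q e e ≤ 1 * Q e e := by
      rw [one_mul, ← hQ, ← hbc]
      exact hle
    have h3 : (c : ℚ) ^ 2 ≤ 1 := le_of_mul_le_mul_right h2 hee
    have h4 : c ^ 2 ≤ 1 := by exact_mod_cast h3
    have h5 : c ≠ 0 := by
      intro h0
      apply hb.ne
      rw [hbc, h0, zero_smul]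
    have h6 : 0 < c ^ 2 := by positivity
    omega
  have hx : ∀ x : Λ, x = (c * B.repr x 0) • b := by
    intro x
    rw [hbc, smul_smul, mul_assoc, mul_comm (B.repr x 0) c, ← mul_assoc, ← sq, hc2, one_mul, he]
    exact hB x
  constructor
  · rw [eq_top_iff]
    intro x _
    rw [hx x]
    exact AddSubgroup.zsmul_mem _ (AddSubgroup.subset_closure (Set.mem_singleton b)) _
  · let f : Λ →+ ℤ :=
      { toFun := fun x => c * B.repr x 0
        map_zero' := by simp
        map_add' := fun x y => by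
          rw [map_add, Finsupp.add_apply, mul_add] }
    have hf : ∀ x, f x = c * B.repr x 0 := fun _ => rfl
    have hf0 : f ≠ 0 := by
      intro h0
      have h2 : f b = 0 := by rw [h0]; rfl
      rw [hf] at h2
      have h3 := hx b
      rw [h2, zero_smul] at h3
      exact hb.ne h3
    have h2 := h.dual f (1 / Q b b) hf0 (fun x => by
      have h3 : Q x x = (f x : ℚ) ^ 2 * Q b b := by
        conv_lhs => rw [hx x]
        rw [hQ, hf]
      rw [h3]
      have : 1 / Q b b * ((f x : ℚ) ^ 2 * Q b b) = (f x : ℚ) ^ 2 := by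
        field_simp
      rw [this])
    rw [le_div_iff₀ hbb] at h2
    rw [le_div_iff₀ hδ, mul_comm]
    exact h2

end Pool.Agent.Lib.MP_666dc0_nt.WL
end

section

open NumberField IsDedekindDomain
open scoped NumberField

namespace Pool.Agent.Lib.MP_666dc0_nt.WL

/-- The step of the reduction for lattices of rank at least two. -/
private theorem a1_step (N : ℕ) (hN : 1 ≤ N) (δ : ℚ)
    (ih : ∀ (Λ : Type) [AddCommGroup Λ] [Module.Free ℤ Λ] [Module.Finite ℤ Λ] (Q : Λ →+ Λ →+ ℚ)
      (k : ℕ), IsLat Q k δ → Module.finrank ℤ Λ = N →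
      ∃ b : Fin N → Λ, AddSubgroup.closure (Set.range b) = ⊤ ∧
        ∀ i, Q (b i) (b i) ≤ (4 / 3) ^ (N - 1) / δ)
    (Λ : Type) [AddCommGroup Λ] [Module.Free ℤ Λ] [Module.Finite ℤ Λ] (Q : Λ →+ Λ →+ ℚ)
    (k : ℕ) (h : IsLat Q k δ) (hr : Module.finrank ℤ Λ = N + 1) {b : Λ} (hb : IsShortest Q b) :
    ∃ b : Fin (N + 1) → Λ, AddSubgroup.closure (Set.range b) = ⊤ ∧
        ∀ i, Q (b i) (b i) ≤ (4 / 3) ^ N / δ := by
  obtain ⟨Q', k', hQ', hQ'eq⟩ := exists_quotient_form h hb
  obtain ⟨hfree, hfin, hrank⟩ := free_quotient h hb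
  have hr' : Module.finrank ℤ (Λ ⧸ AddSubgroup.zmultiples b) = N := by omega
  obtain ⟨c, hc, hcb⟩ := ih (Λ ⧸ AddSubgroup.zmultiples b) Q' k' hQ' hr'
  set C : ℚ := (4 / 3) ^ (N - 1) / δ with hC
  have hbb : 0 < Q b b := h.pos b hb.ne
  -- reduced representatives
  have hx : ∀ i, ∃ x : Λ, (QuotientAddGroup.mk x : Λ ⧸ AddSubgroup.zmultiples b) = c i ∧
      |Q x b| ≤ Q b b / 2 := by
    intro i
    obtain ⟨y, hy⟩ := QuotientAddGroup.mk_surjective (c i)
    obtain ⟨x, hx1, hx2⟩ := exists_reduced h hb y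
    refine ⟨x, ?_, hx2⟩
    rw [← hy]
    rw [QuotientAddGroup.eq]
    have : -x + y = -(x - y) := by abel
    rw [this]
    exact neg_mem hx1
  choose x hxc hxb using hx
  have hxx : ∀ i, Q (x i) (x i) ≤ C + Q b b / 4 := by
    intro i
    have h1 := hQ'eq (x i) (x i)
    rw [hxc i] at h1
    have h2 := hcb i
    rw [h1] at h2
    have h3 : Q (x i) b * Q (x i) b / Q b b ≤ Q b b / 4 := by
      rw [div_le_iff₀ hbb]
      have h4 : Q (x i) b * Q (x i) b = |Q (x i) b| * |Q (x i) b| := (abs_mul_abs_self _).symm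
      rw [h4]
      have h5 : |Q (x i) b| * |Q (x i) b| ≤ (Q b b / 2) * (Q b b / 2) :=
        mul_le_mul (hxb i) (hxb i) (abs_nonneg _) (by positivity)
      calc |Q (x i) b| * |Q (x i) b| ≤ (Q b b / 2) * (Q b b / 2) := h5
        _ = Q b b / 4 * Q b b := by ring
    linarith
  -- one of the representatives is not zero
  have hne : ∃ i, x i ≠ 0 := by
    by_contra hcon
    push Not at hcon
    have hc0 : ∀ i, c i = 0 := by
      intro i
      rw [← hxc i, hcon i]
      rfl
    have htop : (⊤ : AddSubgroup (Λ ⧸ AddSubgroup.zmultiples b)) ≤ ⊥ := by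
      rw [← hc, AddSubgroup.closure_le]
      rintro _ ⟨i, rfl⟩
      rw [hc0 i]
      exact zero_mem _
    have hsub : Subsingleton (Λ ⧸ AddSubgroup.zmultiples b) := by
      refine ⟨fun u v => ?_⟩
      have hu : u ∈ (⊥ : AddSubgroup (Λ ⧸ AddSubgroup.zmultiples b)) := htop (AddSubgroup.mem_top u)
      have hv : v ∈ (⊥ : AddSubgroup (Λ ⧸ AddSubgroup.zmultiples b)) := htop (AddSubgroup.mem_top v)
      rw [AddSubgroup.mem_bot] at hu hv
      rw [hu, hv]
    have : Module.finrank ℤ (Λ ⧸ AddSubgroup.zmultiples b) = 0 := Module.finrank_zero_of_subsingleton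
    omega
  have hbC : Q b b ≤ 4 / 3 * C := by
    obtain ⟨i, hi⟩ := hne
    have h1 := hb.le (x i) hi
    have h2 := hxx i
    linarith
  have hpow : (4 / 3 : ℚ) ^ N / δ = 4 / 3 * C := by
    rw [hC]
    obtain ⟨M, rfl⟩ : ∃ M, N = M + 1 := ⟨N - 1, by omega⟩
    rw [Nat.add_sub_cancel, pow_succ]
    ring
  refine ⟨Fin.cons b x, ?_, ?_⟩
  · rw [eq_top_iff]
    intro z _
    have hmap : AddSubgroup.map (QuotientAddGroup.mk' (AddSubgroup.zmultiples b))
        (AddSubgroup.closure (Set.range x)) = ⊤ := by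
      rw [AddMonoidHom.map_closure, ← hc]
      congr 1
      ext u
      constructor
      · rintro ⟨_, ⟨i, rfl⟩, rfl⟩
        exact ⟨i, (hxc i).symm⟩
      · rintro ⟨i, rfl⟩
        exact ⟨x i, ⟨i, rfl⟩, hxc i⟩
    have hz : (QuotientAddGroup.mk' (AddSubgroup.zmultiples b)) z ∈
        AddSubgroup.map (QuotientAddGroup.mk' (AddSubgroup.zmultiples b))
        (AddSubgroup.closure (Set.range x)) := by
      rw [hmap]
      exact AddSubgroup.mem_top _
    obtain ⟨w, hw, hwz⟩ := hz
    have hwz' : -w + z ∈ AddSubgroup.zmultiples b := QuotientAddGroup.eq.1 hwz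
    have h1 : z = w + (-w + z) := by abel
    rw [h1]
    refine add_mem ?_ ?_
    · refine AddSubgroup.closure_mono ?_ hw
      rintro _ ⟨i, rfl⟩
      exact ⟨i.succ, by rw [Fin.cons_succ]⟩
    · have hsub : AddSubgroup.zmultiples b ≤ AddSubgroup.closure (Set.range (Fin.cons b x : Fin (N + 1) → Λ)) := by
        rw [AddSubgroup.zmultiples_le]
        apply AddSubgroup.subset_closure
        exact ⟨0, by rw [Fin.cons_zero]⟩
      exact hsub hwz'
  · intro i
    rw [hpow]
    refine Fin.cases ?_ ?_ i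
    · rw [Fin.cons_zero]
      exact hbC
    · intro j
      rw [Fin.cons_succ]
      have := hxx j
      linarith

/-- Hermite reduction: a lattice with dual bound `δ` is generated by vectors of norm
`≤ (4/3)^(N-1) / δ`.
Proof: induction on `N`. `N = 0`: nothing (`Λ` is trivial: `Module.finrank_eq_zero_iff`/
`Subsingleton`; `closure ∅ = ⊥ = ⊤`). `N = 1`: `exists_shortest`, `rank_one`. `N + 1 ≥ 2`: let `b` be a
shortest vector (`Λ` is nontrivial as its rank is positive), `Q'` the form of
`exists_quotient_form`, and `c : Fin N → Λ / ℤ b` generators with `Q' (c i) (c i) ≤ C := (4/3)^(N-1)/δ`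
by the induction hypothesis (`free_quotient`). Let `y i` be a lift of `c i` and `x i` the reduced
representative of `exists_reduced`; then `Q (x i) (x i) = Q' (c i) (c i) + (Q (x i) b)²/Q b b ≤
C + Q b b / 4`. The family `Fin.cons b x` generates `Λ` (an element of `Λ` is modulo `b` a combination
of the `c i`). At least one `x i` is non-zero (as `N ≥ 1` and the quotient is not trivial), so
`Q b b ≤ C + Q b b / 4`, i.e. `Q b b ≤ (4/3) C`, and so `Q (x i) (x i) ≤ C + C/3 = (4/3) C`. -/
theorem exists_short_generators (N : ℕ) (δ : ℚ) (hδ : 0 < δ) :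
    ∀ (Λ : Type) [AddCommGroup Λ] [Module.Free ℤ Λ] [Module.Finite ℤ Λ] (Q : Λ →+ Λ →+ ℚ)
      (k : ℕ), IsLat Q k δ → Module.finrank ℤ Λ = N →
      ∃ b : Fin N → Λ, AddSubgroup.closure (Set.range b) = ⊤ ∧
        ∀ i, Q (b i) (b i) ≤ (4 / 3) ^ (N - 1) / δ := by
  induction N with
  | zero =>
    intro Λ _ _ _ Q k h hr
    have hsub : Subsingleton Λ := by
      rw [← Module.finrank_eq_zero_iff_of_free (R := ℤ)]
      exact hr
    refine ⟨Fin.elim0, ?_, fun i => i.elim0⟩
    rw [eq_top_iff]
    intro z _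
    rw [Subsingleton.elim z 0]
    exact zero_mem _
  | succ N ih =>
    intro Λ _ _ _ Q k h hr
    have hnt : Nontrivial Λ := by
      by_contra hcon
      rw [not_nontrivial_iff_subsingleton] at hcon
      have : Module.finrank ℤ Λ = 0 := Module.finrank_zero_of_subsingleton
      omega
    obtain ⟨b, hb⟩ := exists_shortest h
    rcases Nat.eq_zero_or_pos N with hN | hN
    · subst hN
      obtain ⟨h1, h2⟩ := rank_one h hδ hb (by omega)
      refine ⟨fun _ => b, ?_, ?_⟩
      · rw [Set.range_const]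
        exact h1
      · intro _
        simpa using h2
    · have := a1_step N hN δ ih Λ Q k h hr hb
      simpa using this

end Pool.Agent.Lib.MP_666dc0_nt.WL
end

section

open NumberField IsDedekindDomain
open scoped NumberField

namespace Pool.Agent.Lib.MP_666dc0_nt.WL

variable (F : Type) [Field F] [NumberField F]

private noncomputable def T1ev (v : HeightOneSpectrum (𝓞 F)) :
    FiniteAdeleRing (𝓞 F) F →+* v.adicCompletion F where
  toFun a := a v
  map_one' := rfl
  map_mul' _ _ := rfl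
  map_zero' := rfl
  map_add' _ _ := rfl

private theorem T1ev_apply (v : HeightOneSpectrum (𝓞 F)) (a : FiniteAdeleRing (𝓞 F) F) :
    T1ev F v a = a v := rfl

private theorem T1natCast_mem (v : HeightOneSpectrum (𝓞 F)) (m : ℕ) :
    (m : v.adicCompletion F) ∈ v.adicCompletionIntegers F := natCast_mem _ m

private theorem T1local (v : HeightOneSpectrum (𝓞 F)) (a : v.adicCompletion F) :
    ∃ m : ℕ, 0 < m ∧ (m : v.adicCompletion F) * a ∈ v.adicCompletionIntegers F := by
  obtain ⟨b, hb, hab⟩ :=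
    HeightOneSpectrum.adicCompletion.mul_nonZeroDivisor_mem_adicCompletionIntegers v a
  have hb0 : b ≠ 0 := nonZeroDivisors.ne_zero hb
  have hmem : ((Ideal.absNorm (Ideal.span {b}) : ℕ) : 𝓞 F) ∈ Ideal.span {b} :=
    Ideal.absNorm_mem _
  obtain ⟨c, hc⟩ := Ideal.mem_span_singleton'.1 hmem
  refine ⟨Ideal.absNorm (Ideal.span {b}), ?_, ?_⟩
  · apply Nat.pos_of_ne_zero
    rw [Ne, Ideal.absNorm_eq_zero_iff, Ideal.span_singleton_eq_bot]
    exact hb0
  · have h1 : ((Ideal.absNorm (Ideal.span {b}) : ℕ) : v.adicCompletion F) =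
        algebraMap (𝓞 F) (v.adicCompletion F) c * algebraMap (𝓞 F) (v.adicCompletion F) b := by
      rw [← map_mul, hc, map_natCast]
    rw [h1, mul_assoc, mul_comm (algebraMap (𝓞 F) (v.adicCompletion F) b) a]
    exact mul_mem (HeightOneSpectrum.coe_mem_adicCompletionIntegers v c) hab

/-- Every finite adele has a multiple `m a`, `m ∈ ℕ`, `m > 0`, in `Ô`.
Proof: the coercion of `a` is an element of the restricted product (`FiniteAdeleRing` unfolds to
`Πʳ v, [v.adicCompletion F, v.adicCompletionIntegers F]`, see `a.2`), so `a v` is integral outside a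
finite set `B` of places. For `v ∈ B` let `N v = Ideal.absNorm v.asIdeal`, a positive integer lying in
`v.asIdeal` (`Ideal.absNorm_mem`), so its image in `v.adicCompletion F` has valuation `< 1`, and
`(N v) ^ k * a v` has valuation `≤ 1` for `k` large (the value group is `ℤᵐ⁰`, archimedean).
Take the product over `v ∈ B` of the `(N v) ^ (k v)`; multiplying by further integers keeps
integrality. -/
theorem exists_mul_mem_Ohat (a : FiniteAdeleRing (𝓞 F) F) :
    ∃ m : ℕ, 0 < m ∧ (m : FiniteAdeleRing (𝓞 F) F) * a ∈ Ohat F := by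
  classical
  have hfin : {v : HeightOneSpectrum (𝓞 F) | ¬ a v ∈ v.adicCompletionIntegers F}.Finite := by
    have := a.2
    rw [Filter.eventually_cofinite] at this
    exact this
  choose m hm0 hm using fun v : HeightOneSpectrum (𝓞 F) => T1local F v (a v)
  refine ⟨∏ v ∈ hfin.toFinset, m v, Finset.prod_pos fun v _ => hm0 v, ?_⟩
  intro v
  have h1 : (((∏ w ∈ hfin.toFinset, m w : ℕ) : FiniteAdeleRing (𝓞 F) F) * a) v =
      ((∏ w ∈ hfin.toFinset, m w : ℕ) : v.adicCompletion F) * a v := by
    rw [← T1ev_apply, map_mul, map_natCast, T1ev_apply]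
  rw [h1]
  by_cases hv : a v ∈ v.adicCompletionIntegers F
  · exact mul_mem (T1natCast_mem F v _) hv
  · have hvB : v ∈ hfin.toFinset := by
      rw [Set.Finite.mem_toFinset]
      exact hv
    rw [← Finset.mul_prod_erase _ _ hvB, Nat.cast_mul,
      mul_comm (m v : v.adicCompletion F), mul_assoc]
    exact mul_mem (T1natCast_mem F v _) (hm v)

/-- Proof: `algebraMap F _ x v` is the coercion of `x`, of valuation `v.valuation F x`
(`IsDedekindDomain.HeightOneSpectrum.valuedAdicCompletion_eq_valuation'`); use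
`HeightOneSpectrum.mem_integers_of_valuation_le_one` for `⇒` and
`HeightOneSpectrum.valuation_le_one` for `⇐`, and that an element of `F` integral over `ℤ` is in the
image of `𝓞 F`. -/
theorem algebraMap_mem_Ohat (x : F) :
    algebraMap F (FiniteAdeleRing (𝓞 F) F) x ∈ Ohat F ↔ IsIntegral ℤ x := by
  constructor
  · intro h
    have h1 : x ∈ (algebraMap (𝓞 F) F).range := by
      apply HeightOneSpectrum.mem_integers_of_valuation_le_one
      intro v
      have h2 := h v
      rw [HeightOneSpectrum.mem_adicCompletionIntegers] at h2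
      rw [← HeightOneSpectrum.valuedAdicCompletion_eq_valuation']
      exact h2
    obtain ⟨y, hy⟩ := h1
    rw [← hy]
    exact NumberField.RingOfIntegers.isIntegral_coe y
  · intro h v
    rw [HeightOneSpectrum.mem_adicCompletionIntegers]
    show Valued.v ((x : F) : v.adicCompletion F) ≤ 1
    rw [HeightOneSpectrum.valuedAdicCompletion_eq_valuation']
    exact HeightOneSpectrum.valuation_le_one v (⟨x, h⟩ : 𝓞 F)

end Pool.Agent.Lib.MP_666dc0_nt.WL
end

section

open NumberField IsDedekindDomain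
open scoped NumberField

namespace Pool.Agent.Lib.MP_666dc0_nt.WL

variable (F : Type) [Field F] [NumberField F]

private noncomputable def T3ev (v : HeightOneSpectrum (𝓞 F)) :
    FiniteAdeleRing (𝓞 F) F →+* v.adicCompletion F where
  toFun a := a v
  map_one' := rfl
  map_mul' _ _ := rfl
  map_zero' := rfl
  map_add' _ _ := rfl

private theorem T3ev_apply (v : HeightOneSpectrum (𝓞 F)) (a : FiniteAdeleRing (𝓞 F) F) :
    T3ev F v a = a v := rfl

private theorem T3coe (v : HeightOneSpectrum (𝓞 F)) (x : F) :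
    algebraMap F (v.adicCompletion F) x = (x : v.adicCompletion F) := rfl

private theorem T3val (v : HeightOneSpectrum (𝓞 F)) (x : F) :
    Valued.v (algebraMap F (v.adicCompletion F) x) = v.valuation F x := by
  rw [T3coe, HeightOneSpectrum.valuedAdicCompletion_eq_valuation']

private theorem T3evalg (v : HeightOneSpectrum (𝓞 F)) (x : F) :
    (algebraMap F (FiniteAdeleRing (𝓞 F) F) x) v = algebraMap F (v.adicCompletion F) x := rfl

private theorem T3mF (m : ℕ) : ((m : 𝓞 F) : F) = (m : F) := by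
  exact map_natCast (algebraMap (𝓞 F) F) m

private theorem T3m1 (v : HeightOneSpectrum (𝓞 F)) (m : ℕ) : v.valuation F (m : F) ≤ 1 := by
  rw [← T3mF F m]
  exact HeightOneSpectrum.valuation_le_one v (m : 𝓞 F)

/-- Local approximation. -/
private theorem T3local (v : HeightOneSpectrum (𝓞 F)) (a : v.adicCompletion F)
    (ha : a ∈ v.adicCompletionIntegers F) (m : ℕ) (hm : 0 < m) :
    ∃ y : 𝓞 F, Valued.v (algebraMap F (v.adicCompletion F) (y : F) - a) ≤
      v.valuation F (m : F) := by
  have hmF : (m : F) ≠ 0 := Nat.cast_ne_zero.2 hm.ne'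
  have hvm : v.valuation F (m : F) ≠ 0 := (Valuation.ne_zero_iff _).2 hmF
  have hm1 : v.valuation F (m : F) ≤ 1 := T3m1 F v m
  have hmc : (Valued.v (R := v.adicCompletion F)).restrict
      (algebraMap F (v.adicCompletion F) (m : F)) ≠ 0 := by
    rw [Ne, Valuation.restrict_eq_zero_iff, T3val]
    exact hvm
  have hnh : {y : v.adicCompletion F | (Valued.v (R := v.adicCompletion F)).restrict (y - a) <
      (Valued.v (R := v.adicCompletion F)).restrict
        (algebraMap F (v.adicCompletion F) (m : F))} ∈ nhds a := by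
    rw [Valued.mem_nhds]
    exact ⟨Units.mk0 _ hmc, fun y hy => hy⟩
  obtain ⟨z, hz, x, rfl⟩ := mem_closure_iff_nhds.1
    (HeightOneSpectrum.denseRange_algebraMap (R := 𝓞 F) (K := F) v a) _ hnh
  have hx : Valued.v (algebraMap F (v.adicCompletion F) x - a) < v.valuation F (m : F) := by
    rw [← T3val F v (m : F)]
    exact Valuation.restrict_lt_iff _ |>.1 hz
  have hx1 : v.valuation F x ≤ 1 := by
    rw [← T3val F v x]
    have h1 : algebraMap F (v.adicCompletion F) x =
        (algebraMap F (v.adicCompletion F) x - a) + a := by ring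
    rw [h1]
    refine (Valuation.map_add _ _ _).trans (max_le (hx.le.trans hm1) ?_)
    exact (HeightOneSpectrum.mem_adicCompletionIntegers _ _ _).1 ha
  obtain ⟨y, hy⟩ := HeightOneSpectrum.exists_valuation_sub_lt_of_integer v hx1 (Units.mk0 _ hvm)
  refine ⟨y, ?_⟩
  have h2 : algebraMap F (v.adicCompletion F) (y : F) - a =
      algebraMap F (v.adicCompletion F) ((y : F) - x) +
        (algebraMap F (v.adicCompletion F) x - a) := by
    rw [map_sub]; ring
  rw [h2]
  refine (Valuation.map_add _ _ _).trans (max_le ?_ hx.le)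
  rw [T3val]
  exact hy.le

/-- Chinese remainder: integral adeles are approximated by integers.
Proof: let `B` be the finite set of the height one primes dividing `m` (the ideal
`span {m} ≠ ⊥`), `e v` the exponent of `v` in it (`Associates.count` or `multiplicity`, or simply
use exponents `k v` with `Valued.v m ≥ exp (- k v)`). For `v ∈ B` choose `y v : 𝓞 F` with
`Valued.v (y v - a v) ≤ Valued.v (m)` in `v.adicCompletion F` (density of `𝓞 F` in
`v.adicCompletionIntegers F`: `denseRange_algebraMap` gives density of `F` in the completion; an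
element `x` of `F` with `v.valuation x ≤ 1` is congruent modulo `v ^ k` to an element of `𝓞 F`:
write `x = r / s` with `s ∉ v`, or look for a lemma such as
`HeightOneSpectrum.exists_valuation_sub_lt_of_integer`/`exists_adicValued_mul_sub_le`). By
`IsDedekindDomain.exists_forall_sub_mem_ideal` there is `y : 𝓞 F` with
`y - y v ∈ v.asIdeal ^ (k v)` for all `v ∈ B`. Then `(y - a)/m` has valuation `≤ 1` at all `v ∈ B`,
and at `v ∉ B` since `m` is a unit there. (`m` is invertible in the finite adeles: it is the image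
of `(m : F) ≠ 0`.) -/
theorem exists_sub_mem_of_integral (a : FiniteAdeleRing (𝓞 F) F) (ha : a ∈ Ohat F) (m : ℕ)
    (hm : 0 < m) : ∃ y : 𝓞 F, ∃ b ∈ Ohat F,
      algebraMap F (FiniteAdeleRing (𝓞 F) F) (y : F) - a = m * b := by
  classical
  have hmF : (m : F) ≠ 0 := Nat.cast_ne_zero.2 hm.ne'
  have hmO : (m : 𝓞 F) ≠ 0 := Nat.cast_ne_zero.2 hm.ne'
  have hfin : {v : HeightOneSpectrum (𝓞 F) | v.asIdeal ∣ Ideal.span {(m : 𝓞 F)}}.Finite := by
    apply Ideal.finite_factors
    rw [Ne, Submodule.zero_eq_bot, Ideal.span_singleton_eq_bot]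
    exact hmO
  choose z hz using fun v : HeightOneSpectrum (𝓞 F) => T3local F v (a v) (ha v) m hm
  obtain ⟨y, hy⟩ := IsDedekindDomain.exists_forall_sub_mem_ideal (s := hfin.toFinset)
    (fun v : HeightOneSpectrum (𝓞 F) => v.asIdeal)
    (fun v => multiplicity v.asIdeal (Ideal.span {(m : 𝓞 F)}))
    (fun v _ => v.prime) (fun v _ w _ hvw h => hvw (HeightOneSpectrum.ext h))
    (fun v => z v)
  have key : ∀ v : HeightOneSpectrum (𝓞 F),
      Valued.v (algebraMap F (v.adicCompletion F) (y : F) - a v) ≤ v.valuation F (m : F) := by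
    intro v
    by_cases hv : v.asIdeal ∣ Ideal.span {(m : 𝓞 F)}
    · have h1 := hy v (hfin.mem_toFinset.2 hv)
      have h2 : v.intValuation (y - z v) ≤ v.intValuation (m : 𝓞 F) := by
        rw [v.intValuation_eq_exp_neg_multiplicity hmO]
        exact (v.intValuation_le_pow_iff_mem _ _).2 h1
      have h3 : algebraMap F (v.adicCompletion F) (y : F) - a v =
          algebraMap F (v.adicCompletion F) ((y - z v : 𝓞 F) : F) +
            (algebraMap F (v.adicCompletion F) (z v : F) - a v) := by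
        have : ((y - z v : 𝓞 F) : F) = (y : F) - (z v : F) := map_sub _ _ _
        rw [this, map_sub]; ring
      rw [h3]
      refine (Valuation.map_add _ _ _).trans (max_le ?_ (hz v))
      rw [T3val, ← T3mF F m]
      exact (HeightOneSpectrum.valuation_of_algebraMap (K := F) v _).le.trans
        (h2.trans (HeightOneSpectrum.valuation_of_algebraMap (K := F) v _).ge)
    · have h1 : v.valuation F (m : F) = 1 := by
        refine le_antisymm (T3m1 F v m) ?_
        rw [← not_lt, ← T3mF F m]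
        intro h
        exact hv ((HeightOneSpectrum.valuation_lt_one_iff_dvd v _).1 h)
      rw [h1]
      refine (Valuation.map_sub _ _ _).trans (max_le ?_ ?_)
      · rw [T3val]
        exact HeightOneSpectrum.valuation_le_one v y
      · exact (HeightOneSpectrum.mem_adicCompletionIntegers _ _ _).1 (ha v)
  refine ⟨y, algebraMap F (FiniteAdeleRing (𝓞 F) F) (m : F)⁻¹ *
    (algebraMap F (FiniteAdeleRing (𝓞 F) F) (y : F) - a), ?_, ?_⟩
  · intro v
    rw [HeightOneSpectrum.mem_adicCompletionIntegers, ← T3ev_apply, map_mul, map_sub, T3ev_apply,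
      T3ev_apply, T3ev_apply, T3evalg, T3evalg, map_mul, T3val, map_inv₀]
    have hvm : v.valuation F (m : F) ≠ 0 := (Valuation.ne_zero_iff _).2 hmF
    rw [inv_mul_le_iff₀ (zero_lt_iff.2 hvm), mul_one]
    exact key v
  · rw [← mul_assoc, ← map_natCast (algebraMap F (FiniteAdeleRing (𝓞 F) F)) m, ← map_mul,
      mul_inv_cancel₀ hmF, map_one, one_mul]

/-- Density of `F` in the finite adeles.
Proof: by `exists_mul_mem_Ohat` there is `d > 0` with `d a ∈ Ô`. Apply
`exists_sub_mem_of_integral` to `d a` and `d m`, and divide by `d`: `x = y / d`. -/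
theorem exists_sub_mem (a : FiniteAdeleRing (𝓞 F) F) (m : ℕ) (hm : 0 < m) :
    ∃ x : F, ∃ b ∈ Ohat F, algebraMap F (FiniteAdeleRing (𝓞 F) F) x - a = m * b := by
  obtain ⟨d, hd, hda⟩ := exists_mul_mem_Ohat F a
  obtain ⟨y, b, hb, hyb⟩ := exists_sub_mem_of_integral F _ hda (d * m) (Nat.mul_pos hd hm)
  have hdF : (d : F) ≠ 0 := Nat.cast_ne_zero.2 hd.ne'
  refine ⟨(d : F)⁻¹ * (y : F), b, hb, ?_⟩
  have h1 : algebraMap F (FiniteAdeleRing (𝓞 F) F) (d : F)⁻¹ *
      (d : FiniteAdeleRing (𝓞 F) F) = 1 := by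
    rw [← map_natCast (algebraMap F (FiniteAdeleRing (𝓞 F) F)) d, ← map_mul,
      inv_mul_cancel₀ hdF, map_one]
  calc algebraMap F (FiniteAdeleRing (𝓞 F) F) ((d : F)⁻¹ * (y : F)) - a
      = algebraMap F (FiniteAdeleRing (𝓞 F) F) (d : F)⁻¹ *
          (algebraMap F (FiniteAdeleRing (𝓞 F) F) (y : F) - d * a) := by
        rw [map_mul, mul_sub, ← mul_assoc _ (d : FiniteAdeleRing (𝓞 F) F), h1, one_mul]
    _ = m * b := by
        rw [hyb, Nat.cast_mul, mul_assoc (d : FiniteAdeleRing (𝓞 F) F), ← mul_assoc, h1, one_mul]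

end Pool.Agent.Lib.MP_666dc0_nt.WL
end

section

open NumberField IsDedekindDomain
open scoped NumberField

namespace Pool.Agent.Lib.MP_666dc0_nt.WL

variable {F : Type} [Field F] [NumberField F] {n : ℕ} {D : Datum F n}

private theorem a2a_den (M : Matrix (Fin n) (Fin n) (FiniteAdeleRing (𝓞 F) F)) :
    ∃ m : ℕ, 0 < m ∧ ∀ i j, (m : FiniteAdeleRing (𝓞 F) F) * M i j ∈ Ohat F := by
  choose m hm hM using fun (p : Fin n × Fin n) => exists_mul_mem_Ohat F (M p.1 p.2)
  refine ⟨∏ p, m p, Finset.prod_pos (fun p _ => hm p), ?_⟩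
  intro i j
  obtain ⟨c, hc⟩ : m (i, j) ∣ ∏ p, m p := Finset.dvd_prod_of_mem m (Finset.mem_univ (i, j))
  have e : ((∏ p, m p : ℕ) : FiniteAdeleRing (𝓞 F) F) * M i j
      = (c : FiniteAdeleRing (𝓞 F) F) * ((m (i, j) : FiniteAdeleRing (𝓞 F) F) * M i j) := by
    rw [hc, Nat.cast_mul]
    ring
  rw [e]
  exact mul_mem (natCast_mem _ c) (hM (i, j))

private theorem a2a_mulVec {M : Matrix (Fin n) (Fin n) (FiniteAdeleRing (𝓞 F) F)}
    {c : FiniteAdeleRing (𝓞 F) F} (hM : ∀ i j, c * M i j ∈ Ohat F)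
    {y : Fin n → FiniteAdeleRing (𝓞 F) F} (hy : ∀ j, y j ∈ Ohat F) (i : Fin n) :
    c * M.mulVec y i ∈ Ohat F := by
  have e : c * M.mulVec y i = ∑ j, (c * M i j) * y j := by
    rw [Matrix.mulVec, dotProduct, Finset.mul_sum]
    refine Finset.sum_congr rfl fun j _ => ?_
    ring
  rw [e]
  exact sum_mem fun j _ => mul_mem (hM i j) (hy j)

private theorem a2a_av_nat (m : ℕ) (x : F) :
    algebraMap F (FiniteAdeleRing (𝓞 F) F) ((m : F) * x) =
      (m : FiniteAdeleRing (𝓞 F) F) * algebraMap F (FiniteAdeleRing (𝓞 F) F) x := by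
  rw [map_mul, map_natCast]

/-- Commensurability of the lattice of `g` with `(𝓞 F)^n`.
Proof: by `exists_mul_mem_Ohat` (finitely many entries, multiply) there is `m > 0` with all entries
of `m * mat g` and `m * mat g⁻¹` in `Ô`. For `x ∈ lat g`: `av x = mat g *ᵥ (mat g⁻¹ *ᵥ av x)`
(`mat_mul_inv`), so `m * av x k ∈ Ô`, and `algebraMap_mem_Ohat`. Conversely for integral `x`,
`mat g⁻¹ *ᵥ av (m x) = (m mat g⁻¹) *ᵥ av x` has entries in `Ô`. -/
theorem exists_den_lat (g : D.Ad) : ∃ m : ℕ, 0 < m ∧
    (∀ x ∈ lat g, ∀ k, IsIntegral ℤ ((m : F) * x k)) ∧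
    ∀ x : Fin n → F, (∀ k, IsIntegral ℤ (x k)) → (fun k => (m : F) * x k) ∈ lat g := by
  obtain ⟨m₁, hm₁, h₁⟩ := a2a_den (mat g)
  obtain ⟨m₂, hm₂, h₂⟩ := a2a_den (mat g⁻¹)
  refine ⟨m₁ * m₂, Nat.mul_pos hm₁ hm₂, ?_, ?_⟩
  · intro x hx k
    rw [← algebraMap_mem_Ohat]
    rw [a2a_av_nat]
    have hav : av x = (mat g).mulVec ((mat g⁻¹).mulVec (av x)) := by
      rw [Matrix.mulVec_mulVec, mat_mul_inv, Matrix.one_mulVec]
    have e : algebraMap F (FiniteAdeleRing (𝓞 F) F) (x k)
        = (mat g).mulVec ((mat g⁻¹).mulVec (av x)) k := congrFun hav k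
    rw [e, Nat.cast_mul, mul_comm (m₁ : FiniteAdeleRing (𝓞 F) F), mul_assoc]
    exact mul_mem (natCast_mem _ m₂) (a2a_mulVec h₁ hx k)
  · intro x hx i
    have hx' : ∀ k, av x k ∈ Ohat F := fun k => (algebraMap_mem_Ohat F (x k)).2 (hx k)
    have e : av (fun k => ((m₁ * m₂ : ℕ) : F) * x k) =
        ((m₁ * m₂ : ℕ) : FiniteAdeleRing (𝓞 F) F) • av x := by
      funext k
      exact a2a_av_nat _ _
    rw [e, Matrix.mulVec_smul]
    change ((m₁ * m₂ : ℕ) : FiniteAdeleRing (𝓞 F) F) * (mat g⁻¹).mulVec (av x) i ∈ Ohat F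
    rw [Nat.cast_mul, mul_assoc]
    exact mul_mem (natCast_mem _ m₁) (a2a_mulVec h₂ hx' i)

/-- Proof: `x ↦ (m x_k)_k` is an injective additive map from `lat g` to `Fin n → 𝓞 F`, a free
`ℤ`-module of rank `n [F : ℚ]` (`NumberField.RingOfIntegers.rank`,
`Module.finrank_pi_fintype`); submodules of it are free and finite
(`Module.free_of_finite_of...`/`Submodule.instFree...` over a PID, `Module.Finite` since `ℤ` is
noetherian) of smaller rank (`LinearMap.finrank_le_finrank_of_injective`). -/
theorem lat_free (g : D.Ad) : Module.Free ℤ (lat g) ∧ Module.Finite ℤ (lat g) ∧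
    Module.finrank ℤ (lat g) ≤ rk F n := by
  obtain ⟨m, hm, h1, _⟩ := exists_den_lat g
  let φ : lat g →+ (Fin n → 𝓞 F) :=
    { toFun := fun x k => ⟨(m : F) * x.1 k, h1 x.1 x.2 k⟩
      map_zero' := by
        funext k
        apply RingOfIntegers.ext
        change (m : F) * ((0 : lat g) : Fin n → F) k = 0
        simp
      map_add' := by
        intro x y
        funext k
        apply RingOfIntegers.ext
        change (m : F) * ((x + y : lat g) : Fin n → F) k = (m : F) * x.1 k + (m : F) * y.1 k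
        rw [← mul_add]
        rfl }
  have hinj : Function.Injective φ.toIntLinearMap := by
    intro x y hxy
    apply Subtype.ext
    funext k
    have h := congrArg (fun z : Fin n → 𝓞 F => ((z k : 𝓞 F) : F)) hxy
    have h' : (m : F) * x.1 k = (m : F) * y.1 k := h
    have hm0 : (m : F) ≠ 0 := by exact_mod_cast hm.ne'
    exact mul_left_cancel₀ hm0 h'
  have hfin : Module.Finite ℤ (lat g) := Module.Finite.of_injective φ.toIntLinearMap hinj
  have htf : Module.IsTorsionFree ℤ (lat g) := by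
    exact Function.Injective.moduleIsTorsionFree φ.toIntLinearMap hinj (fun c x => map_smul _ c x)
  refine ⟨Module.free_of_finite_type_torsion_free', hfin, ?_⟩
  refine (LinearMap.finrank_le_finrank_of_injective hinj).trans ?_
  rw [Module.finrank_pi_fintype]
  simp only [Finset.sum_const, Finset.card_univ, Fintype.card_fin, smul_eq_mul]
  rw [NumberField.RingOfIntegers.rank]
  exact le_refl _

/-- The lattice of `g` spans `F^n`. Proof: it contains `m e_k` (`exists_den_lat`). -/
theorem span_lat (g : D.Ad) : Submodule.span F (lat g : Set (Fin n → F)) = ⊤ := by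
  obtain ⟨m, hm, _, h2⟩ := exists_den_lat g
  have hm0 : (m : F) ≠ 0 := by exact_mod_cast hm.ne'
  rw [eq_top_iff]
  intro x _
  have hx : x = ∑ k, (x k * (m : F)⁻¹) • (fun j => (m : F) * (Pi.single k (1 : F) : Fin n → F) j) := by
    funext j
    rw [Finset.sum_apply]
    simp only [Pi.smul_apply, smul_eq_mul]
    rw [Finset.sum_eq_single j]
    · rw [Pi.single_eq_same, mul_one, mul_assoc, inv_mul_cancel₀ hm0, mul_one]
    · intro k _ hk
      rw [Pi.single_eq_of_ne hk.symm, mul_zero, mul_zero]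
    · intro h
      exact absurd (Finset.mem_univ j) h
  rw [hx]
  refine Submodule.sum_mem _ fun k _ => Submodule.smul_mem _ _ (Submodule.subset_span ?_)
  apply h2
  intro j
  by_cases hjk : j = k
  · subst hjk
    rw [Pi.single_eq_same]
    exact isIntegral_one
  · rw [Pi.single_eq_of_ne hjk]
    exact isIntegral_zero

/-- `lat g` is stable under multiplication by integers of `F`.
Proof: `mat g⁻¹ *ᵥ av (a x) = a • (mat g⁻¹ *ᵥ av x)`, and `a ∈ Ô` (`algebraMap_mem_Ohat`). -/
theorem smul_mem_lat (g : D.Ad) (a : F) (ha : IsIntegral ℤ a) {x : Fin n → F} (hx : x ∈ lat g) :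
    a • x ∈ lat g := by
  intro i
  have e : av (a • x) = algebraMap F (FiniteAdeleRing (𝓞 F) F) a • av x := by
    funext k
    exact map_mul _ _ _
  rw [e, Matrix.mulVec_smul]
  exact mul_mem ((algebraMap_mem_Ohat F a).2 ha) (hx i)

/-- Approximation in the lattice.
Proof: let `m₂ > 0` with `m₂ mat g⁻¹` integral (entries in `Ô`). By `exists_sub_mem`, for each `k`
there is `x k : F` with `x k - (mat g *ᵥ y) k = (M m₂) b k`, `b k ∈ Ô`. Then
`mat g⁻¹ *ᵥ (av x - mat g *ᵥ y) = M • ((m₂ mat g⁻¹) *ᵥ b)`; put `u = (m₂ mat g⁻¹) *ᵥ b`. So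
`av x = mat g *ᵥ (y + M u)` and `mat g⁻¹ *ᵥ av x = y + M u` has entries in `Ô`. -/
theorem exists_lat_approx (g : D.Ad) (y : Fin n → FiniteAdeleRing (𝓞 F) F)
    (hy : ∀ k, y k ∈ Ohat F) (M : ℕ) (hM : 0 < M) :
    ∃ x ∈ lat g, ∃ u : Fin n → FiniteAdeleRing (𝓞 F) F, (∀ k, u k ∈ Ohat F) ∧
      av x = (mat g).mulVec (y + (M : FiniteAdeleRing (𝓞 F) F) • u) := by
  obtain ⟨m₂, hm₂, h₂⟩ := a2a_den (mat g⁻¹)
  choose x b hb hxb using fun k : Fin n =>
    exists_sub_mem F ((mat g).mulVec y k) (M * m₂) (Nat.mul_pos hM hm₂)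
  set u : Fin n → FiniteAdeleRing (𝓞 F) F :=
    (m₂ : FiniteAdeleRing (𝓞 F) F) • (mat g⁻¹).mulVec b with hu
  have huO : ∀ k, u k ∈ Ohat F := fun k => a2a_mulVec h₂ hb k
  have h3 : av x = (mat g).mulVec (y + (M : FiniteAdeleRing (𝓞 F) F) • u) := by
    rw [Matrix.mulVec_add, Matrix.mulVec_smul, hu, Matrix.mulVec_smul, Matrix.mulVec_mulVec,
      mat_mul_inv, Matrix.one_mulVec]
    funext k
    have h := hxb k
    rw [Nat.cast_mul] at h
    change algebraMap F (FiniteAdeleRing (𝓞 F) F) (x k) = (mat g).mulVec y k +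
      (M : FiniteAdeleRing (𝓞 F) F) * ((m₂ : FiniteAdeleRing (𝓞 F) F) * b k)
    rw [← mul_assoc, ← h]
    ring
  refine ⟨x, ?_, u, huO, h3⟩
  intro i
  rw [h3, Matrix.mulVec_mulVec, mat_inv_mul, Matrix.one_mulVec]
  exact add_mem (hy i) (mul_mem (natCast_mem _ M) (huO i))

end Pool.Agent.Lib.MP_666dc0_nt.WL
end

section

open NumberField IsDedekindDomain
open scoped NumberField RestrictedProduct

namespace Pool.Agent.Lib.MP_666dc0_nt.WL

variable (F : Type) [Field F] [NumberField F]

/-- The finite adeles are Hausdorff. -/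
theorem t2Space_adele : T2Space (FiniteAdeleRing (𝓞 F) F) :=
  inferInstanceAs (T2Space
    (Πʳ v : HeightOneSpectrum (𝓞 F), [v.adicCompletion F, v.adicCompletionIntegers F]))

/-- The integral adeles are open. -/
theorem isOpen_Ohat : IsOpen (Ohat F : Set (FiniteAdeleRing (𝓞 F) F)) :=
  RestrictedProduct.isOpen_forall_mem fun _ => Valued.isOpen_valuationSubring _

/-- Every local integer is congruent to a global integer. -/
private theorem T5approx (v : HeightOneSpectrum (𝓞 F)) (x : v.adicCompletion F)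
    (hx : x ∈ v.adicCompletionIntegers F) :
    ∃ a : 𝓞 F, Valued.v (((algebraMap (𝓞 F) F a : F) : v.adicCompletion F) - x) < 1 := by
  have hopen : IsOpen {y : v.adicCompletion F | Valued.v (y - x) < 1} := by
    have h1 := Valued.isOpen_ball (v.adicCompletion F) 1
    simp only [Valuation.restrict_lt_one_iff] at h1
    exact h1.preimage (continuous_id.sub continuous_const)
  obtain ⟨k, hk⟩ := (HeightOneSpectrum.denseRange_algebraMap (R := 𝓞 F) (K := F) v).exists_mem_open
    hopen ⟨x, by
      show Valued.v (x - x) < 1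
      rw [sub_self, map_zero]
      exact zero_lt_one⟩
  have hk' : Valued.v ((k : v.adicCompletion F) - x) < 1 := hk
  have hk1 : v.valuation F k ≤ 1 := by
    rw [← HeightOneSpectrum.valuedAdicCompletion_eq_valuation']
    have h2 : (k : v.adicCompletion F) = ((k : v.adicCompletion F) - x) + x := by ring
    rw [h2]
    refine (Valuation.map_add _ _ _).trans (max_le hk'.le ?_)
    exact (HeightOneSpectrum.mem_adicCompletionIntegers _ _ _).1 hx
  obtain ⟨a, ha⟩ := HeightOneSpectrum.exists_valuation_sub_lt_of_integer v hk1 1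
  refine ⟨a, ?_⟩
  have h3 : (((algebraMap (𝓞 F) F a : F) : v.adicCompletion F) - x) =
      (((algebraMap (𝓞 F) F a - k : F) : v.adicCompletion F)) +
        ((k : v.adicCompletion F) - x) := by
    have h4 : ((algebraMap (𝓞 F) F a - k : F) : v.adicCompletion F) =
        ((algebraMap (𝓞 F) F a : F) : v.adicCompletion F) - (k : v.adicCompletion F) := by
      have := map_sub (algebraMap F (v.adicCompletion F)) (algebraMap (𝓞 F) F a) k
      exact this
    rw [h4]
    ring
  rw [h3]
  refine (Valuation.map_add _ _ _).trans_lt (max_lt ?_ hk')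
  rw [HeightOneSpectrum.valuedAdicCompletion_eq_valuation']
  exact ha

/-- The residue fields are finite: `𝓞 F / v` maps onto them. -/
private theorem T5finite (v : HeightOneSpectrum (𝓞 F)) :
    Finite (IsLocalRing.ResidueField (v.adicCompletionIntegers F)) := by
  have hfin : Finite (𝓞 F ⧸ v.asIdeal) :=
    Ideal.finiteQuotientOfFreeOfNeBot v.asIdeal v.ne_bot
  let f : 𝓞 F →+* IsLocalRing.ResidueField (v.adicCompletionIntegers F) :=
    (IsLocalRing.residue _).comp (algebraMap (𝓞 F) (v.adicCompletionIntegers F))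
  have hker : ∀ a ∈ v.asIdeal, f a = 0 := by
    intro a ha
    show IsLocalRing.residue _ (algebraMap (𝓞 F) (v.adicCompletionIntegers F) a) = 0
    rw [IsLocalRing.residue_eq_zero_iff]
    refine (Valuation.mem_maximalIdeal_iff _ (Valued.v (R := v.adicCompletion F))).2 ?_
    show Valued.v (((algebraMap (𝓞 F) F a : F) : v.adicCompletion F)) < 1
    rw [HeightOneSpectrum.valuedAdicCompletion_eq_valuation']
    exact (HeightOneSpectrum.valuation_lt_one_iff_mem v a).2 ha
  let g : 𝓞 F ⧸ v.asIdeal →+* IsLocalRing.ResidueField (v.adicCompletionIntegers F) :=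
    Ideal.Quotient.lift v.asIdeal f hker
  refine Finite.of_surjective g fun y => ?_
  obtain ⟨x, rfl⟩ := IsLocalRing.residue_surjective y
  obtain ⟨a, ha⟩ := T5approx F v x.1 x.2
  refine ⟨Ideal.Quotient.mk _ a, ?_⟩
  show IsLocalRing.residue _ (algebraMap (𝓞 F) (v.adicCompletionIntegers F) a) = _
  rw [← sub_eq_zero, ← map_sub, IsLocalRing.residue_eq_zero_iff]
  exact (Valuation.mem_maximalIdeal_iff _ (Valued.v (R := v.adicCompletion F))).2 ha

/-- The local integers are compact. -/
private theorem T5compact (v : HeightOneSpectrum (𝓞 F)) :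
    CompactSpace (v.adicCompletionIntegers F) := by
  have h1 : Finite (IsLocalRing.ResidueField (v.adicCompletionIntegers F)) := T5finite F v
  have h2 : CompleteSpace (v.adicCompletionIntegers F) :=
    (Valued.isClosed_valuationSubring (v.adicCompletion F)).completeSpace_coe
  have h3 : IsDiscreteValuationRing (v.adicCompletionIntegers F) := inferInstance
  exact (Valued.integer.compactSpace_iff_completeSpace_and_isDiscreteValuationRing_and_finite_residueField
    (K := v.adicCompletion F)).2 ⟨h2, h3, h1⟩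

/-- The integral adeles are compact: the image of the product of the local integers. -/
theorem isCompact_Ohat : IsCompact (Ohat F : Set (FiniteAdeleRing (𝓞 F) F)) := by
  have : ∀ v : HeightOneSpectrum (𝓞 F), CompactSpace (v.adicCompletionIntegers F) := T5compact F
  have h1 := RestrictedProduct.range_structureMap
    (R := fun v : HeightOneSpectrum (𝓞 F) => v.adicCompletion F)
    (A := fun v : HeightOneSpectrum (𝓞 F) => (v.adicCompletionIntegers F : Set (v.adicCompletion F)))
    (𝓕 := Filter.cofinite)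
  have h2 : (Ohat F : Set (FiniteAdeleRing (𝓞 F) F)) = Set.range (RestrictedProduct.structureMap
    (fun v : HeightOneSpectrum (𝓞 F) => v.adicCompletion F)
    (fun v : HeightOneSpectrum (𝓞 F) => (v.adicCompletionIntegers F : Set (v.adicCompletion F)))
    Filter.cofinite) := by
    rw [h1]
    rfl
  rw [h2]
  have : CompactSpace (∀ v : HeightOneSpectrum (𝓞 F),
      ((v.adicCompletionIntegers F : Set (v.adicCompletion F)) : Type)) :=
    inferInstanceAs (CompactSpace (∀ v : HeightOneSpectrum (𝓞 F), v.adicCompletionIntegers F))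
  exact isCompact_range (RestrictedProduct.isEmbedding_structureMap).continuous

/-- Proof: the sets `U m = {a | (m !) * a ∈ Ô}` are open (`isOpen_Ohat`), increasing, and cover
everything by `exists_mul_mem_Ohat`. -/
theorem exists_mul_mem_Ohat_of_isCompact (C : Set (FiniteAdeleRing (𝓞 F) F)) (hC : IsCompact C) :
    ∃ m : ℕ, 0 < m ∧ ∀ a ∈ C, (m : FiniteAdeleRing (𝓞 F) F) * a ∈ Ohat F := by
  have hopen : ∀ m : ℕ, IsOpen {a : FiniteAdeleRing (𝓞 F) F |
      ((m.factorial : ℕ) : FiniteAdeleRing (𝓞 F) F) * a ∈ Ohat F} := by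
    intro m
    exact (isOpen_Ohat F).preimage (continuous_const.mul continuous_id)
  obtain ⟨t, ht⟩ := hC.elim_finite_subcover _ hopen (by
    intro a _
    obtain ⟨m, hm, hma⟩ := exists_mul_mem_Ohat F a
    refine Set.mem_iUnion.2 ⟨m, ?_⟩
    obtain ⟨c, hc⟩ := Nat.dvd_factorial hm le_rfl
    show ((m.factorial : ℕ) : FiniteAdeleRing (𝓞 F) F) * a ∈ Ohat F
    rw [hc]
    push_cast
    have h1 : (m : FiniteAdeleRing (𝓞 F) F) * c * a = (c : FiniteAdeleRing (𝓞 F) F) * (m * a) := by
      ring
    rw [h1]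
    exact mul_mem (natCast_mem _ c) hma)
  refine ⟨(t.sup id).factorial, Nat.factorial_pos _, fun a ha => ?_⟩
  obtain ⟨m, hm, hma⟩ := Set.mem_iUnion₂.1 (ht ha)
  have hle : m ≤ t.sup id := Finset.le_sup (f := id) hm
  obtain ⟨c, hc⟩ := Nat.factorial_dvd_factorial hle
  rw [hc]
  push_cast
  have h1 : ((m.factorial : ℕ) : FiniteAdeleRing (𝓞 F) F) * c * a =
      (c : FiniteAdeleRing (𝓞 F) F) * ((m.factorial : ℕ) * a) := by
    ring
  rw [h1]
  exact mul_mem (natCast_mem _ c) hma

end Pool.Agent.Lib.MP_666dc0_nt.WL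
end
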