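import Pool.Agent.Lib.MP_666dc0_nt.WL.Base
import Pool.Agent.Lib.MP_666dc0_nt.Mg.G002
import Pool.Agent.Lib.MP_666dc0_nt.WL.K3

section

open NumberField IsDedekindDomain
open scoped NumberField

namespace Pool.Agent.Lib.MP_666dc0_nt.WL

variable {F : Type} [Field F] [NumberField F] {n : ℕ} {D : Datum F n}

private theorem A2e_real [IsTotallyReal F] :
    ∃ T : (F →ₐ[ℚ] ℂ) → (F →+* ℝ), ∀ (σ : F →ₐ[ℚ] ℂ) (x : F), ((T σ x : ℝ) : ℂ) = σ x := by
  refine ⟨fun σ => (IsTotallyReal.complexEmbedding_isReal (σ : F →+* ℂ)).embedding,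
    fun σ x => ?_⟩
  exact ComplexEmbedding.IsReal.coe_embedding_apply
    (IsTotallyReal.complexEmbedding_isReal (σ : F →+* ℂ)) x

private theorem A2e_trace (T : (F →ₐ[ℚ] ℂ) → (F →+* ℝ))
    (hT : ∀ (σ : F →ₐ[ℚ] ℂ) (x : F), ((T σ x : ℝ) : ℂ) = σ x) (x : F) :
    ((Algebra.trace ℚ F x : ℚ) : ℝ) = ∑ σ : F →ₐ[ℚ] ℂ, T σ x := by
  have h := trace_eq_sum_embeddings (K := ℚ) (L := F) ℂ (x := x)
  have h2 : (((∑ σ : F →ₐ[ℚ] ℂ, T σ x : ℝ)) : ℂ) = ((((Algebra.trace ℚ F x : ℚ) : ℝ)) : ℂ) := by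
    rw [Complex.ofReal_sum, Finset.sum_congr rfl fun σ _ => hT σ x, ← h]
    simp
  exact (Complex.ofReal_injective h2).symm

/-- In a totally real field the trace is the sum over the real embeddings, so an element whose
images under all embeddings `F → ℝ` are positive has positive trace.
Proof: `Algebra.trace_eq_sum_embeddings` with `ℂ`: `(trace x : ℂ) = ∑ σ : F →ₐ[ℚ] ℂ, σ x`. Each
`σ` is real (`IsTotallyReal`: all infinite places are real, so all complex embeddings are real,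
`NumberField.ComplexEmbedding.IsReal`, `IsTotallyReal.complexEmbedding_isReal` or similar), hence
`σ x = ((τ x : ℝ) : ℂ)` for a `τ : F →+* ℝ` (`ComplexEmbedding.IsReal.embedding`). The sum is not
empty. -/
theorem trace_pos [IsTotallyReal F] (x : F) (hx : ∀ τ : F →+* ℝ, 0 < τ x) :
    0 < Algebra.trace ℚ F x := by
  obtain ⟨T, hT⟩ := A2e_real (F := F)
  have h1 := A2e_trace T hT x
  have h2 : (0 : ℝ) < ((Algebra.trace ℚ F x : ℚ) : ℝ) := by
    rw [h1]
    haveI : Nonempty (F →ₐ[ℚ] ℂ) := ⟨(Classical.arbitrary (F →+* ℂ)).toRatAlgHom⟩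
    exact Finset.sum_pos (fun σ _ => hx (T σ)) Finset.univ_nonempty
  exact_mod_cast h2

/-- More precisely every `τ x` is at most the trace, if all `τ x ≥ 0`. Proof: as before. -/
theorem le_trace [IsTotallyReal F] (x : F) (hx : ∀ τ : F →+* ℝ, 0 ≤ τ x) (τ : F →+* ℝ) :
    τ x ≤ (Algebra.trace ℚ F x : ℝ) := by
  obtain ⟨T, hT⟩ := A2e_real (F := F)
  rw [A2e_trace T hT x]
  have h0 : T ((Complex.ofRealHom.comp τ).toRatAlgHom) x = τ x := by
    apply Complex.ofReal_injective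
    rw [hT]
    rfl
  rw [← h0]
  exact Finset.single_le_sum (f := fun σ : F →ₐ[ℚ] ℂ => T σ x) (fun σ _ => hx (T σ))
    (Finset.mem_univ _)

private theorem A2e_map_qf (τ : F →+* ℝ) (x y : Fin n → F) :
    τ (qf D (RingHom.id F) x y) = (fun k => τ (x k)) ⬝ᵥ (D.q.map τ).mulVec (fun k => τ (y k)) := by
  simp only [qf, dotProduct, Matrix.mulVec, map_sum, map_mul, Matrix.map_apply, RingHom.id_apply]

/-- Proof: `τ (qf x x) = (τ x)ᵀ (q.map τ) (τ x) > 0` by positive definiteness, as `τ ∘ x ≠ 0`. -/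
theorem qf_pos (hD : IsTotPosDef D.q) (x : Fin n → F) (hx : x ≠ 0) (τ : F →+* ℝ) :
    0 < τ (qf D (RingHom.id F) x x) := by
  have h := hD.2 τ
  rw [A2e_map_qf]
  have hx' : (fun k => τ (x k)) ≠ 0 := by
    intro h0
    apply hx
    funext k
    have := congrFun h0 k
    simpa using this
  have := h.dotProduct_mulVec_pos hx'
  simpa using this

/-- Symmetry of the form. -/
theorem qf_symm (hD : IsTotPosDef D.q) (x y : Fin n → F) :
    qf D (RingHom.id F) x y = qf D (RingHom.id F) y x := by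
  unfold qf
  rw [Matrix.dotProduct_mulVec, ← Matrix.mulVec_transpose, dotProduct_comm]
  have : (D.q.map (RingHom.id F)).transpose = D.q.map (RingHom.id F) := by
    rw [← Matrix.transpose_map, hD.1.eq]
  rw [this]

private theorem A2e_coercive {n : ℕ} (M : Matrix (Fin n) (Fin n) ℝ) (hM : M.PosDef) :
    ∃ c : ℝ, 0 < c ∧ ∀ (v : Fin n → ℝ) (k : Fin n), c * v k ^ 2 ≤ v ⬝ᵥ M.mulVec v := by
  rcases Nat.eq_zero_or_pos n with hn | hn
  · subst hn
    exact ⟨1, one_pos, fun v k => k.elim0⟩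
  haveI : Nonempty (Fin n) := ⟨⟨0, hn⟩⟩
  have hcont : Continuous fun v : Fin n → ℝ => v ⬝ᵥ M.mulVec v := by
    unfold dotProduct Matrix.mulVec dotProduct
    fun_prop
  have hne : (Metric.sphere (0 : Fin n → ℝ) 1).Nonempty := NormedSpace.sphere_nonempty.2 zero_le_one
  obtain ⟨u, hu, hu'⟩ := (isCompact_sphere (0 : Fin n → ℝ) 1).exists_isMinOn hne
    hcont.continuousOn
  have hu0 : u ≠ 0 := by
    intro h
    rw [h] at hu
    simp at hu
  have hpos : ∀ v : Fin n → ℝ, v ≠ 0 → 0 < v ⬝ᵥ M.mulVec v := by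
    intro v hv
    have := hM.dotProduct_mulVec_pos hv
    simpa using this
  refine ⟨u ⬝ᵥ M.mulVec u, hpos u hu0, fun v k => ?_⟩
  by_cases hv : v = 0
  · subst hv
    simp
  have hnv : ‖v‖ ≠ 0 := norm_ne_zero_iff.2 hv
  have hw : ‖v‖⁻¹ • v ∈ Metric.sphere (0 : Fin n → ℝ) 1 := by
    rw [mem_sphere_zero_iff_norm, norm_smul, norm_inv, norm_norm, inv_mul_cancel₀ hnv]
  have h1 := hu' hw
  simp only [Set.mem_setOf_eq] at h1
  rw [Matrix.mulVec_smul, dotProduct_smul, smul_dotProduct, smul_eq_mul, smul_eq_mul] at h1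
  have h2 : (u ⬝ᵥ M.mulVec u) * ‖v‖ ^ 2 ≤ v ⬝ᵥ M.mulVec v := by
    have h3 : ‖v‖⁻¹ * (‖v‖⁻¹ * (v ⬝ᵥ M.mulVec v)) * ‖v‖ ^ 2 = v ⬝ᵥ M.mulVec v := by
      field_simp
    calc (u ⬝ᵥ M.mulVec u) * ‖v‖ ^ 2 ≤ ‖v‖⁻¹ * (‖v‖⁻¹ * (v ⬝ᵥ M.mulVec v)) * ‖v‖ ^ 2 :=
          mul_le_mul_of_nonneg_right h1 (by positivity)
      _ = _ := h3
  refine le_trans ?_ h2
  refine mul_le_mul_of_nonneg_left ?_ (hpos u hu0).le
  have h4 : |v k| ≤ ‖v‖ := by
    rw [← Real.norm_eq_abs]
    exact norm_le_pi_norm v k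
  calc v k ^ 2 = |v k| ^ 2 := (sq_abs _).symm
    _ ≤ ‖v‖ ^ 2 := pow_le_pow_left₀ (abs_nonneg _) h4 2

/-- Vectors of bounded norm have bounded coordinates at all real places.
Proof: fix `τ` (finitely many). The function `v ↦ vᵀ (q.map τ) v` on `ℝ^n` is continuous and
positive on the compact unit sphere, so `vᵀ (q.map τ) v ≥ c_τ ∑ v_k²` with `c_τ > 0`. For `x` with
`trace (qf x x) ≤ C` we get `τ (qf x x) ≤ C` by `le_trace`, so `(τ (x k))² ≤ C / c_τ`. -/
theorem exists_coord_bound [IsTotallyReal F] (hD : IsTotPosDef D.q) (C : ℝ) :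
    ∃ C' : ℝ, ∀ x : Fin n → F, (Algebra.trace ℚ F (qf D (RingHom.id F) x x) : ℝ) ≤ C →
      ∀ (k : Fin n) (τ : F →+* ℝ), |τ (x k)| ≤ C' := by
  have h1 : ∀ τ : F →+* ℝ, ∃ c : ℝ, 0 < c ∧ ∀ (v : Fin n → ℝ) (k : Fin n),
      c * v k ^ 2 ≤ v ⬝ᵥ (D.q.map τ).mulVec v := fun τ => A2e_coercive _ (hD.2 τ)
  choose c hc hc' using h1
  refine ⟨∑ τ : F →+* ℝ, Real.sqrt (C / c τ), fun x hx k τ => ?_⟩
  have h2 : ∀ τ : F →+* ℝ, 0 ≤ τ (qf D (RingHom.id F) x x) := by
    intro τ
    by_cases h0 : x = 0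
    · subst h0
      rw [A2e_map_qf]
      simp
    · exact (qf_pos hD x h0 τ).le
  have h3 := (le_trace _ h2 τ).trans hx
  rw [A2e_map_qf] at h3
  have h4 : (τ (x k)) ^ 2 ≤ C / c τ := by
    rw [le_div_iff₀ (hc τ), mul_comm]
    exact (hc' τ _ k).trans h3
  refine (Real.abs_le_sqrt h4).trans ?_
  exact Finset.single_le_sum (f := fun σ : F →+* ℝ => Real.sqrt (C / c σ))
    (fun σ _ => Real.sqrt_nonneg _) (Finset.mem_univ τ)

end Pool.Agent.Lib.MP_666dc0_nt.WL
end

section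

open NumberField IsDedekindDomain
open scoped NumberField

namespace Pool.Agent.Lib.MP_666dc0_nt.WL

variable {F : Type} [Field F] [NumberField F] {n : ℕ} {D : Datum F n}

section lin

variable {N : ℕ}

/-- the linear combination of the family -/
private noncomputable def a4_comb (b : Fin N → Fin n → F) : (Fin N → F) →ₗ[F] (Fin n → F) :=
  Fintype.linearCombination F b

omit [NumberField F] in
private theorem a4_comb_apply (b : Fin N → Fin n → F) (c : Fin N → F) :
    a4_comb b c = ∑ i, c i • b i := rfl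

omit [NumberField F] in
private theorem a4_comb_single (b : Fin N → Fin n → F) (i : Fin N) :
    a4_comb b (Pi.single i 1) = b i := by
  classical
  rw [a4_comb_apply, Finset.sum_eq_single i]
  · simp
  · intro j _ hj
    rw [Pi.single_eq_of_ne hj, zero_smul]
  · intro h
    exact (h (Finset.mem_univ _)).elim

omit [NumberField F] in
private theorem a4_mulVec_comb (M : Matrix (Fin n) (Fin n) F) (b : Fin N → Fin n → F)
    (c : Fin N → F) : M.mulVec (a4_comb b c) = ∑ i, c i • M.mulVec (b i) := by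
  rw [a4_comb_apply]
  have h := map_sum (Matrix.mulVecLin M) (fun i => c i • b i) Finset.univ
  simp only [map_smul, Matrix.mulVecLin_apply] at h
  exact h

omit [NumberField F] in
private theorem a4_qf_comb (b : Fin N → Fin n → F) (c c' : Fin N → F) :
    qf D (RingHom.id F) (a4_comb b c) (a4_comb b c') =
      ∑ i, ∑ j, c i * c' j * gram D b i j := by
  unfold gram qf
  rw [a4_mulVec_comb, a4_comb_apply, sum_dotProduct]
  refine Finset.sum_congr rfl fun i _ => ?_
  rw [dotProduct_sum]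
  refine Finset.sum_congr rfl fun j _ => ?_
  rw [smul_dotProduct, dotProduct_smul, smul_eq_mul, smul_eq_mul, mul_assoc]

omit [NumberField F] in
private theorem a4_pairT_comb (b : Fin N → Fin n → F) (s : Fin D.m)
    (c : Fin (D.deg s) → Fin N → F) :
    pairT D (RingHom.id F) s (fun t => a4_comb b (c t)) =
      ∑ I : Fin (D.deg s) → Fin N, (∏ t, c t (I t)) * tens D b s I := by
  unfold tens pairT
  have h1 : ∀ J : Fin (D.deg s) → Fin n,
      ∏ t, (D.q.map (RingHom.id F)).mulVec (a4_comb b (c t)) (J t) =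
      ∑ I : Fin (D.deg s) → Fin N, ∏ t, (c t (I t) *
        (D.q.map (RingHom.id F)).mulVec (b (I t)) (J t)) := by
    intro J
    have h2 : ∀ t, (D.q.map (RingHom.id F)).mulVec (a4_comb b (c t)) (J t) =
        ∑ i, c t i * (D.q.map (RingHom.id F)).mulVec (b i) (J t) := by
      intro t
      rw [a4_mulVec_comb, Finset.sum_apply]
      rfl
    simp only [h2]
    rw [Finset.prod_univ_sum]
    simp only [Fintype.piFinset_univ]
  simp only [h1, Finset.mul_sum]
  rw [Finset.sum_comm]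
  refine Finset.sum_congr rfl fun I _ => ?_
  refine Finset.sum_congr rfl fun J _ => ?_
  rw [Finset.prod_mul_distrib]
  ring

private theorem a4_exists_real [IsTotallyReal F] : Nonempty (F →+* ℝ) := by
  have v : InfinitePlace F := Classical.arbitrary _
  exact ⟨v.embedding_of_isReal (IsTotallyReal.isReal v)⟩

private theorem a4_qf_self [IsTotallyReal F] (hD : IsTotPosDef D.q) (x : Fin n → F)
    (h : qf D (RingHom.id F) x x = 0) : x = 0 := by
  by_contra hx
  obtain ⟨τ⟩ := a4_exists_real (F := F)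
  have h1 := qf_pos hD x hx τ
  rw [h, map_zero] at h1
  exact lt_irrefl _ h1

private theorem a4_ker [IsTotallyReal F] (hD : IsTotPosDef D.q) {b b' : Fin N → Fin n → F}
    (hg : gram D b = gram D b') (c : Fin N → F) (h : a4_comb b c = 0) : a4_comb b' c = 0 := by
  apply a4_qf_self hD
  rw [a4_qf_comb, ← hg, ← a4_qf_comb, h]
  unfold qf
  rw [zero_dotProduct]

private theorem a4_exists_map [IsTotallyReal F] (hD : IsTotPosDef D.q)
    {b b' : Fin N → Fin n → F} (hs : Submodule.span F (Set.range b) = ⊤)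
    (hg : gram D b = gram D b') : ∃ φ : (Fin n → F) →ₗ[F] (Fin n → F),
      ∀ c, φ (a4_comb b c) = a4_comb b' c := by
  have hr : LinearMap.range (a4_comb b) = ⊤ := by
    rw [← hs]
    exact Fintype.range_linearCombination F b
  obtain ⟨s, hs'⟩ := (a4_comb b).exists_rightInverse_of_surjective hr
  refine ⟨a4_comb b' ∘ₗ s, fun c => ?_⟩
  rw [LinearMap.comp_apply, ← sub_eq_zero, ← map_sub]
  apply a4_ker hD hg
  rw [map_sub, sub_eq_zero]
  exact LinearMap.congr_fun hs' _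

end lin

private theorem a4_span {g : D.Ad} {C : ℝ} {b : Fin (rk F n) → Fin n → F} (hb : IsShort g C b) :
    Submodule.span F (Set.range b) = ⊤ := by
  rw [eq_top_iff, ← span_lat g, Submodule.span_le]
  intro x hx
  have h1 : (lat g) ≤ (Submodule.span F (Set.range b)).toAddSubgroup := by
    rw [← hb.gen, AddSubgroup.closure_le]
    exact Submodule.subset_span
  exact h1 hx

/-- Equal Gram matrices and equal tensor pairings: the families are conjugate under `G(F)`.
Proof. `span F (range b) = ⊤` (closure of the range is `lat g`; `span_lat`), same for `b'`. If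
`∑ c_i b_i = 0` then `qf (∑ c_i b'_i) b'_j = ∑ c_i qf b_i b_j = 0` for all `j`, so
`∑ c_i b'_i` is orthogonal to everything and is `0` (`qf_pos` with a real embedding; there is one).
So there is a linear map `φ : F^n → F^n` with `φ (b i) = b' i` (e.g. choose a subfamily of `b` that is
a basis, `Basis.constr`; or lift along the surjection `(Fin N → F) → F^n`, `c ↦ ∑ c_i b_i`, whose
kernel is contained in that of `c ↦ ∑ c_i b'_i`: `LinearMap.range_eq_top`,
`(LinearMap.quotKerEquivOfSurjective ..)`). `φ` preserves `qf` (bilinearity), is injective, and its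
matrix `γ₀` satisfies `γ₀ᵀ q γ₀ = q` (`q` symmetric is not needed). For the tensors: for all `I`,
`∑_J (tensAct γ₀ w) J ∏ (q b'_{I t}) (J t) = pairT w (γ₀⁻¹ b'_{I t}) = pairT w (b_{I t}) =
pairT w (b'_{I t})` (computation as in `pairT_mulVec`, using `q γ₀ y = (γ₀⁻¹)ᵀ q y`), and the tensors
`⊗ q b'_{I t}` span the dual of `(F^n)^{⊗ a}` (multilinear expansion: since the `b'` span `F^n` and
`q` is invertible, the equality for all families from `b'` extends by multilinearity to all families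
`y`, in particular to `q y_t = e_{J₀ t}`, which gives the `J₀` coordinate). So `tensAct γ₀ w = w`. -/
theorem exists_rat_of_data [IsTotallyReal F] (hD : IsTotPosDef D.q) {g g' : D.Ad} {C : ℝ}
    {b b' : Fin (rk F n) → Fin n → F} (hb : IsShort g C b) (hb' : IsShort g' C b')
    (hg : gram D b = gram D b') (ht : tens D b = tens D b') :
    ∃ γ : D.Rat, ∀ i, γ.1.1.mulVec (b i) = b' i := by
  classical
  have hs := a4_span hb
  have hs' := a4_span hb'
  obtain ⟨φ, hφ⟩ := a4_exists_map hD hs hg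
  obtain ⟨ψ, hψ⟩ := a4_exists_map hD hs' hg.symm
  have hsurj : ∀ x, ∃ c, a4_comb b c = x := by
    intro x
    have hr : LinearMap.range (a4_comb b) = ⊤ := by
      rw [← hs]
      exact Fintype.range_linearCombination F b
    have : x ∈ LinearMap.range (a4_comb b) := by rw [hr]; exact Submodule.mem_top
    exact this
  have hsurj' : ∀ x, ∃ c, a4_comb b' c = x := by
    intro x
    have hr : LinearMap.range (a4_comb b') = ⊤ := by
      rw [← hs']
      exact Fintype.range_linearCombination F b'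
    have : x ∈ LinearMap.range (a4_comb b') := by rw [hr]; exact Submodule.mem_top
    exact this
  have h1 : φ ∘ₗ ψ = LinearMap.id := by
    apply LinearMap.ext
    intro x
    obtain ⟨c, rfl⟩ := hsurj' x
    rw [LinearMap.comp_apply, hψ, hφ]
    rfl
  have h2 : ψ ∘ₗ φ = LinearMap.id := by
    apply LinearMap.ext
    intro x
    obtain ⟨c, rfl⟩ := hsurj x
    rw [LinearMap.comp_apply, hφ, hψ]
    rfl
  set γ₀ : Matrix (Fin n) (Fin n) F := LinearMap.toMatrix' φ with hγ₀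
  set δ₀ : Matrix (Fin n) (Fin n) F := LinearMap.toMatrix' ψ with hδ₀
  have h3 : γ₀ * δ₀ = 1 := by
    rw [hγ₀, hδ₀, ← LinearMap.toMatrix'_comp, h1, LinearMap.toMatrix'_id]
  have h4 : δ₀ * γ₀ = 1 := by
    rw [hγ₀, hδ₀, ← LinearMap.toMatrix'_comp, h2, LinearMap.toMatrix'_id]
  have hγv : ∀ x, γ₀.mulVec x = φ x := by
    intro x
    rw [hγ₀, LinearMap.toMatrix'_mulVec]
  have hqid : D.q.map (RingHom.id F) = D.q := by
    ext i j
    rfl
  -- the form
  have hqf : ∀ x y, qf D (RingHom.id F) (γ₀.mulVec x) (γ₀.mulVec y) = qf D (RingHom.id F) x y := by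
    intro x y
    obtain ⟨c, rfl⟩ := hsurj x
    obtain ⟨c', rfl⟩ := hsurj y
    rw [hγv, hγv, hφ, hφ, a4_qf_comb, a4_qf_comb, hg]
  have hq : γ₀.transpose * D.q * γ₀ = D.q := by
    ext i j
    have h5 := hqf (Pi.single i 1) (Pi.single j 1)
    unfold qf at h5
    rw [hqid, Matrix.mulVec_mulVec, Matrix.dotProduct_mulVec, Matrix.vecMul_mulVec,
      ← Matrix.dotProduct_mulVec, single_one_dotProduct, single_one_dotProduct,
      Matrix.mulVec_single_one, Matrix.mulVec_single_one] at h5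
    rw [Matrix.mul_assoc]
    exact h5
  -- the tensors
  have hpair : ∀ (s : Fin D.m) (y : Fin (D.deg s) → Fin n → F),
      pairT D (RingHom.id F) s (fun t => γ₀.mulVec (y t)) = pairT D (RingHom.id F) s y := by
    intro s y
    choose c hc using fun t => hsurj (y t)
    have h6 : y = fun t => a4_comb b (c t) := funext fun t => (hc t).symm
    have h7 : (fun t => γ₀.mulVec (y t)) = fun t => a4_comb b' (c t) := by
      funext t
      rw [hγv, ← hc t, hφ]
    rw [h7, h6, a4_pairT_comb, a4_pairT_comb, ht]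
  have hdet : IsUnit D.q.det := by
    obtain ⟨τ⟩ := a4_exists_real (F := F)
    have h8 := (hD.2 τ).det_pos
    have h9 : (D.q.map τ).det = τ D.q.det := by
      rw [RingHom.map_det]
      rfl
    rw [h9] at h8
    rw [isUnit_iff_ne_zero]
    intro h0
    rw [h0, map_zero] at h8
    exact lt_irrefl _ h8
  have hqinv : D.q * D.q⁻¹ = 1 := Matrix.mul_nonsing_inv _ hdet
  have hγq : γ₀.transpose * D.q = D.q * δ₀ := by
    calc γ₀.transpose * D.q = γ₀.transpose * D.q * (γ₀ * δ₀) := by rw [h3, Matrix.mul_one]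
      _ = (γ₀.transpose * D.q * γ₀) * δ₀ := by simp only [Matrix.mul_assoc]
      _ = _ := by rw [hq]
  have hten : ∀ s : Fin D.m, tensAct γ₀ (D.w s) = D.w s := by
    intro s
    funext J₀
    have h10 := hpair s (fun t => δ₀.mulVec (D.q⁻¹.mulVec (Pi.single (J₀ t) 1)))
    unfold pairT at h10
    rw [hqid] at h10
    have h11 : ∀ t, D.q.mulVec (γ₀.mulVec (δ₀.mulVec (D.q⁻¹.mulVec (Pi.single (J₀ t) 1)))) =
        Pi.single (J₀ t) 1 := by
      intro t
      have e : ∀ v : Fin n → F, γ₀.mulVec (δ₀.mulVec v) = v := by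
        intro v
        rw [Matrix.mulVec_mulVec, h3, Matrix.one_mulVec]
      rw [e, Matrix.mulVec_mulVec, hqinv, Matrix.one_mulVec]
    have h12 : ∀ t, D.q.mulVec (δ₀.mulVec (D.q⁻¹.mulVec (Pi.single (J₀ t) 1))) =
        γ₀.transpose.mulVec (Pi.single (J₀ t) 1) := by
      intro t
      rw [Matrix.mulVec_mulVec, Matrix.mulVec_mulVec, ← hγq, Matrix.mul_assoc, hqinv,
        Matrix.mul_one]
    simp only [h11, h12] at h10
    unfold tensAct
    have h13 : ∑ J : Fin (D.deg s) → Fin n, (RingHom.id F) (D.w s J) *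
        ∏ t, (Pi.single (J₀ t) (1 : F) : Fin n → F) (J t) = D.w s J₀ := by
      rw [Finset.sum_eq_single J₀]
      · simp
      · intro J _ hJ
        obtain ⟨t, ht'⟩ : ∃ t, J t ≠ J₀ t := by
          by_contra hcon
          push Not at hcon
          exact hJ (funext hcon)
        rw [Finset.prod_eq_zero (Finset.mem_univ t) (Pi.single_eq_of_ne ht' _), mul_zero]
      · intro h
        exact (h (Finset.mem_univ _)).elim
    rw [h13] at h10
    rw [h10]
    refine Finset.sum_congr rfl fun J _ => ?_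
    rw [mul_comm]
    congr 1
    refine Finset.prod_congr rfl fun t _ => ?_
    rw [Matrix.mulVec_single_one]
    rfl
  refine ⟨⟨⟨γ₀, δ₀, h3, h4⟩, ?_, ?_⟩, ?_⟩
  · change γ₀.transpose * D.q.map (RingHom.id F) * γ₀ = D.q.map (RingHom.id F)
    rw [hqid]
    exact hq
  · intro s
    exact hten s
  · intro i
    change γ₀.mulVec (b i) = b' i
    rw [hγv, ← a4_comb_single b i, hφ, a4_comb_single]

private theorem a4_av_mulVec (γ : D.Rat) (x : Fin n → F) :
    av (γ.1.1.mulVec x) = (mat (D.toAd γ)).mulVec (av x) := by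
  rw [mat_toAd]
  funext k
  exact RingHom.map_mulVec _ _ _ _

/-- Proof: `γ` maps the generators `b i` of `lat g` into `lat g'`, hence `lat g` into `lat g'`. Put
`k = g'⁻¹ * toAd γ * g`. For `y` with entries in `Ô` choose `M > 0` with `M (mat k)` integral
(`exists_mul_mem_Ohat`) and `x ∈ lat g` with `av x = mat g (y + M u)` (`exists_lat_approx`). Then
`mat g'⁻¹ av (γ x) = mat k (y + M u)` has entries in `Ô` as `γ x ∈ lat g'`, and so has `mat k (M u)`,
hence `mat k y`. With `y = e_j`: the entries of `mat k` are in `Ô`. (`mat_toAd`, `mat_mul`,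
`av (γ x) = (γ.map alg) av x`: `RingHom.map_mulVec`.) -/
theorem integral_of_mapsTo {g g' : D.Ad} (γ : D.Rat)
    (h : ∀ x ∈ lat g, γ.1.1.mulVec x ∈ lat g') (i j : Fin n) :
    mat (g'⁻¹ * D.toAd γ * g) i j ∈ Ohat F := by
  classical
  set k : D.Ad := g'⁻¹ * D.toAd γ * g with hk
  obtain ⟨M, hM, hMk⟩ : ∃ M : ℕ, 0 < M ∧ ∀ a c, (M : FiniteAdeleRing (𝓞 F) F) * mat k a c ∈ Ohat F := by
    choose m hm hmk using fun p : Fin n × Fin n => exists_mul_mem_Ohat F (mat k p.1 p.2)
    refine ⟨∏ p, m p, Finset.prod_pos fun p _ => hm p, fun a c => ?_⟩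
    have h1 := Finset.mul_prod_erase Finset.univ m (Finset.mem_univ (a, c))
    rw [← h1, Nat.cast_mul, mul_comm ((m (a, c) : ℕ) : FiniteAdeleRing (𝓞 F) F), mul_assoc]
    exact mul_mem (natCast_mem _ _) (hmk (a, c))
  obtain ⟨x, hx, u, hu, hxu⟩ := exists_lat_approx g (Pi.single j 1) (by
    intro l
    by_cases hl : l = j
    · subst hl
      rw [Pi.single_eq_same]
      exact one_mem _
    · rw [Pi.single_eq_of_ne hl]
      exact zero_mem _) M hM
  have h1 : (mat g'⁻¹).mulVec (av (γ.1.1.mulVec x)) i ∈ Ohat F := h x hx i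
  rw [a4_av_mulVec, hxu, Matrix.mulVec_mulVec, Matrix.mulVec_mulVec,
    ← mat_mul, ← mat_mul, ← hk, Matrix.mulVec_add, Matrix.mulVec_smul,
    Matrix.mulVec_single_one] at h1
  have h2 : ((M : FiniteAdeleRing (𝓞 F) F) • (mat k).mulVec u) i ∈ Ohat F := by
    rw [Pi.smul_apply, smul_eq_mul, Matrix.mulVec, dotProduct, Finset.mul_sum]
    refine sum_mem fun l _ => ?_
    rw [← mul_assoc]
    exact mul_mem (hMk i l) (hu l)
  have h3 := sub_mem h1 h2
  rw [Pi.add_apply, add_sub_cancel_right] at h3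
  exact h3

/-- Proof: `integral_of_mapsTo` for `γ` and for `γ⁻¹` (which maps the generators `b' i` to `b i`). -/
theorem mem_K0_of_data {g g' : D.Ad} {C : ℝ} {b b' : Fin (rk F n) → Fin n → F}
    (hb : IsShort g C b) (hb' : IsShort g' C b') (γ : D.Rat)
    (h : ∀ i, γ.1.1.mulVec (b i) = b' i) : g'⁻¹ * D.toAd γ * g ∈ K0 D := by
  have key : ∀ {g g' : D.Ad} {b b' : Fin (rk F n) → Fin n → F} (hb : IsShort g C b)
      (hb' : IsShort g' C b') (γ : D.Rat) (h : ∀ i, γ.1.1.mulVec (b i) = b' i),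
      ∀ x ∈ lat g, γ.1.1.mulVec x ∈ lat g' := by
    intro g g' b b' hb hb' γ h x hx
    have h1 : lat g ≤ (lat g').comap (Matrix.mulVecLin γ.1.1).toAddMonoidHom := by
      rw [← hb.gen, AddSubgroup.closure_le]
      rintro _ ⟨i, rfl⟩
      change γ.1.1.mulVec (b i) ∈ lat g'
      rw [h i, ← hb'.gen]
      exact AddSubgroup.subset_closure ⟨i, rfl⟩
    exact h1 hx
  have h' : ∀ i, (γ⁻¹).1.1.mulVec (b' i) = b i := by
    intro i
    rw [← h i, Matrix.mulVec_mulVec]
    have h2 : (γ⁻¹).1.1 * γ.1.1 = 1 := by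
      have h3 : (γ⁻¹ * γ).1.1 = 1 := by rw [inv_mul_cancel]; rfl
      exact h3
    rw [h2, Matrix.one_mulVec]
  refine ⟨fun i j => integral_of_mapsTo γ (key hb hb' γ h) i j, fun i j => ?_⟩
  have h4 : (g'⁻¹ * D.toAd γ * g)⁻¹ = g⁻¹ * D.toAd γ⁻¹ * g' := by
    rw [mul_inv_rev, mul_inv_rev, inv_inv, map_inv, mul_assoc]
  rw [h4]
  exact integral_of_mapsTo γ⁻¹ (key hb' hb γ⁻¹ h') i j

end Pool.Agent.Lib.MP_666dc0_nt.WL
end

section

open NumberField IsDedekindDomain
open scoped NumberField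

namespace Pool.Agent.Lib.MP_666dc0_nt.WL

variable {F : Type} [Field F] [NumberField F] {n : ℕ} {D : Datum F n}

/-- The topology of `G(𝔸_f)` is induced by the entries of `g` and `g⁻¹`.
Proof: `D.Ad` is a subgroup of `GL (Fin n) 𝔸 = (Matrix ..)ˣ` with the induced topology, the topology of
the units is induced by `Units.embedProduct` (`Units.isEmbedding_embedProduct`), and the matrices
have the product topology. -/
theorem isEmbedding_entries : Topology.IsEmbedding (fun g : D.Ad =>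
    ((fun i j => mat g i j, fun i j => mat g⁻¹ i j) :
      (Fin n → Fin n → FiniteAdeleRing (𝓞 F) F) × (Fin n → Fin n → FiniteAdeleRing (𝓞 F) F))) := by
  have h1 : Topology.IsEmbedding (fun g : D.Ad =>
      (g : GL (Fin n) (FiniteAdeleRing (𝓞 F) F))) := Topology.IsEmbedding.subtypeVal
  have h2 : Topology.IsEmbedding (Units.embedProduct
      (Matrix (Fin n) (Fin n) (FiniteAdeleRing (𝓞 F) F))) := Units.isEmbedding_embedProduct
  have h3 : Topology.IsEmbedding (fun p :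
      Matrix (Fin n) (Fin n) (FiniteAdeleRing (𝓞 F) F) ×
        (Matrix (Fin n) (Fin n) (FiniteAdeleRing (𝓞 F) F))ᵐᵒᵖ => (p.1, p.2.unop)) :=
    Topology.IsEmbedding.prodMap Topology.IsEmbedding.id
      (MulOpposite.opHomeomorph.symm.isEmbedding)
  exact h3.comp (h2.comp h1)

/-- The range of the previous map is closed: it consists of the pairs `(a, b)` of matrices with
`a b = 1`, `b a = 1`, `aᵀ q a = q` and `tensAct a w = w` for all tensors, closed conditions since the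
finite adeles are a Hausdorff topological ring (`t2Space_adele`). -/
theorem isClosedEmbedding_entries : Topology.IsClosedEmbedding (fun g : D.Ad =>
    ((fun i j => mat g i j, fun i j => mat g⁻¹ i j) :
      (Fin n → Fin n → FiniteAdeleRing (𝓞 F) F) × (Fin n → Fin n → FiniteAdeleRing (𝓞 F) F))) := by
  refine ⟨isEmbedding_entries, ?_⟩
  have := t2Space_adele F
  have hr : Set.range (fun g : D.Ad =>
      ((fun i j => mat g i j, fun i j => mat g⁻¹ i j) :
      (Fin n → Fin n → FiniteAdeleRing (𝓞 F) F) × (Fin n → Fin n → FiniteAdeleRing (𝓞 F) F))) =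
      ({p | Matrix.of p.1 * Matrix.of p.2 = 1} ∩ {p | Matrix.of p.2 * Matrix.of p.1 = 1}) ∩
      ({p | (Matrix.of p.1).transpose * D.q.map (algebraMap F (FiniteAdeleRing (𝓞 F) F)) *
        Matrix.of p.1 = D.q.map (algebraMap F (FiniteAdeleRing (𝓞 F) F))} ∩
      ⋂ i : Fin D.m, {p | tensAct (Matrix.of p.1)
        (fun I => algebraMap F (FiniteAdeleRing (𝓞 F) F) (D.w i I)) =
        fun I => algebraMap F (FiniteAdeleRing (𝓞 F) F) (D.w i I)}) := by
    ext p
    constructor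
    · rintro ⟨g, rfl⟩
      refine ⟨⟨mat_mul_inv g, mat_inv_mul g⟩, g.2.1, ?_⟩
      exact Set.mem_iInter.2 fun i => g.2.2 i
    · rintro ⟨⟨h1, h2⟩, h3, h4⟩
      refine ⟨⟨⟨Matrix.of p.1, Matrix.of p.2, h1, h2⟩, h3, fun i => Set.mem_iInter.1 h4 i⟩, ?_⟩
      rfl
  rw [hr]
  have hc1 : Continuous (fun p : (Fin n → Fin n → FiniteAdeleRing (𝓞 F) F) ×
      (Fin n → Fin n → FiniteAdeleRing (𝓞 F) F) =>
      (Matrix.of p.1 : Matrix (Fin n) (Fin n) (FiniteAdeleRing (𝓞 F) F))) := continuous_fst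
  have hc2 : Continuous (fun p : (Fin n → Fin n → FiniteAdeleRing (𝓞 F) F) ×
      (Fin n → Fin n → FiniteAdeleRing (𝓞 F) F) =>
      (Matrix.of p.2 : Matrix (Fin n) (Fin n) (FiniteAdeleRing (𝓞 F) F))) := continuous_snd
  refine IsClosed.inter (IsClosed.inter ?_ ?_) (IsClosed.inter ?_ ?_)
  · exact isClosed_eq (hc1.matrix_mul hc2) continuous_const
  · exact isClosed_eq (hc2.matrix_mul hc1) continuous_const
  · exact isClosed_eq ((hc1.matrix_transpose.matrix_mul continuous_const).matrix_mul hc1)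
      continuous_const
  · refine isClosed_iInter fun i => isClosed_eq ?_ continuous_const
    refine continuous_pi fun I => ?_
    refine continuous_finsetSum _ fun J _ => ?_
    refine Continuous.mul ?_ continuous_const
    refine continuous_finsetProd _ fun s _ => ?_
    exact hc1.matrix_elem _ _

/-- Proof: preimage of an open set (`isOpen_Ohat`) under the continuous map of the entries. -/
theorem isOpen_K0 : IsOpen (K0 D : Set D.Ad) := by
  have hc := (isEmbedding_entries (D := D)).continuous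
  have h1 : ∀ i j, Continuous (fun g : D.Ad => mat g i j) := fun i j =>
    (continuous_apply j).comp ((continuous_apply i).comp (continuous_fst.comp hc))
  have h2 : ∀ i j, Continuous (fun g : D.Ad => mat g⁻¹ i j) := fun i j =>
    (continuous_apply j).comp ((continuous_apply i).comp (continuous_snd.comp hc))
  have he : (K0 D : Set D.Ad) =
      (⋂ i : Fin n, ⋂ j : Fin n, (fun g : D.Ad => mat g i j) ⁻¹'
        (Ohat F : Set (FiniteAdeleRing (𝓞 F) F))) ∩
      (⋂ i : Fin n, ⋂ j : Fin n, (fun g : D.Ad => mat g⁻¹ i j) ⁻¹'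
        (Ohat F : Set (FiniteAdeleRing (𝓞 F) F))) := by
    ext g
    constructor
    · rintro ⟨ha, hb⟩
      exact ⟨Set.mem_iInter.2 fun i => Set.mem_iInter.2 fun j => ha i j,
        Set.mem_iInter.2 fun i => Set.mem_iInter.2 fun j => hb i j⟩
    · rintro ⟨ha, hb⟩
      exact ⟨fun i j => Set.mem_iInter.1 (Set.mem_iInter.1 ha i) j,
        fun i j => Set.mem_iInter.1 (Set.mem_iInter.1 hb i) j⟩
  rw [he]
  exact IsOpen.inter
    (isOpen_iInter_of_finite fun i => isOpen_iInter_of_finite fun j =>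
      (isOpen_Ohat F).preimage (h1 i j))
    (isOpen_iInter_of_finite fun i => isOpen_iInter_of_finite fun j =>
      (isOpen_Ohat F).preimage (h2 i j))

/-- Proof: preimage of the compact set of pairs with entries in `Ô` (`isCompact_Ohat`,
`isCompact_univ_pi`, `IsCompact.prod`) under the closed embedding. -/
theorem isCompact_K0 : IsCompact (K0 D : Set D.Ad) := by
  have hk : IsCompact (Set.univ.pi fun _ : Fin n => Set.univ.pi fun _ : Fin n =>
      (Ohat F : Set (FiniteAdeleRing (𝓞 F) F))) :=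
    isCompact_univ_pi fun _ => isCompact_univ_pi fun _ => isCompact_Ohat F
  have h := (isClosedEmbedding_entries (D := D)).isCompact_preimage (hk.prod hk)
  have he : (K0 D : Set D.Ad) = (fun g : D.Ad =>
    ((fun i j => mat g i j, fun i j => mat g⁻¹ i j) :
      (Fin n → Fin n → FiniteAdeleRing (𝓞 F) F) × (Fin n → Fin n → FiniteAdeleRing (𝓞 F) F))) ⁻¹'
      ((Set.univ.pi fun _ : Fin n => Set.univ.pi fun _ : Fin n =>
      (Ohat F : Set (FiniteAdeleRing (𝓞 F) F))) ×ˢ
      (Set.univ.pi fun _ : Fin n => Set.univ.pi fun _ : Fin n =>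
      (Ohat F : Set (FiniteAdeleRing (𝓞 F) F)))) := by
    ext g
    constructor
    · rintro ⟨ha, hb⟩
      exact ⟨fun i _ j _ => ha i j, fun i _ j _ => hb i j⟩
    · rintro ⟨ha, hb⟩
      exact ⟨fun i j => ha i trivial j trivial, fun i j => hb i trivial j trivial⟩
  rw [he]
  exact h

/-- `D.Ad` is a Hausdorff topological group. (`IsTopologicalGroup` is automatic; Hausdorff by
`isEmbedding_entries` and `t2Space_adele`.) -/
theorem t2Space_Ad : T2Space D.Ad := by
  have := t2Space_adele F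
  exact (isEmbedding_entries (D := D)).t2Space

/-- The entries of the elements of a compact subset of `G(𝔸_f)` have bounded denominators
(`exists_mul_mem_Ohat_of_isCompact` for the images, finitely many entries; product of the `m`'s). -/
theorem exists_den_of_isCompact (C : Set D.Ad) (hC : IsCompact C) :
    ∃ m : ℕ, 0 < m ∧ ∀ g ∈ C, ∀ i j, (m : FiniteAdeleRing (𝓞 F) F) * mat g i j ∈ Ohat F := by
  have hc := (isEmbedding_entries (D := D)).continuous
  have h1 : ∀ i j, Continuous (fun g : D.Ad => mat g i j) := fun i j =>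
    (continuous_apply j).comp ((continuous_apply i).comp (continuous_fst.comp hc))
  have h2 : ∀ i j, ∃ m : ℕ, 0 < m ∧ ∀ g ∈ C,
      (m : FiniteAdeleRing (𝓞 F) F) * mat g i j ∈ Ohat F := by
    intro i j
    obtain ⟨m, hm, h⟩ := exists_mul_mem_Ohat_of_isCompact F _ (hC.image (h1 i j))
    exact ⟨m, hm, fun g hg => h _ ⟨g, hg, rfl⟩⟩
  choose m hm hmem using h2
  refine ⟨∏ i, ∏ j, m i j, Finset.prod_pos fun i _ => Finset.prod_pos fun j _ => hm i j,
    fun g hg i j => ?_⟩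
  have hd : m i j ∣ ∏ i, ∏ j, m i j :=
    (Finset.dvd_prod_of_mem (fun j => m i j) (Finset.mem_univ j)).trans
      (Finset.dvd_prod_of_mem (fun i => ∏ j, m i j) (Finset.mem_univ i))
  obtain ⟨c, hcc⟩ := hd
  rw [hcc, Nat.cast_mul, mul_comm ((m i j : ℕ) : FiniteAdeleRing (𝓞 F) F), mul_assoc]
  exact mul_mem (natCast_mem _ c) (hmem i j g hg)

end Pool.Agent.Lib.MP_666dc0_nt.WL
end

section

/-!
# WL, K4: density of the functions with a peak factor
-/

namespace Pool.Agent.Lib.MP_666dc0_nt.WL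

variable {ℓ : ℕ} [Fact ℓ.Prime] {Z : Type}

/-- Every point has a clopen neighbourhood on which indicator functions of clopen subsets are
approximable by `Q`.
Proof: let `u` be as in the hypothesis and `A = {z | ‖u z - 1‖ < 1}`, clopen (`u` continuous, open
balls are clopen: `IsUltrametricDist.isClopen_ball`), `z₁ ∈ A`. On the compact set `A` the maximum of
`‖u z - 1‖` is some `c < 1`. Let `B ⊆ A` be clopen and `η > 0`, `η' = min η 1`; `p ∈ P` as in
`Approx P B` (`approx_of_isClopen`) for `η'`; `N` divisible by `ℓ ^ s` with `s` so large that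
`‖u z ^ (ℓ ^ s) - 1‖ ≤ η'` on `A` (`exists_pow_close`). Then `u ^ N p ∈ Q`; for
`z ∈ B`: `u ^ N p - 1 = u ^ N (p - 1) + (u ^ N - 1)`; for `z ∉ B`: `‖u ^ N p‖ ≤ ‖p‖ ≤ η'`. -/
theorem exists_nhd_approx [TopologicalSpace Z] [CompactSpace Z] {P Q : Set (Z → PadicAlgCl ℓ)}
    (hP : IsFunAlg P) (hcont : ∀ p ∈ P, Continuous p)
    (hsep : ∀ z z' : Z, z ≠ z' → ∃ p ∈ P, p z ≠ p z') (z₁ : Z)
    (hpeak : ∃ u : Z → PadicAlgCl ℓ, Continuous u ∧ u z₁ = 1 ∧ (∀ z, ‖u z‖ ≤ 1) ∧
      ∀ p ∈ P, ∀ s : ℕ, ∃ N : ℕ, ℓ ^ s ∣ N ∧ (fun z => u z ^ N * p z) ∈ Q) :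
    ∃ A : Set Z, IsClopen A ∧ z₁ ∈ A ∧ ∀ B : Set Z, IsClopen B → B ⊆ A → Approx Q B := by
  obtain ⟨u, hu, hu1, hu2, hu3⟩ := hpeak
  have hA : {z | ‖u z - 1‖ < 1} = u ⁻¹' (Metric.ball 1 1) := by
    ext x
    rw [Set.mem_preimage, mem_ball_iff_norm]
    rfl
  have hAc : IsClopen {z | ‖u z - 1‖ < 1} := by
    rw [hA]
    exact (IsUltrametricDist.isClopen_ball (1 : PadicAlgCl ℓ) _).preimage hu
  have hz : z₁ ∈ {z | ‖u z - 1‖ < 1} := by
    show ‖u z₁ - 1‖ < 1
    rw [hu1, sub_self, norm_zero]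
    exact one_pos
  obtain ⟨z0, hz0, hmax⟩ := hAc.isClosed.isCompact.exists_isMaxOn ⟨z₁, hz⟩
    (f := fun z => ‖u z - 1‖) (by fun_prop)
  have hc : ‖u z0 - 1‖ < 1 := hz0
  refine ⟨_, hAc, hz, fun B hB hBA η hη => ?_⟩
  have hη' : 0 < min η 1 := lt_min hη one_pos
  obtain ⟨p, hp, p1, p2⟩ := approx_of_isClopen hP hcont hsep hB (min η 1) hη'
  obtain ⟨s₀, hs₀⟩ := exists_pow_close (ℓ := ℓ) hc hη'
  obtain ⟨N, ⟨t, hN⟩, hNQ⟩ := hu3 p hp s₀
  have hun : ∀ (N : ℕ) (z : Z), ‖u z ^ N‖ ≤ 1 := by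
    intro N z
    rw [norm_pow]
    exact pow_le_one₀ (norm_nonneg _) (hu2 z)
  have hpow : ∀ (x : PadicAlgCl ℓ) (c : ℝ), ‖x‖ ≤ 1 → ‖x - 1‖ ≤ c → 0 ≤ c → ∀ t : ℕ,
      ‖x ^ t - 1‖ ≤ c := by
    intro x c hx hxc hc t
    induction t with
    | zero => simpa using hc
    | succ t ih =>
      have h1 : x ^ (t + 1) - 1 = x * (x ^ t - 1) + (x - 1) := by ring
      rw [h1]
      refine (IsUltrametricDist.norm_add_le_max _ _).trans (max_le ?_ hxc)
      rw [norm_mul]
      calc ‖x‖ * ‖x ^ t - 1‖ ≤ 1 * c := mul_le_mul hx ih (norm_nonneg _) zero_le_one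
        _ = c := one_mul c
  refine ⟨_, hNQ, ?_, ?_⟩
  · intro z hzB
    have h1 : ‖u z ^ N - 1‖ ≤ min η 1 := by
      rw [hN, pow_mul]
      exact hpow _ _ (hun _ z) (hs₀ _ le_rfl _ (hmax (hBA hzB))) hη'.le t
    have h2 : u z ^ N * p z - 1 = u z ^ N * (p z - 1) + (u z ^ N - 1) := by ring
    show ‖u z ^ N * p z - 1‖ ≤ η
    rw [h2]
    refine (IsUltrametricDist.norm_add_le_max _ _).trans (max_le ?_ ?_)
    · rw [norm_mul]
      calc ‖u z ^ N‖ * ‖p z - 1‖ ≤ 1 * min η 1 :=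
            mul_le_mul (hun _ z) (p1 z hzB) (norm_nonneg _) zero_le_one
        _ ≤ η := by rw [one_mul]; exact min_le_left _ _
    · exact h1.trans (min_le_left _ _)
  · intro z hzB
    show ‖u z ^ N * p z‖ ≤ η
    rw [norm_mul]
    calc ‖u z ^ N‖ * ‖p z‖ ≤ 1 * min η 1 :=
          mul_le_mul (hun _ z) (p2 z hzB) (norm_nonneg _) zero_le_one
      _ ≤ η := by rw [one_mul]; exact min_le_left _ _

/-- A finite clopen partition on which `ψ` is nearly constant, subordinate to a clopen cover.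
Proof: for each `z` the set `W z = A z ∩ {x | ‖ψ x - ψ z‖ < η}` is clopen (balls are clopen) and
contains `z`; finitely many of them, `W (z 0), …, W (z (m-1))`, cover `Z` (compactness); put
`B i = W (z i) \ ⋃_{j < i} W (z j)`, disjoint and clopen. -/
theorem exists_partition [TopologicalSpace Z] [CompactSpace Z] (A : Z → Set Z)
    (hA : ∀ z, IsClopen (A z)) (hzA : ∀ z, z ∈ A z) {ψ : Z → PadicAlgCl ℓ} (hψ : Continuous ψ)
    {η : ℝ} (hη : 0 < η) :
    ∃ (m : ℕ) (z : Fin m → Z) (B : Fin m → Set Z), (∀ i, IsClopen (B i)) ∧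
      (∀ i, B i ⊆ A (z i)) ∧ (∀ i, ∀ x ∈ B i, ‖ψ x - ψ (z i)‖ ≤ η) ∧ ∀ x, ∃! i, x ∈ B i := by
  classical
  have hW : ∀ z, IsClopen (A z ∩ ψ ⁻¹' (Metric.ball (ψ z) η)) := fun z =>
    (hA z).inter ((IsUltrametricDist.isClopen_ball (ψ z) _).preimage hψ)
  have hzW : ∀ z, z ∈ A z ∩ ψ ⁻¹' (Metric.ball (ψ z) η) := fun z =>
    ⟨hzA z, Metric.mem_ball_self hη⟩
  obtain ⟨t, -, ht⟩ := (isCompact_univ (X := Z)).elim_nhds_subcover
    (fun z => A z ∩ ψ ⁻¹' (Metric.ball (ψ z) η)) (fun z _ => (hW z).isOpen.mem_nhds (hzW z))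
  let e := t.equivFin.symm
  let W : Fin t.card → Set Z := fun i => A (e i).1 ∩ ψ ⁻¹' (Metric.ball (ψ (e i).1) η)
  have hWi : ∀ i, IsClopen (W i) := fun i => hW _
  refine ⟨t.card, fun i => (e i).1,
    fun i => W i ∩ ⋂ j ∈ (Finset.univ.filter (fun j => j < i)), (W j)ᶜ, ?_, ?_, ?_, ?_⟩
  · intro i
    exact (hWi i).inter (isClopen_biInter_finset fun j _ => (hWi j).compl)
  · intro i x hx
    exact hx.1.1
  · intro i x hx
    have h1 : ψ x ∈ Metric.ball (ψ (e i).1) η := hx.1.2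
    rw [mem_ball_iff_norm] at h1
    exact h1.le
  · intro x
    have hx : ∃ i, x ∈ W i := by
      obtain ⟨z, hz, hxz⟩ := Set.mem_iUnion₂.1 (ht (Set.mem_univ x))
      refine ⟨t.equivFin ⟨z, hz⟩, ?_⟩
      show x ∈ A (e (t.equivFin ⟨z, hz⟩)).1 ∩ ψ ⁻¹' (Metric.ball (ψ (e (t.equivFin ⟨z, hz⟩)).1) η)
      have h1 : e (t.equivFin ⟨z, hz⟩) = ⟨z, hz⟩ := t.equivFin.symm_apply_apply _
      rw [h1]
      exact hxz
    have hne : (Finset.univ.filter (fun i : Fin t.card => x ∈ W i)).Nonempty := by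
      obtain ⟨i, hi⟩ := hx
      exact ⟨i, Finset.mem_filter.2 ⟨Finset.mem_univ _, hi⟩⟩
    have hmem := Finset.min'_mem _ hne
    have hmin : ∀ j : Fin t.card, x ∈ W j → (Finset.univ.filter (fun i : Fin t.card => x ∈ W i)).min' hne ≤ j := by
      intro j hj
      exact Finset.min'_le (Finset.univ.filter (fun i : Fin t.card => x ∈ W i)) j
        (Finset.mem_filter.2 ⟨Finset.mem_univ _, hj⟩)
    refine ⟨(Finset.univ.filter (fun i : Fin t.card => x ∈ W i)).min' hne, ?_, ?_⟩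
    · refine ⟨(Finset.mem_filter.1 hmem).2, ?_⟩
      simp only [Set.mem_iInter]
      intro j hj hxj
      exact absurd (hmin j hxj) (not_le.2 (Finset.mem_filter.1 hj).2)
    · intro i hi
      refine le_antisymm ?_ (hmin i hi.1)
      by_contra hlt
      have h2 := hi.2
      simp only [Set.mem_iInter] at h2
      exact h2 _ (Finset.mem_filter.2 ⟨Finset.mem_univ _, not_le.1 hlt⟩) (Finset.mem_filter.1 hmem).2

/-- Density of `Q`.
Proof: `A z` from `exists_nhd_approx`, the partition `B i` from `exists_partition`. Let `C > 0` be a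
bound of the `‖ψ (z i)‖` and `q i ∈ Q` with `Approx` for `B i` and `η / C`; `q = ∑ i, ψ (z i) • q i`
(finite sum: closed under `0`, sums, multiples). At `x`, with `i₀` the index of `x`:
`q x - ψ x = ψ (z i₀) (q i₀ x - 1) + (ψ (z i₀) - ψ x) + ∑_{i ≠ i₀} ψ (z i) q i x`, all terms of norm `≤ η`
(ultrametric inequality). -/
theorem dense_of_peak [TopologicalSpace Z] [CompactSpace Z] {P Q : Set (Z → PadicAlgCl ℓ)}
    (hP : IsFunAlg P) (hcont : ∀ p ∈ P, Continuous p)
    (hsep : ∀ z z' : Z, z ≠ z' → ∃ p ∈ P, p z ≠ p z')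
    (hQ0 : (fun _ => 0) ∈ Q) (hQadd : ∀ p ∈ Q, ∀ q ∈ Q, (fun z => p z + q z) ∈ Q)
    (hQmul : ∀ (c : PadicAlgCl ℓ), ∀ q ∈ Q, (fun z => c * q z) ∈ Q)
    (hpeak : ∀ z₁, ∃ u : Z → PadicAlgCl ℓ, Continuous u ∧ u z₁ = 1 ∧ (∀ z, ‖u z‖ ≤ 1) ∧
      ∀ p ∈ P, ∀ s : ℕ, ∃ N : ℕ, ℓ ^ s ∣ N ∧ (fun z => u z ^ N * p z) ∈ Q)
    {ψ : Z → PadicAlgCl ℓ} (hψ : Continuous ψ) {η : ℝ} (hη : 0 < η) :
    ∃ q ∈ Q, ∀ z, ‖q z - ψ z‖ ≤ η := by
  classical
  have hA := fun z₁ => exists_nhd_approx hP hcont hsep (Q := Q) z₁ (hpeak z₁)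
  choose A A1 A2 A3 using hA
  obtain ⟨m, z, B, B1, B2, B3, B4⟩ := exists_partition A A1 A2 hψ hη
  have hC : 0 < 1 + ∑ i, ‖ψ (z i)‖ := by
    have h1 : 0 ≤ ∑ i, ‖ψ (z i)‖ := Finset.sum_nonneg fun i _ => norm_nonneg _
    linarith
  have hCi : ∀ i, ‖ψ (z i)‖ ≤ 1 + ∑ i, ‖ψ (z i)‖ := by
    intro i
    have h1 : ‖ψ (z i)‖ ≤ ∑ i, ‖ψ (z i)‖ :=
      Finset.single_le_sum (f := fun i => ‖ψ (z i)‖) (fun j _ => norm_nonneg _) (Finset.mem_univ i)
    linarith
  have hq := fun i => A3 (z i) (B i) (B1 i) (B2 i) (η / (1 + ∑ i, ‖ψ (z i)‖)) (div_pos hη hC)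
  choose q q1 q2 q3 using hq
  have hsum : ∀ s : Finset (Fin m), (fun x => ∑ i ∈ s, ψ (z i) * q i x) ∈ Q := by
    intro s
    induction s using Finset.induction_on with
    | empty =>
      simpa using hQ0
    | insert a s ha ih =>
      have h1 : (fun x => ∑ i ∈ insert a s, ψ (z i) * q i x) =
          (fun x => ψ (z a) * q a x + ∑ i ∈ s, ψ (z i) * q i x) := by
        funext x
        rw [Finset.sum_insert ha]
      rw [h1]
      exact hQadd _ (hQmul _ _ (q1 a)) _ ih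
  have hbound : ∀ (i : Fin m) (y : PadicAlgCl ℓ), ‖y‖ ≤ η / (1 + ∑ i, ‖ψ (z i)‖) →
      ‖ψ (z i) * y‖ ≤ η := by
    intro i y hy
    rw [norm_mul]
    calc ‖ψ (z i)‖ * ‖y‖ ≤ (1 + ∑ i, ‖ψ (z i)‖) * (η / (1 + ∑ i, ‖ψ (z i)‖)) :=
          mul_le_mul (hCi i) hy (norm_nonneg _) hC.le
      _ = η := by field_simp
  refine ⟨_, hsum Finset.univ, fun x => ?_⟩
  obtain ⟨i₀, hi₀, huniq⟩ := B4 x
  have h1 : (∑ i ∈ Finset.univ, ψ (z i) * q i x) - ψ x =
      (∑ i ∈ Finset.univ, (ψ (z i) * q i x - if i = i₀ then ψ (z i₀) else 0)) +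
        -(ψ x - ψ (z i₀)) := by
    rw [Finset.sum_sub_distrib, Finset.sum_ite_eq', if_pos (Finset.mem_univ _)]
    ring
  show ‖(∑ i ∈ Finset.univ, ψ (z i) * q i x) - ψ x‖ ≤ η
  rw [h1]
  refine (IsUltrametricDist.norm_add_le_max _ _).trans (max_le ?_ ?_)
  · refine IsUltrametricDist.norm_sum_le_of_forall_le_of_nonneg hη.le fun i _ => ?_
    by_cases hi : i = i₀
    · rw [if_pos hi, hi]
      have h2 : ψ (z i₀) * q i₀ x - ψ (z i₀) = ψ (z i₀) * (q i₀ x - 1) := by ring
      rw [h2]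
      exact hbound i₀ _ (q2 i₀ x hi₀)
    · rw [if_neg hi, sub_zero]
      exact hbound i _ (q3 i x fun h => hi (huniq i h))
  · rw [norm_neg]
    exact B3 i₀ x hi₀

end Pool.Agent.Lib.MP_666dc0_nt.WL
end
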