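import Pool.Agent.Lib.MP_666dc0_nt.Mg.G005
import Pool.Agent.Lib.MP_666dc0_nt.WL.D1
import Pool.Agent.Lib.MP_666dc0_nt.WL.C5a

section

open NumberField IsDedekindDomain
open scoped NumberField

namespace Pool.Agent.Lib.MP_666dc0_nt.WL

/-!
# WL, D2: properties of the evaluation `ev`
-/

variable {F : Type} [Field F] [NumberField F] {n : ℕ} {D : Datum F n}
  {ℓ : ℕ} [Fact ℓ.Prime] {ι : ℂ ≃+* PadicAlgCl ℓ} {Q : Submodule ℂ (D.Cpx → ℂ)}
  {U V K : Subgroup D.Ad} {f : D.Ad → D.Cpx → ℂ}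

/-- Proof: `hat (γ g) = toCpx γ * hat g` (`hat_toAd`) and `IsForm.left`:
`f (γ g) (y₀ (hat g)⁻¹ (toCpx γ)⁻¹) = f g (y₀ (hat g)⁻¹)`. -/
theorem ev_left (H : HatData F ℓ ι) (hf : IsForm D Q V f) (y₀ : D.Cpx) (γ : D.Rat) (g : D.Ad) :
    H.ev y₀ f (D.toAd γ * g) = H.ev y₀ f g := by
  unfold HatData.ev
  rw [hf.left, map_mul, hat_toAd]
  congr 2
  group

/-- Proof: `hat u = 1` (`hat_eq_one`) and `IsForm.right`. -/
theorem ev_right (H : HatData F ℓ ι) (hf : IsForm D Q V f) (hU : IsTame ℓ U) (hUV : U ≤ V)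
    (y₀ : D.Cpx) (g : D.Ad) {u : D.Ad} (hu : u ∈ U) : H.ev y₀ f (g * u) = H.ev y₀ f g := by
  unfold HatData.ev
  rw [hf.right g u (hUV hu), map_mul, hat_eq_one H (hU u hu), mul_one]

/-- Proof: `f (c k) = f c`, `hat (c k)⁻¹ = (hat k)⁻¹ (hat c)⁻¹`. -/
theorem ev_mul (H : HatData F ℓ ι) (hf : IsForm D Q V f) (y₀ : D.Cpx) (c : D.Ad) {k : D.Ad}
    (hk : k ∈ V) : H.ev y₀ f (c * k) = ι (f c (y₀ * (H.hat D k)⁻¹ * (H.hat D c)⁻¹)) := by
  unfold HatData.ev
  rw [hf.right c k hk, map_mul, mul_inv_rev, mul_assoc]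

/-- Continuity. Proof: near `c`, that is on the open set `c V`, use `ev_mul` and `continuous_eval`. -/
theorem continuous_ev (H : HatData F ℓ ι) (hQ : Q ≤ Subalgebra.toSubmodule (polyFun D))
    (hf : IsForm D Q V f) (hV : IsOpen (V : Set D.Ad)) (y₀ : D.Cpx) :
    Continuous (H.ev y₀ f) := by
  rw [continuous_iff_continuousAt]
  intro c
  have h1 : Continuous fun g : D.Ad => ι (f c (y₀ * (H.hat D g)⁻¹ * 1)) :=
    continuous_eval H (hQ (hf.mem c)) y₀ 1
  refine h1.continuousAt.congr ?_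
  have h2 : {g : D.Ad | c⁻¹ * g ∈ V} ∈ nhds c := by
    have h3 : IsOpen {g : D.Ad | c⁻¹ * g ∈ V} :=
      hV.preimage (continuous_const.mul continuous_id)
    refine h3.mem_nhds ?_
    rw [Set.mem_ofPred_eq, inv_mul_cancel]
    exact one_mem _
  filter_upwards [h2] with g hg
  have h4 : f g = f c := by
    have h5 := hf.right c (c⁻¹ * g) hg
    rwa [mul_inv_cancel_left] at h5
  unfold HatData.ev
  rw [h4, mul_one]

/-- Boundedness. Proof: `ev` is left invariant under `G(F)` (`ev_left`) and continuous, and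
`G(𝔸_f) = G(F) · ⋃_{c ∈ X} c V` with `X` finite (`exists_finite_reps`) and `c V` compact. -/
theorem exists_bound_ev [IsTotallyReal F] (hD : IsTotPosDef D.q) (H : HatData F ℓ ι)
    (hQ : Q ≤ Subalgebra.toSubmodule (polyFun D)) (hf : IsForm D Q V f)
    (hV : IsOpen (V : Set D.Ad)) (hV' : IsCompact (V : Set D.Ad)) (y₀ : D.Cpx) :
    ∃ C : ℝ, ∀ g, ‖H.ev y₀ f g‖ ≤ C := by
  obtain ⟨X, hX⟩ := exists_finite_reps hD V hV
  have hZ : IsCompact (⋃ c ∈ X, (fun x : D.Ad => c * x) '' (V : Set D.Ad)) :=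
    X.isCompact_biUnion fun c _ => hV'.image (continuous_const.mul continuous_id)
  obtain ⟨C, hC⟩ := hZ.exists_bound_of_continuousOn (continuous_ev H hQ hf hV y₀).continuousOn
  refine ⟨C, fun g => ?_⟩
  obtain ⟨γ, c, hc, k, hk, rfl⟩ := hX g
  rw [mul_assoc, ev_left H hf]
  refine hC _ ?_
  simp only [Set.mem_iUnion]
  exact ⟨c, hc, k, hk, rfl⟩

end Pool.Agent.Lib.MP_666dc0_nt.WL
end

section

open NumberField IsDedekindDomain
open scoped NumberField

namespace Pool.Agent.Lib.MP_666dc0_nt.WL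

/-!
# WL, D4: approximation by forms of weight `0` and deep level
-/

variable {F : Type} [Field F] [NumberField F] {n : ℕ} {D : Datum F n}
  {ℓ : ℕ} [Fact ℓ.Prime] {ι : ℂ ≃+* PadicAlgCl ℓ} {U K : Subgroup D.Ad}

/-- The double coset relation for `G(F)` and `V'`. -/
private def D4setoid (D : Datum F n) (V' : Subgroup D.Ad) : Setoid D.Ad where
  r g g' := ∃ γ : D.Rat, ∃ k ∈ V', g' = D.toAd γ * g * k
  iseqv :=
    { refl := fun g => ⟨1, 1, V'.one_mem, by rw [map_one, one_mul, mul_one]⟩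
      symm := by
        rintro g g' ⟨γ, k, hk, rfl⟩
        refine ⟨γ⁻¹, k⁻¹, V'.inv_mem hk, ?_⟩
        rw [map_inv]
        group
      trans := by
        rintro g g' g'' ⟨γ, k, hk, rfl⟩ ⟨γ', k', hk', rfl⟩
        refine ⟨γ' * γ, k * k', V'.mul_mem hk hk', ?_⟩
        rw [map_mul]
        group }

/-- Proof: let `φ = H.ev y₀ f`, continuous, left invariant under `G(F)` and right invariant under `U`
(`continuous_ev`, `ev_left`, `ev_right`), `W` the open subgroup of its `ε`-periods (`exists_periods`,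
`isOpen_periods`) and `K' = K ⊓ W`, a level (`isLevel_inf`). Since `U ≤ W`, `U ⊔ K' ≤ W`. The relation
`g' = γ g k` for some `γ ∈ G(F)`, `k ∈ U ⊔ K'` is an equivalence relation; let `r g` be the chosen
representative of the class of `g` (`Quotient.out`) and `f' g x = ι⁻¹ (φ (r g))`, constant in `x`.
This is a form of weight `0` and level `U ⊔ K'`, and `ev f' g = φ (r g)` with `r g = γ g k`, so
`φ (r g) - φ g = φ (g k) - φ g` has norm `≤ ε`. -/
theorem approx_zero [IsTotallyReal F] (hD : IsTotPosDef D.q) (H : HatData F ℓ ι)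
    (hU : IsTame ℓ U) (hK : IsLevel ℓ U K) {f : D.Ad → D.Cpx → ℂ}
    (hf : IsForm D (Subalgebra.toSubmodule (polyFun D)) (U ⊔ K) f) (y₀ : D.Cpx) (ε : ℝ)
    (hε : 0 < ε) :
    ∃ K' : Subgroup D.Ad, IsLevel ℓ U K' ∧ ∃ f' : D.Ad → D.Cpx → ℂ,
      IsForm D (Submodule.span ℂ {1}) (U ⊔ K') f' ∧
      ∀ g, ‖H.ev y₀ f g - H.ev y₀ f' g‖ ≤ ε := by
  classical
  obtain ⟨W, hW⟩ := exists_periods (H.ev y₀ f) ε hε
  have hcont : Continuous (H.ev y₀ f) := continuous_ev H le_rfl hf hK.isOpen y₀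
  have hleft : ∀ (γ : D.Rat) g, H.ev y₀ f (D.toAd γ * g) = H.ev y₀ f g := ev_left H hf y₀
  have hWo : IsOpen (W : Set D.Ad) :=
    isOpen_periods hD hK.isOpen hK.isCompact (H.ev y₀ f) hcont hleft ε hε W hW
  have hUW : U ≤ W := by
    intro u hu
    rw [hW]
    intro g
    rw [ev_right H hf hU le_sup_left y₀ g hu, sub_self, norm_zero]
    exact hε.le
  have hVW : U ⊔ (K ⊓ W) ≤ W := sup_le hUW inf_le_right
  let s : Setoid D.Ad := D4setoid D (U ⊔ (K ⊓ W))
  let rep : D.Ad → D.Ad := fun g => Quotient.out (Quotient.mk s g)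
  have hrep : ∀ g g', (∃ γ : D.Rat, ∃ k ∈ U ⊔ (K ⊓ W), g' = D.toAd γ * g * k) →
      rep g = rep g' := by
    intro g g' h
    have h1 : Quotient.mk s g = Quotient.mk s g' := Quotient.sound h
    change Quotient.out (Quotient.mk s g) = Quotient.out (Quotient.mk s g')
    rw [h1]
  have hrep' : ∀ g, ∃ γ : D.Rat, ∃ k ∈ U ⊔ (K ⊓ W), g = D.toAd γ * rep g * k := by
    intro g
    exact Quotient.mk_out (s := s) g
  refine ⟨K ⊓ W, isLevel_inf hU hK W hWo, fun g _ => ι.symm (H.ev y₀ f (rep g)), ?_, ?_⟩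
  · refine ⟨fun g => ?_, fun γ g x => ?_, fun g k hk => ?_⟩
    · rw [Submodule.mem_span_singleton]
      refine ⟨ι.symm (H.ev y₀ f (rep g)), ?_⟩
      funext x
      simp
    · have h1 : rep g = rep (D.toAd γ * g) :=
        hrep g (D.toAd γ * g) ⟨γ, 1, Subgroup.one_mem _, by rw [mul_one]⟩
      change ι.symm (H.ev y₀ f (rep (D.toAd γ * g))) = ι.symm (H.ev y₀ f (rep g))
      rw [h1]
    · have h1 : rep g = rep (g * k) :=
        hrep g (g * k) ⟨1, k, hk, by rw [map_one, one_mul]⟩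
      funext x
      change ι.symm (H.ev y₀ f (rep (g * k))) = ι.symm (H.ev y₀ f (rep g))
      rw [h1]
  · intro g
    obtain ⟨γ, k, hk, hg⟩ := hrep' g
    have h1 : H.ev y₀ (fun g _ => ι.symm (H.ev y₀ f (rep g))) g = H.ev y₀ f (rep g) := by
      change ι (ι.symm (H.ev y₀ f (rep g))) = H.ev y₀ f (rep g)
      exact ι.apply_symm_apply _
    have h2 : H.ev y₀ f g = H.ev y₀ f (rep g * k) := by
      conv_lhs => rw [hg, mul_assoc]
      exact hleft γ _
    rw [h1, h2]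
    exact (hW k).1 (hVW hk) (rep g)

/-- Proof: `f g₀ x₀ ≠ 0` for some `g₀`, `x₀`; take `y₀ = x₀ * H.hat D g₀`. -/
theorem exists_ev_ne_zero (H : HatData F ℓ ι) {f : D.Ad → D.Cpx → ℂ} (hf : f ≠ 0) :
    ∃ y₀ g₀, H.ev y₀ f g₀ ≠ 0 := by
  obtain ⟨g₀, hg₀⟩ := Function.ne_iff.1 hf
  obtain ⟨x₀, hx₀⟩ := Function.ne_iff.1 hg₀
  refine ⟨x₀ * H.hat D g₀, g₀, ?_⟩
  have h1 : H.ev (x₀ * H.hat D g₀) f g₀ = ι (f g₀ x₀) := by
    unfold HatData.ev
    rw [mul_inv_cancel_right]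
  rw [h1]
  intro h
  exact hx₀ ((map_eq_zero_iff ι ι.injective).1 h)

end Pool.Agent.Lib.MP_666dc0_nt.WL
end

section

open NumberField IsDedekindDomain
open scoped NumberField

namespace Pool.Agent.Lib.MP_666dc0_nt.WL

/-!
# WL, F1: `G(F)` acts freely at small levels
-/

variable {F : Type} [Field F] [NumberField F] {n : ℕ} {D : Datum F n}
  {ℓ : ℕ} [Fact ℓ.Prime] {U V K : Subgroup D.Ad}

private theorem f1_continuous_comp (v : HeightOneSpectrum (𝓞 F)) (i j : Fin n) :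
    Continuous (fun g : D.Ad => (mat g i j v : v.adicCompletion F)) := by
  have h2 : Continuous (fun g : D.Ad => mat g i j) := by
    have h3 := (isEmbedding_entries (D := D)).continuous.fst
    exact (continuous_apply j).comp ((continuous_apply i).comp h3)
  exact (RestrictedProduct.continuous_eval v).comp h2

private theorem f1_isClosed_trivialAt (v : HeightOneSpectrum (𝓞 F)) :
    IsClosed {g : D.Ad | TrivialAt v g} := by
  have h1 : Continuous (fun g : D.Ad => (mat g).map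
      (fun a : FiniteAdeleRing (𝓞 F) F => (a v : v.adicCompletion F))) := by
    apply continuous_matrix
    intro i j
    exact f1_continuous_comp v i j
  have h4 : {g : D.Ad | TrivialAt v g} = (fun g : D.Ad => (mat g).map
      (fun a : FiniteAdeleRing (𝓞 F) F => (a v : v.adicCompletion F))) ⁻¹'
      {(1 : Matrix (Fin n) (Fin n) (v.adicCompletion F))} := by
    ext g
    exact Iff.rfl
  rw [h4]
  exact isClosed_singleton.preimage h1

omit [Fact ℓ.Prime] in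
private theorem f1_one_of_mem (hU : IsTame ℓ U)
    (hK : ∀ g ∈ K, ∀ v : HeightOneSpectrum (𝓞 F), (ℓ : 𝓞 F) ∉ v.asIdeal → TrivialAt v g)
    {g : D.Ad} (h1 : g ∈ U) (h2 : g ∈ K) : g = 1 := by
  apply eq_one_of_trivialAt
  intro v
  by_cases hv : (ℓ : 𝓞 F) ∈ v.asIdeal
  · exact hU g h1 v hv
  · exact hK g h2 v hv

omit [Fact ℓ.Prime] in
private theorem f1_unique (hU : IsTame ℓ U)
    (hK : ∀ g ∈ K, ∀ v : HeightOneSpectrum (𝓞 F), (ℓ : 𝓞 F) ∉ v.asIdeal → TrivialAt v g)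
    {u u' k k' : D.Ad} (hu : u ∈ U) (hu' : u' ∈ U) (hk : k ∈ K) (hk' : k' ∈ K)
    (h : u * k = u' * k') : k = k' := by
  have h1 : u'⁻¹ * u = k' * k⁻¹ := by
    rw [inv_mul_eq_iff_eq_mul, ← mul_assoc, ← h, mul_inv_cancel_right]
  have h2 : k' * k⁻¹ = 1 := by
    apply f1_one_of_mem hU hK
    · rw [← h1]
      exact U.mul_mem (U.inv_mem hu') hu
    · exact K.mul_mem hk' (K.inv_mem hk)
  rw [mul_inv_eq_one] at h2
  exact h2.symm

omit [Fact ℓ.Prime] in
private theorem f1_isCompact_U (hU : IsTame ℓ U) (hK : IsLevel ℓ U K) :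
    IsCompact (U : Set D.Ad) := by
  have h1 : (U : Set D.Ad) = ((U ⊔ K : Subgroup D.Ad) : Set D.Ad) ∩
      ⋂ v : HeightOneSpectrum (𝓞 F), {g | (ℓ : 𝓞 F) ∈ v.asIdeal → TrivialAt v g} := by
    ext g
    constructor
    · intro hg
      refine ⟨(le_sup_left : U ≤ U ⊔ K) hg, ?_⟩
      rw [Set.mem_iInter]
      exact fun v hv => hU g hg v hv
    · rintro ⟨h2, h3⟩
      rw [Set.mem_iInter] at h3
      obtain ⟨u, hu, k, hk, rfl⟩ := (mem_sup_iff hU hK.supp).1 h2
      have h4 : k = 1 := by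
        apply eq_one_of_trivialAt
        intro v
        by_cases hv : (ℓ : 𝓞 F) ∈ v.asIdeal
        · have h5 : TrivialAt v (u * k) := h3 v hv
          have h6 := (hU u hu v hv).inv.mul h5
          rwa [inv_mul_cancel_left] at h6
        · exact hK.supp k hk v hv
      rw [h4, mul_one]
      exact hu
  rw [h1]
  apply hK.isCompact.inter_right
  apply isClosed_iInter
  intro v
  by_cases hv : (ℓ : 𝓞 F) ∈ v.asIdeal
  · have h2 : {g : D.Ad | (ℓ : 𝓞 F) ∈ v.asIdeal → TrivialAt v g} = {g : D.Ad | TrivialAt v g} := by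
      ext g
      exact ⟨fun h => h hv, fun h _ => h⟩
    rw [h2]
    exact f1_isClosed_trivialAt v
  · have h2 : {g : D.Ad | (ℓ : 𝓞 F) ∈ v.asIdeal → TrivialAt v g} = Set.univ := by
      ext g
      exact ⟨fun _ => trivial, fun _ h => absurd h hv⟩
    rw [h2]
    exact isClosed_univ

omit [Fact ℓ.Prime] in
private theorem f1_isCompact_K (hU : IsTame ℓ U) (hK : IsLevel ℓ U K) :
    IsCompact (K : Set D.Ad) := by
  have h1 : (K : Set D.Ad) = ((U ⊔ K : Subgroup D.Ad) : Set D.Ad) ∩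
      ⋂ v : HeightOneSpectrum (𝓞 F), {g | (ℓ : 𝓞 F) ∉ v.asIdeal → TrivialAt v g} := by
    ext g
    constructor
    · intro hg
      refine ⟨(le_sup_right : K ≤ U ⊔ K) hg, ?_⟩
      rw [Set.mem_iInter]
      exact fun v hv => hK.supp g hg v hv
    · rintro ⟨h2, h3⟩
      rw [Set.mem_iInter] at h3
      obtain ⟨u, hu, k, hk, rfl⟩ := (mem_sup_iff hU hK.supp).1 h2
      have h4 : u = 1 := by
        apply eq_one_of_trivialAt
        intro v
        by_cases hv : (ℓ : 𝓞 F) ∈ v.asIdeal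
        · exact hU u hu v hv
        · have h5 : TrivialAt v (u * k) := h3 v hv
          have h6 := h5.mul (hK.supp k hk v hv).inv
          rwa [mul_inv_cancel_right] at h6
      rw [h4, one_mul]
      exact hk
  rw [h1]
  apply hK.isCompact.inter_right
  apply isClosed_iInter
  intro v
  by_cases hv : (ℓ : 𝓞 F) ∈ v.asIdeal
  · have h2 : {g : D.Ad | (ℓ : 𝓞 F) ∉ v.asIdeal → TrivialAt v g} = Set.univ := by
      ext g
      exact ⟨fun _ => trivial, fun _ h => absurd hv h⟩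
    rw [h2]
    exact isClosed_univ
  · have h2 : {g : D.Ad | (ℓ : 𝓞 F) ∉ v.asIdeal → TrivialAt v g} = {g : D.Ad | TrivialAt v g} := by
      ext g
      exact ⟨fun h => h hv, fun h _ => h⟩
    rw [h2]
    exact f1_isClosed_trivialAt v

private theorem f1_exists_place (F : Type) [Field F] [NumberField F] (ℓ : ℕ) [Fact ℓ.Prime] :
    ∃ v : HeightOneSpectrum (𝓞 F), (ℓ : 𝓞 F) ∈ v.asIdeal := by
  have hp : Prime (ℓ : ℤ) := Nat.prime_iff_prime_int.1 Fact.out
  have hm : (Ideal.span {(ℓ : ℤ)}).IsMaximal :=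
    PrincipalIdealRing.isMaximal_of_irreducible hp.irreducible
  obtain ⟨Q, hQ, hQ'⟩ := Ideal.exists_ideal_over_maximal_of_isIntegral (S := 𝓞 F)
    (Ideal.span {(ℓ : ℤ)}) (by
      rw [(RingHom.injective_iff_ker_eq_bot _).1 (FaithfulSMul.algebraMap_injective ℤ (𝓞 F))]
      exact bot_le)
  have h1 : (ℓ : 𝓞 F) ∈ Q := by
    have h2 : (ℓ : ℤ) ∈ Q.comap (algebraMap ℤ (𝓞 F)) := by
      rw [hQ']
      exact Ideal.mem_span_singleton_self _
    rw [Ideal.mem_comap] at h2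
    simpa using h2
  refine ⟨⟨Q, hQ.isPrime, ?_⟩, h1⟩
  rintro rfl
  rw [Ideal.mem_bot] at h1
  exact (Fact.out : ℓ.Prime).ne_zero (by exact_mod_cast h1)

private theorem f1_trivialAt_conj {v : HeightOneSpectrum (𝓞 F)} {g : D.Ad} (c : D.Ad)
    (h : TrivialAt v g) : TrivialAt v (c * g * c⁻¹) := by
  rw [trivialAt_iff] at h ⊢
  rw [Subgroup.coe_mul, Subgroup.coe_mul, map_mul, map_mul, h, mul_one, ← map_mul,
    ← Subgroup.coe_mul, mul_inv_cancel, Subgroup.coe_one, map_one]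

/-- A relatively open subgroup of a level is a level.
Proof: as in `isLevel_inf`: `U` and `K` are compact, `U × K → U ⊔ K`, `(u, k) ↦ u k`, is a
homeomorphism (continuous bijection of compact Hausdorff spaces, `mem_sup_iff`, `t2Space_Ad`), and
`U ⊔ K'` is the image of the open set `U × K'`; an open subgroup of a compact group is compact. -/
theorem isLevel_of_isOpen (hU : IsTame ℓ U) (hK : IsLevel ℓ U K) {K' : Subgroup D.Ad}
    (hK' : K' ≤ K) (ho : IsOpen {k : K | (k : D.Ad) ∈ K'}) : IsLevel ℓ U K' := by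
  classical
  have : T2Space D.Ad := t2Space_Ad
  have hK2 : ∀ g ∈ K', ∀ v : HeightOneSpectrum (𝓞 F), (ℓ : 𝓞 F) ∉ v.asIdeal →
      TrivialAt v g := fun g hg => hK.supp g (hK' hg)
  obtain ⟨O, hO, hOK⟩ := ho
  have hOK' : ∀ k ∈ K, k ∈ K' ↔ k ∈ O := by
    intro k hk
    have h1 : (⟨k, hk⟩ : K) ∈ {k : K | (k : D.Ad) ∈ K'} ↔
        (⟨k, hk⟩ : K) ∈ (Subtype.val ⁻¹' O : Set K) := by
      rw [hOK]
    exact h1.symm.symm
  have hUc := f1_isCompact_U hU hK
  have hKc := f1_isCompact_K hU hK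
  have hbad : IsCompact ((fun x : D.Ad × D.Ad => x.1 * x.2) ''
      ((U : Set D.Ad) ×ˢ ((K : Set D.Ad) ∩ Oᶜ))) :=
    (hUc.prod (hKc.inter_right hO.isClosed_compl)).image continuous_mul
  have hset : ((U ⊔ K' : Subgroup D.Ad) : Set D.Ad) =
      ((U ⊔ K : Subgroup D.Ad) : Set D.Ad) ∩ ((fun x : D.Ad × D.Ad => x.1 * x.2) ''
      ((U : Set D.Ad) ×ˢ ((K : Set D.Ad) ∩ Oᶜ)))ᶜ := by
    ext g
    constructor
    · intro hg
      refine ⟨(sup_le_sup_left hK' U : U ⊔ K' ≤ U ⊔ K) hg, ?_⟩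
      rintro ⟨⟨u', k'⟩, ⟨hu', hk', hkW'⟩, he⟩
      obtain ⟨u, hu, k, hk, rfl⟩ := (mem_sup_iff hU hK2).1 hg
      have he' : u' * k' = u * k := he
      have h3 : k' = k := f1_unique hU hK.supp hu' hu hk' (hK' hk) he'
      exact hkW' ((hOK' k' hk').1 (h3 ▸ hk))
    · rintro ⟨h1, h2⟩
      obtain ⟨u, hu, k, hk, rfl⟩ := (mem_sup_iff hU hK.supp).1 h1
      apply (mem_sup_iff hU hK2).2
      refine ⟨u, hu, k, ?_, rfl⟩
      by_contra hkW
      exact h2 ⟨(u, k), ⟨hu, hk, fun h => hkW ((hOK' k hk).2 h)⟩, rfl⟩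
  have hopen : IsOpen ((U ⊔ K' : Subgroup D.Ad) : Set D.Ad) := by
    rw [hset]
    exact hK.isOpen.inter hbad.isClosed.isOpen_compl
  refine ⟨hK2, hopen, ?_⟩
  have hclosed : IsClosed ((U ⊔ K' : Subgroup D.Ad) : Set D.Ad) :=
    Subgroup.isClosed_of_isOpen _ hopen
  exact hK.isCompact.of_isClosed_subset hclosed (sup_le_sup_left hK' U : U ⊔ K' ≤ U ⊔ K)

/-- `G(𝔸_f)` is totally disconnected. Proof: it embeds (`isEmbedding_entries`) into a power of the
finite adeles, which are totally disconnected: if `s` is a preconnected set of adeles, then so is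
its image in every completion (`RestrictedProduct.continuous_eval`), which is totally disconnected
as the valuation topology is ultrametric (`Valued` fields: balls are clopen; e.g. the sets
`{x | Valued.v (x - a) < γ}` are clopen), so all elements of `s` have the same components. -/
theorem totallyDisconnected_Ad : TotallyDisconnectedSpace D.Ad := by
  refine ⟨?_⟩
  intro s _ hs x hx y hy
  apply Ad_ext
  intro v
  apply Units.ext
  refine Matrix.ext fun i j => ?_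
  have h1 : IsPreconnected ((fun g : D.Ad => (mat g i j v : v.adicCompletion F)) '' s) :=
    hs.image _ (f1_continuous_comp v i j).continuousOn
  exact h1.subsingleton (Set.mem_image_of_mem _ hx) (Set.mem_image_of_mem _ hy)

/-- A non-trivial element of `G(F)` is non-trivial at every place. Proof: `F → F_v` is injective. -/
theorem eq_one_of_trivialAt_toAd {γ : D.Rat} {v : HeightOneSpectrum (𝓞 F)}
    (h : TrivialAt v (D.toAd γ)) : γ = 1 := by
  apply Subtype.ext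
  apply Units.ext
  ext i j
  have h1 : ((mat (D.toAd γ)).map
      (fun a : FiniteAdeleRing (𝓞 F) F => (a v : v.adicCompletion F))) i j =
      (1 : Matrix (Fin n) (Fin n) (v.adicCompletion F)) i j := congrFun (congrFun h i) j
  have h2 : algebraMap F (v.adicCompletion F) (γ.1.1 i j) =
      (1 : Matrix (Fin n) (Fin n) (v.adicCompletion F)) i j := h1
  have h3 : (1 : Matrix (Fin n) (Fin n) (v.adicCompletion F)) i j =
      algebraMap F (v.adicCompletion F) ((1 : Matrix (Fin n) (Fin n) F) i j) := by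
    rw [Matrix.one_apply, Matrix.one_apply]
    split_ifs
    · rw [map_one]
    · rw [map_zero]
  rw [h3] at h2
  exact (algebraMap F (v.adicCompletion F)).injective h2

/-- Small levels are free.
Proof: let `V = U ⊔ K` and `X` the representatives of `exists_finite_reps`. For `c ∈ X` the set
`A c = {γ ≠ 1 | c⁻¹ γ c ∈ V}` is finite (`finite_rat_of_isCompact`). For `γ ∈ A c` write
`c⁻¹ γ c = u k`, `u ∈ U`, `k ∈ K` (`mem_sup_iff`). Here `k ≠ 1`, since otherwise `c⁻¹ γ c` and hence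
`γ` is trivial at a place above `ℓ` (there is one), so `γ = 1` (`eq_one_of_trivialAt_toAd`). The set
`B` of all `h⁻¹ k h` (`h ∈ K`, `c ∈ X`, `γ ∈ A c`) is a compact subset of `K` (`K` is compact, see the
proof of `isLevel_inf`) that does not contain `1`. By
`exist_openNormalSubgroup_sub_open_nhds_of_one` (file
`Mathlib/Topology/Algebra/ClopenNhdofOne.lean`; `K` is compact and totally disconnected) there is an
open subgroup `K'` of `K` with `K' ∩ B = ∅`; it is a level by `isLevel_of_isOpen`.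
If `g⁻¹ γ g ∈ U ⊔ K'` and `γ ≠ 1`, write `g = δ c h`, `δ ∈ G(F)`, `c ∈ X`, `h = u' h' ∈ V`,
`γ' = δ⁻¹ γ δ ≠ 1`. Then `c⁻¹ γ' c = h (g⁻¹ γ g) h⁻¹ ∈ V`, so `γ' ∈ A c`, and with
`c⁻¹ γ' c = u k` one has `g⁻¹ γ g = (u'⁻¹ u u') (h'⁻¹ k h')` (`U` and `K` commute:
`mul_comm_of_disjoint`); as the decomposition in `U K` is unique (disjoint supports),
`h'⁻¹ k h' ∈ K' ∩ B`, a contradiction. -/
theorem exists_free_level [IsTotallyReal F] (hD : IsTotPosDef D.q) (hU : IsTame ℓ U)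
    (hK : IsLevel ℓ U K) : ∃ K' : Subgroup D.Ad, K' ≤ K ∧ IsLevel ℓ U K' ∧
      ∀ (g : D.Ad) (γ : D.Rat), g⁻¹ * D.toAd γ * g ∈ U ⊔ K' → γ = 1 := by
  classical
  have hT2 : T2Space D.Ad := t2Space_Ad
  obtain ⟨X, hX⟩ := exists_finite_reps hD (U ⊔ K) hK.isOpen
  obtain ⟨v₀, hv₀⟩ := f1_exists_place F ℓ
  -- the set of the `K`-components
  let Z : Set D.Ad := {k | k ∈ K ∧ ∃ c ∈ X, ∃ γ : D.Rat, γ ≠ 1 ∧ ∃ u ∈ U,
    c⁻¹ * D.toAd γ * c = u * k}
  have hZfin : Z.Finite := by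
    have hA : ∀ c : D.Ad, {γ : D.Rat | c⁻¹ * D.toAd γ * c ∈ U ⊔ K}.Finite := by
      intro c
      have hC : IsCompact ((fun x : D.Ad => c * x * c⁻¹) '' ((U ⊔ K : Subgroup D.Ad) : Set D.Ad)) :=
        hK.isCompact.image ((continuous_const.mul continuous_id).mul continuous_const)
      refine (finite_rat_of_isCompact hD _ hC).subset ?_
      intro γ hγ
      refine ⟨c⁻¹ * D.toAd γ * c, hγ, ?_⟩
      show c * (c⁻¹ * D.toAd γ * c) * c⁻¹ = D.toAd γ
      group
    have hsub : Z ⊆ ⋃ c ∈ X, ⋃ γ ∈ {γ : D.Rat | c⁻¹ * D.toAd γ * c ∈ U ⊔ K},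
        {k | k ∈ K ∧ ∃ u ∈ U, c⁻¹ * D.toAd γ * c = u * k} := by
      rintro k ⟨hk, c, hc, γ, _, u, hu, h⟩
      simp only [Set.mem_iUnion]
      refine ⟨c, hc, γ, ?_, hk, u, hu, h⟩
      show c⁻¹ * D.toAd γ * c ∈ U ⊔ K
      rw [h]
      exact (mem_sup_iff hU hK.supp).2 ⟨u, hu, k, hk, rfl⟩
    refine Set.Finite.subset ?_ hsub
    refine Set.Finite.biUnion X.finite_toSet fun c _ => ?_
    refine Set.Finite.biUnion (hA c) fun γ _ => ?_
    apply Set.Subsingleton.finite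
    rintro k ⟨hk, u, hu, h⟩ k' ⟨hk', u', hu', h'⟩
    exact f1_unique hU hK.supp hu hu' hk hk' (h.symm.trans h')
  have hZ1 : ∀ k ∈ Z, k ≠ 1 := by
    rintro k ⟨_, c, _, γ, hγ, u, hu, h⟩ rfl
    apply hγ
    apply eq_one_of_trivialAt_toAd (v := v₀)
    have h1 : D.toAd γ = c * u * c⁻¹ := by
      rw [mul_one] at h
      rw [← h]
      group
    rw [h1]
    exact f1_trivialAt_conj c (hU u hu v₀ hv₀)
  have hKc := f1_isCompact_K hU hK
  -- the compact set of the conjugates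
  have hB : IsCompact ((fun x : D.Ad × D.Ad => x.1⁻¹ * x.2 * x.1) '' ((K : Set D.Ad) ×ˢ Z)) :=
    (hKc.prod hZfin.isCompact).image
      ((continuous_fst.inv.mul continuous_snd).mul continuous_fst)
  have hKcs : CompactSpace K := isCompact_iff_compactSpace.1 hKc
  have hKtd : TotallyDisconnectedSpace K := by
    have := totallyDisconnected_Ad (D := D)
    exact Subtype.totallyDisconnectedSpace
  have hO : IsOpen {k : K | (k : D.Ad) ∉
      (fun x : D.Ad × D.Ad => x.1⁻¹ * x.2 * x.1) '' ((K : Set D.Ad) ×ˢ Z)} :=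
    hB.isClosed.isOpen_compl.preimage continuous_subtype_val
  have h1O : (1 : K) ∈ {k : K | (k : D.Ad) ∉
      (fun x : D.Ad × D.Ad => x.1⁻¹ * x.2 * x.1) '' ((K : Set D.Ad) ×ˢ Z)} := by
    rintro ⟨⟨h, k⟩, ⟨_, hk⟩, he⟩
    apply hZ1 k hk
    have he' : h⁻¹ * k * h = 1 := he
    have h2 : k = h * (h⁻¹ * k * h) * h⁻¹ := by group
    rw [h2, he']
    group
  obtain ⟨H, hH⟩ := ProfiniteGrp.exist_openNormalSubgroup_sub_open_nhds_of_one hO h1O
  have hmem : ∀ k : K, (k : D.Ad) ∈ H.toSubgroup.map K.subtype ↔ k ∈ H.toSubgroup := by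
    intro k
    constructor
    · rintro ⟨k', hk', he⟩
      have h3 : k' = k := Subtype.ext he
      exact h3 ▸ hk'
    · intro hk
      exact ⟨k, hk, rfl⟩
  have hK'K : H.toSubgroup.map K.subtype ≤ K := by
    rintro _ ⟨k, _, rfl⟩
    exact k.2
  have hlev : IsLevel ℓ U (H.toSubgroup.map K.subtype) := by
    apply isLevel_of_isOpen hU hK hK'K
    have h4 : {k : K | (k : D.Ad) ∈ H.toSubgroup.map K.subtype} = (H.toSubgroup : Set K) := by
      ext k
      exact hmem k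
    rw [h4]
    exact H.toOpenSubgroup.isOpen
  refine ⟨H.toSubgroup.map K.subtype, hK'K, hlev, ?_⟩
  intro g γ hg
  by_contra hγ
  obtain ⟨u₁, hu₁, k₁, hk₁, he⟩ := (mem_sup_iff hU hlev.supp).1 hg
  obtain ⟨δ, c, hc, h, hh, rfl⟩ := hX g
  obtain ⟨u', hu', h', hh', rfl⟩ := (mem_sup_iff hU hK.supp).1 hh
  have hcomm : ∀ a ∈ U, ∀ b ∈ K, a * b = b * a := by
    intro a ha b hb
    apply mul_comm_of_disjoint
    intro v
    by_cases hv : (ℓ : 𝓞 F) ∈ v.asIdeal
    · exact Or.inl (hU a ha v hv)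
    · exact Or.inr (hK.supp b hb v hv)
  have hk₁K : k₁ ∈ K := hK'K hk₁
  have hz : c⁻¹ * D.toAd (δ⁻¹ * γ * δ) * c = (u' * u₁ * u'⁻¹) * (h' * k₁ * h'⁻¹) := by
    have h5 : c⁻¹ * D.toAd (δ⁻¹ * γ * δ) * c =
        (u' * h') * ((D.toAd δ * c * (u' * h'))⁻¹ * D.toAd γ * (D.toAd δ * c * (u' * h'))) *
          (u' * h')⁻¹ := by
      rw [map_mul, map_mul, map_inv]
      group
    rw [h5, he]
    have h6 : h' * u₁ = u₁ * h' := (hcomm u₁ hu₁ h' hh').symm
    have h7 : u'⁻¹ * (h' * k₁ * h'⁻¹) = (h' * k₁ * h'⁻¹) * u'⁻¹ :=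
      hcomm _ (U.inv_mem hu') _ (K.mul_mem (K.mul_mem hh' hk₁K) (K.inv_mem hh'))
    calc u' * h' * (u₁ * k₁) * (u' * h')⁻¹ = u' * (h' * u₁) * k₁ * h'⁻¹ * u'⁻¹ := by
          group
      _ = u' * u₁ * ((h' * k₁ * h'⁻¹) * u'⁻¹) := by
          rw [h6]
          group
      _ = u' * u₁ * u'⁻¹ * (h' * k₁ * h'⁻¹) := by
          rw [← h7]
          group
  have hγ' : δ⁻¹ * γ * δ ≠ 1 := by
    intro h8
    apply hγ
    have h9 : γ = δ * (δ⁻¹ * γ * δ) * δ⁻¹ := by group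
    rw [h9, h8]
    group
  have hZk : h' * k₁ * h'⁻¹ ∈ Z :=
    ⟨K.mul_mem (K.mul_mem hh' hk₁K) (K.inv_mem hh'), c, hc, δ⁻¹ * γ * δ, hγ', u' * u₁ * u'⁻¹,
      U.mul_mem (U.mul_mem hu' hu₁) (U.inv_mem hu'), hz⟩
  have h10 : (⟨k₁, hk₁K⟩ : K) ∈ H.toSubgroup := (hmem ⟨k₁, hk₁K⟩).1 hk₁
  refine hH h10 ⟨(h', h' * k₁ * h'⁻¹), ⟨hh', hZk⟩, ?_⟩
  show h'⁻¹ * (h' * k₁ * h'⁻¹) * h' = k₁
  group

end Pool.Agent.Lib.MP_666dc0_nt.WL
end
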