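import Mathlib

section

open NumberField IsDedekindDomain
open scoped NumberField

namespace Pool.Agent.Lib.MP_666dc0_nt.WL

/-!
# WL, D0a: the place of an embedding of a number field into `ℚ̄_ℓ`
-/

variable {F : Type} [Field F] [NumberField F] {ℓ : ℕ} [Fact ℓ.Prime]

/-- Integral elements have norm `≤ 1`.
Proof: if `‖z‖ > 1` and `z ^ n = - ∑_{i < n} c i * z ^ i` with `c i ∈ ℤ`, then the right side has norm
`≤ ‖z‖ ^ (n - 1) < ‖z‖ ^ n` (`IsUltrametricDist.norm_sum_le_of_forall_le_of_nonneg`,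
`IsUltrametricDist.norm_intCast_le_one`). (Or: the spectral norm is the maximum of the norms of the
coefficients of the minimal polynomial, which are in `ℤ_ℓ`.) -/
theorem norm_le_one_of_isIntegral {z : PadicAlgCl ℓ} (hz : IsIntegral ℤ z) : ‖z‖ ≤ 1 := by
  have h1 : IsIntegral (Valued.v (R := PadicAlgCl ℓ)).integer z := hz.tower_top
  have h2 := (Valuation.integer.integers (Valued.v (R := PadicAlgCl ℓ))).mem_of_integral h1
  have h3 : (Valued.v z : NNReal) ≤ 1 := h2
  rw [← PadicAlgCl.valuation_coe]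
  exact_mod_cast h3

/-- The norm of the integer `ℓ`. Proof: `PadicAlgCl.norm_extends`, `Padic.norm_p_lt_one`. -/
theorem norm_ell_lt_one : ‖((ℓ : ℕ) : PadicAlgCl ℓ)‖ < 1 := by
  rw [← map_natCast (algebraMap ℚ_[ℓ] (PadicAlgCl ℓ)), PadicAlgCl.norm_extends]
  exact Padic.norm_p_lt_one

/-- An integer `c` with `‖c‖ < 1` in `ℚ̄_ℓ` is divisible by `ℓ`. Proof: `PadicAlgCl.norm_extends`,
`padicNormE.norm_int_lt_one_iff_dvd` (or `Padic.norm_int_lt_one_iff_dvd`). -/
theorem dvd_of_norm_lt_one {c : ℤ} (hc : ‖((c : ℤ) : PadicAlgCl ℓ)‖ < 1) : (ℓ : ℤ) ∣ c := by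
  rw [← map_intCast (algebraMap ℚ_[ℓ] (PadicAlgCl ℓ)), PadicAlgCl.norm_extends] at hc
  exact Padic.norm_intCast_lt_one_iff.1 hc

omit [NumberField F] in
private theorem d0a_norm_le_one (σ : F →+* PadicAlgCl ℓ) (x : 𝓞 F) : ‖σ (x : F)‖ ≤ 1 := by
  apply norm_le_one_of_isIntegral
  have h : IsIntegral ℤ (x : F) := x.2
  exact h.map (σ.toIntAlgHom)

/-- The place of `σ : F → ℚ̄_ℓ`.
Proof: the `x : 𝓞 F` with `‖σ x‖ < 1` form an ideal (ultrametric inequality, norms of integral
elements are `≤ 1`: `norm_le_one_of_isIntegral`), prime since the norm is multiplicative and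
`‖σ x‖ ≤ 1`, proper as `‖1‖ = 1`, non-zero since it contains `ℓ`. -/
theorem exists_place (σ : F →+* PadicAlgCl ℓ) :
    ∃ v : HeightOneSpectrum (𝓞 F), ∀ x : 𝓞 F, x ∈ v.asIdeal ↔ ‖σ (x : F)‖ < 1 := by
  let I : Ideal (𝓞 F) :=
    { carrier := {x | ‖σ (x : F)‖ < 1}
      add_mem' := by
        intro a b ha hb
        simp only [Set.mem_ofPred_eq] at ha hb ⊢
        have e : σ (((a + b : 𝓞 F)) : F) = σ (a : F) + σ (b : F) := by
          rw [← map_add]; rfl
        rw [e]
        exact lt_of_le_of_lt (IsUltrametricDist.norm_add_le_max _ _) (max_lt ha hb)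
      zero_mem' := by
        simp
      smul_mem' := by
        intro c x hx
        simp only [Set.mem_ofPred_eq] at hx ⊢
        have e : σ (((c • x : 𝓞 F)) : F) = σ (c : F) * σ (x : F) := by
          rw [← map_mul]; rfl
        rw [e, norm_mul]
        calc ‖σ (c : F)‖ * ‖σ (x : F)‖ ≤ 1 * ‖σ (x : F)‖ :=
              mul_le_mul_of_nonneg_right (d0a_norm_le_one σ c) (norm_nonneg _)
          _ < 1 := by rwa [one_mul] }
  have hI : ∀ x : 𝓞 F, x ∈ I ↔ ‖σ (x : F)‖ < 1 := fun x => Iff.rfl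
  have hp : I.IsPrime := by
    refine ⟨?_, ?_⟩
    · intro htop
      have h1 : (1 : 𝓞 F) ∈ I := by rw [htop]; trivial
      rw [hI] at h1
      simp at h1
    · intro x y hxy
      rw [hI] at hxy
      by_contra hcon
      rw [not_or, hI, hI, not_lt, not_lt] at hcon
      have e : σ (((x * y : 𝓞 F)) : F) = σ (x : F) * σ (y : F) := by
        rw [← map_mul]; rfl
      rw [e, norm_mul] at hxy
      have : (1 : ℝ) ≤ ‖σ (x : F)‖ * ‖σ (y : F)‖ := one_le_mul_of_one_le_of_one_le hcon.1 hcon.2
      exact absurd hxy (not_lt.2 this)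
  have hne : I ≠ ⊥ := by
    intro hbot
    have h1 : ((ℓ : ℕ) : 𝓞 F) ∈ I := by
      rw [hI]
      have : σ ((((ℓ : ℕ) : 𝓞 F)) : F) = ((ℓ : ℕ) : PadicAlgCl ℓ) := by
        simp
      rw [this]
      exact norm_ell_lt_one
    rw [hbot, Ideal.mem_bot] at h1
    have : (ℓ : ℕ) ≠ 0 := (Fact.out : ℓ.Prime).ne_zero
    exact this (by exact_mod_cast h1)
  exact ⟨⟨I, hp, hne⟩, hI⟩

end Pool.Agent.Lib.MP_666dc0_nt.WL
end

section

open NumberField IsDedekindDomain
open scoped NumberField

namespace Pool.Agent.Lib.MP_666dc0_nt.WL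

/-!
# WL, D0b: comparison of the norm of `σ x` with the valuation of `x`
-/

variable {F : Type} [Field F] [NumberField F] {ℓ : ℕ} [Fact ℓ.Prime]

omit [NumberField F] in
private theorem d0b_le_one (σ : F →+* PadicAlgCl ℓ) (x : 𝓞 F) : ‖σ (x : F)‖ ≤ 1 := by
  apply norm_le_one_of_isIntegral
  have h : IsIntegral ℤ (x : F) := x.2
  exact h.map (σ.toIntAlgHom)

/-- Proof: write `x = a / s` with `a s : 𝓞 F`, `s ∉ v.asIdeal` (an element of valuation `≤ 1` is in the
localisation of `𝓞 F` at `v`: look for `IsDedekindDomain.HeightOneSpectrum` lemmas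
`exists_primaryGenerator..`, `valuation_le_one_iff..`, `mem_integers..`; by hand: let
`I = {d : 𝓞 F | d * x ∈ 𝓞 F}`, an ideal; it is not contained in `v.asIdeal`. For this take
`x = a / b` and use the factorisation of `span {a}`, `span {b}`, or: choose `s` with
`s ∈ (b / gcd(a, b))`, `s ∉ v`; the Mathlib statement may be
`IsDedekindDomain.HeightOneSpectrum.valuationSubring_eq_localization` or
`IsLocalization.AtPrime`). Then `‖σ s‖ = 1` (`≤ 1` as `s` is integral, not `< 1` by `hv`) and
`‖σ a‖ ≤ 1`. -/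
theorem norm_le_one_of_valuation_le_one (σ : F →+* PadicAlgCl ℓ) {v : HeightOneSpectrum (𝓞 F)}
    (hv : ∀ x : 𝓞 F, x ∈ v.asIdeal ↔ ‖σ (x : F)‖ < 1) {x : F} (hx : v.valuation F x ≤ 1) :
    ‖σ x‖ ≤ 1 := by
  obtain ⟨n, d, h⟩ := HeightOneSpectrum.exists_primeCompl_mul_eq_of_integer (v := v) x hx
  have hd : ‖σ ((d : 𝓞 F) : F)‖ = 1 := by
    apply le_antisymm (d0b_le_one σ _)
    rw [← not_lt, ← hv]
    exact d.2
  have h1 : σ x * σ ((d : 𝓞 F) : F) = σ (n : F) := by
    rw [← map_mul]
    exact congrArg σ h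
  have h2 := congrArg norm h1
  rw [norm_mul, hd, mul_one] at h2
  rw [h2]
  exact d0b_le_one σ n

/-- Proof: choose `ϖ : 𝓞 F` with `v.valuation F ϖ = exp (-1)`
(`HeightOneSpectrum.valuation_exists_uniformizer`, or `intValuation_exists_uniformizer`); it is in
`v.asIdeal`, so `c = ‖σ ϖ‖ < 1`. If `v(x) ≤ exp (-k)` then `v(x / ϖ ^ k) ≤ 1`, so
`‖σ x‖ ≤ ‖σ ϖ‖ ^ k` by the previous theorem. -/
theorem exists_norm_le_pow (σ : F →+* PadicAlgCl ℓ) {v : HeightOneSpectrum (𝓞 F)}
    (hv : ∀ x : 𝓞 F, x ∈ v.asIdeal ↔ ‖σ (x : F)‖ < 1) :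
    ∃ c : ℝ, 0 ≤ c ∧ c < 1 ∧ ∀ (k : ℕ) (x : F),
      v.valuation F x ≤ WithZero.exp (-(k : ℤ)) → ‖σ x‖ ≤ c ^ k := by
  obtain ⟨ϖ, hϖ⟩ := v.valuation_exists_uniformizer' F
  have hϖ' : v.valuation F (ϖ : F) = WithZero.exp (-1 : ℤ) := hϖ
  have hlt : ‖σ (ϖ : F)‖ < 1 := by
    rw [← hv, ← v.valuation_lt_one_iff_mem (K := F)]
    change v.valuation F (ϖ : F) < 1
    rw [hϖ', ← WithZero.exp_zero, WithZero.exp_lt_exp]
    norm_num
  have hne : (ϖ : F) ≠ 0 := by
    intro h0
    rw [h0, map_zero] at hϖ'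
    exact WithZero.exp_ne_zero hϖ'.symm
  refine ⟨‖σ (ϖ : F)‖, norm_nonneg _, hlt, ?_⟩
  intro k x hx
  have h1 : v.valuation F (x / (ϖ : F) ^ k) ≤ 1 := by
    rw [map_div₀, map_pow, hϖ', ← WithZero.exp_nsmul]
    have e : k • (-1 : ℤ) = -(k : ℤ) := by simp
    rw [e]
    have hz : (0 : WithZero (Multiplicative ℤ)) < WithZero.exp (-(k : ℤ)) := WithZero.exp_pos
    rw [div_le_one₀ hz]
    exact hx
  have h2 := norm_le_one_of_valuation_le_one σ hv h1
  rw [map_div₀, map_pow, norm_div, norm_pow] at h2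
  have hpos : 0 < ‖σ (ϖ : F)‖ ^ k := by
    apply pow_pos
    rw [norm_pos_iff, map_ne_zero]
    exact hne
  rwa [div_le_one hpos] at h2

end Pool.Agent.Lib.MP_666dc0_nt.WL
end

section

open NumberField IsDedekindDomain
open scoped NumberField

namespace Pool.Agent.Lib.MP_666dc0_nt.WL

/-!
# WL, D0d: every place above `ℓ` comes from an embedding
-/

variable {F : Type} [Field F] [NumberField F] {ℓ : ℕ} [Fact ℓ.Prime]

private theorem d0d_coeff (s : Multiset (PadicAlgCl ℓ)) (hs : ∀ a ∈ s, ‖a‖ < 1) :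
    (∀ i, ‖((s.map fun a => Polynomial.X - Polynomial.C a).prod).coeff i‖ ≤ 1) ∧
      ∀ i, i < Multiset.card s →
        ‖((s.map fun a => Polynomial.X - Polynomial.C a).prod).coeff i‖ < 1 := by
  induction s using Multiset.induction_on with
  | empty =>
    refine ⟨fun i => ?_, fun i hi => absurd hi (by simp)⟩
    rw [Multiset.map_zero, Multiset.prod_zero, Polynomial.coeff_one]
    split_ifs
    · exact norm_one.le
    · rw [norm_zero]
      exact zero_le_one
  | cons a s ih =>
    obtain ⟨h1, h2⟩ := ih fun b hb => hs b (Multiset.mem_cons_of_mem hb)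
    have ha : ‖a‖ < 1 := hs a (Multiset.mem_cons_self a s)
    rw [Multiset.map_cons, Multiset.prod_cons]
    set P := (s.map fun a => Polynomial.X - Polynomial.C a).prod with hP
    have h3 : ∀ i, ‖a * P.coeff i‖ < 1 := by
      intro i
      rw [norm_mul]
      exact (mul_le_of_le_one_right (norm_nonneg _) (h1 i)).trans_lt ha
    have hsub : ∀ x y : PadicAlgCl ℓ, ‖x - y‖ ≤ max ‖x‖ ‖y‖ := fun x y => by
      have := IsUltrametricDist.norm_add_le_max x (-y)
      rwa [norm_neg, ← sub_eq_add_neg] at this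
    refine ⟨fun i => ?_, fun i hi => ?_⟩
    · rw [sub_mul, Polynomial.coeff_sub, Polynomial.coeff_C_mul]
      refine (hsub _ _).trans (max_le ?_ (h3 i).le)
      cases i with
      | zero =>
        rw [Polynomial.mul_coeff_zero, Polynomial.coeff_X_zero, zero_mul, norm_zero]
        exact zero_le_one
      | succ i =>
        rw [Polynomial.coeff_X_mul]
        exact h1 i
    · rw [sub_mul, Polynomial.coeff_sub, Polynomial.coeff_C_mul]
      refine (hsub _ _).trans_lt (max_lt ?_ (h3 i))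
      cases i with
      | zero =>
        rw [Polynomial.mul_coeff_zero, Polynomial.coeff_X_zero, zero_mul, norm_zero]
        exact zero_lt_one
      | succ i =>
        rw [Polynomial.coeff_X_mul]
        refine h2 i ?_
        rw [Multiset.card_cons] at hi
        omega

/-- An algebraic integer all of whose conjugates in `ℚ̄_ℓ` have norm `< 1` has a power divisible
by `ℓ`.
Proof: let `m = minpoly ℤ x`, of degree `d` (monic, irreducible over `ℚ`:
`minpoly.isIntegrallyClosed_eq_field_fractions'`). Its image in `ℚ̄_ℓ[X]` splits; every root is of the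
form `σ x` for an embedding `σ : F → ℚ̄_ℓ` (`Algebra.IsAlgebraic.range_eval_eq_rootSet_minpoly`, or
`NumberField.Embeddings.range_eval_eq_rootSet_minpoly`), so has norm `< 1`. Hence the coefficients
of degree `< d` of the product `∏ (X - root)` have norm `< 1` (induction on the multiset of the
roots; or consider the image in the residue field of the valuation ring of `ℚ̄_ℓ`), so they are
divisible by `ℓ` (`dvd_of_norm_lt_one`), and `x ^ d = - ∑_{i < d} m.coeff i * x ^ i` is divisible
by `ℓ`. -/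
theorem dvd_pow_of_norm_lt_one (x : 𝓞 F)
    (hx : ∀ σ : F →+* PadicAlgCl ℓ, ‖σ (x : F)‖ < 1) : ∃ d : ℕ, (ℓ : 𝓞 F) ∣ x ^ d := by
  classical
  have hint : IsIntegral ℤ (x : F) := x.isIntegral_coe
  set m : Polynomial ℤ := minpoly ℤ (x : F) with hm
  have hmonic : m.Monic := minpoly.monic hint
  have hmQ : minpoly ℚ (x : F) = m.map (algebraMap ℤ ℚ) :=
    minpoly.isIntegrallyClosed_eq_field_fractions' ℚ hint
  set P : Polynomial (PadicAlgCl ℓ) := m.map (algebraMap ℤ (PadicAlgCl ℓ)) with hP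
  have hPm : P.Monic := hmonic.map _
  have hPQ : P = (minpoly ℚ (x : F)).map (algebraMap ℚ (PadicAlgCl ℓ)) := by
    rw [hmQ, Polynomial.map_map, hP]
    congr 1
  have hroots : ∀ a ∈ P.roots, ‖a‖ < 1 := by
    intro a ha
    have h1 : a ∈ (minpoly ℚ (x : F)).rootSet (PadicAlgCl ℓ) := by
      rw [Polynomial.rootSet_def, Finset.mem_coe, Multiset.mem_toFinset, Polynomial.aroots_def,
        ← hPQ]
      exact ha
    rw [← Algebra.IsAlgebraic.range_eval_eq_rootSet_minpoly (PadicAlgCl ℓ) (x : F)] at h1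
    obtain ⟨ψ, hψ⟩ := h1
    rw [← hψ]
    exact hx ψ.toRingHom
  have hsplit : P.Splits := IsAlgClosed.splits P
  have hprod : P = (P.roots.map fun a => Polynomial.X - Polynomial.C a).prod := by
    have := hsplit.eq_prod_roots
    rwa [hPm.leadingCoeff, Polynomial.C_1, one_mul] at this
  have hcard : Multiset.card P.roots = m.natDegree := by
    rw [← hsplit.natDegree_eq_card_roots, hP, hmonic.natDegree_map]
  have hcoef : ∀ i, i < m.natDegree → (ℓ : ℤ) ∣ m.coeff i := by
    intro i hi
    refine dvd_of_norm_lt_one ?_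
    have h1 := (d0d_coeff P.roots hroots).2 i (by rw [hcard]; exact hi)
    rw [← hprod, hP, Polynomial.coeff_map] at h1
    exact h1
  refine ⟨m.natDegree, ?_⟩
  have haev : Polynomial.aeval x m = 0 := by
    have h1 : Polynomial.aeval (x : F) m = 0 := minpoly.aeval ℤ (x : F)
    have h2 : algebraMap (𝓞 F) F (Polynomial.aeval x m) = 0 := by
      rw [← Polynomial.aeval_algebraMap_apply]
      exact h1
    exact (map_eq_zero_iff _ (FaithfulSMul.algebraMap_injective (𝓞 F) F)).1 h2
  rw [Polynomial.aeval_eq_sum_range, Finset.sum_range_succ, hmonic.coeff_natDegree, one_smul] at haev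
  have h3 : x ^ m.natDegree = -∑ i ∈ Finset.range m.natDegree, m.coeff i • x ^ i :=
    eq_neg_of_add_eq_zero_right haev
  rw [h3, dvd_neg]
  refine Finset.dvd_sum fun i hi => ?_
  obtain ⟨c, hc⟩ := hcoef i (Finset.mem_range.1 hi)
  rw [hc, zsmul_eq_mul, Int.cast_mul, mul_assoc]
  exact ⟨_, by rw [Int.cast_natCast]⟩

/-- Every place above `ℓ` is the place of an embedding.
Proof: suppose that `v` is different from the place `v_σ` (`exists_place`) of every embedding
`σ : F → ℚ̄_ℓ`. There are finitely many embeddings. There is `x : 𝓞 F` in all the `v_σ` and not in `v`: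
as `v_σ ⊄ v` (distinct maximal ideals) choose `x_σ ∈ v_σ`, `x_σ ∉ v` and let `x` be the product
(`v` is prime). By `dvd_pow_of_norm_lt_one` `ℓ ∣ x ^ d`, so `x ^ d ∈ v`, `x ∈ v`, contradiction. -/
theorem exists_embedding (v : HeightOneSpectrum (𝓞 F)) (hv : (ℓ : 𝓞 F) ∈ v.asIdeal) :
    ∃ σ : F →+* PadicAlgCl ℓ, ∀ x : 𝓞 F, x ∈ v.asIdeal ↔ ‖σ (x : F)‖ < 1 := by
  classical
  by_contra hcon
  push Not at hcon
  choose w hw using fun σ : F →+* PadicAlgCl ℓ => exists_place σ
  have hne : ∀ σ, ∃ y : 𝓞 F, y ∈ (w σ).asIdeal ∧ y ∉ v.asIdeal := by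
    intro σ
    by_contra h
    push Not at h
    have h1 : (w σ).asIdeal ≤ v.asIdeal := fun y hy => h y hy
    have h2 : (w σ).asIdeal = v.asIdeal :=
      (w σ).isMaximal.eq_of_le v.isPrime.ne_top h1
    obtain ⟨x, hx⟩ := hcon σ
    rw [← h2, hw σ x] at hx
    rcases hx with ⟨h3, h4⟩ | ⟨h3, h4⟩
    · exact absurd h3 (not_lt.2 h4)
    · exact h3 h4
  choose y hy1 hy2 using hne
  obtain ⟨d, hd⟩ := dvd_pow_of_norm_lt_one (ℓ := ℓ) (∏ σ : F →+* PadicAlgCl ℓ, y σ) (by
    intro σ
    rw [← hw σ]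
    exact (w σ).asIdeal.mem_of_dvd (Finset.dvd_prod_of_mem y (Finset.mem_univ σ)) (hy1 σ))
  have h5 : (∏ σ : F →+* PadicAlgCl ℓ, y σ) ∈ v.asIdeal :=
    v.isPrime.mem_of_pow_mem d (v.asIdeal.mem_of_dvd hd hv)
  obtain ⟨σ, -, hσ⟩ := (v.isPrime.prod_mem_iff).1 h5
  exact hy2 σ hσ

end Pool.Agent.Lib.MP_666dc0_nt.WL
end

section

/-! # Part A, file 1: the Fischer pairing `⟨g, f⟩ = ∑ α, g_α f_α α!` -/

set_option autoImplicit false

open MvPolynomial

namespace Pool.Agent.Lib.MP_666dc0_nt.IG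

/-- the product of the factorials of the exponents -/
def mfact {σ : Type} (α : σ →₀ ℕ) : ℕ := α.prod fun _ e => e.factorial

/-- The Fischer pairing `⟨g, f⟩ = ∑ α, g_α f_α α!`. -/
noncomputable def fp (A : Type) [CommRing A] {σ : Type} :
    MvPolynomial σ A →ₗ[A] MvPolynomial σ A →ₗ[A] A :=
  (basisMonomials σ A).constr A (fun α => (mfact α : A) • lcoeff A α)

variable {σ : Type} {A B : Type} [CommRing A] [CommRing B]

/-- `Basis.constr_basis` and linearity. -/
theorem fp_monomial (α : σ →₀ ℕ) (a : A) (f : MvPolynomial σ A) :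
    fp A (monomial α a) f = a * (mfact α * coeff α f) := by
  have h1 : (monomial α a : MvPolynomial σ A) = a • (basisMonomials σ A) α := by
    rw [coe_basisMonomials]
    simp [smul_monomial]
  rw [h1, map_smul]
  unfold fp
  rw [Module.Basis.constr_basis]
  simp [lcoeff_apply]

theorem fp_C (a : A) (f : MvPolynomial σ A) : fp A (C a) f = a * coeff 0 f := by
  have h : (C a : MvPolynomial σ A) = monomial 0 a := rfl
  rw [h, fp_monomial]
  simp [mfact]

theorem A1a_mfact_single (s : σ) (α : σ →₀ ℕ) :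
    mfact (α + Finsupp.single s 1) = (α s + 1) * mfact α := by
  classical
  unfold mfact
  have hz : ∀ i : σ, Nat.factorial 0 = 1 := fun _ => rfl
  rw [← Finsupp.mul_prod_erase' (α + Finsupp.single s 1) s _ hz,
    ← Finsupp.mul_prod_erase' α s _ hz]
  have he : (α + Finsupp.single s 1).erase s = α.erase s := by
    ext t
    by_cases h : t = s
    · subst h; simp
    · simp [Finsupp.erase_ne h, Finsupp.single_apply, Ne.symm h]
  rw [he]
  simp [Nat.factorial_succ, mul_assoc]

/-- On monomials by `fp_monomial` and `coeff_pderiv`: `(α + e_s)! = (α s + 1) α!`. -/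
theorem fp_X_mul (s : σ) (g f : MvPolynomial σ A) : fp A (X s * g) f = fp A g (pderiv s f) := by
  induction g using MvPolynomial.induction_on' with
  | monomial α a =>
    rw [show (X s * monomial α a : MvPolynomial σ A) = monomial (α + Finsupp.single s 1) a by
      rw [mul_comm, monomial_add_single, pow_one], fp_monomial, fp_monomial, coeff_pderiv,
      A1a_mfact_single]
    push_cast
    ring
  | add p q hp hq =>
    rw [mul_add, map_add, map_add, LinearMap.add_apply, LinearMap.add_apply, hp, hq]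

theorem fp_C_mul_left (a : A) (g f : MvPolynomial σ A) : fp A (C a * g) f = a * fp A g f := by
  rw [← smul_eq_C_mul, map_smul]
  rfl

theorem fp_C_mul_right (a : A) (g f : MvPolynomial σ A) : fp A g (C a * f) = a * fp A g f := by
  rw [← smul_eq_C_mul, map_smul]
  rfl

/-- On monomials. -/
theorem fp_comm (g f : MvPolynomial σ A) : fp A g f = fp A f g := by
  classical
  induction g using MvPolynomial.induction_on' with
  | monomial α a =>
    induction f using MvPolynomial.induction_on' with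
    | monomial β b =>
      rw [fp_monomial, fp_monomial, coeff_monomial, coeff_monomial]
      by_cases h : β = α
      · subst h
        simp
        ring
      · rw [if_neg h, if_neg (Ne.symm h)]
        simp
    | add p q hp hq =>
      rw [map_add, map_add, LinearMap.add_apply, hp, hq]
  | add p q hp hq =>
    rw [map_add, map_add, LinearMap.add_apply, hp, hq]

/-- Base change; on monomials. -/
theorem fp_map (φ : A →+* B) (g f : MvPolynomial σ A) :
    fp B (map φ g) (map φ f) = φ (fp A g f) := by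
  induction g using MvPolynomial.induction_on' with
  | monomial α a =>
    rw [map_monomial, fp_monomial, fp_monomial, coeff_map]
    simp
  | add p q hp hq =>
    rw [map_add, map_add, LinearMap.add_apply, hp, hq, map_add, LinearMap.add_apply, map_add]

theorem A1b_eq_sum (g f : MvPolynomial σ A) :
    fp A g f = ∑ α ∈ g.support, coeff α g * (mfact α * coeff α f) := by
  conv_lhs => rw [g.as_sum]
  rw [map_sum, LinearMap.sum_apply]
  exact Finset.sum_congr rfl fun α _ => fp_monomial _ _ _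

/-- `⟨g, g⟩ = ∑ α, g_α² α! > 0` -/
theorem fp_pos (g : MvPolynomial σ ℚ) (hg : g ≠ 0) : 0 < fp ℚ g g := by
  rw [A1b_eq_sum]
  have hpos : ∀ α : σ →₀ ℕ, (0 : ℚ) < mfact α := by
    intro α
    have : 0 < mfact α := Finset.prod_pos fun i _ => Nat.factorial_pos _
    exact_mod_cast this
  refine Finset.sum_pos (fun α hα => ?_) ?_
  · have h1 : coeff α g ≠ 0 := mem_support_iff.mp hα
    have h2 : coeff α g * (mfact α * coeff α g) = mfact α * (coeff α g) ^ 2 := by ring
    rw [h2]
    exact mul_pos (hpos α) (by positivity)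
  · exact support_nonempty.mpr hg

/-- Take `h = monomial α 1`; `α!` is invertible in a `ℚ`-algebra. -/
theorem fp_nondeg [Algebra ℚ A] (p p' : MvPolynomial σ A) (h : ∀ g, fp A g p = fp A g p') :
    p = p' := by
  ext α
  have h1 := h (monomial α 1)
  rw [fp_monomial, fp_monomial, one_mul, one_mul] at h1
  have hpos : mfact α ≠ 0 := by
    have : 0 < mfact α := Finset.prod_pos fun i _ => Nat.factorial_pos _
    omega
  have h2 : algebraMap ℚ A ((mfact α : ℚ)⁻¹) * (mfact α : A) = 1 := by
    have : (mfact α : A) = algebraMap ℚ A (mfact α : ℚ) := by simp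
    rw [this, ← map_mul, inv_mul_cancel₀ (by exact_mod_cast hpos), map_one]
  calc coeff α p = (algebraMap ℚ A ((mfact α : ℚ)⁻¹) * (mfact α : A)) * coeff α p := by
        rw [h2, one_mul]
    _ = (algebraMap ℚ A ((mfact α : ℚ)⁻¹) * (mfact α : A)) * coeff α p' := by
        rw [mul_assoc, h1, ← mul_assoc]
    _ = coeff α p' := by rw [h2, one_mul]

/-- Multiplication by `g` has an adjoint operator; induction on `g` (`fp_C_mul_left`, `fp_X_mul`). -/
theorem exists_adj (g : MvPolynomial σ A) : ∃ D : MvPolynomial σ A → MvPolynomial σ A,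
    ∀ h f, fp A (g * h) f = fp A h (D f) := by
  induction g using MvPolynomial.induction_on with
  | C a =>
    refine ⟨fun f => C a * f, fun h f => ?_⟩
    rw [fp_C_mul_left, fp_C_mul_right]
  | add p q hp hq =>
    obtain ⟨D1, h1⟩ := hp
    obtain ⟨D2, h2⟩ := hq
    refine ⟨fun f => D1 f + D2 f, fun h f => ?_⟩
    rw [add_mul, map_add, LinearMap.add_apply, h1, h2, map_add]
  | mul_X p s hp =>
    obtain ⟨D1, h1⟩ := hp
    refine ⟨fun f => pderiv s (D1 f), fun h f => ?_⟩
    rw [mul_assoc, h1, fp_X_mul]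

end Pool.Agent.Lib.MP_666dc0_nt.IG
end

section

/-! # Part A, file 2: linear substitutions -/

set_option autoImplicit false

open MvPolynomial

namespace Pool.Agent.Lib.MP_666dc0_nt.IG

variable {σ : Type} [Fintype σ] {A B : Type} [CommRing A] [CommRing B] {n : ℕ}

/-- The linear substitution `X s ↦ ∑ t, L t s X t`. -/
noncomputable def lsub (L : σ → σ → A) : MvPolynomial σ A →ₐ[A] MvPolynomial σ A :=
  aeval (fun s => ∑ t, C (L t s) * X t)

theorem A2a_lsub_X (L : σ → σ → A) (s : σ) : lsub L (X s) = ∑ t, C (L t s) * X t := by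
  unfold lsub
  rw [aeval_X]

theorem A2a_lsub_C (L : σ → σ → A) (a : A) : lsub L (C a) = C a := by
  unfold lsub
  rw [aeval_C]
  rfl

/-- Chain rule; `MvPolynomial.induction_on f`. -/
theorem pderiv_lsub (L : σ → σ → A) (s : σ) (f : MvPolynomial σ A) :
    pderiv s (lsub L f) = ∑ t, C (L s t) * lsub L (pderiv t f) := by
  classical
  induction f using MvPolynomial.induction_on with
  | C a => rw [A2a_lsub_C]; simp
  | add p q hp hq =>
    rw [map_add, map_add, hp, hq, ← Finset.sum_add_distrib]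
    exact Finset.sum_congr rfl fun t _ => by rw [map_add, map_add, mul_add]
  | mul_X p u hp =>
    rw [map_mul, pderiv_mul, hp, A2a_lsub_X, map_sum]
    have h1 : ∀ t, pderiv s (C (L t u) * X t : MvPolynomial σ A)
        = if t = s then C (L t u) else 0 := by
      intro t
      rw [pderiv_C_mul, pderiv_X]
      by_cases h : t = s
      · subst h; simp
      · simp [h]
    simp only [h1, Finset.sum_ite_eq', Finset.mem_univ, if_true]
    have h2 : ∀ t, C (L s t) * lsub L (pderiv t (p * X u))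
        = C (L s t) * lsub L (pderiv t p) * (∑ v, C (L v u) * X v)
          + (if t = u then C (L s t) * lsub L p else 0) := by
      intro t
      rw [pderiv_mul, map_add, map_mul, map_mul, A2a_lsub_X, pderiv_X]
      by_cases h : t = u
      · subst h
        simp
        ring
      · rw [if_neg h, Pi.single_eq_of_ne (Ne.symm h)]
        simp
        ring
    rw [Finset.sum_congr rfl fun t _ => h2 t, Finset.sum_add_distrib, ← Finset.sum_mul]
    simp only [Finset.sum_ite_eq', Finset.mem_univ, if_true]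
    ring

/-- Induction on `f`: the constant coefficient is a ring homomorphism. -/
theorem coeff_zero_lsub (L : σ → σ → A) (f : MvPolynomial σ A) :
    coeff 0 (lsub L f) = coeff 0 f := by
  have h : ∀ g : MvPolynomial σ A, coeff 0 g = constantCoeff g := fun g => rfl
  rw [h, h]
  induction f using MvPolynomial.induction_on with
  | C a => rw [A2a_lsub_C]
  | add p q hp hq => rw [map_add, map_add, map_add, hp, hq]
  | mul_X p u hp =>
    rw [map_mul, map_mul, map_mul, hp, A2a_lsub_X, map_sum]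
    simp

/-- The adjoint of the substitution `L` is the substitution by the transposed matrix. Induction on `g`,
for all `f`, with `fp_C`, `coeff_zero_lsub`, `fp_X_mul`, `pderiv_lsub`. -/
theorem fp_lsub (L : σ → σ → A) (g f : MvPolynomial σ A) :
    fp A g (lsub L f) = fp A (lsub (fun s t => L t s) g) f := by
  induction g using MvPolynomial.induction_on generalizing f with
  | C a => rw [A2a_lsub_C, fp_C, fp_C, coeff_zero_lsub]
  | add p q hp hq =>
    rw [map_add, map_add, map_add, LinearMap.add_apply, LinearMap.add_apply, hp, hq]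
  | mul_X p u hp =>
    rw [mul_comm, fp_X_mul, pderiv_lsub, map_sum, map_mul, A2a_lsub_X, Finset.sum_mul, map_sum,
      LinearMap.sum_apply]
    refine Finset.sum_congr rfl fun t _ => ?_
    rw [fp_C_mul_right, hp, mul_assoc, fp_C_mul_left, fp_X_mul]

/-- The substitution `X ↦ X k`, `X` the generic matrix. -/
noncomputable def rsub (k : Matrix (Fin n) (Fin n) A) :
    MvPolynomial (Fin n × Fin n) A →ₐ[A] MvPolynomial (Fin n × Fin n) A :=
  aeval (fun ij => ∑ m, X (ij.1, m) * C (k m ij.2))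

theorem rsub_eq_lsub (k : Matrix (Fin n) (Fin n) A) (f : MvPolynomial (Fin n × Fin n) A) :
    rsub k f = lsub (fun s t => if s.1 = t.1 then k s.2 t.2 else 0) f := by
  have h : rsub k = lsub (fun s t => if s.1 = t.1 then k s.2 t.2 else 0) := by
    apply MvPolynomial.algHom_ext
    rintro ⟨i, j⟩
    rw [A2a_lsub_X]
    unfold rsub
    rw [aeval_X, Fintype.sum_prod_type]
    dsimp only
    symm
    refine (Finset.sum_eq_single i (fun b _ hb => ?_) (fun h => absurd (Finset.mem_univ i) h)).trans ?_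
    · exact Finset.sum_eq_zero fun m _ => by rw [if_neg hb, map_zero, zero_mul]
    · exact Finset.sum_congr rfl fun m _ => by rw [if_pos rfl, mul_comm]
  rw [h]

/-- From `fp_lsub` and `rsub_eq_lsub`. -/
theorem fp_rsub (k : Matrix (Fin n) (Fin n) A) (g f : MvPolynomial (Fin n × Fin n) A) :
    fp A g (rsub k f) = fp A (rsub k.transpose g) f := by
  rw [rsub_eq_lsub, fp_lsub, rsub_eq_lsub]
  have h : (fun s t : Fin n × Fin n => if t.1 = s.1 then k t.2 s.2 else 0)
      = fun s t => if s.1 = t.1 then k.transpose s.2 t.2 else 0 := by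
    funext s t
    by_cases h : s.1 = t.1
    · rw [if_pos h, if_pos h.symm]
      rfl
    · rw [if_neg h, if_neg (Ne.symm h)]
  rw [h]

end Pool.Agent.Lib.MP_666dc0_nt.IG
end

section

/-! # Part A, file 3: the determinant of the generic matrix -/

set_option autoImplicit false

open MvPolynomial

namespace Pool.Agent.Lib.MP_666dc0_nt.IG

variable {A B : Type} [CommRing A] [CommRing B] {n : ℕ}

/-- The generic matrix. -/
noncomputable def Xm (n : ℕ) (A : Type) [CommRing A] :
    Matrix (Fin n) (Fin n) (MvPolynomial (Fin n × Fin n) A) := Matrix.of fun i j => X (i, j)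

/-- The determinant of the generic matrix. -/
noncomputable def dX (n : ℕ) (A : Type) [CommRing A] : MvPolynomial (Fin n × Fin n) A :=
  (Xm n A).det

theorem Xm_map_rsub (k : Matrix (Fin n) (Fin n) A) : (Xm n A).map (rsub k) = Xm n A * k.map C := by
  refine Matrix.ext fun i j => ?_
  rw [Matrix.map_apply, Matrix.mul_apply]
  unfold Xm rsub
  rw [Matrix.of_apply, aeval_X]
  rfl

/-- Apply `rsub k` to the determinant (`AlgHom.map_det` or `RingHom.map_det`) and use `Xm_map_rsub`. -/
theorem rsub_dX (k : Matrix (Fin n) (Fin n) A) : rsub k (dX n A) = C k.det * dX n A := by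
  unfold dX
  rw [AlgHom.map_det, AlgHom.mapMatrix_apply, Xm_map_rsub, Matrix.det_mul, mul_comm]
  congr 1
  exact (RingHom.map_det C k).symm

theorem map_dX (φ : A →+* B) : map φ (dX n A) = dX n B := by
  unfold dX
  rw [RingHom.map_det]
  congr 1
  refine Matrix.ext fun i j => ?_
  unfold Xm
  rw [RingHom.mapMatrix_apply, Matrix.map_apply, Matrix.of_apply, Matrix.of_apply, map_X]

/-- value at the identity matrix -/
theorem dX_ne_zero [Nontrivial A] : dX n A ≠ 0 := by
  intro h
  have h1 := congrArg (eval (fun ij => (1 : Matrix (Fin n) (Fin n) A) ij.1 ij.2)) h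
  unfold dX at h1
  rw [RingHom.map_det, map_zero] at h1
  have h2 : (eval (fun ij : Fin n × Fin n => (1 : Matrix (Fin n) (Fin n) A) ij.1 ij.2)).mapMatrix
      (Xm n A) = 1 := by
    refine Matrix.ext fun i j => ?_
    unfold Xm
    rw [RingHom.mapMatrix_apply, Matrix.map_apply, Matrix.of_apply, eval_X]
  rw [h2, Matrix.det_one] at h1
  exact one_ne_zero h1

/-- Evaluation of `X ↦ X k` at the identity matrix is evaluation at `k`. -/
theorem eval_one_rsub (k : Matrix (Fin n) (Fin n) A) (f : MvPolynomial (Fin n × Fin n) A) :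
    eval (fun ij => (1 : Matrix (Fin n) (Fin n) A) ij.1 ij.2) (rsub k f) =
      eval (fun ij => k ij.1 ij.2) f := by
  have h : (eval (fun ij : Fin n × Fin n => (1 : Matrix (Fin n) (Fin n) A) ij.1 ij.2)).comp
      (rsub k).toRingHom = eval (fun ij => k ij.1 ij.2) := by
    refine MvPolynomial.ringHom_ext (fun a => ?_) (fun ij => ?_)
    · change eval _ (rsub k (C a)) = _
      rw [← MvPolynomial.algebraMap_eq, AlgHom.commutes, MvPolynomial.algebraMap_eq, eval_C, eval_C]
    · change eval _ (rsub k (X ij)) = _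
      unfold rsub
      rw [aeval_X, map_sum, eval_X]
      simp only [map_mul, eval_X, eval_C]
      rw [Finset.sum_eq_single ij.1]
      · rw [Matrix.one_apply_eq, one_mul]
      · intro b _ hb
        rw [Matrix.one_apply_ne hb.symm, zero_mul]
      · intro h
        exact absurd (Finset.mem_univ _) h
  exact DFunLike.congr_fun h f

/-- `Ω det^{N+1} = c det^N` where `Ω` is the adjoint of the multiplication by `det`.
Proof: `D` from `exists_adj (dX n ℚ)`, `P := D (dX ^ (N+1))`, so `⟨det h, det^{N+1}⟩ = ⟨h, P⟩` for all `h`.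
Let `Y := Xm n ℚ`, a matrix over the domain `A := MvPolynomial (Fin n × Fin n) ℚ`, and `P_A := map C P`;
`⟨det h, det^{N+1}⟩ = ⟨h, P_A⟩` holds for all `h` over `A` too (by linearity from monomials and `fp_map`).
Then `det(Y) ⟨h, rsub Y P_A⟩ = det(Y) ⟨rsub Yᵀ h, P_A⟩ = ⟨det(Y) det rsub Yᵀ h, det^{N+1}⟩ =
⟨rsub Yᵀ (det h), det^{N+1}⟩ = ⟨det h, rsub Y det^{N+1}⟩ = det(Y)^{N+1} ⟨det h, det^{N+1}⟩ =
det(Y)^{N+1} ⟨h, P_A⟩`, so by `fp_nondeg` `det(Y) rsub Y P_A = det(Y)^{N+1} P_A`. Evaluate at the identity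
matrix (`eval_one_rsub`): `det(Y) P(Y) = det(Y)^{N+1} P(1)`, so `P = P(1) det^N` since `A` is a domain
(`dX_ne_zero`; `det(Y) = dX n ℚ`). -/
theorem exists_omega (n N : ℕ) : ∃ c : ℚ, ∀ h : MvPolynomial (Fin n × Fin n) ℚ,
    fp ℚ (dX n ℚ * h) (dX n ℚ ^ (N + 1)) = c * fp ℚ h (dX n ℚ ^ N) := by
  obtain ⟨D, hD⟩ := exists_adj (dX n ℚ)
  obtain ⟨P, hP⟩ : ∃ P, P = D (dX n ℚ ^ (N + 1)) := ⟨_, rfl⟩
  have h1 : ∀ h, fp ℚ (dX n ℚ * h) (dX n ℚ ^ (N + 1)) = fp ℚ h P := fun h => by rw [hP, hD]
  clear hP hD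
  have h2 : ∀ h : MvPolynomial (Fin n × Fin n) (MvPolynomial (Fin n × Fin n) ℚ),
      fp _ (dX n (MvPolynomial (Fin n × Fin n) ℚ) * h)
        (dX n (MvPolynomial (Fin n × Fin n) ℚ) ^ (N + 1)) = fp _ h (map C P) := by
    intro h
    induction h using MvPolynomial.induction_on' with
    | monomial α a =>
      have h3 : monomial α a = C a * map (C : ℚ →+* MvPolynomial (Fin n × Fin n) ℚ)
          (monomial α 1) := by
        rw [map_monomial, map_one, C_mul_monomial, mul_one]
      rw [h3, mul_left_comm, fp_C_mul_left, fp_C_mul_left,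
        ← map_dX (C : ℚ →+* MvPolynomial (Fin n × Fin n) ℚ), ← map_pow, ← map_mul, fp_map, fp_map,
        h1]
    | add p q hp hq =>
      rw [mul_add, map_add, LinearMap.add_apply, hp, hq, map_add, LinearMap.add_apply]
  have hY : (Xm n ℚ).det = dX n ℚ := rfl
  have h4 : C (dX n ℚ) * rsub (Xm n ℚ) (map C P) = C (dX n ℚ ^ (N + 1)) * map C P := by
    refine fp_nondeg _ _ fun g => ?_
    rw [fp_C_mul_right, fp_C_mul_right, fp_rsub, ← h2, ← fp_C_mul_left, ← h2 g]
    have h5 : C (dX n ℚ) * (dX n (MvPolynomial (Fin n × Fin n) ℚ) * rsub (Xm n ℚ).transpose g) =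
        rsub (Xm n ℚ).transpose (dX n (MvPolynomial (Fin n × Fin n) ℚ) * g) := by
      rw [map_mul, rsub_dX, Matrix.det_transpose, hY, mul_assoc]
    rw [h5, ← fp_rsub, map_pow, rsub_dX, mul_pow, ← map_pow, fp_C_mul_right, hY]
  have h6 := congrArg (eval (fun ij => (1 : Matrix (Fin n) (Fin n)
    (MvPolynomial (Fin n × Fin n) ℚ)) ij.1 ij.2)) h4
  rw [map_mul, map_mul, eval_one_rsub, eval_C, eval_C] at h6
  have h7 : eval (fun ij => Xm n ℚ ij.1 ij.2) (map C P) = P := by
    rw [eval_map]
    exact eval₂_eta P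
  have h8 : eval (fun ij => (1 : Matrix (Fin n) (Fin n) (MvPolynomial (Fin n × Fin n) ℚ)) ij.1 ij.2)
      (map C P) = C (eval (fun ij => (1 : Matrix (Fin n) (Fin n) ℚ) ij.1 ij.2) P) := by
    rw [eval_map, ← eval₂_id, ← MvPolynomial.coe_eval₂Hom, ← MvPolynomial.coe_eval₂Hom]
    rw [MvPolynomial.map_eval₂Hom]
    congr 2
    funext ij
    by_cases h : ij.1 = ij.2 <;> simp [Matrix.one_apply, h]
  rw [h7, h8, pow_succ', mul_assoc] at h6
  have h9 := mul_left_cancel₀ (dX_ne_zero (n := n) (A := ℚ)) h6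
  refine ⟨eval (fun ij => (1 : Matrix (Fin n) (Fin n) ℚ) ij.1 ij.2) P, fun h => ?_⟩
  rw [h1, ← fp_C_mul_right]
  congr 1
  rw [mul_comm, ← h9]

/-- The norm of `det^N`. -/
noncomputable def cN (n N : ℕ) : ℚ := fp ℚ (dX n ℚ ^ N) (dX n ℚ ^ N)

theorem cN_pos (n N : ℕ) : 0 < cN n N := fp_pos _ (pow_ne_zero _ dX_ne_zero)

/-- `exists_omega` with `h = det^N` gives `c_{N+1} = c c_N`; for general `A` by linearity in `f`
(monomials) and `fp_map`. -/
theorem fp_det_step [Algebra ℚ A] (N : ℕ) (f : MvPolynomial (Fin n × Fin n) A) :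
    algebraMap ℚ A (cN n N) * fp A (dX n A ^ (N + 1)) (dX n A * f) =
      algebraMap ℚ A (cN n (N + 1)) * fp A (dX n A ^ N) f := by
  have hq : ∀ f : MvPolynomial (Fin n × Fin n) ℚ,
      cN n N * fp ℚ (dX n ℚ ^ (N + 1)) (dX n ℚ * f) = cN n (N + 1) * fp ℚ (dX n ℚ ^ N) f := by
    intro f
    obtain ⟨c, hc⟩ := exists_omega n N
    have h1 : cN n (N + 1) = c * cN n N := by
      unfold cN
      rw [← hc, ← pow_succ']
    rw [h1, fp_comm, hc, fp_comm f]
    ring
  induction f using MvPolynomial.induction_on' with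
  | monomial α a =>
    have h3 : monomial α a = C a * map (algebraMap ℚ A) (monomial α 1) := by
      rw [map_monomial, map_one, C_mul_monomial, mul_one]
    rw [h3, mul_left_comm, fp_C_mul_right, fp_C_mul_right, ← map_dX (algebraMap ℚ A), ← map_pow,
      ← map_pow, ← map_mul, fp_map, fp_map, mul_left_comm, ← map_mul, hq, map_mul, mul_left_comm]
  | add p q hp hq => rw [mul_add, map_add, mul_add, hp, hq, map_add, mul_add]

/-- `fp_rsub` and `rsub_dX` -/
theorem fp_det_rsub (k : Matrix (Fin n) (Fin n) A) (N : ℕ) (f : MvPolynomial (Fin n × Fin n) A) :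
    fp A (dX n A ^ N) (rsub k f) = k.det ^ N * fp A (dX n A ^ N) f := by
  rw [fp_rsub, map_pow, rsub_dX, Matrix.det_transpose, mul_pow, ← map_pow, fp_C_mul_left]

end Pool.Agent.Lib.MP_666dc0_nt.IG
end
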