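import Mathlib
import Pool.Agent.Lib.MP_666dc0_nt.WL.C5a
import Pool.Agent.Lib.MP_666dc0_nt.Mg.G011

section

open NumberField IsDedekindDomain
open scoped NumberField

namespace Pool.Agent.Lib.MP_666dc0_nt.WL

/-- Data of an (abstract) lattice with a positive definite rational form with bounded
denominators whose dual has no functional of norm `< δ`. -/
structure IsLat {Λ : Type} [AddCommGroup Λ] (Q : Λ →+ Λ →+ ℚ) (k : ℕ) (δ : ℚ) : Prop where
  symm : ∀ x y, Q x y = Q y x
  pos : ∀ x, x ≠ 0 → 0 < Q x x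
  kpos : 0 < k
  int : ∀ x y, ∃ z : ℤ, (k : ℚ) * Q x y = z
  dual : ∀ (f : Λ →+ ℤ) (t : ℚ), f ≠ 0 → (∀ x, (f x : ℚ) ^ 2 ≤ t * Q x x) → δ ≤ t

/-- `b` is a shortest non-zero vector. -/
structure IsShortest {Λ : Type} [AddCommGroup Λ] (Q : Λ →+ Λ →+ ℚ) (b : Λ) : Prop where
  ne : b ≠ 0
  le : ∀ x, x ≠ 0 → Q b b ≤ Q x x

end Pool.Agent.Lib.MP_666dc0_nt.WL
end

section

open NumberField IsDedekindDomain
open scoped NumberField

namespace Pool.Agent.Lib.MP_666dc0_nt.WL

variable {Λ : Type} [AddCommGroup Λ] {Q : Λ →+ Λ →+ ℚ} {k : ℕ} {δ : ℚ}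

/-- Existence of a shortest vector.
Proof: the numbers `k * Q x x`, `x ≠ 0`, are positive integers; take the least one. -/
theorem exists_shortest (h : IsLat Q k δ) [Nontrivial Λ] : ∃ b, IsShortest Q b := by
  obtain ⟨x₀, hx₀⟩ := exists_ne (0 : Λ)
  have hk : (0 : ℚ) < k := by exact_mod_cast h.kpos
  have hz : ∀ x : Λ, ∃ m : ℕ, (k : ℚ) * Q x x = m := by
    intro x
    obtain ⟨z, hz⟩ := h.int x x
    have h1 : (0 : ℚ) ≤ z := by
      rw [← hz]
      by_cases hx : x = 0
      · rw [hx, map_zero, mul_zero]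
      · exact mul_nonneg hk.le (h.pos x hx).le
    have h2 : 0 ≤ z := by exact_mod_cast h1
    obtain ⟨m, rfl⟩ := Int.eq_ofNat_of_zero_le h2
    exact ⟨m, by rw [hz]; norm_cast⟩
  choose m hm using hz
  have hex : ∃ N : ℕ, ∃ x : Λ, x ≠ 0 ∧ m x = N := ⟨m x₀, x₀, hx₀, rfl⟩
  classical
  obtain ⟨b, hb, hbN⟩ := Nat.find_spec hex
  refine ⟨b, hb, fun x hx => ?_⟩
  have h3 : m b ≤ m x := by
    rw [hbN]
    exact Nat.find_min' hex ⟨x, hx, rfl⟩
  have h4 : (k : ℚ) * Q b b ≤ k * Q x x := by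
    rw [hm, hm]
    exact_mod_cast h3
  exact le_of_mul_le_mul_left h4 hk

/-- A shortest vector is primitive.
Proof: let `m • x = c • b`, `m ≠ 0`; write `c = m * e + r` with `2 |r| ≤ |m|` (e.g. `Int.bmod`, or
`e = round (c/m)`). Then `m • (x - e • b) = r • b`, so
`Q (x - e • b) (x - e • b) = (r/m)² Q b b ≤ Q b b / 4 < Q b b`, hence `x = e • b`. -/
theorem mem_zmultiples_of_smul (h : IsLat Q k δ) {b : Λ} (hb : IsShortest Q b) {m : ℤ} (hm : m ≠ 0)
    {x : Λ} (hx : m • x ∈ AddSubgroup.zmultiples b) : x ∈ AddSubgroup.zmultiples b := by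
  obtain ⟨c, hc⟩ := AddSubgroup.mem_zmultiples_iff.1 hx
  have hbb := h.pos b hb.ne
  have hm' : (m : ℚ) ≠ 0 := by exact_mod_cast hm
  by_contra hne
  have h1 : x - (round ((c : ℚ) / m)) • b ≠ 0 := by
    intro h0
    apply hne
    rw [sub_eq_zero.1 h0]
    exact AddSubgroup.zsmul_mem_zmultiples b _
  have h2 := hb.le _ h1
  set e : ℤ := round ((c : ℚ) / m) with he
  have hQs : ∀ (a : ℤ) (y z : Λ), Q (a • y) z = a * Q y z := by
    intro a y z
    rw [map_zsmul, AddMonoidHom.coe_smul, Pi.smul_apply, zsmul_eq_mul]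
  have hQs' : ∀ (a : ℤ) (y z : Λ), Q y (a • z) = a * Q y z := by
    intro a y z
    rw [map_zsmul, zsmul_eq_mul]
  have h3 : m • (x - e • b) = (c - m * e) • b := by
    rw [smul_sub, ← hc, sub_smul, mul_smul]
  have h4 : (m : ℚ) ^ 2 * Q (x - e • b) (x - e • b) = (c - m * e) ^ 2 * Q b b := by
    have h5 : Q (m • (x - e • b)) (m • (x - e • b)) = Q ((c - m * e) • b) ((c - m * e) • b) := by
      rw [h3]
    rw [hQs, hQs', hQs, hQs'] at h5
    push_cast at h5
    linear_combination h5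
  have h6 : |(c : ℚ) / m - e| ≤ 1 / 2 := by
    rw [he]
    exact abs_sub_round _
  have h7 : ((c : ℚ) / m - e) ^ 2 ≤ (1 / 2) ^ 2 := by
    rw [← sq_abs]
    exact pow_le_pow_left₀ (abs_nonneg _) h6 2
  have h8 : Q (x - e • b) (x - e • b) = ((c : ℚ) / m - e) ^ 2 * Q b b := by
    have h9 : ((c : ℚ) / m - e) ^ 2 * (m : ℚ) ^ 2 = (c - m * e) ^ 2 := by
      field_simp
    have h10 : (m : ℚ) ^ 2 ≠ 0 := pow_ne_zero 2 hm'
    apply mul_left_cancel₀ h10
    rw [h4, ← h9]
    ring
  rw [h8] at h2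
  nlinarith

/-- Every class modulo `b` has a representative with small `b`-component.
Proof: `x = y - e • b` with `e` the nearest integer to `Q y b / Q b b`. -/
theorem exists_reduced (h : IsLat Q k δ) {b : Λ} (hb : IsShortest Q b) (y : Λ) :
    ∃ x : Λ, x - y ∈ AddSubgroup.zmultiples b ∧ |Q x b| ≤ Q b b / 2 := by
  have hbb := h.pos b hb.ne
  refine ⟨y - (round (Q y b / Q b b)) • b, ?_, ?_⟩
  · rw [sub_sub_cancel_left, ← neg_smul]
    exact AddSubgroup.zsmul_mem_zmultiples b _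
  · have h1 : Q (y - (round (Q y b / Q b b)) • b) b =
        (Q y b / Q b b - (round (Q y b / Q b b) : ℤ)) * Q b b := by
      rw [map_sub, AddMonoidHom.sub_apply, map_zsmul, AddMonoidHom.coe_smul, Pi.smul_apply,
        zsmul_eq_mul]
      field_simp
    rw [h1, abs_mul, abs_of_pos hbb]
    have h2 : |Q y b / Q b b - (round (Q y b / Q b b) : ℤ)| ≤ 1 / 2 := abs_sub_round _
    nlinarith

end Pool.Agent.Lib.MP_666dc0_nt.WL
end

section

open NumberField IsDedekindDomain
open scoped NumberField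

namespace Pool.Agent.Lib.MP_666dc0_nt.WL

variable {Λ : Type} [AddCommGroup Λ] {Q : Λ →+ Λ →+ ℚ} {k : ℕ} {δ : ℚ}

private theorem A1b_form (Q : Λ →+ Λ →+ ℚ) (hs : ∀ x y, Q x y = Q y x) (b : Λ)
    (hb : Q b b ≠ 0) :
    ∃ Q' : (Λ ⧸ AddSubgroup.zmultiples b) →+ (Λ ⧸ AddSubgroup.zmultiples b) →+ ℚ,
      ∀ x y : Λ, Q' (QuotientAddGroup.mk x) (QuotientAddGroup.mk y) =
        Q x y - Q x b * Q y b / Q b b := by
  let Q₁ : Λ → Λ →+ ℚ := fun x => AddMonoidHom.mk' (fun y => Q x y - Q x b * Q y b / Q b b)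
    (by
      intro y y'
      simp only [map_add, AddMonoidHom.add_apply]
      ring)
  have hQ₁ : ∀ x y, Q₁ x y = Q x y - Q x b * Q y b / Q b b := fun x y => rfl
  have h1 : ∀ x, Q₁ x b = 0 := by
    intro x
    rw [hQ₁, mul_div_assoc, div_self hb, mul_one, sub_self]
  have h2 : ∀ x y, y ∈ AddSubgroup.zmultiples b → Q₁ x y = 0 := by
    intro x y hy
    obtain ⟨m, rfl⟩ := AddSubgroup.mem_zmultiples_iff.1 hy
    rw [map_zsmul, h1, smul_zero]
  have hadd : ∀ x x' y, Q₁ (x + x') y = Q₁ x y + Q₁ x' y := by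
    intro x x' y
    rw [hQ₁, hQ₁, hQ₁]
    simp only [map_add, AddMonoidHom.add_apply]
    ring
  have hsymm : ∀ x y, Q₁ x y = Q₁ y x := by
    intro x y
    rw [hQ₁, hQ₁, hs x y]
    ring
  let Q₂ : Λ →+ (Λ ⧸ AddSubgroup.zmultiples b) →+ ℚ :=
    AddMonoidHom.mk' (fun x => QuotientAddGroup.lift _ (Q₁ x) (h2 x))
      (by
        intro x x'
        apply AddMonoidHom.ext
        intro Y
        induction Y using QuotientAddGroup.induction_on with
        | H y => exact hadd x x' y)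
  have h3 : ∀ x, x ∈ AddSubgroup.zmultiples b → Q₂ x = 0 := by
    intro x hx
    apply AddMonoidHom.ext
    intro Y
    induction Y using QuotientAddGroup.induction_on with
    | H y =>
      change Q₁ x y = 0
      rw [hsymm]
      exact h2 y x hx
  exact ⟨QuotientAddGroup.lift _ Q₂ h3, fun x y => rfl⟩

/-- The projected form on `Λ / ℤ b`.
Proof: `Q₁ x y = Q x y - Q x b * Q y b / Q b b` is bi-additive on `Λ` and vanishes if `x` or `y` is a
multiple of `b` (use `Q b b ≠ 0`, symmetry); lift it (`QuotientAddGroup.lift` in both variables).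
Symmetry: clear. Integrality: with `k' = k * (k * Q b b)` (a positive integer, `k * Q b b` is a
positive integer by `h.int`, `h.pos`): `k' * Q' x y = (k Q b b) (k Q x y) - (k Q x b) (k Q y b)`.
Positivity: if `x ∉ ℤ b` put `z = Q b b • x - Q x b • b` with integral coefficients after
multiplying by `k`: `z = (k Q b b) • x - (k Q x b) • b ∈ Λ`; it is not `0` by
`mem_zmultiples_of_smul`, and `Q z z = k² Q b b (Q b b Q x x - (Q x b)²) = (k Q b b)² Q' x x > 0`.
Dual: a non-zero functional `f` on the quotient gives the non-zero functional `f ∘ mk` on `Λ`, and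
`Q' x x ≤ Q x x`. (`t ≥ 0` may be assumed: if `t < 0` then `f x ^ 2 ≤ t Q' x x ≤ 0` for all `x`
contradicts `f ≠ 0`.) -/
theorem exists_quotient_form (h : IsLat Q k δ) {b : Λ} (hb : IsShortest Q b) :
    ∃ (Q' : (Λ ⧸ AddSubgroup.zmultiples b) →+ (Λ ⧸ AddSubgroup.zmultiples b) →+ ℚ) (k' : ℕ),
      IsLat Q' k' δ ∧ ∀ x y : Λ, Q' (QuotientAddGroup.mk x) (QuotientAddGroup.mk y) =
        Q x y - Q x b * Q y b / Q b b := by
  have hbb : 0 < Q b b := h.pos b hb.ne
  have hk : (0 : ℚ) < k := by exact_mod_cast h.kpos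
  obtain ⟨Q', hQ'⟩ := A1b_form Q h.symm b hbb.ne'
  obtain ⟨zb, hzb⟩ := h.int b b
  have hzb0 : 0 < zb := by
    have : (0 : ℚ) < zb := by rw [← hzb]; positivity
    exact_mod_cast this
  have hk' : ((k * zb.toNat : ℕ) : ℚ) = k * (k * Q b b) := by
    have h1 : ((zb.toNat : ℕ) : ℚ) = (zb : ℚ) := by
      have h2 : ((zb.toNat : ℕ) : ℤ) = zb := Int.toNat_of_nonneg hzb0.le
      exact_mod_cast congrArg (fun z : ℤ => (z : ℚ)) h2
    rw [Nat.cast_mul, h1, ← hzb]
  have hpos : ∀ X, X ≠ 0 → 0 < Q' X X := by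
    intro X hX
    induction X using QuotientAddGroup.induction_on with
    | H x =>
      have hx : x ∉ AddSubgroup.zmultiples b := fun hx =>
        hX ((QuotientAddGroup.eq_zero_iff x).2 hx)
      obtain ⟨zx, hzx⟩ := h.int x b
      have hz : zb • x - zx • b ≠ 0 := by
        intro h0
        refine hx (mem_zmultiples_of_smul h hb hzb0.ne' ?_)
        rw [sub_eq_zero.1 h0]
        exact AddSubgroup.mem_zmultiples_iff.2 ⟨zx, rfl⟩
      have h1 := h.pos _ hz
      have h2 : Q (zb • x - zx • b) (zb • x - zx • b) =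
          ((k : ℚ) * Q b b) ^ 2 * (Q x x - Q x b * Q x b / Q b b) := by
        simp only [map_sub, map_zsmul, AddMonoidHom.sub_apply, AddMonoidHom.smul_apply,
          zsmul_eq_mul, ← hzb, ← hzx]
        rw [h.symm b x]
        field_simp
        ring
      rw [hQ']
      rw [h2] at h1
      exact pos_of_mul_pos_right h1 (by positivity)
  refine ⟨Q', k * zb.toNat, ⟨?_, hpos, ?_, ?_, ?_⟩, hQ'⟩
  · intro X Y
    induction X using QuotientAddGroup.induction_on with
    | H x =>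
      induction Y using QuotientAddGroup.induction_on with
      | H y =>
        rw [hQ', hQ', h.symm x y]
        ring
  · exact Nat.mul_pos h.kpos (by omega)
  · intro X Y
    induction X using QuotientAddGroup.induction_on with
    | H x =>
      induction Y using QuotientAddGroup.induction_on with
      | H y =>
        obtain ⟨z1, h1⟩ := h.int x y
        obtain ⟨z2, h2⟩ := h.int x b
        obtain ⟨z3, h3⟩ := h.int y b
        refine ⟨zb * z1 - z2 * z3, ?_⟩
        push_cast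
        rw [← hzb, ← h1, ← h2, ← h3, ← Nat.cast_mul, hk', hQ']
        field_simp
  · intro f t hf ht
    have hnn : ∀ X, 0 ≤ Q' X X := by
      intro X
      by_cases hX : X = 0
      · rw [hX, map_zero]
      · exact (hpos X hX).le
    have ht0 : 0 ≤ t := by
      by_contra hneg
      apply hf
      apply AddMonoidHom.ext
      intro X
      have h1 := ht X
      have h2 : t * Q' X X ≤ 0 := mul_nonpos_of_nonpos_of_nonneg (not_le.1 hneg).le (hnn X)
      have h3 : ((f X : ℤ) : ℚ) ^ 2 = 0 := le_antisymm (h1.trans h2) (sq_nonneg _)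
      have h4 : ((f X : ℤ) : ℚ) = 0 := pow_eq_zero_iff (two_ne_zero) |>.1 h3
      exact_mod_cast h4
    refine h.dual (f.comp (QuotientAddGroup.mk' (AddSubgroup.zmultiples b))) t ?_ ?_
    · intro h0
      apply hf
      apply AddMonoidHom.ext
      intro X
      induction X using QuotientAddGroup.induction_on with
      | H x => exact DFunLike.congr_fun h0 x
    · intro x
      refine (ht (QuotientAddGroup.mk x)).trans (mul_le_mul_of_nonneg_left ?_ ht0)
      rw [hQ']
      have : 0 ≤ Q x b * Q x b / Q b b := div_nonneg (mul_self_nonneg _) hbb.le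
      linarith

end Pool.Agent.Lib.MP_666dc0_nt.WL
end

section

open NumberField IsDedekindDomain
open scoped NumberField

namespace Pool.Agent.Lib.MP_666dc0_nt.WL

/-!
# WL, F2: the coordinate at `ℓ` for a free level
-/

variable {F : Type} [Field F] [NumberField F] {n : ℕ} {D : Datum F n}
  {ℓ : ℕ} [Fact ℓ.Prime] {U V K : Subgroup D.Ad}

/-- `U ∩ K = 1`, more precisely the decomposition `u k` is unique. Proof: if `u k = u' k'` then
`u'⁻¹ u = k' k⁻¹` is trivial at all places (`hU` above `ℓ`, `hK` elsewhere), so it is `1`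
(`eq_one_of_trivialAt`). -/
theorem mul_unique (hU : IsTame ℓ U)
    (hK : ∀ g ∈ K, ∀ v : HeightOneSpectrum (𝓞 F), (ℓ : 𝓞 F) ∉ v.asIdeal → TrivialAt v g)
    {u u' k k' : D.Ad} (hu : u ∈ U) (hu' : u' ∈ U) (hk : k ∈ K) (hk' : k' ∈ K)
    (h : u * k = u' * k') : u = u' ∧ k = k' := by
  have h1 : u'⁻¹ * u = k' * k⁻¹ := by
    rw [inv_mul_eq_iff_eq_mul, ← mul_assoc, eq_mul_inv_iff_mul_eq, h]
  have h2 : u'⁻¹ * u = 1 := by
    apply eq_one_of_trivialAt
    intro v
    by_cases hv : (ℓ : 𝓞 F) ∈ v.asIdeal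
    · exact hU _ (U.mul_mem (U.inv_mem hu') hu) v hv
    · rw [h1]
      exact hK _ (K.mul_mem hk' (K.inv_mem hk)) v hv
  have h3 : u = u' := (inv_mul_eq_one.1 h2).symm
  refine ⟨h3, ?_⟩
  rw [h3] at h
  exact mul_left_cancel h

private theorem F2_comm (hU : IsTame ℓ U)
    (hK : ∀ g ∈ K, ∀ v : HeightOneSpectrum (𝓞 F), (ℓ : 𝓞 F) ∉ v.asIdeal → TrivialAt v g)
    {u k : D.Ad} (hu : u ∈ U) (hk : k ∈ K) : u * k = k * u := by
  apply mul_comm_of_disjoint
  intro v
  by_cases hv : (ℓ : 𝓞 F) ∈ v.asIdeal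
  · exact Or.inl (hU u hu v hv)
  · exact Or.inr (hK k hk v hv)

/-- The coordinate function.
Proof: let `r g` be the chosen representative of the double coset `G(F) g (U ⊔ J)` (`Quotient.out`
for the equivalence relation `g' = γ g k` for some `γ ∈ G(F)`, `k ∈ U ⊔ J`). Write
`g = γ * r g * u * k` (`mem_sup_iff`) and put `κ g = k`. This is well defined: if
`γ r u k = γ' r u' k'` then `r⁻¹ (γ'⁻¹ γ) r = u' k' k⁻¹ u⁻¹ ∈ U ⊔ J`, so `γ'⁻¹ γ = 1` by `hfree`, and
`k = k'` by `mul_unique`. The three rules follow since `r (γ g) = r (g u) = r (g k) = r g` and `U`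
and `J` commute (`mul_comm_of_disjoint`). -/
theorem exists_kappa (hU : IsTame ℓ U) {J : Subgroup D.Ad}
    (hJ : ∀ g ∈ J, ∀ v : HeightOneSpectrum (𝓞 F), (ℓ : 𝓞 F) ∉ v.asIdeal → TrivialAt v g)
    (hfree : ∀ (g : D.Ad) (γ : D.Rat), g⁻¹ * D.toAd γ * g ∈ U ⊔ J → γ = 1) :
    ∃ κ : D.Ad → J, (∀ (γ : D.Rat) g, κ (D.toAd γ * g) = κ g) ∧
      (∀ g, ∀ u ∈ U, κ (g * u) = κ g) ∧ ∀ g (k : J), κ (g * k) = κ g * k := by
  classical
  let st : Setoid D.Ad :=
    { r := fun a b => ∃ γ : D.Rat, ∃ k ∈ U ⊔ J, b = D.toAd γ * a * k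
      iseqv :=
        { refl := fun a => ⟨1, 1, one_mem _, by rw [map_one, one_mul, mul_one]⟩
          symm := by
            rintro a b ⟨γ, k, hk, rfl⟩
            refine ⟨γ⁻¹, k⁻¹, inv_mem hk, ?_⟩
            rw [map_inv]
            group
          trans := by
            rintro a b c ⟨γ, k, hk, rfl⟩ ⟨δ, m, hm, rfl⟩
            refine ⟨δ * γ, k * m, mul_mem hk hm, ?_⟩
            rw [map_mul]
            group } }
  let r : D.Ad → D.Ad := fun g => (Quotient.mk st g).out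
  have hr : ∀ g, ∃ γ : D.Rat, ∃ k ∈ U ⊔ J, g = D.toAd γ * r g * k := by
    intro g
    have h : st.r (r g) g := Quotient.mk_out (s := st) g
    exact h
  have hr2 : ∀ a b, (∃ γ : D.Rat, ∃ k ∈ U ⊔ J, b = D.toAd γ * a * k) → r a = r b := by
    intro a b hab
    have h : Quotient.mk st a = Quotient.mk st b := Quotient.sound hab
    exact congrArg Quotient.out h
  have hex : ∀ g, ∃ k : J, ∃ γ : D.Rat, ∃ u ∈ U, g = D.toAd γ * r g * u * k := by
    intro g
    obtain ⟨γ, k0, hk0, h⟩ := hr g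
    obtain ⟨u, hu, k, hk, rfl⟩ := (mem_sup_iff hU hJ).1 hk0
    exact ⟨⟨k, hk⟩, γ, u, hu, by rw [mul_assoc (D.toAd γ * r g)]; exact h⟩
  have huniq : ∀ (g : D.Ad) (γ γ' : D.Rat) (u u' : D.Ad) (k k' : J), u ∈ U → u' ∈ U →
      D.toAd γ * g * u * k = D.toAd γ' * g * u' * k' → k = k' := by
    intro g γ γ' u u' k k' hu hu' h
    have h1 : g⁻¹ * D.toAd (γ'⁻¹ * γ) * g = u' * k' * (k : D.Ad)⁻¹ * u⁻¹ := by
      rw [map_mul, map_inv]
      have h2 : D.toAd γ * g = D.toAd γ' * g * u' * k' * (k : D.Ad)⁻¹ * u⁻¹ := by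
        rw [← h]
        group
      calc g⁻¹ * ((D.toAd γ')⁻¹ * D.toAd γ) * g = g⁻¹ * (D.toAd γ')⁻¹ * (D.toAd γ * g) := by group
        _ = u' * k' * (k : D.Ad)⁻¹ * u⁻¹ := by
          rw [h2]
          group
    have hmem : g⁻¹ * D.toAd (γ'⁻¹ * γ) * g ∈ U ⊔ J := by
      rw [h1]
      exact mul_mem (mul_mem (mul_mem (Subgroup.mem_sup_left hu') (Subgroup.mem_sup_right k'.2))
        (inv_mem (Subgroup.mem_sup_right k.2))) (inv_mem (Subgroup.mem_sup_left hu))
    have h3 : γ = γ' := (inv_mul_eq_one.1 (hfree g _ hmem)).symm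
    subst h3
    have h4 : u * k = u' * k' := by
      rw [mul_assoc, mul_assoc (D.toAd γ * g)] at h
      exact mul_left_cancel h
    exact Subtype.ext (mul_unique hU hJ hu hu' k.2 k'.2 h4).2
  choose κ γ₀ u₀ hu₀ hκ using hex
  refine ⟨κ, ?_, ?_, ?_⟩
  · intro γ g
    have hrr : r (D.toAd γ * g) = r g :=
      (hr2 g _ ⟨γ, 1, one_mem _, by rw [mul_one]⟩).symm
    have h1 := hκ (D.toAd γ * g)
    rw [hrr] at h1
    have h2 := hκ g
    refine huniq (r g) (γ₀ (D.toAd γ * g)) (γ * γ₀ g) (u₀ (D.toAd γ * g)) (u₀ g) _ _ (hu₀ _) (hu₀ _) ?_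
    rw [← h1, map_mul]
    conv_lhs => rw [h2]
    simp only [mul_assoc]
  · intro g u hu
    have hrr : r (g * u) = r g :=
      (hr2 g _ ⟨1, u, Subgroup.mem_sup_left hu, by rw [map_one, one_mul]⟩).symm
    have h1 := hκ (g * u)
    rw [hrr] at h1
    have h2 := hκ g
    refine huniq (r g) (γ₀ (g * u)) (γ₀ g) (u₀ (g * u)) (u₀ g * u) _ _ (hu₀ _)
      (mul_mem (hu₀ _) hu) ?_
    rw [← h1]
    conv_lhs => rw [h2]
    rw [mul_assoc _ _ u, ← F2_comm hU hJ hu (κ g).2]
    simp only [mul_assoc]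
  · intro g k
    have hrr : r (g * k) = r g :=
      (hr2 g _ ⟨1, k, Subgroup.mem_sup_right k.2, by rw [map_one, one_mul]⟩).symm
    have h1 := hκ (g * k)
    rw [hrr] at h1
    have h2 := hκ g
    refine huniq (r g) (γ₀ (g * k)) (γ₀ g) (u₀ (g * k)) (u₀ g) _ _ (hu₀ _) (hu₀ _) ?_
    rw [← h1, Subgroup.coe_mul]
    conv_lhs => rw [h2]
    simp only [mul_assoc]

end Pool.Agent.Lib.MP_666dc0_nt.WL
end

section

/-! # Part A, file 4: the functional `Λ` on `A[X][T]` -/

set_option autoImplicit false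

open MvPolynomial

namespace Pool.Agent.Lib.MP_666dc0_nt.IG

variable {A B : Type} [CommRing A] [CommRing B] [Algebra ℚ A] {n : ℕ}

/-- The functional `f T^d ↦ ⟨det^d, f⟩ / c_d`. -/
noncomputable def Lam (n : ℕ) (A : Type) [CommRing A] [Algebra ℚ A] :
    Polynomial (MvPolynomial (Fin n × Fin n) A) →ₗ[A] A :=
  Polynomial.lsum fun d => algebraMap ℚ A (cN n d)⁻¹ • fp A (dX n A ^ d)

theorem Lam_monomial (d : ℕ) (f : MvPolynomial (Fin n × Fin n) A) :
    Lam n A (Polynomial.monomial d f) = algebraMap ℚ A (cN n d)⁻¹ * fp A (dX n A ^ d) f := by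
  unfold Lam
  rw [Polynomial.lsum_apply, Polynomial.sum_monomial_index]
  · rfl
  · exact map_zero _

theorem Lam_one : Lam n A 1 = 1 := by
  have h : (1 : Polynomial (MvPolynomial (Fin n × Fin n) A)) = Polynomial.monomial 0 (C 1) := by
    rw [C_1, Polynomial.monomial_zero_one]
  have h2 : ∀ (R : Type) [CommRing R], fp R (1 : MvPolynomial (Fin n × Fin n) R) (C 1) = 1 := by
    intro R _
    rw [← C_1, fp_C]
    simp
  have h3 : cN n 0 = 1 := by
    unfold cN
    rw [pow_zero]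
    have := h2 ℚ
    rwa [C_1] at this
  rw [h, Lam_monomial, pow_zero, h2, h3]
  simp

/-- By linearity `F = f T^d`; `fp_det_step`. -/
theorem Lam_det (F : Polynomial (MvPolynomial (Fin n × Fin n) A)) :
    Lam n A ((Polynomial.C (dX n A) * Polynomial.X - 1) * F) = 0 := by
  induction F using Polynomial.induction_on' with
  | add p q hp hq => rw [mul_add, map_add, hp, hq, add_zero]
  | monomial d f =>
    have h1 : (Polynomial.C (dX n A) * Polynomial.X - 1) * Polynomial.monomial d f =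
        Polynomial.monomial (d + 1) (dX n A * f) - Polynomial.monomial d f := by
      rw [sub_mul, one_mul, mul_assoc, Polynomial.X_mul_monomial, Polynomial.C_mul_monomial]
    have h2 := fp_det_step (A := A) d f
    have h3 : algebraMap ℚ A (cN n d)⁻¹ * algebraMap ℚ A (cN n d) = 1 := by
      rw [← map_mul, inv_mul_cancel₀ (cN_pos n d).ne', map_one]
    have h4 : algebraMap ℚ A (cN n (d + 1))⁻¹ * algebraMap ℚ A (cN n (d + 1)) = 1 := by
      rw [← map_mul, inv_mul_cancel₀ (cN_pos n (d + 1)).ne', map_one]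
    rw [h1, map_sub, Lam_monomial, Lam_monomial, sub_eq_zero]
    calc algebraMap ℚ A (cN n (d + 1))⁻¹ * fp A (dX n A ^ (d + 1)) (dX n A * f)
        = algebraMap ℚ A (cN n (d + 1))⁻¹ * (algebraMap ℚ A (cN n d)⁻¹ *
          (algebraMap ℚ A (cN n d) * fp A (dX n A ^ (d + 1)) (dX n A * f))) := by
          rw [← mul_assoc (algebraMap ℚ A (cN n d)⁻¹), h3, one_mul]
      _ = algebraMap ℚ A (cN n d)⁻¹ * fp A (dX n A ^ d) f := by
          rw [h2, mul_left_comm, ← mul_assoc (algebraMap ℚ A (cN n (d + 1))⁻¹), h4, one_mul]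

/-- The ring endomorphism `X ↦ X k`, `T ↦ u T` of `A[X][T]`. -/
noncomputable def RK (k : Matrix (Fin n) (Fin n) A) (u : A) :
    Polynomial (MvPolynomial (Fin n × Fin n) A) →+* Polynomial (MvPolynomial (Fin n × Fin n) A) :=
  Polynomial.eval₂RingHom (Polynomial.C.comp (rsub k).toRingHom)
    (Polynomial.C (C u) * Polynomial.X)

/-- By additivity `F = f T^d`; `fp_det_rsub`. -/
theorem Lam_RK (k : Matrix (Fin n) (Fin n) A) (u : A) (hu : u * k.det = 1)
    (F : Polynomial (MvPolynomial (Fin n × Fin n) A)) : Lam n A (RK k u F) = Lam n A F := by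
  induction F using Polynomial.induction_on' with
  | add p q hp hq => rw [map_add, map_add, map_add, hp, hq]
  | monomial d f =>
    have h1 : RK k u (Polynomial.monomial d f) =
        Polynomial.monomial d (C (u ^ d) * rsub k f) := by
      unfold RK
      rw [Polynomial.coe_eval₂RingHom, Polynomial.eval₂_monomial, mul_pow, ← Polynomial.C_pow,
        ← C_pow, ← mul_assoc]
      change Polynomial.C (rsub k f) * Polynomial.C (C (u ^ d)) * Polynomial.X ^ d = _
      rw [← Polynomial.C_mul, Polynomial.C_mul_X_pow_eq_monomial, mul_comm]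
    rw [h1, Lam_monomial, Lam_monomial, fp_C_mul_right, fp_det_rsub, ← mul_assoc (u ^ d), ← mul_pow,
      hu, one_pow, one_mul]

/-- Base change. -/
theorem Lam_map (F : Polynomial (MvPolynomial (Fin n × Fin n) ℚ)) :
    Lam n A (F.map (MvPolynomial.map (algebraMap ℚ A))) = algebraMap ℚ A (Lam n ℚ F) := by
  induction F using Polynomial.induction_on' with
  | add p q hp hq => rw [Polynomial.map_add, map_add, map_add, map_add, hp, hq]
  | monomial d f =>
    rw [Polynomial.map_monomial, Lam_monomial, Lam_monomial, ← map_dX (algebraMap ℚ A), ← map_pow,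
      fp_map, map_mul]
    simp

end Pool.Agent.Lib.MP_666dc0_nt.IG
end
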