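import Pool.Agent.Lib.MP_666dc0_nt.Mg.G002
import Pool.Agent.Lib.MP_666dc0_nt.WL.A2d
import Pool.Agent.Lib.MP_666dc0_nt.Mg.G003

section

open NumberField IsDedekindDomain
open scoped NumberField

namespace Pool.Agent.Lib.MP_666dc0_nt.WL

variable {F : Type} [Field F] [NumberField F] {n : ℕ} {D : Datum F n}

private theorem A2f_qf_add_left {R : Type} [CommRing R] (φ : F →+* R) (x x' y : Fin n → R) :
    qf D φ (x + x') y = qf D φ x y + qf D φ x' y := add_dotProduct _ _ _

private theorem A2f_qf_add_right {R : Type} [CommRing R] (φ : F →+* R) (x y y' : Fin n → R) :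
    qf D φ x (y + y') = qf D φ x y + qf D φ x y' := by
  unfold qf
  rw [Matrix.mulVec_add, dotProduct_add]

private theorem A2f_qf_smul_left {R : Type} [CommRing R] (φ : F →+* R) (c : R)
    (x y : Fin n → R) : qf D φ (c • x) y = c * qf D φ x y := by
  unfold qf
  rw [smul_dotProduct, smul_eq_mul]

private theorem A2f_qf_smul_right {R : Type} [CommRing R] (φ : F →+* R) (c : R)
    (x y : Fin n → R) : qf D φ x (c • y) = c * qf D φ x y := by
  unfold qf
  rw [Matrix.mulVec_smul, dotProduct_smul, smul_eq_mul]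

private theorem A2f_rat_smul (c : ℚ) (x : Fin n → F) : c • x = (algebraMap ℚ F c) • x := by
  funext k
  simp only [Pi.smul_apply, smul_eq_mul]
  exact Algebra.smul_def c (x k)

private theorem A2f_isUnit {V : Type} [AddCommGroup V] [Module ℚ V]
    (s : nonZeroDivisors ℤ) : IsUnit (algebraMap ℤ (Module.End ℤ V) s) := by
  rw [Module.End.isUnit_iff]
  have hs : ((s : ℤ) : ℚ) ≠ 0 := by
    exact_mod_cast nonZeroDivisors.coe_ne_zero s
  have hsm : ∀ v : V, (algebraMap ℤ (Module.End ℤ V) s) v = ((s : ℤ) : ℚ) • v := by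
    intro v
    rw [Module.algebraMap_end_apply]
    exact (Int.cast_smul_eq_zsmul ℚ (s : ℤ) v).symm
  constructor
  · intro v w hvw
    rw [hsm, hsm] at hvw
    exact smul_right_injective V hs hvw
  · intro v
    refine ⟨((s : ℤ) : ℚ)⁻¹ • v, ?_⟩
    rw [hsm, smul_smul, mul_inv_cancel₀ hs, one_smul]

private theorem A2f_fam {ι : Type} [Fintype ι] (a : ι → FiniteAdeleRing (𝓞 F) F) :
    ∃ m : ℕ, 0 < m ∧ ∀ i, (m : FiniteAdeleRing (𝓞 F) F) * a i ∈ Ohat F := by
  classical
  choose m hm hm' using fun i => exists_mul_mem_Ohat F (a i)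
  refine ⟨∏ i, m i, Finset.prod_pos fun i _ => hm i, fun i => ?_⟩
  rw [← Finset.mul_prod_erase Finset.univ m (Finset.mem_univ i), Nat.cast_mul,
    mul_comm (m i : FiniteAdeleRing (𝓞 F) F), mul_assoc]
  exact mul_mem (natCast_mem _ _) (hm' i)

private theorem A2f_famF {ι : Type} [Fintype ι] (a : ι → F) :
    ∃ m : ℕ, 0 < m ∧ ∀ i, IsIntegral ℤ ((m : F) * a i) := by
  obtain ⟨m, hm, h⟩ := A2f_fam (fun i => algebraMap F (FiniteAdeleRing (𝓞 F) F) (a i))
  refine ⟨m, hm, fun i => ?_⟩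
  rw [← algebraMap_mem_Ohat, map_mul, map_natCast]
  exact h i

private theorem A2f_extend (g : D.Ad) (f : lat g →+ ℤ) :
    ∃ h : (Fin n → F) →ₗ[ℚ] ℚ, ∀ x : lat g, h x = ((f x : ℤ) : ℚ) := by
  obtain ⟨m, hm, -, hm2⟩ := exists_den_lat g
  haveI : IsLocalizedModule (nonZeroDivisors ℤ) (lat g).subtype.toIntLinearMap := by
    refine ⟨fun s => A2f_isUnit s, fun y => ?_, fun {x₁ x₂} h => ⟨1, ?_⟩⟩
    · obtain ⟨N, hN, hN'⟩ := A2f_famF (F := F) y
      have h1 := hm2 (fun k => (N : F) * y k) hN'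
      refine ⟨(⟨_, h1⟩, ⟨((m * N : ℕ) : ℤ), ?_⟩), ?_⟩
      · rw [mem_nonZeroDivisors_iff_ne_zero]
        exact_mod_cast (Nat.mul_pos hm hN).ne'
      · funext k
        show (((m * N : ℕ) : ℤ) • y) k = (m : F) * ((N : F) * y k)
        rw [Pi.smul_apply, zsmul_eq_mul]
        push_cast
        ring
    · rw [one_smul, one_smul]
      exact Subtype.ext h
  let f' : lat g →ₗ[ℤ] ℚ := ((Int.castAddHom ℚ).comp f).toIntLinearMap
  let h := IsLocalizedModule.lift (nonZeroDivisors ℤ) (lat g).subtype.toIntLinearMap f'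
    (fun s => A2f_isUnit s)
  refine ⟨h.toAddMonoidHom.toRatLinearMap, fun x => ?_⟩
  exact IsLocalizedModule.lift_apply (nonZeroDivisors ℤ) (lat g).subtype.toIntLinearMap f'
    (fun s => A2f_isUnit s) x

/-- Functionals on the lattice are given by vectors.
Proof: `Φ : F^n → (F^n →ₗ[ℚ] ℚ)`, `Φ z x = trace (qf z x)`, is `ℚ`-linear and injective
(`Φ z z > 0` for `z ≠ 0` by `trace_pos`, `qf_pos`), hence bijective (finite dimension, dual of the
same dimension). Given `f`, let `m > 0` be as in `exists_den_lat`; define `h : F^n →ₗ[ℚ] ℚ` as the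
`ℚ`-linear extension of `f`: for `x ∈ F^n` there is an integer `N > 0` with `N x ∈ lat g` (choose
`N₀ > 0` with `N₀ x k` integral for all `k`, `N = N₀ m`), put `h x = f (N x) / N`, independent of the
choice of `N` by additivity; it is additive, hence `ℚ`-linear (`AddMonoidHom.toRatLinearMap`).
(Alternatively use a `ℤ`-basis of `lat g` and show that it is a `ℚ`-basis of `F^n`, or
`LinearMap.extend`.) Then `z = Φ⁻¹ h`. -/
theorem exists_functional_vec [IsTotallyReal F] (hD : IsTotPosDef D.q) (g : D.Ad)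
    (f : lat g →+ ℤ) : ∃ z : Fin n → F, ∀ x : lat g,
      ((f x : ℤ) : ℚ) = Algebra.trace ℚ F (qf D (RingHom.id F) z x) := by
  classical
  -- the bilinear form
  let B : (Fin n → F) →ₗ[ℚ] (Fin n → F) →ₗ[ℚ] ℚ :=
    LinearMap.mk₂ ℚ (fun z x => Algebra.trace ℚ F (qf D (RingHom.id F) z x))
      (fun x x' y => by rw [A2f_qf_add_left, map_add])
      (fun c x y => by
        rw [A2f_rat_smul, A2f_qf_smul_left, ← Algebra.smul_def, map_smul])
      (fun x y y' => by rw [A2f_qf_add_right, map_add])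
      (fun c x y => by
        rw [A2f_rat_smul, A2f_qf_smul_right, ← Algebra.smul_def, map_smul])
  have hB : ∀ z x, B z x = Algebra.trace ℚ F (qf D (RingHom.id F) z x) := fun z x => rfl
  have hinj : Function.Injective B := by
    rw [injective_iff_map_eq_zero]
    intro z hz
    by_contra h0
    have h1 := trace_pos (qf D (RingHom.id F) z z) (fun τ => qf_pos hD z h0 τ)
    rw [← hB, hz] at h1
    simp at h1
  have hsurj : Function.Surjective B := by
    refine (LinearMap.injective_iff_surjective_of_finrank_eq_finrank ?_).1 hinj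
    exact (Subspace.dual_finrank_eq (K := ℚ) (V := Fin n → F)).symm
  obtain ⟨h, hh⟩ := A2f_extend g f
  obtain ⟨z, hz⟩ := hsurj h
  refine ⟨z, fun x => ?_⟩
  rw [← hB, hz, hh]

/-- The inverse different has bounded denominators.
Proof: let `e` be an integral basis of `F` (`NumberField.integralBasis`), and `e*` its dual basis for
the trace form; if all `trace (α e_i)` are integers then `α = ∑ trace (α e_i) e*_i`, so any common
denominator of the `e*_i` works. -/
theorem exists_den_different : ∃ c : ℕ, 0 < c ∧ ∀ α : F,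
    (∀ β : F, IsIntegral ℤ β → ∃ m : ℤ, Algebra.trace ℚ F (α * β) = m) →
      IsIntegral ℤ ((c : F) * α) := by
  have hfr := (FractionalIdeal.dual ℤ ℚ (1 : FractionalIdeal (nonZeroDivisors (𝓞 F)) F)).isFractional
  obtain ⟨a, ha, ha'⟩ := hfr
  have ha0 : a ≠ 0 := nonZeroDivisors.ne_zero ha
  have hspan : Ideal.span {a} ≠ ⊥ := by
    rw [Ne, Ideal.span_singleton_eq_bot]
    exact ha0
  refine ⟨Ideal.absNorm (Ideal.span {a}), ?_, fun α hα => ?_⟩
  · exact Nat.pos_of_ne_zero (Ideal.absNorm_ne_zero_of_nonZeroDivisors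
      ⟨Ideal.span {a}, mem_nonZeroDivisors_iff_ne_zero.2 hspan⟩)
  have h1 := Ideal.absNorm_mem (Ideal.span {a})
  rw [Ideal.mem_span_singleton] at h1
  obtain ⟨b, hb⟩ := h1
  have h2 : α ∈ FractionalIdeal.dual ℤ ℚ (1 : FractionalIdeal (nonZeroDivisors (𝓞 F)) F) := by
    rw [FractionalIdeal.mem_dual (by exact one_ne_zero)]
    intro y hy
    rw [FractionalIdeal.mem_one_iff] at hy
    obtain ⟨y', rfl⟩ := hy
    obtain ⟨m, hm⟩ := hα (algebraMap (𝓞 F) F y') y'.2
    refine ⟨m, ?_⟩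
    rw [Algebra.traceForm_apply, hm]
    rfl
  obtain ⟨r, hr⟩ := ha' α h2
  have h3 : ((Ideal.absNorm (Ideal.span {a}) : ℕ) : F) * α = algebraMap (𝓞 F) F (b * r) := by
    have h4 : ((Ideal.absNorm (Ideal.span {a}) : ℕ) : F) = algebraMap (𝓞 F) F (a * b) := by
      rw [← hb, map_natCast]
    rw [h4, map_mul, map_mul, hr, Algebra.smul_def]
    ring
  rw [h3]
  exact (b * r).2

private theorem A2f_emb [IsTotallyReal F] : Nonempty (F →+* ℝ) :=
  ⟨(IsTotallyReal.complexEmbedding_isReal (Classical.arbitrary (F →+* ℂ))).embedding⟩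

private theorem A2f_qf_sum_right {R : Type} [CommRing R] (φ : F →+* R) (x : Fin n → R)
    {ι : Type} (s : Finset ι) (y : ι → Fin n → R) :
    qf D φ x (∑ l ∈ s, y l) = ∑ l ∈ s, qf D φ x (y l) := by
  unfold qf
  rw [Matrix.mulVec_sum, dotProduct_sum]

/-- The dual lattice is contained in a fixed multiple of the lattice.
Proof: let `c₀` be as in `exists_den_different` and `c₁ > 0` with all entries of `c₁ q⁻¹` integral
(`q = D.q` is invertible: `det (q.map τ) > 0` for a real embedding `τ`, or `q` has trivial kernel by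
`qf_pos`). Put `c = c₀ c₁`. Let `z` be as in the hypothesis. For `x ∈ lat g` and `β` integral,
`trace (β qf z x) = trace (qf z (β x))` is an integer (`smul_mem_lat`), so `c₀ qf z x` is integral.
CLAIM: `c₀ (zᵀ q (mat g) e_j) ∈ Ô` for all `j` (computation in the finite adeles). Choose `M > 0`
with all entries of `M (zᵀ q mat g)` in `Ô` (`exists_mul_mem_Ohat`). By `exists_lat_approx` (with
`y = e_j`) there is `x ∈ lat g` with `av x = mat g (e_j + M u)`, so
`c₀ qf z x = c₀ zᵀ q mat g e_j + c₀ M zᵀ q mat g u` where the left side (`algebraMap_mem_Ohat`) and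
the last term are in `Ô`. This proves the claim. Now with `x' = mat g⁻¹ *ᵥ av z`: `(mat g)ᵀ q = q mat g⁻¹`
(from `gᵀ q g = q`), so the vector `q x' = q mat g⁻¹ av z = (mat g)ᵀ q av z` has `j`-th entry
`zᵀ q mat g e_j` (`q` symmetric), i.e. `c₀ q x'` is integral and `c₀ c₁ x' = (c₁ q⁻¹)(c₀ q x')` too. -/
theorem exists_dual_den [IsTotallyReal F] (hD : IsTotPosDef D.q) : ∃ c : ℕ, 0 < c ∧
    ∀ (g : D.Ad) (z : Fin n → F),
      (∀ x ∈ lat g, ∃ m : ℤ, Algebra.trace ℚ F (qf D (RingHom.id F) z x) = m) →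
      (fun k => (c : F) * z k) ∈ lat g := by
  classical
  obtain ⟨c₀, hc₀, hc₀'⟩ := exists_den_different (F := F)
  obtain ⟨τ⟩ := A2f_emb (F := F)
  have hdet : D.q.det ≠ 0 := by
    intro h0
    obtain ⟨v, hv, hv'⟩ := Matrix.exists_mulVec_eq_zero_iff.2 h0
    have h1 := qf_pos hD v hv τ
    have h2 : qf D (RingHom.id F) v v = 0 := by
      have : D.q.map (RingHom.id F) = D.q := by
        ext i j
        rfl
      unfold qf
      rw [this, hv', dotProduct_zero]
    rw [h2, map_zero] at h1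
    exact lt_irrefl _ h1
  have hqq : D.q * D.q⁻¹ = 1 := Matrix.mul_nonsing_inv _ (isUnit_iff_ne_zero.2 hdet)
  obtain ⟨c₁, hc₁, hc₁'⟩ := A2f_famF (F := F) (fun p : Fin n × Fin n => D.q⁻¹ p.1 p.2)
  refine ⟨c₀ * c₁, Nat.mul_pos hc₀ hc₁, fun g z hz => ?_⟩
  set A := FiniteAdeleRing (𝓞 F) F with hA
  set φ := algebraMap F A with hφ
  set L : (Fin n → A) → A := fun y => qf D φ (av z) ((mat g).mulVec y) with hL
  -- step 1
  have s1 : ∀ x ∈ lat g, IsIntegral ℤ ((c₀ : F) * qf D (RingHom.id F) z x) := by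
    intro x hx
    refine hc₀' _ fun β hβ => ?_
    obtain ⟨m, hm⟩ := hz (β • x) (smul_mem_lat g β hβ hx)
    refine ⟨m, ?_⟩
    rw [← hm, A2f_qf_smul_right, mul_comm]
  -- step 2
  have s2 : ∀ j, (c₀ : A) * L (Pi.single j 1) ∈ Ohat F := by
    intro j
    obtain ⟨M, hM, hM'⟩ := A2f_fam (F := F) (fun l : Fin n => L (Pi.single l 1))
    obtain ⟨x, hx, u, hu, hxu⟩ := exists_lat_approx g (Pi.single j 1)
      (fun k => by
        by_cases h : k = j
        · subst h
          rw [Pi.single_eq_same]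
          exact one_mem _
        · rw [Pi.single_eq_of_ne h]
          exact zero_mem _) M hM
    have e1 : qf D φ (av z) (av x) = L (Pi.single j 1) + (M : A) * L u := by
      rw [hxu]
      simp only [hL]
      rw [Matrix.mulVec_add, A2f_qf_add_right, Matrix.mulVec_smul, A2f_qf_smul_right]
    have e2 : φ (qf D (RingHom.id F) z x) = qf D φ (av z) (av x) :=
      (qf_map (D := D) (RingHom.id F) φ z x).symm
    have e3 : (M : A) * L u ∈ Ohat F := by
      have h1 : L u = ∑ l, u l * L (Pi.single l 1) := by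
        have h2 : u = ∑ l, u l • (Pi.single l (1 : A) : Fin n → A) := by
          funext k
          simp [Finset.sum_apply, Pi.single_apply]
        calc L u = L (∑ l, u l • (Pi.single l (1 : A) : Fin n → A)) := by rw [← h2]
          _ = ∑ l, L (u l • (Pi.single l (1 : A) : Fin n → A)) := by
            simp only [hL]
            rw [Matrix.mulVec_sum, A2f_qf_sum_right]
          _ = _ := by
            refine Finset.sum_congr rfl fun l _ => ?_
            simp only [hL]
            rw [Matrix.mulVec_smul, A2f_qf_smul_right]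
      rw [h1, Finset.mul_sum]
      refine sum_mem fun l _ => ?_
      rw [mul_left_comm]
      exact mul_mem (hu l) (hM' l)
    have e4 : (c₀ : A) * L (Pi.single j 1) =
        φ ((c₀ : F) * qf D (RingHom.id F) z x) - (c₀ : A) * ((M : A) * L u) := by
      rw [map_mul, map_natCast, e2, e1]
      ring
    rw [e4]
    exact sub_mem ((algebraMap_mem_Ohat F _).2 (s1 x hx)) (mul_mem (natCast_mem _ _) e3)
  -- step 3
  intro i
  set x' : Fin n → A := (mat g⁻¹).mulVec (av z) with hx'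
  have t1 : (mat g⁻¹).mulVec (av fun k => ((c₀ * c₁ : ℕ) : F) * z k) i =
      (c₀ : A) * (c₁ : A) * x' i := by
    have : (av fun k => ((c₀ * c₁ : ℕ) : F) * z k) = ((c₀ : A) * (c₁ : A)) • av z := by
      funext k
      simp only [av, Pi.smul_apply, smul_eq_mul, map_mul, map_natCast, Nat.cast_mul]
    rw [this, Matrix.mulVec_smul, Pi.smul_apply, smul_eq_mul]
  rw [t1]
  have t2 : ∀ j, L (Pi.single j 1) = Matrix.vecMul x' (D.q.map φ) j := by
    intro j
    have h1 : (mat g).mulVec x' = av z := by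
      rw [hx', Matrix.mulVec_mulVec, mat_mul_inv, Matrix.one_mulVec]
    simp only [hL]
    conv_lhs => rw [← h1]
    have h2 := qf_mulVec (D := D) φ g x' (Pi.single j 1)
    refine h2.trans ?_
    unfold qf
    rw [Matrix.dotProduct_mulVec, dotProduct_single, mul_one]
  have t3 : x' = Matrix.vecMul (Matrix.vecMul x' (D.q.map φ)) ((D.q⁻¹).map φ) := by
    rw [Matrix.vecMul_vecMul, ← Matrix.map_mul, hqq, Matrix.map_one _ (map_zero _) (map_one _),
      Matrix.vecMul_one]
  have t4 : (c₀ : A) * (c₁ : A) * x' i =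
      ∑ j, ((c₀ : A) * L (Pi.single j 1)) * φ ((c₁ : F) * D.q⁻¹ j i) := by
    conv_lhs => rw [t3]
    rw [Matrix.vecMul, dotProduct, Finset.mul_sum]
    refine Finset.sum_congr rfl fun j _ => ?_
    rw [t2, Matrix.map_apply, map_mul, map_natCast]
    ring
  rw [t4]
  exact sum_mem fun j _ => mul_mem (s2 j) ((algebraMap_mem_Ohat F _).2 (hc₁' (j, i)))

end Pool.Agent.Lib.MP_666dc0_nt.WL
end

section

open NumberField IsDedekindDomain
open scoped NumberField

namespace Pool.Agent.Lib.MP_666dc0_nt.WL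

variable {F : Type} [Field F] [NumberField F] {n : ℕ} (D : Datum F n)

private theorem A2i_den1 (x : F) : ∃ m : ℕ, 0 < m ∧ IsIntegral ℤ ((m : F) * x) := by
  obtain ⟨m, hm, h⟩ := exists_mul_mem_Ohat F (algebraMap F (FiniteAdeleRing (𝓞 F) F) x)
  refine ⟨m, hm, ?_⟩
  rw [← algebraMap_mem_Ohat, map_mul, map_natCast]
  exact h

private theorem A2i_den {ι : Type} [Fintype ι] (x : ι → F) :
    ∃ m : ℕ, 0 < m ∧ ∀ i, algebraMap F (FiniteAdeleRing (𝓞 F) F) ((m : F) * x i) ∈ Ohat F := by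
  classical
  choose m hm h using fun i => A2i_den1 (x i)
  refine ⟨∏ i, m i, Finset.prod_pos fun i _ => hm i, fun i => ?_⟩
  rw [algebraMap_mem_Ohat, ← Finset.mul_prod_erase Finset.univ m (Finset.mem_univ i)]
  have h1 : (((m i * ∏ j ∈ Finset.univ.erase i, m j : ℕ) : F)) * x i =
      ((∏ j ∈ Finset.univ.erase i, m j : ℕ) : F) * ((m i : F) * x i) := by
    rw [Nat.cast_mul]
    ring
  rw [h1]
  have h2 : IsIntegral ℤ ((∏ j ∈ Finset.univ.erase i, m j : ℕ) : F) := by
    have h3 := isIntegral_algebraMap (R := ℤ) (A := F) (x := ((∏ j ∈ Finset.univ.erase i, m j : ℕ) : ℤ))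
    rwa [eq_intCast, Int.cast_natCast] at h3
  exact IsIntegral.mul h2 (h i)

private theorem A2i_nat (m : ℕ) : (m : FiniteAdeleRing (𝓞 F) F) ∈ Ohat F := natCast_mem _ m

private theorem A2i_av (g : D.Ad) (x : Fin n → F) :
    av x = (mat g).mulVec ((mat g⁻¹).mulVec (av x)) := by
  rw [Matrix.mulVec_mulVec, mat_mul_inv, Matrix.one_mulVec]

/-- The form has uniformly bounded denominators on all the lattices.
Proof: let `d > 0` be an integer with `d q i j` integral for all `i, j` (an element of `F` has an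
integral multiple: `exists_integral_multiple`, or `IsIntegral` of `a • x`; over `ℤ` take absolute
values). For `x, y ∈ lat g` put `x' = mat g⁻¹ *ᵥ av x`, `y' = mat g⁻¹ *ᵥ av y` (entries in `Ô`). By
`qf_map`, `qf_mulVec` (with `R` the finite adeles): the image of `qf D id x y` in the finite adeles is
`qf D alg (av x) (av y) = qf D alg (mat g *ᵥ x') (mat g *ᵥ y') = qf D alg x' y'`, and `d` times this is
in `Ô`. Use `algebraMap_mem_Ohat`. -/
theorem exists_den_qf : ∃ d : ℕ, 0 < d ∧ ∀ g : D.Ad, ∀ x ∈ lat g, ∀ y ∈ lat g,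
    IsIntegral ℤ ((d : F) * qf D (RingHom.id F) x y) := by
  obtain ⟨d, hd, hint⟩ := A2i_den (fun p : Fin n × Fin n => D.q p.1 p.2)
  refine ⟨d, hd, fun g x hx y hy => ?_⟩
  rw [← algebraMap_mem_Ohat, map_mul]
  obtain ⟨α, hα⟩ : ∃ α, α = algebraMap F (FiniteAdeleRing (𝓞 F) F) := ⟨_, rfl⟩
  have h1 := qf_map (D := D) (RingHom.id F) (algebraMap F (FiniteAdeleRing (𝓞 F) F)) x y
  rw [RingHom.comp_id] at h1
  have h2 : (fun k => algebraMap F (FiniteAdeleRing (𝓞 F) F) (x k)) =
      (mat g).mulVec ((mat g⁻¹).mulVec (av x)) := A2i_av D g x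
  have h3 : (fun k => algebraMap F (FiniteAdeleRing (𝓞 F) F) (y k)) =
      (mat g).mulVec ((mat g⁻¹).mulVec (av y)) := A2i_av D g y
  rw [h2, h3, qf_mulVec] at h1
  rw [← h1, map_natCast]
  obtain ⟨x', hx'⟩ : ∃ x', x' = (mat g⁻¹).mulVec (av x) := ⟨_, rfl⟩
  obtain ⟨y', hy'⟩ : ∃ y', y' = (mat g⁻¹).mulVec (av y) := ⟨_, rfl⟩
  have hx2 : ∀ i, x' i ∈ Ohat F := by rw [hx']; exact hx
  have hy2 : ∀ i, y' i ∈ Ohat F := by rw [hy']; exact hy
  rw [← hx', ← hy']
  unfold qf
  rw [dotProduct, Finset.mul_sum]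
  refine sum_mem fun i _ => ?_
  rw [mul_left_comm]
  refine mul_mem (hx2 i) ?_
  rw [Matrix.mulVec, dotProduct, Finset.mul_sum]
  refine sum_mem fun j _ => ?_
  rw [← mul_assoc, Matrix.map_apply]
  refine mul_mem ?_ (hy2 j)
  have h := hint (i, j)
  rw [map_mul, map_natCast] at h
  exact h

/-- The same for the tensor pairings.
Proof: as for `exists_den_qf`, with `pairT_map`, `pairT_mulVec`; `d` is a common denominator of the
entries of the `w s` times the `a`-th power of one of the entries of `q`, `a` the largest degree. -/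
theorem exists_den_pairT : ∃ d : ℕ, 0 < d ∧ ∀ g : D.Ad, ∀ (s : Fin D.m)
    (y : Fin (D.deg s) → Fin n → F), (∀ t, y t ∈ lat g) →
    IsIntegral ℤ ((d : F) * pairT D (RingHom.id F) s y) := by
  classical
  obtain ⟨d₁, hd₁, hint₁⟩ := A2i_den (fun p : Fin n × Fin n => D.q p.1 p.2)
  obtain ⟨d₂, hd₂, hint₂⟩ := A2i_den
    (fun p : Σ s : Fin D.m, (Fin (D.deg s) → Fin n) => D.w p.1 p.2)
  obtain ⟨a, ha⟩ : ∃ a : ℕ, ∀ s, D.deg s ≤ a :=
    ⟨∑ s, D.deg s, fun s => Finset.single_le_sum (f := D.deg) (fun _ _ => Nat.zero_le _)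
      (Finset.mem_univ s)⟩
  refine ⟨d₂ * d₁ ^ a, Nat.mul_pos hd₂ (pow_pos hd₁ a), fun g s y hy => ?_⟩
  rw [← algebraMap_mem_Ohat, map_mul]
  have h1 := pairT_map (D := D) (RingHom.id F) (algebraMap F (FiniteAdeleRing (𝓞 F) F)) s y
  rw [RingHom.comp_id] at h1
  have h2 : (fun t k => algebraMap F (FiniteAdeleRing (𝓞 F) F) (y t k)) =
      fun t => (mat g).mulVec ((mat g⁻¹).mulVec (av (y t))) := by
    funext t
    exact A2i_av D g (y t)
  rw [h2, pairT_mulVec] at h1
  rw [← h1, map_natCast]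
  obtain ⟨y', hy'⟩ : ∃ y' : Fin (D.deg s) → Fin n → FiniteAdeleRing (𝓞 F) F,
      y' = fun t => (mat g⁻¹).mulVec (av (y t)) := ⟨_, rfl⟩
  have hy2 : ∀ t i, y' t i ∈ Ohat F := by
    intro t
    rw [hy']
    exact hy t
  rw [← hy']
  unfold pairT
  rw [Finset.mul_sum]
  refine sum_mem fun J _ => ?_
  have hpow : d₁ ^ a = d₁ ^ (a - D.deg s) * d₁ ^ D.deg s := by
    rw [← pow_add, Nat.sub_add_cancel (ha s)]
  have h3 : ((d₂ * d₁ ^ a : ℕ) : FiniteAdeleRing (𝓞 F) F) *
      (algebraMap F (FiniteAdeleRing (𝓞 F) F) (D.w s J) *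
        ∏ t, (D.q.map (algebraMap F (FiniteAdeleRing (𝓞 F) F))).mulVec (y' t) (J t)) =
      ((d₁ ^ (a - D.deg s) : ℕ) : FiniteAdeleRing (𝓞 F) F) *
      ((d₂ : FiniteAdeleRing (𝓞 F) F) * algebraMap F (FiniteAdeleRing (𝓞 F) F) (D.w s J)) *
      ∏ t, ((d₁ : FiniteAdeleRing (𝓞 F) F) *
        (D.q.map (algebraMap F (FiniteAdeleRing (𝓞 F) F))).mulVec (y' t) (J t)) := by
    rw [hpow, Finset.prod_mul_distrib, Finset.prod_const, Finset.card_univ, Fintype.card_fin]
    push_cast
    ring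
  rw [h3]
  refine mul_mem (mul_mem (A2i_nat _) ?_) (prod_mem fun t _ => ?_)
  · have h := hint₂ ⟨s, J⟩
    rw [map_mul, map_natCast] at h
    exact h
  · rw [Matrix.mulVec, dotProduct, Finset.mul_sum]
    refine sum_mem fun j _ => ?_
    rw [← mul_assoc, Matrix.map_apply]
    refine mul_mem ?_ (hy2 t j)
    have h := hint₁ (J t, j)
    rw [map_mul, map_natCast] at h
    exact h

end Pool.Agent.Lib.MP_666dc0_nt.WL
end

section

open NumberField IsDedekindDomain
open scoped NumberField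

namespace Pool.Agent.Lib.MP_666dc0_nt.WL

variable {F : Type} [Field F] [NumberField F] {n : ℕ} {D : Datum F n}

private theorem A3_real [IsTotallyReal F] (φ : F →+* ℂ) : ∃ τ : F →+* ℝ, ∀ x, φ x = (τ x : ℂ) := by
  have h1 : (InfinitePlace.mk φ).IsReal := IsTotallyReal.isReal _
  have h2 : ComplexEmbedding.IsReal φ := InfinitePlace.isReal_of_mk_isReal h1
  exact ⟨h2.embedding, fun x => (h2.coe_embedding_apply x).symm⟩

/-- Finiteness of bounded elements with bounded denominators.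
Proof: `x ↦ d x` is injective and its values are integral with all real (all complex, as `F` is
totally real) absolute values `≤ d C`; `NumberField.Embeddings.finite_of_norm_le`. -/
theorem finite_bounded [IsTotallyReal F] (d : ℕ) (hd : 0 < d) (C : ℝ) :
    {x : F | IsIntegral ℤ ((d : F) * x) ∧ ∀ τ : F →+* ℝ, |τ x| ≤ C}.Finite := by
  have hfin := NumberField.Embeddings.finite_of_norm_le F ℂ (d * C)
  have hd0 : (d : F) ≠ 0 := by
    exact_mod_cast hd.ne'
  refine Set.Finite.subset (hfin.preimage (f := fun x : F => (d : F) * x)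
    (fun x _ y _ hxy => mul_left_cancel₀ hd0 hxy)) ?_
  rintro x ⟨hx1, hx2⟩
  refine ⟨hx1, fun φ => ?_⟩
  obtain ⟨τ, hτ⟩ := A3_real φ
  rw [map_mul, map_natCast, norm_mul, hτ, Complex.norm_real, Real.norm_eq_abs, Complex.norm_natCast]
  exact mul_le_mul_of_nonneg_left (hx2 τ) (Nat.cast_nonneg d)

private theorem A3_mulVec (τ : F →+* ℝ) (x : Fin n → F) (C : ℝ) (hx : ∀ k, |τ (x k)| ≤ C)
    (i : Fin n) : |τ ((D.q.map (RingHom.id F)).mulVec x i)| ≤ ∑ l, |τ (D.q i l)| * C := by
  rw [Matrix.mulVec, dotProduct, map_sum]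
  refine (Finset.abs_sum_le_sum_abs _ _).trans (Finset.sum_le_sum fun l _ => ?_)
  rw [map_mul, abs_mul]
  exact mul_le_mul_of_nonneg_left (hx l) (abs_nonneg _)

/-- There are only finitely many Gram matrices and tensor pairings of short families.
Proof: the entries of `gram D b` and of `tens D b s` have bounded denominators (`exists_den_qf`,
`exists_den_pairT`; `b i ∈ lat g` since `lat g` is the closure) and are bounded at all real places
(polynomials in the numbers `τ (b i k)`, `|τ (b i k)| ≤ C`, with coefficients the `τ (q k l)`,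
`τ (w s J)`; use `Finset.abs_sum_le_sum_abs`, `Finset.abs_prod`, a bound `max C 1`). So they are in a
finite set by `finite_bounded`; the set of functions from a finite type to a finite set is finite
(`Set.Finite.pi`). -/
theorem finite_data [IsTotallyReal F] (C : ℝ) :
    {p : (Fin (rk F n) → Fin (rk F n) → F) ×
        (∀ s : Fin D.m, (Fin (D.deg s) → Fin (rk F n)) → F) |
      ∃ (g : D.Ad) (b : Fin (rk F n) → Fin n → F), IsShort g C b ∧
        p = (gram D b, tens D b)}.Finite := by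
  classical
  obtain ⟨d₁, hd₁, h₁⟩ := exists_den_qf D
  obtain ⟨d₂, hd₂, h₂⟩ := exists_den_pairT D
  have hfinτ : Finite (F →+* ℝ) := inferInstance
  have := Fintype.ofFinite (F →+* ℝ)
  obtain ⟨C', hC'⟩ : ∃ C', C' = max C 0 := ⟨_, rfl⟩
  have hC0 : 0 ≤ C' := by rw [hC']; exact le_max_right _ _
  have hCC : C ≤ C' := by rw [hC']; exact le_max_left _ _
  obtain ⟨C₁, hC₁⟩ : ∃ C₁ : ℝ, ∀ τ : F →+* ℝ, ∑ k, C' * ∑ l, |τ (D.q k l)| * C' ≤ C₁ :=
    ⟨∑ τ : F →+* ℝ, ∑ k, C' * ∑ l, |τ (D.q k l)| * C', fun τ =>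
      Finset.single_le_sum (f := fun τ : F →+* ℝ => ∑ k, C' * ∑ l, |τ (D.q k l)| * C')
        (fun τ _ => Finset.sum_nonneg fun k _ => mul_nonneg hC0
          (Finset.sum_nonneg fun l _ => mul_nonneg (abs_nonneg _) hC0)) (Finset.mem_univ τ)⟩
  obtain ⟨C₂, hC₂⟩ : ∃ C₂ : ℝ, ∀ (p : (F →+* ℝ) × Fin D.m),
      ∑ J : Fin (D.deg p.2) → Fin n, |p.1 (D.w p.2 J)| * ∏ t, ∑ l, |p.1 (D.q (J t) l)| * C' ≤ C₂ :=
    ⟨∑ p : (F →+* ℝ) × Fin D.m,
      ∑ J : Fin (D.deg p.2) → Fin n, |p.1 (D.w p.2 J)| * ∏ t, ∑ l, |p.1 (D.q (J t) l)| * C', fun p =>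
      Finset.single_le_sum (f := fun p : (F →+* ℝ) × Fin D.m =>
        ∑ J : Fin (D.deg p.2) → Fin n, |p.1 (D.w p.2 J)| * ∏ t, ∑ l, |p.1 (D.q (J t) l)| * C')
        (fun p _ => Finset.sum_nonneg fun J _ => mul_nonneg (abs_nonneg _)
          (Finset.prod_nonneg fun t _ =>
            Finset.sum_nonneg fun l _ => mul_nonneg (abs_nonneg _) hC0)) (Finset.mem_univ p)⟩
  have hfin₁ := finite_bounded (F := F) d₁ hd₁ C₁
  have hfin₂ := finite_bounded (F := F) d₂ hd₂ C₂
  have hG : (Set.univ.pi fun _ : Fin (rk F n) => Set.univ.pi fun _ : Fin (rk F n) =>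
      {x : F | IsIntegral ℤ ((d₁ : F) * x) ∧ ∀ τ : F →+* ℝ, |τ x| ≤ C₁}).Finite :=
    Set.Finite.pi fun _ => Set.Finite.pi fun _ => hfin₁
  have hT : (Set.univ.pi fun s : Fin D.m => Set.univ.pi fun _ : (Fin (D.deg s) → Fin (rk F n)) =>
      {x : F | IsIntegral ℤ ((d₂ : F) * x) ∧ ∀ τ : F →+* ℝ, |τ x| ≤ C₂}).Finite :=
    Set.Finite.pi fun _ => Set.Finite.pi fun _ => hfin₂
  refine Set.Finite.subset (hG.prod hT) ?_
  rintro p ⟨g, b, hb, rfl⟩
  have hmem : ∀ i, b i ∈ lat g := by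
    intro i
    rw [← hb.gen]
    exact AddSubgroup.subset_closure ⟨i, rfl⟩
  have hbd : ∀ (i : Fin (rk F n)) (k : Fin n) (τ : F →+* ℝ), |τ (b i k)| ≤ C' :=
    fun i k τ => (hb.bound i k τ).trans hCC
  refine Set.mk_mem_prod ?_ ?_
  · intro i _ j _
    refine ⟨h₁ g (b i) (hmem i) (b j) (hmem j), fun τ => ?_⟩
    refine le_trans ?_ (hC₁ τ)
    change |τ (b i ⬝ᵥ (D.q.map (RingHom.id F)).mulVec (b j))| ≤ _
    rw [dotProduct, map_sum]
    refine (Finset.abs_sum_le_sum_abs _ _).trans (Finset.sum_le_sum fun k _ => ?_)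
    rw [map_mul, abs_mul]
    exact mul_le_mul (hbd i k τ) (A3_mulVec τ (b j) C' (fun l => hbd j l τ) k) (abs_nonneg _) hC0
  · intro s _ I _
    refine ⟨h₂ g s (fun t => b (I t)) (fun t => hmem (I t)), fun τ => ?_⟩
    refine le_trans ?_ (hC₂ (τ, s))
    change |τ (∑ J : Fin (D.deg s) → Fin n, RingHom.id F (D.w s J) *
      ∏ t, (D.q.map (RingHom.id F)).mulVec (b (I t)) (J t))| ≤ _
    rw [map_sum]
    refine (Finset.abs_sum_le_sum_abs _ _).trans (Finset.sum_le_sum fun J _ => ?_)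
    rw [map_mul, abs_mul, map_prod, Finset.abs_prod, RingHom.id_apply]
    exact mul_le_mul_of_nonneg_left (Finset.prod_le_prod (fun t _ => abs_nonneg _)
      (fun t _ => A3_mulVec τ (b (I t)) C' (fun l => hbd (I t) l τ) (J t))) (abs_nonneg _)

end Pool.Agent.Lib.MP_666dc0_nt.WL
end
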