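import Pool.Agent.Lib.MP_666dc0_nt.Mg.G002
import Pool.Agent.Lib.MP_666dc0_nt.Mg.G004
import Pool.Agent.Lib.MP_666dc0_nt.Mg.G003
import Pool.Agent.Lib.MP_666dc0_nt.WL.C5a
import Pool.Agent.Lib.MP_666dc0_nt.WL.Sys

section

open NumberField IsDedekindDomain
open scoped NumberField

namespace Pool.Agent.Lib.MP_666dc0_nt.WL

variable {F : Type} [Field F] [NumberField F] {n : ℕ} {D : Datum F n}

omit [NumberField F] in
private theorem a2_qf_add_left (x y z : Fin n → F) :
    qf D (RingHom.id F) (x + y) z = qf D (RingHom.id F) x z + qf D (RingHom.id F) y z := by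
  unfold qf
  rw [add_dotProduct]

omit [NumberField F] in
private theorem a2_qf_add_right (x y z : Fin n → F) :
    qf D (RingHom.id F) x (y + z) = qf D (RingHom.id F) x y + qf D (RingHom.id F) x z := by
  unfold qf
  rw [Matrix.mulVec_add, dotProduct_add]

omit [NumberField F] in
private theorem a2_qf_smul_left (c : F) (x y : Fin n → F) :
    qf D (RingHom.id F) (fun k => c * x k) y = c * qf D (RingHom.id F) x y := by
  have : (fun k => c * x k) = c • x := rfl
  unfold qf
  rw [this, smul_dotProduct, smul_eq_mul]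

omit [NumberField F] in
private theorem a2_qf_smul_right (c : F) (x y : Fin n → F) :
    qf D (RingHom.id F) x (fun k => c * y k) = c * qf D (RingHom.id F) x y := by
  have : (fun k => c * y k) = c • y := rfl
  unfold qf
  rw [this, Matrix.mulVec_smul, dotProduct_smul, smul_eq_mul]

private theorem a2_trace_nat (c : ℕ) (x : F) :
    Algebra.trace ℚ F ((c : F) * x) = (c : ℚ) * Algebra.trace ℚ F x := by
  have : (c : F) * x = (c : ℚ) • x := by
    rw [Algebra.smul_def]
    congr 1
    simp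
  rw [this, map_smul, smul_eq_mul]

private theorem a2_trace_int {x : F} (hx : IsIntegral ℤ x) :
    ∃ m : ℤ, Algebra.trace ℚ F x = m := by
  have h1 : IsIntegral ℤ (Algebra.trace ℚ F x) := Algebra.isIntegral_trace hx
  obtain ⟨m, hm⟩ := IsIntegrallyClosed.isIntegral_iff.1 h1
  exact ⟨m, by rw [← hm]; simp⟩

/-- The dual bound, uniformly in `g`.
Proof: `c` from `exists_dual_den`, `δ = 1 / (d c)²`. Let `f ≠ 0` and `z` as in
`exists_functional_vec`. Then `z ≠ 0` and `y = c z ∈ lat g` is non-zero. With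
`T = trace (qf z z) > 0`: `f y = trace (qf z (c z)) = c T` and
`trace (d qf y y) = d c² T`, a positive integer by `exists_den_qf` (trace of an integral element is an
integer: `Algebra.isIntegral_trace`, `IsIntegrallyClosed`), so `≥ 1`. The hypothesis for `x = y` gives
`c² T² ≤ t d c² T`, so `T ≤ t d` and `t ≥ T / d ≥ 1 / (d² c²)`. -/
theorem exists_dual_bound [IsTotallyReal F] (hD : IsTotPosDef D.q) {d : ℕ} (hd : 0 < d)
    (hint : ∀ g : D.Ad, ∀ x ∈ lat g, ∀ y ∈ lat g,
      IsIntegral ℤ ((d : F) * qf D (RingHom.id F) x y)) :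
    ∃ δ : ℚ, 0 < δ ∧ ∀ (g : D.Ad) (f : lat g →+ ℤ) (t : ℚ), f ≠ 0 →
      (∀ x : lat g, ((f x : ℤ) : ℚ) ^ 2 ≤
        t * Algebra.trace ℚ F ((d : F) * qf D (RingHom.id F) x x)) → δ ≤ t := by
  obtain ⟨c, hc, hcz⟩ := exists_dual_den (D := D) hD
  have hd' : (0 : ℚ) < d := by exact_mod_cast hd
  have hc' : (0 : ℚ) < c := by exact_mod_cast hc
  refine ⟨1 / ((d : ℚ) * c) ^ 2, by positivity, ?_⟩
  intro g f t hf hb
  obtain ⟨z, hz⟩ := exists_functional_vec hD g f
  have hz0 : z ≠ 0 := by
    intro h0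
    apply hf
    ext x
    have h1 := hz x
    rw [h0] at h1
    have h2 : qf D (RingHom.id F) (0 : Fin n → F) (x : Fin n → F) = 0 := by
      unfold qf
      rw [zero_dotProduct]
    rw [h2, map_zero] at h1
    exact_mod_cast h1
  have hy : (fun k => (c : F) * z k) ∈ lat g :=
    hcz g z (fun x hx => ⟨f ⟨x, hx⟩, (hz ⟨x, hx⟩).symm⟩)
  set T : ℚ := Algebra.trace ℚ F (qf D (RingHom.id F) z z) with hT
  have hTpos : 0 < T := trace_pos _ (fun τ => qf_pos hD z hz0 τ)
  have h1 : ((f ⟨_, hy⟩ : ℤ) : ℚ) = c * T := by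
    rw [hz ⟨_, hy⟩]
    change Algebra.trace ℚ F (qf D (RingHom.id F) z (fun k => (c : F) * z k)) = _
    rw [a2_qf_smul_right, a2_trace_nat]
  have h2 : Algebra.trace ℚ F ((d : F) * qf D (RingHom.id F) (fun k => (c : F) * z k)
      (fun k => (c : F) * z k)) = d * c ^ 2 * T := by
    rw [a2_qf_smul_right, a2_qf_smul_left, a2_trace_nat, a2_trace_nat, a2_trace_nat]
    ring
  obtain ⟨m, hm⟩ := a2_trace_int (hint g _ hy _ hy)
  rw [h2] at hm
  have h3 : (0 : ℚ) < d * c ^ 2 * T := by positivity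
  have h4 : (1 : ℚ) ≤ d * c ^ 2 * T := by
    rw [hm] at h3 ⊢
    exact_mod_cast (by exact_mod_cast h3 : 0 < m)
  have h5 := hb ⟨_, hy⟩
  change ((f ⟨_, hy⟩ : ℤ) : ℚ) ^ 2 ≤ t * Algebra.trace ℚ F ((d : F) *
    qf D (RingHom.id F) (fun k => (c : F) * z k) (fun k => (c : F) * z k)) at h5
  rw [h1, h2] at h5
  have h6 : (c : ℚ) ^ 2 * T * T ≤ (c : ℚ) ^ 2 * T * (t * d) := by
    calc (c : ℚ) ^ 2 * T * T = (c * T) ^ 2 := by ring
      _ ≤ t * (d * c ^ 2 * T) := h5
      _ = _ := by ring
  have h7 : T ≤ t * d := le_of_mul_le_mul_left h6 (by positivity)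
  rw [div_le_iff₀ (by positivity)]
  calc (1 : ℚ) ≤ d * c ^ 2 * T := h4
    _ ≤ d * c ^ 2 * (t * d) := mul_le_mul_of_nonneg_left h7 (by positivity)
    _ = _ := by ring

/-- the form `trace (d qf x y)` on the lattice of `g` -/
private noncomputable def a2_form (D : Datum F n) (d : ℕ) (g : D.Ad) : lat g →+ lat g →+ ℚ :=
  AddMonoidHom.mk' (fun x => AddMonoidHom.mk'
    (fun y => Algebra.trace ℚ F ((d : F) * qf D (RingHom.id F) x y))
    (fun y z => by
      rw [AddSubgroup.coe_add, a2_qf_add_right, mul_add, map_add]))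
    (fun x y => by
      ext z
      change Algebra.trace ℚ F ((d : F) * qf D (RingHom.id F) ((x + y : lat g) : Fin n → F) z) =
        Algebra.trace ℚ F ((d : F) * qf D (RingHom.id F) x z) +
          Algebra.trace ℚ F ((d : F) * qf D (RingHom.id F) y z)
      rw [AddSubgroup.coe_add, a2_qf_add_left, mul_add, map_add])

private theorem a2_form_apply (d : ℕ) (g : D.Ad) (x y : lat g) :
    a2_form D d g x y = Algebra.trace ℚ F ((d : F) * qf D (RingHom.id F) x y) := rfl

/-- Every lattice of `g ∈ G(𝔸_f)` has generators bounded independently of `g`.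
Proof: `d` from `exists_den_qf`; on `Λ = lat g` (free of finite rank `N ≤ rk F n`, `lat_free`) the
form `Q x y = trace (d qf x y)` satisfies `IsLat Q 1 δ` (`exists_dual_bound`, `qf_symm`, `trace_pos`,
`qf_pos`; values are integers). `exists_short_generators` gives `b' : Fin N → Λ` generating with
`Q (b' i) (b' i) ≤ (4/3)^(N-1)/δ ≤ (4/3)^(rk F n)/δ`; extend `b'` by `0` to `Fin (rk F n)`
(closure unchanged); bound the coordinates by `exists_coord_bound` (and `C' ≥ 0` for the zero
vectors; replace `C'` by `max C' 0`). The closure in `F^n` of the images is `lat g`. -/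
theorem exists_isShort [IsTotallyReal F] (hD : IsTotPosDef D.q) :
    ∃ C : ℝ, ∀ g : D.Ad, ∃ b, IsShort g C b := by
  obtain ⟨d, hd, hint⟩ := exists_den_qf D
  obtain ⟨δ, hδ, hdual⟩ := exists_dual_bound hD hd hint
  have hd' : (0 : ℚ) < d := by exact_mod_cast hd
  obtain ⟨C', hC'⟩ := exists_coord_bound hD (((4 / 3) ^ (rk F n) / δ : ℚ) : ℝ)
  refine ⟨max C' 0, fun g => ?_⟩
  obtain ⟨hfree, hfin, hrk⟩ := lat_free g
  have hLat : IsLat (a2_form D d g) 1 δ := by
    refine ⟨?_, ?_, one_pos, ?_, ?_⟩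
    · intro x y
      rw [a2_form_apply, a2_form_apply, qf_symm hD]
    · intro x hx
      rw [a2_form_apply, a2_trace_nat]
      have hx' : (x : Fin n → F) ≠ 0 := fun h => hx (Subtype.ext h)
      exact mul_pos hd' (trace_pos _ (fun τ => qf_pos hD _ hx' τ))
    · intro x y
      obtain ⟨m, hm⟩ := a2_trace_int (hint g _ x.2 _ y.2)
      exact ⟨m, by rw [Nat.cast_one, one_mul, a2_form_apply]; exact hm⟩
    · intro f t hf h
      exact hdual g f t hf h
  obtain ⟨N, hN⟩ : ∃ N, Module.finrank ℤ (lat g) = N := ⟨_, rfl⟩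
  rw [hN] at hrk
  obtain ⟨b', hb1, hb2⟩ := exists_short_generators N δ hδ (lat g)
    (a2_form D d g) 1 hLat hN
  let b : Fin (rk F n) → Fin n → F := fun i => if h : i.1 < N then (b' ⟨i.1, h⟩ : Fin n → F) else 0
  have hbpos : ∀ (i : Fin (rk F n)) (h : i.1 < N), b i = (b' ⟨i.1, h⟩ : Fin n → F) :=
    fun i h => dif_pos h
  have hbneg : ∀ (i : Fin (rk F n)) (h : ¬ i.1 < N), b i = 0 := fun i h => dif_neg h
  refine ⟨b, ?_, ?_⟩
  · have h1 : AddSubgroup.closure ((lat g).subtype '' Set.range b') = lat g := by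
      rw [← AddMonoidHom.map_closure, hb1, ← AddMonoidHom.range_eq_map, AddSubgroup.range_subtype]
    apply le_antisymm
    · rw [AddSubgroup.closure_le]
      rintro _ ⟨i, rfl⟩
      by_cases h : i.1 < N
      · rw [hbpos i h]
        exact (b' ⟨i.1, h⟩).2
      · rw [hbneg i h]
        exact zero_mem _
    · conv_lhs => rw [← h1]
      apply AddSubgroup.closure_mono
      rintro _ ⟨_, ⟨i, rfl⟩, rfl⟩
      have hi : i.1 < rk F n := lt_of_lt_of_le i.2 hrk
      exact ⟨⟨i.1, hi⟩, hbpos ⟨i.1, hi⟩ i.2⟩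
  · intro i k τ
    by_cases h : i.1 < N
    · rw [hbpos i h]
      refine le_trans (hC' _ ?_ k τ) (le_max_left _ _)
      have h2 := hb2 ⟨i.1, h⟩
      rw [a2_form_apply, a2_trace_nat] at h2
      set x : Fin n → F := (b' ⟨i.1, h⟩ : Fin n → F) with hx
      have h3 : 0 ≤ Algebra.trace ℚ F (qf D (RingHom.id F) x x) := by
        by_cases hx0 : x = 0
        · rw [hx0]
          have : qf D (RingHom.id F) (0 : Fin n → F) (0 : Fin n → F) = 0 := by
            unfold qf
            rw [zero_dotProduct]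
          rw [this, map_zero]
        · exact (trace_pos _ (fun τ => qf_pos hD _ hx0 τ)).le
      have h4 : (1 : ℚ) ≤ d := by exact_mod_cast hd
      have h5 : Algebra.trace ℚ F (qf D (RingHom.id F) x x) ≤ (4 / 3) ^ (rk F n) / δ := by
        calc Algebra.trace ℚ F (qf D (RingHom.id F) x x)
            ≤ d * Algebra.trace ℚ F (qf D (RingHom.id F) x x) := le_mul_of_one_le_left h3 h4
          _ ≤ (4 / 3) ^ (N - 1) / δ := h2
          _ ≤ (4 / 3) ^ (rk F n) / δ := by
            apply div_le_div_of_nonneg_right _ hδ.le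
            exact pow_le_pow_right₀ (by norm_num) (by omega)
      exact_mod_cast h5
    · rw [hbneg i h, Pi.zero_apply, map_zero, abs_zero]
      exact le_max_right _ _

end Pool.Agent.Lib.MP_666dc0_nt.WL
end

section

open NumberField IsDedekindDomain
open scoped NumberField

namespace Pool.Agent.Lib.MP_666dc0_nt.WL

variable {F : Type} [Field F] [NumberField F] {n : ℕ} {D : Datum F n}

/-- Finiteness of the class number, first form.
Proof: let `C` be as in `exists_isShort`; choose a short family `b_g` for every `g`. The set of the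
data `(gram D (b_g), tens D (b_g))` is finite (`finite_data`); choose for each datum that occurs one
`g'` with this datum; let `X` be the finite set of these `g'`. For any `g` there is `g' ∈ X` with the
same datum, hence `γ` with `γ b_g = b_{g'}` (`exists_rat_of_data`) and `k = g'⁻¹ γ g ∈ K0`
(`mem_K0_of_data`), so `g = γ⁻¹ g' k`. -/
theorem exists_finite_reps_K0 [IsTotallyReal F] (hD : IsTotPosDef D.q) :
    ∃ X : Finset D.Ad, ∀ g : D.Ad, ∃ γ : D.Rat, ∃ c ∈ X, ∃ k ∈ K0 D, g = D.toAd γ * c * k := by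
  classical
  obtain ⟨C, hC⟩ := exists_isShort (D := D) hD
  choose b hb using hC
  have hfin : (Set.range fun g : D.Ad => (gram D (b g), tens D (b g))).Finite := by
    refine (finite_data (D := D) C).subset ?_
    rintro p ⟨g, rfl⟩
    exact ⟨g, b g, hb g, rfl⟩
  refine ⟨hfin.toFinset.attach.image
    (fun p => Classical.choose (hfin.mem_toFinset.1 p.2)), fun g => ?_⟩
  have hg : (gram D (b g), tens D (b g)) ∈ hfin.toFinset := hfin.mem_toFinset.2 ⟨g, rfl⟩
  have hc := Classical.choose_spec (hfin.mem_toFinset.1 hg)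
  set c := Classical.choose (hfin.mem_toFinset.1 hg) with hcdef
  have h1 : gram D (b g) = gram D (b c) := (congrArg Prod.fst hc).symm
  have h2 : tens D (b g) = tens D (b c) := (congrArg Prod.snd hc).symm
  obtain ⟨γ, hγ⟩ := exists_rat_of_data hD (hb g) (hb c) h1 h2
  have hk := mem_K0_of_data (hb g) (hb c) γ hγ
  refine ⟨γ⁻¹, c, ?_, c⁻¹ * D.toAd γ * g, hk, ?_⟩
  · exact Finset.mem_image.2 ⟨⟨_, hg⟩, Finset.mem_attach _ _, rfl⟩
  · rw [map_inv]
    group

/-- Finiteness of the class number: `G(F) \ G(𝔸_f) / V` is finite for every open subgroup `V`.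
Proof: `K0 D` is compact and covered by the open cosets `k V`, so `K0 ⊆ ⋃_{k ∈ Y} k V` with `Y`
finite. With `X` as before, the set `{c * k | c ∈ X, k ∈ Y}` does it. -/
theorem exists_finite_reps [IsTotallyReal F] (hD : IsTotPosDef D.q) (V : Subgroup D.Ad)
    (hV : IsOpen (V : Set D.Ad)) :
    ∃ X : Finset D.Ad, ∀ g : D.Ad, ∃ γ : D.Rat, ∃ c ∈ X, ∃ k ∈ V, g = D.toAd γ * c * k := by
  classical
  obtain ⟨X, hX⟩ := exists_finite_reps_K0 (D := D) hD
  have hcov : ∀ x ∈ (K0 D : Set D.Ad), {y : D.Ad | x⁻¹ * y ∈ V} ∈ nhds x := by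
    intro x _
    have hcont : Continuous fun y : D.Ad => x⁻¹ * y := continuous_const.mul continuous_id
    have hopen : IsOpen {y : D.Ad | x⁻¹ * y ∈ V} := hV.preimage hcont
    refine hopen.mem_nhds ?_
    change x⁻¹ * x ∈ V
    rw [inv_mul_cancel]
    exact V.one_mem
  obtain ⟨Y, _, hY⟩ := (isCompact_K0 (D := D)).elim_nhds_subcover
    (fun x : D.Ad => {y : D.Ad | x⁻¹ * y ∈ V}) hcov
  refine ⟨(X ×ˢ Y).image (fun p => p.1 * p.2), fun g => ?_⟩
  obtain ⟨γ, c, hc, k, hk, rfl⟩ := hX g
  obtain ⟨y, hy, hyk⟩ := Set.mem_iUnion₂.1 (hY hk)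
  refine ⟨γ, c * y, Finset.mem_image.2 ⟨(c, y), Finset.mem_product.2 ⟨hc, hy⟩, rfl⟩,
    y⁻¹ * k, hyk, ?_⟩
  group

/-- Discreteness: only finitely many elements of `G(F)` are in a compact subset of `G(𝔸_f)`.
Proof: the entries of such a `γ` have bounded denominators (`exists_den_of_isCompact`, `mat_toAd`,
`algebraMap_mem_Ohat`) and are bounded at all real places: the columns `γ e_j` satisfy
`trace (qf (γ e_j) (γ e_j)) = trace (qf e_j e_j)` (`qf_mulVec` with `φ = id`), so
`exists_coord_bound` applies. Conclude by `finite_bounded` (`γ` is determined by its entries). -/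
theorem finite_rat_of_isCompact [IsTotallyReal F] (hD : IsTotPosDef D.q) (C : Set D.Ad)
    (hC : IsCompact C) : {γ : D.Rat | D.toAd γ ∈ C}.Finite := by
  classical
  obtain ⟨m, hm, hmC⟩ := exists_den_of_isCompact C hC
  have hcol : ∀ (γ : D.Rat) (j : Fin n), qf D (RingHom.id F) (γ.1.1.mulVec (Pi.single j 1))
      (γ.1.1.mulVec (Pi.single j 1)) = qf D (RingHom.id F) (Pi.single j 1) (Pi.single j 1) :=
    fun γ j => qf_mulVec (RingHom.id F) γ _ _
  have hb : ∀ j : Fin n, ∃ C' : ℝ, ∀ (γ : D.Rat) (i : Fin n) (τ : F →+* ℝ), |τ (γ.1.1 i j)| ≤ C' := by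
    intro j
    obtain ⟨C', hC'⟩ := exists_coord_bound (D := D) hD
      (Algebra.trace ℚ F (qf D (RingHom.id F) (Pi.single j 1) (Pi.single j 1)) : ℝ)
    refine ⟨C', fun γ i τ => ?_⟩
    have h := hC' (γ.1.1.mulVec (Pi.single j 1)) (le_of_eq (by rw [hcol γ j])) i τ
    rwa [Matrix.mulVec_single_one] at h
  choose C' hC' using hb
  have hfin : ∀ j : Fin n, {x : F | IsIntegral ℤ ((m : F) * x) ∧ ∀ τ : F →+* ℝ, |τ x| ≤ C' j}.Finite :=
    fun j => finite_bounded m hm (C' j)
  have hpi : (Set.univ.pi fun _ : Fin n => Set.univ.pi fun j : Fin n =>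
      {x : F | IsIntegral ℤ ((m : F) * x) ∧ ∀ τ : F →+* ℝ, |τ x| ≤ C' j}).Finite :=
    Set.Finite.pi fun _ => Set.Finite.pi fun j => hfin j
  refine Set.Finite.of_finite_image (f := fun γ : D.Rat => fun i j => γ.1.1 i j)
    (hpi.subset ?_) ?_
  · rintro M ⟨γ, hγ, rfl⟩
    refine Set.mem_univ_pi.2 fun i => Set.mem_univ_pi.2 fun j => ⟨?_, fun τ => hC' j γ i τ⟩
    have h := hmC _ hγ i j
    rw [mat_toAd, Matrix.map_apply] at h
    rw [← algebraMap_mem_Ohat, map_mul, map_natCast]
    exact h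
  · intro γ _ γ' _ h
    apply Subtype.ext
    apply Units.ext
    ext i j
    exact congrFun (congrFun h i) j

end Pool.Agent.Lib.MP_666dc0_nt.WL
end

section

open NumberField IsDedekindDomain
open scoped NumberField

namespace Pool.Agent.Lib.MP_666dc0_nt.WL

/-!
# WL, D3: approximation at a deep level
-/

variable {F : Type} [Field F] [NumberField F] {n : ℕ} {D : Datum F n}
  {ℓ : ℕ} [Fact ℓ.Prime] {U V K : Subgroup D.Ad}

private theorem d3_continuous_evalAt (v : HeightOneSpectrum (𝓞 F)) :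
    Continuous (fun a : FiniteAdeleRing (𝓞 F) F => (a v : v.adicCompletion F)) :=
  RestrictedProduct.continuous_eval v

private theorem d3_isClosed_trivialAt (v : HeightOneSpectrum (𝓞 F)) :
    IsClosed {g : D.Ad | TrivialAt v g} := by
  have h1 : Continuous (fun g : D.Ad => (mat g).map
      (fun a : FiniteAdeleRing (𝓞 F) F => (a v : v.adicCompletion F))) := by
    apply continuous_matrix
    intro i j
    have h2 : Continuous (fun g : D.Ad => mat g i j) := by
      have h3 := (isEmbedding_entries (D := D)).continuous.fst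
      exact (continuous_apply j).comp ((continuous_apply i).comp h3)
    exact (d3_continuous_evalAt v).comp h2
  have h4 : {g : D.Ad | TrivialAt v g} = (fun g : D.Ad => (mat g).map
      (fun a : FiniteAdeleRing (𝓞 F) F => (a v : v.adicCompletion F))) ⁻¹'
      {(1 : Matrix (Fin n) (Fin n) (v.adicCompletion F))} := by
    ext g
    exact Iff.rfl
  rw [h4]
  exact isClosed_singleton.preimage h1

private theorem d3_isOpen_periods_aux {G : Type*} [Group G] [TopologicalSpace G]
    [IsTopologicalGroup G] {E : Type*} [SeminormedAddCommGroup E] (V W : Subgroup G)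
    (hV' : IsCompact (V : Set G)) (X : Finset G) (φ : G → E) (hφ : Continuous φ) (ε : ℝ)
    (hε : 0 < ε)
    (hX : ∀ w, (∀ c ∈ X, ∀ k ∈ V, ‖φ (c * k * w) - φ (c * k)‖ ≤ ε) → w ∈ W) :
    IsOpen (W : Set G) := by
  have hN : ∀ c ∈ X, {w : G | ∀ k ∈ V, ‖φ (c * k * w) - φ (c * k)‖ ≤ ε} ∈ nhds (1 : G) := by
    intro c _
    have hO : IsOpen {x : G × G | ‖φ (c * x.1 * x.2) - φ (c * x.1)‖ < ε} := by
      apply isOpen_lt ?_ continuous_const
      have h1 : Continuous (fun x : G × G => c * x.1 * x.2) :=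
        (continuous_const.mul continuous_fst).mul continuous_snd
      have h2 : Continuous (fun x : G × G => c * x.1) := continuous_const.mul continuous_fst
      exact ((hφ.comp h1).sub (hφ.comp h2)).norm
    have hsub : (V : Set G) ×ˢ ({1} : Set G) ⊆
        {x : G × G | ‖φ (c * x.1 * x.2) - φ (c * x.1)‖ < ε} := by
      rintro ⟨k, w⟩ ⟨_, hw⟩
      have hw' : w = 1 := hw
      show ‖φ (c * k * w) - φ (c * k)‖ < ε
      rw [hw', mul_one, sub_self, norm_zero]
      exact hε
    obtain ⟨u, v, _, hv, hVu, h1v, huv⟩ := generalized_tube_lemma hV' isCompact_singleton hO hsub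
    refine Filter.mem_of_superset (hv.mem_nhds (h1v rfl)) fun w hw k hk => ?_
    have h1 : (k, w) ∈ u ×ˢ v := ⟨hVu hk, hw⟩
    exact (show ‖φ (c * k * w) - φ (c * k)‖ < ε from huv h1).le
  have hall := (Filter.biInter_finset_mem X).2 hN
  apply Subgroup.isOpen_of_mem_nhds W (g := 1)
  refine Filter.mem_of_superset hall fun w hw => ?_
  exact hX w fun c hc k hk => (Set.mem_iInter₂.1 hw c hc) k hk

/-- Levels can be made smaller.
Proof: put `V = U ⊔ K = U K` (`mem_sup_iff`), `W' = K ⊓ W`. (1) `supp` is clear. (2) `U` and `K` are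
closed in the compact group `V`: `U = {g ∈ V | g trivial at all places above ℓ}` and
`K = {g ∈ V | g trivial at all places not above ℓ}` (write `g = u k`; if `g` is trivial above `ℓ` then
so is `k`, which is trivial elsewhere, so `k = 1`), and triviality at a place is a closed condition
(`g ↦ g_v` is continuous). So `U`, `K` are compact. (3) The map `U × K → V`, `(u, k) ↦ u k`, is a
continuous bijection of compact Hausdorff spaces (`t2Space_Ad`), hence a homeomorphism, and the image
of the open set `U × (K ⊓ W)`, which is `U ⊔ W'` by `mem_sup_iff`, is open in `V`, and `V` is open.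
An open subgroup of a compact group is closed, hence compact. -/
theorem isLevel_inf (hU : IsTame ℓ U) (hK : IsLevel ℓ U K) (W : Subgroup D.Ad)
    (hW : IsOpen (W : Set D.Ad)) : IsLevel ℓ U (K ⊓ W) := by
  classical
  have : T2Space D.Ad := t2Space_Ad
  have hK' : ∀ g ∈ K ⊓ W, ∀ v : HeightOneSpectrum (𝓞 F), (ℓ : 𝓞 F) ∉ v.asIdeal →
      TrivialAt v g := fun g hg => hK.supp g hg.1
  have key : ∀ g : D.Ad, g ∈ U → g ∈ K → g = 1 := by
    intro g h1 h2
    apply eq_one_of_trivialAt
    intro v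
    by_cases hv : (ℓ : 𝓞 F) ∈ v.asIdeal
    · exact hU g h1 v hv
    · exact hK.supp g h2 v hv
  have hGc : IsClosed ((U ⊔ K : Subgroup D.Ad) : Set D.Ad) := hK.isCompact.isClosed
  have hUc : IsCompact (U : Set D.Ad) := by
    have h1 : (U : Set D.Ad) = ((U ⊔ K : Subgroup D.Ad) : Set D.Ad) ∩
        ⋂ v : HeightOneSpectrum (𝓞 F), {g | (ℓ : 𝓞 F) ∈ v.asIdeal → TrivialAt v g} := by
      ext g
      constructor
      · intro hg
        refine ⟨(le_sup_left : U ≤ U ⊔ K) hg, ?_⟩
        rw [Set.mem_iInter]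
        exact fun v hv => hU g hg v hv
      · rintro ⟨h2, h3⟩
        rw [Set.mem_iInter] at h3
        obtain ⟨u, hu, k, hk, rfl⟩ := (mem_sup_iff hU hK.supp).1 h2
        have h4 : k = 1 := by
          apply eq_one_of_trivialAt
          intro v
          by_cases hv : (ℓ : 𝓞 F) ∈ v.asIdeal
          · have h5 : TrivialAt v (u * k) := h3 v hv
            have h6 := (hU u hu v hv).inv.mul h5
            rwa [inv_mul_cancel_left] at h6
          · exact hK.supp k hk v hv
        rw [h4, mul_one]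
        exact hu
    rw [h1]
    apply hK.isCompact.inter_right
    apply isClosed_iInter
    intro v
    by_cases hv : (ℓ : 𝓞 F) ∈ v.asIdeal
    · have h2 : {g : D.Ad | (ℓ : 𝓞 F) ∈ v.asIdeal → TrivialAt v g} = {g : D.Ad | TrivialAt v g} := by
        ext g
        exact ⟨fun h => h hv, fun h _ => h⟩
      rw [h2]
      exact d3_isClosed_trivialAt v
    · have h2 : {g : D.Ad | (ℓ : 𝓞 F) ∈ v.asIdeal → TrivialAt v g} = Set.univ := by
        ext g
        exact ⟨fun _ => trivial, fun _ h => absurd h hv⟩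
      rw [h2]
      exact isClosed_univ
  have hKc : IsCompact (K : Set D.Ad) := by
    have h1 : (K : Set D.Ad) = ((U ⊔ K : Subgroup D.Ad) : Set D.Ad) ∩
        ⋂ v : HeightOneSpectrum (𝓞 F), {g | (ℓ : 𝓞 F) ∉ v.asIdeal → TrivialAt v g} := by
      ext g
      constructor
      · intro hg
        refine ⟨(le_sup_right : K ≤ U ⊔ K) hg, ?_⟩
        rw [Set.mem_iInter]
        exact fun v hv => hK.supp g hg v hv
      · rintro ⟨h2, h3⟩
        rw [Set.mem_iInter] at h3
        obtain ⟨u, hu, k, hk, rfl⟩ := (mem_sup_iff hU hK.supp).1 h2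
        have h4 : u = 1 := by
          apply eq_one_of_trivialAt
          intro v
          by_cases hv : (ℓ : 𝓞 F) ∈ v.asIdeal
          · exact hU u hu v hv
          · have h5 : TrivialAt v (u * k) := h3 v hv
            have h6 := h5.mul (hK.supp k hk v hv).inv
            rwa [mul_inv_cancel_right] at h6
        rw [h4, one_mul]
        exact hk
    rw [h1]
    apply hK.isCompact.inter_right
    apply isClosed_iInter
    intro v
    by_cases hv : (ℓ : 𝓞 F) ∈ v.asIdeal
    · have h2 : {g : D.Ad | (ℓ : 𝓞 F) ∉ v.asIdeal → TrivialAt v g} = Set.univ := by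
        ext g
        exact ⟨fun _ => trivial, fun _ h => absurd hv h⟩
      rw [h2]
      exact isClosed_univ
    · have h2 : {g : D.Ad | (ℓ : 𝓞 F) ∉ v.asIdeal → TrivialAt v g} = {g : D.Ad | TrivialAt v g} := by
        ext g
        exact ⟨fun h => h hv, fun h _ => h⟩
      rw [h2]
      exact d3_isClosed_trivialAt v
  have hbad : IsCompact ((fun x : D.Ad × D.Ad => x.1 * x.2) ''
      ((U : Set D.Ad) ×ˢ ((K : Set D.Ad) ∩ (W : Set D.Ad)ᶜ))) :=
    (hUc.prod (hKc.inter_right hW.isClosed_compl)).image continuous_mul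
  have hset : ((U ⊔ (K ⊓ W) : Subgroup D.Ad) : Set D.Ad) =
      ((U ⊔ K : Subgroup D.Ad) : Set D.Ad) ∩ ((fun x : D.Ad × D.Ad => x.1 * x.2) ''
      ((U : Set D.Ad) ×ˢ ((K : Set D.Ad) ∩ (W : Set D.Ad)ᶜ)))ᶜ := by
    ext g
    constructor
    · intro hg
      refine ⟨(sup_le_sup_left inf_le_left U : U ⊔ (K ⊓ W) ≤ U ⊔ K) hg, ?_⟩
      rintro ⟨⟨u', k'⟩, ⟨hu', hk', hkW'⟩, he⟩
      obtain ⟨u, hu, k, hk, rfl⟩ := (mem_sup_iff hU hK').1 hg
      have he' : u' * k' = u * k := he
      have h1 : u⁻¹ * u' = k * k'⁻¹ := by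
        rw [inv_mul_eq_iff_eq_mul, ← mul_assoc, ← he', mul_inv_cancel_right]
      have h2 : k * k'⁻¹ = 1 := by
        apply key
        · rw [← h1]
          exact U.mul_mem (U.inv_mem hu) hu'
        · exact K.mul_mem hk.1 (K.inv_mem hk')
      have h3 : k' = k := by
        rw [mul_inv_eq_one] at h2
        exact h2.symm
      exact hkW' (h3 ▸ hk.2)
    · rintro ⟨h1, h2⟩
      obtain ⟨u, hu, k, hk, rfl⟩ := (mem_sup_iff hU hK.supp).1 h1
      apply (mem_sup_iff hU hK').2
      refine ⟨u, hu, k, ⟨hk, ?_⟩, rfl⟩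
      by_contra hkW
      exact h2 ⟨(u, k), ⟨hu, hk, hkW⟩, rfl⟩
  have hopen : IsOpen ((U ⊔ (K ⊓ W) : Subgroup D.Ad) : Set D.Ad) := by
    rw [hset]
    exact hK.isOpen.inter hbad.isClosed.isOpen_compl
  refine ⟨hK', hopen, ?_⟩
  have hclosed : IsClosed ((U ⊔ (K ⊓ W) : Subgroup D.Ad) : Set D.Ad) :=
    Subgroup.isClosed_of_isOpen _ hopen
  exact hK.isCompact.of_isClosed_subset hclosed
    (sup_le_sup_left inf_le_left U : U ⊔ (K ⊓ W) ≤ U ⊔ K)

/-- The subgroup of the `ε`-periods of an ultrametric function is open.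
Proof: it is a subgroup by the ultrametric inequality (given as `W`); it is open as soon as it
contains a neighbourhood of `1`. For `c` in the finite set `X` of representatives
(`exists_finite_reps` for `V`) the function `(k, w) ↦ φ (c k w) - φ (c k)` is continuous and `0` for
`w = 1`; as `V` is compact there is a neighbourhood `N_c` of `1` with
`‖φ (c k w) - φ (c k)‖ ≤ ε` for all `k ∈ V`, `w ∈ N_c` (tube lemma,
`generalized_tube_lemma`). Take the intersection over `c ∈ X`; every `g` is `γ c k` and `φ` is left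
invariant under `γ`. -/
theorem isOpen_periods [IsTotallyReal F] (hD : IsTotPosDef D.q)
    (hV : IsOpen (V : Set D.Ad)) (hV' : IsCompact (V : Set D.Ad)) (φ : D.Ad → PadicAlgCl ℓ)
    (hφ : Continuous φ) (hleft : ∀ (γ : D.Rat) g, φ (D.toAd γ * g) = φ g) (ε : ℝ) (hε : 0 < ε)
    (W : Subgroup D.Ad) (hW : ∀ w, w ∈ W ↔ ∀ g, ‖φ (g * w) - φ g‖ ≤ ε) :
    IsOpen (W : Set D.Ad) := by
  classical
  obtain ⟨X, hX⟩ := exists_finite_reps hD V hV
  refine d3_isOpen_periods_aux V W hV' X φ hφ ε hε fun w hw => ?_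
  rw [hW]
  intro g
  obtain ⟨γ, c, hc, k, hk, rfl⟩ := hX g
  have h1 := hw c hc k hk
  have h2 : D.toAd γ * c * k * w = D.toAd γ * (c * k * w) := by
    simp only [mul_assoc]
  have h3 : D.toAd γ * c * k = D.toAd γ * (c * k) := by
    simp only [mul_assoc]
  rw [h2, h3, hleft, hleft]
  exact h1

/-- The subgroup of the `ε`-periods.
Proof: define `W` with this carrier. `mul`: `φ (g w w') - φ g = (φ ((g w) w') - φ (g w)) +
(φ (g w) - φ g)`; `inv`: apply the condition for `w` to `g w⁻¹`. -/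
theorem exists_periods (φ : D.Ad → PadicAlgCl ℓ) (ε : ℝ) (hε : 0 < ε) :
    ∃ W : Subgroup D.Ad, ∀ w, w ∈ W ↔ ∀ g, ‖φ (g * w) - φ g‖ ≤ ε := by
  refine ⟨{ carrier := {w | ∀ g, ‖φ (g * w) - φ g‖ ≤ ε}
            mul_mem' := ?_
            one_mem' := ?_
            inv_mem' := ?_ }, fun w => Iff.rfl⟩
  · intro a b ha hb g
    have h1 : φ (g * (a * b)) - φ g = (φ (g * a * b) - φ (g * a)) + (φ (g * a) - φ g) := by
      rw [mul_assoc]
      ring
    rw [h1]
    exact (IsUltrametricDist.norm_add_le_max _ _).trans (max_le (hb (g * a)) (ha g))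
  · intro g
    rw [mul_one, sub_self, norm_zero]
    exact hε.le
  · intro a ha g
    have h1 := ha (g * a⁻¹)
    rwa [inv_mul_cancel_right, norm_sub_rev] at h1

end Pool.Agent.Lib.MP_666dc0_nt.WL
end

section

open NumberField IsDedekindDomain
open scoped NumberField

namespace Pool.Agent.Lib.MP_666dc0_nt.WL

/-!
# WL, C0: finite dimensionality, polynomial functions of bounded degree
-/

variable {F : Type} [Field F] [NumberField F] {n : ℕ} {D : Datum F n}

/-- Proof: there are finitely many embeddings, so `Submodule.span ℂ ({1} ∪ {coord ..})` is finite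
dimensional, and powers of finitely generated submodules are finitely generated
(`Submodule.FG.pow`). -/
theorem finiteDimensional_polyLE (d : ℕ) : FiniteDimensional ℂ (polyLE D d) := by
  have hfin : ({1} ∪ {p | ∃ τ i j, p = coord D τ i j} : Set (D.Cpx → ℂ)).Finite := by
    refine (Set.finite_singleton _).union ?_
    refine (Set.finite_range
      (fun t : (F →+* ℂ) × Fin n × Fin n => coord D t.1 t.2.1 t.2.2)).subset ?_
    rintro p ⟨τ, i, j, rfl⟩
    exact ⟨(τ, i, j), rfl⟩
  exact Module.Finite.iff_fg.2 ((Submodule.fg_span hfin).pow d)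

private theorem c0_one_le : (1 : Submodule ℂ (D.Cpx → ℂ)) ≤
    Submodule.span ℂ ({1} ∪ {p | ∃ τ i j, p = coord D τ i j}) := by
  rw [Submodule.one_le]
  exact Submodule.subset_span (Or.inl rfl)

/-- Proof: `polyLE D 1` contains `1`, so `polyLE D d = polyLE D d * 1 ≤ polyLE D (d+1)`. -/
theorem polyLE_mono {d e : ℕ} (h : d ≤ e) : polyLE D d ≤ polyLE D e := by
  unfold polyLE
  exact pow_le_pow_right' c0_one_le h

/-- Proof: `polyFun` is a subalgebra containing `1` and the coordinates. -/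
theorem polyLE_le_polyFun (d : ℕ) : polyLE D d ≤ Subalgebra.toSubmodule (polyFun D) := by
  induction d with
  | zero =>
    unfold polyLE
    rw [pow_zero, Submodule.one_le]
    exact (polyFun D).one_mem
  | succ d ih =>
    unfold polyLE at ih ⊢
    rw [pow_succ, Submodule.mul_le]
    intro p hp q hq
    have hq' : q ∈ Subalgebra.toSubmodule (polyFun D) := by
      refine (Submodule.span_le.2 ?_ : _ ≤ Subalgebra.toSubmodule (polyFun D)) hq
      rintro r (hr | hr)
      · rw [Set.mem_singleton_iff] at hr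
        rw [hr]
        exact (polyFun D).one_mem
      · exact Algebra.subset_adjoin hr
    exact (polyFun D).mul_mem (ih hp) hq'

/-- Proof: `Algebra.adjoin_induction`; sums by monotonicity, products by
`polyLE D d * polyLE D e ≤ polyLE D (d + e)` (`pow_add`). -/
theorem exists_polyLE {p : D.Cpx → ℂ} (hp : p ∈ polyFun D) : ∃ d, p ∈ polyLE D d := by
  unfold polyFun at hp
  induction hp using Algebra.adjoin_induction with
  | mem x hx =>
    refine ⟨1, ?_⟩
    unfold polyLE
    rw [pow_one]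
    exact Submodule.subset_span (Or.inr hx)
  | algebraMap r =>
    refine ⟨0, ?_⟩
    unfold polyLE
    rw [pow_zero]
    exact Submodule.algebraMap_mem r
  | add x y _ _ hx hy =>
    obtain ⟨d, hd⟩ := hx
    obtain ⟨e, he⟩ := hy
    exact ⟨max d e, Submodule.add_mem _ (polyLE_mono (le_max_left _ _) hd)
      (polyLE_mono (le_max_right _ _) he)⟩
  | mul x y _ _ hx hy =>
    obtain ⟨d, hd⟩ := hx
    obtain ⟨e, he⟩ := hy
    refine ⟨d + e, ?_⟩
    unfold polyLE at hd he ⊢
    rw [pow_add]
    exact Submodule.mul_mem_mul hd he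

private theorem c0_map_le (φ : (D.Cpx → ℂ) →ₐ[ℂ] (D.Cpx → ℂ))
    (h : ∀ τ i j, φ (coord D τ i j) ∈
      Submodule.span ℂ ({1} ∪ {p | ∃ τ i j, p = coord D τ i j} : Set (D.Cpx → ℂ))) (d : ℕ) :
    (polyLE D d).map φ.toLinearMap ≤ polyLE D d := by
  unfold polyLE
  rw [Submodule.map_pow]
  refine pow_le_pow_left' ?_ d
  rw [Submodule.map_span_le]
  rintro p (hp | ⟨τ, i, j, rfl⟩)
  · rw [Set.mem_singleton_iff] at hp
    subst hp
    rw [AlgHom.toLinearMap_apply, map_one]
    exact Submodule.subset_span (Or.inl rfl)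
  · exact h τ i j

private def c0_right (y : D.Cpx) : (D.Cpx → ℂ) →ₐ[ℂ] (D.Cpx → ℂ) where
  toFun p := fun x => p (x * y)
  map_one' := rfl
  map_mul' _ _ := rfl
  map_zero' := rfl
  map_add' _ _ := rfl
  commutes' _ := rfl

private def c0_left (y : D.Cpx) : (D.Cpx → ℂ) →ₐ[ℂ] (D.Cpx → ℂ) where
  toFun p := fun x => p (y * x)
  map_one' := rfl
  map_mul' _ _ := rfl
  map_zero' := rfl
  map_add' _ _ := rfl
  commutes' _ := rfl

private theorem c0_coord_mul (τ : F →+* ℂ) (i j : Fin n) (x y : D.Cpx) :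
    coord D τ i j (x * y) = ∑ k, coord D τ i k x * coord D τ k j y := by
  unfold coord
  rw [Pi.mul_apply, Subgroup.coe_mul, Units.val_mul, Matrix.mul_apply]

/-- Proof: the set of all `p` with `(x ↦ p (x * y)) ∈ polyLE D d`: translation is an algebra
automorphism of the functions; on the generators
`coord τ i j (x * y) = ∑ k, coord τ i k x * (y τ) k j`, a linear combination of generators. So the
span is mapped to itself by translation, and so are its powers (`Submodule.map_pow`). -/
theorem polyLE_trans {d : ℕ} {p : D.Cpx → ℂ} (hp : p ∈ polyLE D d) (y : D.Cpx) :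
    (fun x => p (x * y)) ∈ polyLE D d := by
  refine c0_map_le (c0_right y) ?_ d ⟨p, hp, rfl⟩
  intro τ i j
  have h : c0_right y (coord D τ i j) = ∑ k, coord D τ k j y • coord D τ i k := by
    funext x
    show coord D τ i j (x * y) = _
    rw [c0_coord_mul, Finset.sum_apply]
    refine Finset.sum_congr rfl fun k _ => ?_
    rw [Pi.smul_apply, smul_eq_mul, mul_comm]
  rw [h]
  exact Submodule.sum_mem _ fun k _ => Submodule.smul_mem _ _
    (Submodule.subset_span (Or.inr ⟨τ, i, k, rfl⟩))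

/-- Also for left translations (same proof). -/
theorem polyLE_trans_left {d : ℕ} {p : D.Cpx → ℂ} (hp : p ∈ polyLE D d) (y : D.Cpx) :
    (fun x => p (y * x)) ∈ polyLE D d := by
  refine c0_map_le (c0_left y) ?_ d ⟨p, hp, rfl⟩
  intro τ i j
  have h : c0_left y (coord D τ i j) = ∑ k, coord D τ i k y • coord D τ k j := by
    funext x
    show coord D τ i j (y * x) = _
    rw [c0_coord_mul, Finset.sum_apply]
    rfl
  rw [h]
  exact Submodule.sum_mem _ fun k _ => Submodule.smul_mem _ _
    (Submodule.subset_span (Or.inr ⟨τ, k, j, rfl⟩))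

/-- `polyFun` is stable under right translations. Proof: `exists_polyLE`, `polyLE_trans`,
`polyLE_le_polyFun`. -/
theorem polyFun_trans {p : D.Cpx → ℂ} (hp : p ∈ polyFun D) (y : D.Cpx) :
    (fun x => p (x * y)) ∈ polyFun D := by
  obtain ⟨d, hd⟩ := exists_polyLE hp
  exact polyLE_le_polyFun d (polyLE_trans hd y)

/-- Proof: let `X` be as in `exists_finite_reps`. By `IsForm.left` and `IsForm.right` a form is
determined by its values at the elements of `X`: the linear map `f ↦ (f c)_{c ∈ X}` from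
`forms D Q V` to `X → Q` is injective. -/
theorem finiteDimensional_forms [IsTotallyReal F] (hD : IsTotPosDef D.q)
    (Q : Submodule ℂ (D.Cpx → ℂ)) [FiniteDimensional ℂ Q] (V : Subgroup D.Ad)
    (hV : IsOpen (V : Set D.Ad)) : FiniteDimensional ℂ (forms D Q V) := by
  obtain ⟨X, hX⟩ := exists_finite_reps hD V hV
  let L : forms D Q V →ₗ[ℂ] (X → Q) :=
    { toFun := fun f c => ⟨f.1 c.1, f.2.mem c.1⟩
      map_add' := fun _ _ => rfl
      map_smul' := fun _ _ => rfl }
  refine FiniteDimensional.of_injective L ?_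
  rw [← LinearMap.ker_eq_bot, LinearMap.ker_eq_bot']
  intro f hf
  refine Subtype.ext (funext fun g => funext fun x => ?_)
  obtain ⟨γ, c, hc, k, hk, rfl⟩ := hX g
  have h1 : f.1 c = 0 := congrArg Subtype.val (congrFun hf ⟨c, hc⟩)
  rw [f.2.right _ k hk, f.2.left γ c x, h1]
  rfl

/-- Every form with weights in `Q ≤ polyFun` is a form with weights in `Q ⊓ polyLE D d` for some `d`,
when `Q` is stable under right translation by the `toCpx γ`. Proof: for the finitely many `c ∈ X`
(`exists_finite_reps`) choose `d` with `f c ∈ polyLE D d` (`exists_polyLE`, `polyLE_mono`). For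
`g = γ c k` one has `f g = (f c)(· * toCpx γ)`, in `Q` and in `polyLE D d` by `polyLE_trans`. -/
theorem exists_degree [IsTotallyReal F] (hD : IsTotPosDef D.q) {Q : Submodule ℂ (D.Cpx → ℂ)}
    (hQ : Q ≤ Subalgebra.toSubmodule (polyFun D)) {V : Subgroup D.Ad}
    (hV : IsOpen (V : Set D.Ad)) {f : D.Ad → D.Cpx → ℂ} (hf : IsForm D Q V f) :
    ∃ d, IsForm D (Q ⊓ polyLE D d) V f := by
  obtain ⟨X, hX⟩ := exists_finite_reps hD V hV
  have h1 : ∀ c : D.Ad, ∃ d, f c ∈ polyLE D d := fun c => exists_polyLE (hQ (hf.mem c))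
  choose e he using h1
  refine ⟨X.sup e, ?_, hf.left, hf.right⟩
  intro g
  refine ⟨hf.mem g, ?_⟩
  obtain ⟨γ, c, hc, k, hk, rfl⟩ := hX g
  have h2 : f (D.toAd γ * c * k) = fun x => f c (x * D.toCpx γ) := by
    funext x
    rw [hf.right _ k hk, hf.left γ c x]
  rw [h2]
  exact polyLE_trans (polyLE_mono (Finset.le_sup hc) (he c)) _

end Pool.Agent.Lib.MP_666dc0_nt.WL
end
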