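import Mathlib

section

open NumberField IsDedekindDomain
open scoped NumberField

namespace Pool.Agent.Lib.MP_666dc0_nt.WL

/-!
# WL, C1: commuting families that are stable under adjoints are diagonalisable
-/

private theorem c1_aux {E : Type} [NormedAddCommGroup E] [InnerProductSpace ℂ E]
    [FiniteDimensional ℂ E] {ι : Type} (T : ι → E →ₗ[ℂ] E)
    (hT : ∀ i j x, T i (T j x) = T j (T i x))
    (hadj : ∀ i, ∃ j, ∀ x y, inner ℂ y (T i x) = inner ℂ (T j y) x) (x : E) :
    ∃ l : List E, x = l.sum ∧ ∀ m ∈ l, m ≠ 0 ∧ ∃ χ : ι → ℂ, ∀ i, T i m = χ i • m := by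
  choose j hj using hadj
  have hj' : ∀ i x y, inner ℂ (T i x) y = inner ℂ x (T (j i) y) := by
    intro i x y
    rw [← inner_conj_symm, hj i x y, inner_conj_symm]
  let S : ι × Bool → (E →ₗ[ℂ] E) := fun k =>
    if k.2 = true then T k.1 + T (j k.1) else Complex.I • (T k.1 - T (j k.1))
  have S1 : ∀ i, S (i, true) = T i + T (j i) := fun i => if_pos rfl
  have S2 : ∀ i, S (i, false) = Complex.I • (T i - T (j i)) := fun i => if_neg Bool.false_ne_true
  have hsym : ∀ k, (S k).IsSymmetric := by
    rintro ⟨i, b⟩ x y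
    cases b
    · rw [S2]
      simp only [LinearMap.smul_apply, LinearMap.sub_apply]
      rw [inner_smul_left, inner_smul_right, inner_sub_left, inner_sub_right, hj' i x y,
        ← hj i y x, Complex.conj_I]
      ring
    · rw [S1]
      simp only [LinearMap.add_apply]
      rw [inner_add_left, inner_add_right, hj' i x y, ← hj i y x]
      ring
  have hTc : ∀ i i', Commute (T i) (T i') := by
    intro i i'
    apply LinearMap.ext
    intro x
    exact hT i i' x
  have hcomm : Pairwise (Function.onFun Commute S) := by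
    rintro ⟨i, b⟩ ⟨i', b'⟩ -
    show Commute (S (i, b)) (S (i', b'))
    have h1 : ∀ i b i', Commute (S (i, b)) (T i') := by
      intro i b i'
      cases b
      · rw [S2]
        exact ((hTc i i').sub_left (hTc (j i) i')).smul_left _
      · rw [S1]
        exact (hTc i i').add_left (hTc (j i) i')
    cases b'
    · rw [S2]
      exact ((h1 i b i').sub_right (h1 i b (j i'))).smul_right _
    · rw [S1]
      exact (h1 i b i').add_right (h1 i b (j i'))
  have htop := LinearMap.IsSymmetric.iSup_iInf_eq_top_of_commute hsym hcomm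
  have hx : x ∈ ⨆ χ : ι × Bool → ℂ, ⨅ k, Module.End.eigenspace (S k) (χ k) := by
    rw [htop]
    exact Submodule.mem_top
  induction hx using Submodule.iSup_induction' with
  | mem χ y hy =>
    by_cases hy0 : y = 0
    · exact ⟨[], by rw [hy0, List.sum_nil], fun m hm => absurd hm List.not_mem_nil⟩
    · refine ⟨[y], by rw [List.sum_singleton], fun m hm => ?_⟩
      have hm' : m = y := List.mem_singleton.1 hm
      rw [hm']
      refine ⟨hy0, fun i => (χ (i, true) - Complex.I * χ (i, false)) / 2, fun i => ?_⟩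
      have e1 := Module.End.mem_eigenspace_iff.1 ((Submodule.mem_iInf _).1 hy (i, true))
      have e2 := Module.End.mem_eigenspace_iff.1 ((Submodule.mem_iInf _).1 hy (i, false))
      rw [S1, LinearMap.add_apply] at e1
      rw [S2, LinearMap.smul_apply, LinearMap.sub_apply] at e2
      have e3 : T i y - T (j i) y = (-Complex.I * χ (i, false)) • y := by
        rw [mul_smul, ← e2, smul_smul]
        have h : -Complex.I * Complex.I = 1 := by
          rw [neg_mul, Complex.I_mul_I, neg_neg]
        rw [h, one_smul]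
      have e4 : (2 : ℂ) • T i y = (χ (i, true) - Complex.I * χ (i, false)) • y := by
        have h : (2 : ℂ) • T i y = (T i y + T (j i) y) + (T i y - T (j i) y) := by
          rw [two_smul]
          abel
        rw [h, e1, e3, ← add_smul]
        congr 1
        ring
      have e5 : T i y = (2 : ℂ)⁻¹ • ((2 : ℂ) • T i y) := by
        rw [smul_smul, inv_mul_cancel₀ (two_ne_zero), one_smul]
      rw [e5, e4, smul_smul]
      congr 1
      ring
  | zero => exact ⟨[], by rw [List.sum_nil], fun m hm => absurd hm List.not_mem_nil⟩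
  | add y z _ _ h1 h2 =>
    obtain ⟨l1, a1, b1⟩ := h1
    obtain ⟨l2, a2, b2⟩ := h2
    refine ⟨l1 ++ l2, by rw [List.sum_append, ← a1, ← a2], fun m hm => ?_⟩
    rcases List.mem_append.1 hm with h | h
    · exact b1 m h
    · exact b2 m h

/-- A commuting family of endomorphisms of a finite-dimensional space with a positive definite
Hermitian form `B` (linear in the first variable) that is stable under adjoints is simultaneously
diagonalisable.
Proof: make `M` an inner product space by `InnerProductSpace.Core` (with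
`inner x y = B y x`, since Mathlib's inner product is linear in the second variable). For `i` choose
`j i` with `B (T i x) y = B x (T (j i) y)`. The endomorphisms `T i + T (j i)` and
`Complex.I • (T i - T (j i))` (index set `ι × Bool`) are symmetric and commute, so by
`LinearMap.IsSymmetric.iSup_iInf_eq_top_of_commute` (file
`Mathlib/Analysis/InnerProductSpace/JointEigenspace.lean`) `M` is the sum of their joint
eigenspaces, and `T i` is a linear combination of the two. Then `x` is a finite sum of elements of the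
joint eigenspaces by `Submodule.mem_iSup_iff_exists_finsupp` or `Submodule.iSup_induction`
(the predicate: is a sum over a list of joint eigenvectors); the statement below uses a list. -/
theorem exists_joint_eigenvectors {M : Type} [AddCommGroup M] [Module ℂ M]
    [FiniteDimensional ℂ M] (B : M → M → ℂ) (hadd : ∀ x y z, B (x + y) z = B x z + B y z)
    (hsmul : ∀ (c : ℂ) x y, B (c • x) y = c * B x y)
    (hconj : ∀ x y, B y x = starRingEnd ℂ (B x y)) (hpos : ∀ x, x ≠ 0 → 0 < (B x x).re)
    {ι : Type} (T : ι → M →ₗ[ℂ] M) (hT : ∀ i j x, T i (T j x) = T j (T i x))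
    (hadj : ∀ i, ∃ j, ∀ x y, B (T i x) y = B x (T j y)) (x : M) :
    ∃ l : List M, x = l.sum ∧ ∀ m ∈ l, m ≠ 0 ∧ ∃ χ : ι → ℂ, ∀ i, T i m = χ i • m := by
  have h0 : ∀ y, B 0 y = 0 := by
    intro y
    have h := hsmul 0 0 y
    rwa [zero_smul, zero_mul] at h
  let core : InnerProductSpace.Core ℂ M :=
    { inner := fun x y => B y x
      conj_inner_symm := fun x y => (hconj x y).symm
      re_inner_nonneg := fun x => by
        by_cases hx : x = 0
        · show 0 ≤ (B x x).re
          rw [hx, h0]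
          exact le_refl _
        · exact (hpos x hx).le
      add_left := fun x y z => by
        show B z (x + y) = B z x + B z y
        rw [hconj (x + y) z, hadd, map_add, ← hconj, ← hconj]
      smul_left := fun x y r => by
        show B y (r • x) = starRingEnd ℂ r * B y x
        rw [hconj (r • x) y, hsmul, map_mul, ← hconj]
      definite := fun x hx => by
        by_contra hne
        have h1 := hpos x hne
        have h2 : B x x = 0 := hx
        rw [h2] at h1
        exact lt_irrefl _ h1 }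
  let _ : NormedAddCommGroup M := @InnerProductSpace.Core.toNormedAddCommGroup ℂ M _ _ _ core
  let _ : InnerProductSpace ℂ M := InnerProductSpace.ofCore core.toCore
  refine c1_aux T hT (fun i => ?_) x
  obtain ⟨j, hj⟩ := hadj i
  exact ⟨j, fun x y => hj x y⟩

end Pool.Agent.Lib.MP_666dc0_nt.WL
end

section

open NumberField IsDedekindDomain
open scoped NumberField

namespace Pool.Agent.Lib.MP_666dc0_nt.WL

/-!
# WL, C4: unfolding
-/

private theorem C4_fin_orbit {Γ Y : Type} [Group Γ] [MulAction Γ Y]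
    (hfin : ∀ y y' : Y, {γ : Γ | γ • y = y'}.Finite) {S : Set Y} (hS : S.Finite) (y : Y) :
    {γ : Γ | γ • y ∈ S}.Finite := by
  have : {γ : Γ | γ • y ∈ S} = ⋃ s ∈ S, {γ : Γ | γ • y = s} := by
    ext γ
    simp
  rw [this]
  exact hS.biUnion fun s _ => hfin y s

/-- Proof: let `w₀ y = 1` for `y ∈ X` and `0` otherwise, and `s y = ∑ᶠ γ, w₀ (γ • y)`, a finite
sum (`hfin`), positive by `hX`, and `s (γ • y) = s y`. Take `w y = w₀ y / s y`. -/
theorem exists_weight {Γ Y : Type} [Group Γ] [MulAction Γ Y]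
    (hfin : ∀ y y' : Y, {γ : Γ | γ • y = y'}.Finite) (X : Finset Y)
    (hX : ∀ y : Y, ∃ γ : Γ, γ • y ∈ X) :
    ∃ w : Y → ℝ, (∀ y, 0 ≤ w y) ∧ (Function.support w).Finite ∧
      (∀ y, ∑ᶠ γ : Γ, w (γ • y) = 1) ∧ ∀ y, (Function.support fun γ : Γ => w (γ • y)).Finite := by
  classical
  set w₀ : Y → ℝ := fun y => if y ∈ X then 1 else 0 with hw₀
  set s : Y → ℝ := fun y => ∑ᶠ γ : Γ, w₀ (γ • y) with hs
  have hw₀n : ∀ y, 0 ≤ w₀ y := by
    intro y
    simp only [hw₀]
    split_ifs <;> norm_num
  have hXfin : (X : Set Y).Finite := X.finite_toSet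
  have hsup : ∀ y, (Function.support fun γ : Γ => w₀ (γ • y)).Finite := by
    intro y
    refine (C4_fin_orbit hfin hXfin y).subset ?_
    intro γ hγ
    by_contra hn
    apply hγ
    have hn' : ¬ (γ • y ∈ X) := fun h => hn (by simpa using h)
    simp [hw₀, hn']
  have hspos : ∀ y, 0 < s y := by
    intro y
    obtain ⟨γ, hγ⟩ := hX y
    have h1 : s y = ∑ δ ∈ (hsup y).toFinset, w₀ (δ • y) := by
      simp only [hs]
      exact finsum_eq_sum _ (hsup y)
    rw [h1]
    refine Finset.sum_pos' (fun i _ => hw₀n _) ⟨γ, ?_, ?_⟩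
    · rw [Set.Finite.mem_toFinset, Function.mem_support]
      simp [hw₀, hγ]
    · simp [hw₀, hγ]
  have hsinv : ∀ (δ : Γ) y, s (δ • y) = s y := by
    intro δ y
    simp only [hs]
    have := finsum_comp_equiv (Equiv.mulRight δ) (f := fun γ : Γ => w₀ (γ • y))
    rw [← this]
    refine finsum_congr fun γ => ?_
    simp [mul_smul]
  refine ⟨fun y => w₀ y / s y, fun y => div_nonneg (hw₀n y) (hspos y).le, ?_, ?_, ?_⟩
  · refine hXfin.subset ?_
    intro y hy
    by_contra hn
    apply hy
    have hn' : ¬ (y ∈ X) := fun h => hn (by simpa using h)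
    simp [hw₀, hn']
  · intro y
    have h1 : (fun γ : Γ => w₀ (γ • y) / s (γ • y)) = fun γ : Γ => w₀ (γ • y) * (s y)⁻¹ := by
      funext γ
      rw [hsinv, div_eq_mul_inv]
    change ∑ᶠ γ : Γ, (fun γ : Γ => w₀ (γ • y) / s (γ • y)) γ = 1
    rw [h1, ← finsum_mul]
    exact mul_inv_cancel₀ (hspos y).ne'
  · intro y
    refine (hsup y).subset ?_
    intro γ hγ h0
    apply hγ
    have h0' : w₀ (γ • y) = 0 := h0
    simp [h0']

private theorem C4_aux {Γ Y : Type} [Group Γ] [MulAction Γ Y]
    (hfin : ∀ y y' : Y, {γ : Γ | γ • y = y'}.Finite) (w : Y → ℝ)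
    (hw : (Function.support w).Finite) (hw1 : ∀ y, ∑ᶠ γ : Γ, w (γ • y) = 1) (Φ : Y → Y → ℂ)
    (hrow : ∀ x, (Function.support (Φ x)).Finite) :
    ∑ᶠ x, (w x : ℂ) * ∑ᶠ z, Φ x z =
      ∑ᶠ p : Y × Y × Γ, (w p.1 : ℂ) * (w (p.2.2 • p.2.1) : ℂ) * Φ p.1 p.2.1 := by
  classical
  have hγ : ∀ z, (Function.support fun γ : Γ => (w (γ • z) : ℂ)).Finite := by
    intro z
    refine (C4_fin_orbit hfin hw z).subset ?_
    intro γ hγ
    have : (w (γ • z) : ℂ) ≠ 0 := hγ
    simp only [Set.mem_ofPred_eq, Function.mem_support]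
    exact_mod_cast this
  have hfs : (Function.support fun p : Y × Y × Γ =>
      (w p.1 : ℂ) * (w (p.2.2 • p.2.1) : ℂ) * Φ p.1 p.2.1).Finite := by
    have hbig : (⋃ x ∈ Function.support w, ⋃ z ∈ Function.support (Φ x),
        (fun γ : Γ => (x, z, γ)) '' {γ : Γ | γ • z ∈ Function.support w}).Finite :=
      hw.biUnion fun x _ => (hrow x).biUnion fun z _ => (C4_fin_orbit hfin hw z).image _
    refine hbig.subset ?_
    rintro ⟨x, z, γ⟩ hp
    have hp' : (w x : ℂ) * (w (γ • z) : ℂ) * Φ x z ≠ 0 := hp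
    have h1 : w x ≠ 0 := by
      intro h; apply hp'; simp [h]
    have h2 : w (γ • z) ≠ 0 := by
      intro h; apply hp'; simp [h]
    have h3 : Φ x z ≠ 0 := by
      intro h; apply hp'; simp [h]
    simp only [Set.mem_iUnion]
    exact ⟨x, h1, z, h3, γ, h2, rfl⟩
  rw [finsum_curry _ hfs]
  refine finsum_congr fun x => ?_
  have hfs2 : (Function.support fun q : Y × Γ =>
      (w x : ℂ) * (w (q.2 • q.1) : ℂ) * Φ x q.1).Finite := by
    have := hfs.preimage (f := fun q : Y × Γ => ((x, q) : Y × Y × Γ))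
      (fun a _ b _ h => (Prod.mk.inj h).2)
    exact this
  change _ = ∑ᶠ q : Y × Γ, (fun q : Y × Γ => (w x : ℂ) * (w (q.2 • q.1) : ℂ) * Φ x q.1) q
  rw [finsum_curry _ hfs2, mul_finsum]
  refine finsum_congr fun z => ?_
  have h1 : (∑ᶠ γ : Γ, (w (γ • z) : ℂ)) = 1 := by
    have h2 := hw1 z
    have hr : (Function.support fun γ : Γ => w (γ • z)).Finite := C4_fin_orbit hfin hw z
    have := (Complex.ofRealHom : ℝ →+* ℂ).toAddMonoidHom.map_finsum hr
    rw [h2] at this
    simpa using this.symm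
  have h3 : (fun γ : Γ => (w x : ℂ) * (w (γ • z) : ℂ) * Φ x z) =
      fun γ : Γ => ((w x : ℂ) * Φ x z) * (w (γ • z) : ℂ) := by
    funext γ
    ring
  change _ = ∑ᶠ γ : Γ, (fun γ : Γ => (w x : ℂ) * (w (γ • z) : ℂ) * Φ x z) γ
  rw [h3, ← mul_finsum, h1, mul_one]

/-- Unfolding: for a `Γ`-invariant function `Φ` on `Y × Y` with finite rows and columns.
Proof: `∑_x w x ∑_z Φ x z = ∑_{x, z, γ} w x * w (γ z) * Φ x z`, a finite sum (`x` in the finite
support of `w`, `z` in a finite row, `γ` with `γ z` in the support of `w`). Substitute `x' = γ x`,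
`z' = γ z` (so `Φ x z = Φ x' z'`), and get `∑_{z'} w z' ∑_{x'} Φ x' z' ∑_γ w (γ⁻¹ x')`, where the
last sum is `1`. For the formal proof: all sums can be taken as sums over the finite set of triples
`(x, z, γ)` with non-zero term, `finsum_mem_eq..`/`finsum_comp_equiv`; the bijection
`(x, z, γ) ↦ (γ x, γ z, γ⁻¹)`. -/
theorem unfolding {Γ Y : Type} [Group Γ] [MulAction Γ Y]
    (hfin : ∀ y y' : Y, {γ : Γ | γ • y = y'}.Finite) (w : Y → ℝ)
    (hw : (Function.support w).Finite) (hw1 : ∀ y, ∑ᶠ γ : Γ, w (γ • y) = 1) (Φ : Y → Y → ℂ)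
    (hΦ : ∀ (γ : Γ) x z, Φ (γ • x) (γ • z) = Φ x z)
    (hrow : ∀ x, (Function.support (Φ x)).Finite)
    (hcol : ∀ z, (Function.support fun x => Φ x z).Finite) :
    ∑ᶠ x, (w x : ℂ) * ∑ᶠ z, Φ x z = ∑ᶠ z, (w z : ℂ) * ∑ᶠ x, Φ x z := by
  classical
  rw [C4_aux hfin w hw hw1 Φ hrow, C4_aux hfin w hw hw1 (fun z x => Φ x z) hcol]
  let e : Y × Y × Γ ≃ Y × Y × Γ :=
    { toFun := fun p => (p.2.2 • p.2.1, p.2.2 • p.1, p.2.2⁻¹)
      invFun := fun p => (p.2.2 • p.2.1, p.2.2 • p.1, p.2.2⁻¹)
      left_inv := fun p => by simp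
      right_inv := fun p => by simp }
  rw [← finsum_comp_equiv e]
  refine finsum_congr fun p => ?_
  obtain ⟨x, z, γ⟩ := p
  simp only [e, Equiv.coe_fn_mk, inv_smul_smul, hΦ]
  ring

end Pool.Agent.Lib.MP_666dc0_nt.WL
end

section

open NumberField IsDedekindDomain
open scoped NumberField

namespace Pool.Agent.Lib.MP_666dc0_nt.WL

/-!
# WL, C2: bounded groups of matrices are unitary
-/

private lemma C2_isCompact_closure {N : ℕ} (Γ : Subgroup (GL (Fin N) ℂ))
    (hb : ∃ C : ℝ, ∀ g ∈ Γ, ∀ i j, ‖(g : Matrix (Fin N) (Fin N) ℂ) i j‖ ≤ C) :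
    IsCompact (closure (Γ : Set (GL (Fin N) ℂ))) := by
  obtain ⟨C, hC⟩ := hb
  have hS : IsCompact (Set.univ.pi fun _ : Fin N =>
      Set.univ.pi fun _ : Fin N => Metric.closedBall (0 : ℂ) C) :=
    isCompact_univ_pi fun _ => isCompact_univ_pi fun _ => isCompact_closedBall _ _
  have hS' : IsCompact ((Set.univ.pi fun _ : Fin N =>
      Set.univ.pi fun _ : Fin N => Metric.closedBall (0 : ℂ) C) : Set (Matrix (Fin N) (Fin N) ℂ)) :=
    hS
  have hT := hS'.prod (hS'.image MulOpposite.continuous_op)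
  have hK := (Units.isClosedEmbedding_embedProduct
    (α := Matrix (Fin N) (Fin N) ℂ)).isCompact_preimage hT
  refine IsCompact.of_isClosed_subset (X := GL (Fin N) ℂ) hK isClosed_closure ?_
  refine closure_minimal ?_ hK.isClosed
  intro g hg
  refine ⟨?_, ?_⟩
  · intro i _ j _
    rw [mem_closedBall_zero_iff]
    exact hC g hg i j
  · refine ⟨((g⁻¹ : GL (Fin N) ℂ) : Matrix (Fin N) (Fin N) ℂ), ?_, rfl⟩
    intro i _ j _
    rw [mem_closedBall_zero_iff]
    exact hC g⁻¹ (Γ.inv_mem hg) i j

private lemma C2_dot_re {N : ℕ} (A : Matrix (Fin N) (Fin N) ℂ) (x : Fin N → ℂ) :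
    (star x ⬝ᵥ (A.conjTranspose * A).mulVec x).re = ∑ i, ‖A.mulVec x i‖ ^ 2 := by
  rw [← Matrix.mulVec_mulVec, Matrix.dotProduct_mulVec, ← Matrix.star_mulVec, dotProduct,
    Complex.re_sum]
  refine Finset.sum_congr rfl fun i _ => ?_
  rw [Pi.star_apply, RCLike.star_def, ← Complex.normSq_eq_conj_mul_self, Complex.ofReal_re,
    Complex.normSq_eq_norm_sq]

/-- A group of complex matrices with bounded entries leaves a positive definite Hermitian form
invariant.
Proof: the closure `K` of `Γ` in the space of matrices is compact (closed and bounded). It consists of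
invertible matrices (`‖det g‖ = 1` on `Γ`: the powers of `det g` and of `det g⁻¹` are bounded), so it
is a compact group; more precisely the closure of `Γ` in `GL (Fin N) ℂ` is compact (the pairs
`(g, g⁻¹)` are bounded and form a closed set). Let `μ` be the Haar measure on this compact group `K`
(`MeasureTheory.Measure.haar`, finite and non-zero) and `H = ∫ (k⁻¹)ᴴ k⁻¹ dμ(k)` (entrywise integral
of a continuous function on a compact space). Then `xᴴ H x = ∫ ‖k⁻¹ x‖² dμ > 0` for `x ≠ 0`, and
`gᴴ H g = ∫ (k⁻¹ g)ᴴ (k⁻¹ g) dμ = ∫ φ (g⁻¹ k) dμ(k) = ∫ φ dμ = H`, where `φ k = (k⁻¹)ᴴ k⁻¹`, by left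
invariance of `μ` (`MeasureTheory.integral_mul_left_eq_self`). -/
theorem exists_posDef_invariant {N : ℕ} (Γ : Subgroup (GL (Fin N) ℂ))
    (hb : ∃ C : ℝ, ∀ g ∈ Γ, ∀ i j, ‖(g : Matrix (Fin N) (Fin N) ℂ) i j‖ ≤ C) :
    ∃ H : Matrix (Fin N) (Fin N) ℂ, H.IsHermitian ∧
      (∀ x : Fin N → ℂ, x ≠ 0 → 0 < (star x ⬝ᵥ H.mulVec x).re) ∧
      ∀ g ∈ Γ, (g : Matrix (Fin N) (Fin N) ℂ).conjTranspose * H * g = H := by
  classical
  have hcomp := C2_isCompact_closure Γ hb
  set K : Subgroup (GL (Fin N) ℂ) := Γ.topologicalClosure with hKdef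
  have hKcomp : IsCompact (K : Set (GL (Fin N) ℂ)) := by
    rw [hKdef, Subgroup.topologicalClosure_coe]
    exact hcomp
  have : CompactSpace K := isCompact_iff_compactSpace.1 hKcomp
  let _ : MeasurableSpace K := borel K
  have : BorelSpace K := ⟨rfl⟩
  let μ : MeasureTheory.Measure K := MeasureTheory.Measure.haar
  let φ : K → Matrix (Fin N) (Fin N) ℂ := fun k =>
    (((k⁻¹ : K) : GL (Fin N) ℂ) : Matrix (Fin N) (Fin N) ℂ).conjTranspose *
      (((k⁻¹ : K) : GL (Fin N) ℂ) : Matrix (Fin N) (Fin N) ℂ)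
  have hval : Continuous fun k : K => (((k⁻¹ : K) : GL (Fin N) ℂ) : Matrix (Fin N) (Fin N) ℂ) :=
    Units.continuous_val.comp (continuous_subtype_val.comp continuous_inv)
  have hφ : Continuous φ := (hval.matrix_conjTranspose).matrix_mul hval
  have hφij : ∀ i j, Continuous fun k => φ k i j := fun i j =>
    (continuous_apply j).comp ((continuous_apply i).comp hφ)
  have hint : ∀ i j, MeasureTheory.Integrable (fun k => φ k i j) μ := fun i j =>
    (hφij i j).integrable_of_hasCompactSupport (HasCompactSupport.of_compactSpace _)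
  let H : Matrix (Fin N) (Fin N) ℂ := Matrix.of fun i j => ∫ k, φ k i j ∂μ
  have hL : ∀ c : Fin N → Fin N → ℂ,
      ∑ i, ∑ j, c i j * H i j = ∫ k, ∑ i, ∑ j, c i j * φ k i j ∂μ := by
    intro c
    rw [MeasureTheory.integral_finsetSum]
    · refine Finset.sum_congr rfl fun i _ => ?_
      rw [MeasureTheory.integral_finsetSum]
      · refine Finset.sum_congr rfl fun j _ => ?_
        rw [MeasureTheory.integral_const_mul]
        rfl
      · intro j _
        exact (hint i j).const_mul _
    · intro i _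
      exact MeasureTheory.integrable_finsetSum _ fun j _ => (hint i j).const_mul _
  refine ⟨H, ?_, ?_, ?_⟩
  · ext i j
    change star (∫ k, φ k j i ∂μ) = ∫ k, φ k i j ∂μ
    rw [RCLike.star_def, ← integral_conj]
    congr 1
    ext k
    have h1 : (φ k).IsHermitian := Matrix.isHermitian_conjTranspose_mul_self _
    have h2 := h1.apply i j
    rw [← RCLike.star_def]
    exact h2
  · intro x hx
    have hexp : ∀ A : Matrix (Fin N) (Fin N) ℂ,
        star x ⬝ᵥ A.mulVec x = ∑ i, ∑ j, (star (x i) * x j) * A i j := by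
      intro A
      simp only [dotProduct, Matrix.mulVec, Pi.star_apply, Finset.mul_sum]
      refine Finset.sum_congr rfl fun i _ => Finset.sum_congr rfl fun j _ => ?_
      ring
    rw [hexp H, hL]
    have hF : Continuous fun k : K => ∑ i, ∑ j, (star (x i) * x j) * φ k i j := by
      refine continuous_finsetSum _ fun i _ => continuous_finsetSum _ fun j _ => ?_
      exact continuous_const.mul (hφij i j)
    have hFint : MeasureTheory.Integrable
        (fun k : K => ∑ i, ∑ j, (star (x i) * x j) * φ k i j) μ :=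
      hF.integrable_of_hasCompactSupport (HasCompactSupport.of_compactSpace _)
    have hre : (∫ k, ∑ i, ∑ j, (star (x i) * x j) * φ k i j ∂μ).re =
        ∫ k, (∑ i, ∑ j, (star (x i) * x j) * φ k i j).re ∂μ :=
      (Complex.reCLM.integral_comp_comm hFint).symm
    rw [hre]
    have hval2 : ∀ k : K, (∑ i, ∑ j, (star (x i) * x j) * φ k i j).re =
        ∑ i, ‖(((k⁻¹ : K) : GL (Fin N) ℂ) : Matrix (Fin N) (Fin N) ℂ).mulVec x i‖ ^ 2 := by
      intro k
      rw [← hexp (φ k)]
      exact C2_dot_re _ x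
    refine Continuous.integral_pos_of_hasCompactSupport_nonneg_nonzero (x := (1 : K))
      (Complex.continuous_re.comp hF) (HasCompactSupport.of_compactSpace _) ?_ ?_
    · intro k
      change (0 : ℝ) ≤ (∑ i, ∑ j, (star (x i) * x j) * φ k i j).re
      rw [hval2 k]
      exact Finset.sum_nonneg fun i _ => sq_nonneg _
    · rw [hval2 1]
      obtain ⟨i₀, hi₀⟩ : ∃ i, x i ≠ 0 := by
        by_contra hcon
        push Not at hcon
        exact hx (funext hcon)
      have hpos : 0 < ∑ i, ‖((((1 : K)⁻¹ : K) : GL (Fin N) ℂ) :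
          Matrix (Fin N) (Fin N) ℂ).mulVec x i‖ ^ 2 := by
        refine Finset.sum_pos' (fun i _ => sq_nonneg _) ⟨i₀, Finset.mem_univ _, ?_⟩
        simp only [inv_one, OneMemClass.coe_one, Units.val_one, Matrix.one_mulVec]
        positivity
      exact hpos.ne'
  · intro g hg
    have hexp : ∀ (A : Matrix (Fin N) (Fin N) ℂ) (i j : Fin N),
        ((g : Matrix (Fin N) (Fin N) ℂ).conjTranspose * A * g) i j =
          ∑ a, ∑ b, (star ((g : Matrix (Fin N) (Fin N) ℂ) a i) *
            (g : Matrix (Fin N) (Fin N) ℂ) b j) * A a b := by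
      intro A i j
      rw [Matrix.mul_apply]
      simp only [Matrix.mul_apply, Matrix.conjTranspose_apply, Finset.sum_mul]
      rw [Finset.sum_comm]
      refine Finset.sum_congr rfl fun a _ => Finset.sum_congr rfl fun b _ => ?_
      ring
    ext i j
    rw [hexp H i j, hL]
    have hgK : g ∈ K := Subgroup.le_topologicalClosure Γ hg
    have hshift : ∀ k : K, ∑ a, ∑ b, (star ((g : Matrix (Fin N) (Fin N) ℂ) a i) *
        (g : Matrix (Fin N) (Fin N) ℂ) b j) * φ k a b = φ ((⟨g, hgK⟩ : K)⁻¹ * k) i j := by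
      intro k
      rw [← hexp (φ k) i j]
      have h1 : (((((⟨g, hgK⟩ : K)⁻¹ * k)⁻¹ : K) : GL (Fin N) ℂ) : Matrix (Fin N) (Fin N) ℂ) =
          (((k⁻¹ : K) : GL (Fin N) ℂ) : Matrix (Fin N) (Fin N) ℂ) * (g : Matrix (Fin N) (Fin N) ℂ) := by
        rw [mul_inv_rev, inv_inv]
        rfl
      simp only [φ]
      rw [h1, Matrix.conjTranspose_mul]
      simp only [Matrix.mul_assoc]
    simp only [hshift]
    exact MeasureTheory.integral_mul_left_eq_self (μ := μ) (fun k => φ k i j) (⟨g, hgK⟩ : K)⁻¹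

end Pool.Agent.Lib.MP_666dc0_nt.WL
end

section

open NumberField IsDedekindDomain
open scoped NumberField

namespace Pool.Agent.Lib.MP_666dc0_nt.WL

/-!
# WL, C3: invariant forms on spaces of functions
-/

/-- Let `Γ` act on `X` from the right (`act γ x = x γ`), and let `Q` be a finite-dimensional space of
functions on `X`, stable under `Γ`, such that every `p ∈ Q` is bounded on every orbit. Then there is
a Hermitian form `B` (on all functions) that is positive definite and `Γ`-invariant on `Q`.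
Proof: let `p 1, …, p N` be a basis of `Q`. The evaluations at the points of `X` span the dual of
`Q` (a `p ∈ Q` with `p x = 0` for all `x` is `0`), so there are points `x 1, …, x N` such that
`p ↦ (p (x i))_i` is an isomorphism from `Q` to `ℂ^N`. The matrices of the translations `R γ` (with
`(R γ p) x = p (x γ)`) in the basis of `Q` corresponding to the standard basis of `ℂ^N` are bounded,
since `(R γ p) (x i) = p (x i γ)` is bounded in `γ`. They form a group (`R (γ δ) = R γ ∘ R δ`).
Let `H` be as in `exists_posDef_invariant` (applied to the range of this homomorphism to `GL_N`)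
and let `B p q = (coordinates of π p, π q)` paired by `H`, where `π` is a linear projection of
`X → ℂ` onto `Q` (`Submodule.exists_isCompl`, `LinearMap.exists_extend`); linear in `p`,
conjugate-linear in `q`. -/
theorem exists_invariant_form {X Γ : Type} [Group Γ] (act : Γ → X → X)
    (hact1 : ∀ x, act 1 x = x) (hact : ∀ γ δ x, act (γ * δ) x = act δ (act γ x))
    (Q : Submodule ℂ (X → ℂ)) [FiniteDimensional ℂ Q]
    (hQ : ∀ γ, ∀ p ∈ Q, (fun x => p (act γ x)) ∈ Q)
    (hb : ∀ p ∈ Q, ∀ x, ∃ C : ℝ, ∀ γ, ‖p (act γ x)‖ ≤ C) :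
    ∃ B : (X → ℂ) → (X → ℂ) → ℂ, (∀ p q r, B (p + q) r = B p r + B q r) ∧
      (∀ (c : ℂ) p q, B (c • p) q = c * B p q) ∧ (∀ p q, B q p = starRingEnd ℂ (B p q)) ∧
      (∀ p, 0 ≤ (B p p).re) ∧ (∀ p ∈ Q, p ≠ 0 → 0 < (B p p).re) ∧
      ∀ γ, ∀ p ∈ Q, ∀ q ∈ Q, B (fun x => p (act γ x)) (fun x => q (act γ x)) = B p q := by
  classical
  obtain ⟨N, hN⟩ : ∃ N, N = Module.finrank ℂ Q := ⟨_, rfl⟩
  subst hN
  let b : Module.Basis (Fin (Module.finrank ℂ Q)) ℂ Q := Module.finBasis ℂ Q
  let R : Γ → (Q →ₗ[ℂ] Q) := fun γ =>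
    { toFun := fun p => ⟨fun x => p.1 (act γ x), hQ γ p.1 p.2⟩
      map_add' := fun p q => rfl
      map_smul' := fun c p => rfl }
  have hR1 : R 1 = LinearMap.id := by
    apply LinearMap.ext
    intro p
    apply Subtype.ext
    funext x
    change p.1 (act 1 x) = p.1 x
    rw [hact1]
  have hRm : ∀ γ δ, R (γ * δ) = R γ * R δ := by
    intro γ δ
    apply LinearMap.ext
    intro p
    apply Subtype.ext
    funext x
    change p.1 (act (γ * δ) x) = p.1 (act δ (act γ x))
    rw [hact]
  let M : Γ →* Matrix (Fin (Module.finrank ℂ Q)) (Fin (Module.finrank ℂ Q)) ℂ :=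
    { toFun := fun γ => LinearMap.toMatrix b b (R γ)
      map_one' := by rw [hR1, LinearMap.toMatrix_id]
      map_mul' := fun γ δ => by rw [hRm, LinearMap.toMatrix_mul] }
  let ρ : Γ →* GL (Fin (Module.finrank ℂ Q)) ℂ := M.toHomUnits
  have hρ : ∀ γ, (ρ γ : Matrix (Fin (Module.finrank ℂ Q)) (Fin (Module.finrank ℂ Q)) ℂ) =
      LinearMap.toMatrix b b (R γ) := fun γ => rfl
  -- every functional is bounded along the orbits
  have hdual : ∀ φ : Module.Dual ℂ Q, ∀ p : Q, ∃ C : ℝ, ∀ γ, ‖φ (R γ p)‖ ≤ C := by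
    let ev : X → Module.Dual ℂ Q := fun x =>
      { toFun := fun p => p.1 x
        map_add' := fun p q => rfl
        map_smul' := fun c p => rfl }
    have htop : Submodule.span ℂ (Set.range ev) = ⊤ := by
      rw [← Subspace.dualCoannihilator_dualAnnihilator_eq (W := Submodule.span ℂ (Set.range ev))]
      have h0 : (Submodule.span ℂ (Set.range ev)).dualCoannihilator = ⊥ := by
        rw [eq_bot_iff]
        intro p hp
        rw [Submodule.mem_dualCoannihilator] at hp
        rw [Submodule.mem_bot]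
        apply Subtype.ext
        funext x
        exact hp (ev x) (Submodule.subset_span ⟨x, rfl⟩)
      rw [h0, Submodule.dualAnnihilator_bot]
    intro φ
    have hφ : φ ∈ Submodule.span ℂ (Set.range ev) := by
      rw [htop]
      exact Submodule.mem_top
    induction hφ using Submodule.span_induction with
    | mem φ h =>
      obtain ⟨x, rfl⟩ := h
      intro p
      exact hb p.1 p.2 x
    | zero =>
      intro p
      exact ⟨0, fun γ => by simp⟩
    | add φ ψ _ _ h1 h2 =>
      intro p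
      obtain ⟨C1, hC1⟩ := h1 p
      obtain ⟨C2, hC2⟩ := h2 p
      exact ⟨C1 + C2, fun γ => by
        rw [LinearMap.add_apply]
        exact (norm_add_le _ _).trans (add_le_add (hC1 γ) (hC2 γ))⟩
    | smul c φ _ h1 =>
      intro p
      obtain ⟨C1, hC1⟩ := h1 p
      exact ⟨‖c‖ * C1, fun γ => by
        rw [LinearMap.smul_apply, norm_smul]
        exact mul_le_mul_of_nonneg_left (hC1 γ) (norm_nonneg _)⟩
  have hbound : ∃ C : ℝ, ∀ g ∈ ρ.range, ∀ i j,
      ‖(g : Matrix (Fin (Module.finrank ℂ Q)) (Fin (Module.finrank ℂ Q)) ℂ) i j‖ ≤ C := by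
    choose C hC using fun (i j : Fin (Module.finrank ℂ Q)) => hdual (b.coord i) (b j)
    refine ⟨∑ i, ∑ j, |C i j|, ?_⟩
    rintro g ⟨γ, rfl⟩ i j
    rw [hρ, LinearMap.toMatrix_apply]
    refine (hC i j γ).trans ((le_abs_self _).trans ?_)
    refine (Finset.single_le_sum (f := fun j => |C i j|) (fun _ _ => abs_nonneg _)
      (Finset.mem_univ j)).trans ?_
    exact Finset.single_le_sum (f := fun i => ∑ j, |C i j|)
      (fun _ _ => Finset.sum_nonneg fun _ _ => abs_nonneg _) (Finset.mem_univ i)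
  obtain ⟨H, hH1, hH2, hH3⟩ := exists_posDef_invariant ρ.range hbound
  obtain ⟨c, hc⟩ := LinearMap.exists_extend (p := Q) b.equivFun.toLinearMap
  have hc' : ∀ p : Q, c p.1 = b.equivFun p := fun p => LinearMap.congr_fun hc p
  refine ⟨fun p q => star (c q) ⬝ᵥ H.mulVec (c p), ?_, ?_, ?_, ?_, ?_, ?_⟩
  · intro p q r
    change star (c r) ⬝ᵥ H.mulVec (c (p + q)) = _
    rw [map_add, Matrix.mulVec_add, dotProduct_add]
  · intro a p q
    change star (c q) ⬝ᵥ H.mulVec (c (a • p)) = _
    rw [map_smul, Matrix.mulVec_smul, dotProduct_smul, smul_eq_mul]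
  · intro p q
    change star (c p) ⬝ᵥ H.mulVec (c q) = star (star (c q) ⬝ᵥ H.mulVec (c p))
    rw [← Matrix.star_dotProduct_star, star_star, Matrix.star_mulVec, hH1.eq, dotProduct_comm,
      dotProduct_comm, Matrix.dotProduct_mulVec]
  · intro p
    by_cases h : c p = 0
    · simp [h]
    · exact (hH2 _ h).le
  · intro p hp hp0
    apply hH2
    intro h
    apply hp0
    have h1 : b.equivFun ⟨p, hp⟩ = 0 := by rw [← hc' ⟨p, hp⟩]; exact h
    have h2 : (⟨p, hp⟩ : Q) = 0 := by
      rw [← b.equivFun.map_zero] at h1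
      exact b.equivFun.injective h1
    exact congrArg Subtype.val h2
  · intro γ p hp q hq
    have key : ∀ (p : X → ℂ) (hp : p ∈ Q), c (fun x => p (act γ x)) =
        (LinearMap.toMatrix b b (R γ)).mulVec (c p) := by
      intro p hp
      have h1 := hc' (R γ ⟨p, hp⟩)
      have h2 := hc' ⟨p, hp⟩
      have h3 := LinearMap.toMatrix_mulVec_repr b b (R γ) ⟨p, hp⟩
      change c (R γ ⟨p, hp⟩).1 = (LinearMap.toMatrix b b (R γ)).mulVec (c (⟨p, hp⟩ : Q).1)
      rw [h1, h2]
      exact h3.symm
    have hinv := hH3 (ρ γ) ⟨γ, rfl⟩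
    rw [hρ] at hinv
    change star (c (fun x => q (act γ x))) ⬝ᵥ H.mulVec (c (fun x => p (act γ x))) =
      star (c q) ⬝ᵥ H.mulVec (c p)
    rw [key p hp, key q hq, Matrix.star_mulVec, ← Matrix.dotProduct_mulVec, Matrix.mulVec_mulVec,
      Matrix.mulVec_mulVec, hinv]

end Pool.Agent.Lib.MP_666dc0_nt.WL
end
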