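import Pool.Agent.Lib.MP_666dc0_nt.WL.C5
import Pool.Agent.Lib.MP_666dc0_nt.Mg.G011
import Pool.Agent.Lib.MP_666dc0_nt.WL.G1
import Pool.Agent.Lib.MP_666dc0_nt.WL.D1defs

section

open NumberField IsDedekindDomain
open scoped NumberField

namespace Pool.Agent.Lib.MP_666dc0_nt.WL

/-!
# WL, C5b: Hecke operators as kernel operators, continued
-/

variable {F : Type} [Field F] [NumberField F] {n : ℕ} {D : Datum F n}
  {S : Finset (HeightOneSpectrum (𝓞 F))} {U V : Subgroup D.Ad} {v : HeightOneSpectrum (𝓞 F)}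

private theorem C5b_out (a : locSub D v) :
    ∃ u ∈ U, u ∈ locSub D v ∧
      (((QuotientGroup.mk a : locSub D v ⧸ U.subgroupOf (locSub D v)).out : locSub D v) : D.Ad) =
        (a : D.Ad) * u := by
  obtain ⟨w, hw⟩ := QuotientGroup.mk_out_eq_mul (U.subgroupOf (locSub D v)) a
  refine ⟨((w : locSub D v) : D.Ad), Subgroup.mem_subgroupOf.1 w.2, (w : locSub D v).2, ?_⟩
  have h2 := congrArg (fun z : locSub D v => (z : D.Ad)) hw
  exact h2

private theorem C5b_mk_eq (hV : Good S U V) (hv : v ∉ S) {a b : locSub D v}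
    (H : (a : D.Ad)⁻¹ * b ∈ V) :
    (QuotientGroup.mk a : locSub D v ⧸ U.subgroupOf (locSub D v)) = QuotientGroup.mk b := by
  rw [QuotientGroup.eq]
  exact Subgroup.mem_subgroupOf.2 (hV.inter v hv _ H (a⁻¹ * b).2)

/-- Proof: both sides are sums over the support: the map `G(F_v) / (U ∩ G(F_v)) → G(𝔸_f) / V`,
`a ↦ g a V`, is injective (`Good.inter`), the term of the right side at `c = g a V` is
`h (a) • f (g a)` (`ker_of_mem`, right invariance of `f`) and the other terms are `0`. -/
theorem act_eq_finsum (hV : Good S U V) (hv : v ∉ S) (h : Hecke U v) {M : Type} [AddCommGroup M]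
    [Module ℂ M] (f : D.Ad → M) (hf : ∀ g, ∀ k ∈ V, f (g * k) = f g) (g : D.Ad) :
    h.act f g = ∑ᶠ c : D.Ad ⧸ V, ((ker h V (g⁻¹ * c.out) : ℚ) : ℂ) • f c.out := by
  classical
  set φ : (locSub D v ⧸ U.subgroupOf (locSub D v)) → D.Ad ⧸ V :=
    fun a => QuotientGroup.mk (g * ((a.out : locSub D v) : D.Ad)) with hφ
  have hinj : Function.Injective φ := by
    intro a b hab
    simp only [hφ] at hab
    rw [QuotientGroup.eq] at hab
    have h1 : ((a.out : locSub D v) : D.Ad)⁻¹ * ((b.out : locSub D v) : D.Ad) ∈ V := by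
      have h2 : (g * ((a.out : locSub D v) : D.Ad))⁻¹ * (g * ((b.out : locSub D v) : D.Ad)) =
          ((a.out : locSub D v) : D.Ad)⁻¹ * ((b.out : locSub D v) : D.Ad) := by group
      rwa [h2] at hab
    have h3 := C5b_mk_eq hV hv h1
    rwa [QuotientGroup.out_eq', QuotientGroup.out_eq'] at h3
  have hval : ∀ a : locSub D v ⧸ U.subgroupOf (locSub D v),
      ((ker h V (g⁻¹ * (φ a).out) : ℚ) : ℂ) • f (φ a).out =
        ((h.1 a : ℚ) : ℂ) • f (g * ((a.out : locSub D v) : D.Ad)) := by
    intro a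
    obtain ⟨k, hk⟩ := QuotientGroup.mk_out_eq_mul V (g * ((a.out : locSub D v) : D.Ad))
    have h1 : (φ a).out = g * ((a.out : locSub D v) : D.Ad) * (k : D.Ad) := hk
    rw [h1, hf _ _ k.2]
    have h2 : g⁻¹ * (g * ((a.out : locSub D v) : D.Ad) * (k : D.Ad)) =
        ((a.out : locSub D v) : D.Ad) * k := by group
    rw [h2, ker_of_mem hV hv h (a.out : locSub D v) (by rw [inv_mul_cancel_left]; exact k.2),
      QuotientGroup.out_eq']
  have hsub : Function.support (fun c : D.Ad ⧸ V =>
      ((ker h V (g⁻¹ * c.out) : ℚ) : ℂ) • f c.out) ⊆ (h.1.support.image φ : Finset (D.Ad ⧸ V)) := by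
    intro c hc
    have h0 : ker h V (g⁻¹ * c.out) ≠ 0 := by
      intro h1
      apply hc
      simp [h1]
    obtain ⟨a, ha, ha'⟩ := exists_of_ker_ne_zero h h0
    rw [Finset.coe_image]
    refine ⟨QuotientGroup.mk a, ?_, ?_⟩
    · exact Finset.mem_coe.2 (Finsupp.mem_support_iff.2 ha')
    · obtain ⟨u, hu, -, hu'⟩ := C5b_out (U := U) a
      simp only [hφ]
      rw [← QuotientGroup.out_eq' c, QuotientGroup.eq, hu']
      have h2 : (g * ((a : D.Ad) * u))⁻¹ * c.out = u⁻¹ * ((a : D.Ad)⁻¹ * (g⁻¹ * c.out)) := by group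
      rw [h2]
      exact mul_mem (inv_mem (hV.le hu)) ha
  rw [finsum_eq_sum_of_support_subset _ hsub, Finset.sum_image fun a _ b _ hab => hinj hab]
  unfold Hecke.act Finsupp.sum
  exact Finset.sum_congr rfl fun a _ => (hval a).symm

/-- The adjoint operator. Proof: define `h' (a) = h (a⁻¹)` on `G(F_v) / (U ∩ G(F_v))`: well defined
by the left invariance of `h`, left invariant. The support is finite: for `a` in it, `a⁻¹` is in the
union `C` of finitely many cosets `b V`, a compact set, so `a` is in the compact set `C⁻¹`, which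
meets only finitely many cosets of the open subgroup `V` (cover `C⁻¹` by the open sets `g V`), and
`G(F_v) / (U ∩ G(F_v)) → G(𝔸_f) / V` is injective (`Good.inter`). Then `ker h' V y = ker h V y⁻¹`:
if `a⁻¹ y = k ∈ V` then `y⁻¹ = k⁻¹ a⁻¹` and `ker h V (k⁻¹ a⁻¹) = ker h V a⁻¹ = h (a⁻¹)` by
`ker_mul_left` and `ker_of_mem`. If there is no such `a` then both sides vanish: if
`ker h V y⁻¹ ≠ 0` then `y⁻¹ = a k`, `k = b c` as in `Good.split`, so `y⁻¹ = a b c = c a b` and
`y = (a b)⁻¹ c⁻¹`. -/
theorem exists_adjoint (hV : Good S U V) (hv : v ∉ S) (h : Hecke U v) :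
    ∃ h' : Hecke U v, ∀ y, ker h' V y = ker h V y⁻¹ := by
  classical
  -- the function `a ↦ h (a⁻¹)`
  set r : (locSub D v ⧸ U.subgroupOf (locSub D v)) → ℚ :=
    fun c => h.1 (QuotientGroup.mk (c.out)⁻¹) with hr
  have hinv : ∀ (w : locSub D v), (w : D.Ad) ∈ U → ∀ a : locSub D v,
      h.1 (QuotientGroup.mk (w * a)) = h.1 (QuotientGroup.mk a) := by
    intro w hw a
    exact h.2 w (Subgroup.mem_subgroupOf.2 hw) (QuotientGroup.mk a)
  have hrmk : ∀ a : locSub D v, r (QuotientGroup.mk a) = h.1 (QuotientGroup.mk a⁻¹) := by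
    intro a
    obtain ⟨w, hw⟩ := QuotientGroup.mk_out_eq_mul (U.subgroupOf (locSub D v)) a
    simp only [hr]
    rw [hw, mul_inv_rev]
    exact hinv _ (inv_mem (Subgroup.mem_subgroupOf.1 w.2)) _
  have hrinv : ∀ u ∈ U.subgroupOf (locSub D v), ∀ c, r (u • c) = r c := by
    intro u hu c
    obtain ⟨a, rfl⟩ := QuotientGroup.mk_surjective c
    have h1 : u • (QuotientGroup.mk a : locSub D v ⧸ U.subgroupOf (locSub D v)) =
        QuotientGroup.mk (u * a) := rfl
    rw [h1, hrmk, hrmk, mul_inv_rev]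
    congr 1
    rw [QuotientGroup.eq]
    have h2 : (a⁻¹ * u⁻¹)⁻¹ * a⁻¹ = u := by group
    rw [h2]
    exact hu
  -- finiteness of the support
  have hVc : IsCompact (V : Set D.Ad) := hV.isCompact
  have hcpt : IsCompact (⋃ b ∈ h.1.support,
      (fun x : D.Ad => ((b.out : locSub D v) : D.Ad) * x) '' (V : Set D.Ad)) :=
    h.1.support.isCompact_biUnion fun b _ => hVc.image (continuous_const.mul continuous_id)
  have hcpt' := hcpt.inv
  have : DiscreteTopology (D.Ad ⧸ V) := QuotientGroup.discreteTopology hV.isOpen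
  have hfinV : ((QuotientGroup.mk : D.Ad → D.Ad ⧸ V) '' ((⋃ b ∈ h.1.support,
      (fun x : D.Ad => ((b.out : locSub D v) : D.Ad) * x) '' (V : Set D.Ad))⁻¹)).Finite :=
    (hcpt'.image QuotientGroup.continuous_mk).finite_of_discrete
  set ψ : (locSub D v ⧸ U.subgroupOf (locSub D v)) → D.Ad ⧸ V :=
    fun a => QuotientGroup.mk ((a.out : locSub D v) : D.Ad) with hψ
  have hinj : Function.Injective ψ := by
    intro a b hab
    simp only [hψ] at hab
    rw [QuotientGroup.eq] at hab
    have h3 := C5b_mk_eq hV hv hab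
    rwa [QuotientGroup.out_eq', QuotientGroup.out_eq'] at h3
  have hfin : (Function.support r).Finite := by
    refine (hfinV.preimage hinj.injOn).subset ?_
    intro c hc
    have hc' : h.1 (QuotientGroup.mk (c.out)⁻¹) ≠ 0 := hc
    refine ⟨((c.out : locSub D v) : D.Ad), ?_, rfl⟩
    rw [Set.mem_inv]
    simp only [Set.mem_iUnion]
    refine ⟨QuotientGroup.mk (c.out)⁻¹, Finsupp.mem_support_iff.2 hc', ?_⟩
    obtain ⟨u, hu, -, hu'⟩ := C5b_out (U := U) (c.out)⁻¹
    refine ⟨u⁻¹, inv_mem (hV.le hu), ?_⟩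
    simp only [hu']
    rw [mul_assoc, mul_inv_cancel, mul_one]
    rfl
  set h' : Hecke U v := ⟨Finsupp.ofSupportFinite r hfin, hrinv⟩ with hh'
  have hh'v : ∀ a : locSub D v, h'.1 (QuotientGroup.mk a) = h.1 (QuotientGroup.mk a⁻¹) := hrmk
  refine ⟨h', fun y => ?_⟩
  by_cases H : ∃ a : locSub D v, (a : D.Ad)⁻¹ * y ∈ V
  · obtain ⟨a, ha⟩ := H
    rw [ker_of_mem hV hv h' a ha, hh'v]
    have h1 : y⁻¹ = ((a : D.Ad)⁻¹ * y)⁻¹ * ((a⁻¹ : locSub D v) : D.Ad) := by
      rw [Subgroup.coe_inv]
      group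
    rw [h1, ker_mul_left hV hv h _ (inv_mem ha), ker_of_mem hV hv h a⁻¹]
    rw [inv_mul_cancel]
    exact one_mem _
  · have h0 : ker h' V y = 0 := by
      by_contra hne
      obtain ⟨a, ha, -⟩ := exists_of_ker_ne_zero h' hne
      exact H ⟨a, ha⟩
    rw [h0]
    by_contra hne
    obtain ⟨a, ha, -⟩ := exists_of_ker_ne_zero h (Ne.symm hne)
    obtain ⟨b, hb, hb', hb''⟩ := hV.split v hv _ ha
    apply H
    have hcomm : (b⁻¹ * ((a : D.Ad)⁻¹ * y⁻¹))⁻¹ * ((a : D.Ad) * b)⁻¹ =
        ((a : D.Ad) * b)⁻¹ * (b⁻¹ * ((a : D.Ad)⁻¹ * y⁻¹))⁻¹ := by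
      refine mul_comm_of_disjoint fun w => ?_
      by_cases hw : w = v
      · subst hw
        exact Or.inl hb''.inv
      · exact Or.inr ((locSub D v).inv_mem ((locSub D v).mul_mem a.2 hb') w hw)
    refine ⟨(a * ⟨b, hb'⟩)⁻¹, ?_⟩
    have h1 : (((a * ⟨b, hb'⟩)⁻¹ : locSub D v) : D.Ad)⁻¹ * y = (a : D.Ad) * b * y := by
      rw [Subgroup.coe_inv, inv_inv, Subgroup.coe_mul]
    rw [h1]
    have h2 : y = (b⁻¹ * ((a : D.Ad)⁻¹ * y⁻¹))⁻¹ * ((a : D.Ad) * b)⁻¹ := by group
    have h3 : (a : D.Ad) * b * y = (b⁻¹ * ((a : D.Ad)⁻¹ * y⁻¹))⁻¹ := by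
      conv_lhs => rw [h2, hcomm]
      rw [mul_inv_cancel_left]
    rw [h3]
    exact inv_mem (mul_mem (inv_mem (hV.le hb)) ha)

/-- Proof: `mem`: a finite linear combination of elements of `Q`. `left`: `γ g x = γ (g x)`.
`right`: by `act_eq_finsum` and `ker_mul_left`: `ker h V (k⁻¹ g⁻¹ c) = ker h V (g⁻¹ c)`. -/
theorem act_isForm (hV : Good S U V) (hv : v ∉ S) (h : Hecke U v)
    {Q : Submodule ℂ (D.Cpx → ℂ)} {f : D.Ad → D.Cpx → ℂ} (hf : IsForm D Q V f) :
    IsForm D Q V (h.act f) := by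
  refine ⟨fun g => ?_, fun γ g x => ?_, fun g k hk => ?_⟩
  · unfold Hecke.act Finsupp.sum
    exact Q.sum_mem fun c _ => Q.smul_mem _ (hf.mem _)
  · unfold Hecke.act Finsupp.sum
    rw [Finset.sum_apply, Finset.sum_apply]
    refine Finset.sum_congr rfl fun c _ => ?_
    beta_reduce
    rw [Pi.smul_apply, Pi.smul_apply, mul_assoc, hf.left]
  · rw [act_eq_finsum hV hv h f hf.right, act_eq_finsum hV hv h f hf.right]
    refine finsum_congr fun c => ?_
    have h1 : (g * k)⁻¹ * c.out = k⁻¹ * (g⁻¹ * c.out) := by group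
    rw [h1, ker_mul_left hV hv h _ (inv_mem hk)]

/-- Proof: for the same place, `IsGoodAt.comm` for the functions `g ↦ f g x`, `x` fixed (the operators
act pointwise in `x`). For different places `v ≠ w` the elements of `G(F_v)` and `G(F_w)` commute
(`mul_comm_of_disjoint`), and the two sides are the same double sum (`Finsupp.sum_comm`). -/
theorem act_comm (hV : Good S U V) (hv : v ∉ S) {w : HeightOneSpectrum (𝓞 F)} (hw : w ∉ S)
    (h : Hecke U v) (h' : Hecke U w) {f : D.Ad → D.Cpx → ℂ}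
    (hf : ∀ g, ∀ k ∈ V, f (g * k) = f g) : h.act (h'.act f) = h'.act (h.act f) := by
  by_cases hvw : v = w
  · subst hvw
    funext g x
    have happ : ∀ (e : Hecke U v) (F' : D.Ad → D.Cpx → ℂ) (g : D.Ad),
        e.act F' g x = e.act (fun g => F' g x) g := by
      intro e F' g
      unfold Hecke.act Finsupp.sum
      rw [Finset.sum_apply]
      rfl
    rw [happ, happ]
    have h1 : (fun g => h'.act f g x) = h'.act (fun g => f g x) := funext fun g => happ h' f g
    have h2 : (fun g => h.act f g x) = h.act (fun g => f g x) := funext fun g => happ h f g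
    rw [h1, h2]
    exact congrFun ((hV.good v hv).comm h h' (fun g => f g x)
      (fun g u hu => by simp only [hf g u (hV.le hu)])) g
  · funext g
    unfold Hecke.act
    simp only [Finsupp.sum, Finset.smul_sum]
    rw [Finset.sum_comm]
    refine Finset.sum_congr rfl fun c _ => Finset.sum_congr rfl fun c' _ => ?_
    rw [smul_comm]
    have hcomm : ((c'.out : locSub D v) : D.Ad) * ((c.out : locSub D w) : D.Ad) =
        ((c.out : locSub D w) : D.Ad) * ((c'.out : locSub D v) : D.Ad) := by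
      refine mul_comm_of_disjoint fun z => ?_
      by_cases hz : z = v
      · refine Or.inr ((c.out : locSub D w).2 z ?_)
        rw [hz]
        exact hvw
      · exact Or.inl ((c'.out : locSub D v).2 z hz)
    rw [mul_assoc, hcomm, ← mul_assoc]

/-- Linearity of the Hecke operators. -/
theorem act_add (h : Hecke U v) {M : Type} [AddCommGroup M] [Module ℂ M] (f g : D.Ad → M) :
    h.act (f + g) = h.act f + h.act g := by
  funext x
  rw [Pi.add_apply]
  unfold Hecke.act Finsupp.sum
  rw [← Finset.sum_add_distrib]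
  exact Finset.sum_congr rfl fun c _ => by beta_reduce; rw [Pi.add_apply, smul_add]

/-- Linearity of the Hecke operators. -/
theorem act_smul (h : Hecke U v) {M : Type} [AddCommGroup M] [Module ℂ M] (c : ℂ)
    (f : D.Ad → M) : h.act (c • f) = c • h.act f := by
  funext x
  rw [Pi.smul_apply]
  unfold Hecke.act Finsupp.sum
  rw [Finset.smul_sum]
  exact Finset.sum_congr rfl fun e _ => by beta_reduce; rw [Pi.smul_apply, smul_comm]

end Pool.Agent.Lib.MP_666dc0_nt.WL
end

section

open NumberField IsDedekindDomain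
open scoped NumberField

namespace Pool.Agent.Lib.MP_666dc0_nt.WL

/-!
# WL, D0c: extension of an embedding to the completion
-/

variable {F : Type} [Field F] [NumberField F] {ℓ : ℕ} [Fact ℓ.Prime]

/-- The embedding `σ` extends continuously to the completion at its place.
Proof: let `L` be a finite extension of `ℚ_ℓ` in `ℚ̄_ℓ` with `σ F ⊆ L` (`exists_finite_ext` for
`E = F`); `L` is complete (`FiniteDimensional.complete ℚ_[ℓ] L`). Let `f : WithVal (v.valuation F) →+* L`
be `σ` with values in `L` (`RingHom.codRestrict`). It is continuous: it is additive, so continuity at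
`0` suffices (`continuous_of_continuousAt_zero`); the sets `{x | v x < γ}` are a basis of the
neighbourhoods of `0` (`Valued.hasBasis_nhds_zero`) and `exists_norm_le_pow` gives for every `ε` some
`k` with `c ^ k < ε` (`exists_pow_lt_of_lt_one`), take `γ = exp (-k)` (or `exp (-(k+1))`).
`v.adicCompletion F` is by definition the completion `UniformSpace.Completion (WithVal (v.valuation F))`
(`Valued.Completion`): `e = L.val ∘ UniformSpace.Completion.extensionHom f hf`, with
`UniformSpace.Completion.extensionHom_coe` and `UniformSpace.Completion.continuous_extension`. -/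
theorem exists_extension (σ : F →+* PadicAlgCl ℓ) {v : HeightOneSpectrum (𝓞 F)}
    (hv : ∀ x : 𝓞 F, x ∈ v.asIdeal ↔ ‖σ (x : F)‖ < 1) :
    ∃ e : v.adicCompletion F →+* PadicAlgCl ℓ, Continuous e ∧
      ∀ x : F, e (algebraMap F (v.adicCompletion F) x) = σ x := by
  obtain ⟨L, hL, hσ⟩ := exists_finite_ext ℓ σ
  have : CompleteSpace L := FiniteDimensional.complete ℚ_[ℓ] L
  obtain ⟨c, hc0, hc1, hc⟩ := exists_norm_le_pow σ hv
  let f : WithVal (v.valuation F) →+* L :=
    (σ.codRestrict L hσ).comp (WithVal.equiv (v.valuation F)).toRingHom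
  have hfn : ∀ x : WithVal (v.valuation F), ‖f x‖ = ‖σ (WithVal.equiv (v.valuation F) x)‖ :=
    fun x => rfl
  have hf : Continuous f := by
    refine continuous_of_continuousAt_zero f ?_
    rw [ContinuousAt, map_zero, Metric.tendsto_nhds]
    intro ε hε
    obtain ⟨k, hk⟩ := exists_pow_lt_of_lt_one hε hc1
    obtain ⟨π, hπ⟩ := v.valuation_exists_uniformizer F
    have hv0 : Valued.v (WithVal.toVal (v.valuation F) (π ^ k)) =
        WithZero.exp (-(k : ℤ)) := by
      rw [WithVal.valued_toVal, map_pow, hπ, ← WithZero.exp_nsmul]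
      simp
    have hr : (Valued.v : Valuation (WithVal (v.valuation F)) _).restrict
        (WithVal.toVal (v.valuation F) (π ^ k)) ≠ 0 := by
      intro h0
      rw [Valuation.restrict_eq_zero_iff, hv0] at h0
      exact WithZero.exp_ne_zero h0
    have hopen := Valued.isOpen_closedBall (WithVal (v.valuation F)) hr
    have hmem : (0 : WithVal (v.valuation F)) ∈
        {x | (Valued.v : Valuation (WithVal (v.valuation F)) _).restrict x ≤
          (Valued.v : Valuation (WithVal (v.valuation F)) _).restrict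
          (WithVal.toVal (v.valuation F) (π ^ k))} := by
      rw [Set.mem_ofPred_eq, map_zero]
      exact zero_le
    filter_upwards [hopen.mem_nhds hmem] with x hx
    rw [Valuation.restrict_le_iff, hv0, ← WithVal.val_apply_equiv] at hx
    rw [dist_zero_right, hfn]
    exact (hc k _ hx).trans_lt hk
  refine ⟨(L.val.toRingHom.comp (UniformSpace.Completion.extensionHom f hf)).comp
    (HeightOneSpectrum.adicCompletion.equiv F v).toRingHom, ?_, ?_⟩
  · exact (continuous_subtype_val.comp UniformSpace.Completion.continuous_extension).comp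
      (HeightOneSpectrum.adicCompletion.continuous_toCompletion F v)
  · intro x
    have h1 := UniformSpace.Completion.extensionHom_coe f hf (WithVal.toVal (v.valuation F) x)
    exact congrArg (fun z : L => (z : PadicAlgCl ℓ)) h1

end Pool.Agent.Lib.MP_666dc0_nt.WL
end

section

open NumberField IsDedekindDomain
open scoped NumberField

namespace Pool.Agent.Lib.MP_666dc0_nt.WL

/-!
# WL, D0: existence of the `ℓ`-adic specialisation
-/

/-- Evaluation of a finite adele at a place. -/
private noncomputable def d0Eval (F : Type) [Field F] [NumberField F]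
    (v : HeightOneSpectrum (𝓞 F)) : FiniteAdeleRing (𝓞 F) F →+* v.adicCompletion F where
  toFun a := a v
  map_one' := rfl
  map_mul' _ _ := rfl
  map_zero' := rfl
  map_add' _ _ := rfl

private theorem d0_key (F : Type) [Field F] [NumberField F] (ℓ : ℕ) [Fact ℓ.Prime]
    (ι : ℂ ≃+* PadicAlgCl ℓ) (τ : F →+* ℂ) :
    ∃ s : FiniteAdeleRing (𝓞 F) F →+* ℂ,
      s.comp (algebraMap F (FiniteAdeleRing (𝓞 F) F)) = τ ∧
      (Continuous fun a => ι (s a)) ∧
      (∃ v : HeightOneSpectrum (𝓞 F), (ℓ : 𝓞 F) ∈ v.asIdeal ∧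
        ∀ a b : FiniteAdeleRing (𝓞 F) F, a v = b v → s a = s b) ∧
      ∀ w : HeightOneSpectrum (𝓞 F), (∀ x : 𝓞 F, x ∈ w.asIdeal ↔ ‖ι (τ (x : F))‖ < 1) →
        ∀ a b : FiniteAdeleRing (𝓞 F) F, s a = s b → a w = b w := by
  obtain ⟨v, hv⟩ := exists_place (ι.toRingHom.comp τ)
  obtain ⟨e, he, hex⟩ := exists_extension (ι.toRingHom.comp τ) hv
  refine ⟨ι.symm.toRingHom.comp (e.comp (d0Eval F v)), ?_, ?_, ?_, ?_⟩
  · ext x
    change ι.symm (e (algebraMap F (v.adicCompletion F) x)) = τ x
    rw [hex x]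
    exact ι.symm_apply_apply (τ x)
  · have h1 : (fun a : FiniteAdeleRing (𝓞 F) F =>
        ι ((ι.symm.toRingHom.comp (e.comp (d0Eval F v))) a)) = fun a => e (a v) := by
      funext a
      exact ι.apply_symm_apply (e (a v))
    rw [h1]
    exact he.comp (RestrictedProduct.continuous_eval v)
  · refine ⟨v, ?_, ?_⟩
    · rw [hv]
      have h2 : (ι.toRingHom.comp τ) (((ℓ : 𝓞 F) : 𝓞 F) : F) = ((ℓ : ℕ) : PadicAlgCl ℓ) := by
        simp
      rw [h2]
      exact norm_ell_lt_one
    · intro a b hab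
      change ι.symm (e (a v)) = ι.symm (e (b v))
      rw [hab]
  · intro w hw a b hab
    have hwv : w = v := by
      apply HeightOneSpectrum.ext
      apply Ideal.ext
      intro x
      rw [hw x, hv x]
      rfl
    subst hwv
    have h3 : ι.symm (e (a w)) = ι.symm (e (b w)) := hab
    exact e.injective (ι.symm.injective h3)

/-- Proof: for `τ : F → ℂ` put `σ = ι ∘ τ`, `v` its place (`exists_place`), `e` the extension
(`exists_extension`) and `s τ = ι⁻¹ ∘ e ∘ (evaluation at v)` (`evalAt F v`). `comp`: the component at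
`v` of `algebraMap F _ x` is `algebraMap F _ x` (`rfl`). `cont`: evaluation is continuous
(`RestrictedProduct.continuous_eval`) and `ι (ι⁻¹ z) = z`. `place`: `ℓ ∈ v` as `‖σ ℓ‖ < 1`
(`norm_ell_lt_one`). `surj`: `exists_embedding` gives `σ` with place `v`; for `τ = ι⁻¹ ∘ σ` the
chosen place is `v` as well (two places with the same elements are equal: `HeightOneSpectrum.ext`,
`Ideal.ext`) and `e` is injective, being a ring homomorphism of fields. (To handle the dependence,
first prove: for every `τ` there is `s : FiniteAdeleRing (𝓞 F) F →+* ℂ` with all the properties and,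
moreover, for every `w` with `∀ x, x ∈ w.asIdeal ↔ ‖ι (τ x)‖ < 1`, `s a = s b → a w = b w`; then
`choose`.) -/
theorem exists_hatData (F : Type) [Field F] [NumberField F] (ℓ : ℕ) [Fact ℓ.Prime]
    (ι : ℂ ≃+* PadicAlgCl ℓ) : Nonempty (HatData F ℓ ι) := by
  choose s h1 h2 h3 h4 using d0_key F ℓ ι
  refine ⟨⟨s, h1, h2, h3, ?_⟩⟩
  intro v hv
  obtain ⟨σ, hσ⟩ := exists_embedding v hv
  refine ⟨ι.symm.toRingHom.comp σ, h4 _ v ?_⟩
  intro x
  rw [hσ x]
  have h5 : ι ((ι.symm.toRingHom.comp σ) (x : F)) = σ (x : F) := ι.apply_symm_apply (σ (x : F))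
  rw [h5]

end Pool.Agent.Lib.MP_666dc0_nt.WL
end
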