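import Pool.Agent.Lib.MP_666dc0_nt.WL.F0
import Pool.Agent.Lib.MP_666dc0_nt.Mg.G006
import Pool.Agent.Lib.MP_666dc0_nt.Mg.G001
import Pool.Agent.Lib.MP_666dc0_nt.Mg.G005
import Pool.Agent.Lib.MP_666dc0_nt.Mg.G008
import Pool.Agent.Lib.MP_666dc0_nt.Mg.G009

section

open NumberField IsDedekindDomain
open scoped NumberField

namespace Pool.Agent.Lib.MP_666dc0_nt.WL

/-!
# WL, F3: approximation by forms of types in an omnipresent family
-/

variable {F : Type} [Field F] [NumberField F] {n : ℕ} {D : Datum F n}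
  {ℓ : ℕ} [Fact ℓ.Prime] {ι : ℂ ≃+* PadicAlgCl ℓ} {U K : Subgroup D.Ad}

/-- Geometric sums of roots of unity. Proof: if `z = 1` the sum is `ℓ ^ k`, otherwise it is `0`
(`z ^ (ℓ ^ k) = 1`, `geom_sum_eq`). The sum over `1 ≤ i < ℓ ^ k` is the whole sum minus `1`; the norm
of `ℓ ^ k` in `PadicAlgCl ℓ` is `ℓ ^ (-k)` (`PadicAlgCl.norm_extends`, `Padic.norm_p`). -/
theorem norm_geom_sum_le (k : ℕ) {z : ℂ} (hz : z ^ (ℓ ^ k) = 1) :
    ‖ι (1 + ∑ i ∈ Finset.Ico 1 (ℓ ^ k), z ^ i)‖ ≤ ((ℓ : ℝ) ^ k)⁻¹ := by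
  have hℓ : 0 < ℓ ^ k := pow_pos (Fact.out : ℓ.Prime).pos k
  have h1 : (1 : ℂ) + ∑ i ∈ Finset.Ico 1 (ℓ ^ k), z ^ i = ∑ i ∈ Finset.range (ℓ ^ k), z ^ i := by
    rw [Finset.sum_range_eq_add_Ico _ hℓ, pow_zero]
  rw [h1]
  by_cases h2 : z = 1
  · rw [h2]
    have h3 : ∑ i ∈ Finset.range (ℓ ^ k), (1 : ℂ) ^ i = ((ℓ : ℂ)) ^ k := by
      simp
    rw [h3, map_pow, map_natCast, norm_pow]
    have h4 : ‖((ℓ : ℕ) : PadicAlgCl ℓ)‖ = (ℓ : ℝ)⁻¹ := by
      have h5 := PadicAlgCl.norm_extends (p := ℓ) ((ℓ : ℕ) : ℚ_[ℓ])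
      rw [Padic.norm_p] at h5
      rw [← h5]
      congr 1
    rw [h4, inv_pow]
  · rw [geom_sum_eq h2, hz, sub_self, zero_div, map_zero, norm_zero]
    positivity

/-- Twisting a weight zero form by the characters. Proof: the four conditions are immediate from the
rules for `κ`; `f g ∈ Q` is preserved by scalars. -/
theorem isTypeForm_twist {Q : Submodule ℂ (D.Cpx → ℂ)} {J : Subgroup D.Ad} {χ : J →* ℂˣ}
    {κ : D.Ad → J} (hκ1 : ∀ (γ : D.Rat) g, κ (D.toAd γ * g) = κ g)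
    (hκ2 : ∀ g, ∀ u ∈ U, κ (g * u) = κ g) (hκ3 : ∀ g (k : J), κ (g * k) = κ g * k)
    {f : D.Ad → D.Cpx → ℂ} (hf : IsForm D Q (U ⊔ J) f) (i : ℕ) :
    IsTypeForm D Q U ⟨J, χ ^ i⟩ (fun g x => -(((χ (κ g) : ℂˣ) : ℂ) ^ i * f g x)) := by
  refine IsTypeForm.mk' (fun g => ?_) (fun γ g x => ?_) (fun g u hu => ?_) (fun g k => ?_)
  · have h1 : (fun x => -(((χ (κ g) : ℂˣ) : ℂ) ^ i * f g x)) =
        (-(((χ (κ g) : ℂˣ) : ℂ) ^ i)) • f g := by
      funext x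
      simp only [Pi.smul_apply, smul_eq_mul, neg_mul]
    show (fun x => -(((χ (κ g) : ℂˣ) : ℂ) ^ i * f g x)) ∈ Q
    rw [h1]
    exact Q.smul_mem _ (hf.mem g)
  · show -(((χ (κ (D.toAd γ * g)) : ℂˣ) : ℂ) ^ i * f (D.toAd γ * g) x) =
      -(((χ (κ g) : ℂˣ) : ℂ) ^ i * f g (x * D.toCpx γ))
    rw [hκ1, hf.left]
  · funext x
    show -(((χ (κ (g * u)) : ℂˣ) : ℂ) ^ i * f (g * u) x) = -(((χ (κ g) : ℂˣ) : ℂ) ^ i * f g x)
    rw [hκ2 g u hu, hf.right g u ((le_sup_left : U ≤ U ⊔ J) hu)]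
  · funext x
    have h1 : (((χ ^ i : J →* ℂˣ) k : ℂˣ) : ℂ) = ((χ k : ℂˣ) : ℂ) ^ i := by
      rw [MonoidHom.pow_apply, Units.val_pow_eq_pow_val]
    have h2 : f (g * k) = f g := hf.right g k ((le_sup_right : J ≤ U ⊔ J) k.2)
    have h3 : ((χ (κ (g * k)) : ℂˣ) : ℂ) = ((χ (κ g) : ℂˣ) : ℂ) * ((χ k : ℂˣ) : ℂ) := by
      rw [hκ3, map_mul, Units.val_mul]
    show -(((χ (κ (g * k)) : ℂˣ) : ℂ) ^ i * f (g * k) x) =
      (((χ ^ i : J →* ℂˣ) k : ℂˣ) : ℂ) • -(((χ (κ g) : ℂˣ) : ℂ) ^ i * f g x)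
    rw [h1, h2, h3, smul_eq_mul, mul_pow]
    ring

/-- Approximation.
Proof: `approx_zero` gives a level `K₁` and a form `f₁` of weight `0` and level `U ⊔ K₁` with
`‖ev f - ev f₁‖ ≤ ε`; `ev f₁` is bounded by some `C` (`exists_bound_ev`). Let `K' ≤ K₁` be a free level
(`exists_free_level`) and take `J ≤ K'` and `χ` of order `ℓ ^ k` from `IsOmni.exists_char`, with `k`
so large that `C ℓ ^ (-k) ≤ ε`. `J` is free as well (`U ⊔ J ≤ U ⊔ K'`). Let `κ` be as in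
`exists_kappa` and, for `1 ≤ i < ℓ ^ k`, `f_i g x = - χ (κ g) ^ i f₁ g x`, a form of type `(J, χ ^ i)`
(`isTypeForm_twist`), and `χ ^ i ≠ 1`. Then
`ev f₁ - ∑ ev f_i = ev f₁ * ι (1 + ∑ χ (κ g) ^ i)` has norm `≤ C ℓ ^ (-k) ≤ ε`
(`norm_geom_sum_le`). The list is `[f_1, …]`. -/
theorem approx_type [IsTotallyReal F] (hD : IsTotPosDef D.q) (H : HatData F ℓ ι)
    (hU : IsTame ℓ U) (hK : IsLevel ℓ U K) {T : Set (AdType D)} (hT : IsOmni ℓ U T)
    {f : D.Ad → D.Cpx → ℂ} (hf : IsForm D (Subalgebra.toSubmodule (polyFun D)) (U ⊔ K) f)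
    (y₀ : D.Cpx) (ε : ℝ) (hε : 0 < ε) :
    ∃ l : List (D.Ad → D.Cpx → ℂ),
      (∀ m ∈ l, ∃ t ∈ T, IsLevel ℓ U t.J ∧ (∃ M > 0, t.χ ^ M = 1) ∧
        IsTypeForm D (Submodule.span ℂ {1}) U t m) ∧
      ∀ g, ‖H.ev y₀ f g - H.ev y₀ l.sum g‖ ≤ ε := by
  classical
  obtain ⟨K₁, hK₁, f₁, hf₁, hff₁⟩ := approx_zero hD H hU hK hf y₀ ε hε
  have hQ : Submodule.span ℂ {1} ≤ Subalgebra.toSubmodule (polyFun D) := by
    rw [Submodule.span_le, Set.singleton_subset_iff]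
    exact (polyFun D).one_mem
  obtain ⟨C, hC⟩ := exists_bound_ev hD H hQ hf₁ hK₁.isOpen hK₁.isCompact y₀
  have hC0 : 0 ≤ C := (norm_nonneg _).trans (hC 1)
  have hℓ1 : (1 : ℝ) < ℓ := by exact_mod_cast (Fact.out : ℓ.Prime).one_lt
  have hℓ0 : (0 : ℝ) < ℓ := by linarith
  obtain ⟨m, hm⟩ : ∃ m : ℕ, ((ℓ : ℝ)⁻¹) ^ m < ε / (C + 1) :=
    exists_pow_lt_of_lt_one (by positivity) (inv_lt_one_of_one_lt₀ hℓ1)
  obtain ⟨K', hK'1, hK', hfree⟩ := exists_free_level hD hU hK₁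
  obtain ⟨J, χ, k, hJK, hJ, hmk, hord, hchar⟩ := hT.exists_char K' hK' m
  have hbound : C * ((ℓ : ℝ) ^ k)⁻¹ ≤ ε := by
    have h1 : ((ℓ : ℝ) ^ k)⁻¹ ≤ ((ℓ : ℝ)⁻¹) ^ m := by
      rw [← inv_pow]
      exact pow_le_pow_of_le_one (by positivity) (inv_le_one_of_one_le₀ hℓ1.le) hmk
    have h2 : ((ℓ : ℝ) ^ k)⁻¹ ≤ ε / (C + 1) := h1.trans hm.le
    have h3 : C * ((ℓ : ℝ) ^ k)⁻¹ ≤ C * (ε / (C + 1)) := mul_le_mul_of_nonneg_left h2 hC0
    have h4 : C * (ε / (C + 1)) ≤ (C + 1) * (ε / (C + 1)) :=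
      mul_le_mul_of_nonneg_right (by linarith) (by positivity)
    have h5 : (C + 1) * (ε / (C + 1)) = ε := by
      field_simp
    linarith
  have hfree' : ∀ (g : D.Ad) (γ : D.Rat), g⁻¹ * D.toAd γ * g ∈ U ⊔ J → γ = 1 :=
    fun g γ h => hfree g γ ((sup_le_sup_left hJK U : U ⊔ J ≤ U ⊔ K') h)
  obtain ⟨κ, hκ1, hκ2, hκ3⟩ := exists_kappa hU hJ.supp hfree'
  have hf₁J : IsForm D (Submodule.span ℂ {1}) (U ⊔ J) f₁ :=
    ⟨hf₁.mem, hf₁.left, fun g k hk =>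
      hf₁.right g k ((sup_le_sup_left (hJK.trans hK'1) U : U ⊔ J ≤ U ⊔ K₁) hk)⟩
  have hχ : χ ^ (ℓ ^ k) = 1 := by
    rw [← hord]
    exact pow_orderOf_eq_one χ
  refine ⟨(Finset.Ico 1 (ℓ ^ k)).toList.map
    (fun i => fun (g : D.Ad) (x : D.Cpx) => -(((χ (κ g) : ℂˣ) : ℂ) ^ i * f₁ g x)), ?_, ?_⟩
  · intro f' hf'
    obtain ⟨i, hi, rfl⟩ := List.mem_map.1 hf'
    rw [Finset.mem_toList, Finset.mem_Ico] at hi
    have hne : χ ^ i ≠ 1 := by
      intro h1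
      have h2 : orderOf χ ∣ i := by
        apply orderOf_dvd_of_pow_eq_one
        exact h1
      rw [hord] at h2
      exact absurd (Nat.le_of_dvd (by omega) h2) (by omega)
    refine ⟨⟨J, χ ^ i⟩, hchar i hne, hJ, ⟨ℓ ^ k, pow_pos (Fact.out : ℓ.Prime).pos k, ?_⟩,
      isTypeForm_twist hκ1 hκ2 hκ3 hf₁J i⟩
    show (χ ^ i) ^ (ℓ ^ k) = 1
    ext x
    have h1 : χ x ^ (ℓ ^ k) = 1 := by
      rw [← MonoidHom.pow_apply, hχ, MonoidHom.one_apply]
    rw [MonoidHom.pow_apply, MonoidHom.pow_apply, ← pow_mul, mul_comm, pow_mul, h1, one_pow,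
      MonoidHom.one_apply]
  · intro g
    have hz : ((χ (κ g) : ℂˣ) : ℂ) ^ (ℓ ^ k) = 1 := by
      rw [← Units.val_pow_eq_pow_val, ← MonoidHom.pow_apply, hχ, MonoidHom.one_apply,
        Units.val_one]
    have hsum : ∀ x : D.Cpx, ((Finset.Ico 1 (ℓ ^ k)).toList.map
        (fun i => fun (g : D.Ad) (x : D.Cpx) =>
          -(((χ (κ g) : ℂˣ) : ℂ) ^ i * f₁ g x))).sum g x =
        -((∑ i ∈ Finset.Ico 1 (ℓ ^ k), ((χ (κ g) : ℂˣ) : ℂ) ^ i) * f₁ g x) := by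
      intro x
      rw [Finset.sum_map_toList, Finset.sum_apply, Finset.sum_apply, Finset.sum_neg_distrib,
        Finset.sum_mul]
    have h1 : H.ev y₀ f₁ g - H.ev y₀ ((Finset.Ico 1 (ℓ ^ k)).toList.map
        (fun i => fun (g : D.Ad) (x : D.Cpx) =>
          -(((χ (κ g) : ℂˣ) : ℂ) ^ i * f₁ g x))).sum g =
        ι (1 + ∑ i ∈ Finset.Ico 1 (ℓ ^ k), ((χ (κ g) : ℂˣ) : ℂ) ^ i) * H.ev y₀ f₁ g := by
      unfold HatData.ev
      rw [hsum, ← map_sub, ← map_mul]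
      congr 1
      ring
    have h2 : ‖H.ev y₀ f₁ g - H.ev y₀ ((Finset.Ico 1 (ℓ ^ k)).toList.map
        (fun i => fun (g : D.Ad) (x : D.Cpx) =>
          -(((χ (κ g) : ℂˣ) : ℂ) ^ i * f₁ g x))).sum g‖ ≤ ε := by
      rw [h1, norm_mul]
      calc _ ≤ ((ℓ : ℝ) ^ k)⁻¹ * C :=
            mul_le_mul (norm_geom_sum_le k hz) (hC g) (norm_nonneg _) (by positivity)
        _ ≤ ε := by
            rw [mul_comm]
            exact hbound
    have h3 : H.ev y₀ f g - H.ev y₀ ((Finset.Ico 1 (ℓ ^ k)).toList.map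
        (fun i => fun (g : D.Ad) (x : D.Cpx) =>
          -(((χ (κ g) : ℂˣ) : ℂ) ^ i * f₁ g x))).sum g =
        (H.ev y₀ f g - H.ev y₀ f₁ g) + (H.ev y₀ f₁ g - H.ev y₀ ((Finset.Ico 1 (ℓ ^ k)).toList.map
        (fun i => fun (g : D.Ad) (x : D.Cpx) =>
          -(((χ (κ g) : ℂˣ) : ℂ) ^ i * f₁ g x))).sum g) := by
      ring
    rw [h3]
    exact (IsUltrametricDist.norm_add_le_max _ _).trans (max_le (hff₁ g) h2)

end Pool.Agent.Lib.MP_666dc0_nt.WL
end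

section

open NumberField IsDedekindDomain
open scoped NumberField

namespace Pool.Agent.Lib.MP_666dc0_nt.WL

/-!
# WL, C6a: the invariant form on the weights, the action of `G(F)` on `G(𝔸_f) / V`
-/

variable {F : Type} [Field F] [NumberField F] {n : ℕ} {D : Datum F n}

/-- The elements of `G(F)` are bounded at the infinite places. Proof: the embedding `τ` of the
totally real field `F` is the composition of some `τ' : F →+* ℝ` with `ℝ → ℂ`
(`NumberField.ComplexEmbedding.IsReal`, `IsTotallyReal`), and `γᵀ q γ = q` gives, for the column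
`x = γ e_j`, `x^T q^τ' x = (q^τ')_{jj}`, so `x` is bounded since `q^τ'` is positive definite
(compactness of the unit sphere; or `exists_coord_bound` from A2e together with
`qf (γ e_j) (γ e_j) = qf e_j e_j`). -/
theorem exists_bound_rat [IsTotallyReal F] (hD : IsTotPosDef D.q) :
    ∃ C : ℝ, ∀ (γ : D.Rat) (τ : F →+* ℂ) (i j : Fin n), ‖τ (γ.1.1 i j)‖ ≤ C := by
  classical
  have hcol : ∀ (γ : D.Rat) (j : Fin n), qf D (RingHom.id F) (γ.1.1.mulVec (Pi.single j 1))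
      (γ.1.1.mulVec (Pi.single j 1)) = qf D (RingHom.id F) (Pi.single j 1) (Pi.single j 1) :=
    fun γ j => qf_mulVec (RingHom.id F) γ _ _
  have hb : ∀ j : Fin n, ∃ C' : ℝ, ∀ (γ : D.Rat) (i : Fin n) (τ : F →+* ℝ), |τ (γ.1.1 i j)| ≤ C' := by
    intro j
    obtain ⟨C', hC'⟩ := exists_coord_bound (D := D) hD
      (Algebra.trace ℚ F (qf D (RingHom.id F) (Pi.single j 1) (Pi.single j 1)) : ℝ)
    refine ⟨C', fun γ i τ => ?_⟩
    have h := hC' (γ.1.1.mulVec (Pi.single j 1)) (le_of_eq (by rw [hcol γ j])) i τ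
    rwa [Matrix.mulVec_single_one] at h
  choose C' hC' using hb
  refine ⟨∑ j, |C' j|, fun γ τ i j => ?_⟩
  have hτ : ComplexEmbedding.IsReal τ := IsTotallyReal.complexEmbedding_isReal τ
  have h1 : ‖τ (γ.1.1 i j)‖ = |hτ.embedding (γ.1.1 i j)| := by
    rw [← ComplexEmbedding.IsReal.coe_embedding_apply hτ, Complex.norm_real, Real.norm_eq_abs]
  rw [h1]
  refine ((hC' j γ i hτ.embedding).trans (le_abs_self _)).trans ?_
  exact Finset.single_le_sum (f := fun j => |C' j|) (fun j _ => abs_nonneg _) (Finset.mem_univ j)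

/-- Proof: `Algebra.adjoin_induction`: for the coordinates by `exists_bound_rat`
(`(x γ)_τ = x_τ γ_τ`), constants, sums and products are clear. -/
theorem exists_bound_poly [IsTotallyReal F] (hD : IsTotPosDef D.q) {p : D.Cpx → ℂ}
    (hp : p ∈ polyFun D) (x : D.Cpx) : ∃ C : ℝ, ∀ γ : D.Rat, ‖p (x * D.toCpx γ)‖ ≤ C := by
  obtain ⟨C₀, hC₀⟩ := exists_bound_rat (D := D) hD
  refine Algebra.adjoin_induction
    (p := fun p _ => ∃ C : ℝ, ∀ γ : D.Rat, ‖p (x * D.toCpx γ)‖ ≤ C) ?_ ?_ ?_ ?_ hp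
  · rintro p ⟨τ, i, j, rfl⟩
    refine ⟨∑ k, ‖(x τ).1.1 i k‖ * C₀, fun γ => ?_⟩
    have h1 : coord D τ i j (x * D.toCpx γ) = ∑ k, (x τ).1.1 i k * τ (γ.1.1 k j) := rfl
    rw [h1]
    refine (norm_sum_le _ _).trans (Finset.sum_le_sum fun k _ => ?_)
    rw [norm_mul]
    exact mul_le_mul_of_nonneg_left (hC₀ γ τ k j) (norm_nonneg _)
  · intro r
    exact ⟨‖r‖, fun γ => le_of_eq rfl⟩
  · rintro p q _ _ ⟨C, hC⟩ ⟨C', hC'⟩
    exact ⟨C + C', fun γ => (norm_add_le _ _).trans (add_le_add (hC γ) (hC' γ))⟩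
  · rintro p q _ _ ⟨C, hC⟩ ⟨C', hC'⟩
    refine ⟨C * C', fun γ => ?_⟩
    rw [Pi.mul_apply, norm_mul]
    exact mul_le_mul (hC γ) (hC' γ) (norm_nonneg _) ((norm_nonneg _).trans (hC γ))

/-- Proof: `exists_invariant_form` for `X = D.Cpx`, `act γ x = x * D.toCpx γ`. -/
theorem exists_invariant_form_Q [IsTotallyReal F] (hD : IsTotPosDef D.q)
    (Q : Submodule ℂ (D.Cpx → ℂ)) [FiniteDimensional ℂ Q]
    (hQ : Q ≤ Subalgebra.toSubmodule (polyFun D))
    (hQt : ∀ γ : D.Rat, ∀ p ∈ Q, (fun x => p (x * D.toCpx γ)) ∈ Q) :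
    ∃ B : (D.Cpx → ℂ) → (D.Cpx → ℂ) → ℂ, (∀ p q r, B (p + q) r = B p r + B q r) ∧
      (∀ (c : ℂ) p q, B (c • p) q = c * B p q) ∧ (∀ p q, B q p = starRingEnd ℂ (B p q)) ∧
      (∀ p, 0 ≤ (B p p).re) ∧ (∀ p ∈ Q, p ≠ 0 → 0 < (B p p).re) ∧
      ∀ γ : D.Rat, ∀ p ∈ Q, ∀ q ∈ Q,
        B (fun x => p (x * D.toCpx γ)) (fun x => q (x * D.toCpx γ)) = B p q := by
  exact exists_invariant_form (X := D.Cpx) (Γ := D.Rat) (fun γ x => x * D.toCpx γ)
    (fun x => by rw [map_one, mul_one]) (fun γ δ x => by rw [map_mul, mul_assoc]) Q hQt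
    (fun p hp x => exists_bound_poly hD (hQ hp) x)

/-- The action of `G(F)` on `G(𝔸_f) / V` by left multiplication. -/
@[reducible] noncomputable def ratAction (D : Datum F n) (V : Subgroup D.Ad) :
    MulAction D.Rat (D.Ad ⧸ V) :=
  MulAction.compHom (D.Ad ⧸ V) D.toAd

/-- Proof: `γ • y = y'` means `D.toAd γ ∈ y'.out V y.out⁻¹`, a compact set; use
`finite_rat_of_isCompact`. -/
theorem finite_rat_smul [IsTotallyReal F] (hD : IsTotPosDef D.q) {V : Subgroup D.Ad}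
    (hV : IsCompact (V : Set D.Ad)) (y y' : D.Ad ⧸ V) :
    {γ : D.Rat | D.toAd γ • y = y'}.Finite := by
  obtain ⟨g, rfl⟩ := QuotientGroup.mk_surjective y
  obtain ⟨g', rfl⟩ := QuotientGroup.mk_surjective y'
  have hcont : Continuous fun k : D.Ad => g' * k * g⁻¹ :=
    (continuous_const.mul continuous_id).mul continuous_const
  refine (finite_rat_of_isCompact hD _ (hV.image hcont)).subset ?_
  intro γ hγ
  have h : ((D.toAd γ * g : D.Ad) : D.Ad ⧸ V) = ((g' : D.Ad) : D.Ad ⧸ V) := hγ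
  have h1 : (g'⁻¹ * (D.toAd γ * g)) ∈ V := QuotientGroup.eq.1 h.symm
  exact ⟨_, h1, by group⟩

/-- Proof: the classes of the representatives of `exists_finite_reps`. -/
theorem exists_finite_orbits [IsTotallyReal F] (hD : IsTotPosDef D.q) {V : Subgroup D.Ad}
    (hV : IsOpen (V : Set D.Ad)) :
    ∃ X : Finset (D.Ad ⧸ V), ∀ y, ∃ γ : D.Rat, D.toAd γ • y ∈ X := by
  classical
  obtain ⟨X, hX⟩ := exists_finite_reps hD V hV
  refine ⟨X.image (fun c => ((c : D.Ad) : D.Ad ⧸ V)), fun y => ?_⟩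
  obtain ⟨g, rfl⟩ := QuotientGroup.mk_surjective y
  obtain ⟨γ, c, hc, k, hk, rfl⟩ := hX g
  refine ⟨γ⁻¹, Finset.mem_image.2 ⟨c, hc, ?_⟩⟩
  change ((c : D.Ad) : D.Ad ⧸ V) = ((D.toAd γ⁻¹ * (D.toAd γ * c * k) : D.Ad) : D.Ad ⧸ V)
  rw [QuotientGroup.eq, map_inv]
  have : c⁻¹ * ((D.toAd γ)⁻¹ * (D.toAd γ * c * k)) = k := by group
  rw [this]
  exact hk

end Pool.Agent.Lib.MP_666dc0_nt.WL
end

section

open NumberField IsDedekindDomain
open scoped NumberField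

namespace Pool.Agent.Lib.MP_666dc0_nt.WL

/-!
# WL, C6: the inner product on the space of forms
-/

variable {F : Type} [Field F] [NumberField F] {n : ℕ} {D : Datum F n}
  {S : Finset (HeightOneSpectrum (𝓞 F))} {U V : Subgroup D.Ad}

/-- The representative of a translated class. -/
private theorem c6_out (D : Datum F n) (V : Subgroup D.Ad) (g : D.Ad) (y : D.Ad ⧸ V) :
    ∃ k ∈ V, (g • y).out = g * y.out * k := by
  refine ⟨(g * y.out)⁻¹ * (g • y).out, ?_, by group⟩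
  rw [← QuotientGroup.eq]
  rw [QuotientGroup.out_eq']
  change ((g • ((y.out : D.Ad) : D.Ad ⧸ V)) : D.Ad ⧸ V) = g • y
  rw [QuotientGroup.out_eq']

/-- Finite sums and the form. -/
private theorem c6_finsum_left {X Y : Type} (B : (X → ℂ) → (X → ℂ) → ℂ)
    (hadd : ∀ p q r, B (p + q) r = B p r + B q r) (hsmul : ∀ (c : ℂ) p q, B (c • p) q = c * B p q)
    (c : Y → ℂ) (hc : (Function.support c).Finite) (f : Y → X → ℂ) (r : X → ℂ) :
    B (∑ᶠ y, c y • f y) r = ∑ᶠ y, c y * B (f y) r := by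
  have h0 : B 0 r = 0 := by
    have h := hsmul 0 0 r
    rwa [zero_smul, zero_mul] at h
  let φ : (X → ℂ) →+ ℂ := { toFun := fun p => B p r, map_zero' := h0, map_add' := fun p q => hadd p q r }
  have h1 : φ (∑ᶠ y, c y • f y) = ∑ᶠ y, φ (c y • f y) := by
    refine φ.map_finsum (hc.subset ?_)
    intro y hy hcy
    apply hy
    change c y • f y = 0
    rw [hcy, zero_smul]
  refine h1.trans ?_
  exact finsum_congr fun y => hsmul (c y) (f y) r

/-- The inner product on `forms D Q V`, for which the Hecke operators have adjoints.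
Proof: let `B` be the form on `Q` from `exists_invariant_form_Q` and `w` the weight function on
`Y = G(𝔸_f) / V` from `exists_weight` (action `ratAction D V`, `finite_rat_smul`,
`exists_finite_orbits`). Put `β f g = ∑ᶠ y : Y, w y * B (f y.out) (g y.out)`.
Positivity: all terms are `≥ 0`; if `f ≠ 0` then `f x ≠ 0` for some `x`; the function
`f (γ x) = (f x)(· γ)` is non-zero for all `γ` (translation is injective), and
`w (γ • ⟦x⟧) ≠ 0` for some `γ` (their sum is `1`).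
Adjoints: let `h'` be as in `exists_adjoint` and
`Φ x z = ker h V (x.out⁻¹ * z.out) * B (f z.out) (g x.out)`. It is invariant under `γ`:
`(γ • x).out = γ x.out k` with `k ∈ V`, `ker` is bi-invariant (`ker_mul_left`, `ker_mul_right`),
`f (γ z k) = (f z)(· γ)` and `B` is invariant. Rows are finite by `finite_ker`, columns by
`finite_ker` for `h'` (`ker h V (x⁻¹ z) = ker h' V (z⁻¹ x)`). By `act_eq_finsum` (and linearity of
`B`), `β (h.act f) g = ∑ᶠ x, w x * ∑ᶠ z, Φ x z`, and, since `ker` is rational, hence real,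
`β f (h'.act g) = ∑ᶠ z, w z * ∑ᶠ x, Φ x z`. Now `unfolding`. -/
theorem exists_inner [IsTotallyReal F] (hD : IsTotPosDef D.q) (hV : Good S U V)
    (Q : Submodule ℂ (D.Cpx → ℂ)) [FiniteDimensional ℂ Q]
    (hQ : Q ≤ Subalgebra.toSubmodule (polyFun D))
    (hQt : ∀ γ : D.Rat, ∀ p ∈ Q, (fun x => p (x * D.toCpx γ)) ∈ Q) :
    ∃ β : (D.Ad → D.Cpx → ℂ) → (D.Ad → D.Cpx → ℂ) → ℂ,
      (∀ f g k, β (f + g) k = β f k + β g k) ∧ (∀ (c : ℂ) f g, β (c • f) g = c * β f g) ∧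
      (∀ f g, β g f = starRingEnd ℂ (β f g)) ∧ (∀ f, IsForm D Q V f → f ≠ 0 → 0 < (β f f).re) ∧
      ∀ v, v ∉ S → ∀ h : Hecke U v, ∃ h' : Hecke U v, ∀ f g, IsForm D Q V f → IsForm D Q V g →
        β (h.act f) g = β f (h'.act g) := by
  classical
  obtain ⟨B, hBadd, hBsmul, hBconj, hBnn, hBpos, hBinv⟩ := exists_invariant_form_Q hD Q hQ hQt
  let _ : MulAction D.Rat (D.Ad ⧸ V) := ratAction D V
  have hsm : ∀ (γ : D.Rat) (y : D.Ad ⧸ V), γ • y = D.toAd γ • y := fun _ _ => rfl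
  have hfin : ∀ y y' : D.Ad ⧸ V, {γ : D.Rat | γ • y = y'}.Finite :=
    fun y y' => finite_rat_smul hD hV.isCompact y y'
  obtain ⟨X, hX⟩ := exists_finite_orbits (D := D) hD hV.isOpen
  obtain ⟨w, hw0, hwfin, hw1, hwfin'⟩ := exists_weight hfin X hX
  have hβ : ∀ T : (D.Ad ⧸ V) → ℂ, ∑ y ∈ hwfin.toFinset, (w y : ℂ) * T y = ∑ᶠ y, (w y : ℂ) * T y := by
    intro T
    symm
    apply finsum_eq_sum_of_support_subset
    intro y hy
    rw [Set.Finite.coe_toFinset]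
    intro hwy
    apply hy
    change (w y : ℂ) * T y = 0
    rw [hwy, Complex.ofReal_zero, zero_mul]
  -- values of a form at the representative of a translated class
  have hform : ∀ f : D.Ad → D.Cpx → ℂ, IsForm D Q V f → ∀ (γ : D.Rat) (y : D.Ad ⧸ V),
      f (γ • y).out = fun x => f y.out (x * D.toCpx γ) := by
    intro f hf γ y
    obtain ⟨k, hk, hk'⟩ := c6_out D V (D.toAd γ) y
    rw [hsm, hk', hf.right _ k hk]
    funext x
    exact hf.left γ y.out x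
  have hBc : ∀ p q r, B r (p + q) = B r p + B r q := by
    intro p q r
    rw [hBconj (p + q) r, hBadd, map_add, ← hBconj p r, ← hBconj q r]
  refine ⟨fun f g => ∑ y ∈ hwfin.toFinset, (w y : ℂ) * B (f y.out) (g y.out), ?_, ?_, ?_, ?_, ?_⟩
  · intro f g k
    rw [← Finset.sum_add_distrib]
    refine Finset.sum_congr rfl fun y _ => ?_
    rw [Pi.add_apply, hBadd, mul_add]
  · intro c f g
    rw [Finset.mul_sum]
    refine Finset.sum_congr rfl fun y _ => ?_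
    rw [Pi.smul_apply, hBsmul]
    ring
  · intro f g
    rw [map_sum]
    refine Finset.sum_congr rfl fun y _ => ?_
    rw [map_mul, Complex.conj_ofReal, ← hBconj]
  · intro f hf hne
    obtain ⟨x, hx⟩ : ∃ x, f x ≠ 0 := Function.ne_iff.1 hne
    -- a class with non-zero weight
    obtain ⟨γ, hγ⟩ : ∃ γ : D.Rat, w (γ • ((x : D.Ad) : D.Ad ⧸ V)) ≠ 0 := by
      by_contra hcon
      push Not at hcon
      have h1 := hw1 ((x : D.Ad) : D.Ad ⧸ V)
      rw [finsum_congr hcon, finsum_zero] at h1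
      exact zero_ne_one h1
    set y : D.Ad ⧸ V := γ • ((x : D.Ad) : D.Ad ⧸ V) with hy
    have hfy : f y.out ≠ 0 := by
      intro h0
      apply hx
      have h1 := hform f hf γ ((x : D.Ad) : D.Ad ⧸ V)
      rw [← hy, h0] at h1
      -- the representative of the class of `x`
      have h2 : ∃ k ∈ V, ((x : D.Ad) : D.Ad ⧸ V).out = x * k :=
        ⟨x⁻¹ * ((x : D.Ad) : D.Ad ⧸ V).out, by
          rw [← QuotientGroup.eq, QuotientGroup.out_eq'], by group⟩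
      obtain ⟨k, hk, hk'⟩ := h2
      rw [hk', hf.right x k hk] at h1
      funext z
      have h3 := congrFun h1 (z * (D.toCpx γ)⁻¹)
      rw [inv_mul_cancel_right] at h3
      exact h3.symm
    have hterm : ∀ y : D.Ad ⧸ V, ((w y : ℂ) * B (f y.out) (f y.out)).re =
        w y * (B (f y.out) (f y.out)).re := fun y => Complex.re_ofReal_mul _ _
    rw [Complex.re_sum]
    refine Finset.sum_pos' (fun z _ => ?_) ⟨y, ?_, ?_⟩
    · rw [hterm]
      exact mul_nonneg (hw0 z) (hBnn _)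
    · rw [Set.Finite.mem_toFinset]
      exact hγ
    · rw [hterm]
      exact mul_pos (lt_of_le_of_ne (hw0 y) (Ne.symm hγ)) (hBpos _ (hf.mem _) hfy)
  · intro v hv h
    obtain ⟨h', hh'⟩ := exists_adjoint hV hv h
    refine ⟨h', fun f g hf hg => ?_⟩
    let Φ : (D.Ad ⧸ V) → (D.Ad ⧸ V) → ℂ := fun x z =>
      ((ker h V (x.out⁻¹ * z.out) : ℚ) : ℂ) * B (f z.out) (g x.out)
    have hΦ : ∀ (γ : D.Rat) x z, Φ (γ • x) (γ • z) = Φ x z := by
      intro γ x z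
      change ((ker h V ((γ • x).out⁻¹ * (γ • z).out) : ℚ) : ℂ) * B (f (γ • z).out) (g (γ • x).out) =
        ((ker h V (x.out⁻¹ * z.out) : ℚ) : ℂ) * B (f z.out) (g x.out)
      rw [hform f hf, hform g hg, hBinv γ _ (hf.mem _) _ (hg.mem _)]
      obtain ⟨k, hk, hk'⟩ := c6_out D V (D.toAd γ) x
      obtain ⟨l, hl, hl'⟩ := c6_out D V (D.toAd γ) z
      rw [hsm, hsm, hk', hl']
      have h1 : (D.toAd γ * x.out * k)⁻¹ * (D.toAd γ * z.out * l) =
          k⁻¹ * (x.out⁻¹ * z.out) * l := by group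
      rw [h1, ker_mul_right hV hv h _ hl, ker_mul_left hV hv h _ (V.inv_mem hk)]
    have hrow : ∀ x, (Function.support (Φ x)).Finite := by
      intro x
      refine (finite_ker hV hv h x.out).subset ?_
      intro z hz h0
      apply hz
      change ((ker h V (x.out⁻¹ * z.out) : ℚ) : ℂ) * B (f z.out) (g x.out) = 0
      rw [h0, Rat.cast_zero, zero_mul]
    have hkk : ∀ x z : D.Ad ⧸ V, ker h' V (z.out⁻¹ * x.out) = ker h V (x.out⁻¹ * z.out) := by
      intro x z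
      rw [hh', mul_inv_rev, inv_inv]
    have hcol : ∀ z, (Function.support fun x => Φ x z).Finite := by
      intro z
      refine (finite_ker hV hv h' z.out).subset ?_
      intro x hx h0
      apply hx
      change ((ker h V (x.out⁻¹ * z.out) : ℚ) : ℂ) * B (f z.out) (g x.out) = 0
      rw [← hkk, h0, Rat.cast_zero, zero_mul]
    have hL : ∀ x : D.Ad ⧸ V, B (h.act f x.out) (g x.out) = ∑ᶠ z, Φ x z := by
      intro x
      rw [act_eq_finsum hV hv h f hf.right x.out]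
      refine c6_finsum_left B hBadd hBsmul
        (fun c : D.Ad ⧸ V => ((ker h V (x.out⁻¹ * c.out) : ℚ) : ℂ)) ?_ (fun c => f c.out) (g x.out)
      refine (finite_ker hV hv h x.out).subset ?_
      intro z hz h0
      apply hz
      change ((ker h V (x.out⁻¹ * z.out) : ℚ) : ℂ) = 0
      rw [h0, Rat.cast_zero]
    have hR : ∀ z : D.Ad ⧸ V, B (f z.out) (h'.act g z.out) = ∑ᶠ x, Φ x z := by
      intro z
      rw [act_eq_finsum hV hv h' g hg.right z.out, hBconj]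
      have hfinK : (Function.support
          (fun c : D.Ad ⧸ V => ((ker h' V (z.out⁻¹ * c.out) : ℚ) : ℂ))).Finite := by
        refine (finite_ker hV hv h' z.out).subset ?_
        intro x hx h0
        apply hx
        change ((ker h' V (z.out⁻¹ * x.out) : ℚ) : ℂ) = 0
        rw [h0, Rat.cast_zero]
      rw [c6_finsum_left B hBadd hBsmul _ hfinK (fun c => g c.out) (f z.out)]
      have h1 := (starRingEnd ℂ).toAddMonoidHom.map_finsum (f := fun c : D.Ad ⧸ V =>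
        ((ker h' V (z.out⁻¹ * c.out) : ℚ) : ℂ) * B (g c.out) (f z.out)) (hfinK.subset (by
          intro c hc h0
          apply hc
          have h0' : ((ker h' V (z.out⁻¹ * c.out) : ℚ) : ℂ) = 0 := h0
          change ((ker h' V (z.out⁻¹ * c.out) : ℚ) : ℂ) * B (g c.out) (f z.out) = 0
          rw [h0', zero_mul]))
      refine h1.trans ?_
      refine finsum_congr fun x => ?_
      change starRingEnd ℂ (((ker h' V (z.out⁻¹ * x.out) : ℚ) : ℂ) * B (g x.out) (f z.out)) =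
        ((ker h V (x.out⁻¹ * z.out) : ℚ) : ℂ) * B (f z.out) (g x.out)
      rw [map_mul, ← hBconj, hkk]
      congr 1
      exact map_ratCast (starRingEnd ℂ) _
    have hmain := unfolding hfin w hwfin hw1 Φ hΦ hrow hcol
    calc ∑ y ∈ hwfin.toFinset, (w y : ℂ) * B (h.act f y.out) (g y.out)
        = ∑ y ∈ hwfin.toFinset, (w y : ℂ) * ∑ᶠ z, Φ y z :=
          Finset.sum_congr rfl fun y _ => by rw [hL]
      _ = ∑ᶠ x, (w x : ℂ) * ∑ᶠ z, Φ x z := hβ fun x => ∑ᶠ z, Φ x z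
      _ = ∑ᶠ z, (w z : ℂ) * ∑ᶠ x, Φ x z := hmain
      _ = ∑ y ∈ hwfin.toFinset, (w y : ℂ) * ∑ᶠ x, Φ x y := (hβ fun z => ∑ᶠ x, Φ x z).symm
      _ = ∑ y ∈ hwfin.toFinset, (w y : ℂ) * B (f y.out) (h'.act g y.out) :=
          Finset.sum_congr rfl fun y _ => by rw [hR]

end Pool.Agent.Lib.MP_666dc0_nt.WL
end
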