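import Pool.Agent.Lib.MP_666dc0_nt.WL.D1
import Pool.Agent.Lib.MP_666dc0_nt.WL.Sys

section

open NumberField IsDedekindDomain
open scoped NumberField

namespace Pool.Agent.Lib.MP_666dc0_nt.WL

/-!
# WL, D2b: Hecke operators and the evaluation
-/

variable {F : Type} [Field F] [NumberField F] {n : ℕ} {D : Datum F n}
  {ℓ : ℕ} [Fact ℓ.Prime] {ι : ℂ ≃+* PadicAlgCl ℓ} {U : Subgroup D.Ad}

/-- Proof: the elements `x` of `G(F_v)`, `v ∤ ℓ`, satisfy `hat x = 1` (`hat_eq_one`), so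
`hat (g x) = hat g`; `ι` of a rational number is this rational number. -/
theorem ev_act (H : HatData F ℓ ι) (y₀ : D.Cpx) {v : HeightOneSpectrum (𝓞 F)}
    (hv : (ℓ : 𝓞 F) ∉ v.asIdeal) (h : Hecke U v) (f : D.Ad → D.Cpx → ℂ) :
    H.ev y₀ (h.act f) = h.actK (H.ev y₀ f) := by
  funext g
  have hx : ∀ x : locSub D v, H.hat D (g * (x : D.Ad)) = H.hat D g := by
    intro x
    rw [map_mul, hat_eq_one H (g := (x : D.Ad)), mul_one]
    intro w hw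
    exact x.2 w (fun h => hv (h ▸ hw))
  unfold HatData.ev Hecke.act Hecke.actK
  simp only [Finsupp.sum, Finset.sum_apply, Pi.smul_apply, map_sum, smul_eq_mul, map_mul,
    map_ratCast]
  refine Finset.sum_congr rfl fun c _ => ?_
  rw [← map_mul (H.hat D), hx]

/-- Proof: ultrametric inequality, and `‖(a : PadicAlgCl ℓ)‖ = ‖(a : ℚ_[ℓ])‖ ≤ 1` for the values `a`
of `h` (`PadicAlgCl.norm_extends`). -/
theorem norm_actK_le {v : HeightOneSpectrum (𝓞 F)} {h : Hecke U v} (hh : h.IsIntegral ℓ)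
    {φ : D.Ad → PadicAlgCl ℓ} {C : ℝ} (hC : 0 ≤ C) (hφ : ∀ g, ‖φ g‖ ≤ C) (g : D.Ad) :
    ‖h.actK φ g‖ ≤ C := by
  unfold Hecke.actK
  rw [Finsupp.sum]
  refine IsUltrametricDist.norm_sum_le_of_forall_le_of_nonneg hC fun c _ => ?_
  rw [norm_mul]
  have h1 : ‖((h.1 c : ℚ) : PadicAlgCl ℓ)‖ ≤ 1 := by
    have h2 := PadicAlgCl.norm_extends ℓ ((h.1 c : ℚ) : ℚ_[ℓ])
    have h3 : (((h.1 c : ℚ) : ℚ_[ℓ]) : PadicAlgCl ℓ) = ((h.1 c : ℚ) : PadicAlgCl ℓ) := by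
      exact map_ratCast (algebraMap ℚ_[ℓ] (PadicAlgCl ℓ)) _
    rw [← h3, h2]
    exact hh c
  calc ‖((h.1 c : ℚ) : PadicAlgCl ℓ)‖ * ‖φ (g * (Quotient.out c : locSub D v))‖
      ≤ 1 * C := mul_le_mul h1 (hφ _) (norm_nonneg _) zero_le_one
    _ = C := one_mul C

/-- Linearity of `actK` in the form that is needed. -/
theorem actK_sum {v : HeightOneSpectrum (𝓞 F)} (h : Hecke U v) {I : Type} (s : Finset I)
    (φ : I → D.Ad → PadicAlgCl ℓ) :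
    h.actK (fun g => ∑ i ∈ s, φ i g) = fun g => ∑ i ∈ s, h.actK (φ i) g := by
  funext g
  unfold Hecke.actK
  simp only [Finsupp.sum, Finset.mul_sum]
  exact Finset.sum_comm

/-- Linearity of `actK` in the form that is needed. -/
theorem actK_smul {v : HeightOneSpectrum (𝓞 F)} (h : Hecke U v) (c : PadicAlgCl ℓ)
    (φ : D.Ad → PadicAlgCl ℓ) :
    h.actK (fun g => c * φ g) = fun g => c * h.actK φ g := by
  funext g
  unfold Hecke.actK
  simp only [Finsupp.sum, Finset.mul_sum]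
  exact Finset.sum_congr rfl fun c' _ => by ring

end Pool.Agent.Lib.MP_666dc0_nt.WL
end

section

open NumberField IsDedekindDomain
open scoped NumberField

namespace Pool.Agent.Lib.MP_666dc0_nt.WL

/-!
# WL, D5: sums of eigenfunctions
-/

variable {F : Type} [Field F] [NumberField F] {n : ℕ} {D : Datum F n}
  {ℓ : ℕ} [Fact ℓ.Prime] {ι : ℂ ≃+* PadicAlgCl ℓ} {S : Finset (HeightOneSpectrum (𝓞 F))}
  {U : Subgroup D.Ad}

/-- Integers have norm at most `1` in `ℚ̄_ℓ`. -/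
theorem D5_norm_int_le {ℓ : ℕ} [Fact ℓ.Prime] (a : ℤ) : ‖(a : PadicAlgCl ℓ)‖ ≤ 1 := by
  have h1 : (a : PadicAlgCl ℓ) = algebraMap ℚ_[ℓ] (PadicAlgCl ℓ) (a : ℚ_[ℓ]) := by
    rw [map_intCast]
  rw [h1, PadicAlgCl.norm_extends]
  exact Padic.norm_int_le_one a

private theorem D5_aux {a b B c : ℝ} (ha : 0 ≤ a) (hB : 0 ≤ B)
    (h1 : a ≤ c / (1 + B)) (h2 : b ≤ B) : a * b ≤ c := by
  have h3 : a * (1 + B) ≤ c := by
    rw [le_div_iff₀ (by linarith)] at h1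
    exact h1
  nlinarith

/-- The evaluation of the sum of a list of functions. -/
theorem D5_ev_sum {ℓ : ℕ} [Fact ℓ.Prime] {ι : ℂ ≃+* PadicAlgCl ℓ} (H : HatData F ℓ ι)
    (y₀ : D.Cpx) (l : List (D.Ad → D.Cpx → ℂ)) (g : D.Ad) :
    H.ev y₀ l.sum g = ∑ i : Fin l.length, H.ev y₀ (l.get i) g := by
  induction l with
  | nil =>
    simp [HatData.ev]
  | cons a l ih =>
    rw [List.sum_cons]
    have h1 : H.ev y₀ (a + l.sum) g = H.ev y₀ a g + H.ev y₀ l.sum g := by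
      unfold HatData.ev
      rw [Pi.add_apply, Pi.add_apply, map_add]
    rw [h1, ih]
    simp only [List.length_cons]
    rw [Fin.sum_univ_succ]
    rfl

/-- Proof: `MvPolynomial.induction_on P` (the statement for all `g`).
Constants: `ι (a : ℂ) = a` for `a : ℤ`, `‖(a : PadicAlgCl ℓ)‖ ≤ 1`. Sums: ultrametric inequality.
`P * X x`: `∑ i, ι (P(e i)) * ι (e i x) * φ i g` is the value at `g` of
`x.1.2.actK (fun g => ∑ i, ι (P(e i)) * φ i g)` (`actK_sum`, `actK_smul`, `he`); use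
`norm_actK_le` (`x.2.2`). -/
theorem norm_sum_pval_le {I : Type} [Fintype I] (φ : I → D.Ad → PadicAlgCl ℓ)
    (e : I → ∀ v, Hecke U v → ℂ)
    (he : ∀ (i : I) (x : IX ℓ S U),
      x.1.2.actK (φ i) = fun g => ι (e i x.1.1 x.1.2) * φ i g) {C : ℝ} (hC : 0 ≤ C)
    (hφ : ∀ g, ‖∑ i, φ i g‖ ≤ C) (P : MvPolynomial (IX ℓ S U) ℤ) (g : D.Ad) :
    ‖∑ i, ι (pval ℓ S (e i) P) * φ i g‖ ≤ C := by
  induction P using MvPolynomial.induction_on generalizing g with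
  | C a =>
    have h1 : ∀ i, ι (pval ℓ S (e i) (MvPolynomial.C a)) = (a : PadicAlgCl ℓ) := by
      intro i
      have h2 : pval ℓ S (e i) (MvPolynomial.C a) = (a : ℂ) := by
        unfold pval
        change MvPolynomial.aeval _ (MvPolynomial.C a) = (a : ℂ)
        rw [MvPolynomial.aeval_C]
        rfl
      rw [h2, map_intCast]
    simp only [h1]
    rw [← Finset.mul_sum, norm_mul]
    calc ‖(a : PadicAlgCl ℓ)‖ * ‖∑ i, φ i g‖ ≤ 1 * C :=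
          mul_le_mul (D5_norm_int_le a) (hφ g) (norm_nonneg _) zero_le_one
      _ = C := one_mul C
  | add p q hp hq =>
    simp only [map_add, add_mul, Finset.sum_add_distrib]
    exact (IsUltrametricDist.norm_add_le_max _ _).trans (max_le (hp g) (hq g))
  | mul_X p x hp =>
    have h1 : ∑ i, ι (pval ℓ S (e i) (p * MvPolynomial.X x)) * φ i g =
        x.1.2.actK (fun g => ∑ i, ι (pval ℓ S (e i) p) * φ i g) g := by
      rw [actK_sum]
      refine Finset.sum_congr rfl fun i _ => ?_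
      rw [actK_smul, he i x]
      have h2 : pval ℓ S (e i) (MvPolynomial.X x) = e i x.1.1 x.1.2 := by
        unfold pval
        change MvPolynomial.aeval _ (MvPolynomial.X x) = _
        rw [MvPolynomial.aeval_X]
      rw [map_mul, h2, map_mul, mul_assoc]
    rw [h1]
    exact norm_actK_le x.2.2 hC hp g

/-- `norm_sum_pval_le` for the difference of one function and finitely many. -/
theorem D5_two {N : ℕ} (φ₀ : D.Ad → PadicAlgCl ℓ) (φ : Fin N → D.Ad → PadicAlgCl ℓ)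
    (lam : ∀ v, Hecke U v → ℂ) (e : Fin N → ∀ v, Hecke U v → ℂ)
    (h0 : ∀ x : IX ℓ S U, x.1.2.actK φ₀ = fun g => ι (lam x.1.1 x.1.2) * φ₀ g)
    (he : ∀ (i : Fin N) (x : IX ℓ S U),
      x.1.2.actK (φ i) = fun g => ι (e i x.1.1 x.1.2) * φ i g) {C : ℝ} (hC : 0 ≤ C)
    (hφ : ∀ g, ‖φ₀ g - ∑ i, φ i g‖ ≤ C) (P : MvPolynomial (IX ℓ S U) ℤ) (g : D.Ad) :
    ‖ι (pval ℓ S lam P) * φ₀ g - ∑ i, ι (pval ℓ S (e i) P) * φ i g‖ ≤ C := by
  obtain ⟨Φ, hΦ0, hΦ⟩ : ∃ Φ : Option (Fin N) → D.Ad → PadicAlgCl ℓ,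
      Φ none = φ₀ ∧ ∀ i, Φ (some i) = fun g => (-1 : PadicAlgCl ℓ) * φ i g :=
    ⟨fun o => o.elim φ₀ (fun i g => (-1 : PadicAlgCl ℓ) * φ i g), rfl, fun _ => rfl⟩
  obtain ⟨E, hE0, hE⟩ : ∃ E : Option (Fin N) → ∀ v, Hecke U v → ℂ,
      E none = lam ∧ ∀ i, E (some i) = e i :=
    ⟨fun o => o.elim lam e, rfl, fun _ => rfl⟩
  have hEφ : ∀ (o : Option (Fin N)) (x : IX ℓ S U),
      x.1.2.actK (Φ o) = fun g => ι (E o x.1.1 x.1.2) * Φ o g := by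
    intro o x
    cases o with
    | none =>
      rw [hΦ0, hE0]
      exact h0 x
    | some i =>
      rw [hΦ, hE, actK_smul, he i x]
      funext g
      ring
  have hb : ∀ g, ‖∑ o, Φ o g‖ ≤ C := by
    intro g
    have h1 : ∑ o, Φ o g = φ₀ g - ∑ i, φ i g := by
      rw [Fintype.sum_option, hΦ0]
      simp only [hΦ]
      rw [← Finset.mul_sum]
      ring
    rw [h1]
    exact hφ g
  have key := norm_sum_pval_le Φ E hEφ hC hb P g
  have h1 : ∑ o, ι (pval ℓ S (E o) P) * Φ o g =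
      ι (pval ℓ S lam P) * φ₀ g - ∑ i, ι (pval ℓ S (e i) P) * φ i g := by
    rw [Fintype.sum_option, hΦ0, hE0]
    simp only [hΦ, hE]
    have h2 : ∀ i, ι (pval ℓ S (e i) P) * ((-1 : PadicAlgCl ℓ) * φ i g) =
        (-1 : PadicAlgCl ℓ) * (ι (pval ℓ S (e i) P) * φ i g) := fun i => by ring
    simp only [h2]
    rw [← Finset.mul_sum]
    ring
  rw [← h1]
  exact key

/-- The evaluation of an eigenform is an eigenfunction. Proof: `ev_act` and `IsEigen`. -/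
theorem ev_eigen (H : HatData F ℓ ι) (y₀ : D.Cpx) 
    (hSl : ∀ v : HeightOneSpectrum (𝓞 F), (ℓ : 𝓞 F) ∈ v.asIdeal → v ∈ S)
    {f : D.Ad → D.Cpx → ℂ} {lam : ∀ v, Hecke U v → ℂ} (hf : IsEigen S f lam) (x : IX ℓ S U) :
    x.1.2.actK (H.ev y₀ f) = fun g => ι (lam x.1.1 x.1.2) * H.ev y₀ f g := by
  have hv : (ℓ : 𝓞 F) ∉ x.1.1.asIdeal := fun h => x.2.1 (hSl _ h)
  rw [← ev_act H y₀ hv x.1.2 f, hf x.1.1 x.2.1 x.1.2]
  funext g
  unfold HatData.ev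
  simp only [Pi.smul_apply, smul_eq_mul, map_mul]

/-- From approximation to control.
Proof: let `c₀ = ‖ev f g₀‖ > 0`; given `ε`, choose `l` with error `≤ c₀ ε`, and for every member
`m i` (`i : Fin l.length`) a system `e i ∈ Fam`. Take `I = {e i}` and
`δ = c₀ ε / (1 + ∑ i, ‖ev (m i) g₀‖)`. For `P` with `‖ι (P(e i))‖ ≤ δ` apply `norm_sum_pval_le` to the
index set `Option (Fin l.length)`, with `φ none = ev f`, `φ (some i) = - ev (m i)`, and the systems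
`lam`, `e i`; the sum is `ev f - ev l.sum`. So `‖ι (P(lam)) ev f g₀ - ∑ ι (P(e i)) ev (m i) g₀‖ ≤
c₀ ε`, and `‖ι (P(e i)) ev (m i) g₀‖ ≤ c₀ ε`. Hence `‖ι (P(lam))‖ c₀ ≤ c₀ ε`. -/
theorem controlled_of_approx (H : HatData F ℓ ι)
    (hSl : ∀ v : HeightOneSpectrum (𝓞 F), (ℓ : 𝓞 F) ∈ v.asIdeal → v ∈ S)
    {f : D.Ad → D.Cpx → ℂ} {lam : ∀ v, Hecke U v → ℂ} (hf : IsEigen S f lam)
    {Fam : Set (∀ v, Hecke U v → ℂ)} {y₀ : D.Cpx} {g₀ : D.Ad} (h0 : H.ev y₀ f g₀ ≠ 0)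
    (happ : ∀ ε : ℝ, 0 < ε → ∃ l : List (D.Ad → D.Cpx → ℂ),
      (∀ m ∈ l, ∃ e ∈ Fam, IsEigen S m e) ∧ ∀ g, ‖H.ev y₀ f g - H.ev y₀ l.sum g‖ ≤ ε) :
    Controlled ℓ S ι Fam lam := by
  intro ε hε
  have hc0 : 0 < ‖H.ev y₀ f g₀‖ := norm_pos_iff.2 h0
  obtain ⟨l, hl, hlε⟩ := happ (‖H.ev y₀ f g₀‖ * ε) (mul_pos hc0 hε)
  choose e heF heE using fun i : Fin l.length => hl (l.get i) (List.get_mem l i)
  obtain ⟨B, hB⟩ : ∃ B : ℝ, B = ∑ i : Fin l.length, ‖H.ev y₀ (l.get i) g₀‖ := ⟨_, rfl⟩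
  have hB0 : 0 ≤ B := hB ▸ Finset.sum_nonneg fun i _ => norm_nonneg _
  refine ⟨Set.range e, Set.finite_range e, by rintro _ ⟨i, rfl⟩; exact heF i,
    ‖H.ev y₀ f g₀‖ * ε / (1 + B), div_pos (mul_pos hc0 hε) (by linarith), ?_⟩
  intro P hP
  have key := D5_two (ι := ι) (S := S) (U := U) (H.ev y₀ f) (fun i => H.ev y₀ (l.get i)) lam e
    (fun x => ev_eigen H y₀ hSl hf x) (fun i x => ev_eigen H y₀ hSl (heE i) x)
    (mul_pos hc0 hε).le
    (by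
      intro g
      rw [← D5_ev_sum H y₀ l g]
      exact hlε g) P g₀
  have h1 : ∀ i : Fin l.length, ‖ι (pval ℓ S (e i) P) * H.ev y₀ (l.get i) g₀‖ ≤
      ‖H.ev y₀ f g₀‖ * ε := by
    intro i
    rw [norm_mul]
    have hi : ‖H.ev y₀ (l.get i) g₀‖ ≤ B := hB ▸
      Finset.single_le_sum (f := fun i : Fin l.length => ‖H.ev y₀ (l.get i) g₀‖)
        (fun i _ => norm_nonneg _) (Finset.mem_univ i)
    have hd := hP (e i) ⟨i, rfl⟩
    exact D5_aux (norm_nonneg _) hB0 hd hi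
  have h2 : ‖∑ i : Fin l.length, ι (pval ℓ S (e i) P) * H.ev y₀ (l.get i) g₀‖ ≤
      ‖H.ev y₀ f g₀‖ * ε :=
    IsUltrametricDist.norm_sum_le_of_forall_le_of_nonneg (mul_pos hc0 hε).le fun i _ => h1 i
  have h3 : ‖ι (pval ℓ S lam P) * H.ev y₀ f g₀‖ ≤ ‖H.ev y₀ f g₀‖ * ε := by
    have h4 : ι (pval ℓ S lam P) * H.ev y₀ f g₀ =
        (ι (pval ℓ S lam P) * H.ev y₀ f g₀ -
          ∑ i : Fin l.length, ι (pval ℓ S (e i) P) * H.ev y₀ (l.get i) g₀) +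
          ∑ i : Fin l.length, ι (pval ℓ S (e i) P) * H.ev y₀ (l.get i) g₀ := by ring
    rw [h4]
    exact (IsUltrametricDist.norm_add_le_max _ _).trans (max_le key h2)
  rw [norm_mul, mul_comm] at h3
  exact le_of_mul_le_mul_left h3 hc0

/-- Proof: `norm_sum_pval_le` for one function `ev f`, bounded by `C`, and `P = X x ^ k`:
`‖ι (lam x)‖ ^ k * ‖ev f g₀‖ ≤ C` for all `k`. -/
theorem norm_le_one_of_bound (H : HatData F ℓ ι)
    (hSl : ∀ v : HeightOneSpectrum (𝓞 F), (ℓ : 𝓞 F) ∈ v.asIdeal → v ∈ S)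
    {f : D.Ad → D.Cpx → ℂ} {lam : ∀ v, Hecke U v → ℂ} (hf : IsEigen S f lam)
    {y₀ : D.Cpx} {g₀ : D.Ad} (h0 : H.ev y₀ f g₀ ≠ 0) {C : ℝ} (hC : ∀ g, ‖H.ev y₀ f g‖ ≤ C)
    (x : IX ℓ S U) : ‖ι (lam x.1.1 x.1.2)‖ ≤ 1 := by
  have hc0 : 0 < ‖H.ev y₀ f g₀‖ := norm_pos_iff.2 h0
  have hC0 : 0 ≤ C := (norm_nonneg _).trans (hC g₀)
  by_contra hlt
  rw [not_le] at hlt
  have key : ∀ k : ℕ, ‖ι (lam x.1.1 x.1.2)‖ ^ k * ‖H.ev y₀ f g₀‖ ≤ C := by
    intro k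
    have h1 := norm_sum_pval_le (ι := ι) (S := S) (U := U) (I := Unit)
      (fun _ => H.ev y₀ f) (fun _ => lam) (fun _ x => ev_eigen H y₀ hSl hf x) hC0
      (by
        intro g
        rw [Fintype.sum_unique]
        exact hC g) (MvPolynomial.X x ^ k) g₀
    rw [Fintype.sum_unique] at h1
    have h2 : pval ℓ S lam (MvPolynomial.X x) = lam x.1.1 x.1.2 := by
      unfold pval
      change MvPolynomial.aeval _ (MvPolynomial.X x) = _
      rw [MvPolynomial.aeval_X]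
    rw [map_pow, h2, map_pow, norm_mul, norm_pow] at h1
    exact h1
  obtain ⟨k, hk⟩ := pow_unbounded_of_one_lt (C / ‖H.ev y₀ f g₀‖) hlt
  have h3 := key k
  rw [div_lt_iff₀ hc0] at hk
  linarith

end Pool.Agent.Lib.MP_666dc0_nt.WL
end
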