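import Pool.Agent.Lib.MP_666dc0_nt.Mg.G005
import Pool.Agent.Lib.MP_666dc0_nt.WL.D1
import Pool.Agent.Lib.MP_666dc0_nt.Mg.G003
import Pool.Agent.Lib.MP_666dc0_nt.Mg.G007
import Pool.Agent.Lib.MP_666dc0_nt.Mg.G016
import Pool.Agent.Lib.MP_666dc0_nt.Mg.G017
import Pool.Agent.Lib.MP_666dc0_nt.Mg.G019
import Pool.Agent.Lib.MP_666dc0_nt.Mg.G013
import Pool.Agent.Lib.MP_666dc0_nt.Mg.G015

section

open NumberField IsDedekindDomain
open scoped NumberField

namespace Pool.Agent.Lib.MP_666dc0_nt.WL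

/-!
# WL, E1: density of the deep weights on a level at `ℓ`
-/

variable {F : Type} [Field F] [NumberField F] {n : ℕ} {D : Datum F n}
  {ℓ : ℕ} [Fact ℓ.Prime] {ι : ℂ ≃+* PadicAlgCl ℓ} {U K : Subgroup D.Ad}

/-- The entries of an element of `G(𝔸_f)` are continuous functions. -/
theorem E1_continuous_mat (i j : Fin n) : Continuous fun g : D.Ad => mat g i j := by
  have h1 := (isEmbedding_entries (D := D)).continuous
  exact (continuous_apply_apply i j).comp (continuous_fst.comp h1)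

/-- Triviality at a place is a closed condition. -/
theorem E1_isClosed_trivialAt (v : HeightOneSpectrum (𝓞 F)) :
    IsClosed {g : D.Ad | TrivialAt v g} := by
  have hset : {g : D.Ad | TrivialAt v g} = ⋂ i, ⋂ j,
      {g : D.Ad | (mat g i j v : v.adicCompletion F) =
        (1 : Matrix (Fin n) (Fin n) (v.adicCompletion F)) i j} := by
    ext g
    simp only [Set.mem_iInter, Set.mem_ofPred_eq]
    constructor
    · intro h i j
      exact congrFun (congrFun h i) j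
    · intro h
      exact Matrix.ext h
  rw [hset]
  refine isClosed_iInter fun i => isClosed_iInter fun j => ?_
  have h1 : Continuous fun g : D.Ad => (mat g i j v : v.adicCompletion F) :=
    (RestrictedProduct.continuous_eval v).comp (E1_continuous_mat i j)
  exact isClosed_eq h1 continuous_const

/-- Proof: `K` is the set of the elements of the compact set `U ⊔ K` that are trivial at all places not
above `ℓ` (write `g = u k`, `mem_sup_iff`; then `u` is trivial everywhere), and triviality at a place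
is a closed condition (the map `g ↦ (mat g)_v` is continuous). -/
theorem isCompact_of_isLevel (hU : IsTame ℓ U) (hK : IsLevel ℓ U K) :
    IsCompact (K : Set D.Ad) := by
  have hset : (K : Set D.Ad) = ((U ⊔ K : Subgroup D.Ad) : Set D.Ad) ∩
      ⋂ v : HeightOneSpectrum (𝓞 F), ⋂ _ : (ℓ : 𝓞 F) ∉ v.asIdeal, {g : D.Ad | TrivialAt v g} := by
    ext g
    simp only [Set.mem_inter_iff, SetLike.mem_coe, Set.mem_iInter, Set.mem_ofPred_eq]
    constructor
    · intro hg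
      exact ⟨Subgroup.mem_sup_right hg, fun v hv => hK.supp g hg v hv⟩
    · rintro ⟨hg, hg'⟩
      obtain ⟨u, hu, k, hk, rfl⟩ := (mem_sup_iff hU hK.supp).1 hg
      have h1 : u = 1 := by
        refine eq_one_of_trivialAt fun v => ?_
        by_cases hv : (ℓ : 𝓞 F) ∈ v.asIdeal
        · exact hU u hu v hv
        · have h2 := (hg' v hv).mul (hK.supp k hk v hv).inv
          rwa [mul_inv_cancel_right] at h2
      rw [h1, one_mul]
      exact hk
  rw [hset]
  exact hK.isCompact.inter_right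
    (isClosed_iInter fun v => isClosed_iInter fun _ => E1_isClosed_trivialAt v)

/-- The peak functions.
Proof: choose `k₂ ∈ K` that maximises the continuous function
`k ↦ ‖ι (a (y₀ * (hat k)⁻¹ * y₀⁻¹))‖` on the compact set `K` (`continuous_eval`,
`isCompact_of_isLevel`); the maximum is `> 0` since for `k = 1` the value is `‖ι (a 1)‖`. Put
`y = z⁻¹ * hat k₁ * (hat k₂)⁻¹ * y₀⁻¹`. Then `y₀ (hat k)⁻¹ z y = y₀ (hat (k₂ k₁⁻¹ k))⁻¹ y₀⁻¹`. -/
theorem exists_peak (H : HatData F ℓ ι) (hU : IsTame ℓ U) (hK : IsLevel ℓ U K)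
    {a : D.Cpx → ℂ} (ha : a ∈ polyFun D) (ha1 : a 1 ≠ 0) (y₀ z : D.Cpx) {k₁ : D.Ad}
    (hk₁ : k₁ ∈ K) :
    ∃ y : D.Cpx, a (y₀ * (H.hat D k₁)⁻¹ * z * y) ≠ 0 ∧
      ∀ k ∈ K, ‖ι (a (y₀ * (H.hat D k)⁻¹ * z * y))‖ ≤ ‖ι (a (y₀ * (H.hat D k₁)⁻¹ * z * y))‖ := by
  have hKc := isCompact_of_isLevel hU hK
  have hcont : Continuous fun k : D.Ad => ‖ι (a (y₀ * (H.hat D k)⁻¹ * y₀⁻¹))‖ :=
    (continuous_eval H ha y₀ y₀⁻¹).norm
  obtain ⟨k₂, hk₂, hmax⟩ := hKc.exists_isMaxOn ⟨1, K.one_mem⟩ hcont.continuousOn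
  have hmax' : ∀ k ∈ K, ‖ι (a (y₀ * (H.hat D k)⁻¹ * y₀⁻¹))‖ ≤
      ‖ι (a (y₀ * (H.hat D k₂)⁻¹ * y₀⁻¹))‖ := fun k hk => hmax hk
  have hid : ∀ k : D.Ad, y₀ * (H.hat D k)⁻¹ * z *
      (z⁻¹ * H.hat D k₁ * (H.hat D k₂)⁻¹ * y₀⁻¹) =
      y₀ * (H.hat D (k₂ * k₁⁻¹ * k))⁻¹ * y₀⁻¹ := by
    intro k
    rw [map_mul, map_mul, map_inv]
    group
  have hid1 : y₀ * (H.hat D k₁)⁻¹ * z *
      (z⁻¹ * H.hat D k₁ * (H.hat D k₂)⁻¹ * y₀⁻¹) = y₀ * (H.hat D k₂)⁻¹ * y₀⁻¹ := by
    group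
  refine ⟨z⁻¹ * H.hat D k₁ * (H.hat D k₂)⁻¹ * y₀⁻¹, ?_, ?_⟩
  · rw [hid1]
    intro h0
    have h1 := hmax' 1 K.one_mem
    rw [h0, map_zero, norm_zero, map_one, inv_one, mul_one, mul_inv_cancel] at h1
    have h2 : ι (a 1) = 0 := norm_le_zero_iff.1 h1
    exact ha1 ((map_eq_zero_iff ι ι.injective).1 h2)
  · intro k hk
    rw [hid1, hid k]
    exact hmax' _ (K.mul_mem (K.mul_mem hk₂ (K.inv_mem hk₁)) hk)

/-- Density of the deep weights.
Proof: apply `dense_of_peak` to the compact space `Z = K` (subspace topology), with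
`κ k = y₀ * (hat k)⁻¹ * z`, `P = {k ↦ ι (p (κ k)) | p ∈ polyFun}` and
`Q = {k ↦ ι (p (κ k)) | p ∈ Q}`. The elements of `P` are continuous (`continuous_eval`). They
separate the points of `K`: if all coordinates of `κ k` and `κ k'` agree then `hat k = hat k'`
(`Cpx_ext`), and `k = k'` by `hat_injective` (`IsLevel.supp`). Peaks: let `a` be as in
`IsDeep.exists_pow`, `y` as in `exists_peak` and
`u k = ι (a (κ k * y)) / ι (a (κ k₁ * y))`. For `p ∈ polyFun` let `p ∈ polyLE D d`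
(`exists_polyLE`) and `N` as in `IsDeep.exists_pow` for `d` and `s`. The function
`x ↦ a (x * y) ^ N * p x` is in `Q`: it is the right translate by `y` of
`a ^ N * p (· * y⁻¹)`, where `p (· * y⁻¹) ∈ polyLE D d` (`polyLE_trans`), and `Q` is stable under
right translations; and `Q` is stable under multiplication by constants (`ι⁻¹ c`). -/
theorem dense_deep (H : HatData F ℓ ι) (hU : IsTame ℓ U) (hK : IsLevel ℓ U K)
    {Q : Submodule ℂ (D.Cpx → ℂ)} (hQ : IsDeep ℓ D Q) (y₀ z : D.Cpx) (ψ : D.Ad → PadicAlgCl ℓ)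
    (hψ : Continuous ψ) (η : ℝ) (hη : 0 < η) :
    ∃ p ∈ Q, ∀ k ∈ K, ‖ι (p (y₀ * (H.hat D k)⁻¹ * z)) - ψ k‖ ≤ η := by
  have hKc := isCompact_of_isLevel hU hK
  have : CompactSpace K := isCompact_iff_compactSpace.1 hKc
  obtain ⟨κ, hκ⟩ : ∃ κ : K → D.Cpx, ∀ k, κ k = y₀ * (H.hat D k)⁻¹ * z := ⟨_, fun _ => rfl⟩
  obtain ⟨P, hP⟩ : ∃ P : Set (K → PadicAlgCl ℓ), ∀ φ, φ ∈ P ↔
      ∃ p ∈ polyFun D, φ = fun k => ι (p (κ k)) := ⟨{φ | ∃ p ∈ polyFun D, φ = fun k => ι (p (κ k))},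
      fun _ => Iff.rfl⟩
  obtain ⟨Q', hQ'⟩ : ∃ Q' : Set (K → PadicAlgCl ℓ), ∀ φ, φ ∈ Q' ↔
      ∃ p ∈ Q, φ = fun k => ι (p (κ k)) := ⟨{φ | ∃ p ∈ Q, φ = fun k => ι (p (κ k))},
      fun _ => Iff.rfl⟩
  have hcontp : ∀ p ∈ polyFun D, Continuous fun k : K => ι (p (κ k)) := by
    intro p hp
    have h1 := (continuous_eval H hp y₀ z).comp (continuous_subtype_val (p := fun g => g ∈ K))
    have h2 : (fun k : K => ι (p (κ k))) =
        (fun g : D.Ad => ι (p (y₀ * (H.hat D g)⁻¹ * z))) ∘ Subtype.val := by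
      funext k
      rw [Function.comp_apply, hκ]
    rw [h2]
    exact h1
  have hdense := dense_of_peak (Z := K) (P := P) (Q := Q') ?_ ?_ ?_ ?_ ?_ ?_ ?_
    (ψ := fun k : K => ψ k) (hψ.comp continuous_subtype_val) hη
  · obtain ⟨q, hq, hqη⟩ := hdense
    obtain ⟨p, hp, rfl⟩ := (hQ' q).1 hq
    refine ⟨p, hp, fun k hk => ?_⟩
    have h1 : ‖ι (p (κ ⟨k, hk⟩)) - ψ k‖ ≤ η := hqη ⟨k, hk⟩
    rw [hκ] at h1
    exact h1
  · -- `P` is an algebra
    refine ⟨fun c => (hP _).2 ⟨algebraMap ℂ (D.Cpx → ℂ) (ι.symm c),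
      (polyFun D).algebraMap_mem _, ?_⟩, ?_, ?_⟩
    · funext k
      exact (ι.apply_symm_apply c).symm
    · intro p hp q hq
      obtain ⟨p', hp', rfl⟩ := (hP p).1 hp
      obtain ⟨q', hq', rfl⟩ := (hP q).1 hq
      refine (hP _).2 ⟨p' + q', (polyFun D).add_mem hp' hq', ?_⟩
      funext k
      rw [Pi.add_apply, map_add]
    · intro p hp q hq
      obtain ⟨p', hp', rfl⟩ := (hP p).1 hp
      obtain ⟨q', hq', rfl⟩ := (hP q).1 hq
      refine (hP _).2 ⟨p' * q', (polyFun D).mul_mem hp' hq', ?_⟩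
      funext k
      rw [Pi.mul_apply, map_mul]
  · intro p hp
    obtain ⟨p', hp', rfl⟩ := (hP p).1 hp
    exact hcontp p' hp'
  · intro k k' hne
    by_contra hall
    push Not at hall
    apply hne
    have h1 : κ k = κ k' := by
      refine Cpx_ext fun τ i j => ?_
      have h2 := hall (fun k => ι (coord D τ i j (κ k))) ((hP _).2
        ⟨coord D τ i j, Algebra.subset_adjoin ⟨τ, i, j, rfl⟩, rfl⟩)
      exact ι.injective h2
    rw [hκ, hκ] at h1
    have h2 : H.hat D k = H.hat D k' := inv_injective (mul_left_cancel (mul_right_cancel h1))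
    have h3 : H.hat D ((k : D.Ad)⁻¹ * k') = 1 := by
      rw [map_mul, map_inv, h2, inv_mul_cancel]
    have h4 : (k : D.Ad)⁻¹ * k' ∈ K := K.mul_mem (K.inv_mem k.2) k'.2
    have h5 := hat_injective H (fun v hv => hK.supp _ h4 v hv) h3
    exact Subtype.ext (inv_mul_eq_one.1 h5)
  · refine (hQ' _).2 ⟨0, Q.zero_mem, ?_⟩
    funext k
    rw [Pi.zero_apply, map_zero]
  · intro p hp q hq
    obtain ⟨p', hp', rfl⟩ := (hQ' p).1 hp
    obtain ⟨q', hq', rfl⟩ := (hQ' q).1 hq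
    refine (hQ' _).2 ⟨p' + q', Q.add_mem hp' hq', ?_⟩
    funext k
    rw [Pi.add_apply, map_add]
  · intro c q hq
    obtain ⟨q', hq', rfl⟩ := (hQ' q).1 hq
    refine (hQ' _).2 ⟨ι.symm c • q', Q.smul_mem _ hq', ?_⟩
    funext k
    rw [Pi.smul_apply, smul_eq_mul, map_mul, ι.apply_symm_apply]
  · -- peaks
    intro k₁
    obtain ⟨a, ha, ha1, hpow⟩ := hQ.exists_pow
    obtain ⟨y, hy0, hy⟩ := exists_peak H hU hK ha ha1 y₀ z k₁.2
    rw [← hκ] at hy0
    have hc0 : ι (a (κ k₁ * y)) ≠ 0 := fun h => hy0 ((map_eq_zero_iff ι ι.injective).1 h)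
    have hle : ∀ k : K, ‖ι (a (κ k * y))‖ ≤ ‖ι (a (κ k₁ * y))‖ := by
      intro k
      rw [hκ, hκ]
      exact hy k k.2
    refine ⟨fun k => ι (a (κ k * y)) / ι (a (κ k₁ * y)), ?_, div_self hc0, ?_, ?_⟩
    · exact (hcontp _ (polyFun_trans ha y)).div_const _
    · intro k
      rw [norm_div, div_le_one (norm_pos_iff.2 hc0)]
      exact hle k
    · intro p hp
      obtain ⟨p', hp', rfl⟩ := (hP p).1 hp
      obtain ⟨d, hd⟩ := exists_polyLE hp'
      intro s
      obtain ⟨N, hsN, hN⟩ := hpow d s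
      have h1 : (fun x => p' (x * y⁻¹)) ∈ polyLE D d := polyLE_trans hd y⁻¹
      have h0 : (a ^ N * fun x => p' (x * y⁻¹)) ∈ Q := hN _ h1
      have h2 := hQ.trans _ h0 y
      refine ⟨N, hsN, ?_⟩
      refine (hQ' _).2 ⟨ι.symm ((ι (a (κ k₁ * y)) ^ N)⁻¹) •
        fun x => (a ^ N * fun x => p' (x * y⁻¹)) (x * y), Q.smul_mem _ h2, ?_⟩
      funext k
      rw [Pi.smul_apply, smul_eq_mul, map_mul, ι.apply_symm_apply, Pi.mul_apply, Pi.pow_apply,
        mul_inv_cancel_right, map_mul, map_pow, div_pow]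
      ring

end Pool.Agent.Lib.MP_666dc0_nt.WL
end

section

open NumberField IsDedekindDomain
open scoped NumberField

namespace Pool.Agent.Lib.MP_666dc0_nt.WL

/-!
# WL, E2: approximation by forms of deep weight
-/

variable {F : Type} [Field F] [NumberField F] {n : ℕ} {D : Datum F n}
  {ℓ : ℕ} [Fact ℓ.Prime] {ι : ℂ ≃+* PadicAlgCl ℓ} {U K V : Subgroup D.Ad}

/-- The elements `γ ∈ G(F)` with `γ⁻¹ g ∈ c V`. -/
def coset (V : Subgroup D.Ad) (c g : D.Ad) : Set D.Rat := {γ | c⁻¹ * (D.toAd γ)⁻¹ * g ∈ V}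

/-- Proof: `D.toAd γ ∈ g V c⁻¹`, a compact set (`finite_rat_of_isCompact`). -/
theorem finite_coset [IsTotallyReal F] (hD : IsTotPosDef D.q) (hV : IsCompact (V : Set D.Ad))
    (c g : D.Ad) : (coset V c g).Finite := by
  have h1 : IsCompact ((fun v : D.Ad => g * v * c⁻¹) '' (V : Set D.Ad)) :=
    hV.image ((continuous_const.mul continuous_id).mul continuous_const)
  refine (finite_rat_of_isCompact hD _ h1).subset ?_
  intro γ hγ
  refine ⟨(c⁻¹ * (D.toAd γ)⁻¹ * g)⁻¹, V.inv_mem hγ, ?_⟩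
  simp only [mul_inv_rev, inv_inv]
  group

/-- The form made from the functions `p c`, `c ∈ X`. -/
noncomputable def avgForm (V : Subgroup D.Ad) (X : Finset D.Ad) (p : D.Ad → D.Cpx → ℂ) :
    D.Ad → D.Cpx → ℂ :=
  fun g x => ((∑ c ∈ X, (coset V c g).ncard : ℕ) : ℂ)⁻¹ *
    ∑ c ∈ X, ∑ᶠ γ ∈ coset V c g, p c (x * D.toCpx γ)

private theorem E2_coset_left (V : Subgroup D.Ad) (c g : D.Ad) (δ : D.Rat) :
    coset V c (D.toAd δ * g) = (fun γ => δ * γ) '' coset V c g := by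
  ext γ
  constructor
  · intro h
    refine ⟨δ⁻¹ * γ, ?_, by simp⟩
    change c⁻¹ * (D.toAd (δ⁻¹ * γ))⁻¹ * g ∈ V
    have h' : c⁻¹ * (D.toAd γ)⁻¹ * (D.toAd δ * g) ∈ V := h
    rw [map_mul, map_inv, mul_inv_rev, inv_inv]
    simpa only [mul_assoc] using h'
  · rintro ⟨γ', h, rfl⟩
    have h' : c⁻¹ * (D.toAd γ')⁻¹ * g ∈ V := h
    change c⁻¹ * (D.toAd (δ * γ'))⁻¹ * (D.toAd δ * g) ∈ V
    rw [map_mul, mul_inv_rev]
    have e : c⁻¹ * ((D.toAd γ')⁻¹ * (D.toAd δ)⁻¹) * (D.toAd δ * g) =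
        c⁻¹ * (D.toAd γ')⁻¹ * g := by group
    rw [e]
    exact h'

private theorem E2_coset_right (V : Subgroup D.Ad) (c g : D.Ad) {k : D.Ad} (hk : k ∈ V) :
    coset V c (g * k) = coset V c g := by
  ext γ
  change c⁻¹ * (D.toAd γ)⁻¹ * (g * k) ∈ V ↔ c⁻¹ * (D.toAd γ)⁻¹ * g ∈ V
  rw [← mul_assoc]
  exact V.mul_mem_cancel_right hk

private theorem E2_ncard_left (V : Subgroup D.Ad) (c g : D.Ad) (δ : D.Rat) :
    (coset V c (D.toAd δ * g)).ncard = (coset V c g).ncard := by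
  rw [E2_coset_left]
  exact Set.ncard_image_of_injective _ (mul_right_injective δ)

/-- Proof: `mem`: finite sums of translates of elements of `Q` (`finite_coset`). `left`: the
bijection `γ ↦ δ γ` from `coset V c g` to `coset V c (δ g)`. `right`: `coset V c (g k) =
coset V c g`. -/
theorem avgForm_isForm [IsTotallyReal F] (hD : IsTotPosDef D.q)
    (hV : IsCompact (V : Set D.Ad)) (X : Finset D.Ad) {Q : Submodule ℂ (D.Cpx → ℂ)}
    (hQt : ∀ p ∈ Q, ∀ y : D.Cpx, (fun x => p (x * y)) ∈ Q) {p : D.Ad → D.Cpx → ℂ}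
    (hp : ∀ c ∈ X, p c ∈ Q) : IsForm D Q V (avgForm V X p) := by
  refine ⟨fun g => ?_, fun δ g x => ?_, fun g k hk => ?_⟩
  · have h1 : avgForm V X p g = ((∑ c ∈ X, (coset V c g).ncard : ℕ) : ℂ)⁻¹ •
        ∑ c ∈ X, ∑ γ ∈ (finite_coset hD hV c g).toFinset, fun x => p c (x * D.toCpx γ) := by
      funext x
      unfold avgForm
      simp only [Pi.smul_apply, Finset.sum_apply, smul_eq_mul]
      congr 1
      refine Finset.sum_congr rfl fun c _ => ?_
      exact finsum_mem_eq_finite_toFinset_sum _ (finite_coset hD hV c g)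
    rw [h1]
    exact Q.smul_mem _ (Q.sum_mem fun c hc => Q.sum_mem fun γ _ => hQt _ (hp c hc) _)
  · unfold avgForm
    simp only [E2_ncard_left]
    congr 1
    refine Finset.sum_congr rfl fun c _ => ?_
    rw [E2_coset_left, finsum_mem_image ((mul_right_injective δ).injOn)]
    refine finsum_congr fun γ => finsum_congr fun _ => ?_
    rw [map_mul, mul_assoc]
  · funext x
    unfold avgForm
    simp only [E2_coset_right V _ g hk]

/-- Proof: let `N g = ∑ c ∈ X, (coset V c g).ncard`. It is left invariant under `G(F)` and right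
invariant under `V`, so its values are among the `N c₀`, `c₀ ∈ X`, and `N c₀ ≥ 1` (`γ = 1`). For
`γ ∈ coset V c g` write `γ⁻¹ g = c k`, `k ∈ V = U ⊔ K`, `k = u k' = k' u`: then
`(hat g)⁻¹ * toCpx γ = (hat (c k))⁻¹ = (hat k')⁻¹ (hat c)⁻¹` and
`φ g = φ (c k) = φ (c k')`. So every term `ι (p c (y₀ (hat g)⁻¹ toCpx γ))` is within `η` of `φ g`,
and the number of terms is `N g`. So `‖ev (avgForm) g - φ g‖ ≤ η / ‖(N g : PadicAlgCl ℓ)‖`. -/
theorem norm_avgForm_sub_le [IsTotallyReal F] (hD : IsTotPosDef D.q) (H : HatData F ℓ ι)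
    (hU : IsTame ℓ U) (hK : IsLevel ℓ U K) (X : Finset D.Ad)
    (hX : ∀ g : D.Ad, ∃ γ : D.Rat, ∃ c ∈ X, ∃ k ∈ U ⊔ K, g = D.toAd γ * c * k)
    (φ : D.Ad → PadicAlgCl ℓ) (hleft : ∀ (γ : D.Rat) g, φ (D.toAd γ * g) = φ g)
    (hright : ∀ g, ∀ u ∈ U, φ (g * u) = φ g) (y₀ : D.Cpx) (p : D.Ad → D.Cpx → ℂ) (η : ℝ)
    (hη : 0 < η)
    (hp : ∀ c ∈ X, ∀ k ∈ K, ‖ι (p c (y₀ * (H.hat D k)⁻¹ * (H.hat D c)⁻¹)) - φ (c * k)‖ ≤ η)
    (g : D.Ad) : ∃ c₀ ∈ X, ‖H.ev y₀ (avgForm (U ⊔ K) X p) g - φ g‖ ≤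
      η / ‖((∑ c ∈ X, (coset (U ⊔ K) c c₀).ncard : ℕ) : PadicAlgCl ℓ)‖ := by
  obtain ⟨γ₀, c₀, hc₀, k₀, hk₀, hg⟩ := hX g
  refine ⟨c₀, hc₀, ?_⟩
  have hN : (∑ c ∈ X, (coset (U ⊔ K) c g).ncard) = ∑ c ∈ X, (coset (U ⊔ K) c c₀).ncard := by
    refine Finset.sum_congr rfl fun c _ => ?_
    rw [hg, E2_coset_right _ c _ hk₀, E2_ncard_left]
  have hfin := fun c => finite_coset hD hK.isCompact c g
  have hN0 : (∑ c ∈ X, (coset (U ⊔ K) c c₀).ncard) ≠ 0 := by
    have h1 : (coset (U ⊔ K) c₀ c₀).ncard ≠ 0 := by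
      refine Set.ncard_ne_zero_of_mem (a := 1) ?_ (finite_coset hD hK.isCompact c₀ c₀)
      change c₀⁻¹ * (D.toAd 1)⁻¹ * c₀ ∈ U ⊔ K
      rw [map_one, inv_one, mul_one, inv_mul_cancel]
      exact one_mem _
    intro h2
    exact h1 (Finset.sum_eq_zero_iff.1 h2 c₀ hc₀)
  rw [← hN] at hN0 ⊢
  set N : ℕ := ∑ c ∈ X, (coset (U ⊔ K) c g).ncard with hNdef
  have hNK : ((N : ℕ) : PadicAlgCl ℓ) ≠ 0 := Nat.cast_ne_zero.2 hN0
  -- the terms
  have hterm : ∀ c ∈ X, ∀ γ ∈ coset (U ⊔ K) c g,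
      ‖ι (p c (y₀ * (H.hat D g)⁻¹ * D.toCpx γ)) - φ g‖ ≤ η := by
    intro c hc γ hγ
    have hk : c⁻¹ * (D.toAd γ)⁻¹ * g ∈ U ⊔ K := hγ
    obtain ⟨u, hu, k', hk', e⟩ := (mem_sup_iff hU hK.supp).1 hk
    have hcomm : u * k' = k' * u := by
      refine mul_comm_of_disjoint fun v => ?_
      by_cases hv : (ℓ : 𝓞 F) ∈ v.asIdeal
      · exact Or.inl (hU u hu v hv)
      · exact Or.inr (hK.supp k' hk' v hv)
    have hge : g = D.toAd γ * (c * k') * u := by
      have : g = D.toAd γ * (c * (c⁻¹ * (D.toAd γ)⁻¹ * g)) := by group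
      rw [this, e, hcomm]
      group
    have hφ : φ g = φ (c * k') := by
      rw [hge, hright _ u hu, hleft]
    have hhat : y₀ * (H.hat D g)⁻¹ * D.toCpx γ = y₀ * (H.hat D k')⁻¹ * (H.hat D c)⁻¹ := by
      rw [hge, map_mul, map_mul, map_mul, hat_toAd, hat_eq_one H (hU u hu), mul_one]
      group
    rw [hφ, hhat]
    exact hp c hc k' hk'
  have hev : H.ev y₀ (avgForm (U ⊔ K) X p) g =
      (N : PadicAlgCl ℓ)⁻¹ * ∑ c ∈ X, ∑ γ ∈ (hfin c).toFinset,
        ι (p c (y₀ * (H.hat D g)⁻¹ * D.toCpx γ)) := by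
    unfold HatData.ev avgForm
    rw [map_mul, map_inv₀, map_natCast, map_sum]
    congr 1
    refine Finset.sum_congr rfl fun c _ => ?_
    rw [finsum_mem_eq_finite_toFinset_sum _ (hfin c), map_sum]
  have hφs : φ g = (N : PadicAlgCl ℓ)⁻¹ * ∑ c ∈ X, ∑ _γ ∈ (hfin c).toFinset, φ g := by
    simp only [Finset.sum_const, nsmul_eq_mul]
    rw [← Finset.sum_mul, ← mul_assoc]
    have : (∑ c ∈ X, (((hfin c).toFinset.card : ℕ) : PadicAlgCl ℓ)) = (N : PadicAlgCl ℓ) := by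
      rw [hNdef, Nat.cast_sum]
      refine Finset.sum_congr rfl fun c _ => ?_
      rw [Set.ncard_eq_toFinset_card _ (hfin c)]
    rw [this, inv_mul_cancel₀ hNK, one_mul]
  have hdiff : H.ev y₀ (avgForm (U ⊔ K) X p) g - φ g =
      (N : PadicAlgCl ℓ)⁻¹ * ∑ c ∈ X, ∑ γ ∈ (hfin c).toFinset,
        (ι (p c (y₀ * (H.hat D g)⁻¹ * D.toCpx γ)) - φ g) := by
    rw [hev]
    conv_lhs => rw [hφs]
    rw [← mul_sub, ← Finset.sum_sub_distrib]
    congr 1
    refine Finset.sum_congr rfl fun c _ => ?_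
    rw [Finset.sum_sub_distrib]
  rw [hdiff, norm_mul, norm_inv, inv_mul_eq_div]
  refine div_le_div_of_nonneg_right ?_ (norm_nonneg _)
  refine IsUltrametricDist.norm_sum_le_of_forall_le_of_nonneg hη.le fun c hc => ?_
  refine IsUltrametricDist.norm_sum_le_of_forall_le_of_nonneg hη.le fun γ hγ => ?_
  exact hterm c hc γ ((hfin c).mem_toFinset.1 hγ)

private theorem E2_exists_eta (X : Finset D.Ad) (f : D.Ad → ℝ) (hf : ∀ c ∈ X, 0 < f c) :
    ∃ η : ℝ, 0 < η ∧ ∀ c ∈ X, η ≤ f c := by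
  classical
  induction X using Finset.induction_on with
  | empty => exact ⟨1, one_pos, by simp⟩
  | insert a s _ ih =>
    obtain ⟨η, h0, h1⟩ := ih fun c hc => hf c (Finset.mem_insert_of_mem hc)
    refine ⟨min η (f a), lt_min h0 (hf a (Finset.mem_insert_self _ _)), fun c hc => ?_⟩
    rcases Finset.mem_insert.1 hc with rfl | hc
    · exact min_le_right _ _
    · exact (min_le_left _ _).trans (h1 c hc)

/-- Proof: let `X` be as in `exists_finite_reps`, `η = ε * min_{c₀ ∈ X} ‖N c₀‖` (positive, as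
`N c₀ ≥ 1` and the characteristic is `0`), `p c ∈ Q` from `dense_deep` with `z = (hat c)⁻¹` and
`ψ k = φ (c k)`, and `f' = avgForm (U ⊔ K) X p`. -/
theorem approx_deep [IsTotallyReal F] (hD : IsTotPosDef D.q) (H : HatData F ℓ ι)
    (hU : IsTame ℓ U) (hK : IsLevel ℓ U K) {Q : Submodule ℂ (D.Cpx → ℂ)} (hQ : IsDeep ℓ D Q)
    (φ : D.Ad → PadicAlgCl ℓ) (hφ : Continuous φ)
    (hleft : ∀ (γ : D.Rat) g, φ (D.toAd γ * g) = φ g)
    (hright : ∀ g, ∀ u ∈ U, φ (g * u) = φ g) (y₀ : D.Cpx) (ε : ℝ) (hε : 0 < ε) :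
    ∃ f' : D.Ad → D.Cpx → ℂ, IsForm D Q (U ⊔ K) f' ∧ ∀ g, ‖φ g - H.ev y₀ f' g‖ ≤ ε := by
  obtain ⟨X, hX⟩ := exists_finite_reps hD (U ⊔ K) hK.isOpen
  have hN0 : ∀ c₀ ∈ X, ((∑ c ∈ X, (coset (U ⊔ K) c c₀).ncard : ℕ) : PadicAlgCl ℓ) ≠ 0 := by
    intro c₀ hc₀
    refine Nat.cast_ne_zero.2 fun h2 => ?_
    refine Set.ncard_ne_zero_of_mem (a := (1 : D.Rat)) (s := coset (U ⊔ K) c₀ c₀) ?_
      (finite_coset hD hK.isCompact c₀ c₀) (Finset.sum_eq_zero_iff.1 h2 c₀ hc₀)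
    change c₀⁻¹ * (D.toAd 1)⁻¹ * c₀ ∈ U ⊔ K
    rw [map_one, inv_one, mul_one, inv_mul_cancel]
    exact one_mem _
  obtain ⟨η, hη, hη'⟩ := E2_exists_eta X
    (fun c₀ => ε * ‖((∑ c ∈ X, (coset (U ⊔ K) c c₀).ncard : ℕ) : PadicAlgCl ℓ)‖)
    (fun c₀ hc₀ => mul_pos hε (norm_pos_iff.2 (hN0 c₀ hc₀)))
  have hp : ∀ c : D.Ad, ∃ p ∈ Q, ∀ k ∈ K,
      ‖ι (p (y₀ * (H.hat D k)⁻¹ * (H.hat D c)⁻¹)) - φ (c * k)‖ ≤ η := fun c =>
    dense_deep H hU hK hQ y₀ (H.hat D c)⁻¹ (fun k => φ (c * k))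
      (hφ.comp (continuous_const.mul continuous_id)) η hη
  choose p hpQ hpη using hp
  refine ⟨avgForm (U ⊔ K) X p, avgForm_isForm hD hK.isCompact X hQ.trans (fun c _ => hpQ c),
    fun g => ?_⟩
  obtain ⟨c₀, hc₀, h⟩ := norm_avgForm_sub_le hD H hU hK X hX φ hleft hright y₀ p η hη
    (fun c _ k hk => hpη c k hk) g
  rw [norm_sub_rev]
  refine h.trans ?_
  rw [div_le_iff₀ (norm_pos_iff.2 (hN0 c₀ hc₀))]
  exact hη' c₀ hc₀

end Pool.Agent.Lib.MP_666dc0_nt.WL
end

section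

open MvPolynomial

namespace Pool.Agent.Lib.MP_666dc0_nt.IG

variable {n : ℕ}

/-- the averages of monomials of the types in `Pi` -/
private def E3b_S (G : Red n) (Pi : Finset (ℕ × ℕ)) : Set (MvPolynomial ((pairS n).Ix n) ℚ) :=
  {r : MvPolynomial ((pairS n).Ix n) ℚ | ∃ pq ∈ Pi,
        ∃ T ∈ invT G pq.1 pq.2, ∃ (i : Fin pq.1 → Fin n) (j : Fin pq.2 → Fin n),
        ∀ (B : Type) [CommRing B] [Algebra ℚ B] (Y Y' : Matrix (Fin n) (Fin n) B),
          aeval (toPair Y Y') r = ∑ L, ∑ M, (∏ a, Y (i a) (L a)) * (∏ b, Y' (M b) (j b)) *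
            algebraMap ℚ B (T (L, M))}

private theorem E3b_mono (G : Red n) {Pi Pi' : Finset (ℕ × ℕ)} (h : Pi ⊆ Pi') :
    E3b_S G Pi ⊆ E3b_S G Pi' := by
  rintro r ⟨pq, hpq, T, hT, i, j, hr⟩
  exact ⟨pq, h hpq, T, hT, i, j, hr⟩

private theorem E3b_smul {A : Type} [CommRing A] [Algebra ℚ A] {s : Shape} (G : Red n) (c : ℚ)
    (p : MvPolynomial (s.Ix n) ℚ) : Rey G (c • p) = c • Rey G p := by
  rw [smul_eq_C_mul, Rey_C_mul, smul_eq_C_mul]

private theorem E3b_gen (G : Red n) (q : MvPolynomial ((pairS n).Ix n) ℚ) (hq : IsInv G q) :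
    ∃ Pi : Finset (ℕ × ℕ), q ∈ Algebra.adjoin ℚ (E3b_S G Pi) := by
  obtain ⟨κ, hκ, c, P, Q, i₁, j₁, i₂, j₂, m, hm, hqm⟩ := pair_induction q
  refine ⟨Finset.univ.image fun k => (P k, Q k), ?_⟩
  have h1 : q = ∑ k, c k • Rey G (m k) := by
    conv_lhs => rw [← Rey_of_isInv G hq, hqm]
    rw [Rey_sum]
    exact Finset.sum_congr rfl fun k _ => E3b_smul (A := ℚ) G (c k) (m k)
  rw [h1]
  refine Subalgebra.sum_mem _ fun k _ => Subalgebra.smul_mem _ (Algebra.subset_adjoin ?_) _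
  refine ⟨(P k, Q k), Finset.mem_image_of_mem _ (Finset.mem_univ k),
    fun x => avT G (j₁ k) (i₂ k) x.1 x.2, ?_, i₁ k, j₂ k, ?_⟩
  · intro A _ _ h h' hh L M
    exact avT_inv G (j₁ k) (i₂ k) h h' hh L M
  · intro B _ _ Y Y'
    exact aeval_Rey_pair G (i₁ k) (j₁ k) (i₂ k) (j₂ k) Y Y' (m k) (hm k)

/-- Finitely many generators: there is a finite set `Π` of types such that every polynomial `q` in the
entries of an inverse pair `(k, k')` which is right invariant under `G` is, on inverse pairs, a polynomial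
in the numbers `∑_{L,M} ∏ k(i a, L a) ∏ k'(M b, j b) T(L, M)` with `T ∈ invT G p q`, `(p,q) ∈ Π`. Precisely,
`q` agrees on inverse pairs with an element of the algebra generated by such polynomials.
Proof: `Rey G q` (for the shape `pairS n`) agrees with `q` on inverse pairs (`aeval_Rey_eq_const`-like: for
an inverse pair `(k, k')` all `q(k g', g k')` are equal to `q(k, k')`), it is invariant, so it is a polynomial in
the finitely many generators of `hilbert_finite G (pairS n)`; each generator equals its own average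
(`Rey_of_isInv`), a combination of averages of monomials (`pair_induction`), computed in
`aeval_Rey_pair`, with tensors in `invT` by `avT_inv`. `Π` = the set of all `(P k, Q k)` occurring. -/
theorem exists_types (G : Red n) : ∃ Pi : Finset (ℕ × ℕ), ∀ q : MvPolynomial ((pairS n).Ix n) ℚ,
    (∀ (A : Type) [CommRing A] [Algebra ℚ A] (k k' g g' : Matrix (Fin n) (Fin n) A),
      k * k' = 1 → k' * k = 1 → G.In A g g' →
      aeval (toPair (k * g) (g' * k')) q = aeval (toPair k k') q) →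
    ∃ q₁ ∈ Algebra.adjoin ℚ {r : MvPolynomial ((pairS n).Ix n) ℚ | ∃ pq ∈ Pi,
        ∃ T ∈ invT G pq.1 pq.2, ∃ (i : Fin pq.1 → Fin n) (j : Fin pq.2 → Fin n),
        ∀ (B : Type) [CommRing B] [Algebra ℚ B] (Y Y' : Matrix (Fin n) (Fin n) B),
          aeval (toPair Y Y') r = ∑ L, ∑ M, (∏ a, Y (i a) (L a)) * (∏ b, Y' (M b) (j b)) *
            algebraMap ℚ B (T (L, M))},
      ∀ (A : Type) [CommRing A] [Algebra ℚ A] (k k' : Matrix (Fin n) (Fin n) A),
        k * k' = 1 → k' * k = 1 → aeval (toPair k k') q₁ = aeval (toPair k k') q := by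
  obtain ⟨Q, hQ, hgen⟩ := hilbert_finite G (pairS n)
  have h0 : ∀ q : MvPolynomial ((pairS n).Ix n) ℚ, ∃ Pi : Finset (ℕ × ℕ),
      IsInv G q → q ∈ Algebra.adjoin ℚ (E3b_S G Pi) := by
    intro q
    by_cases hq : IsInv G q
    · obtain ⟨Pi, hPi⟩ := E3b_gen G q hq
      exact ⟨Pi, fun _ => hPi⟩
    · exact ⟨∅, fun h => absurd h hq⟩
  choose F hF using h0
  refine ⟨Q.biUnion F, fun q hq => ⟨Rey G q, ?_, ?_⟩⟩
  · have h1 := hgen (Rey G q) (isInv_Rey G q)
    refine Algebra.adjoin_le ?_ h1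
    intro r hr
    have hr' : r ∈ Q := hr
    exact Algebra.adjoin_mono (E3b_mono G (Finset.subset_biUnion_of_mem F hr')) (hF r (hQ r hr'))
  · intro A _ _ k k' h1 h2
    have h3 := aeval_Rey_eq_const (A := A) (B := A) G (MvPolynomial.map (algebraMap ℚ A) q)
      (toPair k k') (aeval (toPair k k') q) (by
        intro B' _ _ _ f h h' hh
        have e0 : (fun x => f (toPair k k' x)) =
            toPair (k.map (algebraMap A B')) (k'.map (algebraMap A B')) := by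
          funext x
          obtain ⟨b, c, I, J⟩ := x
          cases b
          · exact f.commutes _
          · exact f.commutes _
        have e1 : k.map (algebraMap A B') * k'.map (algebraMap A B') = 1 := by
          rw [← Matrix.map_mul, h1, Matrix.map_one _ (map_zero _) (map_one _)]
        have e2 : k'.map (algebraMap A B') * k.map (algebraMap A B') = 1 := by
          rw [← Matrix.map_mul, h2, Matrix.map_one _ (map_zero _) (map_one _)]
        have hQA : (algebraMap A B').comp (algebraMap ℚ A) = algebraMap ℚ B' :=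
          Subsingleton.elim _ _
        have e3 : ∀ t : (pairS n).Ix n → B', aeval t (MvPolynomial.map (algebraMap ℚ A) q) =
            aeval t q := by
          intro t
          rw [aeval_def, eval₂_map, hQA, ← aeval_def]
        rw [e3, e0, act_toPair, hq B' _ _ h' h e1 e2 (G.in_symm B' h h' hh)]
        have e4 : toPair (k.map (algebraMap A B')) (k'.map (algebraMap A B')) =
            fun x => algebraMap A B' (toPair k k' x) := by
          funext x
          obtain ⟨b, c, I, J⟩ := x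
          cases b <;> rfl
        rw [e4, aeval_def, ← hQA, ← hom_eval₂, ← aeval_def])
    rw [← map_Rey] at h3
    have e3 : aeval (toPair k k') (MvPolynomial.map (algebraMap ℚ A) (Rey G q)) =
            aeval (toPair k k') (Rey G q) := by
      rw [aeval_def, eval₂_map]
      rfl
    rw [e3] at h3
    exact h3

end Pool.Agent.Lib.MP_666dc0_nt.IG
end

section

open MvPolynomial

namespace Pool.Agent.Lib.MP_666dc0_nt.IG

variable {n : ℕ}

/-- a polynomial in two sets of variables as polynomial in the second set -/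
private noncomputable def E3c_it {σ υ : Type} :
    MvPolynomial (σ ⊕ υ) ℚ →ₐ[ℚ] MvPolynomial υ (MvPolynomial σ ℚ) :=
  aeval (Sum.elim (fun x => C (X x)) (fun y => X y))

private theorem E3c_eval {σ υ A : Type} [CommRing A] [Algebra ℚ A] (u : σ → A) (w : υ → A)
    (q : MvPolynomial (σ ⊕ υ) ℚ) :
    eval₂ (aeval u : MvPolynomial σ ℚ →ₐ[ℚ] A).toRingHom w (E3c_it q) =
      aeval (Sum.elim u w) q := by
  let Φ : MvPolynomial υ (MvPolynomial σ ℚ) →+* A :=
    eval₂Hom (aeval u : MvPolynomial σ ℚ →ₐ[ℚ] A).toRingHom w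
  have h : (Φ.comp (E3c_it (σ := σ) (υ := υ)).toRingHom) =
      (aeval (Sum.elim u w) : MvPolynomial (σ ⊕ υ) ℚ →ₐ[ℚ] A).toRingHom := by
    apply MvPolynomial.ringHom_ext
    · intro r
      have h1 : Subsingleton (ℚ →+* A) := inferInstance
      exact RingHom.congr_fun (h1.elim ((Φ.comp (E3c_it (σ := σ) (υ := υ)).toRingHom).comp C)
        ((aeval (Sum.elim u w) : MvPolynomial (σ ⊕ υ) ℚ →ₐ[ℚ] A).toRingHom.comp C)) r
    · rintro (x | y)
      · simp [Φ, E3c_it]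
      · simp [Φ, E3c_it]
  exact RingHom.congr_fun h q

private def E3c_ix {s : Shape} (b : s.β) (e : s.C b) (i : Fin (s.p b) → Fin n)
    (j : Fin (s.q b) → Fin n) : s.Ix n := ⟨b, e, i, j⟩

/-- polynomials in `(k, k')` which are polynomials in the tensors `act k k' T₀` -/
private theorem E3c_adjoin (G : Red n) (Pi : Finset (ℕ × ℕ)) (s : Shape) [s.Small]
    (T₀ : s.Ix n → ℚ)
    (hT : ∀ pq ∈ Pi, ∀ T ∈ invT G pq.1 pq.2, ∃ (b : s.β) (hp : s.p b = pq.1) (hq : s.q b = pq.2)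
        (c : s.C b → ℚ), ∀ L M, T (L, M) =
          ∑ e, c e * T₀ ⟨b, e, fun i => L (Fin.cast hp i), fun j => M (Fin.cast hq j)⟩)
    (q : MvPolynomial ((pairS n).Ix n) ℚ)
    (hq : q ∈ Algebra.adjoin ℚ {r : MvPolynomial ((pairS n).Ix n) ℚ | ∃ pq ∈ Pi,
        ∃ T ∈ invT G pq.1 pq.2, ∃ (i : Fin pq.1 → Fin n) (j : Fin pq.2 → Fin n),
        ∀ (B : Type) [CommRing B] [Algebra ℚ B] (Y Y' : Matrix (Fin n) (Fin n) B),
          aeval (toPair Y Y') r = ∑ L, ∑ M, (∏ a, Y (i a) (L a)) * (∏ b, Y' (M b) (j b)) *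
            algebraMap ℚ B (T (L, M))}) :
    ∃ f : MvPolynomial (s.Ix n) ℚ, ∀ (B : Type) [CommRing B] [Algebra ℚ B]
      (Y Y' : Matrix (Fin n) (Fin n) B),
      aeval (act Y Y' (inA B T₀)) f = aeval (toPair Y Y') q := by
  induction hq using Algebra.adjoin_induction with
  | mem r hr =>
    obtain ⟨⟨p, q⟩, hpq, T, hTm, i, j, hr⟩ := hr
    obtain ⟨b, hp, hq, c, hc⟩ := hT (p, q) hpq T hTm
    change s.p b = p at hp
    change s.q b = q at hq
    subst hp
    subst hq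
    refine ⟨∑ e, C (c e) * X (E3c_ix b e i j), ?_⟩
    intro B _ _ Y Y'
    rw [hr B Y Y', map_sum]
    have h1 : ∀ e : s.C b, aeval (act Y Y' (inA B T₀)) (C (c e) * X (E3c_ix b e i j)) =
        ∑ L : Fin (s.p b) → Fin n, ∑ M : Fin (s.q b) → Fin n,
          (∏ a, Y (i a) (L a)) * (∏ b, Y' (M b) (j b)) *
            algebraMap ℚ B (c e * T₀ ⟨b, e, L, M⟩) := by
      intro e
      have h2 : act Y Y' (inA B T₀) (E3c_ix b e i j) =
          ∑ L : Fin (s.p b) → Fin n, ∑ M : Fin (s.q b) → Fin n,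
          (∏ a, Y (i a) (L a)) * (∏ b, Y' (M b) (j b)) *
            algebraMap ℚ B (T₀ ⟨b, e, L, M⟩) := rfl
      rw [map_mul, aeval_C, aeval_X, h2]
      simp only [Finset.mul_sum]
      refine Finset.sum_congr rfl fun L _ => Finset.sum_congr rfl fun M _ => ?_
      rw [map_mul]
      ring
    rw [Finset.sum_congr rfl fun e _ => h1 e, Finset.sum_comm]
    refine Finset.sum_congr rfl fun L _ => ?_
    rw [Finset.sum_comm]
    refine Finset.sum_congr rfl fun M _ => ?_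
    rw [← Finset.mul_sum, ← map_sum, hc L M]
    rfl
  | algebraMap r =>
    refine ⟨C r, ?_⟩
    intro B _ _ Y Y'
    rw [aeval_C, MvPolynomial.algebraMap_eq, aeval_C]
  | add p q _ _ hp hq =>
    obtain ⟨f, hf⟩ := hp
    obtain ⟨g, hg⟩ := hq
    refine ⟨f + g, ?_⟩
    intro B _ _ Y Y'
    rw [map_add, map_add, hf, hg]
  | mul p q _ _ hp hq =>
    obtain ⟨f, hf⟩ := hp
    obtain ⟨g, hg⟩ := hq
    refine ⟨f * g, ?_⟩
    intro B _ _ Y Y'
    rw [map_mul, map_mul, hf, hg]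

/-- E3. Assembly: `Π` from `exists_types`, the family from `exists_family`. For `gen` write
`q = ∑_α w^α q_α` (finite sum; `MvPolynomial.sumAlgEquiv` / `sumToIter`), each `q_α` is right invariant
(compare coefficients in `MvPolynomial υ A`), apply `exists_types` to `q_α` (in the notation of
`exists_to_pair`) and replace the generators by the coordinates of `act k k' T₀`. -/
theorem exists_tensorData (G : Red n) : Nonempty (TensorData G) := by
  obtain ⟨Pi, hPi⟩ := exists_types G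
  obtain ⟨s, hs, T₀, hfix, hTT, hnorm⟩ := exists_family G Pi
  refine ⟨{ s := s, small := hs, T₀ := T₀, fix := hfix, gen := ?_, norm := hnorm }⟩
  intro υ q hq
  set Q := E3c_it q with hQ
  have hinv : ∀ (α : υ →₀ ℕ) (A : Type) [CommRing A] [Algebra ℚ A]
      (k k' g g' : Matrix (Fin n) (Fin n) A), k * k' = 1 → k' * k = 1 → G.In A g g' →
      aeval (evp (k * g) (g' * k')) (coeff α Q) = aeval (evp k k') (coeff α Q) := by
    intro α A _ _ k k' g g' h1 h2 hg
    have c1 : ∀ M N : Matrix (Fin n) (Fin n) A,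
        (M * N).map (algebraMap A (MvPolynomial υ A)) =
          M.map (algebraMap A (MvPolynomial υ A)) * N.map (algebraMap A (MvPolynomial υ A)) :=
      fun M N => Matrix.map_mul
    have c2 : (1 : Matrix (Fin n) (Fin n) A).map (algebraMap A (MvPolynomial υ A)) = 1 :=
      Matrix.map_one _ (map_zero _) (map_one _)
    have hg' : G.In (MvPolynomial υ A) (g.map (algebraMap A (MvPolynomial υ A)))
        (g'.map (algebraMap A (MvPolynomial υ A))) := by
      intro p hp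
      have h3 := hg p hp
      have h4 : evp (g.map (algebraMap A (MvPolynomial υ A)))
          (g'.map (algebraMap A (MvPolynomial υ A))) =
          fun x => algebraMap A (MvPolynomial υ A) (evp g g' x) := by
        funext x
        rcases x with x | x <;> rfl
      have hQA : (algebraMap A (MvPolynomial υ A)).comp (algebraMap ℚ A) =
          algebraMap ℚ (MvPolynomial υ A) := Subsingleton.elim _ _
      rw [h4, aeval_def, ← hQA, ← hom_eval₂, ← aeval_def, h3, map_zero]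
    have h5 := hq (MvPolynomial υ A) (k.map (algebraMap A (MvPolynomial υ A)))
      (k'.map (algebraMap A (MvPolynomial υ A))) (g.map (algebraMap A (MvPolynomial υ A)))
      (g'.map (algebraMap A (MvPolynomial υ A))) (fun y => X y)
      (by rw [← c1, h1, c2]) (by rw [← c1, h2, c2]) hg'
    rw [← c1, ← c1, ← E3c_eval, ← E3c_eval] at h5
    have h6 : ∀ M N : Matrix (Fin n) (Fin n) A,
        eval₂ (aeval (evp (M.map (algebraMap A (MvPolynomial υ A)))
          (N.map (algebraMap A (MvPolynomial υ A)))) :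
            MvPolynomial (PV n) ℚ →ₐ[ℚ] MvPolynomial υ A).toRingHom (fun y => X y) Q =
        MvPolynomial.map (aeval (evp M N) : MvPolynomial (PV n) ℚ →ₐ[ℚ] A).toRingHom Q := by
      intro M N
      have h7 : (aeval (evp (M.map (algebraMap A (MvPolynomial υ A)))
          (N.map (algebraMap A (MvPolynomial υ A)))) :
            MvPolynomial (PV n) ℚ →ₐ[ℚ] MvPolynomial υ A).toRingHom =
          (C : A →+* MvPolynomial υ A).comp
            (aeval (evp M N) : MvPolynomial (PV n) ℚ →ₐ[ℚ] A).toRingHom := by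
        apply MvPolynomial.ringHom_ext
        · intro r
          have h1 : Subsingleton (ℚ →+* MvPolynomial υ A) := inferInstance
          exact RingHom.congr_fun (h1.elim ((aeval (evp (M.map (algebraMap A (MvPolynomial υ A)))
            (N.map (algebraMap A (MvPolynomial υ A)))) :
              MvPolynomial (PV n) ℚ →ₐ[ℚ] MvPolynomial υ A).toRingHom.comp C)
            (((C : A →+* MvPolynomial υ A).comp
              (aeval (evp M N) : MvPolynomial (PV n) ℚ →ₐ[ℚ] A).toRingHom).comp C)) r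
        · rintro (x | x)
          · simp [evp]
          · simp [evp]
      rw [h7, ← coe_eval₂Hom, map_eq_eval₂Hom_C_comp]
    rw [← hQ, h6, h6] at h5
    have h8 := congrArg (coeff α) h5
    rwa [coeff_map, coeff_map] at h8
  have hf : ∀ α : υ →₀ ℕ, ∃ f : MvPolynomial (s.Ix n) ℚ, ∀ (A : Type) [CommRing A] [Algebra ℚ A]
      (k k' : Matrix (Fin n) (Fin n) A), k * k' = 1 → k' * k = 1 →
      aeval (act k k' (inA A T₀)) f = aeval (evp k k') (coeff α Q) := by
    intro α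
    obtain ⟨q', hq'⟩ := exists_to_pair (coeff α Q)
    obtain ⟨q₁, hq₁, hq₂⟩ := hPi q' (by
      intro A _ _ k k' g g' h1 h2 hg
      rw [hq', hq']
      exact hinv α A k k' g g' h1 h2 hg)
    obtain ⟨f, hf⟩ := E3c_adjoin G Pi s T₀ hTT q₁ hq₁
    refine ⟨f, ?_⟩
    intro A _ _ k k' h1 h2
    rw [hf, hq₂ A k k' h1 h2, hq']
  choose F hF using hf
  refine ⟨∑ α ∈ Q.support, rename Sum.inl (F α) * rename Sum.inr (monomial α 1), ?_⟩
  intro A _ _ k k' w h1 h2
  rw [← E3c_eval (evp k k') w q, ← hQ, eval₂_eq, map_sum]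
  refine Finset.sum_congr rfl fun α _ => ?_
  rw [map_mul, aeval_rename, aeval_rename, Sum.elim_comp_inl, Sum.elim_comp_inr,
    hF α A k k' h1 h2, aeval_monomial, map_one, one_mul]
  rfl

end Pool.Agent.Lib.MP_666dc0_nt.IG
end
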