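import Pool.Agent.Lib.MP_666dc0_nt.Mg.G005
import Pool.Agent.Lib.MP_666dc0_nt.Mg.G008
import Pool.Agent.Lib.MP_666dc0_nt.Mg.G007
import Pool.Agent.Lib.MP_666dc0_nt.WL.F0
import Pool.Agent.Lib.MP_666dc0_nt.Mg.G009
import Pool.Agent.Lib.MP_666dc0_nt.Mg.G006
import Pool.Agent.Lib.MP_666dc0_nt.Mg.G012
import Pool.Agent.Lib.MP_666dc0_nt.Mg.G014

section

open NumberField IsDedekindDomain
open scoped NumberField

namespace Pool.Agent.Lib.MP_666dc0_nt.WL

/-!
# WL, C7: every form is a sum of eigenforms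
-/

variable {F : Type} [Field F] [NumberField F] {n : ℕ} {D : Datum F n}
  {S : Finset (HeightOneSpectrum (𝓞 F))} {U V : Subgroup D.Ad}

/-- Proof: `forms D Q V` is finite-dimensional (`finiteDimensional_forms`), stable under the Hecke
operators of the places `v ∉ S` (`act_isForm`), which are linear (`act_add`, `act_smul`), commute
(`act_comm`) and have adjoints (`exists_inner`). Apply `exists_joint_eigenvectors` with
`ι = Σ v : {v // v ∉ S}, Hecke U v`, and put `lam v h = χ ⟨⟨v, _⟩, h⟩` for `v ∉ S` and `0` else. -/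
theorem exists_decomposition_fin [IsTotallyReal F] (hD : IsTotPosDef D.q) (hV : Good S U V)
    (Q : Submodule ℂ (D.Cpx → ℂ)) [FiniteDimensional ℂ Q]
    (hQ : Q ≤ Subalgebra.toSubmodule (polyFun D))
    (hQt : ∀ γ : D.Rat, ∀ p ∈ Q, (fun x => p (x * D.toCpx γ)) ∈ Q)
    {f : D.Ad → D.Cpx → ℂ} (hf : IsForm D Q V f) :
    ∃ l : List (D.Ad → D.Cpx → ℂ), f = l.sum ∧ ∀ m ∈ l, m ≠ 0 ∧ IsForm D Q V m ∧
      ∃ lam : ∀ v, Hecke U v → ℂ, IsEigen S m lam := by
  classical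
  obtain ⟨β, hadd, hsmul, hconj, hpos, hadj⟩ := exists_inner (S := S) (U := U) hD hV Q hQ hQt
  have : FiniteDimensional ℂ (forms D Q V) := finiteDimensional_forms hD Q V hV.isOpen
  let T : (Σ v : {v : HeightOneSpectrum (𝓞 F) // v ∉ S}, Hecke U v.1) →
      (forms D Q V →ₗ[ℂ] forms D Q V) := fun i =>
    { toFun := fun g => ⟨i.2.act g.1, act_isForm hV i.1.2 i.2 g.2⟩
      map_add' := fun a b => Subtype.ext (act_add i.2 a.1 b.1)
      map_smul' := fun c a => Subtype.ext (act_smul i.2 c a.1) }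
  obtain ⟨l, hl, hl'⟩ := exists_joint_eigenvectors (M := forms D Q V)
    (fun x y => β x.1 y.1) (fun x y z => hadd x.1 y.1 z.1) (fun c x y => hsmul c x.1 y.1)
    (fun x y => hconj x.1 y.1)
    (fun x hx => hpos x.1 x.2 (fun h => hx (Subtype.ext h))) T
    (fun i j x => Subtype.ext (act_comm hV i.1.2 j.1.2 i.2 j.2 (IsForm.right x.2)))
    (fun i => by
      obtain ⟨h', hh'⟩ := hadj i.1.1 i.1.2 i.2
      exact ⟨⟨i.1, h'⟩, fun x y => hh' x.1 y.1 x.2 y.2⟩)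
    (⟨f, hf⟩ : forms D Q V)
  refine ⟨l.map (forms D Q V).subtype, ?_, ?_⟩
  · rw [← map_list_sum, ← hl]
    rfl
  · intro m hm
    rw [List.mem_map] at hm
    obtain ⟨m', hm', rfl⟩ := hm
    obtain ⟨h0, χ, hχ⟩ := hl' m' hm'
    refine ⟨fun h => h0 (Subtype.ext h), m'.2,
      fun v h => if hv : v ∉ S then χ ⟨⟨v, hv⟩, h⟩ else 0, ?_⟩
    intro v hv h
    have h1 := congrArg Subtype.val (hχ ⟨⟨v, hv⟩, h⟩)
    have h2 : (if hv : v ∉ S then χ ⟨⟨v, hv⟩, h⟩ else 0) = χ ⟨⟨v, hv⟩, h⟩ := dif_pos hv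
    change h.act ((forms D Q V).subtype m') = (if hv : v ∉ S then χ ⟨⟨v, hv⟩, h⟩ else 0) •
      (forms D Q V).subtype m'
    rw [h2]
    exact h1

/-- Proof: `exists_degree` gives `d` with `f` a form with weights in `Q ⊓ polyLE D d`, a
finite-dimensional space (`finiteDimensional_polyLE`) that is stable under translations
(`polyLE_trans`). Apply the previous theorem and enlarge the space of weights again. -/
theorem exists_decomposition [IsTotallyReal F] (hD : IsTotPosDef D.q) (hV : Good S U V)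
    {Q : Submodule ℂ (D.Cpx → ℂ)} (hQ : Q ≤ Subalgebra.toSubmodule (polyFun D))
    (hQt : ∀ p ∈ Q, ∀ y : D.Cpx, (fun x => p (x * y)) ∈ Q)
    {f : D.Ad → D.Cpx → ℂ} (hf : IsForm D Q V f) :
    ∃ l : List (D.Ad → D.Cpx → ℂ), f = l.sum ∧ ∀ m ∈ l, m ≠ 0 ∧ IsForm D Q V m ∧
      ∃ lam : ∀ v, Hecke U v → ℂ, IsEigen S m lam := by
  obtain ⟨d, hd⟩ := exists_degree hD hQ hV.isOpen hf
  have : FiniteDimensional ℂ (polyLE D d) := finiteDimensional_polyLE d
  have : FiniteDimensional ℂ (Q ⊓ polyLE D d : Submodule ℂ (D.Cpx → ℂ)) :=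
    Submodule.finiteDimensional_inf_right _ _
  obtain ⟨l, hl, hl'⟩ := exists_decomposition_fin hD hV (Q ⊓ polyLE D d)
    (inf_le_left.trans hQ)
    (fun γ p hp => ⟨hQt p hp.1 _, polyLE_trans hp.2 _⟩) hd
  refine ⟨l, hl, fun m hm => ?_⟩
  obtain ⟨h0, h1, h2⟩ := hl' m hm
  exact ⟨h0, ⟨fun g => (h1.mem g).1, h1.left, h1.right⟩, h2⟩

end Pool.Agent.Lib.MP_666dc0_nt.WL
end

section

open NumberField IsDedekindDomain
open scoped NumberField

namespace Pool.Agent.Lib.MP_666dc0_nt.WL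

/-!
# WL, F4: forms of a type are sums of eigenforms of this type
-/

variable {F : Type} [Field F] [NumberField F] {n : ℕ} {D : Datum F n}
  {S : Finset (HeightOneSpectrum (𝓞 F))} {U V : Subgroup D.Ad} {ℓ : ℕ}

private theorem F4_comm {T : AdType D} (hU : IsTame ℓ U)
    (hJ : ∀ g ∈ T.J, ∀ v : HeightOneSpectrum (𝓞 F), (ℓ : 𝓞 F) ∉ v.asIdeal → TrivialAt v g)
    {u k : D.Ad} (hu : u ∈ U) (hk : k ∈ T.J) : u * k = k * u := by
  apply mul_comm_of_disjoint
  intro v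
  by_cases hv : (ℓ : 𝓞 F) ∈ v.asIdeal
  · exact Or.inl (hU u hu v hv)
  · exact Or.inr (hJ k hk v hv)

private theorem F4_sum_filter {M : Type} [AddCommGroup M] [DecidableEq M] (l : List M) :
    (l.filter (fun m => decide (m ≠ 0))).sum = l.sum := by
  induction l with
  | nil => rfl
  | cons a l ih =>
    by_cases h : a = 0
    · rw [List.filter_cons_of_neg (by simpa using h), ih, List.sum_cons, h, zero_add]
    · rw [List.filter_cons_of_pos (by simpa using h), List.sum_cons, List.sum_cons, ih]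

/-- The projection to the forms of type `T`. Its sum is over the finite quotient `J / ker χ`. -/
noncomputable def projT (T : AdType D) (f : D.Ad → D.Cpx → ℂ) : D.Ad → D.Cpx → ℂ :=
  fun g => ((Nat.card (T.J ⧸ T.χ.ker) : ℕ) : ℂ)⁻¹ •
    ∑ᶠ c : T.J ⧸ T.χ.ker, ((T.χ c.out : ℂˣ) : ℂ)⁻¹ • f (g * (c.out : T.J))

/-- Proof: `χ` has finite order `M`, so its image is in the finite group of `M`-th roots of unity,
and `J / ker χ` is isomorphic to it (`QuotientGroup.kerLift_injective`). -/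
theorem finite_quot {T : AdType D} (hT : ∃ M > 0, T.χ ^ M = 1) : Finite (T.J ⧸ T.χ.ker) := by
  obtain ⟨M, hM, h⟩ := hT
  have hinj := QuotientGroup.kerLift_injective T.χ
  have : NeZero M := ⟨hM.ne'⟩
  have hmem : ∀ c : T.J ⧸ T.χ.ker, QuotientGroup.kerLift T.χ c ∈ rootsOfUnity M ℂ := by
    intro c
    obtain ⟨j, rfl⟩ := QuotientGroup.mk_surjective c
    rw [QuotientGroup.kerLift_mk, mem_rootsOfUnity]
    have h2 := DFunLike.congr_fun h j
    simpa using h2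
  exact Finite.of_injective (fun c => (⟨QuotientGroup.kerLift T.χ c, hmem c⟩ : rootsOfUnity M ℂ))
    (fun a b hab => hinj (congrArg Subtype.val hab))

/-- The term of the sum does not depend on the representative; the sum over the quotient may be
translated: this gives type `T`. Proof of `type`: `f (g k c)`; substitute `c' = k c`:
`χ (c)⁻¹ = χ (k) χ (k c)⁻¹`, and the classes `k c` run through the quotient. `left`, `mem`: clear.
`right`: `u` commutes with `J` (disjoint supports). -/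
theorem projT_isTypeForm {T : AdType D} (hT : ∃ M > 0, T.χ ^ M = 1) (hU : IsTame ℓ U)
    (hJ : ∀ g ∈ T.J, ∀ v : HeightOneSpectrum (𝓞 F), (ℓ : 𝓞 F) ∉ v.asIdeal → TrivialAt v g)
    {Q : Submodule ℂ (D.Cpx → ℂ)} {f : D.Ad → D.Cpx → ℂ} (hf : IsForm D Q (U ⊔ T.ker) f) :
    IsTypeForm D Q U T (projT T f) := by
  have := finite_quot hT
  have := Fintype.ofFinite (T.J ⧸ T.χ.ker)
  have hp : ∀ g, projT T f g = ((Nat.card (T.J ⧸ T.χ.ker) : ℕ) : ℂ)⁻¹ •
      ∑ c : T.J ⧸ T.χ.ker, ((T.χ c.out : ℂˣ) : ℂ)⁻¹ • f (g * (c.out : T.J)) := by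
    intro g
    rw [projT, finsum_eq_sum_of_fintype]
  refine IsTypeForm.mk' (fun g => ?_) (fun γ g x => ?_) (fun g u hu => ?_) (fun g k => ?_)
  · rw [hp]
    exact Q.smul_mem _ (Q.sum_mem fun c _ => Q.smul_mem _ (hf.mem _))
  · rw [hp, hp]
    simp only [Pi.smul_apply, Finset.sum_apply]
    congr 1
    refine Finset.sum_congr rfl fun c _ => ?_
    rw [mul_assoc, hf.left]
  · rw [hp, hp]
    congr 1
    refine Finset.sum_congr rfl fun c _ => ?_
    rw [mul_assoc, F4_comm hU hJ hu (c.out).2, ← mul_assoc,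
      hf.right _ u ((le_sup_left : U ≤ U ⊔ T.ker) hu)]
  · rw [hp, hp, smul_comm]
    congr 1
    rw [Finset.smul_sum]
    refine Fintype.sum_equiv (MulAction.toPerm k) _ _ fun c => ?_
    rw [MulAction.toPerm_apply]
    obtain ⟨z, hz⟩ := QuotientGroup.mk_out_eq_mul T.χ.ker (k * c.out)
    have h1 : k • c = (((k * c.out : T.J)) : T.J ⧸ T.χ.ker) := by
      conv_lhs => rw [← QuotientGroup.out_eq' c]
      rfl
    have h2 : (k • c).out = k * c.out * z := by rw [h1, hz]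
    have hz1 : T.χ (z : T.J) = 1 := MonoidHom.mem_ker.1 z.2
    have hzk : ((z : T.J) : D.Ad) ∈ U ⊔ T.ker :=
      (le_sup_right : T.ker ≤ U ⊔ T.ker) (Subgroup.mem_map.2 ⟨z, z.2, rfl⟩)
    rw [h2, map_mul, map_mul, hz1, mul_one, Subgroup.coe_mul, Subgroup.coe_mul,
      ← mul_assoc, ← mul_assoc, hf.right _ _ hzk, smul_smul, Units.val_mul]
    congr 1
    have hk : ((T.χ k : ℂˣ) : ℂ) ≠ 0 := Units.ne_zero _
    rw [mul_inv, ← mul_assoc, mul_inv_cancel₀ hk, one_mul]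

/-- Proof: every term of the sum is `f g`. -/
theorem projT_eq {T : AdType D} (hT : ∃ M > 0, T.χ ^ M = 1) {Q : Submodule ℂ (D.Cpx → ℂ)}
    {f : D.Ad → D.Cpx → ℂ} (hf : IsTypeForm D Q U T f) : projT T f = f := by
  have := finite_quot hT
  have := Fintype.ofFinite (T.J ⧸ T.χ.ker)
  funext g
  rw [projT, finsum_eq_sum_of_fintype]
  have h1 : ∀ c : T.J ⧸ T.χ.ker,
      ((T.χ c.out : ℂˣ) : ℂ)⁻¹ • f (g * (c.out : T.J)) = f g := by
    intro c
    rw [hf.type', smul_smul, inv_mul_cancel₀ (Units.ne_zero _), one_smul]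
  rw [Finset.sum_congr rfl fun c _ => h1 c, Finset.sum_const, Finset.card_univ,
    ← Nat.card_eq_fintype_card, ← Nat.cast_smul_eq_nsmul ℂ, smul_smul, inv_mul_cancel₀, one_smul]
  exact Nat.cast_ne_zero.2 Nat.card_pos.ne'

/-- Proof: linearity of finite sums. -/
theorem projT_list_sum {T : AdType D} (hT : ∃ M > 0, T.χ ^ M = 1)
    (l : List (D.Ad → D.Cpx → ℂ)) : projT T l.sum = (l.map (projT T)).sum := by
  induction l with
  | nil =>
    have := finite_quot hT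
    have := Fintype.ofFinite (T.J ⧸ T.χ.ker)
    funext g
    rw [List.sum_nil, List.map_nil, List.sum_nil, projT, finsum_eq_sum_of_fintype]
    simp only [Pi.zero_apply, smul_zero, Finset.sum_const_zero]
  | cons a l ih =>
    rw [List.sum_cons, List.map_cons, List.sum_cons, ← ih]
    have := finite_quot hT
    have := Fintype.ofFinite (T.J ⧸ T.χ.ker)
    funext g
    rw [Pi.add_apply, projT, projT, projT, finsum_eq_sum_of_fintype, finsum_eq_sum_of_fintype,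
      finsum_eq_sum_of_fintype, ← smul_add, ← Finset.sum_add_distrib]
    simp only [Pi.add_apply, smul_add]

/-- Proof: the elements of `J` commute with those of `G(F_v)`, `v ∤ ℓ` (`mul_comm_of_disjoint`), so
`h.act (projT T f) = projT T (h.act f)`. -/
theorem projT_isEigen (hSl : ∀ v : HeightOneSpectrum (𝓞 F), (ℓ : 𝓞 F) ∈ v.asIdeal → v ∈ S)
    {T : AdType D} (hT : ∃ M > 0, T.χ ^ M = 1)
    (hJ : ∀ g ∈ T.J, ∀ v : HeightOneSpectrum (𝓞 F), (ℓ : 𝓞 F) ∉ v.asIdeal → TrivialAt v g)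
    {f : D.Ad → D.Cpx → ℂ} {lam : ∀ v, Hecke U v → ℂ} (hf : IsEigen S f lam) :
    IsEigen S (projT T f) lam := by
  have := finite_quot hT
  have := Fintype.ofFinite (T.J ⧸ T.χ.ker)
  have hp : ∀ (f : D.Ad → D.Cpx → ℂ) g, projT T f g = ((Nat.card (T.J ⧸ T.χ.ker) : ℕ) : ℂ)⁻¹ •
      ∑ c : T.J ⧸ T.χ.ker, ((T.χ c.out : ℂˣ) : ℂ)⁻¹ • f (g * (c.out : T.J)) := by
    intro f g
    rw [projT, finsum_eq_sum_of_fintype]
  intro v hv h
  have hvl : (ℓ : 𝓞 F) ∉ v.asIdeal := fun hl => hv (hSl v hl)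
  have hcomm : ∀ (x : locSub D v) (j : T.J), (x : D.Ad) * (j : D.Ad) = (j : D.Ad) * (x : D.Ad) := by
    intro x j
    apply mul_comm_of_disjoint
    intro w
    by_cases hw : w = v
    · subst hw
      exact Or.inr (hJ _ j.2 w hvl)
    · exact Or.inl (x.2 w hw)
  have h1 : h.act (projT T f) = projT T (h.act f) := by
    funext g
    rw [hp]
    simp only [Hecke.act, Finsupp.sum, hp, Finset.smul_sum]
    rw [Finset.sum_comm]
    refine Finset.sum_congr rfl fun c _ => Finset.sum_congr rfl fun x _ => ?_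
    rw [mul_assoc, hcomm, ← mul_assoc, smul_comm, smul_comm (h.1 x : ℂ)]
  rw [h1, hf v hv h]
  funext g
  rw [Pi.smul_apply, hp, hp]
  simp only [Pi.smul_apply, Finset.smul_sum]
  refine Finset.sum_congr rfl fun c _ => ?_
  rw [smul_comm (lam v h), smul_comm (lam v h)]

/-- Proof: `exists_decomposition` for the level `U ⊔ T.ker` (`IsTypeForm.isForm`), then apply `projT T`
to all members of the list and drop the zeros (`List.filter`). -/
theorem exists_decomposition_type [IsTotallyReal F] (hD : IsTotPosDef D.q)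
    (hSl : ∀ v : HeightOneSpectrum (𝓞 F), (ℓ : 𝓞 F) ∈ v.asIdeal → v ∈ S) (hU : IsTame ℓ U)
    {T : AdType D} (hV : Good S U (U ⊔ T.ker)) (hT : ∃ M > 0, T.χ ^ M = 1)
    (hJ : ∀ g ∈ T.J, ∀ v : HeightOneSpectrum (𝓞 F), (ℓ : 𝓞 F) ∉ v.asIdeal → TrivialAt v g)
    {Q : Submodule ℂ (D.Cpx → ℂ)} (hQ : Q ≤ Subalgebra.toSubmodule (polyFun D))
    (hQt : ∀ p ∈ Q, ∀ y : D.Cpx, (fun x => p (x * y)) ∈ Q)
    {f : D.Ad → D.Cpx → ℂ} (hf : IsTypeForm D Q U T f) :
    ∃ l : List (D.Ad → D.Cpx → ℂ), f = l.sum ∧ ∀ m ∈ l, m ≠ 0 ∧ IsTypeForm D Q U T m ∧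
      ∃ lam : ∀ v, Hecke U v → ℂ, IsEigen S m lam := by
  classical
  obtain ⟨l, hl, hl2⟩ := exists_decomposition hD hV hQ hQt hf.isForm
  refine ⟨(l.map (projT T)).filter (fun m => decide (m ≠ 0)), ?_, fun m hm => ?_⟩
  · rw [F4_sum_filter, ← projT_list_sum hT, ← hl, projT_eq hT hf]
  · rw [List.mem_filter] at hm
    obtain ⟨hm1, hm2⟩ := hm
    obtain ⟨m', hm', rfl⟩ := List.mem_map.1 hm1
    obtain ⟨_, h2, lam, h3⟩ := hl2 m' hm'
    exact ⟨of_decide_eq_true hm2, projT_isTypeForm hT hU hJ h2, lam,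
      projT_isEigen hSl hT hJ h3⟩

end Pool.Agent.Lib.MP_666dc0_nt.WL
end

section

open NumberField IsDedekindDomain
open scoped NumberField

namespace Pool.Agent.Lib.MP_666dc0_nt.WL

/-!
# WL, I1: the key inequalities
-/

variable {F : Type} [Field F] [NumberField F] {n : ℕ} {D : Datum F n}

/-- The constants are stable under translations. -/
theorem span_one_trans {p : D.Cpx → ℂ} (hp : p ∈ Submodule.span ℂ {(1 : D.Cpx → ℂ)})
    (y : D.Cpx) : (fun x => p (x * y)) ∈ Submodule.span ℂ {(1 : D.Cpx → ℂ)} := by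
  rw [Submodule.mem_span_singleton] at hp ⊢
  obtain ⟨a, rfl⟩ := hp
  exact ⟨a, rfl⟩

theorem one_span_le :
    Submodule.span ℂ {(1 : D.Cpx → ℂ)} ≤ Subalgebra.toSubmodule (polyFun D) := by
  rw [Submodule.span_singleton_le_iff_mem]
  exact (polyFun D).one_mem

/-- Key inequality, weight `0` and deep level. -/
theorem key_zero [IsTotallyReal F] (hD : IsTotPosDef D.q) (ℓ : ℕ) [Fact ℓ.Prime]
    (S : Finset (HeightOneSpectrum (𝓞 F)))
    (hSl : ∀ v : HeightOneSpectrum (𝓞 F), (ℓ : 𝓞 F) ∈ v.asIdeal → v ∈ S)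
    (U : Subgroup D.Ad) (hU : IsTame ℓ U) (hUS : ∀ v, v ∉ S → IsGoodAt U v)
    {K : Subgroup D.Ad} (hK : IsLevel ℓ U K) {lam : ∀ v, Hecke U v → ℂ}
    (hlam : lam ∈ Sys S (Subalgebra.toSubmodule (polyFun D)) (U ⊔ K)) (ι : ℂ ≃+* PadicAlgCl ℓ) :
    Controlled ℓ S ι (⋃ (K' : Subgroup D.Ad) (_ : IsLevel ℓ U K'),
      Sys S (Submodule.span ℂ {1}) (U ⊔ K')) lam := by
  obtain ⟨H⟩ := exists_hatData F ℓ ι
  obtain ⟨f, hf0, hf, he⟩ := hlam
  obtain ⟨y₀, g₀, h0⟩ := exists_ev_ne_zero H hf0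
  refine controlled_of_approx H hSl he h0 fun ε hε => ?_
  obtain ⟨K', hK', f', hf', happ⟩ := approx_zero hD H hU hK hf y₀ ε hε
  obtain ⟨l, hl, hl'⟩ := exists_decomposition hD (good_of_isLevel ℓ hSl hU hUS hK')
    one_span_le (fun p hp y => span_one_trans hp y) hf'
  refine ⟨l, fun m hm => ?_, fun g => hl ▸ happ g⟩
  obtain ⟨hm0, hmf, e, hme⟩ := hl' m hm
  exact ⟨e, Set.mem_iUnion₂.2 ⟨K', hK', m, hm0, hmf, hme⟩, hme⟩

/-- Key inequality, deep weight and fixed level. -/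
theorem key_deep [IsTotallyReal F] (hD : IsTotPosDef D.q) (ℓ : ℕ) [Fact ℓ.Prime]
    (S : Finset (HeightOneSpectrum (𝓞 F)))
    (hSl : ∀ v : HeightOneSpectrum (𝓞 F), (ℓ : 𝓞 F) ∈ v.asIdeal → v ∈ S)
    (U : Subgroup D.Ad) (hU : IsTame ℓ U) (hUS : ∀ v, v ∉ S → IsGoodAt U v)
    {K : Subgroup D.Ad} (hK : IsLevel ℓ U K) {lam : ∀ v, Hecke U v → ℂ}
    (hlam : lam ∈ Sys S (Subalgebra.toSubmodule (polyFun D)) (U ⊔ K)) (ι : ℂ ≃+* PadicAlgCl ℓ)
    {K₀ : Subgroup D.Ad} (hK₀ : IsLevel ℓ U K₀) {Q : Submodule ℂ (D.Cpx → ℂ)} (hQ : IsDeep ℓ D Q) :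
    Controlled ℓ S ι (Sys S Q (U ⊔ K₀)) lam := by
  obtain ⟨H⟩ := exists_hatData F ℓ ι
  obtain ⟨f, hf0, hf, he⟩ := hlam
  obtain ⟨y₀, g₀, h0⟩ := exists_ev_ne_zero H hf0
  refine controlled_of_approx H hSl he h0 fun ε hε => ?_
  obtain ⟨f', hf', happ⟩ := approx_deep hD H hU hK₀ hQ (H.ev y₀ f)
    (continuous_ev H le_rfl hf hK.isOpen y₀) (fun γ g => ev_left H hf y₀ γ g)
    (fun g u hu => ev_right H hf hU le_sup_left y₀ g hu) y₀ ε hε
  obtain ⟨l, hl, hl'⟩ := exists_decomposition hD (good_of_isLevel ℓ hSl hU hUS hK₀)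
    hQ.le hQ.trans hf'
  refine ⟨l, fun m hm => ?_, fun g => hl ▸ happ g⟩
  obtain ⟨hm0, hmf, e, hme⟩ := hl' m hm
  exact ⟨e, ⟨m, hm0, hmf, hme⟩, hme⟩

/-- Integrality of the eigenvalues. -/
theorem norm_lam_le_one [IsTotallyReal F] (hD : IsTotPosDef D.q) (ℓ : ℕ) [Fact ℓ.Prime]
    (S : Finset (HeightOneSpectrum (𝓞 F)))
    (hSl : ∀ v : HeightOneSpectrum (𝓞 F), (ℓ : 𝓞 F) ∈ v.asIdeal → v ∈ S)
    (U : Subgroup D.Ad) (_hU : IsTame ℓ U) (_hUS : ∀ v, v ∉ S → IsGoodAt U v)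
    {K : Subgroup D.Ad} (hK : IsLevel ℓ U K) {lam : ∀ v, Hecke U v → ℂ}
    (hlam : lam ∈ Sys S (Subalgebra.toSubmodule (polyFun D)) (U ⊔ K)) (ι : ℂ ≃+* PadicAlgCl ℓ)
    (x : IX ℓ S U) : ‖ι (lam x.1.1 x.1.2)‖ ≤ 1 := by
  obtain ⟨H⟩ := exists_hatData F ℓ ι
  obtain ⟨f, hf0, hf, he⟩ := hlam
  obtain ⟨y₀, g₀, h0⟩ := exists_ev_ne_zero H hf0
  obtain ⟨C, hC⟩ := exists_bound_ev hD H le_rfl hf hK.isOpen hK.isCompact y₀
  exact norm_le_one_of_bound H hSl he h0 hC x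

end Pool.Agent.Lib.MP_666dc0_nt.WL
end

section

open NumberField IsDedekindDomain
open scoped NumberField

namespace Pool.Agent.Lib.MP_666dc0_nt.WL

/-!
# WL, F5: the key inequality for types
-/

variable {F : Type} [Field F] [NumberField F] {n : ℕ} {D : Datum F n}

/-- From the decomposition of the members of a list to a list of eigenforms. -/
theorem exists_flat_list {α : Type} [AddCommMonoid α] (p q : α → Prop) (l : List α)
    (h : ∀ m ∈ l, p m) (hp : ∀ m, p m → ∃ l' : List α, m = l'.sum ∧ ∀ m' ∈ l', q m') :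
    ∃ l' : List α, l.sum = l'.sum ∧ ∀ m' ∈ l', q m' := by
  induction l with
  | nil => exact ⟨[], rfl, by simp⟩
  | cons a t ih =>
    obtain ⟨l1, h1, h2⟩ := ih fun m hm => h m (List.mem_cons_of_mem _ hm)
    obtain ⟨l2, h3, h4⟩ := hp a (h a (List.mem_cons_self))
    refine ⟨l2 ++ l1, ?_, ?_⟩
    · rw [List.sum_cons, List.sum_append, ← h1, ← h3]
    · intro m' hm'
      rcases List.mem_append.1 hm' with h5 | h5
      · exact h4 m' h5
      · exact h2 m' h5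

/-- Key inequality, weight `0` and types in an omnipresent family. -/
theorem key_type [IsTotallyReal F] (hD : IsTotPosDef D.q) (ℓ : ℕ) [Fact ℓ.Prime]
    (S : Finset (HeightOneSpectrum (𝓞 F)))
    (hSl : ∀ v : HeightOneSpectrum (𝓞 F), (ℓ : 𝓞 F) ∈ v.asIdeal → v ∈ S)
    (U : Subgroup D.Ad) (hU : IsTame ℓ U) (hUS : ∀ v, v ∉ S → IsGoodAt U v)
    {K : Subgroup D.Ad} (hK : IsLevel ℓ U K) {lam : ∀ v, Hecke U v → ℂ}
    (hlam : lam ∈ Sys S (Subalgebra.toSubmodule (polyFun D)) (U ⊔ K)) (ι : ℂ ≃+* PadicAlgCl ℓ)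
    {T : Set (AdType D)} (hT : IsOmni ℓ U T) :
    Controlled ℓ S ι (⋃ (t : AdType D) (_ : t ∈ T), SysT S (Submodule.span ℂ {1}) t) lam := by
  obtain ⟨H⟩ := exists_hatData F ℓ ι
  obtain ⟨f, hf0, hf, he⟩ := hlam
  obtain ⟨y₀, g₀, h0⟩ := exists_ev_ne_zero H hf0
  refine controlled_of_approx H hSl he h0 fun ε hε => ?_
  obtain ⟨l, hl, happ⟩ := approx_type hD H hU hK hT hf y₀ ε hε
  obtain ⟨l', hl', hl2⟩ := exists_flat_list
    (fun m => ∃ t ∈ T, IsLevel ℓ U t.J ∧ (∃ M > 0, t.χ ^ M = 1) ∧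
        IsTypeForm D (Submodule.span ℂ {1}) U t m)
    (fun m => ∃ e ∈ (⋃ (t : AdType D) (_ : t ∈ T), SysT S (Submodule.span ℂ {1}) t),
      IsEigen S m e) l hl (fun m hm => by
        obtain ⟨t, ht, hJ, hM, hm⟩ := hm
        obtain ⟨l1, h1, h2⟩ := exists_decomposition_type hD hSl hU
          (good_of_isLevel ℓ hSl hU hUS (hT.level t ht)) hM hJ.supp
          one_span_le (fun p hp y => span_one_trans hp y) hm
        refine ⟨l1, h1, fun m' hm' => ?_⟩
        obtain ⟨h3, h4, e, h5⟩ := h2 m' hm'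
        exact ⟨e, Set.mem_iUnion₂.2 ⟨t, ht, m', h3, h4, h5⟩, h5⟩)
  exact ⟨l', hl2, fun g => hl' ▸ happ g⟩

end Pool.Agent.Lib.MP_666dc0_nt.WL
end
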