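import Pool.Agent.Lib.MP_666dc0_nt.ZO.XDefs
import Pool.Agent.Lib.MP_666dc0_nt.WL.D1
import Pool.Agent.Lib.MP_666dc0_nt.Mg.G010
import Pool.Agent.Lib.MP_666dc0_nt.WL.C5a
import Pool.Agent.Lib.MP_666dc0_nt.ZO.MDefs
import Pool.Agent.Lib.MP_666dc0_nt.ZO.X2b

section

/-!
TASK X3. The finite groups `K 0 / K s`.
-/

open NumberField IsDedekindDomain
open scoped NumberField

namespace Pool.Agent.Lib.MP_666dc0_nt.ZO

open WL

variable {F : Type} [Field F] [NumberField F] {n : ℕ} {D : Datum F n} {ℓ : ℕ} {d : ℕ}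
  {U : Subgroup D.Ad} {K : ℕ → Subgroup D.Ad}

theorem IsUniform.K_le (hK : IsUniform ℓ d U K) {s s' : ℕ} (h : s ≤ s') : K s' ≤ K s := by
  induction h with
  | refl => exact le_rfl
  | step _ ih => exact (hK.anti _).trans ih

theorem IsUniform.normal_K (hK : IsUniform ℓ d U K) (s : ℕ) : ((K s).subgroupOf (K 0)).Normal := by
  refine ⟨fun k hk g => ?_⟩
  rw [Subgroup.mem_subgroupOf] at hk ⊢
  exact hK.normal s g g.2 k hk

theorem IsUniform.card_PP (hK : IsUniform ℓ d U K) (s : ℕ) : Nat.card (PP K s) = ℓ ^ (s * d) := by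
  rw [← hK.index s]
  rfl

theorem IsUniform.finite_PP [Fact ℓ.Prime] (hK : IsUniform ℓ d U K) (s : ℕ) : Finite (PP K s) := by
  apply Nat.finite_of_card_ne_zero
  rw [hK.card_PP s]
  exact pow_ne_zero _ (Fact.out : ℓ.Prime).ne_zero

theorem IsUniform.tow [Fact ℓ.Prime] (hK : IsUniform ℓ d U K) : IsTow ℓ U K :=
  ⟨hK.level, hK.anti, hK.small, hK.entries, hK.finite_PP⟩

theorem IsUniform.isPGroup_PP [Fact ℓ.Prime] [hn : ∀ s, ((K s).subgroupOf (K 0)).Normal]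
    (hK : IsUniform ℓ d U K) (s : ℕ) : IsPGroup ℓ (PP K s) :=
  IsPGroup.of_card (hK.card_PP s)

/-- The class of an element of `K 0` which is in `closure T ⊔ K s` is in the closure of the classes of `T`. -/
private theorem X3_mk_mem [hn : ∀ s, ((K s).subgroupOf (K 0)).Normal] (s : ℕ) {T : Set D.Ad}
    (hT : T ⊆ K 0) (hKs : K s ≤ K 0) {V : Subgroup (PP K s)}
    (hV : ∀ t (ht : t ∈ K 0), t ∈ T → (QuotientGroup.mk (⟨t, ht⟩ : K 0) : PP K s) ∈ V)
    {x : D.Ad} (hx : x ∈ Subgroup.closure T ⊔ K s) (hx0 : x ∈ K 0) :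
    (QuotientGroup.mk (⟨x, hx0⟩ : K 0) : PP K s) ∈ V := by
  have h1 : Subgroup.closure T ⊔ K s ≤ (V.comap (QuotientGroup.mk' ((K s).subgroupOf (K 0)))).map (K 0).subtype := by
    rw [sup_le_iff, Subgroup.closure_le]
    refine ⟨fun t ht => ?_, fun t ht => ?_⟩
    · exact ⟨⟨t, hT ht⟩, hV t (hT ht) ht, rfl⟩
    · refine ⟨⟨t, hKs ht⟩, ?_, rfl⟩
      have : (QuotientGroup.mk' ((K s).subgroupOf (K 0))) ⟨t, hKs ht⟩ = 1 := by
        rw [QuotientGroup.mk'_apply, QuotientGroup.eq_one_iff]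
        exact ht
      show (QuotientGroup.mk' ((K s).subgroupOf (K 0))) ⟨t, hKs ht⟩ ∈ V
      rw [this]
      exact V.one_mem
  obtain ⟨y, hy, hyx⟩ := h1 hx
  have : y = ⟨x, hx0⟩ := Subtype.ext hyx
  rw [← this]
  exact hy

theorem IsUniform.exists_isUG [Fact ℓ.Prime] [hn : ∀ s, ((K s).subgroupOf (K 0)).Normal]
    (hK : IsUniform ℓ d U K) (s : ℕ) : ∃ g : Fin d → PP K s, IsUG ℓ (ℓ ^ s) d (PP K s) g := by
  obtain ⟨g, hg0, hg⟩ := hK.gen
  have hKs : K s ≤ K 0 := hK.K_le (Nat.zero_le s)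
  refine ⟨fun i => (QuotientGroup.mk (⟨g i, hg0 i⟩ : K 0) : PP K s), ?_, ?_, ?_, ?_⟩
  · rw [hK.card_PP s, pow_mul]
  · rw [eq_top_iff]
    intro z _
    obtain ⟨⟨x, hx⟩, rfl⟩ := QuotientGroup.mk_surjective z
    refine X3_mk_mem s (T := Set.range g) ?_ hKs ?_ ((hg s).2 hx) hx
    · rintro _ ⟨i, rfl⟩
      exact hg0 i
    · rintro _ ht ⟨i, rfl⟩
      exact Subgroup.subset_closure ⟨i, rfl⟩
  · intro i
    have h1 : (QuotientGroup.mk (⟨g i, hg0 i⟩ : K 0) : PP K s) ^ ℓ ^ s =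
        QuotientGroup.mk ((⟨g i, hg0 i⟩ : K 0) ^ ℓ ^ s) := rfl
    show (QuotientGroup.mk (⟨g i, hg0 i⟩ : K 0) : PP K s) ^ ℓ ^ s = 1
    rw [h1, QuotientGroup.eq_one_iff]
    exact (hg s).1 i
  · intro x y
    obtain ⟨⟨x, hx⟩, rfl⟩ := QuotientGroup.mk_surjective x
    obtain ⟨⟨y, hy⟩, rfl⟩ := QuotientGroup.mk_surjective y
    refine X3_mk_mem s (T := {x | ∃ y ∈ K 0, x = y ^ (if ℓ = 2 then 4 else ℓ)}) ?_ hKs ?_
      (hK.comm s x hx y hy) (mul_mem (mul_mem (mul_mem hx hy) (inv_mem hx)) (inv_mem hy))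
    · rintro _ ⟨y, hy, rfl⟩
      exact pow_mem hy _
    · rintro _ ht ⟨y, hy, rfl⟩
      exact Subgroup.subset_closure ⟨QuotientGroup.mk (⟨y, hy⟩ : K 0), rfl⟩

/-- The projection `K 0 / K (s + 1) → K 0 / K s`. -/
noncomputable def prP [hn : ∀ s, ((K s).subgroupOf (K 0)).Normal] (h : ∀ s, K (s + 1) ≤ K s) (s : ℕ) :
    PP K (s + 1) →* PP K s :=
  QuotientGroup.map _ _ (MonoidHom.id _) fun _ hx => h s hx

theorem prP_mk [hn : ∀ s, ((K s).subgroupOf (K 0)).Normal] (h : ∀ s, K (s + 1) ≤ K s) (s : ℕ) (x : K 0) :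
    prP h s (QuotientGroup.mk x) = QuotientGroup.mk x := rfl

end Pool.Agent.Lib.MP_666dc0_nt.ZO
end

section

/-!
TASK D3a. A function which is an eigenvector of the `ℓ`-integral Hecke operators outside `S`, with the eigenvalues of a
system `lam ∈ AllSys`, is an eigenform with the system `lam`.

For `v ∉ S`, `h : Hecke U v` there is `N ≠ 0` (a power of `ℓ`, or the product of the denominators) such that `h' = N h`
is integral (a new element of `Hecke U v`: `⟨N • h.1, _⟩`). `h'.act f = N • h.act f`, so `h.act f = N⁻¹ lam v h' • f`.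
The same for a non-zero eigenform `f₀` of `lam` (`hlam`) gives `lam v h' = N lam v h`.
-/

open NumberField IsDedekindDomain
open scoped NumberField

namespace Pool.Agent.Lib.MP_666dc0_nt.FM

open WL ZO

variable {F : Type} [Field F] [NumberField F] {n : ℕ} {D : Datum F n} {ℓ : ℕ} [Fact ℓ.Prime]
  {S : Finset (HeightOneSpectrum (𝓞 F))} {U : Subgroup D.Ad}

/-- A multiple of a Hecke function. -/
private noncomputable def D3a_mul {v : HeightOneSpectrum (𝓞 F)} (N : ℚ) (h : Hecke U v) : Hecke U v :=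
  ⟨N • h.1, fun u hu c => by
    rw [Finsupp.smul_apply, Finsupp.smul_apply, h.2 u hu c]⟩

private theorem D3a_mul_act {v : HeightOneSpectrum (𝓞 F)} {N : ℚ} (hN : N ≠ 0) (h : Hecke U v)
    (f : D.Ad → D.Cpx → ℂ) : (D3a_mul N h).act f = (N : ℂ) • h.act f := by
  funext g
  change (N • h.1).sum (fun c a => (a : ℂ) • f (g * (Quotient.out c : locSub D v))) =
    (N : ℂ) • h.1.sum fun c a => (a : ℂ) • f (g * (Quotient.out c : locSub D v))
  rw [Finsupp.sum_smul_index, Finsupp.smul_sum]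
  · refine Finsupp.sum_congr fun c _ => ?_
    rw [smul_smul]
    congr 1
    push_cast
    rfl
  · intro c
    rw [Rat.cast_zero, zero_smul]

private theorem D3a_exists {v : HeightOneSpectrum (𝓞 F)} (h : Hecke U v) :
    ∃ N : ℚ, N ≠ 0 ∧ (D3a_mul N h).IsIntegral ℓ := by
  have hl : ((ℓ : ℕ) : ℝ) ≠ 0 := Nat.cast_ne_zero.2 (Fact.out : ℓ.Prime).ne_zero
  have hl1 : (1 : ℝ) < (ℓ : ℝ) := by exact_mod_cast (Fact.out : ℓ.Prime).one_lt
  -- a bound for the norms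
  obtain ⟨k, hk⟩ : ∃ k : ℕ, ∀ c ∈ h.1.support, ‖((h.1 c : ℚ) : ℚ_[ℓ])‖ ≤ (ℓ : ℝ) ^ k := by
    have h1 : ∀ c : LocQuot U v, ∃ k : ℕ, ‖((h.1 c : ℚ) : ℚ_[ℓ])‖ ≤ (ℓ : ℝ) ^ k := fun c => by
      obtain ⟨k, hk⟩ := pow_unbounded_of_one_lt ‖((h.1 c : ℚ) : ℚ_[ℓ])‖ hl1
      exact ⟨k, hk.le⟩
    choose k hk using h1
    refine ⟨h.1.support.sup k, fun c hc => (hk c).trans ?_⟩
    exact pow_le_pow_right₀ hl1.le (Finset.le_sup hc)
  refine ⟨(ℓ : ℚ) ^ k, pow_ne_zero _ (Nat.cast_ne_zero.2 (Fact.out : ℓ.Prime).ne_zero), fun c => ?_⟩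
  change ‖((((ℓ : ℚ) ^ k • h.1) c : ℚ) : ℚ_[ℓ])‖ ≤ 1
  rw [Finsupp.smul_apply, smul_eq_mul]
  push_cast
  rw [norm_mul, norm_pow, Padic.norm_p]
  by_cases hc : c ∈ h.1.support
  · calc (ℓ : ℝ)⁻¹ ^ k * ‖((h.1 c : ℚ) : ℚ_[ℓ])‖ ≤ (ℓ : ℝ)⁻¹ ^ k * (ℓ : ℝ) ^ k :=
          mul_le_mul_of_nonneg_left (hk c hc) (by positivity)
      _ = 1 := by rw [← mul_pow, inv_mul_cancel₀ hl, one_pow]
  · rw [Finsupp.notMem_support_iff.1 hc, Rat.cast_zero, norm_zero, mul_zero]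
    exact zero_le_one

theorem isEigen_of_ix {lam : ∀ v, Hecke U v → ℂ} (hlam : lam ∈ AllSys ℓ S U) {f : D.Ad → D.Cpx → ℂ}
    (h : ∀ x : IX ℓ S U, x.1.2.act f = lam x.1.1 x.1.2 • f) : IsEigen S f lam := by
  intro v hv e
  obtain ⟨K', -, f₀, hf₀, -, hE⟩ := hlam
  obtain ⟨N, hN, hint⟩ := D3a_exists (ℓ := ℓ) e
  have hN' : (N : ℂ) ≠ 0 := Rat.cast_ne_zero.2 hN
  have h1 : (D3a_mul N e).act f = lam v (D3a_mul N e) • f := h ⟨⟨v, D3a_mul N e⟩, hv, hint⟩
  have h2 : (D3a_mul N e).act f₀ = lam v (D3a_mul N e) • f₀ := hE v hv _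
  rw [D3a_mul_act hN] at h1 h2
  rw [hE v hv e, smul_smul] at h2
  have h3 : (N : ℂ) * lam v e = lam v (D3a_mul N e) := by
    have h4 : ((N : ℂ) * lam v e - lam v (D3a_mul N e)) • f₀ = 0 := by
      rw [sub_smul, h2, sub_self]
    rcases smul_eq_zero.1 h4 with h5 | h5
    · exact sub_eq_zero.1 h5
    · exact absurd h5 hf₀
  rw [← h3, mul_smul] at h1
  exact smul_right_injective _ hN' h1

end Pool.Agent.Lib.MP_666dc0_nt.FM
end

section

/-!
TASK Q3. Forms as vector valued functions.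

`exists_toV`. Write `q̃_j = ι ∘ gb.q j`, a basis over `𝕂 = PadicAlgCl ℓ` of `{ι ∘ p | p ∈ Q}` (`gb.indep`, `gb.span`: every `p ∈ Q` is `∑ a_j q_j`, so `ι ∘ p = ∑ ι a_j q̃_j`; independence over `𝕂`: apply `ι.symm` to a relation). For a form `f` and `g : D.Ad` the function `x ↦ f g (x * ĝ⁻¹)` is in `Q` (`hQ.trans`),
so there are unique `Φ g j ∈ 𝕂` with `ι (f g (x * ĝ⁻¹)) = ∑ j, Φ g j * q̃_j x`, that is `ι (f g x) = ∑ j, Φ g j * q̃_j (x * ĝ)`. By uniqueness: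
left: `f (γ g) (x * (γ g)^⁻¹) = f g (x * ĝ⁻¹ * γ⁻¹ * γ) = f g (x * ĝ⁻¹)` (`hat_toAd` of `WL/D1`); right by `u ∈ U`: `f (g u) = f g`, `û = 1` (`hat_eq_one` of `WL/D1`, `hU`); for `k ∈ K s`: `f (g k) (x * k̂⁻¹ * ĝ⁻¹) = ∑ j, Φ g j * q̃_j (x * k̂⁻¹)`, and `gb.act k⁻¹ j x` gives `Φ (g k) = ρ k⁻¹ *ᵥ Φ g`.
The inverse map: for `Φ ∈ VF` put `f g x = ι⁻¹ (∑ j, Φ g j * q̃_j (x * ĝ))`; `mem`: `hQ.trans`; `left`: `hat_toAd`; `right`: for `u k ∈ U ⊔ K s` (`mem_sup_iff` of `WL/C5a`, `(hK.level s).supp`): `Φ (g u k) = ρ k⁻¹ *ᵥ Φ g`, `(g u k)^ = ĝ k̂`, and by `gb.act k`: `∑ j, (ρ k⁻¹ Φ g) j * q̃_j (x ĝ k̂) = ∑ i, (ρ k (ρ k⁻¹ Φ g)) i * q̃_i (x ĝ)`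
with `ρ k * ρ k⁻¹ = 1`. (`k ∈ K 0`: `K s ≤ K 0` by induction from `hK.anti`.) The map `e` is additive and semilinear by uniqueness.
-/

open NumberField IsDedekindDomain
open scoped NumberField

namespace Pool.Agent.Lib.MP_666dc0_nt.ZO

open WL

variable {F : Type} [Field F] [NumberField F] {n : ℕ} {D : Datum F n} {ℓ : ℕ} [Fact ℓ.Prime]
  {ι : ℂ ≃+* PadicAlgCl ℓ} {d : ℕ} {U : Subgroup D.Ad} {K : ℕ → Subgroup D.Ad}
  {S : Finset (HeightOneSpectrum (𝓞 F))}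

private theorem Q3_anti {K : ℕ → Subgroup D.Ad} (h : ∀ s, K (s + 1) ≤ K s) (s : ℕ) : K s ≤ K 0 := by
  induction s with
  | zero => exact le_refl _
  | succ s ih => exact (h s).trans ih

private theorem Q3_uniq {w : ℕ} {q : Fin w → D.Cpx → ℂ} (hq : LinearIndependent ℂ q)
    (a b : Fin w → PadicAlgCl ℓ)
    (h : ∀ x, ∑ j, a j * ι (q j x) = ∑ j, b j * ι (q j x)) : a = b := by
  have h0 : ∑ j, ι.symm (a j - b j) • q j = 0 := by
    funext x
    rw [Finset.sum_apply, Pi.zero_apply]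
    apply ι.injective
    rw [map_sum, map_zero]
    have h1 : ∀ j, ι ((ι.symm (a j - b j) • q j) x) = a j * ι (q j x) - b j * ι (q j x) := by
      intro j
      rw [Pi.smul_apply, smul_eq_mul, map_mul, RingEquiv.apply_symm_apply, sub_mul]
    rw [Finset.sum_congr rfl fun j _ => h1 j, Finset.sum_sub_distrib, h x, sub_self]
  funext j
  have h2 := Fintype.linearIndependent_iff.1 hq _ h0 j
  have h3 : a j - b j = 0 := by
    have := congrArg ι h2
    rwa [RingEquiv.apply_symm_apply, map_zero] at this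
  exact sub_eq_zero.1 h3

private theorem Q3_exi {w : ℕ} {q : Fin w → D.Cpx → ℂ} {Q : Submodule ℂ (D.Cpx → ℂ)}
    (hs : Submodule.span ℂ (Set.range q) = Q) (p : D.Cpx → ℂ) (hp : p ∈ Q) :
    ∃ a : Fin w → PadicAlgCl ℓ, ∀ x, ι (p x) = ∑ j, a j * ι (q j x) := by
  rw [← hs, Submodule.mem_span_range_iff_exists_fun] at hp
  obtain ⟨c, hc⟩ := hp
  refine ⟨fun j => ι (c j), fun x => ?_⟩
  rw [← hc, Finset.sum_apply, map_sum]
  refine Finset.sum_congr rfl fun j _ => ?_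
  rw [Pi.smul_apply, smul_eq_mul, map_mul]

/-- the relation between a form and a vector valued function -/
private def Q3_P (H : HatData F ℓ ι) {w : ℕ} (q : Fin w → D.Cpx → ℂ) (f : D.Ad → D.Cpx → ℂ)
    (Φ : D.Ad → Fin w → PadicAlgCl ℓ) : Prop :=
  ∀ (g : D.Ad) (x : D.Cpx), ι (f g x) = ∑ j, Φ g j * ι (q j (x * H.hat D g))

private theorem Q3_P_iff (H : HatData F ℓ ι) {w : ℕ} {q : Fin w → D.Cpx → ℂ} {f : D.Ad → D.Cpx → ℂ}
    {Φ : D.Ad → Fin w → PadicAlgCl ℓ} (h : Q3_P H q f Φ) (g : D.Ad) (x : D.Cpx) :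
    ∑ j, Φ g j * ι (q j x) = ι (f g (x * (H.hat D g)⁻¹)) := by
  rw [h g, mul_assoc, inv_mul_cancel, mul_one]

private theorem Q3_P_uniq (H : HatData F ℓ ι) {w : ℕ} {q : Fin w → D.Cpx → ℂ} (hq : LinearIndependent ℂ q)
    {f : D.Ad → D.Cpx → ℂ} {Φ Ψ : D.Ad → Fin w → PadicAlgCl ℓ} (h : Q3_P H q f Φ) (h' : Q3_P H q f Ψ) :
    Φ = Ψ := by
  funext g
  refine Q3_uniq (ι := ι) hq _ _ fun x => ?_
  rw [Q3_P_iff H h, Q3_P_iff H h']

private theorem Q3_P_inj (H : HatData F ℓ ι) {w : ℕ} {q : Fin w → D.Cpx → ℂ}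
    {f f' : D.Ad → D.Cpx → ℂ} {Φ : D.Ad → Fin w → PadicAlgCl ℓ} (h : Q3_P H q f Φ) (h' : Q3_P H q f' Φ) :
    f = f' := by
  funext g x
  exact ι.injective ((h g x).trans (h' g x).symm)

private theorem Q3_fwd (H : HatData F ℓ ι) (hU : IsTame ℓ U) (hK : IsTow ℓ U K)
    {Q : Submodule ℂ (D.Cpx → ℂ)} (hQ : IsWeight D Q) {w : ℕ} (gb : GoodBasis H K Q w) (s : ℕ)
    (f : D.Ad → D.Cpx → ℂ) (hf : IsForm D Q (U ⊔ K s) f) :
    ∃ Φ : D.Ad → Fin w → PadicAlgCl ℓ, IsVF U K gb.ρ s Φ ∧ Q3_P H gb.q f Φ := by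
  have hex : ∀ g : D.Ad, ∃ a : Fin w → PadicAlgCl ℓ, ∀ x,
      ι (f g (x * (H.hat D g)⁻¹)) = ∑ j, a j * ι (gb.q j x) := fun g =>
    Q3_exi (ι := ι) gb.span _ (hQ.trans (f g) (hf.mem g) (H.hat D g)⁻¹)
  choose Φ hΦ using hex
  have hP : Q3_P H gb.q f Φ := by
    intro g x
    rw [← hΦ g, mul_assoc, mul_inv_cancel, mul_one]
  refine ⟨Φ, ⟨⟨?_, ?_⟩, ?_⟩, hP⟩
  · intro γ g
    refine Q3_uniq (ι := ι) gb.indep _ _ fun x => ?_
    rw [← hΦ, ← hΦ, hf.left, map_mul, mul_inv_rev, hat_toAd, mul_assoc, mul_assoc, inv_mul_cancel, mul_one]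
  · intro g u hu
    refine Q3_uniq (ι := ι) gb.indep _ _ fun x => ?_
    rw [← hΦ, ← hΦ, hf.right g u ((le_sup_left : U ≤ U ⊔ K s) hu), map_mul, hat_eq_one H (hU u hu), mul_one]
  · intro g k hk
    refine Q3_uniq (ι := ι) gb.indep _ _ fun x => ?_
    have h1 : ∀ j, ι (gb.q j (x * (H.hat D (k : D.Ad))⁻¹)) = ∑ i, gb.ρ k⁻¹ i j * ι (gb.q i x) := by
      intro j
      have := gb.act k⁻¹ j x
      rwa [Subgroup.coe_inv, map_inv] at this
    rw [← hΦ, hf.right g k ((le_sup_right : K s ≤ U ⊔ K s) hk), map_mul, mul_inv_rev, ← mul_assoc, hΦ]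
    simp only [h1, Matrix.mulVec, dotProduct, Finset.mul_sum, Finset.sum_mul]
    rw [Finset.sum_comm]
    refine Finset.sum_congr rfl fun i _ => Finset.sum_congr rfl fun j _ => ?_
    ring

private theorem Q3_bwd (H : HatData F ℓ ι) (hU : IsTame ℓ U) (hK : IsTow ℓ U K)
    {Q : Submodule ℂ (D.Cpx → ℂ)} (hQ : IsWeight D Q) {w : ℕ} (gb : GoodBasis H K Q w) (s : ℕ)
    (Φ : D.Ad → Fin w → PadicAlgCl ℓ) (hΦ : IsVF U K gb.ρ s Φ) :
    ∃ f : D.Ad → D.Cpx → ℂ, IsForm D Q (U ⊔ K s) f ∧ Q3_P H gb.q f Φ := by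
  refine ⟨fun g x => ι.symm (∑ j, Φ g j * ι (gb.q j (x * H.hat D g))), ⟨?_, ?_, ?_⟩, ?_⟩
  · intro g
    have hp : (∑ j, ι.symm (Φ g j) • gb.q j) ∈ Q := by
      refine Submodule.sum_mem _ fun j _ => Submodule.smul_mem _ _ ?_
      have h0 : gb.q j ∈ Submodule.span ℂ (Set.range gb.q) := Submodule.subset_span ⟨j, rfl⟩
      exact gb.span.le h0
    have := hQ.trans _ hp (H.hat D g)
    have he : (fun x => (∑ j, ι.symm (Φ g j) • gb.q j) (x * H.hat D g)) =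
        fun x => ι.symm (∑ j, Φ g j * ι (gb.q j (x * H.hat D g))) := by
      funext x
      rw [Finset.sum_apply, map_sum]
      refine Finset.sum_congr rfl fun j _ => ?_
      rw [Pi.smul_apply, smul_eq_mul, map_mul, RingEquiv.symm_apply_apply]
    rw [he] at this
    exact this
  · intro γ g x
    simp only [hΦ.tf.left, map_mul, hat_toAd, mul_assoc]
  · intro g k hk
    rw [mem_sup_iff hU (hK.level s).supp] at hk
    obtain ⟨u, hu, k', hk', rfl⟩ := hk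
    have hk0 : k' ∈ K 0 := Q3_anti hK.anti s hk'
    have h1 : Φ (g * (u * k')) = (gb.ρ (⟨k', hk0⟩ : K 0)⁻¹).mulVec (Φ g) := by
      rw [← mul_assoc]
      have := hΦ.eqv (g * u) ⟨k', hk0⟩ hk'
      rw [hΦ.tf.right g u hu] at this
      exact this
    have h2 : H.hat D (g * (u * k')) = H.hat D g * H.hat D k' := by
      rw [map_mul, map_mul, hat_eq_one H (hU u hu), one_mul]
    funext x
    congr 1
    rw [h1, h2]
    have h3 : ∀ j, ι (gb.q j (x * (H.hat D g * H.hat D k'))) =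
        ∑ i, gb.ρ ⟨k', hk0⟩ i j * ι (gb.q i (x * H.hat D g)) := by
      intro j
      rw [← mul_assoc]
      exact gb.act ⟨k', hk0⟩ j (x * H.hat D g)
    have h4 : (gb.ρ (⟨k', hk0⟩ : K 0)).mulVec ((gb.ρ (⟨k', hk0⟩ : K 0)⁻¹).mulVec (Φ g)) = Φ g := by
      rw [Matrix.mulVec_mulVec, ← map_mul, mul_inv_cancel, map_one, Matrix.one_mulVec]
    generalize (gb.ρ (⟨k', hk0⟩ : K 0)⁻¹).mulVec (Φ g) = b at h4 ⊢
    rw [← h4]
    simp only [h3, Matrix.mulVec, dotProduct, Finset.mul_sum, Finset.sum_mul]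
    rw [Finset.sum_comm]
    refine Finset.sum_congr rfl fun i _ => Finset.sum_congr rfl fun j _ => ?_
    ring
  · intro g x
    rw [RingEquiv.apply_symm_apply]

theorem exists_toV (H : HatData F ℓ ι) (hU : IsTame ℓ U) (hK : IsTow ℓ U K)
    {Q : Submodule ℂ (D.Cpx → ℂ)} (hQ : IsWeight D Q) {w : ℕ} (gb : GoodBasis H K Q w) (s : ℕ) :
    ∃ e : forms D Q (U ⊔ K s) ≃+ VF U K gb.ρ s, (∀ (a : ℂ) f, e (a • f) = ι a • e f) ∧
      ∀ (f : forms D Q (U ⊔ K s)) (g : D.Ad) (x : D.Cpx),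
        ι (f.1 g x) = ∑ j, (e f).1 g j * ι (gb.q j (x * H.hat D g)) := by
  choose E hE1 hE2 using fun f : forms D Q (U ⊔ K s) => Q3_fwd H hU hK hQ gb s f.1 f.2
  let e₀ : forms D Q (U ⊔ K s) →+ VF U K gb.ρ s :=
    { toFun := fun f => ⟨E f, hE1 f⟩
      map_zero' := by
        apply Subtype.ext
        refine Q3_P_uniq H gb.indep (hE2 0) ?_
        intro g x
        change ι 0 = ∑ j, (0 : PadicAlgCl ℓ) * _
        simp
      map_add' := by
        intro f f'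
        apply Subtype.ext
        refine Q3_P_uniq H gb.indep (hE2 (f + f')) ?_
        intro g x
        change ι (f.1 g x + f'.1 g x) = ∑ j, (E f g j + E f' g j) * _
        rw [map_add, hE2 f g x, hE2 f' g x, ← Finset.sum_add_distrib]
        exact Finset.sum_congr rfl fun j _ => (add_mul _ _ _).symm }
  have hbij : Function.Bijective e₀ := by
    constructor
    · intro f f' h
      have h1 : E f = E f' := congrArg Subtype.val h
      apply Subtype.ext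
      have h2 := hE2 f'
      rw [← h1] at h2
      exact Q3_P_inj H (hE2 f) h2
    · intro Φ
      obtain ⟨f, hf, hP⟩ := Q3_bwd H hU hK hQ gb s Φ.1 Φ.2
      refine ⟨⟨f, hf⟩, Subtype.ext ?_⟩
      exact Q3_P_uniq H gb.indep (hE2 ⟨f, hf⟩) hP
  refine ⟨AddEquiv.ofBijective e₀ hbij, ?_, ?_⟩
  · intro a f
    apply Subtype.ext
    refine Q3_P_uniq H gb.indep (hE2 (a • f)) ?_
    intro g x
    change ι (a * f.1 g x) = ∑ j, (ι a * E f g j) * _
    rw [map_mul, hE2 f g x, Finset.mul_sum]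
    exact Finset.sum_congr rfl fun j _ => (mul_assoc _ _ _).symm
  · intro f g x
    exact hE2 f g x

end Pool.Agent.Lib.MP_666dc0_nt.ZO
end

section

/-!
TASK Q3a. The coordinates of an eigenform are eigenfunctions.

(`hat_toAd`, `hat_eq_one` are in `WL/D1`.)
`toV_eigen`. For `x : IX ℓ S U`, `x.1 = ⟨v, h⟩`: the representatives `c.out ∈ locSub D v` are trivial at the places above `ℓ` (`v ∉ S`, `hSl`), so `(c.out)^ = 1` and `ι ((h.act f) g y) = ∑ c, h c * ι (f (g c.out) y) = ∑ j, (h.actK Φ_j) g * q̃_j (y ĝ)`. The left side is also `ι (lam v h) * ι (f g y) = ∑ j, (ι (lam v h) * Φ g j) * q̃_j (y ĝ)`.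
Compare coefficients (the functions `y ↦ q̃_j (y ĝ)` are independent because `y ↦ y ĝ` is a bijection).
-/

open NumberField IsDedekindDomain
open scoped NumberField

namespace Pool.Agent.Lib.MP_666dc0_nt.ZO

open WL

variable {F : Type} [Field F] [NumberField F] {n : ℕ} {D : Datum F n} {ℓ : ℕ} [Fact ℓ.Prime]
  {ι : ℂ ≃+* PadicAlgCl ℓ} {d : ℕ} {U : Subgroup D.Ad} {K : ℕ → Subgroup D.Ad}
  {S : Finset (HeightOneSpectrum (𝓞 F))}

private theorem coeff_eq (H : HatData F ℓ ι) {w : ℕ} (q : Fin w → D.Cpx → ℂ)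
    (hq : LinearIndependent ℂ q) (g : D.Ad) (A B : Fin w → PadicAlgCl ℓ)
    (h : ∀ x : D.Cpx, ∑ j, A j * ι (q j (x * H.hat D g)) = ∑ j, B j * ι (q j (x * H.hat D g)))
    (j : Fin w) : A j = B j := by
  have h1 : ∑ j, (ι.symm (A j - B j)) • q j = 0 := by
    funext y
    have h2 := h (y * (H.hat D g)⁻¹)
    rw [inv_mul_cancel_right] at h2
    have h3 : ∑ j, (A j - B j) * ι (q j y) = 0 := by
      simp only [sub_mul, Finset.sum_sub_distrib, h2, sub_self]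
    have h4 := congrArg ι.symm h3
    rw [map_sum, map_zero] at h4
    rw [Finset.sum_apply, Pi.zero_apply, ← h4]
    refine Finset.sum_congr rfl fun j _ => ?_
    rw [Pi.smul_apply, smul_eq_mul, map_mul, RingEquiv.symm_apply_apply]
  have h5 := (Fintype.linearIndependent_iff.1 hq) _ h1 j
  have h6 : A j - B j = 0 := by
    have := congrArg ι h5
    rwa [RingEquiv.apply_symm_apply, map_zero] at this
  exact sub_eq_zero.1 h6

theorem toV_eigen (H : HatData F ℓ ι) (hSl : ∀ v : HeightOneSpectrum (𝓞 F), (ℓ : 𝓞 F) ∈ v.asIdeal → v ∈ S)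
    {w : ℕ} (q : Fin w → D.Cpx → ℂ) (hq : LinearIndependent ℂ q) {f : D.Ad → D.Cpx → ℂ}
    {Φ : D.Ad → Fin w → PadicAlgCl ℓ}
    (h : ∀ (g : D.Ad) (x : D.Cpx), ι (f g x) = ∑ j, Φ g j * ι (q j (x * H.hat D g)))
    {lam : ∀ v, Hecke U v → ℂ} (hf : IsEigen S f lam) (j : Fin w) :
    IsEF S U (fun g => Φ g j) (iv ι lam) := by
  rintro ⟨⟨v, T⟩, hv, hT⟩
  funext g
  have hv' : v ∉ S := hv
  refine coeff_eq H q hq g (fun j => T.actK (fun g => Φ g j) g)
    (fun j => ι (lam v T) * Φ g j) (fun x => ?_) j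
  have h1 : ι ((T.act f) g x) = ι (lam v T) * ι (f g x) := by
    rw [hf v hv' T, Pi.smul_apply, Pi.smul_apply, smul_eq_mul, map_mul]
  have hhat : ∀ c : locSub D v, H.hat D (g * (c : D.Ad)) = H.hat D g := fun c => by
    rw [map_mul, hat_eq_one H (g := (c : D.Ad)), mul_one]
    intro v' hv''
    exact c.2 v' fun e => hv' (hSl v (e ▸ hv''))
  have h2 : ι ((T.act f) g x) = ∑ j, T.actK (fun g => Φ g j) g * ι (q j (x * H.hat D g)) := by
    unfold Hecke.act Hecke.actK Finsupp.sum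
    rw [Finset.sum_apply, map_sum]
    simp only [Finset.sum_mul]
    rw [Finset.sum_comm]
    refine Finset.sum_congr rfl fun c _ => ?_
    rw [Pi.smul_apply, smul_eq_mul, map_mul, h, map_ratCast, Finset.mul_sum]
    refine Finset.sum_congr rfl fun j _ => ?_
    rw [hhat, mul_assoc]
  rw [← h2, h1, h g x, Finset.mul_sum]
  refine Finset.sum_congr rfl fun j _ => ?_
  rw [mul_assoc]

end Pool.Agent.Lib.MP_666dc0_nt.ZO
end

section

/-!
TASK Q3b. The decomposition of the space of vector valued functions.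

Let `e` be the bijection of `exists_toV`. For `p` put `W = span {(e f).1 | f ∈ forms with (∃ lam, IsEigen S f lam ∧ p lam)}`. It is the image of `espan S Q (U ⊔ K s) p ≤ forms` under `e` (`e` is additive and semilinear, so it maps spans to spans: `Submodule.span_induction` in both directions; an element `f` of `espan` is a form).
So `finrank W = finrank (espan ..)` (a bijective additive map which is semilinear for the bijection `ι`: `rank_eq_of_equiv_equiv`, and `Module.finrank` is its `toNat`). The same for `W'` with `¬ p`. `finrank_VF`: the same for the whole spaces.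
`W ⊔ W' = VF`: `≤` is clear. For `Φ ∈ VF` let `f = e.symm Φ`; `exists_decomposition` of `WL/C7` (`Good` from `good_of_isLevel` of `WL/C5a`, `hK.level s`, `hQ.le`, `hQ.trans`) writes `f` as a sum of eigenforms `m ≠ 0` with systems `lam`, each satisfies `p lam` or `¬ p lam`.
`W ≤ span {..}`: let `f` be a form with `IsEigen S f lam`, `p lam`. If `f = 0` then `e f = 0`. Otherwise `lam ∈ Sys S Q (U ⊔ K s) ⊆ Sys S (polySub D) (U ⊔ K s)` (`sys_mono` of `WL/G5`, `hQ.le`), so `lam ∈ AllSys ℓ S U` (`K' = K s`, `hK.level s`), and `toV_eigen` gives `IsEF`.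
-/

open NumberField IsDedekindDomain
open scoped NumberField

namespace Pool.Agent.Lib.MP_666dc0_nt.ZO

open WL

variable {F : Type} [Field F] [NumberField F] {n : ℕ} {D : Datum F n} {ℓ : ℕ} [Fact ℓ.Prime]
  {ι : ℂ ≃+* PadicAlgCl ℓ} {d : ℕ} {U : Subgroup D.Ad} {K : ℕ → Subgroup D.Ad}
  {S : Finset (HeightOneSpectrum (𝓞 F))}

theorem finrank_VF (H : HatData F ℓ ι) (hU : IsTame ℓ U) (hK : IsTow ℓ U K)
    {Q : Submodule ℂ (D.Cpx → ℂ)} (hQ : IsWeight D Q) {w : ℕ} (gb : GoodBasis H K Q w) (s : ℕ) :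
    Module.finrank ℂ (forms D Q (U ⊔ K s)) = Module.finrank (PadicAlgCl ℓ) (VF U K gb.ρ s) := by
  obtain ⟨e, he, -⟩ := exists_toV H hU hK hQ gb s
  unfold Module.finrank
  rw [rank_eq_of_equiv_equiv (fun a : ℂ => ι a) e ι.bijective he]

/-- the image of a space of forms under the semilinear bijection -/
private def img {M N : Type} [AddCommGroup M] [Module ℂ M] [AddCommGroup N] [Module (PadicAlgCl ℓ) N]
    {A : Submodule ℂ M} {B : Submodule (PadicAlgCl ℓ) N} (e : A ≃+ B)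
    (he : ∀ (a : ℂ) f, e (a • f) = ι a • e f) (X : Submodule ℂ M) : Submodule (PadicAlgCl ℓ) N where
  carrier := {y | ∃ h : y ∈ B, (e.symm ⟨y, h⟩ : A).1 ∈ X}
  add_mem' := by
    rintro a b ⟨ha, ha'⟩ ⟨hb, hb'⟩
    refine ⟨B.add_mem ha hb, ?_⟩
    have h1 : (⟨a + b, B.add_mem ha hb⟩ : B) = ⟨a, ha⟩ + ⟨b, hb⟩ := rfl
    rw [h1, map_add]
    exact X.add_mem ha' hb'
  zero_mem' := by
    refine ⟨B.zero_mem, ?_⟩
    have h1 : (⟨0, B.zero_mem⟩ : B) = 0 := rfl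
    rw [h1, map_zero]
    exact X.zero_mem
  smul_mem' := by
    rintro c a ⟨ha, ha'⟩
    refine ⟨B.smul_mem c ha, ?_⟩
    have h1 : e.symm (⟨c • a, B.smul_mem c ha⟩ : B) = ι.symm c • e.symm ⟨a, ha⟩ := by
      rw [AddEquiv.symm_apply_eq, he, RingEquiv.apply_symm_apply, AddEquiv.apply_symm_apply]
      rfl
    rw [h1]
    exact X.smul_mem _ ha'

private theorem mem_img {M N : Type} [AddCommGroup M] [Module ℂ M] [AddCommGroup N] [Module (PadicAlgCl ℓ) N]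
    {A : Submodule ℂ M} {B : Submodule (PadicAlgCl ℓ) N} (e : A ≃+ B)
    (he : ∀ (a : ℂ) f, e (a • f) = ι a • e f) (X : Submodule ℂ M) (f : A) (hf : f.1 ∈ X) :
    (e f).1 ∈ img e he X := by
  refine ⟨(e f).2, ?_⟩
  have : e.symm ⟨(e f).1, (e f).2⟩ = f := by
    rw [AddEquiv.symm_apply_eq]
  rw [this]
  exact hf

private theorem finrank_img {M N : Type} [AddCommGroup M] [Module ℂ M] [AddCommGroup N]
    [Module (PadicAlgCl ℓ) N]
    {A : Submodule ℂ M} {B : Submodule (PadicAlgCl ℓ) N} (e : A ≃+ B)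
    (he : ∀ (a : ℂ) f, e (a • f) = ι a • e f) (X : Submodule ℂ M) (hX : X ≤ A) :
    Module.finrank (PadicAlgCl ℓ) (img e he X) = Module.finrank ℂ X := by
  let j : X ≃+ img e he X :=
    { toFun := fun x => ⟨(e ⟨x.1, hX x.2⟩).1, mem_img e he X _ x.2⟩
      invFun := fun y => ⟨(e.symm ⟨y.1, y.2.choose⟩ : A).1, y.2.choose_spec⟩
      left_inv := fun x => by
        apply Subtype.ext
        have : e.symm ⟨(e ⟨x.1, hX x.2⟩).1, (e ⟨x.1, hX x.2⟩).2⟩ = ⟨x.1, hX x.2⟩ := by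
          rw [AddEquiv.symm_apply_eq]
        have h := congrArg (fun z : A => z.1) this
        exact h
      right_inv := fun y => by
        apply Subtype.ext
        have : e ⟨(e.symm ⟨y.1, y.2.choose⟩ : A).1, hX y.2.choose_spec⟩ = ⟨y.1, y.2.choose⟩ := by
          rw [← AddEquiv.eq_symm_apply]
        have h := congrArg (fun z : B => z.1) this
        exact h
      map_add' := fun x y => by
        apply Subtype.ext
        change (e ⟨x.1 + y.1, _⟩).1 = (e ⟨x.1, hX x.2⟩).1 + (e ⟨y.1, hX y.2⟩).1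
        have h1 : (⟨x.1 + y.1, A.add_mem (hX x.2) (hX y.2)⟩ : A) = ⟨x.1, hX x.2⟩ + ⟨y.1, hX y.2⟩ := rfl
        rw [h1, map_add]
        rfl }
  unfold Module.finrank
  rw [rank_eq_of_equiv_equiv (fun a : ℂ => ι a) j ι.bijective ?_]
  intro a x
  apply Subtype.ext
  change (e ⟨a • x.1, _⟩).1 = ι a • (e ⟨x.1, hX x.2⟩).1
  have h1 : (⟨a • x.1, A.smul_mem a (hX x.2)⟩ : A) = a • ⟨x.1, hX x.2⟩ := rfl
  rw [h1, he]
  rfl

private theorem img_le {M N : Type} [AddCommGroup M] [Module ℂ M] [AddCommGroup N] [Module (PadicAlgCl ℓ) N]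
    {A : Submodule ℂ M} {B : Submodule (PadicAlgCl ℓ) N} (e : A ≃+ B)
    (he : ∀ (a : ℂ) f, e (a • f) = ι a • e f) (X : Set M) (T : Submodule (PadicAlgCl ℓ) N)
    (hX : ∀ x ∈ X, ∃ h : x ∈ A, (e ⟨x, h⟩).1 ∈ T) : img e he (Submodule.span ℂ X) ≤ T := by
  let P : Submodule ℂ M :=
    { carrier := {x | ∃ h : x ∈ A, (e ⟨x, h⟩).1 ∈ T}
      add_mem' := by
        rintro a b ⟨ha, ha'⟩ ⟨hb, hb'⟩
        refine ⟨A.add_mem ha hb, ?_⟩
        have h1 : (⟨a + b, A.add_mem ha hb⟩ : A) = ⟨a, ha⟩ + ⟨b, hb⟩ := rfl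
        rw [h1, map_add]
        exact T.add_mem ha' hb'
      zero_mem' := by
        refine ⟨A.zero_mem, ?_⟩
        have h1 : (⟨0, A.zero_mem⟩ : A) = 0 := rfl
        rw [h1, map_zero]
        exact T.zero_mem
      smul_mem' := by
        rintro c a ⟨ha, ha'⟩
        refine ⟨A.smul_mem c ha, ?_⟩
        have h1 : (⟨c • a, A.smul_mem c ha⟩ : A) = c • ⟨a, ha⟩ := rfl
        rw [h1, he]
        exact T.smul_mem _ ha' }
  have hP : Submodule.span ℂ X ≤ P := Submodule.span_le.2 fun x hx => hX x hx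
  rintro y ⟨hy, hy'⟩
  obtain ⟨h1, h2⟩ := hP hy'
  have : e ⟨(e.symm ⟨y, hy⟩ : A).1, h1⟩ = ⟨y, hy⟩ := by
    rw [← AddEquiv.eq_symm_apply]
  rwa [this] at h2

private theorem espan_le (S : Finset (HeightOneSpectrum (𝓞 F))) (Q : Submodule ℂ (D.Cpx → ℂ))
    (V : Subgroup D.Ad) (p : (∀ v, Hecke U v → ℂ) → Prop) : espan S Q V p ≤ forms D Q V :=
  Submodule.span_le.2 fun _ hf => hf.1

private theorem img_espan_le (H : HatData F ℓ ι)
    (hSl : ∀ v : HeightOneSpectrum (𝓞 F), (ℓ : 𝓞 F) ∈ v.asIdeal → v ∈ S)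
    (hK : IsTow ℓ U K)
    {Q : Submodule ℂ (D.Cpx → ℂ)} (hQ : IsWeight D Q) {w : ℕ} (gb : GoodBasis H K Q w) (s : ℕ)
    (e : forms D Q (U ⊔ K s) ≃+ VF U K gb.ρ s) (he : ∀ (a : ℂ) f, e (a • f) = ι a • e f)
    (hf : ∀ (f : forms D Q (U ⊔ K s)) (g : D.Ad) (x : D.Cpx),
        ι (f.1 g x) = ∑ j, (e f).1 g j * ι (gb.q j (x * H.hat D g)))
    (p : (∀ v, Hecke U v → ℂ) → Prop) :
    img e he (espan S Q (U ⊔ K s) p) ≤ Submodule.span (PadicAlgCl ℓ) {Φ | Φ ∈ VF U K gb.ρ s ∧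
      ∃ lam ∈ AllSys ℓ S U, p lam ∧ ∀ j, IsEF S U (fun g => Φ g j) (iv ι lam)} := by
  refine img_le e he _ _ ?_
  rintro f ⟨hform, lam, hlam, hp⟩
  refine ⟨hform, ?_⟩
  by_cases h0 : f = 0
  · subst h0
    have h1 : (⟨0, hform⟩ : forms D Q (U ⊔ K s)) = 0 := rfl
    rw [h1, map_zero]
    exact Submodule.zero_mem _
  · refine Submodule.subset_span ⟨(e ⟨f, hform⟩).2, lam, ⟨K s, hK.level s, ?_⟩, hp, fun j => ?_⟩
    · exact sys_mono S hQ.le _ ⟨f, h0, hform, hlam⟩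
    · exact toV_eigen H hSl gb.q gb.indep (hf ⟨f, hform⟩) hlam j

theorem exists_split [IsTotallyReal F] (hD : IsTotPosDef D.q) (H : HatData F ℓ ι)
    (hSl : ∀ v : HeightOneSpectrum (𝓞 F), (ℓ : 𝓞 F) ∈ v.asIdeal → v ∈ S) (hU : IsTame ℓ U)
    (hUS : ∀ v, v ∉ S → IsGoodAt U v) (hK : IsTow ℓ U K)
    {Q : Submodule ℂ (D.Cpx → ℂ)} (hQ : IsWeight D Q) {w : ℕ} (gb : GoodBasis H K Q w) (s : ℕ)
    (p : (∀ v, Hecke U v → ℂ) → Prop) :
    ∃ W W' : Submodule (PadicAlgCl ℓ) (D.Ad → Fin w → PadicAlgCl ℓ), W ⊔ W' = VF U K gb.ρ s ∧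
      Module.finrank (PadicAlgCl ℓ) W = Module.finrank ℂ (espan S Q (U ⊔ K s) p) ∧
      Module.finrank (PadicAlgCl ℓ) W' = Module.finrank ℂ (espan S Q (U ⊔ K s) fun lam => ¬p lam) ∧
      W ≤ Submodule.span (PadicAlgCl ℓ) {Φ | Φ ∈ VF U K gb.ρ s ∧ ∃ lam ∈ AllSys ℓ S U, p lam ∧
        ∀ j, IsEF S U (fun g => Φ g j) (iv ι lam)} ∧
      W' ≤ Submodule.span (PadicAlgCl ℓ) {Φ | Φ ∈ VF U K gb.ρ s ∧ ∃ lam ∈ AllSys ℓ S U, ¬p lam ∧
        ∀ j, IsEF S U (fun g => Φ g j) (iv ι lam)} := by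
  obtain ⟨e, he, hf⟩ := exists_toV H hU hK hQ gb s
  refine ⟨img e he (espan S Q (U ⊔ K s) p), img e he (espan S Q (U ⊔ K s) fun lam => ¬p lam), ?_,
    finrank_img e he _ (espan_le S Q _ _), finrank_img e he _ (espan_le S Q _ _),
    img_espan_le H hSl hK hQ gb s e he hf p,
    img_espan_le H hSl hK hQ gb s e he hf fun lam => ¬p lam⟩
  refine le_antisymm (sup_le (fun y hy => hy.1) fun y hy => hy.1) fun Φ hΦ => ?_
  have key : ∀ l : List (D.Ad → D.Cpx → ℂ), (∀ m ∈ l, m ≠ 0 ∧ IsForm D Q (U ⊔ K s) m ∧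
      ∃ lam : ∀ v, Hecke U v → ℂ, IsEigen S m lam) →
      ∃ a ∈ espan (U := U) S Q (U ⊔ K s) p, ∃ b ∈ espan (U := U) S Q (U ⊔ K s) fun lam => ¬p lam,
        l.sum = a + b := by
    intro l
    induction l with
    | nil => exact fun _ => ⟨0, Submodule.zero_mem _, 0, Submodule.zero_mem _, by simp⟩
    | cons m l ih =>
      intro hl
      obtain ⟨a, ha, b, hb, hab⟩ := ih fun m hm => hl m (List.mem_cons_of_mem _ hm)
      obtain ⟨-, hm, lam, hlam⟩ := hl m List.mem_cons_self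
      by_cases hp : p lam
      · refine ⟨m + a, Submodule.add_mem _ (Submodule.subset_span ⟨hm, lam, hlam, hp⟩) ha, b, hb, ?_⟩
        rw [List.sum_cons, hab, add_assoc]
      · refine ⟨a, ha, m + b, Submodule.add_mem _ (Submodule.subset_span ⟨hm, lam, hlam, hp⟩) hb, ?_⟩
        rw [List.sum_cons, hab]
        abel
  have hgood := good_of_isLevel ℓ hSl hU hUS (hK.level s)
  obtain ⟨l, hl, hl'⟩ := exists_decomposition hD hgood hQ.le hQ.trans (e.symm ⟨Φ, hΦ⟩).2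
  obtain ⟨a, ha, b, hb, hab⟩ := key l hl'
  have ha' := espan_le S Q _ _ ha
  have hb' := espan_le S Q _ _ hb
  have h1 : e.symm ⟨Φ, hΦ⟩ = ⟨a, ha'⟩ + ⟨b, hb'⟩ := Subtype.ext (hl.trans hab)
  have h2 : (⟨Φ, hΦ⟩ : VF U K gb.ρ s) = e ⟨a, ha'⟩ + e ⟨b, hb'⟩ := by
    rw [← map_add, ← h1, AddEquiv.apply_symm_apply]
  have h3 : Φ = (e ⟨a, ha'⟩).1 + (e ⟨b, hb'⟩).1 := congrArg Subtype.val h2
  rw [h3]
  exact Submodule.add_mem_sup (mem_img e he _ _ ha) (mem_img e he _ _ hb)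

end Pool.Agent.Lib.MP_666dc0_nt.ZO
end

section

/-!
# FM, D4a: eigenforms and vector valued eigenfunctions

`EV p` = the span of the `Φ ∈ VF U K ρ s` which are eigenfunctions with a system `lam ∈ AllSys` with `p lam`.

D4a (`isEigen_of_isEF`): `f` a form, `Φ` its vector valued function (the formula of `exists_toV`), `lam ∈ AllSys` and all
`Φ_j` eigenfunctions with the values `iv ι lam` ⇒ `IsEigen S f lam`: `isEigen_of_ix` of `D3a` and the comparison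
`ι ((h.act f) g x) = ∑_j (h.actK Φ_j) g * ι (q_j (x * hat g))` as in the proof of `toV_eigen` (ZO/Q3a), read backwards.
D4b (`finrank_EV`): `EV p = img (espan S Q (U ⊔ K s) p)` with `img` of ZO/Q3b (private, copied).
-/

open NumberField IsDedekindDomain
open scoped NumberField

namespace Pool.Agent.Lib.MP_666dc0_nt.FM

open WL ZO

variable {F : Type} [Field F] [NumberField F] {n : ℕ} {D : Datum F n} {ℓ : ℕ} [Fact ℓ.Prime]
  {ι : ℂ ≃+* PadicAlgCl ℓ} {S : Finset (HeightOneSpectrum (𝓞 F))} {U : Subgroup D.Ad} {K : ℕ → Subgroup D.Ad}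

/-- The span of the eigenfunctions whose system has the property `p`. -/
noncomputable def EV (S : Finset (HeightOneSpectrum (𝓞 F))) (ι : ℂ ≃+* PadicAlgCl ℓ) (U : Subgroup D.Ad)
    (K : ℕ → Subgroup D.Ad) {w : ℕ} (ρ : K 0 →* Matrix (Fin w) (Fin w) (PadicAlgCl ℓ)) (s : ℕ)
    (p : (∀ v, Hecke U v → ℂ) → Prop) : Submodule (PadicAlgCl ℓ) (D.Ad → Fin w → PadicAlgCl ℓ) :=
  Submodule.span (PadicAlgCl ℓ) {Φ | Φ ∈ VF U K ρ s ∧ ∃ lam ∈ AllSys ℓ S U, p lam ∧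
    ∀ j, IsEF S U (fun g => Φ g j) (iv ι lam)}

theorem isEigen_of_isEF (H : HatData F ℓ ι)
    (hSl : ∀ v : HeightOneSpectrum (𝓞 F), (ℓ : 𝓞 F) ∈ v.asIdeal → v ∈ S)
    {w : ℕ} (q : Fin w → D.Cpx → ℂ) {f : D.Ad → D.Cpx → ℂ} {Φ : D.Ad → Fin w → PadicAlgCl ℓ}
    (h : ∀ (g : D.Ad) (x : D.Cpx), ι (f g x) = ∑ j, Φ g j * ι (q j (x * H.hat D g)))
    {lam : ∀ v, Hecke U v → ℂ} (hlam : lam ∈ AllSys ℓ S U)
    (hΦ : ∀ j, IsEF S U (fun g => Φ g j) (iv ι lam)) : IsEigen S f lam := by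
  refine isEigen_of_ix hlam ?_
  rintro ⟨⟨v, T⟩, hv, hT⟩
  have hv' : v ∉ S := hv
  change T.act f = lam v T • f
  funext g x
  have hhat : ∀ c : locSub D v, H.hat D (g * (c : D.Ad)) = H.hat D g := fun c => by
    rw [map_mul, hat_eq_one H (g := (c : D.Ad)), mul_one]
    intro v' hv''
    exact c.2 v' fun e => hv' (hSl v (e ▸ hv''))
  have h2 : ι ((T.act f) g x) = ∑ j, T.actK (fun g => Φ g j) g * ι (q j (x * H.hat D g)) := by
    unfold Hecke.act Hecke.actK Finsupp.sum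
    rw [Finset.sum_apply, map_sum]
    simp only [Finset.sum_mul]
    rw [Finset.sum_comm]
    refine Finset.sum_congr rfl fun c _ => ?_
    rw [Pi.smul_apply, smul_eq_mul, map_mul, h, map_ratCast, Finset.mul_sum]
    refine Finset.sum_congr rfl fun j _ => ?_
    rw [hhat, mul_assoc]
  apply ι.injective
  rw [h2, Pi.smul_apply, Pi.smul_apply, smul_eq_mul, map_mul, h g x, Finset.mul_sum]
  refine Finset.sum_congr rfl fun j _ => ?_
  have h3 : T.actK (fun g => Φ g j) = fun g => iv ι lam ⟨⟨v, T⟩, hv, hT⟩ * Φ g j := hΦ j ⟨⟨v, T⟩, hv, hT⟩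
  rw [h3, ← mul_assoc]
  rfl

/-- the image of a space of forms under the semilinear bijection -/
private def D4_img {M N : Type} [AddCommGroup M] [Module ℂ M] [AddCommGroup N] [Module (PadicAlgCl ℓ) N]
    {A : Submodule ℂ M} {B : Submodule (PadicAlgCl ℓ) N} (e : A ≃+ B)
    (he : ∀ (a : ℂ) f, e (a • f) = ι a • e f) (X : Submodule ℂ M) : Submodule (PadicAlgCl ℓ) N where
  carrier := {y | ∃ h : y ∈ B, (e.symm ⟨y, h⟩ : A).1 ∈ X}
  add_mem' := by
    rintro a b ⟨ha, ha'⟩ ⟨hb, hb'⟩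
    refine ⟨B.add_mem ha hb, ?_⟩
    have h1 : (⟨a + b, B.add_mem ha hb⟩ : B) = ⟨a, ha⟩ + ⟨b, hb⟩ := rfl
    rw [h1, map_add]
    exact X.add_mem ha' hb'
  zero_mem' := by
    refine ⟨B.zero_mem, ?_⟩
    have h1 : (⟨0, B.zero_mem⟩ : B) = 0 := rfl
    rw [h1, map_zero]
    exact X.zero_mem
  smul_mem' := by
    rintro c a ⟨ha, ha'⟩
    refine ⟨B.smul_mem c ha, ?_⟩
    have h1 : e.symm (⟨c • a, B.smul_mem c ha⟩ : B) = ι.symm c • e.symm ⟨a, ha⟩ := by
      rw [AddEquiv.symm_apply_eq, he, RingEquiv.apply_symm_apply, AddEquiv.apply_symm_apply]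
      rfl
    rw [h1]
    exact X.smul_mem _ ha'

private theorem D4_mem_img {M N : Type} [AddCommGroup M] [Module ℂ M] [AddCommGroup N] [Module (PadicAlgCl ℓ) N]
    {A : Submodule ℂ M} {B : Submodule (PadicAlgCl ℓ) N} (e : A ≃+ B)
    (he : ∀ (a : ℂ) f, e (a • f) = ι a • e f) (X : Submodule ℂ M) (f : A) (hf : f.1 ∈ X) :
    (e f).1 ∈ D4_img e he X := by
  refine ⟨(e f).2, ?_⟩
  have : e.symm ⟨(e f).1, (e f).2⟩ = f := by
    rw [AddEquiv.symm_apply_eq]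
  rw [this]
  exact hf

private theorem D4_finrank_img {M N : Type} [AddCommGroup M] [Module ℂ M] [AddCommGroup N]
    [Module (PadicAlgCl ℓ) N]
    {A : Submodule ℂ M} {B : Submodule (PadicAlgCl ℓ) N} (e : A ≃+ B)
    (he : ∀ (a : ℂ) f, e (a • f) = ι a • e f) (X : Submodule ℂ M) (hX : X ≤ A) :
    Module.finrank (PadicAlgCl ℓ) (D4_img e he X) = Module.finrank ℂ X := by
  let j : X ≃+ D4_img e he X :=
    { toFun := fun x => ⟨(e ⟨x.1, hX x.2⟩).1, D4_mem_img e he X _ x.2⟩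
      invFun := fun y => ⟨(e.symm ⟨y.1, y.2.choose⟩ : A).1, y.2.choose_spec⟩
      left_inv := fun x => by
        apply Subtype.ext
        have : e.symm ⟨(e ⟨x.1, hX x.2⟩).1, (e ⟨x.1, hX x.2⟩).2⟩ = ⟨x.1, hX x.2⟩ := by
          rw [AddEquiv.symm_apply_eq]
        have h := congrArg (fun z : A => z.1) this
        exact h
      right_inv := fun y => by
        apply Subtype.ext
        have : e ⟨(e.symm ⟨y.1, y.2.choose⟩ : A).1, hX y.2.choose_spec⟩ = ⟨y.1, y.2.choose⟩ := by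
          rw [← AddEquiv.eq_symm_apply]
        have h := congrArg (fun z : B => z.1) this
        exact h
      map_add' := fun x y => by
        apply Subtype.ext
        change (e ⟨x.1 + y.1, _⟩).1 = (e ⟨x.1, hX x.2⟩).1 + (e ⟨y.1, hX y.2⟩).1
        have h1 : (⟨x.1 + y.1, A.add_mem (hX x.2) (hX y.2)⟩ : A) = ⟨x.1, hX x.2⟩ + ⟨y.1, hX y.2⟩ := rfl
        rw [h1, map_add]
        rfl }
  unfold Module.finrank
  rw [rank_eq_of_equiv_equiv (fun a : ℂ => ι a) j ι.bijective ?_]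
  intro a x
  apply Subtype.ext
  change (e ⟨a • x.1, _⟩).1 = ι a • (e ⟨x.1, hX x.2⟩).1
  have h1 : (⟨a • x.1, A.smul_mem a (hX x.2)⟩ : A) = a • ⟨x.1, hX x.2⟩ := rfl
  rw [h1, he]
  rfl

private theorem D4_img_le {M N : Type} [AddCommGroup M] [Module ℂ M] [AddCommGroup N] [Module (PadicAlgCl ℓ) N]
    {A : Submodule ℂ M} {B : Submodule (PadicAlgCl ℓ) N} (e : A ≃+ B)
    (he : ∀ (a : ℂ) f, e (a • f) = ι a • e f) (X : Set M) (T : Submodule (PadicAlgCl ℓ) N)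
    (hX : ∀ x ∈ X, ∃ h : x ∈ A, (e ⟨x, h⟩).1 ∈ T) : D4_img e he (Submodule.span ℂ X) ≤ T := by
  let P : Submodule ℂ M :=
    { carrier := {x | ∃ h : x ∈ A, (e ⟨x, h⟩).1 ∈ T}
      add_mem' := by
        rintro a b ⟨ha, ha'⟩ ⟨hb, hb'⟩
        refine ⟨A.add_mem ha hb, ?_⟩
        have h1 : (⟨a + b, A.add_mem ha hb⟩ : A) = ⟨a, ha⟩ + ⟨b, hb⟩ := rfl
        rw [h1, map_add]
        exact T.add_mem ha' hb'
      zero_mem' := by
        refine ⟨A.zero_mem, ?_⟩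
        have h1 : (⟨0, A.zero_mem⟩ : A) = 0 := rfl
        rw [h1, map_zero]
        exact T.zero_mem
      smul_mem' := by
        rintro c a ⟨ha, ha'⟩
        refine ⟨A.smul_mem c ha, ?_⟩
        have h1 : (⟨c • a, A.smul_mem c ha⟩ : A) = c • ⟨a, ha⟩ := rfl
        rw [h1, he]
        exact T.smul_mem _ ha' }
  have hP : Submodule.span ℂ X ≤ P := Submodule.span_le.2 fun x hx => hX x hx
  rintro y ⟨hy, hy'⟩
  obtain ⟨h1, h2⟩ := hP hy'
  have : e ⟨(e.symm ⟨y, hy⟩ : A).1, h1⟩ = ⟨y, hy⟩ := by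
    rw [← AddEquiv.eq_symm_apply]
  rwa [this] at h2

private theorem D4_espan_le (S : Finset (HeightOneSpectrum (𝓞 F))) (Q : Submodule ℂ (D.Cpx → ℂ))
    (V : Subgroup D.Ad) (p : (∀ v, Hecke U v → ℂ) → Prop) : espan S Q V p ≤ forms D Q V :=
  Submodule.span_le.2 fun _ hf => hf.1

private theorem D4_img_espan_le (H : HatData F ℓ ι)
    (hSl : ∀ v : HeightOneSpectrum (𝓞 F), (ℓ : 𝓞 F) ∈ v.asIdeal → v ∈ S)
    (hK : IsTow ℓ U K)
    {Q : Submodule ℂ (D.Cpx → ℂ)} (hQ : IsWeight D Q) {w : ℕ} (gb : GoodBasis H K Q w) (s : ℕ)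
    (e : forms D Q (U ⊔ K s) ≃+ VF U K gb.ρ s) (he : ∀ (a : ℂ) f, e (a • f) = ι a • e f)
    (hf : ∀ (f : forms D Q (U ⊔ K s)) (g : D.Ad) (x : D.Cpx),
        ι (f.1 g x) = ∑ j, (e f).1 g j * ι (gb.q j (x * H.hat D g)))
    (p : (∀ v, Hecke U v → ℂ) → Prop) :
    D4_img e he (espan S Q (U ⊔ K s) p) ≤ EV S ι U K gb.ρ s p := by
  refine D4_img_le e he _ _ ?_
  rintro f ⟨hform, lam, hlam, hp⟩
  refine ⟨hform, ?_⟩
  by_cases h0 : f = 0
  · subst h0
    have h1 : (⟨0, hform⟩ : forms D Q (U ⊔ K s)) = 0 := rfl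
    rw [h1, map_zero]
    exact Submodule.zero_mem _
  · refine Submodule.subset_span ⟨(e ⟨f, hform⟩).2, lam, ⟨K s, hK.level s, ?_⟩, hp, fun j => ?_⟩
    · exact sys_mono S hQ.le _ ⟨f, h0, hform, hlam⟩
    · exact toV_eigen H hSl gb.q gb.indep (hf ⟨f, hform⟩) hlam j

theorem finrank_EV (H : HatData F ℓ ι)
    (hSl : ∀ v : HeightOneSpectrum (𝓞 F), (ℓ : 𝓞 F) ∈ v.asIdeal → v ∈ S) (hU : IsTame ℓ U) (hK : IsTow ℓ U K)
    {Q : Submodule ℂ (D.Cpx → ℂ)} (hQ : IsWeight D Q) {w : ℕ} (gb : GoodBasis H K Q w) (s : ℕ)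
    (p : (∀ v, Hecke U v → ℂ) → Prop) :
    Module.finrank (PadicAlgCl ℓ) (EV S ι U K gb.ρ s p) = Module.finrank ℂ (espan S Q (U ⊔ K s) p) := by
  obtain ⟨e, he, hf⟩ := exists_toV H hU hK hQ gb s
  have h1 : EV S ι U K gb.ρ s p = D4_img e he (espan S Q (U ⊔ K s) p) := by
    refine le_antisymm ?_ (D4_img_espan_le H hSl hK hQ gb s e he hf p)
    refine Submodule.span_le.2 ?_
    rintro Φ ⟨hΦ, lam, hlam, hp, hE⟩
    refine ⟨hΦ, ?_⟩
    refine Submodule.subset_span ⟨(e.symm ⟨Φ, hΦ⟩).2, lam, ?_, hp⟩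
    refine isEigen_of_isEF H hSl gb.q (Φ := Φ) (fun g x => ?_) hlam hE
    have h2 := hf (e.symm ⟨Φ, hΦ⟩) g x
    rw [AddEquiv.apply_symm_apply] at h2
    exact h2
  rw [h1]
  exact D4_finrank_img e he _ (D4_espan_le S Q _ _)

end Pool.Agent.Lib.MP_666dc0_nt.FM
end

section

/-!
TASK W0. Systems of eigenvalues of arbitrary weight and level.

* `exists_level_le`: `U ⊔ K'` is open, so `K s ≤ U ⊔ K'` for some `s` (`hK.small`). An element `g ∈ K s` is `u k` with `u ∈ U`, `k ∈ K'` (`mem_sup_iff` of `WL/C5a`), and `g`, `k` are trivial outside `ℓ` (`(hK.level s).supp`, `hK'.supp`), so `u = g k⁻¹` is trivial everywhere (`hU` at the places above `ℓ`), `u = 1`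
  (`eq_one_of_trivialAt`), `g = k ∈ K'`.
* `exists_weight`: `Q = polyLE D N` for large `N`. There are finitely many representatives `c` with `g = D.toAd γ * c * v`, `v ∈ V` (`exists_finite_reps` of `WL/A5`), so `f g x = f c (x * D.toCpx γ)`, and all `f c` are in `polyLE D N` for some `N` (the library proves this: `exists_degree`, see `WL/N5`, `WL/C0`); right translations preserve `polyLE`.
  `IsWeight`: finite-dimensional (`finiteDimensional_polyLE`), `≤ polySub D` (`polyLE_le_polyFun`), stable under right translations (the coordinate functions of `x * y` are combinations of coordinate functions of `x`; `Submodule.pow_induction_on..`; the library has lemmas on `polyLE` and translations in `WL/C0`).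
* `exists_form_of_mem`: `lam ∈ AllSys`: a form `f ≠ 0` of level `U ⊔ K'`, `K s ≤ K'`, so `f` is of level `U ⊔ K s` (`IsForm.right` for a smaller group).
* `espan_mono`: for a generator `f` of `espan p`: if `f = 0` it is in every submodule; otherwise `lam ∈ AllSys ℓ S U` (`sys_mono` of `WL/G5`, `hQ.le`, `hK.level s`), so `q lam`.
* `finiteDimensional_espan`: `espan ≤ forms D Q V`, which is finite-dimensional (`finiteDimensional_forms` of `WL/C0`).
-/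

open NumberField IsDedekindDomain
open scoped NumberField

namespace Pool.Agent.Lib.MP_666dc0_nt.ZO

open WL

variable {F : Type} [Field F] [NumberField F] {n : ℕ} {D : Datum F n} {ℓ : ℕ} {d : ℕ}
  {S : Finset (HeightOneSpectrum (𝓞 F))} {U : Subgroup D.Ad} {K : ℕ → Subgroup D.Ad}

theorem exists_level_le (hU : IsTame ℓ U) (hK : IsTow ℓ U K) {K' : Subgroup D.Ad} (hK' : IsLevel ℓ U K') :
    ∃ s, K s ≤ K' := by
  obtain ⟨s, hs⟩ := hK.small (U ⊔ K') hK'.isOpen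
  refine ⟨s, fun g hg => ?_⟩
  obtain ⟨u, hu, k, hk, hguk⟩ := (mem_sup_iff hU hK'.supp).1 (hs hg)
  have hu1 : u = 1 := by
    refine eq_one_of_trivialAt fun v => ?_
    by_cases hv : (ℓ : 𝓞 F) ∈ v.asIdeal
    · exact hU u hu v hv
    · have h1 : TrivialAt v g := (hK.level s).supp g hg v hv
      have h2 : TrivialAt v k := hK'.supp k hk v hv
      have h3 : u = g * k⁻¹ := by rw [hguk, mul_inv_cancel_right]
      rw [h3]
      exact h1.mul h2.inv
  rw [hguk, hu1, one_mul]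
  exact hk

theorem exists_weight [IsTotallyReal F] (hD : IsTotPosDef D.q) {V : Subgroup D.Ad} (hV : IsOpen (V : Set D.Ad))
    {f : D.Ad → D.Cpx → ℂ} (hf : IsForm D (polySub D) V f) : ∃ Q, IsWeight D Q ∧ IsForm D Q V f := by
  obtain ⟨d, hd⟩ := exists_degree hD le_rfl hV hf
  refine ⟨polyLE D d, ⟨Module.Finite.iff_fg.1 (finiteDimensional_polyLE d), fun p hp =>
      ⟨polyLE_le_polyFun d hp, fun y => polyLE_trans hp y⟩⟩,
    fun g => (Submodule.mem_inf.1 (hd.mem g)).2, hd.left, hd.right⟩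

theorem exists_form_of_mem [IsTotallyReal F] (hD : IsTotPosDef D.q) (hU : IsTame ℓ U) (hK : IsTow ℓ U K)
    {lam : ∀ v, Hecke U v → ℂ} (hlam : lam ∈ AllSys ℓ S U) :
    ∃ (Q : Submodule ℂ (D.Cpx → ℂ)) (s : ℕ) (f : D.Ad → D.Cpx → ℂ), IsWeight D Q ∧ f ≠ 0 ∧
      IsForm D Q (U ⊔ K s) f ∧ IsEigen S f lam := by
  obtain ⟨K', hK', f, hf0, hf, he⟩ := hlam
  obtain ⟨s, hs⟩ := exists_level_le hU hK hK'
  obtain ⟨Q, hQ, hQf⟩ := exists_weight hD hK'.isOpen hf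
  exact ⟨Q, s, f, hQ, hf0, ⟨hQf.mem, hQf.left, fun g k hk => hQf.right g k (sup_le_sup_left hs U hk)⟩, he⟩

theorem espan_mono {J : Subgroup D.Ad} (hJ : IsLevel ℓ U J) {Q : Submodule ℂ (D.Cpx → ℂ)} (hQ : IsWeight D Q)
    {p q : (∀ v, Hecke U v → ℂ) → Prop} (h : ∀ lam ∈ AllSys ℓ S U, p lam → q lam) :
    espan S Q (U ⊔ J) p ≤ espan S Q (U ⊔ J) q := by
  refine Submodule.span_le.2 ?_
  rintro f ⟨hf, lam, he, hp⟩
  by_cases hf0 : f = 0
  · rw [hf0]
    exact Submodule.zero_mem _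
  · exact Submodule.subset_span ⟨hf, lam, he, h lam ⟨J, hJ, f, hf0, hf.mono hQ.le, he⟩ hp⟩

theorem finiteDimensional_espan [IsTotallyReal F] (hD : IsTotPosDef D.q) {V : Subgroup D.Ad}
    (hV : IsOpen (V : Set D.Ad)) {Q : Submodule ℂ (D.Cpx → ℂ)} (hQ : IsWeight D Q)
    (p : (∀ v, Hecke U v → ℂ) → Prop) : FiniteDimensional ℂ (espan S Q V p) := by
  have h1 : FiniteDimensional ℂ Q := hQ.fin
  have h2 : FiniteDimensional ℂ (forms D Q V) := finiteDimensional_forms hD Q V hV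
  have h3 : espan S Q V p ≤ forms D Q V := by
    refine Submodule.span_le.2 ?_
    rintro f ⟨hf, -⟩
    exact hf
  exact Submodule.finiteDimensional_of_le h3

end Pool.Agent.Lib.MP_666dc0_nt.ZO
end

section

/-!
TASK G1. The matrix of a good operator in a chart.

The value of `c.dlt ℓ s p` at `g` is `1` if `(cls g, mk (kap g)) = p` and `0` otherwise. `k ∈ K 0` is trivial outside `ℓ` (`(hK.level 0).supp`), that is `AtEll ℓ k`.
* `isLC_dlt`: `Chart.isLC_pull`. `isUC_of_isLC`: clear (`K s' ≤ K s`; take the same `s`). 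
* `isLC_T_dlt`: more generally (`isLC_T`) if `φ : Nice ℓ U` satisfies `IsLC U K s φ.1` then `IsLC U K s (T φ).1`: left invariance: `hT.eqv.left (D.toAd γ) φ φ`; `right`: `(T φ).2.right`; `inv`: `hT.eqv.right k (AtEll) φ φ`.
* `norm_mT_le`: `hT.norm` with `C = 1`.
* `mT_mul`: let `k ∈ K 0` with `mk k = y`. `dlt (r, x * y) (g * k) = dlt (r, x) g` (`cls_right`, `kap_mul`, `mk (kap g * k) = mk (kap g) * y`), so by `hT.eqv.right`: `(T dlt (r, x)) g = (T dlt (r, x * y)) (g * k)`. Take `g = bp (r', x')`; `g * k` has the coordinates `(r', x' * y)` (`cls_bp`, `kap_bp`), so by `isLC_T_dlt` and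
  `Chart.lc_eq` the value of `T dlt (r, x * y)` there is the value at `bp (r', x' * y)`.
* `sum_mT`: `∑ x, dlt (r, x) = dlt0 r` (pointwise), so `∑ x, mT (r', x') (r, x) = (T dlt0 r) (bp (r', x'))`, and `T dlt0 r` is right invariant under `K 0` (as above), `bp (r', x') = pt r' * k`.
* `T_eq_sum`: for `φ` with `IsLC U K s φ.1`: `φ = ∑ p, φ.1 (bp s p) • dlt p` (`Chart.lc_eq`), apply `T` and evaluate.
-/

open NumberField IsDedekindDomain
open scoped NumberField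

namespace Pool.Agent.Lib.MP_666dc0_nt.ZO

open WL

variable {F : Type} [Field F] [NumberField F] {n : ℕ} {D : Datum F n} {ℓ : ℕ} [Fact ℓ.Prime] {d : ℕ}
  {S : Finset (HeightOneSpectrum (𝓞 F))} {U : Subgroup D.Ad} {K : ℕ → Subgroup D.Ad}
  {T : Nice ℓ U →ₗ[PadicAlgCl ℓ] Nice ℓ U}

open Classical in
private theorem dlt_apply (c : Chart U K) (s : ℕ) (p : c.R × PP K s) (g : D.Ad) :
    (c.dlt ℓ s p).1 g = if (c.cls g, (QuotientGroup.mk (c.kap g) : PP K s)) = p then 1 else 0 := rfl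

open Classical in
private theorem dlt0_apply (c : Chart U K) (r : c.R) (g : D.Ad) :
    (c.dlt0 ℓ r).1 g = if c.cls g = r then 1 else 0 := rfl

theorem isLC_dlt (c : Chart U K) (hK : IsTow ℓ U K) (s : ℕ) (p : c.R × PP K s) :
    IsLC U K s (c.dlt ℓ s p).1 := by
  classical
  have h := c.isLC_pull s (hK.K_le (Nat.zero_le s)) (fun p' => if p' = p then (1 : PadicAlgCl ℓ) else 0)
  have e : (c.dlt ℓ s p).1 = c.pull s (fun p' => if p' = p then (1 : PadicAlgCl ℓ) else 0) := by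
    funext g
    rw [dlt_apply]
    exact if_congr Iff.rfl rfl rfl
  rw [e]
  exact h

private theorem isLC_dlt0 (c : Chart U K) (r : c.R) : IsLC U K 0 (c.dlt0 ℓ r).1 := by
  refine ⟨⟨fun γ g => ?_, fun g u hu => ?_⟩, fun g k hk => ?_⟩
  · rw [dlt0_apply, dlt0_apply, c.cls_left]
  · rw [dlt0_apply, dlt0_apply, c.cls_right g u (Subgroup.mem_sup_left hu)]
  · rw [dlt0_apply, dlt0_apply, c.cls_right g k (Subgroup.mem_sup_right hk)]

theorem isUC_of_isLC {s : ℕ} {φ : D.Ad → PadicAlgCl ℓ} (h : IsLC U K s φ) : IsUC U K φ :=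
  ⟨h.tf, fun ε hε => ⟨s, fun k hk g => by rw [h.inv g k hk, sub_self, norm_zero]; exact hε.le⟩⟩

theorem isLC_T (hT : IsGoodOp K S T) (hK : IsTow ℓ U K) {s : ℕ} {φ : Nice ℓ U} (hφ : IsLC U K s φ.1) :
    IsLC U K s (T φ).1 := by
  refine ⟨⟨fun γ g => ?_, (T φ).2.right⟩, fun g k hk => ?_⟩
  · exact (hT.eqv.left (D.toAd γ) φ φ (fun g => (hφ.tf.left γ g).symm) g).symm
  · exact (hT.eqv.right k ((hK.level s).supp k hk) φ φ (fun g => (hφ.inv g k hk).symm) g).symm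

theorem norm_mT_le (c : Chart U K) (hT : IsGoodOp K S T) (hK : IsTow ℓ U K) (s : ℕ)
    (p' p : c.R × PP K s) : ‖mT c T s p' p‖ ≤ 1 := by
  refine hT.norm (c.dlt ℓ s p) 1 (isUC_of_isLC (isLC_dlt c hK s p)) (fun g => ?_) _
  rw [dlt_apply]
  split_ifs
  · rw [norm_one]
  · rw [norm_zero]
    exact zero_le_one

theorem norm_mT0_le (c : Chart U K) (hT : IsGoodOp K S T) (hK : IsTow ℓ U K) (r' r : c.R) :
    ‖mT0 c T r' r‖ ≤ 1 := by
  refine hT.norm (c.dlt0 ℓ r) 1 (isUC_of_isLC (isLC_dlt0 c r)) (fun g => ?_) _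
  rw [dlt0_apply]
  split_ifs
  · rw [norm_one]
  · rw [norm_zero]
    exact zero_le_one

theorem mT_mul [hn : ∀ s, ((K s).subgroupOf (K 0)).Normal] (c : Chart U K) (hT : IsGoodOp K S T)
    (hU : IsTame ℓ U) (hK : IsTow ℓ U K) (s : ℕ) (r' r : c.R) (x' x y : PP K s) :
    mT c T s (r', x' * y) (r, x * y) = mT c T s (r', x') (r, x) := by
  obtain ⟨k, rfl⟩ := QuotientGroup.mk_surjective y
  have hcls : ∀ g : D.Ad, c.cls (g * (k : D.Ad)) = c.cls g := fun g =>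
    c.cls_right g k (Subgroup.mem_sup_right k.2)
  have hkap : ∀ g : D.Ad, (QuotientGroup.mk (c.kap (g * (k : D.Ad))) : PP K s) =
      QuotientGroup.mk (c.kap g) * QuotientGroup.mk k := fun g => by
    rw [c.kap_mul]
    rfl
  have h1 : ∀ g, (c.dlt ℓ s (r, x)).1 g = (c.dlt ℓ s (r, x * QuotientGroup.mk k)).1 (g * (k : D.Ad)) := by
    intro g
    rw [dlt_apply, dlt_apply, hcls, hkap]
    have e : ((c.cls g, (QuotientGroup.mk (c.kap g) : PP K s)) = (r, x)) =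
        ((c.cls g, (QuotientGroup.mk (c.kap g) : PP K s) * QuotientGroup.mk k) = (r, x * QuotientGroup.mk k)) := by
      rw [Prod.mk.injEq, Prod.mk.injEq, mul_left_inj]
    by_cases h : (c.cls g, (QuotientGroup.mk (c.kap g) : PP K s)) = (r, x)
    · rw [if_pos h, if_pos (e ▸ h)]
    · rw [if_neg h, if_neg (e ▸ h)]
  have h2 := hT.eqv.right k ((hK.level 0).supp k k.2) _ _ h1 (c.bp s (r', x'))
  unfold mT
  rw [h2]
  have h3 := isLC_T hT hK (isLC_dlt (ℓ := ℓ) c hK s (r, x * QuotientGroup.mk k))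
  rw [c.lc_eq hU (hK.level 0).supp h3 (c.bp s (r', x') * (k : D.Ad)), hcls, hkap, c.cls_bp, c.kap_bp]

theorem sum_mT (c : Chart U K) (hT : IsGoodOp K S T) (hU : IsTame ℓ U) (hK : IsTow ℓ U K) (s : ℕ)
    [Fintype (PP K s)] (r' r : c.R) (x' : PP K s) : ∑ x, mT c T s (r', x') (r, x) = mT0 c T r' r := by
  classical
  have h1 : ∑ x, c.dlt ℓ s (r, x) = c.dlt0 ℓ r := by
    apply Subtype.ext
    funext g
    rw [Submodule.coe_sum, Finset.sum_apply, dlt0_apply]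
    simp only [dlt_apply, Prod.mk.injEq]
    by_cases h : c.cls g = r
    · simp [h]
    · simp [h]
  have h2 : ∑ x, mT c T s (r', x') (r, x) = (T (∑ x, c.dlt ℓ s (r, x))).1 (c.bp s (r', x')) := by
    rw [map_sum, Submodule.coe_sum, Finset.sum_apply]
    rfl
  rw [h2, h1]
  exact (isLC_T hT hK (isLC_dlt0 c r)).inv _ _ (Quotient.out x' : K 0).2

theorem T_eq_sum (c : Chart U K) (hU : IsTame ℓ U) (hK : IsTow ℓ U K) {s : ℕ} [Fintype (PP K s)]
    {φ : Nice ℓ U} (hφ : IsLC U K s φ.1) (g : D.Ad) :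
    (T φ).1 g = ∑ p : c.R × PP K s, φ.1 (c.bp s p) * (T (c.dlt ℓ s p)).1 g := by
  classical
  have h1 : φ = ∑ p : c.R × PP K s, φ.1 (c.bp s p) • c.dlt ℓ s p := by
    apply Subtype.ext
    funext g
    rw [Submodule.coe_sum, Finset.sum_apply]
    simp only [Submodule.coe_smul, Pi.smul_apply, dlt_apply, smul_eq_mul, mul_ite, mul_one, mul_zero]
    rw [Finset.sum_ite_eq, if_pos (Finset.mem_univ _)]
    exact c.lc_eq hU (hK.level 0).supp hφ g
  conv_lhs => rw [h1]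
  rw [map_sum, Submodule.coe_sum, Finset.sum_apply]
  refine Finset.sum_congr rfl fun p _ => ?_
  rw [map_smul, Submodule.coe_smul, Pi.smul_apply, smul_eq_mul]

end Pool.Agent.Lib.MP_666dc0_nt.ZO
end
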