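import Mathlib
import Pool.Agent.Lib.MP_666dc0_nt.ZO.L1

section

/-!
TASK P1c. Fixed vectors of subgroups of a finite `ℓ`-group in characteristic `ℓ`: `dim M^H ≤ [H' : H] dim M^H'` for `H ≤ H'`.

Induction on `[H' : H]` (strong induction on `H.relIndex H'`, for all `H`). If `H = H'` it is clear. Otherwise there is a subgroup `H₁` with `H < H₁ ≤ H'`, `H` normal in `H₁` and `[H₁ : H] = ℓ`: in the `ℓ`-group `H'` the subgroup `H` is properly contained in its normaliser (`NormalizerCondition`, `normalizerCondition_of_isNilpotent`,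
`IsPGroup.isNilpotent`; work in `↥H'` with `H.subgroupOf H'`), and the non-trivial `ℓ`-group `N(H) / H` has an element of order `ℓ`. (Other way: `IsPGroup.exists_..`, `Sylow.exists_subgroup_card_pow_succ` gives for a subgroup `H` of order `ℓ ^ m` dividing.. a subgroup `K` with `H ≤ K` of order `ℓ ^ (m + 1)`; `H` has index `ℓ`, the smallest prime divisor, so it
is normal: `Subgroup.normal_of_index_eq_minFac_card`.) Let `x ∈ H₁` with `x ∉ H`; `H₁` is generated by `H` and `x`, `x ^ ℓ ∈ H`, and `ρ x` maps `V = M^H` to itself (`h (ρ x v) = ρ x (ρ (x⁻¹ h x) v) = ρ x v`). `T = ρ x - 1` on `V` satisfies `T ^ ℓ = ρ (x ^ ℓ) - 1 = 0` (characteristic `ℓ`: `sub_pow_char_of_commute` in `Module.End`, which has characteristic `ℓ`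
if `V ≠ 0`; or use `(X - 1) ^ ℓ = X ^ ℓ - 1` in `k[X]` and `aeval`), so `dim V ≤ ℓ * dim ker T` (`dim ker T ^ (j + 1) ≤ dim ker T ^ j + dim ker T`), and `ker T = M^H₁`. So `dim M^H ≤ ℓ dim M^H₁ ≤ ℓ [H' : H₁] dim M^H'` by induction. (The file `P1` of this campaign, on the store as MP_666dc0_ZO_P1.lean, contains the
proof of the special case `H = 1`, `H' = P`: its steps can be reused.)
-/

namespace Pool.Agent.Lib.MP_666dc0_nt.ZO

/-- The vectors which are fixed by the subgroup `H`. -/
def fixedBy {k P M : Type} [Field k] [Group P] [AddCommGroup M] [Module k M] (ρ : Representation k P M)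
    (H : Subgroup P) : Submodule k M where
  carrier := {v | ∀ x ∈ H, ρ x v = v}
  add_mem' {a b} ha hb x hx := by rw [map_add, ha x hx, hb x hx]
  zero_mem' x _ := map_zero _
  smul_mem' c a ha x hx := by rw [map_smul, ha x hx]

private theorem P1c_step {k V : Type} [Field k] [AddCommGroup V] [Module k V]
    [FiniteDimensional k V] (T : Module.End k V) (j : ℕ) :
    Module.finrank k (LinearMap.range (T ^ j)) ≤
      Module.finrank k (LinearMap.range (T ^ (j + 1))) + Module.finrank k (LinearMap.ker T) := by
  set p : Submodule k V := LinearMap.range (T ^ j) with hp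
  set f : p →ₗ[k] V := T ∘ₗ p.subtype with hf
  have h1 := LinearMap.finrank_range_add_finrank_ker f
  have h2 : LinearMap.range f = LinearMap.range (T ^ (j + 1)) := by
    rw [hf, LinearMap.range_comp, Submodule.range_subtype, hp, pow_succ', Module.End.mul_eq_comp,
      LinearMap.range_comp]
  have h3 : Module.finrank k (LinearMap.ker f) ≤ Module.finrank k (LinearMap.ker T) := by
    refine LinearMap.finrank_le_finrank_of_injective
      (f := LinearMap.codRestrict (LinearMap.ker T) (p.subtype ∘ₗ (LinearMap.ker f).subtype)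
        (fun x => ?_)) ?_
    · have := x.2
      rw [LinearMap.mem_ker] at this ⊢
      exact this
    · intro x y hxy
      have h4 := congrArg Subtype.val hxy
      exact Subtype.ext (Subtype.ext h4)
  rw [← h1, h2]
  exact Nat.add_le_add_left h3 _

private theorem P1c_nil {k V : Type} [Field k] [AddCommGroup V] [Module k V]
    [FiniteDimensional k V] (T : Module.End k V) (n : ℕ) (h : T ^ n = 0) :
    Module.finrank k V ≤ n * Module.finrank k (LinearMap.ker T) := by
  have key : ∀ j : ℕ, Module.finrank k V ≤
      Module.finrank k (LinearMap.range (T ^ j)) + j * Module.finrank k (LinearMap.ker T) := by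
    intro j
    induction j with
    | zero =>
      rw [pow_zero, Module.End.one_eq_id, LinearMap.range_id, finrank_top]
      omega
    | succ j ih =>
      have h1 := P1c_step T j
      rw [Nat.succ_mul]
      omega
  have h1 := key n
  rw [h, LinearMap.range_zero, finrank_bot, Nat.zero_add] at h1
  exact h1

/-- A normal subgroup of index `ℓ`. -/
private theorem P1c_one (k : Type) [Field k] {ℓ : ℕ} [hl : Fact ℓ.Prime] [CharP k ℓ] (P : Type) [Group P]
    [Finite P] (M : Type) [AddCommGroup M] [Module k M] [FiniteDimensional k M]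
    (ρ : Representation k P M) {H H' : Subgroup P} (hle : H ≤ H') (hidx : H.relIndex H' = ℓ)
    (hnorm : (H.subgroupOf H').Normal) :
    Module.finrank k (fixedBy ρ H) ≤ ℓ * Module.finrank k (fixedBy ρ H') := by
  have hx : ∃ x ∈ H', x ∉ H := by
    by_contra hall
    push Not at hall
    have h1 : H' ≤ H := fun x hx => hall x hx
    rw [Subgroup.relIndex_eq_one.2 h1] at hidx
    exact hl.out.one_lt.ne hidx
  obtain ⟨x, hxH', hx⟩ := hx
  set W : Submodule k M := fixedBy ρ H with hW
  have memW : ∀ w : M, w ∈ W ↔ ∀ g ∈ H, ρ g w = w := fun w => Iff.rfl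
  set T : Module.End k M := ρ x - 1 with hT
  have hTW : ∀ w ∈ W, T w ∈ W := by
    intro w hw
    rw [memW] at hw ⊢
    intro g hg
    have h2 : ρ g (ρ x w) = ρ x w := by
      have h3 : g * x = x * (x⁻¹ * g * x) := by group
      have h4 : ρ g (ρ x w) = ρ (g * x) w := by rw [map_mul]; rfl
      have h5 : x⁻¹ * g * x ∈ H := by
        have h6 : (⟨g, hle hg⟩ : H') ∈ H.subgroupOf H' := hg
        have h7 := hnorm.conj_mem _ h6 (⟨x, hxH'⟩ : H')⁻¹
        rw [inv_inv] at h7
        exact h7
      rw [h4, h3, map_mul]
      show ρ x (ρ (x⁻¹ * g * x) w) = ρ x w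
      rw [hw _ h5]
    have h6 : T w = ρ x w - w := rfl
    rw [h6, map_sub, h2, hw g hg]
  have hTl : T ^ ℓ = ρ (x ^ ℓ) - 1 := by
    have hch : CharP (Module.End k M) ℓ ∨ Subsingleton M := by
      by_cases hM : Subsingleton M
      · exact Or.inr hM
      · left
        rw [not_subsingleton_iff_nontrivial] at hM
        exact charP_of_injective_algebraMap (algebraMap k (Module.End k M)).injective ℓ
    rcases hch with hch | hM
    · rw [hT, sub_pow_char_of_commute ℓ (Commute.one_right _), one_pow, map_pow]
    · ext v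
      exact Subsingleton.elim _ _
  have hxl : x ^ ℓ ∈ H := by
    have h7 := (H.subgroupOf H').pow_index_mem (⟨x, hxH'⟩ : H')
    rw [show (H.subgroupOf H').index = ℓ from hidx] at h7
    exact h7
  set T' : Module.End k W := T.restrict hTW with hT'
  have hnil : T' ^ ℓ = 0 := by
    ext w
    have h2 : ((T' ^ ℓ) w : M) = (T ^ ℓ) (w : M) := by
      rw [hT', Module.End.pow_restrict]
      rfl
    rw [h2, hTl]
    show ρ (x ^ ℓ) (w : M) - (w : M) = 0
    rw [(memW w).1 w.2 _ hxl, sub_self]
  have h2 := P1c_nil T' ℓ hnil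
  have h3 : Module.finrank k (LinearMap.ker T') ≤ Module.finrank k (fixedBy ρ H') := by
    refine LinearMap.finrank_le_finrank_of_injective
      (f := LinearMap.codRestrict (fixedBy ρ H') (W.subtype ∘ₗ (LinearMap.ker T').subtype)
        (fun w => ?_)) ?_
    · have hw0 : T' w.1 = 0 := w.2
      have hw1 : ρ x (w.1 : M) = (w.1 : M) := by
        have h4 := congrArg Subtype.val hw0
        have h5 : ρ x (w.1 : M) - (w.1 : M) = 0 := h4
        exact sub_eq_zero.1 h5
      let S : Subgroup P :=
        { carrier := {g | ρ g (w.1 : M) = (w.1 : M)}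
          mul_mem' := by
            intro a b ha hb
            show ρ (a * b) (w.1 : M) = (w.1 : M)
            rw [map_mul]
            show ρ a (ρ b (w.1 : M)) = (w.1 : M)
            rw [show ρ b (w.1 : M) = (w.1 : M) from hb]
            exact ha
          one_mem' := by
            show ρ 1 (w.1 : M) = (w.1 : M)
            rw [map_one]
            rfl
          inv_mem' := by
            intro a ha
            show ρ a⁻¹ (w.1 : M) = (w.1 : M)
            have h6 : ρ a⁻¹ (ρ a (w.1 : M)) = (w.1 : M) := by
              have h7 : ρ a⁻¹ (ρ a (w.1 : M)) = ρ (a⁻¹ * a) (w.1 : M) := by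
                rw [map_mul]; rfl
              rw [h7, inv_mul_cancel, map_one]
              rfl
            rwa [show ρ a (w.1 : M) = (w.1 : M) from ha] at h6 }
      have hNS : H.subgroupOf H' ≤ S.subgroupOf H' := fun g hg => (memW w.1).1 w.1.2 g.1 hg
      have hxS : (⟨x, hxH'⟩ : H') ∈ S.subgroupOf H' := hw1
      have hS : S.subgroupOf H' = ⊤ := by
        have h8 := Subgroup.relIndex_mul_index hNS
        rw [show (H.subgroupOf H').index = ℓ from hidx] at h8
        rcases (Nat.dvd_prime hl.out).1 (Dvd.intro_left _ h8) with h9 | h9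
        · exact Subgroup.index_eq_one.1 h9
        · exfalso
          rw [h9] at h8
          have h10 : (H.subgroupOf H').relIndex (S.subgroupOf H') = 1 :=
            Nat.eq_of_mul_eq_mul_right hl.out.pos (by rw [h8, Nat.one_mul])
          rw [Subgroup.relIndex_eq_one] at h10
          exact hx (h10 hxS)
      intro g hg
      have hg' : (⟨g, hg⟩ : H') ∈ S.subgroupOf H' := by rw [hS]; exact Subgroup.mem_top _
      exact hg'
    · intro a b hab
      have h4 := congrArg Subtype.val hab
      exact Subtype.ext (Subtype.ext h4)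
  exact h2.trans (Nat.mul_le_mul_left _ h3)

theorem finrank_fixedBy_le (k : Type) [Field k] {ℓ : ℕ} [Fact ℓ.Prime] [CharP k ℓ] (P : Type) [Group P]
    [Finite P] (hP : IsPGroup ℓ P) (M : Type) [AddCommGroup M] [Module k M] [FiniteDimensional k M]
    (ρ : Representation k P M) {H H' : Subgroup P} (h : H ≤ H') :
    Module.finrank k (fixedBy ρ H) ≤ H.relIndex H' * Module.finrank k (fixedBy ρ H') := by
  have hl : Fact ℓ.Prime := inferInstance
  have key : ∀ (d : ℕ) (H : Subgroup P), H ≤ H' → H.relIndex H' = d →
      Module.finrank k (fixedBy ρ H) ≤ d * Module.finrank k (fixedBy ρ H') := by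
    intro d
    induction d using Nat.strong_induction_on with
    | _ d ih =>
      intro H hle hd
      by_cases hEq : H' ≤ H
      · have h1 : H = H' := le_antisymm hle hEq
        rw [← hd, Subgroup.relIndex_eq_one.2 hEq, Nat.one_mul, h1]
      · -- a subgroup between
        obtain ⟨m, hm⟩ := IsPGroup.iff_card.1 (hP.to_subgroup H)
        obtain ⟨m', hm'⟩ := IsPGroup.iff_card.1 (hP.to_subgroup H')
        have hlt : m < m' := by
          by_contra hcon
          apply hEq
          have h1 : Nat.card H' ≤ Nat.card H := by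
            rw [hm, hm']
            exact Nat.pow_le_pow_right hl.out.pos (not_lt.1 hcon)
          have h2 : H = H' := Subgroup.eq_of_le_of_card_ge hle h1
          rw [h2]
        have hcs : Nat.card (H.subgroupOf H') = ℓ ^ m := by
          rw [← hm]
          exact Nat.card_congr (Subgroup.subgroupOfEquivOfLe hle).toEquiv
        obtain ⟨K, hK1, hK2⟩ := Sylow.exists_subgroup_card_pow_succ (G := H') (p := ℓ) (n := m)
          (by rw [hm']; exact pow_dvd_pow _ hlt) hcs
        set H₁ : Subgroup P := K.map H'.subtype with hH₁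
        have hH₁le : H₁ ≤ H' := by
          rw [hH₁]
          exact Subgroup.map_subtype_le K
        have hHH₁ : H ≤ H₁ := by
          intro y hy
          rw [hH₁, Subgroup.mem_map]
          exact ⟨⟨y, hle hy⟩, hK2 hy, rfl⟩
        have hcard₁ : Nat.card H₁ = ℓ ^ (m + 1) := by
          rw [← hK1, hH₁]
          exact Nat.card_congr (K.equivMapOfInjective _ (Subgroup.subtype_injective H')).toEquiv.symm
        have hidx : H.relIndex H₁ = ℓ := by
          have h1 := (H.subgroupOf H₁).card_mul_index
          have h2 : Nat.card (H.subgroupOf H₁) = ℓ ^ m := by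
            rw [← hm]
            exact Nat.card_congr (Subgroup.subgroupOfEquivOfLe hHH₁).toEquiv
          rw [h2, hcard₁, pow_succ] at h1
          exact Nat.eq_of_mul_eq_mul_left (pow_pos hl.out.pos m) h1
        have hnorm : (H.subgroupOf H₁).Normal := by
          apply Subgroup.normal_of_index_eq_minFac_card
          rw [show (H.subgroupOf H₁).index = ℓ from hidx, hcard₁, hl.out.pow_minFac (Nat.succ_ne_zero m)]
        have h3 := P1c_one k P M ρ hHH₁ hidx hnorm
        have h4 := Subgroup.relIndex_mul_relIndex H H₁ H' hHH₁ hH₁le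
        rw [hidx, hd] at h4
        have hpos : 0 < H₁.relIndex H' := by
          rcases Nat.eq_zero_or_pos (H₁.relIndex H') with h5 | h5
          · exfalso
            rw [h5, Nat.mul_zero] at h4
            have h6 : H.relIndex H' ≠ 0 := Subgroup.index_ne_zero_of_finite
            omega
          · exact h5
        have h5 : H₁.relIndex H' < d := by
          rw [← h4]
          have := hl.out.two_le
          nlinarith
        have h6 := ih _ h5 H₁ hH₁le rfl
        calc Module.finrank k (fixedBy ρ H) ≤ ℓ * Module.finrank k (fixedBy ρ H₁) := h3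
          _ ≤ ℓ * (H₁.relIndex H' * Module.finrank k (fixedBy ρ H')) := Nat.mul_le_mul_left _ h6
          _ = d * Module.finrank k (fixedBy ρ H') := by rw [← h4, Nat.mul_assoc]
  exact key _ H h rfl

end Pool.Agent.Lib.MP_666dc0_nt.ZO
end

section

/-!
TASK P1. A finite `ℓ`-group `P` acting on a finite-dimensional space `M` over a field of characteristic `ℓ`: `dim M ≤ |P| dim M^P`.

Induction on the order of `P` (for all `M`). `P` trivial: `M^P = M`. Otherwise let `z ≠ 1` be a central element with `z ^ ℓ = 1` (`IsPGroup.center_nontrivial`, an element of order `ℓ`), `Z = zpowers z`, `T = ρ z - 1`. Then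
`T ^ ℓ = ρ (z ^ ℓ) - 1 = 0` (characteristic `ℓ`), so `dim M ≤ ℓ dim ker T` (`dim ker T^(j+1) ≤ dim ker T^j + dim ker T`: `T^j` maps `ker T^(j+1)` to `ker T` with kernel `ker T^j`). `ker T = M^Z` is stable under `P` and a representation of
`P ⧸ Z`, whose order is `|P| / ℓ`; so `dim M^Z ≤ (|P| / ℓ) dim (M^Z)^(P/Z)` and `(M^Z)^(P/Z) ≅ M^P`.
Alternative without quotient groups: use a chain `1 = P_0 < P_1 < ... < P_m = P` of normal subgroups with index `ℓ` steps, or induct over the statement for subgroups: a normal subgroup `N` of index `ℓ` (exists in an `ℓ`-group), `x ∉ N`: `dim M ≤ |N| dim M^N` by induction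
(restricted representation) and `T = ρ x - 1` acts on `M^N` with `T ^ ℓ = ρ (x ^ ℓ) - 1 = 0` on `M^N` (`x ^ ℓ ∈ N`), and `ker T ⊓ M^N = M^P`, so `dim M^N ≤ ℓ dim M^P`. (This avoids quotients: recommended.)
-/

namespace Pool.Agent.Lib.MP_666dc0_nt.ZO

private theorem P1_step {k V : Type} [Field k] [AddCommGroup V] [Module k V]
    [FiniteDimensional k V] (T : Module.End k V) (j : ℕ) :
    Module.finrank k (LinearMap.range (T ^ j)) ≤
      Module.finrank k (LinearMap.range (T ^ (j + 1))) + Module.finrank k (LinearMap.ker T) := by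
  set p : Submodule k V := LinearMap.range (T ^ j) with hp
  set f : p →ₗ[k] V := T ∘ₗ p.subtype with hf
  have h1 := LinearMap.finrank_range_add_finrank_ker f
  have h2 : LinearMap.range f = LinearMap.range (T ^ (j + 1)) := by
    rw [hf, LinearMap.range_comp, Submodule.range_subtype, hp, pow_succ', Module.End.mul_eq_comp,
      LinearMap.range_comp]
  have h3 : Module.finrank k (LinearMap.ker f) ≤ Module.finrank k (LinearMap.ker T) := by
    refine LinearMap.finrank_le_finrank_of_injective
      (f := LinearMap.codRestrict (LinearMap.ker T) (p.subtype ∘ₗ (LinearMap.ker f).subtype)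
        (fun x => ?_)) ?_
    · have := x.2
      rw [LinearMap.mem_ker] at this ⊢
      exact this
    · intro x y hxy
      have h4 := congrArg Subtype.val hxy
      exact Subtype.ext (Subtype.ext h4)
  rw [← h1, h2]
  exact Nat.add_le_add_left h3 _

private theorem P1_nil {k V : Type} [Field k] [AddCommGroup V] [Module k V]
    [FiniteDimensional k V] (T : Module.End k V) (n : ℕ) (h : T ^ n = 0) :
    Module.finrank k V ≤ n * Module.finrank k (LinearMap.ker T) := by
  have key : ∀ j : ℕ, Module.finrank k V ≤
      Module.finrank k (LinearMap.range (T ^ j)) + j * Module.finrank k (LinearMap.ker T) := by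
    intro j
    induction j with
    | zero =>
      rw [pow_zero, Module.End.one_eq_id, LinearMap.range_id, finrank_top]
      omega
    | succ j ih =>
      have h1 := P1_step T j
      rw [Nat.succ_mul]
      omega
  have h1 := key n
  rw [h, LinearMap.range_zero, finrank_bot, Nat.zero_add] at h1
  exact h1

private theorem P1_main (k : Type) [Field k] {ℓ : ℕ} [hl : Fact ℓ.Prime] [CharP k ℓ]
    (M : Type) [AddCommGroup M] [Module k M] [FiniteDimensional k M] (n : ℕ) :
    ∀ (P : Type) [Group P] [Finite P], Nat.card P = ℓ ^ n → ∀ ρ : Representation k P M,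
      Module.finrank k M ≤ ℓ ^ n * Module.finrank k ρ.invariants := by
  induction n with
  | zero =>
    intro P _ _ hc ρ
    rw [pow_zero] at hc
    have hs : Subsingleton P := (Nat.card_eq_one_iff_unique.1 hc).1
    have h1 : ρ.invariants = ⊤ := by
      rw [eq_top_iff]
      intro v _
      rw [Representation.mem_invariants]
      intro g
      rw [Subsingleton.elim g 1, map_one]
      rfl
    rw [h1, finrank_top, pow_zero, Nat.one_mul]
  | succ n ih =>
    intro P _ _ hc ρ
    obtain ⟨N, hN⟩ := Sylow.exists_subgroup_card_pow_prime (G := P) ℓ (n := n)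
      (by rw [hc]; exact pow_dvd_pow _ (Nat.le_succ n))
    have hidx : N.index = ℓ := by
      have h1 := N.card_mul_index
      rw [hN, hc, pow_succ] at h1
      exact Nat.eq_of_mul_eq_mul_left (pow_pos hl.out.pos n) h1
    have hnorm : N.Normal := by
      apply Subgroup.normal_of_index_eq_minFac_card
      rw [hidx, hc, hl.out.pow_minFac (Nat.succ_ne_zero n)]
    have hx : ∃ x : P, x ∉ N := by
      by_contra hall
      push Not at hall
      have h1 : N = ⊤ := by
        rw [eq_top_iff]
        intro x _
        exact hall x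
      rw [h1, Subgroup.index_top] at hidx
      exact hl.out.one_lt.ne hidx
    obtain ⟨x, hx⟩ := hx
    set W : Submodule k M := Representation.invariants (MonoidHom.comp ρ N.subtype) with hW
    have memW : ∀ w : M, w ∈ W ↔ ∀ g ∈ N, ρ g w = w := by
      intro w
      rw [hW, Representation.mem_invariants]
      constructor
      · intro h g hg
        exact h ⟨g, hg⟩
      · intro h g
        exact h g.1 g.2
    have h1 : Module.finrank k M ≤ ℓ ^ n * Module.finrank k W :=
      ih N hN (MonoidHom.comp ρ N.subtype)
    set T : Module.End k M := ρ x - 1 with hT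
    have hTW : ∀ w ∈ W, T w ∈ W := by
      intro w hw
      rw [memW] at hw ⊢
      intro g hg
      have h2 : ρ g (ρ x w) = ρ x w := by
        have h3 : g * x = x * (x⁻¹ * g * x) := by group
        have h4 : ρ g (ρ x w) = ρ (g * x) w := by rw [map_mul]; rfl
        have h5 : x⁻¹ * g * x ∈ N := by
          have := hnorm.conj_mem g hg x⁻¹
          rwa [inv_inv] at this
        rw [h4, h3, map_mul]
        show ρ x (ρ (x⁻¹ * g * x) w) = ρ x w
        rw [hw _ h5]
      have h6 : T w = ρ x w - w := rfl
      rw [h6, map_sub, h2, hw g hg]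
    have hTl : T ^ ℓ = ρ (x ^ ℓ) - 1 := by
      have hch : CharP (Module.End k M) ℓ ∨ Subsingleton M := by
        by_cases hM : Subsingleton M
        · exact Or.inr hM
        · left
          rw [not_subsingleton_iff_nontrivial] at hM
          exact charP_of_injective_algebraMap (algebraMap k (Module.End k M)).injective ℓ
      rcases hch with hch | hM
      · rw [hT, sub_pow_char_of_commute ℓ (Commute.one_right _), one_pow, map_pow]
      · ext v
        exact Subsingleton.elim _ _
    have hxl : x ^ ℓ ∈ N := by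
      have := N.pow_index_mem x
      rwa [hidx] at this
    set T' : Module.End k W := T.restrict hTW with hT'
    have hnil : T' ^ ℓ = 0 := by
      ext w
      have h2 : ((T' ^ ℓ) w : M) = (T ^ ℓ) (w : M) := by
        rw [hT', Module.End.pow_restrict]
        rfl
      rw [h2, hTl]
      show ρ (x ^ ℓ) (w : M) - (w : M) = 0
      rw [(memW w).1 w.2 _ hxl, sub_self]
    have h2 := P1_nil T' ℓ hnil
    have h3 : Module.finrank k (LinearMap.ker T') ≤ Module.finrank k ρ.invariants := by
      refine LinearMap.finrank_le_finrank_of_injective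
        (f := LinearMap.codRestrict ρ.invariants (W.subtype ∘ₗ (LinearMap.ker T').subtype)
          (fun w => ?_)) ?_
      · have hw0 : T' w.1 = 0 := w.2
        have hw1 : ρ x (w.1 : M) = (w.1 : M) := by
          have h4 := congrArg Subtype.val hw0
          have h5 : ρ x (w.1 : M) - (w.1 : M) = 0 := h4
          exact sub_eq_zero.1 h5
        rw [Representation.mem_invariants]
        let S : Subgroup P :=
          { carrier := {g | ρ g (w.1 : M) = (w.1 : M)}
            mul_mem' := by
              intro a b ha hb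
              show ρ (a * b) (w.1 : M) = (w.1 : M)
              rw [map_mul]
              show ρ a (ρ b (w.1 : M)) = (w.1 : M)
              rw [show ρ b (w.1 : M) = (w.1 : M) from hb]
              exact ha
            one_mem' := by
              show ρ 1 (w.1 : M) = (w.1 : M)
              rw [map_one]
              rfl
            inv_mem' := by
              intro a ha
              show ρ a⁻¹ (w.1 : M) = (w.1 : M)
              have h6 : ρ a⁻¹ (ρ a (w.1 : M)) = (w.1 : M) := by
                have h7 : ρ a⁻¹ (ρ a (w.1 : M)) = ρ (a⁻¹ * a) (w.1 : M) := by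
                  rw [map_mul]; rfl
                rw [h7, inv_mul_cancel, map_one]
                rfl
              rwa [show ρ a (w.1 : M) = (w.1 : M) from ha] at h6 }
        have hNS : N ≤ S := fun g hg => (memW w.1).1 w.1.2 g hg
        have hxS : x ∈ S := hw1
        have hS : S = ⊤ := by
          have h8 := Subgroup.relIndex_mul_index hNS
          rw [hidx] at h8
          rcases (Nat.dvd_prime hl.out).1 (Dvd.intro_left _ h8) with h9 | h9
          · exact Subgroup.index_eq_one.1 h9
          · exfalso
            rw [h9] at h8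
            have h10 : N.relIndex S = 1 := Nat.eq_of_mul_eq_mul_right hl.out.pos
              (by rw [h8, Nat.one_mul])
            rw [Subgroup.relIndex_eq_one] at h10
            exact hx (h10 hxS)
        intro g
        have hg : g ∈ S := by rw [hS]; exact Subgroup.mem_top g
        exact hg
      · intro a b hab
        have h4 := congrArg Subtype.val hab
        exact Subtype.ext (Subtype.ext h4)
    calc Module.finrank k M ≤ ℓ ^ n * Module.finrank k W := h1
      _ ≤ ℓ ^ n * (ℓ * Module.finrank k ρ.invariants) :=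
        Nat.mul_le_mul_left _ (h2.trans (Nat.mul_le_mul_left _ h3))
      _ = ℓ ^ (n + 1) * Module.finrank k ρ.invariants := by ring

theorem finrank_le_card_mul_invariants (k : Type) [Field k] {ℓ : ℕ} [Fact ℓ.Prime] [CharP k ℓ] (P : Type) [Group P]
    [Finite P] (hP : IsPGroup ℓ P) (M : Type) [AddCommGroup M] [Module k M] [FiniteDimensional k M]
    (ρ : Representation k P M) :
    Module.finrank k M ≤ Nat.card P * Module.finrank k ρ.invariants := by
  obtain ⟨n, hn⟩ := IsPGroup.iff_card.1 hP
  rw [hn]
  exact P1_main k M n P hn ρ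

end Pool.Agent.Lib.MP_666dc0_nt.ZO
end

section

/-!
TASK P2. The stable rank of an equivariant operator on `R × P → k`.

`M = (R × P → k)`, `ρ y f (r, x) = f (r, x y)` a representation of `P` (a homomorphism: `ρ y (ρ z f) (r, x) = f (r, x y z)`), `N = dim M = |R| |P|`, `h` commutes with all `ρ y`, and `h (f ∘ fst) = (h₀ f) ∘ fst`.
Fitting: `M = range (h ^ N) ⊕ ker (h ^ N)` (`LinearMap.isCompl_iSup_ker_pow_iInf_range_pow` or `Module.End` lemmas; stabilisation at `N = finrank`), both summands are stable under `P`. Put `A = range (h ^ N)`, `B = ker (h ^ N)`.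
`P1`: `dim A ≤ |P| dim A^P`, `dim B ≤ |P| dim B^P`, and `A^P ⊕ B^P = M^P`, which is the space of the functions of the first variable, of dimension `|R|`. The sum of the left sides is `|R| |P|`, the sum of
the right sides is `|P| |R|`: equality in both, `srank h = dim A = |P| dim A^P`. Finally `dim A^P = srank h₀`: identify `M^P` with `R → k` (`f ↦ f ∘ fst`); `h` corresponds to `h₀`; `M^P = A^P ⊕ B^P`, `h` is injective on `A^P`, and
`h ^ N = 0` on `B^P`; so `range (h₀ ^ N) = A^P` (as `h ^ N` is a bijection of the finite dimensional `A^P`), and `range (h₀ ^ N) = range (h₀ ^ |R|)` since `N ≥ |R|` (ranges of powers are stable from `finrank` on;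
if `P` is finite, `|P| ≥ 1`).
-/

namespace Pool.Agent.Lib.MP_666dc0_nt.ZO

/-- The stable rank of an endomorphism. -/
noncomputable def srank {k M : Type} [Field k] [AddCommGroup M] [Module k M] (h : M →ₗ[k] M) : ℕ :=
  Module.finrank k (LinearMap.range (h ^ Module.finrank k M))

/-- the ranks of the powers are stable from the dimension on -/
private theorem P2_range_pow {k V : Type} [Field k] [AddCommGroup V] [Module k V] [FiniteDimensional k V]
    (h : V →ₗ[k] V) {m : ℕ} (hm : Module.finrank k V ≤ m) :
    Module.finrank k (LinearMap.range (h ^ m)) = srank h := by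
  have h1 := LinearMap.finrank_range_add_finrank_ker (h ^ m)
  have h2 := LinearMap.finrank_range_add_finrank_ker (h ^ Module.finrank k V)
  have h3 : LinearMap.ker (h ^ m) = LinearMap.ker (h ^ Module.finrank k V) :=
    Module.End.ker_pow_eq_ker_pow_finrank_of_le (f := (h : Module.End k V)) hm
  rw [h3] at h1
  unfold srank
  omega

private theorem P2_disj {k V : Type} [Field k] [AddCommGroup V] [Module k V] [FiniteDimensional k V]
    (h : V →ₗ[k] V) : Disjoint (LinearMap.range (h ^ Module.finrank k V))
      (LinearMap.ker (h ^ Module.finrank k V)) := by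
  rw [Submodule.disjoint_def]
  rintro x ⟨y, rfl⟩ hx
  have h1 : y ∈ LinearMap.ker (h ^ (Module.finrank k V + Module.finrank k V)) := by
    rw [LinearMap.mem_ker, pow_add, Module.End.mul_apply]
    exact hx
  have h2 : LinearMap.ker (h ^ (Module.finrank k V + Module.finrank k V)) =
      LinearMap.ker (h ^ Module.finrank k V) :=
    Module.End.ker_pow_eq_ker_pow_finrank_of_le (f := (h : Module.End k V)) (by omega)
  rw [h2] at h1
  exact h1

private theorem P2_sub (k : Type) [Field k] {ℓ : ℕ} [Fact ℓ.Prime] [CharP k ℓ] (P : Type) [Group P]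
    [Finite P] (hP : IsPGroup ℓ P) (M : Type) [AddCommGroup M] [Module k M] [FiniteDimensional k M]
    (ρ : Representation k P M) (W : Submodule k M) (hW : ∀ y, ∀ f ∈ W, ρ y f ∈ W) :
    Module.finrank k W ≤ Nat.card P * Module.finrank k (W ⊓ ρ.invariants : Submodule k M) := by
  let σ : Representation k P W :=
    { toFun := fun y => (ρ y).restrict (hW y)
      map_one' := by
        ext f
        simp [LinearMap.restrict_apply]
      map_mul' := fun y z => by
        ext f
        simp [LinearMap.restrict_apply] }
  have h1 := finrank_le_card_mul_invariants k P hP W σ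
  refine h1.trans (Nat.mul_le_mul_left _ ?_)
  have h2 : Module.finrank k (σ.invariants.map W.subtype) = Module.finrank k σ.invariants :=
    Submodule.finrank_map_subtype_eq W σ.invariants
  rw [← h2]
  refine Submodule.finrank_mono ?_
  rintro _ ⟨w, hw, rfl⟩
  refine ⟨w.2, ?_⟩
  intro y
  have h3 := hw y
  exact congrArg Subtype.val h3

theorem srank_equivariant (k : Type) [Field k] {ℓ : ℕ} [Fact ℓ.Prime] [CharP k ℓ] (P : Type) [Group P] [Finite P]
    (hP : IsPGroup ℓ P) (R : Type) [Finite R] (h : (R × P → k) →ₗ[k] (R × P → k)) (h₀ : (R → k) →ₗ[k] (R → k))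
    (hh : ∀ (y : P) (f : R × P → k), h (fun p => f (p.1, p.2 * y)) = fun p => h f (p.1, p.2 * y))
    (hh₀ : ∀ f : R → k, h (fun p => f p.1) = fun p => h₀ f p.1) :
    srank h = Nat.card P * srank h₀ := by
  classical
  let _ : Fintype P := Fintype.ofFinite P
  let _ : Fintype R := Fintype.ofFinite R
  let ρ : Representation k P (R × P → k) :=
    { toFun := fun y =>
        { toFun := fun f p => f (p.1, p.2 * y)
          map_add' := fun f g => rfl
          map_smul' := fun c f => rfl }
      map_one' := by
        ext f p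
        simp
      map_mul' := fun y z => by
        ext f p
        simp [mul_assoc] }
  have hρ : ∀ (y : P) (f : R × P → k), ρ y f = fun p => f (p.1, p.2 * y) := fun y f => rfl
  have hcomm : ∀ (m : ℕ) (y : P) (f : R × P → k), (h ^ m) (ρ y f) = ρ y ((h ^ m) f) := by
    intro m
    induction m with
    | zero => intro y f; rfl
    | succ m ih =>
      intro y f
      rw [pow_succ, Module.End.mul_apply, Module.End.mul_apply]
      have h1 : h (ρ y f) = ρ y (h f) := hh y f
      rw [h1, ih]
  set N := Module.finrank k (R × P → k) with hN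
  have hNc : N = Nat.card R * Nat.card P := by
    rw [hN, Module.finrank_fintype_fun_eq_card, Fintype.card_prod, Nat.card_eq_fintype_card,
      Nat.card_eq_fintype_card]
  have hn0 : Module.finrank k (R → k) = Nat.card R := by
    rw [Module.finrank_fintype_fun_eq_card, Nat.card_eq_fintype_card]
  have hPpos : 0 < Nat.card P := Nat.card_pos
  set A := LinearMap.range (h ^ N) with hA
  set B := LinearMap.ker (h ^ N) with hB
  have hAst : ∀ y, ∀ f ∈ A, ρ y f ∈ A := by
    rintro y _ ⟨g, rfl⟩
    exact ⟨ρ y g, hcomm N y g⟩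
  have hBst : ∀ y, ∀ f ∈ B, ρ y f ∈ B := by
    intro y f hf
    rw [hB, LinearMap.mem_ker] at hf ⊢
    rw [hcomm, hf, map_zero]
  have hdA := P2_sub k P hP (R × P → k) ρ A hAst
  have hdB := P2_sub k P hP (R × P → k) ρ B hBst
  have hAB : Module.finrank k A + Module.finrank k B = N := by
    rw [hA, hB]
    exact LinearMap.finrank_range_add_finrank_ker (h ^ N)
  -- functions of the first variable
  let ι : (R → k) →ₗ[k] (R × P → k) :=
    { toFun := fun f p => f p.1
      map_add' := fun f g => rfl
      map_smul' := fun c f => rfl }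
  have hι : Function.Injective ι := by
    intro f g hfg
    ext x
    exact congrFun hfg (x, 1)
  have hιI : ∀ f, ι f ∈ ρ.invariants := fun f y => rfl
  have hIι : ρ.invariants ≤ LinearMap.range ι := by
    intro f hf
    refine ⟨fun x => f (x, 1), ?_⟩
    ext ⟨x, y⟩
    have h1 := congrFun (hf y) (x, 1)
    have h2 : f (x, 1 * y) = f (x, 1) := h1
    show f (x, 1) = f (x, y)
    rw [← h2, one_mul]
  have hIdim : Module.finrank k ρ.invariants ≤ Nat.card R := by
    refine (Submodule.finrank_mono hIι).trans ?_
    rw [← hn0]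
    exact LinearMap.finrank_range_le ι
  have hdisj : Disjoint (A ⊓ ρ.invariants) (B ⊓ ρ.invariants) :=
    (P2_disj h).mono inf_le_left inf_le_left
  have hab : Module.finrank k (A ⊓ ρ.invariants : Submodule k (R × P → k)) +
      Module.finrank k (B ⊓ ρ.invariants : Submodule k (R × P → k)) ≤ Nat.card R := by
    have h1 := Submodule.finrank_sup_add_finrank_inf_eq (A ⊓ ρ.invariants) (B ⊓ ρ.invariants)
    rw [hdisj.eq_bot, finrank_bot, add_zero] at h1
    rw [← h1]
    refine (Submodule.finrank_mono ?_).trans hIdim
    exact sup_le inf_le_right inf_le_right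
  -- comparison with `h₀`
  have hιh : ∀ (m : ℕ) (f : R → k), (h ^ m) (ι f) = ι ((h₀ ^ m) f) := by
    intro m
    induction m with
    | zero => intro f; rfl
    | succ m ih =>
      intro f
      rw [pow_succ, Module.End.mul_apply, pow_succ, Module.End.mul_apply]
      have h1 : h (ι f) = ι (h₀ f) := hh₀ f
      rw [h1, ih]
  have hr : Module.finrank k (LinearMap.range (h₀ ^ N)) ≤
      Module.finrank k (A ⊓ ρ.invariants : Submodule k (R × P → k)) := by
    rw [(Submodule.equivMapOfInjective ι hι (LinearMap.range (h₀ ^ N))).finrank_eq]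
    refine Submodule.finrank_mono ?_
    rintro _ ⟨_, ⟨f, rfl⟩, rfl⟩
    refine ⟨⟨ι f, hιh N f⟩, hιI _⟩
  have hk : Module.finrank k (LinearMap.ker (h₀ ^ N)) ≤
      Module.finrank k (B ⊓ ρ.invariants : Submodule k (R × P → k)) := by
    rw [(Submodule.equivMapOfInjective ι hι (LinearMap.ker (h₀ ^ N))).finrank_eq]
    refine Submodule.finrank_mono ?_
    rintro _ ⟨f, hf, rfl⟩
    refine ⟨?_, hιI _⟩
    show ι f ∈ LinearMap.ker (h ^ N)
    have hf' : (h₀ ^ N) f = 0 := hf
    rw [LinearMap.mem_ker, hιh, hf', map_zero]
  have hrk := LinearMap.finrank_range_add_finrank_ker (h₀ ^ N)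
  rw [hn0] at hrk
  have hNn : Module.finrank k (R → k) ≤ N := by
    rw [hn0, hNc]
    exact Nat.le_mul_of_pos_right _ hPpos
  have hs0 := P2_range_pow h₀ hNn
  have hs : srank h = Module.finrank k A := rfl
  have ha : Module.finrank k (LinearMap.range (h₀ ^ N)) =
      Module.finrank k (A ⊓ ρ.invariants : Submodule k (R × P → k)) := by omega
  rw [hs, ← hs0, ha]
  refine le_antisymm hdA ?_
  have h3 : Nat.card P * Module.finrank k (A ⊓ ρ.invariants : Submodule k (R × P → k)) +
      Nat.card P * Module.finrank k (B ⊓ ρ.invariants : Submodule k (R × P → k)) ≤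
      Nat.card R * Nat.card P := by
    rw [← mul_add, mul_comm (Nat.card R)]
    exact Nat.mul_le_mul_left _ hab
  omega

/-- The stable rank of `w` copies of an endomorphism. -/
theorem srank_copies (k : Type) [Field k] (X : Type) [Finite X] (w : ℕ) (h : (X → k) →ₗ[k] (X → k))
    (h' : (X × Fin w → k) →ₗ[k] (X × Fin w → k))
    (hh : ∀ (f : X × Fin w → k) (p : X × Fin w), h' f p = h (fun x => f (x, p.2)) p.1) :
    srank h' = w * srank h := by
  classical
  let _ : Fintype X := Fintype.ofFinite X
  have hpow : ∀ (m : ℕ) (f : X × Fin w → k) (p : X × Fin w),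
      (h' ^ m) f p = (h ^ m) (fun x => f (x, p.2)) p.1 := by
    intro m
    induction m with
    | zero => intro f p; rfl
    | succ m ih =>
      intro f p
      have h1 : (fun x => h' f (x, p.2)) = h (fun x => f (x, p.2)) := by
        funext x
        exact hh f (x, p.2)
      rw [pow_succ, Module.End.mul_apply, pow_succ, Module.End.mul_apply, ih, h1]
  rcases Nat.eq_zero_or_pos w with hw | hw
  · subst hw
    have h1 : Module.finrank k (X × Fin 0 → k) = 0 := by
      rw [Module.finrank_fintype_fun_eq_card, Fintype.card_prod, Fintype.card_fin, mul_zero]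
    have h2 : srank h' ≤ Module.finrank k (X × Fin 0 → k) := Submodule.finrank_le _
    omega
  set N := Module.finrank k (X × Fin w → k) with hN
  have hNn : Module.finrank k (X → k) ≤ N := by
    rw [hN, Module.finrank_fintype_fun_eq_card, Module.finrank_fintype_fun_eq_card,
      Fintype.card_prod, Fintype.card_fin]
    exact Nat.le_mul_of_pos_right _ hw
  rw [← P2_range_pow h hNn]
  have hs : srank h' = Module.finrank k (LinearMap.range (h' ^ N)) := rfl
  rw [hs]
  let T : LinearMap.range (h' ^ N) →ₗ[k] (Fin w → LinearMap.range (h ^ N)) :=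
    { toFun := fun g i => ⟨fun x => g.1 (x, i), by
        obtain ⟨g, f, rfl⟩ := g
        refine ⟨fun x => f (x, i), ?_⟩
        ext x
        exact (hpow N f (x, i)).symm⟩
      map_add' := fun g g' => rfl
      map_smul' := fun c g => rfl }
  have hT : Function.Bijective T := by
    constructor
    · intro g g' hgg
      apply Subtype.ext
      ext ⟨x, i⟩
      have h1 := congrFun hgg i
      have h2 := congrArg Subtype.val h1
      exact congrFun h2 x
    · intro u
      choose v hv using fun i => (u i).2
      refine ⟨⟨(h' ^ N) (fun p => v p.2 p.1), ⟨_, rfl⟩⟩, ?_⟩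
      ext i x
      show (h' ^ N) (fun p => v p.2 p.1) (x, i) = (u i).1 x
      rw [hpow, ← hv i]
  rw [(LinearEquiv.ofBijective T hT).finrank_eq, Module.finrank_pi_fintype]
  simp

end Pool.Agent.Lib.MP_666dc0_nt.ZO
end

section

/-!
TASK P2c. Equivariant operators on functions on `R × P / H`.

`M = (R × P → k)` with the representation `ρ y f (r, x) = f (r, x y)`, `Y = P / H` via `π : P → Y` (`π x = π y` iff `x⁻¹ y ∈ H`). The functions `f (r, π x)` are exactly the functions in `M` which are fixed by `H` (`fixedBy ρ H`): so `fixedBy ρ H ≅ (R × Y → k)` of dimension `|R| |Y|`, and `|Y| = [P : H]` (`Nat.card_congr` with `P ⧸ H`; `relIndex_top_right`). By `hhY` the operator `h` corresponds to `hY` on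
`fixedBy ρ H`; and to `h₀` on `fixedBy ρ ⊤` (the functions of the first variable).
* `srank_subgroup`. `N = dim M`, `A = range (h ^ N)`, `B = ker (h ^ N)`, `M = A ⊕ B` (Fitting), both stable under `ρ`. `dim A^H ≤ [P : H] dim A^P` and `dim B^H ≤ [P : H] dim B^P` (P1c for the subrepresentations, `H' = ⊤`), the sum of the left sides is `dim M^H = |R| |Y|`, the sum of the right sides is `[P : H] |R|`. So `dim A^H = [P : H] dim A^P`. And `dim A^H = srank hY`, `dim A^P = srank h₀`
  (as in P2: `M^H = A^H ⊕ B^H`, `h` is bijective on `A^H` and nilpotent on `B^H`; ranges of powers are stable from the dimension on). See the file P2 (MP_666dc0_ZO_P2.lean on the store) for these steps in the case `H = 1`.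
* `rank_subgroup`. `H ≤ H'`, `Y' = P / H'`. `Z = ker h` is stable; `Z ∩ M^H ≅ ker hY`, `Z ∩ M^H' ≅ ker hY'`, so P1c gives `dim ker hY ≤ [H' : H] dim ker hY'`. With `|Y| = [H' : H] |Y'|` (`relIndex_mul_index`): `rank hY = |R| |Y| - dim ker hY ≥ [H' : H] (|R| |Y'| - dim ker hY') = [H' : H] rank hY'`; multiply by `|Y'|`.
-/

namespace Pool.Agent.Lib.MP_666dc0_nt.ZO

/-- right translations of the second variable -/
private noncomputable def P2c_rho (k : Type) [Field k] (P : Type) [Group P] (R : Type) :
    Representation k P (R × P → k) where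
  toFun := fun y =>
    { toFun := fun f p => f (p.1, p.2 * y)
      map_add' := fun f g => rfl
      map_smul' := fun c f => rfl }
  map_one' := by
    ext f p
    simp
  map_mul' := fun y z => by
    ext f p
    simp [mul_assoc]

private theorem P2c_sub (k : Type) [Field k] {ℓ : ℕ} [Fact ℓ.Prime] [CharP k ℓ] (P : Type) [Group P]
    [Finite P] (hP : IsPGroup ℓ P) (M : Type) [AddCommGroup M] [Module k M] [FiniteDimensional k M]
    (ρ : Representation k P M) (W : Submodule k M) (hW : ∀ y, ∀ f ∈ W, ρ y f ∈ W)
    {H H' : Subgroup P} (hle : H ≤ H') :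
    Module.finrank k (W ⊓ fixedBy ρ H : Submodule k M) ≤
      H.relIndex H' * Module.finrank k (W ⊓ fixedBy ρ H' : Submodule k M) := by
  let σ : Representation k P W :=
    { toFun := fun y => (ρ y).restrict (hW y)
      map_one' := by
        ext f
        simp [LinearMap.restrict_apply]
      map_mul' := fun y z => by
        ext f
        simp [LinearMap.restrict_apply] }
  have key : ∀ K : Subgroup P, Module.finrank k (W ⊓ fixedBy ρ K : Submodule k M) =
      Module.finrank k (fixedBy σ K) := by
    intro K
    rw [← Submodule.finrank_map_subtype_eq W (fixedBy σ K)]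
    have h1 : (fixedBy σ K).map W.subtype = W ⊓ fixedBy ρ K := by
      ext v
      constructor
      · rintro ⟨w, hw, rfl⟩
        refine ⟨w.2, ?_⟩
        intro y hy
        exact congrArg Subtype.val (hw y hy)
      · rintro ⟨hv, hv'⟩
        refine ⟨⟨v, hv⟩, ?_, rfl⟩
        intro y hy
        exact Subtype.ext (hv' y hy)
    rw [h1]
  rw [key H, key H']
  exact finrank_fixedBy_le k P hP W σ hle

private theorem P2c_card {P Y : Type} [Group P] (π : P → Y) (hπ : Function.Surjective π)
    (H : Subgroup P) (hH : ∀ x y, π x = π y ↔ x⁻¹ * y ∈ H) : Nat.card Y = H.index := by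
  let f : P ⧸ H → Y := fun q => Quotient.liftOn' q π
    (fun a b hab => (hH a b).2 (QuotientGroup.leftRel_apply.1 hab))
  have hf : Function.Bijective f := by
    constructor
    · intro a b
      induction a using QuotientGroup.induction_on with
      | H a =>
        induction b using QuotientGroup.induction_on with
        | H b =>
          intro hab
          exact QuotientGroup.eq.2 ((hH a b).1 hab)
    · intro y
      obtain ⟨x, rfl⟩ := hπ y
      exact ⟨QuotientGroup.mk x, rfl⟩
  rw [Subgroup.index, Nat.card_congr (Equiv.ofBijective f hf)]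

/-- functions on `R × Y` as functions on `R × P` -/
private noncomputable def P2c_iota (k : Type) [Field k] {P : Type} (R : Type) {Y : Type}
    (π : P → Y) : (R × Y → k) →ₗ[k] (R × P → k) where
  toFun := fun f p => f (p.1, π p.2)
  map_add' := fun f g => rfl
  map_smul' := fun c f => rfl

private theorem P2c_iota_inj (k : Type) [Field k] {P : Type} (R : Type) {Y : Type} (π : P → Y)
    (hπ : Function.Surjective π) : Function.Injective (P2c_iota k R π) := by
  intro f g hfg
  ext ⟨r, y⟩
  obtain ⟨x, rfl⟩ := hπ y
  exact congrFun hfg (r, x)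

private theorem P2c_range (k : Type) [Field k] {P : Type} [Group P] (R : Type) {Y : Type} (π : P → Y)
    (hπ : Function.Surjective π) (H : Subgroup P) (hH : ∀ x y, π x = π y ↔ x⁻¹ * y ∈ H) :
    LinearMap.range (P2c_iota k R π) = fixedBy (P2c_rho k P R) H := by
  apply le_antisymm
  · rintro _ ⟨f, rfl⟩ y hy
    ext ⟨r, x⟩
    show f (r, π (x * y)) = f (r, π x)
    have h1 : π (x * y) = π x := by
      rw [hH]
      have h2 : (x * y)⁻¹ * x = y⁻¹ := by group
      rw [h2]
      exact H.inv_mem hy
    rw [h1]
  · intro F hF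
    refine ⟨fun p => F (p.1, Function.surjInv hπ p.2), ?_⟩
    ext ⟨r, x⟩
    show F (r, Function.surjInv hπ (π x)) = F (r, x)
    have h1 : x⁻¹ * Function.surjInv hπ (π x) ∈ H := by
      rw [← hH]
      exact (Function.surjInv_eq hπ (π x)).symm
    have h2 := congrFun (hF _ h1) (r, x)
    have h3 : F (r, x * (x⁻¹ * Function.surjInv hπ (π x))) = F (r, x) := h2
    rw [mul_inv_cancel_left] at h3
    exact h3

/-- the ranks of the powers are stable from the dimension on -/
private theorem P2c_range_pow {k V : Type} [Field k] [AddCommGroup V] [Module k V]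
    [FiniteDimensional k V] (h : V →ₗ[k] V) {m : ℕ} (hm : Module.finrank k V ≤ m) :
    Module.finrank k (LinearMap.range (h ^ m)) = srank h := by
  have h1 := LinearMap.finrank_range_add_finrank_ker (h ^ m)
  have h2 := LinearMap.finrank_range_add_finrank_ker (h ^ Module.finrank k V)
  have h3 : LinearMap.ker (h ^ m) = LinearMap.ker (h ^ Module.finrank k V) :=
    Module.End.ker_pow_eq_ker_pow_finrank_of_le (f := (h : Module.End k V)) hm
  rw [h3] at h1
  unfold srank
  omega

private theorem P2c_disj {k V : Type} [Field k] [AddCommGroup V] [Module k V]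
    [FiniteDimensional k V] (h : V →ₗ[k] V) :
    Disjoint (LinearMap.range (h ^ Module.finrank k V))
      (LinearMap.ker (h ^ Module.finrank k V)) := by
  rw [Submodule.disjoint_def]
  rintro x ⟨y, rfl⟩ hx
  have h1 : y ∈ LinearMap.ker (h ^ (Module.finrank k V + Module.finrank k V)) := by
    rw [LinearMap.mem_ker, pow_add, Module.End.mul_apply]
    exact hx
  have h2 : LinearMap.ker (h ^ (Module.finrank k V + Module.finrank k V)) =
      LinearMap.ker (h ^ Module.finrank k V) :=
    Module.End.ker_pow_eq_ker_pow_finrank_of_le (f := (h : Module.End k V)) (by omega)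
  rw [h2] at h1
  exact h1

private theorem P2c_fit {k M V : Type} [Field k] [AddCommGroup M] [Module k M]
    [FiniteDimensional k M] [AddCommGroup V] [Module k V] [FiniteDimensional k V] (h : M →ₗ[k] M)
    (hY : V →ₗ[k] V) (ι : V →ₗ[k] M) (hι : Function.Injective ι) (hc : ∀ f, h (ι f) = ι (hY f)) :
    Module.finrank k (LinearMap.range (h ^ Module.finrank k M) ⊓ LinearMap.range ι :
      Submodule k M) = srank hY ∧
    Module.finrank k (LinearMap.ker (h ^ Module.finrank k M) ⊓ LinearMap.range ι :
      Submodule k M) + srank hY = Module.finrank k V := by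
  set N := Module.finrank k M with hN
  have hVN : Module.finrank k V ≤ N := LinearMap.finrank_le_finrank_of_injective hι
  have hιh : ∀ (m : ℕ) (f : V), (h ^ m) (ι f) = ι ((hY ^ m) f) := by
    intro m
    induction m with
    | zero => intro f; rfl
    | succ m ih =>
      intro f
      rw [pow_succ, Module.End.mul_apply, pow_succ, Module.End.mul_apply, hc, ih]
  have hr : Module.finrank k (LinearMap.range (hY ^ N)) ≤
      Module.finrank k (LinearMap.range (h ^ N) ⊓ LinearMap.range ι : Submodule k M) := by
    rw [(Submodule.equivMapOfInjective ι hι (LinearMap.range (hY ^ N))).finrank_eq]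
    refine Submodule.finrank_mono ?_
    rintro _ ⟨_, ⟨f, rfl⟩, rfl⟩
    exact ⟨⟨ι f, hιh N f⟩, ⟨_, rfl⟩⟩
  have hk : Module.finrank k (LinearMap.ker (hY ^ N)) ≤
      Module.finrank k (LinearMap.ker (h ^ N) ⊓ LinearMap.range ι : Submodule k M) := by
    rw [(Submodule.equivMapOfInjective ι hι (LinearMap.ker (hY ^ N))).finrank_eq]
    refine Submodule.finrank_mono ?_
    rintro _ ⟨f, hf, rfl⟩
    refine ⟨?_, ⟨_, rfl⟩⟩
    show ι f ∈ LinearMap.ker (h ^ N)
    have hf' : (hY ^ N) f = 0 := hf
    rw [LinearMap.mem_ker, hιh, hf', map_zero]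
  have hrk := LinearMap.finrank_range_add_finrank_ker (hY ^ N)
  have hs0 := P2c_range_pow hY hVN
  have hdisj : Disjoint (LinearMap.range (h ^ N) ⊓ LinearMap.range ι)
      (LinearMap.ker (h ^ N) ⊓ LinearMap.range ι) :=
    (P2c_disj h).mono inf_le_left inf_le_left
  have hab : Module.finrank k (LinearMap.range (h ^ N) ⊓ LinearMap.range ι : Submodule k M) +
      Module.finrank k (LinearMap.ker (h ^ N) ⊓ LinearMap.range ι : Submodule k M) ≤
      Module.finrank k V := by
    have h1 := Submodule.finrank_sup_add_finrank_inf_eq (LinearMap.range (h ^ N) ⊓ LinearMap.range ι)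
      (LinearMap.ker (h ^ N) ⊓ LinearMap.range ι)
    rw [hdisj.eq_bot, finrank_bot, add_zero] at h1
    rw [← h1]
    refine (Submodule.finrank_mono (sup_le inf_le_right inf_le_right)).trans ?_
    exact LinearMap.finrank_range_le ι
  constructor <;> omega

private theorem P2c_ker {k M V : Type} [Field k] [AddCommGroup M] [Module k M]
    [AddCommGroup V] [Module k V] (h : M →ₗ[k] M)
    (hY : V →ₗ[k] V) (ι : V →ₗ[k] M) (hι : Function.Injective ι) (hc : ∀ f, h (ι f) = ι (hY f)) :
    Module.finrank k (LinearMap.ker h ⊓ LinearMap.range ι : Submodule k M) =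
      Module.finrank k (LinearMap.ker hY) := by
  rw [(Submodule.equivMapOfInjective ι hι (LinearMap.ker hY)).finrank_eq]
  have h1 : (LinearMap.ker h ⊓ LinearMap.range ι : Submodule k M) =
      (LinearMap.ker hY).map ι := by
    ext v
    constructor
    · rintro ⟨hv, f, rfl⟩
      refine ⟨f, ?_, rfl⟩
      have h2 : h (ι f) = 0 := hv
      rw [hc] at h2
      show hY f = 0
      exact hι (by rw [h2, map_zero])
    · rintro ⟨f, hf, rfl⟩
      refine ⟨?_, ⟨f, rfl⟩⟩
      show h (ι f) = 0
      have h2 : hY f = 0 := hf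
      rw [hc, h2, map_zero]
  rw [h1]

theorem srank_subgroup (k : Type) [Field k] {ℓ : ℕ} [Fact ℓ.Prime] [CharP k ℓ] (P : Type) [Group P] [Finite P]
    (hP : IsPGroup ℓ P) (R Y : Type) [Finite R] (π : P → Y) (hπ : Function.Surjective π) (H : Subgroup P)
    (hH : ∀ x y, π x = π y ↔ x⁻¹ * y ∈ H) (h : (R × P → k) →ₗ[k] (R × P → k))
    (hY : (R × Y → k) →ₗ[k] (R × Y → k)) (h₀ : (R → k) →ₗ[k] (R → k))
    (hh : ∀ (y : P) (f : R × P → k), h (fun p => f (p.1, p.2 * y)) = fun p => h f (p.1, p.2 * y))
    (hhY : ∀ f : R × Y → k, h (fun p => f (p.1, π p.2)) = fun p => hY f (p.1, π p.2))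
    (hh₀ : ∀ f : R → k, h (fun p => f p.1) = fun p => h₀ f p.1) :
    srank hY = Nat.card Y * srank h₀ := by
  classical
  let _ : Fintype P := Fintype.ofFinite P
  let _ : Fintype R := Fintype.ofFinite R
  have hYf : Finite Y := Finite.of_surjective π hπ
  let _ : Fintype Y := Fintype.ofFinite Y
  set ρ := P2c_rho k P R with hρ
  have hcomm : ∀ (m : ℕ) (y : P) (f : R × P → k), (h ^ m) (ρ y f) = ρ y ((h ^ m) f) := by
    intro m
    induction m with
    | zero => intro y f; rfl
    | succ m ih =>
      intro y f
      rw [pow_succ, Module.End.mul_apply, Module.End.mul_apply]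
      have h1 : h (ρ y f) = ρ y (h f) := hh y f
      rw [h1, ih]
  set N := Module.finrank k (R × P → k) with hN
  have hAst : ∀ y, ∀ f ∈ LinearMap.range (h ^ N), ρ y f ∈ LinearMap.range (h ^ N) := by
    rintro y _ ⟨g, rfl⟩
    exact ⟨ρ y g, hcomm N y g⟩
  have hBst : ∀ y, ∀ f ∈ LinearMap.ker (h ^ N), ρ y f ∈ LinearMap.ker (h ^ N) := by
    intro y f hf
    rw [LinearMap.mem_ker] at hf ⊢
    rw [hcomm, hf, map_zero]
  have hdA := P2c_sub k P hP (R × P → k) ρ _ hAst (le_top : H ≤ ⊤)
  have hdB := P2c_sub k P hP (R × P → k) ρ _ hBst (le_top : H ≤ ⊤)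
  have hidx : H.relIndex ⊤ = Nat.card Y := by
    rw [Subgroup.relIndex_top_right, P2c_card π hπ H hH]
  obtain ⟨a1, a2⟩ := P2c_fit h hY (P2c_iota k R π) (P2c_iota_inj k R π hπ) hhY
  -- the first variable
  let ι₀ : (R → k) →ₗ[k] (R × P → k) :=
    { toFun := fun f p => f p.1
      map_add' := fun f g => rfl
      map_smul' := fun c f => rfl }
  have hι₀ : Function.Injective ι₀ := by
    intro f g hfg
    ext x
    exact congrFun hfg (x, 1)
  have hr₀ : LinearMap.range ι₀ = fixedBy ρ ⊤ := by
    apply le_antisymm
    · rintro _ ⟨f, rfl⟩ y _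
      rfl
    · intro f hf
      refine ⟨fun x => f (x, 1), ?_⟩
      ext ⟨x, y⟩
      have h1 := congrFun (hf y (Subgroup.mem_top y)) (x, 1)
      have h2 : f (x, 1 * y) = f (x, 1) := h1
      show f (x, 1) = f (x, y)
      rw [← h2, one_mul]
  obtain ⟨b1, b2⟩ := P2c_fit h h₀ ι₀ hι₀ hh₀
  rw [P2c_range k R π hπ H hH, ← hρ, ← hN] at a1 a2
  rw [hr₀, ← hN] at b1 b2
  rw [a1, b1, hidx] at hdA
  rw [hidx] at hdB
  have d1 : Module.finrank k (R × Y → k) = Nat.card R * Nat.card Y := by
    rw [Module.finrank_fintype_fun_eq_card, Fintype.card_prod, Nat.card_eq_fintype_card,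
      Nat.card_eq_fintype_card]
  have d2 : Module.finrank k (R → k) = Nat.card R := by
    rw [Module.finrank_fintype_fun_eq_card, Nat.card_eq_fintype_card]
  rw [d1] at a2
  rw [d2] at b2
  refine le_antisymm hdA ?_
  generalize Module.finrank k (LinearMap.ker (h ^ N) ⊓ fixedBy ρ H : Submodule k (R × P → k)) = u
    at a2 hdB
  generalize Module.finrank k (LinearMap.ker (h ^ N) ⊓ fixedBy ρ ⊤ : Submodule k (R × P → k)) = v
    at b2 hdB
  have e1 : Nat.card Y * v + Nat.card Y * srank h₀ = Nat.card R * Nat.card Y := by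
    rw [← mul_add, b2, mul_comm]
  omega

theorem rank_subgroup (k : Type) [Field k] {ℓ : ℕ} [Fact ℓ.Prime] [CharP k ℓ] (P : Type) [Group P] [Finite P]
    (hP : IsPGroup ℓ P) (R Y Y' : Type) [Finite R] (π : P → Y) (hπ : Function.Surjective π)
    (π' : P → Y') (hπ' : Function.Surjective π') (H H' : Subgroup P) (hle : H ≤ H')
    (hH : ∀ x y, π x = π y ↔ x⁻¹ * y ∈ H) (hH' : ∀ x y, π' x = π' y ↔ x⁻¹ * y ∈ H')
    (h : (R × P → k) →ₗ[k] (R × P → k))
    (hY : (R × Y → k) →ₗ[k] (R × Y → k)) (hY' : (R × Y' → k) →ₗ[k] (R × Y' → k))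
    (hh : ∀ (y : P) (f : R × P → k), h (fun p => f (p.1, p.2 * y)) = fun p => h f (p.1, p.2 * y))
    (hhY : ∀ f : R × Y → k, h (fun p => f (p.1, π p.2)) = fun p => hY f (p.1, π p.2))
    (hhY' : ∀ f : R × Y' → k, h (fun p => f (p.1, π' p.2)) = fun p => hY' f (p.1, π' p.2)) :
    Nat.card Y * Module.finrank k (LinearMap.range hY') ≤ Nat.card Y' * Module.finrank k (LinearMap.range hY) := by
  classical
  let _ : Fintype P := Fintype.ofFinite P
  let _ : Fintype R := Fintype.ofFinite R
  have hYf : Finite Y := Finite.of_surjective π hπ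
  let _ : Fintype Y := Fintype.ofFinite Y
  have hYf' : Finite Y' := Finite.of_surjective π' hπ'
  let _ : Fintype Y' := Fintype.ofFinite Y'
  set ρ := P2c_rho k P R with hρ
  have hst : ∀ y, ∀ f ∈ LinearMap.ker h, ρ y f ∈ LinearMap.ker h := by
    intro y f hf
    rw [LinearMap.mem_ker] at hf ⊢
    have h1 : h (ρ y f) = ρ y (h f) := hh y f
    rw [h1, hf, map_zero]
  have hd := P2c_sub k P hP (R × P → k) ρ _ hst hle
  have a1 := P2c_ker h hY (P2c_iota k R π) (P2c_iota_inj k R π hπ) hhY
  have b1 := P2c_ker h hY' (P2c_iota k R π') (P2c_iota_inj k R π' hπ') hhY'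
  rw [P2c_range k R π hπ H hH, ← hρ] at a1
  rw [P2c_range k R π' hπ' H' hH', ← hρ] at b1
  rw [a1, b1] at hd
  have c1 := P2c_card π hπ H hH
  have c2 := P2c_card π' hπ' H' hH'
  have c3 := Subgroup.relIndex_mul_index hle
  rw [← c1, ← c2] at c3
  have d1 : Module.finrank k (R × Y → k) = Nat.card R * Nat.card Y := by
    rw [Module.finrank_fintype_fun_eq_card, Fintype.card_prod, Nat.card_eq_fintype_card,
      Nat.card_eq_fintype_card]
  have d2 : Module.finrank k (R × Y' → k) = Nat.card R * Nat.card Y' := by
    rw [Module.finrank_fintype_fun_eq_card, Fintype.card_prod, Nat.card_eq_fintype_card,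
      Nat.card_eq_fintype_card]
  have e1 := LinearMap.finrank_range_add_finrank_ker hY
  have e2 := LinearMap.finrank_range_add_finrank_ker hY'
  rw [d1] at e1
  rw [d2] at e2
  generalize Module.finrank k (LinearMap.range hY) = u at *
  generalize Module.finrank k (LinearMap.range hY') = u' at *
  generalize Module.finrank k (LinearMap.ker hY) = v at *
  generalize Module.finrank k (LinearMap.ker hY') = v' at *
  generalize H.relIndex H' = s at *
  generalize Nat.card Y' = y' at *
  have f1 : s * u' ≤ u := by
    have f2 : s * u' + s * v' = Nat.card R * Nat.card Y := by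
      rw [← mul_add, e2, ← c3]
      ring
    omega
  calc Nat.card Y * u' = y' * (s * u') := by rw [← c3]; ring
    _ ≤ y' * u := Nat.mul_le_mul_left _ f1

end Pool.Agent.Lib.MP_666dc0_nt.ZO
end

section

/-!
TASK Q2a. Orthonormal bases of subspaces over `ℚ̄_ℓ` (`𝕂 = PadicAlgCl ℓ`, the norm is ultrametric), for the maximum norm.

Induction on the dimension `w` of `W ≤ (Fin t → 𝕂)` (prove: for all `w` and all `W` with `finrank W = w` there is `q : Fin w → ..` with the properties). `w = 0`: clear. Otherwise take `v ∈ W`, `v ≠ 0`, and divide it by a coordinate `v b₀` of maximal norm: `q₀ ∈ W` with `q₀ b₀ = 1` and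
`‖q₀ b‖ ≤ 1` for all `b`. Let `W' = {v ∈ W | v b₀ = 0}`, of dimension `w - 1` (`W = W' ⊕ 𝕂 q₀`: `v = (v - v b₀ • q₀) + v b₀ • q₀`), with the basis `q₁, …` by induction. All properties are clear except the last one: let `v = c₀ q₀ + ∑ c_i q_i` and `‖v b‖ ≤ C` for all `b`. The coordinate `b₀` gives `‖c₀‖ ≤ C`,
so `v - c₀ q₀ = ∑ c_i q_i` also has all coordinates of norm `≤ C` (ultrametric, `‖q₀ b‖ ≤ 1`), and the induction hypothesis applies. The elements span `W`, so they are linearly independent (the number is the dimension), or use the last property with `C = 0`.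

TASK Q2a, second theorem. Dual points: by induction on `w` or: the rows `x ↦ (q j x)_j` span `Fin w → K` (otherwise there is a non-zero linear form which vanishes on all rows, a relation between the `q j`), so `w` of the rows `x_1, …, x_w` form a basis, the matrix `(q j (x_l))_{l j}` is invertible, and `A` is its inverse.
-/

namespace Pool.Agent.Lib.MP_666dc0_nt.ZO

private theorem Q2a_aux {K : Type*} [NormedField K] [IsUltrametricDist K] {t : ℕ} :
    ∀ (w : ℕ) (W : Submodule K (Fin t → K)), Module.finrank K W = w →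
    ∃ q : Fin w → Fin t → K, Submodule.span K (Set.range q) = W ∧
      (∀ i b, ‖q i b‖ ≤ 1) ∧
      ∀ (c : Fin w → K) (C : ℝ), 0 ≤ C →
        (∀ b, ‖∑ i, c i * q i b‖ ≤ C) → ∀ i, ‖c i‖ ≤ C := by
  intro w
  induction w with
  | zero =>
    intro W hW
    refine ⟨Fin.elim0, ?_, fun i => i.elim0, fun c C _ _ i => i.elim0⟩
    rw [Submodule.finrank_eq_zero] at hW
    rw [hW]
    simp [Set.range_eq_empty]
  | succ w ih =>
    intro W hW
    have hne : W ≠ ⊥ := by
      intro h
      rw [h, finrank_bot] at hW
      omega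
    obtain ⟨v, hv, hv0⟩ := Submodule.exists_mem_ne_zero_of_ne_bot hne
    have : Nonempty (Fin t) := by
      by_contra h
      rw [not_nonempty_iff] at h
      exact hv0 (Subsingleton.elim _ _)
    obtain ⟨b₀, hb₀⟩ := Finite.exists_max (fun b => ‖v b‖)
    have hvb : v b₀ ≠ 0 := by
      intro h
      apply hv0
      funext b
      have := hb₀ b
      rw [h, norm_zero] at this
      simpa using this
    set q₀ : Fin t → K := (v b₀)⁻¹ • v with hq₀
    have hq₀W : q₀ ∈ W := W.smul_mem _ hv
    have hq₀1 : q₀ b₀ = 1 := by simp [hq₀, hvb]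
    have hq₀n : ∀ b, ‖q₀ b‖ ≤ 1 := by
      intro b
      simp only [hq₀, Pi.smul_apply, smul_eq_mul, norm_mul, norm_inv]
      rw [inv_mul_le_iff₀ (norm_pos_iff.2 hvb), mul_one]
      exact hb₀ b
    let L : W →ₗ[K] K := (LinearMap.proj b₀).comp W.subtype
    have hLs : Function.Surjective L := by
      intro c
      refine ⟨c • ⟨q₀, hq₀W⟩, ?_⟩
      simp [L, hq₀1]
    have hrank := LinearMap.finrank_range_add_finrank_ker L
    rw [LinearMap.range_eq_top.2 hLs, finrank_top, Module.finrank_self, hW] at hrank
    set W' : Submodule K (Fin t → K) := (LinearMap.ker L).map W.subtype with hW'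
    have hW'r : Module.finrank K W' = w := by
      rw [hW', Submodule.finrank_map_subtype_eq]
      omega
    have hmem : ∀ u, u ∈ W' ↔ u ∈ W ∧ u b₀ = 0 := by
      intro u
      rw [hW']
      constructor
      · rintro ⟨⟨y, hy⟩, hy2, rfl⟩
        exact ⟨hy, by simpa [L] using hy2⟩
      · rintro ⟨h1, h2⟩
        exact ⟨⟨u, h1⟩, by simpa [L] using h2, rfl⟩
    obtain ⟨q', hs, hn, hc⟩ := ih W' hW'r
    refine ⟨Fin.cons q₀ q', ?_, ?_, ?_⟩
    · rw [Fin.range_cons, Submodule.span_insert, hs]
      apply le_antisymm
      · rw [sup_le_iff]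
        refine ⟨?_, fun u hu => ((hmem u).1 hu).1⟩
        rw [Submodule.span_singleton_le_iff_mem]
        exact hq₀W
      · intro u hu
        rw [Submodule.mem_sup]
        refine ⟨u b₀ • q₀, Submodule.smul_mem _ _ (Submodule.mem_span_singleton_self _),
          u - u b₀ • q₀, ?_, by abel⟩
        rw [hmem]
        refine ⟨W.sub_mem hu (W.smul_mem _ hq₀W), ?_⟩
        simp [hq₀1]
    · intro i b
      refine Fin.cases ?_ ?_ i
      · simpa using hq₀n b
      · intro j
        simpa using hn j b
    · intro c C hC h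
      have h0 : ∀ j, q' j b₀ = 0 := by
        intro j
        have : q' j ∈ W' := by
          rw [← hs]
          exact Submodule.subset_span ⟨j, rfl⟩
        exact ((hmem _).1 this).2
      have e : ∀ b, ∑ i, c i * (Fin.cons q₀ q' : Fin (w + 1) → Fin t → K) i b =
          c 0 * q₀ b + ∑ j, c (Fin.succ j) * q' j b := by
        intro b
        rw [Fin.sum_univ_succ]
        simp
      have hc0 : ‖c 0‖ ≤ C := by
        have h1 := h b₀
        rw [e b₀] at h1
        simpa [h0, hq₀1] using h1
      have h2 : ∀ b, ‖∑ j, c (Fin.succ j) * q' j b‖ ≤ C := by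
        intro b
        have h3 : ∑ j, c (Fin.succ j) * q' j b =
            (∑ i, c i * (Fin.cons q₀ q' : Fin (w + 1) → Fin t → K) i b) - c 0 * q₀ b := by
          rw [e b]; ring
        rw [h3]
        rw [sub_eq_add_neg]
        refine (IsUltrametricDist.norm_add_le_max _ _).trans (max_le (h b) ?_)
        rw [norm_neg, norm_mul]
        calc ‖c 0‖ * ‖q₀ b‖ ≤ C * 1 := mul_le_mul hc0 (hq₀n b) (norm_nonneg _) hC
          _ = C := mul_one C
      intro i
      refine Fin.cases hc0 ?_ i
      intro j
      exact hc (fun j => c (Fin.succ j)) C hC h2 j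

theorem exists_orthonormal {ℓ : ℕ} [Fact ℓ.Prime] {t : ℕ} (W : Submodule (PadicAlgCl ℓ) (Fin t → PadicAlgCl ℓ)) :
    ∃ q : Fin (Module.finrank (PadicAlgCl ℓ) W) → Fin t → PadicAlgCl ℓ,
      LinearIndependent (PadicAlgCl ℓ) q ∧ Submodule.span (PadicAlgCl ℓ) (Set.range q) = W ∧
      (∀ i b, ‖q i b‖ ≤ 1) ∧
      ∀ (c : Fin (Module.finrank (PadicAlgCl ℓ) W) → PadicAlgCl ℓ) (C : ℝ), 0 ≤ C →
        (∀ b, ‖∑ i, c i * q i b‖ ≤ C) → ∀ i, ‖c i‖ ≤ C := by
  obtain ⟨q, h1, h2, h3⟩ := Q2a_aux (K := PadicAlgCl ℓ) _ W rfl
  refine ⟨q, ?_, h1, h2, h3⟩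
  rw [Fintype.linearIndependent_iff]
  intro c hc i
  have h4 : ∀ b, ‖∑ i, c i * q i b‖ ≤ 0 := by
    intro b
    have h5 := congrFun hc b
    have h6 : ∑ i, c i * q i b = 0 := by
      simpa [Finset.sum_apply] using h5
    rw [h6, norm_zero]
  exact norm_le_zero_iff.1 (h3 c 0 le_rfl h4 i)

theorem exists_points {k X : Type} [Field k] {w : ℕ} (q : Fin w → X → k) (h : LinearIndependent k q) :
    ∃ (x : Fin w → X) (A : Matrix (Fin w) (Fin w) k),
      ∀ i j, ∑ l, A i l * q j (x l) = if i = j then 1 else 0 := by
  classical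
  have htop : Submodule.span k (Set.range (fun (x : X) (j : Fin w) => q j x)) = ⊤ := by
    by_contra hne
    obtain ⟨f, hf0, hf⟩ := Submodule.exists_le_ker_of_lt_top _ (lt_top_iff_ne_top.2 hne)
    apply hf0
    have hz : ∀ j, f (Pi.single j 1) = 0 := by
      rw [Fintype.linearIndependent_iff] at h
      apply h (fun j => f (Pi.single j 1))
      funext x
      have h1 : f (fun j => q j x) = 0 := hf (Submodule.subset_span ⟨x, rfl⟩)
      have h2 : (fun j => q j x) = ∑ j, q j x • (Pi.single j (1 : k) : Fin w → k) := by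
        funext i
        simp [Finset.sum_apply, Pi.single_apply]
      rw [h2, map_sum] at h1
      simp only [map_smul, smul_eq_mul] at h1
      simp only [Finset.sum_apply, Pi.smul_apply, smul_eq_mul, Pi.zero_apply]
      rw [← h1]
      exact Finset.sum_congr rfl (fun j _ => mul_comm _ _)
    apply LinearMap.pi_ext'
    intro j
    apply LinearMap.ext_ring
    simpa using hz j
  obtain ⟨f, hf1, hf2, hf3⟩ := Submodule.exists_fun_fin_finrank_span_eq k
    (Set.range (fun (x : X) (j : Fin w) => q j x))
  have hw : Module.finrank k (Submodule.span k (Set.range (fun (x : X) (j : Fin w) => q j x))) = w := by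
    rw [htop, finrank_top, Module.finrank_fin_fun]
  let e : Fin w ≃ Fin (Module.finrank k (Submodule.span k (Set.range (fun (x : X) (j : Fin w) => q j x)))) :=
    finCongr hw.symm
  choose y hy using hf1
  have hli : LinearIndependent k (fun l => f (e l)) := hf3.comp e e.injective
  let M : Matrix (Fin w) (Fin w) k := Matrix.of (fun l j => q j (y (e l)))
  have hM : LinearIndependent k M.row := by
    have h1 : M.row = fun l => f (e l) := by
      funext l
      exact hy (e l)
    rw [h1]
    exact hli
  have hU : IsUnit M := Matrix.linearIndependent_rows_iff_isUnit.1 hM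
  refine ⟨fun l => y (e l), M⁻¹, ?_⟩
  intro i j
  have h2 : M⁻¹ * M = 1 := Matrix.nonsing_inv_mul M ((Matrix.isUnit_iff_isUnit_det M).1 hU)
  have h3 := congrFun (congrFun h2 i) j
  rw [Matrix.mul_apply, Matrix.one_apply] at h3
  exact h3

end Pool.Agent.Lib.MP_666dc0_nt.ZO
end

section

/-!
TASK L2. The number of the eigenvalues of norm `1` of an integral diagonalisable matrix is the stable rank of its reduction.

`𝕂 = PadicAlgCl ℓ` (algebraically closed), `m = |X|`, `H` an `X × X` matrix with entries of norm `≤ 1`, `W₁` (`W₂`) the span of the eigenvectors with eigenvalue of norm `1` (of norm `< 1`), `W₁ ⊔ W₂ = ⊤`. Choose a basis of eigenvectors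
(from the spanning set of eigenvectors: `exists_linearIndependent'`/`Submodule.exists_...`; the eigenvectors for norm `1` and those for norm `< 1` are independent: `W₁ ⊓ W₂ = ⊥` because the eigenspaces are independent, `Module.End.eigenspaces_iSupIndep`). So
`charpoly H = ∏ (T - a_i)` over `𝕂` with exactly `dim W₁` factors with `‖a_i‖ = 1`, and `m - dim W₁` factors with `‖a_i‖ < 1`. All coefficients are integral; apply the reduction (write `H = H'.map` for a matrix `H'` over `OK ℓ`, `Matrix.charpoly_map`, and `∏ (T - a_i)` over `OK ℓ` by injectivity):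
`charpoly (H mod) = ∏ (T - app a_i)`, the order of `0` as a root is `m - dim W₁` (`app a = 0 ↔ ‖a‖ < 1`). And `finrank (maxGenEigenspace 0) = natTrailingDegree charpoly` (`LinearMap.finrank_maxGenEigenspace_zero_eq`), that is `dim ker (Hmod ^ m)`; so
`srank (H mod) = m - (m - dim W₁) = dim W₁`.
Alternative: a direct proof without characteristic polynomials: `dim W₁ = rank of the idempotent lim H^(N_j)`, ... any proof is welcome.
-/

namespace Pool.Agent.Lib.MP_666dc0_nt.ZO

open Polynomial in
/-- The stable rank of an endomorphism whose characteristic polynomial splits. -/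
private lemma srank_of_charpoly {k : Type} [Field k] {X ι : Type} [Fintype X] [DecidableEq X] [Fintype ι]
    (A : Matrix X X k) (c : ι → k) (h : A.charpoly = ∏ i, (Polynomial.X - C (c i))) [DecidablePred fun i => c i ≠ 0] :
    srank (Matrix.toLin' A) = (Finset.univ.filter fun i => c i ≠ 0).card := by
  classical
  set f : Module.End k (X → k) := Matrix.toLin' A with hf
  have h1 : LinearMap.ker (f ^ Module.finrank k (X → k)) = f.maxGenEigenspace 0 := by
    rw [Module.End.maxGenEigenspace_eq_genEigenspace_finrank, Module.End.genEigenspace_zero_nat]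
  have h2 := LinearMap.finrank_range_add_finrank_ker (f ^ Module.finrank k (X → k))
  rw [h1, LinearMap.finrank_maxGenEigenspace_eq] at h2
  have h3 : f.charpoly = ∏ i, (Polynomial.X - C (c i)) := by
    rw [hf, Matrix.charpoly_toLin', h]
  have hroots : f.charpoly.roots = (Finset.univ : Finset ι).val.map c := by
    rw [h3]
    have := Polynomial.roots_multiset_prod_X_sub_C ((Finset.univ : Finset ι).val.map c)
    rw [Multiset.map_map] at this
    exact this
  have h4 : f.charpoly.rootMultiplicity 0 = (Finset.univ.filter fun i => c i = 0).card := by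
    rw [← Polynomial.count_roots, hroots, Multiset.count_map, Finset.card_def, Finset.filter_val]
    congr 1
    apply Multiset.filter_congr
    intro x _
    exact eq_comm
  have h5 : Module.finrank k (X → k) = Fintype.card ι := by
    have h6 : f.charpoly.natDegree = Module.finrank k (X → k) := LinearMap.charpoly_natDegree f
    rw [← h6, h3, Polynomial.natDegree_prod_of_monic _ _ (fun i _ => Polynomial.monic_X_sub_C _)]
    simp
  have h7 := Finset.card_filter_add_card_filter_not (s := (Finset.univ : Finset ι)) (fun i => c i = 0)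
  unfold srank
  rw [Finset.card_univ] at h7
  have h8 : (Finset.univ.filter fun i => ¬ c i = 0).card = (Finset.univ.filter fun i => c i ≠ 0).card := by
    congr
  omega

theorem finrank_unit_eq_srank {ℓ : ℕ} [Fact ℓ.Prime] {k : Type} [Field k] (ρ : Red ℓ k) {X : Type} [Fintype X]
    [DecidableEq X] (H : Matrix X X (PadicAlgCl ℓ)) (hH : ∀ i j, ‖H i j‖ ≤ 1)
    (W₁ W₂ : Submodule (PadicAlgCl ℓ) (X → PadicAlgCl ℓ))
    (h1 : W₁ = Submodule.span (PadicAlgCl ℓ) {v | ∃ a : PadicAlgCl ℓ, ‖a‖ = 1 ∧ H.mulVec v = a • v})
    (h2 : W₂ = Submodule.span (PadicAlgCl ℓ) {v | ∃ a : PadicAlgCl ℓ, ‖a‖ < 1 ∧ H.mulVec v = a • v})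
    (h : W₁ ⊔ W₂ = ⊤) :
    Module.finrank (PadicAlgCl ℓ) W₁ = srank (Matrix.toLin' (H.map ρ.app)) := by
  classical
  -- a basis of eigenvectors
  set S : Set (X → PadicAlgCl ℓ) := {v | ∃ a : PadicAlgCl ℓ, ‖a‖ ≤ 1 ∧ H.mulVec v = a • v} with hS
  have hspan : ⊤ ≤ Submodule.span (PadicAlgCl ℓ) S := by
    rw [← h, h1, h2]
    refine sup_le (Submodule.span_mono ?_) (Submodule.span_mono ?_)
    · rintro v ⟨a, ha, hv⟩
      exact ⟨a, ha.le, hv⟩
    · rintro v ⟨a, ha, hv⟩
      exact ⟨a, ha.le, hv⟩
  set b0 := Module.Basis.ofSpan hspan with hb0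
  have hfin := FiniteDimensional.fintypeBasisIndex b0
  obtain ⟨ι, hι, ⟨b, hbS⟩⟩ : ∃ (ι : Type) (_ : Fintype ι),
      ∃ b : Module.Basis ι (PadicAlgCl ℓ) (X → PadicAlgCl ℓ), ∀ i, b i ∈ S :=
    ⟨_, hfin, b0, fun i => Module.Basis.ofSpan_subset hspan ⟨i, rfl⟩⟩
  choose a ha hab using hbS
  -- the characteristic polynomial
  have hmat : LinearMap.toMatrix b b (Matrix.toLin' H) = Matrix.diagonal a := by
    ext i j
    rw [LinearMap.toMatrix_apply, Matrix.toLin'_apply, hab, map_smul, Module.Basis.repr_self,
      Matrix.diagonal_apply]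
    by_cases hij : i = j
    · subst hij
      simp
    · rw [if_neg hij]
      simp [Ne.symm hij]
  have hchar : H.charpoly = ∏ i, (Polynomial.X - Polynomial.C (a i)) := by
    rw [← Matrix.charpoly_toLin' H, ← LinearMap.charpoly_toMatrix (Matrix.toLin' H) b, hmat,
      Matrix.charpoly_diagonal]
  -- reduction
  set H' : Matrix X X (OK ℓ) := fun i j => ⟨H i j, hH i j⟩ with hH'
  set a' : ι → OK ℓ := fun i => ⟨a i, ha i⟩ with ha'
  have hmapH : H'.map (OK ℓ).subtype = H := by
    ext i j
    rfl
  have hmapH2 : H'.map ρ.hom = H.map ρ.app := by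
    ext i j
    change ρ.hom ⟨H i j, hH i j⟩ = ρ.app (H i j)
    unfold Red.app
    rw [dif_pos (hH i j)]
  have hchar' : H'.charpoly = ∏ i, (Polynomial.X - Polynomial.C (a' i)) := by
    apply Polynomial.map_injective (OK ℓ).subtype Subtype.val_injective
    rw [← Matrix.charpoly_map, hmapH, hchar, Polynomial.map_prod]
    refine Finset.prod_congr rfl fun i _ => ?_
    rw [Polynomial.map_sub, Polynomial.map_X, Polynomial.map_C]
    rfl
  have hchar2 : (H.map ρ.app).charpoly = ∏ i, (Polynomial.X - Polynomial.C (ρ.hom (a' i))) := by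
    rw [← hmapH2, Matrix.charpoly_map, hchar', Polynomial.map_prod]
    refine Finset.prod_congr rfl fun i _ => ?_
    rw [Polynomial.map_sub, Polynomial.map_X, Polynomial.map_C]
  rw [srank_of_charpoly _ _ hchar2]
  -- the first space
  have hW : W₁ = Submodule.span (PadicAlgCl ℓ) (Set.range fun i : {i // ρ.hom (a' i) ≠ 0} => b i.1) := by
    rw [h1]
    have hone : ∀ i, ρ.hom (a' i) ≠ 0 ↔ ‖a i‖ = 1 := by
      intro i
      rw [Ne, ρ.ker]
      constructor
      · intro h
        exact le_antisymm (ha i) (not_lt.mp h)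
      · intro h
        exact not_lt.mpr h.ge
    apply le_antisymm
    · refine Submodule.span_le.mpr ?_
      rintro v ⟨e, he, hv⟩
      have hcoef : ∀ i, b.repr v i * a i = e * b.repr v i := by
        intro i
        have h3 := congrArg (fun w => b.repr w i) hv
        simp only [map_smul, Finsupp.smul_apply, smul_eq_mul] at h3
        rw [← h3]
        have h4 : v = ∑ j, b.repr v j • b j := (b.sum_repr v).symm
        conv_rhs => rw [h4]
        rw [Matrix.mulVec_sum]
        simp only [Matrix.mulVec_smul, hab, map_sum, map_smul, Module.Basis.repr_self,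
          Finsupp.coe_finsetSum, Finset.sum_apply, Finsupp.smul_apply, smul_eq_mul]
        rw [Finset.sum_eq_single i]
        · simp
        · intro j _ hj
          simp [hj]
        · intro hi
          exact absurd (Finset.mem_univ i) hi
      have h5 : v = ∑ j, b.repr v j • b j := (b.sum_repr v).symm
      rw [SetLike.mem_coe, h5]
      refine Submodule.sum_mem _ fun i _ => ?_
      by_cases hi : b.repr v i = 0
      · rw [hi, zero_smul]
        exact Submodule.zero_mem _
      · have h6 : a i = e := by
          have := hcoef i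
          rw [mul_comm e] at this
          exact mul_left_cancel₀ hi this
        refine Submodule.smul_mem _ _ (Submodule.subset_span ⟨⟨i, ?_⟩, rfl⟩)
        rw [hone, h6, he]
    · refine Submodule.span_mono ?_
      rintro _ ⟨⟨i, hi⟩, rfl⟩
      exact ⟨a i, (hone i).mp hi, hab i⟩
  have hli : LinearIndependent (PadicAlgCl ℓ) (fun i : {i // ρ.hom (a' i) ≠ 0} => b i.1) :=
    b.linearIndependent.comp _ Subtype.val_injective
  rw [hW, finrank_span_eq_card hli, Fintype.card_subtype]

end Pool.Agent.Lib.MP_666dc0_nt.ZO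
end
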