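import Mathlib
import Pool.Agent.Lib.MP_666dc0_nt.FM.BDefs
import Pool.Agent.Lib.MP_666dc0_nt.ZO.L1

section

/-!
TASK B2b. The rank of an operator on `WI J ρ` is at least `w` times the rank of its reduction on functions on `G ⧸ J`.

For `f : G ⧸ J → k` and `j` there is an integral `Φ ∈ WI J ρ` with `app (Φ x i) = f (x J)` for `i = j` and `0` for `i ≠ j`: `Φ x = (ρ (x⁻¹ * out (x J))).mulVec (F (x J) e_j)` with an
integral lift `F` of `f`. Take `f_1, .., f_m` with `h f_a` a basis of the range of `h`, and the `m w` elements `A Φ_(a,j)`: their reductions are independent, so they are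
(`linearIndependent_of_app` of L1, for the functions on `(G ⧸ J) × Fin w` of the values at the points `out y`).
-/

namespace Pool.Agent.Lib.MP_666dc0_nt.FM

open ZO

section WIeq

variable {ℓ : ℕ} [Fact ℓ.Prime] {G : Type} [Group G] {w : ℕ}
    (ρ : G →* Matrix (Fin w) (Fin w) (PadicAlgCl ℓ)) (J : Subgroup G)

private theorem B2b_out_mul (y : G ⧸ J) : (QuotientGroup.mk (Quotient.out y) : G ⧸ J) = y :=
  QuotientGroup.out_eq' y

private theorem B2b_mem (x : G) : (Quotient.out (QuotientGroup.mk x : G ⧸ J))⁻¹ * x ∈ J := by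
  have h1 : (QuotientGroup.mk (Quotient.out (QuotientGroup.mk x : G ⧸ J)) : G ⧸ J) = QuotientGroup.mk x :=
    QuotientGroup.out_eq' _
  exact QuotientGroup.eq.1 h1

/-- the element of `WI J ρ` with the given values at the representatives -/
private noncomputable def B2b_ext (F : (G ⧸ J) → Fin w → PadicAlgCl ℓ) : WI J ρ :=
  ⟨fun x => (ρ (x⁻¹ * Quotient.out (QuotientGroup.mk x : G ⧸ J))).mulVec (F (QuotientGroup.mk x)), by
    intro x k hk
    have h1 : (QuotientGroup.mk (x * k) : G ⧸ J) = QuotientGroup.mk x := by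
      rw [QuotientGroup.eq]
      have h2 : (x * k)⁻¹ * x = k⁻¹ := by group
      rw [h2]
      exact J.inv_mem hk
    change (ρ ((x * k)⁻¹ * Quotient.out (QuotientGroup.mk (x * k) : G ⧸ J))).mulVec
      (F (QuotientGroup.mk (x * k))) = (ρ k⁻¹).mulVec
        ((ρ (x⁻¹ * Quotient.out (QuotientGroup.mk x : G ⧸ J))).mulVec (F (QuotientGroup.mk x)))
    rw [h1, Matrix.mulVec_mulVec, ← map_mul, mul_inv_rev, mul_assoc]⟩

private theorem B2b_ext_apply (F : (G ⧸ J) → Fin w → PadicAlgCl ℓ) (x : G) :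
    (B2b_ext ρ J F).1 x =
      (ρ (x⁻¹ * Quotient.out (QuotientGroup.mk x : G ⧸ J))).mulVec (F (QuotientGroup.mk x)) := rfl

private theorem B2b_ext_out (F : (G ⧸ J) → Fin w → PadicAlgCl ℓ) (y : G ⧸ J) :
    (B2b_ext ρ J F).1 (Quotient.out y) = F y := by
  rw [B2b_ext_apply, B2b_out_mul, inv_mul_cancel, map_one, Matrix.one_mulVec]

private theorem B2b_val (Φ : WI J ρ) (x : G) :
    Φ.1 x = (ρ (x⁻¹ * Quotient.out (QuotientGroup.mk x : G ⧸ J))).mulVec
      (Φ.1 (Quotient.out (QuotientGroup.mk x : G ⧸ J))) := by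
  have h1 := Φ.2 (Quotient.out (QuotientGroup.mk x : G ⧸ J)) _ (B2b_mem J x)
  rw [mul_inv_cancel_left, mul_inv_rev, inv_inv] at h1
  exact h1

/-- the values at the representatives -/
private noncomputable def B2b_eq : WI J ρ ≃ₗ[PadicAlgCl ℓ] ((G ⧸ J) × Fin w → PadicAlgCl ℓ) where
  toFun := fun Φ p => Φ.1 (Quotient.out p.1) p.2
  map_add' := fun _ _ => rfl
  map_smul' := fun _ _ => rfl
  invFun := fun F => B2b_ext ρ J fun y j => F (y, j)
  left_inv := fun Φ => by
    refine Subtype.ext ?_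
    funext x
    rw [B2b_ext_apply, B2b_val ρ J Φ x]
  right_inv := fun F => by
    funext p
    change (B2b_ext ρ J fun y j => F (y, j)).1 (Quotient.out p.1) p.2 = F p
    rw [B2b_ext_out]

end WIeq

theorem finrank_WI' {ℓ : ℕ} [Fact ℓ.Prime] {G : Type} [Group G] {w : ℕ}
    (ρ : G →* Matrix (Fin w) (Fin w) (PadicAlgCl ℓ)) (J : Subgroup G) [J.FiniteIndex] :
    FiniteDimensional (PadicAlgCl ℓ) (WI J ρ) ∧ Module.finrank (PadicAlgCl ℓ) (WI J ρ) = J.index * w := by
  classical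
  let _ : Fintype (G ⧸ J) := Fintype.ofFinite _
  refine ⟨(B2b_eq ρ J).symm.finiteDimensional, ?_⟩
  rw [(B2b_eq ρ J).finrank_eq, Module.finrank_fintype_fun_eq_card, Fintype.card_prod, Fintype.card_fin,
    Subgroup.index, Nat.card_eq_fintype_card]

theorem rank_red {ℓ : ℕ} [Fact ℓ.Prime] {k : Type} [Field k] (r : Red ℓ k) {G : Type} [Group G] {w : ℕ}
    (ρ : G →* Matrix (Fin w) (Fin w) (PadicAlgCl ℓ))
    (hρ : ∀ g i j, ‖ρ g i j - (1 : Matrix (Fin w) (Fin w) (PadicAlgCl ℓ)) i j‖ ≤ (ℓ : ℝ)⁻¹)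
    (J : Subgroup G) [J.FiniteIndex] (A : WI J ρ →ₗ[PadicAlgCl ℓ] WI J ρ)
    (h : ((G ⧸ J) → k) →ₗ[k] ((G ⧸ J) → k))
    (hA : ∀ Φ : WI J ρ, (∀ x j, ‖Φ.1 x j‖ ≤ 1) → (∀ x j, ‖(A Φ).1 x j‖ ≤ 1) ∧
      ∀ (x : G) (j : Fin w), r.app ((A Φ).1 x j) = h (fun y => r.app (Φ.1 (Quotient.out y) j)) (QuotientGroup.mk x)) :
    w * Module.finrank k (LinearMap.range h) ≤ Module.finrank (PadicAlgCl ℓ) (LinearMap.range A) := by
  classical
  obtain ⟨hfd, -⟩ := finrank_WI' ρ J
  have hfin : Finite (G ⧸ J) := inferInstance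
  let _ : Fintype (G ⧸ J) := Fintype.ofFinite _
  have hl1 : (ℓ : ℝ)⁻¹ < 1 := inv_lt_one_of_one_lt₀ (by exact_mod_cast (Fact.out : ℓ.Prime).one_lt)
  -- the entries of the matrices
  have hone : ∀ i j, ‖(1 : Matrix (Fin w) (Fin w) (PadicAlgCl ℓ)) i j‖ ≤ 1 := by
    intro i j
    rw [Matrix.one_apply]
    split_ifs
    · rw [norm_one]
    · rw [norm_zero]; exact zero_le_one
  have hρ1 : ∀ g i j, ‖ρ g i j‖ ≤ 1 := by
    intro g i j
    have h1 : ρ g i j = (ρ g i j - (1 : Matrix (Fin w) (Fin w) (PadicAlgCl ℓ)) i j) +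
        (1 : Matrix (Fin w) (Fin w) (PadicAlgCl ℓ)) i j := by ring
    rw [h1]
    exact (IsUltrametricDist.norm_add_le_max _ _).trans (max_le ((hρ g i j).trans hl1.le) (hone i j))
  have happ : ∀ g i j, r.app (ρ g i j) = if i = j then 1 else 0 := by
    intro g i j
    rw [r.app_eq (hρ1 g i j) ((hρ g i j).trans_lt hl1), Matrix.one_apply]
    split_ifs
    · exact r.app_one
    · exact r.app_zero
  -- a basis of the range
  set m := Module.finrank k (LinearMap.range h) with hm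
  let bas := Module.finBasisOfFinrankEq k (LinearMap.range h) hm.symm
  have hv : ∀ a : Fin m, ∃ f : (G ⧸ J) → k, h f = (bas a : (G ⧸ J) → k) := fun a => (bas a).2
  choose v hv using hv
  have hli : LinearIndependent k fun a : Fin m => h (v a) := by
    have h1 := bas.linearIndependent.map' (LinearMap.range h).subtype (Submodule.ker_subtype _)
    have h2 : (fun a : Fin m => h (v a)) = (LinearMap.range h).subtype ∘ bas := by
      funext a
      exact hv a
    rw [h2]
    exact h1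
  -- the lifts
  choose L hL1 hL2 using fun a : k => r.exists_lift a
  let Φ : Fin m × Fin w → WI J ρ := fun p => B2b_ext ρ J fun y j => if j = p.2 then L (v p.1 y) else 0
  have hΦ : ∀ p x i, (Φ p).1 x i = ρ (x⁻¹ * Quotient.out (QuotientGroup.mk x : G ⧸ J)) i p.2 *
      L (v p.1 (QuotientGroup.mk x)) := by
    intro p x i
    change (B2b_ext ρ J _).1 x i = _
    rw [B2b_ext_apply]
    change ∑ j, ρ (x⁻¹ * Quotient.out (QuotientGroup.mk x : G ⧸ J)) i j *
      (if j = p.2 then L (v p.1 (QuotientGroup.mk x)) else 0) = _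
    rw [Finset.sum_eq_single p.2]
    · rw [if_pos rfl]
    · intro j _ hj
      rw [if_neg hj, mul_zero]
    · intro hj
      exact absurd (Finset.mem_univ _) hj
  have hΦ1 : ∀ p x i, ‖(Φ p).1 x i‖ ≤ 1 := by
    intro p x i
    rw [hΦ, norm_mul]
    exact mul_le_one₀ (hρ1 _ _ _) (norm_nonneg _) (hL1 _)
  have hΦ2 : ∀ p x i, r.app ((Φ p).1 x i) = if i = p.2 then v p.1 (QuotientGroup.mk x) else 0 := by
    intro p x i
    rw [hΦ, r.app_mul (hρ1 _ _ _) (hL1 _), happ, hL2]
    split_ifs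
    · rw [one_mul]
    · rw [zero_mul]
  have hAΦ : ∀ p x i, r.app ((A (Φ p)).1 x i) = if i = p.2 then h (v p.1) (QuotientGroup.mk x) else 0 := by
    intro p x i
    rw [(hA (Φ p) (hΦ1 p)).2 x i]
    by_cases hi : i = p.2
    · rw [if_pos hi]
      have h1 : (fun y : G ⧸ J => r.app ((Φ p).1 (Quotient.out y) i)) = v p.1 := by
        funext y
        rw [hΦ2, if_pos hi, B2b_out_mul]
      rw [h1]
    · rw [if_neg hi]
      have h1 : (fun y : G ⧸ J => r.app ((Φ p).1 (Quotient.out y) i)) = 0 := by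
        funext y
        rw [hΦ2, if_neg hi]
        rfl
      rw [h1, map_zero]
      rfl
  -- independence of the reductions
  let u : Fin m × Fin w → G × Fin w → PadicAlgCl ℓ := fun p x => (A (Φ p)).1 x.1 x.2
  have hu : LinearIndependent k fun (p : Fin m × Fin w) (x : G × Fin w) => r.app (u p x) := by
    rw [Fintype.linearIndependent_iff] at hli ⊢
    intro g hg p
    have h1 : ∑ a, g (a, p.2) • h (v a) = 0 := by
      funext y
      have h2 := congrFun hg (Quotient.out y, p.2)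
      rw [Finset.sum_apply] at h2
      simp only [Pi.smul_apply, smul_eq_mul, Pi.zero_apply] at h2
      rw [Finset.sum_apply]
      simp only [Pi.smul_apply, smul_eq_mul, Pi.zero_apply]
      rw [← h2, Fintype.sum_prod_type]
      refine Finset.sum_congr rfl fun a _ => ?_
      rw [Finset.sum_eq_single p.2]
      · change _ = g (a, p.2) * r.app ((A (Φ (a, p.2))).1 (Quotient.out y) p.2)
        rw [hAΦ, if_pos rfl, B2b_out_mul]
      · intro j _ hj
        change g (a, j) * r.app ((A (Φ (a, j))).1 (Quotient.out y) p.2) = 0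
        rw [hAΦ, if_neg (fun h => hj h.symm), mul_zero]
      · intro hj
        exact absurd (Finset.mem_univ _) hj
    exact hli (fun a => g (a, p.2)) h1 p.1
  have hu' : LinearIndependent (PadicAlgCl ℓ) u := by
    refine r.linearIndependent_of_app u ?_ hu
    intro p x
    exact (hA (Φ p) (hΦ1 p)).1 x.1 x.2
  -- the vectors in the range
  let ι : LinearMap.range A →ₗ[PadicAlgCl ℓ] (G × Fin w → PadicAlgCl ℓ) :=
    { toFun := fun Ψ x => Ψ.1.1 x.1 x.2
      map_add' := fun _ _ => rfl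
      map_smul' := fun _ _ => rfl }
  let uu : Fin m × Fin w → LinearMap.range A := fun p => ⟨A (Φ p), ⟨Φ p, rfl⟩⟩
  have huu : LinearIndependent (PadicAlgCl ℓ) uu := LinearIndependent.of_comp ι hu'
  have h1 := huu.fintype_card_le_finrank
  rw [Fintype.card_prod, Fintype.card_fin, Fintype.card_fin, mul_comm] at h1
  exact h1

end Pool.Agent.Lib.MP_666dc0_nt.FM
end

section

/-!
TASK Q2b. A finite family of vectors contains a basis of its span in which all its members have coordinates of norm `≤ 1` (`𝕂 = PadicAlgCl ℓ`).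

`V' = span M` is finite-dimensional, `t = finrank V'`, `e` a basis of `V'` indexed by `Fin t`. Among the finitely many families `b : Fin t → M` choose one for which `‖e.det b‖` (`Basis.det`, the families in `V'`) is maximal. It is positive, because `M` contains a basis of `V'`
(`exists_linearIndependent`, `Submodule.exists_..`; or `Basis` from a spanning set). So `b` is a basis of `V'` (`Basis.isUnit_det`, `is_basis_iff_det`). For `m ∈ M` write `m = ∑ c i • b i`; replacing `b i` by `m` multiplies the determinant by `c i` (multilinear and alternating: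
`AlternatingMap.map_update_sum`, `Function.update b i m`; or Cramer's rule), so `‖c i‖ * ‖det b‖ ≤ ‖det b‖` and `‖c i‖ ≤ 1`.
Alternative without determinants: choose the `t`-element linearly independent family `b` in `M` and let `m = ∑ c i • b i` with `‖c i‖ > 1`; replacing `b i` by `m` gives a basis; a potential function is needed for termination, the determinant is the simplest one.
-/

namespace Pool.Agent.Lib.MP_666dc0_nt.ZO

theorem exists_subbasis {ℓ : ℕ} [Fact ℓ.Prime] {V : Type} [AddCommGroup V] [Module (PadicAlgCl ℓ) V] (M : Set V)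
    (hM : M.Finite) :
    ∃ (t : ℕ) (b : Fin t → V), (∀ i, b i ∈ M) ∧ LinearIndependent (PadicAlgCl ℓ) b ∧
      ∀ m ∈ M, ∃ c : Fin t → PadicAlgCl ℓ, (∀ i, ‖c i‖ ≤ 1) ∧ m = ∑ i, c i • b i := by
  classical
  obtain ⟨B, hBM, hBspan, hBli⟩ := exists_linearIndependent (PadicAlgCl ℓ) M
  have hBfin : B.Finite := hM.subset hBM
  haveI : Fintype B := hBfin.fintype
  haveI : Finite M := hM
  set t := Fintype.card B with ht
  let eB : Fin t ≃ B := (Fintype.equivFin B).symm
  let b0 : Fin t → V := fun i => (eB i : V)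
  have hb0 : LinearIndependent (PadicAlgCl ℓ) b0 := hBli.comp eB eB.injective
  have hrange : Set.range b0 = B := by
    ext x
    constructor
    · rintro ⟨i, rfl⟩
      exact (eB i).2
    · intro hx
      exact ⟨eB.symm ⟨x, hx⟩, by simp [b0]⟩
  have hMW : ∀ m ∈ M, m ∈ Submodule.span (PadicAlgCl ℓ) (Set.range b0) := by
    intro m hm
    rw [hrange, hBspan]
    exact Submodule.subset_span hm
  let W := Submodule.span (PadicAlgCl ℓ) (Set.range b0)
  let e : Module.Basis (Fin t) (PadicAlgCl ℓ) W := Module.Basis.span hb0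
  let fam : (Fin t → M) → Fin t → W := fun f i => ⟨(f i : V), hMW _ (f i).2⟩
  let f0 : Fin t → M := fun i => ⟨(eB i : V), hBM (eB i).2⟩
  have hf0 : fam f0 = e := by
    funext i
    apply Subtype.ext
    simp only [fam, f0, e]
    rw [Module.Basis.span_apply]
  haveI : Nonempty (Fin t → M) := ⟨f0⟩
  obtain ⟨f, hf⟩ := Finite.exists_max (fun f : Fin t → M => ‖e.det (fam f)‖)
  have hpos : 0 < ‖e.det (fam f)‖ := by
    have h1 := hf f0
    simp only [hf0, e.det_self] at h1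
    have : (0 : ℝ) < ‖(1 : PadicAlgCl ℓ)‖ := norm_pos_iff.2 one_ne_zero
    exact lt_of_lt_of_le this h1
  have hdet : IsUnit (e.det (fam f)) := isUnit_iff_ne_zero.2 (norm_pos_iff.1 hpos)
  obtain ⟨hli, hsp⟩ := (e.is_basis_iff_det).2 hdet
  let g : Module.Basis (Fin t) (PadicAlgCl ℓ) W := Module.Basis.mk hli hsp.ge
  refine ⟨t, fun i => (f i : V), fun i => (f i).2, ?_, ?_⟩
  · have := hli.map' W.subtype (Submodule.ker_subtype W)
    exact this
  · intro m hm
    let mW : W := ⟨m, hMW m hm⟩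
    have hsum : mW = ∑ j, g.repr mW j • fam f j := by
      have h := (g.sum_repr mW).symm
      simpa [g] using h
    refine ⟨fun i => g.repr mW i, ?_, ?_⟩
    · intro i
      have h1 : e.det (Function.update (fam f) i mW) = g.repr mW i * e.det (fam f) := by
        have h2 : Function.update (fam f) i mW = Function.update (fam f) i (∑ j, g.repr mW j • fam f j) := by
          rw [← hsum]
        rw [h2, AlternatingMap.map_update_sum, Finset.sum_eq_single i]
        · rw [AlternatingMap.map_update_smul, Function.update_eq_self, smul_eq_mul]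
        · intro j _ hj
          rw [AlternatingMap.map_update_smul, AlternatingMap.map_update_self _ _ (Ne.symm hj), smul_zero]
        · intro h
          exact absurd (Finset.mem_univ i) h
      have h3 : fam (Function.update f i ⟨m, hm⟩) = Function.update (fam f) i mW := by
        funext j
        by_cases hj : j = i
        · subst hj
          simp [fam, mW]
        · simp [fam, hj]
      have h4 := hf (Function.update f i ⟨m, hm⟩)
      simp only [h3, h1, norm_mul] at h4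
      have h5 : ‖g.repr mW i‖ * ‖e.det (fam f)‖ ≤ 1 * ‖e.det (fam f)‖ := by
        rw [one_mul]
        exact h4
      exact le_of_mul_le_mul_right h5 hpos
    · have := congrArg (W.subtype) hsum
      simpa [map_sum, mW, fam] using this

end Pool.Agent.Lib.MP_666dc0_nt.ZO
end

section

/-!
TASK X0. A matrix of finite order which is congruent to `1` modulo `ℓ²` is `1`.

Suppose `E ≠ 0`. Let `m > 1` be the order of `1 + E`, `p` a prime divisor of `m`, and replace `1 + E` by its power `1 + E'` with exponent `m / p`: again `E' ≠ 0` has entries of norm `≤ ℓ⁻²` (products of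
matrices `1 + A`, `1 + B` of this kind are of this kind, the norm is ultrametric), and `(1 + E') ^ p = 1`. So assume `N = p` is prime. Let `c` be the maximal norm of the entries of `E`, `0 < c ≤ ℓ⁻²`, attained at `(i, j)`. By the binomial theorem (`E` commutes with `1`)
`0 = (1 + E) ^ p - 1 = p E + ∑_{k = 2}^{p} (p choose k) E ^ k`, and the entries of `E ^ k`, `k ≥ 2`, have norm `≤ c ^ k ≤ c * c ≤ c ℓ⁻² < c ℓ⁻¹` (`c ≤ 1`). But `‖p‖ ≥ ℓ⁻¹` for every prime `p` (`‖ℓ‖ = ℓ⁻¹`, and `‖p‖ = 1` for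
`p ≠ ℓ`: `PadicAlgCl` extends the norm of `ℚ_[ℓ]`, `padicNormE.norm_p`, `PadicAlgCl.norm_extends`), so the entry `(i, j)` of `p E` has norm `≥ c ℓ⁻¹`. Contradiction. (`‖(n : PadicAlgCl ℓ)‖ ≤ 1` for natural numbers.)
-/

namespace Pool.Agent.Lib.MP_666dc0_nt.ZO

/-- Entrywise bound of a product. -/
private lemma x0_mul {ℓ : ℕ} [Fact ℓ.Prime] {n : ℕ} (A B : Matrix (Fin n) (Fin n) (PadicAlgCl ℓ)) {a b : ℝ}
    (ha : 0 ≤ a) (hb : 0 ≤ b) (hA : ∀ i j, ‖A i j‖ ≤ a) (hB : ∀ i j, ‖B i j‖ ≤ b) (i j : Fin n) :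
    ‖(A * B) i j‖ ≤ a * b := by
  rw [Matrix.mul_apply]
  refine IsUltrametricDist.norm_sum_le_of_forall_le_of_nonneg (mul_nonneg ha hb) fun k _ => ?_
  rw [norm_mul]
  exact mul_le_mul (hA i k) (hB k j) (norm_nonneg _) ha

private lemma x0_nat {ℓ : ℕ} [Fact ℓ.Prime] (m : ℕ) : ‖(m : PadicAlgCl ℓ)‖ ≤ 1 := by
  have h : (m : PadicAlgCl ℓ) = ((m : ℚ_[ℓ]) : PadicAlgCl ℓ) := (map_natCast (algebraMap ℚ_[ℓ] (PadicAlgCl ℓ)) m).symm
  rw [h, PadicAlgCl.norm_extends]
  have := Padic.norm_int_le_one (p := ℓ) (m : ℤ)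
  simpa using this

private lemma x0_prime {ℓ : ℕ} [hl : Fact ℓ.Prime] (p : ℕ) (hp : p.Prime) : (ℓ : ℝ)⁻¹ ≤ ‖(p : PadicAlgCl ℓ)‖ := by
  have h : (p : PadicAlgCl ℓ) = ((p : ℚ_[ℓ]) : PadicAlgCl ℓ) := (map_natCast (algebraMap ℚ_[ℓ] (PadicAlgCl ℓ)) p).symm
  rw [h, PadicAlgCl.norm_extends]
  by_cases hpl : p = ℓ
  · subst hpl
    rw [Padic.norm_p]
  · have h1 : ‖(p : ℚ_[ℓ])‖ = 1 := by
      rw [Padic.norm_natCast_eq_one_iff]
      exact (Nat.coprime_primes hl.out hp).mpr (Ne.symm hpl)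
    rw [h1]
    exact inv_le_one_of_one_le₀ (by exact_mod_cast hl.out.one_lt.le)

private lemma x0_one {ℓ : ℕ} [Fact ℓ.Prime] {n : ℕ} (i j : Fin n) :
    ‖(1 : Matrix (Fin n) (Fin n) (PadicAlgCl ℓ)) i j‖ ≤ 1 := by
  rw [Matrix.one_apply]
  split_ifs
  · simp
  · simp

private lemma x0_add {ℓ : ℕ} [Fact ℓ.Prime] {x y : PadicAlgCl ℓ} {a : ℝ} (hx : ‖x‖ ≤ a) (hy : ‖y‖ ≤ a) :
    ‖x + y‖ ≤ a := (IsUltrametricDist.norm_add_le_max x y).trans (max_le hx hy)

/-- Powers of `1 + E`. -/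
private lemma x0_pow {ℓ : ℕ} [Fact ℓ.Prime] {n : ℕ} (E : Matrix (Fin n) (Fin n) (PadicAlgCl ℓ))
    (hE : ∀ i j, ‖E i j‖ ≤ 1) (m : ℕ) :
    ∃ R : Matrix (Fin n) (Fin n) (PadicAlgCl ℓ), (∀ i j, ‖R i j‖ ≤ 1) ∧
      (1 + E) ^ m = 1 + (m : PadicAlgCl ℓ) • E + E * E * R := by
  induction m with
  | zero =>
    refine ⟨0, fun i j => by simp, ?_⟩
    simp
  | succ m ih =>
    obtain ⟨R, hR, h⟩ := ih
    refine ⟨(m : PadicAlgCl ℓ) • 1 + (R + R * E), fun i j => ?_, ?_⟩
    · rw [Matrix.add_apply, Matrix.add_apply, Matrix.smul_apply, smul_eq_mul]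
      refine x0_add ?_ (x0_add (hR i j) ?_)
      · rw [norm_mul]
        exact mul_le_one₀ (x0_nat m) (norm_nonneg _) (x0_one i j)
      · have := x0_mul R E zero_le_one zero_le_one hR hE i j
        simpa using this
    · rw [pow_succ, h]
      push_cast
      rw [add_smul, one_smul]
      simp only [mul_add, add_mul, one_mul, mul_one, Matrix.smul_mul, Matrix.mul_smul, mul_assoc]
      abel

private lemma x0_case {ℓ : ℕ} [hl : Fact ℓ.Prime] {n : ℕ} (E : Matrix (Fin n) (Fin n) (PadicAlgCl ℓ))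
    (hE : ∀ i j, ‖E i j‖ ≤ ((ℓ : ℝ)⁻¹) ^ 2) (p : ℕ) (hp : p.Prime) (h : (1 + E) ^ p = 1) : E = 0 := by
  by_contra hne
  have hl1 : (1 : ℝ) < ℓ := by exact_mod_cast hl.out.one_lt
  have hinv0 : (0 : ℝ) < (ℓ : ℝ)⁻¹ := by positivity
  have hinv1 : (ℓ : ℝ)⁻¹ < 1 := inv_lt_one_of_one_lt₀ hl1
  have hex : ∃ q : Fin n × Fin n, E q.1 q.2 ≠ 0 := by
    by_contra hcon
    push Not at hcon
    apply hne
    ext i j
    exact hcon (i, j)
  obtain ⟨q₀, hq₀⟩ := hex
  obtain ⟨q, -, hq⟩ := Finset.exists_max_image (Finset.univ : Finset (Fin n × Fin n)) (fun q => ‖E q.1 q.2‖)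
    ⟨q₀, Finset.mem_univ _⟩
  set c := ‖E q.1 q.2‖ with hc
  have hc0 : 0 < c := lt_of_lt_of_le (norm_pos_iff.mpr hq₀) (hq q₀ (Finset.mem_univ _))
  have hmax : ∀ i j, ‖E i j‖ ≤ c := fun i j => hq (i, j) (Finset.mem_univ _)
  have hE1 : ∀ i j, ‖E i j‖ ≤ 1 := fun i j => (hE i j).trans (pow_le_one₀ hinv0.le hinv1.le)
  obtain ⟨R, hR, hpow⟩ := x0_pow E hE1 p
  rw [h] at hpow
  have h1 : (p : PadicAlgCl ℓ) • E = -(E * E * R) := by
    have h2 : (1 : Matrix (Fin n) (Fin n) (PadicAlgCl ℓ)) + ((p : PadicAlgCl ℓ) • E + E * E * R) = 1 + 0 := by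
      rw [add_zero, ← add_assoc]
      exact hpow.symm
    have h3 := add_left_cancel h2
    exact eq_neg_of_add_eq_zero_left h3
  have h2 := congrFun (congrFun h1 q.1) q.2
  rw [Matrix.smul_apply, smul_eq_mul, Matrix.neg_apply] at h2
  have h3 : ‖(p : PadicAlgCl ℓ)‖ * c ≤ c * c * 1 := by
    rw [hc, ← norm_mul, h2, norm_neg]
    exact x0_mul (E * E) R (by positivity) zero_le_one (x0_mul E E hc0.le hc0.le hmax hmax) hR q.1 q.2
  have h4 : (ℓ : ℝ)⁻¹ * c ≤ ‖(p : PadicAlgCl ℓ)‖ * c := mul_le_mul_of_nonneg_right (x0_prime p hp) hc0.le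
  have h5 : c * c * 1 ≤ (ℓ : ℝ)⁻¹ ^ 2 * c := by
    rw [mul_one]
    exact mul_le_mul_of_nonneg_right (hE _ _) hc0.le
  have h6 : (ℓ : ℝ)⁻¹ * c ≤ (ℓ : ℝ)⁻¹ ^ 2 * c := h4.trans (h3.trans h5)
  have h7 : (ℓ : ℝ)⁻¹ ≤ (ℓ : ℝ)⁻¹ ^ 2 := le_of_mul_le_mul_right h6 hc0
  nlinarith

theorem eq_zero_of_pow_eq_one {ℓ : ℕ} [Fact ℓ.Prime] {n : ℕ} (E : Matrix (Fin n) (Fin n) (PadicAlgCl ℓ))
    (hE : ∀ i j, ‖E i j‖ ≤ ((ℓ : ℝ)⁻¹) ^ 2) {N : ℕ} (hN : 0 < N) (h : (1 + E) ^ N = 1) : E = 0 := by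
  have hl1 : (1 : ℝ) < ℓ := by exact_mod_cast (Fact.out : ℓ.Prime).one_lt
  have hinv0 : (0 : ℝ) < (ℓ : ℝ)⁻¹ := by positivity
  have hinv1 : (ℓ : ℝ)⁻¹ < 1 := inv_lt_one_of_one_lt₀ hl1
  have hs0 : (0 : ℝ) ≤ ((ℓ : ℝ)⁻¹) ^ 2 := by positivity
  have hs1 : ((ℓ : ℝ)⁻¹) ^ 2 ≤ 1 := pow_le_one₀ hinv0.le hinv1.le
  induction N using Nat.strong_induction_on with
  | _ N ih =>
    rcases Nat.lt_or_ge 1 N with h1 | h1
    · obtain ⟨p, hp, m, rfl⟩ := Nat.exists_prime_and_dvd (show N ≠ 1 by omega)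
      have hm : 0 < m := Nat.pos_of_mul_pos_left hN
      have hmlt : m < p * m := by
        have := hp.two_le
        nlinarith
      obtain ⟨R, hR, hpow⟩ := x0_pow E (fun i j => (hE i j).trans hs1) m
      have hF : (1 : Matrix (Fin n) (Fin n) (PadicAlgCl ℓ)) + ((m : PadicAlgCl ℓ) • E + E * E * R) = (1 + E) ^ m := by
        rw [hpow, add_assoc]
      have hzero := x0_case ((m : PadicAlgCl ℓ) • E + E * E * R) (fun i j => ?_) p hp (by
        rw [hF, ← pow_mul, mul_comm m p, h])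
      · apply ih m hmlt hm
        rw [← hF, hzero, add_zero]
      · rw [Matrix.add_apply, Matrix.smul_apply, smul_eq_mul]
        refine x0_add ?_ ?_
        · rw [norm_mul]
          calc ‖(m : PadicAlgCl ℓ)‖ * ‖E i j‖ ≤ 1 * ((ℓ : ℝ)⁻¹) ^ 2 :=
                mul_le_mul (x0_nat m) (hE i j) (norm_nonneg _) zero_le_one
            _ = _ := one_mul _
        · have h2 := x0_mul (E * E) R (by positivity) zero_le_one (x0_mul E E hs0 hs0 hE hE) hR i j
          refine h2.trans ?_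
          rw [mul_one]
          exact (mul_le_mul_of_nonneg_left hs1 hs0).trans (mul_one _).le
    · have hN1 : N = 1 := by omega
      subst hN1
      rw [pow_one] at h
      have : (1 : Matrix (Fin n) (Fin n) (PadicAlgCl ℓ)) + E = 1 + 0 := by rw [h, add_zero]
      exact add_left_cancel this

end Pool.Agent.Lib.MP_666dc0_nt.ZO
end
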