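import Pool.Agent.Lib.MP_666dc0_nt.ZO.XDefs
import Pool.Agent.Lib.MP_666dc0_nt.ZO.X2b
import Pool.Agent.Lib.MP_666dc0_nt.Mg.G077
import Pool.Agent.Lib.MP_666dc0_nt.ZO.T1
import Pool.Agent.Lib.MP_666dc0_nt.ZO.L1
import Pool.Agent.Lib.MP_666dc0_nt.Mg.G075
import Pool.Agent.Lib.MP_666dc0_nt.Mg.G076

section

/-!
# Monomials on `G(F ⊗ ℂ)` with values in `ℚ̄_ℓ`: definitions (complete, NOT a task)
-/

open NumberField IsDedekindDomain
open scoped NumberField

namespace Pool.Agent.Lib.MP_666dc0_nt.ZO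

open WL

variable {F : Type} [Field F] [NumberField F] {n : ℕ} {D : Datum F n}

/-- `g` is congruent to `1` modulo `ℓ ^ m`. -/
def IsCg (ℓ m : ℕ) (g : D.Ad) : Prop :=
  ∀ i j, ∃ a ∈ Ohat F,
    mat g i j = (1 : Matrix (Fin n) (Fin n) (FiniteAdeleRing (𝓞 F) F)) i j + (ℓ : FiniteAdeleRing (𝓞 F) F) ^ m * a

/-- The function `1` and the coordinate functions, transported to `ℚ̄_ℓ`. -/
def gensK {ℓ : ℕ} [Fact ℓ.Prime] (ι : ℂ ≃+* PadicAlgCl ℓ) (D : Datum F n) : Set (D.Cpx → PadicAlgCl ℓ) :=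
  {1} ∪ {p | ∃ τ i j, p = fun x => ι (coord D τ i j x)}

/-- The monomials of degree `≤ N`. -/
def monsK {ℓ : ℕ} [Fact ℓ.Prime] (ι : ℂ ≃+* PadicAlgCl ℓ) (D : Datum F n) : ℕ → Set (D.Cpx → PadicAlgCl ℓ)
  | 0 => {1}
  | N + 1 => {p | ∃ q ∈ monsK ι D N, ∃ r ∈ gensK ι D, p = fun x => q x * r x}

/-- The linear combinations of the monomials of degree `≤ N` with coefficients of norm `≤ c`. -/
def latK {ℓ : ℕ} [Fact ℓ.Prime] (ι : ℂ ≃+* PadicAlgCl ℓ) (D : Datum F n) (N : ℕ) (c : ℝ) :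
    Set (D.Cpx → PadicAlgCl ℓ) :=
  {p | ∃ (m : ℕ) (μ : Fin m → D.Cpx → PadicAlgCl ℓ) (a : Fin m → PadicAlgCl ℓ), (∀ i, μ i ∈ monsK ι D N) ∧
    (∀ i, ‖a i‖ ≤ c) ∧ p = fun x => ∑ i, a i * μ i x}

end Pool.Agent.Lib.MP_666dc0_nt.ZO
end

section

/-!
TASK Q1. The homomorphisms `H.s τ` on the finite adeles.

* `norm_s_le_one`: `Ohat F` is compact (`isCompact_Ohat` of `WL/T5`), so the continuous function `a ↦ ‖ι (H.s τ a)‖` (`H.cont`) is bounded by some `C` on it; `a ^ j ∈ Ohat F` for all `j`, so `‖ι (H.s τ a)‖ ^ j ≤ C` for all `j`, so it is `≤ 1`.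
* `exists_field_s`: for each of the finitely many `τ : F →+* ℂ` there is a finite extension of `ℚ_ℓ` containing all `ι (τ x)`, `x ∈ F` (`exists_finite_ext` of `WL/G1` with `E = F`, `j = ι ∘ τ`); let `L` be the supremum of these fields (finite-dimensional; `Finset.induction` or `IntermediateField.finiteDimensional_iSup_of_finite`).
  `L` is closed in `PadicAlgCl ℓ` (a finite-dimensional subspace over the complete field `ℚ_[ℓ]`: `Submodule.closed_of_finiteDimensional`). For a finite adele `a` and `m` there are `x : F`, `b ∈ Ohat F` with `x - a = ℓ ^ m * b` (`exists_sub_mem` of `WL/T3`), so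
  `‖ι (τ x) - ι (H.s τ a)‖ = ‖ℓ ^ m‖ * ‖ι (H.s τ b)‖ ≤ ℓ⁻¹ ^ m` (`H.comp`), and `ι (H.s τ a)` is in the closure of `L`.
* `hat_congr`: immediate from `norm_s_le_one`, `H.coord_hat` and `‖(ℓ : PadicAlgCl ℓ)‖ = ℓ⁻¹`.
* `exists_K_le`: the set `W` of the `g` with `IsCg ℓ m g` and `IsCg ℓ m g⁻¹` is a subgroup (products: `(1 + x)(1 + y) = 1 + x + y + x y`), and open: it is a preimage under the continuous maps of the entries (`E1_continuous_mat` of `WL/E1`, and continuity of the inverse) of the sets `x + ℓ ^ m Ohat`, and `ℓ ^ m Ohat` is open: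
  it is the preimage of the open set `Ohat` under the multiplication by the adele `ℓ ^ (-m)` (the image of `(ℓ : F)⁻¹ ^ m`). Then use `hK.small`.
-/

open NumberField IsDedekindDomain
open scoped NumberField

namespace Pool.Agent.Lib.MP_666dc0_nt.ZO

open WL

variable {F : Type} [Field F] [NumberField F] {n : ℕ} {D : Datum F n} {ℓ : ℕ} [Fact ℓ.Prime]
  {ι : ℂ ≃+* PadicAlgCl ℓ} {d : ℕ} {U : Subgroup D.Ad} {K : ℕ → Subgroup D.Ad}

private theorem q1_norm_ell : ‖((ℓ : ℕ) : PadicAlgCl ℓ)‖ = (ℓ : ℝ)⁻¹ := by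
  rw [← map_natCast (algebraMap ℚ_[ℓ] (PadicAlgCl ℓ)), PadicAlgCl.norm_extends]
  exact Padic.norm_p

theorem norm_s_le_one (H : HatData F ℓ ι) (τ : F →+* ℂ) {a : FiniteAdeleRing (𝓞 F) F} (ha : a ∈ Ohat F) :
    ‖ι (H.s τ a)‖ ≤ 1 := by
  have hcont : Continuous fun x : FiniteAdeleRing (𝓞 F) F => ι (H.s τ x) := H.cont τ
  obtain ⟨C, hC⟩ := (isCompact_Ohat F).exists_bound_of_continuousOn hcont.continuousOn
  by_contra hlt
  have h1 : 1 < ‖ι (H.s τ a)‖ := not_le.1 hlt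
  obtain ⟨j, hj⟩ := pow_unbounded_of_one_lt C h1
  have h2 := hC (a ^ j) (pow_mem ha j)
  rw [map_pow, map_pow, norm_pow] at h2
  exact absurd h2 (not_le.2 hj)

private theorem q1_norm_mul (H : HatData F ℓ ι) (τ : F →+* ℂ) {b : FiniteAdeleRing (𝓞 F) F}
    (hb : b ∈ Ohat F) (m : ℕ) :
    ‖ι (H.s τ ((ℓ : FiniteAdeleRing (𝓞 F) F) ^ m * b))‖ ≤ ((ℓ : ℝ)⁻¹) ^ m := by
  rw [map_mul, map_mul, map_pow, map_pow, map_natCast, map_natCast, norm_mul, norm_pow, q1_norm_ell]
  calc ((ℓ : ℝ)⁻¹) ^ m * ‖ι (H.s τ b)‖ ≤ ((ℓ : ℝ)⁻¹) ^ m * 1 :=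
        mul_le_mul_of_nonneg_left (norm_s_le_one H τ hb) (by positivity)
    _ = ((ℓ : ℝ)⁻¹) ^ m := mul_one _

theorem exists_field_s (H : HatData F ℓ ι) : ∃ L : IntermediateField ℚ_[ℓ] (PadicAlgCl ℓ),
    FiniteDimensional ℚ_[ℓ] L ∧ ∀ τ a, ι (H.s τ a) ∈ L := by
  classical
  have hℓ : ℓ.Prime := Fact.out
  have hex : ∀ τ : F →+* ℂ, ∃ L : IntermediateField ℚ_[ℓ] (PadicAlgCl ℓ),
      FiniteDimensional ℚ_[ℓ] L ∧ ∀ x : F, ι (τ x) ∈ L := fun τ =>
    exists_finite_ext ℓ ((ι : ℂ →+* PadicAlgCl ℓ).comp τ)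
  choose L hL1 hL2 using hex
  have hLfin : FiniteDimensional ℚ_[ℓ] (⨆ τ, L τ : IntermediateField ℚ_[ℓ] (PadicAlgCl ℓ)) := by
    have : ∀ τ, FiniteDimensional ℚ_[ℓ] (L τ) := hL1
    exact IntermediateField.finiteDimensional_iSup_of_finite
  refine ⟨⨆ τ, L τ, hLfin, fun τ a => ?_⟩
  obtain ⟨W, hW⟩ : ∃ W : Submodule ℚ_[ℓ] (PadicAlgCl ℓ), W =
      Subalgebra.toSubmodule (⨆ τ, L τ : IntermediateField ℚ_[ℓ] (PadicAlgCl ℓ)).toSubalgebra :=
    ⟨_, rfl⟩
  have hWmem : ∀ z, z ∈ W ↔ z ∈ (⨆ τ, L τ : IntermediateField ℚ_[ℓ] (PadicAlgCl ℓ)) := by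
    intro z
    rw [hW]
    rfl
  have hWfin : FiniteDimensional ℚ_[ℓ] W := by
    rw [hW]
    exact hLfin
  have hclosed : IsClosed (W : Set (PadicAlgCl ℓ)) := Submodule.closed_of_finiteDimensional W
  rw [← hWmem]
  have hmem : ι (H.s τ a) ∈ closure (W : Set (PadicAlgCl ℓ)) := by
    rw [Metric.mem_closure_iff]
    intro ε hε
    have hℓ1 : ((ℓ : ℝ)⁻¹) < 1 := inv_lt_one_of_one_lt₀ (by exact_mod_cast hℓ.one_lt)
    obtain ⟨m, hm⟩ := exists_pow_lt_of_lt_one hε hℓ1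
    obtain ⟨x, b, hb, hx⟩ := exists_sub_mem F a (ℓ ^ m) (pow_pos hℓ.pos m)
    refine ⟨ι (τ x), (hWmem _).2 ((le_iSup L τ) (hL2 τ x)), ?_⟩
    have h1 : τ x = H.s τ (algebraMap F (FiniteAdeleRing (𝓞 F) F) x) := by
      have := congrArg (fun f : F →+* ℂ => f x) (H.comp τ)
      exact this.symm
    rw [dist_comm, dist_eq_norm, h1, ← map_sub, ← map_sub, hx, Nat.cast_pow]
    exact (q1_norm_mul H τ hb m).trans_lt hm
  rw [hclosed.closure_eq] at hmem
  exact hmem

theorem hat_congr (H : HatData F ℓ ι) {m : ℕ} {k : D.Ad} (hk : IsCg ℓ m k) (τ : F →+* ℂ) (i j : Fin n) :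
    ‖ι (coord D τ i j (H.hat D k)) - (1 : Matrix (Fin n) (Fin n) (PadicAlgCl ℓ)) i j‖ ≤ ((ℓ : ℝ)⁻¹) ^ m := by
  obtain ⟨a, ha, hka⟩ := hk i j
  have h1 : (1 : Matrix (Fin n) (Fin n) (PadicAlgCl ℓ)) i j =
      ι (H.s τ ((1 : Matrix (Fin n) (Fin n) (FiniteAdeleRing (𝓞 F) F)) i j)) := by
    by_cases hij : i = j
    · subst hij
      rw [Matrix.one_apply_eq, Matrix.one_apply_eq, map_one, map_one]
    · rw [Matrix.one_apply_ne hij, Matrix.one_apply_ne hij, map_zero, map_zero]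
  rw [H.coord_hat, hka, h1, ← map_sub, ← map_sub, add_sub_cancel_left]
  exact q1_norm_mul H τ ha m

private theorem q1_isCg_iff {m : ℕ} {g : D.Ad} : IsCg ℓ m g ↔
    ∃ A : Matrix (Fin n) (Fin n) (FiniteAdeleRing (𝓞 F) F), (∀ i j, A i j ∈ Ohat F) ∧
      mat g = 1 + (ℓ : FiniteAdeleRing (𝓞 F) F) ^ m • A := by
  constructor
  · intro h
    choose a ha hga using h
    refine ⟨fun i j => a i j, ha, ?_⟩
    ext1 i j
    rw [hga i j]
    rfl
  · rintro ⟨A, hA, hg⟩ i j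
    exact ⟨A i j, hA i j, by rw [hg]; rfl⟩

private theorem q1_isCg_one (m : ℕ) : IsCg ℓ m (1 : D.Ad) :=
  q1_isCg_iff.2 ⟨0, fun i j => zero_mem _, by rw [mat_one, smul_zero, add_zero]⟩

private theorem q1_isCg_mul {m : ℕ} {g h : D.Ad} (hg : IsCg ℓ m g) (hh : IsCg ℓ m h) :
    IsCg ℓ m (g * h) := by
  obtain ⟨A, hA, hgA⟩ := q1_isCg_iff.1 hg
  obtain ⟨B, hB, hhB⟩ := q1_isCg_iff.1 hh
  refine q1_isCg_iff.2 ⟨A + B + (ℓ : FiniteAdeleRing (𝓞 F) F) ^ m • (A * B), fun i j => ?_, ?_⟩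
  · have h1 : (A * B) i j ∈ Ohat F := by
      rw [Matrix.mul_apply]
      exact sum_mem fun k _ => mul_mem (hA i k) (hB k j)
    have h2 : ((ℓ : FiniteAdeleRing (𝓞 F) F) ^ m) ∈ Ohat F := pow_mem (natCast_mem _ ℓ) m
    exact add_mem (add_mem (hA i j) (hB i j)) (mul_mem h2 h1)
  · have h1 : ((ℓ : FiniteAdeleRing (𝓞 F) F) ^ m • A) * ((ℓ : FiniteAdeleRing (𝓞 F) F) ^ m • B) =
        (ℓ : FiniteAdeleRing (𝓞 F) F) ^ m • (ℓ : FiniteAdeleRing (𝓞 F) F) ^ m • (A * B) := by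
      rw [smul_mul_assoc, mul_smul_comm]
    rw [mat_mul, hgA, hhB, mul_add, mul_one, add_mul, one_mul, h1, smul_add,
      smul_add]
    abel

private theorem q1_isOpen (m : ℕ) (c : FiniteAdeleRing (𝓞 F) F) :
    IsOpen {y : FiniteAdeleRing (𝓞 F) F | ∃ a ∈ Ohat F, y = c + (ℓ : FiniteAdeleRing (𝓞 F) F) ^ m * a} := by
  have hℓ : ℓ.Prime := Fact.out
  have hℓF : (ℓ : F) ≠ 0 := Nat.cast_ne_zero.2 hℓ.ne_zero
  obtain ⟨u, hu⟩ : ∃ u : FiniteAdeleRing (𝓞 F) F, u * (ℓ : FiniteAdeleRing (𝓞 F) F) ^ m = 1 := by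
    refine ⟨algebraMap F (FiniteAdeleRing (𝓞 F) F) (((ℓ : F) ^ m)⁻¹), ?_⟩
    rw [← map_natCast (algebraMap F (FiniteAdeleRing (𝓞 F) F)) ℓ, ← map_pow, ← map_mul,
      inv_mul_cancel₀ (pow_ne_zero m hℓF), map_one]
  have hset : {y : FiniteAdeleRing (𝓞 F) F | ∃ a ∈ Ohat F, y = c + (ℓ : FiniteAdeleRing (𝓞 F) F) ^ m * a} =
      (fun y => u * (y - c)) ⁻¹' (Ohat F : Set (FiniteAdeleRing (𝓞 F) F)) := by
    ext y
    constructor
    · rintro ⟨a, ha, rfl⟩
      show u * (c + (ℓ : FiniteAdeleRing (𝓞 F) F) ^ m * a - c) ∈ Ohat F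
      rw [add_sub_cancel_left, ← mul_assoc, hu, one_mul]
      exact ha
    · intro hy
      refine ⟨u * (y - c), hy, ?_⟩
      rw [← mul_assoc, mul_comm _ u, hu, one_mul]
      ring
  rw [hset]
  exact (isOpen_Ohat F).preimage (continuous_const.mul (continuous_id.sub continuous_const))

private theorem q1_isOpen_cg (m : ℕ) : IsOpen {g : D.Ad | IsCg ℓ m g} := by
  have hset : {g : D.Ad | IsCg ℓ m g} = ⋂ i, ⋂ j, (fun g : D.Ad => mat g i j) ⁻¹'
      {y : FiniteAdeleRing (𝓞 F) F | ∃ a ∈ Ohat F,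
        y = (1 : Matrix (Fin n) (Fin n) (FiniteAdeleRing (𝓞 F) F)) i j +
          (ℓ : FiniteAdeleRing (𝓞 F) F) ^ m * a} := by
    ext g
    simp only [Set.mem_iInter]
    exact Iff.rfl
  rw [hset]
  exact isOpen_iInter_of_finite fun i => isOpen_iInter_of_finite fun j =>
    (q1_isOpen m _).preimage (E1_continuous_mat i j)

private theorem q1_isOpen_cg_inv (m : ℕ) : IsOpen {g : D.Ad | IsCg ℓ m g⁻¹} := by
  have hmat : ∀ k l : Fin n, Continuous fun g : D.Ad => mat g⁻¹ k l := by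
    intro k l
    have h1 := (isEmbedding_entries (D := D)).continuous
    exact (continuous_apply l).comp ((continuous_apply k).comp (continuous_snd.comp h1))
  have hset : {g : D.Ad | IsCg ℓ m g⁻¹} = ⋂ i, ⋂ j, (fun g : D.Ad => mat g⁻¹ i j) ⁻¹'
      {y : FiniteAdeleRing (𝓞 F) F | ∃ a ∈ Ohat F,
        y = (1 : Matrix (Fin n) (Fin n) (FiniteAdeleRing (𝓞 F) F)) i j +
          (ℓ : FiniteAdeleRing (𝓞 F) F) ^ m * a} := by
    ext g
    simp only [Set.mem_iInter]
    exact Iff.rfl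
  rw [hset]
  exact isOpen_iInter_of_finite fun i => isOpen_iInter_of_finite fun j =>
    (q1_isOpen m _).preimage (hmat i j)

theorem exists_K_le (hK : IsTow ℓ U K) (m : ℕ) : ∃ s, ∀ k ∈ K s, IsCg ℓ m k := by
  let W : Subgroup D.Ad :=
    { carrier := {g | IsCg ℓ m g ∧ IsCg ℓ m g⁻¹}
      one_mem' := ⟨q1_isCg_one m, by rw [inv_one]; exact q1_isCg_one m⟩
      mul_mem' := by
        intro a b ha hb
        refine ⟨q1_isCg_mul ha.1 hb.1, ?_⟩
        rw [mul_inv_rev]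
        exact q1_isCg_mul hb.2 ha.2
      inv_mem' := by
        intro a ha
        exact ⟨ha.2, by rw [inv_inv]; exact ha.1⟩ }
  have hW : IsOpen (W : Set D.Ad) := (q1_isOpen_cg m).inter (q1_isOpen_cg_inv m)
  obtain ⟨s, hs⟩ := hK.small W hW
  exact ⟨s, fun k hk => (hs hk).1⟩

end Pool.Agent.Lib.MP_666dc0_nt.ZO
end

section

/-!
TASK Q2c. Monomials and right translations.

* `finite_monsK`: induction; `gensK` is finite since there are finitely many `τ : F →+* ℂ` (`NumberField.Embeddings` / `Fintype (F →+* ℂ)`) and `i j : Fin n`. `monsK_mono`: `1 ∈ gensK`.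
* `latK_add`, `latK_smul_le`: concatenate the families (`Fin.append`, `Fin.sum_univ_add`); `latK_mul`: the family indexed by `Fin (m * m')` or use an equivalence of `Fin m × Fin m'` with some `Fin` (`finProdFinEquiv`), and: a product of elements of `monsK N` and `monsK M` is in `monsK (N + M)` (induction on `M`).
* `translate_sub_mem`: for `k` with `IsCg ℓ m k` and `μ ∈ monsK N` the function `x ↦ μ (x * k̂) - μ x` is in `latK N (ℓ⁻¹ ^ m)`. For a coordinate function: `coord τ i j (x * k̂) - coord τ i j x = ∑ l, coord τ i l x * (coord τ l j k̂ - δ_lj)` and `hat_congr`. For a product `μ r` with `r ∈ gensK`: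
  `(μ r)(x k̂) - (μ r)(x) = (μ (x k̂) - μ x) r (x k̂) + μ x (r (x k̂) - r x)`, where `r (x k̂)` is in `latK 1 1`, `latK_mul`, `latK_add`. (`ℓ⁻¹ ^ m ≤ 1`.)
* `exists_mem_span_monsK`: `polyFun D` is an algebra generated by the coordinate functions (`Algebra.adjoin_induction`): constants are in the span of `monsK 0`, sums by `monsK_mono`, products: spans multiply into the span of `monsK (N + M)`. (`p ↦ ι ∘ p` is additive and multiplicative and `ι (c • p) = ι c • ι ∘ p`.)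
-/

open NumberField IsDedekindDomain
open scoped NumberField

namespace Pool.Agent.Lib.MP_666dc0_nt.ZO

open WL

variable {F : Type} [Field F] [NumberField F] {n : ℕ} {D : Datum F n} {ℓ : ℕ} [Fact ℓ.Prime]
  {ι : ℂ ≃+* PadicAlgCl ℓ}

private theorem Q2c_latK_of {κ : Type} [Fintype κ] {N : ℕ} {c : ℝ} (μ : κ → D.Cpx → PadicAlgCl ℓ)
    (a : κ → PadicAlgCl ℓ) (h1 : ∀ i, μ i ∈ monsK ι D N) (h2 : ∀ i, ‖a i‖ ≤ c) :
    (fun x => ∑ i, a i * μ i x) ∈ latK ι D N c :=
  ⟨Fintype.card κ, fun k => μ ((Fintype.equivFin κ).symm k), fun k => a ((Fintype.equivFin κ).symm k),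
    fun _ => h1 _, fun _ => h2 _,
    funext fun x => ((Fintype.equivFin κ).symm.sum_comp (fun i => a i * μ i x)).symm⟩

private theorem Q2c_mons_mul {N M : ℕ} {p q : D.Cpx → PadicAlgCl ℓ} (hp : p ∈ monsK ι D N)
    (hq : q ∈ monsK ι D M) : (fun x => p x * q x) ∈ monsK ι D (N + M) := by
  induction M generalizing q with
  | zero =>
    have h1 : q = 1 := hq
    subst h1
    have h2 : (fun x => p x * (1 : D.Cpx → PadicAlgCl ℓ) x) = p := funext fun x => mul_one _
    rw [h2]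
    exact hp
  | succ M ih =>
    obtain ⟨q', hq', r, hr, rfl⟩ := hq
    refine ⟨fun x => p x * q' x, ih hq', r, hr, funext fun x => ?_⟩
    exact (mul_assoc _ _ _).symm

private theorem Q2c_mem_lat {N : ℕ} {c : ℝ} (hc : 1 ≤ c) {p : D.Cpx → PadicAlgCl ℓ} (hp : p ∈ monsK ι D N) :
    p ∈ latK ι D N c := by
  have h := Q2c_latK_of (κ := Unit) (ι := ι) (D := D) (N := N) (c := c) (fun _ => p) (fun _ => 1)
    (fun _ => hp) (fun _ => by rw [norm_one]; exact hc)
  have h2 : (fun x => ∑ _i : Unit, (1 : PadicAlgCl ℓ) * p x) = p := by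
    funext x
    simp
  rw [h2] at h
  exact h

theorem finite_monsK (ι : ℂ ≃+* PadicAlgCl ℓ) (D : Datum F n) (N : ℕ) : (monsK ι D N).Finite := by
  classical
  have hg : (gensK ι D).Finite := by
    refine (Set.finite_singleton _).union ?_
    have h1 : {p : D.Cpx → PadicAlgCl ℓ | ∃ τ i j, p = fun x => ι (coord D τ i j x)} =
        Set.range (fun t : (F →+* ℂ) × Fin n × Fin n => fun x => ι (coord D t.1 t.2.1 t.2.2 x)) := by
      ext p
      constructor
      · rintro ⟨τ, i, j, rfl⟩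
        exact ⟨(τ, i, j), rfl⟩
      · rintro ⟨⟨τ, i, j⟩, rfl⟩
        exact ⟨τ, i, j, rfl⟩
    rw [h1]
    exact Set.finite_range _
  induction N with
  | zero => exact Set.finite_singleton _
  | succ N ih =>
    refine (Set.Finite.image2 (fun (q r : D.Cpx → PadicAlgCl ℓ) => fun x => q x * r x) ih hg).subset ?_
    rintro p ⟨q, hq, r, hr, rfl⟩
    exact ⟨q, hq, r, hr, rfl⟩

theorem monsK_mono {N M : ℕ} (h : N ≤ M) : monsK ι D N ⊆ monsK ι D M := by
  induction M, h using Nat.le_induction with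
  | base => exact subset_rfl
  | succ M hM ih =>
    intro p hp
    exact ⟨p, ih hp, 1, Or.inl rfl, funext fun x => (mul_one _).symm⟩

theorem latK_add {N : ℕ} {c : ℝ} {p q : D.Cpx → PadicAlgCl ℓ} (hp : p ∈ latK ι D N c) (hq : q ∈ latK ι D N c) :
    (fun x => p x + q x) ∈ latK ι D N c := by
  obtain ⟨m, μ, a, h1, h2, rfl⟩ := hp
  obtain ⟨m', μ', a', h1', h2', rfl⟩ := hq
  have h := Q2c_latK_of (κ := Fin m ⊕ Fin m') (ι := ι) (D := D) (N := N) (c := c) (Sum.elim μ μ') (Sum.elim a a')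
    (by rintro (i | i); exacts [h1 i, h1' i]) (by rintro (i | i); exacts [h2 i, h2' i])
  have h3 : (fun x => ∑ i : Fin m ⊕ Fin m', Sum.elim a a' i * Sum.elim μ μ' i x) =
      fun x => (∑ i, a i * μ i x) + ∑ i, a' i * μ' i x := by
    funext x
    rw [Fintype.sum_sum_type]
    rfl
  rw [h3] at h
  exact h

theorem latK_mul {N M : ℕ} {c c' : ℝ} (hc : 0 ≤ c) (hc' : 0 ≤ c') {p q : D.Cpx → PadicAlgCl ℓ}
    (hp : p ∈ latK ι D N c) (hq : q ∈ latK ι D M c') : (fun x => p x * q x) ∈ latK ι D (N + M) (c * c') := by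
  obtain ⟨m, μ, a, h1, h2, rfl⟩ := hp
  obtain ⟨m', μ', a', h1', h2', rfl⟩ := hq
  have h := Q2c_latK_of (κ := Fin m × Fin m') (ι := ι) (D := D) (N := N + M) (c := c * c')
    (fun t => fun x => μ t.1 x * μ' t.2 x) (fun t => a t.1 * a' t.2)
    (fun t => Q2c_mons_mul (h1 t.1) (h1' t.2))
    (fun t => by
      rw [norm_mul]
      exact mul_le_mul (h2 t.1) (h2' t.2) (norm_nonneg _) hc)
  have h3 : (fun x => ∑ t : Fin m × Fin m', (a t.1 * a' t.2) * (μ t.1 x * μ' t.2 x)) =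
      fun x => (∑ i, a i * μ i x) * ∑ i, a' i * μ' i x := by
    funext x
    rw [Finset.sum_mul_sum, Fintype.sum_prod_type]
    refine Finset.sum_congr rfl fun i _ => Finset.sum_congr rfl fun j _ => ?_
    ring
  rw [h3] at h
  exact h

theorem translate_sub_mem (H : HatData F ℓ ι) {m : ℕ} {k : D.Ad} (hk : IsCg ℓ m k) {N : ℕ}
    {μ : D.Cpx → PadicAlgCl ℓ} (hμ : μ ∈ monsK ι D N) :
    (fun x => μ (x * H.hat D k) - μ x) ∈ latK ι D N (((ℓ : ℝ)⁻¹) ^ m) := by
  have hℓ : (1 : ℝ) < ℓ := by exact_mod_cast (Fact.out : ℓ.Prime).one_lt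
  have hc0 : 0 ≤ ((ℓ : ℝ)⁻¹) ^ m := by positivity
  have hc1 : ((ℓ : ℝ)⁻¹) ^ m ≤ 1 := pow_le_one₀ (by positivity) (inv_le_one_of_one_le₀ hℓ.le)
  have hone : ∀ l j : Fin n, ‖(1 : Matrix (Fin n) (Fin n) (PadicAlgCl ℓ)) l j‖ ≤ 1 := by
    intro l j
    rw [Matrix.one_apply]
    split_ifs
    · rw [norm_one]
    · rw [norm_zero]
      exact zero_le_one
  have hk1 : ∀ (τ : F →+* ℂ) (l j : Fin n), ‖ι (coord D τ l j (H.hat D k))‖ ≤ 1 := by
    intro τ l j
    have h1 := IsUltrametricDist.norm_add_le_max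
      (ι (coord D τ l j (H.hat D k)) - (1 : Matrix (Fin n) (Fin n) (PadicAlgCl ℓ)) l j)
      ((1 : Matrix (Fin n) (Fin n) (PadicAlgCl ℓ)) l j)
    rw [sub_add_cancel] at h1
    exact h1.trans (max_le ((hat_congr H hk τ l j).trans hc1) (hone l j))
  have hmul : ∀ (τ : F →+* ℂ) (i j : Fin n) (x : D.Cpx), coord D τ i j (x * H.hat D k) =
      ∑ l, coord D τ i l x * coord D τ l j (H.hat D k) := fun τ i j x => rfl
  have hgen : ∀ (τ : F →+* ℂ) (i l : Fin n), (fun x => ι (coord D τ i l x)) ∈ monsK ι D 1 :=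
    fun τ i l => ⟨1, rfl, _, Or.inr ⟨τ, i, l, rfl⟩, funext fun x => (one_mul _).symm⟩
  have hr1 : ∀ r ∈ gensK ι D, (fun x => r (x * H.hat D k)) ∈ latK ι D 1 1 := by
    rintro r (hr | ⟨τ, i, j, rfl⟩)
    · have h1 : r = 1 := hr
      subst h1
      have h2 : (1 : D.Cpx → PadicAlgCl ℓ) ∈ monsK ι D 1 := monsK_mono (Nat.zero_le 1) rfl
      exact Q2c_mem_lat le_rfl h2
    · have h := Q2c_latK_of (κ := Fin n) (ι := ι) (D := D) (N := 1) (c := 1)
        (fun l => fun x => ι (coord D τ i l x)) (fun l => ι (coord D τ l j (H.hat D k)))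
        (fun l => hgen τ i l) (fun l => hk1 τ l j)
      have h3 : (fun x => ∑ l, ι (coord D τ l j (H.hat D k)) * ι (coord D τ i l x)) =
          fun x => ι (coord D τ i j (x * H.hat D k)) := by
        funext x
        rw [hmul, map_sum]
        refine Finset.sum_congr rfl fun l _ => ?_
        rw [map_mul, mul_comm]
      rw [h3] at h
      exact h
  have hr2 : ∀ r ∈ gensK ι D, (fun x => r (x * H.hat D k) - r x) ∈ latK ι D 1 (((ℓ : ℝ)⁻¹) ^ m) := by
    rintro r (hr | ⟨τ, i, j, rfl⟩)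
    · have h1 : r = 1 := hr
      subst h1
      refine ⟨0, fun i => i.elim0, fun i => i.elim0, fun i => i.elim0, fun i => i.elim0, ?_⟩
      funext x
      simp
    · have h := Q2c_latK_of (κ := Fin n) (ι := ι) (D := D) (N := 1) (c := ((ℓ : ℝ)⁻¹) ^ m)
        (fun l => fun x => ι (coord D τ i l x))
        (fun l => ι (coord D τ l j (H.hat D k)) - (1 : Matrix (Fin n) (Fin n) (PadicAlgCl ℓ)) l j)
        (fun l => hgen τ i l) (fun l => hat_congr H hk τ l j)
      have h3 : (fun x => ∑ l, (ι (coord D τ l j (H.hat D k)) -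
          (1 : Matrix (Fin n) (Fin n) (PadicAlgCl ℓ)) l j) * ι (coord D τ i l x)) =
          fun x => ι (coord D τ i j (x * H.hat D k)) - ι (coord D τ i j x) := by
        funext x
        rw [hmul, map_sum]
        have h4 : ι (coord D τ i j x) =
            ∑ l, (1 : Matrix (Fin n) (Fin n) (PadicAlgCl ℓ)) l j * ι (coord D τ i l x) := by
          rw [Finset.sum_eq_single j]
          · rw [Matrix.one_apply_eq, one_mul]
          · intro l _ hl
            rw [Matrix.one_apply_ne hl, zero_mul]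
          · intro h
            exact absurd (Finset.mem_univ j) h
        rw [h4, ← Finset.sum_sub_distrib]
        refine Finset.sum_congr rfl fun l _ => ?_
        rw [map_mul]
        ring
      rw [h3] at h
      exact h
  induction N generalizing μ with
  | zero =>
    have h1 : μ = 1 := hμ
    subst h1
    refine ⟨0, fun i => i.elim0, fun i => i.elim0, fun i => i.elim0, fun i => i.elim0, ?_⟩
    funext x
    simp
  | succ N ih =>
    obtain ⟨q, hq, r, hr, rfl⟩ := hμ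
    have h1 := latK_mul hc0 zero_le_one (ih hq) (hr1 r hr)
    have h2 := latK_mul zero_le_one hc0 (Q2c_mem_lat le_rfl hq) (hr2 r hr)
    rw [mul_one] at h1
    rw [one_mul] at h2
    have h3 := latK_add h1 h2
    have h4 : (fun x => (q (x * H.hat D k) - q x) * r (x * H.hat D k) +
        q x * (r (x * H.hat D k) - r x)) =
        fun x => q (x * H.hat D k) * r (x * H.hat D k) - q x * r x := by
      funext x
      ring
    rw [h4] at h3
    exact h3

theorem exists_mem_span_monsK (ι : ℂ ≃+* PadicAlgCl ℓ) {p : D.Cpx → ℂ} (hp : p ∈ polyFun D) :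
    ∃ N, (fun x => ι (p x)) ∈ Submodule.span (PadicAlgCl ℓ) (monsK ι D N) := by
  unfold polyFun at hp
  induction hp using Algebra.adjoin_induction with
  | mem p h =>
    obtain ⟨τ, i, j, rfl⟩ := h
    exact ⟨1, Submodule.subset_span ⟨1, rfl, _, Or.inr ⟨τ, i, j, rfl⟩, funext fun x => (one_mul _).symm⟩⟩
  | algebraMap r =>
    refine ⟨0, ?_⟩
    have h1 : (fun x => ι ((algebraMap ℂ (D.Cpx → ℂ)) r x)) = (ι r) • (1 : D.Cpx → PadicAlgCl ℓ) := by
      funext x
      rw [Pi.smul_apply, Pi.one_apply, smul_eq_mul, mul_one]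
      rfl
    rw [h1]
    exact Submodule.smul_mem _ _ (Submodule.subset_span rfl)
  | add p q _ _ hp hq =>
    obtain ⟨N, hN⟩ := hp
    obtain ⟨M, hM⟩ := hq
    refine ⟨N + M, ?_⟩
    have h1 := Submodule.span_mono (monsK_mono (ι := ι) (D := D) (Nat.le_add_right N M)) hN
    have h2 := Submodule.span_mono (monsK_mono (ι := ι) (D := D) (Nat.le_add_left M N)) hM
    have h3 : (fun x => ι ((p + q) x)) = (fun x => ι (p x)) + fun x => ι (q x) := by
      funext x
      exact map_add ι _ _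
    rw [h3]
    exact Submodule.add_mem _ h1 h2
  | mul p q _ _ hp hq =>
    obtain ⟨N, hN⟩ := hp
    obtain ⟨M, hM⟩ := hq
    refine ⟨N + M, ?_⟩
    have h1 := Submodule.mul_mem_mul hN hM
    rw [Submodule.span_mul_span] at h1
    have h2 : Set.image2 (fun a b : D.Cpx → PadicAlgCl ℓ => a * b) (monsK ι D N) (monsK ι D M) ⊆
        monsK ι D (N + M) := by
      rintro _ ⟨a, ha, b, hb, rfl⟩
      exact Q2c_mons_mul ha hb
    have h3 : (fun x => ι ((p * q) x)) = (fun x => ι (p x)) * fun x => ι (q x) := by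
      funext x
      exact map_mul ι _ _
    rw [h3]
    exact Submodule.span_mono h2 h1

end Pool.Agent.Lib.MP_666dc0_nt.ZO
end

section

/-!
TASK Q2e. The values of polynomial functions at the points `y * ĝ` are in a finite extension of `ℚ_ℓ`.

* `exists_field_poly`: fix `y`. By `Algebra.adjoin_induction` for `p ∈ polyFun D`: there is a finite extension `L` with `ι (p (y * H.hat D g)) ∈ L` for all `g`. Coordinate functions: `coord τ i j (y * ĝ) = ∑ l, coord τ i l y * H.s τ (mat g l j)` (`H.coord_hat`), `ι` of it is in the field generated by the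
  field of `exists_field_s` and the finitely many elements `ι (coord τ i l y)` (algebraic over `ℚ_ℓ`: `PadicAlgCl ℓ` is algebraic over `ℚ_[ℓ]`, `IntermediateField.adjoin.finiteDimensional`). Sums and products: the supremum `L ⊔ L'` is finite-dimensional (`IntermediateField.finiteDimensional_sup`). Scalars: adjoin `ι c`.
* `exists_field_finite`: a finite set of elements of `PadicAlgCl ℓ` is in a finite extension (`IntermediateField.finiteDimensional_adjoin`).
* `exists_field_polys`: the supremum of finitely many fields.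
-/

open NumberField IsDedekindDomain
open scoped NumberField

namespace Pool.Agent.Lib.MP_666dc0_nt.ZO

open WL

variable {F : Type} [Field F] [NumberField F] {n : ℕ} {D : Datum F n} {ℓ : ℕ} [Fact ℓ.Prime]
  {ι : ℂ ≃+* PadicAlgCl ℓ}

theorem exists_field_finite (s : Set (PadicAlgCl ℓ)) (hs : s.Finite) :
    ∃ L : IntermediateField ℚ_[ℓ] (PadicAlgCl ℓ), FiniteDimensional ℚ_[ℓ] L ∧ ∀ x ∈ s, x ∈ L := by
  have : Finite s := hs
  refine ⟨IntermediateField.adjoin ℚ_[ℓ] s, ?_, fun x hx => IntermediateField.subset_adjoin _ _ hx⟩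
  exact IntermediateField.finiteDimensional_adjoin fun x _ => (Algebra.IsAlgebraic.isAlgebraic x).isIntegral

theorem exists_field_poly (H : HatData F ℓ ι) {p : D.Cpx → ℂ} (hp : p ∈ polyFun D) (y : D.Cpx) :
    ∃ L : IntermediateField ℚ_[ℓ] (PadicAlgCl ℓ), FiniteDimensional ℚ_[ℓ] L ∧
      ∀ g : D.Ad, ι (p (y * H.hat D g)) ∈ L := by
  obtain ⟨L₀, hL₀, hs⟩ := exists_field_s H
  unfold polyFun at hp
  induction hp using Algebra.adjoin_induction with
  | mem p h =>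
    obtain ⟨τ, i, j, rfl⟩ := h
    obtain ⟨L₁, hL₁, h1⟩ := exists_field_finite (ℓ := ℓ) (Set.range fun l : Fin n => ι (coord D τ i l y))
      (Set.finite_range _)
    refine ⟨L₀ ⊔ L₁, ?_, fun g => ?_⟩
    · have := hL₀
      have := hL₁
      exact IntermediateField.finiteDimensional_sup L₀ L₁
    · have h2 : coord D τ i j (y * H.hat D g) = ∑ l, coord D τ i l y * H.s τ (mat g l j) := rfl
      rw [h2, map_sum]
      refine sum_mem fun l _ => ?_
      rw [map_mul]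
      exact mul_mem ((le_sup_right : L₁ ≤ L₀ ⊔ L₁) (h1 _ ⟨l, rfl⟩))
        ((le_sup_left : L₀ ≤ L₀ ⊔ L₁) (hs τ _))
  | algebraMap r =>
    obtain ⟨L₁, hL₁, h1⟩ := exists_field_finite (ℓ := ℓ) {ι r} (Set.finite_singleton _)
    exact ⟨L₁, hL₁, fun g => h1 _ rfl⟩
  | add p q _ _ hp hq =>
    obtain ⟨L, hL, h1⟩ := hp
    obtain ⟨L', hL', h2⟩ := hq
    refine ⟨L ⊔ L', ?_, fun g => ?_⟩
    · have := hL
      have := hL'
      exact IntermediateField.finiteDimensional_sup L L'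
    · have h3 : ι ((p + q) (y * H.hat D g)) = ι (p (y * H.hat D g)) + ι (q (y * H.hat D g)) :=
        map_add ι _ _
      rw [h3]
      exact add_mem ((le_sup_left : L ≤ L ⊔ L') (h1 g)) ((le_sup_right : L' ≤ L ⊔ L') (h2 g))
  | mul p q _ _ hp hq =>
    obtain ⟨L, hL, h1⟩ := hp
    obtain ⟨L', hL', h2⟩ := hq
    refine ⟨L ⊔ L', ?_, fun g => ?_⟩
    · have := hL
      have := hL'
      exact IntermediateField.finiteDimensional_sup L L'
    · have h3 : ι ((p * q) (y * H.hat D g)) = ι (p (y * H.hat D g)) * ι (q (y * H.hat D g)) :=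
        map_mul ι _ _
      rw [h3]
      exact mul_mem ((le_sup_left : L ≤ L ⊔ L') (h1 g)) ((le_sup_right : L' ≤ L ⊔ L') (h2 g))

theorem exists_field_polys (H : HatData F ℓ ι) {J J' : Type} [Finite J] [Finite J'] (p : J → D.Cpx → ℂ)
    (hp : ∀ j, p j ∈ polyFun D) (y : J' → D.Cpx) :
    ∃ L : IntermediateField ℚ_[ℓ] (PadicAlgCl ℓ), FiniteDimensional ℚ_[ℓ] L ∧
      ∀ (j : J) (j' : J') (g : D.Ad), ι (p j (y j' * H.hat D g)) ∈ L := by
  have h1 := fun t : J × J' => exists_field_poly H (hp t.1) (y t.2)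
  choose L hL h2 using h1
  refine ⟨⨆ t : J × J', L t, ?_, fun j j' g => ?_⟩
  · have := hL
    exact IntermediateField.finiteDimensional_iSup_of_finite
  · exact (le_iSup L (j, j')) (h2 (j, j') g)

end Pool.Agent.Lib.MP_666dc0_nt.ZO
end

section

/-!
TASK Q4. Coordinates of the vector valued functions.

Formula: for `Φ ∈ VF` and `g`, with `p = (cls g, mk (kap g))` and the `k ∈ K s` of `Chart.exists_split_bp`: `Φ g = Φ (pt (cls g) * kap g) = Φ (bp s p * k) = ρ k⁻¹ *ᵥ Φ (bp s p)` (`Chart.apply_eq`, `IsVF.eqv`).  (*)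
* `exists_coords`: `E Φ p j = Φ (bp s p) j` is linear and injective by (*). Surjective: given `f : R × PP K s → Fin w → 𝕂` put `Φ g = ρ k⁻¹ *ᵥ f (cls g, mk (kap g))` with `k : K 0`, `k = (Quotient.out (mk (kap g)))⁻¹ * kap g ∈ K s`. It is invariant (`cls_left`, `kap_left`, `cls_right`, `kap_tame`), and for `k' ∈ K s` (`kap (g k') = kap g * k'`,
  same class because `k' ∈ K s`): `k` is replaced by `k k'` and `ρ (k k')⁻¹ = ρ k'⁻¹ * ρ k⁻¹`. Value at `bp s p`: `kap (bp s p) = Quotient.out p.2` (`kap_mul`, `kap_pt`), so `k = 1`.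
  Norms: let `‖E Φ p i‖ ≤ C` for all `p i`. By (*) `Φ g j - Φ (bp s p) j = ∑ i, (ρ k⁻¹ j i - δ_ji) * Φ (bp s p) i`, of norm `≤ ℓ⁻¹ * C` (`hρ.close`, ultrametric; `C ≥ 0` since `‖E Φ p j‖ ≤ C`), and `‖Φ g j‖ ≤ max C (ℓ⁻¹ C) = C`.
* `finrank_VF_eq`: `E`, and `card (R × PP K s × Fin w)`; `Nat.card (PP K s) = ℓ ^ (s * d)` (`IsUniform.card_PP`), `finite_PP`.
-/

open NumberField IsDedekindDomain
open scoped NumberField

namespace Pool.Agent.Lib.MP_666dc0_nt.ZO

open WL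

variable {F : Type} [Field F] [NumberField F] {n : ℕ} {D : Datum F n} {ℓ : ℕ} [Fact ℓ.Prime] {d : ℕ}
  {U : Subgroup D.Ad} {K : ℕ → Subgroup D.Ad} {w : ℕ} {ρ : K 0 →* Matrix (Fin w) (Fin w) (PadicAlgCl ℓ)}

/-- The `K s`-part of the coordinate `kap g`. -/
private noncomputable def Q4_k (c : Chart U K) (s : ℕ) (g : D.Ad) : K 0 :=
  (Quotient.out (QuotientGroup.mk (c.kap g) : PP K s) : K 0)⁻¹ * c.kap g

private theorem Q4_k_mem (c : Chart U K) (s : ℕ) (g : D.Ad) : (Q4_k c s g : D.Ad) ∈ K s := by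
  have h1 : (QuotientGroup.mk (Quotient.out (QuotientGroup.mk (c.kap g) : PP K s)) : PP K s) =
      QuotientGroup.mk (c.kap g) := Quotient.out_eq _
  have h2 := QuotientGroup.eq.1 h1
  rw [Subgroup.mem_subgroupOf] at h2
  exact h2

private theorem Q4_split (c : Chart U K) (s : ℕ) (g : D.Ad) :
    c.pt (c.cls g) * c.kap g = c.bp s (c.cls g, QuotientGroup.mk (c.kap g)) * (Q4_k c s g : D.Ad) := by
  unfold Chart.bp Q4_k
  simp [mul_assoc]

private theorem Q4_apply (c : Chart U K) (hU : IsTame ℓ U) (hK : IsTow ℓ U K) {s : ℕ}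
    {Φ : D.Ad → Fin w → PadicAlgCl ℓ} (hΦ : IsVF U K ρ s Φ) (g : D.Ad) :
    Φ g = (ρ (Q4_k c s g)⁻¹).mulVec (Φ (c.bp s (c.cls g, QuotientGroup.mk (c.kap g)))) := by
  rw [c.apply_eq hU (hK.level 0).supp hΦ.tf g, Q4_split c s g, hΦ.eqv _ _ (Q4_k_mem c s g)]

/-- The function with the coordinates `f`. -/
private noncomputable def Q4_inv (c : Chart U K) (ρ : K 0 →* Matrix (Fin w) (Fin w) (PadicAlgCl ℓ)) (s : ℕ)
    (f : c.R × PP K s → Fin w → PadicAlgCl ℓ) : D.Ad → Fin w → PadicAlgCl ℓ :=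
  fun g => (ρ (Q4_k c s g)⁻¹).mulVec (f (c.cls g, QuotientGroup.mk (c.kap g)))

private theorem Q4_isVF (c : Chart U K) (s : ℕ)
    (f : c.R × PP K s → Fin w → PadicAlgCl ℓ) : IsVF U K ρ s (Q4_inv c ρ s f) := by
  refine ⟨⟨fun γ g => ?_, fun g u hu => ?_⟩, fun g k hk => ?_⟩
  · unfold Q4_inv Q4_k
    rw [c.cls_left, c.kap_left]
  · unfold Q4_inv Q4_k
    rw [c.cls_right _ _ (Subgroup.mem_sup_left hu), c.kap_tame _ _ hu]
  · have h1 : c.cls (g * k) = c.cls g := c.cls_right _ _ (Subgroup.mem_sup_right k.2)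
    have h2 : (QuotientGroup.mk (c.kap (g * k)) : PP K s) = QuotientGroup.mk (c.kap g) := by
      rw [c.kap_mul]
      refine QuotientGroup.mk_mul_of_mem _ ?_
      rw [Subgroup.mem_subgroupOf]
      exact hk
    have h3 : Q4_k c s (g * k) = Q4_k c s g * k := by
      unfold Q4_k
      rw [h2, c.kap_mul, mul_assoc]
    unfold Q4_inv
    rw [h1, h2, h3, mul_inv_rev, map_mul, Matrix.mulVec_mulVec]

private theorem Q4_inv_bp (c : Chart U K) (s : ℕ)
    (f : c.R × PP K s → Fin w → PadicAlgCl ℓ) (p : c.R × PP K s) : Q4_inv c ρ s f (c.bp s p) = f p := by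
  have h1 : c.kap (c.bp s p) = Quotient.out p.2 := by
    unfold Chart.bp
    rw [c.kap_mul, c.kap_pt, one_mul]
  have h2 : Q4_k c s (c.bp s p) = 1 := by
    unfold Q4_k
    rw [c.kap_bp, h1, inv_mul_cancel]
  unfold Q4_inv
  rw [h2, c.cls_bp, c.kap_bp, inv_one, map_one, Matrix.one_mulVec]

theorem exists_coords (c : Chart U K) (hU : IsTame ℓ U) (hK : IsTow ℓ U K) (hρ : IsSmallRep K ρ) (s : ℕ) :
    ∃ E : VF U K ρ s ≃ₗ[PadicAlgCl ℓ] (c.R × PP K s → Fin w → PadicAlgCl ℓ),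
      (∀ Φ p j, E Φ p j = Φ.1 (c.bp s p) j) ∧
      ∀ (Φ : VF U K ρ s) (C : ℝ), (∀ p i, ‖E Φ p i‖ ≤ C) → ∀ (g : D.Ad) (j : Fin w), ‖Φ.1 g j‖ ≤ C ∧
        ‖Φ.1 g j - E Φ (c.cls g, QuotientGroup.mk (c.kap g)) j‖ ≤ (ℓ : ℝ)⁻¹ * C := by
  let E : VF U K ρ s ≃ₗ[PadicAlgCl ℓ] (c.R × PP K s → Fin w → PadicAlgCl ℓ) :=
    { toFun := fun Φ p => Φ.1 (c.bp s p)
      map_add' := fun _ _ => rfl
      map_smul' := fun _ _ => rfl
      invFun := fun f => ⟨Q4_inv c ρ s f, Q4_isVF c s f⟩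
      left_inv := fun Φ => Subtype.ext (funext fun g => (Q4_apply c hU hK Φ.2 g).symm)
      right_inv := fun f => funext fun p => Q4_inv_bp c s f p }
  have hE : ∀ (Φ : VF U K ρ s) p, E Φ p = Φ.1 (c.bp s p) := fun _ _ => rfl
  refine ⟨E, fun Φ p j => by rw [hE], fun Φ C hC g j => ?_⟩
  have hC0 : 0 ≤ C := (norm_nonneg _).trans (hC (c.cls g, QuotientGroup.mk (c.kap g)) j)
  have hℓ0 : (0 : ℝ) < ℓ := Nat.cast_pos.2 (Fact.out : ℓ.Prime).pos
  have hℓ1 : (ℓ : ℝ)⁻¹ ≤ 1 := inv_le_one_of_one_le₀ (Nat.one_le_cast.2 (Fact.out : ℓ.Prime).one_le)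
  have hd : ‖Φ.1 g j - E Φ (c.cls g, QuotientGroup.mk (c.kap g)) j‖ ≤ (ℓ : ℝ)⁻¹ * C := by
    have h1 : Φ.1 g j - E Φ (c.cls g, QuotientGroup.mk (c.kap g)) j =
        ∑ i, (ρ (Q4_k c s g)⁻¹ j i - (1 : Matrix (Fin w) (Fin w) (PadicAlgCl ℓ)) j i) *
          E Φ (c.cls g, QuotientGroup.mk (c.kap g)) i := by
      have h2 : Φ.1 g j = ((ρ (Q4_k c s g)⁻¹).mulVec (E Φ (c.cls g, QuotientGroup.mk (c.kap g)))) j :=
        congrFun (Q4_apply c hU hK Φ.2 g) j
      have h3 : E Φ (c.cls g, QuotientGroup.mk (c.kap g)) j =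
          ((1 : Matrix (Fin w) (Fin w) (PadicAlgCl ℓ)).mulVec (E Φ (c.cls g, QuotientGroup.mk (c.kap g)))) j := by
        rw [Matrix.one_mulVec]
      rw [h2]
      conv_lhs => rw [h3]
      simp only [Matrix.mulVec, dotProduct]
      rw [← Finset.sum_sub_distrib]
      exact Finset.sum_congr rfl fun i _ => by rw [sub_mul]
    rw [h1]
    refine IsUltrametricDist.norm_sum_le_of_forall_le_of_nonneg (mul_nonneg (inv_nonneg.2 hℓ0.le) hC0) fun i _ => ?_
    rw [norm_mul]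
    exact mul_le_mul (hρ.close _ _ _) (hC _ _) (norm_nonneg _) (inv_nonneg.2 hℓ0.le)
  refine ⟨?_, hd⟩
  have h4 : Φ.1 g j = (Φ.1 g j - E Φ (c.cls g, QuotientGroup.mk (c.kap g)) j) +
      E Φ (c.cls g, QuotientGroup.mk (c.kap g)) j := by rw [sub_add_cancel]
  rw [h4]
  refine (IsUltrametricDist.norm_add_le_max _ _).trans (max_le ?_ (hC _ _))
  exact hd.trans (mul_le_of_le_one_left hC0 hℓ1)

theorem finrank_VF_eq (c : Chart U K) (hU : IsTame ℓ U) (hK : IsTow ℓ U K) (hρ : IsSmallRep K ρ) (s : ℕ) :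
    Module.finrank (PadicAlgCl ℓ) (VF U K ρ s) = Nat.card (PP K s) * w * Fintype.card c.R := by
  obtain ⟨E, -, -⟩ := exists_coords c hU hK hρ s
  have : Finite (PP K s) := hK.finite_PP s
  have : Fintype (PP K s) := Fintype.ofFinite _
  rw [E.finrank_eq, Module.finrank_pi_fintype]
  simp only [Module.finrank_fin_fun, Finset.sum_const, Finset.card_univ, Fintype.card_prod, smul_eq_mul]
  rw [Nat.card_eq_fintype_card]
  ring

end Pool.Agent.Lib.MP_666dc0_nt.ZO
end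

section

/-!
TASK G1c. The matrices at the levels `K s` and `J`.

`∑_{x, piJ x = y} dlt s (r, x) = (c.tow J).dlt 1 (r, y)` pointwise: at `g` the left side is `1` iff `cls g = r` and `piJ (mk (kap g)) = y`, and `piJ (mk (kap g)) = mk (kap g)` (`piJ_mk`; the functions `cls`, `kap` of `c.tow J` are those of `c`). Apply the linear map `T` and evaluate at `c.bp s (r', x')`: the left side of the claim is
`(T ((c.tow J).dlt ℓ 1 (r, y))).1 (c.bp s (r', x'))`. This function is right invariant under `J` (`isLC_T` and `isLC_dlt` for the tower `tow K J`, `hT.tow`), so its value at `g = c.bp s (r', x')` is its value at `(c.tow J).bp 1 (cls g, mk (kap g))` (`Chart.lc_eq` for `c.tow J`), where `cls g = r'` and the class of `kap g` in `K 0 / J` is `piJ x'`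
(`Chart.cls_bp`, `Chart.kap_bp`, `piJ_mk`).
-/

open NumberField IsDedekindDomain
open scoped NumberField

namespace Pool.Agent.Lib.MP_666dc0_nt.ZO

open WL

variable {F : Type} [Field F] [NumberField F] {n : ℕ} {D : Datum F n} {ℓ : ℕ} [Fact ℓ.Prime] {d : ℕ}
  {S : Finset (HeightOneSpectrum (𝓞 F))} {U : Subgroup D.Ad} {K : ℕ → Subgroup D.Ad} {J : Subgroup D.Ad}
  {T : Nice ℓ U →ₗ[PadicAlgCl ℓ] Nice ℓ U}

open Classical in
private theorem dlt_apply' {K' : ℕ → Subgroup D.Ad} (c : Chart U K') (s : ℕ) (p : c.R × PP K' s) (g : D.Ad) :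
    (c.dlt ℓ s p).1 g = if (c.cls g, (QuotientGroup.mk (c.kap g) : PP K' s)) = p then 1 else 0 := rfl

theorem sum_mT_tow (c : Chart U K) (hT : IsGoodOp K S T) (hU : IsTame ℓ U) (hK : IsUniform ℓ d U K)
    (hJ : IsLevel ℓ U J) (hle : J ≤ K 0) {s : ℕ} (hs : K s ≤ J) [Fintype (PP K s)]
    [DecidableEq (PP (tow K J) 1)] (r' r : c.R) (x' : PP K s) (y : PP (tow K J) 1) :
    ∑ x ∈ Finset.univ.filter (fun x : PP K s => piJ hs x = y), mT c T s (r', x') (r, x) =
      mT (c.tow J) T 1 (r', piJ hs x') (r, y) := by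
  classical
  have hTJ : IsTow ℓ U (ZO.tow K J) := tow_isTow hU hK hJ hle
  have hT' : IsGoodOp (ZO.tow K J) S T := hT.tow hU hK hJ hle
  have h1 : ∑ x ∈ Finset.univ.filter (fun x : PP K s => piJ hs x = y), c.dlt ℓ s (r, x) =
      (c.tow J).dlt ℓ 1 (r, y) := by
    apply Subtype.ext
    funext g
    have e1 : (c.tow J).cls g = c.cls g := rfl
    have e2 : (QuotientGroup.mk ((c.tow J).kap g) : PP (ZO.tow K J) 1) =
        piJ hs (QuotientGroup.mk (c.kap g)) := (piJ_mk hs (c.kap g)).symm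
    rw [Submodule.coe_sum, Finset.sum_apply, dlt_apply' (c.tow J) 1 (r, y) g, e1, e2,
      Finset.sum_congr rfl fun x _ => dlt_apply' c s (r, x) g]
    by_cases h : c.cls g = r
    · by_cases h' : piJ hs (QuotientGroup.mk (c.kap g)) = y
      · rw [if_pos (by rw [h, h']), Finset.sum_eq_single (QuotientGroup.mk (c.kap g) : PP K s)]
        · exact if_pos (by rw [h])
        · intro b _ hb
          exact if_neg fun h3 => hb (congrArg Prod.snd h3).symm
        · intro h3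
          exact absurd (Finset.mem_filter.2 ⟨Finset.mem_univ (QuotientGroup.mk (c.kap g) : PP K s), h'⟩) h3
      · rw [if_neg fun h3 => h' (congrArg Prod.snd h3)]
        refine Finset.sum_eq_zero fun b hb => ?_
        refine if_neg fun h3 => h' ?_
        have h4 : (QuotientGroup.mk (c.kap g) : PP K s) = b := congrArg Prod.snd h3
        rw [h4]
        exact (Finset.mem_filter.1 hb).2
    · rw [if_neg fun h3 => h (congrArg Prod.fst h3)]
      exact Finset.sum_eq_zero fun b _ => if_neg fun h3 => h (congrArg Prod.fst h3)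
  have h2 : ∑ x ∈ Finset.univ.filter (fun x : PP K s => piJ hs x = y), mT c T s (r', x') (r, x) =
      (T (∑ x ∈ Finset.univ.filter (fun x : PP K s => piJ hs x = y), c.dlt ℓ s (r, x))).1
        (c.bp s (r', x')) := by
    rw [map_sum, Submodule.coe_sum, Finset.sum_apply]
    rfl
  rw [h2, h1]
  have h3 := isLC_T hT' hTJ (isLC_dlt (ℓ := ℓ) (c.tow J) hTJ 1 (r, y))
  rw [(c.tow J).lc_eq hU (hTJ.level 0).supp h3 (c.bp s (r', x'))]
  have e1 : (c.tow J).cls (c.bp s (r', x')) = r' := c.cls_bp s (r', x')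
  have e2 : (QuotientGroup.mk ((c.tow J).kap (c.bp s (r', x'))) : PP (ZO.tow K J) 1) = piJ hs x' := by
    have h4 := piJ_mk hs (c.kap (c.bp s (r', x')))
    rw [c.kap_bp s (r', x')] at h4
    exact h4.symm
  rw [e1, e2]
  rfl

end Pool.Agent.Lib.MP_666dc0_nt.ZO
end

section

/-!
TASK G6. The ranks of the reduced matrices of a good operator at two levels `J ≤ J'`.

Let `s` with `K s ≤ J` (`exists_level_le` of W0 with `hK.tow`). Apply `rank_subgroup` (P2c) with `P = PP K s` (`hK.isPGroup_PP`, `hK.finite_PP`), `R = c.R`, `Y = PP (tow K J) 1`, `Y' = PP (tow K J') 1`, `π = piJ hs`, `π' = piJ (hs.trans hJJ')` (`piJ_surjective`, `piJ_eq_iff`; `H = (J.subgroupOf (K 0)).map (mk' ..)`, `H'` the same for `J'`;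
`H ≤ H'`: `Subgroup.map_mono`), `h = toLin' ((mT c T s).map r.app)`, `hY = toLin' ((mT (c.tow J) T 1).map r.app)`, `hY' = toLin' ((mT (c.tow J') T 1).map r.app)` (`CharP k ℓ` from `Red.charP`; instances `Fintype (PP K s)`, `DecidableEq (PP K s)` classically).
* `hh` (equivariance): exactly as in the proof of `srank_mT` (file G5 of this campaign, MP_666dc0_ZO_G5.lean on the store: copy; there `hK : IsUniform`, use `hK.tow`): `h (fun p => f (p.1, p.2 * y)) (r', x') = ∑ (r, x), app (mT (r', x') (r, x)) * f (r, x * y)`, `mT (r', x') (r, x) = mT (r', x' * y) (r, x * y)` (`mT_mul`), substitute `x ↦ x * y`.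
* `hhY`, `hhY'` (one private lemma for both): `h (fun p => f (p.1, π p.2)) (r', x') = ∑ r, ∑ x, app (mT (r', x') (r, x)) * f (r, π x) = ∑ r, ∑ y, (∑_{x, π x = y} app (mT (r', x') (r, x))) * f (r, y)` (`Finset.sum_fiberwise`), and the inner sum is `app (∑_{x, π x = y} mT (r', x') (r, x)) = app (mT (c.tow J) T 1 (r', π x') (r, y))`
  (`Red.app_sum`, `norm_mT_le`, `sum_mT_tow`).
-/

open NumberField IsDedekindDomain
open scoped NumberField

namespace Pool.Agent.Lib.MP_666dc0_nt.ZO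

open WL

private theorem G6_toLin {I k : Type} [Fintype I] [DecidableEq I] [Field k] (M : Matrix I I k) (f : I → k)
    (i : I) : Matrix.toLin' M f i = ∑ j, M i j * f j := by
  rw [Matrix.toLin'_apply]
  rfl

private theorem G6_hhY {F : Type} [Field F] [NumberField F] {n : ℕ} {D : Datum F n} {ℓ : ℕ} [Fact ℓ.Prime] {d : ℕ}
    {S : Finset (HeightOneSpectrum (𝓞 F))} {U : Subgroup D.Ad} {K : ℕ → Subgroup D.Ad} {J : Subgroup D.Ad}
    {T : Nice ℓ U →ₗ[PadicAlgCl ℓ] Nice ℓ U} {s : ℕ} [Fintype (PP K s)] [DecidableEq (PP K s)]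
    [Fintype (PP (tow K J) 1)] [DecidableEq (PP (tow K J) 1)] {k : Type} [Field k] (r : Red ℓ k) (c : Chart U K)
    (hT : IsGoodOp K S T) (hU : IsTame ℓ U) (hK : IsUniform ℓ d U K) (hJ : IsLevel ℓ U J) (hle : J ≤ K 0)
    (hs : K s ≤ J) (f : c.R × PP (tow K J) 1 → k) :
    Matrix.toLin' ((mT c T s).map r.app) (fun p => f (p.1, piJ hs p.2)) =
      fun p => Matrix.toLin' ((mT (c.tow J) T 1).map r.app) f (p.1, piJ hs p.2) := by
  funext p
  obtain ⟨r', x'⟩ := p
  rw [G6_toLin]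
  refine Eq.trans ?_ (G6_toLin ((mT (c.tow J) T 1).map r.app) f (r', piJ hs x')).symm
  rw [Fintype.sum_prod_type, Fintype.sum_prod_type]
  refine Finset.sum_congr rfl fun r₁ _ => ?_
  change ∑ x₁, r.app (mT c T s (r', x') (r₁, x₁)) * f (r₁, piJ hs x₁) =
    ∑ y, r.app (mT (c.tow J) T 1 (r', piJ hs x') (r₁, y)) * f (r₁, y)
  rw [← Finset.sum_fiberwise Finset.univ (fun x₁ => piJ hs x₁)]
  refine Finset.sum_congr rfl fun y _ => ?_
  have h1 : ∑ x₁ ∈ Finset.univ.filter (fun x : PP K s => piJ hs x = y),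
      r.app (mT c T s (r', x') (r₁, x₁)) * f (r₁, piJ hs x₁) =
      ∑ x₁ ∈ Finset.univ.filter (fun x : PP K s => piJ hs x = y),
        r.app (mT c T s (r', x') (r₁, x₁)) * f (r₁, y) := by
    refine Finset.sum_congr rfl fun x hx => ?_
    rw [(Finset.mem_filter.1 hx).2]
  rw [h1, ← Finset.sum_mul, ← sum_mT_tow c hT hU hK hJ hle hs r' r₁ x' y,
    r.app_sum _ fun x₁ _ => norm_mT_le c hT hK.tow s (r', x') (r₁, x₁)]

theorem rank_mT_tow {F : Type} [Field F] [NumberField F] {n : ℕ} {D : Datum F n} {ℓ : ℕ} [Fact ℓ.Prime] {d : ℕ}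
    {S : Finset (HeightOneSpectrum (𝓞 F))} {U : Subgroup D.Ad} {K : ℕ → Subgroup D.Ad}
    [hnorm : ∀ s, ((K s).subgroupOf (K 0)).Normal] {J J' : Subgroup D.Ad}
    {T : Nice ℓ U →ₗ[PadicAlgCl ℓ] Nice ℓ U}
    [Fintype (PP (tow K J) 1)] [DecidableEq (PP (tow K J) 1)]
    [Fintype (PP (tow K J') 1)] [DecidableEq (PP (tow K J') 1)] {k : Type} [Field k] (r : Red ℓ k) (c : Chart U K)
    (hT : IsGoodOp K S T) (hU : IsTame ℓ U) (hK : IsUniform ℓ d U K) (hJ : IsLevel ℓ U J)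
    (hJ' : IsLevel ℓ U J') (hJJ' : J ≤ J') (hle : J' ≤ K 0) :
    Nat.card (PP (tow K J) 1) *
        Module.finrank k (LinearMap.range (Matrix.toLin' ((mT (c.tow J') T 1).map r.app))) ≤
      Nat.card (PP (tow K J') 1) *
        Module.finrank k (LinearMap.range (Matrix.toLin' ((mT (c.tow J) T 1).map r.app))) := by
  classical
  have : CharP k ℓ := r.charP
  obtain ⟨s, hs⟩ := exists_level_le hU hK.tow hJ
  have : Finite (PP K s) := hK.finite_PP s
  let _ := Fintype.ofFinite (PP K s)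
  refine rank_subgroup k (PP K s) (hK.isPGroup_PP s) c.R (PP (tow K J) 1) (PP (tow K J') 1) (piJ hs)
    (piJ_surjective hs) (piJ (hs.trans hJJ')) (piJ_surjective (hs.trans hJJ')) _ _
    (Subgroup.map_mono (Subgroup.comap_mono hJJ')) (piJ_eq_iff hs) (piJ_eq_iff (hs.trans hJJ'))
    (Matrix.toLin' ((mT c T s).map r.app)) _ _ ?_ ?_ ?_
  · intro y f
    funext p
    obtain ⟨r', x'⟩ := p
    rw [G6_toLin, G6_toLin]
    refine Eq.trans ?_ (Equiv.sum_comp ((Equiv.refl c.R).prodCongr (Equiv.mulRight y)) _)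
    refine Finset.sum_congr rfl fun p _ => ?_
    obtain ⟨r₁, x₁⟩ := p
    change r.app (mT c T s (r', x') (r₁, x₁)) * f (r₁, x₁ * y) =
      r.app (mT c T s (r', x' * y) (r₁, x₁ * y)) * f (r₁, x₁ * y)
    rw [mT_mul c hT hU hK.tow s r' r₁ x' x₁ y]
  · exact G6_hhY r c hT hU hK hJ (hJJ'.trans hle) hs
  · exact G6_hhY r c hT hU hK hJ' hle (hs.trans hJJ')

end Pool.Agent.Lib.MP_666dc0_nt.ZO
end

section

/-!
TASK G7. The rank of the reduced matrix of a good operator is at least the rank of the multiplication by one of its blocks.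

Let `ι : MonoidAlgebra k P → (R × P → k)`, `ι a (r, x) = if r = r₀ then a.coeff x else 0`, `M = toLin' ((mT c T s).map r.app)`, and `π : (R × P → k) → (P → k)` the restriction to the row `r'`. Then `π (M (ι a)) x' = ∑ x, app (mT (r', x') (r₀, x)) * a.coeff x = ∑ x, app (mT (r', x' * x⁻¹) (r₀, 1)) * a.coeff x` (`mT_mul` with `x' * x⁻¹`, `1`, `y = x`)
`= ∑ x, b.coeff (x' * x⁻¹) * a.coeff x = (b * a).coeff x'` (by linearity it is enough to check it for `a = single y c`: `MonoidAlgebra.coeff_mul_single_apply`; or induction as in M6 of the first version). So `mulLeft b` composed with the (injective) map `coeff` is `π ∘ M ∘ ι`, hence `finrank (range (mulLeft b)) ≤ finrank (range M)`: compose with the inverse of the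
bijection `coeff : MonoidAlgebra k P ≃ (P → k)` (`P` finite: `PP K s` is finite, `hK.finite_PP s`) to get `mulLeft b = φ ∘ M ∘ ι` with `φ` linear; `range (φ ∘ M ∘ ι) ≤ map φ (range M)` and `Submodule.finrank_map_le`.
-/

open NumberField IsDedekindDomain
open scoped NumberField

namespace Pool.Agent.Lib.MP_666dc0_nt.ZO

open WL

private theorem coeff_mul_eq {k : Type} [Field k] {P : Type} [Group P] [Fintype P] (b a : MonoidAlgebra k P)
    (x' : P) : (b * a).coeff x' = ∑ x, b.coeff (x' * x⁻¹) * a.coeff x := by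
  classical
  induction a using MonoidAlgebra.induction_linear with
  | zero => simp
  | add f g hf hg =>
    rw [mul_add, MonoidAlgebra.coeff_add, Finsupp.add_apply, hf, hg, ← Finset.sum_add_distrib]
    refine Finset.sum_congr rfl fun x _ => ?_
    rw [MonoidAlgebra.coeff_add, Finsupp.add_apply, mul_add]
  | single y c =>
    rw [MonoidAlgebra.coeff_mul_single_apply, Finset.sum_eq_single y]
    · rw [MonoidAlgebra.coeff_single, Finsupp.single_eq_same]
    · intro z _ hz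
      rw [MonoidAlgebra.coeff_single, Finsupp.single_apply, if_neg fun h => hz h.symm, mul_zero]
    · intro h
      exact absurd (Finset.mem_univ y) h

private theorem finrank_range_comp_le {k V₁ V₂ V₃ V₄ : Type} [Field k] [AddCommGroup V₁] [Module k V₁]
    [AddCommGroup V₂] [Module k V₂] [AddCommGroup V₃] [Module k V₃] [AddCommGroup V₄] [Module k V₄]
    [FiniteDimensional k V₃] (f : V₁ →ₗ[k] V₂) (M : V₂ →ₗ[k] V₃) (φ : V₃ →ₗ[k] V₄) :
    Module.finrank k (LinearMap.range (φ ∘ₗ M ∘ₗ f)) ≤ Module.finrank k (LinearMap.range M) := by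
  have h1 : LinearMap.range (φ ∘ₗ M ∘ₗ f) ≤ (LinearMap.range M).map φ := by
    rintro _ ⟨x, rfl⟩
    exact ⟨M (f x), ⟨f x, rfl⟩, rfl⟩
  exact (Submodule.finrank_mono h1).trans (Submodule.finrank_map_le φ _)

theorem rank_block {F : Type} [Field F] [NumberField F] {n : ℕ} {D : Datum F n} {ℓ : ℕ} [Fact ℓ.Prime]
    {S : Finset (HeightOneSpectrum (𝓞 F))} {U : Subgroup D.Ad} {K : ℕ → Subgroup D.Ad}
    [hnorm : ∀ s, ((K s).subgroupOf (K 0)).Normal]
    {T : Nice ℓ U →ₗ[PadicAlgCl ℓ] Nice ℓ U} (s : ℕ)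
    [Fintype (PP K s)] [DecidableEq (PP K s)] {k : Type} [Field k] (r : Red ℓ k) (c : Chart U K)
    (hT : IsGoodOp K S T) (hU : IsTame ℓ U) (hK : IsTow ℓ U K) (r' r₀ : c.R) (b : MonoidAlgebra k (PP K s))
    (hb : ∀ x, b.coeff x = r.app (mT c T s (r', x) (r₀, 1))) :
    Module.finrank k (LinearMap.range (LinearMap.mulLeft k b)) ≤
      Module.finrank k (LinearMap.range (Matrix.toLin' ((mT c T s).map r.app))) := by
  classical
  let ψ : MonoidAlgebra k (PP K s) ≃ₗ[k] (PP K s → k) :=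
    (MonoidAlgebra.coeffLinearEquiv k).trans (Finsupp.linearEquivFunOnFinite k k (PP K s))
  let ι : MonoidAlgebra k (PP K s) →ₗ[k] (c.R × PP K s → k) :=
    { toFun := fun a p => if p.1 = r₀ then a.coeff p.2 else 0
      map_add' := fun a a' => by
        funext p
        by_cases h : p.1 = r₀
        · simp only [h, if_true, Pi.add_apply, MonoidAlgebra.coeff_add, Finsupp.add_apply]
        · simp only [h, if_false, Pi.add_apply, add_zero]
      map_smul' := fun t a => by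
        funext p
        by_cases h : p.1 = r₀
        · simp only [h, if_true, Pi.smul_apply, MonoidAlgebra.coeff_smul, Finsupp.smul_apply,
            RingHom.id_apply]
        · simp only [h, if_false, Pi.smul_apply, smul_zero] }
  let π : (c.R × PP K s → k) →ₗ[k] (PP K s → k) := LinearMap.funLeft k k (fun x => (r', x))
  have key : LinearMap.mulLeft k b =
      (ψ.symm.toLinearMap ∘ₗ π) ∘ₗ (Matrix.toLin' ((mT c T s).map r.app)) ∘ₗ ι := by
    apply LinearMap.ext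
    intro a
    rw [LinearMap.comp_apply, LinearMap.comp_apply, LinearMap.comp_apply, LinearMap.mulLeft_apply]
    have h0 : ψ (b * a) = π ((Matrix.toLin' ((mT c T s).map r.app)) (ι a)) := by
      funext x'
      have h1 : ψ (b * a) x' = (b * a).coeff x' := rfl
      have h2 : π ((Matrix.toLin' ((mT c T s).map r.app)) (ι a)) x' =
          ∑ p : c.R × PP K s, r.app (mT c T s (r', x') p) * (if p.1 = r₀ then a.coeff p.2 else 0) := by
        change (Matrix.toLin' ((mT c T s).map r.app)) (ι a) (r', x') = _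
        rw [Matrix.toLin'_apply]
        rfl
      rw [h1, h2, coeff_mul_eq, Fintype.sum_prod_type, Finset.sum_eq_single r₀]
      · refine Finset.sum_congr rfl fun x _ => ?_
        rw [if_pos rfl, hb]
        have h3 := mT_mul c hT hU hK s r' r₀ (x' * x⁻¹) 1 x
        rw [inv_mul_cancel_right, one_mul] at h3
        rw [h3]
      · intro y _ hy
        refine Finset.sum_eq_zero fun x _ => ?_
        rw [if_neg hy, mul_zero]
      · intro h
        exact absurd (Finset.mem_univ r₀) h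
    have h4 := congrArg ψ.symm h0
    rw [LinearEquiv.symm_apply_apply] at h4
    exact h4
  rw [key]
  exact finrank_range_comp_le ι _ _

end Pool.Agent.Lib.MP_666dc0_nt.ZO
end

section

/-!
TASK Q4b. The coordinates of the vector valued functions are bounded and uniformly continuous.

Formula: for `Φ ∈ VF` and `g`, with `p = (cls g, mk (kap g))` and the `k ∈ K s` of `Chart.exists_split_bp`: `Φ g = Φ (pt (cls g) * kap g) = Φ (bp s p * k) = ρ k⁻¹ *ᵥ Φ (bp s p)` (`Chart.apply_eq`, `IsVF.eqv`).  (*) The norms: `exists_coords` of Q4.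
* `isNice_coord`: `right`: `IsTF.right`. `field`: by (*) the values are in the field generated by the field of `hρ.field` and the finitely many `Φ (bp s p) i` (`exists_field_finite` of `Q2e`, supremum). `bdd`: by the norms, `C` the maximum over the finite set.
* `isUC_coord`: `tf`: clear. `cont`: let `C` be a bound of all `‖Φ g i‖` (take `C > 0`), `s'` from `hρ.cont (ε / C)`, `s'' = max s s'`; for `k ∈ K s''`: `Φ (g k) j - Φ g j = ∑ i (ρ k⁻¹ j i - δ_ji) Φ g i`, of norm `≤ (ε / C) * C` (`k⁻¹ ∈ K s'`; `IsUniform.K_le`).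
-/

open NumberField IsDedekindDomain
open scoped NumberField

namespace Pool.Agent.Lib.MP_666dc0_nt.ZO

open WL

variable {F : Type} [Field F] [NumberField F] {n : ℕ} {D : Datum F n} {ℓ : ℕ} [Fact ℓ.Prime] {d : ℕ}
  {U : Subgroup D.Ad} {K : ℕ → Subgroup D.Ad} {w : ℕ} {ρ : K 0 →* Matrix (Fin w) (Fin w) (PadicAlgCl ℓ)}

private theorem split_VF (c : Chart U K) (hU : IsTame ℓ U) (hK : IsTow ℓ U K) {s : ℕ}
    (Φ : VF U K ρ s) (g : D.Ad) : ∃ k : K 0, (k : D.Ad) ∈ K s ∧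
      Φ.1 g = (ρ k⁻¹).mulVec (Φ.1 (c.bp s (c.cls g, QuotientGroup.mk (c.kap g)))) := by
  obtain ⟨k, hk, h⟩ := c.exists_split_bp s g
  refine ⟨k, hk, ?_⟩
  rw [c.apply_eq hU (hK.level 0).supp Φ.2.tf g, h, Φ.2.eqv _ k hk]

private theorem bdd_VF (c : Chart U K) (hU : IsTame ℓ U) (hK : IsTow ℓ U K) (hρ : IsSmallRep K ρ)
    {s : ℕ} (Φ : VF U K ρ s) : ∃ C : ℝ, 0 < C ∧ ∀ (g : D.Ad) (j : Fin w), ‖Φ.1 g j‖ ≤ C := by
  obtain ⟨E, hE, hn⟩ := exists_coords c hU hK hρ s
  have : Finite (PP K s) := hK.finite_PP s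
  have hfin : (Set.range fun p : (c.R × PP K s) × Fin w => ‖E Φ p.1 p.2‖).Finite := Set.finite_range _
  obtain ⟨C, hC⟩ := hfin.bddAbove
  refine ⟨max C 1, lt_of_lt_of_le one_pos (le_max_right _ _), fun g j =>
    (hn Φ (max C 1) (fun p i => ?_) g j).1⟩
  exact (hC ⟨(p, i), rfl⟩).trans (le_max_left _ _)

theorem isNice_coord (c : Chart U K) (hU : IsTame ℓ U) (hK : IsTow ℓ U K) (hρ : IsSmallRep K ρ) {s : ℕ}
    (Φ : VF U K ρ s) (j : Fin w) : IsNice U (fun g => Φ.1 g j) := by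
  refine ⟨fun g u hu => congrFun (Φ.2.tf.right g u hu) j, ?_, ?_⟩
  · obtain ⟨L, hL, hLρ⟩ := hρ.field
    have : Finite (PP K s) := hK.finite_PP s
    obtain ⟨L', hL', hLv⟩ := exists_field_finite (ℓ := ℓ)
      (Set.range fun p : (c.R × PP K s) × Fin w => Φ.1 (c.bp s p.1) p.2) (Set.finite_range _)
    refine ⟨L ⊔ L', inferInstance, fun g => ?_⟩
    obtain ⟨k, hk, h⟩ := split_VF c hU hK Φ g
    show Φ.1 g j ∈ L ⊔ L'
    rw [h]
    show (∑ i, ρ k⁻¹ j i * Φ.1 (c.bp s (c.cls g, QuotientGroup.mk (c.kap g))) i) ∈ L ⊔ L'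
    refine sum_mem fun i _ => mul_mem ?_ ?_
    · exact (le_sup_left : L ≤ L ⊔ L') (hLρ _ _ _)
    · exact (le_sup_right : L' ≤ L ⊔ L') (hLv _ ⟨((c.cls g, QuotientGroup.mk (c.kap g)), i), rfl⟩)
  · obtain ⟨C, _, hC⟩ := bdd_VF c hU hK hρ Φ
    exact ⟨C, fun g => hC g j⟩

theorem isUC_coord (c : Chart U K) (hU : IsTame ℓ U) (hK : IsTow ℓ U K) (hρ : IsSmallRep K ρ) {s : ℕ}
    (Φ : VF U K ρ s) (j : Fin w) : IsUC U K (fun g => Φ.1 g j) := by
  refine ⟨⟨fun γ g => congrFun (Φ.2.tf.left γ g) j, fun g u hu => congrFun (Φ.2.tf.right g u hu) j⟩,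
    fun ε hε => ?_⟩
  obtain ⟨C, hC0, hC⟩ := bdd_VF c hU hK hρ Φ
  obtain ⟨s', hs'⟩ := hρ.cont (ε / C) (div_pos hε hC0)
  refine ⟨max s s', fun k hk g => ?_⟩
  have hk1 : k ∈ K s := hK.K_le (le_max_left s s') hk
  have hk2 : k ∈ K s' := hK.K_le (le_max_right s s') hk
  have hk0 : k ∈ K 0 := hK.K_le (Nat.zero_le s) hk1
  have h := Φ.2.eqv g ⟨k, hk0⟩ hk1
  have h1 : Φ.1 (g * k) j - Φ.1 g j
      = ∑ i, (ρ (⟨k, hk0⟩ : K 0)⁻¹ j i - (1 : Matrix (Fin w) (Fin w) (PadicAlgCl ℓ)) j i) * Φ.1 g i := by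
    have h2 : Φ.1 (g * k) j = ∑ i, ρ (⟨k, hk0⟩ : K 0)⁻¹ j i * Φ.1 g i := by
      rw [h]; rfl
    have h3 : Φ.1 g j = ∑ i, (1 : Matrix (Fin w) (Fin w) (PadicAlgCl ℓ)) j i * Φ.1 g i := by
      have := congrFun (Matrix.one_mulVec (Φ.1 g)) j
      rw [← this]
      rfl
    rw [h2]
    conv_lhs => rw [h3]
    rw [← Finset.sum_sub_distrib]
    exact Finset.sum_congr rfl fun i _ => by rw [sub_mul]
  show ‖Φ.1 (g * k) j - Φ.1 g j‖ ≤ ε
  rw [h1]
  refine IsUltrametricDist.norm_sum_le_of_forall_le_of_nonneg hε.le fun i _ => ?_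
  rw [norm_mul]
  have hk3 : (((⟨k, hk0⟩ : K 0)⁻¹ : K 0) : D.Ad) ∈ K s' := by
    rw [Subgroup.coe_inv]
    exact (K s').inv_mem hk2
  calc ‖ρ (⟨k, hk0⟩ : K 0)⁻¹ j i - (1 : Matrix (Fin w) (Fin w) (PadicAlgCl ℓ)) j i‖ * ‖Φ.1 g i‖
      ≤ (ε / C) * C := mul_le_mul (hs' _ hk3 j i) (hC g i) (norm_nonneg _) (div_pos hε hC0).le
    _ = ε := div_mul_cancel₀ ε hC0.ne'

end Pool.Agent.Lib.MP_666dc0_nt.ZO
end

section

/-!
TASK G5c. The stable rank of the reduced matrix of a good operator at a level `J`.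

Let `s` with `K s ≤ J` (`exists_level_le` of W0 with `hK.tow`). Apply `srank_subgroup` (P2c) with `P = PP K s` (`hK.isPGroup_PP`, `hK.finite_PP`), `R = c.R`, `Y = PP (tow K J) 1`, `π = piJ hs` (`piJ_surjective`, `piJ_eq_iff`), `h = toLin' ((mT c T s).map r.app)`, `hY = toLin' ((mT (c.tow J) T 1).map r.app)`,
`h₀ = toLin' ((mT0 c T).map r.app)` (`CharP k ℓ` from `Red.charP`; instances `Fintype (PP K s)`, `DecidableEq (PP K s)` classically).
* `hh` (equivariance) and `hh₀`: exactly as in the proof of `srank_mT` (file G5 of this campaign, MP_666dc0_ZO_G5.lean on the store: copy; there `hK : IsUniform`, use `hK.tow`): `h (fun p => f (p.1, p.2 * y)) (r', x') = ∑ (r, x), app (mT (r', x') (r, x)) * f (r, x * y)`, `mT (r', x') (r, x) = mT (r', x' * y) (r, x * y)` (`mT_mul`), substitute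
  `x ↦ x * y`; `h (fun p => f p.1) (r', x') = ∑ r, (∑ x, app (mT (r', x') (r, x))) * f r` and `Red.app_sum`, `norm_mT_le`, `sum_mT`.
* `hhY`: `h (fun p => f (p.1, π p.2)) (r', x') = ∑ r, ∑ x, app (mT (r', x') (r, x)) * f (r, π x) = ∑ r, ∑ y, (∑_{x, π x = y} app (mT (r', x') (r, x))) * f (r, y)` (`Finset.sum_fiberwise`), and the inner sum is `app (∑_{x, π x = y} mT (r', x') (r, x)) = app (mT (c.tow J) T 1 (r', π x') (r, y))` (`Red.app_sum`, `norm_mT_le`, `sum_mT_tow`).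
-/

open NumberField IsDedekindDomain
open scoped NumberField

namespace Pool.Agent.Lib.MP_666dc0_nt.ZO

open WL

private theorem G5c_toLin {I k : Type} [Fintype I] [DecidableEq I] [Field k] (M : Matrix I I k) (f : I → k)
    (i : I) : Matrix.toLin' M f i = ∑ j, M i j * f j := by
  rw [Matrix.toLin'_apply]
  rfl

theorem srank_mT_tow {F : Type} [Field F] [NumberField F] {n : ℕ} {D : Datum F n} {ℓ : ℕ} [Fact ℓ.Prime] {d : ℕ}
    {S : Finset (HeightOneSpectrum (𝓞 F))} {U : Subgroup D.Ad} {K : ℕ → Subgroup D.Ad}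
    [hnorm : ∀ s, ((K s).subgroupOf (K 0)).Normal] {J : Subgroup D.Ad}
    {T : Nice ℓ U →ₗ[PadicAlgCl ℓ] Nice ℓ U}
    [Fintype (PP (tow K J) 1)] [DecidableEq (PP (tow K J) 1)] {k : Type} [Field k] (r : Red ℓ k) (c : Chart U K)
    (hT : IsGoodOp K S T) (hU : IsTame ℓ U) (hK : IsUniform ℓ d U K) (hJ : IsLevel ℓ U J) (hle : J ≤ K 0) :
    srank (Matrix.toLin' ((mT (c.tow J) T 1).map r.app)) =
      Nat.card (PP (tow K J) 1) * srank (Matrix.toLin' ((mT0 c T).map r.app)) := by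
  classical
  obtain ⟨s, hs⟩ := exists_level_le hU hK.tow hJ
  have : CharP k ℓ := r.charP
  have hfin : Finite (PP K s) := hK.finite_PP s
  let instF : Fintype (PP K s) := Fintype.ofFinite _
  refine srank_subgroup k (PP K s) (hK.isPGroup_PP s) c.R (PP (tow K J) 1) (piJ hs) (piJ_surjective hs)
    ((J.subgroupOf (K 0)).map (QuotientGroup.mk' ((K s).subgroupOf (K 0)))) (piJ_eq_iff hs)
    (Matrix.toLin' ((mT c T s).map r.app)) _ _ ?_ ?_ ?_
  · intro y f
    funext p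
    obtain ⟨r', x'⟩ := p
    rw [G5c_toLin, G5c_toLin]
    refine Eq.trans ?_ (Equiv.sum_comp ((Equiv.refl c.R).prodCongr (Equiv.mulRight y)) _)
    refine Finset.sum_congr rfl fun p _ => ?_
    obtain ⟨r₁, x₁⟩ := p
    change r.app (mT c T s (r', x') (r₁, x₁)) * f (r₁, x₁ * y) =
      r.app (mT c T s (r', x' * y) (r₁, x₁ * y)) * f (r₁, x₁ * y)
    rw [mT_mul c hT hU hK.tow s r' r₁ x' x₁ y]
  · intro f
    funext p
    obtain ⟨r', x'⟩ := p
    refine (G5c_toLin _ _ _).trans (Eq.trans ?_ (G5c_toLin _ _ _).symm)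
    refine (Fintype.sum_prod_type _).trans (Eq.trans ?_ (Fintype.sum_prod_type _).symm)
    refine Finset.sum_congr rfl fun r₁ _ => ?_
    change ∑ x₁, r.app (mT c T s (r', x') (r₁, x₁)) * f (r₁, piJ hs x₁) =
      ∑ y, r.app (mT (c.tow J) T 1 (r', piJ hs x') (r₁, y)) * f (r₁, y)
    rw [← Finset.sum_fiberwise Finset.univ (piJ hs)]
    refine Finset.sum_congr rfl fun y _ => ?_
    rw [← sum_mT_tow c hT hU hK hJ hle hs r' r₁ x' y,
      r.app_sum _ fun x₁ _ => norm_mT_le c hT hK.tow s (r', x') (r₁, x₁), Finset.sum_mul]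
    refine Finset.sum_congr rfl fun x₁ hx₁ => ?_
    rw [(Finset.mem_filter.1 hx₁).2]
  · intro f
    funext p
    obtain ⟨r', x'⟩ := p
    rw [G5c_toLin, G5c_toLin, Fintype.sum_prod_type]
    refine Finset.sum_congr rfl fun r₁ _ => ?_
    change ∑ x₁, r.app (mT c T s (r', x') (r₁, x₁)) * f r₁ = r.app (mT0 c T r' r₁) * f r₁
    rw [← Finset.sum_mul, ← sum_mT c hT hU hK.tow s r' r₁ x',
      r.app_sum Finset.univ fun x₁ _ => norm_mT_le c hT hK.tow s (r', x') (r₁, x₁)]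

end Pool.Agent.Lib.MP_666dc0_nt.ZO
end

section

/-!
TASK X1. The group `K 0` acts freely on `G(F) \ G(𝔸_f) / U`.

Let `g⁻¹ γ g ∈ U ⊔ K 0`. All powers `g⁻¹ γ ^ j g` are in the compact set `U ⊔ K 0` (`(hK.level 0).isCompact`), so the elements `γ ^ j` of `G(F)` are in a finite set (`finite_rat_of_isCompact` of `WL/A5` with the compact set `g (U ⊔ K 0) g⁻¹`), so `γ ^ N = 1` for some `N > 0`. Write
`g⁻¹ γ g = u k` with `u ∈ U`, `k ∈ K 0` (`mem_sup_iff` of `WL/C5a`, `(hK.level 0).supp`). `u` and `k` commute (`mul_comm_of_disjoint`; `u` is trivial at the places above `ℓ` by `hU`, `k` at the others), so `u ^ N * k ^ N = 1 = 1 * 1`, and `k ^ N = 1` by `mul_unique` of `WL/F2`.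
Choose `H : HatData F ℓ ι` (`exists_hatData` of `WL/D0`). For each `τ` the matrix `M = (ι (coord D τ i j (H.hat D k)))` satisfies `M ^ N = 1` (`H.hat D` is a homomorphism, `ι` a ring homomorphism: the matrix is the image of the matrix of `(H.hat D k) τ` under `Matrix.map ι`) and `M = 1 + E` with entries of `E` of norm `≤ ℓ⁻¹ ^ 2`
(`hat_congr` with `m = 2`, `hK.entries`). By `X0` (`eq_zero_of_pow_eq_one`) `E = 0`, for all `τ`, so `H.hat D k = 1` (`Cpx_ext` of `WL/D1`) and `k = 1` (`hat_injective` of `WL/D1`). So `g⁻¹ γ g = u` is trivial at the places above `ℓ`, and so is `γ = g u g⁻¹`. There is such a place (`H.place τ` for some `τ : F →+* ℂ`), so `γ = 1`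
by `eq_one_of_trivialAt_toAd` of `WL/F1`.
-/

open NumberField IsDedekindDomain
open scoped NumberField

namespace Pool.Agent.Lib.MP_666dc0_nt.ZO

open WL

private theorem X1_pow' {R : Type} [CommRing R] {n : ℕ} {G : Subgroup (GL (Fin n) R)} {x : G} {N : ℕ}
    (hx : x ^ N = 1) : (x.1 : Matrix (Fin n) (Fin n) R) ^ N = 1 := by
  have h1 : x.1 ^ N = 1 := by
    rw [← SubmonoidClass.coe_pow, hx, OneMemClass.coe_one]
  rw [← Units.val_pow_eq_pow_val, h1, Units.val_one]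

private theorem X1_pow {F : Type} [Field F] [NumberField F] {n : ℕ} {D : Datum F n} {x : D.Cpx} {N : ℕ}
    (hx : x ^ N = 1) (τ : F →+* ℂ) : ((x τ).1 : Matrix (Fin n) (Fin n) ℂ) ^ N = 1 := by
  apply X1_pow'
  have h1 := congrFun hx τ
  rwa [Pi.pow_apply, Pi.one_apply] at h1

theorem free_of_isUniform {F : Type} [Field F] [NumberField F] {n : ℕ} {D : Datum F n} {ℓ : ℕ} [Fact ℓ.Prime]
    {U : Subgroup D.Ad} {K : ℕ → Subgroup D.Ad} [IsTotallyReal F] (hD : IsTotPosDef D.q)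
    (ι : ℂ ≃+* PadicAlgCl ℓ) (hU : IsTame ℓ U) (hK : IsTow ℓ U K) (g : D.Ad) (γ : D.Rat)
    (h : g⁻¹ * D.toAd γ * g ∈ U ⊔ K 0) : γ = 1 := by
  classical
  have hK0 := hK.level 0
  have hconj : ∀ j : ℕ, (g⁻¹ * D.toAd γ * g) ^ j = g⁻¹ * D.toAd (γ ^ j) * g := by
    intro j
    induction j with
    | zero =>
      rw [pow_zero, pow_zero, map_one]
      group
    | succ j ih =>
      rw [pow_succ, ih, pow_succ, map_mul]
      group
  have hC : IsCompact ((fun x : D.Ad => g * x * g⁻¹) '' ((U ⊔ K 0 : Subgroup D.Ad) : Set D.Ad)) :=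
    hK0.isCompact.image ((continuous_const.mul continuous_id).mul continuous_const)
  have hfin := finite_rat_of_isCompact hD _ hC
  have hpow : ∀ j : ℕ, γ ^ j ∈ {γ : D.Rat | D.toAd γ ∈
      (fun x : D.Ad => g * x * g⁻¹) '' ((U ⊔ K 0 : Subgroup D.Ad) : Set D.Ad)} := by
    intro j
    refine ⟨(g⁻¹ * D.toAd γ * g) ^ j, pow_mem h j, ?_⟩
    show g * (g⁻¹ * D.toAd γ * g) ^ j * g⁻¹ = D.toAd (γ ^ j)
    rw [hconj j]
    group
  obtain ⟨N, hN, hγN⟩ : ∃ N, 0 < N ∧ γ ^ N = 1 := by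
    have h1 : ¬ Function.Injective (fun j : ℕ => γ ^ j) := by
      intro hinj
      exact Set.infinite_of_injective_forall_mem hinj hpow hfin
    rw [injective_pow_iff_not_isOfFinOrder, not_not] at h1
    obtain ⟨N, hN, h2⟩ := isOfFinOrder_iff_pow_eq_one.1 h1
    exact ⟨N, hN, h2⟩
  obtain ⟨u, hu, k, hk, hguk⟩ := (mem_sup_iff hU hK0.supp).1 h
  have hcomm : Commute u k := mul_comm_of_disjoint fun v => by
    by_cases hv : (ℓ : 𝓞 F) ∈ v.asIdeal
    · exact Or.inl (hU u hu v hv)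
    · exact Or.inr (hK0.supp k hk v hv)
  have hkN : k ^ N = 1 := by
    have h1 : u ^ N * k ^ N = 1 * 1 := by
      rw [← hcomm.mul_pow, ← hguk, hconj N, hγN, map_one]
      group
    exact (mul_unique hU hK0.supp (pow_mem hu N) (one_mem _) (pow_mem hk N) (one_mem _) h1).2
  obtain ⟨H⟩ := exists_hatData F ℓ ι
  have hhat : H.hat D k = 1 := by
    apply Cpx_ext
    intro τ i j
    have h3 : (H.hat D k) ^ N = 1 := by rw [← map_pow, hkN, map_one]
    have h2 : ((H.hat D k τ).1 : Matrix (Fin n) (Fin n) ℂ) ^ N = 1 := X1_pow h3 τ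
    have hM : ∀ i j, (ι : ℂ →+* PadicAlgCl ℓ).mapMatrix ((H.hat D k τ).1 : Matrix (Fin n) (Fin n) ℂ) i j =
        ι (coord D τ i j (H.hat D k)) := by
      intro i j
      rw [RingHom.mapMatrix_apply, Matrix.map_apply]
      rfl
    have hE : ∀ i j, ‖((ι : ℂ →+* PadicAlgCl ℓ).mapMatrix ((H.hat D k τ).1 : Matrix (Fin n) (Fin n) ℂ) - 1) i j‖ ≤
        ((ℓ : ℝ)⁻¹) ^ 2 := by
      intro i j
      rw [Matrix.sub_apply, hM i j]
      have hcg : IsCg ℓ 2 k := hK.entries k hk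
      exact hat_congr H hcg τ i j
    have hpw : (1 + ((ι : ℂ →+* PadicAlgCl ℓ).mapMatrix ((H.hat D k τ).1 : Matrix (Fin n) (Fin n) ℂ) - 1)) ^ N =
        1 := by
      rw [add_sub_cancel, ← map_pow, h2, map_one]
    have hX := eq_zero_of_pow_eq_one _ hE hN hpw
    rw [sub_eq_zero] at hX
    have h5 : (ι : ℂ →+* PadicAlgCl ℓ).mapMatrix ((H.hat D k τ).1 : Matrix (Fin n) (Fin n) ℂ) i j =
        (1 : Matrix (Fin n) (Fin n) (PadicAlgCl ℓ)) i j := by rw [hX]
    have h6 : ι (coord D τ i j (H.hat D k)) = ι (coord D τ i j (1 : D.Cpx)) := by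
      have h7 : ι (coord D τ i j (H.hat D k)) = (1 : Matrix (Fin n) (Fin n) (PadicAlgCl ℓ)) i j := by
        rw [← h5, hM i j]
      have h8 : ι (coord D τ i j (1 : D.Cpx)) = (1 : Matrix (Fin n) (Fin n) (PadicAlgCl ℓ)) i j := by
        have h9 : coord D τ i j (1 : D.Cpx) = (1 : Matrix (Fin n) (Fin n) ℂ) i j := rfl
        rw [h9, Matrix.one_apply, Matrix.one_apply]
        split_ifs
        · rw [map_one]
        · rw [map_zero]
      rw [h7, h8]
    exact ι.injective h6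
  have hk1 : k = 1 := hat_injective H (hK0.supp k hk) hhat
  obtain ⟨v, hv⟩ : ∃ v : HeightOneSpectrum (𝓞 F), (ℓ : 𝓞 F) ∈ v.asIdeal := by
    obtain ⟨τ⟩ : Nonempty (F →+* ℂ) := inferInstance
    obtain ⟨v, hv, _⟩ := H.place τ
    exact ⟨v, hv⟩
  apply eq_one_of_trivialAt_toAd (v := v)
  have h1 : D.toAd γ = g * u * g⁻¹ := by
    rw [hk1, mul_one] at hguk
    rw [← hguk]
    group
  have h2 := (trivialAt_iff v u).1 (hU u hu v hv)
  rw [h1, trivialAt_iff, Subgroup.coe_mul, Subgroup.coe_mul, map_mul, map_mul, h2, mul_one,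
    ← map_mul, ← Subgroup.coe_mul, mul_inv_cancel, Subgroup.coe_one, map_one]

end Pool.Agent.Lib.MP_666dc0_nt.ZO
end

section

/-!
TASK X2. Charts.

`J = K 0`, `κ` from `exists_kappa` of `WL/F2` (hypotheses: `hU`, `(hK.level 0).supp`, `hfree`). `R` is the quotient of `D.Ad` by the relation `∃ γ, ∃ v ∈ U ⊔ K 0, g' = D.toAd γ * g * v` (an equivalence relation), `cls` the quotient map. `R` is finite: `exists_finite_reps` of `WL/A5` with `V = U ⊔ K 0`, which is open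
(`(hK.level 0).isOpen`). (`Fintype.ofFinite`, `Classical.decEq`.) For `r : R` let `x` be a representative and `pt r = x * (κ x)⁻¹` (`(κ x)⁻¹ ∈ K 0 ≤ U ⊔ K 0`, so `cls (pt r) = r`; `κ (pt r) = κ x * (κ x)⁻¹ = 1`).
`decomp`: `g` and `pt (cls g)` are equivalent: `g = D.toAd γ * pt (cls g) * v`, `v = u k` (`mem_sup_iff` of `WL/C5a`), so `κ g = κ (pt (cls g) * u * k) = κ (pt (cls g) * u) * k = κ (pt (cls g)) * k = k`.
-/

open NumberField IsDedekindDomain
open scoped NumberField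

namespace Pool.Agent.Lib.MP_666dc0_nt.ZO

open WL

/-- The relation of the double cosets. -/
private def X2_st {F : Type} [Field F] [NumberField F] {n : ℕ} {D : Datum F n} (V : Subgroup D.Ad) :
    Setoid D.Ad where
  r := fun a b => ∃ γ : D.Rat, ∃ k ∈ V, b = D.toAd γ * a * k
  iseqv :=
    { refl := fun a => ⟨1, 1, one_mem _, by rw [map_one, one_mul, mul_one]⟩
      symm := by
        rintro a b ⟨γ, k, hk, rfl⟩
        refine ⟨γ⁻¹, k⁻¹, inv_mem hk, ?_⟩
        rw [map_inv]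
        group
      trans := by
        rintro a b c ⟨γ, k, hk, rfl⟩ ⟨γ', k', hk', rfl⟩
        refine ⟨γ' * γ, k * k', mul_mem hk hk', ?_⟩
        rw [map_mul]
        group }

private theorem X2_finite {F : Type} [Field F] [NumberField F] {n : ℕ} {D : Datum F n} [IsTotallyReal F]
    (hD : IsTotPosDef D.q) (V : Subgroup D.Ad) (hV : IsOpen (V : Set D.Ad)) : Finite (Quotient (X2_st V)) := by
  obtain ⟨X, hX⟩ := exists_finite_reps hD V hV
  refine Finite.of_surjective (fun c : X => (Quotient.mk (X2_st V) (c : D.Ad))) ?_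
  intro q
  induction q using Quotient.inductionOn with
  | h g =>
    obtain ⟨γ, c, hc, k, hk, e⟩ := hX g
    exact ⟨⟨c, hc⟩, Quotient.sound ⟨γ, k, hk, e⟩⟩

theorem exists_chart {F : Type} [Field F] [NumberField F] {n : ℕ} {D : Datum F n} {ℓ : ℕ} [Fact ℓ.Prime]
    {U : Subgroup D.Ad} {K : ℕ → Subgroup D.Ad} [IsTotallyReal F] (hD : IsTotPosDef D.q)
    (hU : IsTame ℓ U) (hK : IsTow ℓ U K)
    (hfree : ∀ (g : D.Ad) (γ : D.Rat), g⁻¹ * D.toAd γ * g ∈ U ⊔ K 0 → γ = 1) : Nonempty (Chart U K) := by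
  classical
  obtain ⟨κ, hκl, hκt, hκm⟩ := exists_kappa hU (hK.level 0).supp hfree
  have hfin : Finite (Quotient (X2_st (U ⊔ K 0))) := X2_finite hD _ (hK.level 0).isOpen
  have hJ : ∀ k : K 0, (k : D.Ad) ∈ U ⊔ K 0 := fun k => (le_sup_right : K 0 ≤ U ⊔ K 0) k.2
  let cls : D.Ad → Quotient (X2_st (U ⊔ K 0)) := fun g => Quotient.mk _ g
  let pt : Quotient (X2_st (U ⊔ K 0)) → D.Ad := fun r => r.out * ((κ r.out)⁻¹ : K 0)
  have hcl : ∀ (γ : D.Rat) g, cls (D.toAd γ * g) = cls g := by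
    intro γ g
    exact (Quotient.sound (s := X2_st (U ⊔ K 0)) (a := g) (b := D.toAd γ * g)
      ⟨γ, 1, one_mem _, by rw [mul_one]⟩).symm
  have hcr : ∀ g, ∀ k ∈ U ⊔ K 0, cls (g * k) = cls g := by
    intro g k hk
    exact (Quotient.sound (s := X2_st (U ⊔ K 0)) (a := g) (b := g * k)
      ⟨1, k, hk, by rw [map_one, one_mul]⟩).symm
  have hcp : ∀ r, cls (pt r) = r := by
    intro r
    have h1 : cls (pt r) = cls r.out := hcr _ _ (hJ _)
    rw [h1]
    exact Quotient.out_eq r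
  have hkp : ∀ r, κ (pt r) = 1 := by
    intro r
    have h1 : κ (pt r) = κ r.out * (κ r.out)⁻¹ := hκm _ _
    rw [h1, mul_inv_cancel]
  refine ⟨{ R := Quotient (X2_st (U ⊔ K 0)), fin := Fintype.ofFinite _, dec := Classical.decEq _, cls := cls,
            kap := κ, pt := pt, cls_left := hcl, cls_right := hcr, cls_pt := hcp, kap_left := hκl,
            kap_tame := hκt, kap_mul := hκm, kap_pt := hkp, decomp := ?_ }⟩
  intro g
  have h1 : cls (pt (cls g)) = cls g := hcp _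
  obtain ⟨γ, v, hv, e⟩ : ∃ γ : D.Rat, ∃ k ∈ U ⊔ K 0, g = D.toAd γ * pt (cls g) * k := Quotient.exact h1
  obtain ⟨u, hu, k, hk, rfl⟩ := (mem_sup_iff hU (hK.level 0).supp).1 hv
  refine ⟨γ, u, hu, ?_⟩
  have h2 : κ g = ⟨k, hk⟩ := by
    have e2 : g = D.toAd γ * (pt (cls g) * u * ((⟨k, hk⟩ : K 0) : D.Ad)) := by
      refine e.trans ?_
      simp only [mul_assoc]
    calc κ g = κ (D.toAd γ * (pt (cls g) * u * ((⟨k, hk⟩ : K 0) : D.Ad))) := by rw [← e2]
      _ = κ (pt (cls g) * u * ((⟨k, hk⟩ : K 0) : D.Ad)) := hκl _ _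
      _ = κ (pt (cls g) * u) * ⟨k, hk⟩ := hκm _ _
      _ = κ (pt (cls g)) * ⟨k, hk⟩ := by rw [hκt _ _ hu]
      _ = ⟨k, hk⟩ := by rw [hkp, one_mul]
  rw [h2]
  refine e.trans ?_
  simp only [mul_assoc]

end Pool.Agent.Lib.MP_666dc0_nt.ZO
end
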