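import Mathlib

section

/-!
# EP, S1b: fixed points and centralisers
-/

namespace Pool.Agent.Lib.MP_666dc0_nt.EP

/-- The number of `x` with `g⁻¹ x h = x` is the order of the centraliser of `h` if `g` and `h` are
conjugate and `0` otherwise. -/
theorem card_fix (H : Type) [Group H] [Finite H] (g h : H) :
    Nat.card {x : H // g⁻¹ * x * h = x} =
      (open Classical in if IsConj g h then Nat.card (Subgroup.centralizer {h}) else 0) := by
  classical
  by_cases hgh : IsConj g h
  · rw [if_pos hgh]
    obtain ⟨c, hc⟩ := isConj_iff.mp hgh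
    refine Nat.card_congr
      { toFun := fun x => ⟨c * x.1, ?_⟩
        invFun := fun z => ⟨c⁻¹ * z.1, ?_⟩
        left_inv := fun x => ?_
        right_inv := fun z => ?_ }
    · rw [Subgroup.mem_centralizer_singleton_iff]
      have h1 := x.2
      have h2 : x.1 * h = g * x.1 := by
        calc x.1 * h = g * (g⁻¹ * x.1 * h) := by group
          _ = g * x.1 := by rw [h1]
      calc c * x.1 * h = c * (x.1 * h) := by rw [mul_assoc]
        _ = c * (g * x.1) := by rw [h2]
        _ = c * g * c⁻¹ * (c * x.1) := by group
        _ = h * (c * x.1) := by rw [hc]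
    · have h1 := Subgroup.mem_centralizer_singleton_iff.mp z.2
      have h2 : g⁻¹ = c⁻¹ * h⁻¹ * c := by rw [← hc]; group
      calc g⁻¹ * (c⁻¹ * z.1) * h = c⁻¹ * h⁻¹ * c * (c⁻¹ * z.1) * h := by rw [h2]
        _ = c⁻¹ * h⁻¹ * (z.1 * h) := by group
        _ = c⁻¹ * h⁻¹ * (h * z.1) := by rw [h1]
        _ = c⁻¹ * z.1 := by group
    · exact Subtype.ext (inv_mul_cancel_left _ _)
    · exact Subtype.ext (mul_inv_cancel_left _ _)
  · rw [if_neg hgh]
    have : IsEmpty {x : H // g⁻¹ * x * h = x} := by
      refine ⟨fun x => hgh ?_⟩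
      have h1 := x.2
      have h2 : x.1 * h = g * x.1 := by
        calc x.1 * h = g * (g⁻¹ * x.1 * h) := by group
          _ = g * x.1 := by rw [h1]
      refine isConj_iff.mpr ⟨x.1⁻¹, ?_⟩
      calc x.1⁻¹ * g * x.1⁻¹⁻¹ = x.1⁻¹ * (g * x.1) := by group
        _ = x.1⁻¹ * (x.1 * h) := by rw [h2]
        _ = h := by group
    exact Nat.card_of_isEmpty

end Pool.Agent.Lib.MP_666dc0_nt.EP
end

section

/-!
# EP, S1a: the regular representation
-/

namespace Pool.Agent.Lib.MP_666dc0_nt.EP

/-- The right multiplication by `h` on functions on the finite group `H`: `(R_h u)(x) = u(x h)`. -/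
def rightMul (H L : Type) [Group H] [Field L] (h : H) : Module.End L (H → L) where
  toFun u x := u (x * h)
  map_add' _ _ := rfl
  map_smul' _ _ := rfl

/-- The left regular representation on functions: `(g u)(x) = u(g⁻¹ x)`. -/
def leftReg (H L : Type) [Group H] [Field L] : Representation L H (H → L) where
  toFun g :=
    { toFun := fun u x => u (g⁻¹ * x)
      map_add' := fun _ _ => rfl
      map_smul' := fun _ _ => rfl }
  map_one' := by
    ext u x
    simp
  map_mul' g g' := by
    apply LinearMap.ext
    intro u
    funext x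
    simp [mul_assoc]

theorem leftReg_comm (H L : Type) [Group H] [Field L] (g h : H) :
    leftReg H L g ∘ₗ rightMul H L h = rightMul H L h ∘ₗ leftReg H L g := by
  apply LinearMap.ext
  intro u
  funext x
  change u (g⁻¹ * x * h) = u (g⁻¹ * (x * h))
  rw [mul_assoc]

/-- The trace of `u ↦ (x ↦ u(g⁻¹ x h))` is the number of `x` with `g⁻¹ x h = x`. -/
theorem trace_leftReg_rightMul (H L : Type) [Group H] [Finite H] [Field L] (g h : H) :
    LinearMap.trace L _ (leftReg H L g ∘ₗ rightMul H L h) = (Nat.card {x : H // g⁻¹ * x * h = x} : L) := by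
  classical
  have := Fintype.ofFinite H
  rw [LinearMap.trace_eq_matrix_trace L (Pi.basisFun L H), Matrix.trace, Nat.card_eq_fintype_card,
    Fintype.card_subtype, Finset.card_filter, Nat.cast_sum]
  refine Finset.sum_congr rfl fun x _ => ?_
  rw [Matrix.diag_apply, LinearMap.toMatrix_apply, Pi.basisFun_apply, Pi.basisFun_repr]
  change (Pi.single x (1 : L) : H → L) (g⁻¹ * x * h) = _
  rw [Pi.single_apply]
  split_ifs <;> simp

end Pool.Agent.Lib.MP_666dc0_nt.EP
end

section

/-!
# EP, S1c: right multiplication is diagonalisable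
-/

namespace Pool.Agent.Lib.MP_666dc0_nt.EP

/-- The right multiplication by `h` is diagonalisable: `H → L` is the direct sum of its
eigenspaces (`L` algebraically closed of characteristic zero, `h` of finite order). -/
theorem iSup_eigenspace_rightMul (H L : Type) [Group H] [Finite H] [Field L] [IsAlgClosed L]
    [CharZero L] (h : H) : ⨆ x : L, Module.End.eigenspace (rightMul H L h) x = ⊤ := by
  have hn : 0 < orderOf h := orderOf_pos h
  have hpow : ∀ k : ℕ, (rightMul H L h) ^ k = rightMul H L (h ^ k) := by
    intro k
    induction k with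
    | zero =>
      ext u x
      simp [rightMul]
    | succ k ih =>
      rw [pow_succ, ih]
      apply LinearMap.ext
      intro u
      funext x
      change u (x * h ^ k * h) = u (x * h ^ (k + 1))
      rw [mul_assoc, pow_succ]
  have hone : (rightMul H L h) ^ orderOf h = 1 := by
    rw [hpow, pow_orderOf_eq_one]
    apply LinearMap.ext
    intro u
    funext x
    change u (x * 1) = u x
    rw [mul_one]
  have hsq : Squarefree (Polynomial.X ^ orderOf h - 1 : Polynomial L) :=
    (Polynomial.X_pow_sub_one_separable_iff.2 (Nat.cast_ne_zero.2 hn.ne')).squarefree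
  have haev : Polynomial.aeval (rightMul H L h) (Polynomial.X ^ orderOf h - 1 : Polynomial L) = 0 := by
    rw [map_sub, map_pow, Polynomial.aeval_X, map_one, hone, sub_self]
  have hss : (rightMul H L h).IsSemisimple :=
    Module.End.isSemisimple_of_squarefree_aeval_eq_zero hsq haev
  have htop := Module.End.iSup_maxGenEigenspace_eq_top (rightMul H L h)
  rw [← htop]
  exact iSup_congr fun x => (hss.isFinitelySemisimple.maxGenEigenspace_eq_eigenspace x).symm

end Pool.Agent.Lib.MP_666dc0_nt.EP
end
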