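import Mathlib

section

/-!
# EP, S1e: matrix representations
-/

namespace Pool.Agent.Lib.MP_666dc0_nt.EP

/-- A finite-dimensional representation is isomorphic to a matrix representation. -/
theorem exists_matrix_rep (H L : Type) [Group H] [Field L] {V : Type} [AddCommGroup V] [Module L V]
    [FiniteDimensional L V] (ρ : Representation L H V) :
    ∃ (d : ℕ) (σ : H →* GL (Fin d) L), ∀ g,
      LinearMap.trace L V (ρ g) = (σ g : Matrix (Fin d) (Fin d) L).trace := by
  classical
  let b := Module.finBasis L V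
  let T : (V →ₗ[L] V) ≃ₐ[L] Matrix (Fin (Module.finrank L V)) (Fin (Module.finrank L V)) L :=
    LinearMap.toMatrixAlgEquiv b
  let m : H →* Matrix (Fin (Module.finrank L V)) (Fin (Module.finrank L V)) L :=
    (T : (V →ₗ[L] V) →* _).comp ρ
  refine ⟨Module.finrank L V, m.toHomUnits, fun g => ?_⟩
  rw [LinearMap.trace_eq_matrix_trace L b]
  rfl

end Pool.Agent.Lib.MP_666dc0_nt.EP
end

section

/-!
# EP, C6a: additivity of the trace, I
-/

namespace Pool.Agent.Lib.MP_666dc0_nt.EP

variable {L : Type} [Field L]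

open Module.Basis in
private theorem C6a_trace_add {V : Type*} [AddCommGroup V] [Module L V] [FiniteDimensional L V]
    (W : Submodule L V) (e : V →ₗ[L] V) (he : W ≤ W.comap e) :
    LinearMap.trace L V e = LinearMap.trace L W (e.restrict he) +
      LinearMap.trace L (V ⧸ W) (W.mapQ W e he) := by
  classical
  let m := Module.Free.ChooseBasisIndex L W
  let bW : Module.Basis m L W := Module.Free.chooseBasis L W
  let n := Module.Free.ChooseBasisIndex L (V ⧸ W)
  let bQ : Module.Basis n L (V ⧸ W) := Module.Free.chooseBasis L (V ⧸ W)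
  let b := sumQuot bW bQ
  rw [LinearMap.trace_eq_matrix_trace L b, LinearMap.trace_eq_matrix_trace L bW,
    LinearMap.trace_eq_matrix_trace L bQ]
  simp only [Matrix.trace, Matrix.diag_apply, Fintype.sum_sum_type]
  congr 1
  · apply Finset.sum_congr rfl
    intro i _
    simp only [b, LinearMap.toMatrix_apply]
    rw [sumQuot_inl]
    exact sumQuot_repr_inl_of_mem _ _ _ _ _
  · apply Finset.sum_congr rfl
    intro l _
    simp only [b, LinearMap.toMatrix_apply, sumQuot_repr_inr]
    rw [← sumQuot_inr bW bQ l, W.mapQ_apply]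
    simp

/-- Additivity of the trace: for subspaces `B ≤ Z` stable under `τ`, `Z` finite-dimensional,
`tr(τ | Z) = tr(τ | B) + tr(τ | Z / B)`. -/
theorem trace_restrict_eq_add {W : Type} [AddCommGroup W] [Module L W] (τ : Module.End L W)
    (Z B : Submodule L W) [FiniteDimensional L Z] (hBZ : B ≤ Z) (hZ : ∀ w ∈ Z, τ w ∈ Z)
    (hB : ∀ w ∈ B, τ w ∈ B)
    (h : B.submoduleOf Z ≤ (B.submoduleOf Z).comap (τ.restrict hZ)) :
    LinearMap.trace L _ (τ.restrict hZ) = LinearMap.trace L _ (τ.restrict hB) +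
      LinearMap.trace L _ (Submodule.mapQ _ _ (τ.restrict hZ) h) := by
  rw [C6a_trace_add (B.submoduleOf Z) (τ.restrict hZ) h]
  congr 1
  rw [← LinearMap.trace_conj' ((τ.restrict hZ).restrict h) (Submodule.submoduleOfEquivOfLe hBZ)]
  congr 1

end Pool.Agent.Lib.MP_666dc0_nt.EP
end

section

/-!
# EP, C6b: additivity of the trace, II
-/

namespace Pool.Agent.Lib.MP_666dc0_nt.EP

variable {L : Type} [Field L]

/-- For a subspace `C` stable under `τ` and `δ : W → W'` with `δ τ = τ' δ` on `C`, the trace of `τ`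
on `C` is the sum of the traces of `τ` on `C ⊓ ker δ` and of `τ'` on `δ(C)`. -/
theorem trace_restrict_ker_add {W W' : Type} [AddCommGroup W] [Module L W] [AddCommGroup W']
    [Module L W'] (δ : W →ₗ[L] W') (τ : Module.End L W) (τ' : Module.End L W')
    (C : Submodule L W) [FiniteDimensional L C] (hC : ∀ w ∈ C, τ w ∈ C)
    (h : ∀ w ∈ C, δ (τ w) = τ' (δ w)) (hk : ∀ w ∈ C ⊓ LinearMap.ker δ, τ w ∈ C ⊓ LinearMap.ker δ)
    (hr : ∀ w ∈ C.map δ, τ' w ∈ C.map δ) :
    LinearMap.trace L _ (τ.restrict hC) = LinearMap.trace L _ (τ.restrict hk) +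
      LinearMap.trace L _ (τ'.restrict hr) := by
  have h1 : (C ⊓ LinearMap.ker δ).submoduleOf C ≤
      ((C ⊓ LinearMap.ker δ).submoduleOf C).comap (τ.restrict hC) := by
    intro x hx
    exact hk _ hx
  rw [trace_restrict_eq_add τ C (C ⊓ LinearMap.ker δ) inf_le_left hC hk h1]
  congr 1
  let f : C →ₗ[L] C.map δ := δ.submoduleMap C
  have hf : Function.Surjective f := δ.submoduleMap_surjective C
  have hker : (C ⊓ LinearMap.ker δ).submoduleOf C = LinearMap.ker f := by
    ext x
    rw [LinearMap.mem_ker, Submodule.submoduleOf, Submodule.mem_comap, Submodule.mem_inf,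
      LinearMap.mem_ker]
    constructor
    · intro hx; exact Subtype.ext hx.2
    · intro hx; exact ⟨x.2, congrArg Subtype.val hx⟩
  let e : (C ⧸ (C ⊓ LinearMap.ker δ).submoduleOf C) ≃ₗ[L] C.map δ :=
    (Submodule.quotEquivOfEq _ _ hker).trans (f.quotKerEquivOfSurjective hf)
  rw [← LinearMap.trace_conj' _ e]
  congr 1
  apply LinearMap.ext
  intro y
  obtain ⟨x, rfl⟩ := hf y
  have h2 : e.symm (f x) = Submodule.Quotient.mk x := by
    rw [LinearEquiv.symm_apply_eq]; rfl
  rw [LinearEquiv.conj_apply_apply, h2]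
  apply Subtype.ext
  have h3 : e (Submodule.mapQ _ _ (τ.restrict hC) h1 (Submodule.Quotient.mk x)) =
      f (τ.restrict hC x) := rfl
  rw [h3]
  exact h x x.2

end Pool.Agent.Lib.MP_666dc0_nt.EP
end
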