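import Pool.Agent.Lib.MP_666dc0_nt.EP.C2a
import Pool.Agent.Lib.MP_666dc0_nt.Mg.G058
import Pool.Agent.Lib.MP_666dc0_nt.Mg.G066
import Pool.Agent.Lib.MP_666dc0_nt.Mg.G067

section

/-!
# EP, C2c: the square of the boundary is zero
-/

namespace Pool.Agent.Lib.MP_666dc0_nt.EP

variable {R : Type} {A : Type} [CommRing R] [Group A] {E X : Type} [MulAction A E] [MulAction A X]

private theorem C2c_face (n : ℕ) (i : Fin (n + 3)) (j : Fin (n + 2)) (h : (j : ℕ) < (i : ℕ))
    (h0 : i ≠ 0) (k : Fin (n + 1)) : i.succAbove (j.succAbove k) =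
      (j.castSucc).succAbove ((i.pred h0).succAbove k) := by
  apply Fin.ext
  simp only [Fin.succAbove, Fin.lt_def]
  split_ifs <;> simp_all <;> omega

private theorem C2c_ne {n : ℕ} {i : Fin (n + 3)} {j : Fin (n + 2)} (h : (j : ℕ) < (i : ℕ)) :
    i ≠ 0 := by
  intro h0
  rw [h0] at h
  exact absurd h (by simp)

/-- The summand of the double boundary. -/
private noncomputable def C2c_F (R : Type) [CommRing R] {E X : Type} (n : ℕ)
    (s : Simp E X (n + 2)) (p : Fin (n + 3) × Fin (n + 2)) : Simp E X n →₀ R :=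
  Finsupp.single ((fun k => s.1 (p.1.succAbove (p.2.succAbove k))), s.2)
    ((-1) ^ (p.1 : ℕ) * (-1) ^ (p.2 : ℕ))

private theorem C2c_add (R : Type) [CommRing R] {E X : Type} (n : ℕ) (s : Simp E X (n + 2))
    (i : Fin (n + 3)) (j : Fin (n + 2)) (h : (j : ℕ) < (i : ℕ)) :
    C2c_F R n s (i, j) + C2c_F R n s (j.castSucc, i.pred (C2c_ne h)) = 0 := by
  unfold C2c_F
  have h2 : (fun k => s.1 (i.succAbove (j.succAbove k))) = fun k =>
      s.1 ((j.castSucc).succAbove ((i.pred (C2c_ne h)).succAbove k)) := by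
    funext k
    rw [C2c_face n i j h (C2c_ne h) k]
  change Finsupp.single ((fun k => s.1 (i.succAbove (j.succAbove k))), s.2)
    ((-1 : R) ^ (i : ℕ) * (-1) ^ (j : ℕ)) + Finsupp.single ((fun k =>
      s.1 ((j.castSucc).succAbove ((i.pred (C2c_ne h)).succAbove k))), s.2)
        ((-1 : R) ^ (j : ℕ) * (-1) ^ ((i.pred (C2c_ne h) : Fin (n + 2)) : ℕ)) = 0
  rw [h2, ← Finsupp.single_add]
  have h3 : (i : ℕ) = ((i.pred (C2c_ne h) : Fin (n + 2)) : ℕ) + 1 := by
    rw [Fin.val_pred]
    omega
  rw [h3, pow_succ]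
  have h4 : (-1 : R) ^ ((i.pred (C2c_ne h) : Fin (n + 2)) : ℕ) * -1 * (-1) ^ (j : ℕ) +
      (-1) ^ (j : ℕ) * (-1) ^ ((i.pred (C2c_ne h) : Fin (n + 2)) : ℕ) = 0 := by ring
  rw [h4, Finsupp.single_zero]

open Classical in
/-- The involution. -/
private noncomputable def C2c_g (n : ℕ) (p : Fin (n + 3) × Fin (n + 2)) :
    Fin (n + 3) × Fin (n + 2) :=
  if h : (p.2 : ℕ) < (p.1 : ℕ) then (p.2.castSucc, p.1.pred (C2c_ne h))
  else (p.2.succ, ⟨(p.1 : ℕ), by have := p.2.2; omega⟩)

private theorem C2c_g_pos {n : ℕ} (i : Fin (n + 3)) (j : Fin (n + 2)) (h : (j : ℕ) < (i : ℕ)) :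
    C2c_g n (i, j) = (j.castSucc, i.pred (C2c_ne h)) := dif_pos h

private theorem C2c_g_neg {n : ℕ} (i : Fin (n + 3)) (j : Fin (n + 2)) (h : ¬ (j : ℕ) < (i : ℕ)) :
    C2c_g n (i, j) = (j.succ, ⟨(i : ℕ), by have := j.2; omega⟩) := dif_neg h

private theorem C2c_gg (n : ℕ) (p : Fin (n + 3) × Fin (n + 2)) : C2c_g n (C2c_g n p) = p := by
  obtain ⟨i, j⟩ := p
  by_cases h : (j : ℕ) < (i : ℕ)
  · rw [C2c_g_pos i j h, C2c_g_neg _ _ (by
      rw [Fin.val_pred]
      change ¬ (i : ℕ) - 1 < (j : ℕ)
      omega)]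
    apply Prod.ext
    · exact Fin.succ_pred i (C2c_ne h)
    · rfl
  · rw [C2c_g_neg i j h, C2c_g_pos _ _ (by
      change (i : ℕ) < (j : ℕ) + 1
      omega)]
    apply Prod.ext
    · rfl
    · rfl

private theorem C2c_g_ne (n : ℕ) (p : Fin (n + 3) × Fin (n + 2)) : C2c_g n p ≠ p := by
  obtain ⟨i, j⟩ := p
  intro h0
  by_cases h : (j : ℕ) < (i : ℕ)
  · rw [C2c_g_pos i j h] at h0
    have h1 := congrArg (fun q : Fin (n + 3) × Fin (n + 2) => (q.1 : ℕ)) h0
    change (j : ℕ) = (i : ℕ) at h1
    omega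
  · rw [C2c_g_neg i j h] at h0
    have h1 := congrArg (fun q : Fin (n + 3) × Fin (n + 2) => (q.1 : ℕ)) h0
    change (j : ℕ) + 1 = (i : ℕ) at h1
    omega

private theorem C2c_add' (R : Type) [CommRing R] {E X : Type} (n : ℕ) (s : Simp E X (n + 2))
    (p : Fin (n + 3) × Fin (n + 2)) : C2c_F R n s p + C2c_F R n s (C2c_g n p) = 0 := by
  obtain ⟨i, j⟩ := p
  by_cases h : (j : ℕ) < (i : ℕ)
  · rw [C2c_g_pos i j h]
    exact C2c_add R n s i j h
  · have h1 := C2c_gg n (i, j)
    rw [C2c_g_neg i j h] at h1 ⊢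
    have h2 : (((⟨(i : ℕ), by have := j.2; omega⟩ : Fin (n + 2)) : ℕ) : ℕ) <
        ((j.succ : Fin (n + 3)) : ℕ) := by
      change (i : ℕ) < (j : ℕ) + 1
      omega
    have h3 := C2c_add R n s j.succ ⟨(i : ℕ), by have := j.2; omega⟩ h2
    rw [C2c_g_pos _ _ h2] at h1
    rw [h1] at h3
    rw [add_comm]
    exact h3

/-- `d² = 0`: the usual computation with alternating sums of faces. -/
theorem bd_comp_bd (n : ℕ) : bd R E X n ∘ₗ bd R E X (n + 1) = 0 := by
  apply Finsupp.lhom_ext'
  intro s
  apply LinearMap.ext_ring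
  change bd R E X n (bd R E X (n + 1) (Finsupp.single s 1)) = 0
  have h1 : ∀ (t : Simp E X (n + 1)) (r : R), bd R E X n (Finsupp.single t r) =
      ∑ j : Fin (n + 2), Finsupp.single ((fun k => t.1 (j.succAbove k)), t.2)
        (r * (-1) ^ (j : ℕ)) := by
    intro t r
    have : (Finsupp.single t r : Simp E X (n + 1) →₀ R) = r • Finsupp.single t 1 := by
      rw [Finsupp.smul_single, smul_eq_mul, mul_one]
    rw [this, map_smul, bd_single, Finset.smul_sum]
    refine Finset.sum_congr rfl fun j _ => ?_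
    rw [Finsupp.smul_single, smul_eq_mul]
  rw [bd_single, map_sum]
  simp only [h1]
  rw [← Finset.sum_product', Finset.univ_product_univ]
  change ∑ p : Fin (n + 3) × Fin (n + 2), C2c_F R n s p = 0
  exact Finset.sum_involution (fun p _ => C2c_g n p) (fun p _ => C2c_add' R n s p)
    (fun p _ _ => C2c_g_ne n p) (fun p _ => Finset.mem_univ _) (fun p _ => C2c_gg n p)

end Pool.Agent.Lib.MP_666dc0_nt.EP
end

section

/-!
# EP, C2d: the cone
-/

namespace Pool.Agent.Lib.MP_666dc0_nt.EP

variable {R : Type} {A : Type} [CommRing R] [Group A] {E X : Type} [MulAction A E] [MulAction A X]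

private theorem c2d_cone_single (e₀ : E) (n : ℕ) (s : Simp E X n) (r : R) :
    cone R X e₀ n (Finsupp.single s r) = Finsupp.single (Fin.cons e₀ s.1, s.2) r := by
  rw [cone, Finsupp.lmapDomain_apply, Finsupp.mapDomain_single]

private theorem c2d_face (e₀ : E) (n : ℕ) (s : Fin (n + 1) → E) (k : Fin (n + 1)) :
    (fun j => (Fin.cons e₀ s : Fin (n + 2) → E) (k.succ.succAbove j)) =
      (Fin.cons e₀ (fun j => s (k.succAbove j)) : Fin (n + 1) → E) := by
  funext j
  cases n with
  | zero =>
    have hj : j = 0 := Fin.eq_zero j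
    rw [hj]
    rfl
  | succ n =>
    refine Fin.cases ?_ (fun j' => ?_) j
    · rw [Fin.cons_zero, Fin.succ_succAbove_zero, Fin.cons_zero]
    · rw [Fin.cons_succ, Fin.succ_succAbove_succ, Fin.cons_succ]

theorem bd_cone (e₀ : E) (n : ℕ) :
    bd R E X (n + 1) ∘ₗ cone R X e₀ (n + 1) + cone R X e₀ n ∘ₗ bd R E X n = LinearMap.id := by
  refine Finsupp.lhom_ext' fun s => LinearMap.ext_ring ?_
  show bd R E X (n + 1) (cone R X e₀ (n + 1) (Finsupp.single s 1)) +
    cone R X e₀ n (bd R E X n (Finsupp.single s 1)) = Finsupp.single s 1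
  rw [c2d_cone_single, bd_single, bd_single, map_sum, Fin.sum_univ_succ, add_assoc,
    ← Finset.sum_add_distrib]
  have h : ∀ k : Fin (n + 2), Finsupp.single
      ((fun j => (Fin.cons e₀ s.1 : Fin (n + 3) → E) (k.succ.succAbove j)), s.2)
        ((-1 : R) ^ ((k.succ : Fin (n + 3)) : ℕ)) +
      cone R X e₀ n (Finsupp.single ((fun j => s.1 (k.succAbove j)), s.2) ((-1) ^ (k : ℕ))) =
        (0 : Simp E X (n + 1) →₀ R) := by
    intro k
    rw [c2d_cone_single, c2d_face, Fin.val_succ, pow_succ, mul_neg, mul_one, Finsupp.single_neg]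
    exact neg_add_cancel _
  rw [Finset.sum_eq_zero fun k _ => h k, add_zero]
  show Finsupp.single ((fun j => (Fin.cons e₀ s.1 : Fin (n + 3) → E) ((0 : Fin (n + 3)).succAbove j)), s.2)
    ((-1 : R) ^ ((0 : Fin (n + 3)) : ℕ)) = Finsupp.single s 1
  rw [Fin.val_zero, pow_zero]
  congr 1

/-- For `n = 0`: `∂ (cone m) = m - (e₀; aug m)`. -/
theorem bd_cone_zero (e₀ : E) :
    bd R E X 0 ∘ₗ cone R X e₀ 0 + Finsupp.lmapDomain R R (fun x : X => ((fun _ => e₀ : Fin 1 → E), x)) ∘ₗ
      aug R E X = LinearMap.id := by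
  refine Finsupp.lhom_ext' fun s => LinearMap.ext_ring ?_
  show bd R E X 0 (cone R X e₀ 0 (Finsupp.single s 1)) +
    Finsupp.lmapDomain R R (fun x : X => ((fun _ => e₀ : Fin 1 → E), x))
      (aug R E X (Finsupp.single s 1)) = Finsupp.single s 1
  rw [c2d_cone_single, bd_single, aug, Finsupp.lmapDomain_apply, Finsupp.lmapDomain_apply,
    Finsupp.mapDomain_single, Finsupp.mapDomain_single, Fin.sum_univ_two, add_assoc]
  have h1 : (fun j => (Fin.cons e₀ s.1 : Fin 2 → E) ((1 : Fin 2).succAbove j)) = fun _ => e₀ := by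
    funext j
    have hj : j = 0 := Subsingleton.elim _ _
    rw [hj]
    rfl
  have h2 : Finsupp.single ((fun j => (Fin.cons e₀ s.1 : Fin 2 → E) ((1 : Fin 2).succAbove j)), s.2)
      ((-1 : R) ^ ((1 : Fin 2) : ℕ)) + Finsupp.single ((fun _ => e₀ : Fin 1 → E), s.2) 1 =
        (0 : Simp E X 0 →₀ R) := by
    rw [h1, Fin.val_one, pow_one, Finsupp.single_neg]
    exact neg_add_cancel _
  show Finsupp.single ((fun j => (Fin.cons e₀ s.1 : Fin 2 → E) ((0 : Fin 2).succAbove j)), s.2)
      ((-1 : R) ^ ((0 : Fin 2) : ℕ)) + (Finsupp.single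
        ((fun j => (Fin.cons e₀ s.1 : Fin 2 → E) ((1 : Fin 2).succAbove j)), s.2)
      ((-1 : R) ^ ((1 : Fin 2) : ℕ)) + Finsupp.single ((fun _ => e₀ : Fin 1 → E), s.2) 1) =
        Finsupp.single s 1
  rw [h2, add_zero, Fin.val_zero, pow_zero]
  congr 1

end Pool.Agent.Lib.MP_666dc0_nt.EP
end

section

/-!
# EP, PA6: barycentric subdivision of tuples of points
-/

namespace Pool.Agent.Lib.MP_666dc0_nt.EP

variable (R : Type) [CommRing R] {E Y : Type} [NormedAddCommGroup E] [NormedSpace ℝ E]

/-- The barycentre of the points of a tuple. -/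
noncomputable def bary {n : ℕ} (p : Fin (n + 1) → E) : E := ((n : ℝ) + 1)⁻¹ • ∑ j, p j

/-- The barycentric subdivision: `sd(s) = cone_{b(s)}(sd(∂ s))`. -/
noncomputable def sd : ∀ n : ℕ, (Simp E Y n →₀ R) →ₗ[R] (Simp E Y n →₀ R)
  | 0 => LinearMap.id
  | n + 1 => Finsupp.linearCombination R fun s =>
      cone R Y (bary s.1) n (sd n (bd R E Y n (Finsupp.single s 1)))

/-- The homotopy between the identity and the subdivision: `T(s) = cone_{b(s)}(s - T(∂ s))`. -/
noncomputable def sdT : ∀ n : ℕ, (Simp E Y n →₀ R) →ₗ[R] (Simp E Y (n + 1) →₀ R)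
  | 0 => 0
  | n + 1 => Finsupp.linearCombination R fun s =>
      cone R Y (bary s.1) (n + 1)
        (Finsupp.single s 1 - sdT n (bd R E Y n (Finsupp.single s 1)))

variable {R}

private theorem PA6_sd_single (n : ℕ) (s : Simp E Y (n + 1)) :
    sd R (n + 1) (Finsupp.single s 1) =
      cone R Y (bary s.1) n (sd R n (bd R E Y n (Finsupp.single s 1))) := by
  show Finsupp.linearCombination R _ (Finsupp.single s 1) = _
  rw [Finsupp.linearCombination_single, one_smul]

private theorem PA6_sdT_single (n : ℕ) (s : Simp E Y (n + 1)) :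
    sdT R (n + 1) (Finsupp.single s 1) = cone R Y (bary s.1) (n + 1)
      (Finsupp.single s 1 - sdT R n (bd R E Y n (Finsupp.single s 1))) := by
  show Finsupp.linearCombination R _ (Finsupp.single s 1) = _
  rw [Finsupp.linearCombination_single, one_smul]

theorem aug_sd_zero (m : Simp E Y 0 →₀ R) : aug R E Y (sd R 0 m) = aug R E Y m := by
  rfl

/-- The subdivision is a chain map.
Proof: induction on `n`; on `single s 1`: for `n ≥ 1`, `∂ cone_b(sd ∂s) = sd ∂s - cone_b(∂ sd ∂s)`
(`bd_cone`) and `∂ sd ∂s = sd ∂∂s = 0` (`bd_comp_bd`); for `n = 0`: `bd_cone_zero`, `aug_comp_bd`. -/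
theorem bd_sd (n : ℕ) : bd R E Y n ∘ₗ sd R (n + 1) = sd R n ∘ₗ bd R E Y n := by
  induction n with
  | zero =>
    refine Finsupp.lhom_ext' fun s => LinearMap.ext_ring ?_
    show bd R E Y 0 (sd R 1 (Finsupp.single s 1)) = sd R 0 (bd R E Y 0 (Finsupp.single s 1))
    rw [PA6_sd_single]
    have h1 := LinearMap.congr_fun (bd_cone_zero (R := R) (X := Y) (bary s.1))
      (bd R E Y 0 (Finsupp.single s 1))
    have h2 := LinearMap.congr_fun (aug_comp_bd (R := R) (E := E) (X := Y)) (Finsupp.single s 1)
    rw [LinearMap.add_apply, LinearMap.comp_apply, LinearMap.comp_apply, LinearMap.id_apply] at h1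
    rw [LinearMap.comp_apply, LinearMap.zero_apply] at h2
    rw [h2, map_zero, add_zero] at h1
    exact h1
  | succ n ih =>
    refine Finsupp.lhom_ext' fun s => LinearMap.ext_ring ?_
    show bd R E Y (n + 1) (sd R (n + 2) (Finsupp.single s 1)) =
      sd R (n + 1) (bd R E Y (n + 1) (Finsupp.single s 1))
    rw [PA6_sd_single]
    have h1 := LinearMap.congr_fun (bd_cone (R := R) (X := Y) (bary s.1) n)
      (sd R (n + 1) (bd R E Y (n + 1) (Finsupp.single s 1)))
    have h2 := LinearMap.congr_fun (bd_comp_bd (R := R) (E := E) (X := Y) n) (Finsupp.single s 1)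
    have h3 := LinearMap.congr_fun ih (bd R E Y (n + 1) (Finsupp.single s 1))
    rw [LinearMap.add_apply, LinearMap.comp_apply, LinearMap.comp_apply, LinearMap.id_apply] at h1
    rw [LinearMap.comp_apply, LinearMap.zero_apply] at h2
    rw [LinearMap.comp_apply, LinearMap.comp_apply, h2, map_zero] at h3
    rw [h3, map_zero, add_zero] at h1
    exact h1

/-- `∂ T + T ∂ = id - sd` in degrees `≥ 1`.
Proof: induction; on `single s 1`: `∂ T s = ∂ cone_b(s - T∂s) = (s - T∂s) - cone_b(∂s - ∂T∂s)` (for
`n + 1 ≥ 1`, `bd_cone`) and `∂T∂s = ∂s - sd ∂s - T∂∂s = ∂s - sd ∂s` (for `∂s` in degree `0`: `T = 0` and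
`sd = id`), so `∂ T s = s - T∂s - cone_b(sd ∂s) = s - T∂s - sd s`. -/
theorem bd_sdT (n : ℕ) : bd R E Y (n + 1) ∘ₗ sdT R (n + 1) + sdT R n ∘ₗ bd R E Y n =
    LinearMap.id - sd R (n + 1) := by
  induction n with
  | zero =>
    refine Finsupp.lhom_ext' fun s => LinearMap.ext_ring ?_
    show bd R E Y 1 (sdT R 1 (Finsupp.single s 1)) + sdT R 0 (bd R E Y 0 (Finsupp.single s 1)) =
      Finsupp.single s 1 - sd R 1 (Finsupp.single s 1)
    rw [PA6_sd_single, PA6_sdT_single]
    have h0 : ∀ m, sdT (E := E) (Y := Y) R 0 m = 0 := fun m => rfl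
    have h1 := LinearMap.congr_fun (bd_cone (R := R) (X := Y) (bary s.1) 0) (Finsupp.single s 1)
    rw [LinearMap.add_apply, LinearMap.comp_apply, LinearMap.comp_apply, LinearMap.id_apply] at h1
    rw [h0, sub_zero, add_zero]
    exact eq_sub_of_add_eq h1
  | succ n ih =>
    refine Finsupp.lhom_ext' fun s => LinearMap.ext_ring ?_
    show bd R E Y (n + 2) (sdT R (n + 2) (Finsupp.single s 1)) +
      sdT R (n + 1) (bd R E Y (n + 1) (Finsupp.single s 1)) =
      Finsupp.single s 1 - sd R (n + 2) (Finsupp.single s 1)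
    rw [PA6_sd_single, PA6_sdT_single]
    have h1 := LinearMap.congr_fun (bd_cone (R := R) (X := Y) (bary s.1) (n + 1))
      (Finsupp.single s 1 - sdT R (n + 1) (bd R E Y (n + 1) (Finsupp.single s 1)))
    have h2 := LinearMap.congr_fun (bd_comp_bd (R := R) (E := E) (X := Y) n) (Finsupp.single s 1)
    have h3 := LinearMap.congr_fun ih (bd R E Y (n + 1) (Finsupp.single s 1))
    rw [LinearMap.add_apply, LinearMap.comp_apply, LinearMap.comp_apply, LinearMap.id_apply] at h1
    rw [LinearMap.comp_apply, LinearMap.zero_apply] at h2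
    rw [LinearMap.add_apply, LinearMap.comp_apply, LinearMap.comp_apply, h2, map_zero, add_zero,
      LinearMap.sub_apply, LinearMap.id_apply] at h3
    have h4 : bd R E Y (n + 1) (Finsupp.single s 1 -
        sdT R (n + 1) (bd R E Y (n + 1) (Finsupp.single s 1))) =
        sd R (n + 1) (bd R E Y (n + 1) (Finsupp.single s 1)) := by
      rw [map_sub, h3]
      abel
    rw [h4] at h1
    have h5 := eq_sub_of_add_eq h1
    rw [h5]
    abel

theorem bd_sdT_zero : bd R E Y 0 ∘ₗ sdT R 0 = LinearMap.id - sd (E := E) (Y := Y) R 0 := by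
  refine LinearMap.ext fun m => ?_
  show bd R E Y 0 (sdT R 0 m) = m - sd R 0 m
  have h0 : sdT R 0 m = 0 := rfl
  have h1 : sd R 0 m = m := rfl
  rw [h0, h1, map_zero, sub_self]

private theorem PA6_bd_sd_pow (k n : ℕ) (z : Simp E Y (n + 1) →₀ R) :
    bd R E Y n ((sd R (n + 1) ^ k) z) = (sd R n ^ k) (bd R E Y n z) := by
  induction k with
  | zero => simp
  | succ k ih =>
    have h1 := LinearMap.congr_fun (bd_sd (R := R) (E := E) (Y := Y) n) ((sd R (n + 1) ^ k) z)
    rw [LinearMap.comp_apply, LinearMap.comp_apply] at h1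
    rw [pow_succ', Module.End.mul_apply, h1, ih, pow_succ', Module.End.mul_apply]

/-- The iterated homotopy. Proof: `T_k = ∑_{j<k} T ∘ sd^j`; telescoping with `bd_sdT`, `bd_sd`.
For a cycle `z` (of degree `n + 1 ≥ 1`), `z - sd^k z = ∂ (T_k z)`. -/
theorem exists_iterate (k n : ℕ) (z : Simp E Y (n + 1) →₀ R) (hz : bd R E Y n z = 0) :
    z - (sd R (n + 1) ^ k) z = bd R E Y (n + 1)
      (∑ j ∈ Finset.range k, sdT R (n + 1) ((sd R (n + 1) ^ j) z)) := by
  induction k with
  | zero => simp
  | succ k ih =>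
    rw [Finset.sum_range_succ, map_add, ← ih]
    have h1 := LinearMap.congr_fun (bd_sdT (R := R) (E := E) (Y := Y) n) ((sd R (n + 1) ^ k) z)
    rw [LinearMap.add_apply, LinearMap.comp_apply, LinearMap.comp_apply, LinearMap.sub_apply,
      LinearMap.id_apply, PA6_bd_sd_pow, hz, map_zero, map_zero, add_zero] at h1
    rw [h1, pow_succ', Module.End.mul_apply]
    abel

/-- The same in degree `0`. -/
theorem exists_iterate_zero (k : ℕ) (z : Simp E Y 0 →₀ R) :
    z - (sd R 0 ^ k) z = bd R E Y 0 (∑ j ∈ Finset.range k, sdT R 0 ((sd R 0 ^ j) z)) := by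
  have h0 : ∀ m, sdT (E := E) (Y := Y) R 0 m = 0 := fun m => rfl
  have h1 : sd (E := E) (Y := Y) R 0 = 1 := rfl
  rw [h1, one_pow, Module.End.one_apply, sub_self]
  simp only [h0, Finset.sum_const_zero, map_zero]

theorem bd_sd_pow (k n : ℕ) (z : Simp E Y (n + 1) →₀ R) :
    bd R E Y n ((sd R (n + 1) ^ k) z) = (sd R n ^ k) (bd R E Y n z) := by
  exact PA6_bd_sd_pow k n z

end Pool.Agent.Lib.MP_666dc0_nt.EP
end

section

/-!
# EP, S1d: traces and eigenspaces of the right multiplication
-/

namespace Pool.Agent.Lib.MP_666dc0_nt.EP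

/-- The trace of `leftReg g ∘ rightMul h` is the sum over the eigenvalues `x` of `rightMul h` of
`x` times the trace of `leftReg g` on the eigenspace. Here `s` is any finite set that contains all
eigenvalues. -/
theorem trace_eq_sum_eigen (H L : Type) [Group H] [Finite H] [Field L] [IsAlgClosed L]
    [CharZero L] (g h : H) (s : Finset L)
    (hs : ∀ x, Module.End.eigenspace (rightMul H L h) x ≠ ⊥ → x ∈ s)
    (hg : ∀ x : L, ∀ u ∈ Module.End.eigenspace (rightMul H L h) x,
      leftReg H L g u ∈ Module.End.eigenspace (rightMul H L h) x) :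
    LinearMap.trace L _ (leftReg H L g ∘ₗ rightMul H L h) =
      ∑ x ∈ s, x * LinearMap.trace L _ ((leftReg H L g).restrict (hg x)) := by
  classical
  have hint : DirectSum.IsInternal fun x : L => Module.End.eigenspace (rightMul H L h) x :=
    DirectSum.isInternal_submodule_of_iSupIndep_of_iSup_eq_top
      (Module.End.eigenspaces_iSupIndep _) (iSup_eigenspace_rightMul H L h)
  have hfin : {x : L | Module.End.eigenspace (rightMul H L h) x ≠ ⊥}.Finite :=
    s.finite_toSet.subset fun x hx => hs x hx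
  have hmap : ∀ x : L, Set.MapsTo (leftReg H L g ∘ₗ rightMul H L h)
      (Module.End.eigenspace (rightMul H L h) x) (Module.End.eigenspace (rightMul H L h) x) := by
    intro x u hu
    have hu' : u ∈ Module.End.eigenspace (rightMul H L h) x := hu
    have h1 : rightMul H L h u = x • u := Module.End.mem_eigenspace_iff.1 hu'
    have h2 : (leftReg H L g ∘ₗ rightMul H L h) u = x • leftReg H L g u := by
      rw [LinearMap.comp_apply, h1, map_smul]
    change (leftReg H L g ∘ₗ rightMul H L h) u ∈ Module.End.eigenspace (rightMul H L h) x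
    rw [h2]
    exact Submodule.smul_mem _ _ (hg x u hu')
  rw [LinearMap.trace_eq_sum_trace_restrict' hint hfin hmap]
  have hres : ∀ x : L, LinearMap.trace L (Module.End.eigenspace (rightMul H L h) x)
      ((leftReg H L g ∘ₗ rightMul H L h).restrict (hmap x)) =
      x * LinearMap.trace L _ ((leftReg H L g).restrict (hg x)) := by
    intro x
    have h1 : (leftReg H L g ∘ₗ rightMul H L h).restrict (hmap x) =
        x • (leftReg H L g).restrict (hg x) := by
      apply LinearMap.ext
      intro u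
      apply Subtype.ext
      have h2 : rightMul H L h (u : H → L) = x • (u : H → L) :=
        Module.End.mem_eigenspace_iff.1 u.2
      change leftReg H L g (rightMul H L h (u : H → L)) = x • leftReg H L g (u : H → L)
      rw [h2, map_smul]
    rw [h1, map_smul, smul_eq_mul]
  simp only [hres]
  refine Finset.sum_subset (fun x hx => hs x (hfin.mem_toFinset.1 hx)) fun x _ hx => ?_
  have hbot : Module.End.eigenspace (rightMul H L h) x = ⊥ := by
    by_contra hne
    exact hx (hfin.mem_toFinset.2 hne)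
  have h0 : (leftReg H L g).restrict (hg x) = 0 := by
    apply LinearMap.ext
    intro u
    have hu : (u : H → L) = 0 :=
      (Submodule.mem_bot L).1 (hbot.le u.2)
    have hu' : u = 0 := Subtype.ext hu
    rw [hu', map_zero, map_zero]
  rw [h0, map_zero, mul_zero]

end Pool.Agent.Lib.MP_666dc0_nt.EP
end

section

/-!
# EP, S1f: characters span the class functions
-/

namespace Pool.Agent.Lib.MP_666dc0_nt.EP

/-- The span of the characters of the matrix representations. -/
private def charSpan (H L : Type) [Group H] [Field L] : Submodule L (H → L) :=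
  Submodule.span L {χ | ∃ (d : ℕ) (σ : H →* GL (Fin d) L),
    χ = fun g => (σ g : Matrix (Fin d) (Fin d) L).trace}

private theorem trace_mem_charSpan {H L : Type} [Group H] [Field L] {V : Type} [AddCommGroup V]
    [Module L V] [FiniteDimensional L V] (ρ : Representation L H V) :
    (fun g => LinearMap.trace L V (ρ g)) ∈ charSpan H L := by
  obtain ⟨d, σ, h⟩ := exists_matrix_rep H L ρ
  exact Submodule.subset_span ⟨d, σ, funext h⟩

private theorem card_mem_charSpan (H L : Type) [Group H] [Finite H] [Field L] [IsAlgClosed L]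
    [CharZero L] (h : H) :
    (fun g => (Nat.card {x : H // g⁻¹ * x * h = x} : L)) ∈ charSpan H L := by
  have hg : ∀ g : H, ∀ x : L, ∀ u ∈ Module.End.eigenspace (rightMul H L h) x,
      leftReg H L g u ∈ Module.End.eigenspace (rightMul H L h) x := by
    intro g x u hu
    rw [Module.End.mem_eigenspace_iff] at hu ⊢
    have h1 := LinearMap.congr_fun (leftReg_comm H L g h) u
    simp only [LinearMap.comp_apply] at h1
    rw [← h1, hu, map_smul]
  let ρ : ∀ x : L, Representation L H (Module.End.eigenspace (rightMul H L h) x) := fun x =>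
    { toFun := fun g => (leftReg H L g).restrict (hg g x)
      map_one' := by
        apply LinearMap.ext
        intro u
        apply Subtype.ext
        change leftReg H L 1 u.1 = u.1
        rw [map_one]
        rfl
      map_mul' := fun g g' => by
        apply LinearMap.ext
        intro u
        apply Subtype.ext
        change leftReg H L (g * g') u.1 = leftReg H L g (leftReg H L g' u.1)
        rw [map_mul]
        rfl }
  set s : Finset L := (Module.End.finite_hasEigenvalue (rightMul H L h)).toFinset with hs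
  have key : (fun g => (Nat.card {x : H // g⁻¹ * x * h = x} : L)) =
      ∑ x ∈ s, x • (fun g => LinearMap.trace L _ (ρ x g)) := by
    funext g
    rw [← trace_leftReg_rightMul, trace_eq_sum_eigen H L g h s ?_ (hg g), Finset.sum_apply]
    · rfl
    · intro x hx
      rw [hs, Set.Finite.mem_toFinset]
      exact hx
  rw [key]
  exact Submodule.sum_mem _ fun x _ => Submodule.smul_mem _ _ (trace_mem_charSpan (ρ x))

/-- **Characters span the class functions.** For a finite group `H` and an algebraically closed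
field `L` of characteristic zero, every class function on `H` is a linear combination of characters
of representations.
Proof: for `h ∈ H` the function `g ↦ card {x | g⁻¹ x h = x}` is `card C(h)` times the indicator
function of the class of `h` (`card_fix`); it is a linear combination of characters by
`trace_leftReg_rightMul`, `trace_eq_sum_eigen` (the eigenspaces of `rightMul h` are
subrepresentations of `leftReg`, by `leftReg_comm`) and `exists_matrix_rep`. A class function is a
linear combination of the indicator functions of the classes. -/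
theorem class_fun_span (H L : Type) [Group H] [Finite H] [Field L] [IsAlgClosed L] [CharZero L]
    (f : H → L) (hf : ∀ g h : H, f (h * g * h⁻¹) = f g) :
    ∃ (m : ℕ) (d : Fin m → ℕ) (σ : ∀ j, H →* GL (Fin (d j)) L) (b : Fin m → L),
      ∀ g, f g = ∑ j, b j * (σ j g : Matrix (Fin (d j)) (Fin (d j)) L).trace := by
  classical
  have := Fintype.ofFinite H
  have hcl : ∀ g h : H, IsConj g h → f h = f g := by
    intro g h hgh
    obtain ⟨c, rfl⟩ := isConj_iff.1 hgh
    exact hf g c
  let c : H → ℕ := fun h => (Finset.univ.filter fun k => IsConj h k).card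
  have hc : ∀ g h : H, IsConj g h → c h = c g := by
    intro g h hgh
    change (Finset.univ.filter fun k => IsConj h k).card =
      (Finset.univ.filter fun k => IsConj g k).card
    congr 1
    ext k
    simp only [Finset.mem_filter, Finset.mem_univ, true_and]
    exact ⟨fun h1 => hgh.trans h1, fun h1 => hgh.symm.trans h1⟩
  have hc0 : ∀ g : H, (c g : L) ≠ 0 := by
    intro g
    have h1 : 0 < c g := Finset.card_pos.2 ⟨g, by
      simp only [Finset.mem_filter, Finset.mem_univ, true_and]
      exact IsConj.refl g⟩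
    exact_mod_cast h1.ne'
  have hz0 : ∀ h : H, (Nat.card (Subgroup.centralizer {h}) : L) ≠ 0 := by
    intro h
    exact_mod_cast Nat.card_pos.ne'
  have hmem : f ∈ charSpan H L := by
    have key : f = ∑ h : H, (f h / (c h * Nat.card (Subgroup.centralizer {h}))) •
        (fun g => (Nat.card {x : H // g⁻¹ * x * h = x} : L)) := by
      funext g
      rw [Finset.sum_apply]
      have h1 : ∀ h : H, ((f h / (c h * Nat.card (Subgroup.centralizer {h}))) •
          (fun g => (Nat.card {x : H // g⁻¹ * x * h = x} : L))) g =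
          if IsConj g h then f g / c g else 0 := by
        intro h
        rw [Pi.smul_apply, smul_eq_mul, card_fix]
        by_cases hgh : IsConj g h
        · rw [if_pos hgh, if_pos hgh, hcl g h hgh, hc g h hgh]
          have := hc0 g
          have := hz0 h
          field_simp
        · rw [if_neg hgh, if_neg hgh, Nat.cast_zero, mul_zero]
      simp_rw [h1]
      rw [← Finset.sum_filter, Finset.sum_const, nsmul_eq_mul]
      change f g = (c g : L) * (f g / c g)
      have := hc0 g
      field_simp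
    rw [key]
    exact Submodule.sum_mem _ fun h _ => Submodule.smul_mem _ _ (card_mem_charSpan H L h)
  obtain ⟨m, b, χ, hχ⟩ := Submodule.mem_span_set'.1 hmem
  choose d σ hσ using fun j => (χ j).2
  refine ⟨m, d, σ, b, fun g => ?_⟩
  rw [← hχ, Finset.sum_apply]
  refine Finset.sum_congr rfl fun j _ => ?_
  rw [Pi.smul_apply, smul_eq_mul, hσ j]

end Pool.Agent.Lib.MP_666dc0_nt.EP
end
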