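import Mathlib

section

/-!
# EP, N1a: representations of compact groups
-/

namespace Pool.Agent.Lib.MP_666dc0_nt.EP

variable {ℓ : ℕ} [Fact ℓ.Prime] {K : Type} [Group K] [TopologicalSpace K] [IsTopologicalGroup K]
  [CompactSpace K]

/-- The entries of a continuous representation of a compact group are bounded. -/
theorem exists_entry_bound {d : ℕ} (ρ : K →* GL (Fin d) (PadicAlgCl ℓ)) (hρ : Continuous ρ) :
    ∃ C : ℝ, 0 < C ∧ ∀ k i j, ‖(ρ k : Matrix (Fin d) (Fin d) (PadicAlgCl ℓ)) i j‖ ≤ C := by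
  have hc : ∀ i j, Continuous fun k => (ρ k : Matrix (Fin d) (Fin d) (PadicAlgCl ℓ)) i j :=
    fun i j => (Units.continuous_val.comp hρ).matrix_elem i j
  have hb : ∀ i j, ∃ C : ℝ, ∀ k, ‖(ρ k : Matrix (Fin d) (Fin d) (PadicAlgCl ℓ)) i j‖ ≤ C := by
    intro i j
    obtain ⟨C, hC⟩ := isCompact_univ.exists_bound_of_continuousOn (hc i j).continuousOn
    exact ⟨C, fun k => hC k (Set.mem_univ k)⟩
  choose C hC using hb
  refine ⟨1 + ∑ i, ∑ j, |C i j|, by positivity, fun k i j => ?_⟩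
  have h1 : |C i j| ≤ ∑ j, |C i j| :=
    Finset.single_le_sum (f := fun j => |C i j|) (fun _ _ => abs_nonneg _) (Finset.mem_univ j)
  have h2 : ∑ j, |C i j| ≤ ∑ i, ∑ j, |C i j| :=
    Finset.single_le_sum (f := fun i => ∑ j, |C i j|)
      (fun _ _ => Finset.sum_nonneg fun _ _ => abs_nonneg _) (Finset.mem_univ i)
  have h3 := hC i j k
  have h4 := le_abs_self (C i j)
  linarith

/-- Homomorphisms with open kernel are continuous. -/
theorem continuous_of_ker_open {d : ℕ} (σ : K →* GL (Fin d) (PadicAlgCl ℓ))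
    (h : IsOpen (σ.ker : Set K)) : Continuous σ := by
  refine continuous_of_continuousAt_one σ ?_
  intro U hU
  rw [map_one] at hU
  refine Filter.mem_map.mpr (Filter.mem_of_superset (h.mem_nhds (one_mem σ.ker)) ?_)
  intro k hk
  have : σ k = 1 := hk
  show σ k ∈ U
  rw [this]
  exact mem_of_mem_nhds hU

end Pool.Agent.Lib.MP_666dc0_nt.EP
end

section

/-!
# EP, N1b: congruence subgroups
-/

namespace Pool.Agent.Lib.MP_666dc0_nt.EP

variable {ℓ : ℕ} [Fact ℓ.Prime] {K : Type} [Group K] [TopologicalSpace K] [IsTopologicalGroup K]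
  [CompactSpace K]

private theorem N1b_sum_lt {L : Type} [SeminormedAddCommGroup L] [IsUltrametricDist L] {ι : Type}
    (s : Finset ι) (f : ι → L) {δ : ℝ} (hδ : 0 < δ) (h : ∀ i ∈ s, ‖f i‖ < δ) :
    ‖∑ i ∈ s, f i‖ < δ := by
  classical
  induction s using Finset.induction_on with
  | empty => simpa using hδ
  | insert a s ha ih =>
    rw [Finset.sum_insert ha]
    refine lt_of_le_of_lt (IsUltrametricDist.norm_add_le_max _ _) (max_lt ?_ ?_)
    · exact h a (Finset.mem_insert_self a s)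
    · exact ih fun i hi => h i (Finset.mem_insert_of_mem hi)

private theorem N1b_mul {d : ℕ} {A B : Matrix (Fin d) (Fin d) (PadicAlgCl ℓ)} {δ : ℝ} (hδ : 0 < δ)
    (hδ1 : δ ≤ 1) (hA : ∀ i j, ‖(A - 1) i j‖ < δ) (hB : ∀ i j, ‖(B - 1) i j‖ < δ) (i j : Fin d) :
    ‖(A * B - 1) i j‖ < δ := by
  have h1 : A * B - 1 = (A - 1) * (B - 1) + ((A - 1) + (B - 1)) := by noncomm_ring
  rw [h1, Matrix.add_apply, Matrix.add_apply, Matrix.mul_apply]
  refine lt_of_le_of_lt (IsUltrametricDist.norm_add_le_max _ _) (max_lt ?_ ?_)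
  · refine N1b_sum_lt _ _ hδ fun l _ => ?_
    rw [norm_mul]
    calc ‖(A - 1) i l‖ * ‖(B - 1) l j‖ ≤ 1 * ‖(B - 1) l j‖ :=
          mul_le_mul_of_nonneg_right ((hA i l).le.trans hδ1) (norm_nonneg _)
      _ = ‖(B - 1) l j‖ := one_mul _
      _ < δ := hB l j
  · exact lt_of_le_of_lt (IsUltrametricDist.norm_add_le_max _ _) (max_lt (hA i j) (hB i j))

/-- For `0 < δ ≤ 1` the elements `k` such that all entries of `ρ(k) - 1` have norm `< δ` form an
open subgroup.
Proof: for inverses, all entries of `ρ(k)` have norm `≤ 1` and `det ρ(k)` has norm `1` (it is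
`≡ 1`), so the entries of `ρ(k)⁻¹` have norm `≤ 1`, and `ρ(k)⁻¹ - 1 = -ρ(k)⁻¹ (ρ(k) - 1)`. -/
theorem exists_congruence_subgroup {d : ℕ} (ρ : K →* GL (Fin d) (PadicAlgCl ℓ))
    (hρ : Continuous ρ) {δ : ℝ} (hδ : 0 < δ) (hδ1 : δ ≤ 1) :
    ∃ N : Subgroup K, IsOpen (N : Set K) ∧
      ∀ k ∈ N, ∀ i j, ‖((ρ k : Matrix (Fin d) (Fin d) (PadicAlgCl ℓ)) - 1) i j‖ < δ := by
  have hc : ∀ i j, Continuous fun k =>
      ‖((ρ k : Matrix (Fin d) (Fin d) (PadicAlgCl ℓ)) - 1) i j‖ := by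
    intro i j
    have h1 : Continuous fun k => (ρ k : Matrix (Fin d) (Fin d) (PadicAlgCl ℓ)) :=
      Units.continuous_val.comp hρ
    exact ((h1.sub continuous_const).matrix_elem i j).norm
  let N : Subgroup K :=
    { carrier := {k | (∀ i j, ‖((ρ k : Matrix (Fin d) (Fin d) (PadicAlgCl ℓ)) - 1) i j‖ < δ) ∧
        ∀ i j, ‖((ρ k⁻¹ : Matrix (Fin d) (Fin d) (PadicAlgCl ℓ)) - 1) i j‖ < δ}
      one_mem' := by
        constructor
        · intro i j
          simpa using hδ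
        · intro i j
          simpa using hδ
      mul_mem' := by
        rintro a b ⟨ha, ha'⟩ ⟨hb, hb'⟩
        constructor
        · intro i j
          rw [map_mul, Units.val_mul]
          exact N1b_mul hδ hδ1 ha hb i j
        · intro i j
          rw [mul_inv_rev, map_mul, Units.val_mul]
          exact N1b_mul hδ hδ1 hb' ha' i j
      inv_mem' := by
        rintro a ⟨ha, ha'⟩
        exact ⟨ha', by rw [inv_inv]; exact ha⟩ }
  refine ⟨N, ?_, fun k hk => hk.1⟩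
  have h2 : (N : Set K) = (⋂ i, ⋂ j,
      {k | ‖((ρ k : Matrix (Fin d) (Fin d) (PadicAlgCl ℓ)) - 1) i j‖ < δ}) ∩
      ⋂ i, ⋂ j, {k | ‖((ρ k⁻¹ : Matrix (Fin d) (Fin d) (PadicAlgCl ℓ)) - 1) i j‖ < δ} := by
    ext k
    simp only [Set.mem_inter_iff, Set.mem_iInter, Set.mem_ofPred_eq]
    exact Iff.rfl
  rw [h2]
  refine IsOpen.inter (isOpen_iInter_of_finite fun i => isOpen_iInter_of_finite fun j => ?_)
    (isOpen_iInter_of_finite fun i => isOpen_iInter_of_finite fun j => ?_)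
  · exact isOpen_lt (hc i j) continuous_const
  · exact isOpen_lt ((hc i j).comp continuous_inv) continuous_const

end Pool.Agent.Lib.MP_666dc0_nt.EP
end

section

/-!
# EP, N1c: open normal subgroups
-/

namespace Pool.Agent.Lib.MP_666dc0_nt.EP

variable {ℓ : ℕ} [Fact ℓ.Prime] {K : Type} [Group K] [TopologicalSpace K] [IsTopologicalGroup K]
  [CompactSpace K]

/-- An open subgroup of a compact group contains an open normal subgroup. -/
theorem exists_normal_open (N : Subgroup K) (hN : IsOpen (N : Set K)) :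
    ∃ N' : Subgroup K, N'.Normal ∧ IsOpen (N' : Set K) ∧ N' ≤ N := by
  have hfin : Finite (K ⧸ N) := N.quotient_finite_of_isOpen hN
  have hfi : N.FiniteIndex := Subgroup.finiteIndex_of_finite_quotient
  have hclosed : IsClosed (N : Set K) := N.isClosed_of_isOpen hN
  refine ⟨N.normalCore, N.normalCore_normal, ?_, N.normalCore_le⟩
  exact Subgroup.isOpen_of_isClosed_of_finiteIndex _ (N.normalCore_isClosed hclosed)

end Pool.Agent.Lib.MP_666dc0_nt.EP
end

section

/-!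
# EP, N1d: approximation by class functions of finite quotients
-/

namespace Pool.Agent.Lib.MP_666dc0_nt.EP

variable {ℓ : ℕ} [Fact ℓ.Prime] {K : Type} [Group K] [TopologicalSpace K] [IsTopologicalGroup K]
  [CompactSpace K]

/-- The character of a continuous representation is approximated by a class function of a finite
quotient.
Proof: let `C` bound the entries of `ρ`, `δ = min 1 (ε / C)`, `N` an open normal subgroup on which the
entries of `ρ(k) - 1` have norm `< δ`. Choose a section `s` of the map `K → ConjClasses (K ⧸ N)` and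
let `f(g) = tr ρ(s(class of g))`. For `k ∈ K` there are `x ∈ K`, `n ∈ N` with
`k = x s(c) x⁻¹ n`, and `tr ρ(k) - tr ρ(s(c)) = tr (ρ(x s(c) x⁻¹) (ρ(n) - 1))`. -/
theorem exists_approx {d : ℕ} (ρ : K →* GL (Fin d) (PadicAlgCl ℓ)) (hρ : Continuous ρ) {ε : ℝ}
    (hε : 0 < ε) : ∃ (N : Subgroup K) (_ : N.Normal) (f : K ⧸ N → PadicAlgCl ℓ),
      IsOpen (N : Set K) ∧ (∀ g h : K ⧸ N, f (h * g * h⁻¹) = f g) ∧
      ∀ k : K, ‖(ρ k : Matrix (Fin d) (Fin d) (PadicAlgCl ℓ)).trace - f k‖ ≤ ε := by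
  classical
  obtain ⟨C, hC0, hC⟩ := exists_entry_bound ρ hρ
  have hδ : 0 < min 1 (ε / C) := lt_min one_pos (div_pos hε hC0)
  obtain ⟨N₀, hN₀, hN₀'⟩ := exists_congruence_subgroup ρ hρ hδ (min_le_left _ _)
  obtain ⟨N, hN, hNo, hNN₀⟩ := exists_normal_open N₀ hN₀
  have hsurj : ∀ c : ConjClasses (K ⧸ N), ∃ s : K, ConjClasses.mk ((s : K) : K ⧸ N) = c := by
    intro c
    obtain ⟨g, rfl⟩ := ConjClasses.mk_surjective c
    obtain ⟨s, rfl⟩ := QuotientGroup.mk_surjective g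
    exact ⟨s, rfl⟩
  choose s hs using hsurj
  refine ⟨N, hN, fun g => (ρ (s (ConjClasses.mk g)) : Matrix (Fin d) (Fin d)
    (PadicAlgCl ℓ)).trace, hNo, ?_, ?_⟩
  · intro g h
    have h1 : ConjClasses.mk (h * g * h⁻¹) = ConjClasses.mk g := by
      rw [ConjClasses.mk_eq_mk_iff_isConj, isConj_comm, isConj_iff]
      exact ⟨h, rfl⟩
    show (ρ (s (ConjClasses.mk (h * g * h⁻¹))) : Matrix (Fin d) (Fin d) (PadicAlgCl ℓ)).trace =
      (ρ (s (ConjClasses.mk g)) : Matrix (Fin d) (Fin d) (PadicAlgCl ℓ)).trace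
    rw [h1]
  · intro k
    show ‖(ρ k : Matrix (Fin d) (Fin d) (PadicAlgCl ℓ)).trace -
      (ρ (s (ConjClasses.mk (k : K ⧸ N))) : Matrix (Fin d) (Fin d) (PadicAlgCl ℓ)).trace‖ ≤ ε
    have h1 := hs (ConjClasses.mk (k : K ⧸ N))
    rw [ConjClasses.mk_eq_mk_iff_isConj, isConj_iff] at h1
    obtain ⟨x', hx'⟩ := h1
    obtain ⟨x, rfl⟩ := QuotientGroup.mk_surjective x'
    have hx : ((x * s (ConjClasses.mk (k : K ⧸ N)) * x⁻¹ : K) : K ⧸ N) = (k : K ⧸ N) := hx'
    rw [QuotientGroup.eq] at hx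
    generalize s (ConjClasses.mk (k : K ⧸ N)) = t at hx
    have hk : k = (x * t * x⁻¹) * ((x * t * x⁻¹)⁻¹ * k) := by
      rw [mul_inv_cancel_left]
    generalize (x * t * x⁻¹)⁻¹ * k = n at hx hk
    have h2 : (ρ k : Matrix (Fin d) (Fin d) (PadicAlgCl ℓ)) =
        (ρ (x * t * x⁻¹) : Matrix (Fin d) (Fin d) (PadicAlgCl ℓ)) * (ρ n : Matrix _ _ _) := by
      rw [hk, map_mul, Units.val_mul]
    have h3 : (ρ t : Matrix (Fin d) (Fin d) (PadicAlgCl ℓ)).trace =
        (ρ (x * t * x⁻¹) : Matrix (Fin d) (Fin d) (PadicAlgCl ℓ)).trace := by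
      rw [map_mul, map_mul, Units.val_mul, Units.val_mul, Matrix.trace_mul_comm,
        ← Matrix.mul_assoc, ← Units.val_mul, ← map_mul, inv_mul_cancel, map_one, Units.val_one,
        Matrix.one_mul]
    have h4 : (ρ k : Matrix (Fin d) (Fin d) (PadicAlgCl ℓ)).trace -
        (ρ t : Matrix (Fin d) (Fin d) (PadicAlgCl ℓ)).trace =
        ((ρ (x * t * x⁻¹) : Matrix (Fin d) (Fin d) (PadicAlgCl ℓ)) *
          ((ρ n : Matrix (Fin d) (Fin d) (PadicAlgCl ℓ)) - 1)).trace := by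
      rw [h2, h3, Matrix.mul_sub, Matrix.mul_one, Matrix.trace_sub]
    rw [h4]
    have h5 : ∀ i j, ‖((ρ n : Matrix (Fin d) (Fin d) (PadicAlgCl ℓ)) - 1) i j‖ ≤ ε / C :=
      fun i j => (hN₀' n (hNN₀ hx) i j).le.trans (min_le_right _ _)
    unfold Matrix.trace
    refine IsUltrametricDist.norm_sum_le_of_forall_le_of_nonneg hε.le fun i _ => ?_
    rw [Matrix.diag_apply, Matrix.mul_apply]
    refine IsUltrametricDist.norm_sum_le_of_forall_le_of_nonneg hε.le fun j _ => ?_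
    rw [norm_mul]
    calc _ ≤ C * (ε / C) := mul_le_mul (hC _ i j) (h5 j i) (norm_nonneg _) hC0.le
      _ = ε := mul_div_cancel₀ ε hC0.ne'

end Pool.Agent.Lib.MP_666dc0_nt.EP
end
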