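import Pool.Agent.Lib.MP_666dc0_nt.EP.BV0
import Pool.Agent.Lib.MP_666dc0_nt.Mg.G002
import Pool.Agent.Lib.MP_666dc0_nt.EP.RA4
import Pool.Agent.Lib.MP_666dc0_nt.Mg.G004
import Pool.Agent.Lib.MP_666dc0_nt.Mg.G065
import Pool.Agent.Lib.MP_666dc0_nt.Mg.G062

section

/-!
# EP, BV2: bases of the lattices
-/

open NumberField IsDedekindDomain
open scoped NumberField

namespace Pool.Agent.Lib.MP_666dc0_nt.EP

open WL

variable {F : Type} [Field F] [NumberField F] {n : ℕ} {D : Datum F n}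

private theorem bv2_closure {V : Type} [AddCommGroup V] {N : ℕ} (b : Fin N → V) (x : V) :
    x ∈ AddSubgroup.closure (Set.range b) ↔ ∃ c : Fin N → ℤ, x = ∑ i, c i • b i := by
  constructor
  · intro hx
    induction hx using AddSubgroup.closure_induction with
    | mem x hx =>
      obtain ⟨j, rfl⟩ := hx
      refine ⟨fun i => if i = j then 1 else 0, ?_⟩
      rw [Finset.sum_eq_single j]
      · show b j = (if j = j then (1 : ℤ) else 0) • b j
        rw [if_pos rfl, one_smul]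
      · intro i _ hij
        show (if i = j then (1 : ℤ) else 0) • b i = 0
        rw [if_neg hij, zero_smul]
      · intro h
        exact absurd (Finset.mem_univ j) h
    | zero => exact ⟨fun _ => 0, by simp⟩
    | add x y _ _ ihx ihy =>
      obtain ⟨c, hc⟩ := ihx
      obtain ⟨d, hd⟩ := ihy
      refine ⟨fun i => c i + d i, ?_⟩
      rw [hc, hd, ← Finset.sum_add_distrib]
      exact Finset.sum_congr rfl fun i _ => (add_smul _ _ _).symm
    | neg x _ ih =>
      obtain ⟨c, hc⟩ := ih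
      refine ⟨fun i => - c i, ?_⟩
      rw [hc, ← Finset.sum_neg_distrib]
      exact Finset.sum_congr rfl fun i _ => (neg_smul _ _).symm
  · rintro ⟨c, rfl⟩
    exact AddSubgroup.sum_mem _ fun i _ => AddSubgroup.zsmul_mem _
      (AddSubgroup.subset_closure (Set.mem_range_self i)) _

/-- The rank of the lattice of `g` is `n [F : ℚ]`.
Proof: `≤` is in `lat_free`. `≥`: by `exists_den_lat`, `x ↦ (m x_k)_k` is an injective additive map
`(Fin n → 𝓞 F) → lat g`; the rank of `Fin n → 𝓞 F` is `n [F : ℚ]`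
(`Module.finrank_pi_fintype`, `NumberField.RingOfIntegers.rank`,
`LinearMap.finrank_le_finrank_of_injective`). -/
theorem finrank_lat (g : D.Ad) : Module.finrank ℤ (lat g) = rk F n := by
  obtain ⟨hfree, hfin, hle⟩ := lat_free g
  apply le_antisymm hle
  obtain ⟨m, hm, -, h2⟩ := exists_den_lat g
  have hm0 : (m : F) ≠ 0 := by exact_mod_cast hm.ne'
  let φ : (Fin n → 𝓞 F) →+ lat g :=
    { toFun := fun x => ⟨fun k => (m : F) * (x k : F), h2 (fun k => (x k : F)) (fun k => (x k).2)⟩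
      map_zero' := by
        apply Subtype.ext
        funext k
        change (m : F) * (((0 : Fin n → 𝓞 F) k : 𝓞 F) : F) = 0
        simp
      map_add' := by
        intro x y
        apply Subtype.ext
        funext k
        change (m : F) * (((x + y) k : 𝓞 F) : F) = (m : F) * (x k : F) + (m : F) * (y k : F)
        rw [← mul_add]
        simp }
  have hinj : Function.Injective φ.toIntLinearMap := by
    intro x y hxy
    funext k
    apply RingOfIntegers.ext
    have h := congrArg (fun z : lat g => (z : Fin n → F) k) hxy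
    have h' : (m : F) * (x k : F) = (m : F) * (y k : F) := h
    exact mul_left_cancel₀ hm0 h'
  have h3 := LinearMap.finrank_le_finrank_of_injective hinj
  rw [Module.finrank_pi_fintype] at h3
  simp only [Finset.sum_const, Finset.card_univ, Fintype.card_fin, smul_eq_mul] at h3
  rw [NumberField.RingOfIntegers.rank] at h3
  exact h3

/-- A `ℤ`-basis of the abstract group `lat g` gives a basis in the sense of `IsBas`.
Proof of `ℚ`-independence: clear denominators, or `LinearIndependent.localization`/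
`LinearIndependent.iff_fractionRing` for `ℤ ⊆ ℚ` and the injective map `lat g → F^n`. -/
theorem isBas_of_basis {g : D.Ad} (B : Module.Basis (Fin (rk F n)) ℤ (lat g)) :
    IsBas g fun i => (B i : Fin n → F) := by
  refine ⟨?_, ?_⟩
  · have h1 := B.linearIndependent
    have h2 : LinearIndependent ℤ (fun i => (B i : Fin n → F)) :=
      h1.map' (lat g).subtype.toIntLinearMap (by
        rw [LinearMap.ker_eq_bot]
        exact Subtype.val_injective)
    exact (LinearIndependent.iff_fractionRing (R := ℤ) (K := ℚ)).1 h2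
  · apply le_antisymm
    · rw [AddSubgroup.closure_le]
      rintro _ ⟨i, rfl⟩
      exact (B i).2
    · intro x hx
      rw [bv2_closure]
      refine ⟨fun i => B.repr ⟨x, hx⟩ i, ?_⟩
      have h1 := congrArg (fun z : lat g => (z : Fin n → F)) (B.sum_repr ⟨x, hx⟩)
      have h2 : ((∑ i, B.repr ⟨x, hx⟩ i • B i : lat g) : Fin n → F) = x := h1
      rw [AddSubmonoidClass.coe_finsetSum] at h2
      exact h2.symm

theorem exists_isBas (g : D.Ad) : ∃ b, IsBas g b := by
  obtain ⟨hfree, hfin, -⟩ := lat_free g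
  exact ⟨_, isBas_of_basis (Module.finBasisOfFinrankEq ℤ (lat g) (finrank_lat g))⟩

/-- Conversely. -/
theorem IsBas.exists_basis {g : D.Ad} {b : Fin (rk F n) → Fin n → F} (hb : IsBas g b) :
    ∃ B : Module.Basis (Fin (rk F n)) ℤ (lat g), ∀ i, (B i : Fin n → F) = b i := by
  have hmem : ∀ i, b i ∈ lat g := by
    intro i
    rw [← hb.gen]
    exact AddSubgroup.subset_closure ⟨i, rfl⟩
  let v : Fin (rk F n) → lat g := fun i => ⟨b i, hmem i⟩
  have h1 : LinearIndependent ℤ b := (LinearIndependent.iff_fractionRing (R := ℤ) (K := ℚ)).2 hb.li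
  have h2 : LinearIndependent ℤ v :=
    LinearIndependent.of_comp (lat g).subtype.toIntLinearMap h1
  have h3 : ⊤ ≤ Submodule.span ℤ (Set.range v) := by
    rintro ⟨x, hx⟩ -
    have hx' := hx
    rw [← hb.gen, bv2_closure] at hx'
    obtain ⟨c, hc⟩ := hx'
    have h4 : (⟨x, hx⟩ : lat g) = ∑ i, c i • v i := by
      apply Subtype.ext
      rw [AddSubmonoidClass.coe_finsetSum]
      exact hc
    rw [h4]
    exact Submodule.sum_mem _ fun i _ => Submodule.smul_mem _ _ (Submodule.subset_span ⟨i, rfl⟩)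
  refine ⟨Module.Basis.mk h2 h3, fun i => ?_⟩
  rw [Module.Basis.mk_apply]

theorem IsBas.mem {g : D.Ad} {b : Fin (rk F n) → Fin n → F} (hb : IsBas g b) (i : Fin (rk F n)) :
    b i ∈ lat g := by
  rw [← hb.gen]
  exact AddSubgroup.subset_closure ⟨i, rfl⟩

/-- The elements of the lattice are the integral combinations of the basis. -/
theorem IsBas.mem_iff {g : D.Ad} {b : Fin (rk F n) → Fin n → F} (hb : IsBas g b) (x : Fin n → F) :
    x ∈ lat g ↔ ∃ c : Fin (rk F n) → ℤ, x = ∑ i, c i • b i := by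
  rw [← hb.gen, bv2_closure]

/-- A `ℤ`-basis of the lattice spans `F^n` over `ℚ` (dimension count: `finrank_vec`,
`LinearIndependent.span_eq_top_of_card_eq_finrank'`). -/
theorem IsBas.span_rat {g : D.Ad} {b : Fin (rk F n) → Fin n → F} (hb : IsBas g b) :
    Submodule.span ℚ (Set.range b) = ⊤ := by
  apply hb.li.span_eq_top_of_card_eq_finrank'
  rw [Fintype.card_fin, finrank_vec]

theorem IsBas.span {g : D.Ad} {b : Fin (rk F n) → Fin n → F} (hb : IsBas g b) :
    Submodule.span F (Set.range b) = ⊤ := by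
  rw [eq_top_iff]
  intro x _
  have h1 : x ∈ Submodule.span ℚ (Set.range b) := by
    rw [hb.span_rat]
    exact Submodule.mem_top
  exact Submodule.span_le_restrictScalars ℚ F (Set.range b) h1

end Pool.Agent.Lib.MP_666dc0_nt.EP
end

section

/-!
# EP, RA5: the Siegel property
-/

namespace Pool.Agent.Lib.MP_666dc0_nt.EP

open Matrix

private lemma ra5_posDef {N : ℕ} {Q g : Matrix (Fin N) (Fin N) ℝ} (hQ : Q.PosDef)
    (hg : IsUnit g.det) : (gᵀ * Q * g).PosDef := by
  have h := hQ.conjTranspose_mul_mul_same (B := g) (by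
    have h1 : IsUnit g := (Matrix.isUnit_iff_isUnit_det g).2 hg
    exact Matrix.mulVec_injective_of_isUnit h1)
  rwa [Matrix.conjTranspose_eq_transpose_of_trivial] at h

private lemma ra5_kap_le {N : ℕ} {Q g : Matrix (Fin N) (Fin N) ℝ} (hQ : Q.PosDef)
    (hg : IsUnit g.det) (k l : Fin N) : |kap g Q k l| ≤ 1 := by
  have h1 := (kap_orthogonal hQ hg).1
  have h2 := congrFun (congrFun h1 l) l
  rw [Matrix.mul_apply, Matrix.one_apply_eq] at h2
  have h3 : kap g Q k l ^ 2 ≤ 1 := by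
    rw [← h2]
    have h4 : kap g Q k l ^ 2 = (kap g Q)ᵀ l k * kap g Q k l := by
      rw [Matrix.transpose_apply, pow_two]
    rw [h4]
    refine Finset.single_le_sum (f := fun j => (kap g Q)ᵀ l j * kap g Q j l) (fun j _ => ?_)
      (Finset.mem_univ k)
    rw [Matrix.transpose_apply]
    exact mul_self_nonneg _
  exact (sq_le_one_iff_abs_le_one _).1 h3

private lemma ra5_back {N : ℕ} {Q g : Matrix (Fin N) (Fin N) ℝ} (hg : IsUnit g.det) :
    (g⁻¹)ᵀ * (gᵀ * Q * g) * g⁻¹ = Q := by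
  have h1 : g * g⁻¹ = 1 := Matrix.mul_nonsing_inv g hg
  have h2 : (g⁻¹)ᵀ * gᵀ = 1 := by
    rw [← Matrix.transpose_mul, h1, Matrix.transpose_one]
  calc (g⁻¹)ᵀ * (gᵀ * Q * g) * g⁻¹ = ((g⁻¹)ᵀ * gᵀ) * Q * (g * g⁻¹) := by
        simp only [Matrix.mul_assoc]
    _ = Q := by rw [h1, h2, Matrix.one_mul, Matrix.mul_one]

/-- `α'_l ≤ B' α_l`. -/
private lemma ra5_al' (N : ℕ) (C : ℝ) (hC : 1 ≤ C) (m : ℕ) (hm : 0 < m) : ∃ B : ℝ, 1 ≤ B ∧
    ∀ (g Q : Matrix (Fin N) (Fin N) ℝ), IsUnit g.det →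
      (∀ i j, ∃ z : ℤ, m * g⁻¹ i j = z) → Q.PosDef → Red C Q → Red C (gᵀ * Q * g) →
      ∀ j, al (gᵀ * Q * g) j ≤ B * al Q j := by
  obtain ⟨B, hB1, hB⟩ := exists_al_le N C hC m hm
  refine ⟨B, hB1, fun g Q hg hz hQ hR hR' j => ?_⟩
  have h1 : IsUnit (g⁻¹).det := Matrix.isUnit_nonsing_inv_det g hg
  have h2 := hB g⁻¹ (gᵀ * Q * g) h1 hz (ra5_posDef hQ hg) hR' (by rwa [ra5_back hg]) j
  rwa [ra5_back hg] at h2

private lemma ra5_small {m : ℕ} {x : ℝ} (hm : 0 < m) (hz : ∃ z : ℤ, m * x = z)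
    (hx : m * |x| < 1) : x = 0 := by
  obtain ⟨z, hz⟩ := hz
  have h1 : |(z : ℝ)| < 1 := by
    rw [← hz, abs_mul, Nat.abs_cast]
    exact hx
  have h2 : z = 0 := by
    have h3 : |z| < 1 := by exact_mod_cast h1
    rwa [Int.abs_lt_one_iff] at h3
  rw [h2, Int.cast_zero] at hz
  have h4 : (m : ℝ) ≠ 0 := by positivity
  exact (mul_eq_zero.1 hz).resolve_left h4

/-- **The gap argument.** There is `δ > 0` such that if `α_r ≤ δ α_{r'}`, `r' = r + 1`, then
`κ_ij = 0` for `i ≤ r < j`.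
Proof: for `j ≤ r < i` the entry `g_ij` is (`eq_kap`, `u⁻¹` and `u'` upper triangular) a sum over
`k ≥ i`, `l ≤ j` of `N²` terms of absolute value `≤ B² |κ_kl| α'_l / α_k`, where `|κ_kl| ≤ 1`,
`α'_l ≤ B' α_l` (`exists_al_le` for `g⁻¹` and `gᵀQg`), `α_l ≤ C^N α_r`, `α_r ≤ δ α_{r'}`,
`α_{r'} ≤ C^N α_k`. So `|g_ij| < 1/m` for small `δ`, i.e. `g_ij = 0`. Then the same entries of
`κ = A u g u'⁻¹ A'⁻¹` vanish, and `orthogonal_block` applies. -/
theorem exists_gap (N : ℕ) (C : ℝ) (hC : 1 ≤ C) (m : ℕ) (hm : 0 < m) : ∃ δ : ℝ, 0 < δ ∧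
    ∀ (g Q : Matrix (Fin N) (Fin N) ℝ), IsUnit g.det → (∀ i j, ∃ z : ℤ, m * g i j = z) →
      (∀ i j, ∃ z : ℤ, m * g⁻¹ i j = z) → Q.PosDef → Red C Q → Red C (gᵀ * Q * g) →
      ∀ r r' : Fin N, (r' : ℕ) = r + 1 → al Q r ≤ δ * al Q r' →
        ∀ i j, i ≤ r → r < j → kap g Q i j = 0 := by
  obtain ⟨B, hB1, hB⟩ := exists_up_bound N C
  obtain ⟨B', hB'1, hB'⟩ := ra5_al' N C hC m hm
  have hm0 : (0 : ℝ) < m := by exact_mod_cast hm
  have hC0 : 0 < C := by linarith
  have hB0 : 0 < B := by linarith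
  have hB'0 : 0 < B' := by linarith
  obtain ⟨K, hK⟩ : ∃ K : ℝ, K = (N : ℝ) * N * (B * (B' * C ^ N * C ^ N) * B) := ⟨_, rfl⟩
  have hK0 : 0 ≤ K := by rw [hK]; positivity
  refine ⟨1 / (2 * m * (K + 1)), by positivity, ?_⟩
  intro g Q hg hz hz' hQ hR hR' r r' hr hgap
  have hal : ∀ k, 0 < al Q k := al_pos hQ
  obtain ⟨δ, hδ⟩ : ∃ δ : ℝ, δ = 1 / (2 * m * (K + 1)) := ⟨_, rfl⟩
  rw [← hδ] at hgap
  have hδ0 : 0 < δ := by rw [hδ]; positivity
  have hg0 : ∀ i j, j ≤ r → r < i → g i j = 0 := by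
    intro i j hj hi
    refine ra5_small hm (hz i j) ?_
    have h1 : |g i j| ≤ ∑ _k : Fin N, ∑ _l : Fin N, B * (B' * C ^ N * C ^ N * δ) * B := by
      rw [eq_kap hQ hg i j]
      refine (Finset.abs_sum_le_sum_abs _ _).trans (Finset.sum_le_sum fun k _ => ?_)
      refine (Finset.abs_sum_le_sum_abs _ _).trans (Finset.sum_le_sum fun l _ => ?_)
      by_cases hk : k < i
      · rw [up_inv_lower Q i k hk, zero_mul, zero_mul, abs_zero]
        positivity
      by_cases hl : j < l
      · rw [up_lower (gᵀ * Q * g) l j hl, mul_zero, abs_zero]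
        positivity
      push Not at hk hl
      rw [abs_mul, abs_mul]
      have e1 : |kap g Q k l * al (gᵀ * Q * g) l / al Q k| ≤ B' * C ^ N * C ^ N * δ := by
        rw [abs_div, abs_mul, abs_of_pos (hal k), abs_of_pos (al_pos (ra5_posDef hQ hg) l),
          div_le_iff₀ (hal k)]
        have a1 : al (gᵀ * Q * g) l ≤ B' * al Q l := hB' g Q hg hz' hQ hR hR' l
        have a2 : al Q l ≤ C ^ N * al Q r := hR.al_le hC hQ (hl.trans hj)
        have a3 : al Q r' ≤ C ^ N * al Q k := by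
          refine hR.al_le hC hQ ?_
          rw [Fin.le_def, hr]
          have h5 : (r : ℕ) < i := hi
          have h6 : (i : ℕ) ≤ k := hk
          omega
        calc |kap g Q k l| * al (gᵀ * Q * g) l ≤ 1 * al (gᵀ * Q * g) l :=
              mul_le_mul_of_nonneg_right (ra5_kap_le hQ hg k l)
                (al_pos (ra5_posDef hQ hg) l).le
          _ = al (gᵀ * Q * g) l := one_mul _
          _ ≤ B' * al Q l := a1
          _ ≤ B' * (C ^ N * al Q r) := mul_le_mul_of_nonneg_left a2 hB'0.le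
          _ ≤ B' * (C ^ N * (δ * al Q r')) := by gcongr
          _ ≤ B' * (C ^ N * (δ * (C ^ N * al Q k))) := by gcongr
          _ = B' * C ^ N * C ^ N * δ * al Q k := by ring
      have e2 := (hB Q hR).2 i k
      have e3 := (hB _ hR').1 l j
      exact mul_le_mul (mul_le_mul e2 e1 (abs_nonneg _) hB0.le) e3 (abs_nonneg _) (by positivity)
    rw [Finset.sum_const, Finset.sum_const, Finset.card_univ, Fintype.card_fin, nsmul_eq_mul,
      nsmul_eq_mul] at h1
    have h2 : (N : ℝ) * (N * (B * (B' * C ^ N * C ^ N * δ) * B)) = K * δ := by rw [hK]; ring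
    rw [h2] at h1
    calc (m : ℝ) * |g i j| ≤ m * (K * δ) := mul_le_mul_of_nonneg_left h1 hm0.le
      _ = K / (2 * (K + 1)) := by rw [hδ]; field_simp
      _ < 1 := by
          rw [div_lt_one (by positivity)]
          linarith
  intro i j hi hj
  refine orthogonal_block (kap_orthogonal hQ hg).1 (kap_orthogonal hQ hg).2 r ?_ i j hi hj
  intro i j hj hi
  unfold kap
  rw [Matrix.mul_diagonal, Matrix.mul_apply]
  have h1 : ∀ l, (Matrix.diagonal (al Q) * up Q * g) i l * (up (gᵀ * Q * g))⁻¹ l j = 0 := by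
    intro l
    by_cases hl : j < l
    · rw [up_inv_lower (gᵀ * Q * g) l j hl, mul_zero]
    push Not at hl
    rw [Matrix.mul_apply]
    have h2 : ∀ k, (Matrix.diagonal (al Q) * up Q) i k * g k l = 0 := by
      intro k
      by_cases hk : k < i
      · rw [Matrix.diagonal_mul, up_lower Q i k hk, mul_zero, zero_mul]
      push Not at hk
      rw [hg0 k l (hl.trans hj) (hi.trans_le hk), mul_zero]
    rw [Finset.sum_congr rfl fun k _ => h2 k, Finset.sum_const_zero, zero_mul]
  rw [Finset.sum_congr rfl fun l _ => h1 l, Finset.sum_const_zero, zero_mul]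

/-- **The Siegel property.** The transition matrices between reduced bases of commensurable lattices
are bounded.
Proof: `g = u⁻¹ y u'` with `y_kl = κ_kl α'_l/α_k` (`eq_kap`). For `l ≤ k`: `|y_kl| ≤ B' C^N`. For
`k < l`: if there is `r` with `k ≤ r < l` and `α_r ≤ δ α_{r+1}` then `κ_kl = 0` (`exists_gap`);
otherwise `α_l ≤ δ^{-N} α_k` (`δ ≤ 1` may be assumed) and `|y_kl| ≤ B' δ^{-N}`. -/
theorem siegel_bound (N : ℕ) (C : ℝ) (hC : 1 ≤ C) (m : ℕ) (hm : 0 < m) : ∃ B : ℝ,
    ∀ (g Q : Matrix (Fin N) (Fin N) ℝ), IsUnit g.det → (∀ i j, ∃ z : ℤ, m * g i j = z) →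
      (∀ i j, ∃ z : ℤ, m * g⁻¹ i j = z) → Q.PosDef → Red C Q → Red C (gᵀ * Q * g) →
      ∀ i j, |g i j| ≤ B := by
  obtain ⟨B, hB1, hB⟩ := exists_up_bound N C
  obtain ⟨B', hB'1, hB'⟩ := ra5_al' N C hC m hm
  obtain ⟨δ₀, hδ₀, hgap⟩ := exists_gap N C hC m hm
  have hC0 : 0 < C := by linarith
  have hB0 : 0 < B := by linarith
  have hB'0 : 0 < B' := by linarith
  obtain ⟨δ, hδ⟩ : ∃ δ : ℝ, δ = min δ₀ 1 := ⟨_, rfl⟩
  have hδ0 : 0 < δ := by rw [hδ]; exact lt_min hδ₀ one_pos
  have hδ1 : δ ≤ 1 := by rw [hδ]; exact min_le_right _ _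
  have hδδ : δ ≤ δ₀ := by rw [hδ]; exact min_le_left _ _
  obtain ⟨D, hD⟩ : ∃ D : ℝ, D = max (C ^ N) (δ⁻¹ ^ N) := ⟨_, rfl⟩
  have hD0 : 0 < D := by
    rw [hD]
    exact lt_of_lt_of_le (by positivity) (le_max_left _ _)
  refine ⟨∑ _k : Fin N, ∑ _l : Fin N, B * (B' * D) * B, ?_⟩
  intro g Q hg hz hz' hQ hR hR' i j
  have hal : ∀ k, 0 < al Q k := al_pos hQ
  rw [eq_kap hQ hg i j]
  refine (Finset.abs_sum_le_sum_abs _ _).trans (Finset.sum_le_sum fun k _ => ?_)
  refine (Finset.abs_sum_le_sum_abs _ _).trans (Finset.sum_le_sum fun l _ => ?_)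
  rw [abs_mul, abs_mul]
  have key : kap g Q k l = 0 ∨ al Q l ≤ D * al Q k := by
    rcases le_or_gt l k with h | h
    · right
      calc al Q l ≤ C ^ N * al Q k := hR.al_le hC hQ h
        _ ≤ D * al Q k := by
            rw [hD]
            exact mul_le_mul_of_nonneg_right (le_max_left _ _) (hal k).le
    · by_cases hex : ∃ r r' : Fin N, (r' : ℕ) = r + 1 ∧ k ≤ r ∧ r < l ∧ al Q r ≤ δ * al Q r'
      · left
        obtain ⟨r, r', hr, hkr, hrl, hle⟩ := hex
        refine hgap g Q hg hz hz' hQ hR hR' r r' hr (hle.trans ?_) k l hkr hrl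
        exact mul_le_mul_of_nonneg_right hδδ (hal r').le
      · right
        push Not at hex
        have hind : ∀ t : ℕ, ∀ ht : (k : ℕ) + t < N, (k : ℕ) + t ≤ l →
            al Q ⟨(k : ℕ) + t, ht⟩ ≤ δ⁻¹ ^ t * al Q k := by
          intro t
          induction t with
          | zero =>
            intro ht _
            rw [pow_zero, one_mul]
            exact le_refl _
          | succ t ih =>
            intro ht hle
            have h1 := ih (by omega) (by omega)
            have h2 := hex ⟨(k : ℕ) + t, by omega⟩ ⟨(k : ℕ) + (t + 1), ht⟩ rfl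
              (by rw [Fin.le_def]; exact Nat.le_add_right _ _)
              (by rw [Fin.lt_def]; change (k : ℕ) + t < l; omega)
            calc al Q ⟨(k : ℕ) + (t + 1), ht⟩
                = δ⁻¹ * (δ * al Q ⟨(k : ℕ) + (t + 1), ht⟩) := by
                  rw [← mul_assoc, inv_mul_cancel₀ hδ0.ne', one_mul]
              _ ≤ δ⁻¹ * al Q ⟨(k : ℕ) + t, by omega⟩ :=
                  mul_le_mul_of_nonneg_left h2.le (inv_pos.2 hδ0).le
              _ ≤ δ⁻¹ * (δ⁻¹ ^ t * al Q k) :=
                  mul_le_mul_of_nonneg_left h1 (inv_pos.2 hδ0).le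
              _ = δ⁻¹ ^ (t + 1) * al Q k := by rw [pow_succ]; ring
        have hkl : (k : ℕ) + (l - k) = l := by
          have : (k : ℕ) < l := h
          omega
        have h3 := hind (l - k) (by rw [hkl]; exact l.2) hkl.le
        have h4 : (⟨(k : ℕ) + (l - k), by rw [hkl]; exact l.2⟩ : Fin N) = l := Fin.ext hkl
        rw [h4] at h3
        have h5 : δ⁻¹ ^ ((l : ℕ) - k) ≤ δ⁻¹ ^ N :=
          pow_le_pow_right₀ ((one_le_inv₀ hδ0).2 hδ1) (by have := l.2; omega)
        calc al Q l ≤ δ⁻¹ ^ ((l : ℕ) - k) * al Q k := h3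
          _ ≤ δ⁻¹ ^ N * al Q k := mul_le_mul_of_nonneg_right h5 (hal k).le
          _ ≤ D * al Q k := by
              rw [hD]
              exact mul_le_mul_of_nonneg_right (le_max_right _ _) (hal k).le
  have e1 : |kap g Q k l * al (gᵀ * Q * g) l / al Q k| ≤ B' * D := by
    rcases key with h | h
    · rw [h, zero_mul, zero_div, abs_zero]
      positivity
    · rw [abs_div, abs_mul, abs_of_pos (hal k), abs_of_pos (al_pos (ra5_posDef hQ hg) l),
        div_le_iff₀ (hal k)]
      have a1 : al (gᵀ * Q * g) l ≤ B' * al Q l := hB' g Q hg hz' hQ hR hR' l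
      calc |kap g Q k l| * al (gᵀ * Q * g) l ≤ 1 * al (gᵀ * Q * g) l :=
            mul_le_mul_of_nonneg_right (ra5_kap_le hQ hg k l)
              (al_pos (ra5_posDef hQ hg) l).le
        _ = al (gᵀ * Q * g) l := one_mul _
        _ ≤ B' * al Q l := a1
        _ ≤ B' * (D * al Q k) := mul_le_mul_of_nonneg_left h hB'0.le
        _ = B' * D * al Q k := by ring
  have e2 := (hB Q hR).2 i k
  have e3 := (hB _ hR').1 l j
  exact mul_le_mul (mul_le_mul e2 e1 (abs_nonneg _) hB0.le) e3 (abs_nonneg _) (by positivity)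

/-- Finiteness: only finitely many transition matrices. -/
theorem siegel_finite (N : ℕ) (C : ℝ) (hC : 1 ≤ C) (m : ℕ) (hm : 0 < m) :
    {g : Matrix (Fin N) (Fin N) ℝ | IsUnit g.det ∧ (∀ i j, ∃ z : ℤ, m * g i j = z) ∧
      (∀ i j, ∃ z : ℤ, m * g⁻¹ i j = z) ∧
      ∃ Q : Matrix (Fin N) (Fin N) ℝ, Q.PosDef ∧ Red C Q ∧ Red C (gᵀ * Q * g)}.Finite := by
  obtain ⟨B, hB⟩ := siegel_bound N C hC m hm
  have hm0 : (0 : ℝ) < m := by exact_mod_cast hm
  obtain ⟨K, hK⟩ : ∃ K : ℤ, (m : ℝ) * B ≤ K := ⟨⌈(m : ℝ) * B⌉, Int.le_ceil _⟩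
  have hfin : ((fun z : Fin N → Fin N → ℤ => (fun i j => (z i j : ℝ) / m :
      Matrix (Fin N) (Fin N) ℝ)) '' ((Fintype.piFinset fun _ : Fin N =>
        Fintype.piFinset fun _ : Fin N => Finset.Icc (-K) K :
          Finset (Fin N → Fin N → ℤ)) : Set (Fin N → Fin N → ℤ))).Finite :=
    (Finset.finite_toSet _).image _
  refine hfin.subset ?_
  rintro g ⟨hg, hz, hz', Q, hQ, hR, hR'⟩
  have hb := hB g Q hg hz hz' hQ hR hR'
  choose z hz using hz
  refine ⟨z, ?_, ?_⟩
  · rw [Finset.mem_coe, Fintype.mem_piFinset]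
    intro i
    rw [Fintype.mem_piFinset]
    intro j
    rw [Finset.mem_Icc]
    have h1 : |(z i j : ℝ)| ≤ K := by
      rw [← hz i j, abs_mul, Nat.abs_cast]
      exact (mul_le_mul_of_nonneg_left (hb i j) hm0.le).trans hK
    rw [abs_le] at h1
    constructor
    · have := h1.1
      exact_mod_cast this
    · have := h1.2
      exact_mod_cast this
  · funext i j
    change (z i j : ℝ) / m = g i j
    rw [← hz i j]
    field_simp

end Pool.Agent.Lib.MP_666dc0_nt.EP
end

section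

/-!
# EP, BV5: the values of the rational forms on the lattices have bounded denominators
-/

open NumberField IsDedekindDomain
open scoped NumberField

namespace Pool.Agent.Lib.MP_666dc0_nt.EP

open WL

variable {F : Type} [Field F] [NumberField F] {n : ℕ} {D : Datum F n}

private theorem BV5_tr (x : F) (hx : IsIntegral ℤ x) : ∃ z : ℤ, Algebra.trace ℚ F x = z := by
  have h : IsIntegral ℤ (Algebra.trace ℚ F x) := Algebra.isIntegral_trace hx
  obtain ⟨z, hz⟩ := IsIntegrallyClosed.isIntegral_iff.1 h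
  refine ⟨z, ?_⟩
  rw [← hz]
  simp

private theorem BV5_mul (d : ℕ) (x : F) :
    (d : ℚ) * Algebra.trace ℚ F x = Algebra.trace ℚ F ((d : F) * x) := by
  have h : ((d : F) * x) = (d : ℚ) • x := by
    rw [Algebra.smul_def]
    simp
  rw [h, map_smul, smul_eq_mul]

omit [NumberField F] in
private theorem BV5_nat (d : ℕ) : IsIntegral ℤ ((d : ℕ) : F) := by
  have h3 := isIntegral_algebraMap (R := ℤ) (A := F) (x := (d : ℤ))
  rwa [eq_intCast, Int.cast_natCast] at h3

private theorem BV5_bas (i : Module.Free.ChooseBasisIndex ℤ (𝓞 F)) :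
    IsIntegral ℤ (integralBasis F i) := by
  rw [integralBasis_apply]
  exact RingOfIntegers.isIntegral_coe _

private theorem BV5_fin (d : ℕ) (i : Module.Free.ChooseBasisIndex ℤ (𝓞 F)) (x : F)
    (hx : IsIntegral ℤ ((d : F) * x)) :
    ∃ z : ℤ, (d : ℚ) * Algebra.trace ℚ F (integralBasis F i * x) = z := by
  rw [BV5_mul, mul_left_comm]
  exact BV5_tr _ (IsIntegral.mul (BV5_bas i) hx)

/-- Proof: `exists_den_qf`, `exists_den_pairT` (WL/A2i.lean), the product `d` of the two
denominators, `integralBasis F i` is integral (`integralBasis_apply`), the trace of an integral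
element is an integer (`Algebra.isIntegral_trace`, `IsIntegrallyClosed.isIntegral_iff`), and
`d Tr x = Tr (d x)`. -/
theorem exists_den_fam (D : Datum F n) : ∃ d : ℕ, 0 < d ∧ ∀ (g : D.Ad) (N : ℕ)
    (b : Fin N → Fin n → F), (∀ i, b i ∈ lat g) → ∀ i J, ∃ z : ℤ, (d : ℚ) * fam D b i J = z := by
  obtain ⟨d₁, hd₁, h₁⟩ := exists_den_qf D
  obtain ⟨d₂, hd₂, h₂⟩ := exists_den_pairT D
  refine ⟨d₁ * d₂, Nat.mul_pos hd₁ hd₂, fun g N b hb i J => ?_⟩
  obtain ⟨i1, i2⟩ := i
  cases i2 with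
  | none =>
    refine BV5_fin _ i1 _ ?_
    have h := h₁ g _ (hb (J (0 : Fin 2))) _ (hb (J (1 : Fin 2)))
    have h' := IsIntegral.mul (BV5_nat (F := F) d₂) h
    rw [← mul_assoc] at h'
    rw [Nat.cast_mul, mul_comm (d₁ : F) (d₂ : F)]
    exact h'
  | some s =>
    refine BV5_fin _ i1 _ ?_
    have h := h₂ g s (fun t => b (J t)) fun t => hb (J t)
    have h' := IsIntegral.mul (BV5_nat (F := F) d₁) h
    rw [← mul_assoc] at h'
    rw [Nat.cast_mul]
    exact h'

end Pool.Agent.Lib.MP_666dc0_nt.EP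
end

section

/-!
# EP, N1e: approximation by characters of finite quotients
-/

namespace Pool.Agent.Lib.MP_666dc0_nt.EP

variable {ℓ : ℕ} [Fact ℓ.Prime] {K : Type} [Group K] [TopologicalSpace K] [IsTopologicalGroup K]
  [CompactSpace K]

/-- The character of a continuous representation is approximated by linear combinations of
characters of representations with open kernel.
Proof: `exists_approx`, `class_fun_span` for the finite group `K ⧸ N`. -/
theorem exists_approx_characters {d : ℕ} (ρ : K →* GL (Fin d) (PadicAlgCl ℓ)) (hρ : Continuous ρ)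
    {ε : ℝ} (hε : 0 < ε) : ∃ (m : ℕ) (e : Fin m → ℕ) (σ : ∀ j, K →* GL (Fin (e j)) (PadicAlgCl ℓ))
      (b : Fin m → PadicAlgCl ℓ), (∀ j, IsOpen ((σ j).ker : Set K)) ∧
      ∀ k : K, ‖(ρ k : Matrix (Fin d) (Fin d) (PadicAlgCl ℓ)).trace -
        ∑ j, b j * (σ j k : Matrix (Fin (e j)) (Fin (e j)) (PadicAlgCl ℓ)).trace‖ ≤ ε := by
  obtain ⟨N, hN, f, hopen, hclass, happ⟩ := exists_approx ρ hρ hε
  have hfin : Finite (K ⧸ N) := N.quotient_finite_of_isOpen hopen
  obtain ⟨m, e, σ, b, hσ⟩ := class_fun_span (K ⧸ N) (PadicAlgCl ℓ) f hclass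
  refine ⟨m, e, fun j => (σ j).comp (QuotientGroup.mk' N), b, ?_, ?_⟩
  · intro j
    refine Subgroup.isOpen_mono (H₁ := N) ?_ hopen
    intro k hk
    have h1 : QuotientGroup.mk' N k = 1 := (QuotientGroup.eq_one_iff k).2 hk
    rw [MonoidHom.mem_ker, MonoidHom.comp_apply, h1, map_one]
  · intro k
    have h := happ k
    rw [hσ (k : K ⧸ N)] at h
    exact h

end Pool.Agent.Lib.MP_666dc0_nt.EP
end
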