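import Pool.Agent.Lib.MP_666dc0_nt.EP.PA1
import Pool.Agent.Lib.MP_666dc0_nt.Mg.G062

section

/-!
# EP, PA2: the complex of the nerve is bounded and finitely generated projective
-/

namespace Pool.Agent.Lib.MP_666dc0_nt.EP

/-- A surjective map of `A`-sets with finite fibres whose sizes divide `m` has an equivariant section
up to `m`: `m` times the average over the fibre. -/
theorem exists_section {R A Z Z' : Type} [CommRing R] [Group A] [MulAction A Z] [MulAction A Z']
    (f : Z' → Z) (hf : ∀ (a : A) (x : Z'), f (a • x) = a • f x)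
    (hfin : ∀ z, {x | f x = z}.Finite) (m : ℕ) (hm : ∀ z, (hfin z).toFinset.card ∣ m) :
    ∃ j : (Z →₀ R) →ₗ[R] (Z' →₀ R), Equi A j ∧
      Finsupp.lmapDomain R R f ∘ₗ j = (m : R) • LinearMap.id := by
  classical
  have hcard : ∀ (a : A) (z : Z), (hfin (a • z)).toFinset =
      (hfin z).toFinset.map ⟨fun x => a • x, MulAction.injective a⟩ := by
    intro a z
    ext x
    rw [Set.Finite.mem_toFinset, Finset.mem_map]
    constructor
    · intro h
      refine ⟨a⁻¹ • x, ?_, smul_inv_smul a x⟩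
      rw [Set.Finite.mem_toFinset]
      change f x = a • z at h
      change f (a⁻¹ • x) = z
      rw [hf, h, inv_smul_smul]
    · rintro ⟨x', hx', rfl⟩
      rw [Set.Finite.mem_toFinset] at hx'
      change f x' = z at hx'
      change f (a • x') = a • z
      rw [hf, hx']
  let g : Z → (Z' →₀ R) := fun z => ((m / (hfin z).toFinset.card : ℕ) : R) •
    ∑ x ∈ (hfin z).toFinset, Finsupp.single x (1 : R)
  refine ⟨Finsupp.linearCombination R g, Equi.of_single ?_, ?_⟩
  · intro a z
    rw [Finsupp.linearCombination_single, Finsupp.linearCombination_single, one_smul, one_smul]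
    change ((m / (hfin (a • z)).toFinset.card : ℕ) : R) •
      ∑ x ∈ (hfin (a • z)).toFinset, Finsupp.single x (1 : R) =
      Finsupp.lmapDomain R R (fun x => a • x)
        (((m / (hfin z).toFinset.card : ℕ) : R) •
          ∑ x ∈ (hfin z).toFinset, Finsupp.single x (1 : R))
    rw [hcard a z, Finset.card_map, map_smul, map_sum, Finset.sum_map]
    congr 1
    refine Finset.sum_congr rfl fun x _ => ?_
    rw [Finsupp.lmapDomain_apply, Finsupp.mapDomain_single]
    rfl
  · apply Finsupp.lhom_ext'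
    intro z
    apply LinearMap.ext_ring
    change Finsupp.lmapDomain R R f (Finsupp.linearCombination R g (Finsupp.single z 1)) =
      (m : R) • Finsupp.single z 1
    rw [Finsupp.linearCombination_single, one_smul]
    change Finsupp.lmapDomain R R f (((m / (hfin z).toFinset.card : ℕ) : R) •
      ∑ x ∈ (hfin z).toFinset, Finsupp.single x (1 : R)) = (m : R) • Finsupp.single z 1
    rw [map_smul, map_sum]
    have h1 : ∀ x ∈ (hfin z).toFinset, Finsupp.lmapDomain R R f (Finsupp.single x (1 : R)) =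
        Finsupp.single z 1 := by
      intro x hx
      rw [Set.Finite.mem_toFinset] at hx
      change f x = z at hx
      rw [Finsupp.lmapDomain_apply, Finsupp.mapDomain_single, hx]
    rw [Finset.sum_congr rfl h1, Finset.sum_const, ← Nat.cast_smul_eq_nsmul R, smul_smul,
      ← Nat.cast_mul, Nat.div_mul_cancel (hm z)]

/-- Let `Z` be an `A`-set with finitely many orbits and finite stabilisers whose orders divide `m`.
Then `R[Z]` is, up to `m`, a direct summand of a finitely generated free `R[A]`-module. -/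
theorem exists_retract {R A Z : Type} [CommRing R] [Group A] [MulAction A Z]
    (hfin : ∀ z : Z, {a : A | a • z = z}.Finite) (m : ℕ)
    (hm : ∀ z : Z, (hfin z).toFinset.card ∣ m)
    (horb : ∃ s : Finset Z, ∀ z, ∃ a : A, ∃ w ∈ s, z = a • w) :
    ∃ (r : ℕ) (j : (Z →₀ R) →ₗ[R] (FreeSet A r →₀ R)) (π : (FreeSet A r →₀ R) →ₗ[R] (Z →₀ R)),
      Equi A j ∧ Equi A π ∧ π ∘ₗ j = (m : R) • LinearMap.id := by
  classical
  let Q := MulAction.orbitRel.Quotient A Z
  obtain ⟨s, hs⟩ := horb
  have hQ : Finite Q := by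
    refine Finite.of_surjective (fun w : s => (Quotient.mk (MulAction.orbitRel A Z) (w : Z) : Q)) ?_
    intro q
    induction q using Quotient.inductionOn with
    | h z =>
      obtain ⟨a, w, hw, hz⟩ := hs z
      refine ⟨⟨w, hw⟩, ?_⟩
      apply Quotient.sound
      change w ∈ MulAction.orbit A z
      refine ⟨a⁻¹, ?_⟩
      change a⁻¹ • z = w
      rw [hz, inv_smul_smul]
  obtain ⟨r, ⟨q⟩⟩ := Finite.exists_equiv_fin Q
  let mk : Z → Q := Quotient.mk (MulAction.orbitRel A Z)
  have hout : ∀ z, ∃ a : A, a • (Quotient.out (mk z)) = z := by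
    intro z
    have h1 : Quotient.out (mk z) ∈ MulAction.orbit A z :=
      Quotient.mk_out (s := MulAction.orbitRel A Z) z
    obtain ⟨a, ha⟩ := h1
    refine ⟨a⁻¹, ?_⟩
    rw [← ha]
    exact inv_smul_smul a z
  choose g hg using hout
  have hmk : ∀ (a : A) (z : Z), mk (a • z) = mk z := by
    intro a z
    apply Quotient.sound
    change a • z ∈ MulAction.orbit A z
    exact ⟨a, rfl⟩
  let f : FreeSet A r → Z := fun p => p.g • Quotient.out (q.symm p.i)
  have hf : ∀ (a : A) (p : FreeSet A r), f (a • p) = a • f p := fun a p =>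
    mul_smul a p.g (Quotient.out (q.symm p.i))
  have hfi : ∀ (p : FreeSet A r), p.i = q (mk (f p)) := by
    intro p
    change p.i = q (mk (p.g • Quotient.out (q.symm p.i)))
    rw [hmk]
    have h1 : mk (Quotient.out (q.symm p.i)) = q.symm p.i := Quotient.out_eq _
    rw [h1, Equiv.apply_symm_apply]
  have hfib : ∀ z : Z, {x | f x = z} =
      (fun a : A => (⟨q (mk z), a * g z⟩ : FreeSet A r)) '' {a : A | a • z = z} := by
    intro z
    ext p
    constructor
    · intro hp
      change f p = z at hp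
      have h1 : p.i = q (mk z) := by rw [hfi p, hp]
      refine ⟨p.g * (g z)⁻¹, ?_, ?_⟩
      · change (p.g * (g z)⁻¹) • z = z
        have h2 : (g z)⁻¹ • z = Quotient.out (mk z) := by
          rw [inv_smul_eq_iff]
          exact (hg z).symm
        rw [mul_smul, h2]
        have h3 : p.g • Quotient.out (q.symm p.i) = z := hp
        rw [h1, Equiv.symm_apply_apply] at h3
        exact h3
      · apply FreeSet.ext
        · exact h1.symm
        · exact inv_mul_cancel_right _ _
    · rintro ⟨a, ha, rfl⟩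
      change (a * g z) • Quotient.out (q.symm (q (mk z))) = z
      rw [Equiv.symm_apply_apply, mul_smul, hg z]
      exact ha
  have hinj : ∀ z : Z, Function.Injective fun a : A => (⟨q (mk z), a * g z⟩ : FreeSet A r) := by
    intro z a b hab
    exact mul_right_cancel (congrArg FreeSet.g hab)
  have hffin : ∀ z : Z, {x | f x = z}.Finite := by
    intro z
    rw [hfib z]
    exact (hfin z).image _
  have hcard : ∀ z : Z, (hffin z).toFinset.card = (hfin z).toFinset.card := by
    intro z
    rw [← Set.ncard_eq_toFinset_card _ (hffin z), ← Set.ncard_eq_toFinset_card _ (hfin z), hfib z]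
    exact Set.ncard_image_of_injective _ (hinj z)
  obtain ⟨j, hj, hj'⟩ := exists_section (R := R) f hf hffin m fun z => by
    rw [hcard z]
    exact hm z
  refine ⟨r, j, Finsupp.lmapDomain R R f, hj, Equi.of_single fun a p => ?_, hj'⟩
  rw [Finsupp.lmapDomain_apply, Finsupp.lmapDomain_apply, Finsupp.mapDomain_single,
    Finsupp.mapDomain_single, Finsupp.mapDomain_single, hf]

/-- A common multiple of the orders of the stabilisers. -/
theorem exists_multiple {A Z : Type} [Group A] [MulAction A Z]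
    (hfin : ∀ z : Z, {a : A | a • z = z}.Finite)
    (horb : ∃ s : Finset Z, ∀ z, ∃ a : A, ∃ w ∈ s, z = a • w) :
    ∃ m : ℕ, 0 < m ∧ ∀ z : Z, (hfin z).toFinset.card ∣ m := by
  classical
  obtain ⟨s, hs⟩ := horb
  have hpos : ∀ z, 0 < (hfin z).toFinset.card := by
    intro z
    refine Finset.card_pos.2 ⟨1, ?_⟩
    rw [Set.Finite.mem_toFinset]
    exact one_smul A z
  refine ⟨∏ w ∈ s, (hfin w).toFinset.card, Finset.prod_pos fun w _ => hpos w, fun z => ?_⟩
  obtain ⟨a, w, hw, rfl⟩ := hs z
  have h1 : (hfin (a • w)).toFinset.card = (hfin w).toFinset.card := by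
    refine Finset.card_bij (fun b _ => a⁻¹ * b * a) ?_ ?_ ?_
    · intro b hb
      rw [Set.Finite.mem_toFinset] at hb ⊢
      change b • a • w = a • w at hb
      change (a⁻¹ * b * a) • w = w
      rw [mul_smul, mul_smul, hb, inv_smul_smul]
    · intro b _ b' _ hbb
      have h2 := congrArg (fun x => a * x * a⁻¹) hbb
      simpa [mul_assoc] using h2
    · intro b hb
      rw [Set.Finite.mem_toFinset] at hb
      change b • w = w at hb
      refine ⟨a * b * a⁻¹, ?_, ?_⟩
      · rw [Set.Finite.mem_toFinset]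
        change (a * b * a⁻¹) • a • w = a • w
        rw [mul_smul, mul_smul, inv_smul_smul, hb]
      · simp [mul_assoc]
  rw [h1]
  exact Finset.dvd_prod_of_mem (fun w => (hfin w).toFinset.card) hw

/-- A bounded complex of modules that are, up to `m`, direct summands of finitely generated free
modules maps to a bounded complex of finitely generated free modules over `m ^ (N + 1)`. -/
theorem Cx.exists_free {R A X : Type} [CommRing R] [Group A] [MulAction A X] (C : Cx R A X)
    (N m : ℕ)
    (hC : ∀ n, ∃ (r : ℕ) (j : (C.Y n →₀ R) →ₗ[R] (FreeSet A r →₀ R))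
      (π : (FreeSet A r →₀ R) →ₗ[R] (C.Y n →₀ R)), Equi A j ∧ Equi A π ∧
        π ∘ₗ j = (m : R) • LinearMap.id)
    (hN : ∀ n, N ≤ n → IsEmpty (C.Y n)) :
    ∃ (C' : Cx R A X) (j : ∀ n, (C.Y n →₀ R) →ₗ[R] (C'.Y n →₀ R)), C'.IsFin N ∧
      IsMap C C' (((m ^ (N + 1) : ℕ) : R) • LinearMap.id) j := by
  have h0 : ∀ n, ∃ (r : ℕ) (j : (C.Y n →₀ R) →ₗ[R] (FreeSet A r →₀ R))
      (π : (FreeSet A r →₀ R) →ₗ[R] (C.Y n →₀ R)), Equi A j ∧ Equi A π ∧
        π ∘ₗ j = (m : R) • LinearMap.id ∧ (N ≤ n → r = 0) := by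
    intro n
    by_cases hn : N ≤ n
    · have := hN n hn
      refine ⟨0, 0, 0, fun a m => ?_, fun a m => ?_, ?_, fun _ => rfl⟩
      · rw [LinearMap.zero_apply, LinearMap.zero_apply, Finsupp.mapDomain_zero]
      · rw [LinearMap.zero_apply, LinearMap.zero_apply, Finsupp.mapDomain_zero]
      · exact LinearMap.ext fun m => Subsingleton.elim _ _
    · obtain ⟨r, j, π, h1, h2, h3⟩ := hC n
      exact ⟨r, j, π, h1, h2, h3, fun h => (hn h).elim⟩
  choose r j π hj hπ hπj hr using h0
  have hπj' : ∀ n (u : C.Y n →₀ R), π n (j n u) = (m : R) • u :=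
    fun n u => LinearMap.congr_fun (hπj n) u
  let C' : Cx R A X :=
    { Y := fun n => FreeSet A (r n)
      act := fun n => inferInstance
      ε := C.ε ∘ₗ π 0
      d := fun n => j n ∘ₗ C.d n ∘ₗ π (n + 1)
      equi_ε := C.equi_ε.comp (hπ 0)
      equi_d := fun n => (hj n).comp ((C.equi_d n).comp (hπ (n + 1)))
      ε_comp_d := by
        apply LinearMap.ext
        intro u
        change C.ε (π 0 (j 0 (C.d 0 (π 1 u)))) = 0
        rw [hπj', map_smul]
        have h1 := LinearMap.congr_fun C.ε_comp_d (π 1 u)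
        change C.ε (C.d 0 (π 1 u)) = 0 at h1
        rw [h1, smul_zero]
      d_comp_d := by
        intro n
        apply LinearMap.ext
        intro u
        change j n (C.d n (π (n + 1) (j (n + 1) (C.d (n + 1) (π (n + 2) u))))) = 0
        rw [hπj', map_smul]
        have h1 := LinearMap.congr_fun (C.d_comp_d n) (π (n + 2) u)
        change C.d n (C.d (n + 1) (π (n + 2) u)) = 0 at h1
        rw [h1, smul_zero, map_zero] }
  refine ⟨C', fun n => ((m ^ (N - n) : ℕ) : R) • j n, ⟨fun n => ?_, fun n hn => ⟨fun p => ?_⟩⟩,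
    ⟨fun n a u => ?_, ?_, fun n => ?_⟩⟩
  · exact ⟨r n, Equiv.refl _, fun _ _ => rfl⟩
  · change FreeSet A (r n) at p
    have h1 := p.i.2
    have h2 := hr n hn
    omega
  · rw [LinearMap.smul_apply, LinearMap.smul_apply, hj n a u, Finsupp.mapDomain_smul]
  · apply LinearMap.ext
    intro u
    change C.ε (π 0 (((m ^ (N - 0) : ℕ) : R) • j 0 u)) = ((m ^ (N + 1) : ℕ) : R) • C.ε u
    rw [map_smul, map_smul, hπj', map_smul, smul_smul, Nat.sub_zero, ← Nat.cast_mul, pow_succ]
  · apply LinearMap.ext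
    intro u
    change j n (C.d n (π (n + 1) (((m ^ (N - (n + 1)) : ℕ) : R) • j (n + 1) u))) =
      ((m ^ (N - n) : ℕ) : R) • j n (C.d n u)
    by_cases hn : N ≤ n
    · have := hN (n + 1) (by omega)
      rw [Subsingleton.elim u 0]
      simp only [map_zero, smul_zero]
    · rw [map_smul, hπj', map_smul, map_smul, map_smul, map_smul, smul_smul, ← Nat.cast_mul,
        ← pow_succ]
      congr 4
      omega

namespace Cover

variable {A Y E : Type} [Group A] [MulAction A Y] [NormedAddCommGroup E] [NormedSpace ℝ E]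
  [DistribMulAction A E] {PP : Set E} (c : Cover A Y E PP) {R : Type} [CommRing R]

/-- The stabiliser of a chain is finite: `a ↦ a • i`, `i ∈ t 0`, is injective with values in `t 0`. -/
theorem finite_stab {n : ℕ} (t : c.Ch n) : {a : A | a • t = t}.Finite := by
  obtain ⟨i, hi⟩ := t.nonempty 0
  refine Set.Finite.of_finite_image (f := fun a : A => a • i)
    ((t.1 0).finite_toSet.subset ?_) ?_
  · rintro _ ⟨a, ha, rfl⟩
    have h1 : c.sm a (t.1 0) = t.1 0 := congrFun (congrArg Subtype.val ha) 0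
    change a • i ∈ t.1 0
    rw [← h1, c.mem_sm, inv_smul_smul]
    exact hi
  · intro a _ b _ hab
    change a • i = b • i at hab
    have h1 : (b⁻¹ * a) • i = i := by rw [mul_smul, hab, inv_smul_smul]
    have h2 := c.free _ _ h1
    rw [inv_mul_eq_one] at h2
    exact h2.symm

/-- Every index is contained in only finitely many simplices of the nerve (all of them are subsets
of the finite set `{j | y j = y i, V i ∩ V j ≠ ∅}`). -/
theorem finite_ns (i : c.I) : {s : Finset c.I | c.NS s ∧ i ∈ s}.Finite := by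
  have hT := c.locFin i
  refine Set.Finite.subset (hT.toFinset.powerset : Finset (Finset c.I)).finite_toSet ?_
  rintro s ⟨hs, his⟩
  rw [Finset.mem_coe, Finset.mem_powerset]
  intro j hj
  rw [Set.Finite.mem_toFinset]
  obtain ⟨p, hp⟩ := hs.2.2
  exact ⟨hs.2.1 j hj i his, p, hp i his, hp j hj⟩

/-- The sizes of the simplices are bounded: by the orbit representatives (`Cover.orbits`, the
number of neighbours is invariant under `A`). -/
theorem exists_card_bound : ∃ B : ℕ, ∀ s : Finset c.I, c.NS s → s.card ≤ B := by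
  classical
  obtain ⟨s₀, hs₀⟩ := c.orbits
  refine ⟨s₀.sup fun i => (c.locFin i).toFinset.card, ?_⟩
  intro s hs
  obtain ⟨i, hi⟩ := hs.1
  obtain ⟨a, j, hj, rfl⟩ := hs₀ i
  have h1 : c.NS (c.sm a⁻¹ s) := c.NS_sm a⁻¹ hs
  have h2 : j ∈ c.sm a⁻¹ s := by
    rw [c.mem_sm, inv_inv]
    exact hi
  have h3 : (c.sm a⁻¹ s).card = s.card := Finset.card_map _
  have h4 : c.sm a⁻¹ s ⊆ (c.locFin j).toFinset := by
    intro l hl
    rw [Set.Finite.mem_toFinset]
    obtain ⟨p, hp⟩ := h1.2.2
    exact ⟨h1.2.1 l hl j h2, p, hp j h2, hp l hl⟩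
  rw [← h3]
  exact (Finset.card_le_card h4).trans
    (Finset.le_sup (f := fun i => (c.locFin i).toFinset.card) hj)

/-- There are finitely many orbits of chains: after a translation `t 0` contains one of the finitely
many representatives `i`, and then `t` is a chain of subsets of the finitely many
simplices that contain `i`. -/
theorem orbits_ch (n : ℕ) : ∃ s : Finset (c.Ch n), ∀ t, ∃ a : A, ∃ w ∈ s, t = a • w := by
  classical
  obtain ⟨s₀, hs₀⟩ := c.orbits
  let U : Finset c.I := s₀.biUnion fun i => (c.locFin i).toFinset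
  have hfin : {w : c.Ch n | ∃ j ∈ s₀, j ∈ w.1 0}.Finite := by
    refine Set.Finite.of_finite_image (f := fun w : c.Ch n => w.1) ?_
      (fun _ _ _ _ h => Subtype.ext h)
    refine Set.Finite.subset
      (Fintype.piFinset fun _ : Fin (n + 1) => U.powerset).finite_toSet ?_
    rintro _ ⟨w, ⟨j, hj, hjw⟩, rfl⟩
    rw [Finset.mem_coe, Fintype.mem_piFinset]
    intro k
    rw [Finset.mem_powerset]
    intro l hl
    have hl0 : l ∈ w.1 0 := w.2.1.antitone (Fin.zero_le k) hl
    rw [Finset.mem_biUnion]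
    refine ⟨j, hj, ?_⟩
    rw [Set.Finite.mem_toFinset]
    obtain ⟨p, hp⟩ := w.2.2.1.2.2
    exact ⟨w.2.2.1.2.1 l hl0 j hjw, p, hp j hjw, hp l hl0⟩
  refine ⟨hfin.toFinset, fun t => ?_⟩
  obtain ⟨i, hi⟩ := t.nonempty 0
  obtain ⟨a, j, hj, rfl⟩ := hs₀ i
  refine ⟨a, a⁻¹ • t, ?_, (smul_inv_smul a t).symm⟩
  rw [Set.Finite.mem_toFinset]
  refine ⟨j, hj, ?_⟩
  change j ∈ c.sm a⁻¹ (t.1 0)
  rw [c.mem_sm, inv_inv]
  exact hi

/-- The modules of the complex of the nerve are, up to a constant, direct summands of finitely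
generated free modules; a strictly decreasing chain of length `n + 1` of non-empty sets has
`n + 1 ≤ (t 0).card`. -/
theorem exists_map_isFin :
    ∃ (N m : ℕ) (C : Cx R A Y) (j : ∀ n, (c.Ch n →₀ R) →ₗ[R] (C.Y n →₀ R)), 0 < m ∧ C.IsFin N ∧
      IsMap (c.toCx R) C ((m : R) • LinearMap.id) j := by
  obtain ⟨B, hB⟩ := c.exists_card_bound
  have hempty : ∀ n, B ≤ n → IsEmpty (c.Ch n) := by
    intro n hn
    refine ⟨fun t => ?_⟩
    have h1 : ∀ k : ℕ, ∀ hk : k < n + 1, (t.1 ⟨k, hk⟩).card + k ≤ (t.1 0).card := by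
      intro k
      induction k with
      | zero => intro hk; exact le_refl _
      | succ k ih =>
        intro hk
        have h2 := ih (by omega)
        have h3 : (t.1 ⟨k + 1, hk⟩).card < (t.1 ⟨k, by omega⟩).card :=
          Finset.card_lt_card (t.2.1 (by rw [Fin.lt_def]; exact Nat.lt_succ_self k))
        omega
    have h2 := h1 n (Nat.lt_succ_self n)
    have h3 : 0 < (t.1 ⟨n, Nat.lt_succ_self n⟩).card := Finset.card_pos.2 (t.nonempty _)
    have h4 := hB (t.1 0) t.2.2.1
    omega
  have hm : ∀ n, ∃ m : ℕ, 0 < m ∧ ∀ t : c.Ch n, (c.finite_stab t).toFinset.card ∣ m :=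
    fun n => exists_multiple (Z := c.Ch n) (fun t => c.finite_stab t) (c.orbits_ch n)
  choose m hm0 hm1 using hm
  have hm2 : 0 < ∏ n ∈ Finset.range B, m n := Finset.prod_pos fun n _ => hm0 n
  obtain ⟨C, j, hC, hj⟩ := (c.toCx R).exists_free B (∏ n ∈ Finset.range B, m n) (fun n => by
    refine exists_retract (Z := c.Ch n) (fun t => c.finite_stab t) _ (fun t => ?_) (c.orbits_ch n)
    by_cases hn : n < B
    · exact (hm1 n t).trans (Finset.dvd_prod_of_mem m (Finset.mem_range.2 hn))
    · exact ((hempty n (not_lt.1 hn)).false t).elim) hempty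
  exact ⟨B, _, C, j, pow_pos hm2 _, hC, hj⟩

end Cover

end Pool.Agent.Lib.MP_666dc0_nt.EP
end

section

/-!
# EP, PA3: the cone in the complex of the nerve
-/

namespace Pool.Agent.Lib.MP_666dc0_nt.EP

namespace Cover

variable {A Y E : Type} [Group A] [MulAction A Y] [NormedAddCommGroup E] [NormedSpace ℝ E]
  [DistribMulAction A E] {PP : Set E} (c : Cover A Y E PP) (R : Type) [CommRing R]

/-- The chains below `v`. -/
def Below (v : Finset c.I) (n : ℕ) : Submodule R (c.Ch n →₀ R) :=
  Finsupp.supported R R {t | t.1 0 ⊆ v}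

variable {R}

theorem pa3_fin (k : Fin (0 + 1)) : k = 0 := by
  apply Fin.ext
  have h1 := k.2
  change k.val = 0
  omega

theorem pa3_ext {v : Finset c.I} {n : ℕ} {M : Type} [AddCommGroup M] [Module R M]
    (f g : (c.Ch n →₀ R) →ₗ[R] M)
    (h : ∀ t : c.Ch n, t.1 0 ⊆ v → f (Finsupp.single t 1) = g (Finsupp.single t 1))
    {m : c.Ch n →₀ R} (hm : m ∈ c.Below R v n) : f m = g m := by
  have hm' : ∀ t ∈ m.support, t.1 0 ⊆ v := by
    intro t ht
    exact (Finsupp.mem_supported R m).1 hm ht
  have key : ∀ φ : (c.Ch n →₀ R) →ₗ[R] M, φ m = ∑ t ∈ m.support, m t • φ (Finsupp.single t 1) := by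
    intro φ
    conv_lhs => rw [← Finsupp.sum_single m]
    rw [Finsupp.sum, map_sum]
    refine Finset.sum_congr rfl fun t _ => ?_
    rw [← map_smul, Finsupp.smul_single, smul_eq_mul, mul_one]
  rw [key f, key g]
  exact Finset.sum_congr rfl fun t ht => by rw [h t (hm' t ht)]

theorem pa3_single_mem {v : Finset c.I} {n : ℕ} {t : c.Ch n} (h : t.1 0 ⊆ v) (r : R) :
    Finsupp.single t r ∈ c.Below R v n :=
  Finsupp.single_mem_supported R r h

theorem pa3_lc {α : Type} {v : Finset c.I} {n : ℕ} (f : α → (c.Ch n →₀ R)) (m : α →₀ R)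
    (h : ∀ t ∈ m.support, f t ∈ c.Below R v n) :
    Finsupp.linearCombination R f m ∈ c.Below R v n := by
  rw [Finsupp.linearCombination_apply, Finsupp.sum]
  exact Submodule.sum_mem _ fun t ht => Submodule.smul_mem _ _ (h t ht)

theorem pa3_face_zero {n : ℕ} (t : c.Ch (n + 1)) (j : Fin (n + 2)) :
    (c.face t j).1 0 ⊆ t.1 0 :=
  t.2.1.antitone (Fin.zero_le _)

theorem dC_mem_below {v : Finset c.I} {n : ℕ} {m : c.Ch (n + 1) →₀ R} (hm : m ∈ c.Below R v (n + 1)) :
    c.dC R n m ∈ c.Below R v n := by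
  unfold dC
  refine c.pa3_lc _ m fun t ht => ?_
  have h1 : t.1 0 ⊆ v := (Finsupp.mem_supported R m).1 hm ht
  exact Submodule.sum_mem _ fun j _ => c.pa3_single_mem ((c.pa3_face_zero t j).trans h1) _

theorem coneC_mem_below {v : Finset c.I} {n : ℕ} {m : c.Ch n →₀ R} (hm : m ∈ c.Below R v n) :
    c.coneC R v n m ∈ c.Below R v (n + 1) := by
  unfold coneC
  refine c.pa3_lc _ m fun t ht => ?_
  split_ifs with h
  · refine c.pa3_single_mem ?_ _
    change Fin.cons (α := fun _ => Finset c.I) v t.1 0 ⊆ v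
    rw [Fin.cons_zero]
  · exact Submodule.zero_mem _

/-- The chain `(v, t_0, …, t_n)`. -/
def pa3_cons {v : Finset c.I} {n : ℕ} (t : c.Ch n) (h : t.1 0 ⊂ v ∧ c.NS v) : c.Ch (n + 1) :=
  ⟨Fin.cons v t.1, by
        refine ⟨?_, by rw [Fin.cons_zero]; exact h.2, ?_⟩
        · intro i j hij
          induction j using Fin.cases with
          | zero => exact absurd hij (Fin.not_lt_zero i)
          | succ j =>
            induction i using Fin.cases with
            | zero =>
              rw [Fin.cons_zero, Fin.cons_succ]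
              exact lt_of_le_of_lt (t.2.1.antitone (Fin.zero_le j)) h.1
            | succ i =>
              rw [Fin.cons_succ, Fin.cons_succ]
              exact t.2.1 (Fin.succ_lt_succ_iff.1 hij)
        · rw [← Fin.succ_last, Fin.cons_succ]
          exact t.2.2.2⟩

theorem pa3_cone_pos {v : Finset c.I} {n : ℕ} (t : c.Ch n) (h : t.1 0 ⊂ v ∧ c.NS v) :
    c.coneC R v n (Finsupp.single t 1) = Finsupp.single (c.pa3_cons t h) 1 := by
  unfold coneC
  rw [Finsupp.linearCombination_single, one_smul, dif_pos h]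
  rfl

theorem pa3_cone_neg {v : Finset c.I} {n : ℕ} (t : c.Ch n) (h : ¬ (t.1 0 ⊂ v ∧ c.NS v)) :
    c.coneC R v n (Finsupp.single t 1) = 0 := by
  unfold coneC
  rw [Finsupp.linearCombination_single, one_smul, dif_neg h]

theorem pa3_cone_pos' {v : Finset c.I} {n : ℕ} (t : c.Ch n) (h : t.1 0 ⊂ v ∧ c.NS v) (r : R) :
    c.coneC R v n (Finsupp.single t r) = Finsupp.single (c.pa3_cons t h) r := by
  have h1 : (Finsupp.single t r : c.Ch n →₀ R) = r • Finsupp.single t 1 := by
    rw [Finsupp.smul_single, smul_eq_mul, mul_one]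
  rw [h1, map_smul, c.pa3_cone_pos t h, Finsupp.smul_single, smul_eq_mul, mul_one]

theorem pa3_cone_neg' {v : Finset c.I} {n : ℕ} (t : c.Ch n) (h : ¬ (t.1 0 ⊂ v ∧ c.NS v)) (r : R) :
    c.coneC R v n (Finsupp.single t r) = 0 := by
  have h1 : (Finsupp.single t r : c.Ch n →₀ R) = r • Finsupp.single t 1 := by
    rw [Finsupp.smul_single, smul_eq_mul, mul_one]
  rw [h1, map_smul, c.pa3_cone_neg t h, smul_zero]

theorem pa3_face_cons_zero {v : Finset c.I} {n : ℕ} (t : c.Ch n) (h : t.1 0 ⊂ v ∧ c.NS v) :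
    c.face (c.pa3_cons t h) 0 = t := by
  apply Subtype.ext
  funext k
  change Fin.cons (α := fun _ => Finset c.I) v t.1 (Fin.succAbove 0 k) = t.1 k
  rw [Fin.succAbove_zero, Fin.cons_succ]

theorem pa3_face_cons_succ {v : Finset c.I} {n : ℕ} (t : c.Ch (n + 1)) (h : t.1 0 ⊂ v ∧ c.NS v)
    (j : Fin (n + 2)) :
    c.face (c.pa3_cons t h) j.succ =
      c.pa3_cons (c.face t j) ⟨lt_of_le_of_lt (c.pa3_face_zero t j) h.1, h.2⟩ := by
  apply Subtype.ext
  funext k
  change Fin.cons (α := fun _ => Finset c.I) v t.1 (Fin.succAbove j.succ k) =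
    Fin.cons (α := fun _ => Finset c.I) v (fun k => t.1 (j.succAbove k)) k
  induction k using Fin.cases with
  | zero => rw [Fin.succ_succAbove_zero, Fin.cons_zero, Fin.cons_zero]
  | succ k => rw [Fin.succ_succAbove_succ, Fin.cons_succ, Fin.cons_succ]

/-- `∂ cone_v(m) = m - cone_v(∂ m)` for chains below `v`, in degrees `≥ 1`.
Proof: by linearity for `m = single t 1`. If `t_0 ≠ v`: the faces of `(v, t_0, …)` are `t` and the
`(v, face_j t)`; note that `face_0 (t) ` has first element `t_1 ⊊ v`, the others `t_0 ⊊ v`, so that no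
term of `cone_v(∂ m)` vanishes. If `t_0 = v`: the left side is `0`, and in `cone_v(∂ m)` only the face
`j = 0` gives a non-zero term, `(v, t_1, …) = t`. -/
theorem dC_coneC {v : Finset c.I} (hv : c.NS v) {n : ℕ} {m : c.Ch (n + 1) →₀ R}
    (hm : m ∈ c.Below R v (n + 1)) :
    c.dC R (n + 1) (c.coneC R v (n + 1) m) = m - c.coneC R v n (c.dC R n m) := by
  refine c.pa3_ext (c.dC R (n + 1) ∘ₗ c.coneC R v (n + 1))
    (LinearMap.id - c.coneC R v n ∘ₗ c.dC R n) ?_ hm
  intro t ht
  change c.dC R (n + 1) (c.coneC R v (n + 1) (Finsupp.single t 1)) =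
    Finsupp.single t 1 - c.coneC R v n (c.dC R n (Finsupp.single t 1))
  rw [c.dC_single n t, map_sum]
  by_cases h0 : t.1 0 = v
  · have h1 : ¬ (t.1 0 ⊂ v ∧ c.NS v) := fun h => h.1.ne h0
    rw [c.pa3_cone_neg t h1, map_zero, Fin.sum_univ_succ]
    have h2 : ∀ j : Fin (n + 1), c.coneC R v n
        (Finsupp.single (c.face t j.succ) ((-1) ^ (j.succ : ℕ))) = 0 := by
      intro j
      refine c.pa3_cone_neg' _ (fun h => h.1.ne ?_) _
      change t.1 (Fin.succAbove j.succ 0) = v
      rw [Fin.succ_succAbove_zero, h0]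
    rw [Finset.sum_congr rfl fun j _ => h2 j, Finset.sum_const_zero, add_zero]
    have h3 : (c.face t 0).1 0 ⊂ v := by
      rw [← h0]
      refine t.2.1 ?_
      rw [Fin.succAbove_zero]
      exact Fin.succ_pos 0
    rw [c.pa3_cone_pos' _ ⟨h3, hv⟩]
    have h4 : c.pa3_cons (c.face t 0) ⟨h3, hv⟩ = t := by
      apply Subtype.ext
      funext k
      change Fin.cons (α := fun _ => Finset c.I) v (fun k => t.1 (Fin.succAbove 0 k)) k = t.1 k
      induction k using Fin.cases with
      | zero => rw [Fin.cons_zero, h0]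
      | succ k => rw [Fin.cons_succ, Fin.succAbove_zero]
    rw [h4, Fin.val_zero, pow_zero, sub_self]
  · have h1 : t.1 0 ⊂ v ∧ c.NS v := ⟨lt_of_le_of_ne ht h0, hv⟩
    rw [c.pa3_cone_pos t h1, c.dC_single (n + 1), Fin.sum_univ_succ, c.pa3_face_cons_zero t h1,
      Fin.val_zero, pow_zero, sub_eq_add_neg, ← Finset.sum_neg_distrib]
    congr 1
    refine Finset.sum_congr rfl fun j _ => ?_
    rw [c.pa3_face_cons_succ t h1 j, c.pa3_cone_pos' _ ⟨lt_of_le_of_lt (c.pa3_face_zero t j) h1.1,
      h1.2⟩, ← Finsupp.single_neg, Fin.val_succ, pow_succ]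
    congr 1
    ring

/-- The chain `(v)`. -/
def top {v : Finset c.I} (hv : c.NS v) : c.Ch 0 :=
  ⟨fun _ => v, fun k l hkl => absurd hkl (by
    have h1 := k.2
    have h2 := l.2
    rw [Fin.lt_def]
    omega), hv, hv.1⟩

/-- The same in degree `0`: `∂ cone_v(m) = m - (sum of the coefficients of m) (v)`. -/
theorem dC_coneC_zero {v : Finset c.I} (hv : c.NS v) {m : c.Ch 0 →₀ R} (hm : m ∈ c.Below R v 0) :
    c.dC R 0 (c.coneC R v 0 m) = m - (m.sum fun _ r => r) • Finsupp.single (c.top hv) 1 := by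
  have hsum : ∀ m : c.Ch 0 →₀ R, (m.sum fun _ r => r) • Finsupp.single (c.top hv) (1 : R) =
      (LinearMap.toSpanSingleton R (c.Ch 0 →₀ R) (Finsupp.single (c.top hv) 1))
        (Finsupp.linearCombination R (fun _ : c.Ch 0 => (1 : R)) m) := by
    intro m
    rw [Finsupp.linearCombination_apply, LinearMap.toSpanSingleton_apply]
    congr 1
    refine Finset.sum_congr rfl fun t _ => ?_
    change m t = m t • (1 : R)
    rw [smul_eq_mul, mul_one]
  rw [hsum]
  refine c.pa3_ext (c.dC R 0 ∘ₗ c.coneC R v 0)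
    (LinearMap.id - (LinearMap.toSpanSingleton R (c.Ch 0 →₀ R) (Finsupp.single (c.top hv) 1)) ∘ₗ
      Finsupp.linearCombination R (fun _ : c.Ch 0 => (1 : R))) ?_ hm
  intro t ht
  change c.dC R 0 (c.coneC R v 0 (Finsupp.single t 1)) = Finsupp.single t 1 -
    (LinearMap.toSpanSingleton R (c.Ch 0 →₀ R) (Finsupp.single (c.top hv) 1))
        (Finsupp.linearCombination R (fun _ : c.Ch 0 => (1 : R)) (Finsupp.single t 1))
  rw [Finsupp.linearCombination_single, one_smul, LinearMap.toSpanSingleton_apply, one_smul]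
  by_cases h0 : t.1 0 = v
  · have h1 : ¬ (t.1 0 ⊂ v ∧ c.NS v) := fun h => h.1.ne h0
    rw [c.pa3_cone_neg t h1, map_zero]
    have h2 : t = c.top hv := by
      apply Subtype.ext
      funext k
      change t.1 k = v
      rw [← h0, pa3_fin k]
    rw [← h2, sub_self]
  · have h1 : t.1 0 ⊂ v ∧ c.NS v := ⟨lt_of_le_of_ne ht h0, hv⟩
    rw [c.pa3_cone_pos t h1, c.dC_single 0, Fin.sum_univ_succ, c.pa3_face_cons_zero t h1,
      Fin.val_zero, pow_zero, sub_eq_add_neg]
    congr 1
    rw [Fin.sum_univ_succ, Finset.univ_eq_empty, Finset.sum_empty, add_zero, ← Finsupp.single_neg]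
    have h2 : c.face (c.pa3_cons t h1) (Fin.succ 0) = c.top hv := by
      apply Subtype.ext
      funext k
      change Fin.cons (α := fun _ => Finset c.I) v t.1 (Fin.succAbove (Fin.succ 0) k) = v
      rw [pa3_fin k, Fin.succ_succAbove_zero, Fin.cons_zero]
    rw [h2, Fin.val_succ, Fin.val_zero, zero_add, pow_one]

/-- The cone is compatible with the action. -/
theorem coneC_smul (a : A) (v : Finset c.I) (n : ℕ) (m : c.Ch n →₀ R) :
    c.coneC R (c.sm a v) n (Finsupp.mapDomain (fun t => a • t) m) =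
      Finsupp.mapDomain (fun t => a • t) (c.coneC R v n m) := by
  have h : c.coneC R (c.sm a v) n ∘ₗ Finsupp.lmapDomain R R (fun t : c.Ch n => a • t) =
      Finsupp.lmapDomain R R (fun t : c.Ch (n + 1) => a • t) ∘ₗ c.coneC R v n := by
    apply Finsupp.lhom_ext'
    intro t
    apply LinearMap.ext_ring
    change c.coneC R (c.sm a v) n (Finsupp.mapDomain (fun t => a • t) (Finsupp.single t 1)) =
      Finsupp.mapDomain (fun t => a • t) (c.coneC R v n (Finsupp.single t 1))
    rw [Finsupp.mapDomain_single]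
    by_cases h1 : t.1 0 ⊂ v ∧ c.NS v
    · have h2 : (a • t).1 0 ⊂ c.sm a v ∧ c.NS (c.sm a v) :=
        ⟨(c.sm_ssubset_iff a _ _).2 h1.1, c.NS_sm a h1.2⟩
      rw [c.pa3_cone_pos t h1, c.pa3_cone_pos (a • t) h2, Finsupp.mapDomain_single]
      congr 1
      apply Subtype.ext
      funext k
      change Fin.cons (α := fun _ => Finset c.I) (c.sm a v) (fun k => c.sm a (t.1 k)) k =
        c.sm a (Fin.cons (α := fun _ => Finset c.I) v t.1 k)
      induction k using Fin.cases with
      | zero => rw [Fin.cons_zero, Fin.cons_zero]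
      | succ k => rw [Fin.cons_succ, Fin.cons_succ]
    · have h2 : ¬ ((a • t).1 0 ⊂ c.sm a v ∧ c.NS (c.sm a v)) := by
        rintro ⟨h3, h4⟩
        refine h1 ⟨(c.sm_ssubset_iff a _ _).1 h3, ?_⟩
        have h5 := c.NS_sm a⁻¹ h4
        rwa [← c.sm_mul, inv_mul_cancel, c.sm_one] at h5
      rw [c.pa3_cone_neg t h1, c.pa3_cone_neg (a • t) h2, Finsupp.mapDomain_zero]
  exact LinearMap.congr_fun h m

end Cover

end Pool.Agent.Lib.MP_666dc0_nt.EP
end

section

/-!
# EP, PA4: the subdivision map to the complex of the nerve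
-/

namespace Pool.Agent.Lib.MP_666dc0_nt.EP

namespace Cover

variable {A Y E : Type} [Group A] [MulAction A Y] [NormedAddCommGroup E] [NormedSpace ℝ E]
  [DistribMulAction A E] {PP : Set E} (c : Cover A Y E PP) {R : Type} [CommRing R]

theorem pa4_below_mono {v w : Finset c.I} (h : v ⊆ w) (n : ℕ) : c.Below R v n ≤ c.Below R w n :=
  Finsupp.supported_mono fun _ ht => Finset.Subset.trans ht h

open Classical in
theorem pa4_SdI_succ (n : ℕ) (s : Fin (n + 2) → Finset c.I) :
    c.SdI R (n + 1) s = c.coneC R (Finset.univ.biUnion s) n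
      (∑ j : Fin (n + 2), ((-1 : R) ^ (j : ℕ)) • c.SdI R n fun k => s (j.succAbove k)) := rfl

open Classical in
theorem pa4_image {n : ℕ} (s : Fin (n + 2) → Finset c.I) (j : Fin (n + 2)) :
    Finset.univ.biUnion (fun k => s (j.succAbove k)) ⊆ Finset.univ.biUnion s := by
  intro x hx
  rw [Finset.mem_biUnion] at hx ⊢
  obtain ⟨k, -, hk⟩ := hx
  exact ⟨j.succAbove k, Finset.mem_univ _, hk⟩

open Classical in
theorem pa4_image_zero (s : Fin 1 → Finset c.I) : Finset.univ.biUnion s = s 0 := by
  ext x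
  rw [Finset.mem_biUnion]
  constructor
  · rintro ⟨k, -, hk⟩
    rwa [Fin.eq_zero k] at hk
  · intro h
    exact ⟨0, Finset.mem_univ _, h⟩

theorem pa4_SdI_zero (s : Fin 1 → Finset c.I) (h : c.NS (s 0)) :
    c.SdI R 0 s = Finsupp.single (c.top h) 1 :=
  dif_pos h

open Classical in
/-- Proof: induction on `n` (`coneC_mem_below`, and the faces of the tuple have smaller union). -/
theorem SdI_mem_below (n : ℕ) (s : Fin (n + 1) → Finset c.I) :
    c.SdI R n s ∈ c.Below R (Finset.univ.biUnion s) n := by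
  induction n with
  | zero =>
    by_cases h : c.NS (s 0)
    · rw [c.pa4_SdI_zero s h]
      refine Finsupp.single_mem_supported R _ ?_
      change s 0 ⊆ Finset.univ.biUnion s
      rw [c.pa4_image_zero s]
    · have h1 : c.SdI R 0 s = 0 := dif_neg h
      rw [h1]
      exact Submodule.zero_mem _
  | succ n ih =>
    rw [c.pa4_SdI_succ]
    refine c.coneC_mem_below ?_
    refine Submodule.sum_mem _ fun j _ => Submodule.smul_mem _ _ ?_
    exact c.pa4_below_mono (c.pa4_image s j) n (ih _)

open Classical in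
/-- In degree `0` the sum of the coefficients is `1`. -/
theorem SdI_zero_sum (s : Fin 1 → Finset c.I) (h : c.NS (Finset.univ.biUnion s)) :
    ((c.SdI R 0 s).sum fun _ r => r) = 1 := by
  have h1 : c.NS (s 0) := by
    rw [← c.pa4_image_zero s]
    exact h
  rw [c.pa4_SdI_zero s h1, Finsupp.sum_single_index rfl]

open Classical in
theorem εC_SdI_zero (s : Fin 1 → Finset c.I) (h : c.NS (Finset.univ.biUnion s)) {y₀ : Y}
    (hy : ∀ i ∈ s 0, c.y i = y₀) :
    c.εC R (c.SdI R 0 s) = Finsupp.single y₀ 1 := by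
  have h1 : c.NS (s 0) := by
    rw [← c.pa4_image_zero s]
    exact h
  rw [c.pa4_SdI_zero s h1]
  unfold εC
  rw [Finsupp.lmapDomain_apply, Finsupp.mapDomain_single]
  obtain ⟨i, hi⟩ := h1.1
  rw [← c.y_eq_ys (c.top h1) 0 i hi, hy i hi]

/-- The double sum over the faces of the faces is zero. -/
theorem pa4_double {M : Type} [AddCommGroup M] [Module R M] {J : Type} (n : ℕ)
    (i : Fin (n + 3) → J) (S : (Fin (n + 1) → J) → M) :
    ∑ j : Fin (n + 3), ((-1 : R) ^ (j : ℕ)) • ∑ k : Fin (n + 2), ((-1 : R) ^ (k : ℕ)) •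
      S (fun l => i (j.succAbove (k.succAbove l))) = 0 := by
  have h := LinearMap.congr_fun (bd_comp_bd (R := R) (E := J) (X := Unit) n)
    (Finsupp.single (i, ()) 1)
  rw [LinearMap.comp_apply, bd_single, map_sum, LinearMap.zero_apply] at h
  have h1 : ∀ (t : Simp J Unit (n + 1)) (r : R), bd R J Unit n (Finsupp.single t r) =
      ∑ j : Fin (n + 2), Finsupp.single ((fun k => t.1 (j.succAbove k)), t.2)
        (r * (-1) ^ (j : ℕ)) := by
    intro t r
    have : (Finsupp.single t r : Simp J Unit (n + 1) →₀ R) = r • Finsupp.single t 1 := by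
      rw [Finsupp.smul_single, smul_eq_mul, mul_one]
    rw [this, map_smul, bd_single, Finset.smul_sum]
    refine Finset.sum_congr rfl fun j _ => ?_
    rw [Finsupp.smul_single, smul_eq_mul]
  simp only [h1] at h
  have h2 := congrArg (Finsupp.linearCombination R (fun s : Simp J Unit n => S s.1)) h
  rw [map_sum, map_zero] at h2
  rw [← h2]
  refine Finset.sum_congr rfl fun j _ => ?_
  rw [map_sum, Finset.smul_sum]
  refine Finset.sum_congr rfl fun k _ => ?_
  rw [Finsupp.linearCombination_single, smul_smul]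

open Classical in
/-- The subdivision is a chain map.
Proof: induction on `n`. For `n = 0`: `dC_coneC_zero`; the sum of the coefficients of
`Sd(s_1) - Sd(s_0)` is `0`. For `n ≥ 1`: `dC_coneC` (the faces are below the union by
`SdI_mem_below`) and `∂ (∑ (-1)^j Sd(∂_j s)) = ∑∑ (-1)^{j+k} Sd(∂_k ∂_j s) = 0` by the induction
hypothesis and the computation of `d² = 0` (EP/C2c.lean). -/
theorem dC_SdI (n : ℕ) (s : Fin (n + 2) → Finset c.I) (hs : ∀ k, (s k).Nonempty)
    (h : c.NS (Finset.univ.biUnion s)) :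
    c.dC R n (c.SdI R (n + 1) s) =
      ∑ j : Fin (n + 2), ((-1 : R) ^ (j : ℕ)) • c.SdI R n fun k => s (j.succAbove k) := by
  have hns : ∀ {m : ℕ} (s : Fin (m + 2) → Finset c.I), (∀ k, (s k).Nonempty) →
      c.NS (Finset.univ.biUnion s) →
      ∀ j : Fin (m + 2), c.NS (Finset.univ.biUnion fun k => s (j.succAbove k)) := by
    intro m s hs hi j
    refine hi.mono (c.pa4_image s j) ?_
    obtain ⟨x, hx⟩ := hs (j.succAbove 0)
    exact ⟨x, Finset.mem_biUnion.2 ⟨0, Finset.mem_univ 0, hx⟩⟩
  induction n with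
  | zero =>
    have hm : (∑ j : Fin 2, ((-1 : R) ^ (j : ℕ)) • c.SdI R 0 fun k => s (j.succAbove k)) ∈
        c.Below R (Finset.univ.biUnion s) 0 :=
      Submodule.sum_mem _ fun j _ => Submodule.smul_mem _ _
        (c.pa4_below_mono (c.pa4_image s j) 0 (c.SdI_mem_below 0 _))
    rw [c.pa4_SdI_succ, c.dC_coneC_zero h hm]
    have hz : ((∑ j : Fin 2, ((-1 : R) ^ (j : ℕ)) • c.SdI R 0 fun k => s (j.succAbove k)).sum
        fun _ r => r) = 0 := by
      have e1 : ∀ m : c.Ch 0 →₀ R, (m.sum fun _ r => r) =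
          Finsupp.linearCombination R (fun _ : c.Ch 0 => (1 : R)) m := by
        intro m
        rw [Finsupp.linearCombination_apply]
        refine Finset.sum_congr rfl fun t _ => ?_
        change m t = m t • (1 : R)
        rw [smul_eq_mul, mul_one]
      rw [e1, map_sum]
      have e2 : ∀ j : Fin 2, Finsupp.linearCombination R (fun _ : c.Ch 0 => (1 : R))
          (((-1 : R) ^ (j : ℕ)) • c.SdI R 0 fun k => s (j.succAbove k)) = (-1 : R) ^ (j : ℕ) := by
        intro j
        rw [map_smul, ← e1, c.SdI_zero_sum _ (hns s hs h j), smul_eq_mul, mul_one]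
      rw [Finset.sum_congr rfl fun j _ => e2 j, Fin.sum_univ_two]
      simp
    rw [hz, zero_smul, sub_zero]
  | succ n ih =>
    have hm : (∑ j : Fin (n + 3), ((-1 : R) ^ (j : ℕ)) •
        c.SdI R (n + 1) fun k => s (j.succAbove k)) ∈ c.Below R (Finset.univ.biUnion s) (n + 1) :=
      Submodule.sum_mem _ fun j _ => Submodule.smul_mem _ _
        (c.pa4_below_mono (c.pa4_image s j) (n + 1) (c.SdI_mem_below (n + 1) _))
    rw [c.pa4_SdI_succ, c.dC_coneC h hm]
    have hz : c.dC R n (∑ j : Fin (n + 3), ((-1 : R) ^ (j : ℕ)) •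
        c.SdI R (n + 1) fun k => s (j.succAbove k)) = 0 := by
      rw [map_sum]
      have e2 : ∀ j : Fin (n + 3), c.dC R n (((-1 : R) ^ (j : ℕ)) •
          c.SdI R (n + 1) fun k => s (j.succAbove k)) =
          ((-1 : R) ^ (j : ℕ)) • ∑ k : Fin (n + 2), ((-1 : R) ^ (k : ℕ)) •
            c.SdI R n (fun l => s (j.succAbove (k.succAbove l))) := by
        intro j
        rw [map_smul, ih (fun k => s (j.succAbove k)) (fun k => hs _) (hns s hs h j)]
      rw [Finset.sum_congr rfl fun j _ => e2 j]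
      exact pa4_double n s (c.SdI R n)
    rw [hz, map_zero, sub_zero]

open Classical in
theorem pa4_image_smul (a : A) {n : ℕ} (s : Fin (n + 1) → Finset c.I) :
    Finset.univ.biUnion (fun k => c.sm a (s k)) = c.sm a (Finset.univ.biUnion s) := by
  ext x
  rw [c.mem_sm, Finset.mem_biUnion, Finset.mem_biUnion]
  constructor
  · rintro ⟨k, -, hk⟩
    exact ⟨k, Finset.mem_univ _, (c.mem_sm a _ x).1 hk⟩
  · rintro ⟨k, -, hk⟩
    exact ⟨k, Finset.mem_univ _, (c.mem_sm a _ x).2 hk⟩

/-- Proof: induction on `n`, `coneC_smul`, `NS_sm`. -/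
theorem SdI_smul (a : A) (n : ℕ) (s : Fin (n + 1) → Finset c.I) :
    c.SdI R n (fun k => c.sm a (s k)) = Finsupp.mapDomain (fun t => a • t) (c.SdI R n s) := by
  classical
  induction n with
  | zero =>
    by_cases h : c.NS (s 0)
    · have h1 : c.NS (c.sm a (s 0)) := c.NS_sm a h
      rw [c.pa4_SdI_zero s h, c.pa4_SdI_zero (fun k => c.sm a (s k)) h1,
        Finsupp.mapDomain_single]
      have h5 : c.top h1 = a • c.top h := Subtype.ext (funext fun _ => rfl)
      rw [← h5]
    · have h1 : ¬ c.NS (c.sm a (s 0)) := by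
        intro h2
        apply h
        have h3 := c.NS_sm a⁻¹ h2
        rwa [← c.sm_mul, inv_mul_cancel, c.sm_one] at h3
      have h2 : c.SdI R 0 s = 0 := dif_neg h
      have h3 : c.SdI R 0 (fun k => c.sm a (s k)) = 0 := dif_neg h1
      rw [h2, h3, Finsupp.mapDomain_zero]
  | succ n ih =>
    rw [c.pa4_SdI_succ, c.pa4_SdI_succ, c.pa4_image_smul, ← c.coneC_smul]
    congr 1
    have h1 : ∀ m : c.Ch n →₀ R, Finsupp.mapDomain (fun t : c.Ch n => a • t) m =
        Finsupp.lmapDomain R R (fun t : c.Ch n => a • t) m := fun m => rfl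
    rw [h1, map_sum]
    refine Finset.sum_congr rfl fun j _ => ?_
    rw [map_smul, ← h1, ← ih]

end Cover

end Pool.Agent.Lib.MP_666dc0_nt.EP
end
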