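import Pool.Agent.Lib.MP_666dc0_nt.Mg.G063
import Pool.Agent.Lib.MP_666dc0_nt.EP.PA8
import Pool.Agent.Lib.MP_666dc0_nt.EP.BX3
import Pool.Agent.Lib.MP_666dc0_nt.EP.BX5
import Pool.Agent.Lib.MP_666dc0_nt.EP.BX7

section

/-!
# EP, PA9: the map from the small chains to the complex of the nerve
-/

namespace Pool.Agent.Lib.MP_666dc0_nt.EP

namespace Cover

variable {A Y E : Type} [Group A] [MulAction A Y] [NormedAddCommGroup E] [NormedSpace ℝ E]
  [DistribMulAction A E] {PP : Set E} (c : Cover A Y E PP)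

/-- The map `(p_0, …, p_n; y) ↦ Sd(ι(p_0, y), …, ι(p_n, y))`. -/
noncomputable def toNerve (R : Type) [CommRing R] (ι : E → Y → Finset c.I) (n : ℕ) :
    (Simp E Y n →₀ R) →ₗ[R] (c.Ch n →₀ R) :=
  Finsupp.linearCombination R fun s => c.SdI R n fun k => ι (s.1 k) s.2

variable {R : Type} [CommRing R] {ι : E → Y → Finset c.I}


private theorem pa9_toNerve_single (n : ℕ) (s : Simp E Y n) (r : R) :
    c.toNerve R ι n (Finsupp.single s r) = r • c.SdI R n (fun k => ι (s.1 k) s.2) := by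
  unfold toNerve
  rw [Finsupp.linearCombination_single]

private theorem pa9_mem {n : ℕ} {s : Simp E Y n} (k : Fin (n + 1)) :
    s.1 k ∈ convexHull ℝ (Set.range s.1) :=
  subset_convexHull ℝ _ (Set.mem_range_self k)

private theorem pa9_ind {n : ℕ} {M : Type} [AddCommGroup M] [Module R M]
    (f g : (Simp E Y n →₀ R) →ₗ[R] M)
    (h : ∀ s : Simp E Y n, c.IsSmall ι s → f (Finsupp.single s 1) = g (Finsupp.single s 1))
    {z : Simp E Y n →₀ R} (hz : z ∈ c.Small R ι n) : f z = g z := by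
  unfold Small at hz
  rw [Finsupp.supported_eq_span_single] at hz
  refine LinearMap.eqOn_span (f := f) (g := g) ?_ hz
  rintro _ ⟨s, hs, rfl⟩
  exact h s hs

open Classical in
/-- The indices of the vertices of a small simplex form a simplex of the nerve: all of them are over
`y`, and any vertex is a common point. -/
theorem IsSmall.ns (hι : ∀ p ∈ PP, ∀ y, (ι p y).Nonempty ∧ ∀ i ∈ ι p y, c.y i = y ∧ p ∈ c.V' i)
    {n : ℕ} {s : Simp E Y n} (hs : c.IsSmall ι s) :
    c.NS (Finset.univ.biUnion fun k => ι (s.1 k) s.2) := by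
  have hP : ∀ k, s.1 k ∈ PP := fun k => hs.1 (pa9_mem k)
  refine ⟨?_, ?_, s.1 0, ?_⟩
  · obtain ⟨i, hi⟩ := (hι _ (hP 0) s.2).1
    exact ⟨i, Finset.mem_biUnion.2 ⟨0, Finset.mem_univ 0, hi⟩⟩
  · intro i hi j hj
    obtain ⟨k, _, hk⟩ := Finset.mem_biUnion.1 hi
    obtain ⟨l, _, hl⟩ := Finset.mem_biUnion.1 hj
    rw [((hι _ (hP k) s.2).2 i hk).1, ((hι _ (hP l) s.2).2 j hl).1]
  · intro i hi
    obtain ⟨k, _, hk⟩ := Finset.mem_biUnion.1 hi
    exact hs.2 _ (pa9_mem k) i hk (pa9_mem 0)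

/-- It is a chain map on small chains (`dC_SdI`). -/
theorem dC_toNerve (hι : ∀ p ∈ PP, ∀ y, (ι p y).Nonempty ∧ ∀ i ∈ ι p y, c.y i = y ∧ p ∈ c.V' i) (n : ℕ)
    {z : Simp E Y (n + 1) →₀ R} (hz : z ∈ c.Small R ι (n + 1)) :
    c.dC R n (c.toNerve R ι (n + 1) z) = c.toNerve R ι n (bd R E Y n z) := by
  classical
  refine c.pa9_ind (c.dC R n ∘ₗ c.toNerve R ι (n + 1)) (c.toNerve R ι n ∘ₗ bd R E Y n)
    (fun s hs => ?_) hz
  rw [LinearMap.comp_apply, LinearMap.comp_apply, pa9_toNerve_single, one_smul,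
    c.dC_SdI n _ (fun k => (hι _ (hs.1 (pa9_mem k)) s.2).1) (IsSmall.ns c hι hs), bd_single,
    map_sum]
  refine Finset.sum_congr rfl fun j _ => ?_
  rw [pa9_toNerve_single]

theorem εC_toNerve (hι : ∀ p ∈ PP, ∀ y, (ι p y).Nonempty ∧ ∀ i ∈ ι p y, c.y i = y ∧ p ∈ c.V' i)
    {z : Simp E Y 0 →₀ R} (hz : z ∈ c.Small R ι 0) :
    c.εC R (c.toNerve R ι 0 z) = aug R E Y z := by
  classical
  refine c.pa9_ind (c.εC R ∘ₗ c.toNerve R ι 0) (aug R E Y) (fun s hs => ?_) hz
  rw [LinearMap.comp_apply, pa9_toNerve_single, one_smul,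
    c.εC_SdI_zero _ (IsSmall.ns c hι hs)
      (fun i hi => ((hι _ (hs.1 (pa9_mem 0)) s.2).2 i hi).1)]
  unfold aug
  rw [Finsupp.lmapDomain_apply, Finsupp.mapDomain_single]

/-- It is equivariant on small chains (`SdI_smul`; the vertices are in `PP`, where `ι` is
equivariant). -/
theorem toNerve_smul (hι' : ∀ p ∈ PP, ∀ (y : Y) (a : A), ι (a • p) (a • y) = c.sm a (ι p y))
    (a : A) (n : ℕ) {z : Simp E Y n →₀ R} (hz : z ∈ c.Small R ι n) :
    c.toNerve R ι n (Finsupp.mapDomain (fun s => a • s) z) =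
      Finsupp.mapDomain (fun t => a • t) (c.toNerve R ι n z) := by
  refine c.pa9_ind (c.toNerve R ι n ∘ₗ Finsupp.lmapDomain R R (fun s : Simp E Y n => a • s))
    (Finsupp.lmapDomain R R (fun t : c.Ch n => a • t) ∘ₗ c.toNerve R ι n) (fun s hs => ?_) hz
  rw [LinearMap.comp_apply, LinearMap.comp_apply, Finsupp.lmapDomain_apply,
    Finsupp.lmapDomain_apply, Finsupp.mapDomain_single, pa9_toNerve_single, pa9_toNerve_single,
    one_smul, one_smul, ← c.SdI_smul a n]
  congr 1
  funext k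
  exact hι' _ (hs.1 (pa9_mem k)) s.2 a

/-- The small chains are stable under `A` (which acts on `E` by linear maps, so that the hull of
`a • s` is `a • hull(s)`). -/
theorem smul_mem_small [SMulCommClass A ℝ E] (hPP : ∀ (a : A) (p : E), a • p ∈ PP ↔ p ∈ PP)
    (hι' : ∀ p ∈ PP, ∀ (y : Y) (a : A), ι (a • p) (a • y) = c.sm a (ι p y))
    (a : A) (n : ℕ) {z : Simp E Y n →₀ R} (hz : z ∈ c.Small R ι n) :
    Finsupp.mapDomain (fun s => a • s) z ∈ c.Small R ι n := by
  classical
  have key : ∀ s : Simp E Y n, c.IsSmall ι s → c.IsSmall ι (a • s) := by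
    intro s hs
    have hr : convexHull ℝ (Set.range (a • s).1) =
        (fun p : E => a • p) '' convexHull ℝ (Set.range s.1) := by
      have h1 := (DistribSMul.toLinearMap ℝ E a).image_convexHull (Set.range s.1)
      have h2 : (DistribSMul.toLinearMap ℝ E a) '' Set.range s.1 = Set.range (a • s).1 := by
        rw [← Set.range_comp]
        rfl
      rw [h2] at h1
      exact h1.symm
    refine ⟨?_, ?_⟩
    · rw [hr]
      rintro _ ⟨p, hp, rfl⟩
      exact (hPP a p).2 (hs.1 hp)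
    · rw [hr]
      rintro _ ⟨q, hq, rfl⟩ i hi _ ⟨p, hp, rfl⟩
      have h3 : ι (a • q) (a • s).2 = c.sm a (ι q s.2) := hι' q (hs.1 hq) s.2 a
      change i ∈ ι (a • q) (a • s).2 at hi
      rw [h3, c.mem_sm] at hi
      have h4 := (c.V_smul a (a⁻¹ • i) p).2 (hs.2 q hq _ hi hp)
      rwa [smul_inv_smul] at h4
  unfold Small at hz ⊢
  rw [Finsupp.mem_supported] at hz ⊢
  intro t ht
  have h4 := Finsupp.mapDomain_support ht
  obtain ⟨s, hs, rfl⟩ := Finset.mem_image.1 h4
  exact key s (hz hs)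

end Cover

end Pool.Agent.Lib.MP_666dc0_nt.EP
end

section

/-!
# EP, BX6: the limit pair
-/

open NumberField
open scoped NumberField

namespace Pool.Agent.Lib.MP_666dc0_nt.EP

open WL

variable {F : Type} [Field F] [NumberField F] {n : ℕ} {D : Datum F n}

/-- If the values of the forms on the real basis `bz Y` converge then they converge on all families of
vectors. Proof: write the vectors as real combinations of the `bz Y i` (`exists_bz`), `mulVec` is
`ℝ`-linear, `fE_sum_real`. -/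
theorem tendsto_fE {Y : Matrix (Fin (rk F n)) (Fin (rk F n)) ℝ} (hY : Y.det ≠ 0)
    {H : ℕ → Matrix (Fin n) (Fin n) (EE F)} {s : Option (Fin D.m)}
    {g : (Fin (fdeg D s) → Fin (rk F n)) → EE F}
    (hg : ∀ J, Filter.Tendsto
        (fun j => fE D (qE D) (wE D) s (fun t => (H j).mulVec (bz Y (J t)))) Filter.atTop
        (nhds (g J))) (y : Fin (fdeg D s) → Fin n → EE F) :
    ∃ x, Filter.Tendsto (fun j => fE D (qE D) (wE D) s (fun t => (H j).mulVec (y t)))
      Filter.atTop (nhds x) := by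
  choose r hr using fun t => exists_bz (F := F) (n := n) hY (y t)
  have h1 : ∀ j, fE D (qE D) (wE D) s (fun t => (H j).mulVec (y t)) =
      ∑ J : Fin (fdeg D s) → Fin (rk F n), (∏ t, r t (J t)) •
        fE D (qE D) (wE D) s (fun t => (H j).mulVec (bz Y (J t))) := by
    intro j
    rw [← fE_sum_real (qE D) (wE D) s r (fun l => (H j).mulVec (bz Y l))]
    congr 1
    funext t
    have h2 : (H j).mulVec (y t) = (H j).mulVec (∑ i, r t i • bz Y i) :=
      congrArg (H j).mulVec (hr t)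
    rw [h2, Matrix.mulVec_sum]
    refine Finset.sum_congr rfl fun i _ => ?_
    rw [Matrix.mulVec_smul]
  exact ⟨_, (tendsto_finsetSum _ fun J _ => (hg J).const_smul (∏ t, r t (J t))).congr
    (fun j => (h1 j).symm)⟩

private theorem bx6_entry (q H : Matrix (Fin n) (Fin n) (EE F)) (m m' : Fin n) :
    H.mulVec (Pi.single m 1) ⬝ᵥ q.mulVec (H.mulVec (Pi.single m' 1)) =
      (H.transpose * q * H) m m' := by
  rw [Matrix.mulVec_mulVec, Matrix.mulVec_single_one, Matrix.mulVec_single_one, Matrix.mul_assoc,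
    Matrix.mul_apply]
  rfl

private theorem bx6_lam_cont : Continuous (lam F) :=
  LinearMap.continuous_of_finiteDimensional _

/-- Proof: the entries of `H_jᵀ q H_j` are the values `q(H_j e_m, H_j e_m')`: `tendsto_fE` for
`s = none`, `y = ![Pi.single m 1, Pi.single m' 1]`. -/
theorem exists_limit_q {Y : Matrix (Fin (rk F n)) (Fin (rk F n)) ℝ} (hY : Y.det ≠ 0)
    {H : ℕ → Matrix (Fin n) (Fin n) (EE F)}
    {g : ∀ s : Option (Fin D.m), (Fin (fdeg D s) → Fin (rk F n)) → EE F}
    (hg : ∀ s J, Filter.Tendsto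
        (fun j => fE D (qE D) (wE D) s (fun t => (H j).mulVec (bz Y (J t)))) Filter.atTop
        (nhds (g s J))) :
    ∃ q' : Matrix (Fin n) (Fin n) (EE F),
      Filter.Tendsto (fun j => (H j).transpose * qE D * H j) Filter.atTop (nhds q') := by
  have h1 : ∀ m m' : Fin n, ∃ x, Filter.Tendsto
      (fun j => ((H j).transpose * qE D * H j) m m') Filter.atTop (nhds x) := by
    intro m m'
    obtain ⟨x, hx⟩ := tendsto_fE hY (hg none)
      (show Fin 2 → Fin n → EE F from ![Pi.single m 1, Pi.single m' 1])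
    refine ⟨x, hx.congr fun j => ?_⟩
    exact bx6_entry (qE D) (H j) m m'
  choose q' hq' using h1
  exact ⟨q', tendsto_pi_nhds.2 fun m => tendsto_pi_nhds.2 fun m' => hq' m m'⟩

/-- The limit form is non-degenerate. Proof: `bz Y i ⬝ᵥ q' (bz Y j) = g none ![i, j]` (limit of
`q(H_l bz Y i, H_l bz Y j)`). Use `isUnit_det_of_injective`: if `q' x = 0`, write
`x = ∑ r_j bz Y j` (`exists_bz`); then `0 = λ(bz Y i ⬝ᵥ q' x) = ∑_j λ(g none ![i, j]) r_j` for all `i`,
so `r = 0` (`Matrix.eq_zero_of_mulVec_eq_zero`) and `x = 0`. -/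
theorem isUnit_limit_q {Y : Matrix (Fin (rk F n)) (Fin (rk F n)) ℝ} (hY : Y.det ≠ 0)
    {H : ℕ → Matrix (Fin n) (Fin n) (EE F)}
    {g : ∀ s : Option (Fin D.m), (Fin (fdeg D s) → Fin (rk F n)) → EE F}
    (hg : ∀ s J, Filter.Tendsto
        (fun j => fE D (qE D) (wE D) s (fun t => (H j).mulVec (bz Y (J t)))) Filter.atTop
        (nhds (g s J)))
    (hne : (Matrix.of fun i j : Fin (rk F n) =>
      lam F (g none (show Fin 2 → Fin (rk F n) from ![i, j]))).det ≠ 0)
    {q' : Matrix (Fin n) (Fin n) (EE F)}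
    (hq' : Filter.Tendsto (fun j => (H j).transpose * qE D * H j) Filter.atTop (nhds q')) :
    IsUnit q'.det := by
  have h1 : ∀ i l : Fin (rk F n), bz Y i ⬝ᵥ q'.mulVec (bz Y l) =
      g none (show Fin 2 → Fin (rk F n) from ![i, l]) := by
    intro i l
    have h2 : Filter.Tendsto (fun j => bz Y i ⬝ᵥ ((H j).transpose * qE D * H j).mulVec (bz Y l))
        Filter.atTop (nhds (bz Y i ⬝ᵥ q'.mulVec (bz Y l))) := by
      have hc : Continuous fun A : Matrix (Fin n) (Fin n) (EE F) =>
          bz Y i ⬝ᵥ A.mulVec (bz Y l) := by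
        fun_prop
      exact (hc.tendsto _).comp hq'
    have h3 : Filter.Tendsto
        (fun j => (H j).mulVec (bz Y i) ⬝ᵥ (qE D).mulVec ((H j).mulVec (bz Y l)))
        Filter.atTop (nhds (g none (show Fin 2 → Fin (rk F n) from ![i, l]))) :=
      hg none (show Fin 2 → Fin (rk F n) from ![i, l])
    refine tendsto_nhds_unique h2 (h3.congr fun j => ?_)
    rw [← Matrix.mulVec_mulVec, ← Matrix.mulVec_mulVec, Matrix.dotProduct_mulVec (bz Y i),
      Matrix.vecMul_transpose]
  refine isUnit_det_of_injective fun x hx => ?_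
  obtain ⟨r, hr⟩ := exists_bz (F := F) (n := n) hY x
  have h4 : (Matrix.of fun i j : Fin (rk F n) =>
      lam F (g none (show Fin 2 → Fin (rk F n) from ![i, j]))).mulVec r = 0 := by
    funext i
    have h5 : lam F (bz Y i ⬝ᵥ q'.mulVec x) = 0 := by
      rw [hx, dotProduct_zero, map_zero]
    have h6 : bz Y i ⬝ᵥ q'.mulVec x =
        ∑ l, r l • g none (show Fin 2 → Fin (rk F n) from ![i, l]) := by
      have h7 : q'.mulVec x = ∑ l, r l • q'.mulVec (bz Y l) := by
        have h8 : q'.mulVec x = q'.mulVec (∑ l, r l • bz Y l) := congrArg q'.mulVec hr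
        rw [h8, Matrix.mulVec_sum]
        exact Finset.sum_congr rfl fun l _ => Matrix.mulVec_smul _ _ _
      rw [h7, dotProduct_sum]
      refine Finset.sum_congr rfl fun l _ => ?_
      rw [dotProduct_smul, h1]
    rw [h6, map_sum] at h5
    rw [Pi.zero_apply, ← h5]
    show ∑ l, lam F (g none (show Fin 2 → Fin (rk F n) from ![i, l])) * r l = _
    refine Finset.sum_congr rfl fun l _ => ?_
    rw [map_smul, smul_eq_mul, mul_comm]
  have h9 : r = 0 := Matrix.eq_zero_of_mulVec_eq_zero hne h4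
  rw [hr, h9]
  simp

/-- The tensors converge. Proof: `tensor_eq` for `q_j = H_jᵀ q H_j`, `Q_j = q_j⁻¹` (for large `j` the
determinant of `q_j` is a unit: `Units.isOpen`, it tends to the unit `det q'`) and
`fE D q_j w_j (some i) y = fE D q w (some i) (H_j y)` (`fE_act`), which converges (`tendsto_fE`);
`Q_j = Ring.inverse (det q_j) • adjugate q_j` tends to `q'⁻¹` (`NormedRing.inverse_continuousAt`). -/
theorem exists_limit_w {Y : Matrix (Fin (rk F n)) (Fin (rk F n)) ℝ} (hY : Y.det ≠ 0)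
    {H : ℕ → Matrix (Fin n) (Fin n) (EE F)}
    {g : ∀ s : Option (Fin D.m), (Fin (fdeg D s) → Fin (rk F n)) → EE F}
    (hg : ∀ s J, Filter.Tendsto
        (fun j => fE D (qE D) (wE D) s (fun t => (H j).mulVec (bz Y (J t)))) Filter.atTop
        (nhds (g s J)))
    {q' : Matrix (Fin n) (Fin n) (EE F)}
    (hq' : Filter.Tendsto (fun j => (H j).transpose * qE D * H j) Filter.atTop (nhds q'))
    (hu : IsUnit q'.det) {w : ℕ → ∀ i, (Fin (D.deg i) → Fin n) → EE F}
    (hw : ∀ j i, tensAct (H j) (w j i) = wE D i) :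
    ∃ w' : ∀ i, (Fin (D.deg i) → Fin n) → EE F, Filter.Tendsto w Filter.atTop (nhds w') := by
  classical
  obtain ⟨q, hqd⟩ : ∃ q : ℕ → Matrix (Fin n) (Fin n) (EE F),
      ∀ j, q j = (H j).transpose * qE D * H j := ⟨_, fun _ => rfl⟩
  simp only [← hqd] at hq'
  have hdet : Filter.Tendsto (fun j => (q j).det) Filter.atTop (nhds q'.det) :=
    ((Continuous.matrix_det continuous_id).tendsto _).comp hq'
  have hU : {x : EE F | IsUnit x} ∈ nhds q'.det := by
    exact (Units.isOpen (R := EE F)).mem_nhds hu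
  have hev : ∀ᶠ j in Filter.atTop, IsUnit (q j).det := by
    filter_upwards [hdet hU] with j hj
    exact hj
  have hinv : Filter.Tendsto (fun j => Ring.inverse (q j).det • (q j).adjugate) Filter.atTop
      (nhds (Ring.inverse q'.det • q'.adjugate)) := by
    refine Filter.Tendsto.smul ?_ (((Continuous.matrix_adjugate continuous_id).tendsto _).comp hq')
    obtain ⟨u, hu'⟩ := hu
    have h1 := NormedRing.inverse_continuousAt (R := EE F) u
    rw [hu'] at h1
    exact h1.tendsto.comp hdet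
  have key : ∀ (i : Fin D.m) (K : Fin (D.deg i) → Fin n),
      ∃ x, Filter.Tendsto (fun j => w j i K) Filter.atTop (nhds x) := by
    intro i K
    choose x hx using fun I : Fin (D.deg i) → Fin n => tendsto_fE (D := D) hY (hg (some i))
      (show Fin (D.deg i) → Fin n → EE F from fun t => Pi.single (I t) 1)
    refine ⟨∑ I : Fin (D.deg i) → Fin n,
      (∏ t, (Ring.inverse q'.det • q'.adjugate) (I t) (K t)) * x I, ?_⟩
    have h2 : Filter.Tendsto (fun j => ∑ I : Fin (D.deg i) → Fin n,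
        (∏ t, (Ring.inverse (q j).det • (q j).adjugate) (I t) (K t)) *
          fE D (qE D) (wE D) (some i) (fun t => (H j).mulVec
            ((show Fin (D.deg i) → Fin n → EE F from fun t => Pi.single (I t) 1) t)))
        Filter.atTop (nhds (∑ I : Fin (D.deg i) → Fin n,
          (∏ t, (Ring.inverse q'.det • q'.adjugate) (I t) (K t)) * x I)) := by
      refine tendsto_finsetSum _ fun I _ => Filter.Tendsto.mul ?_ (hx I)
      refine tendsto_finsetProd _ fun t _ => ?_
      exact (tendsto_pi_nhds.1 (tendsto_pi_nhds.1 hinv (I t))) (K t)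
    refine h2.congr' ?_
    filter_upwards [hev] with j hj
    have h3 : q j * (Ring.inverse (q j).det • (q j).adjugate) = 1 := by
      rw [Matrix.mul_smul, Matrix.mul_adjugate, smul_smul, Ring.inverse_mul_cancel _ hj, one_smul]
    rw [tensor_eq h3 (w j) i K]
    refine Finset.sum_congr rfl fun I _ => ?_
    congr 1
    exact (fE_act (hqd j) (hw j) (some i) _).symm
  choose w' hw' using key
  exact ⟨fun i K => w' i K, tendsto_pi_nhds.2 fun i => tendsto_pi_nhds.2 fun K => hw' i K⟩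

/-- Proof: both sides are limits of `fE D q_j w_j s (bz Y ∘ J) = fE D q w s (H_j bz Y ∘ J)`
(`fE_act`; `fE` is a polynomial in the entries of `q` and `w`, so continuous). -/
theorem fE_limit {Y : Matrix (Fin (rk F n)) (Fin (rk F n)) ℝ}
    {H : ℕ → Matrix (Fin n) (Fin n) (EE F)}
    {g : ∀ s : Option (Fin D.m), (Fin (fdeg D s) → Fin (rk F n)) → EE F}
    (hg : ∀ s J, Filter.Tendsto
        (fun j => fE D (qE D) (wE D) s (fun t => (H j).mulVec (bz Y (J t)))) Filter.atTop
        (nhds (g s J)))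
    {q' : Matrix (Fin n) (Fin n) (EE F)}
    (hq' : Filter.Tendsto (fun j => (H j).transpose * qE D * H j) Filter.atTop (nhds q'))
    {w : ℕ → ∀ i, (Fin (D.deg i) → Fin n) → EE F} (hw : ∀ j i, tensAct (H j) (w j i) = wE D i)
    {w' : ∀ i, (Fin (D.deg i) → Fin n) → EE F} (hw' : Filter.Tendsto w Filter.atTop (nhds w'))
    (s : Option (Fin D.m)) (J : Fin (fdeg D s) → Fin (rk F n)) :
    g s J = fE D q' w' s (fun t => bz Y (J t)) := by
  refine tendsto_nhds_unique (hg s J) ?_
  have h1 : Filter.Tendsto (fun j => fE D ((H j).transpose * qE D * H j) (w j) s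
      (fun t => bz Y (J t))) Filter.atTop (nhds (fE D q' w' s (fun t => bz Y (J t)))) := by
    cases s with
    | none =>
      have hc : Continuous fun A : Matrix (Fin n) (Fin n) (EE F) =>
          bz Y (J (0 : Fin 2)) ⬝ᵥ A.mulVec (bz Y (J (1 : Fin 2))) := by
        fun_prop
      exact (hc.tendsto _).comp hq'
    | some i =>
      refine tendsto_finsetSum _ fun K _ => Filter.Tendsto.mul ?_ ?_
      · exact (tendsto_pi_nhds.1 (tendsto_pi_nhds.1 hw' i)) K
      · refine tendsto_finsetProd _ fun t _ => ?_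
        have hc : Continuous fun A : Matrix (Fin n) (Fin n) (EE F) =>
            A.mulVec (bz Y (J t)) (K t) := by
          fun_prop
        exact (hc.tendsto _).comp hq'
  exact h1.congr fun j => fE_act rfl (hw j) s _

end Pool.Agent.Lib.MP_666dc0_nt.EP
end

section

/-!
# EP, BX8: the orbit of the rational forms is closed
-/

open NumberField
open scoped NumberField

namespace Pool.Agent.Lib.MP_666dc0_nt.EP

open WL

variable {F : Type} [Field F] [NumberField F] {n : ℕ} {D : Datum F n}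

/-- Proof: the tensors `w_j = tensAct (H_j⁻¹) w`; `tensAct_mul`, `tensAct_one`. -/
theorem exists_w {H : Matrix (Fin n) (Fin n) (EE F)} (hH : IsUnit H.det) :
    ∃ w : ∀ i, (Fin (D.deg i) → Fin n) → EE F, ∀ i, tensAct H (w i) = wE D i := by
  refine ⟨fun i => tensAct H⁻¹ (wE D i), fun i => ?_⟩
  rw [← tensAct_mul, Matrix.mul_nonsing_inv H hH, tensAct_one]

/-- **The bridge.** Proof: a limit `t` of `act z_j (uR D)`, `det z_j = 1` (`isSeqClosed_iff_isClosed`
or `IsSeqClosed.isClosed`, `mem_closure_iff_seq_limit`). Take `g` from `exists_limit`, `Y`, `H` from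
`first_reduction`. For large `j`, `det (rm H_j) ≠ 0`, as it tends to `(det Y)⁻¹ ≠ 0`, so `det H_j` is a
unit (`isUnit_det_of_rm`); pass to the sequence `j ↦ H_{j + j₀}` (`Filter.tendsto_add_atTop_iff_nat`,
or compose with `Filter.tendsto_add_atTop_nat j₀`). Take `w_j` from `exists_w`, `q'` from
`exists_limit_q`, unit by `isUnit_limit_q` (`det_limit_ne_zero`), `w'` from `exists_limit_w`, and `H'`
from `second_reduction`. Let `z' = rm H' * Y`: `det z' = (det Y)⁻¹ det Y = 1` and by `fE_limit`,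
`fE_act`, `mulVec_bz`: `g s J = fE q' w' s (bz Y ∘ J) = fE q w s (H' bz Y ∘ J) =
fE q w s (bz z' ∘ J)`, so `t = act z' (uR D)` by `act_uR_eq`. -/
theorem closed_uR (hd : D.q.det ≠ 0) (hc : ClosedOrbit D) :
    IsClosed {t : RT.Ten (rk F n) (fa D) |
      ∃ z : Matrix (Fin (rk F n)) (Fin (rk F n)) ℝ, z.det = 1 ∧ t = RT.act z (uR D)} := by
  refine isSeqClosed_iff_isClosed.1 fun x t hx ht => ?_
  choose z hz1 hz2 using hx
  have h1 : Filter.Tendsto (fun j => RT.act (z j) (uR D)) Filter.atTop (nhds t) :=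
    ht.congr hz2
  obtain ⟨g, hg1, hg2⟩ := exists_limit h1
  obtain ⟨Y, H₀, hY, hH1, hH2⟩ := first_reduction hd hz1 hg1
  have hY0 : Y.det ≠ 0 := hY.ne'
  obtain ⟨j₀, hj₀⟩ := Filter.eventually_atTop.1
    (hH2.eventually_ne (inv_ne_zero hY0))
  obtain ⟨H, hH⟩ : ∃ H : ℕ → Matrix (Fin n) (Fin n) (EE F), H = fun j => H₀ (j + j₀) := ⟨_, rfl⟩
  have hu : ∀ j, IsUnit (H j).det := fun j => by
    rw [hH]
    exact isUnit_det_of_rm (hj₀ _ (Nat.le_add_left _ _))
  have hsh := Filter.tendsto_add_atTop_nat j₀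
  have hg3 : ∀ s J, Filter.Tendsto
      (fun j => fE D (qE D) (wE D) s (fun t => (H j).mulVec (bz Y (J t)))) Filter.atTop
      (nhds (g s J)) := fun s J => by
    rw [hH]
    exact (hH1 s J).comp hsh
  have hr : Filter.Tendsto (fun j => (rm (H j)).det) Filter.atTop (nhds (Y.det)⁻¹) := by
    rw [hH]
    exact hH2.comp hsh
  have hw0 : ∀ j, ∃ w : ∀ i, (Fin (D.deg i) → Fin n) → EE F, ∀ i, tensAct (H j) (w i) = wE D i :=
    fun j => exists_w (hu j)
  choose w hw using hw0
  obtain ⟨q', hq'⟩ := exists_limit_q hY0 hg3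
  have hqu : IsUnit q'.det := isUnit_limit_q hY0 hg3 (det_limit_ne_zero hd hz1 hg1) hq'
  obtain ⟨w', hw'⟩ := exists_limit_w hY0 hg3 hq' hqu hw
  obtain ⟨H', hq2, hw2, hr2⟩ := second_reduction hd hc hu hq' hqu hw hw' hr
  refine ⟨rm H' * Y, ?_, ?_⟩
  · rw [Matrix.det_mul, hr2, inv_mul_cancel₀ hY0]
  · funext i J
    rw [hg2 i J, act_uR_eq, fE_limit hg3 hq' hw hw', fE_act hq2 hw2]
    simp only [mulVec_bz]

end Pool.Agent.Lib.MP_666dc0_nt.EP
end
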