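import Pool.Agent.Lib.MP_666dc0_nt.ZO.ADefs
import Pool.Agent.Lib.MP_666dc0_nt.WL.C5a
import Pool.Agent.Lib.MP_666dc0_nt.Mg.G012
import Pool.Agent.Lib.MP_666dc0_nt.Mg.G077
import Pool.Agent.Lib.MP_666dc0_nt.Mg.G078
import Pool.Agent.Lib.MP_666dc0_nt.Mg.G075
import Pool.Agent.Lib.MP_666dc0_nt.ZO.L1
import Pool.Agent.Lib.MP_666dc0_nt.ZO.Q2

section

/-!
TASK A1b. Properties of the action of the polynomials.

All five statements by `MvPolynomial.induction_on` in the form: the polynomial is the sum of its terms (`MvPolynomial.support_sum_monomial_coeff`), a monomial `C a * ∏ X x ^ m x` acts as `a` times a product of operators; so first prove the statement for `monomial m 1` (induction, `op` is an algebra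
homomorphism, `IsOp.X`, and the statement for one operator `actK`), then for `a • monomial m 1`, then for the finite sum.
* `norm_le`: `norm_actK_le` of `WL/D2b` (`x.2.2 : x.1.2.IsIntegral ℓ`), and ultrametric sums.
* `mem_field`: the values of `actK φ` are rational combinations of values of `φ`.
* `right`: for `y` at `ℓ` and `c.out ∈ locSub D v` with `v ∉ S`: `v` does not divide `ℓ` (`hSl`), so `y` is trivial at `v` and `c.out` is trivial at the other places: they commute (`mul_comm_of_disjoint`), hence `ψ (g c.out) = φ (g c.out y) = φ (g y c.out)`.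
* `left`: clear. `eigen`: clear (`MvPolynomial.aeval`).
-/

open NumberField IsDedekindDomain
open scoped NumberField

namespace Pool.Agent.Lib.MP_666dc0_nt.ZO

open WL

variable {F : Type} [Field F] [NumberField F] {n : ℕ} {D : Datum F n} {ℓ : ℕ} [Fact ℓ.Prime]
  {S : Finset (HeightOneSpectrum (𝓞 F))} {U : Subgroup D.Ad}
  {op : MvPolynomial (IX ℓ S U) (PadicAlgCl ℓ) →ₐ[PadicAlgCl ℓ] Module.End (PadicAlgCl ℓ) (FU ℓ U)}

private theorem A1b_mono (R : Module.End (PadicAlgCl ℓ) (FU ℓ U) → Prop) (h1 : R 1)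
    (hX : ∀ x, R (op (MvPolynomial.X x))) (hmul : ∀ a b, R a → R b → R (a * b)) (m : IX ℓ S U →₀ ℕ) :
    R (op (MvPolynomial.monomial m 1)) := by
  classical
  have h0 : R (op (MvPolynomial.monomial 0 1)) := by
    have e : (MvPolynomial.monomial 0 1 : MvPolynomial (IX ℓ S U) (PadicAlgCl ℓ)) = 1 := rfl
    rw [e, map_one]
    exact h1
  induction m using Finsupp.induction_linear with
  | zero => exact h0
  | add a b ha hb =>
    have e : (MvPolynomial.monomial (a + b) 1 : MvPolynomial (IX ℓ S U) (PadicAlgCl ℓ)) =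
        MvPolynomial.monomial a 1 * MvPolynomial.monomial b 1 := by
      rw [MvPolynomial.monomial_mul, one_mul]
    rw [e, map_mul]
    exact hmul _ _ ha hb
  | single x e =>
    rw [← MvPolynomial.X_pow_eq_monomial, map_pow]
    induction e with
    | zero => rw [pow_zero]; exact h1
    | succ k ih => rw [pow_succ]; exact hmul _ _ ih (hX x)

private theorem A1b_sum (P : MvPolynomial (IX ℓ S U) (PadicAlgCl ℓ)) (φ : FU ℓ U) (g : D.Ad) :
    (op P φ).1 g = ∑ m ∈ P.support, P.coeff m * (op (MvPolynomial.monomial m 1) φ).1 g := by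
  classical
  have h1 : op P = ∑ m ∈ P.support, P.coeff m • op (MvPolynomial.monomial m 1) := by
    conv_lhs => rw [← MvPolynomial.support_sum_monomial_coeff P]
    rw [map_sum]
    refine Finset.sum_congr rfl fun m _ => ?_
    rw [← map_smul, MvPolynomial.smul_monomial, smul_eq_mul, mul_one]
  rw [h1, LinearMap.sum_apply, Submodule.coe_sum, Finset.sum_apply]
  rfl

theorem IsOp.norm_le (hop : IsOp op) {P : MvPolynomial (IX ℓ S U) (PadicAlgCl ℓ)} (hP : IntPoly P) (φ : FU ℓ U)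
    {C : ℝ} (hC : 0 ≤ C) (hφ : ∀ g, ‖φ.1 g‖ ≤ C) (g : D.Ad) : ‖(op P φ).1 g‖ ≤ C := by
  rw [A1b_sum]
  refine IsUltrametricDist.norm_sum_le_of_forall_le_of_nonneg hC fun m _ => ?_
  have key : ∀ φ : FU ℓ U, (∀ g, ‖φ.1 g‖ ≤ C) → ∀ g, ‖(op (MvPolynomial.monomial m 1) φ).1 g‖ ≤ C := by
    refine A1b_mono (op := op) (fun T => ∀ φ : FU ℓ U, (∀ g, ‖φ.1 g‖ ≤ C) → ∀ g, ‖(T φ).1 g‖ ≤ C) ?_ ?_ ?_ m
    · intro φ hφ g
      exact hφ g
    · intro x φ hφ g
      rw [hop.X x φ]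
      exact norm_actK_le x.2.2 hC hφ g
    · intro a b ha hb φ hφ g
      exact ha (b φ) (hb φ hφ) g
  rw [norm_mul]
  calc ‖P.coeff m‖ * ‖(op (MvPolynomial.monomial m 1) φ).1 g‖ ≤ 1 * C :=
        mul_le_mul (hP m) (key φ hφ g) (norm_nonneg _) zero_le_one
    _ = C := one_mul C

theorem IsOp.mem_field (hop : IsOp op) {P : MvPolynomial (IX ℓ S U) (PadicAlgCl ℓ)}
    (L : IntermediateField ℚ_[ℓ] (PadicAlgCl ℓ)) (hP : ∀ m, P.coeff m ∈ L) (φ : FU ℓ U)
    (hφ : ∀ g, φ.1 g ∈ L) (g : D.Ad) : (op P φ).1 g ∈ L := by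
  rw [A1b_sum]
  refine sum_mem fun m _ => mul_mem (hP m) ?_
  have key : ∀ φ : FU ℓ U, (∀ g, φ.1 g ∈ L) → ∀ g, (op (MvPolynomial.monomial m 1) φ).1 g ∈ L := by
    refine A1b_mono (op := op) (fun T => ∀ φ : FU ℓ U, (∀ g, φ.1 g ∈ L) → ∀ g, (T φ).1 g ∈ L) ?_ ?_ ?_ m
    · intro φ hφ g
      exact hφ g
    · intro x φ hφ g
      rw [hop.X x φ]
      unfold Hecke.actK Finsupp.sum
      exact sum_mem fun c _ => mul_mem (SubfieldClass.ratCast_mem L _) (hφ _)
    · intro a b ha hb φ hφ g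
      exact ha (b φ) (hb φ hφ) g
  exact key φ hφ g

theorem IsOp.right (hop : IsOp op) (hSl : ∀ v : HeightOneSpectrum (𝓞 F), (ℓ : 𝓞 F) ∈ v.asIdeal → v ∈ S)
    (P : MvPolynomial (IX ℓ S U) (PadicAlgCl ℓ)) (y : D.Ad) (hy : AtEll ℓ y) (φ ψ : FU ℓ U)
    (h : ∀ g, ψ.1 g = φ.1 (g * y)) (g : D.Ad) : (op P ψ).1 g = (op P φ).1 (g * y) := by
  rw [A1b_sum, A1b_sum]
  refine Finset.sum_congr rfl fun m _ => ?_
  have key : ∀ φ ψ : FU ℓ U, (∀ g, ψ.1 g = φ.1 (g * y)) → ∀ g,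
      (op (MvPolynomial.monomial m 1) ψ).1 g = (op (MvPolynomial.monomial m 1) φ).1 (g * y) := by
    refine A1b_mono (op := op) (fun T => ∀ φ ψ : FU ℓ U, (∀ g, ψ.1 g = φ.1 (g * y)) → ∀ g,
      (T ψ).1 g = (T φ).1 (g * y)) ?_ ?_ ?_ m
    · intro φ ψ h g
      exact h g
    · intro x φ ψ h g
      rw [hop.X x φ, hop.X x ψ]
      unfold Hecke.actK Finsupp.sum
      refine Finset.sum_congr rfl fun c _ => ?_
      beta_reduce
      rw [h]
      have hcomm : ((Quotient.out c : locSub D x.1.1) : D.Ad) * y = y * ((Quotient.out c : locSub D x.1.1) : D.Ad) := by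
        refine mul_comm_of_disjoint fun z => ?_
        by_cases hz : z = x.1.1
        · refine Or.inr (hy z fun hl => ?_)
          rw [hz] at hl
          exact x.2.1 (hSl _ hl)
        · exact Or.inl ((Quotient.out c : locSub D x.1.1).2 z hz)
      rw [mul_assoc, hcomm, ← mul_assoc]
    · intro a b ha hb φ ψ h g
      exact ha (b φ) (b ψ) (hb φ ψ h) g
  rw [key φ ψ h g]

theorem IsOp.left (hop : IsOp op) (P : MvPolynomial (IX ℓ S U) (PadicAlgCl ℓ)) (z : D.Ad) (φ ψ : FU ℓ U)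
    (h : ∀ g, ψ.1 g = φ.1 (z * g)) (g : D.Ad) : (op P ψ).1 g = (op P φ).1 (z * g) := by
  rw [A1b_sum, A1b_sum]
  refine Finset.sum_congr rfl fun m _ => ?_
  have key : ∀ φ ψ : FU ℓ U, (∀ g, ψ.1 g = φ.1 (z * g)) → ∀ g,
      (op (MvPolynomial.monomial m 1) ψ).1 g = (op (MvPolynomial.monomial m 1) φ).1 (z * g) := by
    refine A1b_mono (op := op) (fun T => ∀ φ ψ : FU ℓ U, (∀ g, ψ.1 g = φ.1 (z * g)) → ∀ g,
      (T ψ).1 g = (T φ).1 (z * g)) ?_ ?_ ?_ m
    · intro φ ψ h g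
      exact h g
    · intro x φ ψ h g
      rw [hop.X x φ, hop.X x ψ]
      unfold Hecke.actK Finsupp.sum
      refine Finset.sum_congr rfl fun c _ => ?_
      beta_reduce
      rw [h, mul_assoc]
    · intro a b ha hb φ ψ h g
      exact ha (b φ) (b ψ) (hb φ ψ h) g
  rw [key φ ψ h g]

theorem IsOp.eigen (hop : IsOp op) (P : MvPolynomial (IX ℓ S U) (PadicAlgCl ℓ)) (φ : FU ℓ U)
    (c : IX ℓ S U → PadicAlgCl ℓ) (h : IsEF S U φ.1 c) :
    op P φ = MvPolynomial.aeval c P • φ := by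
  have hx : ∀ x, op (MvPolynomial.X x) φ = c x • φ := by
    intro x
    apply Subtype.ext
    rw [hop.X x φ, h x]
    rfl
  induction P using MvPolynomial.induction_on with
  | C a =>
    have e : op (MvPolynomial.C a) = algebraMap (PadicAlgCl ℓ) (Module.End (PadicAlgCl ℓ) (FU ℓ U)) a := by
      rw [← MvPolynomial.algebraMap_eq]
      exact op.commutes a
    rw [e, MvPolynomial.aeval_C, Module.algebraMap_end_apply]
    rfl
  | add p q hp hq => rw [map_add, LinearMap.add_apply, hp, hq, map_add, add_smul]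
  | mul_X p x hp =>
    rw [map_mul, Module.End.mul_apply, hx x, map_smul, hp, map_mul, MvPolynomial.aeval_X, smul_smul, mul_comm]

end Pool.Agent.Lib.MP_666dc0_nt.ZO
end

section

/-!
TASK A2. The limit of the operators `op (t i)` along an ultrafilter.

For `φ` nice with values in `L` (`L₀ ≤ L` without loss of generality: replace `L` by `L ⊔ L₀`) and bounded by `C ≥ 0` the values `(op (t i) φ) g` are in the compact set `{z | z ∈ L ∧ ‖z‖ ≤ C}` (`IsOp.norm_le`, `IsOp.mem_field`; compactness: `isCompact_ball` of `WL/G1`, scaled by a power of `ℓ`: `C ≤ ‖ℓ ^ (-N)‖`,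
the set is a closed subset of `ℓ ^ (-N) • ball`), so the limit along the ultrafilter `𝒰` exists (`IsCompact.ultrafilter_le_nhds`; the ultrafilter `𝒰.map (fun i => (op (t i) φ) g)`), and is unique (`tendsto_nhds_unique`, `𝒰` is `NeBot`). Define `(T φ) g` as this limit (`choose`, or `limUnder`).
All properties pass to the limit: linearity (`Tendsto.add`, `Tendsto.const_mul`), `T φ` is right `U`-invariant, has values in `L` (closed set), is bounded by `C`; the translations by `IsOp.right`, `IsOp.left`; `lim`: by definition.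
-/

open NumberField IsDedekindDomain
open scoped NumberField

namespace Pool.Agent.Lib.MP_666dc0_nt.ZO

open WL

variable {F : Type} [Field F] [NumberField F] {n : ℕ} {D : Datum F n} {ℓ : ℕ} [Fact ℓ.Prime]
  {S : Finset (HeightOneSpectrum (𝓞 F))} {U : Subgroup D.Ad}
  {op : MvPolynomial (IX ℓ S U) (PadicAlgCl ℓ) →ₐ[PadicAlgCl ℓ] Module.End (PadicAlgCl ℓ) (FU ℓ U)}

/-- A nice function as an element of `FU`. -/
noncomputable def toFU (φ : Nice ℓ U) : FU ℓ U := ⟨φ.1, φ.2.right⟩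

private theorem toFU_add (φ ψ : Nice ℓ U) : toFU (φ + ψ) = toFU φ + toFU ψ := rfl

private theorem toFU_smul (c : PadicAlgCl ℓ) (φ : Nice ℓ U) : toFU (c • φ) = c • toFU φ := rfl

/-- The balls of a finite extension of `ℚ_ℓ` are compact. -/
private theorem compact_aux (L : IntermediateField ℚ_[ℓ] (PadicAlgCl ℓ)) [FiniteDimensional ℚ_[ℓ] L]
    (C : ℝ) : IsCompact {z : PadicAlgCl ℓ | z ∈ L ∧ ‖z‖ ≤ C} := by
  let W : Submodule ℚ_[ℓ] (PadicAlgCl ℓ) := Subalgebra.toSubmodule L.toSubalgebra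
  have : FiniteDimensional ℚ_[ℓ] W := (inferInstance : FiniteDimensional ℚ_[ℓ] L)
  have : ProperSpace W := FiniteDimensional.proper ℚ_[ℓ] W
  have h1 : IsCompact (Metric.closedBall (0 : W) C) := isCompact_closedBall _ _
  have h2 : IsCompact ((fun w : W => (w : PadicAlgCl ℓ)) '' Metric.closedBall (0 : W) C) :=
    h1.image continuous_subtype_val
  have h3 : {z : PadicAlgCl ℓ | z ∈ L ∧ ‖z‖ ≤ C} =
      (fun w : W => (w : PadicAlgCl ℓ)) '' Metric.closedBall (0 : W) C := by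
    ext z
    constructor
    · rintro ⟨hz, hn⟩
      refine ⟨⟨z, hz⟩, ?_, rfl⟩
      rw [mem_closedBall_zero_iff]
      exact hn
    · rintro ⟨w, hw, rfl⟩
      rw [mem_closedBall_zero_iff] at hw
      exact ⟨w.2, hw⟩
  rw [h3]
  exact h2

private theorem lim_aux (hop : IsOp op)
    {I : Type} (𝒰 : Ultrafilter I) (t : I → MvPolynomial (IX ℓ S U) (PadicAlgCl ℓ))
    (L₀ : IntermediateField ℚ_[ℓ] (PadicAlgCl ℓ))
    (ht : ∀ i, IntPoly (t i)) (ht' : ∀ i m, (t i).coeff m ∈ L₀) (φ : Nice ℓ U)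
    (L : IntermediateField ℚ_[ℓ] (PadicAlgCl ℓ)) (hL : FiniteDimensional ℚ_[ℓ] L) (hL₀ : L₀ ≤ L)
    (hφ : ∀ g, φ.1 g ∈ L) (C : ℝ) (hC : ∀ g, ‖φ.1 g‖ ≤ C) (g : D.Ad) :
    ∃ z, z ∈ L ∧ ‖z‖ ≤ C ∧
      Filter.Tendsto (fun i => (op (t i) (toFU φ)).1 g) 𝒰 (nhds z) := by
  have hC0 : 0 ≤ C := le_trans (norm_nonneg _) (hC g)
  have hc := compact_aux L C
  have hmem : ∀ i, (op (t i) (toFU φ)).1 g ∈ {z : PadicAlgCl ℓ | z ∈ L ∧ ‖z‖ ≤ C} := fun i =>
    ⟨hop.mem_field L (fun m => hL₀ (ht' i m)) (toFU φ) hφ g, hop.norm_le (ht i) (toFU φ) hC0 hC g⟩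
  have hle : ((𝒰.map (fun i => (op (t i) (toFU φ)).1 g) : Ultrafilter (PadicAlgCl ℓ)) :
      Filter (PadicAlgCl ℓ)) ≤ Filter.principal {z : PadicAlgCl ℓ | z ∈ L ∧ ‖z‖ ≤ C} := by
    rw [Filter.le_principal_iff]
    exact Filter.mem_map.mpr (Filter.univ_mem' hmem)
  obtain ⟨z, hz, hz'⟩ := hc.ultrafilter_le_nhds _ hle
  exact ⟨z, hz.1, hz.2, hz'⟩

theorem exists_limit (hop : IsOp op) (hSl : ∀ v : HeightOneSpectrum (𝓞 F), (ℓ : 𝓞 F) ∈ v.asIdeal → v ∈ S)
    {I : Type} (𝒰 : Ultrafilter I) (t : I → MvPolynomial (IX ℓ S U) (PadicAlgCl ℓ))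
    (L₀ : IntermediateField ℚ_[ℓ] (PadicAlgCl ℓ)) (hL₀ : FiniteDimensional ℚ_[ℓ] L₀)
    (ht : ∀ i, IntPoly (t i)) (ht' : ∀ i m, (t i).coeff m ∈ L₀) :
    ∃ T : Nice ℓ U →ₗ[PadicAlgCl ℓ] Nice ℓ U, IsEqv T ∧
      (∀ (φ : Nice ℓ U) (g : D.Ad), Filter.Tendsto (fun i => (op (t i) (toFU φ)).1 g) 𝒰 (nhds ((T φ).1 g))) ∧
      (∀ (φ : Nice ℓ U) (C : ℝ), (∀ g, ‖φ.1 g‖ ≤ C) → ∀ g, ‖(T φ).1 g‖ ≤ C) ∧
      ∀ (φ : Nice ℓ U) (L : IntermediateField ℚ_[ℓ] (PadicAlgCl ℓ)), FiniteDimensional ℚ_[ℓ] L → L₀ ≤ L →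
        (∀ g, φ.1 g ∈ L) → ∀ g, (T φ).1 g ∈ L := by
  have hex : ∀ (φ : Nice ℓ U) (g : D.Ad),
      ∃ z, Filter.Tendsto (fun i => (op (t i) (toFU φ)).1 g) 𝒰 (nhds z) := by
    intro φ g
    obtain ⟨L, hL, hφL⟩ := φ.2.field
    obtain ⟨C, hC⟩ := φ.2.bdd
    have hfd : FiniteDimensional ℚ_[ℓ] (L ⊔ L₀ : IntermediateField ℚ_[ℓ] (PadicAlgCl ℓ)) := inferInstance
    obtain ⟨z, _, _, hz⟩ := lim_aux hop 𝒰 t L₀ ht ht' φ (L ⊔ L₀) hfd le_sup_right
      (fun g => (le_sup_left : L ≤ L ⊔ L₀) (hφL g)) C hC g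
    exact ⟨z, hz⟩
  choose τ hτ using hex
  have huniq : ∀ (φ : Nice ℓ U) (g : D.Ad) (z : PadicAlgCl ℓ),
      Filter.Tendsto (fun i => (op (t i) (toFU φ)).1 g) 𝒰 (nhds z) → τ φ g = z :=
    fun φ g z hz => tendsto_nhds_unique (hτ φ g) hz
  have hbd : ∀ (φ : Nice ℓ U) (C : ℝ), (∀ g, ‖φ.1 g‖ ≤ C) → ∀ g, ‖τ φ g‖ ≤ C := by
    intro φ C hC g
    have hC0 : 0 ≤ C := le_trans (norm_nonneg _) (hC g)
    exact le_of_tendsto (hτ φ g).norm (Filter.univ_mem'
      (fun i => hop.norm_le (ht i) (toFU φ) hC0 hC g))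
  have hfld : ∀ (φ : Nice ℓ U) (L : IntermediateField ℚ_[ℓ] (PadicAlgCl ℓ)),
      FiniteDimensional ℚ_[ℓ] L → L₀ ≤ L → (∀ g, φ.1 g ∈ L) → ∀ g, τ φ g ∈ L := by
    intro φ L hL hLL hφ g
    obtain ⟨C, hC⟩ := φ.2.bdd
    obtain ⟨z, hz, _, hz'⟩ := lim_aux hop 𝒰 t L₀ ht ht' φ L hL hLL hφ C hC g
    rw [huniq φ g z hz']
    exact hz
  have hnice : ∀ φ : Nice ℓ U, IsNice U (τ φ) := by
    intro φ
    obtain ⟨L, hL, hφL⟩ := φ.2.field
    obtain ⟨C, hC⟩ := φ.2.bdd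
    refine ⟨?_, ⟨L ⊔ L₀, inferInstance, hfld φ (L ⊔ L₀) inferInstance le_sup_right
      (fun g => (le_sup_left : L ≤ L ⊔ L₀) (hφL g))⟩, ⟨C, hbd φ C hC⟩⟩
    intro g u hu
    apply huniq
    have h1 : (fun i => (op (t i) (toFU φ)).1 (g * u)) = fun i => (op (t i) (toFU φ)).1 g := by
      funext i
      exact (op (t i) (toFU φ)).2 g u hu
    rw [h1]
    exact hτ φ g
  let T : Nice ℓ U →ₗ[PadicAlgCl ℓ] Nice ℓ U :=
    { toFun := fun φ => ⟨τ φ, hnice φ⟩
      map_add' := by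
        intro φ ψ
        apply Subtype.ext
        funext g
        change τ (φ + ψ) g = τ φ g + τ ψ g
        apply huniq
        have h1 : (fun i => (op (t i) (toFU (φ + ψ))).1 g) =
            fun i => (op (t i) (toFU φ)).1 g + (op (t i) (toFU ψ)).1 g := by
          funext i
          rw [toFU_add, map_add]
          rfl
        rw [h1]
        exact (hτ φ g).add (hτ ψ g)
      map_smul' := by
        intro c φ
        apply Subtype.ext
        funext g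
        change τ (c • φ) g = c * τ φ g
        apply huniq
        have h1 : (fun i => (op (t i) (toFU (c • φ))).1 g) =
            fun i => c * (op (t i) (toFU φ)).1 g := by
          funext i
          rw [toFU_smul, map_smul]
          rfl
        rw [h1]
        exact (hτ φ g).const_mul c }
  refine ⟨T, ⟨?_, ?_⟩, fun φ g => hτ φ g, hbd, hfld⟩
  · intro y hy φ ψ h g
    change τ ψ g = τ φ (g * y)
    apply huniq
    have h1 : (fun i => (op (t i) (toFU ψ)).1 g) = fun i => (op (t i) (toFU φ)).1 (g * y) := by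
      funext i
      exact hop.right hSl (t i) y hy (toFU φ) (toFU ψ) h g
    rw [h1]
    exact hτ φ (g * y)
  · intro z φ ψ h g
    change τ ψ g = τ φ (z * g)
    apply huniq
    have h1 : (fun i => (op (t i) (toFU ψ)).1 g) = fun i => (op (t i) (toFU φ)).1 (z * g) := by
      funext i
      exact hop.left (t i) z (toFU φ) (toFU ψ) h g
    rw [h1]
    exact hτ φ (z * g)

end Pool.Agent.Lib.MP_666dc0_nt.ZO
end

section

/-!
TASK A3. Limits of the operators `op (t i)` are good operators.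

`T` is the operator of `A2` (`exists_limit`): `IsEqv`, `norm` (also for functions which are not uniformly continuous), the values in `L`.
* (value) if `IsEF S U φ.1 c` then `(op (t i) (toFU φ)).1 g = aeval c (t i) * φ.1 g` (`IsOp.eigen` of A1b). So if `aeval c (t i)` tends to `a` along `𝒰` then `T φ = a • φ` (uniqueness of limits).
* `eigen`: given `c`; if all `φ` with `IsEF S U φ.1 c` are zero, take `a = 0`. Otherwise let `φ₀.1 g₀ ≠ 0`; then `aeval c (t i) * φ₀.1 g₀` converges to `(T φ₀).1 g₀`, so `aeval c (t i)` converges to `a = (T φ₀).1 g₀ / φ₀.1 g₀`, and (value) applies.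
* the last statement: `ε * ‖φ.1 g‖ ≤ ‖aeval c (t i) * φ.1 g‖` for all `i`, pass to the limit (`ge_of_tendsto`/`le_of_tendsto`, `Tendsto.norm`).
-/

open NumberField IsDedekindDomain
open scoped NumberField

namespace Pool.Agent.Lib.MP_666dc0_nt.ZO

open WL

variable {F : Type} [Field F] [NumberField F] {n : ℕ} {D : Datum F n} {ℓ : ℕ} [Fact ℓ.Prime]
  {S : Finset (HeightOneSpectrum (𝓞 F))} {U : Subgroup D.Ad}
  {op : MvPolynomial (IX ℓ S U) (PadicAlgCl ℓ) →ₐ[PadicAlgCl ℓ] Module.End (PadicAlgCl ℓ) (FU ℓ U)}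

theorem exists_goodOp (hop : IsOp op) (hSl : ∀ v : HeightOneSpectrum (𝓞 F), (ℓ : 𝓞 F) ∈ v.asIdeal → v ∈ S)
    (K : ℕ → Subgroup D.Ad) {I : Type} (𝒰 : Ultrafilter I) (t : I → MvPolynomial (IX ℓ S U) (PadicAlgCl ℓ))
    (L₀ : IntermediateField ℚ_[ℓ] (PadicAlgCl ℓ)) (hL₀ : FiniteDimensional ℚ_[ℓ] L₀)
    (ht : ∀ i, IntPoly (t i)) (ht' : ∀ i m, (t i).coeff m ∈ L₀) :
    ∃ T : Nice ℓ U →ₗ[PadicAlgCl ℓ] Nice ℓ U, IsGoodOp K S T ∧
      (∀ (c : IX ℓ S U → PadicAlgCl ℓ) (a : PadicAlgCl ℓ),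
        Filter.Tendsto (fun i => MvPolynomial.aeval c (t i)) 𝒰 (nhds a) →
        ∀ φ : Nice ℓ U, IsEF S U φ.1 c → T φ = a • φ) ∧
      (∀ (φ : Nice ℓ U) (C : ℝ), (∀ g, ‖φ.1 g‖ ≤ C) → ∀ g, ‖(T φ).1 g‖ ≤ C) ∧
      (∀ (φ : Nice ℓ U) (L : IntermediateField ℚ_[ℓ] (PadicAlgCl ℓ)), FiniteDimensional ℚ_[ℓ] L → L₀ ≤ L →
        (∀ g, φ.1 g ∈ L) → ∀ g, (T φ).1 g ∈ L) ∧
      ∀ (c : IX ℓ S U → PadicAlgCl ℓ) (ε : ℝ), (∀ i, ε ≤ ‖MvPolynomial.aeval c (t i)‖) →
        ∀ φ : Nice ℓ U, IsEF S U φ.1 c → ∀ g, ε * ‖φ.1 g‖ ≤ ‖(T φ).1 g‖ := by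
  obtain ⟨T, heqv, hlim, hnorm, hfield⟩ := exists_limit hop hSl 𝒰 t L₀ hL₀ ht ht'
  have hval : ∀ (c : IX ℓ S U → PadicAlgCl ℓ) (φ : Nice ℓ U), IsEF S U φ.1 c → ∀ g,
      Filter.Tendsto (fun i => MvPolynomial.aeval c (t i) * φ.1 g) 𝒰 (nhds ((T φ).1 g)) := by
    intro c φ hφ g
    have h1 := hlim φ g
    have h2 : ∀ i, (op (t i) (toFU φ)).1 g = MvPolynomial.aeval c (t i) * φ.1 g := by
      intro i
      rw [hop.eigen (t i) (toFU φ) c hφ]
      rfl
    simp only [h2] at h1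
    exact h1
  have hv : ∀ (c : IX ℓ S U → PadicAlgCl ℓ) (a : PadicAlgCl ℓ),
      Filter.Tendsto (fun i => MvPolynomial.aeval c (t i)) 𝒰 (nhds a) →
      ∀ φ : Nice ℓ U, IsEF S U φ.1 c → T φ = a • φ := by
    intro c a ha φ hφ
    apply Subtype.ext
    funext g
    exact tendsto_nhds_unique (hval c φ hφ g) (ha.mul_const (φ.1 g))
  refine ⟨T, ⟨heqv, fun φ C _ hC => hnorm φ C hC, ?_⟩, hv, hnorm, hfield, ?_⟩
  · intro c
    by_cases h : ∃ φ₀ : Nice ℓ U, IsEF S U φ₀.1 c ∧ ∃ g₀, φ₀.1 g₀ ≠ 0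
    · obtain ⟨φ₀, hφ₀, g₀, hg₀⟩ := h
      refine ⟨(T φ₀).1 g₀ / φ₀.1 g₀, hv c _ ?_⟩
      have h1 := (hval c φ₀ hφ₀ g₀).div_const (φ₀.1 g₀)
      simp only [mul_div_cancel_right₀ _ hg₀] at h1
      exact h1
    · refine ⟨0, fun φ hφ => ?_⟩
      have h0 : φ = 0 := by
        apply Subtype.ext
        funext g
        by_contra hne
        exact h ⟨φ, hφ, g, hne⟩
      rw [h0, map_zero, smul_zero]
  · intro c ε hε φ hφ g
    refine ge_of_tendsto (hval c φ hφ g).norm (Filter.Eventually.of_forall fun i => ?_)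
    rw [norm_mul]
    exact mul_le_mul_of_nonneg_right (hε i) (norm_nonneg _)

end Pool.Agent.Lib.MP_666dc0_nt.ZO
end

section

/-!
TASK G2. Good operators on vector valued functions.

`TV T hn Φ g j = (T Φ_j) g` where `Φ_j` is the coordinate function.
* `TV_mem`: `tf`: left invariance by `hT.eqv.left (D.toAd γ) Φ_j Φ_j`, right invariance under `U`: `(T Φ_j).2.right`. For `k ∈ K s`: `Φ_j (g * k) = ∑ i, ρ k⁻¹ j i * Φ_i g`, so the function `ψ = ∑ i, ρ k⁻¹ j i • Φ_i` satisfies `ψ g = Φ_j (g * k)`, and `hT.eqv.right k` (`AtEll` from `(hK.level 0).supp`) gives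
  `(T Φ_j) (g * k) = (T ψ) g = ∑ i, ρ k⁻¹ j i * (T Φ_i) g`.
* `TV_norm_le`: `hT.norm` and `isUC_coord`.
* `TV_congr`: let `φ = Φ_j - ∑ p, Φ (bp s p) j • dlt p : Nice ℓ U`. Its value at `g` is `Φ g j - Φ (bp s (cls g, mk (kap g))) j`, of norm `≤ ℓ⁻¹ * C` (`exists_coords`), it is uniformly continuous (`isUC_coord`, `isLC_dlt`, `isUC_of_isLC`: sums of uniformly continuous functions are uniformly continuous). `hT.norm` gives
  `‖(T φ) (bp s p')‖ ≤ ℓ⁻¹ * C`, and `(T φ) (bp s p') = TV T hn Φ (bp s p') j - ∑ p, Φ (bp s p) j * mT p' p`.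
* `TV_eigen`: if all coordinates of `Φ ∈ VF` are eigenfunctions with the same `c'` then `TV T hn Φ = a • Φ`, where `a` is the scalar of `hT.eigen c'`.
-/

open NumberField IsDedekindDomain
open scoped NumberField

namespace Pool.Agent.Lib.MP_666dc0_nt.ZO

open WL

variable {F : Type} [Field F] [NumberField F] {n : ℕ} {D : Datum F n} {ℓ : ℕ} [Fact ℓ.Prime] {d : ℕ}
  {S : Finset (HeightOneSpectrum (𝓞 F))} {U : Subgroup D.Ad} {K : ℕ → Subgroup D.Ad}
  {T : Nice ℓ U →ₗ[PadicAlgCl ℓ] Nice ℓ U} {w s : ℕ} {ρ : K 0 →* Matrix (Fin w) (Fin w) (PadicAlgCl ℓ)}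

/-- The value at `g`. -/
private noncomputable def G2_ev (g : D.Ad) : Nice ℓ U →ₗ[PadicAlgCl ℓ] PadicAlgCl ℓ where
  toFun φ := φ.1 g
  map_add' _ _ := rfl
  map_smul' _ _ := rfl

private theorem G2_ev_apply (g : D.Ad) (φ : Nice ℓ U) : G2_ev g φ = φ.1 g := rfl

private theorem G2_isUC_sub (hK : IsTow ℓ U K) {φ ψ : D.Ad → PadicAlgCl ℓ} (hφ : IsUC U K φ)
    (hψ : IsUC U K ψ) : IsUC U K (fun g => φ g - ψ g) := by
  refine ⟨⟨fun γ g => ?_, fun g u hu => ?_⟩, fun ε hε => ?_⟩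
  · rw [hφ.tf.left, hψ.tf.left]
  · rw [hφ.tf.right g u hu, hψ.tf.right g u hu]
  · obtain ⟨s₁, h₁⟩ := hφ.cont (ε / 2) (half_pos hε)
    obtain ⟨s₂, h₂⟩ := hψ.cont (ε / 2) (half_pos hε)
    refine ⟨max s₁ s₂, fun k hk g => ?_⟩
    have e₁ := h₁ k (hK.K_le (le_max_left s₁ s₂) hk) g
    have e₂ := h₂ k (hK.K_le (le_max_right s₁ s₂) hk) g
    have e₃ : φ (g * k) - ψ (g * k) - (φ g - ψ g) = (φ (g * k) - φ g) - (ψ (g * k) - ψ g) := by
      ring
    rw [e₃]
    refine (norm_sub_le _ _).trans ?_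
    linarith

theorem TV_mem (hT : IsGoodOp K S T) (hK : IsTow ℓ U K)
    (hn : ∀ (Φ : VF U K ρ s) (j : Fin w), IsNice U (fun g => Φ.1 g j)) (Φ : VF U K ρ s) :
    TV T hn Φ ∈ VF U K ρ s := by
  have hΦ : IsVF U K ρ s Φ.1 := Φ.2
  refine ⟨⟨fun γ g => ?_, fun g u hu => ?_⟩, fun g k hk => ?_⟩
  · funext j
    have h := hT.eqv.left (D.toAd γ) (vc hn j Φ) (vc hn j Φ)
      (fun g' => (congrFun (hΦ.tf.left γ g') j).symm) g
    exact h.symm
  · funext j
    exact (T (vc hn j Φ)).2.right g u hu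
  · funext j
    have hat : AtEll ℓ (k : D.Ad) := (hK.level 0).supp (k : D.Ad) k.2
    let ψ : Nice ℓ U := ∑ i, ρ k⁻¹ j i • vc hn i Φ
    have hψ : ∀ g', ψ.1 g' = (vc hn j Φ).1 (g' * k) := by
      intro g'
      have h1 : ψ.1 g' = G2_ev g' ψ := rfl
      have h2 : (vc hn j Φ).1 (g' * k) = Φ.1 (g' * k) j := rfl
      rw [h1, h2, hΦ.eqv g' k hk]
      simp only [ψ, map_sum, map_smul, smul_eq_mul]
      rfl
    have h3 := hT.eqv.right (k : D.Ad) hat (vc hn j Φ) ψ hψ g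
    have h4 : (T ψ).1 g = G2_ev g (T ψ) := rfl
    have h5 : G2_ev g (T ψ) = ∑ i, ρ k⁻¹ j i * (T (vc hn i Φ)).1 g := by
      simp only [ψ, map_sum, map_smul, smul_eq_mul]
      rfl
    exact h3.symm.trans (h4.trans h5)

theorem TV_norm_le (c : Chart U K) (hT : IsGoodOp K S T) (hU : IsTame ℓ U) (hK : IsTow ℓ U K)
    (hρ : IsSmallRep K ρ) (hn : ∀ (Φ : VF U K ρ s) (j : Fin w), IsNice U (fun g => Φ.1 g j)) (Φ : VF U K ρ s)
    (C : ℝ) (hC : ∀ g j, ‖Φ.1 g j‖ ≤ C) (g : D.Ad) (j : Fin w) : ‖TV T hn Φ g j‖ ≤ C :=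
  hT.norm (vc hn j Φ) C (isUC_coord c hU hK hρ Φ j) (fun g' => hC g' j) g

open Classical in
private theorem G2_sum [Fintype (PP K s)] (c : Chart U K) (f : c.R × PP K s → PadicAlgCl ℓ) (g : D.Ad) :
    ∑ p : c.R × PP K s, f p * (c.dlt ℓ s p).1 g = c.pull s f g := by
  have h1 : ∀ p : c.R × PP K s, (c.dlt ℓ s p).1 g =
      if (c.cls g, (QuotientGroup.mk (c.kap g) : PP K s)) = p then 1 else 0 := fun p => rfl
  have h2 : ∀ p : c.R × PP K s, f p * (c.dlt ℓ s p).1 g =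
      if (c.cls g, (QuotientGroup.mk (c.kap g) : PP K s)) = p then f p else 0 := by
    intro p
    rw [h1 p]
    split_ifs
    · rw [mul_one]
    · rw [mul_zero]
  rw [Finset.sum_congr rfl fun p _ => h2 p, Finset.sum_ite_eq]
  simp only [Finset.mem_univ, if_true]
  rfl

theorem TV_congr [Fintype (PP K s)] (c : Chart U K) (hT : IsGoodOp K S T) (hU : IsTame ℓ U)
    (hK : IsTow ℓ U K) (hρ : IsSmallRep K ρ)
    (hn : ∀ (Φ : VF U K ρ s) (j : Fin w), IsNice U (fun g => Φ.1 g j)) (Φ : VF U K ρ s)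
    (C : ℝ) (hC : ∀ p j, ‖Φ.1 (c.bp s p) j‖ ≤ C) (p' : c.R × PP K s) (j : Fin w) :
    ‖TV T hn Φ (c.bp s p') j - ∑ p : c.R × PP K s, mT c T s p' p * Φ.1 (c.bp s p) j‖ ≤ (ℓ : ℝ)⁻¹ * C := by
  obtain ⟨E, hE1, hE2⟩ := exists_coords c hU hK hρ s
  have hb := hE2 Φ C (fun p i => by rw [hE1]; exact hC p i)
  let φ : Nice ℓ U := vc hn j Φ - ∑ p : c.R × PP K s, Φ.1 (c.bp s p) j • c.dlt ℓ s p
  have hφ : ∀ g, φ.1 g = Φ.1 g j - c.pull s (fun p => Φ.1 (c.bp s p) j) g := by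
    intro g
    have h1 : φ.1 g = G2_ev g φ := rfl
    rw [h1, ← G2_sum c]
    simp only [φ, map_sub, map_sum, map_smul, smul_eq_mul]
    rfl
  have hφ' : φ.1 = fun g => Φ.1 g j - c.pull s (fun p => Φ.1 (c.bp s p) j) g := funext hφ
  have hle : K s ≤ K 0 := hK.K_le (Nat.zero_le s)
  have hUC : IsUC U K φ.1 := by
    rw [hφ']
    exact G2_isUC_sub hK (isUC_coord c hU hK hρ Φ j) (isUC_of_isLC (c.isLC_pull s hle _))
  have hbd : ∀ g, ‖φ.1 g‖ ≤ (ℓ : ℝ)⁻¹ * C := by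
    intro g
    rw [hφ g]
    have h2 := (hb g j).2
    rw [hE1] at h2
    exact h2
  have h3 := hT.norm φ _ hUC hbd (c.bp s p')
  have h4 : (T φ).1 (c.bp s p') =
      TV T hn Φ (c.bp s p') j - ∑ p : c.R × PP K s, mT c T s p' p * Φ.1 (c.bp s p) j := by
    have h5 : (T φ).1 (c.bp s p') = G2_ev (c.bp s p') (T φ) := rfl
    rw [h5]
    simp only [φ, map_sub, map_sum, map_smul, smul_eq_mul]
    refine congrArg₂ (· - ·) rfl (Finset.sum_congr rfl fun p _ => ?_)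
    exact mul_comm _ _
  rw [← h4]
  exact h3

theorem TV_eigen (hn : ∀ (Φ : VF U K ρ s) (j : Fin w), IsNice U (fun g => Φ.1 g j)) (Φ : VF U K ρ s)
    {c' : IX ℓ S U → PadicAlgCl ℓ} (hΦ : ∀ j, IsEF S U (fun g => Φ.1 g j) c') {a : PadicAlgCl ℓ}
    (ha : ∀ φ : Nice ℓ U, IsEF S U φ.1 c' → T φ = a • φ) : TV T hn Φ = a • Φ.1 := by
  funext g j
  have h1 : T (vc hn j Φ) = a • vc hn j Φ := ha (vc hn j Φ) (hΦ j)
  have h2 : TV T hn Φ g j = (T (vc hn j Φ)).1 g := rfl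
  rw [h2, h1]
  rfl

end Pool.Agent.Lib.MP_666dc0_nt.ZO
end

section

/-!
TASK G4. The number of the eigenvalues of norm `1` on vector valued functions.

`X = c.R × PP K s`, `𝕂 = PadicAlgCl ℓ`, `E : VF ≃ (X → Fin w → 𝕂)` from `exists_coords` (Q4), and `E' : VF ≃ (X × Fin w → 𝕂)` its composition with uncurrying. Let `𝒯 : VF → VF` be `TV T hn` (`TV_mem`) and `H` the matrix of `E' 𝒯 E'⁻¹` (`LinearMap.toMatrix'`), so `H.mulVec (E' Φ) = E' (𝒯 Φ)`.
For the basis vector `(p, j)` let `Φ = E'⁻¹ (Pi.single (p, j) 1)`: `‖Φ (bp p'') i‖ ≤ 1`, so all `‖Φ g i‖ ≤ 1` (`exists_coords`), `‖H (p', i) (p, j)‖ = ‖𝒯 Φ (bp p') i‖ ≤ 1` (`TV_norm_le`), and by `TV_congr` (`C = 1`) `‖H (p', i) (p, j) - (if i = j then mT c T s p' p else 0)‖ ≤ ℓ⁻¹ < 1`.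
So `(H.map r.app) (p', i) (p, j) = if i = j then r.app (mT c T s p' p) else 0` (`Red.app_eq`, `norm_mT_le`), and `Matrix.toLin' (H.map r.app)` and `Matrix.toLin' ((mT c T s).map r.app)` are related as in `srank_copies` (P2): `srank (toLin' (H.map r.app)) = w * srank (toLin' ((mT c T s).map r.app))`.
Let `W₁`, `W₂ ≤ (X × Fin w → 𝕂)` be the spans of the eigenvectors of `H` with eigenvalues of norm `1`, `< 1`. `E'` maps `W` into `W₁` and `W'` into `W₂` (`h1`, `h2`), so `W₁ ⊔ W₂ = ⊤` (`hW`), and `L2` (`finrank_unit_eq_srank`) gives `finrank W₁ = srank (toLin' (H.map r.app))`.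
Finally `finrank W = finrank W₁`: `W₁ ⊓ W₂ = ⊥` (eigenspaces for different eigenvalues are independent, `Module.End.eigenspaces_iSupIndep`), so `finrank W₁ + finrank W₂ = dim = finrank VF ≤ finrank W + finrank W'`, and `finrank W ≤ finrank W₁`, `finrank W' ≤ finrank W₂`.
-/

open NumberField IsDedekindDomain
open scoped NumberField

namespace Pool.Agent.Lib.MP_666dc0_nt.ZO

open WL

/-- the span of the eigenvectors with eigenvalues in a set -/
private def eigSpan {𝕂 : Type} [Field 𝕂] {Y : Type} [Fintype Y] (H : Matrix Y Y 𝕂) (A : Set 𝕂) :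
    Submodule 𝕂 (Y → 𝕂) :=
  Submodule.span 𝕂 {v | ∃ a : 𝕂, a ∈ A ∧ H.mulVec v = a • v}

private theorem eigSpan_disjoint {𝕂 : Type} [Field 𝕂] {Y : Type} [Fintype Y] [DecidableEq Y]
    (H : Matrix Y Y 𝕂) {A B : Set 𝕂} (h : Disjoint A B) : Disjoint (eigSpan H A) (eigSpan H B) := by
  have key : ∀ A : Set 𝕂, eigSpan H A ≤ ⨆ a ∈ A, Module.End.eigenspace (Matrix.toLin' H) a := by
    intro A
    refine Submodule.span_le.2 ?_
    rintro v ⟨a, ha, hv⟩
    have h1 : v ∈ Module.End.eigenspace (Matrix.toLin' H) a := by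
      rw [Module.End.mem_eigenspace_iff, Matrix.toLin'_apply, hv]
    exact (le_iSup₂_of_le a ha le_rfl : Module.End.eigenspace (Matrix.toLin' H) a ≤ _) h1
  exact (Module.End.eigenspaces_iSupIndep (Matrix.toLin' H)).disjoint_biSup_biSup h |>.mono
    (key A) (key B)

private theorem maps_to {𝕂 : Type} [Field 𝕂] {Y : Type} [Fintype Y] [DecidableEq Y] {N : Type}
    [AddCommGroup N] [Module 𝕂 N] {V : Submodule 𝕂 N} (E : V ≃ₗ[𝕂] (Y → 𝕂)) (τ : V →ₗ[𝕂] N)
    (hτ : ∀ Φ, τ Φ ∈ V) (H : Matrix Y Y 𝕂) (hH : ∀ Φ, H.mulVec (E Φ) = E ⟨τ Φ, hτ Φ⟩) (A : Set 𝕂)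
    (W : Submodule 𝕂 N)
    (h1 : W ≤ Submodule.span 𝕂 {Φ | ∃ (hΦ : Φ ∈ V) (a : 𝕂), a ∈ A ∧ τ ⟨Φ, hΦ⟩ = a • Φ}) :
    W ≤ ((eigSpan H A).comap E.toLinearMap).map V.subtype := by
  refine h1.trans (Submodule.span_le.2 ?_)
  rintro Φ ⟨hΦ, a, ha, h⟩
  refine ⟨⟨Φ, hΦ⟩, ?_, rfl⟩
  change E ⟨Φ, hΦ⟩ ∈ eigSpan H A
  refine Submodule.subset_span ⟨a, ha, ?_⟩
  rw [hH, ← map_smul]
  congr 1
  exact Subtype.ext h

private theorem main_part {𝕂 : Type} [Field 𝕂] {Y : Type} [Fintype Y] [DecidableEq Y] {N : Type}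
    [AddCommGroup N] [Module 𝕂 N] {V : Submodule 𝕂 N} (E : V ≃ₗ[𝕂] (Y → 𝕂)) (τ : V →ₗ[𝕂] N)
    (hτ : ∀ Φ, τ Φ ∈ V) (H : Matrix Y Y 𝕂) (hH : ∀ Φ, H.mulVec (E Φ) = E ⟨τ Φ, hτ Φ⟩) (A B : Set 𝕂)
    (hAB : Disjoint A B)
    (W W' : Submodule 𝕂 N) (hW : W ⊔ W' = V)
    (h1 : W ≤ Submodule.span 𝕂 {Φ | ∃ (hΦ : Φ ∈ V) (a : 𝕂), a ∈ A ∧ τ ⟨Φ, hΦ⟩ = a • Φ})
    (h2 : W' ≤ Submodule.span 𝕂 {Φ | ∃ (hΦ : Φ ∈ V) (a : 𝕂), a ∈ B ∧ τ ⟨Φ, hΦ⟩ = a • Φ}) :
    eigSpan H A ⊔ eigSpan H B = ⊤ ∧ Module.finrank 𝕂 W = Module.finrank 𝕂 (eigSpan H A) := by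
  have k1 := maps_to E τ hτ H hH A W h1
  have k2 := maps_to E τ hτ H hH B W' h2
  have htop : eigSpan H A ⊔ eigSpan H B = ⊤ := by
    rw [eq_top_iff]
    intro v _
    have hv : (E.symm v).1 ∈ W ⊔ W' := hW ▸ (E.symm v).2
    have hv2 := sup_le_sup k1 k2 hv
    rw [← Submodule.map_sup] at hv2
    obtain ⟨Φ, hΦ, hΦ'⟩ := hv2
    have hΦ2 : Φ = E.symm v := Subtype.ext hΦ'
    have hle : (eigSpan H A).comap E.toLinearMap ⊔ (eigSpan H B).comap E.toLinearMap ≤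
        (eigSpan H A ⊔ eigSpan H B).comap E.toLinearMap :=
      sup_le (Submodule.comap_mono le_sup_left) (Submodule.comap_mono le_sup_right)
    have h3 : E Φ ∈ eigSpan H A ⊔ eigSpan H B := hle hΦ
    rwa [hΦ2, LinearEquiv.apply_symm_apply] at h3
  refine ⟨htop, ?_⟩
  have hfin : FiniteDimensional 𝕂 V := LinearEquiv.finiteDimensional E.symm
  have hWV : W ≤ V := hW ▸ le_sup_left
  have hWV' : W' ≤ V := hW ▸ le_sup_right
  have hfW : FiniteDimensional 𝕂 W := Submodule.finiteDimensional_of_le hWV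
  have hfW' : FiniteDimensional 𝕂 W' := Submodule.finiteDimensional_of_le hWV'
  have e : ∀ C : Set 𝕂, Module.finrank 𝕂 (((eigSpan H C).comap E.toLinearMap).map V.subtype) =
      Module.finrank 𝕂 (eigSpan H C) := by
    intro C
    rw [Submodule.finrank_map_subtype_eq]
    have h4 : (eigSpan H C).comap E.toLinearMap = (eigSpan H C).map E.symm.toLinearMap :=
      Submodule.comap_equiv_eq_map_symm E _
    rw [h4]
    exact LinearEquiv.finrank_map_eq E.symm _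
  have f : ∀ C : Set 𝕂, FiniteDimensional 𝕂 (((eigSpan H C).comap E.toLinearMap).map V.subtype :
      Submodule 𝕂 N) := fun C => Submodule.finiteDimensional_of_le (Submodule.map_subtype_le V _)
  have hfA := f A
  have hfB := f B
  have l1 : Module.finrank 𝕂 W ≤ Module.finrank 𝕂 (eigSpan H A) :=
    (Submodule.finrank_mono k1).trans (e A).le
  have l2 : Module.finrank 𝕂 W' ≤ Module.finrank 𝕂 (eigSpan H B) :=
    (Submodule.finrank_mono k2).trans (e B).le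
  have l3 : Module.finrank 𝕂 (eigSpan H A) + Module.finrank 𝕂 (eigSpan H B) =
      Module.finrank 𝕂 V := by
    rw [← Submodule.finrank_sup_add_finrank_inf_eq, (eigSpan_disjoint H hAB).eq_bot, htop,
      finrank_bot, add_zero, finrank_top]
    exact (LinearEquiv.finrank_eq E).symm
  have l4 : Module.finrank 𝕂 V ≤ Module.finrank 𝕂 W + Module.finrank 𝕂 W' := by
    rw [← hW]
    exact Submodule.finrank_add_le_finrank_add_finrank W W'
  omega

theorem finrank_unit {F : Type} [Field F] [NumberField F] {n : ℕ} {D : Datum F n} {ℓ : ℕ} [Fact ℓ.Prime]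
    {S : Finset (HeightOneSpectrum (𝓞 F))} {U : Subgroup D.Ad} {K : ℕ → Subgroup D.Ad}
    {T : Nice ℓ U →ₗ[PadicAlgCl ℓ] Nice ℓ U} {w s : ℕ} {ρ : K 0 →* Matrix (Fin w) (Fin w) (PadicAlgCl ℓ)}
    [Fintype (PP K s)] [DecidableEq (PP K s)] {k : Type} [Field k] (r : Red ℓ k) (c : Chart U K)
    (hT : IsGoodOp K S T) (hU : IsTame ℓ U) (hK : IsTow ℓ U K) (hρ : IsSmallRep K ρ)
    (hn : ∀ (Φ : VF U K ρ s) (j : Fin w), IsNice U (fun g => Φ.1 g j))
    (W W' : Submodule (PadicAlgCl ℓ) (D.Ad → Fin w → PadicAlgCl ℓ)) (hW : W ⊔ W' = VF U K ρ s)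
    (h1 : W ≤ Submodule.span (PadicAlgCl ℓ) {Φ | ∃ (hΦ : Φ ∈ VF U K ρ s) (a : PadicAlgCl ℓ), ‖a‖ = 1 ∧
      TV T hn ⟨Φ, hΦ⟩ = a • Φ})
    (h2 : W' ≤ Submodule.span (PadicAlgCl ℓ) {Φ | ∃ (hΦ : Φ ∈ VF U K ρ s) (a : PadicAlgCl ℓ), ‖a‖ < 1 ∧
      TV T hn ⟨Φ, hΦ⟩ = a • Φ}) :
    Module.finrank (PadicAlgCl ℓ) W = w * srank (Matrix.toLin' ((mT c T s).map r.app)) := by
  obtain ⟨E₀, hE₀, hEn⟩ := exists_coords c hU hK hρ s
  let E : VF U K ρ s ≃ₗ[PadicAlgCl ℓ] ((c.R × PP K s) × Fin w → PadicAlgCl ℓ) :=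
    E₀.trans (LinearEquiv.curry (PadicAlgCl ℓ) (PadicAlgCl ℓ) (c.R × PP K s) (Fin w)).symm
  have hE : ∀ (Φ : VF U K ρ s) (q : (c.R × PP K s) × Fin w), E Φ q = Φ.1 (c.bp s q.1) q.2 :=
    fun Φ q => hE₀ Φ q.1 q.2
  have hmem : ∀ Φ, TV T hn Φ ∈ VF U K ρ s := TV_mem hT hK hn
  let L : ((c.R × PP K s) × Fin w → PadicAlgCl ℓ) →ₗ[PadicAlgCl ℓ]
      ((c.R × PP K s) × Fin w → PadicAlgCl ℓ) :=
    E.toLinearMap ∘ₗ ((TV T hn).codRestrict _ hmem) ∘ₗ E.symm.toLinearMap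
  let H := LinearMap.toMatrix' L
  have hH : ∀ Φ, H.mulVec (E Φ) = E ⟨TV T hn Φ, hmem Φ⟩ := by
    intro Φ
    change (LinearMap.toMatrix' L).mulVec (E Φ) = _
    rw [LinearMap.toMatrix'_mulVec]
    change E ((TV T hn).codRestrict _ hmem (E.symm (E Φ))) = _
    rw [LinearEquiv.symm_apply_apply]
    rfl
  have hent : ∀ q' q : (c.R × PP K s) × Fin w, H q' q =
      TV T hn (E.symm (Pi.single q 1)) (c.bp s q'.1) q'.2 := fun q' q => by
    change LinearMap.toMatrix' L q' q = _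
    rw [LinearMap.toMatrix'_apply]
    exact hE _ q'
  have hsingle : ∀ (q : (c.R × PP K s) × Fin w) (p : c.R × PP K s) (i : Fin w),
      (E.symm (Pi.single q 1)).1 (c.bp s p) i = if (p, i) = q then 1 else 0 := fun q p i => by
    rw [← hE (E.symm (Pi.single q 1)) (p, i), LinearEquiv.apply_symm_apply, Pi.single_apply]
  have hb0 : ∀ (q : (c.R × PP K s) × Fin w) (p : c.R × PP K s) (i : Fin w),
      ‖(E.symm (Pi.single q 1)).1 (c.bp s p) i‖ ≤ 1 := fun q p i => by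
    rw [hsingle]
    split_ifs
    · rw [norm_one]
    · rw [norm_zero]
      exact zero_le_one
  have hb : ∀ (q : (c.R × PP K s) × Fin w) (g : D.Ad) (i : Fin w),
      ‖(E.symm (Pi.single q 1)).1 g i‖ ≤ 1 := fun q g i =>
    (hEn (E.symm (Pi.single q 1)) 1 (fun p i => by rw [hE₀]; exact hb0 q p i) g i).1
  have hH1 : ∀ q' q, ‖H q' q‖ ≤ 1 := fun q' q => by
    rw [hent]
    exact TV_norm_le c hT hU hK hρ hn _ 1 (hb q) _ _
  have hℓ : ((ℓ : ℝ))⁻¹ < 1 := inv_lt_one_of_one_lt₀ (by exact_mod_cast (Fact.out : ℓ.Prime).one_lt)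
  have hcongr : ∀ q' q : (c.R × PP K s) × Fin w,
      ‖H q' q - (if q'.2 = q.2 then mT c T s q'.1 q.1 else 0)‖ < 1 := by
    intro q' q
    have h3 := TV_congr c hT hU hK hρ hn (E.symm (Pi.single q 1)) 1 (hb0 q) q'.1 q'.2
    have h4 : ∑ p : c.R × PP K s, mT c T s q'.1 p * (E.symm (Pi.single q 1)).1 (c.bp s p) q'.2 =
        if q'.2 = q.2 then mT c T s q'.1 q.1 else 0 := by
      simp only [hsingle]
      by_cases h : q'.2 = q.2
      · rw [if_pos h, Finset.sum_eq_single q.1]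
        · have e1 : (q.1, q'.2) = q := Prod.ext rfl h
          rw [if_pos e1, mul_one]
        · intro p _ hp
          have e2 : ¬ (p, q'.2) = q := fun e => hp (congrArg Prod.fst e)
          rw [if_neg e2, mul_zero]
        · exact fun h => absurd (Finset.mem_univ _) h
      · rw [if_neg h]
        refine Finset.sum_eq_zero fun p _ => ?_
        have e2 : ¬ (p, q'.2) = q := fun e => by
          have e3 := congrArg (fun z : (c.R × PP K s) × Fin w => z.2) e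
          exact h e3
        rw [if_neg e2, mul_zero]
    rw [h4, ← hent] at h3
    exact h3.trans_lt (by rw [mul_one]; exact hℓ)
  have hred : ∀ q' q : (c.R × PP K s) × Fin w,
      r.app (H q' q) = if q'.2 = q.2 then r.app (mT c T s q'.1 q.1) else 0 := by
    intro q' q
    rw [r.app_eq (hH1 q' q) (hcongr q' q)]
    split_ifs
    · rfl
    · exact r.app_zero
  have hcop : srank (Matrix.toLin' (H.map r.app)) = w * srank (Matrix.toLin' ((mT c T s).map r.app)) := by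
    refine srank_copies k (c.R × PP K s) w _ _ fun f p => ?_
    rw [Matrix.toLin'_apply, Matrix.toLin'_apply, Matrix.mulVec, Matrix.mulVec, dotProduct, dotProduct,
      Fintype.sum_prod_type]
    refine Finset.sum_congr rfl fun x _ => ?_
    simp only [Matrix.map_apply, hred]
    rw [Finset.sum_eq_single p.2]
    · rw [if_pos rfl]
    · intro j _ hj
      rw [if_neg (fun e => hj e.symm), zero_mul]
    · exact fun h => absurd (Finset.mem_univ _) h
  have hdis : Disjoint {a : PadicAlgCl ℓ | ‖a‖ = 1} {a : PadicAlgCl ℓ | ‖a‖ < 1} :=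
    Set.disjoint_left.2 fun a (ha : ‖a‖ = 1) (hb : ‖a‖ < 1) => absurd ha hb.ne
  obtain ⟨m1, m2⟩ := main_part E (TV T hn) hmem H hH _ _ hdis W W' hW h1 h2
  rw [m2, ← hcop]
  exact finrank_unit_eq_srank r H hH1 (eigSpan H {a | ‖a‖ = 1}) (eigSpan H {a | ‖a‖ < 1}) rfl rfl m1

end Pool.Agent.Lib.MP_666dc0_nt.ZO
end

section

/-!
TASK M4a. Uniformly continuous functions are approximated by locally constant functions.

Given `φ : Nice ℓ U` with `IsUC U K φ.1` and `ε > 0` let `s` belong to `ε` in `cont`, and `φ' = ∑ p, φ.1 (bp s p) • dlt p`, with the values `φ' g = φ.1 (bp s (cls g, mk (kap g)))`. By `Chart.exists_split_bp` `pt (cls g) * kap g = bp s (..) * k` with `k ∈ K s`, so with `Chart.apply_eq` `‖φ.1 g - φ' g‖ = ‖φ.1 (bp .. * k) - φ.1 (bp ..)‖ ≤ ε`.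
-/

open NumberField IsDedekindDomain
open scoped NumberField

namespace Pool.Agent.Lib.MP_666dc0_nt.ZO

open WL

variable {F : Type} [Field F] [NumberField F] {n : ℕ} {D : Datum F n} {ℓ : ℕ} [Fact ℓ.Prime] {d : ℕ}
  {S : Finset (HeightOneSpectrum (𝓞 F))} {U : Subgroup D.Ad} {K : ℕ → Subgroup D.Ad}

theorem exists_approx (c : Chart U K) (hU : IsTame ℓ U) (hK : IsTow ℓ U K) {φ : Nice ℓ U}
    (hφ : IsUC U K φ.1) {ε : ℝ} (hε : 0 < ε) :
    ∃ s, ∀ (_ : Fintype (PP K s)) (g : D.Ad),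
      ‖(φ - ∑ p : c.R × PP K s, φ.1 (c.bp s p) • c.dlt ℓ s p).1 g‖ ≤ ε := by
  obtain ⟨s, hs⟩ := hφ.cont ε hε
  refine ⟨s, fun hfin g => ?_⟩
  classical
  set q : c.R × PP K s := (c.cls g, QuotientGroup.mk (c.kap g)) with hq
  have hval : (φ - ∑ p : c.R × PP K s, φ.1 (c.bp s p) • c.dlt ℓ s p).1 g
      = φ.1 g - φ.1 (c.bp s q) := by
    have h1 : (φ - ∑ p : c.R × PP K s, φ.1 (c.bp s p) • c.dlt ℓ s p).1
        = φ.1 - ∑ p : c.R × PP K s, φ.1 (c.bp s p) • (c.dlt ℓ s p).1 := by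
      rw [Submodule.coe_sub, Submodule.coe_sum]
      rfl
    rw [h1, Pi.sub_apply, Finset.sum_apply]
    congr 1
    rw [Finset.sum_eq_single q]
    · have h2 : (c.dlt ℓ s q).1 g = 1 := by
        change c.pull s (fun p' => if p' = q then 1 else 0) g = 1
        unfold Chart.pull
        beta_reduce
        rw [if_pos hq.symm]
      rw [Pi.smul_apply, h2, smul_eq_mul, mul_one]
    · intro p _ hp
      have h2 : (c.dlt ℓ s p).1 g = 0 := by
        change c.pull s (fun p' => if p' = p then 1 else 0) g = 0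
        unfold Chart.pull
        beta_reduce
        rw [if_neg (fun h => hp (h.symm.trans hq.symm))]
      rw [Pi.smul_apply, h2, smul_zero]
    · intro h
      exact absurd (Finset.mem_univ q) h
  rw [hval, Chart.apply_eq c hU (hK.level 0).supp hφ.tf g]
  obtain ⟨k, hk, he⟩ := c.exists_split_bp s g
  rw [he]
  exact hs k hk _

end Pool.Agent.Lib.MP_666dc0_nt.ZO
end

section

/-!
# The lower bound for the dimension of the space which is not killed

The operator `TV T hn` on the vector valued functions of weight `Q` is zero on the part `W'` spanned by the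
eigenfunctions which are killed; its rank is at least `finrank Q` times the rank of the reduced matrix
`(mT c T s).map r.app`, by reduction.
-/

open NumberField IsDedekindDomain
open scoped NumberField

namespace Pool.Agent.Lib.MP_666dc0_nt.ZO

open WL

private theorem M6_rank (k : Type) [Field k] {X : Type} [Fintype X] [DecidableEq X]
    (h : (X → k) →ₗ[k] (X → k)) :
    ∃ (κ : Type) (_ : Fintype κ) (a : κ → X),
      Fintype.card κ = Module.finrank k (LinearMap.range h) ∧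
      LinearIndependent k fun t => h (Pi.single (a t) (1 : k)) := by
  obtain ⟨κ, a, ha, hsp, hli⟩ := exists_linearIndependent' k (fun y : X => h (Pi.single y (1 : k)))
  have hfin : Finite κ := Finite.of_injective a ha
  obtain ⟨hκ⟩ := nonempty_fintype κ
  have hrange : Submodule.span k (Set.range fun y : X => h (Pi.single y (1 : k))) = LinearMap.range h := by
    have h1 : (Set.range fun y : X => h (Pi.single y (1 : k))) = h '' Set.range (Pi.basisFun k X) := by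
      rw [← Set.range_comp]
      congr 1
      funext y
      rw [Function.comp_apply, Pi.basisFun_apply]
    rw [h1, Submodule.span_image, Module.Basis.span_eq, LinearMap.range_eq_map]
  refine ⟨κ, inferInstance, a, ?_, hli⟩
  rw [← hrange, ← hsp]
  exact (finrank_span_eq_card hli).symm

private theorem M6_li {k : Type} [Field k] {κ X : Type} [Fintype κ] {w : ℕ} (β : κ → X → k)
    (hβ : LinearIndependent k β) :
    LinearIndependent k (fun (p : κ × Fin w) (q : X × Fin w) => if q.2 = p.2 then β p.1 q.1 else 0) := by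
  rw [Fintype.linearIndependent_iff] at hβ ⊢
  rintro g hg ⟨t₀, j₀⟩
  refine hβ (fun t => g (t, j₀)) ?_ t₀
  funext x
  have h1 := congrFun hg (x, j₀)
  rw [Finset.sum_apply, Pi.zero_apply, Fintype.sum_prod_type] at h1
  rw [Finset.sum_apply, Pi.zero_apply]
  rw [← h1]
  refine Finset.sum_congr rfl fun t _ => ?_
  rw [Finset.sum_eq_single j₀]
  · simp
  · intro j _ hj
    simp [Ne.symm hj]
  · intro h
    exact absurd (Finset.mem_univ _) h

theorem finrank_ge {F : Type} [Field F] [NumberField F] {n : ℕ} {D : Datum F n} {ℓ : ℕ} [Fact ℓ.Prime]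
    {S : Finset (HeightOneSpectrum (𝓞 F))} {U : Subgroup D.Ad} {K : ℕ → Subgroup D.Ad}
    [IsTotallyReal F] (hD : IsTotPosDef D.q)
    (hSl : ∀ v : HeightOneSpectrum (𝓞 F), (ℓ : 𝓞 F) ∈ v.asIdeal → v ∈ S) (hU : IsTame ℓ U)
    (hUS : ∀ v, v ∉ S → IsGoodAt U v) {ι : ℂ ≃+* PadicAlgCl ℓ} (H : HatData F ℓ ι) (hK : IsTow ℓ U K)
    {T : Nice ℓ U →ₗ[PadicAlgCl ℓ] Nice ℓ U} {P : (∀ v, Hecke U v → ℂ) → Prop} {k : Type} [Field k]
    (r : Red ℓ k) (c : Chart U K) (hT : IsGoodOp K S T)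
    (hkill : ∀ e ∈ AllSys ℓ S U, P e → ∀ φ : Nice ℓ U, IsEF S U φ.1 (iv ι e) → T φ = 0) (s : ℕ)
    [Fintype (PP K s)] [DecidableEq (PP K s)]
    {Q : Submodule ℂ (D.Cpx → ℂ)} (hQ : IsWeight D Q) :
    Module.finrank k (LinearMap.range (Matrix.toLin' ((mT c T s).map r.app))) * Module.finrank ℂ Q ≤
      Module.finrank ℂ (espan S Q (U ⊔ K s) fun lam => ¬P lam) := by
  classical
  obtain ⟨gb⟩ := exists_goodBasis H hK hQ
  have hρ : IsSmallRep K gb.ρ := gb.small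
  have hn : ∀ (Φ : VF U K gb.ρ s) (j : Fin (Module.finrank ℂ Q)), IsNice U (fun g => Φ.1 g j) :=
    fun Φ j => isNice_coord c hU hK hρ Φ j
  obtain ⟨E, hE1, hE2⟩ := exists_coords c hU hK hρ s
  have hfd : FiniteDimensional (PadicAlgCl ℓ) (VF U K gb.ρ s) := Module.Finite.equiv E.symm
  obtain ⟨W, W', hWW, hf1, -, -, hW'⟩ := exists_split hD H hSl hU hUS hK hQ gb s (fun lam => ¬P lam)
  have hWle : W ≤ VF U K gb.ρ s := hWW ▸ le_sup_left
  -- the operator is zero on `W'`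
  have hzero : ∀ Φ : VF U K gb.ρ s, Φ.1 ∈ W' → TV T hn Φ = 0 := by
    intro Φ hΦ
    have h1 : W' ≤ (LinearMap.ker (TV T hn)).map (VF U K gb.ρ s).subtype := by
      refine hW'.trans (Submodule.span_le.mpr ?_)
      rintro Ψ ⟨hΨ, lam, hlam, hP, hef⟩
      refine ⟨⟨Ψ, hΨ⟩, ?_, rfl⟩
      have h2 : TV T hn ⟨Ψ, hΨ⟩ = (0 : PadicAlgCl ℓ) • Ψ :=
        TV_eigen hn ⟨Ψ, hΨ⟩ hef (fun φ hφ => by
          rw [zero_smul]
          exact hkill lam hlam (not_not.mp hP) φ hφ)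
      rw [zero_smul] at h2
      exact h2
    obtain ⟨Ψ, hΨ, hΨ'⟩ := h1 hΦ
    have h3 : Ψ = Φ := Subtype.ext hΨ'
    rw [← h3]
    exact hΨ
  have hrange : LinearMap.range (TV T hn) ≤
      (W.comap (VF U K gb.ρ s).subtype).map (TV T hn) := by
    rintro _ ⟨Φ, rfl⟩
    have h4 : Φ.1 ∈ W ⊔ W' := by rw [hWW]; exact Φ.2
    obtain ⟨a, ha, a', ha', haa⟩ := Submodule.mem_sup.mp h4
    have ha'' : a' ∈ VF U K gb.ρ s := by
      rw [← hWW]
      exact Submodule.mem_sup_right ha'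
    refine ⟨⟨a, hWle ha⟩, ha, ?_⟩
    have h5 : Φ = ⟨a, hWle ha⟩ + ⟨a', ha''⟩ := Subtype.ext haa.symm
    rw [h5, map_add, hzero ⟨a', ha''⟩ ha', add_zero]
  have hfr : Module.finrank (PadicAlgCl ℓ) (LinearMap.range (TV T hn)) ≤
      Module.finrank (PadicAlgCl ℓ) W := by
    refine (Submodule.finrank_mono hrange).trans ((Submodule.finrank_map_le _ _).trans ?_)
    exact (Submodule.comapSubtypeEquivOfLe hWle).finrank_eq.le
  obtain ⟨κ, hκ, a, hcard, hli⟩ := M6_rank k (Matrix.toLin' ((mT c T s).map r.app))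
  -- the functions
  let Φ : κ × Fin (Module.finrank ℂ Q) → VF U K gb.ρ s := fun p =>
    E.symm (Pi.single (a p.1) (Pi.single p.2 1))
  have hΦ : ∀ p q i, (Φ p).1 (c.bp s q) i =
      if q = a p.1 then (if i = p.2 then (1 : PadicAlgCl ℓ) else 0) else 0 := by
    intro p q i
    rw [← hE1, LinearEquiv.apply_symm_apply]
    rw [Pi.single_apply]
    split_ifs with h1 h2
    · rw [Pi.single_apply, if_pos h2]
    · rw [Pi.single_apply, if_neg h2]
    · rfl
  have hΦ1 : ∀ p q i, ‖(Φ p).1 (c.bp s q) i‖ ≤ 1 := by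
    intro p q i
    rw [hΦ]
    split_ifs
    · rw [norm_one]
    · rw [norm_zero]; exact zero_le_one
    · rw [norm_zero]; exact zero_le_one
  have hΦ2 : ∀ p g i, ‖(Φ p).1 g i‖ ≤ 1 := fun p g i =>
    (hE2 (Φ p) 1 (fun q i => by rw [hE1]; exact hΦ1 p q i) g i).1
  have hTV1 : ∀ p g i, ‖TV T hn (Φ p) g i‖ ≤ 1 := fun p g i =>
    TV_norm_le c hT hU hK hρ hn (Φ p) 1 (hΦ2 p) g i
  have hℓ : (ℓ : ℝ)⁻¹ < 1 := by
    have h1 : 1 < ℓ := (Fact.out : ℓ.Prime).one_lt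
    have h2 : (1 : ℝ) < ℓ := by exact_mod_cast h1
    exact inv_lt_one_of_one_lt₀ h2
  have happ : ∀ (p : κ × Fin (Module.finrank ℂ Q)) (q : (c.R × PP K s) × Fin (Module.finrank ℂ Q)),
      r.app (TV T hn (Φ p) (c.bp s q.1) q.2) =
        if q.2 = p.2 then Matrix.toLin' ((mT c T s).map r.app) (Pi.single (a p.1) (1 : k)) q.1 else 0 := by
    rintro ⟨t, j⟩ ⟨x, i⟩
    have h1 := TV_congr c hT hU hK hρ hn (Φ (t, j)) 1 (hΦ1 (t, j)) x i
    have h2 : ∑ p : c.R × PP K s, mT c T s x p * (Φ (t, j)).1 (c.bp s p) i =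
        if i = j then mT c T s x (a t) else 0 := by
      rw [Finset.sum_eq_single (a t)]
      · rw [hΦ, if_pos rfl]
        change mT c T s x (a t) * (if i = j then 1 else 0) = _
        split_ifs
        · rw [mul_one]
        · rw [mul_zero]
      · intro q _ hq
        rw [hΦ, if_neg hq, mul_zero]
      · intro h
        exact absurd (Finset.mem_univ _) h
    rw [h2, mul_one] at h1
    have h3 := r.app_eq (hTV1 (t, j) (c.bp s x) i) (h1.trans_lt hℓ)
    change r.app (TV T hn (Φ (t, j)) (c.bp s x) i) = _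
    rw [h3]
    change r.app (if i = j then mT c T s x (a t) else 0) =
      if i = j then Matrix.toLin' ((mT c T s).map r.app) (Pi.single (a t) (1 : k)) x else 0
    split_ifs
    · rw [Matrix.toLin'_apply, Matrix.mulVec_single_one]
      rfl
    · exact r.app_zero
  -- linear independence
  have hli2 : LinearIndependent k
      (fun t : κ => fun x : c.R × PP K s => Matrix.toLin' ((mT c T s).map r.app) (Pi.single (a t) (1 : k)) x) := hli
  have hli3 := M6_li (w := Module.finrank ℂ Q) _ hli2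
  have hli4 : LinearIndependent (PadicAlgCl ℓ)
      (fun (p : κ × Fin (Module.finrank ℂ Q)) (q : (c.R × PP K s) × Fin (Module.finrank ℂ Q)) =>
        TV T hn (Φ p) (c.bp s q.1) q.2) := by
    refine r.linearIndependent_of_app _ (fun p q => hTV1 p _ _) ?_
    have h6 : (fun (p : κ × Fin (Module.finrank ℂ Q)) (q : (c.R × PP K s) × Fin (Module.finrank ℂ Q)) =>
        r.app (TV T hn (Φ p) (c.bp s q.1) q.2)) =
        (fun (p : κ × Fin (Module.finrank ℂ Q)) (q : (c.R × PP K s) × Fin (Module.finrank ℂ Q)) =>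
          if q.2 = p.2 then Matrix.toLin' ((mT c T s).map r.app) (Pi.single (a p.1) (1 : k)) q.1 else 0) := by
      funext p q
      exact happ p q
    rw [h6]
    exact hli3
  let R : (D.Ad → Fin (Module.finrank ℂ Q) → PadicAlgCl ℓ) →ₗ[PadicAlgCl ℓ]
      ((c.R × PP K s) × Fin (Module.finrank ℂ Q) → PadicAlgCl ℓ) :=
    { toFun := fun f q => f (c.bp s q.1) q.2
      map_add' := fun _ _ => rfl
      map_smul' := fun _ _ => rfl }
  have hli5 : LinearIndependent (PadicAlgCl ℓ) (fun p => TV T hn (Φ p)) :=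
    LinearIndependent.of_comp R hli4
  have hli6 : LinearIndependent (PadicAlgCl ℓ)
      (fun p => (⟨TV T hn (Φ p), LinearMap.mem_range_self _ _⟩ : LinearMap.range (TV T hn))) :=
    LinearIndependent.of_comp (LinearMap.range (TV T hn)).subtype hli5
  have h7 := hli6.fintype_card_le_finrank
  rw [Fintype.card_prod, Fintype.card_fin, hcard] at h7
  rw [← hf1]
  exact h7.trans hfr

end Pool.Agent.Lib.MP_666dc0_nt.ZO
end
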