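import Pool.Agent.Lib.MP_666dc0_nt.Mg.G080
import Pool.Agent.Lib.MP_666dc0_nt.ZO.M5
import Pool.Agent.Lib.MP_666dc0_nt.Mg.G079
import Pool.Agent.Lib.MP_666dc0_nt.Mg.G078

section

/-!
# The zero-one law
-/

open NumberField IsDedekindDomain TensorProduct
open scoped NumberField TensorProduct

namespace Pool.Agent.Lib.MP_666dc0_nt.ZO

open WL

variable {F : Type} [Field F] [NumberField F] {n : ℕ} {D : Datum F n}

/-- The total dimension. -/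
theorem finrank_forms_eq [IsTotallyReal F] (hD : IsTotPosDef D.q) {ℓ : ℕ} [Fact ℓ.Prime]
    (ι : ℂ ≃+* PadicAlgCl ℓ) {U : Subgroup D.Ad} (hU : IsTame ℓ U) {d : ℕ} {K : ℕ → Subgroup D.Ad}
    (hK : IsUniform ℓ d U K) {Q : Submodule ℂ (D.Cpx → ℂ)} (hQ : IsWeight D Q) {J : Subgroup D.Ad}
    (hJ : IsLevel ℓ U J) (hle : J ≤ K 0) :
    Module.finrank ℂ (forms D Q (U ⊔ J)) =
      J.relIndex (K 0) * Module.finrank ℂ Q * Module.finrank ℂ (forms D (constSub D) (U ⊔ K 0)) := by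
  obtain ⟨H⟩ := exists_hatData F ℓ ι
  obtain ⟨c⟩ := exists_chart hD hU hK.tow (free_of_isUniform hD ι hU hK.tow)
  have h : ∀ (Q : Submodule ℂ (D.Cpx → ℂ)), IsWeight D Q → ∀ J : Subgroup D.Ad, IsLevel ℓ U J → J ≤ K 0 →
      Module.finrank ℂ (forms D Q (U ⊔ J)) = J.relIndex (K 0) * Module.finrank ℂ Q * Fintype.card c.R := by
    intro Q hQ J hJ hle
    have hKJ : IsTow ℓ U (tow K J) := tow_isTow hU hK hJ hle
    obtain ⟨gb⟩ := exists_goodBasis H hKJ hQ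
    have e1 := finrank_VF H hU hKJ hQ gb 1
    have e2 := finrank_VF_eq (c.tow J) hU hKJ gb.small 1
    rw [card_tow] at e2
    exact e1.trans e2
  rw [h Q hQ J hJ hle, h _ isWeight_const (K 0) (hK.level 0) le_rfl, finrank_const, Subgroup.relIndex_self]
  simp only [one_mul]

/-- The rank of the reduced matrix at the level `K s`, in the two towers. -/
theorem rank_tow_self {ℓ : ℕ} [Fact ℓ.Prime] {U : Subgroup D.Ad} {K : ℕ → Subgroup D.Ad}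
    {T : Nice ℓ U →ₗ[PadicAlgCl ℓ] Nice ℓ U} (s : ℕ) [h1 : Fintype (PP K s)] [h2 : DecidableEq (PP K s)]
    [h3 : Fintype (PP (tow K (K s)) 1)] [h4 : DecidableEq (PP (tow K (K s)) 1)] {k : Type} [Field k]
    (r : Red ℓ k) (c : Chart U K) :
    Module.finrank k (LinearMap.range (Matrix.toLin' ((mT (c.tow (K s)) T 1).map r.app))) =
      Module.finrank k (LinearMap.range (Matrix.toLin' ((mT c T s).map r.app))) := by
  have e3 : h3 = h1 := Subsingleton.elim _ _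
  have e4 : h4 = h2 := Subsingleton.elim _ _
  subst e3 e4
  rfl

theorem zero_one_class [IsTotallyReal F] {B : Type} [CommRing B] (hD : IsTotPosDef D.q) (ℓ : ℕ) [Fact ℓ.Prime]
    [IsDomain B] [IsPrincipalIdealRing B] [Algebra B ℚ] [IsFractionRing B ℚ] [Algebra B (PadicAlgCl ℓ)]
    {O : Type} [CommRing O] [HopfAlgebra B O] [Algebra.FiniteType B O] [Module.Free B O]
    (hO : LinearlyReductive (ℚ ⊗[B] O)) (A : OverB.HopfAction B Gal(AlgebraicClosure F/F) O)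
    (hA : IsOpen (A.act.ker : Set Gal(AlgebraicClosure F/F)))
    (S : Finset (HeightOneSpectrum (𝓞 F)))
    (hS : ∀ v, v ∉ S → ∀ P u, IsInertiaAt v P u → A.act u = 1)
    (hSl : ∀ v : HeightOneSpectrum (𝓞 F), (ℓ : 𝓞 F) ∈ v.asIdeal → v ∈ S)
    (φ : HeightOneSpectrum (𝓞 F) → Gal(AlgebraicClosure F/F))
    (hφ : ∀ v, v ∉ S → ∃ P : Ideal (𝓞 (AlgebraicClosure F)), IsOver v P ∧
      (IsFrob v P (φ v) ∨ IsFrob v P (φ v)⁻¹))
    {U : Subgroup D.Ad} (hU : IsTame ℓ U) (hUS : ∀ v, v ∉ S → IsGoodAt U v)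
    (sat : ∀ v, A.inv (φ v) → Hecke U v) (hsat : ∀ v f, (sat v f).IsIntegral ℓ)
    (ι : ℂ ≃+* PadicAlgCl ℓ) {d : ℕ} {K : ℕ → Subgroup D.Ad} (hK : IsUniform ℓ d U K)
    {lam₀ : ∀ v, Hecke U v → ℂ} (h₀ : lam₀ ∈ AllSys ℓ S U) :
    (∀ lam ∈ AllSys ℓ S U, Cong ℓ S ι lam lam₀ → Att ℓ A S φ sat ι lam) ∨
    ∃ C : ℝ, ∀ (s : ℕ) (J : Subgroup D.Ad), IsLevel ℓ U J → J ≤ K s →
      ∀ Q : Submodule ℂ (D.Cpx → ℂ), IsWeight D Q →
      (1 - C / (ℓ : ℝ) ^ s) * ((J.relIndex (K 0) : ℝ) * (Module.finrank ℂ Q : ℝ)) ≤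
        (Module.finrank ℂ (espan S Q (U ⊔ J) fun lam =>
          Cong ℓ S ι lam lam₀ ∧ ¬Att ℓ A S φ sat ι lam) : ℝ) := by
  classical
  by_cases hall : ∀ lam ∈ AllSys ℓ S U, Cong ℓ S ι lam lam₀ → Att ℓ A S φ sat ι lam
  · exact Or.inl hall
  right
  push Not at hall
  obtain ⟨lam, hlam, hc, hatt⟩ := hall
  have hnorm : ∀ s, ((K s).subgroupOf (K 0)).Normal := hK.normal_K
  have hfin : ∀ s, Finite (PP K s) := hK.finite_PP
  obtain ⟨H⟩ := exists_hatData F ℓ ι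
  obtain ⟨c⟩ := exists_chart hD hU hK.tow (free_of_isUniform hD ι hU hK.tow)
  obtain ⟨k, _, ⟨r⟩⟩ := exists_red ℓ
  have hchar : CharP k ℓ := r.charP
  obtain ⟨I, 𝒰, t, L₀, hL₀, ht, ht', hP, ε, hε, hl⟩ := exists_net hD ℓ hO A hA S hS hSl φ hφ hU hUS sat hsat ι
    hK h₀ hlam hc hatt
  obtain ⟨T, hT⟩ := exists_killer hD hSl hU hUS ι hK.tow
    (P := fun e => e ∈ AllSys ℓ S U ∧ (Att ℓ A S φ sat ι e ∨ ¬Cong ℓ S ι e lam₀)) 𝒰 t L₀ hL₀ ht ht'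
    (fun e he => hP e he.1 he.2) hlam hε hl
  obtain ⟨r', r₀, b, hb, hcomp, s₀, hs₀⟩ := exists_tower r c hU hK.tow hT
  obtain ⟨C, hC⟩ := rank_tower k (P := fun s => PP K s) (prP hK.anti) (fun s => hK.exists_isUG s) b hcomp s₀ hs₀
  refine ⟨C, fun s J hJ hJs Q hQ => ?_⟩
  have hsle : K s ≤ K 0 := hK.tow.K_le (Nat.zero_le s)
  have hle : J ≤ K 0 := hJs.trans hsle
  have hKJ : IsTow ℓ U (tow K J) := tow_isTow hU hK hJ hle
  have hTJ : IsGoodOp (tow K J) S T := hT.good.tow hU hK hJ hle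
  have f1 : Fintype (PP K s) := Fintype.ofFinite _
  have hfJ : Finite (PP (tow K J) 1) := hKJ.finite_PP 1
  have f2 : Fintype (PP (tow K J) 1) := Fintype.ofFinite _
  have hfs : Finite (PP (tow K (K s)) 1) := (tow_isTow hU hK (hK.level s) hsle).finite_PP 1
  have f3 : Fintype (PP (tow K (K s)) 1) := Fintype.ofFinite _
  -- the rank at the level `J`
  have g1 := hC s
  have g2 := rank_block s r c hT.good hU hK.tow r' r₀ (b s) (hb s)
  have g3 := rank_mT_tow r c hT.good hU hK hJ (hK.level s) hJs hsle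
  rw [rank_tow_self, card_tow, card_tow] at g3
  have g4 : (K s).relIndex (K 0) = ℓ ^ (s * d) := hK.index s
  rw [g4] at g3
  have h1 := finrank_ge hD hSl hU hUS H hKJ
    (P := fun e => Att ℓ A S φ sat ι e ∨ ¬Cong ℓ S ι e lam₀) r (c.tow J) hTJ
    (fun e he hPe => hT.kill e ⟨he, hPe⟩) 1 hQ
  have h2 : espan S Q (U ⊔ J) (fun lam => ¬(Att ℓ A S φ sat ι lam ∨ ¬Cong ℓ S ι lam lam₀)) ≤
      espan S Q (U ⊔ J) fun lam => Cong ℓ S ι lam lam₀ ∧ ¬Att ℓ A S φ sat ι lam :=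
    espan_mono hJ hQ fun lam _ h => by
      rw [not_or, not_not] at h
      exact ⟨h.2, h.1⟩
  have : FiniteDimensional ℂ (espan S Q (U ⊔ J) fun lam => Cong ℓ S ι lam lam₀ ∧ ¬Att ℓ A S φ sat ι lam) :=
    finiteDimensional_espan hD hJ.isOpen hQ _
  have h3 : Module.finrank k (LinearMap.range (Matrix.toLin' ((mT (c.tow J) T 1).map r.app))) *
      Module.finrank ℂ Q ≤ Module.finrank ℂ (espan S Q (U ⊔ J) fun lam =>
        Cong ℓ S ι lam lam₀ ∧ ¬Att ℓ A S φ sat ι lam) := h1.trans (Submodule.finrank_mono h2)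
  generalize Module.finrank k (LinearMap.range (Matrix.toLin' ((mT (c.tow J) T 1).map r.app))) = x at g3 h3
  generalize Module.finrank k (LinearMap.range (Matrix.toLin' ((mT c T s).map r.app))) = y at g2 g3
  generalize Module.finrank ℂ (espan S Q (U ⊔ J) fun lam =>
        Cong ℓ S ι lam lam₀ ∧ ¬Att ℓ A S φ sat ι lam) = z at h3 ⊢
  generalize Module.finrank k (LinearMap.range (LinearMap.mulLeft k (b s))) = u at g1 g2
  generalize Module.finrank ℂ Q = q at h3 ⊢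
  generalize J.relIndex (K 0) = m at g3 ⊢
  have hpos : (0 : ℝ) < (ℓ : ℝ) ^ (s * d) := by
    have : 0 < ℓ := (Fact.out : ℓ.Prime).pos
    positivity
  have g3' : (m : ℝ) * (y : ℝ) ≤ (ℓ : ℝ) ^ (s * d) * (x : ℝ) := by exact_mod_cast g3
  have g2' : (u : ℝ) ≤ (y : ℝ) := by exact_mod_cast g2
  have h3' : (x : ℝ) * (q : ℝ) ≤ (z : ℝ) := by exact_mod_cast h3
  have e1 : (1 - C / (ℓ : ℝ) ^ s) * (m : ℝ) ≤ (x : ℝ) := by
    refine le_of_mul_le_mul_left ?_ hpos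
    calc (ℓ : ℝ) ^ (s * d) * ((1 - C / (ℓ : ℝ) ^ s) * (m : ℝ)) =
          (m : ℝ) * ((1 - C / (ℓ : ℝ) ^ s) * (ℓ : ℝ) ^ (s * d)) := by ring
      _ ≤ (m : ℝ) * (y : ℝ) := mul_le_mul_of_nonneg_left (g1.trans g2') (Nat.cast_nonneg _)
      _ ≤ _ := g3'
  calc (1 - C / (ℓ : ℝ) ^ s) * ((m : ℝ) * (q : ℝ)) = ((1 - C / (ℓ : ℝ) ^ s) * (m : ℝ)) * (q : ℝ) := by ring
    _ ≤ (x : ℝ) * (q : ℝ) := mul_le_mul_of_nonneg_right e1 (Nat.cast_nonneg _)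
    _ ≤ _ := h3'

/-- `Q1` for a system gives an attached homomorphism for every `ι`. -/
theorem att_of_q1Sys {B : Type} [CommRing B] {ℓ : ℕ} [Fact ℓ.Prime] [Algebra B (PadicAlgCl ℓ)]
    {O : Type} [CommRing O] [HopfAlgebra B O] {A : OverB.HopfAction B Gal(AlgebraicClosure F/F) O}
    {S : Finset (HeightOneSpectrum (𝓞 F))}
    {φ : HeightOneSpectrum (𝓞 F) → Gal(AlgebraicClosure F/F)} {U : Subgroup D.Ad}
    {sat : ∀ v, A.inv (φ v) → Hecke U v} {lam : ∀ v, Hecke U v → ℂ} (h : Q1Sys ℓ A S φ sat lam)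
    (ι : ℂ ≃+* PadicAlgCl ℓ) : Att ℓ A S φ sat ι lam := by
  obtain ⟨E, μ, _, hμ, hr⟩ := h
  obtain ⟨r, hr⟩ := hr ((ι : ℂ →+* PadicAlgCl ℓ).comp (algebraMap E ℂ))
  refine ⟨r, hr.proj, hr.cont, hr.unram, fun v hv x => ?_⟩
  rw [hr.value v hv x]
  change ι ((μ v (sat v x) : E) : ℂ) = ι (lam v (sat v x))
  rw [hμ v hv]

theorem exists_iota_of_not_q1Sys [IsTotallyReal F] (hD : IsTotPosDef D.q) {B : Type} [CommRing B] {ℓ : ℕ}
    [Fact ℓ.Prime] [Algebra B (PadicAlgCl ℓ)]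
    {O : Type} [CommRing O] [HopfAlgebra B O] {A : OverB.HopfAction B Gal(AlgebraicClosure F/F) O}
    {S : Finset (HeightOneSpectrum (𝓞 F))}
    {φ : HeightOneSpectrum (𝓞 F) → Gal(AlgebraicClosure F/F)} {U : Subgroup D.Ad}
    {sat : ∀ v, A.inv (φ v) → Hecke U v} {lam : ∀ v, Hecke U v → ℂ} (hlam : lam ∈ AllSys ℓ S U)
    (h : ¬Q1Sys ℓ A S φ sat lam) : ∃ ι : ℂ ≃+* PadicAlgCl ℓ, ¬Att ℓ A S φ sat ι lam := by
  classical
  by_contra hcon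
  push Not at hcon
  obtain ⟨K', hK', hs⟩ := hlam
  obtain ⟨E, hEf, hE⟩ := exists_numberField hD S (U ⊔ K') hK'.isOpen hs
  refine h ⟨E, fun v h => if hv : v ∉ S then ⟨lam v h, hE v hv h⟩ else 0, hEf, ?_, ?_⟩
  · intro v hv h
    simp only [dif_pos hv]
  · intro j
    have hcount : Cardinal.mk E ≤ Cardinal.aleph0 := by
      have h1 := Algebra.IsAlgebraic.cardinalMk_le_max ℚ E
      simpa using h1
    obtain ⟨ι, hι⟩ := exists_iso_extending ℓ hcount (algebraMap E ℂ) j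
    obtain ⟨r, hr⟩ := hcon ι
    refine ⟨r, hr.proj, hr.cont, hr.unram, fun v hv x => ?_⟩
    rw [hr.value v hv x]
    simp only [dif_pos hv]
    exact (hι ⟨lam v (sat v x), hE v hv (sat v x)⟩)

theorem zero_one_Q1 [IsTotallyReal F] {B : Type} [CommRing B] (hD : IsTotPosDef D.q) (ℓ : ℕ) [Fact ℓ.Prime]
    [IsDomain B] [IsPrincipalIdealRing B] [Algebra B ℚ] [IsFractionRing B ℚ] [Algebra B (PadicAlgCl ℓ)]
    {O : Type} [CommRing O] [HopfAlgebra B O] [Algebra.FiniteType B O] [Module.Free B O]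
    (hO : LinearlyReductive (ℚ ⊗[B] O)) (A : OverB.HopfAction B Gal(AlgebraicClosure F/F) O)
    (hA : IsOpen (A.act.ker : Set Gal(AlgebraicClosure F/F)))
    (S : Finset (HeightOneSpectrum (𝓞 F)))
    (hS : ∀ v, v ∉ S → ∀ P u, IsInertiaAt v P u → A.act u = 1)
    (hSl : ∀ v : HeightOneSpectrum (𝓞 F), (ℓ : 𝓞 F) ∈ v.asIdeal → v ∈ S)
    (φ : HeightOneSpectrum (𝓞 F) → Gal(AlgebraicClosure F/F))
    (hφ : ∀ v, v ∉ S → ∃ P : Ideal (𝓞 (AlgebraicClosure F)), IsOver v P ∧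
      (IsFrob v P (φ v) ∨ IsFrob v P (φ v)⁻¹))
    {U : Subgroup D.Ad} (hU : IsTame ℓ U) (hUS : ∀ v, v ∉ S → IsGoodAt U v)
    (sat : ∀ v, A.inv (φ v) → Hecke U v) (hsat : ∀ v f, (sat v f).IsIntegral ℓ)
    {d : ℕ} {K : ℕ → Subgroup D.Ad} (hK : IsUniform ℓ d U K) :
    (∀ lam ∈ AllSys ℓ S U, Q1Sys ℓ A S φ sat lam) ∨
    ∃ C : ℝ, ∀ (s : ℕ) (J : Subgroup D.Ad), IsLevel ℓ U J → J ≤ K s →
      ∀ Q : Submodule ℂ (D.Cpx → ℂ), IsWeight D Q →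
      (1 - C / (ℓ : ℝ) ^ s) * ((J.relIndex (K 0) : ℝ) * (Module.finrank ℂ Q : ℝ)) ≤
        (Module.finrank ℂ (espan S Q (U ⊔ J) fun lam => ¬Q1Sys ℓ A S φ sat lam) : ℝ) := by
  by_cases hall : ∀ lam ∈ AllSys ℓ S U, Q1Sys ℓ A S φ sat lam
  · exact Or.inl hall
  right
  push Not at hall
  obtain ⟨lam, hlam, hq⟩ := hall
  obtain ⟨ι, hι⟩ := exists_iota_of_not_q1Sys hD hlam hq
  obtain h | ⟨C, hC⟩ := zero_one_class hD ℓ hO A hA S hS hSl φ hφ hU hUS sat hsat ι hK hlam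
  · exact absurd (h lam hlam (cong_refl ι lam)) hι
  refine ⟨C, fun s J hJ hJs Q hQ => (hC s J hJ hJs Q hQ).trans ?_⟩
  have h2 : espan S Q (U ⊔ J) (fun lam' => Cong ℓ S ι lam' lam ∧ ¬Att ℓ A S φ sat ι lam') ≤
      espan S Q (U ⊔ J) fun lam' => ¬Q1Sys ℓ A S φ sat lam' :=
    espan_mono hJ hQ fun lam' _ h h' => h.2 (att_of_q1Sys h' ι)
  have : FiniteDimensional ℂ (espan S Q (U ⊔ J) fun lam' => ¬Q1Sys ℓ A S φ sat lam') :=
    finiteDimensional_espan hD hJ.isOpen hQ _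
  exact_mod_cast Submodule.finrank_mono h2

end Pool.Agent.Lib.MP_666dc0_nt.ZO
end

section

/-!
# The laws
-/

open NumberField IsDedekindDomain TensorProduct
open scoped NumberField TensorProduct

namespace Pool.Agent.Lib.MP_666dc0_nt.ZO

open WL

variable {F : Type} [Field F] [NumberField F] {n : ℕ} {D : Datum F n}

private theorem laws_intPoly_one {ℓ : ℕ} [Fact ℓ.Prime] {S : Finset (HeightOneSpectrum (𝓞 F))} {U : Subgroup D.Ad} :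
    IntPoly (1 : MvPolynomial (IX ℓ S U) (PadicAlgCl ℓ)) := by
  classical
  intro m
  rw [MvPolynomial.coeff_one]
  split_ifs
  · rw [norm_one]
  · rw [norm_zero]
    exact zero_le_one

/-- The dimension of the span of all eigenforms. -/
theorem count_true [IsTotallyReal F] (hD : IsTotPosDef D.q) {ℓ : ℕ} [Fact ℓ.Prime]
    {S : Finset (HeightOneSpectrum (𝓞 F))}
    (hSl : ∀ v : HeightOneSpectrum (𝓞 F), (ℓ : 𝓞 F) ∈ v.asIdeal → v ∈ S) {U : Subgroup D.Ad} (hU : IsTame ℓ U)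
    (hUS : ∀ v, v ∉ S → IsGoodAt U v) (ι : ℂ ≃+* PadicAlgCl ℓ) {d : ℕ} {K : ℕ → Subgroup D.Ad}
    (hK : IsUniform ℓ d U K) : Count ℓ S U K fun _ => True := by
  intro J hJ hle Q hQ
  have h := finrank_espan_poly hD hSl hU hUS ι hK (laws_intPoly_one (ℓ := ℓ) (S := S) (U := U)) hQ hJ hle
  have e : (fun lam : ∀ v, Hecke U v → ℂ => ‖MvPolynomial.aeval (iv ι lam)
      (1 : MvPolynomial (IX ℓ S U) (PadicAlgCl ℓ))‖ = 1) = fun _ => True := by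
    funext lam
    rw [map_one, norm_one]
    exact eq_true rfl
  rw [e] at h
  exact h

/-- All parts together. -/
theorem laws [IsTotallyReal F] {B : Type} [CommRing B] (hD : IsTotPosDef D.q) (ℓ : ℕ) [Fact ℓ.Prime]
    [IsDomain B] [IsPrincipalIdealRing B] [Algebra B ℚ] [IsFractionRing B ℚ] [Algebra B (PadicAlgCl ℓ)]
    {O : Type} [CommRing O] [HopfAlgebra B O] [Algebra.FiniteType B O] [Module.Free B O]
    (hO : LinearlyReductive (ℚ ⊗[B] O)) (A : OverB.HopfAction B Gal(AlgebraicClosure F/F) O)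
    (hA : IsOpen (A.act.ker : Set Gal(AlgebraicClosure F/F)))
    (S : Finset (HeightOneSpectrum (𝓞 F)))
    (hS : ∀ v, v ∉ S → ∀ P u, IsInertiaAt v P u → A.act u = 1)
    (hSl : ∀ v : HeightOneSpectrum (𝓞 F), (ℓ : 𝓞 F) ∈ v.asIdeal → v ∈ S)
    (φ : HeightOneSpectrum (𝓞 F) → Gal(AlgebraicClosure F/F))
    (hφ : ∀ v, v ∉ S → ∃ P : Ideal (𝓞 (AlgebraicClosure F)), IsOver v P ∧
      (IsFrob v P (φ v) ∨ IsFrob v P (φ v)⁻¹))
    {U : Subgroup D.Ad} (hU : IsTame ℓ U) (hUS : ∀ v, v ∉ S → IsGoodAt U v)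
    (sat : ∀ v, A.inv (φ v) → Hecke U v) (hsat : ∀ v f, (sat v f).IsIntegral ℓ)
    {d : ℕ} {K : ℕ → Subgroup D.Ad} (hK : IsUniform ℓ d U K) :
    (∀ (ι : ℂ ≃+* PadicAlgCl ℓ), ∀ lam₀ ∈ AllSys ℓ S U, (Count ℓ S U K fun lam => Cong ℓ S ι lam lam₀) ∧
      ((∀ lam ∈ AllSys ℓ S U, Cong ℓ S ι lam lam₀ → Att ℓ A S φ sat ι lam) ∨
        Abundant ℓ S U K fun lam => Cong ℓ S ι lam lam₀ ∧ ¬Att ℓ A S φ sat ι lam)) ∧
    (Count ℓ S U K fun _ => True) ∧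
    ((∀ lam ∈ AllSys ℓ S U, Q1Sys ℓ A S φ sat lam) ∨
      Abundant ℓ S U K fun lam => ¬Q1Sys ℓ A S φ sat lam) := by
  obtain ⟨ι₀, -⟩ := exists_iso_extending ℓ (k := ℚ) (by simp) (algebraMap ℚ ℂ)
    (algebraMap ℚ (PadicAlgCl ℓ))
  refine ⟨fun ι lam₀ h₀ => ⟨fun J hJ hle Q hQ => finrank_espan_cong hD hSl hU hUS ι hK h₀ hQ hJ hle, ?_⟩,
    count_true hD hSl hU hUS ι₀ hK, ?_⟩
  · obtain h | ⟨C, hC⟩ := zero_one_class hD ℓ hO A hA S hS hSl φ hφ hU hUS sat hsat ι hK h₀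
    · exact Or.inl h
    · refine Or.inr ⟨C, fun s J hJ hJs Q hQ => ?_⟩
      unfold wt
      rw [Nat.cast_mul]
      exact hC s J hJ hJs Q hQ
  · obtain h | ⟨C, hC⟩ := zero_one_Q1 hD ℓ hO A hA S hS hSl φ hφ hU hUS sat hsat hK
    · exact Or.inl h
    · refine Or.inr ⟨C, fun s J hJ hJs Q hQ => ?_⟩
      unfold wt
      rw [Nat.cast_mul]
      exact hC s J hJ hJs Q hQ

end Pool.Agent.Lib.MP_666dc0_nt.ZO
end
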