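import Mathlib

section

end

section

open Polynomial

namespace Pool.Agent.Lib.MP_666dc0_nt.IG

/-- The algebra of exponential sums `a ↦ ∑ c_μ μ^a`, `μ ≠ 0`. -/
def EXP (K : Type) [Field K] : Subalgebra K (ℕ → K) :=
  Algebra.adjoin K {f | ∃ μ : Kˣ, f = fun a => (μ : K) ^ a}

/-- The matrix is killed by a product of distinct linear factors `X - μ`, `μ ≠ 0`. -/
def DG {K : Type} [Field K] {n : ℕ} (M : Matrix (Fin n) (Fin n) K) : Prop :=
  ∃ s : Finset Kˣ, aeval M (∏ μ ∈ s, (X - C (μ : K))) = 0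

/-- The exponentials as a homomorphism. -/
private def J10_v (K : Type) [Field K] : Kˣ →* (ℕ → K) where
  toFun μ := fun a => (μ : K) ^ a
  map_one' := by
    funext a
    simp
  map_mul' μ ν := by
    funext a
    simp [mul_pow]

/-- Products of exponentials are exponentials, so elements of `EXP` are finite sums. -/
theorem exists_sum_of_mem_EXP {K : Type} [Field K] {f : ℕ → K} (hf : f ∈ EXP K) :
    ∃ (s : Finset Kˣ) (c : Kˣ → K), ∀ a, f a = ∑ μ ∈ s, c μ * (μ : K) ^ a := by
  have h1 : {f : ℕ → K | ∃ μ : Kˣ, f = fun a => (μ : K) ^ a} =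
      ((MonoidHom.mrange (J10_v K) : Submonoid (ℕ → K)) : Set (ℕ → K)) := by
    ext g
    constructor
    · rintro ⟨μ, rfl⟩
      exact ⟨μ, rfl⟩
    · rintro ⟨μ, rfl⟩
      exact ⟨μ, rfl⟩
  have h2 : f ∈ Submodule.span K (Set.range (J10_v K)) := by
    have h3 : f ∈ Subalgebra.toSubmodule (EXP K) := hf
    unfold EXP at h3
    rw [Algebra.adjoin_eq_span, h1, Submonoid.closure_eq, MonoidHom.coe_mrange] at h3
    exact h3
  obtain ⟨c, hc⟩ := Finsupp.mem_span_range_iff_exists_finsupp.1 h2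
  refine ⟨c.support, c, fun a => ?_⟩
  rw [← hc, Finsupp.sum, Finset.sum_apply]
  rfl

theorem pow_mem_EXP {K : Type} [Field K] (μ : Kˣ) : (fun a : ℕ => (μ : K) ^ a) ∈ EXP K :=
  Algebra.subset_adjoin ⟨μ, rfl⟩

/-- `μ^(m a) = (μ^m)^a`. -/
theorem EXP_comp_mul {K : Type} [Field K] {f : ℕ → K} (hf : f ∈ EXP K) (m : ℕ) :
    (fun a => f (m * a)) ∈ EXP K := by
  obtain ⟨s, c, h⟩ := exists_sum_of_mem_EXP hf
  have h1 : (fun a => f (m * a)) = ∑ μ ∈ s, c μ • (fun a : ℕ => ((μ ^ m : Kˣ) : K) ^ a) := by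
    funext a
    rw [Finset.sum_apply, h]
    refine Finset.sum_congr rfl fun μ _ => ?_
    rw [Pi.smul_apply, smul_eq_mul, Units.val_pow_eq_pow_val, pow_mul]
  rw [h1]
  exact Subalgebra.sum_mem _ fun μ _ => Subalgebra.smul_mem _ (pow_mem_EXP _) _

end Pool.Agent.Lib.MP_666dc0_nt.IG
end

section

open Polynomial

namespace Pool.Agent.Lib.MP_666dc0_nt.IG

/-- `p ≠ 0` is squarefree and splits over `K`, so it is a constant times the product of the `X - r` over its
(distinct) roots `r`; the product over all roots kills `M`. If `0` is a root, the factor `X` can be dropped: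
`M * q(M) = 0` implies `q(M) = M' * M * q(M) = 0`. -/
theorem DG_of_squarefree {K : Type} [Field K] [IsAlgClosed K] {n : ℕ}
    {M M' : Matrix (Fin n) (Fin n) K} (h1 : M * M' = 1) (h2 : M' * M = 1) {p : K[X]}
    (hp : Squarefree p) (h : aeval M p = 0) : DG M := by
  classical
  have hp0 : p ≠ 0 := hp.ne_zero
  have hsep : p.Separable := PerfectField.separable_iff_squarefree.2 hp
  have hnd : p.roots.Nodup := nodup_roots hsep
  have hprod : C p.leadingCoeff * (p.roots.map fun r => X - C r).prod = p :=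
    C_leadingCoeff_mul_prod_multiset_X_sub_C IsAlgClosed.card_roots_eq_natDegree
  have hprod2 : (p.roots.map fun r => X - C r).prod = ∏ r ∈ p.roots.toFinset, (X - C r) := by
    rw [Finset.prod, Multiset.toFinset_val, hnd.dedup]
  have h3 : aeval M (∏ r ∈ p.roots.toFinset, (X - C r)) = 0 := by
    rw [← hprod2]
    have h4 : C (p.leadingCoeff)⁻¹ * p = (p.roots.map fun r => X - C r).prod := by
      calc C (p.leadingCoeff)⁻¹ * p =
          C (p.leadingCoeff)⁻¹ * (C p.leadingCoeff * (p.roots.map fun r => X - C r).prod) := by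
            rw [hprod]
        _ = _ := by
            rw [← mul_assoc, ← C_mul, inv_mul_cancel₀ (leadingCoeff_ne_zero.2 hp0), C_1, one_mul]
    rw [← h4, map_mul, h, mul_zero]
  have h5 : aeval M (∏ r ∈ p.roots.toFinset.erase 0, (X - C r)) = 0 := by
    by_cases h0 : (0 : K) ∈ p.roots.toFinset
    · rw [← Finset.mul_prod_erase _ _ h0, C_0, sub_zero, map_mul, aeval_X] at h3
      have h6 := congrArg (fun A => M' * A) h3
      simp only [← mul_assoc, h2, one_mul, mul_zero] at h6
      exact h6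
    · rw [Finset.erase_eq_of_notMem h0]
      exact h3
  refine ⟨(p.roots.toFinset.erase 0).preimage Units.val Units.val_injective.injOn, ?_⟩
  rw [Finset.prod_preimage (Units.val : Kˣ → K) _ _ (fun r => X - C r)]
  · exact h5
  · intro x hx hx'
    exact absurd ⟨Units.mk0 x (Finset.ne_of_mem_erase hx), rfl⟩ hx'

end Pool.Agent.Lib.MP_666dc0_nt.IG
end

section

open TensorProduct
open scoped TensorProduct

namespace Pool.Agent.Lib.MP_666dc0_nt.IG

variable {B : Type} [CommRing B] [IsDomain B] [IsPrincipalIdealRing B] [Algebra B ℚ]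
  [IsFractionRing B ℚ]

omit [IsDomain B] [IsPrincipalIdealRing B] in
private theorem den_mul_eq_num (b : B) :
    ((algebraMap B ℚ b).den : B) * b = ((algebraMap B ℚ b).num : B) := by
  apply IsFractionRing.injective B ℚ
  rw [map_mul, map_natCast, map_intCast, mul_comm]
  exact Rat.mul_den_eq_num _

/-- Every non-zero `b : B` divides a positive integer: `algebraMap b = p / q` in `ℚ`, so `q b = p` in `B`
(`IsFractionRing.injective`), `p ≠ 0`, and `N = |p|`. -/
theorem exists_dvd_natCast {b : B} (hb : b ≠ 0) : ∃ (c : B) (N : ℕ), N ≠ 0 ∧ c * b = (N : B) := by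
  have h1 : algebraMap B ℚ b ≠ 0 := fun h =>
    hb ((IsFractionRing.to_map_eq_zero_iff (K := ℚ)).1 h)
  have h2 : (algebraMap B ℚ b).num ≠ 0 := Rat.num_ne_zero.2 h1
  have h3 := den_mul_eq_num b
  rcases Int.natAbs_eq (algebraMap B ℚ b).num with h | h
  · refine ⟨((algebraMap B ℚ b).den : B), (algebraMap B ℚ b).num.natAbs,
      Int.natAbs_ne_zero.2 h2, ?_⟩
    rw [h3]
    conv_lhs => rw [h]
    exact Int.cast_natCast _
  · refine ⟨-((algebraMap B ℚ b).den : B), (algebraMap B ℚ b).num.natAbs,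
      Int.natAbs_ne_zero.2 h2, ?_⟩
    rw [neg_mul, h3]
    conv_lhs => rw [h]
    rw [Int.cast_neg, neg_neg]
    exact Int.cast_natCast _

/-- The `B`-algebra structure of a `ℚ`-algebra `R` is induced from the `ℚ`-algebra structure: for `b : B` with
`q b = p` (`p, q` integers, `q ≠ 0`) both candidates for the image of `b` satisfy `q x = p`, and `q` is invertible in `R`. -/
theorem isScalarTower_frac (R : Type) [CommRing R] [Algebra ℚ R] [Algebra B R] :
    IsScalarTower B ℚ R := by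
  refine IsScalarTower.of_algebraMap_eq fun b => ?_
  have h3 := den_mul_eq_num b
  have hu : IsUnit (((algebraMap B ℚ b).den : ℕ) : R) := by
    have h4 : IsUnit (((algebraMap B ℚ b).den : ℕ) : ℚ) :=
      (Nat.cast_ne_zero.2 (algebraMap B ℚ b).den_ne_zero).isUnit
    have h5 := h4.map (algebraMap ℚ R)
    rwa [map_natCast] at h5
  apply hu.mul_left_cancel
  have e1 : ((algebraMap B ℚ b).den : R) * algebraMap B R b = ((algebraMap B ℚ b).num : R) := by
    rw [← map_natCast (algebraMap B R), ← map_mul, h3, map_intCast]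
  have e2 : ((algebraMap B ℚ b).den : R) * algebraMap ℚ R (algebraMap B ℚ b) =
      ((algebraMap B ℚ b).num : R) := by
    rw [← map_natCast (algebraMap ℚ R), ← map_mul, mul_comm, Rat.mul_den_eq_num, map_intCast]
  rw [e1, e2]

/-- Every element of `ℚ ⊗ M` has a non-zero integral multiple of the form `1 ⊗ m` (induction on tensors; for
`q ⊗ m`, `q = a / b` with `a, b ∈ ℤ`). -/
theorem exists_mul_tmul {O : Type} [CommRing O] [Algebra B O] (f' : ℚ ⊗[B] O) :
    ∃ N : ℕ, N ≠ 0 ∧ ∃ f : O, (N : ℚ ⊗[B] O) * f' = 1 ⊗ₜ[B] f := by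
  induction f' using TensorProduct.induction_on with
  | zero => exact ⟨1, one_ne_zero, 0, by rw [mul_zero, TensorProduct.tmul_zero]⟩
  | tmul q m =>
    refine ⟨q.den, q.den_ne_zero, q.num • m, ?_⟩
    rw [← nsmul_eq_mul, TensorProduct.smul_tmul', ← TensorProduct.smul_tmul q.num 1 m]
    congr 1
    rw [nsmul_eq_mul, zsmul_eq_mul, mul_one, mul_comm]
    exact Rat.mul_den_eq_num q
  | add x y hx hy =>
    obtain ⟨N, h1, f, h2⟩ := hx
    obtain ⟨N', h1', f', h2'⟩ := hy
    refine ⟨N * N', mul_ne_zero h1 h1', N' • f + N • f', ?_⟩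
    have e : ((N * N' : ℕ) : ℚ ⊗[B] O) * (x + y) =
        (N' : ℚ ⊗[B] O) * ((N : ℚ ⊗[B] O) * x) + (N : ℚ ⊗[B] O) * ((N' : ℚ ⊗[B] O) * y) := by
      rw [Nat.cast_mul]
      ring
    rw [e, h2, h2', TensorProduct.tmul_add, ← nsmul_eq_mul, ← nsmul_eq_mul,
      TensorProduct.tmul_smul, TensorProduct.tmul_smul]

/-- The kernel of `M → ℚ ⊗ M` is the torsion: `ℚ ⊗[B] M` is the localisation of `M` at the non-zero elements of `B`
(`isLocalizedModule_iff_isBaseChange`, `TensorProduct.isBaseChange`, `IsLocalizedModule.eq_zero_iff`), then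
`exists_dvd_natCast`. -/
theorem exists_mul_eq_zero {M : Type} [CommRing M] [Algebra B M] {a : M}
    (h : (1 : ℚ) ⊗ₜ[B] a = 0) : ∃ N : ℕ, N ≠ 0 ∧ (N : M) * a = 0 := by
  have hloc : IsLocalizedModule (nonZeroDivisors B) (TensorProduct.mk B ℚ M 1) :=
    (isLocalizedModule_iff_isBaseChange (nonZeroDivisors B) ℚ (TensorProduct.mk B ℚ M 1)).2
      (TensorProduct.isBaseChange B M ℚ)
  obtain ⟨c, hc⟩ := (IsLocalizedModule.eq_zero_iff (nonZeroDivisors B)
    (TensorProduct.mk B ℚ M 1)).1 h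
  obtain ⟨d, N, hN, hd⟩ := exists_dvd_natCast (nonZeroDivisors.ne_zero c.2)
  refine ⟨N, hN, ?_⟩
  have hc' : (c : B) • a = 0 := hc
  have e : (N : M) = algebraMap B M (d * c) := by rw [hd, map_natCast]
  rw [e, ← Algebra.smul_def, mul_smul, hc', smul_zero]

end Pool.Agent.Lib.MP_666dc0_nt.IG
end

section

open Polynomial

namespace Pool.Agent.Lib.MP_666dc0_nt.IG

/-- `q = ∏ μ ∈ s, (X ^ m - C μ)`: `aeval M q = aeval (M ^ m) (∏ μ ∈ s, (X - C μ)) = 0`. The factors are
separable (`separable_X_pow_sub_C`, `m ≠ 0` in `K`, `μ ≠ 0`), pairwise coprime (their difference is a non-zero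
constant), so `q` is separable (`Polynomial.separable_prod'`), hence squarefree. -/
theorem DG.exists_squarefree {K : Type} [Field K] [CharZero K] {n : ℕ}
    {M : Matrix (Fin n) (Fin n) K} {m : ℕ} (hm : m ≠ 0) (h : DG (M ^ m)) :
    ∃ q : K[X], Squarefree q ∧ aeval M q = 0 := by
  obtain ⟨s, hs⟩ := h
  refine ⟨∏ μ ∈ s, (X ^ m - C (μ : K)), ?_, ?_⟩
  · apply Separable.squarefree
    apply separable_prod'
    · intro x _ y _ hxy
      have hne : (y : K) - (x : K) ≠ 0 := by
        intro h0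
        exact hxy (Units.ext (sub_eq_zero.1 h0)).symm
      refine ⟨C ((y : K) - (x : K))⁻¹, -C ((y : K) - (x : K))⁻¹, ?_⟩
      have e : C ((y : K) - (x : K))⁻¹ * (X ^ m - C (x : K)) +
          -C ((y : K) - (x : K))⁻¹ * (X ^ m - C (y : K)) =
          C ((y : K) - (x : K))⁻¹ * C ((y : K) - (x : K)) := by
        rw [C_sub]
        ring
      rw [e, ← C_mul, inv_mul_cancel₀ hne, C_1]
    · intro x _
      exact separable_X_pow_sub_C (x : K) (Nat.cast_ne_zero.2 hm) x.ne_zero
  · have e : ∏ μ ∈ s, (X ^ m - C (μ : K)) = (∏ μ ∈ s, (X - C (μ : K))).comp (X ^ m) := by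
      rw [prod_comp]
      exact Finset.prod_congr rfl fun μ _ => by rw [sub_comp, X_comp, C_comp]
    rw [e, aeval_comp, map_pow, aeval_X]
    exact hs

end Pool.Agent.Lib.MP_666dc0_nt.IG
end
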