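import Mathlib
import Pool.Agent.Lib.MP_666dc0_nt.IG.Defs

section

open MvPolynomial

namespace Pool.Agent.Lib.MP_666dc0_nt.IG

variable {A B : Type} [CommRing A] [CommRing B] {n : ℕ} {s : Shape}

private theorem T2a_sum_fin_one {B : Type} [AddCommMonoid B] (f : (Fin 1 → Fin n) → B) :
    ∑ L : Fin 1 → Fin n, f L = ∑ l : Fin n, f fun _ => l := by
  refine Fintype.sum_equiv (Equiv.funUnique (Fin 1) (Fin n)) _ _ fun L => ?_
  congr 1
  funext i
  rw [Subsingleton.elim i (default : Fin 1)]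
  rfl

private theorem T2a_key (k k' v : Matrix (Fin n) (Fin n) A) (I J : Fin 1 → Fin n) :
    ∑ L : Fin 1 → Fin n, ∑ M : Fin 1 → Fin n,
      (∏ i, k (I i) (L i)) * (∏ j, k' (M j) (J j)) * v (L (0 : Fin 1)) (M (0 : Fin 1)) =
    (k * v * k') (I (0 : Fin 1)) (J (0 : Fin 1)) := by
  rw [T2a_sum_fin_one]
  simp only [T2a_sum_fin_one, Fin.prod_univ_one]
  rw [Matrix.mul_apply, Finset.sum_comm]
  refine Finset.sum_congr rfl fun m _ => ?_
  rw [Matrix.mul_apply, Finset.sum_mul]
  exact Finset.sum_congr rfl fun l _ => by ring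

/-- The action of `(k, k')` on matrices is `v ↦ k v k'` (the sums over `Fin 1 → Fin n` are sums over
`Fin n`: `Fintype.sum_equiv (Equiv.funUnique (Fin 1) (Fin n))`). Case distinction on the coordinate
`⟨Sum.inl _, m, I, J⟩` / `⟨Sum.inr b, c, I, J⟩`; in the second case both sides agree by definition. -/
theorem act_toTot {M : Type} (k k' : Matrix (Fin n) (Fin n) A) (v : M → Matrix (Fin n) (Fin n) A)
    (t : s.Ix n → A) : act k k' (toTot v t) = toTot (fun m => k * v m * k') (act k k' t) := by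
  funext x
  obtain ⟨b, c, I, J⟩ := x
  rcases b with u | b
  · exact T2a_key k k' (v c) I J
  · rfl

theorem act_toMats {M : Type} (k k' : Matrix (Fin n) (Fin n) A)
    (v : M → Matrix (Fin n) (Fin n) A) :
    act k k' (toMats v) = toMats (fun m => k * v m * k') := by
  funext x
  obtain ⟨b, c, I, J⟩ := x
  exact T2a_key k k' (v c) I J

end Pool.Agent.Lib.MP_666dc0_nt.IG
end

section

open MvPolynomial

namespace Pool.Agent.Lib.MP_666dc0_nt.IG

variable {A B : Type} [CommRing A] [CommRing B] {n : ℕ} {s : Shape}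

/-- Every family of tensors of shape `tot M s` is a pair. -/
theorem exists_toTot {M : Type} (t : (tot M s).Ix n → A) :
    ∃ (v : M → Matrix (Fin n) (Fin n) A) (u : s.Ix n → A), t = toTot v u := by
  refine ⟨fun m => Matrix.of fun a b => t ⟨Sum.inl (), m, fun _ => a, fun _ => b⟩,
    fun x => t ⟨Sum.inr x.1, x.2.1, x.2.2.1, x.2.2.2⟩, ?_⟩
  funext x
  obtain ⟨b, c, I, J⟩ := x
  rcases b with u | b
  · have hI : I = fun _ => I (0 : Fin 1) := funext fun i => congrArg I (Subsingleton.elim (α := Fin 1) i 0)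
    have hJ : J = fun _ => J (0 : Fin 1) := funext fun i => congrArg J (Subsingleton.elim (α := Fin 1) i 0)
    change t ⟨Sum.inl (), c, I, J⟩ =
      t ⟨Sum.inl (), c, fun _ => I (0 : Fin 1), fun _ => J (0 : Fin 1)⟩
    exact congrArg₂ (fun I J => t ⟨Sum.inl (), c, I, J⟩) hI hJ
  · rfl

theorem exists_toMats {M : Type} (t : (mats M).Ix n → A) :
    ∃ v : M → Matrix (Fin n) (Fin n) A, t = toMats v := by
  refine ⟨fun m => Matrix.of fun a b => t ⟨(), m, fun _ => a, fun _ => b⟩, ?_⟩
  funext x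
  obtain ⟨b, c, I, J⟩ := x
  have hI : I = fun _ => I (0 : Fin 1) := funext fun i => congrArg I (Subsingleton.elim (α := Fin 1) i 0)
  have hJ : J = fun _ => J (0 : Fin 1) := funext fun i => congrArg J (Subsingleton.elim (α := Fin 1) i 0)
  change t ⟨(), c, I, J⟩ = t ⟨(), c, fun _ => I (0 : Fin 1), fun _ => J (0 : Fin 1)⟩
  exact congrArg₂ (fun I J => t ⟨(), c, I, J⟩) hI hJ

theorem toTot_inj {M : Type} {v v' : M → Matrix (Fin n) (Fin n) A} {u u' : s.Ix n → A}
    (h : toTot v u = toTot v' u') : v = v' ∧ u = u' := by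
  refine ⟨?_, ?_⟩
  · funext m
    ext a b
    exact congrFun h ⟨Sum.inl (), m, fun _ => a, fun _ => b⟩
  · funext x
    obtain ⟨b, c, I, J⟩ := x
    exact congrFun h ⟨Sum.inr b, c, I, J⟩

theorem toMats_inj {M : Type} {v v' : M → Matrix (Fin n) (Fin n) A}
    (h : toMats v = toMats v') : v = v' := by
  funext m
  ext a b
  exact congrFun h ⟨(), m, fun _ => a, fun _ => b⟩

theorem map_toTot {M : Type} (f : A →+* B) (v : M → Matrix (Fin n) (Fin n) A) (u : s.Ix n → A) :
    (fun x => f (toTot v u x)) = toTot (fun m => (v m).map f) (fun x => f (u x)) := by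
  funext x
  obtain ⟨b, c, I, J⟩ := x
  rcases b with u | b
  · rfl
  · rfl

theorem map_toMats {M : Type} (f : A →+* B) (v : M → Matrix (Fin n) (Fin n) A) :
    (fun x => f (toMats v x)) = toMats (fun m => (v m).map f) := by
  funext x
  obtain ⟨b, c, I, J⟩ := x
  rfl

theorem kill_isMat_toTot {M : Type} (v : M → Matrix (Fin n) (Fin n) A) (u : s.Ix n → A) :
    kill (isMat (M := M) (s := s)) (toTot v u) = toTot 0 u := by
  funext x
  obtain ⟨b, c, I, J⟩ := x
  rcases b with w | b
  · exact if_pos ⟨w, rfl⟩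
  · exact if_neg fun ⟨w, hw⟩ => Sum.inr_ne_inl hw

theorem kill_not_isMat_toTot {M : Type} (v : M → Matrix (Fin n) (Fin n) A) (u : s.Ix n → A) :
    kill (fun b => ¬ isMat (M := M) (s := s) b) (toTot v u) = toTot v 0 := by
  funext x
  obtain ⟨b, c, I, J⟩ := x
  rcases b with w | b
  · exact if_neg fun h => h ⟨w, rfl⟩
  · exact if_pos fun ⟨w, hw⟩ => Sum.inr_ne_inl hw

end Pool.Agent.Lib.MP_666dc0_nt.IG
end

section

end
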