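import Mathlib
import Pool.Agent.Lib.MP_666dc0_nt.IG.Defs

section

end

section

namespace Pool.Agent.Lib.MP_666dc0_nt.IG

/-- B2d. Determinant trick modulo an ideal.

PROOF. Let `a f g ∈ C'` with `p f - ∑_{g ∈ F} a f g * g ∈ c` for `f ∈ F`. Consider the matrix
`a : Matrix F F C'` (index type `↥F`), `B = p • 1 - a.map (C' → P)`. `B.mulVec (f)_f ∈ c^F`, so
`adjugate B * B = det B • 1` gives `det B * f ∈ c` for all `f ∈ F`; with `f = 1`: `det B ∈ c`.
`det B` is the value at `p` of the characteristic polynomial of `a` (`Matrix.eval_charpoly`-like: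
`Matrix.eval_det`, `Matrix.charmatrix`), a monic polynomial of degree `N = #F` with coefficients in `C'`
(`Matrix.charpoly_monic`, `Matrix.charpoly_natDegree_eq_dim`; `Polynomial.Monic.as_sum`). -/
theorem integral_of_span {P : Type} [CommRing P] [Algebra ℚ P] (C' : Subalgebra ℚ P) (c : Ideal P)
    (F : Finset P) (h1 : (1 : P) ∈ F) (p : P)
    (hp : ∀ f ∈ F, ∃ a : P → P, (∀ g, a g ∈ C') ∧ p * f - ∑ g ∈ F, a g * g ∈ c) :
    ∃ (N : ℕ) (a : Fin N → P), (∀ i, a i ∈ C') ∧ p ^ N + ∑ i, a i * p ^ (i : ℕ) ∈ c := by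
  classical
  have hp' : ∀ f : F, ∃ a : P → P, (∀ g, a g ∈ C') ∧ p * f - ∑ g ∈ F, a g * g ∈ c :=
    fun f => hp f f.2
  choose a ha1 ha2 using hp'
  let M : Matrix F F C' := fun f g => ⟨a f g, ha1 f g⟩
  let Bm : Matrix F F P := Matrix.scalar F p - M.map (algebraMap C' P)
  have hB : ∀ f : F, ∑ g : F, Bm f g * (g : P) ∈ c := by
    intro f
    have e : ∑ g : F, Bm f g * (g : P) = p * f - ∑ g ∈ F, a f g * g := by
      have e1 : ∀ g : F, Bm f g * (g : P) = (if f = g then p else 0) * (g : P) - a f g * g := by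
        intro g
        have : Bm f g = (if f = g then p else 0) - a f g := by
          simp only [Bm, Matrix.sub_apply, Matrix.scalar_apply, Matrix.diagonal_apply,
            Matrix.map_apply]
          rfl
        rw [this, sub_mul]
      simp only [e1]
      rw [Finset.sum_sub_distrib]
      congr 1
      · rw [Finset.sum_eq_single f]
        · rw [if_pos rfl]
        · intro g _ hne
          rw [if_neg (Ne.symm hne), zero_mul]
        · intro h
          exact absurd (Finset.mem_univ f) h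
      · rw [← Finset.sum_coe_sort F (fun g => a f g * g)]
    rw [e]
    exact ha2 f
  have hdet : ∀ f : F, Bm.det * (f : P) ∈ c := by
    intro f
    have e : Bm.det * (f : P) = ∑ h : F, Bm.adjugate f h * ∑ g : F, Bm h g * (g : P) := by
      have e1 : (Bm.adjugate * Bm) = Bm.det • (1 : Matrix F F P) := Matrix.adjugate_mul Bm
      have e2 : ((Bm.adjugate * Bm).mulVec (fun g : F => (g : P))) f = Bm.det * (f : P) := by
        rw [e1, Matrix.smul_mulVec, Matrix.one_mulVec]
        rfl
      rw [← e2, ← Matrix.mulVec_mulVec]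
      rfl
    rw [e]
    exact c.sum_mem fun h _ => c.mul_mem_left _ (hB h)
  have hdet1 : Bm.det ∈ c := by
    have := hdet ⟨1, h1⟩
    simpa using this
  let χ := M.charpoly
  have hχ : Bm.det = χ.eval₂ (algebraMap C' P) p := by
    have e1 : χ.eval₂ (algebraMap C' P) p = (Polynomial.eval₂RingHom (algebraMap C' P) p) χ := rfl
    rw [e1]
    show _ = (Polynomial.eval₂RingHom (algebraMap C' P) p) (M.charmatrix.det)
    rw [RingHom.map_det]
    congr 1
    ext f g
    rw [RingHom.mapMatrix_apply, Matrix.map_apply]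
    simp only [Bm, Matrix.sub_apply, Matrix.scalar_apply, Matrix.map_apply]
    by_cases hfg : f = g
    · subst hfg
      rw [Matrix.charmatrix_apply_eq, Matrix.diagonal_apply_eq]
      simp
    · rw [Matrix.charmatrix_apply_ne _ _ _ hfg, Matrix.diagonal_apply_ne _ hfg]
      simp
  have hmonic : χ.Monic := Matrix.charpoly_monic M
  refine ⟨χ.natDegree, fun i => algebraMap C' P (χ.coeff i), fun i => (χ.coeff i).2, ?_⟩
  have e : χ.eval₂ (algebraMap C' P) p = p ^ χ.natDegree +
      ∑ i : Fin χ.natDegree, algebraMap C' P (χ.coeff i) * p ^ (i : ℕ) := by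
    conv_lhs => rw [hmonic.as_sum]
    rw [Polynomial.eval₂_add, Polynomial.eval₂_pow, Polynomial.eval₂_X,
      Polynomial.eval₂_finsetSum]
    congr 1
    rw [Finset.sum_range]
    refine Finset.sum_congr rfl fun i _ => ?_
    rw [Polynomial.eval₂_mul, Polynomial.eval₂_C, Polynomial.eval₂_pow, Polynomial.eval₂_X]
  rw [← e, ← hχ]
  exact hdet1

end Pool.Agent.Lib.MP_666dc0_nt.IG
end

section

/-!
# Interpolation, parts C and D: Gaussian elimination with a choice of pivots
-/

namespace Pool.Agent.Lib.MP_666dc0_nt.IG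

namespace CD

/-- The matrix `1 - ∑ a, x a • e_{a r}`. -/
def rowOp {κ : Type} [CommRing κ] {n : ℕ} (r : Fin n) (x : Fin n → κ) :
    Matrix (Fin n) (Fin n) κ := 1 - Matrix.of fun a b => if b = r then x a else 0

/-- The matrix `1 - ∑ b, x b • e_{c b}`. -/
def colOp {κ : Type} [CommRing κ] {n : ℕ} (c : Fin n) (x : Fin n → κ) :
    Matrix (Fin n) (Fin n) κ := 1 - Matrix.of fun a b => if a = c then x b else 0

theorem colOp_transpose {κ : Type} [CommRing κ] {n : ℕ} (c : Fin n) (x : Fin n → κ) :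
    (colOp c x).transpose = rowOp c x := by
  ext a b
  simp [colOp, rowOp, Matrix.one_apply, eq_comm]

theorem det_rowOp {κ : Type} [CommRing κ] {n : ℕ} (r : Fin n) (x : Fin n → κ) (hx : x r = 0) :
    (rowOp r x).det = 1 := by
  have h : rowOp r x = 1 + Matrix.replicateCol Unit (fun a => - x a) *
      Matrix.replicateRow Unit (fun b => if b = r then (1 : κ) else 0) := by
    ext a b
    simp only [rowOp, Matrix.sub_apply, Matrix.of_apply, Matrix.add_apply, Matrix.mul_apply,
      Matrix.replicateCol_apply, Matrix.replicateRow_apply, Finset.univ_unique,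
      Finset.sum_singleton]
    split_ifs <;> ring
  rw [h, Matrix.det_one_add_replicateCol_mul_replicateRow]
  simp [dotProduct, hx]

theorem det_colOp {κ : Type} [CommRing κ] {n : ℕ} (c : Fin n) (x : Fin n → κ) (hx : x c = 0) :
    (colOp c x).det = 1 := by
  rw [← Matrix.det_transpose, colOp_transpose, det_rowOp c x hx]

theorem rowOp_mul {κ : Type} [CommRing κ] {n : ℕ} (r : Fin n) (x : Fin n → κ)
    (N : Matrix (Fin n) (Fin n) κ) (a b : Fin n) : (rowOp r x * N) a b = N a b - x a * N r b := by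
  rw [rowOp, Matrix.sub_mul, Matrix.sub_apply, Matrix.one_mul, Matrix.mul_apply]
  simp

theorem mul_colOp {κ : Type} [CommRing κ] {n : ℕ} (c : Fin n) (y : Fin n → κ)
    (N : Matrix (Fin n) (Fin n) κ) (a b : Fin n) : (N * colOp c y) a b = N a b - N a c * y b := by
  rw [colOp, Matrix.mul_sub, Matrix.sub_apply, Matrix.mul_one, Matrix.mul_apply]
  simp

/-- Gaussian elimination. `U` and `V` are submonoids of the monoid of matrices of determinant `1`; for
every matrix `M` and all sets `R` and `S` of rows and columns such that `M` has a nonzero entry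
outside, there is a pivot `(r, c)` outside `R`, `S` such that one can clear the column `c` (outside
`R`) by row operations in `U` and the row `r` (outside `S`) by column operations in `V`.

Proof: we show by induction on `m ≤ n`: there are `A ∈ U`, `B ∈ V`, `S` with `m` elements and
`σ : Fin n → Fin n` injective on `S` such that `N = A * M * B` satisfies, for `s ∈ S`:
`N (σ s) s ≠ 0`, `N a s = 0` for `a ≠ σ s` and `N (σ s) b = 0` for `b ≠ s`. Step: let `R = σ(S)` and
`c' ∉ S`. `N` is invertible, so its column `c'` is nonzero; its entries in the rows `R` are `0`. So `N`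
has a nonzero entry outside. Take the pivot `(r, c)`, `x a = N a c / N r c` for `a ≠ r` (it is `0`
for `a ∈ R`), `x r = 0`, `N₁ = rowOp r x * N`: `N₁ a b = N a b - x a * N r b`, so the column `c` of
`N₁` is `0` outside `r`, the row `r` of `N₁` is that of `N`, and for `s ∈ S`: `N r s = 0` so the column
`s` is unchanged, `x (σ s) = 0`, so the row `σ s` is unchanged. Take `y b = N r b / N r c` for
`b ≠ c` (it is `0` for `b ∈ S`), `y c = 0`, `N₂ = N₁ * colOp c y`: `N₂ a b = N₁ a b - N₁ a c * y b`.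
The row `r` of `N₂` is zero outside `c`, all rows `a ≠ r` are those of `N₁`. Put
`S' = insert c S` and `σ' = Function.update σ c r`. For `m = n` we have `S = univ` and `σ` is a
permutation. -/
theorem elim {κ : Type} [Field κ] {n : ℕ} (U V : Submonoid (Matrix (Fin n) (Fin n) κ))
    (hU : ∀ A ∈ U, A.det = 1) (hV : ∀ A ∈ V, A.det = 1)
    (hpiv : ∀ (M : Matrix (Fin n) (Fin n) κ) (R S : Finset (Fin n)),
      (∃ r ∉ R, ∃ c ∉ S, M r c ≠ 0) → ∃ r ∉ R, ∃ c ∉ S, M r c ≠ 0 ∧
        (∀ x : Fin n → κ, x r = 0 → (∀ a ∈ R, x a = 0) →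
          (∀ a, a ∉ R → a ≠ r → x a = M a c / M r c) → rowOp r x ∈ U) ∧
        (∀ y : Fin n → κ, y c = 0 → (∀ b ∈ S, y b = 0) →
          (∀ b, b ∉ S → b ≠ c → y b = M r b / M r c) → colOp c y ∈ V))
    (M : Matrix (Fin n) (Fin n) κ) (hM : M.det ≠ 0) :
    ∃ A ∈ U, ∃ B ∈ V, ∃ σ : Equiv.Perm (Fin n), ∃ d : Fin n → κ, (∀ i, d i ≠ 0) ∧
      A * M * B = Matrix.diagonal d * Matrix.of fun a b => if a = σ b then 1 else 0 := by
  classical
  have key : ∀ m ≤ n, ∃ A ∈ U, ∃ B ∈ V, ∃ (S : Finset (Fin n)) (σ : Fin n → Fin n),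
      S.card = m ∧ Set.InjOn σ S ∧ ∀ s ∈ S, (A * M * B) (σ s) s ≠ 0 ∧
        (∀ a, a ≠ σ s → (A * M * B) a s = 0) ∧ (∀ b, b ≠ s → (A * M * B) (σ s) b = 0) := by
    intro m
    induction m with
    | zero =>
      intro _
      exact ⟨1, U.one_mem, 1, V.one_mem, ∅, id, rfl, by simp, by simp⟩
    | succ m ih =>
      intro hm
      obtain ⟨A, hA, B, hB, S, σ, hS, hσ, hN⟩ := ih (by omega)
      set N := A * M * B with hNdef
      have hNdet : N.det ≠ 0 := by
        rw [hNdef, Matrix.det_mul, Matrix.det_mul, hU A hA, hV B hB, one_mul, mul_one]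
        exact hM
      -- a nonzero entry outside
      have hex : ∃ r ∉ S.image σ, ∃ c ∉ S, N r c ≠ 0 := by
        obtain ⟨c, hc⟩ : ∃ c, c ∉ S := by
          by_contra hcon
          push Not at hcon
          have : S = Finset.univ := Finset.eq_univ_iff_forall.2 hcon
          rw [this, Finset.card_univ, Fintype.card_fin] at hS
          omega
        by_contra hcon
        push Not at hcon
        apply hNdet
        apply Matrix.det_eq_zero_of_column_eq_zero c
        intro a
        by_cases ha : a ∈ S.image σ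
        · obtain ⟨s, hs, rfl⟩ := Finset.mem_image.1 ha
          exact (hN s hs).2.2 c (fun h => hc (h ▸ hs))
        · exact hcon a ha c hc
      obtain ⟨r, hr, c, hc, hrc, hx, hy⟩ := hpiv N (S.image σ) S hex
      let x : Fin n → κ := fun a => if a = r then 0 else N a c / N r c
      let y : Fin n → κ := fun b => if b = c then 0 else N r b / N r c
      have hσr : ∀ s ∈ S, σ s ≠ r := fun s hs h => hr (h ▸ Finset.mem_image_of_mem σ hs)
      have hsc : ∀ s ∈ S, s ≠ c := fun s hs h => hc (h ▸ hs)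
      have hx0 : ∀ a ∈ S.image σ, x a = 0 := by
        intro a ha
        obtain ⟨s, hs, rfl⟩ := Finset.mem_image.1 ha
        simp only [x, if_neg (hσr s hs), (hN s hs).2.2 c (fun h => hc (h ▸ hs)), zero_div]
      have hy0 : ∀ b ∈ S, y b = 0 := by
        intro b hb
        simp only [y, if_neg (hsc b hb), (hN b hb).2.1 r (fun h => hσr b hb h.symm), zero_div]
      have hxU : rowOp r x ∈ U := hx x (by simp [x]) hx0 (fun a _ ha => by simp [x, ha])
      have hyV : colOp c y ∈ V := hy y (by simp [y]) hy0 (fun b _ hb => by simp [y, hb])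
      refine ⟨rowOp r x * A, U.mul_mem hxU hA, B * colOp c y, V.mul_mem hB hyV, insert c S,
        Function.update σ c r, ?_, ?_, ?_⟩
      · rw [Finset.card_insert_of_notMem hc, hS]
      · intro s hs s' hs' hss'
        rw [Finset.coe_insert, Set.mem_insert_iff] at hs hs'
        rcases hs with rfl | hs <;> rcases hs' with rfl | hs'
        · rfl
        · rw [Function.update_self, Function.update_of_ne (hsc s' hs')] at hss'
          exact absurd hss'.symm (hσr s' hs')
        · rw [Function.update_self, Function.update_of_ne (hsc s hs)] at hss'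
          exact absurd hss' (hσr s hs)
        · rw [Function.update_of_ne (hsc s hs), Function.update_of_ne (hsc s' hs')] at hss'
          exact hσ hs hs' hss'
      · have hent : ∀ a b, (rowOp r x * A * M * (B * colOp c y)) a b =
            (N a b - x a * N r b) - (N a c - x a * N r c) * y b := by
          intro a b
          have : rowOp r x * A * M * (B * colOp c y) = (rowOp r x * N) * colOp c y := by
            rw [hNdef]; noncomm_ring
          rw [this, mul_colOp, rowOp_mul, rowOp_mul]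
        have hxr : x r = 0 := by simp [x]
        have hyc : y c = 0 := by simp [y]
        have hxa : ∀ a, a ≠ r → N a c - x a * N r c = 0 := by
          intro a ha
          simp only [x, if_neg ha]
          field_simp
          ring
        intro s hs
        rcases Finset.mem_insert.1 hs with rfl | hs
        · rw [Function.update_self]
          refine ⟨?_, ?_, ?_⟩
          · rw [hent, hxr, hyc]
            simpa using hrc
          · intro a ha
            rw [hent, hxa a ha, hyc]
            simp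
          · intro b hb
            rw [hent, hxr]
            simp only [y, if_neg hb]
            field_simp
            ring
        · rw [Function.update_of_ne (hsc s hs)]
          have hNrs : N r s = 0 := (hN s hs).2.1 r (fun h => hσr s hs h.symm)
          have hNsc : N (σ s) c = 0 := (hN s hs).2.2 c (fun h => hsc s hs h.symm)
          have hxs : x (σ s) = 0 := hx0 _ (Finset.mem_image_of_mem σ hs)
          refine ⟨?_, ?_, ?_⟩
          · rw [hent, hxs, hy0 s hs]
            simpa using (hN s hs).1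
          · intro a ha
            rw [hent, hNrs, hy0 s hs, (hN s hs).2.1 a ha]
            simp
          · intro b hb
            rw [hent, hxs, hNsc, (hN s hs).2.2 b hb]
            simp
  obtain ⟨A, hA, B, hB, S, σ, hS, hσ, hN⟩ := key n le_rfl
  have hSu : S = Finset.univ := by
    rw [← Finset.card_eq_iff_eq_univ, hS, Fintype.card_fin]
  subst hSu
  have hσi : Function.Injective σ := fun a b h => hσ (by simp) (by simp) h
  have hσb : Function.Bijective σ := Finite.injective_iff_bijective.1 hσi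
  let e : Equiv.Perm (Fin n) := Equiv.ofBijective σ hσb
  refine ⟨A, hA, B, hB, e, fun a => (A * M * B) a (e.symm a), ?_, ?_⟩
  · intro a
    have h := (hN (e.symm a) (Finset.mem_univ _)).1
    have h2 : σ (e.symm a) = a := e.apply_symm_apply a
    rwa [h2] at h
  · ext a b
    rw [Matrix.diagonal_mul]
    simp only [Matrix.of_apply, mul_ite, mul_one, mul_zero]
    by_cases hab : a = e b
    · rw [if_pos hab, hab, e.symm_apply_apply]
    · rw [if_neg hab]
      exact (hN b (Finset.mem_univ _)).2.1 a hab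

end CD

end Pool.Agent.Lib.MP_666dc0_nt.IG
end

section

/-!
# Interpolation, parts C and D: Bruhat decomposition and Smith normal form over a valuation ring
-/

namespace Pool.Agent.Lib.MP_666dc0_nt.IG

namespace CD

variable {n : ℕ}

theorem InP_diagonal {κ : Type} [CommRing κ] (lam : Fin n → ℝ) (d : Fin n → κ) :
    InP lam (Matrix.diagonal d) := by
  intro a b h
  by_contra hab
  exact h (Matrix.diagonal_apply_ne _ (fun h' => hab (h' ▸ le_rfl)))

theorem InP_one {κ : Type} [CommRing κ] (lam : Fin n → ℝ) :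
    InP lam (1 : Matrix (Fin n) (Fin n) κ) := by
  rw [← Matrix.diagonal_one]
  exact InP_diagonal lam _

theorem InP_mul {κ : Type} [CommRing κ] {lam : Fin n → ℝ} {M N : Matrix (Fin n) (Fin n) κ}
    (hM : InP lam M) (hN : InP lam N) : InP lam (M * N) := by
  intro a b h
  rw [Matrix.mul_apply] at h
  obtain ⟨k, _, hk⟩ := Finset.exists_ne_zero_of_sum_ne_zero h
  exact (hN _ _ (right_ne_zero_of_mul hk)).trans (hM _ _ (left_ne_zero_of_mul hk))

theorem InP_iff {κ : Type} [CommRing κ] {lam : Fin n → ℝ} {M : Matrix (Fin n) (Fin n) κ} :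
    InP lam M ↔ M.BlockTriangular (fun a => OrderDual.toDual (lam a)) := by
  constructor
  · intro h a b hab
    by_contra hne
    exact absurd (h a b hne) (not_le.2 (OrderDual.toDual_lt_toDual.1 hab))
  · intro h a b hne
    by_contra hab
    exact hne (h (OrderDual.toDual_lt_toDual.2 (not_le.1 hab)))

/-- `Matrix.blockTriangular_inv_of_blockTriangular` with `OrderDual.toDual ∘ lam`. -/
theorem InP_inv {κ : Type} [Field κ] {lam : Fin n → ℝ} {M M' : Matrix (Fin n) (Fin n) κ}
    (hM : InP lam M) (h : M * M' = 1) : InP lam M' := by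
  have hinv : Invertible M := ⟨M', mul_eq_one_comm.1 h, h⟩
  have h1 : M⁻¹ = M' := Matrix.inv_eq_right_inv h
  rw [InP_iff] at hM ⊢
  rw [← h1]
  exact Matrix.blockTriangular_inv_of_blockTriangular hM

theorem perm_mul {κ : Type} [CommRing κ] (σ : Equiv.Perm (Fin n)) :
    (Matrix.of fun i j => if i = σ j then (1 : κ) else 0) *
      (Matrix.of fun i j => if j = σ i then (1 : κ) else 0) = 1 := by
  ext i j
  simp only [Matrix.mul_apply, Matrix.of_apply, Matrix.one_apply]
  rw [Finset.sum_eq_single (σ.symm i)]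
  · simp [eq_comm]
  · intro k _ hk
    rw [if_neg (fun hik => hk (by rw [hik]; simp)), zero_mul]
  · simp

theorem perm_mul' {κ : Type} [CommRing κ] (σ : Equiv.Perm (Fin n)) :
    (Matrix.of fun i j => if j = σ i then (1 : κ) else 0) *
      (Matrix.of fun i j => if i = σ j then (1 : κ) else 0) = 1 := by
  ext i j
  simp only [Matrix.mul_apply, Matrix.of_apply, Matrix.one_apply]
  rw [Finset.sum_eq_single (σ i)]
  · simp
  · intro k _ hk
    rw [if_neg hk, zero_mul]
  · simp

/-- The Bruhat decomposition. From `elim` with `U = V =` the matrices of determinant `1` in `P(lam)`.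
Pivot: among the columns `c ∉ S` with a nonzero entry outside `R` take one with `lam c` maximal; then
among the `r ∉ R` with `M r c ≠ 0` one with `lam r` minimal. `A * M * B = D * W`, so
`M = (A⁻¹ * D) * W * B⁻¹`. -/
theorem bruhat {κ : Type} [Field κ] (lam : Fin n → ℝ) (M M' : Matrix (Fin n) (Fin n) κ)
    (h : M * M' = 1) :
    ∃ (b b' c c' : Matrix (Fin n) (Fin n) κ) (σ : Equiv.Perm (Fin n)),
      b * b' = 1 ∧ b' * b = 1 ∧ c * c' = 1 ∧ c' * c = 1 ∧
      InP lam b ∧ InP lam b' ∧ InP lam c ∧ InP lam c' ∧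
      M = b * (Matrix.of fun i j => if i = σ j then 1 else 0) * c := by
  classical
  let U : Submonoid (Matrix (Fin n) (Fin n) κ) :=
    { carrier := {A | InP lam A ∧ A.det = 1}
      one_mem' := ⟨InP_one lam, Matrix.det_one⟩
      mul_mem' := fun {a b} ha hb => ⟨InP_mul ha.1 hb.1, by rw [Matrix.det_mul, ha.2, hb.2, one_mul]⟩ }
  have hdet : M.det ≠ 0 := fun h0 => by
    have h1 := congrArg Matrix.det h
    rw [Matrix.det_mul, h0, zero_mul, Matrix.det_one] at h1
    exact zero_ne_one h1
  obtain ⟨A, hA, B, hB, σ, d, hd, hdec⟩ := elim U U (fun A hA => hA.2) (fun A hA => hA.2) (by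
    intro N R S hex
    obtain ⟨r₀, hr₀, c₀, hc₀, h₀⟩ := hex
    obtain ⟨c, hc, hcmax⟩ := Finset.exists_max_image
      (Finset.univ.filter fun c => c ∉ S ∧ ∃ r, r ∉ R ∧ N r c ≠ 0) lam
      ⟨c₀, Finset.mem_filter.2 ⟨Finset.mem_univ _, hc₀, r₀, hr₀, h₀⟩⟩
    obtain ⟨hcS, r₁, hr₁, h₁⟩ := (Finset.mem_filter.1 hc).2
    obtain ⟨r, hr, hrmin⟩ := Finset.exists_min_image
      (Finset.univ.filter fun r => r ∉ R ∧ N r c ≠ 0) lam
      ⟨r₁, Finset.mem_filter.2 ⟨Finset.mem_univ _, hr₁, h₁⟩⟩
    obtain ⟨hrR, hrc⟩ := (Finset.mem_filter.1 hr).2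
    refine ⟨r, hrR, c, hcS, hrc, ?_, ?_⟩
    · intro x hxr hxR hx
      refine ⟨?_, det_rowOp r x hxr⟩
      intro a b hab
      rcases eq_or_ne a b with rfl | hne
      · exact le_rfl
      · simp only [rowOp, Matrix.sub_apply, Matrix.one_apply_ne hne, Matrix.of_apply, zero_sub,
          ne_eq, neg_eq_zero, ite_eq_right_iff, Classical.not_imp] at hab
        obtain ⟨rfl, hxa⟩ := hab
        have haR : a ∉ R := fun h => hxa (hxR a h)
        rw [hx a haR hne, div_eq_zero_iff, not_or] at hxa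
        exact hrmin a (Finset.mem_filter.2 ⟨Finset.mem_univ _, haR, hxa.1⟩)
    · intro y hyc hyS hy
      refine ⟨?_, det_colOp c y hyc⟩
      intro a b hab
      rcases eq_or_ne a b with rfl | hne
      · exact le_rfl
      · simp only [colOp, Matrix.sub_apply, Matrix.one_apply_ne hne, Matrix.of_apply, zero_sub,
          ne_eq, neg_eq_zero, ite_eq_right_iff, Classical.not_imp] at hab
        obtain ⟨rfl, hyb⟩ := hab
        have hbS : b ∉ S := fun h => hyb (hyS b h)
        rw [hy b hbS hne.symm, div_eq_zero_iff, not_or] at hyb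
        exact hcmax b (Finset.mem_filter.2 ⟨Finset.mem_univ _, hbS, r, hrR, hyb.1⟩)) M hdet
  have hAA : A * A⁻¹ = 1 := Matrix.mul_nonsing_inv A (by rw [hA.2]; exact isUnit_one)
  have hAA' : A⁻¹ * A = 1 := Matrix.nonsing_inv_mul A (by rw [hA.2]; exact isUnit_one)
  have hBB : B * B⁻¹ = 1 := Matrix.mul_nonsing_inv B (by rw [hB.2]; exact isUnit_one)
  have hBB' : B⁻¹ * B = 1 := Matrix.nonsing_inv_mul B (by rw [hB.2]; exact isUnit_one)
  have hDD : Matrix.diagonal d * Matrix.diagonal (fun i => (d i)⁻¹) = 1 := by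
    rw [Matrix.diagonal_mul_diagonal, ← Matrix.diagonal_one]
    congr 1
    ext a
    exact mul_inv_cancel₀ (hd a)
  have hDD' : Matrix.diagonal (fun i => (d i)⁻¹) * Matrix.diagonal d = 1 := by
    rw [Matrix.diagonal_mul_diagonal, ← Matrix.diagonal_one]
    congr 1
    ext a
    exact inv_mul_cancel₀ (hd a)
  refine ⟨A⁻¹ * Matrix.diagonal d, Matrix.diagonal (fun i => (d i)⁻¹) * A, B⁻¹, B, σ, ?_, ?_, hBB',
    hBB, InP_mul (InP_inv hA.1 hAA) (InP_diagonal lam _), InP_mul (InP_diagonal lam _) hA.1,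
    InP_inv hB.1 hBB, hB.1, ?_⟩
  · calc A⁻¹ * Matrix.diagonal d * (Matrix.diagonal (fun i => (d i)⁻¹) * A)
        = A⁻¹ * (Matrix.diagonal d * Matrix.diagonal (fun i => (d i)⁻¹)) * A := by noncomm_ring
      _ = 1 := by rw [hDD, mul_one, hAA']
  · calc Matrix.diagonal (fun i => (d i)⁻¹) * A * (A⁻¹ * Matrix.diagonal d)
        = Matrix.diagonal (fun i => (d i)⁻¹) * (A * A⁻¹) * Matrix.diagonal d := by noncomm_ring
      _ = 1 := by rw [hAA, mul_one, hDD']
  · calc M = (A⁻¹ * A) * M * (B * B⁻¹) := by rw [hAA', hBB, one_mul, mul_one]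
      _ = A⁻¹ * (A * M * B) * B⁻¹ := by noncomm_ring
      _ = A⁻¹ * (Matrix.diagonal d * Matrix.of fun i j => if i = σ j then 1 else 0) * B⁻¹ := by
          rw [hdec]
      _ = _ := by noncomm_ring

/-- Smith normal form over a valuation ring. From `elim` with `U = V =` the matrices of determinant
`1` with entries in `V`. Pivot: an entry outside `R`, `S` with maximal value. `A * M * B = D * W`, so
`M = A⁻¹ * D * (W * B⁻¹)`; the inverse of a matrix of determinant `1` is its adjugate. -/
theorem smith {Ω : Type} [Field Ω] (V : ValuationSubring Ω) (M M' : Matrix (Fin n) (Fin n) Ω)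
    (h : M * M' = 1) :
    ∃ (b b' c c' : Matrix (Fin n) (Fin n) Ω) (d : Fin n → Ω),
      b * b' = 1 ∧ b' * b = 1 ∧ c * c' = 1 ∧ c' * c = 1 ∧
      (∀ i j, b i j ∈ V) ∧ (∀ i j, b' i j ∈ V) ∧ (∀ i j, c i j ∈ V) ∧ (∀ i j, c' i j ∈ V) ∧
      (∀ i, d i ≠ 0) ∧ M = b * Matrix.diagonal d * c := by
  classical
  have hmulV : ∀ {P Q : Matrix (Fin n) (Fin n) Ω}, (∀ i j, P i j ∈ V) → (∀ i j, Q i j ∈ V) →
      ∀ i j, (P * Q) i j ∈ V := by
    intro P Q hP hQ i j
    rw [Matrix.mul_apply]
    exact V.toSubring.sum_mem fun k _ => V.mul_mem _ _ (hP i k) (hQ k j)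
  let U : Submonoid (Matrix (Fin n) (Fin n) Ω) :=
    { carrier := {A | (∀ i j, A i j ∈ V) ∧ A.det = 1}
      one_mem' := ⟨fun i j => by
        rw [Matrix.one_apply]
        split_ifs
        · exact V.one_mem
        · exact V.zero_mem, Matrix.det_one⟩
      mul_mem' := fun {a b} ha hb => ⟨hmulV ha.1 hb.1, by rw [Matrix.det_mul, ha.2, hb.2, one_mul]⟩ }
  have hinvV : ∀ {P : Matrix (Fin n) (Fin n) Ω}, (∀ i j, P i j ∈ V) → P.det = 1 →
      ∀ i j, P⁻¹ i j ∈ V := by
    intro P hP hdet
    have h1 : P⁻¹ = P.adjugate := by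
      rw [Matrix.inv_def, hdet]
      simp
    let Q : Matrix (Fin n) (Fin n) V := Matrix.of fun i j => ⟨P i j, hP i j⟩
    have h2 : Q.adjugate.map V.subtype = P.adjugate := by
      have := RingHom.map_adjugate V.subtype Q
      exact this
    intro i j
    rw [h1, ← h2]
    exact (Q.adjugate i j).2
  have hdet : M.det ≠ 0 := fun h0 => by
    have h1 := congrArg Matrix.det h
    rw [Matrix.det_mul, h0, zero_mul, Matrix.det_one] at h1
    exact zero_ne_one h1
  obtain ⟨A, hA, B, hB, σ, d, hd, hdec⟩ := elim U U (fun A hA => hA.2) (fun A hA => hA.2) (by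
    intro N R S hex
    obtain ⟨r₀, hr₀, c₀, hc₀, h₀⟩ := hex
    obtain ⟨p, hp, hmax⟩ := Finset.exists_max_image
      (Finset.univ.filter fun p : Fin n × Fin n => p.1 ∉ R ∧ p.2 ∉ S)
      (fun p => V.valuation (N p.1 p.2)) ⟨(r₀, c₀), Finset.mem_filter.2 ⟨Finset.mem_univ _, hr₀, hc₀⟩⟩
    obtain ⟨hpR, hpS⟩ := (Finset.mem_filter.1 hp).2
    have hne : N p.1 p.2 ≠ 0 := by
      intro h0
      have := hmax (r₀, c₀) (Finset.mem_filter.2 ⟨Finset.mem_univ _, hr₀, hc₀⟩)
      rw [h0, map_zero] at this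
      exact h₀ ((Valuation.zero_iff _).1 (le_zero_iff.1 this))
    have hdiv : ∀ a b, a ∉ R → b ∉ S → N a b / N p.1 p.2 ∈ V := by
      intro a b ha hb
      rw [← V.valuation_le_one_iff, map_div₀]
      exact div_le_one_of_le₀ (hmax (a, b) (Finset.mem_filter.2 ⟨Finset.mem_univ _, ha, hb⟩)) zero_le
    refine ⟨p.1, hpR, p.2, hpS, hne, ?_, ?_⟩
    · intro x hxr hxR hx
      have hxV : ∀ a, x a ∈ V := by
        intro a
        by_cases haR : a ∈ R
        · rw [hxR a haR]; exact V.zero_mem
        · by_cases har : a = p.1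
          · rw [har, hxr]; exact V.zero_mem
          · rw [hx a haR har]; exact hdiv a _ haR hpS
      refine ⟨?_, det_rowOp _ x hxr⟩
      intro a b
      simp only [rowOp, Matrix.sub_apply, Matrix.of_apply, Matrix.one_apply]
      refine V.toSubring.sub_mem ?_ ?_
      · split_ifs
        · exact V.one_mem
        · exact V.zero_mem
      · split_ifs
        · exact hxV a
        · exact V.zero_mem
    · intro y hyc hyS hy
      have hyV : ∀ a, y a ∈ V := by
        intro a
        by_cases haS : a ∈ S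
        · rw [hyS a haS]; exact V.zero_mem
        · by_cases hac : a = p.2
          · rw [hac, hyc]; exact V.zero_mem
          · rw [hy a haS hac]; exact hdiv _ a hpR haS
      refine ⟨?_, det_colOp _ y hyc⟩
      intro a b
      simp only [colOp, Matrix.sub_apply, Matrix.of_apply, Matrix.one_apply]
      refine V.toSubring.sub_mem ?_ ?_
      · split_ifs
        · exact V.one_mem
        · exact V.zero_mem
      · split_ifs
        · exact hyV b
        · exact V.zero_mem) M hdet
  have hAA : A * A⁻¹ = 1 := Matrix.mul_nonsing_inv A (by rw [hA.2]; exact isUnit_one)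
  have hAA' : A⁻¹ * A = 1 := Matrix.nonsing_inv_mul A (by rw [hA.2]; exact isUnit_one)
  have hBB : B * B⁻¹ = 1 := Matrix.mul_nonsing_inv B (by rw [hB.2]; exact isUnit_one)
  have hBB' : B⁻¹ * B = 1 := Matrix.nonsing_inv_mul B (by rw [hB.2]; exact isUnit_one)
  have hWV : ∀ i j, (Matrix.of fun i j => if i = σ j then (1 : Ω) else 0) i j ∈ V := by
    intro i j
    simp only [Matrix.of_apply]
    split_ifs
    · exact V.one_mem
    · exact V.zero_mem
  have hWV' : ∀ i j, (Matrix.of fun i j => if j = σ i then (1 : Ω) else 0) i j ∈ V := by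
    intro i j
    simp only [Matrix.of_apply]
    split_ifs
    · exact V.one_mem
    · exact V.zero_mem
  refine ⟨A⁻¹, A, (Matrix.of fun i j => if i = σ j then (1 : Ω) else 0) * B⁻¹,
    B * (Matrix.of fun i j => if j = σ i then (1 : Ω) else 0), d, hAA', hAA, ?_, ?_,
    hinvV hA.1 hA.2, hA.1, hmulV hWV (hinvV hB.1 hB.2), hmulV hB.1 hWV', hd, ?_⟩
  · calc (Matrix.of fun i j => if i = σ j then (1 : Ω) else 0) * B⁻¹ *
          (B * (Matrix.of fun i j => if j = σ i then (1 : Ω) else 0))
        = (Matrix.of fun i j => if i = σ j then (1 : Ω) else 0) * (B⁻¹ * B) *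
          (Matrix.of fun i j => if j = σ i then (1 : Ω) else 0) := by noncomm_ring
      _ = 1 := by rw [hBB', mul_one, perm_mul]
  · calc B * (Matrix.of fun i j => if j = σ i then (1 : Ω) else 0) *
          ((Matrix.of fun i j => if i = σ j then (1 : Ω) else 0) * B⁻¹)
        = B * ((Matrix.of fun i j => if j = σ i then (1 : Ω) else 0) *
          (Matrix.of fun i j => if i = σ j then (1 : Ω) else 0)) * B⁻¹ := by noncomm_ring
      _ = 1 := by rw [perm_mul', mul_one, hBB]
  · calc M = (A⁻¹ * A) * M * (B * B⁻¹) := by rw [hAA', hBB, one_mul, mul_one]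
      _ = A⁻¹ * (A * M * B) * B⁻¹ := by noncomm_ring
      _ = A⁻¹ * (Matrix.diagonal d * Matrix.of fun i j => if i = σ j then 1 else 0) * B⁻¹ := by
          rw [hdec]
      _ = _ := by noncomm_ring

end CD

end Pool.Agent.Lib.MP_666dc0_nt.IG
end

section

/-!
# Interpolation, parts C and D: basic facts on the action on families of tensors
-/

open MvPolynomial

namespace Pool.Agent.Lib.MP_666dc0_nt.IG

namespace CD

variable {A : Type} [CommRing A] {n : ℕ} {s : Shape}

theorem sum_prod_mul {A : Type} [CommRing A] {n p : ℕ} (f g : Fin p → Fin n → A) :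
    ∑ L : Fin p → Fin n, ∏ i, (f i (L i) * g i (L i)) = ∏ i, ∑ l, f i l * g i l := by
  rw [Finset.prod_univ_sum, Fintype.piFinset_univ]

theorem prod_mul_entry {A : Type} [CommRing A] {n p : ℕ} (h k : Matrix (Fin n) (Fin n) A)
    (I J : Fin p → Fin n) :
    ∏ i, (h * k) (I i) (J i) = ∑ L : Fin p → Fin n, (∏ i, h (I i) (L i)) * ∏ i, k (L i) (J i) := by
  simp only [Matrix.mul_apply, ← Finset.prod_mul_distrib]
  exact (sum_prod_mul (fun i l => h (I i) l) (fun i l => k l (J i))).symm

/-- The action is multiplicative. -/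
theorem act_act (h h' k k' : Matrix (Fin n) (Fin n) A) (t : s.Ix n → A) :
    act h h' (act k k' t) = act (h * k) (k' * h') t := by
  funext x
  obtain ⟨b, c, I, J⟩ := x
  simp only [act]
  have h1 : ∀ (L' : Fin (s.p b) → Fin n) (M' : Fin (s.q b) → Fin n),
      (∏ i, (h * k) (I i) (L' i)) * (∏ j, (k' * h') (M' j) (J j)) * t ⟨b, c, L', M'⟩ =
      ∑ L : Fin (s.p b) → Fin n, ∑ M : Fin (s.q b) → Fin n,
        ((∏ i, h (I i) (L i)) * (∏ i, k (L i) (L' i))) *
        ((∏ j, k' (M' j) (M j)) * (∏ j, h' (M j) (J j))) * t ⟨b, c, L', M'⟩ := by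
    intro L' M'
    rw [prod_mul_entry, prod_mul_entry, Finset.sum_mul_sum, Finset.sum_mul]
    refine Finset.sum_congr rfl fun L _ => ?_
    rw [Finset.sum_mul]
  simp only [h1]
  have h2 : ∀ (L : Fin (s.p b) → Fin n) (M : Fin (s.q b) → Fin n),
      (∏ i, h (I i) (L i)) * (∏ j, h' (M j) (J j)) *
        (∑ L' : Fin (s.p b) → Fin n, ∑ M' : Fin (s.q b) → Fin n,
          (∏ i, k (L i) (L' i)) * (∏ j, k' (M' j) (M j)) * t ⟨b, c, L', M'⟩) =
      ∑ L' : Fin (s.p b) → Fin n, ∑ M' : Fin (s.q b) → Fin n,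
        ((∏ i, h (I i) (L i)) * (∏ i, k (L i) (L' i))) *
        ((∏ j, k' (M' j) (M j)) * (∏ j, h' (M j) (J j))) * t ⟨b, c, L', M'⟩ := by
    intro L M
    rw [Finset.mul_sum]
    refine Finset.sum_congr rfl fun L' _ => ?_
    rw [Finset.mul_sum]
    refine Finset.sum_congr rfl fun M' _ => ?_
    ring
  refine (Finset.sum_congr rfl fun L _ => Finset.sum_congr rfl fun M _ => h2 L M).trans ?_
  -- exchange the sums
  calc ∑ L : Fin (s.p b) → Fin n, ∑ M : Fin (s.q b) → Fin n,
        ∑ L' : Fin (s.p b) → Fin n, ∑ M' : Fin (s.q b) → Fin n,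
        ((∏ i, h (I i) (L i)) * (∏ i, k (L i) (L' i))) *
        ((∏ j, k' (M' j) (M j)) * (∏ j, h' (M j) (J j))) * t ⟨b, c, L', M'⟩
      = ∑ L : Fin (s.p b) → Fin n, ∑ L' : Fin (s.p b) → Fin n,
        ∑ M : Fin (s.q b) → Fin n, ∑ M' : Fin (s.q b) → Fin n,
        ((∏ i, h (I i) (L i)) * (∏ i, k (L i) (L' i))) *
        ((∏ j, k' (M' j) (M j)) * (∏ j, h' (M j) (J j))) * t ⟨b, c, L', M'⟩ :=
        Finset.sum_congr rfl fun L _ => Finset.sum_comm
    _ = ∑ L' : Fin (s.p b) → Fin n, ∑ L : Fin (s.p b) → Fin n,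
        ∑ M : Fin (s.q b) → Fin n, ∑ M' : Fin (s.q b) → Fin n,
        ((∏ i, h (I i) (L i)) * (∏ i, k (L i) (L' i))) *
        ((∏ j, k' (M' j) (M j)) * (∏ j, h' (M j) (J j))) * t ⟨b, c, L', M'⟩ := Finset.sum_comm
    _ = ∑ L' : Fin (s.p b) → Fin n, ∑ L : Fin (s.p b) → Fin n,
        ∑ M' : Fin (s.q b) → Fin n, ∑ M : Fin (s.q b) → Fin n,
        ((∏ i, h (I i) (L i)) * (∏ i, k (L i) (L' i))) *
        ((∏ j, k' (M' j) (M j)) * (∏ j, h' (M j) (J j))) * t ⟨b, c, L', M'⟩ :=
        Finset.sum_congr rfl fun L' _ => Finset.sum_congr rfl fun L _ => Finset.sum_comm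
    _ = ∑ L' : Fin (s.p b) → Fin n, ∑ M' : Fin (s.q b) → Fin n,
        ∑ L : Fin (s.p b) → Fin n, ∑ M : Fin (s.q b) → Fin n,
        ((∏ i, h (I i) (L i)) * (∏ i, k (L i) (L' i))) *
        ((∏ j, k' (M' j) (M j)) * (∏ j, h' (M j) (J j))) * t ⟨b, c, L', M'⟩ :=
        Finset.sum_congr rfl fun L' _ => Finset.sum_comm

theorem prod_one_entry {A : Type} [CommRing A] {n p : ℕ} (I L : Fin p → Fin n) :
    ∏ i, (1 : Matrix (Fin n) (Fin n) A) (I i) (L i) = if L = I then 1 else 0 := by
  split_ifs with h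
  · subst h
    simp
  · obtain ⟨i, hi⟩ := Function.ne_iff.1 h
    exact Finset.prod_eq_zero (Finset.mem_univ i) (Matrix.one_apply_ne' hi)

/-- The action of diagonal matrices. -/
theorem act_diagonal (d d' : Fin n → A) (t : s.Ix n → A) (x : s.Ix n) :
    act (Matrix.diagonal d) (Matrix.diagonal d') t x =
      (∏ i, d (x.2.2.1 i)) * (∏ j, d' (x.2.2.2 j)) * t x := by
  obtain ⟨b, c, I, J⟩ := x
  simp only [act]
  rw [Finset.sum_eq_single I, Finset.sum_eq_single J]
  · simp
  · intro M _ hM
    obtain ⟨j, hj⟩ := Function.ne_iff.1 hM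
    rw [Finset.prod_eq_zero (f := fun j => Matrix.diagonal d' (M j) (J j)) (Finset.mem_univ j)
      (Matrix.diagonal_apply_ne _ hj), mul_zero, zero_mul]
  · simp
  · intro L _ hL
    obtain ⟨i, hi⟩ := Function.ne_iff.1 hL
    refine Finset.sum_eq_zero fun M _ => ?_
    rw [Finset.prod_eq_zero (f := fun i => Matrix.diagonal d (I i) (L i)) (Finset.mem_univ i)
      (Matrix.diagonal_apply_ne _ (Ne.symm hi)), zero_mul, zero_mul]
  · simp

theorem act_one (t : s.Ix n → A) : act 1 1 t = t := by
  funext x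
  rw [← Matrix.diagonal_one, act_diagonal]
  simp

/-- The action of permutation matrices. -/
theorem act_perm (σ : Equiv.Perm (Fin n)) (t : s.Ix n → A) (x : s.Ix n) :
    act (Matrix.of fun a b => if a = σ b then 1 else 0)
      (Matrix.of fun a b => if b = σ a then 1 else 0) t x =
      t ⟨x.1, x.2.1, fun i => σ.symm (x.2.2.1 i), fun j => σ.symm (x.2.2.2 j)⟩ := by
  obtain ⟨b, c, I, J⟩ := x
  simp only [act, Matrix.of_apply]
  rw [Finset.sum_eq_single (fun i => σ.symm (I i)), Finset.sum_eq_single (fun j => σ.symm (J j))]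
  · simp
  · intro M _ hM
    obtain ⟨j, hj⟩ := Function.ne_iff.1 hM
    rw [Finset.prod_eq_zero (f := fun j => if J j = σ (M j) then (1 : A) else 0)
      (Finset.mem_univ j) (if_neg fun h => hj (by rw [h, σ.symm_apply_apply])), mul_zero, zero_mul]
  · simp
  · intro L _ hL
    obtain ⟨i, hi⟩ := Function.ne_iff.1 hL
    refine Finset.sum_eq_zero fun M _ => ?_
    rw [Finset.prod_eq_zero (f := fun i => if I i = σ (L i) then (1 : A) else 0)
      (Finset.mem_univ i) (if_neg fun h => hi (by rw [h, σ.symm_apply_apply])), zero_mul, zero_mul]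
  · simp

/-- The action commutes with ring homomorphisms. -/
theorem act_map {B : Type} [CommRing B] (f : A →+* B) (k k' : Matrix (Fin n) (Fin n) A)
    (t : s.Ix n → A) (x : s.Ix n) :
    f (act k k' t x) = act (k.map f) (k'.map f) (fun y => f (t y)) x := by
  simp only [act, map_sum, map_mul, map_prod, Matrix.map_apply]

/-- The action commutes with linear combinations of tensors of the same type. -/
theorem act_mix [∀ b, Fintype (s.C b)] (D : (b : s.β) → s.C b → s.C b → A)
    (k k' : Matrix (Fin n) (Fin n) A) (t : s.Ix n → A) :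
    act k k' (mix D t) = mix D (act k k' t) := by
  funext x
  obtain ⟨b, c, I, J⟩ := x
  simp only [act, mix]
  simp only [Finset.mul_sum]
  calc ∑ L : Fin (s.p b) → Fin n, ∑ M : Fin (s.q b) → Fin n, ∑ c', _
      = ∑ L : Fin (s.p b) → Fin n, ∑ c', ∑ M : Fin (s.q b) → Fin n, _ :=
        Finset.sum_congr rfl fun L _ => Finset.sum_comm
    _ = ∑ c', ∑ L : Fin (s.p b) → Fin n, ∑ M : Fin (s.q b) → Fin n, _ := Finset.sum_comm
    _ = _ := by
      refine Finset.sum_congr rfl fun c' _ => Finset.sum_congr rfl fun L _ =>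
        Finset.sum_congr rfl fun M _ => ?_
      ring

/-- Values in an additive subgroup stable under multiplication by the entries. -/
theorem act_mem {R : Subring A} (I : s.β → AddSubgroup A) (hI : ∀ b, ∀ r ∈ R, ∀ a ∈ I b, r * a ∈ I b)
    (k k' : Matrix (Fin n) (Fin n) A) (hk : ∀ i j, k i j ∈ R) (hk' : ∀ i j, k' i j ∈ R)
    (t : s.Ix n → A) (ht : ∀ x, t x ∈ I x.1) (x : s.Ix n) : act k k' t x ∈ I x.1 := by
  obtain ⟨b, c, J, J'⟩ := x
  refine AddSubgroup.sum_mem _ fun L _ => AddSubgroup.sum_mem _ fun M _ => ?_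
  exact hI b _ (R.mul_mem (R.prod_mem fun i _ => hk _ _) (R.prod_mem fun i _ => hk' _ _)) _
    (ht ⟨b, c, L, M⟩)

/-- `P(lam)` does not enlarge supports in `wt ≥ c`. -/
theorem act_support {κ : Type} [Field κ] {lam : Fin n → ℝ} {k k' : Matrix (Fin n) (Fin n) κ}
    (hk : InP lam k) (hk' : InP lam k') {c : s.β → ℝ} {t : s.Ix n → κ}
    (ht : ∀ x, t x ≠ 0 → c x.1 ≤ wt lam x) (x : s.Ix n) (hx : act k k' t x ≠ 0) :
    c x.1 ≤ wt lam x := by
  obtain ⟨b, c', I, J⟩ := x
  obtain ⟨L, _, hL⟩ := Finset.exists_ne_zero_of_sum_ne_zero hx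
  obtain ⟨M, _, hM⟩ := Finset.exists_ne_zero_of_sum_ne_zero hL
  have h1 := right_ne_zero_of_mul hM
  have h2 := left_ne_zero_of_mul hM
  have h3 := Finset.prod_ne_zero_iff.1 (left_ne_zero_of_mul h2)
  have h4 := Finset.prod_ne_zero_iff.1 (right_ne_zero_of_mul h2)
  refine (ht ⟨b, c', L, M⟩ h1).trans ?_
  simp only [wt]
  refine sub_le_sub (Finset.sum_le_sum fun i hi => hk _ _ (h3 i hi))
    (Finset.sum_le_sum fun j hj => hk' _ _ (h4 j hj))

theorem mix_support {κ : Type} [Field κ] {lam : Fin n → ℝ} [∀ b, Fintype (s.C b)]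
    (D : (b : s.β) → s.C b → s.C b → κ) {c : s.β → ℝ} {t : s.Ix n → κ}
    (ht : ∀ x, t x ≠ 0 → c x.1 ≤ wt lam x) (x : s.Ix n) (hx : mix D t x ≠ 0) :
    c x.1 ≤ wt lam x := by
  obtain ⟨b, c', I, J⟩ := x
  obtain ⟨d, _, hd⟩ := Finset.exists_ne_zero_of_sum_ne_zero hx
  exact ht ⟨b, d, I, J⟩ (right_ne_zero_of_mul hd)

end CD

end Pool.Agent.Lib.MP_666dc0_nt.IG
end
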