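import Mathlib
import Pool.Agent.Lib.MP_666dc0_nt.IG.Defs

section

/-!
# Interpolation, part C: from an ordered group to real weights
-/

namespace Pool.Agent.Lib.MP_666dc0_nt.IG

namespace CD

/-- Fourier-Motzkin elimination. Induction on `n`; for `n = 0` the set `E` is empty. Step
(`Fin.sum_univ_castSucc`): let `E' ` consist of the `w ∘ castSucc`, `w ∈ E`, `w (last) = 0`, and of the
`(-w' last) • (w ∘ castSucc) + (w last) • (w' ∘ castSucc)` for `w, w' ∈ E`, `0 < w last`,
`w' last < 0`. All these are positive on `nu ∘ castSucc`. Let `lam'` be as in the induction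
hypothesis for `E'`. The lower bounds `-(∑ w i * lam' i) / w last` for `w last > 0` are smaller than
the upper bounds `(∑ w' i * lam' i) / (-w' last)` for `w' last < 0`; take a number in between
(`Order.exists_between_finsets`) as last coordinate of `lam` (`Fin.snoc`). -/
theorem gordan_strict {Λ : Type} [AddCommGroup Λ] [LinearOrder Λ] [IsOrderedAddMonoid Λ] :
    ∀ (n : ℕ) (nu : Fin n → Λ) (E : Finset (Fin n → ℤ)), (∀ w ∈ E, 0 < ∑ i, w i • nu i) →
      ∃ lam : Fin n → ℝ, ∀ w ∈ E, 0 < ∑ i, (w i : ℝ) * lam i := by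
  classical
  intro n
  induction n with
  | zero =>
    intro nu E hE
    refine ⟨fun _ => 0, fun w hw => ?_⟩
    have := hE w hw
    simp at this
  | succ n ih =>
    intro nu E hE
    set comb : (Fin (n + 1) → ℤ) × (Fin (n + 1) → ℤ) → (Fin n → ℤ) := fun p i =>
      (-(p.2 (Fin.last n))) * p.1 i.castSucc + p.1 (Fin.last n) * p.2 i.castSucc with hcomb
    set E' : Finset (Fin n → ℤ) :=
      (E.filter (fun w => w (Fin.last n) = 0)).image (fun w i => w i.castSucc) ∪
      ((E.filter (fun w => 0 < w (Fin.last n))) ×ˢ (E.filter (fun w => w (Fin.last n) < 0))).image comb with hE'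
    have hpos : ∀ w ∈ E', 0 < ∑ i, w i • nu i.castSucc := by
      intro w hw
      rw [hE', Finset.mem_union] at hw
      rcases hw with hw | hw
      · obtain ⟨w0, hw0, rfl⟩ := Finset.mem_image.1 hw
        rw [Finset.mem_filter] at hw0
        have := hE w0 hw0.1
        rw [Fin.sum_univ_castSucc, hw0.2, zero_smul, add_zero] at this
        exact this
      · obtain ⟨⟨w1, w2⟩, hp, rfl⟩ := Finset.mem_image.1 hw
        rw [Finset.mem_product, Finset.mem_filter, Finset.mem_filter] at hp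
        obtain ⟨⟨h1, l1⟩, h2, l2⟩ := hp
        have p1 := hE w1 h1
        have p2 := hE w2 h2
        simp only at l1 l2 p1 p2
        rw [Fin.sum_univ_castSucc] at p1 p2
        have q1 : 0 < (-(w2 (Fin.last n))) • (∑ i : Fin n, w1 i.castSucc • nu i.castSucc + w1 (Fin.last n) • nu (Fin.last n)) :=
          zsmul_pos p1 (by linarith)
        have q2 : 0 < (w1 (Fin.last n)) • (∑ i : Fin n, w2 i.castSucc • nu i.castSucc + w2 (Fin.last n) • nu (Fin.last n)) :=
          zsmul_pos p2 l1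
        have q3 := add_pos q1 q2
        have e : (-(w2 (Fin.last n))) • (∑ i : Fin n, w1 i.castSucc • nu i.castSucc + w1 (Fin.last n) • nu (Fin.last n)) +
            (w1 (Fin.last n)) • (∑ i : Fin n, w2 i.castSucc • nu i.castSucc + w2 (Fin.last n) • nu (Fin.last n)) =
            ∑ i : Fin n, comb (w1, w2) i • nu i.castSucc := by
          have e1 : ∑ i : Fin n, comb (w1, w2) i • nu i.castSucc =
              (-(w2 (Fin.last n))) • ∑ i : Fin n, w1 i.castSucc • nu i.castSucc +
              (w1 (Fin.last n)) • ∑ i : Fin n, w2 i.castSucc • nu i.castSucc := by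
            rw [Finset.smul_sum, Finset.smul_sum, ← Finset.sum_add_distrib]
            refine Finset.sum_congr rfl fun i _ => ?_
            rw [hcomb]
            simp only
            rw [add_smul, mul_smul, mul_smul]
          rw [e1, smul_add, smul_add, smul_smul, smul_smul]
          have e2 : (-(w2 (Fin.last n)) * w1 (Fin.last n)) • nu (Fin.last n) +
              (w1 (Fin.last n) * w2 (Fin.last n)) • nu (Fin.last n) = 0 := by
            rw [← add_smul]
            have : -(w2 (Fin.last n)) * w1 (Fin.last n) + w1 (Fin.last n) * w2 (Fin.last n) = 0 := by ring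
            rw [this, zero_smul]
          calc _ = ((-(w2 (Fin.last n))) • ∑ i : Fin n, w1 i.castSucc • nu i.castSucc +
              (w1 (Fin.last n)) • ∑ i : Fin n, w2 i.castSucc • nu i.castSucc) +
              ((-(w2 (Fin.last n)) * w1 (Fin.last n)) • nu (Fin.last n) +
              (w1 (Fin.last n) * w2 (Fin.last n)) • nu (Fin.last n)) := by abel
            _ = _ := by rw [e2, add_zero]
        rw [← e]
        exact q3
    obtain ⟨lam', hlam'⟩ := ih (fun i => nu i.castSucc) E' hpos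
    set L : (Fin (n + 1) → ℤ) → ℝ := fun w => ∑ i : Fin n, (w i.castSucc : ℝ) * lam' i with hL
    set lo : Finset ℝ := (E.filter (fun w => 0 < w (Fin.last n))).image (fun w => -(L w) / (w (Fin.last n) : ℝ)) with hlo
    set hi : Finset ℝ := (E.filter (fun w => w (Fin.last n) < 0)).image (fun w => L w / (-(w (Fin.last n) : ℝ))) with hhi
    obtain ⟨m, m1, m2⟩ := Order.exists_between_finsets lo hi (by
      intro x hx y hy
      obtain ⟨w1, h1, rfl⟩ := Finset.mem_image.1 hx
      obtain ⟨w2, h2, rfl⟩ := Finset.mem_image.1 hy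
      have l1 := (Finset.mem_filter.1 h1).2
      have l2 := (Finset.mem_filter.1 h2).2
      have hmem : comb (w1, w2) ∈ E' := by
        rw [hE', Finset.mem_union]
        right
        exact Finset.mem_image_of_mem _ (Finset.mem_product.2 ⟨h1, h2⟩)
      have h3 := hlam' _ hmem
      have e1 : ∑ i : Fin n, ((comb (w1, w2) i : ℤ) : ℝ) * lam' i = (-(w2 (Fin.last n) : ℝ)) * L w1 + (w1 (Fin.last n) : ℝ) * L w2 := by
        rw [hL]
        simp only
        rw [Finset.mul_sum, Finset.mul_sum, ← Finset.sum_add_distrib]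
        refine Finset.sum_congr rfl fun i _ => ?_
        rw [hcomb]
        push_cast
        ring
      rw [e1] at h3
      have r1 : (0 : ℝ) < (w1 (Fin.last n) : ℝ) := by exact_mod_cast l1
      have r2 : (0 : ℝ) < -(w2 (Fin.last n) : ℝ) := by
        have : ((w2 (Fin.last n) : ℤ) : ℝ) < 0 := by exact_mod_cast l2
        linarith
      rw [div_lt_div_iff₀ r1 r2]
      nlinarith)
    refine ⟨Fin.snoc lam' m, fun w hw => ?_⟩
    have e : ∑ i : Fin (n + 1), (w i : ℝ) * (Fin.snoc lam' m : Fin (n + 1) → ℝ) i = L w + (w (Fin.last n) : ℝ) * m := by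
      rw [Fin.sum_univ_castSucc, Fin.snoc_last]
      congr 1
      refine Finset.sum_congr rfl fun i _ => ?_
      rw [Fin.snoc_castSucc]
    rw [e]
    rcases lt_trichotomy (w (Fin.last n)) 0 with h | h | h
    · have := m2 _ (Finset.mem_image_of_mem _ (Finset.mem_filter.2 ⟨hw, h⟩))
      have r2 : (0 : ℝ) < -(w (Fin.last n) : ℝ) := by
        have : ((w (Fin.last n) : ℤ) : ℝ) < 0 := by exact_mod_cast h
        linarith
      rw [lt_div_iff₀ r2] at this
      linarith
    · have hmem : (fun i : Fin n => w i.castSucc) ∈ E' := by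
        rw [hE', Finset.mem_union]
        left
        exact Finset.mem_image.2 ⟨w, Finset.mem_filter.2 ⟨hw, h⟩, rfl⟩
      have h3 := hlam' _ hmem
      rw [h, Int.cast_zero, zero_mul, add_zero]
      exact h3
    · have := m1 _ (Finset.mem_image_of_mem _ (Finset.mem_filter.2 ⟨hw, h⟩))
      have r1 : (0 : ℝ) < (w (Fin.last n) : ℝ) := by exact_mod_cast h
      rw [div_lt_iff₀ r1] at this
      linarith

/-- The subgroup generated by the `nu i` is finitely generated and torsion free, so it has a basis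
`e : Fin r → _`. Apply `gordan_strict` to `e` and the coordinate vectors of the elements
`∑ i, w i • nu i`, `w ∈ E`, if positive; `lam i = ∑ j, (repr (nu i) j) * lam' j`; then
`∑ i, w i * lam i = ∑ j, (repr (∑ i, w i • nu i) j) * lam' j`. Finally multiply `lam` by a big
constant. -/
theorem gordan {Λ : Type} [AddCommGroup Λ] [LinearOrder Λ] [IsOrderedAddMonoid Λ] {n : ℕ}
    (nu : Fin n → Λ) (E : Finset (Fin n → ℤ)) (hE : ∀ w ∈ E, 0 ≤ ∑ i, w i • nu i) :
    ∃ lam : Fin n → ℝ, ∀ w ∈ E, 0 ≤ ∑ i, (w i : ℝ) * lam i ∧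
      (0 < ∑ i, w i • nu i → 1 ≤ ∑ i, (w i : ℝ) * lam i) := by
  classical
  set G : Submodule ℤ Λ := Submodule.span ℤ (Set.range nu) with hG
  have : Module.Finite ℤ G := Module.Finite.span_of_finite ℤ (Set.finite_range nu)
  have : Module.Free ℤ G := Module.free_of_finite_type_torsion_free'
  set e := Module.finBasis ℤ G with he
  set ng : Fin n → G := fun i => ⟨nu i, Submodule.subset_span ⟨i, rfl⟩⟩ with hng
  set g : (Fin n → ℤ) → G := fun w => ∑ i, w i • ng i with hg
  have hgv : ∀ w, (g w : Λ) = ∑ i, w i • nu i := by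
    intro w
    rw [hg]
    simp only
    rw [AddSubmonoidClass.coe_finsetSum]
    rfl
  set F : Finset (Fin (Module.finrank ℤ G) → ℤ) :=
    (E.filter (fun w => 0 < ∑ i, w i • nu i)).image (fun w j => e.repr (g w) j) with hF
  obtain ⟨lam', hlam'⟩ := gordan_strict (Module.finrank ℤ G) (fun j => (e j : Λ)) F (by
    intro c hc
    obtain ⟨w, hw, rfl⟩ := Finset.mem_image.1 hc
    have h1 := (Finset.mem_filter.1 hw).2
    have h2 : ∑ j, e.repr (g w) j • (e j : Λ) = (g w : Λ) := by
      conv_rhs => rw [← e.sum_repr (g w)]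
      rw [AddSubmonoidClass.coe_finsetSum]
      rfl
    show 0 < ∑ j, e.repr (g w) j • (e j : Λ)
    rw [h2, hgv]
    exact h1)
  set lam0 : Fin n → ℝ := fun i => ∑ j, (e.repr (ng i) j : ℝ) * lam' j with hlam0
  have hsum : ∀ w : Fin n → ℤ, ∑ i, (w i : ℝ) * lam0 i = ∑ j, ((e.repr (g w) j : ℤ) : ℝ) * lam' j := by
    intro w
    have h1 : ∀ j, e.repr (g w) j = ∑ i, w i * e.repr (ng i) j := by
      intro j
      rw [hg]
      simp only
      rw [map_sum, Finsupp.finsetSum_apply]
      refine Finset.sum_congr rfl fun i _ => ?_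
      rw [map_smul, Finsupp.smul_apply, smul_eq_mul]
    simp_rw [h1]
    rw [hlam0]
    push_cast
    simp_rw [Finset.mul_sum, Finset.sum_mul]
    rw [Finset.sum_comm]
    refine Finset.sum_congr rfl fun j _ => Finset.sum_congr rfl fun i _ => ?_
    ring
  have hpos : ∀ w ∈ E, 0 < ∑ i, w i • nu i → 0 < ∑ i, (w i : ℝ) * lam0 i := by
    intro w hw h
    rw [hsum]
    exact hlam' _ (Finset.mem_image.2 ⟨w, Finset.mem_filter.2 ⟨hw, h⟩, rfl⟩)
  have hzero : ∀ w : Fin n → ℤ, ∑ i, w i • nu i = 0 → ∑ i, (w i : ℝ) * lam0 i = 0 := by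
    intro w h
    have h1 : g w = 0 := by
      apply Subtype.ext
      rw [hgv, h]
      rfl
    rw [hsum, h1]
    simp
  set c : ℝ := ∑ w ∈ E.filter (fun w => 0 < ∑ i, w i • nu i), 1 / (∑ i, (w i : ℝ) * lam0 i) with hc
  have hterm : ∀ w ∈ E.filter (fun w => 0 < ∑ i, w i • nu i), 0 ≤ 1 / (∑ i, (w i : ℝ) * lam0 i) := by
    intro w hw
    rw [Finset.mem_filter] at hw
    exact (one_div_pos.2 (hpos w hw.1 hw.2)).le
  have hc0 : 0 ≤ c := Finset.sum_nonneg hterm
  have hscale : ∀ w : Fin n → ℤ, ∑ i, (w i : ℝ) * (c * lam0 i) = c * ∑ i, (w i : ℝ) * lam0 i := by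
    intro w
    rw [Finset.mul_sum]
    refine Finset.sum_congr rfl fun i _ => ?_
    ring
  have hone : ∀ w ∈ E, 0 < ∑ i, w i • nu i → 1 ≤ ∑ i, (w i : ℝ) * (c * lam0 i) := by
    intro w hw h
    rw [hscale]
    have h1 := hpos w hw h
    have h2 : 1 / (∑ i, (w i : ℝ) * lam0 i) ≤ c :=
      Finset.single_le_sum hterm (Finset.mem_filter.2 ⟨hw, h⟩)
    rw [div_le_iff₀ h1] at h2
    exact h2
  refine ⟨fun i => c * lam0 i, fun w hw => ⟨?_, hone w hw⟩⟩
  rcases (hE w hw).eq_or_lt with h | h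
  · rw [hscale, hzero w h.symm, mul_zero]
  · exact zero_le_one.trans (hone w hw h)

end CD

end Pool.Agent.Lib.MP_666dc0_nt.IG
end

section

/-!
# Interpolation, part D: minimal weights
-/

namespace Pool.Agent.Lib.MP_666dc0_nt.IG

namespace CD

variable {n : ℕ} {s : Shape}

/-- `lam ↦ wt lam x` is continuous. -/
theorem continuous_wt (x : s.Ix n) : Continuous fun lam : Fin n → ℝ => wt lam x := by
  unfold wt
  fun_prop

theorem wt_comp (lam : Fin n → ℝ) (σ : Equiv.Perm (Fin n)) (x : s.Ix n) :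
    wt (fun a => lam (σ a)) x =
      wt lam (⟨x.1, x.2.1, fun i => σ (x.2.2.1 i), fun j => σ (x.2.2.2 j)⟩ : s.Ix n) := rfl

theorem wt_avg (lam mu : Fin n → ℝ) (x : s.Ix n) :
    wt (fun a => (lam a + mu a) / 2) x = (wt lam x + wt mu x) / 2 := by
  simp only [wt, ← Finset.sum_div, Finset.sum_add_distrib]
  ring

/-- A nonempty set of pairs `(X, lam)` (`X` in a family `P` of subsets of the finite set `s.Ix n`,
`c x.1 ≤ wt lam x` for `x ∈ X`) contains a pair with `∑ a, lam a ^ 2` minimal: the set of all `lam`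
is a finite union of closed sets, so closed; take the point of minimal norm in the
euclidean space (`IsClosed.exists_infDist_eq_dist`). -/
theorem exists_min [s.Small] (P : Set (Set (s.Ix n))) (c : s.β → ℝ)
    (hne : ∃ X ∈ P, ∃ lam : Fin n → ℝ, ∀ x ∈ X, c x.1 ≤ wt lam x) :
    ∃ X ∈ P, ∃ lam : Fin n → ℝ, (∀ x ∈ X, c x.1 ≤ wt lam x) ∧
      ∀ Y ∈ P, ∀ mu : Fin n → ℝ, (∀ x ∈ Y, c x.1 ≤ wt mu x) →
        ∑ a, lam a ^ 2 ≤ ∑ a, mu a ^ 2 := by
  classical
  have hfin : Fintype (s.Ix n) := by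
    unfold Shape.Ix
    infer_instance
  let S : Set (EuclideanSpace ℝ (Fin n)) :=
    ⋃ X ∈ P, {lam | ∀ x ∈ X, c x.1 ≤ wt (fun a => lam a) x}
  have hS : IsClosed S := by
    refine (Set.toFinite P).isClosed_biUnion fun X _ => ?_
    have : {lam : EuclideanSpace ℝ (Fin n) | ∀ x ∈ X, c x.1 ≤ wt (fun a => lam a) x} =
        ⋂ x ∈ X, {lam | c x.1 ≤ wt (fun a => lam a) x} := by
      ext lam
      simp
    rw [this]
    refine isClosed_biInter fun x _ => ?_
    refine isClosed_le continuous_const ?_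
    exact (continuous_wt x).comp (continuous_pi fun a => by fun_prop)
  have hSne : S.Nonempty := by
    obtain ⟨X, hX, lam, hlam⟩ := hne
    exact ⟨WithLp.toLp 2 lam, Set.mem_biUnion hX hlam⟩
  obtain ⟨lam, hlam, hmin⟩ := hS.exists_infDist_eq_dist hSne (0 : EuclideanSpace ℝ (Fin n))
  obtain ⟨X, hX, hX'⟩ := Set.mem_iUnion₂.1 hlam
  refine ⟨X, hX, fun a => lam a, hX', ?_⟩
  intro Y hY mu hmu
  have h1 : (WithLp.toLp 2 mu : EuclideanSpace ℝ (Fin n)) ∈ S := Set.mem_biUnion hY hmu
  have h2 := Metric.infDist_le_dist_of_mem (x := (0 : EuclideanSpace ℝ (Fin n))) h1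
  rw [hmin, dist_zero_left, dist_zero_left] at h2
  have h3 : ‖lam‖ ^ 2 ≤ ‖(WithLp.toLp 2 mu : EuclideanSpace ℝ (Fin n))‖ ^ 2 :=
    pow_le_pow_left₀ (norm_nonneg _) h2 2
  rw [EuclideanSpace.norm_sq_eq, EuclideanSpace.norm_sq_eq] at h3
  simpa [Real.norm_eq_abs, sq_abs] using h3

/-- If `∑ lam ^ 2` is at most `∑ ((lam + lam ∘ σ) / 2) ^ 2` then `lam ∘ σ = lam`: parallelogram
identity. -/
theorem eq_comp_of_min (lam : Fin n → ℝ) (σ : Equiv.Perm (Fin n))
    (h : ∑ a, lam a ^ 2 ≤ ∑ a, ((lam a + lam (σ a)) / 2) ^ 2) (a : Fin n) : lam (σ a) = lam a := by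
  have h1 : ∑ a, (lam (σ a)) ^ 2 = ∑ a, lam a ^ 2 := Equiv.sum_comp σ (fun a => lam a ^ 2)
  have h2 : ∑ a, ((lam a - lam (σ a)) / 2) ^ 2 ≤ 0 := by
    have h3 : ∑ a, ((lam a - lam (σ a)) / 2) ^ 2 =
        (∑ a, lam a ^ 2 + ∑ a, (lam (σ a)) ^ 2) / 2 - ∑ a, ((lam a + lam (σ a)) / 2) ^ 2 := by
      rw [← Finset.sum_add_distrib, Finset.sum_div, ← Finset.sum_sub_distrib]
      refine Finset.sum_congr rfl fun a _ => ?_
      ring
    rw [h3, h1]
    linarith
  have h4 := (Finset.sum_eq_zero_iff_of_nonneg (fun a _ => sq_nonneg ((lam a - lam (σ a)) / 2))).1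
    (le_antisymm h2 (Finset.sum_nonneg fun a _ => sq_nonneg _)) a (Finset.mem_univ a)
  have h5 : (lam a - lam (σ a)) / 2 = 0 := by
    simpa using h4
  linarith

end CD

end Pool.Agent.Lib.MP_666dc0_nt.IG
end

section

end
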