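import Pool.Agent.Lib.MP_666dc0_nt.RepEval
import Pool.Agent.Lib.MP_666dc0_nt.IG.Defs
import Pool.Agent.Lib.MP_666dc0_nt.Mg.G027
import Pool.Agent.Lib.MP_666dc0_nt.Mg.G029

section

open TensorProduct Coalgebra
open scoped TensorProduct

namespace Pool.Agent.Lib.MP_666dc0_nt
section HaarSec

variable {O : Type} [CommRing O] [HopfAlgebra ℚ O] {Γ : Type*} [Group Γ] {A : HopfAction Γ O}
  {n : ℕ} (ρ : MatRep A n)

namespace MatRep

/-- The matrix `∫ a(x)⁻¹ C a(x) dx` before integration. -/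
noncomputable def preB (C : Matrix (Fin n) (Fin n) ℚ) : Matrix (Fin n) (Fin n) O :=
  ρ.gm (Pts.univ O)⁻¹ * C.map (algebraMap ℚ O) * ρ.gm (Pts.univ O)

/-- The matrix `∫ a(x)⁻¹ C a(x) dx`. -/
noncomputable def avgB (I : O →ₗ[ℚ] ℚ) (C : Matrix (Fin n) (Fin n) ℚ) : Matrix (Fin n) (Fin n) ℚ :=
  (ρ.preB C).map I

variable {R S : Type} [CommRing R] [Algebra ℚ R] [CommRing S] [Algebra ℚ S]

lemma gm_map (φ : R →ₐ[ℚ] S) (g : Pts O R) : (ρ.gm g).map φ = ρ.gm (Pts.map φ g) := rfl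

lemma algMap_map (φ : R →ₐ[ℚ] S) (C : Matrix (Fin n) (Fin n) ℚ) :
    (C.map (algebraMap ℚ R)).map φ = C.map (algebraMap ℚ S) := by
  ext i j
  simp

lemma preB_map (C : Matrix (Fin n) (Fin n) ℚ) (g : Pts O R) :
    (ρ.preB C).map g.hom = ρ.gm g⁻¹ * C.map (algebraMap ℚ R) * ρ.gm g := by
  rw [preB, Matrix.map_mul, Matrix.map_mul, algMap_map, gm_map, gm_map]
  rfl

lemma gm_inv_mul (g : Pts O R) : ρ.gm g⁻¹ * ρ.gm g = 1 := by
  rw [← gm_mul, inv_mul_cancel, gm_one]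

lemma gm_mul_inv (g : Pts O R) : ρ.gm g * ρ.gm g⁻¹ = 1 := by
  rw [← gm_mul, mul_inv_cancel, gm_one]

/-- The two coordinate points of `Ĝ × Ĝ`. -/
noncomputable def ptL (O : Type) [CommRing O] [HopfAlgebra ℚ O] : Pts O (O ⊗[ℚ] O) :=
  ⟨Algebra.TensorProduct.includeLeft⟩

/-- The two coordinate points of `Ĝ × Ĝ`. -/
noncomputable def ptR (O : Type) [CommRing O] [HopfAlgebra ℚ O] : Pts O (O ⊗[ℚ] O) :=
  ⟨Algebra.TensorProduct.includeRight⟩

lemma ptL_mul_ptR (f : O) : (ptL O * ptR O).hom f = comul (R := ℚ) f := by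
  rw [Pts.mul_hom_apply]
  generalize (comul (R := ℚ) f) = z
  induction z using TensorProduct.induction_on with
  | zero => simp
  | tmul x y => simp [ptL, ptR]
  | add x y hx hy => simp only [map_add, hx, hy]

lemma comul_preB (C : Matrix (Fin n) (Fin n) ℚ) (i j : Fin n) :
    comul (R := ℚ) (ρ.preB C i j) = ∑ q, ∑ p, ρ.preB C p q ⊗ₜ[ℚ]
      (ρ.gm (Pts.univ O)⁻¹ i p * ρ.gm (Pts.univ O) q j) := by
  have h1 : (ρ.preB C).map (ptL O * ptR O).hom =
      ρ.gm (ptR O)⁻¹ * ((ρ.preB C).map (ptL O).hom) * ρ.gm (ptR O) := by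
    rw [preB_map, preB_map, mul_inv_rev, gm_mul, gm_mul]
    simp only [mul_assoc]
  have h2 := congrFun (congrFun h1 i) j
  rw [Matrix.map_apply, ptL_mul_ptR, Matrix.mul_apply] at h2
  rw [h2]
  refine Finset.sum_congr rfl fun q _ => ?_
  rw [Matrix.mul_apply, Finset.sum_mul]
  refine Finset.sum_congr rfl fun p _ => ?_
  have h3 : ρ.gm (ptR O)⁻¹ i p = 1 ⊗ₜ (ρ.gm (Pts.univ O)⁻¹ i p) := rfl
  have h4 : ρ.gm (ptR O) q j = 1 ⊗ₜ (ρ.gm (Pts.univ O) q j) := rfl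
  have h5 : (ρ.preB C).map (ptL O).hom p q = (ρ.preB C p q) ⊗ₜ 1 := rfl
  rw [h3, h4, h5, Algebra.TensorProduct.tmul_mul_tmul, Algebra.TensorProduct.tmul_mul_tmul]
  simp

lemma avgB_comm (I : O →ₗ[ℚ] ℚ) (hI : ∀ f, sr I (comul f) = algebraMap ℚ O (I f))
    (C : Matrix (Fin n) (Fin n) ℚ) (g : Pts O R) :
    ρ.gm g * (ρ.avgB I C).map (algebraMap ℚ R) = (ρ.avgB I C).map (algebraMap ℚ R) * ρ.gm g := by
  have h1 : ρ.gm (Pts.univ O)⁻¹ * (ρ.avgB I C).map (algebraMap ℚ O) * ρ.gm (Pts.univ O) =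
      (ρ.avgB I C).map (algebraMap ℚ O) := by
    ext i j
    rw [Matrix.map_apply, avgB, Matrix.map_apply, ← hI, comul_preB, map_sum, Matrix.mul_apply]
    refine Finset.sum_congr rfl fun q _ => ?_
    rw [map_sum, Matrix.mul_apply, Finset.sum_mul]
    refine Finset.sum_congr rfl fun p _ => ?_
    rw [sr_tmul, Matrix.map_apply, Matrix.map_apply, Algebra.smul_def]
    ring
  have h2 := congrArg (fun M : Matrix (Fin n) (Fin n) O => M.map g.hom) h1
  rw [Matrix.map_mul, Matrix.map_mul, algMap_map, gm_map, gm_map, map_inv, Pts.map_univ] at h2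
  calc ρ.gm g * (ρ.avgB I C).map (algebraMap ℚ R)
      = ρ.gm g * (ρ.gm g⁻¹ * (ρ.avgB I C).map (algebraMap ℚ R) * ρ.gm g) := by rw [h2]
    _ = _ := by rw [← mul_assoc, ← mul_assoc, gm_mul_inv, one_mul]

lemma gm_onPts_inv (σ : Γ) (x : Pts O R) :
    ρ.gm (A.onPts R σ x)⁻¹ = ρ.pm R σ * ρ.gm x⁻¹ * ρ.pm R σ⁻¹ := by
  have h1 := ρ.pm_mul_gm σ x⁻¹
  rw [map_inv] at h1
  rw [h1, mul_assoc, ← map_mul, mul_inv_cancel, map_one, mul_one]

lemma hom_eq_trace {f : O} {C' : Matrix (Fin n) (Fin n) ℚ}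
    (hC' : f = ∑ i, ∑ j, C' j i • ρ.a i j) (y : Pts O R) :
    y.hom f = Matrix.trace (ρ.gm y * C'.map (algebraMap ℚ R)) := by
  rw [hC', map_sum, Matrix.trace]
  refine Finset.sum_congr rfl fun i _ => ?_
  rw [map_sum, Matrix.diag_apply, Matrix.mul_apply]
  refine Finset.sum_congr rfl fun j _ => ?_
  rw [map_smul, Algebra.smul_def, mul_comm]
  rfl

theorem eval_eq_trace (I : O →ₗ[ℚ] ℚ) (hI1 : I 1 = 1) {σ : Γ} {f : O} (hf : f ∈ A.inv σ)
    {C' : Matrix (Fin n) (Fin n) ℚ} (hC' : f = ∑ i, ∑ j, C' j i • ρ.a i j) (g : Pts O R) :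
    g.hom f = Matrix.trace (ρ.gm g * ρ.pm R σ *
      (ρ.avgB I (ρ.P σ⁻¹ * C')).map (algebraMap ℚ R)) := by
  let J : R ⊗[ℚ] O →ₗ[ℚ] R := (TensorProduct.rid ℚ R).toLinearMap ∘ₗ LinearMap.lTensor R I
  have hJ : ∀ (r : R) (x : O), J (r ⊗ₜ x) = I x • r := fun r x => by simp [J]
  let x : Pts O (R ⊗[ℚ] O) := ⟨Algebra.TensorProduct.includeRight⟩
  let g' : Pts O (R ⊗[ℚ] O) := Pts.map Algebra.TensorProduct.includeLeft g
  have h1 := hf (R ⊗[ℚ] O) x g'
  have h2 : J (g'.hom f) = g.hom f := by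
    change J ((g.hom f) ⊗ₜ 1) = _
    rw [hJ, hI1, one_smul]
  rw [← h2, ← h1, ρ.hom_eq_trace hC', gm_mul, gm_mul, gm_onPts_inv]
  have h3 : Matrix.trace (ρ.gm x * ρ.gm g' *
      (ρ.pm (R ⊗[ℚ] O) σ * ρ.gm x⁻¹ * ρ.pm (R ⊗[ℚ] O) σ⁻¹) * C'.map (algebraMap ℚ (R ⊗[ℚ] O))) =
      Matrix.trace (ρ.gm g' * ρ.pm (R ⊗[ℚ] O) σ * (ρ.preB (ρ.P σ⁻¹ * C')).map x.hom) := by
    rw [preB_map, Matrix.map_mul]
    have h4 : (ρ.P σ⁻¹).map (algebraMap ℚ (R ⊗[ℚ] O)) = ρ.pm (R ⊗[ℚ] O) σ⁻¹ := rfl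
    rw [h4]
    have h5 : ρ.gm x * ρ.gm g' * (ρ.pm (R ⊗[ℚ] O) σ * ρ.gm x⁻¹ * ρ.pm (R ⊗[ℚ] O) σ⁻¹) *
        C'.map (algebraMap ℚ (R ⊗[ℚ] O)) = ρ.gm x * (ρ.gm g' * (ρ.pm (R ⊗[ℚ] O) σ *
        (ρ.gm x⁻¹ * (ρ.pm (R ⊗[ℚ] O) σ⁻¹ * C'.map (algebraMap ℚ (R ⊗[ℚ] O)))))) := by
      simp only [mul_assoc]
    rw [h5, Matrix.trace_mul_comm]
    simp only [mul_assoc]
  rw [h3, Matrix.trace, Matrix.trace, map_sum]
  refine Finset.sum_congr rfl fun i _ => ?_
  rw [Matrix.diag_apply, Matrix.diag_apply, Matrix.mul_apply, Matrix.mul_apply, map_sum]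
  refine Finset.sum_congr rfl fun j _ => ?_
  have h6 : (ρ.gm g' * ρ.pm (R ⊗[ℚ] O) σ) i j = ((ρ.gm g * ρ.pm R σ) i j) ⊗ₜ[ℚ] (1 : O) := by
    have h7 : ρ.gm g' * ρ.pm (R ⊗[ℚ] O) σ = (ρ.gm g * ρ.pm R σ).map
        (Algebra.TensorProduct.includeLeft : R →ₐ[ℚ] R ⊗[ℚ] O) := by
      rw [Matrix.map_mul, pm_map, gm_map]
    rw [h7]
    rfl
  have h8 : (ρ.preB (ρ.P σ⁻¹ * C')).map x.hom j i = (1 : R) ⊗ₜ[ℚ] ρ.preB (ρ.P σ⁻¹ * C') j i := rfl
  rw [h6, h8, Algebra.TensorProduct.tmul_mul_tmul, mul_one, one_mul, hJ, Algebra.smul_def, mul_comm]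
  rfl

lemma gm_mul_pm (σ : Γ) (x : Pts O R) :
    ρ.gm x * ρ.pm R σ = ρ.pm R σ * ρ.gm (A.onPts R σ⁻¹ x) := by
  rw [pm_mul_gm, ← MulAut.mul_apply, ← map_mul, mul_inv_cancel, map_one, MulAut.one_apply]

lemma pm_mul_pm_inv (σ : Γ) : ρ.pm R σ * ρ.pm R σ⁻¹ = 1 := by
  rw [← map_mul, mul_inv_cancel, map_one]

lemma pm_inv_mul_pm (σ : Γ) : ρ.pm R σ⁻¹ * ρ.pm R σ = 1 := by
  rw [← map_mul, inv_mul_cancel, map_one]

lemma comm_conj (σ : Γ) {Y : Matrix (Fin n) (Fin n) R} (hY : ∀ x : Pts O R, ρ.gm x * Y = Y * ρ.gm x)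
    (x : Pts O R) : ρ.gm x * (ρ.pm R σ * Y * ρ.pm R σ⁻¹) = (ρ.pm R σ * Y * ρ.pm R σ⁻¹) * ρ.gm x := by
  have h1 : ρ.gm (A.onPts R σ⁻¹ x) * ρ.pm R σ⁻¹ = ρ.pm R σ⁻¹ * ρ.gm x := (ρ.pm_mul_gm σ⁻¹ x).symm
  calc ρ.gm x * (ρ.pm R σ * Y * ρ.pm R σ⁻¹) = (ρ.gm x * ρ.pm R σ) * Y * ρ.pm R σ⁻¹ := by
        simp only [mul_assoc]
    _ = ρ.pm R σ * (ρ.gm (A.onPts R σ⁻¹ x) * Y) * ρ.pm R σ⁻¹ := by
        rw [gm_mul_pm]; simp only [mul_assoc]
    _ = ρ.pm R σ * Y * (ρ.gm (A.onPts R σ⁻¹ x) * ρ.pm R σ⁻¹) := by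
        rw [hY]; simp only [mul_assoc]
    _ = _ := by rw [h1]; simp only [mul_assoc]

lemma pow_formula {B : Matrix (Fin n) (Fin n) R} (hB : ∀ x : Pts O R, ρ.gm x * B = B * ρ.gm x)
    (y : A.LGroup R) (j : ℕ) :
    (ρ.ev R y * B) ^ j = (ρ.pm R y.right * B) ^ j * ρ.pm R (y.right⁻¹ ^ j) * (ρ.ev R y) ^ j ∧
    ∀ x : Pts O R, ρ.gm x * ((ρ.pm R y.right * B) ^ j * ρ.pm R (y.right⁻¹ ^ j)) =
      ((ρ.pm R y.right * B) ^ j * ρ.pm R (y.right⁻¹ ^ j)) * ρ.gm x := by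
  induction j with
  | zero => simp
  | succ j ih =>
    obtain ⟨ih1, ih2⟩ := ih
    set X := (ρ.pm R y.right * B) ^ j * ρ.pm R (y.right⁻¹ ^ j) with hX
    have hBX : ∀ x : Pts O R, ρ.gm x * (B * X) = (B * X) * ρ.gm x := fun x => by
      calc ρ.gm x * (B * X) = (ρ.gm x * B) * X := (mul_assoc _ _ _).symm
        _ = B * (ρ.gm x * X) := by rw [hB]; exact mul_assoc _ _ _
        _ = B * (X * ρ.gm x) := by rw [ih2]
        _ = _ := (mul_assoc _ _ _).symm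
    have hX' : (ρ.pm R y.right * B) ^ (j + 1) * ρ.pm R (y.right⁻¹ ^ (j + 1)) =
        ρ.pm R y.right * (B * X) * ρ.pm R y.right⁻¹ := by
      rw [hX, pow_succ', pow_succ, map_mul]
      simp only [mul_assoc]
    refine ⟨?_, ?_⟩
    · rw [hX', pow_succ', ih1, pow_succ' (ρ.ev R y)]
      have h1 : ρ.ev R y = ρ.gm y.left * ρ.pm R y.right := rfl
      have h2 : ρ.ev R y * (B * X) = ρ.pm R y.right * (B * X) * ρ.pm R y.right⁻¹ * ρ.ev R y := by
        have h3 := ρ.comm_conj y.right hBX y.left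
        calc ρ.ev R y * (B * X) = ρ.gm y.left * (ρ.pm R y.right * (B * X) *
              (ρ.pm R y.right⁻¹ * ρ.pm R y.right)) := by
              rw [h1, pm_inv_mul_pm, mul_one]; simp only [mul_assoc]
          _ = ρ.gm y.left * (ρ.pm R y.right * (B * X) * ρ.pm R y.right⁻¹) * ρ.pm R y.right := by
              simp only [mul_assoc]
          _ = _ := by rw [h3, h1]; simp only [mul_assoc]
      calc ρ.ev R y * B * (X * ρ.ev R y ^ j) = ρ.ev R y * (B * X) * ρ.ev R y ^ j := by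
            simp only [mul_assoc]
        _ = _ := by rw [h2]; simp only [mul_assoc]
    · rw [hX']
      exact ρ.comm_conj y.right hBX

end MatRep
end HaarSec
end Pool.Agent.Lib.MP_666dc0_nt
end

section

open MvPolynomial

namespace Pool.Agent.Lib.MP_666dc0_nt.IG

variable {O : Type} [CommRing O] [HopfAlgebra ℚ O] {Γ : Type} [Group Γ] {A : HopfAction Γ O}
  {n : ℕ} (ρ : MatRep A n)

/-- The matrix representation is faithful on `Ĝ`: the matrix coefficients of `ρ` and of its inverse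
generate the ring of functions. -/
def Faithful (ρ : MatRep A n) : Prop :=
  Algebra.adjoin ℚ ({f | ∃ i j, f = ρ.a i j} ∪ {f | ∃ i j, f = HopfAlgebra.antipode ℚ (ρ.a i j)}) = ⊤

/-- `G` is the image of `Ĝ` in `GL_n`. -/
def IsRedG (ρ : MatRep A n) (G : Red n) : Prop :=
  ∀ (R : Type) [CommRing R] [Algebra ℚ R] (k k' : Matrix (Fin n) (Fin n) R),
    G.In R k k' ↔ ∃ x : Pts O R, ρ.gm x = k ∧ ρ.gm x⁻¹ = k'

/-- The comorphism of `Ĝ → GL_n`. -/
noncomputable def g0Th (ρ : MatRep A n) : MvPolynomial (PV n) ℚ →ₐ[ℚ] O :=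
  aeval (evp (ρ.gm (Pts.univ O)) (ρ.gm (Pts.univ O)⁻¹))

lemma g0_comp (ρ : MatRep A n) {R : Type} [CommRing R] [Algebra ℚ R] (x : Pts O R)
    (p : MvPolynomial (PV n) ℚ) :
    aeval (evp (ρ.gm x) (ρ.gm x⁻¹)) p = x.hom (g0Th ρ p) := by
  have h : (aeval (evp (ρ.gm x) (ρ.gm x⁻¹)) : MvPolynomial (PV n) ℚ →ₐ[ℚ] R) =
      x.hom.comp (g0Th ρ) := by
    apply MvPolynomial.algHom_ext
    rintro (⟨i, j⟩ | ⟨i, j⟩)
    · rw [AlgHom.comp_apply, g0Th, aeval_X, aeval_X]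
      rfl
    · rw [AlgHom.comp_apply, g0Th, aeval_X, aeval_X]
      rfl
  rw [h, AlgHom.comp_apply]

lemma g0_surj (ρ : MatRep A n) (hρ : Faithful ρ) : Function.Surjective (g0Th ρ) := by
  rw [← AlgHom.range_eq_top, eq_top_iff, ← hρ]
  refine Algebra.adjoin_le ?_
  rintro f (⟨i, j, rfl⟩ | ⟨i, j, rfl⟩)
  · refine ⟨X (Sum.inl (i, j)), ?_⟩
    change g0Th ρ _ = _
    rw [g0Th, aeval_X]
    rfl
  · refine ⟨X (Sum.inr (i, j)), ?_⟩
    change g0Th ρ _ = _
    rw [g0Th, aeval_X]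
    rfl

lemma g0_inJ (ρ : MatRep A n) (hρ : Faithful ρ) {R : Type} [CommRing R] [Algebra ℚ R]
    (k k' : Matrix (Fin n) (Fin n) R) :
    InJ (RingHom.ker (g0Th ρ)) R k k' ↔ ∃ x : Pts O R, ρ.gm x = k ∧ ρ.gm x⁻¹ = k' := by
  constructor
  · intro h
    let e := Ideal.quotientKerAlgEquivOfSurjective (g0_surj ρ hρ)
    let φ : (MvPolynomial (PV n) ℚ ⧸ RingHom.ker (g0Th ρ)) →ₐ[ℚ] R :=
      Ideal.Quotient.liftₐ (RingHom.ker (g0Th ρ)) (aeval (evp k k')) (fun p hp => h p hp)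
    let x : Pts O R := ⟨φ.comp e.symm.toAlgHom⟩
    have hx : ∀ p, x.hom (g0Th ρ p) = aeval (evp k k') p := by
      intro p
      have h1 : e.symm (g0Th ρ p) = Ideal.Quotient.mk _ p := by
        rw [AlgEquiv.symm_apply_eq]
        rfl
      change φ (e.symm (g0Th ρ p)) = _
      rw [h1]
      rfl
    refine ⟨x, ?_, ?_⟩
    · ext i j
      have h2 := hx (X (Sum.inl (i, j)))
      rw [← g0_comp, aeval_X, aeval_X] at h2
      exact h2
    · ext i j
      have h2 := hx (X (Sum.inr (i, j)))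
      rw [← g0_comp, aeval_X, aeval_X] at h2
      exact h2
  · rintro ⟨x, rfl, rfl⟩ p hp
    rw [g0_comp, (RingHom.mem_ker).1 hp, map_zero]

open TensorProduct in
/-- The functional `id ⊗ I₀`. -/
noncomputable def g0J (R : Type) [CommRing R] [Algebra ℚ R] (I₀ : O →ₗ[ℚ] ℚ) :
    R ⊗[ℚ] O →ₗ[R] R := LinearMap.liftBaseChange R (Algebra.linearMap ℚ R ∘ₗ I₀)

lemma g0J_tmul (R : Type) [CommRing R] [Algebra ℚ R] (I₀ : O →ₗ[ℚ] ℚ) (r : R) (f : O) :
    g0J R I₀ (r ⊗ₜ f) = r * algebraMap ℚ R (I₀ f) := by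
  rw [g0J, LinearMap.liftBaseChange_tmul]
  rfl

open TensorProduct in
/-- The extension of scalars of `g0Th`. -/
noncomputable def g0ThR (ρ : MatRep A n) (R : Type) [CommRing R] [Algebra ℚ R] :
    MvPolynomial (PV n) R →ₐ[R] R ⊗[ℚ] O := aeval (fun v => (1 : R) ⊗ₜ[ℚ] g0Th ρ (X v))

lemma g0ThR_monomial (ρ : MatRep A n) (R : Type) [CommRing R] [Algebra ℚ R] (m : PV n →₀ ℕ) :
    g0ThR ρ R (monomial m 1) = (1 : R) ⊗ₜ[ℚ] g0Th ρ (monomial m 1) := by
  have h : ∀ q : MvPolynomial (PV n) ℚ, g0ThR ρ R (MvPolynomial.map (algebraMap ℚ R) q) =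
      (1 : R) ⊗ₜ[ℚ] g0Th ρ q := by
    intro q
    induction q using MvPolynomial.induction_on with
    | C a =>
      rw [MvPolynomial.map_C, g0ThR, aeval_C, g0Th, aeval_C, Algebra.TensorProduct.algebraMap_apply,
        Algebra.algebraMap_self_apply, Algebra.algebraMap_eq_smul_one,
        Algebra.algebraMap_eq_smul_one, TensorProduct.smul_tmul]
    | add p q hp hq => rw [map_add, map_add, hp, hq, map_add, TensorProduct.tmul_add]
    | mul_X p v hp =>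
      rw [map_mul, map_mul, hp, MvPolynomial.map_X, map_mul, g0ThR, aeval_X,
        Algebra.TensorProduct.tmul_mul_tmul, mul_one]
  have h1 := h (monomial m 1)
  rw [MvPolynomial.map_monomial, map_one] at h1
  exact h1

lemma g0_IA (ρ : MatRep A n) (R : Type) [CommRing R] [Algebra ℚ R] (I₀ : O →ₗ[ℚ] ℚ)
    (q : MvPolynomial (PV n) R) :
    IA (I₀ ∘ₗ (g0Th ρ).toLinearMap) R q = g0J R I₀ (g0ThR ρ R q) := by
  have h : IA (I₀ ∘ₗ (g0Th ρ).toLinearMap) R = g0J R I₀ ∘ₗ (g0ThR ρ R).toLinearMap := by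
    refine (MvPolynomial.basisMonomials (PV n) R).ext fun m => ?_
    rw [IA, Module.Basis.constr_basis, MvPolynomial.coe_basisMonomials]
    change _ = g0J R I₀ (g0ThR ρ R (monomial m 1))
    rw [g0ThR_monomial, g0J_tmul, one_mul]
    rfl
  rw [h]
  rfl

open TensorProduct in
lemma g0_inv (R : Type) [CommRing R] [Algebra ℚ R] (I₀ : O →ₗ[ℚ] ℚ)
    (hI : ∀ f : O, TensorProduct.lid ℚ O (LinearMap.rTensor O I₀ (CoalgebraStruct.comul (R := ℚ) f)) =
      algebraMap ℚ O (I₀ f)) (x : Pts O R) (f : O) :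
    g0J R I₀ ((Pts.map Algebra.TensorProduct.includeRight (Pts.univ O) *
      Pts.map (Algebra.TensorProduct.includeLeft : R →ₐ[ℚ] R ⊗[ℚ] O) x).hom f) =
      algebraMap ℚ R (I₀ f) := by
  rw [Pts.mul_hom_apply]
  have h1 := congrArg x.hom (hI f)
  rw [AlgHom.commutes] at h1
  rw [← h1]
  generalize (CoalgebraStruct.comul (R := ℚ) f) = z
  induction z using TensorProduct.induction_on with
  | zero => simp
  | tmul a b =>
    rw [Algebra.TensorProduct.lift_tmul, Pts.map_hom_apply, Pts.map_hom_apply]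
    change g0J R I₀ (((1 : R) ⊗ₜ[ℚ] a) * ((x.hom b) ⊗ₜ[ℚ] (1 : O))) = _
    rw [Algebra.TensorProduct.tmul_mul_tmul, one_mul, mul_one, g0J_tmul, LinearMap.rTensor_tmul,
      TensorProduct.lid_tmul, map_smul, Algebra.smul_def, mul_comm]
  | add a b ha hb => simp only [map_add, ha, hb]

lemma g0_gen {R S : Type} [CommRing R] [Algebra ℚ R] [CommRing S] [Algebra ℚ S] [Algebra R S]
    [IsScalarTower ℚ R S] (ψ : MvPolynomial (PV n) R →ₐ[R] S) (k k' : Matrix (Fin n) (Fin n) R)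
    (U U' K K' : Matrix (Fin n) (Fin n) S) (hU : ∀ i j, ψ (X (Sum.inl (i, j))) = U i j)
    (hU' : ∀ i j, ψ (X (Sum.inr (i, j))) = U' i j) (hK : ∀ i j, algebraMap R S (k i j) = K i j)
    (hK' : ∀ i j, algebraMap R S (k' i j) = K' i j) (p : MvPolynomial (PV n) ℚ) :
    ψ (aeval (evp (gX n R * mC k) (mC k' * gX' n R)) p) = aeval (evp (U * K) (K' * U')) p := by
  induction p using MvPolynomial.induction_on with
  | C a =>
    rw [aeval_C, aeval_C]
    have h := (ψ.restrictScalars ℚ).commutes a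
    exact h
  | add p q hp hq => rw [map_add, map_add, hp, hq, map_add]
  | mul_X p v hp =>
    rw [map_mul, map_mul, hp, map_mul, aeval_X, aeval_X]
    congr 1
    rcases v with ⟨i, j⟩ | ⟨i, j⟩
    · change ψ ((gX n R * mC k : Matrix (Fin n) (Fin n) (MvPolynomial (PV n) R)) i j) = (U * K) i j
      rw [Matrix.mul_apply, Matrix.mul_apply, map_sum]
      refine Finset.sum_congr rfl fun l _ => ?_
      rw [map_mul, ← hU, ← hK]
      congr 1
      exact ψ.commutes (k l j)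
    · change ψ ((mC k' * gX' n R : Matrix (Fin n) (Fin n) (MvPolynomial (PV n) R)) i j) =
        (K' * U') i j
      rw [Matrix.mul_apply, Matrix.mul_apply, map_sum]
      refine Finset.sum_congr rfl fun l _ => ?_
      rw [map_mul, ← hU', ← hK']
      congr 1
      exact ψ.commutes (k' i l)

open TensorProduct in
lemma g0_ThR_comp (ρ : MatRep A n) (R : Type) [CommRing R] [Algebra ℚ R] (x : Pts O R)
    (p : MvPolynomial (PV n) ℚ) :
    g0ThR ρ R (aeval (evp (gX n R * mC (ρ.gm x)) (mC (ρ.gm x⁻¹) * gX' n R)) p) =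
      (Pts.map Algebra.TensorProduct.includeRight (Pts.univ O) *
      Pts.map (Algebra.TensorProduct.includeLeft : R →ₐ[ℚ] R ⊗[ℚ] O) x).hom (g0Th ρ p) := by
  rw [← g0_comp, mul_inv_rev, MatRep.gm_mul, MatRep.gm_mul]
  refine g0_gen (g0ThR ρ R) (ρ.gm x) (ρ.gm x⁻¹) _ _ _ _ (fun i j => ?_) (fun i j => ?_)
    (fun i j => ?_) (fun i j => ?_) p
  · rw [g0ThR, aeval_X, g0Th, aeval_X]
    rfl
  · rw [g0ThR, aeval_X, g0Th, aeval_X]
    rfl
  · rw [Algebra.TensorProduct.algebraMap_apply]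
    rfl
  · rw [Algebra.TensorProduct.algebraMap_apply]
    rfl

/-- E0. Let `θ : MvPolynomial (PV n) ℚ → O` send `X` to `a = gm (univ)` and `X'` to `gm (univ)⁻¹`
(= `a.map antipode`); it is surjective since `ρ` is faithful. `J := ker θ`, `I := I₀ ∘ θ` with the invariant
functional `I₀` of `LinearlyReductive O`. A pair `(k, k')` over `R` satisfies `J` iff `aeval (evp k k')` factors
through `θ`, i.e. comes from `x : O →ₐ R`. `in_inv`, `in_one`, `in_mul`, `in_symm` follow from `gm_mul`,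
`gm_one`, `Pts` being a group. `right_inv`: for `x : Pts O R`, `aeval (evp (X k) (k' X')) p` maps under
`R ⊗ θ` to `(id ⊗ x)(Δ (θ p))` (`gm` of the product point `univ * x`), and
`(I₀ ⊗ id) Δ f = I₀(f) 1`. -/
theorem exists_redG (hO : LinearlyReductive O) (hρ : Faithful ρ) : ∃ G : Red n, IsRedG ρ G := by
  obtain ⟨I₀, hI1, hI⟩ := hO
  refine ⟨{ J := RingHom.ker (g0Th ρ)
            I := I₀ ∘ₗ (g0Th ρ).toLinearMap
            I_one := ?_
            I_J := ?_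
            in_inv := ?_
            in_one := ?_
            in_mul := ?_
            in_symm := ?_
            right_inv := ?_ }, ?_⟩
  · rw [LinearMap.comp_apply, AlgHom.toLinearMap_apply, map_one, hI1]
  · intro p hp
    rw [LinearMap.comp_apply, AlgHom.toLinearMap_apply, (RingHom.mem_ker).1 hp, map_zero]
  · intro R _ _ k k' h
    obtain ⟨x, rfl, rfl⟩ := (g0_inJ ρ hρ k k').1 h
    exact ⟨ρ.gm_mul_inv x, ρ.gm_inv_mul x⟩
  · intro R _ _
    refine (g0_inJ ρ hρ 1 1).2 ⟨1, ρ.gm_one, ?_⟩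
    rw [inv_one, ρ.gm_one]
  · intro R _ _ k k' h h' hk hh
    obtain ⟨x, rfl, rfl⟩ := (g0_inJ ρ hρ k k').1 hk
    obtain ⟨y, rfl, rfl⟩ := (g0_inJ ρ hρ h h').1 hh
    refine (g0_inJ ρ hρ _ _).2 ⟨x * y, ρ.gm_mul x y, ?_⟩
    rw [mul_inv_rev, ρ.gm_mul]
  · intro R _ _ k k' hk
    obtain ⟨x, rfl, rfl⟩ := (g0_inJ ρ hρ k k').1 hk
    refine (g0_inJ ρ hρ _ _).2 ⟨x⁻¹, rfl, ?_⟩
    rw [inv_inv]
  · intro R _ _ k k' hk p
    obtain ⟨x, rfl, rfl⟩ := (g0_inJ ρ hρ k k').1 hk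
    rw [g0_IA, g0_ThR_comp, g0_inv R I₀ hI]
    rfl
  · intro R _ _ k k'
    exact g0_inJ ρ hρ k k'

end Pool.Agent.Lib.MP_666dc0_nt.IG
end

section

/-!
# Interpolation, part D: Kempf's theorem
-/

namespace Pool.Agent.Lib.MP_666dc0_nt.IG

open CD in
/-- Part D. Kempf's theorem for `GL_n` and families of tensors, with thresholds. -/
theorem kempf_proof {n : ℕ} {s : Shape} [s.Small] {κ : Type} [Field κ] (t : s.Ix n → κ)
    (c : s.β → ℝ)
    (hne : ∃ (g g' : Matrix (Fin n) (Fin n) κ) (lam : Fin n → ℝ), g * g' = 1 ∧ g' * g = 1 ∧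
      ∀ x, act g g' t x ≠ 0 → c x.1 ≤ wt lam x) :
    ∃ (g g' : Matrix (Fin n) (Fin n) κ) (lam : Fin n → ℝ), g * g' = 1 ∧ g' * g = 1 ∧
      (∀ x, act g g' t x ≠ 0 → c x.1 ≤ wt lam x) ∧
      ∀ u u' : Matrix (Fin n) (Fin n) κ, u * u' = 1 → u' * u = 1 →
        (∃ D : (b : s.β) → s.C b → s.C b → κ, act u u' t = mix D t) → InP lam (g * u * g') := by
  -- the family of supports
  let P : Set (Set (s.Ix n)) := {X | ∃ g g' : Matrix (Fin n) (Fin n) κ, g * g' = 1 ∧ g' * g = 1 ∧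
    X = {x | act g g' t x ≠ 0}}
  obtain ⟨X, ⟨g, g', hgg', hg'g, rfl⟩, lam, hlam, hmin⟩ := exists_min P c (by
    obtain ⟨g, g', lam, h1, h2, h3⟩ := hne
    exact ⟨_, ⟨g, g', h1, h2, rfl⟩, lam, h3⟩)
  refine ⟨g, g', lam, hgg', hg'g, hlam, ?_⟩
  intro u u' huu' hu'u ⟨D, hD⟩
  -- `h = g u g'` and its inverse
  set h := g * u * g' with hh
  set h' := g * u' * g' with hh'
  have hh1 : h * h' = 1 := by
    calc h * h' = g * u * (g' * g) * u' * g' := by rw [hh, hh']; noncomm_ring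
      _ = g * (u * u') * g' := by rw [hg'g]; noncomm_ring
      _ = 1 := by rw [huu', mul_one, hgg']
  have hh2 : h' * h = 1 := by
    calc h' * h = g * u' * (g' * g) * u * g' := by rw [hh, hh']; noncomm_ring
      _ = g * (u' * u) * g' := by rw [hg'g]; noncomm_ring
      _ = 1 := by rw [hu'u, mul_one, hgg']
  obtain ⟨b, b', e, e', σ, hbb', hb'b, hee', he'e, hb, hb', he, he', hdec⟩ := bruhat lam h h' hh1
  set W : Matrix (Fin n) (Fin n) κ := Matrix.of fun i j => if i = σ j then 1 else 0 with hW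
  set W' : Matrix (Fin n) (Fin n) κ := Matrix.of fun i j => if j = σ i then 1 else 0 with hW'
  have hWW' : W * W' = 1 := by
    ext i j
    simp only [hW, hW', Matrix.mul_apply, Matrix.of_apply, Matrix.one_apply]
    rw [Finset.sum_eq_single (σ.symm i)]
    · simp [eq_comm]
    · intro k _ hk
      rw [if_neg (fun hik => hk (by rw [hik]; simp)), zero_mul]
    · simp
  have hW'W : W' * W = 1 := by
    ext i j
    simp only [hW, hW', Matrix.mul_apply, Matrix.of_apply, Matrix.one_apply]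
    rw [Finset.sum_eq_single (σ i)]
    · simp
    · intro k _ hk
      rw [if_neg hk, zero_mul]
    · simp
  -- the point `e g`
  have h1 : ∀ x, act (e * g) (g' * e') t x ≠ 0 → c x.1 ≤ wt lam x := by
    rw [← act_act]
    exact fun x hx => act_support he he' hlam x hx
  -- the point `W e g`
  have h2 : ∀ x, act W W' (act (e * g) (g' * e') t) x ≠ 0 → c x.1 ≤ wt lam x := by
    have h3 : act W W' (act (e * g) (g' * e') t) = act b' b (mix D (act g g' t)) := by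
      rw [← act_mix, ← hD, act_act, act_act, act_act]
      congr 1
      · calc W * (e * g) = (b' * b) * W * e * g := by rw [hb'b, one_mul]; noncomm_ring
          _ = b' * (b * W * e) * g := by noncomm_ring
          _ = b' * (g * u * g') * g := by rw [← hdec]
          _ = b' * (g * u * (g' * g)) := by noncomm_ring
          _ = b' * (g * u) := by rw [hg'g, mul_one]
          _ = b' * g * u := by noncomm_ring
      · have hinv : h' = e' * W' * b' := by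
          calc h' = h' * (b * (W * (e * e') * W') * b') := by
                rw [hee', mul_one, hWW', mul_one, hbb', mul_one]
            _ = h' * (b * W * e) * (e' * W' * b') := by noncomm_ring
            _ = h' * h * (e' * W' * b') := by rw [← hdec]
            _ = e' * W' * b' := by rw [hh2, one_mul]
        calc g' * e' * W' = g' * e' * W' * (b' * b) := by rw [hb'b, mul_one]
          _ = g' * (e' * W' * b') * b := by noncomm_ring
          _ = g' * h' * b := by rw [← hinv]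
          _ = (g' * g) * u' * g' * b := by rw [hh']; noncomm_ring
          _ = u' * g' * b := by rw [hg'g, one_mul]
          _ = u' * (g' * b) := by noncomm_ring
    rw [h3]
    exact fun x hx => act_support hb' hb (fun y hy => mix_support D hlam y hy) x hx
  have h4 : ∀ x, act (e * g) (g' * e') t x ≠ 0 → c x.1 ≤ wt (fun a => lam (σ a)) x := by
    intro x hx
    rw [wt_comp]
    obtain ⟨xb, xc, xI, xJ⟩ := x
    refine h2 (⟨xb, xc, fun i => σ (xI i), fun j => σ (xJ j)⟩ : s.Ix n) ?_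
    have h6 := act_perm σ (act (e * g) (g' * e') t)
      (⟨xb, xc, fun i => σ (xI i), fun j => σ (xJ j)⟩ : s.Ix n)
    simp only [Equiv.symm_apply_apply] at h6
    rw [hW, hW']
    exact fun h0 => hx (h6.symm.trans h0)
  have h5 : ∀ a, lam (σ a) = lam a := by
    refine eq_comp_of_min lam σ (hmin _ ⟨e * g, g' * e', ?_, ?_, rfl⟩
      (fun a => (lam a + lam (σ a)) / 2) ?_)
    · calc e * g * (g' * e') = e * (g * g') * e' := by noncomm_ring
        _ = 1 := by rw [hgg', mul_one, hee']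
    · calc g' * e' * (e * g) = g' * (e' * e) * g := by noncomm_ring
        _ = 1 := by rw [he'e, mul_one, hg'g]
    · intro x hx
      rw [wt_avg lam (fun a => lam (σ a))]
      have := h1 x hx
      have := h4 x hx
      linarith
  have hWP : InP lam W := by
    intro i j hij
    simp only [hW, Matrix.of_apply, ne_eq, ite_eq_right_iff, one_ne_zero, imp_false,
      not_not] at hij
    rw [hij, h5]
  rw [hdec]
  exact InP_mul (InP_mul hb hWP) he

end Pool.Agent.Lib.MP_666dc0_nt.IG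
end

section

open MvPolynomial

namespace Pool.Agent.Lib.MP_666dc0_nt.IG

/-- Part D. Kempf's theorem for `GL_n` and families of tensors, with thresholds. -/
theorem kempf {n : ℕ} {s : Shape} [s.Small] {κ : Type} [Field κ] (t : s.Ix n → κ) (c : s.β → ℝ)
    (hne : ∃ (g g' : Matrix (Fin n) (Fin n) κ) (lam : Fin n → ℝ), g * g' = 1 ∧ g' * g = 1 ∧
      ∀ x, act g g' t x ≠ 0 → c x.1 ≤ wt lam x) :
    ∃ (g g' : Matrix (Fin n) (Fin n) κ) (lam : Fin n → ℝ), g * g' = 1 ∧ g' * g = 1 ∧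
      (∀ x, act g g' t x ≠ 0 → c x.1 ≤ wt lam x) ∧
      ∀ u u' : Matrix (Fin n) (Fin n) κ, u * u' = 1 → u' * u = 1 →
        (∃ D : (b : s.β) → s.C b → s.C b → κ, act u u' t = mix D t) → InP lam (g * u * g') := by
  exact kempf_proof t c hne
end Pool.Agent.Lib.MP_666dc0_nt.IG
end
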