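import Pool.Agent.Lib.MP_666dc0_nt.Mg.G030
import Pool.Agent.Lib.MP_666dc0_nt.IG.R2b
import Pool.Agent.Lib.MP_666dc0_nt.Mg.G018
import Pool.Agent.Lib.MP_666dc0_nt.IG.Defs2

section

open MvPolynomial

namespace Pool.Agent.Lib.MP_666dc0_nt.IG

variable {A B : Type} [CommRing A] [CommRing B] [Algebra ℚ A] [Algebra ℚ B] {n : ℕ} {s : Shape}

/-- Over any coefficient ring the averages are combinations of rational invariants: write `p` as a
combination of monomials (`MvPolynomial.induction_on`-like or `p.sum`), `Rey` of a monomial with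
coefficient one comes from `ℚ` (`map_Rey`). -/
theorem Rey_mem_span (G : Red n) (p : MvPolynomial (s.Ix n) A) :
    Rey G p ∈ Submodule.span A {q | ∃ q₀ : MvPolynomial (s.Ix n) ℚ, IsInv G q₀ ∧
      q = MvPolynomial.map (algebraMap ℚ A) q₀} := by
  induction p using MvPolynomial.induction_on' with
  | monomial m a =>
    have h : (monomial m a : MvPolynomial (s.Ix n) A) =
        C a * MvPolynomial.map (algebraMap ℚ A) (monomial m 1) := by
      rw [map_monomial, map_one, C_mul_monomial, mul_one]
    rw [h, Rey_C_mul, ← map_Rey, ← smul_eq_C_mul]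
    exact Submodule.smul_mem _ _ (Submodule.subset_span ⟨_, isInv_Rey G _, rfl⟩)
  | add p q hp hq =>
    rw [Rey_add]
    exact Submodule.add_mem _ hp hq

end Pool.Agent.Lib.MP_666dc0_nt.IG
end

section

open MvPolynomial

namespace Pool.Agent.Lib.MP_666dc0_nt.IG

variable {n : ℕ} {s : Shape}

/-- The action of diagonal matrices. -/
theorem L1a_act_diagonal {A : Type} [CommRing A] (d d' : Fin n → A) (t : s.Ix n → A) (x : s.Ix n) :
    act (Matrix.diagonal d) (Matrix.diagonal d') t x =
      (∏ i, d (x.2.2.1 i)) * (∏ j, d' (x.2.2.2 j)) * t x := by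
  obtain ⟨b, c, I, J⟩ := x
  simp only [act]
  rw [Finset.sum_eq_single I, Finset.sum_eq_single J]
  · simp
  · intro M _ hM
    obtain ⟨j, hj⟩ := Function.ne_iff.1 hM
    rw [Finset.prod_eq_zero (f := fun j => Matrix.diagonal d' (M j) (J j)) (Finset.mem_univ j)
      (Matrix.diagonal_apply_ne _ hj), mul_zero, zero_mul]
  · simp
  · intro L _ hL
    obtain ⟨i, hi⟩ := Function.ne_iff.1 hL
    refine Finset.sum_eq_zero fun M _ => ?_
    rw [Finset.prod_eq_zero (f := fun i => Matrix.diagonal d (I i) (L i)) (Finset.mem_univ i)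
      (Matrix.diagonal_apply_ne _ (Ne.symm hi)), zero_mul, zero_mul]
  · simp

theorem L1a_prod (κ : Type) [Field κ] {ι : Type} (f : Finset ι) (a : ι → ℝ) :
    ∏ i ∈ f, (AddMonoidAlgebra.single (a i) 1 : AddMonoidAlgebra κ ℝ) =
      AddMonoidAlgebra.single (∑ i ∈ f, a i) 1 := by
  classical
  induction f using Finset.induction_on with
  | empty => simp [AddMonoidAlgebra.one_def]
  | insert i f hi ih =>
    rw [Finset.prod_insert hi, ih, Finset.sum_insert hi, AddMonoidAlgebra.single_mul_single,
      one_mul]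

theorem dT_mul (κ : Type) [Field κ] (lam : Fin n → ℝ) : dT κ lam * dT κ (fun a => - lam a) = 1 := by
  unfold dT
  rw [Matrix.diagonal_mul_diagonal, ← Matrix.diagonal_one]
  congr 1
  funext a
  rw [AddMonoidAlgebra.single_mul_single, add_neg_cancel, one_mul, AddMonoidAlgebra.one_def]

/-- The action of the diagonal matrix: `(T^lam t)(x) = T^(wt lam x) t(x)`. (`act` of diagonal matrices: only
`L = I`, `M = J` contribute; `AddMonoidAlgebra.single_mul_single`, product of singles is the single of the
sum, `∏ single (lam (I i)) 1 * ∏ single (- lam (J j)) 1 = single (wt lam x) 1`.) -/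
theorem act_dT {κ : Type} [Field κ] (lam : Fin n → ℝ) (t : s.Ix n → κ) (x : s.Ix n) :
    act (dT κ lam) (dT κ (fun a => - lam a))
      (fun y => algebraMap κ (AddMonoidAlgebra κ ℝ) (t y)) x =
      AddMonoidAlgebra.single (wt lam x) (t x) := by
  unfold dT
  rw [L1a_act_diagonal, L1a_prod, L1a_prod, AddMonoidAlgebra.coe_algebraMap]
  simp only [Function.comp_apply, AddMonoidAlgebra.single_mul_single, one_mul, add_zero, wt,
    Algebra.algebraMap_self, RingHom.id_apply, Finset.sum_neg_distrib, sub_eq_add_neg]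

end Pool.Agent.Lib.MP_666dc0_nt.IG
end
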