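import Mathlib

section

end

section

end

section

end

section

namespace Pool.Agent.Lib.MP_666dc0_nt.IG

open Polynomial in
theorem BT1_trace_aeval {K : Type} [Field K] {n : ℕ}
    (y : Matrix (Fin n) (Fin n) K) (h : ∀ k : ℕ, 0 < k → (y ^ k).trace = 0) (Q : K[X]) :
    (aeval y (X * Q)).trace = 0 := by
  induction Q using Polynomial.induction_on' with
  | add p q hp hq => rw [mul_add, map_add, Matrix.trace_add, hp, hq, add_zero]
  | monomial k a =>
    rw [map_mul, aeval_X, aeval_monomial, ← Algebra.smul_def, mul_smul_comm, ← pow_succ',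
      Matrix.trace_smul, h _ (Nat.succ_pos k), smul_zero]

/-- BT1. PROOF. Let `f ≠ 0` be a polynomial with `f(y) = 0` (e.g. the characteristic polynomial), write
`f = X^m * g` with `g(0) ≠ 0` and multiply by `X` if necessary so that `m ≥ 1` (`f(y) = 0` still). `X^m` and `g` are
coprime: `X^m * u + g * v = 1`. Let `e = (X^m * u)(y)`. Then `e * (1 - e) = (X^m u v g)(y) = 0`, so `e` is
idempotent. `X^m * u` has no constant term, so `e` is a linear combination of the `y^k`, `k ≥ 1`, and
`trace e = 0`. The trace of an idempotent is its rank (`LinearMap.IsProj.trace`,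
`LinearMap.trace_eq_...` for `IsIdempotentElem`; or diagonalise), so in characteristic `0` the rank is
`0` and `e = 0`. Then `(g v)(y) = 1` and `y^m = (X^m g v)(y) = 0`. -/
theorem nilpotent_of_traces {K : Type} [Field K] [CharZero K] {n : ℕ}
    (y : Matrix (Fin n) (Fin n) K) (h : ∀ k : ℕ, 0 < k → (y ^ k).trace = 0) : IsNilpotent y := by
  open Polynomial in
  have hF0 : (X * y.charpoly : K[X]) ≠ 0 :=
    mul_ne_zero X_ne_zero (Matrix.charpoly_monic y).ne_zero
  have hFy : aeval y (X * y.charpoly : K[X]) = 0 := by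
    rw [map_mul, Matrix.aeval_self_charpoly, mul_zero]
  obtain ⟨g, hg, hnd⟩ := exists_eq_pow_rootMultiplicity_mul_and_not_dvd _ hF0 0
  rw [C_0, sub_zero] at hg hnd
  set m := rootMultiplicity 0 (X * y.charpoly) with hm
  have hm1 : m ≠ 0 := by
    intro h0
    rw [h0, pow_zero, one_mul] at hg
    exact hnd (hg ▸ dvd_mul_right X y.charpoly)
  have hcop : IsCoprime (X ^ m : K[X]) g :=
    ((irreducible_X.coprime_iff_not_dvd).mpr hnd).pow_left
  obtain ⟨u, v, huv⟩ := hcop
  obtain ⟨j, hj⟩ := Nat.exists_eq_succ_of_ne_zero hm1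
  have hXg : aeval y (X ^ m * g) = 0 := by rw [← hg]; exact hFy
  have hidem : IsIdempotentElem (aeval y (u * X ^ m)) := by
    change aeval y (u * X ^ m) * aeval y (u * X ^ m) = aeval y (u * X ^ m)
    rw [← map_mul, ← sub_eq_zero, ← map_sub]
    have : u * X ^ m * (u * X ^ m) - u * X ^ m = - (u * v) * (X ^ m * g) := by
      linear_combination (u * X ^ m) * huv
    rw [this, map_mul, hXg, mul_zero]
  have htr : (aeval y (u * X ^ m)).trace = 0 := by
    have : u * X ^ m = X * (X ^ j * u) := by rw [hj, Nat.succ_eq_add_one]; ring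
    rw [this]
    exact BT1_trace_aeval y h _
  have he : aeval y (u * X ^ m) = 0 := by
    have h1 : IsIdempotentElem (Matrix.toLin' (aeval y (u * X ^ m))) := by
      change _ * _ = _
      rw [Module.End.mul_eq_comp, ← Matrix.toLin'_mul, hidem.eq]
    have h2 : Matrix.toLin' (aeval y (u * X ^ m)) = 0 := by
      rw [← LinearMap.IsIdempotentElem.trace_eq_zero_iff h1, Matrix.trace_toLin'_eq, htr]
    exact (LinearEquiv.map_eq_zero_iff _).mp h2
  refine ⟨m, ?_⟩
  have h3 : (X ^ m : K[X]) = X ^ m * (u * X ^ m) + v * (X ^ m * g) := by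
    linear_combination - X ^ m * huv
  calc y ^ m = aeval y (X ^ m : K[X]) := by rw [map_pow, aeval_X]
    _ = aeval y (X ^ m * (u * X ^ m) + v * (X ^ m * g)) := by rw [← h3]
    _ = 0 := by rw [map_add, map_mul, map_mul _ v, he, hXg, mul_zero, mul_zero, add_zero]

end Pool.Agent.Lib.MP_666dc0_nt.IG
end

section

namespace Pool.Agent.Lib.MP_666dc0_nt.IG

theorem BT2_mul_mem {K : Type} [Field K] {n : ℕ} {M : Type}
    (x : M → Matrix (Fin n) (Fin n) K) (l₀ : List M) (y : Matrix (Fin n) (Fin n) K)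
    (hy : y ∈ Submodule.span K {z | ∃ l : List M, l ≠ [] ∧ z = (l.map x).prod}) :
    (l₀.map x).prod * y ∈ Submodule.span K {z | ∃ l : List M, l ≠ [] ∧ z = (l.map x).prod} := by
  induction hy using Submodule.span_induction with
  | mem z hz =>
    obtain ⟨l, hl, rfl⟩ := hz
    apply Submodule.subset_span
    refine ⟨l₀ ++ l, ?_, ?_⟩
    · simp [hl]
    · rw [List.map_append, List.prod_append]
  | zero => rw [mul_zero]; exact Submodule.zero_mem _
  | add a b _ _ ha hb => rw [mul_add]; exact Submodule.add_mem _ ha hb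
  | smul c a _ ha => rw [mul_smul_comm]; exact Submodule.smul_mem _ _ ha

theorem BT2_mul_mem' {K : Type} [Field K] {n : ℕ} {M : Type}
    (x : M → Matrix (Fin n) (Fin n) K) (y z : Matrix (Fin n) (Fin n) K)
    (hz : z ∈ Submodule.span K {z | ∃ l : List M, l ≠ [] ∧ z = (l.map x).prod})
    (hy : y ∈ Submodule.span K {z | ∃ l : List M, l ≠ [] ∧ z = (l.map x).prod}) :
    z * y ∈ Submodule.span K {z | ∃ l : List M, l ≠ [] ∧ z = (l.map x).prod} := by
  induction hz using Submodule.span_induction with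
  | mem z hz =>
    obtain ⟨l, hl, rfl⟩ := hz
    exact BT2_mul_mem x l y hy
  | zero => rw [zero_mul]; exact Submodule.zero_mem _
  | add a b _ _ ha hb => rw [add_mul]; exact Submodule.add_mem _ ha hb
  | smul c a _ ha => rw [smul_mul_assoc]; exact Submodule.smul_mem _ _ ha

/-- BT2. PROOF. Let `N` be the span; `N` is closed under multiplication. Among the nonzero subspaces `W` of
`Fin (n+1) → K` with `y W ⊂ W` for all `y ∈ N` (the whole space is one) take one of minimal
dimension (`finrank`, `Nat.find` or well-foundedness). Let `v ∈ W`, `v ≠ 0`, and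
`N v = {y v | y ∈ N} ⊂ W`, a subspace stable under `N`. If `N v ≠ 0`, then `N v = W` by minimality, so
`v = y v` for some `y ∈ N`, hence `v = y^k v = 0` for `k` large: contradiction. So `N v = 0`, in particular
`x m v = 0` for all `m`. -/
theorem common_kernel {K : Type} [Field K] {n : ℕ} {M : Type}
    (x : M → Matrix (Fin (n + 1)) (Fin (n + 1)) K)
    (h : ∀ y ∈ Submodule.span K {z | ∃ l : List M, l ≠ [] ∧ z = (l.map x).prod}, IsNilpotent y) :
    ∃ v : Fin (n + 1) → K, v ≠ 0 ∧ ∀ m, (x m).mulVec v = 0 := by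
  classical
  set N := Submodule.span K {z | ∃ l : List M, l ≠ [] ∧ z = (l.map x).prod} with hN
  let P : ℕ → Prop := fun d => ∃ W : Submodule K (Fin (n + 1) → K), W ≠ ⊥ ∧
    (∀ y ∈ N, ∀ w ∈ W, y.mulVec w ∈ W) ∧ Module.finrank K W = d
  have hex : ∃ d, P d := ⟨_, ⊤, top_ne_bot, fun _ _ _ _ => trivial, rfl⟩
  obtain ⟨W, hW0, hWs, hWd⟩ := Nat.find_spec hex
  have hmin : ∀ W' : Submodule K (Fin (n + 1) → K), W' ≠ ⊥ →
      (∀ y ∈ N, ∀ w ∈ W', y.mulVec w ∈ W') → Nat.find hex ≤ Module.finrank K W' :=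
    fun W' h1 h2 => Nat.find_min' hex ⟨W', h1, h2, rfl⟩
  obtain ⟨v, hvW, hv0⟩ := Submodule.exists_mem_ne_zero_of_ne_bot hW0
  let φ : Matrix (Fin (n + 1)) (Fin (n + 1)) K →ₗ[K] (Fin (n + 1) → K) :=
    { toFun := fun y => y.mulVec v
      map_add' := fun a b => Matrix.add_mulVec a b v
      map_smul' := fun c a => Matrix.smul_mulVec c a v }
  have hφ : ∀ y, φ y = y.mulVec v := fun _ => rfl
  have hle : N.map φ ≤ W := by
    rintro _ ⟨y, hy, rfl⟩
    exact hWs y hy v hvW
  have hst : ∀ y ∈ N, ∀ w ∈ N.map φ, y.mulVec w ∈ N.map φ := by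
    rintro y hy _ ⟨z, hz, rfl⟩
    refine ⟨y * z, BT2_mul_mem' x z y hy hz, ?_⟩
    rw [hφ, hφ, Matrix.mulVec_mulVec]
  by_cases hb : N.map φ = ⊥
  · refine ⟨v, hv0, fun m => ?_⟩
    have hm : x m ∈ N := Submodule.subset_span ⟨[m], by simp, by simp⟩
    have : φ (x m) ∈ N.map φ := ⟨x m, hm, rfl⟩
    rw [hb, Submodule.mem_bot] at this
    exact this
  · exfalso
    have heq : N.map φ = W := by
      apply Submodule.eq_of_le_of_finrank_le hle
      rw [hWd]
      exact hmin _ hb hst
    have hv : v ∈ N.map φ := heq ▸ hvW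
    obtain ⟨y, hy, hyv⟩ := hv
    obtain ⟨k, hk⟩ := h y hy
    have hp : ∀ j : ℕ, (y ^ j).mulVec v = v := by
      intro j
      induction j with
      | zero => simp
      | succ j ih => rw [pow_succ, ← Matrix.mulVec_mulVec, ← hφ y, hyv, ih]
    have := hp k
    rw [hk, Matrix.zero_mulVec] at this
    exact hv0 this.symm

/-- BT2'. PROOF. If all words have trace `0` then every `y` in the span of the non-empty words satisfies
`trace (y^k) = 0` for `k ≥ 1` (`y^k` is again in the span, the span is closed under multiplication, the trace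
is linear); `nilpotent_of_traces`. -/
theorem nilpotent_span {K : Type} [Field K] [CharZero K] {n : ℕ} {M : Type}
    (x : M → Matrix (Fin n) (Fin n) K) (h : ∀ l : List M, l ≠ [] → (l.map x).prod.trace = 0) :
    ∀ y ∈ Submodule.span K {z | ∃ l : List M, l ≠ [] ∧ z = (l.map x).prod}, IsNilpotent y := by
  intro y hy
  apply nilpotent_of_traces
  have htr : ∀ z ∈ Submodule.span K {z | ∃ l : List M, l ≠ [] ∧ z = (l.map x).prod},
      z.trace = 0 := by
    intro z hz
    induction hz using Submodule.span_induction with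
    | mem z hz =>
      obtain ⟨l, hl, rfl⟩ := hz
      exact h l hl
    | zero => exact Matrix.trace_zero _ _
    | add a b _ _ ha hb => rw [Matrix.trace_add, ha, hb, add_zero]
    | smul c a _ ha => rw [Matrix.trace_smul, ha, smul_zero]
  intro k hk
  apply htr
  obtain ⟨j, rfl⟩ := Nat.exists_eq_succ_of_ne_zero hk.ne'
  clear hk
  induction j with
  | zero => simpa using hy
  | succ j ih =>
    rw [Nat.succ_eq_add_one, pow_succ]
    exact BT2_mul_mem' x _ _ ih hy

end Pool.Agent.Lib.MP_666dc0_nt.IG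
end
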