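import Mathlib

section

end

section

end

section

end

section

open MvPolynomial

namespace Pool.Agent.Lib.MP_666dc0_nt.IG

/-- Nullstellensatz for finitely generated algebras: an element of a finitely generated `ℚ`-algebra that is
killed by all homomorphisms to an algebraic closure of `ℚ` is nilpotent. (`E` is a Jacobson ring:
the nilradical is the intersection of the maximal ideals (`Ideal.jacobson` of `⊥`; instance `isJacobsonRing_of_finiteType`);
for a maximal ideal `m` the field `E ⧸ m` is finite over `ℚ` (Zariski's lemma, `finite_of_finite_type_of_isJacobsonRing`),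
so it embeds in `AlgebraicClosure ℚ` (`IsAlgClosed.lift`).) -/
theorem isNilpotent_of_forall {E : Type} [CommRing E] [Algebra ℚ E] [Algebra.FiniteType ℚ E]
    (a : E) (h : ∀ χ : E →ₐ[ℚ] AlgebraicClosure ℚ, χ a = 0) : IsNilpotent a := by
  have hJ : IsJacobsonRing E := isJacobsonRing_of_finiteType (A := ℚ) (B := E)
  have h1 : a ∈ (⊥ : Ideal E).radical := by
    rw [Ideal.radical_eq_jacobson, Ideal.jacobson, Ideal.mem_sInf]
    rintro m ⟨-, hm⟩
    let i1 : Field (E ⧸ m) := Ideal.Quotient.field m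
    have hfin : Module.Finite ℚ (E ⧸ m) := finite_of_finite_type_of_isJacobsonRing ℚ (E ⧸ m)
    have halg : Algebra.IsAlgebraic ℚ (E ⧸ m) := inferInstance
    let φ : (E ⧸ m) →ₐ[ℚ] AlgebraicClosure ℚ := IsAlgClosed.lift
    have h2 : φ (Ideal.Quotient.mk m a) = 0 := h (φ.comp (Ideal.Quotient.mkₐ ℚ m))
    have h3 : Ideal.Quotient.mk m a = 0 := φ.toRingHom.injective (h2.trans (map_zero _).symm)
    exact Ideal.Quotient.eq_zero_iff_mem.1 h3
  obtain ⟨n, hn⟩ := h1
  exact ⟨n, (Ideal.mem_bot).1 hn⟩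

end Pool.Agent.Lib.MP_666dc0_nt.IG
end

section

open MvPolynomial

namespace Pool.Agent.Lib.MP_666dc0_nt.IG

/-- Lifting integrality. `E` a finitely generated `ℚ`-algebra, `Z` the set of all homomorphisms
`E → AlgebraicClosure ℚ`, `S ⊂ E` a subset, `a ∈ E`. If the function `z ↦ z a` on `Z` is integral over the algebra
generated by the functions `z ↦ z s`, `s ∈ S`, then `a` is integral over the algebra generated by `S`.
Proof. Let `Φ : E →ₐ[ℚ] (Z → Q̄)` be evaluation; `Algebra.adjoin ℚ (Φ '' S) = (Algebra.adjoin ℚ S).map Φ`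
(`AlgHom.map_adjoin`). Take a monic polynomial over it killing `Φ a`, lift its coefficients to a monic
polynomial `g` over `Algebra.adjoin ℚ S` (same degree). Then `Φ (g(a)) = 0`, so `g(a)` is nilpotent
(`isNilpotent_of_forall`), and a power of `g` is a monic polynomial killing `a`. -/
theorem integral_lift {E : Type} [CommRing E] [Algebra ℚ E] [Algebra.FiniteType ℚ E] (S : Set E)
    (a : E) (h : IsIntegral (Algebra.adjoin ℚ {φ : (E →ₐ[ℚ] AlgebraicClosure ℚ) → AlgebraicClosure ℚ |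
      ∃ s ∈ S, φ = fun z => z s}) (fun z : E →ₐ[ℚ] AlgebraicClosure ℚ => z a)) :
    IsIntegral (Algebra.adjoin ℚ S) a := by
  -- evaluation
  let Φ : E →ₐ[ℚ] ((E →ₐ[ℚ] AlgebraicClosure ℚ) → AlgebraicClosure ℚ) :=
    AlgHom.pi fun z : E →ₐ[ℚ] AlgebraicClosure ℚ => z
  have hΦ : ∀ b z, Φ b z = z b := fun b z => rfl
  have hset : {φ : (E →ₐ[ℚ] AlgebraicClosure ℚ) → AlgebraicClosure ℚ |
      ∃ s ∈ S, φ = fun z => z s} = Φ '' S := by
    ext φ
    constructor
    · rintro ⟨s, hs, rfl⟩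
      exact ⟨s, hs, rfl⟩
    · rintro ⟨s, hs, rfl⟩
      exact ⟨s, hs, rfl⟩
  rw [hset] at h
  -- the homomorphism of the subalgebras
  let ψ : Algebra.adjoin ℚ S →+* Algebra.adjoin ℚ (Φ '' S) :=
    RingHom.codRestrict ((Φ : E →+* _).comp (Algebra.adjoin ℚ S).val.toRingHom)
      (Algebra.adjoin ℚ (Φ '' S)) (by
        rintro ⟨b, hb⟩
        have h1 : Φ b ∈ (Algebra.adjoin ℚ S).map Φ := ⟨b, hb, rfl⟩
        rw [AlgHom.map_adjoin] at h1
        exact h1)
  have hψ : Function.Surjective ψ := by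
    rintro ⟨c, hc⟩
    have h1 : c ∈ (Algebra.adjoin ℚ S).map Φ := by
      rw [AlgHom.map_adjoin]
      exact hc
    obtain ⟨b, hb, rfl⟩ := h1
    exact ⟨⟨b, hb⟩, rfl⟩
  obtain ⟨p, hp, hp0⟩ := h
  obtain ⟨g, hg, -, hgm⟩ := Polynomial.lifts_and_natDegree_eq_and_monic
    (f := ψ) (p := p) ((Polynomial.mem_lifts _).2 (Polynomial.map_surjective ψ hψ p)) hp
  have hcomp : ∀ z : E →ₐ[ℚ] AlgebraicClosure ℚ,
      z (Polynomial.aeval a g) = 0 := by
    intro z
    have h1 : Φ (Polynomial.aeval a g) = 0 := by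
      rw [Polynomial.aeval_def, ← AlgHom.coe_toRingHom, Polynomial.hom_eval₂, ← hp0, ← hg,
        Polynomial.eval₂_map]
      rfl
    have h2 := congrFun h1 z
    rwa [hΦ] at h2
  obtain ⟨n, hn⟩ := isNilpotent_of_forall (Polynomial.aeval a g) hcomp
  refine ⟨g ^ n, hgm.pow n, ?_⟩
  rw [← Polynomial.aeval_def, map_pow, hn]

end Pool.Agent.Lib.MP_666dc0_nt.IG
end
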