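import Mathlib
import Pool.Agent.Lib.MP_666dc0_nt.Eqv
import Pool.Agent.Lib.MP_666dc0_nt.Mg.G021
import Pool.Agent.Lib.MP_666dc0_nt.Mg.G022
import Pool.Agent.Lib.MP_666dc0_nt.Mg.G017
import Pool.Agent.Lib.MP_666dc0_nt.Mg.G018
import Pool.Agent.Lib.MP_666dc0_nt.Mg.G019
import Pool.Agent.Lib.MP_666dc0_nt.Mg.G016
import Pool.Agent.Lib.MP_666dc0_nt.Mg.G031
import Pool.Agent.Lib.MP_666dc0_nt.Mg.G037
import Pool.Agent.Lib.MP_666dc0_nt.Mg.G033

section

open MvPolynomial

namespace Pool.Agent.Lib.MP_666dc0_nt.IG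

variable {O : Type} [CommRing O] [HopfAlgebra ℚ O] {Γ : Type} [Group Γ] {A : HopfAction Γ O}
  {n : ℕ} (ρ : MatRep A n)

theorem G0b_gm_inv_mul {R : Type} [CommRing R] [Algebra ℚ R] (x : Pts O R) :
    ρ.gm x⁻¹ * ρ.gm x = 1 := by
  rw [← ρ.gm_mul, inv_mul_cancel, ρ.gm_one]

theorem G0b_gm_mul_inv {R : Type} [CommRing R] [Algebra ℚ R] (x : Pts O R) :
    ρ.gm x * ρ.gm x⁻¹ = 1 := by
  rw [← ρ.gm_mul, mul_inv_cancel, ρ.gm_one]

theorem gm_injective (hρ : Faithful ρ) {R : Type} [CommRing R] [Algebra ℚ R] {x y : Pts O R}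
    (h : ρ.gm x = ρ.gm y) : x = y := by
  have hinv : ρ.gm x⁻¹ = ρ.gm y⁻¹ := by
    calc ρ.gm x⁻¹ = ρ.gm x⁻¹ * (ρ.gm y * ρ.gm y⁻¹) := by rw [G0b_gm_mul_inv, mul_one]
      _ = ρ.gm x⁻¹ * ρ.gm x * ρ.gm y⁻¹ := by rw [← h, mul_assoc]
      _ = _ := by rw [G0b_gm_inv_mul, one_mul]
  apply Pts.ext
  apply AlgHom.ext_of_adjoin_eq_top hρ
  rintro f (⟨i, j, rfl⟩ | ⟨i, j, rfl⟩)
  · exact congrFun (congrFun h i) j
  · exact congrFun (congrFun hinv i) j

theorem ev_injective (hρ : Faithful ρ) {R : Type} [CommRing R] [Algebra ℚ R] {x y : A.LGroup R}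
    (h : ρ.ev R x = ρ.ev R y) (hr : x.right = y.right) : x = y := by
  have h1 : ρ.gm x.left = ρ.gm y.left := by
    have h2 : ρ.gm x.left * ρ.pm R x.right = ρ.gm y.left * ρ.pm R y.right := h
    rw [← hr] at h2
    calc ρ.gm x.left = ρ.gm x.left * (ρ.pm R x.right * ρ.pm R x.right⁻¹) := by
          rw [← map_mul, mul_inv_cancel, map_one, mul_one]
      _ = ρ.gm y.left * (ρ.pm R x.right * ρ.pm R x.right⁻¹) := by
          rw [← mul_assoc, h2, mul_assoc]
      _ = _ := by rw [← map_mul, mul_inv_cancel, map_one, mul_one]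
  exact SemidirectProduct.ext (gm_injective ρ hρ h1) hr

theorem ev_mul_inv {R : Type} [CommRing R] [Algebra ℚ R] (x : A.LGroup R) :
    ρ.ev R x * ρ.ev R x⁻¹ = 1 := by
  rw [← map_mul, mul_inv_cancel, map_one]

theorem ev_inv_mul {R : Type} [CommRing R] [Algebra ℚ R] (x : A.LGroup R) :
    ρ.ev R x⁻¹ * ρ.ev R x = 1 := by
  rw [← map_mul, inv_mul_cancel, map_one]

/-- `gm` of the `Ĝ`-component in terms of `ev`. -/
theorem in_of_ev {G : Red n} (hG : IsRedG ρ G) {R : Type} [CommRing R] [Algebra ℚ R]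
    (x : A.LGroup R) : G.In R (ρ.ev R x * ρ.pm R x.right⁻¹) (ρ.pm R x.right * ρ.ev R x⁻¹) := by
  rw [hG]
  have h0 : ρ.pm R x.right * ρ.pm R x.right⁻¹ = 1 := by
    rw [← map_mul, mul_inv_cancel, map_one]
  refine ⟨x.left, ?_, ?_⟩
  · rw [ρ.ev_apply, mul_assoc, h0, mul_one]
  · have h1 : ρ.gm x.left * (ρ.pm R x.right * ρ.ev R x⁻¹) = 1 := by
      rw [← mul_assoc, ← ρ.ev_apply]
      exact ev_mul_inv ρ x
    calc ρ.gm x.left⁻¹ = ρ.gm x.left⁻¹ * (ρ.gm x.left * (ρ.pm R x.right * ρ.ev R x⁻¹)) := by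
          rw [h1, mul_one]
      _ = ρ.gm x.left⁻¹ * ρ.gm x.left * (ρ.pm R x.right * ρ.ev R x⁻¹) := by rw [mul_assoc]
      _ = _ := by rw [G0b_gm_inv_mul, one_mul]

end Pool.Agent.Lib.MP_666dc0_nt.IG
end

section

open MvPolynomial

namespace Pool.Agent.Lib.MP_666dc0_nt.IG

private theorem B2b_finite (n : ℕ) (s : Shape) [s.Small] : Finite (s.Ix n) := by
  have : Finite (Σ b : s.β, s.C b × (Fin (s.p b) → Fin n) × (Fin (s.q b) → Fin n)) :=
    inferInstance
  exact this

/-- A polynomial of positive weight vanishes at a killed point. -/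
private theorem B2b_kill {n : ℕ} {s : Shape} (w : s.β → ℕ) {K : Type} [Field K] [CharZero K]
    (t : s.Ix n → K) (p : MvPolynomial (s.Ix n) ℚ) (d : ℕ) (hd : 0 < d)
    (hpd : IsWeightedHomogeneous (fun x : s.Ix n => w x.1) p d) :
    aeval (kill (fun b => 0 < w b) t) p = 0 := by
  classical
  rw [aeval_def, eval₂_eq]
  refine Finset.sum_eq_zero fun m hm => ?_
  have h1 : Finsupp.weight (fun x : s.Ix n => w x.1) m = d := hpd (mem_support_iff.1 hm)
  obtain ⟨x, hx, hx2⟩ : ∃ x ∈ m.support, 0 < w x.1 := by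
    by_contra hcon
    push Not at hcon
    rw [Finsupp.weight_apply, Finsupp.sum] at h1
    have h2 : ∑ x ∈ m.support, m x • w x.1 = 0 :=
      Finset.sum_eq_zero fun x hx => by rw [Nat.le_zero.1 (hcon x hx), smul_zero]
    omega
  have h3 : kill (fun b => 0 < w b) t x = 0 := by
    unfold kill
    rw [if_pos hx2]
  rw [Finset.prod_eq_zero hx, mul_zero]
  rw [h3, zero_pow (Finsupp.mem_support_iff.1 hx)]

/-- B2b. Powers of invariants of positive degree (uses B2a.2 and the Reynolds operator).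

PROOF. Let `cG` be the set of `q` with `aeval (act k k' (φ ∘ t)) q = 0` for all `t ∈ Z`, all `A`, `φ`,
`(k, k')` with `G.In A k k'`; it is an ideal. Let `b = Ideal.span S ⊔ cG`. Claim: `p` vanishes on
`zeroLocus K b`. Let `t` be such a point. For `q ∈ vanishingIdeal ℚ Z`, `q ^ M ∈ cG` (B2a.2), so
`(aeval t q)^M = 0`, `aeval t q = 0`; by `hcl`, `t ∈ Z`. Also `aeval t q = 0` for `q ∈ S`; by
`hnull`, `aeval t p = aeval (kill (fun b => 0 < w b) t) p`, and this is `0`: every monomial of `p` has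
weight `d > 0`, so contains a variable `x` with `0 < w x.1`, at which `kill` is `0`. By the
Nullstellensatz (`vanishingIdeal_zeroLocus_eq_radical`) `p ^ N ∈ b`, `N > 0` w.l.o.g.:
`p ^ N = ∑_{q ∈ T} q * h' q + z`, `T ⊂ S` finite, `z ∈ cG` (`Submodule.mem_sup`,
`Submodule.mem_span_finset`-like / `mem_span_set'`). `p ^ N` is invariant; apply `Rey`:
`p ^ N = ∑ q * Rey (h' q) + Rey z`, and `aeval t (Rey z) = 0` for `t ∈ Z` by `Rey_eval_zero'`.
Take `h q = Rey (h' q)`. -/
theorem inv_pow_mem {n : ℕ} (G : Red n) (s : Shape) [s.Small] (w : s.β → ℕ) (K : Type)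
    [Field K] [IsAlgClosed K] [CharZero K] (Z : Set (s.Ix n → K))
    (hG : ∀ t ∈ Z, ∀ k k' : Matrix (Fin n) (Fin n) K, G.In K k k' → act k k' t ∈ Z)
    (hcl : ∀ t : s.Ix n → K, (∀ p : MvPolynomial (s.Ix n) ℚ, (∀ t' ∈ Z, aeval t' p = 0) →
      aeval t p = 0) → t ∈ Z)
    (S : Set (MvPolynomial (s.Ix n) ℚ)) (hS : ∀ q ∈ S, IsInv G q)
    (hnull : ∀ t ∈ Z, (∀ q ∈ S, aeval t q = 0) → ∀ p : MvPolynomial (s.Ix n) ℚ, IsInv G p →
      aeval t p = aeval (kill (fun b => 0 < w b) t) p)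
    (p : MvPolynomial (s.Ix n) ℚ) (hp : IsInv G p) (d : ℕ) (hd : 0 < d)
    (hpd : IsWeightedHomogeneous (fun x : s.Ix n => w x.1) p d) :
    ∃ N : ℕ, 0 < N ∧ ∃ (T : Finset (MvPolynomial (s.Ix n) ℚ))
      (h : MvPolynomial (s.Ix n) ℚ → MvPolynomial (s.Ix n) ℚ), (↑T : Set _) ⊆ S ∧
      (∀ q, IsInv G (h q)) ∧ p ^ N - ∑ q ∈ T, q * h q ∈ vanishingIdeal ℚ Z := by
  classical
  have := B2b_finite n s
  obtain ⟨M, hM⟩ := exists_pow_orbit G s K Z hG
  let cG : Ideal (MvPolynomial (s.Ix n) ℚ) :=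
    { carrier := {q | ∀ t ∈ Z, ∀ (A : Type) [CommRing A] [Algebra ℚ A] (φ : K →+* A)
        (k k' : Matrix (Fin n) (Fin n) A), G.In A k k' →
        aeval (act k k' (fun x => φ (t x))) q = 0}
      add_mem' := by
        intro a b ha hb t ht A _ _ φ k k' hk
        rw [map_add, ha t ht A φ k k' hk, hb t ht A φ k k' hk, add_zero]
      zero_mem' := by
        intro t ht A _ _ φ k k' hk
        rw [map_zero]
      smul_mem' := by
        intro a b hb t ht A _ _ φ k k' hk
        rw [smul_eq_mul, map_mul, hb t ht A φ k k' hk, mul_zero] }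
  have hcG : ∀ q ∈ cG, ∀ t ∈ Z, ∀ (A : Type) [CommRing A] [Algebra ℚ A] (φ : K →+* A)
        (k k' : Matrix (Fin n) (Fin n) A), G.In A k k' →
        aeval (act k k' (fun x => φ (t x))) q = 0 := fun q hq => hq
  let b : Ideal (MvPolynomial (s.Ix n) ℚ) := Ideal.span S ⊔ cG
  have hrad : p ∈ b.radical := by
    rw [← vanishingIdeal_zeroLocus_eq_radical (K := K) b, mem_vanishingIdeal_iff]
    intro t ht
    have htZ : t ∈ Z := by
      refine hcl t fun q hq => ?_
      have h1 : q ^ M ∈ cG := by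
        intro t' ht' A _ _ φ k k' hk
        rw [map_pow]
        exact hM q hq t' ht' A φ k k' hk
      have h2 := ht (q ^ M) (Ideal.mem_sup_right h1)
      rw [map_pow] at h2
      exact eq_zero_of_pow_eq_zero h2
    have hS0 : ∀ q ∈ S, aeval t q = 0 := fun q hq =>
      ht q (Ideal.mem_sup_left (Ideal.subset_span hq))
    rw [hnull t htZ hS0 p hp]
    exact B2b_kill w t p d hd hpd
  obtain ⟨N, hN⟩ := hrad
  have hN1 : p ^ (N + 1) ∈ b := by
    rw [pow_succ]
    exact b.mul_mem_right _ hN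
  obtain ⟨y, hy, z, hz, hyz⟩ := Submodule.mem_sup.1 hN1
  obtain ⟨f, T, hT, -, hf⟩ := Submodule.mem_span_iff_exists_finset_subset.1 hy
  refine ⟨N + 1, Nat.succ_pos _, T, fun q => Rey G (f q), hT, fun q => Rey_isInv' G _, ?_⟩
  let RH : MvPolynomial (s.Ix n) ℚ →+ MvPolynomial (s.Ix n) ℚ :=
    AddMonoidHom.mk' (Rey G) (Rey_add' G)
  have hpN : IsInv G (p ^ (N + 1)) := (InvA G s).pow_mem hp (N + 1)
  have h1 : RH (p ^ (N + 1)) = p ^ (N + 1) := Rey_eq' G _ hpN
  have h2 : RH (p ^ (N + 1)) = ∑ q ∈ T, q * Rey G (f q) + Rey G z := by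
    rw [← hyz, ← hf, map_add, map_sum]
    congr 1
    refine Finset.sum_congr rfl fun q hq => ?_
    rw [smul_eq_mul, mul_comm]
    exact Rey_inv_mul' G q _ (hS q (hT hq))
  have h3 : p ^ (N + 1) - ∑ q ∈ T, q * Rey G (f q) = Rey G z := by
    rw [← h1, h2, add_sub_cancel_left]
  rw [h3, mem_vanishingIdeal_iff]
  intro t ht
  exact Rey_eval_zero' G t z fun A _ _ φ k k' hk => hcG z hz t ht A φ k k' hk

end Pool.Agent.Lib.MP_666dc0_nt.IG
end

section

open MvPolynomial

namespace Pool.Agent.Lib.MP_666dc0_nt.IG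

theorem B2c_sum {σ : Type} (W : σ → ℕ) (p : MvPolynomial σ ℚ) :
    ∃ D : Finset ℕ, p = ∑ d ∈ D, weightedHomogeneousComponent W d p := by
  refine ⟨(weightedHomogeneousComponent_finsupp (w := W) p).toFinset, ?_⟩
  conv_lhs => rw [← sum_weightedHomogeneousComponent W p]
  exact finsum_eq_sum _ _

/-- B2c. The invariants are a finite module over `C'` modulo the ideal of `Z` (uses B1b.2, B2a.1, B2b).

PROOF. Let `P = MvPolynomial (s.Ix n) ℚ`, `c = vanishingIdeal ℚ Z`, `Inv` the invariants, `Inv₀` those of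
`w`-degree `0`, `C' = adjoin ℚ (S ∪ Inv₀)`. Let `q_1, ..., q_r` be the elements of positive degree
`e_i > 0` of the finite set `Q` of `hilbert_homogeneous`; the others are in `Inv₀`. Let `N` be the maximum
of the exponents of `inv_pow_mem` for the `q_i` (multiply by a power of `q_i` to have a common `N`):
`q_i ^ N ∈ ∑_{s ∈ T_i} s * h_i s + c`, `h_i s ∈ Inv`. Let `F` be the finite set of the monomials `q^a` with all
`a_i < N` (so `1 ∈ F`), and `M' = {p | ∃ c_f ∈ C', p - ∑_{f ∈ F} c_f f ∈ c}`; it is closed under addition and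
under multiplication by `C'`, and contains `c`. Claim (strong induction on `d`): every monomial `q^a` of
weight `d = ∑ a_i e_i` is in `M'`. If all `a_i < N` it is in `F`. Otherwise `q^a = q_i^N q^{a'}` and
`q^a = ∑_s s * (h_i s q^{a'}) + c₁`, `c₁ ∈ c`. Take the component of `w`-degree `d`
(`vanishing_comp` for `c₁`; `s` is homogeneous of degree `e_s > 0` by `hSw`):
`q^a = ∑_s s * g_s + c₂`, `g_s` the component of degree `d - e_s < d` of the invariant
`h_i s q^{a'}` (`0` if `e_s > d`), an invariant (`IsInv_comp`). An invariant `g` homogeneous of degree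
`e < d` is in `adjoin ℚ Q`, so it is a combination with coefficients in `Inv₀` of monomials `q^b`; taking
the component of degree `e` we may take all of weight `e < d` (the coefficients have degree
`0`), so `g ∈ M'` by induction, and `s g_s ∈ M'`. So all monomials `q^a` are in `M'`, hence
`Inv = adjoin ℚ Q ⊂ M'`. -/
theorem span_inv {n : ℕ} (G : Red n) (s : Shape) [s.Small] (w : s.β → ℕ) (K : Type)
    [Field K] [IsAlgClosed K] [CharZero K] (Z : Set (s.Ix n → K))
    (hG : ∀ t ∈ Z, ∀ k k' : Matrix (Fin n) (Fin n) K, G.In K k k' → act k k' t ∈ Z)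
    (hw : ∀ t ∈ Z, ∀ c : K, (fun x => c ^ w x.1 * t x) ∈ Z)
    (hcl : ∀ t : s.Ix n → K, (∀ p : MvPolynomial (s.Ix n) ℚ, (∀ t' ∈ Z, aeval t' p = 0) →
      aeval t p = 0) → t ∈ Z)
    (S : Set (MvPolynomial (s.Ix n) ℚ)) (hS : ∀ q ∈ S, IsInv G q)
    (hSw : ∀ q ∈ S, ∃ d : ℕ, 0 < d ∧ IsWeightedHomogeneous (fun x : s.Ix n => w x.1) q d)
    (hnull : ∀ t ∈ Z, (∀ q ∈ S, aeval t q = 0) → ∀ p : MvPolynomial (s.Ix n) ℚ, IsInv G p →
      aeval t p = aeval (kill (fun b => 0 < w b) t) p) :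
    ∃ F : Finset (MvPolynomial (s.Ix n) ℚ), 1 ∈ F ∧ (∀ f ∈ F, IsInv G f) ∧
      ∀ p : MvPolynomial (s.Ix n) ℚ, IsInv G p →
      ∃ c : MvPolynomial (s.Ix n) ℚ → MvPolynomial (s.Ix n) ℚ,
        (∀ f, c f ∈ Algebra.adjoin ℚ (S ∪ {q | IsInv G q ∧
          IsWeightedHomogeneous (fun x : s.Ix n => w x.1) q 0})) ∧
        p - ∑ f ∈ F, c f * f ∈ vanishingIdeal ℚ Z := by
  classical
  set W : s.Ix n → ℕ := fun x => w x.1 with hW
  obtain ⟨Q, hQ, hgen⟩ := hilbert_homogeneous G s w
  have hdg : ∀ q : MvPolynomial (s.Ix n) ℚ, ∃ d : ℕ, q ∈ Q → IsWeightedHomogeneous W q d := by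
    intro q
    by_cases h : q ∈ Q
    · obtain ⟨d, hd⟩ := (hQ q h).2
      exact ⟨d, fun _ => hd⟩
    · exact ⟨0, fun h' => absurd h' h⟩
  choose dg hdg using hdg
  have hNf : ∀ q : MvPolynomial (s.Ix n) ℚ, ∃ N : ℕ, 0 < N ∧ (q ∈ Q → 0 < dg q →
      ∃ (T : Finset (MvPolynomial (s.Ix n) ℚ))
        (h : MvPolynomial (s.Ix n) ℚ → MvPolynomial (s.Ix n) ℚ), (↑T : Set _) ⊆ S ∧
        (∀ q, IsInv G (h q)) ∧ q ^ N - ∑ r ∈ T, r * h r ∈ vanishingIdeal ℚ Z) := by
    intro q
    by_cases h : q ∈ Q ∧ 0 < dg q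
    · obtain ⟨N, hN, h2⟩ := inv_pow_mem G s w K Z hG hcl S hS hnull q (hQ q h.1).1 (dg q) h.2
        (hdg q h.1)
      exact ⟨N, hN, fun _ _ => h2⟩
    · exact ⟨1, one_pos, fun h1 h2 => absurd ⟨h1, h2⟩ h⟩
  choose Nf hNf0 hNf using hNf
  set C' : Subalgebra ℚ (MvPolynomial (s.Ix n) ℚ) := Algebra.adjoin ℚ (S ∪ {q | IsInv G q ∧
          IsWeightedHomogeneous (fun x : s.Ix n => w x.1) q 0}) with hC'
  set Fs : Set (MvPolynomial (s.Ix n) ℚ) := {m | ∃ b : MvPolynomial (s.Ix n) ℚ → ℕ,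
    (∀ q, b q < Nf q) ∧ m = ∏ q ∈ Q, q ^ (b q)} with hFs
  have hFfin : Fs.Finite := by
    apply (Set.finite_range (fun b : ((q : {q // q ∈ Q}) → Fin (Nf q)) =>
      ∏ q ∈ Q.attach, (q : MvPolynomial (s.Ix n) ℚ) ^ (b q : ℕ))).subset
    rintro _ ⟨b, hb, rfl⟩
    exact ⟨fun q => ⟨b q, hb q⟩, Finset.prod_attach Q (fun q => q ^ (b q))⟩
  have hinvprod : ∀ (b : MvPolynomial (s.Ix n) ℚ → ℕ) (R : Finset (MvPolynomial (s.Ix n) ℚ)),
      R ⊆ Q → IsInv G (∏ q ∈ R, q ^ (b q)) := by
    intro b R hR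
    exact (InvA G s).prod_mem fun q hq => (InvA G s).pow_mem (hQ q (hR hq)).1 _
  set M' : Submodule C' (MvPolynomial (s.Ix n) ℚ) :=
    Submodule.span C' Fs ⊔ (vanishingIdeal ℚ Z).restrictScalars C' with hM'
  have hcM : ∀ z ∈ vanishingIdeal ℚ Z, z ∈ M' := fun z hz => Submodule.mem_sup_right hz
  have hmulM : ∀ r ∈ C', ∀ y ∈ M', r * y ∈ M' := by
    intro r hr y hy
    exact M'.smul_mem (⟨r, hr⟩ : C') hy
  have main : ∀ d : ℕ, ∀ g : MvPolynomial (s.Ix n) ℚ, IsInv G g → IsWeightedHomogeneous W g d →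
      g ∈ M' := by
    intro d
    induction d using Nat.strong_induction_on with
    | _ d IH =>
    intro g hg hgd
    have hkey : ∀ m ∈ Submonoid.closure (Q : Set (MvPolynomial (s.Ix n) ℚ)),
        weightedHomogeneousComponent W d m ∈ M' := by
      intro m hm
      obtain ⟨f, -, rfl⟩ := Submonoid.mem_closure_finset.mp hm
      have hmd : IsWeightedHomogeneous W (∏ q ∈ Q, q ^ f q) (∑ q ∈ Q, f q • dg q) :=
        IsWeightedHomogeneous.prod Q _ _ fun q hq => (hdg q hq).pow _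
      by_cases he : d = ∑ q ∈ Q, f q • dg q
      swap
      · rw [hmd.weightedHomogeneousComponent_ne d he]
        exact M'.zero_mem
      by_cases hA : ∃ q ∈ Q, 0 < dg q ∧ Nf q ≤ f q
      · obtain ⟨q, hq, hq0, hqN⟩ := hA
        obtain ⟨T, h, hTS, hinv, hz⟩ := hNf q hq hq0
        set m' := q ^ (f q - Nf q) * ∏ r ∈ Q.erase q, r ^ f r with hm'
        have hm'inv : IsInv G m' := (InvA G s).mul_mem ((InvA G s).pow_mem (hQ q hq).1 _)
          (hinvprod f _ (Finset.erase_subset _ _))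
        have hmm : ∏ q ∈ Q, q ^ f q = q ^ Nf q * m' := by
          rw [hm', ← mul_assoc, ← pow_add, Nat.add_sub_cancel' hqN, Finset.mul_prod_erase Q
            (fun r => r ^ f r) hq]
        have hdec : ∏ q ∈ Q, q ^ f q = (q ^ Nf q - ∑ r ∈ T, r * h r) * m' +
            ∑ r ∈ T, r * (h r * m') := by
          rw [hmm, sub_mul, Finset.sum_mul]
          simp only [mul_assoc]
          ring
        rw [hdec, map_add, map_sum]
        apply M'.add_mem
        · apply hcM
          exact vanishing_comp w K Z hw _ (Ideal.mul_mem_right _ _ hz) d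
        · refine M'.sum_mem fun r hr => ?_
          obtain ⟨er, her, hrw⟩ := hSw r (hTS hr)
          have hH : IsInv G (h r * m') := (InvA G s).mul_mem (hinv r) hm'inv
          obtain ⟨D, hD⟩ := B2c_sum W (h r * m')
          rw [hD, Finset.mul_sum, map_sum]
          refine M'.sum_mem fun j _ => ?_
          have hj : IsWeightedHomogeneous W
              (r * weightedHomogeneousComponent W j (h r * m')) (er + j) :=
            hrw.mul (weightedHomogeneousComponent_isWeightedHomogeneous j _)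
          by_cases hdj : d = er + j
          · rw [hdj, hj.weightedHomogeneousComponent_same]
            apply hmulM
            · exact Algebra.subset_adjoin (Or.inl (hTS hr))
            · exact IH j (by omega) _ (IsInv_comp G w _ hH j)
                (weightedHomogeneousComponent_isWeightedHomogeneous j _)
          · rw [hj.weightedHomogeneousComponent_ne d hdj]
            exact M'.zero_mem
      · push Not at hA
        rw [he, hmd.weightedHomogeneousComponent_same]
        set b : MvPolynomial (s.Ix n) ℚ → ℕ := fun q => if q ∈ Q ∧ 0 < dg q then f q else 0 with hb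
        have hfb : ∏ q ∈ Q, q ^ f q = (∏ q ∈ Q, q ^ (f q - b q)) * ∏ q ∈ Q, q ^ b q := by
          rw [← Finset.prod_mul_distrib]
          refine Finset.prod_congr rfl fun q _ => ?_
          rw [← pow_add]
          congr 1
          have : b q ≤ f q := by
            simp only [hb]; split_ifs <;> omega
          omega
        rw [hfb]
        apply hmulM
        · refine C'.prod_mem fun q hq => ?_
          by_cases h0 : 0 < dg q
          · have : f q - b q = 0 := by simp [hb, hq, h0]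
            rw [this, pow_zero]
            exact C'.one_mem
          · apply C'.pow_mem
            apply Algebra.subset_adjoin
            right
            have h1 := hdg q hq
            rw [Nat.eq_zero_of_not_pos h0] at h1
            exact ⟨(hQ q hq).1, h1⟩
        · apply Submodule.mem_sup_left
          apply Submodule.subset_span
          refine ⟨b, fun q => ?_, rfl⟩
          simp only [hb]
          split_ifs with h1
          · exact hA q h1.1 h1.2
          · exact hNf0 q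
    have hga : g ∈ Submodule.span ℚ (Submonoid.closure (Q : Set (MvPolynomial (s.Ix n) ℚ)) :
        Set (MvPolynomial (s.Ix n) ℚ)) := by
      rw [← Algebra.adjoin_eq_span]
      exact hgen g hg
    have hspan : ∀ y ∈ Submodule.span ℚ (Submonoid.closure (Q : Set (MvPolynomial (s.Ix n) ℚ)) :
        Set (MvPolynomial (s.Ix n) ℚ)), weightedHomogeneousComponent W d y ∈ M' := by
      intro y hy
      induction hy using Submodule.span_induction with
      | mem m hm => exact hkey m hm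
      | zero => rw [map_zero]; exact M'.zero_mem
      | add a b _ _ ha hb => rw [map_add]; exact M'.add_mem ha hb
      | smul c a _ ha => rw [map_smul]; exact Submodule.smul_of_tower_mem M' c ha
    have := hspan g hga
    rwa [hgd.weightedHomogeneousComponent_same] at this
  refine ⟨hFfin.toFinset, ?_, ?_, ?_⟩
  · rw [Set.Finite.mem_toFinset]
    exact ⟨fun _ => 0, hNf0, by simp⟩
  · intro f hf
    rw [Set.Finite.mem_toFinset] at hf
    obtain ⟨b, -, rfl⟩ := hf
    exact hinvprod b Q subset_rfl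
  · intro p hp
    have hpM : p ∈ M' := by
      obtain ⟨D, hD⟩ := B2c_sum W p
      rw [hD]
      exact M'.sum_mem fun d _ => main d _ (IsInv_comp G w p hp d)
        (weightedHomogeneousComponent_isWeightedHomogeneous d _)
    obtain ⟨y, hy, z, hz, hyz⟩ := Submodule.mem_sup.mp hpM
    have hy' : y ∈ Submodule.span C' (hFfin.toFinset : Set (MvPolynomial (s.Ix n) ℚ)) := by
      rwa [Set.Finite.coe_toFinset]
    obtain ⟨c, -, hc⟩ := Submodule.mem_span_finset.mp hy'
    refine ⟨fun f => (c f : MvPolynomial (s.Ix n) ℚ), fun f => (c f).2, ?_⟩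
    have h1 : ∑ f ∈ hFfin.toFinset, (c f : MvPolynomial (s.Ix n) ℚ) * f = y := hc
    rw [h1, ← hyz, add_sub_cancel_left]
    exact hz

end Pool.Agent.Lib.MP_666dc0_nt.IG
end

section

set_option linter.unusedSectionVars false

open MvPolynomial

namespace Pool.Agent.Lib.MP_666dc0_nt.IG

variable {n : ℕ}

/-- invariants of pairs of matrices are functions of the tensors -/
private theorem E4b_inv (G : Red n) (TD : TensorData G) (q : MvPolynomial ((pairS n).Ix n) ℚ)
    (hq : IsInv G q) : ∃ f : MvPolynomial (TD.s.Ix n) ℚ, ∀ (A : Type) [CommRing A] [Algebra ℚ A]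
      (k k' : Matrix (Fin n) (Fin n) A), k * k' = 1 → k' * k = 1 →
      aeval (act k k' (inA A TD.T₀)) f = aeval (toPair k k') q := by
  obtain ⟨q', hq'⟩ := exists_of_pair q
  obtain ⟨f, hf⟩ := TD.gen Empty (rename Sum.inl q') (by
    intro A _ _ k k' g g' w h1 h2 hg
    rw [aeval_rename, aeval_rename, Sum.elim_comp_inl, Sum.elim_comp_inl, hq', hq',
      ← hq A g' g (G.in_symm A g g' hg) (toPair k k'), act_toPair])
  refine ⟨rename (Sum.elim id Empty.elim) f, ?_⟩
  intro A _ _ k k' h1 h2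
  have h3 := hf A k k' Empty.elim h1 h2
  rw [aeval_rename (τ := Sum _ _), Sum.elim_comp_inl, hq'] at h3
  rw [aeval_rename, ← h3]
  congr 2
  funext x
  rcases x with x | x
  · rfl
  · exact x.elim

section

variable {Ω : Type} [Field Ω] [Algebra ℚ Ω]

/-- left translation -/
private noncomputable def E4b_phi (h h' : Matrix (Fin n) (Fin n) Ω) :
    MvPolynomial (PV n) Ω →ₐ[Ω] MvPolynomial (PV n) Ω :=
  aeval (evp (mC h * gX n Ω) (gX' n Ω * mC h'))

private theorem E4b_eval_phi {B : Type} [CommRing B] [Algebra Ω B] (h h' : Matrix (Fin n) (Fin n) Ω)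
    (g g' : Matrix (Fin n) (Fin n) B) (p : MvPolynomial (PV n) Ω) :
    aeval (evp g g') (E4b_phi h h' p) =
      aeval (evp (h.map (algebraMap Ω B) * g) (g' * h'.map (algebraMap Ω B))) p := by
  have h1 : (aeval (evp g g') : MvPolynomial (PV n) Ω →ₐ[Ω] B).comp (E4b_phi h h') =
      aeval (evp (h.map (algebraMap Ω B) * g) (g' * h'.map (algebraMap Ω B))) := by
    apply MvPolynomial.algHom_ext
    rintro (⟨i, j⟩ | ⟨i, j⟩)
    · simp [E4b_phi, evp, Matrix.mul_apply, mC, gX]
    · simp [E4b_phi, evp, Matrix.mul_apply, mC, gX']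
  exact DFunLike.congr_fun h1 p

private theorem E4b_phi_phi {h h' : Matrix (Fin n) (Fin n) Ω} (h2 : h' * h = 1)
    (p : MvPolynomial (PV n) Ω) : E4b_phi h h' (E4b_phi h' h p) = p := by
  have h3 := E4b_eval_phi h' h (mC h * gX n Ω) (gX' n Ω * mC h') p
  have e1 : h'.map (algebraMap Ω (MvPolynomial (PV n) Ω)) * (mC h * gX n Ω) = gX n Ω := by
    have e2 : h'.map (algebraMap Ω (MvPolynomial (PV n) Ω)) * mC h = 1 := by
      have e3 : (mC h : Matrix (Fin n) (Fin n) (MvPolynomial (PV n) Ω)) =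
        h.map (algebraMap Ω (MvPolynomial (PV n) Ω)) := rfl
      rw [e3, ← Matrix.map_mul, h2, Matrix.map_one _ (map_zero _) (map_one _)]
    rw [← mul_assoc, e2, one_mul]
  have e2 : gX' n Ω * mC h' * h.map (algebraMap Ω (MvPolynomial (PV n) Ω)) = gX' n Ω := by
    have e2 : mC h' * h.map (algebraMap Ω (MvPolynomial (PV n) Ω)) = 1 := by
      have e3 : (mC h' : Matrix (Fin n) (Fin n) (MvPolynomial (PV n) Ω)) =
        h'.map (algebraMap Ω (MvPolynomial (PV n) Ω)) := rfl
      rw [e3, ← Matrix.map_mul, h2, Matrix.map_one _ (map_zero _) (map_one _)]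
    rw [mul_assoc, e2, mul_one]
  rw [e1, e2] at h3
  have e4 : evp (gX n Ω) (gX' n Ω) = fun x => X x := by
    funext x
    rcases x with ⟨i, j⟩ | ⟨i, j⟩ <;> rfl
  rw [e4] at h3
  refine h3.trans ?_
  exact aeval_X_left_apply p

/-- the ideal of the group -/
private noncomputable def E4b_J (G : Red n) (Ω : Type) [Field Ω] [Algebra ℚ Ω] :
    Ideal (MvPolynomial (PV n) Ω) := G.J.map (MvPolynomial.map (algebraMap ℚ Ω))

private theorem E4b_aeval_map {σ B : Type} [CommRing B] [Algebra ℚ B] [Algebra Ω B]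
    (x : σ → B) (p : MvPolynomial σ ℚ) :
    aeval x (MvPolynomial.map (algebraMap ℚ Ω) p) = aeval x p := by
  have hQA : (algebraMap Ω B).comp (algebraMap ℚ Ω) = algebraMap ℚ B := Subsingleton.elim _ _
  rw [aeval_def, eval₂_map, hQA, ← aeval_def]

private theorem E4b_J_zero (G : Red n) {B : Type} [CommRing B] [Algebra ℚ B] [Algebra Ω B]
    {k k' : Matrix (Fin n) (Fin n) B} (hk : G.In B k k') {p : MvPolynomial (PV n) Ω}
    (hp : p ∈ E4b_J G Ω) : aeval (evp k k') p = 0 := by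
  have h1 : E4b_J G Ω ≤ RingHom.ker (aeval (evp k k') : MvPolynomial (PV n) Ω →ₐ[Ω] B) := by
    unfold E4b_J
    rw [Ideal.map_le_iff_le_comap]
    intro q hq
    rw [Ideal.mem_comap, RingHom.mem_ker]
    exact (E4b_aeval_map (evp k k') q).trans (hk q hq)
  exact h1 hp

private def E4b_i1 (i j : Fin n) : (pairS n).Ix n :=
  ⟨false, i, (fun a : Fin 0 => a.elim0 : Fin 0 → Fin n), (fun _ => j : Fin 1 → Fin n)⟩

private def E4b_i2 (i j : Fin n) : (pairS n).Ix n :=
  ⟨true, j, (fun _ => i : Fin 1 → Fin n), (fun a : Fin 0 => a.elim0 : Fin 0 → Fin n)⟩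

/-- change of notation -/
private noncomputable def E4b_rho : MvPolynomial (PV n) Ω →ₐ[Ω] MvPolynomial ((pairS n).Ix n) Ω :=
  aeval (Sum.elim
    (fun ij => X (E4b_i1 ij.1 ij.2)) (fun ij => X (E4b_i2 ij.1 ij.2)))

private theorem E4b_eval_rho {B : Type} [CommRing B] [Algebra Ω B]
    (Y Y' : Matrix (Fin n) (Fin n) B) (p : MvPolynomial (PV n) Ω) :
    aeval (toPair Y Y') (E4b_rho p) = aeval (evp Y Y') p := by
  have h1 : (aeval (toPair Y Y') : MvPolynomial ((pairS n).Ix n) Ω →ₐ[Ω] B).comp E4b_rho =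
      aeval (evp Y Y') := by
    apply MvPolynomial.algHom_ext
    rintro (⟨i, j⟩ | ⟨i, j⟩)
    · simp only [E4b_rho, evp, AlgHom.comp_apply, aeval_X, Sum.elim_inl]
      rfl
    · simp only [E4b_rho, evp, AlgHom.comp_apply, aeval_X, Sum.elim_inr]
      rfl
  exact DFunLike.congr_fun h1 p

private theorem E4b_toPair_map {B : Type} [CommRing B] [Algebra Ω B] (f : Ω →ₐ[Ω] B)
    (Y Y' : Matrix (Fin n) (Fin n) Ω) :
    (fun x => f (toPair Y Y' x)) =
      toPair (Y.map (algebraMap Ω B)) (Y'.map (algebraMap Ω B)) := by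
  funext x
  obtain ⟨b, c, I, J⟩ := x
  cases b
  · exact f.commutes _
  · exact f.commutes _

end

/-- E4. The stabiliser of `T₀` in `GL_n` is `G` (points over an algebraically closed field).
Suppose `(h, h')` is an inverse pair with `act h h' T₀ = T₀` and not in `G`. In `Ω[X,X']` consider the ideal
`J₁` generated by `G.J` and the ideal `J₂ = {p | p(h X, X' h') ∈ J₁}`. A common zero `(g, g') ∈ G(Ω)`
satisfies `(h' g, g' h) ∈ G(Ω)` (for `p ∈ G.J` the polynomial `p(h' X, X' h)` is in `J₂`), hence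
`(h, h') ∈ G(Ω)` by `in_mul`, `in_symm`. So there is none, and by the Nullstellensatz `1 = p₁ + p₂`,
`p₂ ∈ J₂`. Let `q := Rey_G p₂` for the action by `(X g', g X')` (shape `pairS n`): `q(1, 1) = 1 - 0 = 1` and
`q(h, h') = 0`; `q` is an `Ω`-combination of rational right invariant polynomials (`Rey_mem_span`), i.e. of
polynomials in `act X X' T₀` (`gen` with `υ = Empty`), which take the same value at `(1,1)` and `(h,h')`. -/
theorem stabiliser (G : Red n) (TD : TensorData G) {Ω : Type} [Field Ω] [IsAlgClosed Ω]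
    [Algebra ℚ Ω] (h h' : Matrix (Fin n) (Fin n) Ω) (h1 : h * h' = 1) (h2 : h' * h = 1)
    (hT : act h h' (inA Ω TD.T₀) = inA Ω TD.T₀) : G.In Ω h h' := by
  by_contra hcon
  have htop : E4b_J G Ω ⊔ (E4b_J G Ω).comap (E4b_phi h h') = ⊤ := by
    by_contra hne
    obtain ⟨M, hM, hle⟩ := Ideal.exists_le_maximal _ hne
    obtain ⟨x, rfl⟩ := MvPolynomial.eq_vanishingIdeal_singleton_of_isMaximal Ω hM
    set g : Matrix (Fin n) (Fin n) Ω := Matrix.of fun i j => x (Sum.inl (i, j)) with hg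
    set g' : Matrix (Fin n) (Fin n) Ω := Matrix.of fun i j => x (Sum.inr (i, j)) with hg'
    have hx : evp g g' = x := by
      funext y
      rcases y with ⟨i, j⟩ | ⟨i, j⟩ <;> rfl
    have hz : ∀ p ∈ E4b_J G Ω ⊔ (E4b_J G Ω).comap (E4b_phi h h'), aeval (evp g g') p = 0 := by
      intro p hp
      rw [hx]
      exact (mem_vanishingIdeal_singleton_iff x p).mp (hle hp)
    have hJ : ∀ p ∈ G.J, MvPolynomial.map (algebraMap ℚ Ω) p ∈ E4b_J G Ω := fun p hp =>
      Ideal.mem_map_of_mem _ hp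
    have i1 : G.In Ω g g' := by
      intro p hp
      rw [← E4b_aeval_map (Ω := Ω)]
      exact hz _ (Ideal.mem_sup_left (hJ p hp))
    have i2 : G.In Ω (h' * g) (g' * h) := by
      intro p hp
      have h3 : E4b_phi h' h (MvPolynomial.map (algebraMap ℚ Ω) p) ∈
          (E4b_J G Ω).comap (E4b_phi h h') := by
        rw [Ideal.mem_comap, E4b_phi_phi h2]
        exact hJ p hp
      have h4 := hz _ (Ideal.mem_sup_right h3)
      rw [E4b_eval_phi, E4b_aeval_map] at h4
      exact h4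
    have i3 := G.in_mul Ω _ _ _ _ i1 (G.in_symm Ω _ _ i2)
    have hgg := (G.in_inv Ω g g' i1).1
    rw [← mul_assoc, hgg, one_mul, mul_assoc, hgg, mul_one] at i3
    exact hcon i3
  obtain ⟨p₁, hp₁, p₂, hp₂, hsum⟩ := Submodule.mem_sup.mp
    ((Ideal.eq_top_iff_one _).mp htop)
  set q := Rey G (E4b_rho p₂ : MvPolynomial ((pairS n).Ix n) Ω) with hqdef
  have q1 : aeval (toPair 1 1 : (pairS n).Ix n → Ω) q = 1 := by
    have h3 := aeval_Rey_eq_const (A := Ω) (B := Ω) G (E4b_rho p₂) (toPair 1 1) 1 (by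
      intro B' _ _ _ f k k' hk
      rw [E4b_toPair_map, act_toPair, E4b_eval_rho]
      have e1 : (1 : Matrix (Fin n) (Fin n) Ω).map (algebraMap Ω B') = 1 :=
        Matrix.map_one _ (map_zero _) (map_one _)
      rw [e1, one_mul, mul_one, map_one]
      have h4 : p₂ = 1 - p₁ := eq_sub_of_add_eq' hsum
      rw [h4, map_sub, map_one, E4b_J_zero G (G.in_symm B' k k' hk) hp₁, sub_zero])
    rw [map_one] at h3
    exact h3
  have q2 : aeval (toPair h h') q = 0 := by
    refine aeval_Rey_eq_zero (A := Ω) (B := Ω) G (E4b_rho p₂) (toPair h h') ?_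
    intro B' _ _ _ f k k' hk
    rw [E4b_toPair_map, act_toPair, E4b_eval_rho, ← E4b_eval_phi]
    exact E4b_J_zero G (G.in_symm B' k k' hk) (Ideal.mem_comap.mp hp₂)
  have hspan : ∀ r ∈ Submodule.span Ω {q : MvPolynomial ((pairS n).Ix n) Ω |
      ∃ q₀ : MvPolynomial ((pairS n).Ix n) ℚ, IsInv G q₀ ∧
      q = MvPolynomial.map (algebraMap ℚ Ω) q₀},
      aeval (toPair 1 1 : (pairS n).Ix n → Ω) r = aeval (toPair h h') r := by
    intro r hr
    induction hr using Submodule.span_induction with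
    | mem r hr =>
      obtain ⟨q₀, hq₀, rfl⟩ := hr
      obtain ⟨f, hf⟩ := E4b_inv G TD q₀ hq₀
      rw [E4b_aeval_map, E4b_aeval_map, ← hf Ω 1 1 (one_mul _) (one_mul _), ← hf Ω h h' h1 h2,
        act_one, hT]
    | zero => rw [map_zero, map_zero]
    | add a b _ _ ha hb => rw [map_add, map_add, ha, hb]
    | smul c a _ ha => rw [map_smul, map_smul, ha]
  have h3 := hspan q (Rey_mem_span G _)
  rw [q1, q2] at h3
  exact one_ne_zero h3

end Pool.Agent.Lib.MP_666dc0_nt.IG
end

section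

open MvPolynomial

namespace Pool.Agent.Lib.MP_666dc0_nt.IG

variable {n : ℕ}

/-- The action commutes with ring homomorphisms. -/
private theorem E4c_act_map {s : Shape} {A B : Type} [CommRing A] [CommRing B] (f : A →+* B)
    (k k' : Matrix (Fin n) (Fin n) A) (t : s.Ix n → A) (x : s.Ix n) :
    f (act k k' t x) = act (k.map f) (k'.map f) (fun y => f (t y)) x := by
  simp only [act, map_sum, map_mul, map_prod, Matrix.map_apply]

/-- The same over an arbitrary field (pass to the algebraic closure, the conditions are polynomial). -/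
theorem stabiliser' (G : Red n) (TD : TensorData G) {Ω : Type} [Field Ω]
    [Algebra ℚ Ω] (h h' : Matrix (Fin n) (Fin n) Ω) (h1 : h * h' = 1) (h2 : h' * h = 1)
    (hT : act h h' (inA Ω TD.T₀) = inA Ω TD.T₀) : G.In Ω h h' := by
  obtain ⟨f, hf⟩ : ∃ f : Ω →+* AlgebraicClosure Ω, f = algebraMap Ω (AlgebraicClosure Ω) :=
    ⟨_, rfl⟩
  have hfT : (fun x => f (inA Ω TD.T₀ x)) = inA (AlgebraicClosure Ω) TD.T₀ := by
    funext x
    simp only [inA, hf]
    exact (IsScalarTower.algebraMap_apply ℚ Ω (AlgebraicClosure Ω) _).symm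
  have hm1 : h.map f * h'.map f = 1 := by
    rw [← Matrix.map_mul, h1, Matrix.map_one f (map_zero f) (map_one f)]
  have hm2 : h'.map f * h.map f = 1 := by
    rw [← Matrix.map_mul, h2, Matrix.map_one f (map_zero f) (map_one f)]
  have hact : act (h.map f) (h'.map f) (inA (AlgebraicClosure Ω) TD.T₀) =
      inA (AlgebraicClosure Ω) TD.T₀ := by
    funext x
    have e1 := E4c_act_map f h h' (inA Ω TD.T₀) x
    rw [hfT, hT] at e1
    rw [← e1]
    exact congrFun hfT x
  have key := stabiliser G TD (h.map f) (h'.map f) hm1 hm2 hact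
  intro p hp
  have e2 := key p hp
  have e3 : evp (h.map f) (h'.map f) = algebraMap Ω (AlgebraicClosure Ω) ∘ evp h h' := by
    funext x
    rcases x with x | x <;> simp [evp, hf]
  rw [e3, MvPolynomial.aeval_algebraMap_apply] at e2
  exact (map_eq_zero_iff _ (algebraMap Ω (AlgebraicClosure Ω)).injective).mp e2

end Pool.Agent.Lib.MP_666dc0_nt.IG
end
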