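import Mathlib
import Pool.Agent.Lib.MP_666dc0_nt.IG.Defs2
import Pool.Agent.Lib.MP_666dc0_nt.Mg.G013
import Pool.Agent.Lib.MP_666dc0_nt.Mg.G021
import Pool.Agent.Lib.MP_666dc0_nt.Mg.G033

section

open MvPolynomial

namespace Pool.Agent.Lib.MP_666dc0_nt.IG

variable {n : ℕ} {s : Shape}

/-- `TICond` is given by rational polynomial equations. -/
theorem ticond_closed [s.Small] {K : Type} [Field K] [Algebra ℚ K] {M : Type} [Fintype M]
    (D : M → (b : s.β) → s.C b → s.C b → ℚ) (t : (tot (M ⊕ M) s).Ix n → K)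
    (ht : ∀ p : MvPolynomial ((tot (M ⊕ M) s).Ix n) ℚ,
      (∀ (v : M ⊕ M → Matrix (Fin n) (Fin n) K) (T : s.Ix n → K), TICond s D v T →
        aeval (toTot v T) p = 0) → aeval t p = 0) :
    ∃ (v : M ⊕ M → Matrix (Fin n) (Fin n) K) (T : s.Ix n → K), TICond s D v T ∧ t = toTot v T := by
  obtain ⟨v, T, rfl⟩ := exists_toTot t
  -- the generic point
  obtain ⟨G, 𝒯, hG⟩ := exists_toTot (M := M ⊕ M) (s := s)
    (fun x => (X x : MvPolynomial ((tot (M ⊕ M) s).Ix n) ℚ))
  have hev : ∀ (v : M ⊕ M → Matrix (Fin n) (Fin n) K) (T : s.Ix n → K),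
      (∀ m, (G m).map (aeval (toTot v T) : MvPolynomial ((tot (M ⊕ M) s).Ix n) ℚ →ₐ[ℚ] K) =
        v m) ∧ ∀ x, aeval (toTot v T) (𝒯 x) = T x := by
    intro v T
    have h1 := map_toTot ((aeval (toTot v T) : MvPolynomial ((tot (M ⊕ M) s).Ix n) ℚ →ₐ[ℚ] K) :
      MvPolynomial ((tot (M ⊕ M) s).Ix n) ℚ →+* K) G 𝒯
    rw [← hG] at h1
    have h2 : (fun x => ((aeval (toTot v T) :
        MvPolynomial ((tot (M ⊕ M) s).Ix n) ℚ →ₐ[ℚ] K) :
        MvPolynomial ((tot (M ⊕ M) s).Ix n) ℚ →+* K) (X x)) = toTot v T := by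
      funext x
      exact aeval_X _ _
    rw [h2] at h1
    obtain ⟨h3, h4⟩ := toTot_inj h1
    exact ⟨fun m => (congrFun h3 m).symm, fun x => (congrFun h4 x).symm⟩
  have hmul : ∀ (a b : M ⊕ M), (∀ (v : M ⊕ M → Matrix (Fin n) (Fin n) K) (T : s.Ix n → K),
      TICond s D v T → v a * v b = 1) → v a * v b = 1 := by
    intro a b hab
    have h1 : ∀ (v : M ⊕ M → Matrix (Fin n) (Fin n) K) (T : s.Ix n → K) (i j : Fin n),
        aeval (toTot v T) ((G a * G b - 1) i j) = (v a * v b - 1) i j := by
      intro v T i j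
      obtain ⟨h2, -⟩ := hev v T
      have h3 : (G a * G b - 1).map (aeval (toTot v T) :
          MvPolynomial ((tot (M ⊕ M) s).Ix n) ℚ →ₐ[ℚ] K) = v a * v b - 1 := by
        rw [Matrix.map_sub _ (fun x y => map_sub _ x y), Matrix.map_mul, h2, h2,
          Matrix.map_one _ (map_zero _) (map_one _)]
      exact congrFun (congrFun h3 i) j
    ext i j
    have h4 := ht ((G a * G b - 1) i j) (fun v T hc => by
      rw [h1, hab v T hc, sub_self]
      rfl)
    rw [h1, Matrix.sub_apply, sub_eq_zero] at h4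
    exact h4
  refine ⟨v, T, fun m => ⟨hmul _ _ fun v T hc => (hc m).1, hmul _ _ fun v T hc => (hc m).2.1, ?_⟩,
    rfl⟩
  have h1 : ∀ (v : M ⊕ M → Matrix (Fin n) (Fin n) K) (T : s.Ix n → K) (x : s.Ix n),
      aeval (toTot v T) (act (G (Sum.inl m)) (G (Sum.inr m)) 𝒯 x -
        mix (fun b c c' => algebraMap ℚ _ (D m b c c')) 𝒯 x) =
      act (v (Sum.inl m)) (v (Sum.inr m)) T x -
        mix (fun b c c' => algebraMap ℚ K (D m b c c')) T x := by
    intro v T x
    obtain ⟨h2, h3⟩ := hev v T
    have h4 := map_act ((aeval (toTot v T) : MvPolynomial ((tot (M ⊕ M) s).Ix n) ℚ →ₐ[ℚ] K) :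
      MvPolynomial ((tot (M ⊕ M) s).Ix n) ℚ →+* K) (G (Sum.inl m)) (G (Sum.inr m)) 𝒯 x
    rw [map_sub]
    refine congrArg₂ (· - ·) (h4.trans ?_) ?_
    · have e1 : (G (Sum.inl m)).map ((aeval (toTot v T) :
          MvPolynomial ((tot (M ⊕ M) s).Ix n) ℚ →ₐ[ℚ] K) :
          MvPolynomial ((tot (M ⊕ M) s).Ix n) ℚ →+* K) = v (Sum.inl m) := h2 _
      have e2 : (G (Sum.inr m)).map ((aeval (toTot v T) :
          MvPolynomial ((tot (M ⊕ M) s).Ix n) ℚ →ₐ[ℚ] K) :
          MvPolynomial ((tot (M ⊕ M) s).Ix n) ℚ →+* K) = v (Sum.inr m) := h2 _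
      have e3 : (fun y => ((aeval (toTot v T) :
          MvPolynomial ((tot (M ⊕ M) s).Ix n) ℚ →ₐ[ℚ] K) :
          MvPolynomial ((tot (M ⊕ M) s).Ix n) ℚ →+* K) (𝒯 y)) = T := funext h3
      rw [e1, e2, e3]
    · simp only [mix, map_sum, map_mul, AlgHom.commutes]
      exact Finset.sum_congr rfl fun c' _ => congrArg (algebraMap ℚ K _ * ·) (h3 _)
  funext x
  have h5 := ht (act (G (Sum.inl m)) (G (Sum.inr m)) 𝒯 x -
        mix (fun b c c' => algebraMap ℚ _ (D m b c c')) 𝒯 x) (fun v T hc => by
    rw [h1, (hc m).2.2, sub_self])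
  rw [h1 v T x, sub_eq_zero] at h5
  exact h5

end Pool.Agent.Lib.MP_666dc0_nt.IG
end

section

namespace Pool.Agent.Lib.MP_666dc0_nt.IG

/-- an invertible matrix with prescribed first column -/
theorem BT3_exists_col {K : Type} [Field K] {n : ℕ} (v : Fin (n + 1) → K) (hv : v ≠ 0) :
    ∃ p p' : Matrix (Fin (n + 1)) (Fin (n + 1)) K, p * p' = 1 ∧ p' * p = 1 ∧
      ∀ i, p i 0 = v i := by
  obtain ⟨i, hi⟩ := Function.ne_iff.mp hv
  rw [Pi.zero_apply] at hi
  let s : Equiv.Perm (Fin (n + 1)) := Equiv.swap 0 i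
  let q : Matrix (Fin (n + 1)) (Fin (n + 1)) K :=
    (1 : Matrix (Fin (n + 1)) (Fin (n + 1)) K).updateCol 0 (fun j => v (s j))
  have hq : q.det = v i := by
    change (Matrix.updateCol 1 0 (fun j => v (s j))).det = v i
    rw [← Matrix.cramer_apply, Matrix.cramer_one]
    change v (s 0) = v i
    simp [s]
  let p := q.submatrix s id
  have hp : p.det ≠ 0 := by
    change (q.submatrix s id).det ≠ 0
    rw [Matrix.det_permute, hq]
    apply mul_ne_zero _ hi
    rcases Int.units_eq_one_or (Equiv.Perm.sign s) with h | h <;> rw [h] <;> simp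
  refine ⟨p, p⁻¹, Matrix.mul_nonsing_inv p (isUnit_iff_ne_zero.mpr hp),
    Matrix.nonsing_inv_mul p (isUnit_iff_ne_zero.mpr hp), fun j => ?_⟩
  change q (s j) 0 = v j
  change (Matrix.updateCol 1 0 (fun j => v (s j))) (s j) 0 = v j
  rw [Matrix.updateCol_self]
  simp [s]

/-- the block matrix `diag(1, h)` -/
def BT3_B {K : Type} [Field K] {n : ℕ} (h : Matrix (Fin n) (Fin n) K) :
    Matrix (Fin (n + 1)) (Fin (n + 1)) K :=
  Matrix.of fun i j => Fin.cases (Fin.cases 1 (fun _ => 0) j)
    (fun i' => Fin.cases 0 (fun j' => h i' j') j) i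

theorem BT3_B00 {K : Type} [Field K] {n : ℕ} (h : Matrix (Fin n) (Fin n) K) :
    BT3_B h 0 0 = 1 := rfl

theorem BT3_B0s {K : Type} [Field K] {n : ℕ} (h : Matrix (Fin n) (Fin n) K) (j : Fin n) :
    BT3_B h 0 j.succ = 0 := rfl

theorem BT3_Bs0 {K : Type} [Field K] {n : ℕ} (h : Matrix (Fin n) (Fin n) K) (j : Fin n) :
    BT3_B h j.succ 0 = 0 := rfl

theorem BT3_Bss {K : Type} [Field K] {n : ℕ} (h : Matrix (Fin n) (Fin n) K) (i j : Fin n) :
    BT3_B h i.succ j.succ = h i j := rfl

theorem BT3_B_one {K : Type} [Field K] {n : ℕ} : BT3_B (1 : Matrix (Fin n) (Fin n) K) = 1 := by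
  ext i j
  refine Fin.cases ?_ (fun i' => ?_) i <;> refine Fin.cases ?_ (fun j' => ?_) j
  · rw [BT3_B00, Matrix.one_apply_eq]
  · rw [BT3_B0s, Matrix.one_apply_ne (Fin.succ_ne_zero j').symm]
  · rw [BT3_Bs0, Matrix.one_apply_ne (Fin.succ_ne_zero i')]
  · rw [BT3_Bss, Matrix.one_apply, Matrix.one_apply]
    simp [Fin.succ_inj]

theorem BT3_B_mul {K : Type} [Field K] {n : ℕ} (g h : Matrix (Fin n) (Fin n) K) :
    BT3_B g * BT3_B h = BT3_B (g * h) := by
  ext i j
  rw [Matrix.mul_apply, Fin.sum_univ_succ]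
  refine Fin.cases ?_ (fun i' => ?_) i <;> refine Fin.cases ?_ (fun j' => ?_) j
  · simp [BT3_B00, BT3_B0s, BT3_Bs0, BT3_Bss]
  · simp [BT3_B00, BT3_B0s, BT3_Bs0, BT3_Bss]
  · simp [BT3_B00, BT3_B0s, BT3_Bs0, BT3_Bss]
  · simp [BT3_B0s, BT3_Bs0, BT3_Bss, Matrix.mul_apply]

/-- BT3. Simultaneous strict trigonalisation.

PROOF. Induction on `n`; `n = 0` trivial. For `n + 1`: `nilpotent_span` and `common_kernel` give `v ≠ 0` with
`x m v = 0` for all `m`. Choose an invertible matrix `p` with first column `v` (extend `v` to a basis;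
or: `v i ≠ 0` for some `i`, an explicit matrix), `p' = p⁻¹`. `z m = p' * x m * p` has first column `0`.
Let `y m` be the lower right `n × n` block (`Matrix.submatrix Fin.succ Fin.succ`). Since the first column of each `z m`
is zero, the lower right block of a word in the `z m` is the word in the `y m`, its first
diagonal entry is `0` (non-empty word), so `trace (word in y) = trace (word in z) = trace (word in x) = 0`
(`z`-word `= p' * (x`-word`) * p`; `Matrix.trace_mul_comm`). By induction `g₂ y m g₂'` is strictly upper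
triangular; `g = diag(1, g₂) * p'`, `g' = p * diag(1, g₂')`: `g x m g'` has first column `0` and lower right block
`g₂ y m g₂'`. -/
theorem strict_upper_of_traces {K : Type} [Field K] [CharZero K] {n : ℕ} {M : Type}
    (x : M → Matrix (Fin n) (Fin n) K) (h : ∀ l : List M, l ≠ [] → (l.map x).prod.trace = 0) :
    ∃ g g' : Matrix (Fin n) (Fin n) K, g * g' = 1 ∧ g' * g = 1 ∧
      ∀ (m : M) (a b : Fin n), (g * x m * g') a b ≠ 0 → a < b := by
  induction n with
  | zero => exact ⟨1, 1, one_mul _, one_mul _, fun _ a => a.elim0⟩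
  | succ n ih =>
    obtain ⟨v, hv, hxv⟩ := common_kernel x (nilpotent_span x h)
    obtain ⟨p, p', hpp', hp'p, hpv⟩ := BT3_exists_col v hv
    set z : M → Matrix (Fin (n + 1)) (Fin (n + 1)) K := fun m => p' * x m * p with hz
    have hz0 : ∀ m i, z m i 0 = 0 := by
      intro m i
      have h1 : z m i 0 = ((p' * x m).mulVec v) i := by
        change (p' * x m * p) i 0 = _
        rw [Matrix.mul_apply]
        change _ = ∑ k, (p' * x m) i k * v k
        exact Finset.sum_congr rfl fun k _ => by rw [hpv]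
      rw [h1, ← Matrix.mulVec_mulVec, hxv, Matrix.mulVec_zero, Pi.zero_apply]
    set y : M → Matrix (Fin n) (Fin n) K := fun m => (z m).submatrix Fin.succ Fin.succ with hy
    have hsub : ∀ (m : M) (w : Matrix (Fin (n + 1)) (Fin (n + 1)) K),
        (z m * w).submatrix Fin.succ Fin.succ = y m * w.submatrix Fin.succ Fin.succ := by
      intro m w
      ext i j
      rw [Matrix.submatrix_apply, Matrix.mul_apply, Fin.sum_univ_succ, hz0, zero_mul, zero_add,
        Matrix.mul_apply]
      rfl
    have hword : ∀ l : List M, ((l.map z).prod).submatrix Fin.succ Fin.succ = (l.map y).prod := by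
      intro l
      induction l with
      | nil =>
        ext i j
        simp [Matrix.one_apply, Fin.succ_inj]
      | cons a l ih => rw [List.map_cons, List.prod_cons, hsub, ih, List.map_cons, List.prod_cons]
    have hcol : ∀ l : List M, l ≠ [] → ∀ i, ((l.map z).prod) i 0 = 0 := by
      intro l
      induction l with
      | nil => intro hl; exact absurd rfl hl
      | cons a l ih =>
        intro _ i
        rw [List.map_cons, List.prod_cons]
        by_cases hl : l = []
        · subst hl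
          rw [List.map_nil, List.prod_nil, mul_one]
          exact hz0 a i
        · rw [Matrix.mul_apply]
          exact Finset.sum_eq_zero fun k _ => by rw [ih hl k, mul_zero]
    have hconj : ∀ l : List M, (l.map z).prod = p' * (l.map x).prod * p := by
      intro l
      induction l with
      | nil => rw [List.map_nil, List.prod_nil, List.map_nil, List.prod_nil, mul_one, hp'p]
      | cons a l ih =>
        rw [List.map_cons, List.prod_cons, ih, List.map_cons, List.prod_cons]
        change p' * x a * p * (p' * (List.map x l).prod * p) = _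
        calc p' * x a * p * (p' * (List.map x l).prod * p)
            = p' * x a * (p * p') * (List.map x l).prod * p := by simp only [mul_assoc]
          _ = _ := by rw [hpp', mul_one]; simp only [mul_assoc]
    have htr : ∀ l : List M, l ≠ [] → (l.map y).prod.trace = 0 := by
      intro l hl
      have h1 : ((l.map z).prod).trace = 0 := by
        rw [hconj, Matrix.trace_mul_comm, ← mul_assoc, hpp', one_mul]
        exact h l hl
      rw [Matrix.trace, Fin.sum_univ_succ, Matrix.diag_apply, hcol l hl, zero_add] at h1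
      rw [← hword, Matrix.trace]
      exact h1
    obtain ⟨g₂, g₂', hg1, hg2, hg⟩ := ih y htr
    refine ⟨BT3_B g₂ * p', p * BT3_B g₂', ?_, ?_, ?_⟩
    · calc BT3_B g₂ * p' * (p * BT3_B g₂') = BT3_B g₂ * (p' * p) * BT3_B g₂' := by
            simp only [mul_assoc]
        _ = 1 := by rw [hp'p, mul_one, BT3_B_mul, hg1, BT3_B_one]
    · calc p * BT3_B g₂' * (BT3_B g₂ * p') = p * (BT3_B g₂' * BT3_B g₂) * p' := by
            simp only [mul_assoc]
        _ = 1 := by rw [BT3_B_mul, hg2, BT3_B_one, mul_one, hpp']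
    · intro m a b
      have h1 : BT3_B g₂ * p' * x m * (p * BT3_B g₂') = BT3_B g₂ * z m * BT3_B g₂' := by
        change _ = BT3_B g₂ * (p' * x m * p) * BT3_B g₂'
        simp only [mul_assoc]
      rw [h1]
      have h0 : ∀ i, (BT3_B g₂ * z m) i 0 = 0 := by
        intro i
        rw [Matrix.mul_apply]
        exact Finset.sum_eq_zero fun k _ => by rw [hz0, mul_zero]
      refine Fin.cases ?_ (fun b' => ?_) b
      · intro hne
        exfalso
        apply hne
        rw [Matrix.mul_apply, Fin.sum_univ_succ, h0, zero_mul, zero_add]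
        exact Finset.sum_eq_zero fun k _ => by rw [BT3_Bs0, mul_zero]
      · refine Fin.cases ?_ (fun a' => ?_) a
        · intro _; exact Fin.succ_pos b'
        · intro hne
          apply Fin.succ_lt_succ_iff.mpr
          apply hg m
          have h2 : (BT3_B g₂ * z m * BT3_B g₂') a'.succ b'.succ = (g₂ * y m * g₂') a' b' := by
            rw [Matrix.mul_apply, Fin.sum_univ_succ, BT3_B0s, mul_zero, zero_add, Matrix.mul_apply]
            refine Finset.sum_congr rfl fun k _ => ?_
            rw [BT3_Bss, Matrix.mul_apply, Fin.sum_univ_succ, BT3_Bs0, zero_mul, zero_add,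
              Matrix.mul_apply]
            rfl
          rw [h2] at hne
          exact hne

end Pool.Agent.Lib.MP_666dc0_nt.IG
end

section

open MvPolynomial

namespace Pool.Agent.Lib.MP_666dc0_nt.IG

variable {n : ℕ} {s : Shape}

/-- Nilpotent algebras: if all traces of non-empty words vanish, the matrices are simultaneously
strictly lower triangular after conjugation. -/
theorem strictly_triangular {K : Type} [Field K] [CharZero K] {M : Type}
    (x : M → Matrix (Fin n) (Fin n) K) (h : ∀ l : List M, l ≠ [] → (wordProd x l).trace = 0) :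
    ∃ g g' : Matrix (Fin n) (Fin n) K, g * g' = 1 ∧ g' * g = 1 ∧
      ∀ m a b, (g * x m * g') a b ≠ 0 → b < a := by
  obtain ⟨g, g', h1, h2, h3⟩ := strict_upper_of_traces x h
  refine ⟨g.submatrix Fin.rev id, g'.submatrix id Fin.rev, ?_, ?_, ?_⟩
  · rw [Matrix.submatrix_mul _ _ _ _ _ Function.bijective_id |>.symm, h1]
    exact Matrix.submatrix_one _ Fin.rev_injective
  · rw [Matrix.submatrix_mul g' g id Fin.rev id Fin.rev_involutive.bijective |>.symm, h2,
      Matrix.submatrix_id_id]
  · intro m a b hab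
    have h4 : g.submatrix Fin.rev id * x m * g'.submatrix id Fin.rev =
        (g * x m * g').submatrix Fin.rev Fin.rev := by
      rw [Matrix.submatrix_mul (g * x m) g' Fin.rev id Fin.rev Function.bijective_id,
        Matrix.submatrix_mul g (x m) Fin.rev id id Function.bijective_id, Matrix.submatrix_id_id]
    rw [h4, Matrix.submatrix_apply] at hab
    exact Fin.rev_lt_rev.mp (h3 m _ _ hab)

end Pool.Agent.Lib.MP_666dc0_nt.IG
end
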