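import Pool.Agent.Lib.MP_666dc0_nt.Mg.G001
import Pool.Agent.Lib.MP_666dc0_nt.IG.Defs
import Pool.Agent.Lib.MP_666dc0_nt.Mg.G033
import Pool.Agent.Lib.MP_666dc0_nt.Mg.G030
import Pool.Agent.Lib.MP_666dc0_nt.Mg.G036
import Pool.Agent.Lib.MP_666dc0_nt.Mg.G021

section

/-! # Part A, file 5: the invariant integral of `GL_n` -/

set_option autoImplicit false
set_option linter.unusedSectionVars false

open MvPolynomial

namespace Pool.Agent.Lib.MP_666dc0_nt.IG

variable {A : Type} [CommRing A] [Algebra ℚ A] {n : ℕ}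

/-- The homomorphism `X ↦ X`, `X' ↦ adj(X) T`. -/
noncomputable def Psi (n : ℕ) (A : Type) [CommRing A] :
    MvPolynomial (PV n) A →ₐ[A] Polynomial (MvPolynomial (Fin n × Fin n) A) :=
  aeval (Sum.elim (fun ij => Polynomial.C (X ij))
    (fun ij => Polynomial.C ((Xm n A).adjugate ij.1 ij.2) * Polynomial.X))

/-- The integral. -/
noncomputable def IGL (n : ℕ) : MvPolynomial (PV n) ℚ →ₗ[ℚ] ℚ :=
  (Lam n ℚ).comp (Psi n ℚ).toLinearMap

private theorem A5a_C (a : A) : Psi n A (C a) = Polynomial.C (C a) := by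
  have h : (C a : MvPolynomial (PV n) A) = algebraMap A _ a := rfl
  rw [h, AlgHom.commutes]
  rfl

private theorem A5a_inl (ij : Fin n × Fin n) : Psi n A (X (Sum.inl ij)) = Polynomial.C (X ij) := by
  unfold Psi
  rw [aeval_X]
  rfl

private theorem A5a_inr (ij : Fin n × Fin n) : Psi n A (X (Sum.inr ij)) =
    Polynomial.C ((Xm n A).adjugate ij.1 ij.2) * Polynomial.X := by
  unfold Psi
  rw [aeval_X]
  rfl

private theorem A5a_Xm (φ : ℚ →+* A) : (Xm n ℚ).map (map φ) = Xm n A := by
  refine Matrix.ext fun i j => ?_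
  unfold Xm
  rw [Matrix.map_apply, Matrix.of_apply, Matrix.of_apply, map_X]

private theorem A5a_adj (φ : ℚ →+* A) (i j : Fin n) :
    map φ ((Xm n ℚ).adjugate i j) = (Xm n A).adjugate i j := by
  have h := RingHom.map_adjugate (map φ) (Xm n ℚ)
  rw [RingHom.mapMatrix_apply, RingHom.mapMatrix_apply, A5a_Xm] at h
  rw [← h]
  rfl

private theorem A5a_base (p : MvPolynomial (PV n) ℚ) :
    Psi n A (map (algebraMap ℚ A) p) =
      (Psi n ℚ p).map (MvPolynomial.map (algebraMap ℚ A)) := by
  have h : (Psi n A).toRingHom.comp (map (algebraMap ℚ A)) =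
      (Polynomial.mapRingHom (MvPolynomial.map (algebraMap ℚ A))).comp (Psi n ℚ).toRingHom := by
    refine MvPolynomial.ringHom_ext (fun a => ?_) (fun x => ?_)
    · change Psi n A (map (algebraMap ℚ A) (C a)) = (Psi n ℚ (C a)).map _
      rw [map_C, A5a_C, A5a_C, Polynomial.map_C, map_C]
    · change Psi n A (map (algebraMap ℚ A) (X x)) = (Psi n ℚ (X x)).map _
      rw [map_X]
      rcases x with ij | ij
      · rw [A5a_inl, A5a_inl, Polynomial.map_C, map_X]
      · rw [A5a_inr, A5a_inr, Polynomial.map_mul, Polynomial.map_C, Polynomial.map_X, A5a_adj]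
  exact DFunLike.congr_fun h p

/-- Both sides are `A`-linear and agree on monomials (`Lam_map`; `Psi` commutes with base change). -/
theorem IA_IGL (p : MvPolynomial (PV n) A) : IA (IGL n) A p = Lam n A (Psi n A p) := by
  have h : IA (IGL n) A = (Lam n A).comp (Psi n A).toLinearMap := by
    refine (basisMonomials (PV n) A).ext fun m => ?_
    unfold IA
    rw [Module.Basis.constr_basis]
    change algebraMap ℚ A (Lam n ℚ (Psi n ℚ (monomial m 1))) =
      Lam n A (Psi n A (basisMonomials (PV n) A m))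
    have h1 : basisMonomials (PV n) A m = map (algebraMap ℚ A) (monomial m 1) := by
      rw [map_monomial, map_one, coe_basisMonomials]
    rw [h1, A5a_base, Lam_map]
  rw [h]
  rfl

/-- The ideal of `GL_n`: the entries of `X X' - 1` and `X' X - 1`. -/
noncomputable def JGL (n : ℕ) : Ideal (MvPolynomial (PV n) ℚ) :=
  Ideal.span ({p | ∃ i j, p = (gX n ℚ * gX' n ℚ) i j - (1 : Matrix (Fin n) (Fin n) _) i j} ∪
    {p | ∃ i j, p = (gX' n ℚ * gX n ℚ) i j - (1 : Matrix (Fin n) (Fin n) _) i j})

theorem InJ_JGL (k k' : Matrix (Fin n) (Fin n) A) :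
    InJ (JGL n) A k k' ↔ k * k' = 1 ∧ k' * k = 1 := by
  have h1 : ∀ i j, aeval (evp k k') ((gX n ℚ * gX' n ℚ) i j -
      (1 : Matrix (Fin n) (Fin n) _) i j) = (k * k') i j - (1 : Matrix (Fin n) (Fin n) A) i j := by
    intro i j
    rw [map_sub, Matrix.mul_apply, Matrix.mul_apply, map_sum]
    congr 1
    · refine Finset.sum_congr rfl fun m _ => ?_
      unfold gX gX'
      rw [Matrix.of_apply, Matrix.of_apply, map_mul, aeval_X, aeval_X]
      rfl
    · by_cases h : i = j <;> simp [Matrix.one_apply, h]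
  have h2 : ∀ i j, aeval (evp k k') ((gX' n ℚ * gX n ℚ) i j -
      (1 : Matrix (Fin n) (Fin n) _) i j) = (k' * k) i j - (1 : Matrix (Fin n) (Fin n) A) i j := by
    intro i j
    rw [map_sub, Matrix.mul_apply, Matrix.mul_apply, map_sum]
    congr 1
    · refine Finset.sum_congr rfl fun m _ => ?_
      unfold gX gX'
      rw [Matrix.of_apply, Matrix.of_apply, map_mul, aeval_X, aeval_X]
      rfl
    · by_cases h : i = j <;> simp [Matrix.one_apply, h]
  constructor
  · intro h
    constructor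
    · refine Matrix.ext fun i j => ?_
      have h3 := h _ (Ideal.subset_span (Or.inl ⟨i, j, rfl⟩))
      rw [h1] at h3
      exact sub_eq_zero.1 h3
    · refine Matrix.ext fun i j => ?_
      have h3 := h _ (Ideal.subset_span (Or.inr ⟨i, j, rfl⟩))
      rw [h2] at h3
      exact sub_eq_zero.1 h3
  · rintro ⟨h3, h4⟩ p hp
    have h5 : JGL n ≤ RingHom.ker (aeval (evp k k') : MvPolynomial (PV n) ℚ →ₐ[ℚ] A) := by
      refine Ideal.span_le.2 ?_
      rintro _ (⟨i, j, rfl⟩ | ⟨i, j, rfl⟩)
      · change aeval (evp k k') _ = 0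
        rw [h1, h3, sub_self]
      · change aeval (evp k k') _ = 0
        rw [h2, h4, sub_self]
    exact h5 hp

/-- `Psi` maps the generators to `(det T - 1) δ_ij` (`Matrix.mul_adjugate`, `Matrix.adjugate_mul`), so
`Psi p` is a multiple of `det T - 1` for `p ∈ JGL`; `Lam_det`. -/
theorem IGL_J (p : MvPolynomial (PV n) ℚ) (hp : p ∈ JGL n) : IGL n p = 0 := by
  have h1 : ∀ i j, Polynomial.C (dX n ℚ * (1 : Matrix (Fin n) (Fin n)
      (MvPolynomial (Fin n × Fin n) ℚ)) i j) * Polynomial.X -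
      (1 : Matrix (Fin n) (Fin n) (Polynomial (MvPolynomial (Fin n × Fin n) ℚ))) i j ∈
      Ideal.span {Polynomial.C (dX n ℚ) * Polynomial.X - 1} := by
    intro i j
    by_cases h : i = j
    · subst h
      rw [Matrix.one_apply_eq, Matrix.one_apply_eq, mul_one]
      exact Ideal.subset_span rfl
    · rw [Matrix.one_apply_ne h, Matrix.one_apply_ne h, mul_zero, Polynomial.C_0, zero_mul, sub_zero]
      exact Ideal.zero_mem _
  have hone : ∀ i j, Psi n ℚ ((1 : Matrix (Fin n) (Fin n) (MvPolynomial (PV n) ℚ)) i j) =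
      (1 : Matrix (Fin n) (Fin n) (Polynomial (MvPolynomial (Fin n × Fin n) ℚ))) i j := by
    intro i j
    by_cases h : i = j <;> simp [Matrix.one_apply, h]
  have h2 : JGL n ≤ (Ideal.span {Polynomial.C (dX n ℚ) * Polynomial.X - 1}).comap
      (Psi n ℚ).toRingHom := by
    refine Ideal.span_le.2 ?_
    rintro _ (⟨i, j, rfl⟩ | ⟨i, j, rfl⟩)
    · change Psi n ℚ _ ∈ (Ideal.span {Polynomial.C (dX n ℚ) * Polynomial.X - 1} :
        Ideal (Polynomial (MvPolynomial (Fin n × Fin n) ℚ)))
      have h3 := h1 i j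
      have h4 : (Xm n ℚ * (Xm n ℚ).adjugate) i j = dX n ℚ * (1 : Matrix (Fin n) (Fin n)
          (MvPolynomial (Fin n × Fin n) ℚ)) i j := by
        rw [Matrix.mul_adjugate]
        rfl
      rw [← h4, Matrix.mul_apply, map_sum, Finset.sum_mul] at h3
      rw [map_sub, hone, Matrix.mul_apply, map_sum]
      have h5 : ∀ m, Psi n ℚ (gX n ℚ i m * gX' n ℚ m j) =
          Polynomial.C (Xm n ℚ i m * (Xm n ℚ).adjugate m j) * Polynomial.X := by
        intro m
        unfold gX gX'
        rw [Matrix.of_apply, Matrix.of_apply, map_mul, A5a_inl, A5a_inr, Polynomial.C_mul, mul_assoc]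
        rfl
      rw [Finset.sum_congr rfl fun m _ => h5 m]
      exact h3
    · change Psi n ℚ _ ∈ (Ideal.span {Polynomial.C (dX n ℚ) * Polynomial.X - 1} :
        Ideal (Polynomial (MvPolynomial (Fin n × Fin n) ℚ)))
      have h3 := h1 i j
      have h4 : ((Xm n ℚ).adjugate * Xm n ℚ) i j = dX n ℚ * (1 : Matrix (Fin n) (Fin n)
          (MvPolynomial (Fin n × Fin n) ℚ)) i j := by
        rw [Matrix.adjugate_mul]
        rfl
      rw [← h4, Matrix.mul_apply, map_sum, Finset.sum_mul] at h3
      rw [map_sub, hone, Matrix.mul_apply, map_sum]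
      have h5 : ∀ m, Psi n ℚ (gX' n ℚ i m * gX n ℚ m j) =
          Polynomial.C ((Xm n ℚ).adjugate i m * Xm n ℚ m j) * Polynomial.X := by
        intro m
        unfold gX gX'
        rw [Matrix.of_apply, Matrix.of_apply, map_mul, A5a_inl, A5a_inr, Polynomial.C_mul, mul_assoc,
          mul_comm Polynomial.X, ← mul_assoc]
        rfl
      rw [Finset.sum_congr rfl fun m _ => h5 m]
      exact h3
  obtain ⟨F, hF⟩ := Ideal.mem_span_singleton'.1 (h2 hp)
  change Lam n ℚ (Psi n ℚ p) = 0
  have hF' : Psi n ℚ p = (Polynomial.C (dX n ℚ) * Polynomial.X - 1) * F := by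
    rw [mul_comm]
    exact hF.symm
  rw [hF', Lam_det]

private theorem A5c_evp_inl {R : Type} [CommRing R] (k k' : Matrix (Fin n) (Fin n) R) (i j : Fin n) :
    evp k k' (Sum.inl (i, j)) = k i j := rfl

private theorem A5c_evp_inr {R : Type} [CommRing R] (k k' : Matrix (Fin n) (Fin n) R) (i j : Fin n) :
    evp k k' (Sum.inr (i, j)) = k' i j := rfl

private theorem A5c_RC (k : Matrix (Fin n) (Fin n) A) (u : A) (f : MvPolynomial (Fin n × Fin n) A) :
    RK k u (Polynomial.C f) = Polynomial.C (rsub k f) := by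
  unfold RK
  rw [Polynomial.coe_eval₂RingHom, Polynomial.eval₂_C]
  rfl

private theorem A5c_RX (k : Matrix (Fin n) (Fin n) A) (u : A) :
    RK k u Polynomial.X = Polynomial.C (C u) * Polynomial.X := by
  unfold RK
  rw [Polynomial.coe_eval₂RingHom, Polynomial.eval₂_X]

/-- `RK k u (Psi p) = Psi (p(X k, k' X'))` for `p` rational, `u = det k'`: ring homomorphisms in `p`,
compare on the variables; `adj(X k) = adj(k) adj(X)` and `det(k') adj(k) = k'`. Then `Lam_RK`. -/
theorem IGL_right (k k' : Matrix (Fin n) (Fin n) A) (h : k * k' = 1) (h' : k' * k = 1)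
    (p : MvPolynomial (PV n) ℚ) :
    Lam n A (Psi n A (aeval (evp (gX n A * mC k) (mC k' * gX' n A)) p)) =
      algebraMap ℚ A (IGL n p) := by
  have hdet : k'.det * k.det = 1 := by rw [← Matrix.det_mul, h', Matrix.det_one]
  have hadj : k'.det • k.adjugate = k' := by
    calc k'.det • k.adjugate = k'.det • (k' * k * k.adjugate) := by rw [h', Matrix.one_mul]
      _ = k'.det • (k.det • k') := by
          rw [Matrix.mul_assoc, Matrix.mul_adjugate, Matrix.mul_smul, Matrix.mul_one]
      _ = k' := by rw [smul_smul, hdet, one_smul]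
  have hadjX : ∀ i j, C k'.det * rsub k ((Xm n A).adjugate i j) =
      ∑ m, C (k' i m) * (Xm n A).adjugate m j := by
    intro i j
    have h1 := AlgHom.map_adjugate (rsub k) (Xm n A)
    rw [AlgHom.mapMatrix_apply, AlgHom.mapMatrix_apply, Xm_map_rsub,
      Matrix.adjugate_mul_distrib] at h1
    have h2 : rsub k ((Xm n A).adjugate i j) =
        ((k.map (C : A → MvPolynomial (Fin n × Fin n) A)).adjugate * (Xm n A).adjugate) i j := by
      rw [← h1]
      rfl
    have h3 : (k.map (C : A → MvPolynomial (Fin n × Fin n) A)).adjugate = k.adjugate.map C :=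
      (RingHom.map_adjugate (C : A →+* MvPolynomial (Fin n × Fin n) A) k).symm
    rw [h2, h3, Matrix.mul_apply, Finset.mul_sum]
    refine Finset.sum_congr rfl fun m _ => ?_
    have h4 : k' i m = k'.det * k.adjugate i m := by
      conv_lhs => rw [← hadj]
      rfl
    rw [h4, C_mul, mul_assoc]
    rfl
  have hR : ∀ p : MvPolynomial (PV n) ℚ, RK k k'.det (Psi n A (map (algebraMap ℚ A) p)) =
      Psi n A (aeval (evp (gX n A * mC k) (mC k' * gX' n A)) p) := by
    intro p
    induction p using MvPolynomial.induction_on with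
    | C a =>
      rw [map_C, A5a_C, A5c_RC]
      have h1 : aeval (evp (gX n A * mC k) (mC k' * gX' n A)) (C a : MvPolynomial (PV n) ℚ) =
          C (algebraMap ℚ A a) := by
        rw [MvPolynomial.algHom_C]
        rfl
      rw [h1, A5a_C]
      congr 1
      rw [← MvPolynomial.algebraMap_eq, AlgHom.commutes]
    | add p q hp hq => rw [map_add, map_add, map_add, hp, hq, map_add, map_add]
    | mul_X p x hp =>
      rw [map_mul, map_mul, map_mul, hp, map_mul, map_mul, map_X, aeval_X]
      congr 1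
      rcases x with ⟨i, j⟩ | ⟨i, j⟩
      · rw [A5c_evp_inl, A5a_inl, A5c_RC, Matrix.mul_apply, map_sum]
        unfold rsub
        rw [aeval_X, map_sum]
        refine Finset.sum_congr rfl fun m _ => ?_
        unfold gX mC
        rw [Matrix.of_apply, Matrix.map_apply, map_mul (Psi n A), A5a_inl, A5a_C, Polynomial.C_mul]
      · rw [A5c_evp_inr, A5a_inr, map_mul, A5c_RC, A5c_RX, ← mul_assoc, ← Polynomial.C_mul,
          mul_comm (rsub k _), hadjX, map_sum, Finset.sum_mul, Matrix.mul_apply, map_sum]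
        refine Finset.sum_congr rfl fun m _ => ?_
        unfold gX' mC
        rw [Matrix.of_apply, Matrix.map_apply, map_mul (Psi n A), A5a_inr, A5a_C, Polynomial.C_mul,
          mul_assoc]
  rw [← hR, Lam_RK k _ hdet, A5a_base, Lam_map]
  rfl

/-- Part A. `GL_n` has a normalised invariant integral. -/
theorem exists_redGL (n : ℕ) : ∃ G : Red n, ∀ (A : Type) [CommRing A] [Algebra ℚ A]
    (k k' : Matrix (Fin n) (Fin n) A), G.In A k k' ↔ k * k' = 1 ∧ k' * k = 1 := by
  refine ⟨⟨JGL n, IGL n, ?_, IGL_J, ?_, ?_, ?_, ?_, ?_⟩, fun A _ _ k k' => InJ_JGL k k'⟩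
  · change Lam n ℚ (Psi n ℚ 1) = 1
    rw [map_one, Lam_one]
  · exact fun A _ _ k k' h => (InJ_JGL k k').1 h
  · exact fun A _ _ => (InJ_JGL 1 1).2 ⟨by simp, by simp⟩
  · intro A _ _ k k' m m' h1 h2
    rw [InJ_JGL] at h1 h2 ⊢
    constructor
    · rw [Matrix.mul_assoc, ← Matrix.mul_assoc m, h2.1, Matrix.one_mul, h1.1]
    · rw [Matrix.mul_assoc, ← Matrix.mul_assoc k', h1.2, Matrix.one_mul, h2.2]
  · intro A _ _ k k' h1
    rw [InJ_JGL] at h1 ⊢
    exact ⟨h1.2, h1.1⟩
  · intro A _ _ k k' h1 p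
    rw [InJ_JGL] at h1
    rw [IA_IGL]
    exact IGL_right k k' h1.1 h1.2 p

end Pool.Agent.Lib.MP_666dc0_nt.IG
end

section

open MvPolynomial

namespace Pool.Agent.Lib.MP_666dc0_nt.IG

/-- The group `GL_n`. -/
noncomputable def redGL (n : ℕ) : Red n := (exists_redGL n).choose

theorem redGL_In {n : ℕ} {A : Type} [CommRing A] [Algebra ℚ A]
    {k k' : Matrix (Fin n) (Fin n) A} : (redGL n).In A k k' ↔ k * k' = 1 ∧ k' * k = 1 :=
  (exists_redGL n).choose_spec A k k'

end Pool.Agent.Lib.MP_666dc0_nt.IG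
end

section

open MvPolynomial

namespace Pool.Agent.Lib.MP_666dc0_nt.IG

variable {n : ℕ} {s : Shape}

private theorem W1b_gmat {A : Type} [CommRing A] [Algebra ℚ A] {M : Type}
    (v : M → Matrix (Fin n) (Fin n) A) (m : M) :
    (aeval (toMats v) : MvPolynomial ((mats M).Ix n) ℚ →ₐ[ℚ] A).mapMatrix (gmat n m) = v m := by
  ext a b
  rw [AlgHom.mapMatrix_apply, Matrix.map_apply, gmat, Matrix.of_apply]
  exact aeval_X (toMats v) _

private theorem W1b_word {A : Type} [CommRing A] [Algebra ℚ A] {M : Type}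
    (v : M → Matrix (Fin n) (Fin n) A) (l : List M) :
    (aeval (toMats v) : MvPolynomial ((mats M).Ix n) ℚ →ₐ[ℚ] A).mapMatrix
      (wordProd (fun m => gmat n m) l) = wordProd v l := by
  unfold wordProd
  rw [map_list_prod, List.map_map]
  congr 1
  refine List.map_congr_left fun m _ => ?_
  exact W1b_gmat v m

theorem aeval_wtr {A : Type} [CommRing A] [Algebra ℚ A] {M : Type} (l : List M)
    (v : M → Matrix (Fin n) (Fin n) A) : aeval (toMats v) (wtr n l) = (wordProd v l).trace := by
  rw [← W1b_word v l, AlgHom.mapMatrix_apply]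
  unfold wtr Matrix.trace
  rw [map_sum]
  rfl

private theorem W1b_exists {A : Type} {M : Type} (t : (mats M).Ix n → A) :
    ∃ v : M → Matrix (Fin n) (Fin n) A, t = toMats v := by
  refine ⟨fun m => Matrix.of fun a b => t (⟨(), m, fun _ => a, fun _ => b⟩ : (mats M).Ix n), ?_⟩
  funext x
  obtain ⟨u, m, I, J⟩ := x
  simp only [toMats, Matrix.of_apply]
  congr 1
  refine Sigma.ext rfl (heq_of_eq ?_)
  refine Prod.ext rfl (Prod.ext ?_ ?_)
  · funext i
    exact congrArg I (Subsingleton.elim (α := Fin 1) _ _)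
  · funext i
    exact congrArg J (Subsingleton.elim (α := Fin 1) _ _)

private theorem W1b_act {A : Type} [CommRing A] {M : Type} (k k' : Matrix (Fin n) (Fin n) A)
    (v : M → Matrix (Fin n) (Fin n) A) :
    act k k' (toMats v) = toMats (fun m => k * v m * k') := by
  funext x
  obtain ⟨u, m, I, J⟩ := x
  simp only [act, toMats, mats]
  rw [Matrix.mul_apply]
  simp only [Matrix.mul_apply, Finset.sum_mul]
  rw [Finset.sum_comm]
  rw [← (Equiv.funUnique (Fin 1) (Fin n)).sum_comp]
  refine Finset.sum_congr rfl fun L _ => ?_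
  rw [← (Equiv.funUnique (Fin 1) (Fin n)).sum_comp]
  refine Finset.sum_congr rfl fun L' _ => ?_
  have h1 : (∏ i : Fin 1, k (I i) (L' i)) = k (I (0 : Fin 1)) (L' (0 : Fin 1)) :=
    Fin.prod_univ_one fun i : Fin 1 => k (I i) (L' i)
  have h2 : (∏ i : Fin 1, k' (L i) (J i)) = k' (L (0 : Fin 1)) (J (0 : Fin 1)) :=
    Fin.prod_univ_one fun i : Fin 1 => k' (L i) (J i)
  change (∏ i : Fin 1, k (I i) (L' i)) * (∏ i : Fin 1, k' (L i) (J i)) *
    v m (L' (0 : Fin 1)) (L (0 : Fin 1)) =
    k (I (0 : Fin 1)) (L' (0 : Fin 1)) * v m (L' (0 : Fin 1)) (L (0 : Fin 1)) *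
    k' (L (0 : Fin 1)) (J (0 : Fin 1))
  rw [h1, h2]
  ring

private theorem W1b_conj {A : Type} [CommRing A] {M : Type} {k k' : Matrix (Fin n) (Fin n) A}
    (h : k * k' = 1) (h' : k' * k = 1) (v : M → Matrix (Fin n) (Fin n) A) (l : List M) :
    wordProd (fun m => k * v m * k') l = k * wordProd v l * k' := by
  unfold wordProd
  induction l with
  | nil => simp [h]
  | cons m l ih =>
    rw [List.map_cons, List.prod_cons, ih, List.map_cons, List.prod_cons]
    calc k * v m * k' * (k * (List.map v l).prod * k')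
        = k * v m * (k' * k) * (List.map v l).prod * k' := by simp only [Matrix.mul_assoc]
      _ = k * (v m * (List.map v l).prod) * k' := by
          rw [h', Matrix.mul_one]
          simp only [Matrix.mul_assoc]

/-- Word traces are invariant: `aeval_wtr`, `act_toMats`, `wordProd (k v k') l = k (wordProd v l) k'`
for an inverse pair, cyclicity of the trace. -/
theorem isInv_wtr {M : Type} (l : List M) : IsInv (redGL n) (wtr n l : MvPolynomial ((mats M).Ix n) ℚ) := by
  intro A _ _ k k' hk t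
  obtain ⟨h, h'⟩ := redGL_In.1 hk
  obtain ⟨v, rfl⟩ := W1b_exists t
  rw [W1b_act, aeval_wtr, aeval_wtr, W1b_conj h h', Matrix.trace_mul_cycle, h',
    Matrix.one_mul]

private theorem W1b_entry {M : Type} (l : List M) (a b : Fin n) :
    IsWeightedHomogeneous (fun _ : (mats M).Ix n => 1) (wordProd (fun m => gmat n m) l a b)
      l.length := by
  induction l generalizing a with
  | nil =>
    simp only [wordProd, List.map_nil, List.prod_nil, List.length_nil, Matrix.one_apply]
    split_ifs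
    · exact isWeightedHomogeneous_one ℚ _
    · exact isWeightedHomogeneous_zero ℚ _ _
  | cons m l ih =>
    have h1 : wordProd (fun m => gmat n m) (m :: l) a b =
        ∑ c, gmat n m a c * wordProd (fun m => gmat n m) l c b := by
      simp only [wordProd, List.map_cons, List.prod_cons, Matrix.mul_apply]
    rw [h1, List.length_cons, add_comm]
    refine IsWeightedHomogeneous.sum _ _ _ fun c _ => ?_
    refine IsWeightedHomogeneous.mul ?_ (ih c)
    exact isWeightedHomogeneous_X ℚ _ _

/-- `wtr n l` is homogeneous of degree the length of `l`. -/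
theorem wtr_homog {M : Type} (l : List M) :
    IsWeightedHomogeneous (fun _ : (mats M).Ix n => 1) (wtr n l) l.length := by
  unfold wtr Matrix.trace
  exact IsWeightedHomogeneous.sum _ _ _ fun c _ => W1b_entry l c c

end Pool.Agent.Lib.MP_666dc0_nt.IG
end

section

open MvPolynomial

namespace Pool.Agent.Lib.MP_666dc0_nt.IG

variable {n : ℕ} {s : Shape}

/-- Substitution `v ↦ v - 1` in the matrices indexed by `Sum.inl j`, forgetting the matrices `Sum.inr j`: for
an invariant `p` on `tot J s` the polynomial `P(v, v', T) = p(v - 1, T)` on `tot (J ⊕ J) s` is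
`GL_n`-invariant. -/
theorem exists_shift {J : Type} (p : MvPolynomial ((tot J s).Ix n) ℚ) (hp : IsInv (redGL n) p) :
    ∃ P : MvPolynomial ((tot (J ⊕ J) s).Ix n) ℚ, IsInv (redGL n) P ∧
      ∀ (R : Type) [CommRing R] [Algebra ℚ R] (v : J ⊕ J → Matrix (Fin n) (Fin n) R)
        (T : s.Ix n → R), aeval (toTot v T) P = aeval (toTot (fun j => v (Sum.inl j) - 1) T) p := by
  obtain ⟨V, U, hVU⟩ := exists_toTot (A := MvPolynomial ((tot (J ⊕ J) s).Ix n) ℚ)
    (M := J ⊕ J) (s := s) (n := n) (fun x => X x)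
  have key : ∀ (R : Type) [CommRing R] [Algebra ℚ R] (v : J ⊕ J → Matrix (Fin n) (Fin n) R)
        (T : s.Ix n → R), aeval (toTot v T) (aeval (toTot (fun j => V (Sum.inl j) - 1) U) p) =
          aeval (toTot (fun j => v (Sum.inl j) - 1) T) p := by
    intro R _ _ v T
    have h1 : (fun x => (aeval (toTot v T) : MvPolynomial ((tot (J ⊕ J) s).Ix n) ℚ →ₐ[ℚ] R)
        ((fun y => X y : (tot (J ⊕ J) s).Ix n → MvPolynomial ((tot (J ⊕ J) s).Ix n) ℚ) x)) =
          toTot v T := by
      funext x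
      exact aeval_X _ _
    have h2 := map_toTot (M := J ⊕ J)
      ((aeval (toTot v T) : MvPolynomial ((tot (J ⊕ J) s).Ix n) ℚ →ₐ[ℚ] R) :
        MvPolynomial ((tot (J ⊕ J) s).Ix n) ℚ →+* R) V U
    rw [← hVU] at h2
    have h3 := toTot_inj (h2.symm.trans h1)
    obtain ⟨h4, h5⟩ := h3
    have h6 := map_toTot (M := J)
      ((aeval (toTot v T) : MvPolynomial ((tot (J ⊕ J) s).Ix n) ℚ →ₐ[ℚ] R) :
        MvPolynomial ((tot (J ⊕ J) s).Ix n) ℚ →+* R) (fun j => V (Sum.inl j) - 1) U
    have h7 : (fun j : J => (V (Sum.inl j) - 1).map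
        ((aeval (toTot v T) : MvPolynomial ((tot (J ⊕ J) s).Ix n) ℚ →ₐ[ℚ] R) :
        MvPolynomial ((tot (J ⊕ J) s).Ix n) ℚ →+* R)) = fun j => v (Sum.inl j) - 1 := by
      funext j
      rw [← congrFun h4 (Sum.inl j)]
      ext a b
      rcases eq_or_ne a b with hab | hab
      · simp [Matrix.map_apply, hab]
      · simp [Matrix.map_apply, Matrix.one_apply_ne hab]
    rw [h5, h7] at h6
    rw [← AlgHom.comp_apply, comp_aeval]
    exact congrArg (fun q => aeval q p) h6
  refine ⟨aeval (toTot (fun j => V (Sum.inl j) - 1) U) p, ?_, key⟩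
  intro A _ _ k k' hk t
  obtain ⟨v, T, rfl⟩ := exists_toTot t
  obtain ⟨hk1, hk2⟩ := redGL_In.mp hk
  have h8 := hp A k k' hk (toTot (fun j => v (Sum.inl j) - 1) T)
  rw [act_toTot] at h8
  rw [act_toTot, key, key, ← h8]
  have h9 : (fun j : J => k * v (Sum.inl j) * k' - 1) =
      fun j : J => k * (v (Sum.inl j) - 1) * k' := by
    funext j
    rw [mul_sub, sub_mul, mul_one, hk1]
  rw [h9]

end Pool.Agent.Lib.MP_666dc0_nt.IG
end
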