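import Pool.Agent.Lib.MP_666dc0_nt.Mg.G023
import Pool.Agent.Lib.MP_666dc0_nt.IG.G0c
import Pool.Agent.Lib.MP_666dc0_nt.IG.Defs2
import Pool.Agent.Lib.MP_666dc0_nt.IG.R2b
import Pool.Agent.Lib.MP_666dc0_nt.Mg.G018
import Pool.Agent.Lib.MP_666dc0_nt.Mg.G021
import Pool.Agent.Lib.MP_666dc0_nt.IG.E4e

section

open MvPolynomial

namespace Pool.Agent.Lib.MP_666dc0_nt.IG

variable {O : Type} [CommRing O] [HopfAlgebra ℚ O] {Γ : Type} [Group Γ] {A : HopfAction Γ O}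
  {n : ℕ} (ρ : MatRep A n)

private theorem G0d_act_pm {G : Red n} (hG : IsRedG ρ G) (TD : TensorData G) (R : Type) [CommRing R]
    [Algebra ℚ R] (γ : Γ) :
    act (ρ.pm R γ) (ρ.pm R γ⁻¹) (inA R TD.T₀) = mix (DmR ρ hG TD R γ) (inA R TD.T₀) := by
  funext x
  have h1 := map_act (algebraMap ℚ R) (ρ.P γ) (ρ.P γ⁻¹) TD.T₀ x
  have h2 : act (ρ.P γ) (ρ.P γ⁻¹) TD.T₀ = mix (Dm ρ hG TD γ) TD.T₀ :=
    (exists_D ρ hG TD γ).choose_spec
  refine Eq.trans h1.symm ?_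
  rw [h2]
  unfold mix
  rw [map_sum]
  exact Finset.sum_congr rfl fun c _ => map_mul _ _ _

/-- Conversely, an inverse pair `(k, k')` over a field acting on `T₀` by `D γ` is of the form
`(g pm γ, pm γ⁻¹ g')` with `(g, g')` in `G`: `(k pm γ⁻¹, pm γ k')` fixes `T₀`; `stabiliser'`. (`mix (D γ)` is
`act (P γ) (P γ⁻¹)` on `T₀`, and `act (P γ⁻¹) (P γ)` is its inverse.) -/
theorem in_of_act {G : Red n} (hG : IsRedG ρ G) (TD : TensorData G) {Ω : Type} [Field Ω]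
    [Algebra ℚ Ω] (γ : Γ) (k k' : Matrix (Fin n) (Fin n) Ω) (h1 : k * k' = 1) (h2 : k' * k = 1)
    (hk : act k k' (inA Ω TD.T₀) = mix (DmR ρ hG TD Ω γ) (inA Ω TD.T₀)) :
    G.In Ω (k * ρ.pm Ω γ⁻¹) (ρ.pm Ω γ * k') := by
  have e1 : ρ.pm Ω γ⁻¹ * ρ.pm Ω γ = 1 := by rw [← map_mul, inv_mul_cancel, map_one]
  have e2 : ρ.pm Ω γ * ρ.pm Ω γ⁻¹ = 1 := by rw [← map_mul, mul_inv_cancel, map_one]
  apply stabiliser' G TD
  · calc k * ρ.pm Ω γ⁻¹ * (ρ.pm Ω γ * k') = k * (ρ.pm Ω γ⁻¹ * ρ.pm Ω γ) * k' := by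
          simp only [mul_assoc]
      _ = 1 := by rw [e1, mul_one, h1]
  · calc ρ.pm Ω γ * k' * (k * ρ.pm Ω γ⁻¹) = ρ.pm Ω γ * (k' * k) * ρ.pm Ω γ⁻¹ := by
          simp only [mul_assoc]
      _ = 1 := by rw [h2, mul_one, e2]
  · have h3 := G0d_act_pm ρ hG TD Ω γ⁻¹
    rw [inv_inv] at h3
    rw [act_mul, h3, act_mix, hk, ← G0d_act_pm ρ hG TD Ω γ, ← act_mix, ← h3, ← act_mul, e2, act_one]

end Pool.Agent.Lib.MP_666dc0_nt.IG
end

section

open MvPolynomial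

namespace Pool.Agent.Lib.MP_666dc0_nt.IG

variable {O : Type} [CommRing O] [HopfAlgebra ℚ O] {Γ : Type} [Group Γ] {A : HopfAction Γ O}
  {n : ℕ} (ρ : MatRep A n)

/-- LL. A homomorphism to matrices with `v γ ∈ G pm(γ)` comes from a homomorphism to the L-group: for each `γ`
there is a unique `x γ` with `gm (x γ) = v γ * pm γ⁻¹`; put `r γ = (x γ, γ)`; multiplicativity by
`ev_injective`. -/
theorem exists_hom {G : Red n} (hG : IsRedG ρ G) (hρ : Faithful ρ) {R : Type} [CommRing R]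
    [Algebra ℚ R] (v : Γ →* Matrix (Fin n) (Fin n) R)
    (hv : ∀ γ, G.In R (v γ * ρ.pm R γ⁻¹) (ρ.pm R γ * v γ⁻¹)) :
    ∃ r : Γ →* A.LGroup R, (∀ γ, (r γ).right = γ) ∧ ∀ γ, ρ.ev R (r γ) = v γ := by
  have h1 : ∀ γ, ∃ x : Pts O R, ρ.gm x = v γ * ρ.pm R γ⁻¹ := fun γ => by
    obtain ⟨x, hx, _⟩ := (hG R _ _).1 (hv γ)
    exact ⟨x, hx⟩
  choose x hx using h1
  have hev : ∀ γ, ρ.ev R (⟨x γ, γ⟩ : A.LGroup R) = v γ := by
    intro γ
    rw [MatRep.ev_apply]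
    change ρ.gm (x γ) * ρ.pm R γ = v γ
    rw [hx, mul_assoc, ← map_mul, inv_mul_cancel, map_one, mul_one]
  refine ⟨⟨⟨fun γ => ⟨x γ, γ⟩, ?_⟩, ?_⟩, fun γ => rfl, fun γ => hev γ⟩
  · apply ev_injective ρ hρ
    · rw [hev, map_one, map_one]
    · rfl
  · intro γ δ
    apply ev_injective ρ hρ
    · rw [map_mul]
      change ρ.ev R (⟨x (γ * δ), γ * δ⟩ : A.LGroup R) =
        ρ.ev R (⟨x γ, γ⟩ : A.LGroup R) * ρ.ev R (⟨x δ, δ⟩ : A.LGroup R)
      rw [hev, hev, hev, map_mul]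
    · rfl

end Pool.Agent.Lib.MP_666dc0_nt.IG
end

section

open MvPolynomial

namespace Pool.Agent.Lib.MP_666dc0_nt.IG

variable {O : Type} [CommRing O] [HopfAlgebra ℚ O] {Γ : Type} [Group Γ] {A : HopfAction Γ O}
  {n : ℕ} (ρ : MatRep A n)

/-- VAL, polynomial form. For `f ∈ O` write `f = θ(p)` (faithfulness) and
`p_f(v, v') := p(v P γ⁻¹, P γ v')`, so that `p_f(ev x, ev x⁻¹) = f(x.left)` for `x` over `γ`. -/
theorem exists_polyF (hρ : Faithful ρ) (γ : Γ) (f : O) :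
    ∃ p : MvPolynomial ((mats Bool).Ix n) ℚ, ∀ (R : Type) [CommRing R] [Algebra ℚ R]
      (x : A.LGroup R), x.right = γ →
        aeval (toMats (fun b => match b with | false => ρ.ev R x | true => ρ.ev R x⁻¹)) p =
          x.left.hom f := by
  obtain ⟨q, hq⟩ : ∃ q : MvPolynomial (PV n) ℚ,
      aeval (evp ρ.a (ρ.a.map (HopfAlgebra.antipode ℚ))) q = f := by
    have h1 : f ∈ Algebra.adjoin ℚ ({f | ∃ i j, f = ρ.a i j} ∪
        {f | ∃ i j, f = HopfAlgebra.antipode ℚ (ρ.a i j)}) := by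
      have h0 : Algebra.adjoin ℚ ({f | ∃ i j, f = ρ.a i j} ∪
        {f | ∃ i j, f = HopfAlgebra.antipode ℚ (ρ.a i j)}) = ⊤ := hρ
      rw [h0]
      trivial
    have h2 : Algebra.adjoin ℚ ({f | ∃ i j, f = ρ.a i j} ∪
        {f | ∃ i j, f = HopfAlgebra.antipode ℚ (ρ.a i j)}) ≤
        (aeval (R := ℚ) (evp ρ.a (ρ.a.map (HopfAlgebra.antipode ℚ)))).range := by
      refine Algebra.adjoin_le ?_
      rintro g (⟨i, j, rfl⟩ | ⟨i, j, rfl⟩)
      · exact ⟨X (Sum.inl (i, j)), aeval_X _ _⟩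
      · exact ⟨X (Sum.inr (i, j)), aeval_X _ _⟩
    exact h2 h1
  have key : ∀ {S T : Type} [CommRing S] [Algebra ℚ S] [CommRing T] [Algebra ℚ T] (φ : S →ₐ[ℚ] T)
      (U U' : Matrix (Fin n) (Fin n) S),
      φ (aeval (evp U U') q) = aeval (evp (U.map φ) (U'.map φ)) q := by
    intro S T _ _ _ _ φ U U'
    rw [MvPolynomial.comp_aeval_apply]
    have h3 : (fun i => φ (evp U U' i)) = evp (U.map φ) (U'.map φ) := by
      funext i
      rcases i with i | i <;> rfl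
    rw [h3]
  refine ⟨aeval (evp (gmat n false * (ρ.P γ⁻¹).map C) ((ρ.P γ).map C * gmat n true)) q, ?_⟩
  intro R _ _ x hx
  obtain ⟨w, hw⟩ : ∃ w : Bool → Matrix (Fin n) (Fin n) R,
      w = fun b => match b with | false => ρ.ev R x | true => ρ.ev R x⁻¹ := ⟨_, rfl⟩
  rw [← hw, key (aeval (toMats w))]
  have hg : ∀ b, (gmat n b).map (aeval (R := ℚ) (toMats w)) = w b := by
    intro b
    ext i j
    exact aeval_X (R := ℚ) (toMats w) (⟨(), b, fun _ => i, fun _ => j⟩ : (mats Bool).Ix n)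
  have hC : ∀ δ : Γ, ((ρ.P δ).map (C : ℚ → MvPolynomial ((mats Bool).Ix n) ℚ)).map
      (aeval (R := ℚ) (toMats w)) = ρ.pm R δ := by
    intro δ
    ext i j
    change aeval (toMats w) (C (ρ.P δ i j)) = _
    rw [aeval_C]
    rfl
  rw [Matrix.map_mul, Matrix.map_mul, hg, hg, hC, hC]
  have e1 : w false * ρ.pm R γ⁻¹ = ρ.a.map x.left.hom := by
    rw [hw]
    change ρ.ev R x * ρ.pm R γ⁻¹ = _
    rw [MatRep.ev_apply, hx, mul_assoc, MatRep.pm_mul_pm_inv, mul_one]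
    rfl
  have e2 : ρ.pm R γ * w true = (ρ.a.map (HopfAlgebra.antipode ℚ)).map x.left.hom := by
    rw [hw]
    change ρ.pm R γ * ρ.ev R x⁻¹ = _
    have h4 : ρ.ev R x * ρ.ev R x⁻¹ = 1 := ev_mul_inv ρ x
    have h5 : ρ.gm x.left⁻¹ * ρ.ev R x = ρ.pm R γ := by
      rw [MatRep.ev_apply, hx, ← mul_assoc, MatRep.gm_inv_mul, one_mul]
    rw [← h5, mul_assoc, h4, mul_one]
    rfl
  rw [e1, e2, ← key x.left.hom, hq]

end Pool.Agent.Lib.MP_666dc0_nt.IG
end

section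

open MvPolynomial

namespace Pool.Agent.Lib.MP_666dc0_nt.IG

variable {O : Type} [CommRing O] [HopfAlgebra ℚ O] {Γ : Type} [Group Γ] {A : HopfAction Γ O}
  {n : ℕ} (ρ : MatRep A n)

/-- VAL, invariant form: `Rey G p_f` for `f ∈ inv γ`: on `(ev x, ev x⁻¹)` the polynomial `p_f` is constant on
the `G`-conjugates `(g ev(x) g', g ev(x⁻¹) g') = (ev y, ev y⁻¹)`, `y = h x h⁻¹` for the point `h` of `Ĝ`
with `gm h = g` (`aeval_Rey_eq_const`, `f` invariant). -/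
theorem exists_polyG {G : Red n} (hG : IsRedG ρ G) (hρ : Faithful ρ) (γ : Γ) (f : O)
    (hf : f ∈ A.inv γ) : ∃ p : MvPolynomial ((mats Bool).Ix n) ℚ, IsInv G p ∧
      ∀ (R : Type) [CommRing R] [Algebra ℚ R] (x : A.LGroup R), x.right = γ →
        aeval (toMats (fun b => match b with | false => ρ.ev R x | true => ρ.ev R x⁻¹)) p =
          x.left.hom f := by
  obtain ⟨p, hp⟩ := exists_polyF ρ hρ γ f
  refine ⟨Rey G p, isInv_Rey G p, ?_⟩
  intro R _ _ x hx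
  obtain ⟨w, hw⟩ : ∃ w : Bool → Matrix (Fin n) (Fin n) R,
      w = fun b => match b with | false => ρ.ev R x | true => ρ.ev R x⁻¹ := ⟨_, rfl⟩
  rw [← hw]
  have h1 : aeval (toMats w) (Rey G p) =
      aeval (toMats w) (Rey G (MvPolynomial.map (algebraMap ℚ R) p)) := by
    rw [← map_Rey, aeval_map_algebraMap]
  rw [h1, aeval_Rey_eq_const (A := R) (B := R) G (MvPolynomial.map (algebraMap ℚ R) p) (toMats w)
    (x.left.hom f)]
  · rfl
  intro B' _ _ _ φ k k' hk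
  have : IsScalarTower ℚ R B' := IsScalarTower.of_algebraMap_eq' (RingHom.ext_rat _ _)
  obtain ⟨h, hh, hh'⟩ := (hG B' k k').1 hk
  obtain ⟨ψ, hψ⟩ : ∃ ψ : R →ₐ[ℚ] B', ∀ r, ψ r = φ r := ⟨φ.restrictScalars ℚ, fun r => rfl⟩
  rw [aeval_map_algebraMap]
  have h2 : (fun z => φ (toMats w z)) = toMats (fun m => (w m).map ψ) := by
    have h3 := map_toMats (φ : R →+* B') w
    refine Eq.trans h3 ?_
    congr 1
    funext m
    ext i j
    exact (hψ _).symm
  rw [h2, act_toMats]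
  obtain ⟨y, hy⟩ : ∃ y : A.LGroup B', y = SemidirectProduct.inl h * A.mapL ψ x *
      (SemidirectProduct.inl h)⁻¹ := ⟨_, rfl⟩
  have hyr : y.right = γ := by
    rw [hy]
    simp only [SemidirectProduct.mul_right, SemidirectProduct.inv_right,
      SemidirectProduct.right_inl, inv_one, mul_one, one_mul]
    exact hx
  have hin : ∀ g : Pts O B', ρ.ev B' (SemidirectProduct.inl g : A.LGroup B') = ρ.gm g := by
    intro g
    rw [MatRep.ev_apply, SemidirectProduct.left_inl, SemidirectProduct.right_inl, map_one, mul_one]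
  have e1 : ρ.ev B' y = k * (ρ.ev R x).map ψ * k' := by
    rw [hy, map_mul, map_mul, ← map_inv, hin, hin, MatRep.ev_mapL, hh, hh']
  have e2 : ρ.ev B' y⁻¹ = k * (ρ.ev R x⁻¹).map ψ * k' := by
    rw [hy, mul_inv_rev, mul_inv_rev, inv_inv, ← mul_assoc, ← map_inv, map_mul, map_mul, ← map_inv,
      hin, hin, MatRep.ev_mapL, hh, hh']
  have h4 := hp B' y hyr
  have h5 : (fun m => k * (w m).map ψ * k') =
      fun b => match b with | false => ρ.ev B' y | true => ρ.ev B' y⁻¹ := by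
    funext b
    cases b with
    | false => exact (by rw [hw] : k * (w false).map ψ * k' = k * (ρ.ev R x).map ψ * k').trans e1.symm
    | true => exact (by rw [hw] : k * (w true).map ψ * k' = k * (ρ.ev R x⁻¹).map ψ * k').trans e2.symm
  have h9 : aeval (toMats (fun m => k * (w m).map ψ * k')) p = y.left.hom f := by
    rw [h5]
    exact h4
  rw [h9]
  have h6 : y.left = h * (A.mapL ψ x).left * (A.onPts B' γ h)⁻¹ := by
    rw [hy]
    simp only [SemidirectProduct.mul_left, SemidirectProduct.inv_left, SemidirectProduct.left_inl,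
      SemidirectProduct.right_inl, SemidirectProduct.mul_right, map_one, MulAut.one_apply,
      inv_one, one_mul, map_inv]
    have h7 : (A.mapL ψ x).right = γ := hx
    rw [h7]
  rw [h6, hf B' h (A.mapL ψ x).left]
  have h8 : (A.mapL ψ x).left.hom f = ψ (x.left.hom f) := rfl
  rw [h8, hψ]
  exact φ.commutes _

end Pool.Agent.Lib.MP_666dc0_nt.IG
end

section

open MvPolynomial

namespace Pool.Agent.Lib.MP_666dc0_nt.IG

variable {O : Type} [CommRing O] [HopfAlgebra ℚ O] {Γ : Type} [Group Γ] {A : HopfAction Γ O}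
  {n : ℕ} (ρ : MatRep A n)

/-- VAL, `GL_n`-invariant form (`extend_conj_inv`). -/
theorem exists_polyT {G : Red n} (hG : IsRedG ρ G) (hρ : Faithful ρ) (TD : TensorData G) (γ : Γ)
    (f : O) (hf : f ∈ A.inv γ) : ∃ F : MvPolynomial ((tot Bool TD.s).Ix n) ℚ,
      IsInv (redGL n) F ∧ ∀ (R : Type) [CommRing R] [Algebra ℚ R] (x : A.LGroup R), x.right = γ →
        aeval (toTot (fun b => match b with | false => ρ.ev R x | true => ρ.ev R x⁻¹)
          (inA R TD.T₀)) F = x.left.hom f := by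
  obtain ⟨p, hp, hpv⟩ := exists_polyG ρ hG hρ γ f hf
  obtain ⟨F, hF, hFv⟩ := extend_conj_inv G TD p hp
  exact ⟨F, hF, fun R _ _ x hx => (hFv R _).trans (hpv R x hx)⟩

end Pool.Agent.Lib.MP_666dc0_nt.IG
end
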