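import Pool.Agent.Lib.MP_666dc0_nt.Mg.G014
import Pool.Agent.Lib.MP_666dc0_nt.Mg.G018
import Pool.Agent.Lib.MP_666dc0_nt.IG.F0a
import Pool.Agent.Lib.MP_666dc0_nt.Mg.G037
import Pool.Agent.Lib.MP_666dc0_nt.Mg.G038
import Pool.Agent.Lib.MP_666dc0_nt.IG.TIf
import Pool.Agent.Lib.MP_666dc0_nt.Mg.G020

section

open MvPolynomial

namespace Pool.Agent.Lib.MP_666dc0_nt.IG

variable {O : Type} [CommRing O] [HopfAlgebra ℚ O] {Γ : Type} [Group Γ] {A : HopfAction Γ O}
  {n : ℕ} (ρ : MatRep A n)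

/-- F2. A homomorphism to an algebraically closed field extends to the integral closure (lying over and
`IsAlgClosed.lift` for the residue fields; or Zorn). -/
theorem extend_integral {E : Type} [CommRing E] (B : Subring E) {K : Type} [Field K]
    [IsAlgClosed K] (y : B →+* K) :
    ∃ (B' : Subring E) (y' : B' →+* K), (∀ x : E, IsIntegral B x → x ∈ B') ∧
      ∀ (b : B) (hb : (b : E) ∈ B'), y' ⟨b, hb⟩ = y b := by
  have hP : (RingHom.ker y).IsPrime := RingHom.ker_isPrime y
  have hinj : Function.Injective (algebraMap B (integralClosure B E)) := by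
    intro a b hab
    exact Subtype.ext (congrArg (fun z : integralClosure B E => (z : E)) hab)
  obtain ⟨Q, -, hQ, hQP⟩ := Ideal.exists_ideal_over_prime_of_isIntegral
    (S := integralClosure B E) (RingHom.ker y) ⊥ (by
      rw [← RingHom.ker_eq_comap_bot, (RingHom.injective_iff_ker_eq_bot _).1 hinj]
      exact bot_le)
  let R' := B ⧸ Q.comap (algebraMap B (integralClosure B E))
  let S' := integralClosure B E ⧸ Q
  have hR' : IsDomain R' := Ideal.Quotient.isDomain _
  have hS' : IsDomain S' := Ideal.Quotient.isDomain _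
  have hRS : Function.Injective (algebraMap R' S') := Ideal.algebraMap_quotient_injective
  let φ : R' →+* K := Ideal.Quotient.lift _ y (fun a ha => by
    rw [hQP] at ha
    exact ha)
  have hφ : Function.Injective φ := by
    rw [RingHom.injective_iff_ker_eq_bot, eq_bot_iff]
    intro z hz
    obtain ⟨b, rfl⟩ := Ideal.Quotient.mk_surjective z
    have h1 : y b = 0 := hz
    rw [Submodule.mem_bot, Ideal.Quotient.eq_zero_iff_mem, hQP]
    exact h1
  letI : Algebra R' K := φ.toAlgebra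
  have hint : Algebra.IsIntegral R' S' := by
    constructor
    intro z
    obtain ⟨x, rfl⟩ := Ideal.Quotient.mk_surjective z
    obtain ⟨p, hp, hpx⟩ := Algebra.IsIntegral.isIntegral (R := B) x
    refine ⟨p.map (Ideal.Quotient.mk _), hp.map _, ?_⟩
    rw [Polynomial.eval₂_map]
    have h2 : (algebraMap R' S').comp (Ideal.Quotient.mk
        (Q.comap (algebraMap B (integralClosure B E)))) =
        (Ideal.Quotient.mk Q).comp (algebraMap B (integralClosure B E)) := rfl
    rw [h2, ← Polynomial.hom_eval₂, hpx, map_zero]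
  have hf1 : FaithfulSMul R' S' := (faithfulSMul_iff_algebraMap_injective R' S').2 hRS
  have hf2 : FaithfulSMul R' K := (faithfulSMul_iff_algebraMap_injective R' K).2 hφ
  have ht1 : Module.IsTorsionFree R' S' := inferInstance
  have ht2 : Module.IsTorsionFree R' K := inferInstance
  have ha : Algebra.IsAlgebraic R' S' := Algebra.IsIntegral.isAlgebraic
  let ψ : S' →ₐ[R'] K := IsAlgClosed.lift
  refine ⟨(integralClosure B E).toSubring, (ψ : S' →+* K).comp (Ideal.Quotient.mk Q),
    fun x hx => hx, fun b hb => ?_⟩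
  have h3 : (ψ : S' →+* K) (Ideal.Quotient.mk Q ⟨b, hb⟩) = ψ (algebraMap R' S' (Ideal.Quotient.mk _ b)) :=
    rfl
  rw [RingHom.comp_apply]
  refine h3.trans ?_
  rw [ψ.commutes]
  rfl

end Pool.Agent.Lib.MP_666dc0_nt.IG
end

section

open MvPolynomial

namespace Pool.Agent.Lib.MP_666dc0_nt.IG

variable {n : ℕ} {s : Shape}

section FGcAux

variable {A B : Type} [CommRing A] [CommRing B] [Algebra ℚ A] [Algebra ℚ B]

private theorem FGc_act (φ : A →ₐ[ℚ] B) (k k' : Matrix (Fin n) (Fin n) A) (t : s.Ix n → A)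
    (x : s.Ix n) :
    φ (act k k' t x) = act (k.map φ) (k'.map φ) (fun x => φ (t x)) x := by
  simp only [act, map_sum, map_mul, map_prod, Matrix.map_apply]

private theorem FGc_mix [s.Small] (φ : A →ₐ[ℚ] B) (D : (b : s.β) → s.C b → s.C b → ℚ)
    (T₀ : s.Ix n → ℚ) (x : s.Ix n) :
    φ (mix (fun b c c' => algebraMap ℚ A (D b c c')) (fun x => algebraMap ℚ A (T₀ x)) x) =
      mix (fun b c c' => algebraMap ℚ B (D b c c')) (fun x => algebraMap ℚ B (T₀ x)) x := by
  simp only [mix, map_sum, map_mul, AlgHom.commutes]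

private theorem FGc_mul (φ : A →ₐ[ℚ] B) (k k' : Matrix (Fin n) (Fin n) A) :
    (k * k').map φ = k.map φ * k'.map φ := Matrix.map_mul (f := (φ : A →+* B))

private theorem FGc_one (φ : A →ₐ[ℚ] B) : (1 : Matrix (Fin n) (Fin n) A).map φ = 1 :=
  Matrix.map_one _ (map_zero φ) (map_one φ)

private theorem FGc_act' (φ : A →ₐ[ℚ] B) (k k' : Matrix (Fin n) (Fin n) A) (T₀ : s.Ix n → ℚ)
    (x : s.Ix n) :
    φ (act k k' (fun x => algebraMap ℚ A (T₀ x)) x) =
      act (k.map φ) (k'.map φ) (fun x => algebraMap ℚ B (T₀ x)) x := by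
  rw [FGc_act]
  simp only [AlgHom.commutes]

private theorem FGc_fwd [s.Small] (φ : A →ₐ[ℚ] B) {M : Type}
    (D : M → (b : s.β) → s.C b → s.C b → ℚ) (T₀ : s.Ix n → ℚ)
    {v : M ⊕ M → Matrix (Fin n) (Fin n) A}
    (hv : TICond s D v (fun x => algebraMap ℚ A (T₀ x))) :
    TICond s D (fun m => (v m).map φ) (fun x => algebraMap ℚ B (T₀ x)) := by
  intro m
  obtain ⟨h1, h2, h3⟩ := hv m
  refine ⟨?_, ?_, ?_⟩
  · rw [← FGc_mul, h1, FGc_one]
  · rw [← FGc_mul, h2, FGc_one]
  · funext x
    have h4 := congrArg φ (congrFun h3 x)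
    rwa [FGc_mix, FGc_act'] at h4

private theorem FGc_bwd [s.Small] (φ : A →ₐ[ℚ] B) (hφ : Function.Injective φ) {M : Type}
    (D : M → (b : s.β) → s.C b → s.C b → ℚ) (T₀ : s.Ix n → ℚ)
    {v : M ⊕ M → Matrix (Fin n) (Fin n) A}
    (hv : TICond s D (fun m => (v m).map φ) (fun x => algebraMap ℚ B (T₀ x))) :
    TICond s D v (fun x => algebraMap ℚ A (T₀ x)) := by
  have hinj : Function.Injective (fun k : Matrix (Fin n) (Fin n) A => k.map φ) :=
    Matrix.map_injective hφ
  intro m
  obtain ⟨h1, h2, h3⟩ := hv m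
  refine ⟨?_, ?_, ?_⟩
  · apply hinj
    change (v (Sum.inl m) * v (Sum.inr m)).map φ = (1 : Matrix (Fin n) (Fin n) A).map φ
    rw [FGc_mul, FGc_one]
    exact h1
  · apply hinj
    change (v (Sum.inr m) * v (Sum.inl m)).map φ = (1 : Matrix (Fin n) (Fin n) A).map φ
    rw [FGc_mul, FGc_one]
    exact h2
  · funext x
    apply hφ
    rw [FGc_mix, FGc_act']
    exact congrFun h3 x

private theorem FGc_word (φ : A →ₐ[ℚ] B) {M : Type} (v : M → Matrix (Fin n) (Fin n) A)
    (l : List M) : wordProd (fun m => (v m).map φ) l = (wordProd v l).map φ := by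
  induction l with
  | nil => simp only [wordProd, List.map_nil, List.prod_nil]; exact (FGc_one φ).symm
  | cons a l ih =>
    have e1 : wordProd v (a :: l) = v a * wordProd v l := by
      simp only [wordProd, List.map_cons, List.prod_cons]
    have e2 : wordProd (fun m => (v m).map φ) (a :: l) =
        (v a).map φ * wordProd (fun m => (v m).map φ) l := by
      simp only [wordProd, List.map_cons, List.prod_cons]
    rw [e1, e2, ih, FGc_mul]

private theorem FGc_trace (φ : A →ₐ[ℚ] B) {M : Type} (v : M → Matrix (Fin n) (Fin n) A)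
    (l : List M) : φ (wordProd v l).trace = (wordProd (fun m => (v m).map φ) l).trace := by
  rw [FGc_word]
  simp only [Matrix.trace, Matrix.diag_apply, map_sum, Matrix.map_apply]

private theorem FGc_aeval (φ : A →ₐ[ℚ] B) {M : Type} (v : M → Matrix (Fin n) (Fin n) A)
    (T₀ : s.Ix n → ℚ) (p : MvPolynomial ((tot M s).Ix n) ℚ) :
    φ (aeval (toTot v (fun x => algebraMap ℚ A (T₀ x))) p) =
      aeval (toTot (fun m => (v m).map φ) (fun x => algebraMap ℚ B (T₀ x))) p := by
  have h1 : toTot (fun m => (v m).map φ) (fun x => algebraMap ℚ B (T₀ x)) =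
      fun y => φ (toTot v (fun x => algebraMap ℚ A (T₀ x)) y) := by
    funext y
    obtain ⟨b, m, I, J⟩ := y
    cases b with
    | inl u => rfl
    | inr b => exact (φ.commutes _).symm
  rw [h1, ← MvPolynomial.comp_aeval_apply]

private theorem FGc_int (φ : A →ₐ[ℚ] B) {S : Set A} {S' : Set B} (hS : ∀ a ∈ S, φ a ∈ S')
    {a : A} (ha : IsIntegral (Algebra.adjoin ℚ S) a) :
    IsIntegral (Algebra.adjoin ℚ S') (φ a) := by
  have h1 : (Algebra.adjoin ℚ S).map φ ≤ Algebra.adjoin ℚ S' := by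
    rw [AlgHom.map_adjoin]
    refine Algebra.adjoin_mono ?_
    rintro _ ⟨b, hb, rfl⟩
    exact hS b hb
  let g : Algebra.adjoin ℚ S →+* Algebra.adjoin ℚ S' :=
    ((φ : A →+* B).comp (algebraMap (Algebra.adjoin ℚ S) A)).codRestrict (Algebra.adjoin ℚ S')
      fun x => h1 ⟨x, x.2, rfl⟩
  exact ha.map_of_comp_eq g (φ : A →+* B) (by ext x; rfl)

end FGcAux

/-- Theorem I for matrices over an arbitrary `ℚ`-algebra `E`. Let `E₁ ⊂ E` be the subalgebra generated by the
entries of the matrices `v m` (finitely many: finitely generated, `Subalgebra.fg_adjoin_of_finite`,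
`Subalgebra.fg_iff_finiteType`), `v₁` the matrices `v` over `E₁`. `TICond` holds for `v₁` and `T₀` over `E₁`
(`E₁ → E` is injective; `CD.act_map` for the compatibility of `act` with ring homomorphisms), hence for
`z ∘ v₁` for every homomorphism `z : E₁ → AlgebraicClosure ℚ`. Apply `theorem_I` with `Z` the set of all these `z`,
then `integral_lift` with `S` the set of word traces of `v₁` (`z (trace (wordProd v₁ l)) = trace (wordProd (z ∘ v₁) l)`,
`z (aeval (toTot v₁ T₀) p) = aeval (toTot (z ∘ v₁) T₀) p`), and map the integral equation to `E`. -/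
theorem theorem_I_gen [s.Small] {E : Type} [CommRing E] [Algebra ℚ E]
    {M : Type} [Fintype M] (D : M → (b : s.β) → s.C b → s.C b → ℚ) (T₀ : s.Ix n → ℚ)
    (p : MvPolynomial ((tot (M ⊕ M) s).Ix n) ℚ) (hp : IsInv (redGL n) p)
    (v : M ⊕ M → Matrix (Fin n) (Fin n) E)
    (hv : TICond s D v (fun x => algebraMap ℚ E (T₀ x))) :
    IsIntegral (Algebra.adjoin ℚ {φ : E | ∃ l : List (M ⊕ M), φ = (wordProd v l).trace})
      (aeval (toTot v (fun x => algebraMap ℚ E (T₀ x))) p) := by
  classical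
  obtain ⟨E₁, hE₁⟩ : ∃ E₁ : Subalgebra ℚ E, E₁ = Algebra.adjoin ℚ
    (Set.range fun x : (M ⊕ M) × Fin n × Fin n => v x.1 x.2.1 x.2.2) := ⟨_, rfl⟩
  have hmem : ∀ m i j, v m i j ∈ E₁ := by
    intro m i j
    rw [hE₁]
    exact Algebra.subset_adjoin ⟨(m, i, j), rfl⟩
  have hft : Algebra.FiniteType ℚ E₁ := by
    rw [← Subalgebra.fg_iff_finiteType, hE₁]
    exact Subalgebra.fg_def.2 ⟨_, Set.finite_range _, rfl⟩
  let v₁ : M ⊕ M → Matrix (Fin n) (Fin n) E₁ := fun m => Matrix.of fun i j => ⟨v m i j, hmem m i j⟩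
  have hv₁ : (fun m => (v₁ m).map E₁.val) = v := by
    funext m
    ext i j
    rfl
  have hTI : TICond s D v₁ (fun x => algebraMap ℚ E₁ (T₀ x)) := by
    refine FGc_bwd E₁.val Subtype.val_injective D T₀ ?_
    rw [hv₁]
    exact hv
  have h1 := theorem_I (K := AlgebraicClosure ℚ) D T₀ p hp (E₁ →ₐ[ℚ] AlgebraicClosure ℚ)
    (fun z m => (v₁ m).map z) (fun z => FGc_fwd z D T₀ hTI)
  have h2 := integral_lift {φ : E₁ | ∃ l : List (M ⊕ M), φ = (wordProd v₁ l).trace}
    (aeval (toTot v₁ (fun x => algebraMap ℚ E₁ (T₀ x))) p) (by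
      have e1 : {φ : (E₁ →ₐ[ℚ] AlgebraicClosure ℚ) → AlgebraicClosure ℚ |
          ∃ s ∈ {φ : E₁ | ∃ l : List (M ⊕ M), φ = (wordProd v₁ l).trace}, φ = fun z => z s} =
          {φ : (E₁ →ₐ[ℚ] AlgebraicClosure ℚ) → AlgebraicClosure ℚ | ∃ l : List (M ⊕ M),
            φ = fun z : E₁ →ₐ[ℚ] AlgebraicClosure ℚ =>
              (wordProd (fun m => (v₁ m).map z) l).trace} := by
        ext φ
        constructor
        · rintro ⟨_, ⟨l, rfl⟩, rfl⟩
          exact ⟨l, funext fun z => FGc_trace z v₁ l⟩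
        · rintro ⟨l, rfl⟩
          exact ⟨_, ⟨l, rfl⟩, funext fun z => (FGc_trace z v₁ l).symm⟩
      have e2 : (fun z : E₁ →ₐ[ℚ] AlgebraicClosure ℚ =>
          z (aeval (toTot v₁ (fun x => algebraMap ℚ E₁ (T₀ x))) p)) =
          fun z : E₁ →ₐ[ℚ] AlgebraicClosure ℚ =>
          aeval (toTot (fun m => (v₁ m).map z)
            (fun x => algebraMap ℚ (AlgebraicClosure ℚ) (T₀ x))) p :=
        funext fun z => FGc_aeval z v₁ T₀ p
      rw [e1, e2]
      exact h1)
  have h3 := FGc_int E₁.val (S' := {φ : E | ∃ l : List (M ⊕ M), φ = (wordProd v l).trace}) (by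
    rintro _ ⟨l, rfl⟩
    refine ⟨l, ?_⟩
    rw [FGc_trace, hv₁]) h2
  rw [FGc_aeval, hv₁] at h3
  exact h3

end Pool.Agent.Lib.MP_666dc0_nt.IG
end

section

open MvPolynomial

namespace Pool.Agent.Lib.MP_666dc0_nt.IG

variable {O : Type} [CommRing O] [HopfAlgebra ℚ O] {Γ : Type} [Group Γ] {A : HopfAction Γ O}
  {n : ℕ} (ρ : MatRep A n)

/-- the finite index set of the elements of `Γ` occurring in a finite subset of `Γ ⊕ Γ` -/
private noncomputable def FGdM (M₀ : Finset (Γ ⊕ Γ)) : Finset Γ := by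
  classical exact M₀.image (Sum.elim id id)

private theorem FGdM_inl {M₀ : Finset (Γ ⊕ Γ)} {γ : Γ} (h : Sum.inl γ ∈ M₀) : γ ∈ FGdM M₀ := by
  classical
  unfold FGdM
  exact Finset.mem_image.mpr ⟨_, h, rfl⟩

private theorem FGdM_inr {M₀ : Finset (Γ ⊕ Γ)} {γ : Γ} (h : Sum.inr γ ∈ M₀) : γ ∈ FGdM M₀ := by
  classical
  unfold FGdM
  exact Finset.mem_image.mpr ⟨_, h, rfl⟩

private noncomputable def FGdj (M₀ : Finset (Γ ⊕ Γ)) :
    {x // x ∈ M₀} → {x // x ∈ FGdM M₀} ⊕ {x // x ∈ FGdM M₀}
  | ⟨Sum.inl γ, h⟩ => Sum.inl ⟨γ, FGdM_inl h⟩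
  | ⟨Sum.inr γ, h⟩ => Sum.inr ⟨γ, FGdM_inr h⟩

private noncomputable def FGdfam {R : Type} [CommRing R] [Algebra ℚ R] (M : Finset Γ)
    (r : Γ →* A.LGroup R) : {x // x ∈ M} ⊕ {x // x ∈ M} → Matrix (Fin n) (Fin n) R :=
  Sum.elim (fun γ => ρ.ev R (r γ)) (fun γ => ρ.ev R (r γ)⁻¹)

private theorem FGd_fam {R : Type} [CommRing R] [Algebra ℚ R] (M₀ : Finset (Γ ⊕ Γ))
    (r : Γ →* A.LGroup R) (x : {x // x ∈ M₀}) :
    FGdfam ρ (FGdM M₀) r (FGdj M₀ x) = fam ρ r x.1 := by
  obtain ⟨x | x, h⟩ := x <;> rfl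

private theorem FGd_word {R : Type} [CommRing R] [Algebra ℚ R] (M : Finset Γ)
    (l : List ({x // x ∈ M} ⊕ {x // x ∈ M})) : ∃ δ : Γ, ∀ r : Γ →* A.LGroup R,
      wordProd (FGdfam ρ M r) l = ρ.ev R (r δ) := by
  induction l with
  | nil => exact ⟨1, fun r => by
      unfold wordProd
      rw [List.map_nil, List.prod_nil, map_one, map_one]⟩
  | cons a l ih =>
    obtain ⟨δ, hδ⟩ := ih
    have hc : ∀ r : Γ →* A.LGroup R, wordProd (FGdfam ρ M r) (a :: l) =
        FGdfam ρ M r a * wordProd (FGdfam ρ M r) l := by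
      intro r
      unfold wordProd
      rw [List.map_cons, List.prod_cons]
    rcases a with γ | γ
    · refine ⟨γ * δ, fun r => ?_⟩
      rw [hc, hδ, map_mul, map_mul]
      rfl
    · refine ⟨(γ : Γ)⁻¹ * δ, fun r => ?_⟩
      rw [hc, hδ, map_mul, map_mul, map_inv]
      rfl

/-- `integral_fam` (F0a.lean) for one homomorphism with values in `ᴸG(E)`, `E` an arbitrary `ℚ`-algebra. Same proof
(copy the proof and the private lemmas of F0a.lean, renamed), with `theorem_I_gen` in place of `theorem_I`. -/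
theorem integral_fam_gen {G : Red n} (hG : IsRedG ρ G) (TD : TensorData G) {E : Type} [CommRing E]
    [Algebra ℚ E] (r : Γ →* A.LGroup E) (hr : ∀ γ, (r γ).right = γ) (B : Subalgebra ℚ E)
    (hB : ∀ γ, ∀ f ∈ A.inv γ, (r γ).left.hom f ∈ B)
    (p : MvPolynomial ((mats (Γ ⊕ Γ)).Ix n) ℚ) (hp : IsInv G p) :
    IsIntegral B (aeval (toMats (fam ρ r)) p) := by
  obtain ⟨M₀, p₀, hp₀, rfl⟩ := exists_finset_rename G p hp
  set M := FGdM M₀ with hM
  set p₁ : MvPolynomial ((mats ({x // x ∈ M} ⊕ {x // x ∈ M})).Ix n) ℚ :=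
    rename (ixMap (FGdj M₀)) p₀ with hp₁
  have hinv : IsInv G p₁ := by
    intro R _ _ k k' hk t
    obtain ⟨v, rfl⟩ := exists_toMats t
    rw [act_toMats, hp₁, aeval_rename_ixMap, aeval_rename_ixMap]
    have := hp₀ R k k' hk (toMats fun m => v (FGdj M₀ m))
    rw [act_toMats] at this
    exact this
  obtain ⟨F, hF, hFe⟩ := extend_conj_inv G TD p₁ hinv
  let D : {x // x ∈ M} → (b : TD.s.β) → TD.s.C b → TD.s.C b → ℚ := fun m => Dm ρ hG TD m.1
  have hTI : TICond TD.s D (FGdfam ρ M r) (fun x => algebraMap ℚ E (TD.T₀ x)) := by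
    intro m
    refine ⟨ev_mul_inv ρ (r m.1), ev_inv_mul ρ (r m.1), ?_⟩
    have h1 := act_ev ρ hG TD (r m.1)
    rw [hr m.1] at h1
    exact h1
  have hint := theorem_I_gen D TD.T₀ F hF (FGdfam ρ M r) hTI
  have hle : Algebra.adjoin ℚ {φ : E | ∃ l : List ({x // x ∈ M} ⊕ {x // x ∈ M}),
      φ = (wordProd (FGdfam ρ M r) l).trace} ≤ B := by
    rw [Algebra.adjoin_le_iff]
    rintro _ ⟨l, rfl⟩
    obtain ⟨δ, hδ⟩ := FGd_word ρ (R := E) M l
    have h2 : (wordProd (FGdfam ρ M r) l).trace = (r δ).left.hom (ρ.trF δ) := by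
      rw [hδ r, ← ρ.trF_eval, hr δ]
    rw [h2]
    exact hB δ _ (ρ.trF_mem δ)
  have hfun : aeval (toMats (fam ρ r)) (rename (ixMap Subtype.val) p₀) =
      aeval (toTot (FGdfam ρ M r) (fun x => algebraMap ℚ E (TD.T₀ x))) F := by
    have h3 := hFe E (FGdfam ρ M r)
    refine Eq.trans ?_ h3.symm
    rw [aeval_rename_ixMap, hp₁, aeval_rename_ixMap]
    have h4 : (fun m : {x // x ∈ M₀} => fam ρ r m.1) =
        fun m => FGdfam ρ M r (FGdj M₀ m) := by
      funext m
      exact (FGd_fam ρ M₀ r m).symm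
    rw [h4]
  rw [hfun]
  obtain ⟨f, hf, hf0⟩ := hint
  refine ⟨f.map (Subalgebra.inclusion hle).toRingHom, hf.map _, ?_⟩
  rw [Polynomial.eval₂_map]
  exact hf0

end Pool.Agent.Lib.MP_666dc0_nt.IG
end

section

open MvPolynomial

namespace Pool.Agent.Lib.MP_666dc0_nt.IG

variable {n : ℕ} {s : Shape}

/-- A polynomial over a field of characteristic zero which takes only finitely many values on `ℕ` is
constant (one value is taken infinitely often). -/
theorem poly_const_of_finite {K : Type} [Field K] [CharZero K] (Q : Polynomial K)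
    (h : (Set.range fun m : ℕ => Q.eval (m : K)).Finite) : Q.eval 1 = Q.eval 0 := by
  classical
  have hfin : Finite (Set.range fun m : ℕ => Q.eval (m : K)) := h.to_subtype
  obtain ⟨y, hy⟩ := Finite.exists_infinite_fiber
    (fun m : ℕ => (⟨Q.eval (m : K), ⟨m, rfl⟩⟩ : Set.range fun m : ℕ => Q.eval (m : K)))
  have hinf : Set.Infinite {m : ℕ | Q.eval (m : K) = y.1} := by
    rw [Set.infinite_coe_iff] at hy
    refine hy.mono ?_
    intro m hm
    exact congrArg Subtype.val hm
  have h1 : Set.Infinite {t : K | Q.eval t = (Polynomial.C y.1).eval t} := by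
    have h2 := hinf.image (f := fun m : ℕ => (m : K)) (fun a _ b _ hab => Nat.cast_injective hab)
    refine h2.mono ?_
    rintro _ ⟨m, hm, rfl⟩
    simpa using hm
  have h3 := Polynomial.eq_of_infinite_eval_eq _ _ h1
  rw [h3]
  simp

/-- The powers of `1 + x`, `x` nilpotent, are polynomial in the exponent:
`(1 + x)^m = ∑_{k<N} (m choose k) x^k`, and `m choose k` is a polynomial in `m` (over a field of
characteristic zero; `descPochhammer`). -/
theorem pow_poly {K : Type} [Field K] [CharZero K] (x : Matrix (Fin n) (Fin n) K) {N : ℕ}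
    (hx : x ^ N = 0) : ∃ Q : Matrix (Fin n) (Fin n) (Polynomial K), ∀ m : ℕ,
      (1 + x) ^ m = Q.map (Polynomial.eval (m : K)) := by
  classical
  refine ⟨Matrix.of fun a b => ∑ k ∈ Finset.range N,
    Polynomial.C ((k.factorial : K)⁻¹ * (x ^ k) a b) * descPochhammer K k, fun m => ?_⟩
  have h0 : ∀ k, N ≤ k → x ^ k = 0 := fun k hk => by
    rw [← Nat.sub_add_cancel hk, pow_add, hx, mul_zero]
  have h1 : (1 + x) ^ m = ∑ k ∈ Finset.range N, (m.choose k : K) • x ^ k := by
    have h2 : (1 + x) ^ m = ∑ k ∈ Finset.range (m + 1), (m.choose k : K) • x ^ k := by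
      rw [add_comm, (Commute.one_right x).add_pow]
      refine Finset.sum_congr rfl fun k _ => ?_
      rw [one_pow, mul_one, Nat.cast_smul_eq_nsmul, nsmul_eq_mul]
      exact (Nat.cast_commute _ _).symm
    have h3 : ∑ k ∈ Finset.range (m + 1), (m.choose k : K) • x ^ k =
        ∑ k ∈ Finset.range (m + 1 + N), (m.choose k : K) • x ^ k := by
      refine Finset.sum_subset (Finset.range_mono (Nat.le_add_right _ _)) fun k _ hk => ?_
      rw [Finset.mem_range, not_lt] at hk
      rw [Nat.choose_eq_zero_of_lt hk, Nat.cast_zero, zero_smul]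
    have h4 : ∑ k ∈ Finset.range N, (m.choose k : K) • x ^ k =
        ∑ k ∈ Finset.range (m + 1 + N), (m.choose k : K) • x ^ k := by
      refine Finset.sum_subset (Finset.range_mono (Nat.le_add_left _ _)) fun k _ hk => ?_
      rw [Finset.mem_range, not_lt] at hk
      rw [h0 k hk, smul_zero]
    rw [h2, h3, h4]
  rw [h1]
  ext a b
  rw [Matrix.sum_apply, Matrix.map_apply, Matrix.of_apply, Polynomial.eval_finsetSum]
  refine Finset.sum_congr rfl fun k _ => ?_
  rw [Polynomial.eval_mul, Polynomial.eval_C, descPochhammer_eval_eq_descFactorial,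
    Matrix.smul_apply, smul_eq_mul, Nat.descFactorial_eq_factorial_mul_choose]
  have hk : (k.factorial : K) ≠ 0 := Nat.cast_ne_zero.mpr (Nat.factorial_ne_zero k)
  push_cast
  field_simp

/-- Functions integral over an algebra of constants (rational multiples of `1`) take finitely many values. -/
theorem finite_range_of_integral {K : Type} [Field K] [Algebra ℚ K] {Z : Type} (S : Set (Z → K))
    (hS : ∀ φ ∈ S, ∃ c : ℚ, φ = fun _ => algebraMap ℚ K c) (f : Z → K)
    (hf : IsIntegral (Algebra.adjoin ℚ S) f) : (Set.range f).Finite := by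
  classical
  rcases isEmpty_or_nonempty Z with hZ | ⟨⟨z₀⟩⟩
  · exact Set.finite_range f
  obtain ⟨P, hP, hP0⟩ := hf
  have hconst : ∀ φ ∈ Algebra.adjoin ℚ S, ∃ c : ℚ, φ = fun _ => algebraMap ℚ K c := by
    intro φ hφ
    have h1 : Algebra.adjoin ℚ S ≤ (⊥ : Subalgebra ℚ (Z → K)) := by
      refine Algebra.adjoin_le fun ψ hψ => ?_
      obtain ⟨c, hc⟩ := hS ψ hψ
      exact Algebra.mem_bot.mpr ⟨c, hc.symm⟩
    obtain ⟨c, hc⟩ := Algebra.mem_bot.mp (h1 hφ)
    exact ⟨c, hc.symm⟩
  let g : Z → (Algebra.adjoin ℚ S →+* K) := fun z =>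
    (Pi.evalRingHom (fun _ : Z => K) z).comp (algebraMap (Algebra.adjoin ℚ S) (Z → K))
  have hg : ∀ z, g z = g z₀ := by
    intro z
    ext a
    obtain ⟨c, hc⟩ := hconst a.1 a.2
    change a.1 z = a.1 z₀
    rw [hc]
  refine Set.Finite.subset (P.map (g z₀)).roots.toFinset.finite_toSet ?_
  rintro _ ⟨z, rfl⟩
  rw [Finset.mem_coe, Multiset.mem_toFinset, Polynomial.mem_roots (hP.map _).ne_zero,
    Polynomial.IsRoot.def, Polynomial.eval_map, ← hg z]
  have h2 := Polynomial.hom_eval₂ P (algebraMap (Algebra.adjoin ℚ S) (Z → K))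
    (Pi.evalRingHom (fun _ : Z => K) z) f
  rw [hP0, map_zero] at h2
  exact h2.symm

end Pool.Agent.Lib.MP_666dc0_nt.IG
end

section

open MvPolynomial

namespace Pool.Agent.Lib.MP_666dc0_nt.IG

variable {n : ℕ} {s : Shape}

/-- GB4. Unipotent elements fixing `T₀` are in the null cone relative to `T₀`. `theorem_I` with
`Z = ℕ`, `v m = ((1 + x j)^m, (w j)^m)` and the trivial matrices `D` (`mix` with the identity matrix); word
traces are constant functions by `hword` (a word in the powers is a word in the `1 + x j`, `w j`), so the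
function `m ↦ P(v m, T₀) = p((1 + x j)^m - 1, T₀)` has finite range (`finite_range_of_integral`) and is
polynomial in `m` (`pow_poly`), so its values at `m = 1` and `m = 0` agree (`poly_const_of_finite`). -/
theorem nullcone [s.Small] {K : Type} [Field K] [IsAlgClosed K] [CharZero K] [Algebra ℚ K]
    {J : Type} [Fintype J] (T₀ : s.Ix n → ℚ) (x w : J → Matrix (Fin n) (Fin n) K)
    (hx : ∀ j, x j ^ n = 0) (h1 : ∀ j, (1 + x j) * w j = 1) (h2 : ∀ j, w j * (1 + x j) = 1)
    (hT : ∀ j, act (1 + x j) (w j) (inA K T₀) = inA K T₀)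
    (hword : ∀ l : List (J ⊕ J), (wordProd (Sum.elim (fun j => 1 + x j) w) l).trace = n)
    (p : MvPolynomial ((tot J s).Ix n) ℚ) (hp : IsInv (redGL n) p) :
    aeval (toTot x (inA K T₀)) p = aeval (toTot 0 (inA K T₀)) p := by
  classical
  obtain ⟨P, hP, hPv⟩ := exists_shift (s := s) p hp
  let D : J → (b : s.β) → s.C b → s.C b → ℚ := fun _ b c c' => if c = c' then 1 else 0
  let v : ℕ → J ⊕ J → Matrix (Fin n) (Fin n) K := fun m =>
    Sum.elim (fun j => (1 + x j) ^ m) (fun j => (w j) ^ m)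
  have hmix : ∀ j, mix (fun b c c' => algebraMap ℚ K (D j b c c')) (fun y => algebraMap ℚ K (T₀ y)) =
      fun y => algebraMap ℚ K (T₀ y) := by
    intro j
    funext y
    unfold mix
    rw [Finset.sum_eq_single y.2.1]
    · simp only [D, if_true, map_one, one_mul]
      rfl
    · intro c _ hc
      simp [D, hc.symm]
    · intro hc
      exact absurd (Finset.mem_univ _) hc
  have hact : ∀ j (m : ℕ), act ((1 + x j) ^ m) ((w j) ^ m) (inA K T₀) = inA K T₀ := by
    intro j m
    induction m with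
    | zero => rw [pow_zero, pow_zero, act_one]
    | succ m ih => rw [pow_succ, pow_succ', act_mul, hT j, ih]
  have hcomm : ∀ j, Commute (1 + x j) (w j) := fun j => by
    unfold Commute SemiconjBy
    rw [h1, h2]
  have hv : ∀ m, TICond s D (v m) (fun y => algebraMap ℚ K (T₀ y)) := by
    intro m j
    refine ⟨?_, ?_, ?_⟩
    · change (1 + x j) ^ m * (w j) ^ m = 1
      rw [← (hcomm j).mul_pow, h1, one_pow]
    · change (w j) ^ m * (1 + x j) ^ m = 1
      rw [← (hcomm j).symm.mul_pow, h2, one_pow]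
    · rw [hmix j]
      exact hact j m
  have hint := theorem_I D T₀ P hP ℕ v hv
  have happ : ∀ (u : J ⊕ J → Matrix (Fin n) (Fin n) K) (l₁ l₂ : List (J ⊕ J)),
      wordProd u (l₁ ++ l₂) = wordProd u l₁ * wordProd u l₂ := by
    intro u l₁ l₂
    unfold wordProd
    rw [List.map_append, List.prod_append]
  have hvp : ∀ m a, v m a = (Sum.elim (fun j => 1 + x j) w a) ^ m := by
    intro m a
    cases a <;> rfl
  have hrep : ∀ (m : ℕ) (l : List (J ⊕ J)), wordProd (v m) l =
      wordProd (Sum.elim (fun j => 1 + x j) w) (l.flatMap fun a => List.replicate m a) := by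
    intro m l
    induction l with
    | nil => rfl
    | cons a l ih =>
      rw [List.flatMap_cons, happ, ← ih]
      have h3 : wordProd (Sum.elim (fun j => 1 + x j) w) (List.replicate m a) = v m a := by
        unfold wordProd
        rw [List.map_replicate, List.prod_replicate, hvp]
      rw [h3]
      rfl
  have hfin := finite_range_of_integral (K := K) (Z := ℕ) _ (fun φ hφ => by
    obtain ⟨l, hl⟩ := hφ
    refine ⟨n, ?_⟩
    rw [hl]
    funext m
    rw [hrep, hword, map_natCast]) _ hint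
  choose Q hQ using fun j => pow_poly (x j) (hx j)
  let Qp : Polynomial K := aeval (toTot (fun j => Q j - 1)
    (fun y => (Polynomial.C (algebraMap ℚ K (T₀ y)) : Polynomial K))) p
  have hQp : ∀ m : ℕ, Qp.eval (m : K) =
      aeval (toTot (fun j => (1 + x j) ^ m - 1) (inA K T₀)) p := by
    intro m
    let φ : Polynomial K →ₐ[ℚ] K := (Polynomial.evalRingHom (m : K)).toRatAlgHom
    have h3 := map_toTot (M := J) (Polynomial.evalRingHom (m : K)) (fun j => Q j - 1)
      (fun y : s.Ix n => (Polynomial.C (algebraMap ℚ K (T₀ y)) : Polynomial K))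
    have h4 : (fun j : J => (Q j - 1).map (Polynomial.evalRingHom (m : K))) =
        fun j => (1 + x j) ^ m - 1 := by
      funext j
      rw [hQ j m]
      ext a b
      rcases eq_or_ne a b with hab | hab
      · simp [Matrix.map_apply, hab]
      · simp [Matrix.map_apply, Matrix.one_apply_ne hab]
    have h5 : (fun y : s.Ix n => (Polynomial.evalRingHom (m : K))
        (Polynomial.C (algebraMap ℚ K (T₀ y)) : Polynomial K)) = inA K T₀ := by
      funext y
      simp [inA]
    rw [h4, h5] at h3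
    change φ Qp = _
    rw [← h3]
    change φ (aeval _ p) = _
    rw [← AlgHom.comp_apply, comp_aeval]
    rfl
  have hfin2 : (Set.range fun m : ℕ => Qp.eval (m : K)).Finite := by
    convert hfin using 2
    funext m
    rw [hQp]
    exact (hPv K (v m) (inA K T₀)).symm
  have hfinal := poly_const_of_finite Qp hfin2
  have h10 := hQp 1
  have h00 := hQp 0
  rw [Nat.cast_one, hfinal] at h10
  rw [Nat.cast_zero] at h00
  rw [h00] at h10
  simp only [pow_zero, pow_one, sub_self, add_sub_cancel_left] at h10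
  exact h10.symm

end Pool.Agent.Lib.MP_666dc0_nt.IG
end
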