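import Pool.Agent.Lib.MP_666dc0_nt.IG.F0a
import Pool.Agent.Lib.MP_666dc0_nt.IG.GAa
import Pool.Agent.Lib.MP_666dc0_nt.Mg.G038

section

open MvPolynomial

namespace Pool.Agent.Lib.MP_666dc0_nt.IG

variable {O : Type} [CommRing O] [HopfAlgebra ℚ O] {Γ : Type} [Group Γ] {A : HopfAction Γ O}
  {n : ℕ} (ρ : MatRep A n)

private def FGe_cond (G : Red n) {S : Type} [CommRing S] [Algebra ℚ S]
    (w : Γ ⊕ Γ → Matrix (Fin n) (Fin n) S) : Prop :=
  (∀ γ δ, w (Sum.inl γ) * w (Sum.inl δ) = w (Sum.inl (γ * δ))) ∧ w (Sum.inl 1) = 1 ∧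
    (∀ γ, w (Sum.inl γ) * w (Sum.inr γ) = 1) ∧
    ∀ γ, G.In S (w (Sum.inl γ) * ρ.pm S γ⁻¹) (ρ.pm S γ * w (Sum.inr γ))

/-- `hom_of_relations` (F0c.lean) for one homomorphism with values in `ᴸG(E)`, `E` an arbitrary `ℚ`-algebra. Same proof as
in F0c.lean (copy it), simpler: `M = fam ρ r` are matrices over `E` (in place of matrices over `Z → K`); the
identities `m1`-`m4` follow directly from `map_mul`, `map_one`, `ev_mul_inv`, `in_of_ev`. -/
theorem hom_of_relations_gen {G : Red n} (hG : IsRedG ρ G) {E : Type} [CommRing E] [Algebra ℚ E]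
    (r : Γ →* A.LGroup E) (hr : ∀ γ, (r γ).right = γ) {Ω : Type} [Field Ω]
    [Algebra ℚ Ω] (v : Γ ⊕ Γ → Matrix (Fin n) (Fin n) Ω)
    (ht : ∀ p : MvPolynomial ((mats (Γ ⊕ Γ)).Ix n) ℚ,
      (∀ (E' : Type) [CommRing E'] [Algebra ℚ E'] [Algebra E E']
        (k k' : Matrix (Fin n) (Fin n) E'), G.In E' k k' →
        aeval (act k k' (fun x => algebraMap E E' (toMats (fam ρ r) x))) p = 0) →
      aeval (toMats v) p = 0) :
    ∃ w : Γ →* Matrix (Fin n) (Fin n) Ω, (∀ γ, w γ = v (Sum.inl γ)) ∧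
      (∀ γ, w γ⁻¹ = v (Sum.inr γ)) ∧ ∀ γ, G.In Ω (w γ * ρ.pm Ω γ⁻¹) (ρ.pm Ω γ * w γ⁻¹) := by
  classical
  have hg : ∀ {S : Type} [CommRing S] [Algebra ℚ S] (w : Γ ⊕ Γ → Matrix (Fin n) (Fin n) S)
      (m : Γ ⊕ Γ), (gmat n m).map (aeval (R := ℚ) (toMats w)) = w m := by
    intro S _ _ w m
    ext i j
    exact aeval_X (R := ℚ) (toMats w) (⟨(), m, fun _ => i, fun _ => j⟩ : (mats (Γ ⊕ Γ)).Ix n)
  have hC : ∀ {S : Type} [CommRing S] [Algebra ℚ S] (w : Γ ⊕ Γ → Matrix (Fin n) (Fin n) S)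
      (δ : Γ), ((ρ.P δ).map (C : ℚ → MvPolynomial ((mats (Γ ⊕ Γ)).Ix n) ℚ)).map
      (aeval (R := ℚ) (toMats w)) = ρ.pm S δ := by
    intro S _ _ w δ
    ext i j
    exact aeval_C (R := ℚ) (toMats w) (ρ.P δ i j)
  have key : ∀ (q : MvPolynomial (PV n) ℚ) {S T : Type} [CommRing S] [Algebra ℚ S] [CommRing T]
      [Algebra ℚ T] (φ : S →ₐ[ℚ] T) (U U' : Matrix (Fin n) (Fin n) S),
      φ (aeval (evp U U') q) = aeval (evp (U.map φ) (U'.map φ)) q := by
    intro q S T _ _ _ _ φ U U'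
    rw [MvPolynomial.comp_aeval_apply]
    have h3 : (fun i => φ (evp U U' i)) = evp (U.map φ) (U'.map φ) := by
      funext i
      rcases i with i | i <;> rfl
    rw [h3]
  obtain ⟨M, hM⟩ : ∃ M : Γ ⊕ Γ → Matrix (Fin n) (Fin n) E, M = fam ρ r := ⟨_, rfl⟩
  have m1 : ∀ γ δ : Γ, M (Sum.inl γ) * M (Sum.inl δ) = M (Sum.inl (γ * δ)) := by
    intro γ δ
    rw [hM]
    change ρ.ev E (r γ) * ρ.ev E (r δ) = ρ.ev E (r (γ * δ))
    rw [← map_mul, ← map_mul]
  have m2 : M (Sum.inl 1) = 1 := by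
    rw [hM]
    change ρ.ev E (r 1) = 1
    rw [map_one, map_one]
  have m3 : ∀ γ : Γ, M (Sum.inl γ) * M (Sum.inr γ) = 1 := by
    intro γ
    rw [hM]
    exact ev_mul_inv ρ (r γ)
  have m4 : ∀ γ : Γ, G.In E (M (Sum.inl γ) * ρ.pm E γ⁻¹) (ρ.pm E γ * M (Sum.inr γ)) := by
    intro γ
    have h2 := in_of_ev ρ hG (r γ)
    rw [hr] at h2
    rw [hM]
    exact h2
  have horb : ∀ (E' : Type) [CommRing E'] [Algebra ℚ E'] [Algebra E E']
      (k k' : Matrix (Fin n) (Fin n) E'),
      act k k' (fun x => algebraMap E E' (toMats (fam ρ r) x)) =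
      toMats (fun m => k * (M m).map (algebraMap E E') * k') := by
    intro E' _ _ _ k k'
    rw [← act_toMats]
    have h1 : (fun x : (mats (Γ ⊕ Γ)).Ix n => algebraMap E E' (toMats (fam ρ r) x)) =
        toMats (fun m => (M m).map (algebraMap E E')) := by
      funext x
      rcases x with ⟨u, m, I, J⟩
      rw [hM]
      rfl
    rw [h1]
  have hmain : ∀ p : MvPolynomial ((mats (Γ ⊕ Γ)).Ix n) ℚ,
      (∀ (S : Type) [CommRing S] [Algebra ℚ S] (w : Γ ⊕ Γ → Matrix (Fin n) (Fin n) S),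
        FGe_cond ρ G w → aeval (toMats w) p = 0) → aeval (toMats v) p = 0 := by
    intro p hp
    refine ht p fun E' _ _ _ k k' hk => ?_
    rw [horb]
    refine hp E' _ ?_
    obtain ⟨hkk, hkk'⟩ := G.in_inv E' k k' hk
    have hsc : IsScalarTower ℚ E E' := IsScalarTower.of_algebraMap_eq' (RingHom.ext_rat _ _)
    obtain ⟨ψ, hψ⟩ : ∃ ψ : E →ₐ[ℚ] E', ∀ f, ψ f = algebraMap E E' f :=
      ⟨IsScalarTower.toAlgHom ℚ E E', fun f => rfl⟩
    have hmap : ∀ B : Matrix (Fin n) (Fin n) E, B.map (algebraMap E E') = B.map ψ := by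
      intro B
      ext i j
      exact (hψ _).symm
    have hmm : ∀ A B : Matrix (Fin n) (Fin n) E,
        A.map (algebraMap E E') * B.map (algebraMap E E') =
          (A * B).map (algebraMap E E') := fun A B => Matrix.map_mul.symm
    have hmid : ∀ A B : Matrix (Fin n) (Fin n) E,
        k * A.map (algebraMap E E') * k' * (k * B.map (algebraMap E E') * k') =
          k * (A * B).map (algebraMap E E') * k' := by
      intro A B
      rw [← hmm]
      calc k * A.map (algebraMap E E') * k' * (k * B.map (algebraMap E E') * k')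
          = k * A.map (algebraMap E E') * (k' * k) * B.map (algebraMap E E') * k' := by
            simp only [mul_assoc]
        _ = _ := by rw [hkk', mul_one]; simp only [mul_assoc]
    have hone : k * (1 : Matrix (Fin n) (Fin n) E).map (algebraMap E E') * k' = 1 := by
      rw [Matrix.map_one _ (map_zero _) (map_one _), mul_one, hkk]
    refine ⟨fun γ δ => ?_, ?_, fun γ => ?_, fun γ => ?_⟩
    · change k * (M (Sum.inl γ)).map (algebraMap E E') * k' *
        (k * (M (Sum.inl δ)).map (algebraMap E E') * k') = _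
      rw [hmid, m1]
    · change k * (M (Sum.inl 1)).map (algebraMap E E') * k' = 1
      rw [m2, hone]
    · change k * (M (Sum.inl γ)).map (algebraMap E E') * k' *
        (k * (M (Sum.inr γ)).map (algebraMap E E') * k') = 1
      rw [hmid, m3, hone]
    · change G.In E' (k * (M (Sum.inl γ)).map (algebraMap E E') * k' * ρ.pm E' γ⁻¹)
        (ρ.pm E' γ * (k * (M (Sum.inr γ)).map (algebraMap E E') * k'))
      have i1 : G.In E' ((M (Sum.inl γ)).map (algebraMap E E') * ρ.pm E' γ⁻¹)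
          (ρ.pm E' γ * (M (Sum.inr γ)).map (algebraMap E E')) := by
        intro q hq
        have h1 := key q ψ (M (Sum.inl γ) * ρ.pm E γ⁻¹) (ρ.pm E γ * M (Sum.inr γ))
        rw [m4 γ q hq, map_zero, Matrix.map_mul, Matrix.map_mul, MatRep.pm_map, MatRep.pm_map,
          ← hmap, ← hmap] at h1
        exact h1.symm
      obtain ⟨x, hx, hx'⟩ := (hG E' k' k).1 (G.in_symm E' k k' hk)
      have hP1 : ρ.pm E' γ * ρ.pm E' γ⁻¹ = 1 := ρ.pm_mul_pm_inv γ
      have hP2 : ρ.pm E' γ⁻¹ * ρ.pm E' γ = 1 := ρ.pm_inv_mul_pm γ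
      have i2 : G.In E' (ρ.pm E' γ * k' * ρ.pm E' γ⁻¹) (ρ.pm E' γ * k * ρ.pm E' γ⁻¹) := by
        refine (hG E' _ _).2 ⟨A.onPts E' γ x, ?_, ?_⟩
        · rw [← hx, ρ.pm_mul_gm, mul_assoc, hP1, mul_one]
        · rw [← map_inv, ← hx', ρ.pm_mul_gm, mul_assoc, hP1, mul_one]
      have i3 := G.in_mul E' _ _ _ _ (G.in_mul E' _ _ _ _ hk i1) i2
      have e1 : k * ((M (Sum.inl γ)).map (algebraMap E E') * ρ.pm E' γ⁻¹) *
          (ρ.pm E' γ * k' * ρ.pm E' γ⁻¹) =
          k * (M (Sum.inl γ)).map (algebraMap E E') * k' * ρ.pm E' γ⁻¹ := by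
        calc k * ((M (Sum.inl γ)).map (algebraMap E E') * ρ.pm E' γ⁻¹) *
            (ρ.pm E' γ * k' * ρ.pm E' γ⁻¹)
            = k * (M (Sum.inl γ)).map (algebraMap E E') * (ρ.pm E' γ⁻¹ * ρ.pm E' γ) * k' *
              ρ.pm E' γ⁻¹ := by simp only [mul_assoc]
          _ = _ := by rw [hP2, mul_one]
      have e2 : ρ.pm E' γ * k * ρ.pm E' γ⁻¹ *
          (ρ.pm E' γ * (M (Sum.inr γ)).map (algebraMap E E') * k') =
          ρ.pm E' γ * (k * (M (Sum.inr γ)).map (algebraMap E E') * k') := by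
        calc ρ.pm E' γ * k * ρ.pm E' γ⁻¹ *
            (ρ.pm E' γ * (M (Sum.inr γ)).map (algebraMap E E') * k')
            = ρ.pm E' γ * k * (ρ.pm E' γ⁻¹ * ρ.pm E' γ) *
              (M (Sum.inr γ)).map (algebraMap E E') * k' := by simp only [mul_assoc]
          _ = _ := by rw [hP2, mul_one]; simp only [mul_assoc]
      rw [e1, e2] at i3
      exact i3
  -- relations between matrices
  have hrel : ∀ (A B : Matrix (Fin n) (Fin n) (MvPolynomial ((mats (Γ ⊕ Γ)).Ix n) ℚ)),
      (∀ (S : Type) [CommRing S] [Algebra ℚ S] (w : Γ ⊕ Γ → Matrix (Fin n) (Fin n) S),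
        FGe_cond ρ G w → A.map (aeval (R := ℚ) (toMats w)) = B.map (aeval (R := ℚ) (toMats w))) →
      A.map (aeval (R := ℚ) (toMats v)) = B.map (aeval (R := ℚ) (toMats v)) := by
    intro A B h
    ext i j
    have h1 := hmain (A i j - B i j) fun S _ _ w hw => by
      rw [map_sub, sub_eq_zero]
      exact congrFun (congrFun (h S w hw) i) j
    rw [map_sub, sub_eq_zero] at h1
    exact h1
  have r1 : ∀ γ δ, v (Sum.inl γ) * v (Sum.inl δ) = v (Sum.inl (γ * δ)) := by
    intro γ δ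
    have h1 := hrel (gmat n (Sum.inl γ) * gmat n (Sum.inl δ)) (gmat n (Sum.inl (γ * δ)))
      fun S _ _ w hw => by
        rw [Matrix.map_mul, hg, hg, hg]
        exact hw.1 γ δ
    rwa [Matrix.map_mul, hg, hg, hg] at h1
  have r2 : v (Sum.inl 1) = 1 := by
    have h1 := hrel (gmat n (Sum.inl 1)) 1 fun S _ _ w hw => by
      rw [hg, Matrix.map_one _ (map_zero _) (map_one _)]
      exact hw.2.1
    rwa [hg, Matrix.map_one _ (map_zero _) (map_one _)] at h1
  have r3 : ∀ γ, v (Sum.inl γ) * v (Sum.inr γ) = 1 := by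
    intro γ
    have h1 := hrel (gmat n (Sum.inl γ) * gmat n (Sum.inr γ)) 1 fun S _ _ w hw => by
      rw [Matrix.map_mul, hg, hg, Matrix.map_one _ (map_zero _) (map_one _)]
      exact hw.2.2.1 γ
    rwa [Matrix.map_mul, hg, hg, Matrix.map_one _ (map_zero _) (map_one _)] at h1
  have r4 : ∀ γ, G.In Ω (v (Sum.inl γ) * ρ.pm Ω γ⁻¹) (ρ.pm Ω γ * v (Sum.inr γ)) := by
    intro γ q hq
    have h0 : ∀ {S : Type} [CommRing S] [Algebra ℚ S] (w : Γ ⊕ Γ → Matrix (Fin n) (Fin n) S),
        aeval (toMats w) (aeval (evp (gmat n (Sum.inl γ) * (ρ.P γ⁻¹).map C)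
          ((ρ.P γ).map C * gmat n (Sum.inr γ))) q) =
          aeval (evp (w (Sum.inl γ) * ρ.pm S γ⁻¹) (ρ.pm S γ * w (Sum.inr γ))) q := by
      intro S _ _ w
      rw [key q (aeval (toMats w)), Matrix.map_mul, Matrix.map_mul, hg, hg, hC, hC]
    rw [← h0]
    refine hmain _ fun S _ _ w hw => ?_
    rw [h0]
    exact hw.2.2.2 γ q hq
  have r5 : ∀ γ : Γ, v (Sum.inl γ⁻¹) = v (Sum.inr γ) := by
    intro γ
    calc v (Sum.inl γ⁻¹) = v (Sum.inl γ⁻¹) * (v (Sum.inl γ) * v (Sum.inr γ)) := by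
          rw [r3, mul_one]
      _ = v (Sum.inr γ) := by rw [← mul_assoc, r1, inv_mul_cancel, r2, one_mul]
  refine ⟨⟨⟨fun γ => v (Sum.inl γ), r2⟩, fun γ δ => (r1 γ δ).symm⟩, fun γ => rfl, fun γ => r5 γ,
    fun γ => ?_⟩
  change G.In Ω (v (Sum.inl γ) * ρ.pm Ω γ⁻¹) (ρ.pm Ω γ * v (Sum.inl γ⁻¹))
  rw [r5]
  exact r4 γ

end Pool.Agent.Lib.MP_666dc0_nt.IG
end

section

open MvPolynomial

namespace Pool.Agent.Lib.MP_666dc0_nt.IG

variable {O : Type} [CommRing O] [HopfAlgebra ℚ O] {Γ : Type} [Group Γ] {A : HopfAction Γ O}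
  {n : ℕ} (ρ : MatRep A n)

/-- A matrix all of whose positive powers have trace zero is nilpotent. -/
private theorem GBa_isNilpotent_of_trace {K : Type*} [Field K] [CharZero K] {n : ℕ}
    (X : Matrix (Fin n) (Fin n) K)
    (h : ∀ k : ℕ, 1 ≤ k → (X ^ k).trace = 0) : IsNilpotent X := by
  classical
  let B := Algebra.adjoin K ({X} : Set (Matrix (Fin n) (Fin n) K))
  let x : B := ⟨X, Algebra.subset_adjoin rfl⟩
  have hcomm : ∀ a b : B, a * b = b * a := by
    intro a b
    have h1 : (a : Matrix (Fin n) (Fin n) K) * b = b * a := by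
      have ha := a.2
      have hb := b.2
      have hc : (b : Matrix (Fin n) (Fin n) K) ∈ Subalgebra.centralizer K {X} := by
        refine (Algebra.adjoin_le ?_ : B ≤ Subalgebra.centralizer K {X}) hb
        rintro c rfl
        rw [SetLike.mem_coe, Subalgebra.mem_centralizer_iff]
        rintro d rfl; rfl
      have hd : (a : Matrix (Fin n) (Fin n) K) ∈ Subalgebra.centralizer K {(b : Matrix (Fin n) (Fin n) K)} := by
        refine (Algebra.adjoin_le ?_ : B ≤ _) ha
        rintro c rfl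
        rw [SetLike.mem_coe, Subalgebra.mem_centralizer_iff]
        rintro d rfl
        rw [Subalgebra.mem_centralizer_iff] at hc
        exact (hc _ rfl).symm
      rw [Subalgebra.mem_centralizer_iff] at hd
      exact (hd _ rfl).symm
    exact Subtype.ext h1
  have hart : IsArtinian K B := inferInstance
  have hart2 : IsArtinianRing B := IsArtinianRing.of_finite K B
  let cB : CommRing B := { (inferInstance : Ring B) with mul_comm := hcomm }
  have hart3 : IsArtinian B B := hart2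
  obtain ⟨m, y, hy⟩ := IsArtinian.exists_pow_succ_smul_dvd x (1 : B)
  rw [smul_eq_mul, smul_eq_mul, mul_one] at hy
  -- `x ^ (m + j) * y ^ j = x ^ m`
  have hj : ∀ j : ℕ, x ^ (m + j) * y ^ j = x ^ m := by
    intro j
    induction j with
    | zero => simp
    | succ j ih =>
      calc x ^ (m + (j + 1)) * y ^ (j + 1) = x ^ j * (x ^ m.succ * y) * y ^ j := by
            rw [Nat.succ_eq_add_one]; ring
        _ = x ^ (m + j) * y ^ j := by rw [hy]; ring
        _ = x ^ m := ih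
  let e : B := x ^ (m + 1) * y ^ (m + 1)
  have hee : e * e = e := by
    have h1 := hj (m + 2)
    calc e * e = x ^ (m + 1 + (m + 1)) * y ^ (m + 2) * y ^ m := by simp only [e]; ring
      _ = x ^ (m + (m + 2)) * y ^ (m + 2) * y ^ m := by congr 3; ring
      _ = x ^ m * y ^ m := by rw [h1]
      _ = (x ^ (m + 1) * y ^ 1) * y ^ m := by rw [hj 1]
      _ = e := by simp only [e]; ring
  -- elements of `x B` have trace zero
  have htr : ∀ b : B, ((x * b : B) : Matrix (Fin n) (Fin n) K).trace = 0 := by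
    intro b
    have h1 : ((b : B) : Matrix (Fin n) (Fin n) K) ∈ Submodule.span K (Set.range fun k : ℕ => X ^ k) := by
      have h2 := b.2
      rw [← Subalgebra.mem_toSubmodule, Algebra.adjoin_eq_span] at h2
      refine Submodule.span_mono ?_ h2
      intro z hz
      rw [SetLike.mem_coe, Submonoid.mem_closure_singleton] at hz
      obtain ⟨k, hk⟩ := hz
      exact ⟨k, hk⟩
    have h3 : Submodule.span K (Set.range fun k : ℕ => X ^ k) ≤
        LinearMap.ker ((Matrix.traceLinearMap (Fin n) K K) ∘ₗ LinearMap.mulLeft K X) := by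
      rw [Submodule.span_le]
      rintro _ ⟨k, rfl⟩
      rw [SetLike.mem_coe, LinearMap.mem_ker]
      change (X * X ^ k).trace = 0
      rw [← pow_succ']
      exact h (k + 1) (by omega)
    have h4 := h3 h1
    rw [LinearMap.mem_ker] at h4
    exact h4
  have he0 : (e : Matrix (Fin n) (Fin n) K).trace = 0 := by
    have h1 : e = x * (x ^ m * y ^ (m + 1)) := by simp only [e]; ring
    rw [h1]; exact htr _
  have hE : (e : Matrix (Fin n) (Fin n) K) = 0 := by
    have h1 : IsIdempotentElem (Matrix.toLin' (e : Matrix (Fin n) (Fin n) K)) := by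
      have h2 : (e : Matrix (Fin n) (Fin n) K) * e = e := congrArg Subtype.val hee
      change _ * _ = _
      rw [Module.End.mul_eq_comp, ← Matrix.toLin'_mul, h2]
    have h2 := LinearMap.IsIdempotentElem.eq_zero_of_trace_eq_zero h1 (by
      rw [Matrix.trace_toLin'_eq]; exact he0)
    exact (LinearEquiv.map_eq_zero_iff _).mp h2
  refine ⟨m, ?_⟩
  have h5 : x ^ m = x ^ m * e := by
    have h6 := hj (m + 1)
    calc x ^ m = x ^ (m + (m + 1)) * y ^ (m + 1) := h6.symm
      _ = x ^ m * e := by simp only [e]; ring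
  have h7 := congrArg Subtype.val h5
  change X ^ m = X ^ m * (e : Matrix (Fin n) (Fin n) K) at h7
  rw [h7, hE, mul_zero]

/-- The trace form with an element of the radical vanishes on the whole span. -/
private theorem GBa_trace_mul {Ω : Type} [CommRing Ω] [Algebra ℚ Ω] (r : Γ →* A.LGroup Ω) (κ : Type)
    [CommRing κ] [Algebra Ω κ] {M N : Matrix (Fin n) (Fin n) κ} (hM : NilR ρ r κ M)
    (hN : N ∈ spA ρ r κ) : (M * N).trace = 0 := by
  refine Submodule.span_induction (p := fun N _ => (M * N).trace = 0) ?_ ?_ ?_ ?_ hN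
  · rintro _ ⟨γ, rfl⟩
    exact hM.2 γ
  · rw [mul_zero, Matrix.trace_zero]
  · intro x y _ _ hx hy
    rw [mul_add, Matrix.trace_add, hx, hy, add_zero]
  · intro c x _ hx
    rw [mul_smul_comm, Matrix.trace_smul, hx, smul_zero]

private theorem GBa_evM_mem {Ω : Type} [CommRing Ω] [Algebra ℚ Ω] (r : Γ →* A.LGroup Ω) (κ : Type)
    [CommRing κ] [Algebra Ω κ] (γ : Γ) : evM ρ r κ γ ∈ spA ρ r κ :=
  Submodule.subset_span ⟨γ, rfl⟩

private theorem GBa_one_mem {Ω : Type} [CommRing Ω] [Algebra ℚ Ω] (r : Γ →* A.LGroup Ω) (κ : Type)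
    [CommRing κ] [Algebra Ω κ] : (1 : Matrix (Fin n) (Fin n) κ) ∈ spA ρ r κ := by
  rw [← evM_one ρ r κ]
  exact GBa_evM_mem ρ r κ 1

theorem NilR_mul_left {Ω : Type} [CommRing Ω] [Algebra ℚ Ω] (r : Γ →* A.LGroup Ω) (κ : Type)
    [CommRing κ] [Algebra Ω κ] {M N : Matrix (Fin n) (Fin n) κ} (hM : NilR ρ r κ M)
    (hN : N ∈ spA ρ r κ) : NilR ρ r κ (N * M) := by
  refine ⟨spA_mul ρ r κ hN hM.1, fun γ => ?_⟩
  rw [mul_assoc, Matrix.trace_mul_comm, mul_assoc]
  exact GBa_trace_mul ρ r κ hM (spA_mul ρ r κ (GBa_evM_mem ρ r κ γ) hN)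

theorem NilR_mul_right {Ω : Type} [CommRing Ω] [Algebra ℚ Ω] (r : Γ →* A.LGroup Ω) (κ : Type)
    [CommRing κ] [Algebra Ω κ] {M N : Matrix (Fin n) (Fin n) κ} (hM : NilR ρ r κ M)
    (hN : N ∈ spA ρ r κ) : NilR ρ r κ (M * N) := by
  refine ⟨spA_mul ρ r κ hM.1 hN, fun γ => ?_⟩
  rw [mul_assoc]
  exact GBa_trace_mul ρ r κ hM (spA_mul ρ r κ hN (GBa_evM_mem ρ r κ γ))

/-- Elements of the radical of the trace form are nilpotent: all `trace (M^k)`, `k ≥ 1`, vanish
(`M^(k-1)` is in the span), so the characteristic polynomial is `X^n` (characteristic zero). -/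
theorem NilR_pow {Ω : Type} [CommRing Ω] [Algebra ℚ Ω] (r : Γ →* A.LGroup Ω) (κ : Type)
    [Field κ] [CharZero κ] [Algebra Ω κ] {M : Matrix (Fin n) (Fin n) κ} (hM : NilR ρ r κ M) :
    M ^ n = 0 := by
  have hpow : ∀ k : ℕ, M ^ k ∈ spA ρ r κ := by
    intro k
    induction k with
    | zero =>
      rw [pow_zero]
      exact GBa_one_mem ρ r κ
    | succ k ih =>
      rw [pow_succ]
      exact spA_mul ρ r κ ih hM.1
  have hnil : IsNilpotent M := by
    refine GBa_isNilpotent_of_trace M fun k hk => ?_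
    obtain ⟨j, rfl⟩ := Nat.exists_eq_add_of_le' hk
    rw [pow_succ']
    exact GBa_trace_mul ρ r κ hM (hpow j)
  have h1 := Matrix.isNilpotent_charpoly_sub_pow_of_isNilpotent hnil
  have h2 : M.charpoly = Polynomial.X ^ n := by
    rw [← sub_eq_zero]
    have h3 := h1.eq_zero
    rwa [Fintype.card_fin] at h3
  have h4 := Matrix.aeval_self_charpoly M
  rwa [h2, map_pow, Polynomial.aeval_X] at h4

/-- Words in unipotent elements `u j`, `w j` with `u j - 1`, `w j - 1` in the radical have trace `n`. -/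
theorem NilR_word {Ω : Type} [CommRing Ω] [Algebra ℚ Ω] (r : Γ →* A.LGroup Ω) (κ : Type)
    [CommRing κ] [Algebra Ω κ] {J : Type} (v : J → Matrix (Fin n) (Fin n) κ)
    (hv : ∀ j, NilR ρ r κ (v j - 1)) (l : List J) : (wordProd v l).trace = n := by
  have h1 : NilR ρ r κ (wordProd v l - 1) := by
    induction l with
    | nil =>
      have e : wordProd v ([] : List J) - 1 = 0 := by
        change (1 : Matrix (Fin n) (Fin n) κ) - 1 = 0
        exact sub_self _
      rw [e]
      exact ⟨Submodule.zero_mem _, fun γ => by rw [zero_mul, Matrix.trace_zero]⟩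
    | cons j l ih =>
      have e : wordProd v (j :: l) - 1 = (v j - 1) * wordProd v l + (wordProd v l - 1) := by
        have e1 : wordProd v (j :: l) = v j * wordProd v l := by
          simp only [wordProd, List.map_cons, List.prod_cons]
        rw [e1]
        noncomm_ring
      have h2 : wordProd v l ∈ spA ρ r κ := by
        have h3 := Submodule.add_mem _ ih.1 (GBa_one_mem ρ r κ)
        rwa [sub_add_cancel] at h3
      have h4 := NilR_mul_right ρ r κ (hv j) h2
      rw [e]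
      refine ⟨Submodule.add_mem _ h4.1 ih.1, fun γ => ?_⟩
      rw [add_mul, Matrix.trace_add, h4.2 γ, ih.2 γ, add_zero]
  have h5 := h1.2 1
  rw [evM_one, mul_one, Matrix.trace_sub, Matrix.trace_one, Fintype.card_fin, sub_eq_zero] at h5
  exact h5

end Pool.Agent.Lib.MP_666dc0_nt.IG
end

section

open MvPolynomial

namespace Pool.Agent.Lib.MP_666dc0_nt.IG

/-- A nonzero algebra of finite type over an algebraically closed field has a point. -/
private theorem GCf_point (K : Type) [Field K] [IsAlgClosed K] (R : Type) [CommRing R]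
    [Nontrivial R] [Algebra K R] [Algebra.FiniteType K R] : Nonempty (R →ₐ[K] K) := by
  obtain ⟨m, hm⟩ := Ideal.exists_maximal R
  let _ : Field (R ⧸ m) := Ideal.Quotient.field m
  have hft : Algebra.FiniteType K (R ⧸ m) :=
    Algebra.FiniteType.of_surjective (Ideal.Quotient.mkₐ K m) Ideal.Quotient.mk_surjective
  have hfin : Module.Finite K (R ⧸ m) := finite_of_finite_type_of_isJacobsonRing K (R ⧸ m)
  have : Algebra.IsIntegral K (R ⧸ m) := Algebra.IsIntegral.of_finite K (R ⧸ m)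
  have hbij : Function.Bijective (Algebra.ofId K (R ⧸ m)) :=
    IsAlgClosed.algebraMap_bijective_of_isIntegral
  exact ⟨((AlgEquiv.ofBijective (Algebra.ofId K (R ⧸ m)) hbij).symm : (R ⧸ m) →ₐ[K] K).comp
    (Ideal.Quotient.mkₐ K m)⟩

variable {O : Type} [CommRing O] [HopfAlgebra ℚ O] {Γ : Type} [Group Γ] {A : HopfAction Γ O}
  {n : ℕ} (ρ : MatRep A n)

/-- I. Descent. Write `ev(r γ)_{ij} = ∑_l c_{ijl} φ_l(γ)` with finitely many `φ_l ∈ FK` and `c_{ijl} ∈ Ω`. The
conditions on unknown coefficients `c ∈ K^{n × n × M}` for `w γ := (∑_l c_{ijl} φ_l(γ))_{ij}`: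
`w 1 = 1`, `w (γ δ) = w γ * w δ`, `q (w γ P γ⁻¹, P γ w γ⁻¹) = 0` for `q ∈ G.J`, and
`p(w γ, w γ⁻¹) = V γ f` for the polynomials `p` of `exists_polyF`, are polynomial equations over `K`
with a solution in `Ω`, so they have a solution in `K` (`K` algebraically closed, finitely many variables:
the ideal generated by them in `MvPolynomial _ K` is proper, take a maximal ideal;
`MvPolynomial.isMaximal_iff_eq_vanishingIdeal_singleton`). `exists_hom` gives `r'`. -/
theorem descend {G : Red n} (hG : IsRedG ρ G) (hρ : Faithful ρ) {K : Type} [Field K]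
    [IsAlgClosed K] [Algebra ℚ K] {V : Γ → O → K} {Ω : Type} [Field Ω] [Algebra ℚ Ω] [Algebra K Ω]
    {r : Γ →* A.LGroup Ω} (h : HasVal A V Ω r) (FF : Subalgebra K (Γ → K))
    (hmem : ∀ i j, (fun γ => ρ.ev Ω (r γ) i j) ∈ Submodule.span Ω
      {f : Γ → Ω | ∃ φ ∈ FF, f = fun γ => algebraMap K Ω (φ γ)}) :
    ∃ r' : Γ →* A.LGroup K, HasVal A V K r' ∧ ∀ i j, (fun γ => ρ.ev K (r' γ) i j) ∈ FF := by
  classical
  choose N c g hg using fun i j => Submodule.mem_span_set'.1 (hmem i j)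
  choose φ hφ hφe using fun i j l => (g i j l).2
  have hev : ∀ γ i j, ρ.ev Ω (r γ) i j = ∑ l, c i j l * algebraMap K Ω (φ i j l γ) := by
    intro γ i j
    have h1 := congrFun (hg i j) γ
    rw [← h1, Finset.sum_apply]
    refine Finset.sum_congr rfl fun l _ => ?_
    rw [Pi.smul_apply, smul_eq_mul, hφe]
  -- the algebra generated by the coefficients
  let S : Set Ω := Set.range fun x : (Σ ij : Fin n × Fin n, Fin (N ij.1 ij.2)) =>
    c x.1.1 x.1.2 x.2
  have hS : S.Finite := Set.finite_range _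
  let R : Subalgebra K Ω := Algebra.adjoin K S
  have hcR : ∀ i j l, c i j l ∈ R := fun i j l =>
    Algebra.subset_adjoin ⟨⟨(i, j), l⟩, rfl⟩
  have hft : Algebra.FiniteType K R := by
    rw [← Subalgebra.fg_iff_finiteType]
    exact Subalgebra.fg_def.2 ⟨S, hS, rfl⟩
  obtain ⟨ψ⟩ := GCf_point K R
  let _ : Algebra ℚ R := ((algebraMap K R).comp (algebraMap ℚ K)).toAlgebra
  let incl : R →ₐ[ℚ] Ω := (R.val : R →+* Ω).toRatAlgHom
  let ψQ : R →ₐ[ℚ] K := (ψ : R →+* K).toRatAlgHom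
  have hincl : Function.Injective incl := Subtype.val_injective
  have hinclK : ∀ x : K, incl (algebraMap K R x) = algebraMap K Ω x := fun _ => rfl
  have hmapinj : Function.Injective
      (fun M : Matrix (Fin n) (Fin n) R => M.map incl) := Matrix.map_injective hincl
  let vf : Γ → Matrix (Fin n) (Fin n) R := fun γ => Matrix.of fun i j =>
    ∑ l, (⟨c i j l, hcR i j l⟩ : R) * algebraMap K R (φ i j l γ)
  have hvfa : ∀ γ i j, vf γ i j =
    ∑ l, (⟨c i j l, hcR i j l⟩ : R) * algebraMap K R (φ i j l γ) := fun _ _ _ => rfl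
  have hvf : ∀ γ, (vf γ).map incl = ρ.ev Ω (r γ) := by
    intro γ
    ext i j
    rw [Matrix.map_apply, hev γ i j, hvfa, map_sum]
    refine Finset.sum_congr rfl fun l _ => ?_
    rw [map_mul, hinclK]
    rfl
  let v : Γ →* Matrix (Fin n) (Fin n) R :=
    { toFun := vf
      map_one' := by
        apply hmapinj
        change (vf 1).map incl = (1 : Matrix (Fin n) (Fin n) R).map incl
        rw [hvf, map_one, map_one, Matrix.map_one _ (map_zero _) (map_one _)]
      map_mul' := by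
        intro x y
        apply hmapinj
        change (vf (x * y)).map incl = (vf x * vf y).map incl
        rw [Matrix.map_mul, hvf, hvf, hvf, map_mul, map_mul] }
  have hv : ∀ γ, (v γ).map incl = ρ.ev Ω (r γ) := hvf
  have hvG : ∀ γ, G.In R (v γ * ρ.pm R γ⁻¹) (ρ.pm R γ * v γ⁻¹) := by
    intro γ p hp
    apply hincl
    rw [map_zero]
    have h1 := in_of_ev ρ hG (r γ) p hp
    rw [h.proj γ, ← map_inv, ← hv γ, ← hv γ⁻¹, ← ρ.pm_map incl γ, ← ρ.pm_map incl γ⁻¹,
      ← Matrix.map_mul, ← Matrix.map_mul] at h1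
    rw [← h1]
    have h2 : evp ((v γ * ρ.pm R γ⁻¹).map incl) ((ρ.pm R γ * v γ⁻¹).map incl) =
        fun x => incl (evp (v γ * ρ.pm R γ⁻¹) (ρ.pm R γ * v γ⁻¹) x) := by
      funext x
      rcases x with x | x <;> rfl
    rw [h2]
    exact MvPolynomial.comp_aeval_apply _ incl p
  obtain ⟨rR, hr1, hr2⟩ := exists_hom ρ hG hρ v hvG
  have hrR : ∀ γ, A.mapL incl (rR γ) = r γ := by
    intro γ
    refine ev_injective ρ hρ ?_ ?_
    · rw [ρ.ev_mapL, hr2, hv]
    · rw [A.mapL_right, hr1, h.proj]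
  refine ⟨(A.mapL ψQ).comp rR, ⟨fun γ => ?_, fun γ f hf => ?_⟩, fun i j => ?_⟩
  · rw [MonoidHom.comp_apply, A.mapL_right, hr1]
  · rw [MonoidHom.comp_apply, A.mapL_left, Pts.map_hom_apply]
    have h1 := h.val γ f hf
    rw [← hrR γ, A.mapL_left, Pts.map_hom_apply, ← hinclK] at h1
    rw [hincl h1]
    change ψ (algebraMap K R (V γ f)) = algebraMap K K (V γ f)
    rw [AlgHom.commutes]
  · have h1 : (fun γ => ρ.ev K (((A.mapL ψQ).comp rR) γ) i j) =
        ∑ l, ψ ⟨c i j l, hcR i j l⟩ • φ i j l := by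
      funext γ
      rw [MonoidHom.comp_apply, ρ.ev_mapL, hr2, Matrix.map_apply, Finset.sum_apply]
      change ψ (vf γ i j) = _
      rw [hvfa, map_sum]
      refine Finset.sum_congr rfl fun l _ => ?_
      rw [map_mul, AlgHom.commutes, Pi.smul_apply, smul_eq_mul]
      rfl
    rw [h1]
    exact Subalgebra.sum_mem _ fun l _ => Subalgebra.smul_mem _ (hφ i j l) _

end Pool.Agent.Lib.MP_666dc0_nt.IG
end
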