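import Pool.Agent.Lib.MP_666dc0_nt.BDefs
import Pool.Agent.Lib.MP_666dc0_nt.Mg.G042
import Pool.Agent.Lib.MP_666dc0_nt.BRep
import Pool.Agent.Lib.MP_666dc0_nt.Transport

section

open TensorProduct
open scoped TensorProduct

namespace Pool.Agent.Lib.MP_666dc0_nt.IG

variable {B : Type} [CommRing B] [IsDomain B] [IsPrincipalIdealRing B] [Algebra B ℚ]
  [IsFractionRing B ℚ] {O : Type} [CommRing O] [HopfAlgebra B O] {Γ : Type} [Group Γ]
  (A : OverB.HopfAction B Γ O)

/-- The action of an automorphism on the generic fibre. -/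
private noncomputable def Ka_c (a : O ≃ₐ[B] O) : (ℚ ⊗[B] O) ≃ₐ[ℚ] (ℚ ⊗[B] O) :=
  Algebra.TensorProduct.congr AlgEquiv.refl a

omit [IsDomain B] [IsPrincipalIdealRing B] [IsFractionRing B ℚ] in
private theorem Ka_c_tmul (a : O ≃ₐ[B] O) (q : ℚ) (f : O) :
    Ka_c a (q ⊗ₜ[B] f) = q ⊗ₜ[B] (a f) := rfl

omit [IsDomain B] [IsPrincipalIdealRing B] [IsFractionRing B ℚ] in
private theorem Ka_comm (a : O ≃ₐ[B] O) (w : ℚ ⊗[ℚ] ℚ) (v : O ⊗[B] O) :
    AlgebraTensorModule.tensorTensorTensorComm B ℚ B ℚ ℚ ℚ O O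
        (w ⊗ₜ[B] TensorProduct.map a.toLinearMap a.toLinearMap v) =
      TensorProduct.map (Ka_c a).toLinearMap (Ka_c a).toLinearMap
        (AlgebraTensorModule.tensorTensorTensorComm B ℚ B ℚ ℚ ℚ O O (w ⊗ₜ[B] v)) := by
  induction w using TensorProduct.induction_on with
  | zero => rw [zero_tmul, zero_tmul, map_zero, map_zero]
  | add w w' h h' => rw [add_tmul, add_tmul, map_add, map_add, map_add, h, h']
  | tmul w1 w2 =>
    induction v using TensorProduct.induction_on with
    | zero => rw [map_zero, tmul_zero, map_zero, map_zero]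
    | add v v' h h' => rw [map_add, tmul_add, tmul_add, map_add, map_add, map_add, h, h']
    | tmul v1 v2 => rfl

/-- The action on the generic fibre. Check `comul_act`, `counit_act` on pure tensors `q ⊗ f` (induction on tensors;
`TensorProduct.comul_tmul`, `TensorProduct.counit_tmul`, `A.comul_act`, `A.counit_act`, then induct on the tensor
`comul f`). -/
noncomputable def baseA : HopfAction Γ (ℚ ⊗[B] O) where
  act :=
    { toFun := fun γ => Algebra.TensorProduct.congr AlgEquiv.refl (A.act γ)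
      map_one' := by
        apply AlgEquiv.ext
        intro x
        induction x using TensorProduct.induction_on with
        | zero => rw [map_zero, map_zero]
        | add x y hx hy => rw [map_add, map_add, hx, hy]
        | tmul q f =>
          rw [map_one]
          rfl
      map_mul' := by
        intro γ δ
        apply AlgEquiv.ext
        intro x
        induction x using TensorProduct.induction_on with
        | zero => rw [map_zero, map_zero]
        | add x y hx hy => rw [map_add, map_add, hx, hy]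
        | tmul q f =>
          rw [map_mul]
          rfl }
  comul_act := by
    intro γ x
    change CoalgebraStruct.comul (R := ℚ) (Ka_c (A.act γ) x) =
      TensorProduct.map (Ka_c (A.act γ)).toLinearMap (Ka_c (A.act γ)).toLinearMap
        (CoalgebraStruct.comul (R := ℚ) x)
    induction x using TensorProduct.induction_on with
    | zero => rw [map_zero, map_zero, map_zero]
    | add x y hx hy => rw [map_add, map_add, map_add, map_add, hx, hy]
    | tmul q f =>
      rw [Ka_c_tmul, TensorProduct.comul_tmul, TensorProduct.comul_tmul, A.comul_act]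
      exact Ka_comm (A.act γ) _ _
  counit_act := by
    intro γ x
    change CoalgebraStruct.counit (R := ℚ) (Ka_c (A.act γ) x) = CoalgebraStruct.counit (R := ℚ) x
    induction x using TensorProduct.induction_on with
    | zero => rw [map_zero]
    | add x y hx hy => rw [map_add, map_add, map_add, hx, hy]
    | tmul q f =>
      rw [Ka_c_tmul, TensorProduct.counit_tmul, TensorProduct.counit_tmul, A.counit_act]

theorem baseA_act_tmul (γ : Γ) (q : ℚ) (f : O) :
    (baseA A).act γ (q ⊗ₜ[B] f) = q ⊗ₜ[B] (A.act γ f) := rfl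

theorem baseA_act_eq {γ δ : Γ} (h : A.act γ = A.act δ) : (baseA A).act γ = (baseA A).act δ := by
  change Ka_c (A.act γ) = Ka_c (A.act δ)
  rw [h]

/-- `ker A.act ≤ ker (baseA A).act`; a subgroup containing an open subgroup is open. -/
theorem isOpen_ker_baseA [TopologicalSpace Γ] [IsTopologicalGroup Γ]
    (hA : IsOpen (A.act.ker : Set Γ)) : IsOpen ((baseA A).act.ker : Set Γ) := by
  refine Subgroup.isOpen_mono (H₁ := A.act.ker) (H₂ := (baseA A).act.ker) ?_ hA
  intro γ hγ
  rw [MonoidHom.mem_ker] at hγ ⊢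
  rw [← map_one (baseA A).act]
  exact baseA_act_eq A (hγ.trans (map_one A.act).symm)

end Pool.Agent.Lib.MP_666dc0_nt.IG
end

section

open TensorProduct
open scoped TensorProduct

namespace Pool.Agent.Lib.MP_666dc0_nt.IG

section Kb

variable {B : Type} [CommRing B] [Algebra B ℚ] {O : Type} [CommRing O] [HopfAlgebra B O] {R : Type} [CommRing R] [Algebra ℚ R] [Algebra B R]
  [IsScalarTower B ℚ R]

/-- The point over `B` given by a point of the generic fibre. -/
noncomputable def kbTo (g : Pts (ℚ ⊗[B] O) R) : OverB.Pts B O R :=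
  ⟨(g.hom.restrictScalars B).comp Algebra.TensorProduct.includeRight⟩

lemma kbTo_hom (g : Pts (ℚ ⊗[B] O) R) (f : O) : (kbTo g).hom f = g.hom (1 ⊗ₜ[B] f) := rfl

/-- The point of the generic fibre given by a point over `B`. -/
noncomputable def kbInv (g : OverB.Pts B O R) : Pts (ℚ ⊗[B] O) R :=
  ⟨Algebra.TensorProduct.lift (Algebra.ofId ℚ R) g.hom (fun _ _ => Commute.all _ _)⟩

lemma kbInv_hom (g : OverB.Pts B O R) (q : ℚ) (f : O) :
    (kbInv g).hom (q ⊗ₜ[B] f) = algebraMap ℚ R q * g.hom f := by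
  exact Algebra.TensorProduct.lift_tmul (Algebra.ofId ℚ R) g.hom (fun _ _ => Commute.all _ _) q f

lemma kbTo_inv (g : OverB.Pts B O R) : kbTo (kbInv g) = g := by
  ext f
  rw [kbTo_hom, kbInv_hom, map_one, one_mul]

omit [Algebra B R] [IsScalarTower B ℚ R] in
lemma kb_ext {g h : Pts (ℚ ⊗[B] O) R} (H : ∀ f : O, g.hom (1 ⊗ₜ[B] f) = h.hom (1 ⊗ₜ[B] f)) :
    g = h := by
  have h1 : ∀ x : ℚ ⊗[B] O, g.hom x = h.hom x := by
    intro x
    induction x using TensorProduct.induction_on with
    | zero => rw [map_zero, map_zero]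
    | tmul q f =>
      have h2 : (q ⊗ₜ[B] f : ℚ ⊗[B] O) = q • ((1 : ℚ) ⊗ₜ[B] f) := by
        rw [TensorProduct.smul_tmul', smul_eq_mul, mul_one]
      rw [h2, map_smul, map_smul, H]
    | add x y hx hy => rw [map_add, map_add, hx, hy]
  exact Pts.ext (AlgHom.ext h1)

lemma kbInv_to (g : Pts (ℚ ⊗[B] O) R) : kbInv (kbTo g) = g := by
  refine kb_ext fun f => ?_
  rw [kbInv_hom, map_one, one_mul, kbTo_hom]

lemma kb_lift (g h : Pts (ℚ ⊗[B] O) R) (z : O ⊗[B] O) :
    Algebra.TensorProduct.lift g.hom h.hom (fun _ _ => Commute.all _ _)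
      (AlgebraTensorModule.tensorTensorTensorComm B ℚ B ℚ ℚ ℚ O O
        (((1 : ℚ) ⊗ₜ[ℚ] (1 : ℚ)) ⊗ₜ[B] z)) =
    Algebra.TensorProduct.lift (kbTo g).hom (kbTo h).hom (fun _ _ => Commute.all _ _) z := by
  induction z using TensorProduct.induction_on with
  | zero => rw [TensorProduct.tmul_zero, map_zero, map_zero, map_zero]
  | tmul a b =>
    rw [AlgebraTensorModule.tensorTensorTensorComm_tmul, Algebra.TensorProduct.lift_tmul,
      Algebra.TensorProduct.lift_tmul]
    rfl
  | add x y hx hy => rw [TensorProduct.tmul_add, map_add, map_add, map_add, hx, hy]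

lemma kbTo_mul (g h : Pts (ℚ ⊗[B] O) R) : kbTo (g * h) = kbTo g * kbTo h := by
  ext f
  rw [kbTo_hom, Pts.mul_hom_apply, OverB.Pts.mul_hom_apply, TensorProduct.comul_tmul, ← kb_lift]
  rfl

/-- Points of the generic fibre and points over `B`. -/
noncomputable def kbEquiv : Pts (ℚ ⊗[B] O) R ≃* OverB.Pts B O R where
  toFun := kbTo
  invFun := kbInv
  left_inv := kbInv_to
  right_inv := kbTo_inv
  map_mul' := kbTo_mul

lemma kbTo_onPts [IsDomain B] [IsPrincipalIdealRing B] [IsFractionRing B ℚ] {Γ : Type} [Group Γ]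
    (A : OverB.HopfAction B Γ O) (γ : Γ) (g : Pts (ℚ ⊗[B] O) R) :
    kbTo ((baseA A).onPts R γ g) = A.onPts R γ (kbTo g) := by
  ext f
  rw [kbTo_hom, HopfAction.onPts_hom_apply, baseA_act_tmul, OverB.HopfAction.onPts_hom_apply,
    kbTo_hom]

end Kb

variable {B : Type} [CommRing B] [IsDomain B] [IsPrincipalIdealRing B] [Algebra B ℚ]
  [IsFractionRing B ℚ] {O : Type} [CommRing O] [HopfAlgebra B O] {Γ : Type} [Group Γ]
  (A : OverB.HopfAction B Γ O)

/-- Points of the generic fibre with values in a `ℚ`-algebra `R` are the same as points of `Ĝ` over `B` with values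
in `R`: `g : ℚ ⊗ O →ₐ[ℚ] R` corresponds to `f ↦ g (1 ⊗ f)` (`Algebra.TensorProduct.includeRight`, `restrictScalars`);
the inverse is `Algebra.TensorProduct.lift` / `Algebra.TensorProduct.productLeftAlgHom`. This is a
group isomorphism (`comul (1 ⊗ f)`: `Bialgebra.TensorProduct.comul_includeRight` or `TensorProduct.comul_tmul`, induct on
the tensor `comul f`) compatible with the actions of `Γ`, so it gives an isomorphism of semidirect products. -/
theorem exists_LE (R : Type) [CommRing R] [Algebra ℚ R] [Algebra B R] [IsScalarTower B ℚ R] :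
    ∃ E : (baseA A).LGroup R ≃* A.LGroup R, (∀ x, (E x).right = x.right) ∧
      ∀ x (f : O), (E x).left.hom f = x.left.hom (1 ⊗ₜ[B] f) := by
  refine ⟨SemidirectProduct.congr kbEquiv (MulEquiv.refl Γ) (fun γ => ?_), fun x => rfl,
    fun x f => rfl⟩
  ext1 g
  exact kbTo_onPts A γ g

end Pool.Agent.Lib.MP_666dc0_nt.IG
end

section

open TensorProduct
open scoped TensorProduct

namespace Pool.Agent.Lib.MP_666dc0_nt.IG

section Kc

variable {B : Type} [CommRing B] [IsDomain B] [IsPrincipalIdealRing B] [Algebra B ℚ]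
  [IsFractionRing B ℚ] {O : Type} [CommRing O] [HopfAlgebra B O] {Γ : Type} [Group Γ]
  (A : OverB.HopfAction B Γ O) {R : Type} [CommRing R] [Algebra ℚ R] [Algebra B R]

lemma kc_right {E : (baseA A).LGroup R ≃* A.LGroup R} (hE1 : ∀ x, (E x).right = x.right)
    (y : A.LGroup R) : (E.symm y).right = y.right := by
  have h1 := hE1 (E.symm y)
  rw [MulEquiv.apply_symm_apply] at h1
  exact h1.symm

lemma kc_key {E : (baseA A).LGroup R ≃* A.LGroup R} (hE1 : ∀ x, (E x).right = x.right)
    (hE2 : ∀ x (f : O), (E x).left.hom f = x.left.hom (1 ⊗ₜ[B] f)) (γ : Γ)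
    (x g : Pts (ℚ ⊗[B] O) R) (f : O) :
    (x * g * ((baseA A).onPts R γ x)⁻¹).hom (1 ⊗ₜ[B] f) =
      ((E (SemidirectProduct.inl x)).left * (E ⟨g, γ⟩).left *
        (A.onPts R γ (E (SemidirectProduct.inl x)).left)⁻¹).hom f := by
  have h1 : x * g * ((baseA A).onPts R γ x)⁻¹ = (SemidirectProduct.inl x * ⟨g, γ⟩ *
      (SemidirectProduct.inl x)⁻¹ : (baseA A).LGroup R).left :=
    (HopfAction.conj_inl_left (baseA A) x ⟨g, γ⟩).symm
  have h2 : E (SemidirectProduct.inl x) =
      SemidirectProduct.inl (E (SemidirectProduct.inl x)).left := by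
    ext1
    · rfl
    · rw [hE1]
      rfl
  have h3 : (E ⟨g, γ⟩).right = γ := hE1 _
  rw [h1, ← hE2, map_mul, map_mul, map_inv, h2]
  have h4 := OverB.HopfAction.conj_inl_left A (E (SemidirectProduct.inl x)).left (E ⟨g, γ⟩)
  rw [h3] at h4
  rw [h4]
  rfl

end Kc

variable {B : Type} [CommRing B] [IsDomain B] [IsPrincipalIdealRing B] [Algebra B ℚ]
  [IsFractionRing B ℚ] {O : Type} [CommRing O] [HopfAlgebra B O] {Γ : Type} [Group Γ]
  (A : OverB.HopfAction B Γ O)

/-- By `exists_LE`, for points over `ℚ`-algebras `R` (with the `B`-algebra structure `Algebra.compHom R (algebraMap B ℚ)`;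
the point `x * g * (onPts γ x)⁻¹` is the left component of a conjugate `inl x * ⟨g, γ⟩ * (inl x)⁻¹`,
`conj_inl_left`). -/
theorem inv_tmul {γ : Γ} {f : O} (hf : f ∈ A.inv γ) :
    (1 ⊗ₜ[B] f : ℚ ⊗[B] O) ∈ (baseA A).inv γ := by
  intro R _ _ x g
  letI : Algebra B R := Algebra.compHom R (algebraMap B ℚ)
  haveI : IsScalarTower B ℚ R := IsScalarTower.of_algebraMap_eq fun _ => rfl
  obtain ⟨E, hE1, hE2⟩ := exists_LE A R
  rw [kc_key A hE1 hE2, hf R, hE2]

/-- Conversely, if `1 ⊗ f` is invariant then `f` is invariant, `O` being free over `B`. For points `x, g` of `Ĝ` with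
values in a `B`-algebra `R`: let `U = O ⊗[B] O` with the universal points `x₀ = includeLeft`, `g₀ = includeRight`;
`(x, g)` is the image of `(x₀, g₀)` under the homomorphism `U → R` (`Algebra.TensorProduct.lift`), so it suffices
to treat `(x₀, g₀)` over `U` (functoriality: `OverB.Pts.map`, `OverB.HopfAction.onPts_map`). `U` is a free
`B`-module, so `U → ℚ ⊗ U` is injective (`exists_mul_eq_zero`, `U` is torsion free), and over the `ℚ`-algebra
`ℚ ⊗ U` the identity follows from the invariance of `1 ⊗ f` (`exists_LE`). -/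
theorem inv_of_tmul [Module.Free B O] {γ : Γ} {f : O}
    (hf : (1 ⊗ₜ[B] f : ℚ ⊗[B] O) ∈ (baseA A).inv γ) : f ∈ A.inv γ := by
  have hkey : ∀ (V : Type) [CommRing V] [Algebra ℚ V] [Algebra B V] [IsScalarTower B ℚ V]
      (x g : OverB.Pts B O V), (x * g * (A.onPts V γ x)⁻¹).hom f = g.hom f := by
    intro V _ _ _ _ x g
    obtain ⟨E, hE1, hE2⟩ := exists_LE A V
    have hx : E (SemidirectProduct.inl (E.symm (SemidirectProduct.inl x)).left) =
        SemidirectProduct.inl x := by
      have h1 : SemidirectProduct.inl (E.symm (SemidirectProduct.inl x)).left =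
          E.symm (SemidirectProduct.inl x) := by
        ext1
        · rfl
        · rw [kc_right A hE1]
          rfl
      rw [h1, MulEquiv.apply_symm_apply]
    have hg : E ⟨(E.symm ⟨g, γ⟩).left, γ⟩ = ⟨g, γ⟩ := by
      have h1 : (⟨(E.symm ⟨g, γ⟩).left, γ⟩ : (baseA A).LGroup V) = E.symm ⟨g, γ⟩ := by
        ext1
        · rfl
        · rw [kc_right A hE1]
      rw [h1, MulEquiv.apply_symm_apply]
    have h2 := kc_key A hE1 hE2 γ (E.symm (SemidirectProduct.inl x)).left
      (E.symm ⟨g, γ⟩).left f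
    rw [hx, hg] at h2
    have h3 := hf V (E.symm (SemidirectProduct.inl x)).left (E.symm ⟨g, γ⟩).left
    rw [← hE2] at h3
    have h4 : (E (E.symm (⟨g, γ⟩ : A.LGroup V))).left.hom f = g.hom f := by
      rw [MulEquiv.apply_symm_apply]
    rw [h4] at h3
    exact h2.symm.trans h3
  have huniv : ∀ x₀ g₀ : OverB.Pts B O (O ⊗[B] O),
      (x₀ * g₀ * (A.onPts (O ⊗[B] O) γ x₀)⁻¹).hom f = g₀.hom f := by
    intro x₀ g₀
    let ι : (O ⊗[B] O) →ₐ[B] ℚ ⊗[B] (O ⊗[B] O) := Algebra.TensorProduct.includeRight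
    have h1 := hkey (ℚ ⊗[B] (O ⊗[B] O)) (OverB.Pts.map ι x₀) (OverB.Pts.map ι g₀)
    rw [← OverB.HopfAction.onPts_map, ← map_inv, ← map_mul, ← map_mul,
      OverB.Pts.map_hom_apply, OverB.Pts.map_hom_apply, ← sub_eq_zero, ← map_sub] at h1
    obtain ⟨N, hN, h2⟩ := exists_mul_eq_zero h1
    have hNB : (N : B) ≠ 0 := by
      intro h
      have h5 := congrArg (algebraMap B ℚ) h
      rw [map_natCast, map_zero] at h5
      exact hN (by exact_mod_cast h5)
    have h3 : (N : B) • ((x₀ * g₀ * (A.onPts (O ⊗[B] O) γ x₀)⁻¹).hom f - g₀.hom f) = 0 := by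
      rw [Algebra.smul_def, map_natCast]
      exact h2
    haveI : Module.Free B (O ⊗[B] O) := inferInstance
    rcases smul_eq_zero.mp h3 with h4 | h4
    · exact absurd h4 hNB
    · exact sub_eq_zero.mp h4
  intro R _ _ x g
  let φ : (O ⊗[B] O) →ₐ[B] R := Algebra.TensorProduct.lift x.hom g.hom (fun _ _ => Commute.all _ _)
  let x₀ : OverB.Pts B O (O ⊗[B] O) := ⟨Algebra.TensorProduct.includeLeft⟩
  let g₀ : OverB.Pts B O (O ⊗[B] O) := ⟨Algebra.TensorProduct.includeRight⟩
  have hx : OverB.Pts.map φ x₀ = x := by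
    refine OverB.Pts.ext (AlgHom.ext fun a => ?_)
    change φ (a ⊗ₜ[B] 1) = _
    exact (Algebra.TensorProduct.lift_tmul _ _ _ a 1).trans (by rw [map_one, mul_one])
  have hg : OverB.Pts.map φ g₀ = g := by
    refine OverB.Pts.ext (AlgHom.ext fun a => ?_)
    change φ (1 ⊗ₜ[B] a) = _
    exact (Algebra.TensorProduct.lift_tmul _ _ _ 1 a).trans (by rw [map_one, one_mul])
  have h1 := congrArg φ (huniv x₀ g₀)
  rw [← OverB.Pts.map_hom_apply, ← OverB.Pts.map_hom_apply, map_mul, map_mul, map_inv,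
    OverB.HopfAction.onPts_map, hx, hg] at h1
  exact h1

/-- `exists_mul_tmul` and `inv_of_tmul` (`(baseA A).inv γ` is a subalgebra). -/
theorem exists_inv [Module.Free B O] {γ : Γ} {f' : ℚ ⊗[B] O} (hf' : f' ∈ (baseA A).inv γ) :
    ∃ N : ℕ, N ≠ 0 ∧ ∃ f ∈ A.inv γ, (N : ℚ ⊗[B] O) * f' = 1 ⊗ₜ[B] f := by
  obtain ⟨N, hN, f, hf⟩ := exists_mul_tmul f'
  refine ⟨N, hN, f, inv_of_tmul A ?_, hf⟩
  rw [← hf]
  exact mul_mem (natCast_mem _ N) hf'

end Pool.Agent.Lib.MP_666dc0_nt.IG
end

section

open TensorProduct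
open scoped TensorProduct

namespace Pool.Agent.Lib.MP_666dc0_nt.IG

variable {B : Type} [CommRing B] [IsDomain B] [IsPrincipalIdealRing B] [Algebra B ℚ]
  [IsFractionRing B ℚ] {O : Type} [CommRing O] [HopfAlgebra B O] {Γ : Type} [Group Γ]
  (A : OverB.HopfAction B Γ O)

/-- From a family of homomorphisms `r z : Γ → ᴸG(R z)` to a homomorphism to the L-group of the generic fibre with values
in the `ℚ`-algebra `E = ℚ ⊗[B] (∀ z, R z)`; `j a = 1 ⊗ a` (`Algebra.TensorProduct.includeRight`). Kernel of `j`: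
`exists_mul_eq_zero`. The homomorphism: the points `f ↦ j (fun z => (r z γ).left.hom f)` with values in `E` form a
homomorphism `Γ → A.LGroup E` over `Γ` (multiplicativity: `r z` is a homomorphism for all `z`, `comul f` is a sum
of pure tensors; or first `Γ → A.LGroup (∀ z, R z)` and then `A.mapL`), compose with the inverse of `exists_LE`. -/
theorem exists_ratHom {Z : Type} (R : Z → Type) [∀ z, CommRing (R z)] [∀ z, Algebra B (R z)]
    (r : ∀ z, Γ →* A.LGroup (R z)) (hr : ∀ z γ, (r z γ).right = γ) :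
    ∃ (E : Type) (_ : CommRing E) (_ : Algebra ℚ E) (j : (∀ z, R z) →+* E)
      (r' : Γ →* (baseA A).LGroup E),
      (∀ a, j a = 0 → ∃ N : ℕ, N ≠ 0 ∧ (N : ∀ z, R z) * a = 0) ∧ (∀ γ, (r' γ).right = γ) ∧
      ∀ γ (f : O), (r' γ).left.hom (1 ⊗ₜ[B] f) = j (fun z => (r z γ).left.hom f) := by
  classical
  -- the homomorphism with values in the product
  let P : Type := ∀ z, R z
  let pt : Γ → OverB.Pts B O P := fun γ => ⟨AlgHom.pi fun z => (r z γ).left.hom⟩
  have hpt : ∀ γ (f : O) z, (pt γ).hom f z = (r z γ).left.hom f := fun γ f z => rfl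
  have hmapz : ∀ z γ, A.mapL (Pi.evalAlgHom B R z) ⟨pt γ, γ⟩ = r z γ := by
    intro z γ
    ext1
    · rfl
    · exact (hr z γ).symm
  have hinj : ∀ x y : A.LGroup P, x.right = y.right →
      (∀ z, A.mapL (Pi.evalAlgHom B R z) x = A.mapL (Pi.evalAlgHom B R z) y) → x = y := by
    intro x y hxy h
    ext1
    · refine OverB.Pts.ext (AlgHom.ext fun f => funext fun z => ?_)
      have h1 := congrArg (fun w : A.LGroup (R z) => w.left.hom f) (h z)
      exact h1
    · exact hxy
  let ρ : Γ →* A.LGroup P :=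
    { toFun := fun γ => ⟨pt γ, γ⟩
      map_one' := by
        refine hinj _ _ rfl fun z => ?_
        rw [hmapz, map_one, map_one]
      map_mul' := fun γ δ => by
        refine hinj _ _ rfl fun z => ?_
        rw [hmapz, map_mul, map_mul, hmapz, hmapz] }
  obtain ⟨E', hE1, hE2⟩ := exists_LE A (ℚ ⊗[B] P)
  let incl : P →ₐ[B] ℚ ⊗[B] P := Algebra.TensorProduct.includeRight
  have hE1' : ∀ y, (E'.symm y).right = y.right := by
    intro y
    have h1 := hE1 (E'.symm y)
    rw [MulEquiv.apply_symm_apply] at h1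
    exact h1.symm
  refine ⟨ℚ ⊗[B] P, inferInstance, inferInstance, incl.toRingHom,
    (E'.symm.toMonoidHom.comp (A.mapL incl)).comp ρ, fun a ha => exists_mul_eq_zero ha,
    fun γ => ?_, fun γ f => ?_⟩
  · exact hE1' _
  · change ((E'.symm (A.mapL incl (ρ γ))).left).hom (1 ⊗ₜ[B] f) = _
    rw [← hE2, MulEquiv.apply_symm_apply]
    rfl

end Pool.Agent.Lib.MP_666dc0_nt.IG
end
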