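import Pool.Agent.Lib.MP_666dc0_nt.Mg.G042
import Pool.Agent.Lib.MP_666dc0_nt.WL.Defs

section

open Polynomial

namespace Pool.Agent.Lib.MP_666dc0_nt.IG

private lemma J11b_comm {K : Type} [Field K] {n : ℕ} {M M' : Matrix (Fin n) (Fin n) K}
    (h : Commute M' M) (p : K[X]) : Commute M' (aeval M p) := by
  induction p using Polynomial.induction_on' with
  | add p q hp hq =>
    rw [map_add]
    exact hp.add_right hq
  | monomial k a =>
    rw [aeval_monomial]
    exact Commute.mul_right (Algebra.commutes a M').symm (h.pow_right k)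

/-- `M' - μ⁻¹ = -μ⁻¹ M' (M - μ)`; all factors commute, so the product of the `M' - μ⁻¹` over `s` is a multiple of
the product of the `M - μ`. Take `s.image (·⁻¹)`. -/
theorem DG_inv {K : Type} [Field K] {n : ℕ} {M M' : Matrix (Fin n) (Fin n) K} (h1 : M * M' = 1)
    (h2 : M' * M = 1) (h : DG M) : DG M' := by
  classical
  obtain ⟨s, hs⟩ := h
  have hcomm : Commute M' M := by
    change M' * M = M * M'
    rw [h1, h2]
  have key : ∀ t : Finset Kˣ, ∃ c : Matrix (Fin n) (Fin n) K,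
      aeval M' (∏ μ ∈ t, (X - C (((μ⁻¹ : Kˣ)) : K))) = c * aeval M (∏ μ ∈ t, (X - C (μ : K))) := by
    intro t
    induction t using Finset.induction_on with
    | empty => exact ⟨1, by simp⟩
    | insert μ t hμ ih =>
      obtain ⟨c, hc⟩ := ih
      refine ⟨c * (algebraMap K _ (-((μ⁻¹ : Kˣ) : K)) * M'), ?_⟩
      rw [Finset.prod_insert hμ, Finset.prod_insert hμ, mul_comm, map_mul, hc,
        mul_comm (X - C (μ : K)), map_mul, map_sub, map_sub, aeval_X, aeval_X, aeval_C, aeval_C]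
      have h3 : M' - algebraMap K (Matrix (Fin n) (Fin n) K) ((μ⁻¹ : Kˣ) : K) =
          (algebraMap K (Matrix (Fin n) (Fin n) K) (-((μ⁻¹ : Kˣ) : K)) * M') *
            (M - algebraMap K (Matrix (Fin n) (Fin n) K) (μ : K)) := by
        rw [mul_sub, mul_assoc, h2, mul_one, mul_assoc, ← Algebra.commutes (μ : K) M', ← mul_assoc,
          ← map_mul, neg_mul, Units.inv_mul, map_neg, map_neg, map_one, neg_one_mul]
        abel
      have h4 := (J11b_comm hcomm (∏ μ ∈ t, (X - C (μ : K)))).eq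
      rw [h3]
      generalize aeval M (∏ μ ∈ t, (X - C (μ : K))) = Q at h4 ⊢
      generalize M - algebraMap K (Matrix (Fin n) (Fin n) K) (μ : K) = W
      have h5 := Algebra.commutes (-((μ⁻¹ : Kˣ) : K)) Q
      generalize algebraMap K (Matrix (Fin n) (Fin n) K) (-((μ⁻¹ : Kˣ) : K)) = z at h5 ⊢
      calc c * Q * (z * M' * W) = c * (Q * z) * M' * W := by simp only [mul_assoc]
        _ = c * (z * Q) * M' * W := by rw [h5]
        _ = c * z * (Q * M') * W := by simp only [mul_assoc]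
        _ = c * z * (M' * Q) * W := by rw [h4]
        _ = _ := by simp only [mul_assoc]
  obtain ⟨c, hc⟩ := key s
  refine ⟨s.image (fun μ => μ⁻¹), ?_⟩
  rw [Finset.prod_image (fun a _ b _ hab => inv_injective hab), hc, hs, mul_zero]

end Pool.Agent.Lib.MP_666dc0_nt.IG
end

section

open Polynomial

namespace Pool.Agent.Lib.MP_666dc0_nt.IG

/-- Lagrange interpolation: with `P = ∏ μ ∈ s, (X - C μ)`, `X^a %ₘ P = ∑ μ ∈ s, C (μ^a) * Lagrange.basis s _ μ`
(`Lagrange.eq_interpolate` or similar: both sides have degree `< s.card` and the same values at the points), so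
`M^a = ∑ μ ∈ s, μ^a • aeval M (Lagrange.basis s _ μ)` (`Polynomial.modByMonic_add_div`). -/
theorem DG.mem_EXP {K : Type} [Field K] {n : ℕ} {M : Matrix (Fin n) (Fin n) K} (h : DG M)
    (i j : Fin n) : (fun a : ℕ => (M ^ a) i j) ∈ EXP K := by
  classical
  obtain ⟨s, hs⟩ := h
  obtain ⟨P, hP⟩ : ∃ P : K[X], P = ∏ μ ∈ s, (X - C (μ : K)) := ⟨_, rfl⟩
  rw [← hP] at hs
  have hmon : P.Monic := by
    rw [hP]
    exact monic_prod_of_monic _ _ fun μ _ => monic_X_sub_C _
  have hdeg : P.degree = s.card := by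
    rw [hP, degree_prod]
    simp
  have heval : ∀ μ ∈ s, P.eval (μ : K) = 0 := by
    intro μ hμ
    rw [hP, eval_prod]
    exact Finset.prod_eq_zero hμ (by simp)
  have hinj : Set.InjOn (fun μ : Kˣ => (μ : K)) s := fun a _ b _ hab => Units.ext hab
  have key : ∀ a : ℕ, M ^ a = ∑ μ ∈ s, ((μ : K) ^ a) •
      aeval M (Lagrange.basis s (fun μ : Kˣ => (μ : K)) μ) := by
    intro a
    have h1 : (X ^ a : K[X]) %ₘ P + P * ((X ^ a : K[X]) /ₘ P) = X ^ a :=
      modByMonic_add_div _ P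
    have h2 : ∀ μ ∈ s, ((X ^ a : K[X]) %ₘ P).eval (μ : K) = (μ : K) ^ a := by
      intro μ hμ
      have h3 := congrArg (fun q : K[X] => q.eval (μ : K)) h1
      simp only [eval_add, eval_mul, heval μ hμ, zero_mul, add_zero, eval_pow, eval_X] at h3
      exact h3
    have h3 : ((X ^ a : K[X]) %ₘ P).degree < s.card := by
      rw [← hdeg]
      exact degree_modByMonic_lt _ hmon
    have h4 := Lagrange.eq_interpolate (v := fun μ : Kˣ => (μ : K)) hinj h3
    have h5 : M ^ a = aeval M ((X ^ a : K[X]) %ₘ P) := by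
      have h6 := congrArg (fun q : K[X] => aeval M q) h1
      simp only [map_add, map_mul, hs, zero_mul, add_zero, map_pow, aeval_X] at h6
      exact h6.symm
    rw [h5, h4, Lagrange.interpolate_apply, map_sum]
    refine Finset.sum_congr rfl fun μ hμ => ?_
    rw [map_mul, aeval_C, h2 μ hμ, Algebra.smul_def]
  have h1 : (fun a : ℕ => (M ^ a) i j) = ∑ μ ∈ s,
      (aeval M (Lagrange.basis s (fun μ : Kˣ => (μ : K)) μ) i j) • (fun a : ℕ => (μ : K) ^ a) := by
    funext a
    rw [Finset.sum_apply, key a, Matrix.sum_apply]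
    refine Finset.sum_congr rfl fun μ _ => ?_
    rw [Pi.smul_apply, Matrix.smul_apply, smul_eq_mul, smul_eq_mul, mul_comm]
  rw [h1]
  exact Subalgebra.sum_mem _ fun μ _ => Subalgebra.smul_mem _ (pow_mem_EXP _) _

end Pool.Agent.Lib.MP_666dc0_nt.IG
end

section

open Polynomial

namespace Pool.Agent.Lib.MP_666dc0_nt.IG

/-- Write the entries as `(M^a)_ij = ∑ μ ∈ s_ij, c_ij μ * μ^a` (`exists_sum_of_mem_EXP`), let `s` be the union
of the `s_ij` and `c_ij μ = 0` for `μ ∉ s_ij`. For `h = ∏ μ ∈ s, (X - C μ)` the entry `ij` of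
`aeval M h = ∑_k h.coeff k • M^k` is `∑ μ ∈ s, c_ij μ * h.eval μ = 0`. -/
theorem DG_of_mem_EXP {K : Type} [Field K] {n : ℕ} {M : Matrix (Fin n) (Fin n) K}
    (h : ∀ i j, (fun a : ℕ => (M ^ a) i j) ∈ EXP K) : DG M := by
  classical
  choose s c hsc using fun i j => exists_sum_of_mem_EXP (h i j)
  obtain ⟨t, ht⟩ : ∃ t : Finset Kˣ, t = Finset.univ.biUnion fun i : Fin n =>
      Finset.univ.biUnion fun j : Fin n => s i j := ⟨_, rfl⟩
  have hst : ∀ i j, ∀ μ ∈ s i j, μ ∈ t := by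
    intro i j μ hμ
    rw [ht, Finset.mem_biUnion]
    exact ⟨i, Finset.mem_univ _, Finset.mem_biUnion.2 ⟨j, Finset.mem_univ _, hμ⟩⟩
  refine ⟨t, ?_⟩
  obtain ⟨P, hP⟩ : ∃ P : K[X], P = ∏ μ ∈ t, (X - C (μ : K)) := ⟨_, rfl⟩
  rw [← hP]
  have heval : ∀ μ ∈ t, P.eval (μ : K) = 0 := by
    intro μ hμ
    rw [hP, eval_prod]
    exact Finset.prod_eq_zero hμ (by simp)
  ext i j
  rw [aeval_eq_sum_range, Matrix.sum_apply, Matrix.zero_apply]
  calc ∑ k ∈ Finset.range (P.natDegree + 1), (P.coeff k • M ^ k) i j =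
      ∑ k ∈ Finset.range (P.natDegree + 1), ∑ μ ∈ s i j, c i j μ * (P.coeff k * (μ : K) ^ k) := by
        refine Finset.sum_congr rfl fun k _ => ?_
        rw [Matrix.smul_apply, smul_eq_mul, hsc i j k, Finset.mul_sum]
        exact Finset.sum_congr rfl fun μ _ => by ring
    _ = ∑ μ ∈ s i j, c i j μ * P.eval (μ : K) := by
        rw [Finset.sum_comm]
        refine Finset.sum_congr rfl fun μ _ => ?_
        rw [← Finset.mul_sum, eval_eq_sum_range]
    _ = 0 := Finset.sum_eq_zero fun μ hμ => by rw [heval μ (hst i j μ hμ), mul_zero]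

end Pool.Agent.Lib.MP_666dc0_nt.IG
end

section

open NumberField IsDedekindDomain
open scoped NumberField

set_option linter.unusedSectionVars false

namespace Pool.Agent.Lib.MP_666dc0_nt.WL

/-!
# WL, N0: conjugation of points, polynomial functions and forms by field automorphisms of `ℂ`
-/

variable {F : Type} [Field F] [NumberField F] {n : ℕ} {D : Datum F n}

/-- The automorphism `s` of `ℂ` applied to a point of `G(F ⊗ ℂ)`: `(s x)_τ = s (x_{s⁻¹ τ})`. -/
def cpt (s : ℂ ≃+* ℂ) (x : D.Cpx) : D.Cpx := fun τ =>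
  ⟨Matrix.GeneralLinearGroup.map (s : ℂ →+* ℂ) (x ((s.symm : ℂ →+* ℂ).comp τ)).1, by
    have h : Matrix.GeneralLinearGroup.map (s : ℂ →+* ℂ) (x ((s.symm : ℂ →+* ℂ).comp τ)).1 ∈
        D.points ((s : ℂ →+* ℂ).comp ((s.symm : ℂ →+* ℂ).comp τ)) :=
      (D.mapPoints ((s.symm : ℂ →+* ℂ).comp τ) (s : ℂ →+* ℂ)
        (x ((s.symm : ℂ →+* ℂ).comp τ))).2
    have h1 : (s : ℂ →+* ℂ).comp ((s.symm : ℂ →+* ℂ).comp τ) = τ := by
      ext z
      simp
    rw [h1] at h
    exact h⟩

theorem cpt_coe (s : ℂ ≃+* ℂ) (x : D.Cpx) (τ : F →+* ℂ) (i j : Fin n) :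
    ((cpt s x τ).1 : Matrix (Fin n) (Fin n) ℂ) i j =
      s (((x ((s.symm : ℂ →+* ℂ).comp τ)).1 : Matrix (Fin n) (Fin n) ℂ) i j) := rfl

/-- The conjugate of a function on `G(F ⊗ ℂ)`: `(s p)(x) = s (p (s⁻¹ x))`. -/
def cfun (s : ℂ ≃+* ℂ) (p : D.Cpx → ℂ) : D.Cpx → ℂ := fun x => s (p (cpt s.symm x))

/-- The conjugate of a function on `G(𝔸_f)` with values in the functions on `G(F ⊗ ℂ)`. -/
def cform (s : ℂ ≃+* ℂ) (f : D.Ad → D.Cpx → ℂ) : D.Ad → D.Cpx → ℂ := fun g => cfun s (f g)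

/-- The Hecke operator as a linear map. -/
noncomputable def actL {U : Subgroup D.Ad} {v : HeightOneSpectrum (𝓞 F)} (h : Hecke U v) :
    (D.Ad → D.Cpx → ℂ) →ₗ[ℂ] (D.Ad → D.Cpx → ℂ) where
  toFun f := h.act f
  map_add' f g := by
    funext x
    simp only [Hecke.act, Pi.add_apply, smul_add, Finsupp.sum_add]
  map_smul' c f := by
    funext x
    simp only [Hecke.act, Pi.smul_apply, RingHom.id_apply, Finsupp.smul_sum]
    refine Finsupp.sum_congr fun y _ => ?_
    rw [smul_comm]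

theorem actL_apply {U : Subgroup D.Ad} {v : HeightOneSpectrum (𝓞 F)} (h : Hecke U v)
    (f : D.Ad → D.Cpx → ℂ) : actL h f = h.act f := rfl

end Pool.Agent.Lib.MP_666dc0_nt.WL
end

section

open NumberField IsDedekindDomain
open scoped NumberField

namespace Pool.Agent.Lib.MP_666dc0_nt.WL

/-!
# WL, N1: conjugation preserves the polynomial functions of degree `≤ d`
-/

variable {F : Type} [Field F] [NumberField F] {n : ℕ} {D : Datum F n}

/-- Proof: componentwise; `Matrix.GeneralLinearGroup.map` is a group homomorphism. -/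
theorem cpt_mul (s : ℂ ≃+* ℂ) (x y : D.Cpx) : cpt s (x * y) = cpt s x * cpt s y := by
  funext τ
  apply Subtype.ext
  show Matrix.GeneralLinearGroup.map (s : ℂ →+* ℂ) ((x * y) ((s.symm : ℂ →+* ℂ).comp τ)).1 =
    Matrix.GeneralLinearGroup.map (s : ℂ →+* ℂ) (x ((s.symm : ℂ →+* ℂ).comp τ)).1 *
    Matrix.GeneralLinearGroup.map (s : ℂ →+* ℂ) (y ((s.symm : ℂ →+* ℂ).comp τ)).1
  rw [← map_mul]
  rfl

/-- Proof: the entries of the left hand side at `τ` are `s (s⁻¹ (τ (γ i j))) = τ (γ i j)`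
(`cpt_coe`; `Subtype.ext`, `Units.ext`, `Matrix.ext`). -/
theorem cpt_toCpx (s : ℂ ≃+* ℂ) (γ : D.Rat) : cpt s (D.toCpx γ) = D.toCpx γ := by
  funext τ
  apply Subtype.ext
  apply Units.ext
  ext i j
  rw [cpt_coe]
  show s (s.symm (τ ((γ.1 : Matrix (Fin n) (Fin n) F) i j))) = τ ((γ.1 : Matrix (Fin n) (Fin n) F) i j)
  exact s.apply_symm_apply _

/-- Proof: entries: `s (s⁻¹ (x_{s s⁻¹ τ})) = x_τ`; the only difficulty is that
`((s.symm).symm ∘ (s.symm ∘ τ)) = τ` is an equality of embeddings: prove it first and rewrite the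
entries with `congrArg`/`by rw`, working with the entries `((x τ').1 : Matrix ..) i j` as a function
of `τ'`. -/
theorem cpt_symm_cpt (s : ℂ ≃+* ℂ) (x : D.Cpx) : cpt s.symm (cpt s x) = x := by
  funext τ
  apply Subtype.ext
  apply Units.ext
  ext i j
  rw [cpt_coe, cpt_coe]
  have h : (s.symm : ℂ →+* ℂ).comp ((s.symm.symm : ℂ →+* ℂ).comp τ) = τ := by
    ext z
    simp
  have h2 : s.symm (s (((x ((s.symm : ℂ →+* ℂ).comp ((s.symm.symm : ℂ →+* ℂ).comp τ))).1 :
      Matrix (Fin n) (Fin n) ℂ) i j)) = ((x ((s.symm : ℂ →+* ℂ).comp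
        ((s.symm.symm : ℂ →+* ℂ).comp τ))).1 : Matrix (Fin n) (Fin n) ℂ) i j := s.symm_apply_apply _
  rw [h2]
  exact congrArg (fun τ' : F →+* ℂ => ((x τ').1 : Matrix (Fin n) (Fin n) ℂ) i j) h

/-- Proof: `cfun s (coord τ i j) x = s ((cpt s.symm x)_τ i j) = s (s⁻¹ (x_{s τ} i j))`. -/
theorem cfun_coord (s : ℂ ≃+* ℂ) (τ : F →+* ℂ) (i j : Fin n) :
    cfun s (coord D τ i j) = coord D ((s : ℂ →+* ℂ).comp τ) i j := by
  funext x
  show s (((cpt s.symm x τ).1 : Matrix (Fin n) (Fin n) ℂ) i j) = _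
  rw [cpt_coe, s.apply_symm_apply]
  rfl

/-- Conjugation preserves `polyLE D d`.
Proof: `cfun s` is additive, multiplicative, `cfun s 1 = 1`, `cfun s (c • p) = s c • cfun s p`; so it
maps the span of `{1} ∪ {coord ..}` into itself (`Submodule.span_induction`, `cfun_coord`) and then
its powers (induction on `d`: `pow_zero`: `Submodule.one_eq_span`/`Submodule.mem_one`;
`pow_succ` and `Submodule.mul_induction_on`). -/
theorem cfun_mem_polyLE (s : ℂ ≃+* ℂ) {d : ℕ} {p : D.Cpx → ℂ} (hp : p ∈ polyLE D d) :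
    cfun s p ∈ polyLE D d := by
  have hadd : ∀ p q : D.Cpx → ℂ, cfun s (p + q) = cfun s p + cfun s q := by
    intro p q
    funext x
    exact map_add s _ _
  have hmul : ∀ p q : D.Cpx → ℂ, cfun s (p * q) = cfun s p * cfun s q := by
    intro p q
    funext x
    exact map_mul s _ _
  have hsmul : ∀ (c : ℂ) (p : D.Cpx → ℂ), cfun s (c • p) = s c • cfun s p := by
    intro c p
    funext x
    exact map_mul s _ _
  have hone : cfun s (1 : D.Cpx → ℂ) = 1 := by
    funext x
    exact map_one s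
  have hzero : cfun s (0 : D.Cpx → ℂ) = 0 := by
    funext x
    exact map_zero s
  have hspan : ∀ p ∈ Submodule.span ℂ (({1} : Set (D.Cpx → ℂ)) ∪ {p | ∃ τ i j, p = coord D τ i j}),
      cfun s p ∈ Submodule.span ℂ (({1} : Set (D.Cpx → ℂ)) ∪ {p | ∃ τ i j, p = coord D τ i j}) := by
    intro p hp
    induction hp using Submodule.span_induction with
    | mem p hp =>
      rcases hp with hp | ⟨τ, i, j, rfl⟩
      · rw [Set.mem_singleton_iff] at hp
        rw [hp, hone]
        exact Submodule.subset_span (Or.inl rfl)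
      · rw [cfun_coord]
        exact Submodule.subset_span (Or.inr ⟨_, i, j, rfl⟩)
    | zero =>
      rw [hzero]
      exact Submodule.zero_mem _
    | add p q _ _ h1 h2 =>
      rw [hadd]
      exact Submodule.add_mem _ h1 h2
    | smul c p _ h1 =>
      rw [hsmul]
      exact Submodule.smul_mem _ _ h1
  unfold polyLE at hp ⊢
  induction d generalizing p with
  | zero =>
    rw [pow_zero] at hp ⊢
    obtain ⟨c, hc⟩ := Submodule.mem_one.1 hp
    refine Submodule.mem_one.2 ⟨s c, ?_⟩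
    rw [← hc, Algebra.algebraMap_eq_smul_one, Algebra.algebraMap_eq_smul_one, hsmul, hone]
  | succ d ih =>
    rw [pow_succ] at hp ⊢
    induction hp using Submodule.mul_induction_on' with
    | mem_mul_mem a ha b hb =>
      rw [hmul]
      exact Submodule.mul_mem_mul (ih ha) (hspan b hb)
    | add a _ b _ h1 h2 =>
      rw [hadd]
      exact Submodule.add_mem _ h1 h2

end Pool.Agent.Lib.MP_666dc0_nt.WL
end
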