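import Pool.Agent.Lib.MP_666dc0_nt.RepEval
import Pool.Agent.Lib.MP_666dc0_nt.Mg.G022
import Pool.Agent.Lib.MP_666dc0_nt.Mg.G047
import Pool.Agent.Lib.MP_666dc0_nt.Mg.G042
import Pool.Agent.Lib.MP_666dc0_nt.InterpZDefs
import Pool.Agent.Lib.MP_666dc0_nt.Mg.G055

section

open MvPolynomial

namespace Pool.Agent.Lib.MP_666dc0_nt.IG

variable {O : Type} [CommRing O] [HopfAlgebra ℚ O] {Γ : Type} [Group Γ] {A : HopfAction Γ O}
  {n : ℕ} (ρ : MatRep A n)

/-- The algebra of functions on `Γ` generated by the entries of `σ(γ)`, `σ(γ⁻¹)` and the functions which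
only depend on `A.act γ`. -/
noncomputable def FK {K : Type} [Field K] (A : HopfAction Γ O) {N : ℕ}
    (σ : Γ → Matrix (Fin N) (Fin N) K) : Subalgebra K (Γ → K) :=
  Algebra.adjoin K ({f | ∃ k l, f = fun γ => σ γ k l} ∪ {f | ∃ k l, f = fun γ => σ γ⁻¹ k l} ∪
    {f | ∀ γ γ', A.act γ = A.act γ' → f γ = f γ'})

/-- Extension by zero of a function on `Γ₁` to the coset `Γ₁ δ`. -/
private noncomputable def GCe_ext (A : HopfAction Γ O) {Ω : Type} [Field Ω] (δ : Γ)
    (f : A.act.ker → Ω) : Γ → Ω := by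
  classical
  exact fun γ => if h : A.act γ = A.act δ then f ⟨γ * δ⁻¹, by
    rw [MonoidHom.mem_ker, map_mul, map_inv, h, mul_inv_cancel]⟩ else 0

private theorem GCe_ext_pos (A : HopfAction Γ O) {Ω : Type} [Field Ω] {δ γ : Γ}
    (f : A.act.ker → Ω) (h : A.act γ = A.act δ) : GCe_ext A δ f γ = f ⟨γ * δ⁻¹, by
    rw [MonoidHom.mem_ker, map_mul, map_inv, h, mul_inv_cancel]⟩ := dif_pos h

private theorem GCe_ext_neg (A : HopfAction Γ O) {Ω : Type} [Field Ω] {δ γ : Γ}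
    (f : A.act.ker → Ω) (h : A.act γ ≠ A.act δ) : GCe_ext A δ f γ = 0 := dif_neg h

/-- The indicator function of the coset `Γ₁ δ`. -/
private noncomputable def GCe_ind (A : HopfAction Γ O) (K : Type) [Field K] (δ : Γ) : Γ → K := by
  classical
  exact fun γ => if A.act γ = A.act δ then 1 else 0

private theorem GCe_ind_pos (A : HopfAction Γ O) {K : Type} [Field K] {δ γ : Γ}
    (h : A.act γ = A.act δ) : GCe_ind A K δ γ = 1 := if_pos h

private theorem GCe_ind_neg (A : HopfAction Γ O) {K : Type} [Field K] {δ γ : Γ}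
    (h : A.act γ ≠ A.act δ) : GCe_ind A K δ γ = 0 := if_neg h

private theorem GCe_ind_mem (A : HopfAction Γ O) {K : Type} [Field K] {N : ℕ}
    (σ : Γ → Matrix (Fin N) (Fin N) K) (δ : Γ) : GCe_ind A K δ ∈ FK A σ := by
  refine Algebra.subset_adjoin (Or.inr fun γ γ' h => ?_)
  by_cases h1 : A.act γ = A.act δ
  · rw [GCe_ind_pos A h1, GCe_ind_pos A (h.symm.trans h1)]
  · rw [GCe_ind_neg A h1, GCe_ind_neg A fun h2 => h1 (h.trans h2)]

/-- The `Ω`-linear combinations of elements of `FK`. -/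
private noncomputable def GCe_sp (A : HopfAction Γ O) {K : Type} [Field K] (Ω : Type) [Field Ω]
    [Algebra K Ω] {N : ℕ} (σ : Γ → Matrix (Fin N) (Fin N) K) : Submodule Ω (Γ → Ω) :=
  Submodule.span Ω {f : Γ → Ω | ∃ φ ∈ FK A σ, f = fun γ => algebraMap K Ω (φ γ)}

private theorem GCe_mul (A : HopfAction Γ O) {K : Type} [Field K] {Ω : Type} [Field Ω]
    [Algebra K Ω] {N : ℕ} {σ : Γ → Matrix (Fin N) (Fin N) K} {f g : Γ → Ω}
    (hf : f ∈ GCe_sp A Ω σ) (hg : g ∈ GCe_sp A Ω σ) : f * g ∈ GCe_sp A Ω σ := by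
  refine Submodule.span_induction (p := fun f _ => f * g ∈ GCe_sp A Ω σ) ?_ ?_ ?_ ?_ hf
  · rintro f ⟨φ, hφ, rfl⟩
    refine Submodule.span_induction (p := fun g _ => (fun γ => algebraMap K Ω (φ γ)) * g ∈
      GCe_sp A Ω σ) ?_ ?_ ?_ ?_ hg
    · rintro g ⟨ψ, hψ, rfl⟩
      refine Submodule.subset_span ⟨φ * ψ, Subalgebra.mul_mem _ hφ hψ, ?_⟩
      funext γ
      exact (map_mul (algebraMap K Ω) _ _).symm
    · rw [mul_zero]
      exact Submodule.zero_mem _
    · intro x y _ _ hx hy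
      rw [mul_add]
      exact Submodule.add_mem _ hx hy
    · intro c x _ hx
      rw [mul_smul_comm]
      exact Submodule.smul_mem _ _ hx
  · rw [zero_mul]
    exact Submodule.zero_mem _
  · intro x y _ _ hx hy
    rw [add_mul]
    exact Submodule.add_mem _ hx hy
  · intro c x _ hx
    rw [smul_mul_assoc]
    exact Submodule.smul_mem _ _ hx

/-- Extensions of polynomials in `σ^{±1}` on `Γ₁` to a coset. -/
private theorem GCe_ext_mem (A : HopfAction Γ O) {K : Type} [Field K] {Ω : Type} [Field Ω]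
    [Algebra K Ω] {N : ℕ} (σ : Γ → Matrix (Fin N) (Fin N) K)
    (hσ : ∀ γ δ, σ (γ * δ) = σ γ * σ δ) (δ : Γ) (f : A.act.ker → Ω)
    (hf : f ∈ Algebra.adjoin Ω
      ({f : A.act.ker → Ω | ∃ k l, f = fun γ : A.act.ker => algebraMap K Ω (σ (γ : Γ) k l)} ∪
       {f : A.act.ker → Ω | ∃ k l, f = fun γ : A.act.ker => algebraMap K Ω (σ (γ : Γ)⁻¹ k l)})) :
    GCe_ext A δ f ∈ GCe_sp A Ω σ := by
  refine Algebra.adjoin_induction (p := fun f _ => GCe_ext A δ f ∈ GCe_sp A Ω σ) ?_ ?_ ?_ ?_ hf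
  · rintro _ (⟨k, l, rfl⟩ | ⟨k, l, rfl⟩)
    · have h1 : GCe_ext A δ (fun γ : A.act.ker => algebraMap K Ω (σ (γ : Γ) k l)) =
          ∑ m, algebraMap K Ω (σ δ⁻¹ m l) •
            fun γ => algebraMap K Ω (((GCe_ind A K δ) * fun γ => σ γ k m) γ) := by
        funext γ
        rw [Finset.sum_apply]
        by_cases h : A.act γ = A.act δ
        · rw [GCe_ext_pos A _ h]
          change algebraMap K Ω (σ (γ * δ⁻¹) k l) = _
          rw [hσ, Matrix.mul_apply, map_sum]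
          refine Finset.sum_congr rfl fun m _ => ?_
          rw [Pi.smul_apply, Pi.mul_apply, GCe_ind_pos A h, one_mul, smul_eq_mul, map_mul, mul_comm]
        · rw [GCe_ext_neg A _ h]
          refine (Finset.sum_eq_zero fun m _ => ?_).symm
          rw [Pi.smul_apply, Pi.mul_apply, GCe_ind_neg A h, zero_mul, map_zero, smul_zero]
      rw [h1]
      exact Submodule.sum_mem _ fun m _ => Submodule.smul_mem _ _ (Submodule.subset_span
        ⟨_, Subalgebra.mul_mem _ (GCe_ind_mem A σ δ)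
          (Algebra.subset_adjoin (Or.inl (Or.inl ⟨k, m, rfl⟩))), rfl⟩)
    · have h1 : GCe_ext A δ (fun γ : A.act.ker => algebraMap K Ω (σ (γ : Γ)⁻¹ k l)) =
          ∑ m, algebraMap K Ω (σ δ k m) •
            fun γ => algebraMap K Ω (((GCe_ind A K δ) * fun γ => σ γ⁻¹ m l) γ) := by
        funext γ
        rw [Finset.sum_apply]
        by_cases h : A.act γ = A.act δ
        · rw [GCe_ext_pos A _ h]
          change algebraMap K Ω (σ (γ * δ⁻¹)⁻¹ k l) = _
          rw [mul_inv_rev, inv_inv, hσ, Matrix.mul_apply, map_sum]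
          refine Finset.sum_congr rfl fun m _ => ?_
          rw [Pi.smul_apply, Pi.mul_apply, GCe_ind_pos A h, one_mul, smul_eq_mul, map_mul]
        · rw [GCe_ext_neg A _ h]
          refine (Finset.sum_eq_zero fun m _ => ?_).symm
          rw [Pi.smul_apply, Pi.mul_apply, GCe_ind_neg A h, zero_mul, map_zero, smul_zero]
      rw [h1]
      exact Submodule.sum_mem _ fun m _ => Submodule.smul_mem _ _ (Submodule.subset_span
        ⟨_, Subalgebra.mul_mem _ (GCe_ind_mem A σ δ)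
          (Algebra.subset_adjoin (Or.inl (Or.inr ⟨m, l, rfl⟩))), rfl⟩)
  · intro c
    have h1 : GCe_ext A δ (algebraMap Ω (A.act.ker → Ω) c) =
        c • fun γ => algebraMap K Ω (GCe_ind A K δ γ) := by
      funext γ
      by_cases h : A.act γ = A.act δ
      · rw [GCe_ext_pos A _ h, Pi.smul_apply, GCe_ind_pos A h, map_one, smul_eq_mul, mul_one]
        rfl
      · rw [GCe_ext_neg A _ h, Pi.smul_apply, GCe_ind_neg A h, map_zero, smul_zero]
    rw [h1]
    exact Submodule.smul_mem _ _ (Submodule.subset_span ⟨_, GCe_ind_mem A σ δ, rfl⟩)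
  · intro f g _ _ hf hg
    have h1 : GCe_ext A δ (f + g) = GCe_ext A δ f + GCe_ext A δ g := by
      funext γ
      by_cases h : A.act γ = A.act δ
      · rw [Pi.add_apply, GCe_ext_pos A _ h, GCe_ext_pos A _ h, GCe_ext_pos A _ h, Pi.add_apply]
      · rw [Pi.add_apply, GCe_ext_neg A _ h, GCe_ext_neg A _ h, GCe_ext_neg A _ h, add_zero]
    rw [h1]
    exact Submodule.add_mem _ hf hg
  · intro f g _ _ hf hg
    have h1 : GCe_ext A δ (f * g) = GCe_ext A δ f * GCe_ext A δ g := by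
      funext γ
      by_cases h : A.act γ = A.act δ
      · rw [Pi.mul_apply, GCe_ext_pos A _ h, GCe_ext_pos A _ h, GCe_ext_pos A _ h, Pi.mul_apply]
      · rw [Pi.mul_apply, GCe_ext_neg A _ h, GCe_ext_neg A _ h, GCe_ext_neg A _ h, mul_zero]
    rw [h1]
    exact GCe_mul A hf hg

/-- G4 on all of `Γ`: choose representatives `δ` of the finitely many cosets of `Γ₁ = ker A.act`;
for `γ = γ₁ δ` (i.e. `A.act γ = A.act δ`), `ev (r γ) = ev (r γ₁) ev (r δ)`, `γ₁ = γ δ⁻¹`,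
`σ(γ₁) = σ(γ) σ(δ⁻¹)`; multiply with the indicator function of the coset and sum up. A polynomial over `Ω` in
functions with values in `K` is an `Ω`-linear combination of elements of `FK`. -/
theorem entries_mem_span {K : Type} [Field K] {Ω : Type} [Field Ω] [Algebra ℚ Ω] [Algebra K Ω]
    (hfin : (Set.range A.act).Finite) (r : Γ →* A.LGroup Ω) {N : ℕ}
    (σ : Γ → Matrix (Fin N) (Fin N) K) (hσ1 : σ 1 = 1) (hσ : ∀ γ δ, σ (γ * δ) = σ γ * σ δ)
    (hmem : ∀ i j, (fun γ : A.act.ker => ρ.ev Ω (r γ) i j) ∈ Algebra.adjoin Ω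
      ({f : A.act.ker → Ω | ∃ k l, f = fun γ : A.act.ker => algebraMap K Ω (σ (γ : Γ) k l)} ∪
       {f : A.act.ker → Ω | ∃ k l, f = fun γ : A.act.ker => algebraMap K Ω (σ (γ : Γ)⁻¹ k l)})) (i j : Fin n) :
    (fun γ => ρ.ev Ω (r γ) i j) ∈ Submodule.span Ω
      {f : Γ → Ω | ∃ φ ∈ FK A σ, f = fun γ => algebraMap K Ω (φ γ)} := by
  classical
  change _ ∈ GCe_sp A Ω σ
  let _i : Fintype (Set.range A.act) := hfin.fintype
  set δ : Set.range A.act → Γ := fun β => β.2.choose with hδ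
  have hδ' : ∀ β : Set.range A.act, A.act (δ β) = β := fun β => β.2.choose_spec
  have h1 : (fun γ => ρ.ev Ω (r γ) i j) = ∑ β : Set.range A.act, ∑ m, ρ.ev Ω (r (δ β)) m j •
      GCe_ext A (δ β) (fun γ : A.act.ker => ρ.ev Ω (r γ) i m) := by
    funext γ
    rw [Finset.sum_apply, Finset.sum_eq_single (⟨A.act γ, ⟨γ, rfl⟩⟩ : Set.range A.act)]
    · rw [Finset.sum_apply]
      set β : Set.range A.act := ⟨A.act γ, ⟨γ, rfl⟩⟩ with hβ
      have h2 : A.act γ = A.act (δ β) := (hδ' β).symm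
      have h3 : ρ.ev Ω (r γ) = ρ.ev Ω (r (γ * (δ β)⁻¹)) * ρ.ev Ω (r (δ β)) := by
        rw [← map_mul, ← map_mul, inv_mul_cancel_right]
      rw [h3, Matrix.mul_apply]
      refine Finset.sum_congr rfl fun m _ => ?_
      rw [Pi.smul_apply, GCe_ext_pos A _ h2, smul_eq_mul, mul_comm]
    · intro β _ hβ
      rw [Finset.sum_apply]
      refine Finset.sum_eq_zero fun m _ => ?_
      rw [Pi.smul_apply, GCe_ext_neg, smul_zero]
      intro h2
      exact hβ (Subtype.ext ((hδ' β).symm.trans h2.symm))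
    · intro h
      exact absurd (Finset.mem_univ _) h
  rw [h1]
  exact Submodule.sum_mem _ fun β _ => Submodule.sum_mem _ fun m _ =>
    Submodule.smul_mem _ _ (GCe_ext_mem A σ hσ (δ β) _ (hmem i m))

end Pool.Agent.Lib.MP_666dc0_nt.IG
end

section

open TensorProduct Coalgebra Topology
open scoped TensorProduct Matrix Pointwise

namespace Pool.Agent.Lib.MP_666dc0_nt
section Bound

variable {K : Type*} [NormedField K] [IsUltrametricDist K] {n : ℕ}

lemma norm_mulVec_le (X : Matrix (Fin n) (Fin n) K) {c : ℝ} (hc : 0 ≤ c)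
    (hX : ∀ i j, ‖X i j‖ ≤ c) (v : Fin n → K) : ‖X *ᵥ v‖ ≤ c * ‖v‖ := by
  rw [pi_norm_le_iff_of_nonneg (by positivity)]
  intro i
  rw [Matrix.mulVec, dotProduct]
  refine IsUltrametricDist.norm_sum_le_of_forall_le_of_nonneg (by positivity) fun j _ => ?_
  rw [norm_mul]
  exact mul_le_mul (hX i j) (norm_le_pi_norm v j) (norm_nonneg _) hc

lemma norm_pow_mulVec_le (X : Matrix (Fin n) (Fin n) K) {c : ℝ} (hc : 0 ≤ c)
    (hX : ∀ i j, ‖X i j‖ ≤ c) (k : ℕ) (v : Fin n → K) : ‖(X ^ k) *ᵥ v‖ ≤ c ^ k * ‖v‖ := by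
  induction k with
  | zero => simp
  | succ k ih =>
    rw [pow_succ', ← Matrix.mulVec_mulVec]
    refine (norm_mulVec_le X hc hX _).trans ?_
    rw [pow_succ', mul_assoc]
    exact mul_le_mul_of_nonneg_left ih hc

lemma norm_eigenvalue_le (Y Z : Matrix (Fin n) (Fin n) K) (W : ℕ → Matrix (Fin n) (Fin n) K)
    {c M : ℝ} (hc : 0 < c) (hM : 0 ≤ M) (hZ : ∀ i j, ‖Z i j‖ ≤ c) (hW : ∀ k i j, ‖W k i j‖ ≤ M)
    (hY : ∀ k, Y ^ k = Z ^ k * W k) {μ : K} {v : Fin n → K} (hv : v ≠ 0) (hμ : Y *ᵥ v = μ • v) :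
    ‖μ‖ ≤ c := by
  have hpow : ∀ k, (Y ^ k) *ᵥ v = μ ^ k • v := by
    intro k
    induction k with
    | zero => simp
    | succ k ih => rw [pow_succ, ← Matrix.mulVec_mulVec, hμ, Matrix.mulVec_smul, ih, smul_smul,
        pow_succ']
  have hv0 : 0 < ‖v‖ := norm_pos_iff.mpr hv
  have h1 : ∀ k : ℕ, ‖μ‖ ^ k ≤ c ^ k * M := by
    intro k
    have h2 : ‖(Y ^ k) *ᵥ v‖ ≤ c ^ k * (M * ‖v‖) := by
      rw [hY, ← Matrix.mulVec_mulVec]
      refine (norm_pow_mulVec_le Z hc.le hZ k _).trans ?_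
      exact mul_le_mul_of_nonneg_left (norm_mulVec_le _ hM (hW k) v) (by positivity)
    rw [hpow, norm_smul, norm_pow, ← mul_assoc] at h2
    exact le_of_mul_le_mul_right h2 hv0
  by_contra h
  push Not at h
  have h3 : 1 < ‖μ‖ / c := (one_lt_div hc).mpr h
  obtain ⟨k, hk⟩ := pow_unbounded_of_one_lt M h3
  have h4 := h1 k
  rw [div_pow, lt_div_iff₀ (by positivity)] at hk
  rw [mul_comm] at h4
  exact absurd hk (not_lt.mpr h4)

lemma norm_multiset_sum_le' (s : Multiset K) {c : ℝ} (hc : 0 ≤ c) (hs : ∀ x ∈ s, ‖x‖ ≤ c) :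
    ‖s.sum‖ ≤ c := by
  induction s using Multiset.induction_on with
  | empty => simpa using hc
  | cons a s ih =>
    rw [Multiset.sum_cons]
    refine (IsUltrametricDist.norm_add_le_max _ _).trans (max_le ?_ ?_)
    · exact hs a (Multiset.mem_cons_self a s)
    · exact ih fun x hx => hs x (Multiset.mem_cons_of_mem hx)

lemma norm_trace_le [IsAlgClosed K] (Y : Matrix (Fin n) (Fin n) K) {c : ℝ} (hc : 0 ≤ c)
    (h : ∀ (μ : K) (v : Fin n → K), v ≠ 0 → Y *ᵥ v = μ • v → ‖μ‖ ≤ c) : ‖Y.trace‖ ≤ c := by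
  rw [Matrix.trace_eq_sum_roots_charpoly]
  refine norm_multiset_sum_le' _ hc fun μ hμ => ?_
  have h1 : Y.charpoly.eval μ = 0 := (Polynomial.mem_roots'.mp hμ).2
  rw [Matrix.eval_charpoly, ← Matrix.exists_mulVec_eq_zero_iff] at h1
  obtain ⟨v, hv, hv'⟩ := h1
  refine h μ v hv ?_
  rw [Matrix.sub_mulVec, sub_eq_zero] at hv'
  rw [← hv']
  ext i
  simp [Matrix.scalar_apply, Matrix.mulVec_diagonal]

end Bound
section Compact

variable {O : Type} [CommRing O] [HopfAlgebra ℚ O] {Γ : Type*} [Group Γ] [TopologicalSpace Γ]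
  [IsTopologicalGroup Γ] [CompactSpace Γ] {A : HopfAction Γ O}

lemma finite_range_act (hker : IsOpen (A.act.ker : Set Γ)) : (Set.range A.act).Finite := by
  have h1 := Subgroup.quotient_finite_of_isOpen A.act.ker hker
  have h2 : Finite A.act.range := Finite.of_equiv _ (QuotientGroup.quotientKerEquivRange A.act).toEquiv
  have h3 : Set.range A.act = (A.act.range : Set (O ≃ₐ[ℚ] O)) := by ext; simp
  rw [h3]
  exact Set.toFinite _

/-- Enlarging a finite set of functions to a finite stable one. -/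
lemma exists_stable (hker : IsOpen (A.act.ker : Set Γ)) {Φ : Set O} (hΦ : Φ.Finite) :
    ∃ Φ' : Set O, Φ'.Finite ∧ Φ ⊆ Φ' ∧ ∀ γ, ∀ f ∈ Φ', A.act γ f ∈ Φ' := by
  refine ⟨Set.image2 (fun (e : O ≃ₐ[ℚ] O) f => e f) (Set.range A.act) Φ,
    (finite_range_act hker).image2 _ hΦ, ?_, ?_⟩
  · intro f hf
    exact ⟨A.act 1, ⟨1, rfl⟩, f, hf, by change A.act 1 f = f; rw [map_one, AlgEquiv.one_apply]⟩
  · rintro γ _ ⟨_, ⟨δ, rfl⟩, f, hf, rfl⟩
    exact ⟨A.act (γ * δ), ⟨_, rfl⟩, f, hf, by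
      change A.act (γ * δ) f = A.act γ (A.act δ f); rw [map_mul, AlgEquiv.mul_apply]⟩

variable {n : ℕ} (ρ : MatRep A n)

omit [CompactSpace Γ] in
lemma continuous_pm (hker : IsOpen (A.act.ker : Set Γ)) (R : Type) [CommRing R] [Algebra ℚ R]
    [TopologicalSpace R] (i j : Fin n) : Continuous fun γ => ρ.pm R γ i j := by
  apply IsLocallyConstant.continuous
  rw [IsLocallyConstant.iff_exists_open]
  intro γ
  refine ⟨γ • (A.act.ker : Set Γ), hker.smul γ, ⟨1, one_mem _, by simp⟩, ?_⟩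
  rintro _ ⟨u, hu, rfl⟩
  change ρ.pm R (γ * u) i j = _
  have h1 : ρ.P u = 1 := ρ.P_eq u hu
  have h2 : ρ.pm R u = 1 := by
    change (ρ.P u).map (algebraMap ℚ R) = 1
    rw [h1]; simp
  rw [map_mul, h2, mul_one]

omit [CompactSpace Γ] in
lemma continuous_ev (hker : IsOpen (A.act.ker : Set Γ)) {R : Type} [CommRing R] [Algebra ℚ R]
    [TopologicalSpace R] [IsTopologicalRing R] (r : Γ →* A.LGroup R)
    (hr : ∀ γ, (r γ).right = γ) (hc : ∀ f, Continuous fun γ => (r γ).left.hom f) (i j : Fin n) :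
    Continuous fun γ => ρ.ev R (r γ) i j := by
  have h1 : (fun γ => ρ.ev R (r γ) i j) =
      fun γ => ∑ k, (r γ).left.hom (ρ.a i k) * ρ.pm R γ k j := by
    ext γ
    rw [MatRep.ev_apply, Matrix.mul_apply, hr]
    rfl
  rw [h1]
  exact continuous_finsetSum _ fun k _ => (hc _).mul (continuous_pm ρ hker R k j)

variable {K : Type} [NormedField K] [IsUltrametricDist K] [Algebra ℚ K] [IsAlgClosed K]

/-- Invariant functions are bounded on the values of continuous homomorphisms, uniformly. -/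
theorem exists_bound (K : Type) [NormedField K] [IsUltrametricDist K] [Algebra ℚ K] [IsAlgClosed K]
    (hker : IsOpen (A.act.ker : Set Γ)) (I : O →ₗ[ℚ] ℚ) (hI1 : I 1 = 1)
    (hI : ∀ f, sr I (comul f) = algebraMap ℚ O (I f)) {σ : Γ} {f : O} (hf : f ∈ A.inv σ) :
    ∃ C : ℝ, ∀ r : Γ →* A.LGroup K, (∀ γ, (r γ).right = γ) →
      (∀ f, Continuous fun γ => (r γ).left.hom f) → ‖(r σ).left.hom f‖ ≤ C := by
  classical
  obtain ⟨Φ, hΦfin, hfΦ, hΦst⟩ := exists_stable hker (Set.finite_singleton f)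
  obtain ⟨n, ρ, hρ⟩ := exists_matRep A hΦfin hΦst
  have h1 := hρ f (hfΦ rfl)
  rw [Submodule.mem_span_range_iff_exists_fun] at h1
  obtain ⟨c, hc⟩ := h1
  let C' : Matrix (Fin n) (Fin n) ℚ := fun j i => c (i, j)
  have hC' : f = ∑ i, ∑ j, C' j i • ρ.a i j := by
    rw [← hc, Fintype.sum_prod_type]
  let B : Matrix (Fin n) (Fin n) K := (ρ.avgB I (ρ.P σ⁻¹ * C')).map (algebraMap ℚ K)
  let Z : Matrix (Fin n) (Fin n) K := ρ.pm K σ * B
  have hcb : ∃ c : ℝ, 0 < c ∧ ∀ i j, ‖Z i j‖ ≤ c := by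
    refine ⟨1 + ∑ i, ∑ j, ‖Z i j‖, by positivity, fun i j => ?_⟩
    have h2 : ‖Z i j‖ ≤ ∑ j, ‖Z i j‖ :=
      Finset.single_le_sum (f := fun j => ‖Z i j‖) (fun _ _ => norm_nonneg _) (Finset.mem_univ j)
    have h3 : ∑ j, ‖Z i j‖ ≤ ∑ i, ∑ j, ‖Z i j‖ :=
      Finset.single_le_sum (f := fun i => ∑ j, ‖Z i j‖)
        (fun _ _ => Finset.sum_nonneg fun _ _ => norm_nonneg _) (Finset.mem_univ i)
    linarith
  obtain ⟨c, hc0, hcZ⟩ := hcb
  refine ⟨c, fun r hr hcont => ?_⟩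
  have htr := ρ.eval_eq_trace (R := K) I hI1 hf hC' (r σ).left
  have hev : ρ.gm (r σ).left * ρ.pm K σ = ρ.ev K (r σ) := by
    rw [MatRep.ev_apply, hr]
  rw [htr, hev]
  -- the bounded part
  let Wf : Γ → Matrix (Fin n) (Fin n) K := fun γ => ρ.pm K γ⁻¹ * ρ.ev K (r γ)
  have hWc : ∀ i j, Continuous fun γ => Wf γ i j := by
    intro i j
    have h2 : (fun γ => Wf γ i j) = fun γ => ∑ k, ρ.pm K γ⁻¹ i k * ρ.ev K (r γ) k j := by
      ext γ; exact Matrix.mul_apply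
    rw [h2]
    refine continuous_finsetSum _ fun k _ => ?_
    exact ((continuous_pm ρ hker K i k).comp continuous_inv).mul (continuous_ev ρ hker r hr hcont k j)
  have hM : ∃ M : ℝ, 0 ≤ M ∧ ∀ γ i j, ‖Wf γ i j‖ ≤ M := by
    have h1 : ∀ i j, ∃ C : ℝ, ∀ γ, ‖Wf γ i j‖ ≤ C := by
      intro i j
      obtain ⟨C, hC⟩ := (isCompact_range (hWc i j).norm).bddAbove
      exact ⟨C, fun γ => hC ⟨γ, rfl⟩⟩
    choose C hC using h1
    refine ⟨∑ i, ∑ j, |C i j|, by positivity, fun γ i j => ?_⟩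
    refine (hC i j γ).trans ((le_abs_self _).trans ?_)
    have h2 : |C i j| ≤ ∑ j, |C i j| :=
      Finset.single_le_sum (f := fun j => |C i j|) (fun _ _ => abs_nonneg _) (Finset.mem_univ j)
    have h3 : ∑ j, |C i j| ≤ ∑ i, ∑ j, |C i j| :=
      Finset.single_le_sum (f := fun i => ∑ j, |C i j|)
        (fun _ _ => Finset.sum_nonneg fun _ _ => abs_nonneg _) (Finset.mem_univ i)
    linarith
  obtain ⟨M, hM0, hM⟩ := hM
  refine norm_trace_le _ hc0.le fun μ v hv hμ => ?_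
  refine norm_eigenvalue_le (ρ.ev K (r σ) * B) Z (fun k => Wf (σ ^ k)) hc0 hM0 hcZ
    (fun k => hM _) (fun k => ?_) hv hμ
  have h4 := (ρ.pow_formula (B := B) (fun x => ρ.avgB_comm I hI _ x) (r σ) k).1
  rw [h4, hr]
  change _ = Z ^ k * (ρ.pm K (σ ^ k)⁻¹ * ρ.ev K (r (σ ^ k)))
  rw [map_pow r, map_pow (ρ.ev K), inv_pow, mul_assoc]

end Compact
end Pool.Agent.Lib.MP_666dc0_nt
end

section

open TensorProduct
open scoped TensorProduct

namespace Pool.Agent.Lib.MP_666dc0_nt.IG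

variable {B : Type} [CommRing B] [IsDomain B] [IsPrincipalIdealRing B] [Algebra B ℚ]
  [IsFractionRing B ℚ] {O : Type} [CommRing O] [HopfAlgebra B O] {Γ : Type} [Group Γ]
  {A : OverB.HopfAction B Γ O} {n : ℕ}

/-- Base change of a matrix representation: `a' i j = 1 ⊗ a i j`, `P' γ = P γ` mapped to `ℚ`. `P_eq`: if
`(baseA A).act γ = 1` then `A.act γ = 1` since `O → ℚ ⊗ O` is injective (`O` is free, `exists_mul_eq_zero`). -/
theorem exists_baseRep [Module.Free B O] (ρ : OverB.MatRep A n) : ∃ ρ' : MatRep (baseA A) n,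
    (∀ i j, ρ'.a i j = 1 ⊗ₜ[B] ρ.a i j) ∧ ∀ γ i j, ρ'.P γ i j = algebraMap B ℚ (ρ.P γ i j) := by
  have hbase : ∀ (b : B) (x : O), (algebraMap B ℚ b) • ((1 : ℚ) ⊗ₜ[B] x) = (1 : ℚ) ⊗ₜ[B] (b • x) := by
    intro b x
    rw [TensorProduct.smul_tmul', smul_eq_mul, mul_one, TensorProduct.tmul_smul,
      TensorProduct.smul_tmul', Algebra.smul_def, mul_one]
  have hinj : ∀ x : O, (1 : ℚ) ⊗ₜ[B] x = 0 → x = 0 := by
    intro x hx
    obtain ⟨N, hN, h0⟩ := exists_mul_eq_zero hx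
    have hN' : (N : B) ≠ 0 := by
      intro h
      have h1 := congrArg (algebraMap B ℚ) h
      rw [map_natCast, map_zero] at h1
      exact hN (Nat.cast_eq_zero.1 h1)
    have h1 : (N : B) • x = 0 := by
      rw [Algebra.smul_def, map_natCast]
      exact h0
    exact (smul_eq_zero.1 h1).resolve_left hN'
  refine ⟨⟨Matrix.of fun i j => 1 ⊗ₜ[B] ρ.a i j,
    (RingHom.mapMatrix (algebraMap B ℚ)).toMonoidHom.comp ρ.P, ?_, ?_, ?_, ?_⟩,
    fun i j => rfl, fun γ i j => rfl⟩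
  · intro i j
    simp only [Matrix.of_apply]
    rw [TensorProduct.comul_tmul, ρ.comul_a, TensorProduct.tmul_sum, map_sum]
    refine Finset.sum_congr rfl fun k _ => ?_
    rw [CommSemiring.comul_apply]
    rfl
  · intro i j
    simp only [Matrix.of_apply]
    rw [TensorProduct.counit_tmul, ρ.counit_a]
    split_ifs
    · rw [one_smul]
      rfl
    · rw [zero_smul]
  · intro γ i j
    simp only [Matrix.of_apply, baseA_act_tmul]
    have e : ∀ i j, ((RingHom.mapMatrix (algebraMap B ℚ)).toMonoidHom.comp ρ.P) γ i j =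
        algebraMap B ℚ (ρ.P γ i j) := fun i j => rfl
    simp only [e, hbase]
    rw [← TensorProduct.tmul_sum, ← TensorProduct.tmul_sum, ρ.act_a]
  · intro γ hγ
    have hA : A.act γ = 1 := by
      ext f
      have h1 : (baseA A).act γ ((1 : ℚ) ⊗ₜ[B] f) = (1 : ℚ) ⊗ₜ[B] f := by
        rw [hγ]
        rfl
      rw [baseA_act_tmul, ← sub_eq_zero, ← TensorProduct.tmul_sub] at h1
      have h2 := hinj _ h1
      rw [sub_eq_zero] at h2
      exact h2
    have h3 := ρ.P_eq γ hA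
    change (RingHom.mapMatrix (algebraMap B ℚ)) (ρ.P γ) = 1
    rw [h3, map_one]

/-- The base change of a representation that is faithful on the generic fibre is faithful. `ℚ ⊗ O` is generated as a
`ℚ`-vector space by the `1 ⊗ f`, and `b (1 ⊗ f) = 1 ⊗ (b f)` is in the subalgebra (the set of `g : O` with `1 ⊗ g` in
the `ℚ`-subalgebra is a `B`-subalgebra; `antipode (1 ⊗ a) = 1 ⊗ antipode a`). -/
theorem faithful_baseRep {ρ : OverB.MatRep A n} (hρ : OverB.IsFaithfulRep ρ)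
    {ρ' : MatRep (baseA A) n} (ha : ∀ i j, ρ'.a i j = 1 ⊗ₜ[B] ρ.a i j) : Faithful ρ' := by
  set S' : Set (ℚ ⊗[B] O) := {f | ∃ i j, f = ρ'.a i j} ∪
    {f | ∃ i j, f = HopfAlgebra.antipode ℚ (ρ'.a i j)} with hS'
  have h1 : ∀ f ∈ Algebra.adjoin B ({f | ∃ i j, f = ρ.a i j} ∪
      {f | ∃ i j, f = HopfAlgebra.antipode B (ρ.a i j)}),
      ((1 : ℚ) ⊗ₜ[B] f) ∈ Algebra.adjoin ℚ S' := by
    have hle : Algebra.adjoin B ({f | ∃ i j, f = ρ.a i j} ∪
        {f | ∃ i j, f = HopfAlgebra.antipode B (ρ.a i j)}) ≤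
        ((Algebra.adjoin ℚ S').restrictScalars B).comap
          (Algebra.TensorProduct.includeRight : O →ₐ[B] ℚ ⊗[B] O) := by
      rw [Algebra.adjoin_le_iff]
      rintro f (⟨i, j, rfl⟩ | ⟨i, j, rfl⟩)
      · refine Algebra.subset_adjoin (Or.inl ⟨i, j, ?_⟩)
        rw [ha]
        rfl
      · refine Algebra.subset_adjoin (Or.inr ⟨i, j, ?_⟩)
        rw [ha, TensorProduct.antipode_def]
        change (1 : ℚ) ⊗ₜ[B] HopfAlgebra.antipode B (ρ.a i j) =
          TensorProduct.AlgebraTensorModule.map (HopfAlgebra.antipode ℚ) (HopfAlgebra.antipode B)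
            ((1 : ℚ) ⊗ₜ[B] ρ.a i j)
        rw [TensorProduct.AlgebraTensorModule.map_tmul]
        rw [HopfAlgebra.antipode_one]
    exact fun f hf => hle hf
  have h2 : ∀ f : O, ((1 : ℚ) ⊗ₜ[B] f) ∈ Algebra.adjoin ℚ S' := by
    intro f
    obtain ⟨b, hb, hbf⟩ := hρ f
    have h3 := h1 _ hbf
    have hb' : algebraMap B ℚ b ≠ 0 := fun h => hb ((IsFractionRing.injective B ℚ)
      (by rw [h, map_zero]))
    have h4 : (1 : ℚ) ⊗ₜ[B] f = (algebraMap B ℚ b)⁻¹ • ((1 : ℚ) ⊗ₜ[B] (b • f)) := by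
      have e : (algebraMap B ℚ b)⁻¹ • (b • (1 : ℚ)) = 1 := by
        rw [Algebra.smul_def b, mul_one, smul_eq_mul, inv_mul_cancel₀ hb']
      rw [TensorProduct.tmul_smul, TensorProduct.smul_tmul', TensorProduct.smul_tmul', e]
    rw [h4]
    exact (Algebra.adjoin ℚ S').smul_mem h3 _
  change Algebra.adjoin ℚ S' = ⊤
  rw [eq_top_iff]
  rintro f -
  induction f using TensorProduct.induction_on with
  | zero => exact zero_mem _
  | tmul q f =>
    have h5 : q ⊗ₜ[B] f = q • ((1 : ℚ) ⊗ₜ[B] f) := by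
      rw [TensorProduct.smul_tmul', smul_eq_mul, mul_one]
    rw [h5]
    exact (Algebra.adjoin ℚ S').smul_mem (h2 f) _
  | add a b hha hhb => exact add_mem hha hhb

end Pool.Agent.Lib.MP_666dc0_nt.IG
end

section

open Polynomial

namespace Pool.Agent.Lib.MP_666dc0_nt.IG

variable {O : Type} [CommRing O] [HopfAlgebra ℚ O] {Γ : Type} [Group Γ] {A : HopfAction Γ O}
  {n : ℕ} (ρ : MatRep A n)

private lemma J13b_pow {K : Type} [Field K] {N : ℕ} (σ : Γ → Matrix (Fin N) (Fin N) K)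
    (h1 : σ 1 = 1) (hmul : ∀ γ δ, σ (γ * δ) = σ γ * σ δ) (g : Γ) (a : ℕ) :
    σ (g ^ a) = (σ g) ^ a := by
  induction a with
  | zero => rw [pow_zero, pow_zero, h1]
  | succ a ih => rw [pow_succ, pow_succ, hmul, ih]

/-- Induction over `Algebra.adjoin`. Generators: `σ (g ^ a) = (σ g) ^ a` (`DG.mem_EXP`), `σ (g ^ a)⁻¹ = (σ g⁻¹) ^ a`
(`DG_inv`, `σ g * σ g⁻¹ = 1`), and functions of `A.act (g ^ a) = 1` are constant. -/
theorem FK_mem_EXP {K : Type} [Field K] {N : ℕ} (σ : Γ → Matrix (Fin N) (Fin N) K) (h1 : σ 1 = 1)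
    (hmul : ∀ γ δ, σ (γ * δ) = σ γ * σ δ) {g : Γ} (hg : A.act g = 1) (hd : DG (σ g)) {φ : Γ → K}
    (hφ : φ ∈ FK A σ) : (fun a : ℕ => φ (g ^ a)) ∈ EXP K := by
  unfold FK at hφ
  induction hφ using Algebra.adjoin_induction with
  | mem f hf =>
    rcases hf with (⟨k, l, rfl⟩ | ⟨k, l, rfl⟩) | hf
    · have h2 := hd.mem_EXP k l
      have h3 : (fun a : ℕ => (fun γ => σ γ k l) (g ^ a)) = fun a : ℕ => ((σ g) ^ a) k l := by
        funext a
        change σ (g ^ a) k l = ((σ g) ^ a) k l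
        rw [J13b_pow σ h1 hmul]
      rw [h3]
      exact h2
    · have hd' : DG (σ g⁻¹) := DG_inv (by rw [← hmul, mul_inv_cancel, h1])
        (by rw [← hmul, inv_mul_cancel, h1]) hd
      have h2 := hd'.mem_EXP k l
      have h3 : (fun a : ℕ => (fun γ => σ γ⁻¹ k l) (g ^ a)) = fun a : ℕ => ((σ g⁻¹) ^ a) k l := by
        funext a
        change σ (g ^ a)⁻¹ k l = ((σ g⁻¹) ^ a) k l
        rw [← J13b_pow σ h1 hmul, inv_pow]
      rw [h3]
      exact h2
    · have h2 : (fun a : ℕ => f (g ^ a)) = algebraMap K (ℕ → K) (f 1) := by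
        ext a
        rw [Pi.algebraMap_apply, Algebra.algebraMap_self, RingHom.id_apply]
        exact hf _ _ (by rw [map_pow, hg, one_pow, map_one])
      rw [h2]
      exact Subalgebra.algebraMap_mem _ _
  | algebraMap c =>
    have h2 : (fun a : ℕ => (algebraMap K (Γ → K) c) (g ^ a)) = algebraMap K (ℕ → K) c := rfl
    rw [h2]
    exact Subalgebra.algebraMap_mem _ _
  | add f f' _ _ hf hf' => exact add_mem hf hf'
  | mul f f' _ _ hf hf' => exact mul_mem hf hf'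

/-- `DG (σ γ)` implies `DG (σ (γ ^ m))`: `(σ (γ^m))^a = (σ γ)^(m a)` (`EXP_comp_mul`, `DG_of_mem_EXP`). -/
theorem DG_pow {K : Type} [Field K] {N : ℕ} (σ : Γ → Matrix (Fin N) (Fin N) K) (h1 : σ 1 = 1)
    (hmul : ∀ γ δ, σ (γ * δ) = σ γ * σ δ) {γ : Γ} (hd : DG (σ γ)) (m : ℕ) : DG (σ (γ ^ m)) := by
  apply DG_of_mem_EXP
  intro i j
  have h2 := EXP_comp_mul (hd.mem_EXP i j) m
  have h3 : (fun a : ℕ => ((σ (γ ^ m)) ^ a) i j) = fun a : ℕ => ((σ γ) ^ (m * a)) i j := by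
    funext a
    rw [J13b_pow σ h1 hmul, ← pow_mul]
  rw [h3]
  exact h2

end Pool.Agent.Lib.MP_666dc0_nt.IG
end
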