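import Pool.Agent.Lib.MP_666dc0_nt.Mg.G041
import Pool.Agent.Lib.MP_666dc0_nt.Mg.G040
import Pool.Agent.Lib.MP_666dc0_nt.Mg.G039
import Pool.Agent.Lib.MP_666dc0_nt.IG.GAa
import Pool.Agent.Lib.MP_666dc0_nt.IG.GCa
import Pool.Agent.Lib.MP_666dc0_nt.Mg.G045

section

open MvPolynomial

namespace Pool.Agent.Lib.MP_666dc0_nt.IG

variable {O : Type} [CommRing O] [HopfAlgebra ℚ O] {Γ : Type} [Group Γ] {A : HopfAction Γ O}
  {n : ℕ} (ρ : MatRep A n)

private theorem GBb_evM_mem {Ω : Type} [CommRing Ω] [Algebra ℚ Ω] (r : Γ →* A.LGroup Ω) (κ : Type)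
    [CommRing κ] [Algebra Ω κ] (γ : Γ) : evM ρ r κ γ ∈ spA ρ r κ :=
  Submodule.subset_span ⟨γ, rfl⟩

/-- Extension of scalars from `κ` to `κ'`. -/
private theorem GBb_map_mem {Ω : Type} [Field Ω] [Algebra ℚ Ω] (r : Γ →* A.LGroup Ω) (κ κ' : Type)
    [Field κ] [Algebra Ω κ] [Field κ'] [Algebra Ω κ'] [Algebra κ κ'] [IsScalarTower Ω κ κ']
    {X : Matrix (Fin n) (Fin n) κ} (hX : X ∈ spA ρ r κ) :
    X.map (algebraMap κ κ') ∈ spA ρ r κ' := by
  refine Submodule.span_induction (p := fun X _ => X.map (algebraMap κ κ') ∈ spA ρ r κ')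
    ?_ ?_ ?_ ?_ hX
  · rintro _ ⟨γ, rfl⟩
    refine Submodule.subset_span ⟨γ, ?_⟩
    ext i j
    exact IsScalarTower.algebraMap_apply Ω κ κ' _
  · have e : (0 : Matrix (Fin n) (Fin n) κ).map (algebraMap κ κ') = 0 := by
      ext i j
      exact map_zero (algebraMap κ κ')
    rw [e]
    exact Submodule.zero_mem _
  · intro x y _ _ hx hy
    have e : (x + y).map (algebraMap κ κ') = x.map (algebraMap κ κ') + y.map (algebraMap κ κ') := by
      ext i j
      exact map_add (algebraMap κ κ') _ _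
    rw [e]
    exact Submodule.add_mem _ hx hy
  · intro c x _ hx
    have e : (c • x).map (algebraMap κ κ') = algebraMap κ κ' c • x.map (algebraMap κ κ') := by
      ext i j
      exact map_mul (algebraMap κ κ') _ _
    rw [e]
    exact Submodule.smul_mem _ _ hx

/-- `act_ev` for `evM`. -/
private theorem GBb_act_evM {G : Red n} (hG : IsRedG ρ G) (TD : TensorData G)
    {K : Type} [Field K] {V : Γ → O → K} {Ω : Type} [Field Ω] [Algebra ℚ Ω]
    [Algebra K Ω] {r : Γ →* A.LGroup Ω} (h : HasVal A V Ω r) (κ : Type) [Field κ]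
    [Algebra ℚ κ] [Algebra K κ] [Algebra Ω κ] [IsScalarTower K Ω κ] (γ : Γ) :
    ∃ D : (b : TD.s.β) → TD.s.C b → TD.s.C b → κ,
      act (evM ρ r κ γ) (evM ρ r κ γ⁻¹) (inA κ TD.T₀) = mix D (inA κ TD.T₀) := by
  obtain ⟨_, h2⟩ := hasVal_map ρ h κ
  have h3 := act_ev ρ hG TD (((A.mapL (algebraMap Ω κ).toRatAlgHom).comp r) γ)
  rw [← map_inv, h2, h2] at h3
  exact ⟨_, h3⟩

/-- The span modulo finitely many conjugates. -/
private theorem GBb_conj {κ : Type} [Field κ] {n : ℕ} {Γ : Type} (q : Γ → Matrix (Fin n) (Fin n) κ) :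
    ∃ (ι : Type) (_ : Fintype ι) (a : ι → Γ), ∀ γ, ∃ c : ι → κ, q γ = ∑ i, c i • q (a i) := by
  obtain ⟨ι, a, _, hsp, hli⟩ := exists_linearIndependent' κ q
  have hfin : Finite ι := hli.finite
  refine ⟨ι, Fintype.ofFinite ι, a, fun γ => ?_⟩
  let _i : Fintype ι := Fintype.ofFinite ι
  have h1 : q γ ∈ Submodule.span κ (Set.range fun i => q (a i)) := by
    change q γ ∈ Submodule.span κ (Set.range (q ∘ a))
    rw [hsp]
    exact Submodule.subset_span ⟨γ, rfl⟩
  obtain ⟨c, hc⟩ := (Submodule.mem_span_range_iff_exists_fun κ).1 h1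
  exact ⟨c, hc.symm⟩

/-- A unipotent element of the span has its inverse in the span. -/
private theorem GBb_inv_mem {Ω : Type} [CommRing Ω] [Algebra ℚ Ω] (r : Γ →* A.LGroup Ω) (κ : Type)
    [Field κ] [CharZero κ] [Algebra Ω κ] {u u' : Matrix (Fin n) (Fin n) κ} (h2 : u' * u = 1)
    (hu : NilR ρ r κ (u - 1)) : u' ∈ spA ρ r κ := by
  have h3 := NilR_pow ρ r κ hu
  have hone : (1 : Matrix (Fin n) (Fin n) κ) ∈ spA ρ r κ := by
    rw [← evM_one ρ r κ]
    exact GBb_evM_mem ρ r κ 1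
  have hpow : ∀ k : ℕ, (1 - u) ^ k ∈ spA ρ r κ := by
    intro k
    induction k with
    | zero =>
      rw [pow_zero]
      exact hone
    | succ k ih =>
      rw [pow_succ]
      refine spA_mul ρ r κ ih ?_
      have e : 1 - u = -(u - 1) := by abel
      rw [e]
      exact Submodule.neg_mem _ hu.1
  have h4 : (∑ k ∈ Finset.range n, (1 - u) ^ k) = u' := by
    have h5 : u * (∑ k ∈ Finset.range n, (1 - u) ^ k) = 1 := by
      have h6 := mul_neg_geom_sum (1 - u) n
      have e : (1 - u) ^ n = 0 := by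
        have e1 : 1 - u = -(u - 1) := by abel
        rw [e1, neg_pow, h3, mul_zero]
      rw [e, sub_zero, sub_sub_cancel] at h6
      exact h6
    calc (∑ k ∈ Finset.range n, (1 - u) ^ k)
        = (u' * u) * (∑ k ∈ Finset.range n, (1 - u) ^ k) := by rw [h2, one_mul]
      _ = u' := by rw [mul_assoc, h5, mul_one]
  rw [← h4]
  exact Submodule.sum_mem _ fun k _ => hpow k

/-- G2. For a minimal point, a unipotent element `u` (`u - 1` in the radical of the trace form) which fixes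
`T₀` is trivial. Suppose `ν := u - 1`. The conjugates `evM γ ν (evM γ)⁻¹` span a finite-dimensional
space; choose a finite set `J ⊂ Γ` containing `1` such that the conjugates by `J` span it; `x j` the
conjugate by `j ∈ J`, `w j = evM j u' (evM j)⁻¹`. `1 + x j` fixes `T₀` (`act_ev`-type identity for
`evM`: `act (evM γ) (evM γ⁻¹) T₀ = mix (D γ) T₀`). By `nullcone` (hypotheses: `NilR_pow`, `NilR_word`),
all `GL_n`-invariants agree at `(x, T₀)` and `(0, T₀)`, i.e. `hmk` applies to `t = toTot x T₀`,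
`thr = isMat` (`kill_isMat_toTot`): `κ' ⊇ κ`, `g, g', lam`. The pairs `(evM γ, evM γ⁻¹)` act on `t` by
a `mix` (conjugation permutes the span of the `x j`; `D γ` on `T₀`), so `g evM γ g' ∈ P(lam)`; the entries
of `g (x j) g'` have weight `≥ 1`, so `lv lam (g ν g') = 0`; `min_injective` gives `ν = 0`. -/
theorem unipotent_trivial {G : Red n} (hG : IsRedG ρ G) (hρ : Faithful ρ) (TD : TensorData G)
    {K : Type} [Field K] [CharZero K] {V : Γ → O → K} {Ω : Type} [Field Ω] [Algebra ℚ Ω]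
    [Algebra K Ω] {r : Γ →* A.LGroup Ω} (h : IsMinPt ρ V Ω r) (κ : Type) [Field κ]
    [IsAlgClosed κ] [Algebra ℚ κ] [Algebra K κ] [Algebra Ω κ] [IsScalarTower K Ω κ]
    (u u' : Matrix (Fin n) (Fin n) κ) (h1 : u * u' = 1) (h2 : u' * u = 1)
    (hu : NilR ρ r κ (u - 1)) (hT : act u u' (inA κ TD.T₀) = inA κ TD.T₀) : u = 1 := by
  classical
  have _ : CharZero κ := algebraRat.charZero κ
  set E : Γ → Matrix (Fin n) (Fin n) κ := evM ρ r κ with hE
  have hEE : ∀ γ, E γ * E γ⁻¹ = 1 := fun γ => (evM_mul_inv ρ r κ γ).1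
  have hEE' : ∀ γ, E γ⁻¹ * E γ = 1 := fun γ => (evM_mul_inv ρ r κ γ).2
  have hEm : ∀ γ, E γ ∈ spA ρ r κ := fun γ => GBb_evM_mem ρ r κ γ
  have hEmul : ∀ γ δ, E (γ * δ) = E γ * E δ := evM_mul ρ r κ
  have hE1 : E 1 = 1 := evM_one ρ r κ
  have hu' : u' ∈ spA ρ r κ := GBb_inv_mem ρ r κ h2 hu
  set q : Γ → Matrix (Fin n) (Fin n) κ := fun γ => E γ * (u - 1) * E γ⁻¹ with hq
  obtain ⟨ι, hι, a, ha⟩ := GBb_conj q
  set b : Option ι → Γ := fun o => match o with
    | none => 1
    | some i => a i with hb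
  set x : Option ι → Matrix (Fin n) (Fin n) κ := fun o => q (b o) with hx
  set w : Option ι → Matrix (Fin n) (Fin n) κ := fun o => E (b o) * u' * E (b o)⁻¹ with hw
  have hxu : ∀ o, 1 + x o = E (b o) * u * E (b o)⁻¹ := by
    intro o
    change 1 + E (b o) * (u - 1) * E (b o)⁻¹ = _
    rw [mul_sub, mul_one, sub_mul, hEE]
    abel
  have hxN : ∀ o, NilR ρ r κ (x o) := fun o =>
    NilR_mul_right ρ r κ (NilR_mul_left ρ r κ hu (hEm _)) (hEm _)
  have hwm : ∀ o, w o ∈ spA ρ r κ := fun o =>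
    spA_mul ρ r κ (spA_mul ρ r κ (hEm _) hu') (hEm _)
  have hxw : ∀ o, (1 + x o) * w o = 1 := by
    intro o
    rw [hxu]
    change E (b o) * u * E (b o)⁻¹ * (E (b o) * u' * E (b o)⁻¹) = 1
    calc E (b o) * u * E (b o)⁻¹ * (E (b o) * u' * E (b o)⁻¹)
        = E (b o) * u * (E (b o)⁻¹ * E (b o)) * u' * E (b o)⁻¹ := by simp only [mul_assoc]
      _ = E (b o) * (u * u') * E (b o)⁻¹ := by rw [hEE', mul_one]; simp only [mul_assoc]
      _ = 1 := by rw [h1, mul_one, hEE]
  have hwx : ∀ o, w o * (1 + x o) = 1 := by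
    intro o
    rw [hxu]
    change E (b o) * u' * E (b o)⁻¹ * (E (b o) * u * E (b o)⁻¹) = 1
    calc E (b o) * u' * E (b o)⁻¹ * (E (b o) * u * E (b o)⁻¹)
        = E (b o) * u' * (E (b o)⁻¹ * E (b o)) * u * E (b o)⁻¹ := by simp only [mul_assoc]
      _ = E (b o) * (u' * u) * E (b o)⁻¹ := by rw [hEE', mul_one]; simp only [mul_assoc]
      _ = 1 := by rw [h2, mul_one, hEE]
  have hwN : ∀ o, NilR ρ r κ (w o - 1) := by
    intro o
    have e : w o - 1 = -(w o * x o) := by
      have h3 := hwx o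
      rw [mul_add, mul_one] at h3
      rw [← h3]
      abel
    rw [e]
    have h4 := NilR_mul_left ρ r κ (hxN o) (hwm o)
    exact ⟨Submodule.neg_mem _ h4.1, fun γ => by rw [neg_mul, Matrix.trace_neg, h4.2 γ, neg_zero]⟩
  have hTx : ∀ o, act (1 + x o) (w o) (inA κ TD.T₀) = inA κ TD.T₀ := by
    intro o
    obtain ⟨D', hD'⟩ := GBb_act_evM ρ hG TD h.val κ (b o)⁻¹
    rw [inv_inv] at hD'
    rw [hxu]
    change act (E (b o) * u * E (b o)⁻¹) (E (b o) * u' * E (b o)⁻¹) (inA κ TD.T₀) = _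
    have e1 : act u u' (act (E (b o)⁻¹) (E (b o)) (inA κ TD.T₀)) =
        act (E (b o)⁻¹) (E (b o)) (inA κ TD.T₀) := by
      rw [hD', act_mix, hT]
    rw [mul_assoc (E (b o)) u' (E (b o)⁻¹), act_mul, act_mul]
    rw [e1, ← act_mul, hEE, act_one]
  have hword : ∀ l : List (Option ι ⊕ Option ι),
      (wordProd (Sum.elim (fun j => 1 + x j) w) l).trace = n := by
    refine NilR_word ρ r κ _ fun j => ?_
    rcases j with j | j
    · change NilR ρ r κ (1 + x j - 1)
      rw [add_sub_cancel_left]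
      exact hxN j
    · exact hwN j
  have hinv : ∀ p : MvPolynomial ((tot (Option ι) TD.s).Ix n) ℚ, IsInv (redGL n) p →
      aeval (toTot x (inA κ TD.T₀)) p =
        aeval (kill (isMat (M := Option ι) (s := TD.s)) (toTot x (inA κ TD.T₀))) p := by
    intro p hp
    rw [kill_isMat_toTot]
    exact nullcone TD.T₀ x w (fun j => NilR_pow ρ r κ (hxN j)) hxw hwx hTx hword p hp
  obtain ⟨κ', _, _, g, g', lam, hg, hg', hsupp, hnorm⟩ := hmk (isMat (M := Option ι) (s := TD.s))
    (toTot x (inA κ TD.T₀)) hinv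
  let _ : Algebra Ω κ' := ((algebraMap κ κ').comp (algebraMap Ω κ)).toAlgebra
  let _ : Algebra K κ' := ((algebraMap κ κ').comp (algebraMap K κ)).toAlgebra
  let _ : Algebra ℚ κ' := ((algebraMap κ κ').comp (algebraMap ℚ κ)).toAlgebra
  have _ : IsScalarTower K Ω κ' := IsScalarTower.of_algebraMap_eq fun z => by
    change algebraMap κ κ' (algebraMap K κ z) = algebraMap κ κ' (algebraMap Ω κ (algebraMap K Ω z))
    rw [← IsScalarTower.algebraMap_apply K Ω κ]
  have _ : IsScalarTower Ω κ κ' := IsScalarTower.of_algebraMap_eq fun z => rfl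
  -- the transformed tensors
  have hact : act g g' (fun y => algebraMap κ κ' (toTot x (inA κ TD.T₀) y)) =
      toTot (fun m => g * (x m).map (algebraMap κ κ') * g') (act g g' (inA κ' TD.T₀)) := by
    rw [map_toTot (algebraMap κ κ') x (inA κ TD.T₀), act_toTot]
    rfl
  rw [hact] at hsupp
  have hP : ∀ γ, InP lam (g * evM ρ r κ' γ * g') := by
    intro γ
    obtain ⟨D, hD⟩ := GBb_act_evM ρ hG TD h.val κ γ
    have h3 : ∀ o, ∃ c : Option ι → κ, E γ * x o * E γ⁻¹ = ∑ o', c o' • x o' := by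
      intro o
      obtain ⟨c, hc⟩ := ha (γ * b o)
      refine ⟨fun o' => match o' with
        | none => 0
        | some i => c i, ?_⟩
      have e1 : E γ * x o * E γ⁻¹ = q (γ * b o) := by
        change E γ * (E (b o) * (u - 1) * E (b o)⁻¹) * E γ⁻¹ =
          E (γ * b o) * (u - 1) * E (γ * b o)⁻¹
        rw [mul_inv_rev, hEmul, hEmul]
        simp only [mul_assoc]
      rw [e1, hc, Fintype.sum_option]
      change _ = (0 : κ) • x none + ∑ i, c i • q (a i)
      rw [zero_smul, zero_add]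
    choose c hc using h3
    refine hnorm (E γ) (E γ⁻¹) (hEE γ) (hEE' γ)
      ⟨fun b => match b with
        | Sum.inl _ => fun o o' => c o o'
        | Sum.inr b => fun d d' => D b d d', ?_⟩
    rw [act_toTot, hD]
    funext y
    obtain ⟨β, d, I, J⟩ := y
    rcases β with v | β
    · change (E γ * x d * E γ⁻¹) (I (0 : Fin 1)) (J (0 : Fin 1)) =
        ∑ o', c d o' * x o' (I (0 : Fin 1)) (J (0 : Fin 1))
      rw [hc d, Matrix.sum_apply]
      rfl
    · rfl
  have hT' : ∀ y, act g g' (inA κ' TD.T₀) y ≠ 0 → 0 ≤ wt lam y := by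
    intro y hy
    obtain ⟨β, d, I, J⟩ := y
    exact (hsupp ⟨Sum.inr β, d, I, J⟩ hy).1
  have hx0 : x none = u - 1 := by
    change E 1 * (u - 1) * E (1 : Γ)⁻¹ = u - 1
    rw [inv_one, hE1, one_mul, mul_one]
  have hM0 : lv lam (g * (u - 1).map (algebraMap κ κ') * g') = 0 := by
    ext i j
    change (if lam i = lam j then (g * (u - 1).map (algebraMap κ κ') * g') i j else 0) = 0
    split_ifs with hij
    · by_contra hne
      have h4 := (hsupp ⟨Sum.inl (), none, fun _ => i, fun _ => j⟩ (by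
        change (g * (x none).map (algebraMap κ κ') * g') i j ≠ 0
        rw [hx0]
        exact hne)).2 ⟨(), rfl⟩
      have h5 : wt lam (⟨Sum.inl (), none, fun _ => i, fun _ => j⟩ :
          (tot (Option ι) TD.s).Ix n) = lam i - lam j := by
        change ∑ _i : Fin 1, lam i - ∑ _j : Fin 1, lam j = _
        rw [Fin.sum_univ_one, Fin.sum_univ_one]
      rw [h5, hij, sub_self] at h4
      exact absurd h4 (by norm_num)
    · rfl
  have hfin := min_injective ρ hG hρ TD h κ' g g' hg hg' lam hP hT'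
    ((u - 1).map (algebraMap κ κ')) (GBb_map_mem ρ r κ κ' hu.1) hM0
  rw [← sub_eq_zero]
  ext i j
  have h6 := congrFun (congrFun hfin i) j
  exact (algebraMap κ κ').injective (h6.trans (map_zero _).symm)

end Pool.Agent.Lib.MP_666dc0_nt.IG
end

section

open MvPolynomial

namespace Pool.Agent.Lib.MP_666dc0_nt.IG

variable {O : Type} [CommRing O] [HopfAlgebra ℚ O] {Γ : Type} [Group Γ] {A : HopfAction Γ O}
  {n : ℕ} (ρ : MatRep A n)

private theorem GCc_map_mem {Ω : Type} [Field Ω] [Algebra ℚ Ω] (r : Γ →* A.LGroup Ω) (κ : Type)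
    [Field κ] [Algebra Ω κ] {X : Matrix (Fin n) (Fin n) Ω} (hX : X ∈ spA ρ r Ω) :
    X.map (algebraMap Ω κ) ∈ spA ρ r κ := by
  refine Submodule.span_induction (p := fun X _ => X.map (algebraMap Ω κ) ∈ spA ρ r κ)
    ?_ ?_ ?_ ?_ hX
  · rintro _ ⟨γ, rfl⟩
    exact Submodule.subset_span ⟨γ, rfl⟩
  · have e : (0 : Matrix (Fin n) (Fin n) Ω).map (algebraMap Ω κ) = 0 := by
      ext i j
      exact map_zero (algebraMap Ω κ)
    rw [e]
    exact Submodule.zero_mem _
  · intro x y _ _ hx hy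
    have e : (x + y).map (algebraMap Ω κ) = x.map (algebraMap Ω κ) + y.map (algebraMap Ω κ) := by
      ext i j
      exact map_add (algebraMap Ω κ) _ _
    rw [e]
    exact Submodule.add_mem _ hx hy
  · intro c x _ hx
    have e : (c • x).map (algebraMap Ω κ) = algebraMap Ω κ c • x.map (algebraMap Ω κ) := by
      ext i j
      exact map_mul (algebraMap Ω κ) _ _
    rw [e]
    exact Submodule.smul_mem _ _ hx

/-- Linear relations: a matrix whose entries satisfy all `Ω`-linear relations between the entries of the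
`ev (r γ)`, `γ ∈ Γ₁`, is in the span. -/
theorem mem_spA_of_relations {Ω : Type} [Field Ω] [Algebra ℚ Ω] (r : Γ →* A.LGroup Ω) (κ : Type)
    [Field κ] [Algebra Ω κ] (M : Matrix (Fin n) (Fin n) κ)
    (hM : ∀ c : Matrix (Fin n) (Fin n) Ω, (∀ γ, ∑ i, ∑ j, c i j * ρ.ev Ω (r γ) i j = 0) →
      ∑ i, ∑ j, algebraMap Ω κ (c i j) * M i j = 0) : M ∈ spA ρ r κ := by
  classical
  obtain ⟨g, hg⟩ := LinearMap.exists_leftInverse_of_injective (spA ρ r Ω).subtype
    (Submodule.ker_subtype _)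
  set P : Matrix (Fin n) (Fin n) Ω →ₗ[Ω] Matrix (Fin n) (Fin n) Ω :=
    (spA ρ r Ω).subtype ∘ₗ g with hP
  have hP1 : ∀ X, P X ∈ spA ρ r Ω := fun X => (g X).2
  have hP2 : ∀ X ∈ spA ρ r Ω, P X = X := by
    intro X hX
    have h1 := LinearMap.congr_fun hg ⟨X, hX⟩
    exact congrArg Subtype.val h1
  have hsum : ∀ X : Matrix (Fin n) (Fin n) Ω, X = ∑ i, ∑ j, X i j • Matrix.single i j (1 : Ω) := by
    intro X
    conv_lhs => rw [Matrix.matrix_eq_sum_single X]
    refine Finset.sum_congr rfl fun i _ => Finset.sum_congr rfl fun j _ => ?_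
    rw [Matrix.smul_single, smul_eq_mul, mul_one]
  have h1 : ∀ k l, ∑ i, ∑ j, algebraMap Ω κ ((Matrix.single i j (1 : Ω) -
      P (Matrix.single i j (1 : Ω))) k l) * M i j = 0 := by
    intro k l
    refine hM (Matrix.of fun i j => (Matrix.single i j (1 : Ω) -
      P (Matrix.single i j (1 : Ω))) k l) fun γ => ?_
    have h2 : ρ.ev Ω (r γ) ∈ spA ρ r Ω := by
      refine Submodule.subset_span ⟨γ, ?_⟩
      ext i j
      rfl
    have h3 : ρ.ev Ω (r γ) - P (ρ.ev Ω (r γ)) = 0 := by rw [hP2 _ h2, sub_self]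
    have h4 : ρ.ev Ω (r γ) - P (ρ.ev Ω (r γ)) = ∑ i, ∑ j, ρ.ev Ω (r γ) i j •
        (Matrix.single i j (1 : Ω) - P (Matrix.single i j (1 : Ω))) := by
      conv_lhs => rw [hsum (ρ.ev Ω (r γ))]
      simp only [map_sum, map_smul, ← Finset.sum_sub_distrib, ← smul_sub]
    rw [h3] at h4
    have h5 := congrFun (congrFun h4 k) l
    simp only [Matrix.sum_apply, Matrix.smul_apply, smul_eq_mul] at h5
    refine Eq.trans (Finset.sum_congr rfl fun i _ => Finset.sum_congr rfl fun j _ => ?_) h5.symm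
    rw [mul_comm]
    rfl
  have h2 : M = ∑ i, ∑ j, M i j • (P (Matrix.single i j (1 : Ω))).map (algebraMap Ω κ) := by
    ext k l
    have h3 := h1 k l
    simp only [Matrix.sub_apply, map_sub, sub_mul, Finset.sum_sub_distrib, sub_eq_zero] at h3
    have h4 : ∑ i, ∑ j, algebraMap Ω κ (Matrix.single i j (1 : Ω) k l) * M i j = M k l := by
      rw [Finset.sum_eq_single k, Finset.sum_eq_single l]
      · rw [Matrix.single_apply_same, map_one, one_mul]
      · intro j _ hj
        rw [Matrix.single_apply_of_ne, map_zero, zero_mul]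
        rintro ⟨_, h⟩
        exact hj h
      · intro h
        exact absurd (Finset.mem_univ _) h
      · intro i _ hi
        refine Finset.sum_eq_zero fun j _ => ?_
        rw [Matrix.single_apply_of_ne, map_zero, zero_mul]
        rintro ⟨h, _⟩
        exact hi h
      · intro h
        exact absurd (Finset.mem_univ _) h
    rw [← h4, h3]
    simp only [Matrix.sum_apply, Matrix.smul_apply, smul_eq_mul, Matrix.map_apply]
    exact Finset.sum_congr rfl fun i _ => Finset.sum_congr rfl fun j _ => mul_comm _ _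
  rw [h2]
  exact Submodule.sum_mem _ fun i _ => Submodule.sum_mem _ fun j _ =>
    Submodule.smul_mem _ _ (GCc_map_mem ρ r κ (hP1 _))

end Pool.Agent.Lib.MP_666dc0_nt.IG
end

section

open Polynomial

namespace Pool.Agent.Lib.MP_666dc0_nt.IG

variable {O : Type} [CommRing O] [HopfAlgebra ℚ O] {Γ : Type} [Group Γ] {A : HopfAction Γ O}
  {n : ℕ} (ρ : MatRep A n)

/-- With `p = ∑_a c_a X^a`: `sg (γ ^ a) = (sg γ) ^ a` (`h1`, `hmul`), so the entry `k j` of `p (sg γ)` is
`∑ i, Gi k i * ∑_a c_a tf (γ ^ a * e j * e i) = ∑ i, Gi k i * trace (p (ρ' γ) * ρ' (e j) * ρ' (e i)) = 0`. -/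
theorem aeval_sg_eq_zero {K : Type} [Field K] (V : Γ → O → K) {N : ℕ} (e : Fin N → Γ)
    (Gi : Matrix (Fin N) (Fin N) K) (h1 : sg ρ V e Gi 1 = 1)
    (hmul : ∀ γ δ, sg ρ V e Gi (γ * δ) = sg ρ V e Gi γ * sg ρ V e Gi δ) {m : ℕ}
    (ρ' : Γ →* Matrix (Fin m) (Fin m) K) (htr : ∀ γ, (ρ' γ).trace = tf ρ V γ) (γ : Γ) {p : K[X]}
    (hp : aeval (ρ' γ) p = 0) : aeval (sg ρ V e Gi γ) p = 0 := by
  have hpow : ∀ a : ℕ, (sg ρ V e Gi γ) ^ a = sg ρ V e Gi (γ ^ a) := by
    intro a
    induction a with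
    | zero => rw [pow_zero, pow_zero, h1]
    | succ a ih => rw [pow_succ, pow_succ, ih, hmul]
  ext k j
  rw [Polynomial.aeval_eq_sum_range, Matrix.sum_apply, Matrix.zero_apply]
  have h2 : ∀ a : ℕ, (p.coeff a • (sg ρ V e Gi γ) ^ a) k j =
      ∑ i, Gi k i * (p.coeff a * ((ρ' γ) ^ a * ρ' (e j * e i)).trace) := by
    intro a
    rw [Matrix.smul_apply, hpow, smul_eq_mul]
    change p.coeff a * ∑ i, Gi k i * tf ρ V (γ ^ a * e j * e i) = _
    rw [Finset.mul_sum]
    refine Finset.sum_congr rfl fun i _ => ?_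
    rw [← htr, mul_assoc (γ ^ a), map_mul ρ' (γ ^ a), map_pow]
    ring
  rw [Finset.sum_congr rfl fun a _ => h2 a, Finset.sum_comm]
  refine Finset.sum_eq_zero fun i _ => ?_
  rw [← Finset.mul_sum]
  have h3 : ∑ a ∈ Finset.range (p.natDegree + 1),
      p.coeff a * ((ρ' γ) ^ a * ρ' (e j * e i)).trace =
      (aeval (ρ' γ) p * ρ' (e j * e i)).trace := by
    rw [Polynomial.aeval_eq_sum_range, Finset.sum_mul, Matrix.trace_sum]
    refine Finset.sum_congr rfl fun a _ => ?_
    rw [smul_mul_assoc, Matrix.trace_smul, smul_eq_mul]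
  rw [h3, hp, zero_mul, Matrix.trace_zero, mul_zero]

end Pool.Agent.Lib.MP_666dc0_nt.IG
end

section

open Topology
open scoped Pointwise

namespace Pool.Agent.Lib.MP_666dc0_nt.IG

variable {O : Type} [CommRing O] [HopfAlgebra ℚ O] {Γ : Type} [Group Γ] {A : HopfAction Γ O}
  {n : ℕ} (ρ : MatRep A n)

private lemma J7a_open [TopologicalSpace Γ] [IsTopologicalGroup Γ]
    (hA : IsOpen (A.act.ker : Set Γ)) (γ₀ : Γ) : IsOpen {γ : Γ | A.act γ = A.act γ₀} := by
  have h : {γ : Γ | A.act γ = A.act γ₀} = γ₀ • (A.act.ker : Set Γ) := by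
    ext γ
    rw [Set.mem_smul_set_iff_inv_smul_mem]
    simp only [Set.mem_setOf_eq, SetLike.mem_coe, MonoidHom.mem_ker, smul_eq_mul, map_mul, map_inv]
    rw [inv_mul_eq_one]
    exact eq_comm
  rw [h]
  exact hA.smul γ₀

/-- A function which only depends on `A.act γ` is continuous (locally constant: constant on the cosets
`γ • ker A.act`, which are open; see `continuous_pm` in Bound.lean). -/
theorem continuous_of_act [TopologicalSpace Γ] [IsTopologicalGroup Γ]
    (hA : IsOpen (A.act.ker : Set Γ)) {K : Type} [TopologicalSpace K] {f : Γ → K}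
    (hf : ∀ γ γ', A.act γ = A.act γ' → f γ = f γ') : Continuous f := by
  apply IsLocallyConstant.continuous
  rw [IsLocallyConstant.iff_exists_open]
  intro γ
  exact ⟨{γ' : Γ | A.act γ' = A.act γ}, J7a_open hA γ, rfl, fun γ' h => hf γ' γ h⟩

/-- `ρ.trF γ` depends only on `A.act γ` (`ρ.P (γ' * γ⁻¹) = 1` by `P_eq`). -/
theorem trF_congr {γ γ' : Γ} (h : A.act γ = A.act γ') : ρ.trF γ = ρ.trF γ' := by
  have h1 : ρ.P (γ' * γ⁻¹) = 1 := ρ.P_eq _ (by rw [map_mul, map_inv, h, mul_inv_cancel])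
  have h2 : ρ.pm O γ' = ρ.pm O γ := by
    have h3 : ρ.pm O (γ' * γ⁻¹) = 1 := by
      change (ρ.P (γ' * γ⁻¹)).map (algebraMap ℚ O) = 1
      rw [h1]; simp
    have h4 : γ' = (γ' * γ⁻¹) * γ := by group
    rw [h4, map_mul, h3, one_mul]
  unfold MatRep.trF
  rw [h2]

/-- Near `γ₀` (on the open coset `{γ | A.act γ = A.act γ₀}`) one has `tf γ = V γ (trF γ₀)`, and
`trF γ₀ = trF γ ∈ inv γ` (`trF_mem`). -/
theorem continuous_tf [TopologicalSpace Γ] [IsTopologicalGroup Γ]
    (hA : IsOpen (A.act.ker : Set Γ)) {K : Type} [Field K] [TopologicalSpace K] (V : Γ → O → K)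
    (hV : ∀ f, ContinuousOn (fun γ => V γ f) {γ | f ∈ A.inv γ}) : Continuous (tf ρ V) := by
  rw [continuous_iff_continuousAt]
  intro γ₀
  have hU := J7a_open (A := A) hA γ₀
  have h1 : ContinuousOn (tf ρ V) {γ : Γ | A.act γ = A.act γ₀} := by
    have h2 : ContinuousOn (fun γ => V γ (ρ.trF γ₀)) {γ : Γ | A.act γ = A.act γ₀} := by
      apply (hV (ρ.trF γ₀)).mono
      intro γ hγ
      change ρ.trF γ₀ ∈ A.inv γ
      rw [← trF_congr ρ hγ]
      exact ρ.trF_mem γ
    apply h2.congr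
    intro γ hγ
    change V γ (ρ.trF γ) = V γ (ρ.trF γ₀)
    rw [trF_congr ρ hγ]
  exact h1.continuousAt (hU.mem_nhds rfl)

end Pool.Agent.Lib.MP_666dc0_nt.IG
end

section

open Topology
open scoped Pointwise

namespace Pool.Agent.Lib.MP_666dc0_nt.IG

variable {O : Type} [CommRing O] [HopfAlgebra ℚ O] {Γ : Type} [Group Γ] {A : HopfAction Γ O}
  {n : ℕ} (ρ : MatRep A n)

/-- The entries of `sg` are finite sums of constants times `tf (γ * e j * e i)`. -/
theorem continuous_sg [TopologicalSpace Γ] [IsTopologicalGroup Γ] {K : Type} [Field K]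
    [TopologicalSpace K] [IsTopologicalRing K] (V : Γ → O → K) (htf : Continuous (tf ρ V)) {N : ℕ}
    (e : Fin N → Γ) (Gi : Matrix (Fin N) (Fin N) K) (k l : Fin N) :
    Continuous fun γ => sg ρ V e Gi γ k l := by
  have h : (fun γ => sg ρ V e Gi γ k l) = fun γ => ∑ i, Gi k i * tf ρ V (γ * e l * e i) := rfl
  rw [h]
  refine continuous_finsetSum _ fun i _ => ?_
  refine continuous_const.mul (htf.comp ?_)
  exact (continuous_id.mul continuous_const).mul continuous_const

/-- Induction over `Algebra.adjoin` (`Algebra.adjoin_induction`); the generators are continuous by `hσ`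
(composed with `γ ↦ γ⁻¹`) and `continuous_of_act`. -/
theorem continuous_of_mem_FK [TopologicalSpace Γ] [IsTopologicalGroup Γ]
    (hA : IsOpen (A.act.ker : Set Γ)) {K : Type} [Field K] [TopologicalSpace K]
    [IsTopologicalRing K] {N : ℕ} (σ : Γ → Matrix (Fin N) (Fin N) K)
    (hσ : ∀ k l, Continuous fun γ => σ γ k l) {φ : Γ → K} (hφ : φ ∈ FK A σ) : Continuous φ := by
  unfold FK at hφ
  induction hφ using Algebra.adjoin_induction with
  | mem f hf =>
    rcases hf with (⟨k, l, rfl⟩ | ⟨k, l, rfl⟩) | hf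
    · exact hσ k l
    · exact (hσ k l).comp continuous_inv
    · exact continuous_of_act hA hf
  | algebraMap c => exact continuous_const
  | add f g _ _ hf hg => exact hf.add hg
  | mul f g _ _ hf hg => exact hf.mul hg

/-- Induction over `Algebra.adjoin`: elements of `FK` take the same value at `u` and at `1`. -/
theorem FK_eq_one {K : Type} [Field K] {N : ℕ} (σ : Γ → Matrix (Fin N) (Fin N) K) {u : Γ}
    (hu : A.act u = 1) (h1 : σ u = σ 1) (h2 : σ u⁻¹ = σ 1) {φ : Γ → K} (hφ : φ ∈ FK A σ) :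
    φ u = φ 1 := by
  unfold FK at hφ
  induction hφ using Algebra.adjoin_induction with
  | mem f hf =>
    rcases hf with (⟨k, l, rfl⟩ | ⟨k, l, rfl⟩) | hf
    · change σ u k l = σ 1 k l
      rw [h1]
    · change σ u⁻¹ k l = σ 1⁻¹ k l
      rw [h2, inv_one]
    · exact hf u 1 (by rw [hu, map_one])
  | algebraMap c => rfl
  | add f g _ _ hf hg => rw [Pi.add_apply, Pi.add_apply, hf, hg]
  | mul f g _ _ hf hg => rw [Pi.mul_apply, Pi.mul_apply, hf, hg]

end Pool.Agent.Lib.MP_666dc0_nt.IG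
end
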