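import Mathlib
import Pool.Agent.Lib.MP_666dc0_nt.Defs

section

/-!
# Interpolation: orders and attached homomorphisms
-/

open TensorProduct NumberField IsDedekindDomain
open scoped TensorProduct NumberField

namespace Pool.Agent.Lib.MP_666dc0_nt

/-- `O₀ ⊂ O` is a `Γ`-stable order in the Hopf algebra `O` (for instance the ring of functions of a
model of `Ĝ` over `ℤ` or `ℤ_(ℓ)` on which `Γ` acts): a subring, stable under the action, the
comultiplication and the counit, which contains a non-zero multiple of every element of `O`. -/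
structure IsOrder {Γ : Type*} [Group Γ] {O : Type} [CommRing O] [HopfAlgebra ℚ O]
    (A : HopfAction Γ O) (O₀ : Subring O) : Prop where
  exists_mul : ∀ f : O, ∃ N : ℕ, N ≠ 0 ∧ (N : O) * f ∈ O₀
  comul : ∀ f ∈ O₀, CoalgebraStruct.comul (R := ℚ) f ∈
    AddSubgroup.closure {z : O ⊗[ℚ] O | ∃ a ∈ O₀, ∃ b ∈ O₀, z = a ⊗ₜ[ℚ] b}
  counit : ∀ f ∈ O₀, algebraMap ℚ O (CoalgebraStruct.counit f) ∈ O₀
  act : ∀ γ, ∀ f ∈ O₀, A.act γ f ∈ O₀

section

variable {F : Type*} [Field F] [NumberField F] {O : Type} [CommRing O] [HopfAlgebra ℚ O]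
  (A : HopfAction Gal(AlgebraicClosure F/F) O)

/-- Let `T` be a commutative ring and for each finite place `v` let `x v` be a `T`-valued point of
the quotient of `Ĝ ⋊ φ v` by `Ĝ`-conjugation over the order `O₀`, given by the values `x v f` of
the invariant functions `f ∈ O₀`; let `z : T → K` be a point of `T`. The homomorphism
`r : Γ_F → ᴸG(K)` is attached to the point `z`: it is admissible, and for all `v ∉ S`, `v ∤ ℓ`, it is
unramified at `v` and every invariant function `f ∈ O₀` takes the value `z (x v f)` at `r(φ v)`. -/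
structure IsAttached (S : Finset (HeightOneSpectrum (𝓞 F)))
    (φ : HeightOneSpectrum (𝓞 F) → Gal(AlgebraicClosure F/F)) (ℓ : ℕ) (O₀ : Subring O) {T : Type}
    [CommRing T] (x : ∀ v, (O₀ ⊓ (A.inv (φ v)).toSubring : Subring O) → T) {K : Type} [Field K]
    [Algebra ℚ K] [TopologicalSpace K] (z : T →+* K)
    (r : Gal(AlgebraicClosure F/F) →* A.LGroup K) : Prop where
  admissible : IsAdmissible A r
  unram : ∀ v, v ∉ S → (ℓ : 𝓞 F) ∉ v.asIdeal → ∀ P u, IsInertiaAt v P u → (r u).left = 1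
  value : ∀ v, v ∉ S → (ℓ : 𝓞 F) ∉ v.asIdeal →
    ∀ f : (O₀ ⊓ (A.inv (φ v)).toSubring : Subring O), (r (φ v)).left.hom (f : O) = z (x v f)

end

end Pool.Agent.Lib.MP_666dc0_nt
end

section

open TensorProduct NumberField IsDedekindDomain
open scoped TensorProduct NumberField Pointwise

namespace Pool.Agent.Lib.MP_666dc0_nt

/-- A homomorphism `r` from a group `G` to `ᴸG(K)` is completely reducible: every subspace of
`K ⊗ O` that is stable under the operators attached to the elements `r(g)` has a stable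
complement. -/
def IsCompletelyReducible {O : Type} [CommRing O] [HopfAlgebra ℚ O] {Γ : Type*} [Group Γ]
    {A : HopfAction Γ O} {K : Type} [Field K] [Algebra ℚ K] {G : Type*} [Group G]
    (r : G →* A.LGroup K) : Prop :=
  ∀ W : Submodule K (K ⊗[ℚ] O), (∀ g, W ≤ W.comap (A.transl (r g).left (r g).right)) →
    ∃ W' : Submodule K (K ⊗[ℚ] O), (∀ g, W' ≤ W'.comap (A.transl (r g).left (r g).right)) ∧
      IsCompl W W'

section Defs

variable {F : Type*} [Field F] [NumberField F] {O : Type} [CommRing O] [HopfAlgebra ℚ O]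
  (A : HopfAction Gal(AlgebraicClosure F/F) O)

/-- The prime `P` of the ring of integers of `F̄` lies above the finite place `v` of `F`, and the
decomposition group of `P` in `Gal(F̄/F)` is contained in the subgroup `V`. If `V = Gal(F̄/F')` this
says that the place of `F'` below `P` is unramified of residue degree one over `v`. -/
def IsSplitAt (v : HeightOneSpectrum (𝓞 F)) (P : Ideal (𝓞 (AlgebraicClosure F)))
    (V : Subgroup Gal(AlgebraicClosure F/F)) : Prop :=
  IsOver v P ∧ ∀ g : Gal(AlgebraicClosure F/F), g • P = P → g ∈ V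

/-- An admissible homomorphism `r : V → ᴸG(K)`, for a subgroup `V` of `Gal(F̄/F)`. -/
structure IsAdmissibleOn {K : Type} [Field K] [Algebra ℚ K] [TopologicalSpace K]
    (V : Subgroup Gal(AlgebraicClosure F/F)) (r : V →* A.LGroup K) : Prop where
  proj : ∀ γ, (r γ).right = γ
  cont : ∀ f : O, Continuous fun γ => (r γ).left.hom f

/-- The homomorphism `r : V → ᴸG(K)` is conjugate to the point `x` of the quotient of `Ĝ ⋊ φ` by
`Ĝ`-conjugation at all primes `P` above `v` whose decomposition group lies in `V`: it is trivial on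
the inertia group of `P`, and for every conjugate `δ φ δ⁻¹` of `φ` that is an (arithmetic or
geometric) Frobenius element at `P` the element `r(δ φ δ⁻¹)` is semisimple and every invariant
function `f` takes the value `x(f)` at `δ⁻¹ r(δ φ δ⁻¹) δ`. -/
structure IsConjAtOn {K : Type} [Field K] [Algebra ℚ K]
    (V : Subgroup Gal(AlgebraicClosure F/F)) (r : V →* A.LGroup K) (v : HeightOneSpectrum (𝓞 F))
    (φ : Gal(AlgebraicClosure F/F)) (x : A.inv φ →+* K) : Prop where
  unram : ∀ P, IsSplitAt v P V → ∀ u (hu : u ∈ V), IsInertiaAt v P u → (r ⟨u, hu⟩).left = 1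
  semisimple : ∀ P, IsSplitAt v P V → ∀ δ (hδ : δ * φ * δ⁻¹ ∈ V),
    (IsFrob v P (δ * φ * δ⁻¹) ∨ IsFrob v P (δ * φ * δ⁻¹)⁻¹) →
      A.IsSemisimpleElt (r ⟨δ * φ * δ⁻¹, hδ⟩)
  value : ∀ P, IsSplitAt v P V → ∀ δ (hδ : δ * φ * δ⁻¹ ∈ V),
    (IsFrob v P (δ * φ * δ⁻¹) ∨ IsFrob v P (δ * φ * δ⁻¹)⁻¹) → ∀ f : A.inv φ,
      ((SemidirectProduct.inr δ)⁻¹ * r ⟨δ * φ * δ⁻¹, hδ⟩ * SemidirectProduct.inr δ :
        A.LGroup K).left.hom (f : O) = x f

end Defs

end Pool.Agent.Lib.MP_666dc0_nt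
end

section

open Topology Polynomial
open scoped IntermediateField

namespace Pool.Agent.Lib.MP_666dc0_nt
section Kras

variable (ℓ : ℕ) [Fact ℓ.Prime]

lemma exists_sep_bound (x : PadicAlgCl ℓ) : ∃ δ : ℝ, 0 < δ ∧
    ∀ x' : PadicAlgCl ℓ, IsConjRoot ℚ_[ℓ] x x' → x ≠ x' → δ ≤ ‖x - x'‖ := by
  classical
  let S : Finset (PadicAlgCl ℓ) := ((minpoly ℚ_[ℓ] x).rootSet (PadicAlgCl ℓ)).toFinset.filter (x ≠ ·)
  rcases S.eq_empty_or_nonempty with hS | hS
  · refine ⟨1, one_pos, fun x' h1 h2 => ?_⟩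
    exfalso
    have : x' ∈ S := by
      rw [Finset.mem_filter, Set.mem_toFinset]
      exact ⟨(isConjRoot_iff_mem_minpoly_rootSet (Algebra.IsIntegral.isIntegral x)).mp h1, h2⟩
    rw [hS] at this
    simp at this
  · obtain ⟨y, hy, hy'⟩ := S.exists_min_image (fun x' => ‖x - x'‖) hS
    refine ⟨‖x - y‖, ?_, fun x' h1 h2 => ?_⟩
    · rw [norm_pos_iff, sub_ne_zero]
      exact (Finset.mem_filter.mp hy).2
    · apply hy'
      rw [Finset.mem_filter, Set.mem_toFinset]
      exact ⟨(isConjRoot_iff_mem_minpoly_rootSet (Algebra.IsIntegral.isIntegral x)).mp h1, h2⟩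

lemma denseRange_rat : DenseRange (algebraMap ℚ ℚ_[ℓ]) := by
  rw [Metric.denseRange_iff]
  intro x r hr
  obtain ⟨q, hq⟩ := Padic.rat_dense ℓ x hr
  refine ⟨q, ?_⟩
  rw [dist_eq_norm]
  simpa using hq

theorem exists_algebraic_adjoin (x : PadicAlgCl ℓ) :
    ∃ α : PadicAlgCl ℓ, IsAlgebraic ℚ α ∧ x ∈ ℚ_[ℓ]⟮α⟯ := by
  obtain ⟨δ, hδ, hδ'⟩ := exists_sep_bound ℓ x
  have hint : IsIntegral ℚ_[ℓ] x := Algebra.IsIntegral.isIntegral x
  set f := minpoly ℚ_[ℓ] x with hf
  have fmon : f.Monic := minpoly.monic hint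
  have hdeg0 : f.natDegree ≠ 0 := (minpoly.natDegree_pos hint).ne'
  have hε : (δ / (max ‖x‖ 1)) ^ f.natDegree / (f.natDegree + 1) > 0 := by positivity
  obtain ⟨g, gmon, gdeg, gcoeff⟩ :=
    exists_monic_and_natDegree_eq_and_norm_map_algebraMap_coeff_sub_lt (denseRange_rat ℓ) fmon hε
  obtain ⟨b, hb, hab⟩ := exists_aroots_norm_sub_lt_of_norm_coeff_sub_lt (L := PadicAlgCl ℓ)
      hε (minpoly.aeval ℚ_[ℓ] x) fmon (gmon.map _) (gdeg ▸ (g.natDegree_map _)) gcoeff
      (IsAlgClosed.splits _)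
  have hab : ‖x - b‖ < δ := by
    rw [← Real.rpow_natCast, ← mul_comm_div, div_self, one_mul,
        ← Real.rpow_mul (div_pos hδ (by positivity)).le, mul_inv_cancel₀] at hab
    · simpa [mul_assoc, div_mul_cancel₀ _ (by positivity : (max ‖x‖ 1) > 0).ne'] using hab
    · simp [hdeg0]
    · positivity
  have hbr : aeval b g = 0 := by
    rw [mem_aroots, aeval_map_algebraMap] at hb
    exact hb.2
  refine ⟨b, ⟨g, gmon.ne_zero, hbr⟩, ?_⟩
  exact IsKrasner.krasner (minpoly.irreducible hint).separable (IsAlgClosed.splits _)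
    (Algebra.IsIntegral.isIntegral b) fun a' h1 h2 => lt_of_lt_of_le hab (hδ' a' h1 h2)

end Kras

section Baire

lemma exists_eq_top_of_directed {Γ : Type*} [Group Γ] [TopologicalSpace Γ] [IsTopologicalGroup Γ]
    [CompactSpace Γ] [BaireSpace Γ] {ι : Type*} [Countable ι] (V : ι → Subgroup Γ)
    (hcl : ∀ i, IsClosed (V i : Set Γ)) (hdir : ∀ i j, ∃ k, V i ≤ V k ∧ V j ≤ V k)
    (hcov : ∀ γ, ∃ i, γ ∈ V i) : ∃ i, V i = ⊤ := by
  classical
  obtain ⟨i, hi⟩ := nonempty_interior_of_iUnion_of_closed hcl (by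
    rw [Set.eq_univ_iff_forall]
    intro γ
    obtain ⟨i, hi⟩ := hcov γ
    exact Set.mem_iUnion.mpr ⟨i, hi⟩)
  obtain ⟨g, hg⟩ := hi
  have hopen : IsOpen (V i : Set Γ) :=
    Subgroup.isOpen_of_mem_nhds _ (g := g) (mem_interior_iff_mem_nhds.mp hg)
  have hfin := Subgroup.quotient_finite_of_isOpen (V i) hopen
  have hdir' : ∀ s : Finset (Γ ⧸ V i), ∃ k, V i ≤ V k ∧ ∀ q ∈ s, Quotient.out q ∈ V k := by
    intro s
    induction s using Finset.induction_on with
    | empty => exact ⟨i, le_rfl, by simp⟩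
    | insert q s _ ih =>
      obtain ⟨k, hk1, hk2⟩ := ih
      obtain ⟨j, hj⟩ := hcov (Quotient.out q)
      obtain ⟨m, hm1, hm2⟩ := hdir k j
      refine ⟨m, hk1.trans hm1, ?_⟩
      intro q' hq'
      rw [Finset.mem_insert] at hq'
      rcases hq' with rfl | hq'
      · exact hm2 hj
      · exact hm1 (hk2 q' hq')
  have := Fintype.ofFinite (Γ ⧸ V i)
  obtain ⟨k, hk1, hk2⟩ := hdir' Finset.univ
  refine ⟨k, ?_⟩
  rw [eq_top_iff]
  intro γ _
  have h1 := hk2 (QuotientGroup.mk γ) (Finset.mem_univ _)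
  have h2 : (Quotient.out (QuotientGroup.mk γ : Γ ⧸ V i))⁻¹ * γ ∈ V i := by
    rw [← QuotientGroup.eq]
    exact Quotient.out_eq _
  have h3 := (V k).mul_mem h1 (hk1 h2)
  rwa [mul_inv_cancel_left] at h3

end Baire

section FieldOfDef

variable (ℓ : ℕ) [Fact ℓ.Prime]

lemma isClosed_interField (L : IntermediateField ℚ_[ℓ] (PadicAlgCl ℓ)) [FiniteDimensional ℚ_[ℓ] L] :
    IsClosed (L : Set (PadicAlgCl ℓ)) := by
  have h1 : FiniteDimensional ℚ_[ℓ] (L.toSubalgebra.toSubmodule) := by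
    change FiniteDimensional ℚ_[ℓ] L
    infer_instance
  exact Submodule.closed_of_finiteDimensional (L.toSubalgebra.toSubmodule)

/-- Field of definition of a continuous family. -/
theorem exists_field_of_def {Γ : Type*} [Group Γ] [TopologicalSpace Γ] [IsTopologicalGroup Γ]
    [CompactSpace Γ] [BaireSpace Γ] {O : Type*} [CommRing O] [Algebra ℚ O] [Algebra.FiniteType ℚ O]
    (c : Γ → O →ₐ[ℚ] PadicAlgCl ℓ) (hc : ∀ f, Continuous fun γ => c γ f)
    (hsub : ∀ L : IntermediateField ℚ_[ℓ] (PadicAlgCl ℓ), ∃ V : Subgroup Γ, ∀ γ, γ ∈ V ↔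
      ∀ f, c γ f ∈ L) :
    ∃ L : IntermediateField ℚ_[ℓ] (PadicAlgCl ℓ), FiniteDimensional ℚ_[ℓ] L ∧ ∀ γ f, c γ f ∈ L := by
  classical
  let D := {α : PadicAlgCl ℓ // IsAlgebraic ℚ α}
  have hD : Countable D := (Algebraic.countable ℚ (PadicAlgCl ℓ)).to_subtype
  let L : Finset D → IntermediateField ℚ_[ℓ] (PadicAlgCl ℓ) := fun s =>
    IntermediateField.adjoin ℚ_[ℓ] ((s.image Subtype.val : Finset (PadicAlgCl ℓ)) : Set _)
  have hLfin : ∀ s, FiniteDimensional ℚ_[ℓ] (L s) := fun s =>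
    IntermediateField.finiteDimensional_adjoin fun x _ => Algebra.IsIntegral.isIntegral x
  have hLmono : ∀ {s t : Finset D}, s ⊆ t → L s ≤ L t := by
    intro s t hst
    apply IntermediateField.adjoin.mono
    exact_mod_cast Finset.image_subset_image hst
  choose V hV using fun s => hsub (L s)
  have h1 := exists_eq_top_of_directed V ?_ ?_ ?_
  · obtain ⟨s, hs⟩ := h1
    refine ⟨L s, hLfin s, fun γ => (hV s γ).mp ?_⟩
    rw [hs]; exact Subgroup.mem_top γ
  · intro s
    have h2 : (V s : Set Γ) = ⋂ f : O, (fun γ => c γ f) ⁻¹' (L s : Set (PadicAlgCl ℓ)) := by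
      ext γ
      rw [SetLike.mem_coe, hV s γ, Set.mem_iInter]
      rfl
    rw [h2]
    have := hLfin s
    exact isClosed_iInter fun f => (isClosed_interField ℓ (L s)).preimage (hc f)
  · intro s t
    refine ⟨s ∪ t, fun γ hγ => ?_, fun γ hγ => ?_⟩
    · rw [hV] at hγ ⊢
      exact fun f => hLmono Finset.subset_union_left (hγ f)
    · rw [hV] at hγ ⊢
      exact fun f => hLmono Finset.subset_union_right (hγ f)
  · intro γ
    obtain ⟨gens, hgens⟩ := (Algebra.FiniteType.out : (⊤ : Subalgebra ℚ O).FG)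
    choose α hα hα' using exists_algebraic_adjoin ℓ
    let s : Finset D := gens.image fun f => ⟨α (c γ f), hα _⟩
    refine ⟨s, (hV s γ).mpr ?_⟩
    have h3 : ∀ f ∈ gens, c γ f ∈ L s := by
      intro f hf
      have h4 : ℚ_[ℓ]⟮α (c γ f)⟯ ≤ L s := by
        rw [IntermediateField.adjoin_simple_le_iff]
        apply IntermediateField.subset_adjoin
        rw [Finset.mem_coe, Finset.mem_image]
        exact ⟨⟨α (c γ f), hα _⟩, Finset.mem_image_of_mem _ hf, rfl⟩
      exact h4 (hα' _)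
    let A : Subalgebra ℚ O := ((L s).toSubalgebra.restrictScalars ℚ).comap (c γ)
    have h5 : (⊤ : Subalgebra ℚ O) ≤ A := by
      rw [← hgens, Algebra.adjoin_le_iff]
      exact h3
    exact fun f => h5 (Algebra.mem_top)

end FieldOfDef
end Pool.Agent.Lib.MP_666dc0_nt
end
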