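import Mathlib
import Pool.Agent.Lib.MP_666dc0_nt.WL.G1
import Pool.Agent.Lib.MP_666dc0_nt.WL.Sys

section

open scoped Matrix

namespace Pool.Agent.Lib.MP_666dc0_nt

section
variable {K : Type*} [Field K] [CharZero K] {n : ℕ}

/-- A matrix all of whose positive powers have trace zero is nilpotent. -/
theorem isNilpotent_of_trace (X : Matrix (Fin n) (Fin n) K)
    (h : ∀ k : ℕ, 1 ≤ k → (X ^ k).trace = 0) : IsNilpotent X := by
  classical
  let B := Algebra.adjoin K ({X} : Set (Matrix (Fin n) (Fin n) K))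
  let x : B := ⟨X, Algebra.subset_adjoin rfl⟩
  have hcomm : ∀ a b : B, a * b = b * a := by
    intro a b
    have h1 : (a : Matrix (Fin n) (Fin n) K) * b = b * a := by
      have ha := a.2
      have hb := b.2
      have hc : (b : Matrix (Fin n) (Fin n) K) ∈ Subalgebra.centralizer K {X} := by
        refine (Algebra.adjoin_le ?_ : B ≤ Subalgebra.centralizer K {X}) hb
        rintro c rfl
        rw [SetLike.mem_coe, Subalgebra.mem_centralizer_iff]
        rintro d rfl; rfl
      have hd : (a : Matrix (Fin n) (Fin n) K) ∈ Subalgebra.centralizer K {(b : Matrix (Fin n) (Fin n) K)} := by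
        refine (Algebra.adjoin_le ?_ : B ≤ _) ha
        rintro c rfl
        rw [SetLike.mem_coe, Subalgebra.mem_centralizer_iff]
        rintro d rfl
        rw [Subalgebra.mem_centralizer_iff] at hc
        exact (hc _ rfl).symm
      rw [Subalgebra.mem_centralizer_iff] at hd
      exact (hd _ rfl).symm
    exact Subtype.ext h1
  have hart : IsArtinian K B := inferInstance
  have hart2 : IsArtinianRing B := IsArtinianRing.of_finite K B
  let cB : CommRing B := { (inferInstance : Ring B) with mul_comm := hcomm }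
  have hart3 : IsArtinian B B := hart2
  obtain ⟨m, y, hy⟩ := IsArtinian.exists_pow_succ_smul_dvd x (1 : B)
  rw [smul_eq_mul, smul_eq_mul, mul_one] at hy
  -- `x ^ (m + j) * y ^ j = x ^ m`
  have hj : ∀ j : ℕ, x ^ (m + j) * y ^ j = x ^ m := by
    intro j
    induction j with
    | zero => simp
    | succ j ih =>
      calc x ^ (m + (j + 1)) * y ^ (j + 1) = x ^ j * (x ^ m.succ * y) * y ^ j := by
            rw [Nat.succ_eq_add_one]; ring
        _ = x ^ (m + j) * y ^ j := by rw [hy]; ring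
        _ = x ^ m := ih
  let e : B := x ^ (m + 1) * y ^ (m + 1)
  have hee : e * e = e := by
    have h1 := hj (m + 2)
    calc e * e = x ^ (m + 1 + (m + 1)) * y ^ (m + 2) * y ^ m := by simp only [e]; ring
      _ = x ^ (m + (m + 2)) * y ^ (m + 2) * y ^ m := by congr 3; ring
      _ = x ^ m * y ^ m := by rw [h1]
      _ = (x ^ (m + 1) * y ^ 1) * y ^ m := by rw [hj 1]
      _ = e := by simp only [e]; ring
  -- elements of `x B` have trace zero
  have htr : ∀ b : B, ((x * b : B) : Matrix (Fin n) (Fin n) K).trace = 0 := by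
    intro b
    have h1 : ((b : B) : Matrix (Fin n) (Fin n) K) ∈ Submodule.span K (Set.range fun k : ℕ => X ^ k) := by
      have h2 := b.2
      rw [← Subalgebra.mem_toSubmodule, Algebra.adjoin_eq_span] at h2
      refine Submodule.span_mono ?_ h2
      intro z hz
      rw [SetLike.mem_coe, Submonoid.mem_closure_singleton] at hz
      obtain ⟨k, hk⟩ := hz
      exact ⟨k, hk⟩
    have h3 : Submodule.span K (Set.range fun k : ℕ => X ^ k) ≤
        LinearMap.ker ((Matrix.traceLinearMap (Fin n) K K) ∘ₗ LinearMap.mulLeft K X) := by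
      rw [Submodule.span_le]
      rintro _ ⟨k, rfl⟩
      rw [SetLike.mem_coe, LinearMap.mem_ker]
      change (X * X ^ k).trace = 0
      rw [← pow_succ']
      exact h (k + 1) (by omega)
    have h4 := h3 h1
    rw [LinearMap.mem_ker] at h4
    exact h4
  have he0 : (e : Matrix (Fin n) (Fin n) K).trace = 0 := by
    have h1 : e = x * (x ^ m * y ^ (m + 1)) := by simp only [e]; ring
    rw [h1]; exact htr _
  have hE : (e : Matrix (Fin n) (Fin n) K) = 0 := by
    have h1 : IsIdempotentElem (Matrix.toLin' (e : Matrix (Fin n) (Fin n) K)) := by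
      have h2 : (e : Matrix (Fin n) (Fin n) K) * e = e := congrArg Subtype.val hee
      change _ * _ = _
      rw [Module.End.mul_eq_comp, ← Matrix.toLin'_mul, h2]
    have h2 := LinearMap.IsIdempotentElem.eq_zero_of_trace_eq_zero h1 (by
      rw [Matrix.trace_toLin'_eq]; exact he0)
    exact (LinearEquiv.map_eq_zero_iff _).mp h2
  refine ⟨m, ?_⟩
  have h5 : x ^ m = x ^ m * e := by
    have h6 := hj (m + 1)
    calc x ^ m = x ^ (m + (m + 1)) * y ^ (m + 1) := h6.symm
      _ = x ^ m * e := by simp only [e]; ring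
  have h7 := congrArg Subtype.val h5
  change X ^ m = X ^ m * (e : Matrix (Fin n) (Fin n) K) at h7
  rw [h7, hE, mul_zero]

end

section
variable {K : Type*} [Field K] [CharZero K] {n : ℕ}

/-- Complete reducibility of a matrix representation, in terms of invariant complements. -/
def CR {G : Type*} [Group G] {K : Type*} [Field K] {n : ℕ} (D : G →* Matrix (Fin n) (Fin n) K) : Prop :=
  ∀ W : Submodule K (Fin n → K), (∀ g, ∀ w ∈ W, D g *ᵥ w ∈ W) →
    ∃ W' : Submodule K (Fin n → K), (∀ g, ∀ w ∈ W', D g *ᵥ w ∈ W') ∧ IsCompl W W'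

/-- The trace form of a completely reducible representation is nondegenerate, also on the span of
a normal subgroup. -/
theorem eq_zero_of_trace {G : Type*} [Group G] (D : G →* Matrix (Fin n) (Fin n) K) (hD : CR D)
    (N : Subgroup G) (hN : N.Normal) (X : Matrix (Fin n) (Fin n) K)
    (hX : X ∈ Submodule.span K (D '' N)) (h : ∀ γ ∈ N, (X * D γ).trace = 0) : X = 0 := by
  classical
  -- the algebra spanned by `N`
  let S : Submonoid (Matrix (Fin n) (Fin n) K) := N.toSubmonoid.map D
  let B : Subalgebra K (Matrix (Fin n) (Fin n) K) := Algebra.adjoin K (S : Set _)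
  have hBspan : Subalgebra.toSubmodule B = Submodule.span K (D '' N) := by
    rw [Algebra.adjoin_eq_span, Submonoid.closure_eq]
    rfl
  have hart : IsArtinianRing B := IsArtinianRing.of_finite K B
  -- the radical of the trace form
  let I : Ideal B :=
    { carrier := {x | ∀ y : B, ((x : Matrix (Fin n) (Fin n) K) * y).trace = 0}
      add_mem' := fun {a b} ha hb y => by
        rw [Subalgebra.coe_add, add_mul, Matrix.trace_add, ha, hb, add_zero]
      zero_mem' := fun y => by simp
      smul_mem' := fun c x hx y => by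
        change ((c : Matrix (Fin n) (Fin n) K) * x * y).trace = 0
        rw [mul_assoc, Matrix.trace_mul_comm, mul_assoc]
        exact hx (y * c) }
  have hmem : ∀ x : B, x ∈ I ↔ ∀ y : B, ((x : Matrix (Fin n) (Fin n) K) * y).trace = 0 :=
    fun x => Iff.rfl
  have hnil : ∀ x ∈ I, IsNilpotent x := by
    intro x hx
    have h1 : IsNilpotent (x : Matrix (Fin n) (Fin n) K) := by
      refine isNilpotent_of_trace _ fun k hk => ?_
      obtain ⟨j, rfl⟩ := Nat.exists_eq_add_of_le' hk
      rw [pow_succ']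
      exact hx (x ^ j)
    obtain ⟨k, hk⟩ := h1
    exact ⟨k, Subtype.ext (by simpa using hk)⟩
  have hIJ : I ≤ Ring.jacobson B := by
    intro x hx
    rw [← Ideal.jacobson_bot, Ideal.mem_jacobson_iff]
    intro y
    have h1 : IsNilpotent (y * x) := hnil _ (I.mul_mem_left y hx)
    obtain ⟨u, hu⟩ := h1.isUnit_add_one
    refine ⟨((u⁻¹ : Bˣ) : B), ?_⟩
    rw [Ideal.mem_bot, mul_assoc]
    have h2 : ((u⁻¹ : Bˣ) : B) * (y * x) + ((u⁻¹ : Bˣ) : B) = ((u⁻¹ : Bˣ) : B) * (y * x + 1) := by
      rw [mul_add, mul_one]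
    rw [h2, ← hu, Units.inv_mul, sub_self]
  obtain ⟨m, hm⟩ := IsSemiprimaryRing.isNilpotent (R := B)
  -- the subspace generated by the radical
  let W : Submodule K (Fin n → K) := Submodule.span K
    {u | ∃ x ∈ I, ∃ v : Fin n → K, u = (x : Matrix (Fin n) (Fin n) K) *ᵥ v}
  -- conjugation
  have hconj : ∀ (g : G) (x : B), ∃ x' : B, (x' : Matrix (Fin n) (Fin n) K) = D g * x * D g⁻¹ := by
    intro g x
    have h1 : (x : Matrix (Fin n) (Fin n) K) ∈ Submodule.span K (D '' N) := by
      rw [← hBspan]; exact x.2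
    have h2 : Submodule.span K (D '' N) ≤ (Submodule.span K (D '' N)).comap
        (LinearMap.mulRight K (D g⁻¹) ∘ₗ LinearMap.mulLeft K (D g)) := by
      rw [Submodule.span_le]
      rintro _ ⟨γ, hγ, rfl⟩
      refine Submodule.subset_span ⟨g * γ * g⁻¹, hN.conj_mem γ hγ g, ?_⟩
      rw [map_mul, map_mul]; rfl
    have h3 := h2 h1
    rw [Submodule.mem_comap, ← hBspan] at h3
    exact ⟨⟨_, h3⟩, rfl⟩
  have hDinv : ∀ g : G, D g⁻¹ * D g = 1 := fun g => by rw [← map_mul, inv_mul_cancel, map_one]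
  have hDinv' : ∀ g : G, D g * D g⁻¹ = 1 := fun g => by rw [← map_mul, mul_inv_cancel, map_one]
  have hIconj : ∀ (g : G) (x : B), x ∈ I → ∀ x' : B,
      (x' : Matrix (Fin n) (Fin n) K) = D g * x * D g⁻¹ → x' ∈ I := by
    intro g x hx x' hx' y
    obtain ⟨y', hy'⟩ := hconj g⁻¹ y
    rw [inv_inv] at hy'
    have h1 : D g * (x : Matrix (Fin n) (Fin n) K) * D g⁻¹ * y = D g * (x * y') * D g⁻¹ := by
      rw [hy']
      simp only [mul_assoc]
      rw [hDinv', mul_one]
    rw [hx', h1, Matrix.trace_mul_comm, ← mul_assoc, hDinv, one_mul]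
    exact hx y'
  have hWst : ∀ g, ∀ w ∈ W, D g *ᵥ w ∈ W := by
    intro g
    have h1 : W ≤ W.comap (Matrix.toLin' (D g)) := by
      refine Submodule.span_le.mpr ?_
      rintro _ ⟨x, hx, v, rfl⟩
      obtain ⟨x', hx'⟩ := hconj g x
      refine Submodule.subset_span ⟨x', hIconj g x hx x' hx', D g *ᵥ v, ?_⟩
      rw [Matrix.toLin'_apply, Matrix.mulVec_mulVec, Matrix.mulVec_mulVec, hx', mul_assoc, hDinv,
        mul_one]
    intro w hw
    have := h1 hw
    rwa [Submodule.mem_comap, Matrix.toLin'_apply] at this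
  obtain ⟨W', hW'st, hW'⟩ := hD W hWst
  -- the complement is killed by the radical
  have hBst : ∀ x : B, ∀ w ∈ W', (x : Matrix (Fin n) (Fin n) K) *ᵥ w ∈ W' := by
    intro x w hw
    have h1 : (x : Matrix (Fin n) (Fin n) K) ∈ Submodule.span K (D '' N) := by
      rw [← hBspan]; exact x.2
    have h2 : Submodule.span K (D '' N) ≤ W'.comap
        ((Matrix.mulVecBilin K K).flip w) := by
      rw [Submodule.span_le]
      rintro _ ⟨γ, _, rfl⟩
      exact hW'st γ w hw
    exact h2 h1
  have hkill : ∀ x ∈ I, ∀ w ∈ W', (x : Matrix (Fin n) (Fin n) K) *ᵥ w = 0 := by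
    intro x hx w hw
    have h1 : (x : Matrix (Fin n) (Fin n) K) *ᵥ w ∈ W := Submodule.subset_span ⟨x, hx, w, rfl⟩
    have h2 := hBst x w hw
    have h3 := hW'.disjoint
    rw [Submodule.disjoint_def] at h3
    exact h3 _ h1 h2
  -- iterate
  have hiter : ∀ k : ℕ, ∀ u ∈ W, u ∈ Submodule.span K
      {u | ∃ x ∈ (Ring.jacobson B) ^ k, ∃ v : Fin n → K, u = (x : Matrix (Fin n) (Fin n) K) *ᵥ v} := by
    intro k
    induction k with
    | zero =>
      intro u _
      exact Submodule.subset_span ⟨1, by rw [Submodule.pow_zero, Ideal.one_eq_top]; trivial, u,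
        by simp⟩
    | succ k ih =>
      intro u hu
      refine (Submodule.span_le.mpr ?_ : W ≤ _) hu
      rintro _ ⟨x, hx, v, rfl⟩
      have hv : v ∈ W ⊔ W' := by rw [hW'.sup_eq_top]; exact Submodule.mem_top
      obtain ⟨w, hw, w', hw', rfl⟩ := Submodule.mem_sup.mp hv
      rw [Matrix.mulVec_add, hkill x hx w' hw', add_zero]
      have h1 := ih w hw
      have h2 : Submodule.span K {u | ∃ x ∈ (Ring.jacobson B) ^ k, ∃ v : Fin n → K,
          u = (x : Matrix (Fin n) (Fin n) K) *ᵥ v} ≤ (Submodule.span K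
          {u | ∃ x ∈ (Ring.jacobson B) ^ (k + 1), ∃ v : Fin n → K,
            u = (x : Matrix (Fin n) (Fin n) K) *ᵥ v}).comap (Matrix.toLin' (x : Matrix (Fin n) (Fin n) K)) := by
        rw [Submodule.span_le]
        rintro _ ⟨y, hy, v, rfl⟩
        refine Submodule.subset_span ⟨x * y, ?_, v, ?_⟩
        · rw [Ideal.IsTwoSided.pow_succ]
          exact Ideal.mul_mem_mul (hIJ hx) hy
        · rw [Matrix.toLin'_apply, Matrix.mulVec_mulVec]; rfl
      exact h2 h1
  have hW0 : ∀ u ∈ W, u = 0 := by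
    intro u hu
    have h1 := hiter m u hu
    have h2 : Submodule.span K {u | ∃ x ∈ (Ring.jacobson B) ^ m, ∃ v : Fin n → K,
          u = (x : Matrix (Fin n) (Fin n) K) *ᵥ v} ≤ ⊥ := by
      rw [Submodule.span_le]
      rintro _ ⟨y, hy, v, rfl⟩
      rw [hm] at hy
      have hy0 : y = 0 := hy
      rw [hy0]
      simp
    exact h2 h1
  -- conclusion
  have hXB : X ∈ B := by
    rw [← Subalgebra.mem_toSubmodule, hBspan]; exact hX
  have hXI : (⟨X, hXB⟩ : B) ∈ I := by
    intro y
    have h1 : (y : Matrix (Fin n) (Fin n) K) ∈ Submodule.span K (D '' N) := by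
      rw [← hBspan]; exact y.2
    have h2 : Submodule.span K (D '' N) ≤
        LinearMap.ker ((Matrix.traceLinearMap (Fin n) K K) ∘ₗ LinearMap.mulLeft K X) := by
      rw [Submodule.span_le]
      rintro _ ⟨γ, hγ, rfl⟩
      exact h γ hγ
    exact h2 h1
  have h3 : ∀ v, X *ᵥ v = 0 := fun v => hW0 _ (Submodule.subset_span ⟨_, hXI, v, rfl⟩)
  ext i j
  have h4 := congrFun (h3 (Pi.single j 1)) i
  simpa using h4

end

end Pool.Agent.Lib.MP_666dc0_nt
end

section

open NumberField IsDedekindDomain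
open scoped NumberField

namespace Pool.Agent.Lib.MP_666dc0_nt.WL

/-!
# WL, G3: values of the integral polynomials in the Hecke operators
-/

variable {F : Type} [Field F] [NumberField F] {n : ℕ} {D : Datum F n}

/-- If the eigenvalues are in a number field and `ℓ`-integral then the values `ι (P(lam))` are in a
compact set.
Proof: `exists_finite_ext` for `j = ι ∘ (E → ℂ)` gives `L`; the compact set is
`{z | z ∈ L ∧ ‖z‖ ≤ 1}` (`isCompact_ball`); it is closed under sums, products and contains the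
integers (`IsUltrametricDist`: `IsUltrametricDist.norm_add_le_max`,
`IsUltrametricDist.norm_intCast_le_one`) and the `ι (lam x)`; `MvPolynomial.induction_on`. -/
theorem exists_compact_values (ℓ : ℕ) [Fact ℓ.Prime] (S : Finset (HeightOneSpectrum (𝓞 F)))
    {U : Subgroup D.Ad} (lam : ∀ v, Hecke U v → ℂ) (ι : ℂ ≃+* PadicAlgCl ℓ)
    (E : IntermediateField ℚ ℂ) [FiniteDimensional ℚ E] (hE : ∀ v, v ∉ S → ∀ h, lam v h ∈ E)
    (hint : ∀ x : IX ℓ S U, ‖ι (lam x.1.1 x.1.2)‖ ≤ 1) :
    ∃ C : Set (PadicAlgCl ℓ), IsCompact C ∧ ∀ P : MvPolynomial (IX ℓ S U) ℤ,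
      ι (pval ℓ S lam P) ∈ C := by
  obtain ⟨L, hLfin, hL⟩ := exists_finite_ext ℓ (E := E)
    ((ι : ℂ →+* PadicAlgCl ℓ).comp (algebraMap E ℂ))
  have := hLfin
  refine ⟨{z : PadicAlgCl ℓ | z ∈ L ∧ ‖z‖ ≤ 1}, isCompact_ball ℓ L, ?_⟩
  intro P
  induction P using MvPolynomial.induction_on with
  | C a =>
    have h1 : pval ℓ S lam (MvPolynomial.C a) = (a : ℂ) := by
      show MvPolynomial.aeval (R := ℤ) (fun x : IX ℓ S U => lam x.1.1 x.1.2) (MvPolynomial.C a) = _
      rw [MvPolynomial.aeval_C]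
      rfl
    rw [h1, map_intCast]
    refine ⟨intCast_mem L a, ?_⟩
    exact IsUltrametricDist.norm_intCast_le_one _ a
  | add p q hp hq =>
    rw [map_add, map_add]
    exact ⟨add_mem hp.1 hq.1, (IsUltrametricDist.norm_add_le_max _ _).trans (max_le hp.2 hq.2)⟩
  | mul_X p x hp =>
    rw [map_mul, map_mul]
    have h2 : pval ℓ S lam (MvPolynomial.X x) = lam x.1.1 x.1.2 := by
      show MvPolynomial.aeval (R := ℤ) (fun x : IX ℓ S U => lam x.1.1 x.1.2) (MvPolynomial.X x) = _
      rw [MvPolynomial.aeval_X]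
    rw [h2]
    have h3 : ι (lam x.1.1 x.1.2) ∈ L :=
      hL ⟨lam x.1.1 x.1.2, hE x.1.1 x.2.1 x.1.2⟩
    refine ⟨mul_mem hp.1 h3, ?_⟩
    rw [norm_mul]
    exact mul_le_one₀ hp.2 (norm_nonneg _) (hint x)

end Pool.Agent.Lib.MP_666dc0_nt.WL
end
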