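import Pool.Agent.Lib.MP_666dc0_nt.Mg.G022
import Pool.Agent.Lib.MP_666dc0_nt.Mg.G045
import Pool.Agent.Lib.MP_666dc0_nt.RepL
import Pool.Agent.Lib.MP_666dc0_nt.Mg.G049
import Pool.Agent.Lib.MP_666dc0_nt.Mg.G048
import Pool.Agent.Lib.MP_666dc0_nt.Eqv

section

namespace Pool.Agent.Lib.MP_666dc0_nt.IG

variable {O : Type} [CommRing O] [HopfAlgebra ℚ O] {Γ : Type} [Group Γ] {A : HopfAction Γ O}
  {n : ℕ} (ρ : MatRep A n)

/-- The values of regular functions along a family of points are in every algebra of functions which contains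
the entries of the matrices. By `hρ` it suffices to treat `f = ρ.a i j` and `f = antipode (ρ.a i j)` (the set of
good `f` is a `ℚ`-subalgebra; `Algebra.adjoin_induction` after `hρ ▸ Algebra.mem_top`, constants are in `𝓕`).
`ρ.ev K (x a) = ρ.gm (x a).left * ρ.pm K (x a).right`, so `ρ.gm (x a).left = ρ.ev K (x a) * ρ.pm K (x a).right⁻¹`, whose
entry `i j` is `(x a).left.hom (ρ.a i j)`. And `(x a).left.hom (antipode (ρ.a i j)) = ρ.gm (x a).left⁻¹ i j`
with `ρ.gm (x a).left⁻¹ = ρ.pm K (x a).right * ρ.ev K (x a)⁻¹` (the inverse of `ρ.gm (x a).left`: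
`ev_inv_mul`, `Haar.lean`: `gm_inv_mul`, `pm_mul_pm_inv`). -/
theorem mem_of_entries (hρ : Faithful ρ) {X : Type} {K : Type} [Field K] [Algebra ℚ K]
    (𝓕 : Subalgebra K (X → K)) (x : X → A.LGroup K)
    (h1 : ∀ i j, (fun a => ρ.ev K (x a) i j) ∈ 𝓕) (h2 : ∀ i j, (fun a => ρ.ev K (x a)⁻¹ i j) ∈ 𝓕)
    (h3 : ∀ i j, (fun a => ρ.pm K (x a).right i j) ∈ 𝓕)
    (h4 : ∀ i j, (fun a => ρ.pm K (x a).right⁻¹ i j) ∈ 𝓕) (f : O) :
    (fun a => (x a).left.hom f) ∈ 𝓕 := by
  have hf : f ∈ Algebra.adjoin ℚ ({f | ∃ i j, f = ρ.a i j} ∪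
      {f | ∃ i j, f = HopfAlgebra.antipode ℚ (ρ.a i j)}) := by
    have h0 : Algebra.adjoin ℚ ({f | ∃ i j, f = ρ.a i j} ∪
      {f | ∃ i j, f = HopfAlgebra.antipode ℚ (ρ.a i j)}) = ⊤ := hρ
    rw [h0]
    trivial
  have hg : ∀ a, ρ.gm (x a).left = ρ.ev K (x a) * ρ.pm K (x a).right⁻¹ := by
    intro a
    rw [MatRep.ev_apply, mul_assoc, ← map_mul, mul_inv_cancel, map_one, mul_one]
  have hev : ∀ a, ρ.ev K (x a) * ρ.ev K (x a)⁻¹ = 1 := by
    intro a
    rw [← map_mul, mul_inv_cancel, map_one]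
  have hgi : ∀ a, ρ.gm (x a).left⁻¹ = ρ.pm K (x a).right * ρ.ev K (x a)⁻¹ := by
    intro a
    have e1 : ρ.gm (x a).left⁻¹ * ρ.gm (x a).left = 1 := by
      rw [← MatRep.gm_mul, inv_mul_cancel, MatRep.gm_one]
    calc ρ.gm (x a).left⁻¹ = ρ.gm (x a).left⁻¹ * (ρ.ev K (x a) * ρ.ev K (x a)⁻¹) := by
          rw [hev, mul_one]
      _ = (ρ.gm (x a).left⁻¹ * ρ.gm (x a).left) * ρ.pm K (x a).right * ρ.ev K (x a)⁻¹ := by
          rw [MatRep.ev_apply ρ (x a)]
          simp only [mul_assoc]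
      _ = ρ.pm K (x a).right * ρ.ev K (x a)⁻¹ := by rw [e1, one_mul]
  induction hf using Algebra.adjoin_induction with
  | mem f h =>
    rcases h with ⟨i, j, rfl⟩ | ⟨i, j, rfl⟩
    · have e1 : (fun a => (x a).left.hom (ρ.a i j)) =
          ∑ k, (fun a => ρ.ev K (x a) i k) * (fun a => ρ.pm K (x a).right⁻¹ k j) := by
        funext a
        have e2 := congrFun (congrFun (hg a) i) j
        rw [Matrix.mul_apply] at e2
        rw [Finset.sum_apply]
        exact e2
      rw [e1]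
      exact 𝓕.sum_mem fun k _ => 𝓕.mul_mem (h1 i k) (h4 k j)
    · have e1 : (fun a => (x a).left.hom (HopfAlgebra.antipode ℚ (ρ.a i j))) =
          ∑ k, (fun a => ρ.pm K (x a).right i k) * (fun a => ρ.ev K (x a)⁻¹ k j) := by
        funext a
        have e2 := congrFun (congrFun (hgi a) i) j
        rw [Matrix.mul_apply] at e2
        rw [Finset.sum_apply]
        exact e2
      rw [e1]
      exact 𝓕.sum_mem fun k _ => 𝓕.mul_mem (h3 i k) (h2 k j)
  | algebraMap q =>
    have e1 : (fun a => (x a).left.hom (algebraMap ℚ O q)) =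
        algebraMap K (X → K) (algebraMap ℚ K q) := by
      funext a
      rw [AlgHom.commutes]
      rfl
    rw [e1]
    exact 𝓕.algebraMap_mem _
  | add f g _ _ hf hg =>
    have e1 : (fun a => (x a).left.hom (f + g)) =
        (fun a => (x a).left.hom f) + fun a => (x a).left.hom g := by
      funext a
      rw [map_add]
      rfl
    rw [e1]
    exact 𝓕.add_mem hf hg
  | mul f g _ _ hf hg =>
    have e1 : (fun a => (x a).left.hom (f * g)) =
        (fun a => (x a).left.hom f) * fun a => (x a).left.hom g := by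
      funext a
      rw [map_mul]
      rfl
    rw [e1]
    exact 𝓕.mul_mem hf hg

end Pool.Agent.Lib.MP_666dc0_nt.IG
end

section

open Topology

namespace Pool.Agent.Lib.MP_666dc0_nt.IG

variable {O : Type} [CommRing O] [HopfAlgebra ℚ O] {Γ : Type} [Group Γ] {A : HopfAction Γ O}
  {n : ℕ} (ρ : MatRep A n)

/-- `mem_of_entries` with `X = Γ`, `x = r` and the algebra of continuous functions (the `K`-subalgebra with
carrier `{f | Continuous f}`, constants are continuous); `ρ.ev K (r γ)⁻¹ = ρ.ev K (r γ⁻¹)`;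
`(r γ).right = γ` and `continuous_pm` (Bound.lean) for `h3`, `h4`. -/
theorem continuous_of_entries [TopologicalSpace Γ] [IsTopologicalGroup Γ] [CompactSpace Γ]
    (hA : IsOpen (A.act.ker : Set Γ)) (hρ : Faithful ρ) {K : Type} [Field K] [Algebra ℚ K]
    [TopologicalSpace K] [IsTopologicalRing K] (r : Γ →* A.LGroup K) (hr : ∀ γ, (r γ).right = γ)
    (h : ∀ i j, Continuous fun γ => ρ.ev K (r γ) i j) (f : O) :
    Continuous fun γ => (r γ).left.hom f := by
  refine mem_of_entries ρ hρ (continuousSubalgebra (R := K) (A := K) (α := Γ)) (fun γ => r γ)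
    (fun i j => h i j) (fun i j => ?_) (fun i j => ?_) (fun i j => ?_) f
  · have h1 : (fun γ => ρ.ev K (r γ)⁻¹ i j) = fun γ => ρ.ev K (r γ⁻¹) i j := by
      funext γ
      rw [map_inv r γ]
    show Continuous (fun γ => ρ.ev K (r γ)⁻¹ i j)
    rw [h1]
    exact (h i j).comp continuous_inv
  · have h1 : (fun γ => ρ.pm K (r γ).right i j) = fun γ => ρ.pm K γ i j := by
      funext γ
      rw [hr]
    show Continuous (fun γ => ρ.pm K (r γ).right i j)
    rw [h1]
    exact continuous_pm ρ hA K i j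
  · have h1 : (fun γ => ρ.pm K (r γ).right⁻¹ i j) = fun γ => ρ.pm K γ⁻¹ i j := by
      funext γ
      rw [hr]
    show Continuous (fun γ => ρ.pm K (r γ).right⁻¹ i j)
    rw [h1]
    exact (continuous_pm ρ hA K i j).comp continuous_inv

end Pool.Agent.Lib.MP_666dc0_nt.IG
end

section

open TensorProduct Coalgebra Polynomial
open scoped TensorProduct Matrix

namespace Pool.Agent.Lib.MP_666dc0_nt

lemma exists_compl_of_injective {K M N ι : Type*} [Field K] [AddCommGroup M] [Module K M]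
    [AddCommGroup N] [Module K N] (i : M →ₗ[K] N) (hi : Function.Injective i)
    (f : ι → Module.End K M) (F : ι → Module.End K N) (hFi : ∀ t m, F t (i m) = i (f t m))
    (hN : ∀ W : Submodule K N, (∀ t, W ≤ W.comap (F t)) →
      ∃ W' : Submodule K N, (∀ t, W' ≤ W'.comap (F t)) ∧ IsCompl W W')
    (W : Submodule K M) (hW : ∀ t, W ≤ W.comap (f t)) :
    ∃ W' : Submodule K M, (∀ t, W' ≤ W'.comap (f t)) ∧ IsCompl W W' := by
  obtain ⟨Q, hQ1, hQ2⟩ := hN (W.map i) (by
    rintro t _ ⟨w, hw, rfl⟩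
    rw [Submodule.mem_comap, hFi]
    exact ⟨_, hW t hw, rfl⟩)
  refine ⟨Q.comap i, ?_, ?_⟩
  · intro t m hm
    rw [Submodule.mem_comap, Submodule.mem_comap, ← hFi]
    exact hQ1 t hm
  · rw [isCompl_iff, disjoint_iff, codisjoint_iff, eq_bot_iff, eq_top_iff]
    constructor
    · rintro m ⟨hm1, hm2⟩
      have h1 := hQ2.disjoint
      rw [Submodule.disjoint_def] at h1
      have h2 := h1 (i m) ⟨m, hm1, rfl⟩ hm2
      rw [Submodule.mem_bot]
      exact hi (by rw [h2, map_zero])
    · intro m _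
      have h1 : i m ∈ W.map i ⊔ Q := by rw [hQ2.sup_eq_top]; exact Submodule.mem_top
      obtain ⟨_, ⟨w, hw, rfl⟩, z, hz, hwz⟩ := Submodule.mem_sup.mp h1
      refine Submodule.mem_sup.mpr ⟨w, hw, m - w, ?_, by abel⟩
      rw [Submodule.mem_comap, map_sub, ← hwz, add_sub_cancel_left]
      exact hz

section

variable {O : Type} [CommRing O] [HopfAlgebra ℚ O] {Γ : Type*} [Group Γ] {A : HopfAction Γ O}
  {K : Type} [Field K] [Algebra ℚ K] {n : ℕ} (ρ : MatRepL A n)

/-- The matrix representation on functions. -/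
noncomputable def dualRep {G : Type*} [Group G] (r : G →* A.LGroup K) :
    G →* Matrix (Fin n) (Fin n) K where
  toFun g := (ρ.ev K (r g⁻¹))ᵀ
  map_one' := by rw [inv_one, map_one, map_one, Matrix.transpose_one]
  map_mul' g h := by rw [mul_inv_rev, map_mul, map_mul, Matrix.transpose_mul]

lemma cr_dualRep {G : Type*} [Group G] (r : G →* A.LGroup K) (hr : IsCompletelyReducible r) :
    CR (dualRep ρ r) := by
  intro W hW
  obtain ⟨W', h1, h2⟩ := exists_compl_of_injective (ρ.emb K) ρ.emb_injective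
    (fun g : G => Matrix.toLin' ((ρ.ev K (r g))ᵀ)) (fun g => A.transl (r g).left (r g).right)
    (fun g m => by rw [ρ.transl_emb, Matrix.toLin'_apply]) hr W (by
      intro g w hw
      have h := hW g⁻¹ w hw
      rw [Submodule.mem_comap, Matrix.toLin'_apply]
      change (ρ.ev K (r g⁻¹⁻¹))ᵀ *ᵥ w ∈ W at h
      rwa [inv_inv] at h)
  refine ⟨W', fun g w hw => ?_, h2⟩
  have h3 := h1 g⁻¹ hw
  rw [Submodule.mem_comap, Matrix.toLin'_apply] at h3
  exact h3

/-- Nondegeneracy of the trace form for completely reducible homomorphisms. -/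
theorem ev_eq_zero [CharZero K] {G : Type*} [Group G] (r : G →* A.LGroup K)
    (hr : IsCompletelyReducible r) (N : Subgroup G) (hN : N.Normal) (X : Matrix (Fin n) (Fin n) K)
    (hX : X ∈ Submodule.span K ((fun g => ρ.ev K (r g)) '' N))
    (h : ∀ γ ∈ N, (X * ρ.ev K (r γ)).trace = 0) : X = 0 := by
  have h1 : Xᵀ = 0 := by
    refine eq_zero_of_trace (dualRep ρ r) (cr_dualRep ρ r hr) N hN Xᵀ ?_ ?_
    · have h2 : Submodule.span K ((fun g => ρ.ev K (r g)) '' N) ≤
          (Submodule.span K (dualRep ρ r '' N)).comap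
            (Matrix.transposeLinearEquiv (Fin n) (Fin n) K K).toLinearMap := by
        rw [Submodule.span_le]
        rintro _ ⟨g, hg, rfl⟩
        refine Submodule.subset_span ⟨g⁻¹, N.inv_mem hg, ?_⟩
        change (ρ.ev K (r g⁻¹⁻¹))ᵀ = (ρ.ev K (r g))ᵀ
        rw [inv_inv]
      exact h2 hX
    · intro γ hγ
      change (Xᵀ * (ρ.ev K (r γ⁻¹))ᵀ).trace = 0
      rw [← Matrix.transpose_mul, Matrix.trace_transpose, Matrix.trace_mul_comm]
      exact h _ (N.inv_mem hγ)
  exact Matrix.transpose_eq_zero.mp h1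

omit [Algebra ℚ K] in
lemma aeval_transpose (M : Matrix (Fin n) (Fin n) K) (p : K[X]) :
    aeval Mᵀ p = (aeval M p)ᵀ := by
  induction p using Polynomial.induction_on' with
  | add p q hp hq => rw [map_add, map_add, hp, hq, Matrix.transpose_add]
  | monomial k a =>
    rw [aeval_monomial, aeval_monomial, Algebra.algebraMap_eq_smul_one, smul_one_mul, smul_one_mul,
      Matrix.transpose_smul, Matrix.transpose_pow]

/-- Semisimple elements act semisimply in matrix representations. -/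
lemma exists_squarefree_of_isSemisimpleElt {x : A.LGroup K} (hx : A.IsSemisimpleElt x) :
    ∃ p : K[X], Squarefree p ∧ aeval (ρ.ev K x) p = 0 := by
  have h1 : LinearMap.range (ρ.emb K) ∈ Module.End.invtSubmodule (A.transl x.left x.right) := by
    rw [Module.End.mem_invtSubmodule]
    rintro _ ⟨v, rfl⟩
    rw [Submodule.mem_comap, ρ.transl_emb]
    exact ⟨_, rfl⟩
  have h1' : ∀ z ∈ LinearMap.range (ρ.emb K), A.transl x.left x.right z ∈
    LinearMap.range (ρ.emb K) := h1
  have h2 : Module.End.IsSemisimple (LinearMap.restrict (A.transl x.left x.right) h1') :=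
    Module.End.IsSemisimple.restrict h1 hx
  have h3 : Module.End.IsSemisimple (Matrix.toLin' (ρ.ev K x)ᵀ) := by
    rw [LinearEquiv.isSemisimple_iff (Matrix.toLin' (ρ.ev K x)ᵀ) (LinearMap.restrict _ h1')
      (LinearEquiv.ofInjective (ρ.emb K) ρ.emb_injective)]
    · exact h2
    · refine LinearMap.ext fun v => Subtype.ext ?_
      simp only [LinearMap.comp_apply, LinearEquiv.coe_coe, LinearEquiv.ofInjective_apply,
        LinearMap.coe_restrict_apply, Matrix.toLin'_apply]
      rw [ρ.transl_emb]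
  refine ⟨minpoly K (Matrix.toLin' (ρ.ev K x)ᵀ), h3.minpoly_squarefree, ?_⟩
  have h4 := minpoly.aeval K (Matrix.toLin' (ρ.ev K x)ᵀ)
  have h5 : aeval (ρ.ev K x)ᵀ (minpoly K (Matrix.toLin' (ρ.ev K x)ᵀ)) = 0 := by
    apply (Matrix.toLinAlgEquiv' (R := K) (n := Fin n)).injective
    rw [map_zero, ← AlgEquiv.coe_toAlgHom, ← Polynomial.aeval_algHom_apply]
    exact h4
  rw [aeval_transpose, Matrix.transpose_eq_zero] at h5
  exact h5

/-- Elements acting semisimply in all matrix representations are semisimple. -/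
lemma isSemisimpleElt_of_squarefree
    (hst : ∀ Φ : Set O, Φ.Finite → ∃ Φ' : Set O, Φ'.Finite ∧ Φ ⊆ Φ' ∧ ∀ γ, ∀ f ∈ Φ', A.act γ f ∈ Φ')
    {x : A.LGroup K}
    (h : ∀ (n : ℕ) (ρ : MatRepL A n), ∃ p : K[X], Squarefree p ∧ aeval (ρ.ev K x) p = 0) :
    A.IsSemisimpleElt x := by
  classical
  have h1 : ∀ f : O, ∃ (n : ℕ) (ρ : MatRepL A n), f ∈ Submodule.span ℚ (Set.range ρ.e) := by
    intro f
    obtain ⟨Φ', hΦ'1, hΦ'2, hΦ'3⟩ := hst {f} (Set.finite_singleton f)
    obtain ⟨n, ρ, -, hρ⟩ := exists_matRepL A hΦ'1 hΦ'3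
    exact ⟨n, ρ, hρ f (hΦ'2 rfl)⟩
  choose n ρ hρ using h1
  have hinv : ∀ f, LinearMap.range ((ρ f).emb K) ∈
      Module.End.invtSubmodule (A.transl x.left x.right) := by
    intro f
    rw [Module.End.mem_invtSubmodule]
    rintro _ ⟨v, rfl⟩
    rw [Submodule.mem_comap, (ρ f).transl_emb]
    exact ⟨_, rfl⟩
  have hinv' : ∀ f, ∀ z ∈ LinearMap.range ((ρ f).emb K), A.transl x.left x.right z ∈
    LinearMap.range ((ρ f).emb K) := hinv
  have hss : ∀ f, Module.End.IsSemisimple
      (LinearMap.restrict (A.transl x.left x.right) (hinv' f)) := by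
    intro f
    obtain ⟨p, hp1, hp2⟩ := h (n f) (ρ f)
    have h3 : Module.End.IsSemisimple (Matrix.toLin' ((ρ f).ev K x)ᵀ) := by
      refine Module.End.isSemisimple_of_squarefree_aeval_eq_zero hp1 ?_
      have h5 : aeval ((ρ f).ev K x)ᵀ p = 0 := by rw [aeval_transpose, hp2, Matrix.transpose_zero]
      have h6 := congrArg (Matrix.toLinAlgEquiv' (R := K) (n := Fin (n f))) h5
      rw [map_zero, ← AlgEquiv.coe_toAlgHom, ← Polynomial.aeval_algHom_apply] at h6
      exact h6
    rw [LinearEquiv.isSemisimple_iff (Matrix.toLin' ((ρ f).ev K x)ᵀ) (LinearMap.restrict _ (hinv' f))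
      (LinearEquiv.ofInjective ((ρ f).emb K) (ρ f).emb_injective)] at h3
    · exact h3
    · refine LinearMap.ext fun v => Subtype.ext ?_
      simp only [LinearMap.comp_apply, LinearEquiv.coe_coe, LinearEquiv.ofInjective_apply,
        LinearMap.coe_restrict_apply, Matrix.toLin'_apply]
      rw [(ρ f).transl_emb]
  change IsSemisimpleModule K[X] (Module.AEval' (A.transl x.left x.right))
  let p : O → Submodule K[X] (Module.AEval' (A.transl x.left x.right)) := fun f =>
    Module.AEval.mapSubmodule K (K ⊗[ℚ] O) (A.transl x.left x.right) ⟨_, hinv f⟩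
  have hp : ∀ f, IsSemisimpleModule K[X] (p f) := by
    intro f
    let e : Module.AEval' (LinearMap.restrict (A.transl x.left x.right) (hinv' f)) ≃ₗ[K[X]] p f :=
      Module.AEval.restrict_equiv_mapSubmodule (A.transl x.left x.right)
      (LinearMap.range ((ρ f).emb K)) (hinv f)
    have h4 : IsSemisimpleModule K[X]
      (Module.AEval' (LinearMap.restrict (A.transl x.left x.right) (hinv' f))) := hss f
    exact IsSemisimpleModule.congr (N := p f)
      (M := Module.AEval' (LinearMap.restrict (A.transl x.left x.right) (hinv' f))) e.symm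
  refine isSemisimpleModule_of_isSemisimpleModule_submodule' hp ?_
  rw [eq_top_iff]
  intro z _
  obtain ⟨z, rfl⟩ := (Module.AEval'.of (A.transl x.left x.right)).surjective z
  induction z using TensorProduct.induction_on with
  | zero => simp
  | add z w hz hw => rw [map_add]; exact add_mem (hz trivial) (hw trivial)
  | tmul c f =>
    refine Submodule.mem_iSup_of_mem f ?_
    rw [Module.AEval.mem_mapSubmodule_apply]
    change (Module.AEval'.of (A.transl x.left x.right)).symm _ ∈ LinearMap.range ((ρ f).emb K)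
    rw [LinearEquiv.symm_apply_apply]
    have h5 := hρ f
    rw [Submodule.mem_span_range_iff_exists_fun] at h5
    obtain ⟨b, hb⟩ := h5
    refine ⟨fun j => c * algebraMap ℚ K (b j), ?_⟩
    have h6 : c ⊗ₜ[ℚ] (∑ j, b j • (ρ f).e j) =
        ∑ j, (c * algebraMap ℚ K (b j)) ⊗ₜ[ℚ] (ρ f).e j := by
      rw [TensorProduct.tmul_sum]
      refine Finset.sum_congr rfl fun j _ => ?_
      rw [TensorProduct.tmul_smul, TensorProduct.smul_tmul', Algebra.smul_def, mul_comm]
    rw [MatRepL.emb_apply, ← h6, hb]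

end

end Pool.Agent.Lib.MP_666dc0_nt
end

section

open Polynomial

namespace Pool.Agent.Lib.MP_666dc0_nt.IG

variable {O : Type} [CommRing O] [HopfAlgebra ℚ O] {Γ : Type} [Group Γ] {A : HopfAction Γ O}
  {n : ℕ} (ρ : MatRep A n)

private lemma J14a_const {K : Type} [Field K] (c : K) : (fun _ : ℕ => c) ∈ EXP K :=
  Subalgebra.algebraMap_mem (EXP K) c

/-- Values along the powers of `g` are exponential sums. `mem_of_entries` with `X = ℕ`, `x a = r (g ^ a)`,
`𝓕 = EXP K`: `h1` by `FK_mem_EXP` for `g`; `h2`: `(x a)⁻¹ = r (g⁻¹ ^ a)`, `FK_mem_EXP` for `g⁻¹` (`DG_inv`);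
`h3`, `h4`: constant (`(x a).right = g ^ a`, `pm_one`, `A.act (g ^ a) = 1`). -/
theorem value_mem_EXP (hρ : Faithful ρ) {K : Type} [Field K] [Algebra ℚ K] {N : ℕ}
    (σ : Γ → Matrix (Fin N) (Fin N) K) (h1 : σ 1 = 1) (hmul : ∀ γ δ, σ (γ * δ) = σ γ * σ δ)
    (r : Γ →* A.LGroup K) (hr : ∀ γ, (r γ).right = γ)
    (hent : ∀ i j, (fun γ => ρ.ev K (r γ) i j) ∈ FK A σ) {g : Γ} (hg : A.act g = 1)
    (hd : DG (σ g)) (f : O) : (fun a : ℕ => (r (g ^ a)).left.hom f) ∈ EXP K := by
  have hd' : DG (σ g⁻¹) := DG_inv (by rw [← hmul, mul_inv_cancel, h1])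
    (by rw [← hmul, inv_mul_cancel, h1]) hd
  have hg' : A.act g⁻¹ = 1 := by rw [map_inv, hg, inv_one]
  refine mem_of_entries ρ hρ (EXP K) (fun a : ℕ => r (g ^ a)) ?_ ?_ ?_ ?_ f
  · intro i j
    exact FK_mem_EXP σ h1 hmul hg hd (hent i j)
  · intro i j
    have h2 := FK_mem_EXP σ h1 hmul hg' hd' (hent i j)
    have h3 : (fun a : ℕ => ρ.ev K (r (g ^ a))⁻¹ i j) =
        fun a : ℕ => (fun γ => ρ.ev K (r γ) i j) (g⁻¹ ^ a) := by
      funext a
      change ρ.ev K (r (g ^ a))⁻¹ i j = ρ.ev K (r (g⁻¹ ^ a)) i j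
      rw [← map_inv r, inv_pow]
    rw [h3]
    exact h2
  · intro i j
    have h3 : (fun a : ℕ => ρ.pm K (r (g ^ a)).right i j) =
        fun _ : ℕ => (1 : Matrix (Fin n) (Fin n) K) i j := by
      funext a
      rw [hr, ρ.pm_one (by rw [map_pow, hg, one_pow])]
    rw [h3]
    exact J14a_const _
  · intro i j
    have h3 : (fun a : ℕ => ρ.pm K (r (g ^ a)).right⁻¹ i j) =
        fun _ : ℕ => (1 : Matrix (Fin n) (Fin n) K) i j := by
      funext a
      rw [hr, ρ.pm_one (by rw [map_inv, map_pow, hg, one_pow, inv_one])]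
    rw [h3]
    exact J14a_const _

end Pool.Agent.Lib.MP_666dc0_nt.IG
end
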