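import Mathlib

section

/-! Asymptotics of the sum over prime ideals as `s` tends to one from above. -/

open Filter Topology NumberField IsDedekindDomain
open scoped NumberField BigOperators

namespace Pool.Agent.Lib.MP_666dc0_nt

section Zeta

variable (K : Type*) [Field K] [NumberField K]

/-- The coefficients of the Dedekind zeta function. -/
noncomputable def idealCount (n : ℕ) : ℝ :=
  (Nat.card {I : Ideal (𝓞 K) // Ideal.absNorm I = n} : ℝ)

lemma idealCount_nonneg (n : ℕ) : 0 ≤ idealCount K n := Nat.cast_nonneg _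

lemma tendsto_sum_idealCount_div :
    Tendsto (fun n : ℕ ↦ (∑ k ∈ Finset.Icc 1 n, idealCount K k) / (n : ℝ)) atTop
      (𝓝 (dedekindZeta_residue K)) := by
  refine ((NumberField.Ideal.tendsto_norm_le_div_atTop₀ K).comp
    tendsto_natCast_atTop_atTop).congr fun n ↦ ?_
  simp only [Function.comp_apply, Nat.cast_le, idealCount, ← Nat.cast_sum]
  congr
  rw [← add_left_inj 1, ← Ideal.card_norm_le_eq_card_norm_le_add_one,
    show Finset.Icc 1 n = Finset.Ioc 0 n from Finset.Icc_succ_left_eq_Ioc _ _,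
    show 1 = Nat.card {I : Ideal (𝓞 K) // Ideal.absNorm I = 0} by
      simp [Ideal.absNorm_eq_zero_iff],
    Finset.sum_Ioc_add_eq_sum_Icc (n.zero_le),
    ← Finset.card_preimage_eq_sum_card_image_eq
      (fun k _ ↦ Ideal.finite_setOfPred_absNorm_eq k)]
  simp [Set.coe_eq_subtype]

lemma lseriesSummable_idealCount {s : ℝ} (hs : 1 < s) :
    LSeriesSummable (fun n ↦ (idealCount K n : ℂ)) s := by
  refine LSeriesSummable_of_sum_norm_bigO_and_nonneg (r := 1) ?_ (idealCount_nonneg K)
    zero_le_one (by simpa using hs)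
  have := tendsto_sum_idealCount_div K
  exact Asymptotics.isBigO_atTop_natCast_rpow_of_tendsto_div_rpow (by simpa using this)


/-- Sum over all nonzero ideals of `N(I)^(-s)`. -/
noncomputable def idealSum (s : ℝ) : ℝ :=
  ∑' I : {I : Ideal (𝓞 K) // I ≠ ⊥}, (Ideal.absNorm I.1 : ℝ) ^ (-s)

lemma lseries_term_idealCount (s : ℝ) (n : ℕ) :
    LSeries.term (fun n ↦ (idealCount K n : ℂ)) s n =
      ((if n = 0 then 0 else idealCount K n * (n : ℝ) ^ (-s) : ℝ) : ℂ) := by
  rcases eq_or_ne n 0 with rfl | hn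
  · simp
  · rw [LSeries.term_of_ne_zero hn, if_neg hn]
    push_cast
    rw [div_eq_mul_inv, ← Complex.cpow_neg]
    congr 1
    rw [Complex.ofReal_cpow (by positivity)]
    simp

lemma tsum_fiber (s : ℝ) (n : ℕ) :
    ∑' I : {x : {I : Ideal (𝓞 K) // I ≠ ⊥} // Ideal.absNorm x.1 = n},
      (Ideal.absNorm I.1.1 : ℝ) ^ (-s) =
      (if n = 0 then 0 else idealCount K n * (n : ℝ) ^ (-s) : ℝ) := by
  rcases eq_or_ne n 0 with rfl | hn
  · have : IsEmpty {x : {I : Ideal (𝓞 K) // I ≠ ⊥} // Ideal.absNorm x.1 = 0} := by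
      constructor
      rintro ⟨⟨I, hI⟩, h⟩
      exact hI (Ideal.absNorm_eq_zero_iff.mp h)
    simp
  · rw [if_neg hn]
    have hfin : Finite {I : Ideal (𝓞 K) // Ideal.absNorm I = n} :=
      Ideal.finite_setOfPred_absNorm_eq n
    let e : {x : {I : Ideal (𝓞 K) // I ≠ ⊥} // Ideal.absNorm x.1 = n} ≃
        {I : Ideal (𝓞 K) // Ideal.absNorm I = n} :=
      { toFun := fun x => ⟨x.1.1, x.2⟩
        invFun := fun x => ⟨⟨x.1, fun h => hn (by rw [← x.2, h, Ideal.absNorm_bot])⟩, x.2⟩
        left_inv := fun x => rfl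
        right_inv := fun x => rfl }
    have hfin' : Finite {x : {I : Ideal (𝓞 K) // I ≠ ⊥} // Ideal.absNorm x.1 = n} :=
      Finite.of_equiv _ e.symm
    have : ∀ I : {x : {I : Ideal (𝓞 K) // I ≠ ⊥} // Ideal.absNorm x.1 = n},
      (Ideal.absNorm I.1.1 : ℝ) ^ (-s) = (n : ℝ) ^ (-s) := fun I => by rw [I.2]
    simp_rw [this]
    rw [tsum_const, nsmul_eq_mul, idealCount, Nat.card_congr e]

lemma summable_ideal {s : ℝ} (hs : 1 < s) :
    Summable (fun I : {I : Ideal (𝓞 K) // I ≠ ⊥} ↦ (Ideal.absNorm I.1 : ℝ) ^ (-s)) := by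
  rw [← (Equiv.sigmaFiberEquiv
    (fun I : {I : Ideal (𝓞 K) // I ≠ ⊥} ↦ Ideal.absNorm I.1)).summable_iff]
  refine (summable_sigma_of_nonneg ?_).mpr ⟨fun n => ?_, ?_⟩
  · intro x
    exact Real.rpow_nonneg (Nat.cast_nonneg _) _
  · rcases eq_or_ne n 0 with rfl | hn
    · have : IsEmpty {x : {I : Ideal (𝓞 K) // I ≠ ⊥} // Ideal.absNorm x.1 = 0} := by
        constructor
        rintro ⟨⟨I, hI⟩, h⟩
        exact hI (Ideal.absNorm_eq_zero_iff.mp h)
      exact Summable.of_finite
    · have hfin : Finite {I : Ideal (𝓞 K) // Ideal.absNorm I = n} :=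
        Ideal.finite_setOfPred_absNorm_eq n
      have : Finite {x : {I : Ideal (𝓞 K) // I ≠ ⊥} // Ideal.absNorm x.1 = n} := by
        refine Finite.of_injective
          (β := {I : Ideal (𝓞 K) // Ideal.absNorm I = n}) (fun x => ⟨x.1.1, x.2⟩) ?_
        rintro ⟨⟨I, hI⟩, h⟩ ⟨⟨J, hJ⟩, h'⟩ hh
        simpa using hh
      exact Summable.of_finite
  · have h := lseriesSummable_idealCount K hs
    rw [LSeriesSummable] at h
    simp_rw [funext (lseries_term_idealCount K s)] at h
    rw [Complex.summable_ofReal] at h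
    refine h.congr fun n => ?_
    exact (tsum_fiber K s n).symm

lemma idealSum_eq {s : ℝ} (hs : 1 < s) :
    (idealSum K s : ℂ) = LSeries (fun n ↦ (idealCount K n : ℂ)) s := by
  have h1 : idealSum K s = ∑' n : ℕ, (if n = 0 then 0 else idealCount K n * (n : ℝ) ^ (-s) : ℝ) := by
    rw [idealSum, ← (Equiv.sigmaFiberEquiv
      (fun I : {I : Ideal (𝓞 K) // I ≠ ⊥} ↦ Ideal.absNorm I.1)).tsum_eq]
    rw [Summable.tsum_sigma]
    · exact tsum_congr fun n => tsum_fiber K s n
    · exact ((Equiv.sigmaFiberEquiv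
        (fun I : {I : Ideal (𝓞 K) // I ≠ ⊥} ↦ Ideal.absNorm I.1)).summable_iff).mpr
        (summable_ideal K hs)
  rw [h1, LSeries, funext (lseries_term_idealCount K s), Complex.ofReal_tsum]

lemma tendsto_sub_one_mul_idealSum :
    Tendsto (fun s : ℝ ↦ (s - 1) * idealSum K s) (𝓝[>] 1) (𝓝 (dedekindZeta_residue K)) := by
  have h := LSeries_tendsto_sub_mul_nhds_one_of_tendsto_sum_div_and_nonneg (idealCount K)
    (tendsto_sum_idealCount_div K) (idealCount_nonneg K)
  have h2 : Tendsto (fun s : ℝ ↦ (((s - 1) * idealSum K s : ℝ) : ℂ)) (𝓝[>] 1)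
      (𝓝 ((dedekindZeta_residue K : ℝ) : ℂ)) := by
    refine h.congr' ?_
    filter_upwards [self_mem_nhdsWithin] with s hs
    push_cast
    rw [idealSum_eq K hs]
  have h3 := (Complex.continuous_re.tendsto _).comp h2
  refine h3.congr fun s => ?_
  simp only [Function.comp_apply, Complex.ofReal_re]


variable {K} in
/-- The term `N(v)^(-s)`. -/
noncomputable def nrm (s : ℝ) (v : HeightOneSpectrum (𝓞 K)) : ℝ :=
  (Ideal.absNorm v.asIdeal : ℝ) ^ (-s)

variable {K}

lemma two_le_absNorm (v : HeightOneSpectrum (𝓞 K)) : (2 : ℝ) ≤ Ideal.absNorm v.asIdeal := by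
  have h0 : Ideal.absNorm v.asIdeal ≠ 0 := by
    rw [Ne, Ideal.absNorm_eq_zero_iff]; exact v.ne_bot
  have h1 : Ideal.absNorm v.asIdeal ≠ 1 := by
    rw [Ne, Ideal.absNorm_eq_one_iff]; exact v.isPrime.ne_top
  have : 2 ≤ Ideal.absNorm v.asIdeal := by omega
  exact_mod_cast this

lemma nrm_pos (s : ℝ) (v : HeightOneSpectrum (𝓞 K)) : 0 < nrm s v :=
  Real.rpow_pos_of_pos (by linarith [two_le_absNorm v]) _

lemma nrm_le_half {s : ℝ} (hs : 1 ≤ s) (v : HeightOneSpectrum (𝓞 K)) : nrm s v ≤ 1 / 2 := by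
  have h2 := two_le_absNorm v
  calc nrm s v ≤ (Ideal.absNorm v.asIdeal : ℝ) ^ (-1 : ℝ) :=
        Real.rpow_le_rpow_of_exponent_le (by linarith) (by linarith)
    _ = (Ideal.absNorm v.asIdeal : ℝ)⁻¹ := by rw [Real.rpow_neg_one]
    _ ≤ 1 / 2 := by
        rw [one_div]
        exact inv_anti₀ (by norm_num) h2

lemma nrm_sq (s : ℝ) (v : HeightOneSpectrum (𝓞 K)) : nrm s v ^ 2 = nrm (2 * s) v := by
  rw [nrm, nrm, ← Real.rpow_natCast, ← Real.rpow_mul (by positivity)]
  congr 1
  push_cast; ring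

lemma nrm_anti {s t : ℝ} (h : s ≤ t) (v : HeightOneSpectrum (𝓞 K)) : nrm t v ≤ nrm s v := by
  have h2 := two_le_absNorm v
  exact Real.rpow_le_rpow_of_exponent_le (by linarith) (by linarith)

lemma summable_nrm {s : ℝ} (hs : 1 < s) :
    Summable (fun v : HeightOneSpectrum (𝓞 K) ↦ nrm s v) := by
  have h := summable_ideal K hs
  have : Function.Injective (fun v : HeightOneSpectrum (𝓞 K) ↦
      (⟨v.asIdeal, v.ne_bot⟩ : {I : Ideal (𝓞 K) // I ≠ ⊥})) := by
    intro v w hvw
    exact HeightOneSpectrum.ext (by simpa using hvw)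
  exact (h.comp_injective this).congr (fun v => rfl)

lemma prod_one_add_le {s : ℝ} (hs : 1 < s) (T : Finset (HeightOneSpectrum (𝓞 K))) :
    ∏ v ∈ T, (1 + nrm s v) ≤ idealSum K s := by
  classical
  have h1 : ∏ v ∈ T, (1 + nrm s v) = ∑ U ∈ T.powerset, ∏ v ∈ U, nrm s v := by
    rw [Finset.prod_one_add]
  rw [h1]
  let g : Finset (HeightOneSpectrum (𝓞 K)) → {I : Ideal (𝓞 K) // I ≠ ⊥} :=
    fun U => ⟨∏ v ∈ U, v.asIdeal, by
      rw [Ne, ← Ideal.zero_eq_bot, Finset.prod_eq_zero_iff]
      rintro ⟨v, -, hv⟩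
      exact v.ne_bot hv⟩
  have hg : Function.Injective g := by
    intro U V hUV
    have key : ∀ (U : Finset (HeightOneSpectrum (𝓞 K))) (w : HeightOneSpectrum (𝓞 K)),
        (g U).1 ≤ w.asIdeal ↔ w ∈ U := by
      intro U w
      constructor
      · intro hw
        have hp : w.asIdeal.IsPrime := w.isPrime
        obtain ⟨v, hv, hvw⟩ := (Ideal.IsPrime.prod_le hp).mp hw
        have : v = w := by
          apply HeightOneSpectrum.ext
          exact (v.isMaximal.eq_of_le w.isPrime.ne_top hvw)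
        rwa [← this]
      · intro hw
        exact Ideal.prod_le_inf.trans (Finset.inf_le hw)
    ext w
    rw [← key U w, ← key V w, hUV]
  have h2 : ∀ U, ∏ v ∈ U, nrm s v = (Ideal.absNorm (g U).1 : ℝ) ^ (-s) := by
    intro U
    simp only [g, nrm]
    rw [map_prod]
    push_cast
    rw [Real.finsetProd_rpow _ _ (fun v _ => by positivity)]
  simp_rw [h2]
  rw [← Finset.sum_image (f := fun I : {I : Ideal (𝓞 K) // I ≠ ⊥} =>
    (Ideal.absNorm I.1 : ℝ) ^ (-s)) (g := g) (fun U _ V _ h => hg h)]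
  exact (summable_ideal K hs).sum_le_tsum _ (fun I _ => by positivity)


lemma sum_le_prod_geom {s : ℝ} (hs : 1 < s) (J : Finset {I : Ideal (𝓞 K) // I ≠ ⊥}) :
    ∃ T : Finset (HeightOneSpectrum (𝓞 K)),
      ∑ I ∈ J, (Ideal.absNorm I.1 : ℝ) ^ (-s) ≤ ∏ v ∈ T, (1 - nrm s v)⁻¹ := by
  classical
  have hfac : ∀ I : {I : Ideal (𝓞 K) // I ≠ ⊥},
      (Function.mulSupport fun v : HeightOneSpectrum (𝓞 K) =>
        v.asIdeal ^ multiplicity v.asIdeal I.1).Finite := by
    intro I
    have := Ideal.hasFiniteMulSupport (R := 𝓞 K) I.2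
    refine Set.Finite.subset this ?_
    intro v hv
    simp only [Function.mem_mulSupport] at hv ⊢
    rwa [IsDedekindDomain.HeightOneSpectrum.maxPowDividing_eq_pow_multiplicity I.2]
  let T : Finset (HeightOneSpectrum (𝓞 K)) := J.biUnion fun I => (hfac I).toFinset
  refine ⟨T, ?_⟩
  have hI : ∀ I ∈ J, ∏ v ∈ T, v.asIdeal ^ multiplicity v.asIdeal I.1 = I.1 := by
    intro I hI
    rw [← finprod_eq_prod_of_mulSupport_subset]
    · exact Ideal.finprod_heightOneSpectrum_pow_multiplicity I.2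
    · intro v hv
      simp only [T, Finset.coe_biUnion, Set.mem_iUnion, Set.Finite.coe_toFinset]
      exact ⟨I, hI, hv⟩
  let E : ℕ := J.sup fun I => T.sup fun v => multiplicity v.asIdeal I.1
  have hE : ∀ I ∈ J, ∀ v ∈ T, multiplicity v.asIdeal I.1 ≤ E := by
    intro I hI v hv
    exact (Finset.le_sup (f := fun v : HeightOneSpectrum (𝓞 K) =>
      multiplicity v.asIdeal I.1) hv).trans
      (Finset.le_sup (f := fun I : {I : Ideal (𝓞 K) // I ≠ ⊥} =>
        T.sup fun v => multiplicity v.asIdeal I.1) hI)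
  calc ∑ I ∈ J, (Ideal.absNorm I.1 : ℝ) ^ (-s)
      = ∑ I ∈ J, ∏ v : T, nrm s v.1 ^ multiplicity v.1.asIdeal I.1 := by
        refine Finset.sum_congr rfl fun I hIJ => ?_
        conv_lhs => rw [← hI I hIJ]
        rw [map_prod]
        push_cast
        rw [← Real.finsetProd_rpow _ _ (fun v _ => by positivity), ← Finset.prod_coe_sort]
        refine Finset.prod_congr rfl fun v _ => ?_
        rw [nrm, map_pow]
        push_cast
        rw [← Real.rpow_natCast, ← Real.rpow_natCast, ← Real.rpow_mul (by positivity),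
          ← Real.rpow_mul (by positivity), mul_comm]
    _ ≤ ∑ e ∈ Fintype.piFinset (fun _ : T => Finset.range (E + 1)), ∏ v : T, nrm s v.1 ^ e v := by
        let g : {I : Ideal (𝓞 K) // I ≠ ⊥} → (T → ℕ) := fun I v => multiplicity v.1.asIdeal I.1
        have hg : Set.InjOn g J := by
          intro I hIJ I' hIJ' h
          apply Subtype.ext
          rw [← hI I hIJ, ← hI I' hIJ']
          refine Finset.prod_congr rfl fun v hv => ?_
          have hv' : multiplicity v.asIdeal I.1 = multiplicity v.asIdeal I'.1 :=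
            congrFun h ⟨v, hv⟩
          rw [hv']
        rw [← Finset.sum_image (f := fun e : T → ℕ => ∏ v : T, nrm s v.1 ^ e v) (g := g) hg]
        refine Finset.sum_le_sum_of_subset_of_nonneg ?_ ?_
        · intro e he
          obtain ⟨I, hIJ, rfl⟩ := Finset.mem_image.mp he
          rw [Fintype.mem_piFinset]
          intro v
          rw [Finset.mem_range]
          exact Nat.lt_succ_of_le (hE I hIJ v.1 v.2)
        · intro e _ _
          exact Finset.prod_nonneg fun v _ => pow_nonneg (nrm_pos s v.1).le _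
    _ = ∏ v : T, ∑ k ∈ Finset.range (E + 1), nrm s v.1 ^ k := by
        rw [Finset.prod_univ_sum]
    _ ≤ ∏ v : T, (1 - nrm s v.1)⁻¹ := by
        refine Finset.prod_le_prod (fun v _ => ?_) (fun v _ => ?_)
        · exact Finset.sum_nonneg fun k _ => pow_nonneg (nrm_pos s v.1).le _
        · have h1 := nrm_le_half hs.le v.1
          have h0 := nrm_pos s v.1
          rw [← tsum_geometric_of_lt_one h0.le (by linarith)]
          exact (summable_geometric_of_lt_one h0.le (by linarith)).sum_le_tsum _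
            (fun k _ => pow_nonneg h0.le _)
    _ = ∏ v ∈ T, (1 - nrm s v)⁻¹ := Finset.prod_coe_sort T (fun v => (1 - nrm s v)⁻¹)

/-- The sum over all primes. -/
noncomputable def primeSum (K : Type*) [Field K] [NumberField K] (s : ℝ) : ℝ :=
  ∑' v : HeightOneSpectrum (𝓞 K), nrm s v

lemma log_one_add_ge {x : ℝ} (hx : 0 < x) : x - x ^ 2 ≤ Real.log (1 + x) := by
  have h := Real.one_sub_inv_le_log_of_pos (show 0 < 1 + x by linarith)
  refine le_trans ?_ h
  rw [show 1 - (1 + x)⁻¹ = x / (1 + x) by field_simp; ring, le_div_iff₀ (by linarith)]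
  nlinarith [mul_pos hx hx, mul_pos (mul_pos hx hx) hx]

lemma log_inv_one_sub_le {x : ℝ} (hx : 0 < x) (hx2 : x ≤ 1 / 2) :
    Real.log ((1 - x)⁻¹) ≤ x + 2 * x ^ 2 := by
  have h := Real.log_le_sub_one_of_pos (show 0 < (1 - x)⁻¹ by
    rw [inv_pos]; linarith)
  refine h.trans ?_
  have h1 : (1 - x)⁻¹ ≤ 1 + x + 2 * x ^ 2 := by
    rw [inv_le_iff_one_le_mul₀ (by linarith)]
    nlinarith [mul_pos hx hx, mul_pos (mul_pos hx hx) hx]
  linarith

lemma idealSum_pos {s : ℝ} (hs : 1 < s) : 0 < idealSum K s := by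
  have := prod_one_add_le (K := K) hs ∅
  simp at this
  linarith

lemma log_idealSum_ge {s : ℝ} (hs : 1 < s) :
    primeSum K s - primeSum K 2 ≤ Real.log (idealSum K s) := by
  have h1 : primeSum K s - primeSum K 2 = ∑' v : HeightOneSpectrum (𝓞 K), (nrm s v - nrm 2 v) := by
    rw [primeSum, primeSum, (summable_nrm hs).tsum_sub (summable_nrm (by norm_num))]
  rw [h1]
  refine ((summable_nrm hs).sub (summable_nrm (by norm_num))).tsum_le_of_sum_le fun T => ?_
  have h2 := Real.log_le_log (Finset.prod_pos fun v _ => by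
    have := nrm_pos s v; positivity) (prod_one_add_le hs T)
  refine le_trans ?_ h2
  rw [Real.log_prod (fun v _ => by have := nrm_pos s v; positivity)]
  refine Finset.sum_le_sum fun v _ => ?_
  refine le_trans ?_ (log_one_add_ge (nrm_pos s v))
  rw [nrm_sq]
  linarith [nrm_anti (show (2 : ℝ) ≤ 2 * s by linarith) v]

lemma log_idealSum_le {s : ℝ} (hs : 1 < s) :
    Real.log (idealSum K s) ≤ primeSum K s + 2 * primeSum K 2 := by
  have key : idealSum K s ≤ Real.exp (primeSum K s + 2 * primeSum K 2) := by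
    refine (summable_ideal K hs).tsum_le_of_sum_le fun J => ?_
    obtain ⟨T, hT⟩ := sum_le_prod_geom hs J
    refine hT.trans ?_
    have hpos : ∀ v ∈ T, 0 < (1 - nrm s v)⁻¹ := fun v _ => by
      have := nrm_le_half hs.le v
      rw [inv_pos]; linarith
    rw [← Real.log_le_iff_le_exp (Finset.prod_pos hpos),
      Real.log_prod (fun v hv => (hpos v hv).ne')]
    have h3 : primeSum K s + 2 * primeSum K 2 =
        ∑' v : HeightOneSpectrum (𝓞 K), (nrm s v + 2 * nrm 2 v) := by
      rw [primeSum, primeSum, ← tsum_mul_left, (summable_nrm hs).tsum_add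
        ((summable_nrm (by norm_num)).mul_left 2)]
    rw [h3]
    refine le_trans (Finset.sum_le_sum fun v _ => ?_)
      (((summable_nrm hs).add ((summable_nrm (by norm_num)).mul_left 2)).sum_le_tsum T
        (fun v _ => by have := nrm_pos s v; have := nrm_pos 2 v; positivity))
    refine (log_inv_one_sub_le (nrm_pos s v) (nrm_le_half hs.le v)).trans ?_
    rw [nrm_sq]
    linarith [nrm_anti (show (2 : ℝ) ≤ 2 * s by linarith) v]
  exact (Real.log_le_iff_le_exp (idealSum_pos hs)).mpr key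

lemma tendsto_log_atTop : Tendsto (fun s : ℝ => Real.log (1 / (s - 1))) (𝓝[>] 1) atTop := by
  refine Real.tendsto_log_atTop.comp ?_
  have : Tendsto (fun s : ℝ => s - 1) (𝓝[>] 1) (𝓝[>] 0) := by
    refine tendsto_nhdsWithin_iff.mpr ⟨?_, ?_⟩
    · have : Tendsto (fun s : ℝ => s - 1) (𝓝 1) (𝓝 (1 - 1)) := (continuous_sub_right 1).tendsto 1
      rw [sub_self] at this
      exact this.mono_left nhdsWithin_le_nhds
    · filter_upwards [self_mem_nhdsWithin] with s hs
      simpa using hs
  refine this.inv_tendsto_nhdsGT_zero.congr fun s => ?_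
  simp [one_div]

/-- The sum over the primes is asymptotic to `log (1 / (s - 1))`. -/
theorem tendsto_primeSum_div_log :
    Tendsto (fun s : ℝ => primeSum K s / Real.log (1 / (s - 1))) (𝓝[>] 1) (𝓝 1) := by
  have hlog := tendsto_log_atTop
  have h1 : Tendsto (fun s : ℝ => Real.log ((s - 1) * idealSum K s) / Real.log (1 / (s - 1)))
      (𝓝[>] 1) (𝓝 0) := by
    have := (tendsto_sub_one_mul_idealSum K).log (dedekindZeta_residue_ne_zero K)
    exact this.div_atTop hlog
  have h2 : Tendsto (fun s : ℝ => Real.log (idealSum K s) / Real.log (1 / (s - 1)))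
      (𝓝[>] 1) (𝓝 1) := by
    have h3 : Tendsto (fun s : ℝ => Real.log ((s - 1) * idealSum K s) / Real.log (1 / (s - 1)) + 1)
      (𝓝[>] 1) (𝓝 (0 + 1)) := h1.add_const 1
    rw [zero_add] at h3
    refine h3.congr' ?_
    filter_upwards [self_mem_nhdsWithin, hlog.eventually_gt_atTop 0] with s hs hl
    have hs' : (0 : ℝ) < s - 1 := by simpa using hs
    have hs1 : (1 : ℝ) < s := hs
    rw [div_add_one hl.ne', Real.log_mul hs'.ne' (idealSum_pos hs1).ne']
    congr 1
    rw [one_div, Real.log_inv]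
    ring
  have h4 : Tendsto (fun s : ℝ => (primeSum K s - Real.log (idealSum K s)) / Real.log (1 / (s - 1)))
      (𝓝[>] 1) (𝓝 0) := by
    have hC : ∀ C : ℝ, Tendsto (fun s : ℝ => C / Real.log (1 / (s - 1))) (𝓝[>] 1) (𝓝 0) :=
      fun C => tendsto_const_nhds.div_atTop hlog
    refine tendsto_of_tendsto_of_tendsto_of_le_of_le' (hC (-(2 * primeSum K 2)))
      (hC (primeSum K 2)) ?_ ?_
    · filter_upwards [self_mem_nhdsWithin, hlog.eventually_gt_atTop 0] with s hs hl
      have := log_idealSum_le (K := K) hs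
      gcongr
      linarith
    · filter_upwards [self_mem_nhdsWithin, hlog.eventually_gt_atTop 0] with s hs hl
      have := log_idealSum_ge (K := K) hs
      gcongr
      linarith
  have h5 := h4.add h2
  rw [zero_add] at h5
  refine h5.congr fun s => ?_
  rw [← add_div]
  congr 1
  ring


end Zeta

end Pool.Agent.Lib.MP_666dc0_nt
end

section

open Topology

namespace Pool.Agent.Lib.MP_666dc0_nt.IG

/-- Like `exists_of_closure` (J3a.lean), with spaces `K z` depending on `z`. -/
theorem exists_of_closure_dep {X T Z : Type*} {K : Z → Type*} [TopologicalSpace X]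
    [TopologicalSpace T] [CompactSpace T] [∀ z, TopologicalSpace (K z)] [∀ z, T2Space (K z)]
    (h : ∀ z, X → K z) (hh : ∀ z, Continuous (h z))
    (e : ∀ z, T → K z) (he : ∀ z, Continuous (e z)) (D : Set X)
    (hD : ∀ a ∈ D, ∃ t, ∀ z, e z t = h z a) {a : X} (ha : a ∈ closure D) :
    ∃ t, ∀ z, e z t = h z a := by
  have hE : IsClosed {p : X × T | ∀ z, e z p.2 = h z p.1} := by
    rw [Set.ofPred_forall]
    exact isClosed_iInter fun z => isClosed_eq ((he z).comp continuous_snd) ((hh z).comp continuous_fst)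
  have hI : IsClosed (Prod.fst '' {p : X × T | ∀ z, e z p.2 = h z p.1}) :=
    isClosedMap_fst_of_compactSpace _ hE
  have hsub : D ⊆ Prod.fst '' {p : X × T | ∀ z, e z p.2 = h z p.1} := by
    intro a ha
    obtain ⟨t, ht⟩ := hD a ha
    exact ⟨(a, t), ht, rfl⟩
  obtain ⟨⟨b, t⟩, hp, rfl⟩ := closure_minimal hsub hI ha
  exact ⟨t, hp⟩

/-- Like `continuousOn_of_unique` (J3b.lean), with spaces `K z` depending on `z`. -/
theorem continuousOn_of_unique_dep {X T Z : Type*} {K : Z → Type*} [TopologicalSpace X]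
    [TopologicalSpace T] [CompactSpace T] [∀ z, TopologicalSpace (K z)] [∀ z, T2Space (K z)]
    (h : ∀ z, X → K z) (hh : ∀ z, Continuous (h z))
    (e : ∀ z, T → K z) (he : ∀ z, Continuous (e z)) (hinj : ∀ t t', (∀ z, e z t = e z t') → t = t')
    (C : Set X) (θ : X → T) (hθ : ∀ a ∈ C, ∀ z, e z (θ a) = h z a) : ContinuousOn θ C := by
  have hc : Continuous (fun t : T => fun z : Z => e z t) := continuous_pi he
  have hi : Function.Injective (fun t : T => fun z : Z => e z t) :=
    fun t t' htt => hinj t t' fun z => congrFun htt z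
  have hcl := hc.isClosedEmbedding hi
  rw [hcl.isInducing.continuousOn_iff]
  have h1 : ContinuousOn (fun a : X => fun z : Z => h z a) C := (continuous_pi hh).continuousOn
  refine h1.congr fun a ha => ?_
  funext z
  exact hθ a ha z

end Pool.Agent.Lib.MP_666dc0_nt.IG
end

section

namespace Pool.Agent.Lib.MP_666dc0_nt.IG

/-- General form of `exists_BV` (J5.lean): `B = {g : E | ∃ N ≠ 0, ∃ t : T, N * g = ε t}`, `yB g = y t / N`. Well
defined: `N g = ε t`, `N' g = ε t'` imply `ε (N' t - N t') = 0`, so `y (N' t - N t') = 0`. -/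
theorem exists_BV_gen {T : Type} [CommRing T] {K : Type} [Field K] [CharZero K] [Algebra ℚ K]
    {E : Type} [CommRing E] [Algebra ℚ E] (ε : T →+* E) (y : T →+* K)
    (hker : ∀ t, ε t = 0 → y t = 0) :
    ∃ (B : Subalgebra ℚ E) (yB : B →+* K), ∀ (N : ℕ), N ≠ 0 → ∀ (g : E) (t : T),
      (N : E) * g = ε t → ∃ h : g ∈ B, (N : K) * yB ⟨g, h⟩ = y t := by
  classical
  let P : E → ℕ → T → Prop := fun g N t => N ≠ 0 ∧ (N : E) * g = ε t
  have hwd : ∀ g N t N' t', P g N t → P g N' t' → y t / (N : K) = y t' / (N' : K) := by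
    rintro g N t N' t' ⟨hN, h1⟩ ⟨hN', h2⟩
    have h4 : y ((N' : T) * t - N * t') = 0 := by
      refine hker _ ?_
      rw [map_sub, map_mul, map_mul, map_natCast, map_natCast, ← h1, ← h2]
      ring
    rw [map_sub, map_mul, map_mul, map_natCast, map_natCast] at h4
    have hN0 : (N : K) ≠ 0 := Nat.cast_ne_zero.mpr hN
    have hN'0 : (N' : K) ≠ 0 := Nat.cast_ne_zero.mpr hN'
    rw [div_eq_div_iff hN0 hN'0]
    linear_combination h4
  have hadd : ∀ g g' N N' t t', P g N t → P g' N' t' → P (g + g') (N * N') (N' * t + N * t') := by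
    rintro g g' N N' t t' ⟨hN, h1⟩ ⟨hN', h2⟩
    refine ⟨mul_ne_zero hN hN', ?_⟩
    rw [map_add, map_mul, map_mul, map_natCast, map_natCast, ← h1, ← h2]
    push_cast
    ring
  have hmul : ∀ g g' N N' t t', P g N t → P g' N' t' → P (g * g') (N * N') (t * t') := by
    rintro g g' N N' t t' ⟨hN, h1⟩ ⟨hN', h2⟩
    refine ⟨mul_ne_zero hN hN', ?_⟩
    rw [map_mul, ← h1, ← h2]
    push_cast
    ring
  have halg : ∀ q : ℚ, P (algebraMap ℚ E q) q.den (q.num : T) := by
    intro q
    refine ⟨q.den_ne_zero, ?_⟩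
    rw [map_intCast, mul_comm, ← map_natCast (algebraMap ℚ E), ← map_mul, Rat.mul_den_eq_num,
      map_intCast]
  let B : Subalgebra ℚ E :=
    { carrier := {g | ∃ N t, P g N t}
      mul_mem' := by
        rintro g g' ⟨N, t, h⟩ ⟨N', t', h'⟩
        exact ⟨_, _, hmul g g' N N' t t' h h'⟩
      add_mem' := by
        rintro g g' ⟨N, t, h⟩ ⟨N', t', h'⟩
        exact ⟨_, _, hadd g g' N N' t t' h h'⟩
      algebraMap_mem' := fun q => ⟨_, _, halg q⟩ }
  have hB : ∀ g : B, ∃ N t, P g N t := fun g => g.2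
  choose N t hNt using hB
  have hval : ∀ (g : B) (N' : ℕ) (t' : T), P g N' t' → y (t g) / (N g : K) = y t' / (N' : K) :=
    fun g N' t' h => hwd g _ _ _ _ (hNt g) h
  let yB : B →+* K :=
    { toFun := fun g => y (t g) / (N g : K)
      map_one' := by
        have h2 : P ((1 : B) : E) 1 1 := by
          refine ⟨one_ne_zero, ?_⟩
          rw [map_one, Nat.cast_one, one_mul]
          rfl
        rw [hval 1 1 1 h2, map_one, Nat.cast_one, div_one]
      map_mul' := by
        intro g g'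
        rw [hval (g * g') _ _ (hmul g g' _ _ _ _ (hNt g) (hNt g')), map_mul]
        push_cast
        rw [div_mul_div_comm]
      map_zero' := by
        have h2 : P ((0 : B) : E) 1 0 := by
          refine ⟨one_ne_zero, ?_⟩
          rw [map_zero, Nat.cast_one, one_mul]
          rfl
        rw [hval 0 1 0 h2, map_zero, zero_div]
      map_add' := by
        intro g g'
        have hN0 : (N g : K) ≠ 0 := Nat.cast_ne_zero.mpr (hNt g).1
        have hN'0 : (N g' : K) ≠ 0 := Nat.cast_ne_zero.mpr (hNt g').1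
        rw [hval (g + g') _ _ (hadd g g' _ _ _ _ (hNt g) (hNt g')), map_add, map_mul, map_mul,
          map_natCast, map_natCast]
        push_cast
        field_simp }
  refine ⟨B, yB, fun N' hN' g t' h => ⟨⟨N', t', hN', h⟩, ?_⟩⟩
  have h1 := hval ⟨g, ⟨N', t', hN', h⟩⟩ N' t' ⟨hN', h⟩
  have hN0 : (N' : K) ≠ 0 := Nat.cast_ne_zero.mpr hN'
  change (N' : K) * (y (t _) / (N _ : K)) = y t'
  rw [h1, mul_div_cancel₀ _ hN0]

end Pool.Agent.Lib.MP_666dc0_nt.IG
end
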