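import Mathlib

section

open Topology
open scoped Pointwise

namespace Pool.Agent.Lib.MP_666dc0_nt
section Lattice

variable {ℓ : ℕ} [Fact ℓ.Prime] {W : Type*} [Ring W] [Algebra ℚ_[ℓ] W]
  [Module ℤ_[ℓ] W] [IsScalarTower ℤ_[ℓ] ℚ_[ℓ] W]
  [TopologicalSpace W] [IsTopologicalRing W] [ContinuousSMul ℚ_[ℓ] W] [T2Space W]
  [FiniteDimensional ℚ_[ℓ] W]
  {Γ : Type*} [Group Γ] [TopologicalSpace Γ] [IsTopologicalGroup Γ] [CompactSpace Γ]

omit [IsTopologicalGroup Γ] in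
lemma fg_span_image (D : Γ →* W) (hD : Continuous D) (s : Set Γ) :
    (Submodule.span ℤ_[ℓ] (D '' s)).FG := by
  classical
  let b := Module.finBasis ℚ_[ℓ] W
  have hℓ : (0 : ℝ) < ℓ := by exact_mod_cast (Fact.out : ℓ.Prime).pos
  have hℓ1 : (1 : ℝ) < ℓ := by exact_mod_cast (Fact.out : ℓ.Prime).one_lt
  have hcont : ∀ i, Continuous fun γ => b.repr (D γ) i := fun i => by
    have h1 : Continuous (b.coord i) := LinearMap.continuous_of_finiteDimensional _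
    exact h1.comp hD
  have hC : ∃ C : ℝ, ∀ γ i, ‖b.repr (D γ) i‖ ≤ C := by
    have h1 : ∀ i, ∃ C : ℝ, ∀ γ, ‖b.repr (D γ) i‖ ≤ C := by
      intro i
      obtain ⟨C, hC⟩ := (isCompact_range (hcont i).norm).bddAbove
      exact ⟨C, fun γ => hC ⟨γ, rfl⟩⟩
    choose C hC using h1
    refine ⟨∑ i, |C i|, fun γ i => ?_⟩
    refine (hC i γ).trans ((le_abs_self _).trans ?_)
    exact Finset.single_le_sum (f := fun i => |C i|) (fun i _ => abs_nonneg _) (Finset.mem_univ i)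
  obtain ⟨C, hC⟩ := hC
  obtain ⟨N, hN⟩ := pow_unbounded_of_one_lt C hℓ1
  have hfg : (Submodule.span ℤ_[ℓ] (Set.range fun i => ((ℓ : ℚ_[ℓ]) ^ N)⁻¹ • b i)).FG :=
    Submodule.fg_span (Set.finite_range _)
  refine hfg.of_le (Submodule.span_le.mpr ?_)
  rintro _ ⟨γ, _, rfl⟩
  have hne : ((ℓ : ℚ_[ℓ]) ^ N) ≠ 0 := pow_ne_zero _ (by exact_mod_cast (Fact.out : ℓ.Prime).ne_zero)
  have h2 : ∀ i, ‖b.repr (D γ) i * (ℓ : ℚ_[ℓ]) ^ N‖ ≤ 1 := by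
    intro i
    rw [norm_mul, norm_pow, Padic.norm_p, inv_pow]
    rw [← div_eq_mul_inv, div_le_one (pow_pos hℓ _)]
    exact (hC γ i).trans hN.le
  let z : Fin (Module.finrank ℚ_[ℓ] W) → ℤ_[ℓ] := fun i => ⟨b.repr (D γ) i * (ℓ : ℚ_[ℓ]) ^ N, h2 i⟩
  have h3 : D γ = ∑ i, z i • (((ℓ : ℚ_[ℓ]) ^ N)⁻¹ • b i) := by
    conv_lhs => rw [← b.sum_repr (D γ)]
    refine Finset.sum_congr rfl fun i _ => ?_
    rw [← algebraMap_smul ℚ_[ℓ] (z i) (((ℓ : ℚ_[ℓ]) ^ N)⁻¹ • b i), smul_smul]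
    congr 1
    change _ = (b.repr (D γ) i * (ℓ : ℚ_[ℓ]) ^ N) * ((ℓ : ℚ_[ℓ]) ^ N)⁻¹
    rw [mul_assoc, mul_inv_cancel₀ hne, mul_one]
  rw [SetLike.mem_coe, h3]
  exact Submodule.sum_mem _ fun i _ => Submodule.smul_mem _ _ (Submodule.subset_span ⟨i, rfl⟩)

omit [TopologicalSpace W] [IsTopologicalRing W] [ContinuousSMul ℚ_[ℓ] W] [T2Space W] in
lemma exists_coord (A : Submodule ℤ_[ℓ] W) (hA : A.FG) :
    ∃ (r : ℕ) (q : A →+ (Fin r → ZMod ℓ)) (e : Fin r → W), r ≤ Module.finrank ℚ_[ℓ] W ∧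
      (∀ x : A, q x = 0 ↔ (x : W) ∈ (ℓ : ℤ_[ℓ]) • A) ∧
      (((ℓ : ℤ_[ℓ]) • A : Submodule ℤ_[ℓ] W) : Set W) =
        Set.range fun z : Fin r → ℤ_[ℓ] => ∑ i, (ℓ * z i : ℤ_[ℓ]) • e i := by
  classical
  have htf : Module.IsTorsionFree ℤ_[ℓ] W := Module.IsTorsionFree.trans_faithfulSMul ℤ_[ℓ] ℚ_[ℓ] W
  have hfin : Module.Finite ℤ_[ℓ] A := Module.Finite.iff_fg.mpr hA
  have hfree : Module.Free ℤ_[ℓ] A := Module.free_of_finite_type_torsion_free'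
  let B := Module.finBasis ℤ_[ℓ] A
  have hli : LinearIndependent ℚ_[ℓ] (fun i => (B i : W)) := by
    rw [← LinearIndependent.iff_fractionRing (R := ℤ_[ℓ])]
    exact B.linearIndependent.map' A.subtype (Submodule.ker_subtype A)
  have hr : Module.finrank ℤ_[ℓ] A ≤ Module.finrank ℚ_[ℓ] W := by
    have := hli.fintype_card_le_finrank
    simpa using this
  have hmem : ∀ x : A, (∀ i, PadicInt.toZMod (B.repr x i) = 0) ↔ (x : W) ∈ (ℓ : ℤ_[ℓ]) • A := by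
    intro x
    constructor
    · intro h
      have h1 : ∀ i, ∃ z : ℤ_[ℓ], B.repr x i = ℓ * z := fun i => by
        have h2 : B.repr x i ∈ RingHom.ker (PadicInt.toZMod : ℤ_[ℓ] →+* ZMod ℓ) := h i
        rw [PadicInt.ker_toZMod, PadicInt.maximalIdeal_eq_span_p, Ideal.mem_span_singleton] at h2
        exact h2
      choose z hz using h1
      rw [Submodule.mem_smul_pointwise_iff_exists]
      refine ⟨((∑ i, z i • B i : A) : W), Submodule.coe_mem _, ?_⟩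
      have h3 : x = (ℓ : ℤ_[ℓ]) • (∑ i, z i • B i) := by
        conv_lhs => rw [← B.sum_repr x]
        rw [Finset.smul_sum]
        refine Finset.sum_congr rfl fun i _ => ?_
        rw [smul_smul, ← hz]
      conv_rhs => rw [h3]
      rfl
    · intro h i
      rw [Submodule.mem_smul_pointwise_iff_exists] at h
      obtain ⟨y, hy, hxy⟩ := h
      have h3 : x = (ℓ : ℤ_[ℓ]) • (⟨y, hy⟩ : A) := Subtype.ext hxy.symm
      rw [h3, map_smul, Finsupp.smul_apply, smul_eq_mul, map_mul, map_natCast]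
      simp
  refine ⟨Module.finrank ℤ_[ℓ] A,
    { toFun := fun x i => PadicInt.toZMod (B.repr x i)
      map_zero' := by ext i; simp
      map_add' := fun x y => by ext i; simp }, fun i => (B i : W), hr, ?_, ?_⟩
  · intro x
    rw [← hmem]
    exact funext_iff
  · ext x
    rw [SetLike.mem_coe, Submodule.mem_smul_pointwise_iff_exists]
    constructor
    · rintro ⟨y, hy, rfl⟩
      refine ⟨fun i => B.repr ⟨y, hy⟩ i, ?_⟩
      have h4 : y = ((∑ i, B.repr ⟨y, hy⟩ i • B i : A) : W) := by rw [B.sum_repr]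
      conv_rhs => rw [h4]
      simp only [mul_smul, ← Finset.smul_sum, Submodule.coe_sum, Submodule.coe_smul]
    · rintro ⟨z, rfl⟩
      refine ⟨((∑ i, z i • B i : A) : W), Submodule.coe_mem _, ?_⟩
      simp only [mul_smul, ← Finset.smul_sum, Submodule.coe_sum, Submodule.coe_smul]

omit [FiniteDimensional ℚ_[ℓ] W] in
lemma isClosed_range_lattice (r : ℕ) (e : Fin r → W) :
    IsClosed (Set.range fun z : Fin r → ℤ_[ℓ] => ∑ i, (ℓ * z i : ℤ_[ℓ]) • e i) := by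
  apply IsCompact.isClosed
  apply isCompact_range
  refine continuous_finsetSum _ fun i _ => ?_
  have h1 : (fun z : Fin r → ℤ_[ℓ] => (ℓ * z i : ℤ_[ℓ]) • e i) =
      fun z : Fin r → ℤ_[ℓ] => ((ℓ * z i : ℤ_[ℓ]) : ℚ_[ℓ]) • e i := by
    ext z
    rw [← algebraMap_smul ℚ_[ℓ] (ℓ * z i : ℤ_[ℓ]) (e i)]
    rfl
  rw [h1]
  refine Continuous.smul ?_ continuous_const
  refine continuous_subtype_val.comp ?_
  exact continuous_const.mul (continuous_apply i)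

end Lattice

section Main

variable {ℓ : ℕ} [Fact ℓ.Prime] {W : Type*} [Ring W] [Algebra ℚ_[ℓ] W]
  [TopologicalSpace W] [IsTopologicalRing W] [ContinuousSMul ℚ_[ℓ] W] [T2Space W]
  [FiniteDimensional ℚ_[ℓ] W]
  {Γ : Type*} [Group Γ] [TopologicalSpace Γ] [IsTopologicalGroup Γ] [CompactSpace Γ]

set_option linter.unusedSectionVars false in
lemma map_mem_smul_lattice [Algebra ℤ_[ℓ] W] {A A' : Submodule ℤ_[ℓ] W} (f : W →ₗ[ℤ_[ℓ]] W)
    (h : ∀ x ∈ A, f x ∈ A') {x : W} (hx : x ∈ (ℓ : ℤ_[ℓ]) • A) : f x ∈ (ℓ : ℤ_[ℓ]) • A' := by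
  rw [Submodule.mem_smul_pointwise_iff_exists] at hx ⊢
  obtain ⟨y, hy, rfl⟩ := hx
  exact ⟨f y, h y hy, (map_smul f _ _).symm⟩

theorem exists_open_normal_aux [Algebra ℤ_[ℓ] W] [IsScalarTower ℤ_[ℓ] ℚ_[ℓ] W]
    (D : Γ →* W) (hD : Continuous D) (K : Subgroup Γ) (hKn : K.Normal)
    (hK : IsOpen (K : Set Γ)) :
    ∃ U : Subgroup Γ, U.Normal ∧ IsOpen (U : Set Γ) ∧ U ≤ K ∧
      U.index ≤ K.index * ℓ ^ Module.finrank ℚ_[ℓ] W ∧ (∀ u ∈ K, D u = 1 → u ∈ U) ∧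
      ∀ Δ : Set Γ, (∀ γ, ∃ δ ∈ Δ, γ⁻¹ * δ ∈ U) →
        ∀ γ₀, D γ₀ ∈ Submodule.span ℚ_[ℓ] (D '' {δ | δ ∈ Δ ∧ γ₀⁻¹ * δ ∈ K}) := by
  classical
  set A : Submodule ℤ_[ℓ] W := Submodule.span ℤ_[ℓ] (D '' K) with hAdef
  have hAfg : A.FG := fg_span_image D hD K
  obtain ⟨r, q, e, hr, hq, he⟩ := exists_coord A hAfg
  have hinv : ∀ γ, D γ * D γ⁻¹ = 1 := fun γ => by rw [← map_mul, mul_inv_cancel, map_one]
  have hinv' : ∀ γ, D γ⁻¹ * D γ = 1 := fun γ => by rw [← map_mul, inv_mul_cancel, map_one]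
  have hL : ∀ γ ∈ K, ∀ x ∈ A, LinearMap.mulLeft ℤ_[ℓ] (D γ) x ∈ A := by
    intro γ hγ x hx
    have h1 : A ≤ A.comap (LinearMap.mulLeft ℤ_[ℓ] (D γ)) := by
      rw [hAdef, Submodule.span_le]
      rintro _ ⟨k, hk, rfl⟩
      refine Submodule.subset_span ⟨γ * k, K.mul_mem hγ hk, ?_⟩
      rw [map_mul]; rfl
    exact h1 hx
  have hC : ∀ γ, ∀ x ∈ A, (LinearMap.mulLeft ℤ_[ℓ] (D γ) ∘ₗ LinearMap.mulRight ℤ_[ℓ] (D γ⁻¹)) x
      ∈ A := by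
    intro γ x hx
    have h1 : A ≤ A.comap
        (LinearMap.mulLeft ℤ_[ℓ] (D γ) ∘ₗ LinearMap.mulRight ℤ_[ℓ] (D γ⁻¹)) := by
      rw [hAdef, Submodule.span_le]
      rintro _ ⟨k, hk, rfl⟩
      refine Submodule.subset_span ⟨γ * k * γ⁻¹, hKn.conj_mem k hk γ, ?_⟩
      rw [map_mul, map_mul, mul_assoc]; rfl
    exact h1 hx
  let U : Subgroup Γ :=
    { carrier := {u | u ∈ K ∧ D u - 1 ∈ (ℓ : ℤ_[ℓ]) • A}
      mul_mem' := by
        rintro a b ⟨ha, ha'⟩ ⟨hb, hb'⟩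
        refine ⟨K.mul_mem ha hb, ?_⟩
        have h1 := map_mem_smul_lattice _ (hL a ha) hb'
        have h2 := add_mem h1 ha'
        convert h2 using 1
        rw [map_mul, LinearMap.mulLeft_apply, mul_sub, mul_one]
        abel
      one_mem' := ⟨K.one_mem, by rw [map_one, sub_self]; exact zero_mem _⟩
      inv_mem' := by
        rintro a ⟨ha, ha'⟩
        refine ⟨K.inv_mem ha, ?_⟩
        have h1 := neg_mem (map_mem_smul_lattice _ (hL _ (K.inv_mem ha)) ha')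
        convert h1 using 1
        rw [LinearMap.mulLeft_apply, mul_sub, mul_one, hinv']
        abel }
  have hUmem : ∀ u, u ∈ U ↔ u ∈ K ∧ D u - 1 ∈ (ℓ : ℤ_[ℓ]) • A := fun u => Iff.rfl
  have hUK : U ≤ K := fun u hu => hu.1
  have hUn : U.Normal := by
    refine ⟨fun u hu γ => ⟨hKn.conj_mem u hu.1 γ, ?_⟩⟩
    have h1 := map_mem_smul_lattice _ (hC γ) hu.2
    convert h1 using 1
    rw [LinearMap.comp_apply, LinearMap.mulLeft_apply, LinearMap.mulRight_apply, map_mul, map_mul,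
      sub_mul, mul_sub, one_mul, hinv, mul_assoc]
  have hKfin : K.FiniteIndex := by
    have := Subgroup.quotient_finite_of_isOpen K hK
    exact Subgroup.finiteIndex_of_finite_quotient
  have hDA : ∀ k ∈ K, D k ∈ A := fun k hk => Submodule.subset_span ⟨k, hk, rfl⟩
  -- the injection
  let θ : K ⧸ (U.subgroupOf K) → (Fin r → ZMod ℓ) :=
    Quotient.lift (fun k : K => q ⟨D k, hDA k k.2⟩) (by
      intro a b hab
      have hab' : a⁻¹ * b ∈ U.subgroupOf K := QuotientGroup.leftRel_apply.mp hab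
      have h1 : ((a : Γ)⁻¹ * b) ∈ U := hab'
      have h2 : D b - D a ∈ (ℓ : ℤ_[ℓ]) • A := by
        have h3 := map_mem_smul_lattice _ (hL a a.2) h1.2
        convert h3 using 1
        rw [LinearMap.mulLeft_apply, mul_sub, mul_one, ← map_mul, mul_inv_cancel_left]
      have h4 := (hq (⟨D b, hDA b b.2⟩ - ⟨D a, hDA a a.2⟩)).mpr h2
      rw [map_sub, sub_eq_zero] at h4
      exact h4.symm)
  have hθ : Function.Injective θ := by
    rintro ⟨a⟩ ⟨b⟩ hab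
    change q ⟨D a, hDA a a.2⟩ = q ⟨D b, hDA b b.2⟩ at hab
    apply Quotient.sound
    change QuotientGroup.leftRel _ a b
    rw [QuotientGroup.leftRel_apply]
    change (a : Γ)⁻¹ * b ∈ U
    refine ⟨K.mul_mem (K.inv_mem a.2) b.2, ?_⟩
    have h4 := (hq (⟨D b, hDA b b.2⟩ - ⟨D a, hDA a a.2⟩)).mp (by rw [map_sub, hab, sub_self])
    have h3 := map_mem_smul_lattice _ (hL _ (K.inv_mem a.2)) h4
    convert h3 using 1
    change _ = D (a : Γ)⁻¹ * (D b - D a)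
    rw [mul_sub, hinv', map_mul]
  have hcard : Nat.card (K ⧸ (U.subgroupOf K)) ≤ ℓ ^ Module.finrank ℚ_[ℓ] W := by
    refine (Nat.card_le_card_of_injective θ hθ).trans ?_
    rw [Nat.card_fun, Nat.card_zmod, Nat.card_fin]
    exact Nat.pow_le_pow_right (Fact.out : ℓ.Prime).pos hr
  have hfinq : Finite (K ⧸ (U.subgroupOf K)) := Finite.of_injective θ hθ
  have hidx : U.index ≤ K.index * ℓ ^ Module.finrank ℚ_[ℓ] W := by
    rw [← Subgroup.relIndex_mul_index hUK, mul_comm]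
    exact Nat.mul_le_mul_left _ hcard
  have hUfin : U.FiniteIndex := by
    refine ⟨?_⟩
    rw [← Subgroup.relIndex_mul_index hUK]
    refine mul_ne_zero ?_ hKfin.index_ne_zero
    change Nat.card (K ⧸ (U.subgroupOf K)) ≠ 0
    exact Nat.card_pos.ne'
  have hUclosed : IsClosed (U : Set Γ) := by
    have h1 : (U : Set Γ) = (K : Set Γ) ∩ (fun u => D u - 1) ⁻¹'
        (((ℓ : ℤ_[ℓ]) • A : Submodule ℤ_[ℓ] W) : Set W) := rfl
    rw [h1, he]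
    refine (Subgroup.isClosed_of_isOpen K hK).inter ?_
    exact (isClosed_range_lattice r e).preimage (hD.sub continuous_const)
  have hUopen : IsOpen (U : Set Γ) := Subgroup.isOpen_of_isClosed_of_finiteIndex U hUclosed
  refine ⟨U, hUn, hUopen, hUK, hidx, fun u hu h1 => ⟨hu, by rw [h1, sub_self]; exact zero_mem _⟩, ?_⟩
  intro Δ hΔ γ₀
  let N' : Submodule ℤ_[ℓ] W := Submodule.span ℤ_[ℓ] (D '' {γ | γ₀⁻¹ * γ ∈ K})
  let N : Submodule ℤ_[ℓ] W := Submodule.span ℤ_[ℓ] (D '' {δ | δ ∈ Δ ∧ γ₀⁻¹ * δ ∈ K})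
  have hN'fg : N'.FG := fg_span_image D hD _
  have hAN' : ∀ γ, γ₀⁻¹ * γ ∈ K → ∀ x ∈ A, LinearMap.mulLeft ℤ_[ℓ] (D γ) x ∈ N' := by
    intro γ hγ x hx
    have h1 : A ≤ N'.comap (LinearMap.mulLeft ℤ_[ℓ] (D γ)) := by
      rw [hAdef, Submodule.span_le]
      rintro _ ⟨k, hk, rfl⟩
      refine Submodule.subset_span ⟨γ * k, ?_, ?_⟩
      · change γ₀⁻¹ * (γ * k) ∈ K
        rw [← mul_assoc]
        exact K.mul_mem hγ hk
      · rw [map_mul]; rfl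
    exact h1 hx
  have hle : N' ≤ N ⊔ (Ideal.span {(ℓ : ℤ_[ℓ])}) • N' := by
    rw [Submodule.ideal_span_singleton_smul]
    refine Submodule.span_le.mpr ?_
    rintro _ ⟨γ, hγ, rfl⟩
    obtain ⟨δ, hδ, hu⟩ := hΔ γ
    have h1 : D γ = D δ - D γ * (D (γ⁻¹ * δ) - 1) := by
      rw [mul_sub, mul_one, ← map_mul, mul_inv_cancel_left]; abel
    rw [SetLike.mem_coe, h1, sub_eq_add_neg]
    refine Submodule.add_mem_sup (Submodule.subset_span ⟨δ, ⟨hδ, ?_⟩, rfl⟩) (neg_mem ?_)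
    · have h2 : γ₀⁻¹ * δ = (γ₀⁻¹ * γ) * (γ⁻¹ * δ) := by group
      rw [h2]
      exact K.mul_mem hγ hu.1
    · exact map_mem_smul_lattice _ (hAN' γ hγ) hu.2
  have hjac : Ideal.span {(ℓ : ℤ_[ℓ])} ≤ Ideal.jacobson ⊥ := by
    rw [← PadicInt.maximalIdeal_eq_span_p]
    exact IsLocalRing.maximalIdeal_le_jacobson _
  have hfinal : N' ≤ N := Submodule.le_of_le_smul_of_le_jacobson_bot hN'fg hjac hle
  have h5 : D γ₀ ∈ N := hfinal (Submodule.subset_span ⟨γ₀, by simp [K.one_mem], rfl⟩)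
  have h6 : N ≤ (Submodule.span ℚ_[ℓ] (D '' {δ | δ ∈ Δ ∧ γ₀⁻¹ * δ ∈ K})).restrictScalars ℤ_[ℓ] :=
    Submodule.span_le.mpr Submodule.subset_span
  exact h6 h5

/-- Compact subgroups of finite-dimensional algebras: an open normal subgroup of bounded index
such that representatives of its cosets span. -/
theorem exists_open_normal (D : Γ →* W) (hD : Continuous D) (K : Subgroup Γ) (hKn : K.Normal)
    (hK : IsOpen (K : Set Γ)) :
    ∃ U : Subgroup Γ, U.Normal ∧ IsOpen (U : Set Γ) ∧ U ≤ K ∧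
      U.index ≤ K.index * ℓ ^ Module.finrank ℚ_[ℓ] W ∧ (∀ u ∈ K, D u = 1 → u ∈ U) ∧
      ∀ Δ : Set Γ, (∀ γ, ∃ δ ∈ Δ, γ⁻¹ * δ ∈ U) →
        ∀ γ₀, D γ₀ ∈ Submodule.span ℚ_[ℓ] (D '' {δ | δ ∈ Δ ∧ γ₀⁻¹ * δ ∈ K}) := by
  let : Algebra ℤ_[ℓ] W := Algebra.compHom W (algebraMap ℤ_[ℓ] ℚ_[ℓ])
  have : IsScalarTower ℤ_[ℓ] ℚ_[ℓ] W := IsScalarTower.of_algebraMap_eq fun x => rfl
  exact exists_open_normal_aux D hD K hKn hK

end Main
end Pool.Agent.Lib.MP_666dc0_nt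
end

section

open Topology
open scoped Pointwise

namespace Pool.Agent.Lib.MP_666dc0_nt
section Coord

variable {ℓ : ℕ} [Fact ℓ.Prime] {W : Type*} [AddCommGroup W] [Module ℚ_[ℓ] W]
  [Module ℤ_[ℓ] W] [IsScalarTower ℤ_[ℓ] ℚ_[ℓ] W]

lemma padicInt_dvd_iff (x : ℤ_[ℓ]) (k : ℕ) :
    (∃ z : ℤ_[ℓ], x = (ℓ : ℤ_[ℓ]) ^ k * z) ↔ ‖(x : ℚ_[ℓ])‖ ≤ (ℓ : ℝ) ^ (-(k : ℤ)) := by
  have h1 := PadicInt.norm_le_pow_iff_mem_span_pow x k
  rw [Ideal.mem_span_singleton] at h1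
  rw [← PadicInt.norm_def, h1]
  rfl

lemma exists_coord2 (A : Submodule ℤ_[ℓ] W) (hA : A.FG) :
    ∃ (r : ℕ) (c : Fin r → (W →ₗ[ℚ_[ℓ]] ℚ_[ℓ])) (q : A →+ (Fin r → ZMod ℓ)),
      (∀ x ∈ A, ∀ k : ℕ, (∃ a ∈ A, x = (ℓ : ℤ_[ℓ]) ^ k • a) ↔
        ∀ i, ‖c i x‖ ≤ (ℓ : ℝ) ^ (-(k : ℤ))) ∧
      (∀ x ∈ A, (∀ i, c i x = 0) → x = 0) ∧
      (∀ x : A, q x = 0 ↔ ∃ a ∈ A, (x : W) = (ℓ : ℤ_[ℓ]) • a) := by
  classical
  have htf : Module.IsTorsionFree ℤ_[ℓ] W := Module.IsTorsionFree.trans_faithfulSMul ℤ_[ℓ] ℚ_[ℓ] W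
  have hfin : Module.Finite ℤ_[ℓ] A := Module.Finite.iff_fg.mpr hA
  have hfree : Module.Free ℤ_[ℓ] A := Module.free_of_finite_type_torsion_free'
  let B := Module.finBasis ℤ_[ℓ] A
  have hli : LinearIndependent ℚ_[ℓ] (fun i => (B i : W)) := by
    rw [← LinearIndependent.iff_fractionRing (R := ℤ_[ℓ])]
    exact B.linearIndependent.map' A.subtype (Submodule.ker_subtype A)
  -- the coordinate functionals
  have hc : ∀ i, ∃ c : W →ₗ[ℚ_[ℓ]] ℚ_[ℓ], ∀ j, c (B j : W) = if j = i then 1 else 0 := by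
    intro i
    obtain ⟨c, hc⟩ := LinearMap.exists_extend ((Finsupp.lapply i) ∘ₗ hli.repr)
    refine ⟨c, fun j => ?_⟩
    have h1 := LinearMap.congr_fun hc ⟨(B j : W), Submodule.subset_span ⟨j, rfl⟩⟩
    rw [LinearMap.comp_apply, LinearMap.comp_apply, Submodule.subtype_apply] at h1
    rw [h1, hli.repr_eq_single j _ rfl, Finsupp.lapply_apply, Finsupp.single_apply]
  choose c hc using hc
  have hsum : ∀ x (hx : x ∈ A), x = ∑ j, B.repr ⟨x, hx⟩ j • (B j : W) := by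
    intro x hx
    have h1 := congrArg Subtype.val (B.sum_repr ⟨x, hx⟩)
    rw [Submodule.coe_sum] at h1
    exact h1.symm
  have hcx : ∀ x (hx : x ∈ A) i, c i x = (B.repr ⟨x, hx⟩ i : ℚ_[ℓ]) := by
    intro x hx i
    conv_lhs => rw [hsum x hx]
    rw [map_sum, Finset.sum_eq_single i]
    · rw [← algebraMap_smul ℚ_[ℓ] (B.repr ⟨x, hx⟩ i) (B i : W), map_smul, hc, if_pos rfl,
        smul_eq_mul, mul_one]
      rfl
    · intro j _ hj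
      rw [← algebraMap_smul ℚ_[ℓ] (B.repr ⟨x, hx⟩ j) (B j : W), map_smul, hc, if_neg hj,
        smul_zero]
    · intro h; exact absurd (Finset.mem_univ i) h
  have hdiv : ∀ x (hx : x ∈ A) (k : ℕ), (∃ a ∈ A, x = (ℓ : ℤ_[ℓ]) ^ k • a) ↔
      ∀ i, ∃ z : ℤ_[ℓ], B.repr ⟨x, hx⟩ i = (ℓ : ℤ_[ℓ]) ^ k * z := by
    intro x hx k
    constructor
    · rintro ⟨a, ha, hxa⟩ i
      have h1 : (⟨x, hx⟩ : A) = (ℓ : ℤ_[ℓ]) ^ k • ⟨a, ha⟩ := Subtype.ext hxa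
      exact ⟨B.repr ⟨a, ha⟩ i, by rw [h1, map_smul, Finsupp.smul_apply, smul_eq_mul]⟩
    · intro h
      choose z hz using h
      refine ⟨∑ i, z i • (B i : W), Submodule.sum_mem _ fun i _ =>
        A.smul_mem _ (B i).2, ?_⟩
      rw [hsum x hx, Finset.smul_sum]
      exact Finset.sum_congr rfl fun i _ => by rw [smul_smul, ← hz]
  refine ⟨Module.finrank ℤ_[ℓ] A, c,
    { toFun := fun x i => PadicInt.toZMod (B.repr x i)
      map_zero' := by ext i; simp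
      map_add' := fun x y => by ext i; simp }, ?_, ?_, ?_⟩
  · intro x hx k
    rw [hdiv x hx k]
    refine forall_congr' fun i => ?_
    rw [padicInt_dvd_iff, hcx x hx]
  · intro x hx h
    rw [hsum x hx]
    refine Finset.sum_eq_zero fun i _ => ?_
    have h1 := h i
    rw [hcx x hx] at h1
    have h2 : B.repr ⟨x, hx⟩ i = 0 := Subtype.ext h1
    rw [h2, zero_smul]
  · intro x
    have h1 := hdiv x x.2 1
    rw [pow_one] at h1
    change _ ↔ ∃ a ∈ A, (x : W) = (ℓ : ℤ_[ℓ]) • a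
    rw [h1]
    have h2 : ((fun i => PadicInt.toZMod (B.repr x i)) = 0) ↔
        ∀ i, ∃ z : ℤ_[ℓ], B.repr x i = (ℓ : ℤ_[ℓ]) * z := by
      rw [funext_iff]
      refine forall_congr' fun i => ?_
      have h3 : PadicInt.toZMod (B.repr x i) = 0 ↔
          B.repr x i ∈ RingHom.ker (PadicInt.toZMod : ℤ_[ℓ] →+* ZMod ℓ) := Iff.rfl
      rw [Pi.zero_apply, h3, PadicInt.ker_toZMod, PadicInt.maximalIdeal_eq_span_p,
        Ideal.mem_span_singleton]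
      rfl
    exact h2

end Coord

section Main

variable {ℓ : ℕ} [Fact ℓ.Prime] {W : Type*} [Ring W] [Algebra ℚ_[ℓ] W]
  [TopologicalSpace W] [IsTopologicalRing W] [ContinuousSMul ℚ_[ℓ] W] [T2Space W]
  [FiniteDimensional ℚ_[ℓ] W]
  {Γ : Type*} [Group Γ] [TopologicalSpace Γ] [IsTopologicalGroup Γ] [CompactSpace Γ]

theorem frattini_aux [Algebra ℤ_[ℓ] W] [IsScalarTower ℤ_[ℓ] ℚ_[ℓ] W]
    (D : Γ →* W) (hD : Continuous D) (N : Subgroup Γ) (hN : IsOpen (N : Set Γ)) :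
    ∃ U : Subgroup Γ, IsOpen (U : Set Γ) ∧ ∀ H : Subgroup Γ, IsOpen (H : Set Γ) →
      (∀ γ ∈ N, D γ = 1 → γ ∈ H) → (∀ γ, ∃ h ∈ H, h⁻¹ * γ ∈ U) → H = ⊤ := by
  classical
  set A : Submodule ℤ_[ℓ] W := Submodule.span ℤ_[ℓ] (D '' N) with hAdef
  have hAfg : A.FG := fg_span_image D hD N
  have htf : Module.IsTorsionFree ℤ_[ℓ] W := Module.IsTorsionFree.trans_faithfulSMul ℤ_[ℓ] ℚ_[ℓ] W
  obtain ⟨r, c, q, hc, hc0, hq⟩ := exists_coord2 A hAfg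
  have hℓ0 : (ℓ : ℤ_[ℓ]) ≠ 0 := by exact_mod_cast (Fact.out : ℓ.Prime).ne_zero
  have hDA : ∀ γ ∈ N, D γ ∈ A := fun γ hγ => Submodule.subset_span ⟨γ, hγ, rfl⟩
  have h1A : (1 : W) ∈ A := by have := hDA 1 N.one_mem; rwa [map_one] at this
  have hmul : ∀ x ∈ A, ∀ y ∈ A, x * y ∈ A := by
    intro x hx y hy
    have h1 : A ≤ A.comap (LinearMap.mulRight ℤ_[ℓ] y) := by
      rw [hAdef, Submodule.span_le]
      rintro _ ⟨γ, hγ, rfl⟩
      have h2 : A ≤ A.comap (LinearMap.mulLeft ℤ_[ℓ] (D γ)) := by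
        rw [hAdef, Submodule.span_le]
        rintro _ ⟨δ, hδ, rfl⟩
        refine Submodule.subset_span ⟨γ * δ, N.mul_mem hγ hδ, ?_⟩
        rw [map_mul]; rfl
      exact h2 hy
    exact h1 hx
  have hinv : ∀ γ, D γ * D γ⁻¹ = 1 := fun γ => by rw [← map_mul, mul_inv_cancel, map_one]
  have hinv' : ∀ γ, D γ⁻¹ * D γ = 1 := fun γ => by rw [← map_mul, inv_mul_cancel, map_one]
  -- congruence subgroups
  let U : ℕ → Subgroup Γ := fun k =>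
    { carrier := {γ | γ ∈ N ∧ ∃ a ∈ A, D γ - 1 = (ℓ : ℤ_[ℓ]) ^ k • a}
      mul_mem' := by
        rintro γ δ ⟨hγ, a, ha, hγa⟩ ⟨hδ, b, hb, hδb⟩
        refine ⟨N.mul_mem hγ hδ, D γ * b + a, add_mem (hmul _ (hDA γ hγ) _ hb) ha, ?_⟩
        have h1 : D (γ * δ) - 1 = D γ * (D δ - 1) + (D γ - 1) := by rw [map_mul]; noncomm_ring
        rw [h1, hγa, hδb, mul_smul_comm, smul_add]
      one_mem' := ⟨N.one_mem, 0, zero_mem _, by simp⟩
      inv_mem' := by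
        rintro γ ⟨hγ, a, ha, hγa⟩
        refine ⟨N.inv_mem hγ, -(D γ⁻¹ * a), neg_mem (hmul _ (hDA _ (N.inv_mem hγ)) _ ha), ?_⟩
        have h1 : D γ⁻¹ - 1 = -(D γ⁻¹ * (D γ - 1)) := by rw [mul_sub, hinv']; noncomm_ring
        rw [h1, hγa, mul_smul_comm, smul_neg] }
  have hU : ∀ k γ, γ ∈ U k ↔ γ ∈ N ∧ ∃ a ∈ A, D γ - 1 = (ℓ : ℤ_[ℓ]) ^ k • a := fun k γ => Iff.rfl
  have hUN : ∀ k, U k ≤ N := fun k γ hγ => hγ.1
  have hUc : ∀ k γ, γ ∈ U k ↔ γ ∈ N ∧ ∀ i, ‖c i (D γ - 1)‖ ≤ (ℓ : ℝ) ^ (-(k : ℤ)) := by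
    intro k γ
    rw [hU]
    refine and_congr_right fun hγ => ?_
    exact hc _ (sub_mem (hDA γ hγ) h1A) k
  have hset : ∀ k, (U k : Set Γ) = (N : Set Γ) ∩ ⋂ i, (fun γ => c i (D γ - 1)) ⁻¹'
      Metric.closedBall 0 ((ℓ : ℝ) ^ (-(k : ℤ))) := by
    intro k
    ext γ
    simp only [Set.mem_inter_iff, Set.mem_iInter, Set.mem_preimage, mem_closedBall_zero_iff]
    exact hUc k γ
  have hcont : ∀ i, Continuous fun γ => c i (D γ - 1) := fun i =>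
    (LinearMap.continuous_of_finiteDimensional (c i)).comp (hD.sub continuous_const)
  have hℓpos : (0 : ℝ) < ℓ := by exact_mod_cast (Fact.out : ℓ.Prime).pos
  have hUopen : ∀ k, IsOpen (U k : Set Γ) := by
    intro k
    rw [hset]
    refine hN.inter (isOpen_iInter_of_finite fun i => ?_)
    exact (IsUltrametricDist.isOpen_closedBall _ (zpow_pos hℓpos _).ne').preimage (hcont i)
  have hUclosed : ∀ k, IsClosed (U k : Set Γ) := fun k => Subgroup.isClosed_of_isOpen _ (hUopen k)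
  have hUanti : ∀ k, U (k + 1) ≤ U k := by
    rintro k γ ⟨hγ, a, ha, hγa⟩
    refine ⟨hγ, (ℓ : ℤ_[ℓ]) • a, A.smul_mem _ ha, ?_⟩
    rw [hγa, smul_smul, pow_succ]
  have hUanti' : Antitone U := antitone_nat_of_succ_le hUanti
  -- powers
  have hpow : ∀ k, 2 ≤ k → ∀ γ ∈ U k, ∀ (a : A), D γ - 1 = (ℓ : ℤ_[ℓ]) ^ k • (a : W) →
      ∃ a' : A, D (γ ^ ℓ) - 1 = (ℓ : ℤ_[ℓ]) ^ (k + 1) • (a' : W) ∧ q a' = q a := by
    intro k hk γ hγ a ha
    have hγN : γ ∈ N := hγ.1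
    -- the sum of powers
    have hs : ∃ s ∈ A, (∑ i ∈ Finset.range ℓ, D γ ^ i) = (ℓ : ℤ_[ℓ]) • (1 : W) + (ℓ : ℤ_[ℓ]) ^ k • s := by
      have h1 : ∀ i, ∃ b ∈ A, D γ ^ i = 1 + (ℓ : ℤ_[ℓ]) ^ k • b := by
        intro i
        obtain ⟨-, b, hb, hb'⟩ := (U k).pow_mem hγ i
        refine ⟨b, hb, ?_⟩
        rw [← map_pow, ← hb']; abel
      choose b hb hb' using h1
      refine ⟨∑ i ∈ Finset.range ℓ, b i, Submodule.sum_mem _ fun i _ => hb i, ?_⟩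
      rw [Finset.sum_congr rfl fun i _ => hb' i, Finset.sum_add_distrib, Finset.smul_sum]
      congr 1
      rw [Finset.sum_const, Finset.card_range, Nat.cast_smul_eq_nsmul]
    obtain ⟨s, hs, hs'⟩ := hs
    have h2 : D (γ ^ ℓ) - 1 = (D γ - 1) * ∑ i ∈ Finset.range ℓ, D γ ^ i := by
      rw [map_pow, mul_geom_sum]
    obtain ⟨j, rfl⟩ := Nat.exists_eq_add_of_le hk
    have hd : (ℓ : ℤ_[ℓ]) ^ j • ((a : W) * s) ∈ A := A.smul_mem _ (hmul _ a.2 _ hs)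
    let d : A := ⟨(ℓ : ℤ_[ℓ]) ^ j • ((a : W) * s), hd⟩
    refine ⟨a + (ℓ : ℤ_[ℓ]) • d, ?_, ?_⟩
    · rw [h2, hs', ha]
      change _ = (ℓ : ℤ_[ℓ]) ^ (2 + j + 1) • ((a : W) + (ℓ : ℤ_[ℓ]) • ((ℓ : ℤ_[ℓ]) ^ j • ((a : W) * s)))
      rw [mul_add, smul_mul_assoc, smul_mul_assoc, mul_smul_comm, mul_smul_comm, mul_one, smul_add]
      simp only [smul_smul]
      congr 2
      · ring
      · ring
    · rw [map_add]
      have h3 : q ((ℓ : ℤ_[ℓ]) • d) = 0 := (hq _).mpr ⟨(d : W), d.2, rfl⟩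
      rw [h3, add_zero]
  -- congruences
  have hcongr : ∀ k, ∀ γ ∈ N, ∀ δ ∈ N, ∀ (a b : A), D γ - 1 = (ℓ : ℤ_[ℓ]) ^ k • (a : W) →
      D δ - 1 = (ℓ : ℤ_[ℓ]) ^ k • (b : W) → (q a = q b ↔ γ⁻¹ * δ ∈ U (k + 1)) := by
    intro k γ hγ δ hδ a b ha hb
    have h1 : D δ - D γ = (ℓ : ℤ_[ℓ]) ^ k • ((b : W) - a) := by
      rw [smul_sub, ← ha, ← hb]; abel
    have h2 : q a = q b ↔ ∃ e ∈ A, ((b : W) - a) = (ℓ : ℤ_[ℓ]) • e := by
      rw [eq_comm, ← sub_eq_zero, ← map_sub, hq]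
      rfl
    rw [h2, hU]
    constructor
    · rintro ⟨e, he, he'⟩
      refine ⟨N.mul_mem (N.inv_mem hγ) hδ, D γ⁻¹ * e, hmul _ (hDA _ (N.inv_mem hγ)) _ he, ?_⟩
      have h3 : D (γ⁻¹ * δ) - 1 = D γ⁻¹ * (D δ - D γ) := by
        rw [map_mul, mul_sub, hinv']
      rw [h3, h1, he', mul_smul_comm, mul_smul_comm, smul_smul, pow_succ]
    · rintro ⟨-, e, he, he'⟩
      refine ⟨D γ * e, hmul _ (hDA _ hγ) _ he, ?_⟩
      have h3 : D δ - D γ = D γ * (D (γ⁻¹ * δ) - 1) := by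
        rw [map_mul, mul_sub, ← mul_assoc, hinv, one_mul, mul_one]
      rw [h3, he', mul_smul_comm, pow_succ, mul_smul] at h1
      exact (smul_right_injective W (pow_ne_zero k hℓ0) h1).symm
  -- stabilisation
  let E : ℕ → Set (Fin r → ZMod ℓ) := fun k =>
    {y | ∃ γ ∈ U (k + 2), ∃ a : A, D γ - 1 = (ℓ : ℤ_[ℓ]) ^ (k + 2) • (a : W) ∧ q a = y}
  have hEmono : Monotone E := by
    refine monotone_nat_of_le_succ fun k => ?_
    rintro _ ⟨γ, hγ, a, ha, rfl⟩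
    obtain ⟨a', ha', hqa⟩ := hpow (k + 2) (by omega) γ hγ a ha
    exact ⟨γ ^ ℓ, ⟨N.pow_mem hγ.1 ℓ, a', a'.2, ha'⟩, a', ha', hqa⟩
  obtain ⟨n₀, hn₀⟩ := WellFoundedGT.monotone_chain_condition (⟨E, hEmono⟩ : ℕ →o Set (Fin r → ZMod ℓ))
  set k₀ := n₀ + 2 with hk₀
  have hstab : ∀ k, k₀ ≤ k → ∀ g ∈ U (k + 1), ∃ h ∈ U k, (h ^ ℓ)⁻¹ * g ∈ U (k + 2) := by
    intro k hk g hg
    obtain ⟨j, rfl⟩ : ∃ j, k = j + 2 := ⟨k - 2, by omega⟩
    obtain ⟨hgN, b, hb, hgb⟩ := id hg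
    have h1 : q ⟨b, hb⟩ ∈ E (j + 1) := ⟨g, hg, ⟨b, hb⟩, hgb, rfl⟩
    have h2 : E (j + 1) = E j := (hn₀ (j + 1) (by omega)).symm.trans (hn₀ j (by omega))
    rw [h2] at h1
    obtain ⟨h, hh, a, ha, hqa⟩ := h1
    obtain ⟨a', ha', hqa'⟩ := hpow (j + 2) (by omega) h hh a ha
    refine ⟨h, hh, ?_⟩
    exact (hcongr (j + 2 + 1) (h ^ ℓ) (N.pow_mem hh.1 ℓ) g hgN a' ⟨b, hb⟩ ha' hgb).mp
      (hqa'.trans hqa)
  refine ⟨U (k₀ + 1), hUopen _, fun H hH hZ hcov => ?_⟩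
  -- density of `H` in the congruence subgroups
  have hdens : ∀ k, k₀ ≤ k → ∀ u ∈ U k, ∃ h ∈ H, h ∈ U k ∧ h⁻¹ * u ∈ U (k + 1) := by
    intro k hk
    induction k, hk using Nat.le_induction with
    | base =>
      intro u hu
      obtain ⟨h, hh, hhu⟩ := hcov u
      refine ⟨h, hh, ?_, hhu⟩
      have h1 : h = u * (h⁻¹ * u)⁻¹ := by group
      rw [h1]
      exact (U k₀).mul_mem hu ((U k₀).inv_mem (hUanti _ hhu))
    | succ k hk ih =>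
      intro g hg
      obtain ⟨h₁, hh₁, hg₁⟩ := hstab k hk g hg
      obtain ⟨h, hh, hhU, hh'⟩ := ih h₁ hh₁
      obtain ⟨hN₁, a₁, ha₁, hD₁⟩ := id hh₁
      obtain ⟨hN₂, a₂, ha₂, hD₂⟩ := id hhU
      have h1 : q ⟨a₂, ha₂⟩ = q ⟨a₁, ha₁⟩ :=
        (hcongr k h hN₂ h₁ hN₁ ⟨a₂, ha₂⟩ ⟨a₁, ha₁⟩ hD₂ hD₁).mpr hh'
      obtain ⟨b₁, hb₁, hqb₁⟩ := hpow k (by omega) h₁ hh₁ ⟨a₁, ha₁⟩ hD₁
      obtain ⟨b₂, hb₂, hqb₂⟩ := hpow k (by omega) h hhU ⟨a₂, ha₂⟩ hD₂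
      have h2 : (h ^ ℓ)⁻¹ * h₁ ^ ℓ ∈ U (k + 1 + 1) :=
        (hcongr (k + 1) (h ^ ℓ) (N.pow_mem hN₂ ℓ) (h₁ ^ ℓ) (N.pow_mem hN₁ ℓ) b₂ b₁ hb₂ hb₁).mp
          (by rw [hqb₁, hqb₂, h1])
      refine ⟨h ^ ℓ, H.pow_mem hh ℓ, ⟨N.pow_mem hN₂ ℓ, b₂, b₂.2, hb₂⟩, ?_⟩
      have h3 : (h ^ ℓ)⁻¹ * g = ((h ^ ℓ)⁻¹ * h₁ ^ ℓ) * ((h₁ ^ ℓ)⁻¹ * g) := by group
      rw [h3]
      exact (U (k + 1 + 1)).mul_mem h2 hg₁
  -- some congruence subgroup is contained in `H`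
  have hsmall : ∃ m, k₀ ≤ m ∧ U m ≤ H := by
    by_contra hcon
    push Not at hcon
    have h1 : ∀ m, ((U m : Set Γ) ∩ (H : Set Γ)ᶜ).Nonempty := by
      intro m
      have h2 := hcon (max m k₀) (le_max_right _ _)
      rw [SetLike.not_le_iff_exists] at h2
      obtain ⟨x, hx, hx'⟩ := h2
      exact ⟨x, hUanti' (le_max_left m k₀) hx, hx'⟩
    have h2 := IsCompact.nonempty_iInter_of_sequence_nonempty_isCompact_isClosed
      (fun m => (U m : Set Γ) ∩ (H : Set Γ)ᶜ)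
      (fun m => Set.inter_subset_inter_left _ (hUanti m)) h1
      (((hUclosed 0).inter hH.isClosed_compl).isCompact)
      (fun m => (hUclosed m).inter hH.isClosed_compl)
    obtain ⟨x, hx⟩ := h2
    rw [Set.mem_iInter] at hx
    have hxN : x ∈ N := (hx 0).1.1
    refine (hx 0).2 (hZ x hxN ?_)
    have h3 : D x - 1 = 0 := by
      refine hc0 _ (sub_mem (hDA x hxN) h1A) fun i => ?_
      have h4 : ∀ k : ℕ, ‖c i (D x - 1)‖ ≤ ((ℓ : ℝ)⁻¹) ^ k := by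
        intro k
        have := ((hUc k x).mp (hx k).1).2 i
        rwa [zpow_neg, zpow_natCast, ← inv_pow] at this
      have hℓ1 : (1 : ℝ) < ℓ := by exact_mod_cast (Fact.out : ℓ.Prime).one_lt
      have h5 : Filter.Tendsto (fun k : ℕ => ((ℓ : ℝ)⁻¹) ^ k) Filter.atTop (𝓝 0) :=
        tendsto_pow_atTop_nhds_zero_of_lt_one (by positivity) (inv_lt_one_of_one_lt₀ hℓ1)
      have h6 := ge_of_tendsto' h5 h4
      exact norm_le_zero_iff.mp h6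
    rwa [sub_eq_zero] at h3
  obtain ⟨m, hm, hmH⟩ := hsmall
  have hdown : ∀ j, k₀ ≤ m - j → U (m - j) ≤ H := by
    intro j
    induction j with
    | zero => intro _; exact hmH
    | succ j ih =>
      intro hj u hu
      obtain ⟨h, hh, -, hhu⟩ := hdens _ hj u hu
      have h1 : m - (j + 1) + 1 = m - j := by omega
      rw [h1] at hhu
      have h2 := ih (by omega) hhu
      have h3 := H.mul_mem hh h2
      rwa [mul_inv_cancel_left] at h3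
  have hk₀H : U k₀ ≤ H := by
    have := hdown (m - k₀) (by omega)
    rwa [Nat.sub_sub_self hm] at this
  rw [eq_top_iff]
  intro γ _
  obtain ⟨h, hh, hhγ⟩ := hcov γ
  have h3 := H.mul_mem hh (hk₀H (hUanti _ hhγ))
  rwa [mul_inv_cancel_left] at h3

end Main

/-- A Frattini property of compact groups of `ℓ`-adic matrices. -/
theorem frattini (ℓ : ℕ) [Fact ℓ.Prime] {W : Type*} [Ring W] [Algebra ℚ_[ℓ] W]
    [TopologicalSpace W] [IsTopologicalRing W] [ContinuousSMul ℚ_[ℓ] W] [T2Space W]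
    [FiniteDimensional ℚ_[ℓ] W]
    {Γ : Type*} [Group Γ] [TopologicalSpace Γ] [IsTopologicalGroup Γ] [CompactSpace Γ]
    (D : Γ →* W) (hD : Continuous D) (N : Subgroup Γ) (hN : IsOpen (N : Set Γ)) :
    ∃ U : Subgroup Γ, IsOpen (U : Set Γ) ∧ ∀ H : Subgroup Γ, IsOpen (H : Set Γ) →
      (∀ γ ∈ N, D γ = 1 → γ ∈ H) → (∀ γ, ∃ h ∈ H, h⁻¹ * γ ∈ U) → H = ⊤ := by
  let : Algebra ℤ_[ℓ] W := Algebra.compHom W (algebraMap ℤ_[ℓ] ℚ_[ℓ])
  have : IsScalarTower ℤ_[ℓ] ℚ_[ℓ] W := IsScalarTower.of_algebraMap_eq fun x => rfl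
  exact frattini_aux (ℓ := ℓ) D hD N hN

end Pool.Agent.Lib.MP_666dc0_nt
end
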