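import Pool.Agent.Lib.MP_666dc0_nt.Mg.G019
import Pool.Agent.Lib.MP_666dc0_nt.Eqv
import Pool.Agent.Lib.MP_666dc0_nt.Mg.G050
import Pool.Agent.Lib.MP_666dc0_nt.Mg.G046
import Pool.Agent.Lib.MP_666dc0_nt.Mg.G045
import Pool.Agent.Lib.MP_666dc0_nt.Mg.G048

section

open TensorProduct Coalgebra Topology NumberField IsDedekindDomain Polynomial
open scoped TensorProduct Matrix Pointwise NumberField

namespace Pool.Agent.Lib.MP_666dc0_nt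

set_option linter.unusedSectionVars false

section Frob

variable {A : Type*} [Field A] {F : Type*} [Field F] [NumberField F] [Algebra F A]
  {v : HeightOneSpectrum (𝓞 F)} {P : Ideal (𝓞 A)}

lemma IsFrob.smul_mem_iff (hP : IsOver v P) {σ : Gal(A/F)} (h : IsFrob v P σ) (x : 𝓞 A) :
    σ • x ∈ P ↔ x ∈ P := by
  have hPp := hP.1
  have h1 := h x
  have hq : Nat.card (𝓞 F ⧸ v.asIdeal) ≠ 0 := by
    rw [card_quot_eq_absNorm]
    have := two_le_absNorm v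
    intro h0
    rw [h0] at this
    norm_num at this
  constructor
  · intro h2
    have h3 := sub_mem h2 h1
    rw [sub_sub_cancel] at h3
    exact hPp.mem_of_pow_mem _ h3
  · intro h2
    have h3 := add_mem h1 (P.pow_mem_of_mem h2 _ (Nat.pos_of_ne_zero hq))
    rwa [sub_add_cancel] at h3

lemma IsFrob.smul_eq (hP : IsOver v P) {σ : Gal(A/F)} (h : IsFrob v P σ) : σ • P = P := by
  ext x
  rw [mem_smul_ideal, ← h.smul_mem_iff hP, smul_inv_smul]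

lemma IsOver.smul (hP : IsOver v P) (δ : Gal(A/F)) : IsOver v (δ • P) := by
  have hPp := hP.1
  refine ⟨by rw [Ideal.pointwise_smul_eq_comap]; infer_instance, ?_⟩
  rw [← hP.2]
  ext x
  rw [Ideal.mem_comap, Ideal.mem_comap, mem_smul_ideal]
  have h1 : δ⁻¹ • (algebraMap (𝓞 F) (𝓞 A) x) = algebraMap (𝓞 F) (𝓞 A) x := by
    apply RingOfIntegers.ext
    exact (δ⁻¹).commutes _
  rw [h1]

lemma IsFrob.conj {σ : Gal(A/F)} (h : IsFrob v P σ) (δ : Gal(A/F)) :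
    IsFrob v (δ • P) (δ * σ * δ⁻¹) := by
  intro x
  rw [mem_smul_ideal, smul_sub, smul_pow']
  have h1 := h (δ⁻¹ • x)
  have h2 : δ⁻¹ • (δ * σ * δ⁻¹) • x = σ • (δ⁻¹ • x) := by
    rw [smul_smul, smul_smul]; congr 1; group
  rw [h2]
  exact h1

lemma stab_conj {V : Subgroup Gal(A/F)} (g : Gal(A/F)) (h : ∀ δ : Gal(A/F), δ • P = P → g⁻¹ * δ * g ∈ V) :
    ∀ δ : Gal(A/F), δ • (g⁻¹ • P) = g⁻¹ • P → δ ∈ V := by
  intro δ hδ
  have h1 : (g * δ * g⁻¹) • P = P := by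
    rw [mul_smul, mul_smul, hδ, smul_inv_smul]
  have h2 := h _ h1
  have h3 : g⁻¹ * (g * δ * g⁻¹) * g = δ := by group
  rwa [h3] at h2

end Frob

section Members

variable {F : Type*} [Field F] [NumberField F] {O : Type} [CommRing O] [HopfAlgebra ℚ O]
  (A : HopfAction Gal(AlgebraicClosure F/F) O) {K : Type} [Field K] [Algebra ℚ K]

/-- The value condition. -/
def Val (S' : Set (HeightOneSpectrum (𝓞 F))) (φ : HeightOneSpectrum (𝓞 F) → Gal(AlgebraicClosure F/F))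
    (x : ∀ v, A.inv (φ v) →+* K) (V : Subgroup Gal(AlgebraicClosure F/F)) (r : V →* A.LGroup K) :
    Prop :=
  ∀ v, v ∉ S' → ∀ P, IsSplitAt v P V → ∀ δ (hδ : δ * φ v * δ⁻¹ ∈ V),
    (IsFrob v P (δ * φ v * δ⁻¹) ∨ IsFrob v P (δ * φ v * δ⁻¹)⁻¹) → ∀ f : A.inv (φ v),
      ((SemidirectProduct.inr δ)⁻¹ * r ⟨δ * φ v * δ⁻¹, hδ⟩ * SemidirectProduct.inr δ :
        A.LGroup K).left.hom (f : O) = x v f

variable {A} {S' : Set (HeightOneSpectrum (𝓞 F))} {φ : HeightOneSpectrum (𝓞 F) → Gal(AlgebraicClosure F/F)}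
    {x : ∀ v, A.inv (φ v) →+* K}

lemma exists_conj_frob (hφ : ∀ v, v ∉ S' → ∃ P : Ideal (𝓞 (AlgebraicClosure F)), IsOver v P ∧
      (IsFrob v P (φ v) ∨ IsFrob v P (φ v)⁻¹)) {v : HeightOneSpectrum (𝓞 F)} (hv : v ∉ S')
    {P : Ideal (𝓞 (AlgebraicClosure F))} (hP : IsOver v P) :
    ∃ δ, IsFrob v P (δ * φ v * δ⁻¹) ∨ IsFrob v P (δ * φ v * δ⁻¹)⁻¹ := by
  obtain ⟨P₀, hP₀, h⟩ := hφ v hv
  have h1 := hP.1
  have h2 := hP₀.1
  obtain ⟨δ, hδ⟩ := exists_smul_eq_of_under (A := AlgebraicClosure F) F P₀ P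
    (hP₀.2.trans hP.2.symm)
  refine ⟨δ, ?_⟩
  rw [hδ]
  rcases h with h | h
  · exact Or.inl (h.conj δ)
  · right
    have h3 := h.conj δ
    have h4 : (δ * φ v * δ⁻¹)⁻¹ = δ * (φ v)⁻¹ * δ⁻¹ := by group
    rw [h4]; exact h3

lemma mem_of_frob {V : Subgroup Gal(AlgebraicClosure F/F)} {v : HeightOneSpectrum (𝓞 F)}
    {P : Ideal (𝓞 (AlgebraicClosure F))} (hP : IsSplitAt v P V) {σ : Gal(AlgebraicClosure F/F)}
    (hσ : IsFrob v P σ ∨ IsFrob v P σ⁻¹) : σ ∈ V := by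
  rcases hσ with h | h
  · exact hP.2 _ (h.smul_eq hP.1)
  · have := hP.2 _ (h.smul_eq hP.1)
    exact V.inv_mem_iff.mp this

/-- Values at Frobenius elements agree. -/
lemma Val.eqv {V₁ V₂ : Subgroup Gal(AlgebraicClosure F/F)} {r₁ : V₁ →* A.LGroup K}
    {r₂ : V₂ →* A.LGroup K} (h₁ : Val A S' φ x V₁ r₁) (h₂ : Val A S' φ x V₂ r₂)
    (hp₁ : ∀ γ, (r₁ γ).right = γ) (hp₂ : ∀ γ, (r₂ γ).right = γ)
    {v : HeightOneSpectrum (𝓞 F)} (hv : v ∉ S') {P : Ideal (𝓞 (AlgebraicClosure F))}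
    (hP₁ : IsSplitAt v P V₁) (hP₂ : IsSplitAt v P V₂) {δ : Gal(AlgebraicClosure F/F)}
    (hδ : IsFrob v P (δ * φ v * δ⁻¹) ∨ IsFrob v P (δ * φ v * δ⁻¹)⁻¹) :
    A.Eqv (r₁ ⟨δ * φ v * δ⁻¹, mem_of_frob hP₁ hδ⟩) (r₂ ⟨δ * φ v * δ⁻¹, mem_of_frob hP₂ hδ⟩) := by
  have h3 : A.Eqv ((SemidirectProduct.inr δ)⁻¹ * r₁ ⟨δ * φ v * δ⁻¹, mem_of_frob hP₁ hδ⟩ *
      SemidirectProduct.inr δ) ((SemidirectProduct.inr δ)⁻¹ *
        r₂ ⟨δ * φ v * δ⁻¹, mem_of_frob hP₂ hδ⟩ * SemidirectProduct.inr δ) := by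
    have hr : ((SemidirectProduct.inr δ)⁻¹ * r₁ ⟨δ * φ v * δ⁻¹, mem_of_frob hP₁ hδ⟩ *
      SemidirectProduct.inr δ : A.LGroup K).right = φ v := by
      simp only [SemidirectProduct.mul_right, SemidirectProduct.inv_right,
        SemidirectProduct.right_inr, hp₁]
      group
    have hr' : ((SemidirectProduct.inr δ)⁻¹ * r₂ ⟨δ * φ v * δ⁻¹, mem_of_frob hP₂ hδ⟩ *
      SemidirectProduct.inr δ : A.LGroup K).right = φ v := by
      simp only [SemidirectProduct.mul_right, SemidirectProduct.inv_right,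
        SemidirectProduct.right_inr, hp₂]
      group
    refine ⟨hr.trans hr'.symm, fun f hf => ?_⟩
    rw [hr] at hf
    rw [h₁ v hv P hP₁ δ (mem_of_frob hP₁ hδ) hδ ⟨f, hf⟩,
      h₂ v hv P hP₂ δ (mem_of_frob hP₂ hδ) hδ ⟨f, hf⟩]
  have h4 := h3.conj_inr δ
  have h5 : ∀ y : A.LGroup K, SemidirectProduct.inr δ * ((SemidirectProduct.inr δ)⁻¹ * y *
      SemidirectProduct.inr δ) * (SemidirectProduct.inr δ)⁻¹ = y := by
    intro y; group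
  rwa [h5, h5] at h4

/-- Comparison of two homomorphisms matching the same family. -/
theorem Val.eqv_of_mem [TopologicalSpace K] [IsTopologicalRing K] [T1Space K]
    (hS' : S'.Finite) (hker : IsOpen (A.act.ker : Set Gal(AlgebraicClosure F/F)))
    (hφ : ∀ v, v ∉ S' → ∃ P : Ideal (𝓞 (AlgebraicClosure F)), IsOver v P ∧
      (IsFrob v P (φ v) ∨ IsFrob v P (φ v)⁻¹))
    {V₁ V₂ : Subgroup Gal(AlgebraicClosure F/F)} {r₁ : V₁ →* A.LGroup K}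
    {r₂ : V₂ →* A.LGroup K} (h₁ : Val A S' φ x V₁ r₁) (h₂ : Val A S' φ x V₂ r₂)
    (ha₁ : IsAdmissibleOn A V₁ r₁) (ha₂ : IsAdmissibleOn A V₂ r₂)
    (hV₁ : IsOpen (V₁ : Set Gal(AlgebraicClosure F/F)))
    (hV₂ : IsOpen (V₂ : Set Gal(AlgebraicClosure F/F)))
    {γ : Gal(AlgebraicClosure F/F)} (hγ₁ : γ ∈ V₁) (hγ₂ : γ ∈ V₂) :
    A.Eqv (r₁ ⟨γ, hγ₁⟩) (r₂ ⟨γ, hγ₂⟩) := by
  classical
  have hr₁ : (r₁ ⟨γ, hγ₁⟩).right = γ := ha₁.proj _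
  have hr₂ : (r₂ ⟨γ, hγ₂⟩).right = γ := ha₂.proj _
  refine ⟨hr₁.trans hr₂.symm, fun f hf => ?_⟩
  rw [hr₁] at hf
  by_contra hne
  -- the difference function
  let V : Subgroup Gal(AlgebraicClosure F/F) := V₁ ⊓ V₂
  have hV : IsOpen (V : Set Gal(AlgebraicClosure F/F)) := hV₁.inter hV₂
  let h : V → K := fun γ => (r₁ ⟨γ, γ.2.1⟩).left.hom f - (r₂ ⟨γ, γ.2.2⟩).left.hom f
  have hcont : Continuous h := by
    refine Continuous.sub ?_ ?_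
    · exact (ha₁.cont f).comp (Continuous.subtype_mk continuous_subtype_val _)
    · exact (ha₂.cont f).comp (Continuous.subtype_mk continuous_subtype_val _)
  have hopen : IsOpen (Subtype.val '' (h ⁻¹' {0}ᶜ)) :=
    hV.isOpenMap_subtype_val _ (isOpen_compl_singleton.preimage hcont)
  have hmem : γ ∈ Subtype.val '' (h ⁻¹' {0}ᶜ) :=
    ⟨⟨γ, hγ₁, hγ₂⟩, fun h0 => hne (sub_eq_zero.mp h0), rfl⟩
  have hnhds : {g | γ * g ∈ Subtype.val '' (h ⁻¹' {0}ᶜ)} ∈ 𝓝 (1 : Gal(AlgebraicClosure F/F)) := by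
    have h2 : ContinuousAt (fun g : Gal(AlgebraicClosure F/F) => γ * g) 1 :=
      (continuous_const_mul γ).continuousAt
    apply h2
    change Subtype.val '' (h ⁻¹' {0}ᶜ) ∈ 𝓝 (γ * 1)
    rw [mul_one]
    exact hopen.mem_nhds hmem
  rw [krullTopology_mem_nhds_one_iff] at hnhds
  obtain ⟨M, hM, hM'⟩ := hnhds
  have hMo : IsOpen (M.fixingSubgroup : Set Gal(AlgebraicClosure F/F)) :=
    IntermediateField.fixingSubgroup_isOpen M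
  obtain ⟨v, hv, P, hP, hPV, hσ⟩ := exists_split_frob V hV (M.fixingSubgroup ⊓ A.act.ker)
    (hMo.inter hker) S' hS' γ ⟨hγ₁, hγ₂⟩
  obtain ⟨δ, hδ⟩ := exists_conj_frob hφ hv hP
  obtain ⟨k, hk⟩ := hσ _ hδ
  have hP₁ : IsSplitAt v P V₁ := ⟨hP, fun g hg => (hPV g hg).1⟩
  have hP₂ : IsSplitAt v P V₂ := ⟨hP, fun g hg => (hPV g hg).2⟩
  have h3 := (h₁.eqv h₂ ha₁.proj ha₂.proj hv hP₁ hP₂ hδ).pow k
  rw [← map_pow, ← map_pow] at h3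
  have h4 : (δ * φ v * δ⁻¹) ^ k ∈ Subtype.val '' (h ⁻¹' {0}ᶜ) := by
    have h8 : γ * (γ⁻¹ * (δ * φ v * δ⁻¹) ^ k) ∈ Subtype.val '' (h ⁻¹' {0}ᶜ) := hM' hk.1
    rwa [mul_inv_cancel_left] at h8
  obtain ⟨⟨τ, hτ⟩, hτ', hτ''⟩ := h4
  apply hτ'
  change τ = _ at hτ''
  have hact : A.act τ = A.act γ := by
    have h5 : γ⁻¹ * (δ * φ v * δ⁻¹) ^ k ∈ A.act.ker := hk.2
    rw [MonoidHom.mem_ker, map_mul, map_inv, inv_mul_eq_one] at h5
    rw [hτ'', h5]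
  have h6 := h3.2 f (by
    have h7 : (r₁ (⟨δ * φ v * δ⁻¹, mem_of_frob hP₁ hδ⟩ ^ k)).right = τ := by
      rw [ha₁.proj, hτ'']; rfl
    rw [h7, inv_congr' A hact]
    exact hf)
  change (r₁ ⟨τ, hτ.1⟩).left.hom f - (r₂ ⟨τ, hτ.2⟩).left.hom f = 0
  rw [sub_eq_zero]
  have e1 : (⟨δ * φ v * δ⁻¹, mem_of_frob hP₁ hδ⟩ ^ k : V₁) = ⟨τ, hτ.1⟩ := Subtype.ext hτ''.symm
  have e2 : (⟨δ * φ v * δ⁻¹, mem_of_frob hP₂ hδ⟩ ^ k : V₂) = ⟨τ, hτ.2⟩ := Subtype.ext hτ''.symm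
  rwa [e1, e2] at h6

end Members

end Pool.Agent.Lib.MP_666dc0_nt
end

section

open NumberField IsDedekindDomain Topology
open scoped NumberField

namespace Pool.Agent.Lib.MP_666dc0_nt.IG

variable {F : Type} [Field F] [NumberField F] {O : Type} [CommRing O] [HopfAlgebra ℚ O]
  {A : HopfAction Gal(AlgebraicClosure F/F) O}

/-- `{v | ℓ ∈ v}` is finite (`finite_mem` in Density.lean, applied to `(ℓ : 𝓞 F) ≠ 0`). Apply `exists_split_frob`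
(Split.lean) with `V = ⊤`, the given `U`, the finite set `S ∪ {v | (ℓ : 𝓞 F) ∈ v.asIdeal}` and `γ`:
a place `v`, a prime `P` above `v` and, for every `σ` with `IsFrob v P σ ∨ IsFrob v P σ⁻¹`, a `k` with
`γ⁻¹ * σ ^ k ∈ U`. `exists_conj_frob` (Members.lean, with `S' = S`) gives `δ` such that
`σ = δ * φ v * δ⁻¹` has this property; `conj_pow`. -/
theorem exists_frob_near {S : Finset (HeightOneSpectrum (𝓞 F))}
    {φ : HeightOneSpectrum (𝓞 F) → Gal(AlgebraicClosure F/F)}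
    (hφ : ∀ v, v ∉ S → ∃ P : Ideal (𝓞 (AlgebraicClosure F)), IsOver v P ∧
      (IsFrob v P (φ v) ∨ IsFrob v P (φ v)⁻¹)) (ℓ : ℕ) (hℓ : 0 < ℓ)
    (U : Subgroup Gal(AlgebraicClosure F/F)) (hU : IsOpen (U : Set Gal(AlgebraicClosure F/F)))
    (γ : Gal(AlgebraicClosure F/F)) : ∃ v, v ∉ S ∧ (ℓ : 𝓞 F) ∉ v.asIdeal ∧
      ∃ (δ : Gal(AlgebraicClosure F/F)) (k : ℕ), γ⁻¹ * (δ * φ v ^ k * δ⁻¹) ∈ U := by
  have hℓ0 : ((ℓ : ℕ) : 𝓞 F) ≠ 0 := Nat.cast_ne_zero.mpr hℓ.ne'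
  obtain ⟨v, hv, P, hP, -, hσ⟩ := exists_split_frob (F := F) (A := AlgebraicClosure F)
    (⊤ : Subgroup Gal(AlgebraicClosure F/F)) isOpen_univ U hU
    ((S : Set (HeightOneSpectrum (𝓞 F))) ∪ {v | ((ℓ : ℕ) : 𝓞 F) ∈ v.asIdeal})
    (S.finite_toSet.union (finite_mem hℓ0)) γ trivial
  have hv1 : v ∉ S := fun h => hv (Or.inl h)
  have hv2 : ((ℓ : ℕ) : 𝓞 F) ∉ v.asIdeal := fun h => hv (Or.inr h)
  obtain ⟨δ, hδ⟩ := exists_conj_frob (S' := (S : Set (HeightOneSpectrum (𝓞 F))))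
    (fun v hv => hφ v hv) hv1 hP
  obtain ⟨k, hk⟩ := hσ _ hδ
  refine ⟨v, hv1, hv2, δ, k, ?_⟩
  rwa [conj_pow] at hk

end Pool.Agent.Lib.MP_666dc0_nt.IG
end
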