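import Pool.Agent.Lib.MP_666dc0_nt.InterpZDefs
import Pool.Agent.Lib.MP_666dc0_nt.Mg.G053
import Pool.Agent.Lib.MP_666dc0_nt.Mg.G051
import Pool.Agent.Lib.MP_666dc0_nt.Mg.G047

section

open NumberField IsDedekindDomain Topology
open scoped NumberField Pointwise

namespace Pool.Agent.Lib.MP_666dc0_nt.IG

variable {F : Type} [Field F] [NumberField F] {B : Type} [CommRing B] {O : Type} [CommRing O]
  [HopfAlgebra B O] {A : OverB.HopfAction B Gal(AlgebraicClosure F/F) O}

/-- `exists_theta` (J4.lean) over a base ring `B`, with values in topological rings `R z`. Same proof as in J4.lean with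
the `OverB` versions (`BRep.lean`: `OverB.HopfAction.transF_mem`, `OverB.HopfAction.eval_conj_pow`,
`OverB.inv_congr'`), `exists_of_closure_dep`, `continuousOn_of_unique_dep`; the order `O₀` is replaced by `O`.
`exists_frob_near` (J2.lean, take `ℓ = 1`) only uses places and open subgroups. -/
theorem exists_theta_Z (hA : IsOpen (A.act.ker : Set Gal(AlgebraicClosure F/F)))
    {S : Finset (HeightOneSpectrum (𝓞 F))} {φ : HeightOneSpectrum (𝓞 F) → Gal(AlgebraicClosure F/F)}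
    (hφ : ∀ v, v ∉ S → ∃ P : Ideal (𝓞 (AlgebraicClosure F)), IsOver v P ∧
      (IsFrob v P (φ v) ∨ IsFrob v P (φ v)⁻¹))
    {T : Type} [CommRing T] [TopologicalSpace T] [CompactSpace T]
    {x : ∀ v, A.inv (φ v) → T} {Z : Type} {R : Z → Type} [∀ z, CommRing (R z)]
    [∀ z, Algebra B (R z)] [∀ z, TopologicalSpace (R z)] [∀ z, T2Space (R z)] (e : ∀ z, T →+* R z)
    (he : ∀ z, Continuous (e z)) (hinj : ∀ t, (∀ z, e z t = 0) → t = 0)
    (r : ∀ z, Gal(AlgebraicClosure F/F) →* A.LGroup (R z))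
    (hr : ∀ z, OverB.IsAttachedTo A S φ (fun v f => e z (x v f)) (r z)) (f : O) :
    ∃ θ : Gal(AlgebraicClosure F/F) → T, ContinuousOn θ {γ | f ∈ A.inv γ} ∧
      ∀ γ, f ∈ A.inv γ → ∀ z, e z (θ γ) = (r z γ).left.hom f := by
  have hex : ∀ γ, ∃ t, f ∈ A.inv γ → ∀ z, e z t = (r z γ).left.hom f := by
    intro γ
    by_cases hfγ : f ∈ A.inv γ
    swap
    · exact ⟨0, fun h => absurd h hfγ⟩
    obtain ⟨t, ht⟩ := exists_of_closure_dep (X := Gal(AlgebraicClosure F/F))
      (fun z γ => (r z γ).left.hom f) (fun z => (hr z).cont f) (fun z => e z) he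
      {τ | ∃ t, ∀ z, e z t = (r z τ).left.hom f} (fun a ha => ha) (a := γ) (by
        rw [mem_closure_iff]
        intro W hW hγW
        have hnhds : {g | γ * g ∈ W} ∈ 𝓝 (1 : Gal(AlgebraicClosure F/F)) := by
          have h2 : ContinuousAt (fun g : Gal(AlgebraicClosure F/F) => γ * g) 1 :=
            (continuous_const_mul γ).continuousAt
          apply h2
          change W ∈ 𝓝 (γ * 1)
          rw [mul_one]
          exact hW.mem_nhds hγW
        rw [krullTopology_mem_nhds_one_iff] at hnhds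
        obtain ⟨M, hM, hM'⟩ := hnhds
        have hMo : IsOpen (M.fixingSubgroup : Set Gal(AlgebraicClosure F/F)) :=
          IntermediateField.fixingSubgroup_isOpen M
        obtain ⟨v, hv, hv', δ, k, hk⟩ := exists_frob_near hφ 1 one_pos (M.fixingSubgroup ⊓ A.act.ker)
          (hMo.inter hA) γ
        refine ⟨δ * φ v ^ k * δ⁻¹, ?_, ?_⟩
        · have h8 : γ * (γ⁻¹ * (δ * φ v ^ k * δ⁻¹)) ∈ W := hM' hk.1
          rwa [mul_inv_cancel_left] at h8
        · have hact : A.act (δ * φ v ^ k * δ⁻¹) = A.act γ := by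
            have h5 : γ⁻¹ * (δ * φ v ^ k * δ⁻¹) ∈ A.act.ker := hk.2
            rw [MonoidHom.mem_ker, map_mul, map_inv, inv_mul_eq_one] at h5
            exact h5.symm
          have hf' : f ∈ A.inv (δ * φ v ^ k * δ⁻¹) := by
            rw [OverB.inv_congr' A hact]
            exact hfγ
          refine ⟨x v ⟨A.transF (φ v) δ k f, A.transF_mem _ _ _ hf'⟩, fun z => ?_⟩
          rw [A.eval_conj_pow (r z) (hr z).proj (φ v) δ k hf']
          exact ((hr z).value v hv _).symm)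
    exact ⟨t, fun _ => ht⟩
  choose θ hθ using hex
  refine ⟨θ, ?_, hθ⟩
  refine continuousOn_of_unique_dep (fun z γ => (r z γ).left.hom f)
    (fun z => (hr z).cont f) (fun z => e z) he (fun t t' htt => ?_) _ θ hθ
  rw [← sub_eq_zero]
  refine hinj _ fun z => ?_
  rw [map_sub, htt z, sub_self]

end Pool.Agent.Lib.MP_666dc0_nt.IG
end

section

open NumberField IsDedekindDomain Topology TensorProduct
open scoped NumberField TensorProduct

namespace Pool.Agent.Lib.MP_666dc0_nt.IG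

variable {F : Type} [Field F] [NumberField F] {B : Type} [CommRing B] [IsDomain B]
  [IsPrincipalIdealRing B] [Algebra B ℚ] [IsFractionRing B ℚ] {O : Type} [CommRing O]
  [HopfAlgebra B O] {A : OverB.HopfAction B Gal(AlgebraicClosure F/F) O}

/-- Assembly, like `exists_V` (J6.lean). `E, j, r'` from `exists_ratHom`; `ε t = j (fun z => e z t)`. If `ε t = 0` then
`N * e z t = 0` for all `z` with some `N ≠ 0`, so `N t = 0` by `hinj`, so `y t = 0` (characteristic zero). `B', yB` from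
`exists_BV_gen`. For `f' ∈ (baseA A).inv γ` choose `N ≠ 0`, `f ∈ A.inv γ` with `N f' = 1 ⊗ f` (`exists_inv`) and `θ` for
`f` (`exists_theta_Z`): `N (r' γ).left.hom f' = j (fun z => (r z γ).left.hom f) = ε (θ γ)`. So
`(r' γ).left.hom f' ∈ B'` and `N * yB _ = y (θ γ)`. `V γ f' := if h : f' ∈ (baseA A).inv γ then yB ⟨_, _⟩ else 0`.
Continuity on `{γ | f' ∈ (baseA A).inv γ}`: choose `N, f` with `N f' = 1 ⊗ f` (`exists_mul_tmul`), independent of `γ`;
for all `γ` in the set `f ∈ A.inv γ` (`inv_of_tmul`) and `V γ f' = y (θ γ) / N`. Value: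
`(r' (φ v)).left.hom (1 ⊗ f) = j (fun z => e z (x v f)) = ε (x v f)`, `N = 1`. Last statement: if `A.act u = 1` and
`(r z u).left = 1` for all `z` then `(r' (u * γ)).left.hom (1 ⊗ f) = (r' γ).left.hom (1 ⊗ f)` for all `f` (as
`(r z (u * γ)).left = (r z γ).left`), hence `(r' (u * γ)).left = (r' γ).left`. -/
theorem exists_V_Z [Module.Free B O] (hA : IsOpen (A.act.ker : Set Gal(AlgebraicClosure F/F)))
    {S : Finset (HeightOneSpectrum (𝓞 F))} {φ : HeightOneSpectrum (𝓞 F) → Gal(AlgebraicClosure F/F)}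
    (hφ : ∀ v, v ∉ S → ∃ P : Ideal (𝓞 (AlgebraicClosure F)), IsOver v P ∧
      (IsFrob v P (φ v) ∨ IsFrob v P (φ v)⁻¹))
    {T : Type} [CommRing T] [TopologicalSpace T] [CompactSpace T]
    {x : ∀ v, A.inv (φ v) → T} {Z : Type} {R : Z → Type} [∀ z, CommRing (R z)]
    [∀ z, Algebra B (R z)] [∀ z, TopologicalSpace (R z)] [∀ z, T2Space (R z)] (e : ∀ z, T →+* R z)
    (he : ∀ z, Continuous (e z)) (hinj : ∀ t, (∀ z, e z t = 0) → t = 0)
    (r : ∀ z, Gal(AlgebraicClosure F/F) →* A.LGroup (R z))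
    (hr : ∀ z, OverB.IsAttachedTo A S φ (fun v f => e z (x v f)) (r z))
    {K : Type} [Field K] [CharZero K] [Algebra ℚ K] [TopologicalSpace K] [IsTopologicalRing K]
    (y : T →+* K) (hy : Continuous y) :
    ∃ (E : Type) (_ : CommRing E) (_ : Algebra ℚ E)
      (r' : Gal(AlgebraicClosure F/F) →* (baseA A).LGroup E) (B' : Subalgebra ℚ E)
      (hB : ∀ γ, ∀ f ∈ (baseA A).inv γ, (r' γ).left.hom f ∈ B') (yB : B' →+* K)
      (V : Gal(AlgebraicClosure F/F) → (ℚ ⊗[B] O) → K), (∀ γ, (r' γ).right = γ) ∧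
      (∀ γ f (hf : f ∈ (baseA A).inv γ), V γ f = yB ⟨_, hB γ f hf⟩) ∧
      (∀ f, ContinuousOn (fun γ => V γ f) {γ | f ∈ (baseA A).inv γ}) ∧
      (∀ v, v ∉ S → ∀ f : A.inv (φ v), V (φ v) (1 ⊗ₜ[B] (f : O)) = y (x v f)) ∧
      ∀ u, A.act u = 1 → (∀ z, (r z u).left = 1) →
        ∀ γ, ∀ f ∈ (baseA A).inv γ, V (u * γ) f = V γ f := by
  classical
  obtain ⟨E, hE1, hE2, j, r', hj, hr', hval⟩ := exists_ratHom A R r (fun z γ => (hr z).proj γ)
  have hεv : ∀ t, (j.comp (RingHom.pi e)) t = j (fun z => e z t) := fun t => rfl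
  have hker : ∀ t, (j.comp (RingHom.pi e)) t = 0 → y t = 0 := by
    intro t ht
    obtain ⟨N, hN, h0⟩ := hj _ ht
    have h1 : (N : T) * t = 0 := by
      refine hinj _ fun z => ?_
      rw [map_mul, map_natCast]
      have h2 := congrFun h0 z
      rw [Pi.mul_apply, Pi.natCast_apply] at h2
      exact h2
    have h2 : (N : K) * y t = 0 := by rw [← map_natCast y, ← map_mul, h1, map_zero]
    exact (mul_eq_zero.1 h2).resolve_left (Nat.cast_ne_zero.2 hN)
  obtain ⟨B', yB, hBy⟩ := exists_BV_gen (j.comp (RingHom.pi e)) y hker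
  have hex : ∀ f' : ℚ ⊗[B] O, ∃ (N : ℕ) (θ : Gal(AlgebraicClosure F/F) → T), N ≠ 0 ∧
      ContinuousOn θ {γ | f' ∈ (baseA A).inv γ} ∧ ∀ γ, f' ∈ (baseA A).inv γ →
        (N : E) * (r' γ).left.hom f' = (j.comp (RingHom.pi e)) (θ γ) := by
    intro f'
    obtain ⟨N, hN, f, hNf⟩ := exists_mul_tmul f'
    obtain ⟨θ, hθc, hθ⟩ := exists_theta_Z hA hφ e he hinj r hr f
    have hiff : ∀ γ, f' ∈ (baseA A).inv γ → f ∈ A.inv γ := by
      intro γ hf
      refine inv_of_tmul A ?_
      rw [← hNf]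
      exact ((baseA A).inv γ).mul_mem (natCast_mem _ N) hf
    refine ⟨N, θ, hN, hθc.mono fun γ hf => hiff γ hf, fun γ hf => ?_⟩
    have h1 : (N : E) * (r' γ).left.hom f' = (r' γ).left.hom ((N : ℚ ⊗[B] O) * f') := by
      rw [map_mul, map_natCast]
    rw [h1, hNf, hval, hεv]
    congr 1
    funext z
    exact (hθ γ (hiff γ hf) z).symm
  choose N θ hN hθc hθ using hex
  have hB : ∀ γ, ∀ f ∈ (baseA A).inv γ, (r' γ).left.hom f ∈ B' := fun γ f hf =>
    (hBy (N f) (hN f) _ (θ f γ) (hθ f γ hf)).1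
  have hBv : ∀ γ f (hf : f ∈ (baseA A).inv γ), (N f : K) * yB ⟨_, hB γ f hf⟩ = y (θ f γ) :=
    fun γ f hf => (hBy (N f) (hN f) _ (θ f γ) (hθ f γ hf)).2
  obtain ⟨V, hV⟩ : ∃ V : Gal(AlgebraicClosure F/F) → (ℚ ⊗[B] O) → K,
      ∀ γ f (hf : f ∈ (baseA A).inv γ), V γ f = yB ⟨_, hB γ f hf⟩ :=
    ⟨fun γ f => if hf : f ∈ (baseA A).inv γ then yB ⟨_, hB γ f hf⟩ else 0,
      fun γ f hf => dif_pos hf⟩
  refine ⟨E, hE1, hE2, r', B', hB, yB, V, hr', hV, ?_, ?_, ?_⟩
  · intro f
    have hc : ContinuousOn (fun γ => (N f : K)⁻¹ * y (θ f γ)) {γ | f ∈ (baseA A).inv γ} :=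
      continuousOn_const.mul (hy.comp_continuousOn (hθc f))
    refine hc.congr fun γ hf => ?_
    have hf' : f ∈ (baseA A).inv γ := hf
    have hN0 : (N f : K) ≠ 0 := Nat.cast_ne_zero.mpr (hN f)
    simp only [hV γ f hf']
    rw [← hBv γ f hf', inv_mul_cancel_left₀ hN0]
  · intro v hv f
    have hf : (1 ⊗ₜ[B] (f : O) : ℚ ⊗[B] O) ∈ (baseA A).inv (φ v) := inv_tmul A f.2
    rw [hV (φ v) _ hf]
    obtain ⟨h1, h2⟩ := hBy 1 one_ne_zero ((r' (φ v)).left.hom (1 ⊗ₜ[B] (f : O))) (x v f)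
      (by
        rw [Nat.cast_one, one_mul, hval, hεv]
        congr 1
        funext z
        exact (hr z).value v hv f)
    rw [Nat.cast_one, one_mul] at h2
    exact h2
  · intro u hu hu' γ f hf
    have hact : A.act (u * γ) = A.act γ := by rw [map_mul, hu, one_mul]
    have hf' : f ∈ (baseA A).inv (u * γ) := by
      rw [inv_congr' (baseA A) (baseA_act_eq A hact)]
      exact hf
    rw [hV _ _ hf', hV _ _ hf]
    congr 1
    apply Subtype.ext
    change (r' (u * γ)).left.hom f = (r' γ).left.hom f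
    have h3 : ∀ g : O, (r' (u * γ)).left.hom (1 ⊗ₜ[B] g) = (r' γ).left.hom (1 ⊗ₜ[B] g) := by
      intro g
      rw [hval, hval]
      congr 1
      funext z
      rw [map_mul, SemidirectProduct.mul_left, hu' z, one_mul, (hr z).proj u,
        OverB.HopfAction.onPts_hom_apply]
      have h4 : A.act u⁻¹ = 1 := by rw [map_inv, hu, inv_one]
      rw [h4, AlgEquiv.one_apply]
    have h6 : ∀ k : ℚ ⊗[B] O, (r' (u * γ)).left.hom k = (r' γ).left.hom k := by
      intro k
      induction k using TensorProduct.induction_on with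
      | zero => rw [map_zero, map_zero]
      | tmul q g =>
        have h5 : q ⊗ₜ[B] g = q • ((1 : ℚ) ⊗ₜ[B] g) := by
          rw [TensorProduct.smul_tmul', smul_eq_mul, mul_one]
        rw [h5, map_smul, map_smul, h3]
      | add a b iha ihb => rw [map_add, map_add, iha, ihb]
    exact h6 f

end Pool.Agent.Lib.MP_666dc0_nt.IG
end
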