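import Mathlib

section

/-!
# WL, N3: finitely many systems of eigenvalues in a finite dimensional space
-/

namespace Pool.Agent.Lib.MP_666dc0_nt.WL

/-- Simultaneous eigenvectors with distinct systems of eigenvalues are linearly independent.
Proof: by strong induction on the size of the support (or `Finset` induction) as for one
endomorphism: if `∑_{j ∈ s} c j • f j = 0` with `s` of minimal size among the non-trivial relations,
then `s` has at least two elements `j ≠ k` (as `f j ≠ 0`); choose `i` with `lam j i ≠ lam k i` and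
subtract: `∑_{j ∈ s} c j (lam j i - lam k i) • f j = 0` is shorter and non-trivial. (Alternatively:
`Module.End` eigenspaces in Mathlib, file `Eigenspace/Pi.lean`.) -/
theorem linearIndependent_eigen {k M I J : Type} [Field k] [AddCommGroup M] [Module k M]
    (T : I → M →ₗ[k] M) (lam : J → I → k) (hlam : Function.Injective lam) (f : J → M)
    (hf : ∀ j, f j ≠ 0) (h : ∀ j i, T i (f j) = lam j i • f j) : LinearIndependent k f := by
  classical
  rw [linearIndependent_iff']
  intro s
  induction s using Finset.induction_on with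
  | empty => intro g _ i hi; simp at hi
  | insert a s ha ih =>
    intro g hg
    have key : ∀ j ∈ s, g j = 0 := by
      intro j hj
      have hne : lam j ≠ lam a := fun he => ha (hlam he ▸ hj)
      obtain ⟨i, hi⟩ := Function.ne_iff.1 hne
      have e1 : ∑ x ∈ insert a s, (g x * lam x i) • f x = 0 := by
        have e0 := congrArg (T i) hg
        rw [map_sum, map_zero] at e0
        rw [← e0]
        refine Finset.sum_congr rfl (fun x _ => ?_)
        rw [map_smul, h, smul_smul]
      have e2 : ∑ x ∈ insert a s, (g x * lam a i) • f x = 0 := by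
        have e0 := congrArg (fun v => lam a i • v) hg
        simp only [smul_zero] at e0
        rw [Finset.smul_sum] at e0
        rw [← e0]
        refine Finset.sum_congr rfl (fun x _ => ?_)
        rw [smul_smul, mul_comm]
      have e3 : ∑ x ∈ s, (g x * (lam x i - lam a i)) • f x = 0 := by
        have e4 : ∑ x ∈ insert a s, (g x * (lam x i - lam a i)) • f x = 0 := by
          have : ∀ x ∈ insert a s, (g x * (lam x i - lam a i)) • f x =
              (g x * lam x i) • f x - (g x * lam a i) • f x := by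
            intro x _
            rw [mul_sub, sub_smul]
          rw [Finset.sum_congr rfl this, Finset.sum_sub_distrib, e1, e2, sub_zero]
        rw [Finset.sum_insert ha] at e4
        rw [sub_self, mul_zero, zero_smul, zero_add] at e4
        exact e4
      have e5 := ih (fun x => g x * (lam x i - lam a i)) e3 j hj
      rcases mul_eq_zero.1 e5 with e6 | e6
      · exact e6
      · exact absurd (sub_eq_zero.1 e6) hi
    intro j hj
    rcases Finset.mem_insert.1 hj with rfl | hj'
    · rw [Finset.sum_insert ha, Finset.sum_eq_zero (fun x hx => by rw [key x hx, zero_smul]),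
        add_zero] at hg
      exact (smul_eq_zero.1 hg).resolve_right (hf j)
    · exact key j hj'

/-- In a finite dimensional subspace there are only finitely many systems of eigenvalues.
Proof: otherwise choose an infinite family (`Set.Infinite.natEmbedding` or the whole set as index
type `J`) with eigenvectors in `W`; they are linearly independent (`linearIndependent_eigen`), also
as vectors of `W`, contradiction with `LinearIndependent.finite`/`Module.Finite.finite_of_..`
(`LinearIndependent.finite_of_isNoetherian`). -/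
theorem finite_eigensystems {k M I : Type} [Field k] [AddCommGroup M] [Module k M]
    (T : I → M →ₗ[k] M) (W : Submodule k M) [FiniteDimensional k W] :
    {lam : I → k | ∃ f ∈ W, f ≠ 0 ∧ ∀ i, T i f = lam i • f}.Finite := by
  classical
  let J := {lam : I → k // ∃ f ∈ W, f ≠ 0 ∧ ∀ i, T i f = lam i • f}
  choose f hfW hf0 hf using fun j : J => j.2
  have hli : LinearIndependent k f :=
    linearIndependent_eigen T (fun j : J => j.1) Subtype.val_injective f hf0 hf
  let f' : J → W := fun j => ⟨f j, hfW j⟩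
  have hli' : LinearIndependent k f' := by
    apply LinearIndependent.of_comp W.subtype
    exact hli
  have hfin : Finite J := hli'.finite_of_isNoetherian
  exact Set.finite_coe_iff.1 hfin

end Pool.Agent.Lib.MP_666dc0_nt.WL
end

section

open Topology Cardinal
open scoped Cardinal

namespace Pool.Agent.Lib.MP_666dc0_nt
section Iso

theorem exists_ringEquiv_extending {k K L : Type} [Field k] [Field K] [Field L] [Algebra k K]
    [Algebra k L] [IsAlgClosed K] [IsAlgClosed L] (hk : #k ≤ ℵ₀) (hK : ℵ₀ < #K)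
    (hKL : #K = #L) : ∃ ι : K ≃+* L, ∀ x : k, ι (algebraMap k K x) = algebraMap k L x := by
  obtain ⟨s, hs⟩ := exists_isTranscendenceBasis k K
  obtain ⟨t, ht⟩ := exists_isTranscendenceBasis k L
  have hL : ℵ₀ < #L := hKL ▸ hK
  have h1 := IsAlgClosed.cardinal_eq_cardinal_transcendence_basis_of_aleph0_lt _ hs hk hK
  have h2 := IsAlgClosed.cardinal_eq_cardinal_transcendence_basis_of_aleph0_lt _ ht hk hL
  rw [lift_id, lift_id] at h1 h2
  have h3 : #s = #t := by rw [← h1, ← h2, hKL]
  obtain ⟨e⟩ := Cardinal.eq.mp h3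
  have hs' := IsAlgClosed.isAlgClosure_of_transcendence_basis _ hs
  have ht' := IsAlgClosed.isAlgClosure_of_transcendence_basis _ ht
  let f : Algebra.adjoin k (Set.range (Subtype.val : s → K)) ≃ₐ[k]
      Algebra.adjoin k (Set.range (Subtype.val : t → L)) :=
    (hs.1.aevalEquiv.symm.trans (MvPolynomial.renameEquiv k e)).trans ht.1.aevalEquiv
  refine ⟨IsAlgClosure.equivOfEquiv K L f.toRingEquiv, fun x => ?_⟩
  rw [IsScalarTower.algebraMap_apply k (Algebra.adjoin k (Set.range (Subtype.val : s → K))) K,
    IsAlgClosure.equivOfEquiv_algebraMap]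
  change algebraMap _ L (f (algebraMap k _ x)) = _
  rw [AlgEquiv.commutes, ← IsScalarTower.algebraMap_apply]

variable (ℓ : ℕ) [Fact ℓ.Prime]

lemma mk_padic_le : #ℚ_[ℓ] ≤ 𝔠 := by
  have h1 : #ℚ_[ℓ] ≤ #(ℕ → ℚ) := by
    have h2 : #ℚ_[ℓ] ≤ #(CauSeq ℚ (padicNorm ℓ)) := mk_quotient_le
    exact h2.trans (Cardinal.mk_le_of_injective (f := fun s : CauSeq ℚ (padicNorm ℓ) => (s : ℕ → ℚ))
      Subtype.val_injective)
  refine h1.trans ?_
  simp

lemma mk_padicAlgCl : #(PadicAlgCl ℓ) = 𝔠 := by
  apply le_antisymm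
  · refine (Algebra.IsAlgebraic.cardinalMk_le_max ℚ_[ℓ] (PadicAlgCl ℓ)).trans ?_
    exact max_le (mk_padic_le ℓ) aleph0_le_continuum
  · refine (continuum_le_cardinal_of_nontriviallyNormedField ℚ_[ℓ]).trans ?_
    exact Cardinal.mk_le_of_injective (algebraMap ℚ_[ℓ] (PadicAlgCl ℓ)).injective

theorem exists_iso_extending {k : Type} [Field k] (hk : #k ≤ ℵ₀) (i : k →+* ℂ)
    (j : k →+* PadicAlgCl ℓ) : ∃ ι : ℂ ≃+* PadicAlgCl ℓ, ∀ x : k, ι (i x) = j x := by
  let := i.toAlgebra
  let := j.toAlgebra
  have h1 : #ℂ = #(PadicAlgCl ℓ) := by rw [mk_padicAlgCl, Cardinal.mk_complex]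
  exact exists_ringEquiv_extending (k := k) (K := ℂ) (L := PadicAlgCl ℓ) hk
    (by rw [Cardinal.mk_complex]; exact aleph0_lt_continuum) h1

lemma exists_transcendental_norm_gt (C : ℝ) : ∃ y : PadicAlgCl ℓ, Transcendental ℚ y ∧ C < ‖y‖ := by
  have h1 : ∃ y : PadicAlgCl ℓ, Transcendental ℚ y := by
    by_contra h
    push Not at h
    have h2 : {y : PadicAlgCl ℓ | IsAlgebraic ℚ y} = Set.univ := by
      ext y; simpa [Transcendental] using h y
    have h3 := Algebraic.countable ℚ (PadicAlgCl ℓ)
    rw [h2, Set.countable_univ_iff, ← Cardinal.mk_le_aleph0_iff, mk_padicAlgCl] at h3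
    exact absurd aleph0_lt_continuum (not_lt.mpr h3)
  obtain ⟨y, hy⟩ := h1
  have hy0 : y ≠ 0 := fun h => hy (h ▸ isAlgebraic_zero)
  have hℓ1 : (1 : ℝ) < ℓ := by exact_mod_cast (Fact.out : ℓ.Prime).one_lt
  have hℓ0 : (ℓ : ℚ) ≠ 0 := by exact_mod_cast (Fact.out : ℓ.Prime).ne_zero
  have hpos : 0 < ‖y‖ := norm_pos_iff.mpr hy0
  obtain ⟨N, hN⟩ := pow_unbounded_of_one_lt (C / ‖y‖) hℓ1
  have hnorm : ‖((ℓ : PadicAlgCl ℓ))‖ = (ℓ : ℝ)⁻¹ := by
    have := PadicAlgCl.norm_extends ℓ (ℓ : ℚ_[ℓ])
    rw [← Padic.norm_p, ← this]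
    simp
  refine ⟨y * ((ℓ : PadicAlgCl ℓ) ^ N)⁻¹, ?_, ?_⟩
  · intro hal
    apply hy
    have h4 : IsAlgebraic ℚ ((ℓ : PadicAlgCl ℓ) ^ N) := by
      have : ((ℓ : PadicAlgCl ℓ) ^ N) = algebraMap ℚ (PadicAlgCl ℓ) ((ℓ : ℚ) ^ N) := by simp
      rw [this]; exact isAlgebraic_algebraMap _
    have h5 := hal.mul h4
    have hne : ((ℓ : PadicAlgCl ℓ) ^ N) ≠ 0 :=
      pow_ne_zero _ (by exact_mod_cast (Fact.out : ℓ.Prime).ne_zero)
    rwa [mul_assoc, inv_mul_cancel₀ hne, mul_one] at h5
  · rw [norm_mul, norm_inv, norm_pow, hnorm, inv_pow, inv_inv, mul_comm]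
    rwa [div_lt_iff₀ hpos] at hN

theorem exists_iso_norm_gt {x : ℂ} (hx : Transcendental ℚ x) (C : ℝ) :
    ∃ ι : ℂ ≃+* PadicAlgCl ℓ, C < ‖ι x‖ := by
  obtain ⟨y, hy, hC⟩ := exists_transcendental_norm_gt ℓ C
  let gx : Polynomial ℚ →+* ℂ := (Polynomial.aeval x : Polynomial ℚ →ₐ[ℚ] ℂ).toRingHom
  let gy : Polynomial ℚ →+* PadicAlgCl ℓ :=
    (Polynomial.aeval y : Polynomial ℚ →ₐ[ℚ] PadicAlgCl ℓ).toRingHom
  have hxi : Function.Injective gx := transcendental_iff_injective.mp hx
  have hyi : Function.Injective gy := transcendental_iff_injective.mp hy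
  let k := FractionRing (Polynomial ℚ)
  let i : k →+* ℂ := IsFractionRing.lift hxi
  let j : k →+* PadicAlgCl ℓ := IsFractionRing.lift hyi
  have hk : #k ≤ ℵ₀ := by
    rw [IsFractionRing.cardinalMk (Polynomial ℚ) k]
    refine Polynomial.cardinalMk_le_max.trans (max_le ?_ le_rfl)
    exact Cardinal.mk_le_aleph0
  obtain ⟨ι, hι⟩ := exists_iso_extending ℓ hk i j
  refine ⟨ι, ?_⟩
  have h1 := hι (algebraMap (Polynomial ℚ) k Polynomial.X)
  have h2 : i (algebraMap (Polynomial ℚ) k Polynomial.X) = x := by
    rw [IsFractionRing.lift_algebraMap hxi Polynomial.X]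
    exact Polynomial.aeval_X x
  have h3 : j (algebraMap (Polynomial ℚ) k Polynomial.X) = y := by
    rw [IsFractionRing.lift_algebraMap hyi Polynomial.X]
    exact Polynomial.aeval_X y
  rw [h2, h3] at h1
  rw [h1]; exact hC

end Iso
end Pool.Agent.Lib.MP_666dc0_nt
end

section

/-!
# WL, N4: automorphisms of `ℂ`
-/

open Cardinal
open scoped Cardinal

namespace Pool.Agent.Lib.MP_666dc0_nt.WL

/-- Two embeddings of a countable field into `ℂ` differ by an automorphism of `ℂ`.
Proof: `exists_ringEquiv_extending` (file `Iso.lean`) for `K = ℂ` with the algebra structure `i` and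
`L = ℂ` with the algebra structure `j`; to have two different algebra structures use
`letI := i.toAlgebra` for the first and pass the second explicitly with `@`, or copy the pattern of
`exists_iso_extending`. (`Cardinal.mk_complex`, `aleph0_lt_continuum`.) -/
theorem exists_aut_extending {k : Type} [Field k] (hk : #k ≤ ℵ₀) (i j : k →+* ℂ) :
    ∃ s : ℂ ≃+* ℂ, ∀ x : k, s (i x) = j x := by
  obtain ⟨s, hs⟩ := @exists_ringEquiv_extending k ℂ ℂ _ _ _ i.toAlgebra j.toAlgebra _ _ hk
    (by rw [Cardinal.mk_complex]; exact aleph0_lt_continuum) rfl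
  exact ⟨s, hs⟩

/-- A number with a finite orbit under the automorphisms of `ℂ` is algebraic.
Proof: let `z` be transcendental over `ℚ` and `X` a finite set. There is `c : ℕ` with `z + c ∉ X`
(the map `c ↦ z + c` is injective). The two homomorphisms `ℚ(T) → ℂ`, `T ↦ z` and `T ↦ z + c` (as in the
proof of `exists_iso_norm_gt` in `Iso.lean`; `z + c` is transcendental as well) differ by an
automorphism `s` (`exists_aut_extending`), and `s z = z + c ∉ X`. -/
theorem isAlgebraic_of_finite_orbit {z : ℂ} {X : Set ℂ} (hX : X.Finite)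
    (h : ∀ s : ℂ ≃+* ℂ, s z ∈ X) : IsAlgebraic ℚ z := by
  by_contra hz
  have hinj : Function.Injective (fun c : ℕ => z + (c : ℂ)) := by
    intro a b hab
    have h1 : z + (a : ℂ) = z + (b : ℂ) := hab
    exact_mod_cast add_left_cancel h1
  obtain ⟨y, ⟨c, hc⟩, hyX⟩ := (Set.infinite_range_of_injective hinj).exists_notMem_finite hX
  have hc' : z + (c : ℂ) = y := hc
  have hy : Transcendental ℚ y := by
    intro hal
    apply hz
    have h4 : IsAlgebraic ℚ ((c : ℂ)) := by
      have : ((c : ℂ)) = algebraMap ℚ ℂ (c : ℚ) := by simp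
      rw [this]; exact isAlgebraic_algebraMap _
    have h5 := hal.sub h4
    rwa [← hc', add_sub_cancel_right] at h5
  let gx : Polynomial ℚ →+* ℂ := (Polynomial.aeval z : Polynomial ℚ →ₐ[ℚ] ℂ).toRingHom
  let gy : Polynomial ℚ →+* ℂ := (Polynomial.aeval y : Polynomial ℚ →ₐ[ℚ] ℂ).toRingHom
  have hxi : Function.Injective gx := transcendental_iff_injective.mp hz
  have hyi : Function.Injective gy := transcendental_iff_injective.mp hy
  let k := FractionRing (Polynomial ℚ)
  let i : k →+* ℂ := IsFractionRing.lift hxi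
  let j : k →+* ℂ := IsFractionRing.lift hyi
  have hk : #k ≤ ℵ₀ := by
    rw [IsFractionRing.cardinalMk (Polynomial ℚ) k]
    refine Polynomial.cardinalMk_le_max.trans (max_le ?_ le_rfl)
    exact Cardinal.mk_le_aleph0
  obtain ⟨s, hs⟩ := exists_aut_extending hk i j
  have h1 := hs (algebraMap (Polynomial ℚ) k Polynomial.X)
  have h2 : i (algebraMap (Polynomial ℚ) k Polynomial.X) = z := by
    rw [IsFractionRing.lift_algebraMap hxi Polynomial.X]
    exact Polynomial.aeval_X z
  have h3 : j (algebraMap (Polynomial ℚ) k Polynomial.X) = y := by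
    rw [IsFractionRing.lift_algebraMap hyi Polynomial.X]
    exact Polynomial.aeval_X y
  rw [h2, h3] at h1
  exact hyX (h1 ▸ h s)

/-- An algebraic number outside `E` is moved by an automorphism of `ℂ` that fixes `E`.
Proof: the minimal polynomial of `z` over `E` has degree `≥ 2` (`z ∉ E`:
`minpoly.natDegree_eq_one_iff`/`minpoly.mem_range_of_degree_eq_one`) and is separable (char 0), so it
has a second root `z' ≠ z` in `ℂ`. There are two `E`-embeddings `E(z) → ℂ` with `z ↦ z` and `z ↦ z'`
(`IntermediateField.adjoin.powerBasis`/`IntermediateField.algHomAdjoinIntegralEquiv`), `E(z)` is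
countable (algebraic over `ℚ`: `Algebra.IsAlgebraic.cardinalMk_le_max`, see `countable_of_finite` in
`FieldOfDef.lean`), and `exists_aut_extending` gives `s`. -/
theorem exists_aut_of_notMem (E : IntermediateField ℚ ℂ) [FiniteDimensional ℚ E] {z : ℂ}
    (hz : IsAlgebraic ℚ z) (hzE : z ∉ E) : ∃ s : ℂ ≃+* ℂ, (∀ x ∈ E, s x = x) ∧ s z ≠ z := by
  have hint : IsIntegral E z := hz.isIntegral.tower_top
  obtain ⟨z', hz', hne⟩ : ∃ z', z' ∈ (minpoly E z).aroots ℂ ∧ z' ≠ z := by
    by_contra hcon
    push Not at hcon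
    apply hzE
    have hsep : (minpoly E z).Separable := (minpoly.irreducible hint).separable
    have hcard := Polynomial.card_rootSet_eq_natDegree (K := ℂ) hsep
      (IsAlgClosed.splits ((minpoly E z).map (algebraMap E ℂ)))
    have hsub : (minpoly E z).rootSet ℂ ⊆ {z} := by
      intro y hy
      rw [Polynomial.mem_rootSet] at hy
      exact hcon y (Polynomial.mem_aroots.2 hy)
    have hle : (minpoly E z).natDegree ≤ 1 := by
      rw [← hcard]
      have := Fintype.card_le_of_injective
        (fun x : (minpoly E z).rootSet ℂ => (⟨x.1, hsub x.2⟩ : ({z} : Set ℂ)))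
        (fun a b hab => by
          apply Subtype.ext
          have h1 := congrArg Subtype.val hab
          exact h1)
      simpa using this
    have hdeg : (minpoly E z).degree = 1 := by
      have h1 := minpoly.natDegree_pos hint
      have h2 : (minpoly E z).natDegree = 1 := by omega
      exact (Polynomial.degree_eq_iff_natDegree_eq_of_pos one_pos).2 h2
    obtain ⟨x, hx⟩ := minpoly.mem_range_of_degree_eq_one E z hdeg
    rw [← hx]
    exact x.2
  have hfin : FiniteDimensional E (IntermediateField.adjoin E {z}) :=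
    IntermediateField.adjoin.finiteDimensional hint
  have hE : #E ≤ ℵ₀ := by
    refine (Algebra.IsAlgebraic.cardinalMk_le_max ℚ E).trans (max_le ?_ le_rfl)
    exact Cardinal.mk_le_aleph0
  have hk : #(IntermediateField.adjoin E {z}) ≤ ℵ₀ :=
    (Algebra.IsAlgebraic.cardinalMk_le_max E (IntermediateField.adjoin E {z})).trans
      (max_le hE le_rfl)
  let f : IntermediateField.adjoin E {z} →ₐ[E] ℂ :=
    (IntermediateField.algHomAdjoinIntegralEquiv E hint).symm ⟨z', hz'⟩
  have hf : f (IntermediateField.AdjoinSimple.gen E z) = z' :=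
    IntermediateField.algHomAdjoinIntegralEquiv_symm_apply_gen E hint ⟨z', hz'⟩
  obtain ⟨s, hs⟩ := exists_aut_extending hk
    (IntermediateField.val (IntermediateField.adjoin E {z})).toRingHom f.toRingHom
  refine ⟨s, fun x hx => ?_, ?_⟩
  · have h1 := hs (algebraMap E (IntermediateField.adjoin E {z}) ⟨x, hx⟩)
    have h2 : f (algebraMap E (IntermediateField.adjoin E {z}) ⟨x, hx⟩) =
        algebraMap E ℂ ⟨x, hx⟩ := f.commutes _
    exact h1.trans h2
  · have h1 : s z = f (IntermediateField.AdjoinSimple.gen E z) :=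
      hs (IntermediateField.AdjoinSimple.gen E z)
    rw [h1, hf]
    exact hne

/-- A finite set of families stable under the automorphisms of `ℂ` consists of families with
values in a number field.
Proof: choose a finite set `I₀ ⊆ I` of indices such that two elements of the finite set `Λ` that
agree on `I₀` are equal. Each value `lam i` has a finite orbit, so it is algebraic
(`isAlgebraic_of_finite_orbit` with `X = {lam' i | lam' ∈ Λ}`). Let `E = ℚ(lam i, i ∈ I₀)`, a finite
extension (`IntermediateField.finiteDimensional_adjoin` for a finite set of integral elements). If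
some `lam i ∉ E` then `exists_aut_of_notMem` gives `s` that fixes `E` and moves `lam i`; but `s ∘ lam`
is in `Λ` and agrees with `lam` on `I₀`, so `s (lam i) = lam i`. -/
theorem exists_numberField_of_finite {I : Type} (Λ : Set (I → ℂ)) (hΛ : Λ.Finite)
    (hs : ∀ s : ℂ ≃+* ℂ, ∀ lam ∈ Λ, (fun i => s (lam i)) ∈ Λ) {lam : I → ℂ} (hlam : lam ∈ Λ) :
    ∃ E : IntermediateField ℚ ℂ, FiniteDimensional ℚ E ∧ ∀ i, lam i ∈ E := by
  have halg : ∀ i, IsAlgebraic ℚ (lam i) := fun i =>
    isAlgebraic_of_finite_orbit (hΛ.image (fun f : I → ℂ => f i))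
      (fun s => ⟨fun i => s (lam i), hs s lam hlam, rfl⟩)
  let I₀ : Set I := ⋃ p ∈ Λ ×ˢ Λ,
    {i | ∃ h : p.1 ≠ p.2, i = (Function.ne_iff.1 h).choose}
  have hI₀ : I₀.Finite := by
    refine (hΛ.prod hΛ).biUnion fun p _ => Set.Subsingleton.finite ?_
    rintro a ⟨h, rfl⟩ b ⟨h', rfl⟩
    rfl
  have : Finite (lam '' I₀) := (hI₀.image lam).to_subtype
  refine ⟨IntermediateField.adjoin ℚ (lam '' I₀), ?_, ?_⟩
  · apply IntermediateField.finiteDimensional_adjoin
    rintro _ ⟨i, _, rfl⟩
    exact (halg i).isIntegral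
  · have hfd : FiniteDimensional ℚ (IntermediateField.adjoin ℚ (lam '' I₀)) := by
      apply IntermediateField.finiteDimensional_adjoin
      rintro _ ⟨i, _, rfl⟩
      exact (halg i).isIntegral
    intro i
    by_contra hi
    obtain ⟨s, hsE, hsi⟩ := exists_aut_of_notMem _ (halg i) hi
    by_cases heq : (fun i => s (lam i)) = lam
    · exact hsi (congrFun heq i)
    · have hmem : (Function.ne_iff.1 heq).choose ∈ I₀ := by
        refine Set.mem_biUnion (x := ((fun i => s (lam i)), lam))
          (Set.mk_mem_prod (hs s lam hlam) hlam) ?_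
        exact ⟨heq, rfl⟩
      have hne := (Function.ne_iff.1 heq).choose_spec
      exact hne (hsE _ (IntermediateField.subset_adjoin ℚ _ ⟨_, hmem, rfl⟩))

end Pool.Agent.Lib.MP_666dc0_nt.WL
end
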