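import Pool.Agent.Lib.MP_666dc0_nt.Mg.G015
import Pool.Agent.Lib.MP_666dc0_nt.Mg.G042
import Pool.Agent.Lib.MP_666dc0_nt.Mg.G046
import Pool.Agent.Lib.MP_666dc0_nt.Mg.G047
import Pool.Agent.Lib.MP_666dc0_nt.WL.N2
import Pool.Agent.Lib.MP_666dc0_nt.Mg.G057
import Pool.Agent.Lib.MP_666dc0_nt.Mg.G005

section

open TensorProduct Polynomial
open scoped TensorProduct

namespace Pool.Agent.Lib.MP_666dc0_nt.IG

variable {B : Type} [CommRing B] [IsDomain B] [IsPrincipalIdealRing B] [Algebra B ℚ]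
  [IsFractionRing B ℚ] {O : Type} [CommRing O] [HopfAlgebra B O] {Γ : Type} [Group Γ]
  {A : OverB.HopfAction B Γ O} {n : ℕ}

omit [IsDomain B] [IsPrincipalIdealRing B] [Algebra B ℚ] [IsFractionRing B ℚ] in
private lemma Kk_order (hfin : (Set.range A.act).Finite) (γ : Γ) :
    ∃ m : ℕ, m ≠ 0 ∧ A.act (γ ^ m) = 1 := by
  have h1 : Finite A.act.range := by
    have h3 : Set.range A.act = (A.act.range : Set (O ≃ₐ[B] O)) := by ext; simp
    rw [h3] at hfin
    exact hfin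
  obtain ⟨g, hg⟩ : ∃ g : A.act.range, (g : O ≃ₐ[B] O) = A.act γ := ⟨⟨A.act γ, ⟨γ, rfl⟩⟩, rfl⟩
  refine ⟨orderOf g, (orderOf_pos g).ne', ?_⟩
  have h2 : ((g ^ orderOf g : A.act.range) : O ≃ₐ[B] O) = 1 := by
    rw [pow_orderOf_eq_one]; rfl
  rw [map_pow, ← hg, ← h2]
  rfl

/-- Semisimplicity over `B`. Same proof as `isSemisimpleElt_of_DG` (J14b.lean) with
`OverB.isSemisimpleElt_of_squarefree` (BSemi.lean) for the element `r₀ γ`: for an `OverB.MatRepL` `ρ''` the matrix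
`M = ρ''.ev K (r₀ γ)` satisfies `M ^ (m * a) = ρ''.gm (r₀ ((γ ^ m) ^ a)).left` (`ρ''.pm K (..) = 1` since
`A.act ((γ ^ m) ^ a) = 1`), whose entries are `(r₀ ((γ ^ m) ^ a)).left.hom (ρ''.a i j) =
(r ((γ ^ m) ^ a)).left.hom (1 ⊗ ρ''.a i j)`, in `EXP K` as functions of `a` by `value_mem_EXP` (J14a.lean), so
`DG (M ^ m)` by `DG_of_mem_EXP`, and `DG.exists_squarefree` applies. -/
theorem isSemisimpleElt_of_DG_Z [Module.Free B O] (ρ : MatRep (baseA A) n) (hρ : Faithful ρ)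
    (hfin : (Set.range A.act).Finite) {K : Type} [Field K] [CharZero K] [Algebra ℚ K]
    [Algebra B K] {N : ℕ}
    (hst : ∀ Φ : Set O, Φ.Finite → ∃ Φ' : Set O, Φ'.Finite ∧ Φ ⊆ Φ' ∧ ∀ γ, ∀ f ∈ Φ', A.act γ f ∈ Φ')
    (σ : Γ → Matrix (Fin N) (Fin N) K) (h1 : σ 1 = 1) (hmul : ∀ γ δ, σ (γ * δ) = σ γ * σ δ)
    (r : Γ →* (baseA A).LGroup K) (hr : ∀ γ, (r γ).right = γ)
    (hent : ∀ i j, (fun γ => ρ.ev K (r γ) i j) ∈ FK (baseA A) σ)
    (r₀ : Γ →* A.LGroup K) (hr₀ : ∀ γ, (r₀ γ).right = γ)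
    (hrr : ∀ γ (f : O), (r₀ γ).left.hom f = (r γ).left.hom (1 ⊗ₜ[B] f)) {γ : Γ}
    (hd : DG (σ γ)) : A.IsSemisimpleElt (r₀ γ) := by
  obtain ⟨m, hm, hact⟩ := Kk_order hfin γ
  have hbact : (baseA A).act (γ ^ m) = 1 := by
    have h2 : (baseA A).act (γ ^ m) = (baseA A).act 1 := baseA_act_eq A (by rw [hact, map_one])
    rw [h2, map_one]
  refine OverB.isSemisimpleElt_of_squarefree hst ?_
  intro n' ρ''
  apply DG.exists_squarefree hm
  apply DG_of_mem_EXP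
  intro i j
  have h2 := value_mem_EXP ρ hρ σ h1 hmul r hr hent hbact (DG_pow σ h1 hmul hd m)
    (1 ⊗ₜ[B] ρ''.a i j)
  have h3 : (fun a : ℕ => ((ρ''.ev K (r₀ γ) ^ m) ^ a) i j) =
      fun a : ℕ => (r ((γ ^ m) ^ a)).left.hom (1 ⊗ₜ[B] ρ''.a i j) := by
    funext a
    rw [← map_pow, ← map_pow, ← map_pow, ← map_pow, ← hrr]
    rw [OverB.MatRep.ev_apply, hr₀, ρ''.toMatRep.pm_one (by rw [map_pow, hact, one_pow]), mul_one]
    rfl
  rw [h3]
  exact h2

end Pool.Agent.Lib.MP_666dc0_nt.IG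
end

section

open NumberField IsDedekindDomain
open scoped NumberField

namespace Pool.Agent.Lib.MP_666dc0_nt.WL

/-!
# WL, N5: the Hecke eigenvalues of an eigenform are in a number field
-/

variable {F : Type} [Field F] [NumberField F] {n : ℕ} {D : Datum F n}

/-- The systems of eigenvalues, restricted to the places outside `S`, of the forms of degree `≤ d`
and of level `V` are finite in number.
Proof: `finite_eigensystems` for `I = Σ v : {v // v ∉ S}, Hecke U v`, `T i = actL i.2` and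
`W = forms D (polyLE D d) V` (finite dimensional: `finiteDimensional_polyLE`,
`finiteDimensional_forms`). -/
theorem finite_sys [IsTotallyReal F] (hD : IsTotPosDef D.q) {U : Subgroup D.Ad}
    (S : Finset (HeightOneSpectrum (𝓞 F))) (d : ℕ) (V : Subgroup D.Ad)
    (hV : IsOpen (V : Set D.Ad)) :
    {m : (Σ v : {v : HeightOneSpectrum (𝓞 F) // v ∉ S}, Hecke U v.1) → ℂ |
      ∃ lam ∈ Sys (U := U) S (polyLE D d) V, m = fun i => lam i.1.1 i.2}.Finite := by
  have h1 : FiniteDimensional ℂ (polyLE D d) := finiteDimensional_polyLE d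
  have h2 : FiniteDimensional ℂ (forms D (polyLE D d) V) :=
    finiteDimensional_forms hD (polyLE D d) V hV
  refine (finite_eigensystems (k := ℂ) (M := D.Ad → D.Cpx → ℂ)
    (I := Σ v : {v : HeightOneSpectrum (𝓞 F) // v ∉ S}, Hecke U v.1)
    (fun i => actL i.2) (forms D (polyLE D d) V)).subset ?_
  rintro m ⟨lam, ⟨f, hf0, hf, he⟩, rfl⟩
  exact ⟨f, hf, hf0, fun i => he i.1.1 i.1.2 i.2⟩

/-- Part (1) of the Buzzard-Gee statement: the eigenvalues are in a number field.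
Proof: `exists_degree` (with `Q = polyFun`) gives `d` with `lam ∈ Sys S (polyLE D d) V`
(`polyLE_le_polyFun`, monotonicity of `IsForm` in `Q`: the conditions `left`, `right` do not mention
`Q`). Apply `exists_numberField_of_finite` to the set of `finite_sys`, stable by `sys_conj`. -/
theorem exists_numberField [IsTotallyReal F] (hD : IsTotPosDef D.q) {U : Subgroup D.Ad}
    (S : Finset (HeightOneSpectrum (𝓞 F))) (V : Subgroup D.Ad) (hV : IsOpen (V : Set D.Ad))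
    {lam : ∀ v, Hecke U v → ℂ} (hlam : lam ∈ Sys S (Subalgebra.toSubmodule (polyFun D)) V) :
    ∃ E : IntermediateField ℚ ℂ, FiniteDimensional ℚ E ∧ ∀ v, v ∉ S → ∀ h, lam v h ∈ E := by
  obtain ⟨f, hf0, hf, he⟩ := hlam
  obtain ⟨d, hd⟩ := exists_degree hD le_rfl hV hf
  have hd' : IsForm D (polyLE D d) V f :=
    ⟨fun g => (Submodule.mem_inf.1 (hd.mem g)).2, hd.left, hd.right⟩
  obtain ⟨E, hE, hE'⟩ := exists_numberField_of_finite
    {m : (Σ v : {v : HeightOneSpectrum (𝓞 F) // v ∉ S}, Hecke U v.1) → ℂ |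
      ∃ lam ∈ Sys (U := U) S (polyLE D d) V, m = fun i => lam i.1.1 i.2}
    (finite_sys hD S d V hV)
    (by
      rintro s m ⟨lam', hlam', rfl⟩
      exact ⟨_, sys_conj s hlam', rfl⟩)
    (lam := fun i => lam i.1.1 i.2) ⟨lam, ⟨f, hf0, hd', he⟩, rfl⟩
  exact ⟨E, hE, fun v hv h => hE' ⟨⟨v, hv⟩, h⟩⟩

end Pool.Agent.Lib.MP_666dc0_nt.WL
end
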