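import Mathlib
import Pool.Agent.Lib.MP_666dc0_nt.Mg.G067

section

/-!
# EP, C6c: the Hopf trace formula
-/

namespace Pool.Agent.Lib.MP_666dc0_nt.EP

variable {L : Type} [Field L]

private theorem C6c_congr {W : Type} [AddCommGroup W] [Module L W] (τ : Module.End L W)
    {S S' : Submodule L W} (h : S = S') (hS : ∀ w ∈ S, τ w ∈ S) (hS' : ∀ w ∈ S', τ w ∈ S') :
    LinearMap.trace L _ (τ.restrict hS) = LinearMap.trace L _ (τ.restrict hS') := by
  subst h; rfl

private theorem C6c_bot {W : Type} [AddCommGroup W] [Module L W] (τ : Module.End L W)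
    {S : Submodule L W} (h : S = ⊥) (hS : ∀ w ∈ S, τ w ∈ S) :
    LinearMap.trace L _ (τ.restrict hS) = 0 := by
  subst h
  have h1 : τ.restrict hS = 0 := by
    apply LinearMap.ext
    intro x
    have hx : (x : W) = 0 := (Submodule.mem_bot L).1 x.2
    apply Subtype.ext
    show τ (x : W) = 0
    rw [hx, map_zero]
  rw [h1, map_zero]

private theorem C6c_tel (b : ℕ → L) (N : ℕ) :
    ∑ n ∈ Finset.range N, (-1) ^ n * (b n + b (n + 1)) = b 0 - (-1) ^ N * b N := by
  induction N with
  | zero => simp
  | succ N ih => rw [Finset.sum_range_succ, ih, pow_succ]; ring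

/-- **Hopf trace formula.** `C 0 → C 1 → …` a complex of finite-dimensional subspaces `C n ≤ W n`
with `C n = 0` for `n ≥ N`; `Z n` the cocycles, `B n ≤ Z n` the coboundaries; `τ` an endomorphism
of the complex. Then the alternating sums of the traces of `τ` on `C n` and on `Z n / B n` agree. -/
theorem hopf_trace (W : ℕ → Type) [∀ n, AddCommGroup (W n)] [∀ n, Module L (W n)]
    (δ : ∀ n, W n →ₗ[L] W (n + 1)) (τ : ∀ n, Module.End L (W n)) (C Z B : ∀ n, Submodule L (W n))
    (hfin : ∀ n, FiniteDimensional L (C n)) (hδC : ∀ n, ∀ u ∈ C n, δ n u ∈ C (n + 1))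
    (hδδ : ∀ n, ∀ u ∈ C n, δ (n + 1) (δ n u) = 0) (hτC : ∀ n, ∀ u ∈ C n, τ n u ∈ C n)
    (hτδ : ∀ n, ∀ u ∈ C n, δ n (τ n u) = τ (n + 1) (δ n u))
    (hZ : ∀ n, Z n = C n ⊓ LinearMap.ker (δ n)) (hB0 : B 0 = ⊥)
    (hB : ∀ n, B (n + 1) = (C n).map (δ n)) (N : ℕ) (hN : ∀ n, N ≤ n → C n = ⊥)
    (hτZ : ∀ n, ∀ u ∈ Z n, τ n u ∈ Z n)
    (hτB : ∀ n, (B n).submoduleOf (Z n) ≤
      ((B n).submoduleOf (Z n)).comap ((τ n).restrict (hτZ n))) :
    ∑ n ∈ Finset.range N, (-1) ^ n * LinearMap.trace L _ ((τ n).restrict (hτC n)) =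
      ∑ n ∈ Finset.range N, (-1) ^ n * LinearMap.trace L _
        (Submodule.mapQ _ _ ((τ n).restrict (hτZ n)) (hτB n)) := by
  have hBZ : ∀ n, B n ≤ Z n := by
    intro n
    cases n with
    | zero => rw [hB0]; exact bot_le
    | succ n =>
      rw [hB, hZ]
      rintro _ ⟨u, hu, rfl⟩
      exact ⟨hδC n u hu, LinearMap.mem_ker.2 (hδδ n u hu)⟩
  have hτBn : ∀ n, ∀ u ∈ B n, τ n u ∈ B n := by
    intro n
    cases n with
    | zero =>
      intro u hu
      rw [hB0] at hu ⊢
      rw [(Submodule.mem_bot L).1 hu, map_zero]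
      exact Submodule.zero_mem _
    | succ n =>
      intro u hu
      rw [hB] at hu ⊢
      obtain ⟨v, hv, rfl⟩ := hu
      exact ⟨τ n v, hτC n v hv, hτδ n v hv⟩
  have hZC : ∀ n, Z n ≤ C n := fun n => by rw [hZ]; exact inf_le_left
  have hfZ : ∀ n, FiniteDimensional L (Z n) := fun n => by
    have := hfin n
    exact Submodule.finiteDimensional_of_le (hZC n)
  let b : ℕ → L := fun n => LinearMap.trace L _ ((τ n).restrict (hτBn n))
  have key : ∀ n, LinearMap.trace L _ ((τ n).restrict (hτC n)) =
      LinearMap.trace L _ (Submodule.mapQ _ _ ((τ n).restrict (hτZ n)) (hτB n)) +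
        (b n + b (n + 1)) := by
    intro n
    have := hfin n
    have := hfZ n
    have hk : ∀ w ∈ C n ⊓ LinearMap.ker (δ n), τ n w ∈ C n ⊓ LinearMap.ker (δ n) := by
      rw [← hZ]; exact hτZ n
    have hr : ∀ w ∈ (C n).map (δ n), τ (n + 1) w ∈ (C n).map (δ n) := by
      rw [← hB]; exact hτBn (n + 1)
    have h1 := trace_restrict_ker_add (δ n) (τ n) (τ (n + 1)) (C n) (hτC n) (hτδ n) hk hr
    rw [h1, C6c_congr (τ n) (hZ n).symm hk (hτZ n),
      C6c_congr (τ (n + 1)) (hB n).symm hr (hτBn (n + 1)),
      trace_restrict_eq_add (τ n) (Z n) (B n) (hBZ n) (hτZ n) (hτBn n) (hτB n)]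
    simp only [b]
    ring
  have hb0 : b 0 = 0 := C6c_bot (τ 0) hB0 (hτBn 0)
  have hbN : b N = 0 := by
    apply C6c_bot (τ N) _ (hτBn N)
    rw [eq_bot_iff, ← hN N le_rfl]
    exact (hBZ N).trans (hZC N)
  have h2 := C6c_tel b N
  rw [hb0, hbN, mul_zero, sub_zero] at h2
  rw [← add_zero (∑ n ∈ Finset.range N, (-1) ^ n * LinearMap.trace L _
        (Submodule.mapQ _ _ ((τ n).restrict (hτZ n)) (hτB n))), ← h2, ← Finset.sum_add_distrib]
  apply Finset.sum_congr rfl
  intro n _
  rw [key n]
  ring

end Pool.Agent.Lib.MP_666dc0_nt.EP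
end

section

/-!
# EP, G2a: joint generalised eigenspaces
-/

namespace Pool.Agent.Lib.MP_666dc0_nt.EP

variable {R L I H : Type} [CommRing R] [Field L] [IsAlgClosed L] [Algebra R L] [AddCommGroup H]
  [Module L H] [FiniteDimensional L H] (Θ : MvPolynomial I R →+* Module.End L H)
  (hΘ : ∀ r, Θ (MvPolynomial.C r) = algebraMap R L r • LinearMap.id)

/-- The joint generalised eigenspace of the operators `Θ(X_i)` with eigenvalues `y i`. -/
noncomputable def joint (y : I → L) : Submodule L H :=
  ⨅ i, Module.End.maxGenEigenspace (Θ (MvPolynomial.X i)) (y i)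

/-- Joint generalised eigenspaces are stable under operators that commute with all `Θ(X_i)`. -/
theorem map_mem_joint (y : I → L) (τ : Module.End L H)
    (hτ : ∀ i, Commute τ (Θ (MvPolynomial.X i))) {u : H} (hu : u ∈ joint Θ y) :
    τ u ∈ joint Θ y := by
  unfold joint at hu ⊢
  rw [Submodule.mem_iInf] at hu ⊢
  intro i
  exact Module.End.mapsTo_maxGenEigenspace_of_comm (hτ i).symm (y i) (hu i)

include hΘ in
/-- On the joint generalised eigenspace the operator `Θ(t) - t(y)` is nilpotent.
Proof: the set of the `t` such that every `u` in the joint eigenspace is killed by some power of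
`Θ(t) - t(y)` contains the constants and the variables and is closed under sums and products
(all operators commute and preserve the joint eigenspace). Finite-dimensionality gives a uniform
power. -/
theorem exists_pow_joint (y : I → L) (t : MvPolynomial I R) :
    ∃ N : ℕ, ∀ u ∈ joint Θ y,
      ((Θ t - MvPolynomial.aeval y t • LinearMap.id) ^ N : Module.End L H) u = 0 := by
  classical
  have hmaps : ∀ t : MvPolynomial I R, ∀ u ∈ joint Θ y, Θ t u ∈ joint Θ y := by
    intro t u hu
    refine map_mem_joint Θ y (Θ t) (fun i => ?_) hu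
    exact (Commute.all t (MvPolynomial.X i)).map Θ
  let Rr : MvPolynomial I R → Module.End L (joint Θ y) := fun t => (Θ t).restrict (hmaps t)
  have Rapp : ∀ t (w : joint Θ y), (Rr t w : H) = Θ t w := fun _ _ => rfl
  have Radd : ∀ p q, Rr (p + q) = Rr p + Rr q := by
    intro p q
    ext w
    rw [Rapp, map_add]
    rfl
  have Rmul : ∀ p q, Rr (p * q) = Rr p * Rr q := by
    intro p q
    ext w
    rw [Rapp, map_mul]
    rfl
  have Rcomm : ∀ p q, Commute (Rr p) (Rr q) := by
    intro p q
    change Rr p * Rr q = Rr q * Rr p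
    rw [← Rmul, ← Rmul, mul_comm]
  let Nn : MvPolynomial I R → Module.End L (joint Θ y) := fun t =>
    Rr t - MvPolynomial.aeval y t • (1 : Module.End L (joint Θ y))
  have Ncomm : ∀ p q, Commute (Rr p) (Nn q) := by
    intro p q
    exact (Rcomm p q).sub_right ((Commute.one_right (Rr p)).smul_right _)
  have Ncomm' : ∀ p q, Commute (Nn p) (Nn q) := by
    intro p q
    exact (Ncomm p q).sub_left ((Commute.one_left (Nn q)).smul_left _)
  have hX : ∀ i, IsNilpotent (Nn (MvPolynomial.X i)) := by
    intro i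
    refine ⟨Module.finrank L H, ?_⟩
    have h1 : ∀ (k : ℕ) (w : joint Θ y), (((Nn (MvPolynomial.X i)) ^ k) w : H) =
        ((Θ (MvPolynomial.X i) - y i • (1 : Module.End L H)) ^ k) (w : H) := by
      intro k
      induction k with
      | zero => intro w; rfl
      | succ k ih =>
        intro w
        rw [pow_succ, pow_succ, Module.End.mul_apply, Module.End.mul_apply, ih]
        congr 1
        change ((Rr (MvPolynomial.X i) w : H) -
          ((MvPolynomial.aeval y (MvPolynomial.X i) • w : joint Θ y) : H)) = _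
        rw [Rapp, MvPolynomial.aeval_X]
        rfl
    apply LinearMap.ext
    intro w
    apply Subtype.ext
    rw [h1]
    have h2 : (w : H) ∈ Module.End.maxGenEigenspace (Θ (MvPolynomial.X i)) (y i) := by
      have := w.2
      unfold joint at this
      rw [Submodule.mem_iInf] at this
      exact this i
    rw [Module.End.maxGenEigenspace_eq_genEigenspace_finrank, Module.End.mem_genEigenspace_nat,
      LinearMap.mem_ker] at h2
    exact h2
  have hall : ∀ t, IsNilpotent (Nn t) := by
    intro t
    induction t using MvPolynomial.induction_on with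
    | C r =>
      have : Nn (MvPolynomial.C r) = 0 := by
        ext w
        change (Rr (MvPolynomial.C r) w : H) -
          ((MvPolynomial.aeval y (MvPolynomial.C r) • w : joint Θ y) : H) = 0
        rw [Rapp, hΘ, MvPolynomial.aeval_C]
        change algebraMap R L r • (w : H) - algebraMap R L r • (w : H) = 0
        rw [sub_self]
      rw [this]
      exact IsNilpotent.zero
    | add p q hp hq =>
      have : Nn (p + q) = Nn p + Nn q := by
        simp only [Nn, Radd, map_add, add_smul]
        abel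
      rw [this]
      exact (Ncomm' p q).isNilpotent_add hp hq
    | mul_X p i hp =>
      have : Nn (p * MvPolynomial.X i) = Rr p * Nn (MvPolynomial.X i) + y i • Nn p := by
        simp only [Nn, Rmul, map_mul, MvPolynomial.aeval_X, mul_sub, smul_sub, mul_smul_comm,
          mul_one, smul_smul]
        rw [mul_comm (y i) (MvPolynomial.aeval y p)]
        abel
      rw [this]
      refine Commute.isNilpotent_add ?_ ?_ ?_
      · exact ((Ncomm p p).mul_left (Ncomm' (MvPolynomial.X i) p)).smul_right _
      · exact (Ncomm p (MvPolynomial.X i)).isNilpotent_mul_left (hX i)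
      · exact hp.smul _
  obtain ⟨N, hN⟩ := hall t
  refine ⟨N, fun u hu => ?_⟩
  have h1 : ∀ (k : ℕ) (w : joint Θ y), (((Nn t) ^ k) w : H) =
      ((Θ t - MvPolynomial.aeval y t • (LinearMap.id : H →ₗ[L] H)) ^ k : Module.End L H)
        (w : H) := by
    intro k
    induction k with
    | zero => intro w; rfl
    | succ k ih =>
      intro w
      rw [pow_succ, pow_succ, Module.End.mul_apply, Module.End.mul_apply, ih]
      rfl
  have h2 := h1 N ⟨u, hu⟩
  rw [hN] at h2
  exact h2.symm

end Pool.Agent.Lib.MP_666dc0_nt.EP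
end

section

/-!
# EP, G2b: the decomposition into joint generalised eigenspaces
-/

namespace Pool.Agent.Lib.MP_666dc0_nt.EP

variable {R L I H : Type} [CommRing R] [Field L] [IsAlgClosed L] [Algebra R L] [AddCommGroup H]
  [Module L H] [FiniteDimensional L H] (Θ : MvPolynomial I R →+* Module.End L H)
  (hΘ : ∀ r, Θ (MvPolynomial.C r) = algebraMap R L r • LinearMap.id)

/-- The whole space is the direct sum of the joint generalised eigenspaces.
(`Module.End.independent_iInf_maxGenEigenspace_of_forall_mapsTo`,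
`Module.End.iSup_iInf_maxGenEigenspace_eq_top_of_forall_mapsTo`.) -/
theorem iSupIndep_joint : iSupIndep (joint (L := L) (H := H) Θ) := by
  refine Module.End.independent_iInf_maxGenEigenspace_of_forall_mapsTo
    (fun i => Θ (MvPolynomial.X i)) fun i j φ => ?_
  exact Module.End.mapsTo_maxGenEigenspace_of_comm
    ((Commute.all (MvPolynomial.X j : MvPolynomial I R) (MvPolynomial.X i)).map Θ) φ

theorem iSup_joint : ⨆ y, joint (L := L) (H := H) Θ y = ⊤ := by
  refine Module.End.iSup_iInf_maxGenEigenspace_eq_top_of_forall_mapsTo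
    (fun i => Θ (MvPolynomial.X i)) (fun i j φ => ?_) fun i =>
      Module.End.iSup_maxGenEigenspace_eq_top _
  exact Module.End.mapsTo_maxGenEigenspace_of_comm
    ((Commute.all (MvPolynomial.X j : MvPolynomial I R) (MvPolynomial.X i)).map Θ) φ

theorem finite_joint : {y | joint (L := L) (H := H) Θ y ≠ ⊥}.Finite :=
  WellFoundedGT.finite_ne_bot_of_iSupIndep (iSupIndep_joint Θ)

end Pool.Agent.Lib.MP_666dc0_nt.EP
end
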