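import Pool.Agent.Lib.MP_666dc0_nt.Mg.G070
import Pool.Agent.Lib.MP_666dc0_nt.Mg.G071
import Pool.Agent.Lib.MP_666dc0_nt.EP.FD3
import Pool.Agent.Lib.MP_666dc0_nt.Mg.G068
import Pool.Agent.Lib.MP_666dc0_nt.EP.G1
import Pool.Agent.Lib.MP_666dc0_nt.EP.G2c

section

/-!
# EP, FD4: the Hopf trace formula for a bounded complex of finitely generated free modules
-/

namespace Pool.Agent.Lib.MP_666dc0_nt.EP

variable {R : Type} {A : Type} [CommRing R] [Group A] {X : Type} [MulAction A X]
  {L : Type} [Field L] [Algebra R L] {C : Cx R A X} {N : ℕ}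

private theorem FD4_fun (hC : C.IsFin N) {V : Type} [AddCommGroup V] [Module L V]
    [FiniteDimensional L V] (ρ : Representation L A V) (n : ℕ) :
    FiniteDimensional L (Fun ρ (C.Y n)) := by
  obtain ⟨r, e, he⟩ := hC.exists_equiv n
  exact EP.finiteDimensional_fun ρ e he

private theorem FD4_bot (hC : C.IsFin N) {V : Type} [AddCommGroup V] [Module L V]
    (ρ : Representation L A V) (n : ℕ) (hn : N ≤ n) : Fun ρ (C.Y n) = ⊥ := by
  have := hC.isEmpty n hn
  rw [Submodule.eq_bot_iff]
  intro f _
  funext y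
  exact isEmptyElim y

/-- Compare `Res.IsFin.finiteDimensional_fun` in EP/C8a.lean. -/
theorem Cx.IsFin.finiteDimensional_H (hC : C.IsFin N) {V : Type} [AddCommGroup V] [Module L V]
    [FiniteDimensional L V] (ρ : Representation L A V) (n : ℕ) :
    FiniteDimensional L (C.H ρ n) := by
  have h1 : FiniteDimensional L (Fun ρ (C.Y n)) := FD4_fun hC ρ n
  have h2 : FiniteDimensional L (C.cocyc ρ n) :=
    Submodule.finiteDimensional_of_le (inf_le_left : C.cocyc ρ n ≤ Fun ρ (C.Y n))
  infer_instance

theorem Cx.IsFin.subsingleton_H (hC : C.IsFin N) {V : Type} [AddCommGroup V] [Module L V]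
    (ρ : Representation L A V) (n : ℕ) (hn : N ≤ n) : Subsingleton (C.H ρ n) := by
  have h1 : C.cocyc ρ n = ⊥ := by
    rw [eq_bot_iff, ← FD4_bot hC ρ n hn]
    exact inf_le_left
  have h2 : Subsingleton (C.cocyc ρ n) := by
    rw [h1]
    infer_instance
  refine ⟨fun a b => ?_⟩
  induction a using Submodule.Quotient.induction_on with
  | H a =>
    induction b using Submodule.Quotient.induction_on with
    | H b => rw [Subsingleton.elim a b]

/-- For a chain endomorphism `g` of `C` there is a finitely supported function `ν : A → R`, depending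
only on `g`, such that the alternating sum of the traces of `g` on the cohomology with coefficients
in `ρ` is `∑ ν(a) tr ρ(a)`, for all finite-dimensional representations `ρ`.
Proof: `hopf_trace` (with `W n = C.Y n → V`, `τ n = pull (g n)`, `C n = Fun ρ (C.Y n)`) and
`exists_trace_formula` in every degree `n < N`; `ν = ∑ (-1)^n ν_n`. Compare EP/C8b.lean. -/
theorem Cx.IsFin.exists_lefschetz (hC : C.IsFin N) {c : (X →₀ R) →ₗ[R] (X →₀ R)}
    {g : ∀ n, (C.Y n →₀ R) →ₗ[R] (C.Y n →₀ R)} (hg : IsMap C C c g) :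
    ∃ ν : A →₀ R, ∀ (V : Type) [AddCommGroup V] [Module L V] [FiniteDimensional L V]
      (ρ : Representation L A V),
        ∑ n ∈ Finset.range N, (-1) ^ n * LinearMap.trace L _ (hg.onH ρ n) =
          ν.sum fun a x => algebraMap R L x * LinearMap.trace L V (ρ a) := by
  have key : ∀ n, ∃ ν : A →₀ R, ∀ (V : Type) [AddCommGroup V] [Module L V]
      [FiniteDimensional L V] (ρ : Representation L A V),
        LinearMap.trace L _ (pullFun ρ (hg.equi n)) =
          ν.sum fun a x => algebraMap R L x * LinearMap.trace L V (ρ a) := by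
    intro n
    obtain ⟨r, e, he⟩ := hC.exists_equiv n
    exact exists_trace_formula e he (hg.equi n)
  choose ν hν using key
  refine ⟨∑ n ∈ Finset.range N, (-1 : R) ^ n • ν n, ?_⟩
  intro V _ _ _ ρ
  have hfin : ∀ n, FiniteDimensional L (Fun ρ (C.Y n)) := fun n => FD4_fun hC ρ n
  have h2 := hopf_trace (L := L) (fun n => C.Y n → V) (fun n => pull L V (C.d n))
    (fun n => pull L V (g n)) (fun n => Fun ρ (C.Y n)) (fun n => C.cocyc ρ n)
    (fun n => C.cobd ρ n) hfin
    (fun n u hu => pull_mem_Fun ρ (C.equi_d n) hu)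
    (fun n u hu => by
      have h3 := pull_comp (L := L) (V := V) (C.d n) (C.d (n + 1))
      rw [C.d_comp_d n, pull_zero] at h3
      exact (LinearMap.congr_fun h3 u).symm)
    (fun n u hu => pull_mem_Fun ρ (hg.equi n) hu)
    (fun n u hu => by
      have h3 := pull_comp (L := L) (V := V) (g n) (C.d n)
      have h4 := pull_comp (L := L) (V := V) (C.d n) (g (n + 1))
      rw [hg.comm_d n] at h4
      exact LinearMap.congr_fun (h3.symm.trans h4) u)
    (fun n => rfl) rfl (fun n => rfl) N (fun n hn => FD4_bot hC ρ n hn)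
    (fun n u hu => hg.pull_mem_cocyc ρ n hu)
    (fun n u hu => hg.pull_mem_cobd ρ n hu)
  have h5 : ∑ n ∈ Finset.range N, (-1 : L) ^ n * LinearMap.trace L _ (hg.onH ρ n) =
      ∑ n ∈ Finset.range N, (-1 : L) ^ n * LinearMap.trace L _ (pullFun ρ (hg.equi n)) :=
    h2.symm
  rw [h5]
  have h6 : ∀ (s : Finset ℕ), (∑ n ∈ s, (-1 : R) ^ n • ν n).sum
      (fun a x => algebraMap R L x * LinearMap.trace L V (ρ a)) =
      ∑ n ∈ s, (-1 : L) ^ n * (ν n).sum
        (fun a x => algebraMap R L x * LinearMap.trace L V (ρ a)) := by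
    intro s
    induction s using Finset.induction_on with
    | empty => simp
    | insert n s hn ih =>
      rw [Finset.sum_insert hn, Finset.sum_insert hn, Finsupp.sum_add_index', ih]
      · congr 1
        rw [Finsupp.sum_smul_index (fun a => by simp), Finsupp.mul_sum]
        refine Finsupp.sum_congr fun a _ => ?_
        rw [map_mul, map_pow, map_neg, map_one, mul_assoc]
      · intro a; simp
      · intro a x y; rw [map_add, add_mul]
  rw [h6]
  exact Finset.sum_congr rfl fun n _ => by rw [hν n V ρ]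

end Pool.Agent.Lib.MP_666dc0_nt.EP
end

section

/-!
# EP, G3b: the action of the polynomial ring on cohomology
-/

namespace Pool.Agent.Lib.MP_666dc0_nt.EP

variable {R : Type} {A : Type} [CommRing R] [Group A] {E X : Type} [MulAction A E] [MulAction A X]
  {I : Type}

variable (θ : MvPolynomial I R →ₐ[R] Module.End R (X →₀ R)) (hθ : ∀ t, Equi A (θ t))
  {L V : Type} [Field L] [Algebra R L] [AddCommGroup V] [Module L V] (ρ : Representation L A V)

/-- The action of the polynomial ring on cohomology. -/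
theorem exists_action_H (P : Res R A X) (n : ℕ) :
    ∃ Θ : MvPolynomial I R →+* Module.End L (P.H ρ n), (∀ t, Θ t = hmap ρ P P (hθ t) n) ∧
      ∀ r, Θ (MvPolynomial.C r) = algebraMap R L r • LinearMap.id := by
  have hcongr : ∀ (c c' : Module.End R (X →₀ R)) (hc : Equi A c) (hc' : Equi A c'), c = c' →
      hmap ρ P P hc n = hmap ρ P P hc' n := by
    intro c c' hc hc' h
    subst h
    rfl
  have hadd : ∀ s t, hmap ρ P P (hθ (s + t)) n = hmap ρ P P (hθ s) n + hmap ρ P P (hθ t) n := by
    intro s t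
    rw [← hmap_add ρ P P (hθ s) (hθ t) n]
    exact hcongr _ _ _ _ (map_add θ s t)
  refine ⟨{
    toFun := fun t => hmap ρ P P (hθ t) n
    map_one' := ?_
    map_mul' := ?_
    map_zero' := ?_
    map_add' := hadd }, fun t => rfl, fun r => ?_⟩
  · have h1 := hmap_id ρ P n
    rw [hcongr (θ 1) LinearMap.id (hθ 1) Equi.id (map_one θ), h1]
    rfl
  · intro s t
    have h1 := hmap_comp ρ P P P (hθ s) (hθ t) n
    rw [hcongr (θ (s * t)) (θ t ∘ₗ θ s) (hθ (s * t)) ((hθ t).comp (hθ s))
      (by rw [mul_comm s t, map_mul]; rfl), h1]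
    rfl
  · have h1 := hadd 0 0
    have h2 : hmap ρ P P (hθ (0 + 0)) n = hmap ρ P P (hθ 0) n :=
      hcongr _ _ _ _ (by rw [add_zero])
    rw [h2] at h1
    exact left_eq_add.1 h1
  · show hmap ρ P P (hθ (MvPolynomial.C r)) n = algebraMap R L r • LinearMap.id
    have h1 : θ (MvPolynomial.C r) = r • LinearMap.id := by
      rw [← MvPolynomial.algebraMap_eq, AlgHom.commutes, Algebra.algebraMap_eq_smul_one]
      rfl
    rw [hcongr _ _ (hθ (MvPolynomial.C r)) (Equi.smul r Equi.id) h1,
      hmap_smul ρ P P r Equi.id n, hmap_id]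

end Pool.Agent.Lib.MP_666dc0_nt.EP
end

section

/-!
# EP, FD6: the Euler characteristics as coefficients of the trace
-/

namespace Pool.Agent.Lib.MP_666dc0_nt.EP

variable {R : Type} {A : Type} [CommRing R] [Group A] {E X : Type} [MulAction A E] [MulAction A X]
  {I : Type}

variable (θ : MvPolynomial I R →ₐ[R] Module.End R (X →₀ R)) (hθ : ∀ t, Equi A (θ t))
  {L V : Type} [Field L] [Algebra R L] [AddCommGroup V] [Module L V] (ρ : Representation L A V)

/-- **The trace in terms of the Euler characteristics**, for finite-dimensional cohomology. -/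
theorem exists_trace_euler_fd [Nonempty E]
    (hfree : ∀ (a : A) (e : E) (x : X), a • e = e → a • x = x → a = 1) [IsAlgClosed L]
    (P : Res R A X) {N : ℕ} (hP : ∀ (P' : Res R A X) (n : ℕ),
      FiniteDimensional L (P'.H ρ n) ∧ (N ≤ n → Subsingleton (P'.H ρ n))) :
    ∃ s : Finset (I → L),
      (∀ y, y ∈ s ↔ eulerMult ρ E (fun i => θ (MvPolynomial.X i)) y ≠ 0) ∧
      ∀ t : MvPolynomial I R, ∑ n ∈ Finset.range N,
        (-1) ^ n * LinearMap.trace L _ (hmap ρ P P (hθ t) n) =
        ∑ y ∈ s, (eulerMult ρ E (fun i => θ (MvPolynomial.X i)) y : L) *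
          MvPolynomial.aeval y t := by
  classical
  have hc : ∀ i : I, Equi A (θ (MvPolynomial.X i)) := fun i => hθ _
  have hfd : ∀ n, FiniteDimensional L ((Res.std R A E X hfree).H ρ n) :=
    fun n => (hP _ n).1
  choose Θ hΘ hΘC using fun n => exists_action_H θ hθ ρ (Res.std R A E X hfree) n
  have hmult : ∀ (n : ℕ) (y : I → L), mult ρ E (fun i => θ (MvPolynomial.X i)) y n =
      Module.finrank L (joint (Θ n) y) := by
    intro n y
    rw [mult_eq hfree ρ _ hc]
    have h1 : (⨅ i, Module.End.maxGenEigenspace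
        ((isLift_ext (E := E) hfree (hc i)).onH ρ n) (y i) : Submodule L _) =
        joint (Θ n) y := by
      unfold joint
      refine iInf_congr fun i => ?_
      rw [hΘ, hmap_eq ρ _ (isLift_ext (E := E) hfree (hc i))]
    rw [h1]
  have hmult0 : ∀ (n : ℕ) (y : I → L), N ≤ n →
      mult ρ E (fun i => θ (MvPolynomial.X i)) y n = 0 := by
    intro n y hn
    rw [hmult]
    have := (hP (Res.std R A E X hfree) n).2 hn
    exact Module.finrank_zero_of_subsingleton
  have heuler : ∀ y : I → L, eulerMult ρ E (fun i => θ (MvPolynomial.X i)) y =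
      ∑ n ∈ Finset.range N, (-1) ^ n *
        (mult ρ E (fun i => θ (MvPolynomial.X i)) y n : ℤ) := by
    intro y
    unfold eulerMult
    apply finsum_eq_sum_of_support_subset
    intro n hn
    rw [Finset.coe_range, Set.mem_Iio]
    by_contra h
    apply hn
    show (-1) ^ n * (mult ρ E (fun i => θ (MvPolynomial.X i)) y n : ℤ) = 0
    rw [hmult0 n y (not_lt.1 h), Nat.cast_zero, mul_zero]
  have hfin : (⋃ n ∈ Finset.range N, {y | joint (Θ n) y ≠ ⊥}).Finite :=
    Set.Finite.biUnion (Finset.range N).finite_toSet fun n _ => finite_joint (Θ n)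
  have hmem : ∀ n ∈ Finset.range N, ∀ y, joint (Θ n) y ≠ ⊥ → y ∈ hfin.toFinset := by
    intro n hn y hy
    rw [Set.Finite.mem_toFinset]
    exact Set.mem_biUnion hn hy
  refine ⟨hfin.toFinset.filter fun y =>
    eulerMult ρ E (fun i => θ (MvPolynomial.X i)) y ≠ 0, ?_, ?_⟩
  · intro y
    rw [Finset.mem_filter]
    refine ⟨fun h => h.2, fun h => ⟨?_, h⟩⟩
    rw [heuler] at h
    obtain ⟨n, hn, hne⟩ := Finset.exists_ne_zero_of_sum_ne_zero h
    apply hmem n hn y
    intro hbot
    apply hne
    rw [hmult, hbot, finrank_bot, Nat.cast_zero, mul_zero]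
  · intro t
    have h1 : ∀ n ∈ Finset.range N, (-1 : L) ^ n * LinearMap.trace L _ (hmap ρ P P (hθ t) n) =
        ∑ y ∈ hfin.toFinset, (-1 : L) ^ n *
          ((mult ρ E (fun i => θ (MvPolynomial.X i)) y n : L) * MvPolynomial.aeval y t) := by
      intro n hn
      rw [trace_hmap ρ P (Res.std R A E X hfree) (hθ t) n, ← hΘ,
        trace_eq_sum_joint (Θ n) (hΘC n) hfin.toFinset (hmem n hn) t, Finset.mul_sum]
      refine Finset.sum_congr rfl fun y _ => ?_
      rw [hmult]
    rw [Finset.sum_congr rfl h1, Finset.sum_comm, Finset.sum_filter]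
    refine Finset.sum_congr rfl fun y _ => ?_
    have h2 : ∑ n ∈ Finset.range N, (-1 : L) ^ n *
        ((mult ρ E (fun i => θ (MvPolynomial.X i)) y n : L) * MvPolynomial.aeval y t) =
        (eulerMult ρ E (fun i => θ (MvPolynomial.X i)) y : L) * MvPolynomial.aeval y t := by
      rw [heuler]
      push_cast
      rw [Finset.sum_mul]
      exact Finset.sum_congr rfl fun n _ => (mul_assoc _ _ _).symm
    rw [h2]
    split_ifs with h3
    · rfl
    · rw [not_not] at h3
      rw [h3, Int.cast_zero, zero_mul]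

end Pool.Agent.Lib.MP_666dc0_nt.EP
end
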