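import Pool.Agent.Lib.MP_666dc0_nt.EC.B1
import Pool.Agent.Lib.MP_666dc0_nt.EC.B2
import Pool.Agent.Lib.MP_666dc0_nt.Mg.G058
import Pool.Agent.Lib.MP_666dc0_nt.EP.T2b
import Pool.Agent.Lib.MP_666dc0_nt.EP.T9a
import Pool.Agent.Lib.MP_666dc0_nt.EP.T4
import Pool.Agent.Lib.MP_666dc0_nt.EH.A1
import Pool.Agent.Lib.MP_666dc0_nt.EH.C1

section

/-!
# EC, B3: cochains
-/

open NumberField IsDedekindDomain
open scoped NumberField

namespace Pool.Agent.Lib.MP_666dc0_nt.EC

open WL EP

variable {F : Type} [Field F] [NumberField F] {n : ℕ} {D : Datum F n} {ℓ : ℕ} [Fact ℓ.Prime]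
  (L : Level D ℓ) (V : Weight D) (s : SmRep L.K) (m : ℕ)

/-- The functions on the simplices as functions on `G(F)^{m+1} × G(𝔸_f)`. -/
noncomputable def unf : (Simp L.E L.X m → (pairC L V s).W) →ₗ[ℂ] Coch V s m where
  toFun f e g := f (e, L.cls g)
  map_add' _ _ := rfl
  map_smul' _ _ := rfl

variable {L V s m}

theorem unf_apply (f : Simp L.E L.X m → (pairC L V s).W) (e : Fin (m + 1) → D.Rat) (g : D.Ad) :
    unf L V s m f e g = f (e, L.cls g) := rfl

theorem unf_injective : Function.Injective (unf L V s m) := by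
  intro f f' h
  funext x
  obtain ⟨e, x⟩ := x
  obtain ⟨g, rfl⟩ := L.exists_cls x
  exact congrFun (congrFun h e) g

theorem isCochain_unf {f : Simp L.E L.X m → (pairC L V s).W} :
    IsCochain L.U (unf L V s m f) ↔ f ∈ Fun (pairC L V s).rep (Simp L.E L.X m) := by
  constructor
  · rintro h ⟨γ, k⟩ ⟨e, x⟩
    obtain ⟨g, rfl⟩ := L.exists_cls x
    have h1 := h γ e g 1 L.U.one_mem (k : D.Ad)⁻¹ (L.K.inv_mem k.2)
    rw [mul_one, unf_apply, unf_apply] at h1
    rw [pairC_rep, ← Matrix.mul_assoc]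
    exact h1
  · intro h γ e g u hu k hk
    have h1 := h (γ, (⟨k, hk⟩ : L.K)⁻¹) (e, L.cls g)
    rw [pairC_rep, ← Matrix.mul_assoc] at h1
    have h2 : (((γ, (⟨k, hk⟩ : L.K)⁻¹) : D.Rat × L.K) • ((e, L.cls g) : Simp L.E L.X m)) =
        ((fun i => γ * e i : Fin (m + 1) → D.Rat), L.cls (D.toAd γ * g * u * k)) := by
      refine Prod.ext rfl ?_
      change L.cls (D.toAd γ * g * (((⟨k, hk⟩ : L.K)⁻¹ : L.K) : D.Ad)⁻¹) = _
      have h3 : (((⟨k, hk⟩ : L.K)⁻¹ : L.K) : D.Ad)⁻¹ = k := by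
        rw [Subgroup.coe_inv, inv_inv]
      rw [h3, L.cls_eq_iff]
      have h4 : (D.toAd γ * g * k)⁻¹ * (D.toAd γ * g * u * k) = k⁻¹ * (u * k) := by group
      rw [h4, L.comm hu hk, inv_mul_cancel_left]
      exact hu
    rw [h2] at h1
    have h5 : (((⟨k, hk⟩ : L.K)⁻¹ : L.K) : D.Ad)⁻¹ = k := by
      rw [Subgroup.coe_inv, inv_inv]
    refine Eq.trans h1 ?_
    change V.rho (D.toCpx γ) * unf L V s m f e g * s.sig (((⟨k, hk⟩ : L.K)⁻¹ : L.K) : D.Ad)⁻¹ =
      V.rho (D.toCpx γ) * unf L V s m f e g * s.sig k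
    rw [h5]

theorem exists_unf {z : Coch V s m} (hz : IsCochain L.U z) :
    ∃ f ∈ Fun (pairC L V s).rep (Simp L.E L.X m), unf L V s m f = z := by
  let f : Simp L.E L.X m → (pairC L V s).W := fun y => z y.1 (Quotient.out y.2 : D.Ad)
  have h : unf L V s m f = z := by
    funext e g
    change z e (Quotient.out (L.cls g) : D.Ad) = z e g
    have h1 : (Quotient.out (L.cls g) : D.Ad)⁻¹ * g ∈ L.U := L.cls_eq_iff.1 (L.cls_out _)
    have h2 := hz 1 e (Quotient.out (L.cls g) : D.Ad) _ h1 1 L.K.one_mem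
    rw [map_one, map_one, V.one, s.one, Matrix.one_mul, Matrix.mul_one, one_mul,
      mul_one, mul_inv_cancel_left] at h2
    have h3 : (fun i => 1 * e i) = e := funext fun i => one_mul _
    rw [h3] at h2
    exact h2.symm
  refine ⟨f, ?_, h⟩
  rw [← isCochain_unf, h]
  exact hz

theorem del_unf (f : Simp L.E L.X m → (pairC L V s).W) :
    del (unf L V s m f) = unf L V s (m + 1) (pull ℂ (pairC L V s).W (bd (Zl ℓ) L.E L.X m) f) := by
  funext e g
  change ∑ i : Fin (m + 2), (-1 : ℂ) ^ (i : ℕ) • f ((fun j => e (i.succAbove j)), L.cls g) =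
    (bd (Zl ℓ) L.E L.X m (Finsupp.single (e, L.cls g) 1)).sum fun z r =>
      algebraMap (Zl ℓ) ℂ r • f z
  rw [bd_single, ← Finsupp.sum_finsetSum_index (fun z => by rw [map_zero, zero_smul])
    (fun z r r' => by rw [map_add, add_smul])]
  refine Finset.sum_congr rfl fun i _ => ?_
  rw [Finsupp.sum_single_index (by rw [map_zero, zero_smul]), map_pow, map_neg, map_one]

/-- The operator `T_h - c`. -/
noncomputable def opM {v : HeightOneSpectrum (𝓞 F)} (h : L.Hecke v) (c : ℂ) :
    Module.End ℂ (Simp L.E L.X m → (pairC L V s).W) :=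
  pull ℂ (pairC L V s).W (ext (E := L.E) m (L.op h)) - c • LinearMap.id

theorem pull_ext {v : HeightOneSpectrum (𝓞 F)} (h : L.Hecke v)
    (f : Simp L.E L.X m → (pairC L V s).W) (e : Fin (m + 1) → L.E) (x : L.X) :
    pull ℂ (pairC L V s).W (ext (E := L.E) m (L.op h)) f (e, x) =
      pull ℂ (pairC L V s).W (L.op h) (fun x => f (e, x)) x := by
  change ((ext m (L.op h) (Finsupp.single (e, x) 1)).sum fun z r =>
    algebraMap (Zl ℓ) ℂ r • f z) = (L.op h (Finsupp.single x 1)).sum fun z r =>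
    algebraMap (Zl ℓ) ℂ r • f (e, z)
  rw [ext_single, Finsupp.sum_mapDomain_index (fun z => by rw [map_zero, zero_smul])
    (fun z r r' => by rw [map_add, add_smul])]

theorem opSub_unf {v : HeightOneSpectrum (𝓞 F)}
    (hv : ∀ u ∈ L.U, ∃ a ∈ L.U, a ∈ locSub D v ∧ TrivialAt v (a⁻¹ * u)) (h : L.Hecke v) (c : ℂ)
    (f : Simp L.E L.X m → (pairC L V s).W) :
    opSub (toW L h) c (unf L V s m f) = unf L V s m (opM h c f) := by
  funext e g
  change (toW L h).act (fun g => f (e, L.cls g)) g - c • f (e, L.cls g) =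
    pull ℂ (pairC L V s).W (ext (E := L.E) m (L.op h)) f (e, L.cls g) - c • f (e, L.cls g)
  rw [pull_ext, pull_op L hv]

theorem iter_unf {v : HeightOneSpectrum (𝓞 F)}
    (hv : ∀ u ∈ L.U, ∃ a ∈ L.U, a ∈ locSub D v ∧ TrivialAt v (a⁻¹ * u)) (h : L.Hecke v) (c : ℂ)
    (k : ℕ) (f : Simp L.E L.X m → (pairC L V s).W) :
    (opSub (toW L h) c)^[k] (unf L V s m f) = unf L V s m ((opM h c ^ k) f) := by
  induction k with
  | zero => rfl
  | succ k ih => rw [Function.iterate_succ_apply', ih, opSub_unf hv, pow_succ', Module.End.mul_apply]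

theorem isCob_unf {f : Simp L.E L.X m → (pairC L V s).W} :
    IsCob L.U (unf L V s m f) ↔ f ∈ cobd (Zl ℓ) (pairC L V s).rep L.E L.X m := by
  cases m with
  | zero =>
    change unf L V s 0 f = 0 ↔ f = 0
    constructor
    · intro h
      apply unf_injective
      rw [h, map_zero]
    · intro h
      rw [h, map_zero]
  | succ m =>
    change (∃ y, IsCochain L.U y ∧ unf L V s (m + 1) f = del y) ↔
      f ∈ (Fun (pairC L V s).rep (Simp L.E L.X m)).map (pull ℂ _ (bd (Zl ℓ) L.E L.X m))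
    constructor
    · rintro ⟨y, hy, h⟩
      obtain ⟨f', hf', rfl⟩ := exists_unf hy
      refine ⟨f', hf', ?_⟩
      apply unf_injective
      rw [h, del_unf]
    · rintro ⟨f', hf', rfl⟩
      exact ⟨_, isCochain_unf.2 hf', (del_unf f').symm⟩

theorem exists_unf_of_isCob {z : Coch V s m} (hz : IsCob L.U z) :
    ∃ f ∈ cobd (Zl ℓ) (pairC L V s).rep L.E L.X m, unf L V s m f = z := by
  have h : ∃ f, unf L V s m f = z := by
    cases m with
    | zero =>
      refine ⟨0, ?_⟩
      rw [map_zero]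
      exact hz.symm
    | succ m =>
      obtain ⟨y, hy, rfl⟩ := hz
      obtain ⟨f', -, rfl⟩ := exists_unf hy
      exact ⟨_, (del_unf f').symm⟩
  obtain ⟨f, rfl⟩ := h
  exact ⟨f, isCob_unf.1 hz, rfl⟩

/-- The coboundaries are stable. -/
theorem opM_mem_cobd {v : HeightOneSpectrum (𝓞 F)} (h : L.Hecke v)
    (hv : Equi (D.Rat × L.K) (L.op h)) (c : ℂ)
    {f : Simp L.E L.X m → (pairC L V s).W} (hf : f ∈ cobd (Zl ℓ) (pairC L V s).rep L.E L.X m) :
    opM h c f ∈ cobd (Zl ℓ) (pairC L V s).rep L.E L.X m := by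
  change pull ℂ (pairC L V s).W (ext (E := L.E) m (L.op h)) f - c • f ∈ _
  refine Submodule.sub_mem _ ?_ (Submodule.smul_mem _ _ hf)
  cases m with
  | zero =>
    have h1 : f = 0 := hf
    rw [h1, map_zero]
    exact Submodule.zero_mem _
  | succ m =>
    obtain ⟨f', hf', rfl⟩ := hf
    refine ⟨pull ℂ (pairC L V s).W (ext (E := L.E) m (L.op h)) f',
      pull_mem_Fun _ (equi_ext m hv) hf', ?_⟩
    have h1 := congrArg (fun c => pull ℂ (pairC L V s).W c f') (bd_comp_ext (E := L.E) m (L.op h))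
    simp only [pull_comp] at h1
    exact h1.symm

end Pool.Agent.Lib.MP_666dc0_nt.EC
end

section

/-!
# EC, B4: the Euler characteristics
-/

open NumberField IsDedekindDomain
open scoped NumberField

namespace Pool.Agent.Lib.MP_666dc0_nt.EC

open WL EP

variable {F : Type} [Field F] [NumberField F] {n : ℕ} {D : Datum F n} {ℓ : ℕ} [Fact ℓ.Prime]
  {L : Level D ℓ} {V : Weight D} {s : SmRep L.K} {m : ℕ}

/-- The eigensystem on the `ℓ`-integral Hecke functions. -/
noncomputable def toD (L : Level D ℓ) (S : Finset (HeightOneSpectrum (𝓞 F)))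
    (lam : ∀ v, Hecke L.U v → ℂ) : Idx L S → ℂ :=
  fun i => lam i.1.1 (toW L i.2)

theorem isGen_unf {S : Finset (HeightOneSpectrum (𝓞 F))}
    (hSl : ∀ v : HeightOneSpectrum (𝓞 F), (ℓ : 𝓞 F) ∈ v.asIdeal → v ∈ S)
    (hgood : ∀ v, v ∉ S → IsGoodAt L.U v) (lam : ∀ v, Hecke L.U v → ℂ)
    {f : Simp L.E L.X m → (pairC L V s).W} :
    IsGen ℓ S lam (unf L V s m f) ↔
      f ∈ genCocyc (pairC L V s).rep L.E (fun i : Idx L S => L.op i.2) (toD L S lam) m := by
  have hequi : ∀ i : Idx L S, Equi (D.Rat × L.K) (L.op i.2) := fun i =>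
    L.equi_op (isGoodAt L (hgood i.1.1 i.1.2)) (fun h' => i.1.2 (hSl i.1.1 h')) i.2
  unfold IsGen genCocyc cocyc
  rw [isCochain_unf, del_unf, Submodule.mem_inf, Submodule.mem_inf, Submodule.mem_iInf,
    LinearMap.mem_ker, and_assoc]
  refine and_congr Iff.rfl (and_congr ?_ ?_)
  · constructor
    · intro h
      apply unf_injective
      rw [h, map_zero]
    · intro h
      rw [h, map_zero]
  · have hmem : ∀ i : Idx L S, (f ∈ ⨆ N : ℕ, (cobd (Zl ℓ) (pairC L V s).rep L.E L.X m).comap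
        ((pull ℂ (pairC L V s).W (ext (E := L.E) m (L.op i.2)) -
          toD L S lam i • LinearMap.id) ^ N)) ↔
        ∃ k : ℕ, IsCob L.U ((opSub (toW L i.2) (lam i.1.1 (toW L i.2)))^[k] (unf L V s m f)) := by
      intro i
      have hdir : Directed (· ≤ ·) fun N : ℕ =>
          (cobd (Zl ℓ) (pairC L V s).rep L.E L.X m).comap
            ((opM (V := V) (s := s) (m := m) i.2 (toD L S lam i)) ^ N) := by
        refine Monotone.directed_le (monotone_nat_of_le_succ fun N => ?_)
        intro u hu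
        rw [Submodule.mem_comap] at hu ⊢
        rw [pow_succ', Module.End.mul_apply]
        exact opM_mem_cobd i.2 (hequi i) _ hu
      refine (Submodule.mem_iSup_of_directed _ hdir).trans (exists_congr fun k => ?_)
      rw [Submodule.mem_comap, iter_unf (hgood i.1.1 i.1.2).split, isCob_unf]
      rfl
    constructor
    · intro h i
      rw [hmem i]
      exact h i.1.1 i.1.2 (toW L i.2) (toW_isIntegral L i.2)
    · intro h v hv h' hh'
      have h1 := (hmem ⟨⟨v, hv⟩, ofInt L h' hh'⟩).1 (h _)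
      change ∃ k : ℕ, IsCob L.U ((opSub (toW L (ofInt L h' hh'))
        (lam v (toW L (ofInt L h' hh'))))^[k] (unf L V s m f)) at h1
      rw [toW_ofInt] at h1
      exact h1

theorem cobSpan_eq : cobSpan V s m L.U =
    (cobd (Zl ℓ) (pairC L V s).rep L.E L.X m).map (unf L V s m) := by
  have h : {z | IsCob L.U z} =
      (((cobd (Zl ℓ) (pairC L V s).rep L.E L.X m).map (unf L V s m) :
        Submodule ℂ (Coch V s m)) : Set (Coch V s m)) := by
    ext z
    constructor
    · intro hz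
      obtain ⟨f, hf, rfl⟩ := exists_unf_of_isCob hz
      exact ⟨f, hf, rfl⟩
    · rintro ⟨f, hf, rfl⟩
      exact isCob_unf.2 hf
  unfold cobSpan
  rw [h, Submodule.span_eq]

theorem mult_eq {S : Finset (HeightOneSpectrum (𝓞 F))}
    (hSl : ∀ v : HeightOneSpectrum (𝓞 F), (ℓ : 𝓞 F) ∈ v.asIdeal → v ∈ S)
    (hgood : ∀ v, v ∉ S → IsGoodAt L.U v) (lam : ∀ v, Hecke L.U v → ℂ) :
    mult (U := L.U) V s m ℓ S lam = EP.mult (pairC L V s).rep L.E (fun i : Idx L S => L.op i.2)
      (toD L S lam) m := by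
  let G := genCocyc (pairC L V s).rep L.E (fun i : Idx L S => L.op i.2) (toD L S lam) m
  let B := cobd (Zl ℓ) (pairC L V s).rep L.E L.X m
  let T : G →ₗ[ℂ] (Coch V s m ⧸ cobSpan V s m L.U) :=
    (cobSpan V s m L.U).mkQ ∘ₗ (unf L V s m ∘ₗ G.subtype)
  have h1 : Submodule.Quotient.mk (p := cobSpan V s m L.U) '' {z | IsGen ℓ S lam z} =
      (LinearMap.range T : Set (Coch V s m ⧸ cobSpan V s m L.U)) := by
    ext q
    constructor
    · rintro ⟨z, hz, rfl⟩
      obtain ⟨f, -, rfl⟩ := exists_unf (L := L) hz.1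
      exact ⟨⟨f, (isGen_unf hSl hgood lam).1 hz⟩, rfl⟩
    · rintro ⟨⟨f, hf⟩, rfl⟩
      exact ⟨unf L V s m f, (isGen_unf hSl hgood lam).2 hf, rfl⟩
  have h2 : LinearMap.ker T = B.submoduleOf G := by
    ext ⟨f, hf⟩
    rw [LinearMap.mem_ker]
    change Submodule.Quotient.mk (p := cobSpan V s m L.U) (unf L V s m f) = 0 ↔ f ∈ B
    rw [Submodule.Quotient.mk_eq_zero, cobSpan_eq, Submodule.mem_map]
    constructor
    · rintro ⟨f', hf', h⟩
      rw [← unf_injective h]
      exact hf'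
    · intro h
      exact ⟨f, h, rfl⟩
  unfold mult EP.mult Set.finrank
  rw [h1, Submodule.span_eq]
  change Module.finrank ℂ (LinearMap.range T) = Module.finrank ℂ (G ⧸ B.submoduleOf G)
  rw [← h2]
  exact (LinearEquiv.finrank_eq T.quotKerEquivRange).symm

/-- The Euler characteristics. -/
theorem euler_eq {S : Finset (HeightOneSpectrum (𝓞 F))}
    (hSl : ∀ v : HeightOneSpectrum (𝓞 F), (ℓ : 𝓞 F) ∈ v.asIdeal → v ∈ S)
    (hgood : ∀ v, v ∉ S → IsGoodAt L.U v) (lam : ∀ v, Hecke L.U v → ℂ) :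
    euler (U := L.U) V s ℓ S lam = (pairC L V s).euler S (toD L S lam) := by
  unfold euler Coeff.euler eulerMult
  refine finsum_congr fun m => ?_
  rw [mult_eq hSl hgood]

/-- Every eigensystem on the `ℓ`-integral Hecke functions is induced by one on all Hecke
functions. -/
theorem exists_toD (S : Finset (HeightOneSpectrum (𝓞 F))) (y : Idx L S → ℂ) :
    ∃ lam : ∀ v, Hecke L.U v → ℂ, toD L S lam = y := by
  classical
  refine ⟨fun v h => if hv : v ∉ S then if hh : h.IsIntegral ℓ then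
    y ⟨⟨v, hv⟩, ofInt L h hh⟩ else 0 else 0, ?_⟩
  funext i
  obtain ⟨⟨v, hv⟩, h⟩ := i
  have h1 : ofInt L (toW L h) (toW_isIntegral L h) = h := by
    apply Subtype.ext
    ext c
    rfl
  change (if hv : v ∉ S then if hh : (toW L h).IsIntegral ℓ then
    y ⟨⟨v, hv⟩, ofInt L (toW L h) hh⟩ else 0 else 0) = _
  rw [dif_pos hv, dif_pos (toW_isIntegral L h), h1]

end Pool.Agent.Lib.MP_666dc0_nt.EC
end

section

/-!
# EP, T9b: the character of `K` has values in a finite extension of `ℚ_ℓ`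
-/

open NumberField IsDedekindDomain
open scoped NumberField

namespace Pool.Agent.Lib.MP_666dc0_nt.EP

open WL

variable {F : Type} [Field F] [NumberField F] {n : ℕ} {D : Datum F n} {ℓ : ℕ} [Fact ℓ.Prime]
  {L : Level D ℓ} {ι : ℂ ≃+* PadicAlgCl ℓ}

/-- `sig` has finite image. Proof: `{k | sig k = 1}` is (the carrier of) an open subgroup of the
compact group `K` (`compactSpace_K`), so it has finite index (`Subgroup.quotient_finite_of_isOpen`),
and `sig k` depends only on the coset. -/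
theorem Coeff.finite_range_sig (C : Coeff L) : (Set.range C.sig).Finite := by
  have : CompactSpace L.K := L.compactSpace_K
  let N : Subgroup L.K := MonoidHom.ker C.sig
  have hN : IsOpen (N : Set L.K) := C.smooth
  have : Finite (L.K ⧸ N) := Subgroup.quotient_finite_of_isOpen N hN
  refine (Set.finite_range fun q : L.K ⧸ N => C.sig (Quotient.out q)).subset ?_
  rintro _ ⟨k, rfl⟩
  refine ⟨(k : L.K ⧸ N), ?_⟩
  obtain ⟨h, hh⟩ := QuotientGroup.mk_out_eq_mul N k
  change C.sig (Quotient.out (k : L.K ⧸ N)) = C.sig k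
  rw [hh, map_mul]
  have h1 : C.sig h = 1 := h.2
  rw [h1, mul_one]

/-- Proof: let `b` be a basis of `C.W`. For each of the finitely many operators `s = sig k₀` and each
`j` the function `x ↦ b.coord j (rho x (s (b j)))` is in `polyFun` (`C.alg`), with field `E_{s, j}` from
`exists_field_poly`; take their supremum (`exists_field_sup`). The trace is
`∑ j, b.coord j (rho (hat k) (sig k (b j)))` (`LinearMap.trace_eq_matrix_trace`, or
`LinearMap.trace_eq_sum_...`). -/
theorem Coeff.exists_field (C : Coeff L) (H : HatData F ℓ ι) :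
    ∃ E : IntermediateField ℚ_[ℓ] (PadicAlgCl ℓ), FiniteDimensional ℚ_[ℓ] E ∧
      ∀ k : L.K, ι (LinearMap.trace ℂ C.W (C.rho (H.hat D k) * C.sig k)) ∈ E := by
  have hfin : Finite (Set.range C.sig) := C.finite_range_sig
  let b := Module.finBasis ℂ C.W
  choose E hE1 hE2 using fun i : Set.range C.sig × Fin (Module.finrank ℂ C.W) =>
    exists_field_poly H (C.alg ((i.1 : Module.End ℂ C.W) (b i.2)) (b.coord i.2))
  obtain ⟨E', h1, h2⟩ := exists_field_sup E hE1
  refine ⟨E', h1, fun k => ?_⟩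
  rw [LinearMap.trace_eq_matrix_trace ℂ b, Matrix.trace, map_sum]
  refine sum_mem fun j _ => h2 (⟨C.sig k, k, rfl⟩, j) ?_
  have h3 := hE2 (⟨C.sig k, k, rfl⟩, j) (k : D.Ad)
  rw [Matrix.diag_apply, LinearMap.toMatrix_apply]
  exact h3

end Pool.Agent.Lib.MP_666dc0_nt.EP
end

section

/-!
# EH, A5: the alternating sum of the traces
-/

namespace Pool.Agent.Lib.MP_666dc0_nt.EH

open EP

/-- Interchange of the sums. -/
theorem finsum_swap {L : Type} [Field L] (N : ℕ) (μ : ℕ → L → ℕ)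
    (h0 : ∀ n, N ≤ n → ∀ a, μ n a = 0) (hfin : ∀ n, {a | μ n a ≠ 0}.Finite) :
    ∑ᶠ n : ℕ, (-1 : L) ^ n * ∑ᶠ a : L, (μ n a : L) * a =
      ∑ᶠ a : L, a * ((∑ᶠ n : ℕ, (-1) ^ n * (μ n a : ℤ) : ℤ) : L) := by
  classical
  have hT : (⋃ n ∈ Finset.range N, {a | μ n a ≠ 0}).Finite :=
    Set.Finite.biUnion (Finset.range N).finite_toSet fun n _ => hfin n
  set T := hT.toFinset with hTdef
  have hmem : ∀ n a, μ n a ≠ 0 → a ∈ T := by
    intro n a ha
    rw [hTdef, Set.Finite.mem_toFinset]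
    have hn : n ∈ Finset.range N := by
      rw [Finset.mem_range]
      by_contra hcon
      exact ha (h0 n (not_lt.1 hcon) a)
    exact Set.mem_biUnion hn ha
  have h1 : ∀ n, ∑ᶠ a : L, (μ n a : L) * a = ∑ a ∈ T, (μ n a : L) * a := by
    intro n
    refine finsum_eq_sum_of_support_subset _ fun a ha => ?_
    refine hmem n a fun h2 => ha ?_
    change (μ n a : L) * a = 0
    rw [h2, Nat.cast_zero, zero_mul]
  have h3 : ∀ a, ∑ᶠ n : ℕ, (-1) ^ n * (μ n a : ℤ) = ∑ n ∈ Finset.range N, (-1) ^ n * (μ n a : ℤ) := by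
    intro a
    refine finsum_eq_sum_of_support_subset _ fun n hn => ?_
    rw [Finset.coe_range, Set.mem_Iio]
    by_contra hcon
    apply hn
    change (-1) ^ n * (μ n a : ℤ) = 0
    rw [h0 n (not_lt.1 hcon) a, Nat.cast_zero, mul_zero]
  have h4 : ∑ᶠ n : ℕ, (-1 : L) ^ n * ∑ᶠ a : L, (μ n a : L) * a =
      ∑ n ∈ Finset.range N, (-1 : L) ^ n * ∑ a ∈ T, (μ n a : L) * a := by
    rw [finsum_congr (g := fun n : ℕ => (-1 : L) ^ n * ∑ a ∈ T, (μ n a : L) * a)
      fun n => by rw [h1 n]]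
    refine finsum_eq_sum_of_support_subset _ fun n hn => ?_
    rw [Finset.coe_range, Set.mem_Iio]
    by_contra hcon
    apply hn
    change (-1 : L) ^ n * ∑ a ∈ T, (μ n a : L) * a = 0
    rw [Finset.sum_eq_zero fun a _ => by rw [h0 n (not_lt.1 hcon) a, Nat.cast_zero, zero_mul],
      mul_zero]
  have h5 : ∑ᶠ a : L, a * ((∑ᶠ n : ℕ, (-1) ^ n * (μ n a : ℤ) : ℤ) : L) =
      ∑ a ∈ T, a * ∑ n ∈ Finset.range N, (-1 : L) ^ n * (μ n a : L) := by
    rw [finsum_congr (g := fun a : L => a * ∑ n ∈ Finset.range N, (-1 : L) ^ n * (μ n a : L))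
      fun a => by
        rw [h3 a]
        push_cast
        rfl]
    refine finsum_eq_sum_of_support_subset _ fun a ha => ?_
    by_contra hcon
    apply ha
    change a * ∑ n ∈ Finset.range N, (-1 : L) ^ n * (μ n a : L) = 0
    rw [Finset.sum_eq_zero, mul_zero]
    intro n _
    have h6 : μ n a = 0 := by
      by_contra h7
      exact hcon (hmem n a h7)
    rw [h6, Nat.cast_zero, mul_zero]
  rw [h4, h5]
  simp only [Finset.mul_sum]
  rw [Finset.sum_comm]
  refine Finset.sum_congr rfl fun a _ => Finset.sum_congr rfl fun n _ => ?_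
  ring

variable {R : Type} {A : Type} [CommRing R] [Group A] {E X : Type} [MulAction A E] [MulAction A X]
  {I : Type} {L : Type} [Field L] [Algebra R L] [Nonempty E] [IsAlgClosed L] [CharZero L]

/-- The multiplicities are zero in large degrees, and in every degree only finitely many are not
zero. -/
theorem exists_mult_bound (hfree : ∀ (a : A) (e : E) (x : X), a • e = e → a • x = x → a = 1)
    (hFD : IsFD R A X) (c : I → Module.End R (X →₀ R)) (hc : ∀ i, Equi A (c i))
    (hcomm : ∀ i j, Commute (c i) (c j)) {V : Type} [AddCommGroup V] [Module L V]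
    [FiniteDimensional L V] (ρ : Representation L A V) :
    ∃ N : ℕ, (∀ n, N ≤ n → ∀ y : I → L, mult ρ E c y n = 0) ∧
      ∀ n, {y : I → L | mult ρ E c y n ≠ 0}.Finite := by
  obtain ⟨θ, hθ1, hθ⟩ := exists_action c hc hcomm
  obtain ⟨N, m, -, hN, -⟩ := exists_lefschetz_fd (L := L) hFD
  have hfd : ∀ n, FiniteDimensional L ((Res.std R A E X hfree).H ρ n) := fun n => (hN _ V ρ n).1
  choose Θ hΘ hΘC using fun n => exists_action_H θ hθ ρ (Res.std R A E X hfree) n
  have hc' : ∀ i : I, Equi A (θ (MvPolynomial.X i)) := fun i => hθ _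
  have h1 : (fun i => θ (MvPolynomial.X i)) = c := funext hθ1
  have hmult : ∀ (n : ℕ) (y : I → L), mult ρ E c y n = Module.finrank L (joint (Θ n) y) := by
    intro n y
    rw [← h1, mult_eq hfree ρ _ hc']
    have h2 : (⨅ i, Module.End.maxGenEigenspace
        ((isLift_ext (E := E) hfree (hc' i)).onH ρ n) (y i) : Submodule L _) =
        joint (Θ n) y := by
      unfold joint
      refine iInf_congr fun i => ?_
      rw [hΘ, hmap_eq ρ _ (isLift_ext (E := E) hfree (hc' i))]
    rw [h2]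
  refine ⟨N, fun n hn y => ?_, fun n => ?_⟩
  · rw [hmult]
    have := (hN (Res.std R A E X hfree) V ρ n).2 hn
    exact Module.finrank_zero_of_subsingleton
  · refine (finite_joint (Θ n)).subset fun y hy hbot => hy ?_
    rw [hmult, hbot, finrank_bot]

/-- The alternating sum of the traces. -/
theorem finsum_trace_eq (hfree : ∀ (a : A) (e : E) (x : X), a • e = e → a • x = x → a = 1)
    (hFD : IsFD R A X) (c : I → Module.End R (X →₀ R)) (hc : ∀ i, Equi A (c i))
    (hcomm : ∀ i j, Commute (c i) (c j)) (τ : Module.End R (X →₀ R)) (hτ : Equi A τ)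
    (hτc : ∀ i, Commute τ (c i)) {V : Type} [AddCommGroup V] [Module L V]
    [FiniteDimensional L V] (ρ : Representation L A V) (y : I → L) :
    ∑ᶠ n : ℕ, (-1 : L) ^ n * ∑ᶠ a : L, (mult ρ E (addOp τ c) (cons a y) n : L) * a =
      trE E ρ c τ y := by
  obtain ⟨N, h1, h2⟩ := exists_mult_bound (E := E) (L := L) hfree hFD (addOp τ c) (equi_addOp hc hτ)
    (comm_addOp hcomm hτc) ρ
  refine finsum_swap N (fun n a => mult ρ E (addOp τ c) (cons a y) n) (fun n hn a => h1 n hn _)
    fun n => ?_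
  have h3 : Set.InjOn (fun a : L => cons a y)
      ((fun a : L => cons a y) ⁻¹' {y : Option I → L | mult ρ E (addOp τ c) y n ≠ 0}) := by
    intro a _ b _ hab
    exact congrFun hab none
  exact (h2 n).preimage h3

end Pool.Agent.Lib.MP_666dc0_nt.EH
end

section

/-!
# EH, C2: linear combinations of operators
-/

namespace Pool.Agent.Lib.MP_666dc0_nt.EH

open EP

variable {R : Type} {A : Type} [CommRing R] [Group A] {E X : Type} [MulAction A E] [MulAction A X]
  {I : Type} {L : Type} [Field L] [Algebra R L] {V : Type} [AddCommGroup V] [Module L V]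
  (ρ : Representation L A V)

theorem ext_mapDomain (n : ℕ) (c : Module.End R (X →₀ R)) (e : Fin (n + 1) → E) (m : X →₀ R) :
    ext (E := E) n c (Finsupp.mapDomain (fun x => (e, x)) m) =
      Finsupp.mapDomain (fun x => (e, x)) (c m) := by
  induction m using Finsupp.induction_linear with
  | zero => rw [Finsupp.mapDomain_zero, map_zero, map_zero, Finsupp.mapDomain_zero]
  | add f g hf hg =>
    rw [Finsupp.mapDomain_add, map_add, hf, hg, map_add, Finsupp.mapDomain_add]
  | single x r =>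
    have h1 : (Finsupp.single x r : X →₀ R) = r • Finsupp.single x 1 := by
      rw [Finsupp.smul_single, smul_eq_mul, mul_one]
    have h2 : (Finsupp.single ((e, x) : Simp E X n) r : Simp E X n →₀ R) =
        r • Finsupp.single (e, x) 1 := by
      rw [Finsupp.smul_single, smul_eq_mul, mul_one]
    rw [Finsupp.mapDomain_single, h2, map_smul, ext_single, h1, map_smul, Finsupp.mapDomain_smul]

theorem ext_comp (n : ℕ) (c c' : Module.End R (X →₀ R)) :
    ext (E := E) n (c ∘ₗ c') = ext (E := E) n c ∘ₗ ext (E := E) n c' := by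
  refine Finsupp.lhom_ext' fun s => LinearMap.ext_ring ?_
  change ext (E := E) n (c ∘ₗ c') (Finsupp.single s 1) =
    ext (E := E) n c (ext (E := E) n c' (Finsupp.single s 1))
  rw [ext_single, ext_single, ext_mapDomain]
  rfl

theorem pull_mem_cobd {τ : Module.End R (X →₀ R)} (hτ : Equi A τ) {n : ℕ}
    {f : Simp E X n → V} (hf : f ∈ cobd R ρ E X n) :
    pull L V (ext (E := E) n τ) f ∈ cobd R ρ E X n := by
  cases n with
  | zero =>
    have h1 : f = 0 := hf
    rw [h1, map_zero]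
    exact Submodule.zero_mem _
  | succ n =>
    obtain ⟨f', hf', rfl⟩ := hf
    refine ⟨pull L V (ext (E := E) n τ) f', pull_mem_Fun _ (equi_ext n hτ) hf', ?_⟩
    have h1 := congrArg (fun c => pull L V c f') (bd_comp_ext (E := E) n τ)
    simp only [pull_comp] at h1
    exact h1.symm

theorem pull_mem_cocyc {τ : Module.End R (X →₀ R)} (hτ : Equi A τ) {n : ℕ}
    {f : Simp E X n → V} (hf : f ∈ cocyc R ρ E X n) :
    pull L V (ext (E := E) n τ) f ∈ cocyc R ρ E X n := by
  refine ⟨pull_mem_Fun _ (equi_ext n hτ) hf.1, ?_⟩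
  change pull L V (bd R E X n) (pull L V (ext (E := E) n τ) f) = 0
  have h1 := congrArg (fun c => pull L V c f) (bd_comp_ext (E := E) n τ)
  simp only [pull_comp] at h1
  have h2 : pull L V (bd R E X n) f = 0 := hf.2
  have h3 : pull L V (ext (E := E) (n + 1) τ) (pull L V (bd R E X n) f) =
    pull L V (bd R E X n) (pull L V (ext (E := E) n τ) f) := h1
  rw [← h3, h2, map_zero]

theorem mem_genCocyc_iff {c : I → Module.End R (X →₀ R)} (hc : ∀ i, Equi A (c i)) (y : I → L)
    (n : ℕ) (f : Simp E X n → V) :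
    f ∈ genCocyc ρ E c y n ↔ f ∈ cocyc R ρ E X n ∧ ∀ i, ∃ N : ℕ,
      ((pull L V (ext (E := E) n (c i)) - y i • LinearMap.id : Module.End L _) ^ N) f ∈
        cobd R ρ E X n := by
  unfold genCocyc
  rw [Submodule.mem_inf, Submodule.mem_iInf]
  refine and_congr Iff.rfl (forall_congr' fun i => ?_)
  exact mem_comap_iff (S := pull L V (ext (E := E) n (c i))) (B := cobd R ρ E X n)
    (fun u hu => pull_mem_cobd ρ (hc i) hu) (y i) f

theorem pull_mem_genCocyc {c : I → Module.End R (X →₀ R)} (hc : ∀ i, Equi A (c i))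
    {τ : Module.End R (X →₀ R)} (hτ : Equi A τ) (hτc : ∀ i, Commute τ (c i)) (y : I → L) {n : ℕ}
    {f : Simp E X n → V} (hf : f ∈ genCocyc ρ E c y n) :
    pull L V (ext (E := E) n τ) f ∈ genCocyc ρ E c y n := by
  rw [mem_genCocyc_iff ρ hc] at hf ⊢
  refine ⟨pull_mem_cocyc ρ hτ hf.1, fun i => ?_⟩
  obtain ⟨N, hN⟩ := hf.2 i
  refine ⟨N, ?_⟩
  have h1 : Commute (pull L V (ext (E := E) n τ) : Module.End L (Simp E X n → V))
      (pull L V (ext (E := E) n (c i))) := by
    change pull L V (ext (E := E) n τ) ∘ₗ pull L V (ext (E := E) n (c i)) =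
      pull L V (ext (E := E) n (c i)) ∘ₗ pull L V (ext (E := E) n τ)
    rw [← pull_comp, ← pull_comp, ← ext_comp, ← ext_comp]
    have h2 : (c i) ∘ₗ τ = τ ∘ₗ (c i) := (hτc i).eq.symm
    rw [h2]
  have h3 : Commute (pull L V (ext (E := E) n τ) : Module.End L (Simp E X n → V))
      ((pull L V (ext (E := E) n (c i)) - y i • LinearMap.id) ^ N) := by
    refine Commute.pow_right (Commute.sub_right h1 ?_) N
    change pull L V (ext (E := E) n τ) ∘ₗ (y i • LinearMap.id) =
      (y i • LinearMap.id) ∘ₗ pull L V (ext (E := E) n τ)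
    rw [LinearMap.comp_smul, LinearMap.smul_comp]
    rfl
  have h4 := LinearMap.congr_fun h3.eq f
  change pull L V (ext (E := E) n τ) (((pull L V (ext (E := E) n (c i)) -
    y i • LinearMap.id : Module.End L _) ^ N) f) = ((pull L V (ext (E := E) n (c i)) -
    y i • LinearMap.id : Module.End L _) ^ N) (pull L V (ext (E := E) n τ) f) at h4
  rw [← h4]
  exact pull_mem_cobd ρ hτ hN

theorem genCocyc_add (c : I → Module.End R (X →₀ R)) (τ : Module.End R (X →₀ R)) (a : L)
    (y : I → L) (n : ℕ) :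
    genCocyc ρ E (addOp τ c) (cons a y) n = genCocyc ρ E c y n ⊓
      (⨆ N : ℕ, (cobd R ρ E X n).comap
        ((pull L V (ext (E := E) n τ) - a • LinearMap.id) ^ N)) := by
  ext f
  unfold genCocyc
  rw [iInf_option, Submodule.mem_inf, Submodule.mem_inf, Submodule.mem_inf, Submodule.mem_inf]
  constructor
  · rintro ⟨h1, h2, h3⟩
    exact ⟨⟨h1, h3⟩, h2⟩
  · rintro ⟨⟨h1, h3⟩, h2⟩
    exact ⟨h1, h2, h3⟩

variable [Nonempty E] [CharZero L] [FiniteDimensional L V]

/-- Finiteness. -/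
theorem exists_fin (hfree : ∀ (a : A) (e : E) (x : X), a • e = e → a • x = x → a = 1)
    (hFD : IsFD R A X) (c : I → Module.End R (X →₀ R)) (y : I → L) :
    ∃ N : ℕ, ∀ n, FiniteDimensional L
        (genCocyc ρ E c y n ⧸ (cobd R ρ E X n).submoduleOf (genCocyc ρ E c y n)) ∧
      (N ≤ n → Subsingleton
        (genCocyc ρ E c y n ⧸ (cobd R ρ E X n).submoduleOf (genCocyc ρ E c y n))) := by
  obtain ⟨N, m, -, hN, -⟩ := exists_lefschetz_fd (L := L) hFD
  refine ⟨N, fun n => ?_⟩
  have hfd : FiniteDimensional L ((Res.std R A E X hfree).H ρ n) := (hN _ V ρ n).1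
  have hle : genCocyc ρ E c y n ≤ cocyc R ρ E X n := inf_le_left
  let φ : (genCocyc ρ E c y n ⧸ (cobd R ρ E X n).submoduleOf (genCocyc ρ E c y n)) →ₗ[L]
      (cocyc R ρ E X n ⧸ (cobd R ρ E X n).submoduleOf (cocyc R ρ E X n)) :=
    Submodule.mapQ _ _ (Submodule.inclusion hle) fun u hu => hu
  have hφ : Function.Injective φ := by
    rw [← LinearMap.ker_eq_bot, LinearMap.ker_eq_bot']
    intro x hx
    obtain ⟨u, rfl⟩ := Submodule.Quotient.mk_surjective _ x
    have h1 : (Submodule.Quotient.mk (Submodule.inclusion hle u) :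
      cocyc R ρ E X n ⧸ (cobd R ρ E X n).submoduleOf (cocyc R ρ E X n)) = 0 := hx
    rw [Submodule.Quotient.mk_eq_zero] at h1 ⊢
    exact h1
  have hH : FiniteDimensional L
      (cocyc R ρ E X n ⧸ (cobd R ρ E X n).submoduleOf (cocyc R ρ E X n)) := by
    have h1 := hfd
    unfold Res.H at h1
    rw [std_cocyc, std_cobd] at h1
    exact h1
  refine ⟨FiniteDimensional.of_injective φ hφ, fun hn => ?_⟩
  have hs : Subsingleton
      (cocyc R ρ E X n ⧸ (cobd R ρ E X n).submoduleOf (cocyc R ρ E X n)) := by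
    have h1 := (hN (Res.std R A E X hfree) V ρ n).2 hn
    unfold Res.H at h1
    rw [std_cocyc, std_cobd] at h1
    exact h1
  exact hφ.subsingleton

/-- The alternating sum of the traces of a linear combination of operators. -/
theorem finsum_comb [IsAlgClosed L]
    (hfree : ∀ (a : A) (e : E) (x : X), a • e = e → a • x = x → a = 1)
    (hFD : IsFD R A X) (c : I → Module.End R (X →₀ R)) (hc : ∀ i, Equi A (c i))
    (hcomm : ∀ i j, Commute (c i) (c j)) {J : Type} [Fintype J] (a : J → L)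
    (τ : J → Module.End R (X →₀ R)) (hτ : ∀ j, Equi A (τ j))
    (hτc : ∀ j i, Commute (τ j) (c i)) (y : I → L)
    (G : ∀ n : ℕ, L → Submodule L (Simp E X n → V))
    (hG : ∀ n b, G n b = genCocyc ρ E c y n ⊓ ⨆ N : ℕ, (cobd R ρ E X n).comap
      ((∑ j, a j • pull L V (ext (E := E) n (τ j)) - b • LinearMap.id) ^ N)) :
    ∑ᶠ n : ℕ, (-1 : L) ^ n * ∑ᶠ b : L,
      (Module.finrank L (G n b ⧸ (cobd R ρ E X n).submoduleOf (G n b)) : L) * b =
      ∑ j, a j * trE E ρ c (τ j) y := by
  obtain ⟨N, hN⟩ := exists_fin (E := E) ρ hfree hFD c y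
  have hfd := fun n => (hN n).1
  -- the operators
  have hZ : ∀ j n, ∀ u ∈ genCocyc ρ E c y n, pull L V (ext (E := E) n (τ j)) u ∈
      genCocyc ρ E c y n := fun j n u hu => pull_mem_genCocyc ρ hc (hτ j) (hτc j) y hu
  have hB : ∀ j n, ∀ u ∈ cobd R ρ E X n, pull L V (ext (E := E) n (τ j)) u ∈
      cobd R ρ E X n := fun j n u hu => pull_mem_cobd ρ (hτ j) hu
  have hS : ∀ (n : ℕ) (Z : Submodule L (Simp E X n → V)),
      (∀ j, ∀ u ∈ Z, pull L V (ext (E := E) n (τ j)) u ∈ Z) →
      ∀ u ∈ Z, (∑ j, a j • pull L V (ext (E := E) n (τ j)) : Module.End L (Simp E X n → V)) u ∈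
        Z := by
    intro n Z h u hu
    rw [LinearMap.sum_apply]
    exact Submodule.sum_mem _ fun j _ => Submodule.smul_mem _ _ (h j u hu)
  have hSZ := fun n => hS n _ fun j => hZ j n
  have hSB := fun n => hS n _ fun j => hB j n
  -- one operator
  have h1 : ∀ j, trE E ρ c (τ j) y = ∑ n ∈ Finset.range N, (-1 : L) ^ n *
      LinearMap.trace L _ (ind (genCocyc ρ E c y n) (cobd R ρ E X n)
        (pull L V (ext (E := E) n (τ j))) (hZ j n) (hB j n)) := by
    intro j
    rw [← finsum_trace_eq (E := E) hfree hFD c hc hcomm (τ j) (hτ j) (hτc j) ρ y]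
    have h2 : ∀ n : ℕ, ∑ᶠ b : L, (mult ρ E (addOp (τ j) c) (cons b y) n : L) * b =
        LinearMap.trace L _ (ind (genCocyc ρ E c y n) (cobd R ρ E X n)
          (pull L V (ext (E := E) n (τ j))) (hZ j n) (hB j n)) := by
      intro n
      rw [← finsum_finrank_gen (hZ j n) (hB j n)
        (fun b => genCocyc ρ E (addOp (τ j) c) (cons b y) n)
        (fun b => genCocyc_add ρ c (τ j) b y n)]
      rfl
    rw [finsum_congr fun n => by rw [h2 n]]
    refine finsum_eq_sum_of_support_subset _ fun n hn => ?_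
    rw [Finset.coe_range, Set.mem_Iio]
    by_contra hcon
    apply hn
    have := (hN n).2 (not_lt.1 hcon)
    change (-1 : L) ^ n * _ = 0
    have h3 : ind (genCocyc ρ E c y n) (cobd R ρ E X n)
        (pull L V (ext (E := E) n (τ j))) (hZ j n) (hB j n) = 0 :=
      LinearMap.ext fun u => Subsingleton.elim _ _
    rw [h3, map_zero, mul_zero]
  -- the linear combination
  have h4 : ∀ n : ℕ, ∑ᶠ b : L,
      (Module.finrank L (G n b ⧸ (cobd R ρ E X n).submoduleOf (G n b)) : L) * b =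
      ∑ j, a j * LinearMap.trace L _ (ind (genCocyc ρ E c y n) (cobd R ρ E X n)
        (pull L V (ext (E := E) n (τ j))) (hZ j n) (hB j n)) := by
    intro n
    rw [finsum_finrank_gen (hSZ n) (hSB n) (G n) (hG n),
      trace_ind_sum a (fun j => pull L V (ext (E := E) n (τ j))) (fun j => hZ j n)
        (fun j => hB j n) rfl (hSZ n) (hSB n)]
  rw [finsum_congr fun n => by rw [h4 n]]
  simp only [h1, Finset.mul_sum]
  rw [Finset.sum_comm]
  refine (finsum_eq_sum_of_support_subset (s := Finset.range N) _ fun n hn => ?_).trans ?_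
  · rw [Finset.coe_range, Set.mem_Iio]
    by_contra hcon
    apply hn
    have := (hN n).2 (not_lt.1 hcon)
    refine Finset.sum_eq_zero fun j _ => ?_
    have h3 : ind (genCocyc ρ E c y n) (cobd R ρ E X n)
        (pull L V (ext (E := E) n (τ j))) (hZ j n) (hB j n) = 0 :=
      LinearMap.ext fun u => Subsingleton.elim _ _
    rw [h3, map_zero, mul_zero, mul_zero]
  · refine Finset.sum_congr rfl fun n _ => Finset.sum_congr rfl fun j _ => ?_
    ring

end Pool.Agent.Lib.MP_666dc0_nt.EH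
end
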