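import Mathlib

section

open Topology
open scoped Pointwise

namespace Pool.Agent.Lib.MP_666dc0_nt

section BaireDescent

variable {k A : Type*} [Field k] [Field A] [Algebra k A] [IsGalois k A]

/-- Baire category descent: a family of elements of a Galois extension lies in a finite
subextension if the Galois group is a countable union of pieces on which the elements are
rigid. -/
theorem baire_descent (X : ℕ → Set Gal(A/k)) (hX : ∀ τ, ∃ n, τ ∈ X n) (Y : Set A)
    (hY : ∀ n, ∃ Ψ : Finset A, ∀ τ₁ ∈ X n, ∀ τ₂ ∈ X n, (∀ y ∈ Ψ, τ₁ y = τ₂ y) →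
      ∀ y ∈ Y, τ₁ y = τ₂ y) :
    ∃ M : IntermediateField k A, FiniteDimensional k M ∧ Y ⊆ M := by
  classical
  obtain ⟨n, hn⟩ := nonempty_interior_of_iUnion_of_closed (f := fun n => closure (X n))
    (fun n => isClosed_closure) (by
      rw [Set.eq_univ_iff_forall]
      intro τ
      obtain ⟨n, hn⟩ := hX τ
      exact Set.mem_iUnion.mpr ⟨n, subset_closure hn⟩)
  obtain ⟨τ₀, hτ₀⟩ := hn
  have h1 : {σ : Gal(A/k) | τ₀ * σ ∈ closure (X n)} ∈ 𝓝 (1 : Gal(A/k)) := by
    have h2 : ContinuousAt (fun σ : Gal(A/k) => τ₀ * σ) 1 := (continuous_const_mul τ₀).continuousAt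
    apply h2
    change closure (X n) ∈ 𝓝 (τ₀ * 1)
    rw [mul_one]
    exact mem_interior_iff_mem_nhds.mp hτ₀
  rw [krullTopology_mem_nhds_one_iff] at h1
  obtain ⟨M₀, hM₀, hM₀'⟩ := h1
  obtain ⟨Ψ, hΨ⟩ := hY n
  have hfin : ∀ s : Finset A, FiniteDimensional k (IntermediateField.adjoin k (s : Set A)) :=
    fun s => IntermediateField.finiteDimensional_adjoin fun x _ => Algebra.IsIntegral.isIntegral x
  have := hfin Ψ
  refine ⟨M₀ ⊔ IntermediateField.adjoin k (Ψ : Set A), inferInstance, fun y hy => ?_⟩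
  rw [← InfiniteGalois.fixedField_fixingSubgroup
    (M₀ ⊔ IntermediateField.adjoin k (Ψ : Set A)), SetLike.mem_coe,
    IntermediateField.mem_fixedField_iff]
  intro τ hτ
  have hτM₀ : τ ∈ M₀.fixingSubgroup := by
    rw [IntermediateField.mem_fixingSubgroup_iff] at hτ ⊢
    exact fun x hx => hτ x ((le_sup_left : M₀ ≤ _) hx)
  have hτΨ : ∀ x ∈ Ψ, τ x = x := by
    rw [IntermediateField.mem_fixingSubgroup_iff] at hτ
    intro x hx
    exact hτ x ((le_sup_right : IntermediateField.adjoin k (Ψ : Set A) ≤ _)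
      (IntermediateField.subset_adjoin k _ hx))
  have hcl : ∀ σ ∈ closure (X n), ∃ σ' ∈ X n, ∀ x ∈ insert y Ψ, σ' x = σ x := by
    intro σ hσ
    let N := IntermediateField.adjoin k ((insert y Ψ : Finset A) : Set A)
    have hN : FiniteDimensional k N := hfin _
    have hopen : IsOpen (σ • (N.fixingSubgroup : Set Gal(A/k))) :=
      (IntermediateField.fixingSubgroup_isOpen N).smul σ
    have hmem : σ ∈ σ • (N.fixingSubgroup : Set Gal(A/k)) :=
      ⟨1, one_mem _, by simp⟩
    obtain ⟨σ', hσ'1, hσ'2⟩ := mem_closure_iff.mp hσ _ hopen hmem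
    refine ⟨σ', hσ'2, fun x hx => ?_⟩
    obtain ⟨u, hu, rfl⟩ := hσ'1
    have h3 : u x = x := by
      rw [SetLike.mem_coe, IntermediateField.mem_fixingSubgroup_iff] at hu
      exact hu x (IntermediateField.subset_adjoin k _ (by exact_mod_cast hx))
    change (σ * u) x = σ x
    rw [AlgEquiv.mul_apply, h3]
  obtain ⟨τ₁, hτ₁, hτ₁'⟩ := hcl (τ₀ * τ) (hM₀' hτM₀)
  obtain ⟨τ₂, hτ₂, hτ₂'⟩ := hcl (τ₀ * 1) (hM₀' (one_mem _))
  have h4 := hΨ τ₁ hτ₁ τ₂ hτ₂ (fun z hz => by
    rw [hτ₁' z (Finset.mem_insert_of_mem hz), hτ₂' z (Finset.mem_insert_of_mem hz),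
      AlgEquiv.mul_apply, hτΨ z hz, mul_one]) y hy
  rw [hτ₁' y (Finset.mem_insert_self _ _), hτ₂' y (Finset.mem_insert_self _ _),
    AlgEquiv.mul_apply, mul_one] at h4
  exact τ₀.injective h4

end BaireDescent
end Pool.Agent.Lib.MP_666dc0_nt
end

section

open TensorProduct
open scoped TensorProduct

namespace Pool.Agent.Lib.MP_666dc0_nt

section Noeth

/-- Finitely many functions in a given set decide whether two points agree on the set. -/
theorem exists_finset_decide {O : Type} [CommRing O] [Algebra ℚ O] [Algebra.FiniteType ℚ O]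
    (B : Set O) : ∃ Φ : Finset O, (Φ : Set O) ⊆ B ∧ ∀ (R : Type) [CommRing R] [Algebra ℚ R]
      (g h : O →ₐ[ℚ] R), (∀ f ∈ Φ, g f = h f) → ∀ f ∈ B, g f = h f := by
  classical
  have hft0 : Algebra.FiniteType O (O ⊗[ℚ] O) := Algebra.FiniteType.baseChange O
  have hft : Algebra.FiniteType ℚ (O ⊗[ℚ] O) := Algebra.FiniteType.trans (S := O) inferInstance hft0
  have hn : IsNoetherianRing (O ⊗[ℚ] O) := Algebra.FiniteType.isNoetherianRing ℚ _
  let D : O → O ⊗[ℚ] O := fun f => f ⊗ₜ 1 - 1 ⊗ₜ f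
  have h1 : (Submodule.span (O ⊗[ℚ] O) (D '' B)).FG := IsNoetherian.noetherian _
  rw [Submodule.fg_span_iff_fg_span_finset_subset] at h1
  obtain ⟨s, hs1, hs2⟩ := h1
  rw [Finset.subset_set_image_iff] at hs1
  obtain ⟨Φ, hΦ, hΦs⟩ := hs1
  refine ⟨Φ, hΦ, fun R _ _ g h hgh f hf => ?_⟩
  let L : O ⊗[ℚ] O →ₐ[ℚ] R := Algebra.TensorProduct.lift g h (fun _ _ => Commute.all _ _)
  have hL : ∀ f, L (D f) = g f - h f := fun f => by simp [L, D]
  have h2 : Submodule.span (O ⊗[ℚ] O) (D '' B) ≤ RingHom.ker L := by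
    rw [hs2]
    refine Submodule.span_le.mpr fun x hx => ?_
    rw [← hΦs, Finset.coe_image] at hx
    obtain ⟨f, hf, rfl⟩ := hx
    rw [SetLike.mem_coe, RingHom.mem_ker, hL, hgh f hf, sub_self]
  have h3 := h2 (Submodule.subset_span ⟨f, hf, rfl⟩)
  rw [RingHom.mem_ker, hL, sub_eq_zero] at h3
  exact h3

end Noeth
end Pool.Agent.Lib.MP_666dc0_nt
end

section

/-!
# EP, Z1: a finite set of homomorphisms whose weighted sum has values in a number field
-/

namespace Pool.Agent.Lib.MP_666dc0_nt.EP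

/-- Separation of distinct homomorphisms to a field. -/
theorem exists_separating_field {T L : Type} [CommRing T] [Field L] (s : Finset (T →+* L))
    (χ : T →+* L) (hχ : χ ∈ s) :
    ∃ (m : ℕ) (t : Fin m → T) (a : Fin m → L), (∑ j, a j * χ (t j) = 1) ∧
      ∀ ψ ∈ s, ψ ≠ χ → ∑ j, a j * ψ (t j) = 0 := by
  classical
  -- the span of the vectors `(ψ t)_ψ` in `L ^ s` is everything
  let v : T → (s → L) := fun t ψ => ψ.1 t
  have htop : Submodule.span L (Set.range v) = ⊤ := by
    by_contra hne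
    obtain ⟨f, hf0, hf⟩ := Submodule.exists_le_ker_of_lt_top _ (lt_top_iff_ne_top.2 hne)
    have hlin : LinearIndependent L (fun ψ : s => ((ψ.1 : T →* L) : T → L)) := by
      have h1 := linearIndependent_monoidHom T L
      have h2 : Function.Injective (fun ψ : s => (ψ.1 : T →* L)) := by
        intro a b hab
        apply Subtype.ext
        ext t
        exact DFunLike.congr_fun hab t
      exact h1.comp _ h2
    have h3 : ∑ ψ : s, f (Pi.single ψ 1) • ((ψ.1 : T →* L) : T → L) = 0 := by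
      funext t
      have h4 : f (v t) = 0 := hf (Submodule.subset_span ⟨t, rfl⟩)
      have h5 : v t = ∑ ψ : s, (v t ψ) • (Pi.single ψ 1 : s → L) := by
        funext ψ
        simp [Finset.sum_apply, Pi.single_apply]
      rw [h5, map_sum] at h4
      simp only [map_smul, smul_eq_mul] at h4
      rw [Finset.sum_apply]
      simp only [Pi.smul_apply, smul_eq_mul, Pi.zero_apply]
      rw [← h4]
      exact Finset.sum_congr rfl fun ψ _ => mul_comm _ _
    rw [Fintype.linearIndependent_iff] at hlin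
    have h6 := hlin _ h3
    apply hf0
    refine LinearMap.pi_ext' fun ψ => ?_
    ext
    simpa using h6 ψ
  have hmem : (Pi.single ⟨χ, hχ⟩ 1 : s → L) ∈ Submodule.span L (Set.range v) := by
    rw [htop]
    exact Submodule.mem_top
  obtain ⟨m, a, g, hsum⟩ := (Submodule.mem_span_set' (R := L)).1 hmem
  choose t ht using fun i => (g i).2
  refine ⟨m, t, a, ?_, fun ψ hψ hne => ?_⟩
  · have h1 := congrFun hsum ⟨χ, hχ⟩
    rw [Finset.sum_apply] at h1
    simp only [Pi.smul_apply, smul_eq_mul, Pi.single_eq_same] at h1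
    rw [← h1]
    refine Finset.sum_congr rfl fun j _ => ?_
    rw [← ht j]
  · have h1 := congrFun hsum ⟨ψ, hψ⟩
    rw [Finset.sum_apply, Pi.single_eq_of_ne (fun h => hne (congrArg Subtype.val h))] at h1
    simp only [Pi.smul_apply, smul_eq_mul] at h1
    rw [← h1]
    refine Finset.sum_congr rfl fun j _ => ?_
    rw [← ht j]

/-- If `∑ e χ * χ t` (sum over the finite set `s`, all `e χ ≠ 0`) is in the finite extension `E₀` of
`F₀` for all `t`, then the values of each `χ ∈ s` are in a finite extension of `F₀`. -/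
theorem exists_finite_field {F₀ Ω : Type} [Field F₀] [Field Ω] [Algebra F₀ Ω] {T : Type}
    [CommRing T] (s : Finset (T →+* Ω)) (e : (T →+* Ω) → Ω)
    (he : ∀ χ ∈ s, e χ ≠ 0) (E₀ : IntermediateField F₀ Ω) [FiniteDimensional F₀ E₀]
    (h : ∀ t, ∑ χ ∈ s, e χ * χ t ∈ E₀) (χ : T →+* Ω) (hχ : χ ∈ s) :
    ∃ E : IntermediateField F₀ Ω, FiniteDimensional F₀ E ∧ E₀ ≤ E ∧ ∀ t, χ t ∈ E := by
  classical
  obtain ⟨m, t, a, h1, h0⟩ := exists_separating_field s χ hχ
  have key : ∀ x : T, χ x ∈ Submodule.span E₀ (Set.range fun j => (e χ)⁻¹ * a j) := by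
    intro x
    have h2 : e χ * χ x = ∑ j, a j * ∑ ψ ∈ s, e ψ * ψ (x * t j) := by
      calc e χ * χ x = ∑ ψ ∈ s, e ψ * ψ x * ∑ j, a j * ψ (t j) := by
            rw [Finset.sum_eq_single χ]
            · rw [h1, mul_one]
            · intro ψ hψ hne
              rw [h0 ψ hψ hne, mul_zero]
            · exact fun h => absurd hχ h
        _ = _ := by
            simp only [Finset.mul_sum]
            rw [Finset.sum_comm]
            refine Finset.sum_congr rfl fun j _ => Finset.sum_congr rfl fun ψ _ => ?_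
            rw [map_mul]
            ring
    have h3 : χ x = ∑ j, (⟨∑ ψ ∈ s, e ψ * ψ (x * t j), h _⟩ : E₀) • ((e χ)⁻¹ * a j) := by
      have h4 : χ x = (e χ)⁻¹ * ∑ j, a j * ∑ ψ ∈ s, e ψ * ψ (x * t j) := by
        rw [← h2, inv_mul_cancel_left₀ (he χ hχ)]
      rw [h4, Finset.mul_sum]
      refine Finset.sum_congr rfl fun j _ => ?_
      rw [Algebra.smul_def]
      change _ = (∑ ψ ∈ s, e ψ * ψ (x * t j)) * _
      ring
    rw [h3]
    exact Submodule.sum_mem _ fun j _ => Submodule.smul_mem _ _ (Submodule.subset_span ⟨j, rfl⟩)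
  -- the algebra generated by the values is finite-dimensional
  let B : Subalgebra E₀ Ω := Algebra.adjoin E₀ (Set.range χ)
  have hB : Subalgebra.toSubmodule B ≤ Submodule.span E₀ (Set.range fun j => (e χ)⁻¹ * a j) := by
    change Subalgebra.toSubmodule (Algebra.adjoin E₀ (Set.range χ)) ≤ _
    rw [Algebra.adjoin_eq_span, Submodule.span_le]
    intro z hz
    have hz' : z ∈ Submonoid.closure (χ.range : Set Ω) := hz
    have h5 : z ∈ χ.range := by
      have h6 : Submonoid.closure (χ.range : Set Ω) = χ.range.toSubmonoid :=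
        Submonoid.closure_eq _
      rw [h6] at hz'
      exact hz'
    obtain ⟨x, rfl⟩ := h5
    exact key x
  have hfin : FiniteDimensional E₀ (Submodule.span E₀ (Set.range fun j => (e χ)⁻¹ * a j)) :=
    FiniteDimensional.span_of_finite E₀ (Set.finite_range _)
  have hfinB : FiniteDimensional E₀ B :=
    Submodule.finiteDimensional_of_le hB
  have hBalg : Algebra.IsAlgebraic E₀ B := Algebra.IsAlgebraic.of_finite E₀ B
  let E' : IntermediateField E₀ Ω := IntermediateField.adjoin E₀ (Set.range χ)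
  have halg : ∀ x ∈ Set.range χ, IsAlgebraic E₀ x := by
    intro x hx
    have := hBalg.isAlgebraic ⟨x, Algebra.subset_adjoin hx⟩
    exact (isAlgebraic_algebraMap_iff (A := Ω) (Subtype.val_injective)).2 this
  have hE' : E'.toSubalgebra = B := IntermediateField.adjoin_toSubalgebra_of_isAlgebraic halg
  have hfinE' : FiniteDimensional E₀ E' := by
    have h7 : FiniteDimensional E₀ E'.toSubalgebra := by
      rw [hE']
      exact hfinB
    exact h7
  refine ⟨E'.restrictScalars F₀, ?_, ?_, fun x => ?_⟩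
  · have h8 : FiniteDimensional F₀ E' := FiniteDimensional.trans F₀ E₀ E'
    exact h8
  · intro z hz
    have h9 := E'.algebraMap_mem ⟨z, hz⟩
    exact h9
  · exact IntermediateField.subset_adjoin E₀ _ ⟨x, rfl⟩

end Pool.Agent.Lib.MP_666dc0_nt.EP
end
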