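import Pool.Agent.Lib.MP_666dc0_nt.Mg.G045
import Pool.Agent.Lib.MP_666dc0_nt.Mg.G019
import Pool.Agent.Lib.MP_666dc0_nt.Mg.G050
import Pool.Agent.Lib.MP_666dc0_nt.Mg.G098
import Pool.Agent.Lib.MP_666dc0_nt.Mg.G048
import Pool.Agent.Lib.MP_666dc0_nt.Mg.G057

section

open TensorProduct Coalgebra Topology NumberField IsDedekindDomain
open scoped TensorProduct Matrix Pointwise NumberField

namespace Pool.Agent.Lib.MP_666dc0_nt

section InvCongr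

variable {O : Type} [CommRing O] [HopfAlgebra ℚ O] {Γ : Type*} [Group Γ] (A : HopfAction Γ O)

lemma onPts_congr {γ δ : Γ} (h : A.act γ = A.act δ) (R : Type) [CommRing R] [Algebra ℚ R]
    (x : Pts O R) : A.onPts R γ x = A.onPts R δ x := by
  ext f
  rw [HopfAction.onPts_hom_apply, HopfAction.onPts_hom_apply, map_inv, map_inv, h]

lemma inv_congr {γ δ : Γ} (h : A.act γ = A.act δ) : A.inv γ = A.inv δ := by
  ext f
  rw [A.mem_inv, A.mem_inv]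
  constructor
  · intro hf R _ _ x g
    rw [← onPts_congr A h]
    exact hf R x g
  · intro hf R _ _ x g
    rw [onPts_congr A h]
    exact hf R x g

end InvCongr

section CoRestrict

variable {O : Type} [CommRing O] [HopfAlgebra ℚ O] {Γ : Type*} [Group Γ] (A : HopfAction Γ O)
  {R S : Type} [CommRing R] [Algebra ℚ R] [CommRing S] [Algebra ℚ S]

lemma mapL_injective {φ : R →ₐ[ℚ] S} (hφ : Function.Injective φ) : Function.Injective (A.mapL φ) := by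
  intro x y h
  have h1 := congrArg SemidirectProduct.left h
  have h2 := congrArg SemidirectProduct.right h
  ext f
  · rw [A.mapL_left, A.mapL_left] at h1
    have h3 := congrArg (fun g : Pts O S => g.hom f) h1
    exact hφ h3
  · exact h2

/-- Corestriction of a homomorphism to the L-group. -/
lemma exists_corestrict (φ : R →ₐ[ℚ] S) (hφ : Function.Injective φ) (r : Γ →* A.LGroup S)
    (h : ∀ γ f, (r γ).left.hom f ∈ φ.range) :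
    ∃ r' : Γ →* A.LGroup R, ∀ γ, A.mapL φ (r' γ) = r γ := by
  classical
  have h1 : ∀ γ, ∃ x : A.LGroup R, A.mapL φ x = r γ := by
    intro γ
    let e : R ≃ₐ[ℚ] φ.range := AlgEquiv.ofInjective φ hφ
    let g : O →ₐ[ℚ] φ.range := (r γ).left.hom.codRestrict φ.range (h γ)
    refine ⟨⟨⟨e.symm.toAlgHom.comp g⟩, (r γ).right⟩, ?_⟩
    ext f
    · rw [A.mapL_left, Pts.map_hom_apply]
      change φ (e.symm (g f)) = _
      have h2 : (e (e.symm (g f)) : S) = g f := by rw [e.apply_symm_apply]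
      exact h2
    · rfl
  choose x hx using h1
  have hinj := mapL_injective A hφ
  refine ⟨{ toFun := x
            map_one' := hinj (by rw [hx, map_one, map_one])
            map_mul' := fun γ δ => hinj (by rw [hx, map_mul, map_mul, hx, hx]) }, hx⟩

end CoRestrict
section Core

variable {O : Type} [CommRing O] [HopfAlgebra ℚ O]

/-- The values of `r` lie in a field of degree at most `d` over `ℚ_ℓ`. -/
def DefDeg {Γ : Type*} [Group Γ] {A : HopfAction Γ O} {ℓ : ℕ} [Fact ℓ.Prime]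
    (r : Γ →* A.LGroup (PadicAlgCl ℓ)) (d : ℕ) : Prop :=
  ∃ L : IntermediateField ℚ_[ℓ] (PadicAlgCl ℓ), FiniteDimensional ℚ_[ℓ] L ∧
    Module.finrank ℚ_[ℓ] L ≤ d ∧ ∀ γ f, (r γ).left.hom f ∈ L

/-- The inclusion of an intermediate field. -/
noncomputable def inclL {ℓ : ℕ} [Fact ℓ.Prime] (L : IntermediateField ℚ_[ℓ] (PadicAlgCl ℓ)) :
    L →ₐ[ℚ] PadicAlgCl ℓ := L.val.restrictScalars ℚ

/-- The spanning argument: matching on representatives of cosets implies matching. -/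
lemma matched_of_span {Γ : Type*} [Group Γ] {A : HopfAction Γ O} {n : ℕ} (ρ : MatRep A n)
    {ℓ : ℕ} [Fact ℓ.Prime] {L₁ L₂ : IntermediateField ℚ_[ℓ] (PadicAlgCl ℓ)}
    (r₁' : Γ →* A.LGroup L₁) (r₂' : Γ →* A.LGroup L₂)
    (r₁ r₂ : Γ →* A.LGroup (PadicAlgCl ℓ)) (h₁ : ∀ γ, A.mapL (inclL L₁) (r₁' γ) = r₁ γ)
    (h₂ : ∀ γ, A.mapL (inclL L₂) (r₂' γ) = r₂ γ)
    (hr₁ : ∀ γ, (r₁ γ).right = γ) (hr₂ : ∀ γ, (r₂ γ).right = γ)
    (γ₀ : Γ) (X : Set Γ) (hX : ∀ δ ∈ X, A.act δ = A.act γ₀) {f : O}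
    (hf : f ∈ Submodule.span ℚ (Set.range fun ij : Fin n × Fin n => ρ.a ij.1 ij.2))
    (hfX : ∀ δ ∈ X, (r₁ δ).left.hom f = (r₂ δ).left.hom f)
    (hspan : ((ρ.ev L₁ (r₁' γ₀), ρ.ev L₂ (r₂' γ₀)) :
      Matrix (Fin n) (Fin n) L₁ × Matrix (Fin n) (Fin n) L₂) ∈ Submodule.span ℚ_[ℓ]
        ((fun δ => (ρ.ev L₁ (r₁' δ), ρ.ev L₂ (r₂' δ))) '' X)) :
    (r₁ γ₀).left.hom f = (r₂ γ₀).left.hom f := by
  classical
  rw [Submodule.mem_span_range_iff_exists_fun] at hf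
  obtain ⟨c, hc⟩ := hf
  -- the linear functional on matrices
  let θ : (L : IntermediateField ℚ_[ℓ] (PadicAlgCl ℓ)) →
      (Matrix (Fin n) (Fin n) L →ₗ[ℚ_[ℓ]] PadicAlgCl ℓ) := fun L =>
    { toFun := fun M => ∑ ij : Fin n × Fin n, c ij • ∑ k, (M ij.1 k : PadicAlgCl ℓ) *
        ρ.pm (PadicAlgCl ℓ) γ₀⁻¹ k ij.2
      map_add' := fun M N => by
        simp only [Matrix.add_apply, IntermediateField.coe_add, add_mul, Finset.sum_add_distrib,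
          smul_add]
      map_smul' := fun z M => by
        simp only [Matrix.smul_apply, IntermediateField.coe_smul, RingHom.id_apply,
          smul_mul_assoc, ← Finset.smul_sum]
        rw [Finset.smul_sum]
        exact Finset.sum_congr rfl fun x _ => smul_comm _ _ _ }
  have hθ : ∀ (L : IntermediateField ℚ_[ℓ] (PadicAlgCl ℓ)) (r' : Γ →* A.LGroup L)
      (r : Γ →* A.LGroup (PadicAlgCl ℓ)) (h : ∀ γ, A.mapL (inclL L) (r' γ) = r γ)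
      (hr : ∀ γ, (r γ).right = γ) (δ : Γ), A.act δ = A.act γ₀ →
      θ L (ρ.ev L (r' δ)) = (r δ).left.hom f := by
    intro L r' r h hr δ hδ
    have h1 : (ρ.ev L (r' δ)).map (inclL L) = ρ.gm (r δ).left * ρ.pm (PadicAlgCl ℓ) δ := by
      rw [← MatRep.ev_mapL, h, MatRep.ev_apply, hr]
    have hP : ρ.pm (PadicAlgCl ℓ) δ = ρ.pm (PadicAlgCl ℓ) γ₀ := by
      have h3 : ρ.P (γ₀⁻¹ * δ) = 1 := ρ.P_eq _ (by rw [map_mul, map_inv, hδ, inv_mul_cancel])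
      have h4 : ρ.pm (PadicAlgCl ℓ) (γ₀⁻¹ * δ) = 1 := by
        change (ρ.P _).map (algebraMap ℚ (PadicAlgCl ℓ)) = 1
        rw [h3]; simp
      calc ρ.pm (PadicAlgCl ℓ) δ = ρ.pm (PadicAlgCl ℓ) (γ₀ * (γ₀⁻¹ * δ)) := by
            rw [mul_inv_cancel_left]
        _ = _ := by rw [map_mul, h4, mul_one]
    have h2 : (ρ.ev L (r' δ)).map (inclL L) * ρ.pm (PadicAlgCl ℓ) γ₀⁻¹ = ρ.gm (r δ).left := by
      rw [h1, hP, mul_assoc, ← map_mul, mul_inv_cancel, map_one, mul_one]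
    have h5 : θ L (ρ.ev L (r' δ)) = ∑ ij : Fin n × Fin n, c ij • (ρ.gm (r δ).left) ij.1 ij.2 := by
      rw [← h2]
      rfl
    rw [h5, ← hc, map_sum]
    refine Finset.sum_congr rfl fun ij _ => ?_
    rw [map_smul]
    rfl
  let Θ : (Matrix (Fin n) (Fin n) L₁ × Matrix (Fin n) (Fin n) L₂) →ₗ[ℚ_[ℓ]] PadicAlgCl ℓ :=
    (θ L₁).comp (LinearMap.fst _ _ _) - (θ L₂).comp (LinearMap.snd _ _ _)
  have hker : Submodule.span ℚ_[ℓ] ((fun δ => (ρ.ev L₁ (r₁' δ), ρ.ev L₂ (r₂' δ))) '' X) ≤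
      LinearMap.ker Θ := by
    refine Submodule.span_le.mpr ?_
    rintro _ ⟨δ, hδ, rfl⟩
    rw [SetLike.mem_coe, LinearMap.mem_ker]
    change θ L₁ (ρ.ev L₁ (r₁' δ)) - θ L₂ (ρ.ev L₂ (r₂' δ)) = 0
    rw [hθ L₁ r₁' r₁ h₁ hr₁ δ (hX δ hδ), hθ L₂ r₂' r₂ h₂ hr₂ δ (hX δ hδ), hfX δ hδ, sub_self]
  have h6 := hker hspan
  rw [LinearMap.mem_ker] at h6
  change θ L₁ (ρ.ev L₁ (r₁' γ₀)) - θ L₂ (ρ.ev L₂ (r₂' γ₀)) = 0 at h6
  rw [hθ L₁ r₁' r₁ h₁ hr₁ γ₀ rfl, hθ L₂ r₂' r₂ h₂ hr₂ γ₀ rfl, sub_eq_zero] at h6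
  exact h6

/-- Finitely many functions decide all invariant functions for all elements of `Γ`. -/
lemma exists_decide {Γ : Type*} [Group Γ] [TopologicalSpace Γ] [IsTopologicalGroup Γ]
    [CompactSpace Γ] [Algebra.FiniteType ℚ O] {A : HopfAction Γ O}
    (hker : IsOpen (A.act.ker : Set Γ)) :
    ∃ Φ : Set O, Φ.Finite ∧ ∀ γ : Γ, ∃ Φγ : Finset O, (Φγ : Set O) ⊆ Φ ∧
      (Φγ : Set O) ⊆ A.inv γ ∧ ∀ (R : Type) [CommRing R] [Algebra ℚ R] (g h : O →ₐ[ℚ] R),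
        (∀ f ∈ Φγ, g f = h f) → ∀ f ∈ A.inv γ, g f = h f := by
  classical
  have hfin := finite_range_act hker
  have h1 : ∀ e : O ≃ₐ[ℚ] O, ∃ Φe : Finset O, ∀ γ : Γ, A.act γ = e → (Φe : Set O) ⊆ A.inv γ ∧
      ∀ (R : Type) [CommRing R] [Algebra ℚ R] (g h : O →ₐ[ℚ] R),
        (∀ f ∈ Φe, g f = h f) → ∀ f ∈ A.inv γ, g f = h f := by
    intro e
    by_cases he : ∃ γ, A.act γ = e
    · obtain ⟨γ₀, hγ₀⟩ := he
      obtain ⟨Φe, h2, h3⟩ := exists_finset_decide (A.inv γ₀ : Set O)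
      refine ⟨Φe, fun γ hγ => ?_⟩
      rw [inv_congr A (hγ.trans hγ₀.symm)]
      exact ⟨h2, h3⟩
    · exact ⟨∅, fun γ hγ => absurd ⟨γ, hγ⟩ he⟩
  choose Φe hΦe using h1
  refine ⟨⋃ e ∈ Set.range A.act, (Φe e : Set O), hfin.biUnion fun e _ => (Φe e).finite_toSet,
    fun γ => ⟨Φe (A.act γ), ?_, (hΦe _ γ rfl).1, (hΦe _ γ rfl).2⟩⟩
  exact Set.subset_biUnion_of_mem (u := fun e => (Φe e : Set O)) ⟨γ, rfl⟩

/-- `r` is unramified outside `S`. -/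
def UnramOutside {F : Type*} [Field F] [NumberField F]
    {A : HopfAction Gal(AlgebraicClosure F/F) O} {K : Type} [CommRing K] [Algebra ℚ K]
    (S : Finset (HeightOneSpectrum (𝓞 F))) (r : Gal(AlgebraicClosure F/F) →* A.LGroup K) : Prop :=
  ∀ v, v ∉ S → ∀ P : Ideal (𝓞 (AlgebraicClosure F)), IsOver v P → ∀ u : Gal(AlgebraicClosure F/F),
    (∀ x : 𝓞 (AlgebraicClosure F), u • x - x ∈ P) → (r u).left = 1

lemma continuous_ev_restrict {Γ : Type*} [Group Γ] [TopologicalSpace Γ] [IsTopologicalGroup Γ]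
    {A : HopfAction Γ O} {n : ℕ} (ρ : MatRep A n) (hker : IsOpen (A.act.ker : Set Γ))
    {ℓ : ℕ} [Fact ℓ.Prime] {L : IntermediateField ℚ_[ℓ] (PadicAlgCl ℓ)}
    (r' : Γ →* A.LGroup L) (r : Γ →* A.LGroup (PadicAlgCl ℓ))
    (h : ∀ γ, A.mapL (inclL L) (r' γ) = r γ) (hr : ∀ γ, (r γ).right = γ)
    (hc : ∀ f, Continuous fun γ => (r γ).left.hom f) :
    Continuous fun γ => ρ.ev L (r' γ) := by
  refine continuous_matrix fun i j => ?_
  refine continuous_induced_rng.mpr ?_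
  have h1 : (Subtype.val ∘ fun γ => ρ.ev L (r' γ) i j) = fun γ => ρ.ev (PadicAlgCl ℓ) (r γ) i j := by
    ext γ
    rw [← h, MatRep.ev_mapL]
    rfl
  rw [h1]
  exact continuous_ev ρ hker r hr hc i j

/-- The rigidity theorem: matching at finitely many Frobenius elements implies matching. -/
theorem exists_finset_matched {F : Type*} [Field F] [NumberField F] [Algebra.FiniteType ℚ O]
    (A : HopfAction Gal(AlgebraicClosure F/F) O)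
    (hker : IsOpen (A.act.ker : Set Gal(AlgebraicClosure F/F)))
    (S : Finset (HeightOneSpectrum (𝓞 F)))
    (hS : ∀ v, v ∉ S → ∀ P : Ideal (𝓞 (AlgebraicClosure F)), IsOver v P →
      ∀ u : Gal(AlgebraicClosure F/F), (∀ x : 𝓞 (AlgebraicClosure F), u • x - x ∈ P) →
        A.act u = 1)
    (φ : HeightOneSpectrum (𝓞 F) → Gal(AlgebraicClosure F/F))
    (hφ : ∀ v, v ∉ S → ∃ P : Ideal (𝓞 (AlgebraicClosure F)), IsOver v P ∧
      (IsFrob v P (φ v) ∨ IsFrob v P (φ v)⁻¹))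
    (ℓ : ℕ) [Fact ℓ.Prime] (d : ℕ) :
    ∃ T : Finset (HeightOneSpectrum (𝓞 F)), (∀ v ∈ T, v ∉ S) ∧
      ∀ r₁ r₂ : Gal(AlgebraicClosure F/F) →* A.LGroup (PadicAlgCl ℓ),
        (∀ γ, (r₁ γ).right = γ) → (∀ γ, (r₂ γ).right = γ) →
        (∀ f, Continuous fun γ => (r₁ γ).left.hom f) →
        (∀ f, Continuous fun γ => (r₂ γ).left.hom f) →
        UnramOutside S r₁ → UnramOutside S r₂ → DefDeg r₁ d → DefDeg r₂ d →
        (∀ v ∈ T, A.Matched r₁ r₂ (φ v)) → ∀ γ, A.Matched r₁ r₂ γ := by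
  classical
  obtain ⟨Φ, hΦfin, hΦ⟩ := exists_decide hker
  obtain ⟨Φ', hΦ'fin, hΦΦ', hΦ'st⟩ := exists_stable hker hΦfin
  obtain ⟨n, ρ, hρ⟩ := exists_matRep A hΦ'fin hΦ'st
  obtain ⟨T, hT1, hT2⟩ := exists_finset_frob (A := AlgebraicClosure F) S
    (A.act.ker.index * ℓ ^ (n * n * d + n * n * d))
  refine ⟨T, hT1, fun r₁ r₂ hr₁ hr₂ hc₁ hc₂ hu₁ hu₂ hd₁ hd₂ hm γ₀ => ?_⟩
  obtain ⟨L₁, hL₁fd, hL₁d, hL₁⟩ := hd₁
  obtain ⟨L₂, hL₂fd, hL₂d, hL₂⟩ := hd₂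
  have hinj : ∀ L : IntermediateField ℚ_[ℓ] (PadicAlgCl ℓ), Function.Injective (inclL L) :=
    fun L => Subtype.val_injective
  obtain ⟨r₁', hr₁'⟩ := exists_corestrict A (inclL L₁) (hinj L₁) r₁
    (fun γ f => ⟨⟨_, hL₁ γ f⟩, rfl⟩)
  obtain ⟨r₂', hr₂'⟩ := exists_corestrict A (inclL L₂) (hinj L₂) r₂
    (fun γ f => ⟨⟨_, hL₂ γ f⟩, rfl⟩)
  let W := Matrix (Fin n) (Fin n) L₁ × Matrix (Fin n) (Fin n) L₂
  have hf1 : Module.Finite ℚ_[ℓ] (Matrix (Fin n) (Fin n) L₁) := Module.Finite.matrix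
  have hf2 : Module.Finite ℚ_[ℓ] (Matrix (Fin n) (Fin n) L₂) := Module.Finite.matrix
  have hfW : FiniteDimensional ℚ_[ℓ] W := Module.Finite.prod
  have hrank : Module.finrank ℚ_[ℓ] W ≤ n * n * d + n * n * d := by
    change Module.finrank ℚ_[ℓ] (Matrix (Fin n) (Fin n) L₁ × Matrix (Fin n) (Fin n) L₂) ≤ _
    rw [Module.finrank_prod, Module.finrank_matrix, Module.finrank_matrix, Fintype.card_fin]
    gcongr
  let D : Gal(AlgebraicClosure F/F) →* W := ((ρ.ev L₁).comp r₁').prod ((ρ.ev L₂).comp r₂')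
  have hD : Continuous D := (continuous_ev_restrict ρ hker r₁' r₁ hr₁' hr₁ hc₁).prodMk
    (continuous_ev_restrict ρ hker r₂' r₂ hr₂' hr₂ hc₂)
  obtain ⟨U, hUn, hUo, hUK, hUi, hU1, hUspan⟩ := exists_open_normal (ℓ := ℓ) D hD A.act.ker
    (MonoidHom.normal_ker _) hker
  have hi : U.index ≤ A.act.ker.index * ℓ ^ (n * n * d + n * n * d) :=
    hUi.trans (Nat.mul_le_mul_left _ (Nat.pow_le_pow_right (Fact.out : ℓ.Prime).pos hrank))
  have hinert : ∀ v, v ∉ S → ∀ P : Ideal (𝓞 (AlgebraicClosure F)), IsOver v P →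
      ∀ u : Gal(AlgebraicClosure F/F), (∀ x : 𝓞 (AlgebraicClosure F), u • x - x ∈ P) →
        u ∈ U := by
    intro v hv P hP u hu
    have hact : A.act u = 1 := hS v hv P hP u hu
    have hP1 : ρ.P u = 1 := ρ.P_eq u hact
    have hleft : ∀ (L : IntermediateField ℚ_[ℓ] (PadicAlgCl ℓ))
        (r' : Gal(AlgebraicClosure F/F) →* A.LGroup L)
        (r : Gal(AlgebraicClosure F/F) →* A.LGroup (PadicAlgCl ℓ))
        (_ : ∀ γ, A.mapL (inclL L) (r' γ) = r γ) (_ : ∀ γ, (r γ).right = γ),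
        (r u).left = 1 → ρ.ev L (r' u) = 1 := by
      intro L r' r h hr hleft
      have h1 : r' u = ⟨1, u⟩ := by
        apply mapL_injective A (hinj L)
        rw [h]
        refine SemidirectProduct.ext ?_ (hr u)
        rw [hleft]
        change _ = Pts.map (inclL L) 1
        rw [map_one]
      rw [h1, MatRep.ev_apply]
      change ρ.gm 1 * (ρ.P u).map (algebraMap ℚ L) = 1
      rw [hP1, ρ.gm_one]
      simp
    refine hU1 u hact ?_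
    change (ρ.ev L₁ (r₁' u), ρ.ev L₂ (r₂' u)) = 1
    rw [hleft L₁ r₁' r₁ hr₁' hr₁ (hu₁ v hv P hP u hu),
      hleft L₂ r₂' r₂ hr₂' hr₂ (hu₂ v hv P hP u hu)]
    rfl
  have hrep := hT2 U hUn hUo hi hinert
  have hUfin : U.index ≠ 0 := by
    have := Subgroup.quotient_finite_of_isOpen U hUo
    exact (Subgroup.finiteIndex_of_finite_quotient (H := U)).index_ne_zero
  have hΔ : ∀ γ, ∃ δ ∈ {δ | A.Matched r₁ r₂ δ}, γ⁻¹ * δ ∈ U := by
    intro γ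
    obtain ⟨v, hv, hv'⟩ := hrep γ
    obtain ⟨P, hP, hPφ⟩ := hφ v (hT1 v hv)
    rcases hPφ with hPφ | hPφ
    · obtain ⟨δ, k, hδ⟩ := hv' P (φ v) hP hPφ
      exact ⟨_, (hm v hv).transport A hr₁ hr₂ δ k, hδ⟩
    · obtain ⟨δ, k, hδ⟩ := hv' P (φ v)⁻¹ hP hPφ
      refine ⟨_, (hm v hv).transport A hr₁ hr₂ δ (k * (U.index - 1)), ?_⟩
      have h1 : (φ v) ^ (k * (U.index - 1)) = ((φ v)⁻¹) ^ k * ((φ v) ^ U.index) ^ k := by
        obtain ⟨N, hN⟩ := Nat.exists_eq_succ_of_ne_zero hUfin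
        rw [hN, Nat.succ_sub_one, inv_pow, ← pow_mul, Nat.succ_eq_add_one]
        have h2 : (N + 1) * k = k + k * N := by ring
        rw [h2, pow_add, inv_mul_cancel_left]
      rw [h1]
      have h3 : γ⁻¹ * (δ * (((φ v)⁻¹) ^ k * ((φ v) ^ U.index) ^ k) * δ⁻¹) =
          (γ⁻¹ * (δ * ((φ v)⁻¹) ^ k * δ⁻¹)) * (δ * ((φ v) ^ U.index) ^ k * δ⁻¹) := by group
      rw [h3]
      refine U.mul_mem hδ (hUn.conj_mem _ (U.pow_mem ?_ k) δ)
      exact Subgroup.pow_index_mem U (φ v)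
  have hspan := hUspan _ hΔ γ₀
  obtain ⟨Φγ, hΦγ1, hΦγ2, hΦγ3⟩ := hΦ γ₀
  refine hΦγ3 _ (r₁ γ₀).left.hom (r₂ γ₀).left.hom fun f hf => ?_
  refine matched_of_span ρ r₁' r₂' r₁ r₂ hr₁' hr₂' hr₁ hr₂ γ₀
    {δ | δ ∈ {δ | A.Matched r₁ r₂ δ} ∧ γ₀⁻¹ * δ ∈ A.act.ker} ?_ (hρ f (hΦΦ' (hΦγ1 hf))) ?_ hspan
  · rintro δ ⟨_, hδ⟩
    rw [MonoidHom.mem_ker, map_mul, map_inv, inv_mul_eq_one] at hδ
    exact hδ.symm
  · rintro δ ⟨hδ1, hδ2⟩
    rw [MonoidHom.mem_ker, map_mul, map_inv, inv_mul_eq_one] at hδ2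
    have h4 : f ∈ A.inv δ := by
      rw [← inv_congr A hδ2]
      exact hΦγ2 hf
    exact hδ1 f h4

end Core
end Pool.Agent.Lib.MP_666dc0_nt
end

section

open TensorProduct Coalgebra Topology NumberField IsDedekindDomain
open scoped TensorProduct Matrix Pointwise NumberField

namespace Pool.Agent.Lib.MP_666dc0_nt

section OnePrime

variable {F : Type*} [Field F] [NumberField F] {O : Type} [CommRing O] [HopfAlgebra ℚ O]
  [Algebra.FiniteType ℚ O] (A : HopfAction Gal(AlgebraicClosure F/F) O)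

lemma exists_defDeg (ℓ : ℕ) [Fact ℓ.Prime]
    (r : Gal(AlgebraicClosure F/F) →* A.LGroup (PadicAlgCl ℓ)) (hr : IsAdmissible A r) :
    ∃ d, DefDeg r d := by
  obtain ⟨L, hL, hL'⟩ := exists_field_of_def ℓ (fun γ => (r γ).left.hom) hr.cont (fun L => by
    -- the subgroup of elements with values in `L`
    let V : Subgroup Gal(AlgebraicClosure F/F) :=
      { carrier := {γ | ∃ x : A.LGroup L, A.mapL (inclL L) x = r γ}
        mul_mem' := by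
          rintro a b ⟨x, hx⟩ ⟨y, hy⟩
          exact ⟨x * y, by rw [map_mul, hx, hy, map_mul]⟩
        one_mem' := ⟨1, by rw [map_one, map_one]⟩
        inv_mem' := by
          rintro a ⟨x, hx⟩
          exact ⟨x⁻¹, by rw [map_inv, hx, map_inv]⟩ }
    refine ⟨V, fun γ => ⟨?_, fun h => ?_⟩⟩
    · rintro ⟨x, hx⟩ f
      rw [← hx]
      exact (x.left.hom f).2
    · let g : O →ₐ[ℚ] ((L.toSubalgebra).restrictScalars ℚ) :=
        (r γ).left.hom.codRestrict ((L.toSubalgebra).restrictScalars ℚ) h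
      refine ⟨⟨⟨(g : O →ₐ[ℚ] L)⟩, (r γ).right⟩, ?_⟩
      refine SemidirectProduct.ext ?_ rfl
      ext f
      rfl)
  exact ⟨Module.finrank ℚ_[ℓ] L, L, hL, le_rfl, hL'⟩

variable (S₀ : Finset (HeightOneSpectrum (𝓞 F)))
  (φ : HeightOneSpectrum (𝓞 F) → Gal(AlgebraicClosure F/F))

theorem exists_numberField_aux (hred : LinearlyReductive O)
    (hker : IsOpen (A.act.ker : Set Gal(AlgebraicClosure F/F)))
    (hunr : ∀ v, v ∉ S₀ → ∀ P u, IsInertiaAt v P u → A.act u = 1)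
    (hφ : ∀ v, v ∉ S₀ → ∃ P : Ideal (𝓞 (AlgebraicClosure F)), IsOver v P ∧
      (IsFrob v P (φ v) ∨ IsFrob v P (φ v)⁻¹))
    (s : ∀ v, A.inv (φ v) →ₐ[ℚ] ℂ) (ℓ : ℕ) [Fact ℓ.Prime]
    (h : ∀ ι : ℂ ≃+* PadicAlgCl ℓ, ∃ r : Gal(AlgebraicClosure F/F) →* A.LGroup (PadicAlgCl ℓ),
      IsAdmissible A r ∧ ∀ v, v ∉ S₀ → (ℓ : 𝓞 F) ∉ v.asIdeal →
        IsConjAt A r v (φ v) ((ι : ℂ →+* PadicAlgCl ℓ).comp (s v : A.inv (φ v) →+* ℂ)))
    {𝔸 : Type} [Field 𝔸] [Algebra ℚ 𝔸] [IsGalois ℚ 𝔸] (h𝔸 : Countable 𝔸) (e : 𝔸 →ₐ[ℚ] ℂ)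
    (he : ∀ x : ℂ, IsAlgebraic ℚ x → ∃ y, e y = x) :
    ∃ M : IntermediateField ℚ 𝔸, FiniteDimensional ℚ M ∧
      ∀ v, v ∉ S₀ → (ℓ : 𝓞 F) ∉ v.asIdeal → ∀ f, ∃ y ∈ M, e y = s v f := by
  classical
  obtain ⟨I, hI1, hI⟩ := hred
  have hℓ0 : (ℓ : 𝓞 F) ≠ 0 := by exact_mod_cast (Fact.out : ℓ.Prime).ne_zero
  have hfin : {v : HeightOneSpectrum (𝓞 F) | (ℓ : 𝓞 F) ∈ v.asIdeal}.Finite := finite_mem hℓ0
  let S : Finset (HeightOneSpectrum (𝓞 F)) := S₀ ∪ hfin.toFinset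
  have hS : ∀ v, v ∉ S ↔ v ∉ S₀ ∧ (ℓ : 𝓞 F) ∉ v.asIdeal := by
    intro v
    simp only [S, Finset.mem_union, Set.Finite.mem_toFinset, Set.mem_ofPred_eq, not_or]
  -- the values are algebraic
  have halg : ∀ v, v ∉ S → ∀ f, IsAlgebraic ℚ (s v f) := by
    intro v hv f
    obtain ⟨hv1, hv2⟩ := (hS v).mp hv
    obtain ⟨C, hC⟩ := exists_bound (A := A) (PadicAlgCl ℓ) hker I hI1 hI f.2
    by_contra hx
    obtain ⟨ι, hι⟩ := exists_iso_norm_gt ℓ hx C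
    obtain ⟨r, hr1, hr2⟩ := h ι
    have h1 := hC r hr1.proj hr1.cont
    rw [(hr2 v hv1 hv2).value f] at h1
    exact absurd hι (not_lt.mpr h1)
  -- the isomorphisms attached to elements of the Galois group
  have h𝔸c : Cardinal.mk 𝔸 ≤ Cardinal.aleph0 := Cardinal.mk_le_aleph0
  obtain ⟨ι₀, -⟩ := exists_iso_extending (k := ℚ) ℓ Cardinal.mk_le_aleph0 (algebraMap ℚ ℂ)
    (algebraMap ℚ (PadicAlgCl ℓ))
  have hι : ∀ τ : Gal(𝔸/ℚ), ∃ ι : ℂ ≃+* PadicAlgCl ℓ, ∀ x : 𝔸, ι (e x) = ι₀ (e (τ x)) := by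
    intro τ
    obtain ⟨ι, hι⟩ := exists_iso_extending ℓ h𝔸c (e : 𝔸 →+* ℂ)
      (((ι₀ : ℂ →+* PadicAlgCl ℓ).comp (e : 𝔸 →+* ℂ)).comp (τ : 𝔸 →+* 𝔸))
    exact ⟨ι, hι⟩
  choose ι hι using hι
  choose r hr1 hr2 using fun τ => h (ι τ)
  have hval : ∀ τ v, v ∉ S → ∀ (f : A.inv (φ v)) (y : 𝔸), e y = s v f →
      (r τ (φ v)).left.hom (f : O) = ι₀ (e (τ y)) := by
    intro τ v hv f y hy
    obtain ⟨hv1, hv2⟩ := (hS v).mp hv
    rw [(hr2 τ v hv1 hv2).value f, ← hι, hy]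
    rfl
  have hur : ∀ τ, UnramOutside S (r τ) := by
    intro τ v hv P hP u hu
    obtain ⟨hv1, hv2⟩ := (hS v).mp hv
    exact (hr2 τ v hv1 hv2).unram P u ⟨hP, hu⟩
  choose d hd using fun τ => exists_defDeg A ℓ (r τ) (hr1 τ)
  have hdmono : ∀ τ n, d τ ≤ n → DefDeg (r τ) n := by
    intro τ n hn
    obtain ⟨L, hL1, hL2, hL3⟩ := hd τ
    exact ⟨L, hL1, hL2.trans hn, hL3⟩
  let Y : Set 𝔸 := {y | ∃ v, v ∉ S ∧ ∃ f : A.inv (φ v), e y = s v f}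
  have hmain := baire_descent (k := ℚ) (A := 𝔸) (fun n => {τ | d τ ≤ n})
    (fun τ => ⟨d τ, le_refl (d τ)⟩) Y ?_
  · obtain ⟨M, hM1, hM2⟩ := hmain
    refine ⟨M, hM1, fun v hv1 hv2 f => ?_⟩
    have hv : v ∉ S := (hS v).mpr ⟨hv1, hv2⟩
    obtain ⟨y, hy⟩ := he _ (halg v hv f)
    exact ⟨y, hM2 ⟨v, hv, f, hy⟩, hy⟩
  · intro n
    obtain ⟨T, hT1, hT2⟩ := exists_finset_matched A hker S
      (fun v hv P hP u hu => hunr v ((hS v).mp hv).1 P u ⟨hP, hu⟩) φ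
      (fun v hv => hφ v ((hS v).mp hv).1) ℓ n
    -- finitely many functions decide
    choose Φ hΦ1 hΦ2 using fun v : HeightOneSpectrum (𝓞 F) =>
      exists_finset_decide (A.inv (φ v) : Set O)
    have hpre : ∀ v, v ∉ S → ∀ f : O, ∃ y : 𝔸, ∀ hf : f ∈ A.inv (φ v), e y = s v ⟨f, hf⟩ := by
      intro v hv f
      by_cases hf : f ∈ A.inv (φ v)
      · obtain ⟨y, hy⟩ := he _ (halg v hv ⟨f, hf⟩)
        exact ⟨y, fun _ => hy⟩
      · exact ⟨0, fun hf' => absurd hf' hf⟩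
    choose! y hy using hpre
    refine ⟨T.biUnion fun v => (Φ v).image (y v), fun τ₁ hτ₁ τ₂ hτ₂ hΨ => ?_⟩
    have hmatch := hT2 (r τ₁) (r τ₂) (hr1 τ₁).proj (hr1 τ₂).proj (hr1 τ₁).cont (hr1 τ₂).cont
      (hur τ₁) (hur τ₂) (hdmono τ₁ n hτ₁) (hdmono τ₂ n hτ₂) (fun v hv => by
        refine hΦ2 v _ (r τ₁ (φ v)).left.hom (r τ₂ (φ v)).left.hom fun f hf => ?_
        have hfm : f ∈ A.inv (φ v) := hΦ1 v hf
        have hvS := hT1 v hv
        rw [hval τ₁ v hvS ⟨f, hfm⟩ (y v f) (hy v hvS f hfm),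
          hval τ₂ v hvS ⟨f, hfm⟩ (y v f) (hy v hvS f hfm),
          hΨ (y v f) (Finset.mem_biUnion.mpr ⟨v, hv, Finset.mem_image_of_mem _ hf⟩)])
    rintro z ⟨v, hv, f, hz⟩
    have h2 := hmatch (φ v) f f.2
    rw [hval τ₁ v hv f z hz, hval τ₂ v hv f z hz] at h2
    exact e.injective (ι₀.injective h2)

/-- The one-prime theorem. -/
theorem exists_numberField_one_prime (hred : LinearlyReductive O)
    (hker : IsOpen (A.act.ker : Set Gal(AlgebraicClosure F/F)))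
    (hunr : ∀ v, v ∉ S₀ → ∀ P u, IsInertiaAt v P u → A.act u = 1)
    (hφ : ∀ v, v ∉ S₀ → ∃ P : Ideal (𝓞 (AlgebraicClosure F)), IsOver v P ∧
      (IsFrob v P (φ v) ∨ IsFrob v P (φ v)⁻¹))
    (s : ∀ v, A.inv (φ v) →ₐ[ℚ] ℂ) (ℓ : ℕ) [Fact ℓ.Prime]
    (h : ∀ ι : ℂ ≃+* PadicAlgCl ℓ, ∃ r : Gal(AlgebraicClosure F/F) →* A.LGroup (PadicAlgCl ℓ),
      IsAdmissible A r ∧ ∀ v, v ∉ S₀ → (ℓ : 𝓞 F) ∉ v.asIdeal →
        IsConjAt A r v (φ v) ((ι : ℂ →+* PadicAlgCl ℓ).comp (s v : A.inv (φ v) →+* ℂ))) :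
    ∃ E : IntermediateField ℚ ℂ, FiniteDimensional ℚ E ∧
      ∀ v, v ∉ S₀ → (ℓ : 𝓞 F) ∉ v.asIdeal → ∀ f, s v f ∈ E := by
  classical
  let 𝔸 := algebraicClosure ℚ ℂ
  let i𝔸 : Algebra ℚ 𝔸 := IntermediateField.algebra' 𝔸
  have hal : Algebra.IsAlgebraic ℚ 𝔸 := algebraicClosure.isAlgebraic ℚ ℂ
  have hcl : IsAlgClosure ℚ 𝔸 := algebraicClosure.isAlgClosure ℚ ℂ
  have hgal : IsGalois ℚ 𝔸 := by
    have h1 : Algebra.IsSeparable ℚ 𝔸 := inferInstance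
    have h2 : Normal ℚ 𝔸 := IsAlgClosure.normal ℚ 𝔸
    exact ⟨⟩
  have hcount : Countable 𝔸 := by
    have h1 := Algebra.IsAlgebraic.cardinalMk_le_max ℚ 𝔸
    rw [← Cardinal.mk_le_aleph0_iff]
    simpa using h1
  have he : ∀ x : ℂ, IsAlgebraic ℚ x → ∃ y : 𝔸, 𝔸.val y = x := fun x hx =>
    ⟨⟨x, mem_algebraicClosure_iff.mpr hx⟩, rfl⟩
  obtain ⟨M, hM1, hM2⟩ := exists_numberField_aux A S₀ φ hred hker hunr hφ s ℓ h hcount 𝔸.val he
  have hM3 : FiniteDimensional ℚ (M.map 𝔸.val) :=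
    (IntermediateField.equivMap M 𝔸.val).toLinearEquiv.finiteDimensional
  refine ⟨M.map 𝔸.val, hM3, fun v hv1 hv2 f => ?_⟩
  obtain ⟨y, hy1, hy2⟩ := hM2 v hv1 hv2 f
  rw [← hy2]
  exact ⟨y, hy1, rfl⟩

end OnePrime
end Pool.Agent.Lib.MP_666dc0_nt
end
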