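import Pool.Agent.Lib.MP_666dc0_nt.FM.A1
import Pool.Agent.Lib.MP_666dc0_nt.ZO.R4
import Pool.Agent.Lib.MP_666dc0_nt.Mg.G075

section

/-!
# Leading monomials in the completed group algebra
-/

set_option autoImplicit false

namespace Pool.Agent.Lib.MP_666dc0_nt.FM.PA

open ZO

variable {ℓ : ℕ} [Fact ℓ.Prime] {d : ℕ} (T : UTow ℓ d) (k : Type) [Field k] [CharP k ℓ]

theorem lt_pow_of_deg {α : Fin d → ℕ} {s : ℕ} (h : deg α ≤ s) (i : Fin d) : α i < ℓ ^ s :=
  ((le_deg α i).trans h).trans_lt (Nat.lt_pow_self (Fact.out : ℓ.Prime).one_lt)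

omit [Fact ℓ.Prime] [CharP k ℓ] in
/-- The projection to the level `s`. -/
noncomputable def lev (s : ℕ) : T.Om k →+* MonoidAlgebra k (T.P s) := (T.om k).pi s

omit [Fact ℓ.Prime] [CharP k ℓ] in
theorem lev_map (s : ℕ) (a : T.Om k) :
    MonoidAlgebra.mapDomainRingHom k (T.pr s) (lev T k (s + 1) a) = lev T k s a := (T.om k).f_pi s a

/-- The coefficient of the monomial `α`. -/
noncomputable def co (a : T.Om k) (α : Fin d → ℕ) : k := cf T k (deg α) (lev T k (deg α) a) α

theorem cf_mul_expand (s : ℕ) (x y : MonoidAlgebra k (T.P s)) (w : Fin d → ℕ) :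
    cf T k s (x * y) w = ∑ α : Fin d → Fin (ℓ ^ s), ∑ β : Fin d → Fin (ℓ ^ s),
        cf T k s x (fun i => (α i : ℕ)) * (cf T k s y (fun i => (β i : ℕ)) *
          cf T k s (mono k (T.g s) (fun i => (α i : ℕ)) * mono k (T.g s) (fun i => (β i : ℕ))) w) := by
  have h2 := cf_expand T k s x
  have h3 := cf_expand T k s y
  have h4 : x * y = ∑ α : Fin d → Fin (ℓ ^ s), ∑ β : Fin d → Fin (ℓ ^ s),
        (cf T k s x (fun i => (α i : ℕ)) * cf T k s y (fun i => (β i : ℕ))) •
          (mono k (T.g s) (fun i => (α i : ℕ)) * mono k (T.g s) (fun i => (β i : ℕ))) := by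
    conv_lhs => rw [h2, h3]
    rw [Finset.sum_mul]
    refine Finset.sum_congr rfl fun α _ => ?_
    rw [Finset.mul_sum]
    refine Finset.sum_congr rfl fun β _ => ?_
    rw [smul_mul_smul_comm]
  rw [h4, cf_sum]
  refine Finset.sum_congr rfl fun α _ => ?_
  rw [cf_sum]
  refine Finset.sum_congr rfl fun β _ => ?_
  rw [cf_smul, mul_assoc]

theorem cf_pi_succ (a : T.Om k) (s : ℕ) (α : Fin d → ℕ) (h : ∀ i, α i < ℓ ^ s) :
    cf T k (s + 1) (lev T k (s + 1) a) α = cf T k s (lev T k s a) α := by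
  rw [← lev_map T k s a]
  exact (cf_map T k s _ α h).symm

theorem cf_pi (a : T.Om k) {s s' : ℕ} (hs : s ≤ s') (α : Fin d → ℕ) (h : ∀ i, α i < ℓ ^ s) :
    cf T k s' (lev T k s' a) α = cf T k s (lev T k s a) α := by
  induction s', hs using Nat.le_induction with
  | base => rfl
  | succ s' hs ih =>
    rw [cf_pi_succ T k a s' α, ih]
    intro i
    exact (h i).trans_le (Nat.pow_le_pow_right (Fact.out : ℓ.Prime).pos hs)

theorem co_eq (a : T.Om k) {s : ℕ} (α : Fin d → ℕ) (h : ∀ i, α i < ℓ ^ s) :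
    cf T k s (lev T k s a) α = co T k a α := by
  unfold co
  rcases le_total (deg α) s with h1 | h1
  · exact cf_pi T k a h1 α (lt_pow_of_deg le_rfl)
  · exact (cf_pi T k a h1 α h).symm

theorem co_add (a b : T.Om k) (α : Fin d → ℕ) : co T k (a + b) α = co T k a α + co T k b α := by
  unfold co
  rw [map_add]
  exact cf_add T k _ _ _ _

theorem co_sub (a b : T.Om k) (α : Fin d → ℕ) : co T k (a - b) α = co T k a α - co T k b α := by
  unfold co
  rw [map_sub]
  exact cf_sub T k _ _ _ _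

theorem co_zero (α : Fin d → ℕ) : co T k (0 : T.Om k) α = 0 := by
  unfold co
  rw [map_zero]
  exact cf_zero T k _ _

theorem eq_of_co {a b : T.Om k} (h : ∀ α, co T k a α = co T k b α) : a = b := by
  apply (T.om k).ext
  intro s
  change lev T k s a = lev T k s b
  refine cf_ext T k fun α hα => ?_
  rw [co_eq T k a α hα, co_eq T k b α hα, h]

theorem pi_eq_of_co {a b : T.Om k} {s m : ℕ} (h : ∀ α, deg α < m → co T k a α = co T k b α)
    (hm : d * ℓ ^ s < m) : lev T k s a = lev T k s b := by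
  refine cf_ext T k fun α hα => ?_
  rw [co_eq T k a α hα, co_eq T k b α hα, h]
  refine lt_of_le_of_lt ?_ hm
  calc deg α ≤ ∑ _i : Fin d, ℓ ^ s := Finset.sum_le_sum fun i _ => (hα i).le
    _ = d * ℓ ^ s := by simp

/-- `u` is the leading monomial of `a`. -/
def IsLead (a : T.Om k) (u : Fin d → ℕ) : Prop :=
  co T k a u ≠ 0 ∧ ∀ v, co T k a v ≠ 0 → key u ≤ key v

theorem exists_lead {a : T.Om k} (ha : a ≠ 0) : ∃ u, IsLead T k a u := by
  have h : {v | co T k a v ≠ 0}.Nonempty := by
    by_contra h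
    rw [Set.not_nonempty_iff_eq_empty] at h
    apply ha
    refine eq_of_co T k fun α => ?_
    rw [co_zero]
    by_contra h1
    have : α ∈ ({v | co T k a v ≠ 0} : Set (Fin d → ℕ)) := h1
    rw [h] at this
    exact this
  obtain ⟨u, hu, hmin⟩ := exists_min h
  exact ⟨u, hu, hmin⟩

/-- The leading coefficient of a product. -/
theorem co_mul {a b : T.Om k} {u v : Fin d → ℕ} (ha : ∀ x, co T k a x ≠ 0 → key u ≤ key x)
    (hb : ∀ x, co T k b x ≠ 0 → key v ≤ key x) (w : Fin d → ℕ) (hw : key w ≤ key (u + v)) :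
    co T k (a * b) w = if w = u + v then co T k a u * co T k b v else 0 := by
  classical
  have hdw : deg w ≤ deg u + deg v := by
    rw [← deg_add]
    exact deg_le_of_key hw
  obtain ⟨s, hs⟩ : ∃ s, s = deg u + deg v := ⟨_, rfl⟩
  have hw' : ∀ i, w i < ℓ ^ s := lt_pow_of_deg (by omega)
  have hu' : ∀ i, u i < ℓ ^ s := lt_pow_of_deg (by omega)
  have hv' : ∀ i, v i < ℓ ^ s := lt_pow_of_deg (by omega)
  have h1 : cf T k s (lev T k s (a * b)) w =
      ∑ α : Fin d → Fin (ℓ ^ s), ∑ β : Fin d → Fin (ℓ ^ s),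
        co T k a (fun i => (α i : ℕ)) * (co T k b (fun i => (β i : ℕ)) *
          cf T k s (mono k (T.g s) (fun i => (α i : ℕ)) * mono k (T.g s) (fun i => (β i : ℕ))) w) := by
    rw [map_mul, cf_mul_expand]
    refine Finset.sum_congr rfl fun α _ => Finset.sum_congr rfl fun β _ => ?_
    rw [co_eq T k a _ (fun i => (α i).2), co_eq T k b _ (fun i => (β i).2)]
  rw [← co_eq T k (a * b) w hw', h1]
  -- the only possibly non-zero term
  have hterm : ∀ α β : Fin d → Fin (ℓ ^ s), co T k a (fun i => (α i : ℕ)) *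
      (co T k b (fun i => (β i : ℕ)) *
        cf T k s (mono k (T.g s) (fun i => (α i : ℕ)) * mono k (T.g s) (fun i => (β i : ℕ))) w) ≠ 0 →
      w = u + v ∧ (fun i => (α i : ℕ)) = u ∧ (fun i => (β i : ℕ)) = v := by
    intro α β hne
    have hα := ha _ (left_ne_zero_of_mul hne)
    have hβ := hb _ (left_ne_zero_of_mul (right_ne_zero_of_mul hne))
    have hc := right_ne_zero_of_mul (right_ne_zero_of_mul hne)
    have hdα := deg_le_of_key hα
    have hdβ := deg_le_of_key hβ
    rw [cf_mono_mul T k s _ _ _ hw' (by omega)] at hc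
    have hsum : (fun i => (α i : ℕ)) + (fun i => (β i : ℕ)) = w := by
      by_contra h5
      rw [if_neg h5] at hc
      exact hc rfl
    have h6 : key (u + v) ≤ key (u + fun i => (β i : ℕ)) := by
      rw [add_comm u v, add_comm u]
      exact key_add_le hβ u
    have h7 : key (u + fun i => (β i : ℕ)) ≤ key ((fun i => (α i : ℕ)) + fun i => (β i : ℕ)) :=
      key_add_le hα _
    rw [hsum] at h7
    have h8 : w = u + v := key_inj (le_antisymm hw (h6.trans h7))
    have h9 : (fun i => (α i : ℕ)) = u := by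
      by_contra h10
      have h11 : key u < key (fun i => (α i : ℕ)) := lt_of_le_of_ne hα fun h => h10 (key_inj h).symm
      have h12 := key_add_lt h11 (fun i => (β i : ℕ))
      rw [hsum] at h12
      exact absurd (h6.trans_lt h12) (not_lt.2 hw)
    refine ⟨h8, h9, ?_⟩
    rw [h8, h9] at hsum
    exact add_left_cancel hsum
  by_cases hwuv : w = u + v
  · rw [if_pos hwuv]
    rw [Finset.sum_eq_single (fun i => (⟨u i, hu' i⟩ : Fin (ℓ ^ s)))]
    · rw [Finset.sum_eq_single (fun i => (⟨v i, hv' i⟩ : Fin (ℓ ^ s)))]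
      · change co T k a u * (co T k b v * cf T k s (mono k (T.g s) u * mono k (T.g s) v) w) = _
        rw [cf_mono_mul T k s _ _ _ hw' hdw, if_pos hwuv.symm, mul_one]
      · intro β _ hβ
        by_contra hne
        apply hβ
        funext i
        exact Fin.ext (congrFun (hterm _ _ hne).2.2 i)
      · intro h
        exact absurd (Finset.mem_univ _) h
    · intro α _ hα
      refine Finset.sum_eq_zero fun β _ => ?_
      by_contra hne
      apply hα
      funext i
      exact Fin.ext (congrFun (hterm _ _ hne).2.1 i)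
    · intro h
      exact absurd (Finset.mem_univ _) h
  · rw [if_neg hwuv]
    refine Finset.sum_eq_zero fun α _ => Finset.sum_eq_zero fun β _ => ?_
    by_contra hne
    exact hwuv (hterm _ _ hne).1

theorem isLead_mul {a b : T.Om k} {u v : Fin d → ℕ} (ha : IsLead T k a u) (hb : IsLead T k b v) :
    IsLead T k (a * b) (u + v) := by
  refine ⟨?_, fun w hw => ?_⟩
  · rw [co_mul T k ha.2 hb.2 _ le_rfl, if_pos rfl]
    exact mul_ne_zero ha.1 hb.1
  · by_contra hlt
    push Not at hlt
    apply hw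
    rw [co_mul T k ha.2 hb.2 _ hlt.le, if_neg]
    intro h
    rw [h] at hlt
    exact lt_irrefl _ hlt

theorem om_noZeroDivisors : NoZeroDivisors (T.Om k) := by
  refine ⟨fun {a b} hab => ?_⟩
  by_contra hne
  push Not at hne
  obtain ⟨u, hu⟩ := exists_lead T k hne.1
  obtain ⟨v, hv⟩ := exists_lead T k hne.2
  have h := (isLead_mul T k hu hv).1
  rw [hab, co_zero] at h
  exact h rfl

/-- The monomial `γ`. -/
noncomputable def mo (γ : Fin d → ℕ) : T.Om k := ⟨fun s => mono k (T.g s) γ, fun s => map_mono T k s γ⟩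

theorem co_mo (γ w : Fin d → ℕ) : co T k (mo T k γ) w = if γ = w then 1 else 0 := by
  have h : co T k (mo T k γ) w = cf T k (max (deg γ) (deg w)) (mono k (T.g _) γ) w :=
    (co_eq T k (mo T k γ) w (lt_pow_of_deg (le_max_right _ _))).symm
  rw [h]
  exact cf_mono T k _ _ _ (lt_pow_of_deg (le_max_left _ _))

theorem isLead_mo (γ : Fin d → ℕ) : IsLead T k (mo T k γ) γ := by
  refine ⟨by rw [co_mo, if_pos rfl]; exact one_ne_zero, fun v hv => ?_⟩
  rw [co_mo] at hv
  by_cases h : γ = v
  · rw [h]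
  · rw [if_neg h] at hv
    exact absurd rfl hv

/-- Constants. -/
noncomputable def sc (c : k) : T.Om k :=
  ⟨fun s => algebraMap k (MonoidAlgebra k (T.P s)) c, fun s =>
    (MonoidAlgebra.mapDomainAlgHom k k (T.pr s)).commutes c⟩

theorem co_sc_mul (c : k) (a : T.Om k) (w : Fin d → ℕ) : co T k (sc T k c * a) w = c * co T k a w := by
  unfold co
  rw [map_mul]
  have h : lev T k (deg w) (sc T k c) * lev T k (deg w) a = c • lev T k (deg w) a :=
    (Algebra.smul_def c _).symm
  rw [h]
  exact cf_smul T k _ _ _ _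

end Pool.Agent.Lib.MP_666dc0_nt.FM.PA
end

section

/-!
TASK B2a. The rank of a non-zero element of `k[[G]]` on functions on `G / J`, in characteristic `ℓ`.

`rank_tower` (R4) gives `C` with `rank (mulLeft (b s)) ≥ (1 - C ℓ^-s) ℓ^(s d)` on `k[P s]`. Apply `rank_subgroup` (P2c) with `P = P t`,
`R = Unit`, `π : P t → G ⧸ J`, `π (q t g) = g J` (well defined as `ker (q t) ≤ J`), `H = J.map (q t)`, `π' : P t → P s` the projection,
`H' = ker π'`, the operators `(h f)(x) = ∑ p, b t p * f (p⁻¹ x)` on functions on `P t`, the given one on functions on `G ⧸ J`,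
and the one of `b s` on functions on `P s` (which is `mulLeft (b s)` in the basis `single x 1`).
-/

namespace Pool.Agent.Lib.MP_666dc0_nt.FM

open ZO

/-- the operator of an element of the group algebra on functions on `Unit × X` -/
private noncomputable def B2a_op {k : Type} [Field k] {P X : Type} [Group P] [MulAction P X]
    (b : MonoidAlgebra k P) : (Unit × X → k) →ₗ[k] (Unit × X → k) where
  toFun := fun f p => b.coeff.sum fun g a => a * f (p.1, g⁻¹ • p.2)
  map_add' := fun f f' => by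
    funext p
    simp only [Pi.add_apply, mul_add, Finsupp.sum_add]
  map_smul' := fun c f => by
    funext p
    simp only [Pi.smul_apply, smul_eq_mul, RingHom.id_apply]
    rw [Finsupp.mul_sum]
    refine Finsupp.sum_congr fun g _ => ?_
    ring

private theorem B2a_op_apply {k : Type} [Field k] {P X : Type} [Group P] [MulAction P X]
    (b : MonoidAlgebra k P) (f : Unit × X → k) (p : Unit × X) :
    B2a_op b f p = b.coeff.sum fun g a => a * f (p.1, g⁻¹ • p.2) := rfl

private theorem B2a_sum_map {k : Type} [Field k] {G P : Type} (q : G → P) (c : MonoidAlgebra k G)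
    (F : P → k) : ((MonoidAlgebra.mapDomain q c).coeff.sum fun p a => a * F p) =
      c.coeff.sum fun g a => a * F (q g) := by
  have h1 : (MonoidAlgebra.mapDomain q c).coeff = Finsupp.mapDomain q c.coeff := rfl
  rw [h1]
  exact Finsupp.sum_mapDomain_index (fun _ => zero_mul _) (fun _ _ _ => add_mul _ _ _)

private theorem B2a_rank_op {k : Type} [Field k] {P : Type} [Group P] [Finite P] (b : MonoidAlgebra k P) :
    Module.finrank k (LinearMap.range (LinearMap.mulLeft k b)) ≤
      Module.finrank k (LinearMap.range (B2a_op (X := P) b)) := by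
  classical
  let _ := Fintype.ofFinite P
  let ι : MonoidAlgebra k P →ₗ[k] (Unit × P → k) :=
    { toFun := fun a p => a.coeff p.2
      map_add' := fun a a' => rfl
      map_smul' := fun t a => rfl }
  have hι : Function.Injective ι := by
    intro a a' h
    refine MonoidAlgebra.ext ?_
    ext x
    exact congrFun h ((), x)
  have h1 : (LinearMap.range (LinearMap.mulLeft k b)).map ι ≤ LinearMap.range (B2a_op (X := P) b) := by
    rintro _ ⟨_, ⟨a, rfl⟩, rfl⟩
    refine ⟨ι a, ?_⟩
    funext p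
    rw [B2a_op_apply]
    change _ = (b * a).coeff p.2
    rw [MonoidAlgebra.coeff_mul_apply_left]
    rfl
  rw [(Submodule.equivMapOfInjective ι hι (LinearMap.range (LinearMap.mulLeft k b))).finrank_eq]
  exact Submodule.finrank_mono h1

theorem rank_quot (k : Type) [Field k] {ℓ : ℕ} [Fact ℓ.Prime] [CharP k ℓ] {d : ℕ} (G : Type) [Group G]
    (P : ℕ → Type) [∀ s, Group (P s)] [∀ s, Finite (P s)] (pr : ∀ s, P (s + 1) →* P s)
    (q : ∀ s, G →* P s) (hq : ∀ s, Function.Surjective (q s)) (hpr : ∀ s g, pr s (q (s + 1) g) = q s g)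
    (hP : ∀ s, ∃ g : Fin d → P s, IsUG ℓ (ℓ ^ s) d (P s) g) (b : ∀ s, MonoidAlgebra k (P s))
    (hb : ∀ s, MonoidAlgebra.mapDomain (pr s) (b (s + 1)) = b s) (s₀ : ℕ) (h0 : b s₀ ≠ 0) :
    ∃ C : ℝ, ∀ (s t : ℕ) (J : Subgroup G), s ≤ t → J ≤ (q s).ker → (q t).ker ≤ J →
      ∀ c : MonoidAlgebra k G, MonoidAlgebra.mapDomain (q t) c = b t →
      ∀ h : ((G ⧸ J) → k) →ₗ[k] ((G ⧸ J) → k), (∀ f y, h f y = c.coeff.sum fun g a => a * f (g⁻¹ • y)) →
      (1 - C / (ℓ : ℝ) ^ s) * (Nat.card (G ⧸ J) : ℝ) ≤ (Module.finrank k (LinearMap.range h) : ℝ) := by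
  classical
  have hl0 : (0 : ℝ) < (ℓ : ℝ) := by exact_mod_cast (Fact.out : ℓ.Prime).pos
  obtain ⟨C, hC⟩ := rank_tower k P pr hP b hb s₀ h0
  refine ⟨C, fun s t J hst hJs hJt c hc h hh => ?_⟩
  -- the projection `P t → P s`
  obtain ⟨π', hπ'q, hπ'b⟩ : ∃ π' : P t →* P s, (∀ g, π' (q t g) = q s g) ∧
      MonoidAlgebra.mapDomain π' (b t) = b s := by
    clear hh hc c hJt
    induction t, hst using Nat.le_induction with
    | base =>
      refine ⟨MonoidHom.id _, fun g => rfl, ?_⟩
      refine MonoidAlgebra.ext ?_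
      exact Finsupp.mapDomain_id
    | succ t _ ih =>
      obtain ⟨π', h1, h2⟩ := ih
      refine ⟨π'.comp (pr t), fun g => ?_, ?_⟩
      · rw [MonoidHom.comp_apply, hpr, h1]
      · rw [← h2, ← hb t]
        refine MonoidAlgebra.ext ?_
        exact Finsupp.mapDomain_comp (v := (b (t + 1)).coeff) (f := pr t) (g := π')
  have hpP : IsPGroup ℓ (P t) := by
    obtain ⟨g, hg⟩ := hP t
    apply IsPGroup.of_card (n := t * d)
    rw [hg.card, pow_mul]
  have hπ's : Function.Surjective π' := by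
    intro y
    obtain ⟨g, rfl⟩ := hq s y
    exact ⟨q t g, hπ'q g⟩
  -- the projection `P t → G ⧸ J`
  let π : P t → G ⧸ J := fun x => QuotientGroup.mk (Function.surjInv (hq t) x)
  have hπq : ∀ g, π (q t g) = QuotientGroup.mk g := by
    intro g
    refine QuotientGroup.eq.2 (hJt ?_)
    rw [MonoidHom.mem_ker, map_mul, map_inv, Function.surjInv_eq (hq t), inv_mul_cancel]
  have hπs : Function.Surjective π := by
    intro y
    induction y using QuotientGroup.induction_on with
    | H g => exact ⟨q t g, hπq g⟩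
  have hmem : ∀ g, q t g ∈ J.map (q t) ↔ g ∈ J := by
    intro g
    constructor
    · rintro ⟨g', hg', he⟩
      have h1 : g'⁻¹ * g ∈ (q t).ker := by
        rw [MonoidHom.mem_ker, map_mul, map_inv, he, inv_mul_cancel]
      have h2 := J.mul_mem hg' (hJt h1)
      rwa [mul_inv_cancel_left] at h2
    · intro hg
      exact ⟨g, hg, rfl⟩
  have hH : ∀ x y, π x = π y ↔ x⁻¹ * y ∈ J.map (q t) := by
    intro x y
    obtain ⟨g, rfl⟩ := hq t x
    obtain ⟨g', rfl⟩ := hq t y
    rw [hπq, hπq, ← map_inv, ← map_mul, hmem]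
    exact QuotientGroup.eq
  have hH' : ∀ x y, π' x = π' y ↔ x⁻¹ * y ∈ π'.ker := by
    intro x y
    rw [MonoidHom.mem_ker, map_mul, map_inv, inv_mul_eq_one]
  have hle : J.map (q t) ≤ π'.ker := by
    rintro _ ⟨g, hg, rfl⟩
    rw [MonoidHom.mem_ker, hπ'q]
    exact hJs hg
  -- the operator on functions on `G ⧸ J`
  let e : (Unit × (G ⧸ J) → k) ≃ₗ[k] ((G ⧸ J) → k) :=
    LinearEquiv.funCongrLeft k k (Equiv.punitProd (G ⧸ J)).symm
  let hY : (Unit × (G ⧸ J) → k) →ₗ[k] (Unit × (G ⧸ J) → k) :=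
    e.symm.toLinearMap ∘ₗ h ∘ₗ e.toLinearMap
  have hYa : ∀ f p, hY f p = c.coeff.sum fun g a => a * f (p.1, g⁻¹ • p.2) := by
    intro f p
    exact hh (e f) p.2
  have key := rank_subgroup k (P t) hpP Unit (G ⧸ J) (P s) π hπs π' hπ's (J.map (q t)) π'.ker hle hH hH'
    (B2a_op (X := P t) (b t)) hY (B2a_op (X := P s) (b s))
    (fun y f => by
      funext p
      rw [B2a_op_apply, B2a_op_apply]
      simp only [smul_eq_mul, mul_assoc])
    (fun f => by
      funext p
      obtain ⟨u, x⟩ := p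
      obtain ⟨g, rfl⟩ := hq t x
      rw [B2a_op_apply, hYa, ← hc]
      rw [B2a_sum_map (q t) c (fun x' => f ((u, q t g).1, π (x'⁻¹ • (u, q t g).2)))]
      refine Finsupp.sum_congr fun g' _ => ?_
      have h1 : π ((q t g')⁻¹ • q t g) = g'⁻¹ • π (q t g) := by
        rw [smul_eq_mul, ← map_inv, ← map_mul, hπq, hπq]
        rfl
      change c.coeff g' * f (u, π ((q t g')⁻¹ • q t g)) = c.coeff g' * f (u, g'⁻¹ • π (q t g))
      rw [h1])
    (fun f => by
      funext p
      rw [B2a_op_apply, B2a_op_apply, ← hπ'b]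
      rw [B2a_sum_map π' (b t) (fun x' => f ((p.1, π' p.2).1, x'⁻¹ • (p.1, π' p.2).2))]
      refine Finsupp.sum_congr fun g' _ => ?_
      simp only [smul_eq_mul, map_mul, map_inv])
  have hrk : Module.finrank k (LinearMap.range hY) = Module.finrank k (LinearMap.range h) := by
    have h1 : LinearMap.range hY = (LinearMap.range h).map e.symm.toLinearMap := by
      change LinearMap.range (e.symm.toLinearMap ∘ₗ h ∘ₗ e.toLinearMap) = _
      rw [LinearMap.range_comp, LinearMap.range_comp, LinearEquiv.range, Submodule.map_top]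
    rw [h1]
    exact LinearEquiv.finrank_map_eq e.symm _
  rw [hrk] at key
  obtain ⟨g, hg⟩ := hP s
  have hcard : (Nat.card (P s) : ℝ) = (ℓ : ℝ) ^ (s * d) := by
    rw [hg.card, ← pow_mul]
    push_cast
    rfl
  have h2 := (hC s).trans (Nat.cast_le.2 (B2a_rank_op (b s)))
  have hpos : (0 : ℝ) < (ℓ : ℝ) ^ (s * d) := by positivity
  have key' : (Nat.card (G ⧸ J) : ℝ) * (Module.finrank k (LinearMap.range (B2a_op (X := P s) (b s))) : ℝ) ≤
      (ℓ : ℝ) ^ (s * d) * (Module.finrank k (LinearMap.range h) : ℝ) := by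
    rw [← hcard]
    exact_mod_cast key
  have h3 : (ℓ : ℝ) ^ (s * d) * ((1 - C / (ℓ : ℝ) ^ s) * (Nat.card (G ⧸ J) : ℝ)) ≤
      (ℓ : ℝ) ^ (s * d) * (Module.finrank k (LinearMap.range h) : ℝ) := by
    refine le_trans (le_of_eq ?_) ((mul_le_mul_of_nonneg_left h2 (Nat.cast_nonneg (Nat.card (G ⧸ J)))).trans key')
    ring
  exact le_of_mul_le_mul_left h3 hpos

end Pool.Agent.Lib.MP_666dc0_nt.FM
end
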