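import Mathlib
import Pool.Agent.Lib.MP_666dc0_nt.FM.ODefs

section

/-!
# FM, C2: independent rows and the left kernel of a matrix over `Λ`

`rowMul φ X : (R → D) →ₗ[D] (R → D)`, `v ↦ v φ(X)`. Its range is the span of the rows of `φ(X)`, so `e` of the rows
are independent; its kernel has dimension `card R - e`; multiply a basis of the kernel by left common denominators.
-/

namespace Pool.Agent.Lib.MP_666dc0_nt.FM

/-- Right multiplication by the matrix `φ(X)` on the left `D`-space of row vectors. -/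
noncomputable def rowMul {Λ : Type} [Ring Λ] {D : Type} [DivisionRing D] (φ : Λ →+* D) {R : Type} [Fintype R]
    (X : Matrix R R Λ) : Module.End D (R → D) where
  toFun v q := ∑ p, v p * φ (X p q)
  map_add' a b := by
    funext q
    simp only [Pi.add_apply, add_mul, Finset.sum_add_distrib]
  map_smul' c a := by
    funext q
    simp only [Pi.smul_apply, smul_eq_mul, RingHom.id_apply, Finset.mul_sum, mul_assoc]

theorem rowMul_apply {Λ : Type} [Ring Λ] {D : Type} [DivisionRing D] (φ : Λ →+* D) {R : Type} [Fintype R]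
    (X : Matrix R R Λ) (v : R → D) (q : R) : rowMul φ X v q = ∑ p, v p * φ (X p q) := rfl

/-- `rowMul` reverses products. -/
theorem rowMul_mul {Λ : Type} [Ring Λ] {D : Type} [DivisionRing D] (φ : Λ →+* D) {R : Type} [Fintype R]
    (X Y : Matrix R R Λ) : rowMul φ (X * Y) = rowMul φ Y * rowMul φ X := by
  refine LinearMap.ext fun v => ?_
  funext q
  rw [Module.End.mul_apply]
  simp only [rowMul_apply, Matrix.mul_apply, map_sum, map_mul, Finset.mul_sum, Finset.sum_mul, mul_assoc]
  rw [Finset.sum_comm]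

theorem rowMul_add {Λ : Type} [Ring Λ] {D : Type} [DivisionRing D] (φ : Λ →+* D) {R : Type} [Fintype R]
    (X Y : Matrix R R Λ) : rowMul φ (X + Y) = rowMul φ X + rowMul φ Y := by
  refine LinearMap.ext fun v => ?_
  funext q
  rw [LinearMap.add_apply, Pi.add_apply]
  simp only [rowMul_apply, Matrix.add_apply, map_add, mul_add, Finset.sum_add_distrib]

theorem rowMul_one {Λ : Type} [Ring Λ] {D : Type} [DivisionRing D] (φ : Λ →+* D) {R : Type} [Fintype R]
    [DecidableEq R] : rowMul φ (1 : Matrix R R Λ) = 1 := by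
  refine LinearMap.ext fun v => ?_
  funext q
  rw [rowMul_apply, Module.End.one_apply, Finset.sum_eq_single q]
  · rw [Matrix.one_apply_eq, map_one, mul_one]
  · intro p _ hp
    rw [Matrix.one_apply_ne hp, map_zero, mul_zero]
  · intro h
    exact absurd (Finset.mem_univ q) h

private theorem C2_single {Λ : Type} [Ring Λ] {D : Type} [DivisionRing D] (φ : Λ →+* D) {R : Type} [Fintype R]
    [DecidableEq R] (X : Matrix R R Λ) (p : R) : rowMul φ X (Pi.single p 1) = fun q => φ (X p q) := by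
  funext q
  rw [rowMul_apply, Finset.sum_eq_single p]
  · rw [Pi.single_eq_same, one_mul]
  · intro p' _ hp
    rw [Pi.single_eq_of_ne hp, zero_mul]
  · intro h
    exact absurd (Finset.mem_univ p) h

theorem rowMul_eq_zero {Λ : Type} [Ring Λ] {D : Type} [DivisionRing D] (φ : Λ →+* D) (hφ : Function.Injective φ)
    {R : Type} [Fintype R] {X : Matrix R R Λ} (h : rowMul φ X = 0) : X = 0 := by
  classical
  ext p q
  have h1 := C2_single φ X p
  rw [h] at h1
  have h2 : φ (X p q) = 0 := (congrFun h1 q).symm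
  rw [Matrix.zero_apply]
  exact hφ (by rw [h2, map_zero])

private theorem C2_range {Λ : Type} [Ring Λ] {D : Type} [DivisionRing D] (φ : Λ →+* D) {R : Type} [Fintype R]
    (X : Matrix R R Λ) :
    LinearMap.range (rowMul φ X) = Submodule.span D (Set.range fun p => (fun q => φ (X p q) : R → D)) := by
  classical
  apply le_antisymm
  · rintro _ ⟨v, rfl⟩
    have h1 : rowMul φ X v = ∑ p, v p • (fun q => φ (X p q) : R → D) := by
      funext q
      rw [rowMul_apply, Finset.sum_apply]
      rfl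
    rw [h1]
    exact Submodule.sum_mem _ fun p _ => Submodule.smul_mem _ _ (Submodule.subset_span ⟨p, rfl⟩)
  · rw [Submodule.span_le]
    rintro _ ⟨p, rfl⟩
    exact ⟨Pi.single p 1, C2_single φ X p⟩

theorem exists_rows {Λ : Type} [Ring Λ] {D : Type} [DivisionRing D] (φ : Λ →+* D) {R : Type} [Fintype R]
    (X : Matrix R R Λ) : ∃ f : Fin (Module.finrank D (LinearMap.range (rowMul φ X))) → R,
      LinearIndependent D (fun p => (fun q => φ (X (f p) q) : R → D)) := by
  classical
  obtain ⟨κ, a, ha, hsp, hli⟩ := exists_linearIndependent' D (fun p => (fun q => φ (X p q) : R → D))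
  have hfin : Finite κ := Finite.of_injective a ha
  let _ : Fintype κ := Fintype.ofFinite κ
  have h1 := finrank_span_eq_card hli
  rw [hsp, ← C2_range] at h1
  let e : Fin (Module.finrank D (LinearMap.range (rowMul φ X))) ≃ κ := (Fintype.equivFinOfCardEq h1.symm).symm
  refine ⟨a ∘ e, ?_⟩
  exact hli.comp e e.injective

theorem exists_left_kernel {Λ : Type} [Ring Λ] {D : Type} [DivisionRing D] (φ : Λ →+* D)
    (hφ : Function.Injective φ) (hden : ∀ s : Finset D, ∃ a : Λ, a ≠ 0 ∧ ∀ y ∈ s, ∃ b : Λ, φ a * y = φ b)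
    {R : Type} [Fintype R] (X : Matrix R R Λ) :
    ∃ (n : ℕ) (Y : Matrix (Fin n) R Λ), n + Module.finrank D (LinearMap.range (rowMul φ X)) = Fintype.card R ∧
      (∀ p, rowMul φ X (fun q => φ (Y p q)) = 0) ∧
      LinearIndependent D (fun p => (fun q => φ (Y p q) : R → D)) := by
  classical
  let K := LinearMap.ker (rowMul φ X)
  let b := Module.finBasis D K
  obtain ⟨a, ha, hs⟩ := hden (Finset.univ.image fun p : Fin (Module.finrank D K) × R => (b p.1 : R → D) p.2)
  have h1 : ∀ p q, ∃ c : Λ, φ a * (b p : R → D) q = φ c := fun p q =>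
    hs _ (Finset.mem_image_of_mem (fun p : Fin (Module.finrank D K) × R => (b p.1 : R → D) p.2)
      (Finset.mem_univ (p, q)))
  choose Y hY using h1
  have hrow : ∀ p, (fun q => φ (Y p q) : R → D) = φ a • (b p : R → D) := by
    intro p
    funext q
    rw [← hY, Pi.smul_apply, smul_eq_mul]
  have ha' : φ a ≠ 0 := fun h => ha (hφ (by rw [h, map_zero]))
  refine ⟨Module.finrank D K, Matrix.of Y, ?_, ?_, ?_⟩
  · have h2 := LinearMap.finrank_range_add_finrank_ker (rowMul φ X)
    rw [Module.finrank_fintype_fun_eq_card] at h2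
    rw [← h2, add_comm]
  · intro p
    change rowMul φ X (fun q => φ (Y p q)) = 0
    rw [hrow, map_smul]
    have h2 : rowMul φ X (b p : R → D) = 0 := (b p).2
    rw [h2, smul_zero]
  · change LinearIndependent D (fun p => (fun q => φ (Y p q) : R → D))
    have h2 : (fun p => (fun q => φ (Y p q) : R → D)) = fun p => φ a • (b p : R → D) := funext hrow
    rw [h2]
    have h3 : LinearIndependent D fun p => (b p : R → D) :=
      b.linearIndependent.map' K.subtype (Submodule.ker_subtype _)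
    rw [Fintype.linearIndependent_iff] at h3 ⊢
    intro g hg p
    have h4 : ∑ i, (g i * φ a) • (b i : R → D) = 0 := by
      rw [← hg]
      exact Finset.sum_congr rfl fun i _ => mul_smul _ _ _
    have h5 := h3 (fun i => g i * φ a) h4 p
    exact (mul_eq_zero.1 h5).resolve_right ha'

end Pool.Agent.Lib.MP_666dc0_nt.FM
end

section

/-!
# FM, L: the order lemma

`cl` are the closed sets (closed under finite unions and intersections, with the descending chain condition), `ρ` a
monotone modular function on them with values in `ℕ`, `ρ ∅ = 0`, and `ρ p < ρ univ` for closed `p ≠ univ`. Then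
`univ` is the union of finitely many irreducible closed sets `C j` with weights `a j > 0`, and
`ρ p = ∑_{C j ⊆ p} a j`.
-/

namespace Pool.Agent.Lib.MP_666dc0_nt.FM

/-- Closed irreducible sets. -/
def Irr {X : Type} (cl : Set X → Prop) (C : Set X) : Prop :=
  cl C ∧ C.Nonempty ∧ ∀ p q, cl p → cl q → C ⊆ p ∪ q → C ⊆ p ∨ C ⊆ q

private theorem noeth_induction {X : Type} {cl : Set X → Prop}
    (hdcc : ∀ f : ℕ → Set X, (∀ n, cl (f n)) → (∀ n, f (n + 1) ⊆ f n) → ∃ n, ∀ m, n ≤ m → f m = f n)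
    {P : Set X → Prop} (h : ∀ p, cl p → (∀ q, cl q → q ⊂ p → P q) → P p) : ∀ p, cl p → P p := by
  classical
  intro p hp
  by_contra hcon
  have step : ∀ x : {p : Set X // cl p ∧ ¬P p}, ∃ y : {p : Set X // cl p ∧ ¬P p}, y.1 ⊂ x.1 := by
    rintro ⟨q, hq, hPq⟩
    by_contra hno
    refine hPq (h q hq fun q' hq' hlt => ?_)
    by_contra hP
    exact hno ⟨⟨q', hq', hP⟩, hlt⟩
  choose g hg using step
  let f : ℕ → {p : Set X // cl p ∧ ¬P p} := fun n => Nat.rec ⟨p, hp, hcon⟩ (fun _ x => g x) n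
  have hf : ∀ n, (f (n + 1)).1 ⊂ (f n).1 := fun n => hg (f n)
  obtain ⟨n, hn⟩ := hdcc (fun n => (f n).1) (fun n => (f n).2.1) (fun n => (hf n).subset)
  exact (hf n).ne (hn (n + 1) (Nat.le_succ n))

private theorem exists_max {X : Type} {cl : Set X → Prop} {ρ : Set X → ℕ} (he : cl ∅)
    (hmono : ∀ p q, cl p → cl q → p ⊆ q → ρ p ≤ ρ q) {C : Set X} (hC : Irr cl C) :
    ∃ q, cl q ∧ q ⊂ C ∧ ∀ q', cl q' → q' ⊂ C → ρ q' ≤ ρ q := by
  classical
  have hne : ∅ ⊂ C := Set.empty_ssubset.2 hC.2.1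
  have hbdd : ∃ n, ∀ q', cl q' → q' ⊂ C → ρ q' ≤ n := ⟨ρ C, fun q' hq' hlt => hmono _ _ hq' hC.1 hlt.subset⟩
  obtain ⟨n, hn, hmin⟩ : ∃ n, (∀ q', cl q' → q' ⊂ C → ρ q' ≤ n) ∧
      ∀ m, m < n → ¬∀ q', cl q' → q' ⊂ C → ρ q' ≤ m :=
    ⟨Nat.find hbdd, Nat.find_spec hbdd, fun m hm => Nat.find_min hbdd hm⟩
  rcases Nat.eq_zero_or_pos n with h0 | hpos
  · refine ⟨∅, he, hne, fun q' hq' hlt => ?_⟩
    rw [h0] at hn
    exact (hn q' hq' hlt).trans (Nat.zero_le _)
  · have h1 := hmin (n - 1) (by omega)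
    push Not at h1
    obtain ⟨q, hq, hlt, hqn⟩ := h1
    exact ⟨q, hq, hlt, fun q' hq' hlt' => (hn q' hq' hlt').trans (by omega)⟩

theorem exists_families {X : Type} (cl : Set X → Prop) (ρ : Set X → ℕ)
    (hu : cl Set.univ) (he : cl ∅) (hun : ∀ p q, cl p → cl q → cl (p ∪ q)) (hin : ∀ p q, cl p → cl q → cl (p ∩ q))
    (hdcc : ∀ f : ℕ → Set X, (∀ n, cl (f n)) → (∀ n, f (n + 1) ⊆ f n) → ∃ n, ∀ m, n ≤ m → f m = f n)
    (hmono : ∀ p q, cl p → cl q → p ⊆ q → ρ p ≤ ρ q)
    (hmod : ∀ p q, cl p → cl q → ρ (p ∪ q) + ρ (p ∩ q) = ρ p + ρ q)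
    (h0 : ρ ∅ = 0) (hlt : ∀ p, cl p → p ≠ Set.univ → ρ p < ρ Set.univ) :
    ∃ (k : ℕ) (C : Fin k → Set X) (a : Fin k → ℕ), Function.Injective C ∧ (∀ j, Irr cl (C j)) ∧ (∀ j, 0 < a j) ∧
      (⋃ j, C j) = Set.univ ∧ ∀ p, cl p → ρ p = ∑ j, (open Classical in if C j ⊆ p then a j else 0) := by
  classical
  have hex : ∀ C : Set X, ∃ q, Irr cl C → cl q ∧ q ⊂ C ∧ ∀ q', cl q' → q' ⊂ C → ρ q' ≤ ρ q := by
    intro C
    by_cases hC : Irr cl C
    · obtain ⟨q, hq⟩ := exists_max he hmono hC
      exact ⟨q, fun _ => hq⟩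
    · exact ⟨∅, fun h => absurd h hC⟩
  choose q₀ hq₀ using hex
  let w : Set X → ℕ := fun C => ρ C - ρ (q₀ C)
  have key : ∀ p, cl p → ∃ F : Finset (Set X), (∀ C, C ∈ F ↔ (Irr cl C ∧ 0 < w C ∧ C ⊆ p)) ∧
      ρ p = ∑ C ∈ F, w C := by
    refine noeth_induction hdcc fun p hp ih => ?_
    rcases Set.eq_empty_or_nonempty p with rfl | hne
    · refine ⟨∅, fun C => ⟨fun h => absurd h (Finset.notMem_empty C), fun h => ?_⟩, ?_⟩
      · exact absurd (Set.subset_empty_iff.1 h.2.2) h.1.2.1.ne_empty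
      · rw [h0, Finset.sum_empty]
    by_cases hirr : Irr cl p
    · obtain ⟨h1, h2, h3⟩ := hq₀ p hirr
      obtain ⟨F, hF, hsum⟩ := ih (q₀ p) h1 h2
      have hsub : ∀ C, Irr cl C → 0 < w C → C ⊂ p → C ⊆ q₀ p := by
        intro C hC hw hCp
        by_contra hns
        have hcl := hun _ _ h1 hC.1
        have hss : q₀ p ∪ C ⊂ p := by
          refine (Set.union_subset h2.subset hCp.subset).ssubset_of_ne fun heq => ?_
          rcases hirr.2.2 _ _ h1 hC.1 heq.symm.subset with h4 | h4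
          · exact h2.not_subset h4
          · exact hCp.not_subset h4
        have h5 := h3 _ hcl hss
        have h6 := hmod _ _ h1 hC.1
        have h7 : q₀ p ∩ C ⊂ C := by
          refine Set.inter_subset_right.ssubset_of_ne fun heq => hns ?_
          rw [← heq]
          exact Set.inter_subset_left
        have h8 := (hq₀ C hC).2.2 _ (hin _ _ h1 hC.1) h7
        have h9 : w C = ρ C - ρ (q₀ C) := rfl
        omega
      have hle := hmono _ _ h1 hp h2.subset
      rcases Nat.eq_zero_or_pos (w p) with hw | hw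
      · refine ⟨F, fun C => ?_, ?_⟩
        · rw [hF]
          constructor
          · rintro ⟨a1, a2, a3⟩
            exact ⟨a1, a2, a3.trans h2.subset⟩
          · rintro ⟨a1, a2, a3⟩
            refine ⟨a1, a2, hsub C a1 a2 (a3.ssubset_of_ne ?_)⟩
            rintro rfl
            omega
        · have h9 : w p = ρ p - ρ (q₀ p) := rfl
          rw [← hsum]
          omega
      · have hpF : p ∉ F := by
          rw [hF]
          rintro ⟨-, -, a3⟩
          exact h2.not_subset a3
        refine ⟨insert p F, fun C => ?_, ?_⟩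
        · rw [Finset.mem_insert, hF]
          constructor
          · rintro (rfl | ⟨a1, a2, a3⟩)
            · exact ⟨hirr, hw, subset_rfl⟩
            · exact ⟨a1, a2, a3.trans h2.subset⟩
          · rintro ⟨a1, a2, a3⟩
            rcases eq_or_ne C p with rfl | hCp
            · exact Or.inl rfl
            · exact Or.inr ⟨a1, a2, hsub C a1 a2 (a3.ssubset_of_ne hCp)⟩
        · rw [Finset.sum_insert hpF, ← hsum]
          have h9 : w p = ρ p - ρ (q₀ p) := rfl
          omega
    · have hred : ∃ q₁ q₂, cl q₁ ∧ cl q₂ ∧ p ⊆ q₁ ∪ q₂ ∧ ¬p ⊆ q₁ ∧ ¬p ⊆ q₂ := by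
        by_contra hcon
        push Not at hcon
        refine hirr ⟨hp, hne, fun a b ha hb hab => ?_⟩
        by_cases h1 : p ⊆ a
        · exact Or.inl h1
        · exact Or.inr (hcon a b ha hb hab h1)
      obtain ⟨q₁, q₂, hq₁, hq₂, hsub, hn₁, hn₂⟩ := hred
      have c1 := hin _ _ hp hq₁
      have c2 := hin _ _ hp hq₂
      have s1 : p ∩ q₁ ⊂ p := Set.inter_subset_left.ssubset_of_ne fun heq => hn₁ (Set.inter_eq_left.1 heq)
      have s2 : p ∩ q₂ ⊂ p := Set.inter_subset_left.ssubset_of_ne fun heq => hn₂ (Set.inter_eq_left.1 heq)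
      have hp12 : p ∩ q₁ ∪ p ∩ q₂ = p := by
        rw [← Set.inter_union_distrib_left, Set.inter_eq_left]
        exact hsub
      obtain ⟨F₁, hF₁, e₁⟩ := ih _ c1 s1
      obtain ⟨F₂, hF₂, e₂⟩ := ih _ c2 s2
      obtain ⟨F₃, hF₃, e₃⟩ := ih _ (hin _ _ c1 c2) (Set.inter_subset_left.trans_ssubset s1)
      have h3 : F₃ = F₁ ∩ F₂ := by
        ext C
        rw [Finset.mem_inter, hF₁, hF₂, hF₃, Set.subset_inter_iff]
        tauto
      refine ⟨F₁ ∪ F₂, fun C => ?_, ?_⟩
      · rw [Finset.mem_union, hF₁, hF₂]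
        constructor
        · rintro (⟨a1, a2, a3⟩ | ⟨a1, a2, a3⟩)
          · exact ⟨a1, a2, a3.trans s1.subset⟩
          · exact ⟨a1, a2, a3.trans s2.subset⟩
        · rintro ⟨a1, a2, a3⟩
          rw [← hp12] at a3
          rcases a1.2.2 _ _ c1 c2 a3 with h4 | h4
          · exact Or.inl ⟨a1, a2, h4⟩
          · exact Or.inr ⟨a1, a2, h4⟩
      · have h5 := hmod _ _ c1 c2
        rw [hp12, e₁, e₂, e₃, h3] at h5
        have h6 := Finset.sum_union_inter (s₁ := F₁) (s₂ := F₂) (f := w)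
        omega
  obtain ⟨F, hF, hsum⟩ := key _ hu
  have hfor : ∀ p, cl p → ρ p = ∑ C ∈ F, if C ⊆ p then w C else 0 := by
    intro p hp
    obtain ⟨F', hF', e'⟩ := key p hp
    rw [e', ← Finset.sum_filter]
    refine Finset.sum_congr ?_ fun _ _ => rfl
    ext C
    rw [hF', Finset.mem_filter, hF]
    constructor
    · rintro ⟨a1, a2, a3⟩
      exact ⟨⟨a1, a2, Set.subset_univ _⟩, a3⟩
    · rintro ⟨⟨a1, a2, -⟩, a3⟩
      exact ⟨a1, a2, a3⟩
  have hclF : ∀ G : Finset (Set X), (∀ C ∈ G, cl C) → cl (⋃ C ∈ G, C) := by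
    intro G
    induction G using Finset.induction_on with
    | empty =>
      intro _
      have : (⋃ C ∈ (∅ : Finset (Set X)), C) = ∅ := by simp
      rw [this]
      exact he
    | insert C G _ ih =>
      intro h
      rw [Finset.set_biUnion_insert]
      exact hun _ _ (h C (Finset.mem_insert_self C G)) (ih fun C' hC' => h C' (Finset.mem_insert_of_mem hC'))
  have hcov : (⋃ C ∈ F, C) = Set.univ := by
    by_contra hne
    have hcl := hclF F fun C hC => ((hF C).1 hC).1.1
    have h1 := hlt _ hcl hne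
    rw [hfor _ hcl, hsum] at h1
    have h2 : (∑ C ∈ F, if C ⊆ ⋃ C ∈ F, C then w C else 0) = ∑ C ∈ F, w C := by
      refine Finset.sum_congr rfl fun C hC => if_pos ?_
      exact Set.subset_biUnion_of_mem (u := fun C => C) hC
    omega
  refine ⟨F.card, fun j => (F.equivFin.symm j).1, fun j => w (F.equivFin.symm j).1, ?_, ?_, ?_, ?_, ?_⟩
  · intro i j hij
    exact F.equivFin.symm.injective (Subtype.ext hij)
  · intro j
    exact ((hF _).1 (F.equivFin.symm j).2).1
  · intro j
    exact ((hF _).1 (F.equivFin.symm j).2).2.1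
  · rw [← hcov]
    ext x
    simp only [Set.mem_iUnion]
    constructor
    · rintro ⟨j, hj⟩
      exact ⟨_, (F.equivFin.symm j).2, hj⟩
    · rintro ⟨C, hC, hx⟩
      refine ⟨F.equivFin ⟨C, hC⟩, ?_⟩
      rw [Equiv.symm_apply_apply]
      exact hx
  · intro p hp
    rw [hfor p hp, ← Finset.sum_coe_sort F (fun C => if C ⊆ p then w C else 0)]
    exact (Equiv.sum_comp F.equivFin.symm (fun C : F => if C.1 ⊆ p then w C.1 else 0)).symm

end Pool.Agent.Lib.MP_666dc0_nt.FM
end
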