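import Pool.Agent.Lib.MP_666dc0_nt.Mg.G024
import Pool.Agent.Lib.MP_666dc0_nt.Mg.G027
import Pool.Agent.Lib.MP_666dc0_nt.Mg.G029

section

/-! # Part H, file 3: consequences of the uniqueness of points -/

set_option autoImplicit false

namespace Pool.Agent.Lib.MP_666dc0_nt.IG

/-- The uniqueness hypothesis: points of `C₀` with values in algebraically closed fields have at most one
extension to `C`. -/
def UniqPts (Ω C₀ C : Type) [Field Ω] [CommRing C₀] [CommRing C] [Algebra Ω C] [Algebra C₀ C] : Prop :=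
  ∀ (Ω' : Type) [Field Ω'] [IsAlgClosed Ω'] [Algebra Ω Ω'] (χ₁ χ₂ : C →ₐ[Ω] Ω'),
    (∀ f : C₀, χ₁ (algebraMap C₀ C f) = χ₂ (algebraMap C₀ C f)) → χ₁ = χ₂

/-- The same for ring homomorphisms: let `Ω` act on `Ω'` through `χ₁` (it acts in the same way through
`χ₂`, since the image of `Ω` in `C` is contained in the image of `C₀`). -/
theorem UniqPts.ringHom {Ω C₀ C : Type} [Field Ω] [CommRing C₀] [CommRing C] [Algebra Ω C₀]
    [Algebra Ω C] [Algebra C₀ C] [IsScalarTower Ω C₀ C] (hu : UniqPts Ω C₀ C) (Ω' : Type) [Field Ω']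
    [IsAlgClosed Ω'] (χ₁ χ₂ : C →+* Ω')
    (h : ∀ f : C₀, χ₁ (algebraMap C₀ C f) = χ₂ (algebraMap C₀ C f)) : χ₁ = χ₂ := by
  letI : Algebra Ω Ω' := (χ₁.comp (algebraMap Ω C)).toAlgebra
  let ψ₁ : C →ₐ[Ω] Ω' := { χ₁ with commutes' := fun r => rfl }
  let ψ₂ : C →ₐ[Ω] Ω' :=
    { χ₂ with
      commutes' := fun r => by
        show χ₂ (algebraMap Ω C r) = χ₁ (algebraMap Ω C r)
        rw [IsScalarTower.algebraMap_apply Ω C₀ C r, h] }
  have e : ψ₁ = ψ₂ := hu Ω' ψ₁ ψ₂ h
  apply RingHom.ext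
  intro x
  exact congrArg (fun ψ : C →ₐ[Ω] Ω' => ψ x) e

/-- The values of a point over the algebraic closure of `L = Frac(C₀/q)` lie in `L`: for `τ` in the Galois
group `τ ∘ χ = χ` by uniqueness; `InfiniteGalois.mem_range_algebraMap_iff_fixed` (characteristic `0`). An
element of `L` is a fraction `a / b`. -/
theorem H_value {Ω C₀ C : Type} [Field Ω] [CharZero Ω] [CommRing C₀] [CommRing C] [Algebra Ω C₀]
    [Algebra Ω C] [Algebra C₀ C] [IsScalarTower Ω C₀ C] (hu : UniqPts Ω C₀ C) (q : Ideal C₀)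
    [q.IsPrime] (χ : C →+* AlgebraicClosure (FractionRing (C₀ ⧸ q)))
    (hχ : ∀ x : C₀, χ (algebraMap C₀ C x) =
      algebraMap (FractionRing (C₀ ⧸ q)) (AlgebraicClosure (FractionRing (C₀ ⧸ q)))
        (algebraMap (C₀ ⧸ q) (FractionRing (C₀ ⧸ q)) (Ideal.Quotient.mk q x))) (f : C) :
    ∃ a b : C₀, b ∉ q ∧ χ (algebraMap C₀ C b * f - algebraMap C₀ C a) = 0 := by
  set L := FractionRing (C₀ ⧸ q) with hL
  let φ : Ω →+* L := (algebraMap (C₀ ⧸ q) L).comp ((Ideal.Quotient.mk q).comp (algebraMap Ω C₀))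
  haveI : CharZero L := (RingHom.charZero_iff φ.injective).mp inferInstance
  haveI : IsGalois L (AlgebraicClosure L) := inferInstance
  have hfix : ∀ τ : (AlgebraicClosure L) ≃ₐ[L] (AlgebraicClosure L), τ (χ f) = χ f := by
    intro τ
    have e : (τ : AlgebraicClosure L →+* AlgebraicClosure L).comp χ = χ := by
      apply UniqPts.ringHom hu
      intro x
      show τ (χ (algebraMap C₀ C x)) = χ (algebraMap C₀ C x)
      rw [hχ]
      exact τ.commutes _
    exact congrArg (fun ψ : C →+* AlgebraicClosure L => ψ f) e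
  obtain ⟨z, hz⟩ := (InfiniteGalois.mem_range_algebraMap_iff_fixed (k := L) (χ f)).mpr hfix
  obtain ⟨x, y, hy, hxy⟩ := IsFractionRing.div_surjective (A := C₀ ⧸ q) z
  obtain ⟨a, rfl⟩ := Ideal.Quotient.mk_surjective x
  obtain ⟨b, rfl⟩ := Ideal.Quotient.mk_surjective y
  have hb0 : (Ideal.Quotient.mk q b) ≠ 0 := nonZeroDivisors.ne_zero hy
  refine ⟨a, b, fun hbq => hb0 (Ideal.Quotient.eq_zero_iff_mem.mpr hbq), ?_⟩
  have hb1 : algebraMap (C₀ ⧸ q) L (Ideal.Quotient.mk q b) ≠ 0 := by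
    intro h
    exact hb0 ((IsFractionRing.injective (C₀ ⧸ q) L) (by rw [h, map_zero]))
  rw [map_sub, map_mul, hχ, hχ, ← hz, ← hxy, ← map_mul, mul_div_cancel₀ _ hb1, sub_self]

/-- If `χ g = 0` then `g` lies in every prime `Q` of `C` over `q`: let `Ω'` be the algebraic closure of
`Frac(C/Q)`; it contains `L = Frac(C₀/q)`, and the algebraic closure of `L` embeds in it over `L`
(`IsAlgClosed.lift`); compare `C → C/Q → Ω'` with `C → AlgebraicClosure L → Ω'` by `UniqPts.ringHom`. -/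
theorem H_prime {Ω C₀ C : Type} [Field Ω] [CommRing C₀] [CommRing C] [Algebra Ω C₀]
    [Algebra Ω C] [Algebra C₀ C] [IsScalarTower Ω C₀ C] (hu : UniqPts Ω C₀ C) (q : Ideal C₀)
    [q.IsPrime] (χ : C →+* AlgebraicClosure (FractionRing (C₀ ⧸ q)))
    (hχ : ∀ x : C₀, χ (algebraMap C₀ C x) =
      algebraMap (FractionRing (C₀ ⧸ q)) (AlgebraicClosure (FractionRing (C₀ ⧸ q)))
        (algebraMap (C₀ ⧸ q) (FractionRing (C₀ ⧸ q)) (Ideal.Quotient.mk q x))) (g : C)
    (hg : χ g = 0) (Q : Ideal C) (hQ : Q.IsPrime) (hQq : Q.comap (algebraMap C₀ C) = q) : g ∈ Q := by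
  set L := FractionRing (C₀ ⧸ q) with hL
  let K := FractionRing (C ⧸ Q)
  let Ω' := AlgebraicClosure K
  let ι : C₀ ⧸ q →+* C ⧸ Q := Ideal.quotientMap Q (algebraMap C₀ C) hQq.ge
  have hι : Function.Injective ι := Ideal.quotientMap_injective' hQq.le
  let ι' : C₀ ⧸ q →+* Ω' := ((algebraMap K Ω').comp (algebraMap (C ⧸ Q) K)).comp ι
  have hι' : Function.Injective ι' :=
    ((algebraMap K Ω').injective.comp (IsFractionRing.injective (C ⧸ Q) K)).comp hι
  let j : L →+* Ω' := IsFractionRing.lift hι'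
  letI : Algebra L Ω' := j.toAlgebra
  let lift : AlgebraicClosure L →ₐ[L] Ω' := IsAlgClosed.lift
  let χ₂ : C →+* Ω' := ((algebraMap K Ω').comp (algebraMap (C ⧸ Q) K)).comp (Ideal.Quotient.mk Q)
  have e : (lift : AlgebraicClosure L →+* Ω').comp χ = χ₂ := by
    apply UniqPts.ringHom hu
    intro x
    show lift (χ (algebraMap C₀ C x)) = χ₂ (algebraMap C₀ C x)
    rw [hχ, lift.commutes]
    show j (algebraMap (C₀ ⧸ q) L (Ideal.Quotient.mk q x)) = _
    rw [IsFractionRing.lift_algebraMap]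
    show (algebraMap K Ω') (algebraMap (C ⧸ Q) K (ι (Ideal.Quotient.mk q x))) = _
    rw [Ideal.quotientMap_mk]
    rfl
  have h0 : χ₂ g = 0 := by
    rw [← e]
    show lift (χ g) = 0
    rw [hg, map_zero]
  have h1 : (algebraMap K Ω') (algebraMap (C ⧸ Q) K (Ideal.Quotient.mk Q g)) = 0 := h0
  have h2 : algebraMap (C ⧸ Q) K (Ideal.Quotient.mk Q g) = 0 :=
    (algebraMap K Ω').injective (by rw [h1, map_zero])
  have h3 : Ideal.Quotient.mk Q g = 0 := IsFractionRing.injective (C ⧸ Q) K (by rw [h2, map_zero])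
  exact Ideal.Quotient.eq_zero_iff_mem.mp h3

/-- Every element of `C` is a fraction at `q`: combine `H_point`, `H_value`, `H_prime`, `H_mult`
(`g = b f - a`, `s g = 0`, so `(s b) f = s a`). -/
theorem H_conductor {Ω C₀ C : Type} [Field Ω] [CharZero Ω] [CommRing C₀] [CommRing C] [Algebra Ω C₀]
    [Algebra Ω C] [Algebra C₀ C] [IsScalarTower Ω C₀ C] [Algebra.FiniteType Ω C] [IsReduced C]
    (hinj : Function.Injective (algebraMap C₀ C)) (hu : UniqPts Ω C₀ C) (q : Ideal C₀)
    (hq : q ∈ minimalPrimes C₀) (f : C) :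
    ∃ d a : C₀, d ∉ q ∧ algebraMap C₀ C d * f = algebraMap C₀ C a := by
  have hp : q.IsPrime := hq.1.1
  obtain ⟨χ, hχ⟩ := H_point (Ω := Ω) hinj q hq
  obtain ⟨a, b, hb, hab⟩ := H_value hu q χ hχ f
  obtain ⟨s, hs, hsg⟩ := H_mult q hq _ (fun Q hQ hQq => H_prime hu q χ hχ _ hab Q hQ hQq)
  refine ⟨s * b, s * a, hp.mul_notMem hs hb, ?_⟩
  rw [mul_sub, sub_eq_zero] at hsg
  rw [map_mul, map_mul, mul_assoc, hsg]

end Pool.Agent.Lib.MP_666dc0_nt.IG
end

section

/-!
# Interpolation, part C: the Hilbert-Mumford criterion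
-/

namespace Pool.Agent.Lib.MP_666dc0_nt.IG

namespace CD

/-- The exponent vector of a coordinate. -/
def expv {n : ℕ} {s : Shape} (x : s.Ix n) : Fin n → ℤ := fun a =>
  ∑ i, (if x.2.2.1 i = a then 1 else 0) - ∑ j, (if x.2.2.2 j = a then 1 else 0)

theorem sum_expv {n : ℕ} {s : Shape} {Λ : Type} [AddCommGroup Λ] (nu : Fin n → Λ) (x : s.Ix n) :
    ∑ a, expv x a • nu a = ∑ i, nu (x.2.2.1 i) - ∑ j, nu (x.2.2.2 j) := by
  unfold expv
  simp only [sub_smul, Finset.sum_sub_distrib, Finset.sum_smul]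
  congr 1
  · rw [Finset.sum_comm]
    simp
  · rw [Finset.sum_comm]
    simp

theorem sum_expv_real {n : ℕ} {s : Shape} (lam : Fin n → ℝ) (x : s.Ix n) :
    ∑ a, (expv x a : ℝ) * lam a = wt lam x := by
  have h := sum_expv lam x
  simp only [zsmul_eq_mul] at h
  exact h

end CD

open CD in
/-- Part C. The Hilbert-Mumford criterion with thresholds, valuative form. -/
theorem hilbert_mumford_proof {n : ℕ} {s : Shape} [s.Small] {K Ω : Type} [Field K] [Field Ω]
    [Algebra K Ω] (V : ValuationSubring Ω) (hKV : ∀ x : K, algebraMap K Ω x ∈ V)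
    (t : s.Ix n → K) (thr : s.β → Prop) (k k' : Matrix (Fin n) (Fin n) Ω)
    (hk : k * k' = 1) (hk' : k' * k = 1)
    (h0 : ∀ x, act k k' (fun y => algebraMap K Ω (t y)) x ∈ V)
    (h1 : ∀ x, thr x.1 → act k k' (fun y => algebraMap K Ω (t y)) x ∈ V.nonunits) :
    ∃ (κ : Type) (_ : Field κ) (_ : Algebra K κ) (g g' : Matrix (Fin n) (Fin n) κ)
      (lam : Fin n → ℝ), g * g' = 1 ∧ g' * g = 1 ∧
      ∀ x, act g g' (fun y => algebraMap K κ (t y)) x ≠ 0 →
        0 ≤ wt lam x ∧ (thr x.1 → 1 ≤ wt lam x) := by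
  classical
  obtain ⟨b, b', e, e', d, hbb', hb'b, hee', he'e, hb, hb', he, he', hd, hdec⟩ := smith V k k' hk
  let ι : K →+* V :=
    { toFun := fun x => ⟨algebraMap K Ω x, hKV x⟩
      map_one' := Subtype.ext (map_one _)
      map_mul' := fun x y => Subtype.ext (map_mul _ x y)
      map_zero' := Subtype.ext (map_zero _)
      map_add' := fun x y => Subtype.ext (map_add _ x y) }
  have hι : ∀ x, ((ι x : V) : Ω) = algebraMap K Ω x := fun x => rfl
  let E : Matrix (Fin n) (Fin n) V := Matrix.of fun i j => ⟨e i j, he i j⟩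
  let E' : Matrix (Fin n) (Fin n) V := Matrix.of fun i j => ⟨e' i j, he' i j⟩
  have hE : E.map V.subtype = e := rfl
  have hE' : E'.map V.subtype = e' := rfl
  have hinj : Function.Injective (fun M : Matrix (Fin n) (Fin n) V => M.map V.subtype) :=
    fun M N h => by
      ext i j
      exact congrFun (congrFun h i) j
  have hEE' : E * E' = 1 := by
    apply hinj
    show (E * E').map V.subtype = (1 : Matrix (Fin n) (Fin n) V).map V.subtype
    rw [Matrix.map_mul, hE, hE', hee', Matrix.map_one _ (map_zero _) (map_one _)]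
  have hE'E : E' * E = 1 := by
    apply hinj
    show (E' * E).map V.subtype = (1 : Matrix (Fin n) (Fin n) V).map V.subtype
    rw [Matrix.map_mul, hE, hE', he'e, Matrix.map_one _ (map_zero _) (map_one _)]
  let ρ : V →+* IsLocalRing.ResidueField V := IsLocalRing.residue V
  let _ : Algebra K (IsLocalRing.ResidueField V) := (ρ.comp ι).toAlgebra
  have hal : ∀ x : K, algebraMap K (IsLocalRing.ResidueField V) x = ρ (ι x) := fun x => rfl
  -- the exponent vectors
  let v := V.valuation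
  have hv0 : ∀ a, v (d a) ≠ 0 := fun a => (Valuation.ne_zero_iff v).2 (hd a)
  let u : Fin n → (V.ValueGroup)ˣ := fun a => Units.mk0 (v (d a)) (hv0 a)
  let nu : Fin n → Additive (V.ValueGroup)ˣ := fun a => Additive.ofMul (u a)⁻¹
  -- `τ`
  let τ : s.Ix n → V := act E E' (fun y => ι (t y))
  have hτ1 : ∀ x, ((τ x : V) : Ω) = act e e' (fun y => algebraMap K Ω (t y)) x := fun x =>
    act_map V.subtype E E' (fun y => ι (t y)) x
  have hτ2 : ∀ x, ρ (τ x) = act (E.map ρ) (E'.map ρ)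
      (fun y => algebraMap K (IsLocalRing.ResidueField V) (t y)) x := fun x =>
    act_map ρ E E' (fun y => ι (t y)) x
  let I : s.β → AddSubgroup Ω := fun c => if thr c then
      (IsLocalRing.maximalIdeal V).toAddSubgroup.map V.subtype.toAddMonoidHom else
      V.toSubring.toAddSubgroup
  have hIV : ∀ c x, x ∈ I c → v x ≤ 1 := by
    intro c x hx
    by_cases hc : thr c
    · simp only [I, if_pos hc] at hx
      obtain ⟨y, hy, rfl⟩ := hx
      exact (V.valuation_le_one_iff _).2 y.2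
    · simp only [I, if_neg hc] at hx
      exact (V.valuation_le_one_iff _).2 hx
  have hIt : ∀ c x, thr c → x ∈ I c → v x < 1 := by
    intro c x hc hx
    simp only [I, if_pos hc] at hx
    obtain ⟨y, hy, rfl⟩ := hx
    exact (V.valuation_lt_one_iff y).1 hy
  have hdia : ∀ x, (∏ i, d (x.2.2.1 i)) * (∏ j, (d (x.2.2.2 j))⁻¹) * ((τ x : V) : Ω) ∈ I x.1 := by
    have h2 : act (Matrix.diagonal d) (Matrix.diagonal fun a => (d a)⁻¹)
        (act e e' (fun y => algebraMap K Ω (t y))) =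
        act b' b (act k k' (fun y => algebraMap K Ω (t y))) := by
      rw [act_act, act_act]
      have hΔ : Matrix.diagonal d * Matrix.diagonal (fun a => (d a)⁻¹) = 1 := by
        rw [Matrix.diagonal_mul_diagonal, ← Matrix.diagonal_one]
        congr 1
        ext a
        exact mul_inv_cancel₀ (hd a)
      congr 1
      · rw [hdec]
        calc Matrix.diagonal d * e = (b' * b) * Matrix.diagonal d * e := by rw [hb'b, one_mul]
          _ = b' * (b * Matrix.diagonal d * e) := by noncomm_ring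
      · calc e' * Matrix.diagonal (fun a => (d a)⁻¹)
            = (k' * k) * (e' * Matrix.diagonal (fun a => (d a)⁻¹)) := by rw [hk', one_mul]
          _ = (k' * b) * (Matrix.diagonal d * (e * e') * Matrix.diagonal (fun a => (d a)⁻¹)) := by
              rw [hdec]; noncomm_ring
          _ = k' * b := by rw [hee', mul_one, hΔ, mul_one]
    intro x
    have h3 := congrFun h2 x
    rw [act_diagonal, ← hτ1 x] at h3
    rw [h3]
    refine act_mem (R := V.toSubring) I ?_ b' b hb' hb _ ?_ x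
    · intro c r hr a ha
      by_cases hc : thr c
      · simp only [I, if_pos hc] at ha ⊢
        obtain ⟨y, hy, rfl⟩ := ha
        exact ⟨⟨r, hr⟩ * y, (IsLocalRing.maximalIdeal V).mul_mem_left _ hy, rfl⟩
      · simp only [I, if_neg hc] at ha ⊢
        exact V.toSubring.mul_mem hr ha
    · intro x
      by_cases hc : thr x.1
      · simp only [I, if_pos hc]
        refine ⟨⟨_, h0 x⟩, ?_, rfl⟩
        have h4 := h1 x hc
        rw [ValuationSubring.mem_nonunits_iff] at h4
        exact (V.valuation_lt_one_iff ⟨_, h0 x⟩).2 h4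
      · simp only [I, if_neg hc]
        exact h0 x
  have hunit : ∀ x, act (E.map ρ) (E'.map ρ)
      (fun y => algebraMap K (IsLocalRing.ResidueField V) (t y)) x ≠ 0 → v ((τ x : V) : Ω) = 1 := by
    intro x hx
    rw [← hτ2] at hx
    have h5 : IsUnit (τ x) := by
      by_contra hn
      exact hx ((IsLocalRing.residue_eq_zero_iff _).2 ((IsLocalRing.mem_maximalIdeal _).2 hn))
    exact (V.valuation_eq_one_iff _).1 h5
  have hval : ∀ x, v (((∏ i, d (x.2.2.1 i)) * (∏ j, (d (x.2.2.2 j))⁻¹) * ((τ x : V) : Ω))) =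
      ((∏ i, u (x.2.2.1 i)) * (∏ j, (u (x.2.2.2 j))⁻¹) : (V.ValueGroup)ˣ) * v ((τ x : V) : Ω) := by
    intro x
    rw [map_mul, map_mul, map_prod, map_prod]
    congr 1
    push_cast
    congr 1
  have hsum : ∀ x : s.Ix n, ∑ a, expv x a • nu a =
      Additive.ofMul (((∏ i, u (x.2.2.1 i)) * (∏ j, (u (x.2.2.2 j))⁻¹))⁻¹) := by
    intro x
    rw [sum_expv]
    simp only [nu]
    rw [← ofMul_prod, ← ofMul_prod, ← ofMul_div]
    congr 1
    simp [mul_comm, div_eq_mul_inv]
  have hfin : Fintype (s.Ix n) := by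
    unfold Shape.Ix
    infer_instance
  obtain ⟨lam, hlam⟩ := gordan nu
    ((Finset.univ.filter fun x : s.Ix n => act (E.map ρ) (E'.map ρ)
      (fun y => algebraMap K (IsLocalRing.ResidueField V) (t y)) x ≠ 0).image expv) (by
      intro w hw
      obtain ⟨x, hx, rfl⟩ := Finset.mem_image.1 hw
      have hx' := (Finset.mem_filter.1 hx).2
      rw [hsum]
      have h6 := hIV _ _ (hdia x)
      rw [hval, hunit x hx', mul_one] at h6
      have h7 : (∏ i, u (x.2.2.1 i)) * (∏ j, (u (x.2.2.2 j))⁻¹) ≤ 1 := by exact_mod_cast h6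
      show (1 : (V.ValueGroup)ˣ) ≤ _
      exact one_le_inv'.2 h7)
  refine ⟨IsLocalRing.ResidueField V, inferInstance, inferInstance, E.map ρ, E'.map ρ, lam, ?_, ?_,
    ?_⟩
  · rw [← Matrix.map_mul, hEE', Matrix.map_one _ (map_zero _) (map_one _)]
  · rw [← Matrix.map_mul, hE'E, Matrix.map_one _ (map_zero _) (map_one _)]
  · intro x hx
    have h8 := hlam (expv x) (Finset.mem_image.2 ⟨x, Finset.mem_filter.2 ⟨Finset.mem_univ _, hx⟩, rfl⟩)
    rw [sum_expv_real] at h8
    refine ⟨h8.1, fun hc => h8.2 ?_⟩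
    rw [hsum]
    have h6 := hIt _ _ hc (hdia x)
    rw [hval, hunit x hx, mul_one] at h6
    have h7 : (∏ i, u (x.2.2.1 i)) * (∏ j, (u (x.2.2.2 j))⁻¹) < 1 := by exact_mod_cast h6
    show (1 : (V.ValueGroup)ˣ) < _
    exact one_lt_inv'.2 h7

end Pool.Agent.Lib.MP_666dc0_nt.IG
end

section

open MvPolynomial

namespace Pool.Agent.Lib.MP_666dc0_nt.IG

/-- Part C. The Hilbert-Mumford criterion with thresholds, valuative form. -/
theorem hilbert_mumford {n : ℕ} {s : Shape} [s.Small] {K Ω : Type} [Field K] [Field Ω]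
    [Algebra K Ω] (V : ValuationSubring Ω) (hKV : ∀ x : K, algebraMap K Ω x ∈ V)
    (t : s.Ix n → K) (thr : s.β → Prop) (k k' : Matrix (Fin n) (Fin n) Ω)
    (hk : k * k' = 1) (hk' : k' * k = 1)
    (h0 : ∀ x, act k k' (fun y => algebraMap K Ω (t y)) x ∈ V)
    (h1 : ∀ x, thr x.1 → act k k' (fun y => algebraMap K Ω (t y)) x ∈ V.nonunits) :
    ∃ (κ : Type) (_ : Field κ) (_ : Algebra K κ) (g g' : Matrix (Fin n) (Fin n) κ)
      (lam : Fin n → ℝ), g * g' = 1 ∧ g' * g = 1 ∧
      ∀ x, act g g' (fun y => algebraMap K κ (t y)) x ≠ 0 →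
        0 ≤ wt lam x ∧ (thr x.1 → 1 ≤ wt lam x) := by
  exact hilbert_mumford_proof V hKV t thr k k' hk hk' h0 h1
end Pool.Agent.Lib.MP_666dc0_nt.IG
end
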