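import Mathlib
import Pool.Agent.Lib.MP_666dc0_nt.Mg.G025

section

/-! # Part H, file 4: algebras of matrix coefficients and translations -/

set_option autoImplicit false

namespace Pool.Agent.Lib.MP_666dc0_nt.IG

variable {G : Type} [Group G] {Ω : Type} [Field Ω] {n N : ℕ}

/-- The algebra of functions generated by the entries of `ρ^{±1}`. -/
def entAlg (ρ : G →* Matrix (Fin n) (Fin n) Ω) : Subalgebra Ω (G → Ω) :=
  Algebra.adjoin Ω ({f | ∃ i j, f = fun g => ρ g i j} ∪ {f | ∃ i j, f = fun g => ρ g⁻¹ i j})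

/-- Right translation of functions. -/
def rt (h : G) : (G → Ω) →ₐ[Ω] (G → Ω) where
  toFun f := fun g => f (g * h)
  map_one' := rfl
  map_mul' _ _ := rfl
  map_zero' := rfl
  map_add' _ _ := rfl
  commutes' _ := rfl

theorem rt_apply (h : G) (f : G → Ω) (g : G) : rt h f g = f (g * h) := rfl

theorem rt_rt (h h' : G) (f : G → Ω) : rt h (rt h' f) = rt (h * h') f := by
  funext g
  rw [rt_apply, rt_apply, rt_apply, mul_assoc]

private theorem H4a_span {κ : Type} [Finite κ] (F : κ → G → Ω) (ρ : G →* Matrix (Fin n) (Fin n) Ω)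
    (h1 : ∀ k, F k ∈ entAlg ρ)
    (h2 : ∀ (h : G) (k : κ), rt h (F k) ∈ Submodule.span Ω (Set.range F)) (k : κ) :
    ∃ W : Submodule Ω (G → Ω), W.FG ∧ F k ∈ W ∧ (∀ w ∈ W, w ∈ entAlg ρ) ∧
      ∀ (h : G), ∀ w ∈ W, rt h w ∈ W := by
  refine ⟨Submodule.span Ω (Set.range F), Submodule.fg_span (Set.finite_range F),
    Submodule.subset_span ⟨k, rfl⟩, ?_, ?_⟩
  · intro w hw
    have : Submodule.span Ω (Set.range F) ≤ Subalgebra.toSubmodule (entAlg ρ) := by
      rw [Submodule.span_le]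
      rintro _ ⟨l, rfl⟩
      exact h1 l
    exact this hw
  · intro h w hw
    have : Submodule.span Ω (Set.range F) ≤
        (Submodule.span Ω (Set.range F)).comap (rt (Ω := Ω) h).toLinearMap := by
      rw [Submodule.span_le]
      rintro _ ⟨l, rfl⟩
      exact h2 h l
    exact this hw

/-- Every element of the algebra is contained in a finite-dimensional translation stable subspace.
`Algebra.adjoin_induction`: for `f = ρ_ij` the span of all `ρ_ik`, as `ρ_ij(g h) = ∑ ρ_ik(g) ρ_kj(h)`; for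
`f = (ρ(g⁻¹))_ij` the span of all `(ρ(g⁻¹))_kj`; sums `W ⊔ W'`, products `W * W'` (`Submodule.FG.mul`),
constants: the span of `1`. -/
theorem exists_fg_stable (ρ : G →* Matrix (Fin n) (Fin n) Ω) (f : G → Ω) (hf : f ∈ entAlg ρ) :
    ∃ W : Submodule Ω (G → Ω), W.FG ∧ f ∈ W ∧ (∀ w ∈ W, w ∈ entAlg ρ) ∧
      ∀ (h : G), ∀ w ∈ W, rt h w ∈ W := by
  unfold entAlg at hf
  induction hf using Algebra.adjoin_induction with
  | mem x hx =>
    rcases hx with ⟨i, j, rfl⟩ | ⟨i, j, rfl⟩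
    · apply H4a_span (fun k : Fin n => fun g => ρ g i k) ρ
      · intro k
        exact Algebra.subset_adjoin (Or.inl ⟨i, k, rfl⟩)
      · intro h k
        have e : rt h (fun g => ρ g i k) = ∑ l, (ρ h l k) • (fun g => ρ g i l) := by
          funext g
          simp only [rt_apply, map_mul, Matrix.mul_apply, Finset.sum_apply, Pi.smul_apply, smul_eq_mul]
          exact Finset.sum_congr rfl fun l _ => mul_comm _ _
        rw [e]
        exact Submodule.sum_mem _ fun l _ => Submodule.smul_mem _ _ (Submodule.subset_span ⟨l, rfl⟩)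
    · apply H4a_span (fun k : Fin n => fun g => ρ g⁻¹ k j) ρ
      · intro k
        exact Algebra.subset_adjoin (Or.inr ⟨k, j, rfl⟩)
      · intro h k
        have e : rt h (fun g => ρ g⁻¹ k j) = ∑ l, (ρ h⁻¹ k l) • (fun g => ρ g⁻¹ l j) := by
          funext g
          simp only [rt_apply, mul_inv_rev, map_mul, Matrix.mul_apply, Finset.sum_apply, Pi.smul_apply,
            smul_eq_mul]
        rw [e]
        exact Submodule.sum_mem _ fun l _ => Submodule.smul_mem _ _ (Submodule.subset_span ⟨l, rfl⟩)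
  | algebraMap r =>
    refine ⟨Submodule.span Ω {(1 : G → Ω)}, Submodule.fg_span_singleton _, ?_, ?_, ?_⟩
    · rw [Algebra.algebraMap_eq_smul_one]
      exact Submodule.smul_mem _ _ (Submodule.mem_span_singleton_self _)
    · intro w hw
      obtain ⟨a, rfl⟩ := Submodule.mem_span_singleton.mp hw
      exact Subalgebra.smul_mem _ (Subalgebra.one_mem _) a
    · intro h w hw
      obtain ⟨a, rfl⟩ := Submodule.mem_span_singleton.mp hw
      rw [map_smul, map_one]
      exact Submodule.smul_mem _ _ (Submodule.mem_span_singleton_self _)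
  | add x y _ _ hx hy =>
    obtain ⟨W, a1, a2, a3, a4⟩ := hx
    obtain ⟨W', b1, b2, b3, b4⟩ := hy
    refine ⟨W ⊔ W', a1.sup b1, Submodule.add_mem_sup a2 b2, ?_, ?_⟩
    · intro w hw
      obtain ⟨u, hu, v, hv, rfl⟩ := Submodule.mem_sup.mp hw
      exact Subalgebra.add_mem _ (a3 u hu) (b3 v hv)
    · intro h w hw
      obtain ⟨u, hu, v, hv, rfl⟩ := Submodule.mem_sup.mp hw
      rw [map_add]
      exact Submodule.add_mem_sup (a4 h u hu) (b4 h v hv)
  | mul x y _ _ hx hy =>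
    obtain ⟨W, a1, a2, a3, a4⟩ := hx
    obtain ⟨W', b1, b2, b3, b4⟩ := hy
    refine ⟨W * W', a1.mul b1, Submodule.mul_mem_mul a2 b2, ?_, ?_⟩
    · intro w hw
      refine Submodule.mul_induction_on hw ?_ ?_
      · intro u hu v hv
        exact Subalgebra.mul_mem _ (a3 u hu) (b3 v hv)
      · intro u v hu hv
        exact Subalgebra.add_mem _ hu hv
    · intro h w hw
      refine Submodule.mul_induction_on hw ?_ ?_
      · intro u hu v hv
        rw [map_mul]
        exact Submodule.mul_mem_mul (a4 h u hu) (b4 h v hv)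
      · intro u v hu hv
        rw [map_add]
        exact Submodule.add_mem _ hu hv

theorem rt_mem (ρ : G →* Matrix (Fin n) (Fin n) Ω) (h : G) (f : G → Ω) (hf : f ∈ entAlg ρ) :
    rt h f ∈ entAlg ρ := by
  obtain ⟨W, _, h1, h2, h3⟩ := exists_fg_stable ρ f hf
  exact h2 _ (h3 h f h1)

theorem entAlg_finiteType (ρ : G →* Matrix (Fin n) (Fin n) Ω) :
    Algebra.FiniteType Ω (entAlg ρ) := by
  rw [← Subalgebra.fg_iff_finiteType]
  rw [Subalgebra.fg_def]
  refine ⟨_, ?_, rfl⟩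
  apply Set.Finite.union
  · refine (Set.finite_range fun p : Fin n × Fin n => fun g => ρ g p.1 p.2).subset ?_
    rintro _ ⟨i, j, rfl⟩
    exact ⟨(i, j), rfl⟩
  · refine (Set.finite_range fun p : Fin n × Fin n => fun g => ρ g⁻¹ p.1 p.2).subset ?_
    rintro _ ⟨i, j, rfl⟩
    exact ⟨(i, j), rfl⟩

/-- A surjective endomorphism of a Noetherian ring is injective: the chain `ker φ^n` is stationary. -/
theorem injective_of_surjective_noetherian {C : Type} [CommRing C] [IsNoetherianRing C] (φ : C →+* C)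
    (hφ : Function.Surjective φ) : Function.Injective φ := by
  have hiter : ∀ k : ℕ, Function.Surjective (φ ^ k : C →+* C) := by
    intro k
    rw [RingHom.coe_pow]
    exact hφ.iterate k
  let f : ℕ →o Ideal C :=
    ⟨fun k => RingHom.ker (φ ^ k : C →+* C), by
      refine monotone_nat_of_le_succ fun k x hx => ?_
      rw [RingHom.mem_ker] at hx ⊢
      rw [pow_succ', RingHom.mul_def, RingHom.comp_apply, hx, map_zero]⟩
  obtain ⟨k, hk⟩ := monotone_stabilizes_iff_noetherian.mpr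
    (inferInstance : IsNoetherian C C) f
  rw [injective_iff_map_eq_zero]
  intro x hx
  obtain ⟨y, rfl⟩ := hiter k x
  have h1 : y ∈ f (k + 1) := by
    change y ∈ RingHom.ker (φ ^ (k + 1) : C →+* C)
    rw [RingHom.mem_ker, pow_succ', RingHom.mul_def, RingHom.comp_apply, hx]
  rw [← hk (k + 1) (Nat.le_succ k)] at h1
  exact h1

private theorem H4b_e_mem (σ : G →* Matrix (Fin N) (Fin N) Ω) (i j : Fin N) :
    (fun g => σ g i j) ∈ entAlg σ :=
  Algebra.subset_adjoin (Or.inl ⟨i, j, rfl⟩)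

private theorem H4b_e'_mem (σ : G →* Matrix (Fin N) (Fin N) Ω) (i j : Fin N) :
    (fun g => σ g⁻¹ i j) ∈ entAlg σ :=
  Algebra.subset_adjoin (Or.inr ⟨i, j, rfl⟩)

/-- matrix coefficient -/
private def H4b_e (σ : G →* Matrix (Fin N) (Fin N) Ω) (i j : Fin N) : entAlg σ :=
  ⟨fun g => σ g i j, H4b_e_mem σ i j⟩

/-- matrix coefficient of the inverse -/
private def H4b_e' (σ : G →* Matrix (Fin N) (Fin N) Ω) (i j : Fin N) : entAlg σ :=
  ⟨fun g => σ g⁻¹ i j, H4b_e'_mem σ i j⟩

private theorem H4b_rt_e (σ : G →* Matrix (Fin N) (Fin N) Ω) (i j : Fin N) (g : G)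
    (h : rt g (H4b_e σ i j).1 ∈ entAlg σ) :
    (⟨rt g (H4b_e σ i j).1, h⟩ : entAlg σ) = ∑ k, σ g k j • H4b_e σ i k := by
  refine Subtype.ext ?_
  rw [AddSubmonoidClass.coe_finsetSum]
  funext x
  rw [Finset.sum_apply]
  change σ (x * g) i j = ∑ k, σ g k j * σ x i k
  rw [map_mul, Matrix.mul_apply]
  exact Finset.sum_congr rfl fun k _ => mul_comm _ _

private theorem H4b_rt_e' (σ : G →* Matrix (Fin N) (Fin N) Ω) (i j : Fin N) (g : G)
    (h : rt g (H4b_e' σ i j).1 ∈ entAlg σ) :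
    (⟨rt g (H4b_e' σ i j).1, h⟩ : entAlg σ) = ∑ k, σ g⁻¹ i k • H4b_e' σ k j := by
  refine Subtype.ext ?_
  rw [AddSubmonoidClass.coe_finsetSum]
  funext x
  rw [Finset.sum_apply]
  change σ (x * g)⁻¹ i j = ∑ k, σ g⁻¹ i k * σ x⁻¹ k j
  rw [mul_inv_rev, map_mul, Matrix.mul_apply]

private theorem H4b_orth (σ : G →* Matrix (Fin N) (Fin N) Ω) (i j : Fin N) :
    (∑ k, H4b_e' σ i k * H4b_e σ k j) = if i = j then 1 else 0 := by
  refine Subtype.ext ?_
  rw [AddSubmonoidClass.coe_finsetSum]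
  funext x
  rw [Finset.sum_apply]
  change ∑ k, σ x⁻¹ i k * σ x k j = _
  rw [← Matrix.mul_apply, ← map_mul, inv_mul_cancel, map_one, Matrix.one_apply]
  split_ifs <;> rfl

/-- A homomorphism `χ : entAlg σ → Ω` gives the `left translation by χ`, an endomorphism of `entAlg σ`:
`(λ F)(g) = χ(F(· g))`. It is well defined: `Algebra.adjoin_induction` or check generators, e.g.
`λ(σ_ij) = ∑_k χ(σ_ik) σ_kj`. It is surjective because the matrix `(χ σ_ik)` is invertible with inverse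
`χ((σ(g⁻¹))_ik)`. -/
theorem exists_left_translation (σ : G →* Matrix (Fin N) (Fin N) Ω) (χ : entAlg σ →ₐ[Ω] Ω) :
    ∃ lam : entAlg σ →ₐ[Ω] entAlg σ, Function.Surjective lam ∧
      ∀ (F : entAlg σ) (g : G), (lam F).1 g = χ ⟨rt g F.1, rt_mem σ g F.1 F.2⟩ := by
  let rtA : G → (entAlg σ →ₐ[Ω] entAlg σ) := fun g =>
    ((rt g).comp (entAlg σ).val).codRestrict (entAlg σ) fun F => rt_mem σ g F.1 F.2
  let lam0 : entAlg σ →ₐ[Ω] (G → Ω) := AlgHom.pi fun g => χ.comp (rtA g)
  have hlam0 : ∀ (F : entAlg σ) (g : G), lam0 F g = χ ⟨rt g F.1, rt_mem σ g F.1 F.2⟩ :=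
    fun _ _ => rfl
  have he : ∀ i j, lam0 (H4b_e σ i j) = ((∑ k, χ (H4b_e σ i k) • H4b_e σ k j : entAlg σ) : G → Ω) := by
    intro i j
    funext g
    rw [hlam0, H4b_rt_e, map_sum, AddSubmonoidClass.coe_finsetSum, Finset.sum_apply]
    refine Finset.sum_congr rfl fun k _ => ?_
    rw [map_smul]
    change σ g k j * χ _ = χ _ * σ g k j
    exact mul_comm _ _
  have he' : ∀ i j, lam0 (H4b_e' σ i j) =
      ((∑ k, χ (H4b_e' σ k j) • H4b_e' σ i k : entAlg σ) : G → Ω) := by
    intro i j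
    funext g
    rw [hlam0, H4b_rt_e', map_sum, AddSubmonoidClass.coe_finsetSum, Finset.sum_apply]
    refine Finset.sum_congr rfl fun k _ => ?_
    rw [map_smul]
    change σ g⁻¹ i k * χ _ = χ _ * σ g⁻¹ i k
    exact mul_comm _ _
  have hmem : ∀ F : entAlg σ, lam0 F ∈ entAlg σ := by
    rintro ⟨f, hf⟩
    refine Algebra.adjoin_induction (p := fun f hf => lam0 ⟨f, hf⟩ ∈ entAlg σ) ?_ ?_ ?_ ?_ hf
    · rintro _ (⟨i, j, rfl⟩ | ⟨i, j, rfl⟩)
      · exact (he i j).symm ▸ Subtype.mem _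
      · exact (he' i j).symm ▸ Subtype.mem _
    · intro r
      have : lam0 ⟨algebraMap Ω (G → Ω) r, (entAlg σ).algebraMap_mem r⟩ = algebraMap Ω (G → Ω) r :=
        lam0.commutes r
      exact this.symm ▸ (entAlg σ).algebraMap_mem r
    · intro x y hx hy h1 h2
      have : lam0 ⟨x + y, (entAlg σ).add_mem hx hy⟩ = lam0 ⟨x, hx⟩ + lam0 ⟨y, hy⟩ :=
        map_add lam0 ⟨x, hx⟩ ⟨y, hy⟩
      exact this.symm ▸ (entAlg σ).add_mem h1 h2
    · intro x y hx hy h1 h2
      have : lam0 ⟨x * y, (entAlg σ).mul_mem hx hy⟩ = lam0 ⟨x, hx⟩ * lam0 ⟨y, hy⟩ :=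
        map_mul lam0 ⟨x, hx⟩ ⟨y, hy⟩
      exact this.symm ▸ (entAlg σ).mul_mem h1 h2
  let lam : entAlg σ →ₐ[Ω] entAlg σ := lam0.codRestrict (entAlg σ) hmem
  have hle : ∀ i j, lam (H4b_e σ i j) = ∑ k, χ (H4b_e σ i k) • H4b_e σ k j :=
    fun i j => Subtype.ext (he i j)
  have hle' : ∀ i j, lam (H4b_e' σ i j) = ∑ k, χ (H4b_e' σ k j) • H4b_e' σ i k :=
    fun i j => Subtype.ext (he' i j)
  have horth : ∀ i j, ∑ k, χ (H4b_e' σ i k) * χ (H4b_e σ k j) = if i = j then 1 else 0 := by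
    intro i j
    have h := congrArg χ (H4b_orth σ i j)
    rw [map_sum] at h
    simp only [map_mul] at h
    rw [h]
    split_ifs
    · exact map_one χ
    · exact map_zero χ
  refine ⟨lam, ?_, fun F g => rfl⟩
  have hre : ∀ i j, H4b_e σ i j ∈ lam.range := by
    intro i j
    refine ⟨∑ k, χ (H4b_e' σ i k) • H4b_e σ k j, ?_⟩
    change lam _ = _
    rw [map_sum]
    simp only [map_smul, hle, Finset.smul_sum, smul_smul]
    rw [Finset.sum_comm]
    simp only [← Finset.sum_smul, horth]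
    simp
  have hre' : ∀ i j, H4b_e' σ i j ∈ lam.range := by
    intro i j
    refine ⟨∑ k, χ (H4b_e σ k j) • H4b_e' σ i k, ?_⟩
    change lam _ = _
    rw [map_sum]
    simp only [map_smul, hle', Finset.smul_sum, smul_smul]
    rw [Finset.sum_comm]
    have : ∀ x, ∑ k, (χ (H4b_e σ k j) * χ (H4b_e' σ x k)) • H4b_e' σ i x =
        (if x = j then (1 : Ω) else 0) • H4b_e' σ i x := by
      intro x
      rw [← Finset.sum_smul, ← horth x j]
      congr 1
      exact Finset.sum_congr rfl fun k _ => mul_comm _ _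
    simp only [this]
    simp
  rintro ⟨f, hf⟩
  change (⟨f, hf⟩ : entAlg σ) ∈ lam.range
  refine Algebra.adjoin_induction (p := fun f hf => (⟨f, hf⟩ : entAlg σ) ∈ lam.range)
    ?_ ?_ ?_ ?_ hf
  · rintro _ (⟨i, j, rfl⟩ | ⟨i, j, rfl⟩)
    · exact hre i j
    · exact hre' i j
  · intro r
    exact lam.range.algebraMap_mem r
  · intro x y hx hy h1 h2
    exact lam.range.add_mem h1 h2
  · intro x y hx hy h1 h2
    exact lam.range.mul_mem h1 h2

/-- A translation stable ideal of `entAlg σ` is `0` or everything. If it is not everything it is contained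
in the kernel of some `χ : entAlg σ → Ω` (Nullstellensatz: the quotient by a maximal ideal is a finite
extension of `Ω`, `finite_of_finite_type_of_isJacobsonRing`, so it is `Ω`); so it is contained in the kernel
of `lam` of `exists_left_translation`, which is injective. -/
theorem stable_ideal [IsAlgClosed Ω] (σ : G →* Matrix (Fin N) (Fin N) Ω) (I : Ideal (entAlg σ))
    (hI : ∀ (h : G), ∀ f ∈ I, (⟨rt h f.1, rt_mem σ h f.1 f.2⟩ : entAlg σ) ∈ I) (hne : I ≠ ⊥) :
    I = ⊤ := by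
  by_contra htop
  obtain ⟨m, hm, hIm⟩ := Ideal.exists_le_maximal I htop
  have hft : Algebra.FiniteType Ω (entAlg σ) := entAlg_finiteType σ
  letI : Field (entAlg σ ⧸ m) := Ideal.Quotient.field m
  have hftq : Algebra.FiniteType Ω (entAlg σ ⧸ m) :=
    Algebra.FiniteType.of_surjective (Ideal.Quotient.mkₐ Ω m) (Ideal.Quotient.mkₐ_surjective Ω m)
  have hfin : Module.Finite Ω (entAlg σ ⧸ m) := finite_of_finite_type_of_isJacobsonRing Ω (entAlg σ ⧸ m)
  have hbij : Function.Bijective (algebraMap Ω (entAlg σ ⧸ m)) :=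
    IsAlgClosed.algebraMap_bijective_of_isIntegral
  let e : Ω ≃ₐ[Ω] (entAlg σ ⧸ m) := AlgEquiv.ofBijective (Algebra.ofId Ω (entAlg σ ⧸ m)) hbij
  let χ : entAlg σ →ₐ[Ω] Ω := (e.symm : (entAlg σ ⧸ m) →ₐ[Ω] Ω).comp (Ideal.Quotient.mkₐ Ω m)
  have hχ : ∀ f ∈ I, χ f = 0 := by
    intro f hf
    show e.symm (Ideal.Quotient.mk m f) = 0
    rw [Ideal.Quotient.eq_zero_iff_mem.mpr (hIm hf), map_zero]
  obtain ⟨lam, hsurj, hlam⟩ := exists_left_translation σ χ
  haveI : IsNoetherianRing (entAlg σ) := Algebra.FiniteType.isNoetherianRing Ω (entAlg σ)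
  have hinj := injective_of_surjective_noetherian (lam : entAlg σ →+* entAlg σ) hsurj
  apply hne
  rw [eq_bot_iff]
  intro f hf
  have h0 : lam f = 0 := by
    apply Subtype.ext
    funext g
    rw [hlam f g]
    exact hχ _ (hI g f hf)
  have : f = 0 := hinj (by
    show lam f = lam 0
    rw [h0, map_zero])
  rw [this]
  exact Submodule.zero_mem _

end Pool.Agent.Lib.MP_666dc0_nt.IG
end

section

/-! # Part H, file 5: unique extension -/

set_option autoImplicit false

namespace Pool.Agent.Lib.MP_666dc0_nt.IG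

/-- `C₀ ⊂ C`: take `f ∈ C` and `W` from `exists_fg_stable`. The ideal `d = {d ∈ C₀ | d W ⊂ C₀}` of `C₀` is
translation stable (`rt h (d w) = rt h d * rt h w`), and not `0`: let `q` be a minimal prime of `C₀`, for
generators `w_1, …, w_r` of `W` take `d_i ∉ q` with `d_i w_i ∈ C₀` (`H_conductor`) and the product of the
`d_i`. So `1 ∈ d` by `stable_ideal`. -/
theorem entAlg_eq {G : Type} [Group G] {Ω : Type} [Field Ω] [IsAlgClosed Ω] [CharZero Ω]
    {n N : ℕ} (ρ : G →* Matrix (Fin n) (Fin n) Ω) (σ : G →* Matrix (Fin N) (Fin N) Ω)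
    (hle : entAlg σ ≤ entAlg ρ)
    (huniq : ∀ (Ω' : Type) [Field Ω'] [IsAlgClosed Ω'] [Algebra Ω Ω']
      (χ₁ χ₂ : entAlg ρ →ₐ[Ω] Ω'),
      (∀ f (hf : f ∈ entAlg σ), χ₁ ⟨f, hle hf⟩ = χ₂ ⟨f, hle hf⟩) → χ₁ = χ₂) :
    entAlg ρ = entAlg σ := by
  apply le_antisymm _ hle
  intro f hf
  letI : Algebra (entAlg σ) (entAlg ρ) := (Subalgebra.inclusion hle).toRingHom.toAlgebra
  haveI : IsScalarTower Ω (entAlg σ) (entAlg ρ) := IsScalarTower.of_algebraMap_eq fun _ => rfl
  haveI : Algebra.FiniteType Ω (entAlg ρ) := entAlg_finiteType ρ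
  haveI : IsReduced (entAlg ρ) :=
    isReduced_of_injective (entAlg ρ).val (fun _ _ h => Subtype.ext h)
  have hinj : Function.Injective (algebraMap (entAlg σ) (entAlg ρ)) := Subalgebra.inclusion_injective hle
  have hu : UniqPts Ω (entAlg σ) (entAlg ρ) := by
    intro Ω' _ _ _ χ₁ χ₂ h
    exact huniq Ω' χ₁ χ₂ fun f hf => h ⟨f, hf⟩
  haveI : Nontrivial (entAlg σ) := inferInstance
  obtain ⟨q, hq⟩ : (minimalPrimes (entAlg σ)).Nonempty := by
    obtain ⟨m, hm⟩ := Ideal.exists_maximal (entAlg σ)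
    obtain ⟨q, hq, -⟩ := Ideal.exists_minimalPrimes_le (bot_le : (⊥ : Ideal (entAlg σ)) ≤ m)
    exact ⟨q, hq⟩
  have hp : q.IsPrime := hq.1.1
  have hcond : ∀ w ∈ entAlg ρ, ∃ d : entAlg σ, d ∉ q ∧ d.1 * w ∈ entAlg σ := by
    intro w hw
    obtain ⟨d, a, hd, hda⟩ := H_conductor (Ω := Ω) hinj hu q hq ⟨w, hw⟩
    refine ⟨d, hd, ?_⟩
    have : d.1 * w = a.1 := congrArg Subtype.val hda
    rw [this]
    exact a.2
  obtain ⟨W, hW1, hW2, hW3, hW4⟩ := exists_fg_stable ρ f hf
  obtain ⟨S, hS⟩ := hW1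
  have hfin : ∀ T : Finset (G → Ω), (∀ w ∈ T, w ∈ entAlg ρ) →
      ∃ d : entAlg σ, d ∉ q ∧ ∀ w ∈ T, d.1 * w ∈ entAlg σ := by
    classical
    intro T
    induction T using Finset.induction_on with
    | empty =>
      intro _
      exact ⟨1, fun h => hp.ne_top ((Ideal.eq_top_iff_one q).mpr h), fun w hw => absurd hw (Finset.notMem_empty w)⟩
    | insert a T _ ih =>
      intro hT
      obtain ⟨d, hd, hd'⟩ := ih fun w hw => hT w (Finset.mem_insert_of_mem hw)
      obtain ⟨e, he, he'⟩ := hcond a (hT a (Finset.mem_insert_self a T))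
      refine ⟨d * e, hp.mul_notMem hd he, ?_⟩
      intro w hw
      rcases Finset.mem_insert.mp hw with rfl | hw
      · have : (d * e).1 * w = d.1 * (e.1 * w) := by
          show (d.1 * e.1) * w = _
          rw [mul_assoc]
        rw [this]
        exact Subalgebra.mul_mem _ d.2 he'
      · have : (d * e).1 * w = e.1 * (d.1 * w) := by
          show (d.1 * e.1) * w = _
          ring
        rw [this]
        exact Subalgebra.mul_mem _ e.2 (hd' w hw)
  obtain ⟨d, hd, hdS⟩ := hfin S fun w hw => hW3 w (by rw [← hS]; exact Submodule.subset_span hw)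
  have hdW : ∀ w ∈ W, d.1 * w ∈ entAlg σ := by
    intro w hw
    rw [← hS] at hw
    induction hw using Submodule.span_induction with
    | mem x hx => exact hdS x hx
    | zero => rw [mul_zero]; exact Subalgebra.zero_mem _
    | add x y _ _ hx hy => rw [mul_add]; exact Subalgebra.add_mem _ hx hy
    | smul a x _ hx => rw [mul_smul_comm]; exact Subalgebra.smul_mem _ hx a
  let I : Ideal (entAlg σ) :=
    { carrier := {d | ∀ w ∈ W, d.1 * w ∈ entAlg σ}
      add_mem' := by
        intro a b ha hb w hw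
        show (a.1 + b.1) * w ∈ entAlg σ
        rw [add_mul]
        exact Subalgebra.add_mem _ (ha w hw) (hb w hw)
      zero_mem' := by
        intro w _
        show (0 : G → Ω) * w ∈ entAlg σ
        rw [zero_mul]
        exact Subalgebra.zero_mem _
      smul_mem' := by
        intro c a ha w hw
        show (c.1 * a.1) * w ∈ entAlg σ
        rw [mul_assoc]
        exact Subalgebra.mul_mem _ c.2 (ha w hw) }
  have hI : I = ⊤ := by
    apply stable_ideal σ I
    · intro h a ha w hw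
      show rt h a.1 * w ∈ entAlg σ
      have e : rt h a.1 * w = rt h (a.1 * rt h⁻¹ w) := by
        rw [map_mul, rt_rt, mul_inv_cancel]
        congr 1
        funext g
        rw [rt_apply, mul_one]
      rw [e]
      exact rt_mem σ h _ (ha _ (hW4 h⁻¹ w hw))
    · intro h0
      have hdI : d ∈ I := hdW
      rw [h0] at hdI
      have : d = 0 := by simpa using hdI
      rw [this] at hd
      exact hd q.zero_mem
  have h1 : (1 : entAlg σ) ∈ I := by rw [hI]; exact Submodule.mem_top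
  have := h1 f hW2
  have e : (1 : entAlg σ).1 * f = f := one_mul f
  rw [e] at this
  exact this

/-- Part H. -/
theorem unique_extension {G : Type} [Group G] {Ω : Type} [Field Ω] [IsAlgClosed Ω] [CharZero Ω]
    {n N : ℕ} (ρ : G →* Matrix (Fin n) (Fin n) Ω) (σ : G →* Matrix (Fin N) (Fin N) Ω)
    (C C₀ : Subalgebra Ω (G → Ω))
    (hC : C = Algebra.adjoin Ω ({f | ∃ i j, f = fun g => ρ g i j} ∪ {f | ∃ i j, f = fun g => ρ g⁻¹ i j}))
    (hC₀ : C₀ = Algebra.adjoin Ω
      ({f | ∃ i j, f = fun g => σ g i j} ∪ {f | ∃ i j, f = fun g => σ g⁻¹ i j}))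
    (hle : C₀ ≤ C)
    (huniq : ∀ (Ω' : Type) [Field Ω'] [IsAlgClosed Ω'] [Algebra Ω Ω'] (χ₁ χ₂ : C →ₐ[Ω] Ω'),
      (∀ f (hf : f ∈ C₀), χ₁ ⟨f, hle hf⟩ = χ₂ ⟨f, hle hf⟩) → χ₁ = χ₂) :
    C = C₀ := by
  subst hC
  subst hC₀
  exact entAlg_eq ρ σ hle huniq

end Pool.Agent.Lib.MP_666dc0_nt.IG
end
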