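import Pool.Agent.Lib.MP_666dc0_nt.IG.Defs2

section

open MvPolynomial

namespace Pool.Agent.Lib.MP_666dc0_nt.IG

variable {A B : Type} [CommRing A] [CommRing B] {n : ℕ} {s : Shape}

theorem InP_one (lam : Fin n → ℝ) : InP lam (1 : Matrix (Fin n) (Fin n) A) := by
  intro a b h
  by_cases hab : a = b
  · rw [hab]
  · exact absurd (Matrix.one_apply_ne hab) h

theorem InP_mul {lam : Fin n → ℝ} {M N : Matrix (Fin n) (Fin n) A} (hM : InP lam M)
    (hN : InP lam N) : InP lam (M * N) := by
  intro a b h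
  rw [Matrix.mul_apply] at h
  obtain ⟨c, _, hc⟩ := Finset.exists_ne_zero_of_sum_ne_zero h
  exact (hN c b (right_ne_zero_of_mul hc)).trans (hM a c (left_ne_zero_of_mul hc))

theorem InP_map {lam : Fin n → ℝ} {M : Matrix (Fin n) (Fin n) A} (hM : InP lam M) (f : A →+* B) :
    InP lam (M.map f) := by
  intro a b h
  refine hM a b fun h0 => h ?_
  rw [Matrix.map_apply, h0, map_zero]

/-- `(M N)_{ab} = ∑ M_{ac} N_{cb}`, for `lam a = lam b` only the `c` with `lam a ≥ lam c ≥ lam b`
contribute, i.e. `lam c = lam a`. -/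
theorem lv_mul {lam : Fin n → ℝ} {M N : Matrix (Fin n) (Fin n) A} (hM : InP lam M)
    (hN : InP lam N) : lv lam (M * N) = lv lam M * lv lam N := by
  ext a b
  rw [Matrix.mul_apply]
  change (if lam a = lam b then (M * N) a b else 0) =
    ∑ c, (if lam a = lam c then M a c else 0) * (if lam c = lam b then N c b else 0)
  split_ifs with hab
  · rw [Matrix.mul_apply]
    refine Finset.sum_congr rfl fun c _ => ?_
    by_cases hac : lam a = lam c
    · rw [if_pos hac, if_pos (hac.symm.trans hab)]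
    · rw [if_neg hac, zero_mul]
      by_contra h
      have h1 := hM a c (left_ne_zero_of_mul h)
      have h2 := hN c b (right_ne_zero_of_mul h)
      exact hac (le_antisymm (hab.trans_le h2) h1)
  · refine (Finset.sum_eq_zero fun c _ => ?_).symm
    by_cases hac : lam a = lam c
    · rw [if_neg (fun h => hab (hac.trans h)), mul_zero]
    · rw [if_neg hac, zero_mul]

theorem lv_one (lam : Fin n → ℝ) : lv lam (1 : Matrix (Fin n) (Fin n) A) = 1 := by
  ext a b
  change (if lam a = lam b then (1 : Matrix (Fin n) (Fin n) A) a b else 0) = _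
  by_cases hab : a = b
  · rw [hab, if_pos rfl]
  · rw [Matrix.one_apply_ne hab, ite_self]

end Pool.Agent.Lib.MP_666dc0_nt.IG
end

section

open MvPolynomial

namespace Pool.Agent.Lib.MP_666dc0_nt.IG

variable {A B : Type} [CommRing A] [CommRing B] {n : ℕ} {s : Shape}

/-- Multiplication by elements of `P(lam)` does not decrease weights: if `act b b' t x ≠ 0` there are
`L, M` with `b (I i) (L i) ≠ 0`, `b' (M j) (J j) ≠ 0` and `t ⟨x.1, x.2.1, L, M⟩ ≠ 0`; the weight of this
coordinate is at most `wt lam x`. -/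
theorem supp_act {lam : Fin n → ℝ} {b b' : Matrix (Fin n) (Fin n) A} (hb : InP lam b)
    (hb' : InP lam b') {c : s.β → ℝ} {t : s.Ix n → A} (ht : ∀ x, t x ≠ 0 → c x.1 ≤ wt lam x) :
    ∀ x, act b b' t x ≠ 0 → c x.1 ≤ wt lam x := by
  intro x hx
  obtain ⟨β, c', I, J⟩ := x
  obtain ⟨L, _, hL⟩ := Finset.exists_ne_zero_of_sum_ne_zero hx
  obtain ⟨M, _, hM⟩ := Finset.exists_ne_zero_of_sum_ne_zero hL
  have h1 := right_ne_zero_of_mul hM
  have h2 := left_ne_zero_of_mul hM
  have h3 : ∀ i, b (I i) (L i) ≠ 0 := fun i h =>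
    left_ne_zero_of_mul h2 (Finset.prod_eq_zero (Finset.mem_univ i) h)
  have h4 : ∀ j, b' (M j) (J j) ≠ 0 := fun j h =>
    right_ne_zero_of_mul h2 (Finset.prod_eq_zero (Finset.mem_univ j) h)
  refine (ht ⟨β, c', L, M⟩ h1).trans ?_
  simp only [wt]
  exact sub_le_sub (Finset.sum_le_sum fun i _ => hb _ _ (h3 i))
    (Finset.sum_le_sum fun j _ => hb' _ _ (h4 j))

/-- The weight zero part of `act b b' t` for `b, b'` in `P(lam)` and `t` of weights `≥ 0` only involves the
block diagonal parts: in the sum defining `act b b' t x` with `wt lam x = 0` a nonzero term has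
`lam (I i) ≥ lam (L i)`, `lam (M j) ≥ lam (J j)` and `0 ≤ wt ⟨.., L, M⟩`, so all are equalities. -/
theorem wtZero_act {lam : Fin n → ℝ} {b b' : Matrix (Fin n) (Fin n) A} (hb : InP lam b)
    (hb' : InP lam b') {t : s.Ix n → A} (ht : ∀ x, t x ≠ 0 → 0 ≤ wt lam x) :
    wtZero lam (act b b' t) = act (lv lam b) (lv lam b') (wtZero lam t) := by
  funext x
  obtain ⟨β, c, I, J⟩ := x
  -- the terms
  have key : ∀ (L : Fin (s.p β) → Fin n) (M : Fin (s.q β) → Fin n),
      (if wt lam (⟨β, c, I, J⟩ : s.Ix n) = 0 then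
        (∏ i, b (I i) (L i)) * (∏ j, b' (M j) (J j)) * t ⟨β, c, L, M⟩ else 0) =
      (∏ i, lv lam b (I i) (L i)) * (∏ j, lv lam b' (M j) (J j)) *
        wtZero lam t ⟨β, c, L, M⟩ := by
    intro L M
    change _ = (∏ i, (if lam (I i) = lam (L i) then b (I i) (L i) else 0)) *
      (∏ j, (if lam (M j) = lam (J j) then b' (M j) (J j) else 0)) *
      (if wt lam (⟨β, c, L, M⟩ : s.Ix n) = 0 then t ⟨β, c, L, M⟩ else 0)
    by_cases hIL : ∀ i, lam (I i) = lam (L i)
    · by_cases hMJ : ∀ j, lam (M j) = lam (J j)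
      · have hw : wt lam (⟨β, c, I, J⟩ : s.Ix n) = wt lam (⟨β, c, L, M⟩ : s.Ix n) := by
          simp only [wt]
          rw [Finset.sum_congr rfl fun i _ => hIL i, Finset.sum_congr rfl fun j _ => hMJ j]
        rw [hw]
        split_ifs with h0
        · rw [Finset.prod_congr rfl fun i _ => if_pos (hIL i),
            Finset.prod_congr rfl fun j _ => if_pos (hMJ j)]
        · rw [mul_zero]
      · obtain ⟨j, hj⟩ := not_forall.1 hMJ
        rw [Finset.prod_eq_zero (f := fun j => if lam (M j) = lam (J j) then b' (M j) (J j) else 0)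
          (Finset.mem_univ j) (if_neg hj), mul_zero, zero_mul]
        split_ifs with h0
        · by_contra h
          have h1 := right_ne_zero_of_mul h
          have h2 := left_ne_zero_of_mul h
          have h4 : ∀ j, b' (M j) (J j) ≠ 0 := fun j h =>
            right_ne_zero_of_mul h2 (Finset.prod_eq_zero (Finset.mem_univ j) h)
          have h5 : wt lam (⟨β, c, L, M⟩ : s.Ix n) < wt lam (⟨β, c, I, J⟩ : s.Ix n) := by
            simp only [wt]
            rw [Finset.sum_congr rfl fun i _ => hIL i]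
            refine sub_lt_sub_left (Finset.sum_lt_sum (fun j _ => hb' _ _ (h4 j))
              ⟨j, Finset.mem_univ j, lt_of_le_of_ne (hb' _ _ (h4 j)) (Ne.symm hj)⟩) _
          exact absurd (ht _ h1) (not_le.2 (h5.trans_eq h0))
        · rfl
    · obtain ⟨i, hi⟩ := not_forall.1 hIL
      rw [Finset.prod_eq_zero (f := fun i => if lam (I i) = lam (L i) then b (I i) (L i) else 0)
        (Finset.mem_univ i) (if_neg hi), zero_mul, zero_mul]
      split_ifs with h0
      · by_contra h
        have h1 := right_ne_zero_of_mul h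
        have h2 := left_ne_zero_of_mul h
        have h3 : ∀ i, b (I i) (L i) ≠ 0 := fun i h =>
          left_ne_zero_of_mul h2 (Finset.prod_eq_zero (Finset.mem_univ i) h)
        have h4 : ∀ j, b' (M j) (J j) ≠ 0 := fun j h =>
          right_ne_zero_of_mul h2 (Finset.prod_eq_zero (Finset.mem_univ j) h)
        have h5 : wt lam (⟨β, c, L, M⟩ : s.Ix n) < wt lam (⟨β, c, I, J⟩ : s.Ix n) := by
          simp only [wt]
          have e1 : ∑ i, lam (L i) < ∑ i, lam (I i) := Finset.sum_lt_sum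
            (fun i _ => hb _ _ (h3 i))
            ⟨i, Finset.mem_univ i, lt_of_le_of_ne (hb _ _ (h3 i)) (Ne.symm hi)⟩
          have e2 : ∑ j, lam (J j) ≤ ∑ j, lam (M j) := Finset.sum_le_sum
            fun j _ => hb' _ _ (h4 j)
          linarith
        exact absurd (ht _ h1) (not_le.2 (h5.trans_eq h0))
      · rfl
  change (if wt lam (⟨β, c, I, J⟩ : s.Ix n) = 0 then
      ∑ L : Fin (s.p β) → Fin n, ∑ M : Fin (s.q β) → Fin n,
        (∏ i, b (I i) (L i)) * (∏ j, b' (M j) (J j)) * t ⟨β, c, L, M⟩ else 0) =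
    ∑ L : Fin (s.p β) → Fin n, ∑ M : Fin (s.q β) → Fin n,
      (∏ i, lv lam b (I i) (L i)) * (∏ j, lv lam b' (M j) (J j)) *
        wtZero lam t ⟨β, c, L, M⟩
  have h6 := Finset.sum_congr (rfl : (Finset.univ : Finset (Fin (s.p β) → Fin n)) = Finset.univ)
    fun L _ => Finset.sum_congr (rfl : (Finset.univ : Finset (Fin (s.q β) → Fin n)) = Finset.univ)
    fun M _ => key L M
  rw [← h6]
  split_ifs with h0
  · rfl
  · simp only [Finset.sum_const_zero]

end Pool.Agent.Lib.MP_666dc0_nt.IG
end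

section

open MvPolynomial

namespace Pool.Agent.Lib.MP_666dc0_nt.IG

variable {A B : Type} [CommRing A] [CommRing B] {n : ℕ} {s : Shape}

theorem wtZero_toTot {M : Type} (lam : Fin n → ℝ) (v : M → Matrix (Fin n) (Fin n) A)
    (u : s.Ix n → A) : wtZero lam (toTot v u) = toTot (fun m => lv lam (v m)) (wtZero lam u) := by
  funext x
  obtain ⟨b, c, I, J⟩ := x
  rcases b with w | b
  · have h : wt lam (⟨Sum.inl w, c, I, J⟩ : (tot M s).Ix n) =
        lam (I (0 : Fin 1)) - lam (J (0 : Fin 1)) := by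
      change ∑ i : Fin 1, lam (I i) - ∑ j : Fin 1, lam (J j) = _
      rw [Fin.sum_univ_one, Fin.sum_univ_one]
    change (if wt lam (⟨Sum.inl w, c, I, J⟩ : (tot M s).Ix n) = 0 then
      v c (I (0 : Fin 1)) (J (0 : Fin 1)) else 0) =
      (if lam (I (0 : Fin 1)) = lam (J (0 : Fin 1)) then v c (I (0 : Fin 1)) (J (0 : Fin 1)) else 0)
    rw [h]
    exact if_congr sub_eq_zero rfl rfl
  · rfl

theorem wtZero_mix [∀ b, Fintype (s.C b)] (lam : Fin n → ℝ)
    (D : (b : s.β) → s.C b → s.C b → A) (t : s.Ix n → A) :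
    wtZero lam (mix D t) = mix D (wtZero lam t) := by
  funext x
  obtain ⟨b, c, I, J⟩ := x
  change (if wt lam (⟨b, c, I, J⟩ : s.Ix n) = 0 then ∑ c', D b c c' * t ⟨b, c', I, J⟩ else 0) =
    ∑ c', D b c c' * (if wt lam (⟨b, c, I, J⟩ : s.Ix n) = 0 then t ⟨b, c', I, J⟩ else 0)
  split_ifs with h0
  · rfl
  · simp only [mul_zero, Finset.sum_const_zero]

theorem supp_mix [∀ b, Fintype (s.C b)] {lam : Fin n → ℝ} {D : (b : s.β) → s.C b → s.C b → A}
    {c : s.β → ℝ} {t : s.Ix n → A} (ht : ∀ x, t x ≠ 0 → c x.1 ≤ wt lam x) :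
    ∀ x, mix D t x ≠ 0 → c x.1 ≤ wt lam x := by
  intro x hx
  obtain ⟨b, c', I, J⟩ := x
  obtain ⟨d, _, hd⟩ := Finset.exists_ne_zero_of_sum_ne_zero hx
  exact ht ⟨b, d, I, J⟩ (right_ne_zero_of_mul hd)

/-- Weights of a family of matrices: `toTot v u` is supported in weights `≥ 0` iff all `v m` are in
`P(lam)` and `u` is supported in weights `≥ 0`. -/
theorem supp_toTot {M : Type} {lam : Fin n → ℝ} {v : M → Matrix (Fin n) (Fin n) A}
    {u : s.Ix n → A} (hv : ∀ m, InP lam (v m)) (hu : ∀ x, u x ≠ 0 → 0 ≤ wt lam x) :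
    ∀ x, toTot v u x ≠ 0 → 0 ≤ wt lam x := by
  intro x hx
  obtain ⟨b, c, I, J⟩ := x
  rcases b with w | b
  · change v c (I (0 : Fin 1)) (J (0 : Fin 1)) ≠ 0 at hx
    change 0 ≤ ∑ i : Fin 1, lam (I i) - ∑ j : Fin 1, lam (J j)
    rw [Fin.sum_univ_one, Fin.sum_univ_one]
    exact sub_nonneg.2 (hv c _ _ hx)
  · exact hu ⟨b, c, I, J⟩ hx

end Pool.Agent.Lib.MP_666dc0_nt.IG
end

section

open MvPolynomial

namespace Pool.Agent.Lib.MP_666dc0_nt.IG

variable {n : ℕ} {s : Shape}

/-- The inverse of a matrix in `P(lam)` is in `P(lam)`: e.g. by Cayley-Hamilton the inverse is a polynomial in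
the matrix, and `P(lam)` is a subalgebra (`InP_mul`, `InP_one`). -/
theorem InP_inv {K : Type} [Field K] {lam : Fin n → ℝ} {u u' : Matrix (Fin n) (Fin n) K}
    (h : u * u' = 1) (h' : u' * u = 1) (hu : InP lam u) : InP lam u' := by
  let P : Submodule K (Matrix (Fin n) (Fin n) K) :=
    { carrier := {M | InP lam M}
      add_mem' := by
        intro M N hM hN a b hab
        by_cases hMab : M a b = 0
        · refine hN a b ?_
          intro hNab
          exact hab (by rw [Matrix.add_apply, hMab, hNab, add_zero])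
        · exact hM a b hMab
      zero_mem' := fun a b hab => absurd rfl hab
      smul_mem' := by
        intro c M hM a b hab
        refine hM a b (fun h0 => hab ?_)
        rw [Matrix.smul_apply, h0, smul_zero] }
  let f : P →ₗ[K] P := (LinearMap.mulLeft K u).restrict (fun M hM => InP_mul hu hM)
  have hf : Function.Injective f := by
    intro x y hxy
    have h1 : u * (x : Matrix (Fin n) (Fin n) K) = u * (y : Matrix (Fin n) (Fin n) K) :=
      congrArg Subtype.val hxy
    apply Subtype.ext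
    calc (x : Matrix (Fin n) (Fin n) K) = u' * (u * x) := by
          rw [← Matrix.mul_assoc, h', Matrix.one_mul]
      _ = u' * (u * y) := by rw [h1]
      _ = y := by rw [← Matrix.mul_assoc, h', Matrix.one_mul]
  have hs := LinearMap.injective_iff_surjective.1 hf
  obtain ⟨x, hx⟩ := hs ⟨1, InP_one lam⟩
  have h1 : u * (x : Matrix (Fin n) (Fin n) K) = 1 := congrArg Subtype.val hx
  have h2 : (x : Matrix (Fin n) (Fin n) K) = u' := by
    calc (x : Matrix (Fin n) (Fin n) K) = u' * (u * x) := by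
          rw [← Matrix.mul_assoc, h', Matrix.one_mul]
      _ = u' := by rw [h1, Matrix.mul_one]
  rw [← h2]
  exact x.2

end Pool.Agent.Lib.MP_666dc0_nt.IG
end
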