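import Mathlib
import Pool.Agent.Lib.MP_666dc0_nt.Mg.G023
import Pool.Agent.Lib.MP_666dc0_nt.Mg.G027
import Pool.Agent.Lib.MP_666dc0_nt.Mg.G026
import Pool.Agent.Lib.MP_666dc0_nt.Mg.G019
import Pool.Agent.Lib.MP_666dc0_nt.Mg.G025
import Pool.Agent.Lib.MP_666dc0_nt.Mg.G022
import Pool.Agent.Lib.MP_666dc0_nt.Mg.G029
import Pool.Agent.Lib.MP_666dc0_nt.Mg.G020
import Pool.Agent.Lib.MP_666dc0_nt.Mg.G031
import Pool.Agent.Lib.MP_666dc0_nt.Mg.G030
import Pool.Agent.Lib.MP_666dc0_nt.Mg.G032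
import Pool.Agent.Lib.MP_666dc0_nt.Mg.G033
import Pool.Agent.Lib.MP_666dc0_nt.Mg.G034

section

open MvPolynomial

namespace Pool.Agent.Lib.MP_666dc0_nt.IG

/-- B2e. (Statement as in Iface.lean.) PROOF. `F` from `span_inv`; for `f ∈ F`, `p * f` is invariant, so
`span_inv` gives the hypothesis of `integral_of_span` with `c = vanishingIdeal ℚ Z`. -/
theorem graded_integral' {n : ℕ} (G : Red n) (s : Shape) [s.Small] (w : s.β → ℕ) (K : Type)
    [Field K] [IsAlgClosed K] [CharZero K] (Z : Set (s.Ix n → K))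
    (hG : ∀ t ∈ Z, ∀ k k' : Matrix (Fin n) (Fin n) K, G.In K k k' → act k k' t ∈ Z)
    (hw : ∀ t ∈ Z, ∀ c : K, (fun x => c ^ w x.1 * t x) ∈ Z)
    (hcl : ∀ t : s.Ix n → K, (∀ p : MvPolynomial (s.Ix n) ℚ, (∀ t' ∈ Z, aeval t' p = 0) →
      aeval t p = 0) → t ∈ Z)
    (S : Set (MvPolynomial (s.Ix n) ℚ)) (hS : ∀ q ∈ S, IsInv G q)
    (hSw : ∀ q ∈ S, ∃ d : ℕ, 0 < d ∧ IsWeightedHomogeneous (fun x : s.Ix n => w x.1) q d)
    (hnull : ∀ t ∈ Z, (∀ q ∈ S, aeval t q = 0) → ∀ p : MvPolynomial (s.Ix n) ℚ, IsInv G p →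
      aeval t p = aeval (kill (fun b => 0 < w b) t) p)
    (p : MvPolynomial (s.Ix n) ℚ) (hp : IsInv G p) :
    ∃ (N : ℕ) (a : Fin N → MvPolynomial (s.Ix n) ℚ),
      (∀ i, a i ∈ Algebra.adjoin ℚ (S ∪ {q | IsInv G q ∧
        IsWeightedHomogeneous (fun x : s.Ix n => w x.1) q 0})) ∧
      ∀ t ∈ Z, aeval t (p ^ N + ∑ i, a i * p ^ (i : ℕ)) = 0 := by
  obtain ⟨F, h1, hF, hspan⟩ := span_inv G s w K Z hG hw hcl S hS hSw hnull
  obtain ⟨N, a, ha, h⟩ := integral_of_span
    (Algebra.adjoin ℚ (S ∪ {q | IsInv G q ∧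
      IsWeightedHomogeneous (fun x : s.Ix n => w x.1) q 0})) (vanishingIdeal ℚ Z) F h1 p
    (fun f hf => hspan (p * f) ((InvA G s).mul_mem hp (hF f hf)))
  exact ⟨N, a, ha, fun t ht => h t ht⟩

end Pool.Agent.Lib.MP_666dc0_nt.IG
end

section

open MvPolynomial

namespace Pool.Agent.Lib.MP_666dc0_nt.IG

/-- Part B2. Integrality from a statement on the null cone, graded form: `w` gives degrees to the types
of tensors, `Z` is a closed set of families of tensors, stable under `G` and under scaling. -/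
theorem graded_integral {n : ℕ} (G : Red n) (s : Shape) [s.Small] (w : s.β → ℕ) (K : Type)
    [Field K] [IsAlgClosed K] [CharZero K] (Z : Set (s.Ix n → K))
    (hG : ∀ t ∈ Z, ∀ k k' : Matrix (Fin n) (Fin n) K, G.In K k k' → act k k' t ∈ Z)
    (hw : ∀ t ∈ Z, ∀ c : K, (fun x => c ^ w x.1 * t x) ∈ Z)
    (hcl : ∀ t : s.Ix n → K, (∀ p : MvPolynomial (s.Ix n) ℚ, (∀ t' ∈ Z, aeval t' p = 0) →
      aeval t p = 0) → t ∈ Z)
    (S : Set (MvPolynomial (s.Ix n) ℚ)) (hS : ∀ q ∈ S, IsInv G q)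
    (hSw : ∀ q ∈ S, ∃ d : ℕ, 0 < d ∧ IsWeightedHomogeneous (fun x : s.Ix n => w x.1) q d)
    (hnull : ∀ t ∈ Z, (∀ q ∈ S, aeval t q = 0) → ∀ p : MvPolynomial (s.Ix n) ℚ, IsInv G p →
      aeval t p = aeval (kill (fun b => 0 < w b) t) p)
    (p : MvPolynomial (s.Ix n) ℚ) (hp : IsInv G p) :
    ∃ (N : ℕ) (a : Fin N → MvPolynomial (s.Ix n) ℚ),
      (∀ i, a i ∈ Algebra.adjoin ℚ (S ∪ {q | IsInv G q ∧
        IsWeightedHomogeneous (fun x : s.Ix n => w x.1) q 0})) ∧
      ∀ t ∈ Z, aeval t (p ^ N + ∑ i, a i * p ^ (i : ℕ)) = 0 := by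
  exact graded_integral' G s w K Z hG hw hcl S hS hSw hnull p hp
end Pool.Agent.Lib.MP_666dc0_nt.IG
end

section

open MvPolynomial

namespace Pool.Agent.Lib.MP_666dc0_nt.IG

variable {n : ℕ} {s : Shape}

/-- The constant term `κ[ℝ≥0] → κ`: the monoid homomorphism `Multiplicative NNReal → κ` sending `0` to `1`
and every `r > 0` to `0` is multiplicative since `r + r' = 0` iff `r = r' = 0` in `NNReal`
(`AddMonoidAlgebra.lift`). -/
theorem exists_constTerm (κ : Type) [Field κ] :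
    ∃ ε : AddMonoidAlgebra κ NNReal →ₐ[κ] κ, ∀ (r : NNReal) (a : κ),
      ε (AddMonoidAlgebra.single r a) = if r = 0 then a else 0 := by
  let F : Multiplicative NNReal →* κ :=
    { toFun := fun r => if Multiplicative.toAdd r = 0 then 1 else 0
      map_one' := by simp
      map_mul' := by
        intro x y
        rw [toAdd_mul]
        by_cases hx : Multiplicative.toAdd x = 0
        · simp [hx]
        · have : Multiplicative.toAdd x + Multiplicative.toAdd y ≠ 0 := by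
            intro h
            exact hx (add_eq_zero.mp h).1
          simp [hx, this] }
  refine ⟨AddMonoidAlgebra.lift κ κ NNReal F, fun r a => ?_⟩
  rw [AddMonoidAlgebra.lift_single]
  change a • (if r = 0 then (1 : κ) else 0) = _
  split_ifs <;> simp

/-- `κ[ℝ≥0] → κ[ℝ]` is injective (`AddMonoidAlgebra.mapDomainAlgHom`, `Finsupp.mapDomain_injective`). -/
theorem exists_incl (κ : Type) [Field κ] :
    ∃ j : AddMonoidAlgebra κ NNReal →ₐ[κ] AddMonoidAlgebra κ ℝ, Function.Injective j ∧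
      ∀ (r : NNReal) (a : κ), j (AddMonoidAlgebra.single r a) = AddMonoidAlgebra.single (r : ℝ) a := by
  refine ⟨AddMonoidAlgebra.mapDomainAlgHom κ κ (NNReal.toRealHom : NNReal →+ ℝ), ?_, ?_⟩
  · exact AddMonoidAlgebra.mapDomain_injective NNReal.coe_injective
  · intro r a
    exact AddMonoidAlgebra.mapDomain_single

end Pool.Agent.Lib.MP_666dc0_nt.IG
end

section

open MvPolynomial

namespace Pool.Agent.Lib.MP_666dc0_nt.IG

variable {n : ℕ} {s : Shape}

theorem L1c_key {κ : Type} [Field κ] [Algebra ℚ κ] (f : MvPolynomial (s.Ix n) ℚ)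
    (t : s.Ix n → κ) (lam : Fin n → ℝ) (ht : ∀ x, t x ≠ 0 → 0 ≤ wt lam x) (c : κ)
    (hf : aeval (act (dT κ lam) (dT κ (fun a => - lam a))
      (fun y => algebraMap κ (AddMonoidAlgebra κ ℝ) (t y))) f =
        algebraMap κ (AddMonoidAlgebra κ ℝ) c) :
    aeval (wtZero lam t) f = c := by
  obtain ⟨ε, hε⟩ := exists_constTerm κ
  obtain ⟨j, hj, hjs⟩ := exists_incl κ
  let u : s.Ix n → AddMonoidAlgebra κ NNReal := fun x =>
    AddMonoidAlgebra.single (wt lam x).toNNReal (t x)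
  have h1 : act (dT κ lam) (dT κ (fun a => - lam a))
      (fun y => algebraMap κ (AddMonoidAlgebra κ ℝ) (t y)) = fun x => j (u x) := by
    funext x
    rw [act_dT, hjs]
    by_cases hx : t x = 0
    · rw [hx]; simp
    · rw [Real.coe_toNNReal _ (ht x hx)]
  have h2 : aeval (fun x => j (u x)) f = j (aeval u f) := by
    have := MvPolynomial.comp_aeval_apply u (j.restrictScalars ℚ) f
    exact this.symm
  have h3 : aeval u f = algebraMap κ (AddMonoidAlgebra κ NNReal) c := by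
    apply hj
    rw [← h2, ← h1, hf, AlgHom.commutes]
  have h4 : (wtZero lam t : s.Ix n → κ) = fun x => ε (u x) := by
    funext x
    rw [hε]
    unfold wtZero
    by_cases hx : t x = 0
    · rw [hx]; simp
    · have h5 := ht x hx
      by_cases h6 : wt lam x = 0
      · simp [h6]
      · have h7 : (wt lam x).toNNReal ≠ 0 := by
          rw [Ne, Real.toNNReal_eq_zero]
          exact fun h => h6 (le_antisymm h h5)
        rw [if_neg h6, if_neg h7]
  rw [h4]
  have h5 : aeval (fun x => ε (u x)) f = ε (aeval u f) := by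
    have := MvPolynomial.comp_aeval_apply u (ε.restrictScalars ℚ) f
    exact this.symm
  rw [h5, h3, AlgHom.commutes, Algebra.algebraMap_self, RingHom.id_apply]

theorem L1c_mul (κ : Type) [Field κ] (lam : Fin n → ℝ) :
    dT κ (fun a => - lam a) * dT κ lam = 1 := by
  have h := dT_mul κ (fun a => - lam a)
  simp only [neg_neg] at h
  exact h

/-- LIM'. A polynomial relation which holds on the whole `GL_n`-orbit of `t` holds at the limit
`wtZero lam t`. Apply the hypothesis with `k = dT κ lam`, `k' = dT κ (-lam)` over `κ[ℝ]` (`act_dT`): the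
point `x ↦ single (wt lam x) (t x)` is the image under `j` of the point
`x ↦ single (wt lam x as NNReal) (t x)` (for `t x = 0` both are zero), so `f` vanishes at the latter
(injectivity of `j`), apply `ε`. -/
theorem lim_relation {κ : Type} [Field κ] [Algebra ℚ κ] (f : MvPolynomial (s.Ix n) ℚ)
    (t : s.Ix n → κ) (lam : Fin n → ℝ) (ht : ∀ x, t x ≠ 0 → 0 ≤ wt lam x)
    (hf : ∀ (B : Type) [CommRing B] [Algebra ℚ B] [Algebra κ B] (k k' : Matrix (Fin n) (Fin n) B),
      k * k' = 1 → k' * k = 1 → aeval (act k k' (fun y => algebraMap κ B (t y))) f = 0) :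
    aeval (wtZero lam t) f = 0 := by
  apply L1c_key f t lam ht 0
  rw [map_zero]
  exact hf (AddMonoidAlgebra κ ℝ) _ _ (dT_mul κ lam) (L1c_mul κ lam)

/-- LIM. An invariant polynomial has the same value at `t` and at the limit `wtZero lam t`. Same proof:
`p (T^lam t) = p(t)` is a constant. -/
theorem lim_invariant {κ : Type} [Field κ] [Algebra ℚ κ] (p : MvPolynomial (s.Ix n) ℚ)
    (hp : IsInv (redGL n) p) (t : s.Ix n → κ) (lam : Fin n → ℝ)
    (ht : ∀ x, t x ≠ 0 → 0 ≤ wt lam x) : aeval t p = aeval (wtZero lam t) p := by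
  symm
  apply L1c_key p t lam ht
  rw [hp (AddMonoidAlgebra κ ℝ) _ _ (redGL_In.mpr ⟨dT_mul κ lam, L1c_mul κ lam⟩)]
  have := MvPolynomial.comp_aeval_apply t
    ((Algebra.ofId κ (AddMonoidAlgebra κ ℝ)).restrictScalars ℚ) p
  exact this.symm

end Pool.Agent.Lib.MP_666dc0_nt.IG
end
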