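import Pool.Agent.Lib.MP_666dc0_nt.Mg.G030
import Pool.Agent.Lib.MP_666dc0_nt.IG.Defs2
import Pool.Agent.Lib.MP_666dc0_nt.Mg.G021

section

open MvPolynomial

namespace Pool.Agent.Lib.MP_666dc0_nt.IG

variable {A B : Type} [CommRing A] [CommRing B] [Algebra ℚ A] [Algebra ℚ B] {n : ℕ} {s : Shape}

theorem mem_Inv {G : Red n} {p : MvPolynomial (s.Ix n) ℚ} : p ∈ Inv G s ↔ IsInv G p := Iff.rfl

end Pool.Agent.Lib.MP_666dc0_nt.IG
end

section

open MvPolynomial

namespace Pool.Agent.Lib.MP_666dc0_nt.IG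

variable {A B : Type} [CommRing A] [CommRing B] [Algebra ℚ A] [Algebra ℚ B] {n : ℕ} {s : Shape}

private theorem R3c_comp {M M' : Type} (i : M → M') (v : M' → Matrix (Fin n) (Fin n) A) :
    (toMats v : (mats M').Ix n → A) ∘ (ixMap i) = toMats (fun m => v (i m)) := by
  funext x
  obtain ⟨_, m, I, J⟩ := x
  rfl

private theorem R3c_inj {M M' : Type} {i : M → M'} (hi : Function.Injective i) :
    Function.Injective (ixMap (n := n) i) := by
  rintro ⟨⟨⟩, m, I, J⟩ ⟨⟨⟩, m', I', J'⟩ h
  have h1 : (i m, I, J) = (i m', I', J') := by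
    have := h
    simp only [ixMap] at this
    exact eq_of_heq (Sigma.mk.inj this).2
  have h2 := Prod.mk.inj h1
  have h3 := Prod.mk.inj h2.2
  rw [hi h2.1, h3.1, h3.2]

theorem aeval_rename_ixMap {M M' : Type} (i : M → M') (p : MvPolynomial ((mats M).Ix n) ℚ)
    (v : M' → Matrix (Fin n) (Fin n) A) :
    aeval (toMats v) (rename (ixMap i) p) = aeval (toMats (fun m => v (i m))) p := by
  rw [aeval_rename, R3c_comp]

/-- Every polynomial in infinitely many matrices only involves finitely many of them, and invariance can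
be checked for the restricted polynomial (extend matrices `v m`, `m ∈ M`, by zero outside `M`). -/
theorem exists_finset_rename (G : Red n) {M' : Type} (p : MvPolynomial ((mats M').Ix n) ℚ)
    (hp : IsInv G p) : ∃ (M : Finset M') (p₀ : MvPolynomial ((mats {x // x ∈ M}).Ix n) ℚ),
      IsInv G p₀ ∧ p = rename (ixMap Subtype.val) p₀ := by
  classical
  let M : Finset M' := p.vars.image fun x => x.2.1
  have hsub : (p.vars : Set ((mats M').Ix n)) ⊆
      Set.range (ixMap (n := n) (Subtype.val : {x // x ∈ M} → M')) := by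
    intro x hx
    have hxM : (x.2.1 : M') ∈ M := Finset.mem_image_of_mem _ hx
    obtain ⟨u, m, I, J⟩ := x
    exact ⟨⟨u, ⟨m, hxM⟩, I, J⟩, rfl⟩
  obtain ⟨p₀, hp₀⟩ := exists_rename_eq_of_vars_subset_range p
    (ixMap (n := n) (Subtype.val : {x // x ∈ M} → M')) (R3c_inj Subtype.val_injective) hsub
  refine ⟨M, p₀, ?_, hp₀.symm⟩
  intro A _ _ k k' hk t
  obtain ⟨v, rfl⟩ := exists_toMats t
  let v' : M' → Matrix (Fin n) (Fin n) A := fun m => if h : m ∈ M then v ⟨m, h⟩ else 0
  have hv : (fun m : {x // x ∈ M} => v' m.1) = v := by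
    funext m
    exact dif_pos m.2
  have h1 : aeval (toMats v) p₀ = aeval (toMats v') p := by
    rw [← hp₀, aeval_rename_ixMap, hv]
  have h2 : aeval (act k k' (toMats v)) p₀ = aeval (act k k' (toMats v')) p := by
    rw [← hp₀, act_toMats, act_toMats, aeval_rename_ixMap]
    congr 2
    funext x
    rw [← hv]
  rw [h1, h2]
  exact hp A k k' hk _

end Pool.Agent.Lib.MP_666dc0_nt.IG
end

section

open MvPolynomial

namespace Pool.Agent.Lib.MP_666dc0_nt.IG

variable {A B : Type} [CommRing A] [CommRing B] [Algebra ℚ A] [Algebra ℚ B] {n : ℕ} {s : Shape}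

private theorem R3d_compL {M : Type} (v : M → Matrix (Fin n) (Fin n) A) (u : s.Ix n → A) :
    (toTot v u : (tot M s).Ix n → A) ∘ ixL = toMats v := by
  funext x
  obtain ⟨_, m, I, J⟩ := x
  rfl

private theorem R3d_compR {M : Type} (v : M → Matrix (Fin n) (Fin n) A) (u : s.Ix n → A) :
    (toTot v u : (tot M s).Ix n → A) ∘ ixR = u := by
  funext x
  obtain ⟨_, m, I, J⟩ := x
  rfl

private theorem R3d_inj {M : Type} : Function.Injective (ixL (n := n) (M := M) (s := s)) := by
  rintro ⟨⟨⟩, m, I, J⟩ ⟨⟨⟩, m', I', J'⟩ h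
  have h1 : (m, I, J) = (m', I', J') := by
    have := h
    simp only [ixL] at this
    exact eq_of_heq (Sigma.mk.inj this).2
  rw [h1]

theorem aeval_rename_ixL {M : Type} (p : MvPolynomial ((mats M).Ix n) ℚ)
    (v : M → Matrix (Fin n) (Fin n) A) (u : s.Ix n → A) :
    aeval (toTot v u) (rename ixL p) = aeval (toMats v) p := by
  rw [aeval_rename, R3d_compL]

theorem aeval_rename_ixR {M : Type} (p : MvPolynomial (s.Ix n) ℚ)
    (v : M → Matrix (Fin n) (Fin n) A) (u : s.Ix n → A) :
    aeval (toTot v u) (rename ixR p) = aeval u p := by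
  rw [aeval_rename, R3d_compR]

theorem isInv_rename_ixR {G : Red n} {M : Type} {p : MvPolynomial (s.Ix n) ℚ} (hp : IsInv G p) :
    IsInv G (rename (ixR (M := M)) p) := by
  intro A _ _ k k' hk t
  obtain ⟨v, u, rfl⟩ := exists_toTot t
  rw [act_toTot, aeval_rename_ixR, aeval_rename_ixR]
  exact hp A k k' hk u

/-- An invariant of degree zero in the tensors is an invariant polynomial in the matrices: a polynomial
which is weighted homogeneous of degree `0` for the degree `0` on matrices and `1` on tensors does not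
involve the variables `⟨Sum.inr b, ..⟩`, so it is `rename ixL q`; invariance of `q`: evaluate at
`toTot v 0`. -/
theorem exists_of_degree_zero {G : Red n} {M : Type} {p : MvPolynomial ((tot M s).Ix n) ℚ}
    (hp : IsInv G p) (hw : IsWeightedHomogeneous
      (fun x : (tot M s).Ix n => (Sum.elim (fun _ => 0) (fun _ => 1) : Unit ⊕ s.β → ℕ) x.1) p 0) :
    ∃ q : MvPolynomial ((mats M).Ix n) ℚ, IsInv G q ∧ p = rename ixL q := by
  classical
  have hsub : (p.vars : Set ((tot M s).Ix n)) ⊆ Set.range (ixL (n := n) (M := M) (s := s)) := by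
    intro x hx
    obtain ⟨m, hm, hxm⟩ := (mem_vars_iff_mem_support x).mp hx
    have hw0 := hw (mem_support_iff.mp hm)
    rw [Finsupp.weight_apply, Finsupp.sum, Finset.sum_eq_zero_iff] at hw0
    have hw1 := hw0 x hxm
    have hm0 : m x ≠ 0 := Finsupp.mem_support_iff.mp hxm
    obtain ⟨b, c, I, J⟩ := x
    rcases b with b | b
    · exact ⟨⟨(), c, I, J⟩, rfl⟩
    · exfalso
      apply hm0
      simpa using hw1
  obtain ⟨q, hq⟩ := exists_rename_eq_of_vars_subset_range p
    (ixL (n := n) (M := M) (s := s)) R3d_inj hsub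
  refine ⟨q, ?_, hq.symm⟩
  intro A _ _ k k' hk t
  obtain ⟨v, rfl⟩ := exists_toMats t
  have h1 : aeval (toMats v) q = aeval (toTot v (0 : s.Ix n → A)) p := by
    rw [← hq, aeval_rename_ixL]
  have h2 : aeval (act k k' (toMats v)) q = aeval (act k k' (toTot v (0 : s.Ix n → A))) p := by
    rw [← hq, act_toMats, act_toTot, aeval_rename_ixL]
  rw [h1, h2]
  exact hp A k k' hk _

end Pool.Agent.Lib.MP_666dc0_nt.IG
end
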