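import Pool.Agent.Lib.MP_666dc0_nt.Mg.G040
import Pool.Agent.Lib.MP_666dc0_nt.IG.GCa
import Pool.Agent.Lib.MP_666dc0_nt.Mg.G042
import Pool.Agent.Lib.MP_666dc0_nt.IG.GAa
import Pool.Agent.Lib.MP_666dc0_nt.Mg.G018
import Pool.Agent.Lib.MP_666dc0_nt.Mg.G038

section

open MvPolynomial

namespace Pool.Agent.Lib.MP_666dc0_nt.IG

variable {O : Type} [CommRing O] [HopfAlgebra ℚ O] {Γ : Type} [Group Γ] {A : HopfAction Γ O}
  {n : ℕ} (ρ : MatRep A n)

/-- The radical of the trace form as a submodule. -/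
private def GCb_nil {Ω : Type} [CommRing Ω] [Algebra ℚ Ω] (r : Γ →* A.LGroup Ω) (κ : Type)
    [CommRing κ] [Algebra Ω κ] : Submodule κ (Matrix (Fin n) (Fin n) κ) where
  carrier := {M | NilR ρ r κ M}
  add_mem' := fun {a b} ha hb => ⟨Submodule.add_mem _ ha.1 hb.1, fun γ => by
    rw [add_mul, Matrix.trace_add, ha.2 γ, hb.2 γ, add_zero]⟩
  zero_mem' := ⟨Submodule.zero_mem _, fun γ => by rw [zero_mul, Matrix.trace_zero]⟩
  smul_mem' := fun c x hx => ⟨Submodule.smul_mem _ _ hx.1, fun γ => by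
    rw [smul_mul_assoc, Matrix.trace_smul, hx.2 γ, smul_zero]⟩

private theorem GCb_mem {Ω : Type} [CommRing Ω] [Algebra ℚ Ω] (r : Γ →* A.LGroup Ω) (κ : Type)
    [CommRing κ] [Algebra Ω κ] {M : Matrix (Fin n) (Fin n) κ} :
    M ∈ GCb_nil ρ r κ ↔ NilR ρ r κ M := Iff.rfl

/-- The trace form with an element of the radical vanishes on the whole span. -/
private theorem GCb_trace_mul {Ω : Type} [CommRing Ω] [Algebra ℚ Ω] (r : Γ →* A.LGroup Ω) (κ : Type)
    [CommRing κ] [Algebra Ω κ] {M N : Matrix (Fin n) (Fin n) κ} (hM : NilR ρ r κ M)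
    (hN : N ∈ spA ρ r κ) : (M * N).trace = 0 := by
  refine Submodule.span_induction (p := fun N _ => (M * N).trace = 0) ?_ ?_ ?_ ?_ hN
  · rintro _ ⟨γ, rfl⟩
    exact hM.2 γ
  · rw [mul_zero, Matrix.trace_zero]
  · intro x y _ _ hx hy
    rw [mul_add, Matrix.trace_add, hx, hy, add_zero]
  · intro c x _ hx
    rw [mul_smul_comm, Matrix.trace_smul, hx, smul_zero]

/-- The choice of group elements whose matrices form a basis modulo the radical. -/
private theorem GCb_basis {Ω : Type} [Field Ω] [Algebra ℚ Ω] (r : Γ →* A.LGroup Ω) :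
    ∃ (N : ℕ) (e : Fin N → Γ),
      (∀ c : Fin N → Ω, NilR ρ r Ω (∑ k, c k • evM ρ r Ω (e k)) → c = 0) ∧
      ∀ γ, ∃ c : Fin N → Ω, NilR ρ r Ω (evM ρ r Ω γ - ∑ k, c k • evM ρ r Ω (e k)) := by
  classical
  let q : Γ → (Matrix (Fin n) (Fin n) Ω ⧸ GCb_nil ρ r Ω) := fun γ =>
    (GCb_nil ρ r Ω).mkQ (evM ρ r Ω γ)
  obtain ⟨ι, a, _, hsp, hli⟩ := exists_linearIndependent' Ω q
  have hfin : Finite ι := hli.finite
  obtain ⟨N, ⟨e₀⟩⟩ := Finite.exists_equiv_fin ι
  have hli' : LinearIndependent Ω (fun k : Fin N => q (a (e₀.symm k))) :=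
    hli.comp e₀.symm e₀.symm.injective
  refine ⟨N, fun k => a (e₀.symm k), fun c hc => ?_, fun γ => ?_⟩
  · have h1 : ∑ k, c k • q (a (e₀.symm k)) = 0 := by
      have h2 : (GCb_nil ρ r Ω).mkQ (∑ k, c k • evM ρ r Ω (a (e₀.symm k))) = 0 := by
        rw [Submodule.mkQ_apply, Submodule.Quotient.mk_eq_zero]
        exact hc
      rw [map_sum] at h2
      simp only [map_smul] at h2
      exact h2
    funext k
    exact Fintype.linearIndependent_iff.1 hli' c h1 k
  · have h1 : q γ ∈ Submodule.span Ω (Set.range fun k : Fin N => q (a (e₀.symm k))) := by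
      have h2 : (Set.range fun k : Fin N => q (a (e₀.symm k))) = Set.range (q ∘ a) := by
        ext x
        constructor
        · rintro ⟨k, rfl⟩
          exact ⟨e₀.symm k, rfl⟩
        · rintro ⟨i, rfl⟩
          exact ⟨e₀ i, by simp⟩
      rw [h2, hsp]
      exact Submodule.subset_span ⟨γ, rfl⟩
    obtain ⟨c, hc⟩ := (Submodule.mem_span_range_iff_exists_fun Ω).1 h1
    refine ⟨c, ?_⟩
    have h3 : (GCb_nil ρ r Ω).mkQ (evM ρ r Ω γ - ∑ k, c k • evM ρ r Ω (a (e₀.symm k))) = 0 := by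
      rw [map_sub, map_sum]
      simp only [map_smul]
      exact sub_eq_zero.2 hc.symm
    rw [Submodule.mkQ_apply, Submodule.Quotient.mk_eq_zero] at h3
    exact h3

/-- The trace of an element of the span over `κ` times an element of the radical over `Ω`. -/
private theorem GCb_trace_map {Ω : Type} [Field Ω] [Algebra ℚ Ω] (r : Γ →* A.LGroup Ω) (κ : Type)
    [Field κ] [Algebra Ω κ] {M : Matrix (Fin n) (Fin n) κ} (hM : M ∈ spA ρ r κ)
    {ν : Matrix (Fin n) (Fin n) Ω} (hν : NilR ρ r Ω ν) :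
    (M * ν.map (algebraMap Ω κ)).trace = 0 := by
  refine Submodule.span_induction (p := fun M _ => (M * ν.map (algebraMap Ω κ)).trace = 0)
    ?_ ?_ ?_ ?_ hM
  · rintro _ ⟨γ, rfl⟩
    have e1 : evM ρ r κ γ * ν.map (algebraMap Ω κ) =
        (evM ρ r Ω γ * ν).map (algebraMap Ω κ) := by
      rw [Matrix.map_mul]
      rfl
    have e2 : ((evM ρ r Ω γ * ν).map (algebraMap Ω κ)).trace =
        algebraMap Ω κ ((evM ρ r Ω γ * ν).trace) :=
      (AddMonoidHom.map_trace (algebraMap Ω κ).toAddMonoidHom _).symm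
    rw [e1, e2, Matrix.trace_mul_comm, hν.2 γ, map_zero]
  · rw [zero_mul, Matrix.trace_zero]
  · intro x y _ _ hx hy
    rw [add_mul, Matrix.trace_add, hx, hy, add_zero]
  · intro c x _ hx
    rw [smul_mul_assoc, Matrix.trace_smul, hx, smul_zero]

/-- G3. Choose `e : Fin N → Γ` such that the Gram matrix `(tf (e i * e j))` is invertible over `K` with `N`
maximal (`N ≤ n ^ 2`: the matrices `evM (e i)` are then linearly independent). Then over `Ω` the classes of the
`ev (r (e i))` form a basis of the span modulo the radical. With `Gi` the inverse of the Gram matrix: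
`σ := sg V e Gi` is multiplicative, `σ 1 = 1`, and an element `M` of the span (over any `κ ⊇ Ω`) with
`trace (M ev(e j) ev(e i)) = 0` for all `i, j` is in the radical. -/
theorem exists_sigma {K : Type} [Field K] {V : Γ → O → K} {Ω : Type} [Field Ω] [Algebra ℚ Ω]
    [Algebra K Ω] {r : Γ →* A.LGroup Ω} (h : HasVal A V Ω r) :
    ∃ (N : ℕ) (e : Fin N → Γ) (Gi : Matrix (Fin N) (Fin N) K),
      Gi * (Matrix.of fun i j => tf ρ V (e i * e j)) = 1 ∧
      sg ρ V e Gi 1 = 1 ∧ (∀ γ δ, sg ρ V e Gi (γ * δ) = sg ρ V e Gi γ * sg ρ V e Gi δ) ∧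
      ∀ (κ : Type) [Field κ] [Algebra K κ] [Algebra Ω κ] [IsScalarTower K Ω κ]
        (M : Matrix (Fin n) (Fin n) κ), M ∈ spA ρ r κ →
        (∀ i j, (M * evM ρ r κ (e j) * evM ρ r κ (e i)).trace = 0) → NilR ρ r κ M := by
  classical
  obtain ⟨N, e, hli, hsp⟩ := GCb_basis ρ r
  -- notation
  set E : Γ → Matrix (Fin n) (Fin n) Ω := evM ρ r Ω with hE
  have hEm : ∀ γ, E γ ∈ spA ρ r Ω := fun γ => Submodule.subset_span ⟨γ, rfl⟩
  have hEmul : ∀ γ δ, E (γ * δ) = E γ * E δ := evM_mul ρ r Ω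
  have hinj : Function.Injective (algebraMap K Ω) := (algebraMap K Ω).injective
  have htr : ∀ γ, (E γ).trace = algebraMap K Ω (tf ρ V γ) := trace_evM ρ h Ω
  have htf : ∀ γ δ, tf ρ V (γ * δ) = tf ρ V (δ * γ) := by
    intro γ δ
    apply hinj
    rw [← htr, ← htr, hEmul, hEmul, Matrix.trace_mul_comm]
  set Gr : Matrix (Fin N) (Fin N) K := Matrix.of fun i j => tf ρ V (e i * e j) with hGr
  -- the Gram matrix is invertible
  have hdet : Gr.det ≠ 0 := by
    intro h0
    have h1 : (Gr.map (algebraMap K Ω)).det = 0 := by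
      have h2 : (Gr.map (algebraMap K Ω)).det = algebraMap K Ω Gr.det :=
        (RingHom.map_det (algebraMap K Ω) Gr).symm
      rw [h2, h0, map_zero]
    obtain ⟨v, hv, hv0⟩ := Matrix.exists_mulVec_eq_zero_iff.2 h1
    refine hv (hli v ?_)
    have hX : (∑ k, v k • E (e k)) ∈ spA ρ r Ω :=
      Submodule.sum_mem _ fun k _ => Submodule.smul_mem _ _ (hEm _)
    refine ⟨hX, fun γ => ?_⟩
    obtain ⟨c, hc⟩ := hsp γ
    have h3 : ∀ i, ((∑ k, v k • E (e k)) * E (e i)).trace = 0 := by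
      intro i
      have h4 := congrFun hv0 i
      rw [Matrix.mulVec, dotProduct] at h4
      rw [Finset.sum_mul, Matrix.trace_sum]
      refine Eq.trans (Finset.sum_congr rfl fun k _ => ?_) h4
      rw [smul_mul_assoc, Matrix.trace_smul, ← hEmul, htr, Matrix.map_apply, smul_eq_mul, mul_comm,
        htf]
      rfl
    have h5 : E γ = (E γ - ∑ k, c k • E (e k)) + ∑ k, c k • E (e k) := (sub_add_cancel _ _).symm
    change ((∑ k, v k • E (e k)) * E γ).trace = 0
    rw [h5, mul_add, Matrix.trace_add, Matrix.trace_mul_comm, GCb_trace_mul ρ r Ω hc hX, zero_add,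
      Finset.mul_sum, Matrix.trace_sum]
    refine Finset.sum_eq_zero fun i _ => ?_
    rw [mul_smul_comm, Matrix.trace_smul, h3, smul_zero]
  have hGi : Gr⁻¹ * Gr = 1 := Matrix.nonsing_inv_mul Gr (isUnit_iff_ne_zero.2 hdet)
  -- the matrices of left multiplication
  choose s0 hs0 using fun (γ : Γ) (j : Fin N) => hsp (γ * e j)
  have hkey : ∀ γ k j, algebraMap K Ω (sg ρ V e Gr⁻¹ γ k j) = s0 γ j k := by
    intro γ k j
    have h1 : ∀ i, algebraMap K Ω (tf ρ V (γ * e j * e i)) =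
        ∑ l, s0 γ j l * algebraMap K Ω (Gr i l) := by
      intro i
      have h2 := GCb_trace_mul ρ r Ω (hs0 γ j) (hEm (e i))
      rw [sub_mul, Matrix.trace_sub, sub_eq_zero, ← hEmul, htr] at h2
      rw [h2, Finset.sum_mul, Matrix.trace_sum]
      refine Finset.sum_congr rfl fun l _ => ?_
      rw [smul_mul_assoc, Matrix.trace_smul, ← hEmul, htr, htf, smul_eq_mul]
      rfl
    have h3 : ∀ l, ∑ i, algebraMap K Ω (Gr⁻¹ k i) * algebraMap K Ω (Gr i l) =
        if k = l then 1 else 0 := by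
      intro l
      have h4 := congrFun (congrFun hGi k) l
      rw [Matrix.mul_apply, Matrix.one_apply] at h4
      have h5 := congrArg (algebraMap K Ω) h4
      rw [map_sum] at h5
      simp only [map_mul] at h5
      rw [h5]
      split_ifs <;> simp
    change algebraMap K Ω (∑ i, Gr⁻¹ k i * tf ρ V (γ * e j * e i)) = s0 γ j k
    rw [map_sum]
    simp only [map_mul, h1, Finset.mul_sum]
    rw [Finset.sum_comm]
    have h6 : ∀ l, ∑ i, algebraMap K Ω (Gr⁻¹ k i) * (s0 γ j l * algebraMap K Ω (Gr i l)) =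
        s0 γ j l * (if k = l then 1 else 0) := by
      intro l
      rw [← h3 l, Finset.mul_sum]
      exact Finset.sum_congr rfl fun i _ => by ring
    simp only [h6]
    simp
  refine ⟨N, e, Gr⁻¹, hGi, ?_, fun γ δ => ?_, ?_⟩
  · ext k j
    change ∑ i, Gr⁻¹ k i * tf ρ V (1 * e j * e i) = _
    rw [← hGi, Matrix.mul_apply]
    refine Finset.sum_congr rfl fun i _ => ?_
    rw [one_mul, htf]
    rfl
  · ext k j
    apply hinj
    rw [hkey, Matrix.mul_apply, map_sum]
    simp only [map_mul, hkey]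
    -- uniqueness
    have h1 : NilR ρ r Ω (∑ l, (s0 (γ * δ) j l - ∑ m, s0 δ j m * s0 γ m l) • E (e l)) := by
      have h2 : (E (γ * δ * e j) - ∑ l, s0 (γ * δ) j l • E (e l)) ∈ GCb_nil ρ r Ω := hs0 _ _
      have h3 : E γ * (E (δ * e j) - ∑ m, s0 δ j m • E (e m)) ∈ GCb_nil ρ r Ω :=
        NilR_mul_left ρ r Ω (hs0 δ j) (hEm γ)
      have h4 : ∑ m, s0 δ j m • (E (γ * e m) - ∑ l, s0 γ m l • E (e l)) ∈ GCb_nil ρ r Ω :=
        Submodule.sum_mem _ fun m _ => Submodule.smul_mem _ _ (hs0 γ m)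
      have h5 := Submodule.sub_mem _ (Submodule.add_mem _ h3 h4) h2
      have h6 : ∑ l, (s0 (γ * δ) j l - ∑ m, s0 δ j m * s0 γ m l) • E (e l) =
          E γ * (E (δ * e j) - ∑ m, s0 δ j m • E (e m)) +
            ∑ m, s0 δ j m • (E (γ * e m) - ∑ l, s0 γ m l • E (e l)) -
            (E (γ * δ * e j) - ∑ l, s0 (γ * δ) j l • E (e l)) := by
        have e1 : E γ * (E (δ * e j) - ∑ m, s0 δ j m • E (e m)) =
            E (γ * δ * e j) - ∑ m, s0 δ j m • E (γ * e m) := by
          rw [mul_sub, ← hEmul, Finset.mul_sum, mul_assoc]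
          congr 1
          refine Finset.sum_congr rfl fun m _ => ?_
          rw [mul_smul_comm, ← hEmul]
        have e2 : ∑ m, s0 δ j m • (E (γ * e m) - ∑ l, s0 γ m l • E (e l)) =
            ∑ m, s0 δ j m • E (γ * e m) - ∑ l, (∑ m, s0 δ j m * s0 γ m l) • E (e l) := by
          simp only [smul_sub, Finset.sum_sub_distrib, Finset.smul_sum, smul_smul, Finset.sum_smul]
          congr 1
          exact Finset.sum_comm
        rw [e1, e2]
        simp only [sub_smul, Finset.sum_sub_distrib]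
        abel
      rw [h6]
      exact h5
    have h7 := congrFun (hli _ h1) k
    simp only [Pi.zero_apply, sub_eq_zero] at h7
    rw [h7]
    exact Finset.sum_congr rfl fun m _ => mul_comm _ _
  · intro κ _ _ _ _ M hM h0
    refine ⟨hM, fun γ => ?_⟩
    obtain ⟨a, ha⟩ := hsp 1
    obtain ⟨c, hc⟩ := hsp γ
    have h1 : (∑ j, a j • E (e j)) ∈ spA ρ r Ω :=
      Submodule.sum_mem _ fun k _ => Submodule.smul_mem _ _ (hEm _)
    have h2 : (E γ - ∑ j, ∑ i, (a j * c i) • (E (e j) * E (e i))) ∈ GCb_nil ρ r Ω := by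
      have h3 : (E 1 - ∑ j, a j • E (e j)) * E γ ∈ GCb_nil ρ r Ω :=
        NilR_mul_right ρ r Ω ha (hEm γ)
      have h4 : (∑ j, a j • E (e j)) * (E γ - ∑ i, c i • E (e i)) ∈ GCb_nil ρ r Ω :=
        NilR_mul_left ρ r Ω hc h1
      have h5 := Submodule.add_mem _ h3 h4
      have h6 : (E 1 - ∑ j, a j • E (e j)) * E γ +
          (∑ j, a j • E (e j)) * (E γ - ∑ i, c i • E (e i)) =
          E γ - ∑ j, ∑ i, (a j * c i) • (E (e j) * E (e i)) := by
        have e1 : (∑ j, a j • E (e j)) * (∑ i, c i • E (e i)) =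
            ∑ j, ∑ i, (a j * c i) • (E (e j) * E (e i)) := by
          rw [Finset.sum_mul_sum]
          refine Finset.sum_congr rfl fun j _ => Finset.sum_congr rfl fun i _ => ?_
          rw [smul_mul_smul_comm]
        have e2 : E 1 = 1 := evM_one ρ r Ω
        rw [sub_mul, mul_sub, e1, e2, one_mul]
        abel
      rwa [h6] at h5
    have h7 := GCb_trace_map ρ r κ hM h2
    have h8 : (E γ - ∑ j, ∑ i, (a j * c i) • (E (e j) * E (e i))).map (algebraMap Ω κ) =
        evM ρ r κ γ - ∑ j, ∑ i, algebraMap Ω κ (a j * c i) •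
          (evM ρ r κ (e j) * evM ρ r κ (e i)) := by
      have e3 : ∀ X : Matrix (Fin n) (Fin n) Ω, X.map (algebraMap Ω κ) =
        (algebraMap Ω κ).mapMatrix X := fun X => rfl
      rw [e3, map_sub, map_sum]
      congr 1
      refine Finset.sum_congr rfl fun j _ => ?_
      rw [map_sum]
      refine Finset.sum_congr rfl fun i _ => ?_
      have e4 : (algebraMap Ω κ).mapMatrix ((a j * c i) • (E (e j) * E (e i))) =
          algebraMap Ω κ (a j * c i) • (algebraMap Ω κ).mapMatrix (E (e j) * E (e i)) := by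
        ext x y
        change algebraMap Ω κ ((a j * c i) * (E (e j) * E (e i)) x y) =
          algebraMap Ω κ (a j * c i) * algebraMap Ω κ ((E (e j) * E (e i)) x y)
        exact map_mul _ _ _
      have e5 : (algebraMap Ω κ).mapMatrix (E (e j) * E (e i)) =
          evM ρ r κ (e j) * evM ρ r κ (e i) := by
        rw [map_mul]
        rfl
      rw [e4, e5]
    rw [h8, mul_sub, Matrix.trace_sub, sub_eq_zero] at h7
    rw [h7, Finset.mul_sum, Matrix.trace_sum]
    refine Finset.sum_eq_zero fun j _ => ?_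
    rw [Finset.mul_sum, Matrix.trace_sum]
    refine Finset.sum_eq_zero fun i _ => ?_
    rw [mul_smul_comm, Matrix.trace_smul, ← mul_assoc, h0 i j, smul_zero]

end Pool.Agent.Lib.MP_666dc0_nt.IG
end

section

open MvPolynomial

namespace Pool.Agent.Lib.MP_666dc0_nt.IG

variable {O : Type} [CommRing O] [HopfAlgebra ℚ O] {Γ : Type} [Group Γ] {A : HopfAction Γ O}
  {n : ℕ} (ρ : MatRep A n)

/-- Extension of scalars of a point with the right values. -/
theorem hasVal_map {K : Type} [Field K] {V : Γ → O → K} {Ω : Type} [Field Ω] [Algebra ℚ Ω]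
    [Algebra K Ω] {r : Γ →* A.LGroup Ω} (h : HasVal A V Ω r) (Ω' : Type) [Field Ω'] [Algebra ℚ Ω']
    [Algebra K Ω'] [Algebra Ω Ω'] [IsScalarTower K Ω Ω'] :
    HasVal A V Ω' ((A.mapL (algebraMap Ω Ω').toRatAlgHom).comp r) ∧
      ∀ γ, ρ.ev Ω' (((A.mapL (algebraMap Ω Ω').toRatAlgHom).comp r) γ) = evM ρ r Ω' γ := by
  refine ⟨⟨fun γ => ?_, fun γ f hf => ?_⟩, fun γ => ?_⟩
  · rw [MonoidHom.comp_apply, HopfAction.mapL_right]
    exact h.proj γ
  · rw [MonoidHom.comp_apply, HopfAction.mapL_left, Pts.map_hom_apply, h.val γ f hf]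
    change algebraMap Ω Ω' (algebraMap K Ω (V γ f)) = _
    rw [← IsScalarTower.algebraMap_apply]
  · rw [MonoidHom.comp_apply, MatRep.ev_mapL]
    rfl

/-- The dimension of the span does not grow under extension of scalars: a basis of `spA ρ r Ω` consisting of
matrices `ev (r γ)` still spans. -/
theorem finrank_spA_le {Ω : Type} [Field Ω] [Algebra ℚ Ω] (r : Γ →* A.LGroup Ω) (κ : Type)
    [Field κ] [Algebra Ω κ] :
    Module.finrank κ (spA ρ r κ) ≤ Module.finrank Ω (spA ρ r Ω) := by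
  classical
  let b := Module.finBasis Ω (spA ρ r Ω)
  let e : Matrix (Fin n) (Fin n) Ω → Matrix (Fin n) (Fin n) κ := fun M => M.map (algebraMap Ω κ)
  let S : Set (Matrix (Fin n) (Fin n) κ) := Set.range fun i => e (b i : Matrix (Fin n) (Fin n) Ω)
  have h1 : spA ρ r κ ≤ Submodule.span κ S := by
    refine Submodule.span_le.mpr ?_
    rintro _ ⟨γ, rfl⟩
    have h2 : evM ρ r Ω γ ∈ spA ρ r Ω := Submodule.subset_span ⟨γ, rfl⟩
    have h3 := b.sum_repr ⟨evM ρ r Ω γ, h2⟩
    have h4 : evM ρ r Ω γ = ∑ i, b.repr ⟨evM ρ r Ω γ, h2⟩ i • (b i : Matrix (Fin n) (Fin n) Ω) := by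
      have h7 := congrArg Subtype.val h3
      rw [AddSubmonoidClass.coe_finsetSum] at h7
      exact h7.symm
    have h5 : evM ρ r κ γ = e (evM ρ r Ω γ) := by
      ext i j
      rfl
    rw [h5, h4]
    have h6 : e (∑ i, b.repr ⟨evM ρ r Ω γ, h2⟩ i • (b i : Matrix (Fin n) (Fin n) Ω)) =
        ∑ i, algebraMap Ω κ (b.repr ⟨evM ρ r Ω γ, h2⟩ i) • e (b i : Matrix (Fin n) (Fin n) Ω) := by
      ext x y
      simp only [e, Matrix.map_apply, Matrix.sum_apply, Matrix.smul_apply, smul_eq_mul, map_sum,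
        map_mul]
    rw [h6]
    exact Submodule.sum_mem _ fun i _ => Submodule.smul_mem _ _ (Submodule.subset_span ⟨i, rfl⟩)
  calc Module.finrank κ (spA ρ r κ) ≤ Module.finrank κ (Submodule.span κ S) :=
        Submodule.finrank_mono h1
    _ ≤ Fintype.card (Fin (Module.finrank Ω (spA ρ r Ω))) := finrank_range_le_card _
    _ = _ := Fintype.card_fin _

end Pool.Agent.Lib.MP_666dc0_nt.IG
end

section

open MvPolynomial

namespace Pool.Agent.Lib.MP_666dc0_nt.IG

variable {O : Type} [CommRing O] [HopfAlgebra ℚ O] {Γ : Type} [Group Γ] {A : HopfAction Γ O}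
  {n : ℕ} (ρ : MatRep A n)

/-- A point with minimal dimension exists, over an algebraically closed field (choose a minimal natural
number, then pass to `AlgebraicClosure Ω`). -/
theorem exists_min {K : Type} [Field K] [CharZero K] {V : Γ → O → K}
    (h : ∃ (Ω : Type) (_ : Field Ω) (_ : Algebra ℚ Ω) (_ : Algebra K Ω) (r : Γ →* A.LGroup Ω),
      HasVal A V Ω r) :
    ∃ (Ω : Type) (_ : Field Ω) (_ : Algebra ℚ Ω) (_ : Algebra K Ω) (r : Γ →* A.LGroup Ω),
      IsAlgClosed Ω ∧ IsMinPt ρ V Ω r := by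
  classical
  let P : ℕ → Prop := fun d => ∃ (Ω : Type) (_ : Field Ω) (_ : Algebra ℚ Ω) (_ : Algebra K Ω)
    (r : Γ →* A.LGroup Ω), HasVal A V Ω r ∧ Module.finrank Ω (spA ρ r Ω) = d
  have hP : ∃ d, P d := by
    obtain ⟨Ω, i1, i2, i3, r, hr⟩ := h
    exact ⟨_, Ω, i1, i2, i3, r, hr, rfl⟩
  obtain ⟨Ω, i1, i2, i3, r, hr, hd⟩ := Nat.find_spec hP
  obtain ⟨h1, h2⟩ := hasVal_map ρ hr (AlgebraicClosure Ω)
  refine ⟨AlgebraicClosure Ω, inferInstance, inferInstance, inferInstance,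
    (A.mapL (algebraMap Ω (AlgebraicClosure Ω)).toRatAlgHom).comp r, inferInstance, ⟨h1, ?_⟩⟩
  intro Ω' j1 j2 j3 r' hr'
  have h3 : Nat.find hP ≤ Module.finrank Ω' (spA ρ r' Ω') :=
    Nat.find_min' hP ⟨Ω', j1, j2, j3, r', hr', rfl⟩
  refine le_trans ?_ h3
  rw [← hd]
  refine le_trans (le_of_eq ?_) (finrank_spA_le ρ r (AlgebraicClosure Ω))
  have h4 : spA ρ ((A.mapL (algebraMap Ω (AlgebraicClosure Ω)).toRatAlgHom).comp r)
      (AlgebraicClosure Ω) = spA ρ r (AlgebraicClosure Ω) := by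
    unfold spA
    congr 1
    congr 1
    funext γ
    rw [← h2 γ]
    rfl
  rw [h4]

end Pool.Agent.Lib.MP_666dc0_nt.IG
end

section

open MvPolynomial

namespace Pool.Agent.Lib.MP_666dc0_nt.IG

variable {O : Type} [CommRing O] [HopfAlgebra ℚ O] {Γ : Type} [Group Γ] {A : HopfAction Γ O}
  {n : ℕ} (ρ : MatRep A n)

/-- G1, the limit point. Put `M γ := lv lam (g ev(r γ) g')` (multiplicative by `lv_mul`) and
`T' := wtZero lam (act g g' T₀)`. `T'` satisfies all rational relations of the orbit of `T₀`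
(`lim_relation` for `t = act g g' T₀`), so `closed_orbit` gives `Ω' ⊇ κ` and `(k, k')` with
`act k k' T₀ = T'`. `v γ := k' (M γ) k` satisfies `act (v γ) (v γ⁻¹) T₀ = mix (D γ) T₀`: from
`act_ev` for `r γ`, transported by `(g, g')` (`act_mul`, `act_mix`), weight zero part (`wtZero_act`,
`wtZero_mix`), transported by `(k', k)`. `in_of_act` and `exists_hom` give `r'`. Values: with `F` from
`exists_polyT`, `f(r' γ) = F(v γ, v γ⁻¹, T₀) = F(M γ, M γ⁻¹, T') = F(g ev g', .., act g g' T₀) =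
F(ev (r γ), .., T₀) = f(r γ)` (`IsInv` for `redGL`, `lim_invariant`, `wtZero_toTot`). -/
theorem limit_point {G : Red n} (hG : IsRedG ρ G) (hρ : Faithful ρ) (TD : TensorData G) {K : Type}
    [Field K] {V : Γ → O → K} {Ω : Type} [Field Ω] [Algebra ℚ Ω] [Algebra K Ω]
    {r : Γ →* A.LGroup Ω} (h : HasVal A V Ω r) (κ : Type) [Field κ] [Algebra ℚ κ] [Algebra K κ]
    [Algebra Ω κ] [IsScalarTower K Ω κ] (g g' : Matrix (Fin n) (Fin n) κ) (hg : g * g' = 1)
    (hg' : g' * g = 1) (lam : Fin n → ℝ) (hP : ∀ γ, InP lam (g * evM ρ r κ γ * g'))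
    (hT : ∀ x, act g g' (inA κ TD.T₀) x ≠ 0 → 0 ≤ wt lam x) :
    ∃ (Ω' : Type) (_ : Field Ω') (_ : Algebra ℚ Ω') (_ : Algebra K Ω') (_ : Algebra κ Ω')
      (r' : Γ →* A.LGroup Ω') (k k' : Matrix (Fin n) (Fin n) Ω'), k * k' = 1 ∧ k' * k = 1 ∧
      HasVal A V Ω' r' ∧ ∀ γ, ρ.ev Ω' (r' γ) =
        k' * (lv lam (g * evM ρ r κ γ * g')).map (algebraMap κ Ω') * k := by
  classical
  obtain ⟨hrκ, hevκ⟩ := hasVal_map ρ h κ
  set rκ : Γ →* A.LGroup κ := (A.mapL (algebraMap Ω κ).toRatAlgHom).comp r with hrκdef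
  set e : Γ → Matrix (Fin n) (Fin n) κ := evM ρ r κ with he
  set t : TD.s.Ix n → κ := act g g' (inA κ TD.T₀) with ht
  -- conjugated representation
  have hemul : ∀ γ δ, g * e (γ * δ) * g' = (g * e γ * g') * (g * e δ * g') := by
    intro γ δ
    rw [he, evM_mul]
    calc g * (evM ρ r κ γ * evM ρ r κ δ) * g' = g * evM ρ r κ γ * 1 * evM ρ r κ δ * g' := by
          rw [mul_one]; simp only [mul_assoc]
      _ = _ := by rw [← hg']; simp only [mul_assoc]
  let M : Γ →* Matrix (Fin n) (Fin n) κ :=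
    { toFun := fun γ => lv lam (g * e γ * g')
      map_one' := by rw [he, evM_one, mul_one, hg, lv_one]
      map_mul' := fun γ δ => by rw [hemul, lv_mul (hP γ) (hP δ)] }
  have hM : ∀ γ, M γ = lv lam (g * e γ * g') := fun γ => rfl
  -- closed orbit
  have hrel : ∀ f : MvPolynomial (TD.s.Ix n) ℚ,
      (∀ (B : Type) [CommRing B] [Algebra ℚ B] (k k' : Matrix (Fin n) (Fin n) B),
        k * k' = 1 → k' * k = 1 → aeval (act k k' (inA B TD.T₀)) f = 0) →
      aeval (wtZero lam t) f = 0 := by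
    intro f hf
    refine lim_relation f t lam hT ?_
    intro B _ _ _ k k' hk hk'
    have h1 : (fun y => algebraMap κ B (t y)) =
        act (g.map (algebraMap κ B)) (g'.map (algebraMap κ B)) (inA B TD.T₀) := by
      funext y
      rw [ht, map_act]
      congr 1
      funext z
      exact RingHom.map_rat_algebraMap (algebraMap κ B) _
    rw [h1, ← act_mul]
    have h2 : g.map (algebraMap κ B) * g'.map (algebraMap κ B) = 1 := by
      rw [← Matrix.map_mul, hg, Matrix.map_one _ (map_zero _) (map_one _)]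
    have h3 : g'.map (algebraMap κ B) * g.map (algebraMap κ B) = 1 := by
      rw [← Matrix.map_mul, hg', Matrix.map_one _ (map_zero _) (map_one _)]
    refine hf B _ _ ?_ ?_
    · rw [mul_assoc, ← mul_assoc _ _ k', h2, one_mul, hk]
    · rw [mul_assoc, ← mul_assoc k', hk', one_mul, h3]
  obtain ⟨Ω', i1, i2, i3, k, k', hk, hk', hkT⟩ := closed_orbit G TD (wtZero lam t) hrel
  let i4 : Algebra K Ω' := ((algebraMap κ Ω').comp (algebraMap K κ)).toAlgebra
  let M' : Γ →* Matrix (Fin n) (Fin n) Ω' :=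
    { toFun := fun γ => (M γ).map (algebraMap κ Ω')
      map_one' := by rw [map_one, Matrix.map_one _ (map_zero _) (map_one _)]
      map_mul' := fun γ δ => by rw [map_mul, Matrix.map_mul] }
  have hM' : ∀ γ, M' γ = (lv lam (g * e γ * g')).map (algebraMap κ Ω') := fun γ => rfl
  let v : Γ →* Matrix (Fin n) (Fin n) Ω' :=
    { toFun := fun γ => k' * M' γ * k
      map_one' := by rw [map_one, mul_one, hk']
      map_mul' := fun γ δ => by
        rw [map_mul]
        calc k' * (M' γ * M' δ) * k = k' * M' γ * 1 * M' δ * k := by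
              rw [mul_one]; simp only [mul_assoc]
          _ = _ := by rw [← hk]; simp only [mul_assoc] }
  have hv : ∀ γ, v γ = k' * M' γ * k := fun γ => rfl
  -- action over κ
  have hact1 : ∀ γ, act (g * e γ * g') (g * e γ⁻¹ * g') t = mix (DmR ρ hG TD κ γ) t := by
    intro γ
    have h1 := act_ev ρ hG TD (rκ γ)
    rw [hrκ.proj γ, ← map_inv, hevκ γ, hevκ γ⁻¹] at h1
    rw [ht, ← act_mul]
    have h2 : g * e γ * g' * g = g * e γ := by rw [mul_assoc, hg', mul_one]
    have h3 : g' * (g * e γ⁻¹ * g') = e γ⁻¹ * g' := by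
      rw [← mul_assoc, ← mul_assoc, hg', one_mul]
    rw [h2, h3, act_mul, h1, act_mix]
  have hact2 : ∀ γ, act (M γ) (M γ⁻¹) (wtZero lam t) = mix (DmR ρ hG TD κ γ) (wtZero lam t) := by
    intro γ
    have h1 := congrArg (wtZero lam) (hact1 γ)
    rw [wtZero_act (hP γ) (hP γ⁻¹) hT, wtZero_mix] at h1
    exact h1
  have hact3 : ∀ γ, act (M' γ) (M' γ⁻¹) (act k k' (inA Ω' TD.T₀)) =
      mix (DmR ρ hG TD Ω' γ) (act k k' (inA Ω' TD.T₀)) := by
    intro γ
    rw [hkT]
    funext y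
    have h1 := congrArg (algebraMap κ Ω') (congrFun (hact2 γ) y)
    rw [map_act] at h1
    refine h1.trans ?_
    unfold mix
    rw [map_sum]
    refine Finset.sum_congr rfl fun c _ => ?_
    rw [map_mul]
    congr 1
    exact RingHom.map_rat_algebraMap (algebraMap κ Ω') _
  have hact4 : ∀ γ, act (v γ) (v γ⁻¹) (inA Ω' TD.T₀) = mix (DmR ρ hG TD Ω' γ) (inA Ω' TD.T₀) := by
    intro γ
    have h1 : act (v γ) (v γ⁻¹) (inA Ω' TD.T₀) =
        act k' k (act (M' γ) (M' γ⁻¹) (act k k' (inA Ω' TD.T₀))) := by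
      rw [← act_mul, ← act_mul, hv, hv]
      congr 1 <;> simp only [mul_assoc]
    rw [h1, hact3, act_mix, ← act_mul, hk', act_one]
  have hinv1 : ∀ γ, v γ * v γ⁻¹ = 1 := fun γ => by rw [← map_mul, mul_inv_cancel, map_one]
  have hinv2 : ∀ γ, v γ⁻¹ * v γ = 1 := fun γ => by rw [← map_mul, inv_mul_cancel, map_one]
  obtain ⟨r', hr'1, hr'2⟩ := exists_hom ρ hG hρ v
    (fun γ => in_of_act ρ hG TD γ (v γ) (v γ⁻¹) (hinv1 γ) (hinv2 γ) (hact4 γ))
  refine ⟨Ω', i1, i2, i4, i3, r', k, k', hk, hk', ⟨hr'1, ?_⟩, fun γ => ?_⟩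
  · intro γ f hf
    obtain ⟨F, hF, hFv⟩ := exists_polyT ρ hG hρ TD γ f hf
    let pr : (R : Type) → Matrix (Fin n) (Fin n) R → Matrix (Fin n) (Fin n) R → Bool →
      Matrix (Fin n) (Fin n) R := fun R a b c => match c with | false => a | true => b
    have aux : ∀ (R : Type) [CommRing R] [Algebra ℚ R] (x : A.LGroup R) (_ : x.right = γ)
        (a b : Matrix (Fin n) (Fin n) R), ρ.ev R x = a → ρ.ev R x⁻¹ = b →
        aeval (toTot (pr R a b) (inA R TD.T₀)) F = x.left.hom f := by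
      intro R _ _ x hx a b ha hb
      rw [← hFv R x hx]
      refine congrArg (fun u => aeval (toTot u (inA R TD.T₀)) F) ?_
      funext c
      cases c
      · exact ha.symm
      · exact hb.symm
    have h1 := aux Ω' (r' γ) (hr'1 γ) (v γ) (v γ⁻¹) (hr'2 γ) (by rw [← map_inv, hr'2])
    have h2 := aux κ (rκ γ) (hrκ.proj γ) (e γ) (e γ⁻¹) (hevκ γ) (by rw [← map_inv, hevκ])
    rw [hrκ.val γ f hf] at h2
    rw [← h1]
    -- over κ
    have h5 := hF κ g g' (redGL_In.mpr ⟨hg, hg'⟩) (toTot (pr κ (e γ) (e γ⁻¹)) (inA κ TD.T₀))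
    rw [act_toTot, h2] at h5
    have h6 := lim_invariant F hF (toTot (fun m => g * pr κ (e γ) (e γ⁻¹) m * g')
      (act g g' (inA κ TD.T₀))) lam (supp_toTot (fun m => by
        cases m
        · exact hP γ
        · exact hP γ⁻¹) hT)
    rw [h5, wtZero_toTot] at h6
    -- over Ω'
    have h7 := hF Ω' k k' (redGL_In.mpr ⟨hk, hk'⟩) (toTot (pr Ω' (v γ) (v γ⁻¹)) (inA Ω' TD.T₀))
    rw [act_toTot, hkT] at h7
    rw [← h7]
    have h8 := map_toTot (M := Bool) (algebraMap κ Ω')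
      (fun m => lv lam (g * pr κ (e γ) (e γ⁻¹) m * g')) (wtZero lam (act g g' (inA κ TD.T₀)))
    have h9 : (fun m : Bool => (lv lam (g * pr κ (e γ) (e γ⁻¹) m * g')).map (algebraMap κ Ω')) =
        fun m => k * pr Ω' (v γ) (v γ⁻¹) m * k' := by
      have h10 : ∀ δ, k * v δ * k' = (lv lam (g * e δ * g')).map (algebraMap κ Ω') := by
        intro δ
        rw [hv, ← hM']
        calc k * (k' * M' δ * k) * k' = (k * k') * M' δ * (k * k') := by
              simp only [mul_assoc]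
          _ = _ := by rw [hk, one_mul, mul_one]
      funext m
      cases m
      · exact (h10 γ).symm
      · exact (h10 γ⁻¹).symm
    rw [h9] at h8
    rw [← h8]
    change _ = algebraMap κ Ω' (algebraMap K κ (V γ f))
    rw [h6]
    have h11 := comp_aeval (R := ℚ) (toTot (fun m => lv lam (g * pr κ (e γ) (e γ⁻¹) m * g'))
        (wtZero lam (act g g' (inA κ TD.T₀)))) (algebraMap κ Ω').toRatAlgHom
    exact (DFunLike.congr_fun h11 F).symm
  · rw [hr'2 γ]
    rfl

end Pool.Agent.Lib.MP_666dc0_nt.IG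
end

section

open MvPolynomial

namespace Pool.Agent.Lib.MP_666dc0_nt.IG

variable {O : Type} [CommRing O] [HopfAlgebra ℚ O] {Γ : Type} [Group Γ] {A : HopfAction Γ O}
  {n : ℕ} (ρ : MatRep A n)

/-- G1, the consequence for a minimal point: the limit map `M ↦ lv lam (g M g')` is injective on the span of
the matrices `ev (r γ)` over `κ`. Its image spans (after extension to `Ω'` and conjugation) `spA ρ r' Ω'`,
of dimension at least `finrank (spA ρ r Ω) ≥ finrank (spA ρ r κ)`. -/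
theorem min_injective {G : Red n} (hG : IsRedG ρ G) (hρ : Faithful ρ) (TD : TensorData G)
    {K : Type} [Field K] {V : Γ → O → K} {Ω : Type} [Field Ω] [Algebra ℚ Ω] [Algebra K Ω]
    {r : Γ →* A.LGroup Ω} (h : IsMinPt ρ V Ω r) (κ : Type) [Field κ] [Algebra ℚ κ] [Algebra K κ]
    [Algebra Ω κ] [IsScalarTower K Ω κ] (g g' : Matrix (Fin n) (Fin n) κ) (hg : g * g' = 1)
    (hg' : g' * g = 1) (lam : Fin n → ℝ) (hP : ∀ γ, InP lam (g * evM ρ r κ γ * g'))
    (hT : ∀ x, act g g' (inA κ TD.T₀) x ≠ 0 → 0 ≤ wt lam x) (M : Matrix (Fin n) (Fin n) κ)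
    (hM : M ∈ spA ρ r κ) (hM0 : lv lam (g * M * g') = 0) : M = 0 := by
  classical
  obtain ⟨Ω', i1, i2, i3, i4, r', k, k', hk, hk', hval, hev⟩ :=
    limit_point ρ hG hρ TD h.val κ g g' hg hg' lam hP hT
  let Lf : Matrix (Fin n) (Fin n) κ →ₗ[κ] Matrix (Fin n) (Fin n) κ :=
    { toFun := fun X => lv lam (g * X * g')
      map_add' := fun X Y => by
        ext a b
        rw [mul_add, add_mul]
        simp only [lv, Matrix.of_apply, Matrix.add_apply]
        split_ifs <;> simp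
      map_smul' := fun c X => by
        ext a b
        rw [Matrix.mul_smul, Matrix.smul_mul]
        simp only [lv, Matrix.of_apply, Matrix.smul_apply, RingHom.id_apply]
        split_ifs <;> simp }
  let U : Submodule κ (Matrix (Fin n) (Fin n) κ) := (spA ρ r κ).map Lf
  let φ : Matrix (Fin n) (Fin n) κ → Matrix (Fin n) (Fin n) Ω' :=
    fun X => k' * X.map (algebraMap κ Ω') * k
  let b := Module.finBasis κ U
  let S : Set (Matrix (Fin n) (Fin n) Ω') := Set.range fun i => φ (b i : Matrix (Fin n) (Fin n) κ)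
  have h1 : spA ρ r' Ω' ≤ Submodule.span Ω' S := by
    refine Submodule.span_le.mpr ?_
    rintro _ ⟨γ, rfl⟩
    have h2 : lv lam (g * evM ρ r κ γ * g') ∈ U :=
      Submodule.mem_map.mpr ⟨evM ρ r κ γ, Submodule.subset_span ⟨γ, rfl⟩, rfl⟩
    have h3 := b.sum_repr ⟨_, h2⟩
    have h4 : lv lam (g * evM ρ r κ γ * g') =
        ∑ i, b.repr ⟨_, h2⟩ i • (b i : Matrix (Fin n) (Fin n) κ) := by
      have h7 := congrArg Subtype.val h3
      rw [AddSubmonoidClass.coe_finsetSum] at h7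
      exact h7.symm
    have h5 : evM ρ r' Ω' γ = φ (lv lam (g * evM ρ r κ γ * g')) := by
      refine Eq.trans ?_ (hev γ)
      ext i j
      rfl
    rw [h5, h4]
    have h6 : φ (∑ i, b.repr ⟨_, h2⟩ i • (b i : Matrix (Fin n) (Fin n) κ)) =
        ∑ i, algebraMap κ Ω' (b.repr ⟨_, h2⟩ i) • φ (b i : Matrix (Fin n) (Fin n) κ) := by
      have h8 : (∑ i, b.repr ⟨_, h2⟩ i • (b i : Matrix (Fin n) (Fin n) κ)).map (algebraMap κ Ω') =
          ∑ i, algebraMap κ Ω' (b.repr ⟨_, h2⟩ i) •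
            (b i : Matrix (Fin n) (Fin n) κ).map (algebraMap κ Ω') := by
        ext x y
        simp only [Matrix.map_apply, Matrix.sum_apply, Matrix.smul_apply, smul_eq_mul, map_sum,
          map_mul]
      simp only [φ]
      rw [h8, Finset.mul_sum, Finset.sum_mul]
      refine Finset.sum_congr rfl fun i _ => ?_
      rw [Matrix.mul_smul, Matrix.smul_mul]
    rw [h6]
    exact Submodule.sum_mem _ fun i _ => Submodule.smul_mem _ _ (Submodule.subset_span ⟨i, rfl⟩)
  have h2 : Module.finrank Ω' (spA ρ r' Ω') ≤ Module.finrank κ U :=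
    calc Module.finrank Ω' (spA ρ r' Ω') ≤ Module.finrank Ω' (Submodule.span Ω' S) :=
          Submodule.finrank_mono h1
      _ ≤ Fintype.card (Fin (Module.finrank κ U)) := finrank_range_le_card _
      _ = _ := Fintype.card_fin _
  have h3 : Module.finrank κ (spA ρ r κ) ≤ Module.finrank κ U :=
    (finrank_spA_le ρ r κ).trans ((h.min Ω' r' hval).trans h2)
  let f := Lf.domRestrict (spA ρ r κ)
  have h4 := LinearMap.finrank_range_add_finrank_ker f
  have h5 : LinearMap.range f = U := LinearMap.range_domRestrict _ _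
  rw [h5] at h4
  have h6 : Module.finrank κ (LinearMap.ker f) = 0 := by omega
  have h7 : LinearMap.ker f = ⊥ := Submodule.finrank_eq_zero.mp h6
  have h8 : (⟨M, hM⟩ : spA ρ r κ) ∈ LinearMap.ker f := LinearMap.mem_ker.mpr hM0
  rw [h7, Submodule.mem_bot] at h8
  exact congrArg Subtype.val h8

end Pool.Agent.Lib.MP_666dc0_nt.IG
end
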