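import Pool.Agent.Lib.MP_666dc0_nt.Mg.G043
import Pool.Agent.Lib.MP_666dc0_nt.IG.GCa
import Pool.Agent.Lib.MP_666dc0_nt.Mg.G039
import Pool.Agent.Lib.MP_666dc0_nt.Mg.G040
import Pool.Agent.Lib.MP_666dc0_nt.Mg.G041
import Pool.Agent.Lib.MP_666dc0_nt.Mg.G045

section

open MvPolynomial

namespace Pool.Agent.Lib.MP_666dc0_nt.IG

variable {O : Type} [CommRing O] [HopfAlgebra ℚ O] {Γ : Type} [Group Γ] {A : HopfAction Γ O}
  {n : ℕ} (ρ : MatRep A n)

/-- Evaluation of functions in a subalgebra. -/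
private def GCd_ev {Ω : Type} [Field Ω] {H : Type} (C : Subalgebra Ω (H → Ω)) (g : H) : C →+* Ω :=
  (Pi.evalRingHom (fun _ : H => Ω) g).comp C.val.toRingHom

private theorem GCd_ext {Ω : Type} [Field Ω] {H : Type} {C : Subalgebra Ω (H → Ω)} {a b : C}
    (h : ∀ g, GCd_ev C g a = GCd_ev C g b) : a = b :=
  Subtype.ext (funext fun g => h g)

/-- The matrices of values of one point. -/
private theorem GCd_one {G : Red n} (hG : IsRedG ρ G) (TD : TensorData G) {Ω : Type} [Field Ω]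
    [Algebra ℚ Ω] {r : Γ →* A.LGroup Ω} (hr : ∀ γ, (r γ).right = γ)
    (C : Subalgebra Ω (A.act.ker → Ω))
    (hm : ∀ i j, (fun g : A.act.ker => ρ.ev Ω (r (g : Γ)) i j) ∈ C)
    (hm' : ∀ i j, (fun g : A.act.ker => ρ.ev Ω (r ((g⁻¹ : A.act.ker) : Γ)) i j) ∈ C)
    (Ω' : Type) [Field Ω'] [Algebra Ω Ω'] [Algebra ℚ Ω'] [IsScalarTower ℚ Ω Ω'] (χ : C →ₐ[Ω] Ω')
    (h h' : Matrix (Fin n) (Fin n) Ω') (hh : ∀ i j, h i j = χ ⟨_, hm i j⟩)
    (hh' : ∀ i j, h' i j = χ ⟨_, hm' i j⟩) :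
    h * h' = 1 ∧ h' * h = 1 ∧ act h h' (inA Ω' TD.T₀) = inA Ω' TD.T₀ ∧ h ∈ spA ρ r Ω' ∧
    h' ∈ spA ρ r Ω' ∧ ∀ (B : Matrix (Fin n) (Fin n) Ω) (f : C),
      (∀ g, (f : A.act.ker → Ω) g = (ρ.ev Ω (r g) * B).trace) →
      (h * B.map (algebraMap Ω Ω')).trace = χ f := by
  classical
  set φ : C →+* Ω' := χ.toRingHom with hφ
  set ME : Matrix (Fin n) (Fin n) C := Matrix.of fun i j => ⟨_, hm i j⟩ with hME
  set ME' : Matrix (Fin n) (Fin n) C := Matrix.of fun i j => ⟨_, hm' i j⟩ with hME'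
  have e1 : h = ME.map φ := by
    ext i j
    exact hh i j
  have e1' : h' = ME'.map φ := by
    ext i j
    exact hh' i j
  have e2 : ∀ g, ME.map (GCd_ev C g) = ρ.ev Ω (r (g : Γ)) := fun g => by
    ext i j
    rfl
  have e2' : ∀ g, ME'.map (GCd_ev C g) = ρ.ev Ω (r (g : Γ))⁻¹ := fun g => by
    rw [← map_inv]
    ext i j
    rfl
  have hone : ∀ g, (1 : Matrix (Fin n) (Fin n) C).map (GCd_ev C g) = 1 := fun g =>
    Matrix.map_one _ (map_zero _) (map_one _)
  have hmul : ME * ME' = 1 := by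
    refine Matrix.ext fun i j => GCd_ext fun g => ?_
    change ((ME * ME').map (GCd_ev C g)) i j = ((1 : Matrix (Fin n) (Fin n) C).map (GCd_ev C g)) i j
    rw [Matrix.map_mul, e2, e2', ev_mul_inv, hone]
  have hmul' : ME' * ME = 1 := by
    refine Matrix.ext fun i j => GCd_ext fun g => ?_
    change ((ME' * ME).map (GCd_ev C g)) i j = ((1 : Matrix (Fin n) (Fin n) C).map (GCd_ev C g)) i j
    rw [Matrix.map_mul, e2, e2', ev_inv_mul, hone]
  have hfix : ∀ g : A.act.ker, act (ρ.ev Ω (r (g : Γ))) (ρ.ev Ω (r (g : Γ))⁻¹) (inA Ω TD.T₀) =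
      inA Ω TD.T₀ := by
    intro g
    have h1 := in_of_ev ρ hG (r (g : Γ))
    have h2 : A.act (g : Γ) = 1 := g.2
    have h3 : A.act (g : Γ)⁻¹ = 1 := by rw [map_inv, h2, inv_one]
    rw [hr, ρ.pm_one h2, ρ.pm_one h3, mul_one, one_mul] at h1
    exact TD.fix Ω _ _ h1
  have hrel : ∀ (N : Matrix (Fin n) (Fin n) C) (N' : Matrix (Fin n) (Fin n) Ω')
      (c : Matrix (Fin n) (Fin n) Ω), N' = N.map φ →
      (∀ g, ∑ i, ∑ j, c i j * (N.map (GCd_ev C g)) i j = 0) →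
      ∑ i, ∑ j, algebraMap Ω Ω' (c i j) * N' i j = 0 := by
    intro N N' c hN hc
    have h1 : ∑ i, ∑ j, algebraMap Ω C (c i j) * N i j = 0 := by
      refine GCd_ext fun g => ?_
      rw [map_sum, map_zero, ← hc g]
      refine Finset.sum_congr rfl fun i _ => ?_
      rw [map_sum]
      refine Finset.sum_congr rfl fun j _ => ?_
      rw [map_mul]
      rfl
    have h2 := congrArg φ h1
    rw [map_sum, map_zero] at h2
    rw [← h2]
    refine Finset.sum_congr rfl fun i _ => ?_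
    rw [map_sum]
    refine Finset.sum_congr rfl fun j _ => ?_
    rw [map_mul, hN]
    congr 1
    exact (χ.commutes (c i j)).symm
  refine ⟨?_, ?_, ?_, ?_, ?_, ?_⟩
  · rw [e1, e1', ← Matrix.map_mul, hmul]
    simp
  · rw [e1, e1', ← Matrix.map_mul, hmul']
    simp
  · set T : TD.s.Ix n → C := fun x => algebraMap Ω C (algebraMap ℚ Ω (TD.T₀ x)) with hT
    have h1 : act ME ME' T = T := by
      funext x
      refine GCd_ext fun g => ?_
      rw [map_act, e2, e2']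
      exact congrFun (hfix g) x
    funext x
    have h2 : (fun y => φ (T y)) = inA Ω' TD.T₀ := by
      funext y
      change χ (algebraMap Ω C (algebraMap ℚ Ω (TD.T₀ y))) = algebraMap ℚ Ω' (TD.T₀ y)
      rw [χ.commutes, ← IsScalarTower.algebraMap_apply]
    rw [← h2, e1, e1', ← map_act, h1]
  · refine mem_spA_of_relations ρ r Ω' h fun c hc => hrel ME h c e1 fun g => ?_
    rw [e2]
    exact hc g
  · refine mem_spA_of_relations ρ r Ω' h' fun c hc => hrel ME' h' c e1' fun g => ?_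
    rw [e2', ← map_inv]
    exact hc _
  · intro B f hf
    have h1 : f = ∑ i, ∑ j, ME i j * algebraMap Ω C (B j i) := by
      refine GCd_ext fun g => ?_
      refine (hf g).trans ?_
      rw [map_sum, Matrix.trace]
      refine Finset.sum_congr rfl fun i _ => ?_
      rw [map_sum, Matrix.diag_apply, Matrix.mul_apply]
      refine Finset.sum_congr rfl fun j _ => ?_
      rw [map_mul]
      rfl
    rw [h1, map_sum, Matrix.trace]
    refine Finset.sum_congr rfl fun i _ => ?_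
    rw [map_sum, Matrix.diag_apply, Matrix.mul_apply]
    refine Finset.sum_congr rfl fun j _ => ?_
    rw [map_mul, χ.commutes, hh]
    rfl

/-- G4. For a minimal point the entries of `ev (r γ)`, `γ ∈ Γ₁ = ker A.act`, are polynomials in the entries of
`σ(γ)`, `σ(γ⁻¹)`. Apply `unique_extension` to the group `A.act.ker`, `ev ∘ r` and `σ` with coefficients
extended to `Ω`. `C₀ ≤ C`: the entries of `σ(γ)` are linear combinations of
`tf (γ e_j e_i) = trace (ev(r γ) ev(e_j) ev(e_i))`. Uniqueness: for `χ₁, χ₂ : C → Ω'` let `h, h'` (`k, k'`) be the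
matrices of the values at the entries of `ev (r γ)`, `ev (r γ⁻¹)`: inverse pairs acting trivially on `T₀`
(relations in `C`: `ev(r γ) ev(r γ⁻¹) = 1`, `act_ev` with `P γ = 1`, so `D γ` may be replaced by the
identity), contained in the span (`mem_spA_of_relations`; relations between values on `Γ₁` follow
from relations on... only use `c` with the relation for all `γ ∈ Γ`). If `χ₁ = χ₂` on `C₀` then
`trace ((h - k) ev(e_j) ev(e_i)) = 0` (`Gi` is invertible), so `h - k ∈ NilR` (`exists_sigma`), and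
`u := h' k`, `u - 1 = h' (k - h) ∈ NilR`, fixes `T₀`; `unipotent_trivial` gives `h = k`. Hence also
`h' = k'`, and `χ₁ = χ₂` on the generators. -/
theorem entries_mem {G : Red n} (hG : IsRedG ρ G) (hρ : Faithful ρ) (TD : TensorData G)
    {K : Type} [Field K] [CharZero K] {V : Γ → O → K} {Ω : Type} [Field Ω] [IsAlgClosed Ω]
    [Algebra ℚ Ω] [Algebra K Ω] {r : Γ →* A.LGroup Ω} (h : IsMinPt ρ V Ω r) {N : ℕ}
    (e : Fin N → Γ) (Gi : Matrix (Fin N) (Fin N) K)
    (hGi : Gi * (Matrix.of fun i j => tf ρ V (e i * e j)) = 1)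
    (h1 : sg ρ V e Gi 1 = 1) (hmul : ∀ γ δ, sg ρ V e Gi (γ * δ) = sg ρ V e Gi γ * sg ρ V e Gi δ)
    (hnil : ∀ (κ : Type) [Field κ] [Algebra K κ] [Algebra Ω κ] [IsScalarTower K Ω κ]
      (M : Matrix (Fin n) (Fin n) κ), M ∈ spA ρ r κ →
      (∀ i j, (M * evM ρ r κ (e j) * evM ρ r κ (e i)).trace = 0) → NilR ρ r κ M) (i j : Fin n) :
    (fun γ : A.act.ker => ρ.ev Ω (r γ) i j) ∈ Algebra.adjoin Ω
      ({f : A.act.ker → Ω | ∃ k l, f = fun γ : A.act.ker => algebraMap K Ω (sg ρ V e Gi (γ : Γ) k l)} ∪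
       {f : A.act.ker → Ω | ∃ k l, f = fun γ : A.act.ker => algebraMap K Ω (sg ρ V e Gi (γ : Γ)⁻¹ k l)}) := by
  classical
  have hcz : CharZero Ω := algebraRat.charZero Ω
  -- the two representations of `Γ₁`
  set ρ' : A.act.ker →* Matrix (Fin n) (Fin n) Ω := (ρ.ev Ω).comp (r.comp A.act.ker.subtype)
    with hρ'
  set σ' : A.act.ker →* Matrix (Fin N) (Fin N) Ω :=
    { toFun := fun γ => (sg ρ V e Gi (γ : Γ)).map (algebraMap K Ω)
      map_one' := by
        rw [OneMemClass.coe_one, h1]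
        simp
      map_mul' := fun γ δ => by
        rw [Subgroup.coe_mul, hmul, Matrix.map_mul] } with hσ'
  set C : Subalgebra Ω (A.act.ker → Ω) := Algebra.adjoin Ω
    ({f | ∃ i j, f = fun g => ρ' g i j} ∪ {f | ∃ i j, f = fun g => ρ' g⁻¹ i j}) with hC
  set C₀ : Subalgebra Ω (A.act.ker → Ω) := Algebra.adjoin Ω
    ({f | ∃ i j, f = fun g => σ' g i j} ∪ {f | ∃ i j, f = fun g => σ' g⁻¹ i j}) with hC₀
  have hm : ∀ i j, (fun g : A.act.ker => ρ.ev Ω (r (g : Γ)) i j) ∈ C := fun i j =>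
    Algebra.subset_adjoin (Or.inl ⟨i, j, rfl⟩)
  have hm' : ∀ i j, (fun g : A.act.ker => ρ.ev Ω (r ((g⁻¹ : A.act.ker) : Γ)) i j) ∈ C := fun i j =>
    Algebra.subset_adjoin (Or.inr ⟨i, j, rfl⟩)
  have hs : ∀ i j, (fun g : A.act.ker => algebraMap K Ω (sg ρ V e Gi (g : Γ) i j)) ∈ C₀ :=
    fun i j => Algebra.subset_adjoin (Or.inl ⟨i, j, rfl⟩)
  -- traces
  have htr : ∀ γ, (ρ.ev Ω (r γ)).trace = algebraMap K Ω (tf ρ V γ) := by
    intro γ
    have h2 := trace_evM ρ h.val Ω γ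
    rw [← h2]
    rfl
  have htr3 : ∀ (γ : Γ) i j, algebraMap K Ω (tf ρ V (γ * e j * e i)) =
      (ρ.ev Ω (r γ) * (ρ.ev Ω (r (e j)) * ρ.ev Ω (r (e i)))).trace := by
    intro γ i j
    rw [← htr, map_mul, map_mul, map_mul, map_mul, mul_assoc]
  have htrC : ∀ (B : Matrix (Fin n) (Fin n) Ω) (F : A.act.ker → Matrix (Fin n) (Fin n) Ω),
      (∀ i j, (fun g => F g i j) ∈ C) → (fun g => (F g * B).trace) ∈ C := by
    intro B F hF
    have h2 : (fun g => (F g * B).trace) = ∑ i, ∑ j, B j i • fun g => F g i j := by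
      funext g
      rw [Matrix.trace, Finset.sum_apply]
      refine Finset.sum_congr rfl fun i _ => ?_
      rw [Matrix.diag_apply, Matrix.mul_apply, Finset.sum_apply]
      refine Finset.sum_congr rfl fun j _ => ?_
      rw [Pi.smul_apply, smul_eq_mul, mul_comm]
    rw [h2]
    exact Subalgebra.sum_mem _ fun i _ => Subalgebra.sum_mem _ fun j _ =>
      Subalgebra.smul_mem _ (hF i j) _
  have hsgC : ∀ (F : A.act.ker → Γ), (∀ i j, (fun g => ρ.ev Ω (r (F g)) i j) ∈ C) →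
      ∀ k l, (fun g => algebraMap K Ω (sg ρ V e Gi (F g) k l)) ∈ C := by
    intro F hF k l
    have h2 : (fun g => algebraMap K Ω (sg ρ V e Gi (F g) k l)) = ∑ i, algebraMap K Ω (Gi k i) •
        fun g => (ρ.ev Ω (r (F g)) * (ρ.ev Ω (r (e l)) * ρ.ev Ω (r (e i)))).trace := by
      funext g
      rw [Finset.sum_apply]
      change algebraMap K Ω (∑ i, Gi k i * tf ρ V (F g * e l * e i)) = _
      rw [map_sum]
      refine Finset.sum_congr rfl fun i _ => ?_
      rw [Pi.smul_apply, smul_eq_mul, map_mul, htr3]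
    rw [h2]
    exact Subalgebra.sum_mem _ fun i _ => Subalgebra.smul_mem _ (htrC _ _ hF) _
  have hle : C₀ ≤ C := by
    refine Algebra.adjoin_le ?_
    rintro f (⟨k, l, rfl⟩ | ⟨k, l, rfl⟩)
    · exact hsgC (fun g => (g : Γ)) hm k l
    · exact hsgC (fun g => ((g⁻¹ : A.act.ker) : Γ)) hm' k l
  -- the traces are in `C₀`
  have hGi' : (Matrix.of fun i j => tf ρ V (e i * e j)) * Gi = 1 := mul_eq_one_comm.1 hGi
  have htC₀ : ∀ i j, (fun g : A.act.ker => algebraMap K Ω (tf ρ V ((g : Γ) * e j * e i))) ∈ C₀ := by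
    intro i j
    have h2 : (fun g : A.act.ker => algebraMap K Ω (tf ρ V ((g : Γ) * e j * e i))) =
        ∑ k, algebraMap K Ω (tf ρ V (e i * e k)) •
          fun g : A.act.ker => algebraMap K Ω (sg ρ V e Gi (g : Γ) k j) := by
      funext g
      rw [Finset.sum_apply]
      have h3 : (Matrix.of fun i j => tf ρ V (e i * e j)) * sg ρ V e Gi (g : Γ) =
          Matrix.of fun i j => tf ρ V ((g : Γ) * e j * e i) := by
        have h4 : sg ρ V e Gi (g : Γ) = Gi * Matrix.of fun i j => tf ρ V ((g : Γ) * e j * e i) := by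
          ext k l
          rw [Matrix.mul_apply]
          rfl
        rw [h4, ← mul_assoc, hGi', one_mul]
      have h5 := congrFun (congrFun h3 i) j
      rw [Matrix.mul_apply] at h5
      have h6 := congrArg (algebraMap K Ω) h5
      rw [map_sum] at h6
      refine h6.symm.trans (Finset.sum_congr rfl fun k _ => ?_)
      rw [map_mul]
      rfl
    rw [h2]
    exact Subalgebra.sum_mem _ fun k _ => Subalgebra.smul_mem _ (hs k j) _
  have hCC₀ : C = C₀ := by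
    refine unique_extension ρ' σ' C C₀ rfl rfl hle ?_
    intro Ω' _ _ _ χ₁ χ₂ hχ
    let _ : Algebra K Ω' := ((algebraMap Ω Ω').comp (algebraMap K Ω)).toAlgebra
    let _ : Algebra ℚ Ω' := ((algebraMap Ω Ω').comp (algebraMap ℚ Ω)).toAlgebra
    have _ : IsScalarTower K Ω Ω' := IsScalarTower.of_algebraMap_eq fun z => rfl
    have _ : IsScalarTower ℚ Ω Ω' := IsScalarTower.of_algebraMap_eq fun z => rfl
    set k₁ : Matrix (Fin n) (Fin n) Ω' := Matrix.of fun i j => χ₁ ⟨_, hm i j⟩ with hk₁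
    set k₁' : Matrix (Fin n) (Fin n) Ω' := Matrix.of fun i j => χ₁ ⟨_, hm' i j⟩ with hk₁'
    set k₂ : Matrix (Fin n) (Fin n) Ω' := Matrix.of fun i j => χ₂ ⟨_, hm i j⟩ with hk₂
    set k₂' : Matrix (Fin n) (Fin n) Ω' := Matrix.of fun i j => χ₂ ⟨_, hm' i j⟩ with hk₂'
    obtain ⟨a1, a2, a3, a4, a5, a6⟩ := GCd_one ρ hG TD h.val.proj C hm hm' Ω' χ₁ k₁ k₁'
      (fun _ _ => rfl) (fun _ _ => rfl)
    obtain ⟨b1, b2, b3, b4, b5, b6⟩ := GCd_one ρ hG TD h.val.proj C hm hm' Ω' χ₂ k₂ k₂'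
      (fun _ _ => rfl) (fun _ _ => rfl)
    have hnilk : NilR ρ r Ω' (k₂ - k₁) := by
      refine hnil Ω' (k₂ - k₁) (Submodule.sub_mem _ b4 a4) fun i j => ?_
      have h2 : evM ρ r Ω' (e j) * evM ρ r Ω' (e i) =
          (ρ.ev Ω (r (e j)) * ρ.ev Ω (r (e i))).map (algebraMap Ω Ω') := by
        rw [Matrix.map_mul]
        rfl
      rw [mul_assoc, h2, sub_mul, Matrix.trace_sub, sub_eq_zero,
        a6 _ ⟨_, hle (htC₀ i j)⟩ fun g => htr3 _ i j, b6 _ ⟨_, hle (htC₀ i j)⟩ fun g => htr3 _ i j]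
      exact (hχ _ (htC₀ i j)).symm
    have hu1 : (k₁' * k₂) * (k₂' * k₁) = 1 := by
      rw [mul_assoc, ← mul_assoc k₂, b1, one_mul, a2]
    have hu2 : (k₂' * k₁) * (k₁' * k₂) = 1 := by
      rw [mul_assoc, ← mul_assoc k₁, a1, one_mul, b2]
    have hu3 : NilR ρ r Ω' (k₁' * k₂ - 1) := by
      have h2 : k₁' * k₂ - 1 = k₁' * (k₂ - k₁) := by rw [mul_sub, a2]
      rw [h2]
      exact NilR_mul_left ρ r Ω' hnilk a5
    have hu4 : act (k₁' * k₂) (k₂' * k₁) (inA Ω' TD.T₀) = inA Ω' TD.T₀ := by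
      rw [act_mul, b3]
      conv_lhs => rw [← a3]
      rw [← act_mul, a2, act_one]
    have hu := unipotent_trivial ρ hG hρ TD h Ω' _ _ hu1 hu2 hu3 hu4
    have hk : k₁ = k₂ := by
      calc k₁ = k₁ * (k₁' * k₂) := by rw [hu, mul_one]
        _ = k₂ := by rw [← mul_assoc, a1, one_mul]
    have hk' : k₁' = k₂' := by
      calc k₁' = k₁' * (k₂ * k₂') := by rw [b1, mul_one]
        _ = k₂' := by rw [← mul_assoc, hu, one_mul]
    have hfin : ∀ f (hf : f ∈ C), χ₁ ⟨f, hf⟩ = χ₂ ⟨f, hf⟩ := by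
      intro f hf
      refine Algebra.adjoin_induction (p := fun f hf => χ₁ ⟨f, hf⟩ = χ₂ ⟨f, hf⟩) ?_ ?_ ?_ ?_ hf
      · rintro _ (⟨i, j, rfl⟩ | ⟨i, j, rfl⟩)
        · exact congrFun (congrFun hk i) j
        · exact congrFun (congrFun hk' i) j
      · intro z
        exact (χ₁.commutes z).trans (χ₂.commutes z).symm
      · intro a b ha hb ha' hb'
        have e3 := map_add χ₁ (⟨a, ha⟩ : C) ⟨b, hb⟩
        have e4 := map_add χ₂ (⟨a, ha⟩ : C) ⟨b, hb⟩
        exact e3.trans ((congrArg₂ (· + ·) ha' hb').trans e4.symm)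
      · intro a b ha hb ha' hb'
        have e3 := map_mul χ₁ (⟨a, ha⟩ : C) ⟨b, hb⟩
        have e4 := map_mul χ₂ (⟨a, ha⟩ : C) ⟨b, hb⟩
        exact e3.trans ((congrArg₂ (· * ·) ha' hb').trans e4.symm)
    ext ⟨f, hf⟩
    exact hfin f hf
  have hfinal := hm i j
  rw [hCC₀] at hfinal
  exact hfinal

end Pool.Agent.Lib.MP_666dc0_nt.IG
end

section

open MvPolynomial

namespace Pool.Agent.Lib.MP_666dc0_nt.IG

variable {O : Type} [CommRing O] [HopfAlgebra ℚ O] {Γ : Type} [Group Γ] {A : HopfAction Γ O}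
  {n : ℕ} (ρ : MatRep A n)

/-- There is a point with the right values over some extension field, general form. -/
theorem exists_point_gen {G : Red n} (hG : IsRedG ρ G) (hρ : Faithful ρ) (TD : TensorData G)
    {K : Type} [Field K] [IsAlgClosed K] [CharZero K] [Algebra ℚ K] {E : Type} [CommRing E]
    [Algebra ℚ E] (r : Γ →* A.LGroup E) (hr : ∀ γ, (r γ).right = γ) (B : Subalgebra ℚ E)
    (hB : ∀ γ, ∀ f ∈ A.inv γ, (r γ).left.hom f ∈ B) (y : B →+* K) (V : Γ → O → K)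
    (hV : ∀ γ f (hf : f ∈ A.inv γ), V γ f = y ⟨_, hB γ f hf⟩) :
    ∃ (Ω : Type) (_ : Field Ω) (_ : Algebra ℚ Ω) (_ : Algebra K Ω) (r' : Γ →* A.LGroup Ω),
      HasVal A V Ω r' := by
  -- the invariant polynomial functions are integral
  let τ : (mats (Γ ⊕ Γ)).Ix n → E := toMats (fam ρ r)
  obtain ⟨B', y', hB', hy'⟩ := extend_integral B.toSubring (show B.toSubring →+* K from y)
  have hB'' : ∀ p : MvPolynomial ((mats (Γ ⊕ Γ)).Ix n) ℚ, IsInv G p → aeval τ p ∈ B' := by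
    intro p hp
    exact hB' _ (integral_fam_gen ρ hG TD r hr B hB p hp)
  obtain ⟨Ω, i1, i2, i3, t, ht1, ht2⟩ := lift_point G τ B' y' hB''
  obtain ⟨v, rfl⟩ := exists_toMats t
  obtain ⟨w, hw1, hw2, hw3⟩ := hom_of_relations_gen ρ hG r hr v ht2
  obtain ⟨r', hr', hev⟩ := exists_hom ρ hG hρ w hw3
  refine ⟨Ω, i1, i2, i3, r', hr', fun γ f hf => ?_⟩
  obtain ⟨p, hp, hpf⟩ := exists_polyG ρ hG hρ γ f hf
  let i : Bool → Γ ⊕ Γ := fun b => match b with | false => Sum.inl γ | true => Sum.inr γ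
  have hq : IsInv G (rename (ixMap (n := n) i) p) := by
    intro R _ _ k k' hk u
    obtain ⟨u, rfl⟩ := exists_toMats u
    rw [act_toMats, aeval_rename_ixMap, aeval_rename_ixMap, ← act_toMats]
    exact hp R k k' hk _
  have h1 := ht1 _ hq
  have h2 : aeval (toMats v) (rename (ixMap i) p) = (r' γ).left.hom f := by
    rw [aeval_rename_ixMap, ← hpf Ω (r' γ) (hr' γ)]
    congr 1
    congr 2
    funext b
    cases b with
    | false => exact (hw1 γ).symm.trans (hev γ).symm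
    | true =>
      rw [← map_inv]
      exact (hw2 γ).symm.trans (hev γ⁻¹).symm
  have h3 : aeval τ (rename (ixMap i) p) = (r γ).left.hom f := by
    rw [aeval_rename_ixMap, ← hpf E (r γ) (hr γ)]
    congr 1
    congr 2
    funext b
    cases b with
    | false => rfl
    | true => rfl
  rw [← h2, h1, hV γ f hf]
  congr 1
  have h5 : (r γ).left.hom f ∈ B' := by
    rw [← h3]
    exact hB'' _ hq
  have h4 := hy' ⟨_, hB γ f hf⟩ h5
  refine Eq.trans ?_ h4
  congr 1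
  exact Subtype.ext h3

/-- The core theorem for a homomorphism with values in `ᴸG(E)`, `E` any `ℚ`-algebra. -/
theorem core_gen {G : Red n} (hG : IsRedG ρ G) (hρ : Faithful ρ) (TD : TensorData G)
    (hfin : (Set.range A.act).Finite) {K : Type} [Field K] [IsAlgClosed K] [CharZero K]
    [Algebra ℚ K] {E : Type} [CommRing E] [Algebra ℚ E] (r : Γ →* A.LGroup E)
    (hr : ∀ γ, (r γ).right = γ) (B : Subalgebra ℚ E)
    (hB : ∀ γ, ∀ f ∈ A.inv γ, (r γ).left.hom f ∈ B) (y : B →+* K) (V : Γ → O → K)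
    (hV : ∀ γ f (hf : f ∈ A.inv γ), V γ f = y ⟨_, hB γ f hf⟩) :
    ∃ (N : ℕ) (e : Fin N → Γ) (Gi : Matrix (Fin N) (Fin N) K) (r' : Γ →* A.LGroup K),
      sg ρ V e Gi 1 = 1 ∧ (∀ γ δ, sg ρ V e Gi (γ * δ) = sg ρ V e Gi γ * sg ρ V e Gi δ) ∧
      HasVal A V K r' ∧ ∀ i j, (fun γ => ρ.ev K (r' γ) i j) ∈ FK A (sg ρ V e Gi) := by
  obtain ⟨Ω, _, _, _, r₁, hclosed, hmin⟩ :=
    exists_min ρ (exists_point_gen ρ hG hρ TD r hr B hB y V hV)
  obtain ⟨N, e, Gi, hGi, h1, hmul, hnil⟩ := exists_sigma ρ hmin.val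
  have h2 := entries_mem ρ hG hρ TD hmin e Gi hGi h1 hmul hnil
  have h3 := entries_mem_span ρ hfin r₁ (sg ρ V e Gi) h1 hmul h2
  obtain ⟨r', hr', hmem⟩ := descend ρ hG hρ hmin.val (FK A (sg ρ V e Gi)) h3
  exact ⟨N, e, Gi, r', h1, hmul, hr', hmem⟩

end Pool.Agent.Lib.MP_666dc0_nt.IG
end
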