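import Mathlib

section

end

section

/-! # Part H, file 1: primes of `C` over a minimal prime of `C₀` -/

set_option autoImplicit false

namespace Pool.Agent.Lib.MP_666dc0_nt.IG

/-- If `g` lies in all primes of `C` over the minimal prime `q` of `C₀ ⊂ C`, `C` reduced, then `s g = 0`
for some `s ∈ C₀ \ q`. Proof: let `M` be the multiplicative set of all `s g^k`, `s ∉ q`. If `0 ∉ M` there is
a prime `Q` of `C` disjoint from `M` (`Ideal.exists_le_prime_disjoint` with `I = ⊥`); `Q ∩ C₀` is a prime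
contained in `q`, so equal to `q` by minimality, so `g ∈ Q`, but `g ∈ M`. So `s g^k = 0`, hence
`(s g)^(k+1) = 0` and `s g = 0`. -/
theorem H_mult {C₀ C : Type} [CommRing C₀] [CommRing C] [Algebra C₀ C] [IsReduced C]
    (q : Ideal C₀) (hq : q ∈ minimalPrimes C₀) (g : C)
    (hg : ∀ Q : Ideal C, Q.IsPrime → Q.comap (algebraMap C₀ C) = q → g ∈ Q) :
    ∃ s : C₀, s ∉ q ∧ algebraMap C₀ C s * g = 0 := by
  have hp : q.IsPrime := hq.1.1
  let M : Submonoid C :=
    { carrier := {x | ∃ s : C₀, s ∉ q ∧ ∃ k : ℕ, x = algebraMap C₀ C s * g ^ k}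
      one_mem' := ⟨1, fun h => hp.ne_top ((Ideal.eq_top_iff_one q).mpr h), 0, by simp⟩
      mul_mem' := by
        rintro x y ⟨s, hs, k, rfl⟩ ⟨t, ht, l, rfl⟩
        exact ⟨s * t, hp.mul_notMem hs ht, k + l, by rw [map_mul, pow_add]; ring⟩ }
  by_cases h0 : (0 : C) ∈ M
  · obtain ⟨s, hs, k, hk⟩ := h0
    refine ⟨s, hs, ?_⟩
    have h1 : (algebraMap C₀ C s * g) ^ (k + 1) = 0 := by
      have : (algebraMap C₀ C s * g) ^ (k + 1) =
          (algebraMap C₀ C s * g ^ k) * (algebraMap C₀ C s ^ k * g) := by ring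
      rw [this, ← hk, zero_mul]
    exact eq_zero_of_pow_eq_zero h1
  · exfalso
    have hd : Disjoint ((⊥ : Ideal C) : Set C) (M : Set C) := by
      rw [Set.disjoint_left]
      intro x hx hxM
      have : x = 0 := by simpa using hx
      rw [this] at hxM
      exact h0 hxM
    obtain ⟨Q, hQ, -, hQM⟩ := Ideal.exists_le_prime_disjoint ⊥ M hd
    rw [Set.disjoint_left] at hQM
    have hle : Q.comap (algebraMap C₀ C) ≤ q := by
      intro x hx
      by_contra hxq
      exact hQM hx ⟨x, hxq, 0, by simp⟩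
    have hpr : (Q.comap (algebraMap C₀ C)).IsPrime := Ideal.comap_isPrime _ _
    have heq : Q.comap (algebraMap C₀ C) = q := le_antisymm hle (hq.2 ⟨hpr, bot_le⟩ hle)
    exact hQM (hg Q hQ heq) ⟨1, fun h => hp.ne_top ((Ideal.eq_top_iff_one q).mpr h), 1, by simp⟩

end Pool.Agent.Lib.MP_666dc0_nt.IG
end

section

/-! # Part H, file 2: a point of `C` over the algebraic closure of the residue field of `q` -/

set_option autoImplicit false

namespace Pool.Agent.Lib.MP_666dc0_nt.IG

private theorem H2_point_aux (L E : Type) [Field L] [CommRing E] [Algebra L E] [Nontrivial E]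
    [Algebra.FiniteType L E] : Nonempty (E →ₐ[L] AlgebraicClosure L) := by
  obtain ⟨m, hm⟩ := Ideal.exists_maximal E
  letI : Field (E ⧸ m) := Ideal.Quotient.field m
  have : Algebra.FiniteType L (E ⧸ m) :=
    Algebra.FiniteType.of_surjective (Ideal.Quotient.mkₐ L m) (Ideal.Quotient.mkₐ_surjective _ _)
  have : Module.Finite L (E ⧸ m) := finite_of_finite_type_of_isJacobsonRing _ _
  exact ⟨(IsAlgClosed.lift : (E ⧸ m) →ₐ[L] AlgebraicClosure L).comp (Ideal.Quotient.mkₐ L m)⟩

/-- `C₀ ⊂ C`, `C` of finite type over the field `Ω`, `q` a minimal prime of `C₀`, `L = Frac(C₀/q)`: there is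
a homomorphism from `C` to the algebraic closure of `L` extending `C₀ → L`.
Proof: there is a prime `Q` of `C` over `q` (`Ideal.exists_comap_eq_of_mem_minimalPrimes_of_injective`).
The `L`-algebra `E = L ⊗_{C₀} C` is nonzero, since `L` and `C` map compatibly to `Frac(C/Q)`, and of finite
type over `L` (`Algebra.FiniteType.baseChange`, `C` is of finite type over `C₀` because it is over `Ω`:
`Algebra.FiniteType.of_restrictScalars_finiteType`). For a maximal ideal `m` of `E` the field `E/m` is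
finite over `L` (`finite_of_finite_type_of_isJacobsonRing`) and so embeds in the algebraic closure
(`IsAlgClosed.lift`). -/
theorem H_point {Ω C₀ C : Type} [Field Ω] [CommRing C₀] [CommRing C] [Algebra Ω C₀] [Algebra Ω C]
    [Algebra C₀ C] [IsScalarTower Ω C₀ C] [Algebra.FiniteType Ω C]
    (hinj : Function.Injective (algebraMap C₀ C)) (q : Ideal C₀) [q.IsPrime]
    (hq : q ∈ minimalPrimes C₀) :
    ∃ χ : C →+* AlgebraicClosure (FractionRing (C₀ ⧸ q)), ∀ x : C₀, χ (algebraMap C₀ C x) =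
      algebraMap (FractionRing (C₀ ⧸ q)) (AlgebraicClosure (FractionRing (C₀ ⧸ q)))
        (algebraMap (C₀ ⧸ q) (FractionRing (C₀ ⧸ q)) (Ideal.Quotient.mk q x)) := by
  classical
  have : Algebra.FiniteType C₀ C := Algebra.FiniteType.of_restrictScalars_finiteType Ω C₀ C
  obtain ⟨Q, hQ, hQq⟩ := Ideal.exists_comap_eq_of_mem_minimalPrimes_of_injective hinj q hq
  have hmap : ∀ x : C₀, algebraMap C₀ (FractionRing (C₀ ⧸ q)) x =
      algebraMap (C₀ ⧸ q) (FractionRing (C₀ ⧸ q)) (Ideal.Quotient.mk q x) := fun x => rfl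
  have hφ : Function.Injective (Ideal.quotientMap Q (algebraMap C₀ C) (le_of_eq hQq.symm)) :=
    Ideal.quotientMap_injective' (le_of_eq hQq)
  have hφ' : Function.Injective ((algebraMap (C ⧸ Q) (FractionRing (C ⧸ Q))).comp
      (Ideal.quotientMap Q (algebraMap C₀ C) (le_of_eq hQq.symm))) :=
    (IsFractionRing.injective (C ⧸ Q) (FractionRing (C ⧸ Q))).comp hφ
  let i : FractionRing (C₀ ⧸ q) →+* FractionRing (C ⧸ Q) := IsFractionRing.lift hφ'
  have hi : ∀ x : C₀, i (algebraMap C₀ (FractionRing (C₀ ⧸ q)) x) =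
      algebraMap C₀ (FractionRing (C ⧸ Q)) x := by
    intro x
    rw [hmap]
    exact IsFractionRing.lift_algebraMap hφ' _
  let i' : FractionRing (C₀ ⧸ q) →ₐ[C₀] FractionRing (C ⧸ Q) := { i with commutes' := hi }
  let j' : C →ₐ[C₀] FractionRing (C ⧸ Q) := Algebra.ofId C (FractionRing (C ⧸ Q)) |>.restrictScalars C₀
  have : Nontrivial (TensorProduct C₀ (FractionRing (C₀ ⧸ q)) C) :=
    (Algebra.TensorProduct.productMap i' j').toRingHom.domain_nontrivial
  obtain ⟨l⟩ := H2_point_aux (FractionRing (C₀ ⧸ q)) (TensorProduct C₀ (FractionRing (C₀ ⧸ q)) C)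
  refine ⟨l.toRingHom.comp (Algebra.TensorProduct.includeRight : C →ₐ[C₀] _).toRingHom,
    fun x => ?_⟩
  have h1 : (Algebra.TensorProduct.includeRight : C →ₐ[C₀] TensorProduct C₀
      (FractionRing (C₀ ⧸ q)) C) (algebraMap C₀ C x) =
      algebraMap (FractionRing (C₀ ⧸ q)) (TensorProduct C₀ (FractionRing (C₀ ⧸ q)) C)
        (algebraMap C₀ (FractionRing (C₀ ⧸ q)) x) := by
    rw [AlgHom.commutes, ← IsScalarTower.algebraMap_apply]
  have h2 : l (algebraMap (FractionRing (C₀ ⧸ q))
      (TensorProduct C₀ (FractionRing (C₀ ⧸ q)) C) (algebraMap C₀ (FractionRing (C₀ ⧸ q)) x)) =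
      algebraMap (FractionRing (C₀ ⧸ q)) (AlgebraicClosure (FractionRing (C₀ ⧸ q)))
        (algebraMap C₀ (FractionRing (C₀ ⧸ q)) x) := l.commutes _
  rw [← hmap, ← h2, ← h1]
  rfl

end Pool.Agent.Lib.MP_666dc0_nt.IG
end
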