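import Pool.Agent.Lib.MP_666dc0_nt.IG.C5c
import Pool.Agent.Lib.MP_666dc0_nt.Mg.G028
import Pool.Agent.Lib.MP_666dc0_nt.Mg.G034
import Pool.Agent.Lib.MP_666dc0_nt.Mg.G024
import Pool.Agent.Lib.MP_666dc0_nt.Mg.G015
import Pool.Agent.Lib.MP_666dc0_nt.Mg.G036
import Pool.Agent.Lib.MP_666dc0_nt.Mg.G033
import Pool.Agent.Lib.MP_666dc0_nt.Mg.G020

section

open MvPolynomial

namespace Pool.Agent.Lib.MP_666dc0_nt.IG

variable {n : ℕ} {s : Shape}

/-- C6 (HMK): `hmi` followed by `kempf` with the thresholds `1` on `thr` and `0` elsewhere. For an inverse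
pair `(u, u')` over `K` with `act u u' t = mix D t` the pair `(u.map, u'.map)` over `κ` satisfies the
hypothesis of `kempf`. -/
theorem hmk [s.Small] {K : Type} [Field K] [CharZero K] [Algebra ℚ K] (thr : s.β → Prop)
    (t : s.Ix n → K)
    (hinv : ∀ p : MvPolynomial (s.Ix n) ℚ, IsInv (redGL n) p → aeval t p = aeval (kill thr t) p) :
    ∃ (κ : Type) (_ : Field κ) (_ : Algebra K κ) (g g' : Matrix (Fin n) (Fin n) κ)
      (lam : Fin n → ℝ), g * g' = 1 ∧ g' * g = 1 ∧
      (∀ x, act g g' (fun y => algebraMap K κ (t y)) x ≠ 0 →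
        0 ≤ wt lam x ∧ (thr x.1 → 1 ≤ wt lam x)) ∧
      ∀ u u' : Matrix (Fin n) (Fin n) K, u * u' = 1 → u' * u = 1 →
        (∃ D : (b : s.β) → s.C b → s.C b → K, act u u' t = mix D t) →
        InP lam (g * u.map (algebraMap K κ) * g') := by
  classical
  obtain ⟨κ, hF, hAlg, g, g', lam, hg, hg', hw⟩ := hmi thr t hinv
  obtain ⟨g₂, g₂', lam₂, h1, h2, h3, h4⟩ := kempf (fun y => algebraMap K κ (t y))
    (fun b => if thr b then (1 : ℝ) else 0) ⟨g, g', lam, hg, hg', fun x hx => by
      obtain ⟨h5, h6⟩ := hw x hx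
      by_cases h7 : thr x.1
      · simp only [h7, if_true]
        exact h6 h7
      · simp only [h7, if_false]
        exact h5⟩
  refine ⟨κ, hF, hAlg, g₂, g₂', lam₂, h1, h2, fun x hx => ?_, ?_⟩
  · have h5 := h3 x hx
    by_cases h7 : thr x.1
    · simp only [h7, if_true] at h5
      exact ⟨zero_le_one.trans h5, fun _ => h5⟩
    · simp only [h7, if_false] at h5
      exact ⟨h5, fun h8 => absurd h8 h7⟩
  · rintro u u' hu hu' ⟨D, hD⟩
    refine h4 (u.map (algebraMap K κ)) (u'.map (algebraMap K κ)) ?_ ?_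
      ⟨fun b c c' => algebraMap K κ (D b c c'), ?_⟩
    · rw [← Matrix.map_mul, hu, Matrix.map_one _ (map_zero _) (map_one _)]
    · rw [← Matrix.map_mul, hu', Matrix.map_one _ (map_zero _) (map_one _)]
    · funext x
      rw [← map_act, hD]
      simp only [mix, map_sum, map_mul]

end Pool.Agent.Lib.MP_666dc0_nt.IG
end

section

open MvPolynomial

namespace Pool.Agent.Lib.MP_666dc0_nt.IG

variable {n : ℕ} {s : Shape}

/-- N1. Under `TICond`, if all `GL_n`-invariant rational polynomials in the tensors take the same value at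
`T` and at `0`, then every invariant of matrices and tensors takes the same value at `(v, T)` and `(v, 0)`.
Proof: `hmk` for `t = T`, `thr = True` gives `κ ⊇ K`, `g, g', lam`; `g v_m g' ∈ P(lam)` for all
`m : M ⊕ M` (for `Sum.inr m` use that the inverse pair `(v' m, v m)` satisfies
`act v' v T = mix D' T` for some `D'`: here `D'` need not exist if `D` is singular, so instead use that the
inverse of an element of `P(lam)` is in `P(lam)`: `InP_inv` below). The family `toTot v T` transforms to
`toTot (g v g') (act g g' T)`, supported in weights `≥ 0` (`supp_toTot`), with weight zero part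
`toTot (lv (g v g')) 0` since all weights of `act g g' T` are `≥ 1`; the family `toTot v 0` has the same
limit. Conclude with `lim_invariant` and the invariance of `p` under `(g, g')`. -/
theorem n1 [s.Small] {K : Type} [Field K] [CharZero K] [Algebra ℚ K] {M : Type} [Fintype M]
    (D : M → (b : s.β) → s.C b → s.C b → ℚ) (v : M ⊕ M → Matrix (Fin n) (Fin n) K)
    (T : s.Ix n → K) (hc : TICond s D v T)
    (hinv : ∀ q : MvPolynomial (s.Ix n) ℚ, IsInv (redGL n) q → aeval T q = aeval (0 : s.Ix n → K) q)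
    (p : MvPolynomial ((tot (M ⊕ M) s).Ix n) ℚ) (hp : IsInv (redGL n) p) :
    aeval (toTot v T) p = aeval (toTot v 0) p := by
  have hkill : kill (fun _ : s.β => True) T = 0 := by
    funext x
    simp [kill]
  obtain ⟨κ, i1, i2, g, g', lam, hgg', hg'g, hsup, hP⟩ := hmk (fun _ : s.β => True) T
    (fun q hq => by rw [hkill]; exact hinv q hq)
  let _ : Algebra ℚ κ := ((algebraMap K κ).comp (algebraMap ℚ K)).toAlgebra
  have hst : IsScalarTower ℚ K κ := IsScalarTower.of_algebraMap_eq fun _ => rfl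
  let φ : K →+* κ := algebraMap K κ
  let V : M ⊕ M → Matrix (Fin n) (Fin n) κ := fun m => g * (v m).map φ * g'
  have hinl : ∀ m : M, InP lam (V (Sum.inl m)) := fun m =>
    hP _ _ (hc m).1 (hc m).2.1 ⟨_, (hc m).2.2⟩
  have hmul : ∀ a b : M ⊕ M, v a * v b = 1 → V a * V b = 1 := by
    intro a b hab
    have h1 : (v a).map φ * (v b).map φ = 1 := by
      rw [← Matrix.map_mul, hab, Matrix.map_one _ (map_zero _) (map_one _)]
    calc V a * V b = g * ((v a).map φ * (g' * g) * (v b).map φ) * g' := by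
          simp only [V]; noncomm_ring
      _ = 1 := by rw [hg'g, mul_one, h1, mul_one, hgg']
  have hV : ∀ m, InP lam (V m) := by
    rintro (m | m)
    · exact hinl m
    · exact InP_inv (hmul _ _ (hc m).1) (hmul _ _ (hc m).2.1) (hinl m)
  have hred : (redGL n).In κ g g' := redGL_In.2 ⟨hgg', hg'g⟩
  have key : ∀ U : s.Ix n → K, (∀ x, act g g' (fun y => φ (U y)) x ≠ 0 → 1 ≤ wt lam x) →
      φ (aeval (toTot v U) p) = aeval (toTot (fun m => lv lam (V m)) (0 : s.Ix n → κ)) p := by
    intro U hU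
    have h2 : φ (aeval (toTot v U) p) = aeval (fun x => φ (toTot v U x)) p :=
      (aeval_algebraMap_apply κ (toTot v U) p).symm
    have h3 : (fun x => φ (toTot v U x)) = toTot (fun m => (v m).map φ) (fun x => φ (U x)) :=
      map_toTot φ v U
    have h4 : aeval (toTot (fun m => (v m).map φ) (fun x => φ (U x))) p =
        aeval (act g g' (toTot (fun m => (v m).map φ) (fun x => φ (U x)))) p :=
      (hp κ g g' hred _).symm
    have h5 : wtZero lam (act g g' (fun x => φ (U x))) = (0 : s.Ix n → κ) := by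
      funext x
      simp only [wtZero, Pi.zero_apply, ite_eq_right_iff]
      intro hx
      by_contra hne
      have := hU x hne
      rw [hx] at this
      exact absurd this (by norm_num)
    rw [h2, h3, h4, act_toTot, lim_invariant p hp _ lam, wtZero_toTot, h5]
    exact supp_toTot hV fun x hx => zero_le_one.trans (hU x hx)
  have hφ : Function.Injective φ := φ.injective
  apply hφ
  rw [key T (fun x hx => (hsup x hx).2 trivial), key 0 (fun x hx => ?_)]
  exfalso
  apply hx
  have h6 : (fun y : s.Ix n => φ ((0 : s.Ix n → K) y)) = 0 := by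
    funext y
    exact map_zero φ
  rw [h6, act_zero]
  rfl

end Pool.Agent.Lib.MP_666dc0_nt.IG
end

section

open MvPolynomial

namespace Pool.Agent.Lib.MP_666dc0_nt.IG

variable {n : ℕ} {s : Shape}

private theorem TIe_rename {M : Type} {q : MvPolynomial (s.Ix n) ℚ} {d : ℕ}
    (hq : IsWeightedHomogeneous (fun _ : s.Ix n => 1) q d) :
    IsWeightedHomogeneous (fun x : (tot M s).Ix n =>
      (Sum.elim (fun _ => 0) (fun _ => 1) : Unit ⊕ s.β → ℕ) x.1) (rename (ixR (M := M)) q) d := by
  intro e he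
  obtain ⟨u, hu, hu'⟩ := coeff_rename_ne_zero _ _ _ he
  rw [← hu, ← hq hu']
  simp only [Finsupp.weight_apply]
  rw [Finsupp.sum_mapDomain_index (by simp) (by intros; rw [add_smul])]
  rfl

private theorem TIe_eval {K : Type} [Field K] [CharZero K] {σ : Type} (q : MvPolynomial σ ℚ)
    {T : σ → K} (h : ∀ d, 0 < d →
      aeval T (weightedHomogeneousComponent (fun _ : σ => 1) d q) = 0) :
    aeval T q = aeval (0 : σ → K) q := by
  have h0 : ∀ d, 0 < d → aeval (0 : σ → K)
      (weightedHomogeneousComponent (fun _ : σ => 1) d q) = 0 := by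
    intro d hd
    have h1 : coeff 0 (weightedHomogeneousComponent (fun _ : σ => 1) d q) = 0 := by
      rw [coeff_weightedHomogeneousComponent, if_neg]
      rw [map_zero]
      exact hd.ne
    rw [aeval_zero, constantCoeff_eq, h1, map_zero]
  have hz : aeval T (weightedHomogeneousComponent (fun _ : σ => 1) 0 q) =
      aeval (0 : σ → K) (weightedHomogeneousComponent (fun _ : σ => 1) 0 q) := by
    rw [weightedHomogeneousComponent_zero q (fun _ => one_ne_zero), aeval_C, aeval_C]
  have hs : ∀ t : σ → K, (∀ d, 0 < d →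
      aeval t (weightedHomogeneousComponent (fun _ : σ => 1) d q) = 0) →
      aeval t q = aeval t (weightedHomogeneousComponent (fun _ : σ => 1) 0 q) := by
    intro t ht
    have h2 := finsum_weightedHomogeneousComponent (fun _ : σ => 1) q
    have h3 : (Function.support fun m => weightedHomogeneousComponent (fun _ : σ => 1) m q).Finite :=
      weightedHomogeneousComponent_finsupp q
    conv_lhs => rw [← h2]
    rw [map_finsum (aeval t) h3]
    refine finsum_eq_single _ 0 fun d hd => ht d (Nat.pos_of_ne_zero hd)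
  rw [hs T h, hs 0 h0, hz]

/-- Theorem I, graded form. `graded_integral` for `G = redGL n`, the shape `tot (M ⊕ M) s`, the degrees
`w = 0` on matrices and `1` on tensors, `Z = {toTot v T | TICond s D v T}` and
`S = {rename ixR q | q invariant, homogeneous of positive degree}`; `hnull` is `n1` (an invariant `q` of the
tensors is the sum of its homogeneous components, all invariant (`isInv_component`), and those of positive
degree vanish at `T` by assumption and at `0`). The invariants of degree zero come from `(mats (M ⊕ M))`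
(`exists_of_degree_zero`). -/
theorem theorem_I_graded [s.Small] {K : Type} [Field K] [IsAlgClosed K] [CharZero K] [Algebra ℚ K]
    {M : Type} [Fintype M] (D : M → (b : s.β) → s.C b → s.C b → ℚ)
    (p : MvPolynomial ((tot (M ⊕ M) s).Ix n) ℚ) (hp : IsInv (redGL n) p) :
    ∃ (N : ℕ) (a : Fin N → MvPolynomial ((tot (M ⊕ M) s).Ix n) ℚ),
      (∀ i, a i ∈ Algebra.adjoin ℚ
        ({q | ∃ q₀ : MvPolynomial (s.Ix n) ℚ, IsInv (redGL n) q₀ ∧ q = rename ixR q₀} ∪
         {q | ∃ q₀ : MvPolynomial ((mats (M ⊕ M)).Ix n) ℚ, IsInv (redGL n) q₀ ∧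
            q = rename ixL q₀})) ∧
      ∀ (v : M ⊕ M → Matrix (Fin n) (Fin n) K) (T : s.Ix n → K), TICond s D v T →
        aeval (toTot v T) (p ^ N + ∑ i, a i * p ^ (i : ℕ)) = 0 := by
  obtain rfl : ‹Algebra ℚ K› = DivisionRing.toRatAlgebra := Subsingleton.elim _ _
  let w : (tot (M ⊕ M) s).β → ℕ := (Sum.elim (fun _ => 0) (fun _ => 1) : Unit ⊕ s.β → ℕ)
  let Z : Set ((tot (M ⊕ M) s).Ix n → K) := {t | ∃ v T, TICond s D v T ∧ t = toTot v T}
  let S : Set (MvPolynomial ((tot (M ⊕ M) s).Ix n) ℚ) := {q | ∃ (q₀ : MvPolynomial (s.Ix n) ℚ)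
    (d : ℕ), 0 < d ∧ IsInv (redGL n) q₀ ∧
      IsWeightedHomogeneous (fun _ : s.Ix n => 1) q₀ d ∧ q = rename ixR q₀}
  obtain ⟨N, a, ha, hrel⟩ := graded_integral (redGL n) (tot (M ⊕ M) s) w K Z
    (by
      rintro t ⟨v, T, hc, rfl⟩ k k' hk
      obtain ⟨h1, h2⟩ := redGL_In.1 hk
      exact ⟨_, _, ticond_act D v T hc k k' h1 h2, act_toTot k k' v T⟩)
    (by
      rintro t ⟨v, T, hc, rfl⟩ c
      refine ⟨v, c • T, ticond_smul D v T hc c, ?_⟩
      funext x
      match x with
      | ⟨Sum.inl _, m, I, J⟩ =>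
        change c ^ 0 * _ = _
        rw [pow_zero, one_mul]
        rfl
      | ⟨Sum.inr b, c', I, J⟩ =>
        change c ^ 1 * _ = _
        rw [pow_one]
        rfl)
    (fun t ht => ticond_closed D t fun p hp' => ht p (by
      rintro t' ⟨v, T, hc, rfl⟩
      exact hp' v T hc))
    S (by
      rintro q ⟨q₀, d, hd, hq, hw, rfl⟩
      exact isInv_rename_ixR hq)
    (by
      rintro q ⟨q₀, d, hd, hq, hw, rfl⟩
      exact ⟨d, hd, TIe_rename hw⟩)
    (by
      rintro t ⟨v, T, hc, rfl⟩ hS p hp
      have hkill : kill (fun b => 0 < w b) (toTot v T) = toTot v (0 : s.Ix n → K) := by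
        funext x
        match x with
        | ⟨Sum.inl _, m, I, J⟩ =>
          have h1 : ¬ (0 < w (Sum.inl ())) := lt_irrefl 0
          simp only [kill]
          exact if_neg h1
        | ⟨Sum.inr b, c', I, J⟩ =>
          have h1 : 0 < w (Sum.inr b) := Nat.one_pos
          simp only [kill]
          exact if_pos h1
      rw [hkill]
      refine n1 D v T hc (fun q hq => ?_) p hp
      exact TIe_eval q (fun d hd => by
        have h2 := hS (rename ixR (weightedHomogeneousComponent (fun _ : s.Ix n => 1) d q))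
          ⟨_, d, hd, isInv_component (redGL n) (fun _ => 1) q hq d,
            weightedHomogeneousComponent_isWeightedHomogeneous _ _, rfl⟩
        rwa [aeval_rename_ixR] at h2))
    p hp
  refine ⟨N, a, fun i => Algebra.adjoin_mono ?_ (ha i), fun v T hc => hrel _ ⟨v, T, hc, rfl⟩⟩
  rintro q (⟨q₀, d, hd, hq, hw, rfl⟩ | ⟨hq, hw⟩)
  · exact Or.inl ⟨q₀, hq, rfl⟩
  · obtain ⟨q₀, hq₀, rfl⟩ := exists_of_degree_zero hq hw
    exact Or.inr ⟨q₀, hq₀, rfl⟩

end Pool.Agent.Lib.MP_666dc0_nt.IG
end

section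

open MvPolynomial

namespace Pool.Agent.Lib.MP_666dc0_nt.IG

variable {n : ℕ} {s : Shape}

/-- The null cone of the invariants of matrices. -/
private theorem W1c_null {K : Type} [Field K] [Algebra ℚ K] [CharZero K] {M : Type}
    (t : (mats M).Ix n → K)
    (ht : ∀ l : List M, l ≠ [] → aeval t (wtr n l) = 0) (p : MvPolynomial ((mats M).Ix n) ℚ)
    (hp : IsInv (redGL n) p) : aeval t p = aeval (0 : (mats M).Ix n → K) p := by
  obtain ⟨v, rfl⟩ := exists_toMats t
  obtain ⟨g, g', hg, hg', hv⟩ := strictly_triangular v (fun l hl => by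
    rw [← aeval_wtr]
    exact ht l hl)
  have hwt : ∀ x : (mats M).Ix n, act g g' (toMats v) x ≠ 0 →
      0 < wt (fun a : Fin n => (a : ℝ)) x := by
    rintro ⟨u, m, I, J⟩ hx
    rw [act_toMats] at hx
    have h1 := hv m (I (0 : Fin 1)) (J (0 : Fin 1)) hx
    have h2 : ((J (0 : Fin 1) : ℕ) : ℝ) < ((I (0 : Fin 1) : ℕ) : ℝ) := by exact_mod_cast h1
    have h3 : wt (fun a : Fin n => ((a : ℕ) : ℝ)) (⟨u, m, I, J⟩ : (mats M).Ix n) =
        ((I (0 : Fin 1) : ℕ) : ℝ) - ((J (0 : Fin 1) : ℕ) : ℝ) := by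
      change ∑ i : Fin 1, ((I i : ℕ) : ℝ) - ∑ j : Fin 1, ((J j : ℕ) : ℝ) = _
      rw [Fin.sum_univ_one, Fin.sum_univ_one]
    rw [h3]
    linarith
  have h0 : wtZero (fun a : Fin n => (a : ℝ)) (act g g' (toMats v)) = 0 := by
    funext x
    by_cases hx : act g g' (toMats v) x = 0
    · simp only [wtZero, hx, ite_self, Pi.zero_apply]
    · have h1 := (hwt x hx).ne'
      simp only [wtZero, h1, if_false, Pi.zero_apply]
  rw [← hp K g g' (redGL_In.mpr ⟨hg, hg'⟩) (toMats v),
    lim_invariant p hp (act g g' (toMats v)) (fun a : Fin n => (a : ℝ))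
      (fun x hx => (hwt x hx).le), h0]

private theorem W1c_const {M : Type} (q : MvPolynomial ((mats M).Ix n) ℚ)
    (hq : IsWeightedHomogeneous (fun _ : (mats M).Ix n => 1) q 0) : q = C (coeff 0 q) := by
  classical
  ext d
  rw [coeff_C]
  split_ifs with h
  · rw [h]
  · by_contra hc
    have h1 := hq hc
    rw [Finsupp.weight_apply, Finsupp.sum] at h1
    apply h
    symm
    ext x
    by_contra hx
    have h2 : x ∈ d.support := Finsupp.mem_support_iff.mpr hx
    have h3 := (Finset.sum_eq_zero_iff.mp h1) x h2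
    simp only [smul_eq_mul, mul_one] at h3
    exact hx h3

private theorem W1c_aux (K : Type) [Field K] [IsAlgClosed K] [CharZero K] {M : Type} [Fintype M]
    (p : MvPolynomial ((mats M).Ix n) ℚ) (hp : IsInv (redGL n) p) :
    ∃ (N : ℕ) (a : Fin N → MvPolynomial ((mats M).Ix n) ℚ),
      (∀ i, a i ∈ Algebra.adjoin ℚ {q | ∃ l : List M, q = wtr n l}) ∧
      p ^ N + ∑ i, a i * p ^ (i : ℕ) = 0 := by
  obtain ⟨N, a, ha, h⟩ := graded_integral (redGL n) (mats M) (fun _ => 1) K Set.univ
    (fun _ _ _ _ _ => Set.mem_univ _) (fun _ _ _ => Set.mem_univ _) (fun _ _ => Set.mem_univ _)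
    {q | ∃ l : List M, l ≠ [] ∧ q = wtr n l}
    (by
      rintro q ⟨l, -, rfl⟩
      exact isInv_wtr l)
    (by
      rintro q ⟨l, hl, rfl⟩
      exact ⟨l.length, List.length_pos_iff.mpr hl, wtr_homog l⟩)
    (by
      intro t _ ht p hp
      have h1 : kill (fun b : (mats M).β => 0 < 1) t = 0 := by
        funext x
        simp [kill]
      rw [h1]
      exact W1c_null t (fun l hl => ht _ ⟨l, hl, rfl⟩) p hp) p hp
  refine ⟨N, a, fun i => ?_, ?_⟩
  · refine Algebra.adjoin_le ?_ (ha i)
    rintro q (⟨l, -, rfl⟩ | ⟨-, hq⟩)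
    · exact Algebra.subset_adjoin ⟨l, rfl⟩
    · rw [W1c_const q hq]
      exact Subalgebra.algebraMap_mem _ _
  · apply MvPolynomial.funext
    intro x
    have h1 := h (fun y => algebraMap ℚ K (x y)) (Set.mem_univ _)
    rw [map_zero, ← MvPolynomial.coe_aeval_eq_eval]
    apply (algebraMap ℚ K).injective
    rw [map_zero, ← h1]
    exact (MvPolynomial.aeval_algebraMap_apply K x _).symm

/-- WT. Apply `graded_integral` with `G = redGL n`, `w = 1`, `Z = Set.univ`, `S = {wtr n l | l ≠ []}`. The
condition `hcl` is trivial for `Z = univ`; `hnull`: if all traces of non-empty words in the matrices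
`x m` (`t = toMats x`, `exists_toMats`) vanish, take `g, g'` from `strictly_triangular` and
`lam a = (a : ℝ)`: all nonzero coordinates of `act g g' t` have weight `≥ 1`, so by `lim_invariant`
`p(t) = p(act g g' t) = p(wtZero lam (act g g' t)) = p(0)`, and `kill (0 < 1) t = 0`. The resulting polynomial
`p ^ N + ∑ a_i p ^ i` vanishes at all points over the infinite field `K`, so it is zero
(`MvPolynomial.funext`-like over `K`, injectivity of `ℚ → K`); the invariants of degree `0` are constants.
Take `K = AlgebraicClosure ℚ`. -/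
theorem word_trace_integral {M : Type} [Fintype M] (p : MvPolynomial ((mats M).Ix n) ℚ)
    (hp : IsInv (redGL n) p) :
    ∃ (N : ℕ) (a : Fin N → MvPolynomial ((mats M).Ix n) ℚ),
      (∀ i, a i ∈ Algebra.adjoin ℚ {q | ∃ l : List M, q = wtr n l}) ∧
      p ^ N + ∑ i, a i * p ^ (i : ℕ) = 0 :=
  W1c_aux (AlgebraicClosure ℚ) p hp

end Pool.Agent.Lib.MP_666dc0_nt.IG
end
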