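import Pool.Agent.Lib.MP_666dc0_nt.EP.BW0
import Pool.Agent.Lib.MP_666dc0_nt.Mg.G058
import Pool.Agent.Lib.MP_666dc0_nt.Mg.G060
import Pool.Agent.Lib.MP_666dc0_nt.EP.BV6
import Pool.Agent.Lib.MP_666dc0_nt.EP.RA4
import Pool.Agent.Lib.MP_666dc0_nt.RT.R4

section

/-!
# EP, BW1: the sets of the cover
-/

open NumberField IsDedekindDomain Matrix
open scoped NumberField

namespace Pool.Agent.Lib.MP_666dc0_nt.EP

open WL

variable {F : Type} [Field F] [NumberField F] {n : ℕ} {D : Datum F n} {ℓ : ℕ}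

theorem posDef_tmul {N : ℕ} {Z s : Matrix (Fin N) (Fin N) ℝ} (hZ : Z.PosDef)
    (hs : IsUnit s.det) : (sᵀ * Z * s).PosDef := by
  have hunit : IsUnit s := (Matrix.isUnit_iff_isUnit_det s).2 hs
  have h3 := hunit.posDef_star_left_conjugate_iff.2 hZ
  rw [star_eq_conjTranspose, conjTranspose_eq_transpose_of_trivial] at h3
  exact h3

namespace Frame

variable (fr : Frame D) (L : Level D ℓ)

theorem isUnit_det_gh (γ : D.Rat) : IsUnit (fr.gh γ).det := by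
  have h1 := congrArg Matrix.det (fr.gh_mul_inv γ)
  rw [Matrix.det_mul, Matrix.det_one] at h1
  exact IsUnit.of_mul_eq_one _ h1

theorem smul_mem_PP (a : D.Rat × L.K) (P : fr.E L) : a • P ∈ fr.PP L ↔ P ∈ fr.PP L := by
  have key : ∀ (a : D.Rat × L.K) (P : fr.E L), P ∈ fr.PP L → a • P ∈ fr.PP L :=
    fun a P hP => posDef_tmul hP (fr.isUnit_det_gh _)
  refine ⟨fun h => ?_, key a P⟩
  have h1 := key a⁻¹ _ h
  rwa [inv_smul_smul] at h1

theorem proj_smul (a : D.Rat × L.K) {P : fr.E L} (hP : P ∈ fr.PP L) :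
    RT.proj fr.v (mt (a • P)) = (fr.gh a.1⁻¹)ᵀ * RT.proj fr.v (mt P) * fr.gh a.1⁻¹ := by
  rw [mt_smul]
  exact RT.proj_conj fr.isRed fr.isMin hP (fr.act_gh _)

theorem form_smul (a : D.Rat × L.K) (i : Ix fr L) {P : fr.E L} (hP : P ∈ fr.PP L) :
    (fr.sb (a • i).b)ᵀ * RT.proj fr.v (mt (a • P)) * fr.sb (a • i).b =
      (fr.sb i.b)ᵀ * RT.proj fr.v (mt P) * fr.sb i.b := by
  rw [fr.proj_smul L a hP]
  exact fr.conj_sb a.1 _ i.b

theorem smul_mem_V (a : D.Rat × L.K) (i : Ix fr L) (P : fr.E L) :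
    a • P ∈ fr.V L (a • i) ↔ P ∈ fr.V L i := by
  constructor
  · rintro ⟨h1, h2⟩
    have hP := (fr.smul_mem_PP L a P).1 h1
    rw [fr.form_smul L a i hP] at h2
    exact ⟨hP, h2⟩
  · rintro ⟨hP, h2⟩
    refine ⟨(fr.smul_mem_PP L a P).2 hP, ?_⟩
    rw [fr.form_smul L a i hP]
    exact h2

theorem smul_mem_V' (a : D.Rat × L.K) (i : Ix fr L) (P : fr.E L) :
    a • P ∈ fr.V' L (a • i) ↔ P ∈ fr.V' L i := by
  constructor
  · rintro ⟨h1, h2⟩
    have hP := (fr.smul_mem_PP L a P).1 h1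
    rw [fr.form_smul L a i hP] at h2
    exact ⟨hP, h2⟩
  · rintro ⟨hP, h2⟩
    refine ⟨(fr.smul_mem_PP L a P).2 hP, ?_⟩
    rw [fr.form_smul L a i hP]
    exact h2

theorem V_subset (i : Ix fr L) : fr.V L i ⊆ fr.PP L := fun _ h => h.1

variable {L} in
theorem Ix.li {fr : Frame D} (i : Ix fr L) : LinearIndependent ℚ i.b := by
  obtain ⟨g, -, hb⟩ := i.bas
  exact hb.li

theorem posDef_form (i : Ix fr L) {P : fr.E L} (hP : P ∈ fr.PP L) :
    ((fr.sb i.b)ᵀ * RT.proj fr.v (mt P) * fr.sb i.b).PosDef :=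
  posDef_tmul (RT.XX.posDef fr.isRed (RT.proj_mem fr.isRed hP)) (fr.isUnit_det_sb i.li)

theorem V'_subset (i : Ix fr L) : fr.V' L i ⊆ fr.V L i := fun _ h =>
  ⟨h.1, h.2.redS (fr.posDef_form L i h.1) (by norm_num)⟩

theorem continuousOn_form (i : Ix fr L) : ContinuousOn
    (fun P : fr.E L => (fr.sb i.b)ᵀ * RT.proj fr.v (mt P) * fr.sb i.b) (fr.PP L) := by
  have h1 : ContinuousOn (fun P : fr.E L => RT.proj fr.v (mt P)) (fr.PP L) :=
    RT.continuousOn_proj fr.isRed fr.isMin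
  have h2 : Continuous fun M : Matrix (Fin (rk F n)) (Fin (rk F n)) ℝ =>
      (fr.sb i.b)ᵀ * M * fr.sb i.b :=
    (continuous_const.matrix_mul continuous_id).matrix_mul continuous_const
  exact h2.comp_continuousOn h1

theorem isOpen_V (i : Ix fr L) : ∃ O, IsOpen O ∧ fr.V L i = O ∩ fr.PP L := by
  obtain ⟨S, hS, hS'⟩ := exists_isOpen_redS (N := rk F n) 3
  obtain ⟨O, hO, hO'⟩ := continuousOn_iff'.1 (fr.continuousOn_form L i) S hS
  refine ⟨O, hO, ?_⟩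
  rw [← hO']
  ext P
  constructor
  · rintro ⟨h1, h2⟩
    exact ⟨(hS' _ (fr.posDef_form L i h1)).2 h2, h1⟩
  · rintro ⟨h1, h2⟩
    exact ⟨h2, (hS' _ (fr.posDef_form L i h2)).1 h1⟩

theorem isClosed_V' (i : Ix fr L) : ∃ C, IsClosed C ∧ fr.V' L i = C ∩ fr.PP L := by
  obtain ⟨S, hS, hS'⟩ := exists_isClosed_red (N := rk F n) 2
  obtain ⟨O, hO, hO'⟩ := continuousOn_iff_isClosed.1 (fr.continuousOn_form L i) S hS
  refine ⟨O, hO, ?_⟩
  rw [← hO']
  ext P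
  constructor
  · rintro ⟨h1, h2⟩
    exact ⟨(hS' _ (fr.posDef_form L i h1)).2 h2, h1⟩
  · rintro ⟨h1, h2⟩
    exact ⟨h2, (hS' _ (fr.posDef_form L i h2)).1 h1⟩

theorem convex_PP : Convex ℝ (fr.PP L) := by
  intro P hP Q hQ a b ha hb hab
  rcases ha.eq_or_lt with h | h
  · rw [← h, zero_add] at hab
    rw [← h, hab, zero_smul, zero_add, one_smul]
    exact hQ
  · have h1 : (a • mt P).PosDef := Matrix.PosDef.smul hP h
    have h2 : (b • mt Q).PosSemidef := Matrix.PosSemidef.smul (Matrix.PosDef.posSemidef hQ) hb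
    exact h1.add_posSemidef h2

theorem nonempty_PP : (fr.PP L).Nonempty :=
  ⟨em fr L 1, Matrix.PosDef.one⟩

theorem sb_bh (b : Fin (rk F n) → Fin n → F) (h : Matrix (Fin (rk F n)) (Fin (rk F n)) ℚ) :
    fr.sb (bh b h) = fr.sb b * qR h := by
  unfold sb
  rw [cm_bh, qR_mul, Matrix.mul_assoc]

/-- The closed sets over a point of `G(𝔸_f) / U` cover. -/
theorem exists_mem_V' (y₀ : L.X) (P : fr.E L) (hP : P ∈ fr.PP L) :
    ∃ i : Ix fr L, i.y = y₀ ∧ P ∈ fr.V' L i := by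
  obtain ⟨g, rfl⟩ : ∃ g, L.cls g = y₀ := Quotient.exists_rep y₀
  obtain ⟨b₀, hb₀⟩ := exists_isBas g
  have hZ := RT.proj_mem fr.isRed hP
  have hQ := posDef_tmul (RT.XX.posDef fr.isRed hZ) (fr.isUnit_det_sb hb₀.li)
  obtain ⟨h, hh, hr⟩ := exists_red _ _ hQ
  have hb := hb₀.bh hh
  have e : fr.sb (bh b₀ (h.map ((↑) : ℤ → ℚ))) = fr.sb b₀ * toR h := by
    rw [sb_bh]
    congr 1
  have e2 : (fr.sb (bh b₀ (h.map ((↑) : ℤ → ℚ))))ᵀ * RT.proj fr.v (mt P) *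
      fr.sb (bh b₀ (h.map ((↑) : ℤ → ℚ))) =
      (toR h)ᵀ * ((fr.sb b₀)ᵀ * RT.proj fr.v (mt P) * fr.sb b₀) * toR h := by
    rw [e, Matrix.transpose_mul]
    simp only [Matrix.mul_assoc]
  rw [← e2] at hr
  have hpd := posDef_tmul (RT.XX.posDef fr.isRed hZ) (fr.isUnit_det_sb hb.li)
  refine ⟨⟨L.cls g, _, ⟨g, ⟨1, one_mem _, by rw [mul_one]⟩, hb⟩, ⟨_, hZ,
    (hr.redS hpd (by norm_num)).red⟩⟩, rfl, hP, hr⟩

end Frame

end Pool.Agent.Lib.MP_666dc0_nt.EP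
end

section

/-!
# EP, BW3: the data of the reduced bases are finite in number
-/

open NumberField IsDedekindDomain Matrix
open scoped NumberField

namespace Pool.Agent.Lib.MP_666dc0_nt.EP

open WL

variable {F : Type} [Field F] [NumberField F] {n : ℕ} {D : Datum F n} {ℓ : ℕ}

theorem finite_den (d : ℕ) (hd : 0 < d) (M : ℝ) :
    {q : ℚ | (∃ z : ℤ, (d : ℚ) * q = z) ∧ |(q : ℝ)| ≤ M}.Finite := by
  have hd' : (d : ℚ) ≠ 0 := by exact_mod_cast hd.ne'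
  have hdR : (0 : ℝ) < d := by exact_mod_cast hd
  have h1 : (Set.Icc (-⌈d * M⌉) ⌈d * M⌉).Finite := Set.finite_Icc _ _
  refine (h1.image fun z : ℤ => (z : ℚ) / d).subset ?_
  rintro q ⟨⟨z, hz⟩, hq⟩
  have h2 : (z : ℝ) = d * q := by
    have h3 := congrArg (fun q : ℚ => (q : ℝ)) hz
    push_cast at h3
    exact h3.symm
  have h3 : |(z : ℝ)| ≤ ⌈d * M⌉ := by
    rw [h2, abs_mul, abs_of_pos hdR]
    exact (mul_le_mul_of_nonneg_left hq hdR.le).trans (Int.le_ceil _)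
  have h4 : |z| ≤ ⌈d * M⌉ := by exact_mod_cast h3
  refine ⟨z, ⟨(abs_le.1 h4).1, (abs_le.1 h4).2⟩, ?_⟩
  change (z : ℚ) / d = q
  rw [← hz]
  field_simp

theorem exists_det_bound_sb (fr : Frame D) (hd : D.q.det ≠ 0) : ∃ M : ℝ, 0 < M ∧
    ∀ (g : D.Ad) (b : Fin (rk F n) → Fin n → F), IsBas g b → |(fr.sb b).det| ≤ M := by
  obtain ⟨M, hM⟩ := exists_det_bound (D := D) hd
  refine ⟨|fr.zi.det| * |(M : ℝ)| + 1, by positivity, fun g b hb => ?_⟩
  have h1 : (qR (cm b)).det = (((cm b).det : ℚ) : ℝ) :=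
    (RingHom.map_det (Rat.castHom ℝ) (cm b)).symm
  have h2 : |(((cm b).det : ℚ) : ℝ)| ≤ |(M : ℝ)| := by
    have h3 := hM g b hb
    have h4 : |(((cm b).det : ℚ) : ℝ)| ≤ (M : ℝ) := by exact_mod_cast h3
    exact h4.trans (le_abs_self _)
  unfold Frame.sb
  rw [Matrix.det_mul, h1, abs_mul]
  have h5 := mul_le_mul_of_nonneg_left h2 (abs_nonneg fr.zi.det)
  linarith

namespace Frame

variable (fr : Frame D) (L : Level D ℓ)

theorem exists_bound_fam (hd : D.q.det ≠ 0) : ∃ M : ℝ, ∀ (i : Ix fr L) (k : FI D)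
    (J : Fin (fa D k) → Fin (rk F n)), |((fam D i.b k J : ℚ) : ℝ)| ≤ M := by
  obtain ⟨d, hd0, hden⟩ := exists_den_fam D
  obtain ⟨Δ, hΔ, hdet⟩ := exists_det_bound_sb fr hd
  have hdR : (0 : ℝ) < d := by exact_mod_cast hd0
  have hC : (1 : ℝ) ≤ 3 ^ (rk F n + 1) := one_le_pow₀ (by norm_num)
  obtain ⟨M, hM⟩ := RT.key_bound fr.isRed fr.isMin hC (inv_pos.2 hdR) hΔ
  refine ⟨M, fun i => ?_⟩
  obtain ⟨Z, hZ, hr⟩ := i.red
  obtain ⟨g₀, -, hb⟩ := i.bas
  obtain ⟨g, hg, hg', hZg⟩ := RT.XX.exists_sqrt fr.isRed hZ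
  set Q : Matrix (Fin (rk F n)) (Fin (rk F n)) ℝ := (fr.sb i.b)ᵀ * Z * fr.sb i.b with hQ
  have hQpos : Q.PosDef := posDef_tmul (RT.XX.posDef fr.isRed hZ) (fr.isUnit_det_sb i.li)
  have e1 : RT.act (g * fr.sb i.b) fr.v = fun k J => ((fam D i.b k J : ℚ) : ℝ) := by
    rw [RT.act_mul, hg, act_sb]
  have e2 : (g * fr.sb i.b)ᵀ * (g * fr.sb i.b) =
      (up Q)ᵀ * diagonal (fun i => al Q i ^ 2) * up Q := by
    rw [up_al_up hQpos, hQ, hZg, Matrix.transpose_mul]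
    simp only [Matrix.mul_assoc]
  have h3 : (3 : ℝ) ≤ 3 ^ (rk F n + 1) := by
    calc (3 : ℝ) = 3 ^ 1 := (pow_one _).symm
      _ ≤ 3 ^ (rk F n + 1) := pow_le_pow_right₀ (by norm_num) (by omega)
  have key := hM (g * fr.sb i.b) (up Q) (al Q) (al_pos hQpos) (fun k l hkl => ?_)
    (fun k l => ?_) (fun k l hkl => up_lower Q k l hkl) (fun k => up_diag Q k) e2 ?_ ?_
  · intro k J
    have h4 := key k J
    rw [e1] at h4
    exact h4
  · refine (hr.al_le (by norm_num) hQpos hkl).trans ?_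
    exact mul_le_mul_of_nonneg_right (pow_le_pow_right₀ (by norm_num) (by omega))
      (al_pos hQpos l).le
  · rcases lt_trichotomy k l with h | h | h
    · exact (hr.1 k l h).trans h3
    · rw [h, up_diag, abs_one]
      exact hC
    · rw [up_lower Q k l h, abs_zero]
      exact zero_le_one.trans hC
  · rw [Matrix.det_mul, abs_mul, fr.isRed.det_one g hg, one_mul]
    exact hdet g₀ i.b hb
  · intro k J hne
    rw [e1] at hne ⊢
    obtain ⟨z, hz⟩ := hden g₀ _ i.b (fun j => hb.mem j) k J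
    have hz0 : z ≠ 0 := by
      intro h0
      apply hne
      rw [h0, Int.cast_zero] at hz
      have h5 : fam D i.b k J = 0 := by
        rcases mul_eq_zero.1 hz with h6 | h6
        · exfalso
          have : (d : ℚ) ≠ 0 := by exact_mod_cast hd0.ne'
          exact this h6
        · exact h6
      change ((fam D i.b k J : ℚ) : ℝ) = 0
      rw [h5, Rat.cast_zero]
    have h6 : (1 : ℝ) ≤ |(z : ℝ)| := by
      have h7 : 1 ≤ |z| := Int.one_le_abs hz0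
      exact_mod_cast h7
    have h7 : (d : ℝ) * ((fam D i.b k J : ℚ) : ℝ) = z := by
      have h8 := congrArg (fun q : ℚ => (q : ℝ)) hz
      push_cast at h8
      exact h8
    rw [← h7, abs_mul, abs_of_pos hdR] at h6
    change (d : ℝ)⁻¹ ≤ |((fam D i.b k J : ℚ) : ℝ)|
    rw [inv_le_iff_one_le_mul₀ hdR, mul_comm]
    exact h6

/-- The data of the reduced bases are finite in number. -/
theorem finite_data (hd : D.q.det ≠ 0) :
    {t : ∀ k : FI D, (Fin (fa D k) → Fin (rk F n)) → ℚ | ∃ i : Ix fr L, t = fam D i.b}.Finite := by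
  obtain ⟨d, hd0, hden⟩ := exists_den_fam D
  obtain ⟨M, hM⟩ := fr.exists_bound_fam L hd
  have h1 := finite_den d hd0 M
  have h2 : (Set.univ.pi fun k : FI D => Set.univ.pi fun _ : Fin (fa D k) → Fin (rk F n) =>
      {q : ℚ | (∃ z : ℤ, (d : ℚ) * q = z) ∧ |(q : ℝ)| ≤ M}).Finite :=
    Set.Finite.pi fun k => Set.Finite.pi fun J => h1
  refine h2.subset ?_
  rintro _ ⟨i, rfl⟩
  intro k _ J _
  obtain ⟨g, -, hb⟩ := i.bas
  exact ⟨hden g _ i.b (fun j => hb.mem j) k J, hM i k J⟩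

end Frame

end Pool.Agent.Lib.MP_666dc0_nt.EP
end
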