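import Pool.Agent.Lib.MP_666dc0_nt.EP.C1b

section

/-!
# EP, C5a: equivariant functions on a free set
-/

namespace Pool.Agent.Lib.MP_666dc0_nt.EP

variable {R : Type} {A : Type} [CommRing R] [Group A]
  {L V : Type} [Field L] [Algebra R L] [AddCommGroup V] [Module L V] (ρ : Representation L A V)
  {Y : Type} [MulAction A Y] {r : ℕ} (e : Y ≃ FreeSet A r) (he : ∀ (a : A) (y : Y), e (a • y) = a • e y)

/-- Equivariant functions on the free `A`-set with `r` orbits are `r`-tuples of vectors:
`f ↦ (f(e⁻¹(i, 1)))_i`. -/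
noncomputable def funEquiv (he : ∀ (a : A) (y : Y), e (a • y) = a • e y) :
    Fun ρ Y ≃ₗ[L] (Fin r → V) where
  toFun f i := (f : Y → V) (e.symm ⟨i, 1⟩)
  map_add' _ _ := rfl
  map_smul' _ _ := rfl
  invFun u := ⟨fun y => ρ (e y).g (u (e y).i), fun a y => by
    change ρ (e (a • y)).g (u (e (a • y)).i) = ρ a (ρ (e y).g (u (e y).i))
    rw [he]
    change ρ (a * (e y).g) (u (e y).i) = _
    rw [map_mul]
    rfl⟩
  left_inv f := by
    apply Subtype.ext
    funext y
    change ρ (e y).g ((f : Y → V) (e.symm ⟨(e y).i, 1⟩)) = f.1 y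
    rw [← f.2]
    refine congrArg f.1 (e.injective ?_)
    rw [he, Equiv.apply_symm_apply]
    exact FreeSet.ext rfl (mul_one _)
  right_inv u := by
    funext i
    change ρ (e (e.symm ⟨i, 1⟩)).g (u (e (e.symm ⟨i, 1⟩)).i) = u i
    rw [Equiv.apply_symm_apply]
    change ρ 1 (u i) = u i
    rw [map_one]
    rfl

include he in
theorem finiteDimensional_fun [FiniteDimensional L V] : FiniteDimensional L (Fun ρ Y) :=
  (funEquiv ρ e he).symm.finiteDimensional

/-- The transpose of an equivariant map `c : R[Y] → R[Y]` acts on equivariant functions. -/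
noncomputable def pullFun {c : (Y →₀ R) →ₗ[R] (Y →₀ R)} (hc : Equi A c) :
    Module.End L (Fun ρ Y) :=
  (pull L V c).restrict fun _ hf => pull_mem_Fun ρ hc hf

include he in
/-- Matrix of `pullFun`: in terms of `funEquiv` it is the block matrix with blocks
`∑_a c_{(i,1),(j,a)} ρ(a)`. -/
theorem funEquiv_pullFun {c : (Y →₀ R) →ₗ[R] (Y →₀ R)} (hc : Equi A c) (f : Fun ρ Y) (i : Fin r) :
    funEquiv ρ e he (pullFun ρ hc f) i =
      (c (Finsupp.single (e.symm ⟨i, 1⟩) 1)).sum fun y x =>
        algebraMap R L x • ρ (e y).g (funEquiv ρ e he f (e y).i) := by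
  change (c (Finsupp.single (e.symm ⟨i, 1⟩) 1)).sum (fun y x => algebraMap R L x • (f : Y → V) y) = _
  refine Finset.sum_congr rfl fun y _ => ?_
  have h1 : ρ (e y).g (funEquiv ρ e he f (e y).i) = (f : Y → V) y :=
    congrFun (congrArg Subtype.val ((funEquiv ρ e he).left_inv f)) y
  simp only [h1]

end Pool.Agent.Lib.MP_666dc0_nt.EP
end

section

/-!
# EP, C5b: the trace formula for a free set
-/

namespace Pool.Agent.Lib.MP_666dc0_nt.EP

variable {R : Type} {A : Type} [CommRing R] [Group A]
  {L V : Type} [Field L] [Algebra R L] [AddCommGroup V] [Module L V] (ρ : Representation L A V)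
  {Y : Type} [MulAction A Y] {r : ℕ} (e : Y ≃ FreeSet A r) (he : ∀ (a : A) (y : Y), e (a • y) = a • e y)

private theorem C5b_trace_pi {L V : Type} [Field L] [AddCommGroup V] [Module L V]
    [FiniteDimensional L V] {r : ℕ} (T : Module.End L (Fin r → V)) :
    LinearMap.trace L _ T = ∑ i : Fin r,
      LinearMap.trace L V (LinearMap.proj i ∘ₗ (T ∘ₗ LinearMap.single L (fun _ : Fin r => V) i)) := by
  have h1 : T = ∑ i : Fin r, (T ∘ₗ LinearMap.single L (fun _ : Fin r => V) i) ∘ₗ
      LinearMap.proj i := by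
    apply LinearMap.ext
    intro u
    rw [LinearMap.sum_apply]
    simp only [LinearMap.comp_apply, LinearMap.proj_apply, LinearMap.single_apply]
    rw [← map_sum, LinearMap.sum_single_apply]
  conv_lhs => rw [h1]
  rw [map_sum]
  refine Finset.sum_congr rfl fun i _ => ?_
  rw [LinearMap.trace_comp_comm']

include he in
/-- **Trace formula.** There is a finitely supported function `ν : A → R`, depending only on `c`,
such that the trace of the transpose of `c` on the equivariant functions `Y → V` is
`∑ ν(a) tr ρ(a)`, for all finite-dimensional representations `ρ` of `A`.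
(`ν(a) = ∑_i c_{(i,1),(i,a)}`.) -/
theorem exists_trace_formula {c : (Y →₀ R) →ₗ[R] (Y →₀ R)} (hc : Equi A c) :
    ∃ ν : A →₀ R, ∀ (V : Type) [AddCommGroup V] [Module L V] [FiniteDimensional L V]
      (ρ : Representation L A V), LinearMap.trace L _ (pullFun ρ hc) =
        ν.sum fun a x => algebraMap R L x * LinearMap.trace L V (ρ a) := by
  classical
  refine ⟨∑ i : Fin r, Finsupp.mapDomain (fun y => (e y).g)
    ((c (Finsupp.single (e.symm ⟨i, 1⟩) 1)).filter fun y => (e y).i = i), ?_⟩
  intro V _ _ _ ρ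
  let φ : (A →₀ R) →+ L := Finsupp.liftAddHom fun a =>
    (AddMonoidHom.mulRight (LinearMap.trace L V (ρ a))).comp (algebraMap R L).toAddMonoidHom
  have hφ : ∀ ν : A →₀ R, (ν.sum fun a x => algebraMap R L x * LinearMap.trace L V (ρ a)) =
      φ ν := fun ν => rfl
  have hfin := finiteDimensional_fun ρ e he
  rw [hφ, map_sum, ← LinearMap.trace_conj' (pullFun ρ hc) (funEquiv ρ e he), C5b_trace_pi]
  refine Finset.sum_congr rfl fun i _ => ?_
  rw [← hφ, Finsupp.sum_mapDomain_index (fun a => by rw [map_zero, zero_mul])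
    (fun a x y => by rw [map_add, add_mul])]
  have h1 : LinearMap.proj i ∘ₗ ((LinearEquiv.conj (funEquiv ρ e he) (pullFun ρ hc)) ∘ₗ
      LinearMap.single L (fun _ : Fin r => V) i) =
      (((c (Finsupp.single (e.symm ⟨i, 1⟩) 1)).filter fun y => (e y).i = i).sum fun y x =>
        algebraMap R L x • ρ (e y).g) := by
    apply LinearMap.ext
    intro v
    rw [LinearMap.comp_apply, LinearMap.comp_apply, LinearMap.proj_apply, LinearEquiv.conj_apply,
      LinearMap.comp_apply, LinearMap.comp_apply, LinearEquiv.coe_coe, LinearEquiv.coe_coe,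
      funEquiv_pullFun, LinearEquiv.apply_symm_apply, LinearMap.single_apply, Finsupp.sum,
      Finsupp.sum, LinearMap.sum_apply, Finsupp.support_filter, Finset.sum_filter]
    refine Finset.sum_congr rfl fun y _ => ?_
    split_ifs with h
    · rw [Finsupp.filter_apply_pos (fun y => (e y).i = i) _ h, LinearMap.smul_apply, h,
        Pi.single_eq_same]
    · rw [Pi.single_eq_of_ne h, map_zero, smul_zero]
  rw [h1, Finsupp.sum, Finsupp.sum, map_sum]
  refine Finset.sum_congr rfl fun y _ => ?_
  rw [map_smul, smul_eq_mul]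

end Pool.Agent.Lib.MP_666dc0_nt.EP
end
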