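import Pool.Agent.Lib.MP_666dc0_nt.FM.TDefs
import Pool.Agent.Lib.MP_666dc0_nt.ZO.RDefs
import Pool.Agent.Lib.MP_666dc0_nt.FM.BDefs

section

/-!
# Inverse limits of finite rings
-/

set_option autoImplicit false

namespace Pool.Agent.Lib.MP_666dc0_nt.FM

/-- Kőnig's lemma. -/
theorem konig {X : ℕ → Type} [∀ s, Finite (X s)] [∀ s, Nonempty (X s)] (g : ∀ s, X (s + 1) → X s) :
    ∃ x : ∀ s, X s, ∀ s, g s (x (s + 1)) = x s := by
  classical
  let _ : ∀ s, TopologicalSpace (X s) := fun _ => ⊥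
  have _ : ∀ s, DiscreteTopology (X s) := fun _ => ⟨rfl⟩
  have _ : ∀ s, CompactSpace (X s) := fun _ => Finite.compactSpace
  have hne : ∀ n, ∀ y : X n, ∃ x : ∀ s, X s, x n = y ∧ ∀ s < n, g s (x (s + 1)) = x s := by
    intro n
    induction n with
    | zero =>
      intro y
      exact ⟨fun s => if h : s = 0 then h ▸ y else Classical.arbitrary _, by simp, fun s hs => absurd hs (Nat.not_lt_zero s)⟩
    | succ n ih =>
      intro y
      obtain ⟨x, hx, hx'⟩ := ih (g n y)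
      refine ⟨Function.update x (n + 1) y, by simp, fun s hs => ?_⟩
      rcases Nat.lt_succ_iff_lt_or_eq.1 hs with h | h
      · rw [Function.update_of_ne (by omega), Function.update_of_ne (by omega)]
        exact hx' s h
      · subst h
        rw [Function.update_self, Function.update_of_ne (by omega)]
        exact hx.symm
  have hc : (⋂ n : ℕ, {x : ∀ s, X s | ∀ s < n, g s (x (s + 1)) = x s}).Nonempty := by
    apply IsCompact.nonempty_iInter_of_sequence_nonempty_isCompact_isClosed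
    · intro n x hx s hs
      exact hx s (by omega)
    · intro n
      obtain ⟨x, -, hx⟩ := hne n (Classical.arbitrary _)
      exact ⟨x, hx⟩
    · have h : {x : ∀ s, X s | ∀ s < 0, g s (x (s + 1)) = x s} = Set.univ := by
        ext x
        simp
      rw [h]
      exact isCompact_univ
    · intro n
      have h : {x : ∀ s, X s | ∀ s < n, g s (x (s + 1)) = x s} =
          ⋂ s, ⋂ (_ : s < n), {x : ∀ s, X s | g s (x (s + 1)) = x s} := by
        ext x
        simp
      rw [h]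
      refine isClosed_iInter fun s => isClosed_iInter fun _ => ?_
      refine isClosed_eq ?_ (continuous_apply s)
      exact (continuous_of_discreteTopology).comp (continuous_apply (s + 1))
  obtain ⟨x, hx⟩ := hc
  rw [Set.mem_iInter] at hx
  exact ⟨x, fun s => hx (s + 1) s (Nat.lt_succ_self s)⟩

/-- If all levels are finite then an element is in the left ideal generated by finitely many elements iff
it is so at every level. -/
theorem RTow.mem_span (𝒜 : RTow) [∀ s, Finite (𝒜.A s)] {m : ℕ} (n : Fin m → 𝒜.Lim) (x : 𝒜.Lim)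
    (h : ∀ s, ∃ c : Fin m → 𝒜.A s, 𝒜.pi s x = ∑ i, c i * 𝒜.pi s (n i)) :
    x ∈ Ideal.span (Set.range n) := by
  let X : ℕ → Type := fun s => {c : Fin m → 𝒜.A s // 𝒜.pi s x = ∑ i, c i * 𝒜.pi s (n i)}
  have _ : ∀ s, Nonempty (X s) := fun s => by
    obtain ⟨c, hc⟩ := h s
    exact ⟨⟨c, hc⟩⟩
  obtain ⟨c, hc⟩ := konig (X := X) (fun s c => ⟨fun i => 𝒜.f s (c.1 i), by
    have h1 := congrArg (𝒜.f s) c.2
    rw [𝒜.f_pi, map_sum] at h1
    rw [h1]
    refine Finset.sum_congr rfl fun i _ => ?_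
    rw [map_mul, 𝒜.f_pi]⟩)
  have h1 : x = ∑ i, (⟨fun s => (c s).1 i, fun s => congrFun (congrArg Subtype.val (hc s)) i⟩ : 𝒜.Lim) * n i := by
    apply 𝒜.ext
    intro s
    rw [(c s).2, map_sum]
    refine Finset.sum_congr rfl fun i _ => ?_
    rw [map_mul]
    rfl
  rw [h1]
  refine Submodule.sum_mem _ fun i _ => ?_
  exact Ideal.mul_mem_left _ _ (Ideal.subset_span ⟨i, rfl⟩)

end Pool.Agent.Lib.MP_666dc0_nt.FM
end

section

/-!
TASK R1. Powers of the augmentation ideal of a group algebra.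

All statements are elementary; `A = MonoidAlgebra k P`, `dl k x = x - 1`, `dl k (x y) = dl k x * dl k y + dl k x + dl k y`.
* `aug_mul_top`, `top_mul_aug`: `aug` is a two-sided ideal: `x (y - 1) = (x y - 1) - (x - 1)`; `A` is spanned by the
  `single x 1`, `(y - 1) x = (y x - 1) - (x - 1)`.
* `fil_anti`: `Fil 1 ≤ ⊤`, and `Fil (m+2) = aug * Fil (m+1) ≤ aug * Fil m` by induction.
* `fil_mul`: `Fil m * Fil m' ≤ Fil (m + m')`: first `⊤ * Fil m' ≤ Fil m'` (for `m' = 0` clear, for `m' + 1`: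
  `⊤ * (aug * Fil m') ≤ aug * Fil m'` by `top_mul_aug`), then induction on `m` with `mul_assoc`.
* `pow_mem`: induction, `dl k x ∈ Fil 1`.
* `mem_fil_of_closure`: in characteristic `ℓ`, `x ∈ closure {t ^ pe ℓ}` implies `dl k x ∈ Fil 3`: the set of the `x` with `dl k x ∈ Fil 3`
  is closed under products and inverses (`dl k x⁻¹ = - single x⁻¹ * dl k x`), and `dl k (t ^ pe ℓ) = (dl k t) ^ pe ℓ`
  (`single t` and `1` commute; `sub_pow_char_of_commute` for `ℓ`, twice for `pe 2 = 4 = 2 * 2`), `pe ℓ ≥ 3`.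
* `comm_mem`: `dl k x * dl k y - dl k y * dl k x = single (x y) - single (y x) = dl k (x y x⁻¹ y⁻¹) * single (y x)`.
* `fil_nilpotent`: for a finite `ℓ`-group. By induction on the order: if `P` is trivial then `aug = ⊥`. Otherwise a central element `z` of
  order `ℓ` (`IsPGroup.center_nontrivial`, Cauchy); `A → MonoidAlgebra k (P ⧸ zpowers z)` maps `Fil k P m` onto or into `Fil k (P ⧸ ..) m`, which is zero
  for some `m = M`, so `Fil k P M ≤ ` kernel `= (dl z) A`, and `Fil (M ℓ) ≤ (dl z) ^ ℓ A = 0` (`dl z` is central; `(dl z) ^ ℓ = dl (z ^ ℓ) = 0`).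
  Alternative without quotients: `V ≠ 0` a module over `k`, `P` acts linearly on `V` finite dimensional, then there is a non-zero fixed vector; so `Fil m ≠ 0` implies
  `Fil (m+1) < Fil m`: apply this to the dual of `Fil m`, or count: `k` may be infinite, so use: if `aug * W = W` for a finite dimensional left ideal `W ≠ 0` then `W = 0`.
-/

namespace Pool.Agent.Lib.MP_666dc0_nt.ZO

variable (k : Type) [Field k] {P : Type} [Group P]

theorem dl_mul (x y : P) : dl k (x * y) = dl k x * dl k y + dl k x + dl k y := by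
  have h : (MonoidAlgebra.single (x * y) 1 : MonoidAlgebra k P)
      = MonoidAlgebra.single x 1 * MonoidAlgebra.single y 1 := by
    rw [MonoidAlgebra.single_mul_single, one_mul]
  unfold dl
  rw [h]
  noncomm_ring

theorem dl_one : dl k (1 : P) = 0 := by
  unfold dl
  rw [← MonoidAlgebra.one_def, sub_self]

private theorem r1_mem_aug (x : P) : dl k x ∈ aug k P := Submodule.subset_span ⟨x, rfl⟩

theorem dl_mem (x : P) : dl k x ∈ Fil k P 1 := by
  have h : dl k x = dl k x * 1 := (mul_one _).symm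
  rw [h]
  exact Submodule.mul_mem_mul (r1_mem_aug k x) Submodule.mem_top

private theorem r1_top : (⊤ : Submodule k (MonoidAlgebra k P))
    = Submodule.span k (Set.range fun x : P => MonoidAlgebra.single x (1 : k)) := by
  symm
  rw [eq_top_iff]
  intro a _
  induction a using MonoidAlgebra.induction_on with
  | of g => exact Submodule.subset_span ⟨g, rfl⟩
  | add f g hf hg => exact Submodule.add_mem _ (hf trivial) (hg trivial)
  | smul r f hf => exact Submodule.smul_mem _ _ (hf trivial)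

theorem top_mul_aug : (⊤ : Submodule k (MonoidAlgebra k P)) * aug k P ≤ aug k P := by
  rw [r1_top]
  conv_lhs => unfold aug
  rw [Submodule.span_mul_span, Submodule.span_le]
  rintro _ ⟨_, ⟨x, rfl⟩, _, ⟨y, rfl⟩, rfl⟩
  have h : (MonoidAlgebra.single x (1 : k)) * (MonoidAlgebra.single y 1 - 1)
      = dl k (x * y) - dl k x := by
    unfold dl
    rw [mul_sub, MonoidAlgebra.single_mul_single, one_mul, mul_one]
    abel
  change (MonoidAlgebra.single x (1 : k)) * (MonoidAlgebra.single y 1 - 1) ∈ aug k P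
  rw [h]
  exact Submodule.sub_mem _ (r1_mem_aug k _) (r1_mem_aug k _)

theorem aug_mul_top : aug k P * (⊤ : Submodule k (MonoidAlgebra k P)) ≤ aug k P := by
  rw [r1_top]
  conv_lhs => unfold aug
  rw [Submodule.span_mul_span, Submodule.span_le]
  rintro _ ⟨_, ⟨y, rfl⟩, _, ⟨x, rfl⟩, rfl⟩
  have h : (MonoidAlgebra.single y (1 : k) - 1) * (MonoidAlgebra.single x 1)
      = dl k (y * x) - dl k x := by
    unfold dl
    rw [sub_mul, MonoidAlgebra.single_mul_single, one_mul, one_mul]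
    abel
  change (MonoidAlgebra.single y (1 : k) - 1) * (MonoidAlgebra.single x 1) ∈ aug k P
  rw [h]
  exact Submodule.sub_mem _ (r1_mem_aug k _) (r1_mem_aug k _)

private theorem r1_succ (m : ℕ) : Fil k P (m + 1) = aug k P * Fil k P m := rfl

private theorem r1_zero : Fil k P 0 = ⊤ := rfl

private theorem r1_anti (m : ℕ) : Fil k P (m + 1) ≤ Fil k P m := by
  induction m with
  | zero => exact le_top
  | succ m ih =>
    rw [r1_succ k (m + 1), r1_succ k m]
    exact mul_le_mul' le_rfl ih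

theorem fil_anti {m m' : ℕ} (h : m ≤ m') : Fil k P m' ≤ Fil k P m :=
  antitone_nat_of_succ_le (r1_anti k) h

private theorem r1_top_mul (m : ℕ) : (⊤ : Submodule k (MonoidAlgebra k P)) * Fil k P m ≤ Fil k P m := by
  cases m with
  | zero => exact le_top
  | succ m =>
    rw [r1_succ, ← mul_assoc]
    exact mul_le_mul' (top_mul_aug k) le_rfl

theorem fil_mul_le (m m' : ℕ) : Fil k P m * Fil k P m' ≤ Fil k P (m + m') := by
  induction m with
  | zero =>
    rw [Nat.zero_add]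
    exact r1_top_mul k m'
  | succ m ih =>
    rw [Nat.add_right_comm, r1_succ, r1_succ, mul_assoc]
    exact mul_le_mul' le_rfl ih

theorem fil_mul {m m' : ℕ} {a b : MonoidAlgebra k P} (ha : a ∈ Fil k P m) (hb : b ∈ Fil k P m') :
    a * b ∈ Fil k P (m + m') := fil_mul_le k m m' (Submodule.mul_mem_mul ha hb)

theorem pow_mem_fil (x : P) (m : ℕ) : dl k x ^ m ∈ Fil k P m := by
  induction m with
  | zero => exact Submodule.mem_top
  | succ m ih =>
    rw [pow_succ', r1_succ]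
    exact Submodule.mul_mem_mul (r1_mem_aug k x) ih

private theorem r1_single_pow (t : P) (n : ℕ) :
    (MonoidAlgebra.single (t ^ n) 1 : MonoidAlgebra k P) = MonoidAlgebra.single t 1 ^ n := by
  rw [MonoidAlgebra.single_pow, one_pow]

private theorem r1_pe {ℓ : ℕ} [hℓ : Fact ℓ.Prime] [CharP k ℓ] (t : P) :
    dl k (t ^ pe ℓ) ∈ Fil k P 3 := by
  have : CharP (MonoidAlgebra k P) ℓ :=
    charP_of_injective_algebraMap (algebraMap k (MonoidAlgebra k P)).injective ℓ
  have hcomm : Commute (MonoidAlgebra.single t (1 : k)) 1 := Commute.one_right _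
  have h : dl k (t ^ pe ℓ) = dl k t ^ pe ℓ ∧ 3 ≤ pe ℓ := by
    unfold pe
    by_cases h2 : ℓ = 2
    · subst h2
      rw [if_pos rfl]
      refine ⟨?_, by norm_num⟩
      unfold dl
      rw [r1_single_pow, show (4 : ℕ) = 2 ^ 2 by norm_num, sub_pow_char_pow_of_commute _ _ hcomm, one_pow]
    · rw [if_neg h2]
      refine ⟨?_, ?_⟩
      · unfold dl
        rw [r1_single_pow, sub_pow_char_of_commute _ hcomm, one_pow]
      · have := hℓ.out.two_le
        omega
  rw [h.1]
  exact fil_anti k h.2 (pow_mem_fil k t _)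

theorem mem_fil_of_closure {ℓ : ℕ} [Fact ℓ.Prime] [CharP k ℓ] {x : P}
    (hx : x ∈ Subgroup.closure {z : P | ∃ t : P, z = t ^ pe ℓ}) : dl k x ∈ Fil k P 3 := by
  induction hx using Subgroup.closure_induction with
  | mem z hz =>
    obtain ⟨t, rfl⟩ := hz
    exact r1_pe k t
  | one =>
    rw [dl_one]
    exact Submodule.zero_mem _
  | mul x y _ _ hx hy =>
    rw [dl_mul]
    refine Submodule.add_mem _ (Submodule.add_mem _ ?_ hx) hy
    exact fil_anti k (by omega) (fil_mul k hx hy)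
  | inv x _ hx =>
    have h : dl k x⁻¹ = -((MonoidAlgebra.single x⁻¹ 1 : MonoidAlgebra k P) * dl k x) := by
      unfold dl
      rw [mul_sub, MonoidAlgebra.single_mul_single, one_mul, inv_mul_cancel, mul_one,
        ← MonoidAlgebra.one_def]
      abel
    rw [h]
    refine Submodule.neg_mem _ ?_
    have h0 : (MonoidAlgebra.single x⁻¹ 1 : MonoidAlgebra k P) ∈ Fil k P 0 := Submodule.mem_top
    have := fil_mul k h0 hx
    rwa [Nat.zero_add] at this

theorem comm_mem_fil {ℓ : ℕ} [Fact ℓ.Prime] [CharP k ℓ]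
    (hc : ∀ x y : P, x * y * x⁻¹ * y⁻¹ ∈ Subgroup.closure {z : P | ∃ t : P, z = t ^ pe ℓ}) (x y : P) :
    dl k x * dl k y - dl k y * dl k x ∈ Fil k P 3 := by
  have h : dl k x * dl k y - dl k y * dl k x
      = dl k (x * y * x⁻¹ * y⁻¹) * (MonoidAlgebra.single (y * x) 1 : MonoidAlgebra k P) := by
    have h1 : dl k x * dl k y - dl k y * dl k x = (MonoidAlgebra.single x 1 : MonoidAlgebra k P)
        * MonoidAlgebra.single y 1 - MonoidAlgebra.single y 1 * MonoidAlgebra.single x 1 := by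
      unfold dl
      noncomm_ring
    rw [h1]
    unfold dl
    rw [sub_mul, MonoidAlgebra.single_mul_single, MonoidAlgebra.single_mul_single,
      MonoidAlgebra.single_mul_single, one_mul, one_mul]
    congr 2
    group
  rw [h]
  have h0 : (MonoidAlgebra.single (y * x) 1 : MonoidAlgebra k P) ∈ Fil k P 0 := Submodule.mem_top
  exact fil_mul k (mem_fil_of_closure k (hc x y)) h0

end Pool.Agent.Lib.MP_666dc0_nt.ZO
end

section

/-!
TASK R1b. The augmentation ideal of a finite `ℓ`-group in characteristic `ℓ` is nilpotent.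

* `fil_map`: a homomorphism `f : P →* P'` maps `Fil k P m` into `Fil k P' m` (`MonoidAlgebra.mapDomain`; on generators; `Submodule.mul_induction_on`). For surjective `f` it is onto.
* `fil_nilpotent`: strong induction on the order of the finite group `P` (a universe-`0` type). If `P` is trivial then `aug = ⊥` and `Fil 1 = ⊥`. Otherwise there is a
  central `z ≠ 1` with `z ^ ℓ = 1` (`IsPGroup.center_nontrivial` and `IsPGroup`/Cauchy for the center). The quotient `P' = P ⧸ Subgroup.zpowers z` is a smaller `ℓ`-group, so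
  `Fil k P' M = ⊥` for some `M`, hence `Fil k P M` is contained in the kernel of `A → MonoidAlgebra k P'`, and this kernel is contained in `dl z * ⊤`
  (an element `a` of the kernel: choose representatives `s` of the cosets; `a = ∑ a(x) x`, `x = s z^j`, `x - s = s (z^j - 1)` is in `dl z * ⊤` because `z` is central and
  `z^j - 1 = (z - 1)(1 + z + ... )`; and `∑ a(x) s = 0` since it is the image of `a` written with representatives).
  Then `Fil (M j) ≤ (dl z) ^ j * ⊤` by induction (`fil_mul` gives `Fil (M (j+1)) = Fil M * Fil (M j)`: the equality `Fil (m + m') = Fil m * Fil m'` for `m' ≥ 1` or `m ≥ 1` follows from the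
  definition, associativity, and `Fil m * ⊤ = Fil m`; or prove directly by induction on `i` that `Fil (i + m) ≤ Fil' i * Fil m` ...), and `(dl z) ^ ℓ = dl (z ^ ℓ) = 0`.
* Other proof (maybe shorter): the left regular representation: a finite `ℓ`-group acting linearly on a non-zero finite-dimensional space `V` over `k` (characteristic `ℓ`) has
  a non-zero fixed vector: by the same induction (central `z` of order `ℓ`: `(z - 1)^ℓ = 0`, so `ker (z - 1) ≠ 0` is a representation of the smaller group). Dualise: if `aug * W = W` for a left ideal `W`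
  then the coinvariants of `W` are zero, so the dual of `W` has no invariants, so `W = 0`. So `Fil (m+1) < Fil m` as long as `Fil m ≠ ⊥`, and the dimensions decrease.
-/

namespace Pool.Agent.Lib.MP_666dc0_nt.ZO

variable (k : Type) [Field k]

private theorem fixed_vector_aux {ℓ : ℕ} [Fact ℓ.Prime] {P : Type} [Group P]
    [Finite P] (hP : IsPGroup ℓ P) {V : Type} [AddCommGroup V] [Module (ZMod ℓ) V]
    (act : P → V →+ V) (hact1 : ∀ w, act 1 w = w) (hactm : ∀ x y w, act (x * y) w = act x (act y w))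
    (v : V) (hv : v ≠ 0) : ∃ v : V, v ≠ 0 ∧ ∀ x : P, act x v = v := by
  have hX0 : Finite (Submodule.span (ZMod ℓ) (Set.range fun x : P => act x v)) := by
    have : Module.Finite (ZMod ℓ) (Submodule.span (ZMod ℓ) (Set.range fun x : P => act x v)) :=
      Module.Finite.span_of_finite (ZMod ℓ) (Set.finite_range _)
    exact Module.finite_of_finite (ZMod ℓ)
  obtain ⟨X, hX⟩ : ∃ X : Submodule (ZMod ℓ) V, X = Submodule.span (ZMod ℓ) (Set.range fun x : P => act x v) :=
    ⟨_, rfl⟩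
  rw [← hX] at hX0
  have hXact : ∀ (x : P) (w : V), w ∈ X → act x w ∈ X := by
    intro x w hw
    rw [hX] at hw ⊢
    refine Submodule.span_induction ?_ ?_ ?_ ?_ hw
    · rintro _ ⟨y, rfl⟩
      exact Submodule.subset_span ⟨x * y, hactm x y v⟩
    · rw [map_zero]; exact Submodule.zero_mem _
    · intro u w _ _ hu hw
      rw [map_add]; exact Submodule.add_mem _ hu hw
    · intro t u _ hu
      have h1 : act x (t • u) = t • act x u := by
        obtain ⟨m, rfl⟩ := ZMod.natCast_zmod_surjective t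
        rw [Nat.cast_smul_eq_nsmul, Nat.cast_smul_eq_nsmul, map_nsmul]
      rw [h1]; exact Submodule.smul_mem _ t hu
  let _ : MulAction P X :=
    { smul := fun x w => ⟨act x w.1, hXact x w.1 w.2⟩
      one_smul := fun w => Subtype.ext (hact1 w.1)
      mul_smul := fun x y w => Subtype.ext (hactm x y w.1) }
  have hsm : ∀ (x : P) (w : X), ((x • w : X) : V) = act x w.1 := fun x w => rfl
  have hvX : v ∈ X := by rw [hX]; exact Submodule.subset_span ⟨1, hact1 v⟩
  have htor : ∀ w : V, ℓ • w = 0 := fun w => by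
    rw [← Nat.cast_smul_eq_nsmul (ZMod ℓ) ℓ w, ZMod.natCast_self, zero_smul]
  have hcard : ℓ ∣ Nat.card X := by
    have h1 : addOrderOf (⟨v, hvX⟩ : X) = ℓ := by
      refine addOrderOf_eq_prime ?_ ?_
      · exact Subtype.ext (htor v)
      · intro h
        exact hv (congrArg Subtype.val h)
    have h2 := addOrderOf_dvd_natCard (⟨v, hvX⟩ : X)
    rwa [h1] at h2
  obtain ⟨b, hb, hb0⟩ := hP.exists_fixed_point_of_prime_dvd_card_of_fixed_point X hcard
    (a := (0 : X)) (by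
      intro x
      apply Subtype.ext
      rw [hsm]
      exact map_zero (act x))
  refine ⟨b.1, ?_, ?_⟩
  · intro h
    exact hb0 (Subtype.ext h.symm)
  · intro x
    have h2 := congrArg Subtype.val (hb x)
    rw [hsm] at h2
    exact h2

/-- A finite `ℓ`-group acting on a non-zero module in characteristic `ℓ` has a non-zero fixed vector. -/
private theorem fixed_vector {k : Type} [Field k] {ℓ : ℕ} [Fact ℓ.Prime] [CharP k ℓ] {P : Type} [Group P]
    [Finite P] (hP : IsPGroup ℓ P) {V : Type} [AddCommGroup V] [Module (MonoidAlgebra k P) V]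
    (hV : Nontrivial V) : ∃ v : V, v ≠ 0 ∧
      ∀ x : P, (MonoidAlgebra.single x 1 : MonoidAlgebra k P) • v = v := by
  obtain ⟨v, hv⟩ := exists_ne (0 : V)
  have htor : ∀ w : V, ℓ • w = 0 := by
    intro w
    have h1 : ((ℓ : ℕ) : MonoidAlgebra k P) = 0 := by
      have h2 : ((ℓ : ℕ) : MonoidAlgebra k P) = algebraMap k (MonoidAlgebra k P) ((ℓ : ℕ) : k) := by
        rw [map_natCast]
      rw [h2, CharP.cast_eq_zero, map_zero]
    rw [← Nat.cast_smul_eq_nsmul (MonoidAlgebra k P) ℓ w, h1, zero_smul]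
  let _ : Module (ZMod ℓ) V := AddCommGroup.zmodModule htor
  refine fixed_vector_aux hP
    (fun x => DistribSMul.toAddMonoidHom V (MonoidAlgebra.single x 1 : MonoidAlgebra k P)) ?_ ?_ v hv
  · intro w
    change (MonoidAlgebra.single (1 : P) (1 : k)) • w = w
    rw [← MonoidAlgebra.one_def, one_smul]
  · intro x y w
    change (MonoidAlgebra.single (x * y) (1 : k)) • w =
      (MonoidAlgebra.single x (1 : k)) • (MonoidAlgebra.single y (1 : k)) • w
    rw [smul_smul, MonoidAlgebra.single_mul_single, one_mul]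

theorem fil_map {P P' : Type} [Group P] [Group P'] (f : P →* P') (m : ℕ) {a : MonoidAlgebra k P}
    (ha : a ∈ Fil k P m) : MonoidAlgebra.mapDomain f a ∈ Fil k P' m := by
  induction m generalizing a with
  | zero => exact Submodule.mem_top
  | succ m ih =>
    change a ∈ aug k P * Fil k P m at ha
    change MonoidAlgebra.mapDomain f a ∈ aug k P' * Fil k P' m
    refine Submodule.mul_induction_on ha ?_ ?_
    · intro b hb c hc
      have h1 : MonoidAlgebra.mapDomain f (b * c) =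
          MonoidAlgebra.mapDomain f b * MonoidAlgebra.mapDomain f c :=
        map_mul (MonoidAlgebra.mapDomainRingHom k f) b c
      rw [h1]
      refine Submodule.mul_mem_mul ?_ (ih hc)
      refine Submodule.span_induction ?_ ?_ ?_ ?_ hb
      · rintro _ ⟨x, rfl⟩
        have h2 : MonoidAlgebra.mapDomain f (MonoidAlgebra.single x 1 - 1 : MonoidAlgebra k P) =
            MonoidAlgebra.single (f x) 1 - 1 := by
          have h3 := map_sub (MonoidAlgebra.mapDomainRingHom k f) (MonoidAlgebra.single x 1) 1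
          rw [map_one] at h3
          have h4 : MonoidAlgebra.mapDomain f (MonoidAlgebra.single x 1 : MonoidAlgebra k P) =
            MonoidAlgebra.single (f x) 1 := MonoidAlgebra.mapDomain_single
          rw [← h4]
          exact h3
        rw [h2]
        exact Submodule.subset_span ⟨f x, rfl⟩
      · have := map_zero (MonoidAlgebra.mapDomainRingHom k f)
        change MonoidAlgebra.mapDomainRingHom k f 0 ∈ _
        rw [this]
        exact Submodule.zero_mem _
      · intro u v _ _ hu hv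
        change MonoidAlgebra.mapDomainRingHom k f (u + v) ∈ _
        rw [map_add]
        exact Submodule.add_mem _ hu hv
      · intro t u _ hu
        change MonoidAlgebra.mapDomainAlgHom k k f (t • u) ∈ _
        rw [map_smul]
        exact Submodule.smul_mem _ _ hu
    · intro b c hb hc
      change MonoidAlgebra.mapDomainRingHom k f (b + c) ∈ _
      rw [map_add]
      exact Submodule.add_mem _ hb hc

theorem fil_nilpotent {ℓ : ℕ} [Fact ℓ.Prime] [CharP k ℓ] (P : Type) [Group P] [Finite P]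
    (hP : IsPGroup ℓ P) : ∃ M : ℕ, Fil k P M = ⊥ := by
  classical
  have hℓ : ℓ.Prime := Fact.out
  -- the left annihilated left ideals
  let N : ℕ → Submodule (MonoidAlgebra k P) (MonoidAlgebra k P) := fun j =>
    { carrier := {a | ∀ b ∈ Fil k P j, b * a = 0}
      add_mem' := by
        intro a c ha hc b hb
        rw [mul_add, ha b hb, hc b hb, add_zero]
      zero_mem' := by
        intro b _
        rw [mul_zero]
      smul_mem' := by
        intro c a ha b hb
        rw [smul_eq_mul, ← mul_assoc]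
        refine ha _ ?_
        have := fil_mul k hb (m' := 0) (b := c) Submodule.mem_top
        rwa [Nat.add_zero] at this }
  have hN : ∀ j a, a ∈ N j ↔ ∀ b ∈ Fil k P j, b * a = 0 := fun j a => Iff.rfl
  have hfil : ∀ j, Fil k P (j + 1) ≤ Fil k P j * aug k P := by
    intro j
    induction j with
    | zero =>
      change aug k P * ⊤ ≤ ⊤ * aug k P
      refine (aug_mul_top k).trans ?_
      intro a ha
      have := Submodule.mul_mem_mul (Submodule.mem_top (R := k) (x := (1 : MonoidAlgebra k P))) ha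
      rwa [one_mul] at this
    | succ j ih =>
      change aug k P * Fil k P (j + 1) ≤ (aug k P * Fil k P j) * aug k P
      rw [mul_assoc]
      exact Submodule.mul_le.2 (fun u hu w hw => Submodule.mul_mem_mul hu (ih hw))
  have hmono : Monotone fun j => (N j).restrictScalars k := by
    intro i j hij a ha
    rw [Submodule.restrictScalars_mem, hN] at ha ⊢
    exact fun b hb => ha b (fil_anti k hij hb)
  have hnoeth : IsNoetherian k (MonoidAlgebra k P) := by
    have : Module.Finite k (MonoidAlgebra k P) := inferInstance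
    infer_instance
  obtain ⟨n, hn⟩ := monotone_stabilizes_iff_noetherian.2 hnoeth ⟨_, hmono⟩
  have hn1 : N n = N (n + 1) := by
    have := hn (n + 1) (Nat.le_succ n)
    ext a
    have h2 : a ∈ (N n).restrictScalars k ↔ a ∈ (N (n + 1)).restrictScalars k := by
      change a ∈ (fun j => (N j).restrictScalars k) n ↔ a ∈ (fun j => (N j).restrictScalars k) (n + 1)
      rw [show (fun j => (N j).restrictScalars k) n = (fun j => (N j).restrictScalars k) (n + 1) from this]
    exact h2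
  refine ⟨n, ?_⟩
  by_contra hne
  have htop : N n ≠ ⊤ := by
    intro h
    apply hne
    rw [Submodule.eq_bot_iff]
    intro b hb
    have h1 : (1 : MonoidAlgebra k P) ∈ N n := by rw [h]; exact Submodule.mem_top
    have := (hN n 1).1 h1 b hb
    rwa [mul_one] at this
  -- a fixed vector in the quotient
  obtain ⟨v, hv0, hvfix⟩ := fixed_vector (k := k) hP (V := MonoidAlgebra k P ⧸ N n)
    (Submodule.Quotient.nontrivial_iff.2 htop)
  obtain ⟨a, rfl⟩ := Submodule.Quotient.mk_surjective _ v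
  apply hv0
  rw [Submodule.Quotient.mk_eq_zero, hn1, hN]
  intro b hb
  have hb' := hfil n hb
  refine Submodule.mul_induction_on hb' ?_ ?_
  · intro c hc d hd
    rw [mul_assoc]
    have hda : d * a ∈ N n := by
      refine Submodule.span_induction ?_ ?_ ?_ ?_ hd
      · rintro _ ⟨x, rfl⟩
        have h1 := hvfix x
        rw [← Submodule.Quotient.mk_smul, Submodule.Quotient.eq, smul_eq_mul] at h1
        rwa [sub_mul, one_mul]
      · rw [zero_mul]; exact Submodule.zero_mem _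
      · intro u w _ _ hu hw
        rw [add_mul]; exact Submodule.add_mem _ hu hw
      · intro t u _ hu
        rw [smul_mul_assoc]
        exact ((N n).restrictScalars k).smul_mem t hu
    exact (hN n _).1 hda c hc
  · intro c d hc hd
    rw [add_mul, hc, hd, add_zero]

end Pool.Agent.Lib.MP_666dc0_nt.ZO
end

section

/-!
TASK R2a. The graded ring of the group algebra of a uniform group is a truncated polynomial ring.

`A = MonoidAlgebra k P`, characteristic `ℓ`, `q = ℓ ^ s`, `X i = dl k (g i)`, `|α| = ∑ i, α i`.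
* `mono_mem`: `X i ^ a ∈ Fil a` (`pow_mem_fil`), `fil_mul`, induction over the list.
* `mono_eq_zero`: `(X i) ^ q = dl k (g i ^ q) = 0` (`sub_pow_char_pow_of_commute`, `q = ℓ ^ s`).
* `mono_mul`: moving one factor `X j` past `X i` changes a product of total degree `m` by an element of `Fil (m + 1)` (`comm_mem_fil`: the commutator is in `Fil 3`, so a product of total degree `m`
  with `X i * X j` replaced by the commutator is in `Fil (m - 2 + 3)`). So modulo `Fil (m + 1)` the products of `m` factors `X i` depend only on the number of the factors of each kind.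
  (Convenient: for lists `l : List (Fin d)`, `(l.map X).prod ∈ Fil l.length`, and for `l ~ l'` (permutation, `List.Perm` induction) the difference is in `Fil (l.length + 1)`; `mono α` is
  the product for the list in which `i` is repeated `α i` times.)
-/

namespace Pool.Agent.Lib.MP_666dc0_nt.ZO

variable (k : Type) [Field k] {ℓ : ℕ} [Fact ℓ.Prime] [CharP k ℓ] {s d : ℕ} {P : Type} [Group P]
  {g : Fin d → P}

private noncomputable def prodX (g : Fin d → P) (l : List (Fin d)) : MonoidAlgebra k P :=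
  (l.map fun i => dl k (g i)).prod

private theorem prodX_nil (g : Fin d → P) : prodX k g [] = 1 := rfl

private theorem prodX_cons (g : Fin d → P) (i : Fin d) (l : List (Fin d)) :
    prodX k g (i :: l) = dl k (g i) * prodX k g l := by
  simp [prodX]

private theorem prodX_append (g : Fin d → P) (l l' : List (Fin d)) :
    prodX k g (l ++ l') = prodX k g l * prodX k g l' := by
  simp [prodX]

private theorem prodX_mem (g : Fin d → P) (l : List (Fin d)) : prodX k g l ∈ Fil k P l.length := by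
  induction l with
  | nil => exact Submodule.mem_top
  | cons i l ih =>
    rw [prodX_cons, List.length_cons, add_comm l.length 1]
    exact fil_mul k (dl_mem k (g i)) ih

private theorem prodX_perm (hc : ∀ x y : P, x * y * x⁻¹ * y⁻¹ ∈
    Subgroup.closure {z : P | ∃ t : P, z = t ^ pe ℓ}) (g : Fin d → P) {l l' : List (Fin d)}
    (h : l.Perm l') : prodX k g l - prodX k g l' ∈ Fil k P (l.length + 1) := by
  induction h with
  | nil => rw [sub_self]; exact Submodule.zero_mem _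
  | @cons i l l' h ih =>
    rw [prodX_cons, prodX_cons, ← mul_sub]
    have h1 := fil_mul k (dl_mem k (g i)) ih
    have e : (i :: l).length + 1 = 1 + (l.length + 1) := by
      rw [List.length_cons]; ring
    rw [e]
    exact h1
  | @swap i j l =>
    rw [prodX_cons, prodX_cons, prodX_cons, prodX_cons, ← mul_assoc, ← mul_assoc, ← sub_mul]
    have h1 := fil_mul k (comm_mem_fil k hc (g j) (g i)) (prodX_mem k g l)
    have e : (j :: i :: l).length + 1 = 3 + l.length := by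
      rw [List.length_cons, List.length_cons]; ring
    rw [e]
    exact h1
  | @trans l l' l'' h h' ih ih' =>
    have e : prodX k g l - prodX k g l'' = (prodX k g l - prodX k g l') +
        (prodX k g l' - prodX k g l'') := by abel
    rw [e]
    refine Submodule.add_mem _ ih ?_
    rw [h.length_eq]
    exact ih'

private def lst (α : Fin d → ℕ) : List (Fin d) :=
  (List.ofFn fun i => List.replicate (α i) i).flatten

private theorem mono_eq (g : Fin d → P) (α : Fin d → ℕ) : mono k g α = prodX k g (lst α) := by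
  unfold mono prodX lst
  rw [List.map_flatten, List.prod_flatten, List.map_ofFn, List.map_ofFn]
  congr 1
  congr 1
  funext i
  simp [Function.comp]

private theorem lst_length (α : Fin d → ℕ) : (lst α).length = ∑ i, α i := by
  unfold lst
  rw [List.length_flatten, List.map_ofFn, List.sum_ofFn]
  simp [Function.comp]

private theorem lst_count (α : Fin d → ℕ) (j : Fin d) : (lst α).count j = α j := by
  unfold lst
  rw [List.count_flatten, List.map_ofFn, List.sum_ofFn]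
  rw [Finset.sum_eq_single j]
  · simp [Function.comp]
  · intro i _ hij
    simp only [Function.comp]
    rw [List.count_replicate]
    simp [hij]
  · intro h
    exact absurd (Finset.mem_univ j) h

private theorem lst_perm (α β : Fin d → ℕ) : (lst α ++ lst β).Perm (lst (α + β)) := by
  rw [List.perm_iff_count]
  intro j
  rw [List.count_append, lst_count, lst_count, lst_count]
  rfl

theorem mono_mem (g : Fin d → P) (α : Fin d → ℕ) : mono k g α ∈ Fil k P (∑ i, α i) := by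
  rw [mono_eq, ← lst_length α]
  exact prodX_mem k g _

theorem mono_eq_zero (hg : IsUG ℓ (ℓ ^ s) d P g) {α : Fin d → ℕ} {i : Fin d} (hi : ℓ ^ s ≤ α i) :
    mono k g α = 0 := by
  have hchar : CharP (MonoidAlgebra k P) ℓ :=
    charP_of_injective_algebraMap (algebraMap k (MonoidAlgebra k P)).injective ℓ
  have h0 : dl k (g i) ^ (ℓ ^ s) = 0 := by
    unfold dl
    rw [sub_pow_char_pow_of_commute ℓ s (Commute.one_right _), MonoidAlgebra.single_pow, hg.pow i,
      one_pow, one_pow]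
    exact sub_self _
  have h1 : dl k (g i) ^ (α i) = 0 := by
    obtain ⟨c, hc⟩ := Nat.exists_eq_add_of_le hi
    rw [hc, pow_add, h0, zero_mul]
  unfold mono
  apply List.prod_eq_zero
  rw [List.mem_ofFn]
  exact ⟨i, h1⟩

theorem mono_mul (hg : IsUG ℓ (ℓ ^ s) d P g) (α β : Fin d → ℕ) :
    mono k g α * mono k g β - mono k g (α + β) ∈ Fil k P (∑ i, α i + ∑ i, β i + 1) := by
  rw [mono_eq, mono_eq, mono_eq, ← prodX_append]
  have h := prodX_perm k hg.comm g (lst_perm α β)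
  rw [List.length_append, lst_length, lst_length] at h
  exact h

end Pool.Agent.Lib.MP_666dc0_nt.ZO
end

section

/-!
TASK R2b. The graded ring of the group algebra of a uniform group is a truncated polynomial ring.

`A = MonoidAlgebra k P`, characteristic `ℓ`, `q = ℓ ^ s`, `X i = dl k (g i)`, `|α| = ∑ i, α i`.
* `fil_le_span`: `Fil m ≤ span {mono α | α i < q, m ≤ |α|}`. First `aug = ∑ X i * ⊤` (`dl (x y) = dl x * single y + dl y`; `closure (range g) = ⊤` in a finite group: `Subgroup.closure_induction`, inverses: `dl x⁻¹ = - dl x * single x⁻¹`),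
  so `Fil (m+1)` is spanned by the `X i * b`, `b ∈ Fil m`. By induction on `m`: `Fil m ≤ span {mono α : |α| = m} + Fil (m+1)` (for `m = 0`: `A = k + aug`; step: `X i * mono α` is `mono (α + e_i)` modulo `Fil (m+2)`).
  As `Fil M = ⊥` for some `M` (`fil_nilpotent`; `P` is an `ℓ`-group since its order is `q ^ d`, `IsPGroup.of_card`), downward induction gives the claim (for `m ≥ M` it is clear; the monomials with some `α i ≥ q` are zero).
-/

namespace Pool.Agent.Lib.MP_666dc0_nt.ZO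

variable (k : Type) [Field k] {ℓ : ℕ} [Fact ℓ.Prime] [CharP k ℓ] {s d : ℕ} {P : Type} [Group P]
  {g : Fin d → P}

omit [Fact ℓ.Prime] [CharP k ℓ] in
private theorem R2b_dl {ℓ q : ℕ} (hg : IsUG ℓ q d P g) (x : P) :
    dl k x ∈ Submodule.span k {b : MonoidAlgebra k P | ∃ (i : Fin d) (c : MonoidAlgebra k P), b = dl k (g i) * c} := by
  have hJ : ∀ a ∈ Submodule.span k {b : MonoidAlgebra k P | ∃ (i : Fin d) (c : MonoidAlgebra k P), b = dl k (g i) * c},
      ∀ y : MonoidAlgebra k P,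
      a * y ∈ Submodule.span k {b : MonoidAlgebra k P | ∃ (i : Fin d) (c : MonoidAlgebra k P), b = dl k (g i) * c} := by
    intro a ha y
    refine Submodule.span_induction ?_ ?_ ?_ ?_ ha
    · rintro _ ⟨i, c, rfl⟩
      exact Submodule.subset_span ⟨i, c * y, mul_assoc _ _ _⟩
    · rw [zero_mul]
      exact Submodule.zero_mem _
    · intro u v _ _ hu hv
      rw [add_mul]
      exact Submodule.add_mem _ hu hv
    · intro r u _ hu
      rw [smul_mul_assoc]
      exact Submodule.smul_mem _ _ hu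
  have hx : x ∈ Subgroup.closure (Set.range g) := by
    rw [hg.gen]
    exact Subgroup.mem_top x
  refine Subgroup.closure_induction ?_ ?_ ?_ ?_ hx
  · rintro _ ⟨i, rfl⟩
    exact Submodule.subset_span ⟨i, 1, (mul_one _).symm⟩
  · rw [dl_one]
    exact Submodule.zero_mem _
  · intro u v _ _ hu hv
    rw [dl_mul]
    exact Submodule.add_mem _ (Submodule.add_mem _ (hJ _ hu _) hu) hv
  · intro u _ hu
    have h1 := dl_mul k u u⁻¹
    rw [mul_inv_cancel, dl_one] at h1
    have h2 : - (dl k u * dl k u⁻¹) - dl k u = dl k u⁻¹ := by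
      have h3 : - (dl k u * dl k u⁻¹) - dl k u = dl k u⁻¹ - (dl k u * dl k u⁻¹ + dl k u + dl k u⁻¹) := by abel
      rw [h3, ← h1, sub_zero]
    rw [← h2]
    exact Submodule.sub_mem _ (Submodule.neg_mem _ (hJ _ hu _)) hu

omit [Fact ℓ.Prime] [CharP k ℓ] in
private theorem R2b_succ {ℓ q : ℕ} (hg : IsUG ℓ q d P g) (m : ℕ) :
    Fil k P (m + 1) ≤ Submodule.span k {b : MonoidAlgebra k P | ∃ (i : Fin d), ∃ c ∈ Fil k P m, b = dl k (g i) * c} := by
  have h0 : Fil k P (m + 1) = aug k P * Fil k P m := rfl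
  rw [h0]
  refine Submodule.mul_le.2 ?_
  intro a ha b hb
  have h1 : a ∈ Submodule.span k {b : MonoidAlgebra k P | ∃ (i : Fin d) (c : MonoidAlgebra k P), b = dl k (g i) * c} := by
    refine (Submodule.span_le.2 ?_ : aug k P ≤ _) ha
    rintro _ ⟨x, rfl⟩
    exact R2b_dl k hg x
  refine Submodule.span_induction ?_ ?_ ?_ ?_ h1
  · rintro _ ⟨i, c, rfl⟩
    refine Submodule.subset_span ⟨i, c * b, ?_, mul_assoc _ _ _⟩
    have h2 := fil_mul k (m := 0) (m' := m) (show c ∈ Fil k P 0 from Submodule.mem_top) hb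
    rwa [zero_add] at h2
  · rw [zero_mul]
    exact Submodule.zero_mem _
  · intro u v _ _ hu hv
    rw [add_mul]
    exact Submodule.add_mem _ hu hv
  · intro r u _ hu
    rw [smul_mul_assoc]
    exact Submodule.smul_mem _ _ hu

private theorem R2b_list {M : Type*} [Monoid M] : ∀ (d : ℕ) (f : Fin d → M), (∀ j, f j = 1) → (List.ofFn f).prod = 1
  | 0, f, _ => by simp
  | d + 1, f, h => by
    rw [List.ofFn_succ, List.prod_cons, h 0, one_mul]
    exact R2b_list d _ fun j => h j.succ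

private theorem R2b_list1 {M : Type*} [Monoid M] : ∀ (d : ℕ) (f : Fin d → M) (i : Fin d), (∀ j, j ≠ i → f j = 1) →
    (List.ofFn f).prod = f i
  | 0, _, i, _ => i.elim0
  | d + 1, f, i, h => by
    rw [List.ofFn_succ, List.prod_cons]
    rcases Fin.eq_zero_or_eq_succ i with hi | ⟨j, hj⟩
    · subst hi
      rw [R2b_list d _ fun j => h j.succ (Fin.succ_ne_zero j), mul_one]
    · subst hj
      rw [h 0 (Fin.succ_ne_zero j).symm, one_mul]
      exact R2b_list1 d (fun i => f i.succ) j fun j' hj' => h j'.succ fun h1 => hj' (Fin.succ_injective d h1)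

omit [Fact ℓ.Prime] [CharP k ℓ] in
private theorem R2b_mono_zero (g : Fin d → P) : mono k g 0 = 1 := by
  refine R2b_list d _ fun j => ?_
  rw [Pi.zero_apply, pow_zero]

omit [Fact ℓ.Prime] [CharP k ℓ] in
private theorem R2b_mono_single (g : Fin d → P) (i : Fin d) : mono k g (Pi.single i 1) = dl k (g i) := by
  have h1 := R2b_list1 d (fun j => dl k (g j) ^ (Pi.single i 1 : Fin d → ℕ) j) i (fun j hj => by
    rw [Pi.single_eq_of_ne hj, pow_zero])
  rw [Pi.single_eq_same, pow_one] at h1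
  exact h1

private theorem R2b_step (hg : IsUG ℓ (ℓ ^ s) d P g) : ∀ m : ℕ,
    Fil k P m ≤ Submodule.span k {a | ∃ α : Fin d → ℕ, ∑ i, α i = m ∧ a = mono k g α} ⊔ Fil k P (m + 1)
  | 0 => by
    intro a _
    induction a using MonoidAlgebra.induction_on with
    | of x =>
      have h1 : MonoidAlgebra.of k P x = 1 + dl k x := by
        unfold dl
        rw [add_sub_cancel]
        rfl
      rw [h1]
      refine Submodule.add_mem_sup (Submodule.subset_span ⟨0, by simp, (R2b_mono_zero k g).symm⟩) (dl_mem k x)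
    | add u v hu hv => exact Submodule.add_mem _ (hu Submodule.mem_top) (hv Submodule.mem_top)
    | smul r u hu => exact Submodule.smul_mem _ _ (hu Submodule.mem_top)
  | m + 1 => by
    refine (R2b_succ k hg m).trans (Submodule.span_le.2 ?_)
    rintro _ ⟨i, c, hc, rfl⟩
    obtain ⟨u, hu, v, hv, rfl⟩ := Submodule.mem_sup.1 (R2b_step hg m hc)
    rw [mul_add]
    refine Submodule.add_mem _ ?_ ?_
    · refine Submodule.span_induction ?_ ?_ ?_ ?_ hu
      · rintro _ ⟨α, hα, rfl⟩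
        have h1 := mono_mul k hg (Pi.single i 1) α
        have h2 : ∑ j, (Pi.single i 1 : Fin d → ℕ) j = 1 := by
          rw [Finset.sum_pi_single']
          simp
        rw [R2b_mono_single, h2, hα] at h1
        have h3 : dl k (g i) * mono k g α = mono k g (Pi.single i 1 + α) +
            (dl k (g i) * mono k g α - mono k g (Pi.single i 1 + α)) := by abel
        rw [h3]
        refine Submodule.add_mem_sup (Submodule.subset_span ⟨_, ?_, rfl⟩) ?_
        · simp only [Pi.add_apply]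
          rw [Finset.sum_add_distrib, h2, hα, add_comm]
        · rwa [add_comm 1 m] at h1
      · rw [mul_zero]
        exact Submodule.zero_mem _
      · intro u v _ _ hu hv
        rw [mul_add]
        exact Submodule.add_mem _ hu hv
      · intro r u _ hu
        rw [mul_smul_comm]
        exact Submodule.smul_mem _ _ hu
    · have h1 := fil_mul k (dl_mem k (g i)) hv
      rw [show 1 + (m + 1) = m + 1 + 1 by ring] at h1
      exact Submodule.mem_sup_right h1

theorem fil_le_span (hg : IsUG ℓ (ℓ ^ s) d P g) (m : ℕ) :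
    Fil k P m ≤ Submodule.span k {a | ∃ α : Fin d → ℕ, (∀ i, α i < ℓ ^ s) ∧ m ≤ ∑ i, α i ∧ a = mono k g α} := by
  have hℓ : 0 < ℓ := (Fact.out : ℓ.Prime).pos
  have hfin : Finite P := Nat.finite_of_card_ne_zero (by
    rw [hg.card]
    exact (pow_pos (pow_pos hℓ s) d).ne')
  obtain ⟨M, hM⟩ := fil_nilpotent k (ℓ := ℓ) P (IsPGroup.of_card (n := s * d) (by rw [hg.card, pow_mul]))
  have key : ∀ j m : ℕ, M ≤ m + j → Fil k P m ≤
      Submodule.span k {a | ∃ α : Fin d → ℕ, (∀ i, α i < ℓ ^ s) ∧ m ≤ ∑ i, α i ∧ a = mono k g α} := by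
    intro j
    induction j with
    | zero =>
      intro m h
      refine (fil_anti k h).trans ?_
      rw [hM]
      exact bot_le
    | succ j ih =>
      intro m h
      refine (R2b_step k hg m).trans (sup_le ?_ ?_)
      · refine Submodule.span_le.2 ?_
        rintro _ ⟨α, hα, rfl⟩
        by_cases h1 : ∀ i, α i < ℓ ^ s
        · exact Submodule.subset_span ⟨α, h1, hα.ge, rfl⟩
        · push Not at h1
          obtain ⟨i, hi⟩ := h1
          rw [SetLike.mem_coe, mono_eq_zero k hg hi]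
          exact Submodule.zero_mem _
      · refine (ih (m + 1) (by omega)).trans (Submodule.span_mono ?_)
        rintro _ ⟨α, h1, h2, rfl⟩
        exact ⟨α, h1, by omega, rfl⟩
  exact key M m (by omega)

end Pool.Agent.Lib.MP_666dc0_nt.ZO
end

section

/-!
# Left translations of functions on a group by elements of the group ring `ℤ[G]`
-/

namespace Pool.Agent.Lib.MP_666dc0_nt.FM

open ZO

variable {ℓ d : ℕ} [Fact ℓ.Prime] {𝒯 : UTow ℓ d} {G : Type} [Group G]

/-- The left translations. -/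
noncomputable def ltr (ℓ : ℕ) [Fact ℓ.Prime] (G : Type) [Group G] :
    G →* Module.End (PadicAlgCl ℓ) (G → PadicAlgCl ℓ) where
  toFun g :=
    { toFun := fun φ x => φ (g⁻¹ * x)
      map_add' := fun _ _ => rfl
      map_smul' := fun _ _ => rfl }
  map_one' := by
    refine LinearMap.ext fun φ => funext fun x => ?_
    change φ (1⁻¹ * x) = φ x
    rw [inv_one, one_mul]
  map_mul' g h := by
    refine LinearMap.ext fun φ => funext fun x => ?_
    change φ ((g * h)⁻¹ * x) = φ (h⁻¹ * (g⁻¹ * x))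
    rw [mul_inv_rev, mul_assoc]

/-- The action of the group ring. -/
noncomputable def tr (ℓ : ℕ) [Fact ℓ.Prime] (G : Type) [Group G] :
    MonoidAlgebra ℤ G →+* Module.End (PadicAlgCl ℓ) (G → PadicAlgCl ℓ) :=
  (MonoidAlgebra.lift ℤ (Module.End (PadicAlgCl ℓ) (G → PadicAlgCl ℓ)) G (ltr ℓ G)).toRingHom

theorem tr_single (g : G) (n : ℤ) (φ : G → PadicAlgCl ℓ) (x : G) :
    tr ℓ G (MonoidAlgebra.single g n) φ x = (n : PadicAlgCl ℓ) * φ (g⁻¹ * x) := by
  change (MonoidAlgebra.lift ℤ (Module.End (PadicAlgCl ℓ) (G → PadicAlgCl ℓ)) G (ltr ℓ G)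
    (MonoidAlgebra.single g n)) φ x = _
  rw [MonoidAlgebra.lift_single, LinearMap.smul_apply, Pi.smul_apply, zsmul_eq_mul]
  rfl

/-- The projection of the group ring to a finite level. -/
noncomputable def pj (𝒬 : QTow 𝒯 G) (s : ℕ) : MonoidAlgebra ℤ G →+* 𝒯.la.A s :=
  (MonoidAlgebra.mapRingHom (𝒯.P s) (Int.castRingHom (ZMod (ℓ ^ (s + 1))))).comp
    (MonoidAlgebra.mapDomainRingHom ℤ (𝒬.q s))

theorem pj_single (𝒬 : QTow 𝒯 G) (s : ℕ) (g : G) (n : ℤ) :
    pj 𝒬 s (MonoidAlgebra.single g n) =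
      (MonoidAlgebra.single (𝒬.q s g) (n : ZMod (ℓ ^ (s + 1))) : MonoidAlgebra (ZMod (ℓ ^ (s + 1))) (𝒯.P s)) := by
  change MonoidAlgebra.mapRingHom (𝒯.P s) (Int.castRingHom (ZMod (ℓ ^ (s + 1))))
    (MonoidAlgebra.mapDomain (𝒬.q s) (MonoidAlgebra.single g n)) = _
  rw [MonoidAlgebra.mapDomain_single, MonoidAlgebra.mapRingHom_single]
  rfl

theorem pj_surj (𝒬 : QTow 𝒯 G) (s : ℕ) : Function.Surjective (pj 𝒬 s) := by
  intro a
  have key : ∀ a : MonoidAlgebra (ZMod (ℓ ^ (s + 1))) (𝒯.P s), ∃ c, pj 𝒬 s c = a := by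
    intro a
    induction a using MonoidAlgebra.induction_linear with
    | zero => exact ⟨0, map_zero _⟩
    | add f g hf hg =>
      obtain ⟨c, rfl⟩ := hf
      obtain ⟨c', rfl⟩ := hg
      exact ⟨c + c', map_add _ _ _⟩
    | single p z =>
      obtain ⟨g, rfl⟩ := 𝒬.surj s p
      obtain ⟨n, rfl⟩ := ZMod.intCast_surjective z
      exact ⟨MonoidAlgebra.single g n, pj_single 𝒬 s g n⟩
  exact key a

theorem pj_compat (𝒬 : QTow 𝒯 G) (s : ℕ) (c : MonoidAlgebra ℤ G) : 𝒯.la.f s (pj 𝒬 (s + 1) c) = pj 𝒬 s c := by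
  induction c using MonoidAlgebra.induction_linear with
  | zero => simp only [map_zero]
  | add f g hf hg => simp only [map_add, hf, hg]
  | single g n =>
    rw [pj_single, pj_single]
    change MonoidAlgebra.mapDomain (𝒯.pr s) ((MonoidAlgebra.mapRingHom (𝒯.P (s + 1))
      (ZMod.castHom (pow_dvd_pow ℓ (Nat.le_succ (s + 1))) (ZMod (ℓ ^ (s + 1)))))
      (MonoidAlgebra.single (𝒬.q (s + 1) g) (n : ZMod (ℓ ^ (s + 1 + 1))))) = _
    rw [MonoidAlgebra.mapRingHom_single, MonoidAlgebra.mapDomain_single, map_intCast, 𝒬.compat]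

/-- The projection to a lower level. -/
theorem la_down {s t : ℕ} (h : s ≤ t) : ∀ (a b : 𝒯.La), 𝒯.la.pi t a = 𝒯.la.pi t b → 𝒯.la.pi s a = 𝒯.la.pi s b := by
  induction h with
  | refl => exact fun _ _ h => h
  | @step m _ ih =>
    intro a b h
    refine ih a b ?_
    rw [← RTow.f_pi 𝒯.la m a, ← RTow.f_pi 𝒯.la m b]
    exact congrArg _ h

theorem pj_down (𝒬 : QTow 𝒯 G) {s t : ℕ} (h : s ≤ t) : ∀ (a : 𝒯.La) (c : MonoidAlgebra ℤ G),
    pj 𝒬 t c = 𝒯.la.pi t a → pj 𝒬 s c = 𝒯.la.pi s a := by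
  induction h with
  | refl => exact fun _ _ h => h
  | @step m _ ih =>
    intro a c h
    refine ih a c ?_
    rw [← RTow.f_pi 𝒯.la m a, ← pj_compat]
    exact congrArg _ h

theorem q_down (𝒬 : QTow 𝒯 G) {s t : ℕ} (h : s ≤ t) : ∀ x : G, 𝒬.q t x = 1 → 𝒬.q s x = 1 := by
  induction h with
  | refl => exact fun _ h => h
  | step _ ih =>
    intro x h
    refine ih x ?_
    rw [← 𝒬.compat, h, map_one]

theorem norm_int_le (n : ℤ) : ‖(n : PadicAlgCl ℓ)‖ ≤ 1 := by
  have h : (n : PadicAlgCl ℓ) = ((n : ℚ_[ℓ]) : PadicAlgCl ℓ) := (map_intCast (algebraMap ℚ_[ℓ] (PadicAlgCl ℓ)) n).symm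
  rw [h, PadicAlgCl.norm_extends]
  exact Padic.norm_int_le_one n

theorem norm_int_dvd {m : ℕ} {n : ℤ} (h : ((n : ℤ) : ZMod (ℓ ^ m)) = 0) : ‖(n : PadicAlgCl ℓ)‖ ≤ (ℓ : ℝ)⁻¹ ^ m := by
  have h1 : ((ℓ ^ m : ℕ) : ℤ) ∣ n := (ZMod.intCast_zmod_eq_zero_iff_dvd n (ℓ ^ m)).1 h
  obtain ⟨z, rfl⟩ := h1
  have hl : ‖(ℓ : PadicAlgCl ℓ)‖ = (ℓ : ℝ)⁻¹ := by
    have h2 : ((ℓ : ℚ_[ℓ]) : PadicAlgCl ℓ) = (ℓ : PadicAlgCl ℓ) := map_natCast (algebraMap ℚ_[ℓ] (PadicAlgCl ℓ)) ℓ
    rw [← h2, PadicAlgCl.norm_extends, Padic.norm_p]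
  rw [Int.cast_mul, norm_mul, Int.cast_natCast, Nat.cast_pow, norm_pow, hl]
  have h3 : (0 : ℝ) ≤ (ℓ : ℝ)⁻¹ ^ m := by positivity
  calc (ℓ : ℝ)⁻¹ ^ m * ‖((z : ℤ) : PadicAlgCl ℓ)‖ ≤ (ℓ : ℝ)⁻¹ ^ m * 1 :=
        mul_le_mul_of_nonneg_left (norm_int_le z) h3
    _ = (ℓ : ℝ)⁻¹ ^ m := mul_one _

theorem tr_apply (c : MonoidAlgebra ℤ G) (φ : G → PadicAlgCl ℓ) (x : G) :
    tr ℓ G c φ x = c.coeff.sum fun g n => (n : PadicAlgCl ℓ) * φ (g⁻¹ * x) := by
  change (MonoidAlgebra.lift ℤ (Module.End (PadicAlgCl ℓ) (G → PadicAlgCl ℓ)) G (ltr ℓ G) c) φ x = _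
  rw [MonoidAlgebra.lift_apply, Finsupp.sum, Finsupp.sum, LinearMap.sum_apply, Finset.sum_apply]
  refine Finset.sum_congr rfl fun g _ => ?_
  rw [LinearMap.smul_apply, Pi.smul_apply, zsmul_eq_mul]
  rfl

theorem norm_tr_le (c : MonoidAlgebra ℤ G) {φ : G → PadicAlgCl ℓ} {C : ℝ} (hC : 0 ≤ C) (h : ∀ x, ‖φ x‖ ≤ C) (x : G) :
    ‖tr ℓ G c φ x‖ ≤ C := by
  rw [tr_apply, Finsupp.sum]
  refine IsUltrametricDist.norm_sum_le_of_forall_le_of_nonneg hC fun g _ => ?_
  rw [norm_mul]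
  calc ‖((c.coeff g : ℤ) : PadicAlgCl ℓ)‖ * ‖φ (g⁻¹ * x)‖ ≤ 1 * C :=
        mul_le_mul (norm_int_le _) (h _) (norm_nonneg _) zero_le_one
    _ = C := one_mul C

/-- An element of the group ring whose projection is zero is small. -/
theorem norm_tr_small (𝒬 : QTow 𝒯 G) {s : ℕ} {c : MonoidAlgebra ℤ G} (hc : pj 𝒬 s c = 0) {φ : G → PadicAlgCl ℓ}
    {C ε : ℝ} (hC : 0 ≤ C) (h : ∀ x, ‖φ x‖ ≤ C) (hε : 0 ≤ ε)
    (hφ : ∀ g, 𝒬.q s g = 1 → ∀ x, ‖φ (g * x) - φ x‖ ≤ ε) (x : G) :
    ‖tr ℓ G c φ x‖ ≤ max ε ((ℓ : ℝ)⁻¹ ^ (s + 1) * C) := by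
  classical
  -- a section
  choose σ hσ using 𝒬.surj s
  have h1 : tr ℓ G c φ x = (c.coeff.sum fun g n => (n : PadicAlgCl ℓ) * (φ (g⁻¹ * x) - φ ((σ (𝒬.q s g))⁻¹ * x))) +
      (MonoidAlgebra.mapDomain (𝒬.q s) c).coeff.sum fun p n => (n : PadicAlgCl ℓ) * φ ((σ p)⁻¹ * x) := by
    have h2 : (MonoidAlgebra.mapDomain (𝒬.q s) c).coeff.sum (fun p n => (n : PadicAlgCl ℓ) * φ ((σ p)⁻¹ * x)) =
        c.coeff.sum fun g n => (n : PadicAlgCl ℓ) * φ ((σ (𝒬.q s g))⁻¹ * x) := by
      change (Finsupp.mapDomain (𝒬.q s) c.coeff).sum _ = _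
      rw [Finsupp.sum_mapDomain_index]
      · intro b
        rw [Int.cast_zero, zero_mul]
      · intro b m₁ m₂
        rw [Int.cast_add, add_mul]
    rw [h2, tr_apply, ← Finsupp.sum_add]
    refine Finsupp.sum_congr fun g _ => ?_
    ring
  rw [h1]
  refine (IsUltrametricDist.norm_add_le_max _ _).trans (max_le_max ?_ ?_)
  · rw [Finsupp.sum]
    refine IsUltrametricDist.norm_sum_le_of_forall_le_of_nonneg hε fun g _ => ?_
    rw [norm_mul]
    have h3 : g⁻¹ * x = (g⁻¹ * σ (𝒬.q s g)) * ((σ (𝒬.q s g))⁻¹ * x) := by group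
    have h4 : 𝒬.q s (g⁻¹ * σ (𝒬.q s g)) = 1 := by rw [map_mul, map_inv, hσ, inv_mul_cancel]
    rw [h3]
    calc _ ≤ 1 * ε := mul_le_mul (norm_int_le _) (hφ _ h4 _) (norm_nonneg _) zero_le_one
      _ = ε := one_mul ε
  · rw [Finsupp.sum]
    refine IsUltrametricDist.norm_sum_le_of_forall_le_of_nonneg (by positivity) fun p _ => ?_
    rw [norm_mul]
    refine mul_le_mul (norm_int_dvd ?_) (h _) (norm_nonneg _) (by positivity)
    have h5 : (MonoidAlgebra.mapRingHom (𝒯.P s) (Int.castRingHom (ZMod (ℓ ^ (s + 1))))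
      (MonoidAlgebra.mapDomain (𝒬.q s) c)).coeff p = 0 := by
      have h6 : MonoidAlgebra.mapRingHom (𝒯.P s) (Int.castRingHom (ZMod (ℓ ^ (s + 1))))
        (MonoidAlgebra.mapDomain (𝒬.q s) c) = 0 := hc
      rw [h6]
      rfl
    rw [MonoidAlgebra.coeff_mapRingHom] at h5
    exact h5

end Pool.Agent.Lib.MP_666dc0_nt.FM
end

section

/-!
# The completed group ring acts on the uniformly continuous functions
-/

namespace Pool.Agent.Lib.MP_666dc0_nt.FM

open ZO

variable {ℓ d : ℕ} [Fact ℓ.Prime] {𝒯 : UTow ℓ d} {G : Type} [Group G]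

/-- Bounded uniformly continuous functions with values in a finite extension of `ℚ_ℓ`. -/
structure IsUcf (𝒬 : QTow 𝒯 G) (φ : G → PadicAlgCl ℓ) : Prop where
  bdd : ∃ C : ℝ, 0 ≤ C ∧ ∀ x, ‖φ x‖ ≤ C
  field : ∃ L : IntermediateField ℚ_[ℓ] (PadicAlgCl ℓ), FiniteDimensional ℚ_[ℓ] L ∧ ∀ x, φ x ∈ L
  cont : ∀ ε : ℝ, 0 < ε → ∃ s, ∀ g, 𝒬.q s g = 1 → ∀ x, ‖φ (g * x) - φ x‖ ≤ ε

/-- The space of these functions. -/
noncomputable def Ucf (𝒬 : QTow 𝒯 G) : Submodule (PadicAlgCl ℓ) (G → PadicAlgCl ℓ) where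
  carrier := {φ | IsUcf 𝒬 φ}
  add_mem' {a b} ha hb := by
    obtain ⟨L, hL, hLa⟩ := ha.field
    obtain ⟨L', hL', hLb⟩ := hb.field
    obtain ⟨C, hC0, hC⟩ := ha.bdd
    obtain ⟨C', hC'0, hC'⟩ := hb.bdd
    refine ⟨⟨max C C', hC0.trans (le_max_left _ _), fun g => (IsUltrametricDist.norm_add_le_max _ _).trans
        (max_le_max (hC g) (hC' g))⟩, ⟨L ⊔ L', inferInstance, fun g => add_mem ((le_sup_left : L ≤ L ⊔ L') (hLa g))
        ((le_sup_right : L' ≤ L ⊔ L') (hLb g))⟩, fun ε hε => ?_⟩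
    obtain ⟨s, hs⟩ := ha.cont ε hε
    obtain ⟨t, ht⟩ := hb.cont ε hε
    refine ⟨max s t, fun g hg x => ?_⟩
    have h1 : (a + b) (g * x) - (a + b) x = (a (g * x) - a x) + (b (g * x) - b x) := by
      simp only [Pi.add_apply]
      ring
    rw [h1]
    exact (IsUltrametricDist.norm_add_le_max _ _).trans (max_le (hs g (q_down 𝒬 (le_max_left s t) g hg) x)
      (ht g (q_down 𝒬 (le_max_right s t) g hg) x))
  zero_mem' := ⟨⟨0, le_rfl, fun _ => by simp only [Pi.zero_apply, norm_zero, le_refl]⟩,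
    ⟨⊥, inferInstance, fun _ => zero_mem _⟩, fun ε hε => ⟨0, fun _ _ _ => by
      simpa only [Pi.zero_apply, sub_zero, norm_zero] using hε.le⟩⟩
  smul_mem' c a ha := by
    obtain ⟨L, hL, hLa⟩ := ha.field
    obtain ⟨C, hC0, hC⟩ := ha.bdd
    refine ⟨⟨‖c‖ * C, by positivity, fun g => ?_⟩, ⟨L ⊔ IntermediateField.adjoin ℚ_[ℓ] {c}, ?_, fun g => ?_⟩,
      fun ε hε => ?_⟩
    · rw [Pi.smul_apply, smul_eq_mul, norm_mul]
      exact mul_le_mul_of_nonneg_left (hC g) (norm_nonneg _)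
    · have := IntermediateField.adjoin.finiteDimensional
        (Algebra.IsIntegral.isIntegral (R := ℚ_[ℓ]) c)
      exact inferInstance
    · exact mul_mem ((le_sup_right : _ ≤ L ⊔ IntermediateField.adjoin ℚ_[ℓ] {c})
        (IntermediateField.subset_adjoin ℚ_[ℓ] {c} rfl)) ((le_sup_left : L ≤ _) (hLa g))
    · obtain ⟨s, hs⟩ := ha.cont (ε / (‖c‖ + 1)) (by positivity)
      refine ⟨s, fun g hg x => ?_⟩
      have h1 : (c • a) (g * x) - (c • a) x = c * (a (g * x) - a x) := by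
        simp only [Pi.smul_apply, smul_eq_mul]
        ring
      rw [h1, norm_mul]
      calc ‖c‖ * ‖a (g * x) - a x‖ ≤ (‖c‖ + 1) * (ε / (‖c‖ + 1)) :=
            mul_le_mul (by linarith) (hs g hg x) (norm_nonneg _) (by positivity)
        _ = ε := by field_simp

theorem mem_Ucf {𝒬 : QTow 𝒯 G} {φ : G → PadicAlgCl ℓ} : φ ∈ Ucf 𝒬 ↔ IsUcf 𝒬 φ := Iff.rfl

theorem tr_ucont (𝒬 : QTow 𝒯 G) {s : ℕ} {φ : G → PadicAlgCl ℓ} {ε : ℝ} (hε : 0 ≤ ε)
    (h : ∀ g, 𝒬.q s g = 1 → ∀ x, ‖φ (g * x) - φ x‖ ≤ ε) (c : MonoidAlgebra ℤ G) (g : G) (hg : 𝒬.q s g = 1) (x : G) :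
    ‖tr ℓ G c φ (g * x) - tr ℓ G c φ x‖ ≤ ε := by
  rw [tr_apply, tr_apply, Finsupp.sum, Finsupp.sum, ← Finset.sum_sub_distrib]
  refine IsUltrametricDist.norm_sum_le_of_forall_le_of_nonneg hε fun y _ => ?_
  rw [← mul_sub, norm_mul]
  have h1 : y⁻¹ * (g * x) = (y⁻¹ * g * y) * (y⁻¹ * x) := by group
  have h2 : 𝒬.q s (y⁻¹ * g * y) = 1 := by rw [map_mul, map_mul, hg, mul_one, map_inv, inv_mul_cancel]
  rw [h1]
  calc _ ≤ 1 * ε := mul_le_mul (norm_int_le _) (h _ h2 _) (norm_nonneg _) zero_le_one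
    _ = ε := one_mul ε

theorem tr_field {φ : G → PadicAlgCl ℓ} {L : IntermediateField ℚ_[ℓ] (PadicAlgCl ℓ)} (h : ∀ x, φ x ∈ L)
    (c : MonoidAlgebra ℤ G) (x : G) : tr ℓ G c φ x ∈ L := by
  rw [tr_apply, Finsupp.sum]
  exact sum_mem fun g _ => mul_mem (intCast_mem L _) (h _)

theorem tr_small (𝒬 : QTow 𝒯 G) {φ : G → PadicAlgCl ℓ} (hφ : IsUcf 𝒬 φ) {ε : ℝ} (hε : 0 < ε) :
    ∃ s, ∀ c : MonoidAlgebra ℤ G, pj 𝒬 s c = 0 → ∀ x, ‖tr ℓ G c φ x‖ ≤ ε := by
  obtain ⟨C, hC0, hC⟩ := hφ.bdd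
  obtain ⟨s, hs⟩ := hφ.cont ε hε
  have hl : (ℓ : ℝ)⁻¹ < 1 := inv_lt_one_of_one_lt₀ (by exact_mod_cast (Fact.out : ℓ.Prime).one_lt)
  have hl0 : (0 : ℝ) ≤ (ℓ : ℝ)⁻¹ := by positivity
  obtain ⟨t, ht⟩ := exists_pow_lt_of_lt_one (show (0 : ℝ) < ε / (C + 1) by positivity) hl
  refine ⟨max s t, fun c hc x => ?_⟩
  have h1 := norm_tr_small 𝒬 hc hC0 hC hε.le (fun g hg x => hs g (q_down 𝒬 (le_max_left s t) g hg) x) x
  refine h1.trans (max_le le_rfl ?_)
  have h2 : (ℓ : ℝ)⁻¹ ^ (max s t + 1) ≤ (ℓ : ℝ)⁻¹ ^ t :=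
    pow_le_pow_of_le_one hl0 hl.le ((le_max_right s t).trans (Nat.le_succ _))
  calc (ℓ : ℝ)⁻¹ ^ (max s t + 1) * C ≤ (ε / (C + 1)) * (C + 1) :=
        mul_le_mul (h2.trans ht.le) (by linarith) hC0 (by positivity)
    _ = ε := by field_simp

/-- The function `ψ` is the limit of the functions `c φ`, `c ∈ ℤ[G]` tending to `a`. -/
def IsLm (𝒬 : QTow 𝒯 G) (a : 𝒯.La) (φ ψ : G → PadicAlgCl ℓ) : Prop :=
  ∀ ε : ℝ, 0 < ε → ∃ s, ∀ c : MonoidAlgebra ℤ G, pj 𝒬 s c = 𝒯.la.pi s a → ∀ x, ‖tr ℓ G c φ x - ψ x‖ ≤ ε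

theorem IsLm.unique {𝒬 : QTow 𝒯 G} {a : 𝒯.La} {φ ψ ψ' : G → PadicAlgCl ℓ} (h : IsLm 𝒬 a φ ψ)
    (h' : IsLm 𝒬 a φ ψ') : ψ = ψ' := by
  funext x
  rw [← sub_eq_zero, ← norm_le_zero_iff]
  refine le_of_forall_pos_le_add fun ε hε => ?_
  rw [zero_add]
  obtain ⟨s, hs⟩ := h ε hε
  obtain ⟨t, ht⟩ := h' ε hε
  obtain ⟨c, hc⟩ := pj_surj 𝒬 (max s t) (𝒯.la.pi (max s t) a)
  have h1 := hs c (pj_down 𝒬 (le_max_left s t) a c hc) x
  have h2 := ht c (pj_down 𝒬 (le_max_right s t) a c hc) x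
  have h3 : ψ x - ψ' x = -(tr ℓ G c φ x - ψ x) + (tr ℓ G c φ x - ψ' x) := by ring
  rw [h3]
  refine (IsUltrametricDist.norm_add_le_max _ _).trans (max_le ?_ h2)
  rwa [norm_neg]

theorem exists_lm (𝒬 : QTow 𝒯 G) (a : 𝒯.La) {φ : G → PadicAlgCl ℓ} (hφ : IsUcf 𝒬 φ) :
    ∃ ψ, IsUcf 𝒬 ψ ∧ IsLm 𝒬 a φ ψ := by
  obtain ⟨L, hL, hLφ⟩ := hφ.field
  have hcomp : CompleteSpace L := FiniteDimensional.complete ℚ_[ℓ] L
  have hc : ∀ s, ∃ c, pj 𝒬 s c = 𝒯.la.pi s a := fun s => pj_surj 𝒬 s _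
  choose c hc using hc
  -- differences
  have hdiff : ∀ ε : ℝ, 0 < ε → ∃ s, ∀ c c' : MonoidAlgebra ℤ G, pj 𝒬 s c = 𝒯.la.pi s a →
      pj 𝒬 s c' = 𝒯.la.pi s a → ∀ x, ‖tr ℓ G c φ x - tr ℓ G c' φ x‖ ≤ ε := by
    intro ε hε
    obtain ⟨s, hs⟩ := tr_small 𝒬 hφ hε
    refine ⟨s, fun c c' h h' x => ?_⟩
    have h1 := hs (c - c') (by rw [map_sub, h, h', sub_self]) x
    rwa [map_sub] at h1
  have hlim : ∀ x, ∃ y : L, Filter.Tendsto (fun s => (⟨tr ℓ G (c s) φ x, tr_field hLφ (c s) x⟩ : L))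
      Filter.atTop (nhds y) := by
    intro x
    refine cauchySeq_tendsto_of_complete (Metric.cauchySeq_iff'.2 fun ε hε => ?_)
    obtain ⟨s, hs⟩ := hdiff (ε / 2) (by positivity)
    refine ⟨s, fun n hn => ?_⟩
    have h1 := hs (c n) (c s) (pj_down 𝒬 hn a (c n) (hc n)) (hc s) x
    rw [dist_eq_norm]
    exact lt_of_le_of_lt h1 (by linarith)
  choose y hy using hlim
  have hlm : IsLm 𝒬 a φ (fun x => (y x : PadicAlgCl ℓ)) := by
    intro ε hε
    obtain ⟨s, hs⟩ := hdiff ε hε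
    refine ⟨s, fun c' hc' x => ?_⟩
    have h1 : Filter.Tendsto (fun n => tr ℓ G c' φ x - tr ℓ G (c n) φ x) Filter.atTop
        (nhds (tr ℓ G c' φ x - (y x : PadicAlgCl ℓ))) :=
      tendsto_const_nhds.sub ((continuous_subtype_val.tendsto _).comp (hy x))
    refine le_of_tendsto h1.norm ?_
    filter_upwards [Filter.eventually_ge_atTop s] with n hn
    exact hs c' (c n) hc' (pj_down 𝒬 hn a (c n) (hc n)) x
  refine ⟨fun x => y x, ⟨?_, ⟨L, hL, fun x => (y x).2⟩, fun ε hε => ?_⟩, hlm⟩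
  · obtain ⟨C, hC0, hC⟩ := hφ.bdd
    obtain ⟨s, hs⟩ := hlm 1 one_pos
    refine ⟨max C 1, hC0.trans (le_max_left _ _), fun x => ?_⟩
    have h1 : (y x : PadicAlgCl ℓ) = tr ℓ G (c s) φ x + -(tr ℓ G (c s) φ x - y x) := by ring
    rw [h1]
    refine (IsUltrametricDist.norm_add_le_max _ _).trans (max_le_max (norm_tr_le _ hC0 hC x) ?_)
    rw [norm_neg]
    exact hs (c s) (hc s) x
  · obtain ⟨s, hs⟩ := hlm ε hε
    obtain ⟨t, ht⟩ := hφ.cont ε hε
    refine ⟨t, fun g hg x => ?_⟩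
    have h1 : (y (g * x) : PadicAlgCl ℓ) - y x = (tr ℓ G (c s) φ (g * x) - tr ℓ G (c s) φ x) +
        (-(tr ℓ G (c s) φ (g * x) - y (g * x)) + (tr ℓ G (c s) φ x - y x)) := by ring
    rw [h1]
    refine (IsUltrametricDist.norm_add_le_max _ _).trans (max_le (tr_ucont 𝒬 hε.le ht (c s) g hg x)
      ((IsUltrametricDist.norm_add_le_max _ _).trans (max_le ?_ (hs (c s) (hc s) x))))
    rw [norm_neg]
    exact hs (c s) (hc s) (g * x)

theorem isLm_add_left {𝒬 : QTow 𝒯 G} {a b : 𝒯.La} {φ ψ ψ' : G → PadicAlgCl ℓ} (h : IsLm 𝒬 a φ ψ)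
    (h' : IsLm 𝒬 b φ ψ') : IsLm 𝒬 (a + b) φ (ψ + ψ') := by
  intro ε hε
  obtain ⟨s, hs⟩ := h ε hε
  obtain ⟨t, ht⟩ := h' ε hε
  refine ⟨max s t, fun c hc x => ?_⟩
  obtain ⟨c₁, hc₁⟩ := pj_surj 𝒬 (max s t) (𝒯.la.pi (max s t) a)
  have hc₂ : pj 𝒬 (max s t) (c - c₁) = 𝒯.la.pi (max s t) b := by
    rw [map_sub, hc, hc₁, map_add, add_sub_cancel_left]
  have h1 := hs c₁ (pj_down 𝒬 (le_max_left s t) a c₁ hc₁) x
  have h2 := ht (c - c₁) (pj_down 𝒬 (le_max_right s t) b _ hc₂) x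
  have h3 : tr ℓ G c φ x - (ψ + ψ') x = (tr ℓ G c₁ φ x - ψ x) + (tr ℓ G (c - c₁) φ x - ψ' x) := by
    rw [map_sub, Pi.add_apply, LinearMap.sub_apply, Pi.sub_apply]
    ring
  rw [h3]
  exact (IsUltrametricDist.norm_add_le_max _ _).trans (max_le h1 h2)

theorem isLm_add_right {𝒬 : QTow 𝒯 G} {a : 𝒯.La} {φ φ' ψ ψ' : G → PadicAlgCl ℓ} (h : IsLm 𝒬 a φ ψ)
    (h' : IsLm 𝒬 a φ' ψ') : IsLm 𝒬 a (φ + φ') (ψ + ψ') := by
  intro ε hε
  obtain ⟨s, hs⟩ := h ε hε
  obtain ⟨t, ht⟩ := h' ε hε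
  refine ⟨max s t, fun c hc x => ?_⟩
  have h1 := hs c (pj_down 𝒬 (le_max_left s t) a c hc) x
  have h2 := ht c (pj_down 𝒬 (le_max_right s t) a c hc) x
  have h3 : tr ℓ G c (φ + φ') x - (ψ + ψ') x = (tr ℓ G c φ x - ψ x) + (tr ℓ G c φ' x - ψ' x) := by
    rw [map_add, Pi.add_apply, Pi.add_apply]
    ring
  rw [h3]
  exact (IsUltrametricDist.norm_add_le_max _ _).trans (max_le h1 h2)

theorem isLm_smul {𝒬 : QTow 𝒯 G} {a : 𝒯.La} {φ ψ : G → PadicAlgCl ℓ} (z : PadicAlgCl ℓ) (h : IsLm 𝒬 a φ ψ) :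
    IsLm 𝒬 a (z • φ) (z • ψ) := by
  intro ε hε
  obtain ⟨s, hs⟩ := h (ε / (‖z‖ + 1)) (by positivity)
  refine ⟨s, fun c hc x => ?_⟩
  have h3 : tr ℓ G c (z • φ) x - (z • ψ) x = z * (tr ℓ G c φ x - ψ x) := by
    rw [map_smul, Pi.smul_apply, Pi.smul_apply, smul_eq_mul, smul_eq_mul]
    ring
  rw [h3, norm_mul]
  calc ‖z‖ * _ ≤ (‖z‖ + 1) * (ε / (‖z‖ + 1)) :=
        mul_le_mul (by linarith) (hs c hc x) (norm_nonneg _) (by positivity)
    _ = ε := by field_simp

/-- The limit along one sequence is enough. -/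
theorem isLm_of {𝒬 : QTow 𝒯 G} {a : 𝒯.La} {φ ψ : G → PadicAlgCl ℓ} (hφ : IsUcf 𝒬 φ)
    (h : ∀ ε : ℝ, 0 < ε → ∃ s, ∀ t, s ≤ t → ∃ c, pj 𝒬 t c = 𝒯.la.pi t a ∧ ∀ x, ‖tr ℓ G c φ x - ψ x‖ ≤ ε) :
    IsLm 𝒬 a φ ψ := by
  intro ε hε
  obtain ⟨s, hs⟩ := h ε hε
  obtain ⟨t, ht⟩ := tr_small 𝒬 hφ hε
  obtain ⟨c', hc', hx⟩ := hs (max s t) (le_max_left s t)
  refine ⟨max s t, fun c hc x => ?_⟩
  have h1 : pj 𝒬 (max s t) (c - c') = 𝒯.la.pi (max s t) (0 : 𝒯.La) := by rw [map_sub, hc, hc', sub_self, map_zero]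
  have h2 := ht (c - c') (by rw [pj_down 𝒬 (le_max_right s t) 0 _ h1, map_zero]) x
  have h3 : tr ℓ G c φ x - ψ x = tr ℓ G (c - c') φ x + (tr ℓ G c' φ x - ψ x) := by
    rw [map_sub, LinearMap.sub_apply, Pi.sub_apply]
    ring
  rw [h3]
  exact (IsUltrametricDist.norm_add_le_max _ _).trans (max_le h2 (hx x))

theorem isLm_mul {𝒬 : QTow 𝒯 G} {a b : 𝒯.La} {φ φ' ψ : G → PadicAlgCl ℓ} (hφ : IsUcf 𝒬 φ) (h : IsLm 𝒬 b φ φ')
    (h' : IsLm 𝒬 a φ' ψ) : IsLm 𝒬 (a * b) φ ψ := by
  refine isLm_of hφ fun ε hε => ?_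
  obtain ⟨s, hs⟩ := h ε hε
  obtain ⟨t, ht⟩ := h' ε hε
  refine ⟨max s t, fun m hm => ?_⟩
  obtain ⟨c, hc⟩ := pj_surj 𝒬 m (𝒯.la.pi m a)
  obtain ⟨c', hc'⟩ := pj_surj 𝒬 m (𝒯.la.pi m b)
  refine ⟨c * c', by rw [map_mul, hc, hc', map_mul], fun x => ?_⟩
  have h1 := hs c' (pj_down 𝒬 ((le_max_left s t).trans hm) b c' hc')
  have h2 := ht c (pj_down 𝒬 ((le_max_right s t).trans hm) a c hc) x
  have h3 : tr ℓ G (c * c') φ x - ψ x = tr ℓ G c (tr ℓ G c' φ - φ') x + (tr ℓ G c φ' x - ψ x) := by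
    rw [map_mul, Module.End.mul_apply, map_sub, Pi.sub_apply]
    ring
  rw [h3]
  exact (IsUltrametricDist.norm_add_le_max _ _).trans (max_le (norm_tr_le c hε.le h1 x) h2)

theorem isLm_gr {𝒬 : QTow 𝒯 G} (g : G) {φ : G → PadicAlgCl ℓ} (hφ : IsUcf 𝒬 φ) :
    IsLm 𝒬 (𝒬.gr g) φ (fun x => φ (g⁻¹ * x)) := by
  refine isLm_of hφ fun ε hε => ⟨0, fun t _ => ⟨MonoidAlgebra.single g 1, ?_, fun x => ?_⟩⟩
  · rw [pj_single, Int.cast_one]
    rfl
  · rw [tr_single, Int.cast_one, one_mul, sub_self, norm_zero]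
    exact hε.le

theorem isLm_zl {𝒬 : QTow 𝒯 G} (z : ℤ_[ℓ]) {φ : G → PadicAlgCl ℓ} (hφ : IsUcf 𝒬 φ) :
    IsLm 𝒬 (𝒯.zl z) φ ((algebraMap ℚ_[ℓ] (PadicAlgCl ℓ) (z : ℚ_[ℓ])) • φ) := by
  refine isLm_of hφ fun ε hε => ?_
  obtain ⟨C, hC0, hC⟩ := hφ.bdd
  have hl : (ℓ : ℝ)⁻¹ < 1 := inv_lt_one_of_one_lt₀ (by exact_mod_cast (Fact.out : ℓ.Prime).one_lt)
  have hl0 : (0 : ℝ) ≤ (ℓ : ℝ)⁻¹ := by positivity
  obtain ⟨s, hs⟩ := exists_pow_lt_of_lt_one (show (0 : ℝ) < ε / (C + 1) by positivity) hl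
  refine ⟨s, fun t ht => ⟨MonoidAlgebra.single 1 (PadicInt.appr z (t + 1) : ℤ), ?_, fun x => ?_⟩⟩
  · rw [pj_single, map_one]
    change _ = (MonoidAlgebra.single (1 : 𝒯.P t) (PadicInt.toZModPow (t + 1) z) :
      MonoidAlgebra (ZMod (ℓ ^ (t + 1))) (𝒯.P t))
    congr 1
    rw [Int.cast_natCast]
    rfl
  · have h1 := PadicInt.appr_spec (t + 1) z
    rw [← PadicInt.norm_le_pow_iff_mem_span_pow] at h1
    have h2 : ‖(((PadicInt.appr z (t + 1) : ℤ) : PadicAlgCl ℓ)) - algebraMap ℚ_[ℓ] (PadicAlgCl ℓ) (z : ℚ_[ℓ])‖ ≤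
        (ℓ : ℝ)⁻¹ ^ (t + 1) := by
      have h3 : (((PadicInt.appr z (t + 1) : ℤ) : PadicAlgCl ℓ)) - algebraMap ℚ_[ℓ] (PadicAlgCl ℓ) (z : ℚ_[ℓ]) =
          ((-((z : ℚ_[ℓ]) - (PadicInt.appr z (t + 1) : ℚ_[ℓ])) : ℚ_[ℓ]) : PadicAlgCl ℓ) := by
        change _ = algebraMap ℚ_[ℓ] (PadicAlgCl ℓ) _
        rw [map_neg, map_sub, map_natCast, Int.cast_natCast]
        ring
      rw [h3, PadicAlgCl.norm_extends, norm_neg]
      have h4 : ‖(z : ℚ_[ℓ]) - (PadicInt.appr z (t + 1) : ℚ_[ℓ])‖ = ‖z - (PadicInt.appr z (t + 1) : ℤ_[ℓ])‖ := by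
        rw [PadicInt.norm_def, PadicInt.coe_sub, PadicInt.coe_natCast]
      rw [h4]
      refine h1.trans (le_of_eq ?_)
      rw [zpow_neg, zpow_natCast, inv_pow]
    have h5 : tr ℓ G (MonoidAlgebra.single 1 (PadicInt.appr z (t + 1) : ℤ)) φ x -
        ((algebraMap ℚ_[ℓ] (PadicAlgCl ℓ) (z : ℚ_[ℓ])) • φ) x =
        ((((PadicInt.appr z (t + 1) : ℤ) : PadicAlgCl ℓ)) - algebraMap ℚ_[ℓ] (PadicAlgCl ℓ) (z : ℚ_[ℓ])) * φ x := by
      rw [tr_single, inv_one, one_mul, Pi.smul_apply, smul_eq_mul, sub_mul]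
    rw [h5, norm_mul]
    have h6 : (ℓ : ℝ)⁻¹ ^ (t + 1) ≤ (ℓ : ℝ)⁻¹ ^ s := pow_le_pow_of_le_one hl0 hl.le (ht.trans (Nat.le_succ _))
    calc _ ≤ (ε / (C + 1)) * (C + 1) :=
          mul_le_mul (h2.trans (h6.trans hs.le)) ((hC x).trans (by linarith)) (norm_nonneg _) (by positivity)
      _ = ε := by field_simp

/-- The action of the completed group ring on the uniformly continuous functions. -/
noncomputable def uact (𝒬 : QTow 𝒯 G) : 𝒯.La →+* Module.End (PadicAlgCl ℓ) (Ucf 𝒬) where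
  toFun a :=
    { toFun := fun φ => ⟨(exists_lm 𝒬 a φ.2).choose, (exists_lm 𝒬 a φ.2).choose_spec.1⟩
      map_add' := fun φ φ' => Subtype.ext ((exists_lm 𝒬 a (φ + φ').2).choose_spec.2.unique
        (isLm_add_right (exists_lm 𝒬 a φ.2).choose_spec.2 (exists_lm 𝒬 a φ'.2).choose_spec.2))
      map_smul' := fun z φ => Subtype.ext ((exists_lm 𝒬 a (z • φ).2).choose_spec.2.unique
        (isLm_smul z (exists_lm 𝒬 a φ.2).choose_spec.2)) }
  map_one' := LinearMap.ext fun φ => Subtype.ext ((exists_lm 𝒬 1 φ.2).choose_spec.2.unique (by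
    have h := isLm_gr (𝒬 := 𝒬) 1 φ.2
    rw [map_one] at h
    simp only [inv_one, one_mul] at h
    exact h))
  map_mul' a b := LinearMap.ext fun φ => Subtype.ext ((exists_lm 𝒬 (a * b) φ.2).choose_spec.2.unique
    (isLm_mul φ.2 (exists_lm 𝒬 b φ.2).choose_spec.2
      (exists_lm 𝒬 a (exists_lm 𝒬 b φ.2).choose_spec.1).choose_spec.2))
  map_zero' := LinearMap.ext fun φ => Subtype.ext ((exists_lm 𝒬 0 φ.2).choose_spec.2.unique (by
    refine isLm_of φ.2 fun ε hε => ⟨0, fun t _ => ⟨0, by rw [map_zero, map_zero], fun x => ?_⟩⟩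
    rw [map_zero]
    change ‖(0 : PadicAlgCl ℓ) - 0‖ ≤ ε
    rw [sub_zero, norm_zero]
    exact hε.le))
  map_add' a b := LinearMap.ext fun φ => Subtype.ext ((exists_lm 𝒬 (a + b) φ.2).choose_spec.2.unique
    (isLm_add_left (exists_lm 𝒬 a φ.2).choose_spec.2 (exists_lm 𝒬 b φ.2).choose_spec.2))

theorem isLm_uact (𝒬 : QTow 𝒯 G) (a : 𝒯.La) (φ : Ucf 𝒬) : IsLm 𝒬 a φ.1 (uact 𝒬 a φ).1 :=
  (exists_lm 𝒬 a φ.2).choose_spec.2

end Pool.Agent.Lib.MP_666dc0_nt.FM
end
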