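import Pool.Agent.Lib.MP_666dc0_nt.ZO.A1
import Pool.Agent.Lib.MP_666dc0_nt.Mg.G079
import Pool.Agent.Lib.MP_666dc0_nt.Mg.G078
import Pool.Agent.Lib.MP_666dc0_nt.ZO.Q2
import Pool.Agent.Lib.MP_666dc0_nt.Mg.G077
import Pool.Agent.Lib.MP_666dc0_nt.ZO.M1a
import Pool.Agent.Lib.MP_666dc0_nt.Mg.G009

section

/-!
TASK M1. Eigensystems at which an integral polynomial in the Hecke operators is a unit.

* `exists_const`: the key: there is a number `N` (depending on `h`) with `finrank (espan S Q (U ⊔ J) p) = [K 0 : J] * finrank Q * N` for all spaces of weights `Q` and all levels `J ≤ K 0`, where `p lam` means `‖aeval (iv ι lam) h‖ = 1`. Proof: choose `H` (`exists_hatData` of `WL/D0`), a chart `c` (`exists_chart`, `free_of_isUniform`), `r : Red ℓ k`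
  (`exists_red`), `op` (`exists_op`), and the good operator `T` of `A3` (`exists_goodOp`) for the constant family `t = fun _ : Unit => h` (`𝒰 = pure ()`; `L₀`: the finitely many coefficients of `h` are in a finite extension, `exists_field_finite`): so `T φ = (aeval c' h) • φ` if `IsEF S U φ.1 c'`. `N = srank (toLin' ((mT0 c T).map r.app))`.
  Given `Q`, `s` take a good basis `gb` (`exists_goodBasis`), `w = finrank Q`, `hn` from `isNice_coord`, and `W`, `W'` from `exists_split` for `p`. The spanning sets there are contained in those of `finrank_unit` (G4): for `lam ∈ AllSys` with `p lam` the scalar is `a = aeval (iv ι lam) h` with `‖a‖ = 1` (`TV_eigen`), for `¬ p lam`: `‖a‖ < 1` by `norm_aeval_le`.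
  So `finrank (espan ..) = finrank W = w * srank (toLin' ((mT c T s).map r.app)) = w * (ℓ ^ (s * d) * N)` (G5). (Instances: `Fintype (PP K s)`, `DecidableEq (PP K s)` classically, `finite_PP`; `normal_K`.)
* `finrank_espan_poly`: `exists_const` for `(Q, s)` and for `(constSub, 0)`: the latter is `ℓ ^ 0 * 1 * N = N`.
-/

open NumberField IsDedekindDomain
open scoped NumberField

namespace Pool.Agent.Lib.MP_666dc0_nt.ZO

open WL

variable {F : Type} [Field F] [NumberField F] {n : ℕ} {D : Datum F n} {ℓ : ℕ} [Fact ℓ.Prime]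
  {S : Finset (HeightOneSpectrum (𝓞 F))} {U : Subgroup D.Ad}

theorem exists_const [IsTotallyReal F] (hD : IsTotPosDef D.q)
    (hSl : ∀ v : HeightOneSpectrum (𝓞 F), (ℓ : 𝓞 F) ∈ v.asIdeal → v ∈ S) (hU : IsTame ℓ U)
    (hUS : ∀ v, v ∉ S → IsGoodAt U v) (ι : ℂ ≃+* PadicAlgCl ℓ) {d : ℕ} {K : ℕ → Subgroup D.Ad}
    (hK : IsUniform ℓ d U K) {h : MvPolynomial (IX ℓ S U) (PadicAlgCl ℓ)} (hh : IntPoly h) :
    ∃ N : ℕ, ∀ (Q : Submodule ℂ (D.Cpx → ℂ)), IsWeight D Q → ∀ J : Subgroup D.Ad, IsLevel ℓ U J → J ≤ K 0 →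
      Module.finrank ℂ (espan S Q (U ⊔ J) fun lam => ‖MvPolynomial.aeval (iv ι lam) h‖ = 1) =
        J.relIndex (K 0) * Module.finrank ℂ Q * N := by
  classical
  obtain ⟨H⟩ := exists_hatData F ℓ ι
  obtain ⟨c⟩ := exists_chart hD hU hK.tow (fun g γ hg => free_of_isUniform hD ι hU hK.tow g γ hg)
  obtain ⟨k, hk, ⟨r⟩⟩ := exists_red ℓ
  obtain ⟨op, hop⟩ := exists_op S U ι hUS
  obtain ⟨L₀, hL₀, hL₀'⟩ := exists_field_finite (ℓ := ℓ) ((fun m => h.coeff m) '' (h.support : Set _))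
    (Set.Finite.image _ (Finset.finite_toSet _))
  have hcoef : ∀ m, h.coeff m ∈ L₀ := by
    intro m
    by_cases hm : m ∈ h.support
    · exact hL₀' _ ⟨m, hm, rfl⟩
    · rw [MvPolynomial.notMem_support_iff.1 hm]
      exact zero_mem _
  obtain ⟨T, hT, hTv, -, -, -⟩ := exists_goodOp hop hSl K (pure ()) (fun _ : Unit => h) L₀ hL₀
    (fun _ => hh) (fun _ m => hcoef m)
  have hTe : ∀ (c' : IX ℓ S U → PadicAlgCl ℓ) (φ : Nice ℓ U), IsEF S U φ.1 c' →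
      T φ = MvPolynomial.aeval c' h • φ := fun c' => hTv c' _ tendsto_const_nhds
  have hnorm : ∀ s, ((K s).subgroupOf (K 0)).Normal := hK.normal_K
  refine ⟨srank (Matrix.toLin' ((mT0 c T).map r.app)), fun Q hQ J hJ hle => ?_⟩
  have hKJ : IsTow ℓ U (tow K J) := tow_isTow hU hK hJ hle
  obtain ⟨gb⟩ := exists_goodBasis H hKJ hQ
  have := hKJ.finite_PP 1
  let _ := Fintype.ofFinite (PP (tow K J) 1)
  have hTJ : IsGoodOp (tow K J) S T := hT.tow hU hK hJ hle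
  have hn : ∀ (Φ : VF U (tow K J) gb.ρ 1) (j : Fin (Module.finrank ℂ Q)), IsNice U (fun g => Φ.1 g j) :=
    fun Φ j => isNice_coord (c.tow J) hU hKJ gb.small Φ j
  obtain ⟨W, W', hW, hW1, -, hW2, hW3⟩ := exists_split hD H hSl hU hUS hKJ hQ gb 1
    (fun lam => ‖MvPolynomial.aeval (iv ι lam) h‖ = 1)
  have hfin := finrank_unit r (c.tow J) hTJ hU hKJ gb.small hn W W' hW ?_ ?_
  · have e1 : Module.finrank ℂ (espan S Q (U ⊔ J) fun lam => ‖MvPolynomial.aeval (iv ι lam) h‖ = 1) =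
        Module.finrank (PadicAlgCl ℓ) W := hW1.symm
    rw [e1, hfin, srank_mT_tow r c hT hU hK hJ hle, card_tow]
    ring
  · refine hW2.trans (Submodule.span_mono ?_)
    rintro Φ ⟨hΦ, lam, -, hp, hEF⟩
    exact ⟨hΦ, _, hp, TV_eigen hn ⟨Φ, hΦ⟩ hEF (hTe _)⟩
  · refine hW3.trans (Submodule.span_mono ?_)
    rintro Φ ⟨hΦ, lam, hlam, hp, hEF⟩
    exact ⟨hΦ, _, lt_of_le_of_ne (norm_aeval_le hD hSl hU hUS ι hh hlam) hp,
      TV_eigen hn ⟨Φ, hΦ⟩ hEF (hTe _)⟩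

theorem finrank_espan_poly [IsTotallyReal F] (hD : IsTotPosDef D.q)
    (hSl : ∀ v : HeightOneSpectrum (𝓞 F), (ℓ : 𝓞 F) ∈ v.asIdeal → v ∈ S) (hU : IsTame ℓ U)
    (hUS : ∀ v, v ∉ S → IsGoodAt U v) (ι : ℂ ≃+* PadicAlgCl ℓ) {d : ℕ} {K : ℕ → Subgroup D.Ad}
    (hK : IsUniform ℓ d U K) {h : MvPolynomial (IX ℓ S U) (PadicAlgCl ℓ)} (hh : IntPoly h)
    {Q : Submodule ℂ (D.Cpx → ℂ)} (hQ : IsWeight D Q) {J : Subgroup D.Ad} (hJ : IsLevel ℓ U J) (hle : J ≤ K 0) :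
    Module.finrank ℂ (espan S Q (U ⊔ J) fun lam => ‖MvPolynomial.aeval (iv ι lam) h‖ = 1) =
      J.relIndex (K 0) * Module.finrank ℂ Q * Module.finrank ℂ
        (espan S (constSub D) (U ⊔ K 0) fun lam => ‖MvPolynomial.aeval (iv ι lam) h‖ = 1) := by
  obtain ⟨N, hN⟩ := exists_const hD hSl hU hUS ι hK hh
  rw [hN Q hQ J hJ hle, hN (constSub D) isWeight_const (K 0) (hK.level 0) le_rfl, finrank_const,
    Subgroup.relIndex_self]
  simp only [one_mul]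

end Pool.Agent.Lib.MP_666dc0_nt.ZO
end

section

/-!
TASK M2a. Every system of eigenvalues is congruent to one of weight zero and level `U (K 0)`.

* `Cong` is an equivalence relation: `cong_symm`, `cong_trans` (ultrametric inequality), reflexivity clear.
* `finite_const`: the restrictions of the systems in `Sys S (constSub D) (U ⊔ K 0)` to the index set `IX ℓ S U` form a finite set: `finite_sys` of `WL/N5` with `d = 0` (`polyLE D 0 = 1 = span {1}`: `pow_zero`, `Submodule.one_eq_span`), compose with the restriction.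
* `exists_sep`: if `¬ Cong lam lam'` there is `x : IX ℓ S U` with `‖ι (lam x) - ι (lam' x)‖ ≥ 1`, by definition.
* `exists_cong_const`: suppose `lam ∈ AllSys` is not congruent to any `e ∈ Sys S (constSub D) (U ⊔ K 0)`. Let `E` be the finite set `{iv ι e | e ∈ Sys S (constSub D) (U ⊔ K 0)}` of functions on `IX`; for each `e' ∈ E` choose `x_e'` with `‖iv ι lam x_e' - e' x_e'‖ ≥ 1` (so `= 1`, both are integral: `norm_lam_le_one` of `WL/I1`; `span_one_le`: constant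
  weights are polynomial). Put `h = ∏_{e' ∈ E} (X x_e' - C (e' x_e'))`: `IntPoly h` (a product of integral polynomials is integral: coefficients of products, `MvPolynomial.coeff_mul`, ultrametric; `‖e' x‖ ≤ 1`), `‖aeval (iv ι lam) h‖ = ∏ ‖..‖ = 1`, and `aeval (iv ι e) h = 0` for all `e ∈ Sys S (constSub D) (U ⊔ K 0)`.
  So `espan S (constSub D) (U ⊔ K 0) (fun e => ‖aeval (iv ι e) h‖ = 1) = ⊥` (a generator `f ≠ 0` would have its system in `Sys S (constSub D) (U ⊔ K 0)`), and `finrank_espan_poly` (M1) gives that all `espan S Q (U ⊔ K s) (..)` have dimension zero. But by `exists_form_of_mem` (W0) there are `Q`, `s` and `f ≠ 0` in this space for `lam`, and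
  it is finite-dimensional (`finiteDimensional_espan`). Contradiction.
-/

open NumberField IsDedekindDomain
open scoped NumberField

namespace Pool.Agent.Lib.MP_666dc0_nt.ZO

open WL

variable {F : Type} [Field F] [NumberField F] {n : ℕ} {D : Datum F n} {ℓ : ℕ} [Fact ℓ.Prime]
  {S : Finset (HeightOneSpectrum (𝓞 F))} {U : Subgroup D.Ad}

private theorem nsub_le_max (a b : PadicAlgCl ℓ) : ‖a - b‖ ≤ max ‖a‖ ‖b‖ := by
  rw [sub_eq_add_neg]
  refine (IsUltrametricDist.norm_add_le_max _ _).trans ?_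
  rw [norm_neg]

theorem cong_refl (ι : ℂ ≃+* PadicAlgCl ℓ) (lam : ∀ v, Hecke U v → ℂ) : Cong ℓ S ι lam lam := by
  intro x
  rw [sub_self, norm_zero]
  exact one_pos

theorem cong_symm {ι : ℂ ≃+* PadicAlgCl ℓ} {lam lam' : ∀ v, Hecke U v → ℂ} (h : Cong ℓ S ι lam lam') :
    Cong ℓ S ι lam' lam := by
  intro x
  rw [norm_sub_rev]
  exact h x

theorem cong_trans {ι : ℂ ≃+* PadicAlgCl ℓ} {lam lam' lam'' : ∀ v, Hecke U v → ℂ} (h : Cong ℓ S ι lam lam')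
    (h' : Cong ℓ S ι lam' lam'') : Cong ℓ S ι lam lam'' := by
  intro x
  have h1 : ι (lam x.1.1 x.1.2) - ι (lam'' x.1.1 x.1.2)
      = (ι (lam x.1.1 x.1.2) - ι (lam' x.1.1 x.1.2)) + (ι (lam' x.1.1 x.1.2) - ι (lam'' x.1.1 x.1.2)) := by
    ring
  rw [h1]
  exact lt_of_le_of_lt (IsUltrametricDist.norm_add_le_max _ _) (max_lt (h x) (h' x))

theorem intPoly_mul {p q : MvPolynomial (IX ℓ S U) (PadicAlgCl ℓ)} (hp : IntPoly p) (hq : IntPoly q) :
    IntPoly (p * q) := by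
  classical
  intro m
  rw [MvPolynomial.coeff_mul]
  refine IsUltrametricDist.norm_sum_le_of_forall_le_of_nonneg zero_le_one fun x _ => ?_
  rw [norm_mul]
  exact mul_le_one₀ (hp _) (norm_nonneg _) (hq _)

private theorem intPoly_one : IntPoly (1 : MvPolynomial (IX ℓ S U) (PadicAlgCl ℓ)) := by
  classical
  intro m
  rw [MvPolynomial.coeff_one]
  split_ifs
  · rw [norm_one]
  · rw [norm_zero]
    exact zero_le_one

private theorem intPoly_X_sub_C (x : IX ℓ S U) (a : PadicAlgCl ℓ) (ha : ‖a‖ ≤ 1) :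
    IntPoly (MvPolynomial.X x - MvPolynomial.C a) := by
  classical
  intro m
  rw [MvPolynomial.coeff_sub, MvPolynomial.coeff_X, MvPolynomial.coeff_C]
  refine (nsub_le_max _ _).trans (max_le ?_ ?_)
  · split_ifs
    · rw [norm_one]
    · rw [norm_zero]
      exact zero_le_one
  · split_ifs
    · exact ha
    · rw [norm_zero]
      exact zero_le_one

theorem intPoly_prod {J : Type} (s : Finset J) (x : J → IX ℓ S U) (a : J → PadicAlgCl ℓ)
    (ha : ∀ j ∈ s, ‖a j‖ ≤ 1) : IntPoly (∏ j ∈ s, (MvPolynomial.X (x j) - MvPolynomial.C (a j))) := by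
  classical
  induction s using Finset.induction_on with
  | empty =>
    rw [Finset.prod_empty]
    exact intPoly_one
  | insert j s hj ih =>
    rw [Finset.prod_insert hj]
    exact intPoly_mul (intPoly_X_sub_C _ _ (ha j (Finset.mem_insert_self j s)))
      (ih fun i hi => ha i (Finset.mem_insert_of_mem hi))

theorem finite_const [IsTotallyReal F] (hD : IsTotPosDef D.q) (ι : ℂ ≃+* PadicAlgCl ℓ) {V : Subgroup D.Ad}
    (hV : IsOpen (V : Set D.Ad)) :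
    {c : IX ℓ S U → PadicAlgCl ℓ | ∃ e ∈ Sys S (constSub D) V, c = iv ι e}.Finite := by
  have h0 : polyLE D 0 = constSub D := by
    show (Submodule.span ℂ ({1} ∪ {p | ∃ τ i j, p = coord D τ i j})) ^ 0 = Submodule.span ℂ {1}
    rw [pow_zero, Submodule.one_eq_span]
  have h1 := finite_sys (D := D) hD (U := U) S 0 V hV
  refine (h1.image fun m => fun x : IX ℓ S U => ι (m ⟨⟨x.1.1, x.2.1⟩, x.1.2⟩)).subset ?_
  rintro c ⟨e, he, rfl⟩
  rw [← h0] at he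
  exact ⟨_, ⟨e, he, rfl⟩, rfl⟩

theorem exists_cong_const [IsTotallyReal F] (hD : IsTotPosDef D.q)
    (hSl : ∀ v : HeightOneSpectrum (𝓞 F), (ℓ : 𝓞 F) ∈ v.asIdeal → v ∈ S) (hU : IsTame ℓ U)
    (hUS : ∀ v, v ∉ S → IsGoodAt U v) (ι : ℂ ≃+* PadicAlgCl ℓ) {d : ℕ} {K : ℕ → Subgroup D.Ad}
    (hK : IsUniform ℓ d U K) {lam : ∀ v, Hecke U v → ℂ} (hlam : lam ∈ AllSys ℓ S U) :
    ∃ e ∈ Sys S (constSub D) (U ⊔ K 0), Cong ℓ S ι lam e := by
  classical
  by_contra hcon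
  push Not at hcon
  have hfin := finite_const (S := S) (U := U) hD ι (hK.level 0).isOpen
  have hle1 : ∀ x : IX ℓ S U, ‖iv ι lam x‖ ≤ 1 := by
    obtain ⟨K', hK', hl⟩ := hlam
    exact fun x => norm_lam_le_one hD ℓ S hSl U hU hUS hK' hl ι x
  have hle2 : ∀ e ∈ Sys S (constSub D) (U ⊔ K 0), ∀ x : IX ℓ S U, ‖iv ι e x‖ ≤ 1 := by
    rintro e ⟨f, hf0, hf, he⟩ x
    exact norm_lam_le_one hD ℓ S hSl U hU hUS (hK.level 0) ⟨f, hf0, hf.mono span_one_le, he⟩ ι x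
  have hx : ∀ c : {c // c ∈ hfin.toFinset}, ∃ x : IX ℓ S U, 1 ≤ ‖iv ι lam x - c.1 x‖ := by
    rintro ⟨c, hc⟩
    rw [Set.Finite.mem_toFinset] at hc
    obtain ⟨e, he, rfl⟩ := hc
    have h := hcon e he
    unfold Cong at h
    push Not at h
    exact h
  choose x hx using hx
  have hc1 : ∀ (c : {c // c ∈ hfin.toFinset}) (y : IX ℓ S U), ‖c.1 y‖ ≤ 1 := by
    rintro ⟨c, hc⟩ y
    rw [Set.Finite.mem_toFinset] at hc
    obtain ⟨e, he, rfl⟩ := hc
    exact hle2 e he y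
  set h : MvPolynomial (IX ℓ S U) (PadicAlgCl ℓ) :=
    ∏ c ∈ hfin.toFinset.attach, (MvPolynomial.X (x c) - MvPolynomial.C (c.1 (x c))) with hh
  have hint : IntPoly h := intPoly_prod hfin.toFinset.attach x (fun c => c.1 (x c)) fun c _ => hc1 c _
  have hev : ∀ c' : IX ℓ S U → PadicAlgCl ℓ,
      MvPolynomial.aeval c' h = ∏ c ∈ hfin.toFinset.attach, (c' (x c) - c.1 (x c)) := by
    intro c'
    rw [hh, map_prod]
    refine Finset.prod_congr rfl fun c _ => ?_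
    rw [map_sub, MvPolynomial.aeval_X, MvPolynomial.aeval_C]
    rfl
  have hlam1 : ‖MvPolynomial.aeval (iv ι lam) h‖ = 1 := by
    rw [hev, norm_prod]
    refine Finset.prod_eq_one fun c _ => le_antisymm ?_ (hx c)
    exact (nsub_le_max _ _).trans (max_le (hle1 _) (hc1 c _))
  have hbot : espan S (constSub D) (U ⊔ K 0) (fun e => ‖MvPolynomial.aeval (iv ι e) h‖ = 1) = ⊥ := by
    unfold espan
    rw [Submodule.span_eq_bot]
    rintro f ⟨hf, e, he, h1⟩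
    by_contra hf0
    have hmem : iv ι e ∈ hfin.toFinset := by
      rw [Set.Finite.mem_toFinset]
      exact ⟨e, ⟨f, hf0, hf, he⟩, rfl⟩
    have h2 : MvPolynomial.aeval (iv ι e) h = 0 := by
      rw [hev]
      exact Finset.prod_eq_zero (Finset.mem_attach _ ⟨iv ι e, hmem⟩) (sub_self _)
    rw [h2, norm_zero] at h1
    exact zero_ne_one h1
  obtain ⟨Q, s, f, hQ, hf0, hf, he⟩ := exists_form_of_mem hD hU hK.tow hlam
  have hfr := finrank_espan_poly hD hSl hU hUS ι hK hint hQ (hK.level s) (hK.tow.K_le (Nat.zero_le s))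
  rw [hbot, finrank_bot, mul_zero] at hfr
  have hfd : FiniteDimensional ℂ
      (espan S Q (U ⊔ K s) (fun e => ‖MvPolynomial.aeval (iv ι e) h‖ = 1)) :=
    finiteDimensional_espan hD (hK.level s).isOpen hQ _
  have hbot2 := Submodule.finrank_eq_zero.mp hfr
  have hmem : f ∈ espan S Q (U ⊔ K s) (fun e => ‖MvPolynomial.aeval (iv ι e) h‖ = 1) :=
    Submodule.subset_span ⟨hf, lam, he, hlam1⟩
  rw [hbot2, Submodule.mem_bot] at hmem
  exact hf0 hmem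

end Pool.Agent.Lib.MP_666dc0_nt.ZO
end

section

/-!
TASK M2. A polynomial which separates a residual class from the others; the dimension of a residual class.

* `exists_class_poly`: let `E` be the finite set of the `c = iv ι e`, `e ∈ Sys S (constSub D) (U ⊔ K 0)` (`finite_const`), which are not congruent to `lam₀` (that is: `∃ x, ¬ ‖c x - iv ι lam₀ x‖ < 1`; congruence of systems depends only on the functions `iv ι`). For each `c ∈ E` choose `x_c` with `‖iv ι lam₀ x_c - c x_c‖ ≥ 1` (`= 1`, by integrality,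
  `norm_lam_le_one` of `WL/I1`) and put `h = ∏_{c ∈ E} (X x_c - C (c x_c))`, an integral polynomial (`intPoly_prod`). Let `lam ∈ AllSys`; the values of `lam` and of the `c` are integral. If `Cong lam lam₀`: `‖iv ι lam x_c - c x_c‖ = 1` for all `c ∈ E` (as `‖iv ι lam x_c - iv ι lam₀ x_c‖ < 1`), so `‖aeval (iv ι lam) h‖ = 1`. If not: by
  `exists_cong_const` `lam` is congruent to some `e ∈ Sys S (constSub D) (U ⊔ K 0)`, which is not congruent to `lam₀` (`cong_trans`), so `c = iv ι e ∈ E` and the factor of `c` has norm `< 1`, the other factors have norm `≤ 1`.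
* `finrank_espan_cong`: for this `h` the predicates `Cong · lam₀` and `‖aeval (iv ι ·) h‖ = 1` agree on `AllSys`, so the spaces agree (`espan_mono` in both directions; for `constSub` with `isWeight_const`), and `finrank_espan_poly` is the claim.
-/

open NumberField IsDedekindDomain
open scoped NumberField

namespace Pool.Agent.Lib.MP_666dc0_nt.ZO

open WL

variable {F : Type} [Field F] [NumberField F] {n : ℕ} {D : Datum F n} {ℓ : ℕ} [Fact ℓ.Prime]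
  {S : Finset (HeightOneSpectrum (𝓞 F))} {U : Subgroup D.Ad}

private theorem M2_sub_lt {a b c : PadicAlgCl ℓ} (h1 : ‖a - b‖ < 1) (h2 : ‖b - c‖ < 1) : ‖a - c‖ < 1 := by
  have h : a - c = (a - b) + (b - c) := by ring
  rw [h]
  exact (IsUltrametricDist.norm_add_le_max _ _).trans_lt (max_lt h1 h2)

private theorem M2_sub_le {a b : PadicAlgCl ℓ} (h1 : ‖a‖ ≤ 1) (h2 : ‖b‖ ≤ 1) : ‖a - b‖ ≤ 1 := by
  rw [sub_eq_add_neg]
  refine (IsUltrametricDist.norm_add_le_max _ _).trans (max_le h1 ?_)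
  rw [norm_neg]
  exact h2

theorem exists_class_poly [IsTotallyReal F] (hD : IsTotPosDef D.q)
    (hSl : ∀ v : HeightOneSpectrum (𝓞 F), (ℓ : 𝓞 F) ∈ v.asIdeal → v ∈ S) (hU : IsTame ℓ U)
    (hUS : ∀ v, v ∉ S → IsGoodAt U v) (ι : ℂ ≃+* PadicAlgCl ℓ) {d : ℕ} {K : ℕ → Subgroup D.Ad}
    (hK : IsUniform ℓ d U K) {lam₀ : ∀ v, Hecke U v → ℂ} (h₀ : lam₀ ∈ AllSys ℓ S U) :
    ∃ h : MvPolynomial (IX ℓ S U) (PadicAlgCl ℓ), IntPoly h ∧ ∀ lam ∈ AllSys ℓ S U,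
      (Cong ℓ S ι lam lam₀ → ‖MvPolynomial.aeval (iv ι lam) h‖ = 1) ∧
      (¬Cong ℓ S ι lam lam₀ → ‖MvPolynomial.aeval (iv ι lam) h‖ < 1) := by
  classical
  have hint : ∀ lam ∈ AllSys ℓ S U, ∀ x : IX ℓ S U, ‖iv ι lam x‖ ≤ 1 := by
    rintro lam ⟨K', hK', hlam'⟩ x
    exact norm_lam_le_one hD ℓ S hSl U hU hUS hK' hlam' ι x
  have hall : ∀ e ∈ Sys (U := U) S (constSub D) (U ⊔ K 0), e ∈ AllSys ℓ S U := fun e he =>
    ⟨K 0, hK.level 0, sys_mono S span_one_le _ he⟩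
  let E : Set (IX ℓ S U → PadicAlgCl ℓ) :=
    {c | (∃ e ∈ Sys (U := U) S (constSub D) (U ⊔ K 0), c = iv ι e) ∧ ∃ x, ¬‖c x - iv ι lam₀ x‖ < 1}
  have hE : E.Finite := (finite_const hD ι (hK.level 0).isOpen).subset fun c hc => hc.1
  have : Fintype E := hE.fintype
  choose x hx using fun j : E => j.2.2
  have hj1 : ∀ j : E, ∀ y, ‖j.1 y‖ ≤ 1 := by
    intro j y
    obtain ⟨e, he, hje⟩ := j.2.1
    rw [hje]
    exact hint e (hall e he) y
  have hval : ∀ lam : (∀ v, Hecke U v → ℂ), ‖MvPolynomial.aeval (iv ι lam)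
      (∏ j : E, (MvPolynomial.X (x j) - MvPolynomial.C (j.1 (x j))) :
        MvPolynomial (IX ℓ S U) (PadicAlgCl ℓ))‖ = ∏ j : E, ‖iv ι lam (x j) - j.1 (x j)‖ := by
    intro lam
    rw [map_prod, norm_prod]
    refine Finset.prod_congr rfl fun j _ => ?_
    rw [map_sub, MvPolynomial.aeval_X, MvPolynomial.aeval_C, Algebra.algebraMap_self,
      RingHom.id_apply]
  refine ⟨∏ j : E, (MvPolynomial.X (x j) - MvPolynomial.C (j.1 (x j))),
    intPoly_prod Finset.univ x (fun j => j.1 (x j)) (fun j _ => hj1 j _), fun lam hlam => ⟨?_, ?_⟩⟩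
  · intro hc
    rw [hval]
    refine Finset.prod_eq_one fun j _ => ?_
    refine le_antisymm (M2_sub_le (hint lam hlam _) (hj1 j _)) (not_lt.1 fun hlt => hx j ?_)
    refine M2_sub_lt ?_ (hc (x j))
    rw [norm_sub_rev]
    exact hlt
  · intro hc
    obtain ⟨e, he, hce⟩ := exists_cong_const hD hSl hU hUS ι hK hlam
    have hmem : iv ι e ∈ E := by
      refine ⟨⟨e, he, rfl⟩, ?_⟩
      by_contra hcon
      push Not at hcon
      exact hc (cong_trans hce hcon)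
    let j₀ : E := ⟨iv ι e, hmem⟩
    rw [hval, ← Finset.mul_prod_erase Finset.univ _ (Finset.mem_univ j₀)]
    have h1 : ‖iv ι lam (x j₀) - j₀.1 (x j₀)‖ < 1 := hce (x j₀)
    have h2 : ∏ j ∈ Finset.univ.erase j₀, ‖iv ι lam (x j) - j.1 (x j)‖ ≤ 1 :=
      Finset.prod_le_one (fun j _ => norm_nonneg _)
        (fun j _ => M2_sub_le (hint lam hlam _) (hj1 j _))
    exact (mul_le_of_le_one_right (norm_nonneg _) h2).trans_lt h1

theorem finrank_espan_cong [IsTotallyReal F] (hD : IsTotPosDef D.q)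
    (hSl : ∀ v : HeightOneSpectrum (𝓞 F), (ℓ : 𝓞 F) ∈ v.asIdeal → v ∈ S) (hU : IsTame ℓ U)
    (hUS : ∀ v, v ∉ S → IsGoodAt U v) (ι : ℂ ≃+* PadicAlgCl ℓ) {d : ℕ} {K : ℕ → Subgroup D.Ad}
    (hK : IsUniform ℓ d U K) {lam₀ : ∀ v, Hecke U v → ℂ} (h₀ : lam₀ ∈ AllSys ℓ S U)
    {Q : Submodule ℂ (D.Cpx → ℂ)} (hQ : IsWeight D Q) {J : Subgroup D.Ad} (hJ : IsLevel ℓ U J) (hle : J ≤ K 0) :
    Module.finrank ℂ (espan S Q (U ⊔ J) fun lam => Cong ℓ S ι lam lam₀) =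
      J.relIndex (K 0) * Module.finrank ℂ Q * Module.finrank ℂ
        (espan S (constSub D) (U ⊔ K 0) fun lam => Cong ℓ S ι lam lam₀) := by
  obtain ⟨h, hh, hcl⟩ := exists_class_poly hD hSl hU hUS ι hK h₀
  have key : ∀ lam ∈ AllSys ℓ S U, (Cong ℓ S ι lam lam₀ ↔ ‖MvPolynomial.aeval (iv ι lam) h‖ = 1) := by
    intro lam hlam
    refine ⟨(hcl lam hlam).1, fun h1 => ?_⟩
    by_contra hcon
    exact absurd h1 ((hcl lam hlam).2 hcon).ne
  have e1 : ∀ {Q' : Submodule ℂ (D.Cpx → ℂ)}, IsWeight D Q' → ∀ J' : Subgroup D.Ad, IsLevel ℓ U J' →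
      espan (U := U) S Q' (U ⊔ J') (fun lam => Cong ℓ S ι lam lam₀) =
        espan S Q' (U ⊔ J') fun lam => ‖MvPolynomial.aeval (iv ι lam) h‖ = 1 := by
    intro Q' hQ' J' hJ'
    exact le_antisymm (espan_mono hJ' hQ' fun lam hlam => (key lam hlam).1)
      (espan_mono hJ' hQ' fun lam hlam => (key lam hlam).2)
  rw [e1 hQ J hJ, e1 isWeight_const (K 0) (hK.level 0)]
  exact finrank_espan_poly hD hSl hU hUS ι hK hh hQ hJ hle

end Pool.Agent.Lib.MP_666dc0_nt.ZO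
end

section

/-!
TASK M3. The net of polynomials.

`Fam = {e ∈ AllSys ℓ S U | Att .. e}`. `lam` is not controlled by `Fam`: otherwise `exists_attached_of_controlled` of `WL/G4` gives an attached homomorphism (`hE`: `exists_numberField` of `WL/N5`, a system in `AllSys` is in `Sys S (polySub D) (U ⊔ K')` with `IsLevel ℓ U K'`; `hint`: `norm_lam_le_one` of `WL/I1`; `hrep`: definition of `Fam`),
against `hatt`. So there is `ε > 0` such that for all finite `J ⊆ Fam` and `δ > 0` there is `P : MvPolynomial (IX ℓ S U) ℤ` with `‖ι (pval ℓ S e P)‖ ≤ δ` for `e ∈ J` and `ε < ‖ι (pval ℓ S lam P)‖` (`Controlled` is in `WL/Sys`).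
Let `h` be the polynomial of `exists_class_poly` (M2), `I = Finset {e // e ∈ Fam} × ℕ`, directed, `𝒰 = Ultrafilter.of Filter.atTop`, and for `i = (J, m)` let `P_i` belong to `J` and `δ = 1 / (m + 1)`, `t i = (MvPolynomial.map (Int.castRingHom _) P_i) * h ^ m`. `aeval (iv ι e) (map .. P) = ι (pval ℓ S e P)` (unfold `pval`, `iv`; ring homomorphisms agree on `X` and `C`).
* `IntPoly (t i)`: integers have norm `≤ 1`, `intPoly_mul` of M2a (and powers). `L₀`: the field generated by the finitely many coefficients of `h` (`exists_field_finite` of Q2e); products of polynomials with coefficients in `L₀` have coefficients in `L₀` (`MvPolynomial.coeff_mul`).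
* `e ∈ AllSys` with `Att e`: for `i ≥ ({e}, m₀)`: `‖aeval (iv ι e) (t i)‖ ≤ (1 / (m + 1)) * ‖aeval (iv ι e) h‖ ^ m ≤ 1 / (m + 1)` (`norm_aeval_le` of M1a): tends to `0` along `atTop`, and `𝒰 ≤ atTop` (`Ultrafilter.of_le`). `e ∈ AllSys`, `¬ Cong e lam₀`: `‖aeval (iv ι e) (t i)‖ ≤ ‖aeval (iv ι e) h‖ ^ m` (`ι (pval e P)` is integral), and `‖aeval (iv ι e) h‖ < 1`.
* `lam`: `‖aeval (iv ι lam) (t i)‖ = ‖ι (pval ℓ S lam P_i)‖ * 1 ^ m ≥ ε` since `Cong lam lam₀`.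
-/

open NumberField IsDedekindDomain TensorProduct
open scoped NumberField TensorProduct

namespace Pool.Agent.Lib.MP_666dc0_nt.ZO

open WL

private theorem m3_eval {F : Type} [Field F] [NumberField F] {n : ℕ} {D : Datum F n} {ℓ : ℕ}
    [Fact ℓ.Prime] {S : Finset (HeightOneSpectrum (𝓞 F))} {U : Subgroup D.Ad}
    (ι : ℂ ≃+* PadicAlgCl ℓ) (e : ∀ v, Hecke U v → ℂ) (P : MvPolynomial (IX ℓ S U) ℤ) :
    MvPolynomial.aeval (iv ι e) (MvPolynomial.map (Int.castRingHom (PadicAlgCl ℓ)) P) =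
      ι (pval ℓ S e P) := by
  induction P using MvPolynomial.induction_on with
  | C a =>
    have h1 : pval ℓ S e (MvPolynomial.C a) = (a : ℂ) := by
      unfold pval
      exact (MvPolynomial.aeval_C (R := ℤ) (fun x : IX ℓ S U => e x.1.1 x.1.2) a)
    rw [h1, MvPolynomial.map_C, MvPolynomial.aeval_C, map_intCast]
    simp
  | add p q hp hq => rw [map_add, map_add, map_add, map_add, hp, hq]
  | mul_X p x hp =>
    have h1 : pval ℓ S e (MvPolynomial.X x) = e x.1.1 x.1.2 := MvPolynomial.aeval_X _ _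
    rw [map_mul, map_mul, map_mul, map_mul, hp, h1, MvPolynomial.map_X, MvPolynomial.aeval_X]
    rfl

private theorem m3_intPoly_map {F : Type} [Field F] [NumberField F] {n : ℕ} {D : Datum F n} {ℓ : ℕ}
    [Fact ℓ.Prime] {S : Finset (HeightOneSpectrum (𝓞 F))} {U : Subgroup D.Ad}
    (P : MvPolynomial (IX ℓ S U) ℤ) :
    IntPoly (MvPolynomial.map (Int.castRingHom (PadicAlgCl ℓ)) P) := by
  intro m
  rw [MvPolynomial.coeff_map]
  exact IsUltrametricDist.norm_intCast_le_one _ _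

private theorem m3_intPoly_pow {F : Type} [Field F] [NumberField F] {n : ℕ} {D : Datum F n} {ℓ : ℕ}
    [Fact ℓ.Prime] {S : Finset (HeightOneSpectrum (𝓞 F))} {U : Subgroup D.Ad}
    {h : MvPolynomial (IX ℓ S U) (PadicAlgCl ℓ)} (hh : IntPoly h) (k : ℕ) : IntPoly (h ^ k) := by
  classical
  induction k with
  | zero =>
    intro m
    rw [pow_zero, MvPolynomial.coeff_one]
    split_ifs
    · rw [norm_one]
    · rw [norm_zero]
      exact zero_le_one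
  | succ k ih =>
    rw [pow_succ]
    exact intPoly_mul ih hh

private theorem m3_mem_mul {F : Type} [Field F] [NumberField F] {n : ℕ} {D : Datum F n} {ℓ : ℕ}
    [Fact ℓ.Prime] {S : Finset (HeightOneSpectrum (𝓞 F))} {U : Subgroup D.Ad}
    (L : IntermediateField ℚ_[ℓ] (PadicAlgCl ℓ)) {p q : MvPolynomial (IX ℓ S U) (PadicAlgCl ℓ)}
    (hp : ∀ m, p.coeff m ∈ L) (hq : ∀ m, q.coeff m ∈ L) : ∀ m, (p * q).coeff m ∈ L := by
  classical
  intro m
  rw [MvPolynomial.coeff_mul]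
  exact sum_mem fun x _ => mul_mem (hp _) (hq _)

private theorem m3_mem_pow {F : Type} [Field F] [NumberField F] {n : ℕ} {D : Datum F n} {ℓ : ℕ}
    [Fact ℓ.Prime] {S : Finset (HeightOneSpectrum (𝓞 F))} {U : Subgroup D.Ad}
    (L : IntermediateField ℚ_[ℓ] (PadicAlgCl ℓ)) {p : MvPolynomial (IX ℓ S U) (PadicAlgCl ℓ)}
    (hp : ∀ m, p.coeff m ∈ L) (k : ℕ) : ∀ m, (p ^ k).coeff m ∈ L := by
  classical
  induction k with
  | zero =>
    intro m
    rw [pow_zero, MvPolynomial.coeff_one]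
    split_ifs
    · exact one_mem _
    · exact zero_mem _
  | succ k ih =>
    rw [pow_succ]
    exact m3_mem_mul L ih hp

private theorem m3_snd {Z : Type} : Filter.Tendsto (fun i : Finset Z × ℕ => i.2) Filter.atTop
    Filter.atTop := by
  rw [← Filter.prod_atTop_atTop_eq]
  exact Filter.tendsto_snd

private theorem m3_tend {Z K : Type} [NormedField K] (f : Finset Z × ℕ → K) (z : Z)
    (h : ∀ i, z ∈ i.1 → ‖f i‖ ≤ 1 / ((i.2 : ℝ) + 1)) :
    Filter.Tendsto f Filter.atTop (nhds 0) := by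
  classical
  refine squeeze_zero_norm' (a := fun i : Finset Z × ℕ => 1 / ((i.2 : ℝ) + 1)) ?_ ?_
  · filter_upwards [Filter.eventually_ge_atTop (({z}, 0) : Finset Z × ℕ)] with i hi
    exact h i (hi.1 (Finset.mem_singleton_self _))
  · exact (tendsto_one_div_add_atTop_nhds_zero_nat (𝕜 := ℝ)).comp m3_snd

private theorem m3_tend' {Z K : Type} [NormedField K] (f : Finset Z × ℕ → K) (a : ℝ) (ha : 0 ≤ a)
    (ha1 : a < 1) (h : ∀ i, ‖f i‖ ≤ a ^ i.2) :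
    Filter.Tendsto f Filter.atTop (nhds 0) := by
  classical
  refine squeeze_zero_norm (a := fun i : Finset Z × ℕ => a ^ i.2) h ?_
  exact (tendsto_pow_atTop_nhds_zero_of_lt_one ha ha1).comp m3_snd

private theorem m3_choose {X : Type} (Fam : Set X) {R : Type} (v : X → R → ℝ) (lam : X) (ε : ℝ)
    (hnc : ∀ I : Set X, I.Finite → I ⊆ Fam → ∀ δ : ℝ, 0 < δ →
      ∃ P : R, (∀ e ∈ I, v e P ≤ δ) ∧ ε < v lam P) :
    ∃ P : Finset {e // e ∈ Fam} × ℕ → R,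
      (∀ i, ∀ e (he : e ∈ Fam), ⟨e, he⟩ ∈ i.1 → v e (P i) ≤ 1 / ((i.2 : ℝ) + 1)) ∧
      ∀ i, ε < v lam (P i) := by
  have hQ : ∀ i : Finset {e // e ∈ Fam} × ℕ, ∃ P : R,
      (∀ e (he : e ∈ Fam), ⟨e, he⟩ ∈ i.1 → v e P ≤ 1 / ((i.2 : ℝ) + 1)) ∧ ε < v lam P := by
    intro i
    obtain ⟨P, hP, hP'⟩ := hnc (Subtype.val '' (i.1 : Set {e // e ∈ Fam})) (i.1.finite_toSet.image _)
      (by rintro _ ⟨e, -, rfl⟩; exact e.2) (1 / ((i.2 : ℝ) + 1)) (by positivity)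
    exact ⟨P, fun e he hei => hP e ⟨⟨e, he⟩, hei, rfl⟩, hP'⟩
  choose P hP1 hP2 using hQ
  exact ⟨P, hP1, hP2⟩

theorem exists_net {F : Type} [Field F] [NumberField F] {n : ℕ} {D : Datum F n} {B : Type} [CommRing B]
    [IsTotallyReal F] (hD : IsTotPosDef D.q) (ℓ : ℕ) [Fact ℓ.Prime]
    [IsDomain B] [IsPrincipalIdealRing B] [Algebra B ℚ] [IsFractionRing B ℚ] [Algebra B (PadicAlgCl ℓ)]
    {O : Type} [CommRing O] [HopfAlgebra B O] [Algebra.FiniteType B O] [Module.Free B O]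
    (hO : LinearlyReductive (ℚ ⊗[B] O)) (A : OverB.HopfAction B Gal(AlgebraicClosure F/F) O)
    (hA : IsOpen (A.act.ker : Set Gal(AlgebraicClosure F/F)))
    (S : Finset (HeightOneSpectrum (𝓞 F)))
    (hS : ∀ v, v ∉ S → ∀ P u, IsInertiaAt v P u → A.act u = 1)
    (hSl : ∀ v : HeightOneSpectrum (𝓞 F), (ℓ : 𝓞 F) ∈ v.asIdeal → v ∈ S)
    (φ : HeightOneSpectrum (𝓞 F) → Gal(AlgebraicClosure F/F))
    (hφ : ∀ v, v ∉ S → ∃ P : Ideal (𝓞 (AlgebraicClosure F)), IsOver v P ∧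
      (IsFrob v P (φ v) ∨ IsFrob v P (φ v)⁻¹))
    {U : Subgroup D.Ad} (hU : IsTame ℓ U) (hUS : ∀ v, v ∉ S → IsGoodAt U v)
    (sat : ∀ v, A.inv (φ v) → Hecke U v) (hsat : ∀ v f, (sat v f).IsIntegral ℓ)
    (ι : ℂ ≃+* PadicAlgCl ℓ) {d : ℕ} {K : ℕ → Subgroup D.Ad} (hK : IsUniform ℓ d U K)
    {lam₀ lam : ∀ v, Hecke U v → ℂ} (h₀ : lam₀ ∈ AllSys ℓ S U) (hlam : lam ∈ AllSys ℓ S U)
    (hc : Cong ℓ S ι lam lam₀) (hatt : ¬Att ℓ A S φ sat ι lam) :
    ∃ (I : Type) (𝒰 : Ultrafilter I) (t : I → MvPolynomial (IX ℓ S U) (PadicAlgCl ℓ))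
      (L₀ : IntermediateField ℚ_[ℓ] (PadicAlgCl ℓ)), FiniteDimensional ℚ_[ℓ] L₀ ∧ (∀ i, IntPoly (t i)) ∧
      (∀ i m, (t i).coeff m ∈ L₀) ∧
      (∀ e ∈ AllSys ℓ S U, (Att ℓ A S φ sat ι e ∨ ¬Cong ℓ S ι e lam₀) →
        Filter.Tendsto (fun i => MvPolynomial.aeval (iv ι e) (t i)) 𝒰 (nhds 0)) ∧
      ∃ ε : ℝ, 0 < ε ∧ ∀ i, ε ≤ ‖MvPolynomial.aeval (iv ι lam) (t i)‖ := by
  classical
  have hint : ∀ m ∈ AllSys ℓ S U, ∀ x : IX ℓ S U, ‖ι (m x.1.1 x.1.2)‖ ≤ 1 := by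
    rintro m ⟨K', hK', hm⟩ x
    exact norm_lam_le_one hD ℓ S hSl U hU hUS hK' hm ι x
  have hfld : ∀ m ∈ AllSys ℓ S U, ∃ E : IntermediateField ℚ ℂ, FiniteDimensional ℚ E ∧
      ∀ v, v ∉ S → ∀ h, m v h ∈ E := by
    rintro m ⟨K', hK', hm⟩
    exact exists_numberField hD S (U ⊔ K') hK'.isOpen hm
  obtain ⟨Fam, hFam⟩ : ∃ Fam : Set (∀ v, Hecke U v → ℂ),
      ∀ e, e ∈ Fam ↔ e ∈ AllSys ℓ S U ∧ Att ℓ A S φ sat ι e :=
    ⟨{e | e ∈ AllSys ℓ S U ∧ Att ℓ A S φ sat ι e}, fun e => Iff.rfl⟩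
  have hins : ∀ m ∈ insert lam Fam, m ∈ AllSys ℓ S U := by
    intro m hm
    rcases Set.mem_insert_iff.1 hm with rfl | hm
    · exact hlam
    · exact ((hFam m).1 hm).1
  have hnc : ¬Controlled ℓ S ι Fam lam := fun hctl =>
    hatt (exists_attached_of_controlled ℓ hO A hA S hS φ hφ sat hsat ι Fam lam hctl
      (fun m hm => hfld m (hins m hm)) (fun m hm => hint m (hins m hm))
      (fun m hm => ((hFam m).1 hm).2))
  unfold Controlled at hnc
  push Not at hnc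
  obtain ⟨ε, hε, hnc⟩ := hnc
  obtain ⟨h, hh, hcl⟩ := exists_class_poly hD hSl hU hUS ι hK h₀
  obtain ⟨P, hP1, hP2⟩ := m3_choose (R := MvPolynomial (IX ℓ S U) ℤ) Fam
    (fun e P => ‖ι (pval ℓ S e P)‖) lam ε hnc
  obtain ⟨L₀, hL₀, hL₀'⟩ := exists_field_finite (ℓ := ℓ) ((fun m => h.coeff m) '' (h.support : Set _))
    (h.support.finite_toSet.image _)
  have hhL : ∀ m, h.coeff m ∈ L₀ := by
    intro m
    by_cases hm : m ∈ h.support
    · exact hL₀' _ ⟨m, hm, rfl⟩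
    · rw [MvPolynomial.notMem_support_iff.1 hm]
      exact zero_mem _
  have hev : ∀ (e : ∀ v, Hecke U v → ℂ) (i : Finset {e // e ∈ Fam} × ℕ),
      ‖MvPolynomial.aeval (iv ι e)
        (MvPolynomial.map (Int.castRingHom (PadicAlgCl ℓ)) (P i) * h ^ i.2)‖ =
      ‖ι (pval ℓ S e (P i))‖ * ‖MvPolynomial.aeval (iv ι e) h‖ ^ i.2 := by
    intro e i
    rw [map_mul, map_pow, norm_mul, norm_pow, m3_eval]
  have hle : ∀ e ∈ AllSys ℓ S U, ∀ i, ‖ι (pval ℓ S e (P i))‖ ≤ 1 := by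
    intro e he i
    rw [← m3_eval]
    exact norm_aeval_le hD hSl hU hUS ι (m3_intPoly_map _) he
  have hle' : ∀ e ∈ AllSys ℓ S U, ‖MvPolynomial.aeval (iv ι e) h‖ ≤ 1 := fun e he =>
    norm_aeval_le hD hSl hU hUS ι hh he
  refine ⟨Finset {e // e ∈ Fam} × ℕ, Ultrafilter.of Filter.atTop, fun i =>
    MvPolynomial.map (Int.castRingHom (PadicAlgCl ℓ)) (P i) * h ^ i.2, L₀, hL₀, fun i =>
    intPoly_mul (m3_intPoly_map _) (m3_intPoly_pow hh _), fun i => m3_mem_mul L₀ (fun m => ?_)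
    (m3_mem_pow L₀ hhL _), ?_, ε, hε, fun i => ?_⟩
  · rw [MvPolynomial.coeff_map]
    exact intCast_mem L₀ _
  · intro e he hor
    refine Filter.Tendsto.mono_left ?_ (Ultrafilter.of_le _)
    rcases hor with hae | hnce
    · refine m3_tend _ (⟨e, (hFam e).2 ⟨he, hae⟩⟩ : {e // e ∈ Fam}) fun i hi => ?_
      have h1 : ‖ι (pval ℓ S e (P i))‖ ≤ 1 / ((i.2 : ℝ) + 1) := hP1 i e _ hi
      have h2 : ‖MvPolynomial.aeval (iv ι e) h‖ ^ i.2 ≤ 1 :=
        pow_le_one₀ (norm_nonneg _) (hle' e he)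
      have h3 : 0 ≤ ‖ι (pval ℓ S e (P i))‖ := norm_nonneg _
      rw [hev]
      exact (mul_le_of_le_one_right h3 h2).trans h1
    · refine m3_tend' _ ‖MvPolynomial.aeval (iv ι e) h‖ (norm_nonneg _) ((hcl e he).2 hnce)
        fun i => ?_
      have h1 : ‖ι (pval ℓ S e (P i))‖ ≤ 1 := hle e he i
      have h2 : 0 ≤ ‖MvPolynomial.aeval (iv ι e) h‖ ^ i.2 := pow_nonneg (norm_nonneg _) _
      rw [hev]
      exact mul_le_of_le_one_left h2 h1
  · rw [hev, (hcl lam hlam).1 hc, one_pow, mul_one]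
    exact (hP2 i).le

end Pool.Agent.Lib.MP_666dc0_nt.ZO
end

section

/-!
TASK M4. The operator which kills `P`, normalised.

(1) `H` (`exists_hatData` of `WL/D0`), the chart `c` (`exists_chart`, `free_of_isUniform`), `op` (`exists_op`), and `T₀` from `exists_goodOp` (A3) for `𝒰`, `t`. `T₀ φ = 0` if `P e` and `IsEF S U φ.1 (iv ι e)` (the scalar `0`).
(2) `exists_form_of_mem` (W0) gives `Q`, `s`, `f ≠ 0` with the system `lam`; let `gb` be a good basis (`exists_goodBasis`), `e` from `exists_toV`, `Φ = e f ≠ 0`; take `j`, `g₁` with `Φ g₁ j ≠ 0`, `φ = Φ_j` (nice and uniformly continuous by `isNice_coord`, `isUC_coord`; an eigenfunction by `toV_eigen`). The last property in A3: `‖(T₀ φ) g₁‖ ≥ ε ‖φ g₁‖ > 0`.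
(3) By M4a there are `s` and the locally constant `φ' = ∑ p, a p • dlt p` with `‖φ - φ'‖ ≤ ε'`, `ε' < ‖(T₀ φ) g₁‖`; `‖(T₀ (φ - φ')) g₁‖ ≤ ε'`, so `(T₀ φ') g₁ ≠ 0`, and `(T₀ (dlt s p)) g₁ ≠ 0` for some `p`; let `r₁ > 0` be its norm.
(4) All values `(T₀ (dlt s p)) g` (all `s`, `p`, `g`) are in the compact set `{z | z ∈ L₀ ∧ ‖z‖ ≤ 1}` (`isCompact_ball` of `WL/G1`; the values of `dlt` are `0`, `1`, in `L₀`; third and fourth property in A3). By `finite_radii` of `WL/K1` there are finitely many norms `≥ r₁` of elements of this set, so there are `s₀`, `p₀`, `g₀` such that `v₀ = (T₀ (dlt s₀ p₀)) g₀` has the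
maximal norm: `‖(T₀ (dlt s p)) g‖ ≤ ‖v₀‖` for all `s`, `p`, `g`, `v₀ ≠ 0`.
(5) `T = v₀⁻¹ • T₀`. `eqv`, `eigen`, `kill`: clear. `unit`: `dlt s₀ p₀` at `g₀` (`isLC_dlt`). `norm`: let `φ` be uniformly continuous, `‖φ g‖ ≤ C`. For every `ε' > 0` let `φ' = ∑ p, φ (bp p) • dlt p` as in M4a: `‖(T₀ φ) g‖ ≤ max ‖(T₀ (φ - φ')) g‖ ‖∑ p, φ (bp p) * (T₀ (dlt p)) g‖ ≤ max ε' (C * ‖v₀‖)`. So `‖(T₀ φ) g‖ ≤ C * ‖v₀‖`.
-/

open NumberField IsDedekindDomain
open scoped NumberField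

namespace Pool.Agent.Lib.MP_666dc0_nt.ZO

open WL

variable {F : Type} [Field F] [NumberField F] {n : ℕ} {D : Datum F n} {ℓ : ℕ} [Fact ℓ.Prime] {d : ℕ}
  {S : Finset (HeightOneSpectrum (𝓞 F))} {U : Subgroup D.Ad} {K : ℕ → Subgroup D.Ad}

private theorem dlt_val (c : Chart U K) (s : ℕ) (p : c.R × PP K s) (g : D.Ad) :
    (c.dlt ℓ s p).1 g = 0 ∨ (c.dlt ℓ s p).1 g = 1 := by
  classical
  have h : (c.dlt ℓ s p).1 g = if (c.cls g, (QuotientGroup.mk (c.kap g) : PP K s)) = p then 1 else 0 := by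
    unfold Chart.dlt Chart.pull
    beta_reduce
    split_ifs with h
    · exact if_pos h
    · exact if_neg h
  rw [h]
  split_ifs
  · exact Or.inr rfl
  · exact Or.inl rfl

private theorem norm_dlt_le (c : Chart U K) (s : ℕ) (p : c.R × PP K s) (g : D.Ad) :
    ‖(c.dlt ℓ s p).1 g‖ ≤ 1 := by
  rcases dlt_val (ℓ := ℓ) c s p g with h | h
  · rw [h, norm_zero]; exact zero_le_one
  · rw [h, norm_one]

private theorem dlt_mem (c : Chart U K) (s : ℕ) (p : c.R × PP K s)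
    (L : IntermediateField ℚ_[ℓ] (PadicAlgCl ℓ)) (g : D.Ad) : (c.dlt ℓ s p).1 g ∈ L := by
  rcases dlt_val (ℓ := ℓ) c s p g with h | h
  · rw [h]; exact zero_mem L
  · rw [h]; exact one_mem L

private theorem T_sub_sum {J : Type} [Fintype J] (T : Nice ℓ U →ₗ[PadicAlgCl ℓ] Nice ℓ U) (φ : Nice ℓ U)
    (a : J → PadicAlgCl ℓ) (δ : J → Nice ℓ U) (g : D.Ad) :
    (T φ).1 g = (T (φ - ∑ p, a p • δ p)).1 g + ∑ p, a p * (T (δ p)).1 g := by
  have h1 : T φ = T (φ - ∑ p, a p • δ p) + ∑ p, a p • T (δ p) := by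
    rw [map_sub, map_sum]
    simp only [map_smul]
    abel
  have h2 : (T φ).1 g = (T (φ - ∑ p, a p • δ p) + ∑ p, a p • T (δ p)).1 g := by rw [← h1]
  rw [h2, Submodule.coe_add, Pi.add_apply, Submodule.coe_sum, Finset.sum_apply]
  rfl

theorem exists_killer [IsTotallyReal F] (hD : IsTotPosDef D.q)
    (hSl : ∀ v : HeightOneSpectrum (𝓞 F), (ℓ : 𝓞 F) ∈ v.asIdeal → v ∈ S) (hU : IsTame ℓ U)
    (hUS : ∀ v, v ∉ S → IsGoodAt U v) (ι : ℂ ≃+* PadicAlgCl ℓ) (hK : IsTow ℓ U K)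
    {P : (∀ v, Hecke U v → ℂ) → Prop} {I : Type} (𝒰 : Ultrafilter I)
    (t : I → MvPolynomial (IX ℓ S U) (PadicAlgCl ℓ)) (L₀ : IntermediateField ℚ_[ℓ] (PadicAlgCl ℓ))
    (hL₀ : FiniteDimensional ℚ_[ℓ] L₀) (ht : ∀ i, IntPoly (t i)) (ht' : ∀ i m, (t i).coeff m ∈ L₀)
    (hP : ∀ e, P e → Filter.Tendsto (fun i => MvPolynomial.aeval (iv ι e) (t i)) 𝒰 (nhds 0))
    {lam : ∀ v, Hecke U v → ℂ} (hlam : lam ∈ AllSys ℓ S U) {ε : ℝ} (hε : 0 < ε)
    (hl : ∀ i, ε ≤ ‖MvPolynomial.aeval (iv ι lam) (t i)‖) :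
    ∃ T : Nice ℓ U →ₗ[PadicAlgCl ℓ] Nice ℓ U, Killer K ι S P T := by
  classical
  obtain ⟨H⟩ := exists_hatData F ℓ ι
  obtain ⟨c⟩ := exists_chart hD hU hK (fun g γ h => free_of_isUniform hD ι hU hK g γ h)
  obtain ⟨op, hop⟩ := exists_op S U ι hUS
  obtain ⟨T₀, hgood, hval, hnorm, hfield, hlow⟩ := exists_goodOp hop hSl K 𝒰 t L₀ hL₀ ht ht'
  have hkill : ∀ e, P e → ∀ φ : Nice ℓ U, IsEF S U φ.1 (iv ι e) → T₀ φ = 0 := by
    intro e he φ hφ
    rw [hval (iv ι e) 0 (hP e he) φ hφ, zero_smul]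
  -- (2)
  obtain ⟨Q, s₁, f, hQ, hf0, hf, hfe⟩ := exists_form_of_mem hD hU hK hlam
  obtain ⟨gb⟩ := exists_goodBasis H hK hQ
  obtain ⟨e, he1, he2⟩ := exists_toV H hU hK hQ gb s₁
  have hΦ : ∃ g j, (e ⟨f, hf⟩).1 g j ≠ 0 := by
    by_contra hne
    push Not at hne
    apply hf0
    have h0 : e ⟨f, hf⟩ = 0 := by
      apply Subtype.ext
      funext g j
      exact hne g j
    have h1 : (⟨f, hf⟩ : forms D Q (U ⊔ K s₁)) = 0 := (map_eq_zero_iff e e.injective).mp h0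
    exact congrArg Subtype.val h1
  obtain ⟨g₁, j, hg₁⟩ := hΦ
  have hφUC := isUC_coord c hU hK gb.small (e ⟨f, hf⟩) j
  have hφe : IsEF S U (fun g => (e ⟨f, hf⟩).1 g j) (iv ι lam) :=
    toV_eigen H hSl gb.q gb.indep (fun g x => he2 ⟨f, hf⟩ g x) hfe j
  obtain ⟨φ₁, hφ₁⟩ : ∃ φ₁ : Nice ℓ U, φ₁.1 = fun g => (e ⟨f, hf⟩).1 g j :=
    ⟨⟨fun g => (e ⟨f, hf⟩).1 g j, isNice_coord c hU hK gb.small (e ⟨f, hf⟩) j⟩, rfl⟩
  rw [← hφ₁] at hφUC hφe
  have hg₁' : φ₁.1 g₁ ≠ 0 := by rw [hφ₁]; exact hg₁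
  have hpos : 0 < ‖(T₀ φ₁).1 g₁‖ :=
    (mul_pos hε (norm_pos_iff.mpr hg₁')).trans_le (hlow (iv ι lam) ε hl φ₁ hφe g₁)
  -- (3)
  have hfin : ∀ s, Finite (PP K s) := fun s => hK.finite_PP s
  have hex : ∃ (s : ℕ) (p : c.R × PP K s) (g : D.Ad), (T₀ (c.dlt ℓ s p)).1 g ≠ 0 := by
    by_contra hne
    push Not at hne
    obtain ⟨s₂, hs₂⟩ := exists_approx c hU hK hφUC (half_pos hpos)
    let i₂ : Fintype (PP K s₂) := Fintype.ofFinite _
    have h1 := hnorm _ _ (hs₂ i₂) g₁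
    have h2 := T_sub_sum T₀ φ₁ (fun p : c.R × PP K s₂ => φ₁.1 (c.bp s₂ p))
      (fun p => c.dlt ℓ s₂ p) g₁
    have h3 : ∑ p : c.R × PP K s₂, φ₁.1 (c.bp s₂ p) * (T₀ (c.dlt ℓ s₂ p)).1 g₁ = 0 := by
      apply Finset.sum_eq_zero
      intro p _
      rw [hne, mul_zero]
    rw [h3, add_zero] at h2
    rw [← h2] at h1
    linarith
  -- (4)
  obtain ⟨s₃, p₃, g₃, h₃⟩ := hex
  have hN : {ρ : ℝ | ‖(T₀ (c.dlt ℓ s₃ p₃)).1 g₃‖ ≤ ρ ∧
      ∃ (s : ℕ) (p : c.R × PP K s) (g : D.Ad), ‖(T₀ (c.dlt ℓ s p)).1 g‖ = ρ}.Finite :=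
    (finite_radii (isCompact_ball (ℓ := ℓ) L₀) (norm_pos_iff.mpr h₃)).subset (by
      rintro ρ ⟨h1, s, p, g, h2⟩
      exact ⟨h1, _, ⟨hfield (c.dlt ℓ s p) L₀ hL₀ le_rfl (dlt_mem c s p L₀) g,
        hnorm _ 1 (norm_dlt_le c s p) g⟩, h2⟩)
  obtain ⟨ρ, ⟨hρ1, s₀, p₀, g₀, hρ2⟩, hρmax⟩ := Set.exists_max_image _ id hN
    ⟨_, le_rfl, s₃, p₃, g₃, rfl⟩
  obtain ⟨v₀, hv₀⟩ : ∃ v₀, v₀ = (T₀ (c.dlt ℓ s₀ p₀)).1 g₀ := ⟨_, rfl⟩
  rw [← hv₀] at hρ2
  have hρpos : 0 < ρ := (norm_pos_iff.mpr h₃).trans_le hρ1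
  have hv0 : v₀ ≠ 0 := norm_pos_iff.mp (by rw [hρ2]; exact hρpos)
  have hmax : ∀ (s : ℕ) (p : c.R × PP K s) (g : D.Ad), ‖(T₀ (c.dlt ℓ s p)).1 g‖ ≤ ‖v₀‖ := by
    intro s p g
    rw [hρ2]
    by_cases h : ‖(T₀ (c.dlt ℓ s₃ p₃)).1 g₃‖ ≤ ‖(T₀ (c.dlt ℓ s p)).1 g‖
    · exact hρmax _ ⟨h, s, p, g, rfl⟩
    · exact (not_le.mp h).le.trans hρ1
  have hT₀ : ∀ (φ : Nice ℓ U) (C : ℝ), IsUC U K φ.1 → (∀ g, ‖φ.1 g‖ ≤ C) →
      ∀ g, ‖(T₀ φ).1 g‖ ≤ C * ‖v₀‖ := by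
    intro φ C hφ hC g
    have hC0 : 0 ≤ C := (norm_nonneg _).trans (hC g)
    by_contra hlt
    rw [not_le] at hlt
    have hx : 0 < ‖(T₀ φ).1 g‖ := (mul_nonneg hC0 (norm_nonneg _)).trans_lt hlt
    obtain ⟨s₂, hs₂⟩ := exists_approx c hU hK hφ (half_pos hx)
    let i₂ : Fintype (PP K s₂) := Fintype.ofFinite _
    have h1 := hnorm _ _ (hs₂ i₂) g
    have h2 := T_sub_sum T₀ φ (fun p : c.R × PP K s₂ => φ.1 (c.bp s₂ p))
      (fun p => c.dlt ℓ s₂ p) g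
    have h3 : ‖∑ p : c.R × PP K s₂, φ.1 (c.bp s₂ p) * (T₀ (c.dlt ℓ s₂ p)).1 g‖ ≤ C * ‖v₀‖ := by
      apply IsUltrametricDist.norm_sum_le_of_forall_le_of_nonneg (mul_nonneg hC0 (norm_nonneg _))
      intro p _
      rw [norm_mul]
      exact mul_le_mul (hC _) (hmax _ _ _) (norm_nonneg _) hC0
    have h4 : ‖(T₀ φ).1 g‖ ≤ max (‖(T₀ φ).1 g‖ / 2) (C * ‖v₀‖) := by
      conv_lhs => rw [h2]
      exact (IsUltrametricDist.norm_add_le_max _ _).trans (max_le_max h1 h3)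
    rcases le_max_iff.mp h4 with h5 | h5
    · linarith
    · linarith
  have hTv : ∀ (φ : Nice ℓ U) (g : D.Ad), ((v₀⁻¹ • T₀) φ).1 g = v₀⁻¹ * (T₀ φ).1 g := fun _ _ => rfl
  refine ⟨v₀⁻¹ • T₀, ⟨⟨⟨?_, ?_⟩, ?_, ?_⟩, ?_, ?_⟩⟩
  · intro y hy φ ψ h g
    rw [hTv, hTv, hgood.eqv.right y hy φ ψ h g]
  · intro z φ ψ h g
    rw [hTv, hTv, hgood.eqv.left z φ ψ h g]
  · intro φ C hφ hC g
    rw [hTv, norm_mul, norm_inv, inv_mul_le_iff₀ (norm_pos_iff.mpr hv0), mul_comm]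
    exact hT₀ φ C hφ hC g
  · intro c'
    obtain ⟨a, ha⟩ := hgood.eigen c'
    refine ⟨v₀⁻¹ * a, fun φ hφ => ?_⟩
    rw [LinearMap.smul_apply, ha φ hφ, smul_smul]
  · intro e he φ hφ
    rw [LinearMap.smul_apply, hkill e he φ hφ, smul_zero]
  · refine ⟨s₀, c.dlt ℓ s₀ p₀, isLC_dlt c hK s₀ p₀, norm_dlt_le c s₀ p₀, g₀, ?_⟩
    rw [hTv, ← hv₀, inv_mul_cancel₀ hv0, norm_one]

end Pool.Agent.Lib.MP_666dc0_nt.ZO
end
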