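import Pool.Agent.Lib.MP_666dc0_nt.Mg.G084

section

/-!
# PL, E2: powers and roots of matrices congruent to `1`
-/

open NumberField IsDedekindDomain
open scoped NumberField

namespace Pool.Agent.Lib.MP_666dc0_nt.PL

open WL

variable {F : Type} [Field F] [NumberField F] {n ℓ : ℕ}

/-- `(1 + X) ^ k = 1 + k X` modulo `LM (2 m)`. -/
theorem E2_pow_sub {m : ℕ} {X : Matrix (Fin n) (Fin n) (FiniteAdeleRing (𝓞 F) F)}
    (hX : X ∈ LM F n ℓ m) (k : ℕ) : (1 + X) ^ k - 1 - k • X ∈ LM F n ℓ (m + m) := by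
  induction k with
  | zero => simp
  | succ k ih =>
    have h : (1 + X) ^ (k + 1) - 1 - (k + 1) • X = ((1 + X) ^ k - 1 - k • X) * (1 + X) + k • (X * X) := by
      rw [pow_succ, add_smul, one_smul, sub_mul, sub_mul, mul_add (k • X), smul_mul_assoc, smul_mul_assoc, mul_one]
      noncomm_ring
    rw [h]
    exact add_mem (LM_mul_right ih (IsIntM.one_add hX)) ((LM F n ℓ (m + m)).nsmul_mem (LM_mul hX hX) k)

theorem pow_sub (hℓ : ℓ.Prime) {m : ℕ} (hm : 2 ≤ m) {X : Matrix (Fin n) (Fin n) (FiniteAdeleRing (𝓞 F) F)}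
    (hX : X ∈ LM F n ℓ m) : (1 + X) ^ ℓ - 1 - ℓ • X ∈ LM F n ℓ (m + 2) := by
  exact LM_anti (by omega) (E2_pow_sub hX ℓ)

theorem E2_pow_sub_one {m : ℕ} {b : Matrix (Fin n) (Fin n) (FiniteAdeleRing (𝓞 F) F)}
    (hb : b - 1 ∈ LM F n ℓ m) (k : ℕ) : b ^ k - 1 ∈ LM F n ℓ m := by
  have h := E2_pow_sub hb k
  rw [add_sub_cancel] at h
  have h2 : b ^ k - 1 = (b ^ k - 1 - k • (b - 1)) + k • (b - 1) := by abel
  rw [h2]
  exact add_mem (LM_anti (Nat.le_add_right m m) h) ((LM F n ℓ m).nsmul_mem hb k)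

theorem E2_isInt {m : ℕ} {b : Matrix (Fin n) (Fin n) (FiniteAdeleRing (𝓞 F) F)}
    (hb : b - 1 ∈ LM F n ℓ m) : IsIntM b := by
  have h := IsIntM.one_add hb
  rwa [add_sub_cancel] at h

/-- `a ^ k - b ^ k = k (a - b)` modulo `LM (j + m)`. -/
theorem E2_pow_sub_pow {m j : ℕ} {a b : Matrix (Fin n) (Fin n) (FiniteAdeleRing (𝓞 F) F)}
    (ha : a - 1 ∈ LM F n ℓ m) (hb : b - 1 ∈ LM F n ℓ m) (hab : a - b ∈ LM F n ℓ j) (k : ℕ) :
    a ^ k - b ^ k - k • (a - b) ∈ LM F n ℓ (j + m) := by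
  induction k with
  | zero => simp
  | succ k ih =>
    have h : a ^ (k + 1) - b ^ (k + 1) - (k + 1) • (a - b) =
        a * (a ^ k - b ^ k - k • (a - b)) + k • ((a - 1) * (a - b)) + (a - b) * (b ^ k - 1) := by
      rw [pow_succ', pow_succ', add_smul, one_smul, mul_sub, mul_smul_comm, sub_mul a 1 (a - b), one_mul, smul_sub k (a * (a - b))]
      noncomm_ring
    rw [h]
    refine add_mem (add_mem (LM_mul_left (E2_isInt ha) ih) ((LM F n ℓ (j + m)).nsmul_mem ?_ k)) ?_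
    · have h1 := LM_mul ha hab
      rwa [add_comm m j] at h1
    · exact LM_mul hab (E2_pow_sub_one hb k)

/-- One step of the iteration. -/
theorem E2_step {m k : ℕ} (hm : 2 ≤ m) {X Y : Matrix (Fin n) (Fin n) (FiniteAdeleRing (𝓞 F) F)}
    (hY : Y ∈ LM F n ℓ m) (hE : 1 + X - (1 + Y) ^ ℓ ∈ LM F n ℓ (m + 1 + k)) :
    ∃ Y' ∈ LM F n ℓ m, Y' - Y ∈ LM F n ℓ (m + k) ∧ 1 + X - (1 + Y') ^ ℓ ∈ LM F n ℓ (m + 1 + (k + 1)) := by
  have hE' : 1 + X - (1 + Y) ^ ℓ ∈ LM F n ℓ (m + k + 1) := by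
    rwa [add_right_comm m k 1]
  obtain ⟨Z, hZ, hZE⟩ := LM_div hE'
  have hY' : Y + Z ∈ LM F n ℓ m := add_mem hY (LM_anti (Nat.le_add_right m k) hZ)
  refine ⟨Y + Z, hY', by rwa [add_sub_cancel_left], ?_⟩
  have h := E2_pow_sub_pow (a := 1 + (Y + Z)) (b := 1 + Y) (m := m) (j := m + k) (by rwa [add_sub_cancel_left])
    (by rwa [add_sub_cancel_left]) (by rw [← add_assoc, add_sub_cancel_left]; exact hZ) ℓ
  have h1 : (1 + (Y + Z)) - (1 + Y) = Z := by abel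
  rw [h1, ← hZE] at h
  have h2 : 1 + X - (1 + (Y + Z)) ^ ℓ = -((1 + (Y + Z)) ^ ℓ - (1 + Y) ^ ℓ - (1 + X - (1 + Y) ^ ℓ)) := by abel
  rw [h2]
  exact neg_mem (LM_anti (by omega) h)

theorem exists_root (hℓ : ℓ.Prime) {m : ℕ} (hm : 2 ≤ m) {X : Matrix (Fin n) (Fin n) (FiniteAdeleRing (𝓞 F) F)}
    (hX : X ∈ LM F n ℓ (m + 1)) : ∃ Y ∈ LM F n ℓ m, (1 + Y) ^ ℓ = 1 + X := by
  -- the sequence of approximations
  have hseq : ∃ Y : ℕ → Matrix (Fin n) (Fin n) (FiniteAdeleRing (𝓞 F) F), ∀ k, Y k ∈ LM F n ℓ m ∧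
      1 + X - (1 + Y k) ^ ℓ ∈ LM F n ℓ (m + 1 + k) ∧ Y (k + 1) - Y k ∈ LM F n ℓ (m + k) := by
    classical
    let P : ℕ → Matrix (Fin n) (Fin n) (FiniteAdeleRing (𝓞 F) F) → Prop := fun k Y =>
      Y ∈ LM F n ℓ m ∧ 1 + X - (1 + Y) ^ ℓ ∈ LM F n ℓ (m + 1 + k)
    have h0 : P 0 0 := ⟨zero_mem _, by rw [add_zero (1 : Matrix (Fin n) (Fin n) (FiniteAdeleRing (𝓞 F) F)), one_pow, add_sub_cancel_left]; exact hX⟩
    have hs : ∀ k Y, P k Y → ∃ Y', P (k + 1) Y' ∧ Y' - Y ∈ LM F n ℓ (m + k) := by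
      rintro k Y ⟨hY, hE⟩
      obtain ⟨Y', h1, h2, h3⟩ := E2_step hm hY hE
      exact ⟨Y', ⟨h1, h3⟩, h2⟩
    choose f hf1 hf2 using hs
    let T : (k : ℕ) → {Y // P k Y} := fun k => Nat.rec ⟨0, h0⟩ (fun k Y => ⟨f k Y.1 Y.2, hf1 k Y.1 Y.2⟩) k
    refine ⟨fun k => (T k).1, fun k => ⟨(T k).2.1, (T k).2.2, hf2 k (T k).1 (T k).2⟩⟩
  obtain ⟨Y, hY⟩ := hseq
  -- the nested compact sets
  let C : ℕ → Set (Matrix (Fin n) (Fin n) (FiniteAdeleRing (𝓞 F) F)) := fun k => {W | W - Y k ∈ LM F n ℓ (m + k)}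
  have hCc : ∀ k, IsCompact (C k) := by
    intro k
    have h : C k = (fun W => W + Y k) '' (LM F n ℓ (m + k) : Set (Matrix (Fin n) (Fin n) (FiniteAdeleRing (𝓞 F) F))) := by
      ext W
      constructor
      · intro hW
        exact ⟨W - Y k, hW, sub_add_cancel _ _⟩
      · rintro ⟨Z, hZ, rfl⟩
        change Z + Y k - Y k ∈ LM F n ℓ (m + k)
        rwa [add_sub_cancel_right]
    rw [h]
    exact (isCompact_LM (m + k)).image (continuous_id.add continuous_const)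
  have hT2 : T2Space (FiniteAdeleRing (𝓞 F) F) := t2Space_adele F
  have hne : (⋂ k, C k).Nonempty := by
    refine IsCompact.nonempty_iInter_of_sequence_nonempty_isCompact_isClosed C ?_ ?_ (hCc 0) (fun k => (hCc k).isClosed)
    · intro k W hW
      have h : W - Y k = (W - Y (k + 1)) + (Y (k + 1) - Y k) := by abel
      change W - Y k ∈ LM F n ℓ (m + k)
      rw [h]
      exact add_mem (LM_anti (by omega) hW) (hY k).2.2
    · intro k
      exact ⟨Y k, by change Y k - Y k ∈ LM F n ℓ (m + k); rw [sub_self]; exact zero_mem _⟩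
  obtain ⟨W, hW⟩ := hne
  rw [Set.mem_iInter] at hW
  have hW' : ∀ k, W - Y k ∈ LM F n ℓ (m + k) := hW
  have hWm : W ∈ LM F n ℓ m := by
    have h : W = (W - Y 0) + Y 0 := by abel
    rw [h]
    exact add_mem (hW' 0) (hY 0).1
  refine ⟨W, hWm, ?_⟩
  rw [← sub_eq_zero]
  refine eq_zero_of_forall hℓ (fun k => ?_)
  have h1 := E2_pow_sub_pow (a := 1 + W) (b := 1 + Y k) (m := m) (j := m + k) (by rwa [add_sub_cancel_left])
    (by rw [add_sub_cancel_left]; exact (hY k).1) (by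
      have h : 1 + W - (1 + Y k) = W - Y k := by abel
      rw [h]; exact hW' k) ℓ
  have h2 : 1 + W - (1 + Y k) = W - Y k := by abel
  rw [h2] at h1
  have h3 : (1 + W) ^ ℓ - (1 + X) = ((1 + W) ^ ℓ - (1 + Y k) ^ ℓ - ℓ • (W - Y k)) + ℓ • (W - Y k) -
      (1 + X - (1 + Y k) ^ ℓ) := by abel
  rw [h3]
  exact sub_mem (add_mem (LM_anti (by omega) h1) (LM_anti (by omega) (LM_smul (hW' k)))) (LM_anti (by omega) (hY k).2.1)

end Pool.Agent.Lib.MP_666dc0_nt.PL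
end

section

/-!
# PL, E4: roots of elements of `G(𝔸_f)` are in `G(𝔸_f)`
-/

open NumberField IsDedekindDomain
open scoped NumberField

namespace Pool.Agent.Lib.MP_666dc0_nt.PL

open WL

/-- An additive endomorphism which is close to `1` and whose `ℓ`-th power fixes `v` fixes `v`. -/
private theorem E4_aux {M : Type} [AddCommGroup M] {ℓ : ℕ} (B : M →+ M) (Λ : ℕ → AddSubgroup M)
    (hΛ : ∀ k, Λ (k + 1) ≤ Λ k) (hdiv : ∀ k w, ℓ • w ∈ Λ (k + 1) → w ∈ Λ k)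
    (hint : ∀ w, (∀ k, w ∈ Λ k) → w = 0) {m : ℕ} (hm : 2 ≤ m)
    (hB : ∀ k, ∀ w ∈ Λ k, B w - w ∈ Λ (k + m)) {v : M} (hv : B^[ℓ] v = v)
    (h0 : B v - v ∈ Λ 0) : B v = v := by
  have hanti : ∀ a b, a ≤ b → Λ b ≤ Λ a := fun a b h => antitone_nat_of_succ_le hΛ h
  have h1 : ∀ k w, w ∈ Λ k → ∀ j, B^[j] w - w ∈ Λ (k + m) := by
    intro k w hw j
    induction j with
    | zero => simp
    | succ j ih =>
      have h2 : B^[j] w ∈ Λ k := by
        have h3 : B^[j] w = (B^[j] w - w) + w := by abel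
        rw [h3]
        exact add_mem (hanti k (k + m) (Nat.le_add_right _ _) ih) hw
      have h3 : B^[j + 1] w - w = (B (B^[j] w) - B^[j] w) + (B^[j] w - w) := by
        rw [Function.iterate_succ_apply']
        abel
      rw [h3]
      exact add_mem (hB k _ h2) ih
  have hsum : ∀ j, ∑ i ∈ Finset.range j, B^[i] (B v - v) = B^[j] v - v := by
    intro j
    induction j with
    | zero => simp
    | succ j ih =>
      have h2 : B^[j] (B v - v) = B^[j + 1] v - B^[j] v := by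
        rw [Function.iterate_succ_apply]
        exact iterate_map_sub B j (B v) v
      rw [Finset.sum_range_succ, ih, h2]
      abel
  have h2 : ∀ k, B v - v ∈ Λ k := by
    intro k
    induction k with
    | zero => exact h0
    | succ k ih =>
      apply hdiv
      have h3 : ℓ • (B v - v) = -∑ i ∈ Finset.range ℓ, (B^[i] (B v - v) - (B v - v)) := by
        rw [Finset.sum_sub_distrib, hsum, hv, sub_self, Finset.sum_const, Finset.card_range]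
        abel
      rw [h3]
      exact neg_mem (sum_mem fun i _ => hanti _ _ (by omega) (h1 k _ ih i))
  exact sub_eq_zero.1 (hint _ h2)

variable {F : Type} [Field F] [NumberField F] {n : ℕ} {D : Datum F n} {ℓ : ℕ}

/-- The finite adeles in `ℓ ^ k OL`. -/
private def E4S (F : Type) [Field F] [NumberField F] (ℓ k : ℕ) : AddSubgroup (FiniteAdeleRing (𝓞 F) F) where
  carrier := {x | ∃ a ∈ OL F ℓ, x = (ℓ : FiniteAdeleRing (𝓞 F) F) ^ k * a}
  add_mem' {x y} hx hy := by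
    obtain ⟨a, ha, h⟩ := hx
    obtain ⟨b, hb, h'⟩ := hy
    exact ⟨a + b, add_mem ha hb, by rw [h, h', mul_add]⟩
  zero_mem' := ⟨0, zero_mem _, by rw [mul_zero]⟩
  neg_mem' {x} hx := by
    obtain ⟨a, ha, h⟩ := hx
    exact ⟨-a, neg_mem ha, by rw [h, mul_neg]⟩

private theorem E4OL_mul {a b : FiniteAdeleRing (𝓞 F) F} (ha : a ∈ Ohat F) (hb : b ∈ OL F ℓ) :
    a * b ∈ OL F ℓ :=
  ⟨mul_mem ha hb.1, fun v hv => by
    have h : (a * b) v = a v * b v := rfl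
    rw [h, hb.2 v hv, mul_zero]⟩

private theorem E4S_mul_left {k : ℕ} {x y : FiniteAdeleRing (𝓞 F) F} (hx : x ∈ Ohat F) (hy : y ∈ E4S F ℓ k) :
    x * y ∈ E4S F ℓ k := by
  obtain ⟨a, ha, rfl⟩ := hy
  exact ⟨x * a, E4OL_mul hx ha, by ring⟩

private theorem E4S_mul_right {k : ℕ} {x y : FiniteAdeleRing (𝓞 F) F} (hx : x ∈ E4S F ℓ k) (hy : y ∈ Ohat F) :
    x * y ∈ E4S F ℓ k := by
  rw [mul_comm]
  exact E4S_mul_left hy hx

private theorem E4S_mul {k m : ℕ} {x y : FiniteAdeleRing (𝓞 F) F} (hx : x ∈ E4S F ℓ m) (hy : y ∈ E4S F ℓ k) :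
    x * y ∈ E4S F ℓ (k + m) := by
  obtain ⟨a, ha, rfl⟩ := hx
  obtain ⟨b, hb, rfl⟩ := hy
  exact ⟨a * b, E4OL_mul ha.1 hb, by ring⟩

private theorem E4S_succ (k : ℕ) : E4S F ℓ (k + 1) ≤ E4S F ℓ k := by
  rintro x ⟨a, ha, rfl⟩
  exact ⟨ℓ * a, E4OL_mul (natCast_mem _ _) ha, by ring⟩

private theorem E4S_iff {k : ℕ} {x : FiniteAdeleRing (𝓞 F) F} :
    x ∈ E4S F ℓ k ↔ (Matrix.of fun _ _ : Fin 1 => x) ∈ LM F 1 ℓ k :=
  ⟨fun h _ _ => h, fun h => h 0 0⟩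

private theorem E4S_of_smul (hℓ : ℓ ≠ 0) {k : ℕ} {x : FiniteAdeleRing (𝓞 F) F} (h : ℓ • x ∈ E4S F ℓ (k + 1)) :
    x ∈ E4S F ℓ k :=
  E4S_iff.2 (LM_of_smul hℓ (E4S_iff.1 h))

private theorem E4S_zero (hℓ : ℓ.Prime) {x : FiniteAdeleRing (𝓞 F) F} (h : ∀ k, x ∈ E4S F ℓ k) : x = 0 := by
  have h1 := eq_zero_of_forall hℓ fun k => E4S_iff.1 (h k)
  exact congrFun (congrFun h1 0) 0

private theorem E4_prod {ι : Type} (s : Finset ι) {m : ℕ} {f g : ι → FiniteAdeleRing (𝓞 F) F}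
    (hf : ∀ i, f i ∈ Ohat F) (hg : ∀ i, g i ∈ Ohat F) (h : ∀ i, f i - g i ∈ E4S F ℓ m) :
    ∏ i ∈ s, f i - ∏ i ∈ s, g i ∈ E4S F ℓ m := by
  classical
  induction s using Finset.induction_on with
  | empty =>
    rw [Finset.prod_empty, Finset.prod_empty, sub_self]
    exact zero_mem _
  | insert i s hi ih =>
    rw [Finset.prod_insert hi, Finset.prod_insert hi]
    have h1 : f i * ∏ i ∈ s, f i - g i * ∏ i ∈ s, g i =
        (f i - g i) * ∏ i ∈ s, f i + g i * (∏ i ∈ s, f i - ∏ i ∈ s, g i) := by ring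
    rw [h1]
    exact add_mem (E4S_mul_right (h i) (prod_mem fun j _ => hf j)) (E4S_mul_left (hg i) ih)

private theorem E4_smul_cancel {C : ℕ} (hC : 0 < C) {x y : FiniteAdeleRing (𝓞 F) F} (h : C • x = C • y) : x = y := by
  have h1 : IsUnit (C : FiniteAdeleRing (𝓞 F) F) := by
    have h : IsUnit (C : F) := (Nat.cast_ne_zero.2 hC.ne').isUnit
    have h2 := h.map (algebraMap F (FiniteAdeleRing (𝓞 F) F))
    rwa [map_natCast] at h2
  rw [nsmul_eq_mul, nsmul_eq_mul] at h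
  exact h1.mul_left_cancel h

private theorem E4_clear {ι : Type} [Fintype ι] (t : ι → FiniteAdeleRing (𝓞 F) F) :
    ∃ C : ℕ, 0 < C ∧ ∀ i, C • t i ∈ Ohat F := by
  classical
  choose c hc h using fun i => exists_mul_mem_Ohat F (t i)
  refine ⟨∏ i, c i, Finset.prod_pos fun i _ => hc i, fun i => ?_⟩
  rw [nsmul_eq_mul, ← Finset.mul_prod_erase _ _ (Finset.mem_univ i), Nat.cast_mul, mul_comm (c i : FiniteAdeleRing (𝓞 F) F),
    mul_assoc]
  exact mul_mem (natCast_mem _ _) (h i)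

private theorem E4_one_mem (i j : Fin n) : (1 : Matrix (Fin n) (Fin n) (FiniteAdeleRing (𝓞 F) F)) i j ∈ Ohat F := by
  rw [Matrix.one_apply]
  split_ifs
  · exact one_mem _
  · exact zero_mem _

private theorem E4_int {m : ℕ} {y : Matrix (Fin n) (Fin n) (FiniteAdeleRing (𝓞 F) F)} (hy : y - 1 ∈ LM F n ℓ m) :
    IsIntM y := by
  have h := IsIntM.one_add hy
  rwa [add_sub_cancel] at h

private theorem E4_tens (hℓ : ℓ.Prime) {m : ℕ} (hm : 2 ≤ m) {y : Matrix (Fin n) (Fin n) (FiniteAdeleRing (𝓞 F) F)}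
    (hy : y - 1 ∈ LM F n ℓ m) {a : ℕ} (t : (Fin a → Fin n) → FiniteAdeleRing (𝓞 F) F)
    (h : tensAct (y ^ ℓ) t = t) : tensAct y t = t := by
  obtain ⟨C, hC, hCt⟩ := E4_clear t
  let B : ((Fin a → Fin n) → FiniteAdeleRing (𝓞 F) F) →+ ((Fin a → Fin n) → FiniteAdeleRing (𝓞 F) F) :=
    { toFun := tensAct y
      map_zero' := by
        funext I
        simp [tensAct]
      map_add' := fun s s' => by
        funext I
        simp only [tensAct, Pi.add_apply, mul_add, Finset.sum_add_distrib] }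
  have hBa : ∀ s, B s = tensAct y s := fun s => rfl
  have hpow : ∀ j s, B^[j] s = tensAct (y ^ j) s := by
    intro j
    induction j with
    | zero =>
      intro s
      rw [pow_zero, tensAct_one]
      rfl
    | succ j ih =>
      intro s
      rw [Function.iterate_succ_apply', ih, pow_succ', tensAct_mul, hBa]
  let Λ : ℕ → AddSubgroup ((Fin a → Fin n) → FiniteAdeleRing (𝓞 F) F) := fun k =>
    { carrier := {s | ∀ I, s I ∈ E4S F ℓ k}
      add_mem' := fun hs hs' I => add_mem (hs I) (hs' I)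
      zero_mem' := fun I => zero_mem _
      neg_mem' := fun hs I => neg_mem (hs I) }
  have hprod : ∀ I J : Fin a → Fin n, ∏ s, y (I s) (J s) -
      ∏ s, (1 : Matrix (Fin n) (Fin n) (FiniteAdeleRing (𝓞 F) F)) (I s) (J s) ∈ E4S F ℓ m := fun I J =>
    E4_prod _ (fun s => E4_int hy _ _) (fun s => E4_one_mem _ _) fun s => hy (I s) (J s)
  have hdiff : ∀ s : (Fin a → Fin n) → FiniteAdeleRing (𝓞 F) F, ∀ I, (B s - s) I =
      ∑ J, (∏ r, y (I r) (J r) - ∏ r, (1 : Matrix (Fin n) (Fin n) (FiniteAdeleRing (𝓞 F) F)) (I r) (J r)) * s J := by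
    intro s I
    have h1 : s I = ∑ J, (∏ r, (1 : Matrix (Fin n) (Fin n) (FiniteAdeleRing (𝓞 F) F)) (I r) (J r)) * s J := by
      conv_lhs => rw [← tensAct_one (R := FiniteAdeleRing (𝓞 F) F) s]
      rfl
    rw [Pi.sub_apply, h1, hBa]
    simp only [sub_mul, Finset.sum_sub_distrib]
    rfl
  have key : B (C • t) = C • t := by
    refine E4_aux B Λ (fun k s hs I => E4S_succ k (hs I)) (fun k s hs I => E4S_of_smul hℓ.ne_zero (hs I))
      (fun s hs => funext fun I => E4S_zero hℓ fun k => hs k I) hm ?_ ?_ ?_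
    · intro k s hs I
      rw [hdiff]
      exact sum_mem fun J _ => E4S_mul (hprod I J) (hs J)
    · rw [iterate_map_nsmul, hpow, h]
    · intro I
      rw [hdiff]
      refine sum_mem fun J _ => ?_
      have h1 := E4S_mul_right (hprod I J) (hCt J)
      exact antitone_nat_of_succ_le (f := E4S F ℓ) E4S_succ (Nat.zero_le m) h1
  funext I
  rw [map_nsmul] at key
  exact E4_smul_cancel hC (congrFun key I)

private theorem E4_form (hℓ : ℓ.Prime) {m : ℕ} (hm : 2 ≤ m) {y : Matrix (Fin n) (Fin n) (FiniteAdeleRing (𝓞 F) F)}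
    (hy : y - 1 ∈ LM F n ℓ m) (q : Matrix (Fin n) (Fin n) (FiniteAdeleRing (𝓞 F) F))
    (h : (y ^ ℓ).transpose * q * y ^ ℓ = q) : y.transpose * q * y = q := by
  obtain ⟨C, hC, hCq⟩ := E4_clear fun p : Fin n × Fin n => q p.1 p.2
  have hCq' : IsIntM (C • q) := fun i j => hCq (i, j)
  let B : Matrix (Fin n) (Fin n) (FiniteAdeleRing (𝓞 F) F) →+ Matrix (Fin n) (Fin n) (FiniteAdeleRing (𝓞 F) F) :=
    { toFun := fun X => y.transpose * X * y
      map_zero' := by rw [mul_zero, zero_mul]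
      map_add' := fun X X' => by rw [mul_add, add_mul] }
  have hBa : ∀ X, B X = y.transpose * X * y := fun X => rfl
  have hpow : ∀ j X, B^[j] X = (y ^ j).transpose * X * y ^ j := by
    intro j
    induction j with
    | zero =>
      intro X
      rw [pow_zero, Matrix.transpose_one, one_mul, mul_one]
      rfl
    | succ j ih =>
      intro X
      rw [Function.iterate_succ_apply', ih, pow_succ, Matrix.transpose_mul, hBa]
      simp only [mul_assoc]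
  have hyt : y.transpose - 1 ∈ LM F n ℓ m := by
    have h1 : y.transpose - 1 = (y - 1).transpose := by rw [Matrix.transpose_sub, Matrix.transpose_one]
    rw [h1]
    exact fun i j => hy j i
  have hdiff : ∀ X, B X - X = (y.transpose - 1) * X * y + X * (y - 1) := by
    intro X
    rw [hBa]
    noncomm_ring
  have key : B (C • q) = C • q := by
    refine E4_aux B (fun k => LM F n ℓ k) (fun k => LM_anti (Nat.le_succ k)) (fun k X hX => LM_of_smul hℓ.ne_zero hX)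
      (fun X hX => eq_zero_of_forall hℓ hX) hm ?_ ?_ ?_
    · intro k X hX
      rw [hdiff]
      refine add_mem (LM_mul_right ?_ (E4_int hy)) (LM_mul hX hy)
      rw [add_comm]
      exact LM_mul hyt hX
    · rw [iterate_map_nsmul, hpow, h]
    · rw [hdiff]
      exact LM_anti (Nat.zero_le m) (add_mem (LM_mul_right (LM_mul_right hyt hCq') (E4_int hy)) (LM_mul_left hCq' hy))
  ext1 i j
  rw [map_nsmul] at key
  exact E4_smul_cancel hC (congrFun (congrFun key i) j)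

theorem mem_points_of_pow (hℓ : ℓ.Prime) {m : ℕ} (hm : 2 ≤ m) {y : GL (Fin n) (FiniteAdeleRing (𝓞 F) F)}
    (hy : (y : Matrix (Fin n) (Fin n) (FiniteAdeleRing (𝓞 F) F)) - 1 ∈ LM F n ℓ m)
    (h : y ^ ℓ ∈ D.points (algebraMap F (FiniteAdeleRing (𝓞 F) F))) :
    y ∈ D.points (algebraMap F (FiniteAdeleRing (𝓞 F) F)) := by
  obtain ⟨h1, h2⟩ := h
  rw [Units.val_pow_eq_pow_val] at h1 h2
  exact ⟨E4_form hℓ hm hy _ h1, fun i => E4_tens hℓ hm hy _ (h2 i)⟩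

theorem exists_root_Kc (hℓ : ℓ.Prime) {m : ℕ} (hm : 2 ≤ m) {g : D.Ad} (hg : g ∈ Kc D ℓ (m + 1)) :
    ∃ y ∈ Kc D ℓ m, y ^ ℓ = g := by
  obtain ⟨h1, h2⟩ := mem_Kc.1 hg
  obtain ⟨Y, hY, hYg⟩ := exists_root hℓ hm h1
  rw [add_sub_cancel] at hYg
  have hℓ1 : ℓ = (ℓ - 1) + 1 := by have := hℓ.pos; omega
  have h3 : (1 + Y) * ((1 + Y) ^ (ℓ - 1) * mat g⁻¹) = 1 := by
    rw [← mul_assoc, ← pow_succ', ← hℓ1, hYg]
    exact mat_mul_inv g
  have h4 : ((1 + Y) ^ (ℓ - 1) * mat g⁻¹) * (1 + Y) = 1 := mul_eq_one_comm.1 h3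
  have hY1 : (1 + Y) - 1 ∈ LM F n ℓ m := by rwa [add_sub_cancel_left]
  have hpow : ∀ k : ℕ, (1 + Y) ^ k - 1 ∈ LM F n ℓ m := by
    intro k
    induction k with
    | zero =>
      rw [pow_zero, sub_self]
      exact zero_mem _
    | succ k ih =>
      rw [pow_succ]
      exact Kc_aux ih hY1
  have h5 : (1 + Y) ^ (ℓ - 1) * mat g⁻¹ - 1 ∈ LM F n ℓ m := Kc_aux (hpow _) (LM_anti (Nat.le_succ m) h2)
  let y : GL (Fin n) (FiniteAdeleRing (𝓞 F) F) := ⟨1 + Y, (1 + Y) ^ (ℓ - 1) * mat g⁻¹, h3, h4⟩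
  have h6 : y ^ ℓ = g.1 := by
    apply Units.ext
    rw [Units.val_pow_eq_pow_val]
    exact hYg
  have h7 : y ∈ D.points (algebraMap F (FiniteAdeleRing (𝓞 F) F)) := by
    refine mem_points_of_pow hℓ hm hY1 ?_
    rw [h6]
    exact g.2
  exact ⟨⟨y, h7⟩, mem_Kc.2 ⟨hY1, h5⟩, Subtype.ext h6⟩

end Pool.Agent.Lib.MP_666dc0_nt.PL
end

section

/-!
TASK E3. Algebra of the congruence subgroups.

* `Kc_supp`: `mat g = 1` at `v ∤ ℓ`.
* `Kc_conj`: `g k g⁻¹ - 1 = g (k - 1) g⁻¹`, `g`, `g⁻¹` integral.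
* `Kc_comm`: `g h g⁻¹ h⁻¹ - 1 = (g h - h g) g⁻¹ h⁻¹`, `g h - h g = X Y - Y X`.
* `Kc_pow`, `Kc_pow_iff`: with `g = 1 + X`, `g ^ ℓ = 1 + ℓ X` modulo `LM (m + 2)` (`pow_sub`). `x⁻¹ y ∈ Kc (m + 1)` iff `y - x ∈ LM (m + 1)` (for
  `x, y ∈ Kc m`; multiply by the integral `x`, `x⁻¹`, and for the inverse `(x⁻¹ y)⁻¹ - 1 = y⁻¹ (x - y)`) iff `ℓ (Y - X) ∈ LM (m + 2)` iff `y ^ ℓ - x ^ ℓ ∈ LM (m + 2)`.
-/

open NumberField IsDedekindDomain
open scoped NumberField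

namespace Pool.Agent.Lib.MP_666dc0_nt.PL

open WL

variable {F : Type} [Field F] [NumberField F] {n : ℕ} {D : Datum F n} {ℓ : ℕ}

theorem Kc_anti {m m' : ℕ} (h : m ≤ m') : Kc D ℓ m' ≤ Kc D ℓ m := fun _ hg =>
  ⟨LM_anti h hg.1, LM_anti h hg.2⟩

/-- The matrices of the elements of `Kc` are integral. -/
theorem Kc_int {m : ℕ} {g : D.Ad} (hg : g ∈ Kc D ℓ m) : IsIntM (mat g) := by
  have h := IsIntM.one_add hg.1
  rwa [add_sub_cancel] at h

theorem Kc_supp {m : ℕ} {g : D.Ad} (hg : g ∈ Kc D ℓ m) (v : HeightOneSpectrum (𝓞 F)) (hv : (ℓ : 𝓞 F) ∉ v.asIdeal) :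
    TrivialAt v g := by
  have h1 : ∀ i j, (mat g i j) v = ((1 : Matrix (Fin n) (Fin n) (FiniteAdeleRing (𝓞 F) F)) i j) v := by
    intro i j
    obtain ⟨a, ha, h⟩ := hg.1 i j
    rw [Matrix.sub_apply] at h
    have h2 : mat g i j = (1 : Matrix (Fin n) (Fin n) (FiniteAdeleRing (𝓞 F) F)) i j +
        (ℓ : FiniteAdeleRing (𝓞 F) F) ^ m * a := by
      rw [← h, add_sub_cancel]
    rw [h2]
    have h3 : evalAt F v a = 0 := ha.2 v hv
    have h4 : evalAt F v ((1 : Matrix (Fin n) (Fin n) (FiniteAdeleRing (𝓞 F) F)) i j +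
        (ℓ : FiniteAdeleRing (𝓞 F) F) ^ m * a) =
        evalAt F v ((1 : Matrix (Fin n) (Fin n) (FiniteAdeleRing (𝓞 F) F)) i j) := by
      rw [map_add, map_mul, h3, mul_zero, add_zero]
    exact h4
  have h4 : (1 : Matrix (Fin n) (Fin n) (FiniteAdeleRing (𝓞 F) F)).map
      (fun a => (a v : v.adicCompletion F)) = 1 := TrivialAt.one (D := D) v
  unfold TrivialAt
  rw [← h4]
  exact Matrix.ext fun i j => h1 i j

theorem Kc_entries {m : ℕ} (hm : 2 ≤ m) {g : D.Ad} (hg : g ∈ Kc D ℓ m) (i j : Fin n) : ∃ a ∈ Ohat F,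
    mat g i j = (1 : Matrix (Fin n) (Fin n) (FiniteAdeleRing (𝓞 F) F)) i j + (ℓ : FiniteAdeleRing (𝓞 F) F) ^ 2 * a := by
  obtain ⟨a, ha, h⟩ := (LM_anti hm hg.1) i j
  refine ⟨a, ha.1, ?_⟩
  rw [Matrix.sub_apply] at h
  rw [← h, add_sub_cancel]

private theorem E3_conj {m m' : ℕ} {g k : D.Ad} (hg : g ∈ Kc D ℓ m') (hk : k ∈ Kc D ℓ m) :
    mat (g * k * g⁻¹) - 1 ∈ LM F n ℓ m := by
  have h1 : mat (g * k * g⁻¹) - 1 = mat g * (mat k - 1) * mat g⁻¹ := by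
    rw [mat_mul, mat_mul, mul_sub, sub_mul, mul_one, mat_mul_inv]
  rw [h1]
  exact LM_mul_right (LM_mul_left (Kc_int hg) hk.1) (Kc_int (inv_mem hg))

theorem Kc_conj {m m' : ℕ} {g k : D.Ad} (hg : g ∈ Kc D ℓ m') (hk : k ∈ Kc D ℓ m) : g * k * g⁻¹ ∈ Kc D ℓ m := by
  refine ⟨E3_conj hg hk, ?_⟩
  have h1 : (g * k * g⁻¹)⁻¹ = g * k⁻¹ * g⁻¹ := by group
  rw [h1]
  exact E3_conj hg (inv_mem hk)

private theorem E3_comm {m m' : ℕ} {g h : D.Ad} (hg : g ∈ Kc D ℓ m) (hh : h ∈ Kc D ℓ m') :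
    mat (g * h * g⁻¹ * h⁻¹) - 1 ∈ LM F n ℓ (m + m') := by
  have h1 : mat (g * h * g⁻¹ * h⁻¹) - 1 = ((mat g - 1) * (mat h - 1) - (mat h - 1) * (mat g - 1)) * (mat g⁻¹ * mat h⁻¹) := by
    have h2 : (mat g - 1) * (mat h - 1) - (mat h - 1) * (mat g - 1) = mat g * mat h - mat h * mat g := by noncomm_ring
    have h3 : mat h * mat g * (mat g⁻¹ * mat h⁻¹) = 1 := by
      rw [← mat_mul, ← mat_mul, ← mat_mul]
      have h4 : h * g * (g⁻¹ * h⁻¹) = 1 := by group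
      rw [h4, mat_one]
    rw [h2, sub_mul, h3, mat_mul, mat_mul, mat_mul, mul_assoc (mat g * mat h)]
  rw [h1]
  have h5 : (mat h - 1) * (mat g - 1) ∈ LM F n ℓ (m + m') := by
    rw [add_comm m m']
    exact LM_mul hh.1 hg.1
  exact LM_mul_right (sub_mem (LM_mul hg.1 hh.1) h5) ((Kc_int (inv_mem hg)).mul (Kc_int (inv_mem hh)))

theorem Kc_comm {m m' : ℕ} {g h : D.Ad} (hg : g ∈ Kc D ℓ m) (hh : h ∈ Kc D ℓ m') :
    g * h * g⁻¹ * h⁻¹ ∈ Kc D ℓ (m + m') := by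
  refine ⟨E3_comm hg hh, ?_⟩
  have h1 : (g * h * g⁻¹ * h⁻¹)⁻¹ = h * g * h⁻¹ * g⁻¹ := by group
  rw [h1, add_comm m m']
  exact E3_comm hh hg

theorem mat_pow (g : D.Ad) (k : ℕ) : mat (g ^ k) = mat g ^ k := by
  induction k with
  | zero => rw [pow_zero, pow_zero, mat_one]
  | succ k ih => rw [pow_succ, pow_succ, mat_mul, ih]

private theorem E3_pow_sub (hℓ : ℓ.Prime) {m : ℕ} (hm : 2 ≤ m) {g : D.Ad} (hg : g ∈ Kc D ℓ m) :
    mat (g ^ ℓ) - 1 - ℓ • (mat g - 1) ∈ LM F n ℓ (m + 2) := by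
  have h := pow_sub hℓ hm hg.1
  rwa [add_sub_cancel, ← mat_pow] at h

private theorem E3_pow (hℓ : ℓ.Prime) {m : ℕ} (hm : 2 ≤ m) {g : D.Ad} (hg : g ∈ Kc D ℓ m) :
    mat (g ^ ℓ) - 1 ∈ LM F n ℓ (m + 1) := by
  have h1 : mat (g ^ ℓ) - 1 = (mat (g ^ ℓ) - 1 - ℓ • (mat g - 1)) + ℓ • (mat g - 1) := by rw [sub_add_cancel]
  rw [h1]
  exact add_mem (LM_anti (by omega) (E3_pow_sub hℓ hm hg)) (LM_smul hg.1)

theorem Kc_pow (hℓ : ℓ.Prime) {m : ℕ} (hm : 2 ≤ m) {g : D.Ad} (hg : g ∈ Kc D ℓ m) : g ^ ℓ ∈ Kc D ℓ (m + 1) := by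
  refine ⟨E3_pow hℓ hm hg, ?_⟩
  rw [← inv_pow]
  exact E3_pow hℓ hm (inv_mem hg)

private theorem E3_iff {m j : ℕ} {x y : D.Ad} (hx : x ∈ Kc D ℓ m) (hy : y ∈ Kc D ℓ m) :
    x⁻¹ * y ∈ Kc D ℓ j ↔ mat y - mat x ∈ LM F n ℓ j := by
  constructor
  · intro h
    have h1 : mat y - mat x = mat x * (mat (x⁻¹ * y) - 1) := by
      rw [mat_mul, mul_sub, mul_one, ← mul_assoc, mat_mul_inv, one_mul]
    rw [h1]
    exact LM_mul_left (Kc_int hx) h.1
  · intro h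
    refine ⟨?_, ?_⟩
    · have h1 : mat (x⁻¹ * y) - 1 = mat x⁻¹ * (mat y - mat x) := by
        rw [mat_mul, mul_sub, mat_inv_mul]
      rw [h1]
      exact LM_mul_left (Kc_int (inv_mem hx)) h
    · have h1 : mat (x⁻¹ * y)⁻¹ - 1 = mat y⁻¹ * (-(mat y - mat x)) := by
        rw [mul_inv_rev, inv_inv, mat_mul, neg_sub, mul_sub, mat_inv_mul]
      rw [h1]
      exact LM_mul_left (Kc_int (inv_mem hy)) (neg_mem h)

theorem Kc_pow_iff (hℓ : ℓ.Prime) {m : ℕ} (hm : 2 ≤ m) {x y : D.Ad} (hx : x ∈ Kc D ℓ m) (hy : y ∈ Kc D ℓ m) :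
    x⁻¹ * y ∈ Kc D ℓ (m + 1) ↔ (x ^ ℓ)⁻¹ * y ^ ℓ ∈ Kc D ℓ (m + 2) := by
  rw [E3_iff hx hy, E3_iff (pow_mem hx ℓ) (pow_mem hy ℓ)]
  have hX := E3_pow_sub hℓ hm hx
  have hY := E3_pow_sub hℓ hm hy
  have h1 : mat (y ^ ℓ) - mat (x ^ ℓ) = (mat (y ^ ℓ) - 1 - ℓ • (mat y - 1)) - (mat (x ^ ℓ) - 1 - ℓ • (mat x - 1)) +
      ℓ • (mat y - mat x) := by
    rw [smul_sub, smul_sub, smul_sub]
    abel
  constructor
  · intro h
    rw [h1]
    exact add_mem (sub_mem hY hX) (LM_smul h)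
  · intro h
    refine LM_of_smul hℓ.ne_zero ?_
    have h2 : ℓ • (mat y - mat x) = (mat (y ^ ℓ) - mat (x ^ ℓ)) -
        ((mat (y ^ ℓ) - 1 - ℓ • (mat y - 1)) - (mat (x ^ ℓ) - 1 - ℓ • (mat x - 1))) := by
      rw [h1]
      abel
    rw [h2]
    exact sub_mem h (sub_mem hY hX)

end Pool.Agent.Lib.MP_666dc0_nt.PL
end
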