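import Mathlib

section

/-!
# PL, E6: the structure of uniform groups (abstract groups)
-/

namespace Pool.Agent.Lib.MP_666dc0_nt.PL

/-- A finite commutative group of exponent `ℓ` has `ℓ ^ d` elements and `d` generators. -/
private theorem E6_elem {Q : Type} [CommGroup Q] [Finite Q] {ℓ : ℕ} [Fact ℓ.Prime] (h : ∀ x : Q, x ^ ℓ = 1) :
    ∃ d : ℕ, Nat.card Q = ℓ ^ d ∧ ∃ b : Fin d → Q, Subgroup.closure (Set.range b) = ⊤ := by
  let inst : Module (ZMod ℓ) (Additive Q) := AddCommGroup.zmodModule (n := ℓ) fun x => h x.toMul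
  have hf : Module.Finite (ZMod ℓ) (Additive Q) := Module.Finite.of_finite
  let b := Module.finBasis (ZMod ℓ) (Additive Q)
  refine ⟨Module.finrank (ZMod ℓ) (Additive Q), ?_, fun i => (b i).toMul, ?_⟩
  · have h1 := Module.natCard_eq_pow_finrank (K := ZMod ℓ) (V := Additive Q)
    rw [Nat.card_zmod] at h1
    exact h1
  · let A : AddSubgroup (Additive Q) := AddSubgroup.closure (Set.range b)
    have h1 : (AddSubgroup.toZModSubmodule ℓ A) = ⊤ := by
      rw [eq_top_iff, ← b.span_eq, Submodule.span_le]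
      intro x hx
      exact AddSubgroup.subset_closure hx
    have h2 : ∀ x : Additive Q, x ∈ A := by
      intro x
      have : x ∈ AddSubgroup.toZModSubmodule ℓ A := by
        rw [h1]
        exact Submodule.mem_top
      exact this
    rw [eq_top_iff]
    intro x _
    have h3 : Additive.ofMul x ∈ A := h2 _
    have h4 : ∀ y : Additive Q, y ∈ A → y.toMul ∈ Subgroup.closure (Set.range fun i => (b i).toMul) := by
      intro y hy
      induction hy using AddSubgroup.closure_induction with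
      | mem y hy =>
        obtain ⟨i, rfl⟩ := hy
        exact Subgroup.subset_closure ⟨i, rfl⟩
      | zero => exact one_mem _
      | add y z _ _ h1 h2 => exact mul_mem h1 h2
      | neg y _ h1 => exact inv_mem h1
    exact h4 _ h3

theorem uniform_structure {G : Type} [Group G] {ℓ : ℕ} [Fact ℓ.Prime] (K : ℕ → Subgroup G)
    (hanti : ∀ s, K (s + 1) ≤ K s) (hn : ∀ s, ∀ g ∈ K 0, ∀ k ∈ K s, g * k * g⁻¹ ∈ K s)
    (hfin : (K 1).relIndex (K 0) ≠ 0) (hcomm : ∀ s, ∀ g ∈ K s, ∀ h ∈ K s, g * h * g⁻¹ * h⁻¹ ∈ K (s + 1))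
    (hpow : ∀ s, ∀ x ∈ K s, x ^ ℓ ∈ K (s + 1))
    (hiff : ∀ s, ∀ x ∈ K s, ∀ y ∈ K s, x⁻¹ * y ∈ K (s + 1) ↔ (x ^ ℓ)⁻¹ * y ^ ℓ ∈ K (s + 2))
    (hroot : ∀ s, ∀ g ∈ K (s + 1), ∃ y ∈ K s, y ^ ℓ = g) :
    ∃ d : ℕ, (∀ s, (K s).relIndex (K 0) = ℓ ^ (s * d)) ∧ ∃ g : Fin d → G, (∀ i, g i ∈ K 0) ∧
      ∀ s, (∀ i, g i ^ ℓ ^ s ∈ K s) ∧ K 0 ≤ Subgroup.closure (Set.range g) ⊔ K s := by
  have hle : ∀ s, K s ≤ K 0 := by
    intro s
    induction s with
    | zero => exact le_rfl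
    | succ s ih => exact (hanti s).trans ih
  have hpows : ∀ s, ∀ x ∈ K 0, x ^ ℓ ^ s ∈ K s := by
    intro s
    induction s with
    | zero =>
      intro x hx
      rw [pow_zero, pow_one]
      exact hx
    | succ s ih =>
      intro x hx
      rw [pow_succ, pow_mul]
      exact hpow s _ (ih x hx)
  have hroots : ∀ s, ∀ z ∈ K s, ∃ y ∈ K 0, y ^ ℓ ^ s = z := by
    intro s
    induction s with
    | zero => exact fun z hz => ⟨z, hz, by rw [pow_zero, pow_one]⟩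
    | succ s ih =>
      intro z hz
      obtain ⟨y, hy, hyz⟩ := hroot s z hz
      obtain ⟨w, hw, hwy⟩ := ih y hy
      exact ⟨w, hw, by rw [pow_succ, pow_mul, hwy, hyz]⟩
  have hiffs : ∀ s, ∀ x ∈ K 0, ∀ y ∈ K 0, x⁻¹ * y ∈ K 1 → (x ^ ℓ ^ s)⁻¹ * y ^ ℓ ^ s ∈ K (s + 1) := by
    intro s
    induction s with
    | zero =>
      intro x _ y _ h
      rw [pow_zero, pow_one, pow_one]
      exact h
    | succ s ih =>
      intro x hx y hy h
      have h1 := (hiff s _ (hpows s x hx) _ (hpows s y hy)).1 (ih x hx y hy h)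
      rw [pow_succ, pow_mul, pow_mul]
      exact h1
  have hnorm : ((K 1).subgroupOf (K 0)).Normal := by
    refine ⟨fun k hk g => ?_⟩
    rw [Subgroup.mem_subgroupOf] at hk ⊢
    exact hn 1 g g.2 k hk
  let _ : CommGroup (K 0 ⧸ (K 1).subgroupOf (K 0)) :=
    { (inferInstance : Group (K 0 ⧸ (K 1).subgroupOf (K 0))) with
      mul_comm := by
        intro x y
        obtain ⟨x, rfl⟩ := QuotientGroup.mk_surjective x
        obtain ⟨y, rfl⟩ := QuotientGroup.mk_surjective y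
        have h1 : (((x * y : K 0)) : K 0 ⧸ (K 1).subgroupOf (K 0)) = ((y * x : K 0)) := by
          rw [QuotientGroup.eq, Subgroup.mem_subgroupOf]
          have h2 := hcomm 0 ((y : G)⁻¹) (inv_mem y.2) ((x : G)⁻¹) (inv_mem x.2)
          have h3 : (((x * y)⁻¹ * (y * x) : K 0) : G) = (y : G)⁻¹ * (x : G)⁻¹ * (y : G)⁻¹⁻¹ * (x : G)⁻¹⁻¹ := by
            rw [Subgroup.coe_mul, Subgroup.coe_inv, Subgroup.coe_mul, Subgroup.coe_mul, mul_inv_rev, inv_inv, inv_inv]
            simp only [mul_assoc]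
          rw [h3]
          exact h2
        exact h1 }
  have hQfin : Finite (K 0 ⧸ (K 1).subgroupOf (K 0)) := Nat.finite_of_card_ne_zero hfin
  obtain ⟨d, hd, b, hb⟩ := E6_elem (Q := K 0 ⧸ (K 1).subgroupOf (K 0)) (ℓ := ℓ) (by
    intro x
    obtain ⟨x, rfl⟩ := QuotientGroup.mk_surjective x
    have h1 : (((x ^ ℓ : K 0)) : K 0 ⧸ (K 1).subgroupOf (K 0)) = 1 := by
      rw [QuotientGroup.eq_one_iff, Subgroup.mem_subgroupOf, Subgroup.coe_pow]
      exact hpow 0 x x.2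
    exact h1)
  have hidx : ∀ s, (K (s + 1)).relIndex (K s) = ℓ ^ d := by
    intro s
    induction s with
    | zero => exact hd
    | succ s ih =>
      rw [← ih]
      let f : (K s ⧸ (K (s + 1)).subgroupOf (K s)) → (K (s + 1) ⧸ (K (s + 2)).subgroupOf (K (s + 1))) :=
        Quotient.map' (fun x => ⟨(x : G) ^ ℓ, hpow s x x.2⟩) (by
          intro x y hxy
          have h1 := QuotientGroup.leftRel_apply.1 hxy
          refine QuotientGroup.leftRel_apply.2 ?_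
          rw [Subgroup.mem_subgroupOf] at h1 ⊢
          exact (hiff s x x.2 y y.2).1 h1)
      have hf : Function.Bijective f := by
        constructor
        · intro x y hxy
          obtain ⟨x, rfl⟩ := QuotientGroup.mk_surjective x
          obtain ⟨y, rfl⟩ := QuotientGroup.mk_surjective y
          have h1 : (((⟨(x : G) ^ ℓ, hpow s x x.2⟩ : K (s + 1))) : K (s + 1) ⧸ (K (s + 2)).subgroupOf (K (s + 1))) =
            ((⟨(y : G) ^ ℓ, hpow s y y.2⟩ : K (s + 1))) := hxy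
          rw [QuotientGroup.eq, Subgroup.mem_subgroupOf] at h1 ⊢
          exact (hiff s x x.2 y y.2).2 h1
        · intro z
          obtain ⟨z, rfl⟩ := QuotientGroup.mk_surjective z
          obtain ⟨y, hy, hyz⟩ := hroot s z z.2
          refine ⟨((⟨y, hy⟩ : K s) : K s ⧸ (K (s + 1)).subgroupOf (K s)), ?_⟩
          have h1 : (⟨y ^ ℓ, hpow s y hy⟩ : K (s + 1)) = z := Subtype.ext hyz
          change (((⟨y ^ ℓ, hpow s y hy⟩ : K (s + 1))) : K (s + 1) ⧸ (K (s + 2)).subgroupOf (K (s + 1))) = z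
          rw [h1]
      exact (Nat.card_congr (Equiv.ofBijective f hf)).symm
  choose g hg using fun i => QuotientGroup.mk_surjective (b i)
  refine ⟨d, ?_, fun i => (g i : G), fun i => (g i).2, ?_⟩
  · intro s
    induction s with
    | zero => rw [Subgroup.relIndex_self, zero_mul, pow_zero]
    | succ s ih =>
      rw [← Subgroup.relIndex_mul_relIndex _ _ _ (hanti s) (hle s), hidx, ih, ← pow_add]
      congr 1
      ring
  · have hgen : ∀ y ∈ K 0, ∃ w ∈ Subgroup.closure (Set.range fun i => (g i : G)), w ∈ K 0 ∧ w⁻¹ * y ∈ K 1 := by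
      intro y hy
      have h1 : (((⟨y, hy⟩ : K 0)) : K 0 ⧸ (K 1).subgroupOf (K 0)) ∈ Subgroup.closure (Set.range b) := by
        rw [hb]
        exact Subgroup.mem_top _
      have h2 : Set.range b = (QuotientGroup.mk' ((K 1).subgroupOf (K 0))) '' Set.range g := by
        rw [← Set.range_comp]
        congr 1
        funext i
        exact (hg i).symm
      rw [h2, ← MonoidHom.map_closure] at h1
      obtain ⟨w, hw, hwy⟩ := h1
      have h3 : ((w : K 0) : K 0 ⧸ (K 1).subgroupOf (K 0)) = ((⟨y, hy⟩ : K 0)) := hwy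
      rw [QuotientGroup.eq, Subgroup.mem_subgroupOf] at h3
      refine ⟨w, ?_, w.2, h3⟩
      have h4 : (Subgroup.closure (Set.range g)).map (K 0).subtype = Subgroup.closure (Set.range fun i => (g i : G)) := by
        rw [MonoidHom.map_closure, ← Set.range_comp]
        rfl
      rw [← h4]
      exact ⟨w, hw, rfl⟩
    have hstep : ∀ s, K s ≤ Subgroup.closure (Set.range fun i => (g i : G)) ⊔ K (s + 1) := by
      intro s z hz
      obtain ⟨y, hy, rfl⟩ := hroots s z hz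
      obtain ⟨w, hw, hw0, hwy⟩ := hgen y hy
      have h1 := hiffs s w hw0 y hy hwy
      have h2 : y ^ ℓ ^ s = w ^ ℓ ^ s * ((w ^ ℓ ^ s)⁻¹ * y ^ ℓ ^ s) := by rw [mul_inv_cancel_left]
      rw [h2]
      exact mul_mem (Subgroup.mem_sup_left (pow_mem hw _)) (Subgroup.mem_sup_right h1)
    intro s
    refine ⟨fun i => hpows s _ (g i).2, ?_⟩
    induction s with
    | zero => exact le_sup_right
    | succ s ih => exact ih.trans (sup_le le_sup_left (hstep s))

end Pool.Agent.Lib.MP_666dc0_nt.PL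
end

section

/-!
TASK L1. Functions with a prescribed behaviour under a finite group.

`Γ` is a finite group, `h : Γ → C` an injective homomorphism, `χ : Γ → ℂ` multiplicative. For `y ∈ C` there is a multiplier
`a y` with `a y (y) = 1`, `a y (y h(γ)⁻¹) = 0` for `γ ≠ 1`, and `a y * Q₀ ⊆ Q`.

Induction on `dim Q₀` (for all `Q₀ ≤ Q`). If `Q₀ ≠ 0` choose `y` and `q ∈ Q₀` with `q y ≠ 0`. Let `Q' = {q ∈ Q | ∀ γ,
q (y h(γ)⁻¹) = 0}` and `Q₀' = Q₀ ⊓ Q'`: `dim Q₀ ≤ dim Q₀' + card Γ` (evaluation at the points `y h(γ)⁻¹`), `dim Q₀' < dim Q₀`,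
all hypotheses hold for `Q₀'`, `Q'`. The function `q₁ x = ∑ γ, χ γ * (a y * q) (x h(γ)⁻¹)` is in `Q` and satisfies
`χ γ * q₁ (x h(γ)⁻¹) = q₁ x`, and `q₁ y = q y ≠ 0`, so it is not in `Q'`: the invariants of `Q` have dimension at least one more
than those of `Q'`.
-/

namespace Pool.Agent.Lib.MP_666dc0_nt.PL

/-- The functions `q ∈ Q` with `χ(γ) q (x h(γ)⁻¹) = q x`. -/
def chinv {Γ C : Type} [Group Γ] [Group C] (h : Γ →* C) (χ : Γ →* ℂˣ) (Q : Submodule ℂ (C → ℂ)) :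
    Submodule ℂ (C → ℂ) where
  carrier := {q | q ∈ Q ∧ ∀ γ x, (χ γ : ℂ) * q (x * (h γ)⁻¹) = q x}
  add_mem' {a b} ha hb := ⟨Q.add_mem ha.1 hb.1, fun γ x => by
    rw [Pi.add_apply, Pi.add_apply, mul_add, ha.2, hb.2]⟩
  zero_mem' := ⟨Q.zero_mem, fun γ x => by rw [Pi.zero_apply, Pi.zero_apply, mul_zero]⟩
  smul_mem' c a ha := ⟨Q.smul_mem c ha.1, fun γ x => by
    rw [Pi.smul_apply, Pi.smul_apply, smul_eq_mul, smul_eq_mul, mul_left_comm, ha.2]⟩

/-- The functions in `Q` vanishing at the points `y * (h γ)⁻¹`. -/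
def vanish {Γ C : Type} [Group Γ] [Group C] (h : Γ →* C) (y : C) (Q : Submodule ℂ (C → ℂ)) :
    Submodule ℂ (C → ℂ) where
  carrier := {q | q ∈ Q ∧ ∀ γ, q (y * (h γ)⁻¹) = 0}
  add_mem' {a b} ha hb := ⟨Q.add_mem ha.1 hb.1, fun γ => by
    rw [Pi.add_apply, ha.2, hb.2, add_zero]⟩
  zero_mem' := ⟨Q.zero_mem, fun γ => rfl⟩
  smul_mem' c a ha := ⟨Q.smul_mem c ha.1, fun γ => by
    rw [Pi.smul_apply, ha.2, smul_zero]⟩

theorem le_card_mul_chinv {Γ C : Type} [Group Γ] [Finite Γ] [Group C] (h : Γ →* C) (hh : Function.Injective h)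
    (χ : Γ →* ℂˣ) (a : C → C → ℂ) (ha1 : ∀ y, a y y = 1) (ha0 : ∀ y γ, γ ≠ 1 → a y (y * (h γ)⁻¹) = 0)
    (Q Q₀ : Submodule ℂ (C → ℂ)) [FiniteDimensional ℂ Q] (hle : Q₀ ≤ Q)
    (hQ : ∀ q ∈ Q, ∀ γ, (fun x => q (x * h γ)) ∈ Q) (hQ₀ : ∀ q ∈ Q₀, ∀ γ, (fun x => q (x * h γ)) ∈ Q₀)
    (hmul : ∀ y, ∀ q ∈ Q₀, (fun x => a y x * q x) ∈ Q) :
    Module.finrank ℂ Q₀ ≤ Nat.card Γ * Module.finrank ℂ (chinv h χ Q) := by
  classical
  have := Fintype.ofFinite Γ
  have _ := hh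
  suffices H : ∀ (N : ℕ) (Q Q₀ : Submodule ℂ (C → ℂ)), FiniteDimensional ℂ Q → Q₀ ≤ Q →
      (∀ q ∈ Q, ∀ γ, (fun x => q (x * h γ)) ∈ Q) → (∀ q ∈ Q₀, ∀ γ, (fun x => q (x * h γ)) ∈ Q₀) →
      (∀ y, ∀ q ∈ Q₀, (fun x => a y x * q x) ∈ Q) → Module.finrank ℂ Q₀ ≤ N →
      Module.finrank ℂ Q₀ ≤ Nat.card Γ * Module.finrank ℂ (chinv h χ Q) from
    H _ Q Q₀ inferInstance hle hQ hQ₀ hmul le_rfl
  intro N
  induction N with
  | zero =>
    intro Q Q₀ _ _ _ _ _ h0
    omega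
  | succ N ih =>
    intro Q Q₀ hfd hle hQ hQ₀ hmul hN
    by_cases hbot : Q₀ = ⊥
    · rw [hbot, finrank_bot]
      exact Nat.zero_le _
    obtain ⟨q, hq, hq0⟩ := (Submodule.ne_bot_iff _).1 hbot
    obtain ⟨y, hy⟩ := Function.ne_iff.1 hq0
    have hy' : q y ≠ 0 := hy
    have hfd0 : FiniteDimensional ℂ Q₀ := Submodule.finiteDimensional_of_le hle
    have hQ'le : vanish h y Q ≤ Q := fun _ hp => hp.1
    have hfd' : FiniteDimensional ℂ (vanish h y Q) := Submodule.finiteDimensional_of_le hQ'le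
    have htr : ∀ p : C → ℂ, (∀ γ, p (y * (h γ)⁻¹) = 0) → ∀ δ γ, p (y * (h γ)⁻¹ * h δ) = 0 := by
      intro p hp δ γ
      have : y * (h γ)⁻¹ * h δ = y * (h (δ⁻¹ * γ))⁻¹ := by
        rw [map_mul, map_inv, mul_inv_rev, inv_inv, mul_assoc]
      rw [this]
      exact hp _
    have hlt : Q₀ ⊓ vanish h y Q < Q₀ := by
      refine lt_of_le_of_ne inf_le_left fun he => hy' ?_
      have h1 : q ∈ Q₀ ⊓ vanish h y Q := by rw [he]; exact hq
      have h2 := h1.2.2 1
      rwa [map_one, inv_one, mul_one] at h2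
    have h1 : Module.finrank ℂ (Q₀ ⊓ vanish h y Q : Submodule ℂ (C → ℂ)) < Module.finrank ℂ Q₀ :=
      Submodule.finrank_lt_finrank_of_lt hlt
    have h2 := ih (vanish h y Q) (Q₀ ⊓ vanish h y Q) hfd' inf_le_right
      (fun p hp γ => ⟨hQ p hp.1 γ, fun γ' => htr p hp.2 γ γ'⟩)
      (fun p hp γ => ⟨hQ₀ p hp.1 γ, hQ p hp.2.1 γ, fun γ' => htr p hp.2.2 γ γ'⟩)
      (fun z p hp => ⟨hmul z p hp.1, fun γ => by
        change a z _ * p _ = 0
        rw [hp.2.2, mul_zero]⟩) (by omega)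
    have h3 : Module.finrank ℂ Q₀ ≤
        Module.finrank ℂ (Q₀ ⊓ vanish h y Q : Submodule ℂ (C → ℂ)) + Nat.card Γ := by
      let E : Q₀ →ₗ[ℂ] (Γ → ℂ) :=
        { toFun := fun p γ => p.1 (y * (h γ)⁻¹)
          map_add' := fun _ _ => rfl
          map_smul' := fun _ _ => rfl }
      have h4 := LinearMap.finrank_range_add_finrank_ker E
      have h5 : Module.finrank ℂ (LinearMap.range E) ≤ Nat.card Γ := by
        refine (Submodule.finrank_le _).trans ?_
        rw [Module.finrank_fintype_fun_eq_card, Nat.card_eq_fintype_card]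
      have h6 : Module.finrank ℂ (LinearMap.ker E) ≤
          Module.finrank ℂ (Q₀ ⊓ vanish h y Q : Submodule ℂ (C → ℂ)) := by
        have hfd2 : FiniteDimensional ℂ (Q₀ ⊓ vanish h y Q : Submodule ℂ (C → ℂ)) :=
          Submodule.finiteDimensional_of_le inf_le_left
        refine LinearMap.finrank_le_finrank_of_injective
          (f := ((Q₀.subtype.comp (LinearMap.ker E).subtype).codRestrict (Q₀ ⊓ vanish h y Q) ?_)) ?_
        · rintro ⟨p, hp⟩
          exact ⟨p.2, hle p.2, fun γ => congrFun (LinearMap.mem_ker.1 hp) γ⟩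
        · intro p p' hpp
          have h7 := congrArg Subtype.val hpp
          exact Subtype.ext (Subtype.ext h7)
      omega
    let q₁ : C → ℂ := fun x => ∑ γ, (χ γ : ℂ) * (a y (x * (h γ)⁻¹) * q (x * (h γ)⁻¹))
    have hq₁Q : q₁ ∈ Q := by
      have : q₁ = ∑ γ, (χ γ : ℂ) • fun x => a y (x * h γ⁻¹) * q (x * h γ⁻¹) := by
        funext x
        rw [Finset.sum_apply]
        refine Finset.sum_congr rfl fun γ _ => ?_
        rw [Pi.smul_apply, smul_eq_mul, map_inv]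
      rw [this]
      exact Submodule.sum_mem _ fun γ _ => Q.smul_mem _ (hQ _ (hmul y q hq) γ⁻¹)
    have hq₁i : ∀ δ x, (χ δ : ℂ) * q₁ (x * (h δ)⁻¹) = q₁ x := by
      intro δ x
      change (χ δ : ℂ) * ∑ γ, (χ γ : ℂ) * (a y (x * (h δ)⁻¹ * (h γ)⁻¹) * q (x * (h δ)⁻¹ * (h γ)⁻¹)) =
        ∑ γ, (χ γ : ℂ) * (a y (x * (h γ)⁻¹) * q (x * (h γ)⁻¹))
      rw [Finset.mul_sum]
      refine Fintype.sum_equiv (Equiv.mulRight δ) _ _ fun γ => ?_
      rw [Equiv.coe_mulRight, map_mul, map_mul, mul_inv_rev, Units.val_mul, ← mul_assoc x]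
      ring
    have hq₁y : q₁ y = q y := by
      change ∑ γ, (χ γ : ℂ) * (a y (y * (h γ)⁻¹) * q (y * (h γ)⁻¹)) = q y
      rw [Finset.sum_eq_single 1]
      · rw [map_one, map_one, inv_one, mul_one, ha1, Units.val_one, one_mul, one_mul]
      · intro γ _ hγ
        rw [ha0 y γ hγ, zero_mul, mul_zero]
      · intro h1
        exact absurd (Finset.mem_univ _) h1
    have hfc : FiniteDimensional ℂ (chinv h χ Q) :=
      Submodule.finiteDimensional_of_le (show chinv h χ Q ≤ Q from fun _ hp => hp.1)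
    have hlt2 : chinv h χ (vanish h y Q) < chinv h χ Q := by
      refine lt_of_le_of_ne (fun p hp => ⟨hp.1.1, hp.2⟩) fun he => hy' ?_
      have h8 : q₁ ∈ chinv h χ (vanish h y Q) := by
        rw [he]
        exact ⟨hq₁Q, hq₁i⟩
      have h9 := h8.1.2 1
      rwa [map_one, inv_one, mul_one, hq₁y] at h9
    have h10 := Submodule.finrank_lt_finrank_of_lt hlt2
    calc Module.finrank ℂ Q₀ ≤ Nat.card Γ * Module.finrank ℂ (chinv h χ (vanish h y Q)) + Nat.card Γ :=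
          h3.trans (Nat.add_le_add_right h2 _)
      _ = Nat.card Γ * (Module.finrank ℂ (chinv h χ (vanish h y Q)) + 1) := by ring
      _ ≤ Nat.card Γ * Module.finrank ℂ (chinv h χ Q) := Nat.mul_le_mul_left _ h10

end Pool.Agent.Lib.MP_666dc0_nt.PL
end

section

/-!
# PL, H2: the trace of an operator of finite order

`e j = M⁻¹ ∑_{i < M} (ζ ^ j)^(-i) A ^ i` is a projector onto the eigenspace of `ζ ^ j`, `A e j = ζ ^ j e j` and
`∑ j, e j = 1`.
-/

namespace Pool.Agent.Lib.MP_666dc0_nt.PL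

theorem trace_eq_sum_eigen {W : Type} [AddCommGroup W] [Module ℂ W] [FiniteDimensional ℂ W] (A : Module.End ℂ W)
    {M : ℕ} (hM : 0 < M) {ζ : ℂ} (hζ : IsPrimitiveRoot ζ M) (hA : A ^ M = 1) :
    LinearMap.trace ℂ W A = ∑ j ∈ Finset.range M, ζ ^ j * (Module.finrank ℂ (Module.End.eigenspace A (ζ ^ j)) : ℂ) := by
  classical
  have hζ0 : ζ ≠ 0 := hζ.ne_zero hM.ne'
  have hM0 : (M : ℂ) ≠ 0 := Nat.cast_ne_zero.mpr hM.ne'
  have hc : ∀ j : ℕ, ζ⁻¹ ^ j * ζ ^ j = 1 := fun j => by rw [← mul_pow, inv_mul_cancel₀ hζ0, one_pow]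
  have hcM : ∀ j : ℕ, (ζ⁻¹ ^ j) ^ M = 1 := fun j => by
    rw [← pow_mul, mul_comm, pow_mul, inv_pow, hζ.pow_eq_one, inv_one, one_pow]
  let e : ℕ → Module.End ℂ W := fun j => (M : ℂ)⁻¹ • ∑ i ∈ Finset.range M, (ζ⁻¹ ^ j) ^ i • A ^ i
  have h1 : ∀ j, A * e j = ζ ^ j • e j := by
    intro j
    have h : ∑ i ∈ Finset.range M, (ζ⁻¹ ^ j) ^ (i + 1) • A ^ (i + 1) = ∑ i ∈ Finset.range M, (ζ⁻¹ ^ j) ^ i • A ^ i := by
      have ha := Finset.sum_range_succ' (fun i => (ζ⁻¹ ^ j) ^ i • A ^ i) M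
      have hb := Finset.sum_range_succ (fun i => (ζ⁻¹ ^ j) ^ i • A ^ i) M
      simp only [hcM j, hA, pow_zero] at ha hb
      exact add_right_cancel (ha.symm.trans hb)
    change A * ((M : ℂ)⁻¹ • ∑ i ∈ Finset.range M, (ζ⁻¹ ^ j) ^ i • A ^ i) = ζ ^ j • ((M : ℂ)⁻¹ • ∑ i ∈ Finset.range M, (ζ⁻¹ ^ j) ^ i • A ^ i)
    rw [mul_smul_comm, smul_comm (ζ ^ j)]
    congr 1
    have h5 : A * ∑ i ∈ Finset.range M, (ζ⁻¹ ^ j) ^ i • A ^ i = ζ ^ j • ∑ i ∈ Finset.range M, (ζ⁻¹ ^ j) ^ (i + 1) • A ^ (i + 1) := by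
      rw [Finset.mul_sum, Finset.smul_sum]
      refine Finset.sum_congr rfl (fun i _ => ?_)
      rw [smul_smul, mul_smul_comm, ← pow_succ']
      congr 1
      rw [pow_succ (ζ⁻¹ ^ j) i, mul_comm, mul_assoc, hc j, mul_one]
    rw [h5, h]
  have h2 : ∀ j w, A w = ζ ^ j • w → e j w = w := by
    intro j w hw
    have hp : ∀ i : ℕ, (A ^ i) w = (ζ ^ j) ^ i • w := by
      intro i
      induction i with
      | zero => simp
      | succ i ih => rw [pow_succ', Module.End.mul_apply, ih, map_smul, hw, smul_smul, ← pow_succ]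
    change ((M : ℂ)⁻¹ • ∑ i ∈ Finset.range M, (ζ⁻¹ ^ j) ^ i • A ^ i) w = w
    rw [LinearMap.smul_apply, LinearMap.sum_apply]
    have hs : ∑ i ∈ Finset.range M, ((ζ⁻¹ ^ j) ^ i • A ^ i) w = (M : ℂ) • w := by
      rw [Finset.sum_congr rfl (g := fun _ => w) (fun i _ => ?_)]
      · rw [Finset.sum_const, Finset.card_range, Nat.cast_smul_eq_nsmul]
      · rw [LinearMap.smul_apply, hp i, smul_smul, ← mul_pow, hc j, one_pow, one_smul]
    rw [hs, smul_smul, inv_mul_cancel₀ hM0, one_smul]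
  have hproj : ∀ j, LinearMap.IsProj (Module.End.eigenspace A (ζ ^ j)) (e j) := by
    intro j
    refine ⟨fun w => ?_, fun w hw => h2 j w (Module.End.mem_eigenspace_iff.mp hw)⟩
    rw [Module.End.mem_eigenspace_iff]
    have h := congrArg (fun f : Module.End ℂ W => f w) (h1 j)
    simpa using h
  have h3 : ∑ j ∈ Finset.range M, e j = 1 := by
    have hs : ∑ j ∈ Finset.range M, ∑ i ∈ Finset.range M, (ζ⁻¹ ^ j) ^ i • A ^ i = (M : ℂ) • (1 : Module.End ℂ W) := by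
      rw [Finset.sum_comm]
      have hi : ∀ i ∈ Finset.range M, ∑ j ∈ Finset.range M, (ζ⁻¹ ^ j) ^ i • A ^ i = if i = 0 then (M : ℂ) • (1 : Module.End ℂ W) else 0 := by
        intro i hi
        rw [← Finset.sum_smul]
        by_cases h0 : i = 0
        · subst h0
          simp
        · rw [if_neg h0]
          have hx : ζ⁻¹ ^ i ≠ 1 := by
            rw [inv_pow, Ne, inv_eq_one]
            exact fun h => h0 (Nat.eq_zero_of_dvd_of_lt (hζ.dvd_of_pow_eq_one i h) (Finset.mem_range.mp hi))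
          have hg : ∑ j ∈ Finset.range M, (ζ⁻¹ ^ j) ^ i = ∑ j ∈ Finset.range M, (ζ⁻¹ ^ i) ^ j :=
            Finset.sum_congr rfl (fun j _ => by rw [← pow_mul, ← pow_mul, mul_comm])
          rw [hg, geom_sum_eq hx, hcM i, sub_self, zero_div, zero_smul]
      rw [Finset.sum_congr rfl hi, Finset.sum_ite_eq' (Finset.range M) 0, if_pos (Finset.mem_range.mpr hM)]
    change ∑ j ∈ Finset.range M, ((M : ℂ)⁻¹ • ∑ i ∈ Finset.range M, (ζ⁻¹ ^ j) ^ i • A ^ i) = 1
    rw [← Finset.smul_sum, hs, smul_smul, inv_mul_cancel₀ hM0, one_smul]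
  have h4 : A = ∑ j ∈ Finset.range M, ζ ^ j • e j := by
    calc A = A * ∑ j ∈ Finset.range M, e j := by rw [h3, mul_one]
      _ = ∑ j ∈ Finset.range M, A * e j := Finset.mul_sum _ _ _
      _ = _ := Finset.sum_congr rfl (fun j _ => h1 j)
  calc LinearMap.trace ℂ W A = LinearMap.trace ℂ W (∑ j ∈ Finset.range M, ζ ^ j • e j) := by rw [← h4]
    _ = ∑ j ∈ Finset.range M, ζ ^ j * LinearMap.trace ℂ W (e j) := by
      rw [map_sum]
      exact Finset.sum_congr rfl (fun j _ => by rw [map_smul, smul_eq_mul])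
    _ = _ := Finset.sum_congr rfl (fun j _ => by rw [(hproj j).trace])

end Pool.Agent.Lib.MP_666dc0_nt.PL
end
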