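import Pool.Agent.Lib.MP_666dc0_nt.PL.SD
import Pool.Agent.Lib.MP_666dc0_nt.PL.RDefs
import Pool.Agent.Lib.MP_666dc0_nt.Mg.G014
import Pool.Agent.Lib.MP_666dc0_nt.ZO.T1
import Pool.Agent.Lib.MP_666dc0_nt.Mg.G077
import Pool.Agent.Lib.MP_666dc0_nt.Mg.G085
import Pool.Agent.Lib.MP_666dc0_nt.Mg.G086
import Pool.Agent.Lib.MP_666dc0_nt.Mg.G005

section

/-!
# Plancherel equidistribution of families of systems of eigenvalues: definitions (complete, NOT a task)
-/

open NumberField IsDedekindDomain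
open scoped NumberField

namespace Pool.Agent.Lib.MP_666dc0_nt.PL

open WL ZO FM

variable {F : Type} [Field F] [NumberField F] {n : ℕ} {D : Datum F n}

/-- `T = (J, χ)` is a type at `ℓ`: the group `J` and the kernel of the character `χ` are levels at `ℓ`. -/
structure IsTypeAt (ℓ : ℕ) (U : Subgroup D.Ad) (T : AdType D) : Prop where
  level : IsLevel ℓ U T.J
  ker : IsLevel ℓ U T.ker

/-- The space spanned by the eigenforms of type `T` with weights in `Q` whose system of eigenvalues has the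
property `p`. -/
def tspan {U : Subgroup D.Ad} (S : Finset (HeightOneSpectrum (𝓞 F))) (Q : Submodule ℂ (D.Cpx → ℂ)) (T : AdType D)
    (p : (∀ v, Hecke U v → ℂ) → Prop) : Submodule ℂ (D.Ad → D.Cpx → ℂ) :=
  Submodule.span ℂ {f | IsTypeForm D Q U T f ∧ ∃ lam, IsEigen S f lam ∧ p lam}

/-- The dimension of this space. -/
noncomputable def dimT {U : Subgroup D.Ad} (S : Finset (HeightOneSpectrum (𝓞 F))) (Q : Submodule ℂ (D.Cpx → ℂ))
    (T : AdType D) (p : (∀ v, Hecke U v → ℂ) → Prop) : ℕ :=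
  Module.finrank ℂ (tspan S Q T p)

/-- The elements of `Q` whose products with all polynomial functions of degree `≤ m` are in `Q`. -/
def core (Q : Submodule ℂ (D.Cpx → ℂ)) (m : ℕ) : Submodule ℂ (D.Cpx → ℂ) where
  carrier := {q | q ∈ Q ∧ ∀ h ∈ polyLE D m, h * q ∈ Q}
  add_mem' {a b} ha hb := ⟨Q.add_mem ha.1 hb.1, fun h hh => by
    rw [mul_add]
    exact Q.add_mem (ha.2 h hh) (hb.2 h hh)⟩
  zero_mem' := ⟨Q.zero_mem, fun h _ => by
    rw [mul_zero]
    exact Q.zero_mem⟩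
  smul_mem' c a ha := ⟨Q.smul_mem c ha.1, fun h hh => by
    rw [mul_smul_comm]
    exact Q.smul_mem c (ha.2 h hh)⟩

/-- The boundary of the space of weights `Q`: the codimension of `core Q m` in `Q`. -/
noncomputable def bdry (Q : Submodule ℂ (D.Cpx → ℂ)) (m : ℕ) : ℝ :=
  Module.finrank ℂ Q - Module.finrank ℂ (core Q m)

/-- The generalised index `[K : J]` of two commensurable subgroups. -/
noncomputable def gidx (K J : Subgroup D.Ad) : ℝ := ((J ⊓ K).relIndex K : ℝ) / (J ⊓ K).relIndex J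

/-- For all types `T = (J, χ)` at `ℓ` the eigenforms of type `T` with weights in `Q` whose system has the property `p`
span a space of dimension `a [K₀ : J] dim Q`, up to an error `≤ ε dim Q + C bdry Q m`, for every `ε > 0` and some
`m` and `C`. -/
def IsPlancherel (ℓ : ℕ) {U : Subgroup D.Ad} (S : Finset (HeightOneSpectrum (𝓞 F))) (K₀ : Subgroup D.Ad)
    (p : (∀ v, Hecke U v → ℂ) → Prop) (a : ℕ) : Prop :=
  ∀ T, IsTypeAt ℓ U T → ∀ ε : ℝ, 0 < ε → ∃ (m : ℕ) (C : ℝ), ∀ Q, IsWeight D Q →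
    |(dimT S Q T p : ℝ) - a * gidx K₀ T.J * Module.finrank ℂ Q| ≤ ε * Module.finrank ℂ Q + C * bdry Q m

/-- The space `R` of polynomial functions contains weights with relatively small boundaries. -/
structure IsFull (D : Datum F n) (R : Submodule ℂ (D.Cpx → ℂ)) : Prop where
  le : R ≤ polySub D
  exists_weight : ∀ (m : ℕ) (ε : ℝ), 0 < ε → ∃ Q, Q ≤ R ∧ IsWeight D Q ∧ Q ≠ ⊥ ∧ bdry Q m ≤ ε * Module.finrank ℂ Q

/-- The systems `lam` such that `∑ c i * (multiplicity of lam in the forms of type T i and weights in Q)` is positive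
for a space of weights `Q ≤ R`. -/
def PosSys {U : Subgroup D.Ad} (S : Finset (HeightOneSpectrum (𝓞 F))) (R : Submodule ℂ (D.Cpx → ℂ)) {k : ℕ}
    (T : Fin k → AdType D) (c : Fin k → ℝ) : Set (∀ v, Hecke U v → ℂ) :=
  {lam | ∃ Q, Q ≤ R ∧ IsWeight D Q ∧ 0 < ∑ i, c i * dimT S Q (T i) (· = lam)}

/-- The systems of the non-zero new eigenforms with weights in `R`. -/
def NewSys (U : Subgroup D.Ad) (S : Finset (HeightOneSpectrum (𝓞 F))) (R : Submodule ℂ (D.Cpx → ℂ))
    (I : Subgroup D.Ad) {k : ℕ} (P : Fin k → Subgroup D.Ad) : Set (∀ v, Hecke U v → ℂ) :=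
  {lam | ∃ f, f ≠ 0 ∧ IsNewForm D R U I P f ∧ IsEigen S f lam}

/-- The number `N Q` is at least `g dim Q`, up to an error `≤ ε dim Q + C bdry Q m`, for every `ε > 0` and some `m`
and `C`. -/
def IsAtLeast (D : Datum F n) (g : ℝ) (N : Submodule ℂ (D.Cpx → ℂ) → ℕ) : Prop :=
  ∀ ε : ℝ, 0 < ε → ∃ (m : ℕ) (C : ℝ), ∀ Q, IsWeight D Q →
    g * Module.finrank ℂ Q ≤ N Q + ε * Module.finrank ℂ Q + C * bdry Q m

/-- The systems in `X` are dense: closed properties of the systems in `X` hold for all systems. -/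
def IsDenseSys (ℓ : ℕ) [Fact ℓ.Prime] {U : Subgroup D.Ad} (S : Finset (HeightOneSpectrum (𝓞 F)))
    (X : Set (∀ v, Hecke U v → ℂ)) : Prop :=
  ∀ ι (p : (∀ v, Hecke U v → ℂ) → Prop), IsClosedProp ℓ S ι p → (∀ lam ∈ X, p lam) → ∀ lam ∈ AllSys ℓ S U, p lam

end Pool.Agent.Lib.MP_666dc0_nt.PL
end

section

/-!
# PL, W1: the choice of a small normal subgroup of `P`

`relIndex_ne_zero_of_level`: `P` is compact, `U ⊔ L` is open, so finitely many cosets `g (U ⊔ L)` cover `P`.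
`level_of_le`: a group between two levels is a level. `exists_H`: `H` is the intersection of the conjugates
`p (K t₀) p⁻¹`, `p ∈ P`.
-/

open NumberField IsDedekindDomain
open scoped NumberField

namespace Pool.Agent.Lib.MP_666dc0_nt.PL

open WL ZO

variable {F : Type} [Field F] [NumberField F] {n : ℕ} {D : Datum F n} {ℓ : ℕ} [Fact ℓ.Prime]
  {U : Subgroup D.Ad} {K : ℕ → Subgroup D.Ad} {d : ℕ}

omit [Fact ℓ.Prime] in
/-- An element of `U ⊔ L` with trivial components outside `ℓ` is in `L`. -/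
theorem W1_mem_of_mem_sup (hU : IsTame ℓ U) {L : Subgroup D.Ad} (hL : IsLevel ℓ U L) {g : D.Ad} (hg : g ∈ U ⊔ L)
    (hs : ∀ v : HeightOneSpectrum (𝓞 F), (ℓ : 𝓞 F) ∉ v.asIdeal → TrivialAt v g) : g ∈ L := by
  obtain ⟨u, hu, k, hk, hguk⟩ := (mem_sup_iff hU hL.supp).1 hg
  have hu1 : u = 1 := by
    refine eq_one_of_trivialAt fun v => ?_
    by_cases hv : (ℓ : 𝓞 F) ∈ v.asIdeal
    · exact hU u hu v hv
    · have h3 : u = g * k⁻¹ := by rw [hguk, mul_inv_cancel_right]
      rw [h3]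
      exact (hs v hv).mul (hL.supp k hk v hv).inv
  rw [hguk, hu1, one_mul]
  exact hk

theorem relIndex_ne_zero_of_level (hU : IsTame ℓ U) {L P : Subgroup D.Ad} (hL : IsLevel ℓ U L)
    (hP : IsLevel ℓ U P) : L.relIndex P ≠ 0 := by
  have hPc : IsCompact (P : Set D.Ad) := isCompact_of_isLevel hU hP
  obtain ⟨t, ht, hcov⟩ := hPc.elim_nhds_subcover (fun g => (fun x => g⁻¹ * x) ⁻¹' ((U ⊔ L : Subgroup D.Ad) : Set D.Ad))
    (fun g _ => by
      refine (hL.isOpen.preimage (continuous_const.mul continuous_id)).mem_nhds ?_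
      change g⁻¹ * g ∈ (U ⊔ L : Subgroup D.Ad)
      rw [inv_mul_cancel]
      exact (U ⊔ L).one_mem)
  let f : t → P ⧸ L.subgroupOf P := fun x => ((⟨x.1, ht x.1 x.2⟩ : P) : P ⧸ L.subgroupOf P)
  have hf : Function.Surjective f := by
    intro y
    obtain ⟨p, rfl⟩ := QuotientGroup.mk_surjective y
    obtain ⟨g, hg, hpg⟩ := Set.mem_iUnion₂.1 (hcov p.2)
    refine ⟨⟨g, hg⟩, ?_⟩
    have h1 : g⁻¹ * (p : D.Ad) ∈ U ⊔ L := hpg
    have h2 : g⁻¹ * (p : D.Ad) ∈ L := W1_mem_of_mem_sup hU hL h1 fun v hv =>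
      (hP.supp g (ht g hg) v hv).inv.mul (hP.supp p p.2 v hv)
    rw [QuotientGroup.eq, Subgroup.mem_subgroupOf]
    exact h2
  have hfin : Finite (P ⧸ L.subgroupOf P) := Finite.of_surjective f hf
  exact Subgroup.index_ne_zero_of_finite

omit [Fact ℓ.Prime] in
theorem level_of_le {L H P : Subgroup D.Ad} (hL : IsLevel ℓ U L) (hP : IsLevel ℓ U P) (h1 : L ≤ H) (h2 : H ≤ P) :
    IsLevel ℓ U H where
  supp g hg v hv := hP.supp g (h2 hg) v hv
  isOpen := Subgroup.isOpen_mono (sup_le_sup_left h1 U) hL.isOpen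
  isCompact := by
    have h3 : IsOpen ((U ⊔ H : Subgroup D.Ad) : Set D.Ad) := Subgroup.isOpen_mono (sup_le_sup_left h1 U) hL.isOpen
    exact hP.isCompact.of_isClosed_subset (Subgroup.isClosed_of_isOpen _ h3) (sup_le_sup_left h2 U)

/-- The intersection of the conjugates `p L p⁻¹`, `p ∈ P`. -/
def W1_core (P L : Subgroup D.Ad) : Subgroup D.Ad where
  carrier := {g | ∀ p ∈ P, p⁻¹ * g * p ∈ L}
  mul_mem' {a b} ha hb p hp := by
    have h : p⁻¹ * (a * b) * p = (p⁻¹ * a * p) * (p⁻¹ * b * p) := by group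
    rw [h]
    exact L.mul_mem (ha p hp) (hb p hp)
  one_mem' p _ := by
    rw [mul_one, inv_mul_cancel]
    exact L.one_mem
  inv_mem' {a} ha p hp := by
    have h : p⁻¹ * a⁻¹ * p = (p⁻¹ * a * p)⁻¹ := by group
    rw [h]
    exact L.inv_mem (ha p hp)

theorem W1_core_le (P L : Subgroup D.Ad) : W1_core P L ≤ L := by
  intro g hg
  have h := hg 1 P.one_mem
  simpa using h

theorem W1_core_normal (P L : Subgroup D.Ad) : ∀ p ∈ P, ∀ h ∈ W1_core P L, p * h * p⁻¹ ∈ W1_core P L := by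
  intro q hq h hh p hp
  have h1 := hh (q⁻¹ * p) (P.mul_mem (P.inv_mem hq) hp)
  have h2 : p⁻¹ * (q * h * q⁻¹) * p = (q⁻¹ * p)⁻¹ * h * (q⁻¹ * p) := by group
  rw [h2]
  exact h1

omit [Fact ℓ.Prime] in
/-- A conjugate of a level contains `K t` for large `t`. -/
theorem W1_exists_conj (hU : IsTame ℓ U) (hK : IsUniform ℓ d U K) {L P : Subgroup D.Ad} (hL : IsLevel ℓ U L)
    (hP : IsLevel ℓ U P) {p : D.Ad} (hp : p ∈ P) : ∃ t, ∀ g ∈ K t, p⁻¹ * g * p ∈ L := by
  let W : Subgroup D.Ad := (U ⊔ L).comap (MulAut.conj p⁻¹).toMonoidHom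
  have hW : IsOpen (W : Set D.Ad) := by
    have h1 : Continuous fun g : D.Ad => p⁻¹ * g * p := (continuous_const.mul continuous_id).mul continuous_const
    have h2 : (W : Set D.Ad) = (fun g : D.Ad => p⁻¹ * g * p) ⁻¹' ((U ⊔ L : Subgroup D.Ad) : Set D.Ad) := by
      ext g
      change (MulAut.conj p⁻¹) g ∈ (U ⊔ L : Subgroup D.Ad) ↔ p⁻¹ * g * p ∈ (U ⊔ L : Subgroup D.Ad)
      rw [MulAut.conj_apply, inv_inv]
    rw [h2]
    exact hL.isOpen.preimage h1
  obtain ⟨t, ht⟩ := hK.small W hW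
  refine ⟨t, fun g hg => ?_⟩
  have h3 : p⁻¹ * g * p ∈ U ⊔ L := by
    have h4 : (MulAut.conj p⁻¹) g ∈ (U ⊔ L : Subgroup D.Ad) := ht hg
    rwa [MulAut.conj_apply, inv_inv] at h4
  exact W1_mem_of_mem_sup hU hL h3 fun v hv =>
    ((hP.supp p hp v hv).inv.mul ((hK.level t).supp g hg v hv)).mul (hP.supp p hp v hv)

theorem W1_exists_le_core (hU : IsTame ℓ U) (hK : IsUniform ℓ d U K) {L P : Subgroup D.Ad} (hL : IsLevel ℓ U L)
    (hP : IsLevel ℓ U P) (hLP : L ≤ P) : ∃ t, K t ≤ W1_core P L := by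
  have hne := relIndex_ne_zero_of_level hU hL hP
  have hfi : (L.subgroupOf P).FiniteIndex := ⟨hne⟩
  have hfin : Finite (P ⧸ L.subgroupOf P) := inferInstance
  have hfty : Fintype (P ⧸ L.subgroupOf P) := Fintype.ofFinite _
  choose τ hτ using fun y : P ⧸ L.subgroupOf P => W1_exists_conj hU hK hL hP (Quotient.out y).2
  refine ⟨Finset.univ.sup τ, fun g hg p hp => ?_⟩
  have h1 : g ∈ K (τ ((⟨p, hp⟩ : P) : P ⧸ L.subgroupOf P)) :=
    hK.K_le (Finset.le_sup (f := τ) (Finset.mem_univ _)) hg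
  have h2 := hτ _ g h1
  have h3 : (Quotient.out ((⟨p, hp⟩ : P) : P ⧸ L.subgroupOf P))⁻¹ * (⟨p, hp⟩ : P) ∈ L.subgroupOf P := by
    rw [← QuotientGroup.eq, QuotientGroup.out_eq']
  rw [Subgroup.mem_subgroupOf] at h3
  set q : P := Quotient.out ((⟨p, hp⟩ : P) : P ⧸ L.subgroupOf P)
  have h4 : ((q : D.Ad)⁻¹ * p) ∈ L := h3
  have h5 : p⁻¹ * g * p = ((q : D.Ad)⁻¹ * p)⁻¹ * ((q : D.Ad)⁻¹ * g * q) * ((q : D.Ad)⁻¹ * p) := by group
  rw [h5]
  exact L.mul_mem (L.mul_mem (L.inv_mem h4) h2) h4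

/-- Multiplicativity of the generalised index. -/
theorem gidx_mul (hU : IsTame ℓ U) (hK : IsUniform ℓ d U K) {H P : Subgroup D.Ad} (hH : IsLevel ℓ U H)
    (hP : IsLevel ℓ U P) (h1 : H ≤ P) (h2 : H ≤ K 0) :
    (H.relIndex (K 0) : ℝ) = gidx (K 0) P * H.relIndex P := by
  have h3 := Subgroup.relIndex_mul_relIndex H (P ⊓ K 0) (K 0) (le_inf h1 h2) inf_le_right
  have h4 := Subgroup.relIndex_mul_relIndex H (P ⊓ K 0) P (le_inf h1 h2) inf_le_left
  have h5 : H.relIndex P ≠ 0 := relIndex_ne_zero_of_level hU hH hP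
  have h6 : (P ⊓ K 0).relIndex P ≠ 0 := by
    intro h
    rw [h, mul_zero] at h4
    exact h5 h4.symm
  have h7 : ((P ⊓ K 0).relIndex P : ℝ) ≠ 0 := by exact_mod_cast h6
  rw [gidx, ← h3, ← h4]
  push_cast
  field_simp

theorem exists_H (hU : IsTame ℓ U) (hK : IsUniform ℓ d U K) {L P : Subgroup D.Ad} (hL : IsLevel ℓ U L)
    (hP : IsLevel ℓ U P) (hLP : L ≤ P) (s : ℕ) :
    ∃ H : Subgroup D.Ad, H ≤ L ∧ H ≤ K s ∧ H ≤ K 0 ∧ IsLevel ℓ U H ∧ (∀ p ∈ P, ∀ h ∈ H, p * h * p⁻¹ ∈ H) ∧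
      (∃ t, K t ≤ H) ∧ H.relIndex P ≠ 0 ∧ H.relIndex (K 0) ≠ 0 ∧ IsFil ℓ H (fun t => H ⊓ K t) ∧
      (H.relIndex (K 0) : ℝ) = gidx (K 0) P * H.relIndex P := by
  obtain ⟨s₁, hs₁⟩ := exists_level_le hU hK.tow hL
  obtain ⟨t₀, ht₀L, ht₀s⟩ : ∃ t₀, K t₀ ≤ L ∧ K t₀ ≤ K s :=
    ⟨max s₁ s, (hK.K_le (le_max_left _ _)).trans hs₁, hK.K_le (le_max_right _ _)⟩
  have ht₀P : K t₀ ≤ P := ht₀L.trans hLP
  obtain ⟨t, ht⟩ := W1_exists_le_core hU hK (hK.level t₀) hP ht₀P
  have hHK : W1_core P (K t₀) ≤ K t₀ := W1_core_le P (K t₀)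
  have hH0 : W1_core P (K t₀) ≤ K 0 := hHK.trans (hK.K_le (Nat.zero_le _))
  have hHP : W1_core P (K t₀) ≤ P := hHK.trans ht₀P
  have hlev : IsLevel ℓ U (W1_core P (K t₀)) := level_of_le (hK.level t) hP ht hHP
  refine ⟨W1_core P (K t₀), hHK.trans ht₀L, hHK.trans ht₀s, hH0, hlev, W1_core_normal P (K t₀), ⟨t, ht⟩,
    relIndex_ne_zero_of_level hU hlev hP, relIndex_ne_zero_of_level hU hlev (hK.level 0), ?_,
    gidx_mul hU hK hlev hP hHP hH0⟩
  exact
    { le := fun t => inf_le_left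
      anti := fun t => inf_le_inf_left _ (hK.anti t)
      normal := fun t h hh m hm => ⟨Subgroup.mul_mem _ (Subgroup.mul_mem _ hh hm.1) (Subgroup.inv_mem _ hh),
        hK.normal t h (hH0 hh) m hm.2⟩
      index := fun t => by
        have hn : ((K t).subgroupOf (K 0)).Normal := ⟨fun m hm g => by
          rw [Subgroup.mem_subgroupOf] at hm ⊢
          exact hK.normal t g g.2 m hm⟩
        have h1 : (W1_core P (K t₀) ⊓ K t).relIndex (W1_core P (K t₀)) = (K t).relIndex (W1_core P (K t₀)) :=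
          Subgroup.inf_relIndex_left _ _
        have h2 : ((K t).subgroupOf (K 0)).relIndex ((W1_core P (K t₀)).subgroupOf (K 0)) =
            (K t).relIndex (W1_core P (K t₀)) := Subgroup.relIndex_subgroupOf hH0
        have h3 : ((K t).subgroupOf (K 0)).relIndex ((W1_core P (K t₀)).subgroupOf (K 0)) ∣
            ((K t).subgroupOf (K 0)).index := Subgroup.relIndex_dvd_index_of_normal _ _
        rw [h2] at h3
        have h4 : ((K t).subgroupOf (K 0)).index = ℓ ^ (t * d) := hK.index t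
        rw [h4] at h3
        obtain ⟨e, -, he⟩ := (Nat.dvd_prime_pow Fact.out).1 h3
        exact ⟨e, h1.trans he⟩ }

end Pool.Agent.Lib.MP_666dc0_nt.PL
end

section

/-!
# PL, E5: the congruence subgroups are levels

* `exists_Kc_le`: the topology of `G(𝔸_f)` is induced by the entries of `g` and `g⁻¹`, and every neighbourhood of `0` in the
  matrices contains some `LM F n ℓ m`.
* `isLevel_Kc`: `U ⊔ Kc D ℓ m` contains the elements `g = u k` of `U ⊔ K₁` such that `e (mat g - 1)`, `e (mat g⁻¹ - 1)` are in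
  `ℓ ^ m Ohat`, where `e` is `1` at the places above `ℓ` and `0` elsewhere.
-/

open NumberField IsDedekindDomain
open scoped NumberField

namespace Pool.Agent.Lib.MP_666dc0_nt.PL

open WL ZO

variable {F : Type} [Field F] [NumberField F] {n : ℕ} {D : Datum F n} {ℓ : ℕ} [Fact ℓ.Prime] {U : Subgroup D.Ad}

theorem exists_Kc_le (W : Subgroup D.Ad) (hW : IsOpen (W : Set D.Ad)) : ∃ m, Kc D ℓ m ≤ W := by
  have h1 : (W : Set D.Ad) ∈ nhds (1 : D.Ad) := hW.mem_nhds W.one_mem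
  rw [(isEmbedding_entries (D := D)).nhds_eq_comap, Filter.mem_comap] at h1
  obtain ⟨O, hO, hOW⟩ := h1
  obtain ⟨u, v, hu, h1u, hv, h1v, huv⟩ := mem_nhds_prod_iff'.1 hO
  have hc : Continuous (fun X : Matrix (Fin n) (Fin n) (FiniteAdeleRing (𝓞 F) F) =>
      (fun i j => (1 : Matrix (Fin n) (Fin n) (FiniteAdeleRing (𝓞 F) F)) i j + X i j :
        Fin n → Fin n → FiniteAdeleRing (𝓞 F) F)) :=
    continuous_pi fun i => continuous_pi fun j =>
      continuous_const.add ((continuous_apply j).comp (continuous_apply i))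
  have h1u' : (fun i j => (1 : Matrix (Fin n) (Fin n) (FiniteAdeleRing (𝓞 F) F)) i j) ∈ u := h1u
  have h1v' : (fun i j => (1 : Matrix (Fin n) (Fin n) (FiniteAdeleRing (𝓞 F) F)) i j) ∈ v := by
    have h2 : (fun i j => mat (1 : D.Ad)⁻¹ i j) ∈ v := h1v
    rw [inv_one] at h2
    exact h2
  obtain ⟨m, hm⟩ := exists_LM_subset (F := F) (n := n) (ℓ := ℓ) (Fact.out : ℓ.Prime)
    ((hu.inter hv).preimage hc) (by
      constructor
      · have h3 : (fun i j => (1 : Matrix (Fin n) (Fin n) (FiniteAdeleRing (𝓞 F) F)) i j +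
            (0 : Matrix (Fin n) (Fin n) (FiniteAdeleRing (𝓞 F) F)) i j) =
            (fun i j => (1 : Matrix (Fin n) (Fin n) (FiniteAdeleRing (𝓞 F) F)) i j) := by
          funext i j
          rw [Matrix.zero_apply, add_zero]
        change (fun i j => (1 : Matrix (Fin n) (Fin n) (FiniteAdeleRing (𝓞 F) F)) i j +
            (0 : Matrix (Fin n) (Fin n) (FiniteAdeleRing (𝓞 F) F)) i j) ∈ u
        rw [h3]
        exact h1u'
      · have h3 : (fun i j => (1 : Matrix (Fin n) (Fin n) (FiniteAdeleRing (𝓞 F) F)) i j +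
            (0 : Matrix (Fin n) (Fin n) (FiniteAdeleRing (𝓞 F) F)) i j) =
            (fun i j => (1 : Matrix (Fin n) (Fin n) (FiniteAdeleRing (𝓞 F) F)) i j) := by
          funext i j
          rw [Matrix.zero_apply, add_zero]
        change (fun i j => (1 : Matrix (Fin n) (Fin n) (FiniteAdeleRing (𝓞 F) F)) i j +
            (0 : Matrix (Fin n) (Fin n) (FiniteAdeleRing (𝓞 F) F)) i j) ∈ v
        rw [h3]
        exact h1v')
  refine ⟨m, fun g hg => ?_⟩
  have key : ∀ X : Matrix (Fin n) (Fin n) (FiniteAdeleRing (𝓞 F) F), X - 1 ∈ LM F n ℓ m →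
      (fun i j => X i j) ∈ u ∧ (fun i j => X i j) ∈ v := by
    intro X hX
    have h2 := hm hX
    have h3 : (fun i j => (1 : Matrix (Fin n) (Fin n) (FiniteAdeleRing (𝓞 F) F)) i j +
        (X - 1 : Matrix (Fin n) (Fin n) (FiniteAdeleRing (𝓞 F) F)) i j) = fun i j => X i j := by
      funext i j
      rw [Matrix.sub_apply, add_sub_cancel]
    have h4 : (fun i j => (1 : Matrix (Fin n) (Fin n) (FiniteAdeleRing (𝓞 F) F)) i j +
        (X - 1 : Matrix (Fin n) (Fin n) (FiniteAdeleRing (𝓞 F) F)) i j) ∈ u ∩ v := h2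
    rw [h3] at h4
    exact h4
  have h5 : g ∈ (fun g : D.Ad =>
    ((fun i j => mat g i j, fun i j => mat g⁻¹ i j) :
      (Fin n → Fin n → FiniteAdeleRing (𝓞 F) F) × (Fin n → Fin n → FiniteAdeleRing (𝓞 F) F))) ⁻¹' O :=
    huv ⟨(key _ (mem_Kc.1 hg).1).1, (key _ (mem_Kc.1 hg).2).2⟩
  exact hOW h5

/-- The finite adele `1` at the places above `ℓ`, `0` elsewhere. -/
private noncomputable def E5e (F : Type) [Field F] [NumberField F] (ℓ : ℕ) : FiniteAdeleRing (𝓞 F) F :=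
  open Classical in
  ⟨fun v => if (ℓ : 𝓞 F) ∈ v.asIdeal then 1 else 0, Filter.Eventually.of_forall fun v => by
    by_cases h : (ℓ : 𝓞 F) ∈ v.asIdeal
    · simp only [h, if_true]
      exact one_mem _
    · simp only [h, if_false]
      exact zero_mem _⟩

omit [Fact ℓ.Prime] in
private theorem E5e_pos {v : HeightOneSpectrum (𝓞 F)} (hv : (ℓ : 𝓞 F) ∈ v.asIdeal) : E5e F ℓ v = 1 := by
  classical
  exact if_pos hv

omit [Fact ℓ.Prime] in
private theorem E5e_neg {v : HeightOneSpectrum (𝓞 F)} (hv : (ℓ : 𝓞 F) ∉ v.asIdeal) : E5e F ℓ v = 0 := by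
  classical
  exact if_neg hv

private theorem E5mul (a b : FiniteAdeleRing (𝓞 F) F) (v : HeightOneSpectrum (𝓞 F)) :
    (a * b) v = a v * b v := rfl

omit [Fact ℓ.Prime] in
private theorem E5e_sq : E5e F ℓ * E5e F ℓ = E5e F ℓ := by
  refine FiniteAdeleRing.ext _ fun v => ?_
  rw [E5mul]
  by_cases hv : (ℓ : 𝓞 F) ∈ v.asIdeal
  · rw [E5e_pos hv, mul_one]
  · rw [E5e_neg hv, mul_zero]

omit [Fact ℓ.Prime] in
private theorem E5e_OL {b : FiniteAdeleRing (𝓞 F) F} (hb : b ∈ Ohat F) : E5e F ℓ * b ∈ OL F ℓ := by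
  refine ⟨fun v => ?_, fun v hv => ?_⟩
  · rw [E5mul]
    by_cases hv : (ℓ : 𝓞 F) ∈ v.asIdeal
    · rw [E5e_pos hv, one_mul]
      exact hb v
    · rw [E5e_neg hv, zero_mul]
      exact zero_mem _
  · rw [E5mul, E5e_neg hv, zero_mul]

private theorem E5isOpen (m : ℕ) : IsOpen {a : FiniteAdeleRing (𝓞 F) F | ∃ b ∈ Ohat F,
    E5e F ℓ * a = (ℓ : FiniteAdeleRing (𝓞 F) F) ^ m * b} := by
  have hu : IsUnit (ℓ : FiniteAdeleRing (𝓞 F) F) := by
    have h : IsUnit (ℓ : F) := (Nat.cast_ne_zero.2 (Fact.out : ℓ.Prime).ne_zero).isUnit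
    have h2 := h.map (algebraMap F (FiniteAdeleRing (𝓞 F) F))
    rwa [map_natCast] at h2
  obtain ⟨w, hw⟩ := hu.pow m
  have hc : Continuous (fun a : FiniteAdeleRing (𝓞 F) F =>
      ((w⁻¹ : (FiniteAdeleRing (𝓞 F) F)ˣ) : FiniteAdeleRing (𝓞 F) F) * (E5e F ℓ * a)) :=
    continuous_const.mul (continuous_const.mul continuous_id)
  have hs : {a : FiniteAdeleRing (𝓞 F) F | ∃ b ∈ Ohat F,
      E5e F ℓ * a = (ℓ : FiniteAdeleRing (𝓞 F) F) ^ m * b} = (fun a : FiniteAdeleRing (𝓞 F) F =>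
      ((w⁻¹ : (FiniteAdeleRing (𝓞 F) F)ˣ) : FiniteAdeleRing (𝓞 F) F) * (E5e F ℓ * a)) ⁻¹'
      (Ohat F : Set (FiniteAdeleRing (𝓞 F) F)) := by
    ext a
    constructor
    · rintro ⟨b, hb, h⟩
      change ((w⁻¹ : (FiniteAdeleRing (𝓞 F) F)ˣ) : FiniteAdeleRing (𝓞 F) F) * (E5e F ℓ * a) ∈ Ohat F
      rw [h, ← hw, Units.inv_mul_cancel_left]
      exact hb
    · intro h
      refine ⟨_, h, ?_⟩
      rw [← hw, Units.mul_inv_cancel_left]
  rw [hs]
  exact (isOpen_Ohat F).preimage hc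

omit [Fact ℓ.Prime] in
/-- If `g = u k` with `u` trivial above `ℓ`, `k` trivial outside `ℓ`, then `mat k - 1` is `e (mat g - 1)`. -/
private theorem E5key {u k : D.Ad} (hu : ∀ v : HeightOneSpectrum (𝓞 F), (ℓ : 𝓞 F) ∈ v.asIdeal → TrivialAt v u)
    (hk : ∀ v : HeightOneSpectrum (𝓞 F), (ℓ : 𝓞 F) ∉ v.asIdeal → TrivialAt v k) (i j : Fin n) :
    (mat k - 1) i j = E5e F ℓ * (mat (u * k) - 1) i j := by
  refine FiniteAdeleRing.ext _ fun v => ?_
  rw [E5mul]
  have hval : ∀ (g : D.Ad), ((mat g - 1) i j) v =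
      (Matrix.GeneralLinearGroup.map (evalAt F v) g.1 : Matrix (Fin n) (Fin n) (v.adicCompletion F)) i j -
        (1 : Matrix (Fin n) (Fin n) (v.adicCompletion F)) i j := by
    intro g
    have h1 : ((mat g - 1) i j) v = evalAt F v (mat g i j) -
        evalAt F v ((1 : Matrix (Fin n) (Fin n) (FiniteAdeleRing (𝓞 F) F)) i j) := by
      rw [← map_sub]
      rfl
    rw [h1]
    congr 1
    by_cases hij : i = j
    · subst hij
      rw [Matrix.one_apply_eq, Matrix.one_apply_eq, map_one]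
    · rw [Matrix.one_apply_ne hij, Matrix.one_apply_ne hij, map_zero]
  rw [hval, hval]
  by_cases hv : (ℓ : 𝓞 F) ∈ v.asIdeal
  · rw [E5e_pos hv, one_mul, Subgroup.coe_mul, map_mul, (trivialAt_iff v u).1 (hu v hv), one_mul]
  · rw [E5e_neg hv, zero_mul, (trivialAt_iff v k).1 (hk v hv), Units.val_one, sub_self]

theorem isLevel_Kc (hU : IsTame ℓ U) {K₁ : Subgroup D.Ad} (hK₁ : IsLevel ℓ U K₁) :
    ∃ c, 2 ≤ c ∧ ∀ m, c ≤ m → IsLevel ℓ U (Kc D ℓ m) ∧ Kc D ℓ m ≤ K₁ := by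
  obtain ⟨c, hc⟩ := exists_Kc_le (ℓ := ℓ) (U ⊔ K₁) hK₁.isOpen
  refine ⟨max 2 c, le_max_left 2 c, fun m hm => ?_⟩
  have hle : Kc D ℓ m ≤ K₁ := fun g hg =>
    W1_mem_of_mem_sup hU hK₁ (hc (Kc_anti ((le_max_right 2 c).trans hm) hg)) fun v hv => Kc_supp hg v hv
  have hcont := (isEmbedding_entries (D := D)).continuous
  have hc1 : ∀ i j, Continuous (fun g : D.Ad => (mat g - 1) i j) := fun i j =>
    ((continuous_apply j).comp ((continuous_apply i).comp (continuous_fst.comp hcont))).sub continuous_const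
  have hc2 : ∀ i j, Continuous (fun g : D.Ad => (mat g⁻¹ - 1) i j) := fun i j =>
    ((continuous_apply j).comp ((continuous_apply i).comp (continuous_snd.comp hcont))).sub continuous_const
  have hopen : IsOpen ((U ⊔ Kc D ℓ m : Subgroup D.Ad) : Set D.Ad) := by
    refine Subgroup.isOpen_of_mem_nhds _ (g := 1) ?_
    refine Filter.mem_of_superset (x := ((U ⊔ K₁ : Subgroup D.Ad) : Set D.Ad) ∩
      ((⋂ i : Fin n, ⋂ j : Fin n, (fun g : D.Ad => (mat g - 1) i j) ⁻¹'
        {a : FiniteAdeleRing (𝓞 F) F | ∃ b ∈ Ohat F, E5e F ℓ * a = (ℓ : FiniteAdeleRing (𝓞 F) F) ^ m * b}) ∩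
      (⋂ i : Fin n, ⋂ j : Fin n, (fun g : D.Ad => (mat g⁻¹ - 1) i j) ⁻¹'
        {a : FiniteAdeleRing (𝓞 F) F | ∃ b ∈ Ohat F, E5e F ℓ * a = (ℓ : FiniteAdeleRing (𝓞 F) F) ^ m * b})))
      (IsOpen.mem_nhds ?_ ?_) ?_
    · exact hK₁.isOpen.inter (IsOpen.inter
        (isOpen_iInter_of_finite fun i => isOpen_iInter_of_finite fun j => (E5isOpen m).preimage (hc1 i j))
        (isOpen_iInter_of_finite fun i => isOpen_iInter_of_finite fun j => (E5isOpen m).preimage (hc2 i j)))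
    · have h0 : ∀ i j : Fin n, (mat (1 : D.Ad) - 1) i j = 0 := by
        intro i j
        rw [mat_one, sub_self, Matrix.zero_apply]
      refine ⟨one_mem _, Set.mem_iInter.2 fun i => Set.mem_iInter.2 fun j => ?_,
        Set.mem_iInter.2 fun i => Set.mem_iInter.2 fun j => ?_⟩
      · refine ⟨0, zero_mem _, ?_⟩
        change E5e F ℓ * (mat (1 : D.Ad) - 1) i j = _
        rw [h0, mul_zero, mul_zero]
      · refine ⟨0, zero_mem _, ?_⟩
        change E5e F ℓ * (mat (1 : D.Ad)⁻¹ - 1) i j = _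
        rw [inv_one, h0, mul_zero, mul_zero]
    · rintro g ⟨hg, hg1, hg2⟩
      obtain ⟨u, hu, k, hk, rfl⟩ := (mem_sup_iff hU hK₁.supp).1 hg
      refine mul_mem (Subgroup.mem_sup_left hu) (Subgroup.mem_sup_right ?_)
      have hT : ∀ X Y : Matrix (Fin n) (Fin n) (FiniteAdeleRing (𝓞 F) F),
          (∀ i j, (Y - 1) i j = E5e F ℓ * (X - 1) i j) →
          (∀ i j, ∃ b ∈ Ohat F, E5e F ℓ * (X - 1) i j = (ℓ : FiniteAdeleRing (𝓞 F) F) ^ m * b) →
          Y - 1 ∈ LM F n ℓ m := by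
        intro X Y h1 h2 i j
        obtain ⟨b, hb, h3⟩ := h2 i j
        refine ⟨E5e F ℓ * b, E5e_OL hb, ?_⟩
        rw [h1]
        calc E5e F ℓ * (X - 1) i j = E5e F ℓ * E5e F ℓ * (X - 1) i j := by rw [E5e_sq]
          _ = E5e F ℓ * (E5e F ℓ * (X - 1) i j) := mul_assoc _ _ _
          _ = E5e F ℓ * ((ℓ : FiniteAdeleRing (𝓞 F) F) ^ m * b) := by rw [h3]
          _ = (ℓ : FiniteAdeleRing (𝓞 F) F) ^ m * (E5e F ℓ * b) := mul_left_comm _ _ _
      refine mem_Kc.2 ⟨hT (mat (u * k)) (mat k) (fun i j => E5key (hU u hu) (hK₁.supp k hk) i j)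
        (fun i j => Set.mem_iInter.1 (Set.mem_iInter.1 hg1 i) j),
        hT (mat (u * k)⁻¹) (mat k⁻¹) (fun i j => ?_) (fun i j => Set.mem_iInter.1 (Set.mem_iInter.1 hg2 i) j)⟩
      have hcomm : u * k = k * u := by
        refine mul_comm_of_disjoint fun v => ?_
        by_cases hv : (ℓ : 𝓞 F) ∈ v.asIdeal
        · exact Or.inl (hU u hu v hv)
        · exact Or.inr (hK₁.supp k hk v hv)
      rw [hcomm, mul_inv_rev]
      exact E5key (hU u⁻¹ (inv_mem hu)) (hK₁.supp k⁻¹ (inv_mem hk)) i j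
  refine ⟨⟨fun g hg v hv => Kc_supp hg v hv, hopen, ?_⟩, hle⟩
  exact hK₁.isCompact.of_isClosed_subset (Subgroup.isClosed_of_isOpen _ hopen)
    (SetLike.coe_subset_coe.2 (sup_le_sup_left hle U))

end Pool.Agent.Lib.MP_666dc0_nt.PL
end

section

/-!
TASK E7. Existence of uniform towers (assembly).

`K s = Kc D ℓ (c + s)` with `c` from `isLevel_Kc`. `uniform_structure` (finite index: `relIndex_ne_zero_of_level`). `comm`: `g h g⁻¹ h⁻¹ ∈ Kc (2 c) ≤ Kc (c + 2)`
is an `ℓ ^ 2`-th power of an element of `K 0` (`exists_root_Kc` twice).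
-/

open NumberField IsDedekindDomain
open scoped NumberField

namespace Pool.Agent.Lib.MP_666dc0_nt.PL

open WL ZO

variable {F : Type} [Field F] [NumberField F] {n : ℕ} {D : Datum F n} {ℓ : ℕ} [Fact ℓ.Prime] {U : Subgroup D.Ad}

theorem exists_isUniform (hU : IsTame ℓ U) {K₁ : Subgroup D.Ad} (hK₁ : IsLevel ℓ U K₁) :
    ∃ (d : ℕ) (K : ℕ → Subgroup D.Ad), IsUniform ℓ d U K ∧ K 0 ≤ K₁ := by
  have hℓ : ℓ.Prime := Fact.out
  obtain ⟨c, hc, hlev⟩ := isLevel_Kc hU hK₁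
  have hle : ∀ s, 2 ≤ c + s := fun s => hc.trans (Nat.le_add_right c s)
  obtain ⟨d, hidx, g, hg, hgen⟩ := uniform_structure (fun s => Kc D ℓ (c + s))
    (fun s => Kc_anti (by omega)) (fun s g hg k hk => Kc_conj hg hk)
    (relIndex_ne_zero_of_level hU (hlev _ (by omega)).1 (hlev _ (by omega)).1)
    (fun s g hg h hh => Kc_anti (by have := hle s; omega) (Kc_comm hg hh))
    (fun s x hx => Kc_pow hℓ (hle s) hx) (fun s x hx y hy => Kc_pow_iff hℓ (hle s) hx hy)
    (fun s g hg => exists_root_Kc hℓ (hle s) hg)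
  refine ⟨d, fun s => Kc D ℓ (c + s), ?_, (hlev _ (by omega)).2⟩
  refine ⟨fun s => (hlev _ (by omega)).1, fun s => Kc_anti (by omega), fun s g hg k hk => Kc_conj hg hk,
    fun W hW => ?_, hidx, ⟨g, hg, hgen⟩, fun s g hg h hh => ?_, fun g hg i j => Kc_entries (by omega) hg i j⟩
  · obtain ⟨m, hm⟩ := exists_Kc_le (ℓ := ℓ) W hW
    exact ⟨m, (Kc_anti (by omega)).trans hm⟩
  · have h1 : g * h * g⁻¹ * h⁻¹ ∈ Kc D ℓ (c + 1 + 1) := Kc_anti (by omega) (Kc_comm hg hh)
    obtain ⟨y, hy, hy'⟩ := exists_root_Kc hℓ (by omega) h1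
    obtain ⟨z, hz, hz'⟩ := exists_root_Kc hℓ (by omega) hy
    refine Subgroup.mem_sup_left (Subgroup.subset_closure ?_)
    by_cases h2 : ℓ = 2
    · refine ⟨z, hz, ?_⟩
      rw [if_pos h2, ← hy', ← hz', ← pow_mul, h2]
    · refine ⟨y, Kc_anti (by omega) hy, ?_⟩
      rw [if_neg h2, ← hy']

end Pool.Agent.Lib.MP_666dc0_nt.PL
end

section

/-!
# PL, HD: types of arbitrary dimension, definitions (complete, NOT a task)
-/

open NumberField IsDedekindDomain
open scoped NumberField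

namespace Pool.Agent.Lib.MP_666dc0_nt.PL

open WL ZO FM

variable {F : Type} [Field F] [NumberField F] {n : ℕ} {D : Datum F n}

/-- The space spanned by the eigenforms of type `T` with weights in `Q` whose system of eigenvalues has the
property `p`. -/
def rspan {U : Subgroup D.Ad} (S : Finset (HeightOneSpectrum (𝓞 F))) (Q : Submodule ℂ (D.Cpx → ℂ)) (T : RepType D)
    (p : (∀ v, Hecke U v → ℂ) → Prop) : Submodule ℂ (Fin T.r → D.Ad → D.Cpx → ℂ) :=
  Submodule.span ℂ {f | IsRepForm D Q U T f ∧ ∃ lam, (∀ i, IsEigen S (f i) lam) ∧ p lam}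

theorem dimR_def {U : Subgroup D.Ad} (S : Finset (HeightOneSpectrum (𝓞 F))) (Q : Submodule ℂ (D.Cpx → ℂ))
    (T : RepType D) (p : (∀ v, Hecke U v → ℂ) → Prop) : dimR S Q T p = Module.finrank ℂ (rspan S Q T p) := rfl

/-- For all types `T = (J, ρ)` at `ℓ` the eigenforms of type `T` with weights in `Q` whose system has the property `p`
span a space of dimension `a (dim ρ) [K₀ : J] dim Q`, up to an error `≤ ε dim Q + C bdry Q m`, for every `ε > 0` and some
`m` and `C`. -/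
def IsRepLaw (ℓ : ℕ) {U : Subgroup D.Ad} (S : Finset (HeightOneSpectrum (𝓞 F))) (K₀ : Subgroup D.Ad)
    (p : (∀ v, Hecke U v → ℂ) → Prop) (a : ℕ) : Prop :=
  ∀ T, IsRepTypeAt ℓ U T → ∀ ε : ℝ, 0 < ε → ∃ (m : ℕ) (C : ℝ), ∀ Q, IsWeight D Q →
    |(dimR S Q T p : ℝ) - a * T.r * gidx K₀ T.J * Module.finrank ℂ Q| ≤ ε * Module.finrank ℂ Q + C * bdry Q m

/-- The systems `lam` such that `∑ c i * (multiplicity of lam in the forms of type T i and weights in Q)` is positive
for a space of weights `Q ≤ R`. -/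
def PosSysR {U : Subgroup D.Ad} (S : Finset (HeightOneSpectrum (𝓞 F))) (R : Submodule ℂ (D.Cpx → ℂ)) {k : ℕ}
    (T : Fin k → RepType D) (c : Fin k → ℝ) : Set (∀ v, Hecke U v → ℂ) :=
  {lam | ∃ Q, Q ≤ R ∧ IsWeight D Q ∧ 0 < ∑ i, c i * dimR S Q (T i) (· = lam)}

/-- Right translation by `k`. -/
noncomputable def rt (k : D.Ad) : (D.Ad → D.Cpx → ℂ) →ₗ[ℂ] (D.Ad → D.Cpx → ℂ) where
  toFun f g := f (g * k)
  map_add' _ _ := rfl
  map_smul' _ _ := rfl

end Pool.Agent.Lib.MP_666dc0_nt.PL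
end

section

/-!
# PL, FD: Følner sequences of weights
-/

open NumberField IsDedekindDomain
open scoped NumberField

namespace Pool.Agent.Lib.MP_666dc0_nt.PL

open WL ZO FM

variable {F : Type} [Field F] [NumberField F] {n : ℕ} {D : Datum F n}

theorem finrank_core (Q : Submodule ℂ (D.Cpx → ℂ)) (m : ℕ) :
    Set.finrank ℂ {q | q ∈ Q ∧ ∀ h ∈ polyLE D m, h * q ∈ Q} = Module.finrank ℂ (core Q m) := by
  have h1 : Submodule.span ℂ {q | q ∈ Q ∧ ∀ h ∈ polyLE D m, h * q ∈ Q} = core Q m := Submodule.span_eq (core Q m)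
  unfold Set.finrank
  rw [h1]

theorem IsFolner.tendsto {Q : ℕ → Submodule ℂ (D.Cpx → ℂ)} (hQ : IsFolner D Q) (m : ℕ) :
    Filter.Tendsto (fun d => (Module.finrank ℂ (core (Q d) m) : ℝ) / Module.finrank ℂ (Q d)) Filter.atTop (nhds 1) := by
  have h1 := hQ.lim m
  simp only [finrank_core] at h1
  exact h1

theorem isFolner_iff {Q : ℕ → Submodule ℂ (D.Cpx → ℂ)} : IsFolner D Q ↔ (∀ d, IsWeight D (Q d)) ∧ ∀ m,
    Filter.Tendsto (fun d => (Module.finrank ℂ (core (Q d) m) : ℝ) / Module.finrank ℂ (Q d)) Filter.atTop (nhds 1) := by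
  constructor
  · intro h
    exact ⟨h.weight, h.tendsto⟩
  · rintro ⟨h1, h2⟩
    refine ⟨h1, fun m => ?_⟩
    simp only [finrank_core]
    exact h2 m

end Pool.Agent.Lib.MP_666dc0_nt.PL
end

section

/-!
TASK G1. Spaces of density one are full.

`R ≤ polySub D` is stable under right translations and `dim (R ⊓ polyLE D d) / dim (polyLE D d) → 1`. Let `m`, `ε` be given, `a d = finrank (polyLE D d) ≥ 1`.
(1) `Q = R ⊓ polyLE D d` is a weight (`finiteDimensional_polyLE`, `polyLE_trans`).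
(2) For `m ≤ d` let `h_1, …, h_M` (`M = a m`) be a basis of `polyLE D m`. All `q ∈ polyLE D (d - m)` with `h_i q ∈ R` for all `i` are
in `core Q m` (`polyLE D (d - m) * polyLE D m ≤ polyLE D d`: `pow_add`). The codimension of the space of these `q` in `polyLE D (d - m)` is at most
`M (a d - finrank (R ⊓ polyLE D d))` (the map `q ↦ (h_1 q, …, h_M q)` to `(polyLE D d ⧸ R ⊓ polyLE D d) ^ M`). So
`bdry Q m ≤ (a d - a (d - m)) + M (a d - finrank (R ⊓ polyLE D d))`.
(3) Growth: for every `δ > 0` there are arbitrarily large `d` with `a d - a (d - m) ≤ δ a d`: `a` is monotone and `a d ≤ (d + 1) ^ M'`.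
If `a d - a (d - m) > δ a d` for all `d ≥ d₀`, then
`a (d₀ + m j) ≥ (1 - δ)⁻¹ ^ j` grows exponentially, a contradiction.
(4) `Q ≠ ⊥` because `dim Q ≥ a d / 2 > 0` for large `d`.
-/

open NumberField IsDedekindDomain
open scoped NumberField

namespace Pool.Agent.Lib.MP_666dc0_nt.PL

open WL ZO

section Growth

variable {A : Type*} [CommRing A] [Algebra ℂ A]

private theorem g1_cast_le (k : ℕ) : (k : Submodule ℂ A) ≤ 1 := by
  induction k with
  | zero =>
    rw [Nat.cast_zero]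
    exact bot_le
  | succ k ih =>
    rw [Nat.cast_succ]
    exact sup_le ih le_rfl

private theorem g1_finrank_mul_le (W : Submodule ℂ A) [FiniteDimensional ℂ W] (y : A) :
    Module.finrank ℂ (W * Submodule.span ℂ {y} : Submodule ℂ A) ≤ Module.finrank ℂ W ∧
      FiniteDimensional ℂ (W * Submodule.span ℂ {y} : Submodule ℂ A) := by
  have h1 : W * Submodule.span ℂ {y} ≤ W.map (LinearMap.mulRight ℂ y) := by
    rw [Submodule.mul_le]
    intro p hp q hq
    obtain ⟨c, rfl⟩ := Submodule.mem_span_singleton.1 hq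
    refine ⟨c • p, W.smul_mem c hp, ?_⟩
    rw [LinearMap.mulRight_apply, mul_smul_comm, smul_mul_assoc]
  have h2 : FiniteDimensional ℂ (W.map (LinearMap.mulRight ℂ y)) := inferInstance
  have h3 : FiniteDimensional ℂ (W * Submodule.span ℂ {y} : Submodule ℂ A) :=
    Submodule.finiteDimensional_of_le h1
  exact ⟨(Submodule.finrank_mono h1).trans (Submodule.finrank_map_le _ _), h3⟩

private theorem g1_finrank_sum_le {I : Type*} (s : Finset I) (V : I → Submodule ℂ A)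
    (hV : ∀ i, FiniteDimensional ℂ (V i)) :
    Module.finrank ℂ (∑ i ∈ s, V i : Submodule ℂ A) ≤ ∑ i ∈ s, Module.finrank ℂ (V i) ∧
      FiniteDimensional ℂ (∑ i ∈ s, V i : Submodule ℂ A) := by
  classical
  induction s using Finset.induction_on with
  | empty =>
    rw [Finset.sum_empty, Finset.sum_empty]
    constructor
    · change Module.finrank ℂ (⊥ : Submodule ℂ A) ≤ 0
      rw [finrank_bot]
    · change FiniteDimensional ℂ (⊥ : Submodule ℂ A)
      infer_instance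
  | insert i s hi ih =>
    rw [Finset.sum_insert hi, Finset.sum_insert hi]
    have h1 := ih.2
    have h2 := hV i
    constructor
    · exact (Submodule.finrank_add_le_finrank_add_finrank _ _).trans (Nat.add_le_add_left ih.1 _)
    · change FiniteDimensional ℂ (V i ⊔ ∑ i ∈ s, V i : Submodule ℂ A)
      infer_instance

private theorem g1_bound (s : Finset A) :
    ∃ M : ℕ, ∀ d : ℕ, Module.finrank ℂ ((Submodule.span ℂ ({1} ∪ (s : Set A))) ^ d : Submodule ℂ A) ≤
      (d + 1) ^ M := by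
  classical
  induction s using Finset.induction_on with
  | empty =>
    refine ⟨0, fun d => ?_⟩
    rw [Finset.coe_empty, Set.union_empty, ← Submodule.one_eq_span, one_pow, pow_zero,
      Submodule.one_eq_span]
    exact (finrank_span_le_card ({1} : Set A)).trans (by simp)
  | insert x s hx ih =>
    obtain ⟨M, hM⟩ := ih
    refine ⟨M + 1, fun d => ?_⟩
    have hfin : FiniteDimensional ℂ ((Submodule.span ℂ ({1} ∪ (s : Set A))) ^ d : Submodule ℂ A) := by
      refine Module.Finite.iff_fg.2 ((Submodule.fg_span ?_).pow d)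
      exact (Set.finite_singleton _).union s.finite_toSet
    set W := Submodule.span ℂ ({1} ∪ (s : Set A)) with hW
    have h1 : (1 : Submodule ℂ A) ≤ W := by
      rw [Submodule.one_le]
      exact Submodule.subset_span (Or.inl rfl)
    have h2 : Submodule.span ℂ ({1} ∪ ((insert x s : Finset A) : Set A)) = W + Submodule.span ℂ {x} := by
      rw [Submodule.add_eq_sup, hW, ← Submodule.span_union, Finset.coe_insert]
      congr 1
      ext y
      simp only [Set.mem_union, Set.mem_singleton_iff, Set.mem_insert_iff]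
      tauto
    have h3 : (W + Submodule.span ℂ {x}) ^ d ≤ ∑ j ∈ Finset.range (d + 1), W ^ d * Submodule.span ℂ {x ^ (d - j)} := by
      rw [add_pow]
      refine Finset.sum_le_sum fun j hj => ?_
      rw [Submodule.span_pow ({x} : Set A) (d - j), Set.singleton_pow]
      have h4 : W ^ j ≤ W ^ d := pow_le_pow_right' h1 (by
        have := Finset.mem_range.1 hj
        omega)
      calc W ^ j * Submodule.span ℂ {x ^ (d - j)} * ((d.choose j : ℕ) : Submodule ℂ A)
          ≤ W ^ d * Submodule.span ℂ {x ^ (d - j)} * 1 := by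
            refine mul_le_mul' (mul_le_mul' h4 le_rfl) (g1_cast_le _)
        _ = W ^ d * Submodule.span ℂ {x ^ (d - j)} := mul_one _
    have h5 := g1_finrank_sum_le (Finset.range (d + 1)) (fun j => W ^ d * Submodule.span ℂ {x ^ (d - j)})
      (fun j => (g1_finrank_mul_le (W ^ d) (x ^ (d - j))).2)
    have h6 := h5.2
    rw [h2]
    calc Module.finrank ℂ ((W + Submodule.span ℂ {x}) ^ d : Submodule ℂ A)
        ≤ Module.finrank ℂ (∑ j ∈ Finset.range (d + 1), W ^ d * Submodule.span ℂ {x ^ (d - j)} : Submodule ℂ A) :=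
          Submodule.finrank_mono h3
      _ ≤ ∑ j ∈ Finset.range (d + 1), Module.finrank ℂ (W ^ d * Submodule.span ℂ {x ^ (d - j)} : Submodule ℂ A) := h5.1
      _ ≤ ∑ j ∈ Finset.range (d + 1), (d + 1) ^ M :=
          Finset.sum_le_sum fun j _ => (g1_finrank_mul_le (W ^ d) (x ^ (d - j))).1.trans (hM d)
      _ = (d + 1) ^ (M + 1) := by
          rw [Finset.sum_const, Finset.card_range, smul_eq_mul, pow_succ, mul_comm]

private theorem g1_growth (a : ℕ → ℕ) (ha0 : ∀ d, 1 ≤ a d) (M : ℕ)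
    (hM : ∀ d, a d ≤ (d + 1) ^ M) (m d₀ : ℕ) {δ : ℝ} (hδ : 0 < δ) :
    ∃ d, d₀ ≤ d ∧ m ≤ d ∧ (a d : ℝ) - a (d - m) ≤ δ * a d := by
  by_contra hcon
  push Not at hcon
  set d₁ := max d₀ m with hd₁
  have h0 : d₀ ≤ d₁ := le_max_left _ _
  have h0' : m ≤ d₁ := le_max_right _ _
  have hδ1 : δ < 1 := by
    by_contra h
    push Not at h
    have h1 := hcon d₁ h0 h0'
    have h2 : (0 : ℝ) ≤ a (d₁ - m) := Nat.cast_nonneg _
    have h3 : (1 : ℝ) ≤ a d₁ := by exact_mod_cast ha0 d₁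
    nlinarith
  set r : ℝ := 1 - δ with hr
  have hr0 : 0 < r := by rw [hr]; linarith
  have hr1 : r < 1 := by rw [hr]; linarith
  have h1 : ∀ j : ℕ, (a d₁ : ℝ) ≤ r ^ j * a (d₁ + m * j) := by
    intro j
    induction j with
    | zero => simp
    | succ j ih =>
      have h2 := hcon (d₁ + m * (j + 1)) (h0.trans (Nat.le_add_right _ _)) (h0'.trans (Nat.le_add_right _ _))
      have h3 : d₁ + m * (j + 1) - m = d₁ + m * j := by
        rw [Nat.mul_succ]
        omega
      rw [h3] at h2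
      have h4 : (a (d₁ + m * j) : ℝ) ≤ r * a (d₁ + m * (j + 1)) := by
        rw [hr]
        linarith
      calc (a d₁ : ℝ) ≤ r ^ j * a (d₁ + m * j) := ih
        _ ≤ r ^ j * (r * a (d₁ + m * (j + 1))) := mul_le_mul_of_nonneg_left h4 (pow_nonneg hr0.le j)
        _ = r ^ (j + 1) * a (d₁ + m * (j + 1)) := by rw [pow_succ]; ring
  have h2 : ∀ j : ℕ, 1 ≤ j → (1 : ℝ) ≤ ((d₁ + m + 1 : ℕ) : ℝ) ^ M * ((j : ℝ) ^ M * r ^ j) := by
    intro j hj
    have h3 : (1 : ℝ) ≤ a d₁ := by exact_mod_cast ha0 d₁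
    have h4 : (a (d₁ + m * j) : ℝ) ≤ ((d₁ + m + 1 : ℕ) : ℝ) ^ M * (j : ℝ) ^ M := by
      rw [← mul_pow]
      have h5 : a (d₁ + m * j) ≤ ((d₁ + m + 1) * j) ^ M := by
        refine (hM _).trans (Nat.pow_le_pow_left ?_ M)
        nlinarith
      exact_mod_cast h5
    calc (1 : ℝ) ≤ a d₁ := h3
      _ ≤ r ^ j * a (d₁ + m * j) := h1 j
      _ ≤ r ^ j * (((d₁ + m + 1 : ℕ) : ℝ) ^ M * (j : ℝ) ^ M) := mul_le_mul_of_nonneg_left h4 (pow_nonneg hr0.le j)
      _ = ((d₁ + m + 1 : ℕ) : ℝ) ^ M * ((j : ℝ) ^ M * r ^ j) := by ring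
  have h3 : Filter.Tendsto (fun j : ℕ => ((d₁ + m + 1 : ℕ) : ℝ) ^ M * ((j : ℝ) ^ M * r ^ j)) Filter.atTop (nhds 0) := by
    have h4 := (tendsto_pow_const_mul_const_pow_of_abs_lt_one M (r := r) (by rwa [abs_of_pos hr0])).const_mul
      (((d₁ + m + 1 : ℕ) : ℝ) ^ M)
    rwa [mul_zero] at h4
  have h4 := (h3.eventually (gt_mem_nhds (zero_lt_one' ℝ))).and (Filter.eventually_ge_atTop 1)
  obtain ⟨j, hj1, hj2⟩ := h4.exists
  exact absurd (h2 j hj2) (not_le.2 hj1)

/-- Rank and nullity for the multiplications with a basis of `V`. -/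
private theorem g1_codim (R W N V : Submodule ℂ A) [FiniteDimensional ℂ W] [FiniteDimensional ℂ N]
    [FiniteDimensional ℂ V] (hVN : V * N ≤ W) :
    ∃ K : Submodule ℂ A, K ≤ N ∧ (∀ q ∈ K, ∀ h ∈ V, h * q ∈ R) ∧
      Module.finrank ℂ N + Module.finrank ℂ V * Module.finrank ℂ (R ⊓ W : Submodule ℂ A) ≤
        Module.finrank ℂ K + Module.finrank ℂ V * Module.finrank ℂ W := by
  have hb := Module.finBasis ℂ V
  set M := Module.finrank ℂ V with hM
  -- the map `π : W → A ⧸ R` and its range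
  let π : W →ₗ[ℂ] A ⧸ R := R.mkQ.comp W.subtype
  have h1 : Module.finrank ℂ (LinearMap.range π) + Module.finrank ℂ (R ⊓ W : Submodule ℂ A) = Module.finrank ℂ W := by
    rw [← LinearMap.finrank_range_add_finrank_ker π]
    congr 1
    have h2 : LinearMap.ker π = Submodule.comap W.subtype (R ⊓ W) := by
      ext x
      change R.mkQ (x : A) = 0 ↔ (x : A) ∈ R ⊓ W
      rw [Submodule.mkQ_apply, Submodule.Quotient.mk_eq_zero]
      exact ⟨fun h => ⟨h, x.2⟩, fun h => h.1⟩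
    rw [h2]
    exact (Submodule.comapSubtypeEquivOfLe (inf_le_right : R ⊓ W ≤ W)).finrank_eq.symm
  let Φ : N →ₗ[ℂ] (Fin M → LinearMap.range π) := LinearMap.pi fun i =>
    { toFun := fun q => ⟨π ⟨(hb i : A) * (q : A), hVN (Submodule.mul_mem_mul (hb i).2 q.2)⟩, LinearMap.mem_range_self _ _⟩
      map_add' := fun q q' => by
        apply Subtype.ext
        change R.mkQ ((hb i : A) * ((q : A) + (q' : A))) = R.mkQ ((hb i : A) * (q : A)) + R.mkQ ((hb i : A) * (q' : A))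
        rw [mul_add, map_add]
      map_smul' := fun c q => by
        apply Subtype.ext
        change R.mkQ ((hb i : A) * (c • (q : A))) = c • R.mkQ ((hb i : A) * (q : A))
        rw [mul_smul_comm, map_smul] }
  have h3 := LinearMap.finrank_range_add_finrank_ker Φ
  have h4 : Module.finrank ℂ (LinearMap.range Φ) ≤ M * Module.finrank ℂ (LinearMap.range π) := by
    refine (Submodule.finrank_le _).trans ?_
    rw [Module.finrank_pi_fintype, Finset.sum_const, Finset.card_univ, Fintype.card_fin, smul_eq_mul]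
  refine ⟨(LinearMap.ker Φ).map N.subtype, ?_, ?_, ?_⟩
  · rintro _ ⟨q, -, rfl⟩
    exact q.2
  · rintro _ ⟨q, hq, rfl⟩ h hh
    have h5 : ∀ i, (hb i : A) * (q : A) ∈ R := by
      intro i
      have h6 := congrArg Subtype.val (congrFun (LinearMap.mem_ker.1 hq) i)
      change R.mkQ ((hb i : A) * (q : A)) = 0 at h6
      rwa [Submodule.mkQ_apply, Submodule.Quotient.mk_eq_zero] at h6
    have h7 : h = ∑ i, hb.repr ⟨h, hh⟩ i • (hb i : A) := by
      have h8 := congrArg Subtype.val (hb.sum_repr ⟨h, hh⟩)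
      rw [Submodule.coe_sum] at h8
      exact h8.symm
    change h * (q : A) ∈ R
    rw [h7, Finset.sum_mul]
    refine Submodule.sum_mem _ fun i _ => ?_
    rw [smul_mul_assoc]
    exact R.smul_mem _ (h5 i)
  · have h5 : Module.finrank ℂ ((LinearMap.ker Φ).map N.subtype) = Module.finrank ℂ (LinearMap.ker Φ) :=
      LinearEquiv.finrank_eq (Submodule.equivMapOfInjective _ N.injective_subtype _).symm
    rw [h5]
    nlinarith

end Growth

variable {F : Type} [Field F] [NumberField F] {n : ℕ}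

private theorem g1_one_mem (D : Datum F n) (d : ℕ) : (1 : D.Cpx → ℂ) ∈ polyLE D d := by
  refine polyLE_mono (Nat.zero_le d) ?_
  unfold polyLE
  rw [pow_zero]
  exact Submodule.one_le.1 le_rfl

private theorem g1_pos (D : Datum F n) (d : ℕ) : 0 < Module.finrank ℂ (polyLE D d) := by
  have h3 : FiniteDimensional ℂ (polyLE D d) := finiteDimensional_polyLE d
  have h6 : Nontrivial (polyLE D d) := ⟨⟨⟨1, g1_one_mem D d⟩, 0, fun h => by
    have h7 := congrFun (congrArg Subtype.val h) 1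
    change (1 : ℂ) = 0 at h7
    exact one_ne_zero h7⟩⟩
  exact Module.finrank_pos

private theorem g1_bound_poly (D : Datum F n) :
    ∃ M : ℕ, ∀ d : ℕ, Module.finrank ℂ (polyLE D d) ≤ (d + 1) ^ M := by
  have hfin : ({p | ∃ τ i j, p = coord D τ i j} : Set (D.Cpx → ℂ)).Finite := by
    refine (Set.finite_range
      (fun t : (F →+* ℂ) × Fin n × Fin n => coord D t.1 t.2.1 t.2.2)).subset ?_
    rintro p ⟨τ, i, j, rfl⟩
    exact ⟨(τ, i, j), rfl⟩
  obtain ⟨M, hM⟩ := g1_bound hfin.toFinset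
  rw [Set.Finite.coe_toFinset] at hM
  exact ⟨M, hM⟩

theorem isFull_of_tendsto {D : Datum F n} {R : Submodule ℂ (D.Cpx → ℂ)} (hR : R ≤ polySub D)
    (ht : ∀ q ∈ R, ∀ y : D.Cpx, (fun x => q (x * y)) ∈ R)
    (h : Filter.Tendsto (fun d : ℕ => (Module.finrank ℂ (R ⊓ polyLE D d : Submodule ℂ (D.Cpx → ℂ)) : ℝ) /
      Module.finrank ℂ (polyLE D d)) Filter.atTop (nhds 1)) : IsFull D R := by
  refine ⟨hR, fun m ε hε => ?_⟩
  obtain ⟨M, hM⟩ := g1_bound_poly D
  set a : ℕ → ℕ := fun d => Module.finrank ℂ (polyLE D d) with ha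
  have hfd : ∀ d, FiniteDimensional ℂ (polyLE D d) := fun d => finiteDimensional_polyLE d
  have hmono : Monotone a := fun d e hde => by
    have := hfd e
    exact Submodule.finrank_mono (polyLE_mono hde)
  have ham : (0 : ℝ) < a m := by exact_mod_cast g1_pos D m
  set δ' : ℝ := min (ε / (4 * a m)) (1 / 2) with hδ'
  have hδ'0 : 0 < δ' := lt_min (div_pos hε (by linarith)) (by norm_num)
  have h1 := h.eventually (lt_mem_nhds (show 1 - δ' < 1 by linarith))
  obtain ⟨d₀, hd₀⟩ := Filter.eventually_atTop.1 h1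
  obtain ⟨d, hd1, hd2, hd3⟩ := g1_growth a (fun d => g1_pos D d) M hM m d₀ (show 0 < ε / 4 by linarith)
  have hd4 := hd₀ d hd1
  have had : (0 : ℝ) < a d := by exact_mod_cast g1_pos D d
  set c : ℝ := (Module.finrank ℂ (R ⊓ polyLE D d : Submodule ℂ (D.Cpx → ℂ)) : ℝ) with hc
  have hd5 : (1 - δ') * a d < c := by
    have h2 : 1 - δ' < c / a d := hd4
    rwa [lt_div_iff₀ had] at h2
  have hδ1 : δ' ≤ 1 / 2 := min_le_right _ _
  have hδ2 : δ' * a m ≤ ε / 4 := by
    have h2 : δ' ≤ ε / (4 * a m) := min_le_left _ _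
    calc δ' * a m ≤ ε / (4 * a m) * a m := mul_le_mul_of_nonneg_right h2 ham.le
      _ = ε / 4 := by field_simp
  have hcpos : (a d : ℝ) / 2 ≤ c := by nlinarith
  have hQfd : FiniteDimensional ℂ (R ⊓ polyLE D d : Submodule ℂ (D.Cpx → ℂ)) := by
    have := hfd d
    exact Submodule.finiteDimensional_of_le (inf_le_right : R ⊓ polyLE D d ≤ polyLE D d)
  refine ⟨R ⊓ polyLE D d, inf_le_left, ⟨Module.Finite.iff_fg.1 hQfd, fun p hp => ⟨hR hp.1, fun y => ⟨ht p hp.1 y, polyLE_trans hp.2 y⟩⟩⟩, ?_, ?_⟩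
  · intro h0
    rw [h0, finrank_bot, Nat.cast_zero] at hc
    rw [hc] at hcpos
    linarith
  · have i1 := hfd d
    have i2 := hfd (d - m)
    have i3 := hfd m
    have hmul : polyLE D m * polyLE D (d - m) ≤ polyLE D d := by
      unfold polyLE
      rw [← pow_add, Nat.add_sub_cancel' hd2]
    obtain ⟨K, hK1, hK2, hK3⟩ := g1_codim R (polyLE D d) (polyLE D (d - m)) (polyLE D m) hmul
    have hK : K ≤ core (R ⊓ polyLE D d) m := by
      intro q hq
      have h1q : q ∈ R := by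
        have h2 := hK2 q hq 1 (g1_one_mem D m)
        rwa [one_mul] at h2
      exact ⟨⟨h1q, polyLE_mono (Nat.sub_le d m) (hK1 hq)⟩, fun h hh =>
        ⟨hK2 q hq h hh, hmul (Submodule.mul_mem_mul hh (hK1 hq))⟩⟩
    have hcore : core (R ⊓ polyLE D d) m ≤ R ⊓ polyLE D d := fun q hq => hq.1
    have i4 : FiniteDimensional ℂ (core (R ⊓ polyLE D d) m) := Submodule.finiteDimensional_of_le hcore
    have h5 : (Module.finrank ℂ K : ℝ) ≤ Module.finrank ℂ (core (R ⊓ polyLE D d) m) := by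
      exact_mod_cast Submodule.finrank_mono hK
    have h6 : (a (d - m) : ℝ) + a m * c ≤ Module.finrank ℂ K + a m * a d := by
      rw [hc]
      exact_mod_cast hK3
    have h7 : c ≤ a d := by
      rw [hc]
      exact_mod_cast Submodule.finrank_mono (inf_le_right : R ⊓ polyLE D d ≤ polyLE D d)
    unfold bdry
    rw [← hc]
    have h8 : (a m : ℝ) * (a d - c) ≤ ε / 4 * a d := by
      have h9 : (a d : ℝ) - c ≤ δ' * a d := by linarith
      calc (a m : ℝ) * (a d - c) ≤ a m * (δ' * a d) := mul_le_mul_of_nonneg_left h9 ham.le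
        _ = (δ' * a m) * a d := by ring
        _ ≤ ε / 4 * a d := mul_le_mul_of_nonneg_right hδ2 had.le
    nlinarith

theorem isFull_poly (D : Datum F n) : IsFull D (polySub D) := by
  refine isFull_of_tendsto le_rfl (fun q hq y => polyFun_trans hq y) ?_
  have h1 : ∀ d : ℕ, (Module.finrank ℂ (polySub D ⊓ polyLE D d : Submodule ℂ (D.Cpx → ℂ)) : ℝ) /
      Module.finrank ℂ (polyLE D d) = 1 := by
    intro d
    have h2 : (polySub D ⊓ polyLE D d : Submodule ℂ (D.Cpx → ℂ)) = polyLE D d :=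
      inf_eq_right.2 (polyLE_le_polyFun d)
    have h3 : FiniteDimensional ℂ (polyLE D d) := finiteDimensional_polyLE d
    have h4 : 0 < Module.finrank ℂ (polyLE D d) := by
      have h5 : (1 : D.Cpx → ℂ) ∈ polyLE D d := by
        refine polyLE_mono (Nat.zero_le d) ?_
        unfold polyLE
        rw [pow_zero]
        exact Submodule.one_le.1 le_rfl
      have h6 : Nontrivial (polyLE D d) := ⟨⟨⟨1, h5⟩, 0, fun h => by
        have h7 := congrFun (congrArg Subtype.val h) 1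
        change (1 : ℂ) = 0 at h7
        exact one_ne_zero h7⟩⟩
      exact Module.finrank_pos
    rw [h2, div_self (by exact_mod_cast h4.ne')]
  simp only [h1]
  exact tendsto_const_nhds

end Pool.Agent.Lib.MP_666dc0_nt.PL
end
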