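import Pool.Agent.Lib.MP_666dc0_nt.FM.E2
import Pool.Agent.Lib.MP_666dc0_nt.FM.B1c
import Pool.Agent.Lib.MP_666dc0_nt.PL.RDefs

section

/-!
Rows which kill the eigenvectors in `p`, and rows which kill those not in `p`.

As in the proof of `exists_law` (`FM/C.lean`) for `I = idl p`, keeping the rows: with `t ∈ I` of maximal stable rank `e`
and `X = m (t ^ N)`, `Z` is given by `exists_rows` (`Z p q = X (f p) q`, independent images in `D`) and `Y` by
`exists_left_kernel` (`n + e = N`).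
* `RowIndep`: a relation over `Λ` gives one over `D` for the images under `φ`; `φ` is injective.
* `Z` kills the eigenvectors in `p`: `mact i Z w q = mact i X w (f q)`, and `mact i X w = χ x (t ^ N) • w = 0` (`N > 0`;
  if `N = 0` all is trivial).
* `Y` kills the eigenvectors of `x ∉ p`: there is `u ∈ I` with `χ x u ≠ 0` (`closed_iff` of `FM/E2.lean`), `Y m(u)^N = 0`,
  so `0 = mact i (Y * m (u ^ N)) w = χ x u ^ N • mact i Y w`.
* `e = 0 → p = univ` and the density: as in `AFam.exists_density` (`FM/E2.lean`), with the same `e`.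
-/

namespace Pool.Agent.Lib.MP_666dc0_nt.PL

open FM

private theorem rowMul_pow {Λ : Type} [Ring Λ] {D : Type} [DivisionRing D] (φ : Λ →+* D) {R : Type} [Fintype R]
    [DecidableEq R] (X : Matrix R R Λ) (k : ℕ) : rowMul φ (X ^ k) = rowMul φ X ^ k := by
  induction k with
  | zero => rw [pow_zero, pow_zero, rowMul_one]
  | succ k ih => rw [pow_succ, rowMul_mul, ih, pow_succ']

private theorem rowMul_natCast {Λ : Type} [Ring Λ] {D : Type} [DivisionRing D] (φ : Λ →+* D) {R : Type} [Fintype R]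
    [DecidableEq R] (c : ℕ) : rowMul φ ((c : ℕ) : Matrix R R Λ) = (c : Module.End D (R → D)) := by
  induction c with
  | zero =>
    rw [Nat.cast_zero, Nat.cast_zero]
    refine LinearMap.ext fun v => funext fun q => ?_
    rw [rowMul_apply]
    simp only [Matrix.zero_apply, map_zero, mul_zero, Finset.sum_const_zero, LinearMap.zero_apply, Pi.zero_apply]
  | succ c ih => rw [Nat.cast_succ, Nat.cast_succ, rowMul_add, ih, rowMul_one]

private theorem range_pow {Λ : Type} [Ring Λ] {Ω : Type} [Field Ω] {ℓ : ℕ} (𝒲 : MFam Λ Ω ℓ) {R : Type} [Fintype R]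
    [DecidableEq R] {T : Type} [CommRing T] (m : T →+* Matrix R R Λ)
    (hss : ∀ i u, LinearMap.range (𝒲.mact i (m u)) ≤ LinearMap.range (𝒲.mact i (m (u ^ 2)))) (i : 𝒲.ix) (u : T)
    (k : ℕ) (hk : 0 < k) : LinearMap.range (𝒲.mact i (m u)) ≤ LinearMap.range (𝒲.mact i (m (u ^ k))) := by
  induction k with
  | zero => omega
  | succ k ih =>
    rcases Nat.eq_zero_or_pos k with rfl | hk'
    · rw [zero_add, pow_one]
    · refine (ih hk').trans ?_
      rintro _ ⟨x, rfl⟩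
      obtain ⟨k, rfl⟩ : ∃ j, k = j + 1 := ⟨k - 1, by omega⟩
      have h1 : 𝒲.mact i (m u) x ∈ LinearMap.range (𝒲.mact i (m (u ^ 2))) := hss i u ⟨x, rfl⟩
      obtain ⟨y, hy⟩ := h1
      refine ⟨y, ?_⟩
      rw [show u ^ (k + 1 + 1) = u ^ k * u ^ 2 by ring, map_mul, MFam.mact_mul, hy, ← MFam.mact_mul, ← map_mul,
        ← pow_succ]

private theorem exists_rows' {Λ : Type} [Ring Λ] {D : Type} [DivisionRing D] (φ : Λ →+* D) {R : Type} [Fintype R]
    (X : Matrix R R Λ) {e : ℕ} (he : Module.finrank D (LinearMap.range (rowMul φ X)) = e) :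
    ∃ (f : Fin e → R) (Z : Matrix (Fin e) R Λ), (∀ p q, Z p q = X (f p) q) ∧
      LinearIndependent D (fun p => (fun q => φ (Z p q) : R → D)) := by
  subst he
  obtain ⟨f, hf⟩ := exists_rows φ X
  exact ⟨f, fun p q => X (f p) q, fun _ _ => rfl, hf⟩

private theorem exists_max {T : Type} [CommRing T] (I : Ideal T) (g : T → ℕ) (N : ℕ) (hg : ∀ t, g t ≤ N) :
    ∃ t ∈ I, ∀ u ∈ I, g u ≤ g t := by
  classical
  have hb : ∃ n, ∀ u ∈ I, g u ≤ n := ⟨N, fun u _ => hg u⟩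
  obtain ⟨n, hn, hmin⟩ : ∃ n, (∀ u ∈ I, g u ≤ n) ∧ ∀ k, k < n → ¬∀ u ∈ I, g u ≤ k :=
    ⟨Nat.find hb, Nat.find_spec hb, fun k hk => Nat.find_min hb hk⟩
  rcases Nat.eq_zero_or_pos n with h0 | hpos
  · exact ⟨0, I.zero_mem, fun u hu => (hn u hu).trans (by omega)⟩
  · have h1 := hmin (n - 1) (by omega)
    push Not at h1
    obtain ⟨t, ht, hlt⟩ := h1
    exact ⟨t, ht, fun u hu => (hn u hu).trans (by omega)⟩

private theorem indep_of {Λ : Type} [Ring Λ] {D : Type} [DivisionRing D] (φ : Λ →+* D)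
    (hφ : Function.Injective φ) {R : Type} {e : ℕ} {Z : Matrix (Fin e) R Λ}
    (hZ : LinearIndependent D (fun p => (fun q => φ (Z p q) : R → D))) (c : Fin e → Λ)
    (hc : ∀ r, ∑ i, c i * Z i r = 0) : c = 0 := by
  rw [Fintype.linearIndependent_iff] at hZ
  funext i
  apply hφ
  rw [Pi.zero_apply, map_zero]
  refine hZ (fun i => φ (c i)) ?_ i
  funext r
  rw [Finset.sum_apply, Pi.zero_apply]
  have h1 := congrArg φ (hc r)
  rw [map_sum, map_zero] at h1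
  rw [← h1]
  refine Finset.sum_congr rfl fun j _ => ?_
  rw [Pi.smul_apply, smul_eq_mul, map_mul]

variable {Ω : Type} [Field Ω] {ℓ : ℕ} {X : Type}

theorem exists_rows_afam (𝒜 : AFam Ω ℓ X) (h : 𝒜.Good) {p : Set X} (hp : 𝒜.Closed p) :
    ∃ (e n : ℕ) (Z : Matrix (Fin e) 𝒜.R 𝒜.Λ) (Y : Matrix (Fin n) 𝒜.R 𝒜.Λ), e + n = Fintype.card 𝒜.R ∧
      (∀ c : Fin e → 𝒜.Λ, (∀ r, ∑ i, c i * Z i r = 0) → c = 0) ∧
      (∀ c : Fin n → 𝒜.Λ, (∀ r, ∑ i, c i * Y i r = 0) → c = 0) ∧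
      (∀ x ∈ p, ∀ i, ∀ w ∈ 𝒜.eig i x, 𝒜.fam.mact i Z w = 0) ∧
      (∀ x, x ∉ p → ∀ i, ∀ w ∈ 𝒜.eig i x, 𝒜.fam.mact i Y w = 0) ∧ (e = 0 → ∀ x, x ∈ p) ∧
      ∃ C : ℝ, ∀ i, |(𝒜.N i p : ℝ) - n * Module.finrank Ω (𝒜.fam.W i)| ≤
        C / (ℓ : ℝ) ^ 𝒜.fam.dep i * Module.finrank Ω (𝒜.fam.W i) := by
  classical
  -- the last but one property
  have hzero : (∀ t ∈ 𝒜.idl p, 𝒜.m t ^ Fintype.card 𝒜.R = 0) → ∀ x, x ∈ p := by
    intro hall x
    by_contra hx
    obtain ⟨t, ht, h0⟩ := 𝒜.closed_iff.1 hp x hx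
    have h1 : t ^ Fintype.card 𝒜.R = 0 := by
      apply 𝒜.inj
      rw [map_pow, map_zero]
      exact hall t ht
    have h2 : 𝒜.χ x t ^ Fintype.card 𝒜.R = 0 := by rw [← map_pow, h1, map_zero]
    have hR : Fintype.card 𝒜.R ≠ 0 := by
      intro hR
      rw [hR, pow_zero] at h2
      exact one_ne_zero h2
    exact h0 ((pow_eq_zero_iff hR).1 h2)
  rcases Nat.eq_zero_or_pos (Fintype.card 𝒜.R) with hR0 | hRpos
  · have hemp : IsEmpty 𝒜.R := Fintype.card_eq_zero_iff.1 hR0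
    refine ⟨0, 0, 0, 0, hR0.symm, fun c _ => Subsingleton.elim _ _, fun c _ => Subsingleton.elim _ _,
      fun x _ i w _ => Subsingleton.elim _ _, fun x _ i w _ => Subsingleton.elim _ _,
      fun _ => hzero fun t _ => Subsingleton.elim _ _, 0, fun i => ?_⟩
    have h1 : 𝒜.N i p = 0 := Module.finrank_zero_of_subsingleton
    rw [h1]
    simp
  obtain ⟨D, _, φ, hφ, hden⟩ := exists_division 𝒜.ore
  have hchar : CharZero D := charZero_of_injective_ringHom hφ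
  have hN : Module.finrank D (𝒜.R → D) = Fintype.card 𝒜.R := Module.finrank_fintype_fun_eq_card D
  obtain ⟨N, hNdef⟩ : ∃ N, N = Fintype.card 𝒜.R := ⟨_, rfl⟩
  rw [← hNdef] at hN hRpos
  have hss := 𝒜.range_le h
  -- the operator of `t`
  let op : 𝒜.T → Module.End D (𝒜.R → D) := fun t => rowMul φ (𝒜.m t)
  have hop_pow : ∀ t k, op (t ^ k) = op t ^ k := fun t k => by
    simp only [op, map_pow, rowMul_pow]
  have hsrk : ∀ f : Module.End D (𝒜.R → D), srk f = Module.finrank D (LinearMap.range (f ^ N)) := fun f => by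
    unfold srk
    rw [hN]
  have hsrk_le : ∀ t, srk (op t) ≤ N := fun t => by
    rw [hsrk, ← hN]
    exact Submodule.finrank_le _
  obtain ⟨t, ht, hmax⟩ := exists_max (𝒜.idl p) (fun t => srk (op t)) N hsrk_le
  have hkill : ∀ u ∈ 𝒜.idl p, ∀ v, (op t ^ N) v = 0 → (op u ^ N) v = 0 := by
    intro u hu v hv
    have hcomm : Commute (op t) (op u) := by
      change rowMul φ (𝒜.m t) * rowMul φ (𝒜.m u) = rowMul φ (𝒜.m u) * rowMul φ (𝒜.m t)
      rw [← rowMul_mul, ← rowMul_mul, ← map_mul, ← map_mul, mul_comm]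
    have h := srk_max (D := D) (V := 𝒜.R → D) (op t) (op u) hcomm
    rw [hN] at h
    refine h (fun c => ?_) v hv
    have hmem : (c : 𝒜.T) * t ^ N + u ^ N ∈ 𝒜.idl p :=
      (𝒜.idl p).add_mem ((𝒜.idl p).mul_mem_left _ ((𝒜.idl p).pow_mem_of_mem ht N hRpos))
        ((𝒜.idl p).pow_mem_of_mem hu N hRpos)
    have h1 := hmax _ hmem
    have h2 : op ((c : 𝒜.T) * t ^ N + u ^ N) = (c : Module.End D (𝒜.R → D)) * op t ^ N + op u ^ N := by
      change rowMul φ (𝒜.m ((c : 𝒜.T) * t ^ N + u ^ N)) = _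
      have h4 : 𝒜.m ((c : 𝒜.T) * t ^ N + u ^ N) = (𝒜.m t) ^ N * (c : Matrix 𝒜.R 𝒜.R 𝒜.Λ) + (𝒜.m u) ^ N := by
        rw [map_add, mul_comm (c : 𝒜.T), map_mul, map_pow, map_pow, map_natCast]
      rw [h4, rowMul_add, rowMul_mul, rowMul_natCast, rowMul_pow, rowMul_pow]
    rw [← h2]
    exact h1
  obtain ⟨X, hX⟩ : ∃ X : Matrix 𝒜.R 𝒜.R 𝒜.Λ, X = 𝒜.m (t ^ N) := ⟨_, rfl⟩
  have hXop : rowMul φ X = op t ^ N := by
    rw [hX, ← hop_pow]
  have he : Module.finrank D (LinearMap.range (rowMul φ X)) = srk (op t) := by rw [hXop, hsrk]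
  obtain ⟨f, Z, hZX, hZ⟩ := exists_rows' φ X he
  obtain ⟨n, Y, hn, hY0, hY⟩ := exists_left_kernel φ hφ hden X
  obtain ⟨C₁, hC₁⟩ := rank_rows φ hφ hden 𝒜.fam Z hZ
  obtain ⟨C₂, hC₂⟩ := rank_rows φ hφ hden 𝒜.fam Y hY
  rw [he] at hn
  rw [Fintype.card_fin] at hC₂
  rw [Fintype.card_fin] at hC₁
  have hYu : ∀ u ∈ 𝒜.idl p, Y * 𝒜.m (u ^ N) = 0 := by
    intro u hu
    funext p q
    apply hφ
    have h1 := hkill u hu (fun q => φ (Y p q)) (by rw [← hXop]; exact hY0 p)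
    rw [← hop_pow] at h1
    have h2 := congrFun h1 q
    have h3 : (op (u ^ N)) (fun q => φ (Y p q)) q = ∑ r, φ (Y p r) * φ (𝒜.m (u ^ N) r q) := rfl
    rw [h3] at h2
    rw [Matrix.mul_apply, map_sum, Matrix.zero_apply, map_zero]
    simp only [map_mul]
    exact h2
  have hZX' : ∀ i (w : 𝒜.R → 𝒜.fam.W i) q, 𝒜.fam.mact i Z w q = 𝒜.fam.mact i X w (f q) := by
    intro i w q
    rw [MFam.mact_apply, MFam.mact_apply]
    simp only [hZX]
  refine ⟨srk (op t), n, Z, Y, by omega, indep_of φ hφ hZ, indep_of φ hφ hY, ?_, ?_, fun h0 => hzero fun u hu => ?_,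
    max C₁ C₂, fun i => ?_⟩
  · intro x hx i w hw
    funext q
    rw [hZX', hX, 𝒜.mem_eig.1 hw (t ^ N), map_pow, ht x hx, zero_pow (by omega), zero_smul]
    rfl
  · intro x hx i w hw
    obtain ⟨u, hu, hu0⟩ := 𝒜.closed_iff.1 hp x hx
    have h1 := 𝒜.fam.mact_mul i Y (𝒜.m (u ^ N)) w
    rw [hYu u hu, MFam.mact_zero, 𝒜.mem_eig.1 hw (u ^ N), map_smul, map_pow] at h1
    exact (smul_eq_zero.1 h1.symm).resolve_left (pow_ne_zero _ hu0)
  · have h1 : srk (op u) = 0 := Nat.le_zero.1 (h0 ▸ hmax u hu)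
    rw [hsrk, ← hop_pow] at h1
    have h2 : LinearMap.range (op (u ^ N)) = ⊥ := Submodule.finrank_eq_zero.1 h1
    have h3 : op (u ^ N) = 0 := LinearMap.range_eq_bot.1 h2
    rw [← hNdef, ← map_pow]
    exact rowMul_eq_zero φ hφ h3
  · have hW : (0 : ℝ) ≤ Module.finrank Ω (𝒜.fam.W i) := Nat.cast_nonneg _
    have hℓ : (0 : ℝ) ≤ (ℓ : ℝ) ^ 𝒜.fam.dep i := pow_nonneg (Nat.cast_nonneg ℓ) _
    have hm1 : C₁ / (ℓ : ℝ) ^ 𝒜.fam.dep i * Module.finrank Ω (𝒜.fam.W i) ≤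
        max C₁ C₂ / (ℓ : ℝ) ^ 𝒜.fam.dep i * Module.finrank Ω (𝒜.fam.W i) :=
      mul_le_mul_of_nonneg_right (div_le_div_of_nonneg_right (le_max_left _ _) hℓ) hW
    have hm2 : C₂ / (ℓ : ℝ) ^ 𝒜.fam.dep i * Module.finrank Ω (𝒜.fam.W i) ≤
        max C₁ C₂ / (ℓ : ℝ) ^ 𝒜.fam.dep i * Module.finrank Ω (𝒜.fam.W i) :=
      mul_le_mul_of_nonneg_right (div_le_div_of_nonneg_right (le_max_right _ _) hℓ) hW
    -- the span of the eigenvectors outside `p`
    have hsp : (⨆ t ∈ 𝒜.idl p, LinearMap.range (𝒜.fam.mact i (𝒜.m t)) : Submodule Ω (𝒜.R → 𝒜.fam.W i)) =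
        𝒜.sp i pᶜ := by
      rw [𝒜.iSup_range h i, 𝒜.closed_compl hp]
    -- the lower bound
    have low1 : Module.finrank Ω (LinearMap.range (𝒜.fam.mact i Z)) ≤
        Module.finrank Ω (LinearMap.range (𝒜.fam.mact i X)) := by
      have h1 : LinearMap.range (𝒜.fam.mact i Z) =
          (LinearMap.range (𝒜.fam.mact i X)).map (LinearMap.funLeft Ω (𝒜.fam.W i) f) := by
        rw [← LinearMap.range_comp]
        congr 1
        refine LinearMap.ext fun w => funext fun p => ?_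
        rw [LinearMap.comp_apply, LinearMap.funLeft_apply]
        exact hZX' i w p
      rw [h1]
      exact Submodule.finrank_map_le _ _
    have low2 : LinearMap.range (𝒜.fam.mact i X) ≤ 𝒜.sp i pᶜ := by
      rw [hX, ← hsp]
      exact le_biSup (fun t => LinearMap.range (𝒜.fam.mact i (𝒜.m t))) ((𝒜.idl p).pow_mem_of_mem ht N hRpos)
    have low3 := Submodule.finrank_mono low2
    have low4 : (srk (op t) : ℝ) * Module.finrank Ω (𝒜.fam.W i) -
        C₁ / (ℓ : ℝ) ^ 𝒜.fam.dep i * Module.finrank Ω (𝒜.fam.W i) ≤ (𝒜.N i pᶜ : ℝ) := by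
      rw [← sub_mul]
      refine (hC₁ i).trans ?_
      exact_mod_cast low1.trans low3
    -- the upper bound
    have up1 : 𝒜.sp i pᶜ ≤ LinearMap.ker (𝒜.fam.mact i Y) := by
      rw [← hsp]
      refine iSup₂_le fun u hu => (range_pow 𝒜.fam 𝒜.m hss i u N hRpos).trans ?_
      rintro _ ⟨x, rfl⟩
      rw [LinearMap.mem_ker, ← MFam.mact_mul, hYu u hu, MFam.mact_zero]
    have up2 := Submodule.finrank_mono up1
    have up3 := LinearMap.finrank_range_add_finrank_ker (𝒜.fam.mact i Y)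
    rw [Module.finrank_pi_fintype, Finset.sum_const, Finset.card_univ, smul_eq_mul] at up3
    have up4 : (Module.finrank Ω (LinearMap.range (𝒜.fam.mact i Y)) : ℝ) +
        Module.finrank Ω (LinearMap.ker (𝒜.fam.mact i Y)) = (Fintype.card 𝒜.R : ℝ) * Module.finrank Ω (𝒜.fam.W i) := by
      exact_mod_cast up3
    have up5 : (n : ℝ) + srk (op t) = Fintype.card 𝒜.R := by exact_mod_cast hn
    have up6 : (𝒜.N i pᶜ : ℝ) ≤ Module.finrank Ω (LinearMap.ker (𝒜.fam.mact i Y)) := by exact_mod_cast up2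
    have up7 := hC₂ i
    rw [sub_mul] at up7
    rw [← up5, add_mul] at up4
    have h2 := 𝒜.N_compl h i hp
    have h3 : ((𝒜.N i p : ℕ) : ℝ) + (𝒜.N i pᶜ : ℕ) = (Fintype.card 𝒜.R : ℝ) * Module.finrank Ω (𝒜.fam.W i) := by
      exact_mod_cast h2
    rw [← up5, add_mul] at h3
    rw [abs_le]
    constructor
    · linarith
    · linarith

end Pool.Agent.Lib.MP_666dc0_nt.PL
end

section

/-!
# PL, ZDefs: functions killed by rows of a matrix over the completed group ring (complete, NOT a task)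
-/

namespace Pool.Agent.Lib.MP_666dc0_nt.PL

open ZO FM

variable {ℓ d : ℕ} [Fact ℓ.Prime] {𝒯 : UTow ℓ d} {G : Type} [Group G]

/-- The uniformly continuous functions `Φ` on `R × G` with `∑ r, v r * Φ (r, ·) = 0` for the rows `v = Y p`. -/
noncomputable def KB (𝒬 : QTow 𝒯 G) {R : Type} [Fintype R] {n : ℕ} (Y : Fin n → R → 𝒯.La) :
    Submodule (PadicAlgCl ℓ) (R × G → PadicAlgCl ℓ) where
  carrier := {Φ | ∃ Ψ : R → Ucf 𝒬, (∀ r x, Φ (r, x) = (Ψ r).1 x) ∧ ∀ p, ∑ r, uact 𝒬 (Y p r) (Ψ r) = 0}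
  add_mem' := by
    rintro Φ Φ' ⟨Ψ, h1, h2⟩ ⟨Ψ', h1', h2'⟩
    refine ⟨Ψ + Ψ', fun r x => ?_, fun p => ?_⟩
    · rw [Pi.add_apply, h1, h1']
      rfl
    · simp only [Pi.add_apply, map_add, Finset.sum_add_distrib, h2, h2', add_zero]
  zero_mem' := ⟨0, fun _ _ => rfl, fun p => by simp only [Pi.zero_apply, map_zero, Finset.sum_const_zero]⟩
  smul_mem' := by
    rintro c Φ ⟨Ψ, h1, h2⟩
    refine ⟨c • Ψ, fun r x => ?_, fun p => ?_⟩
    · rw [Pi.smul_apply, h1]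
      rfl
    · simp only [Pi.smul_apply, map_smul, ← Finset.smul_sum, h2, smul_zero]

/-- The rows `Y p` are linearly independent (for the left multiplication). -/
def RowIndep {Λ : Type} [Ring Λ] {R : Type} {n : ℕ} (Y : Fin n → R → Λ) : Prop :=
  ∀ c : Fin n → Λ, (∀ r, ∑ p, c p * Y p r = 0) → c = 0

/-- The functions in `V` which are right invariant under `J`. -/
def rinv {k : Type} [Field k] {R : Type} (V : Submodule k (R × G → k)) (J : Subgroup G) :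
    Submodule k (R × G → k) where
  carrier := {f | f ∈ V ∧ ∀ r x, ∀ j ∈ J, f (r, x * j) = f (r, x)}
  add_mem' := by
    rintro f f' ⟨h1, h2⟩ ⟨h1', h2'⟩
    exact ⟨V.add_mem h1 h1', fun r x j hj => by rw [Pi.add_apply, Pi.add_apply, h2 r x j hj, h2' r x j hj]⟩
  zero_mem' := ⟨V.zero_mem, fun _ _ _ _ => rfl⟩
  smul_mem' := by
    rintro c f ⟨h1, h2⟩
    exact ⟨V.smul_mem c h1, fun r x j hj => by rw [Pi.smul_apply, Pi.smul_apply, h2 r x j hj]⟩

end Pool.Agent.Lib.MP_666dc0_nt.PL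
end
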