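import Pool.Agent.Lib.MP_666dc0_nt.FM.B2c
import Pool.Agent.Lib.MP_666dc0_nt.Mg.G087
import Pool.Agent.Lib.MP_666dc0_nt.FM.A
import Pool.Agent.Lib.MP_666dc0_nt.FM.C1
import Pool.Agent.Lib.MP_666dc0_nt.Mg.G006
import Pool.Agent.Lib.MP_666dc0_nt.WL.Sys
import Pool.Agent.Lib.MP_666dc0_nt.Mg.G014
import Pool.Agent.Lib.MP_666dc0_nt.Mg.G005

section

/-!
The reduction of the action of the completed group ring.

`Φ` is uniformly continuous and integral, its reduction `f = app ∘ Φ` is right invariant under `J ⊇ ker (q t)`, hence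
invariant under left and right translations by `ker (q t)` (a normal subgroup). As in `rank_act_red` (`FM/B2c.lean`,
`hclose`): for large `t' ≥ t` and `c'` with `pj t' c' = pi t' a` one has `‖uact a Φ x - tr c' Φ x‖ < 1` (`isLm_uact`), so
`app (uact a Φ x) = ∑ c' g * f (g⁻¹ x)`, and this sum depends only on `pj t c'` modulo `ℓ` (`map_pj`): it is a sum over
`P t` of the coefficients of `redk 𝒯 k t (pi t a)`.
-/

namespace Pool.Agent.Lib.MP_666dc0_nt.PL

open ZO FM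

variable {ℓ d : ℕ} [Fact ℓ.Prime] {𝒯 : UTow ℓ d} {G : Type} [Group G]

/-- The sum over the group ring, modulo `ℓ`, in terms of the projection. -/
theorem sum_red (𝒬 : QTow 𝒯 G) {k : Type} [Field k] [CharP k ℓ] (t : ℕ) (F : 𝒯.P t → k)
    (c : MonoidAlgebra ℤ G) :
    (c.coeff.sum fun g m => (m : k) * F (𝒬.q t g)) =
      (redk 𝒯 k t (pj 𝒬 t c)).coeff.sum fun p a => a * F p := by
  rw [map_pj]
  have h1 : ((MonoidAlgebra.mapDomain (𝒬.q t)
      (MonoidAlgebra.mapRingHom G (Int.castRingHom k) c)).coeff.sum fun p a => a * F p) =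
      (MonoidAlgebra.mapRingHom G (Int.castRingHom k) c).coeff.sum fun g a => a * F (𝒬.q t g) := by
    change (Finsupp.mapDomain (𝒬.q t) _).sum _ = _
    exact Finsupp.sum_mapDomain_index (fun _ => zero_mul _) (fun _ _ _ => add_mul _ _ _)
  rw [h1]
  change _ = (Finsupp.mapRange (Int.castRingHom k) (map_zero _) c.coeff).sum _
  rw [Finsupp.sum_mapRange_index]
  · rfl
  · intro g
    rw [zero_mul]

theorem app_uact (𝒬 : QTow 𝒯 G) {k : Type} [Field k] [CharP k ℓ] (ρ : Red ℓ k) (a : 𝒯.La) (Φ : Ucf 𝒬)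
    (hΦ : ∀ x, ‖Φ.1 x‖ ≤ 1) {t : ℕ} (hinv : ∀ x j, 𝒬.q t j = 1 → ρ.app (Φ.1 (x * j)) = ρ.app (Φ.1 x))
    (c : MonoidAlgebra ℤ G) (hc : pj 𝒬 t c = 𝒯.la.pi t a) (x : G) :
    ‖(uact 𝒬 a Φ).1 x‖ ≤ 1 ∧
      ρ.app ((uact 𝒬 a Φ).1 x) = c.coeff.sum fun g m => (m : k) * ρ.app (Φ.1 (g⁻¹ * x)) := by
  have hl : (ℓ : ℝ)⁻¹ < 1 := inv_lt_one_of_one_lt₀ (by exact_mod_cast (Fact.out : ℓ.Prime).one_lt)
  obtain ⟨s, hs⟩ := isLm_uact 𝒬 a Φ (ℓ : ℝ)⁻¹ (by
    have : (0 : ℝ) < (ℓ : ℝ) := by exact_mod_cast (Fact.out : ℓ.Prime).pos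
    positivity)
  obtain ⟨c', hc'⟩ := pj_surj 𝒬 (max s t) (𝒯.la.pi (max s t) a)
  have h1 := hs c' (pj_down 𝒬 (le_max_left s t) a c' hc') x
  have hclose : ‖(uact 𝒬 a Φ).1 x - tr ℓ G c' Φ.1 x‖ < 1 := by
    rw [← norm_neg, neg_sub]
    exact lt_of_le_of_lt h1 hl
  have hint : ‖tr ℓ G c' Φ.1 x‖ ≤ 1 := norm_tr_le c' zero_le_one hΦ x
  have hint' : ‖(uact 𝒬 a Φ).1 x‖ ≤ 1 := by
    have h2 : (uact 𝒬 a Φ).1 x = ((uact 𝒬 a Φ).1 x - tr ℓ G c' Φ.1 x) + tr ℓ G c' Φ.1 x := by ring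
    rw [h2]
    exact (IsUltrametricDist.norm_add_le_max _ _).trans (max_le hclose.le hint)
  refine ⟨hint', ?_⟩
  -- a section
  choose σ hσ using 𝒬.surj t
  set F : 𝒯.P t → k := fun p => ρ.app (Φ.1 ((σ p)⁻¹ * x)) with hF
  have hFq : ∀ g, ρ.app (Φ.1 (g⁻¹ * x)) = F (𝒬.q t g) := by
    intro g
    have h3 : (σ (𝒬.q t g))⁻¹ * x = (g⁻¹ * x) * (x⁻¹ * (g * (σ (𝒬.q t g))⁻¹) * x) := by group
    have h4 : 𝒬.q t (x⁻¹ * (g * (σ (𝒬.q t g))⁻¹) * x) = 1 := by
      rw [map_mul, map_mul, map_mul, map_inv, map_inv, hσ, mul_inv_cancel, mul_one, inv_mul_cancel]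
    simp only [hF]
    rw [h3, hinv _ _ h4]
  have hcc : ∀ c : MonoidAlgebra ℤ G, (c.coeff.sum fun g m => (m : k) * ρ.app (Φ.1 (g⁻¹ * x))) =
      (redk 𝒯 k t (pj 𝒬 t c)).coeff.sum fun p a => a * F p := by
    intro c
    rw [← sum_red 𝒬 t F c]
    refine Finsupp.sum_congr fun g _ => ?_
    rw [hFq]
  rw [hcc c, hc, ← pj_down 𝒬 (le_max_right s t) a c' hc', ← hcc c', ρ.app_eq hint' hclose, tr_apply, Finsupp.sum,
    ρ.app_sum]
  · refine Finset.sum_congr rfl fun g _ => ?_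
    rw [ρ.app_mul (norm_int_le _) (hΦ _), app_intCast]
  · intro g _
    rw [norm_mul]
    exact mul_le_one₀ (norm_int_le _) (norm_nonneg _) (hΦ _)

/-- The functions in `V` which are killed by the rows are stable under right translations. -/
theorem KB_rtr (𝒬 : QTow 𝒯 G) {R : Type} [Fintype R] {n : ℕ} (Y : Fin n → R → 𝒯.La)
    {Φ : R × G → PadicAlgCl ℓ} (hΦ : Φ ∈ KB 𝒬 Y) (y : G) : (fun z => Φ (z.1, z.2 * y)) ∈ KB 𝒬 Y := by
  obtain ⟨Ψ, h1, h2⟩ := hΦ
  have hu : ∀ φ : Ucf 𝒬, IsUcf 𝒬 (fun x => φ.1 (x * y)) := by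
    intro φ
    obtain ⟨C, hC0, hC⟩ := φ.2.bdd
    obtain ⟨L, hL, hL'⟩ := φ.2.field
    refine ⟨⟨C, hC0, fun x => hC _⟩, ⟨L, hL, fun x => hL' _⟩, fun ε hε => ?_⟩
    obtain ⟨s, hs⟩ := φ.2.cont ε hε
    refine ⟨s, fun g hg x => ?_⟩
    rw [mul_assoc]
    exact hs g hg (x * y)
  refine ⟨fun r => ⟨fun x => (Ψ r).1 (x * y), hu (Ψ r)⟩, fun r x => h1 r (x * y), fun p => ?_⟩
  have h3 : ∀ r, (uact 𝒬 (Y p r) ⟨fun x => (Ψ r).1 (x * y), hu (Ψ r)⟩).1 =
      fun x => (uact 𝒬 (Y p r) (Ψ r)).1 (x * y) := fun r =>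
    (isLm_uact 𝒬 (Y p r) ⟨fun x => (Ψ r).1 (x * y), hu (Ψ r)⟩).unique (isLm_rtr y (isLm_uact 𝒬 (Y p r) (Ψ r)))
  refine Subtype.ext (funext fun x => ?_)
  have h4 := congrFun (congrArg Subtype.val (h2 p)) (x * y)
  rw [Submodule.coe_sum, Finset.sum_apply] at h4 ⊢
  change _ = (0 : PadicAlgCl ℓ)
  change _ = (0 : PadicAlgCl ℓ) at h4
  rw [← h4]
  exact Finset.sum_congr rfl fun r _ => congrFun (h3 r) x

/-- All functions in `KB 𝒬 Y` attain their maximal norm, when `R` and the quotients `P t` are finite: `Φ ≠ 0` at `z₁`;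
`Φ` is constant up to `‖Φ z₁‖ / 2` on the finitely many classes `{r} × ker (q t) x`. -/
theorem maxi_KB (𝒬 : QTow 𝒯 G) {R : Type} [Fintype R] [Nonempty R] {n : ℕ} (Y : Fin n → R → 𝒯.La) :
    Maxi (KB 𝒬 Y) := by
  rintro Φ ⟨Ψ, h1, -⟩
  by_cases h0 : ∀ z, Φ z = 0
  · refine ⟨(Classical.arbitrary R, 1), fun z => ?_⟩
    rw [h0 z, h0]
  push Not at h0
  obtain ⟨z₁, hz₁⟩ := h0
  have hpos : 0 < ‖Φ z₁‖ := norm_pos_iff.2 hz₁
  choose s hs using fun r => (Ψ r).2.cont (‖Φ z₁‖ / 2) (by positivity)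
  set t := Finset.univ.sup s with ht
  choose σ hσ using 𝒬.surj t
  obtain ⟨w, hw⟩ := Finite.exists_max fun z : R × 𝒯.P t => ‖Φ (z.1, σ z.2)‖
  have hstep : ∀ z : R × G, ‖Φ z‖ ≤ max (‖Φ z₁‖ / 2) ‖Φ (w.1, σ w.2)‖ := by
    intro z
    have h2 : 𝒬.q t (z.2 * (σ (𝒬.q t z.2))⁻¹) = 1 := by rw [map_mul, map_inv, hσ, mul_inv_cancel]
    have h3 := hs z.1 _ (q_down 𝒬 (Finset.le_sup (f := s) (Finset.mem_univ z.1)) _ h2) (σ (𝒬.q t z.2))
    rw [inv_mul_cancel_right, ← h1, ← h1] at h3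
    have h4 : Φ z = (Φ (z.1, z.2) - Φ (z.1, σ (𝒬.q t z.2))) + Φ (z.1, σ (𝒬.q t z.2)) := by
      rw [sub_add_cancel]
    rw [h4]
    exact (IsUltrametricDist.norm_add_le_max _ _).trans (max_le_max h3 (hw (z.1, 𝒬.q t z.2)))
  have h5 : ‖Φ z₁‖ ≤ ‖Φ (w.1, σ w.2)‖ := by
    rcases le_max_iff.1 (hstep z₁) with h | h
    · linarith
    · exact h
  refine ⟨(w.1, σ w.2), fun z => (hstep z).trans (max_le (by linarith) le_rfl)⟩

end Pool.Agent.Lib.MP_666dc0_nt.PL
end

section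

/-!
TASK Z1. Coordinates modulo a saturated module.

`A` is a maximal finite set such that every `v ∈ L` with `red (v r) = 0` for all `r ∉ A` has `red (v r) = 0` for all `r`
(the empty set has this property; `R` is finite). If `r ∉ A` then `insert r A` does not have it: there is `v ∈ L` with
`red (v r') = 0` for `r' ∉ insert r A` and `red (v r'') ≠ 0` for some `r''`; if `red (v r) = 0` the property of `A` gives a
contradiction, so `red (v r) ≠ 0`.
Cardinality: the unit vectors `e r` (`r ∈ A`) and the rows `Y p` are linearly independent over `La` (left): let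
`∑ b r e r + ∑ c p Y p = 0`; `v = ∑ c p Y p ∈ L` has `v r = 0` for `r ∉ A`. If `v ≠ 0` then `v = ℓ ^ j v'` with
`red (v' r) ≠ 0` for some `r` (`exists_pow_mul` of `FM/A4.lean` for each component, `j` the minimal exponent), `v' ∈ L`
(`hsat`), `v' r = 0` for `r ∉ A` (no zero divisors, characteristic `0`), a contradiction. So `v = 0`, `c = 0`, `b = 0`.
`La` is (left) noetherian and nontrivial (`la_noetherian`, `la_charZero` of `FM/A.lean`), so it satisfies the strong rank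
condition (`IsNoetherianRing.strongRankCondition`), and `card A + n ≤ card R`.
-/

namespace Pool.Agent.Lib.MP_666dc0_nt.PL

open ZO FM

/-- An element of `La` with reduction `0` is divisible by `ℓ`. -/
theorem exists_eq_mul_of_red {ℓ d : ℕ} [Fact ℓ.Prime] (𝒯 : UTow ℓ d) (a : 𝒯.La) (ha : 𝒯.red a = 0) :
    ∃ b : 𝒯.La, a = (ℓ : 𝒯.La) * b := by
  by_cases h0 : a = 0
  · exact ⟨0, by rw [h0, mul_zero]⟩
  · obtain ⟨j, b, hb, hr⟩ := 𝒯.exists_pow_mul a h0
    rcases j with _ | j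
    · rw [pow_zero, one_mul] at hb
      exact absurd (hb ▸ ha) hr
    · exact ⟨(ℓ : 𝒯.La) ^ j * b, by rw [← mul_assoc, ← pow_succ']; exact hb⟩

/-- If all `v ∈ L` vanishing modulo `ℓ` outside `A` vanish modulo `ℓ`, then all `v ∈ L` vanishing outside `A` vanish. -/
theorem eq_zero_of_coords {ℓ d : ℕ} [Fact ℓ.Prime] (𝒯 : UTow ℓ d) {R : Type}
    (L : Submodule 𝒯.La (R → 𝒯.La))
    (hsat : ∀ v : R → 𝒯.La, (fun r => (ℓ : 𝒯.La) * v r) ∈ L → v ∈ L) (A : Finset R)
    (hA : ∀ v ∈ L, (∀ r, r ∉ A → 𝒯.red (v r) = 0) → ∀ r, 𝒯.red (v r) = 0) (v : R → 𝒯.La) (hv : v ∈ L)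
    (h0 : ∀ r, r ∉ A → v r = 0) : v = 0 := by
  have hnz := 𝒯.la_noZeroDivisors
  have hcz := 𝒯.la_charZero
  have hl : (ℓ : 𝒯.La) ≠ 0 := Nat.cast_ne_zero.2 (Fact.out : ℓ.Prime).ne_zero
  have key : ∀ (j : ℕ) (v : R → 𝒯.La), v ∈ L → (∀ r, r ∉ A → v r = 0) →
      ∀ (r : R) (b : 𝒯.La), v r = (ℓ : 𝒯.La) ^ j * b → 𝒯.red b = 0 := by
    intro j
    induction j with
    | zero =>
      intro v hv h0 r b hb
      rw [pow_zero, one_mul] at hb
      rw [← hb]
      exact hA v hv (fun r hr => by rw [h0 r hr, map_zero]) r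
    | succ j ih =>
      intro v hv h0 r b hb
      have h1 : ∀ r, 𝒯.red (v r) = 0 := hA v hv (fun r hr => by rw [h0 r hr, map_zero])
      choose w hw using fun r => exists_eq_mul_of_red 𝒯 (v r) (h1 r)
      have hwL : w ∈ L := hsat w (by
        have : (fun r => (ℓ : 𝒯.La) * w r) = v := funext fun r => (hw r).symm
        rw [this]
        exact hv)
      refine ih w hwL (fun r hr => ?_) r b ?_
      · have := hw r
        rw [h0 r hr] at this
        rcases mul_eq_zero.1 this.symm with h | h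
        · exact absurd h hl
        · exact h
      · have h2 := hw r
        rw [hb, pow_succ', mul_assoc] at h2
        exact (mul_left_cancel₀ hl h2).symm
  funext r
  by_contra hne
  obtain ⟨j, b, hb, hr⟩ := 𝒯.exists_pow_mul (v r) hne
  exact hr (key j v hv h0 r b hb)

theorem exists_coords_mod {ℓ d : ℕ} [Fact ℓ.Prime] (𝒯 : UTow ℓ d) {R : Type} [Fintype R]
    (L : Submodule 𝒯.La (R → 𝒯.La))
    (hsat : ∀ v : R → 𝒯.La, (fun r => (ℓ : 𝒯.La) * v r) ∈ L → v ∈ L) {n : ℕ} (Y : Fin n → R → 𝒯.La)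
    (hY : ∀ p, Y p ∈ L) (hi : RowIndep Y) :
    ∃ A : Finset R, A.card + n ≤ Fintype.card R ∧
      ∀ r, r ∉ A → ∃ v ∈ L, 𝒯.red (v r) ≠ 0 ∧ ∀ r', r' ∉ A → r' ≠ r → 𝒯.red (v r') = 0 := by
  classical
  have hnz := 𝒯.la_noZeroDivisors
  have hcz := 𝒯.la_charZero
  have hno := 𝒯.la_noetherian
  have hnt : Nontrivial 𝒯.La := ⟨⟨0, 1, by
    have : ((0 : ℕ) : 𝒯.La) ≠ ((1 : ℕ) : 𝒯.La) := fun h => zero_ne_one (Nat.cast_injective h)
    rwa [Nat.cast_zero, Nat.cast_one] at this⟩⟩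
  let P : Finset R → Prop := fun A =>
    ∀ v ∈ L, (∀ r, r ∉ A → 𝒯.red (v r) = 0) → ∀ r, 𝒯.red (v r) = 0
  have hP0 : P ∅ := fun v _ h r => h r (Finset.notMem_empty r)
  obtain ⟨A, hA, hmax⟩ := Finset.exists_max_image (Finset.univ.filter P) Finset.card
    ⟨∅, Finset.mem_filter.2 ⟨Finset.mem_univ _, hP0⟩⟩
  have hPA : P A := (Finset.mem_filter.1 hA).2
  refine ⟨A, ?_, ?_⟩
  · let f : ((A ⊕ Fin n) → 𝒯.La) →ₗ[𝒯.La] (R → 𝒯.La) :=
      { toFun := fun c r => (if h : r ∈ A then c (Sum.inl ⟨r, h⟩) else 0) + ∑ p, c (Sum.inr p) * Y p r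
        map_add' := by
          intro c c'
          funext r
          simp only [Pi.add_apply, add_mul, Finset.sum_add_distrib]
          by_cases h : r ∈ A
          · simp only [dif_pos h]
            abel
          · simp only [dif_neg h]
            abel
        map_smul' := by
          intro a c
          funext r
          simp only [Pi.smul_apply, smul_eq_mul, RingHom.id_apply, mul_add, Finset.mul_sum, mul_assoc]
          by_cases h : r ∈ A
          · simp only [dif_pos h]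
          · simp only [dif_neg h, mul_zero] }
    have hf : Function.Injective f := by
      rw [injective_iff_map_eq_zero]
      intro c hc
      have h1 : ∀ r, (if h : r ∈ A then c (Sum.inl ⟨r, h⟩) else 0) + ∑ p, c (Sum.inr p) * Y p r = 0 :=
        fun r => congrFun hc r
      have h2 : (fun r => ∑ p, c (Sum.inr p) * Y p r) = (0 : R → 𝒯.La) := by
        refine eq_zero_of_coords 𝒯 L hsat A hPA _ ?_ ?_
        · have : (fun r => ∑ p, c (Sum.inr p) * Y p r) = ∑ p, c (Sum.inr p) • Y p := by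
            funext r
            simp only [Finset.sum_apply, Pi.smul_apply, smul_eq_mul]
          rw [this]
          exact Submodule.sum_mem _ fun p _ => L.smul_mem _ (hY p)
        · intro r hr
          have := h1 r
          rwa [dif_neg hr, zero_add] at this
      have h3 : (fun p => c (Sum.inr p)) = 0 := hi _ fun r => congrFun h2 r
      funext x
      rcases x with x | p
      · have := h1 x.1
        rw [dif_pos x.2, show (∑ p, c (Sum.inr p) * Y p x.1) = 0 from congrFun h2 x.1, add_zero] at this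
        exact this
      · exact congrFun h3 p
    have := card_le_of_injective 𝒯.La f hf
    rwa [Fintype.card_sum, Fintype.card_coe, Fintype.card_fin] at this
  · intro r hr
    have hn : ¬ P (insert r A) := by
      intro h
      have := hmax _ (Finset.mem_filter.2 ⟨Finset.mem_univ _, h⟩)
      rw [Finset.card_insert_of_notMem hr] at this
      omega
    simp only [P, not_forall] at hn
    obtain ⟨v, hv, h1, r'', h2⟩ := hn
    refine ⟨v, hv, fun h => h2 (hPA v hv (fun r' hr' => ?_) r''), fun r' hr' hne => ?_⟩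
    · by_cases he : r' = r
      · rw [he]
        exact h
      · exact h1 r' (fun h => (Finset.mem_insert.1 h).elim he hr')
    · exact h1 r' (fun h => (Finset.mem_insert.1 h).elim hne hr')

end Pool.Agent.Lib.MP_666dc0_nt.PL
end

section

/-!
TASK S1. Transport of spaces of complex functions to spaces of `ℓ`-adic functions.

`tr ι M = {ι ∘ f | f ∈ M}`, `tw M = {(g, x) ↦ ev x f g | f ∈ M}`; both maps are additive bijections of `M` with the image
which are semilinear for `ι` (`rank_eq_of_equiv_equiv`, as in `finrank_VF` of `ZO/Q3b.lean`); `f` is determined by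
`(g, x) ↦ ev x f g = ι (f g (x * ĝ⁻¹))`.
-/

open NumberField IsDedekindDomain
open scoped NumberField

namespace Pool.Agent.Lib.MP_666dc0_nt.PL

open WL

variable {F : Type} [Field F] [NumberField F] {n : ℕ} {D : Datum F n} {ℓ : ℕ} [Fact ℓ.Prime]

/-- The functions `ι ∘ f`, `f ∈ M`. -/
def tr (ι : ℂ ≃+* PadicAlgCl ℓ) {X : Type} (M : Submodule ℂ (X → ℂ)) :
    Submodule (PadicAlgCl ℓ) (X → PadicAlgCl ℓ) where
  carrier := {v | ∃ f ∈ M, ∀ x, v x = ι (f x)}
  add_mem' := by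
    rintro v v' ⟨f, hf, h⟩ ⟨f', hf', h'⟩
    exact ⟨f + f', M.add_mem hf hf', fun x => by rw [Pi.add_apply, Pi.add_apply, map_add, h, h']⟩
  zero_mem' := ⟨0, M.zero_mem, fun x => by rw [Pi.zero_apply, Pi.zero_apply, map_zero]⟩
  smul_mem' := by
    rintro c v ⟨f, hf, h⟩
    exact ⟨ι.symm c • f, M.smul_mem _ hf, fun x => by
      rw [Pi.smul_apply, Pi.smul_apply, smul_eq_mul, smul_eq_mul, map_mul, RingEquiv.apply_symm_apply, h]⟩

/-- The functions `(g, x) ↦ ι (f g (x * ĝ⁻¹))`, `f ∈ M`. -/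
def tw {ι : ℂ ≃+* PadicAlgCl ℓ} (Hh : HatData F ℓ ι) (M : Submodule ℂ (D.Ad → D.Cpx → ℂ)) :
    Submodule (PadicAlgCl ℓ) (D.Ad → D.Cpx → PadicAlgCl ℓ) where
  carrier := {Ψ | ∃ f ∈ M, ∀ g x, Ψ g x = Hh.ev x f g}
  add_mem' := by
    rintro v v' ⟨f, hf, h⟩ ⟨f', hf', h'⟩
    refine ⟨f + f', M.add_mem hf hf', fun g x => ?_⟩
    rw [Pi.add_apply, Pi.add_apply, h, h']
    unfold HatData.ev
    rw [Pi.add_apply, Pi.add_apply, map_add]
  zero_mem' := ⟨0, M.zero_mem, fun g x => by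
    unfold HatData.ev
    rw [Pi.zero_apply, Pi.zero_apply, Pi.zero_apply, Pi.zero_apply, map_zero]⟩
  smul_mem' := by
    rintro c v ⟨f, hf, h⟩
    refine ⟨ι.symm c • f, M.smul_mem _ hf, fun g x => ?_⟩
    rw [Pi.smul_apply, Pi.smul_apply, h]
    unfold HatData.ev
    rw [Pi.smul_apply, Pi.smul_apply, smul_eq_mul, smul_eq_mul, map_mul, RingEquiv.apply_symm_apply]

/-- A semilinear additive bijection preserves the rank. -/
theorem rank_eq_of_semilin (ι : ℂ ≃+* PadicAlgCl ℓ) {A B : Type} [AddCommGroup A] [Module ℂ A] [AddCommGroup B]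
    [Module (PadicAlgCl ℓ) B] (e : A ≃+ B) (he : ∀ (a : ℂ) (f : A), e (a • f) = ι a • e f) :
    Module.rank ℂ A = Module.rank (PadicAlgCl ℓ) B :=
  rank_eq_of_equiv_equiv (fun a : ℂ => ι a) e ι.bijective he

/-- The bijection `M → tr ι M`. -/
noncomputable def trEquiv (ι : ℂ ≃+* PadicAlgCl ℓ) {X : Type} (M : Submodule ℂ (X → ℂ)) : M ≃+ tr ι M :=
  AddEquiv.ofBijective
    (({ toFun := fun f => ⟨fun x => ι (f.1 x), f.1, f.2, fun _ => rfl⟩
        map_zero' := Subtype.ext (funext fun _ => map_zero ι)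
        map_add' := fun _ _ => Subtype.ext (funext fun _ => map_add ι _ _) } : M →+ tr ι M))
    ⟨fun _ _ h => Subtype.ext (funext fun x => ι.injective (congrFun (congrArg Subtype.val h) x)),
      fun ⟨_, f, hf, h⟩ => ⟨⟨f, hf⟩, Subtype.ext (funext fun x => (h x).symm)⟩⟩

theorem trEquiv_smul (ι : ℂ ≃+* PadicAlgCl ℓ) {X : Type} (M : Submodule ℂ (X → ℂ)) (a : ℂ) (f : M) :
    trEquiv ι M (a • f) = ι a • trEquiv ι M f :=
  Subtype.ext (funext fun x => map_mul ι a (f.1 x))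

/-- The bijection `M → tw Hh M`. -/
noncomputable def twEquiv {ι : ℂ ≃+* PadicAlgCl ℓ} (Hh : HatData F ℓ ι) (M : Submodule ℂ (D.Ad → D.Cpx → ℂ)) :
    M ≃+ tw Hh M :=
  AddEquiv.ofBijective
    (({ toFun := fun f => ⟨fun g x => Hh.ev x f.1 g, f.1, f.2, fun _ _ => rfl⟩
        map_zero' := Subtype.ext (funext fun _ => funext fun _ => map_zero ι)
        map_add' := fun _ _ => Subtype.ext (funext fun _ => funext fun _ => map_add ι _ _) } : M →+ tw Hh M))
    ⟨fun f f' h => Subtype.ext (funext fun g => funext fun x => by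
        have h1 := congrFun (congrFun (congrArg Subtype.val h) g) (x * Hh.hat D g)
        have h2 : ι (f.1 g (x * Hh.hat D g * (Hh.hat D g)⁻¹)) = ι (f'.1 g (x * Hh.hat D g * (Hh.hat D g)⁻¹)) := h1
        rw [mul_inv_cancel_right] at h2
        exact ι.injective h2),
      fun ⟨v, f, hf, h⟩ => ⟨⟨f, hf⟩, Subtype.ext (funext fun g => funext fun x => (h g x).symm)⟩⟩

theorem twEquiv_smul {ι : ℂ ≃+* PadicAlgCl ℓ} (Hh : HatData F ℓ ι) (M : Submodule ℂ (D.Ad → D.Cpx → ℂ)) (a : ℂ)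
    (f : M) : twEquiv Hh M (a • f) = ι a • twEquiv Hh M f :=
  Subtype.ext (funext fun g => funext fun x => map_mul ι a (f.1 g (x * (Hh.hat D g)⁻¹)))

theorem finrank_tr (ι : ℂ ≃+* PadicAlgCl ℓ) {X : Type} (M : Submodule ℂ (X → ℂ)) :
    Module.finrank (PadicAlgCl ℓ) (tr ι M) = Module.finrank ℂ M := by
  unfold Module.finrank
  rw [rank_eq_of_semilin ι (trEquiv ι M) (trEquiv_smul ι M)]

theorem finite_tr (ι : ℂ ≃+* PadicAlgCl ℓ) {X : Type} (M : Submodule ℂ (X → ℂ)) [FiniteDimensional ℂ M] :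
    FiniteDimensional (PadicAlgCl ℓ) (tr ι M) := by
  refine Module.rank_lt_aleph0_iff.1 ?_
  rw [← rank_eq_of_semilin ι (trEquiv ι M) (trEquiv_smul ι M)]
  exact Module.rank_lt_aleph0_iff.2 inferInstance

theorem finrank_tw {ι : ℂ ≃+* PadicAlgCl ℓ} (Hh : HatData F ℓ ι) (M : Submodule ℂ (D.Ad → D.Cpx → ℂ)) :
    Module.finrank (PadicAlgCl ℓ) (tw Hh M) = Module.finrank ℂ M := by
  unfold Module.finrank
  rw [rank_eq_of_semilin ι (twEquiv Hh M) (twEquiv_smul Hh M)]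

theorem finite_tw {ι : ℂ ≃+* PadicAlgCl ℓ} (Hh : HatData F ℓ ι) (M : Submodule ℂ (D.Ad → D.Cpx → ℂ))
    [FiniteDimensional ℂ M] : FiniteDimensional (PadicAlgCl ℓ) (tw Hh M) := by
  refine Module.rank_lt_aleph0_iff.1 ?_
  rw [← rank_eq_of_semilin ι (twEquiv Hh M) (twEquiv_smul Hh M)]
  exact Module.rank_lt_aleph0_iff.2 inferInstance

end Pool.Agent.Lib.MP_666dc0_nt.PL
end

section

/-!
TASK W2. Polynomial approximations of the indicator functions of cosets, and maxima and continuity of polynomials on a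
level.

`isDeep_poly`: `polySub D` is deep with `a = 1` (perhaps it is in `WL` already: grep `IsDeep`).
`exists_mult`: for `c ∈ P` (finitely many cosets `c H`, `H.relIndex P ≠ 0`) apply `dense_deep` with `K = P`, `y₀ = z = 1`,
`η = 1 / 2` and `ψ` the indicator function of `c (U ⊔ H)` (open and closed, so `ψ` is continuous; for `p ∈ P`:
`c⁻¹ p ∈ U ⊔ H ↔ c⁻¹ p ∈ H`, by `mem_sup_iff` and the triviality of elements of `U` in a group with components at `ℓ` only).
This gives `p_c ∈ polySub D`, in `polyLE D m` for a common `m` (`exists_polyLE`, `polyLE_mono`). Put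
`h y c x = p_{c'} (y⁻¹ * x)`, with `c'` the representative of `c H` (`polyLE_trans_left`).
`poly_max`: `P` is compact (`isCompact_of_isLevel`), `continuous_eval`, `IsCompact.exists_isMaxOn`.
`poly_small`: by `continuous_eval` `φ g = ι (q (y ĝ⁻¹))` is continuous. For every `p ∈ P` there is an open subgroup `W_p` of
`G(𝔸_f)` with `‖φ (p w) - φ p‖ < 1` for `w ∈ W_p` (the open subgroups are a basis at `1`: see how `WL`/`ZO` do this, e.g.
`exists_K_le` in `ZO/Q1.lean` or the proof of `IsSmallRep.cont` in `ZO/Q2.lean`), finitely many `p W_p` cover `P`, and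
`K t ≤ W_p` for all these `p` for some `t` (`hsmall`). Ultrametric inequality. (Alternative: `GoodBasis.small.cont`.)
-/

open NumberField IsDedekindDomain
open scoped NumberField

namespace Pool.Agent.Lib.MP_666dc0_nt.PL

open WL

variable {F : Type} [Field F] [NumberField F] {n : ℕ} {D : Datum F n} {ℓ : ℕ} [Fact ℓ.Prime]
  {ι : ℂ ≃+* PadicAlgCl ℓ} {U : Subgroup D.Ad}

/-- The space of all polynomial functions is deep. -/
theorem isDeep_poly (ℓ : ℕ) (D : Datum F n) : IsDeep ℓ D (polySub D) where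
  le := fun p hp => hp
  trans := fun p hp y => polyFun_trans hp y
  exists_pow := by
    refine ⟨1, (polyFun D).one_mem, ?_, fun d s => ⟨ℓ ^ s, dvd_rfl, fun p hp => ?_⟩⟩
    · rw [Pi.one_apply]
      exact one_ne_zero
    · have h1 : (fun x => (1 : D.Cpx → ℂ) x ^ ℓ ^ s * p x) = p := by
        funext x
        rw [Pi.one_apply, one_pow, one_mul]
      rw [h1]
      exact polyLE_le_polyFun d hp

/-- An element of a level that is in `U ⊔ H` is in `H`. -/
theorem mem_of_mem_sup (hU : IsTame ℓ U) {P H : Subgroup D.Ad} (hP : IsLevel ℓ U P)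
    (hH : IsLevel ℓ U H) {g : D.Ad} (hg : g ∈ P) (hg' : g ∈ U ⊔ H) : g ∈ H := by
  obtain ⟨u, hu, k, hk, rfl⟩ := (mem_sup_iff hU hH.supp).1 hg'
  have h1 : u = 1 := by
    refine eq_one_of_trivialAt fun v => ?_
    by_cases hv : (ℓ : 𝓞 F) ∈ v.asIdeal
    · exact hU u hu v hv
    · have h2 := (hP.supp _ hg v hv).mul (hH.supp k hk v hv).inv
      rwa [mul_inv_cancel_right] at h2
  rw [h1, one_mul]
  exact hk

open Classical in
theorem exists_mult (Hh : HatData F ℓ ι) (hU : IsTame ℓ U) {P H : Subgroup D.Ad} (hP : IsLevel ℓ U P)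
    (hH : IsLevel ℓ U H) (hHP : H ≤ P) (h0 : H.relIndex P ≠ 0) :
    ∃ (m : ℕ) (h : D.Cpx → D.Ad → D.Cpx → ℂ), (∀ y c, h y c ∈ polyLE D m) ∧
      ∀ y, ∀ c ∈ P, ∀ p ∈ P,
        ‖ι (h y c (y * (Hh.hat D p)⁻¹)) - (if c⁻¹ * p ∈ H then 1 else 0 : PadicAlgCl ℓ)‖ < 1 := by
  have hfi : (H.subgroupOf P).FiniteIndex := ⟨h0⟩
  have hfin : Finite (P ⧸ H.subgroupOf P) := inferInstance
  have hft : Fintype (P ⧸ H.subgroupOf P) := Fintype.ofFinite _
  -- the indicator functions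
  have hcont : ∀ g : D.Ad, Continuous fun k : D.Ad =>
      (if g⁻¹ * k ∈ U ⊔ H then 1 else 0 : PadicAlgCl ℓ) := by
    intro g
    have hcl : IsClopen {k : D.Ad | g⁻¹ * k ∈ U ⊔ H} := by
      have h1 : IsClopen ((U ⊔ H : Subgroup D.Ad) : Set D.Ad) :=
        ⟨Subgroup.isClosed_of_isOpen _ hH.isOpen, hH.isOpen⟩
      exact h1.preimage (continuous_const.mul continuous_id)
    refine continuous_if ?_ continuous_const.continuousOn continuous_const.continuousOn
    intro a ha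
    rw [hcl.frontier_eq] at ha
    exact absurd ha (Set.notMem_empty a)
  have hex : ∀ s : P ⧸ H.subgroupOf P, ∃ p ∈ polySub D, ∀ k ∈ P,
      ‖ι (p (1 * (Hh.hat D k)⁻¹ * 1)) -
        (if ((Quotient.out s : P) : D.Ad)⁻¹ * k ∈ U ⊔ H then 1 else 0 : PadicAlgCl ℓ)‖ ≤ 1 / 2 :=
    fun s => dense_deep Hh hU hP (isDeep_poly ℓ D) 1 1 _ (hcont _) (1 / 2) (by norm_num)
  choose p hp hpk using hex
  have hex2 : ∀ s, ∃ d, p s ∈ polyLE D d := fun s => exists_polyLE (hp s)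
  choose d hd using hex2
  refine ⟨Finset.univ.sup d, fun y c x =>
    if hc : c ∈ P then p (QuotientGroup.mk ⟨c, hc⟩) (y⁻¹ * x) else 0, ?_, ?_⟩
  · intro y c
    by_cases hc : c ∈ P
    · simp only [dif_pos hc]
      exact polyLE_mono (Finset.le_sup (Finset.mem_univ _)) (polyLE_trans_left (hd _) y⁻¹)
    · simp only [dif_neg hc]
      exact Submodule.zero_mem _
  · intro y c hc k hk
    simp only [dif_pos hc]
    set s : P ⧸ H.subgroupOf P := QuotientGroup.mk ⟨c, hc⟩ with hs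
    have h1 := hpk s k hk
    rw [one_mul, mul_one] at h1
    have h2 : y⁻¹ * (y * (Hh.hat D k)⁻¹) = (Hh.hat D k)⁻¹ := inv_mul_cancel_left _ _
    rw [h2]
    have h3 : ((Quotient.out s : P) : D.Ad)⁻¹ * c ∈ H := by
      have h4 : (Quotient.out s : P)⁻¹ * ⟨c, hc⟩ ∈ H.subgroupOf P := by
        rw [← QuotientGroup.eq]
        exact QuotientGroup.out_eq' s
      exact h4
    have h5 : ((Quotient.out s : P) : D.Ad)⁻¹ * k ∈ U ⊔ H ↔ c⁻¹ * k ∈ H := by
      constructor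
      · intro h6
        have h7 := mem_of_mem_sup hU hP hH (P.mul_mem (P.inv_mem (Quotient.out s : P).2) hk) h6
        have h8 := H.mul_mem (H.inv_mem h3) h7
        have h9 : (((Quotient.out s : P) : D.Ad)⁻¹ * c)⁻¹ * (((Quotient.out s : P) : D.Ad)⁻¹ * k)
            = c⁻¹ * k := by group
        rwa [h9] at h8
      · intro h6
        have h8 := H.mul_mem h3 h6
        have h9 : (((Quotient.out s : P) : D.Ad)⁻¹ * c) * (c⁻¹ * k)
            = ((Quotient.out s : P) : D.Ad)⁻¹ * k := by group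
        rw [h9] at h8
        exact Subgroup.mem_sup_right h8
    simp only [h5] at h1
    exact h1.trans_lt (by norm_num)

theorem poly_max (Hh : HatData F ℓ ι) (hU : IsTame ℓ U) {P : Subgroup D.Ad} (hP : IsLevel ℓ U P)
    {q : D.Cpx → ℂ} (hq : q ∈ polySub D) (y : D.Cpx) :
    ∃ p₀ ∈ P, ∀ p ∈ P, ‖ι (q (y * (Hh.hat D p)⁻¹))‖ ≤ ‖ι (q (y * (Hh.hat D p₀)⁻¹))‖ := by
  have hc := (continuous_eval Hh hq y 1).norm
  simp only [mul_one] at hc
  obtain ⟨k, hk, hmax⟩ := (isCompact_of_isLevel hU hP).exists_isMaxOn ⟨1, P.one_mem⟩ hc.continuousOn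
  exact ⟨k, hk, fun p hp => hmax hp⟩

theorem poly_small (Hh : HatData F ℓ ι) (hU : IsTame ℓ U) {P : Subgroup D.Ad} (hP : IsLevel ℓ U P)
    {K : ℕ → Subgroup D.Ad} (hsmall : ∀ W : Subgroup D.Ad, IsOpen (W : Set D.Ad) → ∃ s, K s ≤ W)
    {q : D.Cpx → ℂ} (hq : q ∈ polySub D) (y : D.Cpx) :
    ∃ t, ∀ p ∈ P, ∀ x ∈ K t, ‖ι (q (y * (Hh.hat D (p * x))⁻¹)) - ι (q (y * (Hh.hat D p)⁻¹))‖ < 1 := by
  have hc := continuous_eval Hh hq y 1
  simp only [mul_one] at hc
  obtain ⟨φ, hφ⟩ : ∃ φ : D.Ad → PadicAlgCl ℓ, ∀ g, φ g = ι (q (y * (Hh.hat D g)⁻¹)) := ⟨_, fun _ => rfl⟩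
  have hφc : Continuous φ := by
    have : φ = fun g => ι (q (y * (Hh.hat D g)⁻¹)) := funext hφ
    rw [this]
    exact hc
  let W : Subgroup D.Ad :=
    { carrier := {x | x ∈ U ⊔ P ∧ ∀ g ∈ U ⊔ P, ‖φ (g * x) - φ g‖ < 1}
      one_mem' := ⟨one_mem _, fun g _ => by rw [mul_one, sub_self, norm_zero]; exact zero_lt_one⟩
      mul_mem' := by
        rintro a b ⟨ha, ha'⟩ ⟨hb, hb'⟩
        refine ⟨mul_mem ha hb, fun g hg => ?_⟩
        have h1 := hb' (g * a) (mul_mem hg ha)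
        have h2 := ha' g hg
        have h3 : φ (g * (a * b)) - φ g = (φ (g * a * b) - φ (g * a)) + (φ (g * a) - φ g) := by
          rw [mul_assoc]; ring
        rw [h3]
        exact (IsUltrametricDist.norm_add_le_max _ _).trans_lt (max_lt h1 h2)
      inv_mem' := by
        rintro a ⟨ha, ha'⟩
        refine ⟨inv_mem ha, fun g hg => ?_⟩
        have h1 := ha' (g * a⁻¹) (mul_mem hg (inv_mem ha))
        rw [inv_mul_cancel_right] at h1
        rwa [norm_sub_rev] }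
  have hWn : (W : Set D.Ad) ∈ nhds (1 : D.Ad) := by
    have h1 : ∀ᶠ x in nhds (1 : D.Ad), x ∈ U ⊔ P :=
      hP.isOpen.mem_nhds (one_mem _)
    have h2 : ∀ᶠ x in nhds (1 : D.Ad), ∀ g ∈ ((U ⊔ P : Subgroup D.Ad) : Set D.Ad),
        ‖φ (g * x) - φ g‖ < 1 := by
      refine hP.isCompact.eventually_forall_of_forall_eventually fun g _ => ?_
      have h3 : Continuous fun z : D.Ad × D.Ad => ‖φ (z.2 * z.1) - φ z.2‖ :=
        ((hφc.comp (continuous_snd.mul continuous_fst)).sub (hφc.comp continuous_snd)).norm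
      refine h3.continuousAt.eventually_lt continuousAt_const ?_
      show ‖φ (g * 1) - φ g‖ < 1
      rw [mul_one, sub_self, norm_zero]
      exact zero_lt_one
    filter_upwards [h1, h2] with x hx hx'
    exact ⟨hx, hx'⟩
  have hWo : IsOpen (W : Set D.Ad) := W.isOpen_of_mem_nhds hWn
  obtain ⟨t, ht⟩ := hsmall W hWo
  refine ⟨t, fun p hp x hx => ?_⟩
  rw [← hφ, ← hφ]
  exact (ht hx).2 p (Subgroup.mem_sup_right hp)

end Pool.Agent.Lib.MP_666dc0_nt.PL
end
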