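import Pool.Agent.Lib.MP_666dc0_nt.Mg.G082
import Pool.Agent.Lib.MP_666dc0_nt.WL.C5a
import Pool.Agent.Lib.MP_666dc0_nt.Mg.G078
import Pool.Agent.Lib.MP_666dc0_nt.ZO.X2b
import Pool.Agent.Lib.MP_666dc0_nt.FM.D6
import Pool.Agent.Lib.MP_666dc0_nt.Mg.G090
import Pool.Agent.Lib.MP_666dc0_nt.Mg.G087
import Pool.Agent.Lib.MP_666dc0_nt.PL.Z3

section

/-!
# PL, LDefs: stabilisers (complete, NOT a task)
-/

open NumberField IsDedekindDomain
open scoped NumberField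

namespace Pool.Agent.Lib.MP_666dc0_nt.PL

open WL ZO

variable {F : Type} [Field F] [NumberField F] {n : ℕ} {D : Datum F n} {ℓ : ℕ} {U : Subgroup D.Ad}

/-- Elements of `U` commute with those of a level at `ℓ`. -/
theorem comm_of_level (hU : IsTame ℓ U) {P : Subgroup D.Ad} (hP : IsLevel ℓ U P) {u p : D.Ad} (hu : u ∈ U)
    (hp : p ∈ P) : u * p = p * u := by
  apply mul_comm_of_disjoint
  intro v
  by_cases hv : (ℓ : 𝓞 F) ∈ v.asIdeal
  · exact Or.inl (hU u hu v hv)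
  · exact Or.inr (hP.supp p hp v hv)

/-- The stabiliser in `P` of the class of `g` in `G(F) \ G(𝔸_f) / U`. -/
def stab (hU : IsTame ℓ U) {P : Subgroup D.Ad} (hP : IsLevel ℓ U P) (g : D.Ad) : Subgroup D.Ad where
  carrier := {p | p ∈ P ∧ ∃ γ : D.Rat, ∃ u ∈ U, D.toAd γ * g = g * u * p}
  mul_mem' := by
    rintro p p' ⟨hp, γ, u, hu, h⟩ ⟨hp', γ', u', hu', h'⟩
    refine ⟨P.mul_mem hp hp', γ * γ', u * u', U.mul_mem hu hu', ?_⟩
    rw [map_mul, mul_assoc, h', ← mul_assoc, ← mul_assoc, h]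
    have h1 : p * u' = u' * p := (comm_of_level hU hP hu' hp).symm
    calc g * u * p * u' * p' = g * u * (p * u') * p' := by group
      _ = g * u * (u' * p) * p' := by rw [h1]
      _ = g * (u * u') * (p * p') := by group
  one_mem' := ⟨P.one_mem, 1, 1, U.one_mem, by rw [map_one]; group⟩
  inv_mem' := by
    rintro p ⟨hp, γ, u, hu, h⟩
    refine ⟨P.inv_mem hp, γ⁻¹, u⁻¹, U.inv_mem hu, ?_⟩
    have h1 : u * p = p * u := comm_of_level hU hP hu hp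
    have h2 : g = D.toAd γ⁻¹ * (g * u * p) := by
      rw [← h, ← mul_assoc, ← map_mul, inv_mul_cancel, map_one, one_mul]
    have h3 : D.toAd γ⁻¹ * g = g * (u * p)⁻¹ := by
      rw [eq_mul_inv_iff_mul_eq, mul_assoc, ← mul_assoc g u p, ← h2]
    rw [h3, h1, mul_inv_rev, mul_assoc]

theorem mem_stab {hU : IsTame ℓ U} {P : Subgroup D.Ad} {hP : IsLevel ℓ U P} {g p : D.Ad} :
    p ∈ stab hU hP g ↔ p ∈ P ∧ ∃ γ : D.Rat, ∃ u ∈ U, D.toAd γ * g = g * u * p := Iff.rfl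

theorem stab_le (hU : IsTame ℓ U) {P : Subgroup D.Ad} (hP : IsLevel ℓ U P) (g : D.Ad) : stab hU hP g ≤ P :=
  fun _ h => h.1

/-- The points `x i` represent the classes in `G(F) \ G(𝔸_f) / U P`, each exactly once. -/
structure IsReps (U P : Subgroup D.Ad) {I : Type} (x : I → D.Ad) : Prop where
  surj : ∀ g, ∃ i, ∃ γ : D.Rat, ∃ u ∈ U, ∃ p ∈ P, g = D.toAd γ * x i * u * p
  inj : ∀ i j, ∀ γ : D.Rat, ∀ u ∈ U, ∀ p ∈ P, x j = D.toAd γ * x i * u * p → i = j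

end Pool.Agent.Lib.MP_666dc0_nt.PL
end

section

/-!
# PL, L2: the mass formula

`H ≤ P` is a normal subgroup of finite index `m` with `H ≤ K 0`. The set `Y = R × (K 0 ⧸ H)` is the set of the
classes in `G(F) \ G(𝔸_f) / U H`, by `g ↦ (cls g, kap g H)`. For every `i` the map `P ⧸ H → Y`,
`p H ↦ class of x i p` has fibres with `card (stab (x i))` elements, and `Y` is the disjoint union of the images.
-/

open NumberField IsDedekindDomain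
open scoped NumberField

namespace Pool.Agent.Lib.MP_666dc0_nt.PL

open WL ZO

variable {F : Type} [Field F] [NumberField F] {n : ℕ} {D : Datum F n} {ℓ : ℕ} [Fact ℓ.Prime]
  {U : Subgroup D.Ad} {K : ℕ → Subgroup D.Ad}

section reps

omit [Fact ℓ.Prime]

/-- The relation `g' ∈ G(F) g U P`. -/
def L2_rel (U P : Subgroup D.Ad) (g g' : D.Ad) : Prop :=
  ∃ γ : D.Rat, ∃ u ∈ U, ∃ p ∈ P, g' = D.toAd γ * g * u * p

theorem L2_rel_refl (P : Subgroup D.Ad) (g : D.Ad) : L2_rel U P g g :=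
  ⟨1, 1, U.one_mem, 1, P.one_mem, by rw [map_one, one_mul, mul_one, mul_one]⟩

theorem L2_rel_symm (hU : IsTame ℓ U) {P : Subgroup D.Ad} (hP : IsLevel ℓ U P) {g g' : D.Ad}
    (h : L2_rel U P g g') : L2_rel U P g' g := by
  obtain ⟨γ, u, hu, p, hp, h⟩ := h
  refine ⟨γ⁻¹, u⁻¹, U.inv_mem hu, p⁻¹, P.inv_mem hp, ?_⟩
  have h1 : u * p = p * u := comm_of_level hU hP hu hp
  have h2 : D.toAd γ⁻¹ * g' * u⁻¹ * p⁻¹ = g * (u * p) * u⁻¹ * p⁻¹ := by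
    rw [h, map_inv]
    group
  rw [h2, h1]
  group

theorem L2_rel_trans (hU : IsTame ℓ U) {P : Subgroup D.Ad} (hP : IsLevel ℓ U P) {g g' g'' : D.Ad}
    (h : L2_rel U P g g') (h' : L2_rel U P g' g'') : L2_rel U P g g'' := by
  obtain ⟨γ, u, hu, p, hp, h⟩ := h
  obtain ⟨γ', u', hu', p', hp', h'⟩ := h'
  refine ⟨γ' * γ, u * u', U.mul_mem hu hu', p * p', P.mul_mem hp hp', ?_⟩
  have h1 : u' * p = p * u' := comm_of_level hU hP hu' hp
  rw [h', h, map_mul]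
  calc D.toAd γ' * (D.toAd γ * g * u * p) * u' * p' = D.toAd γ' * D.toAd γ * g * u * (p * u') * p' := by group
    _ = D.toAd γ' * D.toAd γ * g * u * (u' * p) * p' := by rw [h1]
    _ = D.toAd γ' * D.toAd γ * g * (u * u') * (p * p') := by group

theorem exists_reps [IsTotallyReal F] (hD : IsTotPosDef D.q) (hU : IsTame ℓ U) {P : Subgroup D.Ad}
    (hP : IsLevel ℓ U P) : ∃ (I : Type) (_ : Fintype I) (x : I → D.Ad), IsReps U P x := by
  obtain ⟨X, hX⟩ := exists_finite_reps hD (U ⊔ P) hP.isOpen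
  let st : Setoid D.Ad := ⟨L2_rel U P, ⟨L2_rel_refl P, L2_rel_symm hU hP, L2_rel_trans hU hP⟩⟩
  have hfin : Finite (Quotient st) := by
    refine Finite.of_surjective (fun y : X => (Quotient.mk st y.1)) ?_
    intro q
    obtain ⟨g, rfl⟩ := Quotient.exists_rep q
    obtain ⟨γ, y, hy, k, hk, h⟩ := hX g
    obtain ⟨u, hu, p, hp, hup⟩ := (mem_sup_iff hU hP.supp).1 hk
    refine ⟨⟨y, hy⟩, Quotient.sound ?_⟩
    exact ⟨γ, u, hu, p, hp, by rw [h, hup, mul_assoc (D.toAd γ * y)]⟩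
  refine ⟨Quotient st, Fintype.ofFinite _, Quotient.out, ?_, ?_⟩
  · intro g
    have h1 : L2_rel U P (Quotient.mk st g).out g := Quotient.exact (Quotient.out_eq (Quotient.mk st g))
    obtain ⟨γ, u, hu, p, hp, h⟩ := h1
    exact ⟨Quotient.mk st g, γ, u, hu, p, hp, h⟩
  · intro i j γ u hu p hp h
    have h1 : Quotient.mk st i.out = Quotient.mk st j.out := Quotient.sound ⟨γ, u, hu, p, hp, h⟩
    rwa [Quotient.out_eq, Quotient.out_eq] at h1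

/-- The class of `g` in `G(F) \ G(𝔸_f) / U H`. -/
noncomputable def L2_cl (c : Chart U K) (H : Subgroup D.Ad) (g : D.Ad) : c.R × (K 0 ⧸ H.subgroupOf (K 0)) :=
  (c.cls g, QuotientGroup.mk (c.kap g))

theorem L2_cl_mul (c : Chart U K) {H : Subgroup D.Ad} (hHK : H ≤ K 0) (g : D.Ad) {h : D.Ad} (hh : h ∈ H) :
    L2_cl c H (g * h) = L2_cl c H g := by
  have h1 : c.cls (g * h) = c.cls g := c.cls_right g h (Subgroup.mem_sup_right (hHK hh))
  have h2 : c.kap (g * h) = c.kap g * ⟨h, hHK hh⟩ := c.kap_mul g ⟨h, hHK hh⟩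
  have h3 : (QuotientGroup.mk (c.kap (g * h)) : K 0 ⧸ H.subgroupOf (K 0)) = QuotientGroup.mk (c.kap g) := by
    rw [h2]
    exact QuotientGroup.mk_mul_of_mem _ (Subgroup.mem_subgroupOf.2 hh)
  rw [L2_cl, L2_cl, h1, h3]

theorem L2_cl_left (c : Chart U K) (H : Subgroup D.Ad) (γ : D.Rat) (g : D.Ad) {u : D.Ad} (hu : u ∈ U) :
    L2_cl c H (D.toAd γ * g * u) = L2_cl c H g := by
  rw [L2_cl, L2_cl, c.cls_right _ _ (Subgroup.mem_sup_left hu), c.cls_left, c.kap_tame _ _ hu, c.kap_left]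

theorem L2_cl_eq (c : Chart U K) (hU : IsTame ℓ U) (hK0 : IsLevel ℓ U (K 0)) {H : Subgroup D.Ad} {g g' : D.Ad}
    (h : L2_cl c H g = L2_cl c H g') : ∃ γ : D.Rat, ∃ u ∈ U, ∃ k ∈ H, g' = D.toAd γ * g * u * k := by
  rw [L2_cl, L2_cl, Prod.mk.injEq] at h
  obtain ⟨h1, h2⟩ := h
  rw [QuotientGroup.eq, Subgroup.mem_subgroupOf] at h2
  obtain ⟨γ, u, hu, hg⟩ := c.decomp g
  obtain ⟨γ', u', hu', hg'⟩ := c.decomp g'
  rw [← h1] at hg'
  have h3 : (c.kap g : D.Ad)⁻¹ * c.kap g' ∈ H := h2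
  refine ⟨γ' * γ⁻¹, u⁻¹ * u', U.mul_mem (U.inv_mem hu) hu', (c.kap g : D.Ad)⁻¹ * c.kap g', h3, ?_⟩
  have h4 : (u⁻¹ * u') * (c.kap g : D.Ad)⁻¹ = (c.kap g : D.Ad)⁻¹ * (u⁻¹ * u') :=
    comm_of_level hU hK0 (U.mul_mem (U.inv_mem hu) hu') ((K 0).inv_mem (c.kap g).2)
  have h5 : c.pt (c.cls g) = D.toAd γ⁻¹ * g * (c.kap g : D.Ad)⁻¹ * u⁻¹ := by
    have h6 : D.toAd γ * c.pt (c.cls g) * u * (c.kap g : D.Ad) = g := hg.symm
    rw [map_inv]
    calc c.pt (c.cls g) = (D.toAd γ)⁻¹ * (D.toAd γ * c.pt (c.cls g) * u * (c.kap g : D.Ad)) *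
          (c.kap g : D.Ad)⁻¹ * u⁻¹ := by group
      _ = (D.toAd γ)⁻¹ * g * (c.kap g : D.Ad)⁻¹ * u⁻¹ := by rw [h6]
  calc g' = D.toAd γ' * c.pt (c.cls g) * u' * (c.kap g' : D.Ad) := hg'
    _ = D.toAd γ' * (D.toAd γ⁻¹ * g * (c.kap g : D.Ad)⁻¹ * u⁻¹) * u' * (c.kap g' : D.Ad) := by rw [h5]
    _ = D.toAd γ' * D.toAd γ⁻¹ * g * ((c.kap g : D.Ad)⁻¹ * (u⁻¹ * u')) * (c.kap g' : D.Ad) := by group
    _ = D.toAd γ' * D.toAd γ⁻¹ * g * ((u⁻¹ * u') * (c.kap g : D.Ad)⁻¹) * (c.kap g' : D.Ad) := by rw [h4]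
    _ = D.toAd (γ' * γ⁻¹) * g * (u⁻¹ * u') * ((c.kap g : D.Ad)⁻¹ * (c.kap g' : D.Ad)) := by
        rw [map_mul]
        group

/-- The map `P ⧸ H → Y`, `p H ↦ class of x p`. -/
noncomputable def L2_f (c : Chart U K) {H : Subgroup D.Ad} (hHK : H ≤ K 0) (P : Subgroup D.Ad) (x : D.Ad) :
    P ⧸ H.subgroupOf P → c.R × (K 0 ⧸ H.subgroupOf (K 0)) :=
  Quotient.lift (fun p : P => L2_cl c H (x * p)) (by
    intro p p' h
    have h1 : p⁻¹ * p' ∈ H.subgroupOf P := QuotientGroup.leftRel_apply.1 h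
    rw [Subgroup.mem_subgroupOf] at h1
    have h2 : (x * (p' : D.Ad)) = x * p * ((p⁻¹ * p' : P) : D.Ad) := by
      rw [Subgroup.coe_mul, InvMemClass.coe_inv]
      group
    show L2_cl c H (x * p) = L2_cl c H (x * p')
    rw [h2, L2_cl_mul c hHK _ h1])

theorem L2_f_mk (c : Chart U K) {H : Subgroup D.Ad} (hHK : H ≤ K 0) (P : Subgroup D.Ad) (x : D.Ad) (p : P) :
    L2_f c hHK P x (QuotientGroup.mk p) = L2_cl c H (x * p) := rfl

end reps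

/-- `stab g ⊓ H = 1`. -/
theorem L2_free [IsTotallyReal F] (hD : IsTotPosDef D.q) (ι : ℂ ≃+* PadicAlgCl ℓ) (hU : IsTame ℓ U)
    (hK : IsTow ℓ U K) {P H : Subgroup D.Ad} (hP : IsLevel ℓ U P) (hHK : H ≤ K 0) {g σ : D.Ad}
    (hσ : σ ∈ stab hU hP g) (hσH : σ ∈ H) : σ = 1 := by
  obtain ⟨hσP, γ, u, hu, h⟩ := hσ
  have h1 : g⁻¹ * D.toAd γ * g ∈ U ⊔ K 0 := by
    have h2 : g⁻¹ * D.toAd γ * g = u * σ := by
      rw [mul_assoc, h]
      group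
    rw [h2]
    exact Subgroup.mul_mem_sup hu (hHK hσH)
  have h3 := free_of_isUniform hD ι hU hK g γ h1
  rw [h3, map_one, one_mul] at h
  have h4 : u * σ = 1 := by
    have h5 : g * (u * σ) = g * 1 := by rw [mul_one, ← mul_assoc, ← h]
    exact mul_left_cancel h5
  refine eq_one_of_trivialAt fun v => ?_
  by_cases hv : (ℓ : 𝓞 F) ∈ v.asIdeal
  · have h6 : σ = u⁻¹ := eq_inv_of_mul_eq_one_right h4
    rw [h6]
    exact (hU u hu v hv).inv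
  · exact hP.supp σ hσP v hv

open Classical in
theorem mass [IsTotallyReal F] (hD : IsTotPosDef D.q) (ι : ℂ ≃+* PadicAlgCl ℓ) (hU : IsTame ℓ U)
    (hK : IsTow ℓ U K) (c : Chart U K) {P H : Subgroup D.Ad} (hP : IsLevel ℓ U P) (hHP : H ≤ P) (hHK : H ≤ K 0)
    (hn : ∀ p ∈ P, ∀ h ∈ H, p * h * p⁻¹ ∈ H) (h0 : H.relIndex P ≠ 0) (h0' : H.relIndex (K 0) ≠ 0)
    {I : Type} [Fintype I] {x : I → D.Ad} (hx : IsReps U P x) :
    (∀ i, Finite (stab hU hP (x i))) ∧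
      ∑ i, (H.relIndex P : ℝ) / Nat.card (stab hU hP (x i)) = Fintype.card c.R * H.relIndex (K 0) := by
  have hfi : (H.subgroupOf P).FiniteIndex := ⟨h0⟩
  have hfi' : (H.subgroupOf (K 0)).FiniteIndex := ⟨h0'⟩
  have hfin : Finite (P ⧸ H.subgroupOf P) := inferInstance
  have hfin' : Finite (K 0 ⧸ H.subgroupOf (K 0)) := inferInstance
  have : Fintype (P ⧸ H.subgroupOf P) := Fintype.ofFinite _
  have : Fintype (K 0 ⧸ H.subgroupOf (K 0)) := Fintype.ofFinite _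
  -- the action of the stabiliser on the cosets
  let act : ∀ i, stab hU hP (x i) → P ⧸ H.subgroupOf P → P ⧸ H.subgroupOf P := fun i σ a =>
    (⟨σ.1, stab_le hU hP (x i) σ.2⟩ : P) • a
  have hact : ∀ i (σ : stab hU hP (x i)) (p : P), act i σ (QuotientGroup.mk p) =
      QuotientGroup.mk ((⟨σ.1, stab_le hU hP (x i) σ.2⟩ : P) * p) := fun i σ p => rfl
  have hfree : ∀ i (a : P ⧸ H.subgroupOf P), Function.Injective fun σ => act i σ a := by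
    intro i a σ σ' h
    obtain ⟨p, rfl⟩ := QuotientGroup.mk_surjective a
    simp only [hact] at h
    rw [QuotientGroup.eq, Subgroup.mem_subgroupOf] at h
    have h1 : (p : D.Ad)⁻¹ * (σ.1⁻¹ * σ'.1) * p ∈ H := by
      have h2 : (((⟨σ.1, stab_le hU hP (x i) σ.2⟩ : P) * p)⁻¹ * ((⟨σ'.1, stab_le hU hP (x i) σ'.2⟩ : P) * p) : P).1 =
          (p : D.Ad)⁻¹ * (σ.1⁻¹ * σ'.1) * p := by
        simp only [Subgroup.coe_mul, InvMemClass.coe_inv, mul_inv_rev]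
        group
      rw [← h2]
      exact h
    have h3 : σ.1⁻¹ * σ'.1 ∈ H := by
      have h4 := hn p p.2 _ h1
      have h5 : (p : D.Ad) * ((p : D.Ad)⁻¹ * (σ.1⁻¹ * σ'.1) * p) * (p : D.Ad)⁻¹ = σ.1⁻¹ * σ'.1 := by group
      rwa [h5] at h4
    have h6 := L2_free hD ι hU hK hP hHK ((stab hU hP (x i)).mul_mem ((stab hU hP (x i)).inv_mem σ.2) σ'.2) h3
    exact Subtype.ext (inv_mul_eq_one.1 h6)
  have hfs : ∀ i, Finite (stab hU hP (x i)) := fun i => Finite.of_injective _ (hfree i (QuotientGroup.mk 1))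
  refine ⟨hfs, ?_⟩
  have hK0 := hK.level 0
  -- the fibres
  have hsame : ∀ i (σ : stab hU hP (x i)) (a : P ⧸ H.subgroupOf P),
      L2_f c hHK P (x i) (act i σ a) = L2_f c hHK P (x i) a := by
    intro i σ a
    obtain ⟨p, rfl⟩ := QuotientGroup.mk_surjective a
    rw [hact, L2_f_mk, L2_f_mk]
    obtain ⟨hσP, γ, u, hu, h⟩ := σ.2
    have h1 : x i * σ.1 = D.toAd γ * x i * u⁻¹ := by
      have h2 : u * σ.1 = σ.1 * u := comm_of_level hU hP hu hσP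
      rw [h, mul_assoc (x i), h2]
      group
    have h3 : x i * (((⟨σ.1, stab_le hU hP (x i) σ.2⟩ : P) * p : P) : D.Ad) = D.toAd γ * (x i * p) * u⁻¹ := by
      rw [Subgroup.coe_mul, ← mul_assoc]
      change x i * σ.1 * (p : D.Ad) = _
      have h4 : u⁻¹ * (p : D.Ad) = (p : D.Ad) * u⁻¹ := comm_of_level hU hP (U.inv_mem hu) p.2
      rw [h1, mul_assoc (D.toAd γ * x i), h4]
      group
    rw [h3, L2_cl_left c H γ _ (U.inv_mem hu)]
  have hback : ∀ i j (a b : P ⧸ H.subgroupOf P), L2_f c hHK P (x i) a = L2_f c hHK P (x j) b → i = j := by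
    intro i j a b h
    obtain ⟨p, rfl⟩ := QuotientGroup.mk_surjective a
    obtain ⟨p', rfl⟩ := QuotientGroup.mk_surjective b
    rw [L2_f_mk, L2_f_mk] at h
    obtain ⟨γ, u, hu, k, hk, h⟩ := L2_cl_eq c hU hK0 h
    refine hx.inj i j γ u hu (p * k * (p' : D.Ad)⁻¹) (P.mul_mem (P.mul_mem p.2 (hHP hk)) (P.inv_mem p'.2)) ?_
    have h1 : u * (p : D.Ad) = (p : D.Ad) * u := comm_of_level hU hP hu p.2
    calc x j = x j * p' * (p' : D.Ad)⁻¹ := by group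
      _ = D.toAd γ * (x i * p) * u * k * (p' : D.Ad)⁻¹ := by rw [h]
      _ = D.toAd γ * x i * (p * u) * k * (p' : D.Ad)⁻¹ := by group
      _ = D.toAd γ * x i * (u * p) * k * (p' : D.Ad)⁻¹ := by rw [h1]
      _ = D.toAd γ * x i * u * (p * k * (p' : D.Ad)⁻¹) := by group
  have hback2 : ∀ i (a b : P ⧸ H.subgroupOf P), L2_f c hHK P (x i) a = L2_f c hHK P (x i) b →
      ∃ σ : stab hU hP (x i), act i σ a = b := by
    intro i a b h
    obtain ⟨p, rfl⟩ := QuotientGroup.mk_surjective a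
    obtain ⟨p', rfl⟩ := QuotientGroup.mk_surjective b
    rw [L2_f_mk, L2_f_mk] at h
    obtain ⟨γ, u, hu, k, hk, h⟩ := L2_cl_eq c hU hK0 h
    have h1 : u * (p : D.Ad) = (p : D.Ad) * u := comm_of_level hU hP hu p.2
    have hP' : (p' : D.Ad) * k⁻¹ * (p : D.Ad)⁻¹ ∈ P := P.mul_mem (P.mul_mem p'.2 (P.inv_mem (hHP hk))) (P.inv_mem p.2)
    have h2 : D.toAd γ * x i = x i * u⁻¹ * ((p' : D.Ad) * k⁻¹ * (p : D.Ad)⁻¹) := by
      have h3 : u⁻¹ * ((p' : D.Ad) * k⁻¹ * (p : D.Ad)⁻¹) = ((p' : D.Ad) * k⁻¹ * (p : D.Ad)⁻¹) * u⁻¹ :=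
        comm_of_level hU hP (U.inv_mem hu) hP'
      rw [mul_assoc (x i), h3]
      calc D.toAd γ * x i = (D.toAd γ * (x i * p) * u * k) * k⁻¹ * u⁻¹ * (p : D.Ad)⁻¹ := by group
        _ = x i * p' * k⁻¹ * (u⁻¹ * (p : D.Ad)⁻¹) := by
            rw [← h]
            group
        _ = x i * p' * k⁻¹ * ((p : D.Ad)⁻¹ * u⁻¹) := by
            rw [show u⁻¹ * (p : D.Ad)⁻¹ = (p : D.Ad)⁻¹ * u⁻¹ from
              comm_of_level hU hP (U.inv_mem hu) (P.inv_mem p.2)]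
        _ = x i * ((p' : D.Ad) * k⁻¹ * (p : D.Ad)⁻¹ * u⁻¹) := by group
    refine ⟨⟨(p' : D.Ad) * k⁻¹ * (p : D.Ad)⁻¹, hP', γ, u⁻¹, U.inv_mem hu, h2⟩, ?_⟩
    rw [hact, QuotientGroup.eq, Subgroup.mem_subgroupOf]
    have h4 : (((⟨(p' : D.Ad) * k⁻¹ * (p : D.Ad)⁻¹, hP'⟩ : P) * p)⁻¹ * p' : P).1 = k := by
      simp only [Subgroup.coe_mul, InvMemClass.coe_inv, mul_inv_rev]
      group
    have h5 : ((((⟨(p' : D.Ad) * k⁻¹ * (p : D.Ad)⁻¹, hP'⟩ : P) * p)⁻¹ * p' : P) : D.Ad) ∈ H := by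
      rw [h4]
      exact hk
    exact h5
  -- the cardinality of the fibres
  have hfib : ∀ i (b : P ⧸ H.subgroupOf P),
      (Finset.univ.filter fun a => L2_f c hHK P (x i) a = L2_f c hHK P (x i) b).card =
        Nat.card (stab hU hP (x i)) := by
    intro i b
    haveI := hfs i
    haveI : Fintype (stab hU hP (x i)) := Fintype.ofFinite _
    rw [Nat.card_eq_fintype_card, ← Finset.card_univ]
    symm
    refine Finset.card_bij (fun σ _ => act i σ b) ?_ ?_ ?_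
    · intro σ _
      exact Finset.mem_filter.2 ⟨Finset.mem_univ _, hsame i σ b⟩
    · intro σ _ σ' _ h
      exact hfree i b h
    · intro a ha
      obtain ⟨σ, hσ⟩ := hback2 i b a (Finset.mem_filter.1 ha).2.symm
      exact ⟨σ, Finset.mem_univ _, hσ⟩
  have hcard : ∀ i, H.relIndex P =
      (Finset.univ.image (L2_f c hHK P (x i))).card * Nat.card (stab hU hP (x i)) := by
    intro i
    have h1 : H.relIndex P = Fintype.card (P ⧸ H.subgroupOf P) := by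
      rw [Subgroup.relIndex, Subgroup.index, Nat.card_eq_fintype_card]
    rw [h1, ← Finset.card_univ, Finset.card_eq_sum_card_image (L2_f c hHK P (x i)), ← smul_eq_mul,
      ← Finset.sum_const]
    refine Finset.sum_congr rfl fun y hy => ?_
    obtain ⟨b, -, rfl⟩ := Finset.mem_image.1 hy
    exact hfib i b
  have huniv : (Finset.univ : Finset (c.R × (K 0 ⧸ H.subgroupOf (K 0)))) =
      Finset.univ.biUnion fun i => Finset.univ.image (L2_f c hHK P (x i)) := by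
    symm
    rw [Finset.eq_univ_iff_forall]
    rintro ⟨r, y⟩
    obtain ⟨k, rfl⟩ := QuotientGroup.mk_surjective y
    have h1 : L2_cl c H (c.pt r * k) = (r, QuotientGroup.mk k) := by
      rw [L2_cl, c.cls_right _ _ (Subgroup.mem_sup_right k.2), c.cls_pt, c.kap_mul, c.kap_pt, one_mul]
    obtain ⟨i, γ, u, hu, p, hp, h⟩ := hx.surj (c.pt r * k)
    refine Finset.mem_biUnion.2 ⟨i, Finset.mem_univ _, Finset.mem_image.2
      ⟨QuotientGroup.mk ⟨p, hp⟩, Finset.mem_univ _, ?_⟩⟩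
    rw [L2_f_mk, ← h1, h]
    have h2 : D.toAd γ * x i * u * p = D.toAd γ * (x i * p) * u := by
      have h3 : u * p = p * u := comm_of_level hU hP hu hp
      rw [mul_assoc (D.toAd γ * x i), h3]
      group
    rw [h2, L2_cl_left c H γ _ hu]
  have hsum : (∑ i, (Finset.univ.image (L2_f c hHK P (x i))).card) = Fintype.card c.R * H.relIndex (K 0) := by
    rw [← Finset.card_biUnion, ← huniv, Finset.card_univ, Fintype.card_prod]
    · rw [Subgroup.relIndex, Subgroup.index, Nat.card_eq_fintype_card]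
    · intro i _ j _ hij
      rw [Function.onFun, Finset.disjoint_left]
      intro y hy hy'
      obtain ⟨a, -, ha⟩ := Finset.mem_image.1 hy
      obtain ⟨b, -, hb⟩ := Finset.mem_image.1 hy'
      exact hij (hback i j a b (ha.trans hb.symm))
  rw [← Nat.cast_mul, ← hsum, Nat.cast_sum]
  refine Finset.sum_congr rfl fun i _ => ?_
  have h1 : (Nat.card (stab hU hP (x i)) : ℝ) ≠ 0 := by
    haveI := hfs i
    exact_mod_cast (Nat.card_pos (α := stab hU hP (x i))).ne'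
  rw [div_eq_iff h1]
  exact_mod_cast hcard i

end Pool.Agent.Lib.MP_666dc0_nt.PL
end

section

/-!
TASK M3. The coordinates of the evaluations of forms are killed by the rows.

By linearity (`Submodule.span_induction`, `KB` is a subspace, `ev` is semilinear: `ev y (a • f) = ι a • ev y f`) let `f` be
an eigenform of level `U ⊔ J` with the system `lam`, `q lam`, `f ≠ 0` (`lam ∈ AllSys`), `x = ⟨lam, _⟩`, and
`i = ⟨(0, J, Q), hJ, hJK, hQ⟩ : MIx ℓ U K`. `exists_toV` (`ZO/Q3.lean`) for `κ.gb i`, the tower `tow K J` (level `tow K J 1 = J`) gives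
`Φ ∈ VF U (tow K J) (κ.ρ i) 1` with `ι (f g x) = ∑ j, Φ g j * ι (q j (x * ĝ))`, so `ev y f g = ∑ j, Φ g j * ι (q j y)`.
Its coordinates `w = κ.E i Φ = coordW ..`, `w r k = Φ (pt r * k)`, are in `κ.Vi i x` (`mem_V`, `toV_eigen` of `ZO/Q3a.lean`),
so `mact i Y w = 0`. Component `j`: `(κ.act i a Φ').1 x j = (uact 𝒬 a (coW _ _ j Φ')).1 x` (`IsAct.isLm` of `FM/B2c.lean`,
`isLm_uact`, `IsLm.unique`). So `Ψ r = ∑ j, ι (q j y) • coW _ _ j (w r)` satisfies `∑ r, uact (Y p r) (Ψ r) = 0`.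
-/

open NumberField IsDedekindDomain
open scoped NumberField

namespace Pool.Agent.Lib.MP_666dc0_nt.PL

open WL ZO FM

variable {F : Type} [Field F] [NumberField F] {n : ℕ} {D : Datum F n} {ℓ : ℕ} [Fact ℓ.Prime]
  {S : Finset (HeightOneSpectrum (𝓞 F))} {U : Subgroup D.Ad} {K : ℕ → Subgroup D.Ad} {d : ℕ}
  {ι : ℂ ≃+* PadicAlgCl ℓ}

/-- Rows which kill a vector in the spaces `WI` kill the combinations of its coordinates. -/
theorem sum_uact_coW {𝒯 : UTow ℓ d} {G : Type} [Group G] {𝒬 : QTow 𝒯 G} {J : Subgroup G}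
    (hJ : ∃ s, ∀ x, 𝒬.q s x = 1 → x ∈ J) {w : ℕ} {ρ : G →* Matrix (Fin w) (Fin w) (PadicAlgCl ℓ)}
    (hρ : IsSmall 𝒬 ρ) {act : 𝒯.La →+* Module.End (PadicAlgCl ℓ) (WI J ρ)} (hact : IsAct 𝒬 J ρ act)
    {R : Type} [Fintype R] (Y : R → 𝒯.La) (v : R → WI J ρ) (h0 : ∑ r, act (Y r) (v r) = 0)
    (a : Fin w → PadicAlgCl ℓ) : ∑ r, uact 𝒬 (Y r) (∑ j, a j • coW hJ hρ j (v r)) = 0 := by
  have key : ∀ (b : 𝒯.La) (Φ : WI J ρ) (j : Fin w) (x : G),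
      (uact 𝒬 b (coW hJ hρ j Φ)).1 x = (act b Φ).1 x j := fun b Φ j x =>
    congrFun ((isLm_uact 𝒬 b (coW hJ hρ j Φ)).unique (hact.isLm b Φ j)) x
  have h1 : ∀ j, ∑ r, uact 𝒬 (Y r) (coW hJ hρ j (v r)) = 0 := by
    intro j
    refine Subtype.ext (funext fun x => ?_)
    rw [Submodule.coe_sum, Finset.sum_apply]
    have h2 := congrArg (fun Φ : WI J ρ => Φ.1 x j) h0
    simp only [Submodule.coe_sum, Finset.sum_apply] at h2
    rw [Finset.sum_congr rfl fun r _ => key (Y r) (v r) j x, h2]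
    rfl
  simp only [map_sum, map_smul]
  rw [Finset.sum_comm]
  refine Finset.sum_eq_zero fun j _ => ?_
  rw [← Finset.smul_sum, h1, smul_zero]

theorem ev_mem_KB [IsTotallyReal F]
    (hSl : ∀ v : HeightOneSpectrum (𝓞 F), (ℓ : 𝓞 F) ∈ v.asIdeal → v ∈ S)
    (hUS : ∀ v, v ∉ S → IsGoodAt U v) (κ : Ctx ℓ U K d ι) {q : (∀ v, Hecke U v → ℂ) → Prop} {m : ℕ}
    (Y : Fin m → κ.c.R → κ.𝒯.La)
    (hY : ∀ x : {e : ∀ v, Hecke U v → ℂ // e ∈ AllSys ℓ S U}, q x.1 → ∀ i : MIx ℓ U K, ∀ w ∈ κ.Vi i x,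
        κ.fam.mact i (Matrix.of Y) w = 0)
    {J : Subgroup D.Ad} (hJ : IsLevel ℓ U J) (hJK : J ≤ K 0) {Q : Submodule ℂ (D.Cpx → ℂ)} (hQ : IsWeight D Q)
    {f : D.Ad → D.Cpx → ℂ} (hf : f ∈ espan S Q (U ⊔ J) q) (y : D.Cpx) :
    (fun z : κ.c.R × K 0 => κ.H.ev y f (κ.c.pt z.1 * (z.2 : D.Ad))) ∈ KB κ.𝒬 Y := by
  refine Submodule.span_induction (p := fun f _ =>
    (fun z : κ.c.R × K 0 => κ.H.ev y f (κ.c.pt z.1 * (z.2 : D.Ad))) ∈ KB κ.𝒬 Y) ?_ ?_ ?_ ?_ hf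
  · rintro f ⟨hfm, lam, hlam, hq⟩
    by_cases hf0 : f = 0
    · have h : (fun z : κ.c.R × K 0 => κ.H.ev y f (κ.c.pt z.1 * (z.2 : D.Ad))) = 0 := by
        funext z
        rw [hf0]
        exact map_zero ι
      rw [h]
      exact zero_mem _
    · have hall : lam ∈ AllSys ℓ S U := ⟨J, hJ, f, hf0,
        ⟨fun g => (hQ.mem _ (hfm.mem g)).1, hfm.left, hfm.right⟩, hlam⟩
      let i : MIx ℓ U K := ⟨(0, J, Q), hJ, hJK, hQ⟩
      obtain ⟨e, -, he⟩ := exists_toV κ.H κ.hU (i.isTow κ.hU κ.hK) i.weight (κ.gb i) 1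
      let f' : forms D i.Q (U ⊔ tow K i.J 1) := ⟨f, hfm⟩
      have he' := he f'
      let Φ : VF U (tow K i.J) (κ.ρ i) 1 := e f'
      have hw : κ.E i Φ ∈ κ.Vi (S := S) i ⟨lam, hall⟩ :=
        (κ.mem_V hSl hUS i Φ ⟨lam, hall⟩).2
          (toV_eigen κ.H hSl (κ.gb i).q (κ.gb i).indep he' hlam)
      have h0 := hY ⟨lam, hall⟩ hq i (κ.E i Φ) hw
      refine ⟨fun r => ∑ j, ι ((κ.gb i).q j y) • coW (κ.hJ i) (κ.small i) j (κ.E i Φ r), fun r x => ?_,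
        fun p => ?_⟩
      · rw [Submodule.coe_sum, Finset.sum_apply]
        change ι (f (κ.c.pt r * (x : D.Ad)) (y * (κ.H.hat D (κ.c.pt r * (x : D.Ad)))⁻¹)) = _
        refine (he' (κ.c.pt r * (x : D.Ad)) (y * (κ.H.hat D (κ.c.pt r * (x : D.Ad)))⁻¹)).trans ?_
        refine Finset.sum_congr rfl fun j _ => ?_
        rw [inv_mul_cancel_right, mul_comm]
        rfl
      · refine sum_uact_coW (κ.hJ i) (κ.small i) (κ.isAct i) (Y p) (κ.E i Φ) ?_ _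
        have h1 := congrFun h0 p
        rw [MFam.mact_apply] at h1
        exact h1
  · have h : (fun z : κ.c.R × K 0 => κ.H.ev y 0 (κ.c.pt z.1 * (z.2 : D.Ad))) = 0 := by
      funext z
      exact map_zero ι
    rw [h]
    exact zero_mem _
  · intro f g _ _ hf hg
    have h : (fun z : κ.c.R × K 0 => κ.H.ev y (f + g) (κ.c.pt z.1 * (z.2 : D.Ad))) =
        (fun z : κ.c.R × K 0 => κ.H.ev y f (κ.c.pt z.1 * (z.2 : D.Ad))) +
          fun z : κ.c.R × K 0 => κ.H.ev y g (κ.c.pt z.1 * (z.2 : D.Ad)) := by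
      funext z
      exact map_add ι _ _
    rw [h]
    exact add_mem hf hg
  · intro a f _ hf
    have h : (fun z : κ.c.R × K 0 => κ.H.ev y (a • f) (κ.c.pt z.1 * (z.2 : D.Ad))) =
        ι a • fun z : κ.c.R × K 0 => κ.H.ev y f (κ.c.pt z.1 * (z.2 : D.Ad)) := by
      funext z
      exact map_mul ι _ _
    rw [h]
    exact Submodule.smul_mem _ _ hf

end Pool.Agent.Lib.MP_666dc0_nt.PL
end

section

/-!
# PL, ZZDefs (complete, NOT a task)
-/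

open NumberField IsDedekindDomain
open scoped NumberField

namespace Pool.Agent.Lib.MP_666dc0_nt.PL

open WL ZO FM

variable {F : Type} [Field F] [NumberField F] {n : ℕ} {D : Datum F n} {ℓ : ℕ} [Fact ℓ.Prime]
  {U : Subgroup D.Ad} {K : ℕ → Subgroup D.Ad} {d : ℕ} {ι : ℂ ≃+* PadicAlgCl ℓ}

/-- The functions on `G(𝔸_f)` whose coordinates are reductions of functions killed by the rows `Y`. -/
noncomputable def ZZ (κ : Ctx ℓ U K d ι) {k : Type} [Field k] (ρ : Red ℓ k) {m : ℕ} (Y : Fin m → κ.c.R → κ.𝒯.La) :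
    Submodule k (D.Ad → k) :=
  (redS ρ (KB κ.𝒬 Y)).map (LinearMap.funLeft k k fun g : D.Ad => (κ.c.cls g, κ.c.kap g))

end Pool.Agent.Lib.MP_666dc0_nt.PL
end

section

/-!
TASK M4. Properties of the space `ZZ κ ρ Y`.

* `ZZ_left`, `ZZ_right`: `cls_left`, `kap_left`, `cls_right`, `kap_tame`.
* `ZZ_rtr`: `cls (g h) = cls g` (`cls_right`), `kap (g h) = kap g * h` (`kap_mul`), `KB_rtr` (`Z2`).
* `ZZ_inv`: `g ↦ (cls g, kap g)` is surjective onto `R × K 0` (`cls (pt r * k) = r`, `kap (pt r * k) = k`), so the map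
  `f ↦ (g ↦ f (cls g, kap g))` is injective and maps `rinv (redS ρ (KB 𝒬 Y)) (H.subgroupOf (K 0))` onto
  `inv (ZZ κ ρ Y) H`; `finrank_rinv_le`; `(H.subgroupOf (K 0)).index = H.relIndex (K 0)`; `κ.hq`.
* `ZZ_base`: `exists_finite_reps` (`WL/A5.lean`) for the open group `U ⊔ P`: `g = γ c k`, `k = u q` (`mem_sup_iff`), and
  `f (g p) = f (c u q p) = f (c q p u) = f (c q p)` since `u` commutes with `q p` (`mul_comm_of_disjoint`).
* `ev_red_mem`: `M3` and `ev y f g = Φ (cls g, kap g)` (`decomp`: `g = γ pt(cls g) u kap g`, `u` commutes with `kap g`;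
  `Chart.apply_eq` of `ZO/X2b.lean` with `IsTF`: `ev_left`, `ev_right` of `WL/D2.lean`).
* `ev_max`: `maxi_KB` and the same formula.
For `f ∈ espan S Q (U ⊔ J) q` one has `IsForm D Q (U ⊔ J) f` (the forms are a subspace).
-/

open NumberField IsDedekindDomain
open scoped NumberField

namespace Pool.Agent.Lib.MP_666dc0_nt.PL

open WL ZO FM

variable {F : Type} [Field F] [NumberField F] {n : ℕ} {D : Datum F n} {ℓ : ℕ} [Fact ℓ.Prime]
  {S : Finset (HeightOneSpectrum (𝓞 F))} {U : Subgroup D.Ad} {K : ℕ → Subgroup D.Ad} {d : ℕ}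
  {ι : ℂ ≃+* PadicAlgCl ℓ} (κ : Ctx ℓ U K d ι) {k : Type} [Field k] (ρ : Red ℓ k) {m : ℕ}
  (Y : Fin m → κ.c.R → κ.𝒯.La)

theorem ZZ_left {f : D.Ad → k} (hf : f ∈ ZZ κ ρ Y) (γ : D.Rat) (g : D.Ad) : f (D.toAd γ * g) = f g := by
  obtain ⟨φ, -, rfl⟩ := hf
  change φ (κ.c.cls (D.toAd γ * g), κ.c.kap (D.toAd γ * g)) = φ (κ.c.cls g, κ.c.kap g)
  rw [κ.c.cls_left, κ.c.kap_left]

theorem ZZ_right {f : D.Ad → k} (hf : f ∈ ZZ κ ρ Y) (g : D.Ad) {u : D.Ad} (hu : u ∈ U) : f (g * u) = f g := by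
  obtain ⟨φ, -, rfl⟩ := hf
  change φ (κ.c.cls (g * u), κ.c.kap (g * u)) = φ (κ.c.cls g, κ.c.kap g)
  rw [κ.c.cls_right _ _ (Subgroup.mem_sup_left hu), κ.c.kap_tame _ _ hu]

theorem ZZ_rtr {f : D.Ad → k} (hf : f ∈ ZZ κ ρ Y) {h : D.Ad} (hh : h ∈ K 0) : (fun g => f (g * h)) ∈ ZZ κ ρ Y := by
  obtain ⟨φ, hφ, rfl⟩ := Submodule.mem_map.1 hf
  obtain ⟨Φ, hΦ, h1, h2⟩ := (mem_redS ρ).1 hφ
  obtain ⟨y, rfl⟩ : ∃ y : K 0, (y : D.Ad) = h := ⟨⟨h, hh⟩, rfl⟩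
  have h3 : (fun z : κ.c.R × K 0 => φ (z.1, z.2 * y)) ∈ redS ρ (KB κ.𝒬 Y) :=
    (mem_redS ρ).2 ⟨fun z => Φ (z.1, z.2 * y), KB_rtr κ.𝒬 Y hΦ y, fun z => h1 _, fun z => h2 _⟩
  refine Submodule.mem_map.2 ⟨_, h3, ?_⟩
  funext g
  rw [LinearMap.funLeft_apply, LinearMap.funLeft_apply, κ.c.cls_right _ _ (Subgroup.mem_sup_right y.2),
    κ.c.kap_mul g y]

theorem ZZ_inv [CharP k ℓ] (hi : RowIndep Y) : ∃ C : ℝ, ∀ (s : ℕ) (H : Subgroup D.Ad), H ≤ K s → H ≤ K 0 →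
    (∃ t, K t ≤ H) → FiniteDimensional k (inv (ZZ κ ρ Y) H) ∧
      (Module.finrank k (inv (ZZ κ ρ Y) H) : ℝ) ≤
        ((Fintype.card κ.c.R : ℝ) - m + C / (ℓ : ℝ) ^ s) * (H.relIndex (K 0) : ℝ) := by
  obtain ⟨C, hC⟩ := finrank_rinv_le κ.𝒬 ρ Y hi
  refine ⟨C, fun s H hHs hH0 ht => ?_⟩
  obtain ⟨t, ht⟩ := ht
  obtain ⟨hfd, hle⟩ := hC s (H.subgroupOf (K 0)) ⟨t, fun x hx => Subgroup.mem_subgroupOf.2 (ht ((κ.hq t x).1 hx))⟩
    (fun x hx => (κ.hq s x).2 (hHs (Subgroup.mem_subgroupOf.1 hx)))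
  have hback : ∀ φ : κ.c.R × K 0 → k, ∀ z : κ.c.R × K 0,
      φ (κ.c.cls (κ.c.pt z.1 * (z.2 : D.Ad)), κ.c.kap (κ.c.pt z.1 * (z.2 : D.Ad))) = φ z := by
    rintro φ ⟨r, x⟩
    change φ (κ.c.cls (κ.c.pt r * (x : D.Ad)), κ.c.kap (κ.c.pt r * (x : D.Ad))) = φ (r, x)
    rw [κ.c.cls_right _ _ (Subgroup.mem_sup_right x.2), κ.c.cls_pt, κ.c.kap_mul (κ.c.pt r) x, κ.c.kap_pt, one_mul]
  have hmaps : ∀ f ∈ inv (ZZ κ ρ Y) H,
      LinearMap.funLeft k k (fun z : κ.c.R × K 0 => κ.c.pt z.1 * (z.2 : D.Ad)) f ∈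
        rinv (redS ρ (KB κ.𝒬 Y)) (H.subgroupOf (K 0)) := by
    rintro f ⟨⟨φ, hφ, rfl⟩, hf⟩
    refine ⟨?_, fun r x j hj => ?_⟩
    · have h1 : LinearMap.funLeft k k (fun z : κ.c.R × K 0 => κ.c.pt z.1 * (z.2 : D.Ad))
          (LinearMap.funLeft k k (fun g : D.Ad => (κ.c.cls g, κ.c.kap g)) φ) = φ := funext fun z => hback φ z
      rw [h1]
      exact hφ
    · change LinearMap.funLeft k k (fun g : D.Ad => (κ.c.cls g, κ.c.kap g)) φ (κ.c.pt r * ((x * j : K 0) : D.Ad)) =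
        LinearMap.funLeft k k (fun g : D.Ad => (κ.c.cls g, κ.c.kap g)) φ (κ.c.pt r * (x : D.Ad))
      rw [Subgroup.coe_mul, ← mul_assoc]
      exact hf _ _ (Subgroup.mem_subgroupOf.1 hj)
  let L : inv (ZZ κ ρ Y) H →ₗ[k] rinv (redS ρ (KB κ.𝒬 Y)) (H.subgroupOf (K 0)) :=
    (LinearMap.funLeft k k (fun z : κ.c.R × K 0 => κ.c.pt z.1 * (z.2 : D.Ad))).restrict hmaps
  have hinj : Function.Injective L := by
    rintro ⟨f, ⟨⟨φ, hφ, rfl⟩, hf⟩⟩ ⟨f', ⟨⟨φ', hφ', rfl⟩, hf'⟩⟩ h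
    have h1 : ∀ z, φ z = φ' z := by
      intro z
      have h2 := congrFun (congrArg Subtype.val h) z
      change φ (κ.c.cls (κ.c.pt z.1 * (z.2 : D.Ad)), κ.c.kap (κ.c.pt z.1 * (z.2 : D.Ad))) =
        φ' (κ.c.cls (κ.c.pt z.1 * (z.2 : D.Ad)), κ.c.kap (κ.c.pt z.1 * (z.2 : D.Ad))) at h2
      rwa [hback φ z, hback φ' z] at h2
    refine Subtype.ext (funext fun g => ?_)
    exact h1 _
  have hfd' := FiniteDimensional.of_injective L hinj
  refine ⟨hfd', le_trans ?_ hle⟩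
  exact_mod_cast LinearMap.finrank_le_finrank_of_injective hinj

theorem ZZ_base [IsTotallyReal F] (hD : IsTotPosDef D.q) {P : Subgroup D.Ad} (hP : IsLevel ℓ U P) :
    ∃ (I : Type) (_ : Fintype I) (x₀ : I → D.Ad), ∀ g, ∃ i, ∃ q ∈ P, ∀ f ∈ ZZ κ ρ Y, ∀ p ∈ P,
      f (g * p) = f (x₀ i * q * p) := by
  obtain ⟨X, hX⟩ := exists_finite_reps hD (U ⊔ P) hP.isOpen
  refine ⟨X, inferInstance, Subtype.val, fun g => ?_⟩
  obtain ⟨γ, c, hc, k', hk, rfl⟩ := hX g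
  obtain ⟨u, hu, q, hq, rfl⟩ := (mem_sup_iff κ.hU hP.supp).1 hk
  refine ⟨⟨c, hc⟩, q, hq, fun f hf p hp => ?_⟩
  have hcomm : u * (q * p) = q * p * u := by
    refine mul_comm_of_disjoint fun v => ?_
    by_cases hv : (ℓ : 𝓞 F) ∈ v.asIdeal
    · exact Or.inl (κ.hU u hu v hv)
    · exact Or.inr (hP.supp _ (P.mul_mem hq hp) v hv)
  calc f (D.toAd γ * c * (u * q) * p) = f (D.toAd γ * (c * (u * (q * p)))) := by
        congr 1
        simp only [mul_assoc]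
    _ = f (c * (u * (q * p))) := ZZ_left κ ρ Y hf _ _
    _ = f (c * (q * p) * u) := by rw [hcomm, mul_assoc c]
    _ = f (c * (q * p)) := ZZ_right κ ρ Y hf _ hu
    _ = f (c * q * p) := by rw [mul_assoc]

theorem ev_red_mem [IsTotallyReal F] (_hD : IsTotPosDef D.q)
    (hSl : ∀ v : HeightOneSpectrum (𝓞 F), (ℓ : 𝓞 F) ∈ v.asIdeal → v ∈ S)
    (hUS : ∀ v, v ∉ S → IsGoodAt U v) {q : (∀ v, Hecke U v → ℂ) → Prop}
    (hY : ∀ x : {e : ∀ v, Hecke U v → ℂ // e ∈ AllSys ℓ S U}, q x.1 → ∀ i : MIx ℓ U K, ∀ w ∈ κ.Vi i x,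
        κ.fam.mact i (Matrix.of Y) w = 0)
    {J : Subgroup D.Ad} (hJ : IsLevel ℓ U J) (hJK : J ≤ K 0) {Q : Submodule ℂ (D.Cpx → ℂ)} (hQ : IsWeight D Q)
    {f : D.Ad → D.Cpx → ℂ} (hf : f ∈ espan S Q (U ⊔ J) q) (y : D.Cpx) :
    ((∀ g, ‖κ.H.ev y f g‖ ≤ 1) → (fun g => ρ.app (κ.H.ev y f g)) ∈ ZZ κ ρ Y) ∧
      ∃ g₀, ∀ g, ‖κ.H.ev y f g‖ ≤ ‖κ.H.ev y f g₀‖ := by
  have hKB := ev_mem_KB hSl hUS κ Y hY hJ hJK hQ hf y
  have hform : IsForm D Q (U ⊔ J) f := by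
    refine Submodule.span_induction (p := fun f _ => IsForm D Q (U ⊔ J) f) (fun f hf => hf.1) ?_ ?_ ?_ hf
    · exact ⟨fun _ => Q.zero_mem, fun _ _ _ => rfl, fun _ _ _ => rfl⟩
    · intro f f' _ _ hf hf'
      refine ⟨fun g => Q.add_mem (hf.mem g) (hf'.mem g), fun γ g x => ?_, fun g k' hk => ?_⟩
      · simp only [Pi.add_apply, hf.left, hf'.left]
      · simp only [Pi.add_apply, hf.right g k' hk, hf'.right g k' hk]
    · intro c f _ hf
      refine ⟨fun g => Q.smul_mem c (hf.mem g), fun γ g x => ?_, fun g k' hk => ?_⟩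
      · simp only [Pi.smul_apply, hf.left]
      · simp only [Pi.smul_apply, hf.right g k' hk]
  have htf : IsTF U (κ.H.ev y f) :=
    ⟨fun γ g => ev_left κ.H hform y γ g, fun g u hu => ev_right κ.H hform κ.hU le_sup_left y g hu⟩
  have happ : ∀ g, κ.H.ev y f g = κ.H.ev y f (κ.c.pt (κ.c.cls g) * κ.c.kap g) := fun g =>
    κ.c.apply_eq κ.hU (fun g hg v hv => κ.supp hg v hv) htf g
  have : Nonempty κ.c.R := ⟨κ.c.cls 1⟩
  refine ⟨fun h1 => ?_, ?_⟩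
  · refine ⟨fun z => ρ.app (κ.H.ev y f (κ.c.pt z.1 * (z.2 : D.Ad))), ⟨_, hKB, fun z => h1 _, fun z => rfl⟩, ?_⟩
    funext g
    change ρ.app (κ.H.ev y f (κ.c.pt (κ.c.cls g) * (κ.c.kap g : D.Ad))) = _
    rw [← happ g]
  · obtain ⟨z₀, hz⟩ := maxi_KB κ.𝒬 Y _ hKB
    refine ⟨κ.c.pt z₀.1 * (z₀.2 : D.Ad), fun g => ?_⟩
    rw [happ g]
    exact hz (κ.c.cls g, κ.c.kap g)

end Pool.Agent.Lib.MP_666dc0_nt.PL
end
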