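import Pool.Agent.Lib.MP_666dc0_nt.Mg.G082
import Pool.Agent.Lib.MP_666dc0_nt.Mg.G010
import Pool.Agent.Lib.MP_666dc0_nt.Mg.G057
import Pool.Agent.Lib.MP_666dc0_nt.Mg.G055
import Pool.Agent.Lib.MP_666dc0_nt.Mg.G081
import Pool.Agent.Lib.MP_666dc0_nt.Mg.G086
import Pool.Agent.Lib.MP_666dc0_nt.Mg.G088
import Pool.Agent.Lib.MP_666dc0_nt.Mg.G005

section

/-!
# PL, T1: forms of a type, eigenspaces

`typeForms D Q U T` is the space of all forms of type `T` with weights in `Q`, finite-dimensional for a weight `Q`.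
It is the direct sum of the joint eigenspaces `T1_eig` of the Hecke operators at the places outside `S`; `tspan S Q T p` is
the sum of those which belong to a system with the property `p`.
-/

open NumberField IsDedekindDomain
open scoped NumberField

namespace Pool.Agent.Lib.MP_666dc0_nt.PL

open WL ZO FM

section LA

variable {k M I : Type} [Field k] [AddCommGroup M] [Module k M] (T : I → M →ₗ[k] M) (W : Submodule k M)

/-- The joint eigenspaces in `W`. -/
def T1_eig (χ : I → k) : Submodule k M where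
  carrier := {f | f ∈ W ∧ ∀ i, T i f = χ i • f}
  add_mem' {a b} ha hb := ⟨W.add_mem ha.1 hb.1, fun i => by rw [map_add, ha.2, hb.2, smul_add]⟩
  zero_mem' := ⟨W.zero_mem, fun i => by rw [map_zero, smul_zero]⟩
  smul_mem' c a ha := ⟨W.smul_mem c ha.1, fun i => by rw [map_smul, ha.2, smul_comm]⟩

theorem T1_eig_indep : iSupIndep (T1_eig T W) := by
  classical
  rw [iSupIndep_iff_finsetSum_eq_zero_imp_eq_zero]
  intro s v hv hv0 i hi
  by_contra hne
  let J := {j : I → k // j ∈ s ∧ v j ≠ 0}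
  have hli : LinearIndependent k (fun j : J => v j.1) :=
    linearIndependent_eigen T (fun j : J => j.1) Subtype.val_injective (fun j : J => v j.1) (fun j => j.2.2)
      (fun j i => (hv j.1 j.2.1).2 i)
  have : Fintype J := Fintype.ofInjective (fun j : J => (⟨j.1, j.2.1⟩ : s))
    (fun a b h => Subtype.ext (congrArg (fun x : s => x.1) h))
  have hsum : ∑ j : J, (1 : k) • v j.1 = 0 := by
    have h1 : ∑ j : J, (1 : k) • v j.1 = ∑ j ∈ s.filter (fun j => v j ≠ 0), v j := by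
      refine Finset.sum_bij (fun (j : J) _ => j.1) (fun j _ => Finset.mem_filter.2 j.2)
        (fun a _ b _ h => Subtype.ext h) (fun b hb => ⟨⟨b, Finset.mem_filter.1 hb⟩, Finset.mem_univ _, rfl⟩)
        (fun j _ => one_smul k _)
    rw [h1, Finset.sum_filter_ne_zero, hv0]
  exact one_ne_zero ((Fintype.linearIndependent_iff.1 hli) (fun _ => 1) hsum ⟨i, hi, hne⟩)

theorem T1_eig_finite [FiniteDimensional k W] : {χ : I → k | T1_eig T W χ ≠ ⊥}.Finite := by
  refine (finite_eigensystems T W).subset fun χ hχ => ?_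
  obtain ⟨f, hf, hf0⟩ := (Submodule.ne_bot_iff _).1 hχ
  exact ⟨f, hf.1, hf0, hf.2⟩

theorem T1_eig_le (χ : I → k) : T1_eig T W χ ≤ W := fun _ hf => hf.1

theorem T1_finrank_biSup [FiniteDimensional k W] (s : Finset (I → k)) :
    Module.finrank k (⨆ χ ∈ s, T1_eig T W χ : Submodule k M) = ∑ χ ∈ s, Module.finrank k (T1_eig T W χ) := by
  classical
  induction s using Finset.induction_on with
  | empty =>
    have h : (⨆ χ ∈ (∅ : Finset (I → k)), T1_eig T W χ : Submodule k M) = ⊥ := by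
      simp only [Finset.notMem_empty, iSup_false, iSup_bot]
    rw [h, finrank_bot, Finset.sum_empty]
  | insert a s ha ih =>
    have hdis : Disjoint (T1_eig T W a) (⨆ χ ∈ s, T1_eig T W χ) := by
      have h := (T1_eig_indep T W).disjoint_biSup_biSup (s := {a}) (t := (s : Set (I → k)))
        (by rw [Set.disjoint_singleton_left]; exact_mod_cast ha)
      simpa using h
    have hf1 : FiniteDimensional k (T1_eig T W a) := Submodule.finiteDimensional_of_le (T1_eig_le T W a)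
    have hf2 : FiniteDimensional k (⨆ χ ∈ s, T1_eig T W χ : Submodule k M) :=
      Submodule.finiteDimensional_of_le (iSup₂_le fun χ _ => T1_eig_le T W χ)
    rw [Finset.iSup_insert, Finset.sum_insert ha, ← ih, ← Submodule.finrank_sup_add_finrank_inf_eq,
      hdis.eq_bot, finrank_bot, add_zero]

theorem T1_biSup_ne_bot (X : Set (I → k)) :
    (⨆ χ ∈ X, T1_eig T W χ) = ⨆ χ ∈ {χ | χ ∈ X ∧ T1_eig T W χ ≠ ⊥}, T1_eig T W χ := by
  apply le_antisymm
  · refine iSup₂_le fun χ hχ => ?_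
    by_cases h : T1_eig T W χ = ⊥
    · rw [h]
      exact bot_le
    · exact le_biSup (T1_eig T W) (show χ ∈ {χ | χ ∈ X ∧ T1_eig T W χ ≠ ⊥} from ⟨hχ, h⟩)
  · exact biSup_mono fun χ hχ => hχ.1

end LA

variable {F : Type} [Field F] [NumberField F] {n : ℕ} {D : Datum F n} {ℓ : ℕ} [Fact ℓ.Prime]
  {S : Finset (HeightOneSpectrum (𝓞 F))} {U : Subgroup D.Ad}

/-- The space of all forms of type `T` with weights in `Q`. -/
def typeForms (D : Datum F n) (Q : Submodule ℂ (D.Cpx → ℂ)) (U : Subgroup D.Ad) (T : AdType D) :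
    Submodule ℂ (D.Ad → D.Cpx → ℂ) where
  carrier := {f | IsTypeForm D Q U T f}
  add_mem' {a b} ha hb := IsTypeForm.mk' (fun g => Q.add_mem (ha.form.mem g) (hb.form.mem g))
    (fun γ g x => by simp only [Pi.add_apply, ha.form.left, hb.form.left])
    (fun g u hu => by
      simp only [Pi.add_apply, ha.form.right g u (Subgroup.mem_sup_left hu), hb.form.right g u (Subgroup.mem_sup_left hu)])
    (fun g k => by simp only [Pi.add_apply, ha.type', hb.type', smul_add])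
  zero_mem' := IsTypeForm.mk' (fun _ => Q.zero_mem) (fun _ _ _ => rfl) (fun _ _ _ => rfl)
    (fun g k => by simp only [Pi.zero_apply, smul_zero])
  smul_mem' c a ha := IsTypeForm.mk' (fun g => Q.smul_mem c (ha.form.mem g))
    (fun γ g x => by simp only [Pi.smul_apply, ha.form.left])
    (fun g u hu => by simp only [Pi.smul_apply, ha.form.right g u (Subgroup.mem_sup_left hu)])
    (fun g k => by simp only [Pi.smul_apply, ha.type', smul_comm c])

/-- The property `p` depends only on the values outside `S`. -/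
def SInv (ℓ : ℕ) (S : Finset (HeightOneSpectrum (𝓞 F))) {U : Subgroup D.Ad} (p : (∀ v, Hecke U v → ℂ) → Prop) : Prop :=
  ∀ lam ∈ AllSys ℓ S U, ∀ lam' ∈ AllSys ℓ S U, (∀ v, v ∉ S → ∀ h, lam v h = lam' v h) → p lam → p lam'

theorem sInv_of_closed {ι : ℂ ≃+* PadicAlgCl ℓ} {p : (∀ v, Hecke U v → ℂ) → Prop} (hp : IsClosedProp ℓ S ι p) :
    SInv ℓ S p := by
  intro lam hlam lam' hlam' heq hpl
  refine hp lam' hlam' fun ε hε => ⟨{lam}, Set.finite_singleton _, ?_, ε, hε, fun P hP => ?_⟩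
  · intro e he
    rw [Set.mem_singleton_iff] at he
    subst he
    exact ⟨hlam, hpl⟩
  · have h1 : pval ℓ S lam' P = pval ℓ S lam P := by
      have h2 : (fun x : IX ℓ S U => lam' x.1.1 x.1.2) = fun x : IX ℓ S U => lam x.1.1 x.1.2 :=
        funext fun x => (heq x.1.1 x.2.1 x.1.2).symm
      unfold pval
      rw [h2]
    rw [h1]
    exact hP lam rfl

private theorem T1_subgroupOf (T : AdType D) : T.ker.subgroupOf T.J = T.χ.ker := by
  ext x
  rw [Subgroup.mem_subgroupOf, AdType.ker, Subgroup.mem_map]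
  constructor
  · rintro ⟨y, hy, hyx⟩
    have : y = x := Subtype.ext hyx
    rwa [← this]
  · intro hx
    exact ⟨x, hx, rfl⟩

theorem exists_order (hU : IsTame ℓ U) {T : AdType D} (hT : IsTypeAt ℓ U T) : ∃ M > 0, T.χ ^ M = 1 := by
  have h1 : T.ker.relIndex T.J ≠ 0 := relIndex_ne_zero_of_level hU hT.ker hT.level
  have h2 : T.χ.ker.index ≠ 0 := by
    have h3 : T.ker.relIndex T.J = T.χ.ker.index := by rw [Subgroup.relIndex, T1_subgroupOf]
    rwa [h3] at h1
  refine ⟨T.χ.ker.index, Nat.pos_of_ne_zero h2, MonoidHom.ext fun x => ?_⟩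
  have h3 : x ^ T.χ.ker.index ∈ T.χ.ker := Subgroup.pow_index_mem T.χ.ker x
  rw [MonoidHom.mem_ker, map_pow] at h3
  exact h3

omit [Fact ℓ.Prime] in
theorem finite_typeForms [IsTotallyReal F] (hD : IsTotPosDef D.q) {T : AdType D} (hT : IsTypeAt ℓ U T)
    {Q : Submodule ℂ (D.Cpx → ℂ)} (hQ : IsWeight D Q) : FiniteDimensional ℂ (typeForms D Q U T) := by
  have h1 : FiniteDimensional ℂ Q := Module.Finite.iff_fg.2 hQ.fg
  have h2 : FiniteDimensional ℂ (forms D Q (U ⊔ T.ker)) := finiteDimensional_forms hD Q _ hT.ker.isOpen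
  exact Submodule.finiteDimensional_of_le (S₂ := forms D Q (U ⊔ T.ker)) fun f hf => IsTypeForm.isForm hf

theorem tspan_le (Q : Submodule ℂ (D.Cpx → ℂ)) (T : AdType D) (p : (∀ v, Hecke U v → ℂ) → Prop) :
    tspan S Q T p ≤ typeForms D Q U T :=
  Submodule.span_le.2 fun _ hf => hf.1

theorem tspan_le_espan (Q : Submodule ℂ (D.Cpx → ℂ)) (T : AdType D) (p : (∀ v, Hecke U v → ℂ) → Prop)
    {H : Subgroup D.Ad} (hH : H ≤ T.ker) : tspan S Q T p ≤ espan S Q (U ⊔ H) p := by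
  refine Submodule.span_mono fun f hf => ⟨⟨hf.1.form.mem, hf.1.form.left, fun g k hk => ?_⟩, hf.2⟩
  exact hf.1.form.right g k (sup_le_sup_left hH U hk)

theorem tspan_true [IsTotallyReal F] (hD : IsTotPosDef D.q)
    (hSl : ∀ v : HeightOneSpectrum (𝓞 F), (ℓ : 𝓞 F) ∈ v.asIdeal → v ∈ S) (hU : IsTame ℓ U)
    (hUS : ∀ v, v ∉ S → IsGoodAt U v) {T : AdType D} (hT : IsTypeAt ℓ U T)
    {Q : Submodule ℂ (D.Cpx → ℂ)} (hQ : IsWeight D Q) : tspan S Q T (fun _ : ∀ v, Hecke U v → ℂ => True) = typeForms D Q U T := by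
  refine le_antisymm (tspan_le Q T _) fun f hf => ?_
  obtain ⟨l, hl, hl'⟩ := exists_decomposition_type hD hSl hU (good_of_isLevel ℓ hSl hU hUS hT.ker)
    (exists_order hU hT) hT.level.supp hQ.le hQ.trans hf
  rw [hl]
  refine list_sum_mem fun m hm => ?_
  obtain ⟨-, hm1, lam, hlam⟩ := hl' m hm
  exact Submodule.subset_span ⟨hm1, lam, hlam, trivial⟩

/-- The index set: the Hecke operators at the places outside `S`. -/
private abbrev T1_I (S : Finset (HeightOneSpectrum (𝓞 F))) (U : Subgroup D.Ad) : Type :=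
  Σ v : {v : HeightOneSpectrum (𝓞 F) // v ∉ S}, Hecke U v.1

/-- The values of the system outside `S`. -/
private def T1_res (S : Finset (HeightOneSpectrum (𝓞 F))) (lam : ∀ v, Hecke U v → ℂ) : T1_I S U → ℂ :=
  fun i => lam i.1.1 i.2

/-- The joint eigenspace in the space of the forms of type `T`. -/
private noncomputable def T1_E (S : Finset (HeightOneSpectrum (𝓞 F))) (Q : Submodule ℂ (D.Cpx → ℂ)) (T : AdType D)
    (χ : T1_I S U → ℂ) : Submodule ℂ (D.Ad → D.Cpx → ℂ) :=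
  T1_eig (fun i : T1_I S U => actL i.2) (typeForms D Q U T) χ

private theorem mem_T1_E {Q : Submodule ℂ (D.Cpx → ℂ)} {T : AdType D} {lam : ∀ v, Hecke U v → ℂ}
    {f : D.Ad → D.Cpx → ℂ} : f ∈ T1_E S Q T (T1_res S lam) ↔ IsTypeForm D Q U T f ∧ IsEigen S f lam := by
  constructor
  · rintro ⟨h1, h2⟩
    exact ⟨h1, fun v hv h => h2 ⟨⟨v, hv⟩, h⟩⟩
  · rintro ⟨h1, h2⟩
    exact ⟨h1, fun i => h2 i.1.1 i.1.2 i.2⟩

private theorem tspan_eq (Q : Submodule ℂ (D.Cpx → ℂ)) (T : AdType D) (p : (∀ v, Hecke U v → ℂ) → Prop) :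
    tspan S Q T p = ⨆ χ ∈ T1_res S '' {lam | p lam}, T1_E S Q T χ := by
  apply le_antisymm
  · refine Submodule.span_le.2 ?_
    rintro f ⟨hf, lam, hlam, hp⟩
    exact (le_biSup (T1_E S Q T) (Set.mem_image_of_mem _ hp)) (mem_T1_E.2 ⟨hf, hlam⟩)
  · refine iSup₂_le ?_
    rintro _ ⟨lam, hp, rfl⟩ f hf
    obtain ⟨h1, h2⟩ := mem_T1_E.1 hf
    exact Submodule.subset_span ⟨h1, lam, h2, hp⟩

private theorem tspan_singleton (Q : Submodule ℂ (D.Cpx → ℂ)) (T : AdType D) (lam : ∀ v, Hecke U v → ℂ) :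
    tspan S Q T (· = lam) = T1_E S Q T (T1_res S lam) := by
  rw [tspan_eq]
  have h : {e : ∀ v, Hecke U v → ℂ | e = lam} = {lam} := rfl
  rw [h, Set.image_singleton, iSup_singleton]

omit [Fact ℓ.Prime] in
private theorem mem_allSys {T : AdType D} (hT : IsTypeAt ℓ U T) {Q : Submodule ℂ (D.Cpx → ℂ)} (hQ : IsWeight D Q)
    {lam : ∀ v, Hecke U v → ℂ} (h : T1_E S Q T (T1_res S lam) ≠ ⊥) : lam ∈ AllSys ℓ S U := by
  obtain ⟨f, hf, hf0⟩ := (Submodule.ne_bot_iff _).1 h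
  obtain ⟨h1, h2⟩ := mem_T1_E.1 hf
  exact ⟨T.ker, hT.ker, f, hf0, ⟨fun g => hQ.le (h1.form.mem g), h1.form.left, h1.form.right⟩, h2⟩

theorem dimT_add [IsTotallyReal F] (hD : IsTotPosDef D.q)
    (hSl : ∀ v : HeightOneSpectrum (𝓞 F), (ℓ : 𝓞 F) ∈ v.asIdeal → v ∈ S) (hU : IsTame ℓ U)
    (hUS : ∀ v, v ∉ S → IsGoodAt U v) {T : AdType D} (hT : IsTypeAt ℓ U T)
    {Q : Submodule ℂ (D.Cpx → ℂ)} (hQ : IsWeight D Q) {p : (∀ v, Hecke U v → ℂ) → Prop} (hp : SInv ℓ S p) :
    dimT S Q T p + dimT S Q T (fun lam => ¬p lam) = Module.finrank ℂ (typeForms D Q U T) := by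
  have hfin := finite_typeForms hD hT hQ
  have hf1 : FiniteDimensional ℂ (tspan S Q T p) := Submodule.finiteDimensional_of_le (tspan_le Q T p)
  have hf2 : FiniteDimensional ℂ (tspan S Q T fun lam => ¬p lam) := Submodule.finiteDimensional_of_le (tspan_le Q T _)
  have hsup : tspan S Q T p ⊔ tspan S Q T (fun lam => ¬p lam) = typeForms D Q U T := by
    refine le_antisymm (sup_le (tspan_le Q T p) (tspan_le Q T _)) ?_
    rw [← tspan_true hD hSl hU hUS hT hQ]
    refine Submodule.span_le.2 ?_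
    rintro f ⟨hf, lam, hlam, -⟩
    by_cases h : p lam
    · exact Submodule.mem_sup_left (Submodule.subset_span ⟨hf, lam, hlam, h⟩)
    · exact Submodule.mem_sup_right (Submodule.subset_span ⟨hf, lam, hlam, h⟩)
  have hdis : Disjoint (tspan S Q T p) (tspan S Q T fun lam => ¬p lam) := by
    rw [tspan_eq, tspan_eq]
    unfold T1_E
    rw [T1_biSup_ne_bot, T1_biSup_ne_bot (X := T1_res S '' {lam | ¬p lam})]
    refine (T1_eig_indep _ _).disjoint_biSup_biSup ?_
    rw [Set.disjoint_left]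
    rintro _ ⟨⟨lam, hlam, rfl⟩, hne⟩ ⟨⟨lam', hlam', heq⟩, hne'⟩
    refine hlam' (hp lam (mem_allSys hT hQ hne) lam' (mem_allSys hT hQ ?_) (fun v hv h => ?_) hlam)
    · rw [heq]
      exact hne
    · exact (congrFun heq ⟨⟨v, hv⟩, h⟩).symm
  unfold dimT
  rw [← Submodule.finrank_sup_add_finrank_inf_eq, hsup, hdis.eq_bot, finrank_bot, add_zero]

theorem dimT_sum [IsTotallyReal F] (hD : IsTotPosDef D.q)
    (hSl : ∀ v : HeightOneSpectrum (𝓞 F), (ℓ : 𝓞 F) ∈ v.asIdeal → v ∈ S) (hU : IsTame ℓ U)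
    (hUS : ∀ v, v ∉ S → IsGoodAt U v) {k : ℕ} (T : Fin k → AdType D) (hT : ∀ i, IsTypeAt ℓ U (T i))
    {Q : Submodule ℂ (D.Cpx → ℂ)} (hQ : IsWeight D Q) {q : (∀ v, Hecke U v → ℂ) → Prop} (hq : SInv ℓ S q) :
    ∃ Λ : Finset (∀ v, Hecke U v → ℂ), (∀ lam ∈ Λ, lam ∈ AllSys ℓ S U ∧ q lam) ∧
      ∀ i, dimT S Q (T i) q = ∑ lam ∈ Λ, dimT S Q (T i) (· = lam) := by
  classical
  have hfin := fun i => finite_typeForms hD (hT i) hQ
  have hX : {χ : T1_I S U → ℂ | χ ∈ T1_res S '' {lam | q lam} ∧ ∃ i, T1_E S Q (T i) χ ≠ ⊥}.Finite := by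
    refine (Set.finite_iUnion fun i => T1_eig_finite (fun i : T1_I S U => actL i.2) (typeForms D Q U (T i))).subset ?_
    rintro χ ⟨-, i, hi⟩
    exact Set.mem_iUnion.2 ⟨i, hi⟩
  choose! c hc using fun (χ : T1_I S U → ℂ) (hχ : χ ∈ T1_res S '' {lam | q lam}) => hχ
  refine ⟨hX.toFinset.image c, fun lam hlam => ?_, fun i => ?_⟩
  · obtain ⟨χ, hχ, rfl⟩ := Finset.mem_image.1 hlam
    rw [Set.Finite.mem_toFinset] at hχ
    obtain ⟨h1, i, hi⟩ := hχ
    obtain ⟨h2, h3⟩ := hc χ h1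
    exact ⟨mem_allSys (hT i) hQ (by rwa [h3]), h2⟩
  · have hinj : Set.InjOn c (hX.toFinset : Set (T1_I S U → ℂ)) := by
      intro a ha b hb hab
      rw [SetLike.mem_coe, Set.Finite.mem_toFinset] at ha hb
      rw [← (hc a ha.1).2, ← (hc b hb.1).2, hab]
    rw [Finset.sum_image hinj]
    have h1 : ∀ χ ∈ hX.toFinset, dimT S Q (T i) (· = c χ) = Module.finrank ℂ (T1_E S Q (T i) χ) := by
      intro χ hχ
      rw [Set.Finite.mem_toFinset] at hχ
      unfold dimT
      rw [tspan_singleton, (hc χ hχ.1).2]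
    rw [Finset.sum_congr rfl h1]
    unfold dimT
    unfold T1_E
    rw [← T1_finrank_biSup, tspan_eq]
    have h2 : (⨆ χ ∈ T1_res S '' {lam | q lam}, T1_E S Q (T i) χ) =
        ⨆ χ ∈ hX.toFinset, T1_eig (fun i : T1_I S U => actL i.2) (typeForms D Q U (T i)) χ := by
      apply le_antisymm
      · refine iSup₂_le fun χ hχ => ?_
        by_cases h : T1_E S Q (T i) χ = ⊥
        · rw [h]
          exact bot_le
        · exact le_biSup (T1_eig (fun i : T1_I S U => actL i.2) (typeForms D Q U (T i)))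
            (hX.mem_toFinset.2 ⟨hχ, i, h⟩)
      · refine iSup₂_le fun χ hχ => ?_
        exact le_biSup (T1_E S Q (T i)) (hX.mem_toFinset.1 hχ).1
    rw [h2]
    rfl

end Pool.Agent.Lib.MP_666dc0_nt.PL
end

section

/-!
TASK L3. Forms of a type from functions at the representatives.

For `q ∈ chinv ..` (at the point `x i`, for the group `stab (x i)`, acting through `hat`, and the character `χ`) there is
exactly one form `f` of type `T` with `f (x i) (y * (x i)^⁻¹) = q y` which vanishes on the other classes: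
`f (γ (x i) u p) (y) = χ(p) q (y γ (x i)^)`, in untwisted form `f g (y ĝ⁻¹) = χ(p) q (y p̂⁻¹)` for `g = γ (x i) u p`.
Well defined: `γ x u p = γ' x u' p'` implies `r = p' p⁻¹ ∈ stab x` (`γ'⁻¹ γ x = x (u' u⁻¹) (p' p⁻¹)`), and
`χ(p') q (y p̂'⁻¹) = χ(r) χ(p) q (y p̂⁻¹ r̂⁻¹) = χ(p) q (y p̂⁻¹)`. Check `IsTypeForm` with `IsTypeForm.mk'` (`hat_toAd`,
`hat_eq_one` for `u`, `comm_of_level`, weights: `Q` is stable under right translations).
So the linear map `∏ i, chinv .. → typeForms`, `(q_i) ↦ f`, `f (γ (x i) u p) (y) = χ(p) q_i (y γ (x i)^)`, is injective.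
-/

open NumberField IsDedekindDomain
open scoped NumberField

namespace Pool.Agent.Lib.MP_666dc0_nt.PL

open WL ZO

variable {F : Type} [Field F] [NumberField F] {n : ℕ} {D : Datum F n} {ℓ : ℕ} [Fact ℓ.Prime]
  {ι : ℂ ≃+* PadicAlgCl ℓ} {U : Subgroup D.Ad}

/-- The homomorphism `stab g → G(F ⊗ ℂ)`. -/
noncomputable def stabHat (Hh : HatData F ℓ ι) (hU : IsTame ℓ U) {P : Subgroup D.Ad} (hP : IsLevel ℓ U P)
    (g : D.Ad) : stab hU hP g →* D.Cpx := (Hh.hat D).comp (stab hU hP g).subtype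

/-- The restriction of the character `χ` to `stab g`. -/
noncomputable def stabChi (hU : IsTame ℓ U) {T : AdType D} (hP : IsLevel ℓ U T.J) (g : D.Ad) :
    stab hU hP g →* ℂˣ := T.χ.comp (Subgroup.inclusion (stab_le hU hP g))

theorem stabHat_injective (Hh : HatData F ℓ ι) (hU : IsTame ℓ U) {P : Subgroup D.Ad} (hP : IsLevel ℓ U P)
    (g : D.Ad) : Function.Injective (stabHat Hh hU hP g) := by
  rw [injective_iff_map_eq_one]
  rintro ⟨p, hp⟩ h
  apply Subtype.ext
  exact hat_injective Hh (hP.supp p (stab_le hU hP g hp)) h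

/-- Uniqueness of the decomposition `g = γ x u p`, for the values. -/
theorem decomp_unique (Hh : HatData F ℓ ι) (hU : IsTame ℓ U)
    {T : AdType D} (hT : IsTypeAt ℓ U T) {Q : Submodule ℂ (D.Cpx → ℂ)} {x : D.Ad} {q : D.Cpx → ℂ}
    (hq : q ∈ chinv (stabHat Hh hU hT.level x) (stabChi hU hT.level x) Q)
    {γ γ' : D.Rat} {u u' : D.Ad} (hu : u ∈ U) (hu' : u' ∈ U) {p p' : T.J}
    (h : D.toAd γ * x * u * p = D.toAd γ' * x * u' * p') (y : D.Cpx) :
    ((T.χ p : ℂˣ) : ℂ) * q (y * D.toCpx γ * Hh.hat D x) =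
      ((T.χ p' : ℂˣ) : ℂ) * q (y * D.toCpx γ' * Hh.hat D x) := by
  have hc1 : u * (p : D.Ad) = p * u := comm_of_level hU hT.level hu p.2
  have hc2 : u' * (p' : D.Ad) = p' * u' := comm_of_level hU hT.level hu' p'.2
  have h0 : D.toAd (γ'⁻¹ * γ) * x = x * (u' * u⁻¹) * ((p' * p⁻¹ : T.J) : D.Ad) := by
    rw [map_mul, map_inv]
    have h1 : D.toAd γ * x = D.toAd γ' * x * u' * p' * (p : D.Ad)⁻¹ * u⁻¹ := by
      rw [← h]
      group
    have hc3 : (p : D.Ad)⁻¹ * u⁻¹ = u⁻¹ * (p : D.Ad)⁻¹ := by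
      rw [← mul_inv_rev, ← mul_inv_rev, hc1]
    have hc4 : (p' : D.Ad) * u⁻¹ = u⁻¹ * p' :=
      (comm_of_level hU hT.level (U.inv_mem hu) p'.2).symm
    rw [mul_assoc, h1, Subgroup.coe_mul, Subgroup.coe_inv]
    calc (D.toAd γ')⁻¹ * (D.toAd γ' * x * u' * p' * (p : D.Ad)⁻¹ * u⁻¹) =
          x * u' * (p' * ((p : D.Ad)⁻¹ * u⁻¹)) := by group
      _ = x * u' * ((p' * u⁻¹) * (p : D.Ad)⁻¹) := by rw [hc3]; group
      _ = x * (u' * u⁻¹) * (p' * (p : D.Ad)⁻¹) := by rw [hc4]; group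
  have hr : ((p' * p⁻¹ : T.J) : D.Ad) ∈ stab hU hT.level x :=
    mem_stab.2 ⟨(p' * p⁻¹ : T.J).2, γ'⁻¹ * γ, u' * u⁻¹, U.mul_mem hu' (U.inv_mem hu), h0⟩
  have h2 := congrArg (Hh.hat D) h0
  have hh1 : Hh.hat D (u' * u⁻¹) = 1 := hat_eq_one Hh (hU _ (U.mul_mem hu' (U.inv_mem hu)))
  rw [map_mul, hat_toAd, map_mul (Hh.hat D) _ ((p' * p⁻¹ : T.J) : D.Ad), map_mul (Hh.hat D) x, hh1,
    mul_one, map_mul, map_inv] at h2
  have h3 : D.toCpx γ * Hh.hat D x =
      D.toCpx γ' * Hh.hat D x * Hh.hat D ((p' * p⁻¹ : T.J) : D.Ad) := by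
    rw [mul_assoc, ← h2]
    group
  have h4 := hq.2 ⟨_, hr⟩ (y * (D.toCpx γ * Hh.hat D x))
  have h5 : stabHat Hh hU hT.level x ⟨_, hr⟩ = Hh.hat D ((p' * p⁻¹ : T.J) : D.Ad) := rfl
  have h6 : stabChi hU hT.level x ⟨_, hr⟩ = T.χ (p' * p⁻¹) := rfl
  rw [h5, h6] at h4
  have h7 : y * (D.toCpx γ * Hh.hat D x) * (Hh.hat D ((p' * p⁻¹ : T.J) : D.Ad))⁻¹ =
      y * D.toCpx γ' * Hh.hat D x := by
    rw [h3]
    group
  rw [h7] at h4
  rw [mul_assoc y, ← h4, map_mul, map_inv, Units.val_mul, ← mul_assoc]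
  congr 1
  rw [mul_left_comm, ← Units.val_mul, mul_inv_cancel, Units.val_one, mul_one]

theorem sum_chinv_le [IsTotallyReal F] (hD : IsTotPosDef D.q) (Hh : HatData F ℓ ι) (hU : IsTame ℓ U)
    {T : AdType D} (hT : IsTypeAt ℓ U T) {Q : Submodule ℂ (D.Cpx → ℂ)} (hQ : IsWeight D Q)
    {I : Type} [Fintype I] {x : I → D.Ad} (hx : IsReps U T.J x) :
    ∑ i, Module.finrank ℂ (chinv (stabHat Hh hU hT.level (x i)) (stabChi hU hT.level (x i)) Q) ≤
      Module.finrank ℂ (typeForms D Q U T) := by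
  classical
  choose ix γ u hu p hp hg using hx.surj
  let V : I → Submodule ℂ (D.Cpx → ℂ) := fun i =>
    chinv (stabHat Hh hU hT.level (x i)) (stabChi hU hT.level (x i)) Q
  have hVQ : ∀ i, V i ≤ Q := fun i q hq => hq.1
  have : FiniteDimensional ℂ Q := Module.Finite.iff_fg.2 hQ.fg
  have hfV : ∀ i, FiniteDimensional ℂ (V i) := fun i => Submodule.finiteDimensional_of_le (hVQ i)
  have hfT : FiniteDimensional ℂ (typeForms D Q U T) := finite_typeForms hD hT hQ
  -- the value of the form at any decomposition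
  let f : (∀ i, V i) → D.Ad → D.Cpx → ℂ := fun q g y =>
    ((T.χ ⟨p g, hp g⟩ : ℂˣ) : ℂ) * (q (ix g) : D.Cpx → ℂ) (y * D.toCpx (γ g) * Hh.hat D (x (ix g)))
  have key : ∀ (q : ∀ i, V i) (i : I) (γ' : D.Rat) (u' : D.Ad) (_ : u' ∈ U) (p' : T.J) (y : D.Cpx),
      f q (D.toAd γ' * x i * u' * p') y =
        ((T.χ p' : ℂˣ) : ℂ) * (q i : D.Cpx → ℂ) (y * D.toCpx γ' * Hh.hat D (x i)) := by
    intro q i γ' u' hu' p' y
    obtain ⟨g, hgd⟩ : ∃ g, g = D.toAd γ' * x i * u' * p' := ⟨_, rfl⟩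
    rw [← hgd]
    have hgg := hg g
    have hix : i = ix g := by
      refine hx.inj i (ix g) ((γ g)⁻¹ * γ') (u' * (u g)⁻¹) (U.mul_mem hu' (U.inv_mem (hu g)))
        (p' * (p g)⁻¹) (T.J.mul_mem p'.2 (T.J.inv_mem (hp g))) ?_
      have e1 : x (ix g) = (D.toAd (γ g))⁻¹ * g * (p g)⁻¹ * (u g)⁻¹ := by
        rw [eq_mul_inv_iff_mul_eq, eq_mul_inv_iff_mul_eq, eq_inv_mul_iff_mul_eq, ← mul_assoc, ← mul_assoc]
        exact hgg.symm
      have hc1 : u g * p g = p g * u g := comm_of_level hU hT.level (hu g) (hp g)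
      have hc3 : (p g)⁻¹ * (u g)⁻¹ = (u g)⁻¹ * (p g)⁻¹ := by
        rw [← mul_inv_rev, ← mul_inv_rev, hc1]
      have hc4 : (p' : D.Ad) * (u g)⁻¹ = (u g)⁻¹ * p' :=
        (comm_of_level hU hT.level (U.inv_mem (hu g)) p'.2).symm
      rw [e1, map_mul, map_inv]
      nth_rewrite 2 [hgd]
      calc (D.toAd (γ g))⁻¹ * (D.toAd γ' * x i * u' * p') * (p g)⁻¹ * (u g)⁻¹ =
            (D.toAd (γ g))⁻¹ * D.toAd γ' * x i * u' * (p' * ((p g)⁻¹ * (u g)⁻¹)) := by group
        _ = (D.toAd (γ g))⁻¹ * D.toAd γ' * x i * u' * ((p' * (u g)⁻¹) * (p g)⁻¹) := by rw [hc3]; group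
        _ = (D.toAd (γ g))⁻¹ * D.toAd γ' * x i * (u' * (u g)⁻¹) * (p' * (p g)⁻¹) := by rw [hc4]; group
    subst hix
    refine decomp_unique Hh hU hT (q (ix g)).2 (hu g) hu' (p := ⟨p g, hp g⟩) (p' := p') ?_ y
    rw [← hgd]
    exact hgg.symm
  have hform : ∀ q, f q ∈ typeForms D Q U T := by
    intro q
    refine IsTypeForm.mk' (fun g => ?_) (fun γ' g y => ?_) (fun g u' hu' => ?_) (fun g k => ?_)
    · have h1 := (hQ.mem _ (hVQ _ (q (ix g)).2)).2 (D.toCpx (γ g) * Hh.hat D (x (ix g)))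
      have h2 := Q.smul_mem ((T.χ ⟨p g, hp g⟩ : ℂˣ) : ℂ) h1
      have h3 : f q g = ((T.χ ⟨p g, hp g⟩ : ℂˣ) : ℂ) • fun y =>
          (q (ix g) : D.Cpx → ℂ) (y * (D.toCpx (γ g) * Hh.hat D (x (ix g)))) := by
        funext y
        simp only [f, Pi.smul_apply, smul_eq_mul, mul_assoc]
      rw [h3]
      exact h2
    · have h1 := hg g
      have h2 : D.toAd γ' * g = D.toAd (γ' * γ g) * x (ix g) * u g * (⟨p g, hp g⟩ : T.J) := by
        rw [map_mul]
        conv_lhs => rw [h1]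
        group
      rw [h2, key q (ix g) (γ' * γ g) (u g) (hu g) ⟨p g, hp g⟩ y]
      have h3 : f q g (y * D.toCpx γ') = ((T.χ ⟨p g, hp g⟩ : ℂˣ) : ℂ) *
          (q (ix g) : D.Cpx → ℂ) (y * D.toCpx γ' * D.toCpx (γ g) * Hh.hat D (x (ix g))) := rfl
      rw [h3, map_mul, ← mul_assoc]
    · have h1 := hg g
      have hc : (p g) * u' = u' * p g := (comm_of_level hU hT.level hu' (hp g)).symm
      have h2 : g * u' = D.toAd (γ g) * x (ix g) * (u g * u') * (⟨p g, hp g⟩ : T.J) := by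
        conv_lhs => rw [h1]
        calc D.toAd (γ g) * x (ix g) * u g * p g * u' = D.toAd (γ g) * x (ix g) * u g * (p g * u') := by group
          _ = D.toAd (γ g) * x (ix g) * u g * (u' * p g) := by rw [hc]
          _ = _ := by group
      funext y
      rw [h2, key q (ix g) (γ g) (u g * u') (U.mul_mem (hu g) hu') ⟨p g, hp g⟩ y]
    · have h1 := hg g
      have h2 : g * k = D.toAd (γ g) * x (ix g) * u g * ((⟨p g, hp g⟩ * k : T.J) : D.Ad) := by
        conv_lhs => rw [h1]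
        rw [Subgroup.coe_mul]
        group
      funext y
      rw [h2, key q (ix g) (γ g) (u g) (hu g) (⟨p g, hp g⟩ * k) y, Pi.smul_apply, smul_eq_mul, map_mul,
        Units.val_mul]
      have h3 : f q g y = ((T.χ ⟨p g, hp g⟩ : ℂˣ) : ℂ) *
          (q (ix g) : D.Cpx → ℂ) (y * D.toCpx (γ g) * Hh.hat D (x (ix g))) := rfl
      rw [h3]
      ring
  let Φ : (∀ i, V i) →ₗ[ℂ] typeForms D Q U T :=
    { toFun := fun q => ⟨f q, hform q⟩
      map_add' := fun q q' => by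
        apply Subtype.ext
        funext g y
        change ((T.χ ⟨p g, hp g⟩ : ℂˣ) : ℂ) * ((q (ix g) : D.Cpx → ℂ) _ + (q' (ix g) : D.Cpx → ℂ) _) =
          ((T.χ ⟨p g, hp g⟩ : ℂˣ) : ℂ) * (q (ix g) : D.Cpx → ℂ) _ +
            ((T.χ ⟨p g, hp g⟩ : ℂˣ) : ℂ) * (q' (ix g) : D.Cpx → ℂ) _
        ring
      map_smul' := fun c q => by
        apply Subtype.ext
        funext g y
        change ((T.χ ⟨p g, hp g⟩ : ℂˣ) : ℂ) * (c * (q (ix g) : D.Cpx → ℂ) _) =
          c * (((T.χ ⟨p g, hp g⟩ : ℂˣ) : ℂ) * (q (ix g) : D.Cpx → ℂ) _)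
        ring }
  have hinj : Function.Injective Φ := by
    rw [← LinearMap.ker_eq_bot, LinearMap.ker_eq_bot']
    intro q h0
    funext i
    apply Subtype.ext
    funext y
    have h1 : f q = 0 := congrArg Subtype.val h0
    have h2 := key q i 1 1 U.one_mem 1 (y * (Hh.hat D (x i))⁻¹)
    rw [h1, map_one, map_one, map_one, Units.val_one, one_mul, mul_one, mul_one, one_mul,
      inv_mul_cancel_right] at h2
    exact h2.symm
  have h1 := LinearMap.finrank_le_finrank_of_injective hinj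
  have h2 : Module.finrank ℂ (∀ i, V i) = ∑ i, Module.finrank ℂ (V i) := Module.finrank_pi_fintype ℂ
  rw [h2] at h1
  exact h1

end Pool.Agent.Lib.MP_666dc0_nt.PL
end

section

/-!
TASK L4. The lower bound for the number of forms of a type.

Take `x` as in `exists_reps` and `H` as in `exists_H` (`L = P = T.J`, `s = 0`). All `stab (x i)` are finite (`mass`).
Multipliers: the finite set of the elements `ĝ`, `g ∈ stab (x i)`, `i ∈ I`, of `G(F ⊗ ℂ)`: for `ĝ ≠ 1` there are `τ, a, b` with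
`coord τ a b ĝ⁻¹ ≠ coord τ a b 1` (`Cpx_ext` of `WL/D1.lean`), so there is a product `a₀` of affine functions of the
coordinates, of degree `≤ m` (`m` = the number of these elements, for all `i`), with `a₀ 1 = 1` and `a₀ ĝ⁻¹ = 0`;
`a y x = a₀ (y⁻¹ * x)` (`polyLE_trans_left`), `a y * q ∈ Q` for `q ∈ core Q m`. `core Q m` is stable under right translations
(`h * q(·y) = (h(·y⁻¹) * q)(·y)`, `polyLE_trans`). By `le_card_mul_chinv` (`stabHat_injective`):
`dim core Q m ≤ card (stab (x i)) * dim chinv_i`, so with `sum_chinv_le` and `mass`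
`dim (typeForms) ≥ ∑ i, dim core Q m / card (stab (x i)) = card R * H.relIndex (K 0) / H.relIndex P * dim core Q m`
`= card R * gidx (K 0) P * dim core Q m`.
-/

open NumberField IsDedekindDomain
open scoped NumberField

namespace Pool.Agent.Lib.MP_666dc0_nt.PL

open WL ZO

variable {F : Type} [Field F] [NumberField F] {n : ℕ} {D : Datum F n} {ℓ : ℕ} [Fact ℓ.Prime]
  {ι : ℂ ≃+* PadicAlgCl ℓ} {U : Subgroup D.Ad} {K : ℕ → Subgroup D.Ad} {d : ℕ}

omit [NumberField F] in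
theorem core_le (Q : Submodule ℂ (D.Cpx → ℂ)) (m : ℕ) : core Q m ≤ Q := fun _ h => h.1

theorem core_trans {Q : Submodule ℂ (D.Cpx → ℂ)} (hQ : IsWeight D Q) (m : ℕ) {q : D.Cpx → ℂ} (hq : q ∈ core Q m)
    (y : D.Cpx) : (fun x => q (x * y)) ∈ core Q m := by
  refine ⟨(hQ.mem q hq.1).2 y, fun h hh => ?_⟩
  have h1 : (h * fun x => q (x * y)) = fun x => ((fun z => h (z * y⁻¹)) * q) (x * y) := by
    funext x
    rw [Pi.mul_apply, Pi.mul_apply, mul_inv_cancel_right]
  rw [h1]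
  exact (hQ.mem _ (hq.2 _ (polyLE_trans hh y⁻¹))).2 y

theorem core_anti (Q : Submodule ℂ (D.Cpx → ℂ)) {m m' : ℕ} (h : m ≤ m') : core Q m' ≤ core Q m :=
  fun _ hq => ⟨hq.1, fun p hp => hq.2 p (polyLE_mono h hp)⟩

/-- Polynomial functions which separate `1` from finitely many other points. -/
theorem exists_sep (Z : Finset D.Cpx) (hZ : (1 : D.Cpx) ∉ Z) :
    ∃ a ∈ polyLE D Z.card, a 1 = 1 ∧ ∀ z ∈ Z, a z = 0 := by
  classical
  induction Z using Finset.induction_on with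
  | empty =>
    refine ⟨1, ?_, rfl, fun z hz => absurd hz (Finset.notMem_empty z)⟩
    unfold polyLE
    rw [Finset.card_empty, pow_zero]
    exact Submodule.one_le.1 le_rfl
  | insert z Z hz ih =>
    obtain ⟨a, ha, ha1, haZ⟩ := ih fun h => hZ (Finset.mem_insert_of_mem h)
    have hz1 : z ≠ 1 := fun h => hZ (h ▸ Finset.mem_insert_self z Z)
    have h1 : ∃ τ i j, coord D τ i j z ≠ coord D τ i j 1 := by
      by_contra hcon
      simp only [not_exists, not_not] at hcon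
      exact hz1 (Cpx_ext hcon)
    obtain ⟨τ, i, j, hne⟩ := h1
    have hne' : coord D τ i j 1 - coord D τ i j z ≠ 0 := sub_ne_zero.2 hne.symm
    let b : D.Cpx → ℂ := (coord D τ i j 1 - coord D τ i j z)⁻¹ •
      (coord D τ i j - coord D τ i j z • (1 : D.Cpx → ℂ))
    have hb : ∀ x, b x = (coord D τ i j 1 - coord D τ i j z)⁻¹ * (coord D τ i j x - coord D τ i j z) := by
      intro x
      change (coord D τ i j 1 - coord D τ i j z)⁻¹ * (coord D τ i j x - coord D τ i j z * 1) = _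
      rw [mul_one]
    have hbm : b ∈ Submodule.span ℂ ({1} ∪ {p | ∃ τ i j, p = coord D τ i j} : Set (D.Cpx → ℂ)) :=
      Submodule.smul_mem _ _ (Submodule.sub_mem _ (Submodule.subset_span (Or.inr ⟨τ, i, j, rfl⟩))
        (Submodule.smul_mem _ _ (Submodule.subset_span (Or.inl rfl))))
    refine ⟨a * b, ?_, ?_, fun x hx => ?_⟩
    · unfold polyLE at ha ⊢
      rw [Finset.card_insert_of_notMem hz, pow_succ]
      exact Submodule.mul_mem_mul ha hbm
    · rw [Pi.mul_apply, ha1, hb, one_mul, inv_mul_cancel₀ hne']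
    · rw [Pi.mul_apply]
      rcases Finset.mem_insert.1 hx with rfl | h
      · rw [hb, sub_self, mul_zero, mul_zero]
      · rw [haZ x h, zero_mul]

theorem finrank_typeForms_ge [IsTotallyReal F] (hD : IsTotPosDef D.q) (Hh : HatData F ℓ ι) (hU : IsTame ℓ U)
    (hK : IsUniform ℓ d U K) (c : Chart U K) {T : AdType D} (hT : IsTypeAt ℓ U T) :
    ∃ m : ℕ, ∀ Q, IsWeight D Q →
      (Fintype.card c.R : ℝ) * gidx (K 0) T.J * Module.finrank ℂ (core Q m) ≤
        Module.finrank ℂ (typeForms D Q U T) := by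
  classical
  obtain ⟨I, _, x, hx⟩ := exists_reps hD hU hT.level
  obtain ⟨H, hHL, -, hHK, -, hn, -, h0, h0', -, hg⟩ := exists_H hU hK hT.level hT.level le_rfl 0
  obtain ⟨hfin, hmass⟩ := mass hD ι hU hK.tow c hT.level hHL hHK hn h0 h0' hx
  have hZfin : (⋃ i, Set.range fun g : stab hU hT.level (x i) => (stabHat Hh hU hT.level (x i) g)⁻¹).Finite :=
    Set.finite_iUnion fun i => by
      have := hfin i
      exact Set.finite_range _
  let Z : Finset D.Cpx := hZfin.toFinset.erase 1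
  obtain ⟨a₀, ha₀, ha1, ha0⟩ := exists_sep Z (Finset.notMem_erase 1 _)
  refine ⟨Z.card, fun Q hQ => ?_⟩
  have hfd : FiniteDimensional ℂ Q := Module.Finite.iff_fg.2 hQ.fg
  have key : ∀ i, Module.finrank ℂ (core Q Z.card) ≤ Nat.card (stab hU hT.level (x i)) *
      Module.finrank ℂ (chinv (stabHat Hh hU hT.level (x i)) (stabChi hU hT.level (x i)) Q) := by
    intro i
    have := hfin i
    refine le_card_mul_chinv (stabHat Hh hU hT.level (x i)) (stabHat_injective Hh hU hT.level (x i))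
      (stabChi hU hT.level (x i)) (fun y z => a₀ (y⁻¹ * z)) (fun y => ?_) (fun y γ hγ => ?_) Q (core Q Z.card)
      (core_le Q _) (fun q hq γ => (hQ.mem q hq).2 _) (fun q hq γ => core_trans hQ _ hq _) (fun y q hq => ?_)
    · rw [inv_mul_cancel, ha1]
    · change a₀ (y⁻¹ * (y * (stabHat Hh hU hT.level (x i) γ)⁻¹)) = 0
      rw [inv_mul_cancel_left]
      refine ha0 _ (Finset.mem_erase.2 ⟨fun h => hγ ?_, hZfin.mem_toFinset.2 (Set.mem_iUnion.2 ⟨i, γ, rfl⟩)⟩)
      refine stabHat_injective Hh hU hT.level (x i) ?_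
      rw [map_one]
      exact inv_eq_one.1 h
    · exact hq.2 _ (polyLE_trans_left ha₀ y⁻¹)
  have hpos : ∀ i, (0 : ℝ) < Nat.card (stab hU hT.level (x i)) := fun i => by
    have := hfin i
    exact_mod_cast Nat.card_pos
  have hr : (H.relIndex T.J : ℝ) ≠ 0 := by exact_mod_cast h0
  have hs : ∑ i, (1 : ℝ) / Nat.card (stab hU hT.level (x i)) = Fintype.card c.R * gidx (K 0) T.J := by
    have h1 : (H.relIndex T.J : ℝ) * ∑ i, (1 : ℝ) / Nat.card (stab hU hT.level (x i)) =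
        (H.relIndex T.J : ℝ) * (Fintype.card c.R * gidx (K 0) T.J) := by
      rw [Finset.mul_sum]
      simp only [mul_one_div]
      rw [hmass, hg]
      ring
    exact mul_left_cancel₀ hr h1
  rw [← hs, Finset.sum_mul]
  refine le_trans (Finset.sum_le_sum fun i _ => ?_)
    (show (∑ i, (Module.finrank ℂ (chinv (stabHat Hh hU hT.level (x i)) (stabChi hU hT.level (x i)) Q) : ℝ)) ≤
      (Module.finrank ℂ (typeForms D Q U T) : ℝ) by exact_mod_cast sum_chinv_le hD Hh hU hT hQ hx)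
  rw [one_div_mul_eq_div, div_le_iff₀ (hpos i), mul_comm]
  exact_mod_cast key i

end Pool.Agent.Lib.MP_666dc0_nt.PL
end
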