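import Pool.Agent.Lib.MP_666dc0_nt.FM.FDefs
import Pool.Agent.Lib.MP_666dc0_nt.FM.D
import Pool.Agent.Lib.MP_666dc0_nt.FM.E

section

/-!
# FM, Main: the families of systems of eigenvalues
-/

open NumberField IsDedekindDomain TensorProduct
open scoped NumberField TensorProduct

namespace Pool.Agent.Lib.MP_666dc0_nt.FM

open WL ZO

variable {F : Type} [Field F] [NumberField F] {n : ℕ} {D : Datum F n} {ℓ : ℕ} [Fact ℓ.Prime]
  {S : Finset (HeightOneSpectrum (𝓞 F))} {U : Subgroup D.Ad}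

theorem closed_iff {ι : ℂ ≃+* PadicAlgCl ℓ} {K : ℕ → Subgroup D.Ad}
    {𝒜 : AFam (PadicAlgCl ℓ) ℓ {e : ∀ v, Hecke U v → ℂ // e ∈ AllSys ℓ S U}} (h : IsModel S ι K 𝒜)
    (p : (∀ v, Hecke U v → ℂ) → Prop) : IsClosedProp ℓ S ι p ↔ 𝒜.Closed {x | p x.1} := by
  have e : Subtype.val '' {x : {e : ∀ v, Hecke U v → ℂ // e ∈ AllSys ℓ S U} | p x.1} =
      {e | e ∈ AllSys ℓ S U ∧ p e} := by
    ext e
    constructor
    · rintro ⟨x, hx, rfl⟩
      exact ⟨x.2, hx⟩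
    · rintro ⟨h1, h2⟩
      exact ⟨⟨e, h1⟩, h2, rfl⟩
  constructor
  · intro hp x hx
    have h1 := (h.cls {x | p x.1} x).1 hx
    rw [e] at h1
    exact hp x.1 x.2 h1
  · intro hp lam hlam hc
    refine hp ⟨lam, hlam⟩ ((h.cls {x | p x.1} ⟨lam, hlam⟩).2 ?_)
    rw [e]
    exact hc

private theorem closed_iff' {ι : ℂ ≃+* PadicAlgCl ℓ} {K : ℕ → Subgroup D.Ad}
    {𝒜 : AFam (PadicAlgCl ℓ) ℓ {e : ∀ v, Hecke U v → ℂ // e ∈ AllSys ℓ S U}} (h : IsModel S ι K 𝒜)
    (P : Set {e : ∀ v, Hecke U v → ℂ // e ∈ AllSys ℓ S U}) :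
    IsClosedProp ℓ S ι (· ∈ Subtype.val '' P) ↔ 𝒜.Closed P := by
  rw [closed_iff h]
  have e : {x : {e : ∀ v, Hecke U v → ℂ // e ∈ AllSys ℓ S U} | x.1 ∈ Subtype.val '' P} = P := by
    ext x
    constructor
    · rintro ⟨y, hy, hxy⟩
      rwa [Subtype.ext hxy] at hy
    · intro hx
      exact ⟨x, hx, rfl⟩
  rw [e]

theorem exists_isFamilies [IsTotallyReal F] (hD : IsTotPosDef D.q)
    (hSl : ∀ v : HeightOneSpectrum (𝓞 F), (ℓ : 𝓞 F) ∈ v.asIdeal → v ∈ S) (hU : IsTame ℓ U)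
    (hUS : ∀ v, v ∉ S → IsGoodAt U v) (ι : ℂ ≃+* PadicAlgCl ℓ) {d : ℕ} {K : ℕ → Subgroup D.Ad}
    (hK : IsUniform ℓ d U K) :
    (∃ (k : ℕ) (C : Fin k → Set (∀ v, Hecke U v → ℂ)) (a : Fin k → ℕ), IsFamilies ℓ S K ι C a) ∧
      IsNoeth ℓ S U ι := by
  classical
  obtain ⟨𝒜, h⟩ := exists_model hD hSl hU hUS ι hK
  have hℓ : 1 < ℓ := (Fact.out : ℓ.Prime).one_lt
  refine ⟨?_, ?_⟩
  · obtain ⟨k, C, a, hinj, hirr, hpos, hcov, hsum, hdens⟩ := 𝒜.families h.good hℓ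
    refine ⟨k, fun i => Subtype.val '' C i, a, ?_, hpos, hsum.trans h.card, ?_, ?_, ?_, ?_, ?_⟩
    · intro i j hij
      exact hinj (Set.image_injective.2 Subtype.val_injective hij)
    · rw [← Set.image_iUnion, hcov, Set.image_univ, Subtype.range_coe]
    · intro i
      exact (hirr i).2.1.image _
    · intro i
      exact (closed_iff' h (C i)).2 (hirr i).1
    · intro i p q hp hq hpq
      have h1 := (hirr i).2.2 _ _ ((closed_iff h p).1 hp) ((closed_iff h q).1 hq)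
        (fun x hx => hpq x.1 ⟨x, hx, rfl⟩)
      rcases h1 with h1 | h1
      · left
        rintro _ ⟨x, hx, rfl⟩
        exact h1 hx
      · right
        rintro _ ⟨x, hx, rfl⟩
        exact h1 hx
    · intro p hp
      obtain ⟨c, hc⟩ := hdens _ ((closed_iff h p).1 hp)
      refine ⟨c, fun s J hJ hJs Q hQ => ?_⟩
      obtain ⟨i, hi1, hi2, hi3⟩ := h.idx s J hJ hJs Q hQ
      have h1 := hc i
      rw [hi1, hi2] at h1
      have e1 : dimE S Q U J p = Module.finrank (PadicAlgCl ℓ)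
          (⨆ x ∈ {x : {e : ∀ v, Hecke U v → ℂ // e ∈ AllSys ℓ S U} | p x.1}, 𝒜.eig i x :
            Submodule (PadicAlgCl ℓ) (𝒜.R → 𝒜.fam.W i)) := hi3 p
      rw [e1]
      have e2 : (∑ i with ∀ lam ∈ Subtype.val '' C i, p lam, a i) =
          ∑ j, (if C j ⊆ {x | p x.1} then a j else 0) := by
        rw [Finset.sum_filter]
        refine Finset.sum_congr rfl fun j _ => ?_
        refine if_congr ?_ rfl rfl
        constructor
        · intro h2 x hx
          exact h2 x.1 ⟨x, hx, rfl⟩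
        · rintro h2 _ ⟨x, hx, rfl⟩
          exact h2 hx
      rw [e2]
      exact h1
  · intro p hp hle
    obtain ⟨j, hj⟩ := 𝒜.dcc h.good (fun j => {x | p j x.1}) (fun j => (closed_iff h (p j)).1 (hp j))
      (fun j x hx => hle j x.1 x.2 hx)
    refine ⟨j, fun j' hj' lam hlam hpl => ?_⟩
    have h1 : (⟨lam, hlam⟩ : {e : ∀ v, Hecke U v → ℂ // e ∈ AllSys ℓ S U}) ∈ {x | p j x.1} := hpl
    rw [← hj j' hj'] at h1
    exact h1

/-- The existence of an attached homomorphism is a closed property. -/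
theorem isClosedProp_att [IsTotallyReal F] {B : Type} [CommRing B] (hD : IsTotPosDef D.q)
    [IsDomain B] [IsPrincipalIdealRing B] [Algebra B ℚ] [IsFractionRing B ℚ] [Algebra B (PadicAlgCl ℓ)]
    {O : Type} [CommRing O] [HopfAlgebra B O] [Algebra.FiniteType B O] [Module.Free B O]
    (hO : LinearlyReductive (ℚ ⊗[B] O)) (A : OverB.HopfAction B Gal(AlgebraicClosure F/F) O)
    (hA : IsOpen (A.act.ker : Set Gal(AlgebraicClosure F/F)))
    (hS : ∀ v, v ∉ S → ∀ P u, IsInertiaAt v P u → A.act u = 1)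
    (hSl : ∀ v : HeightOneSpectrum (𝓞 F), (ℓ : 𝓞 F) ∈ v.asIdeal → v ∈ S)
    (φ : HeightOneSpectrum (𝓞 F) → Gal(AlgebraicClosure F/F))
    (hφ : ∀ v, v ∉ S → ∃ P : Ideal (𝓞 (AlgebraicClosure F)), IsOver v P ∧
      (IsFrob v P (φ v) ∨ IsFrob v P (φ v)⁻¹))
    (hU : IsTame ℓ U) (hUS : ∀ v, v ∉ S → IsGoodAt U v)
    (sat : ∀ v, A.inv (φ v) → Hecke U v) (hsat : ∀ v f, (sat v f).IsIntegral ℓ) (ι : ℂ ≃+* PadicAlgCl ℓ) :
    IsClosedProp ℓ S ι (Att ℓ A S φ sat ι) := by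
  intro lam hlam hctl
  have hint : ∀ m ∈ AllSys ℓ S U, ∀ x : IX ℓ S U, ‖ι (m x.1.1 x.1.2)‖ ≤ 1 := by
    rintro m ⟨K', hK', hm⟩ x
    exact norm_lam_le_one hD ℓ S hSl U hU hUS hK' hm ι x
  have hfld : ∀ m ∈ AllSys ℓ S U, ∃ E : IntermediateField ℚ ℂ, FiniteDimensional ℚ E ∧
      ∀ v, v ∉ S → ∀ h, m v h ∈ E := by
    rintro m ⟨K', hK', hm⟩
    exact exists_numberField hD S (U ⊔ K') hK'.isOpen hm
  have hins : ∀ m ∈ insert lam {e | e ∈ AllSys ℓ S U ∧ Att ℓ A S φ sat ι e}, m ∈ AllSys ℓ S U := by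
    intro m hm
    rcases Set.mem_insert_iff.1 hm with rfl | hm
    · exact hlam
    · exact hm.1
  exact exists_attached_of_controlled ℓ hO A hA S hS φ hφ sat hsat ι _ lam hctl
    (fun m hm => hfld m (hins m hm)) (fun m hm => hint m (hins m hm)) (fun m hm => hm.2)

/-- The vanishing of a polynomial in the Hecke operators is a closed property. -/
theorem isClosedProp_pval (ι : ℂ ≃+* PadicAlgCl ℓ) (P : MvPolynomial (IX ℓ S U) ℤ) :
    IsClosedProp ℓ S ι fun lam => pval ℓ S lam P = 0 := by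
  intro lam _ hctl
  have h1 : ∀ ε : ℝ, 0 < ε → ‖ι (pval ℓ S lam P)‖ ≤ ε := by
    intro ε hε
    obtain ⟨I, -, hI, δ, hδ, h⟩ := hctl ε hε
    refine h P fun e he => ?_
    have h2 : pval ℓ S e P = 0 := (hI he).2
    rw [h2, map_zero, norm_zero]
    exact hδ.le
  have h2 : ‖ι (pval ℓ S lam P)‖ ≤ 0 := le_of_forall_pos_le_add fun ε hε => by
    rw [zero_add]
    exact h1 ε hε
  have h3 : ι (pval ℓ S lam P) = 0 := norm_le_zero_iff.1 h2
  exact (map_eq_zero_iff ι ι.injective).1 h3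

end Pool.Agent.Lib.MP_666dc0_nt.FM
end

section

/-!
# FM, U: the families are unique
-/

open NumberField IsDedekindDomain TensorProduct
open scoped NumberField TensorProduct

namespace Pool.Agent.Lib.MP_666dc0_nt.FM

open WL ZO

variable {F : Type} [Field F] [NumberField F] {n : ℕ} {D : Datum F n} {ℓ : ℕ} [Fact ℓ.Prime]
  {S : Finset (HeightOneSpectrum (𝓞 F))} {U : Subgroup D.Ad}

private theorem density_le {d : ℕ} {K : ℕ → Subgroup D.Ad} (hK : IsUniform ℓ d U K)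
    {p : (∀ v, Hecke U v → ℂ) → Prop} {a b : ℕ} (ha : HasDensity ℓ S U K p a) (hb : HasDensity ℓ S U K p b) :
    a ≤ b := by
  obtain ⟨C, hC⟩ := ha
  obtain ⟨C', hC'⟩ := hb
  by_contra hcon
  have h1 : (1 : ℝ) ≤ (a : ℝ) - b := by
    have : (b : ℝ) + 1 ≤ a := by exact_mod_cast Nat.succ_le_of_lt (not_le.1 hcon)
    linarith
  have hℓ : (1 : ℝ) < ℓ := by exact_mod_cast (Fact.out : ℓ.Prime).one_lt
  obtain ⟨s, hs⟩ := pow_unbounded_of_one_lt (C + C') hℓ
  have h2 := hC s (K s) (hK.level s) le_rfl (constSub D) isWeight_const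
  have h3 := hC' s (K s) (hK.level s) le_rfl (constSub D) isWeight_const
  have hw : (0 : ℝ) < wt (constSub D) (K 0) (K s) := by
    have : 0 < wt (constSub D) (K 0) (K s) := by
      unfold wt
      rw [finrank_const, hK.index s, mul_one]
      exact pow_pos (Fact.out : ℓ.Prime).pos _
    exact_mod_cast this
  have hpos : (0 : ℝ) < (ℓ : ℝ) ^ s := by positivity
  generalize (wt (constSub D) (K 0) (K s) : ℝ) = w at h2 h3 hw
  generalize (dimE S (constSub D) U (K s) p : ℝ) = x at h2 h3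
  have h4 := (abs_le.1 h2).1
  have h5 := (abs_le.1 h3).2
  have h6 : ((a : ℝ) - b) * w ≤ (C + C') / (ℓ : ℝ) ^ s * w := by
    have : (C + C') / (ℓ : ℝ) ^ s * w = C / (ℓ : ℝ) ^ s * w + C' / (ℓ : ℝ) ^ s * w := by ring
    rw [this, sub_mul]
    linarith
  have h7 : (a : ℝ) - b ≤ (C + C') / (ℓ : ℝ) ^ s := le_of_mul_le_mul_right h6 hw
  have h8 : (C + C') / (ℓ : ℝ) ^ s < 1 := (div_lt_one hpos).2 hs
  linarith

/-- The union of finitely many closed sets is closed. -/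
private theorem closed_biUnion [IsTotallyReal F] (hD : IsTotPosDef D.q)
    (hSl : ∀ v : HeightOneSpectrum (𝓞 F), (ℓ : 𝓞 F) ∈ v.asIdeal → v ∈ S) (hU : IsTame ℓ U)
    (hUS : ∀ v, v ∉ S → IsGoodAt U v) (ι : ℂ ≃+* PadicAlgCl ℓ) {d : ℕ} {K : ℕ → Subgroup D.Ad}
    (hK : IsUniform ℓ d U K) {I : Type} (t : Finset I) (p : I → (∀ v, Hecke U v → ℂ) → Prop)
    (hp : ∀ i ∈ t, IsClosedProp ℓ S ι (p i)) : IsClosedProp ℓ S ι fun lam => ∃ i ∈ t, p i lam := by
  classical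
  obtain ⟨𝒜, h⟩ := exists_model hD hSl hU hUS ι hK
  induction t using Finset.induction_on with
  | empty =>
    refine (closed_iff h _).2 ?_
    have e : {x : {e : ∀ v, Hecke U v → ℂ // e ∈ AllSys ℓ S U} | ∃ i ∈ (∅ : Finset I), p i x.1} = ∅ := by
      ext x
      simp
    rw [e]
    exact 𝒜.closed_empty
  | insert j t _ ih =>
    refine (closed_iff h _).2 ?_
    have e : {x : {e : ∀ v, Hecke U v → ℂ // e ∈ AllSys ℓ S U} | ∃ i ∈ insert j t, p i x.1} =
        {x | p j x.1} ∪ {x | ∃ i ∈ t, p i x.1} := by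
      ext x
      simp
    rw [e]
    exact 𝒜.closed_union ((closed_iff h _).1 (hp j (Finset.mem_insert_self j t)))
      ((closed_iff h _).1 (ih fun i hi => hp i (Finset.mem_insert_of_mem hi)))

open Classical in
private theorem mult_eq {K : ℕ → Subgroup D.Ad} {ι : ℂ ≃+* PadicAlgCl ℓ} {k : ℕ}
    {C : Fin k → Set (∀ v, Hecke U v → ℂ)} {a : Fin k → ℕ} (h : IsFamilies ℓ S K ι C a)
    {Z P : Set (∀ v, Hecke U v → ℂ)} (hPZ : P ⊆ Z) (hZP : ¬Z ⊆ P) (hC : ∀ i, C i ⊆ Z → C i ≠ Z → C i ⊆ P) :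
    (∑ i with ∀ lam ∈ C i, lam ∈ Z, a i) = (∑ i with ∀ lam ∈ C i, lam ∈ P, a i) + ∑ i with C i = Z, a i := by
  have _ := h.inj
  rw [← Finset.sum_union]
  · refine Finset.sum_congr ?_ fun _ _ => rfl
    ext i
    simp only [Finset.mem_filter, Finset.mem_univ, true_and, Finset.mem_union]
    constructor
    · intro hi
      by_cases he : C i = Z
      · exact Or.inr he
      · exact Or.inl fun lam hlam => hC i hi he hlam
    · rintro (hi | hi)
      · exact fun lam hlam => hPZ (hi lam hlam)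
      · rw [hi]
        exact fun lam hlam => hlam
  · rw [Finset.disjoint_left]
    intro i hi hi'
    simp only [Finset.mem_filter, Finset.mem_univ, true_and] at hi hi'
    rw [hi'] at hi
    exact hZP hi

/-- The families and their multiplicities are unique. -/
theorem IsFamilies.exists_eq [IsTotallyReal F] (hD : IsTotPosDef D.q)
    (hSl : ∀ v : HeightOneSpectrum (𝓞 F), (ℓ : 𝓞 F) ∈ v.asIdeal → v ∈ S) (hU : IsTame ℓ U)
    (hUS : ∀ v, v ∉ S → IsGoodAt U v) {ι : ℂ ≃+* PadicAlgCl ℓ} {d : ℕ} {K : ℕ → Subgroup D.Ad}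
    (hK : IsUniform ℓ d U K) {k k' : ℕ} {C : Fin k → Set (∀ v, Hecke U v → ℂ)} {a : Fin k → ℕ}
    {C' : Fin k' → Set (∀ v, Hecke U v → ℂ)} {a' : Fin k' → ℕ} (h : IsFamilies ℓ S K ι C a)
    (h' : IsFamilies ℓ S K ι C' a') (i : Fin k) : ∃ j, C' j = C i ∧ a' j = a i := by
  classical
  -- the union of the members of both systems of families which are properly contained in `C i`
  let fam : Fin k ⊕ Fin k' → Set (∀ v, Hecke U v → ℂ) := Sum.elim C C'
  have hfcl : ∀ x, IsClosedProp ℓ S ι (· ∈ fam x) := by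
    rintro (x | x)
    · exact h.closed x
    · exact h'.closed x
  let t : Finset (Fin k ⊕ Fin k') := Finset.univ.filter fun x => fam x ⊆ C i ∧ fam x ≠ C i
  obtain ⟨P, hP⟩ : ∃ P : Set (∀ v, Hecke U v → ℂ), P = {lam | ∃ x ∈ t, lam ∈ fam x} := ⟨_, rfl⟩
  have hPcl : ∀ t' : Finset (Fin k ⊕ Fin k'), IsClosedProp ℓ S ι fun lam => ∃ x ∈ t', lam ∈ fam x := fun t' =>
    closed_biUnion hD hSl hU hUS ι hK t' (fun x lam => lam ∈ fam x) fun x _ => hfcl x
  have hPZ : P ⊆ C i := by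
    rw [hP]
    rintro lam ⟨x, hx, hlam⟩
    exact (Finset.mem_filter.1 hx).2.1 hlam
  have hZP : ¬C i ⊆ P := by
    intro hsub
    -- irreducibility for a finite union
    have key : ∀ t' : Finset (Fin k ⊕ Fin k'), t' ⊆ t → ¬∀ lam ∈ C i, ∃ x ∈ t', lam ∈ fam x := by
      intro t'
      induction t' using Finset.induction_on with
      | empty =>
        intro _ hall
        obtain ⟨lam, hlam⟩ := h.nonempty i
        obtain ⟨x, hx, -⟩ := hall lam hlam
        exact absurd hx (Finset.notMem_empty x)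
      | insert y t' _ ih =>
        intro hsub' hall
        rcases h.irred i (· ∈ fam y) (fun lam => ∃ x ∈ t', lam ∈ fam x) (hfcl y) (hPcl t')
          (fun lam hlam => by
            obtain ⟨x, hx, hlx⟩ := hall lam hlam
            rcases Finset.mem_insert.1 hx with rfl | hx
            · exact Or.inl hlx
            · exact Or.inr ⟨x, hx, hlx⟩) with h1 | h1
        · have h2 := (Finset.mem_filter.1 (hsub' (Finset.mem_insert_self y t'))).2
          exact h2.2 (Set.Subset.antisymm h2.1 h1)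
        · exact ih (fun x hx => hsub' (Finset.mem_insert_of_mem hx)) h1
    refine key t subset_rfl fun lam hlam => ?_
    have h3 := hsub hlam
    rw [hP] at h3
    exact h3
  have hPc : IsClosedProp ℓ S ι (· ∈ P) := by
    rw [hP]
    exact hPcl t
  have hC1 : ∀ j, C j ⊆ C i → C j ≠ C i → C j ⊆ P := by
    intro j h1 h2 lam hlam
    rw [hP]
    exact ⟨Sum.inl j, Finset.mem_filter.2 ⟨Finset.mem_univ _, h1, h2⟩, hlam⟩
  have hC2 : ∀ j, C' j ⊆ C i → C' j ≠ C i → C' j ⊆ P := by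
    intro j h1 h2 lam hlam
    rw [hP]
    exact ⟨Sum.inr j, Finset.mem_filter.2 ⟨Finset.mem_univ _, h1, h2⟩, hlam⟩
  have e1 := mult_eq h hPZ hZP hC1
  have e2 := mult_eq h' hPZ hZP hC2
  have e3 : (∑ j with ∀ lam ∈ C j, lam ∈ C i, a j) = ∑ j with ∀ lam ∈ C' j, lam ∈ C i, a' j :=
    le_antisymm (density_le hK (h.density _ (h.closed i)) (h'.density _ (h.closed i)))
      (density_le hK (h'.density _ (h.closed i)) (h.density _ (h.closed i)))
  have e4 : (∑ j with ∀ lam ∈ C j, lam ∈ P, a j) = ∑ j with ∀ lam ∈ C' j, lam ∈ P, a' j :=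
    le_antisymm (density_le hK (h.density _ hPc) (h'.density _ hPc))
      (density_le hK (h'.density _ hPc) (h.density _ hPc))
  have e5 : (∑ j with C j = C i, a j) = ∑ j with C' j = C i, a' j := by omega
  have e6 : (∑ j with C j = C i, a j) = a i := by
    have e : (Finset.univ.filter fun j => C j = C i) = {i} := by
      ext j
      simp only [Finset.mem_filter, Finset.mem_univ, true_and, Finset.mem_singleton]
      exact ⟨fun hj => h.inj hj, fun hj => by rw [hj]⟩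
    rw [e, Finset.sum_singleton]
  have hne : ∃ j, C' j = C i := by
    by_contra hcon
    push Not at hcon
    have e : (Finset.univ.filter fun j => C' j = C i) = ∅ := Finset.filter_eq_empty_iff.2 fun j _ => hcon j
    rw [e, Finset.sum_empty, e6] at e5
    exact absurd (h.pos i) (by omega)
  obtain ⟨j, hj⟩ := hne
  refine ⟨j, hj, ?_⟩
  have e : (Finset.univ.filter fun j => C' j = C i) = {j} := by
    ext j'
    simp only [Finset.mem_filter, Finset.mem_univ, true_and, Finset.mem_singleton]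
    exact ⟨fun h1 => h'.inj (h1.trans hj.symm), fun h1 => by rw [h1]; exact hj⟩
  rw [e, Finset.sum_singleton, e6] at e5
  exact e5.symm

/-- The families are unique up to their order. -/
theorem IsFamilies.unique [IsTotallyReal F] (hD : IsTotPosDef D.q)
    (hSl : ∀ v : HeightOneSpectrum (𝓞 F), (ℓ : 𝓞 F) ∈ v.asIdeal → v ∈ S) (hU : IsTame ℓ U)
    (hUS : ∀ v, v ∉ S → IsGoodAt U v) {ι : ℂ ≃+* PadicAlgCl ℓ} {d : ℕ} {K : ℕ → Subgroup D.Ad}
    (hK : IsUniform ℓ d U K) {k k' : ℕ} {C : Fin k → Set (∀ v, Hecke U v → ℂ)} {a : Fin k → ℕ}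
    {C' : Fin k' → Set (∀ v, Hecke U v → ℂ)} {a' : Fin k' → ℕ} (h : IsFamilies ℓ S K ι C a)
    (h' : IsFamilies ℓ S K ι C' a') : ∃ σ : Fin k ≃ Fin k', ∀ i, C' (σ i) = C i ∧ a' (σ i) = a i := by
  choose f hf using fun i => IsFamilies.exists_eq hD hSl hU hUS hK h h' i
  choose g hg using fun i => IsFamilies.exists_eq hD hSl hU hUS hK h' h i
  refine ⟨⟨f, g, fun i => h.inj ?_, fun j => h'.inj ?_⟩, hf⟩
  · rw [(hg (f i)).1, (hf i).1]
  · rw [(hf (g j)).1, (hg j).1]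

/-- The final theorem. -/
theorem main [IsTotallyReal F] {B : Type} [CommRing B] (hD : IsTotPosDef D.q)
    [IsDomain B] [IsPrincipalIdealRing B] [Algebra B ℚ] [IsFractionRing B ℚ] [Algebra B (PadicAlgCl ℓ)]
    {O : Type} [CommRing O] [HopfAlgebra B O] [Algebra.FiniteType B O] [Module.Free B O]
    (hO : LinearlyReductive (ℚ ⊗[B] O)) (A : OverB.HopfAction B Gal(AlgebraicClosure F/F) O)
    (hA : IsOpen (A.act.ker : Set Gal(AlgebraicClosure F/F)))
    (hS : ∀ v, v ∉ S → ∀ P u, IsInertiaAt v P u → A.act u = 1)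
    (hSl : ∀ v : HeightOneSpectrum (𝓞 F), (ℓ : 𝓞 F) ∈ v.asIdeal → v ∈ S)
    (φ : HeightOneSpectrum (𝓞 F) → Gal(AlgebraicClosure F/F))
    (hφ : ∀ v, v ∉ S → ∃ P : Ideal (𝓞 (AlgebraicClosure F)), IsOver v P ∧
      (IsFrob v P (φ v) ∨ IsFrob v P (φ v)⁻¹))
    (hU : IsTame ℓ U) (hUS : ∀ v, v ∉ S → IsGoodAt U v)
    (sat : ∀ v, A.inv (φ v) → Hecke U v) (hsat : ∀ v f, (sat v f).IsIntegral ℓ)
    {d : ℕ} {K : ℕ → Subgroup D.Ad} (hK : IsUniform ℓ d U K) :
    (∀ ι : ℂ ≃+* PadicAlgCl ℓ,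
      (∃ (k : ℕ) (C : Fin k → Set (∀ v, Hecke U v → ℂ)) (a : Fin k → ℕ), IsFamilies ℓ S K ι C a ∧
        ∀ (k' : ℕ) (C' : Fin k' → Set (∀ v, Hecke U v → ℂ)) (a' : Fin k' → ℕ), IsFamilies ℓ S K ι C' a' →
          ∃ σ : Fin k ≃ Fin k', ∀ i, C' (σ i) = C i ∧ a' (σ i) = a i) ∧
      IsNoeth ℓ S U ι ∧ IsClosedProp ℓ S ι (Att ℓ A S φ sat ι) ∧
      ∀ P : MvPolynomial (IX ℓ S U) ℤ, IsClosedProp ℓ S ι fun lam => pval ℓ S lam P = 0) ∧
    (Count ℓ S U K fun _ => True) ∧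
    ((∀ lam ∈ AllSys ℓ S U, Q1Sys ℓ A S φ sat lam) ∨ Abundant ℓ S U K fun lam => ¬Q1Sys ℓ A S φ sat lam) := by
  have hlaws := laws hD ℓ hO A hA S hS hSl φ hφ hU hUS sat hsat hK
  refine ⟨fun ι => ?_, hlaws.2.1, hlaws.2.2⟩
  obtain ⟨⟨k, C, a, h1⟩, h2⟩ := exists_isFamilies hD hSl hU hUS ι hK
  exact ⟨⟨k, C, a, h1, fun k' C' a' h' => IsFamilies.unique hD hSl hU hUS hK h1 h'⟩, h2, isClosedProp_att hD hO A hA hS hSl φ hφ hU hUS sat hsat ι, isClosedProp_pval ι⟩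

end Pool.Agent.Lib.MP_666dc0_nt.FM
end
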