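import Pool.Agent.Lib.MP_666dc0_nt.FM.V
import Pool.Agent.Lib.MP_666dc0_nt.Mg.G082
import Pool.Agent.Lib.MP_666dc0_nt.Mg.G081
import Pool.Agent.Lib.MP_666dc0_nt.Mg.G104
import Pool.Agent.Lib.MP_666dc0_nt.Mg.G087
import Pool.Agent.Lib.MP_666dc0_nt.PL.A3
import Pool.Agent.Lib.MP_666dc0_nt.Mg.G089
import Pool.Agent.Lib.MP_666dc0_nt.Mg.G088
import Pool.Agent.Lib.MP_666dc0_nt.Mg.G090

section

/-!
# PL, C1: unions of closed properties, residual systems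
-/

open NumberField IsDedekindDomain
open scoped NumberField

namespace Pool.Agent.Lib.MP_666dc0_nt.PL

open WL ZO FM

variable {F : Type} [Field F] [NumberField F] {n : ℕ} {D : Datum F n} {ℓ : ℕ} [Fact ℓ.Prime]
  {S : Finset (HeightOneSpectrum (𝓞 F))} {U : Subgroup D.Ad} {ι : ℂ ≃+* PadicAlgCl ℓ}

theorem isClosedProp_or {p q : (∀ v, Hecke U v → ℂ) → Prop}
    (hint : ∀ lam ∈ AllSys ℓ S U, ∀ P : MvPolynomial (IX ℓ S U) ℤ, ‖ι (pval ℓ S lam P)‖ ≤ 1)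
    (hp : IsClosedProp ℓ S ι p) (hq : IsClosedProp ℓ S ι q) : IsClosedProp ℓ S ι fun lam => p lam ∨ q lam := by
  intro lam hlam hc
  by_contra hcon
  push Not at hcon
  have h1 : ¬Controlled ℓ S ι {e | e ∈ AllSys ℓ S U ∧ p e} lam := fun h => hcon.1 (hp lam hlam h)
  have h2 : ¬Controlled ℓ S ι {e | e ∈ AllSys ℓ S U ∧ q e} lam := fun h => hcon.2 (hq lam hlam h)
  unfold Controlled at h1 h2
  push Not at h1 h2
  obtain ⟨ε1, hε1, h1⟩ := h1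
  obtain ⟨ε2, hε2, h2⟩ := h2
  obtain ⟨I, hI, hIF, δ, hδ, h⟩ := hc (ε1 * ε2) (mul_pos hε1 hε2)
  obtain ⟨P1, hP1, hP1'⟩ := h1 (I ∩ {e | p e}) (hI.subset Set.inter_subset_left)
    (fun e he => ⟨(hIF he.1).1, he.2⟩) δ hδ
  obtain ⟨P2, hP2, hP2'⟩ := h2 (I ∩ {e | q e}) (hI.subset Set.inter_subset_left)
    (fun e he => ⟨(hIF he.1).1, he.2⟩) δ hδ
  have h3 := h (P1 * P2) fun e he => by
    rw [map_mul, map_mul, norm_mul]
    rcases (hIF he).2 with hpe | hqe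
    · exact (mul_le_of_le_one_right (norm_nonneg _) (hint e (hIF he).1 P2)).trans (hP1 e ⟨he, hpe⟩)
    · exact (mul_le_of_le_one_left (norm_nonneg _) (hint e (hIF he).1 P1)).trans (hP2 e ⟨he, hqe⟩)
  rw [map_mul, map_mul, norm_mul] at h3
  exact absurd h3 (not_le.2 (mul_lt_mul'' hP1' hP2' hε1.le hε2.le))

theorem sameRes_refl (lam : ∀ v, Hecke U v → ℂ) : SameRes ℓ S ι lam lam := fun _ => Iff.rfl

/-- An element of norm one of `ℤ̄_ℓ` has a power which is congruent to `1`. -/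
theorem exists_pow_sub_one (x : PadicAlgCl ℓ) (hx : ‖x‖ = 1) : ∃ N > 0, ‖x ^ N - 1‖ < 1 := by
  let E : Submodule ℚ_[ℓ] (PadicAlgCl ℓ) := Subalgebra.toSubmodule (Algebra.adjoin ℚ_[ℓ] {x})
  have hi : IsIntegral ℚ_[ℓ] x := (Algebra.IsAlgebraic.isAlgebraic x).isIntegral
  have h1 : FiniteDimensional ℚ_[ℓ] E := Module.Finite.iff_fg.2 hi.fg_adjoin_singleton
  have h2 : ProperSpace E := FiniteDimensional.proper ℚ_[ℓ] E
  let u : ℕ → E := fun i => ⟨x ^ i, Subalgebra.pow_mem _ (Algebra.self_mem_adjoin_singleton ℚ_[ℓ] x) i⟩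
  have hu : ∀ i, u i ∈ Metric.closedBall (0 : E) 1 := fun i => by
    rw [mem_closedBall_zero_iff]
    change ‖x ^ i‖ ≤ 1
    rw [norm_pow, hx, one_pow]
  obtain ⟨a, -, φ, hφ, hlim⟩ := (isCompact_closedBall (0 : E) 1).tendsto_subseq hu
  obtain ⟨N, hN⟩ := Metric.cauchySeq_iff'.1 hlim.cauchySeq 1 one_pos
  have h3 := hN (N + 1) (Nat.le_succ N)
  have hlt : φ N < φ (N + 1) := hφ (Nat.lt_succ_self N)
  refine ⟨φ (N + 1) - φ N, Nat.sub_pos_of_lt hlt, ?_⟩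
  rw [dist_eq_norm] at h3
  have h4 : ‖x ^ φ (N + 1) - x ^ φ N‖ < 1 := h3
  have h5 : x ^ φ (N + 1) - x ^ φ N = x ^ φ N * (x ^ (φ (N + 1) - φ N) - 1) := by
    rw [mul_sub, ← pow_add, Nat.add_sub_cancel' hlt.le, mul_one]
  rw [h5, norm_mul, norm_pow, hx, one_pow, one_mul] at h4
  exact h4

theorem isClosedProp_not_sameRes
    (hint : ∀ lam ∈ AllSys ℓ S U, ∀ P : MvPolynomial (IX ℓ S U) ℤ, ‖ι (pval ℓ S lam P)‖ ≤ 1)
    {lam₀ : ∀ v, Hecke U v → ℂ} (h₀ : lam₀ ∈ AllSys ℓ S U) : IsClosedProp ℓ S ι fun lam => ¬SameRes ℓ S ι lam lam₀ := by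
  intro lam hlam hc hs
  obtain ⟨I, hI, hIF, δ, hδ, h⟩ := hc (1 / 2) (by norm_num)
  have key : ∀ e ∈ I, ∃ P : MvPolynomial (IX ℓ S U) ℤ, ‖ι (pval ℓ S e P)‖ < 1 ∧ ‖ι (pval ℓ S lam P)‖ = 1 := by
    intro e he
    obtain ⟨he1, he2⟩ := hIF he
    have he3 : ¬SameRes ℓ S ι e lam₀ := he2
    unfold SameRes at he3
    push Not at he3
    obtain ⟨P, hP⟩ := he3
    have hlam1 : ∀ P : MvPolynomial (IX ℓ S U) ℤ, ‖ι (pval ℓ S lam₀ P)‖ = 1 → ‖ι (pval ℓ S lam P)‖ = 1 := fun P h1 =>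
      le_antisymm (hint lam hlam P) (not_lt.1 fun h2 => absurd ((hs P).1 h2) h1.not_lt)
    rcases hP with ⟨h1, h2⟩ | ⟨h1, h2⟩
    · exact ⟨P, h1, hlam1 P (le_antisymm (hint lam₀ h₀ P) h2)⟩
    · obtain ⟨N, hN, hN1⟩ := exists_pow_sub_one (ι (pval ℓ S e P)) (le_antisymm (hint e he1 P) h1)
      refine ⟨P ^ N - 1, ?_, hlam1 _ ?_⟩
      · rw [map_sub, map_sub, map_pow, map_pow, map_one, map_one]
        exact hN1
      · rw [map_sub, map_sub, map_pow, map_pow, map_one, map_one, norm_sub_rev]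
        have h3 : ‖ι (pval ℓ S lam₀ P) ^ N‖ < 1 := by
          rw [norm_pow]
          exact pow_lt_one₀ (norm_nonneg _) h2 hN.ne'
        have h4 := IsUltrametricDist.norm_add_eq_max_of_norm_ne_norm (x := (1 : PadicAlgCl ℓ))
          (y := -(ι (pval ℓ S lam₀ P) ^ N)) (by rw [norm_one, norm_neg]; exact h3.ne')
        rw [sub_eq_add_neg, h4, norm_one, norm_neg]
        exact max_eq_left h3.le
  choose! P hP1 hP2 using key
  classical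
  let Q : MvPolynomial (IX ℓ S U) ℤ := ∏ e ∈ hI.toFinset, P e
  have hQ1 : ∀ e ∈ I, ‖ι (pval ℓ S e Q)‖ < 1 := by
    intro e he
    change ‖ι (pval ℓ S e (∏ e ∈ hI.toFinset, P e))‖ < 1
    rw [← Finset.mul_prod_erase _ _ (hI.mem_toFinset.2 he), map_mul, map_mul, norm_mul]
    exact (mul_le_of_le_one_right (norm_nonneg _) (hint e (hIF he).1 _)).trans_lt (hP1 e he)
  have hQ2 : ‖ι (pval ℓ S lam Q)‖ = 1 := by
    change ‖ι (pval ℓ S lam (∏ e ∈ hI.toFinset, P e))‖ = 1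
    rw [map_prod, map_prod, norm_prod]
    exact Finset.prod_eq_one fun e he => hP2 e (hI.mem_toFinset.1 he)
  obtain ⟨N, hN⟩ : ∃ N : ℕ, ∀ e ∈ I, ‖ι (pval ℓ S e Q)‖ ^ N ≤ δ := by
    have h1 : ∀ e ∈ I, ∃ N : ℕ, ‖ι (pval ℓ S e Q)‖ ^ N < δ := fun e he => exists_pow_lt_of_lt_one hδ (hQ1 e he)
    choose! N hN using h1
    refine ⟨∑ e ∈ hI.toFinset, N e, fun e he => ?_⟩
    refine le_trans (pow_le_pow_of_le_one (norm_nonneg _) (hQ1 e he).le ?_) (hN e he).le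
    exact Finset.single_le_sum (f := N) (fun _ _ => Nat.zero_le _) (hI.mem_toFinset.2 he)
  have h1 := h (Q ^ N) fun e he => by
    rw [map_pow, map_pow, norm_pow]
    exact hN e he
  rw [map_pow, map_pow, norm_pow, hQ2, one_pow] at h1
  norm_num at h1

end Pool.Agent.Lib.MP_666dc0_nt.PL
end

section

/-!
# PL, C2: a closed property which separates a system without attached homomorphism
-/

open NumberField IsDedekindDomain TensorProduct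
open scoped NumberField TensorProduct

namespace Pool.Agent.Lib.MP_666dc0_nt.PL

open WL ZO FM

section

variable {F : Type} [Field F] [NumberField F] {n : ℕ} {D : Datum F n} {U : Subgroup D.Ad}
  {B : Type} [CommRing B] {ℓ : ℕ} [Fact ℓ.Prime] [Algebra B (PadicAlgCl ℓ)] {O : Type} [CommRing O]
  [HopfAlgebra B O] {A : OverB.HopfAction B Gal(AlgebraicClosure F/F) O}
  {S : Finset (HeightOneSpectrum (𝓞 F))} {φ : HeightOneSpectrum (𝓞 F) → Gal(AlgebraicClosure F/F)}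

private theorem C2_hasRep_iff (e : ∀ v, InvFun A (φ v) → PadicAlgCl ℓ) :
    HasRep ℓ A S φ e ↔ ∃ r : Gal(AlgebraicClosure F/F) →* A.LGroup (PadicAlgCl ℓ),
      OverB.IsAttachedTo A S φ (fun v (f : A.inv (φ v)) => e v ⟨f.1, f.2⟩) r := by
  constructor
  · rintro ⟨r, h1, h2, h3⟩
    exact ⟨r, ⟨h1, h2, fun v hv => (h3 v hv).1, fun v hv f => (h3 v hv).2 ⟨f.1, f.2⟩⟩⟩
  · rintro ⟨r, h⟩
    exact ⟨r, h.proj, h.cont, fun v hv => ⟨h.unram v hv, fun f => h.value v hv ⟨f.1, f.2⟩⟩⟩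

end

/-- The values of integral polynomials in the Hecke operators are integral. -/
theorem norm_pval_le_one {F : Type} [Field F] [NumberField F] [IsTotallyReal F] {n : ℕ} {D : Datum F n}
    (hD : IsTotPosDef D.q) {ℓ : ℕ} [Fact ℓ.Prime] {S : Finset (HeightOneSpectrum (𝓞 F))} {ι : ℂ ≃+* PadicAlgCl ℓ}
    (hSl : ∀ v : HeightOneSpectrum (𝓞 F), (ℓ : 𝓞 F) ∈ v.asIdeal → v ∈ S)
    {U : Subgroup D.Ad} (hU : IsTame ℓ U) (hUS : ∀ v, v ∉ S → IsGoodAt U v) :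
    ∀ lam ∈ AllSys ℓ S U, ∀ P : MvPolynomial (IX ℓ S U) ℤ, ‖ι (pval ℓ S lam P)‖ ≤ 1 := by
    rintro lam ⟨K', hK', hlam⟩ P
    have h3 : ∀ x : IX ℓ S U, ‖ι (lam x.1.1 x.1.2)‖ ≤ 1 := norm_lam_le_one hD ℓ S hSl U hU hUS hK' hlam ι
    have h4 : ι (pval ℓ S lam P) ∈ OK ℓ := by
      have h5 : pval ℓ S lam P = MvPolynomial.aeval (fun x : IX ℓ S U => lam x.1.1 x.1.2) P := rfl
      rw [h5]
      induction P using MvPolynomial.induction_on with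
      | C a =>
        rw [MvPolynomial.aeval_C, eq_intCast, map_intCast]
        exact intCast_mem (OK ℓ) a
      | add p q hp hq =>
        rw [map_add, map_add]
        exact add_mem (hp rfl) (hq rfl)
      | mul_X p x hp =>
        rw [map_mul, map_mul, MvPolynomial.aeval_X]
        exact mul_mem (hp rfl) (h3 x)
    exact h4

/-- If the statement of Buzzard and Gee fails for `lam₀`, then it fails for all systems outside a closed set which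
contains all systems with a residual system different from the one of `lam₀`. -/
theorem exists_closed_of_not_bg {F : Type} [Field F] [NumberField F] [IsTotallyReal F] {n : ℕ} {D : Datum F n}
    (hD : IsTotPosDef D.q) {ℓ : ℕ} [Fact ℓ.Prime]
    {B : Type} [CommRing B] [IsDomain B] [IsPrincipalIdealRing B] [Algebra B ℚ]
    [IsFractionRing B ℚ] [Algebra B (PadicAlgCl ℓ)]
    {O : Type} [CommRing O] [HopfAlgebra B O] [Algebra.FiniteType B O] [Module.Free B O]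
    (hO : LinearlyReductive (ℚ ⊗[B] O)) (A : OverB.HopfAction B Gal(AlgebraicClosure F/F) O)
    (hA : IsOpen (A.act.ker : Set Gal(AlgebraicClosure F/F)))
    {S : Finset (HeightOneSpectrum (𝓞 F))}
    (hS : ∀ v, v ∉ S → ∀ P u, IsInertiaAt v P u → A.act u = 1)
    (hSl : ∀ v : HeightOneSpectrum (𝓞 F), (ℓ : 𝓞 F) ∈ v.asIdeal → v ∈ S)
    (φ : HeightOneSpectrum (𝓞 F) → Gal(AlgebraicClosure F/F))
    (hφ : ∀ v, v ∉ S → ∃ P : Ideal (𝓞 (AlgebraicClosure F)), IsOver v P ∧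
      (IsFrob v P (φ v) ∨ IsFrob v P (φ v)⁻¹))
    {U : Subgroup D.Ad} (hU : IsTame ℓ U) (hUS : ∀ v, v ∉ S → IsGoodAt U v)
    (sat : ∀ v, InvFun A (φ v) → Hecke U v) (hsat : ∀ v f, (sat v f).IsIntegral ℓ)
    {lam₀ : ∀ v, Hecke U v → ℂ} (h₀ : lam₀ ∈ AllSys ℓ S U) (hbg : ¬BGSys ℓ A S φ sat lam₀) :
    ∃ (ι : ℂ ≃+* PadicAlgCl ℓ) (p : (∀ v, Hecke U v → ℂ) → Prop), IsClosedProp ℓ S ι p ∧ ¬p lam₀ ∧
      ∀ lam, ¬p lam → SameRes ℓ S ι lam lam₀ ∧ ¬BGSys ℓ A S φ sat lam := by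
  have h2 : BGSys ℓ A S φ sat = Q1Sys ℓ A S φ (fun v (f : A.inv (φ v)) => sat v ⟨f.1, f.2⟩) :=
    funext fun lam => propext <| exists_congr fun E => exists_congr fun μ => and_congr Iff.rfl <|
      and_congr Iff.rfl <| forall_congr' fun ι => C2_hasRep_iff _
  rw [h2] at hbg ⊢
  obtain ⟨ι, hι⟩ := exists_iota_of_not_q1Sys hD h₀ hbg
  have hint := norm_pval_le_one (ι := ι) hD hSl hU hUS
  refine ⟨ι, fun lam => ¬SameRes ℓ S ι lam lam₀ ∨ Att ℓ A S φ (fun v (f : A.inv (φ v)) => sat v ⟨f.1, f.2⟩) ι lam,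
    isClosedProp_or hint (isClosedProp_not_sameRes hint h₀) ?_, ?_, fun lam hlam => ?_⟩
  · exact isClosedProp_att hD hO A hA hS hSl φ hφ hU hUS (fun v (f : A.inv (φ v)) => sat v ⟨f.1, f.2⟩)
      (fun v f => hsat v _) ι
  · rintro (h | h)
    · exact h (sameRes_refl lam₀)
    · exact hι h
  · rw [not_or, not_not] at hlam
    exact ⟨hlam.1, fun h => hlam.2 (att_of_q1Sys h ι)⟩

end Pool.Agent.Lib.MP_666dc0_nt.PL
end

section

/-!
The rows for a closed property.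

`exists_rows_afam` for `𝒜 = (κ.raw S).afam hok i4 i5`, exactly as in the proof of `exists_model` (`FM/D.lean`).
`HasDensity` from the last part of `exists_rows_afam` as in `exists_isFamilies` (`FM/Main.lean`).
-/

open NumberField IsDedekindDomain
open scoped NumberField

namespace Pool.Agent.Lib.MP_666dc0_nt.PL

open WL ZO FM

variable {F : Type} [Field F] [NumberField F] {n : ℕ} {D : Datum F n} {ℓ : ℕ} [Fact ℓ.Prime]
  {S : Finset (HeightOneSpectrum (𝓞 F))} {U : Subgroup D.Ad} {K : ℕ → Subgroup D.Ad} {d : ℕ}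
  {ι : ℂ ≃+* PadicAlgCl ℓ}

private theorem pval_eq (ι : ℂ ≃+* PadicAlgCl ℓ) (x : ∀ v, Hecke U v → ℂ) (P : MvPolynomial (IX ℓ S U) ℤ) :
    MvPolynomial.eval₂Hom (Int.castRingHom (PadicAlgCl ℓ)) (iv ι x) P = ι (pval ℓ S x P) := by
  have h : MvPolynomial.eval₂Hom (Int.castRingHom (PadicAlgCl ℓ)) (iv ι x) = ι.toRingHom.comp (pval ℓ S x) := by
    refine MvPolynomial.ringHom_ext (fun r => ?_) (fun j => ?_)
    · rw [eq_intCast (MvPolynomial.C : ℤ →+* MvPolynomial (IX ℓ S U) ℤ) r, map_intCast, map_intCast]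
    · rw [MvPolynomial.coe_eval₂Hom, MvPolynomial.eval₂_X, RingHom.comp_apply]
      unfold pval
      change iv ι x j = ι (MvPolynomial.aeval _ (MvPolynomial.X j))
      rw [MvPolynomial.aeval_X]
      rfl
  rw [h]
  rfl

private theorem evP_eq {K : ℕ → Subgroup D.Ad} {d : ℕ} {ι : ℂ ≃+* PadicAlgCl ℓ} (κ : Ctx ℓ U K d ι)
    (x : {e : ∀ v, Hecke U v → ℂ // e ∈ AllSys ℓ S U}) (P : MvPolynomial (IX ℓ S U) ℤ) :
    (κ.raw S).evP x P = ι (pval ℓ S x.1 P) := pval_eq ι x.1 P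

/-- The model given by a context. -/
private theorem isModel_afam [IsTotallyReal F] (hD : IsTotPosDef D.q)
    (hSl : ∀ v : HeightOneSpectrum (𝓞 F), (ℓ : 𝓞 F) ∈ v.asIdeal → v ∈ S)
    (hUS : ∀ v, v ∉ S → IsGoodAt U v) (κ : Ctx ℓ U K d ι) (hok : (κ.raw S).Ok)
    [i1 : NoZeroDivisors κ.𝒯.la.Lim] [i2 : CharZero κ.𝒯.la.Lim] [i3 : Nontrivial κ.𝒯.la.Lim]
    (i4 : IsNoetherianRing κ.𝒯.la.Lim) (i5 : LeftOre κ.𝒯.la.Lim) :
    IsModel S ι K ((κ.raw S).afam hok i4 i5) := by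
  have hfin : ∀ s, Finite (κ.𝒯.la.A s) := by
    intro s
    have : NeZero (ℓ ^ (s + 1)) := ⟨pow_ne_zero _ (Fact.out : ℓ.Prime).ne_zero⟩
    have h1 : Finite (κ.𝒯.P s → ZMod (ℓ ^ (s + 1))) := inferInstance
    exact Finite.of_injective (fun a : MonoidAlgebra (ZMod (ℓ ^ (s + 1))) (κ.𝒯.P s) => fun x => a.coeff x)
      (fun a b hab => MonoidAlgebra.coeff_injective (Finsupp.ext fun x => congrFun hab x))
  refine ⟨(κ.raw S).good_afam hok i4 i5, ?_, fun Fam lam => ?_, fun s J hJ hJs Q hQ => ?_⟩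
  · exact card_chart hD κ.H hSl κ.hU hUS κ.hK.tow κ.c
  · refine (hok.cls hfin Fam lam).trans ?_
    unfold Controlled
    refine forall_congr' fun ε => forall_congr' fun hε => ⟨?_, ?_⟩
    · rintro ⟨I, hI, hIF, δ, hδ, h⟩
      refine ⟨Subtype.val '' I, hI.image _, Set.image_mono hIF, δ, hδ, fun P hP => ?_⟩
      rw [← evP_eq κ]
      exact h P fun e he => by rw [evP_eq κ]; exact hP _ ⟨e, he, rfl⟩
    · rintro ⟨I, hI, hIF, δ, hδ, h⟩
      refine ⟨Subtype.val ⁻¹' I, hI.preimage Subtype.val_injective.injOn, fun e he => ?_, δ, hδ, fun P hP => ?_⟩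
      · obtain ⟨e', he', hee⟩ := hIF he
        rwa [← Subtype.val_injective hee]
      · rw [evP_eq κ]
        refine h P fun e he => ?_
        obtain ⟨e', he', rfl⟩ := hIF he
        rw [← evP_eq κ]
        exact hP e' he
  · refine ⟨(⟨(s, J, Q), hJ, hJs, hQ⟩ : MIx ℓ U K), rfl, ?_, fun p => ?_⟩
    · exact (finrank_WI κ.𝒬 _ (κ.hJ ⟨(s, J, Q), hJ, hJs, hQ⟩) (κ.ρ ⟨(s, J, Q), hJ, hJs, hQ⟩)).2
    · refine (κ.finrank_sup hSl hUS ⟨(s, J, Q), hJ, hJs, hQ⟩ p).symm.trans ?_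
      have h1 : ∀ x, κ.Vi (⟨(s, J, Q), hJ, hJs, hQ⟩ : MIx ℓ U K) x =
          ((κ.raw S).afam hok i4 i5).eig (⟨(s, J, Q), hJ, hJs, hQ⟩ : MIx ℓ U K) x :=
        fun x => ((κ.raw S).eig_afam hok i4 i5 _ x).symm
      have h2 : (⨆ (x : {e : ∀ v, Hecke U v → ℂ // e ∈ AllSys ℓ S U}) (_ : p x.1),
          κ.Vi (⟨(s, J, Q), hJ, hJs, hQ⟩ : MIx ℓ U K) x) =
          ⨆ (x : {e : ∀ v, Hecke U v → ℂ // e ∈ AllSys ℓ S U}) (_ : p x.1),
          ((κ.raw S).afam hok i4 i5).eig (⟨(s, J, Q), hJ, hJs, hQ⟩ : MIx ℓ U K) x :=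
        iSup_congr fun x => iSup_congr fun _ => h1 x
      rw [h2]
      rfl

theorem exists_rows [IsTotallyReal F] (hD : IsTotPosDef D.q)
    (hSl : ∀ v : HeightOneSpectrum (𝓞 F), (ℓ : 𝓞 F) ∈ v.asIdeal → v ∈ S)
    (hUS : ∀ v, v ∉ S → IsGoodAt U v) (κ : Ctx ℓ U K d ι) {p : (∀ v, Hecke U v → ℂ) → Prop}
    (hp : IsClosedProp ℓ S ι p) :
    ∃ (e m : ℕ) (Z : Fin e → κ.c.R → κ.𝒯.La) (Y : Fin m → κ.c.R → κ.𝒯.La), e + m = Fintype.card κ.c.R ∧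
      RowIndep Z ∧ RowIndep Y ∧
      (∀ x : {e : ∀ v, Hecke U v → ℂ // e ∈ AllSys ℓ S U}, p x.1 → ∀ i : MIx ℓ U K, ∀ w ∈ κ.Vi i x,
        κ.fam.mact i (Matrix.of Z) w = 0) ∧
      (∀ x : {e : ∀ v, Hecke U v → ℂ // e ∈ AllSys ℓ S U}, ¬p x.1 → ∀ i : MIx ℓ U K, ∀ w ∈ κ.Vi i x,
        κ.fam.mact i (Matrix.of Y) w = 0) ∧
      (e = 0 → ∀ lam ∈ AllSys ℓ S U, p lam) ∧ HasDensity ℓ S U K p m := by
  have hok : (κ.raw S).Ok := κ.ok hD hSl hUS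
  have i1 : NoZeroDivisors κ.𝒯.la.Lim := κ.𝒯.la_noZeroDivisors
  have i2 : CharZero κ.𝒯.la.Lim := κ.𝒯.la_charZero
  have i3 : Nontrivial κ.𝒯.la.Lim := ⟨⟨((0 : ℕ) : κ.𝒯.la.Lim), ((1 : ℕ) : κ.𝒯.la.Lim), fun h =>
    zero_ne_one (Nat.cast_injective h)⟩⟩
  have i4 : IsNoetherianRing κ.𝒯.la.Lim := κ.𝒯.la_noetherian
  have i5 : LeftOre κ.𝒯.la.Lim := κ.𝒯.la_leftOre
  have h := isModel_afam hD hSl hUS κ hok i4 i5
  obtain ⟨e, m, Z, Y, hem, hZ, hY, hZp, hYp, he, C, hC⟩ :=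
    exists_rows_afam ((κ.raw S).afam hok i4 i5) h.good ((closed_iff h p).1 hp)
  refine ⟨e, m, Z, Y, hem, hZ, hY, fun x hx i w hw => ?_, fun x hx i w hw => ?_, fun h0 lam hlam => ?_, C,
    fun s J hJ hJs Q hQ => ?_⟩
  · refine hZp x hx i w ?_
    rw [(κ.raw S).eig_afam hok i4 i5 i x]
    exact hw
  · refine hYp x hx i w ?_
    rw [(κ.raw S).eig_afam hok i4 i5 i x]
    exact hw
  · exact he h0 ⟨lam, hlam⟩
  · obtain ⟨i, hi1, hi2, hi3⟩ := h.idx s J hJ hJs Q hQ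
    have h1 := hC i
    rw [hi1, hi2] at h1
    have e1 : dimE S Q U J p = Module.finrank (PadicAlgCl ℓ)
        (⨆ x ∈ {x : {e : ∀ v, Hecke U v → ℂ // e ∈ AllSys ℓ S U} | p x.1},
          ((κ.raw S).afam hok i4 i5).eig i x :
          Submodule (PadicAlgCl ℓ) (((κ.raw S).afam hok i4 i5).R → ((κ.raw S).afam hok i4 i5).fam.W i)) := hi3 p
    rw [e1]
    exact h1

end Pool.Agent.Lib.MP_666dc0_nt.PL
end

section

/-!
TASK U1. The upper bound.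

`exists_red` (`ZO/L1.lean`) gives `k` and `ρ`, `CharP k ℓ` (`Red.charP`). Let `C₁` be the constant of `ZZ_inv` for `Y`. Given
`T` and `ε` choose `s` with `C₁ / ℓ ^ s * gidx (K 0) T.J ≤ ε`. `H` from `exists_H` with `L = T.ker`, `P = T.J`; `m'` and the
multipliers from `exists_mult`; base points `x₀ : I → G(𝔸_f)` from `ZZ_base`. Apply `count` with `𝔾 = G(𝔸_f)`, `C = G(F ⊗ ℂ)`,
`ht = hat`, `N t = H ⊓ K t`, `χ g = ι (T.χ g)` for `g ∈ T.J` (`1` or `0` elsewhere; norm one: a root of unity, `exists_order`),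
`Z = ZZ κ ρ Y`, `ℋ y c x = ι (h y c x)`, `Pol = tr ι Q`, `Pol₀ = tr ι (core Q m')`, `ℬ = tw κ.H (tspan S Q T q)`:
* `hmem`, `heq`: `Ψ g x = ev x f g = ι (f g (x ĝ⁻¹))`, `f (g p) = χ(p) f g`.
* `hBmax`, `hBZ`: `ev_red_mem` with `J = H` (`tspan_le_espan`).
* `hmax`, `hsm`: `poly_max`, `poly_small` (`hK.small`).
The result, divided by `[P : H]`: `dim ℬ ≤ dim (inv Z H) / [P : H] * dim Q + card I * (dim Q - dim core Q m')` and
`dim (inv Z H) ≤ (card R - m + C₁ / ℓ ^ s) * gidx (K 0) P * [P : H]`.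
-/

open NumberField IsDedekindDomain
open scoped NumberField

namespace Pool.Agent.Lib.MP_666dc0_nt.PL

open WL ZO FM

variable {F : Type} [Field F] [NumberField F] {n : ℕ} {D : Datum F n} {ℓ : ℕ} [Fact ℓ.Prime]
  {S : Finset (HeightOneSpectrum (𝓞 F))} {U : Subgroup D.Ad} {K : ℕ → Subgroup D.Ad} {d : ℕ}
  {ι : ℂ ≃+* PadicAlgCl ℓ}

open scoped Classical in
/-- The character of a type as an `ℓ`-adic function. -/
noncomputable def chiK (ι : ℂ ≃+* PadicAlgCl ℓ) (T : AdType D) : D.Ad → PadicAlgCl ℓ := fun g =>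
  if h : g ∈ T.J then ι ((T.χ ⟨g, h⟩ : ℂˣ) : ℂ) else 0

theorem chiK_of (ι : ℂ ≃+* PadicAlgCl ℓ) (T : AdType D) {g : D.Ad} (h : g ∈ T.J) :
    chiK ι T g = ι ((T.χ ⟨g, h⟩ : ℂˣ) : ℂ) := dif_pos h

theorem chiK_norm (ι : ℂ ≃+* PadicAlgCl ℓ) (hU : IsTame ℓ U) {T : AdType D} (hT : IsTypeAt ℓ U T) :
    ∀ p ∈ T.J, ‖chiK ι T p‖ = 1 := by
  intro p hp
  obtain ⟨M, hM, h⟩ := exists_order hU hT
  have h1 : (T.χ ⟨p, hp⟩) ^ M = 1 := by
    rw [← MonoidHom.pow_apply, h, MonoidHom.one_apply]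
  have h2 : chiK ι T p ^ M = 1 := by
    rw [chiK_of ι T hp, ← map_pow, ← Units.val_pow_eq_pow_val, h1, Units.val_one, map_one]
  have h3 : ‖chiK ι T p‖ ^ M = 1 := by rw [← norm_pow, h2, norm_one]
  exact (pow_eq_one_iff_of_nonneg (norm_nonneg _) hM.ne').1 h3

theorem chiK_mul (ι : ℂ ≃+* PadicAlgCl ℓ) (T : AdType D) :
    ∀ p ∈ T.J, ∀ q ∈ T.J, chiK ι T (p * q) = chiK ι T p * chiK ι T q := by
  intro p hp q hq
  rw [chiK_of ι T (T.J.mul_mem hp hq), chiK_of ι T hp, chiK_of ι T hq, ← map_mul, ← Units.val_mul, ← map_mul]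
  rfl

theorem ker_le_J (T : AdType D) : T.ker ≤ T.J := by
  rintro _ ⟨k, -, rfl⟩
  exact k.2

theorem chiK_ker (ι : ℂ ≃+* PadicAlgCl ℓ) (T : AdType D) : ∀ h ∈ T.ker, chiK ι T h = 1 := by
  rintro _ ⟨k, hk, rfl⟩
  have h1 : T.χ k = 1 := hk
  have h2 : chiK ι T (k : D.Ad) = ι ((T.χ k : ℂˣ) : ℂ) := chiK_of ι T k.2
  change chiK ι T (k : D.Ad) = 1
  rw [h2, h1, Units.val_one, map_one]

theorem dimT_le [IsTotallyReal F] (hD : IsTotPosDef D.q)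
    (hSl : ∀ v : HeightOneSpectrum (𝓞 F), (ℓ : 𝓞 F) ∈ v.asIdeal → v ∈ S)
    (hUS : ∀ v, v ∉ S → IsGoodAt U v) (κ : Ctx ℓ U K d ι) {q : (∀ v, Hecke U v → ℂ) → Prop} {m : ℕ}
    (Y : Fin m → κ.c.R → κ.𝒯.La) (hi : RowIndep Y)
    (hY : ∀ x : {e : ∀ v, Hecke U v → ℂ // e ∈ AllSys ℓ S U}, q x.1 → ∀ i : MIx ℓ U K, ∀ w ∈ κ.Vi i x,
        κ.fam.mact i (Matrix.of Y) w = 0)
    {T : AdType D} (hT : IsTypeAt ℓ U T) {ε : ℝ} (hε : 0 < ε) :
    ∃ (m' : ℕ) (C : ℝ), ∀ Q, IsWeight D Q →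
      (dimT S Q T q : ℝ) ≤ ((Fintype.card κ.c.R : ℝ) - m) * gidx (K 0) T.J * Module.finrank ℂ Q +
        ε * Module.finrank ℂ Q + C * bdry Q m' := by
  classical
  obtain ⟨k, _, ⟨ρ⟩⟩ := exists_red ℓ
  have hch : CharP k ℓ := ρ.charP
  obtain ⟨C₁, hC₁⟩ := ZZ_inv κ ρ Y hi
  have hG : 0 ≤ gidx (K 0) T.J := by
    unfold gidx
    positivity
  -- the choice of `s`
  have hl1 : (1 : ℝ) < ℓ := by exact_mod_cast (Fact.out : ℓ.Prime).one_lt
  obtain ⟨s, hs⟩ : ∃ s : ℕ, C₁ / (ℓ : ℝ) ^ s * gidx (K 0) T.J ≤ ε := by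
    obtain ⟨s, hs⟩ := pow_unbounded_of_one_lt (|C₁| * gidx (K 0) T.J / ε) hl1
    refine ⟨s, ?_⟩
    have hp : (0 : ℝ) < (ℓ : ℝ) ^ s := by positivity
    rw [div_lt_iff₀ hε] at hs
    rw [div_mul_eq_mul_div, div_le_iff₀ hp]
    calc C₁ * gidx (K 0) T.J ≤ |C₁| * gidx (K 0) T.J := mul_le_mul_of_nonneg_right (le_abs_self _) hG
      _ ≤ (ℓ : ℝ) ^ s * ε := hs.le
      _ = ε * (ℓ : ℝ) ^ s := mul_comm _ _
  obtain ⟨H, hHL, hHs, hH0, hHlev, hHn, htH, hrP, hrK, hfil, hg⟩ := exists_H κ.hU κ.hK hT.ker hT.level (ker_le_J T) s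
  have hHP : H ≤ T.J := hHL.trans (ker_le_J T)
  obtain ⟨m', h, hh1, hh2⟩ := exists_mult (ι := ι) κ.H κ.hU hT.level hHlev hHP hrP
  obtain ⟨I, _, x₀, hx₀⟩ := ZZ_base κ ρ Y hD hT.level
  obtain ⟨hfdI, hdimI⟩ := hC₁ s H hHs hH0 htH
  refine ⟨m', Fintype.card I, fun Q hQ => ?_⟩
  have hfdQ : FiniteDimensional ℂ Q := Module.Finite.iff_fg.2 hQ.fg
  have hfdT : FiniteDimensional ℂ (tspan S Q T q) := by
    have := finite_typeForms (U := U) hD hT hQ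
    exact Submodule.finiteDimensional_of_le (tspan_le Q T q)
  have hfdP := finite_tr ι Q
  have hfdB := finite_tw κ.H (tspan S Q T q)
  have hmain := count ρ (κ.H.hat D) hHP hHn (m := H.relIndex T.J) rfl hrP (chiK ι T) (chiK_norm ι κ.hU hT)
    (chiK_mul ι T) (fun h hh => chiK_ker ι T h (hHL hh)) (ZZ κ ρ Y)
    (fun f hf h hh => ZZ_rtr κ ρ Y hf (hH0 hh)) x₀ hx₀ (fun t => H ⊓ K t) hfil
    (fun y c x => ι (h y c x)) (fun y c hc p hp => hh2 y c hc p hp) (tr ι Q) (tr ι (core Q m'))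
    (by
      rintro v ⟨f, hf, hv⟩
      exact ⟨f, hf.1, hv⟩)
    (by
      rintro v ⟨f, hf, hv⟩ p _
      exact ⟨fun x => f (x * κ.H.hat D p), (hQ.mem f hf).2 _, fun x => hv _⟩)
    (by
      rintro v ⟨f, hf, hv⟩ p _
      exact ⟨fun x => f (x * κ.H.hat D p), core_trans hQ m' hf _, fun x => hv _⟩)
    (by
      rintro y c _ v ⟨f, hf, hv⟩
      refine ⟨h y c * f, hf.2 _ (hh1 y c), fun x => ?_⟩
      change ι (h y c x) * v x = _
      rw [Pi.mul_apply, map_mul, hv])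
    (by
      rintro v ⟨f, hf, hv⟩ y
      obtain ⟨p₀, hp₀, hmax⟩ := poly_max (ι := ι) κ.H κ.hU hT.level (hQ.mem f hf).1 y
      refine ⟨p₀, hp₀, fun p hp => ?_⟩
      rw [hv, hv]
      exact hmax p hp)
    (by
      rintro v ⟨f, hf, hv⟩ y
      obtain ⟨t, ht⟩ := poly_small (ι := ι) κ.H κ.hU hT.level κ.hK.small (hQ.mem f hf).1 y
      refine ⟨t, fun p hp x hx => ?_⟩
      rw [hv, hv]
      exact ht p hp x hx.2)
    (tw κ.H (tspan S Q T q))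
    (by
      rintro Ψ ⟨f, hf, hΨ⟩ g
      have hf' : IsTypeForm D Q U T f := tspan_le Q T q hf
      exact ⟨fun x => f g (x * (κ.H.hat D g)⁻¹), (hQ.mem _ (hf'.form.mem g)).2 _, fun x => hΨ g x⟩)
    (by
      rintro Ψ ⟨f, hf, hΨ⟩ g p hp x
      have hf' : IsTypeForm D Q U T f := tspan_le Q T q hf
      rw [hΨ, hΨ, chiK_of ι T hp]
      change ι (f (g * p) (x * (κ.H.hat D (g * p))⁻¹)) =
        ι ((T.χ ⟨p, hp⟩ : ℂˣ) : ℂ) * ι (f g (x * (κ.H.hat D p)⁻¹ * (κ.H.hat D g)⁻¹))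
      rw [map_mul, mul_inv_rev, ← mul_assoc, ← map_mul ι]
      exact congrArg ι (hf'.type g ⟨p, hp⟩ _))
    (by
      rintro Ψ ⟨f, hf, hΨ⟩ y
      obtain ⟨g₀, hg₀⟩ := (ev_red_mem κ ρ Y hD hSl hUS hY hHlev hH0 hQ (tspan_le_espan Q T q hHL hf) y).2
      refine ⟨g₀, fun g => ?_⟩
      rw [hΨ, hΨ]
      exact hg₀ g)
    (by
      rintro Ψ ⟨f, hf, hΨ⟩ y hn
      simp only [hΨ] at hn ⊢
      exact (ev_red_mem κ ρ Y hD hSl hUS hY hHlev hH0 hQ (tspan_le_espan Q T q hHL hf) y).1 hn)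
  rw [finrank_tr, finrank_tr, finrank_tw] at hmain
  have hmainR : (H.relIndex T.J : ℝ) * (dimT S Q T q : ℝ) +
      (H.relIndex T.J : ℝ) * Fintype.card I * Module.finrank ℂ (core Q m') ≤
      Module.finrank k (inv (ZZ κ ρ Y) H) * Module.finrank ℂ Q +
        (H.relIndex T.J : ℝ) * Fintype.card I * Module.finrank ℂ Q := by
    unfold dimT
    exact_mod_cast hmain
  have hM : (0 : ℝ) < H.relIndex T.J := by exact_mod_cast Nat.pos_of_ne_zero hrP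
  have hq0 : (0 : ℝ) ≤ Module.finrank ℂ Q := Nat.cast_nonneg _
  rw [hg] at hdimI
  have h1 : (Module.finrank k (inv (ZZ κ ρ Y) H) : ℝ) * Module.finrank ℂ Q ≤
      ((Fintype.card κ.c.R : ℝ) - m + C₁ / (ℓ : ℝ) ^ s) * (gidx (K 0) T.J * (H.relIndex T.J : ℝ)) *
        Module.finrank ℂ Q := mul_le_mul_of_nonneg_right hdimI hq0
  have h2 : C₁ / (ℓ : ℝ) ^ s * gidx (K 0) T.J * Module.finrank ℂ Q ≤ ε * Module.finrank ℂ Q :=
    mul_le_mul_of_nonneg_right hs hq0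
  have h3 : (H.relIndex T.J : ℝ) * (dimT S Q T q : ℝ) ≤ (H.relIndex T.J : ℝ) *
      (((Fintype.card κ.c.R : ℝ) - m) * gidx (K 0) T.J * Module.finrank ℂ Q +
        C₁ / (ℓ : ℝ) ^ s * gidx (K 0) T.J * Module.finrank ℂ Q + Fintype.card I * bdry Q m') := by
    unfold bdry
    nlinarith [hmainR, h1]
  have h4 := le_of_mul_le_mul_left h3 hM
  linarith

end Pool.Agent.Lib.MP_666dc0_nt.PL
end
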