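import Pool.Agent.Lib.MP_666dc0_nt.Mg.G002
import Pool.Agent.Lib.MP_666dc0_nt.WL.Base

section

/-!
# PL, ED: congruence subgroups at `ℓ`, definitions (complete, NOT a task)
-/

open NumberField IsDedekindDomain
open scoped NumberField

namespace Pool.Agent.Lib.MP_666dc0_nt.PL

open WL

/-- The integral finite adeles with trivial components outside `ℓ`. -/
def OL (F : Type) [Field F] [NumberField F] (ℓ : ℕ) : AddSubgroup (FiniteAdeleRing (𝓞 F) F) where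
  carrier := {a | a ∈ Ohat F ∧ ∀ v : HeightOneSpectrum (𝓞 F), (ℓ : 𝓞 F) ∉ v.asIdeal → a v = 0}
  add_mem' {a b} ha hb := ⟨add_mem ha.1 hb.1, fun v hv => by
    have h : (a + b) v = a v + b v := rfl
    rw [h, ha.2 v hv, hb.2 v hv, add_zero]⟩
  zero_mem' := ⟨zero_mem _, fun _ _ => rfl⟩
  neg_mem' {a} ha := ⟨neg_mem ha.1, fun v hv => by
    have h : (-a) v = -a v := rfl
    rw [h, ha.2 v hv, neg_zero]⟩

/-- The matrices with entries in `ℓ ^ m OL`. -/
def LM (F : Type) [Field F] [NumberField F] (n ℓ m : ℕ) : AddSubgroup (Matrix (Fin n) (Fin n) (FiniteAdeleRing (𝓞 F) F)) where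
  carrier := {X | ∀ i j, ∃ a ∈ OL F ℓ, X i j = (ℓ : FiniteAdeleRing (𝓞 F) F) ^ m * a}
  add_mem' {X Y} hX hY i j := by
    obtain ⟨a, ha, h⟩ := hX i j
    obtain ⟨b, hb, h'⟩ := hY i j
    exact ⟨a + b, add_mem ha hb, by rw [Matrix.add_apply, h, h', mul_add]⟩
  zero_mem' i j := ⟨0, zero_mem _, by rw [Matrix.zero_apply, mul_zero]⟩
  neg_mem' {X} hX i j := by
    obtain ⟨a, ha, h⟩ := hX i j
    exact ⟨-a, neg_mem ha, by rw [Matrix.neg_apply, h, mul_neg]⟩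

/-- The entries of `X` are integral. -/
def IsIntM {F : Type} [Field F] [NumberField F] {n : ℕ} (X : Matrix (Fin n) (Fin n) (FiniteAdeleRing (𝓞 F) F)) : Prop :=
  ∀ i j, X i j ∈ Ohat F

end Pool.Agent.Lib.MP_666dc0_nt.PL
end

section

/-!
TASK E1. Matrices divisible by `ℓ ^ m` at `ℓ`.

The finite adele ring is a `ℚ`-algebra, so `ℓ` is a unit. `OL F ℓ` is an ideal of `Ohat F`.
* `isCompact_LM`: `Ohat F` is compact (`isCompact_Ohat`), `OL` is closed in it (evaluation at `v` is continuous), `LM m` is the image of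
  a product of copies of `OL` under a continuous map.
* `eq_zero_of_forall`: at `v ∤ ℓ` the entries are `0`; at `v ∣ ℓ` the valuation of an entry is at most that of `ℓ ^ m` for all `m`, so it is `0`.
* `exists_LM_subset`: the sets `LM m` are compact, decreasing, with intersection `{0}`.
-/

open NumberField IsDedekindDomain
open scoped NumberField

namespace Pool.Agent.Lib.MP_666dc0_nt.PL

open WL

variable {F : Type} [Field F] [NumberField F] {n ℓ : ℕ}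

private theorem E1unit (hℓ : ℓ ≠ 0) : IsUnit (ℓ : FiniteAdeleRing (𝓞 F) F) := by
  have h : IsUnit (ℓ : F) := (Nat.cast_ne_zero.2 hℓ).isUnit
  have h2 := h.map (algebraMap F (FiniteAdeleRing (𝓞 F) F))
  rwa [map_natCast] at h2

private theorem E1mul_coe (a b : FiniteAdeleRing (𝓞 F) F) (v : HeightOneSpectrum (𝓞 F)) :
    (a * b) v = a v * b v := rfl

private theorem E1OL_mul {a b : FiniteAdeleRing (𝓞 F) F} (ha : a ∈ Ohat F) (hb : b ∈ OL F ℓ) :
    a * b ∈ OL F ℓ :=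
  ⟨mul_mem ha hb.1, fun v hv => by rw [E1mul_coe, hb.2 v hv, mul_zero]⟩

private theorem E1OL_mul' {a b : FiniteAdeleRing (𝓞 F) F} (ha : a ∈ OL F ℓ) (hb : b ∈ Ohat F) :
    a * b ∈ OL F ℓ := by
  rw [mul_comm]
  exact E1OL_mul hb ha

theorem LM_anti {m m' : ℕ} (h : m ≤ m') : LM F n ℓ m' ≤ LM F n ℓ m := by
  intro X hX i j
  obtain ⟨a, ha, h1⟩ := hX i j
  obtain ⟨k, rfl⟩ := Nat.exists_eq_add_of_le h
  refine ⟨(ℓ : FiniteAdeleRing (𝓞 F) F) ^ k * a, E1OL_mul (pow_mem (natCast_mem _ _) _) ha, ?_⟩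
  rw [h1, pow_add, mul_assoc]

theorem isIntM_of_LM {m : ℕ} {X : Matrix (Fin n) (Fin n) (FiniteAdeleRing (𝓞 F) F)} (hX : X ∈ LM F n ℓ m) : IsIntM X := by
  intro i j
  obtain ⟨a, ha, h1⟩ := hX i j
  rw [h1]
  exact mul_mem (pow_mem (natCast_mem _ _) _) ha.1

theorem IsIntM.mul {X Y : Matrix (Fin n) (Fin n) (FiniteAdeleRing (𝓞 F) F)} (hX : IsIntM X) (hY : IsIntM Y) :
    IsIntM (X * Y) := by
  intro i j
  rw [Matrix.mul_apply]
  exact sum_mem fun k _ => mul_mem (hX i k) (hY k j)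

theorem IsIntM.one_add {m : ℕ} {X : Matrix (Fin n) (Fin n) (FiniteAdeleRing (𝓞 F) F)} (hX : X ∈ LM F n ℓ m) :
    IsIntM (1 + X) := by
  intro i j
  rw [Matrix.add_apply]
  refine add_mem ?_ (isIntM_of_LM hX i j)
  rw [Matrix.one_apply]
  split_ifs
  · exact one_mem _
  · exact zero_mem _

private theorem E1sum {m : ℕ} {ι : Type} (s : Finset ι) (f : ι → FiniteAdeleRing (𝓞 F) F)
    (h : ∀ i ∈ s, ∃ a ∈ OL F ℓ, f i = (ℓ : FiniteAdeleRing (𝓞 F) F) ^ m * a) :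
    ∃ a ∈ OL F ℓ, ∑ i ∈ s, f i = (ℓ : FiniteAdeleRing (𝓞 F) F) ^ m * a := by
  classical
  induction s using Finset.induction_on with
  | empty => exact ⟨0, zero_mem _, by rw [Finset.sum_empty, mul_zero]⟩
  | insert i s hi ih =>
    obtain ⟨a, ha, h1⟩ := h i (Finset.mem_insert_self i s)
    obtain ⟨b, hb, h2⟩ := ih fun j hj => h j (Finset.mem_insert_of_mem hj)
    exact ⟨a + b, add_mem ha hb, by rw [Finset.sum_insert hi, h1, h2, mul_add]⟩

theorem LM_mul {m m' : ℕ} {X Y : Matrix (Fin n) (Fin n) (FiniteAdeleRing (𝓞 F) F)} (hX : X ∈ LM F n ℓ m)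
    (hY : Y ∈ LM F n ℓ m') : X * Y ∈ LM F n ℓ (m + m') := by
  intro i j
  rw [Matrix.mul_apply]
  refine E1sum _ _ fun k _ => ?_
  obtain ⟨a, ha, h1⟩ := hX i k
  obtain ⟨b, hb, h2⟩ := hY k j
  refine ⟨a * b, E1OL_mul ha.1 hb, ?_⟩
  rw [h1, h2, pow_add]
  ring

theorem LM_mul_left {m : ℕ} {X Y : Matrix (Fin n) (Fin n) (FiniteAdeleRing (𝓞 F) F)} (hX : IsIntM X)
    (hY : Y ∈ LM F n ℓ m) : X * Y ∈ LM F n ℓ m := by
  intro i j
  rw [Matrix.mul_apply]
  refine E1sum _ _ fun k _ => ?_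
  obtain ⟨b, hb, h2⟩ := hY k j
  refine ⟨X i k * b, E1OL_mul (hX i k) hb, ?_⟩
  rw [h2]
  ring

theorem LM_mul_right {m : ℕ} {X Y : Matrix (Fin n) (Fin n) (FiniteAdeleRing (𝓞 F) F)} (hX : X ∈ LM F n ℓ m)
    (hY : IsIntM Y) : X * Y ∈ LM F n ℓ m := by
  intro i j
  rw [Matrix.mul_apply]
  refine E1sum _ _ fun k _ => ?_
  obtain ⟨a, ha, h1⟩ := hX i k
  refine ⟨a * Y k j, E1OL_mul' ha (hY k j), ?_⟩
  rw [h1]
  ring

theorem LM_smul {m : ℕ} {X : Matrix (Fin n) (Fin n) (FiniteAdeleRing (𝓞 F) F)} (hX : X ∈ LM F n ℓ m) :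
    ℓ • X ∈ LM F n ℓ (m + 1) := by
  intro i j
  obtain ⟨a, ha, h1⟩ := hX i j
  refine ⟨a, ha, ?_⟩
  rw [Matrix.smul_apply, h1, nsmul_eq_mul, pow_succ]
  ring

theorem LM_of_smul (hℓ : ℓ ≠ 0) {m : ℕ} {X : Matrix (Fin n) (Fin n) (FiniteAdeleRing (𝓞 F) F)}
    (hX : ℓ • X ∈ LM F n ℓ (m + 1)) : X ∈ LM F n ℓ m := by
  intro i j
  obtain ⟨a, ha, h1⟩ := hX i j
  refine ⟨a, ha, ?_⟩
  rw [Matrix.smul_apply, nsmul_eq_mul, pow_succ', mul_assoc] at h1
  exact (E1unit (F := F) hℓ).mul_left_cancel h1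

theorem LM_div {m : ℕ} {X : Matrix (Fin n) (Fin n) (FiniteAdeleRing (𝓞 F) F)} (hX : X ∈ LM F n ℓ (m + 1)) :
    ∃ Y ∈ LM F n ℓ m, X = ℓ • Y := by
  choose a ha h1 using hX
  refine ⟨Matrix.of fun i j => (ℓ : FiniteAdeleRing (𝓞 F) F) ^ m * a i j,
    fun i j => ⟨a i j, ha i j, Matrix.of_apply _ _ _⟩, ?_⟩
  ext1 i j
  rw [h1 i j, Matrix.smul_apply, Matrix.of_apply, nsmul_eq_mul, pow_succ']
  ring

private theorem E1natCast_coe (k : ℕ) (v : HeightOneSpectrum (𝓞 F)) :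
    ((k : FiniteAdeleRing (𝓞 F) F)) v = (k : v.adicCompletion F) := rfl

private theorem E1pow_coe (a : FiniteAdeleRing (𝓞 F) F) (k : ℕ) (v : HeightOneSpectrum (𝓞 F)) :
    (a ^ k) v = a v ^ k := rfl

private theorem E1val_lt (v : HeightOneSpectrum (𝓞 F)) (hv : (ℓ : 𝓞 F) ∈ v.asIdeal) :
    Valued.v ((ℓ : ℕ) : v.adicCompletion F) < 1 := by
  have h1 : ((ℓ : ℕ) : v.adicCompletion F) = ((algebraMap (𝓞 F) F (ℓ : 𝓞 F) : F) : v.adicCompletion F) := by
    rw [map_natCast]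
    exact (map_natCast (algebraMap F (v.adicCompletion F)) ℓ).symm
  rw [h1, HeightOneSpectrum.valuedAdicCompletion_eq_valuation']
  exact (HeightOneSpectrum.valuation_lt_one_iff_mem v _).2 hv

theorem eq_zero_of_forall (hℓ : ℓ.Prime) {X : Matrix (Fin n) (Fin n) (FiniteAdeleRing (𝓞 F) F)}
    (hX : ∀ m, X ∈ LM F n ℓ m) : X = 0 := by
  have _ := hℓ
  ext1 i j
  show X i j = 0
  refine RestrictedProduct.ext _ _ fun v => ?_
  show (X i j) v = 0
  by_cases hv : (ℓ : 𝓞 F) ∈ v.asIdeal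
  · by_contra hne
    have hlt := E1val_lt v hv
    have hle : ∀ m : ℕ, Valued.v ((X i j) v) ≤ Valued.v ((ℓ : ℕ) : v.adicCompletion F) ^ m := by
      intro m
      obtain ⟨a, ha, h1⟩ := hX m i j
      rw [h1, E1mul_coe, E1pow_coe, E1natCast_coe, map_mul, map_pow]
      refine (mul_le_mul_right ?_ _).trans_eq (mul_one _)
      exact (HeightOneSpectrum.mem_adicCompletionIntegers _ _ _).1 (ha.1 v)
    have hpos : 0 < Valued.v ((X i j) v) := by
      rw [zero_lt_iff, ne_eq, map_eq_zero]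
      exact hne
    obtain ⟨m, hm⟩ := exists_pow_lt₀ hlt (Units.mk0 _ hpos.ne')
    exact absurd (hle m) (not_le.2 hm)
  · obtain ⟨a, ha, h1⟩ := hX 0 i j
    rw [h1, E1mul_coe, ha.2 v hv, mul_zero]

private theorem E1closed (v : HeightOneSpectrum (𝓞 F)) :
    IsClosed {a : FiniteAdeleRing (𝓞 F) F | a v = 0} := by
  have hc : Continuous fun a : FiniteAdeleRing (𝓞 F) F => a v :=
    RestrictedProduct.continuous_eval v
  exact isClosed_singleton.preimage hc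

private theorem E1compact_OL : IsCompact (OL F ℓ : Set (FiniteAdeleRing (𝓞 F) F)) := by
  have h1 : (OL F ℓ : Set (FiniteAdeleRing (𝓞 F) F)) =
      (Ohat F : Set (FiniteAdeleRing (𝓞 F) F)) ∩
        ⋂ v : HeightOneSpectrum (𝓞 F), ⋂ _ : (ℓ : 𝓞 F) ∉ v.asIdeal,
          {a : FiniteAdeleRing (𝓞 F) F | a v = 0} := by
    ext a
    simp only [Set.mem_inter_iff, Set.mem_iInter]
    exact Iff.rfl
  rw [h1]
  exact (isCompact_Ohat F).inter_right
    (isClosed_iInter fun v => isClosed_iInter fun _ => E1closed v)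

theorem isCompact_LM (m : ℕ) : IsCompact (LM F n ℓ m : Set (Matrix (Fin n) (Fin n) (FiniteAdeleRing (𝓞 F) F))) := by
  have h1 : IsCompact (Set.pi Set.univ fun _ : Fin n => Set.pi Set.univ fun _ : Fin n =>
      (OL F ℓ : Set (FiniteAdeleRing (𝓞 F) F))) :=
    isCompact_univ_pi fun _ => isCompact_univ_pi fun _ => E1compact_OL
  have h2 : Continuous fun (Y : Fin n → Fin n → FiniteAdeleRing (𝓞 F) F) =>
      (fun i j => (ℓ : FiniteAdeleRing (𝓞 F) F) ^ m * Y i j :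
        Matrix (Fin n) (Fin n) (FiniteAdeleRing (𝓞 F) F)) :=
    continuous_pi fun i => continuous_pi fun j =>
      continuous_const.mul ((continuous_apply j).comp (continuous_apply i))
  have h3 : IsCompact ((fun (Y : Fin n → Fin n → FiniteAdeleRing (𝓞 F) F) =>
      (fun i j => (ℓ : FiniteAdeleRing (𝓞 F) F) ^ m * Y i j :
        Matrix (Fin n) (Fin n) (FiniteAdeleRing (𝓞 F) F))) '' _) := h1.image h2
  suffices h4 : (LM F n ℓ m : Set (Matrix (Fin n) (Fin n) (FiniteAdeleRing (𝓞 F) F))) =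
      (fun (Y : Fin n → Fin n → FiniteAdeleRing (𝓞 F) F) =>
      (fun i j => (ℓ : FiniteAdeleRing (𝓞 F) F) ^ m * Y i j :
        Matrix (Fin n) (Fin n) (FiniteAdeleRing (𝓞 F) F))) ''
        (Set.pi Set.univ fun _ : Fin n => Set.pi Set.univ fun _ : Fin n =>
      (OL F ℓ : Set (FiniteAdeleRing (𝓞 F) F))) by
    rw [h4]
    exact h3
  ext X
  constructor
  · intro hX
    choose a ha h1 using hX
    exact ⟨a, fun i _ j _ => ha i j, funext fun i => funext fun j => (h1 i j).symm⟩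
  · rintro ⟨a, ha, rfl⟩ i j
    exact ⟨a i j, ha i (Set.mem_univ _) j (Set.mem_univ _), rfl⟩

theorem exists_LM_subset (hℓ : ℓ.Prime) {V : Set (Matrix (Fin n) (Fin n) (FiniteAdeleRing (𝓞 F) F))} (hV : IsOpen V)
    (h0 : 0 ∈ V) : ∃ m, (LM F n ℓ m : Set (Matrix (Fin n) (Fin n) (FiniteAdeleRing (𝓞 F) F))) ⊆ V := by
  have : T2Space (FiniteAdeleRing (𝓞 F) F) := t2Space_adele F
  have : T2Space (Matrix (Fin n) (Fin n) (FiniteAdeleRing (𝓞 F) F)) :=
    inferInstanceAs (T2Space (Fin n → Fin n → FiniteAdeleRing (𝓞 F) F))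
  refine exists_subset_nhds_of_isCompact'
    (V := fun m : ℕ => (LM F n ℓ m : Set (Matrix (Fin n) (Fin n) (FiniteAdeleRing (𝓞 F) F)))) ?_
    (fun m => isCompact_LM m) (fun m => (isCompact_LM m).isClosed) ?_
  · intro a b
    exact ⟨max a b, LM_anti (le_max_left a b), LM_anti (le_max_right a b)⟩
  · intro X hX
    have h1 : X = 0 := eq_zero_of_forall hℓ fun m => Set.mem_iInter.1 hX m
    rw [h1]
    exact hV.mem_nhds h0

end Pool.Agent.Lib.MP_666dc0_nt.PL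
end

section

/-!
# PL, E3D: the congruence subgroups `Kc D ℓ m` (complete, NOT a task)
-/

open NumberField IsDedekindDomain
open scoped NumberField

namespace Pool.Agent.Lib.MP_666dc0_nt.PL

open WL

variable {F : Type} [Field F] [NumberField F] {n : ℕ}

theorem Kc_aux {ℓ m : ℕ} {X Y : Matrix (Fin n) (Fin n) (FiniteAdeleRing (𝓞 F) F)} (hX : X - 1 ∈ LM F n ℓ m)
    (hY : Y - 1 ∈ LM F n ℓ m) : X * Y - 1 ∈ LM F n ℓ m := by
  have h1 : X * Y - 1 = (X - 1) * (Y - 1) + (X - 1) + (Y - 1) := by noncomm_ring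
  rw [h1]
  exact add_mem (add_mem (LM_anti (Nat.le_add_right m m) (LM_mul hX hY)) hX) hY

/-- The elements of `G(𝔸_f)` with trivial components outside `ℓ` which are congruent to `1` modulo `ℓ ^ m`. -/
def Kc (D : Datum F n) (ℓ m : ℕ) : Subgroup D.Ad where
  carrier := {g | mat g - 1 ∈ LM F n ℓ m ∧ mat g⁻¹ - 1 ∈ LM F n ℓ m}
  one_mem' := by
    have h : mat (1 : D.Ad) - 1 ∈ LM F n ℓ m := by
      rw [mat_one, sub_self]
      exact zero_mem _
    exact ⟨h, by rw [inv_one]; exact h⟩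
  mul_mem' {a b} ha hb := ⟨by rw [mat_mul]; exact Kc_aux ha.1 hb.1, by
    rw [mul_inv_rev, mat_mul]; exact Kc_aux hb.2 ha.2⟩
  inv_mem' {a} ha := ⟨ha.2, by rw [inv_inv]; exact ha.1⟩

theorem mem_Kc {D : Datum F n} {ℓ m : ℕ} {g : D.Ad} :
    g ∈ Kc D ℓ m ↔ mat g - 1 ∈ LM F n ℓ m ∧ mat g⁻¹ - 1 ∈ LM F n ℓ m := Iff.rfl

end Pool.Agent.Lib.MP_666dc0_nt.PL
end
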