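import Pool.Agent.Lib.MP_666dc0_nt.Mg.G082
import Pool.Agent.Lib.MP_666dc0_nt.PL.SD

section

/-!
# PL, W3: generalised indices
-/

open NumberField IsDedekindDomain
open scoped NumberField

namespace Pool.Agent.Lib.MP_666dc0_nt.PL

open WL ZO

variable {F : Type} [Field F] [NumberField F] {n : ℕ} {D : Datum F n} {ℓ : ℕ} [Fact ℓ.Prime]
  {U : Subgroup D.Ad} {K : ℕ → Subgroup D.Ad} {d : ℕ}

theorem gidx_pos (hU : IsTame ℓ U) (hK : IsUniform ℓ d U K) {J : Subgroup D.Ad} (hJ : IsLevel ℓ U J) :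
    0 < gidx (K 0) J := by
  obtain ⟨t, ht⟩ := exists_level_le hU hK.tow hJ
  have h0 : K t ≤ K 0 := hK.K_le (Nat.zero_le _)
  have h1 := gidx_mul hU hK (hK.level t) hJ ht h0
  have h2 : 0 < (K t).relIndex (K 0) := Nat.pos_of_ne_zero (relIndex_ne_zero_of_level hU (hK.level t) (hK.level 0))
  have h3 : 0 < (K t).relIndex J := Nat.pos_of_ne_zero (relIndex_ne_zero_of_level hU (hK.level t) hJ)
  have h4 : (0 : ℝ) < (K t).relIndex (K 0) := by exact_mod_cast h2
  have h5 : (0 : ℝ) < (K t).relIndex J := by exact_mod_cast h3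
  rw [h1] at h4
  exact (mul_pos_iff_of_pos_right h5).1 h4

theorem gidx_eq (hU : IsTame ℓ U) (hK : IsUniform ℓ d U K) {I J : Subgroup D.Ad} (hI : IsLevel ℓ U I)
    (hJ : IsLevel ℓ U J) (hIJ : I ≤ J) : gidx (K 0) J = gidx (K 0) I / I.relIndex J := by
  obtain ⟨t, ht⟩ := exists_level_le hU hK.tow hI
  have h0 : K t ≤ K 0 := hK.K_le (Nat.zero_le _)
  have h1 := gidx_mul hU hK (hK.level t) hI ht h0
  have h2 := gidx_mul hU hK (hK.level t) hJ (ht.trans hIJ) h0
  have h3 := Subgroup.relIndex_mul_relIndex (K t) I J ht hIJ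
  have h4 : ((K t).relIndex I : ℝ) ≠ 0 := by
    exact_mod_cast relIndex_ne_zero_of_level hU (hK.level t) hI
  have h5 : (I.relIndex J : ℝ) ≠ 0 := by
    exact_mod_cast relIndex_ne_zero_of_level hU hI hJ
  rw [h1, ← h3] at h2
  push_cast at h2
  rw [eq_div_iff h5]
  have h6 : gidx (K 0) J * I.relIndex J * (K t).relIndex I = gidx (K 0) I * (K t).relIndex I := by
    rw [h2]
    ring
  exact mul_right_cancel₀ h4 h6

end Pool.Agent.Lib.MP_666dc0_nt.PL
end

section

/-!
# Abundant sets of systems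
-/

open NumberField IsDedekindDomain
open scoped NumberField

namespace Pool.Agent.Lib.MP_666dc0_nt.PL

open WL ZO FM

variable {F : Type} [Field F] [NumberField F] {n : ℕ} {D : Datum F n}

/-- The systems with the property `w` are abundant: for every Følner sequence `Q` of weights
(1) for all types `T i` at `ℓ` and real `c i` with `∑ c i (dim ρ i) / [J i : I] > 0` and all large `d` there is a system `lam` with the property `w`
such that `∑ c i (multiplicity of lam in the forms of type T i and weights in Q d)` is positive;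
(2) for all types `T` at `ℓ` their share among the eigenforms of type `T` and weights in `Q d` is at least `1 / r - o(1)`;
(3) if `σ = ∑ 1 / [P j : I] < 1`, their share among the new forms of level `U I` with respect to the `U P j` is at least
`(1 - σ) / r - o(1)`. -/
structure IsAbundantSys (ℓ : ℕ) (S : Finset (HeightOneSpectrum (𝓞 F))) {D : Datum F n} (U : Subgroup D.Ad) (r : ℕ)
    (w : (∀ v, Hecke U v → ℂ) → Prop) : Prop where
  signed : ∀ Q, IsFolner D Q → ∀ (k : ℕ) (T : Fin k → RepType D) (c : Fin k → ℝ) (I : Subgroup D.Ad),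
    (∀ i, IsRepTypeAt ℓ U (T i)) → IsLevel ℓ U I → (∀ i, I ≤ (T i).J) →
    0 < ∑ i, c i * (T i).r / I.relIndex (T i).J →
    ∀ᶠ d in Filter.atTop, ∃ lam, w lam ∧ 0 < ∑ i, c i * dimR S (Q d) (T i) (· = lam)
  share : ∀ Q, IsFolner D Q → ∀ T, IsRepTypeAt ℓ U T → ∀ ε : ℝ, 0 < ε → ∀ᶠ d in Filter.atTop,
    (1 / r - ε) * dimR (U := U) S (Q d) T (fun _ => True) ≤ dimR S (Q d) T w
  new : ∀ Q, IsFolner D Q → ∀ (k : ℕ) (P : Fin k → Subgroup D.Ad) (I : Subgroup D.Ad), (∀ j, IsLevel ℓ U (P j)) →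
    IsLevel ℓ U I → (∀ j, I ≤ P j) → ∑ j, 1 / (I.relIndex (P j) : ℝ) < 1 → ∀ ε : ℝ, 0 < ε →
    ∀ᶠ d in Filter.atTop, ((1 - ∑ j, 1 / (I.relIndex (P j) : ℝ)) / r - ε) * dimN U S (Q d) I P (fun _ => True) ≤
      dimN U S (Q d) I P w

end Pool.Agent.Lib.MP_666dc0_nt.PL
end

section

/-!
# Tests for the statement of Buzzard and Gee
-/

open NumberField IsDedekindDomain
open scoped NumberField

namespace Pool.Agent.Lib.MP_666dc0_nt.PL

open WL ZO FM

variable {F : Type} [Field F] [NumberField F] {n : ℕ}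

/-- `Q` is a Følner sequence of weights, `T` a non-zero type at `ℓ`, `I` is a level at `ℓ` contained in the levels `P j`, with
`∑ 1 / [P j : I] < 1`, and the `T' i` are types at `ℓ` of groups that contain `I`, with real coefficients `c i` such that
`∑ c i (dim ρ i) / [J i : I]` is positive. -/
structure IsTest (D : Datum F n) (ℓ : ℕ) (U : Subgroup D.Ad) (Q : ℕ → Submodule ℂ (D.Cpx → ℂ)) (T : RepType D)
    (I : Subgroup D.Ad) {k : ℕ} (P : Fin k → Subgroup D.Ad) {m : ℕ} (T' : Fin m → RepType D) (c : Fin m → ℝ) : Prop where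
  folner : IsFolner D Q
  type : IsRepTypeAt ℓ U T
  ne : T.r ≠ 0
  level : IsLevel ℓ U I
  level' : ∀ j, IsLevel ℓ U (P j)
  le : ∀ j, I ≤ P j
  sum : ∑ j, 1 / (I.relIndex (P j) : ℝ) < 1
  types : ∀ i, IsRepTypeAt ℓ U (T' i)
  le' : ∀ i, I ≤ (T' i).J
  pos : 0 < ∑ i, c i * (T' i).r / I.relIndex (T' i).J

/-- For all large `d` there are new forms of level `U I` with respect to the `P j`, forms of type `T`, and systems with positive
signed multiplicity `∑ c i m i`, with weights in `Q d`, whose system has the property `w`; the share of these systems is at least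
`1 / r - o(1)` in the forms of type `T` and `(1 - ∑ 1 / [P j : I]) / r - o(1)` in the new forms. -/
structure IsAbundantIn {D : Datum F n} {U : Subgroup D.Ad} (S : Finset (HeightOneSpectrum (𝓞 F))) (r : ℕ)
    (w : (∀ v, Hecke U v → ℂ) → Prop) (Q : ℕ → Submodule ℂ (D.Cpx → ℂ)) (T : RepType D)
    (I : Subgroup D.Ad) {k : ℕ} (P : Fin k → Subgroup D.Ad) {m : ℕ} (T' : Fin m → RepType D) (c : Fin m → ℝ) : Prop where
  new : ∀ᶠ d in Filter.atTop, ∃ lam f, w lam ∧ IsNewForm D (Q d) U I P f ∧ f ≠ 0 ∧ IsEigen S f lam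
  type : ∀ᶠ d in Filter.atTop, ∃ lam f, w lam ∧ IsRepForm D (Q d) U T f ∧ f ≠ 0 ∧ ∀ i, IsEigen S (f i) lam
  signed : ∀ᶠ d in Filter.atTop, ∃ lam, w lam ∧ 0 < ∑ i, c i * dimR S (Q d) (T' i) (· = lam)
  share : ∀ ε : ℝ, 0 < ε → ∀ᶠ d in Filter.atTop,
    (1 / r - ε) * dimR (U := U) S (Q d) T (fun _ => True) ≤ dimR S (Q d) T w
  shareNew : ∀ ε : ℝ, 0 < ε → ∀ᶠ d in Filter.atTop,
    ((1 - ∑ j, 1 / (I.relIndex (P j) : ℝ)) / r - ε) * dimN U S (Q d) I P (fun _ => True) ≤ dimN U S (Q d) I P w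

end Pool.Agent.Lib.MP_666dc0_nt.PL
end
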