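import Mathlib

section

/-!
# PL, H3: characters of a group with cyclic quotient
-/

namespace Pool.Agent.Lib.MP_666dc0_nt.PL

theorem H3_conj {G : Type} [Group G] {N : Subgroup G} {k : G} (hn : ∀ x ∈ N, k * x * k⁻¹ ∈ N)
    (hn' : ∀ x ∈ N, k⁻¹ * x * k ∈ N) (i : ℤ) : ∀ x ∈ N, k ^ i * x * (k ^ i)⁻¹ ∈ N := by
  induction i with
  | zero => intro x hx; simpa using hx
  | succ i ih =>
    intro x hx
    have h : k ^ ((i : ℤ) + 1) * x * (k ^ ((i : ℤ) + 1))⁻¹ = k * (k ^ (i : ℤ) * x * (k ^ (i : ℤ))⁻¹) * k⁻¹ := by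
      rw [add_comm, zpow_one_add]; group
    rw [h]
    exact hn _ (ih x hx)
  | pred i ih =>
    intro x hx
    have h : k ^ (-(i : ℤ) - 1) * x * (k ^ (-(i : ℤ) - 1))⁻¹ = k⁻¹ * (k ^ (-(i : ℤ)) * x * (k ^ (-(i : ℤ)))⁻¹) * k := by
      rw [sub_eq_add_neg, add_comm, zpow_add, zpow_neg_one]; group
    rw [h]
    exact hn' _ (ih x hx)

theorem mem_sup_zpowers {G : Type} [Group G] {N : Subgroup G} {k : G} (hn : ∀ x ∈ N, k * x * k⁻¹ ∈ N)
    (hn' : ∀ x ∈ N, k⁻¹ * x * k ∈ N) {x : G} :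
    x ∈ N ⊔ Subgroup.zpowers k ↔ ∃ y ∈ N, ∃ i : ℤ, x = y * k ^ i := by
  constructor
  · let H : Subgroup G :=
      { carrier := {x | ∃ y ∈ N, ∃ i : ℤ, x = y * k ^ i}
        one_mem' := ⟨1, one_mem _, 0, by simp⟩
        mul_mem' := by
          rintro _ _ ⟨y, hy, i, rfl⟩ ⟨y', hy', i', rfl⟩
          exact ⟨y * (k ^ i * y' * (k ^ i)⁻¹), mul_mem hy (H3_conj hn hn' i y' hy'), i + i', by rw [zpow_add]; group⟩
        inv_mem' := by
          rintro _ ⟨y, hy, i, rfl⟩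
          exact ⟨k ^ (-i) * y⁻¹ * (k ^ (-i))⁻¹, H3_conj hn hn' (-i) y⁻¹ (inv_mem hy), -i, by group⟩ }
    have hN : N ≤ H := fun y hy => ⟨y, hy, 0, by simp⟩
    have hk : Subgroup.zpowers k ≤ H := by
      rw [Subgroup.zpowers_le]
      exact ⟨1, one_mem _, 1, by simp⟩
    exact fun hx => sup_le hN hk hx
  · rintro ⟨y, hy, i, rfl⟩
    exact mul_mem (Subgroup.mem_sup_left hy) (Subgroup.mem_sup_right (Subgroup.zpow_mem_zpowers k i))

theorem exists_char {G : Type} [Group G] {N : Subgroup G} {k : G} (hn : ∀ x ∈ N, k * x * k⁻¹ ∈ N)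
    (hn' : ∀ x ∈ N, k⁻¹ * x * k ∈ N) {M : ℕ} (hM : 0 < M) (hkM : ∀ i : ℤ, k ^ i ∈ N ↔ (M : ℤ) ∣ i) {ζ : ℂ}
    (hζ : ζ ^ M = 1) : ∃ χ : (N ⊔ Subgroup.zpowers k : Subgroup G) →* ℂˣ,
      (∀ x : (N ⊔ Subgroup.zpowers k : Subgroup G), (x : G) ∈ N → χ x = 1) ∧
        ∀ x : (N ⊔ Subgroup.zpowers k : Subgroup G), (x : G) = k → ((χ x : ℂˣ) : ℂ) = ζ := by
  classical
  have hζ0 : ζ ≠ 0 := by
    rintro rfl
    rw [zero_pow hM.ne'] at hζ
    exact zero_ne_one hζ
  let z : ℂˣ := Units.mk0 ζ hζ0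
  have hz : z ^ M = 1 := Units.ext (by simpa [z] using hζ)
  have hx : ∀ x : (N ⊔ Subgroup.zpowers k : Subgroup G), ∃ i : ℤ, ∃ y ∈ N, (x : G) = y * k ^ i := fun x => by
    obtain ⟨y, hy, i, h⟩ := (mem_sup_zpowers hn hn').mp x.2
    exact ⟨i, y, hy, h⟩
  choose e he using hx
  have key : ∀ (x : (N ⊔ Subgroup.zpowers k : Subgroup G)) (y : G) (i : ℤ), y ∈ N → (x : G) = y * k ^ i → z ^ e x = z ^ i := by
    intro x y i hy h
    obtain ⟨y', hy', h'⟩ := he x
    have h1 : k ^ (e x - i) ∈ N := by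
      have h2 : k ^ (e x - i) = y'⁻¹ * y := by
        rw [zpow_sub, mul_inv_eq_iff_eq_mul, mul_assoc, ← h, h', inv_mul_cancel_left]
      rw [h2]
      exact mul_mem (inv_mem hy') hy
    obtain ⟨c, hc⟩ := (hkM _).mp h1
    have h3 : z ^ (e x - i) = 1 := by rw [hc, zpow_mul, zpow_natCast, hz, one_zpow]
    rw [zpow_sub, mul_inv_eq_one] at h3
    exact h3
  refine ⟨⟨⟨fun x => z ^ e x, ?_⟩, ?_⟩, ?_, ?_⟩
  · have h := key 1 1 0 (one_mem _) (by simp)
    simpa using h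
  · intro x x'
    obtain ⟨y, hy, h⟩ := he x
    obtain ⟨y', hy', h'⟩ := he x'
    have h1 := key (x * x') (y * (k ^ e x * y' * (k ^ e x)⁻¹)) (e x + e x') (mul_mem hy (H3_conj hn hn' _ y' hy'))
      (by rw [Subgroup.coe_mul, h, h', zpow_add]; group)
    change z ^ e (x * x') = z ^ e x * z ^ e x'
    rw [h1, zpow_add]
  · intro x hxN
    have h := key x x 0 hxN (by simp)
    change z ^ e x = 1
    rw [h, zpow_zero]
  · intro x hxk
    have h := key x 1 1 (one_mem _) (by rw [hxk]; simp)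
    change ((z ^ e x : ℂˣ) : ℂ) = ζ
    rw [h, zpow_one]
    rfl

end Pool.Agent.Lib.MP_666dc0_nt.PL
end

section

/-!
TASK H1. The dimension of the space of equivariant tuples (finite groups, pure linear algebra).

The operators `τ k w = (i ↦ ∑ j, ρ(k⁻¹)_{ji} σ(k) w_j)` define a representation of `Γ` on `W ^ r` (`τ (k k') = τ k τ k'`), and `eqTup σ ρ` is the space of its
invariants (`w` is in it iff `τ k w = w` for all `k`). `P = (card Γ)⁻¹ ∑ τ k` is a projector onto it, so its trace is the dimension (`LinearMap.IsProj.trace`, or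
`Representation.averageMap`, `Representation.isProj_averageMap`), and `trace (τ k) = trace ρ(k⁻¹) trace σ(k)`: `τ k = ∑_{i, j} ρ(k⁻¹)_{ji} single i ∘ σ(k) ∘ proj j`,
`trace (single i ∘ A ∘ proj j) = trace (A ∘ proj j ∘ single i)` (`LinearMap.trace_comp_comm'`), which is `trace A` for `i = j` and `0` otherwise.
-/

namespace Pool.Agent.Lib.MP_666dc0_nt.PL

/-- The tuples `w` with `σ(k) w_i = ∑_j ρ(k)_{ji} w_j`. -/
def eqTup {Γ W : Type} [Group Γ] [AddCommGroup W] [Module ℂ W] (σ : Γ →* Module.End ℂ W) {r : ℕ}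
    (ρ : Γ →* GL (Fin r) ℂ) : Submodule ℂ (Fin r → W) where
  carrier := {w | ∀ k i, σ k (w i) = ∑ j, (ρ k : Matrix (Fin r) (Fin r) ℂ) j i • w j}
  add_mem' {a b} ha hb k i := by
    simp only [Pi.add_apply, map_add, ha k i, hb k i, smul_add, Finset.sum_add_distrib]
  zero_mem' k i := by simp only [Pi.zero_apply, map_zero, smul_zero, Finset.sum_const_zero]
  smul_mem' c a ha k i := by
    simp only [Pi.smul_apply, map_smul, ha k i, Finset.smul_sum, smul_comm c]

section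
variable {Γ W : Type} [Group Γ] [AddCommGroup W] [Module ℂ W] (σ : Γ →* Module.End ℂ W) {r : ℕ}
  (ρ : Γ →* GL (Fin r) ℂ)

private theorem H1rho_mul (k k' : Γ) (i j : Fin r) :
    ∑ l, (ρ k : Matrix (Fin r) (Fin r) ℂ) i l * (ρ k' : Matrix (Fin r) (Fin r) ℂ) l j =
      (ρ (k * k') : Matrix (Fin r) (Fin r) ℂ) i j := by
  rw [map_mul, Units.val_mul, Matrix.mul_apply]

/-- The operator `τ k`. -/
private noncomputable def H1tau (k : Γ) : (Fin r → W) →ₗ[ℂ] (Fin r → W) :=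
  ∑ i, ∑ j, (ρ k⁻¹ : Matrix (Fin r) (Fin r) ℂ) j i •
    (LinearMap.single ℂ (fun _ : Fin r => W) i ∘ₗ (σ k ∘ₗ LinearMap.proj j))

private theorem H1tau_apply (k : Γ) (w : Fin r → W) (i : Fin r) :
    H1tau σ ρ k w i = ∑ j, (ρ k⁻¹ : Matrix (Fin r) (Fin r) ℂ) j i • σ k (w j) := by
  rw [H1tau, LinearMap.sum_apply, Finset.sum_apply, Finset.sum_eq_single i]
  · rw [LinearMap.sum_apply, Finset.sum_apply]
    refine Finset.sum_congr rfl fun j _ => ?_
    rw [LinearMap.smul_apply, Pi.smul_apply, LinearMap.comp_apply, LinearMap.single_apply,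
      Pi.single_eq_same, LinearMap.comp_apply, LinearMap.proj_apply]
  · intro i' _ hne
    rw [LinearMap.sum_apply, Finset.sum_apply]
    refine Finset.sum_eq_zero fun j _ => ?_
    rw [LinearMap.smul_apply, Pi.smul_apply, LinearMap.comp_apply, LinearMap.single_apply,
      Pi.single_eq_of_ne hne.symm, smul_zero]
  · intro h
    exact absurd (Finset.mem_univ i) h

private theorem H1tau_mul (k k' : Γ) (w : Fin r → W) :
    H1tau σ ρ k (H1tau σ ρ k' w) = H1tau σ ρ (k * k') w := by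
  funext i
  rw [H1tau_apply, H1tau_apply]
  have h1 : ∀ j, (ρ k⁻¹ : Matrix (Fin r) (Fin r) ℂ) j i • σ k (H1tau σ ρ k' w j) =
      ∑ l, ((ρ k'⁻¹ : Matrix (Fin r) (Fin r) ℂ) l j * (ρ k⁻¹ : Matrix (Fin r) (Fin r) ℂ) j i) •
        σ (k * k') (w l) := by
    intro j
    rw [H1tau_apply, map_sum, Finset.smul_sum]
    refine Finset.sum_congr rfl fun l _ => ?_
    rw [map_smul, smul_smul, mul_comm, map_mul, Module.End.mul_apply]
  rw [Finset.sum_congr rfl fun j _ => h1 j, Finset.sum_comm]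
  refine Finset.sum_congr rfl fun l _ => ?_
  rw [← Finset.sum_smul, H1rho_mul, mul_inv_rev]

private theorem H1rho_one (i j : Fin r) :
    (ρ 1 : Matrix (Fin r) (Fin r) ℂ) i j = if i = j then 1 else 0 := by
  rw [map_one, Units.val_one, Matrix.one_apply]

private theorem H1mem_iff (w : Fin r → W) : w ∈ eqTup σ ρ ↔ ∀ k, H1tau σ ρ k w = w := by
  constructor
  · intro hw k
    funext i
    rw [H1tau_apply]
    have h1 : ∀ j, (ρ k⁻¹ : Matrix (Fin r) (Fin r) ℂ) j i • σ k (w j) =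
        ∑ l, ((ρ k : Matrix (Fin r) (Fin r) ℂ) l j * (ρ k⁻¹ : Matrix (Fin r) (Fin r) ℂ) j i) • w l := by
      intro j
      rw [hw k j, Finset.smul_sum]
      refine Finset.sum_congr rfl fun l _ => ?_
      rw [smul_smul, mul_comm]
    rw [Finset.sum_congr rfl fun j _ => h1 j, Finset.sum_comm]
    have h2 : ∀ l, ∑ j, ((ρ k : Matrix (Fin r) (Fin r) ℂ) l j *
        (ρ k⁻¹ : Matrix (Fin r) (Fin r) ℂ) j i) • w l = (if l = i then (1 : ℂ) else 0) • w l := by
      intro l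
      rw [← Finset.sum_smul, H1rho_mul, mul_inv_cancel, H1rho_one]
    rw [Finset.sum_congr rfl fun l _ => h2 l]
    simp only [ite_smul, one_smul, zero_smul, Finset.sum_ite_eq', Finset.mem_univ, if_true]
  · intro hw k i
    have h1 : ∀ j, (ρ k : Matrix (Fin r) (Fin r) ℂ) j i • w j =
        ∑ l, ((ρ k⁻¹ : Matrix (Fin r) (Fin r) ℂ) l j * (ρ k : Matrix (Fin r) (Fin r) ℂ) j i) •
          σ k (w l) := by
      intro j
      conv_lhs => rw [← hw k]
      rw [H1tau_apply, Finset.smul_sum]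
      refine Finset.sum_congr rfl fun l _ => ?_
      rw [smul_smul, mul_comm]
    rw [Finset.sum_congr rfl fun j _ => h1 j, Finset.sum_comm]
    have h2 : ∀ l, ∑ j, ((ρ k⁻¹ : Matrix (Fin r) (Fin r) ℂ) l j *
        (ρ k : Matrix (Fin r) (Fin r) ℂ) j i) • σ k (w l) =
          (if l = i then (1 : ℂ) else 0) • σ k (w l) := by
      intro l
      rw [← Finset.sum_smul, H1rho_mul, inv_mul_cancel, H1rho_one]
    rw [Finset.sum_congr rfl fun l _ => h2 l]
    simp only [ite_smul, one_smul, zero_smul, Finset.sum_ite_eq', Finset.mem_univ, if_true]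

private theorem H1trace [FiniteDimensional ℂ W] (k : Γ) :
    LinearMap.trace ℂ (Fin r → W) (H1tau σ ρ k) =
      Matrix.trace (ρ k⁻¹ : Matrix (Fin r) (Fin r) ℂ) * LinearMap.trace ℂ W (σ k) := by
  have h1 : ∀ i j : Fin r, LinearMap.trace ℂ (Fin r → W)
      (LinearMap.single ℂ (fun _ : Fin r => W) i ∘ₗ (σ k ∘ₗ LinearMap.proj j)) =
        if i = j then LinearMap.trace ℂ W (σ k) else 0 := by
    intro i j
    rw [LinearMap.trace_comp_comm']
    split_ifs with h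
    · subst h
      congr 1
      ext w
      rw [LinearMap.comp_apply, LinearMap.comp_apply, LinearMap.proj_apply, LinearMap.single_apply,
        Pi.single_eq_same]
    · rw [show (σ k ∘ₗ LinearMap.proj j) ∘ₗ LinearMap.single ℂ (fun _ : Fin r => W) i = 0 from ?_,
        map_zero]
      ext w
      rw [LinearMap.comp_apply, LinearMap.comp_apply, LinearMap.proj_apply, LinearMap.single_apply,
        Pi.single_eq_of_ne (fun h' => h h'.symm), map_zero, LinearMap.zero_apply]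
  rw [H1tau, map_sum, Matrix.trace, Finset.sum_mul]
  refine Finset.sum_congr rfl fun i _ => ?_
  rw [map_sum, Finset.sum_eq_single i]
  · rw [map_smul, h1, if_pos rfl, smul_eq_mul, Matrix.diag_apply]
  · intro j _ hne
    rw [map_smul, h1, if_neg hne.symm, smul_zero]
  · intro h
    exact absurd (Finset.mem_univ i) h

end

theorem finrank_eqTup {Γ W : Type} [Group Γ] [Fintype Γ] [AddCommGroup W] [Module ℂ W] [FiniteDimensional ℂ W]
    (σ : Γ →* Module.End ℂ W) {r : ℕ} (ρ : Γ →* GL (Fin r) ℂ) :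
    (Module.finrank ℂ (eqTup σ ρ) : ℂ) = (Fintype.card Γ : ℂ)⁻¹ *
      ∑ k, Matrix.trace (ρ k⁻¹ : Matrix (Fin r) (Fin r) ℂ) * LinearMap.trace ℂ W (σ k) := by
  have hcard : (Fintype.card Γ : ℂ) ≠ 0 := Nat.cast_ne_zero.2 Fintype.card_ne_zero
  have hP : LinearMap.IsProj (eqTup σ ρ) ((Fintype.card Γ : ℂ)⁻¹ • ∑ k, H1tau σ ρ k) := by
    refine ⟨fun w => ?_, fun w hw => ?_⟩
    · rw [H1mem_iff]
      intro k
      rw [LinearMap.smul_apply, map_smul, LinearMap.sum_apply, map_sum]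
      congr 1
      rw [Finset.sum_congr rfl fun k' _ => H1tau_mul σ ρ k k' w]
      exact Fintype.sum_equiv (Equiv.mulLeft k) _ _ fun k' => rfl
    · rw [LinearMap.smul_apply, LinearMap.sum_apply,
        Finset.sum_congr rfl fun k _ => (H1mem_iff σ ρ w).1 hw k, Finset.sum_const, Finset.card_univ,
        ← Nat.cast_smul_eq_nsmul ℂ, smul_smul, inv_mul_cancel₀ hcard, one_smul]
  rw [← hP.trace, map_smul, map_sum, smul_eq_mul]
  congr 1
  exact Finset.sum_congr rfl fun k _ => H1trace σ ρ k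

end Pool.Agent.Lib.MP_666dc0_nt.PL
end
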