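import Pool.Agent.Lib.MP_666dc0_nt.Mg.G088
import Pool.Agent.Lib.MP_666dc0_nt.Mg.G089
import Pool.Agent.Lib.MP_666dc0_nt.Mg.G082
import Pool.Agent.Lib.MP_666dc0_nt.Mg.G094

section

/-!
# PL, N1: new forms
-/

open NumberField IsDedekindDomain
open scoped NumberField

namespace Pool.Agent.Lib.MP_666dc0_nt.PL

open WL ZO FM

variable {F : Type} [Field F] [NumberField F] {n : ℕ} {D : Datum F n} {ℓ : ℕ} [Fact ℓ.Prime]
  {S : Finset (HeightOneSpectrum (𝓞 F))} {U : Subgroup D.Ad}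

/-- The type `(J, 1)`. -/
noncomputable def trivType (J : Subgroup D.Ad) : AdType D := ⟨J, 1⟩


theorem ker_trivType (J : Subgroup D.Ad) : (trivType J).ker = J := by
  unfold AdType.ker trivType
  rw [MonoidHom.ker_one, ← MonoidHom.range_eq_map, Subgroup.range_subtype]

theorem isTypeAt_trivType {J : Subgroup D.Ad} (hJ : IsLevel ℓ U J) : IsTypeAt ℓ U (trivType J) :=
  ⟨hJ, by rw [ker_trivType]; exact hJ⟩

theorem isTypeForm_trivType {Q : Submodule ℂ (D.Cpx → ℂ)} {J : Subgroup D.Ad} {f : D.Ad → D.Cpx → ℂ}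
    (hf : IsForm D Q (U ⊔ J) f) : IsTypeForm D Q U (trivType J) f := by
  refine IsTypeForm.mk' hf.mem hf.left (fun g u hu => hf.right g u (Subgroup.mem_sup_left hu)) fun g k => ?_
  have h1 : (((trivType J).χ k : ℂˣ) : ℂ) = 1 := rfl
  rw [h1, one_smul]
  exact hf.right g k (Subgroup.mem_sup_right k.2)

theorem isForm_of_trivType {Q : Submodule ℂ (D.Cpx → ℂ)} {J : Subgroup D.Ad} {f : D.Ad → D.Cpx → ℂ}
    (hf : IsTypeForm D Q U (trivType J) f) : IsForm D Q (U ⊔ J) f := by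
  have h := hf.form
  rwa [ker_trivType] at h

/-- Membership in the span of the eigenforms for one system. -/
theorem mem_tspan_eq {Q : Submodule ℂ (D.Cpx → ℂ)} {T : AdType D} {lam : ∀ v, Hecke U v → ℂ} {f : D.Ad → D.Cpx → ℂ} :
    f ∈ tspan S Q T (· = lam) ↔ IsTypeForm D Q U T f ∧ IsEigen S f lam := by
  constructor
  · intro hf
    unfold tspan at hf
    induction hf using Submodule.span_induction with
    | mem f hf =>
      obtain ⟨h1, lam', h2, rfl⟩ := hf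
      exact ⟨h1, h2⟩
    | zero =>
      exact ⟨(typeForms D Q U T).zero_mem, fun v hv h => by
        have h1 := act_smul h (0 : ℂ) (0 : D.Ad → D.Cpx → ℂ)
        rw [zero_smul, zero_smul] at h1
        rw [h1, smul_zero]⟩
    | add f g _ _ hf hg =>
      exact ⟨(typeForms D Q U T).add_mem hf.1 hg.1, fun v hv h => by
        rw [act_add, hf.2 v hv h, hg.2 v hv h, smul_add]⟩
    | smul c f _ hf =>
      exact ⟨(typeForms D Q U T).smul_mem c hf.1, fun v hv h => by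
        rw [act_smul, hf.2 v hv h, smul_comm]⟩
  · rintro ⟨h1, h2⟩
    exact Submodule.subset_span ⟨h1, lam, h2, rfl⟩

/-- The trace from the level `U I` to the level `U P`. -/
noncomputable def trc (I P : Subgroup D.Ad) [Fintype (P ⧸ I.subgroupOf P)] :
    (D.Ad → D.Cpx → ℂ) →ₗ[ℂ] (D.Ad → D.Cpx → ℂ) where
  toFun f g := ∑ x : P ⧸ I.subgroupOf P, f (g * (x.out : P))
  map_add' f g := by
    funext y
    simp only [Pi.add_apply, Finset.sum_add_distrib]
  map_smul' c f := by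
    funext y
    simp only [Pi.smul_apply, Finset.smul_sum, RingHom.id_apply]

theorem trc_apply (I P : Subgroup D.Ad) [Fintype (P ⧸ I.subgroupOf P)] (f : D.Ad → D.Cpx → ℂ) (g : D.Ad) :
    trc I P f g = ∑ x : P ⧸ I.subgroupOf P, f (g * (x.out : P)) := rfl

theorem trc_isTypeForm (hU : IsTame ℓ U) {I P : Subgroup D.Ad} (hP : IsLevel ℓ U P) [Fintype (P ⧸ I.subgroupOf P)]
    {Q : Submodule ℂ (D.Cpx → ℂ)} {f : D.Ad → D.Cpx → ℂ} (hf : IsForm D Q (U ⊔ I) f) :
    IsTypeForm D Q U (trivType P) (trc I P f) := by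
  refine IsTypeForm.mk' (fun g => ?_) (fun γ g x => ?_) (fun g u hu => ?_) (fun g k => ?_)
  · rw [trc_apply]
    exact Q.sum_mem fun c _ => hf.mem _
  · rw [trc_apply, trc_apply, Finset.sum_apply, Finset.sum_apply]
    refine Finset.sum_congr rfl fun c _ => ?_
    rw [mul_assoc, hf.left]
  · rw [trc_apply, trc_apply]
    refine Finset.sum_congr rfl fun c _ => ?_
    have h1 : u * ((c.out : P) : D.Ad) = ((c.out : P) : D.Ad) * u := comm_of_level hU hP hu (c.out : P).2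
    rw [mul_assoc, h1, ← mul_assoc]
    exact hf.right _ u (Subgroup.mem_sup_left hu)
  · have h0 : (((trivType P).χ k : ℂˣ) : ℂ) = 1 := rfl
    rw [h0, one_smul, trc_apply, trc_apply]
    let k' : P := k
    refine Fintype.sum_equiv (MulAction.toPerm k') _ _ fun c => ?_
    rw [MulAction.toPerm_apply]
    obtain ⟨z, hz⟩ := QuotientGroup.mk_out_eq_mul (I.subgroupOf P) (k' * c.out)
    have h1 : k' • c = (((k' * c.out : P)) : P ⧸ I.subgroupOf P) := by
      conv_lhs => rw [← QuotientGroup.out_eq' c]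
      rfl
    have h2 : (k' • c).out = k' * c.out * z := by rw [h1, hz]
    have hzk : ((z : P) : D.Ad) ∈ U ⊔ I := Subgroup.mem_sup_right (Subgroup.mem_subgroupOf.1 z.2)
    rw [h2, Subgroup.coe_mul, Subgroup.coe_mul, ← mul_assoc, ← mul_assoc, hf.right _ _ hzk]

theorem trc_isEigen (hSl : ∀ v : HeightOneSpectrum (𝓞 F), (ℓ : 𝓞 F) ∈ v.asIdeal → v ∈ S) {I P : Subgroup D.Ad}
    (hP : IsLevel ℓ U P) [Fintype (P ⧸ I.subgroupOf P)] {f : D.Ad → D.Cpx → ℂ} {lam : ∀ v, Hecke U v → ℂ}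
    (hf : IsEigen S f lam) : IsEigen S (trc I P f) lam := by
  intro v hv h
  have hvl : (ℓ : 𝓞 F) ∉ v.asIdeal := fun hl => hv (hSl v hl)
  have hcomm : ∀ (x : locSub D v) (j : P), (x : D.Ad) * (j : D.Ad) = (j : D.Ad) * (x : D.Ad) := by
    intro x j
    apply mul_comm_of_disjoint
    intro w
    by_cases hw : w = v
    · subst hw
      exact Or.inr (hP.supp _ j.2 w hvl)
    · exact Or.inl (x.2 w hw)
  have h1 : h.act (trc I P f) = trc I P (h.act f) := by
    funext g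
    rw [trc_apply]
    simp only [Hecke.act, Finsupp.sum, trc_apply, Finset.smul_sum]
    rw [Finset.sum_comm]
    refine Finset.sum_congr rfl fun c _ => Finset.sum_congr rfl fun x _ => ?_
    rw [mul_assoc, hcomm, ← mul_assoc]
  rw [h1, hf v hv h, map_smul]

open Classical in
/-- The system with the values of `lam` outside `S` and `0` at the places in `S`. -/
noncomputable def nrm (S : Finset (HeightOneSpectrum (𝓞 F))) (lam : ∀ v, Hecke U v → ℂ) : ∀ v, Hecke U v → ℂ :=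
  fun v h => if v ∈ S then 0 else lam v h

theorem nrm_apply {lam : ∀ v, Hecke U v → ℂ} {v : HeightOneSpectrum (𝓞 F)} (hv : v ∉ S) (h : Hecke U v) :
    nrm S lam v h = lam v h := by
  unfold nrm
  rw [if_neg hv]

theorem nrm_nrm (lam : ∀ v, Hecke U v → ℂ) : nrm S (nrm S lam) = nrm S lam := by
  funext v h
  unfold nrm
  split_ifs <;> rfl

theorem isEigen_nrm {f : D.Ad → D.Cpx → ℂ} {lam : ∀ v, Hecke U v → ℂ} (hf : IsEigen S f lam) :
    IsEigen S f (nrm S lam) := fun v hv h => by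
  rw [nrm_apply hv]
  exact hf v hv h

theorem exists_ne {lam lam' : ∀ v, Hecke U v → ℂ} (h1 : nrm S lam = lam) (h2 : nrm S lam' = lam') (h : lam ≠ lam') :
    ∃ v, v ∉ S ∧ ∃ x : Hecke U v, lam v x ≠ lam' v x := by
  by_contra hcon
  push Not at hcon
  apply h
  rw [← h1, ← h2]
  funext v x
  by_cases hv : v ∈ S
  · unfold nrm
    rw [if_pos hv, if_pos hv]
  · rw [nrm_apply hv, nrm_apply hv]
    exact hcon v hv x

/-- Eigenforms for different systems are linearly independent. -/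
theorem indep_eigen {ι : Type} (lam : ι → ∀ v, Hecke U v → ℂ) (Λ : Finset ι)
    (hne : ∀ i ∈ Λ, ∀ j ∈ Λ, i ≠ j → ∃ v, v ∉ S ∧ ∃ x : Hecke U v, lam i v x ≠ lam j v x) :
    ∀ f : ι → D.Ad → D.Cpx → ℂ, (∀ i ∈ Λ, IsEigen S (f i) (lam i)) → ∑ i ∈ Λ, f i = 0 → ∀ i ∈ Λ, f i = 0 := by
  classical
  induction Λ using Finset.induction_on with
  | empty => intro f _ _ i h; exact absurd h (Finset.notMem_empty _)
  | insert μ Λ hμ ih =>
    intro f he h0
    have hne' : ∀ i ∈ Λ, ∀ j ∈ Λ, i ≠ j → ∃ v, v ∉ S ∧ ∃ x : Hecke U v, lam i v x ≠ lam j v x :=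
      fun i hi j hj => hne i (Finset.mem_insert_of_mem hi) j (Finset.mem_insert_of_mem hj)
    have h1 : ∀ i ∈ Λ, f i = 0 := by
      intro i₀ hi₀
      obtain ⟨v, hv, x, hx⟩ := hne i₀ (Finset.mem_insert_of_mem hi₀) μ (Finset.mem_insert_self μ Λ)
        (fun h => hμ (h ▸ hi₀))
      have h2 : ∑ i ∈ Λ, (lam i v x - lam μ v x) • f i = 0 := by
        have h3 : x.act (∑ i ∈ insert μ Λ, f i) = ∑ i ∈ insert μ Λ, x.act (f i) := by
          let φ : (D.Ad → D.Cpx → ℂ) →+ (D.Ad → D.Cpx → ℂ) :=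
            { toFun := x.act
              map_zero' := by
                have h := act_smul x (0 : ℂ) (0 : D.Ad → D.Cpx → ℂ)
                rwa [zero_smul, zero_smul] at h
              map_add' := act_add x }
          exact map_sum φ _ _
        have h4 : x.act (∑ i ∈ insert μ Λ, f i) = 0 := by
          rw [h0]
          have h := act_smul x (0 : ℂ) (0 : D.Ad → D.Cpx → ℂ)
          rwa [zero_smul, zero_smul] at h
        have h5 : ∑ i ∈ insert μ Λ, (lam i v x - lam μ v x) • f i = 0 := by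
          have h6 : ∀ i ∈ insert μ Λ, (lam i v x - lam μ v x) • f i = x.act (f i) - lam μ v x • f i := fun i hi => by
            rw [sub_smul, he i hi v hv x]
          rw [Finset.sum_congr rfl h6, Finset.sum_sub_distrib, ← h3, h4, ← Finset.smul_sum, h0, smul_zero, sub_zero]
        rw [Finset.sum_insert hμ, sub_self, zero_smul, zero_add] at h5
        exact h5
      have h6 := ih hne' (fun i => (lam i v x - lam μ v x) • f i) (fun i hi w hw y => by
        rw [act_smul, he i (Finset.mem_insert_of_mem hi) w hw y, smul_comm]) h2 i₀ hi₀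
      exact (smul_eq_zero.1 h6).resolve_left (sub_ne_zero.2 hx)
    intro i hi
    rcases Finset.mem_insert.1 hi with rfl | h
    · rw [Finset.sum_insert hμ, Finset.sum_eq_zero h1, add_zero] at h0
      exact h0
    · exact h1 i h

theorem mem_allSys {Q : Submodule ℂ (D.Cpx → ℂ)} (hQ : IsWeight D Q) {T : AdType D} (hT : IsTypeAt ℓ U T)
    {f : D.Ad → D.Cpx → ℂ} (hf : IsTypeForm D Q U T f) (hf0 : f ≠ 0) {lam : ∀ v, Hecke U v → ℂ}
    (he : IsEigen S f lam) : lam ∈ AllSys ℓ S U :=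
  ⟨T.ker, hT.ker, f, hf0, ⟨fun g => (hQ.mem _ (hf.form.mem g)).1, hf.form.left, hf.form.right⟩, he⟩

/-- The decomposition into eigenforms for normalised systems. -/
theorem tspan_le_iSup {Q : Submodule ℂ (D.Cpx → ℂ)} (hQ : IsWeight D Q) {T : AdType D} (hT : IsTypeAt ℓ U T)
    {q : (∀ v, Hecke U v → ℂ) → Prop} (hq : SInv ℓ S q) :
    tspan S Q T q ≤ ⨆ x : {lam : ∀ v, Hecke U v → ℂ // nrm S lam = lam ∧ q lam}, tspan S Q T (· = x.1) := by
  unfold tspan
  rw [Submodule.span_le]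
  rintro f ⟨hf, lam, he, hl⟩
  by_cases hf0 : f = 0
  · rw [hf0]
    exact Submodule.zero_mem _
  · have h1 := mem_allSys hQ hT hf hf0 he
    have h2 := mem_allSys hQ hT hf hf0 (isEigen_nrm he)
    have h3 : q (nrm S lam) := hq lam h1 _ h2 (fun v hv h => (nrm_apply hv h).symm) hl
    exact Submodule.mem_iSup_of_mem ⟨nrm S lam, nrm_nrm lam, h3⟩ (Submodule.subset_span ⟨hf, _, isEigen_nrm he, rfl⟩)

theorem dimT_le_dimN_add [IsTotallyReal F] (hD : IsTotPosDef D.q)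
    (hSl : ∀ v : HeightOneSpectrum (𝓞 F), (ℓ : 𝓞 F) ∈ v.asIdeal → v ∈ S) (hU : IsTame ℓ U)
    {Q : Submodule ℂ (D.Cpx → ℂ)} (hQ : IsWeight D Q) {k : ℕ} (I : Subgroup D.Ad) (P : Fin k → Subgroup D.Ad)
    (hI : IsLevel ℓ U I) (hP : ∀ j, IsLevel ℓ U (P j)) {q : (∀ v, Hecke U v → ℂ) → Prop} (hq : SInv ℓ S q) :
    dimT S Q (trivType I) q ≤ dimN U S Q I P q + ∑ j, dimT S Q (trivType (P j)) q := by
  have hfi : ∀ j, Finite (P j ⧸ I.subgroupOf (P j)) := fun j =>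
    Nat.finite_of_card_ne_zero (relIndex_ne_zero_of_level hU hI (hP j))
  have := fun j => Fintype.ofFinite (P j ⧸ I.subgroupOf (P j))
  have hfin : ∀ J, IsLevel ℓ U J → FiniteDimensional ℂ (typeForms D Q U (trivType J)) := fun J hJ =>
    finite_typeForms hD (isTypeAt_trivType hJ) hQ
  have hf1 : FiniteDimensional ℂ (tspan S Q (trivType I) q) := by
    have h1 := hfin I hI
    exact Submodule.finiteDimensional_of_le (tspan_le Q (trivType I) q)
  have hf2 : ∀ j, FiniteDimensional ℂ (tspan S Q (trivType (P j)) q) := fun j => by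
    have h1 := hfin (P j) (hP j)
    exact Submodule.finiteDimensional_of_le (tspan_le Q (trivType (P j)) q)
  have hmap : ∀ j, ∀ f ∈ tspan S Q (trivType I) q, trc I (P j) f ∈ tspan S Q (trivType (P j)) q := by
    intro j f hf
    have h1 : tspan S Q (trivType I) q ≤ (tspan S Q (trivType (P j)) q).comap (trc I (P j)) := by
      unfold tspan
      rw [Submodule.span_le]
      rintro f ⟨hf, lam, he, hl⟩
      exact Submodule.subset_span ⟨trc_isTypeForm hU (hP j) (isForm_of_trivType hf), lam, trc_isEigen hSl (hP j) he, hl⟩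
    exact h1 hf
  let L : (tspan S Q (trivType I) q) →ₗ[ℂ] (∀ j, tspan S Q (trivType (P j)) q) :=
    LinearMap.pi fun j => ((trc I (P j)).comp (Submodule.subtype _)).codRestrict _ fun f => hmap j f.1 f.2
  set N : Submodule ℂ (D.Ad → D.Cpx → ℂ) :=
    Submodule.span ℂ {f | IsNewForm D Q U I P f ∧ ∃ lam, IsEigen S f lam ∧ q lam} with hN
  have hNle : N ≤ typeForms D Q U (trivType I) := by
    rw [hN, Submodule.span_le]
    rintro f ⟨hf, -⟩
    exact isTypeForm_trivType hf.form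
  have hNf : FiniteDimensional ℂ N := by
    have h1 := hfin I hI
    exact Submodule.finiteDimensional_of_le hNle
  have hker : (LinearMap.ker L).map (Submodule.subtype _) ≤ N := by
    rintro _ ⟨f, hf, rfl⟩
    have h1 : ∀ j, trc I (P j) f.1 = 0 := fun j => by
      have h2 : (L f) j = 0 := by
        rw [LinearMap.mem_ker.1 hf]
        rfl
      exact congrArg Subtype.val h2
    obtain ⟨g, hg, hgf'⟩ := (Submodule.mem_iSup_iff_exists_finsupp _ _).1
      (tspan_le_iSup hQ (isTypeAt_trivType hI) hq f.2)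
    have hgf : ∑ i ∈ g.support, g i = f.1 := hgf'
    have h3 : ∀ j, ∀ i ∈ g.support, trc I (P j) (g i) = 0 := by
      intro j
      refine indep_eigen (S := S) (fun i : {lam : ∀ v, Hecke U v → ℂ // nrm S lam = lam ∧ q lam} => i.1) g.support
        (fun a _ b _ hab => exists_ne a.2.1 b.2.1 fun h => hab (Subtype.ext h)) (fun i => trc I (P j) (g i))
        (fun i _ => trc_isEigen hSl (hP j) (mem_tspan_eq.1 (hg i)).2) ?_
      rw [← map_sum, hgf]
      exact h1 j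
    rw [Submodule.subtype_apply, ← hgf]
    refine N.sum_mem fun i hi => Submodule.subset_span ⟨⟨isForm_of_trivType (mem_tspan_eq.1 (hg i)).1, fun j x => ?_⟩,
      i.1, (mem_tspan_eq.1 (hg i)).2, i.2.2⟩
    rw [finsum_eq_sum_of_fintype]
    exact congrFun (h3 j i hi) x
  have h1 := LinearMap.finrank_range_add_finrank_ker L
  have h2 : Module.finrank ℂ (LinearMap.range L) ≤ ∑ j, dimT S Q (trivType (P j)) q := by
    refine (Submodule.finrank_le _).trans ?_
    rw [Module.finrank_pi_fintype]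
    exact le_rfl
  have h3 : Module.finrank ℂ (LinearMap.ker L) ≤ dimN U S Q I P q := by
    have h4 : Module.finrank ℂ ((LinearMap.ker L).map (Submodule.subtype _)) = Module.finrank ℂ (LinearMap.ker L) :=
      Submodule.finrank_map_subtype_eq _ _
    rw [← h4]
    exact Submodule.finrank_mono hker
  unfold dimT at h2 ⊢
  rw [← h1]
  omega

end Pool.Agent.Lib.MP_666dc0_nt.PL
end

section

/-!
# PL, H4: eigenspaces of the right translations
-/

open NumberField IsDedekindDomain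
open scoped NumberField

namespace Pool.Agent.Lib.MP_666dc0_nt.PL

open WL ZO FM

variable {F : Type} [Field F] [NumberField F] {n : ℕ} {D : Datum F n} {ℓ : ℕ} [Fact ℓ.Prime]
  {S : Finset (HeightOneSpectrum (𝓞 F))} {U : Subgroup D.Ad}

omit [Fact ℓ.Prime] in
theorem rt_apply (k : D.Ad) (f : D.Ad → D.Cpx → ℂ) (g : D.Ad) : rt k f g = f (g * k) := rfl

omit [Fact ℓ.Prime] in
theorem rt_mul (a b : D.Ad) (f : D.Ad → D.Cpx → ℂ) : rt (a * b) f = rt a (rt b f) := by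
  funext g
  rw [rt_apply, rt_apply, rt_apply, mul_assoc]

omit [Fact ℓ.Prime] in
theorem rt_one (f : D.Ad → D.Cpx → ℂ) : rt 1 f = f := by
  funext g
  rw [rt_apply, mul_one]

theorem rt_isEigen (hSl : ∀ v : HeightOneSpectrum (𝓞 F), (ℓ : 𝓞 F) ∈ v.asIdeal → v ∈ S) {P : Subgroup D.Ad}
    (hP : IsLevel ℓ U P) {k : D.Ad} (hk : k ∈ P) {f : D.Ad → D.Cpx → ℂ} {lam : ∀ v, Hecke U v → ℂ}
    (hf : IsEigen S f lam) : IsEigen S (rt k f) lam := by
  intro v hv h
  have hvl : (ℓ : 𝓞 F) ∉ v.asIdeal := fun hl => hv (hSl v hl)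
  have hcomm : ∀ (x : locSub D v), (x : D.Ad) * k = k * (x : D.Ad) := by
    intro x
    apply mul_comm_of_disjoint
    intro w
    by_cases hw : w = v
    · subst hw
      exact Or.inr (hP.supp _ hk w hvl)
    · exact Or.inl (x.2 w hw)
  have h1 : h.act (rt k f) = rt k (h.act f) := by
    funext g
    rw [rt_apply]
    simp only [Hecke.act, Finsupp.sum, rt_apply]
    refine Finset.sum_congr rfl fun x _ => ?_
    rw [mul_assoc, hcomm, ← mul_assoc]
  rw [h1, hf v hv h, map_smul]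

theorem rt_isTypeForm (hU : IsTame ℓ U)
    {P N : Subgroup D.Ad} (hP : IsLevel ℓ U P) (hn : ∀ g ∈ P, ∀ x ∈ N, g * x * g⁻¹ ∈ N) {k : D.Ad} (hk : k ∈ P)
    {Q : Submodule ℂ (D.Cpx → ℂ)} {f : D.Ad → D.Cpx → ℂ} (hf : IsTypeForm D Q U (trivType N) f) :
    IsTypeForm D Q U (trivType N) (rt k f) := by
  have hf' := isForm_of_trivType hf
  refine IsTypeForm.mk' (fun g => hf'.mem _) (fun γ g x => ?_) (fun g u hu => ?_) (fun g x => ?_)
  · rw [rt_apply, rt_apply, mul_assoc, hf'.left]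
  · rw [rt_apply, rt_apply, mul_assoc, comm_of_level hU hP hu hk, ← mul_assoc]
    exact hf'.right _ u (Subgroup.mem_sup_left hu)
  · have h0 : (((trivType N).χ x : ℂˣ) : ℂ) = 1 := rfl
    have hx : k⁻¹ * (x : D.Ad) * k ∈ N := by
      have h := hn k⁻¹ (P.inv_mem hk) x x.2
      rwa [inv_inv] at h
    rw [h0, one_smul, rt_apply, rt_apply]
    have h1 : g * (x : D.Ad) * k = g * k * (k⁻¹ * (x : D.Ad) * k) := by group
    rw [h1]
    exact hf'.right _ _ (Subgroup.mem_sup_right hx)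

theorem rt_mem_tspan (hSl : ∀ v : HeightOneSpectrum (𝓞 F), (ℓ : 𝓞 F) ∈ v.asIdeal → v ∈ S) (hU : IsTame ℓ U)
    {P N : Subgroup D.Ad} (hP : IsLevel ℓ U P) (hn : ∀ g ∈ P, ∀ x ∈ N, g * x * g⁻¹ ∈ N) {k : D.Ad} (hk : k ∈ P)
    {Q : Submodule ℂ (D.Cpx → ℂ)} {p : (∀ v, Hecke U v → ℂ) → Prop} :
    ∀ f ∈ tspan S Q (trivType N) p, rt k f ∈ tspan S Q (trivType N) p := by
  have h : tspan S Q (trivType N) p ≤ (tspan S Q (trivType N) p).comap (rt k) := by
    conv_lhs => unfold tspan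
    rw [Submodule.span_le]
    rintro f ⟨hf, lam, he, hl⟩
    exact Submodule.subset_span ⟨rt_isTypeForm hU hP hn hk hf, lam, rt_isEigen hSl hP hk he, hl⟩
  exact fun f hf => h hf

theorem isTypeAt_char {P N : Subgroup D.Ad} (hP : IsLevel ℓ U P) (hN : IsLevel ℓ U N) (hNP : N ≤ P) {k : D.Ad}
    (hk : k ∈ P) (χ : (N ⊔ Subgroup.zpowers k : Subgroup D.Ad) →* ℂˣ) (hχ : ∀ x : (N ⊔ Subgroup.zpowers k : Subgroup D.Ad), (x : D.Ad) ∈ N → χ x = 1) :
    IsTypeAt ℓ U ⟨N ⊔ Subgroup.zpowers k, χ⟩ := by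
  have hCP : N ⊔ Subgroup.zpowers k ≤ P := sup_le hNP (Subgroup.zpowers_le.2 hk)
  refine ⟨level_of_le hN hP le_sup_left hCP, level_of_le hN hP (fun x hx => ?_) ?_⟩
  · exact Subgroup.mem_map.2 ⟨⟨x, Subgroup.mem_sup_left hx⟩, (MonoidHom.mem_ker).2 (hχ ⟨x, Subgroup.mem_sup_left hx⟩ hx), rfl⟩
  · rintro _ ⟨y, _, rfl⟩
    exact hCP y.2

/-- The projector onto the eigenspace of `rt k` for `ζ`. -/
noncomputable def H4_e (k : D.Ad) (M : ℕ) (ζ : ℂ) : (D.Ad → D.Cpx → ℂ) →ₗ[ℂ] (D.Ad → D.Cpx → ℂ) :=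
  (M : ℂ)⁻¹ • ∑ i ∈ Finset.range M, (ζ⁻¹) ^ i • rt (k ^ i)

omit [Fact ℓ.Prime] in
theorem H4_e_apply (k : D.Ad) (M : ℕ) (ζ : ℂ) (f : D.Ad → D.Cpx → ℂ) :
    H4_e k M ζ f = (M : ℂ)⁻¹ • ∑ i ∈ Finset.range M, (ζ⁻¹) ^ i • rt (k ^ i) f := by
  unfold H4_e
  rw [LinearMap.smul_apply, LinearMap.sum_apply]
  rfl

omit [Fact ℓ.Prime] in
theorem H4_rt_e {k : D.Ad} {M : ℕ} {ζ : ℂ} (hζ0 : ζ ≠ 0) (hζ : ζ ^ M = 1) {f : D.Ad → D.Cpx → ℂ}
    (hf : rt (k ^ M) f = f) : rt k (H4_e k M ζ f) = ζ • H4_e k M ζ f := by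
  have hc : (ζ⁻¹) ^ M = 1 := by rw [inv_pow, hζ, inv_one]
  have h : ∑ i ∈ Finset.range M, (ζ⁻¹) ^ (i + 1) • rt (k ^ (i + 1)) f = ∑ i ∈ Finset.range M, (ζ⁻¹) ^ i • rt (k ^ i) f := by
    have ha := Finset.sum_range_succ' (fun i => (ζ⁻¹) ^ i • rt (k ^ i) f) M
    have hb := Finset.sum_range_succ (fun i => (ζ⁻¹) ^ i • rt (k ^ i) f) M
    simp only [hc, hf, pow_zero, rt_one] at ha hb
    exact add_right_cancel (ha.symm.trans hb)
  rw [H4_e_apply, map_smul, smul_comm ζ]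
  congr 1
  rw [map_sum]
  have h5 : ∑ i ∈ Finset.range M, rt k ((ζ⁻¹) ^ i • rt (k ^ i) f) = ζ • ∑ i ∈ Finset.range M, (ζ⁻¹) ^ (i + 1) • rt (k ^ (i + 1)) f := by
    rw [Finset.smul_sum]
    refine Finset.sum_congr rfl (fun i _ => ?_)
    rw [map_smul, ← rt_mul, ← pow_succ', smul_smul]
    congr 1
    rw [pow_succ, mul_comm, mul_assoc, inv_mul_cancel₀ hζ0, mul_one]
  rw [h5, h]

omit [Fact ℓ.Prime] in
theorem H4_e_self {k : D.Ad} {M : ℕ} (hM : 0 < M) {ζ : ℂ} (hζ0 : ζ ≠ 0) {f : D.Ad → D.Cpx → ℂ}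
    (hf : rt k f = ζ • f) : H4_e k M ζ f = f := by
  have hM0 : (M : ℂ) ≠ 0 := Nat.cast_ne_zero.mpr hM.ne'
  have hp : ∀ i : ℕ, rt (k ^ i) f = ζ ^ i • f := by
    intro i
    induction i with
    | zero => rw [pow_zero, rt_one, pow_zero, one_smul]
    | succ i ih => rw [pow_succ', rt_mul, ih, map_smul, hf, smul_smul, ← pow_succ]
  rw [H4_e_apply]
  have hs : ∑ i ∈ Finset.range M, (ζ⁻¹) ^ i • rt (k ^ i) f = (M : ℂ) • f := by
    rw [Finset.sum_congr rfl (g := fun _ => f) (fun i _ => ?_)]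
    · rw [Finset.sum_const, Finset.card_range, Nat.cast_smul_eq_nsmul]
    · rw [hp i, smul_smul, ← mul_pow, inv_mul_cancel₀ hζ0, one_pow, one_smul]
  rw [hs, smul_smul, inv_mul_cancel₀ hM0, one_smul]

/-- A function on a group which transforms by `χ` under `N` and `k` transforms by `χ` under `N ⊔ ⟨k⟩`. -/
theorem H4_gen {G V : Type} [Group G] [AddCommGroup V] [Module ℂ V] {N : Subgroup G} {k : G} (χ : (N ⊔ Subgroup.zpowers k : Subgroup G) →* ℂˣ)
    (hχ : ∀ x : (N ⊔ Subgroup.zpowers k : Subgroup G), (x : G) ∈ N → χ x = 1) {ζ : ℂ}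
    (hχk : ∀ x : (N ⊔ Subgroup.zpowers k : Subgroup G), (x : G) = k → ((χ x : ℂˣ) : ℂ) = ζ)
    {f : G → V} (hN : ∀ g, ∀ x ∈ N, f (g * x) = f g) (hk : ∀ g, f (g * k) = ζ • f g)
    (g : G) (x : (N ⊔ Subgroup.zpowers k : Subgroup G)) : f (g * x) = ((χ x : ℂˣ) : ℂ) • f g := by
  let H : Subgroup G :=
    { carrier := {x | ∃ h : x ∈ N ⊔ Subgroup.zpowers k, ∀ g, f (g * x) = ((χ ⟨x, h⟩ : ℂˣ) : ℂ) • f g}
      one_mem' := ⟨one_mem _, fun g => by
        have h : χ ⟨1, one_mem _⟩ = 1 := map_one χ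
        rw [h, Units.val_one, one_smul, mul_one]⟩
      mul_mem' := by
        rintro a b ⟨ha, h1⟩ ⟨hb, h2⟩
        refine ⟨mul_mem ha hb, fun g => ?_⟩
        have h : χ ⟨a * b, mul_mem ha hb⟩ = χ ⟨a, ha⟩ * χ ⟨b, hb⟩ := map_mul χ ⟨a, ha⟩ ⟨b, hb⟩
        rw [h, ← mul_assoc, h2, h1, Units.val_mul, smul_smul, mul_comm]
      inv_mem' := by
        rintro a ⟨ha, h1⟩
        refine ⟨inv_mem ha, fun g => ?_⟩
        have h : χ ⟨a⁻¹, inv_mem ha⟩ = (χ ⟨a, ha⟩)⁻¹ := map_inv χ ⟨a, ha⟩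
        have h2 := h1 (g * a⁻¹)
        rw [inv_mul_cancel_right] at h2
        rw [h, h2, smul_smul, Units.inv_mul, one_smul] }
  have h1 : N ≤ H := fun y hy => ⟨Subgroup.mem_sup_left hy, fun g => by
    rw [hχ ⟨y, Subgroup.mem_sup_left hy⟩ hy, Units.val_one, one_smul]
    exact hN g y hy⟩
  have h2 : Subgroup.zpowers k ≤ H := by
    rw [Subgroup.zpowers_le]
    refine ⟨Subgroup.mem_sup_right (Subgroup.mem_zpowers k), fun g => ?_⟩
    rw [hχk _ rfl]
    exact hk g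
  obtain ⟨h3, h4⟩ := (sup_le h1 h2) x.2
  exact h4 g

omit [Fact ℓ.Prime] in
/-- A form which transforms by `χ` under `N` and `k` transforms by `χ` under `N ⊔ ⟨k⟩`. -/
theorem H4_type {N : Subgroup D.Ad} {k : D.Ad} (χ : (N ⊔ Subgroup.zpowers k : Subgroup D.Ad) →* ℂˣ)
    (hχ : ∀ x : (N ⊔ Subgroup.zpowers k : Subgroup D.Ad), (x : D.Ad) ∈ N → χ x = 1) {ζ : ℂ}
    (hχk : ∀ x : (N ⊔ Subgroup.zpowers k : Subgroup D.Ad), (x : D.Ad) = k → ((χ x : ℂˣ) : ℂ) = ζ)
    {f : D.Ad → D.Cpx → ℂ} (hN : ∀ g, ∀ x ∈ N, f (g * x) = f g) (hk : rt k f = ζ • f)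
    (g : D.Ad) (x : (N ⊔ Subgroup.zpowers k : Subgroup D.Ad)) : f (g * x) = ((χ x : ℂˣ) : ℂ) • f g :=
  H4_gen χ hχ hχk hN (fun g => congrFun hk g) g x

theorem tspan_char (hSl : ∀ v : HeightOneSpectrum (𝓞 F), (ℓ : 𝓞 F) ∈ v.asIdeal → v ∈ S) (hU : IsTame ℓ U)
    {P N : Subgroup D.Ad} (hP : IsLevel ℓ U P) (hN : IsLevel ℓ U N) (hNP : N ≤ P)
    (hn : ∀ g ∈ P, ∀ x ∈ N, g * x * g⁻¹ ∈ N) {k : D.Ad} (hk : k ∈ P) {M : ℕ} (hM : 0 < M) (hkM : k ^ M ∈ N) {ζ : ℂ}
    (hζ : ζ ^ M = 1) (χ : (N ⊔ Subgroup.zpowers k : Subgroup D.Ad) →* ℂˣ) (hχ : ∀ x : (N ⊔ Subgroup.zpowers k : Subgroup D.Ad), (x : D.Ad) ∈ N → χ x = 1)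
    (hχk : ∀ x : (N ⊔ Subgroup.zpowers k : Subgroup D.Ad), (x : D.Ad) = k → ((χ x : ℂˣ) : ℂ) = ζ)
    {Q : Submodule ℂ (D.Cpx → ℂ)} {p : (∀ v, Hecke U v → ℂ) → Prop} {f : D.Ad → D.Cpx → ℂ} :
    f ∈ tspan S Q ⟨N ⊔ Subgroup.zpowers k, χ⟩ p ↔ f ∈ tspan S Q (trivType N) p ∧ rt k f = ζ • f := by
  have hζ0 : ζ ≠ 0 := by
    rintro rfl
    rw [zero_pow hM.ne'] at hζ
    exact zero_ne_one hζ
  constructor
  · intro hf
    have h1 : tspan S Q ⟨N ⊔ Subgroup.zpowers k, χ⟩ p ≤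
        tspan S Q (trivType N) p ⊓ LinearMap.ker (rt k - ζ • (LinearMap.id : (D.Ad → D.Cpx → ℂ) →ₗ[ℂ] _)) := by
      conv_lhs => unfold tspan
      rw [Submodule.span_le]
      rintro f ⟨hf, lam, he, hl⟩
      refine ⟨Submodule.subset_span ⟨IsTypeForm.mk' hf.form.mem hf.form.left
        (fun g u hu => hf.form.right g u (Subgroup.mem_sup_left hu)) (fun g x => ?_), lam, he, hl⟩, ?_⟩
      · have h0 : (((trivType N).χ x : ℂˣ) : ℂ) = 1 := rfl
        have h2 := hf.type' g ⟨(x : D.Ad), Subgroup.mem_sup_left x.2⟩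
        have h3 : χ ⟨(x : D.Ad), Subgroup.mem_sup_left x.2⟩ = 1 := hχ _ x.2
        rw [h0]
        change f (g * (x : D.Ad)) = ((χ ⟨(x : D.Ad), Subgroup.mem_sup_left x.2⟩ : ℂˣ) : ℂ) • f g at h2
        rw [h2, h3, Units.val_one]
      · rw [SetLike.mem_coe, LinearMap.mem_ker, LinearMap.sub_apply, LinearMap.smul_apply, LinearMap.id_apply, sub_eq_zero]
        funext g
        have h2 := hf.type' g ⟨k, Subgroup.mem_sup_right (Subgroup.mem_zpowers k)⟩
        change f (g * k) = ((χ ⟨k, Subgroup.mem_sup_right (Subgroup.mem_zpowers k)⟩ : ℂˣ) : ℂ) • f g at h2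
        rw [rt_apply, h2, hχk _ rfl]
        rfl
    obtain ⟨h2, h3⟩ := h1 hf
    refine ⟨h2, ?_⟩
    rwa [SetLike.mem_coe, LinearMap.mem_ker, LinearMap.sub_apply, LinearMap.smul_apply, LinearMap.id_apply, sub_eq_zero] at h3
  · rintro ⟨hf, hfk⟩
    have h1 : tspan S Q (trivType N) p ≤ (tspan S Q ⟨N ⊔ Subgroup.zpowers k, χ⟩ p).comap (H4_e k M ζ) := by
      conv_lhs => unfold tspan
      rw [Submodule.span_le]
      rintro f ⟨hf, lam, he, hl⟩
      have h2 : f ∈ tspan S Q (trivType N) (· = lam) := mem_tspan_eq.2 ⟨hf, he⟩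
      have h3 : H4_e k M ζ f ∈ tspan S Q (trivType N) (· = lam) := by
        rw [H4_e_apply]
        exact Submodule.smul_mem _ _ (Submodule.sum_mem _ fun i _ => Submodule.smul_mem _ _
          (rt_mem_tspan hSl hU hP hn (P.pow_mem hk i) f h2))
      obtain ⟨h4, h5⟩ := mem_tspan_eq.1 h3
      have h6 := isForm_of_trivType h4
      have h7 : rt (k ^ M) f = f := by
        funext g
        exact (isForm_of_trivType hf).right g _ (Subgroup.mem_sup_right hkM)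
      exact Submodule.subset_span ⟨IsTypeForm.mk' h6.mem h6.left
        (fun g u hu => h6.right g u (Subgroup.mem_sup_left hu))
        (fun g x => H4_type χ hχ hχk (fun g x hx => h6.right g x (Subgroup.mem_sup_right hx)) (H4_rt_e hζ0 hζ h7) g x), lam, h5, hl⟩
    have h2 := h1 hf
    rw [Submodule.mem_comap, H4_e_self hM hζ0 hfk] at h2
    exact h2

end Pool.Agent.Lib.MP_666dc0_nt.PL
end

section

/-!
# PL, H6: forms of a type as equivariant tuples

`N = T.ker`, `W = tspan S Q (trivType N) p`, `Γ = J ⧸ ker ρ` (a finite group). `σ` is the lift of `k ↦ (rt k).restrict` to `Γ`.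
`rspan S Q T p` is the space of all tuples `f` with `f i ∈ W` and `rt k (f i) = ∑ j, ρ(k)_{ji} f j`: `⊆` on generators, `⊇` with the
projector `w ↦ (card Γ)⁻¹ ∑_j ∑_{k ∈ Γ} (i ↦ ρ(k⁻¹)_{ji} σ(k) w_j)`.
-/

open NumberField IsDedekindDomain
open scoped NumberField

namespace Pool.Agent.Lib.MP_666dc0_nt.PL

open WL ZO FM

section
variable {Γ W : Type} [Group Γ] [AddCommGroup W] [Module ℂ W] (σ : Γ →* Module.End ℂ W) {r : ℕ}
  (ρ : Γ →* GL (Fin r) ℂ)

private theorem H6B_mem [Fintype Γ] (j : Fin r) (x : W) :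
    (fun i => ∑ k : Γ, (ρ k⁻¹ : Matrix (Fin r) (Fin r) ℂ) j i • σ k x) ∈ eqTup σ ρ := by
  intro k' i
  have h2 : ∑ l, (ρ k' : Matrix (Fin r) (Fin r) ℂ) l i •
      (∑ k : Γ, (ρ k⁻¹ : Matrix (Fin r) (Fin r) ℂ) j l • σ k x) =
      ∑ k : Γ, (ρ (k⁻¹ * k') : Matrix (Fin r) (Fin r) ℂ) j i • σ k x := by
    simp only [Finset.smul_sum, smul_smul]
    rw [Finset.sum_comm]
    refine Finset.sum_congr rfl fun k _ => ?_
    rw [← Finset.sum_smul, map_mul, Units.val_mul, Matrix.mul_apply]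
    congr 1
    exact Finset.sum_congr rfl fun l _ => mul_comm _ _
  change σ k' (∑ k : Γ, (ρ k⁻¹ : Matrix (Fin r) (Fin r) ℂ) j i • σ k x) = ∑ l, (ρ k' : Matrix (Fin r) (Fin r) ℂ) l i •
      (∑ k : Γ, (ρ k⁻¹ : Matrix (Fin r) (Fin r) ℂ) j l • σ k x)
  rw [h2, map_sum]
  refine Fintype.sum_equiv (Equiv.mulLeft k') _ _ fun k => ?_
  rw [map_smul, Equiv.coe_mulLeft, mul_inv_rev, inv_mul_cancel_right, map_mul, Module.End.mul_apply]

private theorem H6proj_eq [Fintype Γ] {w : Fin r → W} (hw : w ∈ eqTup σ ρ) (i : Fin r) :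
    ∑ j, ∑ k : Γ, (ρ k⁻¹ : Matrix (Fin r) (Fin r) ℂ) j i • σ k (w j) = (Fintype.card Γ : ℂ) • w i := by
  have h1 : ∀ k : Γ, ∑ j, (ρ k⁻¹ : Matrix (Fin r) (Fin r) ℂ) j i • σ k (w j) = w i := by
    intro k
    have h2 : ∀ j, (ρ k⁻¹ : Matrix (Fin r) (Fin r) ℂ) j i • σ k (w j) =
        ∑ l, ((ρ k : Matrix (Fin r) (Fin r) ℂ) l j * (ρ k⁻¹ : Matrix (Fin r) (Fin r) ℂ) j i) • w l := by
      intro j
      rw [hw k j, Finset.smul_sum]
      refine Finset.sum_congr rfl fun l _ => ?_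
      rw [smul_smul, mul_comm]
    rw [Finset.sum_congr rfl fun j _ => h2 j, Finset.sum_comm]
    have h3 : ∀ l, ∑ j, ((ρ k : Matrix (Fin r) (Fin r) ℂ) l j *
        (ρ k⁻¹ : Matrix (Fin r) (Fin r) ℂ) j i) • w l = (if l = i then (1 : ℂ) else 0) • w l := by
      intro l
      rw [← Finset.sum_smul, ← Matrix.mul_apply, ← Units.val_mul, ← map_mul, mul_inv_cancel, map_one,
        Units.val_one, Matrix.one_apply]
    rw [Finset.sum_congr rfl fun l _ => h3 l]
    simp only [ite_smul, one_smul, zero_smul, Finset.sum_ite_eq', Finset.mem_univ, if_true]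
  rw [Finset.sum_comm, Finset.sum_congr rfl fun k _ => h1 k, Finset.sum_const, Finset.card_univ,
    ← Nat.cast_smul_eq_nsmul ℂ]

end

variable {F : Type} [Field F] [NumberField F] {n : ℕ} {D : Datum F n} {ℓ : ℕ} [Fact ℓ.Prime]
  {S : Finset (HeightOneSpectrum (𝓞 F))} {U : Subgroup D.Ad}

theorem RepType.ker_le (T : RepType D) : T.ker ≤ T.J := by
  rintro _ ⟨x, _, rfl⟩
  exact x.2

private theorem H6conj {G : Type} [Group G] (J : Subgroup G) {H : Type} [Group H] (ρ : J →* H) :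
    ∀ g ∈ J, ∀ x ∈ ρ.ker.map J.subtype, g * x * g⁻¹ ∈ ρ.ker.map J.subtype := by
  rintro g hg _ ⟨x, hx, rfl⟩
  exact ⟨⟨g, hg⟩ * x * ⟨g, hg⟩⁻¹, (MonoidHom.normal_ker ρ).conj_mem x hx ⟨g, hg⟩, rfl⟩

theorem RepType.ker_normal (T : RepType D) : ∀ g ∈ T.J, ∀ x ∈ T.ker, g * x * g⁻¹ ∈ T.ker :=
  H6conj T.J T.ρ

theorem RepType.card_quot (T : RepType D) : Nat.card (T.J ⧸ T.ρ.ker) = T.ker.relIndex T.J := by
  have h : T.ker.subgroupOf T.J = T.ρ.ker :=
    Subgroup.comap_map_eq_self_of_injective T.J.subtype_injective _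
  rw [Subgroup.relIndex, h]
  rfl

private theorem H6main (hSl : ∀ v : HeightOneSpectrum (𝓞 F), (ℓ : 𝓞 F) ∈ v.asIdeal → v ∈ S) (hU : IsTame ℓ U)
    {T : RepType D} (hT : IsRepTypeAt ℓ U T) (Q : Submodule ℂ (D.Cpx → ℂ)) (p : (∀ v, Hecke U v → ℂ) → Prop) :
    ∃ σ : (T.J ⧸ T.ρ.ker) →* Module.End ℂ (tspan S Q (trivType T.ker) p),
      (∀ (k : T.J) (w : tspan S Q (trivType T.ker) p), (σ (QuotientGroup.mk k) w : D.Ad → D.Cpx → ℂ) = rt (k : D.Ad) w) ∧
      rspan S Q T p = (eqTup σ (QuotientGroup.kerLift T.ρ)).map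
        ((tspan S Q (trivType T.ker) p).subtype.compLeft (Fin T.r)) := by
  let σ₀ : T.J →* Module.End ℂ (tspan S Q (trivType T.ker) p) :=
    { toFun := fun k => (rt (k : D.Ad)).restrict (rt_mem_tspan hSl hU hT.level T.ker_normal k.2)
      map_one' := by
        refine LinearMap.ext fun w => Subtype.ext (funext fun g => ?_)
        change (w : D.Ad → D.Cpx → ℂ) (g * ((1 : T.J) : D.Ad)) = (w : D.Ad → D.Cpx → ℂ) g
        rw [OneMemClass.coe_one, mul_one]
      map_mul' := fun k k' => by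
        refine LinearMap.ext fun w => Subtype.ext (funext fun g => ?_)
        change (w : D.Ad → D.Cpx → ℂ) (g * ((k * k' : T.J) : D.Ad)) = (w : D.Ad → D.Cpx → ℂ) (g * (k : D.Ad) * (k' : D.Ad))
        rw [Subgroup.coe_mul, mul_assoc] }
  have hinv : ∀ w ∈ tspan S Q (trivType T.ker) p, ∀ (g : D.Ad), ∀ x ∈ T.ker, w (g * x) = w g := by
    intro w hw
    unfold tspan at hw
    induction hw using Submodule.span_induction with
    | mem f hf =>
      intro g x hx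
      exact (isForm_of_trivType hf.1).right g x (Subgroup.mem_sup_right hx)
    | zero => intro g x hx; rfl
    | add f f' _ _ hf hf' =>
      intro g x hx
      rw [Pi.add_apply, Pi.add_apply, hf g x hx, hf' g x hx]
    | smul c f _ hf =>
      intro g x hx
      rw [Pi.smul_apply, Pi.smul_apply, hf g x hx]
  have hker : ∀ x ∈ T.ρ.ker, σ₀ x = 1 := by
    intro x hx
    refine LinearMap.ext fun w => Subtype.ext (funext fun g => ?_)
    exact hinv w w.2 g x ⟨x, hx, rfl⟩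
  let σ : (T.J ⧸ T.ρ.ker) →* Module.End ℂ (tspan S Q (trivType T.ker) p) := QuotientGroup.lift T.ρ.ker σ₀ hker
  have hσ : ∀ (k : T.J) (w : tspan S Q (trivType T.ker) p),
      (σ (QuotientGroup.mk k) w : D.Ad → D.Cpx → ℂ) = rt (k : D.Ad) w := fun k w => rfl
  have hfin : Finite (T.J ⧸ T.ρ.ker) := by
    refine Nat.finite_of_card_ne_zero ?_
    rw [T.card_quot]
    exact relIndex_ne_zero_of_level hU hT.ker hT.level
  have : Fintype (T.J ⧸ T.ρ.ker) := Fintype.ofFinite _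
  have htype : ∀ B ∈ eqTup σ (QuotientGroup.kerLift T.ρ), ∀ (i : Fin T.r) (g : D.Ad) (k : T.J),
      (B i : D.Ad → D.Cpx → ℂ) (g * k) =
        ∑ j, (T.ρ k : Matrix (Fin T.r) (Fin T.r) ℂ) j i • (B j : D.Ad → D.Cpx → ℂ) g := by
    intro B hB i g k
    have h3 := hB (QuotientGroup.mk k) i
    have h4 := congrArg (fun y : tspan S Q (trivType T.ker) p => (y : D.Ad → D.Cpx → ℂ) g) h3
    rw [hσ, Submodule.coe_sum, Finset.sum_apply] at h4
    exact h4
  refine ⟨σ, hσ, le_antisymm ?_ ?_⟩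
  · refine Submodule.span_le.2 ?_
    rintro f ⟨hf, lam, hlam, hp⟩
    refine ⟨fun i => ⟨f i, Submodule.subset_span ⟨isTypeForm_trivType (hf.form i), lam, hlam i, hp⟩⟩, ?_, rfl⟩
    intro k i
    obtain ⟨k, rfl⟩ := QuotientGroup.mk_surjective k
    refine Subtype.ext (funext fun g => ?_)
    rw [hσ, Submodule.coe_sum, Finset.sum_apply]
    exact hf.type i g k
  · rintro _ ⟨w, hw, rfl⟩
    have hB : ∀ (j : Fin T.r) (x : D.Ad → D.Cpx → ℂ) (hx : x ∈ tspan S Q (trivType T.ker) p),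
        (fun i => ((∑ k : T.J ⧸ T.ρ.ker, (QuotientGroup.kerLift T.ρ k⁻¹ : Matrix (Fin T.r) (Fin T.r) ℂ) j i •
          σ k ⟨x, hx⟩ : tspan S Q (trivType T.ker) p) : D.Ad → D.Cpx → ℂ)) ∈ rspan S Q T p := by
      intro j x hx
      unfold tspan at hx
      induction hx using Submodule.span_induction with
      | mem x hx =>
        obtain ⟨h1, lam, h2, hp⟩ := hx
        have hxs : x ∈ tspan S Q (trivType T.ker) p := Submodule.subset_span ⟨h1, lam, h2, hp⟩
        have hcomp : ∀ i, ((∑ k : T.J ⧸ T.ρ.ker, (QuotientGroup.kerLift T.ρ k⁻¹ : Matrix (Fin T.r) (Fin T.r) ℂ) j i •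
            σ k ⟨x, hxs⟩ : tspan S Q (trivType T.ker) p) : D.Ad → D.Cpx → ℂ) ∈
            tspan S Q (trivType T.ker) (· = lam) := by
          intro i
          rw [Submodule.coe_sum]
          refine Submodule.sum_mem _ fun k _ => ?_
          rw [Submodule.coe_smul]
          refine Submodule.smul_mem _ _ ?_
          obtain ⟨k, rfl⟩ := QuotientGroup.mk_surjective k
          rw [hσ]
          exact rt_mem_tspan hSl hU hT.level T.ker_normal k.2 x (mem_tspan_eq.2 ⟨h1, h2⟩)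
        have hmem := H6B_mem σ (QuotientGroup.kerLift T.ρ) j ⟨x, hxs⟩
        refine Submodule.subset_span ⟨⟨fun i => isForm_of_trivType (mem_tspan_eq.1 (hcomp i)).1, fun i g k => ?_⟩,
          lam, fun i => (mem_tspan_eq.1 (hcomp i)).2, hp⟩
        exact htype _ hmem i g k
      | zero =>
        have h0 : (fun i => ((∑ k : T.J ⧸ T.ρ.ker, (QuotientGroup.kerLift T.ρ k⁻¹ : Matrix (Fin T.r) (Fin T.r) ℂ) j i •
          σ k ⟨0, Submodule.zero_mem _⟩ : tspan S Q (trivType T.ker) p) : D.Ad → D.Cpx → ℂ)) = 0 := by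
          funext i
          have h5 : (⟨0, Submodule.zero_mem _⟩ : tspan S Q (trivType T.ker) p) = 0 := rfl
          simp only [h5, map_zero, smul_zero, Finset.sum_const_zero]
          rfl
        exact h0 ▸ Submodule.zero_mem _
      | add x y hx hy h h' =>
        have h0 := Submodule.add_mem _ h h'
        refine (congrArg (· ∈ rspan S Q T p) ?_).mp h0
        funext i
        have h5 : (⟨x + y, Submodule.add_mem _ hx hy⟩ : tspan S Q (trivType T.ker) p) = ⟨x, hx⟩ + ⟨y, hy⟩ := rfl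
        rw [h5]
        simp only [map_add, smul_add, Finset.sum_add_distrib]
        rfl
      | smul c x hx h =>
        have h0 := Submodule.smul_mem _ c h
        refine (congrArg (· ∈ rspan S Q T p) ?_).mp h0
        funext i
        have h5 : (⟨c • x, Submodule.smul_mem _ c hx⟩ : tspan S Q (trivType T.ker) p) = c • ⟨x, hx⟩ := rfl
        rw [h5]
        simp only [map_smul, smul_comm _ c, ← Finset.smul_sum]
        rfl
    have hcard : (Fintype.card (T.J ⧸ T.ρ.ker) : ℂ) ≠ 0 := Nat.cast_ne_zero.2 Fintype.card_ne_zero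
    have h6 : (tspan S Q (trivType T.ker) p).subtype.compLeft (Fin T.r) w =
        (Fintype.card (T.J ⧸ T.ρ.ker) : ℂ)⁻¹ • ∑ j, (fun i => ((∑ k : T.J ⧸ T.ρ.ker,
          (QuotientGroup.kerLift T.ρ k⁻¹ : Matrix (Fin T.r) (Fin T.r) ℂ) j i •
          σ k ⟨w j, (w j).2⟩ : tspan S Q (trivType T.ker) p) : D.Ad → D.Cpx → ℂ)) := by
      funext i
      have h7 := H6proj_eq σ (QuotientGroup.kerLift T.ρ) hw i
      have h8 := congrArg (fun y : tspan S Q (trivType T.ker) p =>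
        (Fintype.card (T.J ⧸ T.ρ.ker) : ℂ)⁻¹ • (y : D.Ad → D.Cpx → ℂ)) h7
      simp only [Submodule.coe_smul, smul_smul, inv_mul_cancel₀ hcard, one_smul] at h8
      rw [Submodule.coe_sum] at h8
      rw [Pi.smul_apply, Finset.sum_apply]
      exact h8.symm
    rw [h6]
    exact Submodule.smul_mem _ _ (Submodule.sum_mem _ fun j _ => hB j (w j) (w j).2)

theorem exists_sigma (hSl : ∀ v : HeightOneSpectrum (𝓞 F), (ℓ : 𝓞 F) ∈ v.asIdeal → v ∈ S) (hU : IsTame ℓ U)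
    {T : RepType D} (hT : IsRepTypeAt ℓ U T) (Q : Submodule ℂ (D.Cpx → ℂ)) (p : (∀ v, Hecke U v → ℂ) → Prop) :
    ∃ σ : (T.J ⧸ T.ρ.ker) →* Module.End ℂ (tspan S Q (trivType T.ker) p),
      (∀ (k : T.J) (w : tspan S Q (trivType T.ker) p), (σ (QuotientGroup.mk k) w : D.Ad → D.Cpx → ℂ) = rt (k : D.Ad) w) ∧
      ∀ f : Fin T.r → D.Ad → D.Cpx → ℂ, f ∈ rspan S Q T p ↔ ∃ w ∈ eqTup σ (QuotientGroup.kerLift T.ρ), ∀ i, f i = w i := by
  obtain ⟨σ, h1, h2⟩ := H6main hSl hU hT Q p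
  refine ⟨σ, h1, fun f => ?_⟩
  rw [h2, Submodule.mem_map]
  constructor
  · rintro ⟨w, hw, rfl⟩
    exact ⟨w, hw, fun i => rfl⟩
  · rintro ⟨w, hw, h⟩
    exact ⟨w, hw, funext fun i => (h i).symm⟩

theorem dimR_eq (hSl : ∀ v : HeightOneSpectrum (𝓞 F), (ℓ : 𝓞 F) ∈ v.asIdeal → v ∈ S) (hU : IsTame ℓ U)
    {T : RepType D} (hT : IsRepTypeAt ℓ U T) (Q : Submodule ℂ (D.Cpx → ℂ)) (p : (∀ v, Hecke U v → ℂ) → Prop) :
    ∃ σ : (T.J ⧸ T.ρ.ker) →* Module.End ℂ (tspan S Q (trivType T.ker) p),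
      (∀ (k : T.J) (w : tspan S Q (trivType T.ker) p), (σ (QuotientGroup.mk k) w : D.Ad → D.Cpx → ℂ) = rt (k : D.Ad) w) ∧
      dimR S Q T p = Module.finrank ℂ (eqTup σ (QuotientGroup.kerLift T.ρ)) := by
  obtain ⟨σ, h1, h2⟩ := H6main hSl hU hT Q p
  refine ⟨σ, h1, ?_⟩
  have hinj : Function.Injective ((tspan S Q (trivType T.ker) p).subtype.compLeft (Fin T.r)) := by
    intro w w' h
    funext i
    exact Subtype.ext (congrFun h i)
  rw [dimR_def, h2]
  exact (LinearEquiv.finrank_eq (Submodule.equivMapOfInjective _ hinj _)).symm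

end Pool.Agent.Lib.MP_666dc0_nt.PL
end

section

/-!
# PL, H8: additivity of the multiplicities for types of arbitrary dimension
-/

open NumberField IsDedekindDomain
open scoped NumberField

namespace Pool.Agent.Lib.MP_666dc0_nt.PL

open WL ZO FM

variable {F : Type} [Field F] [NumberField F] {n : ℕ} {D : Datum F n} {ℓ : ℕ} [Fact ℓ.Prime]
  {S : Finset (HeightOneSpectrum (𝓞 F))} {U : Subgroup D.Ad}

/-- The space of all forms of type `T` with weights in `Q`. -/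
def repForms (D : Datum F n) (Q : Submodule ℂ (D.Cpx → ℂ)) (U : Subgroup D.Ad) (T : RepType D) :
    Submodule ℂ (Fin T.r → D.Ad → D.Cpx → ℂ) where
  carrier := {f | IsRepForm D Q U T f}
  add_mem' {a b} ha hb := ⟨fun i => (forms D Q (U ⊔ T.ker)).add_mem (ha.form i) (hb.form i), fun i g k => by
    simp only [Pi.add_apply, ha.type, hb.type, smul_add, Finset.sum_add_distrib]⟩
  zero_mem' := ⟨fun _ => (forms D Q (U ⊔ T.ker)).zero_mem, fun i g k => by
    simp only [Pi.zero_apply, smul_zero, Finset.sum_const_zero]⟩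
  smul_mem' c a ha := ⟨fun i => (forms D Q (U ⊔ T.ker)).smul_mem c (ha.form i), fun i g k => by
    simp only [Pi.smul_apply, ha.type, Finset.smul_sum]
    exact Finset.sum_congr rfl fun j _ => smul_comm _ _ _⟩

omit [Fact ℓ.Prime] in
theorem finite_repForms [IsTotallyReal F] (hD : IsTotPosDef D.q) {T : RepType D} (hT : IsRepTypeAt ℓ U T)
    {Q : Submodule ℂ (D.Cpx → ℂ)} (hQ : IsWeight D Q) : FiniteDimensional ℂ (repForms D Q U T) := by
  have h1 : FiniteDimensional ℂ Q := Module.Finite.iff_fg.2 hQ.fg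
  have h2 : FiniteDimensional ℂ (forms D Q (U ⊔ T.ker)) := finiteDimensional_forms hD Q _ hT.ker.isOpen
  let L : repForms D Q U T →ₗ[ℂ] (Fin T.r → forms D Q (U ⊔ T.ker)) :=
    { toFun := fun f i => ⟨f.1 i, f.2.form i⟩
      map_add' := fun _ _ => rfl
      map_smul' := fun _ _ => rfl }
  refine FiniteDimensional.of_injective L fun f g hfg => Subtype.ext (funext fun i => ?_)
  exact congrArg Subtype.val (congrFun hfg i)

theorem rspan_le (Q : Submodule ℂ (D.Cpx → ℂ)) (T : RepType D) (p : (∀ v, Hecke U v → ℂ) → Prop) :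
    rspan S Q T p ≤ repForms D Q U T :=
  Submodule.span_le.2 fun _ hf => hf.1

omit [Fact ℓ.Prime] in
theorem finite_rspan [IsTotallyReal F] (hD : IsTotPosDef D.q) {T : RepType D} (hT : IsRepTypeAt ℓ U T)
    {Q : Submodule ℂ (D.Cpx → ℂ)} (hQ : IsWeight D Q) (p : (∀ v, Hecke U v → ℂ) → Prop) :
    FiniteDimensional ℂ (rspan S Q T p) :=
  have := finite_repForms hD hT hQ
  Submodule.finiteDimensional_of_le (rspan_le Q T p)

omit [Fact ℓ.Prime] in
theorem dimR_mono [IsTotallyReal F] (hD : IsTotPosDef D.q) {T : RepType D} (hT : IsRepTypeAt ℓ U T)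
    {Q : Submodule ℂ (D.Cpx → ℂ)} (hQ : IsWeight D Q) {p q : (∀ v, Hecke U v → ℂ) → Prop} (h : ∀ lam, p lam → q lam) :
    dimR S Q T p ≤ dimR S Q T q := by
  have := finite_rspan (S := S) hD hT hQ q
  rw [dimR_def, dimR_def]
  exact Submodule.finrank_mono (Submodule.span_mono fun f hf => ⟨hf.1, hf.2.imp fun lam hl => ⟨hl.1, h lam hl.2⟩⟩)

/-- The index set: the Hecke operators at the places outside `S`. -/
private abbrev H8_I (S : Finset (HeightOneSpectrum (𝓞 F))) (U : Subgroup D.Ad) : Type :=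
  Σ v : {v : HeightOneSpectrum (𝓞 F) // v ∉ S}, Hecke U v.1

/-- The values of the system outside `S`. -/
private def H8_res (S : Finset (HeightOneSpectrum (𝓞 F))) (lam : ∀ v, Hecke U v → ℂ) : H8_I S U → ℂ :=
  fun i => lam i.1.1 i.2

/-- The Hecke operators on the tuples. -/
private noncomputable def H8_op (S : Finset (HeightOneSpectrum (𝓞 F))) (U : Subgroup D.Ad) (r : ℕ) (i : H8_I S U) :
    (Fin r → D.Ad → D.Cpx → ℂ) →ₗ[ℂ] (Fin r → D.Ad → D.Cpx → ℂ) :=
  (actL i.2).compLeft (Fin r)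

/-- The joint eigenspace in the space of the forms of type `T`. -/
private noncomputable def H8_E (S : Finset (HeightOneSpectrum (𝓞 F))) (Q : Submodule ℂ (D.Cpx → ℂ)) (T : RepType D)
    (χ : H8_I S U → ℂ) : Submodule ℂ (Fin T.r → D.Ad → D.Cpx → ℂ) :=
  T1_eig (H8_op S U T.r) (repForms D Q U T) χ

private theorem mem_H8_E {Q : Submodule ℂ (D.Cpx → ℂ)} {T : RepType D} {lam : ∀ v, Hecke U v → ℂ}
    {f : Fin T.r → D.Ad → D.Cpx → ℂ} :
    f ∈ H8_E S Q T (H8_res S lam) ↔ IsRepForm D Q U T f ∧ ∀ i, IsEigen S (f i) lam := by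
  constructor
  · rintro ⟨h1, h2⟩
    exact ⟨h1, fun i v hv h => congrFun (h2 ⟨⟨v, hv⟩, h⟩) i⟩
  · rintro ⟨h1, h2⟩
    exact ⟨h1, fun i => funext fun j => h2 j i.1.1 i.1.2 i.2⟩

private theorem rspan_eq (Q : Submodule ℂ (D.Cpx → ℂ)) (T : RepType D) (p : (∀ v, Hecke U v → ℂ) → Prop) :
    rspan S Q T p = ⨆ χ ∈ H8_res S '' {lam | p lam}, H8_E S Q T χ := by
  apply le_antisymm
  · refine Submodule.span_le.2 ?_
    rintro f ⟨hf, lam, hlam, hp⟩
    exact (le_biSup (H8_E S Q T) (Set.mem_image_of_mem _ hp)) (mem_H8_E.2 ⟨hf, hlam⟩)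
  · refine iSup₂_le ?_
    rintro _ ⟨lam, hp, rfl⟩ f hf
    obtain ⟨h1, h2⟩ := mem_H8_E.1 hf
    exact Submodule.subset_span ⟨h1, lam, h2, hp⟩

private theorem rspan_singleton (Q : Submodule ℂ (D.Cpx → ℂ)) (T : RepType D) (lam : ∀ v, Hecke U v → ℂ) :
    rspan S Q T (· = lam) = H8_E S Q T (H8_res S lam) := by
  rw [rspan_eq]
  have h : {e : ∀ v, Hecke U v → ℂ | e = lam} = {lam} := rfl
  rw [h, Set.image_singleton, iSup_singleton]

omit [Fact ℓ.Prime] in
private theorem H8_mem_allSys {T : RepType D} (hT : IsRepTypeAt ℓ U T) {Q : Submodule ℂ (D.Cpx → ℂ)} (hQ : IsWeight D Q)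
    {lam : ∀ v, Hecke U v → ℂ} (h : H8_E S Q T (H8_res S lam) ≠ ⊥) : lam ∈ AllSys ℓ S U := by
  obtain ⟨f, hf, hf0⟩ := (Submodule.ne_bot_iff _).1 h
  obtain ⟨h1, h2⟩ := mem_H8_E.1 hf
  obtain ⟨i, hi⟩ := Function.ne_iff.1 hf0
  exact ⟨T.ker, hT.ker, f i, hi, ⟨fun g => hQ.le ((h1.form i).mem g), (h1.form i).left, (h1.form i).right⟩, h2 i⟩

theorem dimR_sum [IsTotallyReal F] (hD : IsTotPosDef D.q)
    (hSl : ∀ v : HeightOneSpectrum (𝓞 F), (ℓ : 𝓞 F) ∈ v.asIdeal → v ∈ S) (hU : IsTame ℓ U)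
    (hUS : ∀ v, v ∉ S → IsGoodAt U v) {k : ℕ} (T : Fin k → RepType D) (hT : ∀ i, IsRepTypeAt ℓ U (T i))
    {Q : Submodule ℂ (D.Cpx → ℂ)} (hQ : IsWeight D Q) {q : (∀ v, Hecke U v → ℂ) → Prop} (hq : SInv ℓ S q) :
    ∃ Λ : Finset (∀ v, Hecke U v → ℂ), (∀ lam ∈ Λ, lam ∈ AllSys ℓ S U ∧ q lam) ∧
      ∀ i, dimR S Q (T i) q = ∑ lam ∈ Λ, dimR S Q (T i) (· = lam) := by
  classical
  have hfin := fun i => finite_repForms hD (hT i) hQ
  have hX : {χ : H8_I S U → ℂ | χ ∈ H8_res S '' {lam | q lam} ∧ ∃ i, H8_E S Q (T i) χ ≠ ⊥}.Finite := by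
    refine (Set.finite_iUnion fun i => T1_eig_finite (H8_op S U (T i).r) (repForms D Q U (T i))).subset ?_
    rintro χ ⟨-, i, hi⟩
    exact Set.mem_iUnion.2 ⟨i, hi⟩
  choose! c hc using fun (χ : H8_I S U → ℂ) (hχ : χ ∈ H8_res S '' {lam | q lam}) => hχ
  refine ⟨hX.toFinset.image c, fun lam hlam => ?_, fun i => ?_⟩
  · obtain ⟨χ, hχ, rfl⟩ := Finset.mem_image.1 hlam
    rw [Set.Finite.mem_toFinset] at hχ
    obtain ⟨h1, i, hi⟩ := hχ
    obtain ⟨h2, h3⟩ := hc χ h1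
    exact ⟨H8_mem_allSys (hT i) hQ (by rwa [h3]), h2⟩
  · have hinj : Set.InjOn c (hX.toFinset : Set (H8_I S U → ℂ)) := by
      intro a ha b hb hab
      rw [SetLike.mem_coe, Set.Finite.mem_toFinset] at ha hb
      rw [← (hc a ha.1).2, ← (hc b hb.1).2, hab]
    rw [Finset.sum_image hinj]
    have h1 : ∀ χ ∈ hX.toFinset, dimR S Q (T i) (· = c χ) = Module.finrank ℂ (H8_E S Q (T i) χ) := by
      intro χ hχ
      rw [Set.Finite.mem_toFinset] at hχ
      rw [dimR_def, rspan_singleton, (hc χ hχ.1).2]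
    rw [Finset.sum_congr rfl h1]
    rw [dimR_def]
    unfold H8_E
    rw [← T1_finrank_biSup, rspan_eq]
    have h2 : (⨆ χ ∈ H8_res S '' {lam | q lam}, H8_E S Q (T i) χ) =
        ⨆ χ ∈ hX.toFinset, T1_eig (H8_op S U (T i).r) (repForms D Q U (T i)) χ := by
      apply le_antisymm
      · refine iSup₂_le fun χ hχ => ?_
        by_cases h : H8_E S Q (T i) χ = ⊥
        · rw [h]
          exact bot_le
        · exact le_biSup (T1_eig (H8_op S U (T i).r) (repForms D Q U (T i)))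
            (hX.mem_toFinset.2 ⟨hχ, i, h⟩)
      · refine iSup₂_le fun χ hχ => ?_
        exact le_biSup (H8_E S Q (T i)) (hX.mem_toFinset.1 hχ).1
    rw [h2]
    rfl

end Pool.Agent.Lib.MP_666dc0_nt.PL
end
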