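import Pool.Agent.Lib.MP_666dc0_nt.Mg.G083
import Pool.Agent.Lib.MP_666dc0_nt.Mg.G091
import Pool.Agent.Lib.MP_666dc0_nt.Mg.G093
import Pool.Agent.Lib.MP_666dc0_nt.Mg.G086

section

/-!
TASK B1. Plancherel equidistribution.

`κ` as in the proof of `exists_model` (`FM/D.lean`), `exists_rows` gives `e`, `a := m`, `Z`, `Y`. `N = card κ.c.R = e + a`,
`x = dimT p`, `y = dimT ¬p`, `G = gidx (K 0) T.J`, `q = dim Q`, `b = bdry Q m`, `m` the maximum of the `m'`s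
(`core_anti`: `bdry` is monotone in `m`, and `≥ 0`). `dimT_le` for `p` with the rows `Z` (`x ≤ (N - e) G q + ε q + C b`), for `¬p` with
the rows `Y` (`y ≤ (N - a) G q + ε q + C b`), and `x + y ≥ N G (q - b)` (`dimT_add`, `sInv_of_closed`,
`finrank_typeForms_ge`), `G ≥ 0`. So `|x - a G q| ≤ ε q + C' b`, the same for `y`.
-/

open NumberField IsDedekindDomain
open scoped NumberField

namespace Pool.Agent.Lib.MP_666dc0_nt.PL

open WL ZO FM

variable {F : Type} [Field F] [NumberField F] {n : ℕ} {D : Datum F n} {ℓ : ℕ} [Fact ℓ.Prime]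
  {S : Finset (HeightOneSpectrum (𝓞 F))} {U : Subgroup D.Ad} {K : ℕ → Subgroup D.Ad} {d : ℕ}
  {ι : ℂ ≃+* PadicAlgCl ℓ}

theorem bdry_nonneg {Q : Submodule ℂ (D.Cpx → ℂ)} (hQ : IsWeight D Q) (m : ℕ) : 0 ≤ bdry Q m := by
  have h0 : FiniteDimensional ℂ Q := (Submodule.fg_iff_finiteDimensional _).1 hQ.fg
  have h1 : Module.finrank ℂ (core Q m) ≤ Module.finrank ℂ Q := Submodule.finrank_mono fun q hq => hq.1
  unfold bdry
  exact sub_nonneg.2 (by exact_mod_cast h1)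

theorem bdry_mono {Q : Submodule ℂ (D.Cpx → ℂ)} (hQ : IsWeight D Q) {m m' : ℕ} (h : m ≤ m') :
    bdry Q m ≤ bdry Q m' := by
  have h0 : FiniteDimensional ℂ Q := (Submodule.fg_iff_finiteDimensional _).1 hQ.fg
  have h2 : core Q m ≤ Q := fun q hq => hq.1
  have h3 : FiniteDimensional ℂ (core Q m) := Submodule.finiteDimensional_of_le h2
  have h1 : Module.finrank ℂ (core Q m') ≤ Module.finrank ℂ (core Q m) := Submodule.finrank_mono (core_anti Q h)
  have h4 : (Module.finrank ℂ (core Q m') : ℝ) ≤ Module.finrank ℂ (core Q m) := by exact_mod_cast h1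
  unfold bdry
  linarith

private theorem arith {x y e a N G q b b1 b2 b3 ε C1 C2 : ℝ} (hN : e + a = N) (hN0 : 0 ≤ N)
    (h1 : x ≤ (N - e) * G * q + ε / 2 * q + C1 * b1) (h2 : y ≤ (N - a) * G * q + ε / 2 * q + C2 * b2)
    (h3 : N * G * (q - b3) ≤ x + y) (hb1 : 0 ≤ b1) (hb2 : 0 ≤ b2) (hb3 : 0 ≤ b3) (h1b : b1 ≤ b) (h2b : b2 ≤ b)
    (h3b : b3 ≤ b) (hε : 0 < ε) (hq : 0 ≤ q) :
    |x - a * G * q| ≤ ε * q + (|C1| + |C2| + N * |G|) * b ∧ |y - e * G * q| ≤ ε * q + (|C1| + |C2| + N * |G|) * b := by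
  have hb : 0 ≤ b := hb1.trans h1b
  have k1 : C1 * b1 ≤ |C1| * b := (mul_le_mul_of_nonneg_right (le_abs_self _) hb1).trans
    (mul_le_mul_of_nonneg_left h1b (abs_nonneg _))
  have k2 : C2 * b2 ≤ |C2| * b := (mul_le_mul_of_nonneg_right (le_abs_self _) hb2).trans
    (mul_le_mul_of_nonneg_left h2b (abs_nonneg _))
  have k3 : N * G * b3 ≤ N * |G| * b := by
    have k4 : N * G ≤ N * |G| := mul_le_mul_of_nonneg_left (le_abs_self _) hN0
    exact (mul_le_mul_of_nonneg_right k4 hb3).trans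
      (mul_le_mul_of_nonneg_left h3b (mul_nonneg hN0 (abs_nonneg _)))
  have k5 : 0 ≤ |C1| * b := mul_nonneg (abs_nonneg _) hb
  have k6 : 0 ≤ |C2| * b := mul_nonneg (abs_nonneg _) hb
  have k7 : 0 ≤ N * |G| * b := mul_nonneg (mul_nonneg hN0 (abs_nonneg _)) hb
  have k8 : 0 ≤ ε * q := mul_nonneg hε.le hq
  subst hN
  refine ⟨abs_le.2 ⟨?_, ?_⟩, abs_le.2 ⟨?_, ?_⟩⟩ <;> nlinarith

theorem plancherel [IsTotallyReal F] (hD : IsTotPosDef D.q)
    (hSl : ∀ v : HeightOneSpectrum (𝓞 F), (ℓ : 𝓞 F) ∈ v.asIdeal → v ∈ S) (hU : IsTame ℓ U)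
    (hUS : ∀ v, v ∉ S → IsGoodAt U v) (hK : IsUniform ℓ d U K) {p : (∀ v, Hecke U v → ℂ) → Prop}
    (hp : IsClosedProp ℓ S ι p) :
    ∃ a e : ℕ, a + e = dimE S (constSub D) U (K 0) (fun _ => True) ∧ IsPlancherel ℓ S (K 0) p a ∧
      IsPlancherel ℓ S (K 0) (fun lam => ¬p lam) e ∧ (e = 0 → ∀ lam ∈ AllSys ℓ S U, p lam) := by
  obtain ⟨Hh⟩ := exists_hatData F ℓ ι
  obtain ⟨c⟩ := exists_chart hD hU hK.tow (free_of_isUniform hD ι hU hK.tow)
  obtain ⟨𝒯, 𝒬, hq⟩ := exists_utow hK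
  let κ : Ctx ℓ U K d ι := ⟨Hh, c, 𝒯, 𝒬, hq, hU, hK⟩
  obtain ⟨e, a, Z, Y, hea, hiZ, hiY, hZ, hY, h0, -⟩ := exists_rows hD hSl hUS κ hp
  have key : ∀ T, IsTypeAt ℓ U T → ∀ ε : ℝ, 0 < ε → ∃ (m : ℕ) (C : ℝ), ∀ Q, IsWeight D Q →
      |(dimT S Q T p : ℝ) - a * gidx (K 0) T.J * Module.finrank ℂ Q| ≤ ε * Module.finrank ℂ Q + C * bdry Q m ∧
      |(dimT S Q T (fun lam => ¬p lam) : ℝ) - e * gidx (K 0) T.J * Module.finrank ℂ Q| ≤
        ε * Module.finrank ℂ Q + C * bdry Q m := by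
    intro T hT ε hε
    obtain ⟨m1, C1, h1⟩ := dimT_le (q := p) hD hSl hUS κ Z hiZ hZ hT (half_pos hε)
    obtain ⟨m2, C2, h2⟩ := dimT_le (q := fun lam => ¬p lam) hD hSl hUS κ Y hiY hY hT (half_pos hε)
    obtain ⟨m3, h3⟩ := finrank_typeForms_ge hD Hh hU hK c hT
    refine ⟨max m1 (max m2 m3), |C1| + |C2| + Fintype.card c.R * |gidx (K 0) T.J|, fun Q hQ => ?_⟩
    have h4 := h1 Q hQ
    have h5 := h2 Q hQ
    have h6 := h3 Q hQ
    have h7 := dimT_add hD hSl hU hUS hT hQ (sInv_of_closed hp)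
    have h8 : (Module.finrank ℂ (core Q m3) : ℝ) = Module.finrank ℂ Q - bdry Q m3 := by
      unfold bdry
      ring
    have h9 : (Module.finrank ℂ (typeForms D Q U T) : ℝ) = dimT S Q T p + dimT S Q T fun lam => ¬p lam := by
      exact_mod_cast h7.symm
    rw [h8, h9] at h6
    have h10 : (e : ℝ) + a = Fintype.card c.R := by exact_mod_cast hea
    exact arith h10 (Nat.cast_nonneg _) h4 h5 h6 (bdry_nonneg hQ _) (bdry_nonneg hQ _) (bdry_nonneg hQ _)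
      (bdry_mono hQ (le_max_left _ _)) (bdry_mono hQ ((le_max_left _ _).trans (le_max_right _ _)))
      (bdry_mono hQ ((le_max_right _ _).trans (le_max_right _ _))) hε (Nat.cast_nonneg _)
  refine ⟨a, e, ((Nat.add_comm a e).trans hea).trans (card_chart hD Hh hSl hU hUS hK.tow c),
    fun T hT ε hε => ?_, fun T hT ε hε => ?_, h0⟩
  · obtain ⟨m, C, h⟩ := key T hT ε hε
    exact ⟨m, C, fun Q hQ => (h Q hQ).1⟩
  · obtain ⟨m, C, h⟩ := key T hT ε hε
    exact ⟨m, C, fun Q hQ => (h Q hQ).2⟩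

end Pool.Agent.Lib.MP_666dc0_nt.PL
end

section

/-!
TASK B2. Density of the systems with positive signed multiplicity.

Let `p` be closed and hold on `PosSys`. `e` as in `plancherel`; suppose `e ≠ 0`. For `lam` with `¬p lam` and a weight `Q ≤ R`:
`∑ i, c i * dimT (· = lam) ≤ 0`, so by `dimT_sum` (for `q = ¬p`, `SInv` from `sInv_of_closed`) `∑ i, c i * dimT ¬p ≤ 0`. With
`G i = gidx (K 0) (T i).J = G₀ / I.relIndex (T i).J` (`gidx_eq`, `G₀ > 0`) the sum `σ = ∑ c i * G i > 0`. Choose `ε` with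
`∑ |c i| ε < σ / 3`, the `m i`, `C i` of `IsPlancherel` for `¬p`, `T i`, `ε`; `m` the maximum; `δ` with `∑ |c i| |C i| δ < σ / 3`;
`Q ≤ R` from `IsFull` for `m`, `δ`: `0 ≥ ∑ c i dimT ¬p ≥ (e σ - σ / 3 - σ / 3) dim Q > 0`.
-/

open NumberField IsDedekindDomain
open scoped NumberField

namespace Pool.Agent.Lib.MP_666dc0_nt.PL

open WL ZO FM

variable {F : Type} [Field F] [NumberField F] {n : ℕ} {D : Datum F n} {ℓ : ℕ} [Fact ℓ.Prime]
  {S : Finset (HeightOneSpectrum (𝓞 F))} {U : Subgroup D.Ad} {K : ℕ → Subgroup D.Ad} {d : ℕ}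

private theorem arith2 {k : ℕ} {c G C x b : Fin k → ℝ} {e q σ ε δ B : ℝ} (he : 1 ≤ e) (hq : 0 < q)
    (hσ : ∑ i, c i * G i = σ) (hσ0 : 0 < σ) (hε0 : 0 ≤ ε) (hε : (∑ i, |c i|) * ε < σ / 3)
    (hδ0 : 0 ≤ δ) (hδ : (∑ i, |c i| * |C i|) * δ < σ / 3) (hB : B ≤ δ * q) (hb0 : ∀ i, 0 ≤ b i) (hbB : ∀ i, b i ≤ B)
    (hx : ∀ i, |x i - e * G i * q| ≤ ε * q + C i * b i) : 0 < ∑ i, c i * x i := by
  have h1 : ∀ i, c i * (e * G i * q) - |c i| * (ε * q) - |c i| * |C i| * (δ * q) ≤ c i * x i := by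
    intro i
    have h2 : |c i * (x i - e * G i * q)| ≤ |c i| * (ε * q) + |c i| * |C i| * (δ * q) := by
      rw [abs_mul]
      have h3 : C i * b i ≤ |C i| * (δ * q) := (mul_le_mul_of_nonneg_right (le_abs_self _) (hb0 i)).trans
        (mul_le_mul_of_nonneg_left ((hbB i).trans hB) (abs_nonneg _))
      calc |c i| * |x i - e * G i * q| ≤ |c i| * (ε * q + |C i| * (δ * q)) :=
            mul_le_mul_of_nonneg_left ((hx i).trans (by linarith)) (abs_nonneg _)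
        _ = _ := by ring
    have h4 := (abs_le.1 h2).1
    have h5 : c i * (x i - e * G i * q) = c i * x i - c i * (e * G i * q) := by ring
    rw [h5] at h4
    linarith
  have h6 : ∑ i, (c i * (e * G i * q) - |c i| * (ε * q) - |c i| * |C i| * (δ * q)) =
      (e * σ - (∑ i, |c i|) * ε - (∑ i, |c i| * |C i|) * δ) * q := by
    rw [← hσ, Finset.sum_sub_distrib, Finset.sum_sub_distrib, sub_mul, sub_mul, Finset.mul_sum, Finset.sum_mul,
      Finset.sum_mul, Finset.sum_mul, Finset.sum_mul, Finset.sum_mul]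
    congr 1
    · congr 1
      · exact Finset.sum_congr rfl fun i _ => by ring
      · exact Finset.sum_congr rfl fun i _ => by ring
    · exact Finset.sum_congr rfl fun i _ => by ring
  have h7 : 0 < (e * σ - (∑ i, |c i|) * ε - (∑ i, |c i| * |C i|) * δ) * q := by
    apply mul_pos _ hq
    have h8 : σ ≤ e * σ := le_mul_of_one_le_left hσ0.le he
    linarith
  rw [← h6] at h7
  exact h7.trans_le (Finset.sum_le_sum fun i _ => h1 i)

theorem dense_posSys [IsTotallyReal F] (hD : IsTotPosDef D.q)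
    (hSl : ∀ v : HeightOneSpectrum (𝓞 F), (ℓ : 𝓞 F) ∈ v.asIdeal → v ∈ S) (hU : IsTame ℓ U)
    (hUS : ∀ v, v ∉ S → IsGoodAt U v) (hK : IsUniform ℓ d U K) {R : Submodule ℂ (D.Cpx → ℂ)} (hR : IsFull D R)
    {k : ℕ} (T : Fin k → AdType D) (c : Fin k → ℝ) (I : Subgroup D.Ad) (hT : ∀ i, IsTypeAt ℓ U (T i))
    (hI : IsLevel ℓ U I) (hIT : ∀ i, I ≤ (T i).J) (hpos : 0 < ∑ i, c i / I.relIndex (T i).J) :
    IsDenseSys (U := U) ℓ S (PosSys S R T c) := by
  intro ι p hp hX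
  obtain ⟨a, e, -, -, hP, h0⟩ := plancherel hD hSl hU hUS hK hp
  refine h0 ?_
  by_contra he
  have hS : SInv ℓ S (fun lam : ∀ v, Hecke U v → ℂ => ¬p lam) := fun lam h1 lam' h2 h3 h4 h5 =>
    h4 (sInv_of_closed hp lam' h2 lam h1 (fun v hv h => (h3 v hv h).symm) h5)
  have hle : ∀ Q, Q ≤ R → IsWeight D Q → ∑ i, c i * (dimT S Q (T i) (fun lam => ¬p lam) : ℝ) ≤ 0 := by
    intro Q hQR hQ
    obtain ⟨Λ, hΛ, hsum⟩ := dimT_sum hD hSl hU hUS T hT hQ hS
    have h1 : ∑ i, c i * (dimT S Q (T i) (fun lam => ¬p lam) : ℝ) =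
        ∑ lam ∈ Λ, ∑ i, c i * (dimT S Q (T i) (· = lam) : ℝ) := by
      rw [Finset.sum_comm]
      refine Finset.sum_congr rfl fun i _ => ?_
      rw [hsum i, Nat.cast_sum, Finset.mul_sum]
    rw [h1]
    refine Finset.sum_nonpos fun lam hlam => not_lt.1 fun h2 => (hΛ lam hlam).2 ?_
    exact hX lam ⟨Q, hQR, hQ, h2⟩
  have hG0 := gidx_pos hU hK hI
  have hG : ∀ i, gidx (K 0) (T i).J = gidx (K 0) I / I.relIndex (T i).J := fun i => gidx_eq hU hK hI (hT i).level (hIT i)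
  obtain ⟨σ, hσ⟩ : ∃ σ, ∑ i, c i * gidx (K 0) (T i).J = σ := ⟨_, rfl⟩
  have hσ0 : 0 < σ := by
    rw [← hσ]
    have h1 : ∑ i, c i * gidx (K 0) (T i).J = gidx (K 0) I * ∑ i, c i / I.relIndex (T i).J := by
      rw [Finset.mul_sum]
      refine Finset.sum_congr rfl fun i _ => ?_
      rw [hG i]
      ring
    rw [h1]
    exact mul_pos hG0 hpos
  have hA : 0 ≤ ∑ i, |c i| := Finset.sum_nonneg fun i _ => abs_nonneg _
  have hε0 : 0 < σ / (3 * (∑ i, |c i| + 1)) := by positivity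
  choose m C hm using fun i => hP (T i) (hT i) _ hε0
  have hA' : 0 ≤ ∑ i, |c i| * |C i| := Finset.sum_nonneg fun i _ => mul_nonneg (abs_nonneg _) (abs_nonneg _)
  have hδ0 : 0 < σ / (3 * (∑ i, |c i| * |C i| + 1)) := by positivity
  obtain ⟨Q, hQR, hQ, hQ0, hQb⟩ := hR.exists_weight (∑ i, m i) _ hδ0
  have hfin : FiniteDimensional ℂ Q := (Submodule.fg_iff_finiteDimensional _).1 hQ.fg
  have hq : 0 < (Module.finrank ℂ Q : ℝ) := by
    have h1 : 0 < Module.finrank ℂ Q := by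
      rw [Module.finrank_pos_iff]
      exact Submodule.nontrivial_iff_ne_bot.2 hQ0
    exact_mod_cast h1
  refine absurd (hle Q hQR hQ) (not_le.2 ?_)
  refine arith2 (G := fun i => gidx (K 0) (T i).J) (C := C) (b := fun i => bdry Q (m i)) (e := e)
    (by exact_mod_cast Nat.one_le_iff_ne_zero.2 he) hq hσ hσ0 hε0.le ?_ hδ0.le ?_ hQb (fun i => bdry_nonneg hQ _)
    (fun i => bdry_mono hQ (Finset.single_le_sum (fun _ _ => Nat.zero_le _) (Finset.mem_univ i))) fun i => hm i Q hQ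
  · rw [← mul_div_assoc, div_lt_div_iff₀ (by positivity) (by norm_num)]
    nlinarith
  · rw [← mul_div_assoc, div_lt_div_iff₀ (by positivity) (by norm_num)]
    nlinarith

end Pool.Agent.Lib.MP_666dc0_nt.PL
end

section

/-!
TASK B3. Density of the systems of the new forms.

Types `T 0 = (I, 1)`, `T (j + 1) = (P j, 1)` (`Fin (k + 1)`, `Fin.cons`), `c = (1, -1, …, -1)`; the kernel of the trivial
character of `J` is `J`, and a form of type `(J, 1)` is a form of level `U ⊔ J`. `∑ c i / I.relIndex (T i).J = 1 - ∑ 1 / I.relIndex (P j) > 0`.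
`PosSys ≤ NewSys`: let `Q ≤ R` with `dimT (T 0) (· = lam) > ∑ j, dimT (T (j+1)) (· = lam)`. The trace
`f ↦ (g ↦ ∑ᶠ x : P j ⧸ I.subgroupOf (P j), f (g * x.out))` maps the eigenspace of `lam` in the forms of level `U ⊔ I` to the one
in the forms of level `U ⊔ P j` (`tspan S Q T (· = lam)` is the space of all `f` with `IsTypeForm` and `IsEigen S f lam`;
the proof is like the one for `projT` in `WL/F4.lean`), so the common kernel of the `k` traces on the first space is `≠ 0`.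
-/

open NumberField IsDedekindDomain
open scoped NumberField

namespace Pool.Agent.Lib.MP_666dc0_nt.PL

open WL ZO FM

variable {F : Type} [Field F] [NumberField F] {n : ℕ} {D : Datum F n} {ℓ : ℕ} [Fact ℓ.Prime]
  {S : Finset (HeightOneSpectrum (𝓞 F))} {U : Subgroup D.Ad} {K : ℕ → Subgroup D.Ad} {d : ℕ}

theorem IsDenseSys.mono {X Y : Set (∀ v, Hecke U v → ℂ)} (h : IsDenseSys ℓ S X) (hXY : X ⊆ Y) :
    IsDenseSys ℓ S Y := fun ι p hp hY => h ι p hp fun lam hlam => hY lam (hXY hlam)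

theorem posSys_subset_newSys [IsTotallyReal F] (hD : IsTotPosDef D.q)
    (hSl : ∀ v : HeightOneSpectrum (𝓞 F), (ℓ : 𝓞 F) ∈ v.asIdeal → v ∈ S) (hU : IsTame ℓ U)
    (R : Submodule ℂ (D.Cpx → ℂ)) {k : ℕ} (I : Subgroup D.Ad) (P : Fin k → Subgroup D.Ad)
    (hI : IsLevel ℓ U I) (hP : ∀ j, IsLevel ℓ U (P j)) :
    PosSys (U := U) S R (Fin.cons (trivType I) fun j => trivType (P j) : Fin (k + 1) → AdType D)
      (Fin.cons 1 fun _ => -1 : Fin (k + 1) → ℝ) ⊆ NewSys U S R I P := by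
  rintro lam ⟨Q, hQR, hQ, hpos⟩
  have hfi : ∀ j, Finite (P j ⧸ I.subgroupOf (P j)) := fun j => by
    have h1 := relIndex_ne_zero_of_level hU hI (hP j)
    exact Nat.finite_of_card_ne_zero h1
  have := fun j => Fintype.ofFinite (P j ⧸ I.subgroupOf (P j))
  rw [Fin.sum_univ_succ] at hpos
  simp only [Fin.cons_zero, Fin.cons_succ, one_mul, neg_one_mul, Finset.sum_neg_distrib] at hpos
  have hlt : ∑ j, dimT S Q (trivType (P j)) (· = lam) < dimT S Q (trivType I) (· = lam) := by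
    have h1 : (∑ j, (dimT S Q (trivType (P j)) (· = lam) : ℝ)) < dimT S Q (trivType I) (· = lam) := by linarith
    exact_mod_cast h1
  have hfin : ∀ j, FiniteDimensional ℂ (tspan S Q (trivType (P j)) (· = lam)) := fun j => by
    have h1 := finite_typeForms hD (isTypeAt_trivType (hP j)) hQ
    exact Submodule.finiteDimensional_of_le (tspan_le Q (trivType (P j)) (· = lam))
  let L : (tspan S Q (trivType I) (· = lam)) →ₗ[ℂ] (∀ j, tspan S Q (trivType (P j)) (· = lam)) :=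
    LinearMap.pi fun j => ((trc I (P j)).comp (Submodule.subtype _)).codRestrict _ fun f => by
      have h1 := mem_tspan_eq.1 f.2
      exact mem_tspan_eq.2 ⟨trc_isTypeForm hU (hP j) (isForm_of_trivType h1.1), trc_isEigen hSl (hP j) h1.2⟩
  have hker : LinearMap.ker L ≠ ⊥ := by
    intro h0
    have h1 := LinearMap.finrank_le_finrank_of_injective (LinearMap.ker_eq_bot.1 h0)
    rw [Module.finrank_pi_fintype] at h1
    exact absurd h1 (not_le.2 hlt)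
  obtain ⟨f, hf, hf0⟩ := Submodule.exists_mem_ne_zero_of_ne_bot hker
  have h1 := mem_tspan_eq.1 f.2
  have h2 := isForm_of_trivType h1.1
  refine ⟨f.1, fun h => hf0 (Subtype.ext h), ⟨⟨fun g => hQR (h2.mem g), h2.left, h2.right⟩, fun j g => ?_⟩, h1.2⟩
  rw [finsum_eq_sum_of_fintype]
  have h3 : (L f) j = 0 := by
    rw [LinearMap.mem_ker.1 hf]
    rfl
  have h4 := congrFun (congrArg Subtype.val h3) g
  exact h4

theorem dense_newSys [IsTotallyReal F] (hD : IsTotPosDef D.q)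
    (hSl : ∀ v : HeightOneSpectrum (𝓞 F), (ℓ : 𝓞 F) ∈ v.asIdeal → v ∈ S) (hU : IsTame ℓ U)
    (hUS : ∀ v, v ∉ S → IsGoodAt U v) (hK : IsUniform ℓ d U K) {R : Submodule ℂ (D.Cpx → ℂ)} (hR : IsFull D R)
    {k : ℕ} (I : Subgroup D.Ad) (P : Fin k → Subgroup D.Ad) (hI : IsLevel ℓ U I) (hP : ∀ j, IsLevel ℓ U (P j))
    (hIP : ∀ j, I ≤ P j) (hsum : ∑ j, 1 / (I.relIndex (P j) : ℝ) < 1) :
    IsDenseSys ℓ S (NewSys U S R I P) := by
  refine IsDenseSys.mono (dense_posSys hD hSl hU hUS hK hR (Fin.cons (trivType I) fun j => trivType (P j))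
    (Fin.cons 1 fun _ => -1) I (fun i => ?_) hI (fun i => ?_) ?_) (posSys_subset_newSys hD hSl hU R I P hI hP)
  · refine Fin.cases ?_ (fun j => ?_) i
    · exact isTypeAt_trivType hI
    · exact isTypeAt_trivType (hP j)
  · refine Fin.cases ?_ (fun j => ?_) i
    · exact le_refl I
    · exact hIP j
  · rw [Fin.sum_univ_succ]
    simp only [Fin.cons_zero, Fin.cons_succ]
    have h1 : (I.relIndex (trivType I).J : ℝ) = 1 := by
      have h2 : I.relIndex (trivType I).J = 1 := Subgroup.relIndex_self I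
      rw [h2, Nat.cast_one]
    have h3 : ∑ j, (-1 : ℝ) / (I.relIndex (trivType (P j)).J : ℝ) = -∑ j, 1 / (I.relIndex (P j) : ℝ) := by
      rw [← Finset.sum_neg_distrib]
      exact Finset.sum_congr rfl fun j _ => neg_div _ _
    rw [h1, h3]
    linarith

end Pool.Agent.Lib.MP_666dc0_nt.PL
end

section

/-!
# PL, B5: lower bounds for the forms which violate a closed property
-/

open NumberField IsDedekindDomain
open scoped NumberField

namespace Pool.Agent.Lib.MP_666dc0_nt.PL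

open WL ZO FM

variable {F : Type} [Field F] [NumberField F] {n : ℕ} {D : Datum F n} {ℓ : ℕ} [Fact ℓ.Prime]
  {S : Finset (HeightOneSpectrum (𝓞 F))} {U : Subgroup D.Ad} {K : ℕ → Subgroup D.Ad} {d : ℕ}

theorem dimT_mono [IsTotallyReal F] (hD : IsTotPosDef D.q) {T : AdType D} (hT : IsTypeAt ℓ U T)
    {Q : Submodule ℂ (D.Cpx → ℂ)} (hQ : IsWeight D Q) {p q : (∀ v, Hecke U v → ℂ) → Prop} (h : ∀ lam, p lam → q lam) :
    dimT S Q T p ≤ dimT S Q T q := by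
  have h1 := finite_typeForms hD hT hQ
  have h2 : FiniteDimensional ℂ (tspan S Q T q) := Submodule.finiteDimensional_of_le (tspan_le Q T q)
  refine Submodule.finrank_mono (Submodule.span_mono ?_)
  rintro f ⟨hf, lam, he, hl⟩
  exact ⟨hf, lam, he, h lam hl⟩

theorem dimN_mono [IsTotallyReal F] (hD : IsTotPosDef D.q) {k : ℕ} {I : Subgroup D.Ad} (hI : IsLevel ℓ U I)
    (P : Fin k → Subgroup D.Ad)
    {Q : Submodule ℂ (D.Cpx → ℂ)} (hQ : IsWeight D Q) {p q : (∀ v, Hecke U v → ℂ) → Prop} (h : ∀ lam, p lam → q lam) :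
    dimN U S Q I P p ≤ dimN U S Q I P q := by
  have h1 := finite_typeForms hD (isTypeAt_trivType hI) hQ
  have h3 : Submodule.span ℂ {f | IsNewForm D Q U I P f ∧ ∃ lam, IsEigen S f lam ∧ q lam} ≤
      typeForms D Q U (trivType I) := by
    rw [Submodule.span_le]
    rintro f ⟨hf, -⟩
    exact isTypeForm_trivType hf.form
  have h2 := Submodule.finiteDimensional_of_le h3
  refine Submodule.finrank_mono (Submodule.span_mono ?_)
  rintro f ⟨hf, lam, he, hl⟩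
  exact ⟨hf, lam, he, h lam hl⟩

theorem atLeast_dimT [IsTotallyReal F] (hD : IsTotPosDef D.q) (hU : IsTame ℓ U) (hK : IsUniform ℓ d U K)
    {p q : (∀ v, Hecke U v → ℂ) → Prop} {e : ℕ} (he : e ≠ 0) (hp : IsPlancherel ℓ S (K 0) p e)
    (hpq : ∀ lam, p lam → q lam) {T : AdType D} (hT : IsTypeAt ℓ U T) :
    IsAtLeast D (gidx (K 0) T.J) fun Q => dimT S Q T q := by
  intro ε hε
  obtain ⟨m, C, h⟩ := hp T hT ε hε
  refine ⟨m, C, fun Q hQ => ?_⟩
  have h1 := (abs_le.1 (h Q hQ)).1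
  have h2 : (dimT S Q T p : ℝ) ≤ dimT S Q T q := by exact_mod_cast dimT_mono hD hT hQ hpq
  have h3 := gidx_pos hU hK hT.level
  have h4 : (1 : ℝ) ≤ e := by exact_mod_cast Nat.one_le_iff_ne_zero.2 he
  have h5 : gidx (K 0) T.J * Module.finrank ℂ Q ≤ e * gidx (K 0) T.J * Module.finrank ℂ Q := by
    rw [mul_assoc]
    exact le_mul_of_one_le_left (mul_nonneg h3.le (Nat.cast_nonneg _)) h4
  linarith

private theorem arith5 {k : ℕ} {G C x b : Fin k → ℝ} {y z e q ε G0 C0 b0 B : ℝ} (he : 1 ≤ e) (hq : 0 ≤ q)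
    (hg : 0 ≤ G0 - ∑ j, G j) (hb00 : 0 ≤ b0) (hb0 : ∀ i, 0 ≤ b i) (hbB0 : b0 ≤ B) (hbB : ∀ i, b i ≤ B)
    (hz : |z - e * G0 * q| ≤ ε / (k + 1) * q + C0 * b0)
    (hx : ∀ i, |x i - e * G i * q| ≤ ε / (k + 1) * q + C i * b i) (hy : z ≤ y + ∑ i, x i) :
    (G0 - ∑ j, G j) * q ≤ y + ε * q + (|C0| + ∑ i, |C i|) * B := by
  have h1 : ∑ i, x i ≤ e * (∑ j, G j) * q + k * (ε / (k + 1) * q) + (∑ i, |C i|) * B := by
    have h2 : ∀ i, x i ≤ e * G i * q + ε / (k + 1) * q + |C i| * B := by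
      intro i
      have h3 := (abs_le.1 (hx i)).2
      have h4 : C i * b i ≤ |C i| * B := (mul_le_mul_of_nonneg_right (le_abs_self _) (hb0 i)).trans
        (mul_le_mul_of_nonneg_left (hbB i) (abs_nonneg _))
      linarith
    refine (Finset.sum_le_sum fun i _ => h2 i).trans_eq ?_
    rw [Finset.sum_add_distrib, Finset.sum_add_distrib, Finset.sum_const, Finset.card_univ, Fintype.card_fin,
      nsmul_eq_mul, Finset.sum_mul, Finset.mul_sum, Finset.sum_mul]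
  have h5 := (abs_le.1 hz).1
  have h6 : C0 * b0 ≤ |C0| * B := (mul_le_mul_of_nonneg_right (le_abs_self _) hb00).trans
    (mul_le_mul_of_nonneg_left hbB0 (abs_nonneg _))
  have h7 : (G0 - ∑ j, G j) * q ≤ e * ((G0 - ∑ j, G j) * q) := le_mul_of_one_le_left (mul_nonneg hg hq) he
  have h8 : ε / (k + 1) * q + k * (ε / (k + 1) * q) = ε * q := by
    field_simp
    ring
  nlinarith

theorem atLeast_dimN [IsTotallyReal F] (hD : IsTotPosDef D.q)
    (hSl : ∀ v : HeightOneSpectrum (𝓞 F), (ℓ : 𝓞 F) ∈ v.asIdeal → v ∈ S) (hU : IsTame ℓ U) (hK : IsUniform ℓ d U K)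
    {p q : (∀ v, Hecke U v → ℂ) → Prop} {e : ℕ} (he : e ≠ 0) (hp : IsPlancherel ℓ S (K 0) p e) (hps : SInv ℓ S p)
    (hpq : ∀ lam, p lam → q lam) {k : ℕ} {I : Subgroup D.Ad} {P : Fin k → Subgroup D.Ad} (hI : IsLevel ℓ U I)
    (hP : ∀ j, IsLevel ℓ U (P j)) (hIP : ∀ j, I ≤ P j) (hsum : ∑ j, 1 / (I.relIndex (P j) : ℝ) < 1) :
    IsAtLeast D (gidx (K 0) I * (1 - ∑ j, 1 / (I.relIndex (P j) : ℝ))) fun Q => dimN U S Q I P q := by
  intro ε hε
  have hε' : 0 < ε / (k + 1) := by positivity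
  obtain ⟨m0, C0, h0⟩ := hp (trivType I) (isTypeAt_trivType hI) _ hε'
  choose m C hm using fun j => hp (trivType (P j)) (isTypeAt_trivType (hP j)) _ hε'
  refine ⟨m0 + ∑ j, m j, |C0| + ∑ j, |C j|, fun Q hQ => ?_⟩
  have hG0 := gidx_pos hU hK hI
  have hG : ∀ j, gidx (K 0) (P j) = gidx (K 0) I / I.relIndex (P j) := fun j => gidx_eq hU hK hI (hP j) (hIP j)
  have h1 : gidx (K 0) I * (1 - ∑ j, 1 / (I.relIndex (P j) : ℝ)) = gidx (K 0) I - ∑ j, gidx (K 0) (P j) := by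
    rw [mul_sub, mul_one, Finset.mul_sum]
    congr 1
    refine Finset.sum_congr rfl fun j _ => ?_
    rw [hG j]
    ring
  rw [h1]
  refine arith5 (e := e) (z := dimT S Q (trivType I) p) (x := fun j => dimT S Q (trivType (P j)) p) (b0 := bdry Q m0)
    (b := fun j => bdry Q (m j)) (by exact_mod_cast Nat.one_le_iff_ne_zero.2 he) (Nat.cast_nonneg _) ?_
    (bdry_nonneg hQ _) (fun j => bdry_nonneg hQ _) (bdry_mono hQ (Nat.le_add_right _ _))
    (fun j => bdry_mono hQ ((Finset.single_le_sum (fun _ _ => Nat.zero_le _) (Finset.mem_univ j)).trans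
      (Nat.le_add_left _ _))) (h0 Q hQ) (fun j => hm j Q hQ) ?_
  · rw [← h1]
    exact mul_nonneg hG0.le (by linarith)
  · have h2 := dimT_le_dimN_add hD hSl hU hQ I P hI hP hps
    have h3 : dimN U S Q I P p ≤ dimN U S Q I P q := dimN_mono hD hI P hQ hpq
    have h4 : dimT S Q (trivType I) p ≤ dimN U S Q I P q + ∑ j, dimT S Q (trivType (P j)) p := h2.trans (by omega)
    exact_mod_cast h4

end Pool.Agent.Lib.MP_666dc0_nt.PL
end

section

/-!
TASK H5. The traces of the non-trivial translations are small.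

`M` = order of `k` modulo `N` (`N` has finite index in `P`: `relIndex_ne_zero_of_level`; `M ≥ 2` as `k ∉ N`; `k ^ i ∈ N ↔ M ∣ i`), `ζ = exp (2 π i / M)` (`Complex.isPrimitiveRoot_exp`). For
`j < M` let `χ_j` be the character with `χ_j(k) = ζ ^ j` (`exists_char`), `T_j = (N ⊔ ⟨k⟩, χ_j)`. By `tspan_char` the eigenspace of `rt k` on `W = tspan S Q (trivType N) p` for `ζ ^ j` has
dimension `dimT S Q T_j p`, so (`trace_eq_sum_eigen`) `trace = ∑_j ζ ^ j dimT S Q T_j p = ∑_j ζ ^ j (dimT S Q T_j p - a [K₀ : C] dim Q)` (`∑_{j < M} ζ ^ j = 0`: `IsPrimitiveRoot.geom_sum_eq_zero`), and each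
term is `≤ ε / M dim Q + C_j bdry Q m_j` (`IsPlancherel`; `bdry_mono`, `bdry_nonneg`).
-/

open NumberField IsDedekindDomain
open scoped NumberField

namespace Pool.Agent.Lib.MP_666dc0_nt.PL

open WL ZO FM

/-- The order of an element modulo a normal subgroup of finite index. -/
private theorem H5order {G : Type} [Group G] {P N : Subgroup G} (h0 : N.relIndex P ≠ 0)
    (hn : ∀ g ∈ P, ∀ x ∈ N, g * x * g⁻¹ ∈ N) {k : G} (hk : k ∈ P) (hkN : k ∉ N) :
    ∃ M : ℕ, 1 < M ∧ ∀ i : ℤ, k ^ i ∈ N ↔ (M : ℤ) ∣ i := by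
  have hnor : (N.subgroupOf P).Normal := ⟨fun x hx g => by
    rw [Subgroup.mem_subgroupOf] at hx ⊢
    exact hn g g.2 x hx⟩
  have hfin : Finite (P ⧸ N.subgroupOf P) := Nat.finite_of_card_ne_zero h0
  have h1 : ∀ i : ℤ, k ^ i ∈ N ↔ ((orderOf (QuotientGroup.mk (⟨k, hk⟩ : P) : P ⧸ N.subgroupOf P) : ℕ) : ℤ) ∣ i := by
    intro i
    rw [orderOf_dvd_iff_zpow_eq_one]
    have h2 : (QuotientGroup.mk (⟨k, hk⟩ : P) : P ⧸ N.subgroupOf P) ^ i =
        ((((⟨k, hk⟩ : P) ^ i : P)) : P ⧸ N.subgroupOf P) := (QuotientGroup.mk_zpow _ _ _).symm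
    rw [h2, QuotientGroup.eq_one_iff, Subgroup.mem_subgroupOf, Subgroup.coe_zpow]
  have hpos : 0 < orderOf (QuotientGroup.mk (⟨k, hk⟩ : P) : P ⧸ N.subgroupOf P) := orderOf_pos _
  refine ⟨_, ?_, h1⟩
  rcases Nat.lt_or_ge 1 (orderOf (QuotientGroup.mk (⟨k, hk⟩ : P) : P ⧸ N.subgroupOf P)) with h | h
  · exact h
  · exfalso
    apply hkN
    have h3 := (h1 1).2 (by
      have h4 : orderOf (QuotientGroup.mk (⟨k, hk⟩ : P) : P ⧸ N.subgroupOf P) = 1 := le_antisymm h hpos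
      rw [h4]
      exact one_dvd _)
    rwa [zpow_one] at h3

/-- The estimate, for numbers. -/
private theorem H5arith {M : ℕ} (hM : 1 < M) {ζ : ℂ} (hζ : IsPrimitiveRoot ζ M) (x : ℕ → ℕ) {y q B ε : ℝ}
    {C b : ℕ → ℝ} (hb : ∀ j, 0 ≤ b j) (hbB : ∀ j ∈ Finset.range M, b j ≤ B)
    (h : ∀ j, |(x j : ℝ) - y| ≤ ε / M * q + C j * b j) :
    ‖∑ j ∈ Finset.range M, ζ ^ j * (x j : ℂ)‖ ≤ ε * q + (∑ j ∈ Finset.range M, |C j|) * B := by
  have h0 : (M : ℝ) ≠ 0 := by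
    have : M ≠ 0 := by omega
    exact_mod_cast this
  have h1 : ∑ j ∈ Finset.range M, ζ ^ j * (x j : ℂ) =
      ∑ j ∈ Finset.range M, ζ ^ j * (((x j : ℝ) - y : ℝ) : ℂ) := by
    have h2 : ∑ j ∈ Finset.range M, ζ ^ j * ((y : ℝ) : ℂ) = 0 := by
      rw [← Finset.sum_mul, hζ.geom_sum_eq_zero hM, zero_mul]
    rw [← sub_zero (∑ j ∈ Finset.range M, ζ ^ j * (x j : ℂ)), ← h2, ← Finset.sum_sub_distrib]
    refine Finset.sum_congr rfl fun j _ => ?_
    push_cast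
    ring
  rw [h1]
  refine (norm_sum_le _ _).trans ?_
  have h3 : ∀ j ∈ Finset.range M, ‖ζ ^ j * (((x j : ℝ) - y : ℝ) : ℂ)‖ ≤ ε / M * q + |C j| * B := by
    intro j hj
    rw [norm_mul, norm_pow, hζ.norm'_eq_one (by omega), one_pow, one_mul, Complex.norm_real, Real.norm_eq_abs]
    have h8 : C j * b j ≤ |C j| * B := (mul_le_mul_of_nonneg_right (le_abs_self _) (hb j)).trans
      (mul_le_mul_of_nonneg_left (hbB j hj) (abs_nonneg _))
    exact (h j).trans (by linarith)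
  refine (Finset.sum_le_sum h3).trans_eq ?_
  rw [Finset.sum_add_distrib, Finset.sum_const, Finset.card_range, nsmul_eq_mul, ← Finset.sum_mul]
  congr 1
  field_simp

variable {F : Type} [Field F] [NumberField F] {n : ℕ} {D : Datum F n} {ℓ : ℕ} [Fact ℓ.Prime]
  {S : Finset (HeightOneSpectrum (𝓞 F))} {U : Subgroup D.Ad} {K₀ : Subgroup D.Ad}

theorem trace_small [IsTotallyReal F] (hD : IsTotPosDef D.q)
    (hSl : ∀ v : HeightOneSpectrum (𝓞 F), (ℓ : 𝓞 F) ∈ v.asIdeal → v ∈ S) (hU : IsTame ℓ U)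
    {p : (∀ v, Hecke U v → ℂ) → Prop} {a : ℕ} (hp : IsPlancherel ℓ S K₀ p a)
    {P N : Subgroup D.Ad} (hP : IsLevel ℓ U P) (hN : IsLevel ℓ U N) (hNP : N ≤ P)
    (hn : ∀ g ∈ P, ∀ x ∈ N, g * x * g⁻¹ ∈ N) {k : D.Ad} (hk : k ∈ P) (hkN : k ∉ N) {ε : ℝ} (hε : 0 < ε) :
    ∃ (m : ℕ) (C : ℝ), ∀ Q, IsWeight D Q → ∀ h : ∀ f ∈ tspan S Q (trivType N) p, rt k f ∈ tspan S Q (trivType N) p,
      ‖LinearMap.trace ℂ (tspan S Q (trivType N) p) ((rt k).restrict h)‖ ≤ ε * Module.finrank ℂ Q + C * bdry Q m := by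
  obtain ⟨M, hM, hkM⟩ := H5order (relIndex_ne_zero_of_level hU hN hP) hn hk hkN
  have hM0 : 0 < M := by omega
  have hkMN : k ^ M ∈ N := by
    have h1 := (hkM M).2 dvd_rfl
    rwa [zpow_natCast] at h1
  obtain ⟨ζ, hζ⟩ : ∃ ζ : ℂ, IsPrimitiveRoot ζ M := ⟨_, Complex.isPrimitiveRoot_exp M hM0.ne'⟩
  have hζj : ∀ j, (ζ ^ j) ^ M = 1 := fun j => by
    rw [← pow_mul, mul_comm, pow_mul, hζ.pow_eq_one, one_pow]
  have hn1 : ∀ x ∈ N, k * x * k⁻¹ ∈ N := hn k hk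
  have hn2 : ∀ x ∈ N, k⁻¹ * x * k ∈ N := fun x hx => by
    have h1 := hn k⁻¹ (P.inv_mem hk) x hx
    rwa [inv_inv] at h1
  choose χ hχ hχk using fun j : ℕ => exists_char hn1 hn2 hM0 hkM (hζj j)
  have hδ : 0 < ε / M := by
    have h1 : (0 : ℝ) < M := by exact_mod_cast hM0
    positivity
  choose m C hm using fun j : ℕ =>
    hp (⟨N ⊔ Subgroup.zpowers k, χ j⟩ : AdType D) (isTypeAt_char hP hN hNP hk (χ j) (hχ j)) _ hδ
  refine ⟨∑ j ∈ Finset.range M, m j, ∑ j ∈ Finset.range M, |C j|, fun Q hQ h => ?_⟩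
  have hf1 := finite_typeForms hD (isTypeAt_trivType hN) hQ
  have hf2 : FiniteDimensional ℂ (tspan S Q (trivType N) p) :=
    Submodule.finiteDimensional_of_le (tspan_le Q (trivType N) p)
  have hpow : ∀ (i : ℕ) (w : tspan S Q (trivType N) p) (g : D.Ad),
      ((((rt k).restrict h) ^ i) w : D.Ad → D.Cpx → ℂ) g = (w : D.Ad → D.Cpx → ℂ) (g * k ^ i) := by
    intro i
    induction i with
    | zero =>
      intro w g
      rw [pow_zero, pow_zero, mul_one]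
      rfl
    | succ i ih =>
      intro w g
      rw [pow_succ', Module.End.mul_apply]
      have h1 : ((((rt k).restrict h) ((((rt k).restrict h) ^ i) w) : tspan S Q (trivType N) p) :
          D.Ad → D.Cpx → ℂ) g = ((((rt k).restrict h) ^ i) w : D.Ad → D.Cpx → ℂ) (g * k) := rfl
      rw [h1, ih, mul_assoc, ← pow_succ']
  have hA : ((rt k).restrict h) ^ M = 1 := by
    ext1 w
    apply Subtype.ext
    funext g
    rw [hpow]
    have h1 : IsTypeForm D Q U (trivType N) (w : D.Ad → D.Cpx → ℂ) := tspan_le Q (trivType N) p w.2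
    have h2 := (isForm_of_trivType h1).right g (k ^ M) (Subgroup.mem_sup_right hkMN)
    rw [h2]
    rfl
  have hdim : ∀ j, Module.finrank ℂ (Module.End.eigenspace ((rt k).restrict h) (ζ ^ j)) =
      dimT S Q (⟨N ⊔ Subgroup.zpowers k, χ j⟩ : AdType D) p := by
    intro j
    have h1 : (Module.End.eigenspace ((rt k).restrict h) (ζ ^ j)).map (Submodule.subtype _) =
        tspan S Q (⟨N ⊔ Subgroup.zpowers k, χ j⟩ : AdType D) p := by
      ext f
      rw [tspan_char hSl hU hP hN hNP hn hk hM0 hkMN (hζj j) (χ j) (hχ j) (hχk j)]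
      constructor
      · rintro ⟨w, hw, rfl⟩
        refine ⟨w.2, ?_⟩
        exact congrArg Subtype.val (Module.End.mem_eigenspace_iff.1 hw)
      · rintro ⟨hf, hrt⟩
        exact ⟨⟨f, hf⟩, Module.End.mem_eigenspace_iff.2 (Subtype.ext hrt), rfl⟩
    unfold dimT
    rw [← h1]
    exact (Submodule.finrank_map_subtype_eq _ _).symm
  rw [trace_eq_sum_eigen _ hM0 hζ hA]
  exact H5arith hM hζ (fun j => Module.finrank ℂ (Module.End.eigenspace ((rt k).restrict h) (ζ ^ j)))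
    (y := a * gidx K₀ (N ⊔ Subgroup.zpowers k) * Module.finrank ℂ Q)
    (b := fun j => bdry Q (m j)) (fun j => bdry_nonneg hQ _)
    (fun j hj => bdry_mono hQ (Finset.single_le_sum (fun _ _ => Nat.zero_le _) hj)) fun j => by
      rw [hdim j]
      exact hm j Q hQ

end Pool.Agent.Lib.MP_666dc0_nt.PL
end

section

/-!
TASK H7. The law for types of arbitrary dimension.

`Γ = J ⧸ ker ρ`, `c = card Γ = [J : N]`. By `dimR_eq` and `finrank_eqTup` `dimR S Q T p = c⁻¹ ∑_k tr ρ(k⁻¹) tr σ(k)`. The term of `k = 1` is `r dim W`, `dim W = dimT S Q (trivType N) p`, which is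
`a [K₀ : N] dim Q` up to an error (`IsPlancherel`), and `[K₀ : N] = [K₀ : J] c` (`gidx_eq`). The other terms are at most `‖tr ρ(k⁻¹)‖ ‖tr σ(k)‖`, small by `trace_small` (choose representatives
`k = Quotient.out` in `J`; `σ(k)` is the restriction of `rt k`; constants: the maxima of the norms of `tr ρ(k⁻¹)` over the finite group `Γ`).
-/

open NumberField IsDedekindDomain
open scoped NumberField

namespace Pool.Agent.Lib.MP_666dc0_nt.PL

open WL ZO FM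

variable {F : Type} [Field F] [NumberField F] {n : ℕ} {D : Datum F n} {ℓ : ℕ} [Fact ℓ.Prime]
  {S : Finset (HeightOneSpectrum (𝓞 F))} {U : Subgroup D.Ad} {K : ℕ → Subgroup D.Ad} {d : ℕ}

/-- The estimate, for numbers. -/
private theorem H7arith {Γ : Type} (Λ : Finset Γ) (t s : Γ → ℂ) {R Wd G c r a q B b0 C0 ε : ℝ} {C b : Γ → ℝ}
    (hc : 1 ≤ c) (hr : 0 ≤ r) (hq : 0 ≤ q) (hε : 0 < ε)
    (h1 : (R : ℂ) = (c : ℂ)⁻¹ * (r * Wd + ∑ x ∈ Λ, t x * s x))
    (hb00 : 0 ≤ b0) (hb0 : b0 ≤ B) (hb : ∀ x, 0 ≤ b x) (hbB : ∀ x, b x ≤ B)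
    (h2 : ∀ x ∈ Λ, ‖s x‖ ≤ ε / (r + ∑ x ∈ Λ, ‖t x‖ + 1) * q + C x * b x)
    (h3 : |Wd - a * G * q| ≤ ε / (r + ∑ x ∈ Λ, ‖t x‖ + 1) * q + C0 * b0) :
    |R - a * r * (G / c) * q| ≤ ε * q + (r * |C0| + ∑ x ∈ Λ, ‖t x‖ * |C x|) * B := by
  have hc0 : 0 < c := by linarith
  have hB : 0 ≤ B := hb00.trans hb0
  obtain ⟨A, hA⟩ : ∃ A, r + ∑ x ∈ Λ, ‖t x‖ = A := ⟨_, rfl⟩
  have hA0 : 0 ≤ A := by
    rw [← hA]
    exact add_nonneg hr (Finset.sum_nonneg fun x _ => norm_nonneg _)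
  rw [hA] at h2 h3
  obtain ⟨δ, hδ⟩ : ∃ δ, ε / (A + 1) = δ := ⟨_, rfl⟩
  rw [hδ] at h2 h3
  have hδ0 : 0 ≤ δ := by
    rw [← hδ]
    positivity
  have hAδ : A * δ ≤ ε := by
    rw [← hδ, ← mul_div_assoc, div_le_iff₀ (by positivity)]
    nlinarith
  have h4 : ((R - a * r * (G / c) * q : ℝ) : ℂ) =
      (c : ℂ)⁻¹ * (((r * (Wd - a * G * q) : ℝ) : ℂ) + ∑ x ∈ Λ, t x * s x) := by
    push_cast
    rw [h1]
    have hcc : (c : ℂ) ≠ 0 := by exact_mod_cast hc0.ne'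
    field_simp
    ring
  have h5 : |R - a * r * (G / c) * q| = ‖((R - a * r * (G / c) * q : ℝ) : ℂ)‖ := by
    rw [Complex.norm_real, Real.norm_eq_abs]
  have h6 : ‖(c : ℂ)⁻¹‖ ≤ 1 := by
    rw [norm_inv, Complex.norm_real, Real.norm_eq_abs, abs_of_pos hc0]
    exact inv_le_one_of_one_le₀ hc
  have h7 : ‖((r * (Wd - a * G * q) : ℝ) : ℂ)‖ ≤ r * (δ * q + |C0| * B) := by
    rw [Complex.norm_real, Real.norm_eq_abs, abs_mul, abs_of_nonneg hr]
    refine mul_le_mul_of_nonneg_left (h3.trans ?_) hr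
    have h8 : C0 * b0 ≤ |C0| * B := (mul_le_mul_of_nonneg_right (le_abs_self _) hb00).trans
      (mul_le_mul_of_nonneg_left hb0 (abs_nonneg _))
    linarith
  have h9 : ‖∑ x ∈ Λ, t x * s x‖ ≤ ∑ x ∈ Λ, (‖t x‖ * (δ * q) + ‖t x‖ * |C x| * B) := by
    refine (norm_sum_le _ _).trans (Finset.sum_le_sum fun x hx => ?_)
    rw [norm_mul]
    have h8 : C x * b x ≤ |C x| * B := (mul_le_mul_of_nonneg_right (le_abs_self _) (hb x)).trans
      (mul_le_mul_of_nonneg_left (hbB x) (abs_nonneg _))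
    calc ‖t x‖ * ‖s x‖ ≤ ‖t x‖ * (δ * q + |C x| * B) :=
          mul_le_mul_of_nonneg_left ((h2 x hx).trans (by linarith)) (norm_nonneg _)
      _ = ‖t x‖ * (δ * q) + ‖t x‖ * |C x| * B := by ring
  rw [Finset.sum_add_distrib, ← Finset.sum_mul, ← Finset.sum_mul] at h9
  rw [h5, h4, norm_mul]
  have h10 : ‖((r * (Wd - a * G * q) : ℝ) : ℂ) + ∑ x ∈ Λ, t x * s x‖ ≤
      r * (δ * q + |C0| * B) + ((∑ x ∈ Λ, ‖t x‖) * (δ * q) + (∑ x ∈ Λ, ‖t x‖ * |C x|) * B) :=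
    (norm_add_le _ _).trans (add_le_add h7 h9)
  refine (mul_le_of_le_one_left (norm_nonneg _) h6).trans (h10.trans ?_)
  have h11 : A * δ * q ≤ ε * q := mul_le_mul_of_nonneg_right hAδ hq
  rw [← hA] at h11
  nlinarith

/-- The estimate, for a representation of a finite group. -/
private theorem H7main {Γ W : Type} [Group Γ] [Fintype Γ] [AddCommGroup W] [Module ℂ W] [FiniteDimensional ℂ W]
    (σ : Γ →* Module.End ℂ W) {r : ℕ} (ρ : Γ →* GL (Fin r) ℂ) {G a q B b0 C0 ε : ℝ} {C b : Γ → ℝ}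
    (hq : 0 ≤ q) (hε : 0 < ε) (hb00 : 0 ≤ b0) (hb0 : b0 ≤ B) (hb : ∀ x, 0 ≤ b x) (hbB : ∀ x, b x ≤ B)
    (h2 : ∀ x : Γ, x ≠ 1 → ‖LinearMap.trace ℂ W (σ x)‖ ≤
      ε / (r + ∑ x : Γ, ‖Matrix.trace (ρ x⁻¹ : Matrix (Fin r) (Fin r) ℂ)‖ + 1) * q + C x * b x)
    (h3 : |(Module.finrank ℂ W : ℝ) - a * G * q| ≤
      ε / (r + ∑ x : Γ, ‖Matrix.trace (ρ x⁻¹ : Matrix (Fin r) (Fin r) ℂ)‖ + 1) * q + C0 * b0) :
    |(Module.finrank ℂ (eqTup σ ρ) : ℝ) - a * r * (G / Fintype.card Γ) * q| ≤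
      ε * q + (r * |C0| + ∑ x : Γ, ‖Matrix.trace (ρ x⁻¹ : Matrix (Fin r) (Fin r) ℂ)‖ * |C x|) * B := by
  classical
  have h1 := finrank_eqTup σ ρ
  rw [← Finset.add_sum_erase Finset.univ _ (Finset.mem_univ (1 : Γ)), inv_one, map_one ρ, map_one σ, Units.val_one,
    Matrix.trace_one, Fintype.card_fin, LinearMap.trace_one] at h1
  have hc : (1 : ℝ) ≤ Fintype.card Γ := by
    exact_mod_cast Nat.one_le_iff_ne_zero.2 (Fintype.card_ne_zero (α := Γ))
  obtain ⟨t, ht⟩ : ∃ t : Γ → ℂ, t = fun x => Matrix.trace (ρ x⁻¹ : Matrix (Fin r) (Fin r) ℂ) := ⟨_, rfl⟩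
  have ht' : ∀ x, Matrix.trace (ρ x⁻¹ : Matrix (Fin r) (Fin r) ℂ) = t x := fun x => by rw [ht]
  simp only [ht'] at h1 h2 h3 ⊢
  have hle : ∑ x ∈ Finset.univ.erase (1 : Γ), ‖t x‖ ≤ ∑ x, ‖t x‖ :=
    Finset.sum_le_sum_of_subset_of_nonneg (Finset.erase_subset _ _) fun x _ _ => norm_nonneg _
  have hle' : ∑ x ∈ Finset.univ.erase (1 : Γ), ‖t x‖ * |C x| ≤ ∑ x, ‖t x‖ * |C x| :=
    Finset.sum_le_sum_of_subset_of_nonneg (Finset.erase_subset _ _) fun x _ _ =>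
      mul_nonneg (norm_nonneg _) (abs_nonneg _)
  have hs0 : 0 ≤ ∑ x ∈ Finset.univ.erase (1 : Γ), ‖t x‖ := Finset.sum_nonneg fun x _ => norm_nonneg _
  have hr0 : (0 : ℝ) ≤ r := Nat.cast_nonneg _
  have hdiv : ε / (r + ∑ x, ‖t x‖ + 1) ≤ ε / (r + ∑ x ∈ Finset.univ.erase (1 : Γ), ‖t x‖ + 1) :=
    div_le_div_of_nonneg_left hε.le (by linarith) (by linarith)
  have hdq := mul_le_mul_of_nonneg_right hdiv hq
  have h4 := H7arith (Finset.univ.erase (1 : Γ)) t (fun x => LinearMap.trace ℂ W (σ x))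
    (R := Module.finrank ℂ (eqTup σ ρ)) (Wd := Module.finrank ℂ W) (G := G) (c := Fintype.card Γ) (r := r) (a := a)
    (q := q) (B := B) (b0 := b0) (C0 := C0) (ε := ε) (C := C) (b := b) hc hr0 hq hε (by push_cast; exact h1) hb00 hb0 hb
    hbB (fun x hx => (h2 x (Finset.ne_of_mem_erase hx)).trans (by linarith)) (h3.trans (by linarith))
  refine h4.trans ?_
  have hB : 0 ≤ B := hb00.trans hb0
  have h5 := mul_le_mul_of_nonneg_right hle' hB
  linarith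

theorem repLaw [IsTotallyReal F] (hD : IsTotPosDef D.q)
    (hSl : ∀ v : HeightOneSpectrum (𝓞 F), (ℓ : 𝓞 F) ∈ v.asIdeal → v ∈ S) (hU : IsTame ℓ U) (hK : IsUniform ℓ d U K)
    {p : (∀ v, Hecke U v → ℂ) → Prop} {a : ℕ} (hp : IsPlancherel ℓ S (K 0) p a) : IsRepLaw ℓ S (K 0) p a := by
  intro T hT ε hε
  have hcard : Nat.card (T.J ⧸ T.ρ.ker) ≠ 0 := by
    rw [T.card_quot]
    exact relIndex_ne_zero_of_level hU hT.ker hT.level
  have hfin : Finite (T.J ⧸ T.ρ.ker) := Nat.finite_of_card_ne_zero hcard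
  have : Fintype (T.J ⧸ T.ρ.ker) := Fintype.ofFinite _
  obtain ⟨δ, hδ⟩ : ∃ δ, ε / (T.r + ∑ x : T.J ⧸ T.ρ.ker,
      ‖Matrix.trace (QuotientGroup.kerLift T.ρ x⁻¹ : Matrix (Fin T.r) (Fin T.r) ℂ)‖ + 1) = δ := ⟨_, rfl⟩
  have hδ0 : 0 < δ := by
    rw [← hδ]
    have h1 : 0 ≤ ∑ x : T.J ⧸ T.ρ.ker,
      ‖Matrix.trace (QuotientGroup.kerLift T.ρ x⁻¹ : Matrix (Fin T.r) (Fin T.r) ℂ)‖ :=
      Finset.sum_nonneg fun x _ => norm_nonneg _
    positivity
  obtain ⟨m0, C0, h0⟩ := hp (trivType T.ker) (isTypeAt_trivType hT.ker) δ hδ0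
  have hx : ∀ x : T.J ⧸ T.ρ.ker, ∃ (m : ℕ) (C : ℝ), x ≠ 1 → ∀ Q, IsWeight D Q →
      ∀ k : D.Ad, k = (x.out : T.J) →
      ∀ h : ∀ f ∈ tspan S Q (trivType T.ker) p, rt k f ∈ tspan S Q (trivType T.ker) p,
      ‖LinearMap.trace ℂ (tspan S Q (trivType T.ker) p) ((rt k).restrict h)‖ ≤
        δ * Module.finrank ℂ Q + C * bdry Q m := by
    intro x
    by_cases hx1 : x = 1
    · exact ⟨0, 0, fun h => absurd hx1 h⟩
    · obtain ⟨k, hkx⟩ : ∃ k : D.Ad, k = (x.out : T.J) := ⟨_, rfl⟩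
      have hkJ : k ∈ T.J := by
        rw [hkx]
        exact (x.out : T.J).2
      have hk : k ∉ T.ker := by
        intro hmem
        unfold RepType.ker at hmem
        obtain ⟨y, hy, hyx⟩ := Subgroup.mem_map.1 hmem
        have h1 : y = x.out := Subtype.ext (hyx.trans hkx)
        rw [h1] at hy
        apply hx1
        rw [← QuotientGroup.out_eq' x]
        exact (QuotientGroup.eq_one_iff _).2 hy
      obtain ⟨m, C, h⟩ := trace_small hD hSl hU hp hT.level hT.ker T.ker_le T.ker_normal hkJ hk hδ0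
      refine ⟨m, C, fun _ Q hQ k' hk' => ?_⟩
      rw [hk', ← hkx]
      exact h Q hQ
  choose m C hm using hx
  refine ⟨m0 + ∑ x, m x, T.r * |C0| + ∑ x : T.J ⧸ T.ρ.ker,
    ‖Matrix.trace (QuotientGroup.kerLift T.ρ x⁻¹ : Matrix (Fin T.r) (Fin T.r) ℂ)‖ * |C x|, fun Q hQ => ?_⟩
  obtain ⟨σ, hσ, hdim⟩ := dimR_eq hSl hU hT Q p
  have hf1 := finite_typeForms hD (isTypeAt_trivType hT.ker) hQ
  have hf2 : FiniteDimensional ℂ (tspan S Q (trivType T.ker) p) :=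
    Submodule.finiteDimensional_of_le (tspan_le Q (trivType T.ker) p)
  have hG := gidx_eq hU hK hT.ker hT.level T.ker_le
  rw [← T.card_quot, Nat.card_eq_fintype_card] at hG
  have h5 : ∀ x : T.J ⧸ T.ρ.ker, x ≠ 1 →
      ‖LinearMap.trace ℂ (tspan S Q (trivType T.ker) p) (σ x)‖ ≤ δ * Module.finrank ℂ Q + C x * bdry Q (m x) := by
    intro x hx1
    obtain ⟨k, hkx⟩ : ∃ k : D.Ad, k = (x.out : T.J) := ⟨_, rfl⟩
    have hσx : ∀ w : tspan S Q (trivType T.ker) p,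
        (σ x w : D.Ad → D.Cpx → ℂ) = rt k (w : D.Ad → D.Cpx → ℂ) := by
      intro w
      have h2 := hσ x.out w
      rw [QuotientGroup.out_eq'] at h2
      rw [h2, hkx]
    have h : ∀ f ∈ tspan S Q (trivType T.ker) p, rt k f ∈ tspan S Q (trivType T.ker) p := by
      intro f hf
      have h2 := hσx ⟨f, hf⟩
      rw [← h2]
      exact (σ x ⟨f, hf⟩).2
    have h3 : σ x = (rt k).restrict h := by
      ext1 w
      exact Subtype.ext (hσx w)
    rw [h3]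
    exact hm x hx1 Q hQ k hkx h
  have h6 : |(Module.finrank ℂ (tspan S Q (trivType T.ker) p) : ℝ) - a * gidx (K 0) T.ker * Module.finrank ℂ Q| ≤
      δ * Module.finrank ℂ Q + C0 * bdry Q m0 := h0 Q hQ
  rw [hG, hdim]
  rw [← hδ] at h5 h6
  exact H7main σ (QuotientGroup.kerLift T.ρ) (b := fun x => bdry Q (m x)) (Nat.cast_nonneg _) hε (bdry_nonneg hQ m0)
    (bdry_mono hQ (Nat.le_add_right _ _)) (fun x => bdry_nonneg hQ _)
    (fun x => bdry_mono hQ ((Finset.single_le_sum (fun _ _ => Nat.zero_le _) (Finset.mem_univ x)).trans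
      (Nat.le_add_left _ _))) h5 h6

end Pool.Agent.Lib.MP_666dc0_nt.PL
end
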