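import Pool.Agent.Lib.MP_666dc0_nt.Mg.G092
import Pool.Agent.Lib.MP_666dc0_nt.Mg.G093
import Pool.Agent.Lib.MP_666dc0_nt.Mg.G082
import Pool.Agent.Lib.MP_666dc0_nt.Mg.G091

section

/-!
# PL, H9: density of the systems with positive signed multiplicity, lower bounds (helper93)
-/

open NumberField IsDedekindDomain
open scoped NumberField

namespace Pool.Agent.Lib.MP_666dc0_nt.PL

open WL ZO FM

variable {F : Type} [Field F] [NumberField F] {n : ℕ} {D : Datum F n} {ℓ : ℕ} [Fact ℓ.Prime]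
  {S : Finset (HeightOneSpectrum (𝓞 F))} {U : Subgroup D.Ad} {K : ℕ → Subgroup D.Ad} {d : ℕ}

private theorem arith9 {k : ℕ} {c G C x b : Fin k → ℝ} {e q σ ε δ B : ℝ} (he : 1 ≤ e) (hq : 0 < q)
    (hσ : ∑ i, c i * G i = σ) (hσ0 : 0 < σ) (hε0 : 0 ≤ ε) (hε : (∑ i, |c i|) * ε < σ / 3)
    (hδ0 : 0 ≤ δ) (hδ : (∑ i, |c i| * |C i|) * δ < σ / 3) (hB : B ≤ δ * q) (hb0 : ∀ i, 0 ≤ b i) (hbB : ∀ i, b i ≤ B)
    (hx : ∀ i, |x i - e * G i * q| ≤ ε * q + C i * b i) : 0 < ∑ i, c i * x i := by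
  have h1 : ∀ i, c i * (e * G i * q) - |c i| * (ε * q) - |c i| * |C i| * (δ * q) ≤ c i * x i := by
    intro i
    have h2 : |c i * (x i - e * G i * q)| ≤ |c i| * (ε * q) + |c i| * |C i| * (δ * q) := by
      rw [abs_mul]
      have h3 : C i * b i ≤ |C i| * (δ * q) := (mul_le_mul_of_nonneg_right (le_abs_self _) (hb0 i)).trans
        (mul_le_mul_of_nonneg_left ((hbB i).trans hB) (abs_nonneg _))
      calc |c i| * |x i - e * G i * q| ≤ |c i| * (ε * q + |C i| * (δ * q)) :=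
            mul_le_mul_of_nonneg_left ((hx i).trans (by linarith)) (abs_nonneg _)
        _ = _ := by ring
    have h4 := (abs_le.1 h2).1
    have h5 : c i * (x i - e * G i * q) = c i * x i - c i * (e * G i * q) := by ring
    rw [h5] at h4
    linarith
  have h6 : ∑ i, (c i * (e * G i * q) - |c i| * (ε * q) - |c i| * |C i| * (δ * q)) =
      (e * σ - (∑ i, |c i|) * ε - (∑ i, |c i| * |C i|) * δ) * q := by
    rw [← hσ, Finset.sum_sub_distrib, Finset.sum_sub_distrib, sub_mul, sub_mul, Finset.mul_sum, Finset.sum_mul,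
      Finset.sum_mul, Finset.sum_mul, Finset.sum_mul, Finset.sum_mul]
    congr 1
    · congr 1
      · exact Finset.sum_congr rfl fun i _ => by ring
      · exact Finset.sum_congr rfl fun i _ => by ring
    · exact Finset.sum_congr rfl fun i _ => by ring
  have h7 : 0 < (e * σ - (∑ i, |c i|) * ε - (∑ i, |c i| * |C i|) * δ) * q := by
    apply mul_pos _ hq
    have h8 : σ ≤ e * σ := le_mul_of_one_le_left hσ0.le he
    linarith
  rw [← h6] at h7
  exact h7.trans_le (Finset.sum_le_sum fun i _ => h1 i)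

theorem dense_posSysR [IsTotallyReal F] (hD : IsTotPosDef D.q)
    (hSl : ∀ v : HeightOneSpectrum (𝓞 F), (ℓ : 𝓞 F) ∈ v.asIdeal → v ∈ S) (hU : IsTame ℓ U)
    (hUS : ∀ v, v ∉ S → IsGoodAt U v) (hK : IsUniform ℓ d U K) {R : Submodule ℂ (D.Cpx → ℂ)} (hR : IsFull D R)
    {k : ℕ} (T : Fin k → RepType D) (c : Fin k → ℝ) (I : Subgroup D.Ad) (hT : ∀ i, IsRepTypeAt ℓ U (T i))
    (hI : IsLevel ℓ U I) (hIT : ∀ i, I ≤ (T i).J) (hpos : 0 < ∑ i, c i * (T i).r / I.relIndex (T i).J) :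
    IsDenseSys (U := U) ℓ S (PosSysR S R T c) := by
  intro ι p hp hX
  obtain ⟨a, e, -, -, hP', h0⟩ := plancherel hD hSl hU hUS hK hp
  have hP := repLaw hD hSl hU hK hP'
  refine h0 ?_
  by_contra he
  have hS : SInv ℓ S (fun lam : ∀ v, Hecke U v → ℂ => ¬p lam) := fun lam h1 lam' h2 h3 h4 h5 =>
    h4 (sInv_of_closed hp lam' h2 lam h1 (fun v hv h => (h3 v hv h).symm) h5)
  have hle : ∀ Q, Q ≤ R → IsWeight D Q → ∑ i, c i * (dimR S Q (T i) (fun lam => ¬p lam) : ℝ) ≤ 0 := by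
    intro Q hQR hQ
    obtain ⟨Λ, hΛ, hsum⟩ := dimR_sum hD hSl hU hUS T hT hQ hS
    have h1 : ∑ i, c i * (dimR S Q (T i) (fun lam => ¬p lam) : ℝ) =
        ∑ lam ∈ Λ, ∑ i, c i * (dimR S Q (T i) (· = lam) : ℝ) := by
      rw [Finset.sum_comm]
      refine Finset.sum_congr rfl fun i _ => ?_
      rw [hsum i, Nat.cast_sum, Finset.mul_sum]
    rw [h1]
    refine Finset.sum_nonpos fun lam hlam => not_lt.1 fun h2 => (hΛ lam hlam).2 ?_
    exact hX lam ⟨Q, hQR, hQ, h2⟩
  have hG0 := gidx_pos hU hK hI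
  have hG : ∀ i, gidx (K 0) (T i).J = gidx (K 0) I / I.relIndex (T i).J := fun i => gidx_eq hU hK hI (hT i).level (hIT i)
  obtain ⟨σ, hσ⟩ : ∃ σ, ∑ i, c i * ((T i).r * gidx (K 0) (T i).J) = σ := ⟨_, rfl⟩
  have hσ0 : 0 < σ := by
    rw [← hσ]
    have h1 : ∑ i, c i * ((T i).r * gidx (K 0) (T i).J) = gidx (K 0) I * ∑ i, c i * (T i).r / I.relIndex (T i).J := by
      rw [Finset.mul_sum]
      refine Finset.sum_congr rfl fun i _ => ?_
      rw [hG i]
      ring
    rw [h1]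
    exact mul_pos hG0 hpos
  have hA : 0 ≤ ∑ i, |c i| := Finset.sum_nonneg fun i _ => abs_nonneg _
  have hε0 : 0 < σ / (3 * (∑ i, |c i| + 1)) := by positivity
  choose m C hm using fun i => hP (T i) (hT i) _ hε0
  have hA' : 0 ≤ ∑ i, |c i| * |C i| := Finset.sum_nonneg fun i _ => mul_nonneg (abs_nonneg _) (abs_nonneg _)
  have hδ0 : 0 < σ / (3 * (∑ i, |c i| * |C i| + 1)) := by positivity
  obtain ⟨Q, hQR, hQ, hQ0, hQb⟩ := hR.exists_weight (∑ i, m i) _ hδ0
  have hfin : FiniteDimensional ℂ Q := (Submodule.fg_iff_finiteDimensional _).1 hQ.fg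
  have hq : 0 < (Module.finrank ℂ Q : ℝ) := by
    have h1 : 0 < Module.finrank ℂ Q := by
      rw [Module.finrank_pos_iff]
      exact Submodule.nontrivial_iff_ne_bot.2 hQ0
    exact_mod_cast h1
  refine absurd (hle Q hQR hQ) (not_le.2 ?_)
  refine arith9 (G := fun i => (T i).r * gidx (K 0) (T i).J) (C := C) (b := fun i => bdry Q (m i)) (e := e)
    (by exact_mod_cast Nat.one_le_iff_ne_zero.2 he) hq hσ hσ0 hε0.le ?_ hδ0.le ?_ hQb (fun i => bdry_nonneg hQ _)
    (fun i => bdry_mono hQ (Finset.single_le_sum (fun _ _ => Nat.zero_le _) (Finset.mem_univ i))) fun i => ?_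
  · rw [← mul_div_assoc, div_lt_div_iff₀ (by positivity) (by norm_num)]
    nlinarith
  · rw [← mul_div_assoc, div_lt_div_iff₀ (by positivity) (by norm_num)]
    nlinarith
  · have h1 := hm i Q hQ
    rwa [mul_assoc (e : ℝ)] at h1

theorem atLeast_dimR [IsTotallyReal F] (hD : IsTotPosDef D.q)
    (hSl : ∀ v : HeightOneSpectrum (𝓞 F), (ℓ : 𝓞 F) ∈ v.asIdeal → v ∈ S) (hU : IsTame ℓ U) (hK : IsUniform ℓ d U K)
    {p q : (∀ v, Hecke U v → ℂ) → Prop} {e : ℕ} (he : e ≠ 0) (hp : IsPlancherel ℓ S (K 0) p e)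
    (hpq : ∀ lam, p lam → q lam) {T : RepType D} (hT : IsRepTypeAt ℓ U T) :
    IsAtLeast D (T.r * gidx (K 0) T.J) fun Q => dimR S Q T q := by
  intro ε hε
  obtain ⟨m, C, h⟩ := repLaw hD hSl hU hK hp T hT ε hε
  refine ⟨m, C, fun Q hQ => ?_⟩
  have h1 := (abs_le.1 (h Q hQ)).1
  have h2 : (dimR S Q T p : ℝ) ≤ dimR S Q T q := by exact_mod_cast dimR_mono hD hT hQ hpq
  have h3 := gidx_pos hU hK hT.level
  have h4 : (1 : ℝ) ≤ e := by exact_mod_cast Nat.one_le_iff_ne_zero.2 he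
  have h5 : T.r * gidx (K 0) T.J * Module.finrank ℂ Q ≤ e * T.r * gidx (K 0) T.J * Module.finrank ℂ Q := by
    have h6 : (e : ℝ) * T.r * gidx (K 0) T.J * Module.finrank ℂ Q = e * (T.r * gidx (K 0) T.J * Module.finrank ℂ Q) := by ring
    rw [h6]
    exact le_mul_of_one_le_left (mul_nonneg (mul_nonneg (Nat.cast_nonneg _) h3.le) (Nat.cast_nonneg _)) h4
  linarith

end Pool.Agent.Lib.MP_666dc0_nt.PL
end

section

/-!
# PL, F1: from the law to abundance
-/

open NumberField IsDedekindDomain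
open scoped NumberField

namespace Pool.Agent.Lib.MP_666dc0_nt.PL

open WL ZO FM

variable {F : Type} [Field F] [NumberField F] {n : ℕ} {D : Datum F n} {ℓ : ℕ} [Fact ℓ.Prime]
  {S : Finset (HeightOneSpectrum (𝓞 F))} {U : Subgroup D.Ad} {K : ℕ → Subgroup D.Ad} {d : ℕ}

theorem IsFolner.pos {Q : ℕ → Submodule ℂ (D.Cpx → ℂ)} (hQ : IsFolner D Q) :
    ∀ᶠ d in Filter.atTop, (0 : ℝ) < Module.finrank ℂ (Q d) := by
  filter_upwards [(hQ.tendsto 0).eventually (lt_mem_nhds (show (0 : ℝ) < 1 from one_pos))] with d hd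
  by_contra h
  have h1 : (Module.finrank ℂ (Q d) : ℝ) = 0 := le_antisymm (not_lt.1 h) (Nat.cast_nonneg _)
  rw [h1, div_zero] at hd
  exact lt_irrefl _ hd

theorem IsFolner.small {Q : ℕ → Submodule ℂ (D.Cpx → ℂ)} (hQ : IsFolner D Q) (m : ℕ) (C : ℝ) {ε : ℝ} (hε : 0 < ε) :
    ∀ᶠ d in Filter.atTop, C * bdry (Q d) m ≤ ε * Module.finrank ℂ (Q d) := by
  have h1 : (1 : ℝ) - ε / (|C| + 1) < 1 := by
    have : 0 < ε / (|C| + 1) := by positivity
    linarith
  filter_upwards [(hQ.tendsto m).eventually (lt_mem_nhds h1), hQ.pos] with d hd hd0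
  have h2 : bdry (Q d) m ≤ ε / (|C| + 1) * Module.finrank ℂ (Q d) := by
    rw [lt_div_iff₀ hd0] at hd
    unfold bdry
    linarith
  have h3 := bdry_nonneg (hQ.weight d) m
  calc C * bdry (Q d) m ≤ (|C| + 1) * bdry (Q d) m :=
        mul_le_mul_of_nonneg_right ((le_abs_self C).trans (by linarith)) h3
    _ ≤ (|C| + 1) * (ε / (|C| + 1) * Module.finrank ℂ (Q d)) := mul_le_mul_of_nonneg_left h2 (by positivity)
    _ = ε * Module.finrank ℂ (Q d) := by field_simp

theorem law_ev {a : ℕ} {K₀ : Subgroup D.Ad} {p : (∀ v, Hecke U v → ℂ) → Prop} (hp : IsPlancherel ℓ S K₀ p a)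
    {Q : ℕ → Submodule ℂ (D.Cpx → ℂ)} (hQ : IsFolner D Q) {T : AdType D} (hT : IsTypeAt ℓ U T) {ε : ℝ} (hε : 0 < ε) :
    ∀ᶠ d in Filter.atTop, |(dimT S (Q d) T p : ℝ) - a * gidx K₀ T.J * Module.finrank ℂ (Q d)| ≤
      ε * Module.finrank ℂ (Q d) := by
  obtain ⟨m, C, h⟩ := hp T hT (ε / 2) (half_pos hε)
  filter_upwards [hQ.small m C (half_pos hε)] with d hd
  have h1 := h (Q d) (hQ.weight d)
  linarith

theorem repLaw_ev {a : ℕ} {K₀ : Subgroup D.Ad} {p : (∀ v, Hecke U v → ℂ) → Prop} (hp : IsRepLaw ℓ S K₀ p a)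
    {Q : ℕ → Submodule ℂ (D.Cpx → ℂ)} (hQ : IsFolner D Q) {T : RepType D} (hT : IsRepTypeAt ℓ U T) {ε : ℝ} (hε : 0 < ε) :
    ∀ᶠ d in Filter.atTop, |(dimR S (Q d) T p : ℝ) - a * T.r * gidx K₀ T.J * Module.finrank ℂ (Q d)| ≤
      ε * Module.finrank ℂ (Q d) := by
  obtain ⟨m, C, h⟩ := hp T hT (ε / 2) (half_pos hε)
  filter_upwards [hQ.small m C (half_pos hε)] with d hd
  have h1 := h (Q d) (hQ.weight d)
  linarith

/-- The constant of the law for the trivial property. -/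
theorem eq_zero_of_never [IsTotallyReal F] (hU : IsTame ℓ U) (hK : IsUniform ℓ d U K)
    {p : (∀ v, Hecke U v → ℂ) → Prop} (hp0 : ∀ lam, ¬p lam) {e : ℕ} (hp : IsPlancherel ℓ S (K 0) p e) : e = 0 := by
  by_contra he
  have hT := isTypeAt_trivType (hK.level 0)
  have hG := gidx_pos hU hK (hK.level 0)
  obtain ⟨m, C, h⟩ := hp _ hT (gidx (K 0) (K 0) / 3) (by linarith)
  obtain ⟨Q, -, hQ, hQ0, hb⟩ := (isFull_poly D).exists_weight m (gidx (K 0) (K 0) / (3 * (|C| + 1))) (by positivity)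
  have hfin : FiniteDimensional ℂ Q := (Submodule.fg_iff_finiteDimensional _).1 hQ.fg
  have hq : 0 < (Module.finrank ℂ Q : ℝ) := by
    have h1 : 0 < Module.finrank ℂ Q := by
      rw [Module.finrank_pos_iff]
      exact Submodule.nontrivial_iff_ne_bot.2 hQ0
    exact_mod_cast h1
  have h1 := h Q hQ
  have h2 : dimT S Q (trivType (K 0)) p = 0 := by
    unfold dimT tspan
    have h3 : {f : D.Ad → D.Cpx → ℂ | IsTypeForm D Q U (trivType (K 0)) f ∧ ∃ lam, IsEigen S f lam ∧ p lam} = ∅ := by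
      ext f
      simp only [Set.mem_setOf_eq, Set.mem_empty_iff_false, iff_false, not_and, not_exists]
      exact fun _ lam _ h => hp0 lam h
    rw [h3, Submodule.span_empty, finrank_bot]
  rw [h2, Nat.cast_zero, zero_sub, abs_neg] at h1
  have h3 := (le_abs_self _).trans h1
  have h4 : (1 : ℝ) ≤ e := by exact_mod_cast Nat.one_le_iff_ne_zero.2 he
  have h5 : C * bdry Q m ≤ gidx (K 0) (K 0) / 3 * Module.finrank ℂ Q := by
    calc C * bdry Q m ≤ (|C| + 1) * bdry Q m :=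
          mul_le_mul_of_nonneg_right ((le_abs_self C).trans (by linarith)) (bdry_nonneg hQ m)
      _ ≤ (|C| + 1) * (gidx (K 0) (K 0) / (3 * (|C| + 1)) * Module.finrank ℂ Q) :=
          mul_le_mul_of_nonneg_left hb (by positivity)
      _ = gidx (K 0) (K 0) / 3 * Module.finrank ℂ Q := by field_simp
  have h6 : gidx (K 0) (K 0) * Module.finrank ℂ Q ≤ e * gidx (K 0) (trivType (K 0)).J * Module.finrank ℂ Q := by
    have h7 : (trivType (K 0)).J = K 0 := rfl
    rw [h7, mul_assoc]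
    exact le_mul_of_one_le_left (mul_nonneg hG.le hq.le) h4
  have h7 : 0 < gidx (K 0) (K 0) * Module.finrank ℂ Q := mul_pos hG hq
  linarith

/-- The law for all systems. -/
theorem law_true [IsTotallyReal F] (hD : IsTotPosDef D.q)
    (hSl : ∀ v : HeightOneSpectrum (𝓞 F), (ℓ : 𝓞 F) ∈ v.asIdeal → v ∈ S) (hU : IsTame ℓ U)
    (hUS : ∀ v, v ∉ S → IsGoodAt U v) (hK : IsUniform ℓ d U K) (ι : ℂ ≃+* PadicAlgCl ℓ) :
    IsPlancherel (U := U) ℓ S (K 0) (fun _ => True) (dimE S (constSub D) U (K 0) fun _ => True) := by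
  have hcl : IsClosedProp (U := U) ℓ S ι (fun _ => True) := fun _ _ _ => trivial
  obtain ⟨a, e, hae, ha, he, -⟩ := plancherel hD hSl hU hUS hK hcl
  have he0 := eq_zero_of_never hU hK (fun _ => not_not.2 trivial) he
  rw [he0, add_zero] at hae
  rw [← hae]
  exact ha

private theorem share_arith {g r c ε ε' q x y : ℝ} (hr : 0 < r) (hc : 0 ≤ c) (hε' : 0 ≤ ε')
    (h : ε' * (1 + c / r) ≤ ε * r * g) (hq : 0 ≤ q) (hx0 : 0 ≤ x) (hy0 : 0 ≤ y) (hx : c * g * q - ε' * q ≤ x)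
    (hy : y ≤ r * g * q + ε' * q) (hε : 0 ≤ ε) : (c / r - ε) * y ≤ x := by
  by_cases hcr : c / r - ε ≤ 0
  · exact (mul_nonpos_of_nonpos_of_nonneg hcr hy0).trans hx0
  · push Not at hcr
    have h1 : (c / r - ε) * y ≤ (c / r - ε) * ((r * g + ε') * q) :=
      mul_le_mul_of_nonneg_left (hy.trans_eq (by ring)) hcr.le
    have h2 : (c / r - ε) * ((r * g + ε') * q) = (c * g - ε * r * g + (c / r) * ε' - ε * ε') * q := by
      field_simp
      ring
    have h3 : c * g - ε * r * g + (c / r) * ε' - ε * ε' ≤ c * g - ε' := by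
      have h4 : 0 ≤ ε * ε' := mul_nonneg hε hε'
      have h5 : ε' * (1 + c / r) = ε' + (c / r) * ε' := by ring
      linarith
    have h6 := mul_le_mul_of_nonneg_right h3 hq
    rw [h2] at h1
    have h7 : (c * g - ε') * q = c * g * q - ε' * q := by ring
    linarith

theorem dimR_eq_zero {Q : Submodule ℂ (D.Cpx → ℂ)} {T : RepType D} (hT : T.r = 0) (p : (∀ v, Hecke U v → ℂ) → Prop) :
    dimR S Q T p = 0 := by
  have h1 : IsEmpty (Fin T.r) := by
    rw [hT]
    infer_instance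
  rw [dimR_def]
  have h2 : Subsingleton (rspan S Q T p) := ⟨fun a b => Subtype.ext (funext fun i => isEmptyElim i)⟩
  exact Module.finrank_zero_of_subsingleton

theorem dimN_le_dimT [IsTotallyReal F] (hD : IsTotPosDef D.q) {k : ℕ} {I : Subgroup D.Ad} (hI : IsLevel ℓ U I)
    (P : Fin k → Subgroup D.Ad) {Q : Submodule ℂ (D.Cpx → ℂ)} (hQ : IsWeight D Q)
    (p : (∀ v, Hecke U v → ℂ) → Prop) : dimN U S Q I P p ≤ dimT S Q (trivType I) p := by
  have h1 := finite_typeForms hD (isTypeAt_trivType hI) hQ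
  have h2 : FiniteDimensional ℂ (tspan S Q (trivType I) p) := Submodule.finiteDimensional_of_le (tspan_le Q _ p)
  refine Submodule.finrank_mono (Submodule.span_mono ?_)
  rintro f ⟨hf, lam, he, hl⟩
  exact ⟨isTypeForm_trivType hf.form, lam, he, hl⟩

theorem isAbundantSys [IsTotallyReal F] (hD : IsTotPosDef D.q)
    (hSl : ∀ v : HeightOneSpectrum (𝓞 F), (ℓ : 𝓞 F) ∈ v.asIdeal → v ∈ S) (hU : IsTame ℓ U)
    (hUS : ∀ v, v ∉ S → IsGoodAt U v) (hK : IsUniform ℓ d U K) {ι : ℂ ≃+* PadicAlgCl ℓ}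
    {p w : (∀ v, Hecke U v → ℂ) → Prop} (hp : IsClosedProp ℓ S ι p) {lam₀ : ∀ v, Hecke U v → ℂ}
    (h₀ : lam₀ ∈ AllSys ℓ S U) (hp0 : ¬p lam₀) (hpw : ∀ lam, ¬p lam → w lam) :
    0 < dimE S (constSub D) U (K 0) (fun _ => True) ∧
      IsAbundantSys ℓ S U (dimE S (constSub D) U (K 0) fun _ => True) w := by
  obtain ⟨a, e, hae, -, hPl, h0⟩ := plancherel hD hSl hU hUS hK hp
  have hr' := law_true hD hSl hU hUS hK ι
  have he0 : e ≠ 0 := fun h => hp0 (h0 h lam₀ h₀)
  have he1 : (1 : ℝ) ≤ e := by exact_mod_cast Nat.one_le_iff_ne_zero.2 he0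
  set r : ℕ := dimE S (constSub D) U (K 0) fun _ => True with hr
  have hr0 : 0 < r := by omega
  have hr1 : (0 : ℝ) < r := by exact_mod_cast hr0
  have hR := repLaw hD hSl hU hK hPl
  have hRt := repLaw hD hSl hU hK hr'
  have hS : SInv ℓ S (fun lam : ∀ v, Hecke U v → ℂ => ¬p lam) := fun lam h1 lam' h2 h3 h4 h5 =>
    h4 (sInv_of_closed hp lam' h2 lam h1 (fun v hv h => (h3 v hv h).symm) h5)
  refine ⟨hr0, ⟨?_, ?_, ?_⟩⟩
  · intro Q hQ k T c I hT hI hIT hpos
    have hG0 := gidx_pos hU hK hI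
    have hG : ∀ i, gidx (K 0) (T i).J = gidx (K 0) I / I.relIndex (T i).J := fun i =>
      gidx_eq hU hK hI (hT i).level (hIT i)
    obtain ⟨σ, hσ⟩ : ∃ σ, ∑ i, c i * ((T i).r * gidx (K 0) (T i).J) = σ := ⟨_, rfl⟩
    have hσ0 : 0 < σ := by
      rw [← hσ]
      have h1 : ∑ i, c i * ((T i).r * gidx (K 0) (T i).J) = gidx (K 0) I * ∑ i, c i * (T i).r / I.relIndex (T i).J := by
        rw [Finset.mul_sum]
        refine Finset.sum_congr rfl fun i _ => ?_
        rw [hG i]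
        ring
      rw [h1]
      exact mul_pos hG0 hpos
    have hA : 0 ≤ ∑ i, |c i| := Finset.sum_nonneg fun i _ => abs_nonneg _
    have hε0 : 0 < σ / (2 * (∑ i, |c i| + 1)) := by positivity
    have hev : ∀ᶠ d in Filter.atTop, ∀ i, |(dimR S (Q d) (T i) (fun lam => ¬p lam) : ℝ) -
        e * (T i).r * gidx (K 0) (T i).J * Module.finrank ℂ (Q d)| ≤
          σ / (2 * (∑ i, |c i| + 1)) * Module.finrank ℂ (Q d) :=
      Filter.eventually_all.2 fun i => repLaw_ev hR hQ (hT i) hε0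
    filter_upwards [hev, hQ.pos] with d hd hq
    have h1 : 0 < ∑ i, c i * (dimR S (Q d) (T i) (fun lam => ¬p lam) : ℝ) := by
      have h2 : ∀ i, c i * (e * (T i).r * gidx (K 0) (T i).J * Module.finrank ℂ (Q d)) -
          |c i| * (σ / (2 * (∑ i, |c i| + 1)) * Module.finrank ℂ (Q d)) ≤
            c i * dimR S (Q d) (T i) (fun lam => ¬p lam) := by
        intro i
        have h3 : |c i * ((dimR S (Q d) (T i) (fun lam => ¬p lam) : ℝ) -
            e * (T i).r * gidx (K 0) (T i).J * Module.finrank ℂ (Q d))| ≤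
              |c i| * (σ / (2 * (∑ i, |c i| + 1)) * Module.finrank ℂ (Q d)) := by
          rw [abs_mul]
          exact mul_le_mul_of_nonneg_left (hd i) (abs_nonneg _)
        have h4 := (abs_le.1 h3).1
        rw [mul_sub] at h4
        linarith
      refine lt_of_lt_of_le ?_ (Finset.sum_le_sum fun i _ => h2 i)
      rw [Finset.sum_sub_distrib, ← Finset.sum_mul]
      have h5 : ∑ i, c i * (e * (T i).r * gidx (K 0) (T i).J * Module.finrank ℂ (Q d)) =
          e * σ * Module.finrank ℂ (Q d) := by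
        rw [← hσ, Finset.mul_sum, Finset.sum_mul]
        exact Finset.sum_congr rfl fun i _ => by ring
      rw [h5]
      have h6 : (∑ i, |c i|) * (σ / (2 * (∑ i, |c i| + 1)) * Module.finrank ℂ (Q d)) ≤
          σ / 2 * Module.finrank ℂ (Q d) := by
        rw [← mul_assoc]
        refine mul_le_mul_of_nonneg_right ?_ hq.le
        rw [← mul_div_assoc, div_le_div_iff₀ (by positivity) (by norm_num)]
        nlinarith
      have h7 : σ * Module.finrank ℂ (Q d) ≤ e * σ * Module.finrank ℂ (Q d) := by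
        rw [mul_assoc]
        exact le_mul_of_one_le_left (mul_nonneg hσ0.le hq.le) he1
      have h8 : 0 < σ * Module.finrank ℂ (Q d) := mul_pos hσ0 hq
      linarith
    obtain ⟨Λ, hΛ, hsum⟩ := dimR_sum hD hSl hU hUS T hT (hQ.weight d) hS
    have h2 : ∑ i, c i * (dimR S (Q d) (T i) (fun lam => ¬p lam) : ℝ) =
        ∑ lam ∈ Λ, ∑ i, c i * (dimR S (Q d) (T i) (· = lam) : ℝ) := by
      rw [Finset.sum_comm]
      refine Finset.sum_congr rfl fun i _ => ?_
      rw [hsum i, Nat.cast_sum, Finset.mul_sum]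
    rw [h2] at h1
    obtain ⟨lam, hlam, hpos'⟩ := Finset.exists_lt_of_sum_lt (s := Λ) (f := fun _ => (0 : ℝ)) (by simpa using h1)
    exact ⟨lam, hpw lam (hΛ lam hlam).2, hpos'⟩
  · intro Q hQ T hT ε hε
    by_cases hTr : T.r = 0
    · refine Filter.Eventually.of_forall fun d => ?_
      rw [dimR_eq_zero hTr, dimR_eq_zero hTr, Nat.cast_zero, mul_zero]
    have hg : 0 < T.r * gidx (K 0) T.J := mul_pos (by exact_mod_cast Nat.pos_of_ne_zero hTr) (gidx_pos hU hK hT.level)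
    have hε' : 0 < ε * r * (T.r * gidx (K 0) T.J) / (1 + 1 / r) := by positivity
    filter_upwards [repLaw_ev hR hQ hT hε', repLaw_ev hRt hQ hT hε', hQ.pos] with d h1 h2 hq
    have h3 : (dimR S (Q d) T (fun lam => ¬p lam) : ℝ) ≤ dimR S (Q d) T w := by
      exact_mod_cast dimR_mono hD hT (hQ.weight d) hpw
    refine share_arith (g := T.r * gidx (K 0) T.J) (c := 1) hr1 zero_le_one hε'.le (le_of_eq ?_) hq.le
      (Nat.cast_nonneg _) (Nat.cast_nonneg _) (le_trans ?_ h3) ?_ hε.le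
    · field_simp
    · have h4 := (abs_le.1 h1).1
      have h5 : 1 * (T.r * gidx (K 0) T.J) * Module.finrank ℂ (Q d) ≤
          e * T.r * gidx (K 0) T.J * Module.finrank ℂ (Q d) := by
        have h6 : (e : ℝ) * T.r * gidx (K 0) T.J * Module.finrank ℂ (Q d) =
            e * (T.r * gidx (K 0) T.J * Module.finrank ℂ (Q d)) := by ring
        rw [h6, one_mul]
        exact le_mul_of_one_le_left (mul_nonneg hg.le hq.le) he1
      linarith
    · have h4 := (abs_le.1 h2).2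
      have h5 : (r : ℝ) * T.r * gidx (K 0) T.J * Module.finrank ℂ (Q d) =
          r * (T.r * gidx (K 0) T.J) * Module.finrank ℂ (Q d) := by ring
      linarith
  · intro Q hQ k P I hP hI hIP hs ε hε
    set s : ℝ := ∑ j, 1 / (I.relIndex (P j) : ℝ) with hsdef
    have hG0 := gidx_pos hU hK hI
    have hG : ∀ j, gidx (K 0) (P j) = gidx (K 0) I / I.relIndex (P j) := fun j => gidx_eq hU hK hI (hP j) (hIP j)
    have hs0 : 0 ≤ 1 - s := by linarith
    have hε' : 0 < ε * r * gidx (K 0) I / (1 + (1 - s) / r) := by positivity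
    have hε'' : 0 < ε * r * gidx (K 0) I / (1 + (1 - s) / r) / (k + 1) := by positivity
    have hev : ∀ᶠ d in Filter.atTop, ∀ j, |(dimT S (Q d) (trivType (P j)) (fun lam => ¬p lam) : ℝ) -
        e * gidx (K 0) (P j) * Module.finrank ℂ (Q d)| ≤
          ε * r * gidx (K 0) I / (1 + (1 - s) / r) / (k + 1) * Module.finrank ℂ (Q d) :=
      Filter.eventually_all.2 fun j => law_ev hPl hQ (isTypeAt_trivType (hP j)) hε''
    filter_upwards [hev, law_ev hPl hQ (isTypeAt_trivType hI) hε'', law_ev hr' hQ (isTypeAt_trivType hI) hε', hQ.pos]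
      with d h1 h2 h3 hq
    have h4 := dimT_le_dimN_add hD hSl hU (hQ.weight d) I P hI hP hS
    have h5 : dimN U S (Q d) I P (fun lam => ¬p lam) ≤ dimN U S (Q d) I P w := dimN_mono hD hI P (hQ.weight d) hpw
    have h6 : (dimT S (Q d) (trivType I) (fun lam => ¬p lam) : ℝ) ≤ dimN U S (Q d) I P w +
        ∑ j, (dimT S (Q d) (trivType (P j)) (fun lam => ¬p lam) : ℝ) := by
      exact_mod_cast h4.trans (Nat.add_le_add_right h5 _)
    have h7 : dimN U S (Q d) I P (fun _ => True) ≤ dimT (U := U) S (Q d) (trivType I) (fun _ => True) :=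
      dimN_le_dimT hD hI P (hQ.weight d) _
    have h7' : (dimN U S (Q d) I P (fun _ => True) : ℝ) ≤ dimT (U := U) S (Q d) (trivType I) (fun _ => True) := by
      exact_mod_cast h7
    refine share_arith (g := gidx (K 0) I) (c := 1 - s) hr1 hs0 hε'.le (le_of_eq ?_) hq.le
      (Nat.cast_nonneg _) (Nat.cast_nonneg _) ?_ ?_ hε.le
    · have : 1 + (1 - s) / r ≠ 0 := by positivity
      rw [div_mul_cancel₀ _ this]
    · set η : ℝ := ε * r * gidx (K 0) I / (1 + (1 - s) / r) with hη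
      set q : ℝ := (Module.finrank ℂ (Q d) : ℝ) with hqdef
      have h8 : ∑ j, (dimT S (Q d) (trivType (P j)) (fun lam => ¬p lam) : ℝ) ≤
          e * (gidx (K 0) I * s) * q + k * (η / (k + 1) * q) := by
        have h9 : ∀ j, (dimT S (Q d) (trivType (P j)) (fun lam => ¬p lam) : ℝ) ≤
            e * gidx (K 0) (P j) * q + η / (k + 1) * q := fun j => by
          have := (abs_le.1 (h1 j)).2
          linarith
        have h13 : ∑ j, gidx (K 0) (P j) = gidx (K 0) I * s := by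
          rw [hsdef, Finset.mul_sum]
          refine Finset.sum_congr rfl fun j _ => ?_
          rw [hG j]
          ring
        refine (Finset.sum_le_sum fun j _ => h9 j).trans_eq ?_
        rw [Finset.sum_add_distrib, Finset.sum_const, Finset.card_univ, Fintype.card_fin, nsmul_eq_mul,
          ← Finset.sum_mul, ← Finset.mul_sum, h13]
      have h9 := (abs_le.1 h2).1
      have h10 : (trivType I).J = I := rfl
      rw [h10] at h9
      have h11 : η / (k + 1) * q + k * (η / (k + 1) * q) = η * q := by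
        field_simp
        ring
      have h12 : (1 - s) * gidx (K 0) I * q ≤ e * ((1 - s) * gidx (K 0) I * q) :=
        le_mul_of_one_le_left (mul_nonneg (mul_nonneg hs0 hG0.le) hq.le) he1
      nlinarith
    · have h9 := (abs_le.1 h3).2
      have h10 : (trivType I).J = I := rfl
      rw [h10] at h9
      linarith

theorem tendsto_share [IsTotallyReal F] (hD : IsTotPosDef D.q)
    (hSl : ∀ v : HeightOneSpectrum (𝓞 F), (ℓ : 𝓞 F) ∈ v.asIdeal → v ∈ S) (hU : IsTame ℓ U)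
    (hUS : ∀ v, v ∉ S → IsGoodAt U v) (hK : IsUniform ℓ d U K) {ι : ℂ ≃+* PadicAlgCl ℓ}
    {p : (∀ v, Hecke U v → ℂ) → Prop} (hp : IsClosedProp ℓ S ι p)
    (hr0 : 0 < dimE S (constSub D) U (K 0) (fun _ => True)) :
    ∃ a : ℕ, a ≤ dimE S (constSub D) U (K 0) (fun _ => True) ∧
      (a = dimE S (constSub D) U (K 0) (fun _ => True) → ∀ lam ∈ AllSys ℓ S U, p lam) ∧
      ∀ Q, IsFolner D Q → ∀ T, IsRepTypeAt ℓ U T → T.r ≠ 0 →
        Filter.Tendsto (fun d => (dimR S (Q d) T p : ℝ) / dimR (U := U) S (Q d) T fun _ => True) Filter.atTop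
          (nhds (a / dimE S (constSub D) U (K 0) (fun _ => True))) := by
  obtain ⟨a, e, hae, ha, -, h0⟩ := plancherel hD hSl hU hUS hK hp
  have hr' := law_true hD hSl hU hUS hK ι
  set r : ℕ := dimE S (constSub D) U (K 0) fun _ => True with hr
  have hr1 : (0 : ℝ) < r := by exact_mod_cast hr0
  have hR := repLaw hD hSl hU hK ha
  have hRt := repLaw hD hSl hU hK hr'
  refine ⟨a, by omega, fun h => h0 (by omega), fun Q hQ T hT hTr => ?_⟩
  have hg : 0 < T.r * gidx (K 0) T.J := mul_pos (by exact_mod_cast Nat.pos_of_ne_zero hTr) (gidx_pos hU hK hT.level)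
  have key : ∀ {b : ℕ} {q : (∀ v, Hecke U v → ℂ) → Prop}, IsRepLaw ℓ S (K 0) q b →
      Filter.Tendsto (fun d => (dimR S (Q d) T q : ℝ) / Module.finrank ℂ (Q d)) Filter.atTop
        (nhds (b * (T.r * gidx (K 0) T.J))) := by
    intro b q hq
    rw [Metric.tendsto_nhds]
    intro ε hε
    filter_upwards [repLaw_ev hq hQ hT (half_pos hε), hQ.pos] with d h1 h2
    rw [Real.dist_eq]
    have h3 : (dimR S (Q d) T q : ℝ) / Module.finrank ℂ (Q d) - b * (T.r * gidx (K 0) T.J) =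
        ((dimR S (Q d) T q : ℝ) - b * T.r * gidx (K 0) T.J * Module.finrank ℂ (Q d)) / Module.finrank ℂ (Q d) := by
      field_simp
    rw [h3, abs_div, abs_of_pos h2, div_lt_iff₀ h2]
    have h4 : ε / 2 * (Module.finrank ℂ (Q d) : ℝ) < ε * Module.finrank ℂ (Q d) := by nlinarith
    linarith
  have h1 := (key hR).div (key hRt) (mul_pos hr1 hg).ne'
  have h2 : (a : ℝ) * (T.r * gidx (K 0) T.J) / (r * (T.r * gidx (K 0) T.J)) = a / r := by
    rw [mul_div_mul_right _ _ hg.ne']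
  rw [h2] at h1
  refine h1.congr' ?_
  filter_upwards [hQ.pos] with d hd
  exact div_div_div_cancel_right₀ hd.ne' _ _

end Pool.Agent.Lib.MP_666dc0_nt.PL
end
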