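import Pool.Agent.Lib.MP_666dc0_nt.Mg.G083
import Pool.Agent.Lib.MP_666dc0_nt.Mg.G082
import Pool.Agent.Lib.MP_666dc0_nt.Mg.G095
import Pool.Agent.Lib.MP_666dc0_nt.PL.G3
import Pool.Agent.Lib.MP_666dc0_nt.Mg.G091

section

/-!
# PL, Main
-/

open NumberField IsDedekindDomain TensorProduct
open scoped NumberField TensorProduct

namespace Pool.Agent.Lib.MP_666dc0_nt.PL

open WL ZO FM

/-- There are forms of weight zero. -/
theorem dimE_const_pos {F : Type} [Field F] [NumberField F] [IsTotallyReal F] {n : ℕ} {D : Datum F n}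
    (hD : IsTotPosDef D.q) {ℓ : ℕ} (S : Finset (HeightOneSpectrum (𝓞 F))) {U K₀ : Subgroup D.Ad} (hK₀ : IsLevel ℓ U K₀) :
    0 < dimE S (constSub D) U K₀ (fun _ => True) := by
  have hfin := finiteDimensional_espan (S := S) hD hK₀.isOpen (isWeight_const (D := D))
    (fun _ : ∀ v, Hecke U v → ℂ => True)
  let f : D.Ad → D.Cpx → ℂ := fun _ _ => 1
  have hf : f ∈ espan S (constSub D) (U ⊔ K₀) (fun _ : ∀ v, Hecke U v → ℂ => True) := by
    refine Submodule.subset_span ⟨⟨fun g => Submodule.subset_span rfl, fun _ _ _ => rfl, fun _ _ _ => rfl⟩,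
      fun v h => h.1.sum fun _ a => (a : ℂ), fun v hv h => ?_, trivial⟩
    funext g x
    unfold Hecke.act Finsupp.sum
    simp only [Finset.sum_apply, Pi.smul_apply, smul_eq_mul, f, mul_one]
  have hne : f ≠ 0 := fun h => one_ne_zero (congrFun (congrFun h 1) 1)
  have : Nontrivial (espan S (constSub D) (U ⊔ K₀) (fun _ : ∀ v, Hecke U v → ℂ => True)) :=
    ⟨⟨⟨f, hf⟩, 0, fun h => hne (congrArg Subtype.val h)⟩⟩
  exact Module.finrank_pos

theorem main {F : Type} [Field F] [NumberField F] [IsTotallyReal F] {n : ℕ} {D : Datum F n}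
    (hD : IsTotPosDef D.q) {ℓ : ℕ} [Fact ℓ.Prime]
    {B : Type} [CommRing B] [IsDomain B] [IsPrincipalIdealRing B] [Algebra B ℚ]
    [IsFractionRing B ℚ] [Algebra B (PadicAlgCl ℓ)]
    {O : Type} [CommRing O] [HopfAlgebra B O] [Algebra.FiniteType B O] [Module.Free B O]
    (hO : LinearlyReductive (ℚ ⊗[B] O)) (A : OverB.HopfAction B Gal(AlgebraicClosure F/F) O)
    (hA : IsOpen (A.act.ker : Set Gal(AlgebraicClosure F/F)))
    {S : Finset (HeightOneSpectrum (𝓞 F))}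
    (hS : ∀ v, v ∉ S → ∀ P u, IsInertiaAt v P u → A.act u = 1)
    (hSl : ∀ v : HeightOneSpectrum (𝓞 F), (ℓ : 𝓞 F) ∈ v.asIdeal → v ∈ S)
    (φ : HeightOneSpectrum (𝓞 F) → Gal(AlgebraicClosure F/F))
    (hφ : ∀ v, v ∉ S → ∃ P : Ideal (𝓞 (AlgebraicClosure F)), IsOver v P ∧
      (IsFrob v P (φ v) ∨ IsFrob v P (φ v)⁻¹))
    {U K₁ : Subgroup D.Ad} (hU : IsTame ℓ U) (hK₁ : IsLevel ℓ U K₁) (hUS : ∀ v, v ∉ S → IsGoodAt U v)
    (sat : ∀ v, InvFun A (φ v) → Hecke U v) (hsat : ∀ v f, (sat v f).IsIntegral ℓ) :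
    ∃ r : ℕ, 0 < r ∧
    (∀ Q, (∀ d, IsWeight D (Q d)) → (∀ d, Q d ≤ polyLE D d) → Filter.Tendsto
      (fun d => (Module.finrank ℂ (Q d) : ℝ) / Module.finrank ℂ (polyLE D d)) Filter.atTop (nhds 1) → IsFolner D Q) ∧
    (∀ ι (p : (∀ v, Hecke U v → ℂ) → Prop), IsClosedProp ℓ S ι p →
      (∃ a : ℕ, a ≤ r ∧ (a = r → ∀ lam ∈ AllSys ℓ S U, p lam) ∧
        ∀ Q, IsFolner D Q → ∀ T, IsRepTypeAt ℓ U T → T.r ≠ 0 →
          Filter.Tendsto (fun d => (dimR S (Q d) T p : ℝ) / dimR (U := U) S (Q d) T fun _ => True) Filter.atTop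
            (nhds (a / r))) ∧
      ∀ lam₀ ∈ AllSys ℓ S U, ¬p lam₀ → IsAbundantSys ℓ S U r fun lam => SameRes ℓ S ι lam lam₀ ∧ ¬p lam) ∧
    ∀ lam₀ ∈ AllSys ℓ S U, ¬BGSys ℓ A S φ sat lam₀ → ∃ ι : ℂ ≃+* PadicAlgCl ℓ,
      IsAbundantSys ℓ S U r fun lam => SameRes ℓ S ι lam lam₀ ∧ ¬BGSys ℓ A S φ sat lam := by
  obtain ⟨d, K, hK, -⟩ := exists_isUniform hU hK₁
  have hr0 := dimE_const_pos hD S (hK.level 0)
  refine ⟨dimE S (constSub D) U (K 0) (fun _ => True), hr0,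
    fun Q hQ hle h => isFolner_of_tendsto hQ hle h, fun ι p hp => ⟨tendsto_share hD hSl hU hUS hK hp hr0,
      fun lam₀ h₀ hp0 => ?_⟩, fun lam₀ h₀ hbg => ?_⟩
  · have hint := norm_pval_le_one (ι := ι) hD hSl hU hUS
    refine (isAbundantSys hD hSl hU hUS hK (isClosedProp_or hint (isClosedProp_not_sameRes hint h₀) hp) h₀ ?_
      fun lam hlam => ?_).2
    · rintro (h | h)
      · exact h (sameRes_refl lam₀)
      · exact hp0 h
    · rw [not_or, not_not] at hlam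
      exact hlam
  · obtain ⟨ι, p, hp, hp0, hpq⟩ := exists_closed_of_not_bg hD hO A hA hS hSl φ hφ hU hUS sat hsat h₀ hbg
    exact ⟨ι, (isAbundantSys hD hSl hU hUS hK hp h₀ hp0 hpq).2⟩

end Pool.Agent.Lib.MP_666dc0_nt.PL
end

section

/-!
# PL, Six: equivalent forms
-/

open NumberField IsDedekindDomain TensorProduct
open scoped NumberField TensorProduct

namespace Pool.Agent.Lib.MP_666dc0_nt.PL

open WL ZO FM

section

variable {F : Type} [Field F] [NumberField F] {n : ℕ} {D : Datum F n} {ℓ : ℕ} [Fact ℓ.Prime]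
  {S : Finset (HeightOneSpectrum (𝓞 F))} {U : Subgroup D.Ad} {K : ℕ → Subgroup D.Ad} {d : ℕ}

theorem mem_allSys_repForm {Q : Submodule ℂ (D.Cpx → ℂ)} (hQ : IsWeight D Q) {T : RepType D} (hT : IsRepTypeAt ℓ U T)
    {f : Fin T.r → D.Ad → D.Cpx → ℂ} (hf : IsRepForm D Q U T f) (hf0 : f ≠ 0) {lam : ∀ v, Hecke U v → ℂ}
    (he : ∀ i, IsEigen S (f i) lam) : lam ∈ AllSys ℓ S U := by
  obtain ⟨i, hi⟩ := Function.ne_iff.1 hf0
  exact ⟨T.ker, hT.ker, f i, hi, ⟨fun g => (hQ.mem _ ((hf.form i).mem g)).1, (hf.form i).left, (hf.form i).right⟩, he i⟩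

theorem exists_repForm {Q : Submodule ℂ (D.Cpx → ℂ)} {T : RepType D} {p : (∀ v, Hecke U v → ℂ) → Prop}
    (h : dimR S Q T p ≠ 0) : ∃ lam f, IsRepForm D Q U T f ∧ f ≠ 0 ∧ (∀ i, IsEigen S (f i) lam) ∧ p lam := by
  by_contra hcon
  push Not at hcon
  apply h
  rw [dimR_def]
  have h1 : rspan S Q T p = ⊥ := by
    unfold rspan
    rw [Submodule.span_eq_bot]
    rintro f ⟨hf, lam, he, hl⟩
    by_contra hf0
    exact hcon lam f hf hf0 he hl
  rw [h1, finrank_bot]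

theorem exists_newForm {Q : Submodule ℂ (D.Cpx → ℂ)} {I : Subgroup D.Ad} {k : ℕ} {P : Fin k → Subgroup D.Ad}
    {p : (∀ v, Hecke U v → ℂ) → Prop}
    (h : dimN U S Q I P p ≠ 0) : ∃ lam f, IsNewForm D Q U I P f ∧ f ≠ 0 ∧ IsEigen S f lam ∧ p lam := by
  by_contra hcon
  push Not at hcon
  apply h
  unfold dimN Set.finrank
  have h1 : Submodule.span ℂ {f | IsNewForm D Q U I P f ∧ ∃ lam, IsEigen S f lam ∧ p lam} = ⊥ := by
    rw [Submodule.span_eq_bot]
    rintro f ⟨hf, lam, he, hl⟩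
    by_contra hf0
    exact hcon lam f hf hf0 he hl
  rw [h1, finrank_bot]

/-- There are new forms. -/
theorem dimN_pos [IsTotallyReal F] (hD : IsTotPosDef D.q)
    (hSl : ∀ v : HeightOneSpectrum (𝓞 F), (ℓ : 𝓞 F) ∈ v.asIdeal → v ∈ S) (hU : IsTame ℓ U)
    (hUS : ∀ v, v ∉ S → IsGoodAt U v) (hK : IsUniform ℓ d U K) (ι : ℂ ≃+* PadicAlgCl ℓ)
    {Q : ℕ → Submodule ℂ (D.Cpx → ℂ)} (hQ : IsFolner D Q)
    {k : ℕ} {P : Fin k → Subgroup D.Ad} {I : Subgroup D.Ad} (hP : ∀ j, IsLevel ℓ U (P j)) (hI : IsLevel ℓ U I)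
    (hIP : ∀ j, I ≤ P j) (hs : ∑ j, 1 / (I.relIndex (P j) : ℝ) < 1) :
    ∀ᶠ d in Filter.atTop, 0 < dimN U S (Q d) I P (fun _ => True) := by
  have hr' := law_true hD hSl hU hUS hK ι
  have hr0 := dimE_const_pos hD S (hK.level 0)
  set r : ℕ := dimE S (constSub D) U (K 0) fun _ => True with hr
  have hr1 : (1 : ℝ) ≤ r := by exact_mod_cast hr0
  set s : ℝ := ∑ j, 1 / (I.relIndex (P j) : ℝ) with hsdef
  have hG0 := gidx_pos hU hK hI
  have hG : ∀ j, gidx (K 0) (P j) = gidx (K 0) I / I.relIndex (P j) := fun j => gidx_eq hU hK hI (hP j) (hIP j)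
  have hs0 : 0 < 1 - s := by linarith
  have hη : 0 < r * ((1 - s) * gidx (K 0) I) / (2 * (k + 1)) := by positivity
  have hev : ∀ᶠ d in Filter.atTop, ∀ j, |(dimT (U := U) S (Q d) (trivType (P j)) (fun _ => True) : ℝ) -
      r * gidx (K 0) (P j) * Module.finrank ℂ (Q d)| ≤
        r * ((1 - s) * gidx (K 0) I) / (2 * (k + 1)) * Module.finrank ℂ (Q d) :=
    Filter.eventually_all.2 fun j => law_ev hr' hQ (isTypeAt_trivType (hP j)) hη
  filter_upwards [hev, law_ev hr' hQ (isTypeAt_trivType hI) hη, hQ.pos] with d h1 h2 hq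
  have h4 := dimT_le_dimN_add (q := fun _ => True) hD hSl hU (hQ.weight d) I P hI hP
    (fun lam h1 lam' h2 h3 h4 => trivial)
  have h6 : (dimT (U := U) S (Q d) (trivType I) (fun _ => True) : ℝ) ≤ dimN U S (Q d) I P (fun _ => True) +
      ∑ j, (dimT (U := U) S (Q d) (trivType (P j)) (fun _ => True) : ℝ) := by
    exact_mod_cast h4
  set η : ℝ := r * ((1 - s) * gidx (K 0) I) / (2 * (k + 1)) with hηdef
  set q : ℝ := (Module.finrank ℂ (Q d) : ℝ) with hqdef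
  have h8 : ∑ j, (dimT (U := U) S (Q d) (trivType (P j)) (fun _ => True) : ℝ) ≤
      r * (gidx (K 0) I * s) * q + k * (η * q) := by
    have h9 : ∀ j, (dimT (U := U) S (Q d) (trivType (P j)) (fun _ => True) : ℝ) ≤
        r * gidx (K 0) (P j) * q + η * q := fun j => by
      have := (abs_le.1 (h1 j)).2
      linarith
    have h13 : ∑ j, gidx (K 0) (P j) = gidx (K 0) I * s := by
      rw [hsdef, Finset.mul_sum]
      refine Finset.sum_congr rfl fun j _ => ?_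
      rw [hG j]
      ring
    refine (Finset.sum_le_sum fun j _ => h9 j).trans_eq ?_
    rw [Finset.sum_add_distrib, Finset.sum_const, Finset.card_univ, Fintype.card_fin, nsmul_eq_mul,
      ← Finset.sum_mul, ← Finset.mul_sum, h13]
  have h9 := (abs_le.1 h2).1
  have h10 : (trivType I).J = I := rfl
  rw [h10] at h9
  have h11 : (k + 1) * η = r * ((1 - s) * gidx (K 0) I) / 2 := by
    rw [hηdef]
    field_simp
  have h12 : (0 : ℝ) < dimN U S (Q d) I P (fun _ => True) := by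
    have h14 : 0 < r * ((1 - s) * gidx (K 0) I) / 2 * q := by positivity
    nlinarith
  exact_mod_cast h12

theorem abundantIn [IsTotallyReal F] (hD : IsTotPosDef D.q)
    (hSl : ∀ v : HeightOneSpectrum (𝓞 F), (ℓ : 𝓞 F) ∈ v.asIdeal → v ∈ S) (hU : IsTame ℓ U)
    (hUS : ∀ v, v ∉ S → IsGoodAt U v) (hK : IsUniform ℓ d U K) (ι : ℂ ≃+* PadicAlgCl ℓ) {r : ℕ} (hr : 0 < r)
    {w : (∀ v, Hecke U v → ℂ) → Prop} (hw : IsAbundantSys ℓ S U r w)
    {Q : ℕ → Submodule ℂ (D.Cpx → ℂ)} {T : RepType D} {I : Subgroup D.Ad} {k : ℕ} {P : Fin k → Subgroup D.Ad}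
    {m : ℕ} {T' : Fin m → RepType D} {c : Fin m → ℝ} (h : IsTest D ℓ U Q T I P T' c) :
    IsAbundantIn S r w Q T I P T' c := by
  have hr1 : (0 : ℝ) < r := by exact_mod_cast hr
  refine ⟨?_, ?_, ?_, fun ε hε => ?_, fun ε hε => ?_⟩
  · have hs0 : 0 < (1 - ∑ j, 1 / (I.relIndex (P j) : ℝ)) / r := div_pos (by linarith [h.sum]) hr1
    have h1 := hw.new Q h.folner k P I h.level' h.level h.le h.sum _ (half_pos hs0)
    have h2 := dimN_pos hD hSl hU hUS hK ι h.folner h.level' h.level h.le h.sum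
    filter_upwards [h1, h2] with d hd1 hd2
    have h3 : (0 : ℝ) < dimN U S (Q d) I P (fun _ => True) := by exact_mod_cast hd2
    have h4 : (0 : ℝ) < dimN U S (Q d) I P w := by
      refine lt_of_lt_of_le (mul_pos ?_ h3) hd1
      linarith
    have h5 : dimN U S (Q d) I P w ≠ 0 := by
      intro h0
      rw [h0, Nat.cast_zero] at h4
      exact lt_irrefl _ h4
    obtain ⟨lam, f, hf, hf0, he, hl⟩ := exists_newForm h5
    exact ⟨lam, f, hl, hf, hf0, he⟩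
  · have h1 := hw.signed Q h.folner 1 (fun _ => T) (fun _ => 1) T.J (fun _ => h.type) h.type.level (fun _ => le_refl _) (by
      rw [Fin.sum_univ_one, Subgroup.relIndex_self]
      have := Nat.pos_of_ne_zero h.ne
      positivity)
    filter_upwards [h1] with d hd
    obtain ⟨lam, hl, hpos⟩ := hd
    rw [Fin.sum_univ_one, one_mul] at hpos
    have h3 : dimR S (Q d) T (· = lam) ≠ 0 := by
      intro h0
      rw [h0, Nat.cast_zero] at hpos
      exact lt_irrefl _ hpos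
    obtain ⟨lam', f, hf, hf0, he, rfl⟩ := exists_repForm h3
    exact ⟨_, f, hl, hf, hf0, he⟩
  · exact hw.signed Q h.folner m T' c I h.types h.level h.le' h.pos
  · exact hw.share Q h.folner T h.type ε hε
  · exact hw.new Q h.folner k P I h.level' h.level h.le h.sum ε hε

/-- The equivalence of the tests for a property `b` whose violators are abundant. -/
theorem tfae_tests [IsTotallyReal F] (hD : IsTotPosDef D.q) {r : ℕ} (hr : 0 < r)
    {b : (∀ v, Hecke U v → ℂ) → Prop}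
    {Q : ℕ → Submodule ℂ (D.Cpx → ℂ)} {T : RepType D} {I : Subgroup D.Ad} {k : ℕ} {P : Fin k → Subgroup D.Ad}
    {m : ℕ} {T' : Fin m → RepType D} {c : Fin m → ℝ} (h : IsTest D ℓ U Q T I P T' c)
    (hab : ∀ lam₀ ∈ AllSys ℓ S U, ¬b lam₀ →
      ∃ w : (∀ v, Hecke U v → ℂ) → Prop, (∀ lam, w lam → ¬b lam) ∧ IsAbundantIn S r w Q T I P T' c) :
    List.TFAE [
      ∀ lam ∈ AllSys ℓ S U, b lam,
      ∃ᶠ d in Filter.atTop, ∀ lam f, IsNewForm D (Q d) U I P f → f ≠ 0 → IsEigen S f lam → b lam,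
      ∃ᶠ d in Filter.atTop, ∀ lam f, IsRepForm D (Q d) U T f → f ≠ 0 → (∀ i, IsEigen S (f i) lam) → b lam,
      ∃ᶠ d in Filter.atTop, ∀ lam, 0 < ∑ i, c i * dimR S (Q d) (T' i) (· = lam) → b lam,
      ∃ x : ℝ, x < 1 / r ∧ ∃ᶠ d in Filter.atTop,
        (dimR S (Q d) T (fun lam => ¬b lam) : ℝ) ≤ x * dimR (U := U) S (Q d) T (fun _ => True)] := by
  have hr1 : (0 : ℝ) < r := by exact_mod_cast hr
  tfae_have 1 → 2 := fun hb => (Filter.Eventually.of_forall fun d lam f hf hf0 he =>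
    hb lam (mem_allSys (h.folner.weight d) (isTypeAt_trivType h.level) (isTypeForm_trivType hf.form) hf0 he)).frequently
  tfae_have 1 → 3 := fun hb => (Filter.Eventually.of_forall fun d lam f hf hf0 he =>
    hb lam (mem_allSys_repForm (h.folner.weight d) h.type hf hf0 he)).frequently
  tfae_have 1 → 4 := fun hb => (Filter.Eventually.of_forall fun d lam hpos => by
    obtain ⟨i, hi⟩ : ∃ i, dimR S (Q d) (T' i) (· = lam) ≠ 0 := by
      by_contra hcon
      push Not at hcon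
      rw [Finset.sum_eq_zero fun i _ => by rw [hcon i, Nat.cast_zero, mul_zero]] at hpos
      exact lt_irrefl _ hpos
    obtain ⟨lam', f, hf, hf0, he, rfl⟩ := exists_repForm hi
    exact hb _ (mem_allSys_repForm (h.folner.weight d) (h.types i) hf hf0 he)).frequently
  tfae_have 1 → 5 := fun hb => ⟨0, by positivity, (Filter.Eventually.of_forall fun d => by
    rw [zero_mul]
    have h1 : dimR S (Q d) T (fun lam => ¬b lam) = 0 := by
      by_contra hcon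
      obtain ⟨lam, f, hf, hf0, he, hl⟩ := exists_repForm hcon
      exact hl (hb lam (mem_allSys_repForm (h.folner.weight d) h.type hf hf0 he))
    rw [h1, Nat.cast_zero]).frequently⟩
  tfae_have 2 → 1 := by
    intro hfr lam₀ h₀
    by_contra hb
    obtain ⟨w, hwb, hw⟩ := hab lam₀ h₀ hb
    obtain ⟨d, hd, lam, f, hl, hf, hf0, he⟩ := (hfr.and_eventually hw.new).exists
    exact hwb lam hl (hd lam f hf hf0 he)
  tfae_have 3 → 1 := by
    intro hfr lam₀ h₀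
    by_contra hb
    obtain ⟨w, hwb, hw⟩ := hab lam₀ h₀ hb
    obtain ⟨d, hd, lam, f, hl, hf, hf0, he⟩ := (hfr.and_eventually hw.type).exists
    exact hwb lam hl (hd lam f hf hf0 he)
  tfae_have 4 → 1 := by
    intro hfr lam₀ h₀
    by_contra hb
    obtain ⟨w, hwb, hw⟩ := hab lam₀ h₀ hb
    obtain ⟨d, hd, lam, hl, hpos⟩ := (hfr.and_eventually hw.signed).exists
    exact hwb lam hl (hd lam hpos)
  tfae_have 5 → 1 := by
    rintro ⟨x, hx, hfr⟩ lam₀ h₀
    by_contra hb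
    obtain ⟨w, hwb, hw⟩ := hab lam₀ h₀ hb
    have hε : 0 < (1 / r - x) / 2 := by linarith
    obtain ⟨d, hd, hd1, lam, f, hl, hf, hf0, he⟩ := (hfr.and_eventually ((hw.share _ hε).and hw.type)).exists
    have h1 : (dimR S (Q d) T w : ℝ) ≤ dimR S (Q d) T (fun lam => ¬b lam) := by
      exact_mod_cast dimR_mono hD h.type (h.folner.weight d) hwb
    have h3 : (0 : ℝ) < dimR (U := U) S (Q d) T (fun _ => True) := by
      have h2 : dimR (U := U) S (Q d) T (fun _ => True) ≠ 0 := by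
        rw [dimR_def]
        have h5 := finite_rspan (S := S) hD h.type (h.folner.weight d) (fun _ : ∀ v, Hecke U v → ℂ => True)
        have h6 : f ∈ rspan S (Q d) T (fun _ : ∀ v, Hecke U v → ℂ => True) := Submodule.subset_span ⟨hf, lam, he, trivial⟩
        have h7 : Nontrivial (rspan S (Q d) T (fun _ : ∀ v, Hecke U v → ℂ => True)) :=
          ⟨⟨⟨f, h6⟩, 0, fun h => hf0 (congrArg Subtype.val h)⟩⟩
        exact Module.finrank_pos.ne'
      exact_mod_cast Nat.pos_of_ne_zero h2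
    have h4 : (1 / r - (1 / r - x) / 2) * (dimR (U := U) S (Q d) T (fun _ => True) : ℝ) ≤
        x * dimR (U := U) S (Q d) T (fun _ => True) := hd1.trans (h1.trans hd)
    have h5 : 0 < (1 / r - x) / 2 * (dimR (U := U) S (Q d) T (fun _ => True) : ℝ) :=
      mul_pos hε h3
    nlinarith
  tfae_finish

end

theorem main6 {F : Type} [Field F] [NumberField F] [IsTotallyReal F] {n : ℕ} {D : Datum F n}
    (hD : IsTotPosDef D.q) {ℓ : ℕ} [Fact ℓ.Prime]
    {B : Type} [CommRing B] [IsDomain B] [IsPrincipalIdealRing B] [Algebra B ℚ]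
    [IsFractionRing B ℚ] [Algebra B (PadicAlgCl ℓ)]
    {O : Type} [CommRing O] [HopfAlgebra B O] [Algebra.FiniteType B O] [Module.Free B O]
    (hO : LinearlyReductive (ℚ ⊗[B] O)) (A : OverB.HopfAction B Gal(AlgebraicClosure F/F) O)
    (hA : IsOpen (A.act.ker : Set Gal(AlgebraicClosure F/F)))
    {S : Finset (HeightOneSpectrum (𝓞 F))}
    (hS : ∀ v, v ∉ S → ∀ P u, IsInertiaAt v P u → A.act u = 1)
    (hSl : ∀ v : HeightOneSpectrum (𝓞 F), (ℓ : 𝓞 F) ∈ v.asIdeal → v ∈ S)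
    (φ : HeightOneSpectrum (𝓞 F) → Gal(AlgebraicClosure F/F))
    (hφ : ∀ v, v ∉ S → ∃ P : Ideal (𝓞 (AlgebraicClosure F)), IsOver v P ∧
      (IsFrob v P (φ v) ∨ IsFrob v P (φ v)⁻¹))
    {U K₁ : Subgroup D.Ad} (hU : IsTame ℓ U) (hK₁ : IsLevel ℓ U K₁) (hUS : ∀ v, v ∉ S → IsGoodAt U v)
    (sat : ∀ v, InvFun A (φ v) → Hecke U v) (hsat : ∀ v f, (sat v f).IsIntegral ℓ) :
    ∃ r : ℕ, 0 < r ∧
    (∀ Q, (∀ d, IsWeight D (Q d)) → (∀ d, Q d ≤ polyLE D d) → Filter.Tendsto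
      (fun d => (Module.finrank ℂ (Q d) : ℝ) / Module.finrank ℂ (polyLE D d)) Filter.atTop (nhds 1) → IsFolner D Q) ∧
    (∀ b : (∀ v, Hecke U v → ℂ) → Prop, (b = BGSys ℓ A S φ sat ∨ ∃ ι, IsClosedProp ℓ S ι b) →
      ∀ Q T I k (P : Fin k → Subgroup D.Ad) m (T' : Fin m → RepType D) c, IsTest D ℓ U Q T I P T' c →
        (∀ lam₀ ∈ AllSys ℓ S U, ¬b lam₀ → ∃ ι : ℂ ≃+* PadicAlgCl ℓ,
          IsAbundantIn S r (fun lam => SameRes ℓ S ι lam lam₀ ∧ ¬b lam) Q T I P T' c) ∧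
        List.TFAE [
          ∀ lam ∈ AllSys ℓ S U, b lam,
          ∃ᶠ d in Filter.atTop, ∀ lam f, IsNewForm D (Q d) U I P f → f ≠ 0 → IsEigen S f lam → b lam,
          ∃ᶠ d in Filter.atTop, ∀ lam f, IsRepForm D (Q d) U T f → f ≠ 0 → (∀ i, IsEigen S (f i) lam) → b lam,
          ∃ᶠ d in Filter.atTop, ∀ lam, 0 < ∑ i, c i * dimR S (Q d) (T' i) (· = lam) → b lam,
          ∃ x : ℝ, x < 1 / r ∧ ∃ᶠ d in Filter.atTop,
            (dimR S (Q d) T (fun lam => ¬b lam) : ℝ) ≤ x * dimR (U := U) S (Q d) T (fun _ => True)]) ∧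
    ∀ ι (p : (∀ v, Hecke U v → ℂ) → Prop), IsClosedProp ℓ S ι p →
      ∃ a : ℕ, a ≤ r ∧ ∀ Q, IsFolner D Q → ∀ T, IsRepTypeAt ℓ U T → T.r ≠ 0 →
        Filter.Tendsto (fun d => (dimR S (Q d) T p : ℝ) / dimR (U := U) S (Q d) T fun _ => True) Filter.atTop
          (nhds (a / r)) := by
  obtain ⟨d, K, hK, -⟩ := exists_isUniform hU hK₁
  have hr0 := dimE_const_pos hD S (hK.level 0)
  have hab : ∀ b : (∀ v, Hecke U v → ℂ) → Prop, (b = BGSys ℓ A S φ sat ∨ ∃ ι, IsClosedProp ℓ S ι b) →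
      ∀ lam₀ ∈ AllSys ℓ S U, ¬b lam₀ → ∃ ι : ℂ ≃+* PadicAlgCl ℓ,
        IsAbundantSys ℓ S U (dimE S (constSub D) U (K 0) (fun _ => True))
          fun lam => SameRes ℓ S ι lam lam₀ ∧ ¬b lam := by
    rintro b (rfl | ⟨ι, hp⟩) lam₀ h₀ hb
    · obtain ⟨ι, p, hp, hp0, hpq⟩ := exists_closed_of_not_bg hD hO A hA hS hSl φ hφ hU hUS sat hsat h₀ hb
      exact ⟨ι, (isAbundantSys hD hSl hU hUS hK hp h₀ hp0 hpq).2⟩
    · have hint := norm_pval_le_one (ι := ι) hD hSl hU hUS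
      refine ⟨ι, (isAbundantSys hD hSl hU hUS hK (isClosedProp_or hint (isClosedProp_not_sameRes hint h₀) hp) h₀ ?_
        fun lam hlam => ?_).2⟩
      · rintro (h | h)
        · exact h (sameRes_refl lam₀)
        · exact hb h
      · rw [not_or, not_not] at hlam
        exact hlam
  refine ⟨dimE S (constSub D) U (K 0) (fun _ => True), hr0,
    fun Q hQ hle h => isFolner_of_tendsto hQ hle h, fun b hb Q T I k P m T' c h => ?_, fun ι p hp => ?_⟩
  · have h2 : ∀ lam₀ ∈ AllSys ℓ S U, ¬b lam₀ → ∃ ι : ℂ ≃+* PadicAlgCl ℓ,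
        IsAbundantIn S (dimE S (constSub D) U (K 0) (fun _ => True)) (fun lam => SameRes ℓ S ι lam lam₀ ∧ ¬b lam)
          Q T I P T' c := by
      intro lam₀ h₀ hb0
      obtain ⟨ι, h1⟩ := hab b hb lam₀ h₀ hb0
      exact ⟨ι, abundantIn hD hSl hU hUS hK ι hr0 h1 h⟩
    refine ⟨h2, tfae_tests hD hr0 h fun lam₀ h₀ hb0 => ?_⟩
    obtain ⟨ι, h1⟩ := h2 lam₀ h₀ hb0
    exact ⟨_, fun lam hl => hl.2, h1⟩
  · obtain ⟨a, ha, -, h⟩ := tendsto_share hD hSl hU hUS hK hp hr0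
    exact ⟨a, ha, h⟩

end Pool.Agent.Lib.MP_666dc0_nt.PL
end
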