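import Pool.Agent.Lib.MP_666dc0_nt.CL.PDefs
import Pool.Agent.Lib.MP_666dc0_nt.Mg.G070
import Pool.Agent.Lib.MP_666dc0_nt.FM.D0
import Pool.Agent.Lib.MP_666dc0_nt.EP.FD3

section

/-!
# CL, P1: matrices over a ring of equivariant maps between free modules
-/

namespace Pool.Agent.Lib.MP_666dc0_nt.CL

open FM EP

section

variable {R A : Type} [CommRing R] [Group A] {Λ Ω : Type} [Ring Λ] [Field Ω] [Algebra R Ω] {ℓ : ℕ}

/-- The matrix over `Λ` of an equivariant map between free modules. -/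
noncomputable def Mt (c₀ : R →+* Λ) (c₁ : A →* Λ) {Y Z : Type} {r s : ℕ} (e : Y ≃ FreeSet A r)
    (e' : Z ≃ FreeSet A s) (c : (Y →₀ R) →ₗ[R] (Z →₀ R)) : Matrix (Fin r) (Fin s) Λ :=
  fun p q => (c (Finsupp.single (e.symm ⟨p, 1⟩) 1)).sum fun z x =>
    if (e' z).i = q then c₀ x * c₁ (e' z).g else 0

theorem Mt_apply (c₀ : R →+* Λ) (c₁ : A →* Λ) {Y Z : Type} {r s : ℕ} (e : Y ≃ FreeSet A r)
    (e' : Z ≃ FreeSet A s) (c : (Y →₀ R) →ₗ[R] (Z →₀ R)) (p : Fin r) (q : Fin s) :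
    Mt c₀ c₁ e e' c p q = ∑ z ∈ (c (Finsupp.single (e.symm ⟨p, 1⟩) 1)).support,
      if (e' z).i = q then c₀ ((c (Finsupp.single (e.symm ⟨p, 1⟩) 1)) z) * c₁ (e' z).g else 0 := rfl

/-- The value of an equivariant function. -/
theorem fun_apply {V : Type} [AddCommGroup V] [Module Ω V] (ρ : Representation Ω A V) {Z : Type}
    [MulAction A Z] {s : ℕ} (e' : Z ≃ FreeSet A s) (he' : ∀ (a : A) (z : Z), e' (a • z) = a • e' z)
    (f : Fun ρ Z) (z : Z) : ρ (e' z).g (funEquiv ρ e' he' f (e' z).i) = (f : Z → V) z :=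
  congrFun (congrArg Subtype.val ((funEquiv ρ e' he').left_inv f)) z

/-- The matrix of an equivariant map acts as its transpose. -/
theorem mact_Mt (fam : MFam Λ Ω ℓ) (i : fam.ix) (ρ : Representation Ω A (fam.W i))
    (c₀ : R →+* Λ) (c₁ : A →* Λ) (h₀ : ∀ r w, fam.act i (c₀ r) w = algebraMap R Ω r • w)
    (h₁ : ∀ a w, fam.act i (c₁ a) w = ρ a w)
    {Y Z : Type} [MulAction A Y] [MulAction A Z] {r s : ℕ} (e : Y ≃ FreeSet A r)
    (he : ∀ (a : A) (y : Y), e (a • y) = a • e y) (e' : Z ≃ FreeSet A s)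
    (he' : ∀ (a : A) (z : Z), e' (a • z) = a • e' z) {c : (Y →₀ R) →ₗ[R] (Z →₀ R)}
    (hc : Equi A c) (f : Fun ρ Z) :
    fam.mact i (Mt c₀ c₁ e e' c) (funEquiv ρ e' he' f) =
      funEquiv ρ e he ⟨pull Ω (fam.W i) c f.1, pull_mem_Fun ρ hc f.2⟩ := by
  funext p
  rw [MFam.mact_apply]
  have h2 : ∀ q : Fin s, fam.act i (Mt c₀ c₁ e e' c p q) (funEquiv ρ e' he' f q) =
      ∑ z ∈ (c (Finsupp.single (e.symm ⟨p, 1⟩) 1)).support,
        if (e' z).i = q then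
          algebraMap R Ω ((c (Finsupp.single (e.symm ⟨p, 1⟩) 1)) z) • (f : Z → fam.W i) z
        else 0 := by
    intro q
    rw [Mt_apply, map_sum, LinearMap.sum_apply]
    refine Finset.sum_congr rfl fun z _ => ?_
    split_ifs with h
    · rw [map_mul, Module.End.mul_apply, h₁, h₀, ← h, fun_apply ρ e' he' f z]
    · rw [map_zero, LinearMap.zero_apply]
  rw [Finset.sum_congr rfl fun q _ => h2 q, Finset.sum_comm]
  change _ = (c (Finsupp.single (e.symm ⟨p, 1⟩) 1)).sum fun z x => algebraMap R Ω x • f.1 z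
  rw [Finsupp.sum]
  refine Finset.sum_congr rfl fun z _ => ?_
  rw [Finset.sum_ite_eq, if_pos (Finset.mem_univ _)]

end

section

variable {R A : Type} [CommRing R] [Group A] {𝒯 : RTow} {Ω : Type} [NormedField Ω] [Algebra R Ω]
  {ℓ : ℕ} (fam : MFam 𝒯.Lim Ω ℓ) (hfam : FOk fam) (c₀ : R →+* 𝒯.Lim) (c₁ : A →* 𝒯.Lim)
  (ρ : ∀ i, Representation Ω A (fam.W i))
  (h₀ : ∀ i r w, fam.act i (c₀ r) w = algebraMap R Ω r • w)
  (h₁ : ∀ i a w, fam.act i (c₁ a) w = ρ i a w)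

include hfam in
theorem eq_of_mact {κ κ' : Type} [Fintype κ'] [DecidableEq κ'] {X Y : Matrix κ κ' 𝒯.Lim}
    (h : ∀ i w, fam.mact i X w = fam.mact i Y w) : X = Y := by
  rw [← sub_eq_zero]
  refine fam.eq_zero_of_mact hfam.one_lt hfam.deep (X - Y) fun i => ?_
  rw [MFam.mact_sub, sub_eq_zero]
  exact LinearMap.ext (h i)

variable {W Y Z : Type} [MulAction A W] [MulAction A Y] [MulAction A Z] {r s t : ℕ}
  (e : Y ≃ FreeSet A r) (he : ∀ (a : A) (y : Y), e (a • y) = a • e y)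
  (e' : Z ≃ FreeSet A s) (he' : ∀ (a : A) (z : Z), e' (a • z) = a • e' z)
  (e'' : W ≃ FreeSet A t) (he'' : ∀ (a : A) (w : W), e'' (a • w) = a • e'' w)

include hfam ρ h₀ h₁ he he' he'' in
theorem Mt_comp {c' : (Z →₀ R) →ₗ[R] (W →₀ R)} (hc' : Equi A c') {c : (Y →₀ R) →ₗ[R] (Z →₀ R)}
    (hc : Equi A c) : Mt c₀ c₁ e e'' (c' ∘ₗ c) = Mt c₀ c₁ e e' c * Mt c₀ c₁ e' e'' c' := by
  refine eq_of_mact fam hfam fun i w => ?_
  obtain ⟨f, rfl⟩ := (funEquiv (ρ i) e'' he'').surjective w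
  rw [MFam.mact_mulM, mact_Mt fam i (ρ i) c₀ c₁ (h₀ i) (h₁ i) e' he' e'' he'' hc' f,
    mact_Mt fam i (ρ i) c₀ c₁ (h₀ i) (h₁ i) e he e' he' hc,
    mact_Mt fam i (ρ i) c₀ c₁ (h₀ i) (h₁ i) e he e'' he'' (hc'.comp hc) f]
  refine congrArg _ (Subtype.ext ?_)
  change pull Ω (fam.W i) (c' ∘ₗ c) f.1 = pull Ω (fam.W i) c (pull Ω (fam.W i) c' f.1)
  rw [pull_comp]
  rfl

include hfam ρ h₀ h₁ he he' in
theorem Mt_sub {c c' : (Y →₀ R) →ₗ[R] (Z →₀ R)} (hc : Equi A c) (hc' : Equi A c') :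
    Mt c₀ c₁ e e' (c - c') = Mt c₀ c₁ e e' c - Mt c₀ c₁ e e' c' := by
  refine eq_of_mact fam hfam fun i w => ?_
  obtain ⟨f, rfl⟩ := (funEquiv (ρ i) e' he').surjective w
  rw [MFam.mact_sub, LinearMap.sub_apply, mact_Mt fam i (ρ i) c₀ c₁ (h₀ i) (h₁ i) e he e' he' hc,
    mact_Mt fam i (ρ i) c₀ c₁ (h₀ i) (h₁ i) e he e' he' hc',
    mact_Mt fam i (ρ i) c₀ c₁ (h₀ i) (h₁ i) e he e' he' (hc.sub hc'), ← map_sub]
  refine congrArg _ (Subtype.ext ?_)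
  change pull Ω (fam.W i) (c - c') f.1 = pull Ω (fam.W i) c f.1 - pull Ω (fam.W i) c' f.1
  rw [pull_sub]
  rfl

include hfam ρ h₀ h₁ he he' in
theorem Mt_add {c c' : (Y →₀ R) →ₗ[R] (Z →₀ R)} (hc : Equi A c) (hc' : Equi A c') :
    Mt c₀ c₁ e e' (c + c') = Mt c₀ c₁ e e' c + Mt c₀ c₁ e e' c' := by
  refine eq_of_mact fam hfam fun i w => ?_
  obtain ⟨f, rfl⟩ := (funEquiv (ρ i) e' he').surjective w
  rw [MFam.mact_addM, LinearMap.add_apply, mact_Mt fam i (ρ i) c₀ c₁ (h₀ i) (h₁ i) e he e' he' hc,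
    mact_Mt fam i (ρ i) c₀ c₁ (h₀ i) (h₁ i) e he e' he' hc',
    mact_Mt fam i (ρ i) c₀ c₁ (h₀ i) (h₁ i) e he e' he' (hc.add hc'), ← map_add]
  refine congrArg _ (Subtype.ext ?_)
  change pull Ω (fam.W i) (c + c') f.1 = pull Ω (fam.W i) c f.1 + pull Ω (fam.W i) c' f.1
  rw [pull_add]
  rfl

theorem Mt_zero : Mt c₀ c₁ e e' (0 : (Y →₀ R) →ₗ[R] (Z →₀ R)) = 0 := by
  ext p q
  rw [Mt_apply]
  rw [LinearMap.zero_apply, Finsupp.support_zero, Finset.sum_empty]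
  rfl

end

end Pool.Agent.Lib.MP_666dc0_nt.CL
end

section

/-!
# CL, P2: the matrices of a bounded complex of finitely generated free modules
-/

namespace Pool.Agent.Lib.MP_666dc0_nt.CL

open FM EP

section

variable {𝒯 : RTow} {Ω : Type} [NormedField Ω] {ℓ : ℕ} {J : Type} (ℳ : Mats 𝒯 J)
  (fam : MFam 𝒯.Lim Ω ℓ) (i : fam.ix)

/-- The comparison of two descriptions of the cohomology. -/
theorem exists_equivH {M : Type} [AddCommGroup M] [Module Ω M] (F Z' B' : Submodule Ω M)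
    (hZF : Z' ≤ F) (φ : F ≃ₗ[Ω] (ℳ.B → fam.W i)) (hZ : ∀ f : F, φ f ∈ ℳ.Z fam i ↔ (f : M) ∈ Z')
    (hB : ∀ f : F, φ f ∈ ℳ.Bd fam i ↔ (f : M) ∈ B') :
    ∃ ψ : (Z' ⧸ B'.submoduleOf Z') ≃ₗ[Ω] ℳ.H fam i, ∀ z : Z',
      ψ (Submodule.Quotient.mk z) =
        Submodule.Quotient.mk ⟨φ ⟨z, hZF z.2⟩, (hZ ⟨z, hZF z.2⟩).2 z.2⟩ := by
  let T : Z' →ₗ[Ω] ℳ.Z fam i := LinearMap.codRestrict (ℳ.Z fam i)
    (φ.toLinearMap ∘ₗ Submodule.inclusion hZF) fun z => (hZ ⟨z, hZF z.2⟩).2 z.2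
  have hT : ∀ z : Z', (T z : ℳ.B → fam.W i) = φ ⟨z, hZF z.2⟩ := fun z => rfl
  have hinj : Function.Injective T := by
    intro z z' h
    have h1 := congrArg Subtype.val h
    rw [hT, hT] at h1
    have h2 := φ.injective h1
    exact Subtype.ext (congrArg (fun f : F => (f : M)) h2)
  have hsurj : Function.Surjective T := by
    intro w
    have h1 : φ (φ.symm w.1) ∈ ℳ.Z fam i := by
      rw [LinearEquiv.apply_symm_apply]
      exact w.2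
    refine ⟨⟨(φ.symm w.1 : F), (hZ _).1 h1⟩, Subtype.ext ?_⟩
    rw [hT]
    exact φ.apply_symm_apply w.1
  let T' : Z' ≃ₗ[Ω] ℳ.Z fam i := LinearEquiv.ofBijective T ⟨hinj, hsurj⟩
  have hmap : (B'.submoduleOf Z').map (T' : Z' →ₗ[Ω] ℳ.Z fam i) =
      (ℳ.Bd fam i).submoduleOf (ℳ.Z fam i) := by
    ext w
    rw [Submodule.mem_map]
    constructor
    · rintro ⟨z, hz, rfl⟩
      exact (hB ⟨z, hZF z.2⟩).2 hz
    · intro hw
      obtain ⟨z, rfl⟩ := T'.surjective w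
      exact ⟨z, (hB ⟨z, hZF z.2⟩).1 hw, rfl⟩
  exact ⟨Submodule.Quotient.equiv _ _ T' hmap, fun z => rfl⟩

end

section

variable {R A X : Type} [CommRing R] [Group A] [MulAction A X] {𝒯 : RTow} {Ω : Type}
  [NormedField Ω] [Algebra R Ω] {ℓ : ℕ} (fam : MFam 𝒯.Lim Ω ℓ) (hfam : FOk fam)
  (c₀ : R →+* 𝒯.Lim) (c₁ : A →* 𝒯.Lim) (ρ : ∀ i, Representation Ω A (fam.W i))
  (h₀ : ∀ i r w, fam.act i (c₀ r) w = algebraMap R Ω r • w)
  (h₁ : ∀ i a w, fam.act i (c₁ a) w = ρ i a w)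
  {C : Cx R A X} {r : ℕ → ℕ} (e : ∀ n, C.Y n ≃ FreeSet A (r n))
  (he : ∀ n (a : A) (y : C.Y n), e n (a • y) = a • e n y)

include h₀ h₁ he in
/-- The cocycles. -/
theorem mem_cocyc_iff (i : fam.ix) (n : ℕ) (f : Fun (ρ i) (C.Y n)) :
    fam.mact i (Mt c₀ c₁ (e (n + 1)) (e n) (C.d n)) (funEquiv (ρ i) (e n) (he n) f) = 0 ↔
      (f : C.Y n → fam.W i) ∈ C.cocyc (ρ i) n := by
  rw [mact_Mt fam i (ρ i) c₀ c₁ (h₀ i) (h₁ i) (e (n + 1)) (he (n + 1)) (e n) (he n) (C.equi_d n) f,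
    LinearEquiv.map_eq_zero_iff]
  constructor
  · intro h
    exact ⟨f.2, congrArg Subtype.val h⟩
  · intro h
    exact Subtype.ext h.2

include h₀ h₁ he in
/-- The coboundaries. -/
theorem mem_cobd_iff (i : fam.ix) (n : ℕ) (f : Fun (ρ i) (C.Y (n + 1))) :
    (∃ v, fam.mact i (Mt c₀ c₁ (e (n + 1)) (e n) (C.d n)) v =
      funEquiv (ρ i) (e (n + 1)) (he (n + 1)) f) ↔
      (f : C.Y (n + 1) → fam.W i) ∈ C.cobd (ρ i) (n + 1) := by
  constructor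
  · rintro ⟨v, hv⟩
    obtain ⟨g, rfl⟩ := (funEquiv (ρ i) (e n) (he n)).surjective v
    rw [mact_Mt fam i (ρ i) c₀ c₁ (h₀ i) (h₁ i) (e (n + 1)) (he (n + 1)) (e n) (he n)
      (C.equi_d n) g] at hv
    exact ⟨g.1, g.2, congrArg Subtype.val ((funEquiv (ρ i) (e (n + 1)) (he (n + 1))).injective hv)⟩
  · rintro ⟨g, hg, hgf⟩
    refine ⟨funEquiv (ρ i) (e n) (he n) ⟨g, hg⟩, ?_⟩
    rw [mact_Mt fam i (ρ i) c₀ c₁ (h₀ i) (h₁ i) (e (n + 1)) (he (n + 1)) (e n) (he n)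
      (C.equi_d n) ⟨g, hg⟩]
    exact congrArg _ (Subtype.ext hgf)

include hfam h₀ h₁ in
/-- The matrices of a bounded complex of finitely generated free modules with chain endomorphisms
which commute up to homotopy. -/
theorem exists_mats_cx {N : ℕ} (hC : C.IsFin N) {J : Type}
    {c : J → (X →₀ R) →ₗ[R] (X →₀ R)} {G : J → ∀ n, (C.Y n →₀ R) →ₗ[R] (C.Y n →₀ R)}
    (hG : ∀ j, IsMap C C (c j) (G j))
    (hh : ∀ j k, ∃ h : ∀ n, (C.Y n →₀ R) →ₗ[R] (C.Y (n + 1) →₀ R), (∀ n, Equi A (h n)) ∧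
      G k 0 ∘ₗ G j 0 - G j 0 ∘ₗ G k 0 = C.d 0 ∘ₗ h 0 ∧
      ∀ n, G k (n + 1) ∘ₗ G j (n + 1) - G j (n + 1) ∘ₗ G k (n + 1) =
        C.d (n + 1) ∘ₗ h (n + 1) + h n ∘ₗ C.d n) (n : ℕ) :
    ∃ ℳ : Mats 𝒯 J, ∀ i, ∃ ψ : C.H (ρ i) n ≃ₗ[Ω] ℳ.H fam i,
      ∀ j u, (ℳ.ch j).op fam i (ψ u) = ψ ((hG j).onH (ρ i) n u) := by
  choose r e he using hC.exists_equiv
  have hcomp : ∀ {a b d : ℕ} {c' : (C.Y b →₀ R) →ₗ[R] (C.Y d →₀ R)} (_ : Equi A c')
      {c : (C.Y a →₀ R) →ₗ[R] (C.Y b →₀ R)} (_ : Equi A c), Mt c₀ c₁ (e a) (e d) (c' ∘ₗ c) =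
        Mt c₀ c₁ (e a) (e b) c * Mt c₀ c₁ (e b) (e d) c' :=
    fun {a b d} {c'} hc' {c} hc =>
      Mt_comp fam hfam c₀ c₁ ρ h₀ h₁ (e a) (he a) (e b) (he b) (e d) (he d) hc' hc
  have hsub : ∀ {a b : ℕ} {c c' : (C.Y a →₀ R) →ₗ[R] (C.Y b →₀ R)} (_ : Equi A c)
      (_ : Equi A c'), Mt c₀ c₁ (e a) (e b) (c - c') =
        Mt c₀ c₁ (e a) (e b) c - Mt c₀ c₁ (e a) (e b) c' :=
    fun {a b} {c c'} hc hc' => Mt_sub fam hfam c₀ c₁ ρ h₀ h₁ (e a) (he a) (e b) (he b) hc hc'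
  have hadd : ∀ {a b : ℕ} {c c' : (C.Y a →₀ R) →ₗ[R] (C.Y b →₀ R)} (_ : Equi A c)
      (_ : Equi A c'), Mt c₀ c₁ (e a) (e b) (c + c') =
        Mt c₀ c₁ (e a) (e b) c + Mt c₀ c₁ (e a) (e b) c' :=
    fun {a b} {c c'} hc hc' => Mt_add fam hfam c₀ c₁ ρ h₀ h₁ (e a) (he a) (e b) (he b) hc hc'
  have hmact : ∀ (i : fam.ix) (j : J) (n : ℕ) (f : Fun (ρ i) (C.Y n)),
      fam.mact i (Mt c₀ c₁ (e n) (e n) (G j n)) (funEquiv (ρ i) (e n) (he n) f) =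
        funEquiv (ρ i) (e n) (he n)
          ⟨pull Ω (fam.W i) (G j n) f.1, pull_mem_Fun (ρ i) ((hG j).equi n) f.2⟩ :=
    fun i j n f => mact_Mt fam i (ρ i) c₀ c₁ (h₀ i) (h₁ i) (e n) (he n) (e n) (he n)
      ((hG j).equi n) f
  cases n with
  | zero =>
    have ht : ∀ j k, ∃ (x : Matrix (Fin 0) (Fin (r 0)) 𝒯.Lim) (y : Matrix (Fin (r 0)) (Fin (r 1)) 𝒯.Lim),
        Mt c₀ c₁ (e 0) (e 0) (G j 0) * Mt c₀ c₁ (e 0) (e 0) (G k 0) -
          Mt c₀ c₁ (e 0) (e 0) (G k 0) * Mt c₀ c₁ (e 0) (e 0) (G j 0) =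
          (0 : Matrix (Fin (r 0)) (Fin 0) 𝒯.Lim) * x + y * Mt c₀ c₁ (e 1) (e 0) (C.d 0) := by
      intro j k
      obtain ⟨h, he1, h2, h3⟩ := hh j k
      refine ⟨0, Mt c₀ c₁ (e 0) (e 1) (h 0), ?_⟩
      rw [← hcomp ((hG k).equi 0) ((hG j).equi 0), ← hcomp ((hG j).equi 0) ((hG k).equi 0),
        ← hcomp (C.equi_d 0) (he1 0), Matrix.zero_mul, zero_add, ← h2,
        hsub (((hG k).equi 0).comp ((hG j).equi 0)) (((hG j).equi 0).comp ((hG k).equi 0))]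
    let ℳ : Mats 𝒯 J :=
      { A := Fin 0
        B := Fin (r 0)
        C := Fin (r 1)
        α := 0
        β := Mt c₀ c₁ (e 1) (e 0) (C.d 0)
        mx := fun j => Mt c₀ c₁ (e 0) (e 0) (G j 0)
        mA := fun j => 0
        mC := fun j => Mt c₀ c₁ (e 1) (e 1) (G j 1)
        βα := Matrix.mul_zero _
        comm_α := fun j => by rw [Matrix.mul_zero, Matrix.zero_mul]
        comm_β := fun j => by
          rw [← hcomp ((hG j).equi 0) (C.equi_d 0), ← hcomp (C.equi_d 0) ((hG j).equi 1),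
            (hG j).comm_d 0]
        htpy := fun j k => ht j k }
    refine ⟨ℳ, fun i => ?_⟩
    obtain ⟨ψ, hψ⟩ := exists_equivH ℳ fam i (Fun (ρ i) (C.Y 0)) (C.cocyc (ρ i) 0)
      (C.cobd (ρ i) 0) inf_le_left (funEquiv (ρ i) (e 0) (he 0))
      (fun f => mem_cocyc_iff fam c₀ c₁ ρ h₀ h₁ e he i 0 f) (fun f => by
        constructor
        · rintro ⟨v, hv⟩
          have h1 : fam.mact i ℳ.α v = 0 := by
            funext p
            rw [MFam.mact_apply]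
            exact Finset.sum_of_isEmpty (s := Finset.univ) (ι := Fin 0)
          rw [h1] at hv
          have h2 : f = 0 := (LinearEquiv.map_eq_zero_iff _).1 hv.symm
          rw [h2]
          exact Submodule.zero_mem _
        · intro hf
          have h2 : f = 0 := Subtype.ext hf
          rw [h2, map_zero]
          exact Submodule.zero_mem _)
    refine ⟨ψ, fun j u => ?_⟩
    obtain ⟨u, rfl⟩ := Submodule.Quotient.mk_surjective _ u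
    rw [hψ, Mats.Ch.op_mk]
    change _ = ψ (Submodule.Quotient.mk ⟨pull Ω (fam.W i) (G j 0) u.1,
      (hG j).pull_mem_cocyc (ρ i) 0 u.2⟩)
    rw [hψ]
    refine congrArg _ (Subtype.ext ?_)
    exact hmact i j 0 ⟨u.1, u.2.1⟩
  | succ n =>
    have ht : ∀ j k, ∃ (x : Matrix (Fin (r n)) (Fin (r (n + 1))) 𝒯.Lim)
        (y : Matrix (Fin (r (n + 1))) (Fin (r (n + 2))) 𝒯.Lim),
        Mt c₀ c₁ (e (n + 1)) (e (n + 1)) (G j (n + 1)) * Mt c₀ c₁ (e (n + 1)) (e (n + 1)) (G k (n + 1)) -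
          Mt c₀ c₁ (e (n + 1)) (e (n + 1)) (G k (n + 1)) *
            Mt c₀ c₁ (e (n + 1)) (e (n + 1)) (G j (n + 1)) =
          Mt c₀ c₁ (e (n + 1)) (e n) (C.d n) * x + y * Mt c₀ c₁ (e (n + 2)) (e (n + 1)) (C.d (n + 1)) := by
      intro j k
      obtain ⟨h, he1, h2, h3⟩ := hh j k
      refine ⟨Mt c₀ c₁ (e n) (e (n + 1)) (h n), Mt c₀ c₁ (e (n + 1)) (e (n + 2)) (h (n + 1)), ?_⟩
      rw [← hcomp ((hG k).equi (n + 1)) ((hG j).equi (n + 1)),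
        ← hcomp ((hG j).equi (n + 1)) ((hG k).equi (n + 1)),
        ← hcomp (C.equi_d (n + 1)) (he1 (n + 1)), ← hcomp (he1 n) (C.equi_d n),
        ← hadd ((he1 n).comp (C.equi_d n)) ((C.equi_d (n + 1)).comp (he1 (n + 1))),
        ← hsub (((hG k).equi (n + 1)).comp ((hG j).equi (n + 1)))
          (((hG j).equi (n + 1)).comp ((hG k).equi (n + 1))), h3 n,
        add_comm (C.d (n + 1) ∘ₗ h (n + 1)) (h n ∘ₗ C.d n)]
    let ℳ : Mats 𝒯 J :=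
      { A := Fin (r n)
        B := Fin (r (n + 1))
        C := Fin (r (n + 2))
        α := Mt c₀ c₁ (e (n + 1)) (e n) (C.d n)
        β := Mt c₀ c₁ (e (n + 2)) (e (n + 1)) (C.d (n + 1))
        mx := fun j => Mt c₀ c₁ (e (n + 1)) (e (n + 1)) (G j (n + 1))
        mA := fun j => Mt c₀ c₁ (e n) (e n) (G j n)
        mC := fun j => Mt c₀ c₁ (e (n + 2)) (e (n + 2)) (G j (n + 2))
        βα := by
          rw [← hcomp (C.equi_d n) (C.equi_d (n + 1)), C.d_comp_d n, Mt_zero]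
        comm_α := fun j => by
          rw [← hcomp (C.equi_d n) ((hG j).equi (n + 1)), ← hcomp ((hG j).equi n) (C.equi_d n),
            (hG j).comm_d n]
        comm_β := fun j => by
          rw [← hcomp ((hG j).equi (n + 1)) (C.equi_d (n + 1)),
            ← hcomp (C.equi_d (n + 1)) ((hG j).equi (n + 2)), (hG j).comm_d (n + 1)]
        htpy := fun j k => ht j k }
    refine ⟨ℳ, fun i => ?_⟩
    obtain ⟨ψ, hψ⟩ := exists_equivH ℳ fam i (Fun (ρ i) (C.Y (n + 1))) (C.cocyc (ρ i) (n + 1))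
      (C.cobd (ρ i) (n + 1)) inf_le_left (funEquiv (ρ i) (e (n + 1)) (he (n + 1)))
      (fun f => mem_cocyc_iff fam c₀ c₁ ρ h₀ h₁ e he i (n + 1) f)
      (fun f => mem_cobd_iff fam c₀ c₁ ρ h₀ h₁ e he i n f)
    refine ⟨ψ, fun j u => ?_⟩
    obtain ⟨u, rfl⟩ := Submodule.Quotient.mk_surjective _ u
    rw [hψ, Mats.Ch.op_mk]
    change _ = ψ (Submodule.Quotient.mk ⟨pull Ω (fam.W i) (G j (n + 1)) u.1,
      (hG j).pull_mem_cocyc (ρ i) (n + 1) u.2⟩)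
    rw [hψ]
    refine congrArg _ (Subtype.ext ?_)
    exact hmact i j (n + 1) ⟨u.1, u.2.1⟩

end

end Pool.Agent.Lib.MP_666dc0_nt.CL
end
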