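import Pool.Agent.Lib.MP_666dc0_nt.CL.M1
import Pool.Agent.Lib.MP_666dc0_nt.EP.FD5
import Pool.Agent.Lib.MP_666dc0_nt.Mg.G014
import Pool.Agent.Lib.MP_666dc0_nt.Mg.G006
import Pool.Agent.Lib.MP_666dc0_nt.CL.M2
import Pool.Agent.Lib.MP_666dc0_nt.CL.P2eGen
import Pool.Agent.Lib.MP_666dc0_nt.FM.VDefs

section

/-!
# CL, E1: the Euler characteristic of the cohomology at deep levels
-/

open NumberField IsDedekindDomain
open scoped NumberField

namespace Pool.Agent.Lib.MP_666dc0_nt.CL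

open WL ZO FM EP EC

/-- The trace of a translation without fixed points. -/
theorem trace_WI {ℓ : ℕ} [Fact ℓ.Prime] {G : Type} [Group G] {w : ℕ}
    (ρ : G →* Matrix (Fin w) (Fin w) (PadicAlgCl ℓ)) (J : Subgroup G) [J.FiniteIndex]
    [FiniteDimensional (PadicAlgCl ℓ) (WI J ρ)]
    (T : Module.End (PadicAlgCl ℓ) (WI J ρ)) (g : G) (hT : ∀ Φ x, (T Φ).1 x = Φ.1 (g⁻¹ * x))
    (hg : ∀ x : G, x⁻¹ * g * x ∉ J) : LinearMap.trace (PadicAlgCl ℓ) _ T = 0 := by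
  classical
  let _ : Fintype (G ⧸ J) := Fintype.ofFinite _
  let P : G ⧸ J → Module.End (PadicAlgCl ℓ) (WI J ρ) := fun c =>
    { toFun := fun Φ => ⟨fun x => if (QuotientGroup.mk x : G ⧸ J) = c then Φ.1 x else 0,
        fun x k hk => by
          have h1 : (QuotientGroup.mk (x * k) : G ⧸ J) = QuotientGroup.mk x := by
            rw [QuotientGroup.eq]
            have h2 : (x * k)⁻¹ * x = k⁻¹ := by group
            rw [h2]
            exact J.inv_mem hk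
          change (if (QuotientGroup.mk (x * k) : G ⧸ J) = c then Φ.1 (x * k) else 0) =
            (ρ k⁻¹).mulVec (if (QuotientGroup.mk x : G ⧸ J) = c then Φ.1 x else 0)
          rw [h1]
          split_ifs
          · exact Φ.2 x k hk
          · rw [Matrix.mulVec_zero]⟩
      map_add' := fun Φ Ψ => Subtype.ext (funext fun x => by
        change (if (QuotientGroup.mk x : G ⧸ J) = c then Φ.1 x + Ψ.1 x else 0) =
          (if (QuotientGroup.mk x : G ⧸ J) = c then Φ.1 x else 0) +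
            (if (QuotientGroup.mk x : G ⧸ J) = c then Ψ.1 x else 0)
        split_ifs
        · rfl
        · rw [add_zero])
      map_smul' := fun a Φ => Subtype.ext (funext fun x => by
        change (if (QuotientGroup.mk x : G ⧸ J) = c then a • Φ.1 x else 0) =
          a • (if (QuotientGroup.mk x : G ⧸ J) = c then Φ.1 x else 0)
        split_ifs
        · rfl
        · rw [smul_zero]) }
  have hP : ∀ c Φ x, (P c Φ).1 x = if (QuotientGroup.mk x : G ⧸ J) = c then Φ.1 x else 0 :=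
    fun _ _ _ => rfl
  have hPP : ∀ c, P c * P c = P c := by
    intro c
    refine LinearMap.ext fun Φ => Subtype.ext (funext fun x => ?_)
    rw [Module.End.mul_apply, hP, hP]
    split_ifs <;> rfl
  have hsum : ∑ c, P c = 1 := by
    refine LinearMap.ext fun Φ => Subtype.ext (funext fun x => ?_)
    have h1 : ((∑ c, P c) Φ).1 x = ∑ c, (P c Φ).1 x := by
      rw [LinearMap.sum_apply, AddSubmonoidClass.coe_finsetSum, Finset.sum_apply]
    rw [h1]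
    simp only [hP]
    rw [Finset.sum_ite_eq, if_pos (Finset.mem_univ _)]
    rfl
  have hPTP : ∀ c, P c * T * P c = 0 := by
    intro c
    refine LinearMap.ext fun Φ => Subtype.ext (funext fun x => ?_)
    rw [Module.End.mul_apply, Module.End.mul_apply, hP, hT, hP]
    change _ = (0 : Fin w → PadicAlgCl ℓ)
    split_ifs with h1 h2
    · exfalso
      rw [← h1, QuotientGroup.eq] at h2
      apply hg x
      have h3 : (g⁻¹ * x)⁻¹ * x = x⁻¹ * g * x := by group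
      rwa [h3] at h2
    · rfl
    · rfl
  have h1 : T = ∑ c, P c * T := by
    rw [← Finset.sum_mul, hsum, one_mul]
  rw [h1, map_sum]
  refine Finset.sum_eq_zero fun c _ => ?_
  rw [← hPP c, mul_assoc, LinearMap.trace_mul_comm, hPTP, map_zero]

variable {F : Type} [Field F] [NumberField F] {n : ℕ} {D : Datum F n} {ℓ : ℕ} [Fact ℓ.Prime]
  {S : Finset (HeightOneSpectrum (𝓞 F))} {U : Subgroup D.Ad} {K : ℕ → Subgroup D.Ad} {d : ℕ}
  {ι : ℂ ≃+* PadicAlgCl ℓ}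

/-- The levels `K s` have trivial intersection. -/
theorem exists_notMem_K (hU : IsTame ℓ U) (hK : IsUniform ℓ d U K) {k : D.Ad} (h1 : k ≠ 1) :
    ∃ s, ∀ s', s ≤ s' → k ∉ K s' := by
  have hle : ∀ {s s'}, s ≤ s' → K s' ≤ K s := fun h => hK.tow.K_le h
  by_cases hk : k ∈ K 0
  · have hT2 : T2Space D.Ad := t2Space_Ad
    have hc : IsCompact (K 0 : Set D.Ad) := isCompact_of_isLevel hU (hK.level 0)
    have hcs : CompactSpace (K 0) := isCompact_iff_compactSpace.1 hc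
    have htd : TotallyDisconnectedSpace (K 0) := by
      have := totallyDisconnected_Ad (D := D)
      exact Subtype.totallyDisconnectedSpace
    have hO : IsOpen {x : K 0 | x ≠ ⟨k, hk⟩} := isOpen_compl_singleton
    have h1O : (1 : K 0) ∈ {x : K 0 | x ≠ ⟨k, hk⟩} := fun h => h1 (congrArg Subtype.val h).symm
    obtain ⟨H, hH⟩ := ProfiniteGrp.exist_openNormalSubgroup_sub_open_nhds_of_one hO h1O
    have hmem : ∀ x : K 0, (x : D.Ad) ∈ H.toSubgroup.map (K 0).subtype ↔ x ∈ H.toSubgroup := by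
      intro x
      constructor
      · rintro ⟨x', hx', he⟩
        have h3 : x' = x := Subtype.ext he
        exact h3 ▸ hx'
      · intro hx
        exact ⟨x, hx, rfl⟩
    have hlev : IsLevel ℓ U (H.toSubgroup.map (K 0).subtype) := by
      refine isLevel_of_isOpen hU (hK.level 0) ?_ ?_
      · rintro _ ⟨x, _, rfl⟩
        exact x.2
      · have h4 : {x : K 0 | (x : D.Ad) ∈ H.toSubgroup.map (K 0).subtype} =
            (H.toSubgroup : Set (K 0)) := by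
          ext x
          exact hmem x
        rw [h4]
        exact H.toOpenSubgroup.isOpen
    obtain ⟨s, hs⟩ := exists_level_le hU hK.tow hlev
    refine ⟨s, fun s' hs' h => ?_⟩
    have h5 : k ∈ H.toSubgroup.map (K 0).subtype := hs (hle hs' h)
    exact hH ((hmem ⟨k, hk⟩).1 h5) rfl
  · exact ⟨0, fun s' hs' h => hk (hle hs' h)⟩

variable (κ : Cz ℓ U K d ι)

/-- The trace of an element outside `K s`. -/
theorem Cz.trace_rep (i : MIx ℓ U K) (a : D.Rat × κ.L.K) (ha : ((a.2 : κ.L.K) : D.Ad) ∉ K i.1.1) :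
    LinearMap.trace (PadicAlgCl ℓ) (κ.fam.W i) (κ.rep i a) = 0 := by
  have hfi : (i.J.subgroupOf (K 0)).FiniteIndex := by
    obtain ⟨s, hs⟩ := κ.hJ i
    have hker : (κ.𝒬.q s).ker ≤ i.J.subgroupOf (K 0) := fun x hx => hs x hx
    exact Subgroup.finiteIndex_of_le hker
  have hfd : FiniteDimensional (PadicAlgCl ℓ) (WI (i.J.subgroupOf (K 0)) (κ.ρ i)) :=
    (finrank_WI κ.𝒬 (i.J.subgroupOf (K 0)) (κ.hJ i) (κ.ρ i)).1
  let k : K 0 := a.2
  refine trace_WI (κ.ρ i) (i.J.subgroupOf (K 0)) (κ.rep i a) k (fun Φ x => ?_) fun x hx => ha ?_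
  · exact κ.rep_apply i a.1 k Φ x
  · have h1 : ((x⁻¹ * k * x : K 0) : D.Ad) ∈ K i.1.1 := i.le (Subgroup.mem_subgroupOf.1 hx)
    have h2 := (κ.hq i.1.1 (x⁻¹ * k * x)).2 h1
    refine (κ.hq i.1.1 k).1 ?_
    have h3 : k = x * (x⁻¹ * k * x) * x⁻¹ := by group
    rw [h3, map_mul, map_mul, h2, mul_one, ← map_mul, mul_inv_cancel, map_one]

/-- The Euler characteristic. -/
theorem Cz.euler (hq : D.q.det ≠ 0) (hcl : HasClosedOrbit D) :
    ∃ (N m : ℕ) (c : PadicAlgCl ℓ) (s₀ : ℕ), 0 < m ∧ ∀ i : MIx ℓ U K,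
      (∀ j, N ≤ j → Module.finrank (PadicAlgCl ℓ) (EH (Zl ℓ) κ.L.E κ.L.X (κ.rep i) j) = 0) ∧
      (s₀ ≤ i.1.1 → (m : PadicAlgCl ℓ) * ∑ j ∈ Finset.range N, (-1) ^ j *
        (Module.finrank (PadicAlgCl ℓ) (EH (Zl ℓ) κ.L.E κ.L.X (κ.rep i) j) : PadicAlgCl ℓ) =
          c * (Module.finrank (PadicAlgCl ℓ) (κ.fam.W i) : PadicAlgCl ℓ)) := by
  classical
  have hne : Nonempty κ.L.E := ⟨(1 : D.Rat)⟩
  obtain ⟨N, m, hm, hN, hN'⟩ := exists_lefschetz_fd (L := PadicAlgCl ℓ)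
    (κ.L.isFD (Zl ℓ) hq (closed_uR hq hcl))
  let P' := Res.std (Zl ℓ) (D.Rat × κ.L.K) κ.L.E κ.L.X κ.L.free
  obtain ⟨ν, hν⟩ := hN' P' (Equi.id (A := D.Rat × κ.L.K) (R := Zl ℓ) (Y := κ.L.X))
  have hH : ∀ (i : MIx ℓ U K) j, Module.finrank (PadicAlgCl ℓ) (EH (Zl ℓ) κ.L.E κ.L.X (κ.rep i) j) =
      Module.finrank (PadicAlgCl ℓ) (P'.H (κ.rep i) j) := by
    intro i j
    have h1 := std_cobd (R := Zl ℓ) κ.L.free (κ.rep i) j
    change Module.finrank (PadicAlgCl ℓ) (P'.cocyc (κ.rep i) j ⧸ _) =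
      Module.finrank (PadicAlgCl ℓ) (P'.cocyc (κ.rep i) j ⧸ _)
    rw [← h1]
    rfl
  -- deep levels avoid the support
  have hs : ∃ s₀, ∀ a ∈ ν.support, ((a.2 : κ.L.K) : D.Ad) ≠ 1 → ∀ s, s₀ ≤ s →
      ((a.2 : κ.L.K) : D.Ad) ∉ K s := by
    have h1 : ∀ a : D.Rat × κ.L.K, ∃ s₀, ((a.2 : κ.L.K) : D.Ad) ≠ 1 → ∀ s, s₀ ≤ s →
        ((a.2 : κ.L.K) : D.Ad) ∉ K s := by
      intro a
      by_cases ha : ((a.2 : κ.L.K) : D.Ad) = 1
      · exact ⟨0, fun h => absurd ha h⟩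
      · obtain ⟨s, hs⟩ := exists_notMem_K κ.hU κ.hK ha
        exact ⟨s, fun _ => hs⟩
    choose f hf using h1
    refine ⟨ν.support.sup f, fun a ha ha1 s hs => hf a ha1 s (le_trans (Finset.le_sup ha) hs)⟩
  obtain ⟨s₀, hs₀⟩ := hs
  refine ⟨N, m, ∑ a ∈ ν.support.filter (fun a => ((a.2 : κ.L.K) : D.Ad) = 1),
    algebraMap (Zl ℓ) (PadicAlgCl ℓ) (ν a), s₀, hm, fun i => ⟨fun j hj => ?_, fun hi => ?_⟩⟩
  · have := κ.fam.fd i
    have h1 := (hN P' (κ.fam.W i) (κ.rep i) j).2 hj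
    rw [hH]
    exact Module.finrank_zero_of_subsingleton
  · have := κ.fam.fd i
    have h1 := hν (κ.fam.W i) (κ.rep i)
    have h2 : ∑ j ∈ Finset.range N, (-1) ^ j * LinearMap.trace (PadicAlgCl ℓ) _
        (hmap (κ.rep i) P' P' (Equi.id (A := D.Rat × κ.L.K) (R := Zl ℓ) (Y := κ.L.X)) j) =
        ∑ j ∈ Finset.range N, (-1) ^ j *
        (Module.finrank (PadicAlgCl ℓ) (EH (Zl ℓ) κ.L.E κ.L.X (κ.rep i) j) : PadicAlgCl ℓ) := by
      refine Finset.sum_congr rfl fun j _ => ?_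
      rw [hmap_id, hH]
      have := (hN P' (κ.fam.W i) (κ.rep i) j).1
      rw [LinearMap.trace_id]
    rw [← h2, h1, Finset.sum_mul, Finsupp.sum, ← Finset.sum_filter_add_sum_filter_not ν.support
      (fun a => ((a.2 : κ.L.K) : D.Ad) = 1)]
    have h3 : ∑ a ∈ ν.support.filter (fun a => ¬ ((a.2 : κ.L.K) : D.Ad) = 1),
        algebraMap (Zl ℓ) (PadicAlgCl ℓ) (ν a) *
          LinearMap.trace (PadicAlgCl ℓ) (κ.fam.W i) (κ.rep i a) = 0 := by
      refine Finset.sum_eq_zero fun a ha => ?_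
      rw [Finset.mem_filter] at ha
      rw [κ.trace_rep i a (hs₀ a ha.1 ha.2 _ hi), mul_zero]
    rw [h3, add_zero]
    refine Finset.sum_congr rfl fun a ha => ?_
    rw [Finset.mem_filter] at ha
    have h4 : κ.rep i a = 1 := by
      have h5 : κ.c₁ a = 1 := by
        have h6 : (show K 0 from a.2) = 1 := Subtype.ext ha.2
        exact (congrArg κ.𝒬.gr h6).trans (map_one _)
      change (κ.act i) (κ.c₁ a) = 1
      rw [h5, map_one]
    rw [h4]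
    congr 1
    exact LinearMap.trace_one _ _

end Pool.Agent.Lib.MP_666dc0_nt.CL
end

section

/-!
# CL, E2: the Euler characteristic and the multiplicities
-/

open NumberField IsDedekindDomain
open scoped NumberField

namespace Pool.Agent.Lib.MP_666dc0_nt.CL

open WL ZO FM EP EC

variable {F : Type} [Field F] [NumberField F] {n : ℕ} {D : Datum F n} {ℓ : ℕ} [Fact ℓ.Prime]
  {S : Finset (HeightOneSpectrum (𝓞 F))} {U : Subgroup D.Ad} {K : ℕ → Subgroup D.Ad} {d : ℕ}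
  {ι : ℂ ≃+* PadicAlgCl ℓ} (κ : Cz ℓ U K d ι)

/-- The Euler characteristic in terms of the multiplicities. -/
theorem Cz.exists_euler (hq : D.q.det ≠ 0) (hcl : HasClosedOrbit D) (r : ℕ → ℕ)
    (hr : ∀ m, ∃ C : ℝ, ∀ i : MIx ℓ U K,
      |(Module.finrank (PadicAlgCl ℓ) (κ.HM m i) : ℝ) -
        r m * Module.finrank (PadicAlgCl ℓ) (κ.fam.W i)| ≤
      C / (ℓ : ℝ) ^ i.1.1 * Module.finrank (PadicAlgCl ℓ) (κ.fam.W i)) :
    ∃ N s₀ : ℕ, ∀ i : MIx ℓ U K,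
      (∀ j, N ≤ j → Module.finrank (PadicAlgCl ℓ) (κ.HM j i) = 0) ∧
      (s₀ ≤ i.1.1 → ∑ j ∈ Finset.range N,
        (-1 : ℤ) ^ j * (Module.finrank (PadicAlgCl ℓ) (κ.HM j i) : ℤ) =
          (∑ j ∈ Finset.range N, (-1 : ℤ) ^ j * (r j : ℤ)) *
            (Module.finrank (PadicAlgCl ℓ) (κ.fam.W i) : ℤ)) := by
  obtain ⟨N, m, c, s₀, hm, h⟩ := κ.euler hq hcl
  refine ⟨N, s₀, fun i => ⟨(h i).1, fun hi => ?_⟩⟩
  choose C hC using hr
  let E : MIx ℓ U K → ℤ := fun i => ∑ j ∈ Finset.range N,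
    (-1 : ℤ) ^ j * (Module.finrank (PadicAlgCl ℓ) (κ.HM j i) : ℤ)
  let w : MIx ℓ U K → ℕ := fun i => Module.finrank (PadicAlgCl ℓ) (κ.fam.W i)
  let R : ℤ := ∑ j ∈ Finset.range N, (-1 : ℤ) ^ j * (r j : ℤ)
  change E i = R * w i
  have hE : ∀ i, s₀ ≤ i.1.1 → (m : PadicAlgCl ℓ) * (E i : PadicAlgCl ℓ) = c * (w i : PadicAlgCl ℓ) := by
    intro i hi
    rw [← (h i).2 hi]
    congr 1
    change ((∑ j ∈ Finset.range N,
      (-1 : ℤ) ^ j * (Module.finrank (PadicAlgCl ℓ) (κ.HM j i) : ℤ) : ℤ) : PadicAlgCl ℓ) = _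
    push_cast
    rfl
  have hm0 : (m : PadicAlgCl ℓ) ≠ 0 := Nat.cast_ne_zero.2 hm.ne'
  have hcross : ∀ i', s₀ ≤ i'.1.1 → E i * w i' = E i' * w i := by
    intro i' hi'
    have h1 : ((E i * w i' : ℤ) : PadicAlgCl ℓ) = ((E i' * w i : ℤ) : PadicAlgCl ℓ) := by
      apply mul_left_cancel₀ hm0
      push_cast
      rw [← mul_assoc, hE i hi, ← mul_assoc, hE i' hi']
      ring
    exact_mod_cast h1
  -- the bound
  let B : ℝ := ∑ j ∈ Finset.range N, C j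
  have hbd : ∀ i', |(E i' : ℝ) - R * w i'| ≤ B / (ℓ : ℝ) ^ i'.1.1 * w i' := by
    intro i'
    have h1 : (E i' : ℝ) - R * w i' = ∑ j ∈ Finset.range N, (-1 : ℝ) ^ j *
        ((Module.finrank (PadicAlgCl ℓ) (κ.HM j i') : ℝ) - r j * w i') := by
      change ((∑ j ∈ Finset.range N,
        (-1 : ℤ) ^ j * (Module.finrank (PadicAlgCl ℓ) (κ.HM j i') : ℤ) : ℤ) : ℝ) -
        ((∑ j ∈ Finset.range N, (-1 : ℤ) ^ j * (r j : ℤ) : ℤ) : ℝ) * w i' = _
      push_cast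
      rw [Finset.sum_mul, ← Finset.sum_sub_distrib]
      exact Finset.sum_congr rfl fun j _ => by ring
    rw [h1]
    refine (Finset.abs_sum_le_sum_abs _ _).trans ?_
    rw [Finset.sum_div, Finset.sum_mul]
    refine Finset.sum_le_sum fun j _ => ?_
    rw [abs_mul, abs_pow, abs_neg, abs_one, one_pow, one_mul]
    exact hC j i'
  by_contra hne
  have h2 : (1 : ℝ) ≤ |(E i : ℝ) - R * w i| := by
    have h3 : (1 : ℤ) ≤ |E i - R * w i| := Int.one_le_abs (sub_ne_zero.2 hne)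
    have h4 : ((1 : ℤ) : ℝ) ≤ ((|E i - R * w i| : ℤ) : ℝ) := Int.cast_le.2 h3
    push_cast at h4
    exact h4
  have hℓ : (1 : ℝ) < ℓ := by exact_mod_cast (Fact.out : ℓ.Prime).one_lt
  obtain ⟨s, hs⟩ := pow_unbounded_of_one_lt (|B| * w i) hℓ
  obtain ⟨i', hi', hw'⟩ := κ.fok.deep (max s s₀)
  have hi'0 : s₀ ≤ i'.1.1 := (le_max_right _ _).trans hi'
  have hi's : s ≤ i'.1.1 := (le_max_left _ _).trans hi'
  have hw'' : (0 : ℝ) < w i' := Nat.cast_pos.2 hw'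
  have h5 : ((E i : ℝ) - R * w i) * w i' = ((E i' : ℝ) - R * w i') * w i := by
    have h6 : (E i : ℝ) * w i' = E i' * w i := by exact_mod_cast hcross i' hi'0
    linear_combination h6
  have h6 : |(E i : ℝ) - R * w i| * w i' ≤ B / (ℓ : ℝ) ^ i'.1.1 * w i' * w i := by
    rw [← abs_of_pos hw'', ← abs_mul, h5, abs_mul, Nat.abs_cast, Nat.abs_cast]
    exact mul_le_mul_of_nonneg_right (hbd i') (Nat.cast_nonneg _)
  have h7 : |(E i : ℝ) - R * w i| ≤ B / (ℓ : ℝ) ^ i'.1.1 * w i := by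
    have h8 : B / (ℓ : ℝ) ^ i'.1.1 * w i' * w i = B / (ℓ : ℝ) ^ i'.1.1 * w i * w i' := by ring
    rw [h8] at h6
    exact le_of_mul_le_mul_right h6 hw''
  have hpos : (0 : ℝ) < (ℓ : ℝ) ^ i'.1.1 := pow_pos (by linarith) _
  have h8 : B / (ℓ : ℝ) ^ i'.1.1 * w i < 1 := by
    rw [div_mul_eq_mul_div, div_lt_one hpos]
    calc B * w i ≤ |B| * w i := mul_le_mul_of_nonneg_right (le_abs_self _) (Nat.cast_nonneg _)
      _ < (ℓ : ℝ) ^ s := hs
      _ ≤ (ℓ : ℝ) ^ i'.1.1 := pow_le_pow_right₀ hℓ.le hi's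
  linarith

end Pool.Agent.Lib.MP_666dc0_nt.CL
end

section

/-!
# CL, M3: closed properties
-/

open NumberField IsDedekindDomain TensorProduct
open scoped NumberField TensorProduct

namespace Pool.Agent.Lib.MP_666dc0_nt.CL

open WL ZO FM EP EC

variable {F : Type} [Field F] [NumberField F] {n : ℕ} {D : Datum F n} {ℓ : ℕ} [Fact ℓ.Prime]
  {S : Finset (HeightOneSpectrum (𝓞 F))} {U : Subgroup D.Ad} {K : ℕ → Subgroup D.Ad} {d : ℕ}
  {ι : ℂ ≃+* PadicAlgCl ℓ}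

section rep

variable {B : Type} [CommRing B] [Algebra B (PadicAlgCl ℓ)] {O : Type} [CommRing O]
  [HopfAlgebra B O] {A : OverB.HopfAction B Gal(AlgebraicClosure F/F) O}
  {φ : HeightOneSpectrum (𝓞 F) → Gal(AlgebraicClosure F/F)}

theorem hasGal_iff (sat : ∀ v, InvFun A (φ v) → Hecke U v) (ι : ℂ ≃+* PadicAlgCl ℓ) (lam : HSys U) :
    HasGal ℓ A S φ sat ι lam ↔ ∃ r : Gal(AlgebraicClosure F/F) →* A.LGroup (PadicAlgCl ℓ),
      OverB.IsAttachedTo A S φ (fun v (f : A.inv (φ v)) => ι (lam v (sat v ⟨f.1, f.2⟩))) r := by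
  constructor
  · rintro ⟨r, h1, h2, h3⟩
    exact ⟨r, ⟨h1, h2, fun v hv => (h3 v hv).1, fun v hv f => (h3 v hv).2 ⟨f.1, f.2⟩⟩⟩
  · rintro ⟨r, h⟩
    exact ⟨r, h.proj, h.cont, fun v hv => ⟨h.unram v hv, fun f => h.value v hv ⟨f.1, f.2⟩⟩⟩

/-- The existence of an attached homomorphism is a closed property. -/
theorem isClosedC_att {B : Type} [CommRing B]
    [IsDomain B] [IsPrincipalIdealRing B] [Algebra B ℚ] [IsFractionRing B ℚ] [Algebra B (PadicAlgCl ℓ)]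
    {O : Type} [CommRing O] [HopfAlgebra B O] [Algebra.FiniteType B O] [Module.Free B O]
    (hO : LinearlyReductive (ℚ ⊗[B] O)) (A : OverB.HopfAction B Gal(AlgebraicClosure F/F) O)
    (hA : IsOpen (A.act.ker : Set Gal(AlgebraicClosure F/F)))
    (hS : ∀ v, v ∉ S → ∀ P u, IsInertiaAt v P u → A.act u = 1)
    (φ : HeightOneSpectrum (𝓞 F) → Gal(AlgebraicClosure F/F))
    (hφ : ∀ v, v ∉ S → ∃ P : Ideal (𝓞 (AlgebraicClosure F)), IsOver v P ∧
      (IsFrob v P (φ v) ∨ IsFrob v P (φ v)⁻¹))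
    (sat : ∀ v, InvFun A (φ v) → Hecke U v) (hsat : ∀ v f, (sat v f).IsIntegral ℓ) (ι : ℂ ≃+* PadicAlgCl ℓ)
    (K₀ : Subgroup D.Ad) (m : ℕ)
    (hC : ∀ lam ∈ CSys ℓ S U K₀ m, ∃ C : Set (PadicAlgCl ℓ), IsCompact C ∧
      ∀ P : MvPolynomial (IX ℓ S U) ℤ, ι (pval ℓ S lam P) ∈ C) :
    IsClosedC ℓ S ι U K₀ m (HasGal ℓ A S φ sat ι) := by
  intro lam hlam hctl
  refine (hasGal_iff _ _ _).2 ?_
  refine exists_attached_of_ctl hO A hA hS φ hφ (I := IX ℓ S U)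
    (fun v hv f => ⟨⟨v, sat v ⟨f.1, f.2⟩⟩, hv, hsat v _⟩)
    (iv ι '' {e | e ∈ CSys ℓ S U K₀ m ∧ HasGal ℓ A S φ sat ι e}) (iv ι lam) (controlled_iff.2 hctl)
    ?_ ?_ _ ?_
  · intro z hz
    have h1 : ∃ e ∈ CSys ℓ S U K₀ m, iv ι e = z := by
      rcases Set.mem_insert_iff.1 hz with rfl | ⟨e, he, rfl⟩
      · exact ⟨lam, hlam, rfl⟩
      · exact ⟨e, he.1, rfl⟩
    obtain ⟨e, he, rfl⟩ := h1
    obtain ⟨C, h2, h3⟩ := hC e he
    refine ⟨C, h2, fun P => ?_⟩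
    rw [evP_iv]
    exact h3 P
  · rintro _ ⟨e, ⟨-, he⟩, rfl⟩
    obtain ⟨r, hr⟩ := (hasGal_iff _ _ _).1 he
    exact ⟨_, r, fun v hv f => rfl, hr⟩
  · intro v hv f
    rfl

end rep

/-- The vanishing of a polynomial in the Hecke operators is a closed property. -/
theorem isClosedC_pval (ι : ℂ ≃+* PadicAlgCl ℓ) (K₀ : Subgroup D.Ad) (m : ℕ)
    (P : MvPolynomial (IX ℓ S U) ℤ) :
    IsClosedC ℓ S ι U K₀ m fun lam => pval ℓ S lam P = 0 := by
  intro lam _ hctl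
  have h1 : ∀ ε : ℝ, 0 < ε → ‖ι (pval ℓ S lam P)‖ ≤ ε := by
    intro ε hε
    obtain ⟨I, -, hI, δ, hδ, h⟩ := hctl ε hε
    refine h P fun e he => ?_
    have h2 : pval ℓ S e P = 0 := (hI he).2
    rw [h2, map_zero, norm_zero]
    exact hδ.le
  have h2 : ‖ι (pval ℓ S lam P)‖ ≤ 0 := le_of_forall_pos_le_add fun ε hε => by
    rw [zero_add]
    exact h1 ε hε
  have h3 : ι (pval ℓ S lam P) = 0 := norm_le_zero_iff.1 h2
  exact (map_eq_zero_iff ι ι.injective).1 h3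

theorem AtMost.mono {f : Submodule ℂ (D.Cpx → ℂ) → Subgroup D.Ad → ℕ} {a b : ℕ} (h : AtMost ℓ U K f a)
    (hab : a ≤ b) : AtMost ℓ U K f b := by
  obtain ⟨c, hc⟩ := h
  refine ⟨c, fun s J hJ hJs Q hQ => (hc s J hJ hJs Q hQ).trans ?_⟩
  refine mul_le_mul_of_nonneg_right ?_ (Nat.cast_nonneg _)
  have h1 : (a : ℝ) ≤ b := Nat.cast_le.2 hab
  linarith

theorem AtMostN.mono {f : ℕ → Submodule ℂ (D.Cpx → ℂ) → Subgroup D.Ad → ℕ} {a b : ℕ}
    (h : AtMostN ℓ U K f a) (hab : a ≤ b) : AtMostN ℓ U K f b := by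
  obtain ⟨c, hc⟩ := h
  refine ⟨c, fun N s J hJ hJs Q hQ => (hc N s J hJ hJs Q hQ).trans ?_⟩
  refine mul_le_mul_of_nonneg_right ?_ (Nat.cast_nonneg _)
  have h1 : (a : ℝ) ≤ b := Nat.cast_le.2 hab
  linarith

theorem AtLeast.mono {f : Submodule ℂ (D.Cpx → ℂ) → Subgroup D.Ad → ℕ} {a b : ℕ}
    (h : AtLeast ℓ U K f a) (hab : b ≤ a) : AtLeast ℓ U K f b := by
  obtain ⟨c, hc⟩ := h
  refine ⟨c, fun s J hJ hJs Q hQ => le_trans ?_ (hc s J hJ hJs Q hQ)⟩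
  refine mul_le_mul_of_nonneg_right ?_ (Nat.cast_nonneg _)
  have h1 : (b : ℝ) ≤ a := Nat.cast_le.2 hab
  linarith

/-- The dichotomy for a closed property. -/
theorem IsFamiliesC.dich {m k : ℕ} {C : Fin k → Set (∀ v, Hecke U v → ℂ)} {a : Fin k → ℕ}
    (h : IsFamiliesC ℓ S U K ι m C a) {p : (∀ v, Hecke U v → ℂ) → Prop}
    (hp : IsClosedC ℓ S ι U (K 0) m p) (b : ℕ) :
    AtMostN ℓ U K (fun N Q J => dimOrd ℓ S Q U J m N p) b ∨
      AtLeast ℓ U K (fun Q J => dimGen ℓ S Q U J m p) (b + 1) := by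
  classical
  rcases le_or_gt (sumOf a fun i => ∀ lam ∈ C i, p lam) b with h1 | h1
  · exact Or.inl ((h.ord p hp).mono h1)
  · exact Or.inr ((h.gen p hp).mono (Nat.succ_le_of_lt h1))

end Pool.Agent.Lib.MP_666dc0_nt.CL
end
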